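import Pool.Agent.Lib.MP_305fdd_al.F8.BG.Five.Data

/-!
# MP_305fdd_al, congruence subgroups: the data of the ring `ℤ[w]`
-/

set_option autoImplicit false

namespace Pool.Agent.F8.CG

open Pool.Agent.F8.BG Pool.Agent.MP_305fdd_al Pool.Agent.Lib.MP_305fdd_al Pool.Agent.F8
open scoped QuadraticAlgebra

/-- `HasDat` with the property of `G₀` for scalar matrices -/
def HasG (a b : ℤ) : Prop := ∃ (ι : Type) (_ : Finite ι) (α : MulAut (FreeGroup ι)) (N : ℕ)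
  (w : ι → List ι) (M : ℕ) (c g : FreeGroup ι) (G₀ : Subgroup (GQ a b)) (η : G₀ →* GR α),
  BG.Dat α N w M c g G₀ η ∧ ∃ M₁ : ℕ, M₁ ≠ 0 ∧ ∀ x : GQ a b,
    (∃ ε : Qf a b (ZMod M₁), ε * ε = 1 ∧ (rdq a b M₁ x).val = ε • 1) → x ∈ G₀

end Pool.Agent.F8.CG
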