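import Pool.Agent.Lib.MP_305fdd_al.F8.CG.MainW1
import Pool.Agent.Lib.MP_305fdd_al.F8.CG.DefsG

/-!
# MP_305fdd_al, congruence subgroups: assembly of block W, part 2

The subgroup `D₁` of the matrices which intertwine, and the isomorphism `Λ / {1, z} ≅ D₁ / ± 1`.
-/

set_option autoImplicit false

namespace Pool.Agent.F8.CG

open Pool.Agent.F8.BG Pool.Agent.MP_305fdd_al Pool.Agent.Lib.MP_305fdd_al Pool.Agent.F8
open scoped QuadraticAlgebra

noncomputable section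

variable {a b : ℤ} {D : Subgroup (GQ a b)} {Λ : Type} [Group Λ] {Φ : NatBij D Λ} {m₀ : ℕ}
  [NeZero m₀] {ρ : LL Φ m₀ →* GQ a b}

/-! ### The group of the intertwiners -/

theorem Itw_iff (l : Λ) (A : GQ a b) : Itw ρ l A.val ↔ ∀ x : LL Φ m₀,
    ρ (cjL l x) * A = A * ρ x := by
  constructor
  · intro h x
    exact Subtype.ext (h x _ rfl)
  · intro h x y hy
    have h3 : y = cjL l x := Subtype.ext hy
    rw [h3]
    exact congrArg Subtype.val (h x)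

theorem cjL_mul (l l' : Λ) (x : LL Φ m₀) : cjL (l * l') x = cjL l (cjL l' x) :=
  Subtype.ext (by
    show (l * l') * x * (l * l')⁻¹ = l * (l' * x * l'⁻¹) * l⁻¹
    group)

theorem cjL_one (x : LL Φ m₀) : cjL (1 : Λ) x = x :=
  Subtype.ext (by
    show (1 : Λ) * x * (1 : Λ)⁻¹ = x
    group)

theorem Itw_one : Itw ρ (1 : Λ) (1 : GQ a b).val := by
  rw [Itw_iff]
  intro x
  rw [cjL_one, mul_one, one_mul]

theorem Itw_mul {l l' : Λ} {A A' : GQ a b} (h : Itw ρ l A.val) (h' : Itw ρ l' A'.val) :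
    Itw ρ (l * l') (A * A').val := by
  rw [Itw_iff] at *
  intro x
  rw [cjL_mul, ← mul_assoc, h, mul_assoc, h', mul_assoc]

theorem Itw_inv {l : Λ} {A : GQ a b} (h : Itw ρ l A.val) : Itw ρ l⁻¹ (A⁻¹).val := by
  rw [Itw_iff] at *
  intro x
  have h1 := h (cjL l⁻¹ x)
  rw [← cjL_mul, mul_inv_cancel, cjL_one] at h1
  rw [mul_inv_eq_iff_eq_mul, mul_assoc, h1, inv_mul_cancel_left]

theorem Itw_neg {l : Λ} {A : GQ a b} (h : Itw ρ l A.val) : Itw ρ l (-A).val := by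
  rw [Itw_iff] at *
  intro x
  rw [mul_neg, h, neg_mul]

theorem Itw_self (x₀ : LL Φ m₀) : Itw ρ (x₀ : Λ) (ρ x₀).val := by
  rw [Itw_iff]
  intro x
  have h1 : cjL (x₀ : Λ) x = x₀ * x * x₀⁻¹ := Subtype.ext rfl
  rw [h1, ← map_mul, inv_mul_cancel_right, map_mul]

/-- uniqueness up to the sign -/
theorem SW.uniq (B : BlkW) (H : SW Φ m₀ ρ) {l : Λ} {A A' : GQ a b} (h : Itw ρ l A.val)
    (h' : Itw ρ l A'.val) : A' = A ∨ A' = -A := by
  rw [Itw_iff] at *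
  have h1 : A⁻¹ * A' = 1 ∨ A⁻¹ * A' = -1 := by
    apply B.cen a b H.neg m₀ (NeZero.ne m₀)
    intro g hg
    obtain ⟨x, rfl⟩ := H.rng hg
    rw [mul_assoc, ← h' x, ← mul_assoc, ← mul_assoc]
    congr 1
    rw [eq_inv_mul_iff_mul_eq, ← mul_assoc, ← h x, mul_inv_cancel_right]
  rcases h1 with h1 | h1
  · left
    rw [inv_mul_eq_one] at h1
    exact h1.symm
  · right
    rw [inv_mul_eq_iff_eq_mul] at h1
    rw [h1, mul_neg, mul_one]

/-- the group of the intertwiners -/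
def Dn (ρ : LL Φ m₀ →* GQ a b) : Subgroup (GQ a b) where
  carrier := {A | ∃ l : Λ, Itw ρ l A.val}
  mul_mem' := by
    rintro A A' ⟨l, h⟩ ⟨l', h'⟩
    exact ⟨l * l', Itw_mul h h'⟩
  one_mem' := ⟨1, Itw_one⟩
  inv_mem' := by
    rintro A ⟨l, h⟩
    exact ⟨l⁻¹, Itw_inv h⟩

theorem mem_Dn {A : GQ a b} : A ∈ Dn ρ ↔ ∃ l : Λ, Itw ρ l A.val := Iff.rfl

theorem neg_mem_Dn : -1 ∈ Dn ρ := ⟨1, Itw_neg Itw_one⟩

theorem SW.le_Dn (H : SW Φ m₀ ρ) : Gam a b m₀ ≤ Dn ρ := by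
  intro g hg
  obtain ⟨x, rfl⟩ := H.rng hg
  exact ⟨x, Itw_self x⟩

/-! ### The homomorphism to `D₁ / ± 1` -/

variable {P₁ : Type} [Group P₁]

theorem pr_neg (pr₁ : Dn ρ →* P₁) (hk : ∀ x, pr₁ x = 1 ↔ x.val = 1 ∨ x.val = -1) (A : GQ a b)
    (h : A ∈ Dn ρ) (h' : -A ∈ Dn ρ) : pr₁ ⟨-A, h'⟩ = pr₁ ⟨A, h⟩ := by
  have h1 : (⟨-A, h'⟩ : Dn ρ) = ⟨A, h⟩ * ⟨-1, neg_mem_Dn⟩ := Subtype.ext (by
    show -A = A * -1
    rw [mul_neg, mul_one])
  rw [h1, map_mul, (hk ⟨-1, neg_mem_Dn⟩).2 (Or.inr rfl), mul_one]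

theorem SW.pr_eq (B : BlkW) (H : SW Φ m₀ ρ) (pr₁ : Dn ρ →* P₁)
    (hk : ∀ x, pr₁ x = 1 ↔ x.val = 1 ∨ x.val = -1) {l : Λ} {A A' : GQ a b} (h : Itw ρ l A.val)
    (h' : Itw ρ l A'.val) : pr₁ ⟨A', l, h'⟩ = pr₁ ⟨A, l, h⟩ := by
  rcases H.uniq B h h' with h1 | h1
  · subst h1; rfl
  · subst h1
    exact pr_neg pr₁ hk A _ _

/-- the homomorphism to `D₁ / ± 1` -/
def SW.th (B : BlkW) (H : SW Φ m₀ ρ) (pr₁ : Dn ρ →* P₁)
    (hk : ∀ x, pr₁ x = 1 ↔ x.val = 1 ∨ x.val = -1) : Λ →* P₁ where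
  toFun l := pr₁ ⟨(H.ex_one B l).choose, l, (H.ex_one B l).choose_spec⟩
  map_one' := by
    rw [H.pr_eq B pr₁ hk Itw_one (H.ex_one B 1).choose_spec]
    exact map_one pr₁
  map_mul' l l' := by
    rw [H.pr_eq B pr₁ hk (Itw_mul (H.ex_one B l).choose_spec (H.ex_one B l').choose_spec)
      (H.ex_one B (l * l')).choose_spec, ← map_mul]
    rfl

theorem SW.th_eq (B : BlkW) (H : SW Φ m₀ ρ) (pr₁ : Dn ρ →* P₁)
    (hk : ∀ x, pr₁ x = 1 ↔ x.val = 1 ∨ x.val = -1) {l : Λ} {A : GQ a b} (h : Itw ρ l A.val) :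
    H.th B pr₁ hk l = pr₁ ⟨A, l, h⟩ :=
  H.pr_eq B pr₁ hk h (H.ex_one B l).choose_spec

theorem SW.th_surj (B : BlkW) (H : SW Φ m₀ ρ) (pr₁ : Dn ρ →* P₁)
    (hk : ∀ x, pr₁ x = 1 ↔ x.val = 1 ∨ x.val = -1) (hs : Function.Surjective pr₁) :
    Function.Surjective (H.th B pr₁ hk) := by
  intro p
  obtain ⟨⟨A, l, h⟩, rfl⟩ := hs p
  exact ⟨l, H.th_eq B pr₁ hk h⟩

/-! ### The kernel -/

/-- separation by finite quotients -/
theorem rf_ext (hR : Group.ResiduallyFinite Λ) {x y : Λ}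
    (h : ∀ (Q : Type) [Group Q] [Finite Q] (f : D →* Q), Φ.toFun Q f x = Φ.toFun Q f y) :
    x = y := by
  rw [← inv_mul_eq_one]
  by_contra hne
  obtain ⟨H, hH⟩ := Group.exists_finiteIndexNormalSubgroup_notMem _ hne
  have hfin : Finite (Λ ⧸ H.toSubgroup) := Subgroup.finite_quotient_of_finiteIndex
  have h1 := h _ (Φ.invFun _ (QuotientGroup.mk' H.toSubgroup))
  rw [Φ.right_inv] at h1
  apply hH
  exact QuotientGroup.eq.1 h1

theorem SW.rdq_one (H : SW Φ m₀ ρ) (x : LL Φ m₀)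
    (h : ∀ (m : ℕ) [NeZero m], Φ.toFun _ ((rdq a b m).comp D.subtype) x = 1) : x = 1 := by
  apply H.inj
  rw [map_one]
  apply SL_eq_of_all
  intro m _
  rw [map_one]
  obtain ⟨C, E, h1, h2, h3⟩ := H.cj m
  apply Subtype.ext
  rw [h3, h]
  show C * 1 * E = 1
  rw [Matrix.mul_one, h1]

theorem SW.eq_one (H : SW Φ m₀ ρ) (l : Λ)
    (h : ∀ (m : ℕ) [NeZero m], Φ.toFun _ ((rdq a b m).comp D.subtype) l = 1) : l = 1 := by
  have h1 : l ∈ LL Φ m₀ := Or.inl (h m₀)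
  have h2 : (⟨l, h1⟩ : LL Φ m₀) = 1 := H.rdq_one ⟨l, h1⟩ h
  exact congrArg Subtype.val h2

/-- THE KERNEL -/
theorem SW.ker (B : BlkW) (H : SW Φ m₀ ρ) (hg : HasG a b) (hD : Gam a b m₀ ≤ D)
    (hR : Group.ResiduallyFinite Λ) (hn : -1 ∈ D) (z : Λ)
    (hz : ∀ (Q : Type) [Group Q] [Finite Q] (f : D →* Q), Φ.toFun Q f z = f ⟨-1, hn⟩)
    {l : Λ} (h : Itw ρ l (1 : GQ a b).val) : l = 1 ∨ l = z := by
  have hsc : ∀ (m : ℕ) [NeZero m], ∃ ε : Qf a b (ZMod m), ε * ε = 1 ∧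
      (Φ.toFun _ ((rdq a b m).comp D.subtype) l).val = ε • 1 := by
    intro m _
    obtain ⟨C, E, h1, h2, h3⟩ := H.ex_k B m
    obtain ⟨ε, h4, h5⟩ := h3 l 1 h
    refine ⟨ε, h4, ?_⟩
    have h6 : (rdq a b m 1).val = 1 := by rw [map_one]; rfl
    rw [h6] at h5
    have h7 := cjR_cancel C E h1 h2 (Φ.toFun _ ((rdq a b m).comp D.subtype) l).val
    have h8 : ε • (1 : Matrix (Fin 2) (Fin 2) (Qf a b (ZMod m))) =
        C * (Φ.toFun _ ((rdq a b m).comp D.subtype) l).val * E := by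
      rw [h5, smul_smul, h4, one_smul]
    rw [← h8, Matrix.mul_smul, Matrix.smul_mul, Matrix.mul_one, h2] at h7
    exact h7.symm
  have hll : l * l = 1 := by
    apply H.eq_one
    intro m _
    obtain ⟨ε, h1, h2⟩ := hsc m
    rw [map_mul]
    apply Subtype.ext
    show (Φ.toFun _ ((rdq a b m).comp D.subtype) l).val *
      (Φ.toFun _ ((rdq a b m).comp D.subtype) l).val = 1
    rw [h2, Matrix.smul_mul, Matrix.mul_smul, smul_smul, h1, one_smul, Matrix.one_mul]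
  obtain ⟨ι, _, α, N, w, M, c, g, G₀, η, hdat, M₁, hM₁, hG₀⟩ := hg
  obtain ⟨s, hs⟩ := B.ker a b ι α N w M c g G₀ η hdat M₁ hM₁ hG₀ D m₀ (NeZero.ne m₀) hD Λ hR Φ l
    hll (fun m _ => (hsc m).imp fun ε h => h.2)
  have hzr : ∀ (m : ℕ) [NeZero m], (Φ.toFun _ ((rdq a b m).comp D.subtype) z).val = -1 := by
    intro m _
    rw [hz]
    show (rdq a b m (-1)).val = -1
    rw [rdq_neg, map_one]
    rfl
  have hz2 : z * z = 1 := by
    apply H.eq_one
    intro m _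
    rw [map_mul]
    apply Subtype.ext
    show (Φ.toFun _ ((rdq a b m).comp D.subtype) z).val *
      (Φ.toFun _ ((rdq a b m).comp D.subtype) z).val = 1
    rw [hzr, neg_mul_neg, Matrix.one_mul]
  rcases Int.units_eq_one_or s with rfl | rfl
  · left
    apply H.eq_one
    intro m _
    apply Subtype.ext
    rw [hs]
    show ((1 : ℤ) : Qf a b (ZMod m)) • (1 : Matrix (Fin 2) (Fin 2) (Qf a b (ZMod m))) = 1
    rw [Int.cast_one, one_smul]
  · right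
    have h1 : l * z = 1 := by
      apply H.eq_one
      intro m _
      rw [map_mul]
      apply Subtype.ext
      show (Φ.toFun _ ((rdq a b m).comp D.subtype) l).val *
        (Φ.toFun _ ((rdq a b m).comp D.subtype) z).val = 1
      rw [hs, hzr]
      show (((-1 : ℤ)) : Qf a b (ZMod m)) • (1 : Matrix (Fin 2) (Fin 2) (Qf a b (ZMod m))) * -1 = 1
      rw [Int.cast_neg, Int.cast_one, neg_smul, one_smul, neg_mul_neg, Matrix.one_mul]
    calc l = l * z * z := by rw [mul_assoc, hz2, mul_one]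
      _ = z := by rw [h1, one_mul]

/-- `z` acts trivially on `L` -/
theorem z_comm (hR : Group.ResiduallyFinite Λ) (hn : -1 ∈ D) (z : Λ)
    (hz : ∀ (Q : Type) [Group Q] [Finite Q] (f : D →* Q), Φ.toFun Q f z = f ⟨-1, hn⟩) (x : Λ) :
    z * x = x * z := by
  apply rf_ext (Φ := Φ) hR
  intro Q _ _ f
  rw [map_mul, map_mul, hz]
  have h1 : Φ.toFun Q f x ∈ f.range := by
    rw [← Φ.range_eq f]
    exact ⟨x, rfl⟩
  obtain ⟨y, hy⟩ := h1
  rw [← hy, ← map_mul, ← map_mul]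
  congr 1
  apply Subtype.ext
  show -1 * y.val = y.val * -1
  rw [neg_mul, one_mul, mul_neg, mul_one]

theorem Itw_z (hR : Group.ResiduallyFinite Λ) (hn : -1 ∈ D) (z : Λ)
    (hz : ∀ (Q : Type) [Group Q] [Finite Q] (f : D →* Q), Φ.toFun Q f z = f ⟨-1, hn⟩) :
    Itw ρ z (1 : GQ a b).val := by
  rw [Itw_iff]
  intro x
  have h1 : cjL z x = x := Subtype.ext (by
    show z * x * z⁻¹ = x
    rw [z_comm hR hn z hz, mul_inv_cancel_right])
  rw [h1, mul_one, one_mul]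

theorem SW.th_ker (B : BlkW) (H : SW Φ m₀ ρ) (hg : HasG a b) (hD : Gam a b m₀ ≤ D)
    (hR : Group.ResiduallyFinite Λ) (hn : -1 ∈ D) (z : Λ)
    (hz : ∀ (Q : Type) [Group Q] [Finite Q] (f : D →* Q), Φ.toFun Q f z = f ⟨-1, hn⟩)
    (pr₁ : Dn ρ →* P₁) (hk : ∀ x, pr₁ x = 1 ↔ x.val = 1 ∨ x.val = -1) (l : Λ) :
    H.th B pr₁ hk l = 1 ↔ l = 1 ∨ l = z := by
  constructor
  · intro h
    obtain ⟨A, hA⟩ := H.ex_one B l
    rw [H.th_eq B pr₁ hk hA, hk] at h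
    rcases h with h | h
    · have h1 : A = 1 := h
      subst h1
      exact H.ker B hg hD hR hn z hz hA
    · have h1 : A = -1 := h
      subst h1
      have h2 := Itw_neg hA
      rw [neg_neg] at h2
      exact H.ker B hg hD hR hn z hz h2
  · rintro (rfl | rfl)
    · exact map_one _
    · rw [H.th_eq B pr₁ hk (Itw_z hR hn l hz)]
      exact map_one pr₁

/-- the isomorphism -/
theorem SW.iso (B : BlkW) (H : SW Φ m₀ ρ) (hg : HasG a b) (hD : Gam a b m₀ ≤ D)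
    (hR : Group.ResiduallyFinite Λ) (hn : -1 ∈ D) (z : Λ)
    (hz : ∀ (Q : Type) [Group Q] [Finite Q] (f : D →* Q), Φ.toFun Q f z = f ⟨-1, hn⟩)
    {Λp : Type} [Group Λp] (pr' : Λ →* Λp) (hs' : Function.Surjective pr')
    (hk' : ∀ l, pr' l = 1 ↔ l = 1 ∨ l = z)
    (pr₁ : Dn ρ →* P₁) (hk : ∀ x, pr₁ x = 1 ↔ x.val = 1 ∨ x.val = -1)
    (hs : Function.Surjective pr₁) : Nonempty (Λp ≃* P₁) := by
  have h1 : pr'.ker = (H.th B pr₁ hk).ker := by
    ext l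
    rw [MonoidHom.mem_ker, MonoidHom.mem_ker, hk', H.th_ker B hg hD hR hn z hz]
  exact ⟨(QuotientGroup.quotientKerEquivOfSurjective pr' hs').symm.trans
    ((QuotientGroup.quotientMulEquivOfEq h1).trans
    (QuotientGroup.quotientKerEquivOfSurjective _ (H.th_surj B pr₁ hk hs)))⟩

/-! ### The local relation and the index -/

/-- `D₁` and `D` are conjugate modulo `k`, up to scalar matrices -/
theorem SW.rel (B : BlkW) (H : SW Φ m₀ ρ) (k : ℕ) [NeZero k] :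
    ∃ C E : Matrix (Fin 2) (Fin 2) (Qf a b (ZMod k)), C * E = 1 ∧ E * C = 1 ∧
      (∀ A ∈ Dn ρ, ∃ x ∈ D, ∃ ε : Qf a b (ZMod k), ε * ε = 1 ∧
        (rdq a b k A).val = ε • (C * (rdq a b k x).val * E)) ∧
      ∀ x ∈ D, ∃ A ∈ Dn ρ, ∃ ε : Qf a b (ZMod k), ε * ε = 1 ∧
        (rdq a b k A).val = ε • (C * (rdq a b k x).val * E) := by
  obtain ⟨C, E, h1, h2, h3⟩ := H.ex_k B k
  refine ⟨C, E, h1, h2, ?_, ?_⟩
  · rintro A ⟨l, hA⟩
    obtain ⟨ε, h4, h5⟩ := h3 l A hA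
    have h6 : Φ.toFun _ ((rdq a b k).comp D.subtype) l ∈ ((rdq a b k).comp D.subtype).range := by
      rw [← Φ.range_eq]
      exact ⟨l, rfl⟩
    obtain ⟨x, hx⟩ := h6
    exact ⟨x, x.2, ε, h4, by rw [h5, ← hx]; rfl⟩
  · intro x hx
    have h6 : (rdq a b k).comp D.subtype ⟨x, hx⟩ ∈
        (Φ.toFun _ ((rdq a b k).comp D.subtype)).range := by
      rw [Φ.range_eq]
      exact ⟨_, rfl⟩
    obtain ⟨l, hl⟩ := h6
    obtain ⟨A, hA⟩ := H.ex_one B l
    obtain ⟨ε, h4, h5⟩ := h3 l A hA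
    exact ⟨A, ⟨l, hA⟩, ε, h4, by rw [h5, hl]; rfl⟩

/-- the subgroup `± 1` of `D₁` -/
def N₁ (ρ : LL Φ m₀ →* GQ a b) : Subgroup (Dn ρ) := (pmo (Qf a b ℤ)).subgroupOf (Dn ρ)

instance pmo_normal (R : Type) [CommRing R] : (pmo R).Normal := by
  constructor
  rintro x (rfl | rfl) g
  · left
    rw [mul_one, mul_inv_cancel]
  · right
    rw [mul_neg, mul_one, neg_mul, mul_inv_cancel]

instance N₁_normal : (N₁ ρ).Normal := inferInstanceAs ((pmo (Qf a b ℤ)).subgroupOf (Dn ρ)).Normal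

/-- the projection -/
def pr₁ (ρ : LL Φ m₀ →* GQ a b) : Dn ρ →* Dn ρ ⧸ N₁ ρ := QuotientGroup.mk' _

theorem pr₁_ker (x : Dn ρ) : pr₁ ρ x = 1 ↔ x.val = 1 ∨ x.val = -1 := by
  unfold pr₁
  rw [QuotientGroup.mk'_apply, QuotientGroup.eq_one_iff]
  rfl

theorem pr₁_surj : Function.Surjective (pr₁ ρ) := QuotientGroup.mk'_surjective _

/-- THE INDEX -/
theorem SW.index (B : BlkW) (H : SW Φ m₀ ρ) (hg : HasG a b) (hD : Gam a b m₀ ≤ D)
    (hR : Group.ResiduallyFinite Λ) (hn : -1 ∈ D) (z : Λ)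
    (hz : ∀ (Q : Type) [Group Q] [Finite Q] (f : D →* Q), Φ.toFun Q f z = f ⟨-1, hn⟩) :
    (Dn ρ).index = D.index := by
  have hT : Function.Surjective (rdq a b m₀) := p_Csrd a b m₀
  have e1 : D.index = (D.map (rdq a b m₀)).index := (Subgroup.index_map_eq D hT hD).symm
  have e2 : (Dn ρ).index = ((Dn ρ).map (rdq a b m₀)).index :=
    (Subgroup.index_map_eq (Dn ρ) hT H.le_Dn).symm
  have e3 : D.map (rdq a b m₀) = (Φ.toFun _ ((rdq a b m₀).comp D.subtype)).range := by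
    rw [Φ.range_eq, MonoidHom.range_comp, Subgroup.range_subtype]
  have e4 : (Dn ρ).map (rdq a b m₀) = ((rdq a b m₀).comp (Dn ρ).subtype).range := by
    rw [MonoidHom.range_comp, Subgroup.range_subtype]
  have hle : ∀ K : Subgroup (GQ a b), -1 ∈ K → pmo (Qf a b (ZMod m₀)) ≤ K.map (rdq a b m₀) := by
    rintro K hK x (rfl | rfl)
    · exact one_mem _
    · exact ⟨-1, hK, by rw [rdq_neg, map_one]⟩
  have f1 := Subgroup.relIndex_mul_index (hle D hn)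
  have f2 := Subgroup.relIndex_mul_index (hle (Dn ρ) neg_mem_Dn)
  have g1 : (pmo (Qf a b (ZMod m₀))).relIndex (D.map (rdq a b m₀)) = (LL Φ m₀).index := by
    rw [e3]
    exact (Subgroup.index_comap _ _).symm
  let E₁ : Subgroup (Dn ρ) :=
    (pmo (Qf a b (ZMod m₀))).comap ((rdq a b m₀).comp (Dn ρ).subtype)
  have g2 : (pmo (Qf a b (ZMod m₀))).relIndex ((Dn ρ).map (rdq a b m₀)) = E₁.index := by
    rw [e4]
    exact (Subgroup.index_comap _ _).symm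
  have hker : (pr₁ ρ).ker ≤ E₁ := by
    intro x hx
    rw [MonoidHom.mem_ker, pr₁_ker] at hx
    show rdq a b m₀ x.val = 1 ∨ rdq a b m₀ x.val = -1
    rcases hx with hx | hx
    · left
      rw [hx, map_one]
    · right
      rw [hx, rdq_neg, map_one]
  have g3 : (E₁.map (pr₁ ρ)).index = E₁.index := Subgroup.index_map_eq E₁ pr₁_surj hker
  have g4 : LL Φ m₀ = (E₁.map (pr₁ ρ)).comap (H.th B (pr₁ ρ) pr₁_ker) := by
    ext l
    obtain ⟨A, hA⟩ := H.ex_one B l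
    rw [Subgroup.mem_comap, H.th_eq B (pr₁ ρ) pr₁_ker hA]
    have h1 : pr₁ ρ ⟨A, l, hA⟩ ∈ E₁.map (pr₁ ρ) ↔ (⟨A, l, hA⟩ : Dn ρ) ∈ E₁ := by
      constructor
      · rintro ⟨y, hy, hy2⟩
        have h2 : (⟨A, l, hA⟩ : Dn ρ) * y⁻¹ ∈ (pr₁ ρ).ker := by
          rw [MonoidHom.mem_ker, map_mul, map_inv, hy2, mul_inv_cancel]
        have h3 : (⟨A, l, hA⟩ : Dn ρ) = (⟨A, l, hA⟩ : Dn ρ) * y⁻¹ * y := by
          rw [inv_mul_cancel_right]
        rw [h3]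
        exact mul_mem (hker h2) hy
      · intro h
        exact ⟨_, h, rfl⟩
    rw [h1]
    show l ∈ LL Φ m₀ ↔ (rdq a b m₀ A = 1 ∨ rdq a b m₀ A = -1)
    obtain ⟨C, E, c1, c2, c3⟩ := H.cj m₀
    constructor
    · intro hl
      have h2 : A = ρ ⟨l, hl⟩ ∨ A = -ρ ⟨l, hl⟩ := H.uniq B (Itw_self ⟨l, hl⟩) hA
      have h3 : rdq a b m₀ (ρ ⟨l, hl⟩) = 1 ∨ rdq a b m₀ (ρ ⟨l, hl⟩) = -1 := by
        rcases hl with hl | hl
        · left
          apply Subtype.ext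
          rw [c3]
          show C * (Φ.toFun _ ((rdq a b m₀).comp D.subtype) l).val * E = 1
          rw [hl]
          show C * 1 * E = 1
          rw [Matrix.mul_one, c1]
        · right
          apply Subtype.ext
          rw [c3]
          show C * (Φ.toFun _ ((rdq a b m₀).comp D.subtype) l).val * E = -1
          rw [hl]
          show C * (-1) * E = -1
          rw [Matrix.mul_neg, Matrix.mul_one, Matrix.neg_mul, c1]
      rcases h2 with h2 | h2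
      · rw [h2]; exact h3
      · rw [h2, rdq_neg]
        rcases h3 with h3 | h3
        · right; rw [h3]
        · left; rw [h3, neg_neg]
    · intro h
      have h2 : A ∈ Gam a b m₀ ∨ -A ∈ Gam a b m₀ := by
        rcases h with h | h
        · exact Or.inl h
        · right
          show rdq a b m₀ (-A) = 1
          rw [rdq_neg, h, neg_neg]
      have h3 : ∃ x₀ : LL Φ m₀, A = ρ x₀ ∨ A = -ρ x₀ := by
        rcases h2 with h2 | h2
        · obtain ⟨x₀, hx₀⟩ := H.rng h2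
          exact ⟨x₀, Or.inl hx₀.symm⟩
        · obtain ⟨x₀, hx₀⟩ := H.rng h2
          exact ⟨x₀, Or.inr (by rw [hx₀, neg_neg])⟩
      obtain ⟨x₀, h3⟩ := h3
      have h4 : Itw ρ (x₀ : Λ) A.val := by
        rcases h3 with h3 | h3
        · rw [h3]; exact Itw_self x₀
        · rw [h3]; exact Itw_neg (Itw_self x₀)
      have h5 : H.th B (pr₁ ρ) pr₁_ker (l * (x₀ : Λ)⁻¹) = 1 := by
        rw [map_mul, map_inv, H.th_eq B _ _ hA, H.th_eq B _ _ h4, mul_inv_cancel]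
      rw [H.th_ker B hg hD hR hn z hz] at h5
      have h6 : l * (x₀ : Λ)⁻¹ ∈ LL Φ m₀ := by
        rcases h5 with h5 | h5
        · rw [h5]; exact one_mem _
        · rw [h5]
          right
          rw [hz]
          show rdq a b m₀ (-1) = -1
          rw [rdq_neg, map_one]
      have h7 : l = l * (x₀ : Λ)⁻¹ * x₀ := by rw [inv_mul_cancel_right]
      rw [h7]
      exact mul_mem h6 x₀.2
  have g5 : (LL Φ m₀).index = E₁.index := by
    rw [g4, Subgroup.index_comap_of_surjective _ (H.th_surj B (pr₁ ρ) pr₁_ker pr₁_surj), g3]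
  rw [e1, e2]
  rw [g1] at f1
  rw [g2, ← g5] at f2
  have hne : (LL Φ m₀).index ≠ 0 := by
    intro h0
    rw [h0, zero_mul] at f1
    have : Finite (SL2 (Qf a b (ZMod m₀))) := inferInstance
    exact Subgroup.index_ne_zero_of_finite f1.symm
  exact Nat.eq_of_mul_eq_mul_left (Nat.pos_of_ne_zero hne) (f2.trans f1.symm)

end

end Pool.Agent.F8.CG
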