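import Pool.Agent.Lib.MP_305fdd_al.F8.CG.StmW

/-!
# MP_305fdd_al, congruence subgroups, piece Wcen: the centralizer of `Γ(m)`
-/

set_option autoImplicit false

namespace Pool.Agent.F8.CG

open Pool.Agent.F8.BG Pool.Agent.MP_305fdd_al Pool.Agent.Lib.MP_305fdd_al Pool.Agent.F8
open scoped QuadraticAlgebra

noncomputable section

private theorem Wcen_zero (a b : ℤ) (m : ℕ) :
    Qfm a b (Int.castRingHom (ZMod m)) (m : Qf a b ℤ) = 0 := by
  rw [map_natCast]
  apply QuadraticAlgebra.ext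
  · rw [QuadraticAlgebra.re_natCast, QuadraticAlgebra.re_zero, ZMod.natCast_self]
  · rw [QuadraticAlgebra.im_natCast, QuadraticAlgebra.im_zero]

private theorem Wcen_eU (a b : ℤ) (m : ℕ) : (eU (m : Qf a b ℤ) : GQ a b) ∈ Gam a b m := by
  rw [MonoidHom.mem_ker]
  unfold rdq
  rw [eU_map, Wcen_zero]
  exact AB.mx_one.symm

private theorem Wcen_eV (a b : ℤ) (m : ℕ) : (eV (m : Qf a b ℤ) : GQ a b) ∈ Gam a b m := by
  rw [MonoidHom.mem_ker]
  unfold rdq
  rw [eV_map, Wcen_zero]
  exact AB.mx_one.symm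

theorem p_Wcen : W_cen := by
  intro a b hn m hm B hB
  haveI : IsDomain (Qf a b ℤ) := Qf_domain hn
  have hm0 : ((m : ℕ) : Qf a b ℤ) ≠ 0 := by
    intro h
    have h1 := congrArg QuadraticAlgebra.re h
    rw [QuadraticAlgebra.re_natCast, QuadraticAlgebra.re_zero] at h1
    exact hm (by exact_mod_cast h1)
  have hU : !![(1 : Qf a b ℤ), m; 0, 1] * B.val = B.val * !![(1 : Qf a b ℤ), m; 0, 1] :=
    congrArg Subtype.val (hB _ (Wcen_eU a b m))
  have hV : !![(1 : Qf a b ℤ), 0; m, 1] * B.val = B.val * !![(1 : Qf a b ℤ), 0; m, 1] :=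
    congrArg Subtype.val (hB _ (Wcen_eV a b m))
  have hd := B.det_coe
  obtain ⟨M, hM⟩ := B
  change !![(1 : Qf a b ℤ), m; 0, 1] * M = M * !![(1 : Qf a b ℤ), m; 0, 1] at hU
  change !![(1 : Qf a b ℤ), 0; m, 1] * M = M * !![(1 : Qf a b ℤ), 0; m, 1] at hV
  change M.det = 1 at hd
  rw [Matrix.det_fin_two] at hd
  have u00 := congrFun (congrFun hU 0) 0
  have u01 := congrFun (congrFun hU 0) 1
  have v00 := congrFun (congrFun hV 0) 0
  simp only [Matrix.mul_apply, Fin.sum_univ_two, Matrix.cons_val', Matrix.cons_val_zero,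
    Matrix.cons_val_one, Matrix.of_apply, Matrix.cons_val_fin_one, one_mul, mul_one, zero_mul,
    mul_zero, add_zero, zero_add] at u00 u01 v00
  have r0 : M 1 0 = 0 := by
    have : (m : Qf a b ℤ) * M 1 0 = 0 := by linear_combination u00
    exact (mul_eq_zero.1 this).resolve_left hm0
  have q0 : M 0 1 = 0 := by
    have : (m : Qf a b ℤ) * M 0 1 = 0 := by linear_combination (-1 : Qf a b ℤ) * v00
    exact (mul_eq_zero.1 this).resolve_left hm0
  have s0 : M 1 1 = M 0 0 := by
    have : (m : Qf a b ℤ) * (M 1 1 - M 0 0) = 0 := by linear_combination u01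
    exact sub_eq_zero.1 ((mul_eq_zero.1 this).resolve_left hm0)
  have hs : (M 0 0 - 1) * (M 0 0 + 1) = 0 := by
    rw [r0, s0] at hd
    linear_combination hd
  rcases mul_eq_zero.1 hs with h | h
  · left
    have h0 : M 0 0 = 1 := sub_eq_zero.1 h
    apply Subtype.ext
    show M = 1
    rw [Matrix.eta_fin_two M, r0, q0, s0, h0, Matrix.one_fin_two]
  · right
    have h0 : M 0 0 = -1 := eq_neg_of_add_eq_zero_left h
    apply Subtype.ext
    show M = -1
    rw [Matrix.eta_fin_two M, r0, q0, s0, h0, Matrix.one_fin_two]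
    refine Matrix.ext fun i j => ?_
    fin_cases i <;> fin_cases j
    · rfl
    · exact neg_zero.symm
    · exact neg_zero.symm
    · rfl

end

end Pool.Agent.F8.CG
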