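import Pool.Agent.Lib.MP_305fdd_al.F8.CG.StmW
import Pool.Agent.Lib.MP_305fdd_al.F8.BG.P_con

/-!
# MP_305fdd_al, congruence subgroups: piece Wker, elements of order two which are scalar modulo all `m`
-/

set_option autoImplicit false

namespace Pool.Agent.F8.CG

open Pool.Agent.F8.BG Pool.Agent.MP_305fdd_al Pool.Agent.Lib.MP_305fdd_al Pool.Agent.F8
open scoped QuadraticAlgebra

noncomputable section

section Wker

variable {a b : ℤ}

private theorem Wker_rdq {m m' : ℕ} (h : m ∣ m') :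
    (SLm (Qfm a b (ZMod.castHom h (ZMod m)))).comp (rdq a b m') = rdq a b m := by
  apply MonoidHom.ext
  intro x
  apply Subtype.ext
  refine Matrix.ext fun i j => QuadraticAlgebra.ext ?_ ?_
  · show ZMod.castHom h (ZMod m) (((x.val i j).re : ℤ) : ZMod m') = (((x.val i j).re : ℤ) : ZMod m)
    exact map_intCast _ _
  · show ZMod.castHom h (ZMod m) (((x.val i j).im : ℤ) : ZMod m') = (((x.val i j).im : ℤ) : ZMod m)
    exact map_intCast _ _

private theorem Wker_nat {D : Subgroup (GQ a b)} {Λ : Type} [Group Λ] (Φ : NatBij D Λ) {m m' : ℕ}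
    [NeZero m] [NeZero m'] (h : m ∣ m') (l : Λ) :
    SLm (Qfm a b (ZMod.castHom h (ZMod m))) (Φ.toFun _ ((rdq a b m').comp D.subtype) l) =
      Φ.toFun _ ((rdq a b m).comp D.subtype) l := by
  have h1 : (rdq a b m).comp D.subtype =
      (SLm (Qfm a b (ZMod.castHom h (ZMod m)))).comp ((rdq a b m').comp D.subtype) := by
    rw [← MonoidHom.comp_assoc, Wker_rdq]
  rw [h1]
  exact (DFunLike.congr_fun (Φ.nat (SLm (Qfm a b (ZMod.castHom h (ZMod m))))
    ((rdq a b m').comp D.subtype)) l).symm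

private theorem Wker_neg {R S : Type} [CommRing R] [CommRing S] (f : R →+* S) (x : SL2 R) :
    SLm f (-x) = -SLm f x := by
  apply Subtype.ext
  refine Matrix.ext fun i j => ?_
  show f (-(x.val i j)) = -(f (x.val i j))
  rw [map_neg]

/-- the subgroup `{1, X}` -/
private def Wker_C {Q : Type} [Group Q] (X : Q) (hX : X * X = 1) : Subgroup Q where
  carrier := {x | x = 1 ∨ x = X}
  mul_mem' := by
    intro x y hx hy
    rcases hx with hx | hx <;> rcases hy with hy | hy <;> subst hx <;> subst hy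
    · exact Or.inl (one_mul _)
    · exact Or.inr (one_mul _)
    · exact Or.inr (mul_one _)
    · exact Or.inl hX
  one_mem' := Or.inl rfl
  inv_mem' := by
    intro x hx
    rcases hx with hx | hx <;> subst hx
    · exact Or.inl inv_one
    · exact Or.inr (inv_eq_of_mul_eq_one_right hX)

private theorem Wker_sq {R : Type} [CommRing R] {X : SL2 R} {ε : R} (h : X.val = ε • 1)
    (hX : X * X = 1) : ε * ε = 1 := by
  have h1 : (X * X).val 0 0 = (1 : SL2 R).val 0 0 := by rw [hX]
  rw [Matrix.SpecialLinearGroup.coe_mul, Matrix.mul_apply, Fin.sum_univ_two, h] at h1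
  simpa using h1

end Wker

theorem p_Wker (htor : W_tor) : W_ker := by
  intro a b ι _ α N w M c g G₀ η H M₁ hM₁ hsc D m₀ hm₀ hD Λ _ hrf Φ l hl hscal
  by_contra hcon
  push Not at hcon
  obtain ⟨m', hm', h'⟩ := hcon 1
  obtain ⟨m'', hm'', h''⟩ := hcon (-1)
  have hM₁' : NeZero M₁ := ⟨hM₁⟩
  have hm₀' : NeZero m₀ := ⟨hm₀⟩
  obtain ⟨m, hm⟩ : ∃ m, m = m' * m'' * M₁ * 3 := ⟨_, rfl⟩
  have hmne : NeZero m := ⟨by
    rw [hm]
    exact mul_ne_zero (mul_ne_zero (mul_ne_zero hm'.out hm''.out) hM₁) (by norm_num)⟩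
  have hmm₀ : NeZero (m * m₀) := ⟨mul_ne_zero hmne.out hm₀⟩
  have d1 : m' ∣ m := by
    rw [hm]
    exact ((Dvd.intro _ rfl).mul_right _).mul_right _
  have d2 : m'' ∣ m := by
    rw [hm]
    exact ((Dvd.intro_left _ rfl).mul_right _).mul_right _
  have d3 : M₁ ∣ m := by
    rw [hm]
    exact (Dvd.intro_left _ rfl).mul_right _
  have d4 : 3 ≤ m := by
    have h1 : 3 ∣ m := by
      rw [hm]
      exact Dvd.intro_left _ rfl
    exact Nat.le_of_dvd (Nat.pos_of_ne_zero hmne.out) h1
  obtain ⟨ε, hε⟩ := hscal m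
  obtain ⟨X, hXdef⟩ : ∃ X, X = Φ.toFun _ ((rdq a b m).comp D.subtype) l := ⟨_, rfl⟩
  rw [← hXdef] at hε
  have hXX : X * X = 1 := by rw [hXdef, ← map_mul, hl, map_one]
  have hεε : ε * ε = 1 := Wker_sq hε hXX
  have hone : (Φ.toFun _ ((rdq a b m').comp D.subtype) l) ≠ 1 := by
    intro h1
    apply h'
    rw [h1]
    simp
  have hX1 : X ≠ 1 := by
    intro h1
    apply hone
    rw [← Wker_nat Φ d1 l, ← hXdef, h1, map_one]
  have hX2 : X ≠ -1 := by
    intro h1
    apply h''
    rw [← Wker_nat Φ d2 l, ← hXdef, h1, Wker_neg, map_one]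
    simp
  -- the subgroups
  let r : D →* SL2 (Qf a b (ZMod m)) := (rdq a b m).comp D.subtype
  let r' : Λ →* SL2 (Qf a b (ZMod m)) := Φ.toFun _ r
  obtain ⟨C, hC⟩ : ∃ C, C = Wker_C X hXX := ⟨_, rfl⟩
  have hCm : ∀ x, x ∈ C ↔ x = 1 ∨ x = X := by
    intro x
    rw [hC]
    exact Iff.rfl
  obtain ⟨Ψ, -⟩ := natBij_comap Φ (rfl : Φ.toFun _ r = r') C
  -- membership in `G₀`
  have hG : ∀ x : C.comap r, x.val.val ∈ G₀ := by
    intro x
    apply hsc
    have h1 : (SLm (Qfm a b (ZMod.castHom d3 (ZMod M₁)))) (rdq a b m x.val.val) =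
        rdq a b M₁ x.val.val := DFunLike.congr_fun (Wker_rdq d3) _
    rw [← h1]
    rcases (hCm _).1 x.2 with h2 | h2
    · have h3 : rdq a b m x.val.val = 1 := h2
      refine ⟨1, one_mul 1, ?_⟩
      rw [h3, map_one, one_smul]
      rfl
    · have h3 : rdq a b m x.val.val = X := h2
      refine ⟨Qfm a b (ZMod.castHom d3 (ZMod M₁)) ε, by rw [← map_mul, hεε, map_one], ?_⟩
      rw [h3]
      refine Matrix.ext fun i j => ?_
      show Qfm a b (ZMod.castHom d3 (ZMod M₁)) (X.val i j) = _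
      rw [hε, Matrix.smul_apply, Matrix.smul_apply, smul_eq_mul, smul_eq_mul, map_mul]
      congr 1
      rw [Matrix.one_apply, Matrix.one_apply]
      split_ifs
      · exact map_one _
      · exact map_zero _
  -- the element `-1` is not in the subgroup
  have hneg : ∀ x : C.comap r, x.val.val ≠ -1 := by
    intro x hx
    have h0 : rdq a b m x.val.val = -1 := by
      rw [hx, rdq_neg, map_one]
    rcases (hCm _).1 x.2 with h2 | h2
    · have h3 : rdq a b m x.val.val = 1 := h2
      exact con_neg d4 h3 hx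
    · have h3 : rdq a b m x.val.val = X := h2
      exact hX2 (h3.symm.trans h0)
  -- the homomorphism to `GR α`
  let j : C.comap r →* G₀ := (D.subtype.comp (C.comap r).subtype).codRestrict G₀ hG
  let f : C.comap r →* GR α := η.comp j
  have hf : Function.Injective f := by
    rw [injective_iff_map_eq_one]
    intro x hx
    rcases (H.eta.ker _).1 hx with h1 | h1
    · exact Subtype.ext (Subtype.ext h1)
    · exact absurd h1 (hneg x)
  have hle : ∀ x ∈ Gam a b (m * m₀), ∃ y : C.comap r, y.val.val = x := by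
    intro x hx
    have h1 : x ∈ D := hD (gam_le (Dvd.intro_left _ rfl) hx)
    have h2 : x ∈ Gam a b m := gam_le (Dvd.intro _ rfl) hx
    exact ⟨⟨⟨x, h1⟩, (hCm _).2 (Or.inl h2)⟩, rfl⟩
  have hfin : f.range.FiniteIndex := by
    have h0 : (Gam a b (m * m₀)).FiniteIndex := Subgroup.finiteIndex_ker _
    have h1 : ((Gam a b (m * m₀)).subgroupOf G₀).FiniteIndex := inferInstance
    have h2 := con_map_index η H.eta.fin _ h1
    refine Subgroup.finiteIndex_of_le (H := ((Gam a b (m * m₀)).subgroupOf G₀).map η) ?_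
    rintro _ ⟨x, hx, rfl⟩
    obtain ⟨y, hy⟩ := hle x.val hx
    refine ⟨y, ?_⟩
    show η (j y) = η x
    congr 1
    exact Subtype.ext hy
  have hlm : l ∈ C.comap r' := by
    show r' l ∈ C
    rw [hCm]
    exact Or.inr hXdef.symm
  have hrf' : Group.ResiduallyFinite (C.comap r') := inferInstance
  have h1 := htor ι α f.range hfin (C.comap r') hrf'
    (natBij_equiv (MonoidHom.ofInjective hf).symm Ψ) ⟨l, hlm⟩ (Subtype.ext hl)
  have h2 : l = 1 := congrArg Subtype.val h1
  apply hone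
  rw [h2, map_one]

end

end Pool.Agent.F8.CG
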