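import Pool.Agent.Lib.MP_305fdd_al.F8.CG.StmW

/-!
# MP_305fdd_al, congruence subgroups: piece Wloc, an intertwiner is a multiple of the local representation (helper57)
-/

set_option autoImplicit false

namespace Pool.Agent.F8.CG

open Pool.Agent.F8.BG Pool.Agent.MP_305fdd_al Pool.Agent.Lib.MP_305fdd_al Pool.Agent.F8
open scoped QuadraticAlgebra

private theorem Wloc_zmod (m₀ k : ℕ) (hm : m₀ ≠ 0) (z : ZMod (m₀ * k))
    (h : (m₀ : ZMod (m₀ * k)) * z = 0) :
    ZMod.castHom (Dvd.intro_left m₀ rfl : k ∣ m₀ * k) (ZMod k) z = 0 := by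
  obtain ⟨n, rfl⟩ := ZMod.intCast_surjective z
  rw [map_intCast, ZMod.intCast_zmod_eq_zero_iff_dvd]
  have h1 : (((m₀ : ℤ) * n : ℤ) : ZMod (m₀ * k)) = 0 := by
    rw [Int.cast_mul, Int.cast_natCast]
    exact h
  rw [ZMod.intCast_zmod_eq_zero_iff_dvd, Nat.cast_mul] at h1
  exact Int.dvd_of_mul_dvd_mul_left (by exact_mod_cast hm) h1

private theorem Wloc_q {a b : ℤ} (m₀ k : ℕ) (hm : m₀ ≠ 0) (z : Qf a b (ZMod (m₀ * k)))
    (h : (m₀ : Qf a b (ZMod (m₀ * k))) * z = 0) :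
    Qfm a b (ZMod.castHom (Dvd.intro_left m₀ rfl : k ∣ m₀ * k) (ZMod k)) z = 0 := by
  rw [Qfm_apply]
  have h1 := congrArg QuadraticAlgebra.re h
  have h2 := congrArg QuadraticAlgebra.im h
  have h1' : (m₀ : ZMod (m₀ * k)) * z.re = 0 := by simpa using h1
  have h2' : (m₀ : ZMod (m₀ * k)) * z.im = 0 := by simpa using h2
  apply QuadraticAlgebra.ext
  · exact Wloc_zmod m₀ k hm _ h1'
  · exact Wloc_zmod m₀ k hm _ h2'

theorem p_Wloc : W_loc := by
  intro a b Λ _ L ρ m₀ hm₀ hG k _ R hR l hl A hA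
  set f : Qf a b ℤ →+* Qf a b (ZMod (m₀ * k)) := Qfm a b (Int.castRingHom (ZMod (m₀ * k))) with hf
  set g : Qf a b (ZMod (m₀ * k)) →+* Qf a b (ZMod k) :=
    Qfm a b (ZMod.castHom (Dvd.intro_left m₀ rfl : k ∣ m₀ * k) (ZMod k)) with hg
  set B : Matrix (Fin 2) (Fin 2) (Qf a b (ZMod (m₀ * k))) := ((R l)⁻¹).val * A.map f with hB
  have hRl : (R l).val * ((R l)⁻¹).val = 1 := by
    rw [← Matrix.SpecialLinearGroup.coe_mul, mul_inv_cancel, Matrix.SpecialLinearGroup.coe_one]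
  have hRl' : ((R l)⁻¹).val * (R l).val = 1 := by
    rw [← Matrix.SpecialLinearGroup.coe_mul, inv_mul_cancel, Matrix.SpecialLinearGroup.coe_one]
  -- commutation
  have hcom : ∀ x : L, (R x).val * B = B * (R x).val := by
    intro x
    set y : L := ⟨l * x * l⁻¹, hl x x.2⟩ with hy
    have h1 := congrArg (fun M : Matrix (Fin 2) (Fin 2) (Qf a b ℤ) => M.map f) (hA x y rfl)
    simp only [Matrix.map_mul] at h1
    have h2 : (ρ y).val.map f = (R (y : Λ)).val := by
      rw [← hR y]; rfl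
    have h3 : (ρ x).val.map f = (R (x : Λ)).val := by
      rw [← hR x]; rfl
    rw [h2, h3] at h1
    have h4 : R (y : Λ) = R l * R x * (R l)⁻¹ := by
      show R (l * x * l⁻¹) = _
      rw [map_mul, map_mul, map_inv]
    rw [h4, Matrix.SpecialLinearGroup.coe_mul, Matrix.SpecialLinearGroup.coe_mul] at h1
    calc (R x).val * B = ((R l)⁻¹.val * (R l).val) * ((R x).val * ((R l)⁻¹.val * A.map f)) := by
          rw [hRl', one_mul]
      _ = (R l)⁻¹.val * ((R l).val * (R x).val * (R l)⁻¹.val * A.map f) := by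
          simp only [Matrix.mul_assoc]
      _ = (R l)⁻¹.val * (A.map f * (R x).val) := by rw [h1]
      _ = B * (R x).val := by rw [hB, Matrix.mul_assoc]
  have hm0 : Qfm a b (Int.castRingHom (ZMod m₀)) (m₀ : Qf a b ℤ) = 0 := by
    rw [map_natCast]
    apply QuadraticAlgebra.ext
    · simp
    · simp
  have hU : (eU (m₀ : Qf a b (ZMod (m₀ * k)))).val * B =
      B * (eU (m₀ : Qf a b (ZMod (m₀ * k)))).val := by
    have h1 : (eU (m₀ : Qf a b ℤ)) ∈ ρ.range := by
      apply hG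
      show rdq a b m₀ (eU (m₀ : Qf a b ℤ)) = 1
      rw [rdq, eU_map, hm0]
      apply Subtype.ext
      funext i j
      fin_cases i <;> fin_cases j <;> rfl
    obtain ⟨x, hx⟩ := h1
    have h2 := hcom x
    have h3 : R (x : Λ) = eU (m₀ : Qf a b (ZMod (m₀ * k))) := by
      rw [← hR x, hx, rdq, eU_map, map_natCast]
    rw [h3] at h2
    exact h2
  have hV : (eV (m₀ : Qf a b (ZMod (m₀ * k)))).val * B =
      B * (eV (m₀ : Qf a b (ZMod (m₀ * k)))).val := by
    have h1 : (eV (m₀ : Qf a b ℤ)) ∈ ρ.range := by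
      apply hG
      show rdq a b m₀ (eV (m₀ : Qf a b ℤ)) = 1
      rw [rdq, eV_map, hm0]
      apply Subtype.ext
      funext i j
      fin_cases i <;> fin_cases j <;> rfl
    obtain ⟨x, hx⟩ := h1
    have h2 := hcom x
    have h3 : R (x : Λ) = eV (m₀ : Qf a b (ZMod (m₀ * k))) := by
      rw [← hR x, hx, rdq, eV_map, map_natCast]
    rw [h3] at h2
    exact h2
  have e10 : (m₀ : Qf a b (ZMod (m₀ * k))) * B 1 0 = 0 := by
    have := congrFun (congrFun hU 0) 0
    simp only [Matrix.mul_apply, Fin.sum_univ_two] at this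
    have h00 : (eU (m₀ : Qf a b (ZMod (m₀ * k)))).val 0 0 = 1 := rfl
    have h01 : (eU (m₀ : Qf a b (ZMod (m₀ * k)))).val 0 1 = m₀ := rfl
    have h10 : (eU (m₀ : Qf a b (ZMod (m₀ * k)))).val 1 0 = 0 := rfl
    rw [h00, h01, h10] at this
    linear_combination this
  have e01 : (m₀ : Qf a b (ZMod (m₀ * k))) * B 0 1 = 0 := by
    have := congrFun (congrFun hV 0) 0
    simp only [Matrix.mul_apply, Fin.sum_univ_two] at this
    have h00 : (eV (m₀ : Qf a b (ZMod (m₀ * k)))).val 0 0 = 1 := rfl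
    have h01 : (eV (m₀ : Qf a b (ZMod (m₀ * k)))).val 0 1 = 0 := rfl
    have h10 : (eV (m₀ : Qf a b (ZMod (m₀ * k)))).val 1 0 = m₀ := rfl
    rw [h00, h01, h10] at this
    linear_combination -this
  have ed : (m₀ : Qf a b (ZMod (m₀ * k))) * (B 1 1 - B 0 0) = 0 := by
    have := congrFun (congrFun hU 0) 1
    simp only [Matrix.mul_apply, Fin.sum_univ_two] at this
    have h00 : (eU (m₀ : Qf a b (ZMod (m₀ * k)))).val 0 0 = 1 := rfl
    have h01 : (eU (m₀ : Qf a b (ZMod (m₀ * k)))).val 0 1 = m₀ := rfl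
    have h11 : (eU (m₀ : Qf a b (ZMod (m₀ * k)))).val 1 1 = 1 := rfl
    rw [h00, h01, h11] at this
    linear_combination this
  have q10 : g (B 1 0) = 0 := Wloc_q m₀ k hm₀ _ e10
  have q01 : g (B 0 1) = 0 := Wloc_q m₀ k hm₀ _ e01
  have qd : g (B 1 1) = g (B 0 0) := by
    have := Wloc_q m₀ k hm₀ _ ed
    rw [← hg, map_sub] at this
    exact sub_eq_zero.1 this
  refine ⟨g (B 0 0), ?_⟩
  have hBg : B.map g = g (B 0 0) • (1 : Matrix (Fin 2) (Fin 2) (Qf a b (ZMod k))) := by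
    ext1 i j
    fin_cases i <;> fin_cases j
    · simp
    · simp [q01]
    · simp [q10]
    · simp [qd]
  have hAf : A.map f = (R l).val * B := by
    rw [hB, ← Matrix.mul_assoc, hRl, one_mul]
  have hcomp : A.map (Qfm a b (Int.castRingHom (ZMod k))) = (A.map f).map g := by
    rw [Matrix.map_map]
    congr 1
    funext z
    show Qfm a b (Int.castRingHom (ZMod k)) z = g (f z)
    rw [hg, hf, Qfm_apply, Qfm_apply, Qfm_apply]
    apply QuadraticAlgebra.ext
    · simp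
    · simp
  rw [hcomp, hAf, Matrix.map_mul, hBg, Matrix.mul_smul, mul_one]
  rfl

end Pool.Agent.F8.CG
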