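import Pool.Agent.Lib.MP_305fdd_al.F8.CG.StmW

/-!
# MP_305fdd_al, congruence subgroups: piece CG Wprim, primitive matrices
-/

set_option autoImplicit false

namespace Pool.Agent.F8.CG

open Pool.Agent.F8.BG Pool.Agent.MP_305fdd_al Pool.Agent.Lib.MP_305fdd_al Pool.Agent.F8
open scoped QuadraticAlgebra

/-- PIECE CG Wprim -/
theorem p_Wprim : W_prim := by
  intro a b hn hP A hA
  have hdom : IsDomain (Qf a b ℤ) := Qf_domain hn
  obtain ⟨g, hg⟩ := (IsPrincipalIdealRing.principal
    (Ideal.span (Set.range (fun q : Fin 2 × Fin 2 => A q.1 q.2)))).principal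
  have h1 : ∀ i j, ∃ x, A i j = g * x := by
    intro i j
    have h2 : A i j ∈ Ideal.span (Set.range (fun q : Fin 2 × Fin 2 => A q.1 q.2)) :=
      Ideal.subset_span ⟨(i, j), rfl⟩
    rw [hg] at h2
    obtain ⟨x, hx⟩ := Submodule.mem_span_singleton.1 h2
    exact ⟨x, by rw [← hx, smul_eq_mul, mul_comm]⟩
  choose A' hA' using h1
  have hg0 : g ≠ 0 := by
    intro h
    apply hA
    rw [Matrix.det_fin_two, hA', hA', hA', hA', h]
    ring
  have h3 : g ∈ Ideal.span (Set.range (fun q : Fin 2 × Fin 2 => A q.1 q.2)) := by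
    rw [hg]
    exact Submodule.mem_span_singleton_self g
  obtain ⟨c, hc⟩ := Ideal.mem_span_range_iff_exists_fun.1 h3
  refine ⟨g, A', hg0, ?_, fun i j => c (i, j), ?_⟩
  · ext1 i j
    rw [Matrix.smul_apply, smul_eq_mul]
    exact hA' i j
  · apply mul_left_cancel₀ hg0
    rw [mul_one]
    refine Eq.trans ?_ hc
    rw [Fintype.sum_prod_type, Finset.mul_sum]
    refine Finset.sum_congr rfl fun i _ => ?_
    rw [Finset.mul_sum]
    refine Finset.sum_congr rfl fun j _ => ?_
    show g * (c (i, j) * A' i j) = c (i, j) * A i j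
    rw [hA' i j]
    ring

end Pool.Agent.F8.CG
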