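import Pool.Agent.Lib.MP_305fdd_al.F8.CG.StmX

/-!
# MP_305fdd_al, congruence subgroups: the Gram determinant of `1, X, Y, X Y`
-/

set_option autoImplicit false

namespace Pool.Agent.F8.CG

open Pool.Agent.F8.BG Pool.Agent.MP_305fdd_al Pool.Agent.Lib.MP_305fdd_al Pool.Agent.F8

noncomputable section

variable {R : Type} [CommRing R]

private theorem Xgrm_det (x y z : R) :
    (Matrix.of ![![2, x, y, z], ![x, x ^ 2 - 2, z, x * z - y], ![y, z, y ^ 2 - 2, y * z - x],
      ![z, x * z - y, y * z - x, z ^ 2 - 2]]).det =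
      -(x ^ 2 + y ^ 2 + z ^ 2 - x * y * z - 4) ^ 2 := by
  simp [Matrix.det_succ_row_zero, Fin.sum_univ_succ, Fin.succAbove]
  ring

private theorem Xgrm_gram (a b c d e f g h : R) (hX : a * d - b * c = 1)
    (hY : e * h - f * g = 1) (A B : Matrix (Fin 2) (Fin 2) R) (hA : A = !![a, b; c, d])
    (hB : B = !![e, f; g, h]) :
    (Matrix.of fun i j : Fin 4 => ((![1, A, B, A * B] : Fin 4 → Matrix (Fin 2) (Fin 2) R) i *
      (![1, A, B, A * B] : Fin 4 → Matrix (Fin 2) (Fin 2) R) j).trace) =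
    Matrix.of ![![2, a + d, e + h, a * e + b * g + (c * f + d * h)],
      ![a + d, (a + d) ^ 2 - 2, a * e + b * g + (c * f + d * h),
        (a + d) * (a * e + b * g + (c * f + d * h)) - (e + h)],
      ![e + h, a * e + b * g + (c * f + d * h), (e + h) ^ 2 - 2,
        (e + h) * (a * e + b * g + (c * f + d * h)) - (a + d)],
      ![a * e + b * g + (c * f + d * h),
        (a + d) * (a * e + b * g + (c * f + d * h)) - (e + h),
        (e + h) * (a * e + b * g + (c * f + d * h)) - (a + d),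
        (a * e + b * g + (c * f + d * h)) ^ 2 - 2]] := by
  subst hA hB
  ext i j
  fin_cases i <;> fin_cases j
  · simp [Matrix.trace_fin_two]
    norm_num
  · simp [Matrix.trace_fin_two]
  · simp [Matrix.trace_fin_two]
  · simp [Matrix.trace_fin_two]
  · simp [Matrix.trace_fin_two]
  · simp [Matrix.trace_fin_two]
    linear_combination (-2) * hX
  · simp [Matrix.trace_fin_two]
  · simp [Matrix.trace_fin_two]
    linear_combination (-(e + h)) * hX
  · simp [Matrix.trace_fin_two]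
  · simp [Matrix.trace_fin_two]
    ring
  · simp [Matrix.trace_fin_two]
    linear_combination (-2) * hY
  · simp [Matrix.trace_fin_two]
    linear_combination (-(a + d)) * hY
  · simp [Matrix.trace_fin_two]
  · simp [Matrix.trace_fin_two]
    linear_combination (-(e + h)) * hX
  · simp [Matrix.trace_fin_two]
    linear_combination (-(a + d)) * hY
  · simp [Matrix.trace_fin_two]
    linear_combination (-2) * (e * h - f * g) * hX - 2 * hY

/-- the Gram determinant -/
theorem p_Xgrm : X_grm := by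
  intro R _ X Y
  obtain ⟨a, ha⟩ : ∃ a, X.val 0 0 = a := ⟨_, rfl⟩
  obtain ⟨b, hb⟩ : ∃ b, X.val 0 1 = b := ⟨_, rfl⟩
  obtain ⟨c, hc⟩ : ∃ c, X.val 1 0 = c := ⟨_, rfl⟩
  obtain ⟨d, hd⟩ : ∃ d, X.val 1 1 = d := ⟨_, rfl⟩
  obtain ⟨e, he⟩ : ∃ e, Y.val 0 0 = e := ⟨_, rfl⟩
  obtain ⟨f, hf⟩ : ∃ f, Y.val 0 1 = f := ⟨_, rfl⟩
  obtain ⟨g, hg⟩ : ∃ g, Y.val 1 0 = g := ⟨_, rfl⟩
  obtain ⟨h, hh⟩ : ∃ h, Y.val 1 1 = h := ⟨_, rfl⟩
  have hX : a * d - b * c = 1 := by
    have h1 := X.property
    rw [Matrix.det_fin_two] at h1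
    rw [← ha, ← hb, ← hc, ← hd]
    exact h1
  have hY : e * h - f * g = 1 := by
    have h1 := Y.property
    rw [Matrix.det_fin_two] at h1
    rw [← he, ← hf, ← hg, ← hh]
    exact h1
  have hA : X.val = !![a, b; c, d] := by
    rw [← ha, ← hb, ← hc, ← hd]
    exact Matrix.eta_fin_two _
  have hB : Y.val = !![e, f; g, h] := by
    rw [← he, ← hf, ← hg, ← hh]
    exact Matrix.eta_fin_two _
  rw [Xgrm_gram a b c d e f g h hX hY X.val Y.val hA hB, Xgrm_det]
  have hA' : (X⁻¹).val = !![d, -b; -c, a] := by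
    have h1 : (X⁻¹).val = X.val.adjugate := rfl
    rw [h1, hA, Matrix.adjugate_fin_two_of]
  have hB' : (Y⁻¹).val = !![h, -f; -g, e] := by
    have h1 : (Y⁻¹).val = Y.val.adjugate := rfl
    rw [h1, hB, Matrix.adjugate_fin_two_of]
  have hT : tr (X * Y * X⁻¹ * Y⁻¹) = (a + d) ^ 2 + (e + h) ^ 2 +
      (a * e + b * g + (c * f + d * h)) ^ 2 -
      (a + d) * (e + h) * (a * e + b * g + (c * f + d * h)) - 2 := by
    have h1 : tr (X * Y * X⁻¹ * Y⁻¹) =
      (!![a, b; c, d] * !![e, f; g, h] * !![d, -b; -c, a] * !![h, -f; -g, e]).trace := by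
      rw [← hA, ← hB, ← hA', ← hB']
      rfl
    rw [h1]
    simp only [Matrix.trace_fin_two, Matrix.mul_apply, Fin.sum_univ_two, Matrix.of_apply,
      Matrix.cons_val', Matrix.cons_val_zero, Matrix.cons_val_one, Matrix.cons_val_fin_one]
    linear_combination (a + d) ^ 2 * hY + (e + h) ^ 2 * hX -
      2 * ((e * h - f * g) * hX + hY)
  rw [hT]
  ring

end

end Pool.Agent.F8.CG
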