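import Pool.Agent.Lib.MP_305fdd_al.F8.CG.StmX

/-!
# MP_305fdd_al, congruence subgroups, piece Xid4: Cramer's rule for the trace form
-/

set_option autoImplicit false

namespace Pool.Agent.F8.CG

open Pool.Agent.F8.BG Pool.Agent.MP_305fdd_al Pool.Agent.Lib.MP_305fdd_al Pool.Agent.F8
open scoped QuadraticAlgebra

noncomputable section

/-- the coordinates -/
private def Xid4_v {R : Type} [CommRing R] (A : Matrix (Fin 2) (Fin 2) R) : Fin 4 → R :=
  ![A 0 0, A 0 1, A 1 0, A 1 1]

/-- the Gram matrix of the basis -/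
private def Xid4_S (R : Type) [CommRing R] : Matrix (Fin 4) (Fin 4) R :=
  !![1, 0, 0, 0; 0, 0, 1, 0; 0, 1, 0, 0; 0, 0, 0, 1]

private theorem Xid4_tr {R : Type} [CommRing R] (A B : Matrix (Fin 2) (Fin 2) R) :
    (A * B).trace = ∑ k, (∑ l, Xid4_v A l * Xid4_S R l k) * Xid4_v B k := by
  rw [Matrix.trace_fin_two, Matrix.mul_apply, Matrix.mul_apply]
  simp only [Fin.sum_univ_four, Fin.sum_univ_two, Xid4_v, Xid4_S, Matrix.of_apply,
    Matrix.cons_val]
  ring

private theorem Xid4_vec {R : Type} [CommRing R] (X S : Matrix (Fin 4) (Fin 4) R)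
    (v : Fin 4 → R) :
    (X * S * X.transpose).det • v =
      X.transpose.mulVec ((X * S * X.transpose).adjugate.mulVec ((X * S).mulVec v)) := by
  rw [Matrix.mulVec_mulVec, Matrix.mulVec_mulVec]
  have h : X.transpose * ((X * S * X.transpose).adjugate * (X * S)) =
      (X * S * X.transpose).det • (1 : Matrix (Fin 4) (Fin 4) R) := by
    rw [Matrix.adjugate_mul_distrib, Matrix.mul_assoc, Matrix.adjugate_mul, Matrix.mul_smul,
      Matrix.mul_one, Matrix.mul_smul, Matrix.mul_adjugate, smul_smul, ← Matrix.det_mul]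
  rw [Matrix.mul_assoc X.transpose, h, Matrix.smul_mulVec, Matrix.one_mulVec]

theorem p_Xid4 : X_id4 := by
  intro R _ x z
  set X : Matrix (Fin 4) (Fin 4) R := Matrix.of fun i => Xid4_v (x i) with hX
  have hG : (Matrix.of fun i j => (x i * x j).trace) = X * Xid4_S R * X.transpose := by
    ext1 i j
    rw [Matrix.of_apply, Xid4_tr, Matrix.mul_apply]
    rfl
  have ht : (fun j => (z * x j).trace) = (X * Xid4_S R).mulVec (Xid4_v z) := by
    funext j
    rw [Matrix.trace_mul_comm, Xid4_tr]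
    rfl
  rw [hG, ht]
  have h := Xid4_vec X (Xid4_S R) (Xid4_v z)
  generalize (X * Xid4_S R * X.transpose).adjugate.mulVec ((X * Xid4_S R).mulVec (Xid4_v z)) = u
    at h ⊢
  have h0 : ∀ k, (X * Xid4_S R * X.transpose).det * Xid4_v z k = ∑ i, u i * Xid4_v (x i) k := by
    intro k
    have h1 := congrFun h k
    rw [Pi.smul_apply, smul_eq_mul] at h1
    rw [h1]
    change ∑ i, X.transpose k i * u i = _
    apply Finset.sum_congr rfl
    intro i _
    exact mul_comm _ _
  ext1 a b
  rw [Matrix.smul_apply, Matrix.sum_apply, smul_eq_mul]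
  fin_cases a <;> fin_cases b
  · exact h0 0
  · exact h0 1
  · exact h0 2
  · exact h0 3

end

end Pool.Agent.F8.CG
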