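import Pool.Agent.Lib.MP_305fdd_al.F8.CG.StmW
import Pool.Agent.Lib.MP_305fdd_al.F8.CG.P_Xid4
import Pool.Agent.Lib.MP_305fdd_al.F8.CG.P_Xgrm

/-!
# MP_305fdd_al, congruence subgroups: piece CG Wsk

Two representations with the same traces are conjugate by a matrix with nonzero determinant.
-/

set_option autoImplicit false

namespace Pool.Agent.F8.CG

open Pool.Agent.F8.BG Pool.Agent.MP_305fdd_al Pool.Agent.Lib.MP_305fdd_al Pool.Agent.F8
open scoped QuadraticAlgebra

noncomputable section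

section

variable {R : Type} [CommRing R]

/-- the Gram matrix -/
private def Wsk_G (X : Fin 4 → Matrix (Fin 2) (Fin 2) R) : Matrix (Fin 4) (Fin 4) R :=
  Matrix.of fun i j => (X i * X j).trace

/-- the dual elements -/
private def Wsk_D (X : Fin 4 → Matrix (Fin 2) (Fin 2) R) (i : Fin 4) : Matrix (Fin 2) (Fin 2) R :=
  ∑ j, (Wsk_G X).adjugate i j • X j

private theorem Wsk_dual (X : Fin 4 → Matrix (Fin 2) (Fin 2) R) (i k : Fin 4) :
    (Wsk_D X i * X k).trace = if i = k then (Wsk_G X).det else 0 := by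
  unfold Wsk_D
  rw [Matrix.sum_mul, Matrix.trace_sum]
  have h1 : ∑ j, ((Wsk_G X).adjugate i j • X j * X k).trace =
      ((Wsk_G X).adjugate * Wsk_G X) i k := by
    rw [Matrix.mul_apply]
    refine Finset.sum_congr rfl fun j _ => ?_
    rw [Matrix.smul_mul, Matrix.trace_smul, smul_eq_mul]
    rfl
  rw [h1, Matrix.adjugate_mul, Matrix.smul_apply, Matrix.one_apply, smul_eq_mul, mul_ite, mul_one,
    mul_zero]

variable [IsDomain R]

/-- the trace form is nondegenerate -/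
private theorem Wsk_nd (X : Fin 4 → Matrix (Fin 2) (Fin 2) R) (hδ : (Wsk_G X).det ≠ 0)
    (W : Matrix (Fin 2) (Fin 2) R) (h : ∀ l, (W * X l).trace = 0) : W = 0 := by
  have h1 := p_Xid4 R X W
  have h2 : (fun j => (W * X j).trace) = 0 := funext h
  rw [h2, Matrix.mulVec_zero] at h1
  have h3 : (Wsk_G X).det • W = 0 := by
    refine h1.trans ?_
    refine Finset.sum_eq_zero fun i _ => ?_
    rw [Pi.zero_apply, zero_smul]
  exact (smul_eq_zero.mp h3).resolve_left hδ

/-- the coefficients of the multiplication by `P` -/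
private def Wsk_c (X : Fin 4 → Matrix (Fin 2) (Fin 2) R) (P : Matrix (Fin 2) (Fin 2) R)
    (i k : Fin 4) : R :=
  ((Wsk_G X).adjugate.mulVec (fun j => (P * X i * X j).trace)) k

private theorem Wsk_mul (X : Fin 4 → Matrix (Fin 2) (Fin 2) R) (P : Matrix (Fin 2) (Fin 2) R)
    (i : Fin 4) : (Wsk_G X).det • (P * X i) = ∑ k, Wsk_c X P i k • X k :=
  p_Xid4 R X (P * X i)

/-- the multiplication by `P` on the dual elements -/
private theorem Wsk_two (X : Fin 4 → Matrix (Fin 2) (Fin 2) R) (hδ : (Wsk_G X).det ≠ 0)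
    (P : Matrix (Fin 2) (Fin 2) R) (k : Fin 4) :
    ∑ i, Wsk_c X P i k • Wsk_D X i = (Wsk_G X).det • (Wsk_D X k * P) := by
  rw [← sub_eq_zero]
  refine Wsk_nd X hδ _ fun l => ?_
  rw [Matrix.sub_mul, Matrix.trace_sub, Matrix.sum_mul, Matrix.trace_sum]
  have h1 : ∀ i, (Wsk_c X P i k • Wsk_D X i * X l).trace =
      if i = l then Wsk_c X P i k * (Wsk_G X).det else 0 := by
    intro i
    rw [Matrix.smul_mul, Matrix.trace_smul, Wsk_dual, smul_eq_mul, mul_ite, mul_zero]
  rw [Finset.sum_congr rfl fun i _ => h1 i, Finset.sum_ite_eq' Finset.univ l,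
    if_pos (Finset.mem_univ l)]
  have h2 : ((Wsk_G X).det • (Wsk_D X k * P) * X l).trace =
      (Wsk_D X k * ((Wsk_G X).det • (P * X l))).trace := by
    rw [Matrix.smul_mul, Matrix.mul_smul, Matrix.mul_assoc]
  have h3 : ∀ r, (Wsk_D X k * (Wsk_c X P l r • X r)).trace =
      if k = r then Wsk_c X P l r * (Wsk_G X).det else 0 := by
    intro r
    rw [Matrix.mul_smul, Matrix.trace_smul, Wsk_dual, smul_eq_mul, mul_ite, mul_zero]
  rw [h2, Wsk_mul, Matrix.mul_sum, Matrix.trace_sum, Finset.sum_congr rfl fun r _ => h3 r,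
    Finset.sum_ite_eq Finset.univ k, if_pos (Finset.mem_univ k), sub_self]

/-- the intertwining matrices -/
private theorem Wsk_int (X Y : Fin 4 → Matrix (Fin 2) (Fin 2) R)
    (P Q Z : Matrix (Fin 2) (Fin 2) R)
    (hG : ∀ i j, (Y i * Y j).trace = (X i * X j).trace)
    (hP : ∀ i j, (Q * Y i * Y j).trace = (P * X i * X j).trace)
    (hδ : (Wsk_G X).det ≠ 0) :
    Q * (∑ i, Y i * Z * Wsk_D X i) = (∑ i, Y i * Z * Wsk_D X i) * P := by
  have hG' : Wsk_G Y = Wsk_G X := by
    ext i j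
    exact hG i j
  have hc : ∀ i k, Wsk_c Y Q i k = Wsk_c X P i k := by
    intro i k
    unfold Wsk_c
    rw [hG', show (fun j => (Q * Y i * Y j).trace) = fun j => (P * X i * X j).trace from
      funext fun j => hP i j]
  have h1 : (Wsk_G X).det • (Q * (∑ i, Y i * Z * Wsk_D X i)) =
      ∑ i, ∑ k, Wsk_c X P i k • (Y k * Z * Wsk_D X i) := by
    rw [Matrix.mul_sum, Finset.smul_sum]
    refine Finset.sum_congr rfl fun i _ => ?_
    have h2 : (Wsk_G X).det • (Q * (Y i * Z * Wsk_D X i)) =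
        ((Wsk_G X).det • (Q * Y i)) * Z * Wsk_D X i := by
      simp only [Matrix.smul_mul, Matrix.mul_assoc]
    have h3 := Wsk_mul Y Q i
    rw [hG'] at h3
    rw [h2, h3, Matrix.sum_mul, Matrix.sum_mul]
    refine Finset.sum_congr rfl fun k _ => ?_
    rw [hc, Matrix.smul_mul, Matrix.smul_mul]
  have h4 : (Wsk_G X).det • ((∑ i, Y i * Z * Wsk_D X i) * P) =
      ∑ i, ∑ k, Wsk_c X P i k • (Y k * Z * Wsk_D X i) := by
    rw [Finset.sum_comm, Matrix.sum_mul, Finset.smul_sum]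
    refine Finset.sum_congr rfl fun k _ => ?_
    have h5 : (Wsk_G X).det • (Y k * Z * Wsk_D X k * P) =
        Y k * Z * ((Wsk_G X).det • (Wsk_D X k * P)) := by
      simp only [Matrix.mul_smul, Matrix.mul_assoc]
    rw [h5, ← Wsk_two X hδ, Matrix.mul_sum]
    refine Finset.sum_congr rfl fun i _ => ?_
    rw [Matrix.mul_smul]
  exact smul_right_injective _ hδ (h1.trans h4.symm)

/-- one of the intertwining matrices is not zero -/
private theorem Wsk_nz (X Y : Fin 4 → Matrix (Fin 2) (Fin 2) R) (hY : Y 0 = 1)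
    (hδ : (Wsk_G X).det ≠ 0) : ∃ Z, (∑ i, Y i * Z * Wsk_D X i) ≠ 0 := by
  by_contra hcon
  push Not at hcon
  have h1 : ∀ l q, (∑ i, Y i 0 0 • Wsk_D X i) l q = 0 := by
    intro l q
    have h2 := congrFun (congrFun (hcon (Matrix.single 0 l 1)) 0) q
    rw [Matrix.sum_apply, Matrix.zero_apply] at h2
    rw [Matrix.sum_apply]
    rw [← h2]
    refine Finset.sum_congr rfl fun i _ => ?_
    rw [Matrix.smul_apply, smul_eq_mul, Matrix.mul_apply]
    rw [Finset.sum_eq_single l]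
    · rw [Matrix.mul_single_apply_same, mul_one]
    · intro b _ hb
      rw [Matrix.mul_single_apply_of_ne (hbj := hb), zero_mul]
    · intro h
      exact absurd (Finset.mem_univ l) h
  have h3 : (∑ i, Y i 0 0 • Wsk_D X i) = 0 := by
    ext l q
    exact h1 l q
  have h4 := congrArg (fun W => (W * X 0).trace) h3
  simp only [Matrix.zero_mul, Matrix.trace_zero, Matrix.sum_mul, Matrix.trace_sum,
    Matrix.smul_mul, Matrix.trace_smul, Wsk_dual, smul_eq_mul, mul_ite, mul_zero] at h4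
  rw [Finset.sum_ite_eq' Finset.univ (0 : Fin 4), if_pos (Finset.mem_univ _), hY,
    Matrix.one_apply_eq, one_mul] at h4
  exact hδ h4

/-- an intertwining matrix is zero or has nonzero determinant -/
private theorem Wsk_det (A U V : Matrix (Fin 2) (Fin 2) R) (m : R) (hm : m ≠ 0)
    (h1 : U * A = A * !![1, m; 0, 1]) (h2 : V * A = A * !![1, 0; m, 1]) (hA : A ≠ 0) :
    A.det ≠ 0 := by
  intro hd
  apply hA
  have e1 : A * !![1, m; 0, 1] * A.adjugate = 0 := by
    rw [← h1, Matrix.mul_assoc, Matrix.mul_adjugate, hd, zero_smul, Matrix.mul_zero]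
  have e2 : A * !![1, 0; m, 1] * A.adjugate = 0 := by
    rw [← h2, Matrix.mul_assoc, Matrix.mul_adjugate, hd, zero_smul, Matrix.mul_zero]
  rw [Matrix.adjugate_fin_two] at e1 e2
  have f1 := congrFun (congrFun e1 0) 1
  have f2 := congrFun (congrFun e1 1) 0
  have f3 := congrFun (congrFun e2 0) 1
  have f4 := congrFun (congrFun e2 1) 0
  simp only [Matrix.mul_apply, Fin.sum_univ_two, Matrix.of_apply, Matrix.cons_val_zero,
    Matrix.cons_val_one, Matrix.cons_val', Matrix.cons_val_fin_one, Matrix.zero_apply] at f1 f2 f3 f4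
  have g1 : m * (A 0 0) ^ 2 = 0 := by linear_combination f1
  have g2 : m * (A 1 0) ^ 2 = 0 := by linear_combination -f2
  have g3 : m * (A 0 1) ^ 2 = 0 := by linear_combination -f3
  have g4 : m * (A 1 1) ^ 2 = 0 := by linear_combination f4
  have k : ∀ x : R, m * x ^ 2 = 0 → x = 0 := fun x hx =>
    pow_eq_zero_iff (two_ne_zero) |>.mp ((mul_eq_zero.mp hx).resolve_left hm)
  ext i j
  fin_cases i <;> fin_cases j
  · exact k _ g1
  · exact k _ g3
  · exact k _ g2
  · exact k _ g4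

end

section

variable {a b : ℤ}

private theorem Wsk_zero (a b : ℤ) (L : ℕ) :
    Qfm a b (Int.castRingHom (ZMod L)) ((L : ℤ) : Qf a b ℤ) = 0 := by
  rw [map_intCast]
  apply QuadraticAlgebra.ext <;> simp

private theorem Wsk_eU (a b : ℤ) (L : ℕ) : (eU ((L : ℤ) : Qf a b ℤ) : GQ a b) ∈ Gam a b L := by
  rw [MonoidHom.mem_ker]
  unfold rdq
  rw [eU_map, Wsk_zero]
  exact AB.mx_one.symm

private theorem Wsk_eV (a b : ℤ) (L : ℕ) : (eV ((L : ℤ) : Qf a b ℤ) : GQ a b) ∈ Gam a b L := by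
  rw [MonoidHom.mem_ker]
  unfold rdq
  rw [eV_map, Wsk_zero]
  exact AB.mx_one.symm

end

/-- Two representations with the same traces are conjugate. -/
theorem p_Wsk : W_sk := by
  intro a b hn L _ ρ ρ' m hm hG htr
  have hdom : IsDomain (Qf a b ℤ) := Qf_domain hn
  have hm' : ((m : ℤ) : Qf a b ℤ) ≠ 0 := by
    intro h
    have h1 : ((m : ℤ) : Qf a b ℤ) = ((0 : ℤ) : Qf a b ℤ) := by
      rw [h, Int.cast_zero]
    have h2 : (m : ℤ) = 0 := by exact_mod_cast h1
    exact hm (by exact_mod_cast h2)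
  obtain ⟨g1, hg1⟩ := hG (Wsk_eU a b m)
  obtain ⟨g2, hg2⟩ := hG (Wsk_eV a b m)
  set x : Fin 4 → L := ![1, g1, g2, g1 * g2] with hx
  set X : Fin 4 → Matrix (Fin 2) (Fin 2) (Qf a b ℤ) := fun i => (ρ (x i)).val with hX
  set Y : Fin 4 → Matrix (Fin 2) (Fin 2) (Qf a b ℤ) := fun i => (ρ' (x i)).val with hY
  have hX1 : X = ![1, (ρ g1).val, (ρ g2).val, (ρ g1).val * (ρ g2).val] := by
    funext i
    fin_cases i
    · change (ρ 1).val = 1
      rw [map_one]
      rfl
    · rfl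
    · rfl
    · change (ρ (g1 * g2)).val = _
      rw [map_mul]
      rfl
  have hδ : (Wsk_G X).det ≠ 0 := by
    have h1 : (Wsk_G X).det = -(tr (ρ g1 * ρ g2 * (ρ g1)⁻¹ * (ρ g2)⁻¹) - 2) ^ 2 := by
      rw [hX1]
      exact p_Xgrm (Qf a b ℤ) (ρ g1) (ρ g2)
    rw [h1, hg1, hg2, eUV_tr]
    intro h
    have h2 : ((m : ℤ) : Qf a b ℤ) ^ 8 = 0 := by linear_combination -h
    exact hm' (pow_eq_zero_iff (by norm_num) |>.mp h2)
  have hGY : ∀ i j, (Y i * Y j).trace = (X i * X j).trace := by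
    intro i j
    have h1 := htr (x i * x j)
    rw [map_mul, map_mul] at h1
    exact h1
  have hPY : ∀ g i j, ((ρ' g).val * Y i * Y j).trace = ((ρ g).val * X i * X j).trace := by
    intro g i j
    have h1 := htr (g * x i * x j)
    rw [map_mul, map_mul, map_mul, map_mul] at h1
    exact h1
  have hY0 : Y 0 = 1 := by
    change (ρ' 1).val = 1
    rw [map_one]
    rfl
  obtain ⟨Z, hZ⟩ := Wsk_nz X Y hY0 hδ
  refine ⟨∑ i, Y i * Z * Wsk_D X i, ?_, fun g => ?_⟩
  · refine Wsk_det _ (ρ' g1).val (ρ' g2).val ((m : ℤ) : Qf a b ℤ) hm' ?_ ?_ hZ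
    · rw [Wsk_int X Y (ρ g1).val (ρ' g1).val Z hGY (hPY g1) hδ, hg1]
      rfl
    · rw [Wsk_int X Y (ρ g2).val (ρ' g2).val Z hGY (hPY g2) hδ, hg2]
      rfl
  · exact Wsk_int X Y (ρ g).val (ρ' g).val Z hGY (hPY g) hδ

end

end Pool.Agent.F8.CG
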