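import Pool.Agent.Lib.MP_305fdd_al.F8.CG.StmW
import Pool.Agent.Lib.MP_305fdd_al.F8.BG.P_E

/-!
# MP_305fdd_al, congruence subgroups: units which are squares modulo all `k`
-/

set_option autoImplicit false

namespace Pool.Agent.F8.CG

open Pool.Agent.F8.BG Pool.Agent.MP_305fdd_al Pool.Agent.Lib.MP_305fdd_al Pool.Agent.F8
open scoped QuadraticAlgebra

noncomputable section

private theorem Wsq_neg {a b : ℤ} (h : Five a b) : b ^ 2 + 4 * a < 0 := by
  rcases h with ⟨rfl, rfl⟩ | ⟨rfl, rfl⟩ | ⟨rfl, rfl⟩ | ⟨rfl, rfl⟩ | ⟨rfl, rfl⟩ <;> norm_num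

private theorem Wsq_unit {a b : ℤ} (hn : b ^ 2 + 4 * a < 0) (u : Qf a b ℤ)
    (hu : ∀ (k : ℕ) [NeZero k], ∃ p : Qf a b (ZMod k), IsUnit p ∧
      Qfm a b (Int.castRingHom (ZMod k)) u = p ^ 2) : IsUnit u := by
  have hu0 : u ≠ 0 := by
    rintro rfl
    obtain ⟨p, hp, h⟩ := hu 2
    rw [map_zero] at h
    have h1 : IsUnit (0 : Qf a b (ZMod 2)) := by
      rw [h]
      exact hp.pow 2
    have h2 : (0 : Qf a b (ZMod 2)) = 1 := isUnit_zero_iff.mp h1
    have h3 := congrArg QuadraticAlgebra.re h2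
    rw [QuadraticAlgebra.re_zero, QuadraticAlgebra.re_one] at h3
    exact absurd h3 (by decide)
  have h0 : 0 < nq u := lt_of_le_of_ne (nq_nonneg hn u) fun h => hu0 (nq_eq_zero hn h.symm)
  have hN : (nq u).toNat ≠ 0 := by omega
  have : NeZero (nq u).toNat := ⟨hN⟩
  have hdvd : u ∣ (((nq u).toNat : ℕ) : Qf a b ℤ) := by
    refine ⟨cjq a b ℤ u, ?_⟩
    rw [mul_cjq]
    have h1 : (((nq u).toNat : ℤ)) = nq u := Int.toNat_of_nonneg h0.le
    apply QuadraticAlgebra.ext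
    · rw [QuadraticAlgebra.re_natCast]
      exact h1
    · rw [QuadraticAlgebra.im_natCast]
  obtain ⟨p, hp, h⟩ := hu (nq u).toNat
  obtain ⟨q, hq⟩ := hp.exists_right_inv
  obtain ⟨v, hv⟩ := E_surj a b (nq u).toNat (q ^ 2)
  have h2 : Qfm a b (Int.castRingHom (ZMod (nq u).toNat)) (1 - u * v) = 0 := by
    rw [map_sub, map_mul, map_one, h, hv, ← mul_pow, hq, one_pow, sub_self]
  have h3 := E_ker a b _ _ h2
  have h4 : u ∣ 1 := by
    have h5 := dvd_add (hdvd.trans h3) (Dvd.intro v rfl : u ∣ u * v)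
    rwa [sub_add_cancel] at h5
  exact isUnit_of_dvd_one h4

private theorem Wsq_sq {a b : ℤ} (u : Qf a b ℤ)
    (hu : ∀ (k : ℕ) [NeZero k], ∃ p : Qf a b (ZMod k), IsUnit p ∧
      Qfm a b (Int.castRingHom (ZMod k)) u = p ^ 2) (k : ℕ) [NeZero k] (t : ZMod k)
    (ht : t * t = (a : ZMod k) + (b : ZMod k) * t) :
    ∃ s : ZMod k, (u.re : ZMod k) + (u.im : ZMod k) * t = s ^ 2 := by
  obtain ⟨p, -, hp⟩ := hu k
  refine ⟨evq a b (RingHom.id (ZMod k)) t ht p, ?_⟩
  rw [← map_pow, ← hp, Qfm_apply, evq_apply]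
  rfl

theorem p_Wsq : W_sq := by
  intro a b h5 u hu
  have hn := Wsq_neg h5
  have hun := Wsq_unit hn u hu
  have hnq : nq u = 1 := by
    obtain ⟨v, hv⟩ := hun.exists_right_inv
    have h1 := congrArg nq hv
    rw [nq_mul] at h1
    have h2 : nq (1 : Qf a b ℤ) = 1 := by
      unfold nq
      simp
    rw [h2] at h1
    have h3 := nq_nonneg hn u
    rcases Int.eq_one_or_neg_one_of_mul_eq_one h1 with h4 | h4
    · exact h4
    · omega
  have fin : ∀ v : Qf a b ℤ, u = v ^ 2 → ∃ v : Qf a b ℤ, IsUnit v ∧ u = v ^ 2 := by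
    intro v hv
    refine ⟨v, ?_, hv⟩
    rw [hv] at hun
    exact (isUnit_pow_iff two_ne_zero).mp hun
  obtain ⟨x, y⟩ := u
  unfold nq at hnq
  simp only [Int.cast_id] at hnq
  rcases h5 with ⟨rfl, rfl⟩ | ⟨rfl, rfl⟩ | ⟨rfl, rfl⟩ | ⟨rfl, rfl⟩ | ⟨rfl, rfl⟩
  · have hx1 : x ≤ 1 := by nlinarith
    have hx2 : -1 ≤ x := by nlinarith
    have hy1 : y ≤ 1 := by nlinarith
    have hy2 : -1 ≤ y := by nlinarith
    interval_cases x <;> interval_cases y <;> norm_num at hnq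
    · exact fin ⟨0, 1⟩ (by ext <;> simp [pow_two])
    · obtain ⟨s, hs⟩ := Wsq_sq _ hu 5 2 (by decide)
      exact absurd hs (by revert s; decide)
    · obtain ⟨s, hs⟩ := Wsq_sq _ hu 5 2 (by decide)
      exact absurd hs (by revert s; decide)
    · exact fin ⟨1, 0⟩ (by ext <;> simp [pow_two])
  · have hx1 : x ≤ 1 := by nlinarith [sq_nonneg y]
    have hx2 : -1 ≤ x := by nlinarith [sq_nonneg y]
    have hy1 : y ≤ 1 := by nlinarith [sq_nonneg x]
    have hy2 : -1 ≤ y := by nlinarith [sq_nonneg x]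
    interval_cases x <;> interval_cases y <;> norm_num at hnq
    · obtain ⟨s, hs⟩ := Wsq_sq _ hu 3 1 (by decide)
      exact absurd hs (by revert s; decide)
    · exact fin ⟨1, 0⟩ (by ext <;> simp [pow_two])
  · have hx1 : x ≤ 1 := by nlinarith [sq_nonneg (2 * y - x), sq_nonneg (x - y)]
    have hx2 : -1 ≤ x := by nlinarith [sq_nonneg (2 * y - x), sq_nonneg (x - y)]
    have hy1 : y ≤ 1 := by nlinarith [sq_nonneg (2 * x - y), sq_nonneg (x - y)]
    have hy2 : -1 ≤ y := by nlinarith [sq_nonneg (2 * x - y), sq_nonneg (x - y)]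
    interval_cases x <;> interval_cases y <;> norm_num at hnq
    · exact fin ⟨0, 1⟩ (by ext <;> simp [pow_two])
    · obtain ⟨s, hs⟩ := Wsq_sq _ hu 7 2 (by decide)
      exact absurd hs (by revert s; decide)
    · obtain ⟨s, hs⟩ := Wsq_sq _ hu 7 2 (by decide)
      exact absurd hs (by revert s; decide)
    · exact fin ⟨-1, -1⟩ (by ext <;> simp [pow_two])
    · exact fin ⟨1, 0⟩ (by ext <;> simp [pow_two])
    · obtain ⟨s, hs⟩ := Wsq_sq _ hu 7 2 (by decide)
      exact absurd hs (by revert s; decide)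
  · have hx1 : x ≤ 1 := by nlinarith [sq_nonneg (2 * x - y), sq_nonneg (x - y), sq_nonneg y]
    have hx2 : -1 ≤ x := by nlinarith [sq_nonneg (2 * x - y), sq_nonneg (x - y), sq_nonneg y]
    have hy1 : y ≤ 1 := by nlinarith [sq_nonneg (2 * x - y)]
    have hy2 : -1 ≤ y := by nlinarith [sq_nonneg (2 * x - y)]
    interval_cases x <;> interval_cases y <;> norm_num at hnq
    · obtain ⟨s, hs⟩ := Wsq_sq _ hu 4 1 (by decide)
      exact absurd hs (by revert s; decide)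
    · exact fin ⟨1, 0⟩ (by ext <;> simp [pow_two])
  · have hx1 : x ≤ 1 := by nlinarith [sq_nonneg (2 * x + y), sq_nonneg (x + y), sq_nonneg y]
    have hx2 : -1 ≤ x := by nlinarith [sq_nonneg (2 * x + y), sq_nonneg (x + y), sq_nonneg y]
    have hy1 : y ≤ 1 := by nlinarith [sq_nonneg (2 * x + y)]
    have hy2 : -1 ≤ y := by nlinarith [sq_nonneg (2 * x + y)]
    interval_cases x <;> interval_cases y <;> norm_num at hnq
    · obtain ⟨s, hs⟩ := Wsq_sq _ hu 3 1 (by decide)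
      exact absurd hs (by revert s; decide)
    · exact fin ⟨1, 0⟩ (by ext <;> simp [pow_two])

end

end Pool.Agent.F8.CG
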