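import Pool.Agent.Lib.MP_305fdd_al.F8.CG.StmW
import Pool.Agent.Lib.MP_305fdd_al.F8.Tower

/-!
# MP_305fdd_al, congruence subgroups, block W: no involutions in the genus of a subgroup of `F ⋊ ℤ`
-/

set_option autoImplicit false

namespace Pool.Agent.F8.CG

open Pool.Agent.F8.BG Pool.Agent.MP_305fdd_al Pool.Agent.Lib.MP_305fdd_al Pool.Agent.F8
open scoped QuadraticAlgebra

noncomputable section

/-- the cyclic group of order four -/
private abbrev Wtor_Z4 : Type := Multiplicative (ZMod 4)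

private theorem Wtor_sq (b b' : Wtor_Z4) : (b * b') * (b * b') = (b * b) * (b' * b') := by
  rw [mul_mul_mul_comm]

private theorem Wtor_two : ∀ b b' : Wtor_Z4, b * b ≠ 1 → b' * b' ≠ 1 →
    (b * b') * (b * b') = 1 := by
  have h : ∀ b b' : ZMod 4, b + b ≠ 0 → b' + b' ≠ 0 → (b + b') + (b + b') = 0 := by decide
  exact fun b b' h1 h2 => h b b' h1 h2

/-- the subgroup `{1, q}` -/
private def Wtor_C {Q : Type} [Group Q] (q : Q) (hq : q * q = 1) : Subgroup Q where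
  carrier := {x | x = 1 ∨ x = q}
  mul_mem' := by
    rintro x y (rfl | rfl) (rfl | rfl)
    · exact Or.inl (one_mul _)
    · exact Or.inr (one_mul _)
    · exact Or.inr (mul_one _)
    · exact Or.inl hq
  one_mem' := Or.inl rfl
  inv_mem' := by
    rintro x (rfl | rfl)
    · exact Or.inl inv_one
    · exact Or.inr (inv_eq_iff_mul_eq_one.2 hq)

/-- the pairs `(1, b)` with `b ^ 2 = 1` and `(q, b)` with `b ^ 2 ≠ 1` -/
private def Wtor_R {Q : Type} [Group Q] (q : Q) (hq : q * q = 1) : Subgroup (Q × Wtor_Z4) where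
  carrier := {x | (x.1 = 1 ∧ x.2 * x.2 = 1) ∨ (x.1 = q ∧ x.2 * x.2 ≠ 1)}
  mul_mem' := by
    rintro ⟨x, b⟩ ⟨y, b'⟩ (⟨h1, h2⟩ | ⟨h1, h2⟩) (⟨h3, h4⟩ | ⟨h3, h4⟩)
    · left
      refine ⟨?_, ?_⟩
      · show x * y = 1
        rw [show x = 1 from h1, show y = 1 from h3, one_mul]
      · show (b * b') * (b * b') = 1
        rw [Wtor_sq, show b * b = 1 from h2, show b' * b' = 1 from h4, one_mul]
    · right
      refine ⟨?_, ?_⟩
      · show x * y = q
        rw [show x = 1 from h1, show y = q from h3, one_mul]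
      · show (b * b') * (b * b') ≠ 1
        rw [Wtor_sq, show b * b = 1 from h2, one_mul]
        exact h4
    · right
      refine ⟨?_, ?_⟩
      · show x * y = q
        rw [show x = q from h1, show y = 1 from h3, mul_one]
      · show (b * b') * (b * b') ≠ 1
        rw [Wtor_sq, show b' * b' = 1 from h4, mul_one]
        exact h2
    · left
      refine ⟨?_, ?_⟩
      · show x * y = 1
        rw [show x = q from h1, show y = q from h3, hq]
      · exact Wtor_two b b' h2 h4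
  one_mem' := Or.inl ⟨rfl, mul_one _⟩
  inv_mem' := by
    rintro ⟨x, b⟩ (⟨h1, h2⟩ | ⟨h1, h2⟩)
    · left
      refine ⟨?_, ?_⟩
      · show x⁻¹ = 1
        rw [show x = 1 from h1, inv_one]
      · show b⁻¹ * b⁻¹ = 1
        rw [← mul_inv, show b * b = 1 from h2, inv_one]
    · right
      refine ⟨?_, ?_⟩
      · show x⁻¹ = q
        rw [show x = q from h1]
        exact inv_eq_iff_mul_eq_one.2 hq
      · show b⁻¹ * b⁻¹ ≠ 1
        rw [← mul_inv, inv_ne_one]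
        exact h2

/-- A homomorphism of a free group to `{1, q}` lifts to the cyclic group of order four. -/
private theorem Wtor_lift {F₀ : Type} [Group F₀] [IsFreeGroup F₀] {Q : Type} [Group Q] (q : Q)
    (hq : q * q = 1) (hq1 : q ≠ 1) (f₀ : F₀ →* Q) (hf : ∀ w, f₀ w = 1 ∨ f₀ w = q) :
    ∃ κ : F₀ →* Wtor_Z4, ∀ w, f₀ w = q → κ w * κ w ≠ 1 := by
  classical
  have h4 : (Multiplicative.ofAdd (1 : ZMod 4) : Wtor_Z4) * Multiplicative.ofAdd (1 : ZMod 4) ≠ 1 := by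
    have h : (1 : ZMod 4) + 1 ≠ 0 := by decide
    exact h
  have hr : ∀ e : IsFreeGroup.Generators F₀, ∃ r : Wtor_R q hq, (r : Q × Wtor_Z4).1 = f₀ (IsFreeGroup.of e) := by
    intro e
    rcases hf (IsFreeGroup.of e) with h | h
    · exact ⟨⟨(1, 1), Or.inl ⟨rfl, mul_one _⟩⟩, h.symm⟩
    · exact ⟨⟨(q, Multiplicative.ofAdd 1), Or.inr ⟨rfl, h4⟩⟩, h.symm⟩
  choose r hr using hr
  let L : F₀ →* Wtor_R q hq := IsFreeGroup.lift r
  have hL : ((MonoidHom.fst Q Wtor_Z4).comp (Wtor_R q hq).subtype).comp L = f₀ := by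
    apply IsFreeGroup.ext_hom
    intro e
    show ((L (IsFreeGroup.of e) : Wtor_R q hq) : Q × Wtor_Z4).1 = f₀ (IsFreeGroup.of e)
    rw [← hr e]
    congr 2
    exact IsFreeGroup.lift_of r e
  refine ⟨((MonoidHom.snd Q Wtor_Z4).comp (Wtor_R q hq).subtype).comp L, fun w hw => ?_⟩
  have h1 : ((L w : Wtor_R q hq) : Q × Wtor_Z4).1 = f₀ w := DFunLike.congr_fun hL w
  show ((L w : Wtor_R q hq) : Q × Wtor_Z4).2 * ((L w : Wtor_R q hq) : Q × Wtor_Z4).2 ≠ 1
  rcases (L w).2 with h | h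
  · exfalso
    apply hq1
    rw [← hw, ← h1]
    exact h.1
  · exact h.2

/-- the lift which is invariant under a power of an automorphism -/
private theorem Wtor_inv {ι : Type} [Finite ι] (β : MulAut (FreeGroup ι))
    (F₀ : Subgroup (FreeGroup ι)) (hF : F₀.index ≠ 0)
    (hβ : ∀ (i : ℤ) (w : FreeGroup ι), w ∈ F₀ → (β ^ i) w ∈ F₀) {Q : Type} [Group Q] (q : Q)
    (hq : q * q = 1) (hq1 : q ≠ 1) (f₀ : F₀ →* Q) (hf : ∀ w, f₀ w = 1 ∨ f₀ w = q) :
    ∃ (j : ℕ) (k₀ : FreeGroup ι → Wtor_Z4), 0 < j ∧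
      (∀ w ∈ F₀, ∀ w' ∈ F₀, k₀ (w * w') = k₀ w * k₀ w') ∧
      (∀ (i : ℤ), ∀ w ∈ F₀, k₀ ((β ^ ((j : ℤ) * i)) w) = k₀ w) ∧
      (∀ (w : FreeGroup ι) (h : w ∈ F₀), f₀ ⟨w, h⟩ = q → k₀ w * k₀ w ≠ 1) := by
  classical
  obtain ⟨κ, hκ⟩ := Wtor_lift q hq hq1 f₀ hf
  let k₀ : FreeGroup ι → Wtor_Z4 := fun w => if h : w ∈ F₀ then κ ⟨w, h⟩ else 1
  have hk : ∀ (w : FreeGroup ι) (h : w ∈ F₀), k₀ w = κ ⟨w, h⟩ := fun w h => dif_pos h
  have hmul : ∀ w ∈ F₀, ∀ w' ∈ F₀, k₀ (w * w') = k₀ w * k₀ w' := by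
    intro w hw w' hw'
    rw [hk w hw, hk w' hw', hk _ (mul_mem hw hw'), ← map_mul]
    rfl
  have hFf : F₀.FiniteIndex := ⟨hF⟩
  have hfg : Group.FG F₀ := Subgroup.fg_of_index_ne_zero F₀
  have hfin : Finite (F₀ →* Wtor_Z4) := finite_hom F₀ Wtor_Z4
  let m : ℤ → (F₀ →* Wtor_Z4) := fun i => MonoidHom.mk' (fun w => k₀ ((β ^ i) w)) (by
    intro w w'
    show k₀ ((β ^ i) ((w : FreeGroup ι) * w')) = _
    rw [map_mul]
    exact hmul _ (hβ i _ w.2) _ (hβ i _ w'.2))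
  obtain ⟨x, y, hxy, he⟩ := Finite.exists_ne_map_eq_of_infinite m
  have he' : ∀ w ∈ F₀, k₀ ((β ^ x) w) = k₀ ((β ^ y) w) := fun w hw =>
    DFunLike.congr_fun he ⟨w, hw⟩
  let A : AddSubgroup ℤ :=
    { carrier := {i | ∀ w ∈ F₀, k₀ ((β ^ i) w) = k₀ w}
      add_mem' := by
        intro i i' hi hi' w hw
        rw [zpow_add, MulAut.mul_apply, hi _ (hβ i' _ hw), hi' _ hw]
      zero_mem' := by
        intro w hw
        rw [zpow_zero, MulAut.one_apply]
      neg_mem' := by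
        intro i hi w hw
        have h := hi _ (hβ (-i) _ hw)
        rw [← MulAut.mul_apply, ← zpow_add, add_neg_cancel, zpow_zero, MulAut.one_apply] at h
        exact h.symm }
  have hA : x - y ∈ A := by
    intro w hw
    have h := he' _ (hβ (-y) _ hw)
    rw [← MulAut.mul_apply, ← MulAut.mul_apply, ← zpow_add, ← zpow_add, add_neg_cancel, zpow_zero,
      MulAut.one_apply, ← sub_eq_add_neg] at h
    exact h
  have hne : x - y ≠ 0 := sub_ne_zero.2 hxy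
  refine ⟨(x - y).natAbs, k₀, Int.natAbs_pos.2 hne, hmul, ?_, ?_⟩
  · intro i
    have h1 : ((x - y).natAbs : ℤ) ∈ A := by
      rcases Int.natAbs_eq (x - y) with h | h
      · rw [← h]; exact hA
      · have h2 : ((x - y).natAbs : ℤ) = -(x - y) := by omega
        rw [h2]; exact A.neg_mem hA
    have h2 : i • ((x - y).natAbs : ℤ) ∈ A := A.zsmul_mem h1 i
    rw [smul_eq_mul, mul_comm] at h2
    exact h2
  · intro w h hw
    rw [hk w h]
    exact hκ _ hw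

/-- a homomorphism to the group of order four of a subgroup which corresponds to an involution -/
private theorem Wtor_key {G Λ : Type} [Group G] [Group Λ] (Φ : NatBij G Λ) {P T Q : Type}
    [Group P] [Finite P] [Group T] [Finite T] [Group Q] [Finite Q] (π : G →* P) (S : Subgroup P)
    (κ : S.comap π →* T) (f : G →* Q) (l : Λ) (hl : l * l = 1) (hS : Φ.toFun _ π l ∈ S)
    (hκ : ∀ x : S.comap π, f x = Φ.toFun _ f l → κ x * κ x ≠ 1) : False := by
  obtain ⟨Ψ, hΨ⟩ := natBij_comap Φ (π' := Φ.toFun _ π) rfl S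
  let l' : S.comap (Φ.toFun _ π) := ⟨l, hS⟩
  obtain ⟨x, h1, h2⟩ := pair_val Ψ (f.comp (S.comap π).subtype) κ l'
  rw [hΨ] at h1
  refine hκ x h1 ?_
  rw [h2, ← map_mul]
  have h3 : l' * l' = 1 := Subtype.ext hl
  rw [h3, map_one]

/-- the degree of an involution is zero -/
private theorem Wtor_deg {G Λ : Type} [Group G] [Group Λ] (Φ : NatBij G Λ)
    (n : G →* Multiplicative ℤ) (K : ℕ) [NeZero K] (l : Λ) (hl : l * l = 1) :
    Φ.toFun _ ((redZ K).comp n) l = 1 := by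
  have : NeZero (2 * K) := ⟨mul_ne_zero two_ne_zero (NeZero.ne K)⟩
  obtain ⟨x, h1, h2⟩ := pair_val Φ ((redZ (2 * K)).comp n) ((redZ K).comp n) l
  rw [← h2]
  have h3 : (redZ (2 * K)) (n x * n x) = redZ (2 * K) 1 := by
    rw [map_mul, map_one]
    show ((redZ (2 * K)).comp n) x * ((redZ (2 * K)).comp n) x = 1
    rw [h1, ← map_mul, hl, map_one]
  obtain ⟨z, hz⟩ := redZ_eq _ _ _ h3
  have h4 : n x = z ^ K := by
    have h5 := congrArg Multiplicative.toAdd hz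
    rw [toAdd_mul, toAdd_mul, toAdd_one, toAdd_pow, zero_add, nsmul_eq_mul] at h5
    push_cast at h5
    apply Multiplicative.toAdd.injective
    rw [toAdd_pow, nsmul_eq_mul]
    linarith
  show redZ K (n x) = 1
  rw [h4, redZ_pow_self]

/-- preimages of subgroups of finite index -/
private theorem Wtor_comap {A B : Type} [Group A] [Group B] (f : A →* B) (H : Subgroup B)
    (hH : H.index ≠ 0) : (H.comap f).index ≠ 0 := by
  rw [Subgroup.index_comap]
  exact fun h => hH (Subgroup.index_eq_zero_of_relIndex_eq_zero h)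

/-- PIECE W tor -/
theorem p_Wtor : W_tor := by
  intro ι _ α Δ hΔ Λ _ hΛ Φ l hl
  classical
  by_contra hl1
  obtain ⟨N, hN⟩ := Group.residuallyFinite_iff_exists_finiteIndexNormalSubgroup.1 hΛ l hl1
  have : N.toSubgroup.FiniteIndex := N.isFiniteIndex'
  have : N.toSubgroup.Normal := N.isNormal'
  have : Finite (Λ ⧸ N.toSubgroup) := Subgroup.finite_quotient_of_finiteIndex
  let Q : Type := Λ ⧸ N.toSubgroup
  let g : Λ →* Q := QuotientGroup.mk' N.toSubgroup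
  let f : Δ →* Q := Φ.invFun _ g
  have hfg : Φ.toFun _ f = g := Φ.right_inv _ g
  obtain ⟨q, hq⟩ : ∃ q, q = g l := ⟨_, rfl⟩
  have hq1 : q ≠ 1 := by
    rw [hq]
    intro h
    exact hN ((QuotientGroup.eq_one_iff l).1 h)
  have hqq : q * q = 1 := by rw [hq, ← map_mul, hl, map_one]
  have hfl : Φ.toFun _ f l = q := by rw [hfg, hq]
  -- the free group part
  let C : Subgroup Q := Wtor_C q hqq
  have hC : ∀ x, x ∈ C ↔ x = 1 ∨ x = q := fun x => Iff.rfl
  let F₀ : Subgroup (FreeGroup ι) := ((C.comap f).map Δ.subtype).comap (iR α)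
  have hF₀ : ∀ w, w ∈ F₀ ↔ ∃ h : iR α w ∈ Δ, f ⟨iR α w, h⟩ ∈ C := by
    intro w
    constructor
    · rintro ⟨⟨x, hx⟩, h1, h2⟩
      have h3 : x = iR α w := h2
      subst h3
      exact ⟨hx, h1⟩
    · rintro ⟨h, h1⟩
      exact ⟨⟨iR α w, h⟩, h1, rfl⟩
  have hFi : F₀.index ≠ 0 := by
    have h1 : (C.comap f).index ≠ 0 := Wtor_comap f C Subgroup.index_ne_zero_of_finite
    have h2 : ((C.comap f).map Δ.subtype).index ≠ 0 := by
      rw [Subgroup.index_map_subtype]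
      exact mul_ne_zero h1 hΔ.index_ne_zero
    exact Wtor_comap (iR α) _ h2
  let f₀ : F₀ →* Q := f.comp (((iR α).comp F₀.subtype).codRestrict Δ
    (fun w => ((hF₀ w).1 w.2).1))
  have hf₀ : ∀ w, f₀ w = 1 ∨ f₀ w = q := fun w => (hC _).1 ((hF₀ w).1 w.2).2
  -- the power of `t`
  obtain ⟨K, hK, hKΔ, hKf⟩ : ∃ K : ℕ, 0 < K ∧ ∃ h : tR α ^ K ∈ Δ, f ⟨tR α ^ K, h⟩ = 1 := by
    obtain ⟨k, hk, -, hk2⟩ := Subgroup.exists_pow_mem_of_index_ne_zero hΔ.index_ne_zero (tR α)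
    refine ⟨k * Nat.card Q, Nat.mul_pos hk Nat.card_pos, ?_, ?_⟩
    · rw [pow_mul]; exact pow_mem hk2 _
    · have h1 : (⟨tR α ^ (k * Nat.card Q), by rw [pow_mul]; exact pow_mem hk2 _⟩ : Δ) =
        (⟨tR α ^ k, hk2⟩ : Δ) ^ Nat.card Q := Subtype.ext (pow_mul _ _ _)
      rw [h1, map_pow, pow_card_eq_one']
  have hKz : ∀ i : ℤ, ∃ h : tR α ^ ((K : ℤ) * i) ∈ Δ, f ⟨tR α ^ ((K : ℤ) * i), h⟩ = 1 := by
    intro i
    have h1 : tR α ^ ((K : ℤ) * i) = (tR α ^ K) ^ i := by rw [zpow_mul, zpow_natCast]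
    have h2 : tR α ^ ((K : ℤ) * i) ∈ Δ := by rw [h1]; exact zpow_mem hKΔ i
    refine ⟨h2, ?_⟩
    have h3 : (⟨tR α ^ ((K : ℤ) * i), h2⟩ : Δ) = (⟨tR α ^ K, hKΔ⟩ : Δ) ^ i := Subtype.ext h1
    rw [h3, map_zpow, hKf, one_zpow]
  have hβ : ∀ (i : ℤ) (w : FreeGroup ι), w ∈ F₀ → ((α ^ K) ^ i) w ∈ F₀ := by
    intro i w hw
    obtain ⟨h1, h2⟩ := (hF₀ w).1 hw
    obtain ⟨h3, h4⟩ := hKz i
    have h5 : iR α (((α ^ K) ^ i) w) =
        ((⟨_, h3⟩ * ⟨_, h1⟩ * (⟨_, h3⟩)⁻¹ : Δ) : GR α) := by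
      show iR α (((α ^ K) ^ i) w) = tR α ^ ((K : ℤ) * i) * iR α w * (tR α ^ ((K : ℤ) * i))⁻¹
      rw [tR_zpow_conj, zpow_mul, zpow_natCast]
    rw [hF₀]
    refine ⟨by rw [h5]; exact Subtype.coe_prop _, ?_⟩
    have h6 : (⟨iR α (((α ^ K) ^ i) w), by rw [h5]; exact Subtype.coe_prop _⟩ : Δ) =
        ⟨_, h3⟩ * ⟨_, h1⟩ * (⟨_, h3⟩)⁻¹ := Subtype.ext h5
    rw [h6, map_mul, map_mul, map_inv, h4, inv_one, mul_one, one_mul]
    exact h2
  obtain ⟨j, k₀, hj, hk1, hk2, hk3⟩ := Wtor_inv (α ^ K) F₀ hFi hβ q hqq hq1 f₀ hf₀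
  -- the subgroup
  have : NeZero (K * j) := ⟨(Nat.mul_pos hK hj).ne'⟩
  let n : Δ →* Multiplicative ℤ := (nR α).comp Δ.subtype
  let π : Δ →* Q × Multiplicative (ZMod (K * j)) := f.prod ((redZ (K * j)).comp n)
  let S : Subgroup (Q × Multiplicative (ZMod (K * j))) := C.prod ⊥
  have hS : Φ.toFun _ π l ∈ S := by
    show Φ.toFun _ (f.prod ((redZ (K * j)).comp n)) l ∈ S
    rw [pair_prod]
    refine ⟨?_, ?_⟩
    · show Φ.toFun _ f l ∈ C
      rw [hfl]
      exact Or.inr rfl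
    · show Φ.toFun _ ((redZ (K * j)).comp n) l ∈ (⊥ : Subgroup _)
      rw [Wtor_deg Φ n (K * j) l hl]
      exact Subgroup.one_mem _
  have hV : ∀ x : S.comap π, ∃ i : ℤ, (x.val.val : GR α).right =
      Multiplicative.ofAdd (((K * j : ℕ) : ℤ) * i) ∧
      ∃ h : (x.val.val : GR α).left ∈ F₀, f₀ ⟨(x.val.val : GR α).left, h⟩ = f x.val := by
    rintro ⟨⟨x, hx⟩, h1, h2⟩
    have h3 : redZ (K * j) (nR α x) = redZ (K * j) 1 := by
      rw [map_one]; exact h2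
    obtain ⟨z, hz⟩ := redZ_eq _ _ _ h3
    rw [one_mul] at hz
    have hxr : x.right = Multiplicative.ofAdd (((K * j : ℕ) : ℤ) * Multiplicative.toAdd z) := by
      show nR α x = _
      rw [hz]
      apply Multiplicative.toAdd.injective
      rw [toAdd_pow, nsmul_eq_mul]; rfl
    refine ⟨Multiplicative.toAdd z, hxr, ?_⟩
    obtain ⟨h4, h5⟩ := hKz (j * Multiplicative.toAdd z)
    have h6 : iR α x.left = ((⟨x, hx⟩ * (⟨_, h4⟩)⁻¹ : Δ) : GR α) := by
      show iR α x.left = x * (tR α ^ ((K : ℤ) * (j * Multiplicative.toAdd z)))⁻¹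
      rw [eq_mul_inv_iff_mul_eq]
      unfold iR tR
      rw [← map_zpow, ← ofAdd_zsmul, smul_eq_mul, mul_one]
      have h7 : (Multiplicative.ofAdd ((K : ℤ) * (j * Multiplicative.toAdd z)) : Multiplicative ℤ) =
          x.right := by
        rw [hxr]
        congr 1
        push_cast
        ring
      rw [h7]
      exact SemidirectProduct.inl_left_mul_inr_right x
    have h8 : iR α x.left ∈ Δ := by rw [h6]; exact Subtype.coe_prop _
    have h9 : f ⟨iR α x.left, h8⟩ = f ⟨x, hx⟩ := by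
      have h10 : (⟨iR α x.left, h8⟩ : Δ) = ⟨x, hx⟩ * (⟨_, h4⟩)⁻¹ := Subtype.ext h6
      rw [h10, map_mul, map_inv, h5, inv_one, mul_one]
    have h11 : x.left ∈ F₀ := (hF₀ _).2 ⟨h8, by rw [h9]; exact h1⟩
    exact ⟨h11, h9⟩
  let κ : S.comap π →* Wtor_Z4 := MonoidHom.mk' (fun x => k₀ (x.val.val : GR α).left) (by
    intro x y
    obtain ⟨i, hi, hxl, -⟩ := hV x
    obtain ⟨-, -, hyl, -⟩ := hV y
    show k₀ ((x.val.val : GR α) * (y.val.val : GR α)).left = _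
    rw [SemidirectProduct.mul_left, hi]
    have h1 : zpowersHom (MulAut (FreeGroup ι)) α (Multiplicative.ofAdd (((K * j : ℕ) : ℤ) * i)) =
        (α ^ K) ^ ((j : ℤ) * i) := by
      rw [zpowersHom_apply, toAdd_ofAdd]
      push_cast
      rw [mul_assoc, zpow_mul, zpow_natCast]
    rw [h1, hk1 _ hxl _ (hβ _ _ hyl), hk2 _ _ hyl])
  refine Wtor_key Φ π S κ f l hl hS ?_
  intro x hx
  rw [hfl] at hx
  obtain ⟨i, -, h1, h2⟩ := hV x
  exact hk3 _ h1 (h2.trans hx)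

end

end Pool.Agent.F8.CG
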