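import Pool.Agent.Lib.MP_305fdd_al.F8.CG.StmY
import Pool.Agent.Lib.MP_305fdd_al.F8.BG.P_con

/-!
# MP_305fdd_al, congruence subgroups, block Y: transport to `Γ(M')`
-/

set_option autoImplicit false

namespace Pool.Agent.F8.CG

open Pool.Agent.F8.BG Pool.Agent.MP_305fdd_al Pool.Agent.Lib.MP_305fdd_al Pool.Agent.F8
open scoped QuadraticAlgebra

noncomputable section

section emb

variable {ι : Type} (α : MulAut (FreeGroup ι)) (k : ℕ)

private theorem Yuni_emb (w : FreeGroup ι) (n : ℤ) :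
    emb α k (iR (α ^ k) w * tR (α ^ k) ^ n) = iR α w * tR α ^ ((k : ℤ) * n) := by
  rw [map_mul, map_zpow, emb_iR, emb_tR, zpow_mul, zpow_natCast]

private theorem Yuni_nR (g : GR (α ^ k)) : Multiplicative.toAdd (nR α (emb α k g)) =
    k * Multiplicative.toAdd (nR (α ^ k) g) := by
  obtain ⟨w, n, rfl⟩ := GR_cases (α ^ k) g
  rw [Yuni_emb, nR_eq, nR_eq]
  rfl

private theorem Yuni_inj (hk : 1 ≤ k) : Function.Injective (emb α k) := by
  rw [injective_iff_map_eq_one]
  intro g hg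
  have h1 := Yuni_nR α k g
  rw [hg, map_one, toAdd_one] at h1
  have hk0 : (k : ℤ) ≠ 0 := by exact_mod_cast (by omega : k ≠ 0)
  have h2 : Multiplicative.toAdd (nR (α ^ k) g) = 0 := by
    rcases mul_eq_zero.mp h1.symm with h | h
    · exact absurd h hk0
    · exact h
  have h3 : nR (α ^ k) g = 1 := Multiplicative.toAdd.injective h2
  obtain ⟨w, rfl⟩ := GR_ker _ g h3
  rw [emb_iR] at hg
  have h4 : w = 1 := iR_injective α (by rw [hg, map_one])
  rw [h4, map_one]

private theorem Yuni_surj (g : GR α) (hg : (k : ℤ) ∣ Multiplicative.toAdd (nR α g)) :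
    ∃ g', emb α k g' = g := by
  obtain ⟨j, hj⟩ := hg
  obtain ⟨w, n, rfl⟩ := GR_cases α g
  rw [nR_eq, toAdd_ofAdd] at hj
  exact ⟨iR (α ^ k) w * tR (α ^ k) ^ j, by rw [Yuni_emb, hj]⟩

end emb

/-- irreducibility is transported by isomorphisms -/
private theorem Yuni_irc {G G' K : Type} [Group G] [Group G'] [CommRing K] (θ : G ≃* G')
    (σ : G' →* SL2 K) (h : ∀ L : Subgroup G', L.FiniteIndex → IrC L σ) :
    ∀ L : Subgroup G, L.FiniteIndex → IrC L (σ.comp θ.toMonoidHom) := by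
  intro L hL
  have hr : θ.toMonoidHom.range = ⊤ := MonoidHom.range_eq_top.2 θ.surjective
  have hfi : θ.toMonoidHom.range.FiniteIndex := by
    rw [hr]
    infer_instance
  obtain ⟨g₁, hg₁, h₁, hh₁, hne⟩ := h (L.map θ.toMonoidHom) (con_map_index _ hfi L hL)
  rw [← Subgroup.map_commutator] at hg₁ hh₁
  obtain ⟨g, hg, rfl⟩ := hg₁
  obtain ⟨h', hh, rfl⟩ := hh₁
  refine ⟨g, hg, h', hh, ?_⟩
  show tr (σ (θ.toMonoidHom (g * h' * g⁻¹ * h'⁻¹))) ≠ 2
  have h1 : θ.toMonoidHom (g * h' * g⁻¹ * h'⁻¹) = θ.toMonoidHom g * θ.toMonoidHom h' *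
      (θ.toMonoidHom g)⁻¹ * (θ.toMonoidHom h')⁻¹ := by
    rw [map_mul, map_mul, map_mul, map_inv, map_inv]
  rw [h1]
  exact hne

theorem p_Yuni (huni : A_uni) (hirc : Y_irc) : Y_uni := by
  intro a b ι _ α N w M c g G₀ η H M' hM0 hM3 hMM' hN E hE hEG σ hσ Λ _ _ Ψ
  obtain ⟨i₀, hi₀⟩ := H.fst
  have hlev : E ≤ G₀ := fun x hx => H.eta.lev x (con_red hMM' (MonoidHom.mem_ker.1 (hEG hx)))
  -- the embedding of `E` in `GR α`
  let f : E →* GR α := η.comp (Subgroup.inclusion hlev)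
  have hf : Function.Injective f := by
    rw [injective_iff_map_eq_one]
    intro x hx
    rcases (H.eta.ker _).1 hx with h1 | h1
    · exact Subtype.ext h1
    · exact absurd h1 (con_neg hM3 (MonoidHom.mem_ker.1 (hEG x.2)))
  have hfi : f.range.FiniteIndex := by
    have h1 : (E.subgroupOf G₀).FiniteIndex := inferInstance
    have h2 := con_map_index η H.eta.fin (E.subgroupOf G₀) h1
    refine Subgroup.finiteIndex_of_le (H := (E.subgroupOf G₀).map η) ?_
    rintro _ ⟨x, hx, rfl⟩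
    exact ⟨⟨x.val, hx⟩, rfl⟩
  -- the corresponding subgroup of `GR (α ^ N)`
  let Δ : Subgroup (GR (α ^ N)) := f.range.comap (emb α N)
  have hΔ : Δ.FiniteIndex := by
    constructor
    have h1 : (f.range.subgroupOf (emb α N).range).FiniteIndex := inferInstance
    rw [Subgroup.index_comap]
    exact h1.index_ne_zero
  let e0 : Δ →* f.range := ((emb α N).comp Δ.subtype).codRestrict f.range (fun x => x.2)
  have he0 : Function.Bijective e0 := by
    constructor
    · intro x x' hxx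
      exact Subtype.ext (Yuni_inj α N H.one_le (congrArg Subtype.val hxx))
    · rintro ⟨_, x, rfl⟩
      obtain ⟨g', hg'⟩ := Yuni_surj α N (f x) (hN _ (MonoidHom.mem_ker.1 (hEG x.2)))
      refine ⟨⟨g', ?_⟩, Subtype.ext hg'⟩
      show emb α N g' ∈ f.range
      rw [hg']
      exact ⟨x, rfl⟩
  let θ : Δ ≃* E := (MulEquiv.ofBijective e0 he0).trans (MonoidHom.ofInjective hf).symm
  obtain ⟨T, hT⟩ := huni ι (α ^ N) w i₀ H.pos hi₀ Δ hΔ a b H.neg (σ.comp θ.toMonoidHom)
    (Yuni_irc θ σ (hirc a b H.neg E hE σ hσ)) Λ (natBij_equiv θ Ψ)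
  refine ⟨T, fun S _ _ h l => ?_⟩
  rw [hT S h l]
  have e1 : ((SLm h).comp (σ.comp θ.toMonoidHom)).comp θ.symm.toMonoidHom = (SLm h).comp σ := by
    apply MonoidHom.ext
    intro x
    show SLm h (σ (θ (θ.symm x))) = SLm h (σ x)
    rw [θ.apply_symm_apply]
  show tr (Ψ.toFun _ (((SLm h).comp (σ.comp θ.toMonoidHom)).comp θ.symm.toMonoidHom) l) = _
  rw [e1]

end

end Pool.Agent.F8.CG
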