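import Pool.Agent.Lib.MP_305fdd_al.F8.CG.StmY

/-!
# MP_305fdd_al, project CG, piece Yunp: unipotent elements are conjugate to elements of `Γ(M')`
-/

set_option autoImplicit false

namespace Pool.Agent.F8.CG

open Pool.Agent.F8.BG Pool.Agent.MP_305fdd_al Pool.Agent.Lib.MP_305fdd_al Pool.Agent.F8
open scoped QuadraticAlgebra

noncomputable section

private theorem Yunp_eU {a b : ℤ} (m : ℕ) : rdq a b m (eU ((m : ℤ) : Qf a b ℤ)) = 1 := by
  have h1 : rdq a b m (eU ((m : ℤ) : Qf a b ℤ)) =
      eU (Qfm a b (Int.castRingHom (ZMod m)) ((m : ℤ) : Qf a b ℤ)) := eU_map _ _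
  rw [h1, map_intCast, Int.cast_natCast]
  have h2 : ((m : ℕ) : Qf a b (ZMod m)) = 0 := by
    apply QuadraticAlgebra.ext
    · simp
    · simp
  rw [h2]
  apply Subtype.ext
  apply Matrix.ext
  intro i j
  fin_cases i <;> fin_cases j <;> simp [eU, AB.mx]

theorem p_Yunp : Y_unp := by
  intro a b hn m hm x hx
  have hdom : IsDomain (Qf a b ℤ) := Qf_domain hn
  have hm' : ((m : ℤ) : Qf a b ℤ) ≠ 0 := by
    intro h
    have h1 := congrArg QuadraticAlgebra.re h
    simp at h1
    exact hm h1
  have h1 : x.val 0 0 + x.val 1 1 = 2 := by rw [← tr_eq, hx]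
  have h2 : x.val 0 0 * x.val 1 1 - x.val 0 1 * x.val 1 0 = 1 := by
    rw [← Matrix.det_fin_two]
    exact x.2
  by_cases hr : x.val 1 0 = 0
  · have h3 : (x.val 0 0 - 1) ^ 2 = 0 := by
      rw [hr] at h2
      linear_combination x.val 0 0 * h1 - h2
    have h4 : x.val 0 0 = 1 := by
      have := pow_eq_zero_iff (two_ne_zero) |>.1 h3
      exact sub_eq_zero.1 this
    have h5 : x.val 1 1 = 1 := by
      rw [h4] at h1
      linear_combination h1
    by_cases hq : x.val 0 1 = 0
    · refine ⟨1, by simp, 1, map_one _, ?_⟩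
      rw [Matrix.one_mul, Matrix.mul_one]
      apply Matrix.ext
      intro i j
      fin_cases i <;> fin_cases j
      · exact h4
      · exact hq
      · exact hr
      · exact h5
    · refine ⟨!![x.val 0 1, 0; 0, ((m : ℤ) : Qf a b ℤ)], ?_, eU ((m : ℤ) : Qf a b ℤ), Yunp_eU m, ?_⟩
      · rw [Matrix.det_fin_two_of, mul_zero, sub_zero]
        exact mul_ne_zero hq hm'
      · apply Matrix.ext
        intro i j
        fin_cases i <;> fin_cases j
        · simp [Matrix.mul_apply, Fin.sum_univ_two, eU, AB.mx, h4]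
        · simp [Matrix.mul_apply, Fin.sum_univ_two, eU, AB.mx]
        · simp [Matrix.mul_apply, Fin.sum_univ_two, eU, AB.mx, hr]
        · simp [Matrix.mul_apply, Fin.sum_univ_two, eU, AB.mx, h5]
  · refine ⟨!![x.val 0 0 - 1, ((m : ℤ) : Qf a b ℤ); x.val 1 0, 0], ?_, eU ((m : ℤ) : Qf a b ℤ),
      Yunp_eU m, ?_⟩
    · rw [Matrix.det_fin_two_of, mul_zero, zero_sub, neg_ne_zero]
      exact mul_ne_zero hm' hr
    · apply Matrix.ext
      intro i j
      fin_cases i <;> fin_cases j
      · simp only [Fin.zero_eta, Fin.isValue, Matrix.mul_apply, Fin.sum_univ_two, eU, AB.mx,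
          Matrix.of_apply, Matrix.cons_val', Matrix.cons_val_zero, Matrix.cons_val_fin_one,
          Matrix.cons_val_one]
        linear_combination x.val 0 0 * h1 - h2
      · simp only [Fin.zero_eta, Fin.isValue, Matrix.mul_apply, Fin.sum_univ_two, eU, AB.mx,
          Matrix.of_apply, Matrix.cons_val', Matrix.cons_val_zero, Matrix.cons_val_fin_one,
          Matrix.cons_val_one, Fin.mk_one]
        ring
      · simp only [Fin.zero_eta, Fin.isValue, Matrix.mul_apply, Fin.sum_univ_two, eU, AB.mx,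
          Matrix.of_apply, Matrix.cons_val', Matrix.cons_val_zero, Matrix.cons_val_fin_one,
          Matrix.cons_val_one, Fin.mk_one]
        linear_combination x.val 1 0 * h1
      · simp only [Fin.zero_eta, Fin.isValue, Matrix.mul_apply, Fin.sum_univ_two, eU, AB.mx,
          Matrix.of_apply, Matrix.cons_val', Matrix.cons_val_zero, Matrix.cons_val_fin_one,
          Matrix.cons_val_one, Fin.mk_one]
        ring

end

end Pool.Agent.F8.CG
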