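import Pool.Agent.Lib.MP_305fdd_al.F8.CG.AllB
import Pool.Agent.Lib.MP_305fdd_al.F8.CG.P_Yuni
import Pool.Agent.Lib.MP_305fdd_al.F8.CG.P_Yunp
import Pool.Agent.Lib.MP_305fdd_al.F8.CG.P_Wsk
import Pool.Agent.Lib.MP_305fdd_al.F8.CG.P_Wprim
import Pool.Agent.Lib.MP_305fdd_al.F8.CG.P_Wloc
import Pool.Agent.Lib.MP_305fdd_al.F8.CG.P_Wsq
import Pool.Agent.Lib.MP_305fdd_al.F8.CG.P_Wcen
import Pool.Agent.Lib.MP_305fdd_al.F8.CG.P_Wker
import Pool.Agent.Lib.MP_305fdd_al.F8.CG.P_Wsub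
import Pool.Agent.Lib.MP_305fdd_al.F8.CG.P_Wtor
import Pool.Agent.Lib.MP_305fdd_al.F8.CG.MainW2
import Pool.Agent.Lib.MP_305fdd_al.F8.BG.MainG

/-!
# MP_305fdd_al, congruence subgroups: all the blocks
-/

set_option autoImplicit false

namespace Pool.Agent.F8.CG

open Pool.Agent.F8.BG Pool.Agent.MP_305fdd_al Pool.Agent.Lib.MP_305fdd_al Pool.Agent.F8
open scoped QuadraticAlgebra

/-- block W -/
theorem blkW : BlkW where
  ar := m_Ear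
  sk := p_Wsk
  prim := p_Wprim
  loc := p_Wloc
  sq := p_Wsq
  cen := p_Wcen
  ker := p_Wker p_Wtor
  sub := p_Wsub

end Pool.Agent.F8.CG
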