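import Pool.Agent.Lib.MP_305fdd_al.F8.CG.DefsC
import Pool.Agent.Lib.MP_305fdd_al.F8.PIC.Stm
import Pool.Agent.Lib.MP_305fdd_al.Defs

/-!
# MP_305fdd_al, congruence subgroups: block C, `ρ(Λ)` is a congruence subgroup and `ρ` is injective

Let `D` be a congruence subgroup of `SL₂(ℤ[w])`, `Γ(m₀) ≤ D`, `Φ : NatBij D Λ` and `ρ : Λ → SL₂(ℤ[w])` locally conjugate to the inclusion (`RhoG D.subtype Φ ρ`), with an image of finite index.
`C_con`: the image contains a principal congruence subgroup; `C_cl`: it contains `Γ(m₀)`; `C_inj`: `ρ` is injective; `C_iso`: `Λ ≅ D` if `D` satisfies `HZ`.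
-/

set_option autoImplicit false

namespace Pool.Agent.F8.CG

open Pool.Agent.F8.BG Pool.Agent.MP_305fdd_al Pool.Agent.Lib.MP_305fdd_al Pool.Agent.F8
open scoped QuadraticAlgebra

noncomputable section

/-- [CG un] a unit which is one modulo `m ≥ 3` is one.

Proof. The norm `N z = z.re² + b z.re z.im - a z.im²` is multiplicative (`N z = z * cjq z`), and `4 N z = (2 z.re + b z.im)² - (b² + 4 a) z.im²`, so `N z ≥ 0` and `N z = 0` only for `z = 0`. `N x N y = 1`, so `N x = 1`. `x = 1 + m z`; `1 = N x = 1 + m t + m² N z`, `t = 2 z.re + b z.im`, so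
`t = - m N z`, and `t² ≤ 4 N z`; if `N z ≥ 1` then `m² (N z)² ≤ 4 N z`, `m² ≤ 4`, contradiction. So `z = 0`. -/
def C_un : Prop := ∀ a b : ℤ, b ^ 2 + 4 * a < 0 → ∀ m : ℕ, 3 ≤ m → ∀ x y : Qf a b ℤ, x * y = 1 →
  (m : ℤ) ∣ x.re - 1 → (m : ℤ) ∣ x.im → x = 1

/-- [CG srd] the reduction is surjective.

Proof. `S = Qf a b (ZMod m)` is a finite commutative ring, `Qfm (Int.castRingHom (ZMod m))` is onto. Let `[[a, b], [c, d]]` be in `SL₂(S)`. There is `t ∈ S` such that `u = a + t c` is a unit: `S` has finitely many maximal ideals `M_i`; by the Chinese remainder theorem there is `t` with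
`t ∈ M_i` if `a ∉ M_i`, and `t - 1 ∈ M_i` if `a ∈ M_i` (then `c ∉ M_i`, as `a d - b c = 1`), and `a + t c` is in no `M_i`. Multiplication with `[[1, t], [0, 1]]` from the left gives a matrix with the upper left entry `u`, which is a product `[[1, 0], [x, 1]] * diag(u, u⁻¹) * [[1, y], [0, 1]]`, and
`diag(u, u⁻¹)` is a product of matrices `[[1, *], [0, 1]]`, `[[1, 0], [*, 1]]`: `w(u) w(-1)` with `w(u) = [[1, u], [0, 1]] [[1, 0], [-u⁻¹, 1]] [[1, u], [0, 1]]`. The elementary matrices are in the image. -/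
def C_srd : Prop := ∀ (a b : ℤ) (m : ℕ) [NeZero m], Function.Surjective (rdq a b m)

/-- [CG hl1] a cocycle for permutations.

As `PIC/P_hl1.lean` (docstring of `PIC.S_hl1`), with `GR α`, `iR α c`, `iR α g * tR α` instead of `GA α`, `iA α cc`, `tA α`, and the hypothesis `HA α c g` (`F8/BG/Five/Data.lean`) instead of `S_ha`. -/
def C_hl1 : Prop := ∀ (ι : Type) (α : MulAut (FreeGroup ι)) (c g : FreeGroup ι), HA α c g →
  ∀ (X Y : Type) [Fintype X] [Fintype Y]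
  [DecidableEq Y] [MulAction (GR α) X] [MulAction (GR α) Y] (π : X → Y),
  (∀ (g : GR α) (x : X), π (g • x) = g • π x) → ∀ (p : ℕ) [Fact p.Prime], p ≠ 2 →
  ∀ x₁ x₂ : X, x₁ ≠ x₂ → π x₁ = π x₂ → (∃ g : GR α, g • x₁ = x₂) →
  (∀ q ∈ Subgroup.closure {iR α c, iR α g * tR α},
    q • π x₁ = π x₁ → ∀ x, π x = π x₁ → q • x = x) →
  ∃ z : GR α → X → ZMod p, (∀ g h x, z (g * h) x = z g x + z h (g⁻¹ • x)) ∧
    (∀ g y, ∑ x ∈ Finset.univ.filter (fun x => π x = y), z g x = 0) ∧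
    ¬ ∃ f : X → ZMod p, (∀ y, ∑ x ∈ Finset.univ.filter (fun x => π x = y), f x = 0) ∧
      ∀ g x, z g x = f x - f (g⁻¹ • x)

/-- [CG con] the image contains a principal congruence subgroup. (Uses `C_un`, `C_hl1`, `PIC.S_hl2`.)

As `BG/P_con.lean` (adapt it). Let `H = ρ.range`, `k = (index of H)!`, `M' = 3 * M * m₀ * k`, `N = Gam a b M'`, contained in `G₀` and in `D`. Claim: `N ≤ H`. Otherwise let `n₀ ∈ N`, `n₀ ∉ H`, and proceed as in `BG/P_con.lean` (there `n₀` is constructed from an element which is not in `H`), with `C_hl1` instead of `S_hl1`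
(the prime is greater than `2`; `x₂ = η n₀ • x₁`). `C_un` instead of the hypothesis `hu` on the units: an upper triangular matrix in `N` has the diagonal entries `1`. Comparison: `π = (rdq a b M').comp D.subtype`, `L = (Φ.toFun _ π).ker`; `l ∈ L` iff `ρ l ∈ N` (by `hρ` at the modulus `M'`:
`C * 1 * E = 1`, and `C * X * E = 1` gives `X = E * C = 1`). `natBij_ker` gives `NatBij π.ker L`, and `π.ker ≅ N` (`N ≤ D`). -/
def C_con : Prop := ∀ (a b : ℤ), b ^ 2 + 4 * a < 0 → ∀ (ι : Type) [Finite ι]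
  (α : MulAut (FreeGroup ι)) (M : ℕ) (c g : FreeGroup ι) (G₀ : Subgroup (GQ a b))
  (η : G₀ →* GR α), EtaQ α M c g G₀ η → HA α c g →
  ∀ (D : Subgroup (GQ a b)) (m₀ : ℕ), m₀ ≠ 0 → Gam a b m₀ ≤ D →
  ∀ (Λ : Type) [Group Λ] [Group.FG Λ] (Φ : NatBij D Λ) (ρ : Λ →* GQ a b),
  RhoG D.subtype Φ ρ → ρ.range.FiniteIndex → ∃ M' : ℕ, M' ≠ 0 ∧ Gam a b M' ≤ ρ.range

/-- [CG cl] the image contains `Γ(m₀)`. (Uses `C_srd`.)

Proof. Replace `M'` by `M' * m₀` (`Gam a b (M' * m₀) ≤ Gam a b M'`), so `m₀ ∣ M'`. Let `x ∈ Gam a b m₀`; `C`, `E` from `hρ` at the modulus `M'`. The matrix `E * (rdq M' x) * C` has determinant one (`det E * det C = 1`), so by `C_srd` there is `y : GQ a b` whose reduction modulo `M'` is this matrix. Modulo `m₀`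
(apply the ring homomorphism `Qf a b (ZMod M') → Qf a b (ZMod m₀)`, `ZMod.castHom`, to the entries) it is `E * 1 * C = 1`, so `y ∈ Gam a b m₀ ≤ D`. By `NatBij.range_eq` for `(rdq a b M').comp D.subtype` there is `l` such that `Φ(..) l = rdq M' y`. So `rdq M' (ρ l) = C * (rdq M' y) * E = rdq M' x`, so
`(ρ l)⁻¹ * x ∈ Gam a b M' ≤ ρ.range`. -/
def C_cl : Prop := ∀ (a b : ℤ) (D : Subgroup (GQ a b)) (m₀ : ℕ), m₀ ≠ 0 → Gam a b m₀ ≤ D →
  ∀ (Λ : Type) [Group Λ] (Φ : NatBij D Λ) (ρ : Λ →* GQ a b), RhoG D.subtype Φ ρ →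
  (∃ M' : ℕ, M' ≠ 0 ∧ Gam a b M' ≤ ρ.range) → Gam a b m₀ ≤ ρ.range

/-- [CG inj] `ρ` is injective.

Proof. `π = (rdq a b m₀).comp D.subtype`, `L = (Φ.toFun _ π).ker`; `l ∈ L` iff `ρ l ∈ Gam a b m₀` (see `C_con`), so `ρ.ker ≤ L`. `natBij_ker` gives `NatBij π.ker L`, and `π.ker ≅ Gam a b m₀`. `ρ` induces a surjective homomorphism `f : L → Gam a b m₀`. `L` is finitely generated (finite index), so for every finite group `Q` the
set `L →* Q` is finite, and it has as many elements as `Gam a b m₀ →* Q`. `θ ↦ θ ∘ f` is an injective map from `Gam a b m₀ →* Q` to `L →* Q`, so it is bijective. So every homomorphism from `L` to a finite group is trivial on the kernel of `f`. `L` is residually finite (a subgroup of `Λ`), so `f` is injective. -/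
def C_inj : Prop := ∀ (a b : ℤ) (D : Subgroup (GQ a b)) (m₀ : ℕ), m₀ ≠ 0 → Gam a b m₀ ≤ D →
  ∀ (Λ : Type) [Group Λ] [Group.FG Λ], Group.ResiduallyFinite Λ →
  ∀ (Φ : NatBij D Λ) (ρ : Λ →* GQ a b), RhoG D.subtype Φ ρ → Gam a b m₀ ≤ ρ.range →
  Function.Injective ρ

/-- [CG img] the image is a conjugate of `D`.

Proof. Let `C`, `E` be from `hρ` at the modulus `m₀`, `γ` from `HZ`. We show `ρ.range = γ D γ⁻¹`; then `Λ ≅ ρ.range ≅ D` (`ρ` is injective). For `z : GQ a b` the condition `z ∈ ρ.range` depends only on `rdq m₀ z`, because `Gam a b m₀ ≤ ρ.range`, and the same is true for `γ D γ⁻¹`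
(`γ (Gam a b m₀) γ⁻¹ = Gam a b m₀ ≤ γ D γ⁻¹`). The set of the `rdq m₀ (ρ l)`, `l ∈ Λ`, is `{C * X * E | X = Φ(..) l}`, and this is `{C * (rdq m₀ x) * E | x ∈ D}` by `NatBij.range_eq` for `(rdq a b m₀).comp D.subtype`, and this is the set of the `rdq m₀ (γ * y * γ⁻¹)`, `y ∈ D`, by `HZ`. -/
def C_img : Prop := ∀ (a b : ℤ) (D : Subgroup (GQ a b)) (m₀ : ℕ), m₀ ≠ 0 → Gam a b m₀ ≤ D →
  HZ D m₀ → ∀ (Λ : Type) [Group Λ] (Φ : NatBij D Λ) (ρ : Λ →* GQ a b), RhoG D.subtype Φ ρ →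
  Gam a b m₀ ≤ ρ.range → Function.Injective ρ → Nonempty (Λ ≃* D)

/-- [CG hz] a criterion for `HZ`. (Uses `C_srd`.)

Proof. Let `e = det C`, a unit (`det C * det E = 1`), `T = diag(e, 1)`. `C = S * T` with `S = C * T⁻¹` of determinant one, so `S = rdq m γ` for some `γ : GQ a b` (`C_srd`). For `x ∈ D`: `C * (rdq m x) * E = S * (T * (rdq m x) * T⁻¹) * S⁻¹` and `T * (rdq m x) * T⁻¹ = rdq m y` with `y ∈ D` by the hypothesis,
so it is `rdq m (γ * y * γ⁻¹)`. For the second claim use the hypothesis for `e⁻¹`. -/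
def C_hz : Prop := ∀ (a b : ℤ) (D : Subgroup (GQ a b)) (m : ℕ) [NeZero m],
  (∀ (e : (Qf a b (ZMod m))ˣ), ∀ x ∈ D, ∃ y ∈ D, (rdq a b m y).val =
    !![(rdq a b m x).val 0 0, e.val * (rdq a b m x).val 0 1;
      (e⁻¹).val * (rdq a b m x).val 1 0, (rdq a b m x).val 1 1]) → HZ D m

end

end Pool.Agent.F8.CG
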