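import Pool.Agent.Lib.MP_305fdd_al.F8.CG.DefsB
import Pool.Agent.Lib.MP_305fdd_al.F8.Defs

/-!
# MP_305fdd_al, congruence subgroups: properties of the first Betti number
-/

set_option autoImplicit false

namespace Pool.Agent.F8.CG

open Pool.Agent.F8.BG Pool.Agent.Lib.MP_305fdd_al Pool.Agent.F8

noncomputable section

/-- [CG b1n] the first Betti number is determined by the finite quotients.

Proof. The abelianisation of `G` is `ℤ^r × T`, `T` finite (structure theorem for finitely generated abelian groups); `Additive G →+ ℚ` has dimension `r`, and for a prime `p` which does not divide the order of `T` the number of the homomorphisms `G → ZMod p` (`Multiplicative`) is `p^r`. Take a prime which is good for both groups: `NatBij.equiv` gives `p^r = p^r'`. -/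
def N_b1n : Prop := ∀ (G H : Type) [Group G] [Group H] [Group.FG G] [Group.FG H],
  Nonempty (NatBij G H) → b1 G = b1 H

/-- [CG b1s] the first Betti number of a quotient.

Proof. `Additive G →+ ℚ` is finite dimensional (`G` is finitely generated), and composition with `f` is an injective linear map from `Additive H →+ ℚ`. -/
def N_b1s : Prop := ∀ (G H : Type) [Group G] [Group H] [Group.FG G] (f : G →* H),
  Function.Surjective f → b1 H ≤ b1 G

end

end Pool.Agent.F8.CG
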