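import Pool.Agent.Lib.MP_305fdd_al.F8.CG.StmC
import Pool.Agent.Lib.MP_305fdd_al.F8.CG.StmN

/-!
# MP_305fdd_al, congruence subgroups: block F, the image of `ρ` has finite index

`F_fin`: if `ρ : Λ → SL₂(ℤ[w])` is locally conjugate to the inclusion of a congruence subgroup `D` (`RhoG D.subtype Φ ρ`), then the image of `ρ` has finite index. The proof
applies the finite index criterion `B_fi` to the group `η(ρ(Λ) ∩ Γ(L))` and the tower `η(Γ(2^j L))`.
-/

set_option autoImplicit false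

namespace Pool.Agent.F8.CG

open Pool.Agent.F8.BG Pool.Agent.MP_305fdd_al Pool.Agent.Lib.MP_305fdd_al Pool.Agent.F8
open scoped QuadraticAlgebra

noncomputable section

/-- [CG npr] commutators give elements which are not periodic. (Uses `BG.S_par`.)

Proof. As in `BG/P_npr.lean`: `Z = X Y X⁻¹ Y⁻¹`, `nR (η Z) = 1`, `η Z = iR p` (`GR_ker`). Suppose `(α ^ j) p = g' p g'⁻¹`, `j ≥ 1`. Then `T = iR g'⁻¹ * tR ^ j` commutes with `iR p` (`tR_pow_conj`). `T ^ k = η Y'` for some `k ≥ 1` (`EtaQ.fin`). The commutator of `Y'` and `Z` is in the kernel of `η`, so it is `± 1`, and `Y' ^ 2` commutes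
with `Z`. `S_par` for `Z`, `Y' ^ 2`: `Z ^ m' * Y' ^ (2 n') = 1`. Apply `nR ∘ η`: `2 n' k j = 0`, so `n' = 0`, `m' ≠ 0`, `p ^ m' = 1`, `p = 1`, `Z = ± 1` (`EtaQ.ker`), contradiction to the trace. -/
def F_npr : Prop := ∀ (a b : ℤ), b ^ 2 + 4 * a < 0 → ∀ (ι : Type) (α : MulAut (FreeGroup ι)) (M : ℕ)
  (c g : FreeGroup ι) (G₀ : Subgroup (GQ a b)) (η : G₀ →* GR α), EtaQ α M c g G₀ η →
  ∀ X Y : G₀, tr (X * Y * X⁻¹ * Y⁻¹ : G₀).val ≠ 2 → tr (X * Y * X⁻¹ * Y⁻¹ : G₀).val ≠ -2 →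
  ∃ p, iR α p = η (X * Y * X⁻¹ * Y⁻¹) ∧ NPer α p

/-- [CG emb] `η` is injective on `Γ(L)`.

Proof. `L ≥ 3`, so `-1` is not in `Gam a b L` (`2` is not divisible by `L`); `EtaQ.ker`, `EtaQ.lev` (`Gam a b L ≤ Gam a b M ≤ G₀`, because `M ∣ L`). -/
def F_emb : Prop := ∀ (a b : ℤ) (ι : Type) (α : MulAut (FreeGroup ι)) (M : ℕ)
  (c g : FreeGroup ι) (G₀ : Subgroup (GQ a b)) (η : G₀ →* GR α), EtaQ α M c g G₀ η →
  ∀ L : ℕ, 3 ≤ L → M ∣ L → Gam a b L ≤ G₀ ∧ -1 ∉ Gam a b L ∧
  ∀ x y : G₀, x.val ∈ Gam a b L → y.val ∈ Gam a b L → η x = η y → x = y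

/-- [CG two] the index of `Γ(2^j L)` in a subgroup of `Γ(L)`, `L` even, is a power of two.

Proof. Induction on `j`: it is enough to show that the index of `K ∩ Γ(2 L')` in `K ∩ Γ(L')` is a power of two for `L' = 2^j L` (even, not zero). The quotient is a finite group (`Gam` has finite index) in which all squares are trivial: `x ∈ Γ(L')` has the entries of `1 + L' X`, `x² = 1 + 2 L' X + L'² X²`, and `L'²` is divisible by `2 L'`.
A finite group in which all squares are trivial has `2^n` elements (`IsPGroup`). (`Subgroup.relIndex_mul_relIndex`.) -/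
def F_two : Prop := ∀ (a b : ℤ) (L : ℕ), L ≠ 0 → 2 ∣ L → ∀ K : Subgroup (GQ a b), K ≤ Gam a b L →
  ∀ j : ℕ, ∃ n : ℕ, (Gam a b (2 ^ j * L)).relIndex K = 2 ^ n

/-- [CG tow] the tower. (Uses `F_emb`.)

Proof. `imE η (Gam a b (2 ^ j * L))`: of finite index, because `Gam` has finite index in `GQ`, so in `G₀`, and the range of `η` has finite index (`Subgroup.index_map`; see `BG.con_map_index` in `BG/P_con.lean`). Antitone: `Gam a b (m m') ≤ Gam a b m`. Normal: the `Gam` are normal. Trivial intersection: if `g ∈ GR α` is in all these subgroups,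
`g = η x₀`, `x₀ ∈ Γ(L)`, then by injectivity (`F_emb`) `x₀` is in all `Γ(2^j L)`, so its entries are congruent to those of `1` modulo `2^j` for all `j`, and `x₀ = 1`. -/
def F_tow : Prop := ∀ (a b : ℤ) (ι : Type) (α : MulAut (FreeGroup ι)) (M : ℕ)
  (c g : FreeGroup ι) (G₀ : Subgroup (GQ a b)) (η : G₀ →* GR α), EtaQ α M c g G₀ η →
  ∀ L : ℕ, 3 ≤ L → M ∣ L → Tow (imE η (Gam a b L)) fun j => imE η (Gam a b (2 ^ j * L))

/-- [CG crd] the number of residue classes.

Proof. Let `m = L * k`, `R = ρ.range ⊓ Gam a b L`. `(Gam a b m).relIndex R` is the number of the elements `rdq m x`, `x ∈ R` (`Gam a b m` is the kernel of `rdq m`; `Subgroup.relIndex_ker` or `Subgroup.index_ker` for the restriction), and `(Gam a b m).relIndex (Gam a b L)` the number of the `rdq m x`, `x ∈ Gam a b L ≤ D`. By `hρ` at the modulus `m`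
and `NatBij.range_eq` the set of the `rdq m (ρ l)` is `{C * (rdq m x) * E | x ∈ D}`; those which are one modulo `L` (`Qf a b (ZMod m) → Qf a b (ZMod L)` applied to the entries) correspond to the `rdq m x` which are one modulo `L`, that is `x ∈ Gam a b L`. So the two finite sets have the same number of elements. -/
def F_crd : Prop := ∀ (a b : ℤ) (D : Subgroup (GQ a b)) (L : ℕ), L ≠ 0 → Gam a b L ≤ D →
  ∀ (Λ : Type) [Group Λ] (Φ : NatBij D Λ) (ρ : Λ →* GQ a b), RhoG D.subtype Φ ρ →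
  ∀ k : ℕ, k ≠ 0 → (Gam a b (L * k)).relIndex (ρ.range ⊓ Gam a b L) =
    (Gam a b (L * k)).relIndex (Gam a b L)

/-- [CG cmp] comparison of the first Betti numbers. (Uses `N_b1n`, `N_b1s`, `F_emb`.)

Proof. `π = (rdq a b m).comp D.subtype`, `K = (Φ.toFun _ π).ker`; `l ∈ K` iff `ρ l ∈ Gam a b m` (by `hρ`: `C * 1 * E = 1`, and if `C * X * E = 1` then `X = 1`). `natBij_ker` gives `NatBij π.ker K`, `π.ker ≅ Gam a b m` (`Gam a b m ≤ D`), finitely generated groups (finite index in `GQ a b`, which is finitely generated because it is commensurable with `GR α`: use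
the hypothesis `hfg`; `K` has finite index in `Λ`), so `b1 (Gam a b m) = b1 K`. `ρ` maps `K` onto `ρ.range ⊓ Gam a b m`, so `b1 (ρ.range ⊓ Gam a b m) ≤ b1 K`. By `F_emb` the groups in the claim are isomorphic to `ρ.range ⊓ Gam a b m` and to `Gam a b m`, via `η`. (`b1` of isomorphic groups: `N_b1s` twice.) -/
def F_cmp : Prop := ∀ (a b : ℤ) (ι : Type) [Finite ι] (α : MulAut (FreeGroup ι)) (M : ℕ)
  (c g : FreeGroup ι) (G₀ : Subgroup (GQ a b)) (η : G₀ →* GR α), EtaQ α M c g G₀ η →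
  ∀ (D : Subgroup (GQ a b)) (m : ℕ), 3 ≤ m → M ∣ m → Gam a b m ≤ D → (Gam a b m).FG →
  ∀ (Λ : Type) [Group Λ] [Group.FG Λ] (Φ : NatBij D Λ) (ρ : Λ →* GQ a b), RhoG D.subtype Φ ρ →
  b1 (imE η (ρ.range ⊓ Gam a b m)) ≤ b1 (imE η (Gam a b m))

/-- [CG fin] MAIN RESULT of block F. (Uses `B_fi`, `F_npr`, `F_emb`, `F_two`, `F_tow`, `F_crd`, `F_cmp`.)

Proof. `L = 6 * M * m₀` (so `L ≥ 3` is even, `M ∣ L`, `m₀ ∣ L`, `Gam a b L ≤ D`), `Γ₁ = imE η (Gam a b L)`, `D_j = imE η (Gam a b (2^j L))`, `R = ρ.range ⊓ Gam a b L`, `H = imE η R`, `q = 2`. Apply `B_fi`. `F_tow` gives `Tow`. `H` is finitely generated: `ρ.range` is finitely generated and `Gam a b L` has finite index. `imE η` restricted to the subgroups of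
`Gam a b L` is injective and compatible with intersections and indices (`F_emb`): `H ⊓ D_j = imE η (R ⊓ Γ(2^j L))`, `D_j.relIndex H = (Gam a b (2^j L)).relIndex R` (a power of two by `F_two`), `= (Gam a b (2^j L)).relIndex (Gam a b L)` (`F_crd`) `= D_j.relIndex Γ₁`, so `D_j.index = (index of Γ₁) * D_j.relIndex H` and
`C = Γ₁.index`. `F_cmp` for `m = 2^j L`, as `H ⊓ D_j = imE η (ρ.range ⊓ Gam a b (2^j L))`; `Gam a b m` is finitely generated: it is isomorphic to `D_j`, a subgroup of finite index of the finitely generated group `GR α` (`BG.con_fg`). The commutator: let `x₀ = eU L`, `y₀ = eV L` in `Gam a b L ≤ D`, the trace of the commutator is `2 + L^4` (`eUV_tr`);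
modulus `m = L * (L^4 + 5)`: there are `l₁`, `l₂` with `Φ(..) l₁ = rdq m x₀`, `Φ(..) l₂ = rdq m y₀` (`NatBij.range_eq`), so `rdq m (ρ l₁) = C * (rdq m x₀) * E` etc.; modulo `L` this is one, so `ρ l₁, ρ l₂ ∈ R`, and the trace of the commutator of `ρ l₁`, `ρ l₂` is congruent to `2 + L^4` modulo `m`, so it is not `2` and not `-2` (`BG.com_of_lev` has a similar computation). By
`F_npr` there is an element of `H ∩ F` which is not periodic, and `H` is not abelian (the commutator is not `1`, `p ≠ 1`: otherwise `p` would be periodic). So `H` has finite index in `GR α`, so in `Γ₁`, so `R` has finite index in `Gam a b L` (injectivity), and `ρ.range` has finite index. -/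
def F_fin : Prop := ∀ (a b : ℤ) (ι : Type) [Finite ι] (α : MulAut (FreeGroup ι)) (N : ℕ)
  (w : ι → List ι) (M : ℕ) (c g : FreeGroup ι) (G₀ : Subgroup (GQ a b)) (η : G₀ →* GR α),
  BG.Dat α N w M c g G₀ η → ∀ (D : Subgroup (GQ a b)) (m₀ : ℕ), m₀ ≠ 0 → Gam a b m₀ ≤ D →
  ∀ (Λ : Type) [Group Λ] [Group.FG Λ] (Φ : NatBij D Λ) (ρ : Λ →* GQ a b), RhoG D.subtype Φ ρ →
  ρ.range.FiniteIndex

end

end Pool.Agent.F8.CG
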