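import Pool.Agent.Lib.MP_305fdd_al.F8.NG.T.DefsA

/-!
# MP_305fdd_al, congruence subgroups: definitions for the transfer (block T): tests

`Q3 m R` is the group of the affine transformations `x ↦ p x q⁻¹ + v` of the `2 × m`-matrices. A test for `G` is a subgroup `L` of finite index with a
homomorphism `L → GL_m(B)` and a number `d`; the representation `ρ` passes the test (`HT`) if its restriction to the commutator subgroup of `L` is irreducible and there are `d` linearly independent
homomorphisms `L → Q3 m` with the given linear parts.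
-/

set_option autoImplicit false

namespace Pool.Agent.F8.CG

open Pool.Agent.MP_305fdd_al Pool.Agent.Lib.MP_305fdd_al Pool.Agent.F2X Pool.Agent.F8
  Pool.Agent.F8.NG.T

noncomputable section

/-! ### The affine groups -/

/-- `(q, p, v)`: the affine transformation `x ↦ p x q⁻¹ + v` of the matrices with two rows and `m` columns -/
@[ext]
structure Q3 (m : ℕ) (R : Type) [CommRing R] where
  /-- the matrix on the right side -/
  q : GL (Fin m) R
  /-- the matrix on the left side -/
  p : SL2 R
  /-- the translation -/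
  v : Matrix (Fin 2) (Fin m) R

/-- base change -/
abbrev GLm {m : ℕ} {R S : Type} [CommRing R] [CommRing S] (f : R →+* S) :
    GL (Fin m) R →* GL (Fin m) S :=
  Matrix.GeneralLinearGroup.map f

namespace Q3

variable {m : ℕ} {R S : Type} [CommRing R] [CommRing S]

instance : Mul (Q3 m R) :=
  ⟨fun x y => ⟨x.q * y.q, x.p * y.p, x.v + x.p.val * y.v * (x.q⁻¹).val⟩⟩
instance : One (Q3 m R) := ⟨⟨1, 1, 0⟩⟩
instance : Inv (Q3 m R) := ⟨fun x => ⟨x.q⁻¹, x.p⁻¹, -((x.p⁻¹).val * x.v * x.q.val)⟩⟩

@[simp] theorem mul_q (x y : Q3 m R) : (x * y).q = x.q * y.q := rfl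
@[simp] theorem mul_p (x y : Q3 m R) : (x * y).p = x.p * y.p := rfl
@[simp] theorem mul_v (x y : Q3 m R) : (x * y).v = x.v + x.p.val * y.v * (x.q⁻¹).val := rfl
@[simp] theorem one_q : (1 : Q3 m R).q = 1 := rfl
@[simp] theorem one_p : (1 : Q3 m R).p = 1 := rfl
@[simp] theorem one_v : (1 : Q3 m R).v = 0 := rfl
@[simp] theorem inv_q (x : Q3 m R) : (x⁻¹).q = x.q⁻¹ := rfl
@[simp] theorem inv_p (x : Q3 m R) : (x⁻¹).p = x.p⁻¹ := rfl
@[simp] theorem inv_v (x : Q3 m R) : (x⁻¹).v = -((x.p⁻¹).val * x.v * x.q.val) := rfl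

instance : Group (Q3 m R) := Group.ofLeftAxioms
  (by
    intro x y z
    apply Q3.ext
    · exact mul_assoc _ _ _
    · exact mul_assoc _ _ _
    · simp only [mul_q, mul_p, mul_v, Matrix.SpecialLinearGroup.coe_mul, mul_inv_rev,
        Units.val_mul, Matrix.mul_add, Matrix.add_mul, Matrix.mul_assoc, add_assoc])
  (by
    intro x
    apply Q3.ext
    · exact one_mul _
    · exact one_mul _
    · simp)
  (by
    intro x
    apply Q3.ext
    · exact inv_mul_cancel _
    · exact inv_mul_cancel _
    · simp)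

/-- the matrix on the right side -/
def qH : Q3 m R →* GL (Fin m) R := ⟨⟨Q3.q, rfl⟩, fun _ _ => rfl⟩
/-- the matrix on the left side -/
def pH : Q3 m R →* SL2 R := ⟨⟨Q3.p, rfl⟩, fun _ _ => rfl⟩

theorem qH_apply (x : Q3 m R) : qH x = x.q := rfl
theorem pH_apply (x : Q3 m R) : pH x = x.p := rfl

instance finMat [Finite R] : Finite (Matrix (Fin 2) (Fin m) R) :=
  inferInstanceAs (Finite (Fin 2 → Fin m → R))

instance finGL {n : ℕ} [Finite R] : Finite (GL (Fin n) R) := by
  have : Finite (Matrix (Fin n) (Fin n) R) := inferInstanceAs (Finite (Fin n → Fin n → R))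
  exact Finite.of_injective (fun x : GL (Fin n) R => x.val) Units.val_injective

instance [Finite R] : Finite (Q3 m R) := by
  have h : Function.Injective (fun x : Q3 m R => (x.q, x.p, x.v)) := by
    intro x y h
    simp only [Prod.mk.injEq] at h
    exact Q3.ext h.1 h.2.1 h.2.2
  exact Finite.of_injective _ h

/-- base change -/
def map (f : R →+* S) : Q3 m R →* Q3 m S where
  toFun x := ⟨GLm f x.q, SLm f x.p, x.v.map f⟩
  map_one' := by
    apply Q3.ext
    · simp
    · simp
    · ext i j
      simp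
  map_mul' x y := by
    apply Q3.ext
    · simp
    · simp
    · have h1 : (GLm f x.q)⁻¹ = GLm f x.q⁻¹ := (map_inv _ _).symm
      show (x.v + x.p.val * y.v * (x.q⁻¹).val).map f =
        x.v.map f + (SLm f x.p).val * y.v.map f * ((GLm f x.q)⁻¹).val
      rw [h1, Matrix.map_add f (map_add f), Matrix.map_mul, Matrix.map_mul]
      rfl

@[simp] theorem map_q (f : R →+* S) (x : Q3 m R) : (map f x).q = GLm f x.q := rfl
@[simp] theorem map_p (f : R →+* S) (x : Q3 m R) : (map f x).p = SLm f x.p := rfl
@[simp] theorem map_v (f : R →+* S) (x : Q3 m R) : (map f x).v = x.v.map f := rfl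

theorem map_map' {T : Type} [CommRing T] (f : R →+* S) (g : S →+* T) (x : Q3 m R) :
    map g (map f x) = map (g.comp f) x := by
  apply Q3.ext
  · apply Units.ext
    ext i j
    rfl
  · apply Subtype.ext
    ext i j
    rfl
  · ext i j
    rfl

end Q3

/-! ### Tests -/

/-- A test: a subgroup `L` of finite index, a homomorphism `A : L → GL_m(B)` and a number `d`. -/
structure Tst (G B : Type) [Group G] [CommRing B] where
  /-- the subgroup -/
  L : Subgroup G
  /-- of finite index -/
  fi : L.FiniteIndex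
  /-- the size -/
  m : ℕ
  /-- the twist -/
  A : L →* GL (Fin m) B
  /-- the number of cocycles -/
  d : ℕ

/-- the determinant of the values of `d` functions at `d` points -/
def dt {X : Type} {m d : ℕ} {R : Type} [CommRing R]
    (f : Fin d → X → Matrix (Fin 2) (Fin m) R) (y : Fin d → X × Fin 2 × Fin m) : R :=
  (Matrix.of fun i l => f i (y l).1 (y l).2.1 (y l).2.2).det

theorem dt_map {X : Type} {m d : ℕ} {R S : Type} [CommRing R] [CommRing S] (g : R →+* S)
    (f : Fin d → X → Matrix (Fin 2) (Fin m) R) (y : Fin d → X × Fin 2 × Fin m) :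
    dt (fun i x => (f i x).map g) y = g (dt f y) := by
  unfold dt
  rw [RingHom.map_det]
  rfl

/-- The representation `ρ` over `R` passes the test `t`, with respect to the homomorphism `j : B → R`. -/
structure HT {G B R : Type} [Group G] [CommRing B] [CommRing R] (t : Tst G B) (j : B →+* R)
    (ρ : G →* SL2 R) : Prop where
  /-- irreducible on the commutator subgroup of `L` -/
  irr : ∃ g ∈ commutator t.L, ∃ h ∈ commutator t.L,
    tr (ρ ((g * h * g⁻¹ * h⁻¹ : t.L) : G)) ≠ 2
  /-- the cocycles -/
  coc : ∃ Θ : Fin t.d → (t.L →* Q3 t.m R),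
    (∀ i, Q3.pH.comp (Θ i) = ρ.comp t.L.subtype ∧ Q3.qH.comp (Θ i) = (GLm j).comp t.A) ∧
    ∃ y : Fin t.d → t.L × Fin 2 × Fin t.m, dt (fun i x => (Θ i x).v) y ≠ 0

/-- The test for `Λ` which corresponds to the test `t` for `G`. -/
structure MT {G Λ B : Type} [Group G] [Group Λ] [CommRing B] (Φ : NatBij G Λ) (t : Tst G B) where
  /-- the subgroup -/
  L' : Subgroup Λ
  /-- of finite index -/
  fi : L'.FiniteIndex
  /-- the twist -/
  A' : L' →* GL (Fin t.m) B
  /-- the natural bijections for the subgroups -/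
  Ψ : NatBij t.L L'
  /-- restriction -/
  res : ∀ (Q : Type) [Group Q] [Finite Q] (f : G →* Q),
    Ψ.toFun Q (f.comp t.L.subtype) = (Φ.toFun Q f).comp L'.subtype
  /-- the twists correspond to each other -/
  tw : ∀ (S : Type) [CommRing S] [Finite S] (π : B →+* S),
    Ψ.toFun (GL (Fin t.m) S) ((GLm π).comp t.A) = (GLm π).comp A'

/-- the corresponding test -/
def MT.tst {G Λ B : Type} [Group G] [Group Λ] [CommRing B] {Φ : NatBij G Λ} {t : Tst G B}
    (M : MT Φ t) : Tst Λ B :=
  ⟨M.L', M.fi, t.m, M.A', t.d⟩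

/-- The hypotheses of the transfer: `ρ₀` passes the tests, and over finite fields of almost all characteristics only representations with the
same character pass the tests. -/
structure TH {G A B : Type} [Group G] [CommRing A] [CommRing B] (ρ₀ : G →* SL2 A) (e : A →+* B)
    {N : ℕ} (t : Fin N → Tst G B) : Prop where
  /-- there is a test -/
  pos : 0 < N
  /-- existence -/
  ex : ∀ n, HT (t n) (RingHom.id B) ((SLm e).comp ρ₀)
  /-- uniqueness -/
  un : ∃ M : ℕ, M ≠ 0 ∧ ∀ (k : Type) [Field k] [Finite k], (M : k) ≠ 0 →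
    ∀ (j : B →+* k) (ρ : G →* SL2 k), (∀ n, HT (t n) j ρ) →
    ∀ g, tr (ρ g) = j (e (tr (ρ₀ g)))

/-- The output of the transfer: the reductions of `T` are the characters of the matched representations. -/
def Red {G Λ A : Type} [Group G] [Group Λ] [CommRing A] (Φ : NatBij G Λ) (ρ₀ : G →* SL2 A)
    (T : Λ → A) : Prop :=
  ∀ (S : Type) [CommRing S] [Finite S] (h : A →+* S) (l : Λ),
    h (T l) = tr (Φ.toFun _ ((SLm h).comp ρ₀) l)

end

end Pool.Agent.F8.CG
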