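import Pool.Agent.Lib.MP_305fdd_al.F8.CG.StmC
import Pool.Agent.Lib.MP_305fdd_al.F8.CG.DefsT

/-!
# MP_305fdd_al, congruence subgroups: block X, from subgroups of `Γ(M')` to congruence subgroups, and from `SL₂` to `PSL₂`

`Uni a b M'` is the output of the blocks R, A, T for the subgroups of finite index of `Γ(M')`. `X_ext`, `X_gen`: the character of `Λ` is determined (and has values in
`ℤ[w]`) if `D` is generated by subgroups for which this is true. `X_dy`: `Uni` gives this for the subgroups `D ∩ y Γ(M') y⁻¹`, `y ∈ GL₂(ℚ(w))`. `X_psl`: from a group in the genus of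
`D / ± 1` to a group in the genus of `D`. `X_gnI`, `X_gn1`, `X_gn0`: generation of congruence subgroups by unipotent elements and a subgroup of deep level.
-/

set_option autoImplicit false

namespace Pool.Agent.F8.CG

open Pool.Agent.F8.BG Pool.Agent.MP_305fdd_al Pool.Agent.Lib.MP_305fdd_al Pool.Agent.F8
open scoped QuadraticAlgebra

noncomputable section

/-! ### Traces -/

/-- `t` is the trace of `l`: for all homomorphisms `h` from `A` to finite rings, `h t` is the trace of the image of `l` under the representation which corresponds to `h ρ₀`. -/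
def IsT {G Λ A : Type} [Group G] [Group Λ] [CommRing A] (ρ₀ : G →* SL2 A) (Φ : NatBij G Λ)
    (l : Λ) (t : A) : Prop :=
  ∀ (S : Type) [CommRing S] [Finite S] (h : A →+* S),
    h t = tr (Φ.toFun _ ((SLm h).comp ρ₀) l)

/-- The subgroup `E` is good: all groups with the same finite quotients as `E` have a character with values in `A`. -/
def TG {G A : Type} [Group G] [CommRing A] (ρ₀ : G →* SL2 A) (E : Subgroup G) : Prop :=
  ∀ (Λ : Type) [Group Λ] [Group.FG Λ] (Ψ : NatBij E Λ), ∀ l, ∃ t, IsT (ρ₀.comp E.subtype) Ψ l t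

/-- The output of the blocks R, A, T for the subgroups of finite index of `Γ(M')`. -/
def Uni (a b : ℤ) (M' : ℕ) : Prop :=
  ∀ E : Subgroup (GQ a b), E.FiniteIndex → E ≤ Gam a b M' → ∀ σ : E →* GQ a b,
  (∃ y : Matrix (Fin 2) (Fin 2) (Qf a b ℤ), y.det ≠ 0 ∧
    ∀ x : E, (σ x).val * y = y * x.val.val) →
  ∀ (Λ : Type) [Group Λ] [Group.FG Λ] (Ψ : NatBij E Λ), ∃ T : Λ → Qf a b ℤ, Red Ψ σ T

/-- [CG X id4] Cramer's rule for the trace form.

Proof. Let `X` be the `4 × 4`-matrix of the coordinates of the `x i` in the basis `E11, E12, E21, E22`, `S` the Gram matrix of this basis, `ζ` the coordinates of `z`. `G = X * S * Xᵀ`, `t = X * S * ζ`, and `Xᵀ * adj(G) * t = Xᵀ * adj(Xᵀ) * adj(S) * adj(X) * X * S * ζ = det(X)² det(S) ζ = det(G) ζ`. -/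
def X_id4 : Prop := ∀ (R : Type) [CommRing R] (x : Fin 4 → Matrix (Fin 2) (Fin 2) R)
  (z : Matrix (Fin 2) (Fin 2) R),
  (Matrix.of fun i j => (x i * x j).trace).det • z =
    ∑ i, ((Matrix.of fun i j => (x i * x j).trace).adjugate.mulVec
      (fun j => (z * x j).trace)) i • x i

/-- [CG X grm] the Gram determinant.

Proof. `1, X, Y, X Y`. A polynomial identity modulo `det X = 1`, `det Y = 1` (write `X = [[a, b], [c, d]]`, `Y = [[e, f], [g, h]]`; the determinant of the coordinates of `1, X, Y, X Y` is `2 - tr [X, Y]` up to the sign, and the Gram determinant of `E11, E12, E21, E22` is `-1`; see the proof of `X_id4`). -/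
def X_grm : Prop := ∀ (R : Type) [CommRing R] (X Y : SL2 R),
  (Matrix.of fun i j : Fin 4 => ((![1, X.val, Y.val, X.val * Y.val] : Fin 4 →
    Matrix (Fin 2) (Fin 2) R) i * (![1, X.val, Y.val, X.val * Y.val] : Fin 4 →
    Matrix (Fin 2) (Fin 2) R) j).trace).det = -(tr (X * Y * X⁻¹ * Y⁻¹) - 2) ^ 2

/-- [CG X ext] extension of the character. (Uses `X_id4`, `X_grm`.)

Proof. Write `r_h = Φ.toFun _ ((SLm h).comp ρ₀)`, `t(l)` for a trace of `l` (choose). Let `x, y ∈ L₀` be as in the hypothesis, `x_0 = 1, x_1 = x, x_2 = y, x_3 = x y ∈ L₀`, `t_ij` a trace of `x_i x_j` (an element of `L₀ ≤ L j₀` for any `j₀`), `G = (t_ij)`, `δ = det G`; `h δ = - (h t₀ - 2)²` by `X_grm` for the `r_h`, for all `h`, so `δ = - (t₀ - 2)² ≠ 0` (by the second hypothesis `δ + (t₀ - 2)²` is zero).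
Let `C` be the set of the `l ∈ Λ` for which there are `d ≠ 0` in `A` and `n : Fin 4 → A` such that for all `S`, `h`: `h d • (r_h l).val = ∑ i, h (n i) • (r_h (x_i)).val`. (1) `L j ⊆ C`: `X_id4` for `r_h (x_i)`, `r_h l`: `d = δ`, `n = adj(G) (t(l x_j))_j` (`l x_j ∈ L j`). (2) `C` is closed under products: multiply, and `x_i x_j ∈ L₀ ⊆ C`, with the same `d = δ` for all `i`, `j`. (3) `C` is closed under inverses:
`(r_h l⁻¹).val = tr (r_h l) - (r_h l).val`, `d tr (r_h l) = ∑ n i t(x_i)`, and `1 = r_h (x_0)`. (4) `Z ⊆ C`: `r_h z = -1 = - r_h (x_0)`. So `C = Λ`. (5) Let `l ∈ C`, `s = ∑ i, n i * t(x_i) ∈ A`: `h d * tr (r_h l) = h s` for all `h`. For `S = A ⧸ (d)`: `d ∣ s`, `s = d * t`. Claim: `IsT ρ₀ Φ l t`. Let `h : A →+* S`, `m = Nat.card S ≠ 0`, `h m = 0`; `h` factors over `A ⧸ (m)`. In `S' = A ⧸ (d m)` (finite) let `a ∈ A` be a lift of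
`tr (r_(h') l)`, `h'` the projection: `d (a - t) ∈ (d m)`, so `a - t ∈ (m)` and `tr (r_h l) = h a = h t` by naturality for `A ⧸ (d m) → A ⧸ (m) → S`. -/
def X_ext : Prop := ∀ (A G Λ : Type) [CommRing A] [IsDomain A] [CharZero A] [Group G] [Group Λ],
  (∀ x : A, x ≠ 0 → Finite (A ⧸ Ideal.span {x})) →
  (∀ x : A, (∀ (S : Type) [CommRing S] [Finite S] (h : A →+* S), h x = 0) → x = 0) →
  ∀ (ρ₀ : G →* SL2 A) (Φ : NatBij G Λ) (L₀ : Subgroup Λ) (J : Type) [Nonempty J]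
  (L : J → Subgroup Λ), (∀ j, L₀ ≤ L j) → (∀ j, ∀ l ∈ L j, ∃ t, IsT ρ₀ Φ l t) →
  (∃ x ∈ L₀, ∃ y ∈ L₀, ∃ t, IsT ρ₀ Φ (x * y * x⁻¹ * y⁻¹) t ∧ t ≠ 2) →
  ∀ Z : Set Λ, (∀ z ∈ Z, ∀ (S : Type) [CommRing S] [Finite S] (h : A →+* S),
    Φ.toFun _ ((SLm h).comp ρ₀) z = -1) →
  Subgroup.closure (Z ∪ ⋃ j, (L j : Set Λ)) = ⊤ → ∀ l, ∃ t, IsT ρ₀ Φ l t

/-- [CG X gen] groups generated by good subgroups. (Uses `X_ext`.)

Proof. Let `N` be a normal subgroup of finite index of `G` contained in all `E j` (`Subgroup.normalCore` of the intersection), `π : G →* G ⧸ N`, `B j` the image of `E j`, so `E j = (B j).comap π`; `π' = Φ π`, `L j = (B j).comap π'`, `L₀ = π'.ker`. `natBij_sub` gives `Ψ j : NatBij (E j) (L j)`, compatible with `Φ`; `L j` is finitely generated (finite index in `Λ`). `TG` gives traces of the elements of `L j` for `Ψ j`, and they are traces for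
`Φ`. `X_ext` for `A = Qf a b ℤ`: `A ⧸ (x)` is finite (`x` divides a nonzero integer, `BG/P_E.lean`: `E_dvd`), and `A` is separated by the finite rings `Qf a b (ZMod m)`; it is a domain of characteristic zero (`Qf_domain` in `BG`). Irreducibility: `g, g' ∈ N` with `δ = tr ρ₀ [g, g'] - 2 ≠ 0`; let `m ≥ 1` be such that `δ ≠ 0` in `Qf a b (ZMod m)`; consider
`θ = (π, (rdq a b m).comp ρ₀)` to the product; by `NatBij.range_eq` there are `l, l' ∈ Λ` with `(Φ θ) l = θ g`, `(Φ θ) l' = θ g'`; so `l, l' ∈ L₀` and the trace of `[l, l']` is not two (naturality for the projections of the product). `Z' =` the set of the `z` which correspond to the `c ∈ Z`. The closure `K` of `Z' ∪ ⋃ L j` contains `L₀ = π'.ker`, and its image under `π'` contains `π c`, `c ∈ Z`, and `B j` (`π' (L j) = B j ∩ range π' = B j`, as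
`range π' = range π = ⊤`), so it is everything, and `K = ⊤`. -/
def X_gen : Prop := ∀ (a b : ℤ), b ^ 2 + 4 * a < 0 → ∀ (G : Type) [Group G]
  (ρ₀ : G →* GQ a b) (J : Type) [Finite J] [Nonempty J] (E : J → Subgroup G),
  (∀ j, (E j).FiniteIndex) → (∀ j, TG ρ₀ (E j)) →
  (∀ N : Subgroup G, N.FiniteIndex → ∃ x ∈ N, ∃ y ∈ N, tr (ρ₀ (x * y * x⁻¹ * y⁻¹)) ≠ 2) →
  ∀ Z : Set G, (∀ c ∈ Z, ρ₀ c = -1) → Subgroup.closure (Z ∪ ⋃ j, (E j : Set G)) = ⊤ →
  ∀ (Λ : Type) [Group Λ] [Group.FG Λ] (Φ : NatBij G Λ),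
  (∀ c ∈ Z, ∃ z : Λ, ∀ (Q : Type) [Group Q] [Finite Q] (f : G →* Q), Φ.toFun Q f z = f c) →
  ∃ T : Λ → Qf a b ℤ, Red Φ ρ₀ T

/-- [CG X dy] the subgroups `D ∩ y Γ(M') y⁻¹` are good.

Proof. `E'` = the set of the `x' ∈ Gam a b M'` for which there is `x ∈ D` with `x y = y x'`. It is a subgroup (`x` is determined by `x'`, and conversely, because `det y ≠ 0` in a domain), and `x' ↦ x` is an injective homomorphism `σ : E' →* GQ a b`. It has finite index: let `n ≠ 0` be an integer divisible by `det y` (`E_dvd` in `BG/P_E.lean`), `K = M' m₀ n`; for `x' ∈ Gam a b K` the matrix `y (x' - 1) adj(y)` is divisible by `det y` and the quotient `X` is divisible by `m₀`;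
`x = 1 + X` satisfies `x y = y x'` (multiply with `det y`), has determinant one, and `x ∈ Gam a b m₀ ≤ D`. So `Gam a b K ≤ E'`, and `Gam a b K` has finite index. `E` = the set of the `x ∈ D` for which `x'` exists, isomorphic to `E'` (`e : E' ≃* E`), and of finite index in `D`: it contains `Gam a b K'` for `K' = M' m₀ n` by the same argument (`adj(y) (x - 1) y` is divisible by `det y`..). For `Ψ : NatBij E Λ` use `Uni` for `E'`, `σ`, and
`natBij_equiv` for `e`: `σ x' = (e x' : D)`. -/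
def X_dy : Prop := ∀ (a b : ℤ), b ^ 2 + 4 * a < 0 → ∀ M' : ℕ, M' ≠ 0 → Uni a b M' →
  ∀ (D : Subgroup (GQ a b)) (m₀ : ℕ), m₀ ≠ 0 → Gam a b m₀ ≤ D →
  ∀ y : Matrix (Fin 2) (Fin 2) (Qf a b ℤ), y.det ≠ 0 → ∃ E : Subgroup D, E.FiniteIndex ∧
  (∀ x : D, x ∈ E ↔ ∃ x' : GQ a b, rdq a b M' x' = 1 ∧ x.val.val * y = y * x'.val) ∧
  TG D.subtype E

/-- [CG X tr] the character of `Λ`. (Uses `X_gen`, `X_dy`.)

Proof. `D` is finitely generated, and it is the closure of the set in `HE`; so there is a finite subset whose closure is `D` (`D` is the union of the directed family of the closures of the finite subsets), of elements `x_j` with `CjG M' x_j y_j`, and possibly `-1`. Add `x = 1`, `y = 1`. `E j` from `X_dy` for `y_j`; `Z = {-1}` if `-1 ∈ D`, otherwise empty. Irreducibility: a subgroup `N` of finite index in `D` has finite index in `GQ a b`, so it contains `eU k`, `eV k` for some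
integer `k ≠ 0` (powers of `eU 1`, `eV 1`), with the commutator of trace `2 + k^4` (`BG.eUV_tr`). -/
def X_tr : Prop := ∀ (a b : ℤ), b ^ 2 + 4 * a < 0 → Group.FG (GQ a b) → ∀ M' : ℕ, M' ≠ 0 →
  Uni a b M' → ∀ (D : Subgroup (GQ a b)) (m₀ : ℕ), m₀ ≠ 0 → Gam a b m₀ ≤ D → HE D M' →
  ∀ (Λ : Type) [Group Λ] [Group.FG Λ] (Φ : NatBij D Λ),
  (∀ h : -1 ∈ D, ∃ z : Λ, ∀ (Q : Type) [Group Q] [Finite Q] (f : D →* Q),
    Φ.toFun Q f z = f ⟨-1, h⟩) →
  ∃ T : Λ → Qf a b ℤ, Red Φ D.subtype T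

/-- [CG X fg] `SL₂(ℤ[w])` is finitely generated.

Proof. `η.range` has finite index in the finitely generated group `GR α` (`BG.con_fg` in `BG/P_con.lean`), so it is finitely generated; the kernel of `η` is `± 1`, so `G₀` is finitely generated; it has finite index in `GQ a b` (`EtaQ.lev`: it contains the kernel of a homomorphism to a finite group), so `GQ a b` is finitely generated. -/
def X_fg : Prop := ∀ (a b : ℤ) (ι : Type) [Finite ι]
  (α : MulAut (FreeGroup ι)) (M : ℕ) (c g : FreeGroup ι) (G₀ : Subgroup (GQ a b))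
  (η : G₀ →* GR α), EtaQ α M c g G₀ η → Group.FG (GQ a b)

/-! ### From `SL₂` to `PSL₂` -/

/-- [CG X psl] from `D / ± 1` to `D`. (Uses `PIC.S_prd`.)

Proof. Compare `PIC/P_psl.lean`, `PIC7/P_psl.lean` (docstring of `PIC.S_psl`). `Φ₀ : NatBij P Λp` (`exists_natBij`; `P` is finitely generated). Let `B = SL2 (Qf a b (ZMod 3))`, finite, `-1 ≠ 1` in `B`, `r = rdq a b 3`, `Q = B ⧸ {1, -1}`, `pj : B →* Q`, `q : P →* Q` induced by `r` (`q (pr x) = pj (r x)`), `q' = Φ₀ q`.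
`G' = {(x, b) ∈ P × B | q x = pj b}`, `Λ' = {(l, b) ∈ Λp × B | q' l = pj b}`; both are `comap` of the subgroup `{(x, y) | x = y}` of `Q × Q`, so there is `Ψ : NatBij G' Λ'` (`S_prd`, `natBij_sub`), compatible with the projections to `B` and with homomorphisms which factor over `P`. `D ≅ G'` by `e x = (pr x, r x)`: injective, onto (`-1 ∈ D`). `Λ = Λ'`, `Φ` from `natBij_equiv`.
`pr'` is the first projection; it is onto: for `l ∈ Λp` there is `b` with `q' l = pj b`. Its kernel is `{(1, b) | pj b = 1} = {1, z}`, `z = (1, -1)`. `Λ` is finitely generated (finite index in `Λp × B`) and residually finite. Last claim: let `f : D →* Q₁` be a homomorphism to a finite group, `F = (f, r) : D →* Q₁ × B`, `C` the subgroup `{1, F(-1)}` of the range `R` of `F`, normal because `-1` is central. `R → R ⧸ C`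
composed with `F` factors over `P`, so by the compatibility `Φ F` composed with `R → R ⧸ C` factors over `Λp` (`Φ F` has the same range `R`), so it is trivial on `z`, and `(Φ F) z ∈ {1, F(-1)}`. The second component of `(Φ F) z` is `(Φ r) z = -1 ≠ 1`. So `(Φ F) z = F (-1)` and `(Φ f) z = f (-1)`. -/
def X_psl : Prop := ∀ (a b : ℤ) (D : Subgroup (GQ a b)), Group.FG D → ∀ hD : -1 ∈ D,
  ∀ (P : Type) [Group P] (pr : D →* P), Function.Surjective pr →
  (∀ x, pr x = 1 ↔ x.val = 1 ∨ x.val = -1) → ∀ (Λp : Type) [Group Λp], InGenus P Λp →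
  ∃ (Λ : Type) (_ : Group Λ) (Φ : NatBij D Λ) (pr' : Λ →* Λp) (z : Λ),
    Group.FG Λ ∧ Group.ResiduallyFinite Λ ∧ Function.Surjective pr' ∧
    (∀ l, pr' l = 1 ↔ l = 1 ∨ l = z) ∧
    ∀ (Q : Type) [Group Q] [Finite Q] (f : D →* Q), Φ.toFun Q f z = f ⟨-1, hD⟩

/-- [CG X inv] the involutions.

Proof. Let `g ∈ GQ a b`, `g * g = 1`, `g ≠ 1`: `g + g⁻¹ = tr g`, `2 g = tr g` is scalar, `g = -1` (`Qf a b ℤ` is a domain of characteristic zero). Let `z' = e z`; `z * z = 1`, `z ≠ 1` (`pr' z = 1`, and `z = 1` would give: by `hz` for `f = (rdq a b 3)` restricted to `D` `-1 = 1` modulo `3`). So `z'.val = -1`, `e` maps `{1, z}`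
to `{1, -1}`, and `Λp ≅ Λ ⧸ ker pr' ≅ D' ⧸ {1, -1} ≅ P'`. -/
def X_inv : Prop := ∀ (a b : ℤ), b ^ 2 + 4 * a < 0 → ∀ (D : Subgroup (GQ a b)) (hD : -1 ∈ D)
  (Λp Λ : Type) [Group Λp] [Group Λ] (Φ : NatBij D Λ) (pr' : Λ →* Λp) (z : Λ),
  Function.Surjective pr' → (∀ l, pr' l = 1 ↔ l = 1 ∨ l = z) →
  (∀ (Q : Type) [Group Q] [Finite Q] (f : D →* Q), Φ.toFun Q f z = f ⟨-1, hD⟩) →
  ∀ (D' : Subgroup (GQ a b)) (P' : Type) [Group P'] (pr : D' →* P'), Function.Surjective pr →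
  (∀ x, pr x = 1 ↔ x.val = 1 ∨ x.val = -1) → -1 ∈ D' → Nonempty (Λ ≃* D') →
  Nonempty (Λp ≃* P')

/-! ### Generation -/

/-- the matrix is one modulo the ideal `I` -/
def InI {a b : ℤ} (I : Ideal (Qf a b ℤ)) (x : GQ a b) : Prop :=
  x.val 0 0 - 1 ∈ I ∧ x.val 0 1 ∈ I ∧ x.val 1 0 ∈ I ∧ x.val 1 1 - 1 ∈ I

/-- [CG X gnI] the principal congruence subgroups.

Proof. `S = Qf a b (ZMod m)`, a finite ring, `q : Qf a b ℤ → S`, `J = q(I)`, an ideal (`q` is onto, `ker q = (m) ⊆ I`). Let `N` be the image in `SL₂(S)` of the closure of the `g * eU s * g⁻¹`, `s ∈ I`. It is enough to show that every matrix `X = [[A, B], [C, D]]` in `SL₂(S)` which is one modulo `J` is in `N`. (1) There is `t ∈ J` such that `u = A + t C` is a unit: `S` has finitely many maximal ideals; let `M_i` be those which do not contain `J`; by the Chinese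
remainder theorem for `J` and the `M_i` there is `t ∈ J` with `t ∈ M_i` if `A ∉ M_i` and `t - 1 ∈ M_i` if `A ∈ M_i` (then `C ∉ M_i`); `u ∉ M_i`, and for the maximal ideals `M ⊇ J` we have `u - 1 ∈ M` (`A - 1 ∈ J`, `t ∈ J`). (2) Multiply `X` from the left with `[[1, t], [0, 1]]`, then with `[[1, 0], [- C u⁻¹, 1]]` (`C ∈ J`), from the right with `[[1, *], [0, 1]]`, `* ∈ J`: we get `diag(u, u⁻¹)`, `u = 1 + s`, `s ∈ J`. These
elementary matrices are in `N` (`[[1, 0], [s, 1]]` is conjugate to `[[1, -s], [0, 1]]`). (3) `[[1, 1], [0, 1]] [[1, 0], [s, 1]] [[1, -1], [0, 1]] = [[1 + s, -s], [s, 1 - s]] ∈ N`, and it is `[[1, 0], [s u⁻¹, 1]] diag(u, u⁻¹) [[1, -s u⁻¹], [0, 1]]`, so `diag(u, u⁻¹) ∈ N`. -/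
def X_gnI : Prop := ∀ (a b : ℤ) (I : Ideal (Qf a b ℤ)) (m : ℕ), m ≠ 0 →
  (m : Qf a b ℤ) ∈ I → ∀ x : GQ a b, InI I x → x ∈ Subgroup.closure
  ((Gam a b m : Set (GQ a b)) ∪ {x | ∃ (g : GQ a b) (s : Qf a b ℤ), s ∈ I ∧ x = g * eU s * g⁻¹})

/-- [CG X gn1] the groups `Γ₁(I)`.

Proof. As `X_gnI` (with `B` arbitrary, and `A - 1, D - 1, C ∈ J`): `[[1, t], [0, 1]]` with `t ∈ J`, `u = A + t C`; `[[1, 0], [- C u⁻¹, 1]]`, then `[[1, *], [0, 1]]` from the right with `*` arbitrary; and `diag(u, u⁻¹)` by the identity (3), in which all the factors are allowed. -/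
def X_gn1 : Prop := ∀ (a b : ℤ) (I : Ideal (Qf a b ℤ)) (m : ℕ), m ≠ 0 →
  (m : Qf a b ℤ) ∈ I → ∀ x : GQ a b, x.val 0 0 - 1 ∈ I → x.val 1 0 ∈ I → x.val 1 1 - 1 ∈ I →
  x ∈ Subgroup.closure ((Gam a b m : Set (GQ a b)) ∪ {x | ∃ s : Qf a b ℤ, x = eU s} ∪
    {x | ∃ s : Qf a b ℤ, s ∈ I ∧ x = eV s})

/-- [CG X gn0] the level prime to `M'`.

Proof. `SL₂(Qf a b (ZMod M'))` is generated by the elementary matrices `eU s`, `eV s` (see the docstring of `C_srd`), and every `s` is of the form `m₀ s'` because `m₀` is invertible modulo `M'`. So for `x ∈ GQ a b` there is `u` in the closure of the `eU (m₀ s)`, `eV (m₀ s)` with `x * u⁻¹ ∈ Gam a b M'`. -/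
def X_gn0 : Prop := ∀ (a b : ℤ) (m₀ M' : ℕ), M' ≠ 0 → Nat.Coprime m₀ M' → ∀ x : GQ a b,
  ∃ u ∈ Subgroup.closure {u : GQ a b | ∃ s : Qf a b ℤ, u = eU (m₀ * s) ∨ u = eV (m₀ * s)},
  x * u⁻¹ ∈ Gam a b M'

/-- [CG X uni1] unipotent elements are conjugate to elements of `Γ(M')`.

Proof. `y = g * diag(1, M')`, `x' = eU (M' s)`: `eU s * diag(1, M') = diag(1, M') * eU (M' s)`. For `eV s`: `eV s = w * eU (-s) * w⁻¹`, `w = mB _` or its inverse. -/
def X_uni1 : Prop := ∀ (a b : ℤ) (M' : ℕ), M' ≠ 0 → b ^ 2 + 4 * a < 0 →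
  ∀ (g : GQ a b) (s : Qf a b ℤ),
  (∃ y, CjG M' (g * eU s * g⁻¹) y) ∧ ∃ y, CjG M' (g * eV s * g⁻¹) y

end

end Pool.Agent.F8.CG
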