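import Pool.Agent.Lib.MP_305fdd_al.F8.CG.StmE
import Pool.Agent.Lib.MP_305fdd_al.F8.CG.StmF
import Pool.Agent.Lib.MP_305fdd_al.F8.CG.StmC
import Pool.Agent.Lib.MP_305fdd_al.F8.CG.StmX

/-!
# MP_305fdd_al, congruence subgroups: the blocks F, C, X, E
-/

set_option autoImplicit false

namespace Pool.Agent.F8.CG

open Pool.Agent.F8.BG Pool.Agent.MP_305fdd_al Pool.Agent.Lib.MP_305fdd_al Pool.Agent.F8
open scoped QuadraticAlgebra

/-- the statements of the blocks -/
structure Blk : Prop where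
  e : E_main
  f : F_fin
  con : C_con
  cl : C_cl
  inj : C_inj
  img : C_img
  psl : X_psl
  inv : X_inv
  tr : X_tr
  fg : X_fg

end Pool.Agent.F8.CG
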