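import Pool.Agent.Lib.MP_305fdd_al.F8.CG.DefsT
import Pool.Agent.Lib.MP_305fdd_al.F8.NG.T.StmA

/-!
# MP_305fdd_al, congruence subgroups: the statements of the transfer (block T)

THEOREM (`T_main`). Let `ρ₀ : G → SL₂(A)` be a representation which passes the tests `t n` over a ring `B ⊇ A` and which is determined by the tests over finite
fields of almost all characteristics (`TH ρ₀ e t`). Let `Λ` be a finitely generated group with natural bijections `Φ : NatBij G Λ` such that the tests have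
corresponding tests for `Λ`. Then there is `T : Λ → A` such that for every finite ring `S` and `h : A → S` the function
`h ∘ T` is the character of the matched representation `Φ ((SLm h).comp ρ₀)` (`Red Φ ρ₀ T`).

The proof is the one of block NTG (`NG/T`), with the tests instead of the condition `CN`. General pieces from there: `NG.T.p_rL`, `p_ji`, `p_gl`, `p_emb`,
`p_sep`, `p_div`, `p_red`, `p_exj`, and `all_RR : S_RR`. In all the statements `A` and `B` are domains which are finite and free over `ℤ`.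
-/

set_option autoImplicit false

namespace Pool.Agent.F8.CG

open Pool.Agent.MP_305fdd_al Pool.Agent.Lib.MP_305fdd_al Pool.Agent.F2X Pool.Agent.F8
  Pool.Agent.F8.HN Pool.Agent.F8.NG.T

noncomputable section

/-- [CG T_ind] linear independence and determinants.

Proof. If `dt f y ≠ 0` and `∑ c_i f_i = 0`, then the row vector `c` times the matrix `f i (y l).1 (y l).2.1 (y l).2.2` is zero, so `c = 0`. Conversely let `f` be linearly independent. The vectors
`e_(x, r, s) = (f i x r s)_i ∈ K^d` generate `K^d` (otherwise there is a linear functional `c ≠ 0` on `K^d` which is zero on all of them, and `∑ c_i f_i = 0`), so `d` of them form a basis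
(`exists_linearIndependent` / a basis contained in a spanning set, reindexed by `Fin d`), and the determinant of this matrix is not zero. -/
def T_ind : Prop := ∀ (X : Type) (m d : ℕ) (K : Type) [Field K]
  (f : Fin d → X → Matrix (Fin 2) (Fin m) K),
  LinearIndependent K f ↔ ∃ y : Fin d → X × Fin 2 × Fin m, dt f y ≠ 0

/-- [CG T_mt] matching.

Proof. It is enough to prove `HT t j ρ → HT M.tst j (Φ.toFun _ ρ)`: apply this to `Φ.symm` and the test `M.tst`, whose corresponding test is `t` (with `M.Ψ.symm`). Let `Θ i : L → Q3 t.m S` be as in `HT.coc`,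
`Π = (Θ i)_i : L → ∏_i Q3 t.m S` (`MonoidHom.pi`; a finite group), `Π' = M.Ψ.toFun _ Π`, `Θ' i` the component of `Π'` (so `Θ' i = M.Ψ.toFun _ (Θ i)` by naturality for `Pi.evalMonoidHom`). The linear parts by naturality for
`Q3.pH`, `Q3.qH` and `M.res`, `M.tw`. For the points `y l` choose `x' l ∈ L'` with `Π' (x' l) = Π (y l).1` (`NatBij.range_eq`), then the determinant is the same. Irreducibility: `σ = ρ.comp L.subtype`,
`σ' = M.Ψ.toFun _ σ = (Φ.toFun _ ρ).comp L'.subtype` have the same range `P`, and `σ (commutator L) = ⁅P, P⁆ = σ' (commutator L')` (`Subgroup.map_commutator`). -/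
def T_mt : Prop := ∀ (G Λ B : Type) [Group G] [Group Λ] [CommRing B] (Φ : NatBij G Λ)
  (t : Tst G B) (M : MT Φ t) (S : Type) [CommRing S] [Finite S] (j : B →+* S) (ρ : G →* SL2 S),
  HT t j ρ ↔ HT M.tst j (Φ.toFun _ ρ)

/-- [CG T_un1] uniqueness for `Λ` over finite fields. (Uses `T_mt`.)

Proof. `M` from `TH.un`. `ρ = Φ.toFun _ σ`, `ρ' = Φ.toFun _ σ'` (`NatBij.right_inv`), by `T_mt` and `TH.un` `tr (σ g) = j (e (tr (ρ₀ g))) = j' (e (tr (ρ₀ g))) = tr (σ' g)` for all `g`. For `l ∈ Λ` there is `g` with `ρ l = σ g`, `ρ' l = σ' g`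
(`S_mp`, `pf_mp`). -/
def T_un1 : Prop := ∀ (G Λ A B : Type) [Group G] [Group Λ] [CommRing A] [CommRing B]
  (Φ : NatBij G Λ) (ρ₀ : G →* SL2 A) (e : A →+* B) (N : ℕ) (t : Fin N → Tst G B),
  TH ρ₀ e t → ∀ M : (∀ n, MT Φ (t n)), ∃ m₀ : ℕ, m₀ ≠ 0 ∧ ∀ (k : Type) [Field k] [Finite k],
  (m₀ : k) ≠ 0 → ∀ (j j' : B →+* k), j.comp e = j'.comp e → ∀ ρ ρ' : Λ →* SL2 k,
  (∀ n, HT (M n).tst j ρ) → (∀ n, HT (M n).tst j' ρ') → ∀ l, tr (ρ l) = tr (ρ' l)

/-- [CG T_fct] functoriality for injective homomorphisms.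

Proof. `(Q3.map f).comp (Θ i)`, `dt_map`, `tr_map`. -/
def T_fct : Prop := ∀ (G B R R' : Type) [Group G] [CommRing B] [CommRing R] [CommRing R']
  (t : Tst G B) (f : R →+* R'), Function.Injective f → ∀ (j : B →+* R) (ρ : G →* SL2 R),
  HT t j ρ → HT t (f.comp j) ((SLm f).comp ρ)

/-- [CG T_sb] descent of the tests to subrings.

Proof. The subgroups `(t n).L` have finite index, so they are finitely generated (`Subgroup.fg_of_index_ne_zero`). Let `Θ n i` be as in `HT.coc` for the test `t n`. `X` consists of: the entries of `ρ l` for `l` in a finite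
generating set of `Λ`; for every `n`, `i` and `l` in a finite generating set of `(t n).L` the entries of `(Θ n i l).q`, of its inverse, of `(Θ n i l).p` and of `(Θ n i l).v`; the elements `j b` for `b` in a finite generating set of the
`ℤ`-module `B`; the inverses of the elements `tr (ρ [g, h]) - 2` and `dt .. ≠ 0` of the tests. Let `X ⊆ R`. The range of `j` is contained in `R` (`RingHom.codRestrict`). The range of `SLm R.subtype : SL2 R →* SL2 K` (injective) is the set of the matrices with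
entries in `R`, a subgroup, it contains the images of the generators, so `ρ = (SLm R.subtype).comp ρ'`; the same for `Q3.map R.subtype : Q3 m R →* Q3 m K` (injective; its range consists of the elements such that the entries of `q, q⁻¹, p, v` are in `R`), `Θ n i = (Q3.map R.subtype).comp (Θ' n i)`. The linear parts of
`Θ' n i` are right because of injectivity. `dt` and `tr [g, h] - 2` for `Θ'`, `ρ'` are units of `R` (their inverses in `K` are in `R`), so their images under `π` are not zero (`dt_map`, `tr_map`). -/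
def T_sb : Prop := ∀ (Λ B : Type) [Group Λ] [Group.FG Λ] [CommRing B] [Module.Finite ℤ B] (N : ℕ)
  (t : Fin N → Tst Λ B) (K : Type) [Field K] (j : B →+* K) (ρ : Λ →* SL2 K),
  (∀ n, HT (t n) j ρ) → ∃ X : Set K, X.Finite ∧ ∀ R : Subring K, X ⊆ R →
  ∃ (j' : B →+* R) (ρ' : Λ →* SL2 R), R.subtype.comp j' = j ∧ (SLm R.subtype).comp ρ' = ρ ∧
    ∀ (k : Type) [Field k] (π : R →+* k) (n : Fin N), HT (t n) (π.comp j') ((SLm π).comp ρ')

/-- [CG T_spk] finitely generated rings.

Proof. `R = (Algebra.adjoin ℤ (X ∪ {M⁻¹})).toSubring`, a ring of finite type over `ℤ`. For a maximal ideal `𝔪` the field `R ⧸ 𝔪` is finite: `finite_of_finiteType` in `Lib/MP_305fdd_al/Rep/Krull.lean` (see `P/spf.lean`); `M` is a unit of `R`.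
The homomorphism to `AlgebraicClosure ℚ`: see the proof of `p_spq` in `P/spq.lean`. -/
def T_spk : Prop := ∀ (K : Type) [Field K] [CharZero K] (X : Set K), X.Finite → ∀ M : ℕ, M ≠ 0 →
  ∃ R : Subring K, X ⊆ R ∧
    (∃ (k : Type) (_ : Field k) (_ : Finite k), (M : k) ≠ 0 ∧ Nonempty (R →+* k)) ∧
    Nonempty (R →+* AlgebraicClosure ℚ)

/-- [CG T_un2] uniqueness for `Λ` over fields of characteristic zero. (Uses `T_un1`, `T_sb`, `T_spk`.)

Proof. Suppose `tr (ρ l) ≠ tr (ρ' l)`. Let `X`, `X'` be the sets of `T_sb` for `ρ` and `ρ'`, `R, k, π` from `T_spk` for `X ∪ X' ∪ {(tr (ρ l) - tr (ρ' l))⁻¹}` and `M = m₀` (`T_un1`). The representations `(SLm π).comp ρ_R`, `(SLm π).comp ρ'_R` over `k` pass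
the tests for `π.comp j_R`, `π.comp j'_R`, with `(π.comp j_R).comp e = (π.comp j'_R).comp e` (`R.subtype` is injective). Their traces at `l` are different, because `tr (ρ_R l) - tr (ρ'_R l)` is a unit of `R`. Contradiction. -/
def T_un2 : Prop := ∀ (G Λ A B : Type) [Group G] [Group Λ] [Group.FG Λ] [CommRing A] [CommRing B]
  [Module.Finite ℤ B] (Φ : NatBij G Λ) (ρ₀ : G →* SL2 A) (e : A →+* B) (N : ℕ)
  (t : Fin N → Tst G B), TH ρ₀ e t → ∀ (M : ∀ n, MT Φ (t n)) (K : Type) [Field K] [CharZero K]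
  (j j' : B →+* K), j.comp e = j'.comp e → ∀ ρ ρ' : Λ →* SL2 K,
  (∀ n, HT (M n).tst j ρ) → (∀ n, HT (M n).tst j' ρ') → ∀ l, tr (ρ l) = tr (ρ' l)

/-- [CG T_lh] limits of homomorphisms to `Q3`.

Proof. As `P/lh.lean` (`S_lh`, for `Q2`). For `g : G` the entries of `(Θ k g).q`, `(Θ k g).q⁻¹`, `(Θ k g).p`, `(Θ k g).v` are compatible families; take the limits; the identities hold by
uniqueness of limits. Second part: uniqueness of limits for all entries. -/
def T_lh : Prop := ∀ (m : ℕ) (R : Type) [CommRing R] (Rk : ℕ → Type) [∀ k, CommRing (Rk k)]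
  (π : ∀ k, R →+* Rk k) (p : ∀ k, Rk (k + 1) →+* Rk k), IsLim R Rk π p →
  (∀ (G : Type) [Group G] (Θ : ∀ k, G →* Q3 m (Rk k)),
    (∀ k, (Q3.map (p k)).comp (Θ (k + 1)) = Θ k) →
    ∃ Θ' : G →* Q3 m R, ∀ k, (Q3.map (π k)).comp Θ' = Θ k) ∧
  (∀ (G : Type) [Group G] (σ σ' : G →* SL2 R),
    (∀ k, (SLm (π k)).comp σ = (SLm (π k)).comp σ') → σ = σ') ∧
  ∀ (G : Type) [Group G] (σ σ' : G →* GL (Fin m) R),
    (∀ k, (GLm (π k)).comp σ = (GLm (π k)).comp σ') → σ = σ'

/-- [CG T_pe] the `p`-adic representation passes the tests. (Uses `T_lh`; general: `all_RR : S_RR`, `NG.T.S_ji`, `pf_mp`.)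

Proof. Compare `NG/T/P_pe.lean`, `P_pe2.lean`. Let `b_i` generate `B` as a `ℤ`-module; the `j b_i` are integral over `ℤ`, so over `ℤ_p`. `S_RR` gives `R, ι, f, Rk, π, q, fk` with `LR p ι f π q fk` and `j b_i ∈ range ι`, so `j = ι.comp j'`,
`j' : B →+* R` (`ι` is injective). `Θ i : L → Q3 t.m B` as in `HT.coc`, `Θ_k i = (Q3.map ((π k).comp j')).comp (Θ i)`, `Θ'_k i = M.Ψ.toFun _ (Θ_k i)`, compatible by naturality and `IsLim`; `T_lh` gives `Θ' i : L' →* Q3 t.m R`.
The `p`-part: with `i = j'.comp e`: `pH ∘ Θ'_k i = M.Ψ ((SLm ((π k).comp i)).comp ρ₀ |_L) = Φ ((SLm ((π k).comp i)).comp ρ₀) |_L'` (`M.res`) and `(π k).comp i = (jj (fk k) ((π k).comp i)).comp (ia (ZMod (p ^ k)) A)`, so this is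
`(SLm (jj (fk k) ((π k).comp i))).comp ((SLm (TM A (toZModPow k))).comp r) |_L' = (SLm (π k)).comp ((SLm (jj f i)).comp r) |_L'` (`RL`, `jj_TM`, `comp_jj`, `LR.ck`); by uniqueness of limits the `p`-part of `Θ' i` is `(SLm (jj f i)).comp r |_L'`.
The `q`-part: `M.tw` for `(π k).comp j'`: it is `(GLm j').comp M.A'`. Points: `δ = dt .. y ∈ B`, `δ ≠ 0`; `j` is injective (`S_ji`), so `j' δ ≠ 0` and `π k (j' δ) ≠ 0` for some `k`; for this `k` the homomorphism
`(Θ'_k i)_i : L' → ∏ Q3 t.m (Rk k)` is `M.Ψ` of `(Θ_k i)_i`, so it has the same range, and there are points for `Θ'` with the determinant `δ'`, `π k δ' = π k (j' δ) ≠ 0`. Irreducibility: `g, h ∈ commutator L` with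
`δ = tr (ρ₀ [g, h]) - 2 ≠ 0` in `B`, choose `k` for `δ` in the same way and `g', h' ∈ commutator L'` as in `T_mt`. Finally apply `ι` (`T_fct`; `ι.comp (jj f i) = jj (iz p) (j.comp e)` by `comp_jj`, `LR.cf`). -/
def T_pe : Prop := ∀ (G Λ A B : Type) [Group G] [Group Λ] [CommRing A] [Module.Finite ℤ A]
  [CommRing B] [IsDomain B] [Module.Free ℤ B] [Module.Finite ℤ B] (Φ : NatBij G Λ)
  (ρ₀ : G →* SL2 A) (e : A →+* B) (t : Tst G B) (M : MT Φ t),
  HT t (RingHom.id B) ((SLm e).comp ρ₀) → ∀ (p : ℕ) [Fact p.Prime] (r : Λ →* SL2 (AT ℤ_[p] A)),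
  RL Φ ρ₀ p r → ∀ j : B →+* Fl p, HT M.tst j ((SLm (jj (iz p) (j.comp e))).comp r)

/-- [CG T_ext] extension of embeddings. (General: `NG.T.S_ji`.)

Proof. `e` is injective (compose it with a homomorphism from `B` to the fraction field of `B`: `S_ji` for `A`), `i` is injective (`S_ji`). Make `B` an algebra over `A` by `e`, algebraic (it is integral over `ℤ`), and `Fl p` by `i`; `IsAlgClosed.lift`. Compare `p_emb` in
`NG/T`. -/
def T_ext : Prop := ∀ (A B : Type) [CommRing A] [IsDomain A] [Module.Free ℤ A] [Module.Finite ℤ A]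
  [CommRing B] [IsDomain B] [Module.Free ℤ B] [Module.Finite ℤ B] (e : A →+* B) (p : ℕ)
  [Fact p.Prime] (i : A →+* Fl p), ∃ j : B →+* Fl p, j.comp e = i

/-- [CG T_q] a representation over `AlgebraicClosure ℚ`. (Uses `T_pe`, `T_sb`, `T_spk`; general: `NG.T.S_rL`, `NG.T.S_exj`.)

Proof. `p = 2`, `r` from `S_rL`, `j : B →+* Fl 2` from `S_exj`; `(SLm (jj (iz 2) (j.comp e))).comp r` passes the tests (`T_pe`); `T_sb`, and the second homomorphism of `T_spk` (`M = 1`). -/
def T_q : Prop := ∀ (G Λ A B : Type) [Group G] [Group Λ] [Group.FG Λ] [CommRing A] [IsDomain A]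
  [Module.Free ℤ A] [Module.Finite ℤ A] [CommRing B] [IsDomain B] [Module.Free ℤ B]
  [Module.Finite ℤ B] (Φ : NatBij G Λ) (ρ₀ : G →* SL2 A) (e : A →+* B) (N : ℕ)
  (t : Fin N → Tst G B), TH ρ₀ e t → ∀ (M : ∀ n, MT Φ (t n)),
  ∃ (j : B →+* AlgebraicClosure ℚ) (s : Λ →* SL2 (AlgebraicClosure ℚ)), ∀ n, HT (M n).tst j s

/-- [CG T_val] the values. (Uses `T_un2`, `T_fct`, `T_pe`, `T_ext`; general: `NG.T.S_gl`, `S_emb`, `S_sep`, `S_div`.)

Proof. As `NG/T/P_val.lean`. Let `x = tr (s l)`. For an automorphism `g` of `AlgebraicClosure ℚ` with `g (j (e y)) = j (e y)` for all `y : A` the representation `(SLm g).comp s` passes the tests for `g ∘ j` (`T_fct`), and `(g ∘ j) ∘ e = j ∘ e`, so `g x = x` by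
`T_un2`. By `S_gl` for `j.comp e`: `m x = j (e y)`, `m ≠ 0`. Let `p` be a prime and `i : A →+* Fl p`. `S_emb` gives `ι` with `ι.comp (j.comp e) = i`, `T_ext` gives `j' : B →+* Fl p` with `j'.comp e = i`. `(SLm ι).comp s` passes the tests for
`ι.comp j`, and `(SLm (jj (iz p) i)).comp (r p)` passes the tests for `j'` (`T_pe`), so `ι x = jj (iz p) i (tr (r p l))` (`T_un2`) and `jj (iz p) i (m * tr (r p l) - ia y) = m ι x - i y = 0`. By `S_sep` `m * tr (r p l) = ia y`; then
`S_div`; `m (x - j (e t)) = 0`. -/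
def T_val : Prop := ∀ (G Λ A B : Type) [Group G] [Group Λ] [Group.FG Λ] [CommRing A] [IsDomain A]
  [Module.Free ℤ A] [Module.Finite ℤ A] [CommRing B] [IsDomain B] [Module.Free ℤ B]
  [Module.Finite ℤ B] (Φ : NatBij G Λ) (ρ₀ : G →* SL2 A) (e : A →+* B) (N : ℕ)
  (t : Fin N → Tst G B), TH ρ₀ e t → ∀ (M : ∀ n, MT Φ (t n))
  (j : B →+* AlgebraicClosure ℚ) (s : Λ →* SL2 (AlgebraicClosure ℚ)),
  (∀ n, HT (M n).tst j s) → ∀ r : (∀ (p : ℕ) [Fact p.Prime], Λ →* SL2 (AT ℤ_[p] A)),
  (∀ (p : ℕ) [Fact p.Prime], RL Φ ρ₀ p (r p)) → ∀ l : Λ, ∃ u : A, tr (s l) = j (e u) ∧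
    ∀ (p : ℕ) [Fact p.Prime], tr (r p l) = ia ℤ_[p] A u

/-- [CG T_mk] the corresponding test.

Proof. `X = G ⧸ L` is finite, `f : G →* Equiv.Perm X` (`MulAction.toPermHom`), `S` the stabiliser of the class of `1`, so `L = S.comap f`; `L' = S.comap (Φ.toFun _ f)`, of finite index, `Ψ` from `natBij_sub` / `natBij_comap` (`Tower.lean`). `L'` and `Ψ` satisfy
`res`. Exponents: `((redZ k).comp n').comp L'.subtype = Ψ (((redZ k).comp n).comp L.subtype) = Ψ 1 = 1`, so `n' x` is a `k`-th power for `x ∈ L'`: there is `nL' : L' →* Multiplicative ℤ` with `n' x = nL' x ^ k` (compare `Tower.lean`, `nm`). `CmG Ψ nL nL'`: for `M ≥ 1`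
the homomorphism `ι : ZMod M → ZMod (k M)`, `1 ↦ k`, is injective, `ι ∘ (redZ M).comp nL = (redZ (k M)).comp n |_L`, and the same for `n'`; naturality, `res` and `CmG Φ n n'`. `tw`: `(GLm π).comp ((zpowersHom _ u).comp nL) = (pw (GLm π u)).comp nL`; `GLm π u` has a finite order, and the
claim follows from `CmG Ψ nL nL'` as in `S_exu` (`P/exu.lean`). `A' = (zpowersHom _ u).comp nL'`. -/
def T_mk : Prop := ∀ (G Λ B : Type) [Group G] [Group Λ] [CommRing B] (Φ : NatBij G Λ)
  (n : G →* Multiplicative ℤ) (n' : Λ →* Multiplicative ℤ), CmG Φ n n' →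
  ∀ (L : Subgroup G) (hL : L.FiniteIndex) (k : ℕ), 1 ≤ k → ∀ nL : L →* Multiplicative ℤ,
  (∀ x : L, n x = nL x ^ k) → ∀ (m : ℕ) (u : GL (Fin m) B) (d : ℕ),
  Nonempty (MT Φ ⟨L, hL, m, (zpowersHom (GL (Fin m) B) u).comp nL, d⟩)

/-- [CG T_main] MAIN RESULT of block T. (Uses `T_q`, `T_val`; general: `NG.T.S_rL`, `NG.T.S_red`.)

Proof. `M n` by choice, `j, s` from `T_q`, `r p` from `S_rL` (choice), `T l` from `T_val`; `S_red`. -/
def T_main : Prop := ∀ (G Λ A B : Type) [Group G] [Group Λ] [Group.FG Λ] [CommRing A] [IsDomain A]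
  [Module.Free ℤ A] [Module.Finite ℤ A] [CommRing B] [IsDomain B] [Module.Free ℤ B]
  [Module.Finite ℤ B] (Φ : NatBij G Λ) (ρ₀ : G →* SL2 A) (e : A →+* B) (N : ℕ)
  (t : Fin N → Tst G B), TH ρ₀ e t → (∀ n, Nonempty (MT Φ (t n))) →
  ∃ T : Λ → A, Red Φ ρ₀ T

end

end Pool.Agent.F8.CG
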