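import Pool.Agent.Lib.MP_305fdd_al.F8.CG.StmA2
import Pool.Agent.Lib.MP_305fdd_al.F8.CG.StmTr

/-!
# MP_305fdd_al, congruence subgroups: block A, families of elements with a trace formula

`PolD c L hc nL N M`: the trace formula for the element `c` of `G`: for all `ρ` there is a polynomial `P` of degree `N`, whose roots sum up to `M tr ρ(c)`, `M` an integer, such that the multiplicities of its roots are determined by crossed homomorphisms of `L`.
-/

set_option autoImplicit false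

namespace Pool.Agent.F8.CG

open Pool.Agent.F8.BG Pool.Agent.Lib.MP_305fdd_al Pool.Agent.F8

noncomputable section

/-- `IsP` with an integer `M` -/
structure IsPz {L K : Type} [Group L] [Field K] (nL : L →* Multiplicative ℤ) (N : ℕ) (M : ℤ)
    (ρ : L →* SL2 K) (c : L) (P : Polynomial K) : Prop where
  /-- monic -/
  mon : P.Monic
  /-- the degree -/
  deg : P.natDegree = N
  /-- the trace -/
  tra : P.nextCoeff = -((M : K) * tr (ρ c))
  /-- an upper bound for the dimension of the space of the crossed homomorphisms -/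
  le : ∀ (τ : Kˣ) (m : ℕ), Module.finrank K (Zc nL m ρ (jorG m τ)) ≤
    2 * m + P.rootMultiplicity (τ : K)
  /-- the dimension -/
  eq : ∀ τ : Kˣ, Module.finrank K (Zc nL (P.rootMultiplicity (τ : K)) ρ
    (jorG (P.rootMultiplicity (τ : K)) τ)) = 3 * P.rootMultiplicity (τ : K)
  /-- finite dimension -/
  fd : ∀ (τ : Kˣ) (m : ℕ), Module.Finite K (Zc nL m ρ (jorG m τ))
  /-- zero is not a root -/
  ne : ¬ P.IsRoot 0
  /-- integrality -/
  int : (∀ x i j, IsIntegral ℤ ((ρ x).val i j)) → ∀ τ, P.IsRoot τ →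
    IsIntegral ℤ τ ∧ IsIntegral ℤ τ⁻¹

theorem IsP.isPz {L K : Type} [Group L] [Field K] {nL : L →* Multiplicative ℤ} {N M : ℕ}
    {ρ : L →* SL2 K} {c : L} {P : Polynomial K} (h : IsP nL N M ρ c P) :
    IsPz nL N (M : ℤ) ρ c P where
  mon := h.mon
  deg := h.deg
  tra := by
    rw [h.tra]
    simp
  le := h.le
  eq := h.eq
  fd := h.fd
  ne := h.ne
  int := h.int

/-- the trace formula for the element `c` -/
def PolD {G : Type} [Group G] (c : G) (L : Subgroup G) (hc : c ∈ L) (nL : L →* Multiplicative ℤ)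
    (N : ℕ) (M : ℤ) : Prop :=
  ∀ (K : Type) [Field K] (ρ : G →* SL2 K), IrC L ρ →
    (∀ c' : G, PConj c' c → tr (ρ c') = tr (ρ c)) →
    ∃ P : Polynomial K, IsPz nL N M (ρ.comp L.subtype) ⟨c, hc⟩ P

/-- [CG fam] a finite family of elements with a trace formula. (Uses `A_pol`, `A_nrm`, `A_bc`.)

Proof. (This is the main part of the proof of `A_th`.) `K = AlgebraicClosure ℚ`, `e₀ : Qf a b ℤ → K` an injective homomorphism (`evq` at a root of `x² = a + b x`; injective because `b² + 4 a < 0`, see `BG.S_bd`, `P_bd.lean`), `ρ_K = SLm e₀ ∘ ρ₀`. The hypotheses of `PolD` for `ρ_K`: `IrC` from `hirr`; if `c'`, `c i` are profinitely conjugate then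
`tr ρ₀ c'` and `tr ρ₀ (c i)` are congruent modulo all `m` (`rdq a b m`), so they are equal. Let `P_i` be the polynomial over `K`; it splits; its roots are integral over `ℤ`, with integral inverses (`IsPz.int`, the entries of `ρ_K` are integral). `B` = the subring of `K` generated by the image of `e₀` and all these roots and their inverses, a finitely generated `ℤ`-module, `e` = the map to `B`. The
tests: for all `i` and all roots `τ` of `P_i`: `L i`, `nL i`, `m` = the multiplicity of `τ`, `τ ∈ Bˣ`; and for every `i` the trivial test `L i`, `nL i`, `m = 0`, `τ = 1` (so that every `L i` occurs in a test). (ex): `IsPz.eq` and `A_bc` (`L i` is finitely generated). (un): let `M₀` be the product of the `M i` and of integers `≠ 0` divisible in `B` (`A_nrm`) by `τ - τ'` for all `i` and all roots `τ ≠ τ'` of `P_i`. Let `k`, `j`, `ρ` be given. `PolD` for `k`, `ρ`: profinitely conjugate elements have conjugate images in the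
finite group `SL2 k`, so the same traces. Let `P` be the polynomial over `k` for `i`. For every root `τ` of `P_i` of multiplicity `m` we have `3 m ≤ 2 m + mult_P (j τ)` (`Pass`, `IsPz.le`), so by `A_pol` `P_i.nextCoeff = s`, `P.nextCoeff = j s` for some `s ∈ B`; `s = - M_i e (tr ρ₀ (c i))` and `j s = - M_i tr ρ (c i)`, so `tr ρ (c i) = j (e (tr ρ₀ (c i)))` because
`M_i ≠ 0` in `k`. -/
def A_fam : Prop := ∀ (G : Type) [Group G] [Group.FG G] (a b : ℤ), b ^ 2 + 4 * a < 0 →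
  ∀ ρ₀ : G →* GQ a b, (∀ L : Subgroup G, L.FiniteIndex → IrC L ρ₀) →
  ∀ (n : ℕ) (c : Fin n → G) (L : Fin n → Subgroup G) (hc : ∀ i, c i ∈ L i)
  (nL : ∀ i, L i →* Multiplicative ℤ) (N : Fin n → ℕ) (M : Fin n → ℤ),
  (∀ i, (L i).FiniteIndex) → (∀ i, M i ≠ 0) → (∀ i, PolD (c i) (L i) (hc i) (nL i) (N i) (M i)) →
  ∃ (B : Type) (_ : CommRing B) (_ : IsDomain B) (_ : Module.Finite ℤ B)
    (e : Qf a b ℤ →+* B) (n' : ℕ) (t : Fin n' → TT G B), Function.Injective e ∧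
  (∀ i, ∃ (j : Fin n) (m : ℕ) (τ : Bˣ), t i = ⟨L j, nL j, m, τ⟩) ∧
  (∀ j : Fin n, ∃ i, (t i).L = L j) ∧
  (∀ i, ∃ z : Fin (3 * (t i).m) → (t i).L → Matrix (Fin 2) (Fin (t i).m) B,
    (∀ b, z b ∈ Zc (t i).nL (t i).m ((SLm e).comp (ρ₀.comp (t i).L.subtype))
      (jorG (t i).m (t i).τ)) ∧ LinearIndependent B z) ∧
  ∃ M₀ : ℤ, M₀ ≠ 0 ∧ ∀ (k : Type) [Field k] [Finite k], (M₀ : k) ≠ 0 → ∀ (j : B →+* k)
    (ρ : G →* SL2 k), (∀ i, IrC (t i).L ρ) → (∀ i, (t i).Pass j ρ) →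
    ∀ i, tr (ρ (c i)) = j (e (tr (ρ₀ (c i))))

/-- `α x_i` is the inverse of a positive word, for all `i`, and `α²` is positive. -/
structure Neg {ι : Type} (α : MulAut (FreeGroup ι)) (v w : ι → List ι) (i₀ : ι) : Prop where
  /-- `α x_i = (v i)⁻¹` -/
  eq : ∀ i, α (FreeGroup.of i) = (BG.pw (v i))⁻¹
  /-- the words of the square -/
  sq : ∀ i, w i = (v i).reverse.flatMap v
  /-- the square is positive -/
  pos : Pos (α ^ 2) w
  /-- the letter `i₀` -/
  hd : (w i₀).head? = some i₀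

/-- A finite family of elements of `G` with a trace formula which determines the representation `ρ₀`. -/
def Fam {G : Type} [Group G] (nG : G →* Multiplicative ℤ) (a b : ℤ) (ρ₀ : G →* GQ a b) : Prop :=
  ∃ (n : ℕ) (c : Fin n → G) (L : Fin n → Subgroup G) (hc : ∀ i, c i ∈ L i)
    (nL : ∀ i, L i →* Multiplicative ℤ) (N : Fin n → ℕ) (M : Fin n → ℤ), 0 < n ∧
  (∀ i, (L i).FiniteIndex) ∧ (∀ i, M i ≠ 0) ∧
  (∀ i, PolD (c i) (L i) (hc i) (nL i) (N i) (M i)) ∧
  (∀ i, ∃ k : ℕ, 1 ≤ k ∧ ∀ x : L i, nG x = nL i x ^ k) ∧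
  (∃ x y : G, tr (ρ₀ (x * y * x⁻¹ * y⁻¹)) ≠ 2) ∧
  ∃ M₁ : ℤ, M₁ ≠ 0 ∧ ∀ (k : Type) [Field k], (M₁ : k) ≠ 0 → ∀ (j : Qf a b ℤ →+* k)
    (ρ : G →* SL2 k), (∀ i, tr (ρ (c i)) = j (tr (ρ₀ (c i)))) →
    ∀ g, tr (ρ g) = j (tr (ρ₀ g))

/-- [CG thF] a family of elements with a trace formula which determines the representation, positive case. (Uses `A_one`, `A_gns`, `A_smg`, `A_fri`, `A_alf`.)

Proof. (This is the first part of the proof of `A_th`.) `S` from `A_gns`, `S'` = the set of all `c ∈ D` which are loops with nonempty prefix at `i₀`, a semigroup (`A_smg`) which contains `S` and generates `D`. By `A_alf` there are `x, y ∈ S'` with `tr ρ₀ [x, y] ≠ 2` (use the field of fractions of `Qf a b ℤ`, `BG.Qf_domain`). The family consists of `x, y, x y`, `s, s x, s y, s x y`, `s ∈ S`; `A_one` gives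
`L`, `nL`, `N`, `M`. Last claim: `A_fri` for `SLm j ∘ ρ₀` and `ρ`; the element `δ = tr ρ₀ [x, y] - 2` of `Qf a b ℤ` divides a non-zero integer `M₁` (its norm: `BG.mul_cjq`). -/
def A_thF : Prop := ∀ (ι : Type) [Finite ι] (α : MulAut (FreeGroup ι)) (w : ι → List ι) (i₀ : ι),
  Pos α w → (w i₀).head? = some i₀ → ∀ D : Subgroup (GR α), D.FiniteIndex → ∀ a b : ℤ,
  b ^ 2 + 4 * a < 0 → ∀ ρ₀ : D →* GQ a b, (∀ L : Subgroup D, L.FiniteIndex → IrC L ρ₀) →
  Fam (nD D) a b ρ₀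

/-- [CG opm] the polynomial `P` for elements of odd level, `α x_i` negative. (Uses `A_inj`, `A_trq`, `A_z1`, `A_jor`; compare `P_ub.lean`, `P_tf.lean`, `P_itg.lean`, `P_op.lean`.)

Proof. As `A_op`, with the operator `Um` on `ι → (GR α ⧸ L) → V`, `(Um f)_i = - ∑_p indA L σ (t⁻¹ (x_l suf_p)⁻¹) f_l`, the sum over the positions `p` of the word `v i = pre_p ++ l :: suf_p`: for the crossed homomorphism `z_f : F → W` with `z_f x_i = f_i` we have `z_f (α x_i) = z_f ((pw (v i))⁻¹) = - (pw (v i))⁻¹ z_f (pw (v i)) = - ∑_p (pw (v i))⁻¹ pre_p f_l` and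
`(pw (v i))⁻¹ pre_p = (x_l suf_p)⁻¹`; so `Um f = (t⁻¹ z_f (α x_i))_i`, and everything in the pieces ub, z1, itg, trq uses only this property of the operator (prove these facts again for `Um` in place of `Uop`; `A_trq`, `A_z1` are stated for `Uop`, their proofs carry over: copy the files). `Um (dlt φ) = dlt (indA t⁻¹ φ)`. The trace: the trace of `Um` is minus the sum over the triples `(i, p, x)`, `l = i`, `x` fixed by
`t⁻¹ (x_i suf_p)⁻¹`, of the traces of `σ (s(x)⁻¹ t⁻¹ (x_i suf_p)⁻¹ s(x))`, and the trace of `indA t⁻¹` is the sum over the fixed points `x` of `t` of the traces of `σ (s(x)⁻¹ t⁻¹ s(x))`; by hypothesis all these traces are equal to `T₀ = tr (ρ c)`. So the trace of the operator on `Xq` is `- (number of the triples + number of the fixed points) T₀`, and there is at least one triple, by the hypothesis on `c`: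
`M = - (..) ≤ -1`. -/
def A_opm : Prop := ∀ (ι : Type) [Finite ι] (α : MulAut (FreeGroup ι)) (v : ι → List ι),
  (∀ i, α (FreeGroup.of i) = (BG.pw (v i))⁻¹) → ∀ L : Subgroup (GR α),
  L.FiniteIndex → ∀ (i₁ : ι) (u₁ v₁ : List ι), v i₁ = u₁ ++ i₁ :: v₁ →
  ∀ hc : (tR α)⁻¹ * (iR α (BG.pw (i₁ :: v₁)))⁻¹ ∈ L, ∃ (N : ℕ) (M : ℤ), M ≠ 0 ∧
  ∀ (K : Type) [Field K]
  (ρ : L →* SL2 K), (∀ f : Fin 2 → K, (∀ x : L, nR α x = 1 → s2E ρ x f = f) → f = 0) →
  (∀ (y : GR α) (i : ι) (u u' : List ι), v i = u ++ i :: u' →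
    ∀ h : y⁻¹ * ((tR α)⁻¹ * (iR α (BG.pw (i :: u')))⁻¹) * y ∈ L,
    tr (ρ ⟨_, h⟩) = tr (ρ ⟨_, hc⟩)) →
  (∀ (y : GR α) (h : y⁻¹ * (tR α)⁻¹ * y ∈ L), tr (ρ ⟨_, h⟩) = tr (ρ ⟨_, hc⟩)) →
  ∃ P : Polynomial K, IsPz ((nR α).comp L.subtype) N M ρ ⟨_, hc⟩ P

/-- [CG sepE] the choice of the subgroup, general version.

Proof. As `A_sep` (`P_sep.lean`), with the finite set `E` in place of the elements `t^-k u`. -/
def A_sepE : Prop := ∀ (ι : Type) [Finite ι] (α : MulAut (FreeGroup ι))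
  (D : Subgroup (GR α)), D.FiniteIndex → ∀ (E : Set (GR α)), E.Finite → ∀ c : D,
  ∃ F₂ : Subgroup (GR α), F₂ ≤ D ∧
  (∀ g ∈ F₂, nR α g = 1) ∧ (∀ d ∈ D, ∀ g ∈ F₂, d * g * d⁻¹ ∈ F₂) ∧
  (F₂.comap (iR α)).FiniteIndex ∧
  ∀ (y : GR α), ∀ g ∈ E, ∀ h : y⁻¹ * g * y ∈ D, y⁻¹ * g * y * (c : GR α)⁻¹ ∈ F₂ →
    PConj (⟨_, h⟩ : D) c

/-- [CG onem] the trace formula for an element of odd level, `α ^ k x_i` negative. (Uses `A_opm`, `A_sepE`.)

Proof. As `A_one` (`P_one.lean`; `one_fin`, `one_emb_inj`, `one_emb_surj`, `one_transport`), with `E = {t^-k} ∪ {t^-k (pw (i :: u'))⁻¹ | v' i = u ++ i :: u'}` (finite), `A_opm` for `α ^ k`, `v'`, `L' = L.comap (emb α k)`. -/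
def A_onem : Prop := ∀ (ι : Type) [Finite ι] (α : MulAut (FreeGroup ι)) (D : Subgroup (GR α)),
  D.FiniteIndex → ∀ (k : ℕ) (v' : ι → List ι), 1 ≤ k →
  (∀ i, (α ^ k) (FreeGroup.of i) = (BG.pw (v' i))⁻¹) → ∀ (i₁ : ι) (u s : List ι),
  v' i₁ = u ++ i₁ :: s → ∀ c : D, (c : GR α) = (tR α ^ k)⁻¹ * (iR α (BG.pw (i₁ :: s)))⁻¹ →
  ∃ (L : Subgroup D) (hc : c ∈ L) (nL : L →* Multiplicative ℤ) (N : ℕ) (M : ℤ),
  L.FiniteIndex ∧ M ≠ 0 ∧ PolD c L hc nL N M ∧ ∀ x : L, nD D x = nL x ^ k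

/-- [CG odd] a loop of odd level with nonzero trace. (Uses `BG.S_i1`, `BG.S_i2`, `A_gns`, `A_smg`.)

Proof. `v^(2m+1) i = (v i).flatMap (itw w m)`: `α^(2m+1) x_i = (pw (v^(2m+1) i))⁻¹` (`α² x_i = pw (w i)`, `R_lp` for `α²`). (1) There is a loop of odd level: `X = GR α ⧸ D` is a transitive set for `GR (α ^ 2)` (via `emb α 2`), because `D` contains an element with odd `n`; so by (1) of the proof of `A_gn2` (see `gen_conn` in `P_gen.lean`, `P_gn2.lean`), for `α ^ 2`, every edge `(y, j)` of `X` can be connected with every edge by positive steps: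
`y' = (pw u')⁻¹ t^(2m) y`, `itw w m j = u' ++ j' :: s'`. Let `v i₀ = pre ++ l :: suf` be any position, `y = pw (l :: suf) t o` (`o` the base point), and connect `(y, l)` with `(o, i₀)`: `o = (pw u')⁻¹ t^(2m) pw (l :: suf) t o = pw (i₀ :: s'') t^(2m+1) o` with `s'' = s' ++ suf.flatMap (itw w m)`, so `c₀ = t^-k (pw (i₀ :: s''))⁻¹ ∈ D`, `k = 2m + 1`, and
`v^(k) i₀ = .. ++ i₀ :: s''`. (2) Let `S` be the semigroup of the loops `d = t^-2l pw u`, `u ≠ []`, `itw w l i₀ = u ++ i₀ :: s`, `l ≥ 1`, in `D` (`A_gns`, `A_smg` for `α ^ 2` and `D.comap (emb α 2)`); it generates `{g ∈ D | n(g) even}`. Then `d c₀ = t^-(2l+k) (pw (i₀ :: s'' ++ u.reverse.flatMap v^(k)))⁻¹` is again of this form: `α^(k+2l) x_(i₀) = α^k (pw (u ++ i₀ :: s))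
= (pw ((u ++ i₀ :: s).reverse.flatMap v^(k)))⁻¹`, and `(u ++ i₀ :: s).reverse.flatMap v^(k) = .. ++ v^(k) i₀ ++ u.reverse.flatMap v^(k)` (take as `v'` for the level `k + 2 l` the words `(itw w l i).reverse.flatMap v^(k)`). (3) Suppose `tr ρ₀(d c₀) = 0` for all `d ∈ S`. The span `A` over the field of fractions of the `ρ₀ d`, `d ∈ S`, is closed under multiplication, contains
`1 = tr(d) d - d²` and the inverses `tr(d) - d`, so it contains `ρ₀` of the generated group; this contains `x, y` with `tr [x, y] ≠ 2`, so `1, X, Y, X Y` is a basis of the space of matrices and `A` is everything; so `tr (Z ρ₀ c₀) = 0` for all matrices `Z`, contradiction. -/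
def A_odd : Prop := ∀ (ι : Type) [Finite ι] (α : MulAut (FreeGroup ι)) (v w : ι → List ι) (i₀ : ι),
  Neg α v w i₀ → ∀ D : Subgroup (GR α), D.FiniteIndex →
  (∃ g ∈ D, ¬ Even (Multiplicative.toAdd (nR α g))) → ∀ a b : ℤ,
  b ^ 2 + 4 * a < 0 → ∀ ρ₀ : D →* GQ a b, (∀ L : Subgroup D, L.FiniteIndex → IrC L ρ₀) →
  ∃ (k : ℕ) (v' : ι → List ι) (u s : List ι) (c : D), Odd k ∧
  (∀ i, (α ^ k) (FreeGroup.of i) = (BG.pw (v' i))⁻¹) ∧ v' i₀ = u ++ i₀ :: s ∧
  (c : GR α) = (tR α ^ k)⁻¹ * (iR α (BG.pw (i₀ :: s)))⁻¹ ∧ tr (ρ₀ c) ≠ 0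

/-- [CG sgn] removing the sign. (Compare `P_fri.lean`.)

Proof. As in `A_fri` there is an automorphism `φ` of the algebra of the `2 × 2` matrices which preserves the trace, with `φ (ρ h) = ρ' h` for `h ∈ H` (`1, X, Y, X Y` for `X = ρ x`, `Y = ρ y` is a basis; the traces determine the multiplication table). For `g ∈ G`, `h ∈ H`: `ρ'(g) ρ'(h) ρ'(g)⁻¹ = ρ'(g h g⁻¹) = φ(ρ(g h g⁻¹)) = φ(ρ g) ρ'(h) φ(ρ g)⁻¹` (`H` is normal, index two), so
`φ(ρ g)⁻¹ ρ'(g)` commutes with `ρ'(H)`, which contains a basis, so it is a scalar `ε(g) = ± 1` (determinant), multiplicative in `g`, trivial on `H`; `tr ρ'(g) = ε(g) tr ρ(g)`. For `g = c` we get `ε(c) = 1`, and `G = H ∪ c H`. (If the characteristic is two there is nothing to prove.) -/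
def A_sgn : Prop := ∀ (G K : Type) [Group G] [Field K] (ρ ρ' : G →* SL2 K) (H : Subgroup G),
  H.index = 2 → (∀ h ∈ H, tr (ρ h) = tr (ρ' h)) →
  (∃ x ∈ H, ∃ y ∈ H, tr (ρ (x * y * x⁻¹ * y⁻¹)) ≠ 2) → ∀ c : G, c ∉ H →
  tr (ρ c) = tr (ρ' c) → tr (ρ c) ≠ 0 → ∀ g, tr (ρ g) = tr (ρ' g)

/-- [CG thFm] a family which determines the representation, negative case. (Uses `A_thF`, `A_odd`, `A_onem`, `A_sgn`.)

Proof. Let `D' = D.comap (emb α 2)`, isomorphic to `D_ev = {g ∈ D | n(g) even}`. `A_thF` for `α ^ 2`, `w`, `D'` and the restriction of `ρ₀` gives `Fam` for `D'`, and for `D_ev` (transport along the isomorphism; `n = 2 n'`, `k` is replaced by `2 k`; `hirr` for subgroups of finite index of `D'`). If `D = D_ev` this is the claim. Otherwise `D_ev` has index two in `D`. The family of `D_ev` is a family of elements of `D`,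
with the subgroups `L i` as subgroups of `D`; `PolD` for `D`: if `c'`, `c` are profinitely conjugate in `D_ev` then they are in `D` (restrict the homomorphisms), so the hypothesis of `PolD` for `D` implies the one for `D_ev`. Add the element `c` of `A_odd` with `L`, `nL`, `N`, `M` from `A_onem`. Last condition: let `M₁` be the product of the number for `D_ev` and of non-zero integers divisible by
`tr ρ₀ c` and `tr ρ₀ [x, y] - 2` (norms, `BG.mul_cjq`), `x, y ∈ D_ev`. Let `ρ` be given; the traces agree on `D_ev`, and `tr ρ(c) = j (tr ρ₀ c) ≠ 0`; `A_sgn`. -/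
def A_thFm : Prop := ∀ (ι : Type) [Finite ι] (α : MulAut (FreeGroup ι)) (v w : ι → List ι) (i₀ : ι),
  Neg α v w i₀ → ∀ D : Subgroup (GR α), D.FiniteIndex → ∀ a b : ℤ,
  b ^ 2 + 4 * a < 0 → ∀ ρ₀ : D →* GQ a b, (∀ L : Subgroup D, L.FiniteIndex → IrC L ρ₀) →
  Fam (nD D) a b ρ₀

/-- [CG TH] MAIN RESULT of block A: the hypotheses of the transfer. (Uses `A_fam`, `T_ind`.)

Proof. `A_fam` for the family: `B`, `e`, the tests `t i = ⟨L j, nL j, m, τ⟩`. The test `t' i : Tst G B` is `⟨L j, _, m, (zpowersHom _ u).comp (nL j), 3 * m⟩` with `u = (jorG m τ)⁻¹`. A homomorphism `Θ : L → Q3 m R` with `pH ∘ Θ = ρ|L`, `qH ∘ Θ = (GLm j) ∘ A` is the same as an element `z x = (Θ x).v` of `Zc nL m (ρ|L) (jorG m (j τ))`: `(Θ (x y)).v = (Θ x).v + ρ x (Θ y).v (q x)⁻¹`, `(q x)⁻¹ = (jorG m (j τ)) ^ nL x`. `pos`: there is a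
test for every `L j`. `ex`: `HT.irr` from `hirr`; the `z b` of `A_fam` are linearly independent over `B`, so over the field of fractions, and `T_ind` gives points with nonzero determinant (`dt_map`). `un`: `M = |M₀ M₁|`; for `ρ` over the finite field `k` passing the tests: `IrC`, and the `3 m` elements of `Zc` are linearly independent (`T_ind`), so `Pass` (if `Zc` is finite dimensional: `L` is finitely
generated, `k` is finite); so `tr ρ (c i) = j (e (tr ρ₀ (c i)))` and `Fam` for `j.comp e`. `B` is free over `ℤ` (finite, torsion free). `MT`: `nG x = nL x ^ k`. -/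
def A_TH : Prop := ∀ (G : Type) [Group G] [Group.FG G] (nG : G →* Multiplicative ℤ) (a b : ℤ),
  b ^ 2 + 4 * a < 0 → ∀ ρ₀ : G →* GQ a b, (∀ L : Subgroup G, L.FiniteIndex → IrC L ρ₀) →
  Fam nG a b ρ₀ → ∃ (B : Type) (_ : CommRing B) (_ : IsDomain B) (_ : Module.Free ℤ B)
    (_ : Module.Finite ℤ B) (e : Qf a b ℤ →+* B) (N : ℕ) (t : Fin N → Tst G B), TH ρ₀ e t ∧
  ∀ i, ∃ (L : Subgroup G) (hL : L.FiniteIndex) (k : ℕ) (nL : L →* Multiplicative ℤ) (m : ℕ)
    (u : GL (Fin m) B) (d : ℕ), 1 ≤ k ∧ (∀ x : L, nG x = nL x ^ k) ∧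
    t i = ⟨L, hL, m, (zpowersHom (GL (Fin m) B) u).comp nL, d⟩

/-- [CG rm3] regularity, negative case. (Uses `A_rm2`; compare `P_rm2.lean`.)

Proof. Let `D' = D.comap (emb α 2)`, isomorphic to `D_ev = {g ∈ D | n(g) even}`, of index at most two in `D`. `A_rm2` for `α ^ 2`, `w`, `D'` and the corresponding subgroup `Λ_ev` of `Λ` (`natBij_comap`, the kernel of `n` modulo `2`) gives `n₀ : Λ_ev → ℤ` which corresponds to `n / 2`; for `l ∈ Λ` we have `l ^ 2 ∈ Λ_ev`, and the argument at the end of the proof of `A_rm2` (`s = 2`, `k = 2 n₀(l^2)`) gives `n'(l)`. -/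
def A_rm3 : Prop := ∀ (ι : Type) [Finite ι] (α : MulAut (FreeGroup ι)) (v w : ι → List ι) (i₀ : ι),
  Neg α v w i₀ → ∀ D : Subgroup (GR α), D.FiniteIndex →
  ∀ (Λ : Type) [Group Λ] [Group.FG Λ] (Φ : NatBij D Λ),
  ∃ n' : Λ →* Multiplicative ℤ, ∀ (m : ℕ) [NeZero m],
    Φ.toFun _ ((redZ m).comp (nD D)) = (redZ m).comp n'

end

end Pool.Agent.F8.CG
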