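import Pool.Agent.Lib.MP_305fdd_al.F8.CG.Five
import Pool.Agent.Lib.MP_305fdd_al.F8.CG.StmA3

/-!
# MP_305fdd_al, project CG: more properties of the data of the five rings

`Scal M₁ G₀`: the matrices which are scalar modulo `M₁` are in `G₀`. `fiveP`: for the five rings there are data with this property.
-/

set_option autoImplicit false

namespace Pool.Agent.F8.BG

open Pool.Agent.MP_305fdd_al Pool.Agent.Lib.MP_305fdd_al Pool.Agent.F8
open scoped QuadraticAlgebra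

/-- the matrices which are scalar modulo `M₁` are in `G₀` -/
def Scal {a b : ℤ} (M₁ : ℕ) (G₀ : Subgroup (GQ a b)) : Prop :=
  ∀ x : GQ a b, (∃ ε : Qf a b (ZMod M₁), ε * ε = 1 ∧ (rdq a b M₁ x).val = ε • 1) → x ∈ G₀

/-- the entries of a matrix which is scalar modulo `M₁` -/
theorem scal_entries {a b : ℤ} {M₁ : ℕ} {x : GQ a b} {ε : Qf a b (ZMod M₁)}
    (h : (rdq a b M₁ x).val = ε • 1) :
    (rdq a b M₁ x).val 0 0 = ε ∧ (rdq a b M₁ x).val 0 1 = 0 ∧ (rdq a b M₁ x).val 1 0 = 0 ∧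
    (rdq a b M₁ x).val 1 1 = ε := by
  rw [h]
  refine ⟨?_, ?_, ?_, ?_⟩ <;> simp [Matrix.smul_apply]

/-- the coordinates of the square roots of one -/
theorem sq_one_coord {a b : ℤ} {m : ℕ} {ε : Qf a b (ZMod m)} (h : ε * ε = 1) :
    ε.re * ε.re + (a : ZMod m) * ε.im * ε.im = 1 ∧
    ε.re * ε.im + ε.im * ε.re + (b : ZMod m) * ε.im * ε.im = 0 := by
  have h1 := congrArg QuadraticAlgebra.re h
  have h2 := congrArg QuadraticAlgebra.im h
  rw [QuadraticAlgebra.re_mul] at h1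
  rw [QuadraticAlgebra.im_mul] at h2
  exact ⟨h1, h2⟩

/-! ### `d = 1` -/

theorem scal1_fin : ∀ u v : ZMod 4, u * u + ((-1 : ℤ) : ZMod 4) * v * v = 1 →
    u * v + v * u + ((0 : ℤ) : ZMod 4) * v * v = 0 → 2 * u = 2 ∧ 2 * v = 0 := by decide

theorem scal1 : Scal (a := -1) (b := 0) 4 PIC.G5 := by
  rintro x ⟨ε, h, hx⟩
  obtain ⟨e00, e01, e10, e11⟩ := scal_entries hx
  obtain ⟨s1, s2⟩ := sq_one_coord h
  obtain ⟨t1, t2⟩ := scal1_fin _ _ s1 s2
  have k00 : (PIC.rd 4 x).val 0 0 = ⟨ε.re, ε.im⟩ := e00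
  have k01 : (PIC.rd 4 x).val 0 1 = ⟨0, 0⟩ := e01
  have k10 : (PIC.rd 4 x).val 1 0 = ⟨0, 0⟩ := e10
  show PIC.rd 4 x ∈ PIC.A5
  refine ⟨?_, ?_, ?_⟩
  · rw [k00]
    apply QuadraticAlgebra.ext
    · simpa using t1
    · simpa using t2
  · rw [k10]; decide
  · rw [k01, k10]; decide

/-! ### `d = 2` -/

theorem scal2 : Scal (a := -2) (b := 0) 18 D2.G0 := by
  rintro x ⟨ε, h, hx⟩
  obtain ⟨e00, e01, e10, e11⟩ := scal_entries hx
  rw [D2.mem_G0, D2.mem_A0]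
  constructor
  · show 3 * D2.cR (D2.r9 x) = 0
    rw [D2.r9_eq]
    show 3 * (evq (-2) 0 (ZMod.castHom (by decide : 9 ∣ 18) (ZMod 9)) 5 (by decide)
        ((rdq (-2) 0 18 x).val 0 0) -
      evq (-2) 0 (ZMod.castHom (by decide : 9 ∣ 18) (ZMod 9)) 5 (by decide)
        ((rdq (-2) 0 18 x).val 0 1) +
      evq (-2) 0 (ZMod.castHom (by decide : 9 ∣ 18) (ZMod 9)) 5 (by decide)
        ((rdq (-2) 0 18 x).val 1 0) -
      evq (-2) 0 (ZMod.castHom (by decide : 9 ∣ 18) (ZMod 9)) 5 (by decide)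
        ((rdq (-2) 0 18 x).val 1 1)) = 0
    rw [e00, e01, e10, e11, map_zero]
    ring
  · show (D2.r2 x).val 1 0 = 0
    rw [D2.r2_eq]
    show evq (-2) 0 (ZMod.castHom (by decide : 2 ∣ 18) (ZMod 2)) 0 (by decide)
        ((rdq (-2) 0 18 x).val 1 0) = 0
    rw [e10, map_zero]

/-! ### `d = 3` -/

namespace Five3

theorem scal3_fin : ∀ u v : ZMod 8, u * u + ((-1 : ℤ) : ZMod 8) * v * v = 1 →
    u * v + v * u + ((-1 : ℤ) : ZMod 8) * v * v = 0 →
    (ZMod.castHom (by decide : 4 ∣ 8) (ZMod 4) u = 1 ∨ ZMod.castHom (by decide : 4 ∣ 8) (ZMod 4) u = -1) ∧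
    ZMod.castHom (by decide : 4 ∣ 8) (ZMod 4) v = 0 := by decide

/-- `SL₂(ℤ[ω])` modulo four factors over the reduction modulo eight -/
theorem r4_entry (x : GQ (-1) (-1)) (i k : Fin 2) :
    ((r4 (x : SL2 O)).val i k).re = ZMod.castHom (by decide : 4 ∣ 8) (ZMod 4)
      ((rdq (-1) (-1) 8 x).val i k).re ∧
    ((r4 (x : SL2 O)).val i k).im = ZMod.castHom (by decide : 4 ∣ 8) (ZMod 4)
      ((rdq (-1) (-1) 8 x).val i k).im := by
  constructor
  · show ((x.val i k).re : ZMod 4) = ZMod.castHom _ (ZMod 4) ((x.val i k).re : ZMod 8)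
    rw [map_intCast]
  · show ((x.val i k).im : ZMod 4) = ZMod.castHom _ (ZMod 4) ((x.val i k).im : ZMod 8)
    rw [map_intCast]

theorem mem_G3' {Ψ : Npre →* N2} (hΨ : ∀ x : Npre, G.Th (Ψ x) = G.pj x.val) {x : SL2 O}
    (hx : x ∈ Npre) (h : r4 x = 1 ∨ r4 x = -1) : x ∈ G3 Ψ := by
  refine ⟨hx, ?_⟩
  rcases h with h | h
  · obtain ⟨g', hg'⟩ := N2_of (hΨ ⟨x, hx⟩) 1 (by rw [h, map_one, map_one])
    rw [hg']; rfl
  · obtain ⟨g', hg'⟩ := N2_of (x := -x) ((hΨ ⟨x, hx⟩).trans (G.pj_neg x).symm) 1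
      (by rw [r4_neg, h, map_one, map_one, neg_neg])
    rw [hg']; rfl

theorem scal {Ψ : Npre →* N2} (hΨ : ∀ x : Npre, G.Th (Ψ x) = G.pj x.val) :
    Scal (a := -1) (b := -1) 8 (G3 Ψ) := by
  rintro x ⟨ε, h, hx⟩
  obtain ⟨e00, e01, e10, e11⟩ := scal_entries hx
  obtain ⟨s1, s2⟩ := sq_one_coord h
  obtain ⟨t1, t2⟩ := scal3_fin _ _ s1 s2
  have k00 := r4_entry x 0 0
  have k01 := r4_entry x 0 1
  have k10 := r4_entry x 1 0
  have k11 := r4_entry x 1 1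
  rw [e00] at k00
  rw [e01] at k01
  rw [e10] at k10
  rw [e11] at k11
  have h4 : r4 (x : SL2 O) = 1 ∨ r4 (x : SL2 O) = -1 := by
    rcases t1 with t1 | t1
    · left
      apply G.SL_ext
      · rw [G.one00]; exact QuadraticAlgebra.ext (k00.1.trans t1) (k00.2.trans t2)
      · rw [G.one01]; exact QuadraticAlgebra.ext (k01.1.trans (map_zero _)) (k01.2.trans (map_zero _))
      · rw [G.one10]; exact QuadraticAlgebra.ext (k10.1.trans (map_zero _)) (k10.2.trans (map_zero _))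
      · rw [G.one11]; exact QuadraticAlgebra.ext (k11.1.trans t1) (k11.2.trans t2)
    · right
      apply G.SL_ext
      · rw [G.SL_neg, G.one00]
        exact QuadraticAlgebra.ext (k00.1.trans t1) (k00.2.trans (t2.trans (by decide)))
      · rw [G.SL_neg, G.one01, neg_zero]
        exact QuadraticAlgebra.ext (k01.1.trans (map_zero _)) (k01.2.trans (map_zero _))
      · rw [G.SL_neg, G.one10, neg_zero]
        exact QuadraticAlgebra.ext (k10.1.trans (map_zero _)) (k10.2.trans (map_zero _))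
      · rw [G.SL_neg, G.one11]
        exact QuadraticAlgebra.ext (k11.1.trans t1) (k11.2.trans (t2.trans (by decide)))
  refine mem_G3' hΨ ?_ h4
  have h2 : r2 x = SLm (Qd.map (-1) (ZMod.castHom (by decide : 2 ∣ 4) (ZMod 2))) (r4 x) := by
    apply G.SL_ext <;>
    · show Qd.map (-1) _ _ = Qd.map (-1) _ (Qd.map (-1) _ _)
      rw [Qd.map_apply, Qd.map_apply, Qd.map_apply]
      apply QuadraticAlgebra.ext <;> simp
  show r2 x ∈ D5
  rw [h2]
  rcases h4 with h4 | h4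
  · rw [h4, map_one]
    exact D5.one_mem
  · rw [h4]
    have h5 : SLm (Qd.map (-1) (ZMod.castHom (by decide : 2 ∣ 4) (ZMod 2))) (-1 : SL2 E4) = 1 := by
      apply G.SL_ext
      · show Qd.map (-1) _ ((-1 : SL2 E4).val 0 0) = _
        rw [G.SL_neg, G.one00, G.one00]; decide
      · show Qd.map (-1) _ ((-1 : SL2 E4).val 0 1) = _
        rw [G.SL_neg, G.one01, G.one01]; decide
      · show Qd.map (-1) _ ((-1 : SL2 E4).val 1 0) = _
        rw [G.SL_neg, G.one10, G.one10]; decide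
      · show Qd.map (-1) _ ((-1 : SL2 E4).val 1 1) = _
        rw [G.SL_neg, G.one11, G.one11]; decide
    rw [h5]
    exact D5.one_mem

end Five3

/-! ### `d = 7` -/

theorem scal7 : Scal (a := -2) (b := -1) 4 PIC7.G6 := by
  rintro x ⟨ε, h, hx⟩
  obtain ⟨e00, e01, e10, e11⟩ := scal_entries hx
  have h1 : PIC7.r4 x = SLm (evq (-2) (-1) (RingHom.id (ZMod 4)) 2 (by decide)) (rdq (-2) (-1) 4 x) := by
    apply G.SL_ext <;> rfl
  have h2 : PIC7.r2 x = SLm (evq (-2) (-1) (ZMod.castHom (by decide : 2 ∣ 4) (ZMod 2)) 1 (by decide))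
      (rdq (-2) (-1) 4 x) := by
    apply G.SL_ext <;>
    · show evq (-2) (-1) (Int.castRingHom (ZMod 2)) 1 (by decide) _ =
        evq (-2) (-1) (ZMod.castHom (by decide : 2 ∣ 4) (ZMod 2)) 1 (by decide) (Qfm (-2) (-1) _ _)
      rw [evq_apply, evq_apply, Qfm_apply]
      simp
  have h3 : PIC7.r2 x = 1 := by
    have h4 : ∀ e : ZMod 2, e * e = 1 → e = 1 := by decide
    have h5 : evq (-2) (-1) (ZMod.castHom (by decide : 2 ∣ 4) (ZMod 2)) 1 (by decide) ε = 1 := by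
      apply h4
      rw [← map_mul, h, map_one]
    rw [h2]
    apply G.SL_ext
    · rw [G.one00]
      show evq (-2) (-1) (ZMod.castHom (by decide : 2 ∣ 4) (ZMod 2)) 1 (by decide) ((rdq (-2) (-1) 4 x).val 0 0) = 1
      rw [e00]; exact h5
    · rw [G.one01]
      show evq (-2) (-1) (ZMod.castHom (by decide : 2 ∣ 4) (ZMod 2)) 1 (by decide) ((rdq (-2) (-1) 4 x).val 0 1) = 0
      rw [e01, map_zero]
    · rw [G.one10]
      show evq (-2) (-1) (ZMod.castHom (by decide : 2 ∣ 4) (ZMod 2)) 1 (by decide) ((rdq (-2) (-1) 4 x).val 1 0) = 0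
      rw [e10, map_zero]
    · rw [G.one11]
      show evq (-2) (-1) (ZMod.castHom (by decide : 2 ∣ 4) (ZMod 2)) 1 (by decide) ((rdq (-2) (-1) 4 x).val 1 1) = 1
      rw [e11]; exact h5
  show PIC7.r42 x ∈ PIC7.A6
  rw [PIC7.r42_apply, PIC7.mem_A6, h3, PIC7.sx_one, h1]
  show 2 * evq (-2) (-1) (RingHom.id (ZMod 4)) 2 (by decide) ((rdq (-2) (-1) 4 x).val 0 1) +
    evq (-2) (-1) (RingHom.id (ZMod 4)) 2 (by decide) ((rdq (-2) (-1) 4 x).val 1 0) = 0
  rw [e01, e10, map_zero]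
  ring

/-! ### `d = 11` -/

theorem scal11 : Scal (a := -3) (b := 1) 2 D11.G0 := by
  rintro x ⟨ε, h, hx⟩
  show D11.r2 x * D11.s5 = D11.s5 * D11.r2 x
  have h1 : (D11.r2 x).val = ε • 1 := hx
  apply Subtype.ext
  show (D11.r2 x).val * D11.s5.val = D11.s5.val * (D11.r2 x).val
  rw [h1, Matrix.smul_mul, Matrix.mul_smul, Matrix.one_mul, Matrix.mul_one]

/-! ### The record -/

/-- the data exist, with `Scal` and the two cases of the sign -/
def HasDatP (a b : ℤ) : Prop := ∃ (ι : Type) (_ : Finite ι) (α : MulAut (FreeGroup ι)) (N : ℕ)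
  (w : ι → List ι) (M : ℕ) (c g : FreeGroup ι) (G₀ : Subgroup (GQ a b)) (η : G₀ →* GR α),
  Dat α N w M c g G₀ η ∧
  ((∃ i₀, Pos α w ∧ (w i₀).head? = some i₀) ∨ ∃ (v : ι → List ι) (i₀ : ι), CG.Neg α v w i₀) ∧
  ∃ M₁ : ℕ, M₁ ≠ 0 ∧ Scal M₁ G₀

theorem pos_pow_one {ι : Type} {α : MulAut (FreeGroup ι)} {w : ι → List ι} (h : Pos (α ^ 1) w) :
    Pos α w := by rwa [pow_one] at h

theorem dat1 : HasDatP (-1) 0 := by
  obtain ⟨η, h⟩ := PIC.p_eta (PIC.p_e1 PIC.p_f5) (PIC.p_e2 (PIC.p_e1 PIC.p_f5))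
  exact ⟨Fin 2, inferInstance, _, _, _, _, _, _, _, _, Five1.dat h,
    Or.inl ⟨0, pos_pow_one Five1.pos, rfl⟩, 4, by decide, scal1⟩

theorem dat2 : HasDatP (-2) 0 := by
  obtain ⟨η, h⟩ := D2.exEta
  exact ⟨Fin 5, inferInstance, _, _, _, _, _, _, _, _, Five2.dat h,
    Or.inr ⟨Five2.v2, 4, fun i => by
      rw [Five2.neg2, Units.val_neg, Units.val_one, zpow_neg_one], by decide, D2.pos2, rfl⟩,
    18, by decide, scal2⟩

theorem dat3 : HasDatP (-1) (-1) := by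
  obtain ⟨Ψ, h⟩ := HN.p_G2
  exact ⟨Fin 2, inferInstance, _, _, _, _, _, _, _, _, Five3.dat h,
    Or.inl ⟨0, pos_pow_one Five3.pos, rfl⟩, 8, by decide, Five3.scal h⟩

theorem dat7 : HasDatP (-2) (-1) := by
  obtain ⟨η, h⟩ := PIC7.p_eta (PIC7.p_e1 PIC7.p_f6) (PIC7.p_e2 (PIC7.p_e1 PIC7.p_f6))
  exact ⟨Fin 2, inferInstance, _, _, _, _, _, _, _, _, Five7.dat h,
    Or.inl ⟨0, pos_pow_one Five7.pos, rfl⟩, 4, by decide, scal7⟩

theorem dat11 : HasDatP (-3) 1 := by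
  obtain ⟨η, h⟩ := D11.p_eta
  exact ⟨Fin 6, inferInstance, _, _, _, _, _, _, _, _, Five11.dat h,
    Or.inr ⟨Five11.v11, 0, fun i => by
      rw [Five11.neg11, Units.val_neg, Units.val_one, zpow_neg_one], by decide, D11.pos11, rfl⟩,
    2, by decide, scal11⟩

/-- THE DATA OF THE FIVE RINGS -/
theorem fiveP : ∀ p ∈ fives, HasDatP p.1 p.2 := by
  intro p hp
  simp only [fives, List.mem_cons, List.not_mem_nil, or_false] at hp
  rcases hp with rfl | rfl | rfl | rfl | rfl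
  · exact dat1
  · exact dat2
  · exact dat3
  · exact dat7
  · exact dat11

end Pool.Agent.F8.BG
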