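import Pool.Agent.Lib.MP_305fdd_al.F8.CG.MainA
import Pool.Agent.Lib.MP_305fdd_al.F8.BG.P_E

/-!
# MP_305fdd_al, congruence subgroups: inclusions
-/

set_option autoImplicit false

namespace Pool.Agent.F8.CG

open Pool.Agent.F8.BG Pool.Agent.MP_305fdd_al Pool.Agent.Lib.MP_305fdd_al Pool.Agent.F8
open scoped QuadraticAlgebra

variable {a b : ℤ}

theorem gam_le {m k : ℕ} (h : m ∣ k) : Gam a b k ≤ Gam a b m := by
  obtain ⟨c, rfl⟩ := h
  intro x hx
  have h1 : rdq a b (m * c) x = 1 := hx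
  show rdq a b m x = 1
  have key : ∀ i j, Qfm a b (Int.castRingHom (ZMod m)) (x.val i j) =
      Qfm a b (Int.castRingHom (ZMod m)) ((1 : GQ a b).val i j) := by
    intro i j
    have h2 : Qfm a b (Int.castRingHom (ZMod (m * c))) (x.val i j) =
        Qfm a b (Int.castRingHom (ZMod (m * c))) ((1 : GQ a b).val i j) := by
      have h3 : rdq a b (m * c) x = rdq a b (m * c) 1 := by rw [h1, map_one]
      exact congrArg (fun y : SL2 (Qf a b (ZMod (m * c))) => y.val i j) h3
    rw [← sub_eq_zero, ← map_sub] at h2 ⊢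
    obtain ⟨t, ht⟩ := E_ker a b (m * c) _ h2
    rw [ht, Nat.cast_mul, mul_assoc, map_mul, map_natCast]
    have h4 : ((m : ℕ) : Qf a b (ZMod m)) = 0 := by
      apply QuadraticAlgebra.ext
      · rw [QuadraticAlgebra.re_natCast]; simp
      · rw [QuadraticAlgebra.im_natCast]; rfl
    rw [h4, zero_mul]
  rw [← map_one (rdq a b m)]
  exact Subtype.ext (Matrix.ext fun i j => key i j)

end Pool.Agent.F8.CG
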