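import Pool.Agent.Lib.MP_305fdd_al.F8.CG.StmB2

/-!
# MP_305fdd_al, congruence subgroups: piece Q (from `𝔽_q` to `ℚ`)
-/

set_option autoImplicit false

namespace Pool.Agent.F8.CG

open Pool.Agent.F8.BG

noncomputable section

/-- homomorphisms to `ZMod q` can be lifted to homomorphisms to `ℤ` -/
private theorem Q_lift (q : ℕ) [Fact q.Prime] {P : Type} [Group P] (hP : IsFreeGroup P)
    (g : Additive P →+ ZMod q) :
    ∃ f : Additive P →+ ℤ, ∀ x, ((f x : ℤ) : ZMod q) = g x := by
  classical
  have := hP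
  let e : P ≃* FreeGroup (IsFreeGroup.Generators P) := (IsFreeGroup.mulEquiv P).symm
  let f0 : P →* Multiplicative ℤ :=
    (FreeGroup.lift (fun b => Multiplicative.ofAdd
      ((g (Additive.ofMul (e.symm (FreeGroup.of b)))).val : ℤ))).comp e.toMonoidHom
  let f : Additive P →+ ℤ := MonoidHom.toAdditiveLeft f0
  refine ⟨f, ?_⟩
  let c : ℤ →+ ZMod q := Int.castAddHom (ZMod q)
  have key : (MonoidHom.toAdditiveLeft.symm (c.comp f)).comp e.symm.toMonoidHom =
      (MonoidHom.toAdditiveLeft.symm g).comp e.symm.toMonoidHom := by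
    ext b
    change c (f0 (e.symm (FreeGroup.of b))) = g (Additive.ofMul (e.symm (FreeGroup.of b)))
    change (((Multiplicative.toAdd (FreeGroup.lift (fun b => Multiplicative.ofAdd
      ((g (Additive.ofMul (e.symm (FreeGroup.of b)))).val : ℤ))
        (e (e.symm (FreeGroup.of b)))) : ℤ)) : ZMod q) = _
    rw [MulEquiv.apply_symm_apply, FreeGroup.lift_apply_of]
    simp
  intro x
  have h := DFunLike.congr_fun key (e (Additive.toMul x))
  simp only [MonoidHom.comp_apply, MulEquiv.coe_toMonoidHom, MulEquiv.symm_apply_apply] at h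
  exact h

/-- divisibility by `q` -/
private theorem Q_dvd (q : ℕ) [Fact q.Prime] {G : Type} [Group G] (P : Subgroup G)
    (hP : IsFreeGroup P) {S : Type} (y : S → P)
    (hI : LinearIndependent (ZMod q) fun s => evh (ZMod q) (y s)) (c : S →₀ ℤ)
    (hc : ∀ f : Additive P →+ ℤ, c.sum (fun s a => a * f (Additive.ofMul (y s))) = 0) (s : S) :
    (q : ℤ) ∣ c s := by
  classical
  let c' : S →₀ ZMod q := c.mapRange (Int.cast : ℤ → ZMod q) (by simp)
  have h0 : Finsupp.linearCombination (ZMod q) (fun s => evh (ZMod q) (y s)) c' = 0 := by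
    ext g
    obtain ⟨f, hf⟩ := Q_lift q hP g
    have h1 := congrArg (Int.cast : ℤ → ZMod q) (hc f)
    rw [Finsupp.linearCombination_apply]
    have h2 : (c'.sum fun s a => a • evh (ZMod q) (y s)) g =
        c'.sum fun s a => a * g (Additive.ofMul (y s)) := by
      rw [Finsupp.sum, LinearMap.sum_apply]
      rfl
    rw [h2]
    rw [Finsupp.sum_mapRange_index (by simp)]
    rw [Finsupp.sum] at h1 ⊢
    rw [Int.cast_sum] at h1
    simp only [Int.cast_mul, hf, Int.cast_zero] at h1
    exact h1
  have h3 := (linearIndependent_iff.1 hI) c' h0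
  have h4 : c' s = 0 := by rw [h3]; rfl
  have h5 : ((c s : ℤ) : ZMod q) = 0 := h4
  exact (ZMod.intCast_zmod_eq_zero_iff_dvd _ _).1 h5

theorem p_Q : B_Q := by
  classical
  intro q hq G _ P hP S y hy
  obtain ⟨hy, hI⟩ := hy
  refine ⟨hy, ?_⟩
  rw [← LinearIndependent.iff_fractionRing (R := ℤ) (K := ℚ)]
  rw [linearIndependent_iff]
  intro l hl
  -- integral relations
  have hrel : ∀ f : Additive P →+ ℤ,
      l.sum (fun s a => a * f (Additive.ofMul (⟨y s, hy s⟩ : P))) = 0 := by
    intro f
    let fq : Additive P →+ ℚ := (Int.castAddHom ℚ).comp f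
    have h1 := congrArg (fun F : (Additive P →+ ℚ) →ₗ[ℚ] ℚ => F fq) hl
    simp only [LinearMap.zero_apply] at h1
    rw [Finsupp.linearCombination_apply, Finsupp.sum, LinearMap.sum_apply] at h1
    have h2 : ((l.sum (fun s a => a * f (Additive.ofMul (⟨y s, hy s⟩ : P))) : ℤ) : ℚ) = 0 := by
      rw [Finsupp.sum, Int.cast_sum, ← h1]
      refine Finset.sum_congr rfl fun s _ => ?_
      rw [Int.cast_mul, LinearMap.smul_apply, zsmul_eq_mul]
      rfl
    exact_mod_cast h2
  have key : ∀ (n : ℕ) (c : S →₀ ℤ), (∀ f : Additive P →+ ℤ,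
      c.sum (fun s a => a * f (Additive.ofMul (⟨y s, hy s⟩ : P))) = 0) →
      ∀ s, (q : ℤ) ^ n ∣ c s := by
    intro n
    induction n with
    | zero => intro c _ s; simp
    | succ n ih =>
      intro c hc s
      have hd := Q_dvd q P hP (fun s => (⟨y s, hy s⟩ : P)) hI c hc
      let c' : S →₀ ℤ := c.mapRange (fun a => a / q) (by simp)
      have hcc : ∀ s, c s = q * c' s := fun s => (Int.mul_ediv_cancel' (hd s)).symm
      have hq0 : (q : ℤ) ≠ 0 := by exact_mod_cast hq.out.ne_zero
      have hc' : ∀ f : Additive P →+ ℤ,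
          c'.sum (fun s a => a * f (Additive.ofMul (⟨y s, hy s⟩ : P))) = 0 := by
        intro f
        have h1 := hc f
        have h2 : c.sum (fun s a => a * f (Additive.ofMul (⟨y s, hy s⟩ : P))) =
            q * c'.sum (fun s a => a * f (Additive.ofMul (⟨y s, hy s⟩ : P))) := by
          rw [Finsupp.sum, Finsupp.sum_of_support_subset c' (Finsupp.support_mapRange) _
            (by simp), Finset.mul_sum]
          refine Finset.sum_congr rfl fun s _ => ?_
          rw [hcc s]; ring
        rw [h2] at h1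
        exact (mul_eq_zero.1 h1).resolve_left hq0
      rw [hcc s, pow_succ, mul_comm]
      exact mul_dvd_mul_left _ (ih c' hc' s)
  ext s
  have h1 := key (l s).natAbs l hrel s
  have h2 : (l s).natAbs < q ^ (l s).natAbs := Nat.lt_pow_self hq.out.one_lt
  have h3 : q ^ (l s).natAbs ∣ (l s).natAbs := by
    have := Int.natAbs_dvd_natAbs.2 h1
    simpa [Int.natAbs_pow] using this
  have h4 := Nat.eq_zero_of_dvd_of_lt h3 h2
  simpa using h4

end

end Pool.Agent.F8.CG
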