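import Pool.Agent.Lib.MP_305fdd_al.F8.CG.StmB1

/-!
# MP_305fdd_al, congruence subgroups: block B1, the main result
-/

set_option autoImplicit false

namespace Pool.Agent.F8.CG

open Pool.Agent.F8.BG

/-- the index grows -/
theorem b1_index (hfixp : B_fixp) {ι : Type} (α : MulAut (FreeGroup ι)) (Γ₁ : Subgroup (GR α))
    (D : ℕ → Subgroup (GR α)) (hT : Tow Γ₁ D) (M : ℕ) :
    ∃ j₁ : ℕ, ∀ j, j₁ ≤ j → M ≤ (D j).index := by
  classical
  have hn : ∀ k : ℕ, nR α (tR α ^ k) = Multiplicative.ofAdd (k : ℤ) := by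
    intro k
    have h1 : nR α (tR α) = Multiplicative.ofAdd 1 := rfl
    rw [map_pow, h1, ← ofAdd_nsmul]
    simp
  obtain ⟨j₁, hj₁⟩ := hfixp (GR α) Γ₁ D hT ((Finset.Icc 1 M).image fun k => tR α ^ k) (by
    intro h
    rw [Finset.mem_image] at h
    obtain ⟨k, hk, hk1⟩ := h
    have h1 := hn k
    rw [hk1, map_one] at h1
    have h2 : (0 : ℤ) = k := congrArg Multiplicative.toAdd h1
    rw [Finset.mem_Icc] at hk
    omega)
  refine ⟨j₁, fun j hj => ?_⟩
  haveI := hT.fin j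
  have h2 := hj₁ (D j) (hT.anti hj)
  have key : ∀ i k : ℕ, i < k → k < M →
      ((tR α ^ i : GR α) : GR α ⧸ D j) ≠ ((tR α ^ k : GR α) : GR α ⧸ D j) := by
    intro i k hik hk h
    rw [QuotientGroup.eq] at h
    have e : (tR α ^ i)⁻¹ * tR α ^ k = tR α ^ (k - i) := by
      rw [inv_mul_eq_iff_eq_mul, ← pow_add]
      congr 1
      omega
    rw [e] at h
    refine h2 (tR α ^ (k - i)) (Finset.mem_image_of_mem _ (Finset.mem_Icc.2 ⟨by omega, by omega⟩))
      ((1 : GR α) : GR α ⧸ D j) ?_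
    show ((tR α ^ (k - i) * 1 : GR α) : GR α ⧸ D j) = ((1 : GR α) : GR α ⧸ D j)
    rw [mul_one, eq_comm, QuotientGroup.eq, inv_one, one_mul]
    exact h
  have hinj : Function.Injective
      (fun i : Fin M => ((tR α ^ (i : ℕ) : GR α) : GR α ⧸ D j)) := by
    intro i k hik
    rcases lt_trichotomy (i : ℕ) (k : ℕ) with h | h | h
    · exact absurd hik (key _ _ h k.2)
    · exact Fin.ext h
    · exact absurd hik.symm (key _ _ h i.2)
  have h3 := Nat.card_le_card_of_injective _ hinj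
  rw [Subgroup.index]
  simpa using h3

/-- the class modulo `m` -/
theorem b1_class {ι : Type} (α : MulAut (FreeGroup ι)) (D : Subgroup (GR α))
    (hD : D.FiniteIndex) (m : ℕ) [NeZero m] : ∃ D' : Subgroup (GR α), D' ≤ D ∧ D'.FiniteIndex ∧
      ∃ c : GR α ⧸ D' → ZMod m, ∀ (g : GR α) (x : GR α ⧸ D'),
        c (g • x) = c x + ((Multiplicative.toAdd (nR α g) : ℤ) : ZMod m) := by
  let ψ : Multiplicative ℤ →* Multiplicative (ZMod m) :=
    AddMonoidHom.toMultiplicative (Int.castAddHom (ZMod m))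
  let φ : GR α →* Multiplicative (ZMod m) := ψ.comp (nR α)
  haveI := hD
  haveI : Finite (Multiplicative (ZMod m)) := inferInstanceAs (Finite (ZMod m))
  have hk : φ.ker.FiniteIndex := inferInstance
  refine ⟨D ⊓ φ.ker, inf_le_left, inferInstance,
    fun x => Multiplicative.toAdd (φ x.out), fun g x => ?_⟩
  have h1 : ((g • x : GR α ⧸ (D ⊓ φ.ker)).out : GR α ⧸ (D ⊓ φ.ker)) =
      ((g * x.out : GR α) : GR α ⧸ (D ⊓ φ.ker)) := by
    rw [QuotientGroup.out_eq']
    conv_lhs => rw [← QuotientGroup.out_eq' x]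
    rfl
  rw [QuotientGroup.eq] at h1
  have h2 : φ ((g • x).out⁻¹ * (g * x.out)) = 1 := h1.2
  rw [map_mul, map_inv, map_mul, inv_mul_eq_one] at h2
  show Multiplicative.toAdd (φ (g • x).out) = _
  rw [h2, toAdd_mul, add_comm]
  rfl

theorem p_b1 (hfox : B_fox) (hshap : B_shap) (hgrad : B_grad) (hmom : B_mom) (hbdd : B_bdd)
    (hspec : B_spec) (hfixp : B_fixp) : B_b1 := by
  classical
  intro ι _ α Γ₁ D hT m
  haveI : Fintype ι := Fintype.ofFinite ι
  rcases Nat.eq_zero_or_pos m with rfl | hm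
  · exact ⟨0, fun j _ => by simp⟩
  obtain ⟨J, hJ⟩ := hfox ι α
  set A := foxA α J with hA
  obtain ⟨K, hK1, hK⟩ := hbdd ι (GR α) A
  obtain ⟨c, hc⟩ := hmom ι (GR α) A
  have hm0 : (0 : ℝ) < m := by exact_mod_cast hm
  have hK0 : (0 : ℝ) < K := lt_of_lt_of_le one_pos hK1
  set r : ℝ := (Fintype.card ι : ℝ) with hr
  have hr0 : 0 ≤ r := Nat.cast_nonneg _
  have hlogK : 0 ≤ Real.log K := Real.log_nonneg hK1
  -- the choice of ε
  obtain ⟨ε, hε0, hε1, hεK⟩ : ∃ ε : ℝ, 0 < ε ∧ ε < 1 ∧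
      r * (Real.log K / Real.log (1 / ε)) ≤ 1 / (8 * m) := by
    have hL : 0 < 8 * m * r * Real.log K + 1 := by positivity
    refine ⟨Real.exp (-(8 * m * r * Real.log K + 1)), Real.exp_pos _, ?_, ?_⟩
    · rw [Real.exp_lt_one_iff]
      linarith
    · rw [one_div, ← Real.exp_neg, neg_neg, Real.log_exp, ← mul_div_assoc,
        div_le_div_iff₀ hL (by positivity)]
      nlinarith
  -- the choice of N
  have hq0 : 0 ≤ 1 - ε / K := by
    have : ε / K ≤ 1 := by
      rw [div_le_one hK0]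
      linarith
    linarith
  have hq1 : 1 - ε / K < 1 := by
    have : 0 < ε / K := div_pos hε0 hK0
    linarith
  obtain ⟨N, hN⟩ : ∃ N : ℕ, r * (1 - ε / K) ^ N ≤ 1 / (8 * m) := by
    obtain ⟨N, hN⟩ := exists_pow_lt_of_lt_one (show (0 : ℝ) < 1 / (8 * m * (r + 1)) by positivity)
      hq1
    refine ⟨N, ?_⟩
    have h1 : r * (1 - ε / K) ^ N ≤ (r + 1) * (1 / (8 * m * (r + 1))) :=
      mul_le_mul (by linarith) hN.le (pow_nonneg hq0 _) (by positivity)
    refine h1.trans (le_of_eq ?_)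
    field_simp
  obtain ⟨E, hE1, hE⟩ := hc N
  obtain ⟨j₀, hj₀⟩ := hfixp (GR α) Γ₁ D hT E hE1
  set T₀ : ℝ := ∑ k ∈ Finset.range (N + 1), (N.choose k : ℝ) * (-1 / K) ^ k * (c k : ℝ) with hT₀
  -- the sum for deep quotients
  have hsum : ∀ (D' : Subgroup (GR α)), D' ≤ D j₀ → ∀ [Fintype (GR α ⧸ D')]
      [DecidableEq (GR α ⧸ D')], ∑ k ∈ Finset.range (N + 1),
    (N.choose k : ℝ) * (-1 / K) ^ k *
      (((((big A (GR α ⧸ D')).transpose * big A (GR α ⧸ D')) ^ k).trace : ℤ) : ℝ) =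
      Fintype.card (GR α ⧸ D') * T₀ := by
    intro D' hD' _ _
    rw [hT₀, Finset.mul_sum]
    refine Finset.sum_congr rfl fun k hk => ?_
    rw [hE (GR α ⧸ D') (fun g hg x => hj₀ D' hD' g hg x) k
      (Nat.lt_succ_iff.1 (Finset.mem_range.1 hk))]
    push_cast
    ring
  -- the bound for T₀
  have hTb : T₀ ≤ 3 / (8 * m) := by
    set m' : ℕ := 8 * m * Fintype.card ι + 1 with hm'
    haveI : NeZero m' := ⟨Nat.succ_ne_zero _⟩
    obtain ⟨D', hD', hfi, c', hc'⟩ := b1_class α (D j₀) (hT.fin j₀) m'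
    haveI := hfi
    haveI : Fintype (GR α ⧸ D') := Fintype.ofFinite _
    have h1 := hgrad ι α J (GR α ⧸ D') m' c' hc'
    have h2 := (hspec (ι × (GR α ⧸ D')) (big A (GR α ⧸ D')) K hK1
      (fun v => hK (GR α ⧸ D') v) N).2 ε hε0 hε1
    rw [hsum D' hD'] at h2
    rw [Fintype.card_prod] at h2
    have hX : (0 : ℝ) < Fintype.card (GR α ⧸ D') := by
      haveI : Nonempty (GR α ⧸ D') := ⟨((1 : GR α) : GR α ⧸ D')⟩
      exact_mod_cast Fintype.card_pos
    set x : ℝ := (Fintype.card (GR α ⧸ D') : ℝ) with hx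
    push_cast at h2
    rw [← hr, ← hx] at h2
    have h3 : (nul (big A (GR α ⧸ D')) : ℝ) ≤ x * (1 / (8 * m)) := by
      have h4 : ((m' * nul (big (foxA α J) (GR α ⧸ D')) : ℕ) : ℝ) ≤
          ((Fintype.card ι * Fintype.card (GR α ⧸ D') : ℕ) : ℝ) := by exact_mod_cast h1
      rw [← hA] at h4
      push_cast at h4
      rw [← hr, ← hx] at h4
      have h5 : (m' : ℝ) = 8 * m * r + 1 := by
        rw [hm', hr]
        push_cast
        ring
      rw [h5] at h4
      have h6 : (0 : ℝ) < 8 * m * r + 1 := by positivity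
      have h7 : (nul (big A (GR α ⧸ D')) : ℝ) ≤ r * x / (8 * m * r + 1) := by
        rw [le_div_iff₀ h6]
        linarith
      refine h7.trans ?_
      rw [mul_one_div, div_le_div_iff₀ h6 (by positivity)]
      nlinarith
    have h8 : x * T₀ ≤ x * (3 / (8 * m)) := by
      have e1 : r * x * (Real.log K / Real.log (1 / ε)) ≤ x * (1 / (8 * m)) := by
        have := mul_le_mul_of_nonneg_left hεK hX.le
        linarith
      have e2 : r * x * (1 - ε / K) ^ N ≤ x * (1 / (8 * m)) := by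
        have := mul_le_mul_of_nonneg_left hN hX.le
        linarith
      have e3 : x * (3 / (8 * m)) = x * (1 / (8 * m)) + x * (1 / (8 * m)) + x * (1 / (8 * m)) := by
        ring
      rw [e3]
      linarith
    exact le_of_mul_le_mul_left h8 hX
  obtain ⟨j₁, hj₁⟩ := b1_index hfixp α Γ₁ D hT (2 * m)
  refine ⟨max j₀ j₁, fun j hj => ?_⟩
  haveI := hT.fin j
  haveI : Fintype (GR α ⧸ D j) := Fintype.ofFinite _
  have hDj : D j ≤ D j₀ := hT.anti ((le_max_left _ _).trans hj)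
  have h1 := (hspec (ι × (GR α ⧸ D j)) (big A (GR α ⧸ D j)) K hK1
      (fun v => hK (GR α ⧸ D j) v) N).1
  rw [hsum (D j) hDj] at h1
  have h2 := hshap ι α J hJ (D j)
  rw [← hA] at h2
  have h3 := hj₁ j ((le_max_right _ _).trans hj)
  have h4 : (D j).index = Fintype.card (GR α ⧸ D j) := by
    rw [Subgroup.index, Nat.card_eq_fintype_card]
  rw [h4] at h3 ⊢
  have h5 : ((2 * m : ℕ) : ℝ) ≤ (Fintype.card (GR α ⧸ D j) : ℝ) := by exact_mod_cast h3
  have h6 : ((b1 (D j) : ℕ) : ℝ) ≤ ((nul (big A (GR α ⧸ D j)) + 1 : ℕ) : ℝ) := by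
    exact_mod_cast h2
  push_cast at h5 h6
  set x : ℝ := (Fintype.card (GR α ⧸ D j) : ℝ) with hx
  have hx0 : 0 ≤ x := Nat.cast_nonneg _
  have h7 : x * T₀ ≤ x * (3 / (8 * m)) := mul_le_mul_of_nonneg_left hTb hx0
  have h8 : (m : ℝ) * b1 (D j) ≤ x := by
    have e1 : (m : ℝ) * b1 (D j) ≤ m * (x * (3 / (8 * m)) + 1) :=
      mul_le_mul_of_nonneg_left (by linarith) hm0.le
    have e2 : (m : ℝ) * (x * (3 / (8 * m)) + 1) = 3 / 8 * x + m := by
      field_simp
    linarith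
  have h9 : ((m * b1 (D j) : ℕ) : ℝ) ≤ ((Fintype.card (GR α ⧸ D j) : ℕ) : ℝ) := by
    push_cast
    exact h8
  exact_mod_cast h9

end Pool.Agent.F8.CG
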