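import Pool.Agent.Lib.MP_305fdd_al.F8.CG.StmB2

/-!
# MP_305fdd_al, congruence subgroups: the piece `B_bK`
-/

set_option autoImplicit false

namespace Pool.Agent.F8.CG

open Pool.Agent.F8.BG

noncomputable section

section bK_gen

variable {P : Type} [Group P]

/-- the span of the evaluations -/
def bK_V (P : Type) [Group P] : Submodule ℚ ((Additive P →+ ℚ) →ₗ[ℚ] ℚ) :=
  Submodule.span ℚ (Set.range (evh ℚ : P → ((Additive P →+ ℚ) →ₗ[ℚ] ℚ)))

/-- the class of an element -/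
def bK_cl (y : P) : bK_V P := ⟨evh ℚ y, Submodule.subset_span ⟨y, rfl⟩⟩

theorem bK_cl_mul (x y : P) : bK_cl (x * y) = bK_cl x + bK_cl y := by
  apply Subtype.ext
  apply LinearMap.ext
  intro f
  exact f.map_add (Additive.ofMul x) (Additive.ofMul y)

theorem bK_cl_one : bK_cl (1 : P) = 0 := by
  have h := bK_cl_mul (1 : P) 1
  rw [mul_one] at h
  exact left_eq_add.mp h

theorem bK_cl_inv (x : P) : bK_cl x⁻¹ = -bK_cl x := by
  have h := bK_cl_mul x x⁻¹
  rw [mul_inv_cancel, bK_cl_one] at h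
  exact (neg_eq_of_add_eq_zero_right h.symm).symm

/-- a submodule which contains all classes -/
theorem bK_top (W : Submodule ℚ (bK_V P)) (h : ∀ y : P, bK_cl y ∈ W) : W = ⊤ := by
  rw [Submodule.eq_top_iff']
  rintro ⟨x, hx⟩
  have h1 : ∀ x (hx : x ∈ bK_V P), (⟨x, hx⟩ : bK_V P) ∈ W := by
    intro x hx
    refine Submodule.span_induction (p := fun x hx => (⟨x, hx⟩ : bK_V P) ∈ W) ?_ ?_ ?_ ?_ hx
    · rintro _ ⟨y, rfl⟩
      exact h y
    · exact W.zero_mem
    · intro a b ha hb h2 h3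
      exact W.add_mem h2 h3
    · intro r a ha h2
      exact W.smul_mem r h2
  exact h1 x hx

/-- composition with an automorphism -/
def bK_pre (c : P ≃* P) : (Additive P →+ ℚ) →ₗ[ℚ] (Additive P →+ ℚ) where
  toFun f := f.comp (MonoidHom.toAdditive c.toMonoidHom)
  map_add' _ _ := rfl
  map_smul' _ _ := rfl

/-- the dual map -/
def bK_T (c : P ≃* P) : ((Additive P →+ ℚ) →ₗ[ℚ] ℚ) →ₗ[ℚ] ((Additive P →+ ℚ) →ₗ[ℚ] ℚ) where
  toFun φ := φ.comp (bK_pre c)
  map_add' _ _ := rfl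
  map_smul' _ _ := rfl

theorem bK_T_evh (c : P ≃* P) (y : P) : bK_T c (evh ℚ y) = evh ℚ (c y) := rfl

theorem bK_T_mem (c : P ≃* P) : ∀ φ ∈ bK_V P, bK_T c φ ∈ bK_V P := by
  intro φ hφ
  have h1 : bK_V P ≤ (bK_V P).comap (bK_T c) := by
    apply Submodule.span_le.mpr
    rintro _ ⟨y, rfl⟩
    change bK_T c (evh ℚ y) ∈ bK_V P
    rw [bK_T_evh]
    exact Submodule.subset_span ⟨c y, rfl⟩
  exact h1 hφ

theorem bK_T_symm (c : P ≃* P) (φ : (Additive P →+ ℚ) →ₗ[ℚ] ℚ) :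
    bK_T c (bK_T c.symm φ) = φ := by
  apply LinearMap.ext
  intro f
  change φ (bK_pre c.symm (bK_pre c f)) = φ f
  congr 1
  apply AddMonoidHom.ext
  intro x
  change f (Additive.ofMul (c (c.symm (Additive.toMul x)))) = f x
  rw [MulEquiv.apply_symm_apply]
  rfl

theorem bK_T_symm' (c : P ≃* P) (φ : (Additive P →+ ℚ) →ₗ[ℚ] ℚ) :
    bK_T c.symm (bK_T c φ) = φ := by
  apply LinearMap.ext
  intro f
  change φ (bK_pre c (bK_pre c.symm f)) = φ f
  congr 1
  apply AddMonoidHom.ext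
  intro x
  change f (Additive.ofMul (c.symm (c (Additive.toMul x)))) = f x
  rw [MulEquiv.symm_apply_apply]
  rfl

/-- the automorphism of the module of the classes -/
def bK_tau (c : P ≃* P) : bK_V P ≃ₗ[ℚ] bK_V P where
  toFun x := ⟨bK_T c x.1, bK_T_mem c _ x.2⟩
  invFun x := ⟨bK_T c.symm x.1, bK_T_mem c.symm _ x.2⟩
  map_add' x y := Subtype.ext ((bK_T c).map_add x.1 y.1)
  map_smul' r x := Subtype.ext ((bK_T c).map_smul r x.1)
  left_inv x := Subtype.ext (bK_T_symm' c x.1)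
  right_inv x := Subtype.ext (bK_T_symm c x.1)

theorem bK_tau_cl (c : P ≃* P) (y : P) : bK_tau c (bK_cl y) = bK_cl (c y) := rfl

theorem bK_tau_symm_cl (c : P ≃* P) (y : P) : (bK_tau c).symm (bK_cl y) = bK_cl (c.symm y) := rfl

end bK_gen

/-- finite dimension -/
theorem bK_fin (G : Type) [Group G] [Group.FG G] : Module.Finite ℚ (Additive G →+ ℚ) := by
  classical
  obtain ⟨S, hS⟩ := Group.fg_def.mp ‹Group.FG G›
  let Φ : (Additive G →+ ℚ) →ₗ[ℚ] ({x // x ∈ S} → ℚ) :=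
    { toFun := fun f s => f (Additive.ofMul s.1)
      map_add' := fun _ _ => rfl
      map_smul' := fun _ _ => rfl }
  apply Module.Finite.of_injective Φ
  rw [← LinearMap.ker_eq_bot, LinearMap.ker_eq_bot']
  intro f hf
  have h1 : ∀ s ∈ S, f (Additive.ofMul s) = 0 := fun s hs => congrFun hf ⟨s, hs⟩
  apply AddMonoidHom.ext
  intro x
  have h2 : ∀ x ∈ Subgroup.closure (S : Set G), f (Additive.ofMul x) = 0 := by
    intro x hx
    refine Subgroup.closure_induction (p := fun x _ => f (Additive.ofMul x) = 0) ?_ ?_ ?_ ?_ hx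
    · exact fun s hs => h1 s hs
    · exact f.map_zero
    · intro a b _ _ ha hb
      rw [ofMul_mul, f.map_add, ha, hb, add_zero]
    · intro a _ ha
      rw [ofMul_inv, f.map_neg, ha, neg_zero]
  exact h2 (Additive.toMul x) (by rw [hS]; exact Subgroup.mem_top _)

section bK_conj

variable {H : Type} [Group H] (ν : H →* Multiplicative ℤ) (K : Subgroup H)

theorem bK_mem {k y : H} (hk : k ∈ K) (hy : y ∈ K ⊓ ν.ker) : k * y * k⁻¹ ∈ K ⊓ ν.ker := by
  refine Subgroup.mem_inf.mpr ⟨K.mul_mem (K.mul_mem hk hy.1) (K.inv_mem hk), ?_⟩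
  rw [MonoidHom.mem_ker, map_mul, map_mul, map_inv, MonoidHom.mem_ker.mp hy.2]
  simp

theorem bK_mem' {k y : H} (hk : k ∈ K) (hy : y ∈ K ⊓ ν.ker) : k⁻¹ * y * k ∈ K ⊓ ν.ker := by
  have h := bK_mem ν K (K.inv_mem hk) hy
  rwa [inv_inv] at h

/-- the conjugation with an element of `K` -/
def bK_con (k : H) (hk : k ∈ K) : (K ⊓ ν.ker : Subgroup H) ≃* (K ⊓ ν.ker : Subgroup H) where
  toFun y := ⟨k * y * k⁻¹, bK_mem ν K hk y.2⟩
  invFun y := ⟨k⁻¹ * y * k, bK_mem' ν K hk y.2⟩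
  left_inv y := Subtype.ext (by simp only; group)
  right_inv y := Subtype.ext (by simp only; group)
  map_mul' x y := Subtype.ext (by simp only [Subgroup.coe_mul]; group)

variable {ν K}

theorem bK_zpow {h : H} (hh : h ∈ K) (n : ℤ) : ∀ y (hy : y ∈ K ⊓ ν.ker),
    ((bK_tau (bK_con ν K h hh)) ^ n) (bK_cl ⟨y, hy⟩) =
      bK_cl ⟨h ^ n * y * (h ^ n)⁻¹, bK_mem ν K (K.zpow_mem hh n) hy⟩ := by
  induction n using Int.induction_on with
  | zero =>
    intro y hy
    rw [zpow_zero]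
    change bK_cl _ = _
    congr 1
    apply Subtype.ext
    simp
  | succ i ih =>
    intro y hy
    rw [zpow_add_one]
    change ((bK_tau (bK_con ν K h hh)) ^ (i : ℤ)) (bK_tau (bK_con ν K h hh) (bK_cl ⟨y, hy⟩)) = _
    rw [bK_tau_cl]
    change ((bK_tau (bK_con ν K h hh)) ^ (i : ℤ)) (bK_cl ⟨h * y * h⁻¹, bK_mem ν K hh hy⟩) = _
    rw [ih]
    congr 1
    apply Subtype.ext
    simp only
    rw [zpow_add_one]
    group
  | pred i ih =>
    intro y hy
    rw [zpow_sub_one]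
    change ((bK_tau (bK_con ν K h hh)) ^ (-(i : ℤ)))
      ((bK_tau (bK_con ν K h hh)).symm (bK_cl ⟨y, hy⟩)) = _
    rw [bK_tau_symm_cl]
    change ((bK_tau (bK_con ν K h hh)) ^ (-(i : ℤ)))
      (bK_cl ⟨h⁻¹ * y * h, bK_mem' ν K hh hy⟩) = _
    rw [ih]
    congr 1
    apply Subtype.ext
    simp only
    rw [zpow_sub_one]
    group

theorem bK_inj {h : H} (hh : ν h ≠ 1) {a b : ℤ} (hab : ν h ^ a = ν h ^ b) : a = b := by
  have h1 : a * Multiplicative.toAdd (ν h) = b * Multiplicative.toAdd (ν h) := by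
    have h2 := congrArg Multiplicative.toAdd hab
    rw [toAdd_zpow, toAdd_zpow] at h2
    simpa using h2
  have h3 : Multiplicative.toAdd (ν h) ≠ 0 := fun e => hh (Multiplicative.toAdd.injective e)
  exact mul_right_cancel₀ h3 h1

/-- the extension to `K` -/
theorem bK_ext {h : H} (hh : h ∈ K) (hν : ν h ≠ 1) (hgen : ∀ x ∈ K, ∃ n : ℤ, ν x = ν h ^ n)
    (F : Additive (K ⊓ ν.ker : Subgroup H) →+ ℚ)
    (hF : ∀ (n : ℤ) (y : H) (hy : y ∈ K ⊓ ν.ker),
      F (Additive.ofMul ⟨h ^ n * y * (h ^ n)⁻¹, bK_mem ν K (K.zpow_mem hh n) hy⟩) =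
        F (Additive.ofMul ⟨y, hy⟩)) :
    ∃ g : Additive K →+ ℚ, ∀ (y : H) (hy : y ∈ K ⊓ ν.ker),
      g (Additive.ofMul ⟨y, hy.1⟩) = F (Additive.ofMul ⟨y, hy⟩) := by
  classical
  choose! n hn using hgen
  have hP : ∀ x ∈ K, x * (h ^ n x)⁻¹ ∈ K ⊓ ν.ker := by
    intro x hx
    refine Subgroup.mem_inf.mpr ⟨K.mul_mem hx (K.inv_mem (K.zpow_mem hh _)), ?_⟩
    rw [MonoidHom.mem_ker, map_mul, map_inv, map_zpow, hn x hx, mul_inv_cancel]
  have hadd : ∀ x ∈ K, ∀ y ∈ K, n (x * y) = n x + n y := by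
    intro x hx y hy
    apply bK_inj hν
    rw [← hn _ (K.mul_mem hx hy), map_mul, hn x hx, hn y hy, zpow_add]
  have hF1 : ∀ (a b : H) (ha : a ∈ K ⊓ ν.ker) (hb : b ∈ K ⊓ ν.ker) (c : H)
      (hc : c ∈ K ⊓ ν.ker), c = a * b → F (Additive.ofMul ⟨c, hc⟩) =
      F (Additive.ofMul ⟨a, ha⟩) + F (Additive.ofMul ⟨b, hb⟩) := by
    intro a b ha hb c hc e
    subst e
    rw [← F.map_add]
    rfl
  refine ⟨AddMonoidHom.mk' (fun x => F (Additive.ofMul
    ⟨(Additive.toMul x : K) * (h ^ n (Additive.toMul x : K))⁻¹,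
      hP _ (Additive.toMul x : K).2⟩)) ?_, ?_⟩
  · intro x y
    obtain ⟨x, hx⟩ := x
    obtain ⟨y, hy⟩ := y
    have h1 := hF1 (x * (h ^ n x)⁻¹) (h ^ n x * (y * (h ^ n y)⁻¹) * (h ^ n x)⁻¹) (hP x hx)
      (bK_mem ν K (K.zpow_mem hh _) (hP y hy)) (x * y * (h ^ n (x * y))⁻¹)
      (hP _ (K.mul_mem hx hy)) (by rw [hadd x hx y hy, zpow_add]; group)
    rw [hF] at h1
    exact h1
  · intro y hy
    have h0 : n y = 0 := by
      apply bK_inj hν
      rw [← hn y hy.1, zpow_zero]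
      exact MonoidHom.mem_ker.mp hy.2
    change F (Additive.ofMul ⟨y * (h ^ n y)⁻¹, _⟩) = _
    congr 2
    apply Subtype.ext
    simp only
    rw [h0]
    simp

end bK_conj

theorem p_bK (hQ : B_Q) (hrk : B_rk) : B_bK := by
  intro q _ H _ ν K hK hfree e hind
  classical
  obtain ⟨h, hh, hν, hgen, m, hm⟩ := hind
  obtain ⟨hy, hlin⟩ := hQ q H (K ⊓ ν.ker) hfree _ _ hm
  have hmP : ∀ j, m j ∈ K ⊓ ν.ker := by
    intro j
    have := hy (0, j)
    simpa using this
  -- the finite set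
  obtain ⟨S, hS⟩ := hK
  choose! n hn using hgen
  have hP : ∀ x ∈ K, x * (h ^ n x)⁻¹ ∈ K ⊓ ν.ker := by
    intro x hx
    refine Subgroup.mem_inf.mpr ⟨K.mul_mem hx (K.inv_mem (K.zpow_mem hh _)), ?_⟩
    rw [MonoidHom.mem_ker, map_mul, map_inv, map_zpow, hn x hx, mul_inv_cancel]
  let cl' : H → bK_V (K ⊓ ν.ker : Subgroup H) := fun y =>
    if hy : y ∈ K ⊓ ν.ker then bK_cl ⟨y, hy⟩ else 0
  let s : Finset (bK_V (K ⊓ ν.ker : Subgroup H)) := S.image fun x => cl' (x * (h ^ n x)⁻¹)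
  obtain ⟨f, hf, hfτ⟩ := hrk ℚ (bK_V (K ⊓ ν.ker : Subgroup H)) (bK_tau (bK_con ν K h hh)) s
    (by
      intro W hW hτ
      apply bK_top
      rintro ⟨y, hyP⟩
      -- the subgroup of the elements with class in `W`
      have hconj : ∀ (k : ℤ) (y : H) (hy : y ∈ K ⊓ ν.ker), bK_cl ⟨y, hy⟩ ∈ W →
          bK_cl ⟨h ^ k * y * (h ^ k)⁻¹, bK_mem ν K (K.zpow_mem hh k) hy⟩ ∈ W := by
        intro k y hy hyW
        rw [← bK_zpow hh k y hy]
        have h1 : ∀ (k : ℤ) (x : bK_V (K ⊓ ν.ker : Subgroup H)), x ∈ W →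
            ((bK_tau (bK_con ν K h hh)) ^ k) x ∈ W := by
          intro k
          induction k using Int.induction_on with
          | zero => intro x hx; rw [zpow_zero]; exact hx
          | succ i ih =>
            intro x hx
            rw [zpow_add_one]
            exact ih _ (hτ x hx).1
          | pred i ih =>
            intro x hx
            rw [zpow_sub_one]
            exact ih _ (hτ x hx).2
        exact h1 k _ hyW
      have hmain : ∀ x ∈ Subgroup.closure (S : Set H), ∃ (k : ℤ) (y : H) (hy : y ∈ K ⊓ ν.ker),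
          bK_cl ⟨y, hy⟩ ∈ W ∧ x = y * h ^ k := by
        intro x hx
        refine Subgroup.closure_induction (p := fun x _ => ∃ (k : ℤ) (y : H)
          (hy : y ∈ K ⊓ ν.ker), bK_cl ⟨y, hy⟩ ∈ W ∧ x = y * h ^ k) ?_ ?_ ?_ ?_ hx
        · intro x hx
          have hxK : x ∈ K := by rw [← hS]; exact Subgroup.subset_closure hx
          refine ⟨n x, x * (h ^ n x)⁻¹, hP x hxK, ?_, by group⟩
          have h1 : cl' (x * (h ^ n x)⁻¹) ∈ W := by
            apply hW
            exact Finset.mem_image.mpr ⟨x, hx, rfl⟩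
          have h2 : cl' (x * (h ^ n x)⁻¹) = bK_cl ⟨x * (h ^ n x)⁻¹, hP x hxK⟩ :=
            dif_pos (hP x hxK)
          rwa [h2] at h1
        · refine ⟨0, 1, Subgroup.one_mem _, ?_, by simp⟩
          have h1 : bK_cl (⟨1, Subgroup.one_mem _⟩ : (K ⊓ ν.ker : Subgroup H)) = 0 := bK_cl_one
          rw [h1]
          exact W.zero_mem
        · rintro x x' _ _ ⟨k, y, hy, hyW, rfl⟩ ⟨k', y', hy', hyW', rfl⟩
          refine ⟨k + k', y * (h ^ k * y' * (h ^ k)⁻¹), Subgroup.mul_mem _ hy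
            (bK_mem ν K (K.zpow_mem hh k) hy'), ?_, by rw [zpow_add]; group⟩
          have h1 := bK_cl_mul (⟨y, hy⟩ : (K ⊓ ν.ker : Subgroup H))
            ⟨h ^ k * y' * (h ^ k)⁻¹, bK_mem ν K (K.zpow_mem hh k) hy'⟩
          have h2 := W.add_mem hyW (hconj k y' hy' hyW')
          rw [← h1] at h2
          exact h2
        · rintro x _ ⟨k, y, hy, hyW, rfl⟩
          have hyi : y⁻¹ ∈ K ⊓ ν.ker := Subgroup.inv_mem _ hy
          have h1 := bK_cl_inv (⟨y, hy⟩ : (K ⊓ ν.ker : Subgroup H))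
          have h2 := W.neg_mem hyW
          rw [← h1] at h2
          refine ⟨-k, h ^ (-k) * y⁻¹ * (h ^ (-k))⁻¹, bK_mem ν K (K.zpow_mem hh (-k)) hyi,
            hconj (-k) y⁻¹ hyi h2, by group⟩
      obtain ⟨k, y', hy', hyW', he⟩ := hmain y (by rw [hS]; exact hyP.1)
      have hk : k = 0 := by
        apply bK_inj hν
        rw [zpow_zero]
        have h1 : ν y = ν y' * ν h ^ k := by rw [he, map_mul, map_zpow]
        rw [MonoidHom.mem_ker.mp hyP.2, MonoidHom.mem_ker.mp hy'.2, one_mul] at h1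
        exact h1.symm
      rw [hk, zpow_zero, mul_one] at he
      subst he
      exact hyW')
    e (fun j => bK_cl ⟨m j, hmP j⟩)
    (by
      apply LinearIndependent.of_comp (bK_V (K ⊓ ν.ker : Subgroup H)).subtype
      have h1 : (⇑(bK_V (K ⊓ ν.ker : Subgroup H)).subtype ∘ fun a : ℤ × Fin e =>
          ((bK_tau (bK_con ν K h hh)) ^ a.1) (bK_cl ⟨m a.2, hmP a.2⟩)) =
          fun s : ℤ × Fin e => evh ℚ (⟨h ^ s.1 * m s.2 * (h ^ s.1)⁻¹, hy s⟩ :
            (K ⊓ ν.ker : Subgroup H)) := by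
        funext a
        rw [Function.comp_apply, bK_zpow hh a.1 (m a.2) (hmP a.2)]
        rfl
      rw [h1]
      exact hlin)
  -- the homomorphisms
  let F : Fin e → (Additive (K ⊓ ν.ker : Subgroup H) →+ ℚ) := fun j =>
    AddMonoidHom.mk' (fun y => f j (bK_cl (Additive.toMul y))) (by
      intro x y
      rw [← (f j).map_add, ← bK_cl_mul]
      rfl)
  have hFz : ∀ j (k : ℤ) (y : H) (hy : y ∈ K ⊓ ν.ker),
      F j (Additive.ofMul ⟨h ^ k * y * (h ^ k)⁻¹, bK_mem ν K (K.zpow_mem hh k) hy⟩) =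
        F j (Additive.ofMul ⟨y, hy⟩) := by
    intro j k y hy
    change f j (bK_cl ⟨h ^ k * y * (h ^ k)⁻¹, _⟩) = f j (bK_cl ⟨y, hy⟩)
    rw [← bK_zpow hh k y hy]
    have h1 : ∀ (k : ℤ) (x : bK_V (K ⊓ ν.ker : Subgroup H)),
        f j (((bK_tau (bK_con ν K h hh)) ^ k) x) = f j x := by
      intro k
      induction k using Int.induction_on with
      | zero => intro x; rw [zpow_zero]; rfl
      | succ i ih =>
        intro x
        rw [zpow_add_one]
        exact (ih _).trans (hfτ j x)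
      | pred i ih =>
        intro x
        rw [zpow_sub_one]
        refine (ih _).trans ?_
        have h2 := hfτ j ((bK_tau (bK_con ν K h hh)).symm x)
        rw [LinearEquiv.apply_symm_apply] at h2
        exact h2.symm
    exact h1 k _
  have hex := fun j => bK_ext (ν := ν) (K := K) hh hν (fun x hx => ⟨n x, hn x hx⟩) (F j) (hFz j)
  choose g hg using hex
  have hgl : LinearIndependent ℚ g := by
    rw [Fintype.linearIndependent_iff]
    intro a ha
    rw [Fintype.linearIndependent_iff] at hf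
    apply hf a
    have h1 : LinearMap.ker (∑ j, a j • f j) = ⊤ := by
      apply bK_top
      rintro ⟨y, hy⟩
      rw [LinearMap.mem_ker, LinearMap.sum_apply]
      have h2 := DFunLike.congr_fun ha (Additive.ofMul (⟨y, hy.1⟩ : K))
      rw [AddMonoidHom.finsetSum_apply] at h2
      rw [← (show (0 : Additive K →+ ℚ) (Additive.ofMul (⟨y, hy.1⟩ : K)) = 0 from rfl), ← h2]
      refine Finset.sum_congr rfl fun j _ => ?_
      change a j * f j (bK_cl ⟨y, hy⟩) = a j * g j (Additive.ofMul ⟨y, hy.1⟩)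
      rw [hg j y hy]
      rfl
    exact LinearMap.ker_eq_top.mp h1
  have hKfg : Group.FG K := (Group.fg_iff_subgroup_fg K).mpr ⟨S, hS⟩
  have := bK_fin K
  have h3 := hgl.fintype_card_le_finrank
  rwa [Fintype.card_fin] at h3

end

end Pool.Agent.F8.CG
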