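import Pool.Agent.Lib.MP_305fdd_al.F8.CG.StmB1

/-!
# [CG bdd] a bound for the norm which does not depend on the set

The Schur test: the rows and the columns of the matrix `big A X` have an `ℓ¹`-norm which is at most the sum of the absolute values of all
coefficients of `A`.
-/

set_option autoImplicit false

namespace Pool.Agent.F8.CG

open Pool.Agent.F8.BG

/-- the sum of the absolute values of the coefficients -/
noncomputable def bdd_S {Γ : Type} [Group Γ] (a : MonoidAlgebra ℤ Γ) : ℝ :=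
  ∑ g ∈ a.coeff.support, |((a.coeff g : ℤ) : ℝ)|

theorem bdd_S_nonneg {Γ : Type} [Group Γ] (a : MonoidAlgebra ℤ Γ) : 0 ≤ bdd_S a :=
  Finset.sum_nonneg fun _ _ => abs_nonneg _

theorem bdd_entry {Γ : Type} [Group Γ] (a : MonoidAlgebra ℤ Γ) (X : Type) [Fintype X]
    [DecidableEq X] [MulAction Γ X] (x y : X) :
    |((rmat X a x y : ℤ) : ℝ)| ≤
      ∑ g ∈ a.coeff.support, |((a.coeff g : ℤ) : ℝ)| * (if g • y = x then 1 else 0) := by
  have h : rmat X a x y = ∑ g ∈ a.coeff.support, a.coeff g * (if g • y = x then 1 else 0) := by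
    unfold rmat
    rw [MonoidAlgebra.lift_apply, Finsupp.sum, Matrix.sum_apply]
    rfl
  rw [h]
  push_cast
  refine (Finset.abs_sum_le_sum_abs _ _).trans (Finset.sum_le_sum fun g _ => ?_)
  rw [abs_mul]
  refine mul_le_mul_of_nonneg_left ?_ (abs_nonneg _)
  split_ifs <;> simp

theorem bdd_row {Γ : Type} [Group Γ] (a : MonoidAlgebra ℤ Γ) (X : Type) [Fintype X]
    [DecidableEq X] [MulAction Γ X] (x : X) :
    ∑ y, |((rmat X a x y : ℤ) : ℝ)| ≤ bdd_S a := by
  refine (Finset.sum_le_sum fun y _ => bdd_entry a X x y).trans ?_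
  rw [Finset.sum_comm]
  refine Finset.sum_le_sum fun g _ => ?_
  rw [← Finset.mul_sum]
  have h : ∑ y : X, (if g • y = x then (1 : ℝ) else 0) = 1 := by
    rw [Finset.sum_eq_single (g⁻¹ • x)]
    · simp
    · intro y _ hy
      rw [if_neg]
      intro h
      exact hy (by rw [← h, inv_smul_smul])
    · intro h
      exact absurd (Finset.mem_univ _) h
  rw [h, mul_one]

theorem bdd_col {Γ : Type} [Group Γ] (a : MonoidAlgebra ℤ Γ) (X : Type) [Fintype X]
    [DecidableEq X] [MulAction Γ X] (y : X) :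
    ∑ x, |((rmat X a x y : ℤ) : ℝ)| ≤ bdd_S a := by
  refine (Finset.sum_le_sum fun x _ => bdd_entry a X x y).trans ?_
  rw [Finset.sum_comm]
  refine Finset.sum_le_sum fun g _ => ?_
  rw [← Finset.mul_sum]
  have h : ∑ x : X, (if g • y = x then (1 : ℝ) else 0) = 1 := by
    rw [Finset.sum_ite_eq]
    simp
  rw [h, mul_one]

/-- the Schur test -/
theorem bdd_schur {n : Type} [Fintype n] (B : n → n → ℝ) (M : ℝ) (hM : 0 ≤ M)
    (hr : ∀ a, ∑ b, |B a b| ≤ M) (hc : ∀ b, ∑ a, |B a b| ≤ M) (v : n → ℝ) :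
    ∑ a, (∑ b, B a b * v b) ^ 2 ≤ M ^ 2 * ∑ a, v a ^ 2 := by
  have h1 : ∀ a, (∑ b, B a b * v b) ^ 2 ≤ M * ∑ b, |B a b| * v b ^ 2 := by
    intro a
    have h2 : (∑ b, B a b * v b) ^ 2 ≤ (∑ b, |B a b|) * ∑ b, |B a b| * v b ^ 2 := by
      refine Finset.sum_sq_le_sum_mul_sum_of_sq_eq_mul _ (fun b _ => abs_nonneg _)
        (fun b _ => by positivity) (fun b _ => ?_)
      rw [mul_pow, ← sq_abs (B a b)]
      ring
    refine h2.trans (mul_le_mul_of_nonneg_right (hr a) ?_)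
    exact Finset.sum_nonneg fun b _ => by positivity
  calc ∑ a, (∑ b, B a b * v b) ^ 2 ≤ ∑ a, M * ∑ b, |B a b| * v b ^ 2 :=
        Finset.sum_le_sum fun a _ => h1 a
    _ = M * ∑ b, (∑ a, |B a b|) * v b ^ 2 := by
        rw [← Finset.mul_sum, Finset.sum_comm]
        congr 1
        refine Finset.sum_congr rfl fun b _ => ?_
        rw [Finset.sum_mul]
    _ ≤ M * ∑ b, M * v b ^ 2 := by
        refine mul_le_mul_of_nonneg_left (Finset.sum_le_sum fun b _ => ?_) hM
        exact mul_le_mul_of_nonneg_right (hc b) (sq_nonneg _)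
    _ = M ^ 2 * ∑ a, v a ^ 2 := by
        rw [← Finset.mul_sum]; ring

/-- [CG bdd] -/
theorem p_bdd : B_bdd := by
  intro ι _ _ Γ _ A
  set M : ℝ := ∑ i, ∑ j, bdd_S (A i j) with hMdef
  have hM : 0 ≤ M := Finset.sum_nonneg fun i _ => Finset.sum_nonneg fun j _ => bdd_S_nonneg _
  refine ⟨M ^ 2 + 1, by nlinarith [sq_nonneg M], ?_⟩
  intro X _ _ _ v
  have hr : ∀ a : ι × X, ∑ b, |((big A X a b : ℤ) : ℝ)| ≤ M := by
    rintro ⟨i, x⟩
    rw [Fintype.sum_prod_type]
    calc ∑ j, ∑ y, |((big A X (i, x) (j, y) : ℤ) : ℝ)| ≤ ∑ j, bdd_S (A i j) :=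
          Finset.sum_le_sum fun j _ => bdd_row (A i j) X x
      _ ≤ M := by
          rw [hMdef]
          exact Finset.single_le_sum (f := fun i => ∑ j, bdd_S (A i j))
            (fun i _ => Finset.sum_nonneg fun j _ => bdd_S_nonneg _) (Finset.mem_univ i)
  have hc : ∀ b : ι × X, ∑ a, |((big A X a b : ℤ) : ℝ)| ≤ M := by
    rintro ⟨j, y⟩
    rw [Fintype.sum_prod_type]
    calc ∑ i, ∑ x, |((big A X (i, x) (j, y) : ℤ) : ℝ)| ≤ ∑ i, bdd_S (A i j) :=
          Finset.sum_le_sum fun i _ => bdd_col (A i j) X y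
      _ ≤ M := by
          rw [hMdef]
          exact Finset.sum_le_sum fun i _ => Finset.single_le_sum
            (f := fun j => bdd_S (A i j)) (fun j _ => bdd_S_nonneg _) (Finset.mem_univ j)
  refine (bdd_schur (fun a b => ((big A X a b : ℤ) : ℝ)) M hM hr hc v).trans ?_
  have h0 : 0 ≤ ∑ a, v a ^ 2 := Finset.sum_nonneg fun a _ => sq_nonneg _
  nlinarith

end Pool.Agent.F8.CG
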