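import Pool.Agent.Lib.MP_305fdd_al.F8.CG.StmB2

set_option autoImplicit false

namespace Pool.Agent.F8.CG

open Pool.Agent.F8.BG

private theorem chn_free {H : Type} [Group H] (N L : Subgroup H) (h : IsFreeGroup N) :
    IsFreeGroup (L ⊓ N : Subgroup H) :=
  IsFreeGroup.ofMulEquiv (Subgroup.subgroupOfEquivOfLe (inf_le_right : L ⊓ N ≤ N))

/-- a normal subgroup of index `q` -/
private theorem chn_sub (q : ℕ) [Fact q.Prime] (Q : Type) [Group Q] (n : ℕ)
    (h : Nat.card Q = q ^ (n + 1)) : ∃ N : Subgroup Q, N.Normal ∧ N.index = q := by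
  have hq : q.Prime := Fact.out
  have : Finite Q := Nat.finite_of_card_ne_zero (by rw [h]; exact pow_ne_zero _ hq.ne_zero)
  obtain ⟨N, hN⟩ := Sylow.exists_subgroup_card_pow_prime (G := Q) q (n := n)
    (by rw [h]; exact pow_dvd_pow q (Nat.le_succ n))
  have hi : N.index = q := by
    have h1 := N.card_mul_index
    rw [hN, h, pow_succ] at h1
    exact Nat.eq_of_mul_eq_mul_left (pow_pos hq.pos n) h1
  refine ⟨N, ?_, hi⟩
  apply Subgroup.normal_of_index_eq_minFac_card
  rw [hi, h, Nat.Prime.pow_minFac hq (Nat.succ_ne_zero n)]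

/-- a step of the chain -/
private theorem chn_step (q : ℕ) [Fact q.Prime] {H : Type} [Group H] (K L : Subgroup H)
    [K.Normal] (hKL : K ≤ L) (n : ℕ) (h : K.relIndex L = q ^ (n + 1)) :
    ∃ L' : Subgroup H, K ≤ L' ∧ L' ≤ L ∧ (∀ g ∈ L, ∀ x ∈ L', g * x * g⁻¹ ∈ L') ∧
      L'.relIndex L = q ∧ K.relIndex L' = q ^ n := by
  have hq : q.Prime := Fact.out
  obtain ⟨N, hN, hi⟩ := chn_sub q (L ⧸ K.subgroupOf L) n h
  obtain ⟨M, hM⟩ : ∃ M : Subgroup L, M = N.comap (QuotientGroup.mk' (K.subgroupOf L)) := ⟨_, rfl⟩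
  have hMn : M.Normal := by
    rw [hM]
    infer_instance
  have hMi : M.index = q := by
    rw [hM, Subgroup.index_comap_of_surjective _ (QuotientGroup.mk'_surjective _), hi]
  have hKM : K.subgroupOf L ≤ M := by
    intro x hx
    rw [hM, Subgroup.mem_comap]
    have : QuotientGroup.mk' (K.subgroupOf L) x = 1 := by
      rw [QuotientGroup.mk'_apply, QuotientGroup.eq_one_iff]
      exact hx
    rw [this]
    exact N.one_mem
  have hsub : (M.map L.subtype).subgroupOf L = M :=
    Subgroup.comap_map_eq_self_of_injective L.subtype_injective M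
  have h1 : K ≤ M.map L.subtype := by
    intro x hx
    exact ⟨⟨x, hKL hx⟩, hKM hx, rfl⟩
  have h2 : M.map L.subtype ≤ L := by
    rintro _ ⟨x, -, rfl⟩
    exact x.2
  have h3 : (M.map L.subtype).relIndex L = q := by
    rw [Subgroup.relIndex, hsub, hMi]
  refine ⟨M.map L.subtype, h1, h2, ?_, h3, ?_⟩
  · rintro g hg _ ⟨x, hx, rfl⟩
    exact ⟨⟨g, hg⟩ * x * ⟨g, hg⟩⁻¹, hMn.conj_mem x hx ⟨g, hg⟩, rfl⟩
  · have h4 := Subgroup.relIndex_mul_relIndex K (M.map L.subtype) L h1 h2
    rw [h3, h, pow_succ] at h4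
    exact Nat.eq_of_mul_eq_mul_right hq.pos h4

theorem p_chn (hstA : B_stA) (hstB : B_stB) : B_chn := by
  intro q _ H _ ν hfree htop K _ n hn
  have key : ∀ (n : ℕ) (L : Subgroup H) (e : ℕ), K ≤ L → K.relIndex L = q ^ n → IndK q ν L e →
      IndK q ν K (q ^ n * e) := by
    intro n
    induction n with
    | zero =>
      intro L e hKL h hL
      rw [pow_zero] at h
      have hLK : L ≤ K := Subgroup.relIndex_eq_one.1 h
      have hE : L = K := le_antisymm hLK hKL
      rw [pow_zero, one_mul, ← hE]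
      exact hL
    | succ n ih =>
      intro L e hKL h hL
      obtain ⟨L', h1, h2, h3, h4, h5⟩ := chn_step q K L hKL n h
      have h6 : IndK q ν L' (q * e) := by
        by_cases hc : L ⊓ ν.ker ≤ L'
        · exact hstA q H ν L L' e h2 h4 hc hL
        · exact hstB q H ν L L' e (chn_free ν.ker L hfree) h2 h3 h4 hc hL
      have h7 := ih L' (q * e) h1 h5 h6
      rw [← mul_assoc, ← pow_succ] at h7
      exact h7
  have h8 := key n ⊤ 1 le_top (by rw [Subgroup.relIndex_top_right]; exact hn) htop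
  rw [mul_one] at h8
  exact h8

end Pool.Agent.F8.CG
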