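import Pool.Agent.Lib.MP_305fdd_al.F8.CG.StmB2

set_option autoImplicit false

namespace Pool.Agent.F8.CG

open Pool.Agent.F8.BG

private def fac_perm (q : ℕ) (a f : ZMod q) : Equiv.Perm (ZMod q × ZMod q) where
  toFun p := (p.1 + a, p.2 + if p.1 + a = 0 then f else 0)
  invFun p := (p.1 - a, p.2 - if p.1 = 0 then f else 0)
  left_inv p := by
    obtain ⟨i, v⟩ := p
    simp
  right_inv p := by
    obtain ⟨i, v⟩ := p
    simp

private lemma fac_coc (q : ℕ) [Fact q.Prime] (ι P : Type) [Group P] (e : FreeGroup ι ≃* P)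
    (χ f : P → ZMod q) (hχ : ∀ x y, χ (x * y) = χ x + χ y) (hf : ∀ x y, f (x * y) = f x + f y) :
    ∃ g : P → ZMod q → ZMod q, (∀ x y i, g (x * y) i = g x (i + χ y) + g y i) ∧
      ∀ x, ∑ i, g x i = f x := by
  classical
  have hχ1 : χ 1 = 0 := by have := hχ 1 1; rw [mul_one] at this; simpa using this
  have hf1 : f 1 = 0 := by have := hf 1 1; rw [mul_one] at this; simpa using this
  have hχi : ∀ x, χ x⁻¹ = - χ x := by
    intro x
    have := hχ x⁻¹ x
    rw [inv_mul_cancel, hχ1] at this
    exact eq_neg_of_add_eq_zero_left this.symm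
  have hfi : ∀ x, f x⁻¹ = - f x := by
    intro x
    have := hf x⁻¹ x
    rw [inv_mul_cancel, hf1] at this
    exact eq_neg_of_add_eq_zero_left this.symm
  let Θ : FreeGroup ι →* Equiv.Perm (ZMod q × ZMod q) :=
    FreeGroup.lift (fun b => fac_perm q (χ (e (FreeGroup.of b))) (f (e (FreeGroup.of b))))
  have key : ∀ w : FreeGroup ι, ∃ g : ZMod q → ZMod q,
      (∀ i v, Θ w (i, v) = (i + χ (e w), v + g i)) ∧ ∑ i, g i = f (e w) := by
    intro w
    induction w using FreeGroup.induction_on with
    | C1 =>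
      refine ⟨fun _ => 0, ?_, ?_⟩
      · intro i v
        rw [map_one, map_one, hχ1]
        simp
      · rw [map_one, hf1]; simp
    | of b =>
      refine ⟨fun i => if i + χ (e (FreeGroup.of b)) = 0 then f (e (FreeGroup.of b)) else 0, ?_, ?_⟩
      · intro i v
        show Θ (FreeGroup.of b) (i, v) = _
        simp only [Θ, FreeGroup.lift_apply_of]
        rfl
      · rw [Finset.sum_eq_single (- χ (e (FreeGroup.of b)))]
        · simp
        · intro j _ hj
          rw [if_neg]
          intro h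
          exact hj (eq_neg_of_add_eq_zero_left h)
        · intro h
          exact absurd (Finset.mem_univ _) h
    | inv_of b ih =>
      obtain ⟨g, hg1, hg2⟩ := ih
      refine ⟨fun j => - g (j - χ (e (FreeGroup.of b))), ?_, ?_⟩
      · intro j v
        rw [map_inv, map_inv, hχi, Equiv.Perm.inv_eq_iff_eq, hg1]
        ext
        · simp
        · simp [sub_eq_add_neg]
      · rw [map_inv, hfi, Finset.sum_neg_distrib, ← hg2]
        congr 1
        exact Equiv.sum_comp (Equiv.subRight (χ (e (FreeGroup.of b)))) g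
    | mul x y hx hy =>
      obtain ⟨g, hg1, hg2⟩ := hx
      obtain ⟨k, hk1, hk2⟩ := hy
      refine ⟨fun i => g (i + χ (e y)) + k i, ?_, ?_⟩
      · intro i v
        rw [map_mul, map_mul, hχ, Equiv.Perm.mul_apply, hk1, hg1]
        ext
        · simp only; ring
        · simp only; ring
      · rw [map_mul, hf, Finset.sum_add_distrib, hk2, ← hg2]
        congr 1
        exact Equiv.sum_comp (Equiv.addRight (χ (e y))) g
  choose g hg1 hg2 using key
  refine ⟨fun x => g (e.symm x), ?_, ?_⟩
  · intro x y i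
    have h1 := hg1 (e.symm x * e.symm y) i 0
    rw [map_mul Θ, Equiv.Perm.mul_apply, hg1 (e.symm y), hg1 (e.symm x), map_mul e] at h1
    have h2 := congrArg Prod.snd h1
    simp only [MulEquiv.apply_symm_apply] at h2
    show g (e.symm (x * y)) i = g (e.symm x) (i + χ y) + g (e.symm y) i
    rw [map_mul e.symm]
    linear_combination -h2
  · intro x
    have := hg2 (e.symm x)
    rwa [MulEquiv.apply_symm_apply] at this

private lemma fac_sum (q : ℕ) [Fact q.Prime] (g : ZMod q → ZMod q) :
    ∑ i ∈ Finset.range q, g (-(i : ZMod q)) = ∑ j, g j := by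
  classical
  refine Finset.sum_nbij' (fun i => -(i : ZMod q)) (fun j => (-j).val) ?_ ?_ ?_ ?_ ?_
  · intro i _; exact Finset.mem_univ _
  · intro j _; exact Finset.mem_range.mpr (ZMod.val_lt _)
  · intro i hi
    simp only [neg_neg]
    exact ZMod.val_cast_of_lt (Finset.mem_range.mp hi)
  · intro j _
    simp
  · intro i _; rfl

theorem p_fac : B_fac := by
  classical
  intro q hq P _ hP P' hN hidx c hc f
  haveI : IsFreeGroup P := hP
  have hq' : q.Prime := hq.out
  -- the character
  have hcard : Nat.card (P ⧸ P') = q := hidx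
  have hcard2 : Nat.card (Multiplicative (ZMod q)) = q := by
    rw [Nat.card_congr Multiplicative.toAdd, Nat.card_zmod]
  let ε : (P ⧸ P') ≃* Multiplicative (ZMod q) := mulEquivOfPrimeCardEq hcard hcard2
  let χ₀ : P →* Multiplicative (ZMod q) := ε.toMonoidHom.comp (QuotientGroup.mk' P')
  have hχ₀ : ∀ x, χ₀ x = 1 ↔ x ∈ P' := by
    intro x
    show ε (QuotientGroup.mk' P' x) = 1 ↔ _
    rw [MulEquiv.map_eq_one_iff]
    exact QuotientGroup.eq_one_iff x
  set t : ZMod q := Multiplicative.toAdd (χ₀ c) with ht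
  have ht0 : t ≠ 0 := by
    intro h
    apply hc
    rw [← hχ₀]
    exact h
  let χ : P → ZMod q := fun x => Multiplicative.toAdd (χ₀ x) * t⁻¹
  have hχ : ∀ x y, χ (x * y) = χ x + χ y := by
    intro x y
    simp only [χ, map_mul, toAdd_mul, add_mul]
  have hχc : χ c = 1 := mul_inv_cancel₀ ht0
  have hχP : ∀ x ∈ P', χ x = 0 := by
    intro x hx
    have : χ₀ x = 1 := (hχ₀ x).mpr hx
    simp only [χ, this, toAdd_one, zero_mul]
  have hχ1 : χ 1 = 0 := hχP 1 P'.one_mem
  have hχpow : ∀ i : ℕ, χ (c ^ i) = i := by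
    intro i
    induction i with
    | zero => simpa using hχ1
    | succ i ih => rw [pow_succ, hχ, ih, hχc]; push_cast; ring
  have hχinv : ∀ i : ℕ, χ ((c ^ i)⁻¹) = -(i : ZMod q) := by
    intro i
    have := hχ (c ^ i)⁻¹ (c ^ i)
    rw [inv_mul_cancel, hχ1, hχpow] at this
    exact eq_neg_of_add_eq_zero_left this.symm
  obtain ⟨g, hg1, hg2⟩ := fac_coc q (IsFreeGroup.Generators P) P
    (IsFreeGroup.mulEquiv P) χ (fun x => f (Additive.ofMul x)) hχ
    (fun x y => by
      show f (Additive.ofMul (x * y)) = _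
      rw [ofMul_mul, map_add])
  have hg0 : ∀ i, g 1 i = 0 := by
    intro i
    have := hg1 1 1 i
    rw [mul_one, hχ1, add_zero] at this
    simpa using this
  refine ⟨fun x => g x 0, ?_, ?_⟩
  · intro x y _ hy
    show g (x * y) 0 = _
    rw [hg1, hχP y hy, add_zero]
  · intro x hx
    have h1 : ∀ i ∈ Finset.range q, g (c ^ i * x * (c ^ i)⁻¹) 0 = g x (-(i : ZMod q)) := by
      intro i _
      have h2 := hg1 (c ^ i) (c ^ i)⁻¹ 0
      rw [mul_inv_cancel, hg0, hχinv, zero_add] at h2
      rw [hg1, hg1, hχinv, hχP x hx, add_zero, zero_add]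
      linear_combination -h2
    show ∑ i ∈ Finset.range q, g (c ^ i * x * (c ^ i)⁻¹) 0 = _
    rw [Finset.sum_congr rfl h1, fac_sum q (g x), hg2]

end Pool.Agent.F8.CG

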