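import Pool.Agent.Lib.MP_305fdd_al.F8.CG.StmB1

set_option autoImplicit false

namespace Pool.Agent.F8.CG

open Pool.Agent.F8.BG

theorem p_fixp : B_fixp := by
  intro Γ _ Γ₁ D hT E hE
  have := hT.fi
  have : Finite (Γ ⧸ Γ₁) := Γ₁.finite_quotient_of_finiteIndex
  have := Fintype.ofFinite (Γ ⧸ Γ₁)
  classical
  have h1 : ∀ p : Γ × (Γ ⧸ Γ₁), ∃ j : ℕ, p.1 ∈ E → (p.2.out)⁻¹ * p.1 * p.2.out ∉ D j := by
    intro p
    by_cases hp : p.1 ∈ E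
    · by_contra hcon
      push Not at hcon
      have h2 : ∀ j, (p.2.out)⁻¹ * p.1 * p.2.out ∈ D j := fun j => (hcon j).2
      have h3 := hT.inf _ h2
      apply hE
      have h4 : p.1 = 1 := by
        have h5 : p.1 = p.2.out * ((p.2.out)⁻¹ * p.1 * p.2.out) * (p.2.out)⁻¹ := by group
        rw [h5, h3]; group
      rwa [h4] at hp
    · exact ⟨0, fun h => absurd h hp⟩
  choose J hJ using h1
  refine ⟨(E ×ˢ (Finset.univ : Finset (Γ ⧸ Γ₁))).sup J, ?_⟩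
  intro D' hD' g hg x hx
  obtain ⟨y, rfl⟩ := QuotientGroup.mk_surjective x
  have h2 : y⁻¹ * (g * y) ∈ D' := by
    have h3 : ((y : Γ) : Γ ⧸ D') = ((g * y : Γ) : Γ ⧸ D') := hx.symm
    exact QuotientGroup.eq.1 h3
  set c : Γ ⧸ Γ₁ := ((y : Γ) : Γ ⧸ Γ₁) with hc
  have h3 : (c.out)⁻¹ * y ∈ Γ₁ := by
    exact QuotientGroup.eq.1 (QuotientGroup.out_eq' c)
  have h4 : J (g, c) ≤ (E ×ˢ (Finset.univ : Finset (Γ ⧸ Γ₁))).sup J :=
    Finset.le_sup (f := J) (Finset.mem_product.2 ⟨hg, Finset.mem_univ _⟩)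
  have h5 := hT.nor _ _ h3 _ (hD' h2)
  have h6 := hT.anti h4 h5
  apply hJ (g, c) hg
  have h7 : (c.out)⁻¹ * g * c.out = (c.out)⁻¹ * y * (y⁻¹ * (g * y)) * ((c.out)⁻¹ * y)⁻¹ := by
    group
  show (c.out)⁻¹ * g * c.out ∈ D (J (g, c))
  rw [h7]
  exact h6

end Pool.Agent.F8.CG
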