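import Pool.Agent.Lib.MP_305fdd_al.F8.CG.StmB1

/-!
# MP_305fdd_al, congruence subgroups: the Fox derivatives
-/

set_option autoImplicit false

namespace Pool.Agent.F8.CG

open Pool.Agent.F8.BG

noncomputable section

/-- the action of the group ring -/
def fox_L (G M : Type) [Group G] [AddCommGroup M] [DistribMulAction G M] :
    MonoidAlgebra ℤ G →ₐ[ℤ] AddMonoid.End M :=
  MonoidAlgebra.lift ℤ (AddMonoid.End M) G (DistribMulAction.toAddMonoidEnd G M)

theorem fox_L_apply {G M : Type} [Group G] [AddCommGroup M] [DistribMulAction G M]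
    (c : MonoidAlgebra ℤ G) (m : M) :
    fox_L G M c m = c.coeff.sum fun g n => n • (g • m) := by
  unfold fox_L
  rw [MonoidAlgebra.lift_apply]
  unfold Finsupp.sum
  exact AddMonoidHom.finsetSum_apply (M := M) (N := M) _ _ _

theorem fox_L_single {G M : Type} [Group G] [AddCommGroup M] [DistribMulAction G M]
    (g : G) (n : ℤ) (m : M) :
    fox_L G M (MonoidAlgebra.single g n) m = n • (g • m) := by
  unfold fox_L
  rw [MonoidAlgebra.lift_single]
  rfl

theorem fox_word {ι : Type} [Fintype ι] (w : FreeGroup ι) :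
    ∃ c : ι → MonoidAlgebra ℤ (FreeGroup ι),
      ∀ (M : Type) [AddCommGroup M] [DistribMulAction (FreeGroup ι) M] (z : FreeGroup ι → M),
        (∀ g h, z (g * h) = z g + g • z h) →
          z w = ∑ j, fox_L (FreeGroup ι) M (c j) (z (FreeGroup.of j)) := by
  classical
  induction w using FreeGroup.induction_on with
  | C1 =>
    refine ⟨fun _ => 0, ?_⟩
    intro M _ _ z hz
    have h1 := hz 1 1
    rw [one_mul, one_smul] at h1
    have h2 : z 1 = 0 := by
      have : z 1 + z 1 = z 1 + 0 := by rw [add_zero]; exact h1.symm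
      exact add_left_cancel this
    rw [h2]
    simp
  | of i =>
    refine ⟨fun j => if j = i then MonoidAlgebra.single 1 1 else 0, ?_⟩
    intro M _ _ z hz
    rw [Finset.sum_eq_single i]
    · beta_reduce
      rw [if_pos rfl, fox_L_single, one_smul, one_smul]
    · intro b _ hb
      beta_reduce
      rw [if_neg hb, map_zero]; rfl
    · intro h; exact absurd (Finset.mem_univ _) h
  | inv_of i ih =>
    refine ⟨fun j => if j = i then MonoidAlgebra.single (FreeGroup.of i)⁻¹ (-1) else 0, ?_⟩
    intro M _ _ z hz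
    rw [Finset.sum_eq_single i]
    · beta_reduce
      rw [if_pos rfl, fox_L_single]
      have h1 := hz 1 1
      rw [one_mul, one_smul] at h1
      have h2 : z 1 = 0 := by
        have : z 1 + z 1 = z 1 + 0 := by rw [add_zero]; exact h1.symm
        exact add_left_cancel this
      have h3 := hz (FreeGroup.of i)⁻¹ (FreeGroup.of i)
      rw [inv_mul_cancel, h2] at h3
      rw [neg_smul, one_smul]
      exact eq_neg_of_add_eq_zero_left h3.symm
    · intro b _ hb
      beta_reduce
      rw [if_neg hb, map_zero]; rfl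
    · intro h; exact absurd (Finset.mem_univ _) h
  | mul v w hv hw =>
    obtain ⟨c, hc⟩ := hv
    obtain ⟨d, hd⟩ := hw
    refine ⟨fun j => c j + MonoidAlgebra.single v 1 * d j, ?_⟩
    intro M _ _ z hz
    rw [hz, hc M z hz, hd M z hz, Finset.smul_sum, ← Finset.sum_add_distrib]
    apply Finset.sum_congr rfl
    intro j _
    rw [map_add, map_mul]
    show _ = fox_L (FreeGroup ι) M (c j) (z (FreeGroup.of j)) +
      fox_L (FreeGroup ι) M (MonoidAlgebra.single v 1)
        (fox_L (FreeGroup ι) M (d j) (z (FreeGroup.of j)))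
    rw [fox_L_single, one_smul]

theorem p_fox : B_fox := by
  intro ι _ α
  choose c hc using fun w : FreeGroup ι => fox_word w
  refine ⟨fun i j => c (α (FreeGroup.of i)) j, ?_⟩
  intro M _ _ z hz i
  rw [hc (α (FreeGroup.of i)) M z hz]
  apply Finset.sum_congr rfl
  intro j _
  rw [fox_L_apply]

end

end Pool.Agent.F8.CG
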