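import Pool.Agent.Lib.MP_305fdd_al.F8.CG.StmB2

/-!
# MP_305fdd_al, project CG: piece fre, a homomorphism of a free group onto `ℤ` with a kernel which is not
finitely generated

The free group acts on `ℤ × ℤ`: the first generator shifts the first component, the second one adds `1`
to the second component if the first component is `0`.
-/

set_option autoImplicit false

namespace Pool.Agent.F8.CG

noncomputable section

/-- the shift -/
private def fre_e0 : Equiv.Perm (ℤ × ℤ) where
  toFun p := (p.1 + 1, p.2)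
  invFun p := (p.1 - 1, p.2)
  left_inv p := by simp
  right_inv p := by simp

/-- the change at `0` -/
private def fre_e1 : Equiv.Perm (ℤ × ℤ) where
  toFun p := (p.1, p.2 + if p.1 = 0 then 1 else 0)
  invFun p := (p.1, p.2 - if p.1 = 0 then 1 else 0)
  left_inv p := by simp
  right_inv p := by simp

/-- permutations which shift the first component and change the second component at finitely many
places -/
private def fre_Q (e : Equiv.Perm (ℤ × ℤ)) (a : ℤ) : Prop :=
  ∃ u : ℤ → ℤ, {i | u i ≠ 0}.Finite ∧ ∀ p, e p = (p.1 + a, p.2 + u p.1)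

private theorem fre_Q_one : fre_Q 1 0 :=
  ⟨fun _ => 0, by simp, fun p => by simp⟩

private theorem fre_Q_mul {e f : Equiv.Perm (ℤ × ℤ)} {a b : ℤ} (he : fre_Q e a)
    (hf : fre_Q f b) : fre_Q (e * f) (a + b) := by
  obtain ⟨u, hu, hu'⟩ := he
  obtain ⟨v, hv, hv'⟩ := hf
  refine ⟨fun i => v i + u (i + b), ?_, ?_⟩
  · apply (hv.union (hu.preimage (f := fun i => i + b)
      (fun x _ y _ h => by simpa using h))).subset
    intro i hi
    by_contra hcon
    simp only [Set.mem_union, Set.mem_ofPred_eq, Set.mem_preimage, not_or, not_not] at hcon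
    apply hi
    change v i + u (i + b) = 0
    rw [hcon.1, hcon.2, add_zero]
  · intro p
    rw [Equiv.Perm.mul_apply, hv', hu']
    apply Prod.ext
    · change p.1 + b + a = p.1 + (a + b)
      ring
    · change p.2 + v p.1 + u (p.1 + b) = p.2 + (v p.1 + u (p.1 + b))
      ring

private theorem fre_Q_inv {e : Equiv.Perm (ℤ × ℤ)} {a : ℤ} (he : fre_Q e a) :
    fre_Q e⁻¹ (-a) := by
  obtain ⟨u, hu, hu'⟩ := he
  refine ⟨fun i => -u (i - a), ?_, ?_⟩
  · apply (hu.preimage (f := fun i => i - a) (fun x _ y _ h => by simpa using h)).subset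
    intro i hi
    by_contra hcon
    simp only [Set.mem_ofPred_eq, Set.mem_preimage, not_not] at hcon
    apply hi
    change -u (i - a) = 0
    rw [hcon, neg_zero]
  · intro p
    rw [Equiv.Perm.inv_eq_iff_eq, hu']
    apply Prod.ext
    · change p.1 = p.1 + -a + a
      ring
    · change p.2 = p.2 + -u (p.1 - a) + u (p.1 + -a)
      rw [← sub_eq_add_neg p.1 a]
      ring

private theorem fre_Q_e0 : fre_Q fre_e0 1 :=
  ⟨fun _ => 0, by simp, fun p => by
    rw [add_zero]
    rfl⟩

private theorem fre_Q_e1 : fre_Q fre_e1 0 := by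
  refine ⟨fun i => if i = 0 then 1 else 0, ?_, fun p => ?_⟩
  · apply (Set.finite_singleton (0 : ℤ)).subset
    intro i hi
    by_contra hcon
    apply hi
    change (if i = 0 then (1 : ℤ) else 0) = 0
    have hcon' : i ≠ 0 := hcon
    rw [if_neg hcon']
  · rw [add_zero]
    rfl

private theorem fre_e0_pow (k : ℤ) (p : ℤ × ℤ) : (fre_e0 ^ k) p = (p.1 + k, p.2) := by
  induction k using Int.induction_on generalizing p with
  | zero => simp
  | succ i ih =>
    rw [zpow_add_one, Equiv.Perm.mul_apply, ih]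
    apply Prod.ext
    · change p.1 + 1 + i = p.1 + (i + 1)
      ring
    · rfl
  | pred i ih =>
    rw [zpow_sub_one, Equiv.Perm.mul_apply, ih]
    apply Prod.ext
    · change p.1 - 1 + -i = p.1 + (-i - 1)
      ring
    · rfl

/-- the main lemma -/
private theorem fre_main (H : Type) [Group H] (ν : H →* Multiplicative ℤ)
    (Θ : H →* Equiv.Perm (ℤ × ℤ)) (hQ : ∀ x, fre_Q (Θ x) (Multiplicative.toAdd (ν x)))
    (x₀ x₁ : H) (h0 : Θ x₀ = fre_e0) (h1 : Θ x₁ = fre_e1) (n1 : ν x₁ = 1) :
    ¬ Group.FG ν.ker := by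
  intro hfg
  rw [Group.fg_iff_subgroup_fg] at hfg
  obtain ⟨S, hS⟩ := hfg
  choose u hu hu' using hQ
  obtain ⟨k, hk⟩ : ∃ k : ℤ, k ∉ ⋃ s ∈ S, {i | u s i ≠ 0} :=
    (Set.Finite.biUnion S.finite_toSet fun s _ => hu s).exists_notMem
  have hk' : ∀ s ∈ S, u s k = 0 := by
    intro s hs
    by_contra hcon
    apply hk
    simp only [Set.mem_iUnion]
    exact ⟨s, hs, hcon⟩
  -- the subgroup of the elements which fix `(k, m)`
  have hle : ν.ker ≤ (MulAction.stabilizer (Equiv.Perm (ℤ × ℤ)) ((k, 0) : ℤ × ℤ)).comap Θ := by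
    rw [← hS, Subgroup.closure_le]
    intro s hs
    have hs1 : s ∈ ν.ker := by
      rw [← hS]
      exact Subgroup.subset_closure hs
    rw [MonoidHom.mem_ker] at hs1
    change Θ s (k, 0) = (k, 0)
    rw [hu' s, hs1, hk' s hs]
    simp
  have hmem : x₀ ^ k * x₁ * (x₀ ^ k)⁻¹ ∈ ν.ker := by
    rw [MonoidHom.mem_ker, map_mul, map_mul, n1, mul_one, map_inv, mul_inv_cancel]
  have h2 : Θ (x₀ ^ k * x₁ * (x₀ ^ k)⁻¹) (k, 0) = (k, 0) := hle hmem
  rw [map_mul, map_mul, map_inv, map_zpow, h0, h1, ← zpow_neg, Equiv.Perm.mul_apply,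
    Equiv.Perm.mul_apply, fre_e0_pow, fre_e0_pow] at h2
  have h3 := congrArg Prod.snd h2
  change (0 : ℤ) + (if k + -k = 0 then 1 else 0) = 0 at h3
  rw [if_pos (by ring)] at h3
  norm_num at h3

private theorem fre_comm (X : Type) [Subsingleton X] (x y : FreeGroup X) : x * y = y * x := by
  have h1 : ∀ (a : X) (y : FreeGroup X), Commute (FreeGroup.of a) y := by
    intro a y
    induction y using FreeGroup.induction_on with
    | C1 => exact Commute.one_right _
    | of b =>
      rw [Subsingleton.elim b a]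
    | inv_of b h => exact h.inv_right
    | mul x y hx hy => exact hx.mul_right hy
  have h2 : Commute x y := by
    induction x using FreeGroup.induction_on with
    | C1 => exact Commute.one_left _
    | of b => exact h1 b y
    | inv_of b h => exact h.inv_left
    | mul x z hx hz => exact hx.mul_left hz
  exact h2

theorem p_fre : B_fre := by
  classical
  intro H _ _ hfree hna
  let φ : H ≃* FreeGroup (IsFreeGroup.Generators H) := IsFreeGroup.toFreeGroup H
  obtain ⟨b₀, b₁, hb⟩ : ∃ b₀ b₁ : IsFreeGroup.Generators H, b₀ ≠ b₁ := by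
    by_contra hcon
    push Not at hcon
    have hsub : Subsingleton (IsFreeGroup.Generators H) := ⟨hcon⟩
    obtain ⟨x, y, hxy⟩ := hna
    apply hxy
    apply φ.injective
    rw [map_mul, map_mul]
    exact fre_comm _ _ _
  let ν₀ : FreeGroup (IsFreeGroup.Generators H) →* Multiplicative ℤ :=
    FreeGroup.lift fun b => if b = b₀ then Multiplicative.ofAdd 1 else 1
  let Θ₀ : FreeGroup (IsFreeGroup.Generators H) →* Equiv.Perm (ℤ × ℤ) :=
    FreeGroup.lift fun b => if b = b₀ then fre_e0 else if b = b₁ then fre_e1 else 1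
  have hν : ∀ b, ν₀ (FreeGroup.of b) = if b = b₀ then Multiplicative.ofAdd 1 else 1 :=
    fun b => FreeGroup.lift_apply_of
  have hΘ : ∀ b, Θ₀ (FreeGroup.of b) = if b = b₀ then fre_e0 else if b = b₁ then fre_e1 else 1 :=
    fun b => FreeGroup.lift_apply_of
  have hQ : ∀ x, fre_Q (Θ₀ x) (Multiplicative.toAdd (ν₀ x)) := by
    intro x
    induction x using FreeGroup.induction_on with
    | C1 =>
      rw [map_one, map_one]
      exact fre_Q_one
    | of b =>
      rw [hν, hΘ]
      by_cases h0 : b = b₀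
      · rw [if_pos h0, if_pos h0]
        exact fre_Q_e0
      · rw [if_neg h0, if_neg h0]
        by_cases h1 : b = b₁
        · rw [if_pos h1]
          exact fre_Q_e1
        · rw [if_neg h1]
          exact fre_Q_one
    | inv_of b h =>
      rw [map_inv, map_inv]
      exact fre_Q_inv h
    | mul x y hx hy =>
      rw [map_mul, map_mul]
      exact fre_Q_mul hx hy
  refine ⟨ν₀.comp φ.toMonoidHom, ?_, ?_⟩
  · intro z
    refine ⟨φ.symm (FreeGroup.of b₀ ^ Multiplicative.toAdd z), ?_⟩
    change ν₀ (φ (φ.symm _)) = z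
    rw [MulEquiv.apply_symm_apply, map_zpow, hν, if_pos rfl, ← ofAdd_zsmul]
    simp
  · apply fre_main H (ν₀.comp φ.toMonoidHom) (Θ₀.comp φ.toMonoidHom) (fun x => hQ (φ x)) (φ.symm (FreeGroup.of b₀))
      (φ.symm (FreeGroup.of b₁))
    · change Θ₀ (φ (φ.symm _)) = _
      rw [MulEquiv.apply_symm_apply, hΘ, if_pos rfl]
    · change Θ₀ (φ (φ.symm _)) = _
      rw [MulEquiv.apply_symm_apply, hΘ, if_neg (Ne.symm hb), if_pos rfl]
    · change ν₀ (φ (φ.symm _)) = _
      rw [MulEquiv.apply_symm_apply, hν, if_neg (Ne.symm hb)]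

end

end Pool.Agent.F8.CG
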