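import Pool.Agent.Lib.MP_305fdd_al.F8.CG.StmB1

/-!
# The kernel is small if the class of `n` modulo `m` is defined on `X`
-/

set_option autoImplicit false

namespace Pool.Agent.F8.CG

open Pool.Agent.F8.BG

noncomputable section

section

variable {ι : Type} [Fintype ι] [DecidableEq ι] {α : MulAut (FreeGroup ι)}
  {J : Matrix ι ι (MonoidAlgebra ℤ (FreeGroup ι))} {X : Type} [Fintype X] [DecidableEq X]
  [MulAction (GR α) X] {m : ℕ} {c : X → ZMod m}

private theorem grad_r
    (hc : ∀ (g : GR α) (x : X), c (g • x) = c x + ((Multiplicative.toAdd (nR α g) : ℤ) : ZMod m))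
    (a : MonoidAlgebra ℤ (FreeGroup ι)) (x y : X) (h : c x ≠ c y) :
    rmat X (MonoidAlgebra.mapDomain (iR α) a) x y = 0 := by
  induction a using MonoidAlgebra.induction_linear with
  | zero => rw [MonoidAlgebra.mapDomain_zero, map_zero]; rfl
  | add p q hp hq =>
    rw [MonoidAlgebra.mapDomain_add, map_add, Matrix.add_apply, hp, hq, add_zero]
  | single w n =>
    rw [MonoidAlgebra.mapDomain_single, rmat, MonoidAlgebra.lift_single, Matrix.smul_apply]
    have h1 : pmat X (iR α w) x y = 0 := by
      change (if iR α w • y = x then (1 : ℤ) else 0) = 0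
      rw [if_neg]
      intro he
      apply h
      rw [← he, hc, nR_iR]
      simp
    rw [h1, smul_zero]

private theorem grad_c1
    (hc : ∀ (g : GR α) (x : X), c (g • x) = c x + ((Multiplicative.toAdd (nR α g) : ℤ) : ZMod m))
    (x : X) : c (tR α • x) = c x + 1 := by
  rw [hc, nR_tR]
  simp

/-- the equation of the kernel -/
private theorem grad_eq (v : ι × X → ℚ)
    (hv : Matrix.mulVec ((big (foxA α J) X).map (Int.cast : ℤ → ℚ)) v = 0) (i : ι) (y : X) :
    v (i, y) = ∑ j, ∑ z, ((rmat X (MonoidAlgebra.mapDomain (iR α) (J i j)) (tR α • y) z : ℤ) : ℚ) *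
      v (j, z) := by
  have h1 := congrFun hv (i, tR α • y)
  rw [Matrix.mulVec, dotProduct, Fintype.sum_prod_type] at h1
  have h2 : ∀ j z, ((big (foxA α J) X).map (Int.cast : ℤ → ℚ)) (i, tR α • y) (j, z) =
      (if i = j then (if z = y then 1 else 0) else 0) -
        ((rmat X (MonoidAlgebra.mapDomain (iR α) (J i j)) (tR α • y) z : ℤ) : ℚ) := by
    intro j z
    rw [Matrix.map_apply]
    change ((rmat X (foxA α J i j) (tR α • y) z : ℤ) : ℚ) = _
    unfold foxA
    rw [map_sub, Matrix.sub_apply, Int.cast_sub]
    congr 1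
    by_cases hij : i = j
    · rw [if_pos hij, if_pos hij, rmat, MonoidAlgebra.lift_single, one_smul]
      change (((if tR α • z = tR α • y then (1 : ℤ) else 0) : ℤ) : ℚ) = _
      by_cases hz : z = y
      · rw [if_pos (by rw [hz]), if_pos hz, Int.cast_one]
      · rw [if_neg (fun he => hz (smul_left_cancel _ he)), if_neg hz, Int.cast_zero]
    · rw [if_neg hij, if_neg hij, map_zero, Matrix.zero_apply, Int.cast_zero]
  simp only [h2, sub_mul, Finset.sum_sub_distrib, ite_mul, one_mul, zero_mul] at h1
  have h3 : ∑ j, ∑ z, (if i = j then (if z = y then v (j, z) else 0) else 0) = v (i, y) := by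
    rw [Finset.sum_eq_single i]
    · rw [Finset.sum_eq_single y]
      · simp
      · intro z _ hz
        simp [hz]
      · intro h; exact absurd (Finset.mem_univ _) h
    · intro j _ hj
      simp [Ne.symm hj]
    · intro h; exact absurd (Finset.mem_univ _) h
  rw [h3] at h1
  have h4 : (0 : ι × X → ℚ) (i, tR α • y) = 0 := rfl
  rw [h4] at h1
  linarith

private theorem grad_zero [NeZero m]
    (hc : ∀ (g : GR α) (x : X), c (g • x) = c x + ((Multiplicative.toAdd (nR α g) : ℤ) : ZMod m))
    (v : ι × X → ℚ) (hv : Matrix.mulVec ((big (foxA α J) X).map (Int.cast : ℤ → ℚ)) v = 0)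
    (h0 : ∀ p : ι × X, c p.2 = 0 → v p = 0) : v = 0 := by
  have h1 : ∀ n : ℕ, ∀ p : ι × X, c p.2 = -(n : ZMod m) → v p = 0 := by
    intro n
    induction n with
    | zero => intro p hp; exact h0 p (by simpa using hp)
    | succ n ih =>
      rintro ⟨i, y⟩ hp
      rw [grad_eq v hv i y]
      refine Finset.sum_eq_zero fun j _ => Finset.sum_eq_zero fun z _ => ?_
      have h2 : c (tR α • y) = -(n : ZMod m) := by
        rw [grad_c1 hc]
        have : c y = -((n + 1 : ℕ) : ZMod m) := hp
        rw [this]
        push_cast
        ring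
      by_cases hz : c z = -(n : ZMod m)
      · rw [ih (j, z) hz, mul_zero]
      · rw [grad_r hc _ _ _ (by rw [h2]; exact fun he => hz he.symm), Int.cast_zero, zero_mul]
  funext p
  have h2 := h1 (-(c p.2)).val p (by rw [ZMod.natCast_zmod_val, neg_neg])
  rw [h2]
  rfl

private theorem grad_card [NeZero m]
    (hc : ∀ (g : GR α) (x : X), c (g • x) = c x + ((Multiplicative.toAdd (nR α g) : ℤ) : ZMod m)) :
    m * (Finset.univ.filter fun x : X => c x = 0).card = Fintype.card X := by
  have h1 : ∀ a : ZMod m, (Finset.univ.filter fun x : X => c x = a + 1).card =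
      (Finset.univ.filter fun x : X => c x = a).card := by
    intro a
    symm
    refine Finset.card_bij (fun x _ => tR α • x) ?_ ?_ ?_
    · intro x hx
      simp only [Finset.mem_filter, Finset.mem_univ, true_and] at hx ⊢
      rw [grad_c1 hc, hx]
    · intro x _ y _ he
      exact smul_left_cancel _ he
    · intro x hx
      simp only [Finset.mem_filter, Finset.mem_univ, true_and] at hx
      refine ⟨(tR α)⁻¹ • x, ?_, by simp⟩
      simp only [Finset.mem_filter, Finset.mem_univ, true_and]
      have h2 := grad_c1 hc ((tR α)⁻¹ • x)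
      rw [smul_inv_smul, hx] at h2
      exact (add_right_cancel h2).symm
  have h2 : ∀ n : ℕ, (Finset.univ.filter fun x : X => c x = (n : ZMod m)).card =
      (Finset.univ.filter fun x : X => c x = 0).card := by
    intro n
    induction n with
    | zero => simp
    | succ n ih => rw [Nat.cast_succ, h1, ih]
  have h3 : ∀ a : ZMod m, (Finset.univ.filter fun x : X => c x = a).card =
      (Finset.univ.filter fun x : X => c x = 0).card := by
    intro a
    have := h2 a.val
    rwa [ZMod.natCast_zmod_val] at this
  have h4 : Fintype.card X = ∑ a : ZMod m, (Finset.univ.filter fun x : X => c x = a).card := by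
    rw [← Finset.card_univ]
    exact Finset.card_eq_sum_card_fiberwise fun x _ => Finset.mem_univ _
  rw [h4, Finset.sum_congr rfl fun a _ => h3 a, Finset.sum_const, Finset.card_univ, ZMod.card,
    smul_eq_mul]

end

theorem p_grad : B_grad := by
  intro ι _ _ α J X _ _ _ m _ c hc
  have h1 : nul (big (foxA α J) X) ≤ Fintype.card {p : ι × X // c p.2 = 0} := by
    unfold nul
    let r : (LinearMap.ker (Matrix.toLin' ((big (foxA α J) X).map (Int.cast : ℤ → ℚ)))) →ₗ[ℚ]
        ({p : ι × X // c p.2 = 0} → ℚ) :=
      (LinearMap.funLeft ℚ ℚ (Subtype.val : {p : ι × X // c p.2 = 0} → ι × X)).comp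
        (Submodule.subtype _)
    have hr : Function.Injective r := by
      rw [injective_iff_map_eq_zero]
      rintro ⟨v, hv⟩ h
      rw [LinearMap.mem_ker, Matrix.toLin'_apply] at hv
      apply Subtype.ext
      change v = 0
      apply grad_zero hc v hv
      intro p hp
      exact congrFun h ⟨p, hp⟩
    have := LinearMap.finrank_le_finrank_of_injective hr
    rwa [Module.finrank_fintype_fun_eq_card] at this
  have h2 : Fintype.card {p : ι × X // c p.2 = 0} =
      Fintype.card ι * (Finset.univ.filter fun x : X => c x = 0).card := by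
    rw [Fintype.card_subtype]
    have : (Finset.univ.filter fun p : ι × X => c p.2 = 0) =
        (Finset.univ : Finset ι) ×ˢ (Finset.univ.filter fun x : X => c x = 0) := by
      ext p
      simp
    rw [this, Finset.card_product, Finset.card_univ]
  have h3 := grad_card hc
  calc m * nul (big (foxA α J) X)
      ≤ m * (Fintype.card ι * (Finset.univ.filter fun x : X => c x = 0).card) := by
        rw [← h2]
        exact Nat.mul_le_mul_left _ h1
    _ = Fintype.card ι * (m * (Finset.univ.filter fun x : X => c x = 0).card) := by ring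
    _ = Fintype.card ι * Fintype.card X := by rw [h3]

end

end Pool.Agent.F8.CG
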