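import Pool.Agent.Lib.MP_305fdd_al.F8.CG.StmB2

/-!
# MP_305fdd_al, congruence subgroups: the first Betti number grows linearly
-/

set_option autoImplicit false

namespace Pool.Agent.F8.CG

open Pool.Agent.F8.BG

theorem p_lin (he1 : B_e1) (hchn : B_chn) (hbK : B_bK) : B_lin := by
  intro H _ _ ν hs hfree hnfg q _ K _ n hK
  have h1 := he1 H ν hs hfree hnfg q
  have h2 := hchn q H ν hfree h1 K n hK
  have hq : 0 < q := (Fact.out : q.Prime).pos
  refine hbK q H ν K ?_ ?_ _ h2
  · have : K.FiniteIndex := ⟨by rw [hK]; positivity⟩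
    have h3 : Group.FG K := inferInstance
    exact (Group.fg_iff_subgroup_fg K).1 h3
  · have h4 : IsFreeGroup ((K ⊓ ν.ker : Subgroup H).subgroupOf ν.ker) :=
      subgroupIsFreeOfIsFree _
    exact IsFreeGroup.ofMulEquiv (Subgroup.subgroupOfEquivOfLe inf_le_right)

end Pool.Agent.F8.CG
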