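import Pool.Agent.Lib.MP_305fdd_al.F8.CG.StmB1

/-!
# MP_305fdd_al, congruence subgroups: the traces of the powers (`B_mom`)
-/

set_option autoImplicit false

namespace Pool.Agent.F8.CG

open Pool.Agent.F8.BG

noncomputable section

section Mom

variable {Γ : Type} [Group Γ]

/-- the image under `g ↦ g⁻¹` -/
def mom_star (a : MonoidAlgebra ℤ Γ) : MonoidAlgebra ℤ Γ :=
  MonoidAlgebra.mapDomain (fun g : Γ => g⁻¹) a

theorem mom_pmat_apply (X : Type) [Fintype X] [DecidableEq X] [MulAction Γ X] (g : Γ) (x y : X) :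
    pmat X g x y = if g • y = x then 1 else 0 := rfl

theorem mom_rmat_single (X : Type) [Fintype X] [DecidableEq X] [MulAction Γ X] (g : Γ) (n : ℤ) :
    rmat X (MonoidAlgebra.single g n) = n • pmat X g :=
  MonoidAlgebra.lift_single _ _ _

theorem mom_pmat_inv (X : Type) [Fintype X] [DecidableEq X] [MulAction Γ X] (g : Γ) :
    pmat X g⁻¹ = (pmat X g).transpose := by
  ext x y
  rw [Matrix.transpose_apply, mom_pmat_apply, mom_pmat_apply]
  refine if_congr ?_ rfl rfl
  rw [inv_smul_eq_iff]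
  exact ⟨fun h => h.symm, fun h => h.symm⟩

theorem mom_rmat_star (X : Type) [Fintype X] [DecidableEq X] [MulAction Γ X]
    (a : MonoidAlgebra ℤ Γ) : rmat X (mom_star a) = (rmat X a).transpose := by
  refine MonoidAlgebra.induction_linear a ?_ ?_ ?_
  · simp [mom_star]
  · intro x y hx hy
    have h : mom_star (x + y) = mom_star x + mom_star y := MonoidAlgebra.mapDomain_add _ _ _
    rw [h, map_add, map_add, Matrix.transpose_add, hx, hy]
  · intro g n
    have h : mom_star (MonoidAlgebra.single g n) = MonoidAlgebra.single g⁻¹ n :=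
      MonoidAlgebra.mapDomain_single
    rw [h, mom_rmat_single, mom_rmat_single, Matrix.transpose_smul, mom_pmat_inv]

variable {ι : Type}

theorem mom_big_one [DecidableEq ι] (X : Type) [Fintype X] [DecidableEq X] [MulAction Γ X] :
    big (1 : Matrix ι ι (MonoidAlgebra ℤ Γ)) X = 1 := by
  ext ⟨i, x⟩ ⟨j, y⟩
  simp only [big, Matrix.one_apply, Prod.mk.injEq]
  by_cases h : i = j
  · rw [if_pos h, map_one, Matrix.one_apply]
    simp [h]
  · rw [if_neg h, map_zero, if_neg (fun e => h e.1)]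
    rfl

theorem mom_big_mul [Fintype ι] (X : Type) [Fintype X] [DecidableEq X] [MulAction Γ X]
    (A B : Matrix ι ι (MonoidAlgebra ℤ Γ)) : big (A * B) X = big A X * big B X := by
  ext ⟨i, x⟩ ⟨j, y⟩
  rw [Matrix.mul_apply, Fintype.sum_prod_type]
  simp only [big]
  rw [Matrix.mul_apply, map_sum, Matrix.sum_apply]
  refine Finset.sum_congr rfl fun k _ => ?_
  rw [map_mul, Matrix.mul_apply]

theorem mom_big_pow [Fintype ι] [DecidableEq ι] (X : Type) [Fintype X] [DecidableEq X]
    [MulAction Γ X] (A : Matrix ι ι (MonoidAlgebra ℤ Γ)) (k : ℕ) :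
    big (A ^ k) X = big A X ^ k := by
  induction k with
  | zero => rw [pow_zero, pow_zero, mom_big_one]
  | succ n ih => rw [pow_succ, pow_succ, mom_big_mul, ih]

/-- the adjoint matrix -/
def mom_adj (A : Matrix ι ι (MonoidAlgebra ℤ Γ)) : Matrix ι ι (MonoidAlgebra ℤ Γ) :=
  fun i j => mom_star (A j i)

theorem mom_big_star (X : Type) [Fintype X] [DecidableEq X] [MulAction Γ X]
    (A : Matrix ι ι (MonoidAlgebra ℤ Γ)) :
    big (mom_adj A) X = (big A X).transpose := by
  ext ⟨i, x⟩ ⟨j, y⟩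
  rw [Matrix.transpose_apply]
  simp only [big, mom_adj]
  rw [mom_rmat_star, Matrix.transpose_apply]

theorem mom_rmat_diag (X : Type) [Fintype X] [DecidableEq X] [MulAction Γ X]
    (a : MonoidAlgebra ℤ Γ) (h : ∀ g ∈ a.coeff.support, g ≠ 1 → ∀ x : X, g • x ≠ x) (x : X) :
    rmat X a x x = a.coeff 1 := by
  have h1 : rmat X a = a.coeff.sum fun g n => n • pmat X g := MonoidAlgebra.lift_apply _ _
  rw [h1, Finsupp.sum, Matrix.sum_apply]
  by_cases h2 : (1 : Γ) ∈ a.coeff.support
  · rw [Finset.sum_eq_single_of_mem 1 h2]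
    · rw [Matrix.smul_apply, mom_pmat_apply, one_smul, if_pos rfl, smul_eq_mul, mul_one]
    · intro g hg hg1
      rw [Matrix.smul_apply, mom_pmat_apply, if_neg (h g hg hg1 x), smul_zero]
  · rw [Finsupp.notMem_support_iff.1 h2]
    refine Finset.sum_eq_zero fun g hg => ?_
    have hg1 : g ≠ 1 := fun e => h2 (e ▸ hg)
    rw [Matrix.smul_apply, mom_pmat_apply, if_neg (h g hg hg1 x), smul_zero]

theorem mom_trace [Fintype ι] (X : Type) [Fintype X] [DecidableEq X] [MulAction Γ X]
    (A : Matrix ι ι (MonoidAlgebra ℤ Γ))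
    (h : ∀ i, ∀ g ∈ (A i i).coeff.support, g ≠ 1 → ∀ x : X, g • x ≠ x) :
    (big A X).trace = (∑ i, (A i i).coeff 1) * Fintype.card X := by
  rw [Matrix.trace, Fintype.sum_prod_type, Finset.sum_mul]
  refine Finset.sum_congr rfl fun i _ => ?_
  have h1 : ∀ x ∈ (Finset.univ : Finset X), Matrix.diag (big A X) (i, x) = (A i i).coeff 1 :=
    fun x _ => mom_rmat_diag X (A i i) (h i) x
  rw [Finset.sum_congr rfl h1, Finset.sum_const, Finset.card_univ, nsmul_eq_mul, mul_comm]

end Mom

theorem p_mom : B_mom := by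
  classical
  intro ι _ _ Γ _ A
  set C : Matrix ι ι (MonoidAlgebra ℤ Γ) := mom_adj A * A with hC
  refine ⟨fun k => ∑ i, ((C ^ k) i i).coeff 1, fun N => ?_⟩
  refine ⟨((Finset.range (N + 1)).biUnion fun k => Finset.univ.biUnion fun i =>
    ((C ^ k) i i).coeff.support).erase 1, Finset.notMem_erase _ _, ?_⟩
  intro X _ _ _ hE k hk
  have h1 : (big A X).transpose * big A X = big C X := by
    rw [hC, mom_big_mul, mom_big_star]
  rw [h1, ← mom_big_pow]
  refine mom_trace X (C ^ k) ?_
  intro i g hg hg1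
  refine hE g (Finset.mem_erase.2 ⟨hg1, ?_⟩)
  exact Finset.mem_biUnion.2 ⟨k, Finset.mem_range.2 (Nat.lt_succ_of_le hk),
    Finset.mem_biUnion.2 ⟨i, Finset.mem_univ _, hg⟩⟩

end

end Pool.Agent.F8.CG
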