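import Pool.Agent.Lib.MP_305fdd_al.F8.CG.StmB2

/-!
# MP_305fdd_al, congruence subgroups: piece rk (rank of a module over the Laurent polynomials)
-/

set_option autoImplicit false

namespace Pool.Agent.F8.CG

open Pool.Agent.F8.BG

noncomputable section

/-- a bound for the number of independent elements, by Nakayama's lemma -/
private theorem rk_gen {R V K : Type} [CommRing R] [IsDomain R] [Field K] [AddCommGroup V]
    [Module R V] (t : R) (ε : R →+* K) (hε : ε t = 0) (hfg : Module.Finite R V) (b : Finset V)
    (hb : ∀ x : V, ∃ n ∈ Submodule.span R (b : Set V), ∃ y, x = n + t • y) {e : ℕ}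
    (m : Fin e → V) (hm : LinearIndependent R m) : e ≤ b.card := by
  classical
  let N : Submodule R V := Submodule.span R (b : Set V)
  have hfg2 : (⊤ : Submodule R (V ⧸ N)).FG := Module.Finite.fg_top
  obtain ⟨r, hr1, hr2⟩ := Submodule.exists_sub_one_mem_and_smul_eq_zero_of_fg_of_le_smul
    (Ideal.span {t}) (⊤ : Submodule R (V ⧸ N)) hfg2 (by
      intro q _
      obtain ⟨x, rfl⟩ := Submodule.Quotient.mk_surjective N q
      obtain ⟨n, hn, y, hy⟩ := hb x
      have h1 : (Submodule.Quotient.mk x : V ⧸ N) = t • Submodule.Quotient.mk y := by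
        rw [hy, Submodule.Quotient.mk_add, (Submodule.Quotient.mk_eq_zero N).2 hn, zero_add,
          Submodule.Quotient.mk_smul]
      rw [h1]
      exact Submodule.smul_mem_smul (Ideal.mem_span_singleton_self t) Submodule.mem_top)
  have hr0 : r ≠ 0 := by
    rintro rfl
    obtain ⟨a, ha⟩ := Ideal.mem_span_singleton'.1 hr1
    have h2 := congrArg ε ha
    rw [map_mul, hε, mul_zero, map_sub, map_zero, map_one] at h2
    have : (1 : K) = 0 := by linear_combination h2
    exact one_ne_zero this
  have hrN : ∀ x : V, r • x ∈ N := by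
    intro x
    have h3 := hr2 (Submodule.Quotient.mk x) Submodule.mem_top
    rw [← Submodule.Quotient.mk_smul, Submodule.Quotient.mk_eq_zero] at h3
    exact h3
  have hind : LinearIndependent R (fun j => r • m j) := by
    rw [Fintype.linearIndependent_iff]
    intro g hg j
    have h4 : ∑ i, (g i * r) • m i = 0 := by
      rw [← hg]
      exact Finset.sum_congr rfl fun i _ => mul_smul _ _ _
    have h5 := Fintype.linearIndependent_iff.1 hm _ h4 j
    exact (mul_eq_zero.1 h5).resolve_right hr0
  have h6 := linearIndependent_le_span_aux' (fun j => r • m j) hind (b : Set V) (by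
    rintro _ ⟨j, rfl⟩
    exact hrN (m j))
  rw [Fintype.card_fin] at h6
  simpa using h6

/-- the Laurent polynomials act -/
private def rk_act {k V : Type} [Field k] [AddCommGroup V] [Module k V] (τ : V ≃ₗ[k] V) :
    LaurentPolynomial k →ₐ[k] Module.End k V :=
  AddMonoidAlgebra.lift k (Module.End k V) ℤ
    { toFun := fun n => ((τ ^ (Multiplicative.toAdd n) : V ≃ₗ[k] V) : V →ₗ[k] V)
      map_one' := rfl
      map_mul' := fun a b => by
        ext x
        rw [toAdd_mul, zpow_add]
        rfl }

private theorem rk_act_apply {k V : Type} [Field k] [AddCommGroup V] [Module k V] (τ : V ≃ₗ[k] V)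
    (p : LaurentPolynomial k) (x : V) :
    rk_act τ p x = p.coeff.sum fun n a => a • (τ ^ n) x := by
  rw [rk_act, AddMonoidAlgebra.lift_apply, Finsupp.sum, LinearMap.sum_apply]
  rfl

private theorem rk_act_T {k V : Type} [Field k] [AddCommGroup V] [Module k V] (τ : V ≃ₗ[k] V)
    (n : ℤ) (x : V) : rk_act τ (LaurentPolynomial.T n) x = (τ ^ n) x := by
  rw [rk_act_apply]
  change (Finsupp.single n (1 : k)).sum (fun n a => a • (τ ^ n) x) = _
  rw [Finsupp.sum_single_index (h := fun n a => a • (τ ^ n) x) (zero_smul k _), one_smul]

/-- independent families over the Laurent polynomials -/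
private theorem rk_ind {k V : Type} [Field k] [AddCommGroup V] [Module k V] (τ : V ≃ₗ[k] V)
    {e : ℕ} (m : Fin e → V)
    (hm : LinearIndependent k (fun a : ℤ × Fin e => (τ ^ a.1) (m a.2)))
    (g : Fin e → LaurentPolynomial k) (hg : ∑ j, rk_act τ (g j) (m j) = 0) (j : Fin e) :
    g j = 0 := by
  classical
  let c : ℤ × Fin e →₀ k := ∑ j, Finsupp.mapDomain (fun n : ℤ => (n, j)) (g j).coeff
  have h1 : Finsupp.linearCombination k (fun a : ℤ × Fin e => (τ ^ a.1) (m a.2)) c = 0 := by
    rw [map_sum, ← hg]
    refine Finset.sum_congr rfl fun i _ => ?_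
    rw [Finsupp.linearCombination_mapDomain, rk_act_apply, Finsupp.linearCombination_apply]
    rfl
  have h2 := linearIndependent_iff.1 hm c h1
  ext n
  have h3 : c (n, j) = 0 := by rw [h2]; rfl
  have h4 : c (n, j) = (g j).coeff n := by
    change (∑ j, Finsupp.mapDomain (fun n : ℤ => (n, j)) (g j).coeff) (n, j) = _
    rw [Finsupp.finsetSum_apply, Finset.sum_eq_single j]
    · exact Finsupp.mapDomain_apply (fun a b hab => (Prod.mk.inj hab).1) _ _
    · intro i _ hij
      refine Finsupp.mapDomain_of_notMem_range _ _ ?_
      rintro ⟨n', hn'⟩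
      exact hij (Prod.mk.inj hn').2
    · intro h; exact absurd (Finset.mem_univ _) h
  rw [← h4, h3]
  rfl

theorem p_rk : B_rk := by
  classical
  intro k _ V _ _ τ s hs e m hm
  -- the image of `τ - 1`
  let U : Submodule k V := LinearMap.range ((τ : V →ₗ[k] V) - LinearMap.id)
  have hU : ∀ x, τ x - x ∈ U := fun x => ⟨x, rfl⟩
  have htop : Submodule.span k (s : Set V) ⊔ U = ⊤ := by
    refine hs _ (fun x hx => Submodule.mem_sup_left (Submodule.subset_span hx)) ?_
    intro x hx
    constructor
    · have := Submodule.add_mem _ hx (Submodule.mem_sup_right (hU x) :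
        τ x - x ∈ Submodule.span k (s : Set V) ⊔ U)
      rwa [add_sub_cancel] at this
    · have := Submodule.sub_mem _ hx (Submodule.mem_sup_right (hU (τ.symm x)) :
        τ (τ.symm x) - τ.symm x ∈ Submodule.span k (s : Set V) ⊔ U)
      rwa [LinearEquiv.apply_symm_apply, sub_sub_cancel] at this
  -- the quotient is finite dimensional
  have hfin : Module.Finite k (V ⧸ U) := by
    refine ⟨⟨s.image (Submodule.Quotient.mk : V → V ⧸ U), ?_⟩⟩
    rw [eq_top_iff]
    intro q _
    obtain ⟨x, rfl⟩ := Submodule.Quotient.mk_surjective U q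
    have hx : x ∈ Submodule.span k (s : Set V) ⊔ U := by rw [htop]; trivial
    obtain ⟨y, hy, z, hz, rfl⟩ := Submodule.mem_sup.1 hx
    rw [Submodule.Quotient.mk_add, (Submodule.Quotient.mk_eq_zero U).2 hz, add_zero]
    have h1 := Submodule.mem_map_of_mem (f := U.mkQ) hy
    rw [Submodule.map_span] at h1
    rw [Finset.coe_image]
    exact h1
  let d := Module.finrank k (V ⧸ U)
  let B : Module.Basis (Fin d) k (V ⧸ U) := Module.finBasis k (V ⧸ U)
  choose bl hbl using fun i => Submodule.Quotient.mk_surjective U (B i)
  let b : Finset V := Finset.univ.image bl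
  have hbcard : b.card ≤ d := by
    refine Finset.card_image_le.trans ?_
    simp
  -- the module over the Laurent polynomials
  let _ : Module (LaurentPolynomial k) V := Module.compHom V (rk_act τ).toRingHom
  have hsm : ∀ (p : LaurentPolynomial k) (x : V), p • x = rk_act τ p x := fun _ _ => rfl
  have hC : ∀ (c : k) (x : V), (LaurentPolynomial.C c : LaurentPolynomial k) • x = c • x := by
    intro c x
    rw [hsm, LaurentPolynomial.C_eq_algebraMap, AlgHom.commutes]
    rfl
  have hT : ∀ (n : ℤ) (x : V), (LaurentPolynomial.T n : LaurentPolynomial k) • x = (τ ^ n) x :=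
    fun n x => rk_act_T τ n x
  have hk : ∀ (X : Set V) (x : V), x ∈ Submodule.span k X →
      x ∈ Submodule.span (LaurentPolynomial k) X := by
    intro X x hx
    refine Submodule.span_induction (p := fun x _ => x ∈ Submodule.span (LaurentPolynomial k) X)
      (fun x hx => Submodule.subset_span hx) (Submodule.zero_mem _)
      (fun x y _ _ hx hy => Submodule.add_mem _ hx hy) (fun c x _ hx => ?_) hx
    rw [← hC]
    exact Submodule.smul_mem _ _ hx
  have hfg : Module.Finite (LaurentPolynomial k) V := by
    refine ⟨⟨s, ?_⟩⟩
    let W : Submodule k V :=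
      { carrier := Submodule.span (LaurentPolynomial k) (s : Set V)
        add_mem' := fun hx hy => Submodule.add_mem _ hx hy
        zero_mem' := Submodule.zero_mem _
        smul_mem' := fun c x hx => by
          rw [← hC]
          exact Submodule.smul_mem _ _ hx }
    have hW : W = ⊤ := by
      refine hs W (fun x hx => Submodule.subset_span hx) ?_
      intro x hx
      constructor
      · have h1 : τ x = (LaurentPolynomial.T 1 : LaurentPolynomial k) • x := by
          rw [hT, zpow_one]
        change τ x ∈ Submodule.span (LaurentPolynomial k) (s : Set V)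
        rw [h1]
        exact Submodule.smul_mem _ _ hx
      · have h1 : τ.symm x = (LaurentPolynomial.T (-1) : LaurentPolynomial k) • x := by
          rw [hT, zpow_neg, zpow_one]
          rfl
        change τ.symm x ∈ Submodule.span (LaurentPolynomial k) (s : Set V)
        rw [h1]
        exact Submodule.smul_mem _ _ hx
    rw [eq_top_iff]
    intro x _
    have : x ∈ W := by rw [hW]; trivial
    exact this
  have hle : e ≤ d := by
    refine le_trans (rk_gen (V := V) (K := k) (LaurentPolynomial.T 1 - 1 : LaurentPolynomial k)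
      (LaurentPolynomial.eval₂ (RingHom.id k) (1 : kˣ)) ?_ hfg b ?_ m ?_) hbcard
    · rw [map_sub, LaurentPolynomial.eval₂_T, map_one]
      simp
    · intro x
      have h1 : (Submodule.Quotient.mk x : V ⧸ U) ∈ Submodule.span k (Set.range B) := by
        rw [B.span_eq]; trivial
      -- write `x` as a combination of the `bl` and an element of `U`
      have h2 : x ∈ Submodule.span k (b : Set V) ⊔ U := by
        have h3 : Submodule.map U.mkQ (Submodule.span k (b : Set V)) =
            Submodule.span k (Set.range B) := by
          rw [Submodule.map_span]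
          congr 1
          ext q
          constructor
          · rintro ⟨y, hy, rfl⟩
            obtain ⟨i, _, rfl⟩ := Finset.mem_image.1 hy
            exact ⟨i, (hbl i).symm⟩
          · rintro ⟨i, rfl⟩
            exact ⟨bl i, Finset.mem_image_of_mem _ (Finset.mem_univ i), hbl i⟩
        rw [← h3] at h1
        obtain ⟨y, hy, hyx⟩ := h1
        have h4 : x - y ∈ U := by
          rw [← Submodule.Quotient.mk_eq_zero U, Submodule.Quotient.mk_sub, ← hyx]
          exact sub_self _
        have := Submodule.add_mem _ (Submodule.mem_sup_left hy :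
          y ∈ Submodule.span k (b : Set V) ⊔ U) (Submodule.mem_sup_right h4)
        rwa [add_sub_cancel] at this
      obtain ⟨y, hy, z, hz, rfl⟩ := Submodule.mem_sup.1 h2
      obtain ⟨w, rfl⟩ := hz
      refine ⟨y, hk _ _ hy, w, ?_⟩
      congr 1
      rw [sub_smul, one_smul, hT, zpow_one]
      rfl
    · rw [Fintype.linearIndependent_iff]
      intro g hg j
      exact rk_ind τ m hm g hg j
  -- the functionals
  let D : Fin e → (V ⧸ U →ₗ[k] k) := fun j => B.coord (Fin.castLE hle j)
  have hD : LinearIndependent k D := by
    have h1 : LinearIndependent k (fun i => B.coord i) := by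
      have := B.dualBasis.linearIndependent
      rwa [B.coe_dualBasis] at this
    exact h1.comp _ (Fin.castLE_injective hle)
  refine ⟨fun j => (D j).comp U.mkQ, ?_, ?_⟩
  · rw [Fintype.linearIndependent_iff]
    intro g hg j
    refine Fintype.linearIndependent_iff.1 hD g ?_ j
    ext q
    have h1 := congrArg (fun F : V →ₗ[k] k => F q) hg
    simp only [LinearMap.sum_apply, LinearMap.smul_apply, LinearMap.comp_apply,
      LinearMap.zero_apply] at h1 ⊢
    exact h1
  · intro j x
    have h1 : U.mkQ (τ x) = U.mkQ x := by
      rw [← sub_eq_zero, ← map_sub]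
      exact (Submodule.Quotient.mk_eq_zero U).2 (hU x)
    rw [LinearMap.comp_apply, LinearMap.comp_apply, h1]

end

end Pool.Agent.F8.CG
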