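import Pool.Agent.Lib.MP_305fdd_al.F8.CG.StmB1

/-!
# MP_305fdd_al, congruence subgroups: the first Betti number and the matrix `A`

Shapiro's lemma in coordinates: the cocycles of `GR α` with values in the functions on `GR α ⧸ D`.
-/

set_option autoImplicit false

namespace Pool.Agent.F8.CG

open Pool.Agent.F8.BG

noncomputable section

section Gen

variable {Γ : Type} [Group Γ]

/-- the operator of an element of the group ring -/
theorem shap_op (X : Type) [Fintype X] [DecidableEq X] [MulAction Γ X] (a : MonoidAlgebra ℤ Γ)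
    (φ : X → ℚ) (x : X) :
    ∑ y, ((rmat X a x y : ℤ) : ℚ) * φ y = a.coeff.sum fun g n => n • φ (g⁻¹ • x) := by
  unfold rmat
  rw [MonoidAlgebra.lift_apply]
  unfold Finsupp.sum
  have h1 : ∀ y : X, (((∑ g ∈ a.coeff.support, a.coeff g • pmat X g : Matrix X X ℤ) x y : ℤ) : ℚ)
      * φ y = ∑ g ∈ a.coeff.support, ((a.coeff g : ℤ) : ℚ) *
        ((if g • y = x then 1 else 0) * φ y) := by
    intro y
    rw [Matrix.sum_apply, Int.cast_sum, Finset.sum_mul]
    refine Finset.sum_congr rfl fun g _ => ?_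
    have h2 : (a.coeff g • pmat X g : Matrix X X ℤ) x y =
        a.coeff g * (if g • y = x then 1 else 0) := rfl
    rw [h2]
    push_cast
    ring
  rw [Finset.sum_congr rfl fun y _ => h1 y, Finset.sum_comm]
  refine Finset.sum_congr rfl fun g _ => ?_
  rw [← Finset.mul_sum, Finset.sum_eq_single (g⁻¹ • x)]
  · rw [smul_inv_smul, if_pos rfl, one_mul]
    exact (zsmul_eq_mul _ _).symm
  · intro y _ hy
    rw [if_neg, zero_mul]
    intro h
    apply hy
    rw [← h, inv_smul_smul]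
  · intro h
    exact absurd (Finset.mem_univ _) h

variable (D : Subgroup Γ)

/-- representatives of the cosets -/
def shap_s (x : Γ ⧸ D) : Γ := Quotient.out x

theorem shap_s_eq (x : Γ ⧸ D) : ((shap_s D x : Γ) : Γ ⧸ D) = x := QuotientGroup.out_eq' x

theorem shap_mem (g : Γ) (x : Γ ⧸ D) : (shap_s D x)⁻¹ * (g * shap_s D (g⁻¹ • x)) ∈ D := by
  rw [← QuotientGroup.eq, shap_s_eq]
  have h : ((g * shap_s D (g⁻¹ • x) : Γ) : Γ ⧸ D) = g • ((shap_s D (g⁻¹ • x) : Γ) : Γ ⧸ D) := rfl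
  rw [h, shap_s_eq, smul_inv_smul]

/-- the element of `D` -/
def shap_d (g : Γ) (x : Γ ⧸ D) : D := ⟨_, shap_mem D g x⟩

theorem shap_d_mul (g h : Γ) (x : Γ ⧸ D) :
    shap_d D (g * h) x = shap_d D g x * shap_d D h (g⁻¹ • x) := by
  apply Subtype.ext
  show (shap_s D x)⁻¹ * (g * h * shap_s D ((g * h)⁻¹ • x)) =
    (shap_s D x)⁻¹ * (g * shap_s D (g⁻¹ • x)) *
      ((shap_s D (g⁻¹ • x))⁻¹ * (h * shap_s D (h⁻¹ • g⁻¹ • x)))
  rw [mul_inv_rev, mul_smul]
  group

/-- the cocycle of a homomorphism and a function -/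
def shap_z : ((Additive D →+ ℚ) × ((Γ ⧸ D) → ℚ)) →ₗ[ℚ] Γ → (Γ ⧸ D) → ℚ where
  toFun p g x := p.1 (Additive.ofMul (shap_d D g x)) + (p.2 x - p.2 (g⁻¹ • x))
  map_add' p q := by
    funext g x
    show (p.1 + q.1) (Additive.ofMul (shap_d D g x)) + ((p.2 + q.2) x - (p.2 + q.2) (g⁻¹ • x)) = _
    simp only [AddMonoidHom.add_apply, Pi.add_apply]
    ring
  map_smul' r p := by
    funext g x
    show (r • p.1) (Additive.ofMul (shap_d D g x)) + ((r • p.2) x - (r • p.2) (g⁻¹ • x)) =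
      r • (p.1 (Additive.ofMul (shap_d D g x)) + (p.2 x - p.2 (g⁻¹ • x)))
    have h : (r • p.1) (Additive.ofMul (shap_d D g x)) =
      r * p.1 (Additive.ofMul (shap_d D g x)) := rfl
    rw [h]
    simp only [Pi.smul_apply, smul_eq_mul]
    ring

theorem shap_z_apply (p : (Additive D →+ ℚ) × ((Γ ⧸ D) → ℚ)) (g : Γ) (x : Γ ⧸ D) :
    shap_z D p g x = p.1 (Additive.ofMul (shap_d D g x)) + (p.2 x - p.2 (g⁻¹ • x)) := rfl

theorem shap_z_mul (p : (Additive D →+ ℚ) × ((Γ ⧸ D) → ℚ)) (g h : Γ) (x : Γ ⧸ D) :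
    shap_z D p (g * h) x = shap_z D p g x + shap_z D p h (g⁻¹ • x) := by
  rw [shap_z_apply, shap_z_apply, shap_z_apply, shap_d_mul, ofMul_mul, map_add, mul_inv_rev,
    mul_smul]
  ring

theorem shap_z_one (p : (Additive D →+ ℚ) × ((Γ ⧸ D) → ℚ)) (x : Γ ⧸ D) :
    shap_z D p 1 x = 0 := by
  have h := shap_z_mul D p 1 1 x
  rw [mul_one, inv_one, one_smul] at h
  linarith

/-- the elements on which the cocycle is zero -/
def shap_S (p : (Additive D →+ ℚ) × ((Γ ⧸ D) → ℚ)) : Subgroup Γ where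
  carrier := {g | ∀ x, shap_z D p g x = 0}
  one_mem' := fun x => shap_z_one D p x
  mul_mem' := by
    intro g h hg hh x
    rw [shap_z_mul, hg, hh, add_zero]
  inv_mem' := by
    intro g hg x
    have h := shap_z_mul D p g g⁻¹ (g • x)
    rw [mul_inv_cancel, shap_z_one, inv_smul_smul, hg, zero_add] at h
    exact h.symm

theorem shap_inj (p : (Additive D →+ ℚ) × ((Γ ⧸ D) → ℚ))
    (hp : ∀ g x, shap_z D p g x = 0) : p.1 = 0 ∧ ∀ x, p.2 x = p.2 ((1 : Γ) : Γ ⧸ D) := by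
  set x₀ : Γ ⧸ D := ((1 : Γ) : Γ ⧸ D) with hx₀
  set s₀ := shap_s D x₀ with hs₀
  have h0 : ∀ x : Γ ⧸ D, (shap_s D x)⁻¹ • x = x₀ := by
    intro x
    have h1 : (shap_s D x)⁻¹ • ((shap_s D x : Γ) : Γ ⧸ D) = x₀ := by
      show (((shap_s D x)⁻¹ * shap_s D x : Γ) : Γ ⧸ D) = x₀
      rw [inv_mul_cancel]
    rw [shap_s_eq] at h1
    exact h1
  have h1 : s₀ • x₀ = x₀ := by
    have h2 : s₀⁻¹ • x₀ = x₀ := h0 x₀
    rw [inv_smul_eq_iff] at h2
    exact h2.symm
  have hφ : ∀ x, p.2 x = p.2 x₀ := by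
    intro x
    have h2 := hp (shap_s D x * s₀⁻¹) x
    have h3 : (shap_s D x * s₀⁻¹)⁻¹ • x = x₀ := by
      rw [mul_inv_rev, inv_inv, mul_smul, h0, h1]
    have h4 : shap_d D (shap_s D x * s₀⁻¹) x = 1 := by
      apply Subtype.ext
      show (shap_s D x)⁻¹ * (shap_s D x * s₀⁻¹ * shap_s D ((shap_s D x * s₀⁻¹)⁻¹ • x)) = 1
      rw [h3, ← hs₀]
      group
    rw [shap_z_apply, h4, h3, ofMul_one, map_zero] at h2
    linarith
  refine ⟨?_, hφ⟩
  apply AddMonoidHom.ext
  intro d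
  obtain ⟨d, rfl⟩ := Additive.ofMul.surjective d
  show p.1 (Additive.ofMul d) = 0
  have hd : (d : Γ)⁻¹ • x₀ = x₀ := by
    show (((d : Γ)⁻¹ * 1 : Γ) : Γ ⧸ D) = ((1 : Γ) : Γ ⧸ D)
    rw [QuotientGroup.eq]
    simp
  have h2 := hp (s₀ * d * s₀⁻¹) x₀
  have h3 : (s₀ * d * s₀⁻¹)⁻¹ • x₀ = x₀ := by
    have h5 : s₀⁻¹ • x₀ = x₀ := h0 x₀
    have h6 : (s₀ * d * s₀⁻¹)⁻¹ = s₀ * ((d : Γ)⁻¹ * s₀⁻¹) := by group
    rw [h6, mul_smul, mul_smul, h5, hd, h1]
  have h4 : shap_d D (s₀ * d * s₀⁻¹) x₀ = d := by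
    apply Subtype.ext
    show (shap_s D x₀)⁻¹ * (s₀ * d * s₀⁻¹ * shap_s D ((s₀ * d * s₀⁻¹)⁻¹ • x₀)) = d
    rw [h3, ← hs₀]
    group
  rw [shap_z_apply, h4, h3, sub_self, add_zero] at h2
  exact h2

end Gen

section GRsec

variable {ι : Type} (α : MulAut (FreeGroup ι))

theorem shap_gen (S : Subgroup (GR α)) (hi : ∀ i, iR α (FreeGroup.of i) ∈ S) (ht : tR α ∈ S)
    (g : GR α) : g ∈ S := by
  have hw : ∀ w : FreeGroup ι, iR α w ∈ S := by
    intro w
    induction w using FreeGroup.induction_on with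
    | C1 => rw [map_one]; exact S.one_mem
    | of i => exact hi i
    | inv_of i h => rw [map_inv]; exact S.inv_mem h
    | mul x y hx hy => rw [map_mul]; exact S.mul_mem hx hy
  obtain ⟨w, n, rfl⟩ := GR_cases α g
  exact S.mul_mem (hw w) (S.zpow_mem ht n)

variable [Fintype ι] [DecidableEq ι] (J : Matrix ι ι (MonoidAlgebra ℤ (FreeGroup ι)))

/-- the operator `A = t - J` -/
theorem shap_A (X : Type) [Fintype X] [DecidableEq X] [MulAction (GR α) X] (v : ι × X → ℚ)
    (i : ι) (x : X) :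
    Matrix.toLin' ((big (foxA α J) X).map (Int.cast : ℤ → ℚ)) v (i, x) =
      v (i, (tR α)⁻¹ • x) - ∑ j, (J i j).coeff.sum fun g n => n • v (j, (iR α g)⁻¹ • x) := by
  rw [Matrix.toLin'_apply]
  show ∑ b : ι × X, ((big (foxA α J) X (i, x) b : ℤ) : ℚ) * v b = _
  rw [Fintype.sum_prod_type]
  have h1 : ∀ j : ι, ∑ y : X, ((big (foxA α J) X (i, x) (j, y) : ℤ) : ℚ) * v (j, y) =
      (if i = j then v (j, (tR α)⁻¹ • x) else 0) -
        (J i j).coeff.sum fun g n => n • v (j, (iR α g)⁻¹ • x) := by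
    intro j
    have h2 : ∑ y : X, ((big (foxA α J) X (i, x) (j, y) : ℤ) : ℚ) * v (j, y) =
      ∑ y : X, (((rmat X (if i = j then MonoidAlgebra.single (tR α) 1 else 0) x y : ℤ) : ℚ) *
        v (j, y) - ((rmat X (MonoidAlgebra.mapDomain (iR α) (J i j)) x y : ℤ) : ℚ) * v (j, y)) := by
      refine Finset.sum_congr rfl fun y _ => ?_
      have h3 : big (foxA α J) X (i, x) (j, y) =
        rmat X ((if i = j then MonoidAlgebra.single (tR α) 1 else 0) -
          MonoidAlgebra.mapDomain (iR α) (J i j)) x y := rfl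
      rw [h3, map_sub, Matrix.sub_apply]
      push_cast
      ring
    rw [h2, Finset.sum_sub_distrib, shap_op X _ (fun y => v (j, y)),
      shap_op X _ (fun y => v (j, y))]
    congr 1
    · by_cases h : i = j
      · rw [if_pos h, if_pos h, MonoidAlgebra.coeff_single, Finsupp.sum_single_index, one_smul]
        rw [zero_smul]
      · rw [if_neg h, if_neg h, MonoidAlgebra.coeff_zero, Finsupp.sum_zero_index]
    · show (Finsupp.mapDomain (iR α) (J i j).coeff).sum _ = _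
      rw [Finsupp.sum_mapDomain_index]
      · intro b; rw [zero_smul]
      · intro b m n; rw [add_smul]
  rw [Finset.sum_congr rfl fun j _ => h1 j, Finset.sum_sub_distrib, Finset.sum_ite_eq,
    if_pos (Finset.mem_univ i)]

variable {J} (D : Subgroup (GR α))

/-- the action on functions -/
@[reducible] def shap_act : DistribMulAction (FreeGroup ι) ((GR α ⧸ D) → ℚ) where
  smul w φ := fun x => φ ((iR α w)⁻¹ • x)
  one_smul φ := by
    funext x
    show φ ((iR α 1)⁻¹ • x) = φ x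
    rw [map_one, inv_one, one_smul]
  mul_smul w w' φ := by
    funext x
    show φ ((iR α (w * w'))⁻¹ • x) = φ ((iR α w')⁻¹ • (iR α w)⁻¹ • x)
    rw [map_mul, mul_inv_rev, mul_smul]
  smul_zero w := rfl
  smul_add w φ ψ := rfl

omit [DecidableEq ι] in
theorem shap_fox (hJ : IsFox α J) (p : (Additive D →+ ℚ) × ((GR α ⧸ D) → ℚ)) (i : ι)
    (x : GR α ⧸ D) : shap_z D p (iR α (α (FreeGroup.of i))) x =
      ∑ j, (J i j).coeff.sum fun g n => n • shap_z D p (iR α (FreeGroup.of j))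
        ((iR α g)⁻¹ • x) := by
  have h1 := @hJ ((GR α ⧸ D) → ℚ) _ (shap_act α D) (fun w => shap_z D p (iR α w)) (by
    intro g h
    funext x
    show shap_z D p (iR α (g * h)) x = shap_z D p (iR α g) x + shap_z D p (iR α h)
      ((iR α g)⁻¹ • x)
    rw [map_mul, shap_z_mul]) i
  have h2 := congrFun h1 x
  rw [Finset.sum_apply] at h2
  refine h2.trans ?_
  refine Finset.sum_congr rfl fun j _ => ?_
  unfold Finsupp.sum
  rw [Finset.sum_apply]
  rfl

theorem shap_ker (hJ : IsFox α J) [Fintype (GR α ⧸ D)] [DecidableEq (GR α ⧸ D)]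
    (p : (Additive D →+ ℚ) × ((GR α ⧸ D) → ℚ))
    (hp : ∀ x, shap_z D p (tR α) x = 0) :
    Matrix.toLin' ((big (foxA α J) (GR α ⧸ D)).map (Int.cast : ℤ → ℚ))
      (fun q => shap_z D p (iR α (FreeGroup.of q.1)) q.2) = 0 := by
  funext q
  obtain ⟨i, x⟩ := q
  rw [shap_A]
  show shap_z D p (iR α (FreeGroup.of i)) ((tR α)⁻¹ • x) -
    ∑ j, (J i j).coeff.sum (fun g n => n • shap_z D p (iR α (FreeGroup.of j))
        ((iR α g)⁻¹ • x)) = 0
  rw [← shap_fox α D hJ, sub_eq_zero]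
  have h1 := congrArg (fun g => shap_z D p g x) (tR_mul α (FreeGroup.of i))
  simp only [shap_z_mul, hp] at h1
  linarith

end GRsec

/-- the first Betti number and the matrix `A` -/
theorem p_shap : B_shap := by
  intro ι _ _ α J hJ D _ _
  unfold b1 nul
  by_cases hfin : Module.Finite ℚ (Additive D →+ ℚ)
  swap
  · rw [Module.finrank_of_not_finite hfin]
    exact Nat.zero_le _
  let V := (GR α ⧸ D) → ℚ
  let H := (Additive D →+ ℚ)
  -- the component at `t`
  let Φ : (H × V) →ₗ[ℚ] V := (LinearMap.proj (tR α)).comp (shap_z D)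
  let K := LinearMap.ker Φ
  let A := Matrix.toLin' ((big (foxA α J) (GR α ⧸ D)).map (Int.cast : ℤ → ℚ))
  let Ψ₀ : (H × V) →ₗ[ℚ] (ι × (GR α ⧸ D) → ℚ) := LinearMap.pi fun q =>
    (LinearMap.proj q.2).comp ((LinearMap.proj (iR α (FreeGroup.of q.1))).comp (shap_z D))
  let Ψ : K →ₗ[ℚ] LinearMap.ker A := LinearMap.codRestrict (LinearMap.ker A) (Ψ₀.comp K.subtype) (by
    intro p
    have hp : Φ p.1 = 0 := p.2
    exact shap_ker α D hJ p.1 (fun x => congrFun hp x))
  have h1 : Module.finrank ℚ (LinearMap.range Φ) + Module.finrank ℚ K =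
    Module.finrank ℚ (H × V) := LinearMap.finrank_range_add_finrank_ker Φ
  have h2 : Module.finrank ℚ (LinearMap.range Ψ) + Module.finrank ℚ (LinearMap.ker Ψ) =
    Module.finrank ℚ K := LinearMap.finrank_range_add_finrank_ker Ψ
  have h3 : Module.finrank ℚ (LinearMap.range Φ) ≤ Module.finrank ℚ V :=
    Submodule.finrank_le _
  have h4 : Module.finrank ℚ (LinearMap.range Ψ) ≤ Module.finrank ℚ (LinearMap.ker A) :=
    Submodule.finrank_le _
  have h5 : Module.finrank ℚ (H × V) = Module.finrank ℚ H + Module.finrank ℚ V :=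
    Module.finrank_prod
  have h6 : Module.finrank ℚ (LinearMap.ker Ψ) ≤ 1 := by
    let e : V := fun _ => 1
    have he : ((0 : H), e) ∈ K := by
      show Φ ((0 : H), e) = 0
      funext x
      show shap_z D ((0 : H), e) (tR α) x = 0
      rw [shap_z_apply]
      simp [e]
    have he' : (⟨((0 : H), e), he⟩ : K) ∈ LinearMap.ker Ψ := by
      rw [LinearMap.mem_ker]
      apply Subtype.ext
      funext q
      show shap_z D ((0 : H), e) (iR α (FreeGroup.of q.1)) q.2 = 0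
      rw [shap_z_apply]
      simp [e]
    apply finrank_le_one (⟨⟨((0 : H), e), he⟩, he'⟩ : LinearMap.ker Ψ)
    rintro ⟨⟨p, hp⟩, hp'⟩
    have hz : ∀ g x, shap_z D p g x = 0 := by
      intro g
      apply shap_gen α (shap_S D p)
      · intro i x
        have h7 : Ψ ⟨p, hp⟩ = 0 := hp'
        have h8 := congrArg Subtype.val h7
        exact congrFun h8 (i, x)
      · intro x
        exact congrFun (hp : Φ p = 0) x
    obtain ⟨ha, hb⟩ := shap_inj D p hz
    refine ⟨p.2 ((1 : GR α) : GR α ⧸ D), ?_⟩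
    apply Subtype.ext
    apply Subtype.ext
    apply Prod.ext
    · show p.2 ((1 : GR α) : GR α ⧸ D) • (0 : H) = p.1
      rw [smul_zero, ha]
    · funext x
      show p.2 ((1 : GR α) : GR α ⧸ D) * 1 = p.2 x
      rw [mul_one, hb x]
  have h7 : Module.finrank ℚ (Additive D →+ ℚ) = Module.finrank ℚ H := rfl
  have h8 : Module.finrank ℚ (LinearMap.ker
    (Matrix.toLin' ((big (foxA α J) (GR α ⧸ D)).map (Int.cast : ℤ → ℚ)))) =
    Module.finrank ℚ (LinearMap.ker A) := rfl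
  omega

end

end Pool.Agent.F8.CG
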