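import Pool.Agent.Lib.MP_305fdd_al.F8.CG.StmB1

/-!
# MP_305fdd_al, congruence subgroups: piece `spec`
-/

set_option autoImplicit false

namespace Pool.Agent.F8.CG

open Pool.Agent.F8.BG Matrix

set_option linter.unusedSectionVars false

variable {n : Type} [Fintype n] [DecidableEq n]

lemma spec_rank_map (B : Matrix n n ℚ) : (B.map (algebraMap ℚ ℝ)).rank = B.rank := by
  classical
  obtain ⟨L, L', D, hM⟩ := Matrix.Pivot.exists_list_transvec_mul_diagonal_mul_list_transvec B
  set V := (L.map Matrix.TransvectionStruct.toMatrix).prod with hV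
  set U := (L'.map Matrix.TransvectionStruct.toMatrix).prod with hU
  have dV : V.det = 1 := Matrix.TransvectionStruct.det_toMatrix_prod L
  have dU : U.det = 1 := Matrix.TransvectionStruct.det_toMatrix_prod L'
  have h1 : B.rank = Fintype.card {i // D i ≠ 0} := by
    rw [hM, Matrix.rank_mul_eq_left_of_isUnit_det _ _ (by rw [dU]; exact isUnit_one),
      Matrix.rank_mul_eq_right_of_isUnit_det _ _ (by rw [dV]; exact isUnit_one),
      Matrix.rank_diagonal]
  have h2 : (B.map (algebraMap ℚ ℝ)).rank =
      Fintype.card {i // (algebraMap ℚ ℝ (D i)) ≠ 0} := by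
    have e : B.map (algebraMap ℚ ℝ) = V.map (algebraMap ℚ ℝ) *
        Matrix.diagonal (fun i => algebraMap ℚ ℝ (D i)) * U.map (algebraMap ℚ ℝ) := by
      rw [hM, Matrix.map_mul, Matrix.map_mul, Matrix.diagonal_map (map_zero _)]
    have dV' : (V.map (algebraMap ℚ ℝ)).det = 1 := by
      have := (algebraMap ℚ ℝ).map_det V
      rw [RingHom.mapMatrix_apply] at this
      rw [← this, dV, map_one]
    have dU' : (U.map (algebraMap ℚ ℝ)).det = 1 := by
      have := (algebraMap ℚ ℝ).map_det U
      rw [RingHom.mapMatrix_apply] at this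
      rw [← this, dU, map_one]
    rw [e, Matrix.rank_mul_eq_left_of_isUnit_det _ _ (by rw [dU']; exact isUnit_one),
      Matrix.rank_mul_eq_right_of_isUnit_det _ _ (by rw [dV']; exact isUnit_one),
      Matrix.rank_diagonal]
  rw [h1, h2]
  apply Fintype.card_congr
  exact Equiv.subtypeEquivRight fun i => by simp

/-- the real matrix of an integer matrix -/
noncomputable def spec_R (B : Matrix n n ℤ) : Matrix n n ℝ := B.map (Int.cast : ℤ → ℝ)

lemma spec_nul (B : Matrix n n ℤ) : nul B + (spec_R B).rank = Fintype.card n := by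
  have h1 : (spec_R B).rank = (B.map (Int.cast : ℤ → ℚ)).rank := by
    rw [← spec_rank_map]
    congr 1
  rw [h1]
  have h2 := LinearMap.finrank_range_add_finrank_ker
    (Matrix.toLin' (B.map (Int.cast : ℤ → ℚ)))
  rw [Module.finrank_fintype_fun_eq_card] at h2
  unfold nul
  rw [Matrix.rank, ← Matrix.toLin'_apply']
  omega

/-- the symmetric matrix -/
noncomputable def spec_D (B : Matrix n n ℤ) : Matrix n n ℝ := (spec_R B)ᵀ * spec_R B

lemma spec_D_eq (B : Matrix n n ℤ) : spec_D B = (Bᵀ * B).map (Int.cast : ℤ → ℝ) := by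
  have := Matrix.map_mul (L := Bᵀ) (M := B) (f := Int.castRingHom ℝ)
  rw [spec_D, spec_R]
  exact this.symm

lemma spec_D_herm (B : Matrix n n ℤ) : (spec_D B).IsHermitian := by
  unfold spec_D
  have := Matrix.isHermitian_conjTranspose_mul_self (spec_R B)
  rwa [Matrix.conjTranspose_eq_transpose_of_trivial] at this

lemma spec_D_psd (B : Matrix n n ℤ) : (spec_D B).PosSemidef := by
  unfold spec_D
  have := Matrix.posSemidef_conjTranspose_mul_self (spec_R B)
  rwa [Matrix.conjTranspose_eq_transpose_of_trivial] at this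

/-- the eigenvalues -/
noncomputable def spec_E (B : Matrix n n ℤ) : n → ℝ := (spec_D_herm B).eigenvalues

lemma spec_E_nonneg (B : Matrix n n ℤ) (i : n) : 0 ≤ spec_E B i :=
  (spec_D_psd B).eigenvalues_nonneg i

lemma spec_E_zero (B : Matrix n n ℤ) :
    (Finset.univ.filter fun i => spec_E B i = 0).card = nul B := by
  have h1 := (spec_D_herm B).rank_eq_card_non_zero_eigs
  have h2 : (spec_D B).rank = (spec_R B).rank := by
    unfold spec_D
    exact Matrix.rank_transpose_mul_self _
  have h3 := spec_nul B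
  rw [h2, Fintype.card_subtype] at h1
  have h4 := Finset.card_filter_add_card_filter_not (s := (Finset.univ : Finset n))
    (fun i => spec_E B i = 0)
  rw [Finset.card_univ] at h4
  have h5 : (Finset.univ.filter fun i => ¬ spec_E B i = 0).card = (spec_R B).rank := by
    rw [h1]
    rfl
  omega

lemma spec_E_le (B : Matrix n n ℤ) (K : ℝ)
    (hK : ∀ v : n → ℝ, ∑ a, (∑ b, (B a b : ℝ) * v b) ^ 2 ≤ K * ∑ a, v a ^ 2) (i : n) :
    spec_E B i ≤ K := by
  set v : n → ℝ := ⇑((spec_D_herm B).eigenvectorBasis i) with hv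
  have h1 : spec_E B i = v ⬝ᵥ (spec_D B *ᵥ v) := by
    have := (spec_D_herm B).eigenvalues_eq i
    simpa [spec_E, hv] using this
  have h2 : v ⬝ᵥ (spec_D B *ᵥ v) = ∑ a, (∑ b, (B a b : ℝ) * v b) ^ 2 := by
    unfold spec_D
    rw [← Matrix.mulVec_mulVec, Matrix.dotProduct_mulVec, Matrix.vecMul_transpose]
    simp only [dotProduct, Matrix.mulVec, spec_R, Matrix.map_apply, sq]
  have h3 : ∑ a, v a ^ 2 = 1 := by
    have h := (spec_D_herm B).eigenvectorBasis.orthonormal.1 i
    have h' := EuclideanSpace.real_norm_sq_eq ((spec_D_herm B).eigenvectorBasis i)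
    rw [h] at h'
    simpa [hv] using h'.symm
  have := hK v
  rw [h3, ← h2, ← h1] at this
  linarith

lemma spec_E_trace (B : Matrix n n ℤ) (k : ℕ) :
    (((Bᵀ * B) ^ k).trace : ℝ) = ∑ i, spec_E B i ^ k := by
  have h1 : (((Bᵀ * B) ^ k).trace : ℝ) = ((spec_D B) ^ k).trace := by
    have h := Matrix.map_pow (M := Bᵀ * B) (f := Int.castRingHom ℝ) k
    have h' : ((Bᵀ * B) ^ k).map (Int.castRingHom ℝ) = (spec_D B) ^ k := by
      rw [h, spec_D_eq]
      rfl
    rw [← h']
    simp [Matrix.trace]
  rw [h1]
  clear h1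
  have h2 := (spec_D_herm B).spectral_theorem
  rw [Unitary.conjStarAlgAut_apply] at h2
  set U : Matrix n n ℝ := ((spec_D_herm B).eigenvectorUnitary : Matrix n n ℝ) with hU
  have hUU : star U * U = 1 := Unitary.coe_star_mul_self _
  have h3 : (spec_D B) ^ k = U * (Matrix.diagonal fun i => spec_E B i ^ k) * star U := by
    induction k with
    | zero =>
      have hUU' : U * star U = 1 := Unitary.coe_mul_star_self _
      simp [hUU']
    | succ k ih =>
      rw [pow_succ, ih, h2]
      have : U * (Matrix.diagonal fun i => spec_E B i ^ k) * star U *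
          (U * Matrix.diagonal (RCLike.ofReal ∘ (spec_D_herm B).eigenvalues) * star U) =
          U * ((Matrix.diagonal fun i => spec_E B i ^ k) * (star U *
          U) * Matrix.diagonal (RCLike.ofReal ∘ (spec_D_herm B).eigenvalues)) * star U := by
        simp only [Matrix.mul_assoc]
      rw [this, hUU, Matrix.mul_one, Matrix.diagonal_mul_diagonal]
      congr 3
  rw [h3, Matrix.trace_mul_comm, ← Matrix.mul_assoc, hUU, Matrix.one_mul, Matrix.trace_diagonal]

lemma spec_E_prod (B : Matrix n n ℤ) :
    1 ≤ ∏ i ∈ Finset.univ.filter (fun i => spec_E B i ≠ 0), spec_E B i := by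
  have h1 := (spec_D_herm B).charpoly_eq
  have h2 : (spec_D B).charpoly = ((Bᵀ * B).charpoly).map (Int.castRingHom ℝ) := by
    rw [← Matrix.charpoly_map, spec_D_eq]
    rfl
  set S := Finset.univ.filter (fun i => spec_E B i ≠ 0) with hS
  set z := (Finset.univ.filter (fun i => ¬ spec_E B i ≠ 0)).card with hz
  have h3 : (∏ i, (Polynomial.X - Polynomial.C (spec_E B i))) =
      (∏ i ∈ S, (Polynomial.X - Polynomial.C (spec_E B i))) * Polynomial.X ^ z := by
    rw [← Finset.prod_filter_mul_prod_filter_not Finset.univ (fun i => spec_E B i ≠ 0)]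
    congr 1
    rw [hz, ← Finset.prod_const]
    apply Finset.prod_congr rfl
    intro i hi
    have : spec_E B i = 0 := by simpa using (Finset.mem_filter.1 hi).2
    rw [this, map_zero, sub_zero]
  have h4 : ((((Bᵀ * B).charpoly).coeff z : ℤ) : ℝ) = ∏ i ∈ S, (-spec_E B i) := by
    have : ((((Bᵀ * B).charpoly).coeff z : ℤ) : ℝ) = (spec_D B).charpoly.coeff z := by
      rw [h2, Polynomial.coeff_map]
      rfl
    rw [this, h1]
    have e : (∏ i, (Polynomial.X - Polynomial.C (((spec_D_herm B).eigenvalues i : ℝ) : ℝ))) =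
      (∏ i ∈ S, (Polynomial.X - Polynomial.C (spec_E B i))) * Polynomial.X ^ z := h3
    have e' : (∏ i, (Polynomial.X - Polynomial.C
        (RCLike.ofReal ((spec_D_herm B).eigenvalues i) : ℝ))) =
        (∏ i ∈ S, (Polynomial.X - Polynomial.C (spec_E B i))) * Polynomial.X ^ z := e
    rw [e', Polynomial.coeff_mul_X_pow', if_pos le_rfl, Nat.sub_self,
      Polynomial.coeff_zero_prod]
    simp
  have h5 : |((((Bᵀ * B).charpoly).coeff z : ℤ) : ℝ)| = ∏ i ∈ S, spec_E B i := by
    rw [h4, Finset.abs_prod]
    apply Finset.prod_congr rfl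
    intro i _
    rw [abs_neg, abs_of_nonneg (spec_E_nonneg B i)]
  have h6 : (((Bᵀ * B).charpoly).coeff z : ℤ) ≠ 0 := by
    intro h0
    rw [h0, Int.cast_zero, abs_zero] at h5
    have := Finset.prod_eq_zero_iff.1 h5.symm
    obtain ⟨i, hi, hi0⟩ := this
    exact (Finset.mem_filter.1 hi).2 hi0
  rw [← h5, ← Int.cast_abs]
  have : (1 : ℤ) ≤ |((Bᵀ * B).charpoly).coeff z| := Int.one_le_abs h6
  exact_mod_cast this

lemma spec_sum (B : Matrix n n ℤ) (K : ℝ) (N : ℕ) :
    (∑ k ∈ Finset.range (N + 1),
      (N.choose k : ℝ) * (-1 / K) ^ k * (((B.transpose * B) ^ k).trace : ℝ)) =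
    ∑ i, (1 - spec_E B i / K) ^ N := by
  have h : ∀ i, (1 - spec_E B i / K) ^ N =
      ∑ k ∈ Finset.range (N + 1), (N.choose k : ℝ) * (-1 / K) ^ k * spec_E B i ^ k := by
    intro i
    have : 1 - spec_E B i / K = (-1 / K) * spec_E B i + 1 := by ring
    rw [this, add_pow]
    apply Finset.sum_congr rfl
    intro k _
    rw [one_pow, mul_one, mul_pow]
    ring
  simp_rw [h]
  rw [Finset.sum_comm]
  apply Finset.sum_congr rfl
  intro k _
  rw [spec_E_trace, Finset.mul_sum]

theorem p_spec : B_spec := by
  intro n _ _ B K hK1 hK N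
  have hK0 : 0 < K := lt_of_lt_of_le one_pos hK1
  rw [spec_sum]
  have hle := spec_E_le B K hK
  have hnn := spec_E_nonneg B
  have t0 : ∀ i, 0 ≤ 1 - spec_E B i / K := by
    intro i
    have : spec_E B i / K ≤ 1 := (div_le_one hK0).2 (hle i)
    linarith
  have t1 : ∀ i, 1 - spec_E B i / K ≤ 1 := by
    intro i
    have : 0 ≤ spec_E B i / K := div_nonneg (hnn i) hK0.le
    linarith
  constructor
  · rw [← spec_E_zero]
    calc (((Finset.univ.filter fun i => spec_E B i = 0).card : ℕ) : ℝ)
        = ∑ i ∈ Finset.univ.filter (fun i => spec_E B i = 0), (1 : ℝ) := by simp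
      _ = ∑ i ∈ Finset.univ.filter (fun i => spec_E B i = 0), (1 - spec_E B i / K) ^ N := by
          apply Finset.sum_congr rfl
          intro i hi
          rw [(Finset.mem_filter.1 hi).2]
          simp
      _ ≤ ∑ i, (1 - spec_E B i / K) ^ N := by
          apply Finset.sum_le_sum_of_subset_of_nonneg (Finset.filter_subset _ _)
          intro i _ _
          exact pow_nonneg (t0 i) N
  · intro ε hε0 hε1
    set S := Finset.univ.filter (fun i => spec_E B i ≠ 0) with hS
    set S1 := S.filter (fun i => spec_E B i < ε) with hS1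
    have hs : (S1.card : ℝ) ≤ Fintype.card n * (Real.log K / Real.log (1 / ε)) := by
      have hp := spec_E_prod B
      rw [← Finset.prod_filter_mul_prod_filter_not S (fun i => spec_E B i < ε)] at hp
      have a1 : ∏ i ∈ S1, spec_E B i ≤ ε ^ S1.card := by
        rw [← Finset.prod_const]
        apply Finset.prod_le_prod
        · intro i _
          exact hnn i
        · intro i hi
          exact (Finset.mem_filter.1 hi).2.le
      have a2 : ∏ i ∈ S.filter (fun i => ¬ spec_E B i < ε), spec_E B i ≤ K ^ Fintype.card n := by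
        calc ∏ i ∈ S.filter (fun i => ¬ spec_E B i < ε), spec_E B i
            ≤ ∏ i ∈ S.filter (fun i => ¬ spec_E B i < ε), K := by
              apply Finset.prod_le_prod
              · intro i _
                exact hnn i
              · intro i _
                exact hle i
          _ = K ^ (S.filter (fun i => ¬ spec_E B i < ε)).card := Finset.prod_const _
          _ ≤ K ^ Fintype.card n := pow_le_pow_right₀ hK1 (Finset.card_le_univ _)
      have a3 : 1 ≤ ε ^ S1.card * K ^ Fintype.card n := by
        refine hp.trans (mul_le_mul a1 a2 ?_ ?_)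
        · exact Finset.prod_nonneg fun i _ => hnn i
        · exact pow_nonneg hε0.le _
      have a4 := Real.log_le_log one_pos a3
      rw [Real.log_one, Real.log_mul (pow_ne_zero _ hε0.ne') (pow_ne_zero _ hK0.ne'),
        Real.log_pow, Real.log_pow] at a4
      have a5 : 0 < Real.log (1 / ε) := Real.log_pos (by rw [lt_div_iff₀ hε0]; linarith)
      have a6 : Real.log (1 / ε) = - Real.log ε := by
        rw [one_div, Real.log_inv]
      rw [← mul_div_assoc, le_div_iff₀ a5, a6]
      linarith
    have hterm : ∀ i, (1 - spec_E B i / K) ^ N ≤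
        (if spec_E B i = 0 then (1 : ℝ) else 0) + (if i ∈ S1 then (1 : ℝ) else 0) +
          (1 - ε / K) ^ N := by
      intro i
      have e0 : 0 ≤ 1 - ε / K := by
        have : ε / K ≤ 1 := (div_le_one hK0).2 (by linarith)
        linarith
      have e1 : 0 ≤ (1 - ε / K) ^ N := pow_nonneg e0 N
      have e2 : (1 - spec_E B i / K) ^ N ≤ 1 := pow_le_one₀ (t0 i) (t1 i)
      by_cases h0 : spec_E B i = 0
      · rw [if_pos h0]
        have : (0 : ℝ) ≤ if i ∈ S1 then (1 : ℝ) else 0 := by split_ifs <;> norm_num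
        linarith
      · by_cases h1 : spec_E B i < ε
        · have : i ∈ S1 := by
            rw [hS1, Finset.mem_filter, hS, Finset.mem_filter]
            exact ⟨⟨Finset.mem_univ _, h0⟩, h1⟩
          rw [if_neg h0, if_pos this]
          linarith
        · have : (1 - spec_E B i / K) ^ N ≤ (1 - ε / K) ^ N := by
            apply pow_le_pow_left₀ (t0 i)
            have : ε / K ≤ spec_E B i / K := div_le_div_of_nonneg_right (not_lt.1 h1) hK0.le
            linarith
          have h2 : (0 : ℝ) ≤ if i ∈ S1 then (1 : ℝ) else 0 := by split_ifs <;> norm_num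
          rw [if_neg h0]
          linarith
    have hfin : ∑ i, (1 - spec_E B i / K) ^ N ≤
        nul B + S1.card + Fintype.card n * (1 - ε / K) ^ N := by
      calc ∑ i, (1 - spec_E B i / K) ^ N ≤ ∑ i : n, ((if spec_E B i = 0 then (1 : ℝ) else 0) +
            (if i ∈ S1 then (1 : ℝ) else 0) + (1 - ε / K) ^ N) :=
          Finset.sum_le_sum fun i _ => hterm i
        _ = nul B + S1.card + Fintype.card n * (1 - ε / K) ^ N := by
          rw [Finset.sum_add_distrib, Finset.sum_add_distrib, Finset.sum_const, Finset.card_univ,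
            nsmul_eq_mul, ← spec_E_zero]
          congr 2
          · simp
          · simp
    linarith

end Pool.Agent.F8.CG
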