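import Pool.Agent.Lib.MP_305fdd_al.F8.CG.StmB2

/-!
# MP_305fdd_al, [CG stA]: the first case, `K ⊓ ker ν ≤ K'`
-/

set_option autoImplicit false

namespace Pool.Agent.F8.CG

open Pool.Agent.F8.BG

private theorem stA_inj (q e : ℕ) (hq : 0 < q) : Function.Injective
    (fun s : ℤ × Fin (q * e) => ((q : ℤ) * s.1 + ((finProdFinEquiv.symm s.2).1 : ℕ),
      (finProdFinEquiv.symm s.2).2)) := by
  rintro ⟨k, t⟩ ⟨k', t'⟩ h
  simp only [Prod.mk.injEq] at h
  obtain ⟨h1, h2⟩ := h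
  have hi : (((finProdFinEquiv.symm t).1 : ℕ) : ℤ) < q := by exact_mod_cast (finProdFinEquiv.symm t).1.2
  have hi' : (((finProdFinEquiv.symm t').1 : ℕ) : ℤ) < q := by
    exact_mod_cast (finProdFinEquiv.symm t').1.2
  have h0 : (0 : ℤ) ≤ (((finProdFinEquiv.symm t).1 : ℕ) : ℤ) := Int.natCast_nonneg _
  have h0' : (0 : ℤ) ≤ (((finProdFinEquiv.symm t').1 : ℕ) : ℤ) := Int.natCast_nonneg _
  have hq' : (0 : ℤ) < q := by exact_mod_cast hq
  have hk : k = k' := by
    have e1 : (q : ℤ) * (k - k') < q * 1 := by linarith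
    have e2 : (q : ℤ) * (k' - k) < q * 1 := by linarith
    have e3 := lt_of_mul_lt_mul_left e1 hq'.le
    have e4 := lt_of_mul_lt_mul_left e2 hq'.le
    omega
  subst hk
  have h3 : (finProdFinEquiv.symm t).1 = (finProdFinEquiv.symm t').1 := by
    apply Fin.ext
    have : (((finProdFinEquiv.symm t).1 : ℕ) : ℤ) = ((finProdFinEquiv.symm t').1 : ℕ) := by linarith
    exact_mod_cast this
  have h4 : finProdFinEquiv.symm t = finProdFinEquiv.symm t' := Prod.ext h3 h2
  rw [finProdFinEquiv.symm.injective h4]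

theorem p_stA : B_stA := by
  intro q hq H _ ν K K' e hKK hix hle hI
  obtain ⟨h, hhK, hνh, hgen, m, hy, hli⟩ := hI
  have hq0 : 0 < q := hq.out.pos
  have hP : K' ⊓ ν.ker = K ⊓ ν.ker :=
    le_antisymm (inf_le_inf_right _ hKK) (le_inf hle inf_le_right)
  -- the powers of `h`
  have hmem : ∀ x ∈ K, ∀ n : ℤ, ν x = ν h ^ n → x * (h ^ n)⁻¹ ∈ K' := by
    intro x hx n hn
    apply hle
    refine Subgroup.mem_inf.2 ⟨K.mul_mem hx (K.inv_mem (K.zpow_mem hhK n)), ?_⟩
    rw [MonoidHom.mem_ker, map_mul, map_inv, map_zpow, hn, mul_inv_cancel]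
  have hnor : (K'.subgroupOf K).Normal := by
    constructor
    rintro ⟨x, hx⟩ hx' ⟨g, hg⟩
    rw [Subgroup.mem_subgroupOf] at hx' ⊢
    change x ∈ K' at hx'
    change g * x * g⁻¹ ∈ K'
    have h1 : g * x * g⁻¹ * x⁻¹ ∈ K' := by
      apply hle
      refine Subgroup.mem_inf.2
        ⟨K.mul_mem (K.mul_mem (K.mul_mem hg hx) (K.inv_mem hg)) (K.inv_mem hx), ?_⟩
      rw [MonoidHom.mem_ker, map_mul, map_mul, map_mul, map_inv, map_inv,
        mul_comm (ν g) (ν x), mul_inv_cancel_right, mul_inv_cancel]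
    have h2 := K'.mul_mem h1 hx'
    rwa [inv_mul_cancel_right] at h2
  have hhq : h ^ q ∈ K' := by
    have h1 := Subgroup.pow_index_mem (K'.subgroupOf K) (⟨h, hhK⟩ : K)
    have h2 : (K'.subgroupOf K).index = q := hix
    rw [h2, Subgroup.mem_subgroupOf] at h1
    simpa using h1
  have hhn : h ∉ K' := by
    intro h1
    have h2 : K ≤ K' := by
      intro x hx
      obtain ⟨n, hn⟩ := hgen x hx
      have h3 := K'.mul_mem (hmem x hx n hn) (K'.zpow_mem h1 n)
      rwa [inv_mul_cancel_right] at h3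
    have h3 : K'.relIndex K = 1 := Subgroup.relIndex_eq_one.2 h2
    rw [hix] at h3
    exact hq.out.one_lt.ne' h3
  have hdvd : ∀ n : ℤ, h ^ n ∈ K' → (q : ℤ) ∣ n := by
    intro n hn
    by_contra hnd
    have hcop : IsCoprime (q : ℤ) n := by
      rw [Int.isCoprime_iff_gcd_eq_one]
      have h1 : Nat.Coprime q n.natAbs := by
        rw [hq.out.coprime_iff_not_dvd]
        intro h2
        exact hnd (Int.natCast_dvd.2 h2)
      exact h1
    obtain ⟨u, v, huv⟩ := hcop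
    apply hhn
    have h1 : h = (h ^ q) ^ u * (h ^ n) ^ v := by
      rw [← zpow_natCast, ← zpow_mul, ← zpow_mul, ← zpow_add]
      conv_lhs => rw [← zpow_one h]
      congr 1
      linarith
    rw [h1]
    exact K'.mul_mem (K'.zpow_mem hhq u) (K'.zpow_mem hn v)
  refine ⟨h ^ q, hhq, ?_, ?_, fun t => h ^ ((finProdFinEquiv.symm t).1 : ℕ) *
    m (finProdFinEquiv.symm t).2 * (h ^ ((finProdFinEquiv.symm t).1 : ℕ))⁻¹, ?_⟩
  · rw [map_pow]
    intro h1
    apply hνh
    have h2 : q • Multiplicative.toAdd (ν h) = 0 := by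
      rw [← toAdd_pow, h1]; rfl
    rcases smul_eq_zero.1 h2 with h3 | h3
    · omega
    · exact Multiplicative.toAdd.injective h3
  · intro x hx
    obtain ⟨n, hn⟩ := hgen x (hKK hx)
    have h1 := hmem x (hKK hx) n hn
    have h2 : h ^ n ∈ K' := by
      have h3 := K'.mul_mem (K'.inv_mem h1) hx
      have e1 : (x * (h ^ n)⁻¹)⁻¹ * x = h ^ n := by group
      rwa [e1] at h3
    obtain ⟨r, hr⟩ := hdvd n h2
    refine ⟨r, ?_⟩
    rw [hn, hr, map_pow, zpow_mul, zpow_natCast]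
  · rw [hP]
    have hfam : ∀ s : ℤ × Fin (q * e),
        (h ^ q) ^ s.1 * (h ^ ((finProdFinEquiv.symm s.2).1 : ℕ) *
          m (finProdFinEquiv.symm s.2).2 * (h ^ ((finProdFinEquiv.symm s.2).1 : ℕ))⁻¹) *
          ((h ^ q) ^ s.1)⁻¹ =
        h ^ ((q : ℤ) * s.1 + ((finProdFinEquiv.symm s.2).1 : ℕ)) * m (finProdFinEquiv.symm s.2).2 *
          (h ^ ((q : ℤ) * s.1 + ((finProdFinEquiv.symm s.2).1 : ℕ)))⁻¹ := by
      intro s
      have e1 : h ^ ((q : ℤ) * s.1 + ((finProdFinEquiv.symm s.2).1 : ℕ)) =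
          (h ^ q) ^ s.1 * h ^ ((finProdFinEquiv.symm s.2).1 : ℕ) := by
        rw [zpow_add, zpow_mul, zpow_natCast, zpow_natCast]
      rw [e1, mul_inv_rev]
      simp only [mul_assoc]
    refine ⟨fun s => ?_, ?_⟩
    · have h1 := hy ((q : ℤ) * s.1 + ((finProdFinEquiv.symm s.2).1 : ℕ),
        (finProdFinEquiv.symm s.2).2)
      simp only at h1
      rw [← hfam s] at h1
      exact h1
    · have h2 := hli.comp _ (stA_inj q e hq0)
      convert h2 using 1
      funext s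
      simp only [Function.comp]
      congr 1
      exact Subtype.ext (hfam s)

end Pool.Agent.F8.CG
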