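import Pool.Agent.Lib.MP_305fdd_al.F8.CG.StmB2

set_option autoImplicit false

namespace Pool.Agent.F8.CG

open Pool.Agent.F8.BG Polynomial

/-! ### Linear algebra -/

private theorem stB_X1 (q : ℕ) [Fact q.Prime] : ((X : (ZMod q)[X]) - 1) ^ q = X ^ q - 1 := by
  rw [sub_pow_char, one_pow]

private theorem stB_geom (q : ℕ) [Fact q.Prime] :
    ((X : (ZMod q)[X]) - 1) ^ (q - 1) = ∑ i ∈ Finset.range q, X ^ i := by
  have hq : 0 < q := (Fact.out : q.Prime).pos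
  have h1 : ((X : (ZMod q)[X]) - 1) ≠ 0 := by
    intro h
    have := congrArg (fun p : (ZMod q)[X] => p.coeff 1) h
    simp [coeff_X, coeff_one] at this
  apply mul_right_cancel₀ h1
  rw [geom_sum_mul, ← stB_X1, ← pow_succ, Nat.sub_add_cancel hq]

/-- the core -/
private theorem stB_core (q : ℕ) [Fact q.Prime] {F F' T : Type} [AddCommGroup F]
    [Module (ZMod q) F] [AddCommGroup F'] [Module (ZMod q) F'] (D : Module.End (ZMod q) F')
    (hD : D ^ q = 1) (τ : T → (F' →ₗ[ZMod q] ZMod q)) (u : T → (F →ₗ[ZMod q] ZMod q))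
    (hu : LinearIndependent (ZMod q) u)
    (hf : ∀ f : F, ∃ f' : F', ∀ t, ∑ i ∈ Finset.range q, τ t ((D ^ i) f') = u t f) :
    LinearIndependent (ZMod q) (fun s : T × Fin q => τ s.1 ∘ₗ (D ^ (s.2 : ℕ))) := by
  classical
  have hq : 0 < q := (Fact.out : q.Prime).pos
  rw [linearIndependent_iff'']
  intro s a ha hs
  obtain ⟨A, hA⟩ : ∃ A : T → (ZMod q)[X], A = fun t => ∑ i : Fin q, C (a (t, i)) * X ^ (i : ℕ) :=
    ⟨_, rfl⟩
  have hcoef : ∀ (t : T) (i : Fin q), (A t).coeff i = a (t, i) := by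
    intro t i
    rw [hA]
    simp only [finsetSum_coeff, coeff_C_mul_X_pow]
    rw [Finset.sum_eq_single i]
    · simp
    · intro j _ hj
      rw [if_neg]
      intro e
      exact hj (Fin.ext e).symm
    · intro h
      exact absurd (Finset.mem_univ _) h
  have hdeg : ∀ t : T, (A t).degree < q := by
    intro t
    rw [hA]
    exact degree_sum_fin_lt (fun i => a (t, i))
  have hA0 : ∀ t, t ∉ s.image Prod.fst → A t = 0 := by
    intro t ht
    rw [hA]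
    refine Finset.sum_eq_zero fun i _ => ?_
    rw [ha (t, i) (fun h => ht (Finset.mem_image_of_mem Prod.fst h)), C_0, zero_mul]
  have hD0 : aeval D (((X : (ZMod q)[X]) - 1) ^ q) = 0 := by
    rw [stB_X1, map_sub, map_pow, aeval_X, map_one, hD, sub_self]
  have h1 : ∀ f' : F', ∑ t ∈ s.image Prod.fst, τ t ((aeval D (A t)) f') = 0 := by
    intro f'
    have h2 := congrArg (fun L : F' →ₗ[ZMod q] ZMod q => L f') hs
    simp only [LinearMap.zero_apply] at h2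
    rw [← h2, LinearMap.sum_apply]
    have h3 : s ⊆ (s.image Prod.fst) ×ˢ (Finset.univ : Finset (Fin q)) := by
      intro x hx
      exact Finset.mem_product.2 ⟨Finset.mem_image_of_mem _ hx, Finset.mem_univ _⟩
    rw [Finset.sum_subset h3 (fun x _ hx => by rw [ha x hx, zero_smul, LinearMap.zero_apply]),
      Finset.sum_product]
    refine Finset.sum_congr rfl fun t _ => ?_
    rw [hA]
    simp only [map_sum, LinearMap.sum_apply, map_mul, aeval_C, map_pow, aeval_X,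
      Module.End.mul_apply, LinearMap.smul_apply, LinearMap.comp_apply, smul_eq_mul,
      Module.algebraMap_end_apply, map_smul]
  have h2 : ∀ (b : (ZMod q)[X]) (f' : F'),
      ∑ t ∈ s.image Prod.fst, τ t ((aeval D (A t * b)) f') = 0 := by
    intro b f'
    rw [← h1 (aeval D b f')]
    refine Finset.sum_congr rfl fun t _ => ?_
    rw [map_mul, Module.End.mul_apply]
  have key : ∀ r : ℕ, r ≤ q → ∀ t, ((X : (ZMod q)[X]) - 1) ^ r ∣ A t := by
    intro r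
    induction r with
    | zero => intro _ t; rw [pow_zero]; exact one_dvd _
    | succ r ih =>
      intro hr t
      have h3 : ∀ t, ∃ B, A t = ((X : (ZMod q)[X]) - 1) ^ r * B := ih (by omega)
      choose B hB using h3
      have h4 : ∀ t, ∃ B', B t - C ((B t).eval 1) = (X - C 1) * B' :=
        fun t => X_sub_C_dvd_sub_C_eval
      choose B' hB' using h4
      have h5 : ∀ (t : T) (f' : F'), (aeval D (A t * ((X : (ZMod q)[X]) - 1) ^ (q - 1 - r))) f' =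
          (B t).eval 1 • ∑ i ∈ Finset.range q, (D ^ i) f' := by
        intro t f'
        have h6 : A t * ((X : (ZMod q)[X]) - 1) ^ (q - 1 - r) =
            C ((B t).eval 1) * (∑ i ∈ Finset.range q, X ^ i) + B' t * (X - 1) ^ q := by
          have h7 : B t = C ((B t).eval 1) + (X - 1) * B' t := by
            have := hB' t
            rw [C_1] at this
            rw [← this]
            ring
          rw [← stB_geom]
          calc A t * ((X : (ZMod q)[X]) - 1) ^ (q - 1 - r)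
              = (((X : (ZMod q)[X]) - 1) ^ r * (X - 1) ^ (q - 1 - r)) * B t := by
                rw [hB t]; ring
            _ = (X - 1) ^ (q - 1) * (C ((B t).eval 1) + (X - 1) * B' t) := by
                rw [← pow_add, ← h7, show r + (q - 1 - r) = q - 1 from by omega]
            _ = C ((B t).eval 1) * (X - 1) ^ (q - 1) + B' t * ((X - 1) ^ (q - 1) * (X - 1)) := by
                ring
            _ = _ := by rw [← pow_succ, Nat.sub_add_cancel hq]
        rw [h6, map_add, map_mul, map_mul, hD0, mul_zero, add_zero, aeval_C]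
        simp only [map_sum, map_pow, aeval_X, Module.End.mul_apply, LinearMap.sum_apply,
          Module.algebraMap_end_apply, Finset.smul_sum]
      have h8 : ∑ t ∈ s.image Prod.fst, (B t).eval 1 • u t = 0 := by
        apply LinearMap.ext
        intro f
        obtain ⟨f', hf'⟩ := hf f
        rw [LinearMap.zero_apply, ← h2 ((X - 1) ^ (q - 1 - r)) f', LinearMap.sum_apply]
        refine Finset.sum_congr rfl fun t _ => ?_
        rw [h5, map_smul, LinearMap.smul_apply, map_sum, hf' t]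
      have h9 := linearIndependent_iff'.1 hu _ _ h8
      by_cases ht : t ∈ s.image Prod.fst
      · have h10 : (X - C 1) ∣ B t := by
          rw [dvd_iff_isRoot]
          exact h9 t ht
        obtain ⟨B'', hB''⟩ := h10
        rw [C_1] at hB''
        rw [hB t, hB'', ← mul_assoc, ← pow_succ]
        exact Dvd.intro _ rfl
      · rw [hA0 t ht]
        exact dvd_zero _
  rintro ⟨t, i⟩
  have h11 : A t = 0 := by
    apply eq_zero_of_dvd_of_degree_lt (key q le_rfl t)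
    have h12 : (((X : (ZMod q)[X]) - 1) ^ q).degree = q := by
      rw [← C_1, degree_pow, degree_X_sub_C]
      simp
    rw [h12]
    exact hdeg t
  rw [← hcoef t i, h11, coeff_zero]

/-- differences of a shifted family -/
private theorem stB_shift {k V J : Type} [Field k] [AddCommGroup V] [Module k V] (v : ℤ × J → V)
    (hv : LinearIndependent k v) : LinearIndependent k (fun s : ℤ × J => v (s.1 + 1, s.2) - v s) := by
  classical
  rw [linearIndependent_iff]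
  intro l hl
  obtain ⟨σ, hσ⟩ : ∃ σ : ℤ × J → ℤ × J, σ = fun s => (s.1 + 1, s.2) := ⟨_, rfl⟩
  have hinj : Function.Injective σ := by
    rw [hσ]
    rintro ⟨a, b⟩ ⟨c, d⟩ h
    simp only [Prod.mk.injEq] at h
    rw [Prod.mk.injEq]
    exact ⟨by omega, h.2⟩
  have h1 : Finsupp.linearCombination k v (l.mapDomain σ - l) = 0 := by
    rw [map_sub, Finsupp.linearCombination_mapDomain, ← hl, Finsupp.linearCombination_apply,
      Finsupp.linearCombination_apply, Finsupp.linearCombination_apply, Finsupp.sum, Finsupp.sum,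
      Finsupp.sum, ← Finset.sum_sub_distrib]
    refine Finset.sum_congr rfl fun s _ => ?_
    rw [smul_sub, hσ]
    rfl
  have h2 : l.mapDomain σ = l := sub_eq_zero.1 (linearIndependent_iff.1 hv _ h1)
  have h3 : ∀ s, l (σ s) = l s := by
    intro s
    conv_lhs => rw [← h2]
    exact Finsupp.mapDomain_apply hinj l s
  ext s
  rw [Finsupp.zero_apply]
  by_contra hs
  obtain ⟨a, j⟩ := s
  have h4 : ∀ n : ℕ, l (a + n, j) = l (a, j) := by
    intro n
    induction n with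
    | zero => simp
    | succ n ih =>
      rw [← ih, ← h3 (a + n, j), hσ]
      push_cast
      rw [add_assoc]
  have h5 : Set.Infinite (l.support : Set (ℤ × J)) := by
    refine Set.infinite_of_injective_forall_mem (f := fun n : ℕ => ((a + n, j) : ℤ × J)) ?_ ?_
    · intro n n' hn
      simp only [Prod.mk.injEq] at hn
      omega
    · intro n
      rw [Finset.mem_coe, Finsupp.mem_support_iff, h4]
      exact hs
  exact h5 l.support.finite_toSet

/-! ### Functionals -/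

private theorem stB_evh_conj {k : Type} [Field k] {P : Type} [Group P] (a b : P) :
    evh k (a * b * a⁻¹) = evh k b := by
  apply LinearMap.ext
  intro f
  show f (Additive.ofMul (a * b * a⁻¹)) = f (Additive.ofMul b)
  rw [ofMul_mul, ofMul_mul, ofMul_inv, map_add, map_add, map_neg]
  ring

private theorem stB_evh_div {k : Type} [Field k] {P : Type} [Group P] (a b : P) :
    evh k (a * b⁻¹) = evh k a - evh k b := by
  apply LinearMap.ext
  intro f
  show f (Additive.ofMul (a * b⁻¹)) = f (Additive.ofMul a) - f (Additive.ofMul b)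
  rw [ofMul_mul, ofMul_inv, map_add, map_neg]
  ring

/-! ### The quotient -/

private theorem stB_quot (q : ℕ) [Fact q.Prime] {H : Type} [Group H] (K K' : Subgroup H)
    (hnor : ∀ g ∈ K, ∀ x ∈ K', g * x * g⁻¹ ∈ K') (hidx : K'.relIndex K = q) (c : H)
    (hc : c ∈ K) (hc' : c ∉ K') : (∀ x ∈ K, ∃ i : ℕ, (c ^ i)⁻¹ * x ∈ K') ∧ c ^ q ∈ K' ∧
      ∀ x ∈ K, ∀ y ∈ K, x * y * x⁻¹ * y⁻¹ ∈ K' := by
  have hN : (K'.subgroupOf K).Normal := ⟨fun n hn g => hnor g g.2 n hn⟩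
  have hcard : Nat.card (K ⧸ K'.subgroupOf K) = q := hidx
  have hone : ∀ x : K, (QuotientGroup.mk' (K'.subgroupOf K)) x = 1 ↔ (x : H) ∈ K' := by
    intro x
    rw [QuotientGroup.mk'_apply, QuotientGroup.eq_one_iff]
    rfl
  have hc1 : (QuotientGroup.mk' (K'.subgroupOf K)) ⟨c, hc⟩ ≠ 1 := fun h => hc' ((hone _).1 h)
  have hgen : ∀ x : K, ∃ i : ℕ, (QuotientGroup.mk' (K'.subgroupOf K)) ⟨c, hc⟩ ^ i =
      (QuotientGroup.mk' (K'.subgroupOf K)) x := fun x => mem_powers_of_prime_card hcard hc1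
  refine ⟨?_, ?_, ?_⟩
  · intro x hx
    obtain ⟨i, hi⟩ := hgen ⟨x, hx⟩
    refine ⟨i, (hone ((⟨c, hc⟩ ^ i)⁻¹ * ⟨x, hx⟩)).1 ?_⟩
    rw [map_mul, map_inv, map_pow, hi, inv_mul_cancel]
  · refine (hone (⟨c, hc⟩ ^ q)).1 ?_
    rw [map_pow]
    have := pow_card_eq_one' (x := (QuotientGroup.mk' (K'.subgroupOf K)) ⟨c, hc⟩)
    rwa [hcard] at this
  · intro x hx y hy
    obtain ⟨i, hi⟩ := hgen ⟨x, hx⟩
    obtain ⟨j, hj⟩ := hgen ⟨y, hy⟩
    refine (hone (⟨x, hx⟩ * ⟨y, hy⟩ * ⟨x, hx⟩⁻¹ * ⟨y, hy⟩⁻¹)).1 ?_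
    rw [map_mul, map_mul, map_mul, map_inv, map_inv, ← hi, ← hj]
    group

/-! ### The conjugation on functionals -/

/-- conjugation with `c` on `L` -/
private def stB_cj {H : Type} [Group H] (L : Subgroup H) (c : H) (hL : ∀ x ∈ L, c * x * c⁻¹ ∈ L) :
    L →* L where
  toFun x := ⟨c * x * c⁻¹, hL x x.2⟩
  map_one' := Subtype.ext (by simp)
  map_mul' x y := Subtype.ext (by simp)

/-- the operator on the functionals -/
private def stB_D (q : ℕ) [Fact q.Prime] {H : Type} [Group H] (L : Subgroup H) (c : H)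
    (hL : ∀ x ∈ L, c * x * c⁻¹ ∈ L) : Module.End (ZMod q) (Additive L →+ ZMod q) where
  toFun f := f.comp (MonoidHom.toAdditive (stB_cj L c hL))
  map_add' _ _ := rfl
  map_smul' _ _ := rfl

private theorem stB_D_pow (q : ℕ) [Fact q.Prime] {H : Type} [Group H] (L : Subgroup H) (c : H)
    (hL : ∀ x ∈ L, c * x * c⁻¹ ∈ L) (i : ℕ) : ∀ (f : Additive L →+ ZMod q) (x y : L),
      (y : H) = c ^ i * x * (c ^ i)⁻¹ →
      ((stB_D q L c hL) ^ i) f (Additive.ofMul x) = f (Additive.ofMul y) := by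
  induction i with
  | zero =>
    intro f x y h
    have : y = x := Subtype.ext (by rw [h]; simp)
    rw [this]
    rfl
  | succ i ih =>
    intro f x y h
    rw [pow_succ', Module.End.mul_apply]
    show ((stB_D q L c hL) ^ i) f (Additive.ofMul (stB_cj L c hL x)) = _
    apply ih
    rw [h]
    show _ = c ^ i * (c * x * c⁻¹) * (c ^ i)⁻¹
    rw [pow_succ]
    group

private theorem stB_main (q : ℕ) [Fact q.Prime] (H : Type) [Group H] (ν : H →* Multiplicative ℤ)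
    (K K' : Subgroup H) (e : ℕ) (hfac : B_fac) (hfree : IsFreeGroup (K ⊓ ν.ker : Subgroup H))
    (hle : K' ≤ K) (hnor : ∀ g ∈ K, ∀ x ∈ K', g * x * g⁻¹ ∈ K') (hidx : K'.relIndex K = q)
    (c : H) (hcK : c ∈ K) (hcν : ν c = 1) (hc' : c ∉ K') (h : H) (hh : h ∈ K')
    (hν : ν h ≠ 1) (hgen : ∀ x ∈ K, ∃ n : ℤ, ν x = ν h ^ n) (m : Fin e → H)
    (hm : IndS (ZMod q) (K ⊓ ν.ker) fun s : ℤ × Fin e => h ^ s.1 * m s.2 * (h ^ s.1)⁻¹) :
    IndK q ν K' (q * e) := by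
  obtain ⟨ha, hb, hd⟩ := stB_quot q K K' hnor hidx c hcK hc'
  obtain ⟨hy, hli⟩ := hm
  have hmem : ∀ x : H, x ∈ K' ⊓ ν.ker ↔ x ∈ K' ∧ ν x = 1 := by
    intro x
    rw [Subgroup.mem_inf, MonoidHom.mem_ker]
  have hmemP : ∀ x : H, x ∈ K ⊓ ν.ker ↔ x ∈ K ∧ ν x = 1 := by
    intro x
    rw [Subgroup.mem_inf, MonoidHom.mem_ker]
  have hmP : ∀ j, m j ∈ K ∧ ν (m j) = 1 := by
    intro j
    have := (hmemP _).1 (hy (0, j))
    simpa using this
  have hkey : ∀ g ∈ K, ∀ x ∈ K' ⊓ ν.ker, g * x * g⁻¹ ∈ K' ⊓ ν.ker := by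
    intro g hg x hx
    rw [hmem] at hx ⊢
    refine ⟨hnor g hg x hx.1, ?_⟩
    rw [map_mul, map_mul, hx.2, mul_one, map_inv, mul_inv_cancel]
  -- step 2
  obtain ⟨n, hn⟩ : ∃ n : Fin e → H, n = fun j => h * m j * h⁻¹ * (m j)⁻¹ := ⟨_, rfl⟩
  have hn' : ∀ j, n j ∈ K' ⊓ ν.ker := by
    intro j
    rw [hmem, hn]
    constructor
    · have h1 := hnor (m j) (hmP j).1 h⁻¹ (K'.inv_mem hh)
      have h2 := K'.mul_mem hh h1
      have e1 : h * (m j * h⁻¹ * (m j)⁻¹) = h * m j * h⁻¹ * (m j)⁻¹ := by group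
      rwa [e1] at h2
    · show ν (h * m j * h⁻¹ * (m j)⁻¹) = 1
      rw [map_mul, map_mul, map_mul, map_inv, map_inv, (hmP j).2]
      simp
  have hhK : ∀ k : ℤ, h ^ k ∈ K := fun k => K.zpow_mem (hle hh) k
  have ht : ∀ s : ℤ × Fin e, h ^ s.1 * n s.2 * (h ^ s.1)⁻¹ ∈ K' ⊓ ν.ker := fun s =>
    hkey _ (hhK s.1) _ (hn' s.2)
  have hPP : K' ⊓ ν.ker ≤ K ⊓ ν.ker := inf_le_inf_right _ hle
  have hu : LinearIndependent (ZMod q) (fun s : ℤ × Fin e =>
      evh (ZMod q) (⟨h ^ s.1 * n s.2 * (h ^ s.1)⁻¹, hPP (ht s)⟩ : (K ⊓ ν.ker : Subgroup H))) := by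
    have h1 := stB_shift _ hli
    refine Eq.mp (congrArg (fun v => LinearIndependent (ZMod q) v)
      (_root_.funext fun s => ?_)) h1
    rw [← stB_evh_div]
    congr 1
    apply Subtype.ext
    show (h ^ (s.1 + 1) * m s.2 * (h ^ (s.1 + 1))⁻¹) * (h ^ s.1 * m s.2 * (h ^ s.1)⁻¹)⁻¹ =
      h ^ s.1 * n s.2 * (h ^ s.1)⁻¹
    rw [hn]
    show _ = h ^ s.1 * (h * m s.2 * h⁻¹ * (m s.2)⁻¹) * (h ^ s.1)⁻¹
    rw [zpow_add_one]
    group
  -- the operator
  have hL : ∀ x ∈ K' ⊓ ν.ker, c * x * c⁻¹ ∈ K' ⊓ ν.ker := hkey c hcK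
  have hcq : c ^ q ∈ K' ⊓ ν.ker := (hmem _).2 ⟨hb, by rw [map_pow, hcν, one_pow]⟩
  have hD : (stB_D q (K' ⊓ ν.ker) c hL) ^ q = 1 := by
    apply LinearMap.ext
    intro f
    apply AddMonoidHom.ext
    intro x
    have h1 := stB_D_pow q (K' ⊓ ν.ker) c hL q f (Additive.toMul x)
      (⟨c ^ q, hcq⟩ * Additive.toMul x * ⟨c ^ q, hcq⟩⁻¹) rfl
    have h2 := congrArg (fun L : (Additive (K' ⊓ ν.ker : Subgroup H) →+ ZMod q) →ₗ[ZMod q] ZMod q
      => L f) (stB_evh_conj (k := ZMod q) (⟨c ^ q, hcq⟩ : (K' ⊓ ν.ker : Subgroup H))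
        (Additive.toMul x))
    exact h1.trans h2
  have hf : ∀ f : Additive (K ⊓ ν.ker : Subgroup H) →+ ZMod q,
      ∃ f' : Additive (K' ⊓ ν.ker : Subgroup H) →+ ZMod q, ∀ s : ℤ × Fin e,
        ∑ i ∈ Finset.range q, (evh (ZMod q)
          (⟨h ^ s.1 * n s.2 * (h ^ s.1)⁻¹, ht s⟩ : (K' ⊓ ν.ker : Subgroup H)))
            (((stB_D q (K' ⊓ ν.ker) c hL) ^ i) f') =
        evh (ZMod q) (⟨h ^ s.1 * n s.2 * (h ^ s.1)⁻¹, hPP (ht s)⟩ :
          (K ⊓ ν.ker : Subgroup H)) f := by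
    intro f
    have hcP : c ∈ K ⊓ ν.ker := (hmemP c).2 ⟨hcK, hcν⟩
    have hnorP : (K'.subgroupOf (K ⊓ ν.ker)).Normal :=
      ⟨fun x hx g => hnor g ((hmemP g).1 g.2).1 x hx⟩
    have hN : (K'.subgroupOf K).Normal := ⟨fun n hn g => hnor g g.2 n hn⟩
    have hidx' : (K'.subgroupOf (K ⊓ ν.ker)).index = q := by
      have h1 : K'.subgroupOf (K ⊓ ν.ker) = ((QuotientGroup.mk' (K'.subgroupOf K)).comp
          (Subgroup.inclusion (inf_le_left : K ⊓ ν.ker ≤ K))).ker := by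
        ext x
        rw [MonoidHom.mem_ker, MonoidHom.comp_apply, QuotientGroup.mk'_apply,
          QuotientGroup.eq_one_iff]
        rfl
      have h2 : ((QuotientGroup.mk' (K'.subgroupOf K)).comp
          (Subgroup.inclusion (inf_le_left : K ⊓ ν.ker ≤ K))).range = ⊤ := by
        rw [MonoidHom.range_eq_top]
        intro y
        obtain ⟨x, rfl⟩ := QuotientGroup.mk'_surjective _ y
        obtain ⟨i, hi⟩ := ha x x.2
        refine ⟨⟨c ^ i, (K ⊓ ν.ker).pow_mem hcP i⟩, ?_⟩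
        rw [MonoidHom.comp_apply, QuotientGroup.mk'_apply, QuotientGroup.mk'_apply,
          QuotientGroup.eq]
        exact hi
      rw [h1, Subgroup.index_ker, h2, Subgroup.card_top]
      exact hidx
    obtain ⟨f0, hf1, hf2⟩ := hfac q (K ⊓ ν.ker : Subgroup H) hfree (K'.subgroupOf (K ⊓ ν.ker))
      hidx' ⟨c, hcP⟩ hc' f
    have hP2 : ∀ x : (K' ⊓ ν.ker : Subgroup H),
        (⟨x, hPP x.2⟩ : (K ⊓ ν.ker : Subgroup H)) ∈ K'.subgroupOf (K ⊓ ν.ker) :=
      fun x => ((hmem x).1 x.2).1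
    refine ⟨AddMonoidHom.mk' (fun x => f0 ⟨(Additive.toMul x : (K' ⊓ ν.ker : Subgroup H)),
      hPP (Additive.toMul x).2⟩) (fun x y => hf1 _ _ (hP2 _) (hP2 _)), ?_⟩
    intro s
    have h3 := hf2 ⟨h ^ s.1 * n s.2 * (h ^ s.1)⁻¹, hPP (ht s)⟩ (hP2 ⟨_, ht s⟩)
    refine Eq.trans (Finset.sum_congr rfl fun i _ => ?_) h3
    have hti : c ^ i * (h ^ s.1 * n s.2 * (h ^ s.1)⁻¹) * (c ^ i)⁻¹ ∈ K' ⊓ ν.ker :=
      hkey _ (K.pow_mem hcK i) _ (ht s)
    exact stB_D_pow q (K' ⊓ ν.ker) c hL i _ ⟨_, ht s⟩ ⟨_, hti⟩ rfl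
  have hcore := stB_core q (stB_D q (K' ⊓ ν.ker) c hL) hD _ _ hu hf
  -- the elements
  have hi2 : ∀ i : ℕ, c ^ i ∈ K := fun i => K.pow_mem hcK i
  refine ⟨h, hh, hν, fun x hx => hgen x (hle hx), fun s => c ^ ((finProdFinEquiv.symm s).1 : ℕ) *
    n (finProdFinEquiv.symm s).2 * (c ^ ((finProdFinEquiv.symm s).1 : ℕ))⁻¹, ?_⟩
  refine ⟨fun s => hkey _ (hhK s.1) _ (hkey _ (hi2 _) _ (hn' _)), ?_⟩
  have hinj : Function.Injective (fun s : ℤ × Fin (q * e) =>
      (((s.1, (finProdFinEquiv.symm s.2).2), (finProdFinEquiv.symm s.2).1) :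
        (ℤ × Fin e) × Fin q)) := by
    rintro ⟨k, s⟩ ⟨k', s'⟩ hs
    simp only [Prod.mk.injEq] at hs
    rw [Prod.mk.injEq]
    exact ⟨hs.1.1, finProdFinEquiv.symm.injective (Prod.ext hs.2 hs.1.2)⟩
  have h4 := hcore.comp _ hinj
  refine Eq.mp (congrArg (fun v => LinearIndependent (ZMod q) v)
    (_root_.funext fun s => ?_)) h4
  obtain ⟨k, s⟩ := s
  obtain ⟨i, hi⟩ : ∃ i : Fin q, i = (finProdFinEquiv.symm s).1 := ⟨_, rfl⟩
  obtain ⟨j, hj⟩ : ∃ j : Fin e, j = (finProdFinEquiv.symm s).2 := ⟨_, rfl⟩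
  apply LinearMap.ext
  intro f'
  have hg : c ^ (i : ℕ) * (h ^ k * n j * (h ^ k)⁻¹) * (c ^ (i : ℕ))⁻¹ ∈ K' ⊓ ν.ker :=
    hkey _ (hi2 _) _ (ht (k, j))
  have hw : h ^ k * c ^ (i : ℕ) * (h ^ k)⁻¹ * (c ^ (i : ℕ))⁻¹ ∈ K' ⊓ ν.ker := by
    rw [hmem]
    refine ⟨hd _ (hhK k) _ (hi2 i), ?_⟩
    rw [map_mul, map_mul, map_mul, map_inv, map_inv, map_pow, hcν]
    simp
  have h5 := stB_D_pow q (K' ⊓ ν.ker) c hL i f' ⟨_, ht (k, j)⟩ ⟨_, hg⟩ rfl
  have h6 := congrArg (fun L : (Additive (K' ⊓ ν.ker : Subgroup H) →+ ZMod q) →ₗ[ZMod q] ZMod q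
      => L f') (stB_evh_conj (k := ZMod q) (⟨_, hw⟩ : (K' ⊓ ν.ker : Subgroup H)) ⟨_, hg⟩)
  subst hi hj
  refine h5.trans (h6.symm.trans ?_)
  show f' _ = f' _
  congr 2
  apply Subtype.ext
  show (h ^ k * c ^ ((finProdFinEquiv.symm s).1 : ℕ) * (h ^ k)⁻¹ *
      (c ^ ((finProdFinEquiv.symm s).1 : ℕ))⁻¹) * (c ^ ((finProdFinEquiv.symm s).1 : ℕ) *
      (h ^ k * n (finProdFinEquiv.symm s).2 * (h ^ k)⁻¹) *
      (c ^ ((finProdFinEquiv.symm s).1 : ℕ))⁻¹) * (h ^ k * c ^ ((finProdFinEquiv.symm s).1 : ℕ) *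
      (h ^ k)⁻¹ * (c ^ ((finProdFinEquiv.symm s).1 : ℕ))⁻¹)⁻¹ =
    h ^ k * (c ^ ((finProdFinEquiv.symm s).1 : ℕ) * n (finProdFinEquiv.symm s).2 *
      (c ^ ((finProdFinEquiv.symm s).1 : ℕ))⁻¹) * (h ^ k)⁻¹
  group

theorem p_stB (hfac : B_fac) : B_stB := by
  intro q _ H _ ν K K' e hfree hle hnor hidx hnot ⟨h0, h0K, h0ν, h0gen, m, hy, hli⟩
  obtain ⟨c, hcP, hc'⟩ := SetLike.not_le_iff_exists.1 hnot
  rw [Subgroup.mem_inf, MonoidHom.mem_ker] at hcP
  obtain ⟨hcK, hcν⟩ := hcP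
  obtain ⟨ha, hb, hd⟩ := stB_quot q K K' hnor hidx c hcK hc'
  obtain ⟨i, hi⟩ := ha h0 h0K
  obtain ⟨h, hh⟩ : ∃ h : H, h = (c ^ i)⁻¹ * h0 := ⟨_, rfl⟩
  rw [← hh] at hi
  have hν : ν h = ν h0 := by
    rw [hh, map_mul, map_inv, map_pow, hcν]
    simp
  refine stB_main q H ν K K' e hfac hfree hle hnor hidx c hcK hcν hc' h hi (by rw [hν]; exact h0ν)
    (by rw [hν]; exact h0gen) m ?_
  have hp : ∀ k : ℤ, h ^ k * (h0 ^ k)⁻¹ ∈ K ⊓ ν.ker := by
    intro k
    rw [Subgroup.mem_inf, MonoidHom.mem_ker]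
    refine ⟨K.mul_mem (K.zpow_mem (hle hi) k) (K.inv_mem (K.zpow_mem h0K k)), ?_⟩
    rw [map_mul, map_inv, map_zpow, map_zpow, hν, mul_inv_cancel]
  have he : ∀ s : ℤ × Fin e, h ^ s.1 * m s.2 * (h ^ s.1)⁻¹ = (h ^ s.1 * (h0 ^ s.1)⁻¹) *
      (h0 ^ s.1 * m s.2 * (h0 ^ s.1)⁻¹) * (h ^ s.1 * (h0 ^ s.1)⁻¹)⁻¹ := by
    intro s
    group
  have hy' : ∀ s : ℤ × Fin e, h ^ s.1 * m s.2 * (h ^ s.1)⁻¹ ∈ K ⊓ ν.ker := by
    intro s
    rw [he]
    exact (K ⊓ ν.ker).mul_mem ((K ⊓ ν.ker).mul_mem (hp _) (hy s)) ((K ⊓ ν.ker).inv_mem (hp _))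
  refine ⟨hy', ?_⟩
  refine Eq.mp (congrArg (fun v => LinearIndependent (ZMod q) v)
    (_root_.funext fun s => ?_)) hli
  rw [← stB_evh_conj (⟨_, hp s.1⟩ : (K ⊓ ν.ker : Subgroup H))]
  congr 1
  apply Subtype.ext
  exact (he s).symm

end Pool.Agent.F8.CG
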