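import Pool.Agent.Lib.MP_305fdd_al.F8.BG.StmI
import Pool.Agent.Lib.MP_305fdd_al.F8.CG.P_fox
import Pool.Agent.Lib.MP_305fdd_al.F8.CG.P_shap
import Pool.Agent.Lib.MP_305fdd_al.F8.CG.P_grad
import Pool.Agent.Lib.MP_305fdd_al.F8.CG.P_mom
import Pool.Agent.Lib.MP_305fdd_al.F8.CG.P_bdd
import Pool.Agent.Lib.MP_305fdd_al.F8.CG.P_spec
import Pool.Agent.Lib.MP_305fdd_al.F8.CG.P_fixp
import Pool.Agent.Lib.MP_305fdd_al.F8.CG.P_b1
import Pool.Agent.Lib.MP_305fdd_al.F8.CG.P_e1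
import Pool.Agent.Lib.MP_305fdd_al.F8.CG.P_fac
import Pool.Agent.Lib.MP_305fdd_al.F8.CG.P_stA
import Pool.Agent.Lib.MP_305fdd_al.F8.CG.P_stB
import Pool.Agent.Lib.MP_305fdd_al.F8.CG.P_chn
import Pool.Agent.Lib.MP_305fdd_al.F8.CG.P_Q
import Pool.Agent.Lib.MP_305fdd_al.F8.CG.P_rk
import Pool.Agent.Lib.MP_305fdd_al.F8.CG.P_bK
import Pool.Agent.Lib.MP_305fdd_al.F8.CG.P_lin
import Pool.Agent.Lib.MP_305fdd_al.F8.CG.P_fre
import Pool.Agent.Lib.MP_305fdd_al.F8.CG.P_fg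

/-!
# MP_305fdd_al, congruence subgroups: assembly of the blocks B1, B2

`p_fi`: the finite index criterion `B_fi` (only the theorem `BG.S_inf` of the project BG is assumed).
-/

set_option autoImplicit false

namespace Pool.Agent.F8.CG

open Pool.Agent.F8.BG Pool.Agent.F8

theorem m_b1 : B_b1 := p_b1 p_fox p_shap p_grad p_mom p_bdd p_spec p_fixp

theorem m_chn : B_chn := p_chn p_stA (p_stB p_fac)

theorem m_lin : B_lin := p_lin p_e1 m_chn (p_bK p_Q p_rk)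

theorem m_fg : B_fg := p_fg m_b1 m_lin p_fre

theorem p_fi (hinf : BG.S_inf) : B_fi := by
  intro ι _ α N w hN hpos Γ₁ D hT H hH hHF hxy q _ C h1 h2 h3 hp
  obtain ⟨h4, h5⟩ := m_fg ι α Γ₁ D hT H hH hHF hxy q C h1 h2 h3
  exact hinf ι α N w hN hpos H h4 h5 hp

end Pool.Agent.F8.CG
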