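import Pool.Agent.Lib.MP_305fdd_al.F8.CG.StmE
import Pool.Agent.Lib.MP_305fdd_al.F8.E.Eds
import Pool.Agent.Lib.MP_305fdd_al.F8.E.Elg
import Pool.Agent.Lib.MP_305fdd_al.F8.E.Enm
import Pool.Agent.Lib.MP_305fdd_al.F8.E.Esb
import Pool.Agent.Lib.MP_305fdd_al.F8.E.Esc
import Pool.Agent.Lib.MP_305fdd_al.F8.E.Esq
import Pool.Agent.Lib.MP_305fdd_al.F8.E.Eun
import Pool.Agent.Lib.MP_305fdd_al.F8.E.Evl
import Pool.Agent.Lib.MP_305fdd_al.F8.D1.E.Base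
import Pool.Agent.Lib.MP_305fdd_al.F8.D7.E.Base

/-!
# MP_305fdd_al, congruence subgroups: piece `E_ar`
-/

set_option autoImplicit false

namespace Pool.Agent.F8.CG

open Pool.Agent.MP_305fdd_al Pool.Agent.Lib.MP_305fdd_al Pool.Agent.F2X Pool.Agent.F8
  Pool.Agent.F8.BG
open scoped QuadraticAlgebra

/-- Legendre's theorem over the Eisenstein integers -/
theorem Ear_leg3 (a b : O) (ha : a ≠ 0) (hb : b ≠ 0) (h : EG.LA a b) : EG.Sol a b := by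
  have hE : S_Elg := p_Elg (p_Esc p_Evl) (p_Esb p_Esq) p_Enm (p_Eds p_Evl) p_Eun
  exact hE a b ha hb (fun π hπ _ => h π hπ)

theorem p_Ear (hpid : BG.L_pid) (h2 : BG.L_leg2) (h11 : BG.L_leg11) : E_ar := by
  intro a b h
  rcases h with ⟨rfl, rfl⟩ | ⟨rfl, rfl⟩ | ⟨rfl, rfl⟩ | ⟨rfl, rfl⟩ | ⟨rfl, rfl⟩
  · exact ⟨(inferInstance : IsPrincipalIdealRing D1.O1), D1.PE.leg1⟩
  · exact ⟨hpid.1, h2⟩
  · exact ⟨(inferInstance : IsPrincipalIdealRing O), Ear_leg3⟩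
  · exact ⟨(inferInstance : IsPrincipalIdealRing D7.O7), D7.leg7⟩
  · exact ⟨hpid.2, h11⟩

end Pool.Agent.F8.CG
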