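import Pool.Agent.Lib.MP_305fdd_al.F8.CG.StmE

/-!
# MP_305fdd_al, congruence subgroups, block E: completions exist
-/

set_option autoImplicit false

namespace Pool.Agent.F8.CG

noncomputable section

variable {A : Type} [CommRing A]

/-- the compatible families -/
def Ecmp_R (π : A) : Subring (∀ k : ℕ, A ⧸ Ideal.span {π ^ k}) where
  carrier := {x | ∀ k, fcx (pow_dvd_pow π (Nat.le_succ k)) (x (k + 1)) = x k}
  mul_mem' := by
    intro x y hx hy k
    show fcx _ (x (k + 1) * y (k + 1)) = x k * y k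
    rw [map_mul, hx k, hy k]
  one_mem' := by
    intro k
    exact map_one _
  add_mem' := by
    intro x y hx hy k
    show fcx _ (x (k + 1) + y (k + 1)) = x k + y k
    rw [map_add, hx k, hy k]
  zero_mem' := by
    intro k
    exact map_zero _
  neg_mem' := by
    intro x hx k
    show fcx _ (- x (k + 1)) = - x k
    rw [map_neg, hx k]

/-- the projections -/
def Ecmp_pr (π : A) (k : ℕ) : Ecmp_R π →+* A ⧸ Ideal.span {π ^ k} :=
  (Pi.evalRingHom (fun k : ℕ => A ⧸ Ideal.span {π ^ k}) k).comp (Ecmp_R π).subtype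

/-- the diagonal -/
def Ecmp_c (π : A) : A →+* Ecmp_R π :=
  RingHom.codRestrict (RingHom.pi fun k => mkx (π ^ k)) (Ecmp_R π) (fun _ _ => rfl)

theorem Ecmp_mkc (π : A) (k : ℕ) (x : A) : Ecmp_pr π k (Ecmp_c π x) = mkx (π ^ k) x := rfl

theorem Ecmp_ext (π : A) {x y : Ecmp_R π} (h : ∀ k, Ecmp_pr π k x = Ecmp_pr π k y) : x = y :=
  Subtype.ext (funext h)

theorem Ecmp_mk0 {x a : A} : mkx x a = 0 ↔ x ∣ a := by
  rw [Ideal.Quotient.eq_zero_iff_mem, Ideal.mem_span_singleton]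

theorem Ecmp_mkeq {x a b : A} : mkx x a = mkx x b ↔ x ∣ a - b := by
  rw [← Ecmp_mk0, map_sub, sub_eq_zero]

theorem Ecmp_lift (π : A) (x : Ecmp_R π) : ∃ a : ℕ → A,
    (∀ k, Ecmp_pr π k x = mkx (π ^ k) (a k)) ∧ ∀ k n, π ^ k ∣ a (n + k) - a k := by
  have h : ∀ k, ∃ a : A, mkx (π ^ k) a = Ecmp_pr π k x := fun k => Ideal.Quotient.mk_surjective _
  choose a ha using h
  refine ⟨a, fun k => (ha k).symm, ?_⟩
  have h1 : ∀ k, π ^ k ∣ a (k + 1) - a k := by
    intro k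
    have h2 : fcx (pow_dvd_pow π (Nat.le_succ k)) (Ecmp_pr π (k + 1) x) = Ecmp_pr π k x := x.2 k
    rw [← ha, ← ha, fcx_mk] at h2
    exact Ecmp_mkeq.1 h2
  intro k n
  induction n with
  | zero => simp
  | succ n ih =>
    have h2 : a (n + 1 + k) - a k = (a (n + k + 1) - a (n + k)) + (a (n + k) - a k) := by
      rw [show n + 1 + k = n + k + 1 by ring]
      ring
    rw [h2]
    exact dvd_add ((pow_dvd_pow π (Nat.le_add_left k n)).trans (h1 (n + k))) ih

theorem Ecmp_mk (π : A) (b : ℕ → A) (h : ∀ k, π ^ k ∣ b (k + 1) - b k) :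
    ∃ y : Ecmp_R π, ∀ k, Ecmp_pr π k y = mkx (π ^ k) (b k) :=
  ⟨⟨fun k => mkx (π ^ k) (b k), fun k => by
    show fcx (pow_dvd_pow π (Nat.le_succ k)) (mkx (π ^ (k + 1)) (b (k + 1))) = mkx (π ^ k) (b k)
    rw [fcx_mk]
    exact Ecmp_mkeq.2 (h k)⟩, fun _ => rfl⟩

theorem Ecmp_ker [IsDomain A] {π : A} (hπ : π ≠ 0) (k : ℕ) (x : Ecmp_R π) :
    Ecmp_pr π k x = 0 ↔ Ecmp_c π π ^ k ∣ x := by
  constructor
  · intro h
    obtain ⟨a, ha, hd⟩ := Ecmp_lift π x
    rw [ha, Ecmp_mk0] at h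
    have h1 : ∀ n, ∃ b, a (n + k) = π ^ k * b := by
      intro n
      have := dvd_add (hd k n) h
      rw [sub_add_cancel] at this
      exact this
    choose b hb using h1
    have h2 : ∀ n, π ^ n ∣ b (n + 1) - b n := by
      intro n
      have h3 := hd (n + k) 1
      rw [show 1 + (n + k) = n + 1 + k by ring, hb, hb, ← mul_sub, pow_add, mul_comm (π ^ n)] at h3
      exact (mul_dvd_mul_iff_left (pow_ne_zero k hπ)).1 h3
    obtain ⟨y, hy⟩ := Ecmp_mk π b h2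
    refine ⟨y, Ecmp_ext π fun n => ?_⟩
    rw [map_mul, map_pow, Ecmp_mkc, hy, ha, ← map_pow, ← map_mul, ← hb, Ecmp_mkeq]
    have := hd n k
    rw [add_comm k n] at this
    rw [← neg_sub]
    exact (dvd_neg).2 this
  · rintro ⟨y, rfl⟩
    rw [map_mul, map_pow, Ecmp_mkc, ← map_pow, Ecmp_mk0.2 (dvd_refl _), zero_mul]

theorem Ecmp_unit [IsDomain A] [IsPrincipalIdealRing A] {π : A} (hπ : Prime π)
    (x : Ecmp_R π) (h : Ecmp_pr π 1 x ≠ 0) : IsUnit x := by
  obtain ⟨a, ha, hd⟩ := Ecmp_lift π x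
  rw [ha, Ne, Ecmp_mk0, pow_one] at h
  have h1 : ∀ k, ∃ v, π ^ k ∣ v * a k - 1 := by
    intro k
    rcases Nat.eq_zero_or_pos k with hk | hk
    · subst hk
      exact ⟨0, by rw [pow_zero]; exact one_dvd _⟩
    · have h2 : ¬ π ∣ a k := by
        intro h3
        have h4 := hd 1 (k - 1)
        rw [Nat.sub_add_cancel hk, pow_one] at h4
        apply h
        have := dvd_sub h3 h4
        rwa [sub_sub_cancel] at this
      have h3 : IsCoprime (π ^ k) (a k) :=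
        IsCoprime.pow_left ((hπ.irreducible.coprime_iff_not_dvd).2 h2)
      obtain ⟨u, v, huv⟩ := h3
      exact ⟨v, -u, by rw [← huv]; ring⟩
  choose v hv using h1
  have h2 : ∀ k, π ^ k ∣ v (k + 1) - v k := by
    intro k
    have e1 : π ^ k ∣ v (k + 1) * a (k + 1) - 1 :=
      (pow_dvd_pow π (Nat.le_succ k)).trans (hv (k + 1))
    have e2 := hd k 1
    rw [add_comm 1 k] at e2
    have e3 : v (k + 1) - v k = (v (k + 1) * a (k + 1) - 1) * v k - (v k * a k - 1) * v (k + 1)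
        - (a (k + 1) - a k) * (v (k + 1) * v k) := by ring
    rw [e3]
    exact dvd_sub (dvd_sub (e1.mul_right _) ((hv k).mul_right _)) (e2.mul_right _)
  obtain ⟨y, hy⟩ := Ecmp_mk π v h2
  refine IsUnit.of_mul_eq_one y (Ecmp_ext π fun k => ?_)
  rw [map_mul, map_one, ha, hy, ← map_mul, ← map_one (mkx (π ^ k)), Ecmp_mkeq, mul_comm]
  exact hv k

theorem Ecmp_val [IsDomain A] [IsPrincipalIdealRing A] {π : A} (hπ : Prime π)
    (x : Ecmp_R π) (h : x ≠ 0) : ∃ (u : (Ecmp_R π)ˣ) (n : ℕ), x = u.val * Ecmp_c π π ^ n := by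
  classical
  have h1 : ∃ k, Ecmp_pr π k x ≠ 0 := by
    by_contra h2
    push Not at h2
    exact h (Ecmp_ext π fun k => by rw [h2 k, map_zero])
  obtain ⟨N, hN, hmin⟩ : ∃ N, Ecmp_pr π N x ≠ 0 ∧ ∀ m < N, Ecmp_pr π m x = 0 :=
    ⟨Nat.find h1, Nat.find_spec h1, fun m hm => by
      have := Nat.find_min h1 hm
      rwa [not_not] at this⟩
  cases N with
  | zero =>
    exfalso
    apply hN
    obtain ⟨a, ha, -⟩ := Ecmp_lift π x
    rw [ha, Ecmp_mk0, pow_zero]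
    exact one_dvd _
  | succ n =>
    obtain ⟨y, hy⟩ := (Ecmp_ker hπ.ne_zero n x).1 (hmin n (Nat.lt_succ_self n))
    have h2 : Ecmp_pr π 1 y ≠ 0 := by
      intro h3
      rw [Ecmp_ker hπ.ne_zero, pow_one] at h3
      apply hN
      rw [Ecmp_ker hπ.ne_zero, pow_succ, hy]
      exact mul_dvd_mul_left _ h3
    obtain ⟨u, hu⟩ := Ecmp_unit hπ y h2
    exact ⟨u, n, by rw [hy, hu, mul_comm]⟩

theorem p_Ecmp : E_cmp := by
  intro A _ _ _ π hπ
  have hnt : (1 : Ecmp_R π) ≠ 0 := by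
    intro h
    have h1 : Ecmp_pr π 1 1 = 0 := by rw [h, map_zero]
    rw [map_one, ← map_one (mkx (π ^ 1)), Ecmp_mk0, pow_one] at h1
    exact hπ.not_isUnit (isUnit_of_dvd_one h1)
  refine ⟨Ecmp_R π, inferInstance, Ecmp_c π, Ecmp_pr π, ?_, ?_, Ecmp_val hπ, Ecmp_mkc π,
    Ecmp_ker hπ.ne_zero, Ecmp_unit hπ, ?_, ?_⟩
  · have : Nontrivial (Ecmp_R π) := ⟨1, 0, hnt⟩
    have : NoZeroDivisors (Ecmp_R π) := by
      refine ⟨fun {x y} hxy => ?_⟩
      by_contra hne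
      push Not at hne
      obtain ⟨u, n, hu⟩ := Ecmp_val hπ x hne.1
      obtain ⟨v, m, hv⟩ := Ecmp_val hπ y hne.2
      have h1 : Ecmp_c π π ^ (n + m) = 0 := by
        have h2 : (u * v).val * Ecmp_c π π ^ (n + m) = 0 := by
          rw [← hxy, hu, hv, Units.val_mul, pow_add]
          ring
        exact (Units.mul_right_eq_zero (u * v)).1 h2
      have h2 : Ecmp_pr π (n + m + 1) (Ecmp_c π π ^ (n + m)) = 0 := by rw [h1, map_zero]
      rw [map_pow, Ecmp_mkc, ← map_pow, Ecmp_mk0] at h2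
      exact hπ.not_isUnit (isUnit_of_dvd_one
        ((mul_dvd_mul_iff_left (pow_ne_zero (n + m) hπ.ne_zero)).1 (by
          rw [mul_one, ← pow_succ]
          exact h2)))
    exact NoZeroDivisors.to_isDomain _
  · intro x y hxy
    by_contra hne
    have h1 : ∀ k, π ^ k ∣ x - y := fun k => by
      rw [← Ecmp_mkeq, ← Ecmp_mkc, ← Ecmp_mkc, hxy]
    obtain ⟨n, hn⟩ := FiniteMultiplicity.of_prime_left hπ (sub_ne_zero.2 hne)
    exact hn (h1 (n + 1))
  · intro k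
    exact RingHom.ext fun x => x.2 k
  · intro x hx
    exact ⟨⟨x, hx⟩, fun _ => rfl, fun y hy => Subtype.ext (funext hy)⟩

end

end Pool.Agent.F8.CG
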