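import Pool.Agent.Lib.MP_305fdd_al.F8.CG.StmE

/-!
# MP_305fdd_al, congruence subgroups: Chinese remainders (piece Ecrt)

The matrices `C_x ∈ GL₂(A / x)` and `C_y ∈ GL₂(A / y)` are glued to a matrix over `A / (x y)` for coprime `x`, `y`; all equations are checked modulo `x` and modulo `y`.
-/

set_option autoImplicit false

namespace Pool.Agent.F8.CG

open Pool.Agent.MP_305fdd_al Pool.Agent.Lib.MP_305fdd_al Pool.Agent.F2X Pool.Agent.F8
  Pool.Agent.F8.BG

noncomputable section

section Crt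

variable {A : Type} [CommRing A]

/-- a residue class modulo `x y` is determined by the classes modulo `x` and `y` -/
private theorem Ecrt_inj {x y : A} (h : IsCoprime x y) (u v : A ⧸ Ideal.span {x * y})
    (h1 : fcx (Dvd.intro y rfl : x ∣ x * y) u = fcx (Dvd.intro y rfl : x ∣ x * y) v)
    (h2 : fcx (Dvd.intro_left x rfl : y ∣ x * y) u = fcx (Dvd.intro_left x rfl : y ∣ x * y) v) :
    u = v := by
  obtain ⟨a, rfl⟩ := Ideal.Quotient.mk_surjective u
  obtain ⟨b, rfl⟩ := Ideal.Quotient.mk_surjective v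
  have h1' : mkx x a = mkx x b := h1
  have h2' : mkx y a = mkx y b := h2
  rw [Ideal.Quotient.mk_eq_mk_iff_sub_mem, Ideal.mem_span_singleton] at h1' h2' ⊢
  exact h.mul_dvd h1' h2'

private theorem Ecrt_unit {x y : A} (h : IsCoprime x y) (d : A) (h1 : IsUnit (mkx x d))
    (h2 : IsUnit (mkx y d)) : IsUnit (mkx (x * y) d) := by
  obtain ⟨a, ha⟩ := h1.exists_right_inv
  obtain ⟨b, hb⟩ := h2.exists_right_inv
  obtain ⟨a, rfl⟩ := Ideal.Quotient.mk_surjective a
  obtain ⟨b, rfl⟩ := Ideal.Quotient.mk_surjective b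
  obtain ⟨r, s, hrs⟩ := h
  have ha' : mkx x (d * a) = mkx x 1 := by rw [map_mul, map_one]; exact ha
  have hb' : mkx y (d * b) = mkx y 1 := by rw [map_mul, map_one]; exact hb
  rw [Ideal.Quotient.mk_eq_mk_iff_sub_mem, Ideal.mem_span_singleton] at ha' hb'
  obtain ⟨e, he⟩ := ha'
  obtain ⟨f, hf⟩ := hb'
  refine IsUnit.of_mul_eq_one (mkx (x * y) (a * (s * y) + b * (r * x))) ?_
  rw [← map_mul, ← map_one (mkx (x * y)), Ideal.Quotient.mk_eq_mk_iff_sub_mem,
    Ideal.mem_span_singleton]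
  refine ⟨e * s + f * r, ?_⟩
  linear_combination (s * y) * he + (r * x) * hf + hrs

private theorem Ecrt_lift (x : A) (C : Matrix (Fin 2) (Fin 2) (A ⧸ Ideal.span {x})) :
    ∃ M : Matrix (Fin 2) (Fin 2) A, M.map (mkx x) = C := by
  choose f hf using fun i j => Ideal.Quotient.mk_surjective (C i j)
  exact ⟨Matrix.of f, by ext i j; exact hf i j⟩

private theorem Ecrt_glue {x y : A} (h : IsCoprime x y)
    (C : GL (Fin 2) (A ⧸ Ideal.span {x})) (D : GL (Fin 2) (A ⧸ Ideal.span {y})) :
    ∃ E : GL (Fin 2) (A ⧸ Ideal.span {x * y}),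
      E.val.map (fcx (Dvd.intro y rfl : x ∣ x * y)) = C.val ∧
      E.val.map (fcx (Dvd.intro_left x rfl : y ∣ x * y)) = D.val := by
  obtain ⟨M, hM⟩ := Ecrt_lift x C.val
  obtain ⟨N, hN⟩ := Ecrt_lift y D.val
  obtain ⟨r, s, hrs⟩ := id h
  have e1 : ((s * y) • M + (r * x) • N).map (mkx x) = C.val := by
    rw [← hM]
    ext i j
    simp only [Matrix.map_apply, Matrix.add_apply, Matrix.smul_apply, smul_eq_mul]
    rw [Ideal.Quotient.mk_eq_mk_iff_sub_mem, Ideal.mem_span_singleton]
    refine ⟨r * N i j - r * M i j, ?_⟩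
    linear_combination (M i j) * hrs
  have e2 : ((s * y) • M + (r * x) • N).map (mkx y) = D.val := by
    rw [← hN]
    ext i j
    simp only [Matrix.map_apply, Matrix.add_apply, Matrix.smul_apply, smul_eq_mul]
    rw [Ideal.Quotient.mk_eq_mk_iff_sub_mem, Ideal.mem_span_singleton]
    refine ⟨s * M i j - s * N i j, ?_⟩
    linear_combination (N i j) * hrs
  have hdet : IsUnit (((s * y) • M + (r * x) • N).map (mkx (x * y))).det := by
    have h0 : (((s * y) • M + (r * x) • N).map (mkx (x * y))).det =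
        mkx (x * y) ((s * y) • M + (r * x) • N).det := (RingHom.map_det _ _).symm
    rw [h0]
    apply Ecrt_unit h
    · have h1 : mkx x ((s * y) • M + (r * x) • N).det =
          (((s * y) • M + (r * x) • N).map (mkx x)).det := RingHom.map_det _ _
      rw [h1, e1]
      exact (Matrix.isUnit_iff_isUnit_det _).1 C.isUnit
    · have h1 : mkx y ((s * y) • M + (r * x) • N).det =
          (((s * y) • M + (r * x) • N).map (mkx y)).det := RingHom.map_det _ _
      rw [h1, e2]
      exact (Matrix.isUnit_iff_isUnit_det _).1 D.isUnit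
  obtain ⟨E, hE⟩ := (Matrix.isUnit_iff_isUnit_det _).2 hdet
  refine ⟨E, ?_, ?_⟩
  · rw [hE, ← e1]
    ext i j
    rfl
  · rw [hE, ← e2]
    ext i j
    rfl

end Crt

/-- [CG Ecrt] Chinese remainders. -/
theorem p_Ecrt : E_crt := by
  intro A Λ _ _ _ _ σ hσ ρ hρ x
  refine UniqueFactorizationMonoid.induction_on_coprime
    (P := fun x => x ≠ 0 → LCj σ ρ x) x ?_ ?_ ?_ ?_
  · intro h
    exact absurd rfl h
  · intro x hx _
    have hs : Subsingleton (A ⧸ Ideal.span {x}) := by
      rw [Ideal.Quotient.subsingleton_iff, Ideal.span_singleton_eq_top]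
      exact hx
    refine ⟨1, fun l => ?_⟩
    ext i j
    exact Subsingleton.elim _ _
  · intro p i hp _
    exact hρ p i hp
  · intro x y hxy h1 h2 h0
    have hx : x ≠ 0 := left_ne_zero_of_mul h0
    have hy : y ≠ 0 := right_ne_zero_of_mul h0
    have hc : IsCoprime x y := hxy.isCoprime
    obtain ⟨C, hC⟩ := h1 hx
    obtain ⟨D, hD⟩ := h2 hy
    obtain ⟨E, hE1, hE2⟩ := Ecrt_glue hc C D
    refine ⟨E, fun l => ?_⟩
    have s1 : (σ (x * y) l).val.map (fcx (Dvd.intro y rfl : x ∣ x * y)) = (σ x l).val := by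
      rw [← hσ x (x * y) (Dvd.intro y rfl) h0]
      rfl
    have s2 : (σ (x * y) l).val.map (fcx (Dvd.intro_left x rfl : y ∣ x * y)) =
        (σ y l).val := by
      rw [← hσ y (x * y) (Dvd.intro_left x rfl) h0]
      rfl
    have r1 : (SLm (mkx (x * y)) (ρ l)).val.map (fcx (Dvd.intro y rfl : x ∣ x * y)) =
        (SLm (mkx x) (ρ l)).val := by
      ext i j
      rfl
    have r2 : (SLm (mkx (x * y)) (ρ l)).val.map (fcx (Dvd.intro_left x rfl : y ∣ x * y)) =
        (SLm (mkx y) (ρ l)).val := by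
      ext i j
      rfl
    have k1 : ((SLm (mkx (x * y)) (ρ l)).val * E.val).map
        (fcx (Dvd.intro y rfl : x ∣ x * y)) =
        (E.val * (σ (x * y) l).val).map (fcx (Dvd.intro y rfl : x ∣ x * y)) := by
      rw [Matrix.map_mul, Matrix.map_mul, r1, s1, hE1]
      exact hC l
    have k2 : ((SLm (mkx (x * y)) (ρ l)).val * E.val).map
        (fcx (Dvd.intro_left x rfl : y ∣ x * y)) =
        (E.val * (σ (x * y) l).val).map (fcx (Dvd.intro_left x rfl : y ∣ x * y)) := by
      rw [Matrix.map_mul, Matrix.map_mul, r2, s2, hE2]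
      exact hD l
    ext i j
    exact Ecrt_inj hc _ _ (congrFun (congrFun k1 i) j) (congrFun (congrFun k2 i) j)

end

end Pool.Agent.F8.CG
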