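import Pool.Agent.Lib.MP_305fdd_al.F8.CG.StmE

/-!
# [CG E_good] the primes where the representation is irreducible
-/

set_option autoImplicit false

namespace Pool.Agent.F8.CG

open Pool.Agent.MP_305fdd_al Pool.Agent.Lib.MP_305fdd_al Pool.Agent.F2X Pool.Agent.F8

/-! ### Limits -/

theorem Egood_inj {R : Type} [CommRing R] {Rk : ℕ → Type} [∀ k, CommRing (Rk k)]
    {π : ∀ k, R →+* Rk k} {p : ∀ k, Rk (k + 1) →+* Rk k} (h : IsLim R Rk π p) {y z : R}
    (hyz : ∀ k, π k y = π k z) : y = z := by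
  obtain ⟨w, -, hw⟩ := h.2 (fun k => π k z) (fun k => by
    have := congrArg (fun f : R →+* Rk k => f z) (h.1 k)
    simpa using this)
  rw [hw y hyz, hw z (fun k => rfl)]

theorem Egood_SLinj {R : Type} [CommRing R] {Rk : ℕ → Type} [∀ k, CommRing (Rk k)]
    {π : ∀ k, R →+* Rk k} {p : ∀ k, Rk (k + 1) →+* Rk k} (h : IsLim R Rk π p) {y z : SL2 R}
    (hyz : ∀ k, SLm (π k) y = SLm (π k) z) : y = z := by
  apply Subtype.ext
  ext i j
  apply Egood_inj h
  intro k
  exact congrArg (fun q : SL2 (Rk k) => q.val i j) (hyz k)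

theorem Egood_SLex {R : Type} [CommRing R] {Rk : ℕ → Type} [∀ k, CommRing (Rk k)]
    {π : ∀ k, R →+* Rk k} {p : ∀ k, Rk (k + 1) →+* Rk k} (h : IsLim R Rk π p)
    (x : ∀ k, SL2 (Rk k)) (hx : ∀ k, SLm (p k) (x (k + 1)) = x k) :
    ∃ y : SL2 R, ∀ k, SLm (π k) y = x k := by
  have hM : ∀ i j, ∃ m : R, ∀ k, π k m = (x k).val i j := fun i j => by
    obtain ⟨m, hm, -⟩ := h.2 (fun k => (x k).val i j)
      (fun k => congrArg (fun q : SL2 (Rk k) => q.val i j) (hx k))
    exact ⟨m, hm⟩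
  choose M hM using hM
  have hd : (Matrix.of M).det = 1 := Egood_inj h fun k => by
    have hk := (x k).property
    rw [Matrix.det_fin_two] at hk
    rw [Matrix.det_fin_two]
    simp only [Matrix.of_apply, map_sub, map_mul, hM, map_one]
    exact hk
  refine ⟨⟨Matrix.of M, hd⟩, fun k => ?_⟩
  apply Subtype.ext
  ext i j
  exact hM i j k

/-- limits of representations -/
theorem Egood_lim {R : Type} [CommRing R] {Rk : ℕ → Type} [∀ k, CommRing (Rk k)]
    {π : ∀ k, R →+* Rk k} {p : ∀ k, Rk (k + 1) →+* Rk k} (h : IsLim R Rk π p)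
    {Λ : Type} [Group Λ] (Θ : ∀ k, Λ →* SL2 (Rk k))
    (hΘ : ∀ k, (SLm (p k)).comp (Θ (k + 1)) = Θ k) :
    ∃ s : Λ →* SL2 R, ∀ k, (SLm (π k)).comp s = Θ k := by
  have hex : ∀ l : Λ, ∃ y : SL2 R, ∀ k, SLm (π k) y = Θ k l := fun l =>
    Egood_SLex h (fun k => Θ k l) (fun k => DFunLike.congr_fun (hΘ k) l)
  choose f hf using hex
  refine ⟨MonoidHom.mk' f ?_, fun k => ?_⟩
  · intro a b
    apply Egood_SLinj h
    intro k
    rw [hf, map_mul, map_mul, hf, hf]
  · apply MonoidHom.ext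
    intro l
    exact hf l k

/-! ### Two by two matrices over a domain -/

/-- `tr [X, Y] - 2 = -det (X Y - Y X)` -/
theorem Egood_det {k : Type} [CommRing k] (X Y : SL2 k) :
    tr (X * Y * X⁻¹ * Y⁻¹) = 2 - (X.val * Y.val - Y.val * X.val).det := by
  have hX := X.property
  have hY := Y.property
  rw [Matrix.det_fin_two] at hX hY
  rw [tr_eq, Matrix.det_fin_two]
  simp only [Matrix.SpecialLinearGroup.coe_mul, Matrix.SpecialLinearGroup.coe_inv,
    Matrix.adjugate_fin_two, Matrix.mul_apply, Fin.sum_univ_two, Matrix.sub_apply, Matrix.of_apply,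
    Matrix.cons_val', Matrix.cons_val_zero, Matrix.cons_val_one, Matrix.cons_val_fin_one]
  linear_combination 2 * (Y.val 0 0 * Y.val 1 1 - Y.val 0 1 * Y.val 1 0) * hX + 2 * hY

/-- a common invariant line -/
theorem Egood_line {k : Type} [CommRing k] [IsDomain k] (X Y : SL2 k)
    (C : Matrix (Fin 2) (Fin 2) k) (hC0 : C ≠ 0) (hdet : C.det = 0)
    (hX : ∃ D, D * C = C * X.val) (hY : ∃ D, D * C = C * Y.val) :
    tr (X * Y * X⁻¹ * Y⁻¹) = 2 := by
  obtain ⟨v, hv0, hv⟩ := Matrix.exists_mulVec_eq_zero_iff.2 hdet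
  -- a nonzero row
  obtain ⟨i, j, hij⟩ : ∃ i j, C i j ≠ 0 := by
    by_contra hcon
    push Not at hcon
    apply hC0
    ext i j
    exact hcon i j
  -- the kernel is a line
  have hker : ∀ w : Fin 2 → k, C.mulVec w = 0 → v 0 * w 1 = v 1 * w 0 := by
    intro w hw
    have h1 := congrFun hv i
    have h2 := congrFun hw i
    simp only [Matrix.mulVec, dotProduct, Fin.sum_univ_two, Pi.zero_apply] at h1 h2
    have h3 : C i 0 * (v 0 * w 1 - v 1 * w 0) = 0 := by
      linear_combination w 1 * h1 - v 1 * h2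
    have h4 : C i 1 * (v 0 * w 1 - v 1 * w 0) = 0 := by
      linear_combination v 0 * h2 - w 0 * h1
    have h5 : C i j * (v 0 * w 1 - v 1 * w 0) = 0 := by
      fin_cases j
      · exact h3
      · exact h4
    rcases mul_eq_zero.1 h5 with h6 | h6
    · exact absurd h6 hij
    · exact sub_eq_zero.1 h6
  have hinv : ∀ Z : SL2 k, (∃ D, D * C = C * Z.val) → C.mulVec (Z.val.mulVec v) = 0 := by
    rintro Z ⟨D, hD⟩
    rw [Matrix.mulVec_mulVec, ← hD, ← Matrix.mulVec_mulVec, hv, Matrix.mulVec_zero]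
  -- an index
  obtain ⟨n, hn⟩ : ∃ n, v n ≠ 0 := by
    by_contra hcon
    push Not at hcon
    apply hv0
    ext n
    exact hcon n
  have hmul : ∀ Z : SL2 k, (∃ D, D * C = C * Z.val) →
      v n • Z.val.mulVec v = (Z.val.mulVec v) n • v := by
    intro Z hZ
    have h1 := hker _ (hinv Z hZ)
    ext m
    simp only [Pi.smul_apply, smul_eq_mul]
    fin_cases n <;> fin_cases m <;> simp only [Fin.zero_eta, Fin.mk_one, Fin.isValue]
    · ring
    · linear_combination h1
    · linear_combination -h1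
    · ring
  have hX1 := hmul X hX
  have hY1 := hmul Y hY
  rw [Egood_det]
  have h0 : (X.val * Y.val - Y.val * X.val).det = 0 := by
    apply Matrix.exists_mulVec_eq_zero_iff.1
    refine ⟨v, hv0, ?_⟩
    have key : ∀ (P Q : Matrix (Fin 2) (Fin 2) k) (x y : k), v n • P.mulVec v = x • v →
        v n • Q.mulVec v = y • v → (v n * v n) • P.mulVec (Q.mulVec v) = (y * x) • v := by
      intro P Q x y hP hQ
      rw [mul_smul, ← Matrix.mulVec_smul, hQ, Matrix.mulVec_smul, smul_comm, hP, smul_smul]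
    have e1 : (v n * v n) • (X.val * Y.val - Y.val * X.val).mulVec v = 0 := by
      rw [Matrix.sub_mulVec, smul_sub, ← Matrix.mulVec_mulVec, ← Matrix.mulVec_mulVec,
        key _ _ _ _ hX1 hY1, key _ _ _ _ hY1 hX1, mul_comm, sub_self]
    rcases smul_eq_zero.1 e1 with h | h
    · exact absurd h (mul_ne_zero hn hn)
    · exact h
  rw [h0, sub_zero]

/-! ### The proof -/

/-- [CG E_good] the primes where the representation is irreducible. -/
theorem p_Egood (hint : E_int) (hcmp : E_cmp) : E_good := by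
  intro A Λ _ _ _ _ σ hσ ρ htr π hπ g h hgh k
  obtain ⟨R, _, c, pr, hC⟩ := hcmp A π hπ
  have hdom : IsDomain R := hC.dom
  have hπ0 : π ≠ 0 := hπ.ne_zero
  have hc : c π ≠ 0 := by
    intro h0
    apply hπ0
    apply hC.inj
    rw [h0, map_zero]
  -- the limit
  obtain ⟨s, hs⟩ := Egood_lim hC.lim (fun k => σ (π ^ k))
    (fun k => hσ _ _ (pow_dvd_pow π (Nat.le_succ k)) (pow_ne_zero _ hπ0))
  have hs' : ∀ (k : ℕ) (l : Λ), SLm (pr k) (s l) = σ (π ^ k) l := fun k l =>
    DFunLike.congr_fun (hs k) l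
  have hcρ : ∀ (k : ℕ) (l : Λ), SLm (pr k) (SLm c (ρ l)) = SLm (mkx (π ^ k)) (ρ l) := by
    intro k l
    apply Subtype.ext
    ext i j
    exact hC.mkc k _
  have hts : ∀ l, tr (s l) = tr (((SLm c).comp ρ) l) := by
    intro l
    apply Egood_inj hC.lim
    intro k
    have e1 : pr k (tr (s l)) = tr (σ (π ^ k) l) := by rw [← hs' k l, tr_map]
    have e2 : pr k (tr (((SLm c).comp ρ) l)) = mkx (π ^ k) (tr (ρ l)) := by
      rw [← tr_map, ← tr_map]
      exact congrArg tr (hcρ k l)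
    rw [e1, e2]
    exact htr (π ^ k) (pow_ne_zero _ hπ0) l
  have hirr : Irr ((SLm c).comp ρ) := by
    refine ⟨g, h, ?_⟩
    intro h0
    apply hgh
    have e1 : tr (((SLm c).comp ρ) (g * h * g⁻¹ * h⁻¹)) = c (tr (ρ (g * h * g⁻¹ * h⁻¹))) :=
      tr_map c _
    rw [e1] at h0
    have e2 : tr (ρ (g * h * g⁻¹ * h⁻¹)) = 2 := by
      apply hC.inj
      rw [h0, map_ofNat]
    rw [e2, sub_self]
    exact dvd_zero π
  obtain ⟨C, hC0, hCs⟩ := hint R Λ s ((SLm c).comp ρ) hts hirr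
  -- divide by the greatest power
  obtain ⟨n, ⟨C', hC'⟩, hn⟩ : ∃ n : ℕ, (∃ C' : Matrix (Fin 2) (Fin 2) R, C = (c π ^ n) • C') ∧
      ¬ ∃ C' : Matrix (Fin 2) (Fin 2) R, C = (c π ^ (n + 1)) • C' := by
    by_contra hcon
    push Not at hcon
    have hall : ∀ n : ℕ, ∃ C' : Matrix (Fin 2) (Fin 2) R, C = (c π ^ n) • C' := by
      intro n
      induction n with
      | zero => exact ⟨C, by rw [pow_zero, one_smul]⟩
      | succ n ih => exact hcon n ih
    apply hC0
    apply Egood_inj hC.lim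
    intro k
    rw [map_zero, hC.ker]
    obtain ⟨C', hC'⟩ := hall k
    rw [hC', Matrix.det_smul, Fintype.card_fin]
    exact Dvd.dvd.mul_right (dvd_pow_self _ two_ne_zero) _
  have hC's : ∀ l, (s l).val * C' = C' * (SLm c (ρ l)).val := by
    intro l
    have e1 := hCs l
    rw [hC', Matrix.mul_smul, Matrix.smul_mul] at e1
    exact smul_right_injective _ (pow_ne_zero n hc) e1
  have hent : ∃ i j, pr 1 (C' i j) ≠ 0 := by
    by_contra hcon
    push Not at hcon
    apply hn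
    have h1 : ∀ i j, ∃ y, C' i j = c π * y := by
      intro i j
      have h2 := (hC.ker 1 _).1 (hcon i j)
      rw [pow_one] at h2
      exact h2
    choose D hD using h1
    refine ⟨Matrix.of D, ?_⟩
    rw [hC', pow_succ, mul_smul]
    congr 1
    ext i j
    exact hD i j
  -- the reduction
  have hprime : (Ideal.span {π ^ 1}).IsPrime := by
    rw [pow_one]
    exact (Ideal.span_singleton_prime hπ0).2 hπ
  have hdom1 : IsDomain (A ⧸ Ideal.span {π ^ 1}) := Ideal.Quotient.isDomain _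
  have hdet1 : pr 1 C'.det ≠ 0 := by
    intro h0
    have e1 : (C'.map (pr 1)).det = 0 := by
      have e2 : (C'.map (pr 1)).det = pr 1 C'.det := ((pr 1).map_det C').symm
      rw [e2, h0]
    have e3 : C'.map (pr 1) ≠ 0 := by
      intro h1
      obtain ⟨i, j, hij⟩ := hent
      exact hij (congrFun (congrFun h1 i) j)
    have e4 : ∀ l, ∃ D, D * C'.map (pr 1) = C'.map (pr 1) * (SLm (mkx (π ^ 1)) (ρ l)).val := by
      intro l
      refine ⟨(s l).val.map (pr 1), ?_⟩
      rw [← hcρ 1 l]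
      have e5 := congrArg (fun M : Matrix (Fin 2) (Fin 2) R => M.map (pr 1)) (hC's l)
      simp only [Matrix.map_mul] at e5
      exact e5
    have e6 := Egood_line (SLm (mkx (π ^ 1)) (ρ g)) (SLm (mkx (π ^ 1)) (ρ h)) _ e3 e1 (e4 g) (e4 h)
    rw [← map_inv, ← map_inv, ← map_mul, ← map_mul, ← map_mul, ← map_inv, ← map_inv, ← map_mul,
      ← map_mul, ← map_mul, tr_map] at e6
    apply hgh
    have e7 : mkx (π ^ 1) (tr (ρ (g * h * g⁻¹ * h⁻¹)) - 2) = 0 := by
      rw [map_sub, e6, map_ofNat, sub_self]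
    rw [Ideal.Quotient.eq_zero_iff_mem, Ideal.mem_span_singleton, pow_one] at e7
    exact e7
  have hunit : IsUnit C'.det := hC.unit _ hdet1
  -- the inverse
  have hCC : C' * C'⁻¹ = 1 := Matrix.mul_nonsing_inv _ hunit
  have hCC' : C'⁻¹ * C' = 1 := Matrix.nonsing_inv_mul _ hunit
  refine ⟨⟨C'⁻¹.map (pr k), C'.map (pr k), ?_, ?_⟩, fun l => ?_⟩
  · rw [← Matrix.map_mul, hCC', Matrix.map_one _ (map_zero _) (map_one _)]
  · rw [← Matrix.map_mul, hCC, Matrix.map_one _ (map_zero _) (map_one _)]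
  · show (SLm (mkx (π ^ k)) (ρ l)).val * C'⁻¹.map (pr k) = C'⁻¹.map (pr k) * (σ (π ^ k) l).val
    rw [← hcρ k l, ← hs' k l]
    have e1 : (SLm c (ρ l)).val * C'⁻¹ = C'⁻¹ * (s l).val := by
      calc (SLm c (ρ l)).val * C'⁻¹ = C'⁻¹ * (C' * (SLm c (ρ l)).val) * C'⁻¹ := by
            rw [← Matrix.mul_assoc, hCC', Matrix.one_mul]
        _ = C'⁻¹ * ((s l).val * C') * C'⁻¹ := by rw [hC's l]
        _ = C'⁻¹ * (s l).val := by
            rw [Matrix.mul_assoc, Matrix.mul_assoc, hCC, Matrix.mul_one]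
    have e5 := congrArg (fun M : Matrix (Fin 2) (Fin 2) R => M.map (pr k)) e1
    simp only [Matrix.map_mul] at e5
    exact e5

end Pool.Agent.F8.CG
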