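import Pool.Agent.Lib.MP_305fdd_al.F8.CG.StmE

/-!
# MP_305fdd_al, congruence subgroups: [CG E_her] the Hermite form
-/

set_option autoImplicit false

namespace Pool.Agent.F8.CG

open Pool.Agent.MP_305fdd_al Pool.Agent.Lib.MP_305fdd_al Pool.Agent.F2X Pool.Agent.F8
  Pool.Agent.F8.BG

/-- The first column. -/
private theorem Eher_col {A : Type} [CommRing A] {π : A} {R : Type} [CommRing R] {c : A →+* R}
    {pr : ∀ k : ℕ, R →+* A ⧸ Ideal.span {π ^ k}} (hC : Cmpl π c pr) (x y : R)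
    (h : x ≠ 0 ∨ y ≠ 0) :
    ∃ (V : Matrix (Fin 2) (Fin 2) R) (a : ℕ), IsUnit V.det ∧
      V 0 0 * x + V 0 1 * y = c π ^ a ∧ V 1 0 * x + V 1 1 * y = 0 := by
  -- if `y = z * x`
  have h1 : ∀ x y : R, x ≠ 0 → (∃ z, y = z * x) →
      ∃ (v00 v10 : R) (a : ℕ), IsUnit v00 ∧ v00 * x = c π ^ a ∧ v10 * x + y = 0 := by
    rintro x y hx ⟨z, rfl⟩
    obtain ⟨u, a, hu⟩ := hC.val x hx
    refine ⟨(u⁻¹ : Rˣ), -z, a, Units.isUnit _, ?_, by ring⟩
    rw [hu, ← mul_assoc, Units.inv_mul, one_mul]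
  -- one of them divides the other one
  have h2 : (x ≠ 0 ∧ ∃ z, y = z * x) ∨ (y ≠ 0 ∧ ∃ z, x = z * y) := by
    by_cases hx : x = 0
    · right
      exact ⟨h.resolve_left (fun h => h hx), 0, by rw [hx, zero_mul]⟩
    by_cases hy : y = 0
    · left
      exact ⟨hx, 0, by rw [hy, zero_mul]⟩
    obtain ⟨u, a, hu⟩ := hC.val x hx
    obtain ⟨w, b, hw⟩ := hC.val y hy
    rcases le_total a b with hab | hab
    · left
      refine ⟨hx, w.val * (u⁻¹ : Rˣ) * c π ^ (b - a), ?_⟩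
      have h3 : c π ^ b = c π ^ (b - a) * c π ^ a := by rw [← pow_add, Nat.sub_add_cancel hab]
      calc y = w.val * (c π ^ (b - a) * c π ^ a) := by rw [hw, h3]
        _ = w.val * ((u⁻¹ : Rˣ) * u.val) * (c π ^ (b - a) * c π ^ a) := by
            rw [Units.inv_mul, mul_one]
        _ = w.val * (u⁻¹ : Rˣ) * c π ^ (b - a) * x := by rw [hu]; ring
    · right
      refine ⟨hy, u.val * (w⁻¹ : Rˣ) * c π ^ (a - b), ?_⟩
      have h3 : c π ^ a = c π ^ (a - b) * c π ^ b := by rw [← pow_add, Nat.sub_add_cancel hab]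
      calc x = u.val * (c π ^ (a - b) * c π ^ b) := by rw [hu, h3]
        _ = u.val * ((w⁻¹ : Rˣ) * w.val) * (c π ^ (a - b) * c π ^ b) := by
            rw [Units.inv_mul, mul_one]
        _ = u.val * (w⁻¹ : Rˣ) * c π ^ (a - b) * y := by rw [hw]; ring
  rcases h2 with ⟨hx, hz⟩ | ⟨hy, hz⟩
  · obtain ⟨v, v', a, hv, e1, e2⟩ := h1 x y hx hz
    refine ⟨!![v, 0; v', 1], a, ?_, ?_, ?_⟩
    · rw [Matrix.det_fin_two_of]
      simpa using hv
    · simpa using e1
    · simpa using e2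
  · obtain ⟨v, v', a, hv, e1, e2⟩ := h1 y x hy hz
    refine ⟨!![0, v; 1, v'], a, ?_, ?_, ?_⟩
    · rw [Matrix.det_fin_two_of]
      simpa using hv
    · simpa using e1
    · have : x + v' * y = 0 := by rw [add_comm]; exact e2
      simpa using this

theorem p_Eher : E_her := by
  intro A _ π R _ c pr hC C hdet
  have := hC.dom
  have hcol : C 0 0 ≠ 0 ∨ C 1 0 ≠ 0 := by
    by_contra hcon
    push Not at hcon
    apply hdet
    rw [Matrix.det_fin_two, hcon.1, hcon.2]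
    ring
  obtain ⟨V, a, hV, h0, h1⟩ := Eher_col hC (C 0 0) (C 1 0) hcol
  obtain ⟨s, hs⟩ : ∃ s, s = V 0 0 * C 0 1 + V 0 1 * C 1 1 := ⟨_, rfl⟩
  obtain ⟨t, ht⟩ : ∃ t, t = V 1 0 * C 0 1 + V 1 1 * C 1 1 := ⟨_, rfl⟩
  have hVC : V * C = !![c π ^ a, s; 0, t] := by
    ext i j
    fin_cases i <;> fin_cases j <;>
      simp [Matrix.mul_apply, Fin.sum_univ_two, h0, h1, hs, ht]
  have ht0 : t ≠ 0 := by
    intro h
    have h2 := congrArg Matrix.det hVC
    rw [Matrix.det_mul, Matrix.det_fin_two_of, h, mul_zero, mul_zero, sub_zero] at h2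
    rcases mul_eq_zero.1 h2 with h3 | h3
    · rw [h3] at hV
      exact not_isUnit_zero hV
    · exact hdet h3
  obtain ⟨u, b, hub⟩ := hC.val t ht0
  obtain ⟨s', hs'⟩ := Ideal.Quotient.mk_surjective (pr b s)
  have hk : pr b (s - c s') = 0 := by
    rw [map_sub, hC.mkc, ← hs', sub_self]
  obtain ⟨z, hz⟩ := (hC.ker b _).1 hk
  obtain ⟨D, hD⟩ : ∃ D : Matrix (Fin 2) (Fin 2) R,
    D = !![1, -z * (u⁻¹ : Rˣ); 0, (u⁻¹ : Rˣ)] := ⟨_, rfl⟩
  have hDdet : IsUnit D.det := by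
    rw [hD, Matrix.det_fin_two_of]
    simp
  have hW : IsUnit (D * V).det := by
    rw [Matrix.det_mul]
    exact hDdet.mul hV
  refine ⟨(Matrix.nonsingInvUnit (D * V) hW)⁻¹, !![π ^ a, s'; 0, π ^ b], a + b, ?_, ?_⟩
  · rw [Matrix.det_fin_two_of, mul_zero, sub_zero, pow_add]
  · have hut : (u⁻¹ : Rˣ) * t = c π ^ b := by
      rw [hub, ← mul_assoc, Units.inv_mul, one_mul]
    have hg : D * V * C = (!![π ^ a, s'; 0, π ^ b] : Matrix (Fin 2) (Fin 2) A).map c := by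
      rw [Matrix.mul_assoc, hVC, hD]
      ext i j
      fin_cases i <;> fin_cases j
      · simp [Matrix.mul_apply, Fin.sum_univ_two]
      · have h3 : s + -(z * (u⁻¹ : Rˣ) * t) = c s' := by
          rw [mul_assoc, hut]
          linear_combination hz
        simpa [Matrix.mul_apply, Fin.sum_univ_two] using h3
      · simp [Matrix.mul_apply, Fin.sum_univ_two]
      · simpa [Matrix.mul_apply, Fin.sum_univ_two] using hut
    rw [← hg]
    have h4 : ((Matrix.nonsingInvUnit (D * V) hW)⁻¹).val * (D * V) = 1 :=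
      Units.inv_mul (Matrix.nonsingInvUnit (D * V) hW)
    rw [← Matrix.mul_assoc, h4, Matrix.one_mul]

end Pool.Agent.F8.CG
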