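import Pool.Agent.Lib.MP_305fdd_al.F8.CG.StmE
import Pool.Agent.Lib.MP_305fdd_al.F8.P.bn

/-!
# MP_305fdd_al, congruence subgroups: intertwining matrices
-/

set_option autoImplicit false

namespace Pool.Agent.F8.CG

open Pool.Agent.MP_305fdd_al Pool.Agent.Lib.MP_305fdd_al Pool.Agent.F2X Pool.Agent.F8
  Pool.Agent.F8.BG
open scoped QuadraticAlgebra

theorem p_Eint : E_int := by
  intro R Λ _ _ _ σ ρ htr hirr
  have hinj : Function.Injective (algebraMap R (FractionRing R)) :=
    IsFractionRing.injective R (FractionRing R)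
  have hIrr : Irr ((SLm (algebraMap R (FractionRing R))).comp σ) := by
    obtain ⟨g, h, hgh⟩ := hirr
    refine ⟨g, h, ?_⟩
    intro hc
    apply hgh
    rw [← htr]
    apply hinj
    rw [map_ofNat, ← hc]
    exact (tr_map (algebraMap R (FractionRing R)) (σ (g * h * g⁻¹ * h⁻¹))).symm
  obtain ⟨X, hX⟩ := Pool.Agent.F8.H.p_bn Λ (FractionRing R)
    ((SLm (algebraMap R (FractionRing R))).comp ρ)
    ((SLm (algebraMap R (FractionRing R))).comp σ)
    (fun l => by
      have h1 : tr (SLm (algebraMap R (FractionRing R)) (ρ l)) =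
          algebraMap R (FractionRing R) (tr (ρ l)) := tr_map _ _
      have h2 : tr (SLm (algebraMap R (FractionRing R)) (σ l)) =
          algebraMap R (FractionRing R) (tr (σ l)) := tr_map _ _
      rw [MonoidHom.comp_apply, MonoidHom.comp_apply, h1, h2, htr]) hIrr
  obtain ⟨b, hb⟩ := IsLocalization.exist_integer_multiples_of_finite (nonZeroDivisors R)
    (fun p : Fin 2 × Fin 2 => X.val p.1 p.2)
  choose c hc using hb
  have hbne : algebraMap R (FractionRing R) (b : R) ≠ 0 := by
    intro h0
    have h1 : (b : R) = 0 := hinj (by rw [h0, map_zero])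
    exact nonZeroDivisors.ne_zero b.2 h1
  have hCX : (Matrix.of (fun i j => c (i, j)) : Matrix (Fin 2) (Fin 2) R).map
      (algebraMap R (FractionRing R)) = algebraMap R (FractionRing R) (b : R) • X.val := by
    ext i j
    have h1 := hc (i, j)
    rw [Algebra.smul_def] at h1
    simpa using h1
  have hinjM : Function.Injective (fun M : Matrix (Fin 2) (Fin 2) R =>
      M.map (algebraMap R (FractionRing R))) := Matrix.map_injective hinj
  refine ⟨Matrix.of (fun i j => c (i, j)), ?_, ?_⟩
  · intro h0
    have h1 : ((Matrix.of (fun i j => c (i, j)) : Matrix (Fin 2) (Fin 2) R).map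
        (algebraMap R (FractionRing R))).det = 0 := by
      have h2 := RingHom.map_det (algebraMap R (FractionRing R))
        (Matrix.of (fun i j => c (i, j)) : Matrix (Fin 2) (Fin 2) R)
      rw [h0, map_zero] at h2
      exact h2.symm
    rw [hCX, Matrix.det_smul] at h1
    have h3 : X.val.det ≠ 0 := by
      have h4 : IsUnit X.val.det := (Matrix.isUnit_iff_isUnit_det _).mp X.isUnit
      exact h4.ne_zero
    exact (mul_ne_zero (pow_ne_zero _ hbne) h3) h1
  · intro l
    apply hinjM
    show ((σ l).val * _).map _ = (_ * (ρ l).val).map _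
    rw [Matrix.map_mul, Matrix.map_mul, hCX, Matrix.mul_smul, Matrix.smul_mul]
    congr 1
    exact (hX l).symm

end Pool.Agent.F8.CG
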