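import Pool.Agent.Lib.MP_305fdd_al.F8.CG.StmE

/-!
# MP_305fdd_al, congruence subgroups: the piece `E_irr`
-/

set_option autoImplicit false

namespace Pool.Agent.F8.CG

open Pool.Agent.MP_305fdd_al Pool.Agent.Lib.MP_305fdd_al Pool.Agent.F2X Pool.Agent.F8
  Pool.Agent.F8.BG
open scoped QuadraticAlgebra

noncomputable section

/-- a number which is zero modulo a greater number is zero -/
theorem Eirr_zero (z : ℤ) (m : ℕ) (hm : z.natAbs < m) (h : ((z : ℤ) : ZMod m) = 0) : z = 0 := by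
  rw [ZMod.intCast_zmod_eq_zero_iff_dvd] at h
  exact Int.eq_zero_of_abs_lt_dvd h (by rw [Int.abs_eq_natAbs]; omega)

theorem p_Eirr : E_irr := by
  intro a b G Λ _ _ Φ ρ₀ T hT hirr
  obtain ⟨g, h, hgh⟩ := hirr
  set δ : Qf a b ℤ := tr (ρ₀ (g * h * g⁻¹ * h⁻¹)) - 2 with hδ
  have hδ0 : δ ≠ 0 := sub_ne_zero.mpr hgh
  set m : ℕ := δ.re.natAbs + δ.im.natAbs + 1 with hm
  have : NeZero m := ⟨by omega⟩
  set φ : Qf a b ℤ →+* Qf a b (ZMod m) := Qfm a b (Int.castRingHom (ZMod m)) with hφ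
  by_contra hcon
  push Not at hcon
  have hl : ∀ x : G, ∃ l : Λ, Φ.toFun _ ((SLm φ).comp ρ₀) l = ((SLm φ).comp ρ₀) x := by
    intro x
    have h1 : ((SLm φ).comp ρ₀) x ∈ (Φ.toFun _ ((SLm φ).comp ρ₀)).range := by
      rw [NatBij.range_eq]
      exact ⟨x, rfl⟩
    exact h1
  obtain ⟨l, hlg⟩ := hl g
  obtain ⟨l', hlh⟩ := hl h
  have h1 := hT _ φ (l * l' * l⁻¹ * l'⁻¹)
  rw [hcon l l', map_mul, map_mul, map_mul, map_inv, map_inv, hlg, hlh, ← map_inv, ← map_inv,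
    ← map_mul, ← map_mul, ← map_mul, MonoidHom.comp_apply, tr_map] at h1
  have h2 : φ δ = 0 := by
    rw [hδ, map_sub, ← h1, sub_self]
  have h3 : (⟨((δ.re : ℤ) : ZMod m), ((δ.im : ℤ) : ZMod m)⟩ : Qf a b (ZMod m)) = 0 := h2
  apply hδ0
  apply QuadraticAlgebra.ext
  · exact Eirr_zero _ m (by omega) (congrArg QuadraticAlgebra.re h3)
  · exact Eirr_zero _ m (by omega) (congrArg QuadraticAlgebra.im h3)

end

end Pool.Agent.F8.CG
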