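import Pool.Agent.Lib.MP_305fdd_al.F8.CG.StmE

/-!
# MP_305fdd_al, congruence subgroups: the lattice (`E_lat`)
-/

set_option autoImplicit false

namespace Pool.Agent.F8.CG

open Pool.Agent.MP_305fdd_al Pool.Agent.Lib.MP_305fdd_al Pool.Agent.F2X Pool.Agent.F8
  Pool.Agent.F8.BG
open scoped QuadraticAlgebra

noncomputable section

section Elat

variable {A : Type} [CommRing A] {Λ : Type} [Group Λ]

/-- reduction of the conjugating matrix -/
theorem Elat_dvd {σ : ∀ x : A, Λ →* SL2 (A ⧸ Ideal.span {x})} (hσ : Cpt σ) {ρ : Λ →* SL2 A}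
    {x y : A} (h : x ∣ y) (hy : y ≠ 0) (hC : LCj σ ρ y) : LCj σ ρ x := by
  obtain ⟨C, hC⟩ := hC
  refine ⟨GLm (fcx h) C, fun l => ?_⟩
  have h1 : SLm (mkx x) (ρ l) = SLm (fcx h) (SLm (mkx y) (ρ l)) := by
    apply Subtype.ext
    ext i j
    rfl
  have h2 : σ x l = SLm (fcx h) (σ y l) := by
    rw [← hσ x y h hy]
    rfl
  rw [h1, h2]
  have h3 : ∀ M : SL2 (A ⧸ Ideal.span {y}), (SLm (fcx h) M).val = M.val.map (fcx h) :=
    fun _ => rfl
  have h4 : (GLm (fcx h) C).val = C.val.map (fcx h) := rfl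
  rw [h3, h3, h4, ← Matrix.map_mul, ← Matrix.map_mul, hC l]

/-- the traces -/
theorem Elat_tr [IsDomain A] {ρ ρ' : SL2 A} {g : Matrix (Fin 2) (Fin 2) A} (hg : g.det ≠ 0)
    (h : ρ'.val * g = g * ρ.val) : tr ρ' = tr ρ := by
  have h1 : ρ'.val * (g * g.adjugate) = g * ρ.val * g.adjugate := by
    rw [← Matrix.mul_assoc, h]
  have h2 := congrArg Matrix.trace h1
  rw [Matrix.mul_adjugate, Matrix.mul_smul, Matrix.mul_one, Matrix.trace_smul, Matrix.mul_assoc,
    Matrix.trace_mul_comm, Matrix.mul_assoc, Matrix.adjugate_mul, Matrix.mul_smul, Matrix.mul_one,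
    Matrix.trace_smul] at h2
  exact mul_left_cancel₀ hg h2

/-- change of the representation by a matrix which is invertible modulo `x` -/
theorem Elat_conj {σ : ∀ x : A, Λ →* SL2 (A ⧸ Ideal.span {x})} {ρ ρ' : Λ →* SL2 A}
    {g : Matrix (Fin 2) (Fin 2) A} (h : ∀ l, (ρ' l).val * g = g * (ρ l).val) {x : A}
    (hu : IsUnit (mkx x g.det)) (hC : LCj σ ρ x) : LCj σ ρ' x := by
  obtain ⟨C, hC⟩ := hC
  have hdet : IsUnit (g.map (mkx x)).det := by
    have h1 : (g.map (mkx x)).det = mkx x g.det := (RingHom.map_det (mkx x) g).symm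
    rw [h1]
    exact hu
  let M : GL (Fin 2) (A ⧸ Ideal.span {x}) := Matrix.nonsingInvUnit _ hdet
  have hM : M.val = g.map (mkx x) := rfl
  refine ⟨M * C, fun l => ?_⟩
  have h1 : (SLm (mkx x) (ρ' l)).val * M.val = M.val * (SLm (mkx x) (ρ l)).val := by
    have h2 : ∀ N : SL2 A, (SLm (mkx x) N).val = N.val.map (mkx x) := fun _ => rfl
    rw [hM, h2, h2, ← Matrix.map_mul, ← Matrix.map_mul, h l]
  rw [Units.val_mul, ← Matrix.mul_assoc, h1, Matrix.mul_assoc, hC l, Matrix.mul_assoc]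

end Elat

theorem p_Elat (hone : E_one) (hgood : E_good) (hcrt : E_crt) : E_lat := by
  intro A Λ _ _ _ _ σ hσ ρ hirr htr
  have hirr0 := hirr
  obtain ⟨g, h, hgh⟩ := hirr
  have hd : tr (ρ (g * h * g⁻¹ * h⁻¹)) - 2 ≠ 0 := sub_ne_zero.2 hgh
  have claim : ∀ L : Multiset A, (∀ π ∈ L, Prime π) → ∃ ρ' : Λ →* SL2 A,
      (∀ l, tr (ρ' l) = tr (ρ l)) ∧ ∀ π ∈ L, ∀ k : ℕ, LCj σ ρ' (π ^ k) := by
    intro L
    induction L using Multiset.induction_on with
    | empty => exact fun _ => ⟨ρ, fun _ => rfl, fun π hπ => absurd hπ (Multiset.notMem_zero π)⟩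
    | cons π₀ L ih =>
      intro hL
      obtain ⟨ρ', h1, h2⟩ := ih fun π hπ => hL π (Multiset.mem_cons_of_mem hπ)
      have hπ₀ : Prime π₀ := hL π₀ (Multiset.mem_cons_self π₀ L)
      by_cases has : ∃ π ∈ L, Associated π₀ π
      · obtain ⟨π, hπ, ha⟩ := has
        refine ⟨ρ', h1, ?_⟩
        intro π' hπ' k
        rcases Multiset.mem_cons.1 hπ' with rfl | hπ'
        · exact Elat_dvd hσ (pow_dvd_pow_of_dvd ha.dvd k)
            (pow_ne_zero k (hL π (Multiset.mem_cons_of_mem hπ)).ne_zero) (h2 π hπ k)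
        · exact h2 π' hπ' k
      · have hirr' : Irr ρ' := ⟨g, h, by rw [h1]; exact hgh⟩
        obtain ⟨ρ'', G, n, hG, h3, h4⟩ := hone A Λ σ hσ ρ' hirr'
          (fun x hx l => by rw [htr x hx l, h1]) π₀ hπ₀
        have hG0 : G.det ≠ 0 := by
          rw [hG]
          exact pow_ne_zero n hπ₀.ne_zero
        refine ⟨ρ'', fun l => (Elat_tr hG0 (h3 l)).trans (h1 l), ?_⟩
        intro π' hπ' k
        rcases Multiset.mem_cons.1 hπ' with rfl | hπ'
        · exact h4 k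
        · refine Elat_conj h3 ?_ (h2 π' hπ' k)
          have hp' : Prime π' := hL π' (Multiset.mem_cons_of_mem hπ')
          have hcop : IsCoprime (π' ^ k) (π₀ ^ n) := by
            apply IsCoprime.pow
            rw [Prime.coprime_iff_not_dvd hp']
            intro hdv
            exact has ⟨π', hπ', (hp'.associated_of_dvd hπ₀ hdv).symm⟩
          obtain ⟨u, v, huv⟩ := hcop
          rw [hG]
          have h5 : mkx (π' ^ k) v * mkx (π' ^ k) (π₀ ^ n) = 1 := by
            have h6 : mkx (π' ^ k) (u * π' ^ k) = 0 :=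
              Ideal.Quotient.eq_zero_iff_mem.2 (Ideal.mem_span_singleton.2 (dvd_mul_left _ _))
            rw [← map_mul, ← map_one (mkx (π' ^ k)), ← huv, map_add, h6, zero_add]
          exact IsUnit.of_mul_eq_one_right _ h5
  obtain ⟨ρ', h1, h2⟩ := claim (UniqueFactorizationMonoid.factors
    (tr (ρ (g * h * g⁻¹ * h⁻¹)) - 2)) fun π hπ => UniqueFactorizationMonoid.prime_of_factor π hπ
  refine ⟨ρ', h1, hcrt A Λ σ hσ ρ' ?_⟩
  intro π k hπ
  by_cases hdv : π ∣ tr (ρ (g * h * g⁻¹ * h⁻¹)) - 2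
  · obtain ⟨q, hq, ha⟩ := UniqueFactorizationMonoid.exists_mem_factors_of_dvd hd hπ.irreducible hdv
    exact Elat_dvd hσ (pow_dvd_pow_of_dvd ha.dvd k)
      (pow_ne_zero k (UniqueFactorizationMonoid.prime_of_factor q hq).ne_zero) (h2 q hq k)
  · exact hgood A Λ σ hσ ρ' (fun x hx l => by rw [htr x hx l, h1]) π hπ g h
      (by rw [h1]; exact hdv) k

end

end Pool.Agent.F8.CG
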