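import Pool.Agent.Lib.MP_305fdd_al.F8.CG.StmE
import Pool.Agent.Lib.MP_305fdd_al.F8.BG.P_E

/-!
# MP_305fdd_al, congruence subgroups, piece Emain: the main result of block E
-/

set_option autoImplicit false

namespace Pool.Agent.F8.CG

open Pool.Agent.MP_305fdd_al Pool.Agent.Lib.MP_305fdd_al Pool.Agent.F2X Pool.Agent.F8
  Pool.Agent.F8.BG
open scoped QuadraticAlgebra

noncomputable section

/-- the quotients of the ring of integers are finite -/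
theorem Emain_fin {a b : ℤ} (hn : b ^ 2 + 4 * a < 0) (x : Qf a b ℤ) (hx : x ≠ 0) :
    Finite (Qf a b ℤ ⧸ Ideal.span {x}) := by
  obtain ⟨n, hn0, hd⟩ := BG.E_dvd hn x hx
  have : NeZero n := ⟨hn0.ne'⟩
  refine Finite.of_surjective
    (fun z : Qf a b (ZMod n) => mkx x (Function.surjInv (BG.E_surj a b n) z)) ?_
  intro q
  obtain ⟨y, rfl⟩ := Ideal.Quotient.mk_surjective q
  refine ⟨Qfm a b (Int.castRingHom (ZMod n)) y, ?_⟩
  apply Ideal.Quotient.eq.2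
  rw [Ideal.mem_span_singleton]
  refine hd.trans (BG.E_ker a b n _ ?_)
  rw [map_sub, Function.surjInv_eq (BG.E_surj a b n), sub_self]

/-- the matched family -/
def Emain_s {a b : ℤ} (hn : b ^ 2 + 4 * a < 0) {G Λ : Type} [Group G] [Group Λ]
    (Φ : NatBij G Λ) (ρ₀ : G →* GQ a b) (ρ₁ : Λ →* GQ a b) (x : Qf a b ℤ) :
    Λ →* SL2 (Qf a b ℤ ⧸ Ideal.span {x}) := by
  classical
  exact if hx : x = 0 then (SLm (mkx x)).comp ρ₁ else
    (have := Emain_fin hn x hx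
     Φ.toFun _ ((SLm (mkx x)).comp ρ₀))

theorem Emain_s_eq {a b : ℤ} (hn : b ^ 2 + 4 * a < 0) {G Λ : Type} [Group G] [Group Λ]
    (Φ : NatBij G Λ) (ρ₀ : G →* GQ a b) (ρ₁ : Λ →* GQ a b) (x : Qf a b ℤ) (hx : x ≠ 0)
    [Finite (Qf a b ℤ ⧸ Ideal.span {x})] :
    Emain_s hn Φ ρ₀ ρ₁ x = Φ.toFun _ ((SLm (mkx x)).comp ρ₀) := by
  unfold Emain_s
  rw [dif_neg hx]

theorem p_Emain (har : E_ar) (hirr : E_irr) (hrho : E_rho) (hlat : E_lat) : E_main := by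
  intro a b h5 G Λ _ _ Φ ρ₀ T hR hI
  have hneg : b ^ 2 + 4 * a < 0 := by
    rcases h5 with ⟨rfl, rfl⟩ | ⟨rfl, rfl⟩ | ⟨rfl, rfl⟩ | ⟨rfl, rfl⟩ | ⟨rfl, rfl⟩ <;> norm_num
  obtain ⟨hpid, hleg⟩ := har a b h5
  have hdom : IsDomain (Qf a b ℤ) := Qf_domain hneg
  obtain ⟨ρ₁, hρ₁⟩ := hrho a b hneg hpid hleg G Λ Φ ρ₀ T hR hI
  obtain ⟨l, l', hl⟩ := hirr a b G Λ Φ ρ₀ T hR hI
  have hI₁ : Irr ρ₁ := ⟨l, l', by rw [hρ₁]; exact hl⟩
  have hC : Cpt (Emain_s hneg Φ ρ₀ ρ₁) := by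
    intro x y h hy
    have hx : x ≠ 0 := by
      rintro rfl
      exact hy (zero_dvd_iff.1 h)
    have := Emain_fin hneg x hx
    have := Emain_fin hneg y hy
    rw [Emain_s_eq hneg Φ ρ₀ ρ₁ x hx, Emain_s_eq hneg Φ ρ₀ ρ₁ y hy, ← Φ.nat]
    rfl
  obtain ⟨ρ, hρ, hL⟩ := hlat (Qf a b ℤ) Λ (Emain_s hneg Φ ρ₀ ρ₁) hC ρ₁ hI₁ (by
    intro x hx l
    have := Emain_fin hneg x hx
    rw [Emain_s_eq hneg Φ ρ₀ ρ₁ x hx, hρ₁]
    exact (hR _ (mkx x) l).symm)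
  refine ⟨ρ, fun l => (hρ l).trans (hρ₁ l), ?_, ?_⟩
  · intro m hm
    have hm0 : (m : Qf a b ℤ) ≠ 0 := by
      intro h
      have h1 := congrArg QuadraticAlgebra.re h
      rw [QuadraticAlgebra.re_natCast, QuadraticAlgebra.re_zero] at h1
      exact hm.out (by exact_mod_cast h1)
    have hf0 : ∀ z ∈ Ideal.span {(m : Qf a b ℤ)}, Qfm a b (Int.castRingHom (ZMod m)) z = 0 := by
      intro z hz
      obtain ⟨y, rfl⟩ := Ideal.mem_span_singleton.1 hz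
      rw [map_mul, map_natCast]
      have h1 : ((m : ℕ) : Qf a b (ZMod m)) = 0 := by
        apply QuadraticAlgebra.ext
        · rw [QuadraticAlgebra.re_natCast, QuadraticAlgebra.re_zero, ZMod.natCast_self]
        · rw [QuadraticAlgebra.im_natCast, QuadraticAlgebra.im_zero]
      rw [h1, zero_mul]
    let f : Qf a b ℤ ⧸ Ideal.span {(m : Qf a b ℤ)} →+* Qf a b (ZMod m) :=
      Ideal.Quotient.lift _ _ hf0
    have := Emain_fin hneg _ hm0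
    obtain ⟨C, hCl⟩ := hL (m : Qf a b ℤ) hm0
    rw [Emain_s_eq hneg Φ ρ₀ ρ₁ _ hm0] at hCl
    refine ⟨GLm f C, fun l => ?_⟩
    have e1 : (rdq a b m).comp ρ₀ = (SLm f).comp ((SLm (mkx (m : Qf a b ℤ))).comp ρ₀) := rfl
    have e2 : (rdq a b m (ρ l)).val = (SLm (mkx (m : Qf a b ℤ)) (ρ l)).val.map f := rfl
    have e3 : (GLm f C).val = C.val.map f := rfl
    rw [e1, Φ.nat, e2, e3]
    have h2 := congrArg (fun M => M.map f) (hCl l)
    simp only [Matrix.map_mul] at h2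
    exact h2
  · exact ⟨l, l', by rw [hρ, hρ₁]; exact hl⟩

end

end Pool.Agent.F8.CG
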