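import Pool.Agent.Lib.MP_305fdd_al.F8.CG.StmE

/-!
# MP_305fdd_al, congruence subgroups: the change of the lattice at one prime
-/

set_option autoImplicit false

namespace Pool.Agent.F8.CG

open Pool.Agent.MP_305fdd_al Pool.Agent.Lib.MP_305fdd_al Pool.Agent.F2X Pool.Agent.F8
  Pool.Agent.F8.BG
open scoped QuadraticAlgebra

noncomputable section

theorem Eone_inj {R : Type} [CommRing R] {Rk : ℕ → Type} [∀ k, CommRing (Rk k)]
    {π : ∀ k, R →+* Rk k} {p : ∀ k, Rk (k + 1) →+* Rk k} (h : IsLim R Rk π p) {y z : R}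
    (hyz : ∀ k, π k y = π k z) : y = z := by
  obtain ⟨w, -, hw⟩ := h.2 (fun k => π k z) (fun k => by
    have := congrArg (fun f : R →+* Rk k => f z) (h.1 k)
    simpa using this)
  rw [hw y hyz, hw z (fun k => rfl)]

/-- limits of representations -/
theorem Eone_lim {R : Type} [CommRing R] {Rk : ℕ → Type} [∀ k, CommRing (Rk k)]
    {π : ∀ k, R →+* Rk k} {p : ∀ k, Rk (k + 1) →+* Rk k} (h : IsLim R Rk π p)
    {G : Type} [Group G] (r : ∀ k, G →* SL2 (Rk k)) (hr : ∀ k, (SLm (p k)).comp (r (k + 1)) = r k) :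
    ∃ r' : G →* SL2 R, ∀ k, (SLm (π k)).comp r' = r k := by
  have hM : ∀ g i j, ∃ m : R, ∀ k, π k m = (r k g).val i j := fun g i j => by
    obtain ⟨m, hm, -⟩ := h.2 (fun k => (r k g).val i j) (fun k => by
      have h1 : SLm (p k) (r (k + 1) g) = r k g := DFunLike.congr_fun (hr k) g
      exact congrArg (fun q : SL2 (Rk k) => q.val i j) h1)
    exact ⟨m, hm⟩
  choose M hM using hM
  have hd : ∀ g, (Matrix.of (M g)).det = 1 := fun g => Eone_inj h fun k => by
    have hk := (r k g).property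
    rw [Matrix.det_fin_two] at hk
    rw [Matrix.det_fin_two]
    simp only [Matrix.of_apply, map_sub, map_mul, hM, map_one]
    exact hk
  have hF : ∀ g k, SLm (π k) (⟨Matrix.of (M g), hd g⟩ : SL2 R) = r k g := by
    intro g k
    apply Subtype.ext
    ext i j
    exact hM g i j k
  have hinj : ∀ y z : SL2 R, (∀ k, SLm (π k) y = SLm (π k) z) → y = z := by
    intro y z hyz
    apply Subtype.ext
    ext i j
    apply Eone_inj h
    intro k
    exact congrArg (fun q : SL2 (Rk k) => q.val i j) (hyz k)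
  refine ⟨⟨⟨fun g => ⟨Matrix.of (M g), hd g⟩, ?_⟩, ?_⟩, ?_⟩
  · apply hinj
    intro k
    rw [hF, map_one, map_one]
  · intro g g'
    apply hinj
    intro k
    have h1 : ∀ a b : SL2 R, SLm (π k) (a * b) = SLm (π k) a * SLm (π k) b :=
      fun a b => map_mul _ a b
    refine (hF (g * g') k).trans ?_
    refine Eq.trans ?_ (h1 ⟨Matrix.of (M g), hd g⟩ ⟨Matrix.of (M g'), hd g'⟩).symm
    rw [hF, hF, map_mul]
  · intro k
    ext1 g
    exact hF g k

/-- [CG E_one] -/
theorem p_Eone (hint : E_int) (hcmp : E_cmp) (hher : E_her) : E_one := by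
  intro A Λ _ _ _ _ σ hσ ρ hirr htr π hπ
  obtain ⟨R, _, c, pr, hC⟩ := hcmp A π hπ
  have hdom := hC.dom
  have hπ0 : ∀ k : ℕ, π ^ k ≠ 0 := fun k => pow_ne_zero k hπ.ne_zero
  obtain ⟨s, hs⟩ := Eone_lim hC.lim (fun k => σ (π ^ k))
    (fun k => hσ (π ^ k) (π ^ (k + 1)) (pow_dvd_pow π (Nat.le_succ k)) (hπ0 _))
  have hs' : ∀ k l, SLm (pr k) (s l) = σ (π ^ k) l := fun k l => DFunLike.congr_fun (hs k) l
  have hst : ∀ l, tr (s l) = tr ((SLm c).comp ρ l) := by
    intro l
    rw [MonoidHom.comp_apply, tr_map]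
    apply Eone_inj hC.lim
    intro k
    rw [← tr_map, hs', htr _ (hπ0 k), hC.mkc]
  have hirr' : Irr ((SLm c).comp ρ) := by
    obtain ⟨g, h, hgh⟩ := hirr
    refine ⟨g, h, ?_⟩
    rw [MonoidHom.comp_apply, tr_map]
    intro e
    apply hgh
    apply hC.inj
    rw [e, map_ofNat]
  obtain ⟨C, hCd, hCi⟩ := hint R Λ s ((SLm c).comp ρ) hst hirr'
  obtain ⟨U, g, n, hgd, hCU⟩ := hher A π R c pr hC C hCd
  -- the conjugate
  let Q : Λ → Matrix (Fin 2) (Fin 2) R := fun l => (U⁻¹).val * (s l).val * U.val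
  have hUU : U.val * (U⁻¹).val = 1 := by rw [← Units.val_mul, mul_inv_cancel]; rfl
  have hUU' : (U⁻¹).val * U.val = 1 := by rw [← Units.val_mul, inv_mul_cancel]; rfl
  have hQ1 : ∀ l, Q l * g.map c = g.map c * (ρ l).val.map c := by
    intro l
    have h1 := hCi l
    rw [hCU] at h1
    have h2 : ((SLm c).comp ρ l).val = (ρ l).val.map c := rfl
    rw [h2] at h1
    show (U⁻¹).val * (s l).val * U.val * g.map c = _
    calc (U⁻¹).val * (s l).val * U.val * g.map c = (U⁻¹).val * ((s l).val * (U.val * g.map c)) := by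
          simp only [Matrix.mul_assoc]
      _ = (U⁻¹).val * (U.val * g.map c * (ρ l).val.map c) := by rw [h1]
      _ = ((U⁻¹).val * U.val) * (g.map c * (ρ l).val.map c) := by simp only [Matrix.mul_assoc]
      _ = _ := by rw [hUU', Matrix.one_mul]
  have hgg : g.map c * g.adjugate.map c = (c π ^ n) • (1 : Matrix (Fin 2) (Fin 2) R) := by
    rw [← Matrix.map_mul, Matrix.mul_adjugate, hgd]
    ext i j
    rw [Matrix.map_apply, Matrix.smul_apply, Matrix.smul_apply, smul_eq_mul, smul_eq_mul,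
      map_mul, map_pow, Matrix.one_apply, Matrix.one_apply]
    split_ifs
    · rw [map_one]
    · rw [map_zero]
  have hQ2 : ∀ l, (c π ^ n) • Q l = (g * (ρ l).val * g.adjugate).map c := by
    intro l
    calc (c π ^ n) • Q l = Q l * ((c π ^ n) • (1 : Matrix (Fin 2) (Fin 2) R)) := by
          rw [Matrix.mul_smul, Matrix.mul_one]
      _ = (Q l * g.map c) * g.adjugate.map c := by
          rw [← hgg]
          exact (Matrix.mul_assoc (Q l) (g.map c) (g.adjugate.map c)).symm
      _ = _ := by rw [hQ1, Matrix.map_mul, Matrix.map_mul]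
  have hdiv : ∀ l i j, ∃ z : A, (g * (ρ l).val * g.adjugate) i j = π ^ n * z := by
    intro l i j
    have h1 : pr n (c ((g * (ρ l).val * g.adjugate) i j)) = 0 := by
      rw [hC.ker]
      refine ⟨Q l i j, ?_⟩
      have h2 := congrFun (congrFun (hQ2 l) i) j
      rw [Matrix.smul_apply, smul_eq_mul, Matrix.map_apply] at h2
      exact h2.symm
    rw [hC.mkc] at h1
    exact Ideal.mem_span_singleton'.1 (Ideal.Quotient.eq_zero_iff_mem.1 h1) |>.imp
      fun z hz => by rw [← hz, mul_comm]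
  choose N hN using hdiv
  have hcπ : c π ^ n ≠ 0 := by
    rw [← map_pow]
    intro e
    exact hπ0 n (hC.inj (by rw [e, map_zero]))
  have hNQ : ∀ l, (Matrix.of (N l)).map c = Q l := by
    intro l
    ext i j
    rw [Matrix.map_apply, Matrix.of_apply]
    apply mul_left_cancel₀ hcπ
    have h2 := congrFun (congrFun (hQ2 l) i) j
    rw [Matrix.smul_apply, smul_eq_mul, Matrix.map_apply, hN, map_mul, map_pow] at h2
    exact h2.symm
  have hminj : ∀ X Y : Matrix (Fin 2) (Fin 2) A, X.map c = Y.map c → X = Y := by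
    intro X Y h
    ext i j
    exact hC.inj (congrFun (congrFun h i) j)
  have hQd : ∀ l, (Q l).det = 1 := by
    intro l
    show ((U⁻¹).val * (s l).val * U.val).det = 1
    rw [Matrix.det_mul, Matrix.det_mul, (s l).property, mul_one, ← Matrix.det_mul, hUU',
      Matrix.det_one]
  have hNd : ∀ l, (Matrix.of (N l)).det = 1 := by
    intro l
    apply hC.inj
    rw [RingHom.map_det, map_one]
    show ((Matrix.of (N l)).map c).det = 1
    rw [hNQ, hQd]
  have hQm : ∀ l l', Q (l * l') = Q l * Q l' := by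
    intro l l'
    show (U⁻¹).val * (s (l * l')).val * U.val =
      (U⁻¹).val * (s l).val * U.val * ((U⁻¹).val * (s l').val * U.val)
    rw [map_mul, Matrix.SpecialLinearGroup.coe_mul]
    calc (U⁻¹).val * ((s l).val * (s l').val) * U.val =
        (U⁻¹).val * (s l).val * (1 : Matrix (Fin 2) (Fin 2) R) * ((s l').val * U.val) := by
          rw [Matrix.mul_one]; simp only [Matrix.mul_assoc]
      _ = _ := by rw [← hUU]; simp only [Matrix.mul_assoc]
  have hQone : Q 1 = 1 := by
    show (U⁻¹).val * (s 1).val * U.val = 1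
    rw [map_one, Matrix.SpecialLinearGroup.coe_one, Matrix.mul_one, hUU']
  let ρ' : Λ →* SL2 A :=
    { toFun := fun l => ⟨Matrix.of (N l), hNd l⟩
      map_one' := by
        apply Subtype.ext
        apply hminj
        show (Matrix.of (N 1)).map c = (1 : Matrix (Fin 2) (Fin 2) A).map c
        rw [hNQ, hQone, Matrix.map_one c (map_zero c) (map_one c)]
      map_mul' := fun l l' => by
        apply Subtype.ext
        apply hminj
        show (Matrix.of (N (l * l'))).map c = (Matrix.of (N l) * Matrix.of (N l')).map c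
        rw [hNQ, Matrix.map_mul, hNQ, hNQ, hQm] }
  have hρ' : ∀ l, (ρ' l).val.map c = Q l := hNQ
  refine ⟨ρ', g, n, hgd, ?_, ?_⟩
  · intro l
    apply hminj
    rw [Matrix.map_mul, Matrix.map_mul, hρ', hQ1]
  · intro k
    refine ⟨Matrix.GeneralLinearGroup.map (pr k) U⁻¹, ?_⟩
    intro l
    have h1 : (SLm (mkx (π ^ k)) (ρ' l)).val = (Q l).map (pr k) := by
      rw [← hρ']
      ext i j
      show mkx (π ^ k) ((ρ' l).val i j) = pr k (c ((ρ' l).val i j))
      rw [hC.mkc]
    have h2 : (σ (π ^ k) l).val = (s l).val.map (pr k) := by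
      rw [← hs']; rfl
    have h3 : (Matrix.GeneralLinearGroup.map (pr k) U⁻¹).val = (U⁻¹).val.map (pr k) := rfl
    rw [h1, h2, h3, ← Matrix.map_mul, ← Matrix.map_mul]
    congr 1
    show (U⁻¹).val * (s l).val * U.val * (U⁻¹).val = _
    rw [Matrix.mul_assoc, hUU, Matrix.mul_one]

end

end Pool.Agent.F8.CG
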