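import Pool.Agent.Lib.MP_305fdd_al.F8.CG.StmTr

/-!
# MP_305fdd_al, congruence subgroups: extension of embeddings
-/

set_option autoImplicit false

namespace Pool.Agent.F8.CG

open Pool.Agent.MP_305fdd_al Pool.Agent.Lib.MP_305fdd_al Pool.Agent.F2X Pool.Agent.F8
  Pool.Agent.F8.NG.T

noncomputable section

theorem p_Text (hji : NG.T.S_ji) : T_ext := by
  intro A B _ _ _ _ _ _ _ _ e p _ i
  have hB0 : CharZero B := by
    refine ⟨fun m n hmn => ?_⟩
    have h1 : ((m : ℤ) - n) • (1 : B) = 0 := by
      rw [sub_smul, zsmul_eq_mul, zsmul_eq_mul, mul_one, mul_one, Int.cast_natCast,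
        Int.cast_natCast, hmn, sub_self]
    have h2 := (smul_eq_zero.1 h1).resolve_right one_ne_zero
    omega
  have hK : CharZero (FractionRing B) :=
    charZero_of_injective_algebraMap (IsFractionRing.injective B (FractionRing B))
  have he : Function.Injective e := by
    have h1 := (hji A).1 (FractionRing B) ((algebraMap B (FractionRing B)).comp e)
    intro x y hxy
    exact h1 (congrArg (algebraMap B (FractionRing B)) hxy)
  have hi : Function.Injective i := (hji A).1 _ i
  let : Algebra A B := e.toAlgebra
  let : Algebra A (Fl p) := i.toAlgebra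
  have h1 : Module.IsTorsionFree A B := by
    have : FaithfulSMul A B := (faithfulSMul_iff_algebraMap_injective _ _).2 he
    infer_instance
  have h2 : Module.IsTorsionFree A (Fl p) := by
    have : FaithfulSMul A (Fl p) := (faithfulSMul_iff_algebraMap_injective _ _).2 hi
    infer_instance
  have h3 : Algebra.IsAlgebraic A B := by
    refine ⟨fun b => ?_⟩
    have h4 : IsIntegral ℤ b := Algebra.IsIntegral.isIntegral b
    have h5 : IsIntegral A b := h4.tower_top
    exact h5.isAlgebraic
  let ι : B →ₐ[A] Fl p := IsAlgClosed.lift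
  refine ⟨ι.toRingHom, ?_⟩
  ext1 a
  exact ι.commutes a

end

end Pool.Agent.F8.CG
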