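import Pool.Agent.Lib.MP_305fdd_al.F8.CG.StmTr

/-!
# MP_305fdd_al, congruence subgroups: functoriality of the tests for injective homomorphisms
-/

set_option autoImplicit false

namespace Pool.Agent.F8.CG

open Pool.Agent.MP_305fdd_al Pool.Agent.Lib.MP_305fdd_al Pool.Agent.F2X Pool.Agent.F8
  Pool.Agent.F8.HN Pool.Agent.F8.NG.T

theorem Tfct_tr {R R' : Type} [CommRing R] [CommRing R'] (f : R →+* R') (x : SL2 R) :
    tr (SLm f x) = f (tr x) := by
  simp [tr, Matrix.trace_fin_two]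

theorem p_Tfct : T_fct := by
  intro G B R R' _ _ _ _ t f hf j ρ h
  obtain ⟨⟨g, hg, g', hg', hne⟩, Θ, hΘ, y, hy⟩ := h
  refine ⟨⟨g, hg, g', hg', ?_⟩, fun i => (Q3.map f).comp (Θ i), fun i => ⟨?_, ?_⟩, y, ?_⟩
  · intro e
    apply hne
    apply hf
    rw [← Tfct_tr, map_ofNat]
    exact e
  · apply MonoidHom.ext
    intro x
    have h1 := DFunLike.congr_fun (hΘ i).1 x
    show SLm f (Q3.pH (Θ i x)) = SLm f (ρ x)
    exact congrArg (SLm f) h1
  · apply MonoidHom.ext
    intro x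
    have h1 := DFunLike.congr_fun (hΘ i).2 x
    show GLm f (Q3.qH (Θ i x)) = GLm (f.comp j) (t.A x)
    have h2 : GLm f (Q3.qH (Θ i x)) = GLm f (GLm j (t.A x)) := congrArg (GLm f) h1
    rw [h2]
    apply Units.ext
    ext a b
    rfl
  · have h1 := dt_map f (fun i x => (Θ i x).v) y
    intro e
    apply hy
    apply hf
    rw [map_zero, ← h1]
    exact e

end Pool.Agent.F8.CG
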