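import Pool.Agent.Lib.MP_305fdd_al.F8.CG.StmTr

/-!
# CG T_ind: linear independence and determinants
-/

set_option autoImplicit false

namespace Pool.Agent.F8.CG

open Pool.Agent.MP_305fdd_al Pool.Agent.Lib.MP_305fdd_al Pool.Agent.F2X Pool.Agent.F8
  Pool.Agent.F8.HN Pool.Agent.F8.NG.T

private theorem Tind_span {X : Type} {m d : ℕ} {K : Type} [Field K]
    (f : Fin d → X → Matrix (Fin 2) (Fin m) K) (hf : LinearIndependent K f) :
    Submodule.span K (Set.range (fun p : X × Fin 2 × Fin m => fun i : Fin d => f i p.1 p.2.1 p.2.2)) =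
      ⊤ := by
  by_contra hne
  obtain ⟨φ, hφ, hle⟩ := Submodule.exists_le_ker_of_lt_top _ (lt_top_iff_ne_top.2 hne)
  have h1 : ∀ v : Fin d → K, φ v = ∑ i, v i • φ (fun j => if i = j then 1 else 0) :=
    LinearMap.pi_apply_eq_sum_univ φ
  have h2 : ∑ i, φ (fun j => if i = j then 1 else 0) • f i = 0 := by
    funext x
    ext r s
    have h3 : φ (fun i : Fin d => f i x r s) = 0 := by
      refine hle (Submodule.subset_span ⟨(x, r, s), rfl⟩)
    rw [h1] at h3
    rw [Finset.sum_apply, Matrix.sum_apply]
    refine Eq.trans ?_ h3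
    refine Finset.sum_congr rfl (fun i _ => ?_)
    rw [Pi.smul_apply, Matrix.smul_apply, smul_eq_mul, smul_eq_mul, mul_comm]
  have h4 := Fintype.linearIndependent_iff.1 hf _ h2
  apply hφ
  refine LinearMap.ext (fun v => ?_)
  rw [h1, LinearMap.zero_apply]
  refine Finset.sum_eq_zero (fun i _ => ?_)
  rw [h4 i, smul_zero]

theorem p_Tind : T_ind := by
  intro X m d K _ f
  constructor
  · intro hf
    obtain ⟨b, hb1, hb2, hb3⟩ := exists_linearIndependent K
      (Set.range (fun p : X × Fin 2 × Fin m => fun i : Fin d => f i p.1 p.2.1 p.2.2))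
    rw [Tind_span f hf] at hb2
    let B : Module.Basis b K (Fin d → K) := Module.Basis.mk hb3 (by
      rw [Subtype.range_coe, hb2])
    haveI : Finite b := Module.Finite.finite_basis B
    haveI : Fintype b := Fintype.ofFinite b
    have hc : Fintype.card b = d := by
      rw [← Module.finrank_eq_card_basis B, Module.finrank_fin_fun]
    let E : Fin d ≃ b := (Fintype.equivFinOfCardEq hc).symm
    have h1 : ∀ l : Fin d, ∃ p : X × Fin 2 × Fin m,
        (fun i : Fin d => f i p.1 p.2.1 p.2.2) = ((E l : b) : Fin d → K) :=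
      fun l => hb1 (E l).2
    choose y hy using h1
    refine ⟨y, ?_⟩
    have h2 : LinearIndependent K (fun l : Fin d => ((E l : b) : Fin d → K)) :=
      hb3.comp E E.injective
    have h3 : LinearIndependent K
        (Matrix.of fun (l i : Fin d) => f i (y l).1 (y l).2.1 (y l).2.2).row := by
      have h4 : (Matrix.of fun (l i : Fin d) => f i (y l).1 (y l).2.1 (y l).2.2).row =
          fun l : Fin d => ((E l : b) : Fin d → K) := by
        funext l
        exact hy l
      rw [h4]
      exact h2
    have h5 := (Matrix.isUnit_iff_isUnit_det _).1 (Matrix.linearIndependent_rows_iff_isUnit.1 h3)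
    have h6 : dt f y = (Matrix.of fun (l i : Fin d) => f i (y l).1 (y l).2.1 (y l).2.2).det := by
      unfold dt
      rw [← Matrix.det_transpose]
      rfl
    rw [h6]
    exact h5.ne_zero
  · rintro ⟨y, hy⟩
    rw [Fintype.linearIndependent_iff]
    intro c hc
    have h1 : Matrix.vecMul c (Matrix.of fun i l => f i (y l).1 (y l).2.1 (y l).2.2) = 0 := by
      funext l
      have h2 := congrFun (congrFun (congrFun hc (y l).1) (y l).2.1) (y l).2.2
      rw [Finset.sum_apply, Matrix.sum_apply] at h2
      rw [Pi.zero_apply]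
      exact h2
    have h3 := Matrix.eq_zero_of_vecMul_eq_zero hy h1
    intro i
    rw [h3, Pi.zero_apply]

end Pool.Agent.F8.CG
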