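import Pool.Agent.Lib.MP_305fdd_al.F8.CG.StmTr

/-!
# MP_305fdd_al, congruence subgroups: the main result of the transfer (block T), assembly
-/

set_option autoImplicit false

namespace Pool.Agent.F8.CG

open Pool.Agent.MP_305fdd_al Pool.Agent.Lib.MP_305fdd_al Pool.Agent.F2X Pool.Agent.F8
  Pool.Agent.F8.NG.T

theorem p_Tmain (hq : T_q) (hval : T_val) (hrL : NG.T.S_rL) (hred : NG.T.S_red) : T_main := by
  intro G Λ A B _ _ _ _ _ _ _ _ _ _ _ Φ ρ₀ e N t hTH hM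
  have M := fun n => (hM n).some
  obtain ⟨j, s, hs⟩ := hq G Λ A B Φ ρ₀ e N t hTH M
  have hr : ∀ (p : ℕ) (hp : Fact p.Prime), ∃ r : Λ →* SL2 (AT ℤ_[p] A), RL Φ ρ₀ p r :=
    fun p hp => hrL G Λ Φ A ρ₀ p
  choose r hr using hr
  have hT := hval G Λ A B Φ ρ₀ e N t hTH M j s hs r hr
  choose T hT using hT
  refine ⟨T, ?_⟩
  intro S _ _ h l
  exact hred G Λ Φ A ρ₀ r hr l (T l) (hT l).2 S h

end Pool.Agent.F8.CG
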