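import Pool.Agent.Lib.MP_305fdd_al.F8.CG.StmTr
import Pool.Agent.Lib.MP_305fdd_al.F8.Tower
import Pool.Agent.Lib.MP_305fdd_al.F8.P.exu

/-!
# MP_305fdd_al, congruence subgroups, block T: the corresponding test
-/

set_option autoImplicit false

namespace Pool.Agent.F8.CG

open Pool.Agent.MP_305fdd_al Pool.Agent.Lib.MP_305fdd_al Pool.Agent.F2X Pool.Agent.F8
  Pool.Agent.F8.HN Pool.Agent.F8.NG.T

noncomputable section

/-- a subgroup of finite index and the corresponding subgroup -/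
theorem Tmk_sub {G Λ : Type} [Group G] [Group Λ] (Φ : NatBij G Λ) (L : Subgroup G)
    (hL : L.FiniteIndex) : ∃ L' : Subgroup Λ, L'.FiniteIndex ∧ ∃ Ψ : NatBij L L',
    ∀ (R : Type) [Group R] [Finite R] (θ : G →* R),
      Ψ.toFun R (θ.comp L.subtype) = (Φ.toFun R θ).comp L'.subtype := by
  classical
  have hX : Finite (G ⧸ L) := Subgroup.finite_quotient_of_finiteIndex
  have hP : Finite (Equiv.Perm (G ⧸ L)) := inferInstance
  let f : G →* Equiv.Perm (G ⧸ L) := MulAction.toPermHom G (G ⧸ L)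
  let S : Subgroup (Equiv.Perm (G ⧸ L)) :=
    MulAction.stabilizer (Equiv.Perm (G ⧸ L)) ((1 : G) : G ⧸ L)
  have hLS : L = S.comap f := by
    ext g
    rw [Subgroup.mem_comap, MulAction.mem_stabilizer_iff]
    show g ∈ L ↔ g • ((1 : G) : G ⧸ L) = ((1 : G) : G ⧸ L)
    rw [MulAction.Quotient.smul_coe, smul_eq_mul, mul_one, QuotientGroup.eq, mul_one, inv_mem_iff]
  have hfi : (S.comap (Φ.toFun _ f)).FiniteIndex := by
    have h1 : (Φ.toFun _ f).ker ≤ S.comap (Φ.toFun _ f) := fun x hx => by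
      rw [Subgroup.mem_comap, MonoidHom.mem_ker.1 hx]
      exact S.one_mem
    have h2 : (Φ.toFun _ f).ker.FiniteIndex := Subgroup.finiteIndex_ker _
    exact Subgroup.finiteIndex_of_le h1
  obtain ⟨Ψ, hΨ⟩ := natBij_sub Φ (π := f) rfl S L (S.comap (Φ.toFun _ f)) hLS rfl
  exact ⟨S.comap (Φ.toFun _ f), hfi, Ψ, hΨ⟩

/-- the trivial homomorphism corresponds to the trivial homomorphism -/
theorem Tmk_one {G Λ : Type} [Group G] [Group Λ] (Ψ : NatBij G Λ) (Q : Type) [Group Q] [Finite Q] :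
    Ψ.toFun Q 1 = 1 := by
  have h : (1 : G →* Q) = (1 : Q →* Q).comp (1 : G →* Q) := by
    ext x; rfl
  rw [h, Ψ.nat]
  ext x
  rfl

theorem p_Tmk : T_mk := by
  intro G Λ B _ _ _ Φ n n' hC L hL k hk nL hnL m u d
  obtain ⟨L', hL', Ψ, hΨ⟩ := Tmk_sub Φ L hL
  have hk0 : NeZero k := ⟨by omega⟩
  have hfk : Finite (Multiplicative (ZMod k)) := inferInstanceAs (Finite (ZMod k))
  -- the exponents on `L'`
  have h1 : ((redZ k).comp n).comp L.subtype = 1 := by
    ext x
    show redZ k (n x) = 1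
    rw [hnL, redZ_pow_self]
  have h2 : ∀ x : L', redZ k (n' x) = 1 := by
    intro x
    have h3 := hΨ _ ((redZ k).comp n)
    rw [h1, Tmk_one, hC k] at h3
    exact (DFunLike.congr_fun h3 x).symm
  have hle : L' ≤ Lm n' k := fun x hx => h2 ⟨x, hx⟩
  let nL' : L' →* Multiplicative ℤ := (nm n' k).comp (Subgroup.inclusion hle)
  have hnL' : ∀ x : L', n' x = nL' x ^ k := by
    intro x
    exact (nm_pow n' k (Subgroup.inclusion hle x)).symm
  have hCL : CmG Ψ nL nL' := by
    intro M hM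
    have hkm : NeZero (M * k) := ⟨Nat.mul_ne_zero hM.out (by omega)⟩
    have hf1 : Finite (Multiplicative (ZMod M)) := inferInstanceAs (Finite (ZMod M))
    have hf2 : Finite (Multiplicative (ZMod (M * k))) := inferInstanceAs (Finite (ZMod (M * k)))
    have e1 : (mulZ M k).comp ((redZ M).comp nL) =
        ((redZ (M * k)).comp n).comp L.subtype := by
      ext g
      show mulZ M k (redZ M (nL g)) = redZ (M * k) (n g)
      rw [mulZ_redZ, hnL]
    have e2 : (mulZ M k).comp (Ψ.toFun _ ((redZ M).comp nL)) =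
        (mulZ M k).comp ((redZ M).comp nL') := by
      rw [← Ψ.nat, e1, hΨ, hC (M * k)]
      ext x
      show redZ (M * k) (n' x) = mulZ M k (redZ M (nL' x))
      rw [mulZ_redZ, hnL']
    ext x
    exact mulZ_injective M k (by omega) (DFunLike.congr_fun e2 x)
  refine ⟨⟨L', hL', (zpowersHom (GL (Fin m) B) u).comp nL', Ψ, hΨ, ?_⟩⟩
  intro S _ _ π
  show Ψ.toFun (GL (Fin m) S) ((GLm π).comp ((zpowersHom (GL (Fin m) B) u).comp nL)) =
    (GLm π).comp ((zpowersHom (GL (Fin m) B) u).comp nL')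
  have hG : ∀ (H : Type) [Group H] (ν : H →* Multiplicative ℤ),
      (GLm π).comp ((zpowersHom (GL (Fin m) B) u).comp ν) = (pw (GLm π u)).comp ν := by
    intro H _ ν
    ext1 x
    show GLm π (zpowersHom (GL (Fin m) B) u (ν x)) = pw (GLm π u) (ν x)
    generalize ν x = z
    obtain ⟨z, rfl⟩ := Multiplicative.ofAdd.surjective z
    show GLm π (u ^ z) = (GLm π u) ^ z
    rw [map_zpow]
  rw [hG, hG]
  have hc : NeZero (Nat.card (GL (Fin m) S)) := ⟨Nat.card_pos.ne'⟩
  have hfc : Finite (Multiplicative (ZMod (Nat.card (GL (Fin m) S)))) :=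
    inferInstanceAs (Finite (ZMod (Nat.card (GL (Fin m) S))))
  obtain ⟨f, hf⟩ := exu_lift (Nat.card (GL (Fin m) S)) (GLm π u) pow_card_eq_one'
  have hH : ∀ (H : Type) [Group H] (ν : H →* Multiplicative ℤ),
      (pw (GLm π u)).comp ν = f.comp ((redZ (Nat.card (GL (Fin m) S))).comp ν) := by
    intro H _ ν
    ext1 x
    show pw (GLm π u) (ν x) = f (redZ _ (ν x))
    generalize ν x = z
    obtain ⟨z, rfl⟩ := Multiplicative.ofAdd.surjective z
    rw [pw_ofAdd, redZ_ofAdd, hf]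
  rw [hH, hH, Ψ.nat, hCL]

end

end Pool.Agent.F8.CG
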