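import Pool.Agent.Lib.MP_305fdd_al.F8.CG.StmTr

/-!
# MP_305fdd_al, congruence subgroups: matching of the tests (T_mt)
-/

set_option autoImplicit false

namespace Pool.Agent.F8.CG

open Pool.Agent.MP_305fdd_al Pool.Agent.Lib.MP_305fdd_al Pool.Agent.F2X Pool.Agent.F8
  Pool.Agent.F8.HN Pool.Agent.F8.NG.T

/-- the reverse correspondence -/
def Tmt_symm {G Λ B : Type} [Group G] [Group Λ] [CommRing B] {Φ : NatBij G Λ} {t : Tst G B}
    (M : MT Φ t) : MT Φ.symm M.tst where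
  L' := t.L
  fi := t.fi
  A' := t.A
  Ψ := M.Ψ.symm
  res := by
    intro Q _ _ f
    have h1 := M.res Q (Φ.invFun Q f)
    rw [Φ.right_inv] at h1
    show M.Ψ.invFun Q (f.comp M.L'.subtype) = (Φ.invFun Q f).comp t.L.subtype
    rw [← h1, M.Ψ.left_inv]
  tw := by
    intro S _ _ π
    have h1 := M.tw S π
    show M.Ψ.invFun (GL (Fin t.m) S) ((GLm π).comp M.A') = (GLm π).comp t.A
    rw [← h1, M.Ψ.left_inv]

theorem Tmt_comm {G Λ Q : Type} [Group G] [Group Λ] [Group Q] (σ : G →* Q) (σ' : Λ →* Q)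
    (h : σ'.range = σ.range) (g : G) (hg : g ∈ commutator G) :
    ∃ g' ∈ commutator Λ, σ' g' = σ g := by
  have h1 : (commutator G).map σ = (commutator Λ).map σ' := by
    rw [commutator_def, commutator_def, Subgroup.map_commutator, Subgroup.map_commutator,
      ← MonoidHom.range_eq_map, ← MonoidHom.range_eq_map, h]
  have h2 : σ g ∈ (commutator Λ).map σ' := by
    rw [← h1]
    exact Subgroup.mem_map_of_mem σ hg
  obtain ⟨g', hg', h3⟩ := h2
  exact ⟨g', hg', h3⟩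

theorem Tmt_one {G Λ B : Type} [Group G] [Group Λ] [CommRing B] (Φ : NatBij G Λ)
    (t : Tst G B) (M : MT Φ t) (S : Type) [CommRing S] [Finite S] (j : B →+* S) (ρ : G →* SL2 S)
    (h : HT t j ρ) : HT M.tst j (Φ.toFun _ ρ) := by
  constructor
  · obtain ⟨g, hg, g₁, hg₁, hW⟩ := h.irr
    have hr : ((Φ.toFun _ ρ).comp M.L'.subtype).range = (ρ.comp t.L.subtype).range := by
      rw [← M.res]
      exact M.Ψ.range_eq _
    obtain ⟨g', hg', e1⟩ := Tmt_comm _ _ hr g hg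
    obtain ⟨g₁', hg₁', e2⟩ := Tmt_comm _ _ hr g₁ hg₁
    refine ⟨g', hg', g₁', hg₁', ?_⟩
    have e3 : (Φ.toFun _ ρ) ((g' * g₁' * g'⁻¹ * g₁'⁻¹ : M.L') : Λ) =
        ρ ((g * g₁ * g⁻¹ * g₁⁻¹ : t.L) : G) := by
      have : ((Φ.toFun _ ρ).comp M.L'.subtype) (g' * g₁' * g'⁻¹ * g₁'⁻¹) =
          (ρ.comp t.L.subtype) (g * g₁ * g⁻¹ * g₁⁻¹) := by
        rw [map_mul, map_mul, map_mul, map_inv, map_inv, e1, e2, ← map_inv, ← map_inv,
          ← map_mul, ← map_mul, ← map_mul]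
      exact this
    intro h5
    apply hW
    rw [← e3]
    exact h5
  · obtain ⟨Θ, hΘ, y, hy⟩ := h.coc
    let P : t.L →* (Fin t.d → Q3 t.m S) :=
      ⟨⟨fun x i => Θ i x, by funext i; exact map_one (Θ i)⟩,
        fun a b => by funext i; exact map_mul (Θ i) a b⟩
    let P' : M.L' →* (Fin t.d → Q3 t.m S) := M.Ψ.toFun _ P
    have hP : ∀ i, (Pi.evalMonoidHom (fun _ : Fin t.d => Q3 t.m S) i).comp P' =
        M.Ψ.toFun _ (Θ i) := by
      intro i
      have h1 := M.Ψ.nat (Pi.evalMonoidHom (fun _ : Fin t.d => Q3 t.m S) i) P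
      rw [← h1]
      rfl
    have hr : P'.range = P.range := M.Ψ.range_eq P
    have hx : ∀ x : t.L, ∃ x' : M.L', P' x' = P x := by
      intro x
      have : P x ∈ P'.range := by
        rw [hr]
        exact ⟨x, rfl⟩
      exact this
    choose z hz using hx
    have k1 : ∀ i : Fin t.d, Q3.pH.comp (M.Ψ.toFun _ (Θ i)) =
        (Φ.toFun _ ρ).comp M.L'.subtype := by
      intro i
      have e1 := M.Ψ.nat Q3.pH (Θ i)
      rw [(hΘ i).1, M.res] at e1
      exact e1.symm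
    have k2 : ∀ i : Fin t.d, Q3.qH.comp (M.Ψ.toFun _ (Θ i)) = (GLm j).comp M.A' := by
      intro i
      have e1 := M.Ψ.nat Q3.qH (Θ i)
      rw [(hΘ i).2, M.tw] at e1
      exact e1.symm
    have e : dt (fun i x => ((M.Ψ.toFun _ (Θ i)) x).v)
        (fun l => (z (y l).1, (y l).2)) = dt (fun i x => (Θ i x).v) y := by
      unfold dt
      congr 1
      ext i l
      have h1 : P' (z (y l).1) i = Θ i (y l).1 := congrFun (hz (y l).1) i
      have h2 : (M.Ψ.toFun _ (Θ i)) (z (y l).1) = P' (z (y l).1) i := by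
        rw [← hP i]
        rfl
      show ((M.Ψ.toFun _ (Θ i)) (z (y l).1)).v (y l).2.1 (y l).2.2 =
        (Θ i (y l).1).v (y l).2.1 (y l).2.2
      rw [h2, h1]
    exact ⟨fun i => M.Ψ.toFun _ (Θ i), fun i => ⟨k1 i, k2 i⟩,
      fun l => (z (y l).1, (y l).2), fun h0 => hy (by rw [← e]; exact h0)⟩

theorem p_Tmt : T_mt := by
  intro G Λ B _ _ _ Φ t M S _ _ j ρ
  constructor
  · exact Tmt_one Φ t M S j ρ
  · intro h
    have h1 := Tmt_one Φ.symm M.tst (Tmt_symm M) S j (Φ.toFun _ ρ) h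
    have h2 : Φ.symm.toFun _ (Φ.toFun _ ρ) = ρ := Φ.left_inv _ ρ
    rw [h2] at h1
    exact h1

end Pool.Agent.F8.CG
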