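import Pool.Agent.Lib.MP_305fdd_al.F8.CG.StmTr
import Pool.Agent.Lib.MP_305fdd_al.F8.PT.RR
import Pool.Agent.Lib.MP_305fdd_al.F8.PT.RL
import Pool.Agent.Lib.MP_305fdd_al.F8.P.lz
import Pool.Agent.Lib.MP_305fdd_al.F8.P.mp

/-!
# MP_305fdd_al, congruence subgroups: piece CG Tpe
-/

set_option autoImplicit false

namespace Pool.Agent.F8.CG

open Pool.Agent.MP_305fdd_al Pool.Agent.Lib.MP_305fdd_al Pool.Agent.F2X Pool.Agent.F8
  Pool.Agent.F8.HN Pool.Agent.F8.NG.T

noncomputable section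

/-- the images of the elements of `A` are integral -/
theorem Tpe_int (p : ℕ) [Fact p.Prime] {A : Type} [CommRing A] [Module.Finite ℤ A]
    (j : A →+* Fl p) (a : A) : (iz p).IsIntegralElem (j a) := by
  have h0 : IsIntegral ℤ a := IsIntegral.of_finite ℤ a
  obtain ⟨f, hf, hf0⟩ := h0
  refine ⟨f.map (Int.castRingHom ℤ_[p]), hf.map _, ?_⟩
  rw [Polynomial.eval₂_map]
  have h1 : (iz p).comp (Int.castRingHom ℤ_[p]) = j.comp (algebraMap ℤ A) :=
    RingHom.ext_int _ _
  rw [h1, ← Polynomial.hom_eval₂, hf0, map_zero]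

/-- a homomorphism with values in the range of an injective one -/
theorem Tpe_fac {A R K : Type} [CommRing A] [CommRing R] [CommRing K] (ι : R →+* K)
    (hι : Function.Injective ι) (j : A →+* K) (h : ∀ a, ∃ y, ι y = j a) :
    ∃ j' : A →+* R, ι.comp j' = j := by
  choose y hy using h
  refine ⟨{ toFun := y, map_one' := ?_, map_mul' := ?_, map_zero' := ?_, map_add' := ?_ }, ?_⟩
  · apply hι
    rw [hy, map_one, map_one]
  · intro a b
    apply hι
    rw [map_mul, hy, hy, hy, map_mul]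
  · apply hι
    rw [hy, map_zero, map_zero]
  · intro a b
    apply hι
    rw [map_add, hy, hy, hy, map_add]
  · ext1 a
    exact hy a

/-- a good ring for `j` -/
theorem Tpe_ring (p : ℕ) [Fact p.Prime] {B : Type} [CommRing B] [Module.Finite ℤ B]
    (j : B →+* Fl p) : ∃ (R : Type) (_ : CommRing R) (ι : R →+* Fl p) (f : ℤ_[p] →+* R)
    (Rk : ℕ → Type) (_ : ∀ k, CommRing (Rk k)) (π : ∀ k, R →+* Rk k)
    (q : ∀ k, Rk (k + 1) →+* Rk k) (fk : ∀ k, ZMod (p ^ k) →+* Rk k) (j' : B →+* R),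
    LR p ι f π q fk ∧ ι.comp j' = j := by
  obtain ⟨N, s, hs⟩ := Module.Finite.exists_fin (R := ℤ) (M := B)
  obtain ⟨R, iR, ι, f, Rk, iRk, π, q, fk, hLR, hz⟩ := (p_RR (p_RL pf_lz)) p N
    (fun i => j (s i)) (fun i => Tpe_int p j _)
  obtain ⟨j', hj'⟩ : ∃ j' : B →+* R, ι.comp j' = j := by
    refine Tpe_fac ι hLR.inj j fun b => ?_
    let S : AddSubgroup B := (ι.range.toAddSubgroup).comap j.toAddMonoidHom
    have hle : (⊤ : Submodule ℤ B) ≤ AddSubgroup.toIntSubmodule S := by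
      rw [← hs, Submodule.span_le]
      rintro _ ⟨i, rfl⟩
      exact hz i
    exact hle (Submodule.mem_top : b ∈ (⊤ : Submodule ℤ B))
  exact ⟨R, iR, ι, f, Rk, iRk, π, q, fk, j', hLR, hj'⟩

/-- the image of the commutator subgroup depends only on the range -/
theorem Tpe_comm {L L' Q : Type} [Group L] [Group L'] [Group Q] (σ : L →* Q) (σ' : L' →* Q)
    (h : σ'.range = σ.range) (g : L) (hg : g ∈ commutator L) : ∃ g' ∈ commutator L', σ' g' = σ g := by
  have h1 : (commutator L).map σ = (commutator L').map σ' := by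
    rw [commutator_def, commutator_def, Subgroup.map_commutator, Subgroup.map_commutator,
      ← MonoidHom.range_eq_map, ← MonoidHom.range_eq_map, h]
  have h2 : σ g ∈ (commutator L').map σ' := by
    rw [← h1]
    exact Subgroup.mem_map_of_mem σ hg
  obtain ⟨g', hg', he⟩ := Subgroup.mem_map.1 h2
  exact ⟨g', hg', he⟩

theorem Tpe_SLm {R S T : Type} [CommRing R] [CommRing S] [CommRing T] (f : R →+* S)
    (g : S →+* T) {G : Type} [Group G] (σ : G →* SL2 R) :
    (SLm g).comp ((SLm f).comp σ) = (SLm (g.comp f)).comp σ := rfl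

theorem p_Tpe (hlh : T_lh) (hji : Pool.Agent.F8.NG.T.S_ji) : T_pe := by
  intro G Λ A B _ _ _ _ _ _ _ _ Φ ρ₀ e t M hT p _ r hr j
  obtain ⟨R, iR, ι, f, Rk, iRk, π, q, fk, j', hLR, hj'⟩ := Tpe_ring p j
  have hfin : ∀ k, Finite (Rk k) := hLR.fin
  have hι : Function.Injective ι := hLR.inj
  have hjinj : Function.Injective j := (hji B).1 (Fl p) j
  have hext : ∀ a b : R, (∀ k, π k a = π k b) → a = b := by
    intro a b hab
    obtain ⟨y, -, hy⟩ := hLR.lim.2 (fun k => π k b) (fun k => by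
      have := DFunLike.congr_fun (hLR.lim.1 k) b
      rwa [RingHom.comp_apply] at this)
    rw [hy a hab, hy b fun k => rfl]
  -- nonzero elements of `B` stay nonzero in some `Rk k`
  have hsep : ∀ δ : B, δ ≠ 0 → ∃ k, π k (j' δ) ≠ 0 := by
    intro δ hδ
    by_contra hc
    push Not at hc
    have h1 : j' δ = 0 := by
      apply hext
      intro k
      rw [hc k, map_zero]
    apply hδ
    apply hjinj
    rw [← hj', RingHom.comp_apply, h1, map_zero, map_zero]
  -- the representation `r` modulo `k`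
  have hrk : ∀ k, (SLm (π k)).comp ((SLm (jj f (j'.comp e))).comp r) =
      Φ.toFun _ ((SLm ((π k).comp (j'.comp e))).comp ρ₀) := by
    intro k
    have hj : (jj (fk k) ((π k).comp (j'.comp e))).comp (TM A (PadicInt.toZModPow k)) =
        (π k).comp (jj f (j'.comp e)) := by
      rw [jj_TM, comp_jj, hLR.ck k]
    have h1 : (SLm (π k)).comp ((SLm (jj f (j'.comp e))).comp r) =
        (SLm (jj (fk k) ((π k).comp (j'.comp e)))).comp
          ((SLm (TM A (PadicInt.toZModPow k))).comp r) := by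
      rw [Tpe_SLm, Tpe_SLm, hj]
    rw [h1, hr k, ← Φ.nat, jj_rA]
  have hrL : ∀ k, M.Ψ.toFun _ (((SLm ((π k).comp (j'.comp e))).comp ρ₀).comp t.L.subtype) =
      ((SLm (π k)).comp ((SLm (jj f (j'.comp e))).comp r)).comp M.L'.subtype := by
    intro k
    rw [M.res, hrk k]
  have hιjj : ι.comp (jj f (j'.comp e)) = jj (iz p) (j.comp e) := by
    rw [comp_jj, hLR.cf, ← RingHom.comp_assoc, hj']
  have hfinal : (SLm (jj (iz p) (j.comp e))).comp r =
      (SLm ι).comp ((SLm (jj f (j'.comp e))).comp r) := by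
    rw [Tpe_SLm, hιjj]
  constructor
  · -- irreducibility
    obtain ⟨g, hg, h, hh, hne⟩ := hT.irr
    set δ : B := tr (((SLm e).comp ρ₀) ((g * h * g⁻¹ * h⁻¹ : t.L) : G)) with hδ
    obtain ⟨k, hk⟩ := hsep (δ - 2) (sub_ne_zero.2 hne)
    have hrange := M.Ψ.range_eq (((SLm ((π k).comp (j'.comp e))).comp ρ₀).comp t.L.subtype)
    obtain ⟨g', hg', hge⟩ := Tpe_comm _ _ hrange g hg
    obtain ⟨h', hh', hhe⟩ := Tpe_comm _ _ hrange h hh
    refine ⟨g', hg', h', hh', ?_⟩
    intro h0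
    apply hk
    rw [hfinal] at h0
    have h1 : ι (tr (((SLm (jj f (j'.comp e))).comp r) ((g' * h' * g'⁻¹ * h'⁻¹ : M.L') : Λ))) =
        ι 2 := by
      rw [map_ofNat, ← h0]
      simp only [tr_eq, map_add]
      rfl
    have h2 := hι h1
    have h3 : M.Ψ.toFun _ (((SLm ((π k).comp (j'.comp e))).comp ρ₀).comp t.L.subtype)
        (g' * h' * g'⁻¹ * h'⁻¹) =
        (((SLm ((π k).comp (j'.comp e))).comp ρ₀).comp t.L.subtype) (g * h * g⁻¹ * h⁻¹) := by
      rw [map_mul, map_mul, map_mul, map_inv, map_inv, hge, hhe, map_mul, map_mul, map_mul,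
        map_inv, map_inv]
    rw [hrL k] at h3
    have h4 : π k (tr (((SLm (jj f (j'.comp e))).comp r)
        ((g' * h' * g'⁻¹ * h'⁻¹ : M.L') : Λ))) = π k (j' δ) := by
      have h5 := congrArg tr h3
      simp only [tr_eq] at h5
      rw [hδ]
      simp only [tr_eq, map_add]
      exact h5
    rw [map_sub, map_sub, ← h4, h2, map_ofNat, map_ofNat, map_ofNat, sub_self]
  · -- the cocycles
    obtain ⟨Θ, hΘ, y, hy⟩ := hT.coc
    let Θk : ∀ k, Fin t.d → (t.L →* Q3 t.m (Rk k)) := fun k i =>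
      (Q3.map ((π k).comp j')).comp (Θ i)
    have hcomp : ∀ i k, (Q3.map (q k)).comp (M.Ψ.toFun _ (Θk (k + 1) i)) =
        M.Ψ.toFun _ (Θk k i) := by
      intro i k
      rw [← M.Ψ.nat]
      have h1 : (Q3.map (q k)).comp (Θk (k + 1) i) = Θk k i := by
        ext1 x
        show Q3.map (q k) (Q3.map ((π (k + 1)).comp j') (Θ i x)) = Q3.map ((π k).comp j') (Θ i x)
        rw [Q3.map_map', ← RingHom.comp_assoc, hLR.lim.1 k]
      rw [h1]
    have hex : ∀ i, ∃ Θ' : M.L' →* Q3 t.m R, ∀ k, (Q3.map (π k)).comp Θ' =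
        M.Ψ.toFun _ (Θk k i) := fun i =>
      (hlh t.m R Rk π q hLR.lim).1 M.L' (fun k => M.Ψ.toFun _ (Θk k i)) (hcomp i)
    choose Θ' hΘ' using hex
    have hΘl : ∀ i k l, Q3.map (π k) (Θ' i l) = M.Ψ.toFun _ (Θk k i) l :=
      fun i k l => DFunLike.congr_fun (hΘ' i k) l
    have hpart : ∀ i, Q3.pH.comp (Θ' i) =
        ((SLm (jj f (j'.comp e))).comp r).comp M.L'.subtype := by
      intro i
      apply (hlh t.m R Rk π q hLR.lim).2.1
      intro k
      have h1 : (SLm (π k)).comp (Q3.pH.comp (Θ' i)) = Q3.pH.comp (M.Ψ.toFun _ (Θk k i)) := by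
        rw [← hΘ' i k]
        rfl
      have h2 : Q3.pH.comp (Θk k i) =
          ((SLm ((π k).comp (j'.comp e))).comp ρ₀).comp t.L.subtype := by
        have h3 : Q3.pH.comp (Θk k i) = (SLm ((π k).comp j')).comp (Q3.pH.comp (Θ i)) := rfl
        rw [h3, (hΘ i).1]
        rfl
      rw [h1, ← M.Ψ.nat, h2, hrL k]
      rfl
    have hqart : ∀ i, Q3.qH.comp (Θ' i) = (GLm j').comp M.A' := by
      intro i
      apply (hlh t.m R Rk π q hLR.lim).2.2
      intro k
      have h1 : (GLm (π k)).comp (Q3.qH.comp (Θ' i)) = Q3.qH.comp (M.Ψ.toFun _ (Θk k i)) := by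
        rw [← hΘ' i k]
        rfl
      have h2 : Q3.qH.comp (Θk k i) = (GLm ((π k).comp j')).comp t.A := by
        have h3 : Q3.qH.comp (Θk k i) = (GLm ((π k).comp j')).comp (Q3.qH.comp (Θ i)) := rfl
        rw [h3, (hΘ i).2]
        ext1 x
        apply Units.ext
        rfl
      rw [h1, ← M.Ψ.nat, h2, M.tw]
      rfl
    have hp2 : ∀ i, Q3.pH.comp ((Q3.map ι).comp (Θ' i)) =
        ((SLm (jj (iz p) (j.comp e))).comp r).comp M.L'.subtype := by
      intro i
      have h1 : Q3.pH.comp ((Q3.map ι).comp (Θ' i)) = (SLm ι).comp (Q3.pH.comp (Θ' i)) := rfl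
      rw [h1, hpart i, hfinal]
      rfl
    have hq2 : ∀ i, Q3.qH.comp ((Q3.map ι).comp (Θ' i)) = (GLm j).comp M.A' := by
      intro i
      have h1 : Q3.qH.comp ((Q3.map ι).comp (Θ' i)) = (GLm ι).comp (Q3.qH.comp (Θ' i)) := rfl
      have h2 : (GLm ι).comp ((GLm j').comp M.A') = (GLm (ι.comp j')).comp M.A' := rfl
      rw [h1, hqart i, h2, hj']
    refine ⟨fun i => (Q3.map ι).comp (Θ' i), fun i => ⟨hp2 i, hq2 i⟩, ?_⟩
    · -- the points
      obtain ⟨k, hk⟩ := hsep _ hy
      let P : t.L →* (∀ i : Fin t.d, Q3 t.m (Rk k)) := MonoidHom.pi fun i => Θk k i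
      have hP : ∀ l : Fin t.d, ∃ x' : M.L', M.Ψ.toFun _ P x' = P (y l).1 := by
        intro l
        have h1 : P (y l).1 ∈ (M.Ψ.toFun _ P).range := by
          rw [M.Ψ.range_eq P]
          exact ⟨_, rfl⟩
        exact h1
      choose x' hx' using hP
      have hcomp2 : ∀ i l, M.Ψ.toFun _ (Θk k i) (x' l) = Θk k i (y l).1 := by
        intro i l
        have h1 : (Pi.evalMonoidHom (fun _ : Fin t.d => Q3 t.m (Rk k)) i).comp P = Θk k i := rfl
        have h2 := M.Ψ.nat (Pi.evalMonoidHom (fun _ : Fin t.d => Q3 t.m (Rk k)) i) P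
        rw [h1] at h2
        rw [h2]
        show (M.Ψ.toFun _ P (x' l)) i = _
        rw [hx' l]
        rfl
      refine ⟨fun l => (x' l, (y l).2), ?_⟩
      intro h0
      apply hk
      have h1 : dt (fun i x => ((Q3.map ι).comp (Θ' i) x).v) (fun l => (x' l, (y l).2)) =
          ι (dt (fun i x => (Θ' i x).v) (fun l => (x' l, (y l).2))) := by
        rw [← dt_map]
        rfl
      have h2 : dt (fun i x => (Θ' i x).v) (fun l => (x' l, (y l).2)) = 0 := by
        apply hι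
        rw [← h1, map_zero]
        exact h0
      have h3 : π k (dt (fun i x => (Θ' i x).v) (fun l => (x' l, (y l).2))) =
          π k (j' (dt (fun i x => (Θ i x).v) y)) := by
        rw [← dt_map, ← RingHom.comp_apply, ← dt_map]
        unfold dt
        congr 1
        ext i l
        show ((Q3.map (π k) (Θ' i (x' l))).v) (y l).2.1 (y l).2.2 =
          ((Θk k i (y l).1).v) (y l).2.1 (y l).2.2
        rw [hΘl, hcomp2]
      rw [← h3, h2, map_zero]

end

end Pool.Agent.F8.CG
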