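import Pool.Agent.Lib.MP_305fdd_al.F8.CG.StmTr

/-!
# MP_305fdd_al, congruence subgroups: a representation over the algebraic closure of the rational numbers
-/

set_option autoImplicit false

namespace Pool.Agent.F8.CG

open Pool.Agent.MP_305fdd_al Pool.Agent.Lib.MP_305fdd_al Pool.Agent.F2X Pool.Agent.F8
  Pool.Agent.F8.HN Pool.Agent.F8.NG.T

noncomputable section

/-- a representation over the algebraic closure of the rational numbers which passes the tests -/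
theorem p_Tq (hpe : T_pe) (hsb : T_sb) (hspk : T_spk) (hrL : NG.T.S_rL) (hexj : NG.T.S_exj) :
    T_q := by
  intro G Λ A B _ _ _ _ _ _ _ _ _ _ _ Φ ρ₀ e N t hTH M
  have : Fact (Nat.Prime 2) := ⟨Nat.prime_two⟩
  obtain ⟨r, hr⟩ := hrL G Λ Φ A ρ₀ 2
  obtain ⟨j, -⟩ := hexj B 2
  have h1 : ∀ n, HT (M n).tst j ((SLm (jj (iz 2) (j.comp e))).comp r) := fun n =>
    hpe G Λ A B Φ ρ₀ e (t n) (M n) (hTH.ex n) 2 r hr j
  obtain ⟨X, hX, h2⟩ := hsb Λ B N (fun n => (M n).tst) (Fl 2) j _ h1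
  obtain ⟨R, hXR, -, ⟨π⟩⟩ := hspk (Fl 2) X hX 1 one_ne_zero
  obtain ⟨j', ρ', -, -, h3⟩ := h2 R hXR
  exact ⟨π.comp j', (SLm π).comp ρ', fun n => h3 (AlgebraicClosure ℚ) π n⟩

end

end Pool.Agent.F8.CG
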