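import Pool.Agent.Lib.MP_305fdd_al.F8.CG.StmTr

/-!
# MP_305fdd_al, congruence subgroups: piece Tsb, descent of the tests to subrings
-/

set_option autoImplicit false

namespace Pool.Agent.F8.CG

open Pool.Agent.MP_305fdd_al Pool.Agent.Lib.MP_305fdd_al Pool.Agent.F2X Pool.Agent.F8
  Pool.Agent.F8.HN Pool.Agent.F8.NG.T

noncomputable section

theorem Tsb_lift {Γ H H' : Type} [Group Γ] [Group H] [Group H'] (φ : H →* H')
    (hφ : Function.Injective φ) (ρ : Γ →* H') (S : Set Γ) (hS : Subgroup.closure S = ⊤)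
    (h : ∀ g ∈ S, ρ g ∈ φ.range) : ∃ ρ' : Γ →* H, φ.comp ρ' = ρ := by
  have h1 : ∀ g, ρ g ∈ φ.range := by
    intro g
    have h2 : Subgroup.closure S ≤ φ.range.comap ρ := (Subgroup.closure_le _).2 h
    rw [hS] at h2
    exact h2 (Subgroup.mem_top g)
  refine ⟨(MonoidHom.ofInjective hφ).symm.toMonoidHom.comp (ρ.codRestrict φ.range h1), ?_⟩
  apply MonoidHom.ext
  intro g
  have h3 := (MonoidHom.ofInjective hφ).apply_symm_apply ⟨ρ g, h1 g⟩
  exact congrArg Subtype.val h3

/-! ### Injectivity of base change -/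

theorem Tsb_SLinj {R S : Type} [CommRing R] [CommRing S] (f : R →+* S)
    (hf : Function.Injective f) : Function.Injective (SLm f) := by
  intro x y h
  apply Subtype.ext
  ext i j
  apply hf
  have h1 := congrArg (fun z : SL2 S => z.val i j) h
  exact h1

theorem Tsb_GLinj {m : ℕ} {R S : Type} [CommRing R] [CommRing S] (f : R →+* S)
    (hf : Function.Injective f) : Function.Injective (GLm (m := m) f) := by
  intro x y h
  apply Units.ext
  ext i j
  apply hf
  have h1 := congrArg (fun z : GL (Fin m) S => z.val i j) h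
  exact h1

theorem Tsb_Qinj {m : ℕ} {R S : Type} [CommRing R] [CommRing S] (f : R →+* S)
    (hf : Function.Injective f) : Function.Injective (Q3.map (m := m) f) := by
  intro x y h
  apply Q3.ext
  · exact Tsb_GLinj f hf (congrArg Q3.q h)
  · exact Tsb_SLinj f hf (congrArg Q3.p h)
  · ext i j
    apply hf
    have h1 := congrArg (fun z : Q3 m S => z.v i j) h
    exact h1

/-! ### Ranges -/

section Range

variable {K : Type} [Field K] (R : Subring K)

theorem Tsb_SL (x : SL2 K) (h : ∀ i j, x.val i j ∈ R) : x ∈ (SLm R.subtype).range := by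
  let M : Matrix (Fin 2) (Fin 2) R := Matrix.of fun i j => ⟨x.val i j, h i j⟩
  have hM : M.map R.subtype = x.val := by
    ext i j
    rfl
  have hd : M.det = 1 := by
    apply Subtype.val_injective
    have h1 : R.subtype M.det = (M.map R.subtype).det := RingHom.map_det R.subtype M
    rw [hM, x.2] at h1
    exact h1
  refine ⟨⟨M, hd⟩, ?_⟩
  apply Subtype.ext
  exact hM

theorem Tsb_GL {m : ℕ} (x : GL (Fin m) K) (h : ∀ i j, x.val i j ∈ R)
    (h' : ∀ i j, (x⁻¹).val i j ∈ R) : x ∈ (GLm (m := m) R.subtype).range := by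
  let M : Matrix (Fin m) (Fin m) R := Matrix.of fun i j => ⟨x.val i j, h i j⟩
  let N : Matrix (Fin m) (Fin m) R := Matrix.of fun i j => ⟨(x⁻¹).val i j, h' i j⟩
  have hM : M.map R.subtype = x.val := by
    ext i j
    rfl
  have hN : N.map R.subtype = (x⁻¹).val := by
    ext i j
    rfl
  have hinj : Function.Injective
      (fun Z : Matrix (Fin m) (Fin m) R => Z.map (R.subtype : R → K)) :=
    Matrix.map_injective Subtype.val_injective
  have h1 : M * N = 1 := by
    apply hinj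
    show (M * N).map R.subtype = (1 : Matrix (Fin m) (Fin m) R).map R.subtype
    rw [Matrix.map_mul, hM, hN, Matrix.map_one _ (map_zero _) (map_one _)]
    exact x.mul_inv
  have h2 : N * M = 1 := by
    apply hinj
    show (N * M).map R.subtype = (1 : Matrix (Fin m) (Fin m) R).map R.subtype
    rw [Matrix.map_mul, hM, hN, Matrix.map_one _ (map_zero _) (map_one _)]
    exact x.inv_mul
  refine ⟨⟨M, N, h1, h2⟩, ?_⟩
  apply Units.ext
  exact hM

/-- the entries -/
def Tsb_eQ {m : ℕ} (x : Q3 m K) : Set K :=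
  ((Set.range fun z : Fin m × Fin m => x.q.val z.1 z.2) ∪
    (Set.range fun z : Fin m × Fin m => (x.q⁻¹).val z.1 z.2)) ∪
  ((Set.range fun z : Fin 2 × Fin 2 => x.p.val z.1 z.2) ∪
    (Set.range fun z : Fin 2 × Fin m => x.v z.1 z.2))

theorem Tsb_eQ_fin {m : ℕ} (x : Q3 m K) : (Tsb_eQ x).Finite :=
  ((Set.finite_range _).union (Set.finite_range _)).union
    ((Set.finite_range _).union (Set.finite_range _))

theorem Tsb_Q {m : ℕ} (x : Q3 m K) (h : Tsb_eQ x ⊆ R) :
    x ∈ (Q3.map (m := m) R.subtype).range := by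
  obtain ⟨q, hq⟩ := Tsb_GL R x.q (fun i j => h (Or.inl (Or.inl ⟨(i, j), rfl⟩)))
    (fun i j => h (Or.inl (Or.inr ⟨(i, j), rfl⟩)))
  obtain ⟨p, hp⟩ := Tsb_SL R x.p (fun i j => h (Or.inr (Or.inl ⟨(i, j), rfl⟩)))
  refine ⟨⟨q, p, Matrix.of fun i j => ⟨x.v i j, h (Or.inr (Or.inr ⟨(i, j), rfl⟩))⟩⟩, ?_⟩
  apply Q3.ext
  · exact hq
  · exact hp
  · ext i j
    rfl

theorem Tsb_unit {k : Type} [Field k] (π : R →+* k) (a : R) (h0 : (a : K) ≠ 0)
    (hi : (a : K)⁻¹ ∈ R) : π a ≠ 0 := by
  intro h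
  have h1 : a * ⟨(a : K)⁻¹, hi⟩ = 1 := by
    apply Subtype.ext
    exact mul_inv_cancel₀ h0
  have h2 := congrArg π h1
  rw [map_mul, h, zero_mul, map_one] at h2
  exact zero_ne_one h2

end Range

theorem p_Tsb : T_sb := by
  intro Λ B _ hΛ _ _ N t K _ j ρ H
  choose g hg h hh hirr using fun n => (H n).irr
  choose Θ hΘ y hy using fun n => (H n).coc
  obtain ⟨S0, hS0, hS0f⟩ := Group.fg_iff.1 hΛ
  have hL : ∀ n, ∃ S : Set (t n).L, Subgroup.closure S = ⊤ ∧ S.Finite := by
    intro n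
    have := (t n).fi
    exact Group.fg_iff.1 (inferInstance : Group.FG (t n).L)
  choose S hS hSf using hL
  obtain ⟨b, hb⟩ : (⊤ : Submodule ℤ B).FG := Module.Finite.fg_top
  refine ⟨((⋃ x ∈ S0, Set.range fun z : Fin 2 × Fin 2 => (ρ x).val z.1 z.2) ∪
      ((⋃ n, ⋃ i, ⋃ x ∈ S n, Tsb_eQ (Θ n i x)) ∪ (fun x => j x) '' (b : Set B))) ∪
    ((Set.range fun n => (tr (ρ ((g n * h n * (g n)⁻¹ * (h n)⁻¹ : (t n).L) : Λ)) - 2)⁻¹) ∪
      (Set.range fun n => (dt (fun i x => (Θ n i x).v) (y n))⁻¹)), ?_, ?_⟩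
  · refine ((hS0f.biUnion fun x _ => Set.finite_range _).union
      ((Set.finite_iUnion fun n => Set.finite_iUnion fun i =>
        (hSf n).biUnion fun x _ => Tsb_eQ_fin _).union (b.finite_toSet.image _))).union
      ((Set.finite_range _).union (Set.finite_range _))
  intro R hX
  have hj : ∀ x, j x ∈ R := by
    intro x
    have hx : x ∈ Submodule.span ℤ (b : Set B) := by
      rw [hb]
      exact Submodule.mem_top
    induction hx using Submodule.span_induction with
    | mem x hx => exact hX (Or.inl (Or.inr (Or.inr ⟨x, hx, rfl⟩)))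
    | zero =>
      rw [map_zero]
      exact R.zero_mem
    | add x y _ _ h1 h2 =>
      rw [map_add]
      exact R.add_mem h1 h2
    | smul n x _ h1 =>
      rw [map_zsmul]
      exact zsmul_mem h1 n
  have hRi : Function.Injective (R.subtype : R → K) := Subtype.val_injective
  obtain ⟨ρ', hρ'⟩ := Tsb_lift (SLm R.subtype) (Tsb_SLinj _ hRi) ρ S0 hS0 (by
    intro x hx
    apply Tsb_SL
    intro i k
    exact hX (Or.inl (Or.inl (Set.mem_biUnion hx ⟨(i, k), rfl⟩))))
  have hΘ' : ∀ n i, ∃ Θ' : (t n).L →* Q3 (t n).m R, (Q3.map R.subtype).comp Θ' = Θ n i := by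
    intro n i
    apply Tsb_lift (Q3.map R.subtype) (Tsb_Qinj _ hRi) (Θ n i) (S n) (hS n)
    intro x hx
    apply Tsb_Q
    intro z hz
    exact hX (Or.inl (Or.inr (Or.inl (Set.mem_iUnion.2 ⟨n, Set.mem_iUnion.2 ⟨i,
      Set.mem_biUnion hx hz⟩⟩))))
  choose Θ' hΘ' using hΘ'
  refine ⟨j.codRestrict R hj, ρ', ?_, hρ', ?_⟩
  · ext x
    rfl
  intro k _ π n
  refine ⟨⟨g n, hg n, h n, hh n, ?_⟩, fun i => (Q3.map π).comp (Θ' n i), ?_, y n, ?_⟩
  · intro h0
    have e1 : ((tr (ρ' ((g n * h n * (g n)⁻¹ * (h n)⁻¹ : (t n).L) : Λ)) : R) : K) =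
        tr (ρ ((g n * h n * (g n)⁻¹ * (h n)⁻¹ : (t n).L) : Λ)) := by
      rw [← hρ']
      exact (tr_map R.subtype _).symm
    have e2 : ((tr (ρ' ((g n * h n * (g n)⁻¹ * (h n)⁻¹ : (t n).L) : Λ)) - 2 : R) : K) =
        tr (ρ ((g n * h n * (g n)⁻¹ * (h n)⁻¹ : (t n).L) : Λ)) - 2 := by
      rw [← e1]
      rfl
    have e3 := Tsb_unit R π (tr (ρ' ((g n * h n * (g n)⁻¹ * (h n)⁻¹ : (t n).L) : Λ)) - 2)
      (by
        rw [e2]
        exact sub_ne_zero.2 (hirr n))
      (by
        rw [e2]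
        exact hX (Or.inr (Or.inl ⟨n, rfl⟩)))
    apply e3
    have e4 : tr (SLm π (ρ' ((g n * h n * (g n)⁻¹ * (h n)⁻¹ : (t n).L) : Λ))) = 2 := h0
    rw [map_sub, ← tr_map, e4, map_ofNat, sub_self]
  · intro i
    obtain ⟨h1, h2⟩ := hΘ n i
    constructor
    · apply MonoidHom.ext
      intro x
      show SLm π (Θ' n i x).p = SLm π (ρ' x)
      congr 1
      apply Tsb_SLinj R.subtype hRi
      have e1 : (Θ n i x).p = ρ x := DFunLike.congr_fun h1 x
      rw [← hΘ' n i, ← hρ'] at e1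
      exact e1
    · apply MonoidHom.ext
      intro x
      show GLm π (Θ' n i x).q = GLm (π.comp (j.codRestrict R hj)) ((t n).A x)
      have e2 : (Θ' n i x).q = GLm (j.codRestrict R hj) ((t n).A x) := by
        apply Tsb_GLinj R.subtype hRi
        have e1 : (Θ n i x).q = GLm j ((t n).A x) := DFunLike.congr_fun h2 x
        rw [← hΘ' n i] at e1
        have e3 : GLm R.subtype (Θ' n i x).q = GLm j ((t n).A x) := e1
        rw [e3]
        apply Units.ext
        ext a c
        rfl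
      rw [e2]
      apply Units.ext
      ext a c
      rfl
  · have e1 : dt (fun i x => ((Q3.map π).comp (Θ' n i) x).v) (y n) =
        π (dt (fun i x => (Θ' n i x).v) (y n)) := dt_map π _ _
    have e2 : ((dt (fun i x => (Θ' n i x).v) (y n) : R) : K) =
        dt (fun i x => (Θ n i x).v) (y n) := by
      have e3 : (fun i x => (Θ n i x).v) =
          fun (i : Fin (t n).d) (x : (t n).L) => ((Θ' n i x).v).map R.subtype := by
        funext i x
        rw [← hΘ' n i]
        rfl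
      rw [e3, dt_map]
      rfl
    rw [e1]
    apply Tsb_unit R π
    · rw [e2]
      exact hy n
    · rw [e2]
      exact hX (Or.inr (Or.inr ⟨n, rfl⟩))

end

end Pool.Agent.F8.CG
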