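import Pool.Agent.Lib.MP_305fdd_al.F8.CG.StmTr
import Pool.Agent.Lib.MP_305fdd_al.Rep.Krull

/-!
# MP_305fdd_al, congruence subgroups: piece [CG T_spk], finitely generated rings
-/

set_option autoImplicit false

namespace Pool.Agent.F8.CG

open Pool.Agent.MP_305fdd_al Pool.Agent.Lib.MP_305fdd_al Pool.Agent.F2X Pool.Agent.F8
  Pool.Agent.F8.NG.T

private theorem Tspk_finite (R : Type) [CommRing R] [Algebra.FiniteType ℤ R] (𝔪 : Ideal R)
    (h𝔪 : 𝔪.IsMaximal) : Finite (R ⧸ 𝔪) := by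
  let F : Field (R ⧸ 𝔪) := Ideal.Quotient.field 𝔪
  have h1 : @Algebra.FiniteType ℤ (R ⧸ 𝔪) _ _
      (@Ring.toIntAlgebra (R ⧸ 𝔪) F.toDivisionRing.toRing) := by
    have h2 : Algebra.FiniteType ℤ (R ⧸ 𝔪) :=
      Algebra.FiniteType.of_surjective (Ideal.Quotient.mkₐ ℤ 𝔪) (Ideal.Quotient.mkₐ_surjective ℤ 𝔪)
    convert h2
    · rfl
    · exact Subsingleton.elim _ _
  exact @Pool.Agent.Lib.MP_305fdd_al.Rep.finite_of_finiteType (R ⧸ 𝔪) F h1

/-- a nonzero finitely generated `ℚ`-algebra has a homomorphism to the algebraic closure of `ℚ` -/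
private theorem Tspk_alg (B : Type) [CommRing B] [Nontrivial B] [Algebra ℚ B]
    (hB : Algebra.FiniteType ℚ B) : Nonempty (B →+* AlgebraicClosure ℚ) := by
  obtain ⟨I, hI⟩ := Ideal.exists_maximal B
  let _ : Field (B ⧸ I) := Ideal.Quotient.field I
  have hq : Algebra.FiniteType ℚ (B ⧸ I) :=
    Algebra.FiniteType.of_surjective (Ideal.Quotient.mkₐ ℚ I) (Ideal.Quotient.mkₐ_surjective ℚ I)
  have hfin : Module.Finite ℚ (B ⧸ I) := finite_of_finite_type_of_isJacobsonRing ℚ (B ⧸ I)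
  have halg : Algebra.IsAlgebraic ℚ (B ⧸ I) := Algebra.IsAlgebraic.of_finite ℚ (B ⧸ I)
  let l : (B ⧸ I) →ₐ[ℚ] AlgebraicClosure ℚ := IsAlgClosed.lift
  exact ⟨l.toRingHom.comp (Ideal.Quotient.mk I)⟩

/-- a subring of a field of characteristic zero which is finitely generated over `ℤ` has a
homomorphism to the algebraic closure of `ℚ` -/
private theorem Tspk_hom (K : Type) [Field K] [CharZero K] (R : Subring K)
    (hft : Algebra.FiniteType ℤ R) : Nonempty (R →+* AlgebraicClosure ℚ) := by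
  classical
  obtain ⟨s, hs⟩ := hft.out
  let B : Subalgebra ℚ K := Algebra.adjoin ℚ (((s.image (Subtype.val : R → K)) : Finset K) : Set K)
  have hB : Algebra.FiniteType ℚ B :=
    (Subalgebra.fg_iff_finiteType B).1 (Subalgebra.fg_adjoin_finset _)
  have hRB : ∀ y : R, (y : K) ∈ B := by
    intro y
    have hy : y ∈ Algebra.adjoin ℤ (s : Set R) := by rw [hs]; exact Algebra.mem_top
    induction hy using Algebra.adjoin_induction with
    | mem z hz =>
      apply Algebra.subset_adjoin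
      rw [Finset.coe_image]
      exact ⟨z, hz, rfl⟩
    | algebraMap r =>
      have : ((algebraMap ℤ R r : R) : K) = (r : K) := by simp
      rw [this]
      exact intCast_mem B r
    | add u v _ _ hu hv => exact B.add_mem hu hv
    | mul u v _ _ hu hv => exact B.mul_mem hu hv
  let j : R →+* B := R.subtype.codRestrict B.toSubring hRB
  obtain ⟨l⟩ := Tspk_alg B hB
  exact ⟨l.comp j⟩

/-- [CG T_spk] finitely generated rings -/
theorem p_Tspk : T_spk := by
  intro K _ _ X hX M hM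
  let A : Subalgebra ℤ K := Algebra.adjoin ℤ (X ∪ {(M : K)⁻¹})
  have hfA : Algebra.FiniteType ℤ A :=
    (Subalgebra.fg_iff_finiteType A).1
      ((Subalgebra.fg_def).2 ⟨_, hX.union (Set.finite_singleton _), rfl⟩)
  let R : Subring K := A.toSubring
  have hft : Algebra.FiniteType ℤ R := hfA
  have hsub : X ∪ {(M : K)⁻¹} ⊆ R := fun x hx => Algebra.subset_adjoin hx
  refine ⟨R, fun x hx => hsub (Or.inl hx), ?_, Tspk_hom K R hft⟩
  obtain ⟨𝔪, h𝔪⟩ := Ideal.exists_maximal R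
  have hfin : Finite (R ⧸ 𝔪) := @Tspk_finite R _ hft 𝔪 h𝔪
  refine ⟨R ⧸ 𝔪, Ideal.Quotient.field 𝔪, hfin, ?_, ⟨Ideal.Quotient.mk 𝔪⟩⟩
  have hinv : (M : K)⁻¹ ∈ R := hsub (Or.inr rfl)
  have hmul : (M : R) * ⟨(M : K)⁻¹, hinv⟩ = 1 := by
    apply Subtype.ext
    have h1 : (M : K) ≠ 0 := Nat.cast_ne_zero.2 hM
    exact mul_inv_cancel₀ h1
  intro h0
  have h2 : (Ideal.Quotient.mk 𝔪) (M : R) = 0 := by
    rw [map_natCast]
    exact h0
  have hmem : (M : R) ∈ 𝔪 := Ideal.Quotient.eq_zero_iff_mem.1 h2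
  apply h𝔪.ne_top
  rw [Ideal.eq_top_iff_one, ← hmul]
  exact 𝔪.mul_mem_right _ hmem

end Pool.Agent.F8.CG
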