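import Pool.Agent.Lib.MP_305fdd_al.F8.CG.StmTr
import Pool.Agent.Lib.MP_305fdd_al.F8.P.mp

/-!
# MP_305fdd_al, congruence subgroups: piece [CG Tun1], uniqueness for `Λ` over finite fields
-/

set_option autoImplicit false

namespace Pool.Agent.F8.CG

open Pool.Agent.MP_305fdd_al Pool.Agent.Lib.MP_305fdd_al Pool.Agent.F2X Pool.Agent.F8
  Pool.Agent.F8.HN Pool.Agent.F8.NG.T

theorem p_Tun1 (hmt : T_mt) : T_un1 := by
  intro G Λ A B _ _ _ _ Φ ρ₀ e N t hTH M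
  obtain ⟨m₀, hm, hu⟩ := hTH.un
  refine ⟨m₀, hm, ?_⟩
  intro k _ _ hk j j' hjj ρ ρ' hρ hρ' l
  have e1 : Φ.toFun _ (Φ.invFun _ ρ) = ρ := Φ.right_inv _ ρ
  have e2 : Φ.toFun _ (Φ.invFun _ ρ') = ρ' := Φ.right_inv _ ρ'
  have h1 : ∀ g, tr (Φ.invFun _ ρ g) = j (e (tr (ρ₀ g))) := by
    apply hu k hk j
    intro n
    apply (hmt G Λ B Φ (t n) (M n) k j (Φ.invFun _ ρ)).2
    rw [e1]
    exact hρ n
  have h2 : ∀ g, tr (Φ.invFun _ ρ' g) = j' (e (tr (ρ₀ g))) := by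
    apply hu k hk j'
    intro n
    apply (hmt G Λ B Φ (t n) (M n) k j' (Φ.invFun _ ρ')).2
    rw [e2]
    exact hρ' n
  obtain ⟨g, hg1, hg2⟩ := (pf_mp G Λ Φ _ _ (Φ.invFun _ ρ) (Φ.invFun _ ρ')).2 l
  rw [e1] at hg1
  rw [e2] at hg2
  rw [hg1, hg2, h1, h2]
  exact DFunLike.congr_fun hjj (tr (ρ₀ g))

end Pool.Agent.F8.CG
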