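import Pool.Agent.Lib.MP_305fdd_al.F8.CG.StmTr

set_option autoImplicit false

namespace Pool.Agent.F8.CG

open Pool.Agent.MP_305fdd_al Pool.Agent.Lib.MP_305fdd_al Pool.Agent.F2X Pool.Agent.F8
  Pool.Agent.F8.NG.T

theorem p_Tun2 (hun : T_un1) (hsb : T_sb) (hspk : T_spk) : T_un2 := by
  intro G Λ A B _ _ _ _ _ _ Φ ρ₀ e N t hTH M K _ _ j j' hj ρ ρ' hρ hρ' l
  by_contra hne
  have hd : tr (ρ l) - tr (ρ' l) ≠ 0 := sub_ne_zero.2 hne
  obtain ⟨X, hX, hXR⟩ := hsb Λ B N (fun n => (M n).tst) K j ρ hρ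
  obtain ⟨X', hX', hXR'⟩ := hsb Λ B N (fun n => (M n).tst) K j' ρ' hρ'
  obtain ⟨m₀, hm₀, hm⟩ := hun G Λ A B Φ ρ₀ e N t hTH M
  obtain ⟨R, hsub, ⟨k, _, _, hk, ⟨π⟩⟩, -⟩ :=
    hspk K ((X ∪ X') ∪ {(tr (ρ l) - tr (ρ' l))⁻¹}) ((hX.union hX').union (Set.finite_singleton _))
      m₀ hm₀
  obtain ⟨jR, ρR, h1, h2, h3⟩ :=
    hXR R ((Set.subset_union_left.trans Set.subset_union_left).trans hsub)
  obtain ⟨jR', ρR', h1', h2', h3'⟩ :=
    hXR' R ((Set.subset_union_right.trans Set.subset_union_left).trans hsub)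
  have hc : (tr (ρ l) - tr (ρ' l))⁻¹ ∈ R := hsub (Or.inr rfl)
  have hinj : Function.Injective R.subtype := Subtype.val_injective
  have hjR : jR.comp e = jR'.comp e := by
    ext x
    have h4 := DFunLike.congr_fun hj x
    have h5 : R.subtype (jR (e x)) = R.subtype (jR' (e x)) := by
      have h6 : R.subtype (jR (e x)) = j (e x) := DFunLike.congr_fun h1 (e x)
      have h7 : R.subtype (jR' (e x)) = j' (e x) := DFunLike.congr_fun h1' (e x)
      rw [h6, h7]
      exact h4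
    exact h5
  have h6 : (π.comp jR).comp e = (π.comp jR').comp e := by
    rw [RingHom.comp_assoc, RingHom.comp_assoc, hjR]
  have h7 := hm k hk (π.comp jR) (π.comp jR') h6 ((SLm π).comp ρR) ((SLm π).comp ρR')
    (fun n => h3 k π n) (fun n => h3' k π n) l
  have h8 : π (tr (ρR l) - tr (ρR' l)) = 0 := by
    rw [map_sub, sub_eq_zero]
    have e1 : tr (((SLm π).comp ρR) l) = π (tr (ρR l)) := tr_map _ _
    have e2 : tr (((SLm π).comp ρR') l) = π (tr (ρR' l)) := tr_map _ _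
    rw [← e1, ← e2]
    exact h7
  have h9 : (tr (ρR l) - tr (ρR' l)) * ⟨_, hc⟩ = 1 := by
    apply hinj
    rw [map_mul, map_sub, map_one]
    have e1 : R.subtype (tr (ρR l)) = tr (ρ l) := by
      have : tr (((SLm R.subtype).comp ρR) l) = R.subtype (tr (ρR l)) := tr_map _ _
      rw [← this, h2]
    have e2 : R.subtype (tr (ρR' l)) = tr (ρ' l) := by
      have : tr (((SLm R.subtype).comp ρR') l) = R.subtype (tr (ρR' l)) := tr_map _ _
      rw [← this, h2']
    rw [e1, e2]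
    exact mul_inv_cancel₀ hd
  have h10 := congrArg π h9
  rw [map_mul, h8, zero_mul, map_one] at h10
  exact zero_ne_one h10

end Pool.Agent.F8.CG
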