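import Pool.Agent.Lib.MP_305fdd_al.F8.CG.StmTr

/-!
# MP_305fdd_al, project CG, piece Tval: the values are in `A`
-/

set_option autoImplicit false

namespace Pool.Agent.F8.CG

open Pool.Agent.MP_305fdd_al Pool.Agent.Lib.MP_305fdd_al Pool.Agent.F2X Pool.Agent.F8
  Pool.Agent.F8.HN Pool.Agent.F8.NG.T
open scoped TensorProduct

noncomputable section

theorem p_Tval (hun : T_un2) (hfct : T_fct) (hpe : T_pe) (hext : T_ext) (hgl : NG.T.S_gl)
    (hemb : NG.T.S_emb) (hsep : NG.T.S_sep) (hdiv : NG.T.S_div) : T_val := by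
  intro G Λ A B _ _ _ _ _ _ _ _ _ _ _ Φ ρ₀ e N t hTH M j s hs r hr l
  have h1 : ∀ g : AlgebraicClosure ℚ ≃ₐ[ℚ] AlgebraicClosure ℚ,
      (∀ y, g ((j.comp e) y) = (j.comp e) y) → g (tr (s l)) = tr (s l) := by
    intro g hg
    have h : ∀ n, HT (M n).tst ((g : AlgebraicClosure ℚ →+* AlgebraicClosure ℚ).comp j)
        ((SLm (g : AlgebraicClosure ℚ →+* AlgebraicClosure ℚ)).comp s) := fun n =>
      hfct Λ B _ _ (M n).tst (g : AlgebraicClosure ℚ →+* AlgebraicClosure ℚ)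
        (RingHom.injective _) j s (hs n)
    have hj : ((g : AlgebraicClosure ℚ →+* AlgebraicClosure ℚ).comp j).comp e = j.comp e :=
      RingHom.ext hg
    have h2 := hun G Λ A B Φ ρ₀ e N t hTH M _ _ j hj _ _ h hs l
    rw [MonoidHom.comp_apply, tr_map] at h2
    exact h2
  obtain ⟨m, y, hm, hy⟩ := hgl A (j.comp e) (tr (s l)) h1
  have h2 : ∀ (p : ℕ) [Fact p.Prime], (m : AT ℤ_[p] A) * tr (r p l) = ia ℤ_[p] A y := by
    intro p _
    rw [← sub_eq_zero]
    apply hsep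
    intro i
    obtain ⟨ι, hι⟩ := hemb A p (j.comp e) i
    obtain ⟨j', hj'⟩ := hext A B e p i
    have h : ∀ n, HT (M n).tst (ι.comp j) ((SLm ι).comp s) := fun n =>
      hfct Λ B _ _ (M n).tst ι (RingHom.injective _) j s (hs n)
    have h' : ∀ n, HT (M n).tst j' ((SLm (jj (iz p) i)).comp (r p)) := fun n => by
      have h4 := hpe G Λ A B Φ ρ₀ e (t n) (M n) (hTH.ex n) p (r p) (hr p) j'
      rw [hj'] at h4
      exact h4
    have hj : (ι.comp j).comp e = j'.comp e := by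
      rw [hj', ← hι, RingHom.comp_assoc]
    have h3 := hun G Λ A B Φ ρ₀ e N t hTH M _ _ j' hj _ _ h h' l
    rw [MonoidHom.comp_apply, tr_map, MonoidHom.comp_apply, tr_map] at h3
    rw [map_sub, map_mul, map_natCast, jj_ia_apply, ← h3, ← hι, RingHom.comp_apply, ← hy,
      map_mul, map_natCast, sub_self]
  obtain ⟨u, hu1, hu2⟩ := hdiv A m y (fun p _ => tr (r p l)) hm h2
  refine ⟨u, ?_, fun p _ => hu2 p⟩
  have hm' : (m : AlgebraicClosure ℚ) ≠ 0 := Nat.cast_ne_zero.2 hm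
  apply mul_left_cancel₀ hm'
  rw [hy, ← hu1, RingHom.comp_apply, map_mul, map_mul, map_natCast, map_natCast]

end

end Pool.Agent.F8.CG
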