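import Pool.Agent.Lib.MP_305fdd_al.F8.NG.T.P_ji
import Pool.Agent.Lib.MP_305fdd_al.F8.NG.T.P_div
import Pool.Agent.Lib.MP_305fdd_al.F8.NG.T.P_lim
import Pool.Agent.Lib.MP_305fdd_al.F8.NG.T.P_sep
import Pool.Agent.Lib.MP_305fdd_al.F8.NG.T.P_red
import Pool.Agent.Lib.MP_305fdd_al.F8.NG.T.P_gl
import Pool.Agent.Lib.MP_305fdd_al.F8.BG.P_Lgen
import Pool.Agent.Lib.MP_305fdd_al.F8.BG.P_Lpid
import Pool.Agent.Lib.MP_305fdd_al.F8.BG.P_leg2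
import Pool.Agent.Lib.MP_305fdd_al.F8.BG.P_leg11
import Pool.Agent.Lib.MP_305fdd_al.F8.CG.P_Tind
import Pool.Agent.Lib.MP_305fdd_al.F8.CG.P_Tmt
import Pool.Agent.Lib.MP_305fdd_al.F8.CG.P_Tun1
import Pool.Agent.Lib.MP_305fdd_al.F8.CG.P_Tfct
import Pool.Agent.Lib.MP_305fdd_al.F8.CG.P_Tsb
import Pool.Agent.Lib.MP_305fdd_al.F8.CG.P_Tspk
import Pool.Agent.Lib.MP_305fdd_al.F8.CG.P_Tun2
import Pool.Agent.Lib.MP_305fdd_al.F8.CG.P_Tlh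
import Pool.Agent.Lib.MP_305fdd_al.F8.CG.P_Tpe
import Pool.Agent.Lib.MP_305fdd_al.F8.CG.P_Text
import Pool.Agent.Lib.MP_305fdd_al.F8.CG.P_Tq
import Pool.Agent.Lib.MP_305fdd_al.F8.CG.P_Tval
import Pool.Agent.Lib.MP_305fdd_al.F8.CG.P_Tmk
import Pool.Agent.Lib.MP_305fdd_al.F8.CG.P_Tmain
import Pool.Agent.Lib.MP_305fdd_al.F8.CG.P_Ear
import Pool.Agent.Lib.MP_305fdd_al.F8.CG.P_Eirr
import Pool.Agent.Lib.MP_305fdd_al.F8.CG.P_Erho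
import Pool.Agent.Lib.MP_305fdd_al.F8.CG.P_Eint
import Pool.Agent.Lib.MP_305fdd_al.F8.CG.P_Ecmp
import Pool.Agent.Lib.MP_305fdd_al.F8.CG.P_Eher
import Pool.Agent.Lib.MP_305fdd_al.F8.CG.P_Eone
import Pool.Agent.Lib.MP_305fdd_al.F8.CG.P_Egood
import Pool.Agent.Lib.MP_305fdd_al.F8.CG.P_Ecrt
import Pool.Agent.Lib.MP_305fdd_al.F8.CG.P_Elat
import Pool.Agent.Lib.MP_305fdd_al.F8.CG.P_Emain

/-!
# MP_305fdd_al, congruence subgroups: assembly of the blocks T (transfer) and E (matrices and the lattice)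
-/

set_option autoImplicit false

namespace Pool.Agent.F8.CG

open Pool.Agent.F8.NG.T

/-! ### Block T -/

theorem m_Tind : T_ind := p_Tind
theorem m_Tmk : T_mk := p_Tmk
theorem m_Tun2 : T_un2 := p_Tun2 (p_Tun1 p_Tmt) p_Tsb p_Tspk
theorem m_Tpe : T_pe := p_Tpe p_Tlh p_ji
theorem m_Tq : T_q := p_Tq m_Tpe p_Tsb p_Tspk (p_rL p_lim) p_exj
theorem m_Tval : T_val :=
  p_Tval m_Tun2 p_Tfct m_Tpe (p_Text p_ji) (p_gl p_ji) (p_emb p_ji) (p_sep p_ji) p_div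

/-- THEOREM of block T -/
theorem m_Tmain : T_main := p_Tmain m_Tq m_Tval (p_rL p_lim) p_red

/-! ### Block E -/

theorem m_Ear : E_ar :=
  p_Ear BG.p_Lpid (BG.p_leg2 BG.p_Lgen BG.p_Lpid) (BG.p_leg11 BG.p_Lgen BG.p_Lpid)
theorem m_Erho : E_rho := p_Erho p_Eirr (p_rL p_lim) p_lim p_exj p_ji
theorem m_Elat : E_lat :=
  p_Elat (p_Eone p_Eint p_Ecmp p_Eher) (p_Egood p_Eint p_Ecmp) p_Ecrt

/-- THEOREM of block E -/
theorem m_Emain : E_main := p_Emain m_Ear p_Eirr m_Erho m_Elat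

end Pool.Agent.F8.CG
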