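import Pool.Agent.Lib.MP_305fdd_al.F8.CG.StmA
import Pool.Agent.Lib.MP_305fdd_al.F8.BG.DefsU

/-!
# MP_305fdd_al, congruence subgroups: block A, second part, the uniqueness of the arithmetic representation

THEOREM (`A_th`). Let `D` be a subgroup of finite index of `GR α`, `α` positive, `ρ₀ : D → SL₂(ℤ[w])`, irreducible on the commutator subgroups of all subgroups of finite index. There are a finite ring extension `e : ℤ[w] → B` and a finite list of tests (`TT`) such that `ρ₀` passes the tests over `B`, and for all finite fields `k` of large characteristic, all `j : B → k` and all `ρ : D → SL₂(k)`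
which pass the tests (and are irreducible on the commutator subgroups of the groups `L` of the tests) the character of `ρ` is `j ∘ e` of the character of `ρ₀`.
-/

set_option autoImplicit false

namespace Pool.Agent.F8.CG

open Pool.Agent.F8.BG Pool.Agent.Lib.MP_305fdd_al Pool.Agent.F8

noncomputable section

/-- a test: a subgroup `L`, a homomorphism `L → ℤ`, a Jordan block -/
structure TT (G B : Type) [Group G] [CommRing B] where
  /-- the subgroup -/
  L : Subgroup G
  /-- the homomorphism to `ℤ` -/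
  nL : L →* Multiplicative ℤ
  /-- the size of the Jordan block -/
  m : ℕ
  /-- the eigenvalue -/
  τ : Bˣ

/-- the representation `ρ` over the field `k` passes the test -/
def TT.Pass {G B k : Type} [Group G] [CommRing B] [Field k] (t : TT G B) (j : B →+* k)
    (ρ : G →* SL2 k) : Prop :=
  3 * t.m ≤ Module.finrank k
    (Zc t.nL t.m (ρ.comp t.L.subtype) (jorG t.m (Units.map j.toMonoidHom t.τ)))

/-- [CG pol] comparison of two polynomials.

Proof. `P = ∏_(x root) (X - x)^(mult x)`, the roots of `P` are the `e τ`, `τ ∈ R` (with multiplicity zero for some `τ`, possibly), so `N = ∑_(τ ∈ R) mult_P (e τ)` (`e` is injective) and `P.nextCoeff = - ∑ mult (e τ) e τ`. By hypothesis `∏_(τ ∈ R) (X - j τ)^(mult_P (e τ))` divides `P'` (the `j τ` are different), both are monic of degree `N`, so they are equal, and `P'.nextCoeff = - ∑ mult_P (e τ) j τ`.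
`s = - ∑ mult_P (e τ) τ`. -/
def A_pol : Prop := ∀ (K k B : Type) [Field K] [Field k] [CommRing B] (e : B →+* K) (j : B →+* k),
  Function.Injective e → ∀ (P : Polynomial K) (P' : Polynomial k), P.Monic → P'.Monic →
  P.natDegree = P'.natDegree → P.Splits → ∀ R : Finset B,
  (∀ x, P.IsRoot x → ∃ τ ∈ R, e τ = x) → Set.InjOn j R →
  (∀ τ ∈ R, P.rootMultiplicity (e τ) ≤ P'.rootMultiplicity (j τ)) →
  ∃ s : B, P.nextCoeff = e s ∧ P'.nextCoeff = j s

/-- [CG nrm] elements of finite extensions of `ℤ` divide integers.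

Proof. `b` is integral over `ℤ`, a root of a monic polynomial with integer coefficients; dividing by powers of `X` (`B` is a domain, `b ≠ 0`) we may assume that the constant coefficient `c` is not zero, and then `b` divides `c`. (For `x ≠ 0` in a domain of characteristic zero; the image of `c` in `B` is not zero.) -/
def A_nrm : Prop := ∀ (B : Type) [CommRing B] [IsDomain B] [Module.Finite ℤ B] (b : B), b ≠ 0 →
  ∃ c : ℤ, c ≠ 0 ∧ b ∣ (c : B)

/-- [CG bc] crossed homomorphisms over a subring.

Proof. Let `K₁ ≤ K` be the field of fractions of the image of `B`, `g_1, ..` a finite set of generators of `L`. Let `z_1, .., z_d` be linearly independent elements of `Zc` over `K`, and `κ_1, .., κ_s` a basis of the `K₁`-subspace of `K` which is generated by the entries of the `z_b g_i`. The entries of all `z_b x`, `x ∈ L`, are in this subspace (crossed homomorphism, `ρ`, `u` have entries in `B`), so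
`z_b = ∑_j κ_j z_(b,j)` with functions `z_(b,j)` with values in `K₁`; comparing coefficients (the `κ_j` are linearly independent over `K₁`) we see that the `z_(b,j)` are crossed homomorphisms over `K₁`. Their `K`-span contains the `z_b`, so `d` of them are linearly independent over `K`. The entries of the `z_(b,j) g_i` have a common denominator in `B`; multiply with it: then all values are in `B`.
Linear independence over `K` implies linear independence over `B` (`e` is injective). -/
def A_bc : Prop := ∀ (L : Type) [Group L] [Group.FG L] (n : L →* Multiplicative ℤ) (m : ℕ)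
  (K B : Type) [Field K] [CommRing B] (e : B →+* K), Function.Injective e → ∀ (ρ : L →* SL2 B)
  (τ : Bˣ) (d : ℕ), d ≤ Module.finrank K (Zc n m ((SLm e).comp ρ)
    (jorG m (Units.map e.toMonoidHom τ))) →
  ∃ z : Fin d → L → Matrix (Fin 2) (Fin m) B, (∀ b, z b ∈ Zc n m ρ (jorG m τ)) ∧
    LinearIndependent B z

/-- [CG th] MAIN RESULT of block A. (Uses `A_one`, `A_gns`, `A_smg`, `A_fri`, `A_alf`, `A_pol`, `A_nrm`, `A_bc`.)

Proof. `K = AlgebraicClosure ℚ`, `e₀ : Qf a b ℤ → K` an injective homomorphism (`evq` at a root of `x² = a + b x`; injective because `b² + 4 a < 0`, see `BG.S_bd`, `P_bd.lean`), `ρ_K = SLm e₀ ∘ ρ₀`. `S` from `A_gns`, `S'` = the set of all `c ∈ D` which are loops with nonempty prefix (`(c : GR α) = t^-k u`, `u ≠ []`, `itw w k i₀ = u ++ i₀ :: ..`), a semigroup (`A_smg`) which contains `S` and generates `D`. By `A_alf` (for `ρ_K`; `hirr` for `L = ⊤`) there are `x, y ∈ S'` with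
`tr ρ_K [x, y] ≠ 2`. `C = {x, y, x y} ∪ {s, s x, s y, s x y | s ∈ S} ⊆ S'`, finite. For `c ∈ C` let `L_c, n_c, N_c, M_c` be from `A_one`. The hypotheses of `A_one` for `K`, `ρ_K`: `IrC` from `hirr`; if `c'`, `c` are profinitely conjugate then `tr ρ₀ c'` and `tr ρ₀ c` are congruent modulo all `m` (`rdq a b m`), so they are equal. Let `P_c` be the polynomial over `K`; it splits; its roots are integral over `ℤ`, with
integral inverses (`IsP.int`, the entries of `ρ_K` are integral). `B` = the subring of `K` generated by the image of `e₀` and all these roots and their inverses, a finitely generated `ℤ`-module, `e` = the map to `B`. The tests: for all `c ∈ C` and all roots `τ` of `P_c`: `L_c`, `n_c`, `m` = the multiplicity of `τ`, `τ ∈ Bˣ`. (ex): `IsP.eq` and `A_bc` (`L_c` is finitely generated). (un): let `M₀` be the product of the `M_c` and of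
integers `≠ 0` divisible in `B` (`A_nrm`) by `τ - τ'` for all `c` and all roots `τ ≠ τ'` of `P_c`, and by `e (tr ρ₀ [x, y]) - 2`. Let `k`, `j`, `ρ` be given, `c ∈ C`. `A_one` for `k`, `ρ`: profinitely conjugate elements have conjugate images in the finite group `SL2 k`, so the same traces. Let `P` be the polynomial over `k`. For every root `τ` of `P_c` of multiplicity `m` we have `3 m ≤ 2 m + mult_P (j τ)` (`Pass`, `IsP.le`), so by `A_pol`
`P_c.nextCoeff = s`, `P.nextCoeff = j s` for some `s ∈ B`; `s = - M_c e (tr ρ₀ c)` and `j s = - M_c tr ρ c`, so `tr ρ c = j (e (tr ρ₀ c))` because `M_c ≠ 0` in `k`. By `A_fri` for `SLm (j ∘ e) ∘ ρ₀` and `ρ` (traces at `s`, `s x`, `s y`, `s x y`, `x`, `y`, `x y`; `j (e (tr ρ₀ [x, y])) ≠ 2`) the traces agree everywhere. -/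
def A_th : Prop := ∀ (ι : Type) [Finite ι] (α : MulAut (FreeGroup ι)) (w : ι → List ι) (i₀ : ι),
  Pos α w → (w i₀).head? = some i₀ → ∀ D : Subgroup (GR α), D.FiniteIndex → ∀ a b : ℤ,
  b ^ 2 + 4 * a < 0 → ∀ ρ₀ : D →* GQ a b, (∀ L : Subgroup D, L.FiniteIndex → IrC L ρ₀) →
  ∃ (B : Type) (_ : CommRing B) (_ : IsDomain B) (_ : Module.Finite ℤ B)
    (e : Qf a b ℤ →+* B) (n : ℕ) (t : Fin n → TT D B), Function.Injective e ∧
  (∀ i, (t i).L.FiniteIndex ∧ ∃ k : ℕ, 1 ≤ k ∧ ∀ x : (t i).L,
    Multiplicative.toAdd (nD D x) = k * Multiplicative.toAdd ((t i).nL x)) ∧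
  (∀ i, ∃ z : Fin (3 * (t i).m) → (t i).L → Matrix (Fin 2) (Fin (t i).m) B,
    (∀ b, z b ∈ Zc (t i).nL (t i).m ((SLm e).comp (ρ₀.comp (t i).L.subtype))
      (jorG (t i).m (t i).τ)) ∧ LinearIndependent B z) ∧
  ∃ M₀ : ℤ, M₀ ≠ 0 ∧ ∀ (k : Type) [Field k] [Finite k], (M₀ : k) ≠ 0 → ∀ (j : B →+* k)
    (ρ : D →* SL2 k), (∀ i, IrC (t i).L ρ) → (∀ i, (t i).Pass j ρ) →
    ∀ g, tr (ρ g) = j (e (tr (ρ₀ g)))

/-- [CG irr] subgroups of `SL₂(ℤ[w])` which contain a congruence subgroup are irreducible.

Proof. There are `l₁`, `l₂ ∈ G` with `ρ l₁ = [[1, N₀], [0, 1]]`, `ρ l₂ = [[1, 0], [N₀, 1]]`, and `s ≥ 1` with `l₁ ^ s`, `l₂ ^ s ∈ L`. So for `N = N₀ s` the matrices `x = [[1, N], [0, 1]]`, `y = [[1, 0], [N, 1]]` are in `ρ(L)`. Let `g = x y x⁻¹ y⁻¹`, `h = x g x⁻¹`; both are images of elements of the commutator subgroup of `L`, and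
`tr (g h g⁻¹ h⁻¹) = 2 - 4 N ^ 12` (checked by computer), which is not `2` in `ℤ[w]` (characteristic zero). -/
def A_irr : Prop := ∀ (a b : ℤ), b ^ 2 + 4 * a < 0 → ∀ (G : Type) [Group G] (ρ : G →* GQ a b)
  (N₀ : ℕ), 1 ≤ N₀ → (∀ x : GQ a b, rdq a b N₀ x = 1 → ∃ g, ρ g = x) →
  ∀ L : Subgroup G, L.FiniteIndex → IrC L ρ

end

end Pool.Agent.F8.CG
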