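import Pool.Agent.Lib.MP_305fdd_al.F8.CG.StmX
import Pool.Agent.Lib.MP_305fdd_al.F8.CG.StmA2

/-!
# MP_305fdd_al, congruence subgroups: block Y, from the blocks R, A, T to `Uni`

`A_uni` is the common result of the blocks R, A, T for subgroups of finite index of `F ⋊ ℤ` with a positive automorphism; `Y_uni` transports it to subgroups of finite index of `Γ(M')`.
-/

set_option autoImplicit false

namespace Pool.Agent.F8.CG

open Pool.Agent.F8.BG Pool.Agent.MP_305fdd_al Pool.Agent.Lib.MP_305fdd_al Pool.Agent.F8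
open scoped QuadraticAlgebra

noncomputable section

/-- [CG A uni] RESULT of the blocks R, A, T. (Uses `A_th`, `A_rm2`, `T_ind`, `T_mk`, `T_main`.) -/
def A_uni : Prop := ∀ (ι : Type) [Finite ι] (α : MulAut (FreeGroup ι)) (w : ι → List ι) (i₀ : ι),
  Pos α w → (w i₀).head? = some i₀ → ∀ D : Subgroup (GR α), D.FiniteIndex → ∀ a b : ℤ,
  b ^ 2 + 4 * a < 0 → ∀ ρ₀ : D →* GQ a b, (∀ L : Subgroup D, L.FiniteIndex → IrC L ρ₀) →
  ∀ (Λ : Type) [Group Λ] [Group.FG Λ] (Φ : NatBij D Λ), ∃ T : Λ → Qf a b ℤ, Red Φ ρ₀ T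

/-- [CG Y irc] irreducibility on the subgroups of finite index.

Proof. The traces are the same: `tr (σ x) = tr x.val` for all `x : E` (from `(σ x) y = y x`, multiply with `adj y`: `det y * tr (σ x) = tr (y x adj y) = det y * tr x`). For `L` let `K ≥ 1` be such that `eU K, eV K ∈ L` (as elements of `GQ a b`; `L` has finite index in `GQ a b`, so it contains powers of `eU 1`, `eV 1`); with `x = eU K`, `y' = eV K`, `g = [x, y']`, `h = x g x⁻¹` the trace of
`g h g⁻¹ h⁻¹` is `2 - 4 K ^ 12 ≠ 2` (see `A_irr`). -/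
def Y_irc : Prop := ∀ (a b : ℤ), b ^ 2 + 4 * a < 0 → ∀ E : Subgroup (GQ a b), E.FiniteIndex →
  ∀ σ : E →* GQ a b,
  (∃ y : Matrix (Fin 2) (Fin 2) (Qf a b ℤ), y.det ≠ 0 ∧
    ∀ x : E, (σ x).val * y = y * x.val.val) → ∀ L : Subgroup E, L.FiniteIndex → IrC L σ

/-- [CG Y uni] transport to `Γ(M')`. (Uses `A_uni`, `Y_irc`.)

Proof. Let `E ≤ Gam a b M'` be of finite index, `M ∣ M'`, `3 ≤ M'` (so `E ≤ G₀`, and `η` is injective on `E`: `F_emb` or `-1 ∉ Gam a b M'`). `Δ` = the image of `E` under `η`, of finite index in `GR α` (`EtaQ.fin`; `E` has finite index in `GQ a b`, so in `G₀`), contained in the range of `emb α N` (`{g | N ∣ n(g)}`: `emb α N` is injective with this range, because `emb (f t^k) = f t^(N k)`). `Δ' = Δ.comap (emb α N)`, a subgroup of finite index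
of `GR (α ^ N)`, isomorphic to `E` (`θ : E ≃* Δ'`, `emb (θ x) = η x`). `A_uni` for `α ^ N`, `w`, `i₀`, `Δ'`, `ρ₀ = σ ∘ θ⁻¹`, and `natBij_equiv`. `IrC` for the subgroups of finite index of `Δ'` follows from `Y_irc` (transport by `θ`). -/
def Y_uni : Prop := ∀ (a b : ℤ) (ι : Type) [Finite ι] (α : MulAut (FreeGroup ι)) (N : ℕ)
  (w : ι → List ι) (M : ℕ) (c g : FreeGroup ι) (G₀ : Subgroup (GQ a b)) (η : G₀ →* GR α),
  BG.Dat α N w M c g G₀ η → ∀ M' : ℕ, M' ≠ 0 → 3 ≤ M' → M ∣ M' →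
  (∀ x : G₀, rdq a b M' x = 1 → (N : ℤ) ∣ Multiplicative.toAdd (nR α (η x))) → Uni a b M'

/-- [CG Y unp] unipotent elements are conjugate to elements of `Γ(M')`.

Proof. `n = x - 1`, `n² = 0` (Cayley-Hamilton: `x² - 2 x + 1 = 0`). If `n = 0` take `y = 1`, `x' = 1`. Otherwise let `v` be a vector of the standard basis with `n v ≠ 0`, `y` the matrix with the columns `n v`, `M' v`; `det y = M' det (n v, v) ≠ 0` (if `det (n v, v) = 0` then, over the field of fractions, `n v = λ v`, `λ² v = 0`, `n v = 0`). `x' = eU M'`: `x (n v) = n v`, `x (M' v) = M' v + M' n v`. -/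
def Y_unp : Prop := ∀ (a b : ℤ), b ^ 2 + 4 * a < 0 → ∀ M' : ℕ, M' ≠ 0 → ∀ x : GQ a b, tr x = 2 →
  ∃ y, CjG M' x y

end

end Pool.Agent.F8.CG
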