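import Pool.Agent.Lib.MP_305fdd_al.F8.CG.MainTH
import Pool.Agent.Lib.MP_305fdd_al.F8.CG.MainT
import Pool.Agent.Lib.MP_305fdd_al.F8.CG.StmY
import Pool.Agent.Lib.MP_305fdd_al.F8.BG.P_con

/-!
# MP_305fdd_al, congruence subgroups: assembly of the blocks R, A, T
-/

set_option autoImplicit false

namespace Pool.Agent.F8.CG

open Pool.Agent.F8.BG Pool.Agent.MP_305fdd_al Pool.Agent.Lib.MP_305fdd_al Pool.Agent.F8
open scoped QuadraticAlgebra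

noncomputable section

/-- The conclusion of the blocks R, A, T for the automorphism `α`. -/
def AuC {ι : Type} (α : MulAut (FreeGroup ι)) : Prop :=
  ∀ D : Subgroup (GR α), D.FiniteIndex → ∀ a b : ℤ,
  b ^ 2 + 4 * a < 0 → ∀ ρ₀ : D →* GQ a b, (∀ L : Subgroup D, L.FiniteIndex → IrC L ρ₀) →
  ∀ (Λ : Type) [Group Λ] [Group.FG Λ] (Φ : NatBij D Λ), ∃ T : Λ → Qf a b ℤ, Red Φ ρ₀ T

theorem auC_of {ι : Type} [Finite ι] {α : MulAut (FreeGroup ι)}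
    (hF : ∀ D : Subgroup (GR α), D.FiniteIndex → ∀ a b : ℤ,
      b ^ 2 + 4 * a < 0 → ∀ ρ₀ : D →* GQ a b, (∀ L : Subgroup D, L.FiniteIndex → IrC L ρ₀) →
      Fam (nD D) a b ρ₀)
    (hR : ∀ D : Subgroup (GR α), D.FiniteIndex →
      ∀ (Λ : Type) [Group Λ] [Group.FG Λ] (Φ : NatBij D Λ),
      ∃ n' : Λ →* Multiplicative ℤ, ∀ (m : ℕ) [NeZero m],
        Φ.toFun _ ((redZ m).comp (nD D)) = (redZ m).comp n') : AuC α := by
  intro D hD a b hn ρ₀ hirr Λ _ _ Φ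
  have hfg : Group.FG D := by
    have h1 : Group.FG (GR α) := con_fg α
    exact Subgroup.fg_of_index_ne_zero D
  have hdom : IsDomain (Qf a b ℤ) := Qf_domain hn
  obtain ⟨B, _, _, _, _, e, N, t, hTH, ht⟩ := m_TH D (nD D) a b hn ρ₀ hirr (hF D hD a b hn ρ₀ hirr)
  obtain ⟨n', hn'⟩ := hR D hD Λ Φ
  refine m_Tmain D Λ (Qf a b ℤ) B Φ ρ₀ e N t hTH fun i => ?_
  obtain ⟨L, hL, k, nL, m, u, d, hk, hx, hti⟩ := ht i
  rw [hti]
  exact m_Tmk D Λ B Φ (nD D) n' (fun M _ => hn' M) L hL k hk nL hx m u d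

/-- positive automorphisms -/
theorem auC_pos {ι : Type} [Finite ι] {α : MulAut (FreeGroup ι)} {w : ι → List ι} {i₀ : ι}
    (hp : Pos α w) (h0 : (w i₀).head? = some i₀) : AuC α :=
  auC_of (fun D hD a b hn ρ₀ hirr => m_thF ι α w i₀ hp h0 D hD a b hn ρ₀ hirr)
    (fun D hD Λ _ _ Φ => m_rm2 ι α w i₀ hp h0 D hD Λ Φ)

/-- `A_uni` -/
theorem m_Auni : A_uni := fun _ _ _ _ _ hp h0 => auC_pos hp h0

/-- negative automorphisms -/
theorem auC_neg (hthFm : A_thFm) {ι : Type} [Finite ι] {α : MulAut (FreeGroup ι)}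
    {v w : ι → List ι} {i₀ : ι} (hp : Neg α v w i₀) : AuC α :=
  auC_of (fun D hD a b hn ρ₀ hirr => hthFm ι α v w i₀ hp D hD a b hn ρ₀ hirr)
    (fun D hD Λ _ _ Φ => m_rm3 ι α v w i₀ hp D hD Λ Φ)

end

end Pool.Agent.F8.CG
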