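import Pool.Agent.Lib.MP_305fdd_al.F8.CG.StmC

/-!
# MP_305fdd_al, congruence subgroups: the image contains `Γ(m₀)` (piece Ccl)
-/

set_option autoImplicit false

namespace Pool.Agent.F8.CG

open Pool.Agent.F8.BG Pool.Agent.MP_305fdd_al Pool.Agent.Lib.MP_305fdd_al Pool.Agent.F8
open scoped QuadraticAlgebra

noncomputable section

/-- the reduction of the entries modulo a divisor -/
private theorem Ccl_red (a b : ℤ) {m n : ℕ} (h : m ∣ n) (x : GQ a b) :
    ((rdq a b n x).val).map (Qfm a b (ZMod.castHom h (ZMod m))) = (rdq a b m x).val := by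
  ext i j
  · change ZMod.castHom h (ZMod m) (((x.val i j).re : ℤ) : ZMod n) =
      (((x.val i j).re : ℤ) : ZMod m)
    exact map_intCast _ _
  · change ZMod.castHom h (ZMod m) (((x.val i j).im : ℤ) : ZMod n) =
      (((x.val i j).im : ℤ) : ZMod m)
    exact map_intCast _ _

private theorem Ccl_le (a b : ℤ) {m n : ℕ} (h : m ∣ n) : Gam a b n ≤ Gam a b m := by
  intro x hx
  rw [MonoidHom.mem_ker] at hx ⊢
  apply Subtype.ext
  have h1 := Ccl_red a b h x
  rw [hx] at h1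
  rw [← h1]
  exact map_one (Qfm a b (ZMod.castHom h (ZMod m))).mapMatrix

/-- [CG Ccl] the image contains `Γ(m₀)`. -/
theorem p_Ccl (hsrd : C_srd) : C_cl := by
  intro a b D m₀ hm₀ hD Λ _ Φ ρ hρ hM
  obtain ⟨M', hM', hGM⟩ := hM
  have hM0 : M' * m₀ ≠ 0 := Nat.mul_ne_zero hM' hm₀
  have : NeZero (M' * m₀) := ⟨hM0⟩
  have hdvd : m₀ ∣ M' * m₀ := Dvd.intro_left _ rfl
  have hdvd' : M' ∣ M' * m₀ := Dvd.intro _ rfl
  obtain ⟨C, E, hCE, hEC, hl⟩ := hρ (M' * m₀)
  intro x hx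
  -- the matrix
  have hdet : (E * (rdq a b (M' * m₀) x).val * C).det = 1 := by
    rw [Matrix.det_mul, Matrix.det_mul, (rdq a b (M' * m₀) x).det_coe, mul_one, ← Matrix.det_mul,
      hEC, Matrix.det_one]
  obtain ⟨y, hy⟩ := hsrd a b (M' * m₀) ⟨E * (rdq a b (M' * m₀) x).val * C, hdet⟩
  have hyv : (rdq a b (M' * m₀) y).val = E * (rdq a b (M' * m₀) x).val * C :=
    congrArg Subtype.val hy
  have hyG : y ∈ Gam a b m₀ := by
    rw [MonoidHom.mem_ker] at hx ⊢
    apply Subtype.ext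
    rw [← Ccl_red a b hdvd y, hyv]
    have h1 := Ccl_red a b hdvd x
    rw [hx] at h1
    have h2 : (E * (rdq a b (M' * m₀) x).val * C).map
        (Qfm a b (ZMod.castHom hdvd (ZMod m₀))) =
        (Qfm a b (ZMod.castHom hdvd (ZMod m₀))).mapMatrix
          (E * (rdq a b (M' * m₀) x).val * C) := rfl
    have h3 : (Qfm a b (ZMod.castHom hdvd (ZMod m₀))).mapMatrix
        (rdq a b (M' * m₀) x).val = 1 := h1
    rw [h2, map_mul, map_mul, h3, mul_one, ← map_mul, hEC, map_one]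
    rfl
  have hrange := Φ.range_eq ((rdq a b (M' * m₀)).comp D.subtype)
  have h3 : ((rdq a b (M' * m₀)).comp D.subtype) ⟨y, hD hyG⟩ ∈
      (Φ.toFun _ ((rdq a b (M' * m₀)).comp D.subtype)).range := by
    rw [hrange]
    exact ⟨_, rfl⟩
  obtain ⟨l, hl'⟩ := h3
  have h4 : rdq a b (M' * m₀) (ρ l) = rdq a b (M' * m₀) x := by
    apply Subtype.ext
    rw [hl l, hl']
    change C * (rdq a b (M' * m₀) y).val * E = _
    rw [hyv]
    calc C * (E * (rdq a b (M' * m₀) x).val * C) * E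
        = (C * E) * (rdq a b (M' * m₀) x).val * (C * E) := by
          simp only [Matrix.mul_assoc]
      _ = (rdq a b (M' * m₀) x).val := by rw [hCE, one_mul, mul_one]
  have h5 : (ρ l)⁻¹ * x ∈ Gam a b (M' * m₀) := by
    rw [MonoidHom.mem_ker, map_mul, map_inv, h4, inv_mul_cancel]
  have h6 := ρ.range.mul_mem (⟨l, rfl⟩ : ρ l ∈ ρ.range) (hGM (Ccl_le a b hdvd' h5))
  rwa [mul_inv_cancel_left] at h6

end

end Pool.Agent.F8.CG
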