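import Pool.Agent.Lib.MP_305fdd_al.F8.CG.StmC
import Pool.Agent.Lib.MP_305fdd_al.F8.BG.P_con

/-!
# MP_305fdd_al, congruence subgroups: piece [CG Ccon], the image contains a principal congruence subgroup
-/

set_option autoImplicit false

namespace Pool.Agent.F8.CG

open Pool.Agent.F8.BG Pool.Agent.MP_305fdd_al Pool.Agent.Lib.MP_305fdd_al Pool.Agent.F8
open MulAction
open scoped QuadraticAlgebra

/-- upper triangular matrices which are one modulo `m` -/
private theorem Ccon_up (hun : C_un) {a b : ℤ} (hab : b ^ 2 + 4 * a < 0) {m : ℕ} (hm : 3 ≤ m)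
    {g : GQ a b} (h : rdq a b m g = 1) (h0 : g.val 1 0 = 0) :
    ∃ c : Qf a b ℤ, g = mU (m * c) := by
  have hd := G.SL_det g
  rw [h0, mul_zero, sub_zero] at hd
  have h00 := con_ent h 0 0
  have h01 := con_ent h 0 1
  have o1 : ((1 : GQ a b).val 0 0).re = 1 := rfl
  have o2 : ((1 : GQ a b).val 0 0).im = 0 := rfl
  rw [o1, o2, sub_zero] at h00
  have e00 : g.val 0 0 = 1 := hun a b hab m hm _ _ hd h00.1 h00.2
  have e11 : g.val 1 1 = 1 := by rwa [e00, one_mul] at hd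
  obtain ⟨x, hx⟩ := h01.1
  obtain ⟨y, hy⟩ := h01.2
  refine ⟨⟨x, y⟩, ?_⟩
  apply G.SL_ext
  · rw [e00]; rfl
  · show g.val 0 1 = m * ⟨x, y⟩
    apply QuadraticAlgebra.ext
    · have : ((m : Qf a b ℤ) * ⟨x, y⟩).re = m * x := by
        simp
      rw [this]; simpa using hx
    · have : ((m : Qf a b ℤ) * ⟨x, y⟩).im = m * y := by
        simp
      rw [this]; simpa using hy
  · rw [h0]; rfl
  · rw [e11]; rfl

/-- the kernel of the reduction of `ρ` is the kernel of the corresponding homomorphism -/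
private theorem Ccon_ker {a b : ℤ} {G Λ : Type} [Group G] [Group Λ] {ρ₀ : G →* GQ a b}
    {Φ : NatBij G Λ} {ρ : Λ →* GQ a b} (hρ : RhoG ρ₀ Φ ρ) (m : ℕ) [NeZero m] (l : Λ) :
    rdq a b m (ρ l) = 1 ↔ l ∈ (Φ.toFun _ ((rdq a b m).comp ρ₀)).ker := by
  obtain ⟨C, E, h1, h2, h3⟩ := hρ m
  rw [MonoidHom.mem_ker]
  constructor
  · intro h
    have h4 := h3 l
    rw [h] at h4
    have h5 : (Φ.toFun _ ((rdq a b m).comp ρ₀) l).val = 1 := by
      have h6 : (Φ.toFun _ ((rdq a b m).comp ρ₀) l).val =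
          E * (C * (Φ.toFun _ ((rdq a b m).comp ρ₀) l).val * E) * C := by
        have h7 : E * (C * (Φ.toFun _ ((rdq a b m).comp ρ₀) l).val * E) * C =
            (E * C) * (Φ.toFun _ ((rdq a b m).comp ρ₀) l).val * (E * C) := by
          simp only [Matrix.mul_assoc]
        rw [h7, h2, Matrix.one_mul, Matrix.mul_one]
      rw [h6, ← h4]
      show E * 1 * C = 1
      rw [Matrix.mul_one, h2]
    exact Subtype.ext h5
  · intro h
    have h4 := h3 l
    rw [h] at h4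
    apply Subtype.ext
    rw [h4]
    show C * 1 * E = 1
    rw [Matrix.mul_one, h1]

/-- PIECE con -/
theorem p_Ccon (hun : C_un) (hhl1 : C_hl1) (hhl2 : PIC.S_hl2) : C_con := by
  intro a b hab ι _ α M₀ c g G₀ η hη hHA D m₀ hm₀ hD Λ _ _ Φ ρ hρ hfin
  classical
  by_contra hns
  obtain ⟨H, hH⟩ : ∃ H, H = ρ.range := ⟨_, rfl⟩
  rw [← hH] at hfin
  obtain ⟨k, hk⟩ : ∃ k, k = H.index.factorial := ⟨_, rfl⟩
  have hk0 : 0 < k := by rw [hk]; exact Nat.factorial_pos _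
  have hpow : ∀ x : GQ a b, x ^ k ∈ H := by
    intro x
    refine Subgroup.pow_mem_of_index_ne_zero_of_dvd hfin.index_ne_zero x fun m hm hm' => ?_
    rw [hk]; exact Nat.dvd_factorial hm hm'
  have hM₀ : 0 < M₀ := Nat.pos_of_ne_zero hη.ne
  have hm₀' : 0 < m₀ := Nat.pos_of_ne_zero hm₀
  obtain ⟨M, hMk⟩ : ∃ M, M = 3 * M₀ * m₀ * k := ⟨_, rfl⟩
  have hM : 3 ≤ M := by
    have h1 : 0 < M₀ * m₀ * k := Nat.mul_pos (Nat.mul_pos hM₀ hm₀') hk0
    have h2 : M = 3 * (M₀ * m₀ * k) := by rw [hMk]; ring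
    omega
  have hMd : M₀ ∣ M := ⟨3 * m₀ * k, by rw [hMk]; ring⟩
  have hMd' : m₀ ∣ M := ⟨3 * M₀ * k, by rw [hMk]; ring⟩
  have : NeZero M := ⟨by omega⟩
  have hFin := con_finite a b M
  obtain ⟨N, hN⟩ : ∃ N, N = (rdq a b M).ker := ⟨_, rfl⟩
  have hNn : N.Normal := by rw [hN]; infer_instance
  have hNm : ∀ x, x ∈ N ↔ rdq a b M x = 1 := by intro x; rw [hN]; rfl
  have hNf : N.FiniteIndex := by rw [hN]; exact Subgroup.finiteIndex_ker _
  have hNG : N ≤ G₀ := by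
    intro x hx
    exact hη.lev x (con_red hMd ((hNm x).1 hx))
  have hND : N ≤ D := by
    intro x hx
    exact hD (MonoidHom.mem_ker.2 (con_red hMd' ((hNm x).1 hx)))
  -- an element of `N` not in `H`
  obtain ⟨n₀, hn₀N, hn₀H⟩ : ∃ n₀, n₀ ∈ N ∧ n₀ ∉ H := by
    by_contra hc
    push Not at hc
    apply hns
    refine ⟨M, by omega, ?_⟩
    intro x hx
    rw [← hH]
    exact hc x (by rw [hN]; exact hx)
  -- `η` is injective on `N`
  have hinj : ∀ x y : G₀, x.val ∈ N → y.val ∈ N → η x = η y → x = y := by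
    intro x y hx hy h
    have h1 : η (x⁻¹ * y) = 1 := by rw [map_mul, map_inv, h, inv_mul_cancel]
    rcases (hη.ker _).1 h1 with h2 | h2
    · have h3 : x⁻¹ * y = 1 := Subtype.ext h2
      exact inv_mul_eq_one.1 h3
    · exfalso
      have h3 : (x⁻¹ * y).val ∈ N := mul_mem (inv_mem hx) hy
      exact con_neg hM ((hNm _).1 h3) h2
  -- the subgroups of `GR α`
  obtain ⟨N2, hN2⟩ : ∃ N2, N2 = (N.subgroupOf G₀).map η := ⟨_, rfl⟩
  obtain ⟨H2, hH2⟩ : ∃ H2, H2 = ((H ⊓ N).subgroupOf G₀).map η := ⟨_, rfl⟩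
  have hle : H2 ≤ N2 := by
    rw [hN2, hH2]
    apply Subgroup.map_mono
    intro x hx
    exact hx.2
  have hN2f : N2.FiniteIndex := by
    rw [hN2]; exact con_map_index η hη.fin _ inferInstance
  have hH2f : H2.FiniteIndex := by
    rw [hH2]; exact con_map_index η hη.fin _ inferInstance
  have : Finite (GR α ⧸ H2) := Subgroup.finite_quotient_of_finiteIndex
  have : Finite (GR α ⧸ N2) := Subgroup.finite_quotient_of_finiteIndex
  have : Fintype (GR α ⧸ H2) := Fintype.ofFinite _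
  have : Fintype (GR α ⧸ N2) := Fintype.ofFinite _
  let π : GR α ⧸ H2 → GR α ⧸ N2 := Subgroup.quotientMapOfLE hle
  have hπm : ∀ g : GR α, π (g : GR α ⧸ H2) = (g : GR α ⧸ N2) := fun g => rfl
  have hπ : ∀ (g : GR α) (x : GR α ⧸ H2), π (g • x) = g • π x := by
    intro g x
    induction x using QuotientGroup.induction_on with
    | H z => rfl
  -- the elements
  have hn₀' : η ⟨n₀, hNG hn₀N⟩ ∈ N2 := by
    rw [hN2]; exact ⟨⟨n₀, hNG hn₀N⟩, hn₀N, rfl⟩
  have hne : ((1 : GR α) : GR α ⧸ H2) ≠ ((η ⟨n₀, hNG hn₀N⟩ : GR α) : GR α ⧸ H2) := by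
    intro h
    rw [QuotientGroup.eq, inv_one, one_mul, hH2] at h
    obtain ⟨y, hy, hy2⟩ := h
    have h1 := hinj y ⟨n₀, hNG hn₀N⟩ hy.2 hn₀N hy2
    exact hn₀H (by have := hy.1; rwa [h1] at this)
  have hπ12 : π ((1 : GR α) : GR α ⧸ H2) = π ((η ⟨n₀, hNG hn₀N⟩ : GR α) : GR α ⧸ H2) := by
    rw [hπm, hπm, QuotientGroup.eq, inv_one, one_mul]
    exact hn₀'
  have hex : ∃ g : GR α, g • ((1 : GR α) : GR α ⧸ H2) =
      ((η ⟨n₀, hNG hn₀N⟩ : GR α) : GR α ⧸ H2) := by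
    refine ⟨η ⟨n₀, hNG hn₀N⟩, ?_⟩
    show ((η ⟨n₀, hNG hn₀N⟩ * 1 : GR α) : GR α ⧸ H2) = _
    rw [mul_one]
  have hq : ∀ q ∈ Subgroup.closure {iR α c, iR α g * tR α}, q • π ((1 : GR α) : GR α ⧸ H2) =
      π ((1 : GR α) : GR α ⧸ H2) → ∀ x, π x = π ((1 : GR α) : GR α ⧸ H2) → q • x = x := by
    intro q hqc hq1 x hx
    have hq2 : q ∈ N2 := by
      rw [hπm] at hq1
      have h1 : ((q * 1 : GR α) : GR α ⧸ N2) = ((1 : GR α) : GR α ⧸ N2) := hq1
      rw [mul_one] at h1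
      have h2 := QuotientGroup.eq.1 h1.symm
      rwa [inv_one, one_mul] at h2
    rw [hN2] at hq2
    obtain ⟨y, hy, rfl⟩ := hq2
    have hyN : y.val ∈ N := hy
    obtain ⟨d, hd⟩ := Ccon_up hun hab hM ((hNm _).1 hyN) (hη.par y hqc)
    have hb2 : y.val = mU (((3 * M₀ * m₀ : ℕ) : Qf a b ℤ) * d) ^ k := by
      rw [← con_pow, hd, hMk]
      congr 1
      push_cast
      ring
    induction x using QuotientGroup.induction_on with
    | H a =>
      rw [hπm, hπm] at hx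
      have ha : a ∈ N2 := by
        have h2 := QuotientGroup.eq.1 hx.symm
        rwa [inv_one, one_mul] at h2
      rw [hN2] at ha
      obtain ⟨n, hn, rfl⟩ := ha
      show ((η y * η n : GR α) : GR α ⧸ H2) = ((η n : GR α) : GR α ⧸ H2)
      rw [QuotientGroup.eq, ← map_mul, ← map_inv, ← map_mul, hH2]
      refine ⟨(y * n)⁻¹ * n, ?_, rfl⟩
      have hnN : n.val ∈ N := hn
      have e1 : ((y * n)⁻¹ * n).val =
          ((n.val⁻¹ * mU (((3 * M₀ * m₀ : ℕ) : Qf _ _ ℤ) * d) * n.val) ^ k)⁻¹ := by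
        have e2 : (n.val⁻¹ * mU (((3 * M₀ * m₀ : ℕ) : Qf _ _ ℤ) * d) * n.val) ^ k =
            n.val⁻¹ * mU (((3 * M₀ * m₀ : ℕ) : Qf _ _ ℤ) * d) ^ k * n.val := by
          have := conj_pow (a := n.val⁻¹) (b := mU (((3 * M₀ * m₀ : ℕ) : Qf _ _ ℤ) * d)) (i := k)
          rwa [inv_inv] at this
        rw [e2, ← hb2]
        show (y.val * n.val)⁻¹ * n.val = _
        group
      constructor
      · show ((y * n)⁻¹ * n).val ∈ H
        rw [e1]
        exact inv_mem (hpow _)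
      · show ((y * n)⁻¹ * n).val ∈ N
        exact mul_mem (inv_mem (mul_mem hyN hnN)) hnN
  -- the prime
  obtain ⟨p, hp1, hp2⟩ := Nat.exists_infinite_primes
    (3 + (Finset.univ.filter (fun x => π x = π ((1 : GR α) : GR α ⧸ H2))).card)
  have : Fact p.Prime := ⟨hp2⟩
  obtain ⟨z, hz1, hz2, hz3⟩ := hhl1 ι α c g hHA (GR α ⧸ H2) (GR α ⧸ N2) π hπ p (by omega) _ _ hne
    hπ12 hex hq
  have hfg1 : Group.FG (GR α) := con_fg α
  have hlt := hhl2 (GR α) (GR α ⧸ H2) (GR α ⧸ N2) π hπ p ((1 : GR α) : GR α ⧸ H2) (by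
      intro x
      induction x using QuotientGroup.induction_on with
      | H a => exact ⟨a, by show ((a * 1 : GR α) : GR α ⧸ H2) = _; rw [mul_one]⟩) (by
      intro hd
      have h1 : 0 < (Finset.univ.filter (fun x => π x = π ((1 : GR α) : GR α ⧸ H2))).card :=
        Finset.card_pos.2 ⟨_, by rw [Finset.mem_filter]; exact ⟨Finset.mem_univ _, rfl⟩⟩
      have h2 := Nat.le_of_dvd h1 hd
      omega) z hz1 hz2 hz3
  rw [hπm, con_card (MulAction.stabilizer_quotient N2), con_card (MulAction.stabilizer_quotient H2)]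
    at hlt
  -- comparison
  have hfT : Finite (Multiplicative (ZMod p)) := inferInstanceAs (Finite (ZMod p))
  obtain ⟨r, hr⟩ : ∃ r : D →* SL2 (Qf a b (ZMod M)), r = (rdq a b M).comp D.subtype := ⟨_, rfl⟩
  obtain ⟨Ψ, -⟩ := natBij_ker (π := r) Φ rfl
  have hLf : (Φ.toFun _ r).ker.FiniteIndex := Subgroup.finiteIndex_ker _
  have hLfg : Group.FG (Φ.toFun _ r).ker := Subgroup.fg_of_index_ne_zero _
  have hfin' : Finite ((Φ.toFun _ r).ker →* Multiplicative (ZMod p)) := finite_hom _ _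
  have c1 : Nat.card (r.ker →* Multiplicative (ZMod p)) =
      Nat.card ((Φ.toFun _ r).ker →* Multiplicative (ZMod p)) :=
    Nat.card_congr (Ψ.equiv _)
  have hker : ∀ l, rdq a b M (ρ l) = 1 ↔ l ∈ (Φ.toFun _ r).ker := by
    intro l
    rw [hr]
    exact Ccon_ker hρ M l
  have c2 : Nat.card (N →* Multiplicative (ZMod p)) =
      Nat.card (r.ker →* Multiplicative (ZMod p)) := by
    have hm : ∀ x : N, (Subgroup.inclusion hND x) ∈ r.ker := by
      intro x
      rw [MonoidHom.mem_ker, hr]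
      exact (hNm _).1 x.2
    let fN : N →* r.ker := (Subgroup.inclusion hND).codRestrict r.ker hm
    refine con_bij fN ⟨?_, ?_⟩
    · intro x y h
      have h1 : Subgroup.inclusion hND x = Subgroup.inclusion hND y := congrArg Subtype.val h
      exact Subgroup.inclusion_injective hND h1
    · rintro ⟨x, hx⟩
      have hx' : rdq a b M x.val = 1 := by
        rw [MonoidHom.mem_ker, hr] at hx
        exact hx
      exact ⟨⟨x.val, (hNm _).2 hx'⟩, Subtype.ext (Subtype.ext rfl)⟩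
  have c3 : Nat.card (N →* Multiplicative (ZMod p)) = Nat.card (N2 →* Multiplicative (ZMod p)) := by
    let fN : N →* N2 := (η.comp (Subgroup.inclusion hNG)).codRestrict N2 (fun x => by
      rw [hN2]; exact ⟨⟨x.1, hNG x.2⟩, x.2, rfl⟩)
    refine con_bij fN ⟨?_, ?_⟩
    · intro x y h
      have h1 : η ⟨x.1, hNG x.2⟩ = η ⟨y.1, hNG y.2⟩ := congrArg Subtype.val h
      have h2 := hinj _ _ x.2 y.2 h1
      exact Subtype.ext (congrArg (fun w : G₀ => w.val) h2)
    · rintro ⟨x, hx⟩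
      have hx' := hx
      rw [hN2] at hx'
      obtain ⟨y, hy, hy2⟩ := hx'
      exact ⟨⟨y.val, hy⟩, Subtype.ext hy2⟩
  have c4 : Nat.card (H2 →* Multiplicative (ZMod p)) ≤
      Nat.card ((Φ.toFun _ r).ker →* Multiplicative (ZMod p)) := by
    have hm : ∀ l : (Φ.toFun _ r).ker, ρ l ∈ N :=
      fun l => (hNm _).2 ((hker l).2 l.2)
    let f0 : (Φ.toFun _ r).ker →* G₀ :=
      (ρ.comp (Φ.toFun _ r).ker.subtype).codRestrict G₀ (fun l => hNG (hm l))
    let fL : (Φ.toFun _ r).ker →* H2 := (η.comp f0).codRestrict H2 (fun l => by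
      rw [hH2]
      exact ⟨f0 l, ⟨by show ρ l ∈ H; rw [hH]; exact ⟨l, rfl⟩, hm l⟩, rfl⟩)
    refine con_sur fL ?_
    rintro ⟨x, hx⟩
    have hx' := hx
    rw [hH2] at hx'
    obtain ⟨y, hy, hy2⟩ := hx'
    have hy1 : y.val ∈ H := hy.1
    rw [hH] at hy1
    obtain ⟨l, hl⟩ := hy1
    have hlN : ρ l ∈ N := by rw [hl]; exact hy.2
    refine ⟨⟨l, (hker l).1 ((hNm _).1 hlN)⟩, Subtype.ext ?_⟩
    show η (f0 _) = x
    rw [← hy2]
    congr 1
    exact Subtype.ext hl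
  omega

end Pool.Agent.F8.CG
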