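import Pool.Agent.Lib.MP_305fdd_al.F8.CG.StmC

/-!
# MP_305fdd_al, congruence subgroups: the image is a conjugate of `D` (piece Cimg)
-/

set_option autoImplicit false

namespace Pool.Agent.F8.CG

open Pool.Agent.F8.BG Pool.Agent.MP_305fdd_al Pool.Agent.Lib.MP_305fdd_al Pool.Agent.F8
open scoped QuadraticAlgebra

noncomputable section

/-- [CG Cimg] the image is a conjugate of `D`. -/
theorem p_Cimg : C_img := by
  intro a b D m₀ hm₀ hD hHZ Λ _ Φ ρ hρ hG hinj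
  have : NeZero m₀ := ⟨hm₀⟩
  obtain ⟨C, E, hCE, hEC, hl⟩ := hρ m₀
  obtain ⟨γ, h1, h2⟩ := hHZ C E hCE hEC
  have hrange := Φ.range_eq ((rdq a b m₀).comp D.subtype)
  have hr : ρ.range = D.map (MulAut.conj γ).toMonoidHom := by
    ext z
    constructor
    · rintro ⟨l, rfl⟩
      have h3 : Φ.toFun _ ((rdq a b m₀).comp D.subtype) l ∈
          ((rdq a b m₀).comp D.subtype).range := by
        rw [← hrange]
        exact ⟨l, rfl⟩
      obtain ⟨x, hx⟩ := h3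
      obtain ⟨y, hyD, hy⟩ := h1 x.1 x.2
      have h4 : rdq a b m₀ (γ * y * γ⁻¹) = rdq a b m₀ (ρ l) := by
        apply Subtype.ext
        rw [hy, hl l, ← hx]
        rfl
      have h5 : (γ * y * γ⁻¹)⁻¹ * ρ l ∈ Gam a b m₀ := by
        rw [MonoidHom.mem_ker, map_mul, map_inv, h4, inv_mul_cancel]
      have h6 : γ⁻¹ * ((γ * y * γ⁻¹)⁻¹ * ρ l) * γ ∈ Gam a b m₀ := by
        have h7 := (inferInstance : (Gam a b m₀).Normal).conj_mem _ h5 γ⁻¹
        rwa [inv_inv] at h7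
      refine ⟨y * (γ⁻¹ * ((γ * y * γ⁻¹)⁻¹ * ρ l) * γ), D.mul_mem hyD (hD h6), ?_⟩
      show γ * (y * (γ⁻¹ * ((γ * y * γ⁻¹)⁻¹ * ρ l) * γ)) * γ⁻¹ = ρ l
      group
    · rintro ⟨y, hyD, rfl⟩
      show γ * y * γ⁻¹ ∈ ρ.range
      obtain ⟨x, hxD, hx⟩ := h2 y hyD
      have h3 : ((rdq a b m₀).comp D.subtype) ⟨x, hxD⟩ ∈
          (Φ.toFun _ ((rdq a b m₀).comp D.subtype)).range := by
        rw [hrange]
        exact ⟨_, rfl⟩
      obtain ⟨l, hl'⟩ := h3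
      have h4 : rdq a b m₀ (γ * y * γ⁻¹) = rdq a b m₀ (ρ l) := by
        apply Subtype.ext
        rw [hx, hl l, hl']
        rfl
      have h5 : (ρ l)⁻¹ * (γ * y * γ⁻¹) ∈ Gam a b m₀ := by
        rw [MonoidHom.mem_ker, map_mul, map_inv, h4, inv_mul_cancel]
      have h6 := ρ.range.mul_mem (⟨l, rfl⟩ : ρ l ∈ ρ.range) (hG h5)
      rwa [mul_inv_cancel_left] at h6
  have e1 : Λ ≃* ρ.range := MonoidHom.ofInjective hinj
  have e2 : D ≃* D.map (MulAut.conj γ).toMonoidHom :=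
    D.equivMapOfInjective _ (MulAut.conj γ).injective
  exact ⟨e1.trans ((MulEquiv.subgroupCongr hr).trans e2.symm)⟩

end

end Pool.Agent.F8.CG
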