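import Pool.Agent.Lib.MP_305fdd_al.F8.CG.StmC
import Pool.Agent.Lib.MP_305fdd_al.F8.BG.P_E

/-!
# [CG srd] reduction modulo `m` is onto

`SL₂` of a finite commutative ring is generated by elementary matrices.
-/

set_option autoImplicit false

namespace Pool.Agent.F8.CG

open Pool.Agent.F8.BG Pool.Agent.MP_305fdd_al Pool.Agent.Lib.MP_305fdd_al Pool.Agent.F8

/-- a power of every element of a finite ring is idempotent -/
private theorem Csrd_idem {S : Type} [CommRing S] [Finite S] (x : S) :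
    ∃ n : ℕ, 0 < n ∧ x ^ n * x ^ n = x ^ n := by
  obtain ⟨i, j, hij, h⟩ := Finite.exists_ne_map_eq_of_infinite (fun n : ℕ => x ^ n)
  obtain ⟨i, p, hp, h⟩ : ∃ i p : ℕ, 0 < p ∧ x ^ (i + p) = x ^ i := by
    rcases lt_or_gt_of_ne hij with h1 | h1
    · exact ⟨i, j - i, by omega, by rw [show i + (j - i) = j by omega, h]⟩
    · exact ⟨j, i - j, by omega, by rw [show j + (i - j) = i by omega, h]⟩
  have h1 : ∀ m, i ≤ m → x ^ (m + p) = x ^ m := by
    intro m hm
    obtain ⟨r, rfl⟩ := Nat.exists_eq_add_of_le hm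
    rw [show i + r + p = (i + p) + r by ring, pow_add, h, ← pow_add]
  have h2 : ∀ k m, i ≤ m → x ^ (m + k * p) = x ^ m := by
    intro k
    induction k with
    | zero => intro m _; rw [Nat.zero_mul, Nat.add_zero]
    | succ k ih =>
      intro m hm
      rw [show m + (k + 1) * p = (m + k * p) + p by ring, h1 _ (by omega), ih m hm]
  refine ⟨(i + 1) * p, by positivity, ?_⟩
  rw [← pow_add]
  apply h2
  nlinarith

/-- stable range one -/
private theorem Csrd_sr {S : Type} [CommRing S] [Finite S] (x y z w : S) (h : x * w - y * z = 1) :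
    ∃ t : S, IsUnit (x + t * z) := by
  obtain ⟨n, hn, he⟩ := Csrd_idem x
  refine ⟨1 - x ^ n, ?_⟩
  by_contra hu
  obtain ⟨M, hM, hmem⟩ := exists_max_ideal_of_mem_nonunits hu
  have hMp : M.IsPrime := hM.isPrime
  have h1 : (1 : S) ∉ M := fun h1 => hMp.ne_top ((Ideal.eq_top_iff_one M).2 h1)
  by_cases hx : x ∈ M
  · have hxn : x ^ n ∈ M := Ideal.pow_mem_of_mem M hx n hn
    have h2 : (1 - x ^ n) * z ∈ M := by
      have := M.sub_mem hmem hx
      rwa [add_sub_cancel_left] at this
    rcases hMp.mem_or_mem h2 with h3 | h3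
    · apply h1
      have := M.add_mem h3 hxn
      rwa [sub_add_cancel] at this
    · apply h1
      rw [← h]
      exact M.sub_mem (M.mul_mem_right _ hx) (M.mul_mem_left _ h3)
  · have h2 : x ^ n * (1 - x ^ n) ∈ M := by
      have : x ^ n * (1 - x ^ n) = 0 := by linear_combination -he
      rw [this]
      exact M.zero_mem
    rcases hMp.mem_or_mem h2 with h3 | h3
    · exact hx (hMp.mem_of_pow_mem n h3)
    · apply hx
      have := M.sub_mem hmem (M.mul_mem_right z h3)
      rwa [add_sub_cancel_right] at this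

/-- `[[1, s], [0, 1]]` -/
private def Csrd_u {S : Type} [CommRing S] (s : S) : SL2 S :=
  ⟨!![1, s; 0, 1], by simp [Matrix.det_fin_two]⟩

/-- `[[1, 0], [s, 1]]` -/
private def Csrd_l {S : Type} [CommRing S] (s : S) : SL2 S :=
  ⟨!![1, 0; s, 1], by simp [Matrix.det_fin_two]⟩

private theorem Csrd_ext {S : Type} {a b c d a' b' c' d' : S} (h1 : a = a') (h2 : b = b')
    (h3 : c = c') (h4 : d = d') : !![a, b; c, d] = !![a', b'; c', d'] := by
  rw [h1, h2, h3, h4]

private theorem Csrd_D {S : Type} [CommRing S] (U v : S) (huv : U * v = 1) :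
    (!![1, U; 0, 1] * !![1, 0; -v, 1] * !![1, U; 0, 1]) *
        (!![1, -1; 0, 1] * !![1, 0; 1, 1] * !![1, -1; 0, 1]) = !![U, 0; 0, v] := by
  simp only [Matrix.mul_fin_two]
  apply Csrd_ext
  · linear_combination (-U) * huv
  · linear_combination huv
  · linear_combination (-1) * huv
  · ring

/-- `SL₂(A) → SL₂(S)` is onto -/
theorem Csrd_gen {A S : Type} [CommRing A] [CommRing S] [Finite S] (f : A →+* S)
    (hf : Function.Surjective f) : Function.Surjective (SLm f) := by
  have hu : ∀ s : S, Csrd_u s ∈ (SLm f).range := by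
    intro s
    obtain ⟨x, rfl⟩ := hf s
    refine ⟨Csrd_u x, ?_⟩
    apply Subtype.ext
    ext i j
    fin_cases i <;> fin_cases j
    · exact map_one f
    · rfl
    · exact map_zero f
    · exact map_one f
  have hl : ∀ s : S, Csrd_l s ∈ (SLm f).range := by
    intro s
    obtain ⟨x, rfl⟩ := hf s
    refine ⟨Csrd_l x, ?_⟩
    apply Subtype.ext
    ext i j
    fin_cases i <;> fin_cases j
    · exact map_one f
    · exact map_zero f
    · rfl
    · exact map_one f
  intro M
  obtain ⟨x, hx⟩ : ∃ x, x = M.val 0 0 := ⟨_, rfl⟩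
  obtain ⟨y, hy⟩ : ∃ y, y = M.val 0 1 := ⟨_, rfl⟩
  obtain ⟨z, hz⟩ : ∃ z, z = M.val 1 0 := ⟨_, rfl⟩
  obtain ⟨w, hw⟩ : ∃ w, w = M.val 1 1 := ⟨_, rfl⟩
  have hdet : x * w - y * z = 1 := by
    have h := M.property
    rw [Matrix.det_fin_two] at h
    rw [hx, hy, hz, hw]
    exact h
  have hMv : M.val = !![x, y; z, w] := by
    rw [hx, hy, hz, hw]
    exact Matrix.eta_fin_two _
  obtain ⟨t, ⟨u, hut⟩⟩ := Csrd_sr x y z w hdet
  obtain ⟨v, hv⟩ : ∃ v : S, v = (u⁻¹ : Sˣ).val := ⟨_, rfl⟩
  obtain ⟨U, hU⟩ : ∃ U : S, U = u.val := ⟨_, rfl⟩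
  have huv : U * v = 1 := by rw [hU, hv]; exact u.mul_inv
  rw [← hU] at hut
  have hM : M = Csrd_u (-t) * Csrd_l (z * v) *
      ((Csrd_u U * Csrd_l (-v) * Csrd_u U) * (Csrd_u (-1) * Csrd_l 1 * Csrd_u (-1))) *
      Csrd_u (v * (y + t * w)) := by
    apply Subtype.ext
    rw [hMv]
    show _ = !![1, -t; 0, 1] * !![1, 0; z * v, 1] *
      ((!![1, U; 0, 1] * !![1, 0; -v, 1] * !![1, U; 0, 1]) *
        (!![1, -1; 0, 1] * !![1, 0; 1, 1] * !![1, -1; 0, 1])) * !![1, v * (y + t * w); 0, 1]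
    rw [Csrd_D U v huv]
    simp only [Matrix.mul_fin_two]
    apply Csrd_ext
    · linear_combination -hut + t * z * huv
    · linear_combination (-y + t * z * v * (y + t * w)) * huv - t * v * hdet - t * v * w * hut
    · linear_combination (-z) * huv
    · linear_combination (-(w + z * v * (y + t * w))) * huv + v * hdet + v * w * hut
  rw [hM]
  exact (SLm f).range.mul_mem ((SLm f).range.mul_mem ((SLm f).range.mul_mem (hu _) (hl _))
    ((SLm f).range.mul_mem ((SLm f).range.mul_mem ((SLm f).range.mul_mem (hu _) (hl _)) (hu _))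
      ((SLm f).range.mul_mem ((SLm f).range.mul_mem (hu _) (hl _)) (hu _)))) (hu _)

/-- [CG srd] reduction modulo `m` is onto. -/
theorem p_Csrd : C_srd := by
  intro a b m _
  have : Finite (Qf a b (ZMod m)) := Finite.of_equiv _ (QuadraticAlgebra.equivProd _ _).symm
  exact Csrd_gen _ (E_surj a b m)

end Pool.Agent.F8.CG
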