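import Pool.Agent.Lib.MP_305fdd_al.F8.CG.StmC

/-!
# MP_305fdd_al, congruence subgroups: piece `C_un`
-/

set_option autoImplicit false

namespace Pool.Agent.F8.CG

open Pool.Agent.F8.BG Pool.Agent.MP_305fdd_al Pool.Agent.Lib.MP_305fdd_al Pool.Agent.F8
open scoped QuadraticAlgebra

private theorem Cun_nonneg (a b : ℤ) (h : b ^ 2 + 4 * a < 0) (p q : ℤ) :
    0 ≤ p ^ 2 + b * p * q - a * q ^ 2 := by
  have h1 : 4 * (p ^ 2 + b * p * q - a * q ^ 2) = (2 * p + b * q) ^ 2 +
      (-(b ^ 2 + 4 * a)) * q ^ 2 := by ring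
  have h2 : 0 ≤ (2 * p + b * q) ^ 2 := sq_nonneg _
  have h3 : 0 ≤ (-(b ^ 2 + 4 * a)) * q ^ 2 := mul_nonneg (by linarith) (sq_nonneg _)
  linarith

theorem p_Cun : C_un := by
  intro a b h m hm x y hxy hre him
  obtain ⟨u, hu⟩ := hre
  obtain ⟨v, hv⟩ := him
  have e1 : x.re * y.re + a * x.im * y.im = 1 := by
    have := congrArg QuadraticAlgebra.re hxy
    rw [QuadraticAlgebra.re_mul, QuadraticAlgebra.re_one] at this
    simpa using this
  have e2 : x.re * y.im + x.im * y.re + b * x.im * y.im = 0 := by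
    have := congrArg QuadraticAlgebra.im hxy
    rw [QuadraticAlgebra.im_mul, QuadraticAlgebra.im_one] at this
    simpa using this
  have hN : (x.re ^ 2 + b * x.re * x.im - a * x.im ^ 2) *
      (y.re ^ 2 + b * y.re * y.im - a * y.im ^ 2) = 1 := by
    have e3 : (x.re ^ 2 + b * x.re * x.im - a * x.im ^ 2) *
        (y.re ^ 2 + b * y.re * y.im - a * y.im ^ 2) =
        (x.re * y.re + a * x.im * y.im) ^ 2 + b * (x.re * y.re + a * x.im * y.im) *
          (x.re * y.im + x.im * y.re + b * x.im * y.im) -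
          a * (x.re * y.im + x.im * y.re + b * x.im * y.im) ^ 2 := by ring
    rw [e3, e1, e2]
    ring
  have hx1 : x.re ^ 2 + b * x.re * x.im - a * x.im ^ 2 = 1 := by
    have h1 := Cun_nonneg a b h x.re x.im
    exact Int.eq_one_of_mul_eq_one_right h1 hN
  have hxr : x.re = 1 + m * u := by linarith
  set nz := u ^ 2 + b * u * v - a * v ^ 2 with hnz
  set t := 2 * u + b * v with ht
  have hm0 : (0 : ℤ) < m := by
    have : (3 : ℤ) ≤ m := by exact_mod_cast hm
    linarith
  have e4 : (m : ℤ) * (t + m * nz) = 0 := by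
    rw [hxr, hv] at hx1
    rw [ht, hnz]
    linear_combination hx1
  have e5 : t = -(m * nz) := by
    rcases mul_eq_zero.1 e4 with h0 | h0
    · exact absurd h0 hm0.ne'
    · linarith
  have e6 : 4 * nz = t ^ 2 + (-(b ^ 2 + 4 * a)) * v ^ 2 := by
    rw [ht, hnz]
    ring
  have h7 : 0 ≤ (-(b ^ 2 + 4 * a)) * v ^ 2 := mul_nonneg (by linarith) (sq_nonneg _)
  have hnn : 0 ≤ nz := Cun_nonneg a b h u v
  have h8 : nz = 0 := by
    by_contra hne
    have h9 : 1 ≤ nz := by omega
    have h10 : t ^ 2 ≤ 4 * nz := by linarith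
    rw [e5] at h10
    have h11 : (3 : ℤ) ≤ m := by exact_mod_cast hm
    have h12 : (m : ℤ) * nz ≤ 0 ∨ 3 ≤ m * nz := by
      right
      nlinarith
    have h13 : 3 * nz ≤ m * nz := by nlinarith
    nlinarith
  rw [h8, mul_zero, neg_zero] at e5
  rw [h8, e5] at e6
  have hv0 : v = 0 := by
    have h9 : (-(b ^ 2 + 4 * a)) * v ^ 2 = 0 := by linarith
    rcases mul_eq_zero.1 h9 with h0 | h0
    · exfalso
      linarith
    · exact pow_eq_zero_iff (two_ne_zero) |>.1 h0
  have hu0 : u = 0 := by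
    rw [hv0] at ht
    omega
  apply QuadraticAlgebra.ext
  · rw [hxr, hu0, mul_zero, add_zero, QuadraticAlgebra.re_one]
  · rw [hv, hv0, mul_zero, QuadraticAlgebra.im_one]

end Pool.Agent.F8.CG
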