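import Pool.Agent.Lib.MP_305fdd_al.F8.CG.StmF

/-!
# MP_305fdd_al, congruence subgroups: comparison of the first Betti numbers
-/

set_option autoImplicit false

namespace Pool.Agent.F8.CG

open Pool.Agent.F8.BG Pool.Agent.MP_305fdd_al Pool.Agent.Lib.MP_305fdd_al Pool.Agent.F8
open scoped QuadraticAlgebra

noncomputable section

private theorem Fcmp_mem {a b : ℤ} {ι : Type} {α : MulAut (FreeGroup ι)} {G₀ : Subgroup (GQ a b)}
    (η : G₀ →* GR α) (A : Subgroup (GQ a b)) (x : G₀) (hx : x.val ∈ A) : η x ∈ imE η A :=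
  ⟨x, Subgroup.mem_subgroupOf.2 hx, rfl⟩

theorem p_Fcmp (hb1n : N_b1n) (hb1s : N_b1s) (hemb : F_emb) : F_cmp := by
  intro a b ι _ α M c g G₀ η hη D m hm3 hMm hD hfg Λ _ _ Φ ρ hρ
  obtain ⟨hG, -, hinj⟩ := hemb a b ι α M c g G₀ η hη m hm3 hMm
  have hm0 : NeZero m := ⟨by omega⟩
  obtain ⟨C, E, hCE, hEC, hCr⟩ := hρ m
  have hK : ∀ l : Λ, l ∈ (Φ.toFun _ ((rdq a b m).comp D.subtype)).ker ↔ ρ l ∈ Gam a b m := by
    intro l
    rw [MonoidHom.mem_ker, MonoidHom.mem_ker]
    constructor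
    · intro h
      have h1 := hCr l
      rw [h] at h1
      apply Subtype.ext
      rw [h1]
      show C * 1 * E = 1
      rw [mul_one, hCE]
    · intro h
      have h1 := hCr l
      rw [h] at h1
      have h1' : (1 : Matrix (Fin 2) (Fin 2) (Qf a b (ZMod m))) =
        C * (Φ.toFun _ ((rdq a b m).comp D.subtype) l).val * E := h1
      apply Subtype.ext
      show (Φ.toFun _ ((rdq a b m).comp D.subtype) l).val = 1
      set X := (Φ.toFun _ ((rdq a b m).comp D.subtype) l).val with hX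
      calc X = (E * C) * X * (E * C) := by rw [hEC, one_mul, mul_one]
        _ = E * (C * X * E) * C := by simp only [mul_assoc]
        _ = 1 := by rw [← h1', mul_one, hEC]
  obtain ⟨Ψ, -⟩ := natBij_ker (π := (rdq a b m).comp D.subtype) Φ rfl
  -- the group `Gam a b m` and the kernel
  have hfg1 : Group.FG (Gam a b m) := (Group.fg_iff_subgroup_fg _).2 hfg
  let f1 : Gam a b m →* ((rdq a b m).comp D.subtype).ker :=
    { toFun := fun x => ⟨⟨x.val, hD x.2⟩, x.2⟩
      map_one' := rfl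
      map_mul' := fun _ _ => rfl }
  have hf1 : Function.Surjective f1 := by
    rintro ⟨⟨x, hx⟩, hx'⟩
    exact ⟨⟨x, hx'⟩, rfl⟩
  have hfg2 : Group.FG ((rdq a b m).comp D.subtype).ker := Group.fg_of_surjective hf1
  have hfin : (Φ.toFun _ ((rdq a b m).comp D.subtype)).ker.FiniteIndex :=
    Subgroup.finiteIndex_ker _
  have hfg3 : Group.FG (Φ.toFun _ ((rdq a b m).comp D.subtype)).ker :=
    Subgroup.fg_of_index_ne_zero _
  have e1 := hb1n _ _ ⟨Ψ⟩
  -- the isomorphism of `Gam a b m` with its image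
  let fN : Gam a b m →* imE η (Gam a b m) :=
    (η.comp (Subgroup.inclusion hG)).codRestrict _
      (fun x => Fcmp_mem η (Gam a b m) ⟨x.1, hG x.2⟩ x.2)
  have hfN : Function.Bijective fN := by
    refine ⟨?_, ?_⟩
    · intro x y h
      have h1 : η ⟨x.1, hG x.2⟩ = η ⟨y.1, hG y.2⟩ := congrArg Subtype.val h
      have h2 := hinj _ _ x.2 y.2 h1
      exact Subtype.ext (congrArg (fun w : G₀ => w.val) h2)
    · rintro ⟨x, y, hy, hy2⟩
      exact ⟨⟨y.val, Subgroup.mem_subgroupOf.1 hy⟩, Subtype.ext hy2⟩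
  have hfg4 : Group.FG (imE η (Gam a b m)) := Group.fg_of_surjective hfN.2
  have e2 : b1 ((rdq a b m).comp D.subtype).ker ≤ b1 (imE η (Gam a b m)) := by
    refine hb1s _ _ (f1.comp (MulEquiv.ofBijective fN hfN).symm.toMonoidHom) ?_
    exact hf1.comp (MulEquiv.ofBijective fN hfN).symm.surjective
  -- the image of `K`
  have hρG : ∀ l : (Φ.toFun _ ((rdq a b m).comp D.subtype)).ker, ρ l ∈ Gam a b m :=
    fun l => (hK l).1 l.2
  let f0 : (Φ.toFun _ ((rdq a b m).comp D.subtype)).ker →* G₀ :=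
    (ρ.comp (Φ.toFun _ ((rdq a b m).comp D.subtype)).ker.subtype).codRestrict G₀
      (fun l => hG (hρG l))
  let fL : (Φ.toFun _ ((rdq a b m).comp D.subtype)).ker →* imE η (ρ.range ⊓ Gam a b m) :=
    (η.comp f0).codRestrict _ (fun l => Fcmp_mem η (ρ.range ⊓ Gam a b m) (f0 l)
      ⟨⟨l, rfl⟩, hρG l⟩)
  have hfL : Function.Surjective fL := by
    rintro ⟨x, y, hy, hy2⟩
    obtain ⟨⟨l, hl⟩, hy3⟩ := Subgroup.mem_subgroupOf.1 hy
    have hl' : l ∈ (Φ.toFun _ ((rdq a b m).comp D.subtype)).ker := by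
      rw [hK, hl]
      exact hy3
    refine ⟨⟨l, hl'⟩, Subtype.ext ?_⟩
    show η (f0 ⟨l, hl'⟩) = x
    rw [← hy2]
    congr 1
    exact Subtype.ext hl
  have e3 := hb1s _ _ fL hfL
  rw [← e1] at e3
  exact e3.trans e2

end

end Pool.Agent.F8.CG
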