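import Pool.Agent.Lib.MP_305fdd_al.F8.CG.StmF

/-!
# MP_305fdd_al, congruence subgroups: piece CG Ffin

The image of `ρ` has finite index.
-/

set_option autoImplicit false

namespace Pool.Agent.F8.CG

open Pool.Agent.F8.BG Pool.Agent.MP_305fdd_al Pool.Agent.Lib.MP_305fdd_al Pool.Agent.F8
open scoped QuadraticAlgebra

noncomputable section

section

variable {a b : ℤ}

/-- the reduction from `m'` to `m` -/
private def Ffin_q (a b : ℤ) {m m' : ℕ} (h : m ∣ m') : Qf a b (ZMod m') →+* Qf a b (ZMod m) :=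
  Qfm a b (ZMod.castHom h (ZMod m))

private theorem Ffin_q_rdq {m m' : ℕ} (h : m ∣ m') (x : GQ a b) :
    (rdq a b m x).val = (Ffin_q a b h).mapMatrix (rdq a b m' x).val := by
  ext i j
  · show (((x.val i j).re : ℤ) : ZMod m) = ZMod.castHom h (ZMod m) (((x.val i j).re : ℤ) : ZMod m')
    rw [map_intCast]
  · show (((x.val i j).im : ℤ) : ZMod m) = ZMod.castHom h (ZMod m) (((x.val i j).im : ℤ) : ZMod m')
    rw [map_intCast]

private theorem Ffin_mono {m m' : ℕ} (h : m ∣ m') : Gam a b m' ≤ Gam a b m := by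
  intro x hx
  rw [MonoidHom.mem_ker] at hx ⊢
  apply Subtype.ext
  rw [Ffin_q_rdq h x, hx]
  exact map_one _

private theorem Ffin_L {m L : ℕ} (h : L ∣ m) (z x₀ : GQ a b)
    (C E : Matrix (Fin 2) (Fin 2) (Qf a b (ZMod m))) (hCE : C * E = 1)
    (hz : (rdq a b m z).val = C * (rdq a b m x₀).val * E) (hx : x₀ ∈ Gam a b L) :
    z ∈ Gam a b L := by
  rw [MonoidHom.mem_ker] at hx ⊢
  have h1 : (Ffin_q a b h).mapMatrix (rdq a b m x₀).val = 1 := by
    rw [← Ffin_q_rdq, hx]; rfl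
  apply Subtype.ext
  rw [Ffin_q_rdq h z, hz, map_mul, map_mul, h1, mul_one, ← map_mul, hCE]
  exact map_one _

private theorem Ffin_zero (a b : ℤ) (L : ℕ) :
    Qfm a b (Int.castRingHom (ZMod L)) ((L : ℤ) : Qf a b ℤ) = 0 := by
  rw [map_intCast]
  apply QuadraticAlgebra.ext <;> simp

private theorem Ffin_eU (a b : ℤ) (L : ℕ) : (eU ((L : ℤ) : Qf a b ℤ) : GQ a b) ∈ Gam a b L := by
  rw [MonoidHom.mem_ker]
  unfold rdq
  rw [eU_map, Ffin_zero]
  exact AB.mx_one.symm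

private theorem Ffin_eV (a b : ℤ) (L : ℕ) : (eV ((L : ℤ) : Qf a b ℤ) : GQ a b) ∈ Gam a b L := by
  rw [MonoidHom.mem_ker]
  unfold rdq
  rw [eV_map, Ffin_zero]
  exact AB.mx_one.symm

/-- two elements of the image, with a good commutator -/
private theorem Ffin_com (D : Subgroup (GQ a b)) (L : ℕ) (hL : L ≠ 0) (hLD : Gam a b L ≤ D)
    {Λ : Type} [Group Λ] (Φ : NatBij D Λ) (ρ : Λ →* GQ a b) (hρ : RhoG D.subtype Φ ρ) :
    ∃ l₁ l₂ : Λ, ρ l₁ ∈ Gam a b L ∧ ρ l₂ ∈ Gam a b L ∧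
      tr (ρ (l₁ * l₂ * l₁⁻¹ * l₂⁻¹)) ≠ 2 ∧ tr (ρ (l₁ * l₂ * l₁⁻¹ * l₂⁻¹)) ≠ -2 := by
  obtain ⟨m, hm⟩ : ∃ m, m = L * (L ^ 4 + 5) := ⟨_, rfl⟩
  have hm0 : NeZero m := ⟨by rw [hm]; exact Nat.mul_ne_zero hL (by omega)⟩
  have hLm : L ∣ m := ⟨_, hm⟩
  let x₀ : D := ⟨eU ((L : ℤ) : Qf a b ℤ), hLD (Ffin_eU a b L)⟩
  let y₀ : D := ⟨eV ((L : ℤ) : Qf a b ℤ), hLD (Ffin_eV a b L)⟩
  obtain ⟨C, E, hCE, hEC, hl⟩ := hρ m
  have hex : ∀ x : D, ∃ l, Φ.toFun _ ((rdq a b m).comp D.subtype) l = rdq a b m x := by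
    intro x
    have h1 : rdq a b m x ∈ ((rdq a b m).comp D.subtype).range := ⟨x, rfl⟩
    rw [← Φ.range_eq] at h1
    exact h1
  obtain ⟨l₁, hl₁⟩ := hex x₀
  obtain ⟨l₂, hl₂⟩ := hex y₀
  have htr : tr (rdq a b m (ρ (l₁ * l₂ * l₁⁻¹ * l₂⁻¹))) =
      ((2 + (L : ℤ) ^ 4 : ℤ) : Qf a b (ZMod m)) := by
    have h1 : Φ.toFun _ ((rdq a b m).comp D.subtype) (l₁ * l₂ * l₁⁻¹ * l₂⁻¹) =
        rdq a b m (eU ((L : ℤ) : Qf a b ℤ) * eV ((L : ℤ) : Qf a b ℤ) *
          (eU ((L : ℤ) : Qf a b ℤ))⁻¹ * (eV ((L : ℤ) : Qf a b ℤ))⁻¹) := by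
      simp only [map_mul, map_inv, hl₁, hl₂]
      rfl
    have h2 := hl (l₁ * l₂ * l₁⁻¹ * l₂⁻¹)
    rw [h1] at h2
    unfold tr
    rw [h2, Matrix.trace_mul_comm, ← Matrix.mul_assoc, hEC, Matrix.one_mul]
    show tr (rdq a b m _) = _
    unfold rdq
    rw [tr_map, eUV_tr]
    simp only [map_add, map_pow, map_intCast, map_ofNat, Int.cast_add, Int.cast_pow,
      Int.cast_ofNat]
  have hL0 : 0 < (L : ℤ) := by omega
  have hL1 : 1 ≤ (L : ℤ) := hL0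
  have hmI : (m : ℤ) = L * ((L : ℤ) ^ 4 + 5) := by rw [hm]; push_cast; ring
  have hL4 : 0 < (L : ℤ) ^ 4 := by positivity
  have hmL : (L : ℤ) ^ 4 + 5 ≤ m := by rw [hmI]; nlinarith
  refine ⟨l₁, l₂, ?_, ?_, ?_, ?_⟩
  · exact Ffin_L hLm _ x₀ C E hCE (by rw [hl, hl₁]) (Ffin_eU a b L)
  · exact Ffin_L hLm _ y₀ C E hCE (by rw [hl, hl₂]) (Ffin_eV a b L)
  · intro h
    have h1 : tr (rdq a b m (ρ (l₁ * l₂ * l₁⁻¹ * l₂⁻¹))) = 2 := by
      unfold rdq
      rw [tr_map, h, map_ofNat]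
    rw [htr] at h1
    have h3 := Qf_intCast_eq_zero ((L : ℤ) ^ 4) (a := a) (b := b) (m := m) (by
      have : (((L : ℤ) ^ 4 : ℤ) : Qf a b (ZMod m)) =
          ((2 + (L : ℤ) ^ 4 : ℤ) : Qf a b (ZMod m)) - 2 := by
        push_cast; ring
      rw [this, h1, sub_self])
    have h4 := Int.le_of_dvd hL4 h3
    linarith
  · intro h
    have h1 : tr (rdq a b m (ρ (l₁ * l₂ * l₁⁻¹ * l₂⁻¹))) = -2 := by
      unfold rdq
      rw [tr_map, h, map_neg, map_ofNat]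
    rw [htr] at h1
    have h3 := Qf_intCast_eq_zero ((L : ℤ) ^ 4 + 4) (a := a) (b := b) (m := m) (by
      have : (((L : ℤ) ^ 4 + 4 : ℤ) : Qf a b (ZMod m)) =
          ((2 + (L : ℤ) ^ 4 : ℤ) : Qf a b (ZMod m)) + 2 := by
        push_cast; ring
      rw [this, h1, neg_add_cancel])
    have h4 := Int.le_of_dvd (by linarith) h3
    linarith

/-! ### The images -/

section

variable {ι : Type} {α : MulAut (FreeGroup ι)} {G₀ : Subgroup (GQ a b)} (η : G₀ →* GR α)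
  {A₀ : Subgroup (GQ a b)} (hA₀ : A₀ ≤ G₀)

/-- the restriction -/
private def Ffin_f : A₀ →* GR α := η.comp (Subgroup.inclusion hA₀)

private theorem Ffin_f_inj (hinj : ∀ x y : G₀, x.val ∈ A₀ → y.val ∈ A₀ → η x = η y → x = y) :
    Function.Injective (Ffin_f η hA₀) := by
  intro x y h
  have h1 := hinj (Subgroup.inclusion hA₀ x) (Subgroup.inclusion hA₀ y) x.2 y.2 h
  exact Subgroup.inclusion_injective hA₀ h1

private theorem Ffin_im {A : Subgroup (GQ a b)} (hA : A ≤ A₀) :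
    imE η A = (A.subgroupOf A₀).map (Ffin_f η hA₀) := by
  ext z
  constructor
  · rintro ⟨x, hx, rfl⟩
    exact ⟨⟨x.1, hA hx⟩, hx, rfl⟩
  · rintro ⟨x, hx, rfl⟩
    exact ⟨⟨x.1, hA₀ x.2⟩, hx, rfl⟩

private theorem Ffin_imono {A B : Subgroup (GQ a b)} (h : A ≤ B) : imE η A ≤ imE η B := by
  rintro _ ⟨x, hx, rfl⟩
  exact ⟨x, h hx, rfl⟩

private theorem Ffin_rel (hinj : ∀ x y : G₀, x.val ∈ A₀ → y.val ∈ A₀ → η x = η y → x = y)
    (hA₀ : A₀ ≤ G₀) {A B : Subgroup (GQ a b)} (hA : A ≤ A₀) (hB : B ≤ A₀) :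
    (imE η A).relIndex (imE η B) = A.relIndex B := by
  rw [Ffin_im η hA₀ hA, Ffin_im η hA₀ hB,
    Subgroup.relIndex_map_map_of_injective _ _ (Ffin_f_inj η hA₀ hinj),
    Subgroup.relIndex_subgroupOf hB]

private theorem Ffin_inf (hinj : ∀ x y : G₀, x.val ∈ A₀ → y.val ∈ A₀ → η x = η y → x = y)
    {A B : Subgroup (GQ a b)} (hA : A ≤ A₀) (hB : B ≤ A₀) :
    imE η A ⊓ imE η B = imE η (A ⊓ B) := by
  apply le_antisymm
  · rintro z ⟨⟨x, hx, hxz⟩, ⟨y, hy, hyz⟩⟩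
    have h1 := hinj x y (hA hx) (hB hy) (hxz.trans hyz.symm)
    subst h1
    exact ⟨x, ⟨hx, hy⟩, hxz⟩
  · exact le_inf (Ffin_imono η inf_le_left) (Ffin_imono η inf_le_right)

end

private theorem Ffin_Gfg {ι : Type} [Finite ι] (α : MulAut (FreeGroup ι)) : Group.FG (GR α) := by
  rw [Group.fg_iff]
  refine ⟨insert (tR α) (Set.range fun i => iR α (FreeGroup.of i)), ?_,
    (Set.finite_range _).insert _⟩
  rw [eq_top_iff]
  rintro x -
  obtain ⟨w, n, rfl⟩ := GR_cases α x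
  have hw : iR α w ∈ Subgroup.closure (insert (tR α) (Set.range fun i => iR α (FreeGroup.of i))) := by
    have hle : (⊤ : Subgroup (FreeGroup ι)) ≤ (Subgroup.closure
        (insert (tR α) (Set.range fun i => iR α (FreeGroup.of i)))).comap (iR α) := by
      rw [← FreeGroup.closure_range_of, Subgroup.closure_le]
      rintro _ ⟨i, rfl⟩
      exact Subgroup.subset_closure (Set.mem_insert_of_mem _ ⟨i, rfl⟩)
    exact hle (Subgroup.mem_top w)
  exact mul_mem hw (zpow_mem (Subgroup.subset_closure (Set.mem_insert _ _)) _)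

private theorem Ffin_fin (a b : ℤ) (m : ℕ) [NeZero m] : Finite (SL2 (Qf a b (ZMod m))) := by
  have : Finite (Qf a b (ZMod m)) :=
    Finite.of_equiv (ZMod m × ZMod m) (QuadraticAlgebra.equivProd (a : ZMod m) (b : ZMod m)).symm
  infer_instance

end

/-- **[CG fin]** -/
theorem p_Ffin (hfi : B_fi) (hnpr : F_npr) (hemb : F_emb) (htwo : F_two) (htow : F_tow)
    (hcrd : F_crd) (hcmp : F_cmp) : F_fin := by
  intro a b ι _ α N w M c g G₀ η hDat D m₀ hm₀ hmD Λ _ _ Φ ρ hρ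
  have hη := hDat.eta
  have hM0 : 0 < M := Nat.pos_of_ne_zero hη.ne
  have hm0 : 0 < m₀ := Nat.pos_of_ne_zero hm₀
  obtain ⟨L, hL⟩ : ∃ L, L = 6 * M * m₀ := ⟨_, rfl⟩
  have hMm : 0 < M * m₀ := Nat.mul_pos hM0 hm0
  have hL6 : L = 6 * (M * m₀) := by rw [hL]; ring
  have hL3 : 3 ≤ L := by omega
  have hL0 : L ≠ 0 := by omega
  have h2L : 2 ∣ L := by omega
  have hML : M ∣ L := ⟨6 * m₀, by rw [hL]; ring⟩
  have hmL : m₀ ∣ L := ⟨6 * M, by rw [hL]; ring⟩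
  have hLne : NeZero L := ⟨hL0⟩
  have hj0 : ∀ j : ℕ, 0 < 2 ^ j := fun j => by positivity
  have hLj : ∀ j : ℕ, L ∣ 2 ^ j * L := fun j => ⟨2 ^ j, by ring⟩
  have hLle : ∀ j : ℕ, L ≤ 2 ^ j * L := fun j => Nat.le_mul_of_pos_left _ (hj0 j)
  obtain ⟨hLG, -, hinj⟩ := hemb a b ι α M c g G₀ η hη L hL3 hML
  have hLD : Gam a b L ≤ D := (Ffin_mono hmL).trans hmD
  have hT := htow a b ι α M c g G₀ η hη L hL3 hML
  have hGfg := Ffin_Gfg α
  obtain ⟨R, hR⟩ : ∃ R, R = ρ.range ⊓ Gam a b L := ⟨_, rfl⟩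
  have hRL : R ≤ Gam a b L := by rw [hR]; exact inf_le_right
  obtain ⟨l₁, l₂, hl₁, hl₂, ht1, ht2⟩ := Ffin_com D L hL0 hLD Φ ρ hρ
  have hl₁R : ρ l₁ ∈ R := by rw [hR]; exact ⟨⟨l₁, rfl⟩, hl₁⟩
  have hl₂R : ρ l₂ ∈ R := by rw [hR]; exact ⟨⟨l₂, rfl⟩, hl₂⟩
  let X : G₀ := ⟨ρ l₁, hLG hl₁⟩
  let Y : G₀ := ⟨ρ l₂, hLG hl₂⟩
  have hXY : (X * Y * X⁻¹ * Y⁻¹ : G₀).val = ρ (l₁ * l₂ * l₁⁻¹ * l₂⁻¹) := by
    rw [map_mul, map_mul, map_mul, map_inv, map_inv]
    rfl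
  obtain ⟨p, hp, hpN⟩ := hnpr a b hDat.neg ι α M c g G₀ η hη X Y (by rw [hXY]; exact ht1)
    (by rw [hXY]; exact ht2)
  have hXH : η X ∈ imE η R := ⟨X, hl₁R, rfl⟩
  have hYH : η Y ∈ imE η R := ⟨Y, hl₂R, rfl⟩
  have hpH : iR α p ∈ imE η R := by
    rw [hp, map_mul, map_mul, map_mul, map_inv, map_inv]
    exact mul_mem (mul_mem (mul_mem hXH hYH) (inv_mem hXH)) (inv_mem hYH)
  -- the group `H` is finitely generated
  have hHfg : (imE η R).FG := by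
    have hFin := Ffin_fin a b L
    let K : Subgroup Λ := ((rdq a b L).comp ρ).ker
    have hK : K.FiniteIndex := Subgroup.finiteIndex_ker _
    have hKfg : Group.FG K := Subgroup.fg_of_index_ne_zero _
    let ψ : K →* GR α := η.comp ((ρ.comp K.subtype).codRestrict G₀ fun l => hLG l.2)
    have h1 : ψ.range = imE η R := by
      apply le_antisymm
      · rintro _ ⟨l, rfl⟩
        refine ⟨⟨ρ l, hLG l.2⟩, ?_, rfl⟩
        show ρ l ∈ R
        rw [hR]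
        exact ⟨⟨l, rfl⟩, l.2⟩
      · rintro _ ⟨x, hx, rfl⟩
        have hx : x.val ∈ R := hx
        rw [hR] at hx
        obtain ⟨⟨l, hl⟩, hx2⟩ := hx
        have hlK : l ∈ K := by
          show rdq a b L (ρ l) = 1
          rw [hl]
          exact hx2
        refine ⟨⟨l, hlK⟩, ?_⟩
        show η ⟨ρ l, _⟩ = η x
        congr 1
        exact Subtype.ext hl
    rw [← h1]
    exact (Group.fg_iff_subgroup_fg _).1 (Group.fg_range ψ)
  -- the tower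
  have hGle : ∀ j : ℕ, Gam a b (2 ^ j * L) ≤ Gam a b L := fun j => Ffin_mono (hLj j)
  have hrel : ∀ j : ℕ, (imE η (Gam a b (2 ^ j * L))).relIndex (imE η R) =
      (Gam a b (2 ^ j * L)).relIndex R := fun j => Ffin_rel η hinj hLG (hGle j) hRL
  have hrel2 : ∀ j : ℕ, (imE η (Gam a b (2 ^ j * L))).relIndex (imE η (Gam a b L)) =
      (imE η (Gam a b (2 ^ j * L))).relIndex (imE η R) := by
    intro j
    rw [hrel, Ffin_rel η hinj hLG (hGle j) le_rfl, mul_comm, hR]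
    exact (hcrd a b D L hL0 hLD Λ Φ ρ hρ (2 ^ j) (hj0 j).ne').symm
  have hfin := hfi ι α N w hDat.one_le hDat.pos (imE η (Gam a b L))
    (fun j => imE η (Gam a b (2 ^ j * L))) hT (imE η R) (Ffin_imono η hRL) hHfg
    ⟨η X, hXH, η Y, hYH, by
      intro h
      have h1 : iR α p = 1 := by
        rw [hp, map_mul, map_mul, map_mul, map_inv, map_inv, h]
        group
      have h2 : p = 1 := iR_injective α (by rw [h1, map_one])
      apply hpN 1 1 le_rfl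
      rw [h2, map_one]
      group⟩ 2 (imE η (Gam a b L)).index
    (fun j => by
      rw [hrel]
      exact htwo a b L hL0 h2L R hRL j)
    (fun j => by
      rw [← hrel2, ← Subgroup.relIndex_mul_index (Ffin_imono η (hGle j)), mul_comm])
    (fun j => by
      have hm3 : 3 ≤ 2 ^ j * L := hL3.trans (hLle j)
      have hMd : M ∣ 2 ^ j * L := hML.trans (hLj j)
      have e : imE η R ⊓ imE η (Gam a b (2 ^ j * L)) =
          imE η (ρ.range ⊓ Gam a b (2 ^ j * L)) := by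
        rw [Ffin_inf η hinj hRL (hGle j), hR, inf_assoc, inf_eq_right.2 (hGle j)]
      rw [e]
      refine hcmp a b ι α M c g G₀ η hη D (2 ^ j * L) hm3 hMd ((hGle j).trans hLD) ?_ Λ Φ ρ hρ
      obtain ⟨hjG, -, hjinj⟩ := hemb a b ι α M c g G₀ η hη (2 ^ j * L) hm3 hMd
      have h1 : (Ffin_f η hjG).range = imE η (Gam a b (2 ^ j * L)) := by
        rw [Ffin_im η hjG le_rfl, Subgroup.subgroupOf_self, ← MonoidHom.range_eq_map]
      have h2 : (imE η (Gam a b (2 ^ j * L))).FiniteIndex := hT.fin j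
      have h3 : Group.FG (Ffin_f η hjG).range := by
        rw [h1]
        exact Subgroup.fg_of_index_ne_zero _
      rw [← Group.fg_iff_subgroup_fg]
      exact Group.fg_of_surjective
        (f := (MonoidHom.ofInjective (Ffin_f_inj η hjG hjinj)).symm.toMonoidHom)
        (MonoidHom.ofInjective (Ffin_f_inj η hjG hjinj)).symm.surjective)
    ⟨p, hpH, hpN⟩
  -- the end
  have hrL : R.relIndex (Gam a b L) ≠ 0 := by
    rw [← Ffin_rel η hinj hLG hRL le_rfl]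
    intro h
    exact hfin.index_ne_zero (Nat.eq_zero_of_zero_dvd
      (h ▸ Subgroup.relIndex_dvd_index_of_le (Ffin_imono η hRL)))
  have hGf : (Gam a b L).index ≠ 0 := by
    have hFin := Ffin_fin a b L
    exact (Subgroup.finiteIndex_ker (rdq a b L)).index_ne_zero
  have hRi : R.FiniteIndex := by
    constructor
    rw [← Subgroup.relIndex_mul_index hRL]
    exact Nat.mul_ne_zero hrL hGf
  have hle : R ≤ ρ.range := by rw [hR]; exact inf_le_left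
  exact Subgroup.finiteIndex_of_le hle

end

end Pool.Agent.F8.CG
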