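import Pool.Agent.Lib.MP_305fdd_al.F8.CG.StmF

/-!
# MP_305fdd_al, congruence subgroups, piece npr of block F: commutators give elements which are not periodic

The proof follows the piece npr of the Bianchi groups project (`F8/BG/P_npr.lean`).
-/

set_option autoImplicit false

namespace Pool.Agent.F8.CG

open Pool.Agent.F8.BG Pool.Agent.MP_305fdd_al Pool.Agent.Lib.MP_305fdd_al Pool.Agent.F8
open scoped QuadraticAlgebra

private theorem Fnpr_comm {a b : ℤ} (P W : GQ a b)
    (h : W * P * W⁻¹ * P⁻¹ = 1 ∨ W * P * W⁻¹ * P⁻¹ = -1) : P * W ^ 2 = W ^ 2 * P := by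
  have h0 : W * P = (W * P * W⁻¹ * P⁻¹) * (P * W) := by group
  rcases h with h | h
  · rw [h, one_mul] at h0
    rw [pow_two, mul_assoc W W P, h0, ← mul_assoc, ← mul_assoc, h0]
  · rw [h, neg_mul, one_mul] at h0
    rw [pow_two, mul_assoc W W P, h0, mul_neg, ← mul_assoc W P W, h0, neg_mul, neg_neg, mul_assoc]

private theorem Fnpr_tr_one {a b : ℤ} : tr (1 : GQ a b) = 2 := by
  unfold tr
  rw [Matrix.SpecialLinearGroup.coe_one, Matrix.trace_one]
  simp

private theorem Fnpr_tr_neg {a b : ℤ} : tr (-1 : GQ a b) = -2 := by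
  unfold tr
  rw [Matrix.SpecialLinearGroup.coe_neg, Matrix.trace_neg, Matrix.SpecialLinearGroup.coe_one,
    Matrix.trace_one]
  simp

/-- [CG npr] commutators give elements which are not periodic -/
theorem p_Fnpr (hpar : BG.S_par) : F_npr := by
  intro a b hab ι α M c g G₀ η hη X Y ht1 ht2
  set Z : G₀ := X * Y * X⁻¹ * Y⁻¹ with hZ
  have hZn : nR α (η Z) = 1 := by
    rw [hZ]
    simp only [map_mul, map_inv]
    rw [mul_comm (nR α (η X)) (nR α (η Y))]
    group
  obtain ⟨p, hp⟩ := GR_ker α (η Z) hZn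
  refine ⟨p, hp.symm, ?_⟩
  intro j g' hj hper
  set T : GR α := iR α g'⁻¹ * tR α ^ j with hT
  have hTp : T * iR α p = iR α p * T := by
    have h1 := tR_pow_conj α j p
    rw [hper] at h1
    have h2 : tR α ^ j * iR α p = iR α (g' * p * g'⁻¹) * tR α ^ j := by
      rw [← h1]
      group
    rw [hT, mul_assoc, h2, ← mul_assoc, ← mul_assoc, ← map_mul, ← map_mul]
    congr 2
    group
  have hTn : nR α T = Multiplicative.ofAdd (j : ℤ) := by
    rw [hT, ← zpow_natCast, nR_eq]
  obtain ⟨k, hk, -, W, hW⟩ := Subgroup.exists_pow_mem_of_index_ne_zero hη.fin.index_ne_zero T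
  have hWZ : η (W * Z * W⁻¹ * Z⁻¹) = 1 := by
    have h1 : T ^ k * iR α p = iR α p * T ^ k := (Commute.pow_left hTp k)
    rw [map_mul, map_mul, map_mul, map_inv, map_inv, hW, hp, h1]
    group
  have hc : Z.val * W.val ^ 2 = W.val ^ 2 * Z.val :=
    Fnpr_comm Z.val W.val ((hη.ker _).1 hWZ)
  obtain ⟨m', n', hmn, he⟩ := hpar a b hab Z.val (W.val ^ 2) hc ht1 ht2
  have he' : Z ^ m' * (W ^ 2) ^ n' = 1 := Subtype.ext he
  have h3 := congrArg (fun x => Multiplicative.toAdd (nR α (η x))) he'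
  simp only [map_mul, map_zpow, map_pow, map_one, hW, hTn, hZn, one_zpow, one_mul, toAdd_one,
    toAdd_zpow, toAdd_pow, toAdd_ofAdd] at h3
  have hn' : n' = 0 := by
    by_contra hne
    have hj' : (j : ℤ) ≠ 0 := by omega
    have hk' : (k : ℤ) ≠ 0 := by omega
    simp only [smul_eq_mul, nsmul_eq_mul, Nat.cast_ofNat] at h3
    have : n' * (2 * ((k : ℤ) * j)) ≠ 0 :=
      mul_ne_zero hne (mul_ne_zero two_ne_zero (mul_ne_zero hk' hj'))
    exact this h3
  have hm' : m' ≠ 0 := by
    rcases hmn with h | h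
    · exact h
    · exact absurd hn' h
  rw [hn', zpow_zero, mul_one] at he'
  have h4 := congrArg η he'
  rw [map_zpow, map_one, hp, ← map_zpow, ← map_one (iR α)] at h4
  have h5 : p ^ m' = 1 := iR_injective α h4
  have h6 : p = 1 := (IsMulTorsionFree.zpow_eq_one_iff_left hm').1 h5
  rw [h6, map_one] at hp
  rcases (hη.ker Z).1 hp with h | h
  · exact ht1 (by rw [h, Fnpr_tr_one])
  · exact ht2 (by rw [h, Fnpr_tr_neg])

end Pool.Agent.F8.CG
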