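import Pool.Agent.Lib.MP_305fdd_al.F8.CG.StmF
import Pool.Agent.Lib.MP_305fdd_al.F8.BG.P_E

/-!
# MP_305fdd_al, congruence subgroups, piece Ftwo: the index of `Γ(2^j L)` is a power of two
-/

set_option autoImplicit false

namespace Pool.Agent.F8.CG

open Pool.Agent.F8.BG Pool.Agent.MP_305fdd_al Pool.Agent.Lib.MP_305fdd_al Pool.Agent.F8
open scoped QuadraticAlgebra

noncomputable section

private theorem Ftwo_zero (a b : ℤ) (m : ℕ) :
    Qfm a b (Int.castRingHom (ZMod m)) (m : Qf a b ℤ) = 0 := by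
  rw [map_natCast]
  apply QuadraticAlgebra.ext
  · rw [QuadraticAlgebra.re_natCast, QuadraticAlgebra.re_zero, ZMod.natCast_self]
  · rw [QuadraticAlgebra.im_natCast, QuadraticAlgebra.im_zero]

private theorem Ftwo_mem {a b : ℤ} {m : ℕ} (x : GQ a b) :
    x ∈ Gam a b m ↔ ∃ X : Matrix (Fin 2) (Fin 2) (Qf a b ℤ),
      x.val = 1 + (m : Qf a b ℤ) • X := by
  constructor
  · intro h
    have h1 : rdq a b m x = 1 := h
    have h2 : ∀ i j, ∃ z : Qf a b ℤ, x.val i j - (1 : Matrix (Fin 2) (Fin 2) (Qf a b ℤ)) i j =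
        (m : Qf a b ℤ) * z := by
      intro i j
      apply BG.E_ker a b m
      rw [map_sub]
      have h3 : Qfm a b (Int.castRingHom (ZMod m)) (x.val i j) =
          (1 : Matrix (Fin 2) (Fin 2) (Qf a b (ZMod m))) i j :=
        congrFun (congrFun (congrArg Subtype.val h1) i) j
      rw [h3, Matrix.one_apply, Matrix.one_apply]
      split_ifs <;> simp
    choose X hX using h2
    refine ⟨Matrix.of X, ?_⟩
    ext1 i j
    rw [Matrix.add_apply, Matrix.smul_apply, Matrix.of_apply, smul_eq_mul, ← hX]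
    ring
  · rintro ⟨X, hX⟩
    change rdq a b m x = 1
    apply Subtype.ext
    ext1 i j
    change Qfm a b (Int.castRingHom (ZMod m)) (x.val i j) =
      (1 : Matrix (Fin 2) (Fin 2) (Qf a b (ZMod m))) i j
    rw [hX, Matrix.add_apply, Matrix.smul_apply, smul_eq_mul, map_add, map_mul, Ftwo_zero,
      zero_mul, add_zero, Matrix.one_apply, Matrix.one_apply]
    split_ifs <;> simp

private theorem Ftwo_sq {a b : ℤ} {m : ℕ} (h2 : 2 ∣ m) (x : GQ a b) (hx : x ∈ Gam a b m) :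
    x * x ∈ Gam a b (2 * m) := by
  obtain ⟨k, rfl⟩ := h2
  rw [Ftwo_mem] at hx ⊢
  obtain ⟨X, hX⟩ := hx
  refine ⟨X + (k : Qf a b ℤ) • (X * X), ?_⟩
  rw [Matrix.SpecialLinearGroup.coe_mul, hX]
  simp only [Matrix.add_mul, Matrix.mul_add, Matrix.one_mul, Matrix.mul_one, Matrix.smul_mul,
    Matrix.mul_smul, smul_add, smul_smul]
  push_cast
  module

private theorem Ftwo_anti {a b : ℤ} (m n : ℕ) : Gam a b (n * m) ≤ Gam a b m := by
  intro x hx
  rw [Ftwo_mem] at hx ⊢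
  obtain ⟨X, hX⟩ := hx
  refine ⟨(n : Qf a b ℤ) • X, ?_⟩
  rw [hX, smul_smul]
  push_cast
  rw [mul_comm]

private theorem Ftwo_fin {a b : ℤ} (m : ℕ) (hm : m ≠ 0) : (Gam a b m).FiniteIndex := by
  have : NeZero m := ⟨hm⟩
  exact Subgroup.finiteIndex_ker (rdq a b m)

private theorem Ftwo_step {a b : ℤ} (m : ℕ) (hm : m ≠ 0) (h2 : 2 ∣ m) (K : Subgroup (GQ a b))
    (hK : K ≤ Gam a b m) : ∃ n : ℕ, (Gam a b (2 * m)).relIndex K = 2 ^ n := by
  have h1 : (Gam a b (2 * m)).FiniteIndex := Ftwo_fin _ (by omega)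
  have h3 : Finite (K ⧸ (Gam a b (2 * m)).subgroupOf K) := inferInstance
  have : Fact (Nat.Prime 2) := ⟨Nat.prime_two⟩
  have h4 : IsPGroup 2 (K ⧸ (Gam a b (2 * m)).subgroupOf K) := by
    intro g
    refine ⟨1, ?_⟩
    obtain ⟨x, rfl⟩ := QuotientGroup.mk_surjective g
    rw [pow_one, ← QuotientGroup.mk_pow, QuotientGroup.eq_one_iff, Subgroup.mem_subgroupOf,
      pow_two]
    exact Ftwo_sq h2 _ (hK x.2)
  obtain ⟨n, hn⟩ := IsPGroup.iff_card.1 h4
  exact ⟨n, hn⟩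

theorem p_Ftwo : F_two := by
  intro a b L hL h2 K hK j
  induction j with
  | zero =>
    refine ⟨0, ?_⟩
    rw [pow_zero, one_mul]
    exact Subgroup.relIndex_eq_one.2 hK
  | succ j ih =>
    obtain ⟨n, hn⟩ := ih
    obtain ⟨n', hn'⟩ := Ftwo_step (2 ^ j * L) (by positivity) (h2.mul_left _)
      (Gam a b (2 ^ j * L) ⊓ K) inf_le_left
    refine ⟨n' + n, ?_⟩
    have e : 2 ^ (j + 1) * L = 2 * (2 ^ j * L) := by ring
    have h3 : Gam a b (2 * (2 ^ j * L)) ≤ Gam a b (2 ^ j * L) := Ftwo_anti _ _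
    have h4 := Subgroup.relIndex_mul_relIndex (Gam a b (2 * (2 ^ j * L)) ⊓ K)
      (Gam a b (2 ^ j * L) ⊓ K) K (inf_le_inf_right K h3) inf_le_right
    have h5 : Gam a b (2 * (2 ^ j * L)) ⊓ K =
        Gam a b (2 * (2 ^ j * L)) ⊓ (Gam a b (2 ^ j * L) ⊓ K) := by
      rw [← inf_assoc, inf_eq_left.2 h3]
    rw [Subgroup.inf_relIndex_right, Subgroup.inf_relIndex_right] at h4
    rw [h5, Subgroup.inf_relIndex_right, hn', hn] at h4
    rw [e, ← h4, pow_add]

end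

end Pool.Agent.F8.CG
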