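import Pool.Agent.Lib.MP_305fdd_al.F8.CG.StmX
import Pool.Agent.Lib.MP_305fdd_al.F8.BG.P_E

/-!
# MP_305fdd_al, congruence subgroups: piece Xdy, the subgroups `D ∩ y Γ(M') y⁻¹` (helper87)
-/

set_option autoImplicit false

namespace Pool.Agent.F8.CG

open Pool.Agent.F8.BG Pool.Agent.MP_305fdd_al Pool.Agent.Lib.MP_305fdd_al Pool.Agent.F8
open scoped QuadraticAlgebra

section

private theorem Xdy_cr {R : Type} [CommRing R] [IsDomain R] {A B y : Matrix (Fin 2) (Fin 2) R}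
    (hy : y.det ≠ 0) (h : A * y = B * y) : A = B := by
  have h1 : A * (y * y.adjugate) = B * (y * y.adjugate) := by
    rw [← Matrix.mul_assoc, ← Matrix.mul_assoc, h]
  rw [Matrix.mul_adjugate, Matrix.mul_smul, Matrix.mul_smul, Matrix.mul_one, Matrix.mul_one] at h1
  ext i j
  have h2 := congrFun (congrFun h1 i) j
  rw [Matrix.smul_apply, Matrix.smul_apply, smul_eq_mul, smul_eq_mul] at h2
  exact mul_left_cancel₀ hy h2

private theorem Xdy_cl {R : Type} [CommRing R] [IsDomain R] {A B y : Matrix (Fin 2) (Fin 2) R}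
    (hy : y.det ≠ 0) (h : y * A = y * B) : A = B := by
  have h1 : (y.adjugate * y) * A = (y.adjugate * y) * B := by
    rw [Matrix.mul_assoc, Matrix.mul_assoc, h]
  rw [Matrix.adjugate_mul, Matrix.smul_mul, Matrix.smul_mul, Matrix.one_mul, Matrix.one_mul] at h1
  ext i j
  have h2 := congrFun (congrFun h1 i) j
  rw [Matrix.smul_apply, Matrix.smul_apply, smul_eq_mul, smul_eq_mul] at h2
  exact mul_left_cancel₀ hy h2

variable {a b : ℤ}

private theorem Xdy_finite (a b : ℤ) (m : ℕ) [NeZero m] : Finite (SL2 (Qf a b (ZMod m))) := by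
  have : Finite (Qf a b (ZMod m)) :=
    Finite.of_equiv (ZMod m × ZMod m) (QuadraticAlgebra.equivProd (a : ZMod m) (b : ZMod m)).symm
  infer_instance

private theorem Xdy_gam (m : ℕ) (hm : m ≠ 0) : (Gam a b m).FiniteIndex := by
  have : NeZero m := ⟨hm⟩
  have := Xdy_finite a b m
  exact Subgroup.finiteIndex_ker _

/-- an element of `Γ(m)` is `1 + m Z` -/
private theorem Xdy_ent {m : ℕ} {g : GQ a b} (h : rdq a b m g = 1) :
    ∃ Z : Matrix (Fin 2) (Fin 2) (Qf a b ℤ), g.val = 1 + (m : Qf a b ℤ) • Z := by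
  have h3 : ∀ i j, ∃ z : Qf a b ℤ, g.val i j = (1 : Matrix (Fin 2) (Fin 2) (Qf a b ℤ)) i j +
      (m : Qf a b ℤ) * z := by
    intro i j
    have h1 : rdq a b m g = rdq a b m 1 := by rw [h, map_one]
    have h2 : Qfm a b (Int.castRingHom (ZMod m)) (g.val i j) =
        Qfm a b (Int.castRingHom (ZMod m)) ((1 : GQ a b).val i j) :=
      congrArg (fun x : SL2 (Qf a b (ZMod m)) => x.val i j) h1
    have h4 : Qfm a b (Int.castRingHom (ZMod m)) (g.val i j - (1 : GQ a b).val i j) = 0 := by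
      rw [map_sub, h2, sub_self]
    obtain ⟨z, hz⟩ := E_ker a b m _ h4
    refine ⟨z, ?_⟩
    rw [← hz]
    show g.val i j = (1 : GQ a b).val i j + (g.val i j - (1 : GQ a b).val i j)
    ring
  choose Z hZ using h3
  refine ⟨Matrix.of Z, ?_⟩
  ext1 i j
  rw [Matrix.add_apply, Matrix.smul_apply, smul_eq_mul, Matrix.of_apply]
  exact hZ i j

private theorem Xdy_tne {m : ℕ} {g : GQ a b} (Z : Matrix (Fin 2) (Fin 2) (Qf a b ℤ))
    (h : g.val = 1 + (m : Qf a b ℤ) • Z) : rdq a b m g = 1 := by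
  have hm : Qfm a b (Int.castRingHom (ZMod m)) (m : Qf a b ℤ) = 0 := by
    rw [map_natCast]
    have h1 : ((m : ℕ) : Qf a b (ZMod m)) = ⟨((m : ℕ) : ZMod m), 0⟩ := by
      apply QuadraticAlgebra.ext
      · rw [QuadraticAlgebra.re_natCast]
      · rw [QuadraticAlgebra.im_natCast]
    rw [h1, ZMod.natCast_self]
    rfl
  have key : ∀ i j, Qfm a b (Int.castRingHom (ZMod m)) (g.val i j) =
      Qfm a b (Int.castRingHom (ZMod m)) ((1 : GQ a b).val i j) := by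
    intro i j
    have h1 : g.val i j = (1 : GQ a b).val i j + (m : Qf a b ℤ) * Z i j := by
      rw [h]
      rfl
    rw [h1, map_add, map_mul, hm, zero_mul, add_zero]
  have h1 : rdq a b m g = rdq a b m 1 := G.SL_ext (key 0 0) (key 0 1) (key 1 0) (key 1 1)
  rw [h1, map_one]

private theorem Xdy_red {m k : ℕ} {g : GQ a b} (h : rdq a b (m * k) g = 1) :
    rdq a b m g = 1 := by
  obtain ⟨Z, hZ⟩ := Xdy_ent h
  refine Xdy_tne ((k : Qf a b ℤ) • Z) ?_
  rw [hZ, smul_smul, Nat.cast_mul]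

/-- conjugation with `y` maps `Γ(K)` to `Γ(m)` -/
private theorem Xdy_conj (hn : b ^ 2 + 4 * a < 0) (m : ℕ) (hm : m ≠ 0)
    (y : Matrix (Fin 2) (Fin 2) (Qf a b ℤ)) (hy : y.det ≠ 0) :
    ∃ K : ℕ, K ≠ 0 ∧ ∀ x' : GQ a b, rdq a b K x' = 1 →
      ∃ x : GQ a b, rdq a b m x = 1 ∧ x.val * y = y * x'.val := by
  have hdom : IsDomain (Qf a b ℤ) := Qf_domain hn
  obtain ⟨n, hn0, w, hw⟩ := E_dvd hn y.det hy
  refine ⟨m * n, Nat.mul_ne_zero hm hn0.ne', fun x' hx' => ?_⟩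
  obtain ⟨Z, hZ⟩ := Xdy_ent hx'
  set X : Matrix (Fin 2) (Fin 2) (Qf a b ℤ) :=
    1 + (m : Qf a b ℤ) • (w • (y * Z * y.adjugate)) with hX
  have h1 : X * y = y * x'.val := by
    rw [hX, hZ, Matrix.add_mul, Matrix.mul_add, Matrix.one_mul, Matrix.mul_one, Matrix.smul_mul,
      Matrix.smul_mul, Matrix.mul_assoc (y * Z), Matrix.adjugate_mul, Matrix.mul_smul,
      Matrix.mul_one, Matrix.mul_smul, smul_smul, smul_smul, Nat.cast_mul, hw]
    congr 2
    ring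
  have h2 : X.det = 1 := by
    have h3 := congrArg Matrix.det h1
    rw [Matrix.det_mul, Matrix.det_mul, x'.2, mul_one] at h3
    have h4 : X.det * y.det = 1 * y.det := by rw [h3, one_mul]
    exact mul_right_cancel₀ hy h4
  exact ⟨⟨X, h2⟩, Xdy_tne _ hX, h1⟩

/-- the reverse direction -/
private theorem Xdy_conj' (hn : b ^ 2 + 4 * a < 0) (m : ℕ) (hm : m ≠ 0)
    (y : Matrix (Fin 2) (Fin 2) (Qf a b ℤ)) (hy : y.det ≠ 0) :
    ∃ K : ℕ, K ≠ 0 ∧ ∀ x : GQ a b, rdq a b K x = 1 →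
      ∃ x' : GQ a b, rdq a b m x' = 1 ∧ x.val * y = y * x'.val := by
  have hdom : IsDomain (Qf a b ℤ) := Qf_domain hn
  have hy' : y.adjugate.det ≠ 0 := by
    have h1 := congrArg Matrix.det (Matrix.mul_adjugate y)
    rw [Matrix.det_mul, Matrix.det_smul, Matrix.det_one, mul_one] at h1
    intro h2
    rw [h2, mul_zero] at h1
    exact pow_ne_zero _ hy h1.symm
  obtain ⟨K, hK, h⟩ := Xdy_conj hn m hm y.adjugate hy'
  refine ⟨K, hK, fun x hx => ?_⟩
  obtain ⟨x', h1, h2⟩ := h x hx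
  refine ⟨x', h1, ?_⟩
  -- `x' adj y = adj y x`
  have h3 : y * (x'.val * y.adjugate) * y = y * (y.adjugate * x.val) * y := by rw [h2]
  rw [← Matrix.mul_assoc, Matrix.mul_assoc (y * x'.val), Matrix.adjugate_mul, Matrix.mul_smul,
    Matrix.mul_one, ← Matrix.mul_assoc y y.adjugate, Matrix.mul_adjugate, Matrix.smul_mul,
    Matrix.one_mul, Matrix.smul_mul] at h3
  ext1 i j
  have h4 := congrFun (congrFun h3 i) j
  rw [Matrix.smul_apply, Matrix.smul_apply, smul_eq_mul, smul_eq_mul] at h4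
  exact (mul_left_cancel₀ hy h4).symm

private theorem Xdy_mul {y : Matrix (Fin 2) (Fin 2) (Qf a b ℤ)} {x₁ x₂ x₁' x₂' : GQ a b}
    (h₁ : x₁.val * y = y * x₁'.val) (h₂ : x₂.val * y = y * x₂'.val) :
    (x₁ * x₂).val * y = y * (x₁' * x₂').val := by
  show x₁.val * x₂.val * y = y * (x₁'.val * x₂'.val)
  rw [Matrix.mul_assoc, h₂, ← Matrix.mul_assoc, h₁, Matrix.mul_assoc]

private theorem Xdy_one {y : Matrix (Fin 2) (Fin 2) (Qf a b ℤ)} :
    (1 : GQ a b).val * y = y * (1 : GQ a b).val := by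
  show (1 : Matrix (Fin 2) (Fin 2) (Qf a b ℤ)) * y = y * 1
  rw [Matrix.one_mul, Matrix.mul_one]

private theorem Xdy_inv {y : Matrix (Fin 2) (Fin 2) (Qf a b ℤ)} {x x' : GQ a b}
    (h : x.val * y = y * x'.val) : (x⁻¹).val * y = y * (x'⁻¹).val := by
  have h1 : (x⁻¹).val * x.val = 1 := congrArg Subtype.val (inv_mul_cancel x)
  have h2 : x'.val * (x'⁻¹).val = 1 := congrArg Subtype.val (mul_inv_cancel x')
  calc (x⁻¹).val * y = (x⁻¹).val * (y * (x'.val * (x'⁻¹).val)) := by rw [h2, Matrix.mul_one]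
    _ = (x⁻¹).val * ((y * x'.val) * (x'⁻¹).val) := by rw [Matrix.mul_assoc]
    _ = (x⁻¹).val * ((x.val * y) * (x'⁻¹).val) := by rw [h]
    _ = ((x⁻¹).val * x.val) * (y * (x'⁻¹).val) := by
        rw [Matrix.mul_assoc, Matrix.mul_assoc]
    _ = y * (x'⁻¹).val := by rw [h1, Matrix.one_mul]

/-- the subgroup of the `x'` -/
private def Xdy_E' (M' : ℕ) (D : Subgroup (GQ a b)) (y : Matrix (Fin 2) (Fin 2) (Qf a b ℤ)) :
    Subgroup (GQ a b) where
  carrier := {x' | rdq a b M' x' = 1 ∧ ∃ x ∈ D, x.val * y = y * x'.val}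
  mul_mem' := by
    rintro x₁' x₂' ⟨h₁, x₁, hx₁, e₁⟩ ⟨h₂, x₂, hx₂, e₂⟩
    exact ⟨by rw [map_mul, h₁, h₂, mul_one], x₁ * x₂, D.mul_mem hx₁ hx₂, Xdy_mul e₁ e₂⟩
  one_mem' := ⟨map_one _, 1, D.one_mem, Xdy_one⟩
  inv_mem' := by
    rintro x' ⟨h, x, hx, e⟩
    exact ⟨by rw [map_inv, h, inv_one], x⁻¹, D.inv_mem hx, Xdy_inv e⟩

/-- the subgroup of the `x` -/
private def Xdy_E (M' : ℕ) (D : Subgroup (GQ a b)) (y : Matrix (Fin 2) (Fin 2) (Qf a b ℤ)) :
    Subgroup D where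
  carrier := {x | ∃ x' : GQ a b, rdq a b M' x' = 1 ∧ x.val.val * y = y * x'.val}
  mul_mem' := by
    rintro x₁ x₂ ⟨x₁', h₁, e₁⟩ ⟨x₂', h₂, e₂⟩
    exact ⟨x₁' * x₂', by rw [map_mul, h₁, h₂, mul_one], Xdy_mul e₁ e₂⟩
  one_mem' := ⟨1, map_one _, Xdy_one⟩
  inv_mem' := by
    rintro x ⟨x', h, e⟩
    exact ⟨x'⁻¹, by rw [map_inv, h, inv_one], Xdy_inv e⟩

end

/-- PIECE CG X dy -/
theorem p_Xdy : X_dy := by
  intro a b hn M' hM' hU D m₀ hm₀ hD y hy
  have hdom : IsDomain (Qf a b ℤ) := Qf_domain hn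
  have hmem' : ∀ x' : Xdy_E' M' D y, ∃ x ∈ D, x.val * y = y * x'.val.val := fun x' => x'.2.2
  choose s hsD hs using hmem'
  have huniq : ∀ (x₁ x₂ x' : GQ a b), x₁.val * y = y * x'.val → x₂.val * y = y * x'.val →
      x₁ = x₂ := fun x₁ x₂ x' h₁ h₂ => Subtype.ext (Xdy_cr hy (h₁.trans h₂.symm))
  -- the homomorphism
  let σ : Xdy_E' M' D y →* GQ a b := MonoidHom.mk' s fun x₁ x₂ =>
    huniq _ _ (x₁ * x₂).val (hs (x₁ * x₂)) (Xdy_mul (hs x₁) (hs x₂))
  have hσ : ∀ x', (σ x').val * y = y * x'.val.val := hs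
  let f : Xdy_E' M' D y →* Xdy_E M' D y := MonoidHom.mk'
    (fun x' => ⟨⟨σ x', hsD x'⟩, ⟨x'.val, x'.2.1, hσ x'⟩⟩) (fun x₁ x₂ => by
      apply Subtype.ext
      apply Subtype.ext
      exact map_mul σ x₁ x₂)
  have hf : Function.Bijective f := by
    constructor
    · intro x₁ x₂ h
      have h1 : σ x₁ = σ x₂ := congrArg (fun x : Xdy_E M' D y => x.val.val) h
      apply Subtype.ext
      apply Subtype.ext
      refine Xdy_cl hy ?_
      rw [← hσ x₁, ← hσ x₂, h1]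
    · intro x
      obtain ⟨x', h1, h2⟩ := x.2
      refine ⟨⟨x', h1, x.val.val, x.val.2, h2⟩, ?_⟩
      apply Subtype.ext
      apply Subtype.ext
      exact huniq _ _ x' (hσ ⟨x', h1, x.val.val, x.val.2, h2⟩) h2
  let e : Xdy_E' M' D y ≃* Xdy_E M' D y := MulEquiv.ofBijective f hf
  have he : ∀ x', (e x').val.val = σ x' := fun x' => rfl
  -- finite index
  have hE' : (Xdy_E' M' D y).FiniteIndex := by
    obtain ⟨K, hK, h⟩ := Xdy_conj hn m₀ hm₀ y hy
    have h1 := Xdy_gam (a := a) (b := b) (M' * K) (Nat.mul_ne_zero hM' hK)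
    refine Subgroup.finiteIndex_of_le (H := Gam a b (M' * K)) ?_
    intro x' hx'
    have h2 : rdq a b (M' * K) x' = 1 := hx'
    obtain ⟨x, h3, h4⟩ := h x' (by rw [mul_comm] at h2; exact Xdy_red h2)
    exact ⟨Xdy_red h2, x, hD h3, h4⟩
  have hE : (Xdy_E M' D y).FiniteIndex := by
    obtain ⟨K, hK, h⟩ := Xdy_conj' hn M' hM' y hy
    have h1 := Xdy_gam (a := a) (b := b) K hK
    refine Subgroup.finiteIndex_of_le (H := (Gam a b K).subgroupOf D) ?_
    intro x hx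
    exact h x.val hx
  refine ⟨Xdy_E M' D y, hE, fun x => Iff.rfl, ?_⟩
  intro Λ _ _ Ψ l
  obtain ⟨T, hT⟩ := hU (Xdy_E' M' D y) hE' (fun x' hx' => hx'.1) σ ⟨y, hy, hσ⟩ Λ (natBij_equiv e Ψ)
  refine ⟨T l, fun S _ _ h => ?_⟩
  rw [hT S h l]
  have h1 : ((SLm h).comp σ).comp e.symm.toMonoidHom =
      (SLm h).comp (D.subtype.comp (Xdy_E M' D y).subtype) := by
    apply MonoidHom.ext
    intro x
    show SLm h (σ (e.symm x)) = SLm h x.val.val
    rw [← he (e.symm x), MulEquiv.apply_symm_apply]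
  show tr (Ψ.toFun _ (((SLm h).comp σ).comp e.symm.toMonoidHom) l) = _
  rw [h1]

end Pool.Agent.F8.CG
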