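import Pool.Agent.Lib.MP_305fdd_al.F8.CG.StmX

/-!
# Project CG, block X: extension of the character
-/

set_option autoImplicit false

namespace Pool.Agent.F8.CG

open Pool.Agent.F8.BG Pool.Agent.MP_305fdd_al Pool.Agent.Lib.MP_305fdd_al Pool.Agent.F8
open scoped QuadraticAlgebra

noncomputable section

section Xext

variable {A G Λ : Type} [CommRing A] [Group G] [Group Λ]

/-- the representation of `Λ` for `h` -/
private def Xext_r (ρ₀ : G →* SL2 A) (Φ : NatBij G Λ) {S : Type} [CommRing S] [Finite S]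
    (h : A →+* S) : Λ →* SL2 S := Φ.toFun _ ((SLm h).comp ρ₀)

private lemma Xext_nat (ρ₀ : G →* SL2 A) (Φ : NatBij G Λ) {S S' : Type} [CommRing S] [Finite S]
    [CommRing S'] [Finite S'] (h : A →+* S) (g : S →+* S') (l : Λ) :
    Xext_r ρ₀ Φ (g.comp h) l = SLm g (Xext_r ρ₀ Φ h l) := by
  have h1 := Φ.nat (SLm g) ((SLm h).comp ρ₀)
  have h2 : (SLm (g.comp h)).comp ρ₀ = (SLm g).comp ((SLm h).comp ρ₀) := by
    ext x i j
    rfl
  unfold Xext_r
  rw [h2, h1]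
  rfl

/-- the relation which defines `C` -/
private def Xext_C (ρ₀ : G →* SL2 A) (Φ : NatBij G Λ) (X : Fin 4 → Λ) (d : A) (l : Λ) : Prop :=
  ∃ n : Fin 4 → A, ∀ (S : Type) [CommRing S] [Finite S] (h : A →+* S),
    h d • (Xext_r ρ₀ Φ h l).val = ∑ i, h (n i) • (Xext_r ρ₀ Φ h (X i)).val

/-- Cramer's rule -/
private lemma Xext_cramer (hid4 : X_id4) (ρ₀ : G →* SL2 A) (Φ : NatBij G Λ) (X : Fin 4 → Λ)
    (τ : Matrix (Fin 4) (Fin 4) A) (hτ : ∀ i j, IsT ρ₀ Φ (X i * X j) (τ i j)) (l : Λ)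
    (hl : ∀ j, ∃ t, IsT ρ₀ Φ (l * X j) t) : Xext_C ρ₀ Φ X τ.det l := by
  choose t ht using hl
  refine ⟨τ.adjugate.mulVec t, fun S _ _ h => ?_⟩
  have h1 := hid4 S (fun i => (Xext_r ρ₀ Φ h (X i)).val) (Xext_r ρ₀ Φ h l).val
  have h2 : (Matrix.of fun i j => ((Xext_r ρ₀ Φ h (X i)).val * (Xext_r ρ₀ Φ h (X j)).val).trace)
      = h.mapMatrix τ := by
    ext i j
    have h3 : h (τ i j) = tr (Xext_r ρ₀ Φ h (X i * X j)) := hτ i j S h
    rw [map_mul] at h3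
    rw [Matrix.of_apply, RingHom.mapMatrix_apply, Matrix.map_apply, h3]
    rfl
  have h4 : (fun j => ((Xext_r ρ₀ Φ h l).val * (Xext_r ρ₀ Φ h (X j)).val).trace) =
      fun j => h (t j) := by
    funext j
    have h3 : h (t j) = tr (Xext_r ρ₀ Φ h (l * X j)) := ht j S h
    rw [map_mul] at h3
    rw [h3]
    rfl
  rw [h2, h4, ← RingHom.map_adjugate, ← RingHom.map_det] at h1
  rw [h1]
  refine Finset.sum_congr rfl fun i _ => ?_
  congr 1
  rw [RingHom.map_mulVec]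
  rfl

private lemma Xext_mul (ρ₀ : G →* SL2 A) (Φ : NatBij G Λ) (X : Fin 4 → Λ) (δ d d' : A) (l l' : Λ)
    (hX : ∀ i j, Xext_C ρ₀ Φ X δ (X i * X j)) (hl : Xext_C ρ₀ Φ X d l)
    (hl' : Xext_C ρ₀ Φ X d' l') : Xext_C ρ₀ Φ X (δ * (d * d')) (l * l') := by
  choose m hm using hX
  obtain ⟨n, hn⟩ := hl
  obtain ⟨n', hn'⟩ := hl'
  refine ⟨fun k => ∑ i, ∑ j, n i * n' j * m i j k, fun S _ _ h => ?_⟩
  have h1 : h (δ * (d * d')) • (Xext_r ρ₀ Φ h (l * l')).val =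
      h δ • ((h d • (Xext_r ρ₀ Φ h l).val) * (h d' • (Xext_r ρ₀ Φ h l').val)) := by
    rw [map_mul (Xext_r ρ₀ Φ h), Matrix.SpecialLinearGroup.coe_mul, smul_mul_smul_comm,
      smul_smul, map_mul, map_mul]
  rw [h1, hn S h, hn' S h, Finset.sum_mul_sum, Finset.smul_sum]
  have h2 : ∀ i, h δ • ∑ j, (h (n i) • (Xext_r ρ₀ Φ h (X i)).val) *
      (h (n' j) • (Xext_r ρ₀ Φ h (X j)).val) =
      ∑ j, ∑ k, h (n i * n' j * m i j k) • (Xext_r ρ₀ Φ h (X k)).val := by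
    intro i
    rw [Finset.smul_sum]
    refine Finset.sum_congr rfl fun j _ => ?_
    have h3 : h δ • ((h (n i) • (Xext_r ρ₀ Φ h (X i)).val) *
        (h (n' j) • (Xext_r ρ₀ Φ h (X j)).val)) =
        (h (n i) * h (n' j)) • (h δ • (Xext_r ρ₀ Φ h (X i * X j)).val) := by
      rw [map_mul (Xext_r ρ₀ Φ h), Matrix.SpecialLinearGroup.coe_mul, smul_mul_smul_comm,
        smul_comm]
    rw [h3, hm i j S h, Finset.smul_sum]
    refine Finset.sum_congr rfl fun k _ => ?_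
    rw [smul_smul, map_mul, map_mul]
  rw [Finset.sum_congr rfl fun i _ => h2 i]
  have h4 : ∀ i, ∑ j, ∑ k, h (n i * n' j * m i j k) • (Xext_r ρ₀ Φ h (X k)).val =
      ∑ k, ∑ j, h (n i * n' j * m i j k) • (Xext_r ρ₀ Φ h (X k)).val := fun i =>
    Finset.sum_comm
  rw [Finset.sum_congr rfl fun i _ => h4 i, Finset.sum_comm]
  refine Finset.sum_congr rfl fun k _ => ?_
  rw [map_sum, Finset.sum_smul]
  refine Finset.sum_congr rfl fun i _ => ?_
  rw [map_sum, Finset.sum_smul]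

private lemma Xext_sinv {R : Type} [CommRing R] (g : SL2 R) :
    (g⁻¹).val = tr g • (1 : Matrix (Fin 2) (Fin 2) R) - g.val := by
  rw [tr_eq]
  ext i j
  fin_cases i <;> fin_cases j <;>
    simp [Matrix.SpecialLinearGroup.SL2_inv_expl]

private lemma Xext_tr (ρ₀ : G →* SL2 A) (Φ : NatBij G Λ) (X : Fin 4 → Λ) (d : A) (l : Λ)
    (n : Fin 4 → A) (s : Fin 4 → A) (hs : ∀ i, IsT ρ₀ Φ (X i) (s i))
    (S : Type) [CommRing S] [Finite S] (h : A →+* S)
    (hn : h d • (Xext_r ρ₀ Φ h l).val = ∑ i, h (n i) • (Xext_r ρ₀ Φ h (X i)).val) :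
    h d * tr (Xext_r ρ₀ Φ h l) = h (∑ i, n i * s i) := by
  have h1 := congrArg Matrix.trace hn
  rw [Matrix.trace_smul, Matrix.trace_sum, smul_eq_mul] at h1
  unfold tr
  rw [h1, map_sum]
  refine Finset.sum_congr rfl fun i _ => ?_
  rw [Matrix.trace_smul, smul_eq_mul, map_mul]
  congr 1
  exact (hs i S h).symm

private lemma Xext_inv (ρ₀ : G →* SL2 A) (Φ : NatBij G Λ) (X : Fin 4 → Λ) (d : A) (l : Λ)
    (h0 : X 0 = 1) (s : Fin 4 → A) (hs : ∀ i, IsT ρ₀ Φ (X i) (s i))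
    (hl : Xext_C ρ₀ Φ X d l) : Xext_C ρ₀ Φ X d l⁻¹ := by
  obtain ⟨n, hn⟩ := hl
  refine ⟨fun i => (if i = 0 then ∑ j, n j * s j else 0) - n i, fun S _ _ h => ?_⟩
  have h1 := Xext_tr ρ₀ Φ X d l n s hs S h (hn S h)
  rw [map_inv, Xext_sinv, smul_sub, smul_smul, h1, hn S h]
  have h2 : ∀ i, h ((if i = 0 then ∑ j, n j * s j else 0) - n i) • (Xext_r ρ₀ Φ h (X i)).val =
      (if i = 0 then h (∑ j, n j * s j) • (1 : Matrix (Fin 2) (Fin 2) S) else 0) -
      h (n i) • (Xext_r ρ₀ Φ h (X i)).val := by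
    intro i
    rw [map_sub, sub_smul]
    congr 1
    split_ifs with hi
    · rw [hi, h0, map_one]
      rfl
    · rw [map_zero, zero_smul]
  rw [Finset.sum_congr rfl fun i _ => h2 i, Finset.sum_sub_distrib, Finset.sum_ite_eq' Finset.univ
    (0 : Fin 4)]
  simp

/-- the last step -/
private lemma Xext_last [IsDomain A] [CharZero A]
    (hfin : ∀ x : A, x ≠ 0 → Finite (A ⧸ Ideal.span {x})) (ρ₀ : G →* SL2 A) (Φ : NatBij G Λ)
    (d s : A) (hd : d ≠ 0) (l : Λ)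
    (hl : ∀ (S : Type) [CommRing S] [Finite S] (h : A →+* S),
      h d * tr (Xext_r ρ₀ Φ h l) = h s) : ∃ t, IsT ρ₀ Φ l t := by
  have : Finite (A ⧸ Ideal.span {d}) := hfin d hd
  have h1 := hl (A ⧸ Ideal.span {d}) (Ideal.Quotient.mk _)
  have h2 : (Ideal.Quotient.mk (Ideal.span {d})) d = 0 :=
    Ideal.Quotient.eq_zero_iff_mem.2 (Ideal.mem_span_singleton_self d)
  rw [h2, zero_mul] at h1
  have h3 := Ideal.mem_span_singleton.1 (Ideal.Quotient.eq_zero_iff_mem.1 h1.symm)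
  obtain ⟨t, rfl⟩ := h3
  refine ⟨t, fun S _ _ h => ?_⟩
  have hm : Nat.card S ≠ 0 := Nat.card_pos.ne'
  have hm2 : (Nat.card S : S) = 0 := by
    have := Fintype.ofFinite S
    rw [Nat.card_eq_fintype_card]
    exact Nat.cast_card_eq_zero S
  have hm3 : (Nat.card S : A) ≠ 0 := Nat.cast_ne_zero.2 hm
  have hdm : d * (Nat.card S : A) ≠ 0 := mul_ne_zero hd hm3
  have : Finite (A ⧸ Ideal.span {d * (Nat.card S : A)}) := hfin _ hdm
  obtain ⟨a, ha⟩ := Ideal.Quotient.mk_surjective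
    (tr (Xext_r ρ₀ Φ (Ideal.Quotient.mk (Ideal.span {d * (Nat.card S : A)})) l))
  have h4 := hl _ (Ideal.Quotient.mk (Ideal.span {d * (Nat.card S : A)}))
  rw [← ha, ← map_mul, Ideal.Quotient.eq, Ideal.mem_span_singleton] at h4
  obtain ⟨c, hc⟩ := h4
  have h5 : a = t + (Nat.card S : A) * c := by
    apply mul_left_cancel₀ hd
    linear_combination hc
  have hker : ∀ x ∈ Ideal.span {d * (Nat.card S : A)}, h x = 0 := by
    intro x hx
    obtain ⟨c, rfl⟩ := Ideal.mem_span_singleton.1 hx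
    rw [map_mul, map_mul, map_natCast, hm2, mul_zero, zero_mul]
  have h6 : (Ideal.Quotient.lift _ h hker).comp
      (Ideal.Quotient.mk (Ideal.span {d * (Nat.card S : A)})) = h :=
    Ideal.Quotient.lift_comp_mk _ h hker
  have h7 := Xext_nat ρ₀ Φ (Ideal.Quotient.mk (Ideal.span {d * (Nat.card S : A)}))
    (Ideal.Quotient.lift _ h hker) l
  rw [h6] at h7
  show h t = tr (Xext_r ρ₀ Φ h l)
  rw [h7, tr_map, ← ha, Ideal.Quotient.lift_mk, h5, map_add, map_mul, map_natCast, hm2, zero_mul,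
    add_zero]

end Xext

theorem p_Xext (hid4 : X_id4) (hgrm : X_grm) : X_ext := by
  intro A G Λ _ _ _ _ _ hfin hsep ρ₀ Φ L₀ J _ L hL hT hirr Z hZ hcl
  obtain ⟨x, hx, y, hy, t₀, ht₀, hne⟩ := hirr
  obtain ⟨j₀⟩ := ‹Nonempty J›
  have hT0 : ∀ l ∈ L₀, ∃ t, IsT ρ₀ Φ l t := fun l hl => hT j₀ l (hL j₀ hl)
  obtain ⟨X, hXdef⟩ : ∃ X : Fin 4 → Λ, X = ![1, x, y, x * y] := ⟨_, rfl⟩
  have hX : ∀ i, X i ∈ L₀ := by
    intro i
    rw [hXdef]
    fin_cases i
    · exact one_mem _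
    · exact hx
    · exact hy
    · exact mul_mem hx hy
  have hX0 : X 0 = 1 := by rw [hXdef]; rfl
  choose s hs using fun i => hT0 (X i) (hX i)
  choose τ hτ using fun i j => hT0 (X i * X j) (mul_mem (hX i) (hX j))
  have hδ : (Matrix.of τ).det = -(t₀ - 2) ^ 2 := by
    have h1 : (Matrix.of τ).det + (t₀ - 2) ^ 2 = 0 := by
      refine hsep _ fun S _ _ h => ?_
      have h2 := hgrm S (Xext_r ρ₀ Φ h x) (Xext_r ρ₀ Φ h y)
      have h3 : (Matrix.of fun i j : Fin 4 => ((![1, (Xext_r ρ₀ Φ h x).val,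
          (Xext_r ρ₀ Φ h y).val, (Xext_r ρ₀ Φ h x).val * (Xext_r ρ₀ Φ h y).val] : Fin 4 →
          Matrix (Fin 2) (Fin 2) S) i * (![1, (Xext_r ρ₀ Φ h x).val,
          (Xext_r ρ₀ Φ h y).val, (Xext_r ρ₀ Φ h x).val * (Xext_r ρ₀ Φ h y).val] : Fin 4 →
          Matrix (Fin 2) (Fin 2) S) j).trace) = h.mapMatrix (Matrix.of τ) := by
        have h4 : ∀ i : Fin 4, (![1, (Xext_r ρ₀ Φ h x).val,
          (Xext_r ρ₀ Φ h y).val, (Xext_r ρ₀ Φ h x).val * (Xext_r ρ₀ Φ h y).val] : Fin 4 →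
          Matrix (Fin 2) (Fin 2) S) i = (Xext_r ρ₀ Φ h (X i)).val := by
          intro i
          rw [hXdef]
          fin_cases i
          · show (1 : Matrix (Fin 2) (Fin 2) S) = (Xext_r ρ₀ Φ h 1).val
            rw [map_one]
            rfl
          · rfl
          · rfl
          · show (Xext_r ρ₀ Φ h x).val * (Xext_r ρ₀ Φ h y).val = (Xext_r ρ₀ Φ h (x * y)).val
            rw [map_mul]
            rfl
        ext i j
        have h5 : h (τ i j) = tr (Xext_r ρ₀ Φ h (X i * X j)) := hτ i j S h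
        rw [map_mul] at h5
        rw [Matrix.of_apply, RingHom.mapMatrix_apply, Matrix.map_apply, Matrix.of_apply, h5, h4,
          h4]
        rfl
      rw [h3, ← RingHom.map_det] at h2
      have h6 : h t₀ = tr (Xext_r ρ₀ Φ h (x * y * x⁻¹ * y⁻¹)) := ht₀ S h
      rw [map_mul, map_mul, map_mul, map_inv, map_inv] at h6
      rw [map_add, h2, map_pow, map_sub, h6, map_ofNat]
      ring
    linear_combination h1
  have hδ0 : (Matrix.of τ).det ≠ 0 := by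
    rw [hδ]
    exact neg_ne_zero.2 (pow_ne_zero 2 (sub_ne_zero.2 hne))
  have hL' : ∀ j, ∀ l ∈ L j, Xext_C ρ₀ Φ X (Matrix.of τ).det l := by
    intro j l hl
    refine Xext_cramer hid4 ρ₀ Φ X (Matrix.of τ) (fun i j => hτ i j) l fun k => ?_
    exact hT j _ (mul_mem hl (hL j (hX k)))
  have hall : ∀ l : Λ, ∃ d : A, d ≠ 0 ∧ Xext_C ρ₀ Φ X d l := by
    intro l
    have hl : l ∈ Subgroup.closure (Z ∪ ⋃ j, (L j : Set Λ)) := by
      rw [hcl]
      exact Subgroup.mem_top l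
    induction hl using Subgroup.closure_induction with
    | mem z hz =>
      rcases hz with hz | hz
      · refine ⟨1, one_ne_zero, ![-1, 0, 0, 0], fun S _ _ h => ?_⟩
        have h1 : Xext_r ρ₀ Φ h z = -1 := hZ z hz S h
        rw [h1, Fin.sum_univ_four, hX0, map_one (Xext_r ρ₀ Φ h)]
        simp
      · rw [Set.mem_iUnion] at hz
        obtain ⟨j, hj⟩ := hz
        exact ⟨_, hδ0, hL' j z hj⟩
    | one => exact ⟨_, hδ0, hL' j₀ 1 (one_mem _)⟩
    | mul a b _ _ ha hb =>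
      obtain ⟨d, hd, h1⟩ := ha
      obtain ⟨d', hd', h2⟩ := hb
      exact ⟨_, mul_ne_zero hδ0 (mul_ne_zero hd hd'), Xext_mul ρ₀ Φ X _ d d' a b
        (fun i j => hL' j₀ _ (hL j₀ (mul_mem (hX i) (hX j)))) h1 h2⟩
    | inv a _ ha =>
      obtain ⟨d, hd, h1⟩ := ha
      exact ⟨d, hd, Xext_inv ρ₀ Φ X d a hX0 s hs h1⟩
  intro l
  obtain ⟨d, hd, n, hn⟩ := hall l
  exact Xext_last hfin ρ₀ Φ d (∑ i, n i * s i) hd l fun S _ _ h =>
    Xext_tr ρ₀ Φ X d l n s hs S h (hn S h)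

end

end Pool.Agent.F8.CG
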