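import Pool.Agent.Lib.MP_305fdd_al.F8.CG.StmX
import Pool.Agent.Lib.MP_305fdd_al.F8.BG.P_con

/-!
# MP_305fdd_al, congruence subgroups: piece Xfg, `SL₂(ℤ[w])` is finitely generated (helper57)
-/

set_option autoImplicit false

namespace Pool.Agent.F8.CG

open Pool.Agent.F8.BG Pool.Agent.MP_305fdd_al Pool.Agent.Lib.MP_305fdd_al Pool.Agent.F8
open scoped QuadraticAlgebra

private theorem Xfg_cover {G : Type} [Group G] (N : Subgroup G) (hN : N.FG) (R : Set G)
    (hR : R.Finite) (h : ∀ g : G, ∃ n ∈ N, ∃ r ∈ R, g = n * r) : Group.FG G := by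
  obtain ⟨S, hS, hfin⟩ := (Subgroup.fg_iff N).1 hN
  rw [Group.fg_iff]
  refine ⟨S ∪ R, ?_, hfin.union hR⟩
  rw [eq_top_iff]
  rintro g -
  obtain ⟨n, hn, r, hr, rfl⟩ := h g
  refine mul_mem ?_ (Subgroup.subset_closure (Or.inr hr))
  rw [← hS] at hn
  exact Subgroup.closure_mono Set.subset_union_left hn

private theorem Xfg_index {G : Type} [Group G] (N : Subgroup G) (hN : Group.FG N)
    (hf : N.FiniteIndex) : Group.FG G := by
  have : Finite (G ⧸ N) := inferInstance
  refine Xfg_cover N ((Group.fg_iff_subgroup_fg N).1 hN)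
    (Set.range fun q : G ⧸ N => (Quotient.out q)⁻¹) (Set.finite_range _) fun g => ?_
  refine ⟨g * Quotient.out ((g⁻¹ : G) : G ⧸ N), ?_, _, ⟨((g⁻¹ : G) : G ⧸ N), rfl⟩, ?_⟩
  · have h := QuotientGroup.mk_out_eq_mul N g⁻¹
    obtain ⟨n, hn⟩ := h
    rw [hn, mul_inv_cancel_left]
    exact n.2
  · rw [mul_inv_cancel_right]

private theorem Xfg_ker {G H : Type} [Group G] [Group H] (f : G →* H) (hr : Group.FG f.range)
    (hk : (f.ker : Set G).Finite) : Group.FG G := by
  obtain ⟨S, hS, hfin⟩ := (Subgroup.fg_iff f.range).1 ((Group.fg_iff_subgroup_fg f.range).1 hr)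
  have hpre : ∀ s ∈ S, ∃ g, f g = s := fun s hs => by
    have : s ∈ f.range := by rw [← hS]; exact Subgroup.subset_closure hs
    exact this
  choose! p hp using hpre
  refine Xfg_cover (Subgroup.closure (p '' S)) ((Subgroup.fg_iff _).2 ⟨_, rfl, hfin.image p⟩)
    _ hk fun g => ?_
  have h1 : f g ∈ (Subgroup.closure (p '' S)).map f := by
    rw [MonoidHom.map_closure]
    have h2 : f '' (p '' S) = S := by
      rw [Set.image_image]
      ext x
      constructor
      · rintro ⟨s, hs, rfl⟩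
        show f (p s) ∈ S
        rw [hp s hs]
        exact hs
      · intro hx
        exact ⟨x, hx, hp x hx⟩
    rw [h2, hS]
    exact ⟨g, rfl⟩
  obtain ⟨n, hn, hng⟩ := h1
  refine ⟨n, hn, n⁻¹ * g, ?_, ?_⟩
  · show n⁻¹ * g ∈ f.ker
    rw [MonoidHom.mem_ker, map_mul, map_inv, hng, inv_mul_cancel]
  · rw [mul_inv_cancel_left]

theorem p_Xfg : X_fg := by
  intro a b ι _ α M c g G₀ η hη
  have : NeZero M := ⟨hη.ne⟩
  have hfi : η.range.FiniteIndex := hη.fin
  have hGR : Group.FG (GR α) := con_fg α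
  have hr : Group.FG η.range := inferInstance
  have hG : Group.FG G₀ := by
    refine Xfg_ker η hr ?_
    have h2 : ((fun x : G₀ => x.val) ⁻¹' {1, -1}).Finite :=
      Set.Finite.preimage Subtype.val_injective.injOn (Set.toFinite _)
    exact h2.subset fun x hx => (hη.ker x).1 hx
  refine Xfg_index G₀ hG ?_
  have : Finite (SL2 (Qf a b (ZMod M))) := con_finite a b M
  have h1 : (rdq a b M).ker.FiniteIndex := inferInstance
  exact Subgroup.finiteIndex_of_le (H := (rdq a b M).ker) fun x hx => hη.lev x hx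

end Pool.Agent.F8.CG
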