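import Pool.Agent.Lib.MP_305fdd_al.F8.CG.StmX
import Pool.Agent.Lib.MP_305fdd_al.F8.BG.DefsU

/-!
# MP_305fdd_al, congruence subgroups: [CG X inv] the involutions
-/

set_option autoImplicit false

namespace Pool.Agent.F8.CG

open Pool.Agent.F8.BG Pool.Agent.MP_305fdd_al Pool.Agent.Lib.MP_305fdd_al Pool.Agent.F8
open scoped QuadraticAlgebra

/-- an involution of `SL₂` of a domain of characteristic zero is `-1` -/
theorem Xinv_inv {R : Type} [CommRing R] [IsDomain R] (h2 : (2 : R) ≠ 0) (g : SL2 R)
    (h : g * g = 1) (h1 : g ≠ 1) : g = -1 := by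
  have hi : g⁻¹ = g := inv_eq_of_mul_eq_one_left h
  rw [Matrix.SpecialLinearGroup.SL2_inv_expl] at hi
  have hv := congrArg Subtype.val hi
  have e00 : g.val 1 1 = g.val 0 0 := congrFun (congrFun hv 0) 0
  have e01 : -g.val 0 1 = g.val 0 1 := congrFun (congrFun hv 0) 1
  have e10 : -g.val 1 0 = g.val 1 0 := congrFun (congrFun hv 1) 0
  have z01 : g.val 0 1 = 0 := by
    have : 2 * g.val 0 1 = 0 := by linear_combination -e01
    exact (mul_eq_zero.1 this).resolve_left h2
  have z10 : g.val 1 0 = 0 := by
    have : 2 * g.val 1 0 = 0 := by linear_combination -e10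
    exact (mul_eq_zero.1 this).resolve_left h2
  have hd : g.val.det = 1 := g.2
  rw [Matrix.det_fin_two, z01, zero_mul, sub_zero, e00] at hd
  rcases mul_self_eq_one_iff.1 hd with h3 | h3
  · exfalso
    apply h1
    apply Subtype.ext
    ext i j
    fin_cases i <;> fin_cases j
    · exact h3
    · exact z01
    · exact z10
    · exact e00.trans h3
  · apply Subtype.ext
    ext i j
    rw [Matrix.SpecialLinearGroup.coe_neg]
    fin_cases i <;> fin_cases j
    · simpa using h3
    · simpa using z01
    · simpa using z10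
    · simpa using e00.trans h3

theorem Xinv_neg (a b : ℤ) : (-1 : SL2 (Qf a b (ZMod 3))) ≠ 1 := by
  intro h
  have h1 := congrArg (fun g : SL2 (Qf a b (ZMod 3)) => (g.val 0 0).re) h
  have h2 : (-1 : ZMod 3) = 1 := by simpa using h1
  exact absurd h2 (by decide)

/-- [CG X inv] -/
theorem p_Xinv : X_inv := by
  intro a b hn D hD Λp Λ _ _ Φ pr' z hpr' hker hz D' P' _ pr hpr hkp hD' ⟨e⟩
  have hdom : IsDomain (Qf a b ℤ) := Qf_domain hn
  have h2 : (2 : Qf a b ℤ) ≠ 0 := by
    intro h
    have := congrArg QuadraticAlgebra.re h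
    simp at this
  -- `z` is an involution
  have hz1 : z ≠ 1 := by
    intro h
    have h3 := hz (SL2 (Qf a b (ZMod 3))) ((rdq a b 3).comp D.subtype)
    rw [h, map_one] at h3
    apply Xinv_neg a b
    refine Eq.trans ?_ h3.symm
    show -1 = rdq a b 3 (-1)
    apply Subtype.ext
    ext i j <;> fin_cases i <;> fin_cases j <;>
      simp [rdq, SLm, Qfm, Matrix.SpecialLinearGroup.coe_neg]
  have hzz : z * z = 1 := by
    have h3 : pr' z = 1 := (hker z).2 (Or.inr rfl)
    have h4 : pr' (z * z) = 1 := by rw [map_mul, h3, one_mul]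
    rcases (hker _).1 h4 with h5 | h5
    · exact h5
    · exact absurd (mul_eq_left.1 h5) hz1
  have hez : (e z).val = -1 := by
    apply Xinv_inv h2
    · rw [← Subgroup.coe_mul, ← map_mul, hzz, map_one, Subgroup.coe_one]
    · intro h
      apply hz1
      apply e.injective
      rw [map_one]
      exact Subtype.ext h
  -- the kernels agree
  let f : Λ →* P' := pr.comp e.toMonoidHom
  have hf : Function.Surjective f := hpr.comp e.surjective
  have hk : pr'.ker = f.ker := by
    ext l
    rw [MonoidHom.mem_ker, MonoidHom.mem_ker, hker]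
    show _ ↔ pr (e l) = 1
    rw [hkp]
    refine or_congr ?_ ?_
    · constructor
      · rintro rfl
        rw [map_one]; rfl
      · intro h
        apply e.injective
        rw [map_one]
        exact Subtype.ext h
    · constructor
      · rintro rfl
        exact hez
      · intro h
        apply e.injective
        exact Subtype.ext (h.trans hez.symm)
  exact ⟨(QuotientGroup.quotientKerEquivOfSurjective pr' hpr').symm.trans
    ((QuotientGroup.quotientMulEquivOfEq hk).trans
      (QuotientGroup.quotientKerEquivOfSurjective f hf))⟩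

end Pool.Agent.F8.CG
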