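import Pool.Agent.Lib.MP_305fdd_al.F8.CG.StmX

/-!
# MP_305fdd_al, congruence subgroups: piece Xpsl, from `D / ± 1` to `D`
-/

set_option autoImplicit false

namespace Pool.Agent.F8.CG

open Pool.Agent.F8.BG Pool.Agent.MP_305fdd_al Pool.Agent.Lib.MP_305fdd_al Pool.Agent.F8
open scoped QuadraticAlgebra

noncomputable section

section Xpsl

variable {G P B : Type} [Group G] [Group P] [Group B]

/-- the homomorphism on `P` which is induced by a homomorphism on `G` whose value at `c` is trivial -/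
private theorem Xpsl_lift {pr : G →* P} (hpr : Function.Surjective pr) {Q : Type} [Group Q]
    (f : G →* Q) (hf : pr.ker ≤ f.ker) : ∃ s : P →* Q, s.comp pr = f := by
  refine ⟨(pr.liftOfSurjective hpr) ⟨f, hf⟩, ?_⟩
  exact MonoidHom.liftOfRightInverse_comp _ _ _ _

/-- the fibre product -/
private def Xpsl_N {L Q : Type} [Group L] [Group Q] (q : L →* Q) (p : B →* Q) :
    Subgroup (L × B) :=
  ((MonoidHom.fst Q Q).eqLocus (MonoidHom.snd Q Q)).comap
    ((q.comp (MonoidHom.fst L B)).prod (p.comp (MonoidHom.snd L B)))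

private theorem Xpsl_mem {L Q : Type} [Group L] [Group Q] (q : L →* Q) (p : B →* Q) (x : L × B) :
    x ∈ Xpsl_N q p ↔ q x.1 = p x.2 := Iff.rfl

private theorem Xpsl_main (hprd : PIC.S_prd) [Finite B] (pr : G →* P)
    (hpr : Function.Surjective pr) (r : G →* B) (hr : Function.Surjective r) (c : G)
    (hc : ∀ x, pr x = 1 ↔ x = 1 ∨ x = c) (hrc : r c ≠ 1) {L : Type} [Group L] (Φ₀ : NatBij P L)
    (hfg : Group.FG L) (hrf : Group.ResiduallyFinite L) :
    ∃ (Λ : Type) (_ : Group Λ) (Φ : NatBij G Λ) (pr' : Λ →* L) (z : Λ),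
      Group.FG Λ ∧ Group.ResiduallyFinite Λ ∧ Function.Surjective pr' ∧
      (∀ l, pr' l = 1 ↔ l = 1 ∨ l = z) ∧
      ∀ (Q : Type) [Group Q] [Finite Q] (f : G →* Q), Φ.toFun Q f z = f c := by
  have hprc : pr c = 1 := (hc c).2 (Or.inr rfl)
  have hKn : (pr.ker.map r).Normal := Subgroup.Normal.map inferInstance r hr
  let p : B →* B ⧸ pr.ker.map r := QuotientGroup.mk' (pr.ker.map r)
  have hps : Function.Surjective p := QuotientGroup.mk'_surjective _
  have hpk : ∀ b : B, p b = 1 ↔ b = 1 ∨ b = r c := by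
    intro b
    have h1 : p b = 1 ↔ b ∈ pr.ker.map r := QuotientGroup.eq_one_iff b
    rw [h1, Subgroup.mem_map]
    constructor
    · rintro ⟨k, hk, rfl⟩
      rcases (hc k).1 hk with h2 | h2
      · left
        rw [h2, map_one]
      · right
        rw [h2]
    · rintro (h2 | h2)
      · exact ⟨1, Subgroup.one_mem _, by rw [map_one, h2]⟩
      · exact ⟨c, hprc, h2.symm⟩
  obtain ⟨q, hq⟩ := Xpsl_lift hpr (p.comp r) (by
    intro k hk
    show p (r k) = 1
    rw [hpk]
    rcases (hc k).1 hk with h2 | h2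
    · left
      rw [h2, map_one]
    · right
      rw [h2])
  have hq1 : ∀ x, q (pr x) = p (r x) := fun x => DFunLike.congr_fun hq x
  obtain ⟨Ψ, hΨ⟩ := hprd P L B Φ₀
  let q' : L →* B ⧸ pr.ker.map r := Φ₀.toFun _ q
  have h1 : Ψ.toFun _ ((q.comp (MonoidHom.fst P B)).prod (p.comp (MonoidHom.snd P B))) =
      (q'.comp (MonoidHom.fst L B)).prod (p.comp (MonoidHom.snd L B)) := by
    rw [pair_prod, (hΨ _).1, (hΨ _).2]
  obtain ⟨Ξ, hΞ⟩ : ∃ Ξ : NatBij (Xpsl_N q p) (Xpsl_N q' p),
      ∀ (R : Type) [Group R] [Finite R] (θ : P × B →* R),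
      Ξ.toFun R (θ.comp (Xpsl_N q p).subtype) = (Ψ.toFun R θ).comp (Xpsl_N q' p).subtype :=
    natBij_comap Ψ h1 _
  -- `G` is the fibre product
  let ι : G →* Xpsl_N q p := (pr.prod r).codRestrict _ fun x => hq1 x
  have hι : Function.Bijective ι := by
    constructor
    · rw [injective_iff_map_eq_one]
      intro g hg
      have h0 : ((ι g : Xpsl_N q p) : P × B) = 1 := by
        rw [hg]; rfl
      have h2 : pr g = 1 := congrArg Prod.fst h0
      have h3 : r g = 1 := congrArg Prod.snd h0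
      rcases (hc g).1 h2 with h4 | h4
      · exact h4
      · exfalso
        rw [h4] at h3
        exact hrc h3
    · rintro ⟨⟨y, b⟩, hy⟩
      obtain ⟨g, rfl⟩ := hpr y
      have h2 : q (pr g) = p b := hy
      rw [hq1] at h2
      have h3 : p ((r g)⁻¹ * b) = 1 := by
        rw [map_mul, map_inv, h2, inv_mul_cancel]
      rcases (hpk _).1 h3 with h4 | h4
      · refine ⟨g, Subtype.ext (Prod.ext rfl ?_)⟩
        exact inv_mul_eq_one.1 h4
      · refine ⟨g * c, Subtype.ext (Prod.ext ?_ ?_)⟩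
        · show pr (g * c) = pr g
          rw [map_mul, hprc, mul_one]
        · show r (g * c) = b
          rw [map_mul, ← h4, mul_inv_cancel_left]
  let e : G ≃* Xpsl_N q p := MulEquiv.ofBijective ι hι
  have he1 : ∀ y : Xpsl_N q p, pr (e.symm y) = y.1.1 := by
    intro y
    have h2 : ι (e.symm y) = y := e.apply_symm_apply y
    exact congrArg (fun y : Xpsl_N q p => y.1.1) h2
  have he2 : ∀ y : Xpsl_N q p, r (e.symm y) = y.1.2 := by
    intro y
    have h2 : ι (e.symm y) = y := e.apply_symm_apply y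
    exact congrArg (fun y : Xpsl_N q p => y.1.2) h2
  let Φ : NatBij G (Xpsl_N q' p) := natBij_equiv e Ξ
  let pr' : Xpsl_N q' p →* L := (MonoidHom.fst L B).comp (Xpsl_N q' p).subtype
  let z : Xpsl_N q' p := ⟨(1, r c), by
    rw [Xpsl_mem]
    show q' 1 = p (r c)
    rw [map_one, (hpk _).2 (Or.inr rfl)]⟩
  -- the compatibilities
  have hA : ∀ (S : Type) [Group S] [Finite S] (s : P →* S),
      Φ.toFun S (s.comp pr) = (Φ₀.toFun S s).comp pr' := by
    intro S _ _ s
    show Ξ.toFun S ((s.comp pr).comp e.symm.toMonoidHom) = _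
    have h2 : (s.comp pr).comp e.symm.toMonoidHom =
        (s.comp (MonoidHom.fst P B)).comp (Xpsl_N q p).subtype := by
      ext y
      exact congrArg s (he1 y)
    rw [h2, hΞ, (hΨ S).1]
    rfl
  have hB : Φ.toFun B r = (MonoidHom.snd L B).comp (Xpsl_N q' p).subtype := by
    show Ξ.toFun B (r.comp e.symm.toMonoidHom) = _
    have h2 : r.comp e.symm.toMonoidHom =
        ((MonoidHom.id B).comp (MonoidHom.snd P B)).comp (Xpsl_N q p).subtype := by
      ext y
      exact he2 y
    rw [h2, hΞ, (hΨ B).2]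
    rfl
  have hfi : (Xpsl_N q' p).FiniteIndex := by
    have hle : ((q'.comp (MonoidHom.fst L B)).prod (p.comp (MonoidHom.snd L B))).ker ≤
        Xpsl_N q' p := by
      intro x hx
      rw [MonoidHom.mem_ker] at hx
      rw [Xpsl_mem]
      have h2 : q' x.1 = 1 := congrArg Prod.fst hx
      have h3 : p x.2 = 1 := congrArg Prod.snd hx
      rw [h2, h3]
    have h4 : ((q'.comp (MonoidHom.fst L B)).prod (p.comp (MonoidHom.snd L B))).ker.FiniteIndex :=
      Subgroup.finiteIndex_ker _
    exact Subgroup.finiteIndex_of_le hle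
  have hBfg : Group.FG B := inferInstance
  have hprodfg : Group.FG (L × B) := inferInstance
  refine ⟨Xpsl_N q' p, inferInstance, Φ, pr', z, Subgroup.fg_of_index_ne_zero _, inferInstance,
    ?_, ?_, ?_⟩
  · intro l
    obtain ⟨b, hb⟩ := hps (q' l)
    exact ⟨⟨(l, b), hb.symm⟩, rfl⟩
  · intro x
    constructor
    · intro h
      obtain ⟨⟨l, b⟩, hx⟩ := x
      have hl : l = 1 := h
      subst hl
      have h2 : q' 1 = p b := hx
      rw [map_one] at h2
      rcases (hpk b).1 h2.symm with h3 | h3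
      · left; subst h3; rfl
      · right; subst h3; rfl
    · rintro (rfl | rfl)
      · exact map_one _
      · rfl
  · intro Q₁ _ _ f
    let F : G →* Q₁ × B := f.prod r
    let π : G →* F.range := F.rangeRestrict
    have hπ : Function.Surjective π := F.rangeRestrict_surjective
    have hCn : (pr.ker.map π).Normal := Subgroup.Normal.map inferInstance π hπ
    obtain ⟨s, hs⟩ := Xpsl_lift hpr ((QuotientGroup.mk' (pr.ker.map π)).comp π) (by
      intro k hk
      show QuotientGroup.mk' (pr.ker.map π) (π k) = 1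
      exact (QuotientGroup.eq_one_iff _).2 (Subgroup.mem_map_of_mem _ hk))
    have h2 : QuotientGroup.mk' (pr.ker.map π) (Φ.toFun _ π z) = 1 := by
      have h3 : Φ.toFun _ ((QuotientGroup.mk' (pr.ker.map π)).comp π) =
          (QuotientGroup.mk' (pr.ker.map π)).comp (Φ.toFun _ π) := Φ.nat _ _
      have h4 : QuotientGroup.mk' (pr.ker.map π) (Φ.toFun _ π z) =
          Φ.toFun _ ((QuotientGroup.mk' (pr.ker.map π)).comp π) z := by
        rw [h3]; rfl
      rw [h4, ← hs, hA]
      show Φ₀.toFun _ s 1 = 1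
      exact map_one _
    obtain ⟨k, hk, hk2⟩ := Subgroup.mem_map.1 ((QuotientGroup.eq_one_iff _).1 h2)
    have h5 : Φ.toFun _ F z = F k := by
      have h6 : F = F.range.subtype.comp π := rfl
      have h7 : Φ.toFun _ (F.range.subtype.comp π) = F.range.subtype.comp (Φ.toFun _ π) :=
        Φ.nat _ _
      have h8 : Φ.toFun _ F = F.range.subtype.comp (Φ.toFun _ π) := h7
      rw [h8]
      show ((Φ.toFun _ π z : F.range) : Q₁ × B) = F k
      rw [← hk2]
      rfl
    have h6 : (Φ.toFun _ f).prod (Φ.toFun _ r) = Φ.toFun _ F := (pair_prod Φ f r).symm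
    rw [← h6] at h5
    have h7 : Φ.toFun _ f z = f k := congrArg Prod.fst h5
    have h8 : Φ.toFun _ r z = r k := congrArg Prod.snd h5
    rw [hB] at h8
    have h9 : r c = r k := h8
    rcases (hc k).1 hk with h10 | h10
    · exfalso
      rw [h10, map_one] at h9
      exact hrc h9
    · rw [h7, h10]

end Xpsl

/-- [CG X psl] from `D / ± 1` to `D` -/
theorem p_Xpsl (hprd : PIC.S_prd) : X_psl := by
  intro a b D hDfg hD P _ pr hpr hker Λp _ hgen
  obtain ⟨hfg, hrf, hs⟩ := hgen
  have hP : Group.FG P := Group.fg_of_surjective (f := pr) hpr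
  obtain ⟨Φ₀⟩ := exists_natBij hs.symm
  have hfin : Finite (SL2 (Qf a b (ZMod 3))) := by
    have : Finite (Qf a b (ZMod 3)) := Finite.of_equiv _ (QuadraticAlgebra.equivProd _ _).symm
    infer_instance
  let r : D →* ((rdq a b 3).comp D.subtype).range := ((rdq a b 3).comp D.subtype).rangeRestrict
  have hr : Function.Surjective r := MonoidHom.rangeRestrict_surjective _
  refine Xpsl_main hprd pr hpr r hr ⟨-1, hD⟩ ?_ ?_ Φ₀ hfg hrf
  · intro x
    rw [hker]
    constructor
    · rintro (h | h)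
      · left; exact Subtype.ext h
      · right; exact Subtype.ext h
    · rintro (h | h)
      · left; rw [h]; rfl
      · right; rw [h]
  · intro h
    have h1 : rdq a b 3 (-1) = 1 :=
      congrArg (fun x : ((rdq a b 3).comp D.subtype).range => (x : SL2 (Qf a b (ZMod 3)))) h
    have h2 := congrArg (fun g : SL2 (Qf a b (ZMod 3)) => (g.val 0 0).re) h1
    have h3 : (((rdq a b 3 (-1 : GQ a b)).val 0 0).re : ZMod 3) = -1 := by
      show (((Int.castRingHom (ZMod 3)) ((-1 : GQ a b).val 0 0).re : ZMod 3)) = -1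
      rw [G.SL_neg, G.one00]
      simp
    have h4 : (((1 : SL2 (Qf a b (ZMod 3))).val 0 0).re : ZMod 3) = 1 := by
      rw [G.one00]
      rfl
    simp only [h3, h4] at h2
    exact absurd h2 (by decide)

end

end Pool.Agent.F8.CG
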