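import Pool.Agent.Lib.MP_305fdd_al.F8.CG.StmX
import Pool.Agent.Lib.MP_305fdd_al.F8.BG.DefsU

/-!
# [CG X tr] the character of `Λ`
-/

set_option autoImplicit false

namespace Pool.Agent.F8.CG

open Pool.Agent.F8.BG Pool.Agent.MP_305fdd_al Pool.Agent.Lib.MP_305fdd_al Pool.Agent.F8
open scoped QuadraticAlgebra

private theorem Xtr_pU {R : Type} [CommRing R] (x : R) (n : ℕ) :
    (eU x) ^ n = eU ((n : R) * x) := by
  induction n with
  | zero =>
    rw [pow_zero, AB.mx_one]
    unfold eU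
    apply AB.mx_congr
    · rfl
    · push_cast; ring
    · rfl
    · rfl
  | succ n ih =>
    rw [pow_succ, ih]
    unfold eU
    rw [AB.mx_mul]
    apply AB.mx_congr
    · ring
    · push_cast; ring
    · ring
    · ring

private theorem Xtr_pV {R : Type} [CommRing R] (x : R) (n : ℕ) :
    (eV x) ^ n = eV ((n : R) * x) := by
  induction n with
  | zero =>
    rw [pow_zero, AB.mx_one]
    unfold eV
    apply AB.mx_congr
    · rfl
    · rfl
    · push_cast; ring
    · rfl
  | succ n ih =>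
    rw [pow_succ, ih]
    unfold eV
    rw [AB.mx_mul]
    apply AB.mx_congr
    · ring
    · ring
    · push_cast; ring
    · ring

private theorem Xtr_finite (a b : ℤ) (M : ℕ) [NeZero M] : Finite (SL2 (Qf a b (ZMod M))) := by
  have h1 : Finite (Qf a b (ZMod M)) := by
    refine Finite.of_injective (fun z : Qf a b (ZMod M) => (z.re, z.im)) ?_
    intro z z' h
    exact QuadraticAlgebra.ext (congrArg Prod.fst h) (congrArg Prod.snd h)
  exact Finite.of_injective (fun g : SL2 (Qf a b (ZMod M)) => g.val) Subtype.val_injective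

/-- every element of a closure is in the closure of a finite subset -/
private theorem Xtr_fin1 {G : Type} [Group G] (X : Set G) (x : G)
    (hx : x ∈ Subgroup.closure X) :
    ∃ F : Set G, F.Finite ∧ F ⊆ X ∧ x ∈ Subgroup.closure F := by
  induction hx using Subgroup.closure_induction with
  | mem x hx =>
    exact ⟨{x}, Set.finite_singleton x, Set.singleton_subset_iff.2 hx,
      Subgroup.subset_closure rfl⟩
  | one => exact ⟨∅, Set.finite_empty, Set.empty_subset _, one_mem _⟩
  | mul x y _ _ hx hy =>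
    obtain ⟨F, h1, h2, h3⟩ := hx
    obtain ⟨F', h1', h2', h3'⟩ := hy
    exact ⟨F ∪ F', h1.union h1', Set.union_subset h2 h2', mul_mem
      (Subgroup.closure_mono Set.subset_union_left h3)
      (Subgroup.closure_mono Set.subset_union_right h3')⟩
  | inv x _ hx =>
    obtain ⟨F, h1, h2, h3⟩ := hx
    exact ⟨F, h1, h2, inv_mem h3⟩

/-- every finite subset of a closure is in the closure of a finite subset -/
private theorem Xtr_fin2 {G : Type} [Group G] (X S : Set G) (hS : S.Finite)
    (hx : S ⊆ Subgroup.closure X) :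
    ∃ F : Set G, F.Finite ∧ F ⊆ X ∧ S ⊆ Subgroup.closure F := by
  induction S, hS using Set.Finite.induction_on with
  | empty => exact ⟨∅, Set.finite_empty, Set.empty_subset _, Set.empty_subset _⟩
  | @insert s S _ _ ih =>
    obtain ⟨F, h1, h2, h3⟩ := ih ((Set.subset_insert s S).trans hx)
    obtain ⟨F', h1', h2', h3'⟩ := Xtr_fin1 X s (hx (Set.mem_insert s S))
    refine ⟨F ∪ F', h1.union h1', Set.union_subset h2 h2', ?_⟩
    rintro y (rfl | hy)
    · exact Subgroup.closure_mono Set.subset_union_right h3'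
    · exact Subgroup.closure_mono Set.subset_union_left (h3 hy)

/-- two elements of a subgroup of finite index with an irreducible commutator -/
private theorem Xtr_irr {a b : ℤ} (hn : b ^ 2 + 4 * a < 0) (N : Subgroup (GQ a b))
    (hN : N.FiniteIndex) :
    ∃ x ∈ N, ∃ y ∈ N, tr (x * y * x⁻¹ * y⁻¹) ≠ 2 := by
  have hdom := Qf_domain hn
  obtain ⟨n, hn0, -, hnU⟩ :=
    Subgroup.exists_pow_mem_of_index_ne_zero hN.index_ne_zero (eU (1 : Qf a b ℤ))
  obtain ⟨m, hm0, -, hmV⟩ :=
    Subgroup.exists_pow_mem_of_index_ne_zero hN.index_ne_zero (eV (1 : Qf a b ℤ))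
  have h1 : eU (((n * m : ℕ) : Qf a b ℤ)) ∈ N := by
    have := pow_mem hnU m
    rw [← pow_mul, Xtr_pU, mul_one] at this
    exact this
  have h2 : eV (((n * m : ℕ) : Qf a b ℤ)) ∈ N := by
    have := pow_mem hmV n
    rw [← pow_mul, Xtr_pV, mul_one, mul_comm m n] at this
    exact this
  refine ⟨_, h1, _, h2, ?_⟩
  rw [eUV_tr]
  intro h
  have h3 : ((n * m : ℕ) : Qf a b ℤ) ^ 4 = 0 := by linear_combination h
  have h4 : ((n * m : ℕ) : Qf a b ℤ) = 0 := pow_eq_zero_iff (by norm_num) |>.1 h3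
  have h5 : n * m = 0 := by exact_mod_cast h4
  exact (Nat.mul_pos hn0 hm0).ne' h5

theorem p_Xtr (hgen : X_gen) (hdy : X_dy) : X_tr := by
  intro a b hn hFG M' hM' hUni D m₀ hm₀ hm₀D hHE Λ _ _ Φ hz
  classical
  have hdom := Qf_domain hn
  have : NeZero m₀ := ⟨hm₀⟩
  have : Finite (SL2 (Qf a b (ZMod m₀))) := Xtr_finite a b m₀
  have : (Gam a b m₀).FiniteIndex := Subgroup.finiteIndex_ker _
  have hDfi : D.FiniteIndex := Subgroup.finiteIndex_of_le hm₀D
  have hFG1 := hFG
  have hDfg : Group.FG D := inferInstance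
  -- a finite generating set
  obtain ⟨S, hS1, hS2⟩ := (Subgroup.fg_iff D).1 ((Group.fg_iff_subgroup_fg D).1 hDfg)
  set X : Set (GQ a b) := {x | x ∈ D ∧ (x = -1 ∨ ∃ y, CjG M' x y)} with hX
  have hDX : D = Subgroup.closure X := hHE
  obtain ⟨F, hF1, hF2, hF3⟩ := Xtr_fin2 X S hS2 (by
    rw [← hDX, ← hS1]
    exact Subgroup.subset_closure)
  have hFD : D ≤ Subgroup.closure F := by
    rw [← hS1]
    exact (Subgroup.closure_le _).2 hF3
  -- the index set
  let J : Type := Option {x : GQ a b // x ∈ F ∧ ∃ y, CjG M' x y}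
  have : Finite {x : GQ a b // x ∈ F ∧ ∃ y, CjG M' x y} :=
    (hF1.subset (fun x hx => hx.1) : {x : GQ a b | x ∈ F ∧ ∃ y, CjG M' x y}.Finite)
  have : Finite J := inferInstanceAs (Finite (Option _))
  have : Nonempty J := ⟨none⟩
  let yJ : J → Matrix (Fin 2) (Fin 2) (Qf a b ℤ) := fun j =>
    match j with
    | none => 1
    | some x => x.2.2.choose
  have hyJ : ∀ j, (yJ j).det ≠ 0 := by
    intro j
    rcases j with _ | x
    · show (1 : Matrix (Fin 2) (Fin 2) (Qf a b ℤ)).det ≠ 0
      rw [Matrix.det_one]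
      exact one_ne_zero
    · exact x.2.2.choose_spec.1
  have hE := fun j : J => hdy a b hn M' hM' hUni D m₀ hm₀ hm₀D (yJ j) (hyJ j)
  choose E hE1 hE2 hE3 using hE
  refine hgen a b hn D D.subtype J E hE1 hE3 ?_ {z : D | z.val = -1} (fun c hc => hc) ?_ Λ Φ ?_
  · -- irreducibility
    intro N hN
    have hNf : (N.map D.subtype).FiniteIndex := by
      refine ⟨?_⟩
      rw [Subgroup.index_map_subtype]
      exact mul_ne_zero hN.index_ne_zero hDfi.index_ne_zero
    obtain ⟨x, ⟨x', hx', hxx⟩, y, ⟨y', hy', hyy⟩, hxy⟩ := Xtr_irr hn _ hNf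
    refine ⟨x', hx', y', hy', ?_⟩
    rw [map_mul, map_mul, map_mul, map_inv, map_inv, hxx, hyy]
    exact hxy
  · -- generation
    rw [eq_top_iff]
    intro d _
    have h1 : D ≤ (Subgroup.closure ({z : D | z.val = -1} ∪ ⋃ j, (E j : Set D))).map
        D.subtype := by
      refine hFD.trans ((Subgroup.closure_le _).2 ?_)
      intro x hx
      obtain ⟨hxD, hx1 | hx1⟩ := hF2 hx
      · exact ⟨⟨x, hxD⟩, Subgroup.subset_closure (Or.inl hx1), rfl⟩
      · refine ⟨⟨x, hxD⟩, Subgroup.subset_closure (Or.inr ?_), rfl⟩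
        refine Set.mem_iUnion.2 ⟨(some ⟨x, hx, hx1⟩ : J), ?_⟩
        exact (hE2 (some ⟨x, hx, hx1⟩ : J) ⟨x, hxD⟩).2 hx1.choose_spec.2
    obtain ⟨d', hd', hdd⟩ := h1 d.2
    have : d' = d := Subtype.ext hdd
    rw [← this]
    exact hd'
  · intro c hc
    have hc' : (-1 : GQ a b) ∈ D := by
      have h1 : c.val = -1 := hc
      rw [← h1]
      exact c.2
    obtain ⟨z, hz'⟩ := hz hc'
    refine ⟨z, fun Q _ _ f => ?_⟩
    rw [hz' Q f]
    congr 1
    exact Subtype.ext hc.symm

end Pool.Agent.F8.CG
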