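import Pool.Agent.Lib.MP_305fdd_al.F8.CG.StmA2

/-!
# MP_305fdd_al, project CG: the piece `irr`
-/

set_option autoImplicit false

namespace Pool.Agent.F8.CG

open Pool.Agent.F8.BG Pool.Agent.Lib.MP_305fdd_al Pool.Agent.F8

noncomputable section

/-- the lower triangular matrix -/
def irr_y {R : Type} [CommRing R] (N : R) : SL2 R :=
  ⟨!![1, 0; N, 1], by simp [Matrix.det_fin_two]⟩

theorem irr_x_pow {R : Type} [CommRing R] (N : R) (s : ℕ) : (mU N) ^ s = mU ((s : R) * N) := by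
  induction s with
  | zero =>
    apply Subtype.ext
    simp [mU, Matrix.one_fin_two]
  | succ s ih =>
    rw [pow_succ, ih]
    apply Subtype.ext
    rw [Matrix.SpecialLinearGroup.coe_mul]
    simp only [mU, Matrix.mul_fin_two]
    push_cast
    ext i j
    fin_cases i <;> fin_cases j <;> simp
    ring

theorem irr_y_pow {R : Type} [CommRing R] (N : R) (s : ℕ) :
    (irr_y N) ^ s = irr_y ((s : R) * N) := by
  induction s with
  | zero =>
    apply Subtype.ext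
    simp [irr_y, Matrix.one_fin_two]
  | succ s ih =>
    rw [pow_succ, ih]
    apply Subtype.ext
    rw [Matrix.SpecialLinearGroup.coe_mul]
    simp only [irr_y, Matrix.mul_fin_two]
    push_cast
    ext i j
    fin_cases i <;> fin_cases j <;> simp
    ring

/-- the trace of the commutator -/
theorem irr_tr {R : Type} [CommRing R] (N : R) (g h : SL2 R)
    (hg : g = mU N * irr_y N * (mU N)⁻¹ * (irr_y N)⁻¹) (hh : h = mU N * g * (mU N)⁻¹) :
    tr (g * h * g⁻¹ * h⁻¹) = 2 - 4 * N ^ 12 := by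
  have hx' : ((mU N)⁻¹ : SL2 R).val = !![1, -N; 0, 1] := by
    rw [Matrix.SpecialLinearGroup.coe_inv]
    simp [mU, Matrix.adjugate_fin_two]
  have hy' : ((irr_y N)⁻¹ : SL2 R).val = !![1, 0; -N, 1] := by
    rw [Matrix.SpecialLinearGroup.coe_inv]
    simp [irr_y, Matrix.adjugate_fin_two]
  have hx : (mU N).val = !![1, N; 0, 1] := rfl
  have hy : (irr_y N).val = !![1, 0; N, 1] := rfl
  have h1 : g.val = !![1 + N ^ 2 + N ^ 4, -N ^ 3; N ^ 3, 1 - N ^ 2] := by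
    rw [hg, Matrix.SpecialLinearGroup.coe_mul, Matrix.SpecialLinearGroup.coe_mul,
      Matrix.SpecialLinearGroup.coe_mul, hx', hy', hx, hy, Matrix.mul_fin_two, Matrix.mul_fin_two,
      Matrix.mul_fin_two]
    ext i j
    fin_cases i <;> fin_cases j <;> simp <;> ring
  have h1' : (g⁻¹ : SL2 R).val = !![1 - N ^ 2, N ^ 3; -N ^ 3, 1 + N ^ 2 + N ^ 4] := by
    rw [Matrix.SpecialLinearGroup.coe_inv, h1, Matrix.adjugate_fin_two_of, neg_neg]
  have h2 : h.val = !![1 + N ^ 2 + 2 * N ^ 4, -(3 * N ^ 3) - 2 * N ^ 5;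
      N ^ 3, 1 - N ^ 2 - N ^ 4] := by
    rw [hh, Matrix.SpecialLinearGroup.coe_mul, Matrix.SpecialLinearGroup.coe_mul, hx', h1, hx,
      Matrix.mul_fin_two, Matrix.mul_fin_two]
    ext i j
    fin_cases i <;> fin_cases j <;> simp <;> ring
  have h2' : (h⁻¹ : SL2 R).val = !![1 - N ^ 2 - N ^ 4, (3 * N ^ 3) + 2 * N ^ 5;
      -N ^ 3, 1 + N ^ 2 + 2 * N ^ 4] := by
    rw [Matrix.SpecialLinearGroup.coe_inv, h2, Matrix.adjugate_fin_two_of]
    ext i j
    fin_cases i <;> fin_cases j <;> simp <;> ring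
  rw [tr_eq, Matrix.SpecialLinearGroup.coe_mul, Matrix.SpecialLinearGroup.coe_mul,
    Matrix.SpecialLinearGroup.coe_mul, h1, h2, h1', h2', Matrix.mul_fin_two, Matrix.mul_fin_two,
    Matrix.mul_fin_two]
  simp
  ring

theorem p_irr : A_irr := by
  intro a b hab G _ ρ N₀ hN₀ hsurj L hL
  have hred : ∀ (m : Matrix (Fin 2) (Fin 2) (Qf a b ℤ)) (hm : m.det = 1),
      (Qfm a b (Int.castRingHom (ZMod N₀))).mapMatrix m = 1 →
      rdq a b N₀ ⟨m, hm⟩ = 1 := by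
    intro m hm h
    apply Subtype.ext
    exact h
  have hN0 : Qfm a b (Int.castRingHom (ZMod N₀)) (N₀ : Qf a b ℤ) = 0 := by
    rw [map_natCast]
    apply QuadraticAlgebra.ext <;> simp
  obtain ⟨l₁, hl₁⟩ := hsurj (mU (N₀ : Qf a b ℤ)) (by
    apply hred
    apply Matrix.ext
    intro i j
    fin_cases i <;> fin_cases j <;> simp [hN0])
  obtain ⟨l₂, hl₂⟩ := hsurj (irr_y (N₀ : Qf a b ℤ)) (by
    apply hred
    apply Matrix.ext
    intro i j
    fin_cases i <;> fin_cases j <;> simp [hN0])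
  obtain ⟨s₁, hs₁, _, hm₁⟩ := Subgroup.exists_pow_mem_of_index_ne_zero hL.index_ne_zero l₁
  obtain ⟨s₂, hs₂, _, hm₂⟩ := Subgroup.exists_pow_mem_of_index_ne_zero hL.index_ne_zero l₂
  set s := s₁ * s₂ with hs
  have hu : l₁ ^ s ∈ L := by
    rw [hs, pow_mul]
    exact L.pow_mem hm₁ _
  have hv : l₂ ^ s ∈ L := by
    rw [hs, mul_comm, pow_mul]
    exact L.pow_mem hm₂ _
  set u := l₁ ^ s with hudef
  set v := l₂ ^ s with hvdef
  have hg : u * v * u⁻¹ * v⁻¹ ∈ ⁅L, L⁆ := Subgroup.commutator_mem_commutator hu hv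
  have hh : u * (u * v * u⁻¹ * v⁻¹) * u⁻¹ ∈ ⁅L, L⁆ := by
    have h1 : u * (u * v * u⁻¹ * v⁻¹) * u⁻¹ =
        u * (u * v * u⁻¹) * u⁻¹ * (u * v * u⁻¹)⁻¹ := by group
    rw [h1]
    exact Subgroup.commutator_mem_commutator hu (L.mul_mem (L.mul_mem hu hv) (L.inv_mem hu))
  refine ⟨_, hg, _, hh, ?_⟩
  have hρu : ρ u = mU ((s : Qf a b ℤ) * N₀) := by
    rw [hudef, map_pow, hl₁, irr_x_pow]
  have hρv : ρ v = irr_y ((s : Qf a b ℤ) * N₀) := by
    rw [hvdef, map_pow, hl₂, irr_y_pow]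
  have ht := irr_tr ((s : Qf a b ℤ) * N₀) (ρ (u * v * u⁻¹ * v⁻¹))
    (ρ (u * (u * v * u⁻¹ * v⁻¹) * u⁻¹))
    (by simp only [map_mul, map_inv, hρu, hρv]) (by simp only [map_mul, map_inv, hρu, hρv])
  rw [map_mul, map_mul, map_mul, map_inv, map_inv, ht]
  intro h0
  have hdom := Qf_domain hab
  have h1 : 4 * ((s : Qf a b ℤ) * N₀) ^ 12 = 0 := by
    have := sub_eq_self.1 h0
    exact this
  have h2 : ((4 * (s * N₀) ^ 12 : ℕ) : Qf a b ℤ) = 0 := by
    push_cast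
    exact h1
  rw [Nat.cast_eq_zero] at h2
  have h3 : 0 < 4 * (s * N₀) ^ 12 :=
    Nat.mul_pos (by norm_num) (pow_pos (Nat.mul_pos (Nat.mul_pos hs₁ hs₂) hN₀) 12)
  omega

end

end Pool.Agent.F8.CG
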