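import Pool.Agent.Lib.MP_305fdd_al.F8.CG.StmY
import Pool.Agent.Lib.MP_305fdd_al.F8.CG.P_irr

/-!
# MP_305fdd_al, project CG: the piece `Y_irc`
-/

set_option autoImplicit false

namespace Pool.Agent.F8.CG

open Pool.Agent.F8.BG Pool.Agent.MP_305fdd_al Pool.Agent.Lib.MP_305fdd_al Pool.Agent.F8

noncomputable section

/-- a power of an element in a subgroup of finite index of a subgroup of finite index -/
private theorem Yirc_pow {G : Type} [Group G] (E : Subgroup G) (hE : E.FiniteIndex)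
    (L : Subgroup E) (hL : L.FiniteIndex) (x : G) :
    ∃ n : ℕ, 0 < n ∧ ∃ u : E, u ∈ L ∧ (u : G) = x ^ n := by
  obtain ⟨s, hs, _, hm⟩ := Subgroup.exists_pow_mem_of_index_ne_zero hE.index_ne_zero x
  obtain ⟨t, ht, _, hn⟩ := Subgroup.exists_pow_mem_of_index_ne_zero hL.index_ne_zero
    (⟨x ^ s, hm⟩ : E)
  refine ⟨s * t, Nat.mul_pos hs ht, _, hn, ?_⟩
  rw [Subgroup.coe_pow, pow_mul]

/-- conjugate matrices have the same trace -/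
private theorem Yirc_tr {R : Type} [CommRing R] [IsDomain R] (A B y : Matrix (Fin 2) (Fin 2) R)
    (hy : y.det ≠ 0) (h : A * y = y * B) : A.trace = B.trace := by
  have h1 : (A * y * y.adjugate).trace = (y * B * y.adjugate).trace := by rw [h]
  rw [Matrix.mul_assoc, Matrix.mul_adjugate, Matrix.trace_mul_comm (y * B), ← Matrix.mul_assoc,
    Matrix.adjugate_mul, Matrix.mul_smul, Matrix.smul_mul, Matrix.mul_one, Matrix.one_mul,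
    Matrix.trace_smul, Matrix.trace_smul] at h1
  exact mul_left_cancel₀ hy h1

theorem p_Yirc : Y_irc := by
  intro a b hab E hE σ hσ L hL
  obtain ⟨y, hy, hyx⟩ := hσ
  have hdom := Qf_domain hab
  have htr : ∀ x : E, tr (σ x) = tr (x : GQ a b) := fun x =>
    Yirc_tr _ _ y hy (hyx x)
  obtain ⟨s₁, hs₁, u₁, hu₁, hu₁'⟩ := Yirc_pow E hE L hL (mU (1 : Qf a b ℤ))
  obtain ⟨s₂, hs₂, v₁, hv₁, hv₁'⟩ := Yirc_pow E hE L hL (irr_y (1 : Qf a b ℤ))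
  set u := u₁ ^ s₂ with hu
  set v := v₁ ^ s₁ with hv
  have huL : u ∈ L := L.pow_mem hu₁ _
  have hvL : v ∈ L := L.pow_mem hv₁ _
  have hu' : (u : GQ a b) = mU ((s₁ * s₂ : ℕ) : Qf a b ℤ) := by
    rw [hu, Subgroup.coe_pow, hu₁', ← pow_mul, irr_x_pow, mul_one]
  have hv' : (v : GQ a b) = irr_y ((s₁ * s₂ : ℕ) : Qf a b ℤ) := by
    rw [hv, Subgroup.coe_pow, hv₁', ← pow_mul, irr_y_pow, mul_one, mul_comm s₂]
  have hg : u * v * u⁻¹ * v⁻¹ ∈ ⁅L, L⁆ := Subgroup.commutator_mem_commutator huL hvL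
  have hh : u * (u * v * u⁻¹ * v⁻¹) * u⁻¹ ∈ ⁅L, L⁆ := by
    have h1 : u * (u * v * u⁻¹ * v⁻¹) * u⁻¹ =
        u * (u * v * u⁻¹) * u⁻¹ * (u * v * u⁻¹)⁻¹ := by group
    rw [h1]
    exact Subgroup.commutator_mem_commutator huL
      (L.mul_mem (L.mul_mem huL hvL) (L.inv_mem huL))
  refine ⟨_, hg, _, hh, ?_⟩
  have ht := irr_tr ((s₁ * s₂ : ℕ) : Qf a b ℤ) ((u * v * u⁻¹ * v⁻¹ : E) : GQ a b)
    ((u * (u * v * u⁻¹ * v⁻¹) * u⁻¹ : E) : GQ a b)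
    (by push_cast [hu', hv']; rfl) (by push_cast [hu', hv']; rfl)
  rw [htr]
  have h0 : ((u * v * u⁻¹ * v⁻¹ * (u * (u * v * u⁻¹ * v⁻¹) * u⁻¹) * (u * v * u⁻¹ * v⁻¹)⁻¹ *
      (u * (u * v * u⁻¹ * v⁻¹) * u⁻¹)⁻¹ : E) : GQ a b) =
      ((u * v * u⁻¹ * v⁻¹ : E) : GQ a b) * ((u * (u * v * u⁻¹ * v⁻¹) * u⁻¹ : E) : GQ a b) *
      ((u * v * u⁻¹ * v⁻¹ : E) : GQ a b)⁻¹ *
      ((u * (u * v * u⁻¹ * v⁻¹) * u⁻¹ : E) : GQ a b)⁻¹ := by
    simp only [Subgroup.coe_mul, Subgroup.coe_inv]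
  rw [h0, ht]
  intro h0
  have h1 : 4 * ((s₁ * s₂ : ℕ) : Qf a b ℤ) ^ 12 = 0 := sub_eq_self.1 h0
  have h2 : ((4 * (s₁ * s₂) ^ 12 : ℕ) : Qf a b ℤ) = 0 := by
    push_cast
    push_cast at h1
    exact h1
  rw [Nat.cast_eq_zero] at h2
  have h3 : 0 < 4 * (s₁ * s₂) ^ 12 :=
    Nat.mul_pos (by norm_num) (pow_pos (Nat.mul_pos hs₁ hs₂) 12)
  omega

end

end Pool.Agent.F8.CG
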