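import Pool.Agent.Lib.MP_305fdd_al.F8.CG.StmN

/-!
# MP_305fdd_al, congruence subgroups: the first Betti number is a profinite invariant
-/

set_option autoImplicit false

namespace Pool.Agent.F8.CG

open Pool.Agent.F8.BG Pool.Agent.Lib.MP_305fdd_al Pool.Agent.F8

noncomputable section

/-- the structure of the abelianisation -/
theorem b1n_str (G : Type) [Group G] [Group.FG G] : ∃ (n : ℕ) (T : Type) (_ : AddCommGroup T)
    (_ : Finite T) (q : Additive G →+ (Fin n →₀ ℤ) × T), Function.Surjective q ∧
    ∀ (K : Type) [AddCommGroup K] (f : Additive G →+ K),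
      ∃ f' : (Fin n →₀ ℤ) × T →+ K, f'.comp q = f := by
  have hs : Function.Surjective (Abelianization.of : G →* Abelianization G) :=
    QuotientGroup.mk_surjective
  have hfg : Group.FG (Abelianization G) := Group.fg_of_surjective hs
  obtain ⟨n, ι, _, p, hp, e, ⟨φ⟩⟩ :=
    AddCommGroup.equiv_free_prod_directSum_zmod (Additive (Abelianization G))
  have hfin : Finite (DirectSum ι fun i => ZMod (p i ^ e i)) := by
    have h1 : ∀ i, NeZero (p i ^ e i) := fun i => ⟨pow_ne_zero _ (hp i).ne_zero⟩
    have h2 : ∀ i, Finite (ZMod (p i ^ e i)) := fun i => by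
      have := h1 i
      infer_instance
    exact Finite.of_injective
      (fun (x : DirectSum ι fun i => ZMod (p i ^ e i)) => (fun i => x i)) DFunLike.coe_injective
  refine ⟨n, DirectSum ι fun i => ZMod (p i ^ e i), inferInstance, hfin,
    φ.toAddMonoidHom.comp (MonoidHom.toAdditive Abelianization.of), ?_, ?_⟩
  · intro y
    obtain ⟨a, ha⟩ := hs (Additive.toMul (φ.symm y))
    refine ⟨Additive.ofMul a, ?_⟩
    show φ (Additive.ofMul (Abelianization.of a)) = y
    rw [ha]
    exact φ.apply_symm_apply y
  · intro K _ f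
    let g : G →* Multiplicative K :=
      { toFun := fun x => Multiplicative.ofAdd (f (Additive.ofMul x))
        map_one' := by simp
        map_mul' := fun x y => by simp }
    let f'' : Additive (Abelianization G) →+ K :=
      { toFun := fun x => Multiplicative.toAdd (Abelianization.lift g (Additive.toMul x))
        map_zero' := by simp
        map_add' := fun x y => by simp }
    refine ⟨f''.comp φ.symm.toAddMonoidHom, ?_⟩
    ext x
    show f'' (φ.symm (φ (Additive.ofMul (Abelianization.of (Additive.toMul x))))) = f x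
    rw [φ.symm_apply_apply]
    show Multiplicative.toAdd (Abelianization.lift g (Abelianization.of (Additive.toMul x))) = f x
    rw [Abelianization.lift_apply_of]
    rfl

theorem b1n_hom (G : Type) [Group G] [Group.FG G] : ∃ n c : ℕ, c ≠ 0 ∧
    ∀ (K : Type) [CommRing K], (∀ x : K, (c : K) * x = 0 → x = 0) →
      ∃ E : (Additive G →+ K) →ₗ[K] (Fin n → K), Function.Bijective E := by
  obtain ⟨n, T, _, _, q, hq, hfac⟩ := b1n_str G
  refine ⟨n, Nat.card T, Nat.card_pos.ne', fun K _ hK => ?_⟩
  choose g hg using fun i : Fin n => hq (Finsupp.single i 1, 0)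
  let E : (Additive G →+ K) →ₗ[K] (Fin n → K) :=
    { toFun := fun f i => f (g i)
      map_add' := fun _ _ => rfl
      map_smul' := fun _ _ => rfl }
  refine ⟨E, ?_, ?_⟩
  · rw [injective_iff_map_eq_zero]
    intro f hf
    obtain ⟨f', rfl⟩ := hfac K f
    have h0 : ∀ i, f' (Finsupp.single i 1, 0) = 0 := by
      intro i
      rw [← hg i]
      exact congrFun hf i
    have h1 : ∀ t : T, f' (0, t) = 0 := by
      intro t
      apply hK
      have h2 : Nat.card T • ((0, t) : (Fin n →₀ ℤ) × T) = 0 := by
        rw [Prod.smul_mk, smul_zero, card_nsmul_eq_zero']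
        rfl
      have h3 := congrArg f' h2
      rw [map_nsmul, map_zero, nsmul_eq_mul] at h3
      exact h3
    have h2 : f'.comp (AddMonoidHom.inl (Fin n →₀ ℤ) T) = 0 := by
      apply Finsupp.addHom_ext
      intro i m
      have h3 : Finsupp.single i m = m • Finsupp.single i (1 : ℤ) := by
        rw [Finsupp.smul_single, smul_eq_mul, mul_one]
      rw [h3, map_zsmul, map_zsmul]
      have h4 : (f'.comp (AddMonoidHom.inl (Fin n →₀ ℤ) T)) (Finsupp.single i 1) = 0 := h0 i
      rw [h4]
      simp
    ext x
    show f' (q x) = 0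
    have h5 : q x = ((q x).1, 0) + (0, (q x).2) := by simp
    rw [h5, map_add, h1]
    have h6 := DFunLike.congr_fun h2 (q x).1
    have h7 : f' ((q x).1, 0) = 0 := h6
    rw [h7, add_zero]
  · intro v
    let f' : (Fin n →₀ ℤ) × T →+ K :=
      (Finsupp.liftAddHom (fun i => zmultiplesHom K (v i))).comp (AddMonoidHom.fst _ _)
    refine ⟨f'.comp q, ?_⟩
    funext i
    show f' (q (g i)) = v i
    rw [hg]
    show Finsupp.liftAddHom (fun i => zmultiplesHom K (v i)) (Finsupp.single i 1) = v i
    rw [Finsupp.liftAddHom_apply_single]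
    simp

theorem p_b1n : N_b1n := by
  intro G H _ _ _ _ ⟨Φ⟩
  obtain ⟨n, c, hc, hG⟩ := b1n_hom G
  obtain ⟨n', c', hc', hH⟩ := b1n_hom H
  have hQ : ∀ c : ℕ, c ≠ 0 → ∀ x : ℚ, (c : ℚ) * x = 0 → x = 0 := by
    intro c hc x hx
    exact (mul_eq_zero.1 hx).resolve_left (by exact_mod_cast hc)
  have e1 : b1 G = n := by
    obtain ⟨E, hE⟩ := hG ℚ (hQ c hc)
    show Module.finrank ℚ (Additive G →+ ℚ) = n
    rw [(LinearEquiv.ofBijective E hE).finrank_eq]
    simp
  have e2 : b1 H = n' := by
    obtain ⟨E, hE⟩ := hH ℚ (hQ c' hc')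
    show Module.finrank ℚ (Additive H →+ ℚ) = n'
    rw [(LinearEquiv.ofBijective E hE).finrank_eq]
    simp
  rw [e1, e2]
  obtain ⟨p, hp1, hp⟩ := Nat.exists_infinite_primes (c + c' + 1)
  have : Fact p.Prime := ⟨hp⟩
  have hP : ∀ c : ℕ, c ≠ 0 → c < p → ∀ x : ZMod p, (c : ZMod p) * x = 0 → x = 0 := by
    intro c hc hcp x hx
    refine (mul_eq_zero.1 hx).resolve_left fun h => ?_
    rw [ZMod.natCast_eq_zero_iff] at h
    exact absurd (Nat.le_of_dvd (Nat.pos_of_ne_zero hc) h) (by omega)
  have key : ∀ (L : Type) [Group L] (k d : ℕ), d ≠ 0 → d < p →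
      (∀ (K : Type) [CommRing K], (∀ x : K, (d : K) * x = 0 → x = 0) →
        ∃ E : (Additive L →+ K) →ₗ[K] (Fin k → K), Function.Bijective E) →
      Nat.card (L →* Multiplicative (ZMod p)) = p ^ k := by
    intro L _ k d hd hdp hL
    obtain ⟨E, hE⟩ := hL (ZMod p) (hP d hd hdp)
    let e : (L →* Multiplicative (ZMod p)) ≃ (Additive L →+ ZMod p) :=
      { toFun := fun f =>
          { toFun := fun x => Multiplicative.toAdd (f (Additive.toMul x))
            map_zero' := by simp
            map_add' := fun x y => by simp }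
        invFun := fun f =>
          { toFun := fun x => Multiplicative.ofAdd (f (Additive.ofMul x))
            map_one' := by simp
            map_mul' := fun x y => by simp }
        left_inv := fun f => rfl
        right_inv := fun f => rfl }
    rw [Nat.card_congr (e.trans (Equiv.ofBijective E hE)), Nat.card_fun]
    simp
  have h1 := key G n c hc (by omega) hG
  have h2 := key H n' c' hc' (by omega) hH
  have : Finite (Multiplicative (ZMod p)) := inferInstanceAs (Finite (ZMod p))
  rw [Nat.card_congr (Φ.equiv (Multiplicative (ZMod p))), h2] at h1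
  exact (Nat.pow_right_injective hp.two_le h1).symm

end

end Pool.Agent.F8.CG
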