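import Pool.Agent.Lib.MP_305fdd_al.F8.CG.P_b1n

/-!
# MP_305fdd_al, congruence subgroups: the first Betti number of a quotient
-/

set_option autoImplicit false

namespace Pool.Agent.F8.CG

open Pool.Agent.F8.BG Pool.Agent.Lib.MP_305fdd_al Pool.Agent.F8

noncomputable section

theorem p_b1s : N_b1s := by
  intro G H _ _ _ f hf
  obtain ⟨n, c, hc, h⟩ := b1n_hom G
  obtain ⟨E, hE⟩ := h ℚ (fun x hx => by
    rcases mul_eq_zero.1 hx with h1 | h1
    · exact absurd (by exact_mod_cast h1) hc
    · exact h1)
  have hfin : Module.Finite ℚ (Additive G →+ ℚ) :=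
    Module.Finite.of_injective E hE.1
  let F : (Additive H →+ ℚ) →ₗ[ℚ] (Additive G →+ ℚ) :=
    { toFun := fun φ => φ.comp (MonoidHom.toAdditive f)
      map_add' := fun _ _ => rfl
      map_smul' := fun _ _ => rfl }
  have hF : Function.Injective F := by
    intro φ ψ hφ
    ext x
    obtain ⟨y, hy⟩ := hf (Additive.toMul x)
    have h1 := DFunLike.congr_fun hφ (Additive.ofMul y)
    have h2 : φ (Additive.ofMul (f y)) = ψ (Additive.ofMul (f y)) := h1
    rw [hy] at h2
    exact h2
  exact LinearMap.finrank_le_finrank_of_injective hF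

end

end Pool.Agent.F8.CG
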