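import Pool.Agent.Lib.MP_305fdd_al.F8.BG.MainI
import Pool.Agent.Lib.MP_305fdd_al.F8.PIC.P_hl2
import Pool.Agent.Lib.MP_305fdd_al.F8.PIC.P_prd
import Pool.Agent.Lib.MP_305fdd_al.F8.CG.MainB
import Pool.Agent.Lib.MP_305fdd_al.F8.CG.MainU
import Pool.Agent.Lib.MP_305fdd_al.F8.CG.FiveP
import Pool.Agent.Lib.MP_305fdd_al.F8.CG.P_Ffin
import Pool.Agent.Lib.MP_305fdd_al.F8.CG.P_Fnpr
import Pool.Agent.Lib.MP_305fdd_al.F8.CG.P_Femb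
import Pool.Agent.Lib.MP_305fdd_al.F8.CG.P_Ftow
import Pool.Agent.Lib.MP_305fdd_al.F8.CG.P_Ftwo
import Pool.Agent.Lib.MP_305fdd_al.F8.CG.P_Fcrd
import Pool.Agent.Lib.MP_305fdd_al.F8.CG.P_Fcmp
import Pool.Agent.Lib.MP_305fdd_al.F8.CG.P_b1n
import Pool.Agent.Lib.MP_305fdd_al.F8.CG.P_b1s
import Pool.Agent.Lib.MP_305fdd_al.F8.CG.P_Ccon
import Pool.Agent.Lib.MP_305fdd_al.F8.CG.P_Ccl
import Pool.Agent.Lib.MP_305fdd_al.F8.CG.P_Cinj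
import Pool.Agent.Lib.MP_305fdd_al.F8.CG.P_Cimg
import Pool.Agent.Lib.MP_305fdd_al.F8.CG.P_Chl1
import Pool.Agent.Lib.MP_305fdd_al.F8.CG.P_Cun
import Pool.Agent.Lib.MP_305fdd_al.F8.CG.P_Xpsl
import Pool.Agent.Lib.MP_305fdd_al.F8.CG.P_Xinv
import Pool.Agent.Lib.MP_305fdd_al.F8.CG.P_Xtr
import Pool.Agent.Lib.MP_305fdd_al.F8.CG.P_Xfg
import Pool.Agent.Lib.MP_305fdd_al.F8.CG.P_Xext
import Pool.Agent.Lib.MP_305fdd_al.F8.CG.P_Xgen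
import Pool.Agent.Lib.MP_305fdd_al.F8.CG.P_Xid4
import Pool.Agent.Lib.MP_305fdd_al.F8.CG.P_Xgrm
import Pool.Agent.Lib.MP_305fdd_al.F8.CG.P_Xdy
import Pool.Agent.Lib.MP_305fdd_al.F8.CG.P_Yirc
import Pool.Agent.Lib.MP_305fdd_al.F8.CG.DefsG
import Pool.Agent.Lib.MP_305fdd_al.F8.CG.DefsBlk
import Pool.Agent.Lib.MP_305fdd_al.F8.CG.GamLe
import Pool.Agent.Lib.MP_305fdd_al.F8.CG.P_Csrd

/-!
# MP_305fdd_al, congruence subgroups: the blocks F, C, X, E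
-/

set_option autoImplicit false

namespace Pool.Agent.F8.CG

open Pool.Agent.F8.BG Pool.Agent.MP_305fdd_al Pool.Agent.Lib.MP_305fdd_al Pool.Agent.F8
open scoped QuadraticAlgebra

/-- the blocks F, C, X, E -/
theorem blk : Blk where
  e := m_Emain
  f := p_Ffin (p_fi BG.m_inf) (p_Fnpr BG.m_par) p_Femb p_Ftwo (p_Ftow p_Femb) p_Fcrd
    (p_Fcmp p_b1n p_b1s p_Femb)
  con := p_Ccon p_Cun p_Chl1 PIC.p_hl2
  cl := p_Ccl p_Csrd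
  inj := p_Cinj
  img := p_Cimg
  psl := p_Xpsl PIC.p_prd
  inv := p_Xinv
  tr := p_Xtr (p_Xgen (p_Xext p_Xid4 p_Xgrm)) p_Xdy
  fg := p_Xfg

end Pool.Agent.F8.CG
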