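import Mathlib.LinearAlgebra.Matrix.ProjectiveSpecialLinearGroup
import Mathlib.Data.Complex.Basic
import Pool.Agent.Lib.MP_305fdd_al.Defs

/-!
# MP_305fdd_al, congruence lattices of `PSL(2, ℂ)`: definitions
-/

set_option autoImplicit false

namespace Pool.Agent.MP_305fdd_al.Cong

open scoped MatrixGroups

/-- the homomorphism `SL(2, R) → PSL(2, L)` induced by the homomorphism of rings `i : R → L` -/
def toPSL {R L : Type} [CommRing R] [CommRing L] (i : R →+* L) : SL(2, R) →* PSL(2, L) :=
  (QuotientGroup.mk' _).comp (Matrix.SpecialLinearGroup.map i)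

end Pool.Agent.MP_305fdd_al.Cong
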