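import Mathlib.LinearAlgebra.Matrix.ProjectiveSpecialLinearGroup
import Mathlib.RingTheory.Ideal.Quotient.Defs
import Pool.Agent.Lib.MP_305fdd_al.Defs

/-!
# MP_305fdd_al, congruence subgroups of `PSL₂(R)`: definitions
-/

set_option autoImplicit false

namespace Pool.Agent.MP_305fdd_al.Cong

section

variable {R : Type} [CommRing R]

/-- `Γ(I)`: the matrices which are one modulo `I` -/
def G (I : Ideal R) : Subgroup (Matrix.SpecialLinearGroup (Fin 2) R) :=
  (Matrix.SpecialLinearGroup.map (Ideal.Quotient.mk I)).ker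

/-- `Γ₁(I)`: the matrices `[[a, b], [c, d]]` with `a ≡ d ≡ 1` and `c ≡ 0` modulo `I` -/
def G1 (I : Ideal R) : Subgroup (Matrix.SpecialLinearGroup (Fin 2) R) where
  carrier := {x | x.val 0 0 - 1 ∈ I ∧ x.val 1 0 ∈ I ∧ x.val 1 1 - 1 ∈ I}
  mul_mem' := by
    intro x y hx hy
    obtain ⟨h1, h2, h3⟩ := hx
    obtain ⟨k1, k2, k3⟩ := hy
    have e : ∀ i j, (x * y).val i j = x.val i 0 * y.val 0 j + x.val i 1 * y.val 1 j := by
      intro i j
      rw [Matrix.SpecialLinearGroup.coe_mul, Matrix.mul_apply, Fin.sum_univ_two]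
    refine ⟨?_, ?_, ?_⟩
    · rw [e]
      have h : x.val 0 0 * y.val 0 0 + x.val 0 1 * y.val 1 0 - 1 =
        (x.val 0 0 - 1) * y.val 0 0 + (y.val 0 0 - 1) + x.val 0 1 * y.val 1 0 := by ring
      rw [h]
      exact I.add_mem (I.add_mem (I.mul_mem_right _ h1) k1) (I.mul_mem_left _ k2)
    · rw [e]
      exact I.add_mem (I.mul_mem_right _ h2) (I.mul_mem_left _ k2)
    · rw [e]
      have h : x.val 1 0 * y.val 0 1 + x.val 1 1 * y.val 1 1 - 1 =
        x.val 1 0 * y.val 0 1 + ((x.val 1 1 - 1) * y.val 1 1 + (y.val 1 1 - 1)) := by ring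
      rw [h]
      exact I.add_mem (I.mul_mem_right _ h2) (I.add_mem (I.mul_mem_right _ h3) k3)
  one_mem' := by
    refine ⟨?_, ?_, ?_⟩ <;> simp
  inv_mem' := by
    intro x hx
    obtain ⟨h1, h2, h3⟩ := hx
    have e : (x⁻¹).val = !![x.val 1 1, -x.val 0 1; -x.val 1 0, x.val 0 0] := by
      rw [Matrix.SpecialLinearGroup.coe_inv, Matrix.adjugate_fin_two]
    refine ⟨?_, ?_, ?_⟩
    · rw [e]
      simpa using h3
    · rw [e]
      simpa using h2
    · rw [e]
      simpa using h1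

/-- `Γ₀(I)`: the matrices `[[a, b], [c, d]]` with `c ≡ 0` modulo `I` -/
def G0 (I : Ideal R) : Subgroup (Matrix.SpecialLinearGroup (Fin 2) R) where
  carrier := {x | x.val 1 0 ∈ I}
  mul_mem' := by
    intro x y hx hy
    have hx' : x.val 1 0 ∈ I := hx
    have hy' : y.val 1 0 ∈ I := hy
    show (x * y).val 1 0 ∈ I
    rw [Matrix.SpecialLinearGroup.coe_mul, Matrix.mul_apply, Fin.sum_univ_two]
    exact I.add_mem (I.mul_mem_right _ hx') (I.mul_mem_left _ hy')
  one_mem' := by simp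
  inv_mem' := by
    intro x hx
    have hx' : x.val 1 0 ∈ I := hx
    show (x⁻¹).val 1 0 ∈ I
    rw [Matrix.SpecialLinearGroup.coe_inv, Matrix.adjugate_fin_two]
    simpa using hx'

/-- the image in `PSL₂(R) = SL₂(R) / center` -/
def P (D : Subgroup (Matrix.SpecialLinearGroup (Fin 2) R)) :
    Subgroup (Matrix.ProjectiveSpecialLinearGroup (Fin 2) R) :=
  D.map (QuotientGroup.mk' _)

end

end Pool.Agent.MP_305fdd_al.Cong
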