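import Pool.Agent.Lib.MP_305fdd_al.F8.CG.DefsM
import Pool.Agent.Lib.MP_305fdd_al.F8.CG.DefsN
import Pool.Agent.Lib.MP_305fdd_al.F8.CG.DefsP

/-!
# MP_305fdd_al, congruence lattices of `PSL(2, ℂ)`: reduction to `PGL(2, K)`

A subgroup of `PSL(2, L)` which contains the image of a principal congruence subgroup of `SL(2, R)`
as a subgroup of finite index is contained in `PGL(2, K)`, `K` the field of fractions of `R`.
-/

set_option autoImplicit false

namespace Pool.Agent.F8.CG.Com

open Pool.Agent.MP_305fdd_al Matrix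
open scoped MatrixGroups

theorem rigid_equiv {G H : Type} [Group G] [Group H] (e : G ≃* H) (h : ProfinitelyRigid G) :
    ProfinitelyRigid H := by
  intro Λ _ hΛ
  obtain ⟨h1, h2, h3⟩ := hΛ
  have h4 : InGenus G Λ := by
    refine ⟨h1, h2, fun Q _ _ => (h3 Q).trans ⟨?_, ?_⟩⟩
    · rintro ⟨f, hf⟩
      exact ⟨f.comp e.toMonoidHom, hf.comp e.surjective⟩
    · rintro ⟨f, hf⟩
      exact ⟨f.comp e.symm.toMonoidHom, hf.comp e.symm.surjective⟩
  obtain ⟨φ⟩ := h Λ h4
  exact ⟨φ.trans e⟩

section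

variable {K L : Type} [Field K] [Field L] (i : K →+* L)

/-- the linear algebra -/
theorem lin (g : GL (Fin 2) L) (A B : Matrix (Fin 2) (Fin 2) K)
    (hA : g.val * !![0, 1; 0, 0] = A.map i * g.val)
    (hB : g.val * !![0, 0; 1, 0] = B.map i * g.val) :
    ∃ h : GL (Fin 2) K, ProjGenLinGroup.mk (GeneralLinearGroup.map i h) =
      ProjGenLinGroup.mk g := by
  -- the inverse matrix
  set k := (g⁻¹).val with hk
  have hgk : g.val * k = 1 := by
    rw [hk, ← Units.val_mul, mul_inv_cancel, Units.val_one]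
  have hkg : k * g.val = 1 := by
    rw [hk, ← Units.val_mul, inv_mul_cancel, Units.val_one]
  have h0 : ∃ j, k 0 j ≠ 0 := by
    by_contra h
    push Not at h
    have h1 : (k * g.val) 0 0 = 0 := by
      rw [Matrix.mul_apply, Fin.sum_univ_two, h 0, h 1, zero_mul, zero_mul, add_zero]
    rw [hkg] at h1
    simp at h1
  obtain ⟨j, hj⟩ := h0
  have hB' : B.map i = g.val * !![0, 0; 1, 0] * k := by
    rw [hB, Matrix.mul_assoc, hgk, Matrix.mul_one]
  have hAB : (A * B).map i = g.val * !![1, 0; 0, 0] * k := by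
    have h1 : (A * B).map i * g.val = g.val * !![1, 0; 0, 0] := by
      rw [Matrix.map_mul, Matrix.mul_assoc, ← hB, ← Matrix.mul_assoc, ← hA, Matrix.mul_assoc]
      congr 1
      ext a b
      fin_cases a <;> fin_cases b <;> simp
    rw [← h1, Matrix.mul_assoc, hgk, Matrix.mul_one]
  let H : Matrix (Fin 2) (Fin 2) K := !![(A * B) 0 j, B 0 j; (A * B) 1 j, B 1 j]
  have e1 : ∀ a, i ((A * B) a j) = k 0 j * g.val a 0 := by
    intro a
    have h1 := congrFun (congrFun hAB a) j
    have h2 : ((A * B).map i) a j = i ((A * B) a j) := rfl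
    rw [h2] at h1
    rw [h1, Matrix.mul_apply, Fin.sum_univ_two, Matrix.mul_apply, Matrix.mul_apply]
    simp [Fin.sum_univ_two]
    ring
  have e2 : ∀ a, i (B a j) = k 0 j * g.val a 1 := by
    intro a
    have h1 := congrFun (congrFun hB' a) j
    have h2 : (B.map i) a j = i (B a j) := rfl
    rw [h2] at h1
    rw [h1, Matrix.mul_apply, Fin.sum_univ_two, Matrix.mul_apply, Matrix.mul_apply]
    simp [Fin.sum_univ_two]
    ring
  have hH : H.map i = k 0 j • g.val := by
    ext a b
    fin_cases a <;> fin_cases b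
    · exact e1 0
    · exact e2 0
    · exact e1 1
    · exact e2 1
  have hdet : H.det ≠ 0 := by
    intro h
    have h1 : (H.map i).det = 0 := by
      have := RingHom.map_det i H
      rw [h, map_zero] at this
      exact this.symm
    rw [hH, Matrix.det_smul, Fintype.card_fin] at h1
    have h2 : g.val.det ≠ 0 := by
      have h3 : g.val.det * k.det = 1 := by rw [← Matrix.det_mul, hgk, Matrix.det_one]
      intro h4
      rw [h4, zero_mul] at h3
      exact zero_ne_one h3
    exact (mul_ne_zero (pow_ne_zero 2 hj) h2) h1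
  refine ⟨GeneralLinearGroup.mkOfDetNeZero H hdet, ?_⟩
  rw [eq_comm, ProjGenLinGroup.mk_eq_mk_iff]
  refine ⟨Units.mk0 (k 0 j) hj, ?_⟩
  apply Units.ext
  have h1 : (GeneralLinearGroup.map i (GeneralLinearGroup.mkOfDetNeZero H hdet)).val = H.map i := rfl
  rw [h1, hH, Units.val_mul]
  ext a b
  simp [mul_comm]

/-- the homomorphism `PGL(2, K) → PGL(2, L)` is injective -/
theorem map_inj : Function.Injective (ProjGenLinGroup.map (n := Fin 2) i) := by
  rw [injective_iff_map_eq_one]
  intro x hx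
  induction x using ProjGenLinGroup.induction_on with | mk g =>
  rw [ProjGenLinGroup.map_mk, ProjGenLinGroup.mk_eq_one,
    GeneralLinearGroup.mem_center_iff_val_mem_range_scalar] at hx
  obtain ⟨c, hc⟩ := hx
  have e : ∀ a b, i (g.val a b) = (Matrix.scalar (Fin 2) c) a b := fun a b => by
    rw [hc]; rfl
  rw [ProjGenLinGroup.mk_eq_one, GeneralLinearGroup.mem_center_iff_val_mem_range_scalar]
  refine ⟨g.val 0 0, ?_⟩
  ext a b
  apply i.injective
  rw [e a b]
  have h0 := e 0 0
  fin_cases a <;> fin_cases b <;> simp_all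

/-- a conjugate of a unipotent matrix -/
theorem ex_conj (g : GL (Fin 2) L) (N : Matrix (Fin 2) (Fin 2) K) (t : K) (ht : t ≠ 0)
    (U S : GL (Fin 2) K) (hU : U.val = 1 + t • N) (hdU : U.val.det = 1) (hdS : S.val.det = 1)
    (h : ProjGenLinGroup.mk g * ProjGenLinGroup.mk (GeneralLinearGroup.map i U) *
      (ProjGenLinGroup.mk g)⁻¹ = ProjGenLinGroup.mk (GeneralLinearGroup.map i S)) :
    ∃ A : Matrix (Fin 2) (Fin 2) K, g.val * N.map i = A.map i * g.val := by
  rw [← map_inv, ← map_mul, ← map_mul, ProjGenLinGroup.mk_eq_mk_iff] at h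
  obtain ⟨c, hc⟩ := h
  have hgk : g.val * (g⁻¹).val = 1 := by
    rw [← Units.val_mul, mul_inv_cancel, Units.val_one]
  have hkg : (g⁻¹).val * g.val = 1 := by
    rw [← Units.val_mul, inv_mul_cancel, Units.val_one]
  have h1 : c.val • (g.val * (U.val.map i) * (g⁻¹).val) = S.val.map i := by
    have h2 := congrArg Units.val hc
    rw [Units.val_mul, Units.val_mul, Units.val_mul] at h2
    have h3 : (GeneralLinearGroup.map i S).val = S.val.map i := rfl
    have h4 : (GeneralLinearGroup.map i U).val = U.val.map i := rfl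
    rw [h3, h4] at h2
    rw [← h2]
    ext a b
    simp [mul_comm]
  have hc2 : c.val ^ 2 = 1 := by
    have h2 := congrArg Matrix.det h1
    have h3 : (S.val.map i).det = 1 := by
      have h4 : (S.val.map i).det = i S.val.det := (RingHom.map_det i S.val).symm
      rw [h4, hdS, map_one]
    have h4 : (U.val.map i).det = 1 := by
      have h5 : (U.val.map i).det = i U.val.det := (RingHom.map_det i U.val).symm
      rw [h5, hdU, map_one]
    have h5 : g.val.det * (g⁻¹).val.det = 1 := by rw [← Matrix.det_mul, hgk, Matrix.det_one]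
    rw [h3, Matrix.det_smul, Matrix.det_mul, Matrix.det_mul, h4, mul_one, h5, mul_one,
      Fintype.card_fin] at h2
    exact h2
  obtain ⟨c₀, hc₀⟩ : ∃ c₀ : K, i c₀ = c.val := by
    rcases sq_eq_one_iff.1 hc2 with h | h
    · exact ⟨1, by rw [map_one, h]⟩
    · exact ⟨-1, by rw [map_neg, map_one, h]⟩
  refine ⟨t⁻¹ • (c₀ • S.val - 1), ?_⟩
  have hit : i t ≠ 0 := fun h => ht (i.injective (by rw [h, map_zero]))
  have h2 : (t⁻¹ • (c₀ • S.val - 1)).map i = (i t)⁻¹ • (c.val • S.val.map i - 1) := by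
    ext a b
    show i (t⁻¹ * (c₀ * S.val a b - (1 : Matrix (Fin 2) (Fin 2) K) a b)) =
      (i t)⁻¹ * (c.val * i (S.val a b) - (1 : Matrix (Fin 2) (Fin 2) L) a b)
    rw [map_mul, map_sub, map_mul, map_inv₀, hc₀]
    congr 2
    by_cases hab : a = b
    · subst hab; simp
    · rw [Matrix.one_apply_ne hab, Matrix.one_apply_ne hab, map_zero]
  have h3 : U.val.map i = 1 + i t • N.map i := by
    rw [hU]
    ext a b
    show i ((1 : Matrix (Fin 2) (Fin 2) K) a b + t * N a b) =
      (1 : Matrix (Fin 2) (Fin 2) L) a b + i t * i (N a b)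
    rw [map_add, map_mul]
    congr 1
    by_cases hab : a = b
    · subst hab; simp
    · rw [Matrix.one_apply_ne hab, Matrix.one_apply_ne hab, map_zero]
  rw [h2, ← h1, smul_smul, ← pow_two, hc2, one_smul, h3, Matrix.mul_add, Matrix.add_mul,
    Matrix.mul_one, hgk, add_sub_cancel_left, Matrix.smul_mul, Matrix.mul_assoc, hkg,
    Matrix.mul_one, Matrix.mul_smul, smul_smul, inv_mul_cancel₀ hit, one_smul]

end

section

variable {R : Type} [CommRing R]

/-- `[[1, s], [0, 1]]` -/
def up (s : R) : SL(2, R) := ⟨!![1, s; 0, 1], by simp [Matrix.det_fin_two]⟩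

/-- `[[1, 0], [s, 1]]` -/
def lo (s : R) : SL(2, R) := ⟨!![1, 0; s, 1], by simp [Matrix.det_fin_two]⟩

theorem up_pow (s : R) (n : ℕ) : up s ^ n = up (n * s) := by
  induction n with
  | zero =>
    rw [pow_zero, Nat.cast_zero, zero_mul]
    apply Subtype.ext
    ext a b
    fin_cases a <;> fin_cases b <;> simp [up]
  | succ n ih =>
    rw [pow_succ, ih]
    apply Subtype.ext
    show (up (n * s)).val * (up s).val = (up ((n + 1 : ℕ) * s)).val
    ext a b
    fin_cases a <;> fin_cases b <;> simp [up, Matrix.mul_apply, Fin.sum_univ_two]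
    ring

theorem lo_pow (s : R) (n : ℕ) : lo s ^ n = lo (n * s) := by
  induction n with
  | zero =>
    rw [pow_zero, Nat.cast_zero, zero_mul]
    apply Subtype.ext
    ext a b
    fin_cases a <;> fin_cases b <;> simp [lo]
  | succ n ih =>
    rw [pow_succ, ih]
    apply Subtype.ext
    show (lo (n * s)).val * (lo s).val = (lo ((n + 1 : ℕ) * s)).val
    ext a b
    fin_cases a <;> fin_cases b <;> simp [lo, Matrix.mul_apply, Fin.sum_univ_two]
    ring

theorem up_mem {J : Ideal R} {s : R} (hs : s ∈ J) : up s ∈ Cong.G J := by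
  show Matrix.SpecialLinearGroup.map (Ideal.Quotient.mk J) (up s) = 1
  have h : Ideal.Quotient.mk J s = 0 := Ideal.Quotient.eq_zero_iff_mem.2 hs
  apply Subtype.ext
  ext a b
  show Ideal.Quotient.mk J ((up s).val a b) = (1 : Matrix (Fin 2) (Fin 2) (R ⧸ J)) a b
  fin_cases a <;> fin_cases b <;> simp [up, h]

theorem lo_mem {J : Ideal R} {s : R} (hs : s ∈ J) : lo s ∈ Cong.G J := by
  show Matrix.SpecialLinearGroup.map (Ideal.Quotient.mk J) (lo s) = 1
  have h : Ideal.Quotient.mk J s = 0 := Ideal.Quotient.eq_zero_iff_mem.2 hs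
  apply Subtype.ext
  ext a b
  show Ideal.Quotient.mk J ((lo s).val a b) = (1 : Matrix (Fin 2) (Fin 2) (R ⧸ J)) a b
  fin_cases a <;> fin_cases b <;> simp [lo, h]

variable {K L : Type} [Field K] [CharZero K] [Algebra R K] [Field L] (i : K →+* L)

/-- The group is contained in `PGL(2, K)`. -/
theorem le_range (J : Ideal R) (s : R) (hs : s ∈ J) (h0 : algebraMap R K s ≠ 0)
    (Γ : Subgroup (PGL(2, L))) (hΓ : (Cong.PG K J).map (ProjGenLinGroup.map i) ≤ Γ)
    (hi : ((Cong.PG K J).map (ProjGenLinGroup.map i)).relIndex Γ ≠ 0) :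
    Γ ≤ (ProjGenLinGroup.map (n := Fin 2) i).range := by
  intro γ hγ
  induction γ using ProjGenLinGroup.induction_on with | mk g =>
  -- a conjugate of an element of the image of `Γ(J)`
  have key : ∀ (N : Matrix (Fin 2) (Fin 2) K) (u : R → SL(2, R)),
      (∀ x ∈ J, u x ∈ Cong.G J) → (∀ (x : R) (n : ℕ), u x ^ n = u (n * x)) →
      (∀ x : R, (u x).val.map (algebraMap R K) = 1 + (algebraMap R K x) • N) →
      ∃ A : Matrix (Fin 2) (Fin 2) K, g.val * N.map i = A.map i * g.val := by
    intro N u hu hp hN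
    have h1 : ProjGenLinGroup.mk g * ProjGenLinGroup.map i (Cong.toK K (u s)) *
        (ProjGenLinGroup.mk g)⁻¹ ∈ Γ :=
      mul_mem (mul_mem hγ (hΓ ⟨_, ⟨u s, hu s hs, rfl⟩, rfl⟩)) (inv_mem hγ)
    obtain ⟨n, hn, -, h2⟩ := Subgroup.exists_pow_mem_of_relIndex_ne_zero hi h1
    obtain ⟨_, ⟨x, -, rfl⟩, hx⟩ := h2.1
    rw [conj_pow, ← map_pow, ← map_pow, hp] at hx
    refine ex_conj i g N (algebraMap R K (n * s)) ?_
      (SpecialLinearGroup.toGL (SpecialLinearGroup.map (algebraMap R K) (u (n * s))))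
      (SpecialLinearGroup.toGL (SpecialLinearGroup.map (algebraMap R K) x)) (hN _)
      (SpecialLinearGroup.map (algebraMap R K) (u (n * s))).2
      (SpecialLinearGroup.map (algebraMap R K) x).2 hx.symm
    rw [map_mul, map_natCast]
    exact mul_ne_zero (Nat.cast_ne_zero.2 hn.ne') h0
  obtain ⟨A, hA⟩ := key !![0, 1; 0, 0] up (fun _ h => up_mem h) up_pow (fun x => by
    ext a b
    show algebraMap R K ((up x).val a b) = (1 : Matrix (Fin 2) (Fin 2) K) a b +
      algebraMap R K x * (!![0, 1; 0, 0] : Matrix (Fin 2) (Fin 2) K) a b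
    fin_cases a <;> fin_cases b <;> simp [up])
  obtain ⟨B, hB⟩ := key !![0, 0; 1, 0] lo (fun _ h => lo_mem h) lo_pow (fun x => by
    ext a b
    show algebraMap R K ((lo x).val a b) = (1 : Matrix (Fin 2) (Fin 2) K) a b +
      algebraMap R K x * (!![0, 0; 1, 0] : Matrix (Fin 2) (Fin 2) K) a b
    fin_cases a <;> fin_cases b <;> simp [lo])
  have e1 : (!![0, 1; 0, 0] : Matrix (Fin 2) (Fin 2) K).map i = !![0, 1; 0, 0] := by
    ext a b
    fin_cases a <;> fin_cases b <;> simp
  have e2 : (!![0, 0; 1, 0] : Matrix (Fin 2) (Fin 2) K).map i = !![0, 0; 1, 0] := by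
    ext a b
    fin_cases a <;> fin_cases b <;> simp
  rw [e1] at hA
  rw [e2] at hB
  obtain ⟨h, hh⟩ := lin i g A B hA hB
  exact ⟨ProjGenLinGroup.mk h, hh⟩

/-- the two homomorphisms to `PGL(2, L)` -/
theorem toPSL_toPGL (x : SL(2, R)) :
    ProjectiveSpecialLinearGroup.toPGL (Cong.toPSL (i.comp (algebraMap R K)) x) =
      ProjGenLinGroup.map i (Cong.toK K x) := by
  show ProjGenLinGroup.mk (SpecialLinearGroup.toGL
    (SpecialLinearGroup.map (i.comp (algebraMap R K)) x)) =
    ProjGenLinGroup.mk (GeneralLinearGroup.map i (SpecialLinearGroup.toGL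
      (SpecialLinearGroup.map (algebraMap R K) x)))
  congr 1
  apply Units.ext
  ext a b
  rfl

/-- The reduction of a statement about subgroups of `PSL(2, L)` to subgroups of `PGL(2, K)`. -/
theorem red_PSL (J : Ideal R) (s : R) (hs : s ∈ J) (h0 : algebraMap R K s ≠ 0) (j : R →+* L)
    (hj : j = i.comp (algebraMap R K)) (Γ : Subgroup (PSL(2, L)))
    (hΓ : (Cong.G J).map (Cong.toPSL j) ≤ Γ)
    (hi : ((Cong.G J).map (Cong.toPSL j)).relIndex Γ ≠ 0) :
    ∃ Γ' : Subgroup (PGL(2, K)), Cong.PG K J ≤ Γ' ∧ (Cong.PG K J).relIndex Γ' ≠ 0 ∧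
      Nonempty (Γ' ≃* Γ) := by
  subst hj
  have hc : Function.Injective (ProjectiveSpecialLinearGroup.toPGL (n := Fin 2) (R := L)) :=
    ProjectiveSpecialLinearGroup.toPGL_injective
  have hm := map_inj i
  have e1 : ((Cong.G J).map (Cong.toPSL (i.comp (algebraMap R K)))).map
      ProjectiveSpecialLinearGroup.toPGL = (Cong.PG K J).map (ProjGenLinGroup.map i) := by
    rw [Cong.PG, Subgroup.map_map, Subgroup.map_map]
    congr 1
    ext x
    exact toPSL_toPGL i x
  have h1 : (Cong.PG K J).map (ProjGenLinGroup.map i) ≤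
      Γ.map ProjectiveSpecialLinearGroup.toPGL := by
    rw [← e1]
    exact Subgroup.map_mono hΓ
  have h2 : ((Cong.PG K J).map (ProjGenLinGroup.map i)).relIndex
      (Γ.map ProjectiveSpecialLinearGroup.toPGL) ≠ 0 := by
    rw [← e1, Subgroup.relIndex_map_map_of_injective _ _ hc]
    exact hi
  have h3 := le_range i J s hs h0 _ h1 h2
  have h4 : ((Γ.map ProjectiveSpecialLinearGroup.toPGL).comap (ProjGenLinGroup.map i)).map
      (ProjGenLinGroup.map i) = Γ.map ProjectiveSpecialLinearGroup.toPGL :=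
    Subgroup.map_comap_eq_self h3
  refine ⟨(Γ.map ProjectiveSpecialLinearGroup.toPGL).comap (ProjGenLinGroup.map i),
    Subgroup.map_le_iff_le_comap.1 h1, ?_, ⟨?_⟩⟩
  · rw [← Subgroup.relIndex_map_map_of_injective _ _ hm, h4]
    exact h2
  · exact (Subgroup.equivMapOfInjective _ _ hm).trans ((MulEquiv.subgroupCongr h4).trans
      (Subgroup.equivMapOfInjective Γ _ hc).symm)

end

end Pool.Agent.F8.CG.Com
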