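import Pool.Agent.Lib.MP_305fdd_al.F8.CG.DefsR

/-!
# MP_305fdd_al, congruence subgroups: definitions for block A (the trace formula)

`Xq α L σ` is `H¹(F; W)`, `W` the induced representation (`indA`), as a quotient of `ι → W`; `IsUb` says that an endomorphism of it is induced by `Uop`. `Zc` is the space of the crossed
homomorphisms of `L` with values in the `2 × m` matrices, twisted by a matrix `u`; `jorG τ` is a Jordan block.
-/

set_option autoImplicit false

namespace Pool.Agent.F8.CG

open Pool.Agent.F8.BG Pool.Agent.Lib.MP_305fdd_al Pool.Agent.F8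

noncomputable section

section X

variable {ι : Type} (α : MulAut (FreeGroup ι)) (L : Subgroup (GR α))
  {K V : Type} [CommRing K] [AddCommGroup V] [Module K V] (σ : L →* Module.End K V)

/-- the coboundary `φ ↦ (φ - x_i φ)_i` -/
def dlt : ((GR α ⧸ L) → V) →ₗ[K] (ι → (GR α ⧸ L) → V) :=
  LinearMap.pi fun i => LinearMap.id - indA L σ (iR α (FreeGroup.of i))

/-- `H¹(F; W)` -/
abbrev Xq : Type := (ι → (GR α ⧸ L) → V) ⧸ LinearMap.range (dlt α L σ)

/-- `Ub` is induced by `Uop` -/
def IsUb (w : ι → List ι) (Ub : Module.End K (Xq α L σ)) : Prop :=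
  ∀ v, Ub ((LinearMap.range (dlt α L σ)).mkQ v) =
    (LinearMap.range (dlt α L σ)).mkQ (Uop α w L σ v)

end X

/-- a representation in `SL₂` as a representation on `K²` -/
def s2E {L K : Type} [Group L] [CommRing K] (ρ : L →* SL2 K) :
    L →* Module.End K (Fin 2 → K) where
  toFun x := Matrix.toLin' (ρ x).val
  map_one' := by
    rw [map_one]
    exact Matrix.toLin'_one
  map_mul' x y := by
    rw [map_mul]
    exact Matrix.toLin'_mul _ _

/-- The crossed homomorphisms `z (x y) = z x + ρ x z y u ^ n(x)`. -/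
def Zc {L K : Type} [Group L] [CommRing K] (n : L →* Multiplicative ℤ) (m : ℕ)
    (ρ : L →* SL2 K) (u : Matrix.GeneralLinearGroup (Fin m) K) :
    Submodule K (L → Matrix (Fin 2) (Fin m) K) where
  carrier := {z | ∀ x y, z (x * y) = z x +
    (ρ x).val * z y * ((u ^ Multiplicative.toAdd (n x) : Matrix.GeneralLinearGroup (Fin m) K) :
      Matrix (Fin m) (Fin m) K)}
  add_mem' := by
    intro z z' hz hz' x y
    simp only [Pi.add_apply]
    rw [hz, hz', Matrix.mul_add, Matrix.add_mul]
    abel
  zero_mem' := by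
    intro x y
    simp
  smul_mem' := by
    intro c z hz x y
    simp only [Pi.smul_apply]
    rw [hz, smul_add, Matrix.mul_smul, Matrix.smul_mul]

/-- the matrix of a Jordan block -/
def jorM {R : Type} [CommRing R] (m : ℕ) (τ : R) : Matrix (Fin m) (Fin m) R :=
  fun b a => if b = a then τ else if (b : ℕ) + 1 = a then 1 else 0

theorem jorM_det {R : Type} [CommRing R] (m : ℕ) (τ : R) : (jorM m τ).det = τ ^ m := by
  rw [Matrix.det_of_isUpperTriangular]
  · simp [jorM]
  · intro b a h
    have h1 : (a : ℕ) < b := h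
    unfold jorM
    rw [if_neg (fun e => by rw [e] at h1; exact lt_irrefl _ h1), if_neg (by omega)]

/-- a Jordan block -/
def jorG {R : Type} [CommRing R] (m : ℕ) (τ : Rˣ) : Matrix.GeneralLinearGroup (Fin m) R :=
  Matrix.GeneralLinearGroup.mk'' (jorM m (τ : R)) (by
    rw [jorM_det]
    exact (τ.isUnit).pow m)

theorem jorG_val {R : Type} [CommRing R] (m : ℕ) (τ : Rˣ) :
    (jorG m τ : Matrix (Fin m) (Fin m) R) = jorM m (τ : R) := rfl

/-- the solutions of `T ξ = ξ u` -/
def Sol {K X : Type} [Field K] [AddCommGroup X] [Module K X] (m : ℕ) (T : Module.End K X)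
    (u : Matrix (Fin m) (Fin m) K) : Submodule K (Fin m → X) where
  carrier := {ξ | ∀ a, T (ξ a) = ∑ b, u b a • ξ b}
  add_mem' := by
    intro ξ ξ' h h' a
    simp only [Pi.add_apply, map_add, smul_add, Finset.sum_add_distrib]
    rw [h, h']
  zero_mem' := by
    intro a
    simp
  smul_mem' := by
    intro c ξ h a
    simp only [Pi.smul_apply, map_smul]
    rw [h, Finset.smul_sum]
    exact Finset.sum_congr rfl fun b _ => smul_comm _ _ _

/-- `c` and `c'` are conjugate in all finite quotients -/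
def PConj {G : Type} [Group G] (c c' : G) : Prop :=
  ∀ (Q : Type) [Group Q] [Finite Q] (θ : G →* Q), IsConj (θ c) (θ c')

/-- The commutator subgroup of `L` is not reducible under `ρ`. -/
def IrC {G K : Type} [Group G] [CommRing K] (L : Subgroup G) (ρ : G →* SL2 K) : Prop :=
  ∃ g ∈ ⁅L, L⁆, ∃ h ∈ ⁅L, L⁆, tr (ρ (g * h * g⁻¹ * h⁻¹)) ≠ 2

/-- The properties of the characteristic polynomial `P` of the operator on `H¹` for the subgroup `L` (of degree `N`, with trace `M` times the trace of `ρ c`). -/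
structure IsP {L K : Type} [Group L] [Field K] (nL : L →* Multiplicative ℤ) (N M : ℕ)
    (ρ : L →* SL2 K) (c : L) (P : Polynomial K) : Prop where
  /-- monic -/
  mon : P.Monic
  /-- the degree -/
  deg : P.natDegree = N
  /-- the trace -/
  tra : P.nextCoeff = -((M : K) * tr (ρ c))
  /-- an upper bound for the dimension of the space of the crossed homomorphisms -/
  le : ∀ (τ : Kˣ) (m : ℕ), Module.finrank K (Zc nL m ρ (jorG m τ)) ≤
    2 * m + P.rootMultiplicity (τ : K)
  /-- the dimension -/
  eq : ∀ τ : Kˣ, Module.finrank K (Zc nL (P.rootMultiplicity (τ : K)) ρ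
    (jorG (P.rootMultiplicity (τ : K)) τ)) = 3 * P.rootMultiplicity (τ : K)
  /-- finite dimension -/
  fd : ∀ (τ : Kˣ) (m : ℕ), Module.Finite K (Zc nL m ρ (jorG m τ))
  /-- zero is not a root -/
  ne : ¬ P.IsRoot 0
  /-- integrality -/
  int : (∀ x i j, IsIntegral ℤ ((ρ x).val i j)) → ∀ τ, P.IsRoot τ →
    IsIntegral ℤ τ ∧ IsIntegral ℤ τ⁻¹

/-- the embedding of `GR (α ^ k)` in `GR α` -/
def emb {ι : Type} (α : MulAut (FreeGroup ι)) (k : ℕ) : GR (α ^ k) →* GR α :=
  liR (fun i => iR α (FreeGroup.of i)) (tR α ^ k) (fun i => by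
    rw [tR_pow_conj]
    have h : FreeGroup.lift (fun i => iR α (FreeGroup.of i)) = iR α :=
      FreeGroup.ext_hom _ _ fun i => by simp
    rw [h])

theorem emb_iR {ι : Type} (α : MulAut (FreeGroup ι)) (k : ℕ) (f : FreeGroup ι) :
    emb α k (iR (α ^ k) f) = iR α f := by
  unfold emb
  rw [liR_iR]
  have h : FreeGroup.lift (fun i => iR α (FreeGroup.of i)) = iR α :=
    FreeGroup.ext_hom _ _ fun i => by simp
  rw [h]

theorem emb_tR {ι : Type} (α : MulAut (FreeGroup ι)) (k : ℕ) :
    emb α k (tR (α ^ k)) = tR α ^ k := by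
  unfold emb
  rw [liR_tR]

end

end Pool.Agent.F8.CG
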