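import Mathlib
import Pool.Agent.Lib.MP_305fdd_al.F8.BG.Defs

/-!
# MP_305fdd_al, congruence subgroups: definitions for the finite index criterion (blocks B1 and B2)

`b1 G` is the first Betti number; `big A X` is the integer matrix of the operator on functions on a finite `Γ`-set `X` which is given by a
matrix `A` over the group ring; `IndS`, `IndK` express linear independence in the first homology with coefficients in a field.
-/

set_option autoImplicit false

namespace Pool.Agent.F8.CG

open Pool.Agent.F8.BG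

noncomputable section

/-- the first Betti number -/
def b1 (G : Type) [Group G] : ℕ := Module.finrank ℚ (Additive G →+ ℚ)

/-! ### Operators on functions on finite sets -/

section Op

variable {Γ : Type} [Group Γ]

/-- The matrix of `g`: `(g φ) (x) = φ (g⁻¹ x)`. -/
def pmat (X : Type) [Fintype X] [DecidableEq X] [MulAction Γ X] : Γ →* Matrix X X ℤ where
  toFun g := fun x y => if g • y = x then 1 else 0
  map_one' := by
    ext x y
    simp only [one_smul, Matrix.one_apply]
    by_cases h : x = y
    · simp [h]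
    · rw [if_neg h, if_neg (fun e => h e.symm)]
  map_mul' g h := by
    ext x y
    rw [Matrix.mul_apply]
    rw [Finset.sum_eq_single (h • y)]
    · simp only [mul_smul, if_true, mul_one]
    · intro z _ hz
      simp [Ne.symm hz]
    · intro h1
      exact absurd (Finset.mem_univ _) h1

/-- the matrix of an element of the group ring -/
def rmat (X : Type) [Fintype X] [DecidableEq X] [MulAction Γ X] :
    MonoidAlgebra ℤ Γ →ₐ[ℤ] Matrix X X ℤ :=
  MonoidAlgebra.lift ℤ (Matrix X X ℤ) Γ (pmat X)

/-- the matrix of a matrix over the group ring -/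
def big {ι : Type} (A : Matrix ι ι (MonoidAlgebra ℤ Γ)) (X : Type) [Fintype X] [DecidableEq X]
    [MulAction Γ X] : Matrix (ι × X) (ι × X) ℤ :=
  fun a b => rmat X (A a.1 b.1) a.2 b.2

/-- the dimension of the kernel of an integer matrix -/
def nul {n : Type} [Fintype n] [DecidableEq n] (B : Matrix n n ℤ) : ℕ :=
  Module.finrank ℚ (LinearMap.ker (Matrix.toLin' (B.map (Int.cast : ℤ → ℚ))))

/-- The matrix `t - J`, `J` a matrix over the group ring of `F`. -/
def foxA {ι : Type} [DecidableEq ι] (α : MulAut (FreeGroup ι))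
    (J : Matrix ι ι (MonoidAlgebra ℤ (FreeGroup ι))) : Matrix ι ι (MonoidAlgebra ℤ (GR α)) :=
  fun i j => (if i = j then MonoidAlgebra.single (tR α) 1 else 0) -
    MonoidAlgebra.mapDomain (iR α) (J i j)

/-- `J` is the matrix of the Fox derivatives of the words `α x_i`. -/
def IsFox {ι : Type} [Fintype ι] (α : MulAut (FreeGroup ι))
    (J : Matrix ι ι (MonoidAlgebra ℤ (FreeGroup ι))) : Prop :=
  ∀ (M : Type) [AddCommGroup M] [DistribMulAction (FreeGroup ι) M] (z : FreeGroup ι → M),
    (∀ g h, z (g * h) = z g + g • z h) → ∀ i, z (α (FreeGroup.of i)) =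
      ∑ j, (J i j).coeff.sum fun g n => n • (g • z (FreeGroup.of j))

/-- A decreasing sequence of subgroups of finite index with trivial intersection, normal in a fixed subgroup `Γ₁` of finite index. -/
structure Tow (Γ₁ : Subgroup Γ) (D : ℕ → Subgroup Γ) : Prop where
  /-- `Γ₁` has finite index -/
  fi : Γ₁.FiniteIndex
  /-- decreasing -/
  anti : Antitone D
  /-- contained in `Γ₁` -/
  le : ∀ j, D j ≤ Γ₁
  /-- of finite index -/
  fin : ∀ j, (D j).FiniteIndex
  /-- normal in `Γ₁` -/
  nor : ∀ j, ∀ g ∈ Γ₁, ∀ d ∈ D j, g * d * g⁻¹ ∈ D j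
  /-- trivial intersection -/
  inf : ∀ g : Γ, (∀ j, g ∈ D j) → g = 1

end Op

/-! ### Linear independence in the first homology -/

section Lin

/-- the evaluation functional -/
def evh (k : Type) [Field k] {P : Type} [Group P] (y : P) : (Additive P →+ k) →ₗ[k] k where
  toFun f := f (Additive.ofMul y)
  map_add' _ _ := rfl
  map_smul' _ _ := rfl

/-- the classes of the elements `y s` of `P` in `H₁(P; k)` are linearly independent -/
def IndS (k : Type) [Field k] {G : Type} [Group G] (P : Subgroup G) {S : Type} (y : S → G) :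
    Prop :=
  ∃ hy : ∀ s, y s ∈ P, LinearIndependent k fun s => evh k (⟨y s, hy s⟩ : P)

/-- `H₁(K ∩ ker ν; 𝔽_q)` contains a free module of rank `e` over the group ring of `ν(K) ≅ ℤ`. -/
def IndK (q : ℕ) [Fact q.Prime] {H : Type} [Group H] (ν : H →* Multiplicative ℤ)
    (K : Subgroup H) (e : ℕ) : Prop :=
  ∃ h ∈ K, ν h ≠ 1 ∧ (∀ x ∈ K, ∃ n : ℤ, ν x = ν h ^ n) ∧ ∃ m : Fin e → H,
    IndS (ZMod q) (K ⊓ ν.ker) fun s : ℤ × Fin e => h ^ s.1 * m s.2 * (h ^ s.1)⁻¹

end Lin

end

end Pool.Agent.F8.CG
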