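import Pool.Agent.Lib.MP_305fdd_al.F8.CG.StmB1

/-!
# MP_305fdd_al, congruence subgroups: block B2, the first Betti number grows linearly if the kernel is not finitely generated

THEOREM (`B_lin`). Let `H` be a finitely generated group, `ν : H → ℤ` onto, with a free kernel which is not finitely generated, `K` a normal subgroup whose index is a power of the prime `q`. Then
`b1 K ≥ [H : K]`.

THEOREM (`B_fg`). Let `(D_j)` be a tower as in `B_b1`, `H` a non-abelian finitely generated subgroup of `Γ₁` such that for all `j`: the index of `H ∩ D_j` in `H` is a power of `q` and at least `[Γ : D_j] / C`, and `b1 (H ∩ D_j) ≤ b1 (D_j)`. Then `H ∩ F` is finitely generated and `H` is not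
contained in `F`.

The proof. For a subgroup `K` of finite index in `H` let `P_K = K ∩ ker ν`. `IndK q ν K e` says that the module `H₁(P_K; 𝔽_q)` over the group ring of `ν(K) ≅ ℤ` contains a free module of rank `e`. This is true for `K = H` and `e = 1` (`B_e1`), and if it is true for `K` and `e`
then it is true for a normal subgroup of `K` of index `q` and `q e` (`B_stA`, `B_stB`). The first homology of a free group is torsion free, so we get a free module of rank `e` over `ℚ` (`B_Q`), and `b1 K ≥ e` (`B_rk`, `B_bK`).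
-/

set_option autoImplicit false

namespace Pool.Agent.F8.CG

open Pool.Agent.F8.BG

noncomputable section

/-- [CG e1] the beginning.

Proof. Choose `h` with `ν h` a generator. `H` is generated by `h` and finitely many elements `p_1, .., p_n` of `P = ker ν` (replace a generator `g` by `g h ^ (- ν g)`), so `P` is generated by the `h^k p_i h^-k` (the subgroup generated by them is normalised by `h` and the `p_i`; `H` = this subgroup times the
powers of `h`). `P` is free on a set `B`, which is infinite. For `y ∈ P` let `cl y ∈ B →₀ ZMod q` be its class (`FreeGroup.lift (fun b => Finsupp.single b 1)`); the classes generate this vector space, `f (y) = ` linear functional of `cl y` for every `f : Additive P →+ ZMod q`, and every linear functional comes from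
an `f`; so `IndS` is the linear independence of the classes. Let `τ` be the automorphism of `V = B →₀ ZMod q` induced by the conjugation with `h`. If for every `i` the family `(τ^k cl p_i)_(k ∈ ℤ)` is linearly dependent then its span is finite dimensional (a relation `∑_(k=a)^b c_k τ^k v = 0` with
`c_a, c_b ≠ 0`: the span of `τ^a v, .., τ^(b-1) v` is invariant under `τ` and `τ⁻¹`), so `V` is finite dimensional, contradiction. So for some `i` the family is linearly independent; `m = p_i`. -/
def B_e1 : Prop := ∀ (H : Type) [Group H] [Group.FG H] (ν : H →* Multiplicative ℤ),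
  Function.Surjective ν → IsFreeGroup ν.ker → ¬ Group.FG ν.ker → ∀ (q : ℕ) [Fact q.Prime],
  IndK q ν ⊤ 1

/-- [CG stA] the first case: `K ∩ ker ν ≤ K'`.

Proof. `K' ⊓ ker ν = K ⊓ ker ν`, and `K'` is the set of the `x ∈ K` with `ν x` in a subgroup of index `q` of `ν K` (`ν` induces a bijection from `K ⧸ K'` to `ν K ⧸ ν K'`), which consists of the `q`-th powers, so `h' = h ^ q` has the required property (`h ^ q ∈ K'`: `ν (h^q) = ν (x)` for some
`x ∈ K'`, so `h^q x⁻¹ ∈ K ⊓ ker ν ≤ K'`). `m' (i, j) = h ^ i * m j * h ^ -i`, `0 ≤ i < q` (`Fin q × Fin e ≃ Fin (q * e)`): the family `h' ^ k * m' (i, j) * h' ^ -k = h ^ (q k + i) * m j * h ^ -(q k + i)` is a reindexing of the given one. -/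
def B_stA : Prop := ∀ (q : ℕ) [Fact q.Prime] (H : Type) [Group H] (ν : H →* Multiplicative ℤ)
  (K K' : Subgroup H) (e : ℕ), K' ≤ K → K'.relIndex K = q → K ⊓ ν.ker ≤ K' →
  IndK q ν K e → IndK q ν K' (q * e)

/-- [CG fac] subgroups of index `q` of free groups.

Proof. Let `χ : P → ZMod q` be a homomorphism with kernel `P'` and `χ c = 1` (`P ⧸ P'` is cyclic of order `q`, generated by the class of `c`). Let `W` be the group of the pairs `(u, a)`, `u : ZMod q → ZMod q`, `a : ZMod q`, with `(u, a) (u', a') = (u + a · u', a + a')`, `(a · u') i = u' (i - a)` (a semidirect product, for example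
with `Multiplicative`). `P` is free: define `Θ : P → W` on a basis by `Θ b = (f b · δ_0, χ b)`. Then the second component of `Θ x` is `χ x`, and `∑ i, (Θ x).1 i = f x` (both sides are homomorphisms). Put `f' x = (Θ x).1 0` for `x ∈ P'` (a homomorphism on `P'`, as `χ x = 0`). For `x ∈ P'`, `Θ (c x c⁻¹) = (u_c + 1 · u_x + (1 + 0 - 1) .. , 0) = (1 · u_x, 0)`,
so `f' (c^i x c^-i) = u_x (-i)` and the sum over `i` is `∑ i, u_x i = f x`. -/
def B_fac : Prop := ∀ (q : ℕ) [Fact q.Prime] (P : Type) [Group P], IsFreeGroup P →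
  ∀ (P' : Subgroup P) [P'.Normal], P'.index = q → ∀ c : P, c ∉ P' →
  ∀ f : Additive P →+ ZMod q, ∃ f' : P → ZMod q,
    (∀ x y : P, x ∈ P' → y ∈ P' → f' (x * y) = f' x + f' y) ∧
    ∀ x ∈ P', ∑ i ∈ Finset.range q, f' (c ^ i * x * (c ^ i)⁻¹) = f (Additive.ofMul x)

/-- [CG stB] the second case. (Uses `B_fac`.)

Proof. `P = K ⊓ ker ν`, `P' = K' ⊓ ker ν = P ⊓ K'` has index `q` in `P` and `K = P K'`. (1) Choose `h' ∈ K'` with `ν h' = ν h` (`h = p h'`, `p ∈ P`). For a homomorphism `f` on `P` we have
`f (h'^k m h'^-k) = f (h^k m h^-k)` (`h'^k = h^k p_k` with `p_k ∈ P`, and `x ↦ f (h^k x h^-k)` is a homomorphism on `P`), so we may replace `h` by `h'`: `h ∈ K'`. (2) Replace `m j` by `h m_j h⁻¹ m_j⁻¹ ∈ P'` (`K ⧸ K'` is abelian): if `∑ a_(k,j) f (h^(k+1) m_j h^-(k+1)) - a_(k,j) f (h^k m_j h^-k) = 0` for all `f` then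
`a_(k-1,j) = a_(k,j)` for all `k`, and `a = 0`, because it has finite support. So now `m j ∈ P'`. (3) Let `c ∈ P`, `c ∉ P'`, and `m' (i, j) = c^i m_j c^-i`, `0 ≤ i < q`. Claim: the `h^k m'(i,j) h^-k` are linearly independent for `P'`. Let `a : ℤ × Fin q × Fin e → ZMod q` have finite support, not zero, with
`∑ a_(k,i,j) f' (h^k c^i m_j c^-i h^-k) = 0` for all homomorphisms `f'` on `P'`. `h^k c^i = c^i h^k p'` with `p' ∈ P'` (`K ⧸ K'` is abelian, and `ν`), so `f' (h^k c^i m_j c^-i h^-k) = f' (c^i h^k m_j h^-k c^-i)`. Put `f' ∘ conj (c^l)` for `f'`, and take linear combinations: for every polynomial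
`b(C) = ∑ b_l C^l` over `ZMod q` we have `∑_(k,j) ∑_i (b A_(k,j))_i f' (c^i (h^k m_j h^-k) c^-i) = 0`, where `A_(k,j) = ∑ a_(k,i,j) C^i` in `𝔽_q[C] / (C^q - 1)` (`c^q ∈ P'` acts trivially on the homomorphisms on `P'`). `𝔽_q[C] / (C^q - 1) = 𝔽_q[Y] / (Y^q)`, `Y = C - 1`. Let `i₀` be the smallest order in `Y` of the `A_(k,j)`, and
`b = Y^(q - 1 - i₀)`: then `b A_(k,j) = s_(k,j) Y^(q-1) = s_(k,j) (1 + C + .. + C^(q-1))`, not all `s_(k,j)` are zero. So `∑ s_(k,j) ∑_i f' (c^i (h^k m_j h^-k) c^-i) = 0` for all `f'`; by `B_fac` `∑ s_(k,j) f (h^k m_j h^-k) = 0` for all `f` on `P`, so `s = 0`, contradiction. -/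
def B_stB : Prop := ∀ (q : ℕ) [Fact q.Prime] (H : Type) [Group H] (ν : H →* Multiplicative ℤ)
  (K K' : Subgroup H) (e : ℕ), IsFreeGroup (K ⊓ ν.ker : Subgroup H) → K' ≤ K →
  (∀ g ∈ K, ∀ x ∈ K', g * x * g⁻¹ ∈ K') → K'.relIndex K = q → ¬ K ⊓ ν.ker ≤ K' →
  IndK q ν K e → IndK q ν K' (q * e)

/-- [CG chn] a chain. (Uses `B_stA`, `B_stB`.)

Proof. Induction on `n`, for all `H`-subgroups: claim for `L` with `K ≤ L`, `K` normal in `H`, the relative index of `K` in `L` a power `q^n`: `IndK q ν L e` implies `IndK q ν K (q^n * e)`. If `n ≥ 1` then `L ⧸ K` is a `q`-group which is not trivial, so it has a normal subgroup of index `q`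
(`Sylow`/`IsPGroup`: a maximal subgroup; or: the center is not trivial, induction), whose preimage `L'` is normal in `L` of index `q` and contains `K`. `B_stA` or `B_stB` for `L' ≤ L` (subgroups of free groups are free). -/
def B_chn : Prop := ∀ (q : ℕ) [Fact q.Prime] (H : Type) [Group H] (ν : H →* Multiplicative ℤ),
  IsFreeGroup ν.ker → IndK q ν ⊤ 1 → ∀ (K : Subgroup H) [K.Normal] (n : ℕ), K.index = q ^ n →
  IndK q ν K (q ^ n)

/-- [CG Q] from `𝔽_q` to `ℚ`.

Proof. `P` is free on `B`. As in `B_e1`, `IndS k P y` is the linear independence of the classes of the `y s` in `B →₀ k`. The classes in `B →₀ ℤ` are linearly independent over `ℤ`: a relation `∑ a_s cl (y s) = 0` with `a_s ∈ ℤ` not all zero can be divided by the greatest common divisor of the `a_s`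
(the module is torsion free), and gives a non-trivial relation modulo `q`. Linear independence over `ℤ` in `B →₀ ℤ` gives linear independence over `ℚ` in `B →₀ ℚ` (multiply by the common denominator). -/
def B_Q : Prop := ∀ (q : ℕ) [Fact q.Prime] (G : Type) [Group G] (P : Subgroup G),
  IsFreeGroup P → ∀ (S : Type) (y : S → G), IndS (ZMod q) P y → IndS ℚ P y

/-- [CG rk] the rank of a module over the Laurent polynomials.

Proof. `V` is a finitely generated module over `R = k[T, T⁻¹]` (commutative, a domain), `T` acts as `τ`, and the `m j` are linearly independent over `R`. Let `W = V ⧸ (τ - 1) V`, generated by the images of the finite set `s`, so finite dimensional; its dimension `d`; choose `s_1, .., s_d ∈ V` whose images generate `W`, and let `N` be the `R`-submodule generated by them: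
`V = N + (T - 1) V`, so `V ⧸ N = (T - 1) (V ⧸ N)`, and by Nakayama (`Submodule.exists_sub_one_mem_and_smul_eq_zero_of_fg_of_le_smul`) there is `r ∈ R` with `r - 1 ∈ (T - 1)` and `r V ⊆ N`; `r ≠ 0` (its value at `T = 1` is `1`). So `r m_1, .., r m_e` are linearly independent elements of a module generated by `d` elements, `e ≤ d` (strong rank
condition, `linearIndependent_le_span` or similar). The dual space of `W` has dimension `d ≥ e`; its elements give linear functionals `f` on `V` with `f (τ x) = f x`. -/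
def B_rk : Prop := ∀ (k : Type) [Field k] (V : Type) [AddCommGroup V] [Module k V] (τ : V ≃ₗ[k] V)
  (s : Finset V), (∀ W : Submodule k V, (∀ x ∈ s, x ∈ W) → (∀ x ∈ W, τ x ∈ W ∧ τ.symm x ∈ W) →
    W = ⊤) → ∀ (e : ℕ) (m : Fin e → V),
  LinearIndependent k (fun a : ℤ × Fin e => (τ ^ a.1) (m a.2)) →
  ∃ f : Fin e → (V →ₗ[k] k), LinearIndependent k f ∧ ∀ j x, f j (τ x) = f j x

/-- [CG bK] the first Betti number of `K`. (Uses `B_Q`, `B_rk`.)

Proof. `P = K ⊓ ker ν` is free on a set `B`, `V = B →₀ ℚ`, `cl : P → V` the classes, `τ` the automorphism induced by the conjugation with `h`. `K` is finitely generated, so it is generated by `h` and finitely many elements of `P`, and their classes are a finite set `s` as in `B_rk` (see `B_e1`).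
`B_Q` and `B_rk` give `e` linearly independent linear functionals on `V` which are invariant under `τ`, so `e` linearly independent homomorphisms `P → ℚ` invariant under the conjugation with `h`; they extend to `K` (`x h^n ↦ f x`). `Additive K →+ ℚ` is finite dimensional because `K` is finitely
generated. So `b1 K ≥ e`. -/
def B_bK : Prop := ∀ (q : ℕ) [Fact q.Prime] (H : Type) [Group H] (ν : H →* Multiplicative ℤ)
  (K : Subgroup H), K.FG → IsFreeGroup (K ⊓ ν.ker : Subgroup H) → ∀ e : ℕ, IndK q ν K e →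
  e ≤ b1 K

/-- [CG lin] MAIN RESULT of block B2. (Uses `B_e1`, `B_chn`, `B_bK`.)

Proof. `B_e1`, `B_chn`, `B_bK`; `K` is finitely generated, because it has finite index; `K ⊓ ker ν` is free (a subgroup of the free group `ker ν`). -/
def B_lin : Prop := ∀ (H : Type) [Group H] [Group.FG H] (ν : H →* Multiplicative ℤ),
  Function.Surjective ν → IsFreeGroup ν.ker → ¬ Group.FG ν.ker → ∀ (q : ℕ) [Fact q.Prime]
  (K : Subgroup H) [K.Normal] (n : ℕ), K.index = q ^ n → q ^ n ≤ b1 K

/-- [CG fre] free groups.

Proof. `H` is free on a finite set `B` with at least two elements `b₀ ≠ b₁` (`H` is not abelian). `ν b₀ = 1`, `ν b = 0` for the other elements of `B`. Let `G` be the wreath product of `ℤ` with `ℤ`: pairs `(u, a)`, `u : ℤ →₀ ℤ`, `a : ℤ`, `(u, a) (u', a') = (u + a · u', a + a')`, `(a · u') i = u' (i - a)`. `Θ : H → G`, `Θ b₀ = (0, 1)`,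
`Θ b₁ = (δ_0, 0)`, `Θ b = 1` for the other elements. The second component of `Θ x` is `ν x`, so `Θ` maps `ker ν` to the abelian group `ℤ →₀ ℤ`, onto, because the image contains all `δ_k` (`b₀^k b₁ b₀^-k`). This group is not finitely generated (the elements of a finitely generated subgroup have supports in a finite
set). -/
def B_fre : Prop := ∀ (H : Type) [Group H] [Group.FG H], IsFreeGroup H →
  (∃ x y : H, x * y ≠ y * x) → ∃ ν : H →* Multiplicative ℤ, Function.Surjective ν ∧
  ¬ Group.FG ν.ker

/-- [CG fg] the intersection with `F` is finitely generated. (Uses `B_b1`, `B_lin`, `B_fre`.)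

Proof. Suppose not. Claim: there is a surjective `ν : H → ℤ` with a kernel which is free and not finitely generated. If `H` is contained in `F` (`nR x = 1` for all `x ∈ H`) then `H` is free, and `B_fre` gives it. Otherwise `nR` maps `H` onto a non-trivial subgroup of `ℤ`, generated by `k`, and `ν = nR / k`; its kernel is
isomorphic to `H.comap (iR α)`, free and not finitely generated by assumption. By `B_lin` for `K = (D j).subgroupOf H` (normal in `H`, because `H ≤ Γ₁`) and `hb`: `[H : K] ≤ b1 K ≤ b1 (D j)` (`K` is isomorphic to `H ⊓ D j`). So `(D j).index ≤ C * b1 (D j)` for all `j`. By `B_b1` with `m = C + 1` there is `j` with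
`(C + 1) * b1 (D j) ≤ (D j).index ≤ C * b1 (D j)`, so `b1 (D j) = 0` and `(D j).index = 0`, contradiction. -/
def B_fg : Prop := ∀ (ι : Type) [Finite ι] (α : MulAut (FreeGroup ι)) (Γ₁ : Subgroup (GR α))
  (D : ℕ → Subgroup (GR α)), Tow Γ₁ D → ∀ H : Subgroup (GR α), H ≤ Γ₁ → H.FG →
  (∃ x ∈ H, ∃ y ∈ H, x * y ≠ y * x) → ∀ (q : ℕ) [Fact q.Prime] (C : ℕ),
  (∀ j, ∃ n : ℕ, (D j).relIndex H = q ^ n) → (∀ j, (D j).index ≤ C * (D j).relIndex H) →
  (∀ j, b1 (H ⊓ D j : Subgroup (GR α)) ≤ b1 (D j)) →
  (H.comap (iR α)).FG ∧ ∃ x ∈ H, nR α x ≠ 1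

/-- [CG fi] MAIN RESULT, finite index. (Uses `B_fg`, `BG.S_inf`.)

Proof. `B_fg` and `S_inf`. -/
def B_fi : Prop := ∀ (ι : Type) [Finite ι] (α : MulAut (FreeGroup ι)) (N : ℕ) (w : ι → List ι),
  1 ≤ N → Pos (α ^ N) w → ∀ (Γ₁ : Subgroup (GR α)) (D : ℕ → Subgroup (GR α)), Tow Γ₁ D →
  ∀ H : Subgroup (GR α), H ≤ Γ₁ → H.FG → (∃ x ∈ H, ∃ y ∈ H, x * y ≠ y * x) →
  ∀ (q : ℕ) [Fact q.Prime] (C : ℕ),
  (∀ j, ∃ n : ℕ, (D j).relIndex H = q ^ n) → (∀ j, (D j).index ≤ C * (D j).relIndex H) →
  (∀ j, b1 (H ⊓ D j : Subgroup (GR α)) ≤ b1 (D j)) →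
  (∃ p, iR α p ∈ H ∧ NPer α p) → H.FiniteIndex

end

end Pool.Agent.F8.CG
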