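import Pool.Agent.Lib.MP_305fdd_al.F8.BG.Five.Data
import Pool.Agent.Lib.MP_305fdd_al.F8.CG.StmB2

/-!
# MP_305fdd_al, congruence subgroups: definitions for the blocks C (commensurability), F (finite index), X (extension)

`Gam a b m` is the principal congruence subgroup, `RhoG ρ₀ Φ ρ` says that the homomorphism `ρ : Λ → SL₂(ℤ[w])` is locally conjugate to the one which
corresponds to `ρ₀ : G → SL₂(ℤ[w])` under `Φ : NatBij G Λ`.
-/

set_option autoImplicit false

namespace Pool.Agent.F8.CG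

open Pool.Agent.F8.BG Pool.Agent.Lib.MP_305fdd_al Pool.Agent.F8
open scoped QuadraticAlgebra

/-- the principal congruence subgroup of level `m` -/
abbrev Gam (a b : ℤ) (m : ℕ) : Subgroup (GQ a b) := (rdq a b m).ker

/-- The reductions of `ρ` are conjugate (by invertible matrices) to the homomorphisms which correspond to the reductions of `ρ₀`. -/
def RhoG {a b : ℤ} {G Λ : Type} [Group G] [Group Λ] (ρ₀ : G →* GQ a b) (Φ : NatBij G Λ)
    (ρ : Λ →* GQ a b) : Prop :=
  ∀ (m : ℕ) [NeZero m], ∃ C E : Matrix (Fin 2) (Fin 2) (Qf a b (ZMod m)), C * E = 1 ∧ E * C = 1 ∧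
    ∀ l, (rdq a b m (ρ l)).val = C * (Φ.toFun _ ((rdq a b m).comp ρ₀) l).val * E

/-- The trace of `l` is an element of `ℤ[w]`: for all `m` its reduction is the trace of the image of `l` under the homomorphism which corresponds to the reduction of `ρ₀`. -/
def TrI {a b : ℤ} {G Λ : Type} [Group G] [Group Λ] (ρ₀ : G →* GQ a b) (Φ : NatBij G Λ)
    (l : Λ) : Prop :=
  ∃ t : Qf a b ℤ, ∀ (m : ℕ) [NeZero m],
    tr (Φ.toFun _ ((rdq a b m).comp ρ₀) l) = Qfm a b (Int.castRingHom (ZMod m)) t

/-- `D` is stable under the conjugation with invertible matrices modulo `m`, up to the conjugation with an element of `SL₂(ℤ[w])`. -/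
def HZ {a b : ℤ} (D : Subgroup (GQ a b)) (m : ℕ) : Prop :=
  ∀ C E : Matrix (Fin 2) (Fin 2) (Qf a b (ZMod m)), C * E = 1 → E * C = 1 → ∃ γ : GQ a b,
    (∀ x ∈ D, ∃ y ∈ D, (rdq a b m (γ * y * γ⁻¹)).val = C * (rdq a b m x).val * E) ∧
    ∀ y ∈ D, ∃ x ∈ D, (rdq a b m (γ * y * γ⁻¹)).val = C * (rdq a b m x).val * E

/-- `x` is conjugate, by an invertible matrix over the field of fractions, to an element of the principal congruence subgroup of level `m`. -/
def CjG {a b : ℤ} (m : ℕ) (x : GQ a b) (y : Matrix (Fin 2) (Fin 2) (Qf a b ℤ)) : Prop :=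
  y.det ≠ 0 ∧ ∃ x' : GQ a b, rdq a b m x' = 1 ∧ x.val * y = y * x'.val

/-- `D` is generated by elements which are conjugate to elements of the principal congruence subgroup of level `m`, and `-1` if it is in `D`. -/
def HE {a b : ℤ} (D : Subgroup (GQ a b)) (m : ℕ) : Prop :=
  D = Subgroup.closure {x | x ∈ D ∧ (x = -1 ∨ ∃ y, CjG m x y)}

/-- the image in `GR α` of a subgroup of `SL₂(ℤ[w])` -/
def imE {a b : ℤ} {ι : Type} {α : MulAut (FreeGroup ι)} {G₀ : Subgroup (GQ a b)}
    (η : G₀ →* GR α) (A : Subgroup (GQ a b)) : Subgroup (GR α) :=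
  (A.subgroupOf G₀).map η

end Pool.Agent.F8.CG
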