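import Pool.Agent.Lib.MP_305fdd_al.F8.CG.StmK

/-!
# MP_305fdd_al, congruence subgroups: definitions for block J (lattices in `PGL₂(K)`)

`K` is the field of fractions of `ℤ[w]` (`φ : ℤ[w] → K`). An element of `PGL₂(K)` is represented by a matrix over `ℤ[w]` with nonzero determinant (`RepQ`). `Γ ≤ PGL₂(K)` contains the image of `Γ(m₀)`
as a subgroup of finite index, `Λ` is a group in the genus of `Γ`, and `JD` are the data: `π` is a homomorphism to a finite group whose kernel is contained in the image of `Γ(m₀)`, `L ≤ Λ` corresponds to the image of `Γ(m₀)`, and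
`ρ : L → SL₂(ℤ[w])` is injective with the image `Γ(m₀)` and locally conjugate, by elements of `Γ(m₁)`, to the homomorphism which corresponds to the inclusion.
-/

set_option autoImplicit false

namespace Pool.Agent.F8.CG

open Pool.Agent.F8.BG Pool.Agent.MP_305fdd_al Pool.Agent.Lib.MP_305fdd_al Pool.Agent.F8
open scoped QuadraticAlgebra

noncomputable section

/-- `PGL₂(K)` -/
abbrev PGK (K : Type) [Field K] : Type := Matrix.ProjGenLinGroup (Fin 2) K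

/-- matrices over `ℤ[w]` -/
abbrev MQ (a b : ℤ) : Type := Matrix (Fin 2) (Fin 2) (Qf a b ℤ)

variable {a b : ℤ} {K : Type} [Field K]

/-- `K` is the field of fractions of `ℤ[w]` -/
structure FracQ (φ : Qf a b ℤ →+* K) : Prop where
  inj : Function.Injective φ
  ex : ∀ z : K, ∃ x y : Qf a b ℤ, y ≠ 0 ∧ z * φ y = φ x

/-- the integral matrix `A` represents `γ` -/
def RepQ (φ : Qf a b ℤ →+* K) (A : MQ a b) (γ : PGK K) : Prop :=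
  ∃ g : Matrix.GeneralLinearGroup (Fin 2) K, g.val = A.map φ ∧
    Matrix.ProjGenLinGroup.mk g = γ

/-- the homomorphism `SL₂(ℤ[w]) → PGL₂(K)` -/
def pcQ (φ : Qf a b ℤ →+* K) : GQ a b →* PGK K :=
  Matrix.SpecialLinearGroup.toPGL.comp (SLm φ)

/-- `X` is a scalar matrix modulo `k` -/
def ScQ (k : ℕ) (X : MQ a b) : Prop :=
  (k : Qf a b ℤ) ∣ X 0 1 ∧ (k : Qf a b ℤ) ∣ X 1 0 ∧ (k : Qf a b ℤ) ∣ X 0 0 - X 1 1

/-- `γ` is in the kernel of `PGL₂(ℤ[w]) → PGL₂(ℤ[w] / k)` -/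
def DelQ (φ : Qf a b ℤ →+* K) (k : ℕ) (γ : PGK K) : Prop :=
  ∃ X : MQ a b, IsUnit X.det ∧ ScQ k X ∧ RepQ φ X γ

/-- the basic facts about `RepQ` -/
structure RepF (φ : Qf a b ℤ →+* K) : Prop where
  det : ∀ A γ, RepQ φ A γ → A.det ≠ 0
  of : ∀ A : MQ a b, A.det ≠ 0 → ∃ γ, RepQ φ A γ
  mul : ∀ A B γ δ, RepQ φ A γ → RepQ φ B δ → RepQ φ (A * B) (γ * δ)
  inv : ∀ A γ, RepQ φ A γ → RepQ φ A.adjugate γ⁻¹
  smul : ∀ (s : Qf a b ℤ) A γ, s ≠ 0 → RepQ φ A γ → RepQ φ (s • A) γ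
  smul' : ∀ (s : Qf a b ℤ) A γ, s ≠ 0 → RepQ φ (s • A) γ → RepQ φ A γ
  uniq : ∀ A γ δ, RepQ φ A γ → RepQ φ A δ → γ = δ
  eq : ∀ A B γ, RepQ φ A γ → RepQ φ B γ →
    ∃ s t : Qf a b ℤ, s ≠ 0 ∧ t ≠ 0 ∧ s • A = t • B
  ex : ∀ γ, ∃ A, RepQ φ A γ
  pc : ∀ x : GQ a b, RepQ φ x.val (pcQ φ x)
  one : RepQ φ 1 1
  pce : ∀ x y : GQ a b, pcQ φ x = pcQ φ y ↔ x = y ∨ x = -y
  cen : ∀ A γ, RepQ φ A γ → (γ = 1 ↔ A 0 1 = 0 ∧ A 1 0 = 0 ∧ A 0 0 = A 1 1)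

/-- The conclusion for `Γ(m₀)`: the group `Λ` has an injective homomorphism to `SL₂(ℤ[w])` with the image `Γ(m₀)`, which is locally conjugate, by elements of `Γ(m₁)`, to the one which corresponds to the inclusion. -/
def RhoH (a b : ℤ) (m₀ m₁ : ℕ) : Prop := ∀ (Λ : Type) [Group Λ] [Group.FG Λ],
  Group.ResiduallyFinite Λ → ∀ Ψ : NatBij (Gam a b m₀) Λ, ∃ ρ : Λ →* GQ a b,
  Function.Injective ρ ∧ ρ.range = Gam a b m₀ ∧ ∀ (k : ℕ) [NeZero k], ∃ h ∈ Gam a b m₁,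
  ∀ l, rdq a b k (ρ l) = rdq a b k h *
    Ψ.toFun _ ((rdq a b k).comp (Gam a b m₀).subtype) l * (rdq a b k h)⁻¹

/-- the data -/
structure JD (φ : Qf a b ℤ →+* K) (Γ : Subgroup (PGK K)) (m₀ m₁ : ℕ) {Λ : Type} [Group Λ]
    (Φ : NatBij Γ Λ) {Q : Type} [Group Q] [Finite Q] (π : Γ →* Q) (L : Subgroup Λ)
    (ρ : L →* GQ a b) : Prop where
  neg : b ^ 2 + 4 * a < 0
  frac : FracQ φ
  h5 : 5 ≤ m₀
  dvd : m₀ ∣ m₁
  ne : m₁ ≠ 0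
  le : ∀ x ∈ Gam a b m₀, pcQ φ x ∈ Γ
  ker : ∀ x : Γ, π x = 1 → ∃ y ∈ Gam a b m₀, pcQ φ y = x.val
  ker' : ∀ x : Γ, (∃ y ∈ Gam a b m₁, pcQ φ y = x.val) → π x = 1
  memL : ∀ l : Λ, l ∈ L ↔ ∃ (y : GQ a b) (h : y ∈ Gam a b m₀),
    Φ.toFun Q π l = π ⟨pcQ φ y, le y h⟩
  inj : Function.Injective ρ
  rng : ρ.range = Gam a b m₀
  apx : ∀ (k : ℕ) [NeZero k], ∃ (R : Type) (_ : Group R) (_ : Finite R) (θ : Γ →* R),
    ∃ h ∈ Gam a b m₁, ∀ (y : L) (x : GQ a b) (hx : x ∈ Gam a b m₀),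
    θ ⟨pcQ φ x, le x hx⟩ = Φ.toFun R θ y → rdq a b k (ρ y) = rdq a b k (h * x * h⁻¹)

/-- `τ` describes the action of `l ∈ Λ` on the elements of `L` in the kernel of `Φ π`. -/
def IsTh (φ : Qf a b ℤ →+* K) {Γ : Subgroup (PGK K)} {Λ : Type} [Group Λ]
    (Φ : NatBij Γ Λ) {Q : Type} [Group Q] [Finite Q] (π : Γ →* Q) {L : Subgroup Λ}
    (ρ : L →* GQ a b) (l : Λ) (τ : PGK K) : Prop :=
  ∃ A : MQ a b, RepQ φ A τ ∧ ∀ x y : L, Φ.toFun Q π x = 1 → (y : Λ) = l * x * l⁻¹ →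
    (ρ y).val * A = A * (ρ x).val

end

end Pool.Agent.F8.CG
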