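import Pool.Agent.Lib.MP_305fdd_al.F8.CG.DefsP

/-!
# MP_305fdd_al: locally conjugate subgroups of `PSL₂(R)`
-/

set_option autoImplicit false

namespace Pool.Agent.MP_305fdd_al.Cong

section

variable {R : Type} [CommRing R]

/-- the class of a matrix in `PSL₂(R) = SL₂(R) / center` -/
def cl : Matrix.SpecialLinearGroup (Fin 2) R →* Matrix.ProjectiveSpecialLinearGroup (Fin 2) R :=
  QuotientGroup.mk' (Subgroup.center (Matrix.SpecialLinearGroup (Fin 2) R))

/-- the image of the subgroup `P` of `PSL₂(R)` in `PSL₂(R / J)` -/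
def red (J : Ideal R) (P : Subgroup (Matrix.ProjectiveSpecialLinearGroup (Fin 2) R)) :
    Subgroup (Matrix.ProjectiveSpecialLinearGroup (Fin 2) (R ⧸ J)) :=
  ((P.comap cl).map (Matrix.SpecialLinearGroup.map (Ideal.Quotient.mk J))).map cl

/-- For every nonzero ideal `J` the images of `P` and `P'` in `PSL₂(R / J)` are conjugate by an
element of `GL₂(R / J)`. -/
def LocConj (P P' : Subgroup (Matrix.ProjectiveSpecialLinearGroup (Fin 2) R)) : Prop :=
  ∀ J : Ideal R, J ≠ ⊥ → ∃ g : Matrix.GeneralLinearGroup (Fin 2) (R ⧸ J),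
    ∀ x y : Matrix.SpecialLinearGroup (Fin 2) (R ⧸ J), y.val = g.val * x.val * (g⁻¹).val →
      (cl x ∈ red J P ↔ cl y ∈ red J P')

end

end Pool.Agent.MP_305fdd_al.Cong
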