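import Mathlib.LinearAlgebra.Matrix.GeneralLinearGroup.Projective
import Pool.Agent.Lib.MP_305fdd_al.F8.CG.DefsP

/-!
# MP_305fdd_al, congruence subgroups of `PGL(2, K)`: definitions
-/

set_option autoImplicit false

namespace Pool.Agent.MP_305fdd_al.Cong

open scoped MatrixGroups

section

variable {R : Type} [CommRing R] (K : Type) [Field K] [Algebra R K]

/-- the homomorphism `SL(2, R) → PGL(2, K)` -/
def toK : SL(2, R) →* PGL(2, K) :=
  Matrix.SpecialLinearGroup.toPGL.comp (Matrix.SpecialLinearGroup.map (algebraMap R K))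

/-- the image of the principal congruence subgroup `Γ(J)` of `SL(2, R)` in `PGL(2, K)` -/
def PG (J : Ideal R) : Subgroup (PGL(2, K)) := (G J).map (toK K)

/-- the image in `PGL(2, K)` of the kernel of `PGL(2, R) → PGL(2, R / J)` -/
def Del (J : Ideal R) : Subgroup (PGL(2, K)) :=
  (Matrix.ProjGenLinGroup.map (n := Fin 2) (Ideal.Quotient.mk J)).ker.map
    (Matrix.ProjGenLinGroup.map (n := Fin 2) (algebraMap R K))

variable (R) {K} in
/-- `Γ` and `Γ'` have the same closure in the congruence topology: for every nonzero ideal `J`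
they have the same image in the set of cosets `PGL(2, K) / Del J`. -/
def SameCl (Γ Γ' : Subgroup (PGL(2, K))) : Prop :=
  ∀ J : Ideal R, J ≠ ⊥ → (∀ x ∈ Γ, ∃ y ∈ Γ', x⁻¹ * y ∈ Del K J) ∧
    ∀ y ∈ Γ', ∃ x ∈ Γ, x⁻¹ * y ∈ Del K J

variable {K} in
/-- `Γ` is contained in the image of `SL(2, R)` and generated by the squares of elements of `Γ`,
the elements of `Γ` which are represented by matrices in `SL(2, R)` with trace congruent to two
modulo `1296 = 36 ^ 2` (for example the parabolic elements of `Γ`) and the image of `Γ(J)`. -/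
def GenPar (J : Ideal R) (Γ : Subgroup (PGL(2, K))) : Prop :=
  (∀ x ∈ Γ, ∃ g : SL(2, R), toK K g = x) ∧
  Γ ≤ Subgroup.closure {x | x ∈ Γ ∧ ((∃ y ∈ Γ, x = y * y) ∨
    (∃ g : SL(2, R), toK K g = x ∧ (1296 : R) ∣ g.val.trace - 2) ∨ x ∈ PG K J)}

end

end Pool.Agent.MP_305fdd_al.Cong
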