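import Pool.Agent.Lib.MP_305fdd_al.F8.CG.DefsB
import Pool.Agent.Lib.MP_305fdd_al.F8.Defs
import Pool.Agent.Lib.MP_305fdd_al.F8.Tower

/-!
# MP_305fdd_al, congruence subgroups: definitions for block R (regularity) and block A

`Stg α w i₀ D`: the setting, `D = F' ⋊ ⟨t⟩` a subgroup of finite index of `GR α`, `α` positive, with a letter `i₀` such that the word `w i₀` begins with `i₀`.
`indA L σ` is the induced representation of `σ : L → End V` on the functions `G ⧸ L → V`, `Uop` the operator `t⁻¹ J` on `ι → (GR α ⧸ L) → V` (`J` the Fox derivatives of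
the words `w i`), `LpS` the sets of loops, `Zh` the ring `∏ ℤ/m` (an additive group), which contains the profinite integers (`Cmp`).
-/

set_option autoImplicit false

namespace Pool.Agent.F8.CG

open Pool.Agent.F8.BG Pool.Agent.Lib.MP_305fdd_al Pool.Agent.F8

noncomputable section

/-- the setting -/
structure Stg {ι : Type} (α : MulAut (FreeGroup ι)) (w : ι → List ι) (i₀ : ι)
    (D : Subgroup (GR α)) : Prop where
  /-- positive -/
  pos : Pos α w
  /-- the letter `i₀` -/
  hd : (w i₀).head? = some i₀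
  /-- finite index -/
  fin : D.FiniteIndex
  /-- contains `t` -/
  t : tR α ∈ D

/-- the projection to `ℤ` -/
def nD {ι : Type} {α : MulAut (FreeGroup ι)} (D : Subgroup (GR α)) : D →* Multiplicative ℤ :=
  (nR α).comp D.subtype

/-! ### Induced representations -/

section Ind

variable {G : Type} [Group G] (L : Subgroup G)

open Classical in
/-- representatives of the cosets, `1` for the trivial coset -/
def sec (x : G ⧸ L) : G := if x = ((1 : G) : G ⧸ L) then 1 else x.out

theorem sec_mk (x : G ⧸ L) : ((sec L x : G) : G ⧸ L) = x := by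
  unfold sec
  split_ifs with h
  · exact h.symm
  · exact QuotientGroup.out_eq' x

theorem sec_one : sec L ((1 : G) : G ⧸ L) = 1 := by
  unfold sec
  rw [if_pos rfl]

theorem sec_mem (g : G) (x : G ⧸ L) : (sec L x)⁻¹ * g * sec L (g⁻¹ • x) ∈ L := by
  rw [mul_assoc]
  apply QuotientGroup.eq.1
  rw [sec_mk, ← smul_eq_mul]
  have h : ((g • sec L (g⁻¹ • x) : G) : G ⧸ L) = g • ((sec L (g⁻¹ • x) : G) : G ⧸ L) := rfl
  rw [h, sec_mk, smul_inv_smul]

variable {K V : Type} [CommRing K] [AddCommGroup V] [Module K V] (σ : L →* Module.End K V)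

/-- the induced representation on the functions `G ⧸ L → V` -/
def indA : G →* Module.End K ((G ⧸ L) → V) where
  toFun g :=
    { toFun := fun φ x => σ ⟨_, sec_mem L g x⟩ (φ (g⁻¹ • x))
      map_add' := fun φ ψ => by ext x; simp
      map_smul' := fun c φ => by ext x; simp }
  map_one' := by
    ext φ x
    show σ ⟨_, sec_mem L 1 x⟩ (φ ((1 : G)⁻¹ • x)) = φ x
    have h : (⟨_, sec_mem L 1 x⟩ : L) = 1 := Subtype.ext (by simp)
    rw [h, map_one]
    simp
  map_mul' g h := by
    ext φ x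
    show σ ⟨_, sec_mem L (g * h) x⟩ (φ ((g * h)⁻¹ • x)) =
      σ ⟨_, sec_mem L g x⟩ (σ ⟨_, sec_mem L h (g⁻¹ • x)⟩ (φ (h⁻¹ • g⁻¹ • x)))
    rw [← Module.End.mul_apply, ← map_mul]
    have h1 : (g * h)⁻¹ • x = h⁻¹ • g⁻¹ • x := by rw [mul_inv_rev, mul_smul]
    have h2 : (⟨_, sec_mem L (g * h) x⟩ : L) =
        ⟨_, sec_mem L g x⟩ * ⟨_, sec_mem L h (g⁻¹ • x)⟩ := by
      apply Subtype.ext
      simp only [Subgroup.coe_mul, h1]
      group
    rw [h2, h1]

theorem indA_apply (g : G) (φ : (G ⧸ L) → V) (x : G ⧸ L) :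
    indA L σ g φ x = σ ⟨_, sec_mem L g x⟩ (φ (g⁻¹ • x)) := rfl

end Ind

/-- The operator `t⁻¹ J` on `ι → (GR α ⧸ L) → V`. -/
def Uop {ι : Type} (α : MulAut (FreeGroup ι)) (w : ι → List ι) (L : Subgroup (GR α))
    {K V : Type} [CommRing K] [AddCommGroup V] [Module K V] (σ : L →* Module.End K V) :
    Module.End K (ι → (GR α ⧸ L) → V) :=
  LinearMap.pi fun i => ∑ p : Fin (w i).length,
    (indA L σ ((tR α)⁻¹ * iR α (BG.pw ((w i).take p)))).comp (LinearMap.proj ((w i).get p))

/-- a character as a representation -/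
def chE {L : Type} [Group L] (χ : L →* ℂˣ) : L →* Module.End ℂ ℂ where
  toFun x := (χ x : ℂ) • LinearMap.id
  map_one' := by ext; simp
  map_mul' x y := by ext; simp [mul_comm]

/-- the words of the powers of `α` -/
def itw {ι : Type} (w : ι → List ι) : ℕ → ι → List ι
  | 0, i => [i]
  | l + 1, i => (itw w l i).flatMap w

/-- The loops of level `l` at the edge `(D, j)`: the elements `t ^ -l u` of `D`, where `u x_j ..` is the word of `α ^ l x_j`. -/
def LpS {ι : Type} (α : MulAut (FreeGroup ι)) (w : ι → List ι) (D : Subgroup (GR α)) (j : ι)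
    (l : ℕ) : Set (GR α) :=
  {d | d ∈ D ∧ ∃ u v : List ι, itw w l j = u ++ j :: v ∧ d = (tR α ^ l)⁻¹ * iR α (BG.pw u)}

/-! ### The profinite integers -/

/-- `∏ ℤ/m`, `m ≥ 1` -/
abbrev Zh : Type := ∀ m : ℕ, ZMod (m + 1)

/-- compatible families: the profinite integers -/
def Cmp (b : Zh) : Prop :=
  ∀ m m' : ℕ, (m + 1) ∣ (m' + 1) → (b m').val % (m + 1) = (b m).val

/-- the constant families -/
def cst : ℤ →+ Zh where
  toFun k := fun _ => (k : ZMod _)
  map_zero' := by ext; simp
  map_add' a b := by ext; simp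

/-- the homomorphism `Λ → Zh` which corresponds to the projection `D → ℤ` -/
def nu {ι : Type} {α : MulAut (FreeGroup ι)} {D : Subgroup (GR α)} {Λ : Type} [Group Λ]
    (Φ : NatBij D Λ) : Λ →* Multiplicative Zh where
  toFun l := Multiplicative.ofAdd fun m =>
    Multiplicative.toAdd (Φ.toFun _ ((redZ (m + 1)).comp (nD D)) l)
  map_one' := by
    ext m
    simp
  map_mul' x y := by
    apply Multiplicative.toAdd.injective
    ext m
    simp

/-- `μ` annihilates the abelianisation of the kernel of `ν`. -/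
structure Ann {Λ : Type} [Group Λ] (ν : Λ →* Multiplicative Zh) (μ : Zh →₀ ℤ) : Prop where
  /-- not zero -/
  ne : μ ≠ 0
  /-- the support is contained in the image of `ν` -/
  sup : ∀ b ∈ μ.support, ∃ l, ν l = Multiplicative.ofAdd b
  /-- `μ` annihilates all homomorphisms to abelian groups -/
  ann : ∀ (A : Type) [CommGroup A] (f : ν.ker →* A) (y : Zh → Λ),
    ∀ x : ν.ker, ∏ b ∈ μ.support,
      f (⟨y b * x * (y b)⁻¹, (MonoidHom.normal_ker ν).conj_mem _ x.2 (y b)⟩) ^ (μ b) = 1 ∨
      ∃ b ∈ μ.support, ν (y b) ≠ Multiplicative.ofAdd b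

/-- a crossed homomorphism `D → ℂ` for the character `χ τ^n`, zero at `t`, with integral values, and not zero on `F` -/
structure CrC {ι : Type} {α : MulAut (FreeGroup ι)} (D : Subgroup (GR α)) (χ : D →* ℂˣ) (τ : ℂˣ)
    (z : D → ℂ) : Prop where
  /-- crossed homomorphism -/
  mul : ∀ g h : D, z (g * h) = z g +
    (χ g : ℂ) * (τ ^ (Multiplicative.toAdd (nD D g)) : ℂˣ) * z h
  /-- zero at `t` -/
  t : ∀ h : tR α ∈ D, z ⟨tR α, h⟩ = 0
  /-- integral -/
  int : ∀ g, IsIntegral ℤ (z g)
  /-- not zero on `F` -/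
  ne : ∃ g : D, nD D g = 1 ∧ z g ≠ 0

/-- The characters `X` of `D` and `Y` of the image of `ν` correspond to each other. -/
def Mtc {ι : Type} {α : MulAut (FreeGroup ι)} {D : Subgroup (GR α)} {Λ : Type} [Group Λ]
    (Φ : NatBij D Λ) (n : ℕ) [NeZero n] (X : D →* Multiplicative (ZMod n))
    (Y : Zh → ZMod n) : Prop :=
  ∀ l, Φ.toFun _ X l = Multiplicative.ofAdd (Y (Multiplicative.toAdd (nu Φ l)))

/-- the root of unity `e(x / n)` -/
def eY (n : ℕ) [NeZero n] (x : ZMod n) : ℂ := (ZMod.toCircle x : Circle)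

/-- the character `e(X / n)` -/
def eX {G : Type} [Group G] (n : ℕ) [NeZero n] (X : G →* Multiplicative (ZMod n)) : G →* ℂˣ :=
  Circle.toUnits.comp ((ZMod.toCircle (N := n)).toMonoidHom.comp X)

/-- `r` generates the intersection of the image of `ν` with the constants. -/
def Rmin {Λ : Type} [Group Λ] (ν : Λ →* Multiplicative Zh) (r : ℕ) : Prop :=
  1 ≤ r ∧ (∃ l, ν l = Multiplicative.ofAdd (cst r)) ∧
    ∀ l (k : ℤ), ν l = Multiplicative.ofAdd (cst k) → (r : ℤ) ∣ k

end

end Pool.Agent.F8.CG
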