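import Pool.Agent.Lib.MP_305fdd_al.F8.CG.DefsT
import Pool.Agent.Lib.MP_305fdd_al.F8.NG.T.StmA
import Pool.Agent.Lib.MP_305fdd_al.F8.EG.Leg
import Pool.Agent.Lib.MP_305fdd_al.F8.BG.DefsQ
import Pool.Agent.Lib.MP_305fdd_al.F8.BG.StmL
import Pool.Agent.Lib.MP_305fdd_al.F8.StmH

/-!
# MP_305fdd_al, congruence subgroups: the statements of block E (from characters to matrices, and the lattice)

THEOREM (`E_main`). Let `A = ℤ[w]` be one of the five Euclidean rings, `ρ₀ : G → SL₂(A)` irreducible, `Φ : NatBij G Λ`, `T : Λ → A` as in the output of block T (`Red Φ ρ₀ T`). Then there is `ρ : Λ → SL₂(A)` with the character `T`,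
such that for every `m ≥ 1` the reduction of `ρ` modulo `m` is conjugate in `GL₂(A / m)` to the matched representation `Φ (ρ₀ mod m)`.

`ρ₁` with the character `T` exists by `EG.E_gen` (`E_rho`). Then we change the lattice at one prime `π` of `A` after the other (`E_one`): let `R` be the completion of `A` at `π`
(`E_cmp`) and `σ : Λ → SL₂(R)` the limit of the matched representations modulo `π ^ k`. There is a matrix `C` over `R` with `det C ≠ 0` and `σ C = C ρ₁` (`E_int`). `C = U g` with `U ∈ GL₂(R)` and `g` a matrix over `A`, `det g = π ^ c` (`E_her`), and `ρ₂ = g ρ₁ g⁻¹`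
has values in `SL₂(A)` and is equal to `U⁻¹ σ U`. Modulo the other primes `ρ₂` is conjugate to `ρ₁`. For the primes which do not divide `tr (ρ₁ [g, h]) - 2` nothing has to be done (`E_good`).
-/

set_option autoImplicit false

namespace Pool.Agent.F8.CG

open Pool.Agent.MP_305fdd_al Pool.Agent.Lib.MP_305fdd_al Pool.Agent.F2X Pool.Agent.F8
  Pool.Agent.F8.BG
open scoped QuadraticAlgebra

noncomputable section

/-! ### Rings -/

/-- The five rings: `w² = -1`, `w² = -2`, `w² = -1 - w`, `w² = -2 - w`, `w² = -3 + w`. -/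
def Five (a b : ℤ) : Prop :=
  (a = -1 ∧ b = 0) ∨ (a = -2 ∧ b = 0) ∨ (a = -1 ∧ b = -1) ∨ (a = -2 ∧ b = -1) ∨ (a = -3 ∧ b = 1)

/-- [CG E_ar] arithmetic of the five rings. (Uses `BG.L_pid`, `BG.L_leg2`, `BG.L_leg11`, proved in `BG/P_Lpid.lean`, `BG/P_leg2.lean`, `BG/P_leg11.lean`.)

Proof. For `w² = -1`, `w² = -2 - w`, `w² = -1 - w` transport `IsPrincipalIdealRing` and Legendre's theorem (`leg1`, `leg7`, .. in `D1/E`, `D7/E`, `E`) along the isomorphism of rings with the model used there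
(`Es ℤ = Qd (-1) ℤ` for `w² = -1 - w`; compare `BG/MainOf.lean`). `EG.LA` and `EG.Sol` are invariant under isomorphisms. -/
def E_ar : Prop := ∀ a b : ℤ, Five a b → IsPrincipalIdealRing (Qf a b ℤ) ∧
  ∀ x y : Qf a b ℤ, x ≠ 0 → y ≠ 0 → EG.LA x y → EG.Sol x y

/-! ### From the character to a representation -/

/-- [CG E_irr] irreducibility of `T`.

Proof. `δ = tr (ρ₀ (g h g⁻¹ h⁻¹)) - 2 ≠ 0`. There is `m ≥ 1` such that `δ` is not zero in `S = Qf a b (ZMod m)` (its coordinates are integers, not both zero). Let `r = rdq a b m ∘ ρ₀`; choose `l, l'` with `(Φ.toFun _ r) l = r g`, `(Φ.toFun _ r) l' = r h` (`NatBij.range_eq`); then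
`φ (T (l l' l⁻¹ l'⁻¹)) = tr (r (g h g⁻¹ h⁻¹)) ≠ 2` in `S`, `φ = Qfm a b (Int.castRingHom (ZMod m))`. -/
def E_irr : Prop := ∀ (a b : ℤ) (G Λ : Type) [Group G] [Group Λ] (Φ : NatBij G Λ)
  (ρ₀ : G →* GQ a b) (T : Λ → Qf a b ℤ), Red Φ ρ₀ T → Irr ρ₀ →
  ∃ l l' : Λ, T (l * l' * l⁻¹ * l'⁻¹) ≠ 2

/-- [CG E_rho] the representation over `A`. (Uses `E_irr`; general: `NG.T.S_rL`, `S_sep`, `S_exj`, `S_ji`.)

Proof. As `BG/P_E.lean`: `EG.E_gen` with `hN` from `E_dvd` (`BG/P_E.lean`), `Om = Fl 2`, `j : A →+* Fl 2` from `S_exj` (injective by `S_ji`), `s = (SLm (jj (iz 2) j)).comp r`, `r` from `S_rL` for `p = 2`. The trace of `r l` is `ia ℤ_[2] A (T l)`: it is so modulo `2 ^ k` for all `k` (`RL`, `Red`, `TM_ia_apply`) and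
`AT ℤ_[2] A` is the limit (`NG.T.S_lim`); so `tr (s l) = j (T l)` (`jj_ia_apply`). `Irr s` by `E_irr`. `Loc T`: for `m > 0` the ring `S = Qf a b (ZMod m)`, `φ = Qfm a b (Int.castRingHom (ZMod m))`, the representation `Φ.toFun _ ((SLm φ).comp ρ₀)` (`Red`). -/
def E_rho : Prop := ∀ a b : ℤ, b ^ 2 + 4 * a < 0 → IsPrincipalIdealRing (Qf a b ℤ) →
  (∀ x y : Qf a b ℤ, x ≠ 0 → y ≠ 0 → EG.LA x y → EG.Sol x y) →
  ∀ (G Λ : Type) [Group G] [Group Λ] (Φ : NatBij G Λ) (ρ₀ : G →* GQ a b) (T : Λ → Qf a b ℤ),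
  Red Φ ρ₀ T → Irr ρ₀ → ∃ ρ : Λ →* GQ a b, ∀ l, tr (ρ l) = T l

/-! ### The lattice -/

section Lat

variable {A : Type} [CommRing A] {Λ : Type} [Group Λ]

/-- the reduction modulo `x` -/
abbrev mkx (x : A) : A →+* A ⧸ Ideal.span {x} := Ideal.Quotient.mk (Ideal.span {x})

/-- the projection `A / y → A / x` for `x ∣ y` -/
def fcx {x y : A} (h : x ∣ y) : A ⧸ Ideal.span {y} →+* A ⧸ Ideal.span {x} :=
  Ideal.Quotient.factor (Ideal.span_singleton_le_span_singleton.2 h)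

theorem fcx_mk {x y : A} (h : x ∣ y) (z : A) : fcx h (mkx y z) = mkx x z := rfl

/-- a compatible family of representations modulo `x`, `x ≠ 0` -/
def Cpt (σ : ∀ x : A, Λ →* SL2 (A ⧸ Ideal.span {x})) : Prop :=
  ∀ (x y : A) (h : x ∣ y), y ≠ 0 → (SLm (fcx h)).comp (σ y) = σ x

/-- `ρ` modulo `x` is conjugate to `σ x` -/
def LCj (σ : ∀ x : A, Λ →* SL2 (A ⧸ Ideal.span {x})) (ρ : Λ →* SL2 A) (x : A) : Prop :=
  ∃ C : GL (Fin 2) (A ⧸ Ideal.span {x}), ∀ l,
    (SLm (mkx x) (ρ l)).val * C.val = C.val * (σ x l).val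

end Lat

/-- [CG E_int] intertwining matrices.

Proof. `K = FractionRing R`. `p_bn : S_bn` (`P/bn.lean`) for the representations over `K` gives `X ∈ GL₂(K)` with `X ρ l = σ l X`; multiply with a common denominator of the entries. -/
def E_int : Prop := ∀ (R Λ : Type) [CommRing R] [IsDomain R] [Group Λ] (σ ρ : Λ →* SL2 R),
  (∀ l, tr (σ l) = tr (ρ l)) → Irr ρ →
  ∃ C : Matrix (Fin 2) (Fin 2) R, C.det ≠ 0 ∧ ∀ l, (σ l).val * C = C * (ρ l).val

/-- A completion of `A` at the prime element `π`: a discrete valuation ring `R` which contains `A`, with the uniformising element `π`, and `A / π ^ k = R / π ^ k`; compatible families of homomorphisms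
to `SL₂(A / π ^ k)` have a limit. -/
structure Cmpl {A : Type} [CommRing A] (π : A) {R : Type} [CommRing R] (c : A →+* R)
    (pr : ∀ k : ℕ, R →+* A ⧸ Ideal.span {π ^ k}) : Prop where
  /-- a domain -/
  dom : IsDomain R
  /-- `A` is contained in `R` -/
  inj : Function.Injective c
  /-- the valuation -/
  val : ∀ x : R, x ≠ 0 → ∃ (u : Rˣ) (n : ℕ), x = u.val * c π ^ n
  /-- the projections are compatible with `A` -/
  mkc : ∀ (k : ℕ) (x : A), pr k (c x) = mkx (π ^ k) x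
  /-- the kernels -/
  ker : ∀ (k : ℕ) (x : R), pr k x = 0 ↔ c π ^ k ∣ x
  /-- units -/
  unit : ∀ x : R, pr 1 x ≠ 0 → IsUnit x
  /-- the limit -/
  lim : IsLim R (fun k => A ⧸ Ideal.span {π ^ k}) pr
    (fun k => fcx (pow_dvd_pow π (Nat.le_succ k)))

/-- [CG E_cmp] completions exist.

Proof. `R` = the subring of `∏ k, A ⧸ (π ^ k)` of the compatible families, `pr k` the projections, `c` the diagonal. `lim`, `mkc` are clear. `inj`: if `π ^ k ∣ x` for all `k` then `x = 0` (`A` is a domain which satisfies the ascending chain condition for principal ideals; Mathlib: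
`Ideal.iInf_pow_eq_bot_of_isDomain` or `FiniteMultiplicity.of_prime_left`). `ker`: if `x = (x_k)` with `x_k = 0` for one `k`, lift `x_(n + k) ∈ A ⧸ (π ^ (n + k))` to `a_n ∈ A`, `π ^ k ∣ a_n` (for `k ≤ n + k`), `a_n = π ^ k b_n`, then `b_n` modulo `π ^ n` is well defined and compatible
(`π ^ (n + k) ∣ a_(n+1) - a_n`, cancel), and `x = c π ^ k * (b_n)`. Units: if `x_1 ≠ 0` then `x_k` is a unit of `A ⧸ (π ^ k)` for `k ≥ 1` (`π` and a lift of `x_k` are coprime: `(π)` is maximal, `IsCoprime.pow_right`), the inverses are compatible. `val`: let `x ≠ 0`, `x_k ≠ 0` for some `k`; let `n` be the largest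
number with `x_n = 0` (`x_0 = 0` and `x_j = 0` for `j ≤ n`); `x = c π ^ n * y` by `ker` and `y_1 ≠ 0` (otherwise `c π ^ (n + 1) ∣ x`, `x_(n + 1) = 0`). `dom`: `c π ^ n ≠ 0` and a product `u π ^ n * (u' π ^ n')` is not zero (its component `n + n' + 1` is not zero). -/
def E_cmp : Prop := ∀ (A : Type) [CommRing A] [IsDomain A] [IsPrincipalIdealRing A] (π : A),
  Prime π → ∃ (R : Type) (_ : CommRing R) (c : A →+* R)
    (pr : ∀ k : ℕ, R →+* A ⧸ Ideal.span {π ^ k}), Cmpl π c pr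

/-- [CG E_her] the Hermite form.

Proof. Let `(x, y)` be the first column of `C`, not zero, `a` the smaller one of the valuations (`Cmpl.val`; of the nonzero ones). There is `U₁ ∈ GL₂(R)` with `U₁ (x, y) = (c π ^ a, 0)` (if `x = u c π ^ a` and `y = z x`: `U₁ = [[u⁻¹, 0], [-z, 1]]`; otherwise exchange the rows first).
`U₁ C = [[c π ^ a, s], [0, t]]`, `t ≠ 0` because of the determinant, `t = u' c π ^ b`; multiply the second row with `u'⁻¹`. Let `s' ∈ A` be a lift of `pr b s`, so `s = c s' + c π ^ b z` (`Cmpl.ker`, `Cmpl.mkc`); subtract `z` times the second row from the first. `g = [[π ^ a, s'], [0, π ^ b]]`. -/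
def E_her : Prop := ∀ (A : Type) [CommRing A] (π : A) (R : Type) [CommRing R] (c : A →+* R)
  (pr : ∀ k : ℕ, R →+* A ⧸ Ideal.span {π ^ k}), Cmpl π c pr →
  ∀ C : Matrix (Fin 2) (Fin 2) R, C.det ≠ 0 →
  ∃ (U : GL (Fin 2) R) (g : Matrix (Fin 2) (Fin 2) A) (n : ℕ), g.det = π ^ n ∧
    C = U.val * g.map c

/-- [CG E_one] the change of the lattice at one prime. (Uses `E_int`, `E_cmp`, `E_her`.)

Proof. `R, c, pr` from `E_cmp`. The family `σ (π ^ k)` is compatible, let `s : Λ →* SL2 R` be its limit (`(SLm (pr k)).comp s = σ (π ^ k)`; entrywise limits, compare `P/lh.lean`). `tr (s l) = c (tr (ρ l))` by uniqueness of limits (`htr`; `Cmpl.mkc`). `(SLm c).comp ρ` is irreducible (`c` is injective). `E_int` for `s` and `(SLm c).comp ρ`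
gives `C`, `E_her` gives `C = U g`, `det g = π ^ n`. Put `g* = g.adjugate`, `g g* = π ^ n`. `U⁻¹ s l U * c g = U⁻¹ s l C = U⁻¹ C c(ρ l) = c(g (ρ l))`, so `c π ^ n U⁻¹ (s l) U = c (g (ρ l) g*)`: the entries of `g (ρ l) g*` are divisible by `c π ^ n` in `R`, so they are zero in `A ⧸ (π ^ n)` (`Cmpl.ker`, `Cmpl.mkc`), so divisible
by `π ^ n` in `A`: `g (ρ l) g* = π ^ n (ρ' l)`. `c (ρ' l) = U⁻¹ (s l) U` and `c` is injective, so `ρ' : Λ →* SL2 A`, and `ρ' l g = g ρ l` (multiply with `π ^ n`). The reduction modulo `π ^ k` of `c (ρ' l) = U⁻¹ (s l) U` is `LCj` with `C` the reduction of `U⁻¹`. -/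
def E_one : Prop := ∀ (A Λ : Type) [CommRing A] [IsDomain A] [IsPrincipalIdealRing A] [Group Λ]
  (σ : ∀ x : A, Λ →* SL2 (A ⧸ Ideal.span {x})), Cpt σ → ∀ ρ : Λ →* SL2 A, Irr ρ →
  (∀ x : A, x ≠ 0 → ∀ l, tr (σ x l) = mkx x (tr (ρ l))) → ∀ π : A, Prime π →
  ∃ (ρ' : Λ →* SL2 A) (g : Matrix (Fin 2) (Fin 2) A) (n : ℕ), g.det = π ^ n ∧
    (∀ l, (ρ' l).val * g = g * (ρ l).val) ∧ ∀ k : ℕ, LCj σ ρ' (π ^ k)

/-- [CG E_good] the primes where the representation is irreducible. (Uses `E_int`, `E_cmp`.)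

Proof. `R, c, pr, s, C` as in `E_one`, `s C = C c(ρ)`. Divide `C` by the greatest power of `c π` which divides all the entries (`Cmpl.val`, `Cmpl.ker`): some entry of `C` is not zero modulo `π`. Let `k = A ⧸ (π ^ 1)` (a field), `C₁` the reduction of `C` (not zero), `s₁, ρ₁` the reductions of `s`, `ρ`, `s₁ C₁ = C₁ ρ₁`. If `det C₁ = 0` there is `v ≠ 0`
with `C₁ v = 0`, the kernel of `C₁` is the line generated by `v` (`C₁ ≠ 0`), and it is invariant: `ρ₁ l v = χ l v` for all `l`. Then `tr (ρ₁ [g, h]) = 2` (`ρ₁ [g, h] v = v`, and the determinant is one), so `π ∣ tr (ρ [g, h]) - 2`, contradiction. So `det C₁ ≠ 0`, `det C` is a unit (`Cmpl.unit`), and the reductions of `C⁻¹`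
give `LCj`. -/
def E_good : Prop := ∀ (A Λ : Type) [CommRing A] [IsDomain A] [IsPrincipalIdealRing A] [Group Λ]
  (σ : ∀ x : A, Λ →* SL2 (A ⧸ Ideal.span {x})), Cpt σ → ∀ ρ : Λ →* SL2 A,
  (∀ x : A, x ≠ 0 → ∀ l, tr (σ x l) = mkx x (tr (ρ l))) → ∀ π : A, Prime π → ∀ g h : Λ,
  ¬ π ∣ tr (ρ (g * h * g⁻¹ * h⁻¹)) - 2 → ∀ k : ℕ, LCj σ ρ (π ^ k)

/-- [CG E_crt] Chinese remainders.

Proof. `UniqueFactorizationMonoid.induction_on_coprime`. For a unit `x` the ring `A ⧸ (x)` is trivial. For coprime `x`, `y` and `C_x ∈ GL₂(A / x)`, `C_y ∈ GL₂(A / y)` there is `C ∈ GL₂(A / (x y))` with the projections `C_x`, `C_y` (`Ideal.quotientInfEquivQuotientProd` or directly: the map `A / (x y) → A / x × A / y` is an isomorphism), and the equation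
holds because it holds modulo `x` and modulo `y` (`Cpt`). -/
def E_crt : Prop := ∀ (A Λ : Type) [CommRing A] [IsDomain A] [IsPrincipalIdealRing A] [Group Λ]
  (σ : ∀ x : A, Λ →* SL2 (A ⧸ Ideal.span {x})), Cpt σ → ∀ ρ : Λ →* SL2 A,
  (∀ (π : A) (k : ℕ), Prime π → LCj σ ρ (π ^ k)) → ∀ x : A, x ≠ 0 → LCj σ ρ x

/-- [CG E_lat] the lattice. (Uses `E_one`, `E_good`, `E_crt`.)

Proof. Let `d = tr (ρ [g, h]) - 2 ≠ 0`. CLAIM: for every list `L` of primes of `A` there are `ρ' : Λ →* SL2 A` with `tr (ρ' l) = tr (ρ l)` for all `l` and `LCj σ ρ' (π ^ k)` for all `π ∈ L` and all `k`. Induction: let `ρ'` be as in the claim for `L`, `π₀` a prime. If `π₀` is associated to some `π ∈ L` then `ρ'` is good also for `π₀` (`(π₀ ^ k) = (π ^ k)`; use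
`Cpt` for both divisibilities). Otherwise `E_one` for `ρ'` and `π₀` gives `ρ''`, `g`, `det g = π₀ ^ n`; the traces of `ρ''` and `ρ'` are the same (`det g ≠ 0`, `A` a domain). For `π ∈ L` the matrix `g` is invertible modulo `π ^ k` (`π₀` and `π` are coprime), so `LCj σ ρ' (π ^ k)` implies `LCj σ ρ'' (π ^ k)`.
Take for `L` the prime factors of `d` (`UniqueFactorizationMonoid.factors` or `normalizedFactors`). A prime `π` divides `d`, then it is associated to an element of `L`, or not, then `E_good` (`tr (ρ' [g, h]) - 2 = d`). Finally `E_crt`. -/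
def E_lat : Prop := ∀ (A Λ : Type) [CommRing A] [IsDomain A] [IsPrincipalIdealRing A] [Group Λ]
  (σ : ∀ x : A, Λ →* SL2 (A ⧸ Ideal.span {x})), Cpt σ → ∀ ρ : Λ →* SL2 A, Irr ρ →
  (∀ x : A, x ≠ 0 → ∀ l, tr (σ x l) = mkx x (tr (ρ l))) →
  ∃ ρ' : Λ →* SL2 A, (∀ l, tr (ρ' l) = tr (ρ l)) ∧ ∀ x : A, x ≠ 0 → LCj σ ρ' x

/-! ### The main result -/

/-- The output of blocks T and E: `ρ` is locally conjugate to the matched representations. -/
structure RhoL {G Λ : Type} [Group G] [Group Λ] {a b : ℤ} (Φ : NatBij G Λ) (ρ₀ : G →* GQ a b)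
    (ρ : Λ →* GQ a b) : Prop where
  /-- conjugate in `GL₂(ℤ[w] / m)` -/
  cj : ∀ (m : ℕ) [NeZero m], ∃ C : GL (Fin 2) (Qf a b (ZMod m)), ∀ l,
    (rdq a b m (ρ l)).val * C.val = C.val * (Φ.toFun _ ((rdq a b m).comp ρ₀) l).val
  /-- irreducible -/
  irr : Irr ρ

/-- [CG E_main] MAIN RESULT of block E. (Uses `E_ar`, `E_irr`, `E_rho`, `E_lat`.)

Proof. `E_rho` gives `ρ₁`; it is irreducible (`E_irr`). For `x ≠ 0` the ring `A ⧸ (x)` is finite (`x` divides a nonzero integer, `E_dvd`); `σ x = Φ.toFun _ ((SLm (mkx x)).comp ρ₀)` for `x ≠ 0` and `σ 0 = (SLm (mkx 0)).comp ρ₁`; `Cpt σ` by naturality (if `x ∣ y ≠ 0` then `x ≠ 0`). The traces: `Red`. `E_lat` gives `ρ'`. For `m ≥ 1` let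
`x = (m : A)`, `A ⧸ (m) ≅ Qf a b (ZMod m)` (the homomorphism `Qfm a b (Int.castRingHom (ZMod m))` is onto with the kernel `(m)`: `E_surj`, `E_ker` in `BG/P_E.lean`); apply it to `LCj σ ρ' m` (naturality). -/
def E_main : Prop := ∀ a b : ℤ, Five a b → ∀ (G Λ : Type) [Group G] [Group Λ] (Φ : NatBij G Λ)
  (ρ₀ : G →* GQ a b) (T : Λ → Qf a b ℤ), Red Φ ρ₀ T → Irr ρ₀ →
  ∃ ρ : Λ →* GQ a b, (∀ l, tr (ρ l) = T l) ∧ RhoL Φ ρ₀ ρ

end

end Pool.Agent.F8.CG
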