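import Pool.Agent.Lib.MP_305fdd_al.F8.CG.StmC
import Pool.Agent.Lib.MP_305fdd_al.F8.CG.StmE

/-!
# MP_305fdd_al, congruence subgroups: definitions for the block Z (all congruence subgroups)

`iC a b` is the embedding of `ℤ[w]` into the complex numbers, `Z1C ρ` the space of the crossed homomorphisms with values in `ℂ²`, `Cusp W` the set of the cusps of a subgroup
`W` of `SL₂(ℤ[w])`. `tv e t` is the transvection `v ↦ v + t ω(e, v) e`, `ω(e, v) = e₀ v₁ - e₁ v₀`; the elements `tv e t` are the unipotent elements of `SL₂(ℤ[w])`.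
-/

set_option autoImplicit false

namespace Pool.Agent.F8.CG

open Pool.Agent.F8.BG Pool.Agent.MP_305fdd_al Pool.Agent.Lib.MP_305fdd_al Pool.Agent.F8
open scoped QuadraticAlgebra

noncomputable section

/-! ### The embedding -/

/-- the root of `x² = a + b x` in the upper half plane (if the discriminant is negative) -/
def wC (a b : ℤ) : ℂ := ((b : ℂ) + ((b ^ 2 + 4 * a : ℤ) : ℂ) ^ ((1 / 2 : ℂ))) / 2

theorem wC_mul (a b : ℤ) : wC a b * wC a b = ((a : ℤ) : ℂ) + ((b : ℤ) : ℂ) * wC a b := by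
  have h : (((b ^ 2 + 4 * a : ℤ) : ℂ) ^ ((1 / 2 : ℂ))) ^ 2 = ((b ^ 2 + 4 * a : ℤ) : ℂ) := by
    have h1 := Complex.cpow_nat_inv_pow ((b ^ 2 + 4 * a : ℤ) : ℂ) (n := 2) (by norm_num)
    rw [show ((1 / 2 : ℂ)) = (((2 : ℕ) : ℂ))⁻¹ by norm_num]
    exact h1
  unfold wC
  push_cast at h ⊢
  linear_combination h / 4

/-- the embedding of `ℤ[w]` into the complex numbers -/
def iC (a b : ℤ) : Qf a b ℤ →+* ℂ := evq a b (Int.castRingHom ℂ) (wC a b) (wC_mul a b)

theorem iC_apply (a b : ℤ) (z : Qf a b ℤ) : iC a b z = (z.re : ℂ) + (z.im : ℂ) * wC a b := rfl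

theorem wC_eq {a b : ℤ} (h : b ^ 2 + 4 * a < 0) :
    wC a b = ((b : ℝ) / 2 : ℝ) + ((Real.sqrt (-(b ^ 2 + 4 * a : ℤ)) / 2 : ℝ) : ℂ) * Complex.I := by
  set D : ℝ := -((b ^ 2 + 4 * a : ℤ) : ℝ) with hD
  have hD0 : 0 < D := by
    rw [hD]
    have : ((b ^ 2 + 4 * a : ℤ) : ℝ) < 0 := by exact_mod_cast h
    linarith
  have h1 : ((b ^ 2 + 4 * a : ℤ) : ℂ) = ((-D : ℝ) : ℂ) := by
    rw [hD, neg_neg]
    norm_cast
  have h2 : (((-D : ℝ) : ℂ)) ^ ((1 / 2 : ℂ)) = ((Real.sqrt D : ℝ) : ℂ) * Complex.I := by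
    rw [Complex.ofReal_cpow_of_nonpos (by linarith)]
    have h3 : ((-(-D : ℝ) : ℝ) : ℂ) ^ ((1 / 2 : ℂ)) = ((Real.sqrt D : ℝ) : ℂ) := by
      rw [neg_neg, Real.sqrt_eq_rpow, Complex.ofReal_cpow hD0.le]
      norm_num
    have h4 : Complex.exp (Real.pi * Complex.I * (1 / 2 : ℂ)) = Complex.I := by
      rw [show (Real.pi : ℂ) * Complex.I * (1 / 2 : ℂ) = (Real.pi : ℂ) / 2 * Complex.I by ring,
        Complex.exp_pi_div_two_mul_I]
    rw [h4]
    congr 1
    rw [← h3]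
    push_cast
    ring_nf
  unfold wC
  rw [h1, h2]
  push_cast
  ring

/-- the imaginary part of the root is positive -/
theorem wC_im {a b : ℤ} (h : b ^ 2 + 4 * a < 0) : 0 < (wC a b).im := by
  rw [wC_eq h]
  have : (0 : ℝ) < Real.sqrt (-(b ^ 2 + 4 * a : ℤ)) := by
    apply Real.sqrt_pos.2
    have : ((b ^ 2 + 4 * a : ℤ) : ℝ) < 0 := by exact_mod_cast h
    linarith
  simp only [Complex.add_im, Complex.ofReal_im, Complex.mul_im, Complex.ofReal_re, Complex.I_im,
    Complex.I_re]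
  linarith

/-- the embedding of `SL₂(ℤ[w])` -/
def iG (a b : ℤ) : GQ a b →* SL2 ℂ := SLm (iC a b)

/-! ### Crossed homomorphisms -/

/-- the space of the crossed homomorphisms with values in `ℂ²` -/
def Z1C {a b : ℤ} {G : Type} [Group G] (ρ : G →* GQ a b) : Submodule ℂ (G → Fin 2 → ℂ) where
  carrier := {z | ∀ x y, z (x * y) = z x + (iG a b (ρ x)).val.mulVec (z y)}
  add_mem' := by
    intro z z' hz hz' x y
    simp only [Pi.add_apply]
    rw [hz, hz', Matrix.mulVec_add]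
    abel
  zero_mem' := by
    intro x y
    simp
  smul_mem' := by
    intro c z hz x y
    simp only [Pi.smul_apply]
    rw [hz, smul_add, Matrix.mulVec_smul]

/-! ### Cusps -/

/-- the upper triangular matrices -/
def Bor (a b : ℤ) : Subgroup (GQ a b) where
  carrier := {g | g.val 1 0 = 0}
  mul_mem' := by
    intro g h hg hh
    show (g.val * h.val) 1 0 = 0
    rw [Matrix.mul_apply, Fin.sum_univ_two, show g.val 1 0 = 0 from hg, show h.val 1 0 = 0 from hh]
    ring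
  one_mem' := by
    show (1 : Matrix (Fin 2) (Fin 2) (Qf a b ℤ)) 1 0 = 0
    simp
  inv_mem' := by
    intro g hg
    show (g⁻¹).val 1 0 = 0
    rw [Matrix.SpecialLinearGroup.SL2_inv_expl]
    show -g.val 1 0 = 0
    rw [show g.val 1 0 = 0 from hg, neg_zero]

/-- the cusps: the projective line over the field of fractions, `ℤ[w]` a principal ideal domain -/
abbrev Pr (a b : ℤ) : Type := GQ a b ⧸ Bor a b

/-- the cusps of the subgroup `W` -/
abbrev Cusp {a b : ℤ} (W : Subgroup (GQ a b)) : Type := MulAction.orbitRel.Quotient W (Pr a b)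

/-- the form `ω(e, v)` -/
def om {R : Type} [CommRing R] (e v : Fin 2 → R) : R := e 0 * v 1 - e 1 * v 0

/-- the transvection `v ↦ v + t ω(e, v) e` -/
def tv {R : Type} [CommRing R] (e : Fin 2 → R) (t : R) : SL2 R :=
  AB.mx (1 - t * e 0 * e 1) (t * e 0 ^ 2) (-(t * e 1 ^ 2)) (1 + t * e 0 * e 1) (by ring)

/-- `x` is unipotent -/
def Unip {a b : ℤ} (x : GQ a b) : Prop := ∃ g t, x = g * eU t * g⁻¹

/-- the matrix `[[0, -1], [1, 0]]` -/
def mS {R : Type} [CommRing R] : SL2 R := AB.mx 0 (-1) 1 0 (by ring)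

end

end Pool.Agent.F8.CG
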