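import Pool.Agent.Lib.MP_305fdd_al.F8.CG.DefsZ

/-!
# MP_305fdd_al, congruence subgroups, block Z: transport of the dimensions (CC) and of the parabolic elements (FP)

(CC) The dimension of the space of the crossed homomorphisms with values in `K²` is the same for `ρG : G → SL₂(ℤ[w])` and `ρH : H → SL₂(ℤ[w])` if `ρH`
corresponds to `ρG` under a `NatBij G H` (`CC_one`). So (with `LD`, the formula for the dimension in terms of the number of the cusps) the numbers of the
cusps of corresponding subgroups agree (`CC_two`).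
(FP) So by Burnside's lemma the elements with a fixed point on the projective line correspond to each other in finite quotients (`FP_main`).
-/

set_option autoImplicit false

namespace Pool.Agent.F8.CG

open Pool.Agent.F8.BG Pool.Agent.MP_305fdd_al Pool.Agent.Lib.MP_305fdd_al Pool.Agent.F8
open scoped QuadraticAlgebra

noncomputable section

/-- the crossed homomorphisms with values in `K²` -/
def Z1K {G K : Type} [Group G] [CommRing K] (σ : G →* SL2 K) : Submodule K (G → Fin 2 → K) where
  carrier := {z | ∀ x y, z (x * y) = z x + (σ x).val.mulVec (z y)}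
  add_mem' := by
    intro z z' hz hz' x y
    simp only [Pi.add_apply]
    rw [hz, hz', Matrix.mulVec_add]
    abel
  zero_mem' := by
    intro x y
    simp
  smul_mem' := by
    intro c z hz x y
    simp only [Pi.smul_apply]
    rw [hz, smul_add, Matrix.mulVec_smul]

theorem Z1C_eq {a b : ℤ} {G : Type} [Group G] (ρ : G →* GQ a b) :
    Z1C ρ = Z1K ((iG a b).comp ρ) := rfl

/-- the solutions of a system of linear equations with coefficients in `R`, in a field `K` over `R` -/
def SolR {R K J : Type} [CommRing R] [CommRing K] (f : R →+* K) {n : ℕ} (A : J → Fin n → R) :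
    Submodule K (Fin n → K) where
  carrier := {v | ∀ j, ∑ i, f (A j i) * v i = 0}
  add_mem' := by
    intro v v' h h' j
    simp only [Pi.add_apply, mul_add, Finset.sum_add_distrib]
    rw [h j, h' j, add_zero]
  zero_mem' := by
    intro j
    simp
  smul_mem' := by
    intro c v h j
    simp only [Pi.smul_apply, smul_eq_mul]
    have h1 := congrArg (fun x => c * x) (h j)
    simp only [Finset.mul_sum, mul_zero] at h1
    rw [← h1]
    exact Finset.sum_congr rfl fun i _ => by ring

/-! ### (CC) -/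

/-- [CG CC sp] split primes.

Proof. Let `a, b : ℤ`, `a ≠ 0`, `n ≠ 0`. For `k : ℕ` put `x = a * n * k`; then `x ^ 2 - b * x - a = a * y` with `y = a * n ^ 2 * k ^ 2 - b * n * k - 1`. For `k` large `|y| ≥ 2` (or: `y ≠ 1`, `y ≠ -1` for one of `k = 1, 2, 3`; `y = ±1` means `k n (a n k - b) = 2` or `= 0`; take `k` with `|a n k| > |b| + 2`).
Let `q` be a prime divisor of `y.natAbs` (`Nat.minFac`). Then `q` does not divide `n` (otherwise `q ∣ 1`), and `t = x` in `ZMod q`: `t * t - b * t - a = a * y = 0`. -/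
def CC_sp : Prop := ∀ (a b : ℤ), a ≠ 0 → ∀ n : ℕ, n ≠ 0 →
  ∃ (q : ℕ) (_ : Fact q.Prime) (t : ZMod q), ¬ q ∣ n ∧ t * t = (a : ZMod q) + (b : ZMod q) * t

/-- [CG CC ra] the rank of a system of linear equations over a domain is the same in almost all fields.

Proof. Induction on `n`. `n = 0`: `N = 1`, `r = 0` (`Fin 0 → K` is a subsingleton). `n + 1`: if `A j 0 = 0` for all `j` let `A' j i = A j i.succ` and `N`, `r'` from the induction hypothesis for `A'`; `SolR f A ≃ₗ K × SolR f A'` (`v ↦ (v 0, tail)`, `Fin.sum_univ_succ`), so `r = r' + 1` (the spaces are finite dimensional).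
Otherwise choose `j₀` with `c = A j₀ 0 ≠ 0` and let `A' j i = c * A j i.succ - A j 0 * A j₀ i.succ`, `N'`, `r'` from the induction hypothesis, `N = c * N'`. If `f N ≠ 0` then `f c ≠ 0` and the tail map `SolR f A → SolR f A'` is bijective: it is well defined (`f c *` equation `j` minus `f (A j 0) *` equation `j₀`), injective
(`v 0 = - (f c)⁻¹ * ∑ f (A j₀ i.succ) * v i.succ`), and onto (with this `v 0`). So `r = r'`. -/
def CC_ra : Prop := ∀ (R J : Type) [CommRing R] [IsDomain R] (n : ℕ) (A : J → Fin n → R),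
  ∃ (N : R) (r : ℕ), N ≠ 0 ∧ ∀ (K : Type) [Field K] (f : R →+* K), f N ≠ 0 →
    Module.finrank K (SolR f A) = r

/-- [CG CC fx] the crossed homomorphisms of a finitely generated group are the solutions of a system of linear equations.

Proof. Let `s : Fin m → G` be generators (`Group.fg_iff`, or a surjection `π : FreeGroup (Fin m) →* G`). For every word `w : FreeGroup (Fin m)` there are matrices `D w i : Matrix (Fin 2) (Fin 2) R` (`i : Fin m`, the Fox derivatives) such that for every field `K`, `f : R →+* K` and every crossed homomorphism `z : FreeGroup (Fin m) → (Fin 2 → K)` for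
`(SLm f).comp (ρ.comp π)` we have `z w = ∑ i, (f (D w i)) (z (of i))` (induction on `w`; or take the crossed homomorphism over `R` with values in `Fin m → Matrix (Fin 2) (Fin 2) R` which is the `i`-th unit vector on the generator `i`). Conversely for all `v : Fin m → Fin 2 → K` the map `z w = ∑ i, (f (D w i)) (v i)` is a crossed homomorphism of the free group.
The crossed homomorphisms of `G` are the crossed homomorphisms of the free group which are zero on `π.ker`. So with `n = 2 * m` (an equivalence `Fin m × Fin 2 ≃ Fin n`), `J = π.ker × Fin 2`, `A (w, k) (i, l) = D w i k l` the evaluation on the generators is a linear isomorphism `Z1K ((SLm f).comp ρ) ≃ SolR f A`. -/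
def CC_fx : Prop := ∀ (R G : Type) [CommRing R] [Group G] (ρ : G →* SL2 R), Group.FG G →
  ∃ (J : Type) (n : ℕ) (A : J → Fin n → R), ∀ (K : Type) [Field K] (f : R →+* K),
    Nonempty (Z1K ((SLm f).comp ρ) ≃ₗ[K] SolR f A)

/-- [CG CC cd] corresponding representations over a finite ring have the same number of crossed homomorphisms.

Proof. Let `E` be the group of the pairs `(v, g)`, `v : Fin 2 → K`, `g : SL2 K`, with `(v, g) (v', g') = (v + g v', g g')` (a `SemidirectProduct` of `Multiplicative (Fin 2 → K)` with `SL2 K`, or a structure), `pr : E →* SL2 K`. It is finite. The crossed homomorphisms for `σ` are the homomorphisms `ψ : G →* E` with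
`pr.comp ψ = σ` (`ψ g = (z g, σ g)`), and the same for `H`. `NatBij.card_lifts`. -/
def CC_cd : Prop := ∀ (G H : Type) [Group G] [Group H] (Ψ : NatBij G H) (K : Type) [CommRing K]
  [Finite K] (σ : G →* SL2 K), Nat.card (Z1K σ) = Nat.card (Z1K (Ψ.toFun _ σ))

/-- [CG CC cj] conjugate representations.

Proof. `z ↦ (fun l => C.mulVec (z l))` is linear and bijective, the inverse is given by `E`. -/
def CC_cj : Prop := ∀ (H K : Type) [Group H] [CommRing K] (σ σ' : H →* SL2 K)
  (C E : Matrix (Fin 2) (Fin 2) K), C * E = 1 → E * C = 1 →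
  (∀ l, (σ' l).val = C * (σ l).val * E) → Nonempty (Z1K σ ≃ₗ[K] Z1K σ')

/-- [CG CC one] the dimensions agree. (Uses `CC_sp`, `CC_ra`, `CC_fx`, `CC_cd`, `CC_cj`.)

Proof. `R = Qf a b ℤ` is a domain (`Qf_domain`, in `BG/DefsU.lean`). `CC_fx` and `CC_ra` give `N`, `r` for `ρG` and `N'`, `r'` for `ρH`. With `f` (`f N ≠ 0` because `f` is injective) the two dimensions in the claim are `r` and `r'`. Let `n = |nq (N * N')|`, not zero (`nq_eq_zero`), and `q`, `t` from `CC_sp` (`a ≠ 0` because `b ^ 2 + 4 * a < 0`).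
`f_q = evq a b (Int.castRingHom (ZMod q)) t : R →+* ZMod q`. `f_q (N * N') ≠ 0`: `z * cjq z = nq z` (see `BG/DefsU.lean`) and `f_q (nq z) = nq z` modulo `q`. So `finrank (ZMod q) (Z1K ((SLm f_q).comp ρG)) = r` and `finrank (ZMod q) (Z1K ((SLm f_q).comp ρH)) = r'`. `f_q` is the composition of `Qfm a b (Int.castRingHom (ZMod q))` and
`evq a b (RingHom.id _) t`, so `(SLm f_q).comp ρG = (SLm ev).comp ((rdq a b q).comp ρG)`, and by `Ψ.nat` and `RhoG` (for `m = q`) the homomorphism `(SLm f_q).comp ρH` is conjugate to `Ψ.toFun _ ((SLm f_q).comp ρG)` by the image of `C` (`CC_cj`). By `CC_cd` the two spaces have the same number of elements,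
`q ^ r = q ^ r'` (`Module.card_eq_pow_finrank`; the spaces are finite dimensional, see `CC_fx`). -/
def CC_one : Prop := ∀ (a b : ℤ), b ^ 2 + 4 * a < 0 → ∀ (G H : Type) [Group G] [Group H],
  Group.FG G → Group.FG H → ∀ (ρG : G →* GQ a b) (ρH : H →* GQ a b) (Ψ : NatBij G H),
  RhoG ρG Ψ ρH → ∀ (K : Type) [Field K] (f : Qf a b ℤ →+* K), Function.Injective f →
  Module.finrank K (Z1K ((SLm f).comp ρG)) = Module.finrank K (Z1K ((SLm f).comp ρH))

/-- the formula for the dimension (the blocks VT, UB, LB) -/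
def LD (a b : ℤ) (M₀ : ℕ) : Prop := ∀ W : Subgroup (GQ a b), W ≤ Gam a b M₀ → W.FiniteIndex →
  Finite (Cusp W) ∧ Module.finrank ℂ (Z1C W.subtype) = 2 + Nat.card (Cusp W)

/-- [CG CC cu] the cusps of a subgroup of a subgroup.

Proof. The orbits of `A.map G₁.subtype` and of `A` on `X` are the same (`MulAction.orbitRel`): `a • x = (a : G) • x`. -/
def CC_cu : Prop := ∀ (G X : Type) [Group G] [MulAction G X] (G₁ : Subgroup G) (A : Subgroup G₁),
  Nonempty (MulAction.orbitRel.Quotient (A.map G₁.subtype) X ≃ MulAction.orbitRel.Quotient A X)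

/-- [CG CC two] the numbers of the cusps of corresponding subgroups agree.

Proof. `natBij_comap` gives `Ψ' : NatBij (S.comap θ) (S.comap θ')`, `θ' = Ψ.toFun _ θ`, compatible with `Ψ`. `W₁ = (S.comap θ).map G₁.subtype`, `W₂` similarly; `S.comap θ ≃* W₁`, and with `natBij_equiv` etc. (or directly with the homomorphisms `G₁.subtype.comp (S.comap θ).subtype` of `S.comap θ`) we have `RhoG (G₁.subtype.comp _) Ψ' (G₂.subtype.comp _)`
(compatibility of `Ψ'`). The groups `S.comap θ`, `S.comap θ'` have finite index in `GQ a b` (they contain the kernels of `θ`, `θ'`), so they are finitely generated (`Subgroup.fg_of_index_ne_zero`). `CC_one` with `f = iC a b` (injective as `(wC a b).im > 0`, `wC_im`) gives the equality of the dimensions of the spaces of crossed homomorphisms,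
which are those of `Z1C W₁.subtype`, `Z1C W₂.subtype` (transport along `S.comap θ ≃* W₁`). `LD`. -/
def CC_two : Prop := ∀ (a b : ℤ), b ^ 2 + 4 * a < 0 → Group.FG (GQ a b) → ∀ M₀ : ℕ, LD a b M₀ →
  ∀ G₁ G₂ : Subgroup (GQ a b), G₁ ≤ Gam a b M₀ → G₂ ≤ Gam a b M₀ → G₁.FiniteIndex →
  G₂.FiniteIndex → ∀ Ψ : NatBij G₁ G₂, RhoG G₁.subtype Ψ G₂.subtype →
  ∀ (Q : Type) [Group Q] [Finite Q] (θ : G₁ →* Q) (S : Subgroup Q),
  Finite (Cusp ((S.comap θ).map G₁.subtype)) ∧
  Finite (Cusp ((S.comap (Ψ.toFun _ θ)).map G₂.subtype)) ∧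
  Nat.card (Cusp ((S.comap θ).map G₁.subtype)) =
    Nat.card (Cusp ((S.comap (Ψ.toFun _ θ)).map G₂.subtype))

/-! ### (FP) -/

/-- [CG FP quo] the action of the quotient group on the orbits of the kernel.

Proof. `X = MulAction.orbitRel.Quotient θ.ker P`, `π` the projection. `Q` acts on `X`: for `q : Q` choose `g` with `θ g = q` and let `q • π x = π (g • x)`; this does not depend on `g` (`g' = k g`, `k ∈ θ.ker`) and on `x` (`g • k • x = (g k g⁻¹) • g • x`). `S.comap θ ≥ θ.ker`, and `x`, `y` are in the same orbit of `S.comap θ` iff `π x`, `π y` are in the same orbit of `S`. -/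
def FP_quo : Prop := ∀ (G P Q : Type) [Group G] [MulAction G P] [Group Q] (θ : G →* Q),
  Function.Surjective θ → ∃ (X : Type) (_ : MulAction Q X) (π : P → X), Function.Surjective π ∧
    (∀ g x, π (g • x) = θ g • π x) ∧ (∀ x y, π x = π y ↔ ∃ k ∈ θ.ker, k • x = y) ∧
    ∀ S : Subgroup Q, Nonempty (MulAction.orbitRel.Quotient (S.comap θ) P ≃
      MulAction.orbitRel.Quotient S X)

/-- [CG FP bur] Burnside.

Proof. Strong induction on `orderOf h`. `S = Subgroup.zpowers h`, of order `n`. By Burnside's lemma (`MulAction.sum_card_fixedBy_eq_card_orbits_mul_card_group`) `∑ s : S, |Fix_X s| = n * #(S \ X)`, so the sums over `S` of `|Fix_X s|` and of `|Fix_Y s|` agree. For `s ∈ S` which is not a generator of `S` the order is smaller, and `|Fix_X s| = |Fix_Y s|` by induction. For the generators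
`s` of `S` (`zpowers s = zpowers h`) `Fix_X s = Fix_X h` and `Fix_Y s = Fix_Y h`. There is at least one generator, so `|Fix_X h| = |Fix_Y h|`. -/
def FP_bur : Prop := ∀ (Q X Y : Type) [Group Q] [Finite Q] [MulAction Q X] [MulAction Q Y]
  [Finite X] [Finite Y], (∀ S : Subgroup Q, Nat.card (MulAction.orbitRel.Quotient S X) =
    Nat.card (MulAction.orbitRel.Quotient S Y)) →
  ∀ h : Q, Nat.card (MulAction.fixedBy X h) = Nat.card (MulAction.fixedBy Y h)

/-- [CG FP act] two actions with the same numbers of orbits. (Uses `FP_quo`, `FP_bur`.)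

Proof. `X₁`, `π₁` and `X₂`, `π₂` from `FP_quo`. They are finite (`X` is in bijection with the orbits of `(⊥ : Subgroup Q).comap θ`; use the bijection for `S = ⊥`, and `MulAction.orbitRel.Quotient ⊥ X ≃ X`; or the third property and the case `S = ⊥`). `FP_bur` for `h = θ₂ g₂`: `π₂ x` is fixed by `h`, so there is `y ∈ X₁` fixed by `h`, `y = π₁ x₁`, `h = θ₁ g`:
`π₁ (g • x₁) = h • y = π₁ x₁`, so there is `k ∈ θ₁.ker` with `k • g • x₁ = x₁`. `g₁ = k * g`. -/
def FP_act : Prop := ∀ (G₁ G₂ P₁ P₂ Q : Type) [Group G₁] [Group G₂] [MulAction G₁ P₁]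
  [MulAction G₂ P₂] [Group Q] [Finite Q] (θ₁ : G₁ →* Q) (θ₂ : G₂ →* Q),
  Function.Surjective θ₁ → Function.Surjective θ₂ →
  (∀ S : Subgroup Q, Finite (MulAction.orbitRel.Quotient (S.comap θ₁) P₁) ∧
    Finite (MulAction.orbitRel.Quotient (S.comap θ₂) P₂) ∧
    Nat.card (MulAction.orbitRel.Quotient (S.comap θ₁) P₁) =
      Nat.card (MulAction.orbitRel.Quotient (S.comap θ₂) P₂)) →
  ∀ g₂ : G₂, (∃ x : P₂, g₂ • x = x) → ∃ g₁ : G₁, θ₁ g₁ = θ₂ g₂ ∧ ∃ x : P₁, g₁ • x = x

/-- [CG FP uni] the elements of a principal congruence subgroup with a fixed point are unipotent.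

Proof. `x = g Bor` with `p • x = x`: `g⁻¹ * p * g ∈ Bor a b`, i.e. `p' = g⁻¹ p g` is upper triangular, with the diagonal entries `u, u'`, `u * u' = 1`. `p' ∈ Gam a b M` (normal), so `u = 1 + M z`. `nq u = 1` (`nq_mul`, `nq ≥ 0`), and if `z ≠ 0` then `M ^ 2 ≤ nq (M z) = nq (u - 1)`. For `b ^ 2 + 4 a < 0`: `nq` is the norm `x² + b x y - a y²`,
a positive definite form with `sqrt (nq (u - v)) ≤ sqrt (nq u) + sqrt (nq v)`, so `nq (u - 1) ≤ 4 < 9` (or: `nq (u - 1) = nq u + 1 - tr u`, and `(tr u) ^ 2 ≤ 4 nq u = 4`). So `u = 1 = u'` and `p' = eU t`. -/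
def FP_uni : Prop := ∀ (a b : ℤ), b ^ 2 + 4 * a < 0 → ∀ M : ℕ, 3 ≤ M → ∀ p ∈ Gam a b M,
  (∃ x : Pr a b, p • x = x) → Unip p

/-- [CG FP main] unipotent elements correspond to unipotent elements in the finite quotients. (Uses `CC_two`, `CC_cu`, `FP_act`, `FP_uni`.)

Proof. `θ' = Ψ.toFun Q θ`; `θ'.range = θ.range` (`NatBij.range_eq`). Let `Q' = θ.range`, `θ₁ : G₁ →* Q'` (`rangeRestrict`), `θ₂ = Ψ.toFun _ θ₁`; by naturality with `Q'.subtype` `θ' = Q'.subtype.comp θ₂`, and `θ₁`, `θ₂` are onto. Apply `CC_two` to `θ₁` and `FP_act` with `P₁ = P₂ = Pr a b` (`CC_cu` for the numbers of orbits).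
`u = g * eU t * g⁻¹` fixes the point `g Bor` (`eU t ∈ Bor a b`). `FP_act` gives `p : G₁` with a fixed point and `θ₁ p = θ₂ u`, `FP_uni` shows that it is unipotent. -/
def FP_main : Prop := ∀ (a b : ℤ), b ^ 2 + 4 * a < 0 → Group.FG (GQ a b) → ∀ M₀ : ℕ, 3 ≤ M₀ →
  LD a b M₀ → ∀ G₁ G₂ : Subgroup (GQ a b), G₁ ≤ Gam a b M₀ → G₂ ≤ Gam a b M₀ → G₁.FiniteIndex →
  G₂.FiniteIndex → ∀ Ψ : NatBij G₁ G₂, RhoG G₁.subtype Ψ G₂.subtype →
  ∀ (Q : Type) [Group Q] [Finite Q] (θ : G₁ →* Q) (u : G₂), Unip u.val →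
  ∃ p : G₁, Unip p.val ∧ θ p = Ψ.toFun Q θ u

end

end Pool.Agent.F8.CG
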