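import Pool.Agent.Lib.MP_305fdd_al.F8.CG.StmL
import Pool.Agent.Lib.MP_305fdd_al.F8.CG.StmCC

/-!
# MP_305fdd_al, congruence subgroups: block U, the dimension of the space of the crossed homomorphisms

THEOREM (`U_ld`). For every subgroup `W` of finite index of `SL₂(ℤ[w])` which is contained in `Γ(3 M)` the dimension of the space of the crossed homomorphisms `W → ℂ²` is two plus the number of the cusps of `W`.

The upper bound (`U_ub`) is the vanishing theorem `V_vt`. The lower bound (`U_lb`): `W ≅ F' ⋊ ℤ` (`U_w`), and for such groups the dimension is at least `2` plus the dimension of the second cohomology (`U_wg`), and there are the Eisenstein cocycles (`L_eis`).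
-/

set_option autoImplicit false

namespace Pool.Agent.F8.CG

open Pool.Agent.F8.BG Pool.Agent.MP_305fdd_al Pool.Agent.Lib.MP_305fdd_al Pool.Agent.F8
open scoped QuadraticAlgebra ComplexConjugate

noncomputable section

/-- [CG U ub] the upper bound. (Uses `V_tv`, `V_vt`.)

Proof. `Cusp W` is finite: the set of the cosets `W g` is finite and maps onto it. For `i : Cusp W` choose `g_i` whose class is `i`, `d_i = colG g_i 0`, and `N = (index of W)!`, so `p_i = tv d_i N = (tv d_i 1) ^ N ∈ W`. The linear map `B : Z1C W.subtype → (Cusp W → ℂ)`, `(B z) i = ω(vC d_i, z p_i)`. Claim: if `B z = 0` then `z` is a coboundary; so the kernel of `B` is contained in the range of the linear map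
`v ↦ (x ↦ x v - v)` from `ℂ²`, of dimension at most two, and the inequality follows (rank-nullity; `Z1C` is finite dimensional). Proof of the claim: by `V_vt` it is enough that `ω(e, z (tv e t)) = 0` for all `e, t` with `tv e t ∈ W`; let `e ≠ 0`, `t ≠ 0`. The ring is a principal ideal domain: `e = l • d` with `d` primitive, `d = colG g 0` for some `g : GQ a b`. The class of `g` in `Cusp W` is that of some `g_i`:
there is `x ∈ W` with `x g_i Bor = g Bor`, `g = x g_i k`, `k ∈ Bor`, so `d = u • x d_i`, `u = k₀₀` a unit. So `tv e t = tv (x d_i) t' = x p' x⁻¹`, `t' = (l u)² t`, `p' = tv d_i t' ∈ W` (`V_tv`). `p'` and `p_i` commute: `z p' + p' z p_i = z p_i + p_i z p'`, so `t' ω(d_i, z p_i) d_i = N ω(d_i, z p') d_i`, so `ω(d_i, z p') = 0`. `z (x p' x⁻¹) = x z p' - (x p' x⁻¹ - 1) z x`, the second term is a multiple of `x d_i`, so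
`ω(x d_i, z (x p' x⁻¹)) = ω(d_i, z p') = 0`. -/
def U_ub : Prop := ∀ a b : ℤ, b ^ 2 + 4 * a < 0 → Eu a b → IsPrincipalIdealRing (Qf a b ℤ) →
  ∀ W : Subgroup (GQ a b), W.FiniteIndex → Finite (Cusp W) ∧
    Module.finrank ℂ (Z1C W.subtype) ≤ 2 + Nat.card (Cusp W)

/-- [CG U gr] subgroups of finite index of `F ⋊ ℤ`.

Proof. Let `F_L = L ∩ ker (nR α)`. The kernel of `nR α` is the range of the injective homomorphism `iR α`, so `F_L` is isomorphic to a subgroup of finite index of the free group `F`, which is free (`subgroupIsFreeOfIsFree`) and finitely generated (`Subgroup.fg_of_index_ne_zero` or similar), so `F_L ≅ FreeGroup (Fin n)`. The image of `L` under `nR α` is `k ℤ`, `k ≥ 1` (`t^j ∈ L` for some `j ≥ 1`). Choose `s ∈ L` with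
`nR α s = k`. `α'` is the conjugation with `s` on `F_L`, transported to `FreeGroup (Fin n)`. The homomorphism `GR α' → L` (`liR`: the generators of the free group to those of `F_L`, `t` to `s`) is bijective: every element of `L` is `x s^j` with `x ∈ F_L` in a unique way, and every element of `GR α'` is `iR α' x * tR α' ^ j` (`GR_cases`). -/
def U_gr : Prop := ∀ (ι : Type) [Finite ι] (α : MulAut (FreeGroup ι)) (L : Subgroup (GR α)),
  L.FiniteIndex → ∃ (n : ℕ) (α' : MulAut (FreeGroup (Fin n))), Nonempty (L ≃* GR α')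

/-- [CG U w] the subgroups `W`. (Uses `U_gr`.)

Proof. `W ≤ Gam a b (3 * M) ≤ G₀` (`EtaQ.lev`, `rdq M x = 1` follows from `rdq (3 M) x = 1`, see `gam_le` in `MainP1.lean`). `η` is injective on `W`: an element of the kernel is `± 1` (`EtaQ.ker`), and `-1 ∉ Gam a b (3 * M)` (`-1 ≠ 1` modulo `3`). The image `L` of `W` under `η` has finite index in `GR α`: `W` has finite index in `G₀` and `η.range` has finite index (`EtaQ.fin`; `con_map_index` in `BG/P_con.lean`). `W ≅ L`, `U_gr`. -/
def U_w : Prop := ∀ (a b : ℤ) (ι : Type) [Finite ι] (α : MulAut (FreeGroup ι)) (N : ℕ)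
  (w : ι → List ι) (M : ℕ) (c g : FreeGroup ι) (G₀ : Subgroup (GQ a b)) (η : G₀ →* GR α),
  BG.Dat α N w M c g G₀ η → ∀ W : Subgroup (GQ a b), W ≤ Gam a b (3 * M) → W.FiniteIndex →
  ∃ (n : ℕ) (α' : MulAut (FreeGroup (Fin n))), Nonempty (W ≃* GR α')

/-- the crossed homomorphisms -/
def ZE {G K V : Type} [Group G] [CommRing K] [AddCommGroup V] [Module K V]
    (σ : G →* Module.End K V) : Submodule K (G → V) where
  carrier := {z | ∀ x y, z (x * y) = z x + σ x (z y)}
  add_mem' := by
    intro z z' hz hz' x y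
    simp only [Pi.add_apply]
    rw [hz, hz', map_add]
    abel
  zero_mem' := by
    intro x y
    simp
  smul_mem' := by
    intro c z hz x y
    simp only [Pi.smul_apply]
    rw [hz, smul_add, map_smul]

/-- [CG U ext] the extension of a 2-cocycle.

Proof. `E = V × G` with `(v, x) (w, y) = (v + σ x w + c x y, x y)`. Associativity is the cocycle identity. The neutral element is `(- c 1 1, 1)`: the cocycle identity for `(x, 1, 1)` gives `σ x (c 1 1) = c x 1`, and for `(1, 1, y)`: `c 1 y = c 1 1`. `s x = (0, x)`, `j v = (v - c 1 1, 1)`. A homomorphism `φ : G →* E` with `pr φ = 1` is `x ↦ (f x, x)`, `f (x y) = f x + σ x (f y) + c x y`. -/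
def U_ext : Prop := ∀ (G K V : Type) [Group G] [CommRing K] [AddCommGroup V] [Module K V]
  (σ : G →* Module.End K V) (c : G → G → V),
  (∀ x y z, σ x (c y z) - c (x * y) z + c x (y * z) - c x y = 0) →
  ∃ (E : Type) (_ : Group E) (pr : E →* G) (j : Multiplicative V →* E) (s : G → E),
    Function.Injective j ∧ (∀ u, pr u = 1 ↔ ∃ v, j v = u) ∧ (∀ x, pr (s x) = x) ∧
    (∀ x y, s x * s y = j (Multiplicative.ofAdd (c x y)) * s (x * y)) ∧
    (∀ u v, u * j (Multiplicative.ofAdd v) * u⁻¹ = j (Multiplicative.ofAdd (σ (pr u) v))) ∧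
    ∀ φ : G →* E, (∀ x, pr (φ x) = x) → ∃ f : G → V, ∀ x, φ x = j (Multiplicative.ofAdd (f x)) * s x

/-- [CG U wg] the crossed homomorphisms and the second cohomology of `F ⋊ ℤ`. (Uses `U_ext`.)

Proof. Without loss of generality `G = GR α` (transport along `e`). `F = FreeGroup (Fin n)`, `x_i` the generators, write `σ` also for its restriction to `F`. For `v : Fin n → V` let `z_v : F → V` be the crossed homomorphism with `z_v x_i = v_i` (it exists, `F` is free; linear in `v`). Let `δ : (Fin n → V) × V → (Fin n → V)`, `δ (v, τ) i = τ + σ t (v i) - σ (α x_i) τ - z_v (α x_i)`. (1) The crossed homomorphisms of `GR α` are in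
bijection with the kernel of `δ` (`z ↦ ((z x_i), z t)`): the relation `t x_i = α(x_i) t`. So `dim ZE = dim ker δ = dim V + (n dim V - rank δ)`, and we have to show `|I| ≤ dim ((Fin n → V) / range δ)`. (2) For a 2-cocycle `c` with the extension `E_c` (`U_ext`) let `φ_c : F →* E_c` be the homomorphism with `φ_c x_i = s x_i`, and define `y(c) i ∈ V` by `s t * φ_c x_i * (s t)⁻¹ = j (y i) * φ_c (α x_i)`. It is linear in `c`: for `g ∈ F`
`φ_c g = j (f_c g) * s g` with `f_c (g h) = f_c g + σ g (f_c h) + c g h`, `f_c x_i = 0`; `f_c` is linear in `c` (uniqueness), and `y(c) i = c t x_i - c (α x_i) t - f_c (α x_i)` (compute `s t * s x_i = j (y i) * φ_c (α x_i) * s t`). (3) If `y(c) = δ (v, τ)` then `c` is of the form `σ x (f y) - f (x y) + f x`: the homomorphism `ψ : F →* E_c`, `ψ x_i = j (- v i) * s x_i`, i.e. `ψ g = j (- z_v g) * φ_c g`, and `T = j (- τ) * s t` satisfy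
`T * ψ x_i * T⁻¹ = ψ (α x_i)` (compute: the difference of the two sides is `j` of `y(c) i - δ (v, τ) i`), so there is `φ : GR α →* E_c` with `pr φ = 1` (`liR`; it is the identity on the generators), `φ x = j (f' x) * s x`, `f' (x y) = f' x + σ x (f' y) + c x y`, `f = - f'`. (4) So `l ↦` the class of `y(∑ l_i c_i) = ∑ l_i y(c_i)` is an injective linear map `K^I → (Fin n → V) / range δ`. -/
def U_wg : Prop := ∀ (G : Type) [Group G] (n : ℕ) (α : MulAut (FreeGroup (Fin n)))
  (_ : G ≃* GR α) (K V : Type) [Field K] [AddCommGroup V] [Module K V] [FiniteDimensional K V]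
  (σ : G →* Module.End K V) (I : Type) [Fintype I] (c : I → G → G → V),
  (∀ i x y z, σ x (c i y z) - c i (x * y) z + c i x (y * z) - c i x y = 0) →
  (∀ l : I → K, (∃ f : G → V, ∀ x y, ∑ i, l i • c i x y = σ x (f y) - f (x * y) + f x) → l = 0) →
  Module.finrank K V + Fintype.card I ≤ Module.finrank K (ZE σ)

/-- [CG U lb] the lower bound. (Uses `U_w`, `U_wg`, `L_eis`.)

Proof. `U_w` gives `e : W ≃* GR α'`. `V = Fin 2 → ℂ`, `σ x = Matrix.toLin' (iG x).val` (so `ZE σ` is `Z1C W.subtype`), `I = Cusp W`, `c` from `L_eis` for the level `3 * M` (`M ≠ 0`, `EtaQ.ne`). `U_wg`. -/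
def U_lb : Prop := ∀ (a b : ℤ) (ι : Type) [Finite ι] (α : MulAut (FreeGroup ι)) (N : ℕ)
  (w : ι → List ι) (M : ℕ) (c g : FreeGroup ι) (G₀ : Subgroup (GQ a b)) (η : G₀ →* GR α),
  BG.Dat α N w M c g G₀ η → ∀ W : Subgroup (GQ a b), W ≤ Gam a b (3 * M) → W.FiniteIndex →
  Finite (Cusp W) → 2 + Nat.card (Cusp W) ≤ Module.finrank ℂ (Z1C W.subtype)

/-- [CG U ld] MAIN RESULT: the formula for the dimension. (Uses `V_eu`, `U_ub`, `U_lb`, `E_ar`.)

Proof. `E_ar` (`P_Ear.lean`) gives that the ring is a principal ideal domain, `V_eu` that it is euclidean; `b ^ 2 + 4 * a < 0` by `Dat.neg`. `U_ub`, `U_lb`. -/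
def U_ld : Prop := ∀ (a b : ℤ), Five a b → ∀ (ι : Type) [Finite ι] (α : MulAut (FreeGroup ι)) (N : ℕ)
  (w : ι → List ι) (M : ℕ) (c g : FreeGroup ι) (G₀ : Subgroup (GQ a b)) (η : G₀ →* GR α),
  BG.Dat α N w M c g G₀ η → 3 ≤ 3 * M ∧ LD a b (3 * M)

end

end Pool.Agent.F8.CG
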