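import Pool.Agent.Lib.MP_305fdd_al.F8.CG.DefsV

/-!
# MP_305fdd_al, congruence subgroups: block V, the vanishing theorem

THEOREM (`V_vt`). Let `W` be a subgroup of finite index of `SL₂(ℤ[w])` (one of the five rings), `z : W → ℂ²` a crossed homomorphism with `(p - 1) z p = 0` for all unipotent `p ∈ W`. Then `z` is a coboundary.

The proof. `z` gives a period system (`PS`, functions on `k` with two relations); we show that period systems vanish (`V_pt`). (1) Estimates and the extension to the irrational numbers (`V_gr`, `V_lim`, `V_ext`), equivariance (`V_eqv`). (2) The homogeneous functions `Fu` on `ℂ²` have the defect `Au ω x X`, a function on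
the complex matrices `X`. The function `∑ ω, Au ω x conj (Au ω y)` is invariant under the left action of `SL₂(ℤ[w])` (`V_phi`). Integrate it over the quotient of `{0 < |det X| < 1}` (`V_wt`, `V_wtc`, `V_mpl`, `V_mpr`, `V_cov`, `V_fin`, `V_int`); the integral `h x y` is invariant under right translations with all elements of `SL₂(ℂ)`. (3) By the lemma
`V_ker` it is zero, so the defect is zero almost everywhere (`V_zero`), the functions are affine (`V_aff`), and zero (`V_pt`).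
-/

set_option autoImplicit false

namespace Pool.Agent.F8.CG

open Pool.Agent.F8.BG Pool.Agent.MP_305fdd_al Pool.Agent.Lib.MP_305fdd_al Pool.Agent.F8
open MeasureTheory
open scoped QuadraticAlgebra ENNReal ComplexConjugate

noncomputable section

/-! ## Arithmetic -/

/-- [CG V eu] the five rings are euclidean.

Proof. `wC a b = b / 2 + i √(-D) / 2`, `D = b² + 4 a` (`wC_eq`), `-D = 4, 8, 3, 7, 11`. Let `n = round (2 Im x / √(-D))` and `m = round (Re x - n b / 2)`, `β = m + n w`. Then `|Im (x - β)| ≤ √(-D) / 4`, `|Re (x - β)| ≤ 1 / 2`, so `‖x - β‖² ≤ 11/16 + 1/4 = 15/16 < (31/32)²`. -/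
def V_eu : Prop := ∀ a b : ℤ, Five a b → Eu a b

/-- [CG V gen] `SL₂(ℤ[w])` is generated by the matrices `eU β` and `mS`.

Proof. Let `H` be the closure. Induction on the norm `nq q : ℤ` (`nq_nonneg`; `‖iC q‖² = nq q`) of the lower left entry `q` of `g = [[p, r], [q, s]]`. If `q ≠ 0` let `β` be from `Eu` for `x = iC p / iC q` (`iC q ≠ 0`: `wC_im`); the lower left entry of `mS * eU (-β) * g` is `p - β q`, of smaller norm (`‖iC (p - β q)‖ ≤ 31/32 ‖iC q‖`), so it is in `H`, and `g ∈ H`.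
If `q = 0` then `p s = 1`, `g = diag(p, s) * eU (s r)`. `diag(p, s)` is a product of matrices `eU _` and `eV _`: with `n(u) = eU u * eV (-u⁻¹) * eU u` (`u` a unit) `diag(u, u⁻¹) = n(u) * n(-1)`, and `eV x = mS * eU (-x) * mS⁻¹ ∈ H` (check the sign). -/
def V_gen : Prop := ∀ a b : ℤ, b ^ 2 + 4 * a < 0 → Eu a b →
  Subgroup.closure (Set.range (fun β : Qf a b ℤ => (eU β : GQ a b)) ∪ {mS}) = ⊤

/-! ## Estimates and extension -/

/-- [CG V gr] period systems grow at most linearly.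

Proof. Write `β` for `iC β`. (1) There is `C₁` with `‖A ω β‖ ≤ C₁ (1 + ‖β‖)` for all `β : Qf a b ℤ`: let `N` be from `lin`, `R` the finite set of the `⟨i, j⟩`, `0 ≤ i, j < N`. `β = N β' + β''`, `β'' ∈ R`; by `add` with `x = N β'`: `A ω β = A ω β'' + A ω' (N β')`, and `‖A ω' (N β')‖ = ‖r‖ ‖N β'‖ ≤ ‖r‖ (‖β‖ + ‖β''‖)` (maximum over `ω` and `R`). `A ω 0 = 0` (`add` for `x = 0`, `β = 0`, `eU 0 = 1`),
and `‖β‖ ≥ 1` for `β ≠ 0` (`‖iC β‖² = nq β` is a positive integer), so `‖A ω β‖ ≤ C ‖β‖` with `C = 2 C₁`. (2) Let `θ = 31/32`, `κ = 63` (so `1 + θ + κ θ = κ`; indeed `κ (1 - θ) = 63/32 = 1 + θ`). Claim: `‖A ω x‖ ≤ C (‖x‖ + κ)` for `x ∈ kC`. Induction on `nq q`, `x q = p`, `q ≠ 0`. Choose `β` with `‖x - β‖ ≤ θ`, `y = x - β`, so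
`A ω x = A ω β + A ω' y`, `‖A ω β‖ ≤ C ‖β‖ ≤ C (‖x‖ + θ)`. If `y = 0` we are done (`A ω' 0 = 0`). Otherwise `inv` for `-1/y` gives `A ω' y = - y A ω'' (-1/y)` with `ω'' = mS⁻¹ • ω'`, and `(-1/y) (p - β q) = - q`, `nq (p - β q) < nq q` (`‖p - β q‖ = ‖y‖ ‖q‖`). By induction `‖A ω' y‖ ≤ ‖y‖ C (1/‖y‖ + κ) ≤ C (1 + κ θ)`. The sum is `C (‖x‖ + θ + 1 + κ θ) = C (‖x‖ + κ)`. -/
def V_gr : Prop := ∀ a b : ℤ, b ^ 2 + 4 * a < 0 → Eu a b → ∀ (Ω : Type) [MulAction (GQ a b) Ω]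
  [Finite Ω] (A : Ω → ℂ → ℂ), PS a b A → ∃ C : ℝ, 0 ≤ C ∧ ∀ o, ∀ x ∈ kC a b, ‖A o x‖ ≤ C * (1 + ‖x‖)

/-- [CG V lim] limits at the irrational numbers. (Uses `V_gr`.)

Proof. Let `θ = 31/32`, `Irr = (kC)ᶜ`; `x ∈ Irr` implies `x ± β ∈ Irr`, `-1/x ∈ Irr`, `x ≠ 0` (`kC` is a field). For `η ≥ 0` let `P(η)` be the statement: for all `ω`, all `y ∈ Irr` with `‖y‖ ≤ θ` and all `ε > 0` there is `δ > 0` such that `‖A ω r - A ω r'‖ ≤ η + ε` for all `r, r' ∈ kC` with `‖r - y‖ < δ`, `‖r' - y‖ < δ`. (a) `P(η)` for some `η`: `V_gr`. (b) `P(η)` implies `P(θ η)`: let `y` be given, `x₁ = -1/y`, `β` with `‖x₁ - β‖ ≤ θ`,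
`y₁ = x₁ - β ∈ Irr`. For `r ∈ kC` close to `y` (so `r ≠ 0`): `A ω r = - r A ω' (-1/r)` (`inv`), `A ω' (-1/r) = A ω' β + A ω'' (-1/r - β)` (`add`), and `-1/r - β` is close to `y₁`. So `A ω r - A ω r' = - r (A ω'' s - A ω'' s') - (r - r') A ω' (-1/r')`, `s = -1/r - β`, `s' = -1/r' - β`; the first term is at most `‖r‖ (η + ε')`, the second tends to zero (`V_gr`: `A ω'` is bounded on a bounded set). `‖r‖ → ‖y‖ ≤ θ`.
(c) So `P(θ^n η)` for all `n` and `P(0)`. (d) For `x ∈ Irr` and `β` with `‖x - β‖ ≤ θ`: `A ω r = A ω β + A ω' (r - β)`, so the Cauchy criterion holds at `x`: the map `A ω` along the filter `nhdsWithin x kC` is Cauchy (the filter is not trivial: `kC` is dense, it contains `ℚ + ℚ w`), so it converges. -/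
def V_lim : Prop := ∀ a b : ℤ, b ^ 2 + 4 * a < 0 → Eu a b → ∀ (Ω : Type) [MulAction (GQ a b) Ω]
  [Finite Ω] (A : Ω → ℂ → ℂ), PS a b A → ∀ o, ∀ x ∉ kC a b,
  Filter.Tendsto (A o) (nhdsWithin x (kC a b)) (nhds (tA a b A o x))

/-- [CG V ext] the properties of the extension. (Uses `V_gr`, `V_lim`.)

Proof. `kC` is countable and dense, closed under the field operations. `tA ω` is the limit along `kC` at the points of the complement, so it is continuous on the complement (`continuousOn_extendFrom` for `extendFrom kC (A ω)`, which is equal to `tA ω` on the complement), and it is zero on the countable set `kC`, so it is measurable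
(a function which is continuous on the measurable set `kCᶜ` and constant on its complement: `Measurable.piecewise`, `ContinuousOn.measurable_piecewise`). The estimate is the limit of `V_gr`. The two equations are the limits of `add` and `inv` (the maps `r ↦ r + β`, `r ↦ -1/r` preserve `kC` and are continuous at `x`, `x ≠ 0`). -/
def V_ext : Prop := ∀ a b : ℤ, b ^ 2 + 4 * a < 0 → Eu a b → ∀ (Ω : Type) [MulAction (GQ a b) Ω]
  [Finite Ω] (A : Ω → ℂ → ℂ), PS a b A → (∀ o, ContinuousOn (tA a b A o) (kC a b)ᶜ) ∧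
  (∀ o, Measurable (tA a b A o)) ∧
  (∃ C : ℝ, 0 ≤ C ∧ ∀ o x, ‖tA a b A o x‖ ≤ C * (1 + ‖x‖)) ∧
  (∀ (o : Ω) (β : Qf a b ℤ), ∀ x ∉ kC a b, tA a b A o (x + iC a b β) =
    A o (iC a b β) + tA a b A ((eU β : GQ a b)⁻¹ • o) x) ∧
  (∀ (o : Ω), ∀ x ∉ kC a b, tA a b A ((mS : GQ a b)⁻¹ • o) x = x * tA a b A o (-1 / x))

/-- [CG V eqv] equivariance. (Uses `V_gen`, `V_ext`.)

Proof. Let `H` be the set of the `g` for which the claim holds for all `ω`. For `g = eU β`: `va g e = (e.1 + β e.2, e.2)`, the quotient is `x + β`, `x = e.1 / e.2`, so `Fu ω (va g e) = e.2 (A ω β + tA (g⁻¹ ω) x) = Fu (g⁻¹ ω) e + A ω β e.2`. For `g = mS`: `va g e = (- e.2, e.1)`, the quotient is `-1/x` (`x ≠ 0` as `0 ∈ kC`), and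
`e.1 tA ω (-1/x) = e.2 x tA ω (-1/x) = e.2 tA (g⁻¹ ω) x`. Products: `Fu ω (va g (va h e)) = Fu (g⁻¹ ω) (va h e) + linear = Fu (h⁻¹ g⁻¹ ω) e + linear`. Inverses: apply the claim for `g` to `va g⁻¹ e` and `g ω`, after having shown that `va g⁻¹` preserves `Ir`; for this it is easier to prove separately that `va g` preserves `Ir` for all `g`: `Ir e` means that no nontrivial combination
`p e.1 + q e.2`, `p, q` in the ring, is zero, and `g` is invertible over the ring. Or use that the inverses of the generators are also of the form treated above: `(eU β)⁻¹ = eU (-β)`, `mS⁻¹ = - mS = mS ^ 3`, so that `H`, a submonoid which contains the generators and their inverses, is everything (`Subgroup.closure_toSubmonoid` or `Subgroup.closure_induction''`). -/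
def V_eqv : Prop := ∀ a b : ℤ, b ^ 2 + 4 * a < 0 → Eu a b → ∀ (Ω : Type) [MulAction (GQ a b) Ω]
  [Finite Ω] (A : Ω → ℂ → ℂ), PS a b A → ∀ (g : GQ a b) (o : Ω), ∃ c d : ℂ,
  ∀ e : ℂ × ℂ, Ir a b e → Ir a b (va g e) ∧
    Fu a b A o (va g e) = Fu a b A (g⁻¹ • o) e + c * e.1 + d * e.2

/-! ## The measure -/

/-- [CG V wt] invariant measures on quotients.

Proof. `ν = μ.withDensity w`, `w x = S.indicator 1 x * (m x)⁻¹`, `m x = ∑' g, S.indicator 1 (act g x)`. `m (act g x) = m x`, so `∑' g, w (act g x) = m x * (m x)⁻¹ = 1` almost everywhere. (1) Unfolding: `∫⁻ f (R x) ∂ν = ∫⁻ f (R x) w x ∂μ = ∫⁻ f (R x) w x (∑' g, w (act g (R x))) ∂μ = ∑' g, ∫⁻ f (R x) w x w (act g (R x)) ∂μ` (`lintegral_tsum`).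
In the term of `g` substitute `x = R' (act g⁻¹ y)`, `y = act g (R x)` (`act g` and `R` preserve `μ`, and they are inverse to `act g⁻¹`, `R'`): it is `∫⁻ f (act g⁻¹ y) w (R' (act g⁻¹ y)) w y ∂μ = ∫⁻ f y w (act g⁻¹ (R' y)) w y ∂μ`. The sum over `g` is `∫⁻ f y w y ∂μ`. (`R'` commutes with `act` because `R` does.) (2) If `∫⁻ f ∂ν = 0` then `f w = 0` almost everywhere, so
`f (act g x) w (act g x) = 0`, `f x w (act g x) = 0` almost everywhere for all `g` (`act g` preserves `μ`), and the sum over `g` is `f x = 0`. -/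
def V_wt : Prop := ∀ (M Γ : Type) [MeasurableSpace M] [Group Γ] [Countable Γ] (act : Γ → M → M)
  (μ : Measure M) [SFinite μ] (S : Set M), (∀ x, act 1 x = x) →
  (∀ g h x, act (g * h) x = act g (act h x)) → (∀ g, MeasurePreserving (act g) μ μ) →
  MeasurableSet S → (∀ᵐ x ∂μ, (∑' g : Γ, S.indicator 1 (act g x) : ℝ≥0∞) ≠ 0 ∧
    (∑' g : Γ, S.indicator 1 (act g x) : ℝ≥0∞) ≠ ⊤) →
  (∀ R R' : M → M, MeasurePreserving R μ μ → MeasurePreserving R' μ μ → (∀ x, R (R' x) = x) →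
    (∀ x, R' (R x) = x) → (∀ g x, R (act g x) = act g (R x)) → ∀ f : M → ℝ≥0∞, Measurable f →
    (∀ g, ∀ᵐ x ∂μ, f (act g x) = f x) →
    ∫⁻ x, f (R x) ∂(μ.withDensity fun x => S.indicator 1 x * (∑' g : Γ, S.indicator 1 (act g x))⁻¹) =
    ∫⁻ x, f x ∂(μ.withDensity fun x => S.indicator 1 x * (∑' g : Γ, S.indicator 1 (act g x))⁻¹)) ∧
  ∀ f : M → ℝ≥0∞, Measurable f → (∀ g, ∀ᵐ x ∂μ, f (act g x) = f x) →
    ∫⁻ x, f x ∂(μ.withDensity fun x => S.indicator 1 x * (∑' g : Γ, S.indicator 1 (act g x))⁻¹) = 0 →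
    ∀ᵐ x ∂μ, f x = 0

/-- [CG V wtc] complex functions.

Proof. For real functions decompose `f` into the positive and the negative part (`integral_eq_lintegral_pos_part_sub_lintegral_neg_part`, or `integral_eq_lintegral_of_nonneg_ae`), for complex functions into the real and the imaginary part. The parts of a measurable `f` with `P f` satisfy `P`. Integrability of `f ∘ R`: the integral of the norm (`HasFiniteIntegral`). -/
def V_wtc : Prop := ∀ (M Γ : Type) [MeasurableSpace M] (act : Γ → M → M) (μ ν : Measure M)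
  (R : M → M), Measurable R → (∀ f : M → ℝ≥0∞, Measurable f → (∀ g, ∀ᵐ x ∂μ, f (act g x) = f x) →
    ∫⁻ x, f (R x) ∂ν = ∫⁻ x, f x ∂ν) → ∀ f : M → ℂ, Measurable f →
  (∀ g, ∀ᵐ x ∂μ, f (act g x) = f x) → Integrable f ν →
  Integrable (fun x => f (R x)) ν ∧ ∫ x, f (R x) ∂ν = ∫ x, f x ∂ν

/-- [CG V mpl] the left action preserves the measure.

Proof. `ac g` preserves the determinant (`dX (ac g X) = dX X`), and it is a linear map; it is enough to show that it preserves `volume` on `(ℂ × ℂ) × (ℂ × ℂ)` (`MeasurePreserving.restrict_preimage`). The set of the matrices `m` in `SL₂(ℂ)` for which `X ↦ (m₀₀ • X.1 + m₀₁ • X.2, m₁₀ • X.1 + m₁₁ • X.2)` preserves `volume` is closed under products. It contains `[[1, c], [0, 1]]` and `[[1, 0], [c, 1]]`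
(`MeasurePreserving.skew_product` and translation invariance on `ℂ × ℂ`; for the first one conjugate with the exchange of the rows, `MeasurePreserving.swap`), and every matrix in `SL₂(ℂ)` is a product of such matrices: if `m₁₀ = c ≠ 0` then `m = [[1, (m₀₀ - 1)/c], [0, 1]] [[1, 0], [c, 1]] [[1, (m₁₁ - 1)/c], [0, 1]]`, and otherwise multiply first with `[[1, 0], [1, 1]]` from the left. -/
def V_mpl : Prop := ∀ (a b : ℤ) (g : GQ a b), MeasurePreserving (ac g) mu0 mu0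

/-- [CG V mpr] the right translations preserve the measure.

Proof. They preserve the determinant, and they act on each row separately: `MeasurePreserving.prod` (or `prodMap`); on `ℂ × ℂ`: the shear `(x, y) ↦ (x, y + c x)` (`MeasurePreserving.skew_product`), `(x, y) ↦ (y, -x)`, and `(x, y) ↦ (l x, l⁻¹ y)`: the map `x ↦ l x` multiplies `volume` on `ℂ` with a constant `κ(l)`, `κ(l) κ(l⁻¹) = 1` (`κ(l) = |l|²` up to inversion; or use that the product map
is a composition of shears: `diag(l, l⁻¹)` is a product of elementary matrices, see `V_mpl`). -/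
def V_mpr : Prop := (∀ c : ℂ, MeasurePreserving (rU c) mu0 mu0) ∧
  (∀ l : ℂ, l ≠ 0 → MeasurePreserving (rD l) mu0 mu0) ∧ MeasurePreserving rS mu0 mu0

/-- [CG V nul] almost all vectors are irrational. (Uses `V_mpr`.)

Proof. `kC` is countable. `{e | ¬ Ir e}` is the union of the sets `{e.2 = 0}` and `{e.1 = c e.2}`, `c ∈ kC`, which have measure zero in `ℂ × ℂ` (`Measure.addHaar_submodule`, or Fubini). The preimages of a null set under `X ↦ col1 X`, `X ↦ col2 X`, `X ↦ x • col1 X + col2 X` are null sets: for `col2` it is a projection after a permutation of the coordinates;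
the last one is `col2` after the measure preserving map `rU x`. -/
def V_nul : Prop := ∀ a b : ℤ, b ^ 2 + 4 * a < 0 → ∀ x : ℂ, ∀ᵐ X ∂mu0,
  Ir a b (col1 X) ∧ Ir a b (col2 X) ∧ Ir a b (x • col1 X + col2 X)

/-- [CG V cov] the Siegel set.

Proof. (1) Measurability: `Sg` is defined by inequalities between continuous functions. (2) Covering: let `dX X ≠ 0`, `r(c, d) = c • X.1 + d • X.2` for `c, d` in the ring (embedded by `iC`), `‖·‖` the euclidean norm on `ℂ²`. There is `κ > 0` with `‖r(c, d)‖ ≥ κ (|c| + |d|)` (`X` is invertible), so for every `B` there are only finitely many `(c, d)` with `‖r(c, d)‖ ≤ B` (finitely many elements `c` of the ring with `|c| ≤ B / κ`: `wC_im`). Choose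
`(c, d) ≠ 0` with minimal `‖r(c, d)‖`. Then `c, d` are coprime: the ring is a principal ideal domain (`Eu` gives a euclidean algorithm; or take a hypothesis `IsPrincipalIdealRing`, which is in the statement), `(c, d) = h (c', d')`, `‖r(c, d)‖ = |h| ‖r(c', d')‖`, so `|h| ≤ 1`, `h` is a unit. So there is `g` with the second row `(c, d)`. Let `Y = ac g X`; `⟨Y.1, Y.2⟩ = Y.1.1 conj Y.2.1 + Y.1.2 conj Y.2.2`. By `Eu` there is `β`
with `‖⟨Y.1, Y.2⟩ / nr Y - β‖ ≤ 31/32`; replace `g` by `eU (-β) * g`: then `‖⟨Y.1, Y.2⟩‖ ≤ 31/32 nr Y`. By the identity `(‖Y.1.1‖² + ‖Y.1.2‖²) nr Y = ‖⟨Y.1, Y.2⟩‖² + ‖dX Y‖²` and minimality (`‖Y.1.1‖² + ‖Y.1.2‖² ≥ nr Y`): `(nr Y)² ≤ (31/32)² (nr Y)² + ‖dX Y‖²`, so `nr Y ≤ 5 ‖dX Y‖` (`(32²/63) ≤ 25`). (3) Finiteness: if `ac g X ∈ Sg`, `g = [[p, q], [c, d]]`,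
then `‖r(c, d)‖² ≤ 5 ‖dX X‖`, so there are finitely many `(c, d)`, and by the identity `‖r(p, q)‖² ≤ (31/32)² nr + ‖dX X‖² / nr` with `nr = ‖r(c, d)‖²` one of finitely many positive numbers, so there are finitely many `(p, q)`. -/
def V_cov : Prop := ∀ a b : ℤ, b ^ 2 + 4 * a < 0 → Eu a b → IsPrincipalIdealRing (Qf a b ℤ) →
  MeasurableSet Sg ∧ ∀ X : MM, dX X ≠ 0 → (∃ g : GQ a b, ac g X ∈ Sg) ∧
    {g : GQ a b | ac g X ∈ Sg}.Finite

/-- [CG V int] integrability on the Siegel set.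

Proof. Fubini for `X = (X.1, X.2)`: fix `X.2 = (c, d) ≠ 0`, `n = |c|² + |d|²`; in the Siegel set with `‖dX‖ < 1` we have `n ≤ 5`. The linear map `L : ℂ² → ℂ²`, `(x, y) ↦ (u, v) = (x d - y c, x conj c + y conj d)` has the complex determinant `n`, so it multiplies the volume with `n²` (`MeasureTheory.Measure.addHaar_preimage_linearMap`; or write it as `√n` times a unitary map). The slice is contained in `L⁻¹ {|u| < 1, |v| ≤ n}`, of
volume at most `n⁻² π (π n²) = π²`. On the slice `|x|² + |y|² = (|u|² + |v|²) / n ≤ 1/n + n`, so the integrand is at most `1/n + 2 n`. So the integral is at most `∫ π² (1/n + 2 n)` over `{n ≤ 5} ⊆ ℂ²`, and `1/n ≤ 1 / (|c| |d|)`; `∫_{|c| ≤ 3} |c|⁻¹ < ∞` (polar coordinates, `Complex.lintegral_comp_polarCoord_symm`, or sum over the annuli `2^-k-1 < |c| / 3 ≤ 2^-k`). -/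
def V_int : Prop := ∫⁻ X in Sg, ENNReal.ofReal (‖X.1.1‖ ^ 2 + ‖X.1.2‖ ^ 2 + ‖X.2.1‖ ^ 2 +
  ‖X.2.2‖ ^ 2) ∂mu0 < ⊤

/-- [CG V num] the measure `nuM`. (Uses `V_wt`, `V_wtc`, `V_mpl`, `V_mpr`, `V_cov`, `V_int`.)

Proof. `V_wt` for `M = MM`, `act = ac`, `μ = mu0`, `S = Sg` (`V_cov`; `ac_mul`, `ac_one`; `mlt X` is the number of the `g` with `ac g X ∈ Sg`; `mu0`-almost all `X` have `dX X ≠ 0`), `R = rU c` with `R' = rU (-c)`, `R = rD l` with `R' = rD l⁻¹`, `R = rS` with `R' = rS ∘ rS ∘ rS` (`ac_rU`, `ac_rD`, `ac_rS`), then `V_wtc`. The density of `nuM` is at most the indicator function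
of `Sg` (`mlt X ≥ 1` on `Sg`: the term of `g = 1`), so `V_int` gives the last claim. -/
def V_num : Prop := ∀ a b : ℤ, b ^ 2 + 4 * a < 0 → Eu a b → IsPrincipalIdealRing (Qf a b ℤ) →
  (∀ f : MM → ℂ, Measurable f → InvA a b f → Integrable f (nuM a b) →
    (∀ c : ℂ, ∫ X, f (rU c X) ∂(nuM a b) = ∫ X, f X ∂(nuM a b)) ∧
    (∀ l : ℂ, l ≠ 0 → ∫ X, f (rD l X) ∂(nuM a b) = ∫ X, f X ∂(nuM a b)) ∧
    ∫ X, f (rS X) ∂(nuM a b) = ∫ X, f X ∂(nuM a b)) ∧
  (∀ f : MM → ℝ≥0∞, Measurable f → InvA a b f → ∫⁻ X, f X ∂(nuM a b) = 0 → ∀ᵐ X ∂mu0, f X = 0) ∧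
  Integrable (fun X : MM => ‖X.1.1‖ ^ 2 + ‖X.1.2‖ ^ 2 + ‖X.2.1‖ ^ 2 + ‖X.2.2‖ ^ 2) (nuM a b)

/-! ## The theorem -/

/-- [CG V ker] a lemma on kernels.

Proof. `c = h 1 1` is real, `h x x = ‖x‖ c` (`μ = x`; `h 0 0 = 0`). The third hypothesis for `x - y`, `x - y`, `b = y`: `2 Re (h x y) = c (‖x‖ + ‖y‖ - ‖x - y‖)`. Let `J = Im h`; `J y x = - J x y`, `J 0 y = 0`, and `T p q r = J (q - p) (r - p)` satisfies `T p q r = J p q + J q r + J r p` (third hypothesis with `b = p`), and `J (μ x) (μ y) = ‖μ‖ J x y`. Let `j = J 1 i`. With `m = (1 + i)/2`: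
`T 0 1 (1+i) = J 1 (1+i)`, and by the cyclic symmetry of `T` it is `T (1) (1+i) 0 = J i (-1) = j` (`μ = i`). `T 0 (1+i) i = J (1+i) i` and it is `T i 0 (1+i) = J (-i) 1 = j` (`μ = -i`). The four numbers `T m 0 1 = J (-m) (1-m)`, `T m 1 (1+i)`, `T m (1+i) i`, `T m i 0` are `‖m‖ j` (`μ = -m`, `1-m`, `m`, `i-m`: the second argument is `i` times the first), `‖m‖ = 1/√2`, and their sum is
`J 0 1 + J 1 (1+i) + J (1+i) i + J i 0 = 2 j`. So `4 j / √2 = 2 j`, `j = 0`. The last hypothesis: `h 1 i = - i h (-1) i` (`-1/i = i`), and `h (-1) i = conj (h i (-1)) = conj (h 1 i) = h 1 i` (`μ = i`, `j = 0`). So `h 1 i = 0`, but `2 Re (h 1 i) = c (2 - √2)`. -/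
def V_ker : Prop := ∀ h : ℂ → ℂ → ℂ, (∀ x y, h y x = conj (h x y)) → (∀ y, h 0 y = 0) →
  (∀ x y b, h x y = h (x + b) (y + b) - h b (y + b) - h (x + b) b + h b b) →
  (∀ μ x y, μ ≠ 0 → h (μ * x) (μ * y) = ‖μ‖ * h x y) →
  (∀ x y, x ≠ 0 → y ≠ 0 → h x y = x * conj y * h (-1 / x) (-1 / y)) → h 1 1 = 0

open Classical in
/-- [CG V phi] the invariant function. (Uses `V_ext`, `V_eqv`, `V_mpl`, `V_nul`.)

Proof. (1) For `X` as in `V_nul` (for `x` and for `y`) and `g`: `c_i (ac g X) = va g (c_i X)` (`col1_ac`, `col2_ac`, `va_lin`), so by `V_eqv` for the vectors `x • col1 X + col2 X`, `col1 X`, `col2 X`: `Au ω x (ac g X) = Au (g⁻¹ ω) x X` (the linear terms cancel). Sum over `ω`. (2) Measurability: `tA`, `Fu`, `Au` are measurable in `X`. (3) `‖Fu ω e‖ ≤ C (‖e.1‖ + ‖e.2‖)` (if `e.2 = 0` it is zero), so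
`‖Au ω x X‖² ≤ C' (‖X.1.1‖² + ‖X.1.2‖² + ‖X.2.1‖² + ‖X.2.2‖²)`. -/
def V_phi : Prop := ∀ a b : ℤ, b ^ 2 + 4 * a < 0 → Eu a b → ∀ (Ω : Type) [MulAction (GQ a b) Ω]
  [Fintype Ω] (A : Ω → ℂ → ℂ), PS a b A → ∀ x y : ℂ,
  InvA a b (fun X => ∑ o, Au a b A o x X * conj (Au a b A o y X)) ∧
  (∀ o, Measurable (Au a b A o x)) ∧
  ∃ C : ℝ, ∀ o X, ‖Au a b A o x X‖ ^ 2 ≤
    C * (‖X.1.1‖ ^ 2 + ‖X.1.2‖ ^ 2 + ‖X.2.1‖ ^ 2 + ‖X.2.2‖ ^ 2)

/-- [CG V zero] the defect is zero. (Uses `V_num`, `V_ker`, `V_phi`.)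

Proof. `h x y = ∫ ∑ ω, Au ω x X * conj (Au ω y X) ∂nuM`; integrable by the estimate of `V_phi` and `V_num` (`2 ‖u v‖ ≤ ‖u‖² + ‖v‖²`). The hypotheses of `V_ker`: the first is clear, the second is `Au_zero`. Third: `Au_rU` and `V_num` (`rU b`), expand (linearity of the integral, all terms are integrable). Fourth: let `l² = μ`; `Au_rD`: `h x y = ‖l‖⁻² h (l² x) (l² y)`, `‖l‖² = ‖μ‖`. Fifth: `Au_rS`. So `h 1 1 = 0`:
the integral of the nonnegative invariant function `∑ ω, ‖Au ω 1 X‖²` is zero, and by `V_num` this function is zero `mu0`-almost everywhere. -/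
def V_zero : Prop := ∀ a b : ℤ, b ^ 2 + 4 * a < 0 → Eu a b → IsPrincipalIdealRing (Qf a b ℤ) →
  ∀ (Ω : Type) [MulAction (GQ a b) Ω] [Finite Ω] (A : Ω → ℂ → ℂ), PS a b A →
  ∀ o, ∀ᵐ X ∂mu0, Au a b A o 1 X = 0

/-- [CG V aff] the extension is affine. (No hypotheses.)

Proof. `F = Fu ω`. (1) Let `X` be a matrix such that `col1 X`, `col2 X`, `col1 X + col2 X` are irrational and `0 < ‖dX X‖ < 1`. Then `Au ω 1 X = 0`: let `G` be the set of all such matrices; its complement in `{0 < ‖dX‖ < 1}` is a null set (`V_nul`, in the hypotheses), and `X ↦ Au ω 1 X` is continuous on `G` (`tA` is continuous on the complement of `kC`). If `Au ω 1 X ≠ 0` then it is not zero on `G ∩ U` for an open neighbourhood `U` of `X` in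
`{0 < ‖dX‖ < 1}`, but `U` has positive measure, and almost all elements of `U` are in `G` and are zeros of `Au ω 1`. (2) So `F (e + e') = F e + F e'` for all irrational `e, e'` with irrational `e + e'` and `det (e, e') ≠ 0`: multiply `e, e'` with a small real number `t` (`Fu_smul`; `Ir` does not change). (3) Choose irrational `x ≠ y` (`kC` is countable). For irrational `z ≠ x, y` let `p = (z - y)/(x - y)`, `q = 1 - p`,
`e = (p x, p)`, `e' = (q y, q)`; `e + e' = (z, 1)`, `det = p q (x - y) ≠ 0`. So `tA z = p tA x + q tA y`. This is an affine function of `z`, and it is true also for `z = x, y`. -/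
def V_aff : Prop := ∀ a b : ℤ, b ^ 2 + 4 * a < 0 →
  (∀ᵐ X ∂mu0, Ir a b (col1 X) ∧ Ir a b (col2 X) ∧ Ir a b ((1 : ℂ) • col1 X + col2 X)) →
  ∀ (Ω : Type) (A : Ω → ℂ → ℂ) (o : Ω), ContinuousOn (tA a b A o) (kC a b)ᶜ →
  (∀ᵐ X ∂mu0, Au a b A o 1 X = 0) → ∃ α β : ℂ, ∀ z ∉ kC a b, tA a b A o z = α * z + β

/-- [CG V pt] MAIN RESULT on period systems. (Uses `V_nul`, `V_ext`, `V_zero`, `V_aff`.)

Proof. `tA ω x = α_ω x + β_ω` for irrational `x`. The equations of `V_ext` (for all irrational `x`; there are at least two): `α_ω = α_ω'` and `A ω γ = α_ω γ + β_ω - β_ω'` for `ω' = (eU γ)⁻¹ ω`, `γ` in the ring; `α_ω'' = β_ω`, `β_ω'' = - α_ω` for `ω'' = mS⁻¹ ω`. Let `N` be from `lin`, `N' = N k`, `k ≥ 1` such that all `eU (k γ) = (eU γ) ^ k` act trivially on `Ω` (`k = (#Ω)!`, or the order of the group of permutations of `Ω`). Then `A ω (N' γ) = α_ω N' γ`, and it is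
`r conj (N' γ)`: `γ = 1` gives `α_ω = r`, `γ = w` gives `α_ω wC = r conj wC`, so `α_ω = 0` (`wC_im`). So all `α`, `β` are zero, and `A ω γ = 0` for all `γ` in the ring. Then `A ω x = 0` for all `x ∈ kC` by the induction in the proof of `V_gr` (part (2)): `A ω x = A ω β + A ω' y`, `A ω' y = - y A ω'' (-1/y)`. -/
def V_pt : Prop := ∀ a b : ℤ, b ^ 2 + 4 * a < 0 → Eu a b → IsPrincipalIdealRing (Qf a b ℤ) →
  ∀ (Ω : Type) [MulAction (GQ a b) Ω] [Finite Ω] (A : Ω → ℂ → ℂ), PS a b A →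
  ∀ o, ∀ x ∈ kC a b, A o x = 0

/-- [CG V tv] transvections.

Proof. Entries. `tv e s v = v + s ω(e, v) e`, `ω(g e, g v) = ω(e, v)` as `det g = 1`. -/
def V_tv : Prop := ∀ (R : Type) [CommRing R] (e : Fin 2 → R) (s t : R),
  (∀ v, (tv e t).val.mulVec v = v + (t * om e v) • e) ∧ tv e (s + t) = tv e s * tv e t ∧
  (∀ g : SL2 R, g * tv e t * g⁻¹ = tv (g.val.mulVec e) t) ∧
  (∀ l : R, tv (l • e) t = tv e (l ^ 2 * t)) ∧ tv ![1, 0] t = eU t ∧
  ∀ (g : SL2 R) v, om (g.val.mulVec e) (g.val.mulVec v) = om e v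

/-- the vector of the ring as a complex vector -/
def vC (a b : ℤ) (e : Fin 2 → Qf a b ℤ) : Fin 2 → ℂ := fun i => iC a b (e i)

/-- The homogeneous function of a crossed homomorphism. -/
structure HF {a b : ℤ} (W : Subgroup (GQ a b)) (z : W → Fin 2 → ℂ)
    (f : (Fin 2 → Qf a b ℤ) → ℂ) : Prop where
  /-- homogeneous -/
  hom : ∀ l e, f (l • e) = iC a b l * f e
  /-- equivariant -/
  eqv : ∀ (x : W) e, f (x.val.val.mulVec e) =
    f e - om (vC a b (x.val.val.mulVec e)) (z x)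
  /-- the values on the unipotent elements -/
  uni : ∃ N : ℕ, N ≠ 0 ∧ ∀ e : Fin 2 → Qf a b ℤ, e ≠ 0 → ∃ r : ℂ, ∀ β : Qf a b ℤ,
    ∃ h : tv e (N * β) ∈ W, z ⟨_, h⟩ = (iC a b (N * β) * f e + conj (iC a b (N * β)) * r) • vC a b e

/-- [CG V hf] the homogeneous function. (Uses `V_tv`.)

Proof. `N = (index of W)!`: then `tv e (N β) = (tv e β) ^ N ∈ W` for all `e`, `β` (`Subgroup.pow_mem_of_index_ne_zero_of_dvd`). Write `β` for `iC β`. Let `e ≠ 0`, `p = tv e (N β) ∈ W`. `(p - 1) v = N β ω(e, v) e` (over `ℂ`), so the hypothesis on `z` gives `ω(e, z p) = 0` (for `β ≠ 0`; `z 1 = 0` for `β = 0`), so `z p = c β • e` for a number `c β`, additive in `β` (`p e = e`). So `c β = r₀ β + r₁ conj β` with unique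
`r₀`, `r₁` (solve for `β = 1`, `β = w`; `wC_im`). `f e = r₀ / N`, `f 0 = 0`. Homogeneity (`l ≠ 0`): `tv (l e) (N β) = tv e (N l² β)`, so `c_(l e) β • l e = c_e (l² β) • e`, `r₀(l e) = l r₀(e)`. Equivariance, for `x ∈ W`: `tv (x e) (N β) = x tv e (N β) x⁻¹`, and `z (x p x⁻¹) = x z p - (x p x⁻¹ - 1) z x` (crossed homomorphism), which is `c_e β • x e - N β ω(x e, z x) • x e`; so
`r₀(x e) = r₀(e) - N ω(x e, z x)`. For `e = 0` both sides are zero. -/
def V_hf : Prop := ∀ a b : ℤ, b ^ 2 + 4 * a < 0 → ∀ W : Subgroup (GQ a b), W.FiniteIndex →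
  ∀ z ∈ Z1C W.subtype, (∀ (e : Fin 2 → Qf a b ℤ) (t : Qf a b ℤ) (h : tv e t ∈ W),
    om (vC a b e) (z ⟨_, h⟩) = 0) → ∃ f, HF W z f

/-- [CG V vt] MAIN RESULT of block V, the vanishing theorem. (Uses `V_pt`, `V_tv`, `V_hf`.)

Proof. `f` from `V_hf`. `Ω = GQ a b ⧸ W`. For `g : GQ a b`, `p, q` in the ring, `q ≠ 0` let `T g p q = f (p g e₁ + q g e₂) - p f (g e₁) - q f (g e₂)` (`e₁ = (1, 0)`, `e₂ = (0, 1)`, `g e₁`, `g e₂` the columns of `g`). `T (x g) p q = T g p q` for `x ∈ W` (`eqv`: the terms `ω(.., z x)` are linear and cancel). `T g (l p) (l q) = l T g p q`, so for `x ∈ kC`, `x q = p`, the number `A ω x = T g p q / q`, `ω` the class of `g⁻¹`, does not depend on the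
choice of `g`, `p`, `q` (put `A ω x = 0` for `x ∉ kC`). `PS`: `add`: `x = p/q`, `g' = g * eU β` has the columns `g e₁`, `g e₂ + β g e₁`, and its inverse has the class `(eU β)⁻¹ • ω`; `T g (p + β q) q / q = T g β 1 + T g' p q / q` by definition. `inv`: `g' = g * mS` has the columns `g e₂`, `- g e₁`: `T g' p q = f (p g e₂ - q g e₁) - p f (g e₂) + q f (g e₁) = T g (-q) p`, so `A (mS⁻¹ • ω) x = T g (-q) p / q = x A ω (-1/x)`.
`lin`: `p = tv (g e₁) (N β) ∈ W`, `p (g e₂) = g e₂ + N β g e₁` (`ω(g e₁, g e₂) = 1`), so by `eqv` and `uni`: `f (g e₂ + N β g e₁) = f (g e₂) - ω(g e₂ + N β g e₁, z p) = f (g e₂) + (N β f (g e₁) + conj (N β) r)`, `T g (N β) 1 = conj (N β) r`. By `V_pt`: `T 1 p q = 0` for `q ≠ 0`, and for `q = 0` it is zero by homogeneity. So `f e = e₀ f e₁ + e₁ f e₂ = ω(e, v)` for `v = (- f e₂, f e₁)`. `eqv`: `ω(x e, v) = ω(e, v) - ω(x e, z x)`,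
`ω(e, v) = ω(x e, x v)`, so `ω(x e, z x - (x v - v)) = 0` for all `e`, and `z x = x v - v`. -/
def V_vt : Prop := ∀ a b : ℤ, b ^ 2 + 4 * a < 0 → Eu a b → IsPrincipalIdealRing (Qf a b ℤ) →
  ∀ W : Subgroup (GQ a b), W.FiniteIndex →
  ∀ z ∈ Z1C W.subtype, (∀ (e : Fin 2 → Qf a b ℤ) (t : Qf a b ℤ) (h : tv e t ∈ W),
    om (vC a b e) (z ⟨_, h⟩) = 0) →
  ∃ v : Fin 2 → ℂ, ∀ x : W, z x = (iG a b x.val).val.mulVec v - v

end

end Pool.Agent.F8.CG
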