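import Pool.Agent.Lib.MP_305fdd_al.F8.CG.StmL
import Pool.Agent.Lib.MP_305fdd_al.F8.CG.StmV
import Pool.Agent.Lib.MP_305fdd_al.F8.CG.StmCC
import Pool.Agent.Lib.MP_305fdd_al.F8.CG.DefsZ
import Pool.Agent.Lib.MP_305fdd_al.F8.CG.StmU

/-!
# MP_305fdd_al, congruence subgroups: definitions for block S (the sign)

A vector `e` over `ℤ[w]` is primitive (`Prm e`) if it is the first column of a matrix in `SL₂(ℤ[w])`. `uD m T e t` is the transvection `tv e (T t)`, as an element of `Γ(m)`, `m ∣ T`. For a crossed homomorphism `z` of `Γ(N)` with values in `K²` (`Z1S`, `f : ℤ[w] → K`) `BV` is the number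
`ω(e, z(tv e N))`, `RV` the vector `w z(tv e N) - z(tv e (N w))`. `SF F r`: the function `F` on the vectors is the function `e ↦ ω(e, z(tv e t)) / t` of a crossed homomorphism `z` of some `Γ(N)` with values in `ℂ²`, and `z(eU t) = (r₀ t + r conj t, 0)`.
`Ps m Ψ`: `Ψ : NatBij Γ(m) Γ(m)` is locally a conjugation with elements of `SL₂(ℤ[w])`. `VD Ψ θ T e e'`: the elements `tv e (T t)` of the first group `Γ(m)` correspond to the elements `tv e' (T t)` of the second group, in the finite quotient `θ`.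
-/

set_option autoImplicit false

namespace Pool.Agent.F8.CG

open Pool.Agent.F8.BG Pool.Agent.MP_305fdd_al Pool.Agent.Lib.MP_305fdd_al Pool.Agent.F8
open scoped QuadraticAlgebra ComplexConjugate

noncomputable section

variable {a b : ℤ}

/-- primitive vectors -/
def Prm (e : Fin 2 → Qf a b ℤ) : Prop := ∃ g : GQ a b, colG g 0 = e

/-- congruent vectors -/
def Cgr (N : ℕ) (e f : Fin 2 → Qf a b ℤ) : Prop := ∀ i, (N : Qf a b ℤ) ∣ e i - f i

theorem Qfm_natCast (N : ℕ) (x : Qf a b ℤ) :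
    Qfm a b (Int.castRingHom (ZMod N)) ((N : Qf a b ℤ) * x) = 0 := by
  rw [map_mul, map_natCast]
  have h : ((N : ℕ) : Qf a b (ZMod N)) = 0 := by
    ext
    · simp
    · simp
  rw [h, zero_mul]

theorem tv_zero_aux {R : Type} [CommRing R] (e : Fin 2 → R) : tv e (0 : R) = 1 := by
  apply Subtype.ext
  show (!![1 - 0 * e 0 * e 1, 0 * e 0 ^ 2; -(0 * e 1 ^ 2), 1 + 0 * e 0 * e 1] :
    Matrix (Fin 2) (Fin 2) R) = 1
  ext i j
  fin_cases i <;> fin_cases j <;> simp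

theorem SLm_tv {R S : Type} [CommRing R] [CommRing S] (f : R →+* S) (e : Fin 2 → R) (t : R) :
    SLm f (tv e t) = tv (fun i => f (e i)) (f t) := by
  apply Subtype.ext
  show ((!![1 - t * e 0 * e 1, t * e 0 ^ 2; -(t * e 1 ^ 2), 1 + t * e 0 * e 1] :
    Matrix (Fin 2) (Fin 2) R)).map f = !![1 - f t * f (e 0) * f (e 1), f t * f (e 0) ^ 2;
      -(f t * f (e 1) ^ 2), 1 + f t * f (e 0) * f (e 1)]
  ext i j
  fin_cases i <;> fin_cases j <;> simp

theorem tv_mem {m T : ℕ} (h : m ∣ T) (e : Fin 2 → Qf a b ℤ) (t : Qf a b ℤ) :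
    tv e ((T : Qf a b ℤ) * t) ∈ Gam a b m := by
  obtain ⟨c, rfl⟩ := h
  show SLm (Qfm a b (Int.castRingHom (ZMod m))) (tv e _) = 1
  rw [SLm_tv, Nat.cast_mul, mul_assoc, Qfm_natCast, tv_zero_aux]

theorem eU_eq_tv {R : Type} [CommRing R] (t : R) : (eU t : SL2 R) = tv ![1, 0] t := by
  apply Subtype.ext
  show (!![1, t; 0, 1] : Matrix (Fin 2) (Fin 2) R) = !![1 - t * (![1, 0] : Fin 2 → R) 0 *
    (![1, 0] : Fin 2 → R) 1, t * (![1, 0] : Fin 2 → R) 0 ^ 2;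
      -(t * (![1, 0] : Fin 2 → R) 1 ^ 2), 1 + t * (![1, 0] : Fin 2 → R) 0 *
        (![1, 0] : Fin 2 → R) 1]
  ext i j
  fin_cases i <;> fin_cases j <;> simp

/-- the transvection `tv e (T t)` in `Γ(m)` -/
def uD (m : ℕ) {T : ℕ} (h : m ∣ T) (e : Fin 2 → Qf a b ℤ) (t : Qf a b ℤ) : Gam a b m :=
  ⟨tv e ((T : Qf a b ℤ) * t), tv_mem h e t⟩

/-- the crossed homomorphisms of `Γ(N)` with values in `K²` -/
abbrev Z1S (N : ℕ) {K : Type} [CommRing K] (f : Qf a b ℤ →+* K) :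
    Submodule K (Gam a b N → Fin 2 → K) := Z1K ((SLm f).comp (Gam a b N).subtype)

/-- the number `ω(e, z(tv e N))` -/
def BV (N : ℕ) {K : Type} [CommRing K] (f : Qf a b ℤ →+* K) (e : Fin 2 → Qf a b ℤ)
    (z : Gam a b N → Fin 2 → K) : K := om (fun i => f (e i)) (z (uD N (dvd_refl N) e 1))

/-- the vector `w z(tv e N) - z(tv e (N w))` -/
def RV (N : ℕ) {K : Type} [CommRing K] (f : Qf a b ℤ →+* K) (e : Fin 2 → Qf a b ℤ)
    (z : Gam a b N → Fin 2 → K) : Fin 2 → K :=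
  f (wq a b ℤ) • z (uD N (dvd_refl N) e 1) - z (uD N (dvd_refl N) e (wq a b ℤ))

/-- homogeneous functions of degree three -/
def Hom3 (F : (Fin 2 → Qf a b ℤ) → ℂ) : Prop :=
  ∀ (l : Qf a b ℤ) (e : Fin 2 → Qf a b ℤ), F (l • e) = iC a b l ^ 3 * F e

/-- `F` is the function of a crossed homomorphism of some `Γ(N)`, with the number `r` at the cusp infinity. -/
def SF (F : (Fin 2 → Qf a b ℤ) → ℂ) (r : ℂ) : Prop :=
  ∃ N : ℕ, N ≠ 0 ∧ ∃ z ∈ Z1C (Gam a b N).subtype,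
    (∀ (e : Fin 2 → Qf a b ℤ) (t : Qf a b ℤ) (h : tv e t ∈ Gam a b N),
      om (vC a b e) (z ⟨_, h⟩) = iC a b t * F e) ∧
    ∃ r₀ : ℂ, ∀ (t : Qf a b ℤ) (h : eU t ∈ Gam a b N),
      z ⟨_, h⟩ = ![r₀ * iC a b t + r * conj (iC a b t), 0]

/-- the functions of level `N` which vanish at `(1, 0)` -/
structure FN (N : ℕ) (F : (Fin 2 → Qf a b ℤ) → ℂ) : Prop where
  /-- homogeneous -/
  hom : Hom3 F
  /-- zero at infinity -/
  inf : F ![1, 0] = 0
  /-- the level -/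
  lev : ∀ e f, Prm e → Prm f → Cgr N e f → F e = F f

/-- There is a function with `r ≠ 0` which is supported on the primitive vectors with the second coordinate prime to `A`. -/
def PA (a b : ℤ) (A : Qf a b ℤ) : Prop := ∃ (N : ℕ) (F : (Fin 2 → Qf a b ℤ) → ℂ) (r : ℂ),
  N ≠ 0 ∧ FN N F ∧ (∀ e, Prm e → F e ≠ 0 → IsCoprime (e 1) A) ∧ SF F r ∧ r ≠ 0

/-- `Ψ` is locally the conjugation with elements of `SL₂(ℤ[w])`. -/
def Ps {m : ℕ} (Ψ : NatBij (Gam a b m) (Gam a b m)) : Prop :=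
  ∀ (k : ℕ) [NeZero k], ∃ h : GQ a b, ∀ x : Gam a b m, rdq a b k x = rdq a b k h *
    Ψ.toFun _ ((rdq a b k).comp (Gam a b m).subtype) x * (rdq a b k h)⁻¹

/-- The unipotent elements `tv e (T t)` and `tv e' (T t)` correspond to each other in the finite quotient `θ`. -/
def VD {m : ℕ} (Ψ : NatBij (Gam a b m) (Gam a b m)) {Q : Type} [Group Q] [Finite Q]
    (θ : Gam a b m →* Q) (T : ℕ) (e e' : Fin 2 → Qf a b ℤ) : Prop :=
  Prm e ∧ Prm e' ∧ ∃ h : m ∣ T, ∀ t, θ (uD m h e t) = Ψ.toFun Q θ (uD m h e' t)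

end

end Pool.Agent.F8.CG
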