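import Pool.Agent.Lib.MP_305fdd_al.F8.CG.DefsZ

/-!
# MP_305fdd_al, congruence subgroups: definitions for the vanishing theorem (block V)

`PS a b A`: the family of functions `A ω` on the imaginary quadratic field `k ⊆ ℂ` (`kC a b`), `ω` in a finite `SL₂(ℤ[w])`-set `Ω`, is a period system. `tA` is its extension to the irrational
numbers, `Fu` the corresponding homogeneous function on `ℂ²`, `Au ω x X = Fu (x c₁ + c₂) - x Fu c₁ - Fu c₂` for a matrix `X` with the columns `c₁`, `c₂`.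
A point `X` of `MM` is a complex `2 × 2` matrix, `X.1` and `X.2` are its rows; `mu0` is the Lebesgue measure on the set of the `X` with `0 < |det X| < 1`, `Sg` a Siegel set for the left action `ac` of `SL₂(ℤ[w])`,
`nuM` the measure on `MM` which represents the invariant measure on the quotient; `rU`, `rD`, `rS` are right translations.
-/

set_option autoImplicit false

namespace Pool.Agent.F8.CG

open Pool.Agent.F8.BG Pool.Agent.MP_305fdd_al Pool.Agent.Lib.MP_305fdd_al Pool.Agent.F8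
open MeasureTheory
open scoped QuadraticAlgebra ENNReal ComplexConjugate

noncomputable section

/-- the field `k`, as a subset of the complex numbers -/
def kC (a b : ℤ) : Set ℂ := {x | ∃ p q : Qf a b ℤ, q ≠ 0 ∧ x * iC a b q = iC a b p}

/-- period systems -/
structure PS (a b : ℤ) {Ω : Type} [MulAction (GQ a b) Ω] (A : Ω → ℂ → ℂ) : Prop where
  /-- translations -/
  add : ∀ (o : Ω) (β : Qf a b ℤ), ∀ x ∈ kC a b,
    A o (x + iC a b β) = A o (iC a b β) + A ((eU β : GQ a b)⁻¹ • o) x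
  /-- the inversion -/
  inv : ∀ (o : Ω), ∀ x ∈ kC a b, x ≠ 0 → A ((mS : GQ a b)⁻¹ • o) x = x * A o (-1 / x)
  /-- the values at the elements of a lattice -/
  lin : ∃ N : ℕ, N ≠ 0 ∧ ∀ o : Ω, ∃ r : ℂ, ∀ β : Qf a b ℤ,
    A o (iC a b (N * β)) = r * conj (iC a b (N * β))

open Classical in
/-- the extension of a period system to the irrational numbers -/
def tA (a b : ℤ) {Ω : Type} (A : Ω → ℂ → ℂ) (o : Ω) (x : ℂ) : ℂ :=
  if x ∈ kC a b then 0 else Filter.limUnder (nhdsWithin x (kC a b)) (A o)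

/-- the homogeneous function -/
def Fu (a b : ℤ) {Ω : Type} (A : Ω → ℂ → ℂ) (o : Ω) (e : ℂ × ℂ) : ℂ :=
  e.2 * tA a b A o (e.1 / e.2)

/-- an irrational vector -/
def Ir (a b : ℤ) (e : ℂ × ℂ) : Prop := e.2 ≠ 0 ∧ e.1 / e.2 ∉ kC a b

/-- the action on the vectors -/
def va {a b : ℤ} (g : GQ a b) (e : ℂ × ℂ) : ℂ × ℂ :=
  (iC a b (g.val 0 0) * e.1 + iC a b (g.val 0 1) * e.2,
    iC a b (g.val 1 0) * e.1 + iC a b (g.val 1 1) * e.2)

/-- the complex `2 × 2` matrices; `X.1`, `X.2` are the rows -/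
abbrev MM : Type := (ℂ × ℂ) × (ℂ × ℂ)

/-- the first column -/
def col1 (X : MM) : ℂ × ℂ := (X.1.1, X.2.1)

/-- the second column -/
def col2 (X : MM) : ℂ × ℂ := (X.1.2, X.2.2)

/-- the defect of additivity -/
def Au (a b : ℤ) {Ω : Type} (A : Ω → ℂ → ℂ) (o : Ω) (x : ℂ) (X : MM) : ℂ :=
  Fu a b A o (x • col1 X + col2 X) - x * Fu a b A o (col1 X) - Fu a b A o (col2 X)

/-- the determinant -/
def dX (X : MM) : ℂ := X.1.1 * X.2.2 - X.1.2 * X.2.1

/-- the square of the norm of the second row -/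
def nr (X : MM) : ℝ := ‖X.2.1‖ ^ 2 + ‖X.2.2‖ ^ 2

/-- the Lebesgue measure on `{0 < |det X| < 1}` -/
def mu0 : Measure MM := volume.restrict {X | 0 < ‖dX X‖ ∧ ‖dX X‖ < 1}

/-- the left action of `SL₂(ℤ[w])` -/
def ac {a b : ℤ} (g : GQ a b) (X : MM) : MM :=
  (iC a b (g.val 0 0) • X.1 + iC a b (g.val 0 1) • X.2,
    iC a b (g.val 1 0) • X.1 + iC a b (g.val 1 1) • X.2)

/-- the right translation with `[[1, c], [0, 1]]` -/
def rU (c : ℂ) (X : MM) : MM :=
  ((X.1.1, X.1.2 + c * X.1.1), (X.2.1, X.2.2 + c * X.2.1))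

/-- the right translation with `diag(l, 1/l)` -/
def rD (l : ℂ) (X : MM) : MM :=
  ((l * X.1.1, l⁻¹ * X.1.2), (l * X.2.1, l⁻¹ * X.2.2))

/-- the right translation with `[[0, -1], [1, 0]]` -/
def rS (X : MM) : MM := ((X.1.2, -X.1.1), (X.2.2, -X.2.1))

/-- the Siegel set -/
def Sg : Set MM := {X | 0 < ‖dX X‖ ∧ nr X ≤ 5 * ‖dX X‖ ∧
  ‖X.1.1 * conj X.2.1 + X.1.2 * conj X.2.2‖ ≤ 31 / 32 * nr X}

/-- the number of the elements of the orbit in the Siegel set -/
def mlt (a b : ℤ) (X : MM) : ℝ≥0∞ := ∑' g : GQ a b, Sg.indicator 1 (ac g X)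

/-- the measure which represents the invariant measure on the quotient -/
def nuM (a b : ℤ) : Measure MM :=
  mu0.withDensity fun X => Sg.indicator 1 X * (mlt a b X)⁻¹

/-- `f` is invariant under `SL₂(ℤ[w])`, almost everywhere -/
def InvA {Y : Type} (a b : ℤ) (f : MM → Y) : Prop :=
  ∀ g : GQ a b, ∀ᵐ X ∂mu0, f (ac g X) = f X

/-- the ring is euclidean -/
def Eu (a b : ℤ) : Prop := ∀ x : ℂ, ∃ β : Qf a b ℤ, ‖x - iC a b β‖ ≤ 31 / 32

theorem col1_ac {a b : ℤ} (g : GQ a b) (X : MM) : col1 (ac g X) = va g (col1 X) := by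
  ext <;> simp [col1, ac, va]

theorem col2_ac {a b : ℤ} (g : GQ a b) (X : MM) : col2 (ac g X) = va g (col2 X) := by
  ext <;> simp [col2, ac, va]

theorem va_lin {a b : ℤ} (g : GQ a b) (x : ℂ) (e e' : ℂ × ℂ) :
    va g (x • e + e') = x • va g e + va g e' := by
  ext <;> simp [va] <;> ring

theorem va_mul {a b : ℤ} (g h : GQ a b) (e : ℂ × ℂ) : va (g * h) e = va g (va h e) := by
  have hm : ∀ i k, (g * h).val i k = g.val i 0 * h.val 0 k + g.val i 1 * h.val 1 k := fun i k => by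
    show (g.val * h.val) i k = _
    rw [Matrix.mul_apply, Fin.sum_univ_two]
  ext <;> simp only [va, hm, map_add, map_mul] <;> ring

theorem va_one {a b : ℤ} (e : ℂ × ℂ) : va (1 : GQ a b) e = e := by
  ext <;> simp [va]

theorem ac_mul {a b : ℤ} (g h : GQ a b) (X : MM) : ac (g * h) X = ac g (ac h X) := by
  have h1 : ∀ Y Z : MM, col1 Y = col1 Z → col2 Y = col2 Z → Y = Z := by
    rintro ⟨⟨p, q⟩, r, s⟩ ⟨⟨p', q'⟩, r', s'⟩ e e'
    simp only [col1, col2, Prod.mk.injEq] at e e'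
    obtain ⟨rfl, rfl⟩ := e
    obtain ⟨rfl, rfl⟩ := e'
    rfl
  apply h1
  · rw [col1_ac, col1_ac, col1_ac, va_mul]
  · rw [col2_ac, col2_ac, col2_ac, va_mul]

theorem ac_one {a b : ℤ} (X : MM) : ac (1 : GQ a b) X = X := by
  ext <;> simp [ac]

theorem col_rU (c : ℂ) (X : MM) : col1 (rU c X) = col1 X ∧ col2 (rU c X) = c • col1 X + col2 X := by
  constructor
  · rfl
  · ext <;> simp [col1, col2, rU] <;> ring

theorem col_rD (l : ℂ) (X : MM) : col1 (rD l X) = l • col1 X ∧ col2 (rD l X) = l⁻¹ • col2 X := by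
  constructor <;> ext <;> simp [col1, col2, rD]

theorem col_rS (X : MM) : col1 (rS X) = col2 X ∧ col2 (rS X) = -col1 X := by
  constructor <;> ext <;> simp [col1, col2, rS]

theorem ac_rU {a b : ℤ} (g : GQ a b) (c : ℂ) (X : MM) : rU c (ac g X) = ac g (rU c X) := by
  ext <;> simp [ac, rU] <;> ring

theorem ac_rD {a b : ℤ} (g : GQ a b) (l : ℂ) (X : MM) : rD l (ac g X) = ac g (rD l X) := by
  ext <;> simp [ac, rD] <;> ring

theorem ac_rS {a b : ℤ} (g : GQ a b) (X : MM) : rS (ac g X) = ac g (rS X) := by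
  ext <;> simp [ac, rS] <;> ring

/-- `Fu` is homogeneous -/
theorem Fu_smul (a b : ℤ) {Ω : Type} (A : Ω → ℂ → ℂ) (o : Ω) (l : ℂ) (e : ℂ × ℂ) :
    Fu a b A o (l • e) = l * Fu a b A o e := by
  unfold Fu
  by_cases hl : l = 0
  · simp [hl]
  · have h : (l • e).1 / (l • e).2 = e.1 / e.2 := by
      show l * e.1 / (l * e.2) = _
      rw [mul_div_mul_left _ _ hl]
    rw [h]
    show l * e.2 * _ = _
    ring

theorem Au_rU (a b : ℤ) {Ω : Type} (A : Ω → ℂ → ℂ) (o : Ω) (x c : ℂ) (X : MM) :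
    Au a b A o x (rU c X) = Au a b A o (x + c) X - Au a b A o c X := by
  unfold Au
  rw [(col_rU c X).1, (col_rU c X).2]
  have h : x • col1 X + (c • col1 X + col2 X) = (x + c) • col1 X + col2 X := by
    rw [add_smul, add_assoc]
  rw [h]
  ring

theorem Au_rD (a b : ℤ) {Ω : Type} (A : Ω → ℂ → ℂ) (o : Ω) (x l : ℂ) (hl : l ≠ 0) (X : MM) :
    Au a b A o x (rD l X) = l⁻¹ * Au a b A o (l ^ 2 * x) X := by
  unfold Au
  rw [(col_rD l X).1, (col_rD l X).2]
  have h : x • l • col1 X + l⁻¹ • col2 X = l⁻¹ • ((l ^ 2 * x) • col1 X + col2 X) := by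
    rw [smul_add, smul_smul, smul_smul]
    congr 2
    field_simp
  rw [h, Fu_smul, Fu_smul, Fu_smul]
  field_simp

theorem Au_rS (a b : ℤ) {Ω : Type} (A : Ω → ℂ → ℂ) (o : Ω) (x : ℂ) (hx : x ≠ 0) (X : MM) :
    Au a b A o x (rS X) = x * Au a b A o (-1 / x) X := by
  unfold Au
  rw [(col_rS X).1, (col_rS X).2]
  have h : x • col2 X + -col1 X = x • ((-1 / x) • col1 X + col2 X) := by
    rw [smul_add, smul_smul]
    have h1 : x * (-1 / x) = -1 := by field_simp
    rw [h1, neg_one_smul, add_comm]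
  have h2 : -col1 X = (-1 : ℂ) • col1 X := by rw [neg_one_smul]
  rw [h, Fu_smul]
  rw [h2, Fu_smul]
  field_simp
  ring

theorem Au_zero (a b : ℤ) {Ω : Type} (A : Ω → ℂ → ℂ) (o : Ω) (X : MM) :
    Au a b A o 0 X = 0 := by
  unfold Au
  simp

end

end Pool.Agent.F8.CG
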