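import Pool.Agent.Lib.MP_305fdd_al.F8.BG.Five.One
import Pool.Agent.Lib.MP_305fdd_al.F8.BG.Five.Three
import Pool.Agent.Lib.MP_305fdd_al.F8.BG.Five.Seven
import Pool.Agent.Lib.MP_305fdd_al.F8.BG.Five.TwoEleven

/-!
# MP_305fdd_al, project CG: the data of the five rings
-/

set_option autoImplicit false

namespace Pool.Agent.F8.BG

/-- the pairs `(a, b)` of the five rings `ℤ[w]`, `w² = a + b w`: the integers of `ℚ(√-d)`, `d = 1, 2, 3, 7, 11` -/
def fives : List (ℤ × ℤ) := [(-1, 0), (-2, 0), (-1, -1), (-2, -1), (-3, 1)]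

/-- the data exist -/
def HasDat (a b : ℤ) : Prop := ∃ (ι : Type) (_ : Finite ι) (α : MulAut (FreeGroup ι)) (N : ℕ)
  (w : ι → List ι) (M : ℕ) (c g : FreeGroup ι) (G₀ : Subgroup (GQ a b)) (η : G₀ →* GR α),
  Dat α N w M c g G₀ η

/-- THE DATA OF THE FIVE RINGS -/
theorem five : ∀ p ∈ fives, HasDat p.1 p.2 := by
  intro p hp
  simp only [fives, List.mem_cons, List.not_mem_nil, or_false] at hp
  rcases hp with rfl | rfl | rfl | rfl | rfl
  · exact Five1.ex_dat
  · exact Five2.ex_dat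
  · exact Five3.ex_dat
  · exact Five7.ex_dat
  · exact Five11.ex_dat

end Pool.Agent.F8.BG
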