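import Pool.Agent.Lib.MP_305fdd_al.F8.BG.MainOk
import Pool.Agent.Lib.MP_305fdd_al.F8.BG.Fund
import Pool.Agent.Lib.MP_305fdd_al.F8.CG.Five

/-!
# MP_305fdd_al, congruence subgroups: the rings of integers of `ℚ(√-d)`, `d = 1, 2, 3, 7, 11`
-/

set_option autoImplicit false

namespace Pool.Agent.F8.CG

open Pool.Agent.F8.BG Pool.Agent.F8

theorem fund_sqf {D : ℤ} (h : ∀ n : ℤ, n ^ 2 ∣ D → n ∣ 1) (S P m n : ℤ) (hn : n ≠ 0)
    (e : n ^ 2 * (S ^ 2 - 4 * P) = D * m ^ 2) : n ∣ m :=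
  fund_red (fun n m _ _ hc e => h n (fund_dvd hc e)) S P m n hn e

theorem fund3 : ∀ S P m n : ℤ, n ≠ 0 → n ^ 2 * (S ^ 2 - 4 * P) = ((-1) ^ 2 + 4 * (-1)) * m ^ 2 →
    n ∣ m := by
  intro S P m n hn e
  refine fund_sqf (D := -3) (fun n h => ?_) S P m n hn (by linarith)
  rw [dvd_neg] at h
  have h2 : n ^ 2 ≤ 3 := Int.le_of_dvd (by norm_num) h
  have h3 : n ≤ 1 := by nlinarith
  have h4 : -1 ≤ n := by nlinarith
  interval_cases n
  · exact ⟨-1, by norm_num⟩
  · norm_num at h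
  · exact dvd_refl 1

theorem fund7 : ∀ S P m n : ℤ, n ≠ 0 → n ^ 2 * (S ^ 2 - 4 * P) = ((-1) ^ 2 + 4 * (-2)) * m ^ 2 →
    n ∣ m := by
  intro S P m n hn e
  refine fund_sqf (D := -7) (fun n h => ?_) S P m n hn (by linarith)
  rw [dvd_neg] at h
  have h2 : n ^ 2 ≤ 7 := Int.le_of_dvd (by norm_num) h
  have h3 : n ≤ 2 := by nlinarith
  have h4 : -2 ≤ n := by nlinarith
  interval_cases n
  · norm_num at h
  · exact ⟨-1, by norm_num⟩
  · norm_num at h
  · exact dvd_refl 1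
  · norm_num at h

theorem fund1 : ∀ S P m n : ℤ, n ≠ 0 → n ^ 2 * (S ^ 2 - 4 * P) = (0 ^ 2 + 4 * (-1)) * m ^ 2 →
    n ∣ m := by
  have key : ∀ n m S P : ℤ, IsCoprime n m → n ^ 2 * (S ^ 2 - 4 * P) = (-4) * m ^ 2 → n ∣ 1 := by
    intro n m S P hc e
    have h1 : n ^ 2 ∣ 4 := by
      have := fund_dvd hc e
      rwa [dvd_neg] at this
    have h2 : n ^ 2 ≤ 4 := Int.le_of_dvd (by norm_num) h1
    have h3 : n ≤ 2 := by nlinarith
    have h4 : -2 ≤ n := by nlinarith
    have ev : n = 2 ∨ n = -2 → False := by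
      intro h
      have h5 : n ^ 2 = 4 := by rcases h with rfl | rfl <;> norm_num
      rw [h5] at e
      have h6 : S ^ 2 + m ^ 2 = 4 * P := by linarith
      have hm : ¬ Even m := by
        rintro ⟨k, rfl⟩
        obtain ⟨u, v, huv⟩ := hc
        rcases h with rfl | rfl
        · have h7 : (2 : ℤ) ∣ 1 := ⟨u + v * k, by linear_combination -huv⟩
          norm_num at h7
        · have h7 : (2 : ℤ) ∣ 1 := ⟨-u + v * k, by linear_combination -huv⟩
          norm_num at h7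
      rw [Int.not_even_iff_odd] at hm
      obtain ⟨k, rfl⟩ := hm
      rcases Int.even_or_odd S with ⟨s, rfl⟩ | ⟨s, rfl⟩
      · have h8 : (4 : ℤ) * (P - s ^ 2 - k ^ 2 - k) = 1 := by linarith
        omega
      · have h8 : (4 : ℤ) * (P - s ^ 2 - s - k ^ 2 - k) = 2 := by linarith
        omega
    interval_cases n
    · exact absurd (Or.inr rfl) ev
    · exact ⟨-1, by norm_num⟩
    · norm_num at h1
    · exact dvd_refl 1
    · exact absurd (Or.inl rfl) ev
  intro S P m n hn e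
  exact fund_red key S P m n hn (by linarith)

/-- the ring of integers of a quadratic field with a square root of `-1`, `-2`, `-3`, `-7` or `-11` -/
theorem ex_ring (K : Type) [Field K] [NumberField K] (hK : Module.finrank ℚ K = 2) (w : K)
    (hw : w ^ 2 = -1 ∨ w ^ 2 = -2 ∨ w ^ 2 = -3 ∨ w ^ 2 = -7 ∨ w ^ 2 = -11) :
    ∃ p ∈ fives, Nonempty (Qf p.1 p.2 ℤ ≃+* NumberField.RingOfIntegers K) := by
  rcases hw with hw | hw | hw | hw | hw
  · refine ⟨(-1, 0), by simp [fives], m_ok (-1) 0 (by norm_num) fund1 K w ?_ hK⟩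
    push_cast
    linear_combination hw
  · refine ⟨(-2, 0), by simp [fives], m_ok (-2) 0 (by norm_num) fund2 K w ?_ hK⟩
    push_cast
    linear_combination hw
  · refine ⟨(-1, -1), by simp [fives], m_ok (-1) (-1) (by norm_num) fund3 K ((-1 + w) / 2) ?_ hK⟩
    push_cast
    linear_combination (1 / 4 : K) * hw
  · refine ⟨(-2, -1), by simp [fives], m_ok (-2) (-1) (by norm_num) fund7 K ((-1 + w) / 2) ?_ hK⟩
    push_cast
    linear_combination (1 / 4 : K) * hw
  · refine ⟨(-3, 1), by simp [fives], m_ok (-3) 1 (by norm_num) fund11 K ((1 + w) / 2) ?_ hK⟩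
    push_cast
    linear_combination (1 / 4 : K) * hw

end Pool.Agent.F8.CG
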