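import Mathlib.NumberTheory.NumberField.Basic
import Mathlib.Data.Complex.Basic

/-!
# MP_305fdd_al: homomorphisms from a ring of integers to the complex numbers are injective
-/

set_option autoImplicit false

namespace Pool.Agent.F8.CG

open NumberField

theorem inj_C (K : Type) [Field K] [NumberField K] (i : 𝓞 K →+* ℂ) : Function.Injective i := by
  rw [RingHom.injective_iff_ker_eq_bot]
  apply Ideal.eq_bot_of_comap_eq_bot (R := ℤ)
  rw [RingHom.comap_ker, ← RingHom.injective_iff_ker_eq_bot]
  exact RingHom.injective_int _

end Pool.Agent.F8.CG
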