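import Pool.Agent.Lib.MP_305fdd_al.F8.CG.Comm
import Pool.Agent.Lib.MP_305fdd_al.F8.CG.InjC
import Mathlib.NumberTheory.NumberField.Basic

set_option autoImplicit false

namespace Pool.Agent.F8.CG

open Pool.Agent.MP_305fdd_al Matrix NumberField
open scoped MatrixGroups

/-- From subgroups of `PGL(2, K)` to subgroups of `PSL(2, ℂ)`. -/
theorem final_red (K : Type) [Field K] [NumberField K]
    (H : ∀ (J : Ideal (𝓞 K)), J ≠ ⊥ → ∀ Γ : Subgroup (PGL(2, K)), Cong.PG K J ≤ Γ →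
      (Cong.PG K J).relIndex Γ ≠ 0 → ProfinitelyRigid Γ)
    (i : 𝓞 K →+* ℂ) (J : Ideal (𝓞 K)) (hJ : J ≠ ⊥) (Γ : Subgroup (PSL(2, ℂ)))
    (hΓ : (Cong.G J).map (Cong.toPSL i) ≤ Γ)
    (hi : ((Cong.G J).map (Cong.toPSL i)).relIndex Γ ≠ 0) : ProfinitelyRigid Γ := by
  obtain ⟨s, hs, hs0⟩ := Submodule.exists_mem_ne_zero_of_ne_bot hJ
  have hinj := inj_C K i
  have h0 : algebraMap (𝓞 K) K s ≠ 0 := fun h =>
    hs0 (IsFractionRing.injective (𝓞 K) K (by rw [h, map_zero]))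
  obtain ⟨i', hi'⟩ : ∃ i' : K →+* ℂ, i = i'.comp (algebraMap (𝓞 K) K) :=
    ⟨IsFractionRing.lift hinj, RingHom.ext fun x => (IsFractionRing.lift_algebraMap hinj x).symm⟩
  obtain ⟨Γ', h1, h2, ⟨e⟩⟩ := Com.red_PSL i' J s hs h0 i hi' Γ hΓ hi
  exact Com.rigid_equiv e (H J hJ Γ' h1 h2)

end Pool.Agent.F8.CG
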