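import Pool.Agent.Lib.MP_305fdd_al.F8.CG.MainZ
import Pool.Agent.Lib.MP_305fdd_al.F8.CG.FiveP
import Pool.Agent.Lib.MP_305fdd_al.F8.CG.MainU

/-!
# MP_305fdd_al, congruence subgroups: the data of the five rings, with the level dividing `36`
-/

set_option autoImplicit false

namespace Pool.Agent.F8.BG

open Pool.Agent.F8.CG Pool.Agent.Lib.MP_305fdd_al Pool.Agent.F8
open scoped QuadraticAlgebra

/-- `HasDatP` with `M ∣ 36` -/
def HasDatP36 (a b : ℤ) : Prop := ∃ (ι : Type) (_ : Finite ι) (α : MulAut (FreeGroup ι)) (N : ℕ)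
  (w : ι → List ι) (M : ℕ) (c g : FreeGroup ι) (G₀ : Subgroup (GQ a b)) (η : G₀ →* GR α),
  Dat α N w M c g G₀ η ∧
  ((∃ i₀, Pos α w ∧ (w i₀).head? = some i₀) ∨ ∃ (v : ι → List ι) (i₀ : ι), CG.Neg α v w i₀) ∧
  (∃ M₁ : ℕ, M₁ ≠ 0 ∧ Scal M₁ G₀) ∧ M ∣ 36

theorem dat1' : HasDatP36 (-1) 0 := by
  obtain ⟨η, h⟩ := PIC.p_eta (PIC.p_e1 PIC.p_f5) (PIC.p_e2 (PIC.p_e1 PIC.p_f5))
  exact ⟨Fin 2, inferInstance, _, _, _, _, _, _, _, _, Five1.dat h,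
    Or.inl ⟨0, pos_pow_one Five1.pos, rfl⟩, ⟨4, by decide, scal1⟩, by decide⟩

theorem dat2' : HasDatP36 (-2) 0 := by
  obtain ⟨η, h⟩ := D2.exEta
  exact ⟨Fin 5, inferInstance, _, _, _, _, _, _, _, _, Five2.dat h,
    Or.inr ⟨Five2.v2, 4, fun i => by
      rw [Five2.neg2, Units.val_neg, Units.val_one, zpow_neg_one], by decide, D2.pos2, rfl⟩,
    ⟨18, by decide, scal2⟩, by decide⟩

theorem dat3' : HasDatP36 (-1) (-1) := by
  obtain ⟨Ψ, h⟩ := HN.p_G2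
  exact ⟨Fin 2, inferInstance, _, _, _, _, _, _, _, _, Five3.dat h,
    Or.inl ⟨0, pos_pow_one Five3.pos, rfl⟩, ⟨8, by decide, Five3.scal h⟩, by decide⟩

theorem dat7' : HasDatP36 (-2) (-1) := by
  obtain ⟨η, h⟩ := PIC7.p_eta (PIC7.p_e1 PIC7.p_f6) (PIC7.p_e2 (PIC7.p_e1 PIC7.p_f6))
  exact ⟨Fin 2, inferInstance, _, _, _, _, _, _, _, _, Five7.dat h,
    Or.inl ⟨0, pos_pow_one Five7.pos, rfl⟩, ⟨4, by decide, scal7⟩, by decide⟩

theorem dat11' : HasDatP36 (-3) 1 := by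
  obtain ⟨η, h⟩ := D11.p_eta
  exact ⟨Fin 6, inferInstance, _, _, _, _, _, _, _, _, Five11.dat h,
    Or.inr ⟨Five11.v11, 0, fun i => by
      rw [Five11.neg11, Units.val_neg, Units.val_one, zpow_neg_one], by decide, D11.pos11, rfl⟩,
    ⟨2, by decide, scal11⟩, by decide⟩

theorem fiveP36 : ∀ p ∈ fives, HasDatP36 p.1 p.2 := by
  intro p hp
  simp only [fives, List.mem_cons, List.not_mem_nil, or_false] at hp
  rcases hp with rfl | rfl | rfl | rfl | rfl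
  · exact dat1'
  · exact dat2'
  · exact dat3'
  · exact dat7'
  · exact dat11'

end Pool.Agent.F8.BG

namespace Pool.Agent.F8.CG

open Pool.Agent.F8.BG

/-- `Uni` for `Γ(36)` -/
theorem uni36 : ∀ p ∈ BG.fives, Uni p.1 p.2 36 := by
  intro p hp
  obtain ⟨ι, _, α, N, w, M, c, g, G₀, η, hdat, hpn, -, hM⟩ := BG.fiveP36 p hp
  have hA : AuC α := by
    rcases hpn with ⟨i₀, hp, h0⟩ | ⟨v, i₀, hp⟩
    · exact auC_pos hp h0
    · exact auC_neg z_thFm hp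
  exact uni_of hdat hA (by norm_num) hM

end Pool.Agent.F8.CG
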