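import Pool.Agent.Lib.MP_305fdd_al.F8.CG.StmX
import Pool.Agent.Lib.MP_305fdd_al.F8.CG.StmF
import Pool.Agent.Lib.MP_305fdd_al.F8.CG.StmE
import Pool.Agent.Lib.MP_305fdd_al.F8.CG.Five

/-!
# MP_305fdd_al, congruence subgroups: assembly of the blocks

`rho_ex`: the representation `ρ : Λ → SL₂(ℤ[w])`, injective, locally conjugate to the inclusion of `D`, with `Γ(m₀)` in its image. `main_iso`: `Λ ≅ D` under `HZ`.
-/

set_option autoImplicit false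

namespace Pool.Agent.F8.CG

open Pool.Agent.F8.BG Pool.Agent.MP_305fdd_al Pool.Agent.Lib.MP_305fdd_al Pool.Agent.F8
open scoped QuadraticAlgebra

noncomputable section

/-- the condition on `-1` -/
def NegZ {a b : ℤ} {D : Subgroup (GQ a b)} {Λ : Type} [Group Λ] (Φ : NatBij D Λ) : Prop :=
  ∀ h : -1 ∈ D, ∃ z : Λ, ∀ (Q : Type) [Group Q] [Finite Q] (f : D →* Q),
    Φ.toFun Q f z = f ⟨-1, h⟩

theorem rhoG_of_rhoL {a b : ℤ} {G Λ : Type} [Group G] [Group Λ] {Φ : NatBij G Λ}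
    {ρ₀ : G →* GQ a b} {ρ : Λ →* GQ a b} (h : RhoL Φ ρ₀ ρ) : RhoG ρ₀ Φ ρ := by
  intro m _
  obtain ⟨C, hC⟩ := h.cj m
  refine ⟨C.val, (C⁻¹).val, ?_, ?_, fun l => ?_⟩
  · rw [← Units.val_mul, mul_inv_cancel, Units.val_one]
  · rw [← Units.val_mul, inv_mul_cancel, Units.val_one]
  · rw [← hC l, Matrix.mul_assoc, ← Units.val_mul, mul_inv_cancel, Units.val_one, Matrix.mul_one]

/-- congruence subgroups contain two elements which generate an irreducible group -/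
theorem irr_cong {a b : ℤ} (D : Subgroup (GQ a b)) (m : ℕ) (hm : m ≠ 0) (hD : Gam a b m ≤ D) :
    Irr D.subtype := by
  have h0 : Qfm a b (Int.castRingHom (ZMod m)) ((m : ℤ) : Qf a b ℤ) = 0 := by
    rw [map_intCast]
    apply QuadraticAlgebra.ext <;> simp
  have hx : (eU ((m : ℤ) : Qf a b ℤ) : GQ a b) ∈ D := by
    apply hD
    show rdq a b m _ = 1
    unfold rdq
    rw [eU_map, h0]
    exact AB.mx_one.symm
  have hy : (eV ((m : ℤ) : Qf a b ℤ) : GQ a b) ∈ D := by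
    apply hD
    show rdq a b m _ = 1
    unfold rdq
    rw [eV_map, h0]
    exact AB.mx_one.symm
  refine ⟨⟨_, hx⟩, ⟨_, hy⟩, ?_⟩
  show tr (eU ((m : ℤ) : Qf a b ℤ) * eV ((m : ℤ) : Qf a b ℤ) * (eU ((m : ℤ) : Qf a b ℤ))⁻¹ *
    (eV ((m : ℤ) : Qf a b ℤ))⁻¹) ≠ 2
  rw [eUV_tr]
  intro h
  have h1 := congrArg QuadraticAlgebra.re h
  have h2 : (2 + ((m : ℤ) : Qf a b ℤ) ^ 4).re = 2 + (m : ℤ) ^ 4 := by
    rw [← Int.cast_pow, QuadraticAlgebra.re_add, QuadraticAlgebra.re_intCast]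
    rfl
  rw [h2] at h1
  have h3 : (2 : Qf a b ℤ).re = 2 := rfl
  rw [h3] at h1
  have h4 : 0 < (m : ℤ) ^ 4 := by positivity
  omega

/-- THE REPRESENTATION -/
theorem rho_ex (hE : E_main) (hF : F_fin) (hcon : C_con) (hcl : C_cl) (hinj : C_inj)
    (htr : X_tr) (hfg : X_fg) {a b : ℤ} (h5 : Five a b) (hd : HasDat a b) {M' : ℕ} (hM : M' ≠ 0)
    (hU : Uni a b M') (D : Subgroup (GQ a b)) (m₀ : ℕ) (hm : m₀ ≠ 0) (hD : Gam a b m₀ ≤ D)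
    (hHE : HE D M') (Λ : Type) [Group Λ] [Group.FG Λ] (hR : Group.ResiduallyFinite Λ)
    (Φ : NatBij D Λ) (hz : NegZ Φ) :
    ∃ ρ : Λ →* GQ a b, RhoG D.subtype Φ ρ ∧ Gam a b m₀ ≤ ρ.range ∧ Function.Injective ρ := by
  obtain ⟨ι, _, α, N, w, M, c, g, G₀, η, h⟩ := hd
  obtain ⟨T, hT⟩ := htr a b h.neg (hfg a b ι α M c g G₀ η h.eta) M' hM hU D m₀ hm hD hHE Λ Φ hz
  obtain ⟨ρ, -, hρ⟩ := hE a b h5 D Λ Φ D.subtype T hT (irr_cong D m₀ hm hD)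
  have hG := rhoG_of_rhoL hρ
  have hfin := hF a b ι α N w M c g G₀ η h D m₀ hm hD Λ Φ ρ hG
  have h1 := hcl a b D m₀ hm hD Λ Φ ρ hG
    (hcon a b h.neg ι α M c g G₀ η h.eta h.ha D m₀ hm hD Λ Φ ρ hG hfin)
  exact ⟨ρ, hG, h1, hinj a b D m₀ hm hD Λ hR Φ ρ hG h1⟩

/-- `Λ ≅ D` -/
theorem main_iso (hE : E_main) (hF : F_fin) (hcon : C_con) (hcl : C_cl) (hinj : C_inj)
    (himg : C_img)
    (htr : X_tr) (hfg : X_fg) {a b : ℤ} (h5 : Five a b) (hd : HasDat a b) {M' : ℕ} (hM : M' ≠ 0)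
    (hU : Uni a b M') (D : Subgroup (GQ a b)) (m₀ : ℕ) (hm : m₀ ≠ 0) (hD : Gam a b m₀ ≤ D)
    (hHE : HE D M') (hHZ : HZ D m₀)
    (Λ : Type) [Group Λ] [Group.FG Λ] (hR : Group.ResiduallyFinite Λ)
    (Φ : NatBij D Λ) (hz : NegZ Φ) : Nonempty (Λ ≃* D) := by
  obtain ⟨ρ, h1, h2, h3⟩ := rho_ex hE hF hcon hcl hinj htr hfg h5 hd hM hU D m₀ hm hD hHE Λ hR Φ hz
  exact himg a b D m₀ hm hD hHZ Λ Φ ρ h1 h2 h3

/-- `D / ± 1` is profinitely rigid -/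
theorem main_psl (hE : E_main) (hF : F_fin) (hcon : C_con) (hcl : C_cl) (hinj : C_inj)
    (himg : C_img) (hpsl : X_psl) (hinv : X_inv)
    (htr : X_tr) (hfg : X_fg) {a b : ℤ} (h5 : Five a b) (hd : HasDat a b) {M' : ℕ} (hM : M' ≠ 0)
    (hU : Uni a b M') (D : Subgroup (GQ a b)) (m₀ : ℕ) (hm : m₀ ≠ 0) (hD : Gam a b m₀ ≤ D)
    (hHE : HE D M') (hHZ : HZ D m₀) (hn : -1 ∈ D) (P : Type) [Group P] (pr : D →* P)
    (hpr : Function.Surjective pr) (hk : ∀ x, pr x = 1 ↔ x.val = 1 ∨ x.val = -1) :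
    ProfinitelyRigid P := by
  intro Λp _ hΛ
  have hd' := hd
  obtain ⟨ι, _, α, N, w, M, c, g, G₀, η, h⟩ := hd'
  have hFG : Group.FG D := by
    have h1 : Group.FG (GQ a b) := hfg a b ι α M c g G₀ η h.eta
    haveI : NeZero m₀ := ⟨hm⟩
    haveI : Finite (SL2 (Qf a b (ZMod m₀))) := inferInstance
    have h2 : (Gam a b m₀).FiniteIndex := Subgroup.finiteIndex_ker _
    have h3 : D.FiniteIndex := Subgroup.finiteIndex_of_le hD
    exact Subgroup.fg_of_index_ne_zero D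
  obtain ⟨Λ, _, Φ, pr', z, h1, h2, h3, h4, h6⟩ := hpsl a b D hFG hn P pr hpr hk Λp hΛ
  have hz : NegZ Φ := fun h => ⟨z, fun Q _ _ f => h6 Q f⟩
  have hi := main_iso hE hF hcon hcl hinj himg htr hfg h5 hd hM hU D m₀ hm hD hHE hHZ Λ h2 Φ hz
  exact hinv a b h.neg D hn Λp Λ Φ pr' z h3 h4 h6 D P pr hpr hk hn hi

end

end Pool.Agent.F8.CG
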