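import Pool.Agent.Lib.MP_305fdd_al.F8.CG.StmCC

/-!
# MP_305fdd_al, congruence subgroups: the numbers of the crossed homomorphisms (CC cd)
-/

set_option autoImplicit false

namespace Pool.Agent.F8.CG

open Pool.Agent.F8.BG Pool.Agent.MP_305fdd_al Pool.Agent.Lib.MP_305fdd_al Pool.Agent.F8
open scoped QuadraticAlgebra

noncomputable section

/-- the affine group: pairs of a vector and a matrix -/
@[ext]
structure CCcdE (K : Type) [CommRing K] where
  /-- the vector -/
  v : Fin 2 → K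
  /-- the matrix -/
  g : SL2 K

/-- the group of the pairs -/
instance CCcdE_group (K : Type) [CommRing K] : Group (CCcdE K) where
  mul x y := ⟨x.v + x.g.val.mulVec y.v, x.g * y.g⟩
  one := ⟨0, 1⟩
  inv x := ⟨-(x.g⁻¹.val.mulVec x.v), x.g⁻¹⟩
  mul_assoc := by
    rintro ⟨v, g⟩ ⟨v', g'⟩ ⟨v'', g''⟩
    show CCcdE.mk (v + g.val.mulVec v' + (g * g').val.mulVec v'') (g * g' * g'') =
      CCcdE.mk (v + g.val.mulVec (v' + g'.val.mulVec v'')) (g * (g' * g''))
    rw [mul_assoc, Matrix.mulVec_add, Matrix.mulVec_mulVec, ← add_assoc]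
    rfl
  one_mul := by
    rintro ⟨v, g⟩
    show CCcdE.mk (0 + (1 : SL2 K).val.mulVec v) (1 * g) = CCcdE.mk v g
    rw [one_mul, zero_add]
    congr 1
    show (1 : Matrix (Fin 2) (Fin 2) K).mulVec v = v
    rw [Matrix.one_mulVec]
  mul_one := by
    rintro ⟨v, g⟩
    show CCcdE.mk (v + g.val.mulVec 0) (g * 1) = CCcdE.mk v g
    rw [mul_one, Matrix.mulVec_zero, add_zero]
  inv_mul_cancel := by
    rintro ⟨v, g⟩
    show CCcdE.mk (-(g⁻¹.val.mulVec v) + g⁻¹.val.mulVec v) (g⁻¹ * g) = CCcdE.mk 0 1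
    rw [neg_add_cancel, inv_mul_cancel]

theorem CCcd_mul {K : Type} [CommRing K] (x y : CCcdE K) :
    x * y = ⟨x.v + x.g.val.mulVec y.v, x.g * y.g⟩ := rfl

instance CCcdE_finite (K : Type) [CommRing K] [Finite K] : Finite (CCcdE K) :=
  Finite.of_injective (fun x : CCcdE K => (x.v, x.g)) fun x y h => by
    simp only [Prod.mk.injEq] at h
    exact CCcdE.ext h.1 h.2

/-- the projection -/
def CCcd_pr (K : Type) [CommRing K] : CCcdE K →* SL2 K where
  toFun x := x.g
  map_one' := rfl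
  map_mul' _ _ := rfl

/-- the crossed homomorphisms are the lifts -/
def CCcd_eq {G K : Type} [Group G] [CommRing K] (σ : G →* SL2 K) :
    Z1K σ ≃ {ψ : G →* CCcdE K // (CCcd_pr K).comp ψ = σ} where
  toFun z := ⟨MonoidHom.mk' (fun x => ⟨z.val x, σ x⟩) fun x y => by
    rw [CCcd_mul, map_mul]
    congr 1
    exact z.property x y, by ext1 x; rfl⟩
  invFun ψ := ⟨fun x => (ψ.val x).v, fun x y => by
    have h : σ x = (ψ.val x).g := (DFunLike.congr_fun ψ.property x).symm
    show (ψ.val (x * y)).v = (ψ.val x).v + (σ x).val.mulVec (ψ.val y).v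
    rw [h, map_mul, CCcd_mul]⟩
  left_inv z := rfl
  right_inv ψ := by
    apply Subtype.ext
    ext1 x
    have h : σ x = (ψ.val x).g := (DFunLike.congr_fun ψ.property x).symm
    exact CCcdE.ext rfl h

theorem p_CCcd : CC_cd := by
  intro G H _ _ Ψ K _ _ σ
  rw [Nat.card_congr (CCcd_eq σ), Nat.card_congr (CCcd_eq (Ψ.toFun _ σ))]
  exact Ψ.card_lifts (CCcd_pr K) σ

end

end Pool.Agent.F8.CG
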