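import Pool.Agent.Lib.MP_305fdd_al.F8.CG.StmCC

/-!
# MP_305fdd_al, congruence subgroups: [CG CC cj] conjugate representations
-/

set_option autoImplicit false

namespace Pool.Agent.F8.CG

open Pool.Agent.F8.BG Pool.Agent.MP_305fdd_al Pool.Agent.Lib.MP_305fdd_al Pool.Agent.F8
open scoped QuadraticAlgebra

private theorem CCcj_mem {H K : Type} [Group H] [CommRing K] {σ σ' : H →* SL2 K}
    {C E : Matrix (Fin 2) (Fin 2) K} (hEC : E * C = 1)
    (h : ∀ l, (σ' l).val = C * (σ l).val * E) {z : H → Fin 2 → K} (hz : z ∈ Z1K σ) :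
    (fun l => C.mulVec (z l)) ∈ Z1K σ' := by
  intro x y
  show C.mulVec (z (x * y)) = C.mulVec (z x) + (σ' x).val.mulVec (C.mulVec (z y))
  have h1 : z (x * y) = z x + (σ x).val.mulVec (z y) := hz x y
  rw [h1, Matrix.mulVec_add, Matrix.mulVec_mulVec, Matrix.mulVec_mulVec, h x,
    Matrix.mul_assoc (C * (σ x).val), hEC, Matrix.mul_one]

theorem p_CCcj : CC_cj := by
  intro H K _ _ σ σ' C E hCE hEC h
  have h' : ∀ l, (σ l).val = E * (σ' l).val * C := by
    intro l
    rw [h l, ← Matrix.mul_assoc, ← Matrix.mul_assoc, hEC, Matrix.one_mul, Matrix.mul_assoc, hEC,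
      Matrix.mul_one]
  refine ⟨{
    toFun := fun z => ⟨fun l => C.mulVec (z.1 l), CCcj_mem hEC h z.2⟩
    invFun := fun z => ⟨fun l => E.mulVec (z.1 l), CCcj_mem hCE h' z.2⟩
    map_add' := ?_
    map_smul' := ?_
    left_inv := ?_
    right_inv := ?_ }⟩
  · intro z w
    apply Subtype.ext
    funext l
    show C.mulVec (z.1 l + w.1 l) = C.mulVec (z.1 l) + C.mulVec (w.1 l)
    rw [Matrix.mulVec_add]
  · intro c z
    apply Subtype.ext
    funext l
    show C.mulVec (c • z.1 l) = c • C.mulVec (z.1 l)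
    rw [Matrix.mulVec_smul]
  · intro z
    apply Subtype.ext
    funext l
    show E.mulVec (C.mulVec (z.1 l)) = z.1 l
    rw [Matrix.mulVec_mulVec, hEC, Matrix.one_mulVec]
  · intro z
    apply Subtype.ext
    funext l
    show C.mulVec (E.mulVec (z.1 l)) = z.1 l
    rw [Matrix.mulVec_mulVec, hCE, Matrix.one_mulVec]

end Pool.Agent.F8.CG
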