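import Pool.Agent.Lib.MP_305fdd_al.F8.CG.StmCC

/-!
# MP_305fdd_al, congruence subgroups, block Z: piece CCcu (the cusps of a subgroup of a subgroup)
-/

set_option autoImplicit false

namespace Pool.Agent.F8.CG

open Pool.Agent.F8.BG Pool.Agent.MP_305fdd_al Pool.Agent.Lib.MP_305fdd_al Pool.Agent.F8
open scoped QuadraticAlgebra

noncomputable section

theorem p_CCcu : CC_cu := by
  intro G X _ _ G₁ A
  refine ⟨Quotient.congr (Equiv.refl X) fun x y => ?_⟩
  show (MulAction.orbitRel (A.map G₁.subtype) X) x y ↔ (MulAction.orbitRel A X) x y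
  rw [MulAction.orbitRel_apply, MulAction.orbitRel_apply]
  constructor
  · rintro ⟨⟨g, h, hh, rfl⟩, rfl⟩
    exact ⟨⟨h, hh⟩, rfl⟩
  · rintro ⟨⟨h, hh⟩, rfl⟩
    exact ⟨⟨G₁.subtype h, ⟨h, hh, rfl⟩⟩, rfl⟩

end

end Pool.Agent.F8.CG
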