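import Pool.Agent.Lib.MP_305fdd_al.F8.CG.StmCC

/-!
# MP_305fdd_al, congruence subgroups: crossed homomorphisms as solutions of linear equations
-/

set_option autoImplicit false

namespace Pool.Agent.F8.CG

open Pool.Agent.F8.BG Pool.Agent.MP_305fdd_al Pool.Agent.Lib.MP_305fdd_al Pool.Agent.F8
open scoped QuadraticAlgebra

noncomputable section

private theorem CCfx_val {R K : Type} [CommRing R] [CommRing K] (f : R →+* K) (g : SL2 R) :
    (SLm f g).val = g.val.map f := rfl

private theorem CCfx_word {R ι : Type} [CommRing R] [Fintype ι] (ρ : FreeGroup ι →* SL2 R)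
    (w : FreeGroup ι) :
    ∃ D : ι → Matrix (Fin 2) (Fin 2) R, ∀ (K : Type) [Field K] (f : R →+* K)
      (z : FreeGroup ι → Fin 2 → K),
      (∀ x y, z (x * y) = z x + (SLm f (ρ x)).val.mulVec (z y)) →
        z w = ∑ i, ((D i).map f).mulVec (z (FreeGroup.of i)) := by
  classical
  have hone : ∀ (K : Type) [Field K] (f : R →+* K) (z : FreeGroup ι → Fin 2 → K),
      (∀ x y, z (x * y) = z x + (SLm f (ρ x)).val.mulVec (z y)) → z 1 = 0 := by
    intro K _ f z hz
    have h1 := hz 1 1
    rw [one_mul, map_one, map_one] at h1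
    have h2 : (1 : SL2 K).val.mulVec (z 1) = z 1 := by
      show (1 : Matrix (Fin 2) (Fin 2) K).mulVec (z 1) = z 1
      rw [Matrix.one_mulVec]
    rw [h2] at h1
    have h3 : z 1 + z 1 = z 1 + 0 := by rw [add_zero]; exact h1.symm
    exact add_left_cancel h3
  induction w using FreeGroup.induction_on with
  | C1 =>
    refine ⟨fun _ => 0, ?_⟩
    intro K _ f z hz
    rw [hone K f z hz]
    symm
    apply Finset.sum_eq_zero
    intro i _
    have h0 : (0 : Matrix (Fin 2) (Fin 2) R).map f = 0 := by
      ext a b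
      simp
    rw [h0, Matrix.zero_mulVec]
  | of i =>
    refine ⟨fun j => if j = i then 1 else 0, ?_⟩
    intro K _ f z hz
    rw [Finset.sum_eq_single i]
    · beta_reduce
      rw [if_pos rfl, Matrix.map_one f (map_zero f) (map_one f), Matrix.one_mulVec]
    · intro b _ hb
      beta_reduce
      rw [if_neg hb]
      have h0 : (0 : Matrix (Fin 2) (Fin 2) R).map f = 0 := by
        ext a b
        simp
      rw [h0, Matrix.zero_mulVec]
    · intro h
      exact absurd (Finset.mem_univ _) h
  | inv_of i ih =>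
    refine ⟨fun j => if j = i then -(ρ (FreeGroup.of i)⁻¹).val else 0, ?_⟩
    intro K _ f z hz
    rw [Finset.sum_eq_single i]
    · beta_reduce
      rw [if_pos rfl]
      have h3 := hz (FreeGroup.of i)⁻¹ (FreeGroup.of i)
      rw [inv_mul_cancel, hone K f z hz, CCfx_val] at h3
      have h4 : (-(ρ (FreeGroup.of i)⁻¹).val).map f = -((ρ (FreeGroup.of i)⁻¹).val.map f) := by
        ext a b
        simp
      rw [h4, Matrix.neg_mulVec]
      exact eq_neg_of_add_eq_zero_left h3.symm
    · intro b _ hb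
      beta_reduce
      rw [if_neg hb]
      have h0 : (0 : Matrix (Fin 2) (Fin 2) R).map f = 0 := by
        ext a b
        simp
      rw [h0, Matrix.zero_mulVec]
    · intro h
      exact absurd (Finset.mem_univ _) h
  | mul v w hv hw =>
    obtain ⟨c, hc⟩ := hv
    obtain ⟨d, hd⟩ := hw
    refine ⟨fun j => c j + (ρ v).val * d j, ?_⟩
    intro K _ f z hz
    rw [hz, hc K f z hz, hd K f z hz, Matrix.mulVec_sum, ← Finset.sum_add_distrib]
    apply Finset.sum_congr rfl
    intro j _
    have h4 : (c j + (ρ v).val * d j).map f = (c j).map f + ((ρ v).val.map f) * ((d j).map f) := by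
      rw [Matrix.map_add f (map_add f), Matrix.map_mul]
    rw [h4, Matrix.add_mulVec, CCfx_val, Matrix.mulVec_mulVec]

/-- pairs (vector, matrix) -/
private structure CCfxE (K : Type) [CommRing K] where
  /-- the vector -/
  v : Fin 2 → K
  /-- the matrix -/
  g : SL2 K

private theorem CCfxE.ext' {K : Type} [CommRing K] {x y : CCfxE K} (h1 : x.v = y.v)
    (h2 : x.g = y.g) : x = y := by
  cases x
  cases y
  simp only at h1 h2
  rw [h1, h2]

private instance CCfx_inst (K : Type) [CommRing K] : Group (CCfxE K) :=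
  letI : Mul (CCfxE K) := ⟨fun x y => ⟨x.v + x.g.val.mulVec y.v, x.g * y.g⟩⟩
  letI : One (CCfxE K) := ⟨⟨0, 1⟩⟩
  letI : Inv (CCfxE K) := ⟨fun x => ⟨-((x.g⁻¹).val.mulVec x.v), x.g⁻¹⟩⟩
  Group.ofLeftAxioms
    (fun x y z => CCfxE.ext'
      (by
        show x.v + x.g.val.mulVec y.v + (x.g * y.g).val.mulVec z.v =
          x.v + x.g.val.mulVec (y.v + y.g.val.mulVec z.v)
        rw [Matrix.mulVec_add, Matrix.mulVec_mulVec, add_assoc]
        rfl)
      (mul_assoc _ _ _))
    (fun x => CCfxE.ext'
      (by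
        show (0 : Fin 2 → K) + (1 : Matrix (Fin 2) (Fin 2) K).mulVec x.v = x.v
        rw [Matrix.one_mulVec, zero_add])
      (one_mul _))
    (fun x => CCfxE.ext'
      (by
        show -((x.g⁻¹).val.mulVec x.v) + (x.g⁻¹).val.mulVec x.v = 0
        exact neg_add_cancel _)
      (inv_mul_cancel _))

private def CCfx_pr (K : Type) [CommRing K] : CCfxE K →* SL2 K where
  toFun x := x.g
  map_one' := rfl
  map_mul' _ _ := rfl

private theorem CCfx_mul_v {K : Type} [CommRing K] (x y : CCfxE K) :
    (x * y).v = x.v + x.g.val.mulVec y.v := rfl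

private theorem CCfx_ex {ι K : Type} [CommRing K] (σ : FreeGroup ι →* SL2 K) (v : ι → Fin 2 → K) :
    ∃ z : FreeGroup ι → Fin 2 → K, (∀ x y, z (x * y) = z x + (σ x).val.mulVec (z y)) ∧
      ∀ i, z (FreeGroup.of i) = v i := by
  let Φ : FreeGroup ι →* CCfxE K := FreeGroup.lift fun i => ⟨v i, σ (FreeGroup.of i)⟩
  have h1 : (CCfx_pr K).comp Φ = σ := by
    apply FreeGroup.ext_hom
    intro i
    show (CCfx_pr K) (Φ (FreeGroup.of i)) = _
    rw [FreeGroup.lift_apply_of]
    rfl
  have h2 : ∀ x, (Φ x).g = σ x := fun x => DFunLike.congr_fun h1 x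
  refine ⟨fun x => (Φ x).v, ?_, ?_⟩
  · intro x y
    show (Φ (x * y)).v = _
    rw [map_mul, CCfx_mul_v, h2]
  · intro i
    show (Φ (FreeGroup.of i)).v = _
    rw [FreeGroup.lift_apply_of]

theorem p_CCfx : CC_fx := by
  intro R G _ _ ρ hG
  classical
  obtain ⟨S, hS, π, hπ⟩ := Group.fg_iff_exists_freeGroup_hom_surjective_finite.1 hG
  let _ : Fintype S := Fintype.ofFinite S
  choose D hD using fun w : FreeGroup S => CCfx_word (ρ.comp π) w
  let e : (S × Fin 2) ≃ Fin (Fintype.card (S × Fin 2)) := Fintype.equivFin _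
  refine ⟨{w : FreeGroup S // π w = 1} × Fin 2, Fintype.card (S × Fin 2),
    fun j x => D j.1.1 (e.symm x).1 j.2 (e.symm x).2, ?_⟩
  intro K _ f
  -- the equations
  have heq : ∀ (u : Fin (Fintype.card (S × Fin 2)) → K) (w : FreeGroup S) (k : Fin 2),
      ∑ x, f (D w (e.symm x).1 k (e.symm x).2) * u x =
        (∑ i, ((D w i).map f).mulVec (fun l => u (e (i, l)))) k := by
    intro u w k
    rw [← Equiv.sum_comp e, Fintype.sum_prod_type, Finset.sum_apply]
    apply Finset.sum_congr rfl
    intro i _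
    simp only [Equiv.symm_apply_apply]
    rfl
  let F : Z1K ((SLm f).comp ρ) →ₗ[K]
      SolR f (fun (j : {w : FreeGroup S // π w = 1} × Fin 2)
        (x : Fin (Fintype.card (S × Fin 2))) => D j.1.1 (e.symm x).1 j.2 (e.symm x).2) :=
    { toFun := fun z => ⟨fun x => z.1 (π (FreeGroup.of (e.symm x).1)) (e.symm x).2, by
        rintro ⟨⟨w, hw⟩, k⟩
        show ∑ x, f (D w (e.symm x).1 k (e.symm x).2) * _ = 0
        rw [heq]
        have h1 := hD w K f (fun x => z.1 (π x)) (fun x y => by
          show z.1 (π (x * y)) = _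
          rw [map_mul]
          exact z.2 (π x) (π y))
        have h2 : z.1 (π w) = 0 := by
          rw [hw]
          have h3 := z.2 1 1
          rw [one_mul, map_one] at h3
          have h4 : (1 : SL2 K).val.mulVec (z.1 1) = z.1 1 := by
            show (1 : Matrix (Fin 2) (Fin 2) K).mulVec (z.1 1) = z.1 1
            rw [Matrix.one_mulVec]
          rw [h4] at h3
          have h5 : z.1 1 + z.1 1 = z.1 1 + 0 := by rw [add_zero]; exact h3.symm
          exact add_left_cancel h5
        simp only [Equiv.symm_apply_apply]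
        rw [h2] at h1
        exact congrFun h1.symm k⟩
      map_add' := fun z z' => rfl
      map_smul' := fun c z => rfl }
  refine ⟨LinearEquiv.ofBijective F ⟨?_, ?_⟩⟩
  · intro z z' hzz
    have h1 : ∀ i : S, z.1 (π (FreeGroup.of i)) = z'.1 (π (FreeGroup.of i)) := by
      intro i
      funext l
      have h2 := congrFun (congrArg Subtype.val hzz) (e (i, l))
      have h3 : ∀ y : Z1K ((SLm f).comp ρ), (F y).1 (e (i, l)) = y.1 (π (FreeGroup.of i)) l := by
        intro y
        show y.1 (π (FreeGroup.of (e.symm (e (i, l))).1)) (e.symm (e (i, l))).2 = _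
        rw [Equiv.symm_apply_apply]
      rw [h3, h3] at h2
      exact h2
    apply Subtype.ext
    funext g
    obtain ⟨w, rfl⟩ := hπ g
    have h4 : ∀ y : Z1K ((SLm f).comp ρ), y.1 (π w) =
        ∑ i, ((D w i).map f).mulVec (y.1 (π (FreeGroup.of i))) := by
      intro y
      exact hD w K f (fun x => y.1 (π x)) (fun x x' => by
        show y.1 (π (x * x')) = _
        rw [map_mul]
        exact y.2 (π x) (π x'))
    rw [h4, h4]
    apply Finset.sum_congr rfl
    intro i _
    rw [h1]
  · rintro ⟨u, hu⟩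
    obtain ⟨z, hz, hzi⟩ := CCfx_ex ((SLm f).comp (ρ.comp π)) (fun (i : S) (l : Fin 2) => u (e (i, l)))
    have hz' : ∀ x y, z (x * y) = z x + (SLm f ((ρ.comp π) x)).val.mulVec (z y) := hz
    have hker : ∀ w, π w = 1 → z w = 0 := by
      intro w hw
      funext k
      rw [hD w K f z hz']
      have h1 := hu (⟨w, hw⟩, k)
      have h2 := heq u w k
      simp only at h1
      rw [h1] at h2
      rw [Pi.zero_apply, h2]
      simp only [hzi]
    have hfac : ∀ w w', π w = π w' → z w = z w' := by
      intro w w' hww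
      have h1 := hz' w (w⁻¹ * w')
      rw [mul_inv_cancel_left, hker (w⁻¹ * w') (by rw [map_mul, map_inv, hww, inv_mul_cancel]),
        Matrix.mulVec_zero, add_zero] at h1
      exact h1.symm
    choose τ hτ using hπ
    refine ⟨⟨fun g => z (τ g), ?_⟩, ?_⟩
    · intro x y
      show z (τ (x * y)) = z (τ x) + (SLm f (ρ x)).val.mulVec (z (τ y))
      rw [hfac (τ (x * y)) (τ x * τ y) (by rw [map_mul, hτ, hτ, hτ]), hz']
      show z (τ x) + (SLm f (ρ (π (τ x)))).val.mulVec (z (τ y)) = _
      rw [hτ]
    · apply Subtype.ext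
      funext x
      show z (τ (π (FreeGroup.of (e.symm x).1))) (e.symm x).2 = u x
      rw [hfac _ (FreeGroup.of (e.symm x).1) (hτ _), hzi]
      show u (e ((e.symm x).1, (e.symm x).2)) = u x
      rw [Prod.mk.eta, Equiv.apply_symm_apply]

end

end Pool.Agent.F8.CG
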