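import Pool.Agent.Lib.MP_305fdd_al.F8.CG.StmCC

/-!
# MP_305fdd_al, congruence subgroups: [CG CC ra], the rank of a system of linear equations
-/

set_option autoImplicit false

namespace Pool.Agent.F8.CG

noncomputable section

private theorem CCra_mem {R K J : Type} [CommRing R] [Field K] (f : R →+* K) {n : ℕ}
    (A : J → Fin n → R) (v : Fin n → K) : v ∈ SolR f A ↔ ∀ j, ∑ i, f (A j i) * v i = 0 := Iff.rfl

/-- the first case -/
private def CCra_eq {R K J : Type} [CommRing R] [Field K] (f : R →+* K) {n : ℕ}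
    (A : J → Fin (n + 1) → R) (h : ∀ j, A j 0 = 0) :
    SolR f A ≃ₗ[K] K × SolR f (fun j (i : Fin n) => A j i.succ) where
  toFun v := (v.1 0, ⟨fun i => v.1 i.succ, by
    rw [CCra_mem]
    intro j
    have h1 := (CCra_mem f A v.1).1 v.2 j
    rw [Fin.sum_univ_succ, h j, map_zero, zero_mul, zero_add] at h1
    exact h1⟩)
  invFun w := ⟨Fin.cons w.1 w.2.1, by
    rw [CCra_mem]
    intro j
    rw [Fin.sum_univ_succ, h j, map_zero, zero_mul, zero_add]
    simp only [Fin.cons_succ]
    exact (CCra_mem f _ w.2.1).1 w.2.2 j⟩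
  map_add' v w := rfl
  map_smul' c v := rfl
  left_inv v := by
    apply Subtype.ext
    funext i
    refine Fin.cases ?_ (fun i => ?_) i
    · simp
    · simp
  right_inv w := by
    apply Prod.ext
    · simp
    · apply Subtype.ext
      funext i
      simp

/-- the second case -/
private theorem CCra_two {R K J : Type} [CommRing R] [Field K] (f : R →+* K) {n : ℕ}
    (A : J → Fin (n + 1) → R) (j₀ : J) (h : f (A j₀ 0) ≠ 0) :
    Nonempty (SolR f A ≃ₗ[K]
      SolR f (fun j (i : Fin n) => A j₀ 0 * A j i.succ - A j 0 * A j₀ i.succ)) := by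
  have hsum : ∀ (j : J) (w : Fin n → K),
      ∑ i, f (A j₀ 0 * A j i.succ - A j 0 * A j₀ i.succ) * w i =
        f (A j₀ 0) * ∑ i, f (A j i.succ) * w i - f (A j 0) * ∑ i, f (A j₀ i.succ) * w i := by
    intro j w
    rw [Finset.mul_sum, Finset.mul_sum, ← Finset.sum_sub_distrib]
    apply Finset.sum_congr rfl
    intro i _
    rw [map_sub, map_mul, map_mul]
    ring
  have hmem : ∀ v ∈ SolR f A, LinearMap.funLeft K K Fin.succ v ∈
      SolR f (fun j (i : Fin n) => A j₀ 0 * A j i.succ - A j 0 * A j₀ i.succ) := by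
    intro v hv
    rw [CCra_mem] at hv ⊢
    intro j
    rw [hsum]
    have h1 := hv j
    have h2 := hv j₀
    rw [Fin.sum_univ_succ] at h1 h2
    simp only [LinearMap.funLeft_apply]
    linear_combination f (A j₀ 0) * h1 - f (A j 0) * h2
  let T : SolR f A →ₗ[K]
      SolR f (fun j (i : Fin n) => A j₀ 0 * A j i.succ - A j 0 * A j₀ i.succ) :=
    ((LinearMap.funLeft K K Fin.succ).comp (SolR f A).subtype).codRestrict _
      (fun v => hmem v.1 v.2)
  refine ⟨LinearEquiv.ofBijective T ⟨?_, ?_⟩⟩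
  · rw [injective_iff_map_eq_zero]
    intro v hv
    have h1 : ∀ i : Fin n, v.1 i.succ = 0 := by
      intro i
      have h2 := congrArg (fun w => w.1 i) hv
      exact h2
    have h2 := (CCra_mem f A v.1).1 v.2 j₀
    rw [Fin.sum_univ_succ] at h2
    simp only [h1, mul_zero, Finset.sum_const_zero, add_zero] at h2
    have h3 : v.1 0 = 0 := (mul_eq_zero.1 h2).resolve_left h
    apply Subtype.ext
    funext i
    refine Fin.cases ?_ (fun i => ?_) i
    · exact h3
    · exact h1 i
  · intro w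
    have hw := (CCra_mem f _ w.1).1 w.2
    refine ⟨⟨Fin.cons (-(f (A j₀ 0))⁻¹ * ∑ i, f (A j₀ i.succ) * w.1 i) w.1, ?_⟩, ?_⟩
    · rw [CCra_mem]
      intro j
      rw [Fin.sum_univ_succ]
      simp only [Fin.cons_succ, Fin.cons_zero]
      have h1 := hw j
      rw [hsum] at h1
      have h2 : f (A j₀ 0) * (f (A j 0) * (-(f (A j₀ 0))⁻¹ * ∑ i, f (A j₀ i.succ) * w.1 i) +
          ∑ i, f (A j i.succ) * w.1 i) = 0 := by
        have h3 : f (A j₀ 0) * (f (A j₀ 0))⁻¹ = 1 := mul_inv_cancel₀ h
        linear_combination h1 - f (A j 0) * (∑ i, f (A j₀ i.succ) * w.1 i) * h3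
      exact (mul_eq_zero.1 h2).resolve_left h
    · apply Subtype.ext
      funext i
      rfl

theorem p_CCra : CC_ra := by
  intro R J _ _ n
  induction n with
  | zero =>
    intro A
    refine ⟨1, 0, one_ne_zero, ?_⟩
    intro K _ f _
    exact Module.finrank_zero_of_subsingleton
  | succ n ih =>
    intro A
    by_cases h : ∀ j, A j 0 = 0
    · obtain ⟨N, r, hN, hr⟩ := ih (fun j i => A j i.succ)
      refine ⟨N, 1 + r, hN, ?_⟩
      intro K _ f hf
      rw [(CCra_eq f A h).finrank_eq, Module.finrank_prod, Module.finrank_self, hr K f hf]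
    · push Not at h
      obtain ⟨j₀, hj₀⟩ := h
      obtain ⟨N, r, hN, hr⟩ := ih (fun j i => A j₀ 0 * A j i.succ - A j 0 * A j₀ i.succ)
      refine ⟨A j₀ 0 * N, r, mul_ne_zero hj₀ hN, ?_⟩
      intro K _ f hf
      rw [map_mul] at hf
      obtain ⟨e⟩ := CCra_two f A j₀ (left_ne_zero_of_mul hf)
      rw [e.finrank_eq, hr K f (right_ne_zero_of_mul hf)]

end

end Pool.Agent.F8.CG
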