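import Pool.Agent.Lib.MP_305fdd_al.F8.CG.StmCC

/-!
# MP_305fdd_al, congruence subgroups, block Z: piece CCsp (split primes)
-/

set_option autoImplicit false

namespace Pool.Agent.F8.CG

open Pool.Agent.F8.BG Pool.Agent.MP_305fdd_al Pool.Agent.Lib.MP_305fdd_al Pool.Agent.F8
open scoped QuadraticAlgebra

noncomputable section

theorem p_CCsp : CC_sp := by
  intro a b ha n hn
  obtain ⟨k, hk⟩ : ∃ k : ℤ, k = |b| + 3 := ⟨_, rfl⟩
  have hb : 0 ≤ |b| := abs_nonneg b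
  have hn1 : (1 : ℤ) ≤ (n : ℤ) := by exact_mod_cast Nat.one_le_iff_ne_zero.2 hn
  have ha1 : 1 ≤ |a| := Int.one_le_abs ha
  have hk0 : 0 < k := by omega
  obtain ⟨y, hy⟩ : ∃ y : ℤ, y = (n : ℤ) * (k * (a * n * k - b)) - 1 := ⟨_, rfl⟩
  -- the absolute value of `y` is at least two
  have h1 : 3 ≤ |a * n * k - b| := by
    have h2 : k ≤ |a * n * k| := by
      rw [abs_mul, abs_mul, abs_of_pos hk0, abs_of_pos (lt_of_lt_of_le one_pos hn1)]
      have h3 : (1 : ℤ) ≤ |a| * n := by nlinarith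
      nlinarith
    have h4 : |a * n * k| - |b| ≤ |a * n * k - b| := abs_sub_abs_le_abs_sub _ _
    omega
  have h2 : 3 ≤ |(n : ℤ) * (k * (a * n * k - b))| := by
    rw [abs_mul, abs_mul, abs_of_pos hk0, abs_of_pos (lt_of_lt_of_le one_pos hn1)]
    have h3 : (3 : ℤ) ≤ k * |a * n * k - b| := by nlinarith
    nlinarith
  have h3 : 2 ≤ |y| := by
    have h4 : |(n : ℤ) * (k * (a * n * k - b))| - |(1 : ℤ)| ≤ |y| := by
      rw [hy]
      exact abs_sub_abs_le_abs_sub _ _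
    rw [abs_one] at h4
    omega
  have h4 : y.natAbs ≠ 1 := by
    intro h5
    rw [Int.abs_eq_natAbs, h5] at h3
    norm_num at h3
  obtain ⟨q, hqdef⟩ : ∃ q : ℕ, q = Nat.minFac y.natAbs := ⟨_, rfl⟩
  have hq : q.Prime := hqdef ▸ Nat.minFac_prime h4
  have hqy : (q : ℤ) ∣ y := by
    rw [hqdef]
    exact Int.natCast_dvd.2 (Nat.minFac_dvd _)
  refine ⟨q, ⟨hq⟩, ((a * n * k : ℤ) : ZMod q), fun hqn => ?_, ?_⟩
  · have h5 : (q : ℤ) ∣ (n : ℤ) := Int.natCast_dvd_natCast.2 hqn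
    have h6 : (q : ℤ) ∣ 1 := by
      have h7 : (1 : ℤ) = (n : ℤ) * (k * (a * n * k - b)) - y := by rw [hy]; ring
      rw [h7]
      exact dvd_sub (dvd_mul_of_dvd_left h5 _) hqy
    have h8 : q ∣ 1 := by exact_mod_cast h6
    exact hq.one_lt.ne' (Nat.dvd_one.1 h8)
  · have h5 : ((y : ℤ) : ZMod q) = 0 := (ZMod.intCast_zmod_eq_zero_iff_dvd y q).2 hqy
    have h6 : (a * n * k) * (a * n * k) = a + b * (a * n * k) + a * y := by
      rw [hy]; ring
    have h7 := congrArg (fun z : ℤ => (z : ZMod q)) h6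
    simp only [Int.cast_add, Int.cast_mul] at h7
    rw [h5, mul_zero, add_zero] at h7
    simp only [Int.cast_mul]
    exact h7

end

end Pool.Agent.F8.CG
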