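import Pool.Agent.Lib.MP_305fdd_al.F8.CG.StmCC
import Pool.Agent.Lib.MP_305fdd_al.F8.Tower

set_option autoImplicit false

namespace Pool.Agent.F8.CG

open Pool.Agent.F8.BG Pool.Agent.MP_305fdd_al Pool.Agent.Lib.MP_305fdd_al Pool.Agent.F8
open scoped QuadraticAlgebra

noncomputable section

/-- transport of crossed homomorphisms along an isomorphism of groups -/
private def CCtwo_eq {W A K : Type} [Group W] [Group A] [CommRing K] (e : A ≃* W) (σ : W →* SL2 K)
    (τ : A →* SL2 K) (h : ∀ x, τ x = σ (e x)) : Z1K σ ≃ₗ[K] Z1K τ where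
  toFun z := ⟨fun x => z.1 (e x), by
    intro x y
    show z.1 (e (x * y)) = z.1 (e x) + (τ x).val.mulVec (z.1 (e y))
    rw [map_mul, z.2 (e x) (e y), h]⟩
  invFun z := ⟨fun x => z.1 (e.symm x), by
    intro x y
    show z.1 (e.symm (x * y)) = z.1 (e.symm x) + (σ x).val.mulVec (z.1 (e.symm y))
    rw [map_mul, z.2 (e.symm x) (e.symm y), h, MulEquiv.apply_symm_apply]⟩
  map_add' z z' := rfl
  map_smul' c z := rfl
  left_inv z := by
    ext x i
    show z.1 (e (e.symm x)) i = z.1 x i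
    rw [MulEquiv.apply_symm_apply]
  right_inv z := by
    ext x i
    show z.1 (e.symm (e x)) i = z.1 x i
    rw [MulEquiv.symm_apply_apply]

private theorem CCtwo_inj (a b : ℤ) (h : b ^ 2 + 4 * a < 0) : Function.Injective (iC a b) := by
  rw [injective_iff_map_eq_zero]
  intro q h0
  rw [iC_apply] at h0
  have him := congrArg Complex.im h0
  have hre := congrArg Complex.re h0
  have hw := (wC_im h).ne'
  simp only [Complex.add_im, Complex.intCast_im, Complex.mul_im, Complex.intCast_re, zero_mul,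
    Complex.zero_im, zero_add, add_zero] at him
  rcases mul_eq_zero.1 him with h1 | h1
  · have h2 : q.im = 0 := by exact_mod_cast h1
    rw [h2] at hre
    simp at hre
    ext
    · exact_mod_cast hre
    · exact h2
  · exact absurd h1 hw

private theorem CCtwo_idx {G Q : Type} [Group G] [Group Q] [Finite Q] (θ : G →* Q) (S : Subgroup Q) :
    (S.comap θ).index ≠ 0 := by
  have h1 : θ.ker ≤ S.comap θ := fun x hx => by
    show θ x ∈ S
    rw [MonoidHom.mem_ker.1 hx]; exact S.one_mem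
  have h2 : θ.ker.index ≠ 0 := (Subgroup.finiteIndex_ker θ).index_ne_zero
  exact fun h => h2 (Nat.eq_zero_of_zero_dvd (h ▸ Subgroup.index_dvd_of_le h1))

private theorem CCtwo_side {a b : ℤ} (hFG : Group.FG (GQ a b)) (M₀ : ℕ) (hLD : LD a b M₀)
    (G₁ : Subgroup (GQ a b)) (h1 : G₁ ≤ Gam a b M₀) (hf : G₁.FiniteIndex) (A : Subgroup G₁)
    (hA : A.index ≠ 0) : Group.FG A ∧ Finite (Cusp (A.map G₁.subtype)) ∧
      Module.finrank ℂ (Z1K ((SLm (iC a b)).comp (G₁.subtype.comp A.subtype))) =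
        2 + Nat.card (Cusp (A.map G₁.subtype)) := by
  have hi : (A.map G₁.subtype).FiniteIndex := by
    refine ⟨?_⟩
    rw [Subgroup.index_map_subtype]
    exact mul_ne_zero hA hf.index_ne_zero
  have hle : A.map G₁.subtype ≤ Gam a b M₀ := by
    refine le_trans ?_ h1
    rintro x ⟨y, -, rfl⟩
    exact y.2
  obtain ⟨hfin, hdim⟩ := hLD (A.map G₁.subtype) hle hi
  let e : A ≃* A.map G₁.subtype := A.equivMapOfInjective G₁.subtype G₁.subtype_injective
  have hFG' : Group.FG (A.map G₁.subtype) := by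
    have := hFG
    exact inferInstance
  refine ⟨?_, hfin, ?_⟩
  · exact Group.fg_of_surjective (f := e.symm.toMonoidHom) e.symm.surjective
  · rw [← hdim]
    have e1 : Z1K ((iG a b).comp (A.map G₁.subtype).subtype) ≃ₗ[ℂ]
        Z1K ((SLm (iC a b)).comp (G₁.subtype.comp A.subtype)) :=
      CCtwo_eq e _ _ (fun x => rfl)
    exact e1.finrank_eq.symm

theorem p_CCtwo (hone : CC_one) (_hcu : CC_cu) : CC_two := by
  intro a b hab hFG M₀ hLD G₁ G₂ h1 h2 hf1 hf2 Ψ hR Q _ _ θ S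
  obtain ⟨Ψ', hΨ'⟩ := natBij_comap Ψ (π := θ) (π' := Ψ.toFun Q θ) rfl S
  obtain ⟨a1, a2, a3⟩ := CCtwo_side hFG M₀ hLD G₁ h1 hf1 (S.comap θ) (CCtwo_idx θ S)
  obtain ⟨b1, b2, b3⟩ := CCtwo_side hFG M₀ hLD G₂ h2 hf2 (S.comap (Ψ.toFun Q θ))
    (CCtwo_idx (Ψ.toFun Q θ) S)
  have hR' : RhoG (G₁.subtype.comp (S.comap θ).subtype) Ψ'
      (G₂.subtype.comp (S.comap (Ψ.toFun Q θ)).subtype) := by
    intro m _
    obtain ⟨C, E, hC, hE, hl⟩ := hR m
    refine ⟨C, E, hC, hE, fun l => ?_⟩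
    have h3 := hΨ' _ ((rdq a b m).comp G₁.subtype)
    have h4 : Ψ'.toFun _ ((rdq a b m).comp (G₁.subtype.comp (S.comap θ).subtype)) l =
        Ψ.toFun _ ((rdq a b m).comp G₁.subtype) l := DFunLike.congr_fun h3 l
    rw [h4]
    exact hl l
  have h5 := hone a b hab _ _ a1 b1 _ _ Ψ' hR' ℂ (iC a b) (CCtwo_inj a b hab)
  refine ⟨a2, b2, ?_⟩
  omega

end

end Pool.Agent.F8.CG
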