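import Pool.Agent.Lib.MP_305fdd_al.F8.CG.StmCC

/-!
# MP_305fdd_al, congruence subgroups, block Z, piece FP act: two actions with the same numbers of orbits
-/

set_option autoImplicit false

namespace Pool.Agent.F8.CG

/-- an action with finitely many orbits of the trivial subgroup is finite -/
theorem FPact_fin {Q X : Type} [Group Q] [MulAction Q X]
    (h : Finite (MulAction.orbitRel.Quotient (⊥ : Subgroup Q) X)) : Finite X := by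
  apply Finite.of_injective
    (fun x : X => (Quotient.mk'' x : MulAction.orbitRel.Quotient (⊥ : Subgroup Q) X))
  intro x y hxy
  have h1 : MulAction.orbitRel (⊥ : Subgroup Q) X x y := Quotient.exact' hxy
  rw [MulAction.orbitRel_apply] at h1
  obtain ⟨⟨g, hg⟩, hgy⟩ := h1
  rw [Subgroup.mem_bot] at hg
  subst hg
  have h2 : (1 : Q) • y = x := hgy
  rw [one_smul] at h2
  exact h2.symm

theorem p_FPact (hquo : FP_quo) (hbur : FP_bur) : FP_act := by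
  intro G₁ G₂ P₁ P₂ Q _ _ _ _ _ _ θ₁ θ₂ h₁ h₂ hS g₂ ⟨x, hx⟩
  obtain ⟨X₁, a₁, π₁, hs₁, he₁, hk₁, ho₁⟩ := hquo G₁ P₁ Q θ₁ h₁
  obtain ⟨X₂, a₂, π₂, hs₂, he₂, hk₂, ho₂⟩ := hquo G₂ P₂ Q θ₂ h₂
  have hf₁ : Finite X₁ := by
    obtain ⟨e⟩ := ho₁ ⊥
    obtain ⟨hf, -, -⟩ := hS ⊥
    exact FPact_fin (Finite.of_equiv _ e)
  have hf₂ : Finite X₂ := by
    obtain ⟨e⟩ := ho₂ ⊥
    obtain ⟨-, hf, -⟩ := hS ⊥
    exact FPact_fin (Finite.of_equiv _ e)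
  have hcard : ∀ S : Subgroup Q, Nat.card (MulAction.orbitRel.Quotient S X₁) =
      Nat.card (MulAction.orbitRel.Quotient S X₂) := by
    intro S
    obtain ⟨e₁⟩ := ho₁ S
    obtain ⟨e₂⟩ := ho₂ S
    rw [← Nat.card_congr e₁, ← Nat.card_congr e₂]
    exact (hS S).2.2
  have hfix := hbur Q X₁ X₂ hcard (θ₂ g₂)
  have hmem : π₂ x ∈ MulAction.fixedBy X₂ (θ₂ g₂) := by
    rw [MulAction.mem_fixedBy, ← he₂, hx]
  have hpos : 0 < Nat.card (MulAction.fixedBy X₂ (θ₂ g₂)) := by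
    haveI : Nonempty (MulAction.fixedBy X₂ (θ₂ g₂)) := ⟨⟨_, hmem⟩⟩
    exact Nat.card_pos
  rw [← hfix] at hpos
  obtain ⟨⟨y, hy⟩⟩ := (Nat.card_pos_iff.1 hpos).1
  rw [MulAction.mem_fixedBy] at hy
  obtain ⟨x₁, rfl⟩ := hs₁ y
  obtain ⟨g, hg⟩ := h₁ (θ₂ g₂)
  have h3 : π₁ (g • x₁) = π₁ x₁ := by rw [he₁, hg, hy]
  obtain ⟨k, hk, hkx⟩ := (hk₁ _ _).1 h3
  refine ⟨k * g, ?_, x₁, ?_⟩
  · rw [map_mul, MonoidHom.mem_ker.1 hk, one_mul, hg]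
  · rw [mul_smul, hkx]

end Pool.Agent.F8.CG
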