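import Pool.Agent.Lib.MP_305fdd_al.F8.CG.StmCC

/-!
# MP_305fdd_al, project CG, block Z: unipotent elements correspond to unipotent elements
-/

set_option autoImplicit false

namespace Pool.Agent.F8.CG

open Pool.Agent.F8.BG Pool.Agent.MP_305fdd_al Pool.Agent.Lib.MP_305fdd_al Pool.Agent.F8
open scoped QuadraticAlgebra

noncomputable section

theorem FPmain_fix {a b : ℤ} {u : GQ a b} (hu : Unip u) : ∃ x : Pr a b, u • x = x := by
  obtain ⟨g, t, rfl⟩ := hu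
  refine ⟨(g : Pr a b), ?_⟩
  have h1 : (g * eU t * g⁻¹) • (g : Pr a b) = ((g * eU t * g⁻¹ * g : GQ a b) : Pr a b) := rfl
  rw [h1, QuotientGroup.eq]
  have h2 : (g * eU t * g⁻¹ * g)⁻¹ * g = (eU t)⁻¹ := by group
  rw [h2]
  apply (Bor a b).inv_mem
  show (eU t : GQ a b).val 1 0 = 0
  rfl

theorem p_FPmain (htwo : CC_two) (hcu : CC_cu) (hact : FP_act) (huni : FP_uni) : FP_main := by
  intro a b hn hfg M₀ h3 hLD G₁ G₂ h1 h2 f1 f2 Ψ hΨ Q _ _ θ u hu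
  let θ₁ : G₁ →* θ.range := θ.rangeRestrict
  let θ₂ : G₂ →* θ.range := Ψ.toFun _ θ₁
  have hnat : Ψ.toFun Q θ = θ.range.subtype.comp θ₂ := Ψ.nat θ.range.subtype θ₁
  have s1 : Function.Surjective θ₁ := θ.rangeRestrict_surjective
  have s2 : Function.Surjective θ₂ := by
    rw [← MonoidHom.range_eq_top, Ψ.range_eq θ₁, MonoidHom.range_eq_top]
    exact s1
  obtain ⟨x, hx⟩ := FPmain_fix hu
  obtain ⟨p, hp, y, hy⟩ := hact G₁ G₂ (Pr a b) (Pr a b) θ.range θ₁ θ₂ s1 s2 (fun S => by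
    obtain ⟨e1⟩ := hcu (GQ a b) (Pr a b) G₁ (S.comap θ₁)
    obtain ⟨e2⟩ := hcu (GQ a b) (Pr a b) G₂ (S.comap θ₂)
    obtain ⟨k1, k2, k3⟩ := htwo a b hn hfg M₀ hLD G₁ G₂ h1 h2 f1 f2 Ψ hΨ θ.range θ₁ S
    exact ⟨@Finite.of_equiv _ _ k1 e1, @Finite.of_equiv _ _ k2 e2,
      (Nat.card_congr e1).symm.trans (k3.trans (Nat.card_congr e2))⟩) u ⟨x, hx⟩
  refine ⟨p, huni a b hn M₀ h3 p.val (h1 p.2) ⟨y, hy⟩, ?_⟩
  rw [hnat]
  exact congrArg Subtype.val hp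

end

end Pool.Agent.F8.CG
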