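import Pool.Agent.Lib.MP_305fdd_al.F8.CG.StmCC

/-!
# MP_305fdd_al, congruence subgroups: the action of the quotient group on the orbits of the kernel (`FP_quo`)
-/

set_option autoImplicit false

namespace Pool.Agent.F8.CG

theorem p_FPquo : FP_quo := by
  intro G P Q _ _ _ θ hθ
  classical
  -- the projection
  let X : Type := MulAction.orbitRel.Quotient θ.ker P
  let pr : P → X := fun x => Quotient.mk (MulAction.orbitRel θ.ker P) x
  have hpr : ∀ x y, pr x = pr y ↔ ∃ k ∈ θ.ker, k • x = y := by
    intro x y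
    show Quotient.mk (MulAction.orbitRel θ.ker P) x = Quotient.mk (MulAction.orbitRel θ.ker P) y ↔ _
    rw [Quotient.eq, MulAction.orbitRel_apply, MulAction.mem_orbit_iff]
    constructor
    · rintro ⟨⟨k, hk⟩, h⟩
      refine ⟨k⁻¹, θ.ker.inv_mem hk, ?_⟩
      rw [← h]
      show k⁻¹ • k • y = y
      rw [inv_smul_smul]
    · rintro ⟨k, hk, h⟩
      refine ⟨⟨k⁻¹, θ.ker.inv_mem hk⟩, ?_⟩
      rw [← h]
      show k⁻¹ • k • x = x
      rw [inv_smul_smul]
  have hprs : Function.Surjective pr := Quotient.mk_surjective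
  -- the compatibility
  have hcomp : ∀ (g g' : G) (x x' : P), θ g = θ g' → pr x = pr x' → pr (g • x) = pr (g' • x') := by
    intro g g' x x' hg hx
    obtain ⟨k, hk, rfl⟩ := (hpr x x').1 hx
    rw [hpr]
    refine ⟨g' * k * g⁻¹, ?_, ?_⟩
    · rw [MonoidHom.mem_ker] at hk ⊢
      rw [map_mul, map_mul, map_inv, hk, hg, mul_one, mul_inv_cancel]
    · rw [smul_smul, smul_smul, inv_mul_cancel_right]
  let gs : Q → G := fun q => (hθ q).choose
  have hgs : ∀ q, θ (gs q) = q := fun q => (hθ q).choose_spec
  let xs : X → P := fun x => (hprs x).choose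
  have hxs : ∀ x, pr (xs x) = x := fun x => (hprs x).choose_spec
  let act : MulAction Q X :=
    { smul := fun q x => pr (gs q • xs x)
      one_smul := by
        intro x
        show pr (gs 1 • xs x) = x
        rw [hcomp (gs 1) 1 (xs x) (xs x) (by rw [hgs, map_one]) rfl, one_smul, hxs]
      mul_smul := by
        intro q q' x
        show pr (gs (q * q') • xs x) = pr (gs q • xs (pr (gs q' • xs x)))
        rw [hcomp (gs (q * q')) (gs q * gs q') (xs x) (xs x) (by rw [map_mul, hgs, hgs, hgs]) rfl,
          mul_smul]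
        exact hcomp _ _ _ _ rfl (hxs _).symm }
  have heq : ∀ g x, pr (g • x) = act.toSMul.smul (θ g) (pr x) := by
    intro g x
    show pr (g • x) = pr (gs (θ g) • xs (pr x))
    exact hcomp _ _ _ _ (hgs _).symm (hxs _).symm
  refine ⟨X, act, pr, hprs, heq, hpr, ?_⟩
  intro S
  letI := act
  have heq' : ∀ (g : G) (x : P), pr (g • x) = θ g • pr x := heq
  -- the bijection
  have key : ∀ x y : P, (MulAction.orbitRel (S.comap θ) P) x y ↔
      (MulAction.orbitRel S X) (pr x) (pr y) := by
    intro x y
    rw [MulAction.orbitRel_apply, MulAction.mem_orbit_iff, MulAction.orbitRel_apply,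
      MulAction.mem_orbit_iff]
    constructor
    · rintro ⟨⟨g, hg⟩, h⟩
      refine ⟨⟨θ g, hg⟩, ?_⟩
      rw [← h]
      exact (heq' g y).symm
    · rintro ⟨⟨q, hq⟩, h⟩
      obtain ⟨g, rfl⟩ := hθ q
      have h1 : pr (g • y) = pr x := by
        rw [heq' g y]
        exact h
      obtain ⟨k, hk, h2⟩ := (hpr _ _).1 h1
      refine ⟨⟨k * g, ?_⟩, ?_⟩
      · rw [Subgroup.mem_comap, map_mul, (MonoidHom.mem_ker).1 hk, one_mul]
        exact hq
      · show (k * g) • y = x
        rw [mul_smul, h2]
  let F : MulAction.orbitRel.Quotient (S.comap θ) P → MulAction.orbitRel.Quotient S X :=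
    Quotient.map pr (fun x y h => (key x y).1 h)
  refine ⟨Equiv.ofBijective F ⟨?_, ?_⟩⟩
  · intro u v
    induction u using Quotient.inductionOn with
    | h x =>
      induction v using Quotient.inductionOn with
      | h y =>
        intro h
        apply Quotient.sound
        exact (key x y).2 (Quotient.exact h)
  · intro u
    induction u using Quotient.inductionOn with
    | h x =>
      obtain ⟨y, rfl⟩ := hprs x
      exact ⟨Quotient.mk _ y, rfl⟩

end Pool.Agent.F8.CG
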