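import Pool.Agent.Lib.MP_305fdd_al.F8.CG.StmCC
import Pool.Agent.Lib.MP_305fdd_al.F8.CG.P_Cun
import Pool.Agent.Lib.MP_305fdd_al.F8.BG.P_con

/-!
# MP_305fdd_al, congruence subgroups: piece [CG FPuni], elements with a fixed point are unipotent
-/

set_option autoImplicit false

namespace Pool.Agent.F8.CG

open Pool.Agent.F8.BG Pool.Agent.MP_305fdd_al Pool.Agent.Lib.MP_305fdd_al Pool.Agent.F8
open scoped QuadraticAlgebra

/-- upper triangular matrices which are one modulo `m` -/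
private theorem FPuni_up {a b : ℤ} (hab : b ^ 2 + 4 * a < 0) {m : ℕ} (hm : 3 ≤ m)
    {g : GQ a b} (h : rdq a b m g = 1) (h0 : g.val 1 0 = 0) : g = eU (g.val 0 1) := by
  have hd := G.SL_det g
  rw [h0, mul_zero, sub_zero] at hd
  have h00 := con_ent h 0 0
  have o1 : ((1 : GQ a b).val 0 0).re = 1 := rfl
  have o2 : ((1 : GQ a b).val 0 0).im = 0 := rfl
  rw [o1, o2, sub_zero] at h00
  have e00 : g.val 0 0 = 1 := p_Cun a b hab m hm _ _ hd h00.1 h00.2
  have e11 : g.val 1 1 = 1 := by rwa [e00, one_mul] at hd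
  apply G.SL_ext
  · rw [e00]; rfl
  · rfl
  · rw [h0]; rfl
  · rw [e11]; rfl

theorem p_FPuni : FP_uni := by
  rintro a b hab m hm p hp ⟨x, hx⟩
  induction x using QuotientGroup.induction_on with
  | H g =>
    have h1 : ((g : GQ a b) : Pr a b) = ((p * g : GQ a b) : Pr a b) := hx.symm
    rw [QuotientGroup.eq] at h1
    have h2 : rdq a b m (g⁻¹ * (p * g)) = 1 := by
      have h3 : rdq a b m p = 1 := hp
      rw [map_mul, map_mul, h3, one_mul, map_inv, inv_mul_cancel]
    have h4 := FPuni_up hab hm h2 h1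
    refine ⟨g, (g⁻¹ * (p * g)).val 0 1, ?_⟩
    rw [← h4]
    group

end Pool.Agent.F8.CG
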