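import Pool.Agent.Lib.MP_305fdd_al.F8.CG.P_CCone
import Pool.Agent.Lib.MP_305fdd_al.F8.CG.P_CCsp
import Pool.Agent.Lib.MP_305fdd_al.F8.CG.P_CCra
import Pool.Agent.Lib.MP_305fdd_al.F8.CG.P_CCfx
import Pool.Agent.Lib.MP_305fdd_al.F8.CG.P_CCcd
import Pool.Agent.Lib.MP_305fdd_al.F8.CG.P_CCcj
import Pool.Agent.Lib.MP_305fdd_al.F8.CG.P_CCcu
import Pool.Agent.Lib.MP_305fdd_al.F8.CG.P_CCtwo
import Pool.Agent.Lib.MP_305fdd_al.F8.CG.P_FPquo
import Pool.Agent.Lib.MP_305fdd_al.F8.CG.P_FPbur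
import Pool.Agent.Lib.MP_305fdd_al.F8.CG.P_FPact
import Pool.Agent.Lib.MP_305fdd_al.F8.CG.P_FPuni
import Pool.Agent.Lib.MP_305fdd_al.F8.CG.P_FPmain

/-!
# MP_305fdd_al, congruence subgroups, block Z: assembly of the parts CC and FP
-/

set_option autoImplicit false

namespace Pool.Agent.F8.CG

/-- The dimensions of the spaces of crossed homomorphisms agree. -/
theorem m_CCone : CC_one := p_CCone p_CCsp p_CCra p_CCfx p_CCcd p_CCcj

/-- The numbers of the cusps agree. -/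
theorem m_CCtwo : CC_two := p_CCtwo m_CCone p_CCcu

/-- Unipotent elements correspond to unipotent elements in the finite quotients. -/
theorem m_FP : FP_main := p_FPmain m_CCtwo p_CCcu (p_FPact p_FPquo p_FPbur) p_FPuni

end Pool.Agent.F8.CG
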