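import Pool.Agent.Lib.MP_305fdd_al.F8.CG.MainW3
import Pool.Agent.Lib.MP_305fdd_al.F8.CG.DefsL

/-!
# MP_305fdd_al, congruence subgroups of `PSL₂(R)` for a ring `R` isomorphic to `ℤ[w]`: the main theorems
-/

set_option autoImplicit false

namespace Pool.Agent.F8.CG

open Pool.Agent.F8.BG Pool.Agent.MP_305fdd_al Pool.Agent.Lib.MP_305fdd_al Pool.Agent.F8
open scoped QuadraticAlgebra

noncomputable section

variable {a b : ℤ} {R : Type} [CommRing R] (e : Qf a b ℤ ≃+* R)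

/-! ### The groups `Γ(I)`, `Γ₁(I)`, `Γ₀(I)` -/

theorem map_G (I : Ideal R) (x : GQ a b) : SLm (e : Qf a b ℤ →+* R) x ∈ Cong.G I ↔
    x ∈ Cong.G (I.comap (e : Qf a b ℤ →+* R)) := by
  have key : ∀ (S : Type) [CommRing S] (J : Ideal S) (y : SL2 S), y ∈ Cong.G J ↔
      ∀ i j, y.val i j - (1 : Matrix (Fin 2) (Fin 2) S) i j ∈ J := by
    intro S _ J y
    constructor
    · intro h i j
      have h1 : Matrix.SpecialLinearGroup.map (Ideal.Quotient.mk J) y =
          Matrix.SpecialLinearGroup.map (Ideal.Quotient.mk J) 1 := by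
        rw [map_one]; exact h
      have h2 : Ideal.Quotient.mk J (y.val i j) = Ideal.Quotient.mk J
          ((1 : Matrix (Fin 2) (Fin 2) S) i j) :=
        congrArg (fun y : SL2 (S ⧸ J) => y.val i j) h1
      exact Ideal.Quotient.eq.1 h2
    · intro h
      show Matrix.SpecialLinearGroup.map (Ideal.Quotient.mk J) y = 1
      rw [← map_one (Matrix.SpecialLinearGroup.map (Ideal.Quotient.mk J))]
      exact Subtype.ext (Matrix.ext fun i j => Ideal.Quotient.eq.2 (h i j))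
  rw [key, key]
  refine forall_congr' fun i => forall_congr' fun j => ?_
  rw [Ideal.mem_comap]
  have h1 : (e : Qf a b ℤ →+* R) (x.val i j - (1 : Matrix (Fin 2) (Fin 2) (Qf a b ℤ)) i j) =
      (SLm (e : Qf a b ℤ →+* R) x).val i j - (1 : Matrix (Fin 2) (Fin 2) R) i j := by
    rw [map_sub]
    congr 1
    by_cases h : i = j
    · subst h; simp
    · simp [h]
  rw [h1]

theorem map_G1 (I : Ideal R) (x : GQ a b) : SLm (e : Qf a b ℤ →+* R) x ∈ Cong.G1 I ↔
    x ∈ Cong.G1 (I.comap (e : Qf a b ℤ →+* R)) := by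
  show ((e : Qf a b ℤ →+* R) (x.val 0 0) - 1 ∈ I ∧ (e : Qf a b ℤ →+* R) (x.val 1 0) ∈ I ∧
    (e : Qf a b ℤ →+* R) (x.val 1 1) - 1 ∈ I) ↔ ((e : Qf a b ℤ →+* R) (x.val 0 0 - 1) ∈ I ∧
    (e : Qf a b ℤ →+* R) (x.val 1 0) ∈ I ∧ (e : Qf a b ℤ →+* R) (x.val 1 1 - 1) ∈ I)
  rw [map_sub, map_sub, map_one]

theorem map_G0 (I : Ideal R) (x : GQ a b) : SLm (e : Qf a b ℤ →+* R) x ∈ Cong.G0 I ↔
    x ∈ Cong.G0 (I.comap (e : Qf a b ℤ →+* R)) := Iff.rfl

theorem comap_ne_bot (I : Ideal R) (hI : I ≠ ⊥) : I.comap (e : Qf a b ℤ →+* R) ≠ ⊥ := by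
  obtain ⟨z, hz, h0⟩ := Submodule.exists_mem_ne_zero_of_ne_bot hI
  intro h
  have h1 : e.symm z ∈ I.comap (e : Qf a b ℤ →+* R) := by
    show e (e.symm z) ∈ I
    rw [e.apply_symm_apply]
    exact hz
  rw [h, Ideal.mem_bot] at h1
  apply h0
  rw [← e.apply_symm_apply z, h1, map_zero]

include e in
/-- `PΓ(I)` is profinitely rigid -/
theorem PG_rigid (H : DatC a b) (I : Ideal R) (hI : I ≠ ⊥) :
    ProfinitelyRigid (Cong.P (Cong.G I)) := by
  obtain ⟨M', -, HR⟩ := H.datR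
  have hJ := comap_ne_bot e I hI
  obtain ⟨m, hm, hmI⟩ := ex_nat H.neg hJ
  have : NeZero m := ⟨hm⟩
  exact P_rigid blk HR e (Cong.G (I.comap (e : Qf a b ℤ →+* R))) (gam_le_G hmI)
    (gen_G H.neg hJ HR.ne) (dg_G hmI) (Cong.G I) (map_G e I)

include e in
/-- `PΓ₁(I)` is profinitely rigid -/
theorem PG1_rigid (H : DatC a b) (I : Ideal R) (hI : I ≠ ⊥) :
    ProfinitelyRigid (Cong.P (Cong.G1 I)) := by
  obtain ⟨M', -, HR⟩ := H.datR
  have hJ := comap_ne_bot e I hI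
  obtain ⟨m, hm, hmI⟩ := ex_nat H.neg hJ
  have : NeZero m := ⟨hm⟩
  exact P_rigid blk HR e (Cong.G1 (I.comap (e : Qf a b ℤ →+* R)))
    ((gam_le_G hmI).trans (G_le_G1 _)) (gen_G1 H.neg hJ HR.ne) (dg_G1 hmI) (Cong.G1 I) (map_G1 e I)

/-! ### All congruence subgroups -/

/-- the preimage in `SL₂(ℤ[w])` -/
def preP (P : Subgroup (Matrix.ProjectiveSpecialLinearGroup (Fin 2) R)) : Subgroup (GQ a b) :=
  P.comap (Cong.cl.comp (SLm (e : Qf a b ℤ →+* R)))

theorem mem_pre {P : Subgroup (Matrix.ProjectiveSpecialLinearGroup (Fin 2) R)} {x : GQ a b} :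
    x ∈ preP e P ↔ Cong.cl (SLm (e : Qf a b ℤ →+* R) x) ∈ P := Iff.rfl

theorem cl_neg (x : SL2 R) : Cong.cl (-x) = Cong.cl x := mk_neg x

theorem neg_mem_pre (P : Subgroup (Matrix.ProjectiveSpecialLinearGroup (Fin 2) R)) :
    -1 ∈ preP e P := by
  rw [mem_pre, SLm_neg, cl_neg, map_one, map_one]
  exact one_mem _

/-- the projection -/
def prp (P : Subgroup (Matrix.ProjectiveSpecialLinearGroup (Fin 2) R)) : preP e P →* P :=
  ((Cong.cl.comp (SLm (e : Qf a b ℤ →+* R))).comp (preP e P).subtype).codRestrict P fun x => x.2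

theorem cl_surj : Function.Surjective (Cong.cl (R := R)) := QuotientGroup.mk'_surjective _

theorem clS_surj : Function.Surjective (Cong.cl.comp (SLm (e : Qf a b ℤ →+* R))) :=
  cl_surj.comp (SLm_surj e)

theorem prp_surj (P : Subgroup (Matrix.ProjectiveSpecialLinearGroup (Fin 2) R)) :
    Function.Surjective (prp e P) := by
  rintro ⟨y, hy⟩
  obtain ⟨x, rfl⟩ := clS_surj e y
  exact ⟨⟨x, hy⟩, rfl⟩

theorem prp_ker (hdom : IsDomain R) (P : Subgroup (Matrix.ProjectiveSpecialLinearGroup (Fin 2) R))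
    (x : preP e P) : prp e P x = 1 ↔ x.val = 1 ∨ x.val = -1 := by
  have h1 : x.val = 1 ↔ x.val.val = 1 := Subtype.ext_iff
  have h2 : x.val = -1 ↔ x.val.val = -1 := Subtype.ext_iff
  rw [h1, h2, ← SLm_inj e, ← SLm_inj' e, ← mk_eq_one]
  constructor
  · intro h
    exact congrArg Subtype.val h
  · intro h
    exact Subtype.ext h

/-- the subgroup of `PSL₂(R)` -/
def im (D : Subgroup (GQ a b)) : Subgroup (Matrix.ProjectiveSpecialLinearGroup (Fin 2) R) :=
  D.map (Cong.cl.comp (SLm (e : Qf a b ℤ →+* R)))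

theorem pre_im (hdom : IsDomain R) (D : Subgroup (GQ a b)) (hn : -1 ∈ D) : preP e (im e D) = D := by
  apply le_antisymm
  · rintro x ⟨y, hy, hxy⟩
    have h1 : (Cong.cl.comp (SLm (e : Qf a b ℤ →+* R))) (x * y⁻¹) = 1 := by
      rw [map_mul, map_inv, hxy, mul_inv_cancel]
    have h2 : x * y⁻¹ = 1 ∨ x * y⁻¹ = -1 := by
      have h3 : (x * y⁻¹) = 1 ↔ (x * y⁻¹).val = 1 := Subtype.ext_iff
      have h4 : (x * y⁻¹) = -1 ↔ (x * y⁻¹).val = -1 := Subtype.ext_iff
      rw [h3, h4, ← SLm_inj e, ← SLm_inj' e, ← mk_eq_one]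
      exact h1
    have h3 : x = x * y⁻¹ * y := by rw [inv_mul_cancel_right]
    rw [h3]
    rcases h2 with h2 | h2
    · rw [h2]; exact mul_mem (one_mem _) hy
    · rw [h2]; exact mul_mem hn hy
  · intro x hx
    exact ⟨x, hx, rfl⟩

theorem index_pre (P : Subgroup (Matrix.ProjectiveSpecialLinearGroup (Fin 2) R)) :
    (preP e P).index = P.index := Subgroup.index_comap_of_surjective P (clS_surj e)

theorem le_pre {P : Subgroup (Matrix.ProjectiveSpecialLinearGroup (Fin 2) R)} {m : ℕ}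
    (h : Cong.P (Cong.G (Ideal.span {(m : R)})) ≤ P) : Gam a b m ≤ preP e P := by
  intro x hx
  rw [mem_pre]
  apply h
  refine ⟨_, ?_, rfl⟩
  rw [SetLike.mem_coe, map_G]
  refine gam_le_G ?_ hx
  show e (m : Qf a b ℤ) ∈ Ideal.span {(m : R)}
  rw [map_natCast]
  exact Ideal.mem_span_singleton_self _

theorem le_im {D : Subgroup (GQ a b)} {m : ℕ} (h : Gam a b m ≤ D) :
    Cong.P (Cong.G (Ideal.span {(m : R)})) ≤ im e D := by
  rintro _ ⟨y, hy, rfl⟩
  obtain ⟨x, rfl⟩ := SLm_surj e y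
  refine ⟨x, h ?_, rfl⟩
  rw [SetLike.mem_coe, map_G] at hy
  rw [← G_span]
  have h1 : Ideal.comap (e : Qf a b ℤ →+* R) (Ideal.span {(m : R)}) =
      Ideal.span {(m : Qf a b ℤ)} := by
    ext z
    rw [Ideal.mem_comap, Ideal.mem_span_singleton', Ideal.mem_span_singleton']
    constructor
    · rintro ⟨t, ht⟩
      refine ⟨e.symm t, e.injective ?_⟩
      rw [map_mul, e.apply_symm_apply, map_natCast]
      exact ht
    · rintro ⟨t, rfl⟩
      refine ⟨e t, ?_⟩
      show _ = e (t * m)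
      rw [map_mul, map_natCast]
  rw [h1] at hy
  exact hy

/-- the reduction modulo `n ∈ J` -/
theorem ex_q (J : Ideal R) (n : ℕ) (hn : (n : R) ∈ J) : ∃ q : Qf a b (ZMod n) →+* R ⧸ J,
    Function.Surjective q ∧ ∀ z, q (Qfm a b (Int.castRingHom (ZMod n)) z) =
      Ideal.Quotient.mk J (e z) := by
  let g : Qf a b ℤ →+* R ⧸ J := (Ideal.Quotient.mk J).comp (e : Qf a b ℤ →+* R)
  have hker : RingHom.ker (Qfm a b (Int.castRingHom (ZMod n))) ≤ RingHom.ker g := by
    intro z hz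
    obtain ⟨t, rfl⟩ := E_ker a b n z hz
    rw [RingHom.mem_ker]
    show Ideal.Quotient.mk J (e (n * t)) = 0
    rw [map_mul, map_natCast, Ideal.Quotient.eq_zero_iff_mem]
    exact J.mul_mem_right _ hn
  refine ⟨(Qfm a b (Int.castRingHom (ZMod n))).liftOfSurjective (E_surj a b n) ⟨g, hker⟩, ?_, ?_⟩
  · intro y
    obtain ⟨r, rfl⟩ := Ideal.Quotient.mk_surjective y
    refine ⟨Qfm a b (Int.castRingHom (ZMod n)) (e.symm r), ?_⟩
    rw [RingHom.liftOfSurjective, RingHom.liftOfRightInverse_comp_apply]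
    show Ideal.Quotient.mk J (e (e.symm r)) = _
    rw [e.apply_symm_apply]
  · intro z
    rw [RingHom.liftOfSurjective, RingHom.liftOfRightInverse_comp_apply]
    rfl

/-! ### Reduction -/

theorem cl_center {S : Type} [CommRing S] {x y : SL2 S} {ε : S} (hε : ε * ε = 1)
    (h : x.val = ε • y.val) : Cong.cl x = Cong.cl y := by
  have hd : ((ε • 1 : Matrix (Fin 2) (Fin 2) S)).det = 1 := by
    rw [Matrix.det_smul, Matrix.det_one, mul_one, Fintype.card_fin, pow_two, hε]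
  let c : SL2 S := ⟨ε • 1, hd⟩
  have h1 : x = c * y := by
    apply Subtype.ext
    rw [h]
    show ε • y.val = (ε • 1) * y.val
    rw [Matrix.smul_mul, Matrix.one_mul]
  have h2 : Cong.cl c = 1 := by
    show QuotientGroup.mk' _ c = 1
    rw [QuotientGroup.mk'_apply, QuotientGroup.eq_one_iff,
      Matrix.SpecialLinearGroup.mem_center_iff]
    refine ⟨ε, by rw [Fintype.card_fin, pow_two, hε], ?_⟩
    show _ = ε • (1 : Matrix (Fin 2) (Fin 2) S)
    rw [Matrix.smul_one_eq_diagonal]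
    rfl
  rw [h1, map_mul, h2, one_mul]

theorem cl_eq {S : Type} [CommRing S] {x y : SL2 S} (h : Cong.cl x = Cong.cl y) :
    ∃ ε : S, ε * ε = 1 ∧ x.val = ε • y.val := by
  have h1 : Cong.cl (x * y⁻¹) = 1 := by rw [map_mul, map_inv, h, mul_inv_cancel]
  have h2 : x * y⁻¹ ∈ Subgroup.center (SL2 S) := by
    rw [← QuotientGroup.eq_one_iff]
    exact h1
  rw [Matrix.SpecialLinearGroup.mem_center_iff] at h2
  obtain ⟨ε, h3, h4⟩ := h2
  rw [Fintype.card_fin, pow_two] at h3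
  refine ⟨ε, h3, ?_⟩
  have h5 : x = x * y⁻¹ * y := by rw [inv_mul_cancel_right]
  have h6 : x.val = (x * y⁻¹).val * y.val := by
    conv_lhs => rw [h5]
    rfl
  rw [h6, ← h4, Matrix.scalar_apply, ← Matrix.smul_one_eq_diagonal, Matrix.smul_mul,
    Matrix.one_mul]

theorem mem_red {J : Ideal R} {P : Subgroup (Matrix.ProjectiveSpecialLinearGroup (Fin 2) R)}
    (x : SL2 (R ⧸ J)) : Cong.cl x ∈ Cong.red J P ↔ ∃ A ∈ preP e P, ∃ ε : R ⧸ J, ε * ε = 1 ∧
      x.val = ε • (A.val.map ((Ideal.Quotient.mk J).comp (e : Qf a b ℤ →+* R))) := by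
  constructor
  · rintro ⟨_, ⟨y, hy, rfl⟩, hxy⟩
    obtain ⟨A, rfl⟩ := SLm_surj e y
    obtain ⟨ε, h1, h2⟩ := cl_eq hxy.symm
    exact ⟨A, hy, ε, h1, h2⟩
  · rintro ⟨A, hA, ε, h1, h2⟩
    exact ⟨_, ⟨_, hA, rfl⟩, (cl_center h1 h2).symm⟩

theorem locConj (hn : b ^ 2 + 4 * a < 0)
    {P P' : Subgroup (Matrix.ProjectiveSpecialLinearGroup (Fin 2) R)}
    (h : ∀ (k : ℕ) [NeZero k], RelM k (preP e P) (preP e P')) : Cong.LocConj P P' := by
  intro J hJ
  obtain ⟨n, hn0, hnJ⟩ := ex_nat hn (comap_ne_bot e J hJ)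
  have : NeZero n := ⟨hn0⟩
  have hnJ' : (n : R) ∈ J := by
    have h1 : e (n : Qf a b ℤ) ∈ J := hnJ
    rwa [map_natCast] at h1
  obtain ⟨q, -, hq⟩ := ex_q e J n hnJ'
  obtain ⟨C, E, hCE, hEC, h1, h2⟩ := h n
  have hmap : ∀ X Y : Matrix (Fin 2) (Fin 2) (Qf a b (ZMod n)),
      (X * Y).map q = X.map q * Y.map q := fun X Y => Matrix.map_mul
  have hone : (1 : Matrix (Fin 2) (Fin 2) (Qf a b (ZMod n))).map q = 1 :=
    Matrix.map_one q (map_zero q) (map_one q)
  have hsm : ∀ (c : Qf a b (ZMod n)) (X : Matrix (Fin 2) (Fin 2) (Qf a b (ZMod n))),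
      (c • X).map q = q c • X.map q := by
    intro c X
    refine Matrix.ext fun i j => ?_
    show q (c * X i j) = q c * q (X i j)
    rw [map_mul]
  have hr : ∀ A : GQ a b, (rdq a b n A).val.map q =
      A.val.map ((Ideal.Quotient.mk J).comp (e : Qf a b ℤ →+* R)) := by
    intro A
    refine Matrix.ext fun i j => ?_
    exact hq (A.val i j)
  have hC1 : C.map q * E.map q = 1 := by rw [← hmap, hCE, hone]
  have hC2 : E.map q * C.map q = 1 := by rw [← hmap, hEC, hone]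
  let g : Matrix.GeneralLinearGroup (Fin 2) (R ⧸ J) := ⟨C.map q, E.map q, hC1, hC2⟩
  refine ⟨g, fun x y hxy => ?_⟩
  have hy : y.val = C.map q * x.val * E.map q := hxy
  have hx : x.val = E.map q * y.val * C.map q := by
    rw [hy]
    have h3 : E.map q * (C.map q * x.val * E.map q) * C.map q =
        (E.map q * C.map q) * x.val * (E.map q * C.map q) := by
      simp only [Matrix.mul_assoc]
    rw [h3, hC2, Matrix.one_mul, Matrix.mul_one]
  rw [mem_red e, mem_red e]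
  constructor
  · rintro ⟨A, hA, ε, he, hxA⟩
    obtain ⟨A', hA', ε', he', h3⟩ := h2 A hA
    have h4 : A'.val.map ((Ideal.Quotient.mk J).comp (e : Qf a b ℤ →+* R)) =
        q ε' • (C.map q * A.val.map ((Ideal.Quotient.mk J).comp (e : Qf a b ℤ →+* R)) *
          E.map q) := by
      rw [← hr, ← hr, h3, hsm, hmap, hmap]
    refine ⟨A', hA', ε * q ε', ?_, ?_⟩
    · have h5 : q ε' * q ε' = 1 := by rw [← map_mul, he', map_one]
      linear_combination (q ε' * q ε') * he + h5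
    · rw [h4, smul_smul, mul_assoc, ← map_mul, he', map_one, mul_one, hy, hxA, Matrix.mul_smul,
        Matrix.smul_mul]
  · rintro ⟨A', hA', ε, he, hyA⟩
    obtain ⟨A, hA, ε', he', h3⟩ := h1 A' hA'
    have h4 : A'.val.map ((Ideal.Quotient.mk J).comp (e : Qf a b ℤ →+* R)) =
        q ε' • (C.map q * A.val.map ((Ideal.Quotient.mk J).comp (e : Qf a b ℤ →+* R)) *
          E.map q) := by
      rw [← hr, ← hr, h3, hsm, hmap, hmap]
    refine ⟨A, hA, ε * q ε', ?_, ?_⟩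
    · have h5 : q ε' * q ε' = 1 := by rw [← map_mul, he', map_one]
      linear_combination (q ε' * q ε') * he + h5
    · rw [hx, hyA, h4, smul_smul, Matrix.mul_smul, Matrix.smul_mul]
      congr 1
      have h5 : E.map q * (C.map q * A.val.map ((Ideal.Quotient.mk J).comp
          (e : Qf a b ℤ →+* R)) * E.map q) * C.map q =
          (E.map q * C.map q) * A.val.map ((Ideal.Quotient.mk J).comp
          (e : Qf a b ℤ →+* R)) * (E.map q * C.map q) := by
        simp only [Matrix.mul_assoc]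
      rw [h5, hC2, Matrix.one_mul, Matrix.mul_one]

/-! ### The main theorems -/

/-- THEOREM B for subgroups of `PSL₂(R)` -/
theorem P_genus (H : DatC a b) (P : Subgroup (Matrix.ProjectiveSpecialLinearGroup (Fin 2) R))
    (m : ℕ) (hm : m ≠ 0) (hP : Cong.P (Cong.G (Ideal.span {(m : R)})) ≤ P) (Λ : Type) [Group Λ]
    (hΛ : InGenus P Λ) :
    ∃ P' : Subgroup (Matrix.ProjectiveSpecialLinearGroup (Fin 2) R),
      Cong.P (Cong.G (Ideal.span {(m : R)})) ≤ P' ∧ P'.index = P.index ∧ Cong.LocConj P P' ∧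
      (∀ (k : ℕ) [NeZero k], RelM k (preP e P) (preP e P')) ∧ Nonempty (Λ ≃* P') := by
  have : NeZero m := ⟨hm⟩
  have h0 : IsDomain (Qf a b ℤ) := Qf_domain H.neg
  have hdom : IsDomain R := e.symm.toMulEquiv.isDomain (Qf a b ℤ)
  obtain ⟨D₁, h1, h2, h3, h4, h5⟩ := thmB blk blkW H (preP e P) (neg_mem_pre e P) m (le_pre e hP) P
    (prp e P) (prp_surj e P) (prp_ker e hdom P) Λ hΛ
  have h6 : preP e (im e D₁) = D₁ := pre_im e hdom D₁ h1
  have h7 : ∀ (k : ℕ) [NeZero k], RelM k (preP e P) (preP e (im e D₁)) := by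
    intro k _
    rw [h6]
    exact h4 k
  refine ⟨im e D₁, le_im e h2, ?_, locConj e H.neg h7, h7, ?_⟩
  · rw [← index_pre e, h6, h3, index_pre]
  · have key : ∀ D : Subgroup (GQ a b), D = D₁ → ∀ (P₁ : Type) [Group P₁] (pr₁ : D →* P₁),
        Function.Surjective pr₁ → (∀ x, pr₁ x = 1 ↔ x.val = 1 ∨ x.val = -1) →
        Nonempty (Λ ≃* P₁) := by
      rintro D rfl P₁ _ pr₁ hs hk
      exact h5 P₁ pr₁ hs hk
    exact key _ h6 _ (prp e (im e D₁)) (prp_surj e _) (prp_ker e hdom _)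

end

end Pool.Agent.F8.CG
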