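import Pool.Agent.Lib.MP_305fdd_al.F8.CG.MainF

/-!
# MP_305fdd_al, congruence subgroups: `PΓ₀(I)`, and the finiteness of the genus
-/

set_option autoImplicit false

namespace Pool.Agent.F8.CG

open Pool.Agent.F8.BG Pool.Agent.MP_305fdd_al Pool.Agent.Lib.MP_305fdd_al Pool.Agent.F8
open scoped QuadraticAlgebra

noncomputable section

variable {a b : ℤ} {R : Type} [CommRing R] (e : Qf a b ℤ ≃+* R)

theorem conj_iso {G : Type} [Group G] (P P' : Subgroup G) (g : G)
    (h : ∀ x, x ∈ P' ↔ g⁻¹ * x * g ∈ P) : Nonempty (P' ≃* P) := by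
  have h1 : P' = P.map (MulAut.conj g).toMonoidHom := by
    ext x
    rw [h]
    constructor
    · intro hx
      refine ⟨_, hx, ?_⟩
      show g * (g⁻¹ * x * g) * g⁻¹ = x
      group
    · rintro ⟨y, hy, rfl⟩
      have h2 : g⁻¹ * ((MulAut.conj g).toMonoidHom y) * g = y := by
        show g⁻¹ * (g * y * g⁻¹) * g = y
        group
      rw [h2]
      exact hy
  rw [h1]
  exact ⟨((MulAut.conj g).subgroupMap P).symm⟩

/-- a criterion for profinite rigidity: the scalar matrices modulo `m` and the diagonal conjugations -/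
theorem P_rigid' (H : DatC a b) (P : Subgroup (Matrix.ProjectiveSpecialLinearGroup (Fin 2) R))
    (m : ℕ) [NeZero m] (hP : Cong.P (Cong.G (Ideal.span {(m : R)})) ≤ P) (hHZ : HZ (preP e P) m)
    (hsc : ∀ ε : Qf a b (ZMod m), ε * ε = 1 → ∃ y ∈ preP e P, (rdq a b m y).val = ε • 1) :
    ProfinitelyRigid P := by
  intro Λ _ hΛ
  obtain ⟨P', h1, h2, -, h3, ⟨φ⟩⟩ := P_genus e H P m (NeZero.ne m) hP Λ hΛ
  obtain ⟨γ, hγ⟩ := thmB_iso (preP e P) (preP e P') m (le_pre e hP) (le_pre e h1)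
    (by rw [index_pre, index_pre, h2]) (h3 m) hHZ hsc
  obtain ⟨ψ⟩ := conj_iso P P' (Cong.cl (SLm (e : Qf a b ℤ →+* R) γ)) (by
    intro x
    obtain ⟨A, rfl⟩ := clS_surj e x
    have h4 := hγ A
    rw [mem_pre, mem_pre] at h4
    have h5 : (Cong.cl (SLm (e : Qf a b ℤ →+* R) γ))⁻¹ *
        (Cong.cl.comp (SLm (e : Qf a b ℤ →+* R))) A * Cong.cl (SLm (e : Qf a b ℤ →+* R) γ) =
        Cong.cl (SLm (e : Qf a b ℤ →+* R) (γ⁻¹ * A * γ)) := by
      rw [map_mul, map_mul, map_mul, map_mul, map_inv, map_inv]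
      rfl
    rw [h5]
    exact h4)
  exact ⟨φ.trans ψ⟩

include e in
/-- `PΓ₀(I)` is profinitely rigid -/
theorem PG0_rigid (H : DatC a b) (I : Ideal R) (hI : I ≠ ⊥) :
    ProfinitelyRigid (Cong.P (Cong.G0 I)) := by
  have hdom0 : IsDomain (Qf a b ℤ) := Qf_domain H.neg
  have hdom : IsDomain R := e.symm.toMulEquiv.isDomain (Qf a b ℤ)
  have hJ := comap_ne_bot e I hI
  obtain ⟨m, hm, hmI⟩ := ex_nat H.neg hJ
  have : NeZero m := ⟨hm⟩
  have hn : -1 ∈ Cong.G0 (I.comap (e : Qf a b ℤ →+* R)) := by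
    show -((1 : Matrix (Fin 2) (Fin 2) (Qf a b ℤ)) 1 0) ∈ I.comap (e : Qf a b ℤ →+* R)
    rw [Matrix.one_apply_ne (by decide), neg_zero]
    exact Ideal.zero_mem _
  have hpm : pmS (Cong.G0 (I.comap (e : Qf a b ℤ →+* R))) =
      Cong.G0 (I.comap (e : Qf a b ℤ →+* R)) := by
    apply le_antisymm
    · rintro x (hx | hx)
      · exact hx
      · have h1 : x = -1 * -x := by rw [neg_mul_neg, one_mul]
        rw [h1]
        exact mul_mem hn hx
    · exact le_pmS _
  have hpre : preP e (Cong.P (Cong.G0 I)) = Cong.G0 (I.comap (e : Qf a b ℤ →+* R)) := by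
    have h1 : Cong.P (Cong.G0 I) = im e (Cong.G0 (I.comap (e : Qf a b ℤ →+* R))) := by
      ext x
      constructor
      · rintro ⟨y, hy, rfl⟩
        obtain ⟨A, rfl⟩ := SLm_surj e y
        exact ⟨A, hy, rfl⟩
      · rintro ⟨A, hA, rfl⟩
        exact ⟨_, hA, rfl⟩
    rw [h1]
    exact pre_im e hdom _ hn
  refine P_rigid' e H (Cong.P (Cong.G0 I)) m ?_ ?_ ?_
  · rintro _ ⟨y, hy, rfl⟩
    obtain ⟨A, rfl⟩ := SLm_surj e y
    refine ⟨_, ?_, rfl⟩
    rw [SetLike.mem_coe, map_G0]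
    rw [SetLike.mem_coe, map_G] at hy
    apply G1_le_G0
    apply G_le_G1
    have hle : Ideal.comap (e : Qf a b ℤ →+* R) (Ideal.span {(m : R)}) ≤
        Ideal.comap (e : Qf a b ℤ →+* R) I := by
      apply Ideal.comap_mono
      rw [Ideal.span_le, Set.singleton_subset_iff]
      have h1 : e (m : Qf a b ℤ) ∈ I := hmI
      rwa [map_natCast] at h1
    obtain ⟨h1, h2, h3, h4⟩ := mem_G.1 hy
    exact mem_G.2 ⟨hle h1, hle h2, hle h3, hle h4⟩
  · rw [hpre, ← hpm]
    exact HZ_pmS (dg_G0 hmI)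
  · rw [hpre]
    intro ε hε
    have hd : ((ε • 1 : Matrix (Fin 2) (Fin 2) (Qf a b (ZMod m)))).det = 1 := by
      rw [Matrix.det_smul, Matrix.det_one, mul_one, Fintype.card_fin, pow_two, hε]
    obtain ⟨y, hy⟩ := p_Csrd a b m ⟨ε • 1, hd⟩
    have hy' : (rdq a b m y).val = ε • 1 := by rw [hy]
    refine ⟨y, ?_, hy'⟩
    have h1 : Qfm a b (Int.castRingHom (ZMod m)) (y.val 1 0) =
        Qfm a b (Int.castRingHom (ZMod m)) 0 := by
      rw [map_zero]
      have h2 := congrFun (congrFun hy' 1) 0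
      have h3 : (ε • (1 : Matrix (Fin 2) (Fin 2) (Qf a b (ZMod m)))) 1 0 = 0 := by
        rw [Matrix.smul_apply, Matrix.one_apply_ne (by decide), smul_zero]
      rw [h3] at h2
      exact h2
    have h4 := mem_of_rdq hmI h1
    rw [sub_zero] at h4
    exact h4

/-! ### Finiteness of the genus -/

/-- the subgroups which contain a given subgroup of finite index which is the kernel of a homomorphism -/
theorem fin_sub {G : Type} [Group G] (N : Subgroup G) [N.FiniteIndex] :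
    {P : Subgroup G | N ≤ P}.Finite := by
  have h0 : Finite (G ⧸ N) := Subgroup.finite_quotient_of_finiteIndex
  have h1 : Function.Injective (fun P : {P : Subgroup G | N ≤ P} =>
      ((fun x : G => (x : G ⧸ N)) '' (P.val : Set G) : Set (G ⧸ N))) := by
    rintro ⟨P, hP⟩ ⟨P', hP'⟩ h
    apply Subtype.ext
    have h2 : ((fun x : G => (x : G ⧸ N)) '' (P : Set G) : Set (G ⧸ N)) =
      (fun x : G => (x : G ⧸ N)) '' (P' : Set G) := h
    have key : ∀ Q Q' : Subgroup G, N ≤ Q' →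
        ((fun x : G => (x : G ⧸ N)) '' (Q : Set G) : Set (G ⧸ N)) =
          (fun x : G => (x : G ⧸ N)) '' (Q' : Set G) → Q ≤ Q' := by
      intro Q Q' hQ' hh x hx
      have h3 : (x : G ⧸ N) ∈ (fun x : G => (x : G ⧸ N)) '' (Q : Set G) := ⟨x, hx, rfl⟩
      rw [hh] at h3
      obtain ⟨y, hy, hyx⟩ := h3
      have h4 : y⁻¹ * x ∈ N := QuotientGroup.eq.1 hyx
      have h5 : x = y * (y⁻¹ * x) := by rw [mul_inv_cancel_left]
      rw [h5]
      exact mul_mem hy (hQ' h4)
    exact le_antisymm (key P P' hP' h2) (key P' P hP h2.symm)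
  have h2 : Finite {P : Subgroup G | N ≤ P} := Finite.of_injective _ h1
  exact Set.toFinite _

include e in
theorem fi_N (m : ℕ) (hm : m ≠ 0) :
    (Cong.P (Cong.G (Ideal.span {(m : R)}))).FiniteIndex := by
  have : NeZero m := ⟨hm⟩
  constructor
  rw [← index_pre e]
  have h1 : Finite (SL2 (Qf a b (ZMod m))) := inferInstance
  have h2 : (Gam a b m).FiniteIndex := Subgroup.finiteIndex_ker _
  have h3 := Subgroup.finiteIndex_of_le (le_pre e (m := m) (le_refl
    (Cong.P (Cong.G (Ideal.span {(m : R)})))))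
  exact h3.index_ne_zero

include e in
/-- the genus of a congruence subgroup is finite -/
theorem genus_fin (H : DatC a b) (P : Subgroup (Matrix.ProjectiveSpecialLinearGroup (Fin 2) R))
    (m : ℕ) (hm : m ≠ 0) (hP : Cong.P (Cong.G (Ideal.span {(m : R)})) ≤ P) :
    ∃ k : ℕ, ¬ GenusAtLeast P k := by
  have hfi := fi_N e m hm
  have hfin : Finite {P' : Subgroup (Matrix.ProjectiveSpecialLinearGroup (Fin 2) R) |
    Cong.P (Cong.G (Ideal.span {(m : R)})) ≤ P'} := fin_sub _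
  refine ⟨Nat.card {P' : Subgroup (Matrix.ProjectiveSpecialLinearGroup (Fin 2) R) |
    Cong.P (Cong.G (Ideal.span {(m : R)})) ≤ P'} + 1, ?_⟩
  rintro ⟨G, _, hG, hne⟩
  choose P' h1 _ _ _ h2 using fun i => P_genus e H P m hm hP (G i) (hG i)
  have hinj : Function.Injective (fun i => (⟨P' i, h1 i⟩ :
      {P' : Subgroup (Matrix.ProjectiveSpecialLinearGroup (Fin 2) R) |
        Cong.P (Cong.G (Ideal.span {(m : R)})) ≤ P'})) := by
    intro i j hij
    by_contra h
    have h3 : P' i = P' j := congrArg Subtype.val hij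
    obtain ⟨φ⟩ := h2 i
    obtain ⟨ψ⟩ := h2 j
    exact (hne i j h).false (φ.trans ((MulEquiv.subgroupCongr h3).trans ψ.symm))
  have h3 := Nat.card_le_card_of_injective _ hinj
  rw [Nat.card_fin] at h3
  exact Nat.not_succ_le_self _ h3

end

end Pool.Agent.F8.CG
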