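import Pool.Agent.Lib.MP_305fdd_al.F8.CG.StmA

/-!
# MP_305fdd_al, congruence subgroups: piece CG alf

A semigroup which generates the group contains an irreducible pair. (The functions which vanish on the semigroup vanish on the group: a finite dimensional space of
functions which is invariant under the right translations by the elements of the semigroup is invariant under their inverses.)
-/

set_option autoImplicit false

namespace Pool.Agent.F8.CG

open Pool.Agent.F8.BG Pool.Agent.Lib.MP_305fdd_al Pool.Agent.F8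

noncomputable section

section

variable {G K : Type} [Group G] [Field K]

/-- the right translation -/
def alf_R (K : Type) [Field K] (g : G) : (G → K) →ₗ[K] (G → K) where
  toFun p := fun x => p (x * g)
  map_add' _ _ := rfl
  map_smul' _ _ := rfl

theorem alf_R_apply (g : G) (p : G → K) (x : G) : alf_R K g p x = p (x * g) := rfl

theorem alf_R_mul (g h : G) (p : G → K) : alf_R K (g * h) p = alf_R K g (alf_R K h p) := by
  ext x
  simp only [alf_R_apply, mul_assoc]

theorem alf_R_one (p : G → K) : alf_R K 1 p = p := by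
  ext x
  rw [alf_R_apply, mul_one]

theorem alf_R_inv_R (g : G) (p : G → K) : alf_R K g⁻¹ (alf_R K g p) = p := by
  rw [← alf_R_mul, inv_mul_cancel, alf_R_one]

theorem alf_R_R_inv (g : G) (p : G → K) : alf_R K g (alf_R K g⁻¹ p) = p := by
  rw [← alf_R_mul, mul_inv_cancel, alf_R_one]

/-- a function of an invariant finite dimensional space which vanishes on the semigroup is zero -/
theorem alf_van (V : Submodule K (G → K)) [FiniteDimensional K V]
    (hV : ∀ g, ∀ p ∈ V, alf_R K g p ∈ V) (S : Set G) (hS : Subgroup.closure S = ⊤)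
    (hSm : ∀ x ∈ S, ∀ y ∈ S, x * y ∈ S) (hne : S.Nonempty) (p : G → K) (hp : p ∈ V)
    (hp0 : ∀ x ∈ S, p x = 0) (g : G) : p g = 0 := by
  let I : Submodule K (G → K) :=
    { carrier := {q | q ∈ V ∧ ∀ x ∈ S, q x = 0}
      add_mem' := fun {a b} ha hb => ⟨V.add_mem ha.1 hb.1, fun x hx => by
        rw [Pi.add_apply, ha.2 x hx, hb.2 x hx, add_zero]⟩
      zero_mem' := ⟨V.zero_mem, fun _ _ => rfl⟩
      smul_mem' := fun c a ha => ⟨V.smul_mem c ha.1, fun x hx => by
        rw [Pi.smul_apply, ha.2 x hx, smul_zero]⟩ }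
  have hIV : I ≤ V := fun q hq => hq.1
  have hIf : FiniteDimensional K I := Submodule.finiteDimensional_of_le hIV
  have h1 : ∀ s ∈ S, ∀ q ∈ I, alf_R K s q ∈ I := by
    intro s hs q hq
    refine ⟨hV s q hq.1, fun x hx => ?_⟩
    rw [alf_R_apply]
    exact hq.2 _ (hSm x hx s hs)
  have h2 : ∀ s ∈ S, ∀ q ∈ I, alf_R K s⁻¹ q ∈ I := by
    intro s hs q hq
    have hle : I.map (alf_R K s) ≤ I := by
      rintro _ ⟨q, hq, rfl⟩
      exact h1 s hs q hq
    have hinj : Function.Injective (alf_R K s) := by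
      intro a b hab
      rw [← alf_R_inv_R s a, hab, alf_R_inv_R]
    have heq : I.map (alf_R K s) = I :=
      Submodule.eq_of_le_of_finrank_eq hle
        (LinearEquiv.finrank_eq (Submodule.equivMapOfInjective (alf_R K s) hinj I)).symm
    rw [← heq] at hq
    obtain ⟨q', hq', rfl⟩ := hq
    rw [alf_R_inv_R]
    exact hq'
  have h3 : ∀ g : G, ∀ q ∈ I, alf_R K g q ∈ I := by
    intro g
    have hg : g ∈ Subgroup.closure S := by rw [hS]; exact Subgroup.mem_top g
    induction hg using Subgroup.closure_induction'' with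
    | mem x hx => exact h1 x hx
    | inv_mem x hx => exact h2 x hx
    | one =>
      intro q hq
      rw [alf_R_one]
      exact hq
    | mul x y _ _ hx hy =>
      intro q hq
      rw [alf_R_mul]
      exact hx _ (hy q hq)
  obtain ⟨x, hx⟩ := hne
  have h4 := (h3 (x⁻¹ * g) p ⟨hp, hp0⟩).2 x hx
  rw [alf_R_apply, mul_inv_cancel_left] at h4
  exact h4

/-- the matrix coefficients of the tensor product -/
def alf_c (ρ : G →* SL2 K) (q : Fin 2 × Fin 2 × Fin 2 × Fin 2) : G → K :=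
  fun x => (ρ x).val q.1 q.2.1 * (ρ x⁻¹).val q.2.2.1 q.2.2.2

/-- the space of functions -/
def alf_V (ρ : G →* SL2 K) : Submodule K (G → K) :=
  Submodule.span K (insert (fun _ => 1) (Set.range (alf_c ρ)))

theorem alf_V_fin (ρ : G →* SL2 K) : FiniteDimensional K (alf_V ρ) :=
  FiniteDimensional.span_of_finite K ((Set.finite_range _).insert _)

theorem alf_one_mem (ρ : G →* SL2 K) : (fun _ => (1 : K)) ∈ alf_V ρ :=
  Submodule.subset_span (Set.mem_insert _ _)

theorem alf_c_mem (ρ : G →* SL2 K) (i j k l : Fin 2) :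
    (fun x => (ρ x).val i j * (ρ x⁻¹).val k l) ∈ alf_V ρ :=
  Submodule.subset_span (Set.mem_insert_of_mem _ ⟨(i, j, k, l), rfl⟩)

theorem alf_V_inv (ρ : G →* SL2 K) (g : G) (p : G → K) (hp : p ∈ alf_V ρ) :
    alf_R K g p ∈ alf_V ρ := by
  have h : (alf_V ρ).map (alf_R K g) ≤ alf_V ρ := by
    unfold alf_V
    rw [Submodule.map_span_le]
    intro q hq
    rcases hq with rfl | ⟨⟨i, j, k, l⟩, rfl⟩
    · exact alf_one_mem ρ
    · have e : alf_R K g (alf_c ρ (i, j, k, l)) = ∑ a, ∑ b,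
          ((ρ g).val a j * (ρ g⁻¹).val k b) •
            (fun x => (ρ x).val i a * (ρ x⁻¹).val b l) := by
        ext x
        have e1 : (ρ (x * g)).val = (ρ x).val * (ρ g).val := by rw [map_mul]; rfl
        have e2 : (ρ (x * g)⁻¹).val = (ρ g⁻¹).val * (ρ x⁻¹).val := by
          rw [mul_inv_rev, map_mul]; rfl
        rw [alf_R_apply]
        simp only [alf_c, e1, e2, Matrix.mul_apply, Pi.add_apply, Pi.smul_apply,
          smul_eq_mul, Fin.sum_univ_two]
        ring
      rw [e]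
      exact Submodule.sum_mem _ fun a _ => Submodule.sum_mem _ fun b _ =>
        Submodule.smul_mem _ _ (alf_c_mem ρ i a b l)
  exact h ⟨p, hp, rfl⟩

theorem alf_tr (ρ : G →* SL2 K) (x y : G) : tr (ρ (x * y * x⁻¹ * y⁻¹)) =
    ∑ i, ∑ a, ∑ b, ∑ c, (ρ x).val i a * (ρ y).val a b * (ρ x⁻¹).val b c * (ρ y⁻¹).val c i := by
  have e : (ρ (x * y * x⁻¹ * y⁻¹)).val =
      (ρ x).val * (ρ y).val * (ρ x⁻¹).val * (ρ y⁻¹).val := by
    rw [map_mul, map_mul, map_mul]; rfl
  rw [tr, e, Matrix.trace]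
  simp only [Matrix.diag_apply, Matrix.mul_apply, Fin.sum_univ_two]
  ring

theorem alf_mem1 (ρ : G →* SL2 K) (y : G) :
    (fun x => tr (ρ (x * y * x⁻¹ * y⁻¹)) - 2) ∈ alf_V ρ := by
  have e : (fun x => tr (ρ (x * y * x⁻¹ * y⁻¹)) - 2) =
      (∑ i, ∑ a, ∑ b, ∑ c, ((ρ y).val a b * (ρ y⁻¹).val c i) •
        (fun x => (ρ x).val i a * (ρ x⁻¹).val b c)) - (2 : K) • (fun _ => (1 : K)) := by
    ext x
    rw [alf_tr]
    simp only [Pi.add_apply, Pi.smul_apply, Pi.sub_apply, smul_eq_mul, Fin.sum_univ_two]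
    ring
  rw [e]
  refine Submodule.sub_mem _ ?_ (Submodule.smul_mem _ _ (alf_one_mem ρ))
  exact Submodule.sum_mem _ fun i _ => Submodule.sum_mem _ fun a _ =>
    Submodule.sum_mem _ fun b _ => Submodule.sum_mem _ fun c _ =>
      Submodule.smul_mem _ _ (alf_c_mem ρ i a b c)

theorem alf_mem2 (ρ : G →* SL2 K) (x : G) :
    (fun y => tr (ρ (x * y * x⁻¹ * y⁻¹)) - 2) ∈ alf_V ρ := by
  have e : (fun y => tr (ρ (x * y * x⁻¹ * y⁻¹)) - 2) =
      (∑ i, ∑ a, ∑ b, ∑ c, ((ρ x).val i a * (ρ x⁻¹).val b c) •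
        (fun y => (ρ y).val a b * (ρ y⁻¹).val c i)) - (2 : K) • (fun _ => (1 : K)) := by
    ext y
    rw [alf_tr]
    simp only [Pi.add_apply, Pi.smul_apply, Pi.sub_apply, smul_eq_mul, Fin.sum_univ_two]
    ring
  rw [e]
  refine Submodule.sub_mem _ ?_ (Submodule.smul_mem _ _ (alf_one_mem ρ))
  exact Submodule.sum_mem _ fun i _ => Submodule.sum_mem _ fun a _ =>
    Submodule.sum_mem _ fun b _ => Submodule.sum_mem _ fun c _ =>
      Submodule.smul_mem _ _ (alf_c_mem ρ a b c i)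

end

/-- **[CG alf]** -/
theorem p_alf : A_alf := by
  intro G K _ _ ρ S hS hSm hgh
  by_contra hno
  have hno : ∀ x ∈ S, ∀ y ∈ S, tr (ρ (x * y * x⁻¹ * y⁻¹)) - 2 = 0 := by
    intro x hx y hy
    rw [sub_eq_zero]
    by_contra h
    exact hno ⟨x, hx, y, hy, h⟩
  obtain ⟨g, h, hgh⟩ := hgh
  have hne : S.Nonempty := by
    by_contra hem
    rw [Set.not_nonempty_iff_eq_empty] at hem
    rw [hem, Subgroup.closure_empty] at hS
    have h1 : ∀ x : G, x = 1 := fun x => Subgroup.mem_bot.1 (by rw [hS]; exact Subgroup.mem_top x)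
    apply hgh
    rw [h1 (g * h * g⁻¹ * h⁻¹), map_one, tr_eq]
    simp only [Matrix.SpecialLinearGroup.coe_one, Matrix.one_apply_eq]
    norm_num
  have hf := alf_V_fin ρ
  have h1 : ∀ y ∈ S, ∀ x, tr (ρ (x * y * x⁻¹ * y⁻¹)) - 2 = 0 := fun y hy x =>
    alf_van (alf_V ρ) (alf_V_inv ρ) S hS hSm hne _ (alf_mem1 ρ y) (fun x hx => hno x hx y hy) x
  have h2 : ∀ x y, tr (ρ (x * y * x⁻¹ * y⁻¹)) - 2 = 0 := fun x y =>
    alf_van (alf_V ρ) (alf_V_inv ρ) S hS hSm hne _ (alf_mem2 ρ x) (fun y hy => h1 y hy x) y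
  exact hgh (sub_eq_zero.1 (h2 g h))

end

end Pool.Agent.F8.CG
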