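import Pool.Agent.Lib.MP_305fdd_al.F8.CG.StmA

/-!
# MP_305fdd_al, congruence subgroups, block A: piece `one`
-/

set_option autoImplicit false

namespace Pool.Agent.F8.CG

open Pool.Agent.F8.BG Pool.Agent.Lib.MP_305fdd_al Pool.Agent.F8

/-! ### finite index -/

theorem one_fin {ι : Type} (α : MulAut (FreeGroup ι)) (H : Subgroup (GR α))
    (hF : (H.comap (iR α)).FiniteIndex) (k : ℕ) (hk : 1 ≤ k) (c : GR α) (hc : c ∈ H)
    (hn : nR α c = Multiplicative.ofAdd (-(k : ℤ))) : H.FiniteIndex := by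
  have hQ : Finite (FreeGroup ι ⧸ H.comap (iR α)) := Subgroup.finite_quotient_of_finiteIndex
  have hfin : Finite (GR α ⧸ H) := by
    apply Finite.of_surjective (α := Fin k × (FreeGroup ι ⧸ H.comap (iR α)))
      (fun p => ((tR α ^ (p.1 : ℕ) * iR α p.2.out : GR α) : GR α ⧸ H))
    intro y
    obtain ⟨g, rfl⟩ := QuotientGroup.mk_surjective y
    obtain ⟨n, hgn⟩ : ∃ n : ℤ, n = Multiplicative.toAdd (nR α g) := ⟨_, rfl⟩
    have hk0 : (0 : ℤ) < k := by exact_mod_cast hk
    obtain ⟨r, hr⟩ : ∃ r : ℕ, (r : ℤ) = n % k := ⟨(n % k).toNat, Int.toNat_of_nonneg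
      (Int.emod_nonneg _ hk0.ne')⟩
    have hrk : r < k := by
      have h1 := Int.emod_lt_of_pos n hk0
      rw [← hr] at h1
      exact_mod_cast h1
    have h2 : nR α ((tR α ^ r)⁻¹ * (g * c ^ (n / k))) = 1 := by
      rw [map_mul, map_mul, map_inv, map_pow, map_zpow, hn, nR_tR]
      apply Multiplicative.toAdd.injective
      simp only [toAdd_mul, toAdd_inv, toAdd_pow, toAdd_zpow, toAdd_ofAdd, toAdd_one, smul_eq_mul,
        nsmul_eq_mul, mul_one]
      rw [← hgn, hr]
      have h3 := Int.emod_add_mul_ediv n k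
      linarith
    obtain ⟨w, hw⟩ := GR_ker α _ h2
    have h4 : g * c ^ (n / k) = tR α ^ r * iR α w := by
      rw [← hw]
      group
    refine ⟨(⟨r, hrk⟩, (w : FreeGroup ι ⧸ H.comap (iR α))), ?_⟩
    show ((tR α ^ r * iR α (w : FreeGroup ι ⧸ H.comap (iR α)).out : GR α) : GR α ⧸ H) = g
    apply QuotientGroup.eq.mpr
    have h5 : (w : FreeGroup ι ⧸ H.comap (iR α)).out⁻¹ * w ∈ H.comap (iR α) := by
      apply QuotientGroup.eq.mp
      exact QuotientGroup.out_eq' _
    have h6 : (tR α ^ r * iR α (w : FreeGroup ι ⧸ H.comap (iR α)).out)⁻¹ * g =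
        iR α ((w : FreeGroup ι ⧸ H.comap (iR α)).out⁻¹ * w) * (c ^ (n / k))⁻¹ := by
      have h7 : g = tR α ^ r * iR α w * (c ^ (n / k))⁻¹ := by
        rw [← h4]
        group
      rw [map_mul, map_inv]
      conv_lhs => rw [h7]
      group
    rw [h6]
    exact H.mul_mem h5 (H.inv_mem (H.zpow_mem hc _))
  exact Subgroup.finiteIndex_of_finite_quotient

/-! ### the embedding -/

section emb

variable {ι : Type} (α : MulAut (FreeGroup ι)) (k : ℕ)

theorem one_emb (w : FreeGroup ι) (n : ℤ) :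
    emb α k (iR (α ^ k) w * tR (α ^ k) ^ n) = iR α w * tR α ^ ((k : ℤ) * n) := by
  rw [map_mul, map_zpow, emb_iR, emb_tR, zpow_mul, zpow_natCast]

theorem one_nR_emb (g : GR (α ^ k)) : Multiplicative.toAdd (nR α (emb α k g)) =
    k * Multiplicative.toAdd (nR (α ^ k) g) := by
  obtain ⟨w, n, rfl⟩ := GR_cases (α ^ k) g
  rw [one_emb, nR_eq, nR_eq]
  rfl

theorem one_emb_inj (hk : 1 ≤ k) : Function.Injective (emb α k) := by
  rw [injective_iff_map_eq_one]
  intro g hg
  have h1 := one_nR_emb α k g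
  rw [hg, map_one, toAdd_one] at h1
  have hk0 : (k : ℤ) ≠ 0 := by exact_mod_cast (by omega : k ≠ 0)
  have h2 : Multiplicative.toAdd (nR (α ^ k) g) = 0 := by
    rcases mul_eq_zero.mp h1.symm with h | h
    · exact absurd h hk0
    · exact h
  have h3 : nR (α ^ k) g = 1 := Multiplicative.toAdd.injective h2
  obtain ⟨w, rfl⟩ := GR_ker _ g h3
  rw [emb_iR] at hg
  have h4 : w = 1 := iR_injective α (by rw [hg, map_one])
  rw [h4, map_one]

theorem one_emb_surj (g : GR α) (j : ℤ) (hg : Multiplicative.toAdd (nR α g) = k * j) :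
    ∃ g', emb α k g' = g ∧ Multiplicative.toAdd (nR (α ^ k) g') = j := by
  obtain ⟨w, n, rfl⟩ := GR_cases α g
  rw [nR_eq, toAdd_ofAdd] at hg
  refine ⟨iR (α ^ k) w * tR (α ^ k) ^ j, ?_, ?_⟩
  · rw [one_emb, hg]
  · rw [nR_eq, toAdd_ofAdd]

end emb

/-! ### the first letter -/

theorem one_head {ι : Type} (w : ι → List ι) (i₀ : ι) (h : (w i₀).head? = some i₀) :
    ∀ l : ℕ, (itw w l i₀).head? = some i₀ := by
  intro l
  induction l with
  | zero => rfl
  | succ l ih =>
    show ((itw w l i₀).flatMap w).head? = some i₀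
    obtain ⟨r, hr⟩ : ∃ r, itw w l i₀ = i₀ :: r := by
      cases hL : itw w l i₀ with
      | nil => rw [hL] at ih; simp at ih
      | cons a r =>
        rw [hL] at ih
        simp only [List.head?_cons, Option.some.injEq] at ih
        exact ⟨r, by rw [ih]⟩
    rw [hr, List.flatMap_cons, List.head?_append, h]
    rfl

/-! ### transport -/

section transport

variable {L L' K : Type} [Group L] [Group L'] [Field K] (e : L' ≃* L)

theorem one_zc_aux (n : L →* Multiplicative ℤ) (m : ℕ) (ρ : L →* SL2 K)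
    (u : Matrix.GeneralLinearGroup (Fin m) K) :
    Nonempty (Zc n m ρ u ≃ₗ[K] Zc (n.comp e.toMonoidHom) m (ρ.comp e.toMonoidHom) u) := by
  refine ⟨{
    toFun := fun z => ⟨fun x => z.1 (e x), ?_⟩
    invFun := fun z => ⟨fun x => z.1 (e.symm x), ?_⟩
    map_add' := fun z z' => rfl
    map_smul' := fun c z => rfl
    left_inv := ?_
    right_inv := ?_ }⟩
  · intro x y
    have h := z.2 (e x) (e y)
    show z.1 (e (x * y)) = _
    rw [map_mul]
    exact h
  · intro x y
    have h := z.2 (e.symm x) (e.symm y)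
    show z.1 (e.symm (x * y)) = _
    rw [map_mul]
    have e1 : e (e.symm x) = x := e.apply_symm_apply x
    have h1 : (ρ.comp e.toMonoidHom) (e.symm x) = ρ x := congrArg ρ e1
    have h2 : (n.comp e.toMonoidHom) (e.symm x) = n x := congrArg n e1
    rw [h1, h2] at h
    exact h
  · intro z
    apply Subtype.ext
    funext x
    show z.1 (e (e.symm x)) = z.1 x
    rw [e.apply_symm_apply]
  · intro z
    apply Subtype.ext
    funext x
    show z.1 (e.symm (e x)) = z.1 x
    rw [e.symm_apply_apply]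

theorem one_transport (n : L →* Multiplicative ℤ) (N M : ℕ) (ρ : L →* SL2 K) (c : L')
    (P : Polynomial K) (h : IsP (n.comp e.toMonoidHom) N M (ρ.comp e.toMonoidHom) c P) :
    IsP n N M ρ (e c) P where
  mon := h.mon
  deg := h.deg
  tra := h.tra
  le := by
    intro τ m
    obtain ⟨E⟩ := one_zc_aux e n m ρ (jorG m τ)
    rw [E.finrank_eq]
    exact h.le τ m
  eq := by
    intro τ
    obtain ⟨E⟩ := one_zc_aux e n (P.rootMultiplicity (τ : K)) ρ
      (jorG (P.rootMultiplicity (τ : K)) τ)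
    rw [E.finrank_eq]
    exact h.eq τ
  fd := by
    intro τ m
    obtain ⟨E⟩ := one_zc_aux e n m ρ (jorG m τ)
    have := h.fd τ m
    exact Module.Finite.equiv E.symm
  ne := h.ne
  int := by
    intro hρ
    exact h.int fun x i j => hρ (e x) i j

end transport

/-! ### a common fixed vector -/

theorem one_tr {K : Type} [Field K] (A : SL2 K) (v : Fin 2 → K) (hv : v ≠ 0)
    (h : A.val.mulVec v = v) : tr A = 2 := by
  have h1 : (A.val - 1).det = 0 := by
    apply Matrix.exists_mulVec_eq_zero_iff.mp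
    exact ⟨v, hv, by rw [Matrix.sub_mulVec, h, Matrix.one_mulVec, sub_self]⟩
  have h2 := A.det_coe
  rw [Matrix.det_fin_two] at h1 h2
  rw [tr_eq]
  simp only [Matrix.sub_apply, Matrix.one_apply_eq, Matrix.one_apply] at h1
  simp at h1
  linear_combination h2 - h1

theorem one_fix {G K : Type} [Group G] [Field K] (ρ : G →* SL2 K) (g h : G) (v : Fin 2 → K)
    (hg : (ρ g).val.mulVec v = v) (hh : (ρ h).val.mulVec v = v)
    (htr : tr (ρ (g * h * g⁻¹ * h⁻¹)) ≠ 2) : v = 0 := by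
  by_contra hv
  apply htr
  apply one_tr _ v hv
  have hinv : ∀ x : G, (ρ x).val.mulVec v = v → (ρ x⁻¹).val.mulVec v = v := by
    intro x hx
    have h1 : (ρ x⁻¹).val * (ρ x).val = 1 := by
      rw [← Matrix.SpecialLinearGroup.coe_mul, ← map_mul, inv_mul_cancel, map_one]
      rfl
    nth_rewrite 1 [← hx]
    rw [Matrix.mulVec_mulVec, h1, Matrix.one_mulVec]
  have h2 : (ρ (g * h * g⁻¹ * h⁻¹)).val =
      (ρ g).val * (ρ h).val * (ρ g⁻¹).val * (ρ h⁻¹).val := by
    rw [map_mul, map_mul, map_mul]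
    rfl
  rw [h2, ← Matrix.mulVec_mulVec, hinv h hh, ← Matrix.mulVec_mulVec, hinv g hg,
    ← Matrix.mulVec_mulVec, hh, hg]

/-! ### the main result -/

theorem p_one (hlp : R_lp) (hop : A_op) (hsep : A_sep) : A_one := by
  intro ι _ α w i₀ hpos hhd D hDfin k hk u v hu hw c hc
  obtain ⟨F₂, hF₂D, hF₂n, hF₂nor, hF₂fin, hF₂P⟩ := hsep ι α w D hDfin k c
  have hk0 : (k : ℤ) ≠ 0 := by exact_mod_cast (by omega : k ≠ 0)
  have hnc : nR α (c : GR α) = Multiplicative.ofAdd (-(k : ℤ)) := by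
    rw [hc, map_mul, nR_iR, mul_one, map_inv, map_pow, nR_tR]
    apply Multiplicative.toAdd.injective
    simp
  -- the normal subgroup
  obtain ⟨N₂, hN₂⟩ : ∃ N₂ : Subgroup D, N₂ = F₂.subgroupOf D := ⟨_, rfl⟩
  have hN₂mem : ∀ x : D, x ∈ N₂ ↔ (x : GR α) ∈ F₂ := by
    intro x
    rw [hN₂]
    exact Subgroup.mem_subgroupOf
  have hN₂nor : N₂.Normal := by
    constructor
    intro x hx g
    rw [hN₂mem] at hx ⊢
    exact hF₂nor g g.2 x hx
  -- the subgroup `L`
  obtain ⟨L, hL⟩ : ∃ L : Subgroup D, L = N₂ ⊔ Subgroup.zpowers c := ⟨_, rfl⟩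
  have hLmem : ∀ x : D, x ∈ L ↔ ∃ f : D, (f : GR α) ∈ F₂ ∧ ∃ j : ℤ, f * c ^ j = x := by
    intro x
    rw [hL, Subgroup.mem_sup_of_normal_left]
    constructor
    · rintro ⟨f, hf, z, hz, rfl⟩
      obtain ⟨j, rfl⟩ := Subgroup.mem_zpowers_iff.mp hz
      exact ⟨f, (hN₂mem f).mp hf, j, rfl⟩
    · rintro ⟨f, hf, j, rfl⟩
      exact ⟨f, (hN₂mem f).mpr hf, c ^ j, Subgroup.zpow_mem_zpowers c j, rfl⟩
  have hcL : c ∈ L := (hLmem c).mpr ⟨1, F₂.one_mem, 1, by simp⟩
  have hfL : ∀ f : D, (f : GR α) ∈ F₂ → f ∈ L := fun f hf =>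
    (hLmem f).mpr ⟨f, hf, 0, by simp⟩
  have hnD : ∀ (f : D), (f : GR α) ∈ F₂ → ∀ j : ℤ,
      Multiplicative.toAdd (nD D (f * c ^ j)) = k * (-j) := by
    intro f hf j
    have h1 : nD D f = 1 := hF₂n f hf
    have h2 : nD D c = Multiplicative.ofAdd (-(k : ℤ)) := hnc
    rw [map_mul, map_zpow, h1, h2, one_mul]
    simp only [toAdd_zpow, toAdd_ofAdd, smul_eq_mul]
    ring
  have hdvd : ∀ x ∈ L, (k : ℤ) ∣ Multiplicative.toAdd (nD D x) := by
    intro x hx
    obtain ⟨f, hf, j, rfl⟩ := (hLmem x).mp hx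
    exact ⟨-j, hnD f hf j⟩
  obtain ⟨nL, hnL⟩ : ∃ nL : L →* Multiplicative ℤ, ∀ x : L,
      Multiplicative.toAdd (nL x) = Multiplicative.toAdd (nD D x) / k :=
    ⟨{ toFun := fun x => Multiplicative.ofAdd (Multiplicative.toAdd (nD D x) / k)
       map_one' := by
        rw [Subgroup.coe_one, map_one, toAdd_one, Int.zero_ediv]
        rfl
       map_mul' := by
        intro x y
        rw [Subgroup.coe_mul, map_mul, toAdd_mul,
          Int.add_ediv_of_dvd_left (hdvd x x.2)]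
        rfl }, fun x => rfl⟩
  have hnLk : ∀ x : L, Multiplicative.toAdd (nD D x) = k * Multiplicative.toAdd (nL x) := by
    intro x
    rw [hnL, Int.mul_ediv_cancel' (hdvd x x.2)]
  have hnLc : nL ⟨c, hcL⟩ = Multiplicative.ofAdd (-1) := by
    apply Multiplicative.toAdd.injective
    apply mul_left_cancel₀ hk0
    rw [← hnLk]
    have h2 : nD D c = Multiplicative.ofAdd (-(k : ℤ)) := hnc
    show Multiplicative.toAdd (nD D c) = _
    rw [h2]
    simp
  -- finite index
  obtain ⟨Lh, hLh⟩ : ∃ Lh : Subgroup (GR α), Lh = L.map D.subtype := ⟨_, rfl⟩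
  have hLhmem : ∀ x : GR α, x ∈ Lh ↔ ∃ h : x ∈ D, (⟨x, h⟩ : D) ∈ L := by
    intro x
    rw [hLh, Subgroup.mem_map]
    constructor
    · rintro ⟨y, hy, rfl⟩
      exact ⟨y.2, hy⟩
    · rintro ⟨h, hx⟩
      exact ⟨⟨x, h⟩, hx, rfl⟩
  have hLhfin : Lh.FiniteIndex := by
    refine one_fin α Lh ?_ k hk c ((hLhmem _).mpr ⟨c.2, hcL⟩) hnc
    have hle : F₂.comap (iR α) ≤ Lh.comap (iR α) := by
      intro f hf
      rw [Subgroup.mem_comap] at hf ⊢
      exact (hLhmem _).mpr ⟨hF₂D hf, hfL ⟨_, hF₂D hf⟩ hf⟩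
    exact Subgroup.finiteIndex_of_le hle
  have hLfin : L.FiniteIndex := by
    have h1 : L = Lh.subgroupOf D := by
      ext x
      rw [Subgroup.mem_subgroupOf, hLhmem]
      constructor
      · intro hx
        exact ⟨x.2, hx⟩
      · rintro ⟨_, hx⟩
        exact hx
    rw [h1]
    infer_instance
  -- the subgroup of `GR (α ^ k)`
  obtain ⟨L', hL'⟩ : ∃ L' : Subgroup (GR (α ^ k)), L' = Lh.comap (emb α k) := ⟨_, rfl⟩
  have hL'fin : L'.FiniteIndex := by
    constructor
    rw [hL', Subgroup.index_comap]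
    have h1 : (Lh.subgroupOf (emb α k).range).FiniteIndex := inferInstance
    exact h1.index_ne_zero
  have hL'mem : ∀ x : GR (α ^ k), x ∈ L' ↔ ∃ h : emb α k x ∈ D, (⟨emb α k x, h⟩ : D) ∈ L := by
    intro x
    rw [hL', Subgroup.mem_comap, hLhmem]
  obtain ⟨e, he⟩ : ∃ e : L' ≃* L, ∀ x : L', ((e x : D) : GR α) = emb α k x := by
    have hE : ∃ e0 : L' →* L, ∀ x : L', ((e0 x : D) : GR α) = emb α k x :=
      ⟨{ toFun := fun x => ⟨⟨emb α k x, ((hL'mem x).mp x.2).1⟩, ((hL'mem x).mp x.2).2⟩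
         map_one' := by
          apply Subtype.ext
          apply Subtype.ext
          show emb α k ((1 : L') : GR (α ^ k)) = 1
          rw [Subgroup.coe_one, map_one]
         map_mul' := by
          intro x y
          apply Subtype.ext
          apply Subtype.ext
          show emb α k ((x * y : L') : GR (α ^ k)) = emb α k x * emb α k y
          rw [Subgroup.coe_mul, map_mul] }, fun x => rfl⟩
    obtain ⟨e0, he0⟩ := hE
    refine ⟨MulEquiv.ofBijective e0 ⟨?_, ?_⟩, fun x => he0 x⟩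
    · intro x y hxy
      apply Subtype.ext
      apply one_emb_inj α k hk
      rw [← he0, ← he0, hxy]
    · intro y
      obtain ⟨g', hg', -⟩ := one_emb_surj α k ((y : D) : GR α) (Multiplicative.toAdd (nL y))
        (hnLk y)
      have hg'L : g' ∈ L' := by
        rw [hL'mem, hg']
        exact ⟨y.1.2, y.2⟩
      refine ⟨⟨g', hg'L⟩, ?_⟩
      apply Subtype.ext
      apply Subtype.ext
      rw [he0]
      exact hg'
  have hne : nL.comp e.toMonoidHom = (nR (α ^ k)).comp L'.subtype := by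
    ext x
    apply Multiplicative.toAdd.injective
    apply mul_left_cancel₀ hk0
    show (k : ℤ) * Multiplicative.toAdd (nL (e x)) =
      k * Multiplicative.toAdd (nR (α ^ k) (x : GR (α ^ k)))
    rw [← hnLk, ← one_nR_emb, ← he]
    rfl
  have hcemb : emb α k ((tR (α ^ k))⁻¹ * iR (α ^ k) (BG.pw u)) = c := by
    rw [map_mul, map_inv, emb_tR, emb_iR, hc]
  have hc' : (tR (α ^ k))⁻¹ * iR (α ^ k) (BG.pw u) ∈ L' := by
    rw [hL'mem, hcemb]
    exact ⟨c.2, hcL⟩
  have hec : e ⟨_, hc'⟩ = ⟨c, hcL⟩ := by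
    apply Subtype.ext
    apply Subtype.ext
    rw [he]
    exact hcemb
  obtain ⟨N, M, hM, hP⟩ := hop ι (α ^ k) (itw w k) i₀ (fun i => (hlp ι α w hpos.eq).1 k i)
    (one_head w i₀ hhd k) L' hL'fin i₀ u v hu hw hc'
  refine ⟨L, nL, N, M, hcL, hLfin, hnLc, hnLk, hM, ?_⟩
  intro K _ ρ hIr htr
  obtain ⟨P, hPP⟩ := hP K ((ρ.comp L.subtype).comp e.toMonoidHom) (by
    -- no invariants
    intro v hv
    obtain ⟨g, hg, h, hh, hgh⟩ := hIr
    have hcomm : ∀ x ∈ ⁅L, L⁆, (ρ x).val.mulVec v = v := by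
      intro x hx
      have hxL : x ∈ L := (Subgroup.commutator_le_self L) hx
      have hxn : nR α (x : GR α) = 1 := by
        have h1 : ⁅L, L⁆ ≤ (nD D).ker := by
          rw [Subgroup.commutator_le]
          intro a _ b _
          rw [MonoidHom.mem_ker, commutatorElement_def, map_mul, map_mul, map_mul, map_inv,
            map_inv, mul_right_comm, mul_inv_cancel_right, mul_inv_cancel]
        exact h1 hx
      obtain ⟨f, hf⟩ := GR_ker α _ hxn
      have hfL' : iR (α ^ k) f ∈ L' := by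
        rw [hL'mem, emb_iR, ← hf]
        exact ⟨x.2, hxL⟩
      have h2 := hv ⟨_, hfL'⟩ (nR_iR _ f)
      have h3 : e ⟨_, hfL'⟩ = ⟨x, hxL⟩ := by
        apply Subtype.ext
        apply Subtype.ext
        rw [he]
        show emb α k (iR (α ^ k) f) = x
        rw [emb_iR, hf]
      have h4 : ((ρ.comp L.subtype).comp e.toMonoidHom) ⟨_, hfL'⟩ = ρ x := by
        show ρ ((e ⟨_, hfL'⟩ : L) : D) = ρ x
        rw [h3]
      have h5 : (((ρ.comp L.subtype).comp e.toMonoidHom) ⟨_, hfL'⟩).val.mulVec v = v := h2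
      rw [h4] at h5
      exact h5
    exact one_fix ρ g h v (hcomm g hg) (hcomm h hh) hgh) (by
    -- the traces
    intro y i u' v' huv' h
    have h1 : ((ρ.comp L.subtype).comp e.toMonoidHom) ⟨_, hc'⟩ = ρ c := by
      show ρ ((e ⟨_, hc'⟩ : L) : D) = ρ c
      rw [hec]
    obtain ⟨x, hx⟩ : ∃ x : D, x = ((e ⟨_, h⟩ : L) : D) := ⟨_, rfl⟩
    have h2 : ((ρ.comp L.subtype).comp e.toMonoidHom) ⟨_, h⟩ = ρ x := by
      rw [hx]
      rfl
    rw [h1, h2]
    apply htr
    have hxL : x ∈ L := by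
      rw [hx]
      exact Subtype.prop _
    have hxe : (x : GR α) = (emb α k y)⁻¹ * ((tR α ^ k)⁻¹ * iR α (BG.pw u')) * emb α k y := by
      rw [hx, he]
      show emb α k (y⁻¹ * ((tR (α ^ k))⁻¹ * iR (α ^ k) (BG.pw u')) * y) = _
      rw [map_mul, map_mul, map_mul, map_inv, map_inv, emb_tR, emb_iR]
    have hxn : nR α (x : GR α) = Multiplicative.ofAdd (-(k : ℤ)) := by
      have h9 : nR α (tR α ^ k) = Multiplicative.ofAdd (k : ℤ) := by
        rw [map_pow, nR_tR]
        apply Multiplicative.toAdd.injective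
        simp
      rw [hxe, map_mul, map_mul, map_mul, map_inv, map_inv, nR_iR, mul_one, h9,
        mul_comm, mul_inv_cancel_left]
      rfl
    obtain ⟨f, hf, j, hfj⟩ := (hLmem x).mp hxL
    have hj : j = 1 := by
      have h3 := hnD f hf j
      rw [hfj] at h3
      have h4 : nD D x = Multiplicative.ofAdd (-(k : ℤ)) := hxn
      rw [h4, toAdd_ofAdd] at h3
      have h5 : (k : ℤ) * (j - 1) = 0 := by linarith
      rcases mul_eq_zero.mp h5 with h6 | h6
      · exact absurd h6 hk0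
      · linarith
    rw [hj, zpow_one] at hfj
    have hxD : (emb α k y)⁻¹ * ((tR α ^ k)⁻¹ * iR α (BG.pw u')) * emb α k y ∈ D := by
      rw [← hxe]
      exact x.2
    have h7 := hF₂P (emb α k y) i u' v' huv' hxD (by
      rw [← hxe, ← hfj, Subgroup.coe_mul, mul_inv_cancel_right]
      exact hf)
    have h8 : (⟨_, hxD⟩ : D) = x := Subtype.ext hxe.symm
    rw [h8] at h7
    exact h7)
  refine ⟨P, ?_⟩
  rw [← hec]
  apply one_transport e nL N M (ρ.comp L.subtype) ⟨_, hc'⟩ P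
  rw [hne]
  exact hPP

end Pool.Agent.F8.CG
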