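import Pool.Agent.Lib.MP_305fdd_al.F8.CG.StmA3
import Pool.Agent.Lib.MP_305fdd_al.F8.CG.P_one
import Pool.Agent.Lib.MP_305fdd_al.F8.CG.P_alf
import Pool.Agent.Lib.MP_305fdd_al.F8.BG.P_i3

/-!
# MP_305fdd_al, congruence subgroups: piece CG odd, a loop of odd level with nonzero trace

The connectedness of the graph of the edges is copied from `P_gn2.lean`, the facts on `2 × 2` matrices are copied from `P_fri.lean`.
-/

set_option autoImplicit false

namespace Pool.Agent.F8.CG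

open Pool.Agent.F8.BG Pool.Agent.Lib.MP_305fdd_al Pool.Agent.F8

/-! ### The graph of the edges -/

section odd

variable {ι : Type}

private theorem odd_itw (w : ι → List ι) (l : ℕ) : ∀ (l' : ℕ) (i : ι),
    itw w (l + l') i = (itw w l i).flatMap (itw w l')
  | 0, i => by
    have h : itw w 0 = fun k => [k] := rfl
    rw [h, List.flatMap_singleton', Nat.add_zero]
  | l' + 1, i => by
    have h : itw w (l' + 1) = fun k => (itw w l' k).flatMap w := rfl
    have h1 : itw w (l + (l' + 1)) i = (itw w (l + l') i).flatMap w := rfl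
    rw [h1, odd_itw w l l' i, h, List.flatMap_assoc]

private theorem odd_itw1 (w : ι → List ι) (i : ι) : itw w 1 i = w i := by
  show [i].flatMap w = w i
  simp

private theorem odd_pw (α : MulAut (FreeGroup ι)) (w : ι → List ι)
    (hw : ∀ i, α (FreeGroup.of i) = BG.pw (w i)) (L : List ι) :
    BG.pw (L.flatMap w) = α (BG.pw L) := by
  induction L with
  | nil => simp
  | cons i L ih => rw [List.flatMap_cons, pw_append, ih, pw_cons, map_mul, hw]

private theorem odd_pwl (α : MulAut (FreeGroup ι)) (w : ι → List ι)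
    (hw : ∀ i, α (FreeGroup.of i) = BG.pw (w i)) (l : ℕ) (L : List ι) :
    BG.pw (L.flatMap (itw w l)) = (α ^ l) (BG.pw L) := by
  induction l with
  | zero =>
    have h : itw w 0 = fun k => [k] := rfl
    rw [h, List.flatMap_singleton', pow_zero, MulAut.one_apply]
  | succ l ih =>
    have h : itw w (l + 1) = fun k => (itw w l k).flatMap w := rfl
    rw [h, ← List.flatMap_assoc, odd_pw α w hw, ih, pow_succ', MulAut.mul_apply]

private theorem odd_pe {V : Type} [MulAction (FreeGroup ι) V] (l : List ι) :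
    ∀ (v : V) (e : V × ι), e ∈ pe v l → ∃ l₁ l₂, l = l₁ ++ e.2 :: l₂ ∧
      e.1 = (BG.pw l₁)⁻¹ • v := by
  induction l with
  | nil =>
    intro v e he
    simp at he
  | cons i l ih =>
    intro v e he
    rw [pe_cons, List.mem_cons] at he
    rcases he with rfl | he
    · exact ⟨[], l, rfl, by simp⟩
    · obtain ⟨l₁, l₂, h1, h2⟩ := ih _ e he
      refine ⟨i :: l₁, l₂, by rw [h1]; rfl, ?_⟩
      rw [h2, pw_cons, mul_inv_rev, mul_smul]

/-- reached from the edge `e` after `l` steps -/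
private def odd_RS (w : ι → List ι) {V : Type} [MulAction (FreeGroup ι) V] (ψ : Equiv.Perm V)
    (e : V × ι) (l : ℕ) (e' : V × ι) : Prop :=
  ∃ u u' : List ι, itw w l e.2 = u ++ e'.2 :: u' ∧ e'.1 = (BG.pw u)⁻¹ • (ψ ^ l) e.1

private theorem odd_psi {α : MulAut (FreeGroup ι)} {V : Type} [MulAction (FreeGroup ι) V]
    {ψ : Equiv.Perm V} (hψ : ∀ (g : FreeGroup ι) (v : V), ψ (g • v) = α g • ψ v) (l : ℕ)
    (g : FreeGroup ι) (v : V) : (ψ ^ l) (g • v) = (α ^ l) g • (ψ ^ l) v := by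
  induction l with
  | zero => simp
  | succ l ih =>
    rw [pow_succ', Equiv.Perm.mul_apply, ih, hψ, pow_succ', MulAut.mul_apply,
      Equiv.Perm.mul_apply]

private theorem odd_comp {α : MulAut (FreeGroup ι)} {w : ι → List ι}
    (hw : ∀ i, α (FreeGroup.of i) = BG.pw (w i)) {V : Type} [MulAction (FreeGroup ι) V]
    {ψ : Equiv.Perm V} (hψ : ∀ (g : FreeGroup ι) (v : V), ψ (g • v) = α g • ψ v)
    {e e' e'' : V × ι} {l l' : ℕ} (h : odd_RS w ψ e l e') (h' : odd_RS w ψ e' l' e'') :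
    odd_RS w ψ e (l + l') e'' := by
  obtain ⟨u, u', h1, h2⟩ := h
  obtain ⟨y, y', h3, h4⟩ := h'
  refine ⟨u.flatMap (itw w l') ++ y, y' ++ u'.flatMap (itw w l'), ?_, ?_⟩
  · rw [odd_itw, h1, List.flatMap_append, List.flatMap_cons, h3]
    simp [List.append_assoc]
  · rw [h4, h2, odd_psi hψ, pw_append, odd_pwl α w hw, mul_inv_rev, mul_smul, map_inv]
    congr 2
    rw [add_comm, pow_add, Equiv.Perm.mul_apply]

private theorem odd_step {w : ι → List ι} {V : Type} [MulAction (FreeGroup ι) V]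
    {ψ : Equiv.Perm V} {e e' : V × ι} (h : e' ∈ pe (ψ e.1) (w e.2)) : odd_RS w ψ e 1 e' := by
  obtain ⟨l₁, l₂, h1, h2⟩ := odd_pe _ _ _ h
  exact ⟨l₁, l₂, by rw [odd_itw1, h1], by rw [h2, pow_one]⟩

private theorem odd_ne {α : MulAut (FreeGroup ι)} {w : ι → List ι}
    (hw : ∀ i, α (FreeGroup.of i) = BG.pw (w i)) (i : ι) : w i ≠ [] := by
  classical
  intro h
  have h1 := hw i
  rw [h, pw_nil, ← map_one α] at h1
  exact FreeGroup.of_ne_one i (α.injective h1)

/-- the action of the free group -/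
private abbrev odd_act (α : MulAut (FreeGroup ι)) (L : Subgroup (GR α)) :
    MulAction (FreeGroup ι) (GR α ⧸ L) := MulAction.compHom _ (iR α)

attribute [local instance] odd_act

private theorem odd_smul {α : MulAut (FreeGroup ι)} {L : Subgroup (GR α)} (g : FreeGroup ι)
    (v : GR α ⧸ L) : g • v = iR α g • v := rfl

private theorem odd_hpsi {α : MulAut (FreeGroup ι)} {L : Subgroup (GR α)} (g : FreeGroup ι)
    (v : GR α ⧸ L) : (MulAction.toPerm (tR α) : Equiv.Perm (GR α ⧸ L)) (g • v) =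
      α g • (MulAction.toPerm (tR α) : Equiv.Perm (GR α ⧸ L)) v := by
  show tR α • (iR α g • v) = iR α (α g) • (tR α • v)
  rw [smul_smul, smul_smul, tR_mul]

private theorem odd_ppow {α : MulAut (FreeGroup ι)} {L : Subgroup (GR α)} (l : ℕ)
    (v : GR α ⧸ L) : ((MulAction.toPerm (tR α) : Equiv.Perm (GR α ⧸ L)) ^ l) v =
      tR α ^ l • v := by
  induction l with
  | zero => simp
  | succ l ih =>
    rw [pow_succ', Equiv.Perm.mul_apply, ih, MulAction.toPerm_apply, smul_smul, pow_succ']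

/-- powers of the permutation of `t` -/
private theorem odd_pz {α : MulAut (FreeGroup ι)} {L : Subgroup (GR α)} (n : ℤ)
    (v : GR α ⧸ L) : ((MulAction.toPerm (tR α) : Equiv.Perm (GR α ⧸ L)) ^ n) v =
      tR α ^ n • v := by
  have h : (MulAction.toPerm (tR α) : Equiv.Perm (GR α ⧸ L)) =
      MulAction.toPermHom (GR α) (GR α ⧸ L) (tR α) := rfl
  rw [h, ← map_zpow]
  rfl

/-- all edges can be reached if the index is finite -/
private theorem odd_conn (hi1 : BG.S_i1) (hi2 : BG.S_i2) [Finite ι] {α : MulAut (FreeGroup ι)}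
    {w : ι → List ι} (hP : Pos α w) (L : Subgroup (GR α)) (hL : L.FiniteIndex)
    (e e' : (GR α ⧸ L) × ι) :
    ∃ l, 1 ≤ l ∧ odd_RS w (MulAction.toPerm (tR α) : Equiv.Perm (GR α ⧸ L)) e l e' := by
  haveI := hL
  haveI : Finite (GR α ⧸ L) := Subgroup.finite_quotient_of_finiteIndex
  let ψ : Equiv.Perm (GR α ⧸ L) := MulAction.toPerm (tR α)
  have hψ : ∀ (g : FreeGroup ι) (v : GR α ⧸ L), ψ (g • v) = α g • ψ v := odd_hpsi
  set S : Set ((GR α ⧸ L) × ι) := {e' | ∃ l, 1 ≤ l ∧ odd_RS w ψ e l e'} with hSdef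
  have hSf : S.Finite := Set.toFinite _
  have hS : ∀ e₁ ∈ S, ∀ e₂ ∈ pe (ψ e₁.1) (w e₁.2), e₂ ∈ S := by
    rintro e₁ ⟨l, hl, h⟩ e₂ h2
    exact ⟨l + 1, by omega, odd_comp hP.eq hψ h (odd_step h2)⟩
  have hS2 : ∀ (v : GR α ⧸ L) (i : ι), ∀ e₂ ∈ pe (ψ v) (w i), e₂ ∈ S ↔ (v, i) ∈ S :=
    fun v i e₂ h2 => ⟨hi1 ι w hP.irr (GR α ⧸ L) ψ S hSf hS v i e₂ h2,
      fun h => hS (v, i) h e₂ h2⟩
  have hall : ∀ (n : ℕ) (g : FreeGroup ι) (j : ι), (g • (ψ ^ n) (ψ e.1), j) ∈ S := by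
    intro n
    induction n with
    | zero =>
      intro g j
      obtain ⟨k, K, hk⟩ := List.exists_cons_of_ne_nil (odd_ne hP.eq e.2)
      have h0 : (ψ e.1, k) ∈ S :=
        ⟨1, le_refl 1, odd_step (by rw [hk, pe_cons]; exact List.mem_cons_self)⟩
      have h1 := hi2 ι α w hP (GR α ⧸ L) ψ hψ S hS2 (ψ e.1) k h0 g j
      rw [pow_zero, Equiv.Perm.one_apply]
      exact h1
    | succ n ih =>
      intro g j
      have h2 := ih 1 e.2
      rw [one_smul] at h2
      obtain ⟨k, K, hk⟩ := List.exists_cons_of_ne_nil (odd_ne hP.eq e.2)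
      have h0 : (ψ ((ψ ^ n) (ψ e.1)), k) ∈ S :=
        hS _ h2 _ (by rw [hk, pe_cons]; exact List.mem_cons_self)
      have h1 := hi2 ι α w hP (GR α ⧸ L) ψ hψ S hS2 _ k h0 g j
      rw [pow_succ', Equiv.Perm.mul_apply]
      exact h1
  obtain ⟨y, hy⟩ := MulAction.exists_smul_eq (GR α) (ψ e.1) e'.1
  obtain ⟨f, n, rfl⟩ := GR_cases α y
  obtain ⟨m, hm⟩ := mem_powers_iff_mem_zpowers.2 (⟨n, rfl⟩ : ψ ^ n ∈ Subgroup.zpowers ψ)
  have hm' : ψ ^ m = ψ ^ n := hm
  have h3 := hall m f e'.2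
  have h4 : f • (ψ ^ m) (ψ e.1) = e'.1 := by
    rw [hm']
    show iR α f • (ψ ^ n) (ψ e.1) = e'.1
    rw [odd_pz, smul_smul]
    exact hy
  rw [h4] at h3
  exact h3

end odd

/-! ### Matrices -/

private abbrev odd_M (K : Type) : Type := Matrix (Fin 2) (Fin 2) K

private lemma odd_com {K : Type} [Field K] (g h : SL2 K) :
    (g.val * h.val - h.val * g.val).det = 2 - tr (g * h * g⁻¹ * h⁻¹) := by
  have hg : g.val.det = 1 := g.2
  have hh : h.val.det = 1 := h.2
  have h1 : (g.val * h.val - h.val * g.val).det = 2 * g.val.det * h.val.det -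
      (g.val * h.val * g.val.adjugate * h.val.adjugate).trace := by
    rw [Matrix.adjugate_fin_two, Matrix.adjugate_fin_two]
    simp only [Matrix.det_fin_two, Matrix.trace_fin_two, Matrix.sub_apply, Matrix.mul_apply,
      Fin.sum_univ_two, Matrix.of_apply, Matrix.cons_val', Matrix.cons_val_zero,
      Matrix.cons_val_one, Matrix.cons_val_fin_one]
    ring
  rw [h1, hg, hh, mul_one, mul_one]
  rfl

private def odd_dt {K : Type} [Field K] (a b c d e f g h i : K) : K :=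
  a * (e * i - f * h) - b * (d * i - f * g) + c * (d * h - e * g)

private lemma odd_D {K : Type} [Field K] (X Y : odd_M K) :
    odd_dt (X 0 1) (X 1 0) (X 1 1 - X 0 0) (Y 0 1) (Y 1 0) (Y 1 1 - Y 0 0)
      ((X * Y) 0 1) ((X * Y) 1 0) ((X * Y) 1 1 - (X * Y) 0 0) = (X * Y - Y * X).det ∨
    odd_dt (X 0 1) (X 1 0) (X 1 1 - X 0 0) (Y 0 1) (Y 1 0) (Y 1 1 - Y 0 0)
      ((X * Y) 0 1) ((X * Y) 1 0) ((X * Y) 1 1 - (X * Y) 0 0) = - (X * Y - Y * X).det := by
  simp only [odd_dt, Matrix.det_fin_two, Matrix.sub_apply, Matrix.mul_apply, Fin.sum_univ_two]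
  left
  ring1

private lemma odd_cram {K : Type} [Field K] (x2 x3 x4 y2 y3 y4 z2 z3 z4 n2 n3 n4 : K)
    (hD : odd_dt x2 x3 x4 y2 y3 y4 z2 z3 z4 ≠ 0) : ∃ q r s : K,
    n2 = q * x2 + r * y2 + s * z2 ∧ n3 = q * x3 + r * y3 + s * z3 ∧
    n4 = q * x4 + r * y4 + s * z4 := by
  refine ⟨odd_dt n2 n3 n4 y2 y3 y4 z2 z3 z4 / odd_dt x2 x3 x4 y2 y3 y4 z2 z3 z4,
    odd_dt x2 x3 x4 n2 n3 n4 z2 z3 z4 / odd_dt x2 x3 x4 y2 y3 y4 z2 z3 z4,
    odd_dt x2 x3 x4 y2 y3 y4 n2 n3 n4 / odd_dt x2 x3 x4 y2 y3 y4 z2 z3 z4, ?_, ?_, ?_⟩ <;>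
  · rw [div_mul_eq_mul_div, div_mul_eq_mul_div, div_mul_eq_mul_div, ← add_div, ← add_div,
      eq_div_iff hD]
    simp only [odd_dt]
    ring

private lemma odd_span {K : Type} [Field K] (X Y : odd_M K) (h : (X * Y - Y * X).det ≠ 0)
    (N : odd_M K) : ∃ p q r s : K, N = p • (1 : odd_M K) + q • X + r • Y + s • (X * Y) := by
  have hD0 : odd_dt (X 0 1) (X 1 0) (X 1 1 - X 0 0) (Y 0 1) (Y 1 0) (Y 1 1 - Y 0 0)
      ((X * Y) 0 1) ((X * Y) 1 0) ((X * Y) 1 1 - (X * Y) 0 0) ≠ 0 := by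
    rcases odd_D X Y with h' | h' <;> rw [h']
    · exact h
    · exact neg_ne_zero.2 h
  obtain ⟨q, r, s, e2, e3, e4⟩ := odd_cram _ _ _ _ _ _ _ _ _ (N 0 1) (N 1 0) (N 1 1 - N 0 0) hD0
  refine ⟨N 0 0 - q * X 0 0 - r * Y 0 0 - s * (X * Y) 0 0, q, r, s, ?_⟩
  ext i j
  fin_cases i <;> fin_cases j
  · simp only [Fin.zero_eta, Matrix.add_apply, Matrix.smul_apply, Matrix.one_apply_eq, smul_eq_mul]
    ring
  · simp only [Fin.zero_eta, Fin.mk_one, Matrix.add_apply, Matrix.smul_apply, smul_eq_mul]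
    rw [Matrix.one_apply_ne (by decide)]
    linear_combination e2
  · simp only [Fin.zero_eta, Fin.mk_one, Matrix.add_apply, Matrix.smul_apply, smul_eq_mul]
    rw [Matrix.one_apply_ne (by decide)]
    linear_combination e3
  · simp only [Fin.mk_one, Matrix.add_apply, Matrix.smul_apply, Matrix.one_apply_eq, smul_eq_mul]
    linear_combination e4

/-- nondegeneracy -/
private lemma odd_nd {K : Type} [Field K] (X Y : odd_M K) (h : (X * Y - Y * X).det ≠ 0)
    (N : odd_M K) (h0 : N.trace = 0) (h1 : (N * X).trace = 0) (h2 : (N * Y).trace = 0)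
    (h3 : (N * X * Y).trace = 0) : N = 0 := by
  have key : ∀ M : odd_M K, (N * M).trace = 0 := by
    intro M
    obtain ⟨p, q, r, s, rfl⟩ := odd_span X Y h M
    simp only [mul_add, mul_smul_comm, mul_one, Matrix.trace_add, Matrix.trace_smul, h0, h1, h2,
      ← mul_assoc, h3, smul_zero, add_zero]
  exact Matrix.ext_iff_trace_mul_right.2 (fun M => by rw [key, zero_mul, Matrix.trace_zero])


/-! ### Words -/

private theorem odd_pwneg {ι : Type} (β : FreeGroup ι →* FreeGroup ι) (v' : ι → List ι)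
    (hv : ∀ i, β (FreeGroup.of i) = (BG.pw (v' i))⁻¹) (L : List ι) :
    β (BG.pw L) = (BG.pw (L.reverse.flatMap v'))⁻¹ := by
  induction L with
  | nil => simp
  | cons i L ih =>
    rw [pw_cons, map_mul, hv, ih, List.reverse_cons, List.flatMap_append, pw_append,
      mul_inv_rev, List.flatMap_singleton]

/-- (1) a loop of odd level -/
private theorem odd_loop (hi1 : BG.S_i1) (hi2 : BG.S_i2) {ι : Type} [Finite ι]
    {α : MulAut (FreeGroup ι)} {v w : ι → List ι} {i₀ : ι} (hN : Neg α v w i₀)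
    (D : Subgroup (GR α)) (hD : D.FiniteIndex)
    (hg : ∃ g ∈ D, ¬ Even (Multiplicative.toAdd (nR α g))) :
    ∃ (k : ℕ) (v' : ι → List ι) (u s : List ι), Odd k ∧
      (∀ i, (α ^ k) (FreeGroup.of i) = (BG.pw (v' i))⁻¹) ∧ v' i₀ = u ++ i₀ :: s ∧
      (tR α ^ k)⁻¹ * (iR α (BG.pw (i₀ :: s)))⁻¹ ∈ D := by
  obtain ⟨g, hgD, hgo⟩ := hg
  -- the first letter of `v i₀`
  obtain ⟨l, suf, hv⟩ : ∃ l suf, v i₀ = l :: suf := by
    cases hv : v i₀ with
    | nil =>
      exfalso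
      have h := hN.hd
      have hw : w i₀ = [] := by
        cases hw : w i₀ with
        | nil => rfl
        | cons a r =>
          rw [hw, List.head?_cons, Option.some.injEq] at h
          rw [h] at hw
          have h2 := hN.eq i₀
          rw [hv, pw_nil, inv_one, ← map_one α] at h2
          exact absurd (α.injective h2) (FreeGroup.of_ne_one i₀)
      rw [hw] at h
      simp at h
    | cons l suf => exact ⟨l, suf, rfl⟩
  obtain ⟨D', hD'⟩ : ∃ D' : Subgroup (GR (α ^ 2)), D' = D.comap (emb α 2) := ⟨_, rfl⟩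
  have hD'f : D'.FiniteIndex := by
    constructor
    rw [hD', Subgroup.index_comap]
    have h1 : (D.subgroupOf (emb α 2).range).FiniteIndex := inferInstance
    exact h1.index_ne_zero
  -- the edge `y`
  obtain ⟨n, hn⟩ : ∃ n : ℤ, n = Multiplicative.toAdd (nR α g) := ⟨_, rfl⟩
  rw [← hn, Int.not_even_iff_odd] at hgo
  obtain ⟨r, hr⟩ := hgo
  obtain ⟨z', hz', -⟩ := one_emb_surj α 2 (iR α (BG.pw (l :: suf)) * tR α * g) (r + 1) (by
    rw [map_mul (nR α), map_mul (nR α), nR_iR, nR_tR, one_mul, toAdd_mul, toAdd_ofAdd, ← hn, hr]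
    push_cast
    ring)
  letI hact : ∀ L : Subgroup (GR (α ^ 2)), MulAction (FreeGroup ι) (GR (α ^ 2) ⧸ L) :=
    odd_act (α ^ 2)
  obtain ⟨m, hm, u', s', h1, h2⟩ := odd_conn hi1 hi2 hN.pos D' hD'f
    ((z' : GR (α ^ 2) ⧸ D'), l) (((1 : GR (α ^ 2)) : GR (α ^ 2) ⧸ D'), i₀)
  have h1 : itw w m l = u' ++ i₀ :: s' := h1
  have h3 : ((1 : GR (α ^ 2)) : GR (α ^ 2) ⧸ D') =
      ((((iR (α ^ 2) (BG.pw u'))⁻¹ * (tR (α ^ 2) ^ m * z') : GR (α ^ 2))) :
        GR (α ^ 2) ⧸ D') := by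
    have h4 : (((1 : GR (α ^ 2)) : GR (α ^ 2) ⧸ D')) = (BG.pw u')⁻¹ •
      ((MulAction.toPerm (tR (α ^ 2)) : Equiv.Perm (GR (α ^ 2) ⧸ D')) ^ m)
        (z' : GR (α ^ 2) ⧸ D') := h2
    rw [odd_ppow, odd_smul, map_inv] at h4
    exact h4
  have h5 := QuotientGroup.eq.1 h3
  rw [inv_one, one_mul, hD', Subgroup.mem_comap, map_mul (emb α 2), map_mul (emb α 2),
    map_inv (emb α 2), map_pow (emb α 2), emb_iR, emb_tR, hz', ← pow_mul] at h5
  -- the word
  have hsq : ∀ i, (α ^ 2) (FreeGroup.of i) = BG.pw (w i) := hN.pos.eq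
  have h6 : (α ^ (2 * m)) (BG.pw (l :: suf)) =
      BG.pw u' * BG.pw (i₀ :: (s' ++ suf.flatMap (itw w m))) := by
    rw [pow_mul, ← odd_pwl (α ^ 2) w hsq, List.flatMap_cons, h1, ← pw_append]
    simp [List.append_assoc]
  have h7 : (iR α (BG.pw u'))⁻¹ * (tR α ^ (2 * m) * (iR α (BG.pw (l :: suf)) * tR α * g)) =
      iR α (BG.pw (i₀ :: (s' ++ suf.flatMap (itw w m)))) * tR α ^ (2 * m + 1) * g := by
    have h8 : tR α ^ (2 * m) * iR α (BG.pw (l :: suf)) =
        iR α ((α ^ (2 * m)) (BG.pw (l :: suf))) * tR α ^ (2 * m) := by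
      rw [← tR_pow_conj]
      group
    have h9 : tR α ^ (2 * m) * (iR α (BG.pw (l :: suf)) * tR α * g) =
        (tR α ^ (2 * m) * iR α (BG.pw (l :: suf))) * (tR α * g) := by
      simp only [mul_assoc]
    rw [h9, h8, h6, map_mul, pow_succ]
    simp only [mul_assoc, inv_mul_cancel_left]
  rw [h7] at h5
  have h10 : iR α (BG.pw (i₀ :: (s' ++ suf.flatMap (itw w m)))) * tR α ^ (2 * m + 1) ∈ D := by
    have h := D.mul_mem h5 (D.inv_mem hgD)
    rwa [mul_inv_cancel_right] at h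
  refine ⟨2 * m + 1, fun i => (v i).flatMap (itw w m), u', s' ++ suf.flatMap (itw w m),
    ⟨m, rfl⟩, ?_, ?_, ?_⟩
  · intro i
    rw [pow_succ, MulAut.mul_apply, hN.eq, map_inv, pow_mul, ← odd_pwl (α ^ 2) w hsq]
  · show (v i₀).flatMap (itw w m) = _
    rw [hv, List.flatMap_cons, h1]
    simp [List.append_assoc]
  · have h := D.inv_mem h10
    rwa [mul_inv_rev] at h

/-- (2) the product -/
private theorem odd_prod {ι : Type} {α : MulAut (FreeGroup ι)} {w : ι → List ι} {i₀ : ι}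
    (hsq : ∀ i, (α ^ 2) (FreeGroup.of i) = BG.pw (w i)) (k : ℕ) (v' : ι → List ι)
    (u s : List ι) (hk : Odd k) (hv' : ∀ i, (α ^ k) (FreeGroup.of i) = (BG.pw (v' i))⁻¹)
    (hu : v' i₀ = u ++ i₀ :: s) (l : ℕ) (u₁ s₁ : List ι) (h₁ : itw w l i₀ = u₁ ++ i₀ :: s₁) :
    ∃ (k' : ℕ) (v'' : ι → List ι) (u'' s'' : List ι), Odd k' ∧
      (∀ i, (α ^ k') (FreeGroup.of i) = (BG.pw (v'' i))⁻¹) ∧ v'' i₀ = u'' ++ i₀ :: s'' ∧
      ((tR α ^ 2) ^ l)⁻¹ * iR α (BG.pw u₁) * ((tR α ^ k)⁻¹ * (iR α (BG.pw (i₀ :: s)))⁻¹) =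
        (tR α ^ k')⁻¹ * (iR α (BG.pw (i₀ :: s'')))⁻¹ := by
  refine ⟨k + 2 * l, fun i => (itw w l i).reverse.flatMap v', s₁.reverse.flatMap v' ++ u,
    s ++ u₁.reverse.flatMap v', hk.add_even ⟨l, by ring⟩, ?_, ?_, ?_⟩
  · intro i
    have h := odd_pwl (α ^ 2) w hsq l [i]
    rw [List.flatMap_singleton, pw_cons, pw_nil, mul_one] at h
    rw [pow_add, MulAut.mul_apply, pow_mul, ← h]
    exact odd_pwneg (α ^ k).toMonoidHom v' hv' _
  · show (itw w l i₀).reverse.flatMap v' = _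
    rw [h₁, List.reverse_append, List.reverse_cons, List.flatMap_append, List.flatMap_append,
      List.flatMap_singleton, hu]
    simp [List.append_assoc]
  · have h1 : (α ^ k) (BG.pw u₁) = (BG.pw (u₁.reverse.flatMap v'))⁻¹ :=
      odd_pwneg (α ^ k).toMonoidHom v' hv' u₁
    have h2 : iR α (BG.pw u₁) * (tR α ^ k)⁻¹ =
        (tR α ^ k)⁻¹ * (iR α (BG.pw (u₁.reverse.flatMap v')))⁻¹ := by
      have h3 := tR_pow_conj α k (BG.pw u₁)
      rw [h1, map_inv] at h3
      rw [← h3]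
      group
    have h4 : BG.pw (i₀ :: (s ++ u₁.reverse.flatMap v')) =
        BG.pw (i₀ :: s) * BG.pw (u₁.reverse.flatMap v') := by
      rw [← pw_append]
      rfl
    rw [h4, map_mul, mul_inv_rev, mul_assoc, ← mul_assoc (iR α (BG.pw u₁)), h2, ← pow_mul,
      add_comm k, pow_add, mul_inv_rev]
    have h5 : (tR α ^ (2 * l))⁻¹ * (tR α ^ k)⁻¹ = (tR α ^ k)⁻¹ * (tR α ^ (2 * l))⁻¹ := by
      rw [← mul_inv_rev, ← mul_inv_rev, ← pow_add, ← pow_add, add_comm]
    rw [← h5]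
    simp only [mul_assoc]

section van

variable {G K : Type} [Group G] [Field K]

/-- the space of the matrix coefficients -/
private def odd_V (σ : G →* SL2 K) : Submodule K (G → K) :=
  Submodule.span K (Set.range (fun q : Fin 2 × Fin 2 => fun x => (σ x).val q.1 q.2))

private theorem odd_c_mem (σ : G →* SL2 K) (i j : Fin 2) :
    (fun x => (σ x).val i j) ∈ odd_V σ := Submodule.subset_span ⟨(i, j), rfl⟩

private theorem odd_V_inv (σ : G →* SL2 K) (g : G) (p : G → K) (hp : p ∈ odd_V σ) :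
    alf_R K g p ∈ odd_V σ := by
  have h : (odd_V σ).map (alf_R K g) ≤ odd_V σ := by
    unfold odd_V
    rw [Submodule.map_span_le]
    rintro _ ⟨⟨i, j⟩, rfl⟩
    have e : alf_R K g (fun x => (σ x).val i j) = ∑ a, (σ g).val a j •
        (fun x => (σ x).val i a) := by
      ext x
      have e1 : (σ (x * g)).val = (σ x).val * (σ g).val := by rw [map_mul]; rfl
      rw [alf_R_apply]
      simp only [e1, Matrix.mul_apply, Pi.add_apply, Pi.smul_apply, smul_eq_mul,
        Fin.sum_univ_two]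
      ring
    show alf_R K g (fun x => (σ x).val i j) ∈ _
    rw [e]
    exact Submodule.sum_mem _ fun a _ => Submodule.smul_mem _ _ (odd_c_mem σ i a)
  exact h ⟨p, hp, rfl⟩

/-- (3) the traces of the products with the elements of a semigroup which generates -/
private theorem odd_van (σ : G →* SL2 K) (S : Set G) (hS : Subgroup.closure S = ⊤)
    (hSm : ∀ x ∈ S, ∀ y ∈ S, x * y ∈ S) (C : Matrix (Fin 2) (Fin 2) K)
    (hne : ∃ x y : G, tr (σ (x * y * x⁻¹ * y⁻¹)) ≠ 2)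
    (h : ∀ x ∈ S, ((σ x).val * C).trace = 0) : C = 0 := by
  obtain ⟨x, y, hxy⟩ := hne
  have hSne : S.Nonempty := by
    by_contra hem
    rw [Set.not_nonempty_iff_eq_empty] at hem
    rw [hem, Subgroup.closure_empty] at hS
    have h1 : ∀ x : G, x = 1 := fun x => Subgroup.mem_bot.1 (by rw [hS]; exact Subgroup.mem_top x)
    apply hxy
    rw [h1 (x * y * x⁻¹ * y⁻¹), map_one, tr_eq]
    simp only [Matrix.SpecialLinearGroup.coe_one, Matrix.one_apply_eq]
    norm_num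
  haveI : FiniteDimensional K (odd_V σ) :=
    FiniteDimensional.span_of_finite K (Set.finite_range _)
  have hp : (fun x => ((σ x).val * C).trace) ∈ odd_V σ := by
    have e : (fun x => ((σ x).val * C).trace) =
        ∑ i, ∑ j, C j i • (fun x => (σ x).val i j) := by
      ext x
      rw [Matrix.trace_fin_two]
      simp only [Matrix.mul_apply, Pi.add_apply, Pi.smul_apply, smul_eq_mul, Fin.sum_univ_two]
      ring
    rw [e]
    exact Submodule.sum_mem _ fun i _ => Submodule.sum_mem _ fun j _ =>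
      Submodule.smul_mem _ _ (odd_c_mem σ i j)
  have hall : ∀ g : G, ((σ g).val * C).trace = 0 := fun g =>
    alf_van (odd_V σ) (odd_V_inv σ) S hS hSm hSne _ hp h g
  apply odd_nd (σ x).val (σ y).val
  · rw [odd_com, sub_ne_zero]
    intro h'
    apply hxy
    rw [map_mul, map_mul, map_mul, map_inv, map_inv]
    exact h'.symm
  · have h1 := hall 1
    rw [map_one] at h1
    simpa using h1
  · rw [Matrix.trace_mul_comm]
    exact hall x
  · rw [Matrix.trace_mul_comm]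
    exact hall y
  · have h1 := hall (x * y)
    rw [map_mul] at h1
    rw [mul_assoc, Matrix.trace_mul_comm]
    exact h1

end van

/-- PIECE CG odd -/
theorem p_odd (hi1 : BG.S_i1) (hi2 : BG.S_i2) (hgns : A_gns) (hsmg : A_smg) : A_odd := by
  intro ι _ α v w i₀ hN D hD hg a b hn ρ₀ hirr
  classical
  by_contra hno
  obtain ⟨k, v', u, s, hk, hv', hu, hc₀⟩ := odd_loop hi1 hi2 hN D hD hg
  have hsq : ∀ i, (α ^ 2) (FreeGroup.of i) = BG.pw (w i) := hN.pos.eq
  -- the group `D'`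
  obtain ⟨D', hD'⟩ : ∃ D' : Subgroup (GR (α ^ 2)), D' = D.comap (emb α 2) := ⟨_, rfl⟩
  have hD'f : D'.FiniteIndex := by
    constructor
    rw [hD', Subgroup.index_comap]
    have h1 : (D.subgroupOf (emb α 2).range).FiniteIndex := inferInstance
    exact h1.index_ne_zero
  have hD'm : ∀ x : GR (α ^ 2), x ∈ D' → emb α 2 x ∈ D := by
    intro x hx
    rw [hD'] at hx
    exact hx
  obtain ⟨e, he⟩ : ∃ e : D' →* D, ∀ x : D', (e x : GR α) = emb α 2 x :=
    ⟨{ toFun := fun x => ⟨emb α 2 x, hD'm x x.2⟩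
       map_one' := by
        apply Subtype.ext
        show emb α 2 ((1 : D') : GR (α ^ 2)) = 1
        rw [Subgroup.coe_one, map_one]
       map_mul' := by
        intro x y
        apply Subtype.ext
        show emb α 2 ((x * y : D') : GR (α ^ 2)) = emb α 2 x * emb α 2 y
        rw [Subgroup.coe_mul, map_mul] }, fun x => rfl⟩
  -- the field
  have hdom : IsDomain (Qf a b ℤ) := Qf_domain hn
  let e₀ : Qf a b ℤ →+* FractionRing (Qf a b ℤ) := algebraMap _ _
  have he₀ : Function.Injective e₀ := IsFractionRing.injective _ _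
  let σ : D' →* SL2 (FractionRing (Qf a b ℤ)) := ((SLm e₀).comp ρ₀).comp e
  -- an irreducible pair
  have hpair : ∃ x y : D', tr (σ (x * y * x⁻¹ * y⁻¹)) ≠ 2 := by
    obtain ⟨g, hg, h, hh, hgh⟩ := hirr ⊤ inferInstance
    have hsurj : ∀ x : D, x ∈ ⁅(⊤ : Subgroup D), (⊤ : Subgroup D)⁆ → ∃ x' : D', e x' = x := by
      intro x hx
      have hxn : nR α (x : GR α) = 1 := by
        have h1 : ⁅(⊤ : Subgroup D), (⊤ : Subgroup D)⁆ ≤ (nD D).ker := by
          rw [Subgroup.commutator_le]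
          intro a _ b _
          rw [MonoidHom.mem_ker, commutatorElement_def, map_mul, map_mul, map_mul, map_inv,
            map_inv, mul_right_comm, mul_inv_cancel_right, mul_inv_cancel]
        exact h1 hx
      obtain ⟨x', hx', -⟩ := one_emb_surj α 2 (x : GR α) 0 (by
        rw [hxn, toAdd_one, mul_zero])
      have hx'D : x' ∈ D' := by
        rw [hD', Subgroup.mem_comap, hx']
        exact x.2
      exact ⟨⟨x', hx'D⟩, Subtype.ext (by rw [he]; exact hx')⟩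
    obtain ⟨g', rfl⟩ := hsurj g hg
    obtain ⟨h', rfl⟩ := hsurj h hh
    refine ⟨g', h', fun h2 => hgh ?_⟩
    have h3 : tr (σ (g' * h' * g'⁻¹ * h'⁻¹)) =
        e₀ (tr (ρ₀ (e g' * e h' * (e g')⁻¹ * (e h')⁻¹))) := by
      show tr (SLm e₀ (ρ₀ (e (g' * h' * g'⁻¹ * h'⁻¹)))) = _
      rw [tr_map, map_mul e, map_mul e, map_mul e, map_inv e, map_inv e]
    rw [h3] at h2
    apply he₀
    rw [h2, map_ofNat]
  -- the loops
  let S' : Set D' := {c | ∃ k, 1 ≤ k ∧ ∃ u v : List ι, u ≠ [] ∧ itw w k i₀ = u ++ i₀ :: v ∧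
    (c : GR (α ^ 2)) = (tR (α ^ 2) ^ k)⁻¹ * iR (α ^ 2) (BG.pw u)}
  have hS' : Subgroup.closure S' = ⊤ := by
    obtain ⟨S, hS, hSl⟩ := hgns ι (α ^ 2) w i₀ hN.pos D' hD'f
    rw [eq_top_iff, ← hS]
    exact Subgroup.closure_mono fun c hc => hSl c hc
  have hSm : ∀ x ∈ S', ∀ y ∈ S', x * y ∈ S' := by
    intro x hx y hy
    have h := hsmg ι (α ^ 2) w i₀ hsq (x : GR (α ^ 2)) (y : GR (α ^ 2)) hx hy
    obtain ⟨k, hk, u, v, hu, huv, hc⟩ := h
    exact ⟨k, hk, u, v, hu, huv, by rw [Subgroup.coe_mul]; exact hc⟩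
  let c₀ : D := ⟨_, hc₀⟩
  have hC := odd_van σ S' hS' hSm (SLm e₀ (ρ₀ c₀)).val hpair (by
    rintro x ⟨l, hl, u₁, s₁, -, h₁, hx⟩
    obtain ⟨k', v'', u'', s'', hk', hv'', hu'', hprod⟩ :=
      odd_prod hsq k v' u s hk hv' hu l u₁ s₁ h₁
    have h1 : ((e x * c₀ : D) : GR α) = (tR α ^ k')⁻¹ * (iR α (BG.pw (i₀ :: s'')))⁻¹ := by
      rw [Subgroup.coe_mul, he, hx, map_mul (emb α 2), map_inv (emb α 2), map_pow (emb α 2), emb_tR,
        emb_iR, ← hprod]
    have h2 : tr (ρ₀ (e x * c₀)) = 0 := by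
      by_contra h3
      exact hno ⟨k', v'', u'', s'', e x * c₀, hk', hv'', hu'', h1, h3⟩
    have h4 : (σ x).val * (SLm e₀ (ρ₀ c₀)).val = (SLm e₀ (ρ₀ (e x * c₀))).val := by
      rw [map_mul ρ₀, map_mul]
      rfl
    rw [h4]
    show tr (SLm e₀ (ρ₀ (e x * c₀))) = 0
    rw [tr_map, h2, map_zero])
  have hdet : (SLm e₀ (ρ₀ c₀)).val.det = 1 := (SLm e₀ (ρ₀ c₀)).2
  rw [hC, Matrix.det_zero] at hdet
  exact zero_ne_one hdet

end Pool.Agent.F8.CG
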