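import Pool.Agent.Lib.MP_305fdd_al.F8.CG.StmA3
import Pool.Agent.Lib.MP_305fdd_al.F8.CG.P_one

/-!
# MP_305fdd_al, congruence subgroups, block A: piece `onem`
-/

set_option autoImplicit false

namespace Pool.Agent.F8.CG

open Pool.Agent.F8.BG Pool.Agent.Lib.MP_305fdd_al Pool.Agent.F8

/-! ### transport -/

theorem onem_transport {L L' K : Type} [Group L] [Group L'] [Field K] (e : L' ≃* L)
    (n : L →* Multiplicative ℤ) (N : ℕ) (M : ℤ) (ρ : L →* SL2 K) (c : L')
    (P : Polynomial K) (h : IsPz (n.comp e.toMonoidHom) N M (ρ.comp e.toMonoidHom) c P) :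
    IsPz n N M ρ (e c) P where
  mon := h.mon
  deg := h.deg
  tra := h.tra
  le := by
    intro τ m
    obtain ⟨E⟩ := one_zc_aux e n m ρ (jorG m τ)
    rw [E.finrank_eq]
    exact h.le τ m
  eq := by
    intro τ
    obtain ⟨E⟩ := one_zc_aux e n (P.rootMultiplicity (τ : K)) ρ
      (jorG (P.rootMultiplicity (τ : K)) τ)
    rw [E.finrank_eq]
    exact h.eq τ
  fd := by
    intro τ m
    obtain ⟨E⟩ := one_zc_aux e n m ρ (jorG m τ)
    have := h.fd τ m
    exact Module.Finite.equiv E.symm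
  ne := h.ne
  int := by
    intro hρ
    exact h.int fun x i j => hρ (e x) i j

/-! ### the finite set -/

theorem onem_fin {ι : Type} [Finite ι] {G : Type} (v' : ι → List ι) (F : List ι → G) (g₀ : G) :
    ({g₀} ∪ {x : G | ∃ (i : ι) (u u' : List ι), v' i = u ++ i :: u' ∧ x = F (i :: u')} :
      Set G).Finite := by
  apply (Set.finite_singleton g₀).union
  have h1 : (⋃ i : ι, F '' {l : List ι | l ∈ (v' i).tails}).Finite :=
    Set.finite_iUnion fun i => ((v' i).tails.finite_toSet).image F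
  apply h1.subset
  rintro x ⟨i, u, u', hv, rfl⟩
  refine Set.mem_iUnion.mpr ⟨i, i :: u', ?_, rfl⟩
  show i :: u' ∈ (v' i).tails
  rw [List.mem_tails, hv]
  exact List.suffix_append _ _

/-! ### the main result -/

theorem p_onem (hopm : A_opm) (hsepE : A_sepE) : A_onem := by
  intro ι _ α D hDfin k v' hk hv' i₁ u s hus c hc
  obtain ⟨E, hE⟩ : ∃ E : Set (GR α), E = {(tR α ^ k)⁻¹} ∪ {x : GR α | ∃ (i : ι) (u u' : List ι),
    v' i = u ++ i :: u' ∧ x = (fun l : List ι => (tR α ^ k)⁻¹ * (iR α (BG.pw l))⁻¹) (i :: u')} :=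
    ⟨_, rfl⟩
  have hEfin : E.Finite := by
    rw [hE]
    exact onem_fin v' (fun l : List ι => (tR α ^ k)⁻¹ * (iR α (BG.pw l))⁻¹) ((tR α ^ k)⁻¹)
  obtain ⟨F₂, hF₂D, hF₂n, hF₂nor, hF₂fin, hF₂P⟩ := hsepE ι α D hDfin E hEfin c
  have hk0 : (k : ℤ) ≠ 0 := by exact_mod_cast (by omega : k ≠ 0)
  have hnt : nR α (tR α ^ k) = Multiplicative.ofAdd (k : ℤ) := by
    rw [map_pow, nR_tR]
    apply Multiplicative.toAdd.injective
    simp
  have hnc : nR α (c : GR α) = Multiplicative.ofAdd (-(k : ℤ)) := by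
    rw [hc, map_mul, map_inv, map_inv, nR_iR, inv_one, mul_one, hnt]
    rfl
  -- the normal subgroup
  obtain ⟨N₂, hN₂⟩ : ∃ N₂ : Subgroup D, N₂ = F₂.subgroupOf D := ⟨_, rfl⟩
  have hN₂mem : ∀ x : D, x ∈ N₂ ↔ (x : GR α) ∈ F₂ := by
    intro x
    rw [hN₂]
    exact Subgroup.mem_subgroupOf
  have hN₂nor : N₂.Normal := by
    constructor
    intro x hx g
    rw [hN₂mem] at hx ⊢
    exact hF₂nor g g.2 x hx
  -- the subgroup `L`
  obtain ⟨L, hL⟩ : ∃ L : Subgroup D, L = N₂ ⊔ Subgroup.zpowers c := ⟨_, rfl⟩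
  have hLmem : ∀ x : D, x ∈ L ↔ ∃ f : D, (f : GR α) ∈ F₂ ∧ ∃ j : ℤ, f * c ^ j = x := by
    intro x
    rw [hL, Subgroup.mem_sup_of_normal_left]
    constructor
    · rintro ⟨f, hf, z, hz, rfl⟩
      obtain ⟨j, rfl⟩ := Subgroup.mem_zpowers_iff.mp hz
      exact ⟨f, (hN₂mem f).mp hf, j, rfl⟩
    · rintro ⟨f, hf, j, rfl⟩
      exact ⟨f, (hN₂mem f).mpr hf, c ^ j, Subgroup.zpow_mem_zpowers c j, rfl⟩
  have hcL : c ∈ L := (hLmem c).mpr ⟨1, F₂.one_mem, 1, by simp⟩
  have hfL : ∀ f : D, (f : GR α) ∈ F₂ → f ∈ L := fun f hf =>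
    (hLmem f).mpr ⟨f, hf, 0, by simp⟩
  have hnD : ∀ (f : D), (f : GR α) ∈ F₂ → ∀ j : ℤ,
      Multiplicative.toAdd (nD D (f * c ^ j)) = k * (-j) := by
    intro f hf j
    have h1 : nD D f = 1 := hF₂n f hf
    have h2 : nD D c = Multiplicative.ofAdd (-(k : ℤ)) := hnc
    rw [map_mul, map_zpow, h1, h2, one_mul]
    simp only [toAdd_zpow, toAdd_ofAdd, smul_eq_mul]
    ring
  have hdvd : ∀ x ∈ L, (k : ℤ) ∣ Multiplicative.toAdd (nD D x) := by
    intro x hx
    obtain ⟨f, hf, j, rfl⟩ := (hLmem x).mp hx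
    exact ⟨-j, hnD f hf j⟩
  obtain ⟨nL, hnL⟩ : ∃ nL : L →* Multiplicative ℤ, ∀ x : L,
      Multiplicative.toAdd (nL x) = Multiplicative.toAdd (nD D x) / k :=
    ⟨{ toFun := fun x => Multiplicative.ofAdd (Multiplicative.toAdd (nD D x) / k)
       map_one' := by
        rw [Subgroup.coe_one, map_one, toAdd_one, Int.zero_ediv]
        rfl
       map_mul' := by
        intro x y
        rw [Subgroup.coe_mul, map_mul, toAdd_mul,
          Int.add_ediv_of_dvd_left (hdvd x x.2)]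
        rfl }, fun x => rfl⟩
  have hnLk : ∀ x : L, Multiplicative.toAdd (nD D x) = k * Multiplicative.toAdd (nL x) := by
    intro x
    rw [hnL, Int.mul_ediv_cancel' (hdvd x x.2)]
  have hnLc : nL ⟨c, hcL⟩ = Multiplicative.ofAdd (-1) := by
    apply Multiplicative.toAdd.injective
    apply mul_left_cancel₀ hk0
    rw [← hnLk]
    have h2 : nD D c = Multiplicative.ofAdd (-(k : ℤ)) := hnc
    show Multiplicative.toAdd (nD D c) = _
    rw [h2]
    simp
  -- finite index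
  obtain ⟨Lh, hLh⟩ : ∃ Lh : Subgroup (GR α), Lh = L.map D.subtype := ⟨_, rfl⟩
  have hLhmem : ∀ x : GR α, x ∈ Lh ↔ ∃ h : x ∈ D, (⟨x, h⟩ : D) ∈ L := by
    intro x
    rw [hLh, Subgroup.mem_map]
    constructor
    · rintro ⟨y, hy, rfl⟩
      exact ⟨y.2, hy⟩
    · rintro ⟨h, hx⟩
      exact ⟨⟨x, h⟩, hx, rfl⟩
  have hLhfin : Lh.FiniteIndex := by
    refine one_fin α Lh ?_ k hk c ((hLhmem _).mpr ⟨c.2, hcL⟩) hnc
    have hle : F₂.comap (iR α) ≤ Lh.comap (iR α) := by
      intro f hf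
      rw [Subgroup.mem_comap] at hf ⊢
      exact (hLhmem _).mpr ⟨hF₂D hf, hfL ⟨_, hF₂D hf⟩ hf⟩
    exact Subgroup.finiteIndex_of_le hle
  have hLfin : L.FiniteIndex := by
    have h1 : L = Lh.subgroupOf D := by
      ext x
      rw [Subgroup.mem_subgroupOf, hLhmem]
      constructor
      · intro hx
        exact ⟨x.2, hx⟩
      · rintro ⟨_, hx⟩
        exact hx
    rw [h1]
    infer_instance
  -- the subgroup of `GR (α ^ k)`
  obtain ⟨L', hL'⟩ : ∃ L' : Subgroup (GR (α ^ k)), L' = Lh.comap (emb α k) := ⟨_, rfl⟩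
  have hL'fin : L'.FiniteIndex := by
    constructor
    rw [hL', Subgroup.index_comap]
    have h1 : (Lh.subgroupOf (emb α k).range).FiniteIndex := inferInstance
    exact h1.index_ne_zero
  have hL'mem : ∀ x : GR (α ^ k), x ∈ L' ↔ ∃ h : emb α k x ∈ D, (⟨emb α k x, h⟩ : D) ∈ L := by
    intro x
    rw [hL', Subgroup.mem_comap, hLhmem]
  obtain ⟨e, he⟩ : ∃ e : L' ≃* L, ∀ x : L', ((e x : D) : GR α) = emb α k x := by
    have hE : ∃ e0 : L' →* L, ∀ x : L', ((e0 x : D) : GR α) = emb α k x :=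
      ⟨{ toFun := fun x => ⟨⟨emb α k x, ((hL'mem x).mp x.2).1⟩, ((hL'mem x).mp x.2).2⟩
         map_one' := by
          apply Subtype.ext
          apply Subtype.ext
          show emb α k ((1 : L') : GR (α ^ k)) = 1
          rw [Subgroup.coe_one, map_one]
         map_mul' := by
          intro x y
          apply Subtype.ext
          apply Subtype.ext
          show emb α k ((x * y : L') : GR (α ^ k)) = emb α k x * emb α k y
          rw [Subgroup.coe_mul, map_mul] }, fun x => rfl⟩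
    obtain ⟨e0, he0⟩ := hE
    refine ⟨MulEquiv.ofBijective e0 ⟨?_, ?_⟩, fun x => he0 x⟩
    · intro x y hxy
      apply Subtype.ext
      apply one_emb_inj α k hk
      rw [← he0, ← he0, hxy]
    · intro y
      obtain ⟨g', hg', -⟩ := one_emb_surj α k ((y : D) : GR α) (Multiplicative.toAdd (nL y))
        (hnLk y)
      have hg'L : g' ∈ L' := by
        rw [hL'mem, hg']
        exact ⟨y.1.2, y.2⟩
      refine ⟨⟨g', hg'L⟩, ?_⟩
      apply Subtype.ext
      apply Subtype.ext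
      rw [he0]
      exact hg'
  have hne : nL.comp e.toMonoidHom = (nR (α ^ k)).comp L'.subtype := by
    ext x
    apply Multiplicative.toAdd.injective
    apply mul_left_cancel₀ hk0
    show (k : ℤ) * Multiplicative.toAdd (nL (e x)) =
      k * Multiplicative.toAdd (nR (α ^ k) (x : GR (α ^ k)))
    rw [← hnLk, ← one_nR_emb, ← he]
    rfl
  have hcemb : emb α k ((tR (α ^ k))⁻¹ * (iR (α ^ k) (BG.pw (i₁ :: s)))⁻¹) = c := by
    rw [map_mul, map_inv, map_inv, emb_tR, emb_iR, hc]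
  have hc' : (tR (α ^ k))⁻¹ * (iR (α ^ k) (BG.pw (i₁ :: s)))⁻¹ ∈ L' := by
    rw [hL'mem, hcemb]
    exact ⟨c.2, hcL⟩
  have hec : e ⟨_, hc'⟩ = ⟨c, hcL⟩ := by
    apply Subtype.ext
    apply Subtype.ext
    rw [he]
    exact hcemb
  -- conjugates of elements of `E` in `L` of level `-k` are profinitely conjugate to `c`
  have hkey : ∀ (z : GR α) (g : GR α), g ∈ E → nR α g = Multiplicative.ofAdd (-(k : ℤ)) →
      ∀ x ∈ L, (x : GR α) = z⁻¹ * g * z → PConj x c := by
    intro z g hgE hg x hxL hxe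
    have hxn : nR α (x : GR α) = Multiplicative.ofAdd (-(k : ℤ)) := by
      rw [hxe, map_mul, map_mul, map_inv, hg, mul_comm, mul_inv_cancel_left]
    obtain ⟨f, hf, j, hfj⟩ := (hLmem x).mp hxL
    have hj : j = 1 := by
      have h3 := hnD f hf j
      rw [hfj] at h3
      have h4 : nD D x = Multiplicative.ofAdd (-(k : ℤ)) := hxn
      rw [h4, toAdd_ofAdd] at h3
      have h5 : (k : ℤ) * (j - 1) = 0 := by linarith
      rcases mul_eq_zero.mp h5 with h6 | h6
      · exact absurd h6 hk0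
      · linarith
    rw [hj, zpow_one] at hfj
    have hxD : z⁻¹ * g * z ∈ D := by
      rw [← hxe]
      exact x.2
    have h7 := hF₂P z g hgE hxD (by
      rw [← hxe, ← hfj, Subgroup.coe_mul, mul_inv_cancel_right]
      exact hf)
    have h8 : (⟨_, hxD⟩ : D) = x := Subtype.ext hxe.symm
    rw [h8] at h7
    exact h7
  obtain ⟨N, M, hM, hP⟩ := hopm ι (α ^ k) v' hv' L' hL'fin i₁ u s hus hc'
  refine ⟨L, hcL, nL, N, M, hLfin, hM, ?_, ?_⟩
  swap
  · intro x
    apply Multiplicative.toAdd.injective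
    rw [toAdd_pow, nsmul_eq_mul]
    exact hnLk x
  intro K _ ρ hIr htr
  have hρc : ((ρ.comp L.subtype).comp e.toMonoidHom) ⟨_, hc'⟩ = ρ c := by
    show ρ ((e ⟨_, hc'⟩ : L) : D) = ρ c
    rw [hec]
  have htrk : ∀ (g' : GR (α ^ k)), emb α k g' ∈ E →
      nR α (emb α k g') = Multiplicative.ofAdd (-(k : ℤ)) →
      ∀ (y : GR (α ^ k)) (h : y⁻¹ * g' * y ∈ L'),
      tr (((ρ.comp L.subtype).comp e.toMonoidHom) ⟨_, h⟩) =
        tr (((ρ.comp L.subtype).comp e.toMonoidHom) ⟨_, hc'⟩) := by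
    intro g' hg'E hg'n y h
    rw [hρc]
    show tr (ρ ((e ⟨_, h⟩ : L) : D)) = tr (ρ c)
    apply htr
    apply hkey (emb α k y) (emb α k g') hg'E hg'n _ (e ⟨_, h⟩ : L).2
    rw [he]
    show emb α k (y⁻¹ * g' * y) = _
    rw [map_mul, map_mul, map_inv]
  obtain ⟨P, hPP⟩ := hP K ((ρ.comp L.subtype).comp e.toMonoidHom) (by
    -- no invariants
    intro v hv
    obtain ⟨g, hg, h, hh, hgh⟩ := hIr
    have hcomm : ∀ x ∈ ⁅L, L⁆, (ρ x).val.mulVec v = v := by
      intro x hx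
      have hxL : x ∈ L := (Subgroup.commutator_le_self L) hx
      have hxn : nR α (x : GR α) = 1 := by
        have h1 : ⁅L, L⁆ ≤ (nD D).ker := by
          rw [Subgroup.commutator_le]
          intro a _ b _
          rw [MonoidHom.mem_ker, commutatorElement_def, map_mul, map_mul, map_mul, map_inv,
            map_inv, mul_right_comm, mul_inv_cancel_right, mul_inv_cancel]
        exact h1 hx
      obtain ⟨f, hf⟩ := GR_ker α _ hxn
      have hfL' : iR (α ^ k) f ∈ L' := by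
        rw [hL'mem, emb_iR, ← hf]
        exact ⟨x.2, hxL⟩
      have h2 := hv ⟨_, hfL'⟩ (nR_iR _ f)
      have h3 : e ⟨_, hfL'⟩ = ⟨x, hxL⟩ := by
        apply Subtype.ext
        apply Subtype.ext
        rw [he]
        show emb α k (iR (α ^ k) f) = x
        rw [emb_iR, hf]
      have h4 : ((ρ.comp L.subtype).comp e.toMonoidHom) ⟨_, hfL'⟩ = ρ x := by
        show ρ ((e ⟨_, hfL'⟩ : L) : D) = ρ x
        rw [h3]
      have h5 : (((ρ.comp L.subtype).comp e.toMonoidHom) ⟨_, hfL'⟩).val.mulVec v = v := h2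
      rw [h4] at h5
      exact h5
    exact one_fix ρ g h v (hcomm g hg) (hcomm h hh) hgh) (by
    -- the traces, first kind
    intro y i u₀ u' huv' h
    have hg : emb α k ((tR (α ^ k))⁻¹ * (iR (α ^ k) (BG.pw (i :: u')))⁻¹) =
        (tR α ^ k)⁻¹ * (iR α (BG.pw (i :: u')))⁻¹ := by
      rw [map_mul, map_inv, map_inv, emb_tR, emb_iR]
    refine htrk ((tR (α ^ k))⁻¹ * (iR (α ^ k) (BG.pw (i :: u')))⁻¹) ?_ ?_ y h
    · rw [hg, hE]
      exact Or.inr ⟨i, u₀, u', huv', rfl⟩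
    · rw [hg, map_mul, map_inv, map_inv, nR_iR, inv_one, mul_one, hnt]
      rfl) (by
    -- the traces, second kind
    intro y h
    have hg : emb α k ((tR (α ^ k))⁻¹) = (tR α ^ k)⁻¹ := by
      rw [map_inv, emb_tR]
    refine htrk ((tR (α ^ k))⁻¹) ?_ ?_ y h
    · rw [hg, hE]
      exact Or.inl rfl
    · rw [hg, map_inv, hnt]
      rfl)
  refine ⟨P, ?_⟩
  rw [← hec]
  apply onem_transport e nL N M (ρ.comp L.subtype) ⟨_, hc'⟩ P
  rw [hne]
  exact hPP

end Pool.Agent.F8.CG
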