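import Pool.Agent.Lib.MP_305fdd_al.F8.CG.StmA

/-!
# MP_305fdd_al, congruence subgroups, block A: `Ub` is invertible, integrality
-/

set_option autoImplicit false

namespace Pool.Agent.F8.CG

open Pool.Agent.F8.BG Pool.Agent.Lib.MP_305fdd_al Pool.Agent.F8

noncomputable section

section

variable {K W : Type} [CommRing K] [AddCommGroup W] [Module K W]

/-- the automorphisms of a representation -/
def itg_aut {G : Type} [Group G] (ρ : G →* Module.End K W) : G →* MulAut (Multiplicative W) where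
  toFun g :=
    { toFun := fun u => Multiplicative.ofAdd (ρ g (Multiplicative.toAdd u))
      invFun := fun u => Multiplicative.ofAdd (ρ g⁻¹ (Multiplicative.toAdd u))
      left_inv := fun u => by
        show Multiplicative.ofAdd (ρ g⁻¹ (ρ g (Multiplicative.toAdd u))) = u
        rw [← Module.End.mul_apply, ← map_mul, inv_mul_cancel, map_one]; rfl
      right_inv := fun u => by
        show Multiplicative.ofAdd (ρ g (ρ g⁻¹ (Multiplicative.toAdd u))) = u
        rw [← Module.End.mul_apply, ← map_mul, mul_inv_cancel, map_one]; rfl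
      map_mul' := fun u u' => by
        show Multiplicative.ofAdd (ρ g (Multiplicative.toAdd u + Multiplicative.toAdd u')) = _
        rw [map_add]; rfl }
  map_one' := by
    ext u
    show ρ 1 (Multiplicative.toAdd u) = _
    rw [map_one]; rfl
  map_mul' g h := by
    ext u
    show ρ (g * h) (Multiplicative.toAdd u) = ρ g (ρ h (Multiplicative.toAdd u))
    rw [map_mul]; rfl

/-- the crossed homomorphism of a free group with given values -/
theorem itg_Z {ι : Type} (ρ : FreeGroup ι →* Module.End K W) (v : ι → W) :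
    ∃ Z : FreeGroup ι → W, (∀ f g, Z (f * g) = Z f + ρ f (Z g)) ∧
      ∀ i, Z (FreeGroup.of i) = v i := by
  let x : ι → Multiplicative W ⋊[itg_aut ρ] FreeGroup ι :=
    fun i => ⟨Multiplicative.ofAdd (v i), FreeGroup.of i⟩
  have hr : (SemidirectProduct.rightHom).comp (FreeGroup.lift x) = MonoidHom.id _ := by
    apply FreeGroup.ext_hom
    intro i
    show (FreeGroup.lift x (FreeGroup.of i)).right = _
    rw [FreeGroup.lift_apply_of]
    rfl
  have hr' : ∀ g, (FreeGroup.lift x g).right = g := fun g => DFunLike.congr_fun hr g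
  refine ⟨fun g => Multiplicative.toAdd (FreeGroup.lift x g).left, ?_, ?_⟩
  · intro a b
    show Multiplicative.toAdd (FreeGroup.lift x (a * b)).left = _
    rw [map_mul, SemidirectProduct.mul_left, hr']
    rfl
  · intro i
    show Multiplicative.toAdd (FreeGroup.lift x (FreeGroup.of i)).left = _
    rw [FreeGroup.lift_apply_of]
    rfl

theorem itg_one {ι : Type} (ρ : FreeGroup ι →* Module.End K W) (Z : FreeGroup ι → W)
    (hZ : ∀ f g, Z (f * g) = Z f + ρ f (Z g)) : Z 1 = 0 := by
  have h1 := hZ 1 1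
  rw [one_mul, map_one] at h1
  have h2 : Z 1 + Z 1 = Z 1 + 0 := by rw [add_zero]; exact h1.symm
  exact add_left_cancel h2

theorem itg_pw {ι : Type} (ρ : FreeGroup ι →* Module.End K W) (Z : FreeGroup ι → W)
    (hZ : ∀ f g, Z (f * g) = Z f + ρ f (Z g)) (l : List ι) :
    Z (BG.pw l) = ∑ p : Fin l.length, ρ (BG.pw (l.take p)) (Z (FreeGroup.of (l.get p))) := by
  induction l with
  | nil =>
    rw [show BG.pw ([] : List ι) = 1 from rfl, itg_one ρ Z hZ]
    rfl
  | cons i l ih =>
    rw [pw_cons, hZ, ih, map_sum]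
    have h0 : (∑ p : Fin (i :: l).length, ρ (BG.pw ((i :: l).take p))
        (Z (FreeGroup.of ((i :: l).get p)))) = ∑ p : Fin (l.length + 1),
          ρ (BG.pw ((i :: l).take p)) (Z (FreeGroup.of ((i :: l).get p))) := rfl
    rw [h0, Fin.sum_univ_succ]
    congr 1
    · simp
    · apply Finset.sum_congr rfl
      intro p _
      rw [← Module.End.mul_apply, ← map_mul]
      simp

theorem itg_mem {ι : Type} (ρ : FreeGroup ι →* Module.End K W) (Z : FreeGroup ι → W)
    (hZ : ∀ f g, Z (f * g) = Z f + ρ f (Z g)) (N : AddSubgroup W)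
    (hN : ∀ f, ∀ φ ∈ N, ρ f φ ∈ N) (hi : ∀ i, Z (FreeGroup.of i) ∈ N) (f : FreeGroup ι) :
    Z f ∈ N := by
  induction f using FreeGroup.induction_on with
  | C1 =>
    rw [itg_one ρ Z hZ]
    exact N.zero_mem
  | of i => exact hi i
  | inv_of i _ =>
    have h := hZ (FreeGroup.of i)⁻¹ (FreeGroup.of i)
    rw [inv_mul_cancel, itg_one ρ Z hZ] at h
    have h1 : Z (FreeGroup.of i)⁻¹ = - ρ (FreeGroup.of i)⁻¹ (Z (FreeGroup.of i)) :=
      eq_neg_of_add_eq_zero_left h.symm
    rw [h1]
    exact N.neg_mem (hN _ _ (hi i))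
  | mul f g hf hg =>
    rw [hZ]
    exact N.add_mem hf (hN _ _ hg)

end

/-- `Uop` is onto, on all stable lattices. -/
theorem itg_inv {ι : Type} (α : MulAut (FreeGroup ι)) (w : ι → List ι)
    (hw : ∀ i, α (FreeGroup.of i) = BG.pw (w i)) (L : Subgroup (GR α)) {K V : Type} [CommRing K]
    [AddCommGroup V] [Module K V] (σ : L →* Module.End K V)
    (N : AddSubgroup ((GR α ⧸ L) → V)) (hN : ∀ g, ∀ φ ∈ N, indA L σ g φ ∈ N)
    (v : ι → (GR α ⧸ L) → V) (hv : ∀ i, v i ∈ N) :
    ∃ u : ι → (GR α ⧸ L) → V, (∀ i, u i ∈ N) ∧ Uop α w L σ u = v := by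
  obtain ⟨Z, hZ, hZi⟩ := itg_Z ((indA L σ).comp (iR α)) v
  have hZN : ∀ f, Z f ∈ N := itg_mem _ Z hZ N (fun f φ hφ => hN _ φ hφ)
    (fun i => by rw [hZi]; exact hv i)
  let Z' : FreeGroup ι → (GR α ⧸ L) → V := fun f => indA L σ (tR α) (Z (α⁻¹ f))
  have hZ' : ∀ f g, Z' (f * g) = Z' f + ((indA L σ).comp (iR α)) f (Z' g) := by
    intro f g
    show indA L σ (tR α) (Z (α⁻¹ (f * g))) = indA L σ (tR α) (Z (α⁻¹ f)) +
      indA L σ (iR α f) (indA L σ (tR α) (Z (α⁻¹ g)))
    rw [map_mul, hZ, map_add]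
    congr 1
    show indA L σ (tR α) (indA L σ (iR α (α⁻¹ f)) (Z (α⁻¹ g))) = _
    rw [← Module.End.mul_apply, ← map_mul, ← Module.End.mul_apply, ← map_mul, tR_mul,
      MulAut.apply_inv_self]
  refine ⟨fun i => Z' (FreeGroup.of i), fun i => hN _ _ (hZN _), ?_⟩
  funext i
  have h1 := itg_pw _ Z' hZ' (w i)
  have h2 : Z' (BG.pw (w i)) = indA L σ (tR α) (v i) := by
    show indA L σ (tR α) (Z (α⁻¹ (BG.pw (w i)))) = _
    rw [← hw, MulAut.inv_apply_self, hZi]
  rw [h2] at h1
  have h3 : Uop α w L σ (fun i => Z' (FreeGroup.of i)) i =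
      indA L σ (tR α)⁻¹ (∑ p : Fin (w i).length, indA L σ (iR α (BG.pw ((w i).take p)))
        (Z' (FreeGroup.of ((w i).get p)))) := by
    unfold Uop
    rw [LinearMap.pi_apply, LinearMap.sum_apply, map_sum]
    apply Finset.sum_congr rfl
    intro p _
    rw [map_mul]
    rfl
  rw [h3]
  have h4 : (∑ p : Fin (w i).length, indA L σ (iR α (BG.pw ((w i).take p)))
        (Z' (FreeGroup.of ((w i).get p)))) = indA L σ (tR α) (v i) := h1.symm
  rw [h4, ← Module.End.mul_apply, ← map_mul, inv_mul_cancel, map_one]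
  rfl

/-- eigenvalues of quotients of integral operators -/
theorem itg_int {K V n : Type} [Field K] [AddCommGroup V] [Module K V] [Fintype n]
    [DecidableEq n] (b : Module.Basis n K V) (T : Module.End K V)
    (hT : ∀ i j, IsIntegral ℤ (b.repr (T (b j)) i)) (Q : Submodule K V)
    (Tb : Module.End K (V ⧸ Q)) (hTb : ∀ v, Tb (Q.mkQ v) = Q.mkQ (T v)) (τ : K)
    (hτ : Tb.HasEigenvalue τ) : IsIntegral ℤ τ := by
  let O := integralClosure ℤ K
  let M : Matrix n n K := LinearMap.toMatrix b b T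
  have hM : ∀ i j, IsIntegral ℤ (M i j) := by
    intro i j
    show IsIntegral ℤ (LinearMap.toMatrix b b T i j)
    rw [LinearMap.toMatrix_apply]
    exact hT i j
  let M' : Matrix n n O := fun i j => ⟨M i j, hM i j⟩
  have hMM : M'.map (algebraMap O K) = M := by
    ext i j
    rfl
  have hch : M.charpoly = M'.charpoly.map (algebraMap O K) := by
    rw [← hMM, Matrix.charpoly_map]
  have h0 : Polynomial.aeval T (M'.charpoly.map (algebraMap O K)) = 0 := by
    rw [← hch]
    show Polynomial.aeval T (LinearMap.toMatrix b b T).charpoly = 0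
    apply (LinearMap.toMatrixAlgEquiv b).injective
    rw [map_zero, ← Polynomial.aeval_algHom_apply]
    exact Matrix.aeval_self_charpoly _
  have h1 : ∀ (P : Polynomial K) (v : V), Polynomial.aeval Tb P (Q.mkQ v) =
      Q.mkQ (Polynomial.aeval T P v) := by
    intro P v
    induction P using Polynomial.induction_on' with
    | add p q hp hq =>
      rw [map_add, map_add, LinearMap.add_apply, LinearMap.add_apply, map_add, hp, hq]
    | monomial k a =>
      rw [Polynomial.aeval_monomial, Polynomial.aeval_monomial, Module.End.mul_apply,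
        Module.End.mul_apply, Module.algebraMap_end_apply, Module.algebraMap_end_apply, map_smul]
      congr 1
      induction k with
      | zero => rfl
      | succ k ih =>
        rw [pow_succ', pow_succ', Module.End.mul_apply, Module.End.mul_apply, ih, hTb]
  have h2 : Polynomial.aeval Tb (M'.charpoly.map (algebraMap O K)) = 0 := by
    ext v
    show Polynomial.aeval Tb (M'.charpoly.map (algebraMap O K)) (Q.mkQ v) = 0
    rw [h1, h0, LinearMap.zero_apply, map_zero]
  obtain ⟨u, hu⟩ := hτ.exists_hasEigenvector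
  have h3 := Module.End.aeval_apply_of_hasEigenvector (p := M'.charpoly.map (algebraMap O K)) hu
  rw [h2, LinearMap.zero_apply] at h3
  have h4 : (M'.charpoly.map (algebraMap O K)).eval τ = 0 := by
    rcases smul_eq_zero.1 h3.symm with h | h
    · exact h
    · exact absurd h hu.2
  have h5 : IsIntegral O τ := by
    refine ⟨M'.charpoly, Matrix.charpoly_monic _, ?_⟩
    rw [← Polynomial.eval_map]
    exact h4
  exact isIntegral_trans τ h5

/-- [CG itg] `Ub` is invertible, integrality. -/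
theorem p_itg : A_itg := by
  classical
  intro ι _ α w hw L hL K _ ρ Ub hUb
  cases nonempty_fintype ι
  have hfq : Finite (GR α ⧸ L) := inferInstance
  cases nonempty_fintype (GR α ⧸ L)
  have hsurj : Function.Surjective (Uop α w L (s2E ρ)) := by
    intro v
    obtain ⟨u, _, hu⟩ := itg_inv α w hw L (s2E ρ) ⊤ (fun _ _ _ => AddSubgroup.mem_top _) v
      (fun _ => AddSubgroup.mem_top _)
    exact ⟨u, hu⟩
  have hinj : Function.Injective (Uop α w L (s2E ρ)) :=
    LinearMap.injective_iff_surjective.2 hsurj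
  have hbs : Function.Surjective Ub := by
    intro y
    obtain ⟨v, rfl⟩ := Submodule.mkQ_surjective _ y
    obtain ⟨u, rfl⟩ := hsurj v
    exact ⟨_, hUb u⟩
  have hbi : Function.Injective Ub := LinearMap.injective_iff_surjective.2 hbs
  have hne : ∀ τ, Ub.HasEigenvalue τ → τ ≠ 0 := by
    rintro τ hτ rfl
    obtain ⟨u, hu⟩ := hτ.exists_hasEigenvector
    have h1 := hu.apply_eq_smul
    rw [zero_smul] at h1
    exact hu.2 (hbi (by rw [h1, map_zero]))
  refine ⟨fun h => hne 0 h rfl, ?_⟩
  intro hρ τ hτ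
  let b : Module.Basis (Σ _ : ι, Σ _ : GR α ⧸ L, Fin 2) K (ι → (GR α ⧸ L) → Fin 2 → K) :=
    Pi.basis fun _ => Pi.basis fun _ => Pi.basisFun K (Fin 2)
  have hb : ∀ v i x c, b.repr v ⟨i, x, c⟩ = v i x c := by
    intro v i x c
    show (Pi.basis fun _ => Pi.basis fun _ => Pi.basisFun K (Fin 2)).repr v ⟨i, x, c⟩ = _
    rw [Pi.basis_repr, Pi.basis_repr, Pi.basisFun_repr]
  -- integral functions
  let N : AddSubgroup ((GR α ⧸ L) → Fin 2 → K) :=
    { carrier := {φ | ∀ x c, IsIntegral ℤ (φ x c)}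
      add_mem' := fun h h' x c => (h x c).add (h' x c)
      zero_mem' := fun x c => isIntegral_zero
      neg_mem' := fun h x c => (h x c).neg }
  have hN : ∀ g, ∀ φ ∈ N, indA L (s2E ρ) g φ ∈ N := by
    intro g φ hφ x c
    rw [indA_apply]
    show IsIntegral ℤ (Matrix.toLin' (ρ ⟨_, sec_mem L g x⟩).val (φ (g⁻¹ • x)) c)
    rw [Matrix.toLin'_apply, Matrix.mulVec, dotProduct]
    exact IsIntegral.sum _ fun j _ => (hρ _ _ _).mul (hφ _ _)
  have hbN : ∀ j i, b j i ∈ N := by
    intro j i x c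
    have h1 : b j i x c = b.repr (b j) ⟨i, x, c⟩ := (hb _ _ _ _).symm
    rw [h1, Module.Basis.repr_self, Finsupp.single_apply]
    split_ifs
    · exact isIntegral_one
    · exact isIntegral_zero
  have hUN : ∀ v : ι → (GR α ⧸ L) → Fin 2 → K, (∀ i, v i ∈ N) →
      ∀ i, Uop α w L (s2E ρ) v i ∈ N := by
    intro v hv i
    unfold Uop
    rw [LinearMap.pi_apply, LinearMap.sum_apply]
    exact AddSubgroup.sum_mem _ fun p _ => hN _ _ (hv _)
  constructor
  · refine itg_int b (Uop α w L (s2E ρ)) ?_ _ Ub hUb τ hτ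
    rintro ⟨i, x, c⟩ j
    rw [hb]
    exact hUN _ (hbN j) i x c
  · -- the inverse
    let E := LinearEquiv.ofBijective (Uop α w L (s2E ρ)) ⟨hinj, hsurj⟩
    let Eb := LinearEquiv.ofBijective Ub ⟨hbi, hbs⟩
    have hE : ∀ v, Uop α w L (s2E ρ) (E.symm v) = v := fun v => E.apply_symm_apply v
    have hEb : ∀ y, Ub (Eb.symm y) = y := fun y => Eb.apply_symm_apply y
    refine itg_int b (E.symm : Module.End K (ι → (GR α ⧸ L) → Fin 2 → K)) ?_
      (LinearMap.range (dlt α L (s2E ρ))) Eb.symm.toLinearMap ?_ τ⁻¹ ?_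
    · rintro ⟨i, x, c⟩ j
      rw [hb]
      obtain ⟨u, huN, hu⟩ := itg_inv α w hw L (s2E ρ) N hN (b j) (hbN j)
      have h1 : (E.symm : Module.End K (ι → (GR α ⧸ L) → Fin 2 → K)) (b j) = u := by
        apply hinj
        rw [hu]
        exact hE _
      rw [h1]
      exact huN i x c
    · intro v
      apply hbi
      show Ub (Eb.symm (Submodule.mkQ _ v)) = Ub (Submodule.mkQ _ (E.symm v))
      rw [hEb, hUb, hE]
    · obtain ⟨u, hu⟩ := hτ.exists_hasEigenvector
      have h1 := hu.apply_eq_smul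
      have h2 : Eb.symm.toLinearMap u = τ⁻¹ • u := by
        apply hbi
        show Ub (Eb.symm u) = Ub (τ⁻¹ • u)
        rw [hEb, map_smul, h1, smul_smul, inv_mul_cancel₀ (hne τ hτ), one_smul]
      exact Module.End.hasEigenvalue_of_hasEigenvector
        ⟨Module.End.mem_eigenspace_iff.2 h2, hu.2⟩

end

end Pool.Agent.F8.CG
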