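import Pool.Agent.Lib.MP_305fdd_al.F8.CG.StmA

/-!
# MP_305fdd_al, congruence subgroups: crossed homomorphisms and the first cohomology (CG z1)
-/

set_option autoImplicit false

namespace Pool.Agent.F8.CG

open Pool.Agent.F8.BG Pool.Agent.Lib.MP_305fdd_al Pool.Agent.F8

noncomputable section

section Gen

variable {G : Type} [Group G] (L : Subgroup G) {K V : Type} [CommRing K] [AddCommGroup V]
  [Module K V] (σ : L →* Module.End K V)

/-- the base point -/
abbrev z1_o : G ⧸ L := ((1 : G) : G ⧸ L)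

theorem z1_inv_o (l : L) : ((l : G)⁻¹) • z1_o L = z1_o L := by
  show (((l : G)⁻¹ * 1 : G) : G ⧸ L) = ((1 : G) : G ⧸ L)
  rw [QuotientGroup.eq]
  simp

theorem z1_sec_inv (x : G ⧸ L) : (sec L x)⁻¹ • x = z1_o L := by
  have h1 : (sec L x)⁻¹ • ((sec L x : G) : G ⧸ L) = z1_o L := by
    show (((sec L x)⁻¹ * sec L x : G) : G ⧸ L) = _
    rw [inv_mul_cancel]
  rw [sec_mk] at h1
  exact h1

theorem z1_mul (g h : G) (φ : (G ⧸ L) → V) :
    indA L σ (g * h) φ = indA L σ g (indA L σ h φ) := by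
  rw [map_mul]
  rfl

theorem z1_sub_o (l : L) : (⟨_, sec_mem L (l : G) (z1_o L)⟩ : L) = l := by
  apply Subtype.ext
  show (sec L (z1_o L))⁻¹ * l * sec L ((l : G)⁻¹ • z1_o L) = l
  rw [z1_inv_o, sec_one]
  simp

theorem z1_at_o (l : L) (φ : (G ⧸ L) → V) :
    indA L σ (l : G) φ (z1_o L) = σ l (φ (z1_o L)) := by
  rw [indA_apply, z1_sub_o, z1_inv_o]

/-- the crossed homomorphism of `G` -/
def z1_Z (ζ : L → V) (g : G) : (G ⧸ L) → V := fun x => ζ ⟨_, sec_mem L g x⟩

theorem z1_Z_o (ζ : L → V) (l : L) : z1_Z L ζ (l : G) (z1_o L) = ζ l := by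
  unfold z1_Z
  rw [z1_sub_o]

theorem z1_Z_mul (ζ : L → V) (hζ : ∀ x y, ζ (x * y) = ζ x + σ x (ζ y)) (g h : G) :
    z1_Z L ζ (g * h) = z1_Z L ζ g + indA L σ g (z1_Z L ζ h) := by
  funext x
  rw [Pi.add_apply, indA_apply]
  show ζ ⟨_, sec_mem L (g * h) x⟩ = ζ ⟨_, sec_mem L g x⟩ +
    σ ⟨_, sec_mem L g x⟩ (ζ ⟨_, sec_mem L h (g⁻¹ • x)⟩)
  rw [← hζ]
  congr 1
  have h1 : (g * h)⁻¹ • x = h⁻¹ • g⁻¹ • x := by rw [mul_inv_rev, mul_smul]
  apply Subtype.ext
  simp only [Subgroup.coe_mul, h1]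
  group

/-- Shapiro's lemma -/
theorem z1_shap (Y : G → (G ⧸ L) → V) (hY : ∀ g h, Y (g * h) = Y g + indA L σ g (Y h))
    (h0 : ∀ l : L, Y (l : G) (z1_o L) = 0) : ∃ φ, ∀ g, Y g = φ - indA L σ g φ := by
  refine ⟨fun x => Y (sec L x) x, ?_⟩
  intro g
  funext x
  rw [Pi.sub_apply, indA_apply]
  set y := g⁻¹ • x with hy
  have h1 : g * sec L y = sec L x * ((sec L x)⁻¹ * g * sec L y) := by group
  have h2 := hY g (sec L y)
  have h3 := hY (sec L x) ((sec L x)⁻¹ * g * sec L y)
  rw [← h1, h2] at h3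
  have h4 := congrFun h3 x
  rw [Pi.add_apply, Pi.add_apply, indA_apply, indA_apply] at h4
  have h5 : Y ((sec L x)⁻¹ * g * sec L y) ((sec L x)⁻¹ • x) = 0 := by
    rw [z1_sec_inv]
    exact h0 ⟨_, sec_mem L g x⟩
  rw [h5, map_zero, add_zero] at h4
  exact eq_sub_of_add_eq h4

end Gen

section Free

variable {ι : Type} {K W : Type} [CommRing K] [AddCommGroup W] [Module K W]

theorem z1_take (l : List ι) (p : Fin l.length) :
    BG.pw (l.take (p + 1)) = BG.pw (l.take p) * FreeGroup.of (l.get p) := by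
  have h : l.take (p + 1) = l.take p ++ [l.get p] := by
    rw [List.get_eq_getElem]
    exact (List.take_append_getElem p.2).symm
  rw [h, BG.pw_append, BG.pw_cons, BG.pw_nil, mul_one]

theorem z1_sum (A : FreeGroup ι →* Module.End K W) (z : FreeGroup ι → W)
    (hz : ∀ f h, z (f * h) = z f + A f (z h)) (l : List ι) :
    z (BG.pw l) = ∑ p : Fin l.length, A (BG.pw (l.take p)) (z (FreeGroup.of (l.get p))) := by
  have h1 : z 1 = 0 := by
    have h := hz 1 1
    rw [mul_one, map_one, Module.End.one_apply] at h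
    exact left_eq_add.1 h
  let g : ℕ → W := fun p => z (BG.pw (l.take p))
  have h2 : ∀ p : Fin l.length,
      A (BG.pw (l.take p)) (z (FreeGroup.of (l.get p))) = g (p + 1) - g p := by
    intro p
    show _ = z (BG.pw (l.take (p + 1))) - z (BG.pw (l.take p))
    rw [z1_take, hz]
    abel
  rw [Finset.sum_congr rfl fun p _ => h2 p,
    Fin.sum_univ_eq_sum_range (fun p => g (p + 1) - g p) l.length, Finset.sum_range_sub]
  show z (BG.pw l) = z (BG.pw (l.take l.length)) - z (BG.pw (l.take 0))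
  rw [List.take_length, List.take_zero, BG.pw_nil, h1, sub_zero]

end Free

section GRsec

variable {ι : Type} (α : MulAut (FreeGroup ι)) (w : ι → List ι)
  (hw : ∀ i, α (FreeGroup.of i) = BG.pw (w i)) (L : Subgroup (GR α)) {K V : Type} [CommRing K]
  [AddCommGroup V] [Module K V] (σ : L →* Module.End K V)

include hw in
theorem z1_Uop (z : FreeGroup ι → (GR α ⧸ L) → V)
    (hz : ∀ f h, z (f * h) = z f + indA L σ (iR α f) (z h)) (i : ι) :
    Uop α w L σ (fun j => z (FreeGroup.of j)) i =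
      indA L σ (tR α)⁻¹ (z (α (FreeGroup.of i))) := by
  have h1 : Uop α w L σ (fun j => z (FreeGroup.of j)) i = ∑ p : Fin (w i).length,
      indA L σ ((tR α)⁻¹ * iR α (BG.pw ((w i).take p))) (z (FreeGroup.of ((w i).get p))) := by
    unfold Uop
    rw [LinearMap.pi_apply, LinearMap.sum_apply]
    rfl
  rw [h1, hw, z1_sum ((indA L σ).comp (iR α)) z hz (w i), map_sum]
  refine Finset.sum_congr rfl fun p _ => ?_
  rw [z1_mul]
  rfl

include hw in
theorem z1_dlt (Z : GR α → (GR α ⧸ L) → V) (hZ : ∀ g h, Z (g * h) = Z g + indA L σ g (Z h)) :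
    Uop α w L σ (fun i => Z (iR α (FreeGroup.of i))) - (fun i => Z (iR α (FreeGroup.of i))) =
      dlt α L σ (indA L σ (tR α)⁻¹ (Z (tR α))) := by
  funext i
  rw [Pi.sub_apply, z1_Uop α w hw L σ (fun f => Z (iR α f)) (fun f h => by rw [map_mul, hZ]) i]
  show indA L σ (tR α)⁻¹ (Z (iR α (α (FreeGroup.of i)))) - Z (iR α (FreeGroup.of i)) =
    indA L σ (tR α)⁻¹ (Z (tR α)) -
      indA L σ (iR α (FreeGroup.of i)) (indA L σ (tR α)⁻¹ (Z (tR α)))
  have h1 := congrArg Z (tR_mul α (FreeGroup.of i))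
  rw [hZ, hZ] at h1
  have h2 : Z (iR α (α (FreeGroup.of i))) = Z (tR α) + indA L σ (tR α) (Z (iR α (FreeGroup.of i)))
      - indA L σ (iR α (α (FreeGroup.of i))) (Z (tR α)) := by
    rw [h1]
    abel
  rw [h2, map_sub, map_add, ← z1_mul, ← z1_mul, ← z1_mul, ← tR_conj, inv_mul_cancel, map_one,
    Module.End.one_apply]
  have h3 : (tR α)⁻¹ * (tR α * iR α (FreeGroup.of i) * (tR α)⁻¹) =
    iR α (FreeGroup.of i) * (tR α)⁻¹ := by group
  rw [h3]
  abel

/-- affine transformations -/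
def z1_aff {W : Type} [AddCommGroup W] [Module K W] {Γ : Type} [Group Γ]
    (A : Γ →* Module.End K W) (g : Γ) (v : W) : Equiv.Perm W where
  toFun φ := v + A g φ
  invFun φ := A g⁻¹ (φ - v)
  left_inv φ := by
    show A g⁻¹ (v + A g φ - v) = φ
    rw [add_sub_cancel_left, ← Module.End.mul_apply, ← map_mul, inv_mul_cancel, map_one,
      Module.End.one_apply]
  right_inv φ := by
    show v + A g (A g⁻¹ (φ - v)) = φ
    rw [← Module.End.mul_apply, ← map_mul, mul_inv_cancel, map_one, Module.End.one_apply]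
    abel

theorem z1_lift {W : Type} [AddCommGroup W] [Module K W] (A : FreeGroup ι →* Module.End K W)
    (v : ι → W) (f : FreeGroup ι) (φ : W) :
    FreeGroup.lift (fun i => z1_aff A (FreeGroup.of i) (v i)) f φ =
      FreeGroup.lift (fun i => z1_aff A (FreeGroup.of i) (v i)) f 0 + A f φ := by
  induction f using FreeGroup.induction_on generalizing φ with
  | C1 => simp
  | of i =>
    rw [FreeGroup.lift_apply_of]
    show v i + A (FreeGroup.of i) φ = v i + A (FreeGroup.of i) 0 + A (FreeGroup.of i) φ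
    rw [map_zero, add_zero]
  | inv_of i h =>
    rw [map_inv, FreeGroup.lift_apply_of]
    show A (FreeGroup.of i)⁻¹ (φ - v i) = A (FreeGroup.of i)⁻¹ (0 - v i) + A (FreeGroup.of i)⁻¹ φ
    rw [← map_add]
    congr 1
    abel
  | mul x y hx hy =>
    rw [map_mul, Equiv.Perm.mul_apply, Equiv.Perm.mul_apply, hy, hx,
      hx (FreeGroup.lift (fun i => z1_aff A (FreeGroup.of i) (v i)) y 0), map_mul,
      Module.End.mul_apply, map_add]
    abel

include hw in
theorem z1_ext (v : ι → (GR α ⧸ L) → V) (φ : (GR α ⧸ L) → V)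
    (h : Uop α w L σ v - v = dlt α L σ φ) : ∃ Z : GR α → (GR α ⧸ L) → V,
    (∀ g h, Z (g * h) = Z g + indA L σ g (Z h)) ∧ ∀ i, Z (iR α (FreeGroup.of i)) = v i := by
  set A := (indA L σ).comp (iR α) with hA
  let x : ι → Equiv.Perm ((GR α ⧸ L) → V) := fun i => z1_aff A (FreeGroup.of i) (v i)
  let s : Equiv.Perm ((GR α ⧸ L) → V) :=
    z1_aff (indA L σ) (tR α) (indA L σ (tR α) φ)
  let z : FreeGroup ι → (GR α ⧸ L) → V := fun f => FreeGroup.lift x f 0
  have hx : ∀ f ψ, FreeGroup.lift x f ψ = z f + A f ψ := fun f ψ => z1_lift A v f ψ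
  have hz : ∀ f h, z (f * h) = z f + indA L σ (iR α f) (z h) := by
    intro f h
    show FreeGroup.lift x (f * h) 0 = _
    rw [map_mul, Equiv.Perm.mul_apply, hx f]
    rfl
  have hzv : (fun j => z (FreeGroup.of j)) = v := by
    funext j
    show FreeGroup.lift x (FreeGroup.of j) 0 = v j
    rw [FreeGroup.lift_apply_of]
    show v j + A (FreeGroup.of j) 0 = v j
    rw [map_zero, add_zero]
  have hU : ∀ i, Uop α w L σ v i = indA L σ (tR α)⁻¹ (z (α (FreeGroup.of i))) := by
    intro i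
    rw [← z1_Uop α w hw L σ z hz i, hzv]
  have hrel : ∀ i, s * x i * s⁻¹ = FreeGroup.lift x (α (FreeGroup.of i)) := by
    intro i
    rw [mul_inv_eq_iff_eq_mul]
    apply Equiv.ext
    intro ψ
    rw [Equiv.Perm.mul_apply, Equiv.Perm.mul_apply, hx]
    show indA L σ (tR α) φ + indA L σ (tR α) (v i + indA L σ (iR α (FreeGroup.of i)) ψ) =
      z (α (FreeGroup.of i)) + indA L σ (iR α (α (FreeGroup.of i)))
        (indA L σ (tR α) φ + indA L σ (tR α) ψ)
    have h1 := congrFun h i
    rw [Pi.sub_apply, hU] at h1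
    have h2 : indA L σ (tR α)⁻¹ (z (α (FreeGroup.of i))) - v i =
      φ - indA L σ (iR α (FreeGroup.of i)) φ := h1
    have h3 : z (α (FreeGroup.of i)) = indA L σ (tR α)
        (v i + φ - indA L σ (iR α (FreeGroup.of i)) φ) := by
      rw [add_sub_assoc, ← h2, add_sub_cancel, ← z1_mul, mul_inv_cancel, map_one,
        Module.End.one_apply]
    rw [h3, ← tR_conj]
    simp only [map_add, map_sub, ← z1_mul]
    have h4 : tR α * iR α (FreeGroup.of i) * (tR α)⁻¹ * tR α = tR α * iR α (FreeGroup.of i) := by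
      group
    rw [h4]
    abel
  let Q := liR x s hrel
  have hQ : ∀ g ψ, Q g ψ = Q g 0 + indA L σ g ψ := by
    let S : Subgroup (GR α) :=
      { carrier := {g | ∀ ψ, Q g ψ = Q g 0 + indA L σ g ψ}
        one_mem' := by
          intro ψ
          rw [map_one, map_one]
          simp
        mul_mem' := by
          intro a b ha hb ψ
          rw [map_mul, Equiv.Perm.mul_apply, Equiv.Perm.mul_apply, hb, ha, ha (Q b 0), z1_mul,
            map_add]
          abel
        inv_mem' := by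
          intro a ha ψ
          rw [map_inv]
          apply (Q a).injective
          rw [← Equiv.Perm.mul_apply, mul_inv_cancel, ha, map_add, ← z1_mul, mul_inv_cancel,
            map_one, ← add_assoc, ← ha, ← Equiv.Perm.mul_apply, mul_inv_cancel]
          simp }
    have hS : ∀ g : GR α, g ∈ S := by
      have hf : ∀ f : FreeGroup ι, iR α f ∈ S := by
        intro f ψ
        have h5 : Q (iR α f) = FreeGroup.lift x f := liR_iR hrel f
        rw [h5, hx f ψ]
        rfl
      have ht : tR α ∈ S := by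
        intro ψ
        have h5 : Q (tR α) = s := liR_tR hrel
        rw [h5]
        show indA L σ (tR α) φ + indA L σ (tR α) ψ =
          indA L σ (tR α) φ + indA L σ (tR α) 0 + indA L σ (tR α) ψ
        rw [map_zero, add_zero]
      intro g
      obtain ⟨f, n, rfl⟩ := GR_cases α g
      exact S.mul_mem (hf f) (S.zpow_mem ht n)
    exact fun g => hS g
  refine ⟨fun g => Q g 0, ?_, ?_⟩
  · intro g g'
    show Q (g * g') 0 = Q g 0 + indA L σ g (Q g' 0)
    rw [map_mul, Equiv.Perm.mul_apply, hQ g]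
  · intro i
    have h5 : Q (iR α (FreeGroup.of i)) = x i := liR_of hrel i
    show Q (iR α (FreeGroup.of i)) 0 = v i
    rw [h5]
    show v i + A (FreeGroup.of i) 0 = v i
    rw [map_zero, add_zero]

theorem z1_inj (hL : ∃ g ∈ L, nR α g = Multiplicative.ofAdd 1)
    (hV : ∀ v : V, (∀ x : L, nR α x = 1 → σ x v = v) → v = 0) :
    Function.Injective (dlt α L σ) := by
  rw [← LinearMap.ker_eq_bot, LinearMap.ker_eq_bot']
  intro φ hφ
  have h1 : ∀ i, indA L σ (iR α (FreeGroup.of i)) φ = φ := by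
    intro i
    have h2 : φ - indA L σ (iR α (FreeGroup.of i)) φ = 0 := congrFun hφ i
    exact (sub_eq_zero.1 h2).symm
  have h2 : ∀ f, indA L σ (iR α f) φ = φ := by
    let S : Subgroup (FreeGroup ι) :=
      { carrier := {f | indA L σ (iR α f) φ = φ}
        one_mem' := by
          show indA L σ (iR α 1) φ = φ
          rw [map_one, map_one]
          rfl
        mul_mem' := by
          intro a b ha hb
          show indA L σ (iR α (a * b)) φ = φ
          have ha' : indA L σ (iR α a) φ = φ := ha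
          have hb' : indA L σ (iR α b) φ = φ := hb
          rw [map_mul, z1_mul, hb', ha']
        inv_mem' := by
          intro a ha
          show indA L σ (iR α a⁻¹) φ = φ
          have ha' : indA L σ (iR α a) φ = φ := ha
          nth_rewrite 1 [← ha']
          rw [← z1_mul, ← map_mul, inv_mul_cancel, map_one, map_one]
          rfl }
    intro f
    show f ∈ S
    induction f using FreeGroup.induction_on with
    | C1 => exact S.one_mem
    | of i => exact h1 i
    | inv_of i h => exact S.inv_mem h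
    | mul x y hx hy => exact S.mul_mem hx hy
  have h3 : φ (z1_o L) = 0 := by
    apply hV
    intro x hx
    obtain ⟨f, hf⟩ := GR_ker α x hx
    have h4 := congrFun (h2 f) (z1_o L)
    rw [← hf, z1_at_o] at h4
    exact h4
  funext x
  obtain ⟨y, rfl⟩ := QuotientGroup.mk_surjective x
  obtain ⟨g, hg, hg1⟩ := hL
  have h5 : nR α (y * (g ^ (Multiplicative.toAdd (nR α y)))⁻¹) = 1 := by
    rw [map_mul, map_inv, map_zpow, hg1, ← ofAdd_zsmul]
    simp
  obtain ⟨f, hf⟩ := GR_ker α _ h5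
  have h6 : (iR α f)⁻¹ • ((y : GR α) : GR α ⧸ L) = z1_o L := by
    show (((iR α f)⁻¹ * y : GR α) : GR α ⧸ L) = ((1 : GR α) : GR α ⧸ L)
    rw [QuotientGroup.eq, ← hf]
    have h7 : ((y * (g ^ (Multiplicative.toAdd (nR α y)))⁻¹)⁻¹ * y)⁻¹ * 1 =
      (g ^ (Multiplicative.toAdd (nR α y)))⁻¹ := by group
    rw [h7]
    exact L.inv_mem (L.zpow_mem hg _)
  have h7 := congrFun (h2 f) ((y : GR α) : GR α ⧸ L)
  have h8 : φ ((iR α f)⁻¹ • ((y : GR α) : GR α ⧸ L)) = 0 := by rw [h6, h3]
  rw [indA_apply, h8, map_zero] at h7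
  exact h7.symm

include hw in
theorem z1_zero (hinj : Function.Injective (dlt α L σ)) (Y : GR α → (GR α ⧸ L) → V)
    (hY : ∀ g h, Y (g * h) = Y g + indA L σ g (Y h))
    (h0 : ∀ i, Y (iR α (FreeGroup.of i)) = 0) (g : GR α) : Y g = 0 := by
  have h1 := z1_dlt α w hw L σ Y hY
  have h2 : (fun i => Y (iR α (FreeGroup.of i))) = 0 := funext h0
  rw [h2, map_zero, sub_zero] at h1
  have h3 : indA L σ (tR α)⁻¹ (Y (tR α)) = 0 := hinj (by rw [← h1, map_zero])
  have ht : Y (tR α) = 0 := by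
    have h4 := congrArg (indA L σ (tR α)) h3
    rw [← z1_mul, mul_inv_cancel, map_one, map_zero] at h4
    exact h4
  let S : Subgroup (GR α) :=
    { carrier := {g | Y g = 0}
      one_mem' := by
        show Y 1 = 0
        have h := hY 1 1
        rw [mul_one, map_one, Module.End.one_apply] at h
        exact left_eq_add.1 h
      mul_mem' := by
        intro a b ha hb
        show Y (a * b) = 0
        have ha' : Y a = 0 := ha
        have hb' : Y b = 0 := hb
        rw [hY, ha', hb', map_zero, add_zero]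
      inv_mem' := by
        intro a ha
        show Y a⁻¹ = 0
        have ha' : Y a = 0 := ha
        have h := hY a⁻¹ a
        have h1 : Y 1 = 0 := by
          have h := hY 1 1
          rw [mul_one, map_one, Module.End.one_apply] at h
          exact left_eq_add.1 h
        rw [inv_mul_cancel, ha', map_zero, add_zero, h1] at h
        exact h.symm }
  have hf : ∀ f : FreeGroup ι, iR α f ∈ S := by
    intro f
    induction f using FreeGroup.induction_on with
    | C1 => rw [map_one]; exact S.one_mem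
    | of i => exact h0 i
    | inv_of i h => rw [map_inv]; exact S.inv_mem h
    | mul x y hx hy => rw [map_mul]; exact S.mul_mem hx hy
  obtain ⟨f, n, rfl⟩ := GR_cases α g
  exact S.mul_mem (hf f) (S.zpow_mem (show tR α ∈ S from ht) n)

end GRsec

section Mat

open Matrix

variable {ι : Type} (α : MulAut (FreeGroup ι)) (L : Subgroup (GR α)) {K : Type} [Field K]
  (ρ : L →* SL2 K) (m : ℕ) (u : Matrix.GeneralLinearGroup (Fin m) K)

/-- the powers of `u` -/
def z1_u (g : GR α) : Matrix (Fin m) (Fin m) K :=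
  ((u ^ Multiplicative.toAdd (nR α g) : Matrix.GeneralLinearGroup (Fin m) K) :
      Matrix (Fin m) (Fin m) K)

theorem z1_u_mul (g h : GR α) : z1_u α m u (g * h) = z1_u α m u g * z1_u α m u h := by
  unfold z1_u
  rw [map_mul, toAdd_mul, _root_.zpow_add]
  rfl

theorem z1_u_comm (g h : GR α) : z1_u α m u g * z1_u α m u h = z1_u α m u h * z1_u α m u g := by
  rw [← z1_u_mul, ← z1_u_mul]
  unfold z1_u
  rw [map_mul, mul_comm (nR α g), ← map_mul]

theorem z1_u_one (g : GR α) (h : nR α g = 1) : z1_u α m u g = 1 := by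
  unfold z1_u
  rw [h, toAdd_one, zpow_zero]
  rfl

theorem z1_u_inv (g : GR α) : z1_u α m u g⁻¹ * z1_u α m u g = 1 := by
  rw [← z1_u_mul, inv_mul_cancel, z1_u_one α m u 1 (map_one _)]

/-- the representation on the matrices -/
def z1_tau : L →* Module.End K (Matrix (Fin 2) (Fin m) K) where
  toFun x :=
    { toFun := fun A => (ρ x).val * A * z1_u α m u x
      map_add' := fun A B => by rw [Matrix.mul_add, Matrix.add_mul]
      map_smul' := fun c A => by
        rw [Matrix.mul_smul, Matrix.smul_mul]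
        rfl }
  map_one' := by
    apply LinearMap.ext
    intro A
    show (ρ 1).val * A * z1_u α m u ((1 : L) : GR α) = A
    rw [map_one, Subgroup.coe_one, z1_u_one α m u 1 (map_one _), Matrix.mul_one]
    exact Matrix.one_mul A
  map_mul' x y := by
    apply LinearMap.ext
    intro A
    show (ρ (x * y)).val * A * z1_u α m u ((x * y : L) : GR α) =
      (ρ x).val * ((ρ y).val * A * z1_u α m u y) * z1_u α m u x
    rw [map_mul, Subgroup.coe_mul, z1_u_mul, z1_u_comm]
    have h : (ρ x * ρ y).val = (ρ x).val * (ρ y).val := rfl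
    rw [h]
    simp only [Matrix.mul_assoc]

theorem z1_tau_apply (x : L) (A : Matrix (Fin 2) (Fin m) K) :
    z1_tau α L ρ m u x A = (ρ x).val * A * z1_u α m u x := rfl

/-- the columns -/
def z1_P (a : Fin m) :
    ((GR α ⧸ L) → Matrix (Fin 2) (Fin m) K) →ₗ[K] ((GR α ⧸ L) → Fin 2 → K) where
  toFun φ := fun x j => (φ x * z1_u α m u (sec L x)) j a
  map_add' φ ψ := by
    funext x j
    show ((φ x + ψ x) * z1_u α m u (sec L x)) j a = _
    rw [Matrix.add_mul]
    rfl
  map_smul' c φ := by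
    funext x j
    show ((c • φ x) * z1_u α m u (sec L x)) j a = _
    rw [Matrix.smul_mul]
    rfl

theorem z1_P_apply (a : Fin m) (φ : (GR α ⧸ L) → Matrix (Fin 2) (Fin m) K) (x : GR α ⧸ L)
    (j : Fin 2) : z1_P α L m u a φ x j = (φ x * z1_u α m u (sec L x)) j a := rfl

theorem z1_P_inj (φ ψ : (GR α ⧸ L) → Matrix (Fin 2) (Fin m) K)
    (h : ∀ a, z1_P α L m u a φ = z1_P α L m u a ψ) : φ = ψ := by
  funext x
  have h1 : φ x * z1_u α m u (sec L x) = ψ x * z1_u α m u (sec L x) := by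
    ext j a
    exact congrFun (congrFun (h a) x) j
  have h2 : z1_u α m u (sec L x) * z1_u α m u (sec L x)⁻¹ = 1 := by
    rw [z1_u_comm, z1_u_inv]
  have h3 := congrArg (fun A => A * z1_u α m u (sec L x)⁻¹) h1
  simp only [Matrix.mul_assoc, h2, Matrix.mul_one] at h3
  exact h3

theorem z1_P_surj (y : Fin m → (GR α ⧸ L) → Fin 2 → K) :
    ∃ φ, ∀ a, z1_P α L m u a φ = y a := by
  refine ⟨fun x => (Matrix.of fun j a => y a x j) * z1_u α m u (sec L x)⁻¹, ?_⟩
  intro a
  funext x j
  rw [z1_P_apply, Matrix.mul_assoc, z1_u_inv, Matrix.mul_one]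
  rfl

theorem z1_P_ind (a : Fin m) (g : GR α) (φ : (GR α ⧸ L) → Matrix (Fin 2) (Fin m) K) :
    z1_P α L m u a (indA L (z1_tau α L ρ m u) g φ) =
      ∑ b, z1_u α m u g b a • indA L (s2E ρ) g (z1_P α L m u b φ) := by
  funext x j
  rw [z1_P_apply, indA_apply, z1_tau_apply, Finset.sum_apply, Finset.sum_apply]
  set l : L := ⟨_, sec_mem L g x⟩ with hl
  have h1 : z1_u α m u (l : GR α) * z1_u α m u (sec L x) =
      z1_u α m u (sec L (g⁻¹ • x)) * z1_u α m u g := by
    rw [← z1_u_mul, ← z1_u_mul]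
    unfold z1_u
    have h2 : nR α ((l : GR α) * sec L x) = nR α (sec L (g⁻¹ • x) * g) := by
      rw [hl]
      simp only [map_mul, map_inv]
      have h3 : ∀ a b c : Multiplicative ℤ, a⁻¹ * b * c * a = c * b := by
        intro a b c
        rw [mul_comm _ a, ← mul_assoc, ← mul_assoc, mul_inv_cancel, one_mul, mul_comm]
      exact h3 _ _ _
    rw [h2]
  rw [Matrix.mul_assoc, h1, ← Matrix.mul_assoc, Matrix.mul_apply]
  refine Finset.sum_congr rfl fun b _ => ?_
  rw [Pi.smul_apply, Pi.smul_apply, indA_apply, smul_eq_mul, mul_comm, ← hl]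
  congr 1
  rw [Matrix.mul_assoc]
  rfl

theorem z1_P_dlt (a : Fin m) (φ : (GR α ⧸ L) → Matrix (Fin 2) (Fin m) K) (i : ι) :
    z1_P α L m u a (dlt α L (z1_tau α L ρ m u) φ i) =
      dlt α L (s2E ρ) (z1_P α L m u a φ) i := by
  show z1_P α L m u a (φ - indA L (z1_tau α L ρ m u) (iR α (FreeGroup.of i)) φ) =
    z1_P α L m u a φ - indA L (s2E ρ) (iR α (FreeGroup.of i)) (z1_P α L m u a φ)
  rw [map_sub, z1_P_ind, z1_u_one α m u _ (nR_iR α _), Finset.sum_eq_single a]
  · rw [Matrix.one_apply_eq, one_smul]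
  · intro b _ hb
    rw [Matrix.one_apply_ne hb, zero_smul]
  · intro h
    exact absurd (Finset.mem_univ _) h

theorem z1_P_Uop (w : ι → List ι) (a : Fin m)
    (v : ι → (GR α ⧸ L) → Matrix (Fin 2) (Fin m) K) (i : ι) :
    z1_P α L m u a (Uop α w L (z1_tau α L ρ m u) v i) =
      ∑ b, z1_u α m u (tR α)⁻¹ b a • Uop α w L (s2E ρ) (fun j => z1_P α L m u b (v j)) i := by
  have h1 : ∀ (V : Type) [AddCommGroup V] [Module K V] (σ : L →* Module.End K V)
      (v : ι → (GR α ⧸ L) → V), Uop α w L σ v i = ∑ p : Fin (w i).length,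
      indA L σ ((tR α)⁻¹ * iR α (BG.pw ((w i).take p))) (v ((w i).get p)) := by
    intro V _ _ σ v
    unfold Uop
    rw [LinearMap.pi_apply, LinearMap.sum_apply]
    rfl
  rw [h1, map_sum]
  simp only [z1_P_ind]
  rw [Finset.sum_comm]
  refine Finset.sum_congr rfl fun b _ => ?_
  rw [h1, Finset.smul_sum]
  refine Finset.sum_congr rfl fun p _ => ?_
  congr 1

theorem z1_lin {M : Type} [AddCommGroup M] [Module K M] (A B : Matrix (Fin m) (Fin m) K)
    (h : B * A = 1) (X Y : Fin m → M) (hX : ∀ a, ∑ b, B b a • X b = Y a) (c : Fin m) :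
    ∑ a, A a c • Y a = X c := by
  have h1 : ∀ a, A a c • Y a = ∑ b, (B b a * A a c) • X b := by
    intro a
    rw [← hX, Finset.smul_sum]
    refine Finset.sum_congr rfl fun b _ => ?_
    rw [smul_smul, mul_comm]
  rw [Finset.sum_congr rfl fun a _ => h1 a, Finset.sum_comm, Finset.sum_eq_single c]
  · rw [← Finset.sum_smul, ← Matrix.mul_apply, h, Matrix.one_apply_eq, one_smul]
  · intro b _ hb
    rw [← Finset.sum_smul, ← Matrix.mul_apply, h, Matrix.one_apply_ne hb, zero_smul]
  · intro h'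
    exact absurd (Finset.mem_univ _) h'

theorem z1_u_t : z1_u α m u (tR α) = (u : Matrix (Fin m) (Fin m) K) := by
  unfold z1_u
  rw [nR_tR, toAdd_ofAdd, _root_.zpow_one]

theorem z1_ut : z1_u α m u (tR α)⁻¹ * (u : Matrix (Fin m) (Fin m) K) = 1 := by
  have h := z1_u_inv α m u (tR α)
  rw [z1_u_t] at h
  exact h

theorem z1_tu : (u : Matrix (Fin m) (Fin m) K) * z1_u α m u (tR α)⁻¹ = 1 := by
  have h := z1_ut α m u
  rw [← z1_u_t α, z1_u_comm] at h
  rw [← z1_u_t α]
  exact h

/-- the components -/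
def z1_R0 : (L → Matrix (Fin 2) (Fin m) K) →ₗ[K] (Fin m → ι → (GR α ⧸ L) → Fin 2 → K) where
  toFun ζ a i := z1_P α L m u a (z1_Z L ζ (iR α (FreeGroup.of i)))
  map_add' ζ ξ := by
    funext a i
    show z1_P α L m u a (z1_Z L ζ (iR α (FreeGroup.of i)) + z1_Z L ξ (iR α (FreeGroup.of i))) = _
    rw [map_add]
    rfl
  map_smul' c ζ := by
    funext a i
    show z1_P α L m u a (c • z1_Z L ζ (iR α (FreeGroup.of i))) = _
    rw [map_smul]
    rfl

/-- the map to the cohomology of the fibre -/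
def z1_R : Zc ((nR α).comp L.subtype) m ρ u →ₗ[K] (Fin m → Xq α L (s2E ρ)) :=
  (LinearMap.pi fun a => (LinearMap.range (dlt α L (s2E ρ))).mkQ.comp
    ((LinearMap.proj a).comp (z1_R0 α L m u))).comp (Zc ((nR α).comp L.subtype) m ρ u).subtype

theorem z1_R_apply (ζ : Zc ((nR α).comp L.subtype) m ρ u) (a : Fin m) :
    z1_R α L ρ m u ζ a = (LinearMap.range (dlt α L (s2E ρ))).mkQ
      (fun i => z1_P α L m u a (z1_Z L ζ.1 (iR α (FreeGroup.of i)))) := rfl

theorem z1_mem (ζ : L → Matrix (Fin 2) (Fin m) K) :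
    ζ ∈ Zc ((nR α).comp L.subtype) m ρ u ↔
      ∀ x y, ζ (x * y) = ζ x + z1_tau α L ρ m u x (ζ y) := Iff.rfl

/-- the coboundaries -/
def z1_D : Matrix (Fin 2) (Fin m) K →ₗ[K] Zc ((nR α).comp L.subtype) m ρ u :=
  LinearMap.codRestrict _
    (LinearMap.pi fun x : L => LinearMap.id - z1_tau α L ρ m u x) (by
      intro A
      rw [z1_mem]
      intro x y
      show A - z1_tau α L ρ m u (x * y) A = (A - z1_tau α L ρ m u x A) +
        z1_tau α L ρ m u x (A - z1_tau α L ρ m u y A)
      rw [map_mul, map_sub, Module.End.mul_apply]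
      abel)

theorem z1_D_apply (A : Matrix (Fin 2) (Fin m) K) (x : L) :
    (z1_D α L ρ m u A).1 x = A - z1_tau α L ρ m u x A := rfl

variable (w : ι → List ι) (hw : ∀ i, α (FreeGroup.of i) = BG.pw (w i))
  (hV : ∀ v : Fin 2 → K, (∀ x : L, nR α x = 1 → s2E ρ x v = v) → v = 0)

include hV in
theorem z1_inv (A : Matrix (Fin 2) (Fin m) K)
    (h : ∀ x : L, nR α x = 1 → z1_tau α L ρ m u x A = A) : A = 0 := by
  ext j a
  have h1 : (fun j => A j a) = 0 := by
    apply hV
    intro x hx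
    have h2 := h x hx
    rw [z1_tau_apply, z1_u_one α m u _ hx, Matrix.mul_one] at h2
    funext i
    exact congrFun (congrFun h2 i) a
  exact congrFun h1 j

include hV in
theorem z1_D_inj : Function.Injective (z1_D α L ρ m u) := by
  rw [← LinearMap.ker_eq_bot, LinearMap.ker_eq_bot']
  intro A hA
  apply z1_inv α L ρ m u hV
  intro x _
  have h1 := congrFun (congrArg Subtype.val hA) x
  rw [z1_D_apply] at h1
  exact (sub_eq_zero.1 h1).symm

include hw hV in
theorem z1_ker (hL : ∃ g ∈ L, nR α g = Multiplicative.ofAdd 1) :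
    LinearMap.ker (z1_R α L ρ m u) = LinearMap.range (z1_D α L ρ m u) := by
  have hinj : Function.Injective (dlt α L (z1_tau α L ρ m u)) :=
    z1_inj α L _ hL (z1_inv α L ρ m u hV)
  ext ζ
  rw [LinearMap.mem_ker, LinearMap.mem_range]
  constructor
  · intro h
    have h1 : ∀ a, ∃ ψ, dlt α L (s2E ρ) ψ =
        fun i => z1_P α L m u a (z1_Z L ζ.1 (iR α (FreeGroup.of i))) := by
      intro a
      have h2 := congrFun h a
      rw [z1_R_apply] at h2
      exact (Submodule.Quotient.mk_eq_zero _).1 h2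
    choose ψ hψ using h1
    obtain ⟨φ, hφ⟩ := z1_P_surj α L m u ψ
    have h2 : ∀ i, z1_Z L ζ.1 (iR α (FreeGroup.of i)) = dlt α L (z1_tau α L ρ m u) φ i := by
      intro i
      apply z1_P_inj α L m u
      intro a
      rw [z1_P_dlt, hφ, hψ]
    have hζ := (z1_mem α L ρ m u ζ.1).1 ζ.2
    have h3 := z1_zero α w hw L (z1_tau α L ρ m u) hinj
      (fun g => z1_Z L ζ.1 g - (φ - indA L (z1_tau α L ρ m u) g φ)) (by
        intro g h
        show z1_Z L ζ.1 (g * h) - (φ - indA L (z1_tau α L ρ m u) (g * h) φ) =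
          (z1_Z L ζ.1 g - (φ - indA L (z1_tau α L ρ m u) g φ)) +
          indA L (z1_tau α L ρ m u) g (z1_Z L ζ.1 h - (φ - indA L (z1_tau α L ρ m u) h φ))
        rw [z1_Z_mul L (z1_tau α L ρ m u) ζ.1 hζ, z1_mul, map_sub, map_sub]
        abel) (by
        intro i
        show z1_Z L ζ.1 (iR α (FreeGroup.of i)) - dlt α L (z1_tau α L ρ m u) φ i = 0
        rw [h2, sub_self])
    refine ⟨φ (z1_o L), ?_⟩
    apply Subtype.ext
    funext l
    rw [z1_D_apply, ← z1_at_o, ← z1_Z_o L ζ.1 l]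
    exact (congrFun (sub_eq_zero.1 (h3 l)) (z1_o L)).symm
  · rintro ⟨A, rfl⟩
    funext a
    rw [z1_R_apply]
    refine (Submodule.Quotient.mk_eq_zero _).2 ⟨z1_P α L m u a (fun _ => A), ?_⟩
    funext i
    rw [← z1_P_dlt]
    rfl

include hw in
theorem z1_range (Ub : Module.End K (Xq α L (s2E ρ))) (hUb : IsUb α L (s2E ρ) w Ub) :
    LinearMap.range (z1_R α L ρ m u) = Sol m Ub (u : Matrix (Fin m) (Fin m) K) := by
  set q := (LinearMap.range (dlt α L (s2E ρ))).mkQ with hq
  have hqd : ∀ ψ, q (dlt α L (s2E ρ) ψ) = 0 := fun ψ =>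
    (Submodule.Quotient.mk_eq_zero _).2 ⟨ψ, rfl⟩
  apply le_antisymm
  · rintro _ ⟨ζ, rfl⟩ a
    have hζ := (z1_mem α L ρ m u ζ.1).1 ζ.2
    set v := fun i => z1_Z L ζ.1 (iR α (FreeGroup.of i)) with hv
    have h1 := z1_dlt α w hw L (z1_tau α L ρ m u) (z1_Z L ζ.1)
      (z1_Z_mul L (z1_tau α L ρ m u) ζ.1 hζ)
    set φ := indA L (z1_tau α L ρ m u) (tR α)⁻¹ (z1_Z L ζ.1 (tR α)) with hφ
    have h2 : ∀ c, ∑ b, z1_u α m u (tR α)⁻¹ b c •
        Uop α w L (s2E ρ) (fun j => z1_P α L m u b (v j)) =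
        (fun i => z1_P α L m u c (v i)) + dlt α L (s2E ρ) (z1_P α L m u c φ) := by
      intro c
      funext i
      have h3 := congrArg (z1_P α L m u c) (congrFun h1 i)
      rw [Pi.sub_apply, map_sub, z1_P_dlt, z1_P_Uop, sub_eq_iff_eq_add'] at h3
      rw [Finset.sum_apply]
      exact h3
    have h4 := z1_lin m (u : Matrix (Fin m) (Fin m) K) (z1_u α m u (tR α)⁻¹) (z1_ut α m u)
      (fun b => Uop α w L (s2E ρ) (fun j => z1_P α L m u b (v j))) _ h2 a
    show Ub (q fun i => z1_P α L m u a (v i)) =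
      ∑ b, (u : Matrix (Fin m) (Fin m) K) b a • q (fun i => z1_P α L m u b (v i))
    rw [hUb, ← hq, ← h4, map_sum]
    refine Finset.sum_congr rfl fun b _ => ?_
    rw [map_smul, map_add, hqd, add_zero]
  · intro ξ hξ
    have h0 : ∀ a, ∃ y, q y = ξ a := fun a => Submodule.mkQ_surjective _ (ξ a)
    choose y hy using h0
    have h1 : ∀ a, ∃ ψ, dlt α L (s2E ρ) ψ =
        Uop α w L (s2E ρ) (y a) - ∑ b, (u : Matrix (Fin m) (Fin m) K) b a • y b := by
      intro a
      apply (Submodule.Quotient.mk_eq_zero (LinearMap.range (dlt α L (s2E ρ)))).1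
      show q (Uop α w L (s2E ρ) (y a) - ∑ b, (u : Matrix (Fin m) (Fin m) K) b a • y b) = 0
      have h2 := hξ a
      rw [← hy, hUb, ← hq] at h2
      rw [map_sub, h2, map_sum, sub_eq_zero]
      refine Finset.sum_congr rfl fun b _ => ?_
      rw [map_smul, hy]
    choose ψ hψ using h1
    have h2 : ∀ i, ∃ v, ∀ a, z1_P α L m u a v = y a i := fun i =>
      z1_P_surj α L m u (fun a => y a i)
    choose v hv using h2
    obtain ⟨φ, hφ⟩ := z1_P_surj α L m u (fun a => ∑ b, z1_u α m u (tR α)⁻¹ b a • ψ b)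
    have h3 : Uop α w L (z1_tau α L ρ m u) v - v = dlt α L (z1_tau α L ρ m u) φ := by
      funext i
      apply z1_P_inj α L m u
      intro a
      rw [Pi.sub_apply, map_sub, z1_P_Uop, z1_P_dlt, hφ, hv]
      have h4 : ∀ b, (fun j => z1_P α L m u b (v j)) = y b := by
        intro b
        funext j
        exact hv j b
      have h5 := z1_lin m (z1_u α m u (tR α)⁻¹) (u : Matrix (Fin m) (Fin m) K) (z1_tu α m u)
        y _ (fun b => rfl) a
      have h6 : ∑ b, z1_u α m u (tR α)⁻¹ b a • Uop α w L (s2E ρ) (y b) =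
        ∑ b, z1_u α m u (tR α)⁻¹ b a • dlt α L (s2E ρ) (ψ b) + y a := by
        rw [← h5, ← Finset.sum_add_distrib]
        refine Finset.sum_congr rfl fun b _ => ?_
        rw [← smul_add, hψ, sub_add_cancel]
      have h7 := congrFun h6 i
      rw [Finset.sum_apply] at h7
      have h8 : ∑ b, z1_u α m u (tR α)⁻¹ b a •
          Uop α w L (s2E ρ) (fun j => z1_P α L m u b (v j)) i =
          ∑ b, (z1_u α m u (tR α)⁻¹ b a • Uop α w L (s2E ρ) (y b)) i := by
        refine Finset.sum_congr rfl fun b _ => ?_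
        rw [h4]
        rfl
      rw [h8, h7, Pi.add_apply, add_sub_cancel_right, map_sum]
      refine congrFun (Finset.sum_congr rfl fun b _ => ?_) i
      rw [map_smul]
    obtain ⟨Z, hZ, hZv⟩ := z1_ext α w hw L (z1_tau α L ρ m u) v φ h3
    let ζ : L → Matrix (Fin 2) (Fin m) K := fun l => Z (l : GR α) (z1_o L)
    have hζ : ∀ x y, ζ (x * y) = ζ x + z1_tau α L ρ m u x (ζ y) := by
      intro x y
      show Z ((x * y : L) : GR α) (z1_o L) =
        Z (x : GR α) (z1_o L) + z1_tau α L ρ m u x (Z (y : GR α) (z1_o L))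
      rw [← z1_at_o, Subgroup.coe_mul, hZ]
      rfl
    obtain ⟨θ, hθ⟩ := z1_shap L (z1_tau α L ρ m u) (fun g => Z g - z1_Z L ζ g) (by
      intro g h
      show Z (g * h) - z1_Z L ζ (g * h) = (Z g - z1_Z L ζ g) +
        indA L (z1_tau α L ρ m u) g (Z h - z1_Z L ζ h)
      rw [hZ, z1_Z_mul L (z1_tau α L ρ m u) ζ hζ, map_sub]
      abel) (by
      intro l
      show Z (l : GR α) (z1_o L) - z1_Z L ζ (l : GR α) (z1_o L) = 0
      rw [z1_Z_o, sub_self])
    refine ⟨⟨ζ, hζ⟩, ?_⟩
    funext a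
    rw [z1_R_apply, ← hq, ← hy, ← sub_eq_zero, ← map_sub]
    have h9 : (fun i => z1_P α L m u a (z1_Z L ζ (iR α (FreeGroup.of i)))) - y a =
        dlt α L (s2E ρ) (z1_P α L m u a (-θ)) := by
      funext i
      rw [Pi.sub_apply, ← z1_P_dlt, ← hv i a, ← map_sub]
      congr 1
      have h10 := hθ (iR α (FreeGroup.of i))
      rw [hZv] at h10
      show z1_Z L ζ (iR α (FreeGroup.of i)) - v i =
        -θ - indA L (z1_tau α L ρ m u) (iR α (FreeGroup.of i)) (-θ)
      rw [map_neg, ← neg_sub, h10]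
      abel
    show q ((fun i => z1_P α L m u a (z1_Z L ζ (iR α (FreeGroup.of i)))) - y a) = 0
    rw [h9, hqd]

end Mat

theorem p_z1 : A_z1 := by
  intro ι _ α w hw L hfin hL K _ ρ hV Ub hUb m u
  have : Finite (GR α ⧸ L) := Subgroup.finite_quotient_of_finiteIndex
  have hk := z1_ker α L ρ m u w hw hV hL
  have hr := z1_range α L ρ m u w hw Ub hUb
  have h1 : Module.finrank K (LinearMap.ker (z1_R α L ρ m u)) = 2 * m := by
    rw [hk, LinearMap.finrank_range_of_inj (z1_D_inj α L ρ m u hV), Module.finrank_matrix]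
    simp
  have h2 : Module.Finite K (LinearMap.ker (z1_R α L ρ m u)) := by
    rw [hk]
    infer_instance
  have h3 : Module.Finite K (Zc ((nR α).comp L.subtype) m ρ u) := by
    have h4 := LinearMap.rank_range_add_rank_ker (z1_R α L ρ m u)
    rw [← Module.rank_lt_aleph0_iff, ← h4]
    exact Cardinal.add_lt_aleph0 (Module.rank_lt_aleph0 K _) (Module.rank_lt_aleph0 K _)
  refine ⟨h3, ?_⟩
  rw [← hr, ← h1, add_comm]
  exact (LinearMap.finrank_range_add_finrank_ker (z1_R α L ρ m u)).symm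

end

end Pool.Agent.F8.CG
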