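import Pool.Agent.Lib.MP_305fdd_al.F8.CG.StmA3
import Pool.Agent.Lib.MP_305fdd_al.F8.CG.P_z1
import Pool.Agent.Lib.MP_305fdd_al.F8.CG.P_itg

/-!
# MP_305fdd_al, congruence subgroups: the polynomial `P` for elements of odd level (CG opm, helper53)

The operator `opm_U` is the operator on `ι → W` given by `α`, where the `α x_i` are inverses of positive words. Most of the proofs are
adaptations of the proofs in `P_ub.lean`, `P_z1.lean`, `P_itg.lean`, `P_trq.lean`, `P_tf.lean`, `P_op.lean`.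
-/

set_option autoImplicit false

namespace Pool.Agent.F8.CG

open Pool.Agent.F8.BG Pool.Agent.Lib.MP_305fdd_al Pool.Agent.F8

noncomputable section

section Free

variable {ι : Type} {K W : Type} [CommRing K] [AddCommGroup W] [Module K W]

private theorem opm_sum (A : FreeGroup ι →* Module.End K W) (z : FreeGroup ι → W)
    (hz : ∀ f h, z (f * h) = z f + A f (z h)) (l : List ι) :
    z (BG.pw l)⁻¹ = - ∑ p : Fin l.length, A (BG.pw (l.drop p))⁻¹ (z (FreeGroup.of (l.get p))) := by
  have h1 : z 1 = 0 := itg_one A z hz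
  induction l with
  | nil =>
    rw [show BG.pw ([] : List ι) = 1 from rfl, inv_one, h1]
    simp
  | cons i l ih =>
    have h0 : (∑ p : Fin (i :: l).length, A (BG.pw ((i :: l).drop p))⁻¹
        (z (FreeGroup.of ((i :: l).get p)))) = ∑ p : Fin (l.length + 1),
          A (BG.pw ((i :: l).drop p))⁻¹ (z (FreeGroup.of ((i :: l).get p))) := rfl
    have h2 : z (FreeGroup.of i)⁻¹ = - A (FreeGroup.of i)⁻¹ (z (FreeGroup.of i)) := by
      have h3 := hz (FreeGroup.of i)⁻¹ (FreeGroup.of i)
      rw [inv_mul_cancel, h1] at h3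
      exact eq_neg_of_add_eq_zero_left h3.symm
    rw [h0, Fin.sum_univ_succ, neg_add, pw_cons, mul_inv_rev, hz, ih, h2, map_neg, add_comm]
    congr 1
    · rw [← Module.End.mul_apply, ← map_mul, ← mul_inv_rev, ← pw_cons]
      rfl

end Free

section GRsec

variable {ι : Type} (α : MulAut (FreeGroup ι)) (w : ι → List ι) (L : Subgroup (GR α))
  {K V : Type} [CommRing K] [AddCommGroup V] [Module K V] (σ : L →* Module.End K V)

/-- the operator -/
def opm_U : Module.End K (ι → (GR α ⧸ L) → V) :=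
  LinearMap.pi fun i => - ∑ p : Fin (w i).length,
    (indA L σ ((tR α)⁻¹ * (iR α (BG.pw ((w i).drop p)))⁻¹)).comp (LinearMap.proj ((w i).get p))

private theorem opm_U_apply (f : ι → (GR α ⧸ L) → V) (i : ι) : opm_U α w L σ f i =
    - ∑ p : Fin (w i).length,
      indA L σ ((tR α)⁻¹ * (iR α (BG.pw ((w i).drop p)))⁻¹) (f ((w i).get p)) := by
  unfold opm_U
  rw [LinearMap.pi_apply, LinearMap.neg_apply, LinearMap.sum_apply]
  rfl

variable (hw : ∀ i, α (FreeGroup.of i) = (BG.pw (w i))⁻¹)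

include hw in
private theorem opm_Uop (z : FreeGroup ι → (GR α ⧸ L) → V)
    (hz : ∀ f h, z (f * h) = z f + indA L σ (iR α f) (z h)) (i : ι) :
    opm_U α w L σ (fun j => z (FreeGroup.of j)) i =
      indA L σ (tR α)⁻¹ (z (α (FreeGroup.of i))) := by
  rw [opm_U_apply, hw, opm_sum ((indA L σ).comp (iR α)) z hz (w i), map_neg, map_sum]
  congr 1
  refine Finset.sum_congr rfl fun p _ => ?_
  rw [z1_mul, ← map_inv]
  rfl

include hw in
private theorem opm_dltU (φ : (GR α ⧸ L) → V) :
    opm_U α w L σ (dlt α L σ φ) = dlt α L σ (indA L σ (tR α)⁻¹ φ) := by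
  funext i
  have h1 := opm_Uop α w L σ hw (fun f => φ - indA L σ (iR α f) φ) (fun f h => by
    rw [map_mul, z1_mul, map_sub]
    abel) i
  have h2 : (fun j => φ - indA L σ (iR α (FreeGroup.of j)) φ) = dlt α L σ φ := rfl
  rw [h2] at h1
  rw [h1]
  show indA L σ (tR α)⁻¹ (φ - indA L σ (iR α (α (FreeGroup.of i))) φ) =
    indA L σ (tR α)⁻¹ φ - indA L σ (iR α (FreeGroup.of i)) (indA L σ (tR α)⁻¹ φ)
  rw [map_sub, ← z1_mul, ← z1_mul, ← tR_conj]
  congr 3
  group

include hw in
private theorem opm_dlt (Z : GR α → (GR α ⧸ L) → V) (hZ : ∀ g h, Z (g * h) = Z g + indA L σ g (Z h)) :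
    opm_U α w L σ (fun i => Z (iR α (FreeGroup.of i))) - (fun i => Z (iR α (FreeGroup.of i))) =
      dlt α L σ (indA L σ (tR α)⁻¹ (Z (tR α))) := by
  funext i
  rw [Pi.sub_apply, opm_Uop α w L σ hw (fun f => Z (iR α f)) (fun f h => by rw [map_mul, hZ]) i]
  show indA L σ (tR α)⁻¹ (Z (iR α (α (FreeGroup.of i)))) - Z (iR α (FreeGroup.of i)) =
    indA L σ (tR α)⁻¹ (Z (tR α)) -
      indA L σ (iR α (FreeGroup.of i)) (indA L σ (tR α)⁻¹ (Z (tR α)))
  have h1 := congrArg Z (tR_mul α (FreeGroup.of i))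
  rw [hZ, hZ] at h1
  have h2 : Z (iR α (α (FreeGroup.of i))) = Z (tR α) + indA L σ (tR α) (Z (iR α (FreeGroup.of i)))
      - indA L σ (iR α (α (FreeGroup.of i))) (Z (tR α)) := by
    rw [h1]
    abel
  rw [h2, map_sub, map_add, ← z1_mul, ← z1_mul, ← z1_mul, ← tR_conj, inv_mul_cancel, map_one,
    Module.End.one_apply]
  have h3 : (tR α)⁻¹ * (tR α * iR α (FreeGroup.of i) * (tR α)⁻¹) =
    iR α (FreeGroup.of i) * (tR α)⁻¹ := by group
  rw [h3]
  abel

include hw in
private theorem opm_ext (v : ι → (GR α ⧸ L) → V) (φ : (GR α ⧸ L) → V)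
    (h : opm_U α w L σ v - v = dlt α L σ φ) : ∃ Z : GR α → (GR α ⧸ L) → V,
    (∀ g h, Z (g * h) = Z g + indA L σ g (Z h)) ∧ ∀ i, Z (iR α (FreeGroup.of i)) = v i := by
  set A := (indA L σ).comp (iR α) with hA
  let x : ι → Equiv.Perm ((GR α ⧸ L) → V) := fun i => z1_aff A (FreeGroup.of i) (v i)
  let s : Equiv.Perm ((GR α ⧸ L) → V) :=
    z1_aff (indA L σ) (tR α) (indA L σ (tR α) φ)
  let z : FreeGroup ι → (GR α ⧸ L) → V := fun f => FreeGroup.lift x f 0
  have hx : ∀ f ψ, FreeGroup.lift x f ψ = z f + A f ψ := fun f ψ => z1_lift A v f ψ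
  have hz : ∀ f h, z (f * h) = z f + indA L σ (iR α f) (z h) := by
    intro f h
    show FreeGroup.lift x (f * h) 0 = _
    rw [map_mul, Equiv.Perm.mul_apply, hx f]
    rfl
  have hzv : (fun j => z (FreeGroup.of j)) = v := by
    funext j
    show FreeGroup.lift x (FreeGroup.of j) 0 = v j
    rw [FreeGroup.lift_apply_of]
    show v j + A (FreeGroup.of j) 0 = v j
    rw [map_zero, add_zero]
  have hU : ∀ i, opm_U α w L σ v i = indA L σ (tR α)⁻¹ (z (α (FreeGroup.of i))) := by
    intro i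
    rw [← opm_Uop α w L σ hw z hz i, hzv]
  have hrel : ∀ i, s * x i * s⁻¹ = FreeGroup.lift x (α (FreeGroup.of i)) := by
    intro i
    rw [mul_inv_eq_iff_eq_mul]
    apply Equiv.ext
    intro ψ
    rw [Equiv.Perm.mul_apply, Equiv.Perm.mul_apply, hx]
    show indA L σ (tR α) φ + indA L σ (tR α) (v i + indA L σ (iR α (FreeGroup.of i)) ψ) =
      z (α (FreeGroup.of i)) + indA L σ (iR α (α (FreeGroup.of i)))
        (indA L σ (tR α) φ + indA L σ (tR α) ψ)
    have h1 := congrFun h i
    rw [Pi.sub_apply, hU] at h1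
    have h2 : indA L σ (tR α)⁻¹ (z (α (FreeGroup.of i))) - v i =
      φ - indA L σ (iR α (FreeGroup.of i)) φ := h1
    have h3 : z (α (FreeGroup.of i)) = indA L σ (tR α)
        (v i + φ - indA L σ (iR α (FreeGroup.of i)) φ) := by
      rw [add_sub_assoc, ← h2, add_sub_cancel, ← z1_mul, mul_inv_cancel, map_one,
        Module.End.one_apply]
    rw [h3, ← tR_conj]
    simp only [map_add, map_sub, ← z1_mul]
    have h4 : tR α * iR α (FreeGroup.of i) * (tR α)⁻¹ * tR α = tR α * iR α (FreeGroup.of i) := by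
      group
    rw [h4]
    abel
  let Q := liR x s hrel
  have hQ : ∀ g ψ, Q g ψ = Q g 0 + indA L σ g ψ := by
    let S : Subgroup (GR α) :=
      { carrier := {g | ∀ ψ, Q g ψ = Q g 0 + indA L σ g ψ}
        one_mem' := by
          intro ψ
          rw [map_one, map_one]
          simp
        mul_mem' := by
          intro a b ha hb ψ
          rw [map_mul, Equiv.Perm.mul_apply, Equiv.Perm.mul_apply, hb, ha, ha (Q b 0), z1_mul,
            map_add]
          abel
        inv_mem' := by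
          intro a ha ψ
          rw [map_inv]
          apply (Q a).injective
          rw [← Equiv.Perm.mul_apply, mul_inv_cancel, ha, map_add, ← z1_mul, mul_inv_cancel,
            map_one, ← add_assoc, ← ha, ← Equiv.Perm.mul_apply, mul_inv_cancel]
          simp }
    have hS : ∀ g : GR α, g ∈ S := by
      have hf : ∀ f : FreeGroup ι, iR α f ∈ S := by
        intro f ψ
        have h5 : Q (iR α f) = FreeGroup.lift x f := liR_iR hrel f
        rw [h5, hx f ψ]
        rfl
      have ht : tR α ∈ S := by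
        intro ψ
        have h5 : Q (tR α) = s := liR_tR hrel
        rw [h5]
        show indA L σ (tR α) φ + indA L σ (tR α) ψ =
          indA L σ (tR α) φ + indA L σ (tR α) 0 + indA L σ (tR α) ψ
        rw [map_zero, add_zero]
      intro g
      obtain ⟨f, n, rfl⟩ := GR_cases α g
      exact S.mul_mem (hf f) (S.zpow_mem ht n)
    exact fun g => hS g
  refine ⟨fun g => Q g 0, ?_, ?_⟩
  · intro g g'
    show Q (g * g') 0 = Q g 0 + indA L σ g (Q g' 0)
    rw [map_mul, Equiv.Perm.mul_apply, hQ g]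
  · intro i
    have h5 : Q (iR α (FreeGroup.of i)) = x i := liR_of hrel i
    show Q (iR α (FreeGroup.of i)) 0 = v i
    rw [h5]
    show v i + A (FreeGroup.of i) 0 = v i
    rw [map_zero, add_zero]

include hw in
private theorem opm_zero (hinj : Function.Injective (dlt α L σ)) (Y : GR α → (GR α ⧸ L) → V)
    (hY : ∀ g h, Y (g * h) = Y g + indA L σ g (Y h))
    (h0 : ∀ i, Y (iR α (FreeGroup.of i)) = 0) (g : GR α) : Y g = 0 := by
  have h1 := opm_dlt α w L σ hw Y hY
  have h2 : (fun i => Y (iR α (FreeGroup.of i))) = 0 := funext h0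
  rw [h2, map_zero, sub_zero] at h1
  have h3 : indA L σ (tR α)⁻¹ (Y (tR α)) = 0 := hinj (by rw [← h1, map_zero])
  have ht : Y (tR α) = 0 := by
    have h4 := congrArg (indA L σ (tR α)) h3
    rw [← z1_mul, mul_inv_cancel, map_one, map_zero] at h4
    exact h4
  let S : Subgroup (GR α) :=
    { carrier := {g | Y g = 0}
      one_mem' := by
        show Y 1 = 0
        have h := hY 1 1
        rw [mul_one, map_one, Module.End.one_apply] at h
        exact left_eq_add.1 h
      mul_mem' := by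
        intro a b ha hb
        show Y (a * b) = 0
        have ha' : Y a = 0 := ha
        have hb' : Y b = 0 := hb
        rw [hY, ha', hb', map_zero, add_zero]
      inv_mem' := by
        intro a ha
        show Y a⁻¹ = 0
        have ha' : Y a = 0 := ha
        have h := hY a⁻¹ a
        have h1 : Y 1 = 0 := by
          have h := hY 1 1
          rw [mul_one, map_one, Module.End.one_apply] at h
          exact left_eq_add.1 h
        rw [inv_mul_cancel, ha', map_zero, add_zero, h1] at h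
        exact h.symm }
  have hf : ∀ f : FreeGroup ι, iR α f ∈ S := by
    intro f
    induction f using FreeGroup.induction_on with
    | C1 => rw [map_one]; exact S.one_mem
    | of i => exact h0 i
    | inv_of i h => rw [map_inv]; exact S.inv_mem h
    | mul x y hx hy => rw [map_mul]; exact S.mul_mem hx hy
  obtain ⟨f, n, rfl⟩ := GR_cases α g
  exact S.mul_mem (hf f) (S.zpow_mem (show tR α ∈ S from ht) n)

end GRsec

section Mat

open Matrix

variable {ι : Type} (α : MulAut (FreeGroup ι)) (L : Subgroup (GR α)) {K : Type} [Field K]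
  (ρ : L →* SL2 K) (m : ℕ) (u : Matrix.GeneralLinearGroup (Fin m) K)

private theorem opm_P_Uop (w : ι → List ι) (a : Fin m)
    (v : ι → (GR α ⧸ L) → Matrix (Fin 2) (Fin m) K) (i : ι) :
    z1_P α L m u a (opm_U α w L (z1_tau α L ρ m u) v i) =
      ∑ b, z1_u α m u (tR α)⁻¹ b a • opm_U α w L (s2E ρ) (fun j => z1_P α L m u b (v j)) i := by
  have h1 : ∀ f : FreeGroup ι, z1_u α m u ((tR α)⁻¹ * (iR α f)⁻¹) = z1_u α m u (tR α)⁻¹ := by
    intro f
    unfold z1_u
    rw [map_mul, map_inv (nR α) (iR α f), nR_iR, inv_one, mul_one]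
  rw [opm_U_apply, map_neg, map_sum]
  simp only [z1_P_ind, h1]
  rw [Finset.sum_comm, ← Finset.sum_neg_distrib]
  refine Finset.sum_congr rfl fun b _ => ?_
  rw [opm_U_apply, smul_neg, Finset.smul_sum]

variable (w : ι → List ι) (hw : ∀ i, α (FreeGroup.of i) = (BG.pw (w i))⁻¹)
  (hV : ∀ v : Fin 2 → K, (∀ x : L, nR α x = 1 → s2E ρ x v = v) → v = 0)

include hw hV in
private theorem opm_ker (hL : ∃ g ∈ L, nR α g = Multiplicative.ofAdd 1) :
    LinearMap.ker (z1_R α L ρ m u) = LinearMap.range (z1_D α L ρ m u) := by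
  have hinj : Function.Injective (dlt α L (z1_tau α L ρ m u)) :=
    z1_inj α L _ hL (z1_inv α L ρ m u hV)
  ext ζ
  rw [LinearMap.mem_ker, LinearMap.mem_range]
  constructor
  · intro h
    have h1 : ∀ a, ∃ ψ, dlt α L (s2E ρ) ψ =
        fun i => z1_P α L m u a (z1_Z L ζ.1 (iR α (FreeGroup.of i))) := by
      intro a
      have h2 := congrFun h a
      rw [z1_R_apply] at h2
      exact (Submodule.Quotient.mk_eq_zero _).1 h2
    choose ψ hψ using h1
    obtain ⟨φ, hφ⟩ := z1_P_surj α L m u ψ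
    have h2 : ∀ i, z1_Z L ζ.1 (iR α (FreeGroup.of i)) = dlt α L (z1_tau α L ρ m u) φ i := by
      intro i
      apply z1_P_inj α L m u
      intro a
      rw [z1_P_dlt, hφ, hψ]
    have hζ := (z1_mem α L ρ m u ζ.1).1 ζ.2
    have h3 := opm_zero α w L (z1_tau α L ρ m u) hw hinj
      (fun g => z1_Z L ζ.1 g - (φ - indA L (z1_tau α L ρ m u) g φ)) (by
        intro g h
        show z1_Z L ζ.1 (g * h) - (φ - indA L (z1_tau α L ρ m u) (g * h) φ) =
          (z1_Z L ζ.1 g - (φ - indA L (z1_tau α L ρ m u) g φ)) +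
          indA L (z1_tau α L ρ m u) g (z1_Z L ζ.1 h - (φ - indA L (z1_tau α L ρ m u) h φ))
        rw [z1_Z_mul L (z1_tau α L ρ m u) ζ.1 hζ, z1_mul, map_sub, map_sub]
        abel) (by
        intro i
        show z1_Z L ζ.1 (iR α (FreeGroup.of i)) - dlt α L (z1_tau α L ρ m u) φ i = 0
        rw [h2, sub_self])
    refine ⟨φ (z1_o L), ?_⟩
    apply Subtype.ext
    funext l
    rw [z1_D_apply, ← z1_at_o, ← z1_Z_o L ζ.1 l]
    exact (congrFun (sub_eq_zero.1 (h3 l)) (z1_o L)).symm
  · rintro ⟨A, rfl⟩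
    funext a
    rw [z1_R_apply]
    refine (Submodule.Quotient.mk_eq_zero _).2 ⟨z1_P α L m u a (fun _ => A), ?_⟩
    funext i
    rw [← z1_P_dlt]
    rfl

include hw in
private theorem opm_range (Ub : Module.End K (Xq α L (s2E ρ))) (hUb : ∀ f, Ub ((LinearMap.range (dlt α L (s2E ρ))).mkQ f) =
      (LinearMap.range (dlt α L (s2E ρ))).mkQ (opm_U α w L (s2E ρ) f)) :
    LinearMap.range (z1_R α L ρ m u) = Sol m Ub (u : Matrix (Fin m) (Fin m) K) := by
  set q := (LinearMap.range (dlt α L (s2E ρ))).mkQ with hq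
  have hqd : ∀ ψ, q (dlt α L (s2E ρ) ψ) = 0 := fun ψ =>
    (Submodule.Quotient.mk_eq_zero _).2 ⟨ψ, rfl⟩
  apply le_antisymm
  · rintro _ ⟨ζ, rfl⟩ a
    have hζ := (z1_mem α L ρ m u ζ.1).1 ζ.2
    set v := fun i => z1_Z L ζ.1 (iR α (FreeGroup.of i)) with hv
    have h1 := opm_dlt α w L (z1_tau α L ρ m u) hw (z1_Z L ζ.1)
      (z1_Z_mul L (z1_tau α L ρ m u) ζ.1 hζ)
    set φ := indA L (z1_tau α L ρ m u) (tR α)⁻¹ (z1_Z L ζ.1 (tR α)) with hφ
    have h2 : ∀ c, ∑ b, z1_u α m u (tR α)⁻¹ b c •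
        opm_U α w L (s2E ρ) (fun j => z1_P α L m u b (v j)) =
        (fun i => z1_P α L m u c (v i)) + dlt α L (s2E ρ) (z1_P α L m u c φ) := by
      intro c
      funext i
      have h3 := congrArg (z1_P α L m u c) (congrFun h1 i)
      rw [Pi.sub_apply, map_sub, z1_P_dlt, opm_P_Uop, sub_eq_iff_eq_add'] at h3
      rw [Finset.sum_apply]
      exact h3
    have h4 := z1_lin m (u : Matrix (Fin m) (Fin m) K) (z1_u α m u (tR α)⁻¹) (z1_ut α m u)
      (fun b => opm_U α w L (s2E ρ) (fun j => z1_P α L m u b (v j))) _ h2 a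
    show Ub (q fun i => z1_P α L m u a (v i)) =
      ∑ b, (u : Matrix (Fin m) (Fin m) K) b a • q (fun i => z1_P α L m u b (v i))
    rw [hUb, ← h4, map_sum]
    refine Finset.sum_congr rfl fun b _ => ?_
    rw [map_smul, map_add, hqd, add_zero]
  · intro ξ hξ
    have h0 : ∀ a, ∃ y, q y = ξ a := fun a => Submodule.mkQ_surjective _ (ξ a)
    choose y hy using h0
    have h1 : ∀ a, ∃ ψ, dlt α L (s2E ρ) ψ =
        opm_U α w L (s2E ρ) (y a) - ∑ b, (u : Matrix (Fin m) (Fin m) K) b a • y b := by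
      intro a
      apply (Submodule.Quotient.mk_eq_zero (LinearMap.range (dlt α L (s2E ρ)))).1
      show q (opm_U α w L (s2E ρ) (y a) - ∑ b, (u : Matrix (Fin m) (Fin m) K) b a • y b) = 0
      have h2 := hξ a
      rw [← hy, hUb] at h2
      rw [map_sub, h2, map_sum, sub_eq_zero]
      refine Finset.sum_congr rfl fun b _ => ?_
      rw [map_smul, hy]
    choose ψ hψ using h1
    have h2 : ∀ i, ∃ v, ∀ a, z1_P α L m u a v = y a i := fun i =>
      z1_P_surj α L m u (fun a => y a i)
    choose v hv using h2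
    obtain ⟨φ, hφ⟩ := z1_P_surj α L m u (fun a => ∑ b, z1_u α m u (tR α)⁻¹ b a • ψ b)
    have h3 : opm_U α w L (z1_tau α L ρ m u) v - v = dlt α L (z1_tau α L ρ m u) φ := by
      funext i
      apply z1_P_inj α L m u
      intro a
      rw [Pi.sub_apply, map_sub, opm_P_Uop, z1_P_dlt, hφ, hv]
      have h4 : ∀ b, (fun j => z1_P α L m u b (v j)) = y b := by
        intro b
        funext j
        exact hv j b
      have h5 := z1_lin m (z1_u α m u (tR α)⁻¹) (u : Matrix (Fin m) (Fin m) K) (z1_tu α m u)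
        y _ (fun b => rfl) a
      have h6 : ∑ b, z1_u α m u (tR α)⁻¹ b a • opm_U α w L (s2E ρ) (y b) =
        ∑ b, z1_u α m u (tR α)⁻¹ b a • dlt α L (s2E ρ) (ψ b) + y a := by
        rw [← h5, ← Finset.sum_add_distrib]
        refine Finset.sum_congr rfl fun b _ => ?_
        rw [← smul_add, hψ, sub_add_cancel]
      have h7 := congrFun h6 i
      rw [Finset.sum_apply] at h7
      have h8 : ∑ b, z1_u α m u (tR α)⁻¹ b a •
          opm_U α w L (s2E ρ) (fun j => z1_P α L m u b (v j)) i =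
          ∑ b, (z1_u α m u (tR α)⁻¹ b a • opm_U α w L (s2E ρ) (y b)) i := by
        refine Finset.sum_congr rfl fun b _ => ?_
        rw [h4]
        rfl
      rw [h8, h7, Pi.add_apply, add_sub_cancel_right, map_sum]
      refine congrFun (Finset.sum_congr rfl fun b _ => ?_) i
      rw [map_smul]
    obtain ⟨Z, hZ, hZv⟩ := opm_ext α w L (z1_tau α L ρ m u) hw v φ h3
    let ζ : L → Matrix (Fin 2) (Fin m) K := fun l => Z (l : GR α) (z1_o L)
    have hζ : ∀ x y, ζ (x * y) = ζ x + z1_tau α L ρ m u x (ζ y) := by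
      intro x y
      show Z ((x * y : L) : GR α) (z1_o L) =
        Z (x : GR α) (z1_o L) + z1_tau α L ρ m u x (Z (y : GR α) (z1_o L))
      rw [← z1_at_o, Subgroup.coe_mul, hZ]
      rfl
    obtain ⟨θ, hθ⟩ := z1_shap L (z1_tau α L ρ m u) (fun g => Z g - z1_Z L ζ g) (by
      intro g h
      show Z (g * h) - z1_Z L ζ (g * h) = (Z g - z1_Z L ζ g) +
        indA L (z1_tau α L ρ m u) g (Z h - z1_Z L ζ h)
      rw [hZ, z1_Z_mul L (z1_tau α L ρ m u) ζ hζ, map_sub]
      abel) (by
      intro l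
      show Z (l : GR α) (z1_o L) - z1_Z L ζ (l : GR α) (z1_o L) = 0
      rw [z1_Z_o, sub_self])
    refine ⟨⟨ζ, hζ⟩, ?_⟩
    funext a
    rw [z1_R_apply, ← hq, ← hy, ← sub_eq_zero, ← map_sub]
    have h9 : (fun i => z1_P α L m u a (z1_Z L ζ (iR α (FreeGroup.of i)))) - y a =
        dlt α L (s2E ρ) (z1_P α L m u a (-θ)) := by
      funext i
      rw [Pi.sub_apply, ← z1_P_dlt, ← hv i a, ← map_sub]
      congr 1
      have h10 := hθ (iR α (FreeGroup.of i))
      rw [hZv] at h10
      show z1_Z L ζ (iR α (FreeGroup.of i)) - v i =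
        -θ - indA L (z1_tau α L ρ m u) (iR α (FreeGroup.of i)) (-θ)
      rw [map_neg, ← neg_sub, h10]
      abel
    show q ((fun i => z1_P α L m u a (z1_Z L ζ (iR α (FreeGroup.of i)))) - y a) = 0
    rw [h9, hqd]

end Mat

private theorem opm_z1 {ι : Type} [Finite ι] (α : MulAut (FreeGroup ι)) (w : ι → List ι)
    (hw : ∀ i, α (FreeGroup.of i) = (BG.pw (w i))⁻¹) (L : Subgroup (GR α)) (hfin : L.FiniteIndex)
    (hL : ∃ g ∈ L, nR α g = Multiplicative.ofAdd 1) (K : Type) [Field K] (ρ : L →* SL2 K)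
    (hV : ∀ v : Fin 2 → K, (∀ x : L, nR α x = 1 → s2E ρ x v = v) → v = 0)
    (Ub : Module.End K (Xq α L (s2E ρ)))
    (hUb : ∀ f, Ub ((LinearMap.range (dlt α L (s2E ρ))).mkQ f) =
      (LinearMap.range (dlt α L (s2E ρ))).mkQ (opm_U α w L (s2E ρ) f))
    (m : ℕ) (u : Matrix.GeneralLinearGroup (Fin m) K) :
    Module.Finite K (Zc ((nR α).comp L.subtype) m ρ u) ∧
    Module.finrank K (Zc ((nR α).comp L.subtype) m ρ u) =
      2 * m + Module.finrank K (Sol m Ub (u : Matrix (Fin m) (Fin m) K)) := by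
  have : Finite (GR α ⧸ L) := Subgroup.finite_quotient_of_finiteIndex
  have hk := opm_ker α L ρ m u w hw hV hL
  have hr := opm_range α L ρ m u w hw Ub hUb
  have h1 : Module.finrank K (LinearMap.ker (z1_R α L ρ m u)) = 2 * m := by
    rw [hk, LinearMap.finrank_range_of_inj (z1_D_inj α L ρ m u hV), Module.finrank_matrix]
    simp
  have h2 : Module.Finite K (LinearMap.ker (z1_R α L ρ m u)) := by
    rw [hk]
    infer_instance
  have h3 : Module.Finite K (Zc ((nR α).comp L.subtype) m ρ u) := by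
    have h4 := LinearMap.rank_range_add_rank_ker (z1_R α L ρ m u)
    rw [← Module.rank_lt_aleph0_iff, ← h4]
    exact Cardinal.add_lt_aleph0 (Module.rank_lt_aleph0 K _) (Module.rank_lt_aleph0 K _)
  refine ⟨h3, ?_⟩
  rw [← hr, ← h1, add_comm]
  exact (LinearMap.finrank_range_add_finrank_ker (z1_R α L ρ m u)).symm

/-- `opm_U` is onto, on all stable lattices. -/
private theorem opm_inv {ι : Type} (α : MulAut (FreeGroup ι)) (w : ι → List ι)
    (hw : ∀ i, α (FreeGroup.of i) = (BG.pw (w i))⁻¹) (L : Subgroup (GR α)) {K V : Type} [CommRing K]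
    [AddCommGroup V] [Module K V] (σ : L →* Module.End K V)
    (N : AddSubgroup ((GR α ⧸ L) → V)) (hN : ∀ g, ∀ φ ∈ N, indA L σ g φ ∈ N)
    (v : ι → (GR α ⧸ L) → V) (hv : ∀ i, v i ∈ N) :
    ∃ u : ι → (GR α ⧸ L) → V, (∀ i, u i ∈ N) ∧ opm_U α w L σ u = v := by
  obtain ⟨Z, hZ, hZi⟩ := itg_Z ((indA L σ).comp (iR α)) v
  have hZN : ∀ f, Z f ∈ N := itg_mem _ Z hZ N (fun f φ hφ => hN _ φ hφ)
    (fun i => by rw [hZi]; exact hv i)
  let Z' : FreeGroup ι → (GR α ⧸ L) → V := fun f => indA L σ (tR α) (Z (α⁻¹ f))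
  have hZ' : ∀ f g, Z' (f * g) = Z' f + ((indA L σ).comp (iR α)) f (Z' g) := by
    intro f g
    show indA L σ (tR α) (Z (α⁻¹ (f * g))) = indA L σ (tR α) (Z (α⁻¹ f)) +
      indA L σ (iR α f) (indA L σ (tR α) (Z (α⁻¹ g)))
    rw [map_mul, hZ, map_add]
    congr 1
    show indA L σ (tR α) (indA L σ (iR α (α⁻¹ f)) (Z (α⁻¹ g))) = _
    rw [← Module.End.mul_apply, ← map_mul, ← Module.End.mul_apply, ← map_mul, tR_mul,
      MulAut.apply_inv_self]
  refine ⟨fun i => Z' (FreeGroup.of i), fun i => hN _ _ (hZN _), ?_⟩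
  funext i
  rw [opm_Uop α w L σ hw Z' hZ' i]
  show indA L σ (tR α)⁻¹ (indA L σ (tR α) (Z (α⁻¹ (α (FreeGroup.of i))))) = v i
  rw [MulAut.inv_apply_self, hZi, ← Module.End.mul_apply, ← map_mul, inv_mul_cancel, map_one]
  rfl

private theorem opm_itg {ι : Type} [Finite ι] (α : MulAut (FreeGroup ι)) (w : ι → List ι)
    (hw : ∀ i, α (FreeGroup.of i) = (BG.pw (w i))⁻¹) (L : Subgroup (GR α)) (hL : L.FiniteIndex)
    (K : Type) [Field K] (ρ : L →* SL2 K) (Ub : Module.End K (Xq α L (s2E ρ)))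
    (hUb : ∀ f, Ub ((LinearMap.range (dlt α L (s2E ρ))).mkQ f) =
      (LinearMap.range (dlt α L (s2E ρ))).mkQ (opm_U α w L (s2E ρ) f)) :
    ¬ Ub.HasEigenvalue 0 ∧
    ((∀ x i j, IsIntegral ℤ ((ρ x).val i j)) → ∀ τ, Ub.HasEigenvalue τ →
      IsIntegral ℤ τ ∧ IsIntegral ℤ τ⁻¹) := by
  classical
  cases nonempty_fintype ι
  have hfq : Finite (GR α ⧸ L) := inferInstance
  cases nonempty_fintype (GR α ⧸ L)
  have hsurj : Function.Surjective (opm_U α w L (s2E ρ)) := by
    intro v
    obtain ⟨u, _, hu⟩ := opm_inv α w hw L (s2E ρ) ⊤ (fun _ _ _ => AddSubgroup.mem_top _) v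
      (fun _ => AddSubgroup.mem_top _)
    exact ⟨u, hu⟩
  have hinj : Function.Injective (opm_U α w L (s2E ρ)) :=
    LinearMap.injective_iff_surjective.2 hsurj
  have hbs : Function.Surjective Ub := by
    intro y
    obtain ⟨v, rfl⟩ := Submodule.mkQ_surjective _ y
    obtain ⟨u, rfl⟩ := hsurj v
    exact ⟨_, hUb u⟩
  have hbi : Function.Injective Ub := LinearMap.injective_iff_surjective.2 hbs
  have hne : ∀ τ, Ub.HasEigenvalue τ → τ ≠ 0 := by
    rintro τ hτ rfl
    obtain ⟨u, hu⟩ := hτ.exists_hasEigenvector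
    have h1 := hu.apply_eq_smul
    rw [zero_smul] at h1
    exact hu.2 (hbi (by rw [h1, map_zero]))
  refine ⟨fun h => hne 0 h rfl, ?_⟩
  intro hρ τ hτ
  let b : Module.Basis (Σ _ : ι, Σ _ : GR α ⧸ L, Fin 2) K (ι → (GR α ⧸ L) → Fin 2 → K) :=
    Pi.basis fun _ => Pi.basis fun _ => Pi.basisFun K (Fin 2)
  have hb : ∀ v i x c, b.repr v ⟨i, x, c⟩ = v i x c := by
    intro v i x c
    show (Pi.basis fun _ => Pi.basis fun _ => Pi.basisFun K (Fin 2)).repr v ⟨i, x, c⟩ = _
    rw [Pi.basis_repr, Pi.basis_repr, Pi.basisFun_repr]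
  -- integral functions
  let N : AddSubgroup ((GR α ⧸ L) → Fin 2 → K) :=
    { carrier := {φ | ∀ x c, IsIntegral ℤ (φ x c)}
      add_mem' := fun h h' x c => (h x c).add (h' x c)
      zero_mem' := fun x c => isIntegral_zero
      neg_mem' := fun h x c => (h x c).neg }
  have hN : ∀ g, ∀ φ ∈ N, indA L (s2E ρ) g φ ∈ N := by
    intro g φ hφ x c
    rw [indA_apply]
    show IsIntegral ℤ (Matrix.toLin' (ρ ⟨_, sec_mem L g x⟩).val (φ (g⁻¹ • x)) c)
    rw [Matrix.toLin'_apply, Matrix.mulVec, dotProduct]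
    exact IsIntegral.sum _ fun j _ => (hρ _ _ _).mul (hφ _ _)
  have hbN : ∀ j i, b j i ∈ N := by
    intro j i x c
    have h1 : b j i x c = b.repr (b j) ⟨i, x, c⟩ := (hb _ _ _ _).symm
    rw [h1, Module.Basis.repr_self, Finsupp.single_apply]
    split_ifs
    · exact isIntegral_one
    · exact isIntegral_zero
  have hUN : ∀ v : ι → (GR α ⧸ L) → Fin 2 → K, (∀ i, v i ∈ N) →
      ∀ i, opm_U α w L (s2E ρ) v i ∈ N := by
    intro v hv i
    rw [opm_U_apply]
    exact AddSubgroup.neg_mem _ (AddSubgroup.sum_mem _ fun p _ => hN _ _ (hv _))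
  constructor
  · refine itg_int b (opm_U α w L (s2E ρ)) ?_ _ Ub hUb τ hτ
    rintro ⟨i, x, c⟩ j
    rw [hb]
    exact hUN _ (hbN j) i x c
  · -- the inverse
    let E := LinearEquiv.ofBijective (opm_U α w L (s2E ρ)) ⟨hinj, hsurj⟩
    let Eb := LinearEquiv.ofBijective Ub ⟨hbi, hbs⟩
    have hE : ∀ v, opm_U α w L (s2E ρ) (E.symm v) = v := fun v => E.apply_symm_apply v
    have hEb : ∀ y, Ub (Eb.symm y) = y := fun y => Eb.apply_symm_apply y
    refine itg_int b (E.symm : Module.End K (ι → (GR α ⧸ L) → Fin 2 → K)) ?_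
      (LinearMap.range (dlt α L (s2E ρ))) Eb.symm.toLinearMap ?_ τ⁻¹ ?_
    · rintro ⟨i, x, c⟩ j
      rw [hb]
      obtain ⟨u, huN, hu⟩ := opm_inv α w hw L (s2E ρ) N hN (b j) (hbN j)
      have h1 : (E.symm : Module.End K (ι → (GR α ⧸ L) → Fin 2 → K)) (b j) = u := by
        apply hinj
        rw [hu]
        exact hE _
      rw [h1]
      exact huN i x c
    · intro v
      apply hbi
      show Ub (Eb.symm (Submodule.mkQ _ v)) = Ub (Submodule.mkQ _ (E.symm v))
      rw [hEb, hUb, hE]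
    · obtain ⟨u, hu⟩ := hτ.exists_hasEigenvector
      have h1 := hu.apply_eq_smul
      have h2 : Eb.symm.toLinearMap u = τ⁻¹ • u := by
        apply hbi
        show Ub (Eb.symm u) = Ub (τ⁻¹ • u)
        rw [hEb, map_smul, h1, smul_smul, inv_mul_cancel₀ (hne τ hτ), one_smul]
      exact Module.End.hasEigenvalue_of_hasEigenvector
        ⟨Module.End.mem_eigenspace_iff.2 h2, hu.2⟩

open Module.Basis in
/-- the trace and invariant subspaces -/
private theorem opm_add (K V : Type) [Field K] [AddCommGroup V] [Module K V]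
    [FiniteDimensional K V] (W : Submodule K V) (e : V →ₗ[K] V) (he : W ≤ W.comap e) :
    LinearMap.trace K V e = LinearMap.trace K W (e.restrict he) +
      LinearMap.trace K (V ⧸ W) (W.mapQ W e he) := by
  classical
  let m := Module.Free.ChooseBasisIndex K W
  let bW : Module.Basis m K W := Module.Free.chooseBasis K W
  let n := Module.Free.ChooseBasisIndex K (V ⧸ W)
  let bQ : Module.Basis n K (V ⧸ W) := Module.Free.chooseBasis K (V ⧸ W)
  rw [LinearMap.trace_eq_matrix_trace K (sumQuot bW bQ), LinearMap.trace_eq_matrix_trace K bW,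
    LinearMap.trace_eq_matrix_trace K bQ]
  simp only [Matrix.trace, Matrix.diag_apply, Fintype.sum_sum_type]
  congr 1
  · apply Finset.sum_congr rfl
    intro i _
    rw [LinearMap.toMatrix_apply, LinearMap.toMatrix_apply, sumQuot_inl]
    exact sumQuot_repr_inl_of_mem bW bQ _ (he (bW i).2) i
  · apply Finset.sum_congr rfl
    intro j _
    rw [LinearMap.toMatrix_apply, LinearMap.toMatrix_apply, sumQuot_repr_inr,
      ← sumQuot_inr bW bQ j, W.mapQ_apply]
    rfl

private theorem opm_trq {ι : Type} [Fintype ι] (α : MulAut (FreeGroup ι)) (w : ι → List ι)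
    (L : Subgroup (GR α)) (hL : L.FiniteIndex) (K V : Type) [Field K]
    [AddCommGroup V] [Module K V] [FiniteDimensional K V] (σ : L →* Module.End K V)
    (hinj : Function.Injective (dlt α L σ))
    (hcomm : ∀ φ, opm_U α w L σ (dlt α L σ φ) = dlt α L σ (indA L σ (tR α)⁻¹ φ)) :
    Module.finrank K (Xq α L σ) + L.index * Module.finrank K V =
      Fintype.card ι * (L.index * Module.finrank K V) ∧
    ∀ Ub : Module.End K (Xq α L σ), (∀ f, Ub ((LinearMap.range (dlt α L σ)).mkQ f) =
      (LinearMap.range (dlt α L σ)).mkQ (opm_U α w L σ f)) →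
    LinearMap.trace K _ Ub + LinearMap.trace K _ (indA L σ (tR α)⁻¹) =
      LinearMap.trace K _ (opm_U α w L σ) := by
  classical
  have : Finite (GR α ⧸ L) := Subgroup.finite_quotient_of_finiteIndex
  let _ : Fintype (GR α ⧸ L) := Fintype.ofFinite _
  have hW : Module.finrank K ((GR α ⧸ L) → V) = L.index * Module.finrank K V := by
    rw [Module.finrank_pi_fintype, Finset.sum_const, Finset.card_univ, smul_eq_mul,
      ← Nat.card_eq_fintype_card]
    rfl
  have hM : Module.finrank K (ι → (GR α ⧸ L) → V) =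
      Fintype.card ι * (L.index * Module.finrank K V) := by
    rw [Module.finrank_pi_fintype, Finset.sum_const, Finset.card_univ, smul_eq_mul, hW]
  have hR : Module.finrank K (LinearMap.range (dlt α L σ)) =
      L.index * Module.finrank K V := by
    rw [LinearMap.finrank_range_of_inj hinj, hW]
  refine ⟨?_, ?_⟩
  · rw [← hM, ← hR]
    exact Submodule.finrank_quotient_add_finrank _
  · intro Ub hUb
    have he : LinearMap.range (dlt α L σ) ≤
        (LinearMap.range (dlt α L σ)).comap (opm_U α w L σ) := by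
      rintro _ ⟨φ, rfl⟩
      rw [Submodule.mem_comap, hcomm]
      exact LinearMap.mem_range_self _ _
    have hQ : (LinearMap.range (dlt α L σ)).mapQ (LinearMap.range (dlt α L σ))
        (opm_U α w L σ) he = Ub := by
      apply Submodule.linearMap_qext
      apply LinearMap.ext
      intro v
      rw [LinearMap.comp_apply, LinearMap.comp_apply, Submodule.mkQ_apply, Submodule.mapQ_apply]
      exact (hUb v).symm
    have hT := opm_add K _ (LinearMap.range (dlt α L σ)) (opm_U α w L σ) he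
    rw [hQ] at hT
    rw [hT, add_comm]
    congr 1
    let E : ((GR α ⧸ L) → V) ≃ₗ[K] LinearMap.range (dlt α L σ) :=
      LinearEquiv.ofInjective (dlt α L σ) hinj
    have hc : (opm_U α w L σ).restrict he = E.conj (indA L σ (tR α)⁻¹) := by
      apply LinearMap.ext
      intro x
      obtain ⟨φ, rfl⟩ := E.surjective x
      rw [LinearEquiv.conj_apply_apply, LinearEquiv.symm_apply_apply]
      apply Subtype.ext
      rw [LinearMap.coe_restrict_apply]
      exact hcomm φ
    rw [hc, LinearMap.trace_conj']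

section LA

variable {K X : Type} [Field K] [AddCommGroup X] [Module K X] [FiniteDimensional K X]

omit [FiniteDimensional K X] in
private theorem opm_la_sub (T : Module.End K X) (τ : K) :
    T - algebraMap K (Module.End K X) τ = T - τ • (1 : Module.End K X) := by
  rw [Algebra.algebraMap_eq_smul_one]

omit [FiniteDimensional K X] in
private theorem opm_la_ker (T : Module.End K X) (τ : K) (m : ℕ) :
    LinearMap.ker ((T - algebraMap K (Module.End K X) τ) ^ m) = T.genEigenspace τ m := by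
  rw [opm_la_sub, Module.End.genEigenspace_nat]

private theorem opm_la_ker_le (T : Module.End K X) (τ : K) (m : ℕ) :
    Module.finrank K (LinearMap.ker ((T - algebraMap K (Module.End K X) τ) ^ m)) ≤
      T.charpoly.rootMultiplicity τ := by
  rw [opm_la_ker]
  exact LinearMap.finrank_genEigenspace_le T τ m

private theorem opm_la_ker_eq (T : Module.End K X) (τ : K) :
    Module.finrank K (LinearMap.ker ((T - algebraMap K (Module.End K X) τ) ^
      (T.charpoly.rootMultiplicity τ))) = T.charpoly.rootMultiplicity τ := by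
  apply le_antisymm (opm_la_ker_le T τ _)
  have h1 : T.maxGenEigenspace τ ≤ LinearMap.ker ((T - algebraMap K (Module.End K X) τ) ^
      (T.charpoly.rootMultiplicity τ)) := by
    have hm : Set.MapsTo (T - algebraMap K (Module.End K X) τ)
        (T.maxGenEigenspace τ) (T.maxGenEigenspace τ) :=
      Module.End.mapsTo_maxGenEigenspace_of_comm
        (Algebra.mul_sub_algebraMap_commutes T τ) τ
    have hn := Module.End.isNilpotent_restrict_maxGenEigenspace_sub_algebraMap T τ hm
    have h2 : ((T - algebraMap K (Module.End K X) τ).restrict hm) ^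
        (Module.finrank K (T.maxGenEigenspace τ)) = 0 := by
      have h3 := LinearMap.aeval_self_charpoly ((T - algebraMap K (Module.End K X) τ).restrict hm)
      rw [IsNilpotent.charpoly_eq_X_pow_finrank hn, Polynomial.aeval_X_pow] at h3
      exact h3
    intro x hx
    rw [LinearMap.mem_ker, ← LinearMap.finrank_maxGenEigenspace_eq]
    have h5 := Module.End.pow_restrict (f' := T - algebraMap K (Module.End K X) τ)
      (p := T.maxGenEigenspace τ) (Module.finrank K (T.maxGenEigenspace τ)) (fun y hy => hm hy)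
    have h6 := h5.symm.trans h2
    have h7 := DFunLike.congr_fun h6 (⟨x, hx⟩ : T.maxGenEigenspace τ)
    exact congrArg Subtype.val h7
  calc T.charpoly.rootMultiplicity τ = Module.finrank K (T.maxGenEigenspace τ) :=
        (LinearMap.finrank_maxGenEigenspace_eq T τ).symm
    _ ≤ _ := Submodule.finrank_mono h1

private theorem opm_la_trace (T : Module.End K X) :
    T.charpoly.nextCoeff = -LinearMap.trace K X T := by
  have b := Module.Free.chooseBasis K X
  rw [LinearMap.trace_eq_matrix_trace K b, Matrix.trace_eq_neg_charpoly_nextCoeff, neg_neg,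
    LinearMap.charpoly_toMatrix]

end LA

private theorem opm_la_tr {L K : Type} [Group L] [Field K] (ρ : L →* SL2 K) (x : L) :
    LinearMap.trace K (Fin 2 → K) (s2E ρ x) = tr (ρ x) := by
  show LinearMap.trace K (Fin 2 → K) (Matrix.toLin' (ρ x).val) = (ρ x).val.trace
  exact Matrix.trace_toLin'_eq _

section

variable {ι : Type} (α : MulAut (FreeGroup ι)) (w : ι → List ι) (L : Subgroup (GR α))

/-- the element of a position -/
private def opm_g (i : ι) (p : ℕ) : GR α := (tR α)⁻¹ * (iR α (BG.pw ((w i).drop p)))⁻¹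

/-- the condition on a triple -/
private def opm_P (i : ι) (x : GR α ⧸ L) (p : Fin (w i).length) : Prop :=
  (w i).get p = i ∧ (opm_g α w i p)⁻¹ • x = x

open Classical in
/-- the trace of an induced operator -/
private theorem opm_ind [Fintype (GR α ⧸ L)] {K V : Type} [Field K] [AddCommGroup V] [Module K V]
    [FiniteDimensional K V] (σ : L →* Module.End K V) (g : GR α) :
    LinearMap.trace K _ (indA L σ g) = ∑ x : GR α ⧸ L,
      if g⁻¹ • x = x then LinearMap.trace K V (σ ⟨_, sec_mem L g x⟩) else 0 := by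
  let b := Module.Free.chooseBasis K V
  rw [LinearMap.trace_eq_matrix_trace K (Pi.basis (fun _ : GR α ⧸ L => b))]
  rw [Matrix.trace, Fintype.sum_sigma]
  refine Finset.sum_congr rfl fun x _ => ?_
  by_cases h2 : g⁻¹ • x = x
  · rw [if_pos h2, LinearMap.trace_eq_matrix_trace K b, Matrix.trace]
    refine Finset.sum_congr rfl fun a _ => ?_
    rw [Matrix.diag_apply, Matrix.diag_apply, LinearMap.toMatrix_apply, LinearMap.toMatrix_apply,
      Pi.basis_repr, Pi.basis_apply, indA_apply]
    have h3 : (Pi.single x (b a) : (GR α ⧸ L) → V) (g⁻¹ • x) = b a := by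
      rw [h2, Pi.single_eq_same]
    rw [h3]
  · rw [if_neg h2]
    refine Finset.sum_eq_zero fun a _ => ?_
    rw [Matrix.diag_apply, LinearMap.toMatrix_apply, Pi.basis_repr, Pi.basis_apply, indA_apply]
    have h3 : (Pi.single x (b a) : (GR α ⧸ L) → V) (g⁻¹ • x) = 0 := Pi.single_eq_of_ne h2 _
    rw [h3, map_zero, map_zero]
    rfl

open Classical in
/-- the trace of `opm_U` -/
private theorem opm_trU [Fintype ι] [Fintype (GR α ⧸ L)] {K V : Type} [Field K] [AddCommGroup V]
    [Module K V] [FiniteDimensional K V] (σ : L →* Module.End K V) :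
    LinearMap.trace K _ (opm_U α w L σ) = - ∑ i, ∑ x : GR α ⧸ L, ∑ p : Fin (w i).length,
      if opm_P α w L i x p then
        LinearMap.trace K V (σ ⟨_, sec_mem L (opm_g α w i p) x⟩) else 0 := by
  let b := Module.Free.chooseBasis K V
  rw [LinearMap.trace_eq_matrix_trace K
    (Pi.basis (fun _ : ι => Pi.basis (fun _ : GR α ⧸ L => b)))]
  rw [Matrix.trace, Fintype.sum_sigma, ← Finset.sum_neg_distrib]
  refine Finset.sum_congr rfl fun i _ => ?_
  rw [Fintype.sum_sigma, ← Finset.sum_neg_distrib]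
  refine Finset.sum_congr rfl fun x _ => ?_
  have h0 : ∀ p : Fin (w i).length, (if opm_P α w L i x p then
        LinearMap.trace K V (σ ⟨_, sec_mem L (opm_g α w i p) x⟩) else 0) =
      ∑ a, if opm_P α w L i x p then
        b.repr (σ ⟨_, sec_mem L (opm_g α w i p) x⟩ (b a)) a else 0 := by
    intro p
    by_cases h : opm_P α w L i x p
    · simp only [if_pos h]
      rw [LinearMap.trace_eq_matrix_trace K b, Matrix.trace]
      refine Finset.sum_congr rfl fun a _ => ?_
      rw [Matrix.diag_apply, LinearMap.toMatrix_apply]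
    · simp only [if_neg h, Finset.sum_const_zero]
  rw [Finset.sum_congr rfl fun p _ => h0 p, Finset.sum_comm, ← Finset.sum_neg_distrib]
  refine Finset.sum_congr rfl fun a _ => ?_
  rw [Matrix.diag_apply, LinearMap.toMatrix_apply, Pi.basis_repr, Pi.basis_apply,
    Pi.basis_repr, Pi.basis_apply]
  have h1 : (opm_U α w L σ (Pi.single i (Pi.single x (b a)))) i x =
      - ∑ p : Fin (w i).length, if opm_P α w L i x p then
        σ ⟨_, sec_mem L (opm_g α w i p) x⟩ (b a) else 0 := by
    rw [opm_U_apply, Pi.neg_apply, Finset.sum_apply]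
    congr 1
    refine Finset.sum_congr rfl fun p _ => ?_
    rw [indA_apply]
    by_cases h1 : (w i).get p = i
    · have h4 : (Pi.single i (Pi.single x (b a)) : ι → (GR α ⧸ L) → V) ((w i).get p) =
          Pi.single x (b a) := by
        rw [h1, Pi.single_eq_same]
      rw [h4]
      by_cases h2 : (opm_g α w i p)⁻¹ • x = x
      · rw [if_pos (show opm_P α w L i x p from ⟨h1, h2⟩)]
        have h3 : (Pi.single x (b a) : (GR α ⧸ L) → V)
            (((tR α)⁻¹ * (iR α (BG.pw ((w i).drop p)))⁻¹)⁻¹ • x) = b a := by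
          rw [show ((tR α)⁻¹ * (iR α (BG.pw ((w i).drop p)))⁻¹)⁻¹ • x = x from h2,
            Pi.single_eq_same]
        rw [h3]
        rfl
      · rw [if_neg (fun h : opm_P α w L i x p => h2 h.2)]
        have h3 : (Pi.single x (b a) : (GR α ⧸ L) → V)
            (((tR α)⁻¹ * (iR α (BG.pw ((w i).drop p)))⁻¹)⁻¹ • x) = 0 := Pi.single_eq_of_ne h2 _
        rw [h3, map_zero]
    · rw [if_neg (fun h : opm_P α w L i x p => h1 h.1), Pi.single_eq_of_ne h1, Pi.zero_apply,
        map_zero]
  rw [h1, map_neg, map_sum, Finsupp.neg_apply, Finsupp.finsetSum_apply]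
  congr 1
  refine Finset.sum_congr rfl fun p _ => ?_
  split_ifs
  · rfl
  · rw [map_zero]
    rfl

end

private theorem opm_tf {ι : Type} [Finite ι] (α : MulAut (FreeGroup ι)) (w : ι → List ι)
    (L : Subgroup (GR α)) (hL : L.FiniteIndex) (i₁ : ι) (u₁ v₁ : List ι)
    (hw₁ : w i₁ = u₁ ++ i₁ :: v₁) (hc : (tR α)⁻¹ * (iR α (BG.pw (i₁ :: v₁)))⁻¹ ∈ L) :
    ∃ M : ℤ, M ≠ 0 ∧ ∀ (K V : Type) [Field K] [AddCommGroup V] [Module K V]
      [FiniteDimensional K V] (σ : L →* Module.End K V) (T₀ : K),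
      (∀ (y : GR α) (i : ι) (u u' : List ι), w i = u ++ i :: u' →
        ∀ h : y⁻¹ * ((tR α)⁻¹ * (iR α (BG.pw (i :: u')))⁻¹) * y ∈ L,
          LinearMap.trace K V (σ ⟨_, h⟩) = T₀) →
      (∀ (y : GR α) (h : y⁻¹ * (tR α)⁻¹ * y ∈ L), LinearMap.trace K V (σ ⟨_, h⟩) = T₀) →
      LinearMap.trace K _ (opm_U α w L σ) = M * T₀ + LinearMap.trace K _ (indA L σ (tR α)⁻¹) := by
  classical
  have : Finite (GR α ⧸ L) := Subgroup.finite_quotient_of_finiteIndex
  let _ : Fintype (GR α ⧸ L) := Fintype.ofFinite _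
  let _ : Fintype ι := Fintype.ofFinite _
  let A : Finset (Σ i : ι, Σ _ : GR α ⧸ L, Fin (w i).length) :=
    Finset.univ.filter fun z => opm_P α w L z.1 z.2.1 z.2.2
  let B : Finset (GR α ⧸ L) := Finset.univ.filter fun x => (tR α) • x = x
  have hlen₁ : u₁.length < (w i₁).length := by
    rw [hw₁]
    simp
  let z₁ : Σ i : ι, Σ _ : GR α ⧸ L, Fin (w i).length :=
    ⟨i₁, ((1 : GR α) : GR α ⧸ L), ⟨u₁.length, hlen₁⟩⟩
  have hz₁ : z₁ ∈ A := by
    refine Finset.mem_filter.2 ⟨Finset.mem_univ _, ?_, ?_⟩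
    · show (w i₁).get ⟨u₁.length, hlen₁⟩ = i₁
      simp [hw₁]
    · show (opm_g α w i₁ u₁.length)⁻¹ • ((1 : GR α) : GR α ⧸ L) = ((1 : GR α) : GR α ⧸ L)
      have h1 : opm_g α w i₁ u₁.length = (tR α)⁻¹ * (iR α (BG.pw (i₁ :: v₁)))⁻¹ := by
        unfold opm_g
        rw [hw₁, List.drop_left']
        rfl
      rw [h1]
      have h2 : (((tR α)⁻¹ * (iR α (BG.pw (i₁ :: v₁)))⁻¹)⁻¹ • ((1 : GR α) : GR α ⧸ L)) =
        ((((tR α)⁻¹ * (iR α (BG.pw (i₁ :: v₁)))⁻¹)⁻¹ * 1 : GR α) : GR α ⧸ L) := rfl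
      rw [h2]
      apply QuotientGroup.eq.2
      simpa using hc
  have hcard : 0 < A.card := Finset.card_pos.2 ⟨z₁, hz₁⟩
  refine ⟨-((A.card + B.card : ℕ) : ℤ), by omega, ?_⟩
  intro K V _ _ _ _ σ T₀ hT hT'
  have hsec : ∀ (g : GR α) (x : GR α ⧸ L), g⁻¹ • x = x →
      (sec L x)⁻¹ * g * sec L (g⁻¹ • x) = (sec L x)⁻¹ * g * sec L x := by
    intro g x h
    rw [h]
  have hU : LinearMap.trace K _ (opm_U α w L σ) = -(A.card * T₀) := by
    rw [opm_trU]
    have h6 : ∀ (i : ι) (x : GR α ⧸ L) (p : Fin (w i).length), (if opm_P α w L i x p then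
        LinearMap.trace K V (σ ⟨_, sec_mem L (opm_g α w i p) x⟩) else 0) =
        if opm_P α w L i x p then T₀ else 0 := by
      intro i x p
      by_cases h : opm_P α w L i x p
      · rw [if_pos h, if_pos h]
        have h7 := hsec (opm_g α w i p) x h.2
        have hd : (w i).drop p = i :: (w i).drop (p + 1) := by
          rw [List.drop_eq_getElem_cons p.2]
          congr 1
          exact h.1
        have hg : opm_g α w i p = (tR α)⁻¹ * (iR α (BG.pw (i :: (w i).drop (p + 1))))⁻¹ := by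
          unfold opm_g
          rw [hd]
        have h8 : (sec L x)⁻¹ * ((tR α)⁻¹ * (iR α (BG.pw (i :: (w i).drop (p + 1))))⁻¹) *
            sec L x ∈ L := by
          have h9 := sec_mem L (opm_g α w i p) x
          rw [h7, hg] at h9
          exact h9
        have h10 := hT (sec L x) i ((w i).take p) ((w i).drop (p + 1)) (by
          conv_lhs => rw [← List.take_append_drop p (w i), hd]) h8
        rw [← h10]
        congr 2
        exact Subtype.ext (h7.trans (by rw [hg]))
      · rw [if_neg h, if_neg h]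
    rw [Finset.sum_congr rfl fun i _ => Finset.sum_congr rfl fun x _ =>
      Finset.sum_congr rfl fun p _ => h6 i x p]
    have h11 : (∑ i : ι, ∑ x : GR α ⧸ L, ∑ p : Fin (w i).length,
        if opm_P α w L i x p then T₀ else 0) =
        ∑ z : (Σ i : ι, Σ _ : GR α ⧸ L, Fin (w i).length),
          if opm_P α w L z.1 z.2.1 z.2.2 then T₀ else 0 := by
      rw [Fintype.sum_sigma]
      refine Finset.sum_congr rfl fun i _ => ?_
      rw [Fintype.sum_sigma]
    rw [h11, ← Finset.sum_filter, Finset.sum_const, nsmul_eq_mul]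
  have hI : LinearMap.trace K _ (indA L σ (tR α)⁻¹) = B.card * T₀ := by
    rw [opm_ind]
    have h6 : ∀ x : GR α ⧸ L, (if ((tR α)⁻¹)⁻¹ • x = x then
        LinearMap.trace K V (σ ⟨_, sec_mem L (tR α)⁻¹ x⟩) else 0) =
        if (tR α) • x = x then T₀ else 0 := by
      intro x
      by_cases h : ((tR α)⁻¹)⁻¹ • x = x
      · have h' : (tR α) • x = x := by
          rwa [inv_inv] at h
        rw [if_pos h, if_pos h']
        have h7 := hsec (tR α)⁻¹ x h
        have h8 : (sec L x)⁻¹ * (tR α)⁻¹ * sec L x ∈ L := by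
          have h9 := sec_mem L (tR α)⁻¹ x
          rw [h7] at h9
          exact h9
        have h10 := hT' (sec L x) h8
        rw [← h10]
        congr 2
        exact Subtype.ext h7
      · have h' : ¬ (tR α) • x = x := by
          rwa [inv_inv] at h
        rw [if_neg h, if_neg h']
    rw [Finset.sum_congr rfl fun x _ => h6 x, ← Finset.sum_filter, Finset.sum_const,
      nsmul_eq_mul]
  rw [hU, hI]
  push_cast
  ring

private theorem opm_tr {L K : Type} [Group L] [Field K] (ρ : L →* SL2 K) (x : L) :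
    LinearMap.trace K (Fin 2 → K) (s2E ρ x) = tr (ρ x) := by
  show LinearMap.trace K (Fin 2 → K) (Matrix.toLin' (ρ x).val) = (ρ x).val.trace
  exact Matrix.trace_toLin'_eq _

set_option linter.unusedVariables false in
/-- PIECE CG opm -/
theorem p_opm (hinj : A_inj) (htrq : A_trq) (hz1 : A_z1) (hjor : A_jor) : A_opm := by
  intro ι _ α w hw L hL i₁ u₁ v₁ hw₁ hc
  have := Fintype.ofFinite ι
  obtain ⟨M, hM, hM'⟩ := opm_tf α w L hL i₁ u₁ v₁ hw₁ hc
  refine ⟨Fintype.card ι * (L.index * 2) - L.index * 2, M, hM, ?_⟩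
  intro K _ ρ hinv htr htr0
  have hg : ∃ g ∈ L, nR α g = Multiplicative.ofAdd 1 := by
    refine ⟨((tR α)⁻¹ * (iR α (BG.pw (i₁ :: v₁)))⁻¹)⁻¹, L.inv_mem hc, ?_⟩
    rw [map_inv, map_mul, map_inv, map_inv, nR_tR, nR_iR, inv_one, mul_one, inv_inv]
  have hU := opm_dltU α w L (s2E ρ) hw
  obtain ⟨Ub, hUb⟩ : ∃ Ub : Module.End K (Xq α L (s2E ρ)),
      ∀ f, Ub ((LinearMap.range (dlt α L (s2E ρ))).mkQ f) =
        (LinearMap.range (dlt α L (s2E ρ))).mkQ (opm_U α w L (s2E ρ) f) := by
    refine ⟨(LinearMap.range (dlt α L (s2E ρ))).mapQ (LinearMap.range (dlt α L (s2E ρ)))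
      (opm_U α w L (s2E ρ)) ?_, ?_⟩
    · rintro x ⟨φ, rfl⟩
      rw [Submodule.mem_comap, hU φ]
      exact LinearMap.mem_range_self _ _
    · intro v
      rfl
  have hi := hinj ι α L hg K (Fin 2 → K) (s2E ρ) hinv
  obtain ⟨hdim, htr'⟩ := opm_trq α w L hL K (Fin 2 → K) (s2E ρ) hi hU
  have hfin : Finite (GR α ⧸ L) := by
    have := hL
    infer_instance
  have hfd : FiniteDimensional K (Xq α L (s2E ρ)) := by
    infer_instance
  have hz := opm_z1 α w hw L hL hg K ρ hinv Ub hUb
  have hT := htr' Ub hUb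
  have hT' := hM' K (Fin 2 → K) (s2E ρ) (tr (ρ ⟨_, hc⟩)) (fun y i u v hi h => by
    rw [opm_tr]
    exact htr y i u v hi h) (fun y h => by
    rw [opm_tr]
    exact htr0 y h)
  obtain ⟨hne, hint⟩ := opm_itg α w hw L hL K ρ Ub hUb
  refine ⟨Ub.charpoly, ?_⟩
  constructor
  · exact LinearMap.charpoly_monic Ub
  · rw [LinearMap.charpoly_natDegree]
    rw [Module.finrank_fin_fun] at hdim
    omega
  · rw [opm_la_trace]
    have h : LinearMap.trace K (Xq α L (s2E ρ)) Ub = (M : K) * tr (ρ ⟨_, hc⟩) := by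
      rw [hT'] at hT
      exact add_right_cancel hT
    rw [h]
  · intro τ m
    rw [(hz m (jorG m τ)).2, jorG_val, hjor]
    exact Nat.add_le_add_left (opm_la_ker_le Ub (τ : K) m) _
  · intro τ
    rw [(hz _ (jorG _ τ)).2, jorG_val, hjor, opm_la_ker_eq]
    omega
  · intro τ m
    exact (hz m (jorG m τ)).1
  · intro h
    exact hne ((Module.End.hasEigenvalue_iff_isRoot_charpoly Ub 0).2 h)
  · intro hρ τ hτ
    exact hint hρ τ ((Module.End.hasEigenvalue_iff_isRoot_charpoly Ub τ).2 hτ)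

end

end Pool.Agent.F8.CG
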