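import Pool.Agent.Lib.MP_305fdd_al.F8.CG.StmA3

/-!
# MP_305fdd_al, congruence subgroups, block A: removing the sign

Two representations with the same traces on a subgroup `H` of index two, and with the same non-zero trace at one element outside of `H`, have the same traces.
-/

set_option autoImplicit false

namespace Pool.Agent.F8.CG

open Pool.Agent.Lib.MP_305fdd_al Pool.Agent.F8

private abbrev sgn_M (K : Type) : Type := Matrix (Fin 2) (Fin 2) K

private lemma sgn_det {K : Type} [Field K] (X Y : sgn_M K) (hX : X.det = 1) (hY : Y.det = 1) :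
    (X * Y - Y * X).det = 4 + X.trace * Y.trace * (X * Y).trace - X.trace ^ 2 - Y.trace ^ 2
      - (X * Y).trace ^ 2 := by
  have h : (X * Y - Y * X).det = 4 * X.det * Y.det + X.trace * Y.trace * (X * Y).trace
      - X.trace ^ 2 * Y.det - Y.trace ^ 2 * X.det - (X * Y).trace ^ 2 := by
    simp only [Matrix.det_fin_two, Matrix.trace_fin_two, Matrix.sub_apply, Matrix.mul_apply,
      Fin.sum_univ_two]
    ring
  rw [h, hX, hY]
  ring

private lemma sgn_com {K : Type} [Field K] (g h : SL2 K) :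
    (g.val * h.val - h.val * g.val).det = 2 - tr (g * h * g⁻¹ * h⁻¹) := by
  have hg : g.val.det = 1 := g.2
  have hh : h.val.det = 1 := h.2
  have h1 : (g.val * h.val - h.val * g.val).det = 2 * g.val.det * h.val.det -
      (g.val * h.val * g.val.adjugate * h.val.adjugate).trace := by
    rw [Matrix.adjugate_fin_two, Matrix.adjugate_fin_two]
    simp only [Matrix.det_fin_two, Matrix.trace_fin_two, Matrix.sub_apply, Matrix.mul_apply,
      Fin.sum_univ_two, Matrix.of_apply, Matrix.cons_val', Matrix.cons_val_zero,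
      Matrix.cons_val_one, Matrix.cons_val_fin_one]
    ring
  rw [h1, hg, hh, mul_one, mul_one]
  rfl

private def sgn_dt {K : Type} [Field K] (a b c d e f g h i : K) : K :=
  a * (e * i - f * h) - b * (d * i - f * g) + c * (d * h - e * g)

private lemma sgn_D {K : Type} [Field K] (X Y : sgn_M K) :
    sgn_dt (X 0 1) (X 1 0) (X 1 1 - X 0 0) (Y 0 1) (Y 1 0) (Y 1 1 - Y 0 0)
      ((X * Y) 0 1) ((X * Y) 1 0) ((X * Y) 1 1 - (X * Y) 0 0) = (X * Y - Y * X).det ∨
    sgn_dt (X 0 1) (X 1 0) (X 1 1 - X 0 0) (Y 0 1) (Y 1 0) (Y 1 1 - Y 0 0)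
      ((X * Y) 0 1) ((X * Y) 1 0) ((X * Y) 1 1 - (X * Y) 0 0) = - (X * Y - Y * X).det := by
  simp only [sgn_dt, Matrix.det_fin_two, Matrix.sub_apply, Matrix.mul_apply, Fin.sum_univ_two]
  left
  ring1

private lemma sgn_cram {K : Type} [Field K] (x2 x3 x4 y2 y3 y4 z2 z3 z4 n2 n3 n4 : K)
    (hD : sgn_dt x2 x3 x4 y2 y3 y4 z2 z3 z4 ≠ 0) : ∃ q r s : K,
    n2 = q * x2 + r * y2 + s * z2 ∧ n3 = q * x3 + r * y3 + s * z3 ∧
    n4 = q * x4 + r * y4 + s * z4 := by
  refine ⟨sgn_dt n2 n3 n4 y2 y3 y4 z2 z3 z4 / sgn_dt x2 x3 x4 y2 y3 y4 z2 z3 z4,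
    sgn_dt x2 x3 x4 n2 n3 n4 z2 z3 z4 / sgn_dt x2 x3 x4 y2 y3 y4 z2 z3 z4,
    sgn_dt x2 x3 x4 y2 y3 y4 n2 n3 n4 / sgn_dt x2 x3 x4 y2 y3 y4 z2 z3 z4, ?_, ?_, ?_⟩ <;>
  · rw [div_mul_eq_mul_div, div_mul_eq_mul_div, div_mul_eq_mul_div, ← add_div, ← add_div,
      eq_div_iff hD]
    simp only [sgn_dt]
    ring

private lemma sgn_span {K : Type} [Field K] (X Y : sgn_M K) (h : (X * Y - Y * X).det ≠ 0)
    (N : sgn_M K) : ∃ p q r s : K, N = p • (1 : sgn_M K) + q • X + r • Y + s • (X * Y) := by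
  have hD0 : sgn_dt (X 0 1) (X 1 0) (X 1 1 - X 0 0) (Y 0 1) (Y 1 0) (Y 1 1 - Y 0 0)
      ((X * Y) 0 1) ((X * Y) 1 0) ((X * Y) 1 1 - (X * Y) 0 0) ≠ 0 := by
    rcases sgn_D X Y with h' | h' <;> rw [h']
    · exact h
    · exact neg_ne_zero.2 h
  obtain ⟨q, r, s, e2, e3, e4⟩ := sgn_cram _ _ _ _ _ _ _ _ _ (N 0 1) (N 1 0) (N 1 1 - N 0 0) hD0
  refine ⟨N 0 0 - q * X 0 0 - r * Y 0 0 - s * (X * Y) 0 0, q, r, s, ?_⟩
  ext i j
  fin_cases i <;> fin_cases j
  · simp only [Fin.zero_eta, Matrix.add_apply, Matrix.smul_apply, Matrix.one_apply_eq, smul_eq_mul]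
    ring
  · simp only [Fin.zero_eta, Fin.mk_one, Matrix.add_apply, Matrix.smul_apply, smul_eq_mul]
    rw [Matrix.one_apply_ne (by decide)]
    linear_combination e2
  · simp only [Fin.zero_eta, Fin.mk_one, Matrix.add_apply, Matrix.smul_apply, smul_eq_mul]
    rw [Matrix.one_apply_ne (by decide)]
    linear_combination e3
  · simp only [Fin.mk_one, Matrix.add_apply, Matrix.smul_apply, Matrix.one_apply_eq, smul_eq_mul]
    linear_combination e4

/-- the relations -/
private lemma sgn_rel {K : Type} [Field K] (X Y : sgn_M K) (hX : X.det = 1) (hY : Y.det = 1) :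
    X * X = X.trace • X - 1 ∧ Y * Y = Y.trace • Y - 1 ∧
    Y * X = - (X * Y) + X.trace • Y + Y.trace • X +
      ((X * Y).trace - X.trace * Y.trace) • (1 : sgn_M K) := by
  rw [Matrix.det_fin_two] at hX hY
  refine ⟨?_, ?_, ?_⟩
  · ext i j
    fin_cases i <;> fin_cases j <;>
      simp [Matrix.mul_apply, Fin.sum_univ_two, Matrix.trace_fin_two] <;>
      first
      | ring1
      | linear_combination (-1 : K) * hX
  · ext i j
    fin_cases i <;> fin_cases j <;>
      simp [Matrix.mul_apply, Fin.sum_univ_two, Matrix.trace_fin_two] <;>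
      first
      | ring1
      | linear_combination (-1 : K) * hY
  · ext i j
    fin_cases i <;> fin_cases j <;>
      simp [Matrix.mul_apply, Fin.sum_univ_two, Matrix.trace_fin_two] <;>
      ring

/-- the linear combination -/
private def sgn_c {K : Type} [Field K] (X Y : sgn_M K) (p q r s : K) : sgn_M K :=
  p • (1 : sgn_M K) + q • X + r • Y + s • (X * Y)

private lemma sgn_mul {K : Type} [Field K] (X Y : sgn_M K) (hX : X.det = 1) (hY : Y.det = 1)
    (a b c : K) (ha : X.trace = a) (hb : Y.trace = b) (hc : (X * Y).trace = c)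
    (p q r s p' q' r' s' : K) :
    sgn_c X Y p q r s * sgn_c X Y p' q' r' s' = sgn_c X Y
      (p * p' - q * q' + r * q' * (c - a * b) - r * r' - r * s' * a - s * q' * b - s * s')
      (p * q' + q * p' + q * q' * a + r * q' * b + r * s' + s * q' * c - s * r')
      (p * r' - q * s' + r * p' + r * q' * a + r * r' * b + r * s' * c + s * q')
      (p * s' + q * r' + q * s' * a - r * q' + s * p' + s * r' * b + s * s' * c) := by
  obtain ⟨hXX, hYY, hYX⟩ := sgn_rel X Y hX hY
  rw [ha] at hXX hYX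
  rw [hb] at hYY hYX
  rw [hc] at hYX
  have h1 : X * (X * Y) = a • (X * Y) - Y := by
    rw [← mul_assoc, hXX, sub_mul, smul_mul_assoc, one_mul]
  have h2 : X * Y * Y = b • (X * Y) - X := by
    rw [mul_assoc, hYY, mul_sub, mul_smul_comm, mul_one]
  have h3 : Y * (X * Y) = X + c • Y - a • (1 : sgn_M K) := by
    rw [← mul_assoc, hYX]
    simp only [add_mul, neg_mul, smul_mul_assoc, one_mul]
    rw [h2, hYY]
    module
  have h4 : X * Y * X = Y - b • (1 : sgn_M K) + c • X := by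
    rw [mul_assoc, hYX]
    simp only [mul_add, mul_neg, mul_smul_comm, mul_one]
    rw [h1, hXX]
    module
  have h5 : X * Y * (X * Y) = c • (X * Y) - (1 : sgn_M K) := by
    rw [mul_assoc, h3]
    simp only [mul_add, mul_sub, mul_smul_comm, mul_one]
    rw [hXX]
    module
  simp only [sgn_c, mul_add, add_mul, smul_mul_assoc, mul_smul_comm, one_mul, mul_one]
  rw [h1, h2, h3, h4, h5, hXX, hYY, hYX]
  module

private lemma sgn_tr {K : Type} [Field K] (X Y : sgn_M K) (a b c : K) (ha : X.trace = a)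
    (hb : Y.trace = b) (hc : (X * Y).trace = c) (p q r s : K) :
    (sgn_c X Y p q r s).trace = 2 * p + q * a + r * b + s * c := by
  simp only [sgn_c, Matrix.trace_add, Matrix.trace_smul, Matrix.trace_one, ha, hb, hc,
    Fintype.card_fin, smul_eq_mul]
  push_cast
  ring

private lemma sgn_trm {K : Type} [Field K] (X Y : sgn_M K) (hX : X.det = 1) (hY : Y.det = 1)
    (a b c : K) (ha : X.trace = a) (hb : Y.trace = b) (hc : (X * Y).trace = c)
    (p q r s p' q' r' s' : K) (M : sgn_M K) (hM : M = sgn_c X Y p' q' r' s') :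
    (sgn_c X Y p q r s * M).trace =
      2 * (p * p' - q * q' + r * q' * (c - a * b) - r * r' - r * s' * a - s * q' * b - s * s') +
      (p * q' + q * p' + q * q' * a + r * q' * b + r * s' + s * q' * c - s * r') * a +
      (p * r' - q * s' + r * p' + r * q' * a + r * r' * b + r * s' * c + s * q') * b +
      (p * s' + q * r' + q * s' * a - r * q' + s * p' + s * r' * b + s * s' * c) * c := by
  rw [hM, sgn_mul X Y hX hY a b c ha hb hc, sgn_tr X Y a b c ha hb hc]

/-- nondegeneracy -/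
private lemma sgn_nd {K : Type} [Field K] (X Y : sgn_M K) (h : (X * Y - Y * X).det ≠ 0)
    (N : sgn_M K) (h0 : N.trace = 0) (h1 : (N * X).trace = 0) (h2 : (N * Y).trace = 0)
    (h3 : (N * X * Y).trace = 0) : N = 0 := by
  have key : ∀ M : sgn_M K, (N * M).trace = 0 := by
    intro M
    obtain ⟨p, q, r, s, rfl⟩ := sgn_span X Y h M
    simp only [mul_add, mul_smul_comm, mul_one, Matrix.trace_add, Matrix.trace_smul, h0, h1, h2,
      ← mul_assoc, h3, smul_zero, add_zero]
  exact Matrix.ext_iff_trace_mul_right.2 (fun M => by rw [key, zero_mul, Matrix.trace_zero])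

/-- equality of the coefficients for a generator -/
private lemma sgn_gen {K : Type} [Field K] (X Y X' Y' N N' : sgn_M K) (hX : X.det = 1)
    (hY : Y.det = 1) (hX' : X'.det = 1) (hY' : Y'.det = 1)
    (h : (X * Y - Y * X).det ≠ 0) (h' : (X' * Y' - Y' * X').det ≠ 0) (ha : X.trace = X'.trace)
    (hb : Y.trace = Y'.trace) (hc : (X * Y).trace = (X' * Y').trace) (h0 : N.trace = N'.trace)
    (h1 : (N * X).trace = (N' * X').trace) (h2 : (N * Y).trace = (N' * Y').trace)
    (h3 : (N * X * Y).trace = (N' * X' * Y').trace) :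
    ∃ p q r s : K, N = sgn_c X Y p q r s ∧ N' = sgn_c X' Y' p q r s := by
  obtain ⟨p, q, r, s, hN⟩ := sgn_span X Y h N
  refine ⟨p, q, r, s, hN, ?_⟩
  have hN1 : N = sgn_c X Y p q r s := hN
  have hd : N' - sgn_c X' Y' p q r s = 0 := by
    apply sgn_nd X' Y' h'
    · rw [Matrix.trace_sub, ← h0, hN1, sgn_tr X Y _ _ _ rfl rfl rfl,
        sgn_tr X' Y' _ _ _ ha.symm hb.symm hc.symm, sub_self]
    · rw [sub_mul, Matrix.trace_sub, ← h1, hN1,
        sgn_trm X Y hX hY _ _ _ rfl rfl rfl p q r s 0 1 0 0 X (by simp [sgn_c]),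
        sgn_trm X' Y' hX' hY' _ _ _ ha.symm hb.symm hc.symm p q r s 0 1 0 0 X' (by simp [sgn_c]),
        sub_self]
    · rw [sub_mul, Matrix.trace_sub, ← h2, hN1,
        sgn_trm X Y hX hY _ _ _ rfl rfl rfl p q r s 0 0 1 0 Y (by simp [sgn_c]),
        sgn_trm X' Y' hX' hY' _ _ _ ha.symm hb.symm hc.symm p q r s 0 0 1 0 Y' (by simp [sgn_c]),
        sub_self]
    · rw [sub_mul, sub_mul, Matrix.trace_sub, ← h3, hN1, mul_assoc _ X Y, mul_assoc _ X' Y',
        sgn_trm X Y hX hY _ _ _ rfl rfl rfl p q r s 0 0 0 1 (X * Y) (by simp [sgn_c]),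
        sgn_trm X' Y' hX' hY' _ _ _ ha.symm hb.symm hc.symm p q r s 0 0 0 1 (X' * Y')
          (by simp [sgn_c]), sub_self]
  exact sub_eq_zero.1 hd

/-- `N` and `N'` have the same coordinates -/
private def sgn_R {K : Type} [Field K] (X Y X' Y' N N' : sgn_M K) : Prop :=
  ∃ p q r s : K, N = sgn_c X Y p q r s ∧ N' = sgn_c X' Y' p q r s

section

variable {K : Type} [Field K] {X Y X' Y' : sgn_M K} (hX : X.det = 1) (hY : Y.det = 1)
  (hX' : X'.det = 1) (hY' : Y'.det = 1) (ha : X.trace = X'.trace) (hb : Y.trace = Y'.trace)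
  (hc : (X * Y).trace = (X' * Y').trace)

include hX hY hX' hY' ha hb hc

private lemma sgn_Rmul {N N' P P' : sgn_M K} (h1 : sgn_R X Y X' Y' N N')
    (h2 : sgn_R X Y X' Y' P P') : sgn_R X Y X' Y' (N * P) (N' * P') := by
  obtain ⟨p, q, r, s, e1, e2⟩ := h1
  obtain ⟨p', q', r', s', e3, e4⟩ := h2
  have m1 := sgn_mul X Y hX hY _ _ _ rfl rfl rfl p q r s p' q' r' s'
  have m2 := sgn_mul X' Y' hX' hY' _ _ _ ha.symm hb.symm hc.symm p q r s p' q' r' s'
  rw [← e1, ← e3] at m1
  rw [← e2, ← e4] at m2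
  exact ⟨_, _, _, _, m1, m2⟩

omit hX hY hX' hY' in
private lemma sgn_Rtr {N N' : sgn_M K} (h1 : sgn_R X Y X' Y' N N') : N.trace = N'.trace := by
  obtain ⟨p, q, r, s, e1, e2⟩ := h1
  rw [e1, e2, sgn_tr X Y _ _ _ rfl rfl rfl, sgn_tr X' Y' _ _ _ ha.symm hb.symm hc.symm]

private lemma sgn_Runi (h' : (X' * Y' - Y' * X').det ≠ 0) {N N' P' : sgn_M K}
    (h1 : sgn_R X Y X' Y' N N') (h2 : sgn_R X Y X' Y' N P') : N' = P' := by
  apply Matrix.ext_iff_trace_mul_right.2
  intro M
  obtain ⟨p, q, r, s, hM⟩ := sgn_span X' Y' h' M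
  have h3 : sgn_R X Y X' Y' (sgn_c X Y p q r s) M := ⟨p, q, r, s, rfl, hM⟩
  have h4 := sgn_Rtr ha hb hc (sgn_Rmul hX hY hX' hY' ha hb hc h1 h3)
  have h5 := sgn_Rtr ha hb hc (sgn_Rmul hX hY hX' hY' ha hb hc h2 h3)
  rw [← h4, ← h5]

end

private lemma sgn_scal {K : Type} [Field K] (X Y E : sgn_M K) (h : (X * Y - Y * X).det ≠ 0)
    (h1 : E * X = X * E) (h2 : E * Y = Y * E) : ∃ e : K, E = e • (1 : sgn_M K) := by
  have key : ∀ M : sgn_M K, E * M = M * E := by
    intro M
    obtain ⟨p, q, r, s, rfl⟩ := sgn_span X Y h M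
    have h3 : E * (X * Y) = X * Y * E := by
      rw [← mul_assoc, h1, mul_assoc, h2, mul_assoc]
    simp only [mul_add, add_mul, mul_smul_comm, smul_mul_assoc, mul_one, one_mul, h1, h2, h3]
  have k1 := key !![0, 1; 0, 0]
  have k2 := key !![0, 0; 1, 0]
  have a1 := congrFun (congrFun k1 0) 1
  have a2 := congrFun (congrFun k1 0) 0
  have a3 := congrFun (congrFun k2 0) 0
  simp only [Matrix.mul_apply, Fin.sum_univ_two, Matrix.of_apply, Matrix.cons_val',
    Matrix.cons_val_zero, Matrix.cons_val_one, Matrix.cons_val_fin_one, mul_zero, zero_mul,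
    mul_one, one_mul, add_zero, zero_add] at a1 a2 a3
  refine ⟨E 0 0, ?_⟩
  ext i j
  fin_cases i <;> fin_cases j
  · simp
  · simp [a3]
  · simp [← a2]
  · simp [a1]

theorem p_sgn : A_sgn := by
  intro G K _ _ ρ ρ' H hH hs hxy c hc hc1 hc2 g
  obtain ⟨x, hx, y, hy, hne⟩ := hxy
  have hdet : ∀ g : SL2 K, (g.val : sgn_M K).det = 1 := fun g => g.2
  have hmul : ∀ (θ : G →* SL2 K) (a b : G), (θ (a * b)).val = (θ a).val * (θ b).val := by
    intro θ a b
    rw [map_mul]
    rfl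
  have hh : ((ρ x).val * (ρ y).val - (ρ y).val * (ρ x).val).det ≠ 0 := by
    rw [sgn_com]
    intro h
    apply hne
    rw [map_mul, map_mul, map_mul, map_inv, map_inv]
    linear_combination -h
  have ha : (ρ x).val.trace = (ρ' x).val.trace := hs x hx
  have hb : (ρ y).val.trace = (ρ' y).val.trace := hs y hy
  have hcc : ((ρ x).val * (ρ y).val).trace = ((ρ' x).val * (ρ' y).val).trace := by
    have h := hs (x * y) (H.mul_mem hx hy)
    rw [map_mul, map_mul] at h
    exact h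
  have hh' : ((ρ' x).val * (ρ' y).val - (ρ' y).val * (ρ' x).val).det ≠ 0 := by
    rw [sgn_det _ _ (hdet _) (hdet _)] at hh ⊢
    rwa [← ha, ← hb, ← hcc]
  have key : ∀ h ∈ H, sgn_R (ρ x).val (ρ y).val (ρ' x).val (ρ' y).val (ρ h).val (ρ' h).val := by
    intro h hhH
    have a1 := hs h hhH
    have a2 := hs (h * x) (H.mul_mem hhH hx)
    have a3 := hs (h * y) (H.mul_mem hhH hy)
    have a4 := hs (h * x * y) (H.mul_mem (H.mul_mem hhH hx) hy)
    simp only [map_mul] at a2 a3 a4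
    exact sgn_gen _ _ _ _ _ _ (hdet _) (hdet _) (hdet _) (hdet _) hh hh' ha hb hcc a1 a2 a3 a4
  obtain ⟨p, q, r, s, hC⟩ := sgn_span _ _ hh (ρ c).val
  set D : sgn_M K := sgn_c (ρ' x).val (ρ' y).val p q r s with hD
  have hCD : sgn_R (ρ x).val (ρ y).val (ρ' x).val (ρ' y).val (ρ c).val D :=
    ⟨p, q, r, s, hC, rfl⟩
  have hn : ∀ h ∈ H, c * h * c⁻¹ ∈ H := fun h hh1 =>
    (Subgroup.normal_of_index_eq_two hH).conj_mem h hh1 c
  have hcom : ∀ h ∈ H, D * (ρ' h).val = (ρ' (c * h * c⁻¹)).val * D := by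
    intro h hh1
    have r1 := sgn_Rmul (hdet _) (hdet _) (hdet _) (hdet _) ha hb hcc hCD (key h hh1)
    have r2 := sgn_Rmul (hdet _) (hdet _) (hdet _) (hdet _) ha hb hcc (key _ (hn h hh1)) hCD
    have e : (ρ (c * h * c⁻¹)).val * (ρ c).val = (ρ c).val * (ρ h).val := by
      rw [← hmul, ← hmul, inv_mul_cancel_right]
    rw [e] at r2
    exact sgn_Runi (hdet _) (hdet _) (hdet _) (hdet _) ha hb hcc hh' r1 r2
  have hcom2 : ∀ h ∈ H, (ρ' c⁻¹).val * D * (ρ' h).val = (ρ' h).val * ((ρ' c⁻¹).val * D) := by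
    intro h hh1
    rw [mul_assoc, hcom h hh1, ← mul_assoc, ← mul_assoc, ← hmul, ← hmul, ← mul_assoc, ← mul_assoc,
      inv_mul_cancel, one_mul]
  obtain ⟨e, he⟩ := sgn_scal _ _ _ hh' (hcom2 x hx) (hcom2 y hy)
  have hone : (ρ' c).val * (ρ' c⁻¹).val = (1 : sgn_M K) := by
    rw [← hmul, mul_inv_cancel, map_one]
    rfl
  have hDe : D = e • (ρ' c).val := by
    calc D = (ρ' c).val * (ρ' c⁻¹).val * D := by rw [hone, one_mul]
      _ = (ρ' c).val * ((ρ' c⁻¹).val * D) := mul_assoc _ _ _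
      _ = e • (ρ' c).val := by rw [he, mul_smul_comm, mul_one]
  have he1 : e = 1 := by
    have h1 : (ρ c).val.trace = D.trace := sgn_Rtr ha hb hcc hCD
    rw [hDe, Matrix.trace_smul, smul_eq_mul] at h1
    have h2 : (ρ c).val.trace = (ρ' c).val.trace := hc1
    have h3 : (ρ' c).val.trace ≠ 0 := by
      rw [← h2]
      exact hc2
    rw [h2] at h1
    exact mul_right_cancel₀ h3 (by rw [one_mul]; exact h1.symm)
  have hD2 : D = (ρ' c).val := by rw [hDe, he1, one_smul]
  by_cases hg : g ∈ H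
  · exact hs g hg
  · have hk : c⁻¹ * g ∈ H := by
      rw [Subgroup.mul_mem_iff_of_index_two hH]
      constructor
      · intro h
        exact absurd (H.inv_mem_iff.1 h) hc
      · intro h
        exact absurd h hg
    have r1 := sgn_Rmul (hdet _) (hdet _) (hdet _) (hdet _) ha hb hcc hCD (key _ hk)
    rw [hD2, ← hmul, ← hmul, mul_inv_cancel_left] at r1
    exact sgn_Rtr ha hb hcc r1

end Pool.Agent.F8.CG
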