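import Pool.Agent.Lib.MP_305fdd_al.F8.CG.StmA3
import Pool.Agent.Lib.MP_305fdd_al.F8.CG.P_one

/-!
# MP_305fdd_al, congruence subgroups, block A: piece `thFm`
-/

set_option autoImplicit false

namespace Pool.Agent.F8.CG

open Pool.Agent.F8.BG Pool.Agent.Lib.MP_305fdd_al Pool.Agent.F8

/-- a non-zero element divides a non-zero integer -/
theorem thFm_dvd {a b : ℤ} (hn : b ^ 2 + 4 * a < 0) (z : Qf a b ℤ) (hz : z ≠ 0) :
    ∃ M : ℤ, M ≠ 0 ∧ z ∣ (M : Qf a b ℤ) := by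
  refine ⟨nq z, fun h => hz (nq_eq_zero hn h), cjq a b ℤ z, ?_⟩
  rw [mul_cjq]
  apply QuadraticAlgebra.ext <;> simp

/-- transport along an isomorphism -/
theorem thFm_transport {L L' K : Type} [Group L] [Group L'] [Field K] (e : L' ≃* L)
    (n : L →* Multiplicative ℤ) (N : ℕ) (M : ℤ) (ρ : L →* SL2 K) (c : L')
    (P : Polynomial K) (h : IsPz (n.comp e.toMonoidHom) N M (ρ.comp e.toMonoidHom) c P) :
    IsPz n N M ρ (e c) P where
  mon := h.mon
  deg := h.deg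
  tra := h.tra
  le := by
    intro τ m
    obtain ⟨E⟩ := one_zc_aux e n m ρ (jorG m τ)
    rw [E.finrank_eq]
    exact h.le τ m
  eq := by
    intro τ
    obtain ⟨E⟩ := one_zc_aux e n (P.rootMultiplicity (τ : K)) ρ
      (jorG (P.rootMultiplicity (τ : K)) τ)
    rw [E.finrank_eq]
    exact h.eq τ
  fd := by
    intro τ m
    obtain ⟨E⟩ := one_zc_aux e n m ρ (jorG m τ)
    have := h.fd τ m
    exact Module.Finite.equiv E.symm
  ne := h.ne
  int := by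
    intro hρ
    exact h.int fun x i j => hρ (e x) i j

theorem thFm_IrC {G G' K : Type} [Group G] [Group G'] [CommRing K] (ψ : G' →* G)
    (L : Subgroup G') (ρ : G →* SL2 K) (h : IrC (L.map ψ) ρ) : IrC L (ρ.comp ψ) := by
  obtain ⟨g, hg, x, hx, hgx⟩ := h
  rw [← Subgroup.map_commutator] at hg hx
  obtain ⟨g', hg', rfl⟩ := hg
  obtain ⟨x', hx', rfl⟩ := hx
  refine ⟨g', hg', x', hx', ?_⟩
  have e : ψ (g' * x' * g'⁻¹ * x'⁻¹) = ψ g' * ψ x' * (ψ g')⁻¹ * (ψ x')⁻¹ := by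
    rw [map_mul, map_mul, map_mul, map_inv, map_inv]
  rw [MonoidHom.comp_apply, e]
  exact hgx

theorem thFm_PolD {G G' : Type} [Group G] [Group G'] (ψ : G' →* G)
    (hψ : Function.Injective ψ) (c : G') (L : Subgroup G') (hc : c ∈ L)
    (nL : L →* Multiplicative ℤ) (N : ℕ) (M : ℤ) (h : PolD c L hc nL N M) :
    PolD (ψ c) (L.map ψ) (Subgroup.mem_map_of_mem ψ hc)
      (nL.comp (L.equivMapOfInjective ψ hψ).symm.toMonoidHom) N M := by
  intro K _ ρ hir htr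
  obtain ⟨P, hP⟩ := h K (ρ.comp ψ) (thFm_IrC ψ L ρ hir)
    (fun c' hc' => htr (ψ c') (fun Q _ _ θ => hc' Q (θ.comp ψ)))
  refine ⟨P, ?_⟩
  have h1 : (nL.comp (L.equivMapOfInjective ψ hψ).symm.toMonoidHom).comp
      (L.equivMapOfInjective ψ hψ).toMonoidHom = nL := by
    ext x
    exact congrArg nL ((L.equivMapOfInjective ψ hψ).symm_apply_apply x)
  have h2 : (ρ.comp (L.map ψ).subtype).comp (L.equivMapOfInjective ψ hψ).toMonoidHom =
      (ρ.comp ψ).comp L.subtype := rfl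
  exact thFm_transport (L.equivMapOfInjective ψ hψ)
    (nL.comp (L.equivMapOfInjective ψ hψ).symm.toMonoidHom) N M
    (ρ.comp (L.map ψ).subtype) ⟨c, hc⟩ P (by rw [h1, h2]; exact hP)

/-- an element with a trace formula -/
structure thFm_It {G : Type} [Group G] (nG : G →* Multiplicative ℤ) where
  /-- the element -/
  c : G
  /-- the subgroup -/
  L : Subgroup G
  /-- the element is in the subgroup -/
  hc : c ∈ L
  /-- the homomorphism -/
  nL : L →* Multiplicative ℤ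
  /-- the degree -/
  N : ℕ
  /-- the factor -/
  M : ℤ
  /-- finite index -/
  fi : L.FiniteIndex
  /-- not zero -/
  hM : M ≠ 0
  /-- the formula -/
  pol : PolD c L hc nL N M
  /-- the exponent -/
  k : ∃ k : ℕ, 1 ≤ k ∧ ∀ x : L, nG x = nL x ^ k

theorem thFm_fam {G : Type} [Group G] (nG : G →* Multiplicative ℤ) (a b : ℤ)
    (ρ₀ : G →* GQ a b) (n : ℕ) (f : Fin n → thFm_It nG) (hn : 0 < n)
    (hxy : ∃ x y : G, tr (ρ₀ (x * y * x⁻¹ * y⁻¹)) ≠ 2) (M₁ : ℤ) (hM₁ : M₁ ≠ 0)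
    (h : ∀ (k : Type) [Field k], (M₁ : k) ≠ 0 → ∀ (j : Qf a b ℤ →+* k)
      (ρ : G →* SL2 k), (∀ i, tr (ρ (f i).c) = j (tr (ρ₀ (f i).c))) →
      ∀ g, tr (ρ g) = j (tr (ρ₀ g))) : Fam nG a b ρ₀ :=
  ⟨n, fun i => (f i).c, fun i => (f i).L, fun i => (f i).hc, fun i => (f i).nL,
    fun i => (f i).N, fun i => (f i).M, hn, fun i => (f i).fi, fun i => (f i).hM,
    fun i => (f i).pol, fun i => (f i).k, hxy, M₁, hM₁, h⟩

/-- **[CG thFm]** -/
theorem p_thFm (hthF : A_thF) (hodd : A_odd) (honem : A_onem) (hsgn : A_sgn) : A_thFm := by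
  intro ι _ α v w i₀ hN D hD a b hab ρ₀ hirr
  have := hD
  have hD' : (D.comap (emb α 2)).FiniteIndex := ⟨by
    rw [Subgroup.index_comap]
    exact (inferInstance : (D.subgroupOf (emb α 2).range).FiniteIndex).index_ne_zero⟩
  let ψ : D.comap (emb α 2) →* D := (emb α 2).subgroupComap D
  have hψv : ∀ x, ((ψ x : D) : GR α) = emb α 2 x := fun _ => rfl
  have hψ : Function.Injective ψ := by
    intro x y hxy
    apply Subtype.ext
    apply one_emb_inj α 2 (by norm_num)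
    rw [← hψv, ← hψv, hxy]
  have hnψ : ∀ x, nD D (ψ x) = nD (D.comap (emb α 2)) x ^ 2 := by
    intro x
    apply Multiplicative.toAdd.injective
    rw [toAdd_pow]
    have h := one_nR_emb α 2 (x : GR (α ^ 2))
    change Multiplicative.toAdd (nR α (emb α 2 x)) =
      2 • Multiplicative.toAdd (nR (α ^ 2) x)
    rw [h]
    simp
  have hrange : ∀ g : D, g ∈ ψ.range ↔ Even (Multiplicative.toAdd (nD D g)) := by
    intro g
    constructor
    · rintro ⟨x, rfl⟩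
      rw [hnψ, toAdd_pow]
      exact ⟨Multiplicative.toAdd (nD (D.comap (emb α 2)) x), two_nsmul _⟩
    · rintro ⟨r, hr⟩
      obtain ⟨g', hg', _⟩ := one_emb_surj α 2 (g : GR α) r (by
        change Multiplicative.toAdd (nD D g) = _
        rw [hr]
        push_cast
        ring)
      have hmem : g' ∈ D.comap (emb α 2) := by
        rw [Subgroup.mem_comap, hg']
        exact g.2
      exact ⟨⟨g', hmem⟩, Subtype.ext hg'⟩
  have hidx2 : ∀ x : D, ¬ Even (Multiplicative.toAdd (nD D x)) → ψ.range.index = 2 := by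
    intro x hx
    rw [Subgroup.index_eq_two_iff]
    refine ⟨x, fun y => ?_⟩
    rw [hrange, hrange, map_mul, toAdd_mul, Int.even_add]
    by_cases hy : Even (Multiplicative.toAdd (nD D y))
    · exact Or.inr ⟨hy, fun h => hx (h.1 hy)⟩
    · exact Or.inl ⟨⟨fun h => absurd h hy, fun h => absurd h hx⟩, hy⟩
  have hidx : ψ.range.index ≠ 0 := by
    by_cases hall : ∀ g : D, Even (Multiplicative.toAdd (nD D g))
    · have h1 : ψ.range = ⊤ := by
        ext g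
        exact ⟨fun _ => Subgroup.mem_top _, fun _ => (hrange g).2 (hall g)⟩
      rw [h1, Subgroup.index_top]
      exact one_ne_zero
    · obtain ⟨x, hx⟩ := not_forall.1 hall
      rw [hidx2 x hx]
      exact two_ne_zero
  have hmapfi : ∀ L : Subgroup (D.comap (emb α 2)), L.FiniteIndex → (L.map ψ).FiniteIndex := by
    intro L hL
    refine ⟨?_⟩
    rw [Subgroup.index_map_of_injective L hψ]
    exact Nat.mul_ne_zero hL.index_ne_zero hidx
  -- the family for the even part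
  obtain ⟨n, c, L, hc, nL, N, M, hn, hfi, hM, hpol, hk, ⟨x, y, hxy⟩, M₁, hM₁, hun⟩ :=
    hthF ι (α ^ 2) w i₀ hN.pos hN.hd (D.comap (emb α 2)) hD' a b hab (ρ₀.comp ψ)
      (fun L hL => thFm_IrC ψ L ρ₀ (hirr _ (hmapfi L hL)))
  let f : Fin n → thFm_It (nD D) := fun i =>
    { c := ψ (c i)
      L := (L i).map ψ
      hc := Subgroup.mem_map_of_mem ψ (hc i)
      nL := (nL i).comp ((L i).equivMapOfInjective ψ hψ).symm.toMonoidHom
      N := N i
      M := M i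
      fi := hmapfi _ (hfi i)
      hM := hM i
      pol := thFm_PolD ψ hψ (c i) (L i) (hc i) (nL i) (N i) (M i) (hpol i)
      k := by
        obtain ⟨k, hk1, hk2⟩ := hk i
        refine ⟨k * 2, by omega, fun z => ?_⟩
        obtain ⟨z', hz'⟩ := ((L i).equivMapOfInjective ψ hψ).surjective z
        have h1 : ((L i).equivMapOfInjective ψ hψ).symm z = z' := by
          rw [← hz']
          exact ((L i).equivMapOfInjective ψ hψ).symm_apply_apply z'
        have h2 : (z : D) = ψ z' := by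
          rw [← hz']
          rfl
        rw [h2, hnψ, hk2 z', ← pow_mul]
        change nL i z' ^ (k * 2) = nL i (((L i).equivMapOfInjective ψ hψ).symm z) ^ (k * 2)
        rw [h1] }
  have hxy' : tr (ρ₀ (ψ x * ψ y * (ψ x)⁻¹ * (ψ y)⁻¹)) ≠ 2 := by
    have h1 : ψ x * ψ y * (ψ x)⁻¹ * (ψ y)⁻¹ = ψ (x * y * x⁻¹ * y⁻¹) := by
      rw [map_mul, map_mul, map_mul, map_inv, map_inv]
    rw [h1]
    exact hxy
  have hev : ∀ (k : Type) [Field k], (M₁ : k) ≠ 0 → ∀ (j : Qf a b ℤ →+* k) (ρ : D →* SL2 k),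
      (∀ i, tr (ρ (f i).c) = j (tr (ρ₀ (f i).c))) →
      ∀ g, tr (ρ (ψ g)) = j (tr (ρ₀ (ψ g))) := by
    intro k _ hk j ρ hρ g
    exact hun k hk j (ρ.comp ψ) hρ g
  by_cases hall : ∀ g : D, Even (Multiplicative.toAdd (nD D g))
  · refine thFm_fam (nD D) a b ρ₀ n f hn ⟨ψ x, ψ y, hxy'⟩ M₁ hM₁ ?_
    intro k _ hk j ρ hρ g
    obtain ⟨g', rfl⟩ := (hrange g).2 (hall g)
    exact hev k hk j ρ hρ g'
  obtain ⟨x₀, hx₀⟩ := not_forall.1 hall
  obtain ⟨k₀, v', u, s, c₀, hk₀, hv', hu, hc₀, hct⟩ := hodd ι α v w i₀ hN D hD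
    ⟨x₀, x₀.2, hx₀⟩ a b hab ρ₀ hirr
  obtain ⟨L₀, hcL₀, nL₀, N₀, M₀, hfi₀, hM₀, hpol₀, hnL₀⟩ := honem ι α D hD k₀ v' hk₀.pos hv' i₀
    u s hu c₀ hc₀
  have hc₀H : c₀ ∉ ψ.range := by
    rw [hrange]
    have h1 : Multiplicative.toAdd (nD D c₀) = -(k₀ : ℤ) := by
      change Multiplicative.toAdd (nR α (c₀ : GR α)) = _
      rw [hc₀, map_mul, map_inv, map_inv, map_pow, nR_tR, nR_iR, inv_one, mul_one, toAdd_inv,
        toAdd_pow, toAdd_ofAdd]
      simp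
    rw [h1, even_neg, Int.even_coe_nat, Nat.not_even_iff_odd]
    exact hk₀
  let it : thFm_It (nD D) := ⟨c₀, L₀, hcL₀, nL₀, N₀, M₀, hfi₀, hM₀, hpol₀, k₀, hk₀.pos, hnL₀⟩
  -- the integers
  obtain ⟨m₁, hm₁, hd₁⟩ := thFm_dvd hab (tr (ρ₀ c₀)) hct
  obtain ⟨m₂, hm₂, hd₂⟩ := thFm_dvd hab (tr (ρ₀ (ψ x * ψ y * (ψ x)⁻¹ * (ψ y)⁻¹)) - 2)
    (sub_ne_zero.2 hxy')
  refine thFm_fam (nD D) a b ρ₀ (n + 1) (Fin.cons it f) (Nat.succ_pos n) ⟨ψ x, ψ y, hxy'⟩
    (M₁ * m₁ * m₂) (mul_ne_zero (mul_ne_zero hM₁ hm₁) hm₂) ?_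
  intro k _ hk j ρ hρ g
  rw [Int.cast_mul, Int.cast_mul] at hk
  have hk1 : (M₁ : k) ≠ 0 := fun h => hk (by rw [h, zero_mul, zero_mul])
  have hk2 : (m₁ : k) ≠ 0 := fun h => hk (by rw [h, mul_zero, zero_mul])
  have hk3 : (m₂ : k) ≠ 0 := fun h => hk (by rw [h, mul_zero])
  have hρ0 : tr (ρ c₀) = j (tr (ρ₀ c₀)) := hρ 0
  have hρs : ∀ i, tr (ρ (f i).c) = j (tr (ρ₀ (f i).c)) := fun i => hρ i.succ
  have hdv : ∀ (z : Qf a b ℤ) (m : ℤ), z ∣ (m : Qf a b ℤ) → (m : k) ≠ 0 → j z ≠ 0 := by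
    intro z m hz hm h0
    obtain ⟨z', hz'⟩ := hz
    apply hm
    have h1 := congrArg j hz'
    rw [map_intCast, map_mul, h0, zero_mul] at h1
    exact h1
  have htr : ∀ g, tr (((SLm j).comp ρ₀) g) = j (tr (ρ₀ g)) := fun g => tr_map j (ρ₀ g)
  have hj0 : j (tr (ρ₀ c₀)) ≠ 0 := hdv _ m₁ hd₁ hk2
  have hj2 : j (tr (ρ₀ (ψ x * ψ y * (ψ x)⁻¹ * (ψ y)⁻¹)) - 2) ≠ 0 := hdv _ m₂ hd₂ hk3
  have hfin := hsgn D k ((SLm j).comp ρ₀) ρ ψ.range (hidx2 x₀ hx₀)
    (by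
      rintro _ ⟨h, rfl⟩
      rw [htr]
      exact (hev k hk1 j ρ hρs h).symm)
    ⟨ψ x, ⟨x, rfl⟩, ψ y, ⟨y, rfl⟩, by
      rw [htr]
      intro h
      apply hj2
      rw [map_sub, h, map_ofNat, sub_self]⟩
    c₀ hc₀H (by rw [htr, hρ0]) (by rw [htr]; exact hj0) g
  rw [htr] at hfin
  exact hfin.symm

end Pool.Agent.F8.CG
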