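import Pool.Agent.Lib.MP_305fdd_al.F8.CG.MainY
import Pool.Agent.Lib.MP_305fdd_al.F8.CG.Fields
import Pool.Agent.Lib.MP_305fdd_al.F8.CG.P_thFm
import Pool.Agent.Lib.MP_305fdd_al.F8.CG.P_odd
import Pool.Agent.Lib.MP_305fdd_al.F8.CG.P_onem
import Pool.Agent.Lib.MP_305fdd_al.F8.CG.P_opm
import Pool.Agent.Lib.MP_305fdd_al.F8.CG.P_sepE
import Pool.Agent.Lib.MP_305fdd_al.F8.CG.P_sgn

/-!
# MP_305fdd_al, congruence subgroups of the Bianchi groups, `d = 1, 2, 3, 7, 11`: the final statements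
-/

set_option autoImplicit false

namespace Pool.Agent.F8.CG

open Pool.Agent.F8.BG Pool.Agent.MP_305fdd_al Pool.Agent.Lib.MP_305fdd_al Pool.Agent.F8
open scoped QuadraticAlgebra

theorem z_thFm : A_thFm :=
  p_thFm m_thF (p_odd BG.p_i1 BG.p_i2 m_gns m_smg) (p_onem (p_opm p_inj p_trq p_z1 p_jor) p_sepE)
    p_sgn

/-- the data of a quadratic field with a square root of `-1`, `-2`, `-3`, `-7` or `-11` -/
theorem ex_all (K : Type) [Field K] [NumberField K] (hK : Module.finrank ℚ K = 2) (w : K)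
    (hw : w ^ 2 = -1 ∨ w ^ 2 = -2 ∨ w ^ 2 = -3 ∨ w ^ 2 = -7 ∨ w ^ 2 = -11) :
    ∃ (a b : ℤ) (_ : DatC a b), Nonempty (Qf a b ℤ ≃+* NumberField.RingOfIntegers K) := by
  obtain ⟨p, hp, h⟩ := ex_ring K hK w hw
  exact ⟨p.1, p.2, datC z_thFm p hp, h⟩

end Pool.Agent.F8.CG
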