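import Pool.Agent.Lib.MP_305fdd_al.F8.CG.StmJ
import Pool.Agent.Lib.MP_305fdd_al.F8.CG.StmU
import Pool.Agent.Lib.MP_305fdd_al.F8.CG.StmCC
import Pool.Agent.Lib.MP_305fdd_al.F8.CG.MainZ
import Pool.Agent.Lib.MP_305fdd_al.F8.CG.MainG
import Pool.Agent.Lib.MP_305fdd_al.F8.CG.All

/-!
# MP_305fdd_al, congruence subgroups: assembly of block J, part 1

`RhoH a b m₀ m₁` for all `m₀ ≥ 3` and `m₁ ≠ 0`.
-/

set_option autoImplicit false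

namespace Pool.Agent.F8.CG

open Pool.Agent.F8.BG Pool.Agent.MP_305fdd_al Pool.Agent.Lib.MP_305fdd_al Pool.Agent.F8
open scoped QuadraticAlgebra

noncomputable section

/-- the data with a regular automorphism and the formula for the dimension -/
def HasR (a b : ℤ) : Prop := ∃ (ι : Type) (_ : Finite ι) (α : MulAut (FreeGroup ι)) (N : ℕ)
  (w : ι → List ι) (M : ℕ) (c g : FreeGroup ι) (G₀ : Subgroup (GQ a b)) (η : G₀ →* GR α),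
  BG.Dat α N w M c g G₀ η ∧ RgC α ∧ 3 ≤ 3 * M ∧ LD a b (3 * M)

theorem hasR_of (hU : U_ld) {a b : ℤ} (h5 : Five a b) (h : BG.HasDatP a b) : HasR a b := by
  obtain ⟨ι, _, α, N, w, M, c, g, G₀, η, hdat, hpn, -⟩ := h
  have hR : RgC α := by
    rcases hpn with ⟨i₀, hp, h0⟩ | ⟨v, i₀, hp⟩
    · exact fun D hD Λ _ _ Φ => m_rm2 ι α w i₀ hp h0 D hD Λ Φ
    · exact fun D hD Λ _ _ Φ => m_rm3 ι α v w i₀ hp D hD Λ Φ
  obtain ⟨h1, h2⟩ := hU a b h5 ι α N w M c g G₀ η hdat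
  exact ⟨ι, inferInstance, α, N, w, M, c, g, G₀, η, hdat, hR, h1, h2⟩

theorem five_of {p : ℤ × ℤ} (hp : p ∈ BG.fives) : Five p.1 p.2 := by
  simp only [BG.fives, List.mem_cons, List.not_mem_nil, or_false] at hp
  unfold Five
  rcases hp with rfl | rfl | rfl | rfl | rfl <;> simp

theorem hasR (hU : U_ld) : ∀ p ∈ BG.fives, HasR p.1 p.2 :=
  fun p hp => hasR_of hU (five_of hp) (BG.fiveP p hp)

/-- the statements of the blocks K, CC, FP -/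
structure BlkK : Prop where
  det : K_det
  app : K_app
  fp : FP_main

theorem fph_of (BK : BlkK) {a b : ℤ} (hn : b ^ 2 + 4 * a < 0) (hfg : Group.FG (GQ a b)) {M₀ : ℕ}
    (h3 : 3 ≤ M₀) (hL : LD a b M₀) {M₁ : ℕ} (hM : M₀ ∣ M₁) (h1 : M₁ ≠ 0) : FPh a b M₁ := by
  have : NeZero M₁ := ⟨h1⟩
  have hf : Finite (SL2 (Qf a b (ZMod M₁))) := inferInstance
  have hi : (Gam a b M₁).FiniteIndex := Subgroup.finiteIndex_ker _
  intro Ψ hΨ Q _ _ θ u hu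
  obtain ⟨x, hx⟩ := hu
  exact BK.fp a b hn hfg M₀ h3 hL (Gam a b M₁) (Gam a b M₁) (gam_le hM) (gam_le hM) hi hi Ψ hΨ
    Q θ u ⟨1, x, by rw [one_mul, inv_one, mul_one]; exact hx⟩

theorem he_gam {a b : ℤ} (hn : b ^ 2 + 4 * a < 0) {m : ℕ} (hm : m ≠ 0) {M' : ℕ} (hM : M' ≠ 0) :
    HE (Gam a b m) M' := by
  apply le_antisymm
  · intro x hx
    refine Subgroup.closure_mono ?_ (gen_Gam hn hm hM x hx)
    rintro z ⟨h1, h2⟩
    exact ⟨h1, Or.inr h2⟩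
  · rw [Subgroup.closure_le]
    rintro x ⟨h1, -⟩
    exact h1

/-- the determinant of the conjugator -/
theorem detU_of (B : Blk) (BK : BlkK) {a b : ℤ} (h : HasR a b) (m₀ : ℕ) (hm : m₀ ≠ 0)
    (D : Subgroup (GQ a b)) (hD : Gam a b m₀ ≤ D) (Λ : Type) [Group Λ] (Φ : NatBij D Λ)
    (ρ : Λ →* GQ a b) (hρ : RhoG D.subtype Φ ρ) (h1 : Gam a b m₀ ≤ ρ.range)
    (h2 : Function.Injective ρ) : DetU D.subtype Φ ρ := by
  obtain ⟨ι, _, α, N, w, M, c, g, G₀, η, hdat, hR, h3, hL⟩ := h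
  have hfg : Group.FG (GQ a b) := B.fg a b ι α M c g G₀ η hdat.eta
  have ha : a.natAbs ≠ 0 := by
    intro h0
    have h4 : a = 0 := Int.natAbs_eq_zero.1 h0
    have h5 := hdat.neg
    rw [h4] at h5
    nlinarith [sq_nonneg b]
  have hM₁ : m₀ * (3 * M * a.natAbs) ≠ 0 :=
    Nat.mul_ne_zero hm (Nat.mul_ne_zero (by omega) ha)
  have : NeZero m₀ := ⟨hm⟩
  have : NeZero (m₀ * (3 * M * a.natAbs)) := ⟨hM₁⟩
  have hfp := fph_of BK hdat.neg hfg h3 hL (M₁ := m₀ * (3 * M * a.natAbs))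
    (Dvd.dvd.mul_left (Dvd.intro _ rfl) _) hM₁
  refine BK.app a b m₀ (m₀ * (3 * M * a.natAbs)) (Dvd.intro _ rfl) ?_ D hD Λ Φ ρ hρ h1 h2
  intro Ψ hΨ
  exact BK.det a b ι α N w M c g G₀ η hdat hR (3 * M) _ h3 (Dvd.intro_left 3 rfl) hM₁
    (Dvd.intro_left m₀ rfl) hfp Ψ hΨ

/-- the theorem for `Γ(m₀)` -/
theorem rhoH_of (B : Blk) (BK : BlkK) (jh : J_h) (jun : J_un) {a b : ℤ} (H : DatC a b)
    (h : HasR a b) (m₀ m₁ : ℕ) (h3 : 3 ≤ m₀) (h1 : m₁ ≠ 0) : RhoH a b m₀ m₁ := by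
  intro Λ _ _ hR Ψ
  obtain ⟨M', -, HR⟩ := H.datR
  have hz : NegZ Ψ := fun h => absurd rfl (con_neg h3 (MonoidHom.mem_ker.1 h))
  have hm : m₀ ≠ 0 := by omega
  have : NeZero m₀ := ⟨hm⟩
  have : NeZero m₁ := ⟨h1⟩
  obtain ⟨ρ, r1, r2, r3⟩ := rho_ex B.e B.f B.con B.cl B.inj B.tr B.fg HR.h5 HR.hd HR.ne HR.uni
    (Gam a b m₀) m₀ hm le_rfl (he_gam HR.neg hm HR.ne) Λ hR Ψ hz
  have hd := detU_of B BK h m₀ hm (Gam a b m₀) le_rfl Λ Ψ ρ r1 r2 r3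
  exact jh a b HR.neg (jun a b HR.neg) m₀ m₁ Λ Ψ ρ hd r2 r3

end

end Pool.Agent.F8.CG
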