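import Pool.Agent.Lib.MP_305fdd_al.F8.CG.StmJ

/-!
# MP_305fdd_al, congruence subgroups: assembly of block J, part 2

The isomorphism of `Λ` with a subgroup `Γ₁` of `PGL₂(K)`.
-/

set_option autoImplicit false

namespace Pool.Agent.F8.CG

open Pool.Agent.F8.BG Pool.Agent.MP_305fdd_al Pool.Agent.Lib.MP_305fdd_al Pool.Agent.F8
open scoped QuadraticAlgebra

noncomputable section

/-- the statements of block J -/
structure BlkJ : Prop where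
  rep : J_rep
  nsq : J_nsq
  core : J_core
  dat : J_dat
  pi : J_pi
  mul : J_mul
  uq : J_uq
  act : J_act
  cmp : J_cmp
  sc : J_sc
  ker : J_ker
  par : J_par
  gtr : J_gtr
  sqr : J_sqr

variable {a b : ℤ} {K : Type} [Field K] {φ : Qf a b ℤ →+* K} {Γ : Subgroup (PGK K)} {m₀ m₁ : ℕ}
  {Λ : Type} [Group Λ] {Φ : NatBij Γ Λ} {Q : Type} [Group Q] [Finite Q] {π : Γ →* Q}
  {L : Subgroup Λ} {ρ : L →* GQ a b}

/-- the homomorphism `Λ → PGL₂(K)` -/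
def thJ (BJ : BlkJ) (H : JD φ Γ m₀ m₁ Φ π L ρ) (R : RepF φ) : Λ →* PGK K where
  toFun l := (BJ.act a b K φ Γ m₀ m₁ Λ Φ Q π L ρ H R l).choose
  map_one' := BJ.uq a b K φ Γ m₀ m₁ Λ Φ Q π L ρ H R 1 _ _
    (BJ.act a b K φ Γ m₀ m₁ Λ Φ Q π L ρ H R 1).choose_spec
    (BJ.mul a b K φ Γ m₀ m₁ Λ Φ Q π L ρ H R).2.2.1
  map_mul' l l' := BJ.uq a b K φ Γ m₀ m₁ Λ Φ Q π L ρ H R (l * l') _ _
    (BJ.act a b K φ Γ m₀ m₁ Λ Φ Q π L ρ H R (l * l')).choose_spec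
    ((BJ.mul a b K φ Γ m₀ m₁ Λ Φ Q π L ρ H R).1 l l' _ _
      (BJ.act a b K φ Γ m₀ m₁ Λ Φ Q π L ρ H R l).choose_spec
      (BJ.act a b K φ Γ m₀ m₁ Λ Φ Q π L ρ H R l').choose_spec)

theorem thJ_spec (BJ : BlkJ) (H : JD φ Γ m₀ m₁ Φ π L ρ) (R : RepF φ) (l : Λ) :
    IsTh φ Φ π ρ l (thJ BJ H R l) := (BJ.act a b K φ Γ m₀ m₁ Λ Φ Q π L ρ H R l).choose_spec

theorem thJ_eq (BJ : BlkJ) (H : JD φ Γ m₀ m₁ Φ π L ρ) (R : RepF φ) {l : Λ} {τ : PGK K}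
    (h : IsTh φ Φ π ρ l τ) : thJ BJ H R l = τ :=
  BJ.uq a b K φ Γ m₀ m₁ Λ Φ Q π L ρ H R l _ _ (thJ_spec BJ H R l) h

theorem thJ_L (BJ : BlkJ) (H : JD φ Γ m₀ m₁ Φ π L ρ) (R : RepF φ) (l : L) :
    thJ BJ H R l = pcQ φ (ρ l) :=
  thJ_eq BJ H R ((BJ.mul a b K φ Γ m₀ m₁ Λ Φ Q π L ρ H R).2.1 l)

theorem JD.rho_mem (H : JD φ Γ m₀ m₁ Φ π L ρ) (l : L) : ρ l ∈ Gam a b m₀ := by
  rw [← H.rng]
  exact ⟨l, rfl⟩

theorem JD.pi (BJ : BlkJ) (H : JD φ Γ m₀ m₁ Φ π L ρ) (l : L) :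
    Φ.toFun Q π l = π ⟨pcQ φ (ρ l), H.le _ (H.rho_mem l)⟩ :=
  BJ.pi a b K φ Γ m₀ m₁ Λ Φ Q π L ρ H l _

theorem JD.mem_of_one (H : JD φ Γ m₀ m₁ Φ π L ρ) {l : Λ} (h : Φ.toFun Q π l = 1) : l ∈ L := by
  rw [H.memL]
  refine ⟨1, one_mem _, ?_⟩
  have h1 : (⟨pcQ φ 1, H.le 1 (one_mem _)⟩ : Γ) = 1 := Subtype.ext (map_one _)
  rw [h1, map_one, h]

/-- the kernel of `π`, as a subgroup of `PGL₂(K)` -/
def NJ (π : Γ →* Q) : Subgroup (PGK K) := π.ker.map Γ.subtype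

omit [Finite Q] in
theorem mem_NJ {x : PGK K} : x ∈ NJ π ↔ ∃ h : x ∈ Γ, π ⟨x, h⟩ = 1 := by
  constructor
  · rintro ⟨y, hy, rfl⟩
    exact ⟨y.2, hy⟩
  · rintro ⟨h, hx⟩
    exact ⟨⟨x, h⟩, hx, rfl⟩

theorem NJ_le : NJ π ≤ Γ := by
  intro x hx
  exact (mem_NJ.1 hx).choose

/-- the image of the kernel of `Φ π` -/
theorem map_ker (BJ : BlkJ) (H : JD φ Γ m₀ m₁ Φ π L ρ) (R : RepF φ) :
    (Φ.toFun Q π).ker.map (thJ BJ H R) = NJ π := by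
  ext x
  constructor
  · rintro ⟨l, hl, rfl⟩
    have hl' : Φ.toFun Q π l = 1 := hl
    have h1 := thJ_L BJ H R ⟨l, H.mem_of_one hl'⟩
    have h2 := H.pi BJ ⟨l, H.mem_of_one hl'⟩
    have h3 : thJ BJ H R l = pcQ φ (ρ ⟨l, H.mem_of_one hl'⟩) := h1
    rw [h3, mem_NJ]
    refine ⟨H.le _ (H.rho_mem _), ?_⟩
    rw [← h2]
    exact hl'
  · intro hx
    obtain ⟨h, hx⟩ := mem_NJ.1 hx
    obtain ⟨y, hy, hyx⟩ := H.ker _ hx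
    have hyx' : pcQ φ y = x := hyx
    rw [← H.rng] at hy
    obtain ⟨l, rfl⟩ := hy
    refine ⟨l, ?_, ?_⟩
    · show Φ.toFun Q π l = 1
      rw [H.pi BJ l]
      have h1 : (⟨pcQ φ (ρ l), H.le _ (H.rho_mem l)⟩ : Γ) = ⟨x, h⟩ := Subtype.ext hyx'
      rw [h1, hx]
    · rw [thJ_L BJ H R l]
      exact hyx'

theorem NJ_relIndex : (NJ π).relIndex Γ = Nat.card π.range := by
  have h1 : (NJ π).subgroupOf Γ = π.ker := by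
    ext x
    rw [Subgroup.mem_subgroupOf, mem_NJ, MonoidHom.mem_ker]
    exact ⟨fun h => h.choose_spec, fun h => ⟨x.2, h⟩⟩
  show ((NJ π).subgroupOf Γ).index = _
  rw [h1, Subgroup.index_ker]

theorem NJ_relIndex' (BJ : BlkJ) (H : JD φ Γ m₀ m₁ Φ π L ρ) (R : RepF φ)
    (hi : Function.Injective (thJ BJ H R)) :
    (NJ π).relIndex (thJ BJ H R).range = Nat.card π.range := by
  rw [← map_ker BJ H R, MonoidHom.range_eq_map, Subgroup.relIndex_map_map_of_injective _ _ hi]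
  have h1 : (Φ.toFun Q π).ker.relIndex ⊤ = (Φ.toFun Q π).ker.index := Subgroup.relIndex_top_right _
  rw [h1, Subgroup.index_ker, Φ.range_eq]

/-! ### Matrices which are scalar modulo `k` -/

theorem ScQ_iff (k : ℕ) (X : MQ a b) :
    ScQ k X ↔ ∃ (s : Qf a b ℤ) (Y : MQ a b), X = s • 1 + (k : Qf a b ℤ) • Y := by
  constructor
  · rintro ⟨⟨p, hp⟩, ⟨q, hq⟩, ⟨r, hr⟩⟩
    refine ⟨X 1 1, !![r, p; q, 0], ?_⟩
    refine Matrix.ext fun i j => ?_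
    fin_cases i <;> fin_cases j
    · simp
      linear_combination hr
    · simpa using hp
    · simpa using hq
    · simp
  · rintro ⟨s, Y, rfl⟩
    refine ⟨⟨Y 0 1, by simp⟩, ⟨Y 1 0, by simp⟩, ⟨Y 0 0 - Y 1 1, ?_⟩⟩
    simp
    ring

theorem ScQ.mul {k : ℕ} {X X' : MQ a b} (h : ScQ k X) (h' : ScQ k X') : ScQ k (X * X') := by
  obtain ⟨s, Y, rfl⟩ := (ScQ_iff k X).1 h
  obtain ⟨s', Y', rfl⟩ := (ScQ_iff k X').1 h'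
  rw [ScQ_iff]
  refine ⟨s * s', s • Y' + s' • Y + (k : Qf a b ℤ) • (Y * Y'), ?_⟩
  rw [add_mul, mul_add, mul_add]
  simp only [Matrix.smul_mul, Matrix.mul_smul, Matrix.one_mul, Matrix.mul_one, smul_smul,
    smul_add]
  rw [mul_comm s' s, mul_comm s' (k : Qf a b ℤ)]
  abel

theorem ScQ.adj {k : ℕ} {X : MQ a b} (h : ScQ k X) : ScQ k X.adjugate := by
  obtain ⟨h1, h2, h3⟩ := h
  rw [Matrix.adjugate_fin_two]
  refine ⟨?_, ?_, ?_⟩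
  · show (k : Qf a b ℤ) ∣ -X 0 1
    exact (dvd_neg).2 h1
  · show (k : Qf a b ℤ) ∣ -X 1 0
    exact (dvd_neg).2 h2
  · show (k : Qf a b ℤ) ∣ X 1 1 - X 0 0
    rw [← neg_sub]
    exact (dvd_neg).2 h3

theorem ScQ.conj {k : ℕ} {X : MQ a b} (h : ScQ k X) (g g' : MQ a b) (hg : g * g' = 1) :
    ScQ k (g * X * g') := by
  obtain ⟨s, Y, rfl⟩ := (ScQ_iff k X).1 h
  rw [ScQ_iff]
  refine ⟨s, g * Y * g', ?_⟩
  rw [mul_add, add_mul]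
  simp only [Matrix.smul_mul, Matrix.mul_smul, Matrix.mul_one, hg]

theorem ScQ.mono {k k' : ℕ} (hk : k ∣ k') {X : MQ a b} (h : ScQ k' X) : ScQ k X := by
  obtain ⟨c, rfl⟩ := hk
  obtain ⟨h1, h2, h3⟩ := h
  rw [Nat.cast_mul] at h1 h2 h3
  exact ⟨dvd_of_mul_right_dvd h1, dvd_of_mul_right_dvd h2, dvd_of_mul_right_dvd h3⟩

theorem DelQ.mono {k k' : ℕ} (hk : k ∣ k') {δ : PGK K} (h : DelQ φ k' δ) : DelQ φ k δ := by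
  obtain ⟨X, h1, h2, h3⟩ := h
  exact ⟨X, h1, h2.mono hk, h3⟩

theorem DelQ.mul (R : RepF φ) {k : ℕ} {δ δ' : PGK K} (h : DelQ φ k δ) (h' : DelQ φ k δ') :
    DelQ φ k (δ * δ') := by
  obtain ⟨X, h1, h2, h3⟩ := h
  obtain ⟨X', h1', h2', h3'⟩ := h'
  exact ⟨X * X', by rw [Matrix.det_mul]; exact h1.mul h1', h2.mul h2', R.mul _ _ _ _ h3 h3'⟩

theorem DelQ.inv (R : RepF φ) {k : ℕ} {δ : PGK K} (h : DelQ φ k δ) : DelQ φ k δ⁻¹ := by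
  obtain ⟨X, h1, h2, h3⟩ := h
  refine ⟨X.adjugate, ?_, h2.adj, R.inv _ _ h3⟩
  rw [Matrix.det_adjugate, Fintype.card_fin]
  simpa using h1

theorem SL_inv_val (g : GQ a b) : g.val * (g⁻¹).val = 1 := by
  have h := congrArg Subtype.val (mul_inv_cancel g)
  exact h

theorem DelQ.conj (R : RepF φ) {k : ℕ} {δ : PGK K} (h : DelQ φ k δ) (g : GQ a b) :
    DelQ φ k (pcQ φ g * δ * (pcQ φ g)⁻¹) := by
  obtain ⟨X, h1, h2, h3⟩ := h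
  refine ⟨g.val * X * (g⁻¹).val, ?_, h2.conj _ _ (SL_inv_val g), ?_⟩
  · rw [Matrix.det_mul, Matrix.det_mul, g.2, (g⁻¹).2, one_mul, mul_one]
    exact h1
  · rw [← map_inv]
    exact R.mul _ _ _ _ (R.mul _ _ _ _ (R.pc g) h3) (R.pc g⁻¹)

theorem delQ_gam (R : RepF φ) {k : ℕ} {x : GQ a b} (hx : x ∈ Gam a b k) :
    DelQ φ k (pcQ φ x) := by
  refine ⟨x.val, by rw [x.2]; exact isUnit_one, ?_, R.pc x⟩
  have key : ∀ i j, (k : Qf a b ℤ) ∣ x.val i j - (1 : GQ a b).val i j := by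
    intro i j
    have h1 := gam_entries hx i j
    rw [← sub_eq_zero, ← map_sub] at h1
    exact E_ker a b k _ h1
  have e01 : (1 : GQ a b).val 0 1 = 0 := rfl
  have e10 : (1 : GQ a b).val 1 0 = 0 := rfl
  have e00 : (1 : GQ a b).val 0 0 = 1 := rfl
  have e11 : (1 : GQ a b).val 1 1 = 1 := rfl
  have h01 := key 0 1
  have h10 := key 1 0
  have h00 := key 0 0
  have h11 := key 1 1
  rw [e01, sub_zero] at h01
  rw [e10, sub_zero] at h10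
  rw [e00] at h00
  rw [e11] at h11
  refine ⟨h01, h10, ?_⟩
  have h2 := dvd_sub h00 h11
  rwa [sub_sub_sub_cancel_right] at h2

/-! ### The comparison of `Γ` and `Γ₁` -/

/-- the comparison for the elements of `Λ` -/
theorem th_cmp (BJ : BlkJ) (H : JD φ Γ m₀ m₁ Φ π L ρ) (R : RepF φ)
    (hp : IsPrincipalIdealRing (Qf a b ℤ)) (l : Λ) (k : ℕ) [NeZero k] :
    ∃ γ : Γ, π γ = Φ.toFun Q π l ∧ ∃ δ, DelQ φ k δ ∧ thJ BJ H R l = γ * δ := by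
  obtain ⟨γ, h1, h, hh, δ, h2, h3⟩ := BJ.cmp a b K φ Γ m₀ m₁ Λ Φ Q π L ρ H R hp l _
    (thJ_spec BJ H R l) k Q π
  have hm : h ∈ Gam a b m₀ := gam_le H.dvd hh
  refine ⟨⟨pcQ φ h, H.le h hm⟩ * γ * (⟨pcQ φ h, H.le h hm⟩)⁻¹, ?_, δ, h2, h3⟩
  have h4 : π ⟨pcQ φ h, H.le h hm⟩ = 1 := H.ker' _ ⟨h, hh, rfl⟩
  rw [map_mul, map_mul, map_inv, h4, one_mul, inv_one, mul_one, h1]

/-- the conclusions about `Γ₁` -/
structure OutJ (φ : Qf a b ℤ →+* K) (Γ Γ₁ : Subgroup (PGK K)) (m₀ : ℕ) : Prop where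
  le : ∀ x ∈ Gam a b m₀, pcQ φ x ∈ Γ₁
  ind : ∃ N : Subgroup (PGK K), N ≤ Γ ∧ N ≤ Γ₁ ∧ N.relIndex Γ ≠ 0 ∧
    N.relIndex Γ₁ = N.relIndex Γ ∧ N ≤ (Gam a b m₀).map (pcQ φ)
  cmp : ∀ k : ℕ, k ≠ 0 → ∀ τ ∈ Γ₁, ∃ γ ∈ Γ, DelQ φ k (γ⁻¹ * τ)
  cmp' : ∀ k : ℕ, k ≠ 0 → ∀ γ ∈ Γ, ∃ τ ∈ Γ₁, DelQ φ k (γ⁻¹ * τ)

theorem th_out (BJ : BlkJ) (H : JD φ Γ m₀ m₁ Φ π L ρ) (R : RepF φ)
    (hp : IsPrincipalIdealRing (Qf a b ℤ)) (hi : Function.Injective (thJ BJ H R)) :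
    OutJ φ Γ (thJ BJ H R).range m₀ := by
  have hN : NJ π ≤ (thJ BJ H R).range := by
    rw [← map_ker BJ H R]
    exact Subgroup.map_le_range _ _
  refine ⟨?_, ⟨NJ π, NJ_le, hN, ?_, ?_, ?_⟩, ?_, ?_⟩
  · intro x hx
    rw [← H.rng] at hx
    obtain ⟨l, rfl⟩ := hx
    exact ⟨l, thJ_L BJ H R l⟩
  · rw [NJ_relIndex]
    exact Nat.card_pos.ne'
  · rw [NJ_relIndex, NJ_relIndex' BJ H R hi]
  · intro x hx
    obtain ⟨h, hx⟩ := mem_NJ.1 hx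
    obtain ⟨y, hy, hyx⟩ := H.ker _ hx
    exact ⟨y, hy, hyx⟩
  · rintro k hk _ ⟨l, rfl⟩
    have : NeZero k := ⟨hk⟩
    obtain ⟨γ, -, δ, h1, h2⟩ := th_cmp BJ H R hp l k
    refine ⟨γ, γ.2, ?_⟩
    rw [h2, inv_mul_cancel_left]
    exact h1
  · intro k hk γ hγ
    have : NeZero k := ⟨hk⟩
    have h0 : π ⟨γ, hγ⟩ ∈ (Φ.toFun Q π).range := by
      rw [Φ.range_eq]
      exact ⟨_, rfl⟩
    obtain ⟨l, hl⟩ := h0
    obtain ⟨γ', h1, δ, h2, h3⟩ := th_cmp BJ H R hp l k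
    have h4 : π (γ'⁻¹ * ⟨γ, hγ⟩) = 1 := by
      rw [map_mul, map_inv, h1, hl, inv_mul_cancel]
    obtain ⟨y, hy, hyx⟩ := H.ker _ h4
    have h5 : pcQ φ y = (γ' : PGK K)⁻¹ * γ := hyx
    have h6 : pcQ φ y ∈ (thJ BJ H R).range := by
      rw [← H.rng] at hy
      obtain ⟨l', rfl⟩ := hy
      exact ⟨l', thJ_L BJ H R l'⟩
    refine ⟨thJ BJ H R l * pcQ φ y, mul_mem ⟨l, rfl⟩ h6, ?_⟩
    have h7 : γ = γ' * pcQ φ y := by rw [h5, mul_inv_cancel_left]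
    have h8 : γ⁻¹ * (thJ BJ H R l * pcQ φ y) = pcQ φ y⁻¹ * δ * (pcQ φ y⁻¹)⁻¹ := by
      rw [h3, h7, map_inv, inv_inv]
      group
    rw [h8]
    exact h2.conj R y⁻¹

end

end Pool.Agent.F8.CG
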