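import Pool.Agent.Lib.MP_305fdd_al.F8.CG.MainJ2

/-!
# MP_305fdd_al, congruence subgroups: assembly of block J, part 3

The main theorems over `ℤ[w]`.
-/

set_option autoImplicit false

namespace Pool.Agent.F8.CG

open Pool.Agent.F8.BG Pool.Agent.MP_305fdd_al Pool.Agent.Lib.MP_305fdd_al Pool.Agent.F8
open scoped QuadraticAlgebra

noncomputable section

/-- all the data -/
structure DatJ (a b : ℤ) : Prop where
  dat : DatC a b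
  rho : ∀ m₀ m₁ : ℕ, 3 ≤ m₀ → m₁ ≠ 0 → RhoH a b m₀ m₁
  u36 : Uni a b 36

theorem DatJ.pir (W : BlkW) {a b : ℤ} (H : DatJ a b) : IsPrincipalIdealRing (Qf a b ℤ) :=
  (W.ar a b H.dat.five).1

private theorem fg_cover {G : Type} [Group G] (N : Subgroup G) (hN : N.FG) (R : Set G)
    (hR : R.Finite) (h : ∀ g, ∃ r ∈ R, ∃ n ∈ N, g = r * n) : Group.FG G := by
  obtain ⟨S, hS, hfin⟩ := (Subgroup.fg_iff N).1 hN
  rw [Group.fg_iff]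
  refine ⟨S ∪ R, ?_, hfin.union hR⟩
  rw [eq_top_iff]
  intro g _
  obtain ⟨r, hr, n, hn, rfl⟩ := h g
  refine mul_mem (Subgroup.subset_closure (Or.inr hr)) ?_
  rw [← hS] at hn
  exact Subgroup.closure_mono Set.subset_union_left hn

private theorem fg_index {G : Type} [Group G] (N : Subgroup G) (hN : Group.FG N)
    (hi : N.FiniteIndex) : Group.FG G := by
  have h0 : Finite (G ⧸ N) := Subgroup.finite_quotient_of_finiteIndex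
  refine fg_cover N ((Group.fg_iff_subgroup_fg N).1 hN) (Set.range (Quotient.out : G ⧸ N → G))
    (Set.finite_range _) ?_
  intro g
  refine ⟨_, ⟨(g : G ⧸ N), rfl⟩, (Quotient.out (g : G ⧸ N))⁻¹ * g, ?_, by group⟩
  exact QuotientGroup.eq.1 (Quotient.out_eq _)

variable {a b : ℤ} {K : Type} [Field K] {φ : Qf a b ℤ →+* K}

/-- `Γ` is finitely generated -/
theorem fg_Gam {m₀ : ℕ} (hfg : Group.FG (Gam a b m₀)) (Γ : Subgroup (PGK K))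
    (hle : ∀ x ∈ Gam a b m₀, pcQ φ x ∈ Γ)
    (hfi : (((Gam a b m₀).map (pcQ φ)).subgroupOf Γ).FiniteIndex) : Group.FG Γ := by
  refine fg_index _ ?_ hfi
  have hle' : (Gam a b m₀).map (pcQ φ) ≤ Γ := by
    rintro _ ⟨x, hx, rfl⟩
    exact hle x hx
  have h1 : Group.FG ((Gam a b m₀).map (pcQ φ)) :=
    Group.fg_of_surjective (f := (pcQ φ).subgroupMap (Gam a b m₀))
      ((pcQ φ).subgroupMap_surjective _)
  exact Group.fg_of_surjective (f := (Subgroup.subgroupOfEquivOfLe hle').symm.toMonoidHom)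
    (Subgroup.subgroupOfEquivOfLe hle').symm.surjective

/-- the additional hypothesis of the second criterion -/
def GenJ (φ : Qf a b ℤ →+* K) (Γ : Subgroup (PGK K)) (m₀ M' : ℕ) : Prop :=
  (∀ x ∈ Γ, ∃ g : GQ a b, pcQ φ g = x) ∧ Γ ≤ Subgroup.closure {x | x ∈ Γ ∧
    ((∃ y ∈ Γ, x = y * y) ∨ ∃ g : GQ a b, pcQ φ g = x ∧ (g ∈ Gam a b m₀ ∨ ∃ y, CjG M' g y))}

section

variable {Γ : Subgroup (PGK K)} {m₀ m₁ : ℕ}
  {Λ : Type} [Group Λ] {Φ : NatBij Γ Λ} {Q : Type} [Group Q] [Finite Q] {π : Γ →* Q}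
  {L : Subgroup Λ} {ρ : L →* GQ a b}

theorem th_good (BJ : BlkJ) (H : JD φ Γ m₀ m₁ Φ π L ρ) (R : RepF φ) [Group.FG Λ]
    (hp : IsPrincipalIdealRing (Qf a b ℤ))
    (hfi : (((Gam a b m₀).map (pcQ φ)).subgroupOf Γ).FiniteIndex) {k₀ : ℕ} (hk₀ : k₀ ≠ 0)
    (hsq : ∀ u s : Qf a b ℤ, IsUnit u → (k₀ : Qf a b ℤ) ∣ u - s ^ 2 → ∃ v, IsUnit v ∧ u = v ^ 2)
    {M' : ℕ} (hM3 : 3 ≤ M') (hU : Uni a b M') {x : GQ a b} {y : MQ a b} (hx : pcQ φ x ∈ Γ)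
    (hxy : CjG M' x y) : pcQ φ x ∈ (thJ BJ H R).range := by
  have hm₀ : m₀ ≠ 0 := by
    have := H.h5
    omega
  have hgam : ∀ z ∈ Gam a b m₀, pcQ φ z ∈ (thJ BJ H R).range := by
    intro z hz
    rw [← H.rng] at hz
    obtain ⟨l, rfl⟩ := hz
    exact ⟨l, thJ_L BJ H R l⟩
  obtain ⟨l, τ, -, h2, g, hg, h3, z, hz, h4⟩ := BJ.gtr a b K φ Γ m₀ m₁ Λ Φ Q π L ρ H R hp hfi k₀
    hk₀ hsq M' hM3 hU x y hx hxy m₀ hm₀
  have h5 : τ ∈ (thJ BJ H R).range := ⟨l, thJ_eq BJ H R h2⟩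
  have h6 : π (⟨pcQ φ x, hx⟩⁻¹ * ⟨pcQ φ g, hg⟩) = 1 := by
    rw [map_mul, map_inv, h3, inv_mul_cancel]
  obtain ⟨n, hn, hnx⟩ := H.ker _ h6
  have h7 : pcQ φ n = (pcQ φ x)⁻¹ * pcQ φ g := hnx
  have h8 : pcQ φ x = τ * (pcQ φ z)⁻¹ * (pcQ φ n)⁻¹ := by
    rw [h4, h7]
    group
  rw [h8]
  exact mul_mem (mul_mem h5 (inv_mem (hgam z hz))) (inv_mem (hgam n hn))

/-- the elements of `Λ` without a sign -/
def LamO (BJ : BlkJ) (H : JD φ Γ m₀ m₁ Φ π L ρ) (R : RepF φ) (k₁ : ℕ) : Subgroup Λ where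
  carrier := {l | ∃ g : GQ a b, ∃ hg : pcQ φ g ∈ Γ, Φ.toFun Q π l = π ⟨pcQ φ g, hg⟩ ∧
    ∃ z ∈ Gam a b k₁, thJ BJ H R l = pcQ φ g * pcQ φ z}
  mul_mem' := by
    rintro l l' ⟨g, hg, h1, z, hz, h2⟩ ⟨g', hg', h1', z', hz', h2'⟩
    refine ⟨g * g', by rw [map_mul]; exact mul_mem hg hg', ?_, g'⁻¹ * z * g' * z', ?_, ?_⟩
    · rw [map_mul, h1, h1', ← map_mul]
      congr 1
      exact Subtype.ext (map_mul _ _ _).symm
    · refine mul_mem ?_ hz'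
      have := (MonoidHom.normal_ker (rdq a b k₁)).conj_mem z hz g'⁻¹
      rwa [inv_inv] at this
    · rw [map_mul, h2, h2']
      simp only [map_mul, map_inv]
      group
  one_mem' := by
    refine ⟨1, by rw [map_one]; exact one_mem _, ?_, 1, one_mem _, ?_⟩
    · rw [map_one]
      have h1 : (⟨pcQ φ 1, by rw [map_one]; exact one_mem _⟩ : Γ) = 1 := Subtype.ext (map_one _)
      rw [h1, map_one]
    · rw [map_one, map_one, mul_one]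
  inv_mem' := by
    rintro l ⟨g, hg, h1, z, hz, h2⟩
    refine ⟨g⁻¹, by rw [map_inv]; exact inv_mem hg, ?_, g * z⁻¹ * g⁻¹, ?_, ?_⟩
    · rw [map_inv, h1, ← map_inv]
      congr 1
      exact Subtype.ext (map_inv _ _).symm
    · exact (MonoidHom.normal_ker (rdq a b k₁)).conj_mem _ (inv_mem hz) g
    · rw [map_inv, h2]
      simp only [map_mul, map_inv]
      group

theorem L_le_LamO (BJ : BlkJ) (H : JD φ Γ m₀ m₁ Φ π L ρ) (R : RepF φ) (k₁ : ℕ) :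
    L ≤ LamO BJ H R k₁ := by
  intro l hl
  refine ⟨ρ ⟨l, hl⟩, H.le _ (H.rho_mem _), H.pi BJ ⟨l, hl⟩, 1, one_mem _, ?_⟩
  rw [map_one, mul_one]
  exact thJ_L BJ H R ⟨l, hl⟩

theorem th_gen (BJ : BlkJ) (H : JD φ Γ m₀ m₁ Φ π L ρ) (R : RepF φ) [Group.FG Λ]
    (hp : IsPrincipalIdealRing (Qf a b ℤ))
    (hfi : (((Gam a b m₀).map (pcQ φ)).subgroupOf Γ).FiniteIndex) {k₀ : ℕ} (hk₀ : k₀ ≠ 0)
    (hsq : ∀ u s : Qf a b ℤ, IsUnit u → (k₀ : Qf a b ℤ) ∣ u - s ^ 2 → ∃ v, IsUnit v ∧ u = v ^ 2)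
    {M' : ℕ} (hM3 : 3 ≤ M') (hU : Uni a b M') (hG : GenJ φ Γ m₀ M') :
    (thJ BJ H R).range ≤ Γ := by
  have hm₀ : m₀ ≠ 0 := by
    have := H.h5
    omega
  have hrng : ∀ x : Γ, ∃ l, Φ.toFun Q π l = π x := by
    intro x
    have h0 : π x ∈ (Φ.toFun Q π).range := by
      rw [Φ.range_eq]
      exact ⟨_, rfl⟩
    obtain ⟨l, hl⟩ := h0
    exact ⟨l, hl⟩
  -- the classes of the elements of `Γ`
  have key : ∀ x (hx : x ∈ Γ), ∃ l ∈ LamO BJ H R m₀, Φ.toFun Q π l = π ⟨x, hx⟩ := by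
    intro x hx
    have hcl := hG.2 hx
    have key2 : ∀ x, x ∈ Subgroup.closure {x | x ∈ Γ ∧ ((∃ y ∈ Γ, x = y * y) ∨
        ∃ g : GQ a b, pcQ φ g = x ∧ (g ∈ Gam a b m₀ ∨ ∃ y, CjG M' g y))} →
        ∃ hx : x ∈ Γ, ∃ l ∈ LamO BJ H R m₀, Φ.toFun Q π l = π ⟨x, hx⟩ := by
      intro x hx
      refine Subgroup.closure_induction (p := fun x _ => ∃ hx : x ∈ Γ,
        ∃ l ∈ LamO BJ H R m₀, Φ.toFun Q π l = π ⟨x, hx⟩) ?_ ?_ ?_ ?_ hx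
      · rintro x ⟨hx, ⟨y, hy, rfl⟩ | ⟨g, rfl, hg | ⟨y, hgy⟩⟩⟩
        · obtain ⟨l, hl⟩ := hrng ⟨y, hy⟩
          obtain ⟨τ, h1, g, hg, h2, z, hz, h3⟩ := BJ.sqr a b K φ Γ m₀ m₁ Λ Φ Q π L ρ H R hp k₀ hk₀
            hsq (fun x => hG.1 x.val x.2) l m₀ hm₀
          refine ⟨hx, l * l, ⟨g, hg, h2, z, hz, ?_⟩, ?_⟩
          · rw [thJ_eq BJ H R h1, h3]
          · rw [map_mul, hl, ← map_mul]
            rfl
        · have hg' := hg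
          rw [← H.rng] at hg'
          obtain ⟨l, rfl⟩ := hg'
          exact ⟨hx, l, L_le_LamO BJ H R m₀ l.2, H.pi BJ l⟩
        · obtain ⟨l, τ, h1, h2, g', hg', h3, z, hz, h4⟩ := BJ.gtr a b K φ Γ m₀ m₁ Λ Φ Q π L ρ H R
            hp hfi k₀ hk₀ hsq M' hM3 hU g y hx hgy m₀ hm₀
          refine ⟨hx, l, ⟨g', hg', by rw [h1, h3], z, hz, ?_⟩, h1⟩
          rw [thJ_eq BJ H R h2, h4]
      · refine ⟨one_mem _, 1, one_mem _, ?_⟩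
        have h1 : (⟨1, one_mem Γ⟩ : Γ) = 1 := rfl
        rw [h1, map_one, map_one]
      · rintro x y _ _ ⟨hx, l, hl, h1⟩ ⟨hy, l', hl', h2⟩
        refine ⟨mul_mem hx hy, l * l', mul_mem hl hl', ?_⟩
        rw [map_mul, h1, h2, ← map_mul]
        rfl
      · rintro x _ ⟨hx, l, hl, h1⟩
        refine ⟨inv_mem hx, l⁻¹, inv_mem hl, ?_⟩
        rw [map_inv, h1, ← map_inv]
        rfl
    obtain ⟨hx', h⟩ := key2 x hcl
    exact h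
  rintro _ ⟨l, rfl⟩
  have h0 : Φ.toFun Q π l ∈ π.range := by
    rw [← Φ.range_eq]
    exact ⟨_, rfl⟩
  obtain ⟨⟨x, hx⟩, hxl⟩ := h0
  obtain ⟨l', hl', h1⟩ := key x hx
  have h2 : Φ.toFun Q π (l'⁻¹ * l) = 1 := by
    rw [map_mul, map_inv, h1, hxl, inv_mul_cancel]
  have h3 : l ∈ LamO BJ H R m₀ := by
    have h4 := L_le_LamO BJ H R m₀ (H.mem_of_one h2)
    have h5 := mul_mem hl' h4
    rwa [mul_inv_cancel_left] at h5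
  obtain ⟨g, hg, -, z, hz, h4⟩ := h3
  rw [h4]
  exact mul_mem hg (H.le z hz)

end

/-- THE MAIN THEOREM over `ℤ[w]` -/
theorem ex_out (BJ : BlkJ) (W : BlkW) (B : Blk) (H : DatJ a b) (hF : FracQ φ)
    {M' : ℕ} (hM3 : 3 ≤ M') (hU : Uni a b M') (Γ : Subgroup (PGK K)) (m₀ : ℕ) (h5 : 5 ≤ m₀)
    (hle : ∀ x ∈ Gam a b m₀, pcQ φ x ∈ Γ)
    (hfi : (((Gam a b m₀).map (pcQ φ)).subgroupOf Γ).FiniteIndex)
    (Λ : Type) [Group Λ] (hΛ : InGenus Γ Λ) :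
    ∃ Γ₁ : Subgroup (PGK K), Nonempty (Λ ≃* Γ₁) ∧ OutJ φ Γ Γ₁ m₀ ∧
      (∀ x : GQ a b, pcQ φ x ∈ Γ → (∃ y, CjG M' x y) → pcQ φ x ∈ Γ₁) ∧
      (GenJ φ Γ m₀ M' → Γ₁ ≤ Γ) := by
  have hneg := H.dat.neg
  have R : RepF φ := BJ.rep a b hneg K φ hF
  have hp := H.pir W
  obtain ⟨k₀, hk₀, hsq⟩ := BJ.nsq a b hneg H.dat.five
  have hm₀ : m₀ ≠ 0 := by omega
  have : NeZero m₀ := ⟨hm₀⟩
  obtain ⟨m₁, hm₁, hdvd, Q, _, _, π, h1, h2⟩ := BJ.core a b hneg K φ hF R Γ m₀ hm₀ hle hfi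
  obtain ⟨hfg, hrf, hsame⟩ := hΛ
  have hfgD : Group.FG (Gam a b m₀) := fg_D B H.dat (Gam a b m₀) m₀ le_rfl
  have hfgΓ : Group.FG Γ := fg_Gam hfgD Γ hle hfi
  obtain ⟨Φ⟩ := exists_natBij hsame.symm
  obtain ⟨L, ρ, hJ⟩ := BJ.dat a b hneg K φ hF R Γ m₀ m₁ h5 hdvd hm₁
    (H.rho m₀ m₁ (by omega) hm₁) hle Q π h1 h2 Λ hrf Φ
  have hi : Function.Injective (thJ BJ hJ R) := by
    rw [injective_iff_map_eq_one]
    intro l hl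
    have h3 := thJ_spec BJ hJ R l
    rw [hl] at h3
    exact BJ.ker a b K φ Γ m₀ m₁ Λ Φ Q π L ρ hJ R hp H.dat.hg hrf k₀ hk₀ hsq l h3
  exact ⟨(thJ BJ hJ R).range, ⟨MonoidHom.ofInjective hi⟩, th_out BJ hJ R hp hi,
    fun x hx ⟨y, hy⟩ => th_good BJ hJ R hp hfi hk₀ hsq hM3 hU hx hy,
    fun hG => th_gen BJ hJ R hp hfi hk₀ hsq hM3 hU hG⟩

/-- subgroups of the same index -/
theorem OutJ.eq_of_le {Γ Γ₁ : Subgroup (PGK K)} {m₀ : ℕ} (h : OutJ φ Γ Γ₁ m₀) (hle : Γ₁ ≤ Γ) :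
    Γ₁ = Γ := by
  obtain ⟨N, h1, h2, h3, h4, -⟩ := h.ind
  have h5 := Subgroup.relIndex_mul_relIndex N Γ₁ Γ h2 hle
  rw [h4] at h5
  have h6 : Γ₁.relIndex Γ = 1 := by
    have h7 : N.relIndex Γ * Γ₁.relIndex Γ = N.relIndex Γ * 1 := by rw [h5, mul_one]
    exact Nat.eq_of_mul_eq_mul_left (Nat.pos_of_ne_zero h3) h7
  exact le_antisymm hle (Subgroup.relIndex_eq_one.1 h6)

/-- the first criterion -/
theorem OutJ.eq_of_del {Γ Γ₁ : Subgroup (PGK K)} {m₀ : ℕ} (h : OutJ φ Γ Γ₁ m₀) {k : ℕ}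
    (hk : k ≠ 0) (hd : ∀ δ, DelQ φ k δ → δ ∈ Γ) : Γ₁ = Γ := by
  apply h.eq_of_le
  intro τ hτ
  obtain ⟨γ, hγ, h1⟩ := h.cmp k hk τ hτ
  have h2 := mul_mem hγ (hd _ h1)
  rwa [mul_inv_cancel_left] at h2

end

end Pool.Agent.F8.CG
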