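import Pool.Agent.Lib.MP_305fdd_al.F8.CG.StmJ

/-!
# MP_305fdd_al, congruence subgroups: block J, finiteness of the genus
-/

set_option autoImplicit false

namespace Pool.Agent.F8.CG

open Pool.Agent.F8.BG Pool.Agent.MP_305fdd_al Pool.Agent.Lib.MP_305fdd_al Pool.Agent.F8
open scoped QuadraticAlgebra

noncomputable section

/-- [CG J fin] there are finitely many possibilities for `Γ₁`.

Proof. `P₀ = (Gam a b m₀).map (pcQ φ)`, `𝒯 = {τ | ∃ γ ∈ Γ, DelQ φ 1 (γ⁻¹ * τ)}`. (1) `DelQ φ 1 δ` (`ScQ 1` is no condition) means `RepQ φ X δ`, `det X = u` a unit: `X = x * diag(u, 1)`, `x ∈ GQ a b`, `x = x_j * y` with `x_j` from a finite set of representatives of `GQ a b ⧸ Gam a b m₀` and `y ∈ Gam a b m₀`, `X = x_j * diag(u, 1) * (diag(u, 1)⁻¹ * y * diag(u, 1))`, and the last factor is in `Gam a b m₀`. There are finitely many units (hypothesis). So the `δ` with `DelQ φ 1 δ`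
are in finitely many left cosets `δ_i P₀`. They are closed under multiplication and contain `P₀`. (2) `Γ` is the union of finitely many `γ_j P₀`. If `τ = γ δ`, `γ = γ_j p`, then `p δ` satisfies `DelQ φ 1`, so `τ ∈ γ_j δ_i P₀`: `𝒯` is contained in the union of finitely many left cosets of `P₀`. (3) A subgroup `Γ₁` with `P₀ ≤ Γ₁ ⊆ 𝒯` is determined by the set of its left cosets `τ P₀`, a subset of a finite set (compare `fin_sub` in `MainG.lean`). -/
def J_fin : Prop := ∀ (a b : ℤ), b ^ 2 + 4 * a < 0 → Finite (Qf a b ℤ)ˣ → ∀ (K : Type) [Field K]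
  (φ : Qf a b ℤ →+* K), FracQ φ → RepF φ → ∀ (Γ : Subgroup (PGK K)) (m₀ : ℕ), m₀ ≠ 0 →
  (∀ x ∈ Gam a b m₀, pcQ φ x ∈ Γ) →
  (((Gam a b m₀).map (pcQ φ)).subgroupOf Γ).FiniteIndex →
  {Γ₁ : Subgroup (PGK K) | (∀ x ∈ Gam a b m₀, pcQ φ x ∈ Γ₁) ∧
    ∀ τ ∈ Γ₁, ∃ γ ∈ Γ, DelQ φ 1 (γ⁻¹ * τ)}.Finite

end

end Pool.Agent.F8.CG
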