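import Pool.Agent.Lib.MP_305fdd_al.F8.CG.StmJ

/-!
# MP_305fdd_al, congruence subgroups: block J, matrices with trace near two
-/

set_option autoImplicit false

namespace Pool.Agent.F8.CG

open Pool.Agent.F8.BG Pool.Agent.MP_305fdd_al Pool.Agent.Lib.MP_305fdd_al Pool.Agent.F8
open scoped QuadraticAlgebra

noncomputable section

/-- [CG J tr2] a matrix whose trace is two modulo `M ^ 2` is conjugate, over the field of fractions, to an element of `Γ(M)`.

Proof. `O = Qf a b ℤ`. `(x - 1) ^ 2 = (tr x - 2) • x` (Cayley-Hamilton, `det x = 1`). `N = {M • u + (x - 1) *ᵥ v | u, v : Fin 2 → O}`, a submodule of `O ^ 2` which contains `M • O ^ 2`. `N = y O ^ 2` for a matrix `y` with `det y ≠ 0`: let `d₁` be a generator of the ideal `{z | ![z, 0] ∈ N}` (`d₁ ∣ M`, so `d₁ ≠ 0`), `d₂` a generator of the ideal of the second coordinates of the elements of `N` (`d₂ ∣ M`), `![v₁, d₂] ∈ N`,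
`y = !![d₁, v₁; 0, d₂]`. `(x - 1) N ⊆ M N`: `(x - 1) (M • u) = M • ((x - 1) u)` and `(x - 1) ((x - 1) v) = (tr x - 2) • (x v) ∈ M ^ 2 • O ^ 2 ⊆ M • N`. So the columns of `(x - 1) * y` are in `M • y O ^ 2`: `(x - 1) * y = y * (M • Z)`, `x * y = y * x'`, `x' = 1 + M • Z`, `det x' = 1` (cancel `det y`), and `x'` is one modulo `M`. -/
def J_tr2 : Prop := ∀ (a b : ℤ), b ^ 2 + 4 * a < 0 → IsPrincipalIdealRing (Qf a b ℤ) →
  ∀ M : ℕ, M ≠ 0 → ∀ x : GQ a b, (M : Qf a b ℤ) ^ 2 ∣ tr x - 2 → ∃ y, CjG M x y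

end

end Pool.Agent.F8.CG
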