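import Pool.Agent.Lib.MP_305fdd_al.F8.CG.MainJ3
import Pool.Agent.Lib.MP_305fdd_al.F8.CG.MainG
import Pool.Agent.Lib.MP_305fdd_al.F8.CG.StmJ2
import Pool.Agent.Lib.MP_305fdd_al.F8.CG.StmJ3
import Pool.Agent.Lib.MP_305fdd_al.F8.CG.DefsM

/-!
# MP_305fdd_al, congruence subgroups: assembly of block J, part 4

The main theorems for a ring `R` isomorphic to `ℤ[w]` and its field of fractions `K`.
-/

set_option autoImplicit false

namespace Pool.Agent.F8.CG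

open Pool.Agent.F8.BG Pool.Agent.MP_305fdd_al Pool.Agent.Lib.MP_305fdd_al Pool.Agent.F8
open scoped QuadraticAlgebra MatrixGroups

noncomputable section

variable {a b : ℤ} {R : Type} [CommRing R] {K : Type} [Field K] [Algebra R K]
  (e : Qf a b ℤ ≃+* R)

/-- the embedding of `ℤ[w]` in `K` -/
def embK (K : Type) [Field K] [Algebra R K] (e : Qf a b ℤ ≃+* R) : Qf a b ℤ →+* K :=
  (algebraMap R K).comp (e : Qf a b ℤ →+* R)

theorem fracQ_emb [IsFractionRing R K] : FracQ (embK K e) := by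
  refine ⟨(IsFractionRing.injective R K).comp e.injective, fun z => ?_⟩
  obtain ⟨x, y, hy, rfl⟩ := IsFractionRing.div_surjective (A := R) z
  have hy0 : y ≠ 0 := by
    intro h
    have h1 : (1 : R) = 0 := by
      have h2 := (mem_nonZeroDivisors_iff.1 hy).1 1 (by rw [h, zero_mul])
      exact h2
    have h3 := IsFractionRing.injective R K
    have h4 : (algebraMap R K) 1 = (algebraMap R K) 0 := by rw [h1]
    rw [map_one, map_zero] at h4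
    exact one_ne_zero h4
  refine ⟨e.symm x, e.symm y, fun h => hy0 ?_, ?_⟩
  · rw [← e.apply_symm_apply y, h, map_zero]
  · show algebraMap R K x / algebraMap R K y * algebraMap R K (e (e.symm y)) =
      algebraMap R K (e (e.symm x))
    rw [e.apply_symm_apply, e.apply_symm_apply, div_mul_cancel₀]
    intro h
    apply hy0
    apply IsFractionRing.injective R K
    rw [h, map_zero]

theorem pc_toK (x : GQ a b) : pcQ (embK K e) x = Cong.toK K (SLm (e : Qf a b ℤ →+* R) x) := rfl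

/-- the image of `Γ(J)` -/
theorem mem_PG (J : Ideal R) (x : GQ a b) (hx : x ∈ Cong.G (J.comap (e : Qf a b ℤ →+* R))) :
    pcQ (embK K e) x ∈ Cong.PG K J :=
  ⟨_, (map_G e J x).2 hx, rfl⟩

theorem ex_PG (J : Ideal R) {γ : PGL(2, K)} (h : γ ∈ Cong.PG K J) :
    ∃ x ∈ Cong.G (J.comap (e : Qf a b ℤ →+* R)), pcQ (embK K e) x = γ := by
  obtain ⟨y, hy, rfl⟩ := h
  obtain ⟨x, rfl⟩ := SLm_surj e y
  exact ⟨x, (map_G e J x).1 hy, rfl⟩

theorem PG_eq (J : Ideal R) : Cong.PG K J =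
    (Cong.G (J.comap (e : Qf a b ℤ →+* R))).map (pcQ (embK K e)) := by
  apply le_antisymm
  · intro γ hγ
    obtain ⟨x, hx, h⟩ := ex_PG e J hγ
    exact ⟨x, hx, h⟩
  · rintro _ ⟨x, hx, rfl⟩
    exact mem_PG e J x hx

/-- the elements which are scalar modulo `k ∈ J` -/
theorem mem_Del (J : Ideal R) (k : ℕ) (hk : (k : Qf a b ℤ) ∈ J.comap (e : Qf a b ℤ →+* R))
    {δ : PGL(2, K)} (h : DelQ (embK K e) k δ) : δ ∈ Cong.Del K J := by
  obtain ⟨X, h1, ⟨h2, h3, h4⟩, g, h5, rfl⟩ := h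
  have hdet : IsUnit (X.map e).det := by
    have h6 : (X.map e).det = e X.det := (RingHom.map_det (e : Qf a b ℤ →+* R) X).symm
    rw [h6]
    exact h1.map e
  let g' : GL (Fin 2) R := Matrix.GeneralLinearGroup.mk'' (X.map e) hdet
  have hg' : g'.val = X.map e := rfl
  refine ⟨Matrix.ProjGenLinGroup.mk g', ?_, ?_⟩
  · rw [SetLike.mem_coe, MonoidHom.mem_ker, Matrix.ProjGenLinGroup.map_mk,
      Matrix.ProjGenLinGroup.mk_eq_one, Matrix.GeneralLinearGroup.mem_center_iff_val_mem_range_scalar]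
    refine ⟨Ideal.Quotient.mk J (e (X 0 0)), ?_⟩
    have key : ∀ z : Qf a b ℤ, (k : Qf a b ℤ) ∣ z → Ideal.Quotient.mk J (e z) = 0 := by
      intro z hz
      rw [Ideal.Quotient.eq_zero_iff_mem]
      exact (J.comap (e : Qf a b ℤ →+* R)).mem_of_dvd hz hk
    refine Matrix.ext fun i j => ?_
    have hv : (Matrix.GeneralLinearGroup.map (Ideal.Quotient.mk J) g').val i j =
        Ideal.Quotient.mk J (e (X i j)) := rfl
    rw [hv]
    fin_cases i <;> fin_cases j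
    · simp
    · simpa using (key _ h2).symm
    · simpa using (key _ h3).symm
    · have h6 := key _ h4
      rw [map_sub, map_sub, sub_eq_zero] at h6
      simpa using h6
  · rw [Matrix.ProjGenLinGroup.map_mk]
    congr 1
    apply Units.ext
    rw [h5]
    rfl

/-! ### The main theorems -/

/-- all the statements -/
structure BlkA : Prop where
  bj : BlkJ
  un : J_un
  fin : J_fin
  tr2 : J_tr2

/-- an integer in the ideal -/
theorem ex_m₀ (hn : b ^ 2 + 4 * a < 0) (J : Ideal R) (hJ : J ≠ ⊥) : ∃ m₀ : ℕ, 5 ≤ m₀ ∧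
    (m₀ : Qf a b ℤ) ∈ J.comap (e : Qf a b ℤ →+* R) := by
  obtain ⟨n, hn0, hnJ⟩ := ex_nat hn (comap_ne_bot e J hJ)
  refine ⟨5 * n, ?_, ?_⟩
  · have := Nat.pos_of_ne_zero hn0
    omega
  · rw [Nat.cast_mul]
    exact Ideal.mul_mem_left _ _ hnJ

theorem fi_map (Γ : Subgroup (PGL(2, K))) (J : Ideal R) (hΓ : Cong.PG K J ≤ Γ)
    (hi : (Cong.PG K J).relIndex Γ ≠ 0) {m₀ : ℕ} (hm : m₀ ≠ 0)
    (hmJ : (m₀ : Qf a b ℤ) ∈ J.comap (e : Qf a b ℤ →+* R)) :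
    (((Gam a b m₀).map (pcQ (embK K e))).subgroupOf Γ).FiniteIndex := by
  have : NeZero m₀ := ⟨hm⟩
  have hf : Finite (SL2 (Qf a b (ZMod m₀))) := inferInstance
  have h1 : (Gam a b m₀).FiniteIndex := Subgroup.finiteIndex_ker _
  have h2 : (Gam a b m₀).map (pcQ (embK K e)) ≤ Cong.PG K J := by
    rw [PG_eq e J]
    exact Subgroup.map_mono (gam_le_G hmJ)
  have h3 := Subgroup.relIndex_mul_relIndex _ _ _ h2 hΓ
  constructor
  show ((Gam a b m₀).map (pcQ (embK K e))).relIndex Γ ≠ 0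
  rw [← h3]
  refine mul_ne_zero ?_ hi
  rw [PG_eq e J, Subgroup.relIndex_map_map]
  have h4 : (Gam a b m₀ ⊔ (pcQ (embK K e)).ker).FiniteIndex :=
    Subgroup.finiteIndex_of_le le_sup_left
  have h5 : ((Gam a b m₀ ⊔ (pcQ (embK K e)).ker).subgroupOf
    (Cong.G (J.comap (e : Qf a b ℤ →+* R)) ⊔ (pcQ (embK K e)).ker)).FiniteIndex := inferInstance
  exact h5.index_ne_zero

/-- generation by elements which are conjugate to elements of `Γ(36)` -/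
theorem gen_map (S : Subgroup (GQ a b)) (T : Subgroup (PGL(2, K)))
    (h : ∀ x ∈ S, (∃ y, CjG 36 x y) → pcQ (embK K e) x ∈ T) (hS : GenS S 36) :
    ∀ x ∈ S, pcQ (embK K e) x ∈ T := by
  intro x hx
  refine Subgroup.closure_induction (p := fun y _ => pcQ (embK K e) y ∈ T) ?_ ?_ ?_ ?_ (hS x hx)
  · rintro z ⟨hz, hz'⟩
    exact h z hz hz'
  · rw [map_one]; exact one_mem _
  · intro x y _ _ hx hy
    rw [map_mul]; exact mul_mem hx hy
  · intro x _ hx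
    rw [map_inv]; exact inv_mem hx

/-- an integer in an ideal which is prime to `6` -/
theorem ex_cop6 (hn : b ^ 2 + 4 * a < 0) (J : Ideal R) (hJ : J ⊔ Ideal.span {(6 : R)} = ⊤) :
    ∃ m : ℕ, m ≠ 0 ∧ (m : Qf a b ℤ) ∈ J.comap (e : Qf a b ℤ →+* R) ∧ Nat.Coprime m 36 := by
  apply ex_cop hn (by norm_num)
  rw [Ideal.eq_top_iff_one]
  have h1 : (1 : R) ∈ J ⊔ Ideal.span {(6 : R)} := by rw [hJ]; trivial
  obtain ⟨z, hz, y, hy, hzy⟩ := Submodule.mem_sup.1 h1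
  obtain ⟨t, rfl⟩ := Ideal.mem_span_singleton'.1 hy
  have h2 : (1 : Qf a b ℤ) = e.symm (z * (z + 2 * (t * 6))) + e.symm (t ^ 2) * (36 : ℕ) := by
    apply e.injective
    rw [map_add, e.apply_symm_apply, map_mul, e.apply_symm_apply, map_natCast, map_one]
    push_cast
    linear_combination (-1 : R) * (z + t * 6 + 1) * hzy
  rw [h2]
  refine Submodule.add_mem_sup ?_ (Ideal.mul_mem_left _ _ (Ideal.mem_span_singleton_self _))
  show e (e.symm (z * (z + 2 * (t * 6)))) ∈ J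
  rw [e.apply_symm_apply]
  exact J.mul_mem_right _ hz

include e in
/-- THEOREM D, all statements together -/
theorem PGL_out [IsFractionRing R K] (BA : BlkA) (H : DatJ a b) (J : Ideal R)
    (hJ : J ≠ ⊥) (Γ : Subgroup (PGL(2, K))) (hΓ : Cong.PG K J ≤ Γ)
    (hi : (Cong.PG K J).relIndex Γ ≠ 0) (m₀ : ℕ) (h5 : 5 ≤ m₀)
    (hmJ : (m₀ : Qf a b ℤ) ∈ J.comap (e : Qf a b ℤ →+* R)) (Λ : Type) [Group Λ]
    (hΛ : InGenus Γ Λ) :
    ∃ Γ₁ : Subgroup (PGL(2, K)), Cong.PG K J ≤ Γ₁ ∧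
      (Cong.PG K J).relIndex Γ₁ = (Cong.PG K J).relIndex Γ ∧ Cong.SameCl R Γ Γ₁ ∧
      ((∃ J' : Ideal R, J' ≠ ⊥ ∧ Cong.Del K J' ≤ Γ) → Γ₁ = Γ) ∧
      (Cong.GenPar J Γ → Γ₁ = Γ) ∧
      (Γ ≤ (Cong.toK K).range (G := SL2 R) → J ⊔ Ideal.span {(6 : R)} = ⊤ → Γ₁ = Γ) ∧
      Nonempty (Λ ≃* Γ₁) ∧
      (∀ x ∈ Gam a b m₀, pcQ (embK K e) x ∈ Γ₁) ∧
      ∀ τ ∈ Γ₁, ∃ γ ∈ Γ, DelQ (embK K e) 1 (γ⁻¹ * τ) := by
  have hn := H.dat.neg
  have hm : m₀ ≠ 0 := by omega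
  have hF : FracQ (embK K e) := fracQ_emb e
  have BJ := BA.bj
  have hle : ∀ x ∈ Gam a b m₀, pcQ (embK K e) x ∈ Γ := fun x hx =>
    hΓ (mem_PG e J x (gam_le_G hmJ hx))
  have hfi := fi_map e Γ J hΓ hi hm hmJ
  obtain ⟨Γ₁, hφ, hO, hg, hG⟩ := ex_out BJ blkW blk H hF (M' := 36) (by norm_num) H.u36 Γ m₀ h5
    hle hfi Λ hΛ
  have hgG := gen_G hn (comap_ne_bot e J hJ) (M' := 36) (by norm_num)
  have hPG : Cong.PG K J ≤ Γ₁ := by
    intro x hx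
    obtain ⟨y, hy, rfl⟩ := ex_PG e J hx
    exact gen_map e _ Γ₁ (fun z hz hz' => hg z (hΓ (mem_PG e J z hz)) hz') hgG y hy
  have hsl : ∀ x ∈ Cong.toK (R := R) K '' Set.univ, ∃ g : GQ a b, pcQ (embK K e) g = x := by
    rintro _ ⟨g, -, rfl⟩
    obtain ⟨y, rfl⟩ := SLm_surj e g
    exact ⟨y, rfl⟩
  refine ⟨Γ₁, hPG, ?_, ?_, ?_, ?_, ?_, hφ, hO.le, hO.cmp 1 one_ne_zero⟩
  · obtain ⟨N, h1, h2, h3, h4, h6⟩ := hO.ind
    have h7 : N ≤ Cong.PG K J := by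
      rw [PG_eq e J]
      exact h6.trans (Subgroup.map_mono (gam_le_G hmJ))
    have h8 := Subgroup.relIndex_mul_relIndex N _ _ h7 hΓ
    have h9 := Subgroup.relIndex_mul_relIndex N _ _ h7 hPG
    have h10 : N.relIndex (Cong.PG K J) ≠ 0 := by
      intro h
      rw [h, zero_mul] at h8
      exact h3 h8.symm
    rw [h4, ← h8] at h9
    exact Nat.eq_of_mul_eq_mul_left (Nat.pos_of_ne_zero h10) h9
  · intro J' hJ'
    obtain ⟨k, hk0, hkJ⟩ := ex_nat hn (comap_ne_bot e J' hJ')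
    constructor
    · intro x hx
      obtain ⟨y, hy, h1⟩ := hO.cmp' k hk0 x hx
      exact ⟨y, hy, mem_Del e J' k hkJ h1⟩
    · intro y hy
      obtain ⟨x, hx, h1⟩ := hO.cmp k hk0 y hy
      exact ⟨x, hx, mem_Del e J' k hkJ h1⟩
  · rintro ⟨J', hJ', hD⟩
    obtain ⟨k, hk0, hkJ⟩ := ex_nat hn (comap_ne_bot e J' hJ')
    exact hO.eq_of_del hk0 fun δ hδ => hD (mem_Del e J' k hkJ hδ)
  · rintro ⟨h1, h2⟩
    apply hO.eq_of_le
    apply hG
    refine ⟨fun x hx => ?_, h2.trans ?_⟩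
    · obtain ⟨g, hgx⟩ := h1 x hx
      exact hsl x ⟨g, trivial, hgx⟩
    · rw [Subgroup.closure_le]
      rintro x ⟨hx, h3 | ⟨g, rfl, hg2⟩ | h3⟩
      · exact Subgroup.subset_closure ⟨hx, Or.inl h3⟩
      · obtain ⟨y, rfl⟩ := SLm_surj e g
        have h5 : e (tr y) = (SLm (e : Qf a b ℤ →+* R) y).val.trace := by
          show e (y.val.trace) = _
          rw [Matrix.trace_fin_two, Matrix.trace_fin_two, map_add]
          rfl
        have h4 : ((36 : ℕ) : Qf a b ℤ) ^ 2 ∣ tr y - 2 := by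
          obtain ⟨t, ht⟩ := hg2
          refine ⟨e.symm t, e.injective ?_⟩
          rw [map_sub, h5, map_mul, map_pow, map_natCast, e.apply_symm_apply, map_ofNat, ht]
          push_cast
          ring
        exact Subgroup.subset_closure ⟨hx, Or.inr ⟨y, rfl, Or.inr
          (BA.tr2 a b hn (H.pir blkW) 36 (by norm_num) y h4)⟩⟩
      · obtain ⟨y, hy, rfl⟩ := ex_PG e J h3
        refine gen_map e _ _ (fun z hz hz' => ?_) hgG y hy
        exact Subgroup.subset_closure ⟨hΓ (mem_PG e J z hz), Or.inr ⟨z, rfl, Or.inr hz'⟩⟩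
  · intro h1 hcop
    obtain ⟨m, hm0, hmJ', hmc⟩ := ex_cop6 e hn J hcop
    apply hO.eq_of_le
    apply hG
    refine ⟨fun x hx => ?_, fun x hx => ?_⟩
    · obtain ⟨g, hgx⟩ := h1 hx
      exact hsl x ⟨g, trivial, hgx⟩
    · obtain ⟨g, hgx⟩ := h1 hx
      obtain ⟨y, rfl⟩ := hsl x ⟨g, trivial, hgx⟩
      have hS : GenS (Γ.comap (pcQ (embK K e))) 36 := by
        refine gen_cop hn (by norm_num) hmc (m := m) ?_
        intro z hz
        exact hΓ (mem_PG e J z (gam_le_G hmJ' hz))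
      refine gen_map e _ _ (fun z hz hz' => ?_) hS y hx
      exact Subgroup.subset_closure ⟨hz, Or.inr ⟨z, rfl, Or.inr hz'⟩⟩

include e in
/-- the genus is finite -/
theorem PGL_fin [IsFractionRing R K] (BA : BlkA) (H : DatJ a b) (J : Ideal R)
    (hJ : J ≠ ⊥) (Γ : Subgroup (PGL(2, K))) (hΓ : Cong.PG K J ≤ Γ)
    (hi : (Cong.PG K J).relIndex Γ ≠ 0) : ∃ k : ℕ, ¬ GenusAtLeast Γ k := by
  have hn := H.dat.neg
  obtain ⟨m₀, h5, hmJ⟩ := ex_m₀ e hn J hJ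
  have hm : m₀ ≠ 0 := by omega
  have hF : FracQ (embK K e) := fracQ_emb e
  have hfin := BA.fin a b hn (BA.un a b hn) K (embK K e) hF (BA.bj.rep a b hn K _ hF) Γ m₀ hm
    (fun x hx => hΓ (mem_PG e J x (gam_le_G hmJ hx))) (fi_map e Γ J hΓ hi hm hmJ)
  have hfin' : Finite {Γ₁ : Subgroup (PGK K) | (∀ x ∈ Gam a b m₀, pcQ (embK K e) x ∈ Γ₁) ∧
    ∀ τ ∈ Γ₁, ∃ γ ∈ Γ, DelQ (embK K e) 1 (γ⁻¹ * τ)} := hfin
  refine ⟨Nat.card {Γ₁ : Subgroup (PGK K) | (∀ x ∈ Gam a b m₀, pcQ (embK K e) x ∈ Γ₁) ∧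
    ∀ τ ∈ Γ₁, ∃ γ ∈ Γ, DelQ (embK K e) 1 (γ⁻¹ * τ)} + 1, ?_⟩
  rintro ⟨G, _, hG, hne⟩
  choose P' _ _ _ _ _ _ h2 h3 h4 using fun i => PGL_out e BA H J hJ Γ hΓ hi m₀ h5 hmJ (G i)
    (hG i)
  have hinj : Function.Injective (fun i => (⟨P' i, h3 i, h4 i⟩ :
      {Γ₁ : Subgroup (PGK K) | (∀ x ∈ Gam a b m₀, pcQ (embK K e) x ∈ Γ₁) ∧
        ∀ τ ∈ Γ₁, ∃ γ ∈ Γ, DelQ (embK K e) 1 (γ⁻¹ * τ)})) := by
    intro i j hij
    by_contra h
    have h5 : P' i = P' j := congrArg Subtype.val hij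
    obtain ⟨φ⟩ := h2 i
    obtain ⟨ψ⟩ := h2 j
    exact (hne i j h).false (φ.trans ((MulEquiv.subgroupCongr h5).trans ψ.symm))
  have h6 := Nat.card_le_card_of_injective _ hinj
  rw [Nat.card_fin] at h6
  exact Nat.not_succ_le_self _ h6

include e in
/-- THEOREM D -/
theorem PGL_main [IsFractionRing R K] (BA : BlkA) (H : DatJ a b) (J : Ideal R)
    (hJ : J ≠ ⊥) (Γ : Subgroup (PGL(2, K))) (hΓ : Cong.PG K J ≤ Γ)
    (hi : (Cong.PG K J).relIndex Γ ≠ 0) :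
    (∀ (Λ : Type) [Group Λ], InGenus Γ Λ → ∃ Γ₁ : Subgroup (PGL(2, K)), Nonempty (Λ ≃* Γ₁) ∧
      Cong.PG K J ≤ Γ₁ ∧ (Cong.PG K J).relIndex Γ₁ = (Cong.PG K J).relIndex Γ ∧
      Cong.SameCl R Γ Γ₁) ∧
    (∃ k : ℕ, ¬ GenusAtLeast Γ k) ∧
    ((∃ J' : Ideal R, J' ≠ ⊥ ∧ Cong.Del K J' ≤ Γ) → ProfinitelyRigid Γ) ∧
    (Cong.GenPar J Γ → ProfinitelyRigid Γ) ∧
    (Γ ≤ (Cong.toK K).range (G := SL2 R) → J ⊔ Ideal.span {(6 : R)} = ⊤ →
      ProfinitelyRigid Γ) := by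
  obtain ⟨m₀, h5, hmJ⟩ := ex_m₀ e H.dat.neg J hJ
  refine ⟨?_, PGL_fin e BA H J hJ Γ hΓ hi, ?_, ?_, ?_⟩
  · intro Λ _ hΛ
    obtain ⟨Γ₁, h1, h2, h3, -, -, -, h4, -⟩ := PGL_out e BA H J hJ Γ hΓ hi m₀ h5 hmJ Λ hΛ
    exact ⟨Γ₁, h4, h1, h2, h3⟩
  · intro hD Λ _ hΛ
    obtain ⟨Γ₁, -, -, -, h1, -, -, ⟨h4⟩, -⟩ := PGL_out e BA H J hJ Γ hΓ hi m₀ h5 hmJ Λ hΛ
    exact ⟨h4.trans (MulEquiv.subgroupCongr (h1 hD))⟩
  · intro hD Λ _ hΛ
    obtain ⟨Γ₁, -, -, -, -, h1, -, ⟨h4⟩, -⟩ := PGL_out e BA H J hJ Γ hΓ hi m₀ h5 hmJ Λ hΛ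
    exact ⟨h4.trans (MulEquiv.subgroupCongr (h1 hD))⟩
  · intro hD hc Λ _ hΛ
    obtain ⟨Γ₁, -, -, -, -, -, h1, ⟨h4⟩, -⟩ := PGL_out e BA H J hJ Γ hΓ hi m₀ h5 hmJ Λ hΛ
    exact ⟨h4.trans (MulEquiv.subgroupCongr (h1 hD hc))⟩

end

end Pool.Agent.F8.CG
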