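import Pool.Agent.Lib.MP_305fdd_al.F8.CG.StmL

/-!
# MP_305fdd_al, congruence subgroups: algebraic identities for the Eisenstein cocycles (piece Lalg)
-/

set_option autoImplicit false

namespace Pool.Agent.F8.CG

open Pool.Agent.F8.BG Pool.Agent.MP_305fdd_al Pool.Agent.Lib.MP_305fdd_al Pool.Agent.F8
open scoped QuadraticAlgebra ComplexConjugate

noncomputable section

private theorem Lalg_det (g : SL2 ℂ) : g.val 0 0 * g.val 1 1 - g.val 0 1 * g.val 1 0 = 1 := by
  rw [← Matrix.det_fin_two, g.2]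

private theorem Lalg_mv (h : SL2 ℂ) (v : Fin 2 → ℂ) (i : Fin 2) :
    h.val.mulVec v i = h.val i 0 * v 0 + h.val i 1 * v 1 := by
  simp [Matrix.mulVec, dotProduct, Fin.sum_univ_two]

private theorem Lalg_om (h : SL2 ℂ) (e v : Fin 2 → ℂ) :
    om (h.val.mulVec e) (h.val.mulVec v) = om e v := by
  unfold om
  rw [Lalg_mv, Lalg_mv, Lalg_mv, Lalg_mv]
  linear_combination (e 0 * v 1 - e 1 * v 0) * Lalg_det h

private theorem Lalg_col (h g : SL2 ℂ) (j : Fin 2) :
    colG (h * g) j = h.val.mulVec (colG g j) := by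
  funext i
  rw [Lalg_mv]
  show (h.val * g.val) i j = _
  rw [Matrix.mul_apply, Fin.sum_univ_two]
  rfl

private theorem Lalg_nE (h g : SL2 ℂ) (e : Fin 2 → ℂ) : nE (h.val.mulVec e) (h * g) = nE e g := by
  unfold nE
  rw [Lalg_col, Lalg_col, Lalg_om, Lalg_om]

private theorem Lalg_pos (e : Fin 2 → ℂ) (g : SL2 ℂ) (he : e ≠ 0) : 0 < nE e g := by
  by_contra hn
  unfold nE at hn
  have h1 : 0 ≤ ‖om e (colG g 0)‖ ^ 2 := sq_nonneg _
  have h2 : 0 ≤ ‖om e (colG g 1)‖ ^ 2 := sq_nonneg _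
  have h3 : ‖om e (colG g 0)‖ ^ 2 = 0 := by linarith
  have h4 : ‖om e (colG g 1)‖ ^ 2 = 0 := by linarith
  have h5 : om e (colG g 0) = 0 := by simpa using h3
  have h6 : om e (colG g 1) = 0 := by simpa using h4
  have h5' : e 0 * g.val 1 0 - e 1 * g.val 0 0 = 0 := h5
  have h6' : e 0 * g.val 1 1 - e 1 * g.val 0 1 = 0 := h6
  have hd := Lalg_det g
  apply he
  funext i
  fin_cases i
  · show e 0 = 0
    linear_combination (-(e 0)) * hd + g.val 0 0 * h6' - g.val 0 1 * h5'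
  · show e 1 = 0
    linear_combination (-(e 1)) * hd + g.val 1 0 * h6' - g.val 1 1 * h5'

private theorem Lalg_lin (e v w : Fin 2 → ℂ) (s t : ℂ) :
    om e (s • v + t • w) = s * om e v + t * om e w := by
  simp only [om, Pi.add_apply, Pi.smul_apply, smul_eq_mul]
  ring

private theorem Lalg_smul (e v : Fin 2 → ℂ) (s : ℂ) : om e (s • v) = s * om e v := by
  simp only [om, Pi.smul_apply, smul_eq_mul]
  ring

private theorem Lalg_rep (e s₀ s : Fin 2 → ℂ) (h0 : om e s₀ = 1) (h : om e s = 1) :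
    s = s₀ + om s s₀ • e := by
  funext i
  have h0' : e 0 * s₀ 1 - e 1 * s₀ 0 = 1 := h0
  have h' : e 0 * s 1 - e 1 * s 0 = 1 := h
  fin_cases i
  · show s 0 = s₀ 0 + (s 0 * s₀ 1 - s 1 * s₀ 0) * e 0
    linear_combination (-(s 0)) * h0' + s₀ 0 * h'
  · show s 1 = s₀ 1 + (s 0 * s₀ 1 - s 1 * s₀ 0) * e 1
    linear_combination (-(s 1)) * h0' + s₀ 1 * h'

private theorem Lalg_omz (e s₀ : Fin 2 → ℂ) (z w : ℂ) (h0 : om e s₀ = 1) :
    om (s₀ + z • e) (s₀ + w • e) = z - w := by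
  have h0' : e 0 * s₀ 1 - e 1 * s₀ 0 = 1 := h0
  simp only [om, Pi.add_apply, Pi.smul_apply, smul_eq_mul]
  linear_combination (z - w) * h0'

/-- [CG Lalg] algebraic identities. -/
theorem p_Lalg : L_alg := by
  refine ⟨?_, ?_, ?_, ?_⟩
  · intro e g he
    have hp := Lalg_pos e g he
    refine ⟨hp, ?_⟩
    unfold sE
    rw [Lalg_smul, Lalg_lin]
    have h1 : ((nE e g : ℝ) : ℂ) = conj (om e (colG g 0)) * om e (colG g 0) +
        conj (om e (colG g 1)) * om e (colG g 1) := by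
      unfold nE
      push_cast
      rw [Complex.conj_mul', Complex.conj_mul']
    rw [← h1]
    have h2 : ((nE e g : ℝ) : ℂ) ≠ 0 := by exact_mod_cast hp.ne'
    exact inv_mul_cancel₀ h2
  · intro e g h
    unfold sE
    rw [Lalg_nE, Lalg_col, Lalg_col, Lalg_om, Lalg_om, Matrix.mulVec_smul, Matrix.mulVec_add,
      Matrix.mulVec_smul, Matrix.mulVec_smul]
  · intro h s₀ s₁ s₂
    unfold ph
    rw [Lalg_om, Lalg_om, Matrix.mulVec_smul, Matrix.mulVec_add, Matrix.mulVec_add]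
  · intro e s₀ s₁ s₂ s₃ h0 h1 h2 h3
    have e1 := Lalg_rep e s₀ s₁ h0 h1
    have e2 := Lalg_rep e s₀ s₂ h0 h2
    have e3 := Lalg_rep e s₀ s₃ h0 h3
    generalize om s₁ s₀ = z₁ at e1
    generalize om s₂ s₀ = z₂ at e2
    generalize om s₃ s₀ = z₃ at e3
    subst e1 e2 e3
    have hz : ∀ z : ℂ, om (s₀ + z • e) s₀ = z := by
      intro z
      have := Lalg_omz e s₀ z 0 h0
      rw [zero_smul, add_zero, sub_zero] at this
      exact this
    funext i
    simp only [ph, Pi.sub_apply, Pi.add_apply, Pi.smul_apply, Pi.zero_apply, smul_eq_mul, hz,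
      Lalg_omz e s₀ _ _ h0]
    obtain ⟨x1, y1⟩ := z₁
    obtain ⟨x2, y2⟩ := z₂
    obtain ⟨x3, y3⟩ := z₃
    apply Complex.ext
    · simp only [Complex.add_re, Complex.add_im, Complex.mul_re, Complex.mul_im, Complex.sub_re,
        Complex.sub_im, Complex.conj_re, Complex.conj_im, Complex.ofReal_re, Complex.ofReal_im,
        Complex.zero_re]
      ring
    · simp only [Complex.add_re, Complex.add_im, Complex.mul_re, Complex.mul_im, Complex.sub_re,
        Complex.sub_im, Complex.conj_re, Complex.conj_im, Complex.ofReal_re, Complex.ofReal_im,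
        Complex.zero_im]
      ring

end

end Pool.Agent.F8.CG
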