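import Pool.Agent.Lib.MP_305fdd_al.F8.CG.StmL

set_option autoImplicit false

namespace Pool.Agent.F8.CG

open Pool.Agent.F8.BG Pool.Agent.MP_305fdd_al Pool.Agent.Lib.MP_305fdd_al Pool.Agent.F8
open scoped QuadraticAlgebra ComplexConjugate

noncomputable section

private theorem Lbd_om (e v : Fin 2 → ℂ) : ‖om e v‖ ≤ 2 * ‖e‖ * ‖v‖ := by
  unfold om
  have e0 := norm_le_pi_norm e 0
  have e1 := norm_le_pi_norm e 1
  have v0 := norm_le_pi_norm v 0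
  have v1 := norm_le_pi_norm v 1
  calc ‖e 0 * v 1 - e 1 * v 0‖ ≤ ‖e 0 * v 1‖ + ‖e 1 * v 0‖ := norm_sub_le _ _
    _ = ‖e 0‖ * ‖v 1‖ + ‖e 1‖ * ‖v 0‖ := by rw [norm_mul, norm_mul]
    _ ≤ ‖e‖ * ‖v‖ + ‖e‖ * ‖v‖ := add_le_add
        (mul_le_mul e0 v1 (norm_nonneg _) (norm_nonneg _))
        (mul_le_mul e1 v0 (norm_nonneg _) (norm_nonneg _))
    _ = 2 * ‖e‖ * ‖v‖ := by ring

private theorem Lbd_comb (e : Fin 2 → ℂ) (g : SL2 ℂ) :
    e = om e (colG g 1) • colG g 0 - om e (colG g 0) • colG g 1 := by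
  have hdet : g.val 0 0 * g.val 1 1 - g.val 0 1 * g.val 1 0 = 1 := by
    rw [← Matrix.det_fin_two]
    exact g.2
  funext i
  simp only [Pi.sub_apply, Pi.smul_apply, smul_eq_mul, om, colG]
  fin_cases i
  · show e 0 = (e 0 * g.val 1 1 - e 1 * g.val 0 1) * g.val 0 0 -
      (e 0 * g.val 1 0 - e 1 * g.val 0 0) * g.val 0 1
    linear_combination (-e 0) * hdet
  · show e 1 = (e 0 * g.val 1 1 - e 1 * g.val 0 1) * g.val 1 0 -
      (e 0 * g.val 1 0 - e 1 * g.val 0 0) * g.val 1 1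
    linear_combination (-e 1) * hdet

private theorem Lbd_nE (g : SL2 ℂ) : ∃ K : ℝ, 0 < K ∧ ∀ e : Fin 2 → ℂ, ‖e‖ ^ 2 ≤ K * nE e g := by
  set G : ℝ := ‖colG g 0‖ + ‖colG g 1‖ + 1 with hG
  have g0 := norm_nonneg (colG g 0)
  have g1 := norm_nonneg (colG g 1)
  have hGpos : 0 < G := by positivity
  refine ⟨2 * G ^ 2, by positivity, fun e => ?_⟩
  set p := ‖om e (colG g 0)‖ with hp
  set q := ‖om e (colG g 1)‖ with hq
  have hp0 : 0 ≤ p := norm_nonneg _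
  have hq0 : 0 ≤ q := norm_nonneg _
  have h1 : ‖e‖ ≤ G * (p + q) := by
    have h2 : ‖e‖ ≤ q * ‖colG g 0‖ + p * ‖colG g 1‖ := by
      conv_lhs => rw [Lbd_comb e g]
      refine (norm_sub_le _ _).trans ?_
      rw [norm_smul, norm_smul]
    refine h2.trans ?_
    nlinarith [mul_nonneg hq0 g1, mul_nonneg hp0 g0]
  have h3 : ‖e‖ ^ 2 ≤ (G * (p + q)) ^ 2 := pow_le_pow_left₀ (norm_nonneg _) h1 2
  refine h3.trans ?_
  unfold nE
  rw [← hp, ← hq]
  nlinarith [mul_nonneg (sq_nonneg G) (sq_nonneg (p - q))]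

private theorem Lbd_sE (g : SL2 ℂ) : ∃ C : ℝ, 0 ≤ C ∧ ∀ e : Fin 2 → ℂ, e ≠ 0 →
    ‖sE e g‖ ≤ C / ‖e‖ := by
  obtain ⟨K, hK, hb⟩ := Lbd_nE g
  set G : ℝ := ‖colG g 0‖ ^ 2 + ‖colG g 1‖ ^ 2 with hG
  have hG0 : 0 ≤ G := by positivity
  refine ⟨2 * K * G, by positivity, fun e he => ?_⟩
  have hn : 0 < ‖e‖ := norm_pos_iff.2 he
  have hN : 0 < nE e g := by
    by_contra h
    have h1 := hb e
    have h2 : 0 < ‖e‖ ^ 2 := by positivity
    nlinarith [not_lt.1 h]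
  have h1 : ‖conj (om e (colG g 0)) • colG g 0 + conj (om e (colG g 1)) • colG g 1‖ ≤
      2 * ‖e‖ * G := by
    refine (norm_add_le _ _).trans ?_
    rw [norm_smul, norm_smul, Complex.norm_conj, Complex.norm_conj]
    have k0 := mul_le_mul_of_nonneg_right (Lbd_om e (colG g 0)) (norm_nonneg (colG g 0))
    have k1 := mul_le_mul_of_nonneg_right (Lbd_om e (colG g 1)) (norm_nonneg (colG g 1))
    calc _ ≤ 2 * ‖e‖ * ‖colG g 0‖ * ‖colG g 0‖ + 2 * ‖e‖ * ‖colG g 1‖ * ‖colG g 1‖ :=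
          add_le_add k0 k1
      _ = 2 * ‖e‖ * G := by rw [hG]; ring
  unfold sE
  rw [norm_smul, norm_inv, Complex.norm_real, Real.norm_of_nonneg hN.le]
  rw [inv_mul_le_iff₀ hN, mul_div_assoc', le_div_iff₀ hn]
  calc _ ≤ 2 * ‖e‖ * G * ‖e‖ := mul_le_mul_of_nonneg_right h1 hn.le
    _ = 2 * G * ‖e‖ ^ 2 := by ring
    _ ≤ 2 * G * (K * nE e g) := mul_le_mul_of_nonneg_left (hb e) (by positivity)
    _ = _ := by ring

private theorem Lbd_rel {e s₀ s₁ s₂ : Fin 2 → ℂ} (he : e ≠ 0) (h0 : om e s₀ = 1)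
    (h1 : om e s₁ = 1) (h2 : om e s₂ = 1) : om s₂ s₀ = om s₁ s₀ - om s₁ s₂ := by
  have key : ∀ i, e i * (om s₁ s₂ - om s₁ s₀ + om s₂ s₀) = 0 := by
    intro i
    unfold om at h0 h1 h2 ⊢
    fin_cases i
    · show e 0 * _ = 0
      linear_combination (s₂ 0 - s₁ 0) * h0 + (s₀ 0 - s₂ 0) * h1 + (s₁ 0 - s₀ 0) * h2
    · show e 1 * _ = 0
      linear_combination (s₂ 1 - s₁ 1) * h0 + (s₀ 1 - s₂ 1) * h1 + (s₁ 1 - s₀ 1) * h2
  obtain ⟨i, hi⟩ : ∃ i, e i ≠ 0 := by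
    by_contra h
    push Not at h
    exact he (funext h)
  have h3 := (mul_eq_zero.1 (key i)).resolve_left hi
  linear_combination h3

theorem p_Lbd (halg : L_alg) : L_bd := by
  constructor
  · intro g₀ g₁ g₂
    obtain ⟨C₀, hC₀, b₀⟩ := Lbd_sE g₀
    obtain ⟨C₁, hC₁, b₁⟩ := Lbd_sE g₁
    obtain ⟨C₂, hC₂, b₂⟩ := Lbd_sE g₂
    set C := C₀ + C₁ + C₂ with hC
    have hC0 : 0 ≤ C := by positivity
    refine ⟨12 * C ^ 5, fun e he => ?_⟩
    have hn : 0 < ‖e‖ := norm_pos_iff.2 he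
    have c₀ : ‖sE e g₀‖ ≤ C / ‖e‖ := (b₀ e he).trans (div_le_div_of_nonneg_right (by linarith) hn.le)
    have c₁ : ‖sE e g₁‖ ≤ C / ‖e‖ := (b₁ e he).trans (div_le_div_of_nonneg_right (by linarith) hn.le)
    have c₂ : ‖sE e g₂‖ ≤ C / ‖e‖ := (b₂ e he).trans (div_le_div_of_nonneg_right (by linarith) hn.le)
    set D := C / ‖e‖ with hD
    have hD0 : 0 ≤ D := by positivity
    have o₁ : ‖om (sE e g₁) (sE e g₀)‖ ≤ 2 * D * D := (Lbd_om _ _).trans
      (mul_le_mul (mul_le_mul_of_nonneg_left c₁ (by norm_num)) c₀ (norm_nonneg _) (by positivity))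
    have o₂ : ‖om (sE e g₂) (sE e g₀)‖ ≤ 2 * D * D := (Lbd_om _ _).trans
      (mul_le_mul (mul_le_mul_of_nonneg_left c₂ (by norm_num)) c₀ (norm_nonneg _) (by positivity))
    have hsum : ‖sE e g₀ + sE e g₁ + sE e g₂‖ ≤ 3 * D := by
      refine (norm_add_le _ _).trans ?_
      have := norm_add_le (sE e g₀) (sE e g₁)
      linarith
    unfold phE ph
    rw [norm_smul, Complex.norm_real, Real.norm_eq_abs]
    have him : |(conj (om (sE e g₁) (sE e g₀)) * om (sE e g₂) (sE e g₀)).im| ≤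
        (2 * D * D) * (2 * D * D) := by
      refine (Complex.abs_im_le_norm _).trans ?_
      rw [norm_mul, Complex.norm_conj]
      exact mul_le_mul o₁ o₂ (norm_nonneg _) (by positivity)
    calc _ ≤ (2 * D * D) * (2 * D * D) * (3 * D) :=
          mul_le_mul him hsum (norm_nonneg _) (by positivity)
      _ = 12 * D ^ 5 := by ring
      _ = 12 * C ^ 5 / ‖e‖ ^ 5 := by rw [hD, div_pow]; ring
  · intro d g₁ g₂
    obtain ⟨C₁, hC₁, b₁⟩ := Lbd_sE g₁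
    obtain ⟨C₂, hC₂, b₂⟩ := Lbd_sE g₂
    set C := C₁ + C₂ with hC
    have hC0 : 0 ≤ C := by positivity
    refine ⟨2 * C * ‖d‖ * (2 * C * C) * (‖d‖ * (1 + 4 * C)), fun e hed => ?_⟩
    have he : e ≠ 0 := by
      rintro rfl
      apply hed
      unfold om
      simp
    have hn : 0 < ‖e‖ := norm_pos_iff.2 he
    have hw : 0 < ‖om e d‖ := norm_pos_iff.2 hed
    have c₁ : ‖sE e g₁‖ ≤ C / ‖e‖ := (b₁ e he).trans (div_le_div_of_nonneg_right (by linarith) hn.le)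
    have c₂ : ‖sE e g₂‖ ≤ C / ‖e‖ := (b₂ e he).trans (div_le_div_of_nonneg_right (by linarith) hn.le)
    have h0 : om e ((om e d)⁻¹ • d) = 1 := by
      have : om e ((om e d)⁻¹ • d) = (om e d)⁻¹ * om e d := by
        unfold om
        simp only [Pi.smul_apply, smul_eq_mul]
        ring
      rw [this, inv_mul_cancel₀ hed]
    have h1 := (halg.1 e g₁ he).2
    have h2 := (halg.1 e g₂ he).2
    have hrel := Lbd_rel he h0 h1 h2
    unfold psE ph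
    set s₀ := (om e d)⁻¹ • d with hs₀
    set s₁ := sE e g₁ with hs₁
    set s₂ := sE e g₂ with hs₂
    have n0 : ‖s₀‖ = ‖d‖ / ‖om e d‖ := by
      rw [hs₀, norm_smul, norm_inv]
      field_simp
    rw [hrel, norm_smul, Complex.norm_real, Real.norm_eq_abs]
    have him : (conj (om s₁ s₀) * (om s₁ s₀ - om s₁ s₂)).im = -(conj (om s₁ s₀) * om s₁ s₂).im := by
      rw [mul_sub, Complex.sub_im]
      have : (conj (om s₁ s₀) * om s₁ s₀).im = 0 := by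
        simp [Complex.mul_im]
        ring
      rw [this]
      ring
    have o₁ : ‖om s₁ s₀‖ ≤ 2 * (C / ‖e‖) * (‖d‖ / ‖om e d‖) := by
      refine (Lbd_om _ _).trans ?_
      rw [n0]
      exact mul_le_mul_of_nonneg_right (mul_le_mul_of_nonneg_left c₁ (by norm_num)) (by positivity)
    have o₂ : ‖om s₁ s₂‖ ≤ 2 * (C / ‖e‖) * (C / ‖e‖) := (Lbd_om _ _).trans
      (mul_le_mul (mul_le_mul_of_nonneg_left c₁ (by norm_num)) c₂ (norm_nonneg _) (by positivity))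
    have h3 : |(conj (om s₁ s₀) * (om s₁ s₀ - om s₁ s₂)).im| ≤
        (2 * (C / ‖e‖) * (‖d‖ / ‖om e d‖)) * (2 * (C / ‖e‖) * (C / ‖e‖)) := by
      rw [him, abs_neg]
      refine (Complex.abs_im_le_norm _).trans ?_
      rw [norm_mul, Complex.norm_conj]
      exact mul_le_mul o₁ o₂ (norm_nonneg _) (by positivity)
    have h4 : 1 / ‖e‖ ≤ 2 * ‖d‖ / ‖om e d‖ := by
      rw [div_le_div_iff₀ hn hw]
      have := Lbd_om e d
      linarith
    have h5 : C / ‖e‖ ≤ C * (2 * ‖d‖ / ‖om e d‖) := by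
      have := mul_le_mul_of_nonneg_left h4 hC0
      rwa [mul_one_div] at this
    have hsum : ‖s₀ + s₁ + s₂‖ ≤ (‖d‖ * (1 + 4 * C)) / ‖om e d‖ := by
      refine (norm_add_le _ _).trans ?_
      have h6 := norm_add_le s₀ s₁
      rw [n0] at h6
      have h7 : (‖d‖ * (1 + 4 * C)) / ‖om e d‖ = ‖d‖ / ‖om e d‖ + C * (2 * ‖d‖ / ‖om e d‖) +
          C * (2 * ‖d‖ / ‖om e d‖) := by ring
      rw [h7]
      linarith
    calc _ ≤ (2 * (C / ‖e‖) * (‖d‖ / ‖om e d‖)) * (2 * (C / ‖e‖) * (C / ‖e‖)) *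
          ((‖d‖ * (1 + 4 * C)) / ‖om e d‖) := mul_le_mul h3 hsum (norm_nonneg _) (by positivity)
      _ = _ := by
        field_simp

end

end Pool.Agent.F8.CG
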