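import Pool.Agent.Lib.MP_305fdd_al.F8.CG.StmL

/-! Piece `Lcoc` of project CG: the Eisenstein series is a 2-cocycle. -/

set_option autoImplicit false

namespace Pool.Agent.F8.CG

open Pool.Agent.F8.BG Pool.Agent.MP_305fdd_al Pool.Agent.Lib.MP_305fdd_al Pool.Agent.F8
open scoped QuadraticAlgebra ComplexConjugate

private theorem Lcoc_inj {a b : ℤ} (h : b ^ 2 + 4 * a < 0) {z : Qf a b ℤ}
    (hz : iC a b z = 0) : z = 0 := by
  have h1 := wC_im h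
  rw [iC_apply] at hz
  have h2 := congrArg Complex.im hz
  simp only [Complex.add_im, Complex.mul_im, Complex.intCast_im, Complex.intCast_re,
    zero_mul, add_zero, zero_add, Complex.zero_im] at h2
  have h3 : z.im = 0 := by
    rcases mul_eq_zero.1 h2 with h4 | h4
    · exact_mod_cast h4
    · exact absurd h4 h1.ne'
  rw [h3] at hz
  have h4 : z.re = 0 := by
    simpa using hz
  ext
  · exact h4
  · exact h3

private theorem Lcoc_vC {a b : ℤ} (h : b ^ 2 + 4 * a < 0) {e : Fin 2 → Qf a b ℤ}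
    (he : e ≠ 0) : vC a b e ≠ 0 := by
  intro h1
  apply he
  funext i
  exact Lcoc_inj h (congrFun h1 i)

private theorem Lcoc_mv {a b : ℤ} (x : GQ a b) (e : Fin 2 → Qf a b ℤ) :
    vC a b (x.val.mulVec e) = (iG a b x).val.mulVec (vC a b e) := by
  funext i
  show iC a b (x.val.mulVec e i) = (x.val.map (iC a b)).mulVec (vC a b e) i
  rw [Matrix.mulVec, Matrix.mulVec, dotProduct, dotProduct, Fin.sum_univ_two, Fin.sum_univ_two,
    map_add, map_mul, map_mul]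
  rfl

private theorem Lcoc_sum (hbd : L_bd) (hlat : L_lat) {a b : ℤ} (h : b ^ 2 + 4 * a < 0)
    {S : Set (Fin 2 → Qf a b ℤ)} (h0 : 0 ∉ S) (g₀ g₁ g₂ : SL2 ℂ) :
    Summable fun e : S => phE (vC a b e) g₀ g₁ g₂ := by
  obtain ⟨C, hC⟩ := hbd.1 g₀ g₁ g₂
  have h1 : Summable fun e : S => C * (‖vC a b e‖ ^ 5)⁻¹ :=
    ((hlat a b h).1.comp_injective Subtype.val_injective).mul_left C
  refine Summable.of_norm_bounded h1 fun e => ?_
  have he : (e : Fin 2 → Qf a b ℤ) ≠ 0 := fun hc => h0 (hc ▸ e.2)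
  exact (hC _ (Lcoc_vC h he)).trans (le_of_eq (div_eq_mul_inv _ _))

private theorem Lcoc_eqv (halg : L_alg) (hbd : L_bd) (hlat : L_lat) {a b : ℤ}
    (h : b ^ 2 + 4 * a < 0) {W : Subgroup (GQ a b)} {S : Set (Fin 2 → Qf a b ℤ)} (h0 : 0 ∉ S)
    (hS : ∀ x ∈ W, ∀ e ∈ S, x.val.mulVec e ∈ S) (x : W) (g₀ g₁ g₂ : SL2 ℂ) :
    Eis a b S (iG a b x.val * g₀) (iG a b x.val * g₁) (iG a b x.val * g₂) =
      (iG a b x.val).val.mulVec (Eis a b S g₀ g₁ g₂) := by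
  obtain ⟨-, hs, hp, -⟩ := halg
  have hinv : ∀ (u v : GQ a b) (e : Fin 2 → Qf a b ℤ), u * v = 1 →
      u.val.mulVec (v.val.mulVec e) = e := by
    intro u v e huv
    rw [Matrix.mulVec_mulVec, ← Matrix.SpecialLinearGroup.coe_mul, huv,
      Matrix.SpecialLinearGroup.coe_one, Matrix.one_mulVec]
  let E : S ≃ S :=
    { toFun := fun e => ⟨x.val.val.mulVec e, hS x.val x.2 e e.2⟩
      invFun := fun e => ⟨(x⁻¹).val.val.mulVec e, hS (x⁻¹).val (x⁻¹).2 e e.2⟩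
      left_inv := fun e => Subtype.ext (hinv _ _ _ (by
        rw [← Subgroup.coe_mul, inv_mul_cancel, Subgroup.coe_one]))
      right_inv := fun e => Subtype.ext (hinv _ _ _ (by
        rw [← Subgroup.coe_mul, mul_inv_cancel, Subgroup.coe_one])) }
  have h1 := Lcoc_sum hbd hlat h h0 g₀ g₁ g₂
  let φ : (Fin 2 → ℂ) →L[ℂ] (Fin 2 → ℂ) :=
    LinearMap.toContinuousLinearMap (Matrix.mulVecLin (iG a b x.val).val)
  have h2 : (iG a b x.val).val.mulVec (Eis a b S g₀ g₁ g₂) =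
      ∑' e : S, (iG a b x.val).val.mulVec (phE (vC a b e) g₀ g₁ g₂) := φ.map_tsum h1
  rw [h2]
  unfold Eis
  rw [← E.tsum_eq]
  refine tsum_congr fun e => ?_
  show phE (vC a b (x.val.val.mulVec e)) _ _ _ = _
  rw [Lcoc_mv]
  unfold phE
  rw [hs, hs, hs, hp]

private theorem Lcoc_coc (halg : L_alg) (hbd : L_bd) (hlat : L_lat) {a b : ℤ}
    (h : b ^ 2 + 4 * a < 0) {S : Set (Fin 2 → Qf a b ℤ)} (h0 : 0 ∉ S) (g₀ g₁ g₂ g₃ : SL2 ℂ) :
    Eis a b S g₁ g₂ g₃ - Eis a b S g₀ g₂ g₃ + Eis a b S g₀ g₁ g₃ - Eis a b S g₀ g₁ g₂ = 0 := by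
  have h1 := (((Lcoc_sum hbd hlat h h0 g₁ g₂ g₃).hasSum.sub
    (Lcoc_sum hbd hlat h h0 g₀ g₂ g₃).hasSum).add
    (Lcoc_sum hbd hlat h h0 g₀ g₁ g₃).hasSum).sub (Lcoc_sum hbd hlat h h0 g₀ g₁ g₂).hasSum
  refine h1.unique ?_
  have h2 : (fun e : S => phE (vC a b e) g₁ g₂ g₃ - phE (vC a b e) g₀ g₂ g₃ +
      phE (vC a b e) g₀ g₁ g₃ - phE (vC a b e) g₀ g₁ g₂) = fun _ => 0 := by
    funext e
    have he : vC a b (e : Fin 2 → Qf a b ℤ) ≠ 0 := Lcoc_vC h fun hc => h0 (hc ▸ e.2)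
    obtain ⟨hn, -, -, hi⟩ := halg
    exact hi (vC a b e) _ _ _ _ (hn _ g₀ he).2 (hn _ g₁ he).2 (hn _ g₂ he).2 (hn _ g₃ he).2
  rw [h2]
  exact hasSum_zero

theorem p_Lcoc (halg : L_alg) (hbd : L_bd) (hlat : L_lat) : L_coc := by
  intro a b h W S h0 hS x y z
  unfold EisC
  have h1 := Lcoc_eqv halg hbd hlat h h0 hS x 1 (iG a b y.val) (iG a b (y * z).val)
  rw [← h1, mul_one, ← map_mul, ← map_mul, ← Subgroup.coe_mul, ← Subgroup.coe_mul, ← mul_assoc]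
  exact Lcoc_coc halg hbd hlat h h0 1 (iG a b x.val) (iG a b (x * y).val)
    (iG a b (x * y * z).val)

end Pool.Agent.F8.CG
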