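import Pool.Agent.Lib.MP_305fdd_al.F8.CG.StmL
import Pool.Agent.Lib.MP_305fdd_al.F8.CG.P_Cun

set_option autoImplicit false

namespace Pool.Agent.F8.CG

open Pool.Agent.F8.BG Pool.Agent.MP_305fdd_al Pool.Agent.Lib.MP_305fdd_al Pool.Agent.F8
open scoped QuadraticAlgebra ComplexConjugate

noncomputable section

private theorem Lcu_mul {R : Type} [CommRing R] (g h : SL2 R) (i j : Fin 2) :
    (g * h).val i j = g.val i 0 * h.val 0 j + g.val i 1 * h.val 1 j := by
  show (g.val * h.val) i j = _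
  rw [Matrix.mul_apply, Fin.sum_univ_two]

private theorem Lcu_col {R : Type} [CommRing R] (x g : SL2 R) (i : Fin 2) :
    x.val.mulVec (colG g 0) i = (x * g).val i 0 := by
  rw [Lcu_mul]
  show x.val.mulVec (colG g 0) i = _
  rw [Matrix.mulVec, dotProduct, Fin.sum_univ_two]
  rfl

private theorem Lcu_det {R : Type} [CommRing R] (g : SL2 R) :
    g.val 0 0 * g.val 1 1 - g.val 0 1 * g.val 1 0 = 1 := by
  rw [← Matrix.det_fin_two]
  exact g.2

private theorem Lcu_inv10 {R : Type} [CommRing R] (g h : SL2 R) :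
    (g⁻¹ * h).val 1 0 = g.val 0 0 * h.val 1 0 - g.val 1 0 * h.val 0 0 := by
  rw [Lcu_mul, Matrix.SpecialLinearGroup.SL2_inv_expl]
  show -g.val 1 0 * h.val 0 0 + g.val 0 0 * h.val 1 0 = _
  ring

private theorem Lcu_bor {a b : ℤ} (g g' x : GQ a b)
    (h : om (x.val.mulVec (colG g 0)) (colG g' 0) = 0) : g'⁻¹ * (x * g) ∈ Bor a b := by
  show (g'⁻¹ * (x * g)).val 1 0 = 0
  rw [Lcu_inv10]
  unfold om at h
  rw [Lcu_col, Lcu_col] at h
  have e : g'.val 0 0 * (x * g).val 1 0 - g'.val 1 0 * (x * g).val 0 0 =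
    -((x * g).val 0 0 * colG g' 0 1 - (x * g).val 1 0 * colG g' 0 0) := by
    show _ = -((x * g).val 0 0 * g'.val 1 0 - (x * g).val 1 0 * g'.val 0 0)
    ring
  rw [e, h, neg_zero]

private theorem Lcu_tv_add {R : Type} [CommRing R] (e : Fin 2 → R) (s t : R) :
    tv e s * tv e t = tv e (s + t) := by
  apply Subtype.ext
  ext i j
  fin_cases i <;> fin_cases j
  · show (tv e s * tv e t).val 0 0 = (tv e (s + t)).val 0 0
    rw [Lcu_mul]
    show (1 - s * e 0 * e 1) * (1 - t * e 0 * e 1) + (s * e 0 ^ 2) * (-(t * e 1 ^ 2)) =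
      1 - (s + t) * e 0 * e 1
    ring
  · show (tv e s * tv e t).val 0 1 = (tv e (s + t)).val 0 1
    rw [Lcu_mul]
    show (1 - s * e 0 * e 1) * (t * e 0 ^ 2) + (s * e 0 ^ 2) * (1 + t * e 0 * e 1) =
      (s + t) * e 0 ^ 2
    ring
  · show (tv e s * tv e t).val 1 0 = (tv e (s + t)).val 1 0
    rw [Lcu_mul]
    show (-(s * e 1 ^ 2)) * (1 - t * e 0 * e 1) + (1 + s * e 0 * e 1) * (-(t * e 1 ^ 2)) =
      -((s + t) * e 1 ^ 2)
    ring
  · show (tv e s * tv e t).val 1 1 = (tv e (s + t)).val 1 1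
    rw [Lcu_mul]
    show (-(s * e 1 ^ 2)) * (t * e 0 ^ 2) + (1 + s * e 0 * e 1) * (1 + t * e 0 * e 1) =
      1 + (s + t) * e 0 * e 1
    ring

private theorem Lcu_tv_pow {R : Type} [CommRing R] (e : Fin 2 → R) (t : R) (n : ℕ) :
    tv e t ^ n = tv e (n * t) := by
  induction n with
  | zero =>
    rw [pow_zero]
    apply Subtype.ext
    ext i j
    fin_cases i <;> fin_cases j
    · show (1 : Matrix (Fin 2) (Fin 2) R) 0 0 = 1 - ((0 : ℕ) : R) * t * e 0 * e 1
      simp
    · show (1 : Matrix (Fin 2) (Fin 2) R) 0 1 = ((0 : ℕ) : R) * t * e 0 ^ 2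
      simp
    · show (1 : Matrix (Fin 2) (Fin 2) R) 1 0 = -(((0 : ℕ) : R) * t * e 1 ^ 2)
      simp
    · show (1 : Matrix (Fin 2) (Fin 2) R) 1 1 = 1 + ((0 : ℕ) : R) * t * e 0 * e 1
      simp
  | succ n ih =>
    rw [pow_succ, ih, Lcu_tv_add]
    congr 1
    push_cast
    ring

theorem p_Lcu : L_cu := by
  intro a b hab M hM W hW hWM
  refine ⟨?_, ?_, ?_, ?_⟩
  · have hfin : Finite (GQ a b ⧸ W) := Subgroup.finite_quotient_of_finiteIndex
    let f : GQ a b ⧸ W → Cusp W := Quotient.lift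
      (fun g : GQ a b => (Quotient.mk'' ((g⁻¹ : GQ a b) : Pr a b) : Cusp W)) (by
        intro g h hgh
        have h1 : g⁻¹ * h ∈ W := QuotientGroup.leftRel_apply.1 hgh
        apply Quotient.sound'
        rw [MulAction.orbitRel_apply]
        refine ⟨⟨g⁻¹ * h, h1⟩, ?_⟩
        show (((g⁻¹ * h) * h⁻¹ : GQ a b) : Pr a b) = _
        rw [mul_inv_cancel_right])
    refine Finite.of_surjective f ?_
    intro c
    induction c using Quotient.inductionOn' with
    | h p =>
      induction p using QuotientGroup.induction_on with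
      | H g =>
        refine ⟨((g⁻¹ : GQ a b) : GQ a b ⧸ W), ?_⟩
        show (Quotient.mk'' (((g⁻¹)⁻¹ : GQ a b) : Pr a b) : Cusp W) = _
        rw [inv_inv]
  · intro g g' x hx h
    have h1 := Lcu_bor g g' x h
    have h2 : ((g' : GQ a b) : Pr a b) = ((x * g : GQ a b) : Pr a b) := QuotientGroup.eq.2 h1
    apply Quotient.sound'
    rw [h2, MulAction.orbitRel_apply]
    refine ⟨⟨x, hx⟩⁻¹, ?_⟩
    show ((x⁻¹ * (x * g) : GQ a b) : Pr a b) = _
    rw [inv_mul_cancel_left]
  · intro g x hx h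
    have h1 := Lcu_bor g g x h
    set k : GQ a b := g⁻¹ * (x * g) with hk
    have hk10 : k.val 1 0 = 0 := h1
    have hkM : k ∈ Gam a b M := by
      have hxM := hWM hx
      rw [MonoidHom.mem_ker] at hxM ⊢
      rw [hk, map_mul, map_mul, hxM, one_mul, ← map_mul, inv_mul_cancel, map_one]
    have hdet := Lcu_det k
    rw [hk10, mul_zero, sub_zero] at hdet
    have h00 : (rdq a b M k).val 0 0 = 1 := by
      rw [MonoidHom.mem_ker.1 hkM]
      rfl
    have hQ : Qfm a b (Int.castRingHom (ZMod M)) (k.val 0 0) = 1 := h00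
    have hre := congrArg QuadraticAlgebra.re hQ
    have him := congrArg QuadraticAlgebra.im hQ
    rw [Qfm_apply, QuadraticAlgebra.re_one] at hre
    rw [Qfm_apply, QuadraticAlgebra.im_one] at him
    have hre' : (M : ℤ) ∣ (k.val 0 0).re - 1 := by
      rw [← ZMod.intCast_zmod_eq_zero_iff_dvd]
      push_cast
      have : (((k.val 0 0).re : ℤ) : ZMod M) = 1 := hre
      rw [this, sub_self]
    have him' : (M : ℤ) ∣ (k.val 0 0).im := by
      rw [← ZMod.intCast_zmod_eq_zero_iff_dvd]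
      exact him
    have hu : k.val 0 0 = 1 := p_Cun a b hab M hM _ _ hdet hre' him'
    have hxg : x * g = g * k := by
      rw [hk, mul_inv_cancel_left]
    funext i
    rw [Lcu_col, hxg, Lcu_mul, hu, hk10, mul_one, mul_zero, add_zero]
    rfl
  · refine ⟨(W.index).factorial, Nat.factorial_ne_zero _, fun e t => ?_⟩
    rw [← Lcu_tv_pow]
    exact Subgroup.pow_mem_of_index_ne_zero_of_dvd hW.index_ne_zero _
      (fun m hm hm' => Nat.dvd_factorial hm hm')

end

end Pool.Agent.F8.CG
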