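import Pool.Agent.Lib.MP_305fdd_al.F8.CG.StmL

/-!
# MP_305fdd_al, congruence subgroups: piece [CG Leis], independent Eisenstein cocycles
-/

set_option autoImplicit false

namespace Pool.Agent.F8.CG

open Pool.Agent.F8.BG Pool.Agent.MP_305fdd_al Pool.Agent.Lib.MP_305fdd_al Pool.Agent.F8
open scoped QuadraticAlgebra ComplexConjugate

private theorem Leis_tv_comm {R : Type} [CommRing R] (e : Fin 2 → R) (s t : R) :
    tv e s * tv e t = tv e t * tv e s := by
  unfold tv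
  rw [AB.mx_mul, AB.mx_mul]
  apply AB.mx_congr <;> ring

private theorem Leis_om_tv {a b : ℤ} (d : Fin 2 → Qf a b ℤ) (s : Qf a b ℤ) (v : Fin 2 → ℂ) :
    om (vC a b d) ((iG a b (tv d s)).val.mulVec v) = om (vC a b d) v := by
  have e00 : (iG a b (tv d s)).val 0 0 = iC a b (1 - s * d 0 * d 1) := rfl
  have e01 : (iG a b (tv d s)).val 0 1 = iC a b (s * d 0 ^ 2) := rfl
  have e10 : (iG a b (tv d s)).val 1 0 = iC a b (-(s * d 1 ^ 2)) := rfl
  have e11 : (iG a b (tv d s)).val 1 1 = iC a b (1 + s * d 0 * d 1) := rfl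
  simp only [om, vC, Matrix.mulVec, dotProduct, Fin.sum_univ_two, e00, e01, e10, e11, map_sub,
    map_add, map_neg, map_mul, map_pow, map_one]
  ring

private theorem Leis_om_sum {ι : Type} [Fintype ι] (e : Fin 2 → ℂ) (l : ι → ℂ)
    (v v' : ι → Fin 2 → ℂ) :
    om e (∑ i, l i • v i - ∑ i, l i • v' i) = ∑ i, l i * om e (v i - v' i) := by
  simp only [om, Finset.sum_apply, Pi.smul_apply, Pi.sub_apply, smul_eq_mul]
  rw [← Finset.sum_sub_distrib, ← Finset.sum_sub_distrib, Finset.mul_sum, Finset.mul_sum,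
    ← Finset.sum_sub_distrib]
  exact Finset.sum_congr rfl fun i _ => by ring

/-- the functional vanishes on coboundaries -/
private theorem Leis_cob {a b : ℤ} (W : Subgroup (GQ a b)) (c : W → W → Fin 2 → ℂ)
    (hc : Cob2 W c) (d : Fin 2 → Qf a b ℤ) (s t : Qf a b ℤ) (hs : tv d s ∈ W) (ht : tv d t ∈ W) :
    om (vC a b d) (c ⟨_, hs⟩ ⟨_, ht⟩ - c ⟨_, ht⟩ ⟨_, hs⟩) = 0 := by
  obtain ⟨f, hf⟩ := hc
  have hcomm : (⟨tv d s, hs⟩ : W) * ⟨tv d t, ht⟩ = ⟨tv d t, ht⟩ * ⟨tv d s, hs⟩ :=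
    Subtype.ext (Leis_tv_comm d s t)
  rw [hf, hf, hcomm]
  have h1 := Leis_om_tv d s (f ⟨tv d t, ht⟩)
  have h2 := Leis_om_tv d t (f ⟨tv d s, hs⟩)
  have h3 : ∀ e u v w x y : Fin 2 → ℂ, om e (u - w + x - (v - w + y)) =
      om e u + om e x - om e v - om e y := by
    intro e u v w x y
    simp only [om, Pi.sub_apply, Pi.add_apply]
    ring
  rw [h3]
  show om (vC a b d) ((iG a b (tv d s)).val.mulVec (f ⟨tv d t, ht⟩)) + _ -
    om (vC a b d) ((iG a b (tv d t)).val.mulVec (f ⟨tv d s, hs⟩)) - _ = 0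
  rw [h1, h2]
  ring

theorem p_Leis (hcoc : L_coc) (hkap : L_kap) (hcu : L_cu) : L_eis := by
  intro a b hab M hM W hWf hWM _
  obtain ⟨-, c2, c3, N, hN, hNW⟩ := hcu a b hab M hM W hWf hWM
  have hrep : ∀ i : Cusp W, ∃ g : GQ a b, (Quotient.mk'' (g : Pr a b) : Cusp W) = i := by
    intro i
    induction i using Quotient.inductionOn' with
    | h x =>
      induction x using QuotientGroup.induction_on with
      | H g => exact ⟨g, rfl⟩
  choose g hg using hrep
  have hS0 : ∀ i : Cusp W, (0 : Fin 2 → Qf a b ℤ) ∉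
      {e | ∃ x ∈ W, e = x.val.mulVec (colG (g i) 0)} := by
    rintro i ⟨x, -, hx⟩
    have h1 := G.SL_det (x * g i)
    have h2 : ∀ k, (x * g i).val k 0 = 0 := by
      intro k
      have h3 := congrFun hx k
      show (x.val * (g i).val) k 0 = 0
      rw [Matrix.mul_apply]
      exact h3.symm
    rw [h2, h2, zero_mul, mul_zero, sub_zero] at h1
    have h4 := congrArg QuadraticAlgebra.re h1
    rw [QuadraticAlgebra.re_one, QuadraticAlgebra.re_zero] at h4
    exact zero_ne_one h4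
  have hSW : ∀ i : Cusp W, ∀ x ∈ W, ∀ e ∈ {e | ∃ x ∈ W, e = x.val.mulVec (colG (g i) 0)},
      x.val.mulVec e ∈ {e | ∃ x ∈ W, e = x.val.mulVec (colG (g i) 0)} := by
    rintro i x hx e ⟨y, hy, rfl⟩
    refine ⟨x * y, W.mul_mem hx hy, ?_⟩
    rw [Matrix.mulVec_mulVec]
    rfl
  refine ⟨fun i => EisC W {e | ∃ x ∈ W, e = x.val.mulVec (colG (g i) 0)},
    fun i => hcoc a b hab W _ (hS0 i) (hSW i), ?_⟩
  intro l hl
  funext j
  have h1 := Leis_cob W _ hl (colG (g j) 0) ((N : Qf a b ℤ) * 1) ((N : Qf a b ℤ) * wq a b ℤ)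
    (hNW _ _) (hNW _ _)
  rw [Leis_om_sum] at h1
  rw [Finset.sum_eq_single j] at h1
  · have h2 := (hkap a b hab W _ (hS0 j) (hSW j) (g j) ((N : Qf a b ℤ) * 1)
      ((N : Qf a b ℤ) * wq a b ℤ) (hNW _ _) (hNW _ _)).2
      ⟨1, W.one_mem, (Matrix.one_mulVec _).symm⟩ (by
        rintro e ⟨x, hx, rfl⟩ he
        exact c3 (g j) x hx he)
    rw [h2] at h1
    rcases mul_eq_zero.1 h1 with h3 | h3
    · exact h3
    · exfalso
      rw [Complex.ofReal_eq_zero] at h3
      have h4 : iC a b ((N : Qf a b ℤ) * 1) = ((N : ℝ) : ℂ) := by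
        rw [mul_one, map_natCast]
        norm_cast
      have h5 : iC a b ((N : Qf a b ℤ) * wq a b ℤ) = ((N : ℝ) : ℂ) * wC a b := by
        rw [map_mul, map_natCast, iC_apply]
        have h6 : (wq a b ℤ).re = 0 := rfl
        have h7 : (wq a b ℤ).im = 1 := rfl
        rw [h6, h7]
        push_cast
        ring
      rw [h4, h5, Complex.conj_ofReal, Complex.im_ofReal_mul, Complex.im_ofReal_mul] at h3
      have h8 := wC_im hab
      have h9 : (0 : ℝ) < N := by exact_mod_cast Nat.pos_of_ne_zero hN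
      have h10 : 0 < 6 * ((N : ℝ) * ((N : ℝ) * (wC a b).im)) := by positivity
      exact h10.ne' h3
  · intro i _ hij
    have h2 := (hkap a b hab W _ (hS0 i) (hSW i) (g j) ((N : Qf a b ℤ) * 1)
      ((N : Qf a b ℤ) * wq a b ℤ) (hNW _ _) (hNW _ _)).1 (by
        rintro e ⟨x, hx, rfl⟩ he
        have h3 := c2 (g i) (g j) x hx he
        rw [hg, hg] at h3
        exact hij h3)
    rw [h2, mul_zero]
  · intro h
    exact absurd (Finset.mem_univ j) h

end Pool.Agent.F8.CG
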