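import Pool.Agent.Lib.MP_305fdd_al.F8.CG.StmL

/-! Piece `Lkap` of project CG: the functional of a cusp on the Eisenstein cocycle. -/

set_option autoImplicit false

namespace Pool.Agent.F8.CG

open Pool.Agent.F8.BG Pool.Agent.MP_305fdd_al Pool.Agent.Lib.MP_305fdd_al Pool.Agent.F8
open scoped QuadraticAlgebra ComplexConjugate

noncomputable section

private theorem Lkap_mv {R : Type} [CommRing R] (M : Matrix (Fin 2) (Fin 2) R) (v : Fin 2 → R)
    (i : Fin 2) : M.mulVec v i = M i 0 * v 0 + M i 1 * v 1 := by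
  rw [Matrix.mulVec_eq_sum]
  simp [Fin.sum_univ_two, mul_comm]

private theorem Lkap_val {R : Type} [CommRing R] (e : Fin 2 → R) (t : R) :
    (tv e t).val = !![1 - t * e 0 * e 1, t * e 0 ^ 2; -(t * e 1 ^ 2), 1 + t * e 0 * e 1] := rfl

private theorem Lkap_tv {R : Type} [CommRing R] (e : Fin 2 → R) (t : R) (v : Fin 2 → R) :
    (tv e t).val.mulVec v = v + (t * om e v) • e := by
  rw [Lkap_val]
  ext i
  rw [Lkap_mv]
  fin_cases i <;> simp [om] <;> ring

private theorem Lkap_tvm {R : Type} [CommRing R] (e : Fin 2 → R) (s t : R) :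
    tv e (s + t) = tv e s * tv e t := by
  apply Subtype.ext
  rw [Matrix.SpecialLinearGroup.coe_mul, Lkap_val, Lkap_val, Lkap_val]
  ext i j
  fin_cases i <;> fin_cases j <;> simp [Matrix.mul_apply, Fin.sum_univ_two] <;> ring

private theorem Lkap_inv {R : Type} [CommRing R] (g : SL2 R) (e v : Fin 2 → R) :
    om (g.val.mulVec e) (g.val.mulVec v) = om e v := by
  have hd : g.val 0 0 * g.val 1 1 - g.val 0 1 * g.val 1 0 = 1 := by
    rw [← Matrix.det_fin_two]
    exact g.2
  unfold om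
  rw [Lkap_mv, Lkap_mv, Lkap_mv, Lkap_mv]
  linear_combination (e 0 * v 1 - e 1 * v 0) * hd

private theorem Lkap_om {a b : ℤ} (e e' : Fin 2 → Qf a b ℤ) :
    om (vC a b e) (vC a b e') = iC a b (om e e') := by
  simp [om, vC]

private theorem Lkap_iG {a b : ℤ} (x : GQ a b) (e : Fin 2 → Qf a b ℤ) :
    (iG a b x).val.mulVec (vC a b e) = vC a b (x.val.mulVec e) := by
  have h : ∀ i j, (iG a b x).val i j = iC a b (x.val i j) := fun _ _ => rfl
  ext i
  rw [Lkap_mv, h, h]
  show _ = iC a b (x.val.mulVec e i)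
  rw [Lkap_mv, map_add, map_mul, map_mul]
  rfl

private theorem Lkap_iGtv {a b : ℤ} (e : Fin 2 → Qf a b ℤ) (t : Qf a b ℤ) :
    iG a b (tv e t) = tv (vC a b e) (iC a b t) := by
  apply Subtype.ext
  ext i j
  have h : (iG a b (tv e t)).val i j = iC a b ((tv e t).val i j) := rfl
  rw [h, Lkap_val, Lkap_val]
  fin_cases i <;> fin_cases j <;> simp [vC]

private theorem Lkap_iC0 {a b : ℤ} (hab : b ^ 2 + 4 * a < 0) (z : Qf a b ℤ) (h : iC a b z = 0) :
    z = 0 := by
  rw [iC_apply] at h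
  have h1 := congrArg Complex.im h
  simp only [Complex.add_im, Complex.intCast_im, Complex.mul_im, Complex.intCast_re, zero_mul,
    add_zero, zero_add, Complex.zero_im] at h1
  have h2 : (z.im : ℝ) = 0 := (mul_eq_zero.1 h1).resolve_right (wC_im hab).ne'
  have h3 : z.im = 0 := by exact_mod_cast h2
  rw [h3] at h
  simp only [Int.cast_zero, zero_mul, add_zero, Int.cast_eq_zero] at h
  ext
  · exact h
  · exact h3

private theorem Lkap_vC0 {a b : ℤ} (hab : b ^ 2 + 4 * a < 0) (e : Fin 2 → Qf a b ℤ) (h : e ≠ 0) :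
    vC a b e ≠ 0 := by
  intro h1
  apply h
  funext i
  exact Lkap_iC0 hab (e i) (congrFun h1 i)

private theorem Lkap_three (halg : L_alg) (d e : Fin 2 → ℂ) (he : e ≠ 0) (hde : om e d ≠ 0)
    (g₀ g₁ g₂ : SL2 ℂ) :
    phE e g₀ g₁ g₂ = psE d e g₁ g₂ - psE d e g₀ g₂ + psE d e g₀ g₁ := by
  have h := halg.2.2.2 e ((om e d)⁻¹ • d) (sE e g₀) (sE e g₁) (sE e g₂) (by
    have : om e ((om e d)⁻¹ • d) = (om e d)⁻¹ * om e d := by
      simp only [om, Pi.smul_apply, smul_eq_mul]
      ring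
    rw [this, inv_mul_cancel₀ hde]) (halg.1 e g₀ he).2 (halg.1 e g₁ he).2 (halg.1 e g₂ he).2
  unfold phE psE
  rw [← sub_eq_zero, ← h]
  abel

private theorem Lkap_eqv (halg : L_alg) (d e : Fin 2 → ℂ) (x g₁ g₂ : SL2 ℂ)
    (hx : x.val.mulVec d = d) :
    om d (psE d (x.val.mulVec e) (x * g₁) (x * g₂)) = om d (psE d e g₁ g₂) := by
  unfold psE
  rw [halg.2.1 e g₁ x, halg.2.1 e g₂ x]
  have h1 : om (x.val.mulVec e) d = om e d := by
    conv_lhs => rw [← hx]
    exact Lkap_inv x e d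
  have h2 : (om (x.val.mulVec e) d)⁻¹ • d = x.val.mulVec ((om e d)⁻¹ • d) := by
    rw [h1, Matrix.mulVec_smul, hx]
  rw [h2, halg.2.2.1]
  have h3 := Lkap_inv x d (ph ((om e d)⁻¹ • d) (sE e g₁) (sE e g₂))
  rw [hx] at h3
  exact h3

private theorem Lkap_omd (d : Fin 2 → ℂ) (u v : Fin 2 → ℂ) (c : ℂ) :
    om d (u + v) = om d u + om d v ∧ om d (u - v) = om d u - om d v ∧
      om d (c • u) = c * om d u := by
  refine ⟨?_, ?_, ?_⟩ <;> simp only [om, Pi.add_apply, Pi.sub_apply, Pi.smul_apply, smul_eq_mul] <;>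
    ring

private theorem Lkap_own (halg : L_alg) (d : Fin 2 → ℂ) (hd : d ≠ 0) (s t : ℂ) :
    om d (phE d 1 (tv d s) (tv d s * tv d t)) = ((3 * (conj s * t).im : ℝ) : ℂ) := by
  have hdd : om d d = 0 := by simp only [om]; ring
  have hX : ∀ r : ℂ, (tv d r).val.mulVec d = d := by
    intro r
    rw [Lkap_tv, hdd]
    simp
  set s₀ := sE d 1 with hs₀
  have h1 : om d s₀ = 1 := (halg.1 d 1 hd).2
  have h2 : ∀ r : ℂ, sE d (tv d r) = s₀ + r • d := by
    intro r
    have := halg.2.1 d 1 (tv d r)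
    rw [hX, mul_one] at this
    rw [this, Lkap_tv, ← hs₀, h1, mul_one]
  have h3 : sE d (tv d s) = s₀ + s • d := h2 s
  have h4 : sE d (tv d s * tv d t) = s₀ + (s + t) • d := by
    rw [← Lkap_tvm]
    exact h2 (s + t)
  unfold phE
  rw [← hs₀, h3, h4]
  unfold ph
  have h5 : ∀ r : ℂ, om (s₀ + r • d) s₀ = r := by
    intro r
    have : om (s₀ + r • d) s₀ = r * om d s₀ := by
      simp only [om, Pi.add_apply, Pi.smul_apply, smul_eq_mul]
      ring
    rw [this, h1, mul_one]
  rw [h5, h5, (Lkap_omd d _ 0 _).2.2]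
  have h6 : om d (s₀ + (s₀ + s • d) + (s₀ + (s + t) • d)) = 3 := by
    have : om d (s₀ + (s₀ + s • d) + (s₀ + (s + t) • d)) = 3 * om d s₀ + (2 * s + t) * om d d := by
      simp only [om, Pi.add_apply, Pi.smul_apply, smul_eq_mul]
      ring
    rw [this, h1, hdd]
    ring
  rw [h6]
  have h7 : (conj s * (s + t)).im = (conj s * t).im := by
    simp only [Complex.mul_im, Complex.add_re, Complex.add_im, Complex.conj_re, Complex.conj_im]
    ring
  rw [h7]
  push_cast
  ring

theorem p_Lkap (halg : L_alg) (hbd : L_bd) (hlat : L_lat) : L_kap := by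
  intro a b hab W S h0 hS g s t hs ht
  set d₀ : Fin 2 → Qf a b ℤ := colG g 0 with hd₀
  set d : Fin 2 → ℂ := vC a b d₀ with hd
  set X : SL2 ℂ := tv d (iC a b s) with hX
  set Y : SL2 ℂ := tv d (iC a b t) with hY
  have hd₀0 : d₀ ≠ 0 := by
    intro h
    have hdet : g.val 0 0 * g.val 1 1 - g.val 0 1 * g.val 1 0 = 1 := by
      rw [← Matrix.det_fin_two]
      exact g.2
    have h1 : g.val 0 0 = 0 := congrFun h 0
    have h2 : g.val 1 0 = 0 := congrFun h 1
    rw [h1, h2] at hdet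
    have h3 := congrArg QuadraticAlgebra.re hdet
    simp at h3
  have hd0 : d ≠ 0 := Lkap_vC0 hab d₀ hd₀0
  have hXY : Y * X = X * Y := by
    rw [hX, hY, ← Lkap_tvm, ← Lkap_tvm, add_comm]
  -- the sums
  have hsm : ∀ g₀ g₁ g₂ : SL2 ℂ, Summable fun e : S => phE (vC a b e.val) g₀ g₁ g₂ := by
    intro g₀ g₁ g₂
    obtain ⟨C, hC⟩ := hbd.1 g₀ g₁ g₂
    have h1 : Summable fun e : S => C * (‖vC a b e.val‖ ^ 5)⁻¹ :=
      ((hlat a b hab).1.comp_injective Subtype.val_injective).mul_left C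
    refine Summable.of_norm_bounded h1 fun e => ?_
    rw [← div_eq_mul_inv]
    exact hC _ (Lkap_vC0 hab _ fun h => h0 (h ▸ e.2))
  let L : (Fin 2 → ℂ) →L[ℂ] ℂ :=
    d 0 • ContinuousLinearMap.proj 1 - d 1 • ContinuousLinearMap.proj 0
  have hL : ∀ v, L v = om d v := by
    intro v
    simp [L, om]
  let T : (Fin 2 → Qf a b ℤ) → ℂ := fun e =>
    om d (phE (vC a b e) 1 X (X * Y) - phE (vC a b e) 1 Y (X * Y))
  have hE : om d (EisC W S ⟨_, hs⟩ ⟨_, ht⟩ - EisC W S ⟨_, ht⟩ ⟨_, hs⟩) =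
      ∑' e, S.indicator T e := by
    have e1 : EisC W S ⟨_, hs⟩ ⟨_, ht⟩ = ∑' e : S, phE (vC a b e.val) 1 X (X * Y) := by
      show ∑' e : S, phE (vC a b e.val) 1 (iG a b (tv d₀ s)) (iG a b (tv d₀ s * tv d₀ t)) = _
      rw [map_mul, Lkap_iGtv, Lkap_iGtv]
    have e2 : EisC W S ⟨_, ht⟩ ⟨_, hs⟩ = ∑' e : S, phE (vC a b e.val) 1 Y (X * Y) := by
      show ∑' e : S, phE (vC a b e.val) 1 (iG a b (tv d₀ t)) (iG a b (tv d₀ t * tv d₀ s)) = _
      rw [map_mul, Lkap_iGtv, Lkap_iGtv, ← hX, ← hY, hXY]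
    rw [e1, e2, ← Summable.tsum_sub (hsm _ _ _) (hsm _ _ _), ← hL,
      L.map_tsum ((hsm _ _ _).sub (hsm _ _ _)), ← tsum_subtype]
    refine tsum_congr fun e => ?_
    rw [hL]
  rw [hE]
  -- the nonproportional vectors
  let S' : Set (Fin 2 → Qf a b ℤ) := {e | e ∈ S ∧ om e d₀ ≠ 0}
  have hps : ∀ g₁ g₂ : SL2 ℂ,
      Summable (S'.indicator fun e => om d (psE d (vC a b e) g₁ g₂)) := by
    intro g₁ g₂
    obtain ⟨C, hC⟩ := hbd.2 d g₁ g₂
    have h1 := ((hlat a b hab).2 g).mul_left (‖L‖ * |C|)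
    refine Summable.of_norm_bounded h1 fun e => ?_
    by_cases he : e ∈ S'
    · rw [Set.indicator_of_mem he, ← hL]
      have h2 : om (vC a b e) d ≠ 0 := by
        rw [hd, Lkap_om]
        exact fun h => he.2 (Lkap_iC0 hab _ h)
      refine (L.le_opNorm _).trans ?_
      rw [mul_assoc, ← div_eq_mul_inv]
      refine mul_le_mul_of_nonneg_left ((hC _ h2).trans ?_) (norm_nonneg _)
      exact div_le_div_of_nonneg_right (le_abs_self C) (by positivity)
    · rw [Set.indicator_of_notMem he, norm_zero]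
      positivity
  have hre : ∀ (x : GQ a b), x ∈ W → x.val.mulVec d₀ = d₀ → ∀ Z : SL2 ℂ,
      iG a b x * Z = Z * iG a b x →
      ∑' e, (S'.indicator (fun e => om d (psE d (vC a b e) (iG a b x) (iG a b x * Z))) e -
        S'.indicator (fun e => om d (psE d (vC a b e) 1 Z)) e) = 0 := by
    intro x hx hxd Z _
    rw [Summable.tsum_sub (hps _ _) (hps _ _), sub_eq_zero]
    let σ : (Fin 2 → Qf a b ℤ) ≃ (Fin 2 → Qf a b ℤ) :=
      { toFun := fun e => x.val.mulVec e
        invFun := fun e => (x⁻¹).val.mulVec e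
        left_inv := by
          intro e
          show (x⁻¹).val.mulVec (x.val.mulVec e) = e
          rw [Matrix.mulVec_mulVec, ← Matrix.SpecialLinearGroup.coe_mul, inv_mul_cancel,
            Matrix.SpecialLinearGroup.coe_one, Matrix.one_mulVec]
        right_inv := by
          intro e
          show x.val.mulVec ((x⁻¹).val.mulVec e) = e
          rw [Matrix.mulVec_mulVec, ← Matrix.SpecialLinearGroup.coe_mul, mul_inv_cancel,
            Matrix.SpecialLinearGroup.coe_one, Matrix.one_mulVec] }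
    rw [← σ.tsum_eq]
    refine tsum_congr fun e => ?_
    show S'.indicator _ (x.val.mulVec e) = _
    have hxd' : (iG a b x).val.mulVec d = d := by
      rw [hd, Lkap_iG, hxd]
    have h1 : om (x.val.mulVec e) d₀ = om e d₀ := by
      have h2 := Lkap_inv x e d₀
      rw [hxd] at h2
      exact h2
    by_cases he : e ∈ S'
    · have he' : x.val.mulVec e ∈ S' := ⟨hS x hx e he.1, by rw [h1]; exact he.2⟩
      rw [Set.indicator_of_mem he, Set.indicator_of_mem he']
      have h3 := Lkap_eqv halg d (vC a b e) (iG a b x) 1 Z hxd'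
      rw [mul_one, Lkap_iG] at h3
      exact h3
    · have he' : x.val.mulVec e ∉ S' := by
        intro h2
        apply he
        refine ⟨?_, by rw [← h1]; exact h2.2⟩
        have h4 := hS x⁻¹ (W.inv_mem hx) _ h2.1
        rw [Matrix.mulVec_mulVec, ← Matrix.SpecialLinearGroup.coe_mul, inv_mul_cancel,
            Matrix.SpecialLinearGroup.coe_one, Matrix.one_mulVec] at h4
        exact h4
      rw [Set.indicator_of_notMem he, Set.indicator_of_notMem he']
  have hdd₀ : om d₀ d₀ = 0 := by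
    simp only [om]
    ring
  have hx0 : ∀ r : Qf a b ℤ, (tv d₀ r).val.mulVec d₀ = d₀ := by
    intro r
    rw [Lkap_tv, hdd₀]
    simp
  have hiX : iG a b (tv d₀ s) = X := Lkap_iGtv d₀ s
  have hiY : iG a b (tv d₀ t) = Y := Lkap_iGtv d₀ t
  have hA := hre (tv d₀ s) hs (hx0 s) Y (by rw [hiX, hXY])
  have hB := hre (tv d₀ t) ht (hx0 t) X (by rw [hiY, hXY])
  rw [hiX] at hA
  rw [hiY, hXY] at hB
  have hsplit : ∀ e, S'.indicator T e =
      (S'.indicator (fun e => om d (psE d (vC a b e) X (X * Y))) e -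
        S'.indicator (fun e => om d (psE d (vC a b e) 1 Y)) e) -
      (S'.indicator (fun e => om d (psE d (vC a b e) Y (X * Y))) e -
        S'.indicator (fun e => om d (psE d (vC a b e) 1 X)) e) := by
    intro e
    by_cases he : e ∈ S'
    · simp only [Set.indicator_of_mem he]
      have h2 : om (vC a b e) d ≠ 0 := by
        rw [hd, Lkap_om]
        exact fun h => he.2 (Lkap_iC0 hab _ h)
      have h3 : vC a b e ≠ 0 := Lkap_vC0 hab _ fun h => h0 (h ▸ he.1)
      show om d (phE (vC a b e) 1 X (X * Y) - phE (vC a b e) 1 Y (X * Y)) = _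
      rw [Lkap_three halg d _ h3 h2, Lkap_three halg d _ h3 h2]
      simp only [(Lkap_omd d _ _ 0).1, (Lkap_omd d _ _ 0).2.1]
      ring
    · simp only [Set.indicator_of_notMem he]
      ring
  have hS'T : ∑' e, S'.indicator T e = 0 := by
    rw [tsum_congr hsplit, Summable.tsum_sub ((hps _ _).sub (hps _ _))
      ((hps _ _).sub (hps _ _)), hA, hB, sub_zero]
  have hS'Ts : Summable (S'.indicator T) := by
    refine (((hps X (X * Y)).sub (hps 1 Y)).sub ((hps Y (X * Y)).sub (hps 1 X))).congr ?_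
    intro e
    exact (hsplit e).symm
  constructor
  · intro h
    rw [← hS'T]
    refine tsum_congr fun e => ?_
    by_cases he : e ∈ S
    · rw [Set.indicator_of_mem he, Set.indicator_of_mem (show e ∈ S' from ⟨he, h e he⟩)]
    · rw [Set.indicator_of_notMem he, Set.indicator_of_notMem fun h1 => he h1.1]
  · intro hdS h
    have h1 : ∀ e, S.indicator T e = S'.indicator T e + (if e = d₀ then T d₀ else 0) := by
      intro e
      by_cases hed : e = d₀
      · subst hed
        rw [Set.indicator_of_mem hdS, Set.indicator_of_notMem fun h1 => h1.2 hdd₀, if_pos rfl,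
          zero_add]
      · rw [if_neg hed, add_zero]
        by_cases he : e ∈ S
        · have he' : e ∈ S' := ⟨he, fun h2 => hed (h e he h2)⟩
          rw [Set.indicator_of_mem he, Set.indicator_of_mem he']
        · rw [Set.indicator_of_notMem he, Set.indicator_of_notMem fun h1 => he h1.1]
    have h2 : HasSum (fun e : Fin 2 → Qf a b ℤ => if e = d₀ then T d₀ else 0) (T d₀) :=
      hasSum_ite_eq d₀ (T d₀)
    rw [tsum_congr h1, Summable.tsum_add hS'Ts h2.summable, hS'T, h2.tsum_eq, zero_add]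
    show om d (phE d 1 X (X * Y) - phE d 1 Y (X * Y)) = _
    rw [(Lkap_omd d _ _ 0).2.1]
    have h3 := Lkap_own halg d hd0 (iC a b s) (iC a b t)
    have h4 := Lkap_own halg d hd0 (iC a b t) (iC a b s)
    rw [← hX, ← hY] at h3 h4
    rw [hXY] at h4
    rw [h3, h4]
    have h5 : (conj (iC a b t) * iC a b s).im = -(conj (iC a b s) * iC a b t).im := by
      simp only [Complex.mul_im, Complex.conj_re, Complex.conj_im]
      ring
    rw [h5]
    push_cast
    ring

end

end Pool.Agent.F8.CG
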