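import Pool.Agent.Lib.MP_305fdd_al.F8.CG.StmU

/-!
# CG Ugr: subgroups of finite index of `F ⋊ ℤ`
-/

set_option autoImplicit false

namespace Pool.Agent.F8.CG

open Pool.Agent.F8.BG Pool.Agent.MP_305fdd_al Pool.Agent.Lib.MP_305fdd_al Pool.Agent.F8

private theorem Ugr_comap {G H : Type} [Group G] [Group H] (f : G →* H) (L : Subgroup H)
    (hL : L.FiniteIndex) : (L.comap f).FiniteIndex := by
  refine ⟨?_⟩
  rw [Subgroup.index_comap]
  exact (inferInstance : (L.subgroupOf f.range).FiniteIndex).index_ne_zero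

private theorem Ugr_fin {ι : Type} (h : Group.FG (FreeGroup ι)) : Finite ι := by
  classical
  have h1 : Finite (FreeGroup ι →* Multiplicative (ZMod 2)) := finite_hom _ _
  have h2 : Finite (ι → Multiplicative (ZMod 2)) := Finite.of_equiv _ FreeGroup.lift.symm
  refine Finite.of_injective
    (fun i : ι => (Pi.mulSingle i (Multiplicative.ofAdd 1) : ι → Multiplicative (ZMod 2)))
    fun i j hij => ?_
  by_contra hne
  have h3 := congrFun hij i
  simp only [Pi.mulSingle_eq_same] at h3
  rw [Pi.mulSingle_eq_of_ne hne] at h3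
  revert h3
  decide

private theorem Ugr_tf (a : Multiplicative ℤ) (m : ℤ) (h : a ≠ 1) (hm : a ^ m = 1) : m = 0 := by
  obtain ⟨x, rfl⟩ := Multiplicative.ofAdd.surjective a
  rw [← ofAdd_zsmul] at hm
  have h1 : m • x = 0 := Multiplicative.ofAdd.injective hm
  rw [smul_eq_mul] at h1
  rcases mul_eq_zero.1 h1 with h2 | h2
  · exact h2
  · exact absurd (by rw [h2]; rfl) h

private theorem Ugr_gen {L : Type} [Group L] (ν : L →* Multiplicative ℤ) (n : ℕ)
    (e : ν.ker ≃* FreeGroup (Fin n)) (hν : ∃ x, ν x ≠ 1) :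
    ∃ α' : MulAut (FreeGroup (Fin n)), Nonempty (L ≃* GR α') := by
  classical
  -- the generator of the image
  obtain ⟨⟨_, s, rfl⟩, hs⟩ := IsCyclic.exists_generator (α := ν.range)
  have h1 : ∀ x : L, ∃ m : ℤ, ν x = ν s ^ m := by
    intro x
    obtain ⟨m, hm⟩ := Subgroup.mem_zpowers_iff.1 (hs ⟨ν x, x, rfl⟩)
    exact ⟨m, (congrArg Subtype.val hm).symm⟩
  have h2 : ν s ≠ 1 := by
    intro h
    obtain ⟨x, hx⟩ := hν
    obtain ⟨m, hm⟩ := h1 x
    rw [h, one_zpow] at hm
    exact hx hm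
  let α' : MulAut (FreeGroup (Fin n)) :=
    (e.symm.trans (MulAut.conjNormal s : MulAut ν.ker)).trans e
  have hα' : ∀ w, e.symm (α' w) = MulAut.conjNormal s (e.symm w) := by
    intro w
    change e.symm (e (MulAut.conjNormal s (e.symm w))) = _
    rw [MulEquiv.symm_apply_apply]
  have h3 : ∀ w : FreeGroup (Fin n), FreeGroup.lift (fun i => ((e.symm (FreeGroup.of i) : ν.ker) : L)) w
      = ((e.symm w : ν.ker) : L) := by
    have h4 : FreeGroup.lift (fun i => ((e.symm (FreeGroup.of i) : ν.ker) : L)) =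
        ν.ker.subtype.comp e.symm.toMonoidHom := by
      ext i
      simp
    intro w
    rw [h4]
    rfl
  have h5 : ∀ i : Fin n, s * ((e.symm (FreeGroup.of i) : ν.ker) : L) * s⁻¹ =
      FreeGroup.lift (fun i => ((e.symm (FreeGroup.of i) : ν.ker) : L)) (α' (FreeGroup.of i)) := by
    intro i
    rw [h3, hα', MulAut.conjNormal_apply]
  let f : GR α' →* L := liR (fun i => ((e.symm (FreeGroup.of i) : ν.ker) : L)) s h5
  have hf : ∀ w (m : ℤ), f (iR α' w * tR α' ^ m) = ((e.symm w : ν.ker) : L) * s ^ m := by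
    intro w m
    rw [map_mul, map_zpow]
    change liR _ s h5 (iR α' w) * (liR _ s h5 (tR α')) ^ m = _
    rw [liR_iR, liR_tR, h3]
  refine ⟨α', ⟨(MulEquiv.ofBijective f ⟨?_, ?_⟩).symm⟩⟩
  · rw [injective_iff_map_eq_one]
    intro g hg
    obtain ⟨w, m, rfl⟩ := GR_cases α' g
    rw [hf] at hg
    have h6 : ν (((e.symm w : ν.ker) : L) * s ^ m) = 1 := by rw [hg, map_one]
    rw [map_mul, (e.symm w).2, one_mul, map_zpow] at h6
    have h7 := Ugr_tf _ _ h2 h6
    subst h7
    rw [zpow_zero, mul_one] at hg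
    have h8 : e.symm w = 1 := Subtype.ext hg
    have h9 : w = 1 := e.symm.injective (by rw [h8, map_one])
    rw [h9, map_one, zpow_zero, mul_one]
  · intro x
    obtain ⟨m, hm⟩ := h1 x
    have h6 : x * (s ^ m)⁻¹ ∈ ν.ker := by
      rw [MonoidHom.mem_ker, map_mul, map_inv, map_zpow, hm, mul_inv_cancel]
    refine ⟨iR α' (e ⟨_, h6⟩) * tR α' ^ m, ?_⟩
    rw [hf, MulEquiv.symm_apply_apply, inv_mul_cancel_right]

private theorem Ugr_nz {ι : Type} (α : MulAut (FreeGroup ι)) (L : Subgroup (GR α))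
    (hL : L.FiniteIndex) : ∃ x : L, ((nR α).comp L.subtype) x ≠ 1 := by
  obtain ⟨j, hj, -, hj'⟩ := Subgroup.exists_pow_mem_of_index_ne_zero hL.index_ne_zero (tR α)
  refine ⟨⟨tR α ^ j, hj'⟩, fun h => ?_⟩
  have h1 : nR α (tR α ^ j) = 1 := h
  have h2 : nR α (iR α 1 * tR α ^ (j : ℤ)) = Multiplicative.ofAdd (j : ℤ) := nR_eq α 1 j
  rw [map_one, one_mul, zpow_natCast, h1] at h2
  have h3 : (0 : ℤ) = j := Multiplicative.ofAdd.injective h2
  omega

/-- [CG U gr] subgroups of finite index of `F ⋊ ℤ`. -/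
theorem p_Ugr : U_gr := by
  intro ι _ α L hL
  let H : Subgroup (FreeGroup ι) := L.comap (iR α)
  have hH : H.FiniteIndex := Ugr_comap _ _ hL
  have hFG : Group.FG H := Subgroup.fg_of_index_ne_zero H
  have hF : IsFreeGroup H := inferInstance
  let e0 : H ≃* FreeGroup (IsFreeGroup.Generators H) := IsFreeGroup.toFreeGroup H
  have hX : Finite (IsFreeGroup.Generators H) :=
    Ugr_fin (Group.fg_of_surjective (f := e0.toMonoidHom) e0.surjective)
  let ν : L →* Multiplicative ℤ := (nR α).comp L.subtype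
  let g : H →* ν.ker :=
    { toFun := fun x => ⟨⟨iR α x.1, x.2⟩, by
        change nR α (iR α x.1) = 1
        exact nR_iR _ _⟩
      map_one' := by
        apply Subtype.ext
        apply Subtype.ext
        exact map_one _
      map_mul' := by
        intro x y
        apply Subtype.ext
        apply Subtype.ext
        exact map_mul _ _ _ }
  have hg : Function.Bijective g := by
    constructor
    · intro x y h
      have h1 : iR α x.1 = iR α y.1 := congrArg (fun z : ν.ker => ((z : L) : GR α)) h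
      exact Subtype.ext (iR_injective α h1)
    · rintro ⟨⟨x, hx⟩, hx'⟩
      obtain ⟨w, m, rfl⟩ := GR_cases α x
      have h1 : nR α (iR α w * tR α ^ m) = 1 := hx'
      rw [nR_eq] at h1
      have h2 : m = 0 := Multiplicative.ofAdd.injective h1
      subst h2
      have h3 : iR α w * tR α ^ (0 : ℤ) = iR α w := by rw [zpow_zero, mul_one]
      have h4 : w ∈ H := by
        change iR α w ∈ L
        rw [← h3]
        exact hx
      refine ⟨⟨w, h4⟩, ?_⟩
      apply Subtype.ext
      apply Subtype.ext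
      exact h3.symm
  let e1 : ν.ker ≃* H := (MulEquiv.ofBijective g hg).symm
  let e2 : FreeGroup (IsFreeGroup.Generators H) ≃* FreeGroup (Fin (Nat.card (IsFreeGroup.Generators H))) :=
    FreeGroup.freeGroupCongr (Finite.equivFin _)
  obtain ⟨α', hα'⟩ := Ugr_gen ν _ ((e1.trans e0).trans e2) (Ugr_nz α L hL)
  exact ⟨_, α', hα'⟩

end Pool.Agent.F8.CG
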