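import Pool.Agent.Lib.MP_305fdd_al.F8.CG.StmU

/-!
# MP_305fdd_al, congruence subgroups: the lower bound for the dimension (piece Ulb)
-/

set_option autoImplicit false

namespace Pool.Agent.F8.CG

open Pool.Agent.F8.BG Pool.Agent.MP_305fdd_al Pool.Agent.Lib.MP_305fdd_al Pool.Agent.F8
open scoped QuadraticAlgebra ComplexConjugate

noncomputable section

/-- the representation of `W` on `ℂ²` -/
private def Ulb_s {a b : ℤ} (W : Subgroup (GQ a b)) : W →* Module.End ℂ (Fin 2 → ℂ) where
  toFun x := Matrix.toLin' (iG a b x.val).val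
  map_one' := by
    show Matrix.toLin' (iG a b (1 : GQ a b)).val = 1
    rw [map_one, Matrix.SpecialLinearGroup.coe_one, Matrix.toLin'_one]
    rfl
  map_mul' := by
    intro x y
    show Matrix.toLin' (iG a b (x.val * y.val)).val = _
    rw [map_mul, Matrix.SpecialLinearGroup.coe_mul, Matrix.toLin'_mul]
    rfl

private theorem Ulb_s_apply {a b : ℤ} (W : Subgroup (GQ a b)) (x : W) (v : Fin 2 → ℂ) :
    Ulb_s W x v = (iG a b x.val).val.mulVec v := by
  show Matrix.toLin' (iG a b x.val).val v = _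
  rw [Matrix.toLin'_apply]

/-- [CG Ulb] the lower bound. -/
theorem p_Ulb (hw : U_w) (hwg : U_wg) (heis : L_eis) : U_lb := by
  intro a b ι _ α N w M c g G₀ η hD W hW hWf hfin
  obtain ⟨n, α', ⟨e⟩⟩ := hw a b ι α N w M c g G₀ η hD W hW hWf
  have : Fintype (Cusp W) := Fintype.ofFinite _
  have hM : 3 ≤ 3 * M := by
    have := hD.eta.ne
    omega
  obtain ⟨c', hc, hl⟩ := heis a b hD.neg (3 * M) hM W hWf hW
  have key := hwg W n α' e ℂ (Fin 2 → ℂ) (Ulb_s W) (Cusp W) c'
    (by
      intro i x y z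
      rw [Ulb_s_apply]
      exact hc i x y z)
    (by
      rintro l ⟨f, hf⟩
      apply hl l
      refine ⟨f, ?_⟩
      intro x y
      show ∑ i, l i • c' i x y = _
      rw [hf x y, Ulb_s_apply])
  have hZ : ZE (Ulb_s W) = Z1C W.subtype := by
    ext z
    show (∀ x y, z (x * y) = z x + Ulb_s W x (z y)) ↔
      (∀ x y, z (x * y) = z x + (iG a b (W.subtype x)).val.mulVec (z y))
    constructor
    · intro h x y
      rw [h x y, Ulb_s_apply]
      rfl
    · intro h x y
      rw [h x y, Ulb_s_apply]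
      rfl
  rw [hZ, Module.finrank_fin_fun] at key
  rw [Nat.card_eq_fintype_card]
  exact key

end

end Pool.Agent.F8.CG
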