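import Pool.Agent.Lib.MP_305fdd_al.F8.CG.StmU

/-!
# MP_305fdd_al, congruence subgroups: piece [CG Uld], the formula for the dimension
-/

set_option autoImplicit false

namespace Pool.Agent.F8.CG

open Pool.Agent.F8.BG Pool.Agent.MP_305fdd_al Pool.Agent.Lib.MP_305fdd_al Pool.Agent.F8
open scoped QuadraticAlgebra ComplexConjugate

theorem p_Uld (heu : V_eu) (hub : U_ub) (hlb : U_lb) (har : E_ar) : U_ld := by
  intro a b hfive ι _ α N w M c g G₀ η hdat
  have hM : M ≠ 0 := hdat.eta.ne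
  refine ⟨by omega, fun W hW hWf => ?_⟩
  obtain ⟨h1, h2⟩ := hub a b hdat.neg (heu a b hfive) (har a b hfive).1 W hWf
  exact ⟨h1, le_antisymm h2 (hlb a b ι α N w M c g G₀ η hdat W hW hWf h1)⟩

end Pool.Agent.F8.CG
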