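import Pool.Agent.Lib.MP_305fdd_al.F8.CG.StmU

/-! Piece `Uub` of project CG: the upper bound for the dimension of the crossed homomorphisms. -/

set_option autoImplicit false

namespace Pool.Agent.F8.CG

open Pool.Agent.F8.BG Pool.Agent.MP_305fdd_al Pool.Agent.Lib.MP_305fdd_al Pool.Agent.F8
open scoped QuadraticAlgebra ComplexConjugate

private theorem Uub_mv {R : Type} [CommRing R] (M : Matrix (Fin 2) (Fin 2) R) (v : Fin 2 → R)
    (i : Fin 2) : M.mulVec v i = M i 0 * v 0 + M i 1 * v 1 := by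
  rw [Matrix.mulVec_eq_sum]
  simp [Fin.sum_univ_two, mul_comm]

private theorem Uub_inj {a b : ℤ} (h : b ^ 2 + 4 * a < 0) {x : Qf a b ℤ} (hx : iC a b x = 0) :
    x = 0 := by
  rw [iC_apply] at hx
  have h1 := congrArg Complex.im hx
  simp only [Complex.add_im, Complex.intCast_im, Complex.mul_im, Complex.intCast_re,
    Complex.zero_im, zero_mul, add_zero, zero_add] at h1
  have h2 := wC_im h
  have h3 : ((x.im : ℤ) : ℝ) = 0 := by
    rcases mul_eq_zero.1 h1 with h3 | h3
    · exact h3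
    · exact absurd h3 h2.ne'
  have h4 : x.im = 0 := by exact_mod_cast h3
  have h5 : x.re = 0 := by
    rw [h4] at hx
    have : ((x.re : ℤ) : ℂ) = 0 := by
      rw [← hx]
      push_cast
      ring
    exact_mod_cast this
  exact QuadraticAlgebra.ext h5 h4

private theorem Uub_vmv {a b : ℤ} (g : GQ a b) (e : Fin 2 → Qf a b ℤ) :
    vC a b (g.val.mulVec e) = (iG a b g).val.mulVec (vC a b e) := by
  ext i
  rw [Uub_mv]
  unfold vC
  rw [Uub_mv, map_add, map_mul, map_mul]
  rfl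

private theorem Uub_vsm {a b : ℤ} (l : Qf a b ℤ) (e : Fin 2 → Qf a b ℤ) :
    vC a b (l • e) = iC a b l • vC a b e := by
  ext i
  show iC a b (l * e i) = iC a b l * iC a b (e i)
  rw [map_mul]

private theorem Uub_itv {a b : ℤ} (e : Fin 2 → Qf a b ℤ) (t : Qf a b ℤ) :
    iG a b (tv e t) = tv (vC a b e) (iC a b t) := by
  apply Subtype.ext
  ext i j
  show iC a b ((tv e t).val i j) = (tv (vC a b e) (iC a b t)).val i j
  fin_cases i <;> fin_cases j
  · show iC a b (1 - t * e 0 * e 1) = 1 - iC a b t * iC a b (e 0) * iC a b (e 1)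
    simp only [map_sub, map_mul, map_one]
  · show iC a b (t * e 0 ^ 2) = iC a b t * iC a b (e 0) ^ 2
    simp only [map_mul, map_pow]
  · show iC a b (-(t * e 1 ^ 2)) = -(iC a b t * iC a b (e 1) ^ 2)
    simp only [map_neg, map_mul, map_pow]
  · show iC a b (1 + t * e 0 * e 1) = 1 + iC a b t * iC a b (e 0) * iC a b (e 1)
    simp only [map_add, map_mul, map_one]

private theorem Uub_om_add (e v w : Fin 2 → ℂ) : om e (v + w) = om e v + om e w := by
  unfold om
  simp only [Pi.add_apply]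
  ring

private theorem Uub_om_smul (e v : Fin 2 → ℂ) (c : ℂ) : om e (c • v) = c * om e v := by
  unfold om
  simp only [Pi.smul_apply, smul_eq_mul]
  ring

private theorem Uub_om_smul' (e v : Fin 2 → ℂ) (c : ℂ) : om (c • e) v = c * om e v := by
  unfold om
  simp only [Pi.smul_apply, smul_eq_mul]
  ring

private theorem Uub_om_self (e : Fin 2 → ℂ) : om e e = 0 := by
  unfold om
  ring

private theorem Uub_prim {R : Type} [CommRing R] [IsDomain R] [IsPrincipalIdealRing R]
    (e : Fin 2 → R) (he : e ≠ 0) : ∃ (l : R) (g : SL2 R), e = l • colG g 0 := by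
  set l := IsBezout.gcd (e 0) (e 1) with hl
  obtain ⟨d0, h0⟩ := IsBezout.gcd_dvd_left (e 0) (e 1)
  obtain ⟨d1, h1⟩ := IsBezout.gcd_dvd_right (e 0) (e 1)
  obtain ⟨x, y, hxy⟩ := IsBezout.gcd_eq_sum (e 0) (e 1)
  rw [← hl] at h0 h1 hxy
  have hl0 : l ≠ 0 := by
    intro h
    apply he
    rw [h, zero_mul] at h0 h1
    ext i
    fin_cases i
    · exact h0
    · exact h1
  have hd : x * d0 + y * d1 = 1 := by
    apply mul_left_cancel₀ hl0
    linear_combination hxy - x * h0 - y * h1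
  refine ⟨l, AB.mx d0 (-y) d1 x (by linear_combination hd), ?_⟩
  ext i
  fin_cases i
  · exact h0
  · exact h1

private theorem Uub_fin {a b : ℤ} (W : Subgroup (GQ a b)) (hW : W.FiniteIndex) :
    Finite (Cusp W) := by
  let f : GQ a b ⧸ W → Cusp W := fun q => Quotient.mk'' (((q.out)⁻¹ : GQ a b) : Pr a b)
  apply Finite.of_surjective f
  intro c
  induction c using Quotient.inductionOn' with
  | h p =>
    induction p using Quotient.inductionOn' with
    | h g =>
      refine ⟨((g⁻¹ : GQ a b) : GQ a b ⧸ W), ?_⟩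
      obtain ⟨w, hw⟩ := QuotientGroup.mk_out_eq_mul W g⁻¹
      show Quotient.mk'' _ = Quotient.mk'' _
      rw [hw, mul_inv_rev, inv_inv]
      apply Quotient.sound'
      exact ⟨w⁻¹, rfl⟩

private noncomputable def Uub_g {a b : ℤ} (W : Subgroup (GQ a b)) (i : Cusp W) : GQ a b :=
  Quotient.out (Quotient.out i : Pr a b)

private theorem Uub_rep {a b : ℤ} (W : Subgroup (GQ a b)) (g : GQ a b) :
    ∃ (i : Cusp W) (x : GQ a b), x ∈ W ∧ ∃ k ∈ Bor a b, g = x * Uub_g W i * k := by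
  let i : Cusp W := Quotient.mk'' ((g : GQ a b) : Pr a b)
  have h1 : (Quotient.mk'' (Quotient.out i) : Cusp W) = Quotient.mk'' ((g : GQ a b) : Pr a b) :=
    Quotient.out_eq' i
  obtain ⟨w, hw⟩ := Quotient.exact' h1
  have h2 : ((Uub_g W i : GQ a b) : Pr a b) = Quotient.out i := Quotient.out_eq' (Quotient.out i)
  have h3 : (((w : GQ a b) * g : GQ a b) : Pr a b) = ((Uub_g W i : GQ a b) : Pr a b) := by
    rw [h2, ← hw]
    rfl
  have h4 := QuotientGroup.eq.1 h3
  refine ⟨i, (w : GQ a b)⁻¹, W.inv_mem w.2, _, (Bor a b).inv_mem h4, ?_⟩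
  group

private theorem Uub_pow (htv : V_tv) {R : Type} [CommRing R] (e : Fin 2 → R) (n : ℕ) :
    tv e (n : R) = tv e 1 ^ n := by
  induction n with
  | zero =>
    have h := (htv R e 0 0).2.1
    rw [add_zero] at h
    rw [Nat.cast_zero, pow_zero]
    exact mul_eq_left.1 h.symm
  | succ n ih =>
    rw [Nat.cast_succ, (htv R e n 1).2.1, ih, pow_succ]

private theorem Uub_mem (htv : V_tv) {a b : ℤ} (W : Subgroup (GQ a b)) (hW : W.FiniteIndex)
    (e : Fin 2 → Qf a b ℤ) : tv e ((W.index.factorial : ℕ) : Qf a b ℤ) ∈ W := by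
  rw [Uub_pow htv]
  exact Subgroup.pow_mem_of_index_ne_zero_of_dvd hW.index_ne_zero _
    fun m hm hm' => Nat.dvd_factorial hm hm'

/-- the values at conjugates -/
private theorem Uub_conj (htv : V_tv) {a b : ℤ} {W : Subgroup (GQ a b)} {z : W → Fin 2 → ℂ}
    (hz : z ∈ Z1C W.subtype) (d : Fin 2 → Qf a b ℤ) (t : Qf a b ℤ) (x : W) (hp : tv d t ∈ W)
    (hP : tv (x.val.val.mulVec d) t ∈ W) (h0 : om (vC a b d) (z ⟨_, hp⟩) = 0) :
    om (vC a b (x.val.val.mulVec d)) (z ⟨_, hP⟩) = 0 := by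
  have hz' : ∀ x y : W, z (x * y) = z x + (iG a b x.val).val.mulVec (z y) := hz
  have h1 : (⟨_, hP⟩ : W) = x * ⟨_, hp⟩ * x⁻¹ := by
    apply Subtype.ext
    exact ((htv _ d t t).2.2.1 x.val).symm
  have h2 : (⟨_, hP⟩ : W) * x = x * ⟨_, hp⟩ := by
    rw [h1, inv_mul_cancel_right]
  have h3 := congrArg z h2
  rw [hz', hz'] at h3
  have h4 : (iG a b (tv (x.val.val.mulVec d) t)).val.mulVec (z x) =
      z x + (iC a b t * om (vC a b (x.val.val.mulVec d)) (z x)) • vC a b (x.val.val.mulVec d) := by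
    rw [Uub_itv]
    exact (htv ℂ _ (iC a b t) (iC a b t)).1 (z x)
  have h5 := congrArg (om (vC a b (x.val.val.mulVec d))) h3
  rw [h4, Uub_om_add, Uub_om_add, Uub_om_add, Uub_om_smul, Uub_om_self, mul_zero, add_zero] at h5
  have h6 : om (vC a b (x.val.val.mulVec d)) ((iG a b x.val).val.mulVec (z ⟨_, hp⟩)) = 0 := by
    rw [Uub_vmv]
    rw [(htv ℂ (vC a b d) 0 0).2.2.2.2.2 (iG a b x.val) (z ⟨_, hp⟩)]
    exact h0
  rw [h6, add_zero] at h5
  exact add_eq_right.1 h5

/-- commuting transvections -/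
private theorem Uub_comm (htv : V_tv) {a b : ℤ} (hn : b ^ 2 + 4 * a < 0) {W : Subgroup (GQ a b)}
    {z : W → Fin 2 → ℂ} (hz : z ∈ Z1C W.subtype) (d : Fin 2 → Qf a b ℤ) (hd : d ≠ 0)
    (t : Qf a b ℤ) (n : ℕ) (hn0 : n ≠ 0) (hp : tv d t ∈ W) (hN : tv d (n : Qf a b ℤ) ∈ W)
    (h0 : om (vC a b d) (z ⟨_, hN⟩) = 0) : om (vC a b d) (z ⟨_, hp⟩) = 0 := by
  have hz' : ∀ x y : W, z (x * y) = z x + (iG a b x.val).val.mulVec (z y) := hz
  have h1 : (⟨_, hp⟩ : W) * ⟨_, hN⟩ = ⟨_, hN⟩ * ⟨_, hp⟩ := by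
    apply Subtype.ext
    show tv d t * tv d (n : Qf a b ℤ) = tv d (n : Qf a b ℤ) * tv d t
    rw [← (htv _ d t n).2.1, ← (htv _ d n t).2.1, add_comm]
  have h2 := congrArg z h1
  rw [hz', hz'] at h2
  have h4 : ∀ (s : Qf a b ℤ) (v : Fin 2 → ℂ), (iG a b (tv d s)).val.mulVec v =
      v + (iC a b s * om (vC a b d) v) • vC a b d := by
    intro s v
    rw [Uub_itv]
    exact (htv ℂ _ (iC a b s) (iC a b s)).1 v
  rw [h4, h4, h0, mul_zero, zero_smul, add_zero] at h2
  have h5 : (iC a b (n : Qf a b ℤ) * om (vC a b d) (z ⟨_, hp⟩)) • vC a b d = 0 := by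
    have h6 : z ⟨_, hp⟩ + z ⟨_, hN⟩ = z ⟨_, hp⟩ + z ⟨_, hN⟩ +
        (iC a b (n : Qf a b ℤ) * om (vC a b d) (z ⟨_, hp⟩)) • vC a b d := by
      nth_rewrite 1 [h2]
      abel
    exact left_eq_add.1 h6
  rcases smul_eq_zero.1 h5 with h6 | h6
  · rcases mul_eq_zero.1 h6 with h7 | h7
    · rw [map_natCast] at h7
      exact absurd (Nat.cast_eq_zero.1 h7) hn0
    · exact h7
  · exfalso
    apply hd
    ext i : 1
    exact Uub_inj hn (congrFun h6 i)

private theorem Uub_claim (htv : V_tv) {a b : ℤ} (hn : b ^ 2 + 4 * a < 0)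
    (hP : IsPrincipalIdealRing (Qf a b ℤ)) (W : Subgroup (GQ a b)) (hW : W.FiniteIndex)
    {z : W → Fin 2 → ℂ} (hz : z ∈ Z1C W.subtype)
    (h0 : ∀ i : Cusp W, om (vC a b (colG (Uub_g W i) 0))
      (z ⟨_, Uub_mem htv W hW (colG (Uub_g W i) 0)⟩) = 0)
    (e : Fin 2 → Qf a b ℤ) (t : Qf a b ℤ) (h : tv e t ∈ W) :
    om (vC a b e) (z ⟨_, h⟩) = 0 := by
  have hdom : IsDomain (Qf a b ℤ) := Qf_domain hn
  by_cases he : e = 0
  · subst he
    have h1 : vC a b (0 : Fin 2 → Qf a b ℤ) = 0 := by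
      ext i
      show iC a b 0 = 0
      exact map_zero _
    rw [h1]
    unfold om
    simp
  · obtain ⟨l, g, hg⟩ := Uub_prim e he
    obtain ⟨i, x, hx, k, hk, hgx⟩ := Uub_rep W g
    set d := colG (Uub_g W i) 0 with hd
    have hd0 : d ≠ 0 := by
      intro h2
      have h3 : (Uub_g W i).val 0 0 = 0 := congrFun h2 0
      have h4 : (Uub_g W i).val 1 0 = 0 := congrFun h2 1
      have h5 := (Uub_g W i).2
      rw [Matrix.det_fin_two, h3, h4] at h5
      simp at h5
    have hcol : colG g 0 = k.val 0 0 • x.val.mulVec d := by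
      have hm : ∀ (g h : GQ a b) (i k : Fin 2),
          (g * h).val i k = g.val i 0 * h.val 0 k + g.val i 1 * h.val 1 k := fun g h i k => by
        show (g.val * h.val) i k = _
        rw [Matrix.mul_apply, Fin.sum_univ_two]
      have hk' : k.val 1 0 = 0 := hk
      ext j : 1
      show g.val j 0 = k.val 0 0 * x.val.mulVec d j
      rw [Uub_mv]
      show _ = k.val 0 0 * (x.val j 0 * (Uub_g W i).val 0 0 + x.val j 1 * (Uub_g W i).val 1 0)
      rw [hgx, hm, hm, hm, hk']
      ring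
    set u := l * k.val 0 0 with hu
    have he' : e = u • x.val.mulVec d := by
      rw [hg, hcol, smul_smul]
    have htve : tv e t = tv (x.val.mulVec d) (u ^ 2 * t) := by
      rw [he']
      exact (htv _ (x.val.mulVec d) t t).2.2.2.1 u
    have hmem : tv (x.val.mulVec d) (u ^ 2 * t) ∈ W := htve ▸ h
    have hp : tv d (u ^ 2 * t) ∈ W := by
      have h2 := (htv _ d 0 (u ^ 2 * t)).2.2.1 x
      have h3 : tv d (u ^ 2 * t) = x⁻¹ * tv (x.val.mulVec d) (u ^ 2 * t) * x := by
        rw [← h2]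
        group
      rw [h3]
      exact W.mul_mem (W.mul_mem (W.inv_mem hx) hmem) hx
    have h2 := Uub_comm htv hn hz d hd0 (u ^ 2 * t) W.index.factorial
      (Nat.factorial_ne_zero _) hp (Uub_mem htv W hW d) (h0 i)
    have h3 := Uub_conj htv hz d (u ^ 2 * t) ⟨x, hx⟩ hp hmem h2
    have h4 : (⟨_, h⟩ : W) = ⟨_, hmem⟩ := Subtype.ext htve
    rw [h4]
    have h5 : vC a b e = iC a b u • vC a b (x.val.mulVec d) := by
      rw [← Uub_vsm, ← he']
    rw [h5, Uub_om_smul']
    have h6 : om (vC a b (x.val.mulVec d)) (z ⟨_, hmem⟩) = 0 := h3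
    rw [h6, mul_zero]

/-- the coboundaries -/
private noncomputable def Uub_K {a b : ℤ} (W : Subgroup (GQ a b)) :
    (Fin 2 → ℂ) →ₗ[ℂ] (W → Fin 2 → ℂ) where
  toFun v x := (iG a b x.val).val.mulVec v - v
  map_add' v w := by
    ext x i
    simp only [Matrix.mulVec_add, Pi.add_apply, Pi.sub_apply]
    ring
  map_smul' c v := by
    ext x i
    simp only [Matrix.mulVec_smul, Pi.smul_apply, Pi.sub_apply, RingHom.id_apply, smul_eq_mul]
    ring

/-- the boundary values -/
private noncomputable def Uub_B (htv : V_tv) {a b : ℤ} (W : Subgroup (GQ a b))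
    (hW : W.FiniteIndex) : Z1C W.subtype →ₗ[ℂ] (Cusp W → ℂ) where
  toFun z i := om (vC a b (colG (Uub_g W i) 0))
    (z.val ⟨_, Uub_mem htv W hW (colG (Uub_g W i) 0)⟩)
  map_add' z w := by
    ext i
    exact Uub_om_add _ _ _
  map_smul' c z := by
    ext i
    exact Uub_om_smul _ _ _

theorem p_Uub (htv : V_tv) (hvt : V_vt) : U_ub := by
  intro a b hn hEu hP W hW
  have hfin := Uub_fin W hW
  refine ⟨hfin, ?_⟩
  let _ : Fintype (Cusp W) := Fintype.ofFinite _
  apply Module.finrank_le_of_rank_le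
  rw [← LinearMap.rank_range_add_rank_ker (Uub_B htv W hW)]
  have h1 : Module.rank ℂ (LinearMap.range (Uub_B htv W hW)) ≤ (Nat.card (Cusp W) : Cardinal) := by
    refine (Submodule.rank_le _).trans ?_
    rw [rank_fun', Nat.card_eq_fintype_card]
  have h2 : Module.rank ℂ (LinearMap.ker (Uub_B htv W hW)) ≤ (2 : Cardinal) := by
    have h3 : ∀ z : LinearMap.ker (Uub_B htv W hW), z.val.val ∈ LinearMap.range (Uub_K W) := by
      intro z
      have h4 := z.2
      rw [LinearMap.mem_ker] at h4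
      have h5 : ∀ i : Cusp W, om (vC a b (colG (Uub_g W i) 0))
          (z.val.val ⟨_, Uub_mem htv W hW (colG (Uub_g W i) 0)⟩) = 0 := fun i => congrFun h4 i
      obtain ⟨v, hv⟩ := hvt a b hn hEu hP W hW z.val.val z.val.2
        fun e t h => Uub_claim htv hn hP W hW z.val.2 h5 e t h
      refine ⟨v, ?_⟩
      ext x : 1
      exact (hv x).symm
    let f : LinearMap.ker (Uub_B htv W hW) →ₗ[ℂ] LinearMap.range (Uub_K W) :=
      LinearMap.codRestrict (LinearMap.range (Uub_K W))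
        ((Z1C W.subtype).subtype ∘ₗ (LinearMap.ker (Uub_B htv W hW)).subtype) h3
    have hf : Function.Injective f := by
      intro y z hyz
      have h6 : (f y).val = (f z).val := congrArg Subtype.val hyz
      apply Subtype.ext
      apply Subtype.ext
      exact h6
    refine (LinearMap.rank_le_of_injective f hf).trans ?_
    refine (rank_range_le _).trans ?_
    rw [rank_fun', Fintype.card_fin]
    norm_num
  calc Module.rank ℂ (LinearMap.range (Uub_B htv W hW)) +
        Module.rank ℂ (LinearMap.ker (Uub_B htv W hW))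
      ≤ (Nat.card (Cusp W) : Cardinal) + 2 := add_le_add h1 h2
    _ = ((2 + Nat.card (Cusp W) : ℕ) : Cardinal) := by
      push_cast
      rw [add_comm]

end Pool.Agent.F8.CG
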