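import Pool.Agent.Lib.MP_305fdd_al.F8.CG.StmU

/-!
# MP_305fdd_al, congruence subgroups: the subgroups of `Γ(3 M)` (piece Uw)
-/

set_option autoImplicit false

namespace Pool.Agent.F8.CG

open Pool.Agent.F8.BG Pool.Agent.MP_305fdd_al Pool.Agent.Lib.MP_305fdd_al Pool.Agent.F8
open scoped QuadraticAlgebra

noncomputable section

private theorem Uw_int (m : ℕ) (x y : ℤ) (h : ((x : ℤ) : ZMod m) = (y : ZMod m)) :
    (m : ℤ) ∣ x - y := by
  have h1 : (((x - y : ℤ)) : ZMod m) = 0 := by rw [Int.cast_sub, h, sub_self]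
  exact (ZMod.intCast_zmod_eq_zero_iff_dvd _ _).1 h1

private theorem Uw_int' (m : ℕ) (x y : ℤ) (h : (m : ℤ) ∣ x - y) :
    ((x : ℤ) : ZMod m) = (y : ZMod m) := by
  have h1 := (ZMod.intCast_zmod_eq_zero_iff_dvd (x - y) m).2 h
  rw [Int.cast_sub] at h1
  exact sub_eq_zero.1 h1

private theorem Uw_ent {a b : ℤ} {m : ℕ} {g : GQ a b} (h : rdq a b m g = 1) (i j : Fin 2) :
    (m : ℤ) ∣ (g.val i j).re - ((1 : GQ a b).val i j).re ∧
    (m : ℤ) ∣ (g.val i j).im - ((1 : GQ a b).val i j).im := by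
  have h1 : rdq a b m g = rdq a b m 1 := by rw [h, map_one]
  have h2 : Qfm a b (Int.castRingHom (ZMod m)) (g.val i j) =
      Qfm a b (Int.castRingHom (ZMod m)) ((1 : GQ a b).val i j) :=
    congrArg (fun x : SL2 (Qf a b (ZMod m)) => x.val i j) h1
  rw [Qfm_apply, Qfm_apply] at h2
  exact ⟨Uw_int _ _ _ (congrArg QuadraticAlgebra.re h2),
    Uw_int _ _ _ (congrArg QuadraticAlgebra.im h2)⟩

private theorem Uw_red {a b : ℤ} {m n : ℕ} (hmn : m ∣ n) {g : GQ a b} (h : rdq a b n g = 1) :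
    rdq a b m g = 1 := by
  rw [← map_one (rdq a b m)]
  apply Subtype.ext
  ext i j : 1
  show Qfm a b (Int.castRingHom (ZMod m)) (g.val i j) =
      Qfm a b (Int.castRingHom (ZMod m)) ((1 : GQ a b).val i j)
  have h1 := Uw_ent h i j
  have h2 : (m : ℤ) ∣ (n : ℤ) := Int.natCast_dvd_natCast.2 hmn
  rw [Qfm_apply, Qfm_apply]
  apply QuadraticAlgebra.ext
  · exact Uw_int' _ _ _ (h2.trans h1.1)
  · exact Uw_int' _ _ _ (h2.trans h1.2)

private theorem Uw_neg {a b : ℤ} {m : ℕ} (hm : 3 ≤ m) {g : GQ a b} (h : rdq a b m g = 1) :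
    g ≠ -1 := by
  rintro rfl
  have h1 := (Uw_ent h 0 0).1
  have h2 : ((-1 : GQ a b).val 0 0).re - ((1 : GQ a b).val 0 0).re = -2 := by
    have e1 : ((-1 : GQ a b).val 0 0).re = -1 := rfl
    have e2 : ((1 : GQ a b).val 0 0).re = 1 := rfl
    rw [e1, e2]
    norm_num
  rw [h2] at h1
  have h3 := Int.le_of_dvd (by norm_num) ((dvd_neg).1 h1)
  omega

private theorem Uw_index {P Q : Type} [Group P] [Group Q] (f : P →* Q) (hf : f.range.FiniteIndex)
    (A : Subgroup P) (hA : A.FiniteIndex) : (A.map f).FiniteIndex := by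
  constructor
  rw [Subgroup.index_map]
  have h1 : (A ⊔ f.ker).FiniteIndex := Subgroup.finiteIndex_of_le le_sup_left
  exact Nat.mul_ne_zero h1.index_ne_zero hf.index_ne_zero

/-- [CG Uw] the subgroups `W`. -/
theorem p_Uw (hgr : U_gr) : U_w := by
  intro a b ι _ α N w M c g G₀ η hD W hW hWf
  have hη := hD.eta
  have hM : M ≠ 0 := hη.ne
  have hWG : W ≤ G₀ := fun x hx => hη.lev x (Uw_red (Dvd.intro_left 3 rfl) (hW hx))
  have hLf : ((W.subgroupOf G₀).map η).FiniteIndex :=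
    Uw_index η hη.fin _ inferInstance
  obtain ⟨n, α', ⟨e⟩⟩ := hgr ι α _ hLf
  refine ⟨n, α', ⟨?_⟩⟩
  let f : W →* (W.subgroupOf G₀).map η :=
    (η.comp (Subgroup.inclusion hWG)).codRestrict _ (fun x => ⟨⟨x.1, hWG x.2⟩, x.2, rfl⟩)
  have hf : Function.Bijective f := by
    refine ⟨?_, ?_⟩
    · rw [injective_iff_map_eq_one]
      intro x hx
      have h1 : η ⟨x.1, hWG x.2⟩ = 1 := congrArg Subtype.val hx
      rcases (hη.ker _).1 h1 with h2 | h2
      · exact Subtype.ext h2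
      · exfalso
        exact Uw_neg (by omega) (hW x.2) h2
    · rintro ⟨x, hx⟩
      obtain ⟨y, hy, hy2⟩ := hx
      exact ⟨⟨y.val, hy⟩, Subtype.ext hy2⟩
  exact (MulEquiv.ofBijective f hf).trans e

end

end Pool.Agent.F8.CG
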