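import Pool.Agent.Lib.MP_305fdd_al.F8.CG.StmU

/-!
# MP_305fdd_al, congruence subgroups: crossed homomorphisms and the second cohomology of `F ⋊ ℤ`
-/

set_option autoImplicit false

namespace Pool.Agent.F8.CG

open Pool.Agent.F8.BG Pool.Agent.MP_305fdd_al Pool.Agent.Lib.MP_305fdd_al Pool.Agent.F8
open scoped QuadraticAlgebra ComplexConjugate

noncomputable section

/-! ### extensions -/

/-- an extension with the 2-cocycle `c` -/
private structure UwgX {G K V E : Type} [Group G] [Group E] [CommRing K] [AddCommGroup V]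
    [Module K V] (σ : G →* Module.End K V) (c : G → G → V) (pr : E →* G)
    (j : Multiplicative V →* E) (s : G → E) : Prop where
  inj : Function.Injective j
  ker : ∀ u, pr u = 1 ↔ ∃ v, j v = u
  sec : ∀ x, pr (s x) = x
  mul : ∀ x y, s x * s y = j (Multiplicative.ofAdd (c x y)) * s (x * y)
  cnj : ∀ u v, u * j (Multiplicative.ofAdd v) * u⁻¹ = j (Multiplicative.ofAdd (σ (pr u) v))

/-- twisted crossed homomorphisms -/
private def UwgT {G H K V : Type} [Group G] [Group H] [CommRing K] [AddCommGroup V]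
    [Module K V] (σ : G →* Module.End K V) (c : G → G → V) (ρ : H →* G) (f : H → V) : Prop :=
  ∀ g h, f (g * h) = f g + σ (ρ g) (f h) + c (ρ g) (ρ h)

section ext

variable {G H K V E : Type} [Group G] [Group H] [Group E] [CommRing K] [AddCommGroup V]
  [Module K V] {σ : G →* Module.End K V} {c : G → G → V} {pr : E →* G}
  {j : Multiplicative V →* E} {s : G → E}

private theorem Uwg_prod (h : UwgX σ c pr j s) (a b : V) (x y : G) :
    (j (Multiplicative.ofAdd a) * s x) * (j (Multiplicative.ofAdd b) * s y) =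
      j (Multiplicative.ofAdd (a + σ x b + c x y)) * s (x * y) := by
  have h1 : s x * j (Multiplicative.ofAdd b) = j (Multiplicative.ofAdd (σ x b)) * s x := by
    have h2 := h.cnj (s x) b
    rw [h.sec] at h2
    rw [← h2]
    group
  calc (j (Multiplicative.ofAdd a) * s x) * (j (Multiplicative.ofAdd b) * s y)
      = j (Multiplicative.ofAdd a) * (s x * j (Multiplicative.ofAdd b)) * s y := by group
    _ = j (Multiplicative.ofAdd a) * (j (Multiplicative.ofAdd (σ x b)) * s x) * s y := by rw [h1]
    _ = j (Multiplicative.ofAdd a) * j (Multiplicative.ofAdd (σ x b)) * (s x * s y) := by group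
    _ = j (Multiplicative.ofAdd a) * j (Multiplicative.ofAdd (σ x b)) *
          (j (Multiplicative.ofAdd (c x y)) * s (x * y)) := by rw [h.mul]
    _ = _ := by
        rw [← mul_assoc, ← map_mul, ← map_mul, ← ofAdd_add, ← ofAdd_add]

private theorem Uwg_inj (h : UwgX σ c pr j s) {a b : V} {x : G}
    (hab : j (Multiplicative.ofAdd a) * s x = j (Multiplicative.ofAdd b) * s x) : a = b := by
  have h1 := h.inj (mul_right_cancel hab)
  exact Multiplicative.ofAdd.injective h1

private def Uwg_hom (h : UwgX σ c pr j s) (ρ : H →* G) (f : H → V) (hf : UwgT σ c ρ f) : H →* E :=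
  MonoidHom.mk' (fun g => j (Multiplicative.ofAdd (f g)) * s (ρ g)) (by
    intro g g'
    rw [Uwg_prod h, hf, map_mul])

private theorem Uwg_dec (h : UwgX σ c pr j s) (ρ : H →* G) (Φ : H →* E)
    (hΦ : ∀ g, pr (Φ g) = ρ g) :
    ∃ f : H → V, (∀ g, Φ g = j (Multiplicative.ofAdd (f g)) * s (ρ g)) ∧ UwgT σ c ρ f := by
  have h1 : ∀ g, ∃ a : V, Φ g = j (Multiplicative.ofAdd a) * s (ρ g) := by
    intro g
    have h2 : pr (Φ g * (s (ρ g))⁻¹) = 1 := by
      rw [map_mul, map_inv, hΦ, h.sec, mul_inv_cancel]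
    obtain ⟨a, ha⟩ := (h.ker _).1 h2
    refine ⟨Multiplicative.toAdd a, ?_⟩
    rw [ofAdd_toAdd, ha]
    group
  choose f hf using h1
  refine ⟨f, hf, ?_⟩
  intro g g'
  have h2 := map_mul Φ g g'
  rw [hf, hf g, hf g', Uwg_prod h, map_mul] at h2
  exact Uwg_inj h h2

end ext

section free

variable {G K V E : Type} [Group G] [Group E] [CommRing K] [AddCommGroup V]
  [Module K V] {σ : G →* Module.End K V} {c : G → G → V} {pr : E →* G}
  {j : Multiplicative V →* E} {s : G → E}

private theorem Uwg_pr (h : UwgX σ c pr j s) (a : V) (x : G) :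
    pr (j (Multiplicative.ofAdd a) * s x) = x := by
  rw [map_mul, h.sec, (h.ker _).2 ⟨_, rfl⟩, one_mul]

private theorem Uwg_free_ex (h : UwgX σ c pr j s) {ι : Type} (ρ : FreeGroup ι →* G) (v : ι → V) :
    ∃ f : FreeGroup ι → V, UwgT σ c ρ f ∧ ∀ i, f (FreeGroup.of i) = v i := by
  let Φ : FreeGroup ι →* E :=
    FreeGroup.lift fun i => j (Multiplicative.ofAdd (v i)) * s (ρ (FreeGroup.of i))
  have hΦ : ∀ g, pr (Φ g) = ρ g := by
    have h1 : pr.comp Φ = ρ := by
      apply FreeGroup.ext_hom
      intro i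
      show pr (Φ (FreeGroup.of i)) = _
      rw [FreeGroup.lift_apply_of, Uwg_pr h]
    exact fun g => DFunLike.congr_fun h1 g
  obtain ⟨f, hf, hT⟩ := Uwg_dec h ρ Φ hΦ
  refine ⟨f, hT, fun i => ?_⟩
  have h1 := hf (FreeGroup.of i)
  rw [FreeGroup.lift_apply_of] at h1
  exact (Uwg_inj h h1).symm

private theorem Uwg_free_uniq (h : UwgX σ c pr j s) {ι : Type} (ρ : FreeGroup ι →* G)
    (f f' : FreeGroup ι → V) (hf : UwgT σ c ρ f) (hf' : UwgT σ c ρ f')
    (hi : ∀ i, f (FreeGroup.of i) = f' (FreeGroup.of i)) : f = f' := by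
  have h1 : Uwg_hom h ρ f hf = Uwg_hom h ρ f' hf' := by
    apply FreeGroup.ext_hom
    intro i
    show j (Multiplicative.ofAdd (f (FreeGroup.of i))) * s (ρ (FreeGroup.of i)) =
      j (Multiplicative.ofAdd (f' (FreeGroup.of i))) * s (ρ (FreeGroup.of i))
    rw [hi]
  funext g
  exact Uwg_inj h (DFunLike.congr_fun h1 g)

end free

section GRα

variable {ι K V E : Type} {α : MulAut (FreeGroup ι)} [Group E] [CommRing K] [AddCommGroup V]
  [Module K V] {σ : GR α →* Module.End K V} {c : GR α → GR α → V} {pr : E →* GR α}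
  {j : Multiplicative V →* E} {s : GR α → E}

private theorem Uwg_GR_uniq (h : UwgX σ c pr j s) (f f' : GR α → V)
    (hf : UwgT σ c (MonoidHom.id _) f) (hf' : UwgT σ c (MonoidHom.id _) f')
    (hi : ∀ i, f (iR α (FreeGroup.of i)) = f' (iR α (FreeGroup.of i)))
    (ht : f (tR α) = f' (tR α)) : f = f' := by
  have h1 : Uwg_hom h (MonoidHom.id _) f hf = Uwg_hom h (MonoidHom.id _) f' hf' := by
    apply homR_ext
    · intro i
      show j (Multiplicative.ofAdd (f (iR α (FreeGroup.of i)))) * s (iR α (FreeGroup.of i)) =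
        j (Multiplicative.ofAdd (f' (iR α (FreeGroup.of i)))) * s (iR α (FreeGroup.of i))
      rw [hi]
    · show j (Multiplicative.ofAdd (f (tR α))) * s (tR α) =
        j (Multiplicative.ofAdd (f' (tR α))) * s (tR α)
      rw [ht]
  funext g
  exact Uwg_inj h (DFunLike.congr_fun h1 g)

private theorem Uwg_GR_ex (h : UwgX σ c pr j s) (f : FreeGroup ι → V) (τ : V)
    (hf : UwgT σ c (iR α) f)
    (hrel : ∀ i, τ + σ (tR α) (f (FreeGroup.of i)) + c (tR α) (iR α (FreeGroup.of i)) =
      f (α (FreeGroup.of i)) + σ (iR α (α (FreeGroup.of i))) τ +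
        c (iR α (α (FreeGroup.of i))) (tR α)) :
    ∃ F : GR α → V, UwgT σ c (MonoidHom.id _) F ∧
      (∀ i, F (iR α (FreeGroup.of i)) = f (FreeGroup.of i)) ∧ F (tR α) = τ := by
  let X : ι → E := fun i => j (Multiplicative.ofAdd (f (FreeGroup.of i))) * s (iR α (FreeGroup.of i))
  let T : E := j (Multiplicative.ofAdd τ) * s (tR α)
  have hlift : ∀ g, FreeGroup.lift X g = j (Multiplicative.ofAdd (f g)) * s (iR α g) := by
    have h1 : FreeGroup.lift X = Uwg_hom h (iR α) f hf := by
      apply FreeGroup.ext_hom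
      intro i
      rw [FreeGroup.lift_apply_of]
      rfl
    intro g
    rw [h1]
    rfl
  have hr : ∀ i, T * X i * T⁻¹ = FreeGroup.lift X (α (FreeGroup.of i)) := by
    intro i
    rw [mul_inv_eq_iff_eq_mul, hlift]
    show (j (Multiplicative.ofAdd τ) * s (tR α)) *
      (j (Multiplicative.ofAdd (f (FreeGroup.of i))) * s (iR α (FreeGroup.of i))) =
      (j (Multiplicative.ofAdd (f (α (FreeGroup.of i)))) * s (iR α (α (FreeGroup.of i)))) *
        (j (Multiplicative.ofAdd τ) * s (tR α))
    rw [Uwg_prod h, Uwg_prod h, hrel, tR_mul]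
  let Φ : GR α →* E := liR X T hr
  have hΦi : ∀ i, Φ (iR α (FreeGroup.of i)) = X i := fun i => liR_of hr i
  have hΦt : Φ (tR α) = T := liR_tR hr
  have hΦ : ∀ g, pr (Φ g) = MonoidHom.id _ g := by
    have h1 : pr.comp Φ = MonoidHom.id _ := by
      apply homR_ext
      · intro i
        show pr (Φ (iR α (FreeGroup.of i))) = _
        rw [hΦi]
        exact Uwg_pr h _ _
      · show pr (Φ (tR α)) = _
        rw [hΦt]
        exact Uwg_pr h _ _
    exact fun g => DFunLike.congr_fun h1 g
  obtain ⟨F, hF, hT⟩ := Uwg_dec h (MonoidHom.id _) Φ hΦ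
  refine ⟨F, hT, fun i => ?_, ?_⟩
  · have h1 := hF (iR α (FreeGroup.of i))
    rw [hΦi] at h1
    exact (Uwg_inj h h1).symm
  · have h1 := hF (tR α)
    rw [hΦt] at h1
    exact (Uwg_inj h h1).symm

end GRα

/-! ### the count -/

private theorem Uwg_main (hext : U_ext) (n : ℕ) (α : MulAut (FreeGroup (Fin n))) (K V : Type)
    [Field K] [AddCommGroup V] [Module K V] [FiniteDimensional K V]
    (σ : GR α →* Module.End K V) (I : Type) [Fintype I] (c : I → GR α → GR α → V)
    (hc : ∀ i x y z, σ x (c i y z) - c i (x * y) z + c i x (y * z) - c i x y = 0)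
    (hind : ∀ l : I → K, (∃ f : GR α → V, ∀ x y,
      ∑ i, l i • c i x y = σ x (f y) - f (x * y) + f x) → l = 0) :
    Module.finrank K V + Fintype.card I ≤ Module.finrank K (ZE σ) := by
  classical
  -- the extensions
  have hX : ∀ l : I → K, ∃ (E : Type) (_ : Group E) (pr : E →* GR α) (j : Multiplicative V →* E)
      (s : GR α → E), UwgX σ (fun x y => ∑ i, l i • c i x y) pr j s := by
    intro l
    obtain ⟨E, gE, pr, j, s, h1, h2, h3, h4, h5, -⟩ := hext (GR α) K V σ
      (fun x y => ∑ i, l i • c i x y) (by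
        intro x y z
        simp only [map_sum, map_smul]
        rw [← Finset.sum_sub_distrib, ← Finset.sum_add_distrib, ← Finset.sum_sub_distrib]
        apply Finset.sum_eq_zero
        intro i _
        rw [← smul_sub, ← smul_add, ← smul_sub, hc, smul_zero])
    exact ⟨E, gE, pr, j, s, ⟨h1, h2, h3, h4, h5⟩⟩
  have hX0 : ∃ (E : Type) (_ : Group E) (pr : E →* GR α) (j : Multiplicative V →* E)
      (s : GR α → E), UwgX σ (fun _ _ => (0 : V)) pr j s := by
    obtain ⟨E, gE, pr, j, s, h1, h2, h3, h4, h5, -⟩ := hext (GR α) K V σ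
      (fun _ _ => (0 : V)) (by intro x y z; simp)
    exact ⟨E, gE, pr, j, s, ⟨h1, h2, h3, h4, h5⟩⟩
  -- the space of the pairs (coefficients, twisted crossed homomorphism of the free group)
  let L : Submodule K ((I → K) × (FreeGroup (Fin n) → V)) :=
    { carrier := {p | UwgT σ (fun x y => ∑ i, p.1 i • c i x y) (iR α) p.2}
      add_mem' := by
        intro p q hp hq g h
        have h1 := hp g h
        have h2 := hq g h
        simp only at h1 h2
        simp only [Prod.snd_add, Prod.fst_add, Pi.add_apply, map_add, add_smul,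
          Finset.sum_add_distrib]
        rw [h1, h2]
        abel
      zero_mem' := by
        intro g h
        simp
      smul_mem' := by
        intro a p hp g h
        have h1 := hp g h
        simp only at h1
        simp only [Prod.smul_snd, Prod.smul_fst, Pi.smul_apply, map_smul, smul_eq_mul, mul_smul]
        rw [h1, smul_add, smul_add, Finset.smul_sum] }
  let R : L →ₗ[K] (I → K) × (Fin n → V) :=
    { toFun := fun p => (p.1.1, fun i => p.1.2 (FreeGroup.of i))
      map_add' := fun p q => rfl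
      map_smul' := fun a p => rfl }
  have hRinj : Function.Injective R := by
    rintro ⟨⟨l, f⟩, hp⟩ ⟨⟨l', f'⟩, hp'⟩ hpq
    have h1 : l = l' := congrArg Prod.fst hpq
    subst h1
    obtain ⟨E, gE, pr, j, s, hE⟩ := hX l
    have h2 : f = f' := Uwg_free_uniq hE (iR α) f f' hp hp'
      (fun i => congrFun (congrArg Prod.snd hpq) i)
    subst h2
    rfl
  have hRsurj : Function.Surjective R := by
    rintro ⟨l, v⟩
    obtain ⟨E, gE, pr, j, s, hE⟩ := hX l
    obtain ⟨f, hf, hfi⟩ := Uwg_free_ex hE (iR α) v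
    exact ⟨⟨(l, f), hf⟩, Prod.ext rfl (funext hfi)⟩
  let eR : L ≃ₗ[K] (I → K) × (Fin n → V) := LinearEquiv.ofBijective R ⟨hRinj, hRsurj⟩
  have : FiniteDimensional K L := LinearEquiv.finiteDimensional eR.symm
  have hdimL : Module.finrank K L = Fintype.card I + n * Module.finrank K V := by
    rw [eR.finrank_eq, Module.finrank_prod, Module.finrank_fintype_fun_eq_card,
      Module.finrank_pi_fintype]
    simp
  let Δ : (L × V) →ₗ[K] (Fin n → V) :=
    { toFun := fun p i => p.2 + σ (tR α) (p.1.1.2 (FreeGroup.of i)) +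
          ∑ k, p.1.1.1 k • c k (tR α) (iR α (FreeGroup.of i)) -
        (p.1.1.2 (α (FreeGroup.of i)) + σ (iR α (α (FreeGroup.of i))) p.2 +
          ∑ k, p.1.1.1 k • c k (iR α (α (FreeGroup.of i))) (tR α))
      map_add' := by
        intro p q
        funext i
        simp only [Prod.snd_add, Prod.fst_add, Submodule.coe_add, Pi.add_apply, map_add, add_smul,
          Finset.sum_add_distrib]
        abel
      map_smul' := by
        intro a p
        funext i
        simp only [Prod.smul_snd, Prod.smul_fst, Submodule.coe_smul, Pi.smul_apply, map_smul,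
          smul_eq_mul, mul_smul, RingHom.id_apply, smul_sub, smul_add, Finset.smul_sum] }
  have hdimΔ : Module.finrank K V + Fintype.card I ≤ Module.finrank K (LinearMap.ker Δ) := by
    have h1 := LinearMap.finrank_range_add_finrank_ker Δ
    have h2 : Module.finrank K (LinearMap.range Δ) ≤ n * Module.finrank K V := by
      refine (Submodule.finrank_le _).trans (le_of_eq ?_)
      rw [Module.finrank_pi_fintype]
      simp
    rw [Module.finrank_prod, hdimL] at h1
    omega
  -- the elements of the kernel extend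
  have hkerΔ : ∀ p ∈ LinearMap.ker Δ, p.1.1.1 = 0 ∧ ∃ F : GR α → V, F ∈ ZE σ ∧
      (∀ i, F (iR α (FreeGroup.of i)) = p.1.1.2 (FreeGroup.of i)) ∧ F (tR α) = p.2 := by
    rintro ⟨⟨⟨l, f⟩, hf⟩, τ⟩ hp
    obtain ⟨E, gE, pr, j, s, hE⟩ := hX l
    have hrel : ∀ i, τ + σ (tR α) (f (FreeGroup.of i)) +
        ∑ k, l k • c k (tR α) (iR α (FreeGroup.of i)) =
        f (α (FreeGroup.of i)) + σ (iR α (α (FreeGroup.of i))) τ +
        ∑ k, l k • c k (iR α (α (FreeGroup.of i))) (tR α) := by
      intro i
      have h1 := congrFun (LinearMap.mem_ker.1 hp) i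
      exact sub_eq_zero.1 h1
    obtain ⟨F, hF, hFi, hFt⟩ := Uwg_GR_ex hE f τ hf hrel
    have hl : l = 0 := by
      apply hind
      refine ⟨fun x => -F x, fun x y => ?_⟩
      have h1 : F (x * y) = F x + σ x (F y) + ∑ i, l i • c i x y := hF x y
      beta_reduce
      rw [h1, map_neg]
      abel
    refine ⟨hl, F, ?_, hFi, hFt⟩
    intro x y
    have h1 : F (x * y) = F x + σ x (F y) + ∑ i, l i • c i x y := hF x y
    rw [h1, hl]
    simp
  obtain ⟨E₀, gE₀, pr₀, j₀, s₀, hE₀⟩ := hX0
  let ev : ZE σ →ₗ[K] (Fin n → V) × V :=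
    { toFun := fun z => (fun i => z.1 (iR α (FreeGroup.of i)), z.1 (tR α))
      map_add' := fun z z' => rfl
      map_smul' := fun a z => rfl }
  have hev : Function.Injective ev := by
    intro z z' hzz
    apply Subtype.ext
    refine Uwg_GR_uniq hE₀ z.1 z'.1 ?_ ?_ (fun i => congrFun (congrArg Prod.fst hzz) i)
      (congrArg Prod.snd hzz)
    · intro x y
      rw [add_zero]
      exact z.2 x y
    · intro x y
      rw [add_zero]
      exact z'.2 x y
  let P : LinearMap.ker Δ →ₗ[K] (Fin n → V) × V :=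
    { toFun := fun p => (fun i => p.1.1.1.2 (FreeGroup.of i), p.1.2)
      map_add' := fun z z' => rfl
      map_smul' := fun a z => rfl }
  have hP : Function.Injective P := by
    intro p q hpq
    have h1 := (hkerΔ p.1 p.2).1
    have h2 := (hkerΔ q.1 q.2).1
    apply Subtype.ext
    have h3 : p.1.2 = q.1.2 := congrArg (fun y : (Fin n → V) × V => y.2) hpq
    refine Prod.ext ?_ h3
    apply hRinj
    exact Prod.ext (h1.trans h2.symm) (congrArg (fun y : (Fin n → V) × V => y.1) hpq)
  have hle : LinearMap.range P ≤ LinearMap.range ev := by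
    rintro _ ⟨p, rfl⟩
    obtain ⟨-, F, hF, hFi, hFt⟩ := hkerΔ p.1 p.2
    exact ⟨⟨F, hF⟩, Prod.ext (funext hFi) hFt⟩
  calc Module.finrank K V + Fintype.card I ≤ Module.finrank K (LinearMap.ker Δ) := hdimΔ
    _ = Module.finrank K (LinearMap.range P) := (LinearMap.finrank_range_of_inj hP).symm
    _ ≤ Module.finrank K (LinearMap.range ev) := Submodule.finrank_mono hle
    _ = Module.finrank K (ZE σ) := LinearMap.finrank_range_of_inj hev

theorem p_Uwg (hext : U_ext) : U_wg := by
  intro G _ n α e K V _ _ _ _ σ I _ c hc hind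
  have h1 := Uwg_main hext n α K V (σ.comp e.symm.toMonoidHom) I
    (fun i x y => c i (e.symm x) (e.symm y))
    (by
      intro i x y z
      have h2 := hc i (e.symm x) (e.symm y) (e.symm z)
      simp only [map_mul]
      exact h2)
    (by
      rintro l ⟨f, hf⟩
      apply hind l
      refine ⟨fun x => f (e x), fun x y => ?_⟩
      have h2 := hf (e x) (e y)
      simp only [MulEquiv.symm_apply_apply] at h2
      rw [h2]
      show σ (e.symm (e x)) (f (e y)) - f (e x * e y) + f (e x) =
        σ x (f (e y)) - f (e (x * y)) + f (e x)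
      rw [MulEquiv.symm_apply_apply, map_mul])
  let T : ZE σ ≃ₗ[K] ZE (σ.comp e.symm.toMonoidHom) :=
    { toFun := fun z => ⟨fun x => z.1 (e.symm x), by
        intro x y
        show z.1 (e.symm (x * y)) = z.1 (e.symm x) + σ (e.symm x) (z.1 (e.symm y))
        rw [map_mul]
        exact z.2 _ _⟩
      invFun := fun z => ⟨fun x => z.1 (e x), by
        intro x y
        show z.1 (e (x * y)) = z.1 (e x) + σ x (z.1 (e y))
        rw [map_mul]
        have h2 := z.2 (e x) (e y)
        have h3 : (σ.comp e.symm.toMonoidHom) (e x) = σ x := by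
          show σ (e.symm (e x)) = σ x
          rw [MulEquiv.symm_apply_apply]
        rw [h3] at h2
        exact h2⟩
      left_inv := by
        intro z
        apply Subtype.ext
        funext x
        show z.1 (e.symm (e x)) = z.1 x
        rw [MulEquiv.symm_apply_apply]
      right_inv := by
        intro z
        apply Subtype.ext
        funext x
        show z.1 (e (e.symm x)) = z.1 x
        rw [MulEquiv.apply_symm_apply]
      map_add' := fun z z' => rfl
      map_smul' := fun a z => rfl }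
  rw [T.finrank_eq]
  exact h1

end

end Pool.Agent.F8.CG
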