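import Pool.Agent.Lib.MP_305fdd_al.F8.CG.StmV

/-!
# MP_305fdd_al, congruence subgroups, block V: piece Vaff (the extension is affine)
-/

set_option autoImplicit false

namespace Pool.Agent.F8.CG

open Pool.Agent.F8.BG Pool.Agent.MP_305fdd_al Pool.Agent.Lib.MP_305fdd_al Pool.Agent.F8
open MeasureTheory
open scoped QuadraticAlgebra ENNReal ComplexConjugate

noncomputable section

private theorem Vaff_cont {a b : ℤ} {Ω : Type} {A : Ω → ℂ → ℂ} {o : Ω}
    (hA : ContinuousOn (tA a b A o) (kC a b)ᶜ) {u : MM → ℂ × ℂ} (hu : Continuous u)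
    {G : Set MM} (hG : ∀ X ∈ G, Ir a b (u X)) {X : MM} (hX : X ∈ G) :
    ContinuousWithinAt (fun X => Fu a b A o (u X)) G X := by
  have h1 : ContinuousWithinAt (fun X => (u X).2) G X :=
    (continuous_snd.comp hu).continuousAt.continuousWithinAt
  have h2 : ContinuousWithinAt (fun X => (u X).1 / (u X).2) G X := by
    refine ContinuousAt.continuousWithinAt ?_
    exact ContinuousAt.div (continuous_fst.comp hu).continuousAt
      (continuous_snd.comp hu).continuousAt (hG X hX).1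
  have h3 : ContinuousWithinAt (tA a b A o) (kC a b)ᶜ ((u X).1 / (u X).2) :=
    hA _ (hG X hX).2
  have h4 : ContinuousWithinAt (fun X => tA a b A o ((u X).1 / (u X).2)) G X :=
    ContinuousWithinAt.comp (g := tA a b A o) (f := fun X => (u X).1 / (u X).2)
      (t := (kC a b)ᶜ) h3 h2 (fun Y hY => (hG Y hY).2)
  exact h1.mul h4

private theorem Vaff_dX : Continuous dX := by
  unfold dX
  fun_prop

private theorem Vaff_open : IsOpen {X : MM | 0 < ‖dX X‖ ∧ ‖dX X‖ < 1} := by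
  have h : Continuous fun X : MM => ‖dX X‖ := Vaff_dX.norm
  exact (isOpen_lt continuous_const h).inter (isOpen_lt h continuous_const)

private theorem Vaff_pt {a b : ℤ}
    (hn : ∀ᵐ X ∂mu0, Ir a b (col1 X) ∧ Ir a b (col2 X) ∧ Ir a b ((1 : ℂ) • col1 X + col2 X))
    {Ω : Type} {A : Ω → ℂ → ℂ} {o : Ω} (hA : ContinuousOn (tA a b A o) (kC a b)ᶜ)
    (h0 : ∀ᵐ X ∂mu0, Au a b A o 1 X = 0) {X : MM}
    (hX : 0 < ‖dX X‖ ∧ ‖dX X‖ < 1)
    (hX2 : Ir a b (col1 X) ∧ Ir a b (col2 X) ∧ Ir a b ((1 : ℂ) • col1 X + col2 X)) :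
    Au a b A o 1 X = 0 := by
  by_contra hne
  let G : Set MM :=
    {X | Ir a b (col1 X) ∧ Ir a b (col2 X) ∧ Ir a b ((1 : ℂ) • col1 X + col2 X)}
  have c1 : Continuous (fun X : MM => col1 X) := by
    unfold col1
    fun_prop
  have c2 : Continuous (fun X : MM => col2 X) := by
    unfold col2
    fun_prop
  have hc : ContinuousWithinAt (Au a b A o 1) G X := by
    have h1 := Vaff_cont hA (u := fun X => (1 : ℂ) • col1 X + col2 X)
      ((c1.const_smul (1 : ℂ)).add c2) (G := G) (fun Y hY => hY.2.2) (X := X) hX2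
    have h2 := Vaff_cont hA (u := fun X => col1 X) c1 (G := G) (fun Y hY => hY.1) (X := X) hX2
    have h3 := Vaff_cont hA (u := fun X => col2 X) c2 (G := G) (fun Y hY => hY.2.1) (X := X) hX2
    exact (h1.sub (continuousWithinAt_const.mul h2)).sub h3
  have h1 : {Y | Au a b A o 1 Y ≠ 0} ∈ nhdsWithin X G := hc (isOpen_ne.mem_nhds hne)
  obtain ⟨U, hU, hXU, hUG⟩ := mem_nhdsWithin.1 h1
  have h2 : ∀ᵐ Y ∂mu0, Y ∉ U := by
    filter_upwards [hn, h0] with Y hY1 hY2 hYU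
    exact hUG ⟨hYU, hY1⟩ hY2
  have h3 : mu0 U = 0 := by
    have h4 := ae_iff.1 h2
    simpa using h4
  unfold mu0 at h3
  rw [Measure.restrict_apply hU.measurableSet] at h3
  have h5 : 0 < volume (U ∩ {X : MM | 0 < ‖dX X‖ ∧ ‖dX X‖ < 1}) :=
    (hU.inter Vaff_open).measure_pos volume ⟨X, hXU, hX⟩
  exact h5.ne' h3

private theorem Vaff_Ir {a b : ℤ} {e : ℂ × ℂ} (h : Ir a b e) {t : ℂ} (ht : t ≠ 0) :
    Ir a b (t • e) := by
  refine ⟨?_, ?_⟩
  · show t * e.2 ≠ 0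
    exact mul_ne_zero ht h.1
  · show t * e.1 / (t * e.2) ∉ kC a b
    rw [mul_div_mul_left _ _ ht]
    exact h.2

private theorem Vaff_add {a b : ℤ}
    (hn : ∀ᵐ X ∂mu0, Ir a b (col1 X) ∧ Ir a b (col2 X) ∧ Ir a b ((1 : ℂ) • col1 X + col2 X))
    {Ω : Type} {A : Ω → ℂ → ℂ} {o : Ω} (hA : ContinuousOn (tA a b A o) (kC a b)ᶜ)
    (h0 : ∀ᵐ X ∂mu0, Au a b A o 1 X = 0) {e e' : ℂ × ℂ} (he : Ir a b e) (he' : Ir a b e')
    (hee : Ir a b (e + e')) (hd : e.1 * e'.2 - e'.1 * e.2 ≠ 0) :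
    Fu a b A o (e + e') = Fu a b A o e + Fu a b A o e' := by
  set d : ℂ := e.1 * e'.2 - e'.1 * e.2 with hdef
  have hdpos : 0 < ‖d‖ := norm_pos_iff.2 hd
  -- a small number
  obtain ⟨t, ht0, ht1⟩ : ∃ t : ℝ, 0 < t ∧ t ^ 2 * ‖d‖ < 1 := by
    refine ⟨1 / (1 + ‖d‖), by positivity, ?_⟩
    have h1 : 0 < 1 + ‖d‖ := by positivity
    rw [div_pow, one_pow, div_mul_eq_mul_div, one_mul, div_lt_one (by positivity)]
    nlinarith
  have htc : (t : ℂ) ≠ 0 := by exact_mod_cast ht0.ne'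
  let X : MM := (((t : ℂ) * e.1, (t : ℂ) * e'.1), ((t : ℂ) * e.2, (t : ℂ) * e'.2))
  have hc1 : col1 X = (t : ℂ) • e := rfl
  have hc2 : col2 X = (t : ℂ) • e' := rfl
  have hsum : (1 : ℂ) • ((t : ℂ) • e) + (t : ℂ) • e' = (t : ℂ) • (e + e') := by
    rw [one_smul, smul_add]
  have hdX : dX X = (t : ℂ) ^ 2 * d := by
    show (t : ℂ) * e.1 * ((t : ℂ) * e'.2) - (t : ℂ) * e'.1 * ((t : ℂ) * e.2) = _
    rw [hdef]
    ring
  have hnorm : ‖dX X‖ = t ^ 2 * ‖d‖ := by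
    rw [hdX, norm_mul, norm_pow, Complex.norm_real, Real.norm_eq_abs, sq_abs]
  have h1 : Au a b A o 1 X = 0 := by
    refine Vaff_pt hn hA h0 ?_ ?_
    · rw [hnorm]
      exact ⟨by positivity, ht1⟩
    · rw [hc1, hc2, hsum]
      exact ⟨Vaff_Ir he htc, Vaff_Ir he' htc, Vaff_Ir hee htc⟩
  unfold Au at h1
  rw [hc1, hc2, hsum, Fu_smul, Fu_smul, Fu_smul, one_mul] at h1
  have h2 : (t : ℂ) * (Fu a b A o (e + e') - Fu a b A o e - Fu a b A o e') = 0 := by
    rw [← h1]; ring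
  have h3 := (mul_eq_zero.1 h2).resolve_left htc
  linear_combination h3

theorem p_Vaff : V_aff := by
  intro a b _ hn Ω A o hA h0
  -- two irrational numbers
  obtain ⟨x, y, hx, hy, hxy⟩ : ∃ x y : ℂ, x ∉ kC a b ∧ y ∉ kC a b ∧ x ≠ y := by
    have h1 : ∀ᵐ X ∂mu0, 0 < ‖dX X‖ ∧ ‖dX X‖ < 1 := by
      unfold mu0
      exact ae_restrict_mem Vaff_open.measurableSet
    have h2 : mu0 ≠ 0 := by
      intro h2
      have h3 : mu0 Set.univ = 0 := by rw [h2]; rfl
      unfold mu0 at h3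
      rw [Measure.restrict_apply_univ] at h3
      have h4 : 0 < volume {X : MM | 0 < ‖dX X‖ ∧ ‖dX X‖ < 1} := by
        refine Vaff_open.measure_pos volume ⟨((1, 0), (0, 1 / 2)), ?_⟩
        have h5 : dX ((1, 0), (0, 1 / 2)) = 1 / 2 := by
          unfold dX
          simp
        show 0 < ‖dX ((1, 0), (0, 1 / 2))‖ ∧ ‖dX ((1, 0), (0, 1 / 2))‖ < 1
        rw [h5]
        norm_num
      exact h4.ne' h3
    have : (ae mu0).NeBot := ae_neBot.2 h2
    obtain ⟨X, ⟨hX1, hX2, -⟩, hX3, -⟩ := (hn.and h1).exists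
    refine ⟨(col1 X).1 / (col1 X).2, (col2 X).1 / (col2 X).2, hX1.2, hX2.2, fun h => ?_⟩
    have h3 : dX X = 0 := by
      have h4 := (div_eq_div_iff hX1.1 hX2.1).1 h
      unfold dX
      have h5 : X.1.1 * X.2.2 = X.1.2 * X.2.1 := h4
      rw [h5, sub_self]
    rw [h3, norm_zero] at hX3
    exact lt_irrefl _ hX3
  have hxy' : x - y ≠ 0 := sub_ne_zero.2 hxy
  refine ⟨(tA a b A o x - tA a b A o y) / (x - y),
    (x * tA a b A o y - y * tA a b A o x) / (x - y), fun z hz => ?_⟩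
  by_cases hzx : z = x
  · rw [hzx]
    field_simp
    ring
  by_cases hzy : z = y
  · rw [hzy]
    field_simp
    ring
  have hp : (z - y) / (x - y) ≠ 0 := div_ne_zero (sub_ne_zero.2 hzy) hxy'
  have hq : (x - z) / (x - y) ≠ 0 := div_ne_zero (sub_ne_zero.2 (Ne.symm hzx)) hxy'
  set p : ℂ := (z - y) / (x - y) with hpdef
  set q : ℂ := (x - z) / (x - y) with hqdef
  have hpq : p + q = 1 := by
    rw [hpdef, hqdef]
    field_simp
    ring
  have hpz : p * x + q * y = z := by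
    rw [hpdef, hqdef]
    field_simp
    ring
  have hsum : ((p * x, p) : ℂ × ℂ) + (q * y, q) = (z, 1) := by
    rw [Prod.mk_add_mk, hpq, hpz]
  have he : Ir a b (p * x, p) := by
    refine ⟨hp, ?_⟩
    show p * x / p ∉ kC a b
    rw [mul_div_cancel_left₀ _ hp]
    exact hx
  have he' : Ir a b (q * y, q) := by
    refine ⟨hq, ?_⟩
    show q * y / q ∉ kC a b
    rw [mul_div_cancel_left₀ _ hq]
    exact hy
  have hee : Ir a b (((p * x, p) : ℂ × ℂ) + (q * y, q)) := by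
    rw [hsum]
    refine ⟨one_ne_zero, ?_⟩
    show z / 1 ∉ kC a b
    rw [div_one]
    exact hz
  have hd : ((p * x, p) : ℂ × ℂ).1 * ((q * y, q) : ℂ × ℂ).2 -
      ((q * y, q) : ℂ × ℂ).1 * ((p * x, p) : ℂ × ℂ).2 ≠ 0 := by
    show p * x * q - q * y * p ≠ 0
    have h1 : p * x * q - q * y * p = p * q * (x - y) := by ring
    rw [h1]
    exact mul_ne_zero (mul_ne_zero hp hq) hxy'
  have key := Vaff_add hn hA h0 he he' hee hd
  rw [hsum] at key
  have k1 : Fu a b A o (z, 1) = tA a b A o z := by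
    show (1 : ℂ) * tA a b A o (z / 1) = _
    rw [div_one, one_mul]
  have k2 : Fu a b A o (p * x, p) = p * tA a b A o x := by
    show p * tA a b A o (p * x / p) = _
    rw [mul_div_cancel_left₀ _ hp]
  have k3 : Fu a b A o (q * y, q) = q * tA a b A o y := by
    show q * tA a b A o (q * y / q) = _
    rw [mul_div_cancel_left₀ _ hq]
  rw [k1, k2, k3] at key
  rw [key, hpdef, hqdef]
  field_simp
  ring

end

end Pool.Agent.F8.CG
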