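import Pool.Agent.Lib.MP_305fdd_al.F8.CG.StmV

/-!
# MP_305fdd_al, congruence subgroups: [CG V eqv] equivariance of the homogeneous functions
-/

set_option autoImplicit false

namespace Pool.Agent.F8.CG

open Pool.Agent.F8.BG Pool.Agent.MP_305fdd_al Pool.Agent.Lib.MP_305fdd_al Pool.Agent.F8
open scoped QuadraticAlgebra

private theorem Veqv_zero {a b : ℤ} : (0 : ℂ) ∈ kC a b :=
  ⟨0, 1, one_ne_zero, by simp⟩

private theorem Veqv_add {a b : ℤ} {x : ℂ} (hx : x ∉ kC a b) (β : Qf a b ℤ) :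
    x + iC a b β ∉ kC a b := by
  rintro ⟨p, q, hq, h⟩
  refine hx ⟨p - β * q, q, hq, ?_⟩
  rw [map_sub, map_mul, ← h]
  ring

private theorem Veqv_inv {a b : ℤ} {x : ℂ} (hx : x ∉ kC a b) : -1 / x ∉ kC a b := by
  have hx0 : x ≠ 0 := fun h => hx (h ▸ Veqv_zero)
  rintro ⟨p, q, hq, h⟩
  by_cases hp : p = 0
  · rw [hp, map_zero] at h
    have h1 : iC a b q = 0 := by
      rcases mul_eq_zero.1 h with h1 | h1
      · exfalso
        rw [div_eq_zero_iff] at h1
        rcases h1 with h1 | h1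
        · norm_num at h1
        · exact hx0 h1
      · exact h1
    exact hx ⟨0, q, hq, by rw [h1, map_zero, mul_zero]⟩
  · refine hx ⟨-q, p, hp, ?_⟩
    rw [← h, map_neg]
    field_simp

private theorem Veqv_va_U {a b : ℤ} (β : Qf a b ℤ) (e : ℂ × ℂ) :
    va (eU β : GQ a b) e = (e.1 + iC a b β * e.2, e.2) := by
  have h00 : (eU β : GQ a b).val 0 0 = 1 := rfl
  have h01 : (eU β : GQ a b).val 0 1 = β := rfl
  have h10 : (eU β : GQ a b).val 1 0 = 0 := rfl
  have h11 : (eU β : GQ a b).val 1 1 = 1 := rfl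
  unfold va
  rw [h00, h01, h10, h11]
  simp

private theorem Veqv_va_S {a b : ℤ} (e : ℂ × ℂ) : va (mS : GQ a b) e = (-e.2, e.1) := by
  have h00 : (mS : GQ a b).val 0 0 = 0 := rfl
  have h01 : (mS : GQ a b).val 0 1 = -1 := rfl
  have h10 : (mS : GQ a b).val 1 0 = 1 := rfl
  have h11 : (mS : GQ a b).val 1 1 = 0 := rfl
  unfold va
  rw [h00, h01, h10, h11]
  simp

private theorem Veqv_U_inv {a b : ℤ} (β : Qf a b ℤ) : (eU β : GQ a b)⁻¹ = eU (-β) := by
  unfold eU
  rw [AB.mx_inv]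
  apply AB.mx_congr <;> ring

private theorem Veqv_S_inv {a b : ℤ} : (mS : GQ a b)⁻¹ = mS * mS * mS := by
  unfold mS
  rw [AB.mx_inv, AB.mx_mul, AB.mx_mul]
  apply AB.mx_congr <;> ring

/-- the claim for one matrix -/
private def Veqv_P (a b : ℤ) {Ω : Type} [MulAction (GQ a b) Ω] (A : Ω → ℂ → ℂ) (g : GQ a b) : Prop :=
  ∀ o : Ω, ∃ c d : ℂ, ∀ e : ℂ × ℂ, Ir a b e → Ir a b (va g e) ∧
    Fu a b A o (va g e) = Fu a b A (g⁻¹ • o) e + c * e.1 + d * e.2

private theorem Veqv_mul {a b : ℤ} {Ω : Type} [MulAction (GQ a b) Ω] {A : Ω → ℂ → ℂ}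
    {g h : GQ a b} (hg : Veqv_P a b A g) (hh : Veqv_P a b A h) : Veqv_P a b A (g * h) := by
  intro o
  obtain ⟨c, d, h1⟩ := hg o
  obtain ⟨c', d', h2⟩ := hh (g⁻¹ • o)
  refine ⟨c' + c * iC a b (h.val 0 0) + d * iC a b (h.val 1 0),
    d' + c * iC a b (h.val 0 1) + d * iC a b (h.val 1 1), fun e he => ?_⟩
  have h3 := h2 e he
  have h4 := h1 _ h3.1
  rw [va_mul]
  refine ⟨h4.1, ?_⟩
  rw [h4.2, h3.2, mul_inv_rev, mul_smul]
  unfold va
  ring

private theorem Veqv_one {a b : ℤ} {Ω : Type} [MulAction (GQ a b) Ω] {A : Ω → ℂ → ℂ} :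
    Veqv_P a b A (1 : GQ a b) := by
  intro o
  refine ⟨0, 0, fun e he => ?_⟩
  rw [va_one, inv_one, one_smul]
  exact ⟨he, by ring⟩

theorem p_Veqv (hgen : V_gen) (hext : V_ext) : V_eqv := by
  intro a b h hEu Ω _ _ A hA g
  obtain ⟨-, -, -, hadd, hinv⟩ := hext a b h hEu Ω A hA
  have hU : ∀ β : Qf a b ℤ, Veqv_P a b A (eU β : GQ a b) := by
    intro β o
    refine ⟨0, A o (iC a b β), fun e he => ?_⟩
    have hq : (e.1 + iC a b β * e.2) / e.2 = e.1 / e.2 + iC a b β := by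
      rw [add_div, mul_div_cancel_right₀ _ he.1]
    rw [Veqv_va_U]
    refine ⟨⟨he.1, ?_⟩, ?_⟩
    · show (e.1 + iC a b β * e.2) / e.2 ∉ kC a b
      rw [hq]
      exact Veqv_add he.2 β
    · show e.2 * tA a b A o ((e.1 + iC a b β * e.2) / e.2) = _
      rw [hq, hadd o β _ he.2]
      unfold Fu
      ring
  have hS : Veqv_P a b A (mS : GQ a b) := by
    intro o
    refine ⟨0, 0, fun e he => ?_⟩
    have h1 : e.1 ≠ 0 := by
      intro h1
      apply he.2
      rw [h1, zero_div]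
      exact Veqv_zero
    have h2 := he.1
    have hq : -e.2 / e.1 = -1 / (e.1 / e.2) := by
      field_simp
    rw [Veqv_va_S]
    refine ⟨⟨h1, ?_⟩, ?_⟩
    · show -e.2 / e.1 ∉ kC a b
      rw [hq]
      exact Veqv_inv he.2
    · show e.1 * tA a b A o (-e.2 / e.1) = _
      rw [hq]
      unfold Fu
      rw [hinv o _ he.2]
      field_simp
      ring
  have hg : g ∈ Subgroup.closure (Set.range (fun β : Qf a b ℤ => (eU β : GQ a b)) ∪ {mS}) := by
    rw [hgen a b h hEu]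
    exact Subgroup.mem_top g
  have key : Veqv_P a b A g := by
    induction hg using Subgroup.closure_induction'' with
    | one => exact Veqv_one
    | mem x hx =>
      rcases hx with ⟨β, rfl⟩ | hx
      · exact hU β
      · rw [Set.mem_singleton_iff.1 hx]
        exact hS
    | inv_mem x hx =>
      rcases hx with ⟨β, rfl⟩ | hx
      · show Veqv_P a b A (eU β : GQ a b)⁻¹
        rw [Veqv_U_inv]
        exact hU (-β)
      · rw [Set.mem_singleton_iff.1 hx, Veqv_S_inv]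
        exact Veqv_mul (Veqv_mul hS hS) hS
    | mul x y _ _ hx hy => exact Veqv_mul hx hy
  exact key

end Pool.Agent.F8.CG
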