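import Pool.Agent.Lib.MP_305fdd_al.F8.CG.StmV

/-!
# MP_305fdd_al, congruence subgroups: the five rings are euclidean (`V_eu`)
-/

set_option autoImplicit false

namespace Pool.Agent.F8.CG

open Pool.Agent.F8.BG Pool.Agent.MP_305fdd_al Pool.Agent.Lib.MP_305fdd_al Pool.Agent.F8
open scoped QuadraticAlgebra

private theorem Veu_main (a b : ℤ) (D : ℝ) (hD : D = -((b ^ 2 + 4 * a : ℤ) : ℝ)) (h0 : 0 < D)
    (h11 : D ≤ 11) : Eu a b := by
  intro x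
  have hneg : b ^ 2 + 4 * a < 0 := by
    have : ((b ^ 2 + 4 * a : ℤ) : ℝ) < 0 := by rw [hD] at h0; linarith
    exact_mod_cast this
  set s : ℝ := Real.sqrt D with hs
  have hs0 : 0 < s := Real.sqrt_pos.2 h0
  have hs2 : s ^ 2 = D := Real.sq_sqrt h0.le
  have hw : wC a b = ((b : ℝ) / 2 : ℝ) + ((s / 2 : ℝ) : ℂ) * Complex.I := by
    rw [wC_eq hneg, hs, hD]
  set n : ℤ := round (2 * x.im / s) with hn
  set m : ℤ := round (x.re - (n : ℝ) * b / 2) with hm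
  refine ⟨⟨m, n⟩, ?_⟩
  have hr : (x - iC a b ⟨m, n⟩).re = (x.re - (n : ℝ) * b / 2) - m := by
    rw [iC_apply, hw]
    simp
    ring
  have hi : (x - iC a b ⟨m, n⟩).im = s / 2 * (2 * x.im / s - n) := by
    rw [iC_apply, hw]
    simp
    field_simp
  have h1 : |(x.re - (n : ℝ) * b / 2) - m| ≤ 1 / 2 := abs_sub_round _
  have h2 : |2 * x.im / s - n| ≤ 1 / 2 := abs_sub_round _
  have h3 : ‖x - iC a b ⟨m, n⟩‖ ^ 2 ≤ (31 / 32) ^ 2 := by
    rw [Complex.sq_norm, Complex.normSq_apply, hr, hi]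
    have e1 : ((x.re - (n : ℝ) * b / 2) - m) ^ 2 ≤ (1 / 2) ^ 2 := sq_le_sq' (by linarith [(abs_le.1 h1).1]) (abs_le.1 h1).2
    have e2 : (2 * x.im / s - n) ^ 2 ≤ (1 / 2) ^ 2 := sq_le_sq' (by linarith [(abs_le.1 h2).1]) (abs_le.1 h2).2
    have e3 : s / 2 * (2 * x.im / s - n) * (s / 2 * (2 * x.im / s - n)) =
        D / 4 * (2 * x.im / s - n) ^ 2 := by rw [← hs2]; ring
    rw [e3]
    have e4 : D / 4 * (2 * x.im / s - n) ^ 2 ≤ 11 / 4 * (1 / 2) ^ 2 := by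
      apply mul_le_mul _ e2 (sq_nonneg _) (by norm_num)
      linarith
    nlinarith
  exact le_of_sq_le_sq h3 (by norm_num)

theorem p_Veu : V_eu := by
  intro a b h
  unfold Five at h
  rcases h with ⟨rfl, rfl⟩ | ⟨rfl, rfl⟩ | ⟨rfl, rfl⟩ | ⟨rfl, rfl⟩ | ⟨rfl, rfl⟩ <;>
  · refine Veu_main _ _ _ rfl ?_ ?_ <;> norm_num

end Pool.Agent.F8.CG
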