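import Pool.Agent.Lib.MP_305fdd_al.F8.CG.StmV

/-!
# MP_305fdd_al, congruence subgroups: piece Vext (properties of the extension)
-/

set_option autoImplicit false

namespace Pool.Agent.F8.CG

open Pool.Agent.F8.BG Pool.Agent.MP_305fdd_al Pool.Agent.Lib.MP_305fdd_al Pool.Agent.F8
open MeasureTheory Filter
open scoped QuadraticAlgebra ENNReal ComplexConjugate Topology

noncomputable section

private theorem Vext_inj {a b : ℤ} (h : b ^ 2 + 4 * a < 0) {z : Qf a b ℤ} (hz : iC a b z = 0) :
    z = 0 := by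
  rw [iC_apply] at hz
  have him := congrArg Complex.im hz
  have hre := congrArg Complex.re hz
  have hw := wC_im h
  simp only [Complex.add_im, Complex.intCast_im, Complex.mul_im, Complex.intCast_re, zero_mul,
    Complex.zero_im, zero_add, add_zero] at him
  have h1 : z.im = 0 := by
    rcases mul_eq_zero.mp him with h2 | h2
    · exact_mod_cast h2
    · exact absurd h2 hw.ne'
  simp only [Complex.add_re, Complex.intCast_re, Complex.mul_re, Complex.intCast_im, zero_mul,
    Complex.zero_re, sub_zero, h1, Int.cast_zero, add_zero] at hre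
  have h2 : z.re = 0 := by exact_mod_cast hre
  ext
  · rw [h2]; rfl
  · rw [h1]; rfl

private theorem Vext_mem {a b : ℤ} (β : Qf a b ℤ) : iC a b β ∈ kC a b :=
  ⟨β, 1, one_ne_zero, by rw [map_one, mul_one]⟩

private theorem Vext_add {a b : ℤ} {x : ℂ} (β : Qf a b ℤ) (hx : x ∈ kC a b) :
    x + iC a b β ∈ kC a b := by
  obtain ⟨p, q, hq, h⟩ := hx
  exact ⟨p + β * q, q, hq, by rw [add_mul, h, map_add, map_mul]⟩

private theorem Vext_sub {a b : ℤ} {x : ℂ} (β : Qf a b ℤ) (hx : x ∈ kC a b) :
    x - iC a b β ∈ kC a b := by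
  have h := Vext_add (-β) hx
  rwa [map_neg, ← sub_eq_add_neg] at h

private theorem Vext_sub' {a b : ℤ} {x : ℂ} (β : Qf a b ℤ) (hx : x ∉ kC a b) :
    x - iC a b β ∉ kC a b := fun h => hx (by
  have h' := Vext_add β h
  rwa [sub_add_cancel] at h')

private theorem Vext_inv {a b : ℤ} (h : b ^ 2 + 4 * a < 0) {x : ℂ} (hx : x ∈ kC a b) :
    -1 / x ∈ kC a b := by
  by_cases hx0 : x = 0
  · rw [hx0, div_zero]
    have h1 := Vext_mem (a := a) (b := b) 0
    rwa [map_zero] at h1
  · obtain ⟨p, q, hq, hpq⟩ := hx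
    have hq' : iC a b q ≠ 0 := fun hc => hq (Vext_inj h hc)
    have hp : p ≠ 0 := by
      intro hc
      rw [hc, map_zero] at hpq
      exact (mul_ne_zero hx0 hq') hpq
    refine ⟨-q, p, hp, ?_⟩
    rw [map_neg, ← hpq]
    field_simp

private theorem Vext_inv' {a b : ℤ} (h : b ^ 2 + 4 * a < 0) {x : ℂ} (hx : x ∉ kC a b) :
    -1 / x ∉ kC a b := fun hc => hx (by
  have h' := Vext_inv h hc
  have hx0 : x ≠ 0 := by
    rintro rfl
    apply hx
    have h1 := Vext_mem (a := a) (b := b) 0
    rwa [map_zero] at h1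
  have e : -1 / (-1 / x) = x := by field_simp
  rwa [e] at h')

private theorem Vext_dense {a b : ℤ} (hE : Eu a b) (x : ℂ) : x ∈ closure (kC a b) := by
  rw [Metric.mem_closure_iff]
  intro ε hε
  obtain ⟨n, hn⟩ := exists_nat_gt (1 / ε)
  have hn0 : (0 : ℝ) < n := lt_trans (by positivity) hn
  have hnC : (n : ℂ) ≠ 0 := by
    have : (n : ℝ) ≠ 0 := hn0.ne'
    exact_mod_cast this
  obtain ⟨β, hβ⟩ := hE ((n : ℂ) * x)
  have hnQ : ((n : ℕ) : Qf a b ℤ) ≠ 0 := by
    intro hc
    have h1 := congrArg (iC a b) hc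
    rw [map_natCast, map_zero] at h1
    exact hnC h1
  refine ⟨iC a b β / n, ⟨β, n, hnQ, ?_⟩, ?_⟩
  · rw [map_natCast]
    field_simp
  · rw [dist_eq_norm]
    have e : x - iC a b β / n = ((n : ℂ) * x - iC a b β) / n := by field_simp
    rw [e, norm_div, Complex.norm_natCast, div_lt_iff₀ hn0]
    have h1 : 1 < ε * n := by
      rw [div_lt_iff₀ hε] at hn
      linarith
    linarith

private theorem Vext_nb {a b : ℤ} (hE : Eu a b) (x : ℂ) : (𝓝[kC a b] x).NeBot :=
  mem_closure_iff_nhdsWithin_neBot.mp (Vext_dense hE x)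

private theorem Vext_countable (a b : ℤ) (h : b ^ 2 + 4 * a < 0) : (kC a b).Countable := by
  have hinj : ∀ q : Qf a b ℤ, q ≠ 0 → iC a b q ≠ 0 := by
    intro q hq h0
    rw [iC_apply] at h0
    have him := congrArg Complex.im h0
    have hre := congrArg Complex.re h0
    have hw := (wC_im h).ne'
    simp only [Complex.add_im, Complex.intCast_im, Complex.mul_im, Complex.intCast_re, zero_mul,
      Complex.zero_im, zero_add, add_zero] at him
    rcases mul_eq_zero.1 him with h1 | h1
    · have h2 : q.im = 0 := by exact_mod_cast h1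
      rw [h2] at hre
      simp at hre
      apply hq
      ext
      · exact_mod_cast hre
      · exact h2
    · exact absurd h1 hw
  have hc : Countable (Qf a b ℤ) := by
    have : Function.Injective (fun q : Qf a b ℤ => (q.re, q.im)) := by
      intro p q hpq
      simp only [Prod.mk.injEq] at hpq
      ext
      · exact hpq.1
      · exact hpq.2
    exact this.countable
  refine (Set.countable_range (fun z : Qf a b ℤ × Qf a b ℤ => iC a b z.1 / iC a b z.2)).mono ?_
  rintro x ⟨p, q, hq, hx⟩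
  refine ⟨(p, q), ?_⟩
  show iC a b p / iC a b q = x
  rw [← hx, mul_div_assoc, div_self (hinj q hq), mul_one]

private theorem Vext_addn {a b : ℤ} {x : ℂ} (β : Qf a b ℤ) (hx : x ∉ kC a b) :
    x + iC a b β ∉ kC a b := fun h => hx (by
  have h1 := Vext_sub β h
  rwa [add_sub_cancel_right] at h1)

private theorem Vext_on {a b : ℤ} {Ω : Type} {A : Ω → ℂ → ℂ} {o : Ω} {x : ℂ} (hx : x ∈ kC a b) :
    tA a b A o x = 0 := by
  unfold tA
  rw [if_pos hx]

theorem p_Vext (hgr : V_gr) (hlim : V_lim) : V_ext := by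
  intro a b hD hE Ω _ _ A hP
  have hL : ∀ o, ∀ x ∉ kC a b, Tendsto (A o) (𝓝[kC a b] x) (𝓝 (tA a b A o x)) :=
    hlim a b hD hE Ω A hP
  have hk : ∀ x : ℂ, ∀ᶠ r in 𝓝[kC a b] x, r ∈ kC a b := fun x => eventually_mem_nhdsWithin
  have hcont : ∀ o, ContinuousOn (tA a b A o) (kC a b)ᶜ := by
    intro o
    have h1 : ContinuousOn (extendFrom (kC a b) (A o)) (kC a b)ᶜ :=
      continuousOn_extendFrom (fun x _ => Vext_dense hE x) (fun x hx => ⟨_, hL o x hx⟩)
    refine h1.congr ?_
    intro x hx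
    exact (extendFrom_eq (Vext_dense hE x) (hL o x hx)).symm
  refine ⟨hcont, ?_, ?_, ?_, ?_⟩
  · intro o
    classical
    have h1 : Measurable (((kC a b)ᶜ : Set ℂ).piecewise (tA a b A o) (fun _ => (0 : ℂ))) :=
      (hcont o).measurable_piecewise continuousOn_const (Vext_countable a b hD).measurableSet.compl
    have h2 : ((kC a b)ᶜ : Set ℂ).piecewise (tA a b A o) (fun _ => (0 : ℂ)) = tA a b A o := by
      funext x
      by_cases hx : x ∈ (kC a b)ᶜ
      · rw [Set.piecewise_eq_of_mem _ _ _ hx]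
      · rw [Set.piecewise_eq_of_notMem _ _ _ hx]
        exact (Vext_on (Set.notMem_compl_iff.1 hx)).symm
    rw [h2] at h1
    exact h1
  · obtain ⟨C, hC, hC1⟩ := hgr a b hD hE Ω A hP
    refine ⟨C, hC, ?_⟩
    intro o x
    by_cases hx : x ∈ kC a b
    · rw [Vext_on hx, norm_zero]
      positivity
    · haveI := Vext_nb hE x
      have h1 : Tendsto (fun r => ‖A o r‖) (𝓝[kC a b] x) (𝓝 ‖tA a b A o x‖) := (hL o x hx).norm
      have h2 : Tendsto (fun r : ℂ => C * (1 + ‖r‖)) (𝓝[kC a b] x) (𝓝 (C * (1 + ‖x‖))) := by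
        have h3 : Continuous (fun r : ℂ => C * (1 + ‖r‖)) :=
          continuous_const.mul (continuous_const.add continuous_norm)
        exact h3.continuousAt.tendsto.mono_left nhdsWithin_le_nhds
      refine le_of_tendsto_of_tendsto h1 h2 ?_
      filter_upwards [hk x] with r hr
      exact hC1 o r hr
  · intro o β x hx
    haveI := Vext_nb hE x
    have ht : Tendsto (fun r : ℂ => r + iC a b β) (𝓝[kC a b] x) (𝓝[kC a b] (x + iC a b β)) := by
      rw [tendsto_nhdsWithin_iff]
      refine ⟨((continuous_id.add continuous_const).continuousAt.tendsto).mono_left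
        nhdsWithin_le_nhds, ?_⟩
      filter_upwards [hk x] with r hr
      exact Vext_add β hr
    have h1 : Tendsto (fun r => A o (r + iC a b β)) (𝓝[kC a b] x)
        (𝓝 (tA a b A o (x + iC a b β))) := (hL o _ (Vext_addn β hx)).comp ht
    have h2 : Tendsto (fun r => A o (iC a b β) + A ((eU β : GQ a b)⁻¹ • o) r) (𝓝[kC a b] x)
        (𝓝 (A o (iC a b β) + tA a b A ((eU β : GQ a b)⁻¹ • o) x)) :=
      (hL _ x hx).const_add _
    refine tendsto_nhds_unique_of_eventuallyEq h1 h2 ?_
    filter_upwards [hk x] with r hr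
    exact hP.add o β r hr
  · intro o x hx
    haveI := Vext_nb hE x
    have hx0 : x ≠ 0 := by
      rintro rfl
      apply hx
      have h1 := Vext_mem (a := a) (b := b) 0
      rwa [map_zero] at h1
    have hcts : ContinuousAt (fun r : ℂ => -1 / r) x := continuousAt_const.div continuousAt_id hx0
    have ht : Tendsto (fun r : ℂ => -1 / r) (𝓝[kC a b] x) (𝓝[kC a b] (-1 / x)) := by
      rw [tendsto_nhdsWithin_iff]
      refine ⟨hcts.tendsto.mono_left nhdsWithin_le_nhds, ?_⟩
      filter_upwards [hk x] with r hr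
      exact Vext_inv hD hr
    have h1 : Tendsto (fun r => r * A o (-1 / r)) (𝓝[kC a b] x)
        (𝓝 (x * tA a b A o (-1 / x))) := by
      have h3 : Tendsto (fun r : ℂ => r) (𝓝[kC a b] x) (𝓝 x) :=
        (continuous_id.continuousAt.tendsto).mono_left nhdsWithin_le_nhds
      exact h3.mul ((hL o _ (Vext_inv' hD hx)).comp ht)
    have hne : ∀ᶠ r in 𝓝[kC a b] x, r ≠ 0 :=
      (eventually_ne_nhds hx0).filter_mono nhdsWithin_le_nhds
    refine tendsto_nhds_unique_of_eventuallyEq (hL _ x hx) h1 ?_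
    filter_upwards [hk x, hne] with r hr hr0
    exact hP.inv o r hr hr0

end

end Pool.Agent.F8.CG
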