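import Pool.Agent.Lib.MP_305fdd_al.F8.CG.StmV

/-!
# MP_305fdd_al, congruence subgroups: [CG V gen] generators of `SL₂(ℤ[w])`
-/

set_option autoImplicit false

namespace Pool.Agent.F8.CG

open Pool.Agent.F8.BG Pool.Agent.MP_305fdd_al Pool.Agent.Lib.MP_305fdd_al Pool.Agent.F8
open scoped QuadraticAlgebra

/-- the square of the absolute value is the norm -/
private theorem Vgen_norm {a b : ℤ} (h : b ^ 2 + 4 * a < 0) (z : Qf a b ℤ) :
    ‖iC a b z‖ ^ 2 = ((nq z : ℤ) : ℝ) := by
  have hD : (0 : ℝ) ≤ -((b ^ 2 + 4 * a : ℤ) : ℝ) := by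
    have : ((b ^ 2 + 4 * a : ℤ) : ℝ) < 0 := by exact_mod_cast h
    linarith
  have hs : Real.sqrt (-((b ^ 2 + 4 * a : ℤ) : ℝ)) ^ 2 = -((b ^ 2 + 4 * a : ℤ) : ℝ) :=
    Real.sq_sqrt hD
  rw [iC_apply, wC_eq h, Complex.sq_norm, Complex.normSq_apply]
  simp only [Complex.add_re, Complex.add_im, Complex.mul_re, Complex.mul_im, Complex.ofReal_re,
    Complex.ofReal_im, Complex.I_re, Complex.I_im, Complex.intCast_re, Complex.intCast_im]
  unfold nq
  push_cast at hs ⊢
  linear_combination (z.im : ℝ) ^ 2 / 4 * hs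

private theorem Vgen_V {R : Type} [CommRing R] (x : R) :
    (eV x : SL2 R) = mS * eU (-x) * mS⁻¹ := by
  unfold eV eU mS
  rw [AB.mx_inv, AB.mx_mul, AB.mx_mul]
  apply AB.mx_congr <;> ring

private theorem Vgen_diag {R : Type} [CommRing R] (u s : R) (h : u * s = 1) (h' : u * s - 0 * 0 = 1) :
    (AB.mx u 0 0 s h' : SL2 R) = eU u * eV (-s) * eU u * mS := by
  unfold eV eU mS
  rw [AB.mx_mul, AB.mx_mul, AB.mx_mul]
  apply AB.mx_congr
  · linear_combination u * h
  · linear_combination -h
  · linear_combination h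
  · ring

theorem p_Vgen : V_gen := by
  intro a b h hEu
  set H : Subgroup (GQ a b) :=
    Subgroup.closure (Set.range (fun β : Qf a b ℤ => (eU β : GQ a b)) ∪ {mS}) with hH
  have hU : ∀ β : Qf a b ℤ, (eU β : GQ a b) ∈ H := fun β =>
    Subgroup.subset_closure (Or.inl ⟨β, rfl⟩)
  have hS : (mS : GQ a b) ∈ H := Subgroup.subset_closure (Or.inr rfl)
  have hV : ∀ β : Qf a b ℤ, (eV β : GQ a b) ∈ H := by
    intro β
    rw [Vgen_V]
    exact H.mul_mem (H.mul_mem hS (hU _)) (H.inv_mem hS)
  have main : ∀ n : ℕ, ∀ g : GQ a b, (nq (g.val 1 0)).toNat ≤ n → g ∈ H := by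
    intro n
    induction n with
    | zero =>
      intro g hg
      have h1 := nq_nonneg h (g.val 1 0)
      have h2 : nq (g.val 1 0) = 0 := by omega
      have h3 : g.val 1 0 = 0 := nq_eq_zero h h2
      have hdet : g.val 0 0 * g.val 1 1 = 1 := by
        have := G.SL_det g
        rw [h3] at this
        linear_combination this
      have hg' : g = AB.mx (g.val 0 0) 0 0 (g.val 1 1) (by linear_combination hdet) *
          eU (g.val 1 1 * g.val 0 1) := by
        conv_lhs => rw [AB.eq_mx g]
        unfold eU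
        rw [AB.mx_mul]
        apply AB.mx_congr
        · ring
        · linear_combination -(g.val 0 1) * hdet
        · rw [h3]; ring
        · ring
      rw [hg', Vgen_diag _ _ hdet]
      exact H.mul_mem (H.mul_mem (H.mul_mem (H.mul_mem (hU _) (hV _)) (hU _)) hS) (hU _)
    | succ n ih =>
      intro g hg
      by_cases hq : g.val 1 0 = 0
      · apply ih
        rw [hq]
        have : nq (0 : Qf a b ℤ) = 0 := by
          unfold nq
          simp
        rw [this]
        simp
      · obtain ⟨β, hβ⟩ := hEu (iC a b (g.val 0 0) / iC a b (g.val 1 0))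
        have hn0 : 0 < nq (g.val 1 0) := lt_of_le_of_ne (nq_nonneg h _)
          (fun h1 => hq (nq_eq_zero h h1.symm))
        have hq2 : 0 < ‖iC a b (g.val 1 0)‖ ^ 2 := by
          rw [Vgen_norm h]
          exact_mod_cast hn0
        have hq1 : iC a b (g.val 1 0) ≠ 0 := by
          intro h1
          rw [h1] at hq2
          simp at hq2
        have hlt : nq (g.val 0 0 - β * g.val 1 0) < nq (g.val 1 0) := by
          have h1 : iC a b (g.val 0 0 - β * g.val 1 0) =
              (iC a b (g.val 0 0) / iC a b (g.val 1 0) - iC a b β) * iC a b (g.val 1 0) := by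
            rw [map_sub, map_mul, sub_mul, div_mul_cancel₀ _ hq1]
          have h2 : ‖iC a b (g.val 0 0 - β * g.val 1 0)‖ ^ 2 ≤
              (31 / 32) ^ 2 * ‖iC a b (g.val 1 0)‖ ^ 2 := by
            rw [h1, norm_mul, mul_pow]
            apply mul_le_mul_of_nonneg_right _ (sq_nonneg _)
            exact pow_le_pow_left₀ (norm_nonneg _) hβ 2
          have h3 : ‖iC a b (g.val 0 0 - β * g.val 1 0)‖ ^ 2 < ‖iC a b (g.val 1 0)‖ ^ 2 := by
            nlinarith
          rw [Vgen_norm h, Vgen_norm h] at h3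
          exact_mod_cast h3
        set g' : GQ a b := mS * eU (-β) * g with hg'
        have hval : g'.val 1 0 = g.val 0 0 - β * g.val 1 0 := by
          rw [hg', AB.eq_mx g]
          unfold mS eU
          rw [AB.mx_mul, AB.mx_mul, AB.mx_10]
          simp only [AB.mx_00, AB.mx_10]
          ring
        have hmem : g' ∈ H := by
          apply ih
          rw [hval]
          have := nq_nonneg h (g.val 0 0 - β * g.val 1 0)
          omega
        have hgg : g = (mS * eU (-β))⁻¹ * g' := by
          rw [hg', inv_mul_cancel_left]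
        rw [hgg]
        exact H.mul_mem (H.inv_mem (H.mul_mem hS (hU _))) hmem
  rw [eq_top_iff]
  intro g _
  exact main _ g le_rfl

end Pool.Agent.F8.CG
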