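import Pool.Agent.Lib.MP_305fdd_al.F8.CG.StmV

set_option autoImplicit false

namespace Pool.Agent.F8.CG

open Pool.Agent.F8.BG Pool.Agent.MP_305fdd_al Pool.Agent.Lib.MP_305fdd_al Pool.Agent.F8
open MeasureTheory
open scoped QuadraticAlgebra ENNReal ComplexConjugate

noncomputable section

private theorem Vgr_nq {a b : ℤ} (h : b ^ 2 + 4 * a < 0) (z : Qf a b ℤ) :
    ‖iC a b z‖ ^ 2 = ((nq z : ℤ) : ℝ) := by
  have hD : (0 : ℝ) ≤ -((b ^ 2 + 4 * a : ℤ) : ℝ) := by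
    have : ((b ^ 2 + 4 * a : ℤ) : ℝ) < 0 := by exact_mod_cast h
    linarith
  have hs := Real.sq_sqrt hD
  rw [← Complex.normSq_eq_norm_sq, iC_apply, wC_eq h]
  set s : ℝ := Real.sqrt (-((b ^ 2 + 4 * a : ℤ) : ℝ)) with hsdef
  have h1 : (z.re : ℂ) + (z.im : ℂ) * ((((b : ℝ) / 2 : ℝ) : ℂ) + ((s / 2 : ℝ) : ℂ) * Complex.I) =
      (((z.re : ℝ) + (z.im : ℝ) * b / 2 : ℝ) : ℂ) + (((z.im : ℝ) * s / 2 : ℝ) : ℂ) * Complex.I := by
    push_cast
    ring
  rw [h1, Complex.normSq_add_mul_I]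
  unfold nq
  push_cast at hs ⊢
  linear_combination ((z.im : ℝ) ^ 2 / 4) * hs

private theorem Vgr_ge {a b : ℤ} (h : b ^ 2 + 4 * a < 0) {z : Qf a b ℤ} (hz : z ≠ 0) :
    1 ≤ ‖iC a b z‖ := by
  have h0 : nq z ≠ 0 := fun e => hz (nq_eq_zero h e)
  have h1 : 1 ≤ nq z := by
    have := nq_nonneg h z
    omega
  have h2 : (1 : ℝ) ≤ ‖iC a b z‖ ^ 2 := by
    rw [Vgr_nq h]
    exact_mod_cast h1
  nlinarith [norm_nonneg (iC a b z)]

private theorem Vgr_inj {a b : ℤ} (h : b ^ 2 + 4 * a < 0) {z : Qf a b ℤ} (hz : z ≠ 0) :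
    iC a b z ≠ 0 := by
  intro e
  have := Vgr_ge h hz
  rw [e, norm_zero] at this
  linarith

private theorem Vgr_ring (a b : ℤ) (p : Qf a b ℤ) : iC a b p ∈ kC a b :=
  ⟨p, 1, one_ne_zero, by rw [map_one, mul_one]⟩

private theorem Vgr_eU0 (a b : ℤ) : (eU (0 : Qf a b ℤ) : GQ a b) = 1 := by
  apply Subtype.ext
  apply Matrix.ext
  intro i j
  fin_cases i <;> fin_cases j <;> rfl

private theorem Vgr_zero {a b : ℤ} {Ω : Type} [MulAction (GQ a b) Ω] {A : Ω → ℂ → ℂ}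
    (hA : PS a b A) (o : Ω) : A o 0 = 0 := by
  have h := hA.add o 0 0 (by simpa using Vgr_ring a b 0)
  rw [Vgr_eU0, inv_one, one_smul, map_zero, add_zero] at h
  have h2 : A o 0 + A o 0 = A o 0 + 0 := by rw [add_zero]; exact h.symm
  exact add_left_cancel h2

private theorem Vgr_lat {a b : ℤ} (hn : b ^ 2 + 4 * a < 0) {Ω : Type} [MulAction (GQ a b) Ω]
    [Finite Ω] {A : Ω → ℂ → ℂ} (hA : PS a b A) :
    ∃ C : ℝ, 0 ≤ C ∧ ∀ o, ∀ β : Qf a b ℤ, ‖A o (iC a b β)‖ ≤ C * ‖iC a b β‖ := by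
  obtain ⟨N, hN, hr⟩ := hA.lin
  choose r hr using hr
  have hNpos : (0 : ℤ) < (N : ℤ) := by exact_mod_cast Nat.pos_of_ne_zero hN
  -- bounds
  obtain ⟨M₁, hM₁⟩ : ∃ M₁ : ℝ, ∀ o, ‖r o‖ ≤ M₁ := by
    obtain ⟨M, hM⟩ := (Set.finite_range (fun o => ‖r o‖)).bddAbove
    exact ⟨M, fun o => hM ⟨o, rfl⟩⟩
  let f : Ω × (Fin N × Fin N) → Qf a b ℤ := fun t => ⟨(t.2.1 : ℤ), (t.2.2 : ℤ)⟩
  obtain ⟨M₂, hM₂⟩ : ∃ M₂ : ℝ, ∀ t, ‖A t.1 (iC a b (f t))‖ ≤ M₂ := by
    obtain ⟨M, hM⟩ := (Set.finite_range (fun t => ‖A t.1 (iC a b (f t))‖)).bddAbove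
    exact ⟨M, fun t => hM ⟨t, rfl⟩⟩
  obtain ⟨M₃, hM₃⟩ : ∃ M₃ : ℝ, ∀ t, ‖iC a b (f t)‖ ≤ M₃ := by
    obtain ⟨M, hM⟩ := (Set.finite_range (fun t => ‖iC a b (f t)‖)).bddAbove
    exact ⟨M, fun t => hM ⟨t, rfl⟩⟩
  set m₁ := max M₁ 0
  set m₂ := max M₂ 0
  set m₃ := max M₃ 0
  have k1 : ∀ o, ‖r o‖ ≤ m₁ := fun o => (hM₁ o).trans (le_max_left _ _)
  have k2 : ∀ t, ‖A t.1 (iC a b (f t))‖ ≤ m₂ := fun t => (hM₂ t).trans (le_max_left _ _)
  have k3 : ∀ t, ‖iC a b (f t)‖ ≤ m₃ := fun t => (hM₃ t).trans (le_max_left _ _)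
  have n1 : 0 ≤ m₁ := le_max_right _ _
  have n2 : 0 ≤ m₂ := le_max_right _ _
  have n3 : 0 ≤ m₃ := le_max_right _ _
  have hbd : ∀ o, ∀ β : Qf a b ℤ, ‖A o (iC a b β)‖ ≤ m₂ + m₁ * (‖iC a b β‖ + m₃) := by
    intro o β
    -- residues
    have hre0 := Int.emod_nonneg β.re hNpos.ne'
    have hre1 := Int.emod_lt_of_pos β.re hNpos
    have him0 := Int.emod_nonneg β.im hNpos.ne'
    have him1 := Int.emod_lt_of_pos β.im hNpos
    have e1 : ((β.re % (N : ℤ)).toNat : ℤ) = β.re % (N : ℤ) := Int.toNat_of_nonneg hre0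
    have e2 : ((β.im % (N : ℤ)).toNat : ℤ) = β.im % (N : ℤ) := Int.toNat_of_nonneg him0
    let i : Fin N := ⟨(β.re % (N : ℤ)).toNat, by omega⟩
    let j : Fin N := ⟨(β.im % (N : ℤ)).toNat, by omega⟩
    have hf : ∀ o' : Ω, f (o', i, j) = ⟨β.re % (N : ℤ), β.im % (N : ℤ)⟩ := by
      intro o'
      show (⟨((β.re % (N : ℤ)).toNat : ℤ), ((β.im % (N : ℤ)).toNat : ℤ)⟩ : Qf a b ℤ) = _
      rw [e1, e2]
    let β' : Qf a b ℤ := ⟨β.re / (N : ℤ), β.im / (N : ℤ)⟩
    have hβ : β = (N : Qf a b ℤ) * β' + f (o, i, j) := by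
      rw [hf]
      have hNq : ((N : Qf a b ℤ)) = ⟨(N : ℤ), 0⟩ := rfl
      rw [hNq]
      apply QuadraticAlgebra.ext
      · have h3 := Int.emod_add_mul_ediv β.re (N : ℤ)
        show β.re = ((N : ℤ) * (β.re / N) + a * 0 * (β.im / N)) + β.re % N
        linarith
      · have h3 := Int.emod_add_mul_ediv β.im (N : ℤ)
        show β.im = ((N : ℤ) * (β.im / N) + 0 * (β.re / N) + b * 0 * (β.im / N)) + β.im % N
        linarith
    have h5 := hA.add o (f (o, i, j)) (iC a b ((N : Qf a b ℤ) * β')) (Vgr_ring a b _)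
    rw [← map_add, ← hβ] at h5
    rw [h5, hr]
    have h6 : ‖iC a b ((N : Qf a b ℤ) * β')‖ ≤ ‖iC a b β‖ + m₃ := by
      have h7 : iC a b ((N : Qf a b ℤ) * β') = iC a b β - iC a b (f (o, i, j)) := by
        rw [← map_sub]
        congr 1
        exact eq_sub_of_add_eq hβ.symm
      rw [h7]
      exact (norm_sub_le _ _).trans (add_le_add le_rfl (k3 _))
    refine (norm_add_le _ _).trans (add_le_add (k2 (o, i, j)) ?_)
    rw [norm_mul, Complex.norm_conj]
    exact mul_le_mul (k1 _) h6 (norm_nonneg _) n1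
  refine ⟨m₂ + m₁ * (1 + m₃), by positivity, fun o β => ?_⟩
  by_cases hβ : β = 0
  · rw [hβ, map_zero, Vgr_zero hA, norm_zero, mul_zero]
  · have h1 := Vgr_ge hn hβ
    refine (hbd o β).trans ?_
    have h2 : m₂ ≤ m₂ * ‖iC a b β‖ := le_mul_of_one_le_right n2 h1
    have h3 : m₁ * m₃ ≤ m₁ * m₃ * ‖iC a b β‖ := le_mul_of_one_le_right (mul_nonneg n1 n3) h1
    nlinarith

theorem p_Vgr : V_gr := by
  intro a b hn hE Ω _ _ A hA
  obtain ⟨C, hC0, hC⟩ := Vgr_lat hn hA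
  have key : ∀ n : ℕ, ∀ (p q : Qf a b ℤ), q ≠ 0 → (nq q).toNat ≤ n → ∀ x : ℂ,
      x * iC a b q = iC a b p → ∀ o, ‖A o x‖ ≤ C * (‖x‖ + 63) := by
    intro n
    induction n with
    | zero =>
      intro p q hq hn' x hx o
      exfalso
      have h0 : nq q ≠ 0 := fun e => hq (nq_eq_zero hn e)
      have h1 := nq_nonneg hn q
      omega
    | succ n ih =>
      intro p q hq hn' x hx o
      obtain ⟨β, hβ⟩ := hE x
      have hxk : x ∈ kC a b := ⟨p, q, hq, hx⟩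
      set y := x - iC a b β with hy
      have hyq : y * iC a b q = iC a b (p - β * q) := by
        rw [hy, sub_mul, hx, map_sub, map_mul]
      have hyk : y ∈ kC a b := ⟨p - β * q, q, hq, hyq⟩
      have hxy : x = y + iC a b β := by rw [hy]; ring
      have h1 := hA.add o β y hyk
      rw [← hxy] at h1
      have h2 : ‖iC a b β‖ ≤ ‖x‖ + 31 / 32 := by
        have : iC a b β = x - y := by rw [hy]; ring
        rw [this]
        exact (norm_sub_le _ _).trans (add_le_add le_rfl hβ)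
      have h3 : ‖A o (iC a b β)‖ ≤ C * (‖x‖ + 31 / 32) :=
        (hC o β).trans (mul_le_mul_of_nonneg_left h2 hC0)
      rw [h1]
      refine (norm_add_le _ _).trans ?_
      by_cases hy0 : y = 0
      · rw [hy0, Vgr_zero hA, norm_zero, add_zero]
        refine h3.trans (mul_le_mul_of_nonneg_left ?_ hC0)
        linarith
      · set o' := (eU β : GQ a b)⁻¹ • o with ho'
        set z := -1 / y with hz
        have hy1 : 0 < ‖y‖ := norm_pos_iff.2 hy0
        have hzz : z * y = -1 := by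
          rw [hz]
          field_simp
        have hz0 : z ≠ 0 := by
          intro e
          rw [e, zero_mul] at hzz
          norm_num at hzz
        have hq1 : p - β * q ≠ 0 := by
          intro e
          rw [e, map_zero] at hyq
          rcases mul_eq_zero.1 hyq with h | h
          · exact hy0 h
          · exact Vgr_inj hn hq h
        have hzq : z * iC a b (p - β * q) = iC a b (-q) := by
          rw [← hyq, ← mul_assoc, hzz, map_neg]
          ring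
        have hzk : z ∈ kC a b := ⟨-q, p - β * q, hq1, hzq⟩
        have hlt : nq (p - β * q) < nq q := by
          have h4 : ‖iC a b (p - β * q)‖ ^ 2 = ‖y‖ ^ 2 * ‖iC a b q‖ ^ 2 := by
            rw [← hyq, norm_mul]
            ring
          rw [Vgr_nq hn, Vgr_nq hn] at h4
          have h5 : (0 : ℝ) < ((nq q : ℤ) : ℝ) := by
            have h0 : nq q ≠ 0 := fun e => hq (nq_eq_zero hn e)
            have h1 := nq_nonneg hn q
            exact_mod_cast lt_of_le_of_ne h1 (Ne.symm h0)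
          have h6 : ‖y‖ ^ 2 < 1 := by nlinarith
          have h7 : ((nq (p - β * q) : ℤ) : ℝ) < ((nq q : ℤ) : ℝ) := by
            rw [h4]
            nlinarith
          exact_mod_cast h7
        have h0 := nq_nonneg hn (p - β * q)
        have hinv := hA.inv ((mS : GQ a b) • o') y hyk hy0
        rw [inv_smul_smul, ← hz] at hinv
        have h8 := ih (-q) (p - β * q) hq1 (by omega) z hzq ((mS : GQ a b) • o')
        have h9 : ‖y‖ * ‖z‖ = 1 := by
          rw [← norm_mul, mul_comm, hzz, norm_neg, norm_one]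
        have h10 : ‖A o' y‖ ≤ C * (1 + 63 * (31 / 32)) := by
          rw [hinv, norm_mul]
          have h11 : ‖y‖ * ‖A ((mS : GQ a b) • o') z‖ ≤ ‖y‖ * (C * (‖z‖ + 63)) :=
            mul_le_mul_of_nonneg_left h8 hy1.le
          have h12 : ‖y‖ * (C * (‖z‖ + 63)) = C * (‖y‖ * ‖z‖ + 63 * ‖y‖) := by ring
          rw [h12, h9] at h11
          refine h11.trans (mul_le_mul_of_nonneg_left ?_ hC0)
          linarith
        have h13 : C * (‖x‖ + 31 / 32) + C * (1 + 63 * (31 / 32)) = C * (‖x‖ + 63) := by ring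
        rw [← h13]
        exact add_le_add h3 h10
  refine ⟨63 * C, by positivity, fun o x hx => ?_⟩
  obtain ⟨p, q, hq, hpq⟩ := hx
  refine (key _ p q hq le_rfl x hpq o).trans ?_
  have := norm_nonneg x
  nlinarith [mul_nonneg hC0 this]

end

end Pool.Agent.F8.CG
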