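import Pool.Agent.Lib.MP_305fdd_al.F8.CG.StmV

/-!
# MP_305fdd_al, congruence subgroups: the homogeneous function of a crossed homomorphism (piece Vhf)
-/

set_option autoImplicit false

namespace Pool.Agent.F8.CG

open Pool.Agent.F8.BG Pool.Agent.MP_305fdd_al Pool.Agent.Lib.MP_305fdd_al Pool.Agent.F8
open scoped QuadraticAlgebra ComplexConjugate

noncomputable section

private theorem Vhf_iC_inj {a b : ℤ} (h : b ^ 2 + 4 * a < 0) (x : Qf a b ℤ)
    (hx : iC a b x = 0) : x = 0 := by
  have him := wC_im h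
  rw [iC_apply] at hx
  have h1 := congrArg Complex.im hx
  have h2 := congrArg Complex.re hx
  simp only [Complex.add_im, Complex.intCast_im, Complex.mul_im, Complex.intCast_re, zero_mul,
    add_zero, zero_add, Complex.zero_im] at h1
  simp only [Complex.add_re, Complex.intCast_re, Complex.mul_re, Complex.intCast_im, zero_mul,
    sub_zero, Complex.zero_re] at h2
  have h3 : (x.im : ℝ) = 0 := by
    rcases mul_eq_zero.1 h1 with h | h
    · exact h
    · exact absurd h him.ne'
  rw [h3, zero_mul, add_zero] at h2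
  have h4 : x.im = 0 := by exact_mod_cast h3
  have h5 : x.re = 0 := by exact_mod_cast h2
  ext
  · exact h5
  · exact h4

private theorem Vhf_vC_ne {a b : ℤ} (h : b ^ 2 + 4 * a < 0) (e : Fin 2 → Qf a b ℤ)
    (he : e ≠ 0) : ∃ i, vC a b e i ≠ 0 := by
  by_contra hc
  push Not at hc
  apply he
  funext i
  exact Vhf_iC_inj h _ (hc i)

private theorem Vhf_iG {a b : ℤ} (g : GQ a b) (e : Fin 2 → Qf a b ℤ) :
    vC a b (g.val.mulVec e) = (iG a b g).val.mulVec (vC a b e) := by
  funext i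
  have hg : ∀ k, (iG a b g).val i k = iC a b (g.val i k) := fun k => rfl
  simp only [vC, Matrix.mulVec, dotProduct, Fin.sum_univ_two, map_add, map_mul, hg]

private theorem Vhf_tvC {a b : ℤ} (e : Fin 2 → Qf a b ℤ) (t : Qf a b ℤ) :
    iG a b (tv e t) = tv (vC a b e) (iC a b t) := by
  apply Subtype.ext
  ext i k
  have hg : (iG a b (tv e t)).val i k = iC a b ((tv e t).val i k) := rfl
  rw [hg]
  fin_cases i <;> fin_cases k <;>
    simp [tv, AB.mx, vC]

private theorem Vhf_smul {a b : ℤ} (l : Qf a b ℤ) (e : Fin 2 → Qf a b ℤ) :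
    vC a b (l • e) = iC a b l • vC a b e := by
  funext i
  simp [vC]

private theorem Vhf_par (e v : Fin 2 → ℂ) (he : ∃ i, e i ≠ 0) (h : om e v = 0) :
    ∃ c : ℂ, v = c • e := by
  unfold om at h
  obtain ⟨i, hi⟩ := he
  fin_cases i
  · have hi : e 0 ≠ 0 := hi
    refine ⟨v 0 / e 0, ?_⟩
    funext k
    fin_cases k
    · show v 0 = v 0 / e 0 * e 0
      field_simp
    · show v 1 = v 0 / e 0 * e 1
      field_simp
      linear_combination h
  · have hi : e 1 ≠ 0 := hi
    refine ⟨v 1 / e 1, ?_⟩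
    funext k
    fin_cases k
    · show v 0 = v 1 / e 1 * e 0
      field_simp
      linear_combination -h
    · show v 1 = v 1 / e 1 * e 1
      field_simp

private theorem Vhf_cancel (e : Fin 2 → ℂ) (he : ∃ i, e i ≠ 0) (c d : ℂ) (h : c • e = d • e) :
    c = d := by
  obtain ⟨i, hi⟩ := he
  have := congrFun h i
  simp only [Pi.smul_apply, smul_eq_mul] at this
  exact mul_right_cancel₀ hi this

/-- uniqueness of the coefficients -/
private theorem Vhf_uniq {a b : ℤ} (h : b ^ 2 + 4 * a < 0) (r0 r1 s0 s1 : ℂ)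
    (hh : ∀ β : Qf a b ℤ, r0 * iC a b β + r1 * conj (iC a b β) =
      s0 * iC a b β + s1 * conj (iC a b β)) : r0 = s0 := by
  have him := wC_im h
  have h1 := hh 1
  have hw := hh ⟨0, 1⟩
  rw [map_one, map_one] at h1
  have hiw : iC a b ⟨0, 1⟩ = wC a b := by
    rw [iC_apply]
    simp
  rw [hiw] at hw
  have hne : wC a b - conj (wC a b) ≠ 0 := by
    intro h0
    have := congrArg Complex.im h0
    simp only [Complex.sub_im, Complex.conj_im, Complex.zero_im] at this
    linarith
  have h2 : (r0 - s0) * (wC a b - conj (wC a b)) = 0 := by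
    linear_combination hw - conj (wC a b) * h1
  rcases mul_eq_zero.1 h2 with h3 | h3
  · exact sub_eq_zero.1 h3
  · exact absurd h3 hne

/-- an additive function on the ring -/
private theorem Vhf_add {a b : ℤ} (h : b ^ 2 + 4 * a < 0) (c : Qf a b ℤ → ℂ)
    (hc : ∀ x y, c (x + y) = c x + c y) :
    ∃ r0 r1 : ℂ, ∀ β, c β = r0 * iC a b β + r1 * conj (iC a b β) := by
  have him := wC_im h
  have hne : wC a b - conj (wC a b) ≠ 0 := by
    intro h0
    have := congrArg Complex.im h0
    simp only [Complex.sub_im, Complex.conj_im, Complex.zero_im] at this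
    linarith
  let C : Qf a b ℤ →+ ℂ := AddMonoidHom.mk' c hc
  have hC : ∀ β : Qf a b ℤ, c β = (β.re : ℂ) * c 1 + (β.im : ℂ) * c ⟨0, 1⟩ := by
    intro β
    have h1 : β = β.re • (1 : Qf a b ℤ) + β.im • (⟨0, 1⟩ : Qf a b ℤ) := by
      ext <;> simp
    have h2 : C β = β.re • C 1 + β.im • C ⟨0, 1⟩ := by
      conv_lhs => rw [h1]
      rw [map_add, map_zsmul, map_zsmul]
    have h3 : c β = β.re • c 1 + β.im • c ⟨0, 1⟩ := h2
    rw [h3, zsmul_eq_mul, zsmul_eq_mul]
  refine ⟨(c ⟨0, 1⟩ - c 1 * conj (wC a b)) / (wC a b - conj (wC a b)),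
    (c 1 * wC a b - c ⟨0, 1⟩) / (wC a b - conj (wC a b)), fun β => ?_⟩
  rw [hC β, iC_apply, map_add, map_mul]
  have e1 : conj ((β.re : ℂ)) = (β.re : ℂ) := map_intCast _ _
  have e2 : conj ((β.im : ℂ)) = (β.im : ℂ) := map_intCast _ _
  rw [e1, e2]
  field_simp
  ring

/-- the coefficients of `z` on the transvections with the vector `e` -/
private def Vhf_P {a b : ℤ} (W : Subgroup (GQ a b)) (z : W → Fin 2 → ℂ) (N : ℕ)
    (e : Fin 2 → Qf a b ℤ) (r0 r1 : ℂ) : Prop :=
  ∀ (β : Qf a b ℤ) (h : tv e (N * β) ∈ W),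
    z ⟨_, h⟩ = (r0 * iC a b β + r1 * conj (iC a b β)) • vC a b e

theorem p_Vhf (htv : V_tv) : V_hf := by
  intro a b hD W hW z hz hom0
  -- the transvections
  have tmv : ∀ (e : Fin 2 → Qf a b ℤ) (t : Qf a b ℤ) (v : Fin 2 → ℂ),
      (iG a b (tv e t)).val.mulVec v = v + (iC a b t * om (vC a b e) v) • vC a b e := by
    intro e t v
    rw [Vhf_tvC]
    exact (htv ℂ (vC a b e) 0 (iC a b t)).1 v
  have tadd : ∀ (e : Fin 2 → Qf a b ℤ) (s t : Qf a b ℤ), tv e (s + t) = tv e s * tv e t :=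
    fun e s t => (htv (Qf a b ℤ) e s t).2.1
  have tconj : ∀ (e : Fin 2 → Qf a b ℤ) (t : Qf a b ℤ) (g : GQ a b),
      g * tv e t * g⁻¹ = tv (g.val.mulVec e) t := fun e t g => (htv (Qf a b ℤ) e 0 t).2.2.1 g
  have tsm : ∀ (e : Fin 2 → Qf a b ℤ) (t l : Qf a b ℤ), tv (l • e) t = tv e (l ^ 2 * t) :=
    fun e t l => (htv (Qf a b ℤ) e 0 t).2.2.2.1 l
  have tzero : ∀ e : Fin 2 → Qf a b ℤ, tv e 0 = 1 := by
    intro e
    have h := tadd e 0 0
    rw [add_zero] at h
    exact (mul_eq_left.1 h.symm)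
  have tpow : ∀ (e : Fin 2 → Qf a b ℤ) (β : Qf a b ℤ) (n : ℕ), tv e ((n : Qf a b ℤ) * β) =
      tv e β ^ n := by
    intro e β n
    induction n with
    | zero => rw [Nat.cast_zero, zero_mul, tzero, pow_zero]
    | succ n ih => rw [Nat.cast_succ, add_mul, one_mul, tadd, ih, pow_succ]
  -- the crossed homomorphism
  have zmul : ∀ x y : W, z (x * y) = z x + (iG a b x.val).val.mulVec (z y) := hz
  have z1 : z 1 = 0 := by
    have h := zmul 1 1
    rw [one_mul] at h
    have h2 : (iG a b (1 : W).val).val.mulVec (z 1) = z 1 := by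
      have : iG a b (1 : W).val = 1 := map_one _
      rw [this]
      exact Matrix.one_mulVec _
    rw [h2] at h
    exact left_eq_add.1 h
  obtain ⟨N, hN0, hNW⟩ : ∃ N : ℕ, N ≠ 0 ∧ ∀ x : GQ a b, x ^ N ∈ W := by
    refine ⟨W.index.factorial, Nat.factorial_ne_zero _, fun x => ?_⟩
    exact Subgroup.pow_mem_of_index_ne_zero_of_dvd hW.index_ne_zero x
      (fun m h0 hm => Nat.dvd_factorial h0 hm)
  have mem : ∀ (e : Fin 2 → Qf a b ℤ) (β : Qf a b ℤ), tv e (N * β) ∈ W := by
    intro e β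
    rw [tpow]
    exact hNW _
  have hNC : (N : ℂ) ≠ 0 := Nat.cast_ne_zero.2 hN0
  have omself : ∀ e : Fin 2 → ℂ, om e e = 0 := fun e => by unfold om; ring
  -- existence of the coefficients
  have ex : ∀ e : Fin 2 → Qf a b ℤ, e ≠ 0 → ∃ r0 r1 : ℂ, Vhf_P W z N e r0 r1 := by
    intro e he
    have hne := Vhf_vC_ne hD e he
    choose c hc using fun β : Qf a b ℤ =>
      Vhf_par (vC a b e) (z ⟨_, mem e β⟩) hne (hom0 e _ (mem e β))
    have hadd : ∀ x y, c (x + y) = c x + c y := by
      intro x y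
      apply Vhf_cancel (vC a b e) hne
      rw [add_smul, ← hc, ← hc, ← hc]
      have h1 : (⟨_, mem e (x + y)⟩ : W) = ⟨_, mem e x⟩ * ⟨_, mem e y⟩ := by
        apply Subtype.ext
        show tv e (N * (x + y)) = tv e (N * x) * tv e (N * y)
        rw [mul_add, tadd]
      rw [h1, zmul]
      congr 1
      show (iG a b (tv e (N * x))).val.mulVec (z ⟨_, mem e y⟩) = _
      rw [tmv, hc y]
      have : om (vC a b e) (c y • vC a b e) = 0 := by
        unfold om
        simp only [Pi.smul_apply, smul_eq_mul]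
        ring
      rw [this, mul_zero, zero_smul, add_zero]
    obtain ⟨r0, r1, hr⟩ := Vhf_add hD c hadd
    refine ⟨r0, r1, fun β h => ?_⟩
    rw [← hr β]
    exact hc β
  have uniq : ∀ (e : Fin 2 → Qf a b ℤ), e ≠ 0 → ∀ r0 r1 s0 s1 : ℂ, Vhf_P W z N e r0 r1 →
      Vhf_P W z N e s0 s1 → r0 = s0 := by
    intro e he r0 r1 s0 s1 hr hs
    apply Vhf_uniq hD r0 r1 s0 s1
    intro β
    apply Vhf_cancel (vC a b e) (Vhf_vC_ne hD e he)
    rw [← hr β (mem e β), ← hs β (mem e β)]
  classical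
  let f : (Fin 2 → Qf a b ℤ) → ℂ := fun e =>
    if h : e = 0 then 0 else Classical.choose (ex e h) / N
  have f0 : f 0 = 0 := by simp [f]
  have fv : ∀ (e : Fin 2 → Qf a b ℤ), e ≠ 0 → ∀ r0 r1 : ℂ, Vhf_P W z N e r0 r1 →
      f e = r0 / N := by
    intro e he r0 r1 hr
    have h1 : f e = Classical.choose (ex e he) / N := by simp only [f, dif_neg he]
    rw [h1]
    obtain ⟨s1, hs⟩ := Classical.choose_spec (ex e he)
    rw [uniq e he _ _ _ _ hs hr]
  refine ⟨f, ⟨?_, ?_, ?_⟩⟩
  · -- homogeneity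
    intro l e
    by_cases hl : l = 0
    · rw [hl, zero_smul, f0, map_zero, zero_mul]
    by_cases he : e = 0
    · rw [he, smul_zero, f0, mul_zero]
    have hlC : iC a b l ≠ 0 := fun h => hl (Vhf_iC_inj hD l h)
    have hle : l • e ≠ 0 := by
      intro h
      obtain ⟨i, hi⟩ := Vhf_vC_ne hD e he
      have h2 := congrFun (congrArg (vC a b) h) i
      rw [Vhf_smul] at h2
      have h3 : vC a b (0 : Fin 2 → Qf a b ℤ) i = 0 := by simp [vC]
      rw [h3] at h2
      rcases mul_eq_zero.1 h2 with h4 | h4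
      · exact hlC h4
      · exact hi h4
    obtain ⟨r0, r1, hr⟩ := ex e he
    have h1 : Vhf_P W z N (l • e) (iC a b l * r0)
        (r1 * conj (iC a b l) ^ 2 / iC a b l) := by
      intro β h
      have ht : tv (l • e) (N * β) = tv e (N * (l ^ 2 * β)) := by
        rw [tsm]
        congr 1
        ring
      have h2 : (⟨_, h⟩ : W) = ⟨_, mem e (l ^ 2 * β)⟩ := Subtype.ext ht
      rw [h2, hr, Vhf_smul, smul_smul, map_mul, map_pow, map_mul, map_pow]
      congr 1
      field_simp
    rw [fv _ hle _ _ h1, fv e he _ _ hr]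
    ring
  · -- equivariance
    intro x e
    by_cases he : e = 0
    · rw [he, Matrix.mulVec_zero, f0]
      have h3 : vC a b (0 : Fin 2 → Qf a b ℤ) = 0 := by
        funext i
        simp [vC]
      rw [h3]
      simp [om]
    have hxe : x.val.val.mulVec e ≠ 0 := by
      intro h
      apply he
      have h1 : (x.val⁻¹).val.mulVec (x.val.val.mulVec e) = e := by
        rw [Matrix.mulVec_mulVec]
        have : (x.val⁻¹).val * x.val.val = 1 := by
          have := congrArg Subtype.val (inv_mul_cancel x.val)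
          exact this
        rw [this, Matrix.one_mulVec]
      rw [← h1, h, Matrix.mulVec_zero]
    obtain ⟨r0, r1, hr⟩ := ex e he
    set w := om (vC a b (x.val.val.mulVec e)) (z x) with hw
    have h1 : Vhf_P W z N (x.val.val.mulVec e) (r0 - N * w) r1 := by
      intro β h
      have h2 : (⟨_, h⟩ : W) = x * ⟨_, mem e β⟩ * x⁻¹ := by
        apply Subtype.ext
        exact (tconj e (N * β) x.val).symm
      have hinv : z x⁻¹ = -((iG a b (x⁻¹ : W).val).val.mulVec (z x)) := by
        have h3 := zmul x⁻¹ x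
        rw [inv_mul_cancel, z1] at h3
        exact eq_neg_of_add_eq_zero_left h3.symm
      have h4 : z (x * ⟨_, mem e β⟩ * x⁻¹) =
          z x + (iG a b x.val).val.mulVec (z ⟨_, mem e β⟩) -
          (iG a b (tv (x.val.val.mulVec e) (N * β))).val.mulVec (z x) := by
        rw [zmul, zmul, hinv, Matrix.mulVec_neg, Matrix.mulVec_mulVec, ← sub_eq_add_neg]
        congr 2
        rw [← tconj, map_mul]
        rfl
      rw [h2, h4, tmv, ← hw, hr, Matrix.mulVec_smul, ← Vhf_iG, map_mul, map_natCast]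
      rw [show ∀ u v y : Fin 2 → ℂ, u + v - (u + y) = v - y from fun u v y => by abel, ← sub_smul]
      congr 1
      ring
    rw [fv _ hxe _ _ h1, fv e he _ _ hr]
    field_simp
  · -- the values on the unipotent elements
    refine ⟨N, hN0, fun e he => ?_⟩
    obtain ⟨r0, r1, hr⟩ := ex e he
    refine ⟨r1 / N, fun β => ⟨mem e β, ?_⟩⟩
    rw [hr β (mem e β), fv e he _ _ hr, map_mul, map_natCast, map_mul]
    have : conj ((N : ℂ)) = (N : ℂ) := Complex.conj_natCast N
    rw [this]
    congr 1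
    field_simp

end

end Pool.Agent.F8.CG
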