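import Pool.Agent.Lib.MP_305fdd_al.F8.CG.StmV

/-!
# MP_305fdd_al, congruence subgroups, block V: integrability on the Siegel set
-/

set_option autoImplicit false

namespace Pool.Agent.F8.CG

open MeasureTheory
open scoped ENNReal ComplexConjugate

noncomputable section

private abbrev Vint_slice (c d : ℂ) : Set (ℂ × ℂ) :=
  {p | ‖p.1 * d - p.2 * c‖ < 1 ∧ ‖p.1 * conj c + p.2 * conj d‖ ≤ ‖c‖ ^ 2 + ‖d‖ ^ 2}

private theorem Vint_shear2 (k : ℂ) :
    MeasurePreserving (fun p : ℂ × ℂ => (p.1, p.2 + k * p.1)) volume volume := by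
  have h := MeasurePreserving.skew_product (μa := (volume : Measure ℂ)) (μb := volume)
    (μc := (volume : Measure ℂ)) (μd := volume) (MeasurePreserving.id volume)
    (g := fun a c => c + k * a) (by
      unfold Function.uncurry
      fun_prop)
    (Filter.Eventually.of_forall fun a => map_add_right_eq_self volume (k * a))
  exact h

private theorem Vint_shear1 (k : ℂ) :
    MeasurePreserving (fun p : ℂ × ℂ => (p.1 - k * p.2, p.2)) volume volume := by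
  have h1 : MeasurePreserving (Prod.swap : ℂ × ℂ → ℂ × ℂ) volume volume :=
    Measure.measurePreserving_swap
  have h2 := h1.comp ((Vint_shear2 (-k)).comp h1)
  have h3 : (fun p : ℂ × ℂ => (p.1 - k * p.2, p.2)) =
      Prod.swap ∘ ((fun p : ℂ × ℂ => (p.1, p.2 + (-k) * p.1)) ∘ Prod.swap) := by
    funext p
    simp [sub_eq_add_neg]
  rw [h3]
  exact h2

private theorem Vint_vol (c d : ℂ) (hd : d ≠ 0) :
    volume (Vint_slice c d) ≤ (NNReal.pi : ℝ≥0∞) * NNReal.pi := by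
  set n : ℝ := ‖c‖ ^ 2 + ‖d‖ ^ 2 with hn
  have hd0 : 0 < ‖d‖ := norm_pos_iff.2 hd
  have hn0 : 0 < n := by positivity
  have hnC : ((n : ℝ) : ℂ) = c * conj c + d * conj d := by
    rw [Complex.mul_conj, Complex.mul_conj, Complex.normSq_eq_norm_sq, Complex.normSq_eq_norm_sq,
      hn]
    push_cast
    ring
  have hnC0 : ((n : ℝ) : ℂ) ≠ 0 := by exact_mod_cast hn0.ne'
  have hm := (Vint_shear2 (conj c * d / n)).comp (Vint_shear1 (c / d))
  have hsub : Vint_slice c d ⊆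
      ((fun p : ℂ × ℂ => (p.1, p.2 + (conj c * d / n) * p.1)) ∘
        (fun p : ℂ × ℂ => (p.1 - c / d * p.2, p.2))) ⁻¹'
        (Metric.ball (0 : ℂ) (1 / ‖d‖) ×ˢ Metric.closedBall (0 : ℂ) ‖d‖) := by
    rintro ⟨x, y⟩ ⟨h1, h2⟩
    simp only at h1 h2
    simp only [Set.mem_preimage, Function.comp_apply, Set.mem_prod, Metric.mem_ball,
      Metric.mem_closedBall, dist_zero_right]
    constructor
    · have e : x - c / d * y = (x * d - y * c) / d := by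
        field_simp
      rw [e, norm_div]
      exact div_lt_div_of_pos_right h1 hd0
    · have e : y + conj c * d / n * (x - c / d * y) =
          d / n * (x * conj c + y * conj d) := by
        have e1 : y + conj c * d / n * (x - c / d * y) =
          (y * n + conj c * d * x - conj c * c * y) / n := by
          field_simp
          ring
        rw [e1, hnC]
        ring
      rw [e, norm_mul, norm_div, Complex.norm_real, Real.norm_of_nonneg hn0.le]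
      calc ‖d‖ / n * ‖x * conj c + y * conj d‖ ≤ ‖d‖ / n * n := by
            apply mul_le_mul_of_nonneg_left h2
            positivity
        _ = ‖d‖ := by field_simp
  calc volume (Vint_slice c d) ≤ volume (((fun p : ℂ × ℂ => (p.1, p.2 + (conj c * d / n) * p.1)) ∘
        (fun p : ℂ × ℂ => (p.1 - c / d * p.2, p.2))) ⁻¹'
        (Metric.ball (0 : ℂ) (1 / ‖d‖) ×ˢ Metric.closedBall (0 : ℂ) ‖d‖)) := measure_mono hsub
    _ = volume (Metric.ball (0 : ℂ) (1 / ‖d‖) ×ˢ Metric.closedBall (0 : ℂ) ‖d‖) :=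
        hm.measure_preimage ((measurableSet_ball.prod measurableSet_closedBall).nullMeasurableSet)
    _ = volume (Metric.ball (0 : ℂ) (1 / ‖d‖)) * volume (Metric.closedBall (0 : ℂ) ‖d‖) :=
        Measure.prod_prod _ _
    _ = (NNReal.pi : ℝ≥0∞) * NNReal.pi := by
        rw [Complex.volume_ball, Complex.volume_closedBall]
        have e : ENNReal.ofReal (1 / ‖d‖) * ENNReal.ofReal ‖d‖ = 1 := by
          rw [← ENNReal.ofReal_mul (by positivity), one_div, inv_mul_cancel₀ hd0.ne',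
            ENNReal.ofReal_one]
        calc ENNReal.ofReal (1 / ‖d‖) ^ 2 * (NNReal.pi : ℝ≥0∞) *
              (ENNReal.ofReal ‖d‖ ^ 2 * (NNReal.pi : ℝ≥0∞)) =
              (ENNReal.ofReal (1 / ‖d‖) * ENNReal.ofReal ‖d‖) ^ 2 *
                ((NNReal.pi : ℝ≥0∞) * NNReal.pi) := by ring
          _ = _ := by rw [e, one_pow, one_mul]
    _ ≤ _ := le_rfl

private theorem Vint_id (x y c d : ℂ) :
    ‖x * d - y * c‖ ^ 2 + ‖x * conj c + y * conj d‖ ^ 2 =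
      (‖c‖ ^ 2 + ‖d‖ ^ 2) * (‖x‖ ^ 2 + ‖y‖ ^ 2) := by
  simp only [Complex.sq_norm, Complex.normSq_apply, Complex.sub_re, Complex.sub_im,
    Complex.add_re, Complex.add_im, Complex.mul_re, Complex.mul_im, Complex.conj_re,
    Complex.conj_im]
  ring

private theorem Vint_ptw (x y c d : ℂ) (hc : c ≠ 0) (hd : d ≠ 0)
    (h5 : ‖c‖ ^ 2 + ‖d‖ ^ 2 ≤ 5) (h1 : ‖x * d - y * c‖ < 1)
    (h2 : ‖x * conj c + y * conj d‖ ≤ ‖c‖ ^ 2 + ‖d‖ ^ 2) :
    ‖x‖ ^ 2 + ‖y‖ ^ 2 + ‖c‖ ^ 2 + ‖d‖ ^ 2 ≤ ‖c‖⁻¹ * ‖d‖⁻¹ + 10 := by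
  have hc0 : 0 < ‖c‖ := norm_pos_iff.2 hc
  have hd0 : 0 < ‖d‖ := norm_pos_iff.2 hd
  set n : ℝ := ‖c‖ ^ 2 + ‖d‖ ^ 2 with hn
  have hn0 : 0 < n := by positivity
  have h3 := Vint_id x y c d
  rw [← hn] at h3
  have h4 : n * (‖x‖ ^ 2 + ‖y‖ ^ 2) ≤ 1 + n ^ 2 := by
    rw [← h3]
    have h1' : ‖x * d - y * c‖ ^ 2 ≤ 1 := by
      have := norm_nonneg (x * d - y * c)
      nlinarith
    have h2' : ‖x * conj c + y * conj d‖ ^ 2 ≤ n ^ 2 :=
      pow_le_pow_left₀ (norm_nonneg _) h2 2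
    linarith
  have h6 : ‖x‖ ^ 2 + ‖y‖ ^ 2 ≤ 1 / n + n := by
    have : ‖x‖ ^ 2 + ‖y‖ ^ 2 ≤ (1 + n ^ 2) / n := by
      rw [le_div_iff₀ hn0]
      linarith
    calc _ ≤ (1 + n ^ 2) / n := this
      _ = 1 / n + n := by field_simp
  have h7 : 1 / n ≤ ‖c‖⁻¹ * ‖d‖⁻¹ := by
    rw [← mul_inv, one_div]
    apply inv_anti₀ (by positivity)
    nlinarith [sq_nonneg (‖c‖ - ‖d‖), mul_pos hc0 hd0]
  have h8 : ‖x‖ ^ 2 + ‖y‖ ^ 2 + ‖c‖ ^ 2 + ‖d‖ ^ 2 = (‖x‖ ^ 2 + ‖y‖ ^ 2) + n := by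
    rw [hn]
    ring
  rw [h8]
  linarith

private theorem Vint_ball : ∫⁻ c in Metric.ball (0 : ℂ) 3, ENNReal.ofReal (‖c‖⁻¹) < ⊤ := by
  have h : IntegrableOn (fun x : ℂ => ‖x‖⁻¹) (Metric.ball (0 : ℂ) 3) volume := by
    have h1 := (integrableOn_fun_norm_addHaar (E := ℂ) (μ := volume) (f := fun y : ℝ => y⁻¹)
      (r := 3)).2 (by
        have h2 : IntegrableOn (fun _ : ℝ => (1 : ℝ)) (Set.Ioo 0 3) volume := by
          refine integrableOn_const ?_ ?_ <;> simp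
        refine h2.congr_fun ?_ measurableSet_Ioo
        intro y hy
        have hy0 : y ≠ 0 := (Set.mem_Ioo.1 hy).1.ne'
        simp only [Complex.finrank_real_complex, smul_eq_mul]
        norm_num
        rw [mul_inv_cancel₀ hy0])
    exact h1
  exact h.lintegral_lt_top

private theorem Vint_ae : ∀ᵐ q : ℂ × ℂ, q.1 ≠ 0 ∧ q.2 ≠ 0 := by
  have h1 : volume {q : ℂ × ℂ | ¬ (q.1 ≠ 0)} = 0 := by
    have e : {q : ℂ × ℂ | ¬ (q.1 ≠ 0)} = ({0} : Set ℂ) ×ˢ Set.univ := by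
      ext q
      simp
    rw [e, Measure.volume_eq_prod, Measure.prod_prod]
    simp
  have h2 : volume {q : ℂ × ℂ | ¬ (q.2 ≠ 0)} = 0 := by
    have e : {q : ℂ × ℂ | ¬ (q.2 ≠ 0)} = Set.univ ×ˢ ({0} : Set ℂ) := by
      ext q
      simp
    rw [e, Measure.volume_eq_prod, Measure.prod_prod]
    simp
  have h1' : ∀ᵐ q : ℂ × ℂ, q.1 ≠ 0 := h1
  have h2' : ∀ᵐ q : ℂ × ℂ, q.2 ≠ 0 := h2
  exact h1'.and h2'

private theorem Vint_core (T : Set ((ℂ × ℂ) × (ℂ × ℂ))) (hT : T =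
    {X | ‖X.2.1‖ ^ 2 + ‖X.2.2‖ ^ 2 ≤ 5 ∧ ‖X.1.1 * X.2.2 - X.1.2 * X.2.1‖ < 1 ∧
      ‖X.1.1 * conj X.2.1 + X.1.2 * conj X.2.2‖ ≤ ‖X.2.1‖ ^ 2 + ‖X.2.2‖ ^ 2}) :
    ∫⁻ X in T, ENNReal.ofReal (‖X.1.1‖ ^ 2 + ‖X.1.2‖ ^ 2 + ‖X.2.1‖ ^ 2 +
      ‖X.2.2‖ ^ 2) < ⊤ := by
  have hTm : MeasurableSet T := by
    rw [hT]
    have a1 : MeasurableSet {X : (ℂ × ℂ) × (ℂ × ℂ) | ‖X.2.1‖ ^ 2 + ‖X.2.2‖ ^ 2 ≤ 5} :=
      measurableSet_le (by fun_prop) (by fun_prop)
    have a2 : MeasurableSet {X : (ℂ × ℂ) × (ℂ × ℂ) |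
        ‖X.1.1 * X.2.2 - X.1.2 * X.2.1‖ < 1} :=
      measurableSet_lt (by fun_prop) (by fun_prop)
    have a3 : MeasurableSet {X : (ℂ × ℂ) × (ℂ × ℂ) |
        ‖X.1.1 * conj X.2.1 + X.1.2 * conj X.2.2‖ ≤ ‖X.2.1‖ ^ 2 + ‖X.2.2‖ ^ 2} :=
      measurableSet_le (Continuous.measurable (by fun_prop)) (by fun_prop)
    exact a1.inter (a2.inter a3)
  have hF : Measurable fun X : (ℂ × ℂ) × (ℂ × ℂ) => ENNReal.ofReal (‖X.1.1‖ ^ 2 +
      ‖X.1.2‖ ^ 2 + ‖X.2.1‖ ^ 2 + ‖X.2.2‖ ^ 2) := by fun_prop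
  let F : (ℂ × ℂ) × (ℂ × ℂ) → ℝ≥0∞ := fun X => ENNReal.ofReal (‖X.1.1‖ ^ 2 +
      ‖X.1.2‖ ^ 2 + ‖X.2.1‖ ^ 2 + ‖X.2.2‖ ^ 2)
  let B : Set (ℂ × ℂ) := Metric.ball (0 : ℂ) 3 ×ˢ Metric.ball (0 : ℂ) 3
  let K : ℂ × ℂ → ℝ≥0∞ := fun q => ENNReal.ofReal (‖q.1‖⁻¹) * ENNReal.ofReal (‖q.2‖⁻¹) + 10
  let P : ℝ≥0∞ := (NNReal.pi : ℝ≥0∞) * NNReal.pi
  have hB : MeasurableSet B := measurableSet_ball.prod measurableSet_ball
  have hin : ∀ᵐ q : ℂ × ℂ, ∫⁻ p, T.indicator F (p, q) ≤ B.indicator (fun q => K q * P) q := by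
    filter_upwards [Vint_ae] with q hq
    by_cases h5 : ‖q.1‖ ^ 2 + ‖q.2‖ ^ 2 ≤ 5
    · have hqB : q ∈ B := by
        show q.1 ∈ Metric.ball (0 : ℂ) 3 ∧ q.2 ∈ Metric.ball (0 : ℂ) 3
        rw [Metric.mem_ball, Metric.mem_ball, dist_zero_right, dist_zero_right]
        constructor
        · nlinarith [norm_nonneg q.1, sq_nonneg ‖q.2‖]
        · nlinarith [norm_nonneg q.2, sq_nonneg ‖q.1‖]
      rw [Set.indicator_of_mem hqB]
      have h6 : ∀ p : ℂ × ℂ, T.indicator F (p, q) ≤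
          (Vint_slice q.1 q.2).indicator (fun _ => K q) p := by
        intro p
        by_cases hp : (p, q) ∈ T
        · rw [Set.indicator_of_mem hp]
          rw [hT] at hp
          obtain ⟨h7, h8, h9⟩ := hp
          have hp2 : p ∈ Vint_slice q.1 q.2 := ⟨h8, h9⟩
          rw [Set.indicator_of_mem hp2]
          show ENNReal.ofReal _ ≤ ENNReal.ofReal (‖q.1‖⁻¹) * ENNReal.ofReal (‖q.2‖⁻¹) + 10
          have h10 := Vint_ptw p.1 p.2 q.1 q.2 hq.1 hq.2 h5 h8 h9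
          calc ENNReal.ofReal (‖p.1‖ ^ 2 + ‖p.2‖ ^ 2 + ‖q.1‖ ^ 2 + ‖q.2‖ ^ 2) ≤
                ENNReal.ofReal (‖q.1‖⁻¹ * ‖q.2‖⁻¹ + 10) := ENNReal.ofReal_le_ofReal h10
            _ = _ := by
                rw [ENNReal.ofReal_add (by positivity) (by norm_num),
                  ENNReal.ofReal_mul (by positivity)]
                norm_num
        · rw [Set.indicator_of_notMem hp]
          exact zero_le
      have hSm : MeasurableSet (Vint_slice q.1 q.2) := by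
        have a2 : MeasurableSet {p : ℂ × ℂ | ‖p.1 * q.2 - p.2 * q.1‖ < 1} :=
          measurableSet_lt (by fun_prop) (by fun_prop)
        have a3 : MeasurableSet {p : ℂ × ℂ |
            ‖p.1 * conj q.1 + p.2 * conj q.2‖ ≤ ‖q.1‖ ^ 2 + ‖q.2‖ ^ 2} :=
          measurableSet_le (Continuous.measurable (by fun_prop)) (by fun_prop)
        exact a2.inter a3
      calc ∫⁻ p, T.indicator F (p, q) ≤ ∫⁻ p, (Vint_slice q.1 q.2).indicator (fun _ => K q) p :=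
            lintegral_mono h6
        _ = K q * volume (Vint_slice q.1 q.2) := by
            rw [lintegral_indicator hSm, setLIntegral_const]
        _ ≤ K q * P := by
            gcongr
            exact Vint_vol q.1 q.2 hq.2
    · have h6 : ∀ p : ℂ × ℂ, T.indicator F (p, q) = 0 := by
        intro p
        apply Set.indicator_of_notMem
        intro hp
        rw [hT] at hp
        exact h5 hp.1
      simp only [h6, lintegral_zero]
      exact zero_le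
  have hK : ∫⁻ q, B.indicator (fun q => K q * P) q < ⊤ := by
    rw [lintegral_indicator hB, lintegral_mul_const _ (by fun_prop)]
    apply ENNReal.mul_lt_top _ (by exact ENNReal.mul_lt_top ENNReal.coe_lt_top ENNReal.coe_lt_top)
    show ∫⁻ q in B, (ENNReal.ofReal (‖q.1‖⁻¹) * ENNReal.ofReal (‖q.2‖⁻¹) + 10) < ⊤
    rw [lintegral_add_right _ measurable_const]
    apply ENNReal.add_lt_top.2
    constructor
    · have h1 : (volume : Measure (ℂ × ℂ)).restrict B =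
          ((volume : Measure ℂ).restrict (Metric.ball 0 3)).prod
            ((volume : Measure ℂ).restrict (Metric.ball 0 3)) := by
        rw [Measure.prod_restrict]
        rfl
      rw [h1, lintegral_prod_mul (f := fun c : ℂ => ENNReal.ofReal (‖c‖⁻¹))
        (g := fun c : ℂ => ENNReal.ofReal (‖c‖⁻¹)) (by fun_prop) (by fun_prop)]
      exact ENNReal.mul_lt_top Vint_ball Vint_ball
    · rw [setLIntegral_const]
      apply ENNReal.mul_lt_top (by norm_num)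
      show volume (Metric.ball (0 : ℂ) 3 ×ˢ Metric.ball (0 : ℂ) 3) < ⊤
      rw [Measure.volume_eq_prod, Measure.prod_prod, Complex.volume_ball]
      exact ENNReal.mul_lt_top (ENNReal.mul_lt_top (by simp) ENNReal.coe_lt_top)
        (ENNReal.mul_lt_top (by simp) ENNReal.coe_lt_top)
  calc ∫⁻ X in T, F X = ∫⁻ X, T.indicator F X := (lintegral_indicator hTm _).symm
    _ = ∫⁻ q, ∫⁻ p, T.indicator F (p, q) := by
        rw [Measure.volume_eq_prod]
        exact lintegral_prod_symm' _ (hF.indicator hTm)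
    _ ≤ ∫⁻ q, B.indicator (fun q => K q * P) q := lintegral_mono_ae hin
    _ < ⊤ := hK


private theorem Vint_Sg : MeasurableSet Sg := by
  have a1 : MeasurableSet {X : MM | 0 < ‖dX X‖} := by
    unfold dX
    exact measurableSet_lt (by fun_prop) (by fun_prop)
  have a2 : MeasurableSet {X : MM | nr X ≤ 5 * ‖dX X‖} := by
    unfold dX nr
    exact measurableSet_le (by fun_prop) (by fun_prop)
  have a3 : MeasurableSet {X : MM |
      ‖X.1.1 * conj X.2.1 + X.1.2 * conj X.2.2‖ ≤ 31 / 32 * nr X} := by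
    unfold nr
    exact measurableSet_le (Continuous.measurable (by fun_prop)) (by fun_prop)
  exact a1.inter (a2.inter a3)

theorem p_Vint : V_int := by
  unfold V_int mu0
  rw [Measure.restrict_restrict Vint_Sg]
  refine lt_of_le_of_lt (lintegral_mono_set (t := {X : MM | ‖X.2.1‖ ^ 2 + ‖X.2.2‖ ^ 2 ≤ 5 ∧
      ‖X.1.1 * X.2.2 - X.1.2 * X.2.1‖ < 1 ∧
      ‖X.1.1 * conj X.2.1 + X.1.2 * conj X.2.2‖ ≤ ‖X.2.1‖ ^ 2 + ‖X.2.2‖ ^ 2}) ?_)
    (Vint_core _ rfl)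
  rintro X ⟨⟨h1, h2, h3⟩, h4, h5⟩
  unfold dX at h1 h2 h4 h5
  unfold nr at h2 h3
  refine ⟨by linarith, h5, ?_⟩
  have h6 : 0 ≤ ‖X.2.1‖ ^ 2 + ‖X.2.2‖ ^ 2 := by positivity
  linarith

end

end Pool.Agent.F8.CG
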