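import Pool.Agent.Lib.MP_305fdd_al.F8.CG.StmV

/-!
# MP_305fdd_al, congruence subgroups, piece `V_ker`: a lemma on kernels
-/

set_option autoImplicit false

namespace Pool.Agent.F8.CG

open scoped ComplexConjugate
open Complex

private theorem Vker_norm (z : ℂ) (hz : z.re * z.re + z.im * z.im = 1 / 2) : ‖z‖ = √(1 / 2) := by
  rw [Complex.norm_def, Complex.normSq_apply, hz]

theorem p_Vker : V_ker := by
  intro h H1 H2 H3 H4 H5
  have J1 : ∀ x y, (h y x).im = -(h x y).im := fun x y => by
    rw [H1 x y, Complex.conj_im]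
  have J2 : ∀ y, (h 0 y).im = 0 := fun y => by
    rw [H2, Complex.zero_im]
  have J3 : ∀ y, (h y 0).im = 0 := fun y => by
    rw [J1 0 y, J2, neg_zero]
  have Jpp : ∀ p, (h p p).im = 0 := fun p => by
    have := J1 p p
    linarith
  have JT : ∀ p q r, (h (q - p) (r - p)).im = (h p q).im + (h q r).im + (h r p).im := by
    intro p q r
    have e := congrArg Complex.im (H3 (q - p) (r - p) p)
    rw [sub_add_cancel, sub_add_cancel, Complex.add_im, Complex.sub_im, Complex.sub_im] at e
    linarith [J1 p q, J1 p r, Jpp p]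
  have JM : ∀ μ x y, μ ≠ 0 → (h (μ * x) (μ * y)).im = ‖μ‖ * (h x y).im := by
    intro μ x y hμ
    rw [H4 μ x y hμ, Complex.im_ofReal_mul]
  have key1 : (h 1 (1 + I)).im = (h 1 I).im := by
    have e1 := JT 1 (1 + I) 0
    have e2 := JM I 1 I I_ne_zero
    rw [show (1 + I - 1 : ℂ) = I * 1 by ring, show (0 - 1 : ℂ) = I * I by rw [I_mul_I]; ring, e2,
      Complex.norm_I, one_mul, J3, J2] at e1
    linarith
  have key2 : (h (1 + I) I).im = (h 1 I).im := by
    have e1 := JT I 0 (1 + I)
    have e2 := JM (-I) 1 I (neg_ne_zero.2 I_ne_zero)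
    have e3 : -I * I = 1 + I - I := by
      rw [neg_mul, I_mul_I]
      ring
    rw [show (0 - I : ℂ) = -I * 1 by ring, ← e3, e2, norm_neg, Complex.norm_I, one_mul, J3,
      J2] at e1
    linarith
  have hj : (h 1 I).im = 0 := by
    obtain ⟨m, hm⟩ : ∃ m : ℂ, m = (1 + I) / 2 := ⟨_, rfl⟩
    have hmre : m.re = 1 / 2 := by rw [hm]; simp
    have hmim : m.im = 1 / 2 := by rw [hm]; simp
    have hII : I * I = -1 := I_mul_I
    have n1 : ‖-m‖ = √(1 / 2) := Vker_norm _ (by
      rw [Complex.neg_re, Complex.neg_im, hmre, hmim]; norm_num)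
    have n2 : ‖1 - m‖ = √(1 / 2) := Vker_norm _ (by
      rw [Complex.sub_re, Complex.sub_im, hmre, hmim, Complex.one_re, Complex.one_im]; norm_num)
    have n3 : ‖m‖ = √(1 / 2) := Vker_norm _ (by
      rw [hmre, hmim]; norm_num)
    have n4 : ‖I - m‖ = √(1 / 2) := Vker_norm _ (by
      rw [Complex.sub_re, Complex.sub_im, hmre, hmim, Complex.I_re, Complex.I_im]; norm_num)
    have hr0 : 0 < √((1 : ℝ) / 2) := Real.sqrt_pos.2 (by norm_num)
    have hr2 : √((1 : ℝ) / 2) ^ 2 = 1 / 2 := Real.sq_sqrt (by norm_num)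
    have ne_of : ∀ z : ℂ, ‖z‖ = √(1 / 2) → z ≠ 0 := by
      rintro z hz rfl
      rw [norm_zero] at hz
      linarith
    have t1 := JT m 0 1
    have t2 := JT m 1 (1 + I)
    have t3 := JT m (1 + I) I
    have t4 := JT m I 0
    have s1 := JM (-m) 1 I (ne_of _ n1)
    have s2 := JM (1 - m) 1 I (ne_of _ n2)
    have s3 := JM m 1 I (ne_of _ n3)
    have s4 := JM (I - m) 1 I (ne_of _ n4)
    have a1 : -m * I = 1 - m := by
      rw [hm]
      linear_combination (-1 / 2 : ℂ) * hII
    have a2 : (1 - m) * I = 1 + I - m := by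
      rw [hm]
      linear_combination (-1 / 2 : ℂ) * hII
    have a3 : m * I = I - m := by
      rw [hm]
      linear_combination (1 / 2 : ℂ) * hII
    have a4 : (I - m) * I = 0 - m := by
      rw [hm]
      linear_combination (1 / 2 : ℂ) * hII
    have a5 : (1 + I - m : ℂ) = m := by
      rw [hm]
      ring
    rw [mul_one, a1, n1] at s1
    rw [mul_one, a2, n2] at s2
    rw [mul_one, a3, n3] at s3
    rw [mul_one, a4, n4] at s4
    rw [zero_sub, s1] at t1
    rw [s2] at t2
    rw [a5, s3] at t3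
    rw [s4] at t4
    have e1 := J1 m 1
    have e2 := J1 m (1 + I)
    have e3 := J1 m I
    have e4 := J2 1
    have e5 := J3 I
    have e6 := J2 m
    have e7 := J3 m
    have hsum : 4 * √((1 : ℝ) / 2) * (h 1 I).im = 2 * (h 1 I).im := by
      linarith
    by_contra hne
    have h4 : 4 * √((1 : ℝ) / 2) = 2 := by
      have h5 : (4 * √((1 : ℝ) / 2) - 2) * (h 1 I).im = 0 := by linarith
      rcases mul_eq_zero.1 h5 with h6 | h6
      · linarith
      · exact absurd h6 hne
    nlinarith
  have hxx : ∀ x, h x x = ‖x‖ * h 1 1 := by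
    intro x
    by_cases hx : x = 0
    · rw [hx, H2, norm_zero, Complex.ofReal_zero, zero_mul]
    · have := H4 x 1 1 hx
      rwa [mul_one] at this
  have hcI : h I (-1) = h 1 I := by
    have := H4 I 1 I I_ne_zero
    rwa [mul_one, I_mul_I, Complex.norm_I, Complex.ofReal_one, one_mul] at this
  have h1I : h 1 I = 0 := by
    have e1 := H5 1 I one_ne_zero I_ne_zero
    have e2 : (-1 : ℂ) / 1 = -1 := by norm_num
    have e3 : (-1 : ℂ) / I = I := by
      rw [div_eq_iff I_ne_zero, I_mul_I]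
    rw [e2, e3, H1 I (-1), hcI, one_mul, Complex.conj_I] at e1
    have e4 : conj (h 1 I) = h 1 I := Complex.conj_eq_iff_im.2 hj
    rw [e4] at e1
    have e5 : (1 + I) * h 1 I = 0 := by linear_combination e1
    rcases mul_eq_zero.1 e5 with h6 | h6
    · have := congrArg Complex.re h6
      simp at this
    · exact h6
  have e1 := H3 (1 - I) (1 - I) I
  rw [sub_add_cancel, hxx (1 - I), hxx 1, hxx I, H1 1 I, h1I, map_zero, sub_zero, sub_zero,
    norm_one, Complex.norm_I, Complex.ofReal_one, one_mul] at e1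
  have e2 : ‖(1 : ℂ) - I‖ = √2 := by
    rw [Complex.norm_def, Complex.normSq_apply]
    congr 1
    simp
    norm_num
  rw [e2] at e1
  have e3 : ((√2 : ℝ) - 2 : ℂ) * h 1 1 = 0 := by linear_combination e1
  rcases mul_eq_zero.1 e3 with h6 | h6
  · exfalso
    have h7 : (√2 : ℝ) = 2 := by
      have h8 := congrArg Complex.re h6
      simp at h8
      linarith
    have h9 : (√2 : ℝ) ^ 2 = 2 := Real.sq_sqrt (by norm_num)
    rw [h7] at h9
    norm_num at h9
  · exact h6

end Pool.Agent.F8.CG
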