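import Pool.Agent.Lib.MP_305fdd_al.F8.CG.StmV

/-!
# MP_305fdd_al, congruence subgroups: [CG V mpl], the left action preserves the measure
-/

set_option autoImplicit false

namespace Pool.Agent.F8.CG

open Pool.Agent.F8.BG Pool.Agent.MP_305fdd_al Pool.Agent.Lib.MP_305fdd_al Pool.Agent.F8
open MeasureTheory
open scoped QuadraticAlgebra ENNReal ComplexConjugate

noncomputable section

private def VmplL (p q r t : ℂ) (X : MM) : MM := (p • X.1 + q • X.2, r • X.1 + t • X.2)

private theorem Vmpl_low (c : ℂ) : MeasurePreserving (VmplL 1 0 c 1) volume volume := by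
  have h1 : MeasurePreserving (fun X : (ℂ × ℂ) × (ℂ × ℂ) => (id X.1, c • X.1 + X.2))
      ((volume : Measure (ℂ × ℂ)).prod (volume : Measure (ℂ × ℂ)))
      ((volume : Measure (ℂ × ℂ)).prod (volume : Measure (ℂ × ℂ))) := by
    apply MeasurePreserving.skew_product (MeasurePreserving.id _)
      (g := fun x y => c • x + y)
    · exact ((continuous_fst.const_smul c).add continuous_snd).measurable
    · refine Filter.Eventually.of_forall fun x => ?_
      have : (volume : Measure (ℂ × ℂ)).IsAddLeftInvariant :=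
        inferInstanceAs ((volume : Measure ℂ).prod (volume : Measure ℂ)).IsAddLeftInvariant
      exact map_add_left_eq_self (volume : Measure (ℂ × ℂ)) (c • x)
  have h2 : (VmplL 1 0 c 1) = (fun X : (ℂ × ℂ) × (ℂ × ℂ) => (id X.1, c • X.1 + X.2)) := by
    funext X
    simp [VmplL]
  rw [h2]
  exact h1

private theorem Vmpl_comp (p q r t p' q' r' t' : ℂ) (X : MM) :
    VmplL p q r t (VmplL p' q' r' t' X) =
      VmplL (p * p' + q * r') (p * q' + q * t') (r * p' + t * r') (r * q' + t * t') X := by
  ext <;> simp [VmplL] <;> ring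

private theorem Vmpl_up (c : ℂ) : MeasurePreserving (VmplL 1 c 0 1) volume volume := by
  have h1 : MeasurePreserving (Prod.swap : MM → MM) volume volume :=
    Measure.measurePreserving_swap
  have h2 := (h1.comp (Vmpl_low c)).comp h1
  have h3 : VmplL 1 c 0 1 = (Prod.swap ∘ VmplL 1 0 c 1) ∘ Prod.swap := by
    funext X
    ext <;> simp [VmplL] <;> ring
  rw [h3]
  exact h2

private theorem Vmpl_ne (p q r t : ℂ) (h : p * t - q * r = 1) (hr : r ≠ 0) :
    MeasurePreserving (VmplL p q r t) volume volume := by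
  have h1 := ((Vmpl_up ((p - 1) / r)).comp (Vmpl_low r)).comp (Vmpl_up ((t - 1) / r))
  have h3 : VmplL p q r t =
      (VmplL 1 ((p - 1) / r) 0 1 ∘ VmplL 1 0 r 1) ∘ VmplL 1 ((t - 1) / r) 0 1 := by
    funext X
    show _ = VmplL 1 ((p - 1) / r) 0 1 (VmplL 1 0 r 1 (VmplL 1 ((t - 1) / r) 0 1 X))
    rw [Vmpl_comp, Vmpl_comp]
    have e1 : p - 1 = (p - 1) / r * r := by field_simp
    have e2 : t - 1 = (t - 1) / r * r := by field_simp
    congr 1
    · linear_combination e1
    · field_simp
      linear_combination (-1 : ℂ) * h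
    · ring
    · linear_combination e2
  rw [h3]
  exact h1

private theorem Vmpl_all (p q r t : ℂ) (h : p * t - q * r = 1) :
    MeasurePreserving (VmplL p q r t) volume volume := by
  by_cases hr : r = 0
  · have hp : p ≠ 0 := by
      rintro rfl
      rw [hr] at h
      simp at h
    have h1 := (Vmpl_low (-1)).comp (Vmpl_ne p q (r + p) (t + q) (by linear_combination h)
      (by rw [hr, zero_add]; exact hp))
    have h3 : VmplL p q r t = VmplL 1 0 (-1) 1 ∘ VmplL p q (r + p) (t + q) := by
      funext X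
      show _ = VmplL 1 0 (-1) 1 (VmplL p q (r + p) (t + q) X)
      rw [Vmpl_comp]
      congr 1 <;> ring
    rw [h3]
    exact h1
  · exact Vmpl_ne p q r t h hr

private theorem Vmpl_dcont : Continuous dX := by
  unfold dX
  fun_prop

/-- the determinant -/
private theorem Vmpl_det {a b : ℤ} (g : GQ a b) :
    iC a b (g.val 0 0) * iC a b (g.val 1 1) - iC a b (g.val 0 1) * iC a b (g.val 1 0) = 1 := by
  have h1 := g.2
  rw [Matrix.det_fin_two] at h1
  rw [← map_mul, ← map_mul, ← map_sub]
  rw [h1, map_one]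

theorem p_Vmpl : V_mpl := by
  intro a b g
  have hdet := Vmpl_det g
  have h1 : MeasurePreserving (ac g) volume volume := Vmpl_all _ _ _ _ hdet
  have hS : MeasurableSet {X : MM | 0 < ‖dX X‖ ∧ ‖dX X‖ < 1} := by
    apply MeasurableSet.inter
    · exact (isOpen_lt continuous_const Vmpl_dcont.norm).measurableSet
    · exact (isOpen_lt Vmpl_dcont.norm continuous_const).measurableSet
  have h2 := h1.restrict_preimage hS
  have h3 : ac g ⁻¹' {X : MM | 0 < ‖dX X‖ ∧ ‖dX X‖ < 1} = {X : MM | 0 < ‖dX X‖ ∧ ‖dX X‖ < 1} := by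
    ext X
    have h4 : dX (ac g X) = dX X := by
      unfold dX ac
      simp only [Prod.fst_add, Prod.snd_add, Prod.smul_fst, Prod.smul_snd, smul_eq_mul]
      linear_combination (X.1.1 * X.2.2 - X.1.2 * X.2.1) * hdet
    rw [Set.mem_preimage, Set.mem_ofPred_eq, Set.mem_ofPred_eq, h4]
  rw [h3] at h2
  exact h2

end

end Pool.Agent.F8.CG
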