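import Pool.Agent.Lib.MP_305fdd_al.F8.CG.StmV

/-!
# MP_305fdd_al, congruence subgroups, block V: piece `Vmpr`
-/

set_option autoImplicit false

namespace Pool.Agent.F8.CG

open MeasureTheory

/-- the upper shear -/
private theorem Vmpr_U (c : ℂ) :
    MeasurePreserving (fun v : ℂ × ℂ => (v.1, v.2 + c * v.1)) volume volume := by
  have h := (MeasurePreserving.id (volume : Measure ℂ)).skew_product
    (μc := (volume : Measure ℂ)) (μd := (volume : Measure ℂ))
    (g := fun x y : ℂ => y + c * x) (by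
      show Measurable fun v : ℂ × ℂ => v.2 + c * v.1
      fun_prop) (Filter.Eventually.of_forall fun x =>
        (measurePreserving_add_right (volume : Measure ℂ) (c * x)).map_eq)
  exact h

private theorem Vmpr_swap :
    MeasurePreserving (Prod.swap : ℂ × ℂ → ℂ × ℂ) volume volume :=
  Measure.measurePreserving_swap

/-- the lower shear -/
private theorem Vmpr_L (c : ℂ) :
    MeasurePreserving (fun v : ℂ × ℂ => (v.1 + c * v.2, v.2)) volume volume :=
  (Vmpr_swap.comp (Vmpr_U c)).comp Vmpr_swap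

private theorem Vmpr_S :
    MeasurePreserving (fun v : ℂ × ℂ => (v.2, -v.1)) volume volume := by
  have h1 : MeasurePreserving (fun v : ℂ × ℂ => (v.1, -v.2)) volume volume :=
    (MeasurePreserving.id (volume : Measure ℂ)).prod
      (Measure.measurePreserving_neg (volume : Measure ℂ))
  exact h1.comp Vmpr_swap

private theorem Vmpr_D (l : ℂ) (hl : l ≠ 0) :
    MeasurePreserving (fun v : ℂ × ℂ => (l * v.1, l⁻¹ * v.2)) volume volume := by
  have h := Vmpr_S.comp ((Vmpr_U l).comp ((Vmpr_L (-l⁻¹)).comp (Vmpr_U l)))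
  have h2 : (fun v : ℂ × ℂ => (l * v.1, l⁻¹ * v.2)) =
      (fun v : ℂ × ℂ => (v.2, -v.1)) ∘ (fun v : ℂ × ℂ => (v.1, v.2 + l * v.1)) ∘
        (fun v : ℂ × ℂ => (v.1 + -l⁻¹ * v.2, v.2)) ∘ fun v : ℂ × ℂ => (v.1, v.2 + l * v.1) := by
    funext v
    simp only [Function.comp_apply, Prod.mk.injEq]
    constructor
    · field_simp
      ring
    · field_simp
      ring
  rw [h2]
  exact h

/-- from the rows to the matrices -/
private theorem Vmpr_main {r : ℂ × ℂ → ℂ × ℂ} (hr : MeasurePreserving r volume volume)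
    (hd : ∀ X : MM, dX (r X.1, r X.2) = dX X) :
    MeasurePreserving (fun X : MM => ((r X.1, r X.2) : MM)) mu0 mu0 := by
  have h1 : MeasurePreserving (fun X : MM => ((r X.1, r X.2) : MM)) volume volume :=
    hr.prod hr
  have hm : Measurable dX := by
    unfold dX
    fun_prop
  have hs : MeasurableSet {X : MM | 0 < ‖dX X‖ ∧ ‖dX X‖ < 1} :=
    (measurableSet_lt measurable_const hm.norm).inter (measurableSet_lt hm.norm measurable_const)
  have h2 := h1.restrict_preimage hs
  have h3 : (fun X : MM => ((r X.1, r X.2) : MM)) ⁻¹' {X : MM | 0 < ‖dX X‖ ∧ ‖dX X‖ < 1} =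
      {X : MM | 0 < ‖dX X‖ ∧ ‖dX X‖ < 1} := by
    ext X
    simp only [Set.mem_preimage, Set.mem_ofPred_eq, hd]
  rw [h3] at h2
  exact h2

theorem p_Vmpr : V_mpr := by
  refine ⟨fun c => ?_, fun l hl => ?_, ?_⟩
  · refine Vmpr_main (Vmpr_U c) fun X => ?_
    simp only [dX]
    ring
  · refine Vmpr_main (Vmpr_D l hl) fun X => ?_
    simp only [dX]
    field_simp
  · refine Vmpr_main Vmpr_S fun X => ?_
    simp only [dX]
    ring

end Pool.Agent.F8.CG
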