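import Pool.Agent.Lib.MP_305fdd_al.F8.CG.StmV

set_option autoImplicit false

namespace Pool.Agent.F8.CG

open Pool.Agent.F8.BG Pool.Agent.MP_305fdd_al Pool.Agent.Lib.MP_305fdd_al Pool.Agent.F8
open MeasureTheory
open scoped QuadraticAlgebra ENNReal ComplexConjugate

noncomputable section

private theorem Vnul_countable (a b : ℤ) (h : b ^ 2 + 4 * a < 0) : (kC a b).Countable := by
  have hinj : ∀ q : Qf a b ℤ, q ≠ 0 → iC a b q ≠ 0 := by
    intro q hq h0
    rw [iC_apply] at h0
    have him := congrArg Complex.im h0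
    have hre := congrArg Complex.re h0
    have hw := (wC_im h).ne'
    simp only [Complex.add_im, Complex.intCast_im, Complex.mul_im, Complex.intCast_re, zero_mul,
      Complex.zero_im, zero_add, add_zero] at him
    rcases mul_eq_zero.1 him with h1 | h1
    · have h2 : q.im = 0 := by exact_mod_cast h1
      rw [h2] at hre
      simp at hre
      apply hq
      ext
      · exact_mod_cast hre
      · exact h2
    · exact absurd h1 hw
  have hc : Countable (Qf a b ℤ) := by
    have : Function.Injective (fun q : Qf a b ℤ => (q.re, q.im)) := by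
      intro p q hpq
      simp only [Prod.mk.injEq] at hpq
      ext
      · exact hpq.1
      · exact hpq.2
    exact this.countable
  refine (Set.countable_range (fun z : Qf a b ℤ × Qf a b ℤ => iC a b z.1 / iC a b z.2)).mono ?_
  rintro x ⟨p, q, hq, hx⟩
  refine ⟨(p, q), ?_⟩
  show iC a b p / iC a b q = x
  rw [← hx, mul_div_assoc, div_self (hinj q hq), mul_one]

/-- a nonzero linear form on `ℂ × ℂ` avoids a countable set almost everywhere -/
private theorem Vnul_form (α : ℂ) (S : Set ℂ) (hS : S.Countable) :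
    (∀ᵐ v : ℂ × ℂ, v.1 ∉ S) ∧ ∀ᵐ v : ℂ × ℂ, α * v.1 + v.2 ∉ S := by
  constructor
  · have hm : MeasurableSet {v : ℂ × ℂ | v.1 ∉ S} := (hS.measurableSet.preimage measurable_fst).compl
    rw [Measure.volume_eq_prod, Measure.ae_prod_iff_ae_ae hm]
    have h1 : ∀ᵐ x : ℂ, x ∉ S := hS.ae_notMem volume
    filter_upwards [h1] with x hx
    exact Filter.Eventually.of_forall fun y => hx
  · have hm : MeasurableSet {v : ℂ × ℂ | α * v.1 + v.2 ∉ S} := by
      have hf : Measurable (fun v : ℂ × ℂ => α * v.1 + v.2) :=
        (measurable_fst.const_mul α).add measurable_snd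
      exact (hS.measurableSet.preimage hf).compl
    rw [Measure.volume_eq_prod, Measure.ae_prod_iff_ae_ae hm]
    refine Filter.Eventually.of_forall fun x => ?_
    have h1 : ((fun s => s - α * x) '' S).Countable := hS.image _
    filter_upwards [h1.ae_notMem volume] with y hy hxy
    exact hy ⟨α * x + y, hxy, by ring⟩

private theorem Vnul_main (L : ℂ × ℂ → ℂ) (hL : Measurable L)
    (h : ∀ S : Set ℂ, S.Countable → ∀ᵐ v : ℂ × ℂ, L v ∉ S) (a b : ℤ) (hk : (kC a b).Countable) :
    ∀ᵐ X : MM, Ir a b (L X.1, L X.2) := by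
  have hm : MeasurableSet {X : MM | Ir a b (L X.1, L X.2)} := by
    have h1 : MeasurableSet {X : MM | L X.2 ≠ 0} :=
      ((measurableSet_singleton (0 : ℂ)).preimage (hL.comp measurable_snd)).compl
    have h2 : MeasurableSet {X : MM | L X.1 / L X.2 ∉ kC a b} :=
      (hk.measurableSet.preimage ((hL.comp measurable_fst).div (hL.comp measurable_snd))).compl
    exact h1.inter h2
  rw [Measure.volume_eq_prod, Measure.ae_prod_iff_ae_ae hm, Measure.ae_ae_comm hm]
  filter_upwards [h {0} (Set.countable_singleton _)] with y hy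
  have hy0 : L y ≠ 0 := by simpa using hy
  have h3 : ((fun c => c * L y) '' kC a b).Countable := hk.image _
  filter_upwards [h _ h3] with x hx
  refine ⟨hy0, fun hxk => hx ⟨L x / L y, hxk, ?_⟩⟩
  show L x / L y * L y = L x
  rw [div_mul_cancel₀ _ hy0]

theorem p_Vnul (_hmpr : V_mpr) : V_nul := by
  intro a b hab x
  have hk := Vnul_countable a b hab
  have h1 := Vnul_main (fun v => v.1) measurable_fst (fun S hS => (Vnul_form 0 S hS).1) a b hk
  have h2 := Vnul_main (fun v => 0 * v.1 + v.2) ((measurable_fst.const_mul 0).add measurable_snd)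
    (fun S hS => (Vnul_form 0 S hS).2) a b hk
  have h3 := Vnul_main (fun v => x * v.1 + v.2) ((measurable_fst.const_mul x).add measurable_snd)
    (fun S hS => (Vnul_form x S hS).2) a b hk
  have h4 : ∀ᵐ X : MM, Ir a b (col1 X) ∧ Ir a b (col2 X) ∧ Ir a b (x • col1 X + col2 X) := by
    filter_upwards [h1, h2, h3] with X e1 e2 e3
    refine ⟨e1, ?_, e3⟩
    simpa [col2] using e2
  exact ae_restrict_of_ae h4

end

end Pool.Agent.F8.CG
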