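import Pool.Agent.Lib.MP_305fdd_al.F8.CG.StmV

set_option autoImplicit false

namespace Pool.Agent.F8.CG

open Pool.Agent.F8.BG Pool.Agent.MP_305fdd_al Pool.Agent.Lib.MP_305fdd_al Pool.Agent.F8
open MeasureTheory
open scoped QuadraticAlgebra ENNReal ComplexConjugate

noncomputable section

private theorem Vnum_count (a b : ℤ) : Countable (GQ a b) := by
  have : Countable (Qf a b ℤ) := (QuadraticAlgebra.equivProd ((a : ℤ) : ℤ) (b : ℤ)).countable_iff.2 inferInstance
  have : Countable (Matrix (Fin 2) (Fin 2) (Qf a b ℤ)) :=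
    inferInstanceAs (Countable (Fin 2 → Fin 2 → Qf a b ℤ))
  exact inferInstanceAs (Countable {A : Matrix (Fin 2) (Fin 2) (Qf a b ℤ) // A.det = 1})

private theorem Vnum_dX_cont : Continuous dX := by
  unfold dX
  fun_prop

private theorem Vnum_meas : MeasurableSet {X : MM | 0 < ‖dX X‖ ∧ ‖dX X‖ < 1} := by
  have h1 : Continuous fun X : MM => ‖dX X‖ := Vnum_dX_cont.norm
  exact ((isOpen_lt continuous_const h1).inter (isOpen_lt h1 continuous_const)).measurableSet

private theorem Vnum_sfin : SFinite mu0 := by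
  unfold mu0
  infer_instance

private theorem Vnum_ae : ∀ᵐ X ∂mu0, dX X ≠ 0 := by
  have h1 : ∀ᵐ X ∂mu0, X ∈ {X : MM | 0 < ‖dX X‖ ∧ ‖dX X‖ < 1} := ae_restrict_mem Vnum_meas
  filter_upwards [h1] with X hX
  exact norm_pos_iff.1 hX.1

theorem p_Vnum (hwt : V_wt) (hwtc : V_wtc) (hmpl : V_mpl) (hmpr : V_mpr) (hcov : V_cov)
    (hint : V_int) : V_num := by
  intro a b hD hEu hpid
  have := Vnum_count a b
  have := Vnum_sfin
  obtain ⟨hSg, hcv⟩ := hcov a b hD hEu hpid
  have hae : ∀ᵐ X ∂mu0, (∑' g : GQ a b, Sg.indicator 1 (ac g X) : ℝ≥0∞) ≠ 0 ∧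
      (∑' g : GQ a b, Sg.indicator 1 (ac g X) : ℝ≥0∞) ≠ ⊤ := by
    filter_upwards [Vnum_ae] with X hX
    obtain ⟨⟨g, hg⟩, hfin⟩ := hcv X hX
    constructor
    · intro h0
      have h1 := ENNReal.tsum_eq_zero.1 h0 g
      rw [Set.indicator_of_mem hg] at h1
      exact one_ne_zero h1
    · rw [tsum_eq_sum (s := hfin.toFinset)]
      · refine (ENNReal.sum_lt_top.2 fun g _ => ?_).ne
        by_cases hg : ac g X ∈ Sg
        · rw [Set.indicator_of_mem hg]
          exact ENNReal.one_lt_top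
        · rw [Set.indicator_of_notMem hg]
          exact ENNReal.zero_lt_top
      · intro g hg
        rw [Set.Finite.mem_toFinset] at hg
        exact Set.indicator_of_notMem (s := Sg) (a := ac g X) hg (1 : MM → ℝ≥0∞)
  obtain ⟨hw1, hw2⟩ := hwt MM (GQ a b) ac mu0 Sg ac_one ac_mul (hmpl a b) hSg hae
  have key : ∀ R R' : MM → MM, MeasurePreserving R mu0 mu0 → MeasurePreserving R' mu0 mu0 →
      (∀ x, R (R' x) = x) → (∀ x, R' (R x) = x) → (∀ (g : GQ a b) x, R (ac g x) = ac g (R x)) →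
      ∀ f : MM → ℂ, Measurable f → InvA a b f → Integrable f (nuM a b) →
      ∫ X, f (R X) ∂(nuM a b) = ∫ X, f X ∂(nuM a b) := by
    intro R R' hR hR' h1 h2 h3 f hf hinv hfi
    exact (hwtc MM (GQ a b) ac mu0 (nuM a b) R hR.measurable
      (fun F hF hFi => hw1 R R' hR hR' h1 h2 h3 F hF hFi) f hf hinv hfi).2
  refine ⟨?_, fun f hf hfi h0 => hw2 f hf hfi h0, ?_⟩
  · intro f hf hinv hfi
    refine ⟨fun c => ?_, fun l hl => ?_, ?_⟩
    · refine key (rU c) (rU (-c)) (hmpr.1 c) (hmpr.1 (-c)) ?_ ?_ (fun g X => ac_rU g c X) f hf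
        hinv hfi
      · intro X
        ext <;> simp [rU]
      · intro X
        ext <;> simp [rU]
    · refine key (rD l) (rD l⁻¹) (hmpr.2.1 l hl) (hmpr.2.1 l⁻¹ (inv_ne_zero hl)) ?_ ?_
        (fun g X => ac_rD g l X) f hf hinv hfi
      · intro X
        ext <;> simp [rD, hl]
      · intro X
        ext <;> simp [rD, hl]
    · refine key rS (rS ∘ rS ∘ rS) hmpr.2.2 (hmpr.2.2.comp (hmpr.2.2.comp hmpr.2.2)) ?_ ?_
        (fun g X => ac_rS g X) f hf hinv hfi
      · intro X
        ext <;> simp [rS]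
      · intro X
        ext <;> simp [rS]
  · have hle : nuM a b ≤ mu0.restrict Sg := by
      rw [← withDensity_indicator_one hSg]
      unfold nuM
      refine withDensity_mono (Filter.Eventually.of_forall fun X => ?_)
      by_cases hX : X ∈ Sg
      · simp only [Set.indicator_of_mem hX, Pi.one_apply, one_mul]
        rw [ENNReal.inv_le_one]
        unfold mlt
        refine le_trans (le_of_eq ?_) (ENNReal.le_tsum (1 : GQ a b))
        rw [ac_one, Set.indicator_of_mem hX]
        rfl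
      · simp only [Set.indicator_of_notMem hX, zero_mul]
        exact le_refl _
    refine Integrable.mono_measure ?_ hle
    have hc : Continuous fun X : MM => ‖X.1.1‖ ^ 2 + ‖X.1.2‖ ^ 2 + ‖X.2.1‖ ^ 2 + ‖X.2.2‖ ^ 2 := by
      fun_prop
    refine (lintegral_ofReal_ne_top_iff_integrable hc.aestronglyMeasurable
      (Filter.Eventually.of_forall fun X => ?_)).1 (ne_of_lt hint)
    simp only [Pi.zero_apply]
    positivity

end

end Pool.Agent.F8.CG
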