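import Pool.Agent.Lib.MP_305fdd_al.F8.CG.StmV

/-!
# MP_305fdd_al, congruence subgroups: the invariant function (V phi)
-/

set_option autoImplicit false

namespace Pool.Agent.F8.CG

open Pool.Agent.F8.BG Pool.Agent.MP_305fdd_al Pool.Agent.Lib.MP_305fdd_al Pool.Agent.F8
open MeasureTheory
open scoped QuadraticAlgebra ENNReal ComplexConjugate

/-- the defect is equivariant -/
private theorem Vphi_eqv {a b : ℤ} {Ω : Type} [MulAction (GQ a b) Ω] (A : Ω → ℂ → ℂ) (g : GQ a b)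
    (o : Ω) (c d : ℂ) (h : ∀ e : ℂ × ℂ, Ir a b e → Ir a b (va g e) ∧
      Fu a b A o (va g e) = Fu a b A (g⁻¹ • o) e + c * e.1 + d * e.2) (x : ℂ) (X : MM)
    (h1 : Ir a b (col1 X)) (h2 : Ir a b (col2 X)) (h3 : Ir a b (x • col1 X + col2 X)) :
    Au a b A o x (ac g X) = Au a b A (g⁻¹ • o) x X := by
  unfold Au
  rw [col1_ac, col2_ac, ← va_lin, (h _ h1).2, (h _ h2).2, (h _ h3).2]
  simp only [Prod.fst_add, Prod.snd_add, Prod.smul_fst, Prod.smul_snd, smul_eq_mul]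
  ring

/-- the homogeneous function grows at most linearly -/
private theorem Vphi_Fu {a b : ℤ} {Ω : Type} (A : Ω → ℂ → ℂ) (C : ℝ) (hC : 0 ≤ C)
    (h : ∀ (o : Ω) x, ‖tA a b A o x‖ ≤ C * (1 + ‖x‖)) (o : Ω) (e : ℂ × ℂ) :
    ‖Fu a b A o e‖ ≤ C * (‖e.1‖ + ‖e.2‖) := by
  unfold Fu
  rw [norm_mul]
  rcases eq_or_ne e.2 0 with h0 | h0
  · rw [h0, norm_zero, zero_mul]
    positivity
  · have hp : 0 < ‖e.2‖ := norm_pos_iff.mpr h0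
    calc ‖e.2‖ * ‖tA a b A o (e.1 / e.2)‖ ≤ ‖e.2‖ * (C * (1 + ‖e.1 / e.2‖)) :=
          mul_le_mul_of_nonneg_left (h o _) hp.le
      _ = C * (‖e.1‖ + ‖e.2‖) := by
          rw [norm_div]
          field_simp
          ring

private theorem Vphi_bd {a b : ℤ} {Ω : Type} (A : Ω → ℂ → ℂ) (C : ℝ) (hC : 0 ≤ C)
    (h : ∀ (o : Ω) x, ‖tA a b A o x‖ ≤ C * (1 + ‖x‖)) (o : Ω) (x : ℂ) (X : MM) :
    ‖Au a b A o x X‖ ≤ 2 * C * (1 + ‖x‖) * (‖X.1.1‖ + ‖X.1.2‖ + ‖X.2.1‖ + ‖X.2.2‖) := by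
  unfold Au
  have h1 := Vphi_Fu A C hC h o (x • col1 X + col2 X)
  have h2 := Vphi_Fu A C hC h o (col1 X)
  have h3 := Vphi_Fu A C hC h o (col2 X)
  simp only [Prod.fst_add, Prod.snd_add, Prod.smul_fst, Prod.smul_snd, smul_eq_mul, col1, col2]
    at h1 h2 h3
  have n1 : ‖x * X.1.1 + X.1.2‖ ≤ ‖x‖ * ‖X.1.1‖ + ‖X.1.2‖ :=
    (norm_add_le _ _).trans (by rw [norm_mul])
  have n2 : ‖x * X.2.1 + X.2.2‖ ≤ ‖x‖ * ‖X.2.1‖ + ‖X.2.2‖ :=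
    (norm_add_le _ _).trans (by rw [norm_mul])
  have n3 : ‖x * Fu a b A o (col1 X)‖ ≤ ‖x‖ * (C * (‖X.1.1‖ + ‖X.2.1‖)) := by
    rw [norm_mul]
    exact mul_le_mul_of_nonneg_left h2 (norm_nonneg _)
  have n4 : C * (‖x * X.1.1 + X.1.2‖ + ‖x * X.2.1 + X.2.2‖) ≤
      C * (‖x‖ * ‖X.1.1‖ + ‖X.1.2‖ + (‖x‖ * ‖X.2.1‖ + ‖X.2.2‖)) :=
    mul_le_mul_of_nonneg_left (add_le_add n1 n2) hC
  have n5 := norm_sub_le (Fu a b A o (x • col1 X + col2 X) - x * Fu a b A o (col1 X))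
    (Fu a b A o (col2 X))
  have n6 := norm_sub_le (Fu a b A o (x • col1 X + col2 X)) (x * Fu a b A o (col1 X))
  have p1 : 0 ≤ C * ‖X.1.1‖ := by positivity
  have p2 : 0 ≤ C * ‖X.2.1‖ := by positivity
  have p3 : 0 ≤ C * (‖x‖ * ‖X.1.2‖) := by positivity
  have p4 : 0 ≤ C * (‖x‖ * ‖X.2.2‖) := by positivity
  simp only [col1, col2] at n3 n5 n6 ⊢
  nlinarith [h1, n3, n4, n5, n6, h3, p1, p2, p3, p4]

set_option linter.unusedVariables false in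
theorem p_Vphi (hext : V_ext) (heqv : V_eqv) (hmpl : V_mpl) (hnul : V_nul) : V_phi := by
  intro a b hD hE Ω _ _ A hA x y
  obtain ⟨_, hm, ⟨C, hC, hb⟩, _, _⟩ := hext a b hD hE Ω A hA
  refine ⟨?_, ?_, 16 * C ^ 2 * (1 + ‖x‖) ^ 2, ?_⟩
  · intro g
    filter_upwards [hnul a b hD x, hnul a b hD y] with X hx hy
    have key : ∀ o : Ω, Au a b A o x (ac g X) * conj (Au a b A o y (ac g X)) =
        Au a b A (g⁻¹ • o) x X * conj (Au a b A (g⁻¹ • o) y X) := by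
      intro o
      obtain ⟨c, d, h⟩ := heqv a b hD hE Ω A hA g o
      rw [Vphi_eqv A g o c d h x X hx.1 hx.2.1 hx.2.2, Vphi_eqv A g o c d h y X hy.1 hy.2.1 hy.2.2]
    calc ∑ o, Au a b A o x (ac g X) * conj (Au a b A o y (ac g X))
        = ∑ o, Au a b A (g⁻¹ • o) x X * conj (Au a b A (g⁻¹ • o) y X) :=
          Finset.sum_congr rfl fun o _ => key o
      _ = ∑ o, Au a b A o x X * conj (Au a b A o y X) :=
          Equiv.sum_comp (MulAction.toPerm g⁻¹)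
            (fun o => Au a b A o x X * conj (Au a b A o y X))
  · intro o
    have hF : Measurable (Fu a b A o) := by
      unfold Fu
      exact measurable_snd.mul ((hm o).comp (measurable_fst.div measurable_snd))
    have m1 : Measurable (fun X : MM => col1 X) := by
      unfold col1
      fun_prop
    have m2 : Measurable (fun X : MM => col2 X) := by
      unfold col2
      fun_prop
    have m3 : Measurable (fun X : MM => x • col1 X + col2 X) := (m1.const_smul x).add m2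
    unfold Au
    exact ((hF.comp m3).sub ((hF.comp m1).const_mul x)).sub (hF.comp m2)
  · intro o X
    have h := Vphi_bd A C hC hb o x X
    have h0 : ‖Au a b A o x X‖ ^ 2 ≤
        (2 * C * (1 + ‖x‖) * (‖X.1.1‖ + ‖X.1.2‖ + ‖X.2.1‖ + ‖X.2.2‖)) ^ 2 :=
      pow_le_pow_left₀ (norm_nonneg _) h 2
    refine h0.trans ?_
    have hs : (‖X.1.1‖ + ‖X.1.2‖ + ‖X.2.1‖ + ‖X.2.2‖) ^ 2 ≤
        4 * (‖X.1.1‖ ^ 2 + ‖X.1.2‖ ^ 2 + ‖X.2.1‖ ^ 2 + ‖X.2.2‖ ^ 2) := by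
      nlinarith [sq_nonneg (‖X.1.1‖ - ‖X.1.2‖), sq_nonneg (‖X.1.1‖ - ‖X.2.1‖),
        sq_nonneg (‖X.1.1‖ - ‖X.2.2‖), sq_nonneg (‖X.1.2‖ - ‖X.2.1‖),
        sq_nonneg (‖X.1.2‖ - ‖X.2.2‖), sq_nonneg (‖X.2.1‖ - ‖X.2.2‖)]
    calc (2 * C * (1 + ‖x‖) * (‖X.1.1‖ + ‖X.1.2‖ + ‖X.2.1‖ + ‖X.2.2‖)) ^ 2
        = (4 * C ^ 2 * (1 + ‖x‖) ^ 2) * (‖X.1.1‖ + ‖X.1.2‖ + ‖X.2.1‖ + ‖X.2.2‖) ^ 2 := by ring
      _ ≤ (4 * C ^ 2 * (1 + ‖x‖) ^ 2) *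
          (4 * (‖X.1.1‖ ^ 2 + ‖X.1.2‖ ^ 2 + ‖X.2.1‖ ^ 2 + ‖X.2.2‖ ^ 2)) :=
          mul_le_mul_of_nonneg_left hs (by positivity)
      _ = _ := by ring

end Pool.Agent.F8.CG
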