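import Pool.Agent.Lib.MP_305fdd_al.F8.CG.StmV

set_option autoImplicit false

namespace Pool.Agent.F8.CG

open Pool.Agent.F8.BG Pool.Agent.MP_305fdd_al Pool.Agent.Lib.MP_305fdd_al Pool.Agent.F8
open MeasureTheory
open scoped QuadraticAlgebra ENNReal ComplexConjugate

noncomputable section

private theorem Vpt_norm {a b : ℤ} (h : b ^ 2 + 4 * a < 0) (q : Qf a b ℤ) :
    ‖iC a b q‖ ^ 2 = ((nq q : ℤ) : ℝ) := by
  have hD : (0 : ℝ) ≤ -((b ^ 2 + 4 * a : ℤ) : ℝ) := by
    have : ((b ^ 2 + 4 * a : ℤ) : ℝ) < 0 := by exact_mod_cast h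
    linarith
  have hre : (wC a b).re = (b : ℝ) / 2 := by
    rw [wC_eq h]
    simp
  have him : (wC a b).im = Real.sqrt (-((b ^ 2 + 4 * a : ℤ) : ℝ)) / 2 := by
    rw [wC_eq h]
    simp
  have hsq : Real.sqrt (-((b ^ 2 + 4 * a : ℤ) : ℝ)) ^ 2 = -((b ^ 2 + 4 * a : ℤ) : ℝ) :=
    Real.sq_sqrt hD
  have h1 : (iC a b q).re = (q.re : ℝ) + q.im * ((b : ℝ) / 2) := by
    rw [iC_apply]
    simp [hre]
  have h2 : (iC a b q).im = q.im * (Real.sqrt (-((b ^ 2 + 4 * a : ℤ) : ℝ)) / 2) := by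
    rw [iC_apply]
    simp only [Complex.add_im, Complex.intCast_im, Complex.mul_im, Complex.intCast_re, zero_mul,
      zero_add, add_zero, him]
  rw [← Complex.normSq_eq_norm_sq, Complex.normSq_apply, h1, h2]
  unfold nq
  push_cast at hsq ⊢
  linear_combination (q.im : ℝ) ^ 2 / 4 * hsq

private theorem Vpt_ne {a b : ℤ} (h : b ^ 2 + 4 * a < 0) {q : Qf a b ℤ} (hq : q ≠ 0) :
    iC a b q ≠ 0 := by
  intro h0
  have h1 := Vpt_norm h q
  rw [h0, norm_zero] at h1
  have h2 : nq q = 0 := by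
    have : ((nq q : ℤ) : ℝ) = 0 := by rw [← h1]; norm_num
    exact_mod_cast this
  exact hq (nq_eq_zero h h2)

private theorem Vpt_ring {a b : ℤ} (β : Qf a b ℤ) : iC a b β ∈ kC a b :=
  ⟨β, 1, one_ne_zero, by rw [map_one, mul_one]⟩

private theorem Vpt_zero {a b : ℤ} : (0 : ℂ) ∈ kC a b := by
  have := Vpt_ring (0 : Qf a b ℤ)
  rwa [map_zero] at this

private theorem Vpt_add {a b : ℤ} {x : ℂ} (hx : x ∈ kC a b) (β : Qf a b ℤ) :
    x + iC a b β ∈ kC a b := by
  obtain ⟨p, q, hq, h⟩ := hx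
  refine ⟨p + β * q, q, hq, ?_⟩
  rw [add_mul, h, map_add, map_mul]

private theorem Vpt_add' {a b : ℤ} {x : ℂ} (hx : x ∉ kC a b) (β : Qf a b ℤ) :
    x + iC a b β ∉ kC a b := by
  intro h
  apply hx
  have h1 := Vpt_add h (-β)
  rw [map_neg, add_neg_cancel_right] at h1
  exact h1

private theorem Vpt_inv {a b : ℤ} {x : ℂ} (hx : x ∈ kC a b) (hx0 : x ≠ 0)
    (h : b ^ 2 + 4 * a < 0) : -1 / x ∈ kC a b := by
  obtain ⟨p, q, hq, h1⟩ := hx
  have hp : p ≠ 0 := by
    rintro rfl
    rw [map_zero] at h1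
    rcases mul_eq_zero.1 h1 with h2 | h2
    · exact hx0 h2
    · exact Vpt_ne h hq h2
  refine ⟨-q, p, hp, ?_⟩
  rw [← h1, map_neg]
  field_simp

private theorem Vpt_inv' {a b : ℤ} {x : ℂ} (hx : x ∉ kC a b) (h : b ^ 2 + 4 * a < 0) :
    x ≠ 0 ∧ -1 / x ∉ kC a b := by
  have hx0 : x ≠ 0 := by
    rintro rfl
    exact hx Vpt_zero
  refine ⟨hx0, ?_⟩
  intro h1
  apply hx
  have h2 : -1 / x ≠ 0 := by
    apply div_ne_zero (by norm_num) hx0
  have h3 := Vpt_inv h1 h2 h
  have h4 : -1 / (-1 / x) = x := by field_simp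
  rwa [h4] at h3

private theorem Vpt_countable (a b : ℤ) (h : b ^ 2 + 4 * a < 0) : (kC a b).Countable := by
  have hc : Countable (Qf a b ℤ) := by
    have : Function.Injective (fun q : Qf a b ℤ => (q.re, q.im)) := by
      intro p q hpq
      simp only [Prod.mk.injEq] at hpq
      ext
      · exact hpq.1
      · exact hpq.2
    exact this.countable
  refine (Set.countable_range (fun z : Qf a b ℤ × Qf a b ℤ => iC a b z.1 / iC a b z.2)).mono ?_
  rintro x ⟨p, q, hq, hx⟩
  refine ⟨(p, q), ?_⟩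
  show iC a b p / iC a b q = x
  rw [← hx, mul_div_assoc, div_self (Vpt_ne h hq), mul_one]

/-- an affine function which vanishes on the irrational numbers is zero -/
private theorem Vpt_aff {a b : ℤ} (h : b ^ 2 + 4 * a < 0) {c d : ℂ}
    (hcd : ∀ x ∉ kC a b, c * x + d = 0) : c = 0 ∧ d = 0 := by
  obtain ⟨x, hx⟩ : ∃ x, x ∉ kC a b :=
    (Set.Countable.dense_compl ℝ (Vpt_countable a b h)).nonempty
  have h1 := hcd x hx
  have h2 := hcd (x + iC a b 1) (Vpt_add' hx 1)
  rw [map_one] at h2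
  have h3 : c = 0 := by linear_combination h2 - h1
  refine ⟨h3, ?_⟩
  rw [h3] at h1
  simpa using h1

private theorem Vpt_eU_mul {a b : ℤ} (x y : Qf a b ℤ) :
    (eU (x + y) : GQ a b) = eU x * eU y := by
  unfold eU
  rw [AB.mx_mul]
  apply AB.mx_congr <;> ring

private theorem Vpt_eU_pow {a b : ℤ} (x : Qf a b ℤ) (j : ℕ) :
    (eU ((j : Qf a b ℤ) * x) : GQ a b) = eU x ^ j := by
  induction j with
  | zero =>
    rw [pow_zero, Nat.cast_zero, zero_mul]
    apply Subtype.ext
    refine Matrix.ext fun i k => ?_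
    fin_cases i <;> fin_cases k <;> simp [eU, AB.mx]
  | succ j ih =>
    rw [pow_succ, ← ih, ← Vpt_eU_mul]
    congr 1
    push_cast
    ring

/-- some positive power acts trivially -/
private theorem Vpt_per {G Ω : Type} [Group G] [MulAction G Ω] [Finite Ω] (g : G) (o : Ω) :
    ∃ j : ℕ, 0 < j ∧ (g ^ j)⁻¹ • o = o := by
  have h1 : IsOfFinOrder (MulAction.toPermHom G Ω g) := isOfFinOrder_of_finite _
  obtain ⟨j, hj, h2⟩ := isOfFinOrder_iff_pow_eq_one.1 h1
  refine ⟨j, hj, ?_⟩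
  rw [← map_pow] at h2
  have h3 : MulAction.toPermHom G Ω (g ^ j) o = o := by rw [h2]; rfl
  have h4 : g ^ j • o = o := h3
  rw [inv_smul_eq_iff]
  exact h4.symm

theorem p_Vpt (hnul : V_nul) (hext : V_ext) (hzero : V_zero) (haff : V_aff) : V_pt := by
  intro a b hab hEu hPID Ω _ _ A hPS
  obtain ⟨hcont, -, -, hE1, hE2⟩ := hext a b hab hEu Ω A hPS
  have hz := hzero a b hab hEu hPID Ω A hPS
  have haf : ∀ o, ∃ α β : ℂ, ∀ z ∉ kC a b, tA a b A o z = α * z + β := fun o =>
    haff a b hab (hnul a b hab 1) Ω A o (hcont o) (hz o)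
  choose α β hαβ using haf
  -- the equations
  have e1 : ∀ (o : Ω) (γ : Qf a b ℤ), α o = α ((eU γ : GQ a b)⁻¹ • o) ∧
      A o (iC a b γ) = α o * iC a b γ + β o - β ((eU γ : GQ a b)⁻¹ • o) := by
    intro o γ
    have h1 : ∀ x ∉ kC a b, (α o - α ((eU γ : GQ a b)⁻¹ • o)) * x +
        (α o * iC a b γ + β o - A o (iC a b γ) - β ((eU γ : GQ a b)⁻¹ • o)) = 0 := by
      intro x hx
      have h2 := hE1 o γ x hx
      rw [hαβ o _ (Vpt_add' hx γ), hαβ _ x hx] at h2
      linear_combination h2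
    obtain ⟨h3, h4⟩ := Vpt_aff hab h1
    exact ⟨sub_eq_zero.1 h3, by linear_combination -h4⟩
  have e2 : ∀ o : Ω, α ((mS : GQ a b)⁻¹ • o) = β o ∧ β ((mS : GQ a b)⁻¹ • o) = -α o := by
    intro o
    have h1 : ∀ x ∉ kC a b, (α ((mS : GQ a b)⁻¹ • o) - β o) * x +
        (β ((mS : GQ a b)⁻¹ • o) + α o) = 0 := by
      intro x hx
      obtain ⟨hx0, hx1⟩ := Vpt_inv' hx hab
      have h2 := hE2 o x hx
      rw [hαβ _ x hx, hαβ o _ hx1] at h2
      have h3 : x * (α o * (-1 / x) + β o) = -α o + β o * x := by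
        field_simp
      rw [h3] at h2
      linear_combination h2
    obtain ⟨h3, h4⟩ := Vpt_aff hab h1
    exact ⟨sub_eq_zero.1 h3, by linear_combination h4⟩
  -- alpha is zero
  obtain ⟨N, hN, hlin⟩ := hPS.lin
  have hα : ∀ o, α o = 0 := by
    intro o
    obtain ⟨r, hr⟩ := hlin o
    have key : ∀ γ : Qf a b ℤ, α o * iC a b γ = r * conj (iC a b γ) := by
      intro γ
      obtain ⟨j, hj, hfix⟩ := Vpt_per (eU ((N : Qf a b ℤ) * γ) : GQ a b) o
      rw [← Vpt_eU_pow] at hfix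
      have h1 := (e1 o ((j : Qf a b ℤ) * ((N : Qf a b ℤ) * γ))).2
      rw [hfix] at h1
      have h2 := hr ((j : Qf a b ℤ) * γ)
      have h3 : (N : Qf a b ℤ) * ((j : Qf a b ℤ) * γ) =
          (j : Qf a b ℤ) * ((N : Qf a b ℤ) * γ) := by ring
      rw [h3, h1] at h2
      simp only [map_mul, map_natCast] at h2
      have hj0 : (j : ℂ) ≠ 0 := by exact_mod_cast hj.ne'
      have hN0 : (N : ℂ) ≠ 0 := by exact_mod_cast hN
      have h4 : (j : ℂ) * (N : ℂ) * (α o * iC a b γ - r * conj (iC a b γ)) = 0 := by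
        linear_combination h2
      rcases mul_eq_zero.1 h4 with h5 | h5
      · exact absurd h5 (mul_ne_zero hj0 hN0)
      · exact sub_eq_zero.1 h5
    have k1 := key 1
    rw [map_one, map_one, mul_one, mul_one] at k1
    have k2 := key ⟨0, 1⟩
    have h5 : iC a b ⟨0, 1⟩ = wC a b := by
      rw [iC_apply]
      simp
    rw [h5, ← k1] at k2
    have h6 : α o * (wC a b - conj (wC a b)) = 0 := by linear_combination k2
    rcases mul_eq_zero.1 h6 with h7 | h7
    · exact h7
    · exfalso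
      have h8 := congrArg Complex.im h7
      rw [Complex.sub_im, Complex.conj_im, Complex.zero_im] at h8
      have := wC_im hab
      linarith
  have hβ : ∀ o, β o = 0 := fun o => by rw [← (e2 o).1, hα]
  have hring : ∀ (o : Ω) (γ : Qf a b ℤ), A o (iC a b γ) = 0 := by
    intro o γ
    rw [(e1 o γ).2, hα, hβ, hβ]
    ring
  -- the induction
  have main : ∀ (n : ℕ) (q : Qf a b ℤ), (nq q).toNat ≤ n → q ≠ 0 → ∀ (o : Ω) (x : ℂ)
      (p : Qf a b ℤ), x * iC a b q = iC a b p → A o x = 0 := by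
    intro n
    induction n with
    | zero =>
      intro q hq hq0
      exfalso
      have h1 : nq q ≤ 0 := Int.toNat_eq_zero.1 (Nat.le_zero.1 hq)
      exact hq0 (nq_eq_zero hab (le_antisymm h1 (nq_nonneg hab q)))
    | succ n ih =>
      intro q hq hq0 o x p hx
      have hiq := Vpt_ne hab hq0
      obtain ⟨γ, hγ⟩ := hEu x
      set y : ℂ := x - iC a b γ with hy
      have hyk : y ∈ kC a b := by
        have := Vpt_add (⟨p, q, hq0, hx⟩ : x ∈ kC a b) (-γ)
        rwa [map_neg, ← sub_eq_add_neg] at this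
      have hxy : y + iC a b γ = x := by rw [hy]; ring
      have h1 := hPS.add o γ y hyk
      rw [hxy, hring, zero_add] at h1
      rw [h1]
      set o' : Ω := (eU γ : GQ a b)⁻¹ • o with ho'
      by_cases hy0 : y = 0
      · rw [hy0]
        have := hring o' 0
        rwa [map_zero] at this
      · have h2 := hPS.inv ((mS : GQ a b) • o') y hyk hy0
        rw [inv_smul_smul] at h2
        rw [h2]
        have h3 : y * iC a b q = iC a b (p - γ * q) := by
          rw [hy, sub_mul, hx, map_sub, map_mul]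
        have hq1 : p - γ * q ≠ 0 := by
          intro h4
          rw [h4, map_zero] at h3
          rcases mul_eq_zero.1 h3 with h5 | h5
          · exact hy0 h5
          · exact hiq h5
        have h4 : (nq (p - γ * q)).toNat ≤ n := by
          have h5 : ((nq (p - γ * q) : ℤ) : ℝ) < ((nq q : ℤ) : ℝ) := by
            rw [← Vpt_norm hab, ← Vpt_norm hab, ← h3, norm_mul, mul_pow]
            have h6 : 0 < ‖iC a b q‖ ^ 2 := by positivity
            have h7 : ‖y‖ ^ 2 < 1 := by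
              have h8 : 0 ≤ ‖y‖ := norm_nonneg y
              nlinarith
            nlinarith
          have h6 : nq (p - γ * q) < nq q := by exact_mod_cast h5
          have h7 := nq_nonneg hab (p - γ * q)
          omega
        have h5 : (-1 / y) * iC a b (p - γ * q) = iC a b (-q) := by
          rw [← h3, map_neg]
          field_simp
        rw [ih (p - γ * q) h4 hq1 ((mS : GQ a b) • o') (-1 / y) (-q) h5, mul_zero]
  intro o x hx
  obtain ⟨p, q, hq0, hx⟩ := hx
  exact main _ q le_rfl hq0 o x p hx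

end

end Pool.Agent.F8.CG
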