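import Pool.Agent.Lib.MP_305fdd_al.F8.CG.StmV

/-! Piece `Vtv` of project CG: transvections. -/

set_option autoImplicit false

namespace Pool.Agent.F8.CG

open Pool.Agent.F8.BG Pool.Agent.MP_305fdd_al Pool.Agent.Lib.MP_305fdd_al Pool.Agent.F8

private theorem Vtv_val {R : Type} [CommRing R] (e : Fin 2 → R) (t : R) :
    (tv e t).val = !![1 - t * e 0 * e 1, t * e 0 ^ 2; -(t * e 1 ^ 2), 1 + t * e 0 * e 1] := rfl

private theorem Vtv_mv {R : Type} [CommRing R] (M : Matrix (Fin 2) (Fin 2) R) (v : Fin 2 → R)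
    (i : Fin 2) : M.mulVec v i = M i 0 * v 0 + M i 1 * v 1 := by
  rw [Matrix.mulVec_eq_sum]
  simp [Fin.sum_univ_two, mul_comm]

theorem p_Vtv : V_tv := by
  intro R _ e s t
  refine ⟨?_, ?_, ?_, ?_, ?_, ?_⟩
  · intro v
    rw [Vtv_val]
    ext i
    rw [Vtv_mv]
    fin_cases i <;> simp [om] <;> ring
  · apply Subtype.ext
    rw [Matrix.SpecialLinearGroup.coe_mul, Vtv_val, Vtv_val, Vtv_val]
    ext i j
    fin_cases i <;> fin_cases j <;> simp [Matrix.mul_apply, Fin.sum_univ_two] <;> ring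
  · intro g
    rw [mul_inv_eq_iff_eq_mul]
    apply Subtype.ext
    rw [Matrix.SpecialLinearGroup.coe_mul, Matrix.SpecialLinearGroup.coe_mul, Vtv_val, Vtv_val]
    have hd : g.val 0 0 * g.val 1 1 - g.val 0 1 * g.val 1 0 = 1 := by
      rw [← Matrix.det_fin_two]
      exact g.2
    have h0 := Vtv_mv g.val e 0
    have h1 := Vtv_mv g.val e 1
    ext i j
    rw [Matrix.mul_apply, Matrix.mul_apply, Fin.sum_univ_two, Fin.sum_univ_two, h0, h1]
    fin_cases i <;> fin_cases j <;> simp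
    · linear_combination (t * (g.val 0 0 * e 0 + g.val 0 1 * e 1) * e 1) * hd
    · linear_combination (-(t * (g.val 0 0 * e 0 + g.val 0 1 * e 1) * e 0)) * hd
    · linear_combination (t * (g.val 1 0 * e 0 + g.val 1 1 * e 1) * e 1) * hd
    · linear_combination (-(t * (g.val 1 0 * e 0 + g.val 1 1 * e 1) * e 0)) * hd
  · intro l
    apply Subtype.ext
    rw [Vtv_val, Vtv_val]
    ext i j
    fin_cases i <;> fin_cases j <;> simp <;> ring
  · apply Subtype.ext
    rw [Vtv_val]
    show _ = !![1, t; 0, 1]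
    ext i j
    fin_cases i <;> fin_cases j <;> simp
  · intro g v
    have hd : g.val 0 0 * g.val 1 1 - g.val 0 1 * g.val 1 0 = 1 := by
      rw [← Matrix.det_fin_two]
      exact g.2
    unfold om
    rw [Vtv_mv, Vtv_mv, Vtv_mv, Vtv_mv]
    linear_combination (e 0 * v 1 - e 1 * v 0) * hd

end Pool.Agent.F8.CG
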