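import Pool.Agent.Lib.MP_305fdd_al.F8.CG.StmV

/-! Piece `Vvt` of project CG: the vanishing theorem. -/

set_option autoImplicit false

namespace Pool.Agent.F8.CG

open Pool.Agent.F8.BG Pool.Agent.MP_305fdd_al Pool.Agent.Lib.MP_305fdd_al Pool.Agent.F8
open scoped QuadraticAlgebra ComplexConjugate

noncomputable section

private theorem Vvt_inj {a b : ℤ} (h : b ^ 2 + 4 * a < 0) {x y : Qf a b ℤ}
    (hxy : iC a b x = iC a b y) : x = y := by
  rw [iC_apply, iC_apply] at hxy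
  have him := wC_im h
  have h1 := congrArg Complex.im hxy
  simp only [Complex.add_im, Complex.intCast_im, Complex.mul_im, Complex.intCast_re, zero_mul,
    add_zero, zero_add] at h1
  have h2 : x.im = y.im := by
    have : ((x.im : ℤ) : ℝ) = y.im := mul_right_cancel₀ him.ne' h1
    exact_mod_cast this
  have h3 := congrArg Complex.re hxy
  rw [h2] at h3
  have h4 : x.re = y.re := by
    simp only [Complex.add_re, Complex.intCast_re] at h3
    have : ((x.re : ℤ) : ℝ) = y.re := by linarith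
    exact_mod_cast this
  exact QuadraticAlgebra.ext h4 h2

private theorem Vvt_mv {R : Type} [CommRing R] (M : Matrix (Fin 2) (Fin 2) R) (v : Fin 2 → R)
    (i : Fin 2) : M.mulVec v i = M i 0 * v 0 + M i 1 * v 1 := by
  rw [Matrix.mulVec_eq_sum]
  simp [Fin.sum_univ_two, mul_comm]

private theorem Vvt_vC {a b : ℤ} (g : GQ a b) (e : Fin 2 → Qf a b ℤ) :
    vC a b (g.val.mulVec e) = (iG a b g).val.mulVec (vC a b e) := by
  funext i
  rw [Vvt_mv]
  show iC a b (g.val.mulVec e i) = iC a b (g.val i 0) * iC a b (e 0) + iC a b (g.val i 1) * iC a b (e 1)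
  rw [Vvt_mv, map_add, map_mul, map_mul]

private theorem Vvt_mulVec {a b : ℤ} (g h : GQ a b) (e : Fin 2 → Qf a b ℤ) :
    (g * h).val.mulVec e = g.val.mulVec (h.val.mulVec e) := by
  rw [Matrix.mulVec_mulVec]
  rfl

/-- the defect -/
private def Vvt_T {a b : ℤ} (f : (Fin 2 → Qf a b ℤ) → ℂ) (g : GQ a b) (p q : Qf a b ℤ) : ℂ :=
  f (g.val.mulVec ![p, q]) - iC a b p * f (g.val.mulVec ![1, 0]) -
    iC a b q * f (g.val.mulVec ![0, 1])

private theorem Vvt_Tinv {a b : ℤ} {W : Subgroup (GQ a b)} {z : W → Fin 2 → ℂ}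
    {f : (Fin 2 → Qf a b ℤ) → ℂ} (hf : HF W z f) (x : W) (g : GQ a b) (p q : Qf a b ℤ) :
    Vvt_T f (x.val * g) p q = Vvt_T f g p q := by
  unfold Vvt_T
  rw [Vvt_mulVec, Vvt_mulVec, Vvt_mulVec, hf.eqv, hf.eqv, hf.eqv]
  have h1 : om (vC a b (x.val.val.mulVec (g.val.mulVec ![p, q]))) (z x) =
      iC a b p * om (vC a b (x.val.val.mulVec (g.val.mulVec ![1, 0]))) (z x) +
      iC a b q * om (vC a b (x.val.val.mulVec (g.val.mulVec ![0, 1]))) (z x) := by
    unfold om vC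
    simp only [Vvt_mv, map_add, map_mul, Matrix.cons_val_zero, Matrix.cons_val_one, map_one,
      map_zero]
    ring
  rw [h1]
  ring

private theorem Vvt_Tsmul {a b : ℤ} {W : Subgroup (GQ a b)} {z : W → Fin 2 → ℂ}
    {f : (Fin 2 → Qf a b ℤ) → ℂ} (hf : HF W z f) (g : GQ a b) (l p q : Qf a b ℤ) :
    Vvt_T f g (l * p) (l * q) = iC a b l * Vvt_T f g p q := by
  unfold Vvt_T
  have h1 : (![l * p, l * q] : Fin 2 → Qf a b ℤ) = l • ![p, q] := by
    funext i
    fin_cases i <;> simp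
  rw [h1, Matrix.mulVec_smul, hf.hom, map_mul, map_mul]
  ring

open Classical in
/-- the functions `A` -/
private def Vvt_A {a b : ℤ} (W : Subgroup (GQ a b)) (f : (Fin 2 → Qf a b ℤ) → ℂ)
    (o : GQ a b ⧸ W) (x : ℂ) : ℂ :=
  if h : x ∈ kC a b then
    Vvt_T f (Quotient.out o)⁻¹ h.choose h.choose_spec.choose / iC a b h.choose_spec.choose
  else 0

private theorem Vvt_A_spec {a b : ℤ} (hD : b ^ 2 + 4 * a < 0) {W : Subgroup (GQ a b)}
    {z : W → Fin 2 → ℂ} {f : (Fin 2 → Qf a b ℤ) → ℂ} (hf : HF W z f) (g : GQ a b)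
    (p q : Qf a b ℤ) (hq : q ≠ 0) (x : ℂ) (hx : x * iC a b q = iC a b p) :
    Vvt_A W f (QuotientGroup.mk g⁻¹) x = Vvt_T f g p q / iC a b q := by
  have h : x ∈ kC a b := ⟨p, q, hq, hx⟩
  unfold Vvt_A
  rw [dif_pos h]
  set p' := h.choose with hp'
  set q' := h.choose_spec.choose with hq'
  have hs : q' ≠ 0 ∧ x * iC a b q' = iC a b p' := h.choose_spec.choose_spec
  obtain ⟨hq0, hx'⟩ := hs
  have hi : ∀ u : Qf a b ℤ, u ≠ 0 → iC a b u ≠ 0 := by
    intro u hu h0
    apply hu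
    apply Vvt_inj hD
    rw [h0, map_zero]
  -- the representative
  set k : GQ a b := Quotient.out (QuotientGroup.mk g⁻¹ : GQ a b ⧸ W) with hk
  have hk1 : (QuotientGroup.mk k : GQ a b ⧸ W) = QuotientGroup.mk g⁻¹ := Quotient.out_eq _
  have hk2 : k⁻¹ * g⁻¹ ∈ W := QuotientGroup.eq.1 hk1
  have hk3 : k⁻¹ = (⟨k⁻¹ * g⁻¹, hk2⟩ : W).val * g := by
    show k⁻¹ = k⁻¹ * g⁻¹ * g
    group
  have hT : Vvt_T f k⁻¹ p' q' = Vvt_T f g p' q' := by
    rw [hk3]
    exact Vvt_Tinv hf ⟨k⁻¹ * g⁻¹, hk2⟩ g p' q'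
  rw [hT, div_eq_div_iff (hi q' hq0) (hi q hq)]
  have h1 : q * p' = q' * p := by
    apply Vvt_inj hD
    rw [map_mul, map_mul, ← hx, ← hx']
    ring
  have h2 := Vvt_Tsmul hf g q p' q'
  have h3 := Vvt_Tsmul hf g q' p q
  rw [h1, mul_comm q q'] at h2
  rw [h2] at h3
  linear_combination h3

private theorem Vvt_mk {a b : ℤ} {W : Subgroup (GQ a b)} (o : GQ a b ⧸ W) :
    ∃ g : GQ a b, o = QuotientGroup.mk g⁻¹ := by
  refine ⟨(Quotient.out o)⁻¹, ?_⟩
  rw [inv_inv]
  exact (Quotient.out_eq o).symm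

private theorem Vvt_act {a b : ℤ} {W : Subgroup (GQ a b)} (g h : GQ a b) :
    h⁻¹ • (QuotientGroup.mk g⁻¹ : GQ a b ⧸ W) = QuotientGroup.mk (g * h)⁻¹ := by
  rw [MulAction.Quotient.smul_mk, smul_eq_mul, mul_inv_rev]

private theorem Vvt_eU {a b : ℤ} (β : Qf a b ℤ) (v : Fin 2 → Qf a b ℤ) :
    (eU β : GQ a b).val.mulVec v = ![v 0 + β * v 1, v 1] := by
  funext i
  rw [Vvt_mv]
  fin_cases i <;> simp [eU, AB.mx]

private theorem Vvt_mS {a b : ℤ} (v : Fin 2 → Qf a b ℤ) :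
    (mS : GQ a b).val.mulVec v = ![-v 1, v 0] := by
  funext i
  rw [Vvt_mv]
  fin_cases i <;> simp [mS, AB.mx]

private theorem Vvt_PS {a b : ℤ} (hD : b ^ 2 + 4 * a < 0) (htv : V_tv) {W : Subgroup (GQ a b)}
    {z : W → Fin 2 → ℂ} {f : (Fin 2 → Qf a b ℤ) → ℂ} (hf : HF W z f) :
    PS a b (Vvt_A W f) where
  add := by
    intro o β x hx
    obtain ⟨g, rfl⟩ := Vvt_mk o
    obtain ⟨p, q, hq, hpq⟩ := hx
    have hq' : iC a b q ≠ 0 := by
      intro h0
      apply hq
      apply Vvt_inj hD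
      rw [h0, map_zero]
    rw [Vvt_act, Vvt_A_spec hD hf (g * eU β) p q hq x hpq,
      Vvt_A_spec hD hf g (p + β * q) q hq (x + iC a b β) (by
        rw [map_add, map_mul, ← hpq]
        ring),
      Vvt_A_spec hD hf g β 1 one_ne_zero (iC a b β) (by rw [map_one, mul_one])]
    unfold Vvt_T
    rw [Vvt_mulVec, Vvt_mulVec, Vvt_mulVec, Vvt_eU, Vvt_eU, Vvt_eU]
    simp only [Matrix.cons_val_zero, Matrix.cons_val_one, mul_zero, add_zero, mul_one, zero_add,
      map_one, map_add, map_mul, div_one]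
    field_simp
    ring
  inv := by
    intro o x hx hx0
    obtain ⟨g, rfl⟩ := Vvt_mk o
    obtain ⟨p, q, hq, hpq⟩ := hx
    have hq' : iC a b q ≠ 0 := by
      intro h0
      apply hq
      apply Vvt_inj hD
      rw [h0, map_zero]
    have hp' : iC a b p ≠ 0 := by
      rw [← hpq]
      exact mul_ne_zero hx0 hq'
    have hp : p ≠ 0 := by
      rintro rfl
      exact hp' (map_zero _)
    have hxe : x = iC a b p / iC a b q := by
      rw [← hpq]
      field_simp
    rw [Vvt_act, Vvt_A_spec hD hf (g * mS) p q hq x hpq,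
      Vvt_A_spec hD hf g (-q) p hp (-1 / x) (by
        rw [map_neg, ← hpq]
        field_simp)]
    have h1 : f (g.val.mulVec ![-1, 0]) = -f (g.val.mulVec ![1, 0]) := by
      have h2 : (![-1, 0] : Fin 2 → Qf a b ℤ) = (-1 : Qf a b ℤ) • ![1, 0] := by
        funext i
        fin_cases i <;> simp
      rw [h2, Matrix.mulVec_smul, hf.hom, map_neg, map_one]
      ring
    unfold Vvt_T
    rw [Vvt_mulVec, Vvt_mulVec, Vvt_mulVec, Vvt_mS, Vvt_mS, Vvt_mS]
    simp only [Matrix.cons_val_zero, Matrix.cons_val_one, neg_zero]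
    rw [h1, map_neg, hxe]
    field_simp
    ring
  lin := by
    obtain ⟨N, hN, huni⟩ := hf.uni
    refine ⟨N, hN, ?_⟩
    intro o
    obtain ⟨g, rfl⟩ := Vvt_mk o
    have hom1 : om (g.val.mulVec ![1, 0]) (g.val.mulVec ![0, 1]) = 1 := by
      rw [(htv (Qf a b ℤ) ![1, 0] 0 0).2.2.2.2.2 g ![0, 1]]
      simp [om]
    have he : g.val.mulVec ![1, 0] ≠ 0 := by
      intro h0
      rw [h0] at hom1
      simp [om] at hom1
    obtain ⟨r, hr⟩ := huni _ he
    refine ⟨r, ?_⟩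
    intro β
    rw [Vvt_A_spec hD hf g (N * β) 1 one_ne_zero (iC a b (N * β)) (by rw [map_one, mul_one])]
    obtain ⟨hW, hz⟩ := hr β
    have h1 := hf.eqv ⟨_, hW⟩ (g.val.mulVec ![0, 1])
    have h2 : (tv (g.val.mulVec ![1, 0]) (N * β)).val.mulVec (g.val.mulVec ![0, 1]) =
        g.val.mulVec ![N * β, 1] := by
      rw [(htv (Qf a b ℤ) _ 0 (N * β)).1, hom1, mul_one, ← Matrix.mulVec_smul, ← Matrix.mulVec_add]
      congr 1
      funext i
      fin_cases i <;> simp
    change f ((tv (g.val.mulVec ![1, 0]) (N * β)).val.mulVec (g.val.mulVec ![0, 1])) = _ -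
      om (vC a b ((tv (g.val.mulVec ![1, 0]) (N * β)).val.mulVec (g.val.mulVec ![0, 1]))) _ at h1
    rw [h2, hz] at h1
    set c := iC a b (N * β) * f (g.val.mulVec ![1, 0]) + conj (iC a b (N * β)) * r with hc
    have h3 : om (vC a b (g.val.mulVec ![N * β, 1])) (c • vC a b (g.val.mulVec ![1, 0])) =
        -c := by
      have h4 := congrArg (iC a b) hom1
      unfold om at h4 ⊢
      unfold vC
      rw [map_sub, map_mul, map_mul, map_one] at h4
      simp only [Vvt_mv, Matrix.cons_val_zero, Matrix.cons_val_one, mul_one, mul_zero, add_zero,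
        zero_add, Pi.smul_apply, smul_eq_mul, map_add, map_mul] at h4 ⊢
      linear_combination (-c) * h4
    rw [h3] at h1
    unfold Vvt_T
    rw [h1, hc, map_one]
    ring

theorem p_Vvt (hpt : V_pt) (htv : V_tv) (hhf : V_hf) : V_vt := by
  intro a b hD hE hP W hW z hz hu
  obtain ⟨f, hf⟩ := hhf a b hD W hW z hz hu
  have : Finite (GQ a b ⧸ W) := Subgroup.finite_quotient_of_finiteIndex
  have hA := hpt a b hD hE hP (GQ a b ⧸ W) (Vvt_A W f) (Vvt_PS hD htv hf)
  have hi : ∀ u : Qf a b ℤ, u ≠ 0 → iC a b u ≠ 0 := by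
    intro u hu h0
    apply hu
    apply Vvt_inj hD
    rw [h0, map_zero]
  have hlin : ∀ e : Fin 2 → Qf a b ℤ, f e = iC a b (e 0) * f ![1, 0] + iC a b (e 1) * f ![0, 1] := by
    intro e
    by_cases hq : e 1 = 0
    · have h1 : e = (e 0) • ![1, 0] := by
        funext i
        fin_cases i <;> simp [hq]
      rw [hq, map_zero, zero_mul, add_zero, ← hf.hom, ← h1]
    · have h1 := Vvt_A_spec hD hf 1 (e 0) (e 1) hq (iC a b (e 0) / iC a b (e 1))
        (div_mul_cancel₀ _ (hi _ hq))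
      rw [hA _ _ ⟨e 0, e 1, hq, div_mul_cancel₀ _ (hi _ hq)⟩] at h1
      have h2 : Vvt_T f 1 (e 0) (e 1) = 0 := by
        rcases div_eq_zero_iff.1 h1.symm with h3 | h3
        · exact h3
        · exact absurd h3 (hi _ hq)
      unfold Vvt_T at h2
      have h3 : ∀ v : Fin 2 → Qf a b ℤ, (1 : GQ a b).val.mulVec v = v := fun v => Matrix.one_mulVec v
      rw [h3, h3, h3] at h2
      have h4 : (![e 0, e 1] : Fin 2 → Qf a b ℤ) = e := by
        funext i
        fin_cases i <;> simp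
      rw [h4] at h2
      linear_combination h2
  refine ⟨![-f ![0, 1], f ![1, 0]], ?_⟩
  set v : Fin 2 → ℂ := ![-f ![0, 1], f ![1, 0]] with hv
  have hfv : ∀ e, f e = om (vC a b e) v := by
    intro e
    rw [hlin e]
    unfold om vC
    rw [hv]
    simp only [Matrix.cons_val_zero, Matrix.cons_val_one]
    ring
  intro x
  have key : ∀ e : Fin 2 → Qf a b ℤ,
      om (vC a b (x.val.val.mulVec e)) (z x) =
      om (vC a b (x.val.val.mulVec e)) ((iG a b x.val).val.mulVec v) -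
        om (vC a b (x.val.val.mulVec e)) v := by
    intro e
    have h1 := hf.eqv x e
    rw [hfv, hfv e] at h1
    have h2 := (htv ℂ (vC a b e) 0 0).2.2.2.2.2 (iG a b x.val) v
    rw [← Vvt_vC] at h2
    rw [← h2] at h1
    linear_combination h1
  have hinv : ∀ e : Fin 2 → Qf a b ℤ, x.val.val.mulVec ((x.val)⁻¹.val.mulVec e) = e := by
    intro e
    rw [← Vvt_mulVec, mul_inv_cancel]
    exact Matrix.one_mulVec e
  have k0 := key ((x.val)⁻¹.val.mulVec ![1, 0])
  have k1 := key ((x.val)⁻¹.val.mulVec ![0, 1])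
  rw [hinv] at k0 k1
  unfold om vC at k0 k1
  simp only [Matrix.cons_val_zero, Matrix.cons_val_one, map_one, map_zero, zero_mul, one_mul,
    sub_zero, zero_sub] at k0 k1
  funext i
  fin_cases i
  · show z x 0 = ((iG a b x.val).val.mulVec v - v) 0
    rw [Pi.sub_apply]
    linear_combination (-1 : ℂ) * k1
  · show z x 1 = ((iG a b x.val).val.mulVec v - v) 1
    rw [Pi.sub_apply]
    linear_combination k0

end

end Pool.Agent.F8.CG
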