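import Pool.Agent.Lib.MP_305fdd_al.F8.CG.StmV

/-!
# MP_305fdd_al, congruence subgroups, block V: piece `Vwtc`
-/

set_option autoImplicit false

namespace Pool.Agent.F8.CG

open MeasureTheory
open scoped ENNReal

private theorem Vwtc_real {M : Type} [MeasurableSpace M] {ν : Measure M} {R : M → M}
    {u : M → ℝ} (hu : Integrable u ν) (hu' : Integrable (fun x => u (R x)) ν)
    (h1 : ∫⁻ x, ENNReal.ofReal (u (R x)) ∂ν = ∫⁻ x, ENNReal.ofReal (u x) ∂ν)
    (h2 : ∫⁻ x, ENNReal.ofReal (-u (R x)) ∂ν = ∫⁻ x, ENNReal.ofReal (-u x) ∂ν) :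
    ∫ x, u (R x) ∂ν = ∫ x, u x ∂ν := by
  rw [integral_eq_lintegral_pos_part_sub_lintegral_neg_part hu,
    integral_eq_lintegral_pos_part_sub_lintegral_neg_part hu', h1, h2]

theorem p_Vwtc : V_wtc := by
  intro M Γ _ act μ ν R hR hyp f hf hinv hint
  have hint' : Integrable (fun x => f (R x)) ν := by
    refine ⟨(hf.comp hR).aestronglyMeasurable, ?_⟩
    have h1 := hyp (fun x => ‖f x‖ₑ) hf.enorm (fun g => by
      filter_upwards [hinv g] with x hx
      rw [hx])
    have h2 : ∫⁻ x, ‖f x‖ₑ ∂ν < ⊤ := hint.2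
    show ∫⁻ x, ‖f (R x)‖ₑ ∂ν < ⊤
    rw [h1]
    exact h2
  refine ⟨hint', ?_⟩
  have hre : ∫ x, RCLike.re (f (R x)) ∂ν = ∫ x, RCLike.re (f x) ∂ν := by
    refine Vwtc_real (R := R) (u := fun x => RCLike.re (f x)) hint.re hint'.re ?_ ?_
    · refine hyp (fun x => ENNReal.ofReal (RCLike.re (f x))) ?_ fun g => ?_
      · exact (RCLike.measurable_re.comp hf).ennreal_ofReal
      · filter_upwards [hinv g] with x hx
        rw [hx]
    · refine hyp (fun x => ENNReal.ofReal (-RCLike.re (f x))) ?_ fun g => ?_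
      · exact (RCLike.measurable_re.comp hf).neg.ennreal_ofReal
      · filter_upwards [hinv g] with x hx
        rw [hx]
  have him : ∫ x, RCLike.im (f (R x)) ∂ν = ∫ x, RCLike.im (f x) ∂ν := by
    refine Vwtc_real (R := R) (u := fun x => RCLike.im (f x)) hint.im hint'.im ?_ ?_
    · refine hyp (fun x => ENNReal.ofReal (RCLike.im (f x))) ?_ fun g => ?_
      · exact (RCLike.measurable_im.comp hf).ennreal_ofReal
      · filter_upwards [hinv g] with x hx
        rw [hx]
    · refine hyp (fun x => ENNReal.ofReal (-RCLike.im (f x))) ?_ fun g => ?_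
      · exact (RCLike.measurable_im.comp hf).neg.ennreal_ofReal
      · filter_upwards [hinv g] with x hx
        rw [hx]
  rw [← integral_re_add_im hint, ← integral_re_add_im hint', hre, him]

end Pool.Agent.F8.CG
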