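import Pool.Agent.Lib.MP_305fdd_al.F8.CG.StmV

/-!
# MP_305fdd_al, congruence subgroups: piece [CG Vzero]
-/

set_option autoImplicit false

namespace Pool.Agent.F8.CG

open Pool.Agent.F8.BG Pool.Agent.MP_305fdd_al Pool.Agent.Lib.MP_305fdd_al Pool.Agent.F8
open MeasureTheory
open scoped QuadraticAlgebra ENNReal ComplexConjugate

noncomputable section

/-- the kernel function -/
private def Vzero_ph (a b : ℤ) {Ω : Type} [Fintype Ω] (A : Ω → ℂ → ℂ) (x y : ℂ) (X : MM) : ℂ :=
  ∑ o, Au a b A o x X * conj (Au a b A o y X)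

private theorem Vzero_rU (a b : ℤ) {Ω : Type} [Fintype Ω] (A : Ω → ℂ → ℂ) (x y c : ℂ) (X : MM) :
    Vzero_ph a b A x y (rU c X) = Vzero_ph a b A (x + c) (y + c) X - Vzero_ph a b A c (y + c) X -
      Vzero_ph a b A (x + c) c X + Vzero_ph a b A c c X := by
  unfold Vzero_ph
  rw [← Finset.sum_sub_distrib, ← Finset.sum_sub_distrib, ← Finset.sum_add_distrib]
  refine Finset.sum_congr rfl fun o _ => ?_
  rw [Au_rU, Au_rU, map_sub]
  ring

private theorem Vzero_rD (a b : ℤ) {Ω : Type} [Fintype Ω] (A : Ω → ℂ → ℂ) (x y l : ℂ)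
    (hl : l ≠ 0) (X : MM) : Vzero_ph a b A x y (rD l X) =
      (l⁻¹ * conj l⁻¹) * Vzero_ph a b A (l ^ 2 * x) (l ^ 2 * y) X := by
  unfold Vzero_ph
  rw [Finset.mul_sum]
  refine Finset.sum_congr rfl fun o _ => ?_
  rw [Au_rD a b A o x l hl, Au_rD a b A o y l hl, map_mul]
  ring

private theorem Vzero_rS (a b : ℤ) {Ω : Type} [Fintype Ω] (A : Ω → ℂ → ℂ) (x y : ℂ)
    (hx : x ≠ 0) (hy : y ≠ 0) (X : MM) : Vzero_ph a b A x y (rS X) =
      (x * conj y) * Vzero_ph a b A (-1 / x) (-1 / y) X := by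
  unfold Vzero_ph
  rw [Finset.mul_sum]
  refine Finset.sum_congr rfl fun o _ => ?_
  rw [Au_rS a b A o x hx, Au_rS a b A o y hy, map_mul]
  ring

private theorem Vzero_conj (a b : ℤ) {Ω : Type} [Fintype Ω] (A : Ω → ℂ → ℂ) (x y : ℂ)
    (X : MM) : Vzero_ph a b A y x X = conj (Vzero_ph a b A x y X) := by
  unfold Vzero_ph
  rw [map_sum]
  refine Finset.sum_congr rfl fun o _ => ?_
  rw [map_mul, Complex.conj_conj, mul_comm]

private theorem Vzero_self (a b : ℤ) {Ω : Type} [Fintype Ω] (A : Ω → ℂ → ℂ) (x : ℂ) (X : MM) :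
    Vzero_ph a b A x x X = ((∑ o, ‖Au a b A o x X‖ ^ 2 : ℝ) : ℂ) := by
  unfold Vzero_ph
  push_cast
  refine Finset.sum_congr rfl fun o _ => ?_
  rw [Complex.mul_conj, Complex.normSq_eq_norm_sq]
  push_cast
  rfl

theorem p_Vzero (hnum : V_num) (hker : V_ker) (hphi : V_phi) : V_zero := by
  intro a b hD hE hP Ω _ _ A hA o₀
  have : Fintype Ω := Fintype.ofFinite Ω
  obtain ⟨N1, N2, N3⟩ := hnum a b hD hE hP
  have hphi' := hphi a b hD hE Ω A hA
  have hm : ∀ o x, Measurable (Au a b A o x) := fun o x => (hphi' x x).2.1 o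
  have hinv : ∀ x y, InvA a b (Vzero_ph a b A x y) := fun x y => (hphi' x y).1
  have hbd : ∀ x, ∃ C : ℝ, ∀ o X, ‖Au a b A o x X‖ ^ 2 ≤
      C * (‖X.1.1‖ ^ 2 + ‖X.1.2‖ ^ 2 + ‖X.2.1‖ ^ 2 + ‖X.2.2‖ ^ 2) := fun x => (hphi' x x).2.2
  -- integrability
  have hint1 : ∀ o x y, Integrable (fun X => Au a b A o x X * conj (Au a b A o y X)) (nuM a b) := by
    intro o x y
    obtain ⟨C, hC⟩ := hbd x
    obtain ⟨C', hC'⟩ := hbd y
    refine Integrable.mono' (N3.const_mul ((C + C') / 2)) ?_ ?_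
    · exact ((hm o x).mul (Complex.continuous_conj.measurable.comp (hm o y))).aestronglyMeasurable
    · refine Filter.Eventually.of_forall fun X => ?_
      rw [norm_mul, RCLike.norm_conj]
      have h1 := hC o X
      have h2 := hC' o X
      nlinarith [sq_nonneg (‖Au a b A o x X‖ - ‖Au a b A o y X‖)]
  have hint : ∀ x y, Integrable (Vzero_ph a b A x y) (nuM a b) := fun x y =>
    integrable_finsetSum _ fun o _ => hint1 o x y
  have hmeas : ∀ x y, Measurable (Vzero_ph a b A x y) := fun x y =>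
    Finset.measurable_sum _ fun o _ =>
      (hm o x).mul (Complex.continuous_conj.measurable.comp (hm o y))
  -- the kernel
  have key : ∫ X, Vzero_ph a b A 1 1 X ∂(nuM a b) = 0 := by
    refine hker (fun x y => ∫ X, Vzero_ph a b A x y X ∂(nuM a b)) ?_ ?_ ?_ ?_ ?_
    · intro x y
      show ∫ X, Vzero_ph a b A y x X ∂(nuM a b) = conj (∫ X, Vzero_ph a b A x y X ∂(nuM a b))
      rw [← integral_conj]
      exact integral_congr_ae (Filter.Eventually.of_forall fun X => Vzero_conj a b A x y X)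
    · intro y
      show ∫ X, Vzero_ph a b A 0 y X ∂(nuM a b) = 0
      have h1 : ∀ X, Vzero_ph a b A 0 y X = 0 := by
        intro X
        unfold Vzero_ph
        refine Finset.sum_eq_zero fun o _ => ?_
        rw [Au_zero, zero_mul]
      simp only [h1, integral_zero]
    · intro x y c
      show ∫ X, Vzero_ph a b A x y X ∂(nuM a b) =
        ∫ X, Vzero_ph a b A (x + c) (y + c) X ∂(nuM a b) -
        ∫ X, Vzero_ph a b A c (y + c) X ∂(nuM a b) -
        ∫ X, Vzero_ph a b A (x + c) c X ∂(nuM a b) + ∫ X, Vzero_ph a b A c c X ∂(nuM a b)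
      have i1 : Integrable (fun X => Vzero_ph a b A (x + c) (y + c) X -
          Vzero_ph a b A c (y + c) X) (nuM a b) := (hint _ _).sub (hint _ _)
      have i2 : Integrable (fun X => Vzero_ph a b A (x + c) (y + c) X -
          Vzero_ph a b A c (y + c) X - Vzero_ph a b A (x + c) c X) (nuM a b) := i1.sub (hint _ _)
      rw [← (N1 _ (hmeas x y) (hinv x y) (hint x y)).1 c, ← integral_sub (hint _ _) (hint _ _),
        ← integral_sub i1 (hint _ _), ← integral_add i2 (hint _ _)]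
      exact integral_congr_ae (Filter.Eventually.of_forall fun X => Vzero_rU a b A x y c X)
    · intro μ x y hμ
      show ∫ X, Vzero_ph a b A (μ * x) (μ * y) X ∂(nuM a b) =
        ‖μ‖ * ∫ X, Vzero_ph a b A x y X ∂(nuM a b)
      obtain ⟨l, hl⟩ := IsSquare.exists_sq μ (IsAlgClosed.exists_pow_nat_eq μ (n := 2) two_pos
        |>.elim fun z hz => ⟨z, by rw [← hz, sq]⟩)
      have hl0 : l ≠ 0 := by
        rintro rfl
        exact hμ (by rw [hl]; ring)
      rw [← (N1 _ (hmeas x y) (hinv x y) (hint x y)).2.1 l hl0]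
      have h1 : ∀ X, Vzero_ph a b A x y (rD l X) =
          (l⁻¹ * conj l⁻¹) * Vzero_ph a b A (μ * x) (μ * y) X := by
        intro X
        rw [Vzero_rD a b A x y l hl0, ← hl]
      simp only [h1]
      rw [integral_const_mul, ← mul_assoc]
      have h2 : (‖μ‖ : ℂ) * (l⁻¹ * conj l⁻¹) = 1 := by
        rw [Complex.mul_conj, Complex.normSq_eq_norm_sq, norm_inv, hl, norm_pow]
        have h3 : (‖l‖ : ℂ) ≠ 0 := by
          rw [Complex.ofReal_ne_zero, norm_ne_zero_iff]
          exact hl0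
        push_cast
        field_simp
      rw [h2, one_mul]
    · intro x y hx hy
      show ∫ X, Vzero_ph a b A x y X ∂(nuM a b) =
        x * conj y * ∫ X, Vzero_ph a b A (-1 / x) (-1 / y) X ∂(nuM a b)
      rw [← (N1 _ (hmeas x y) (hinv x y) (hint x y)).2.2, ← integral_const_mul]
      exact integral_congr_ae (Filter.Eventually.of_forall fun X => Vzero_rS a b A x y hx hy X)
  -- the real integral
  have hre : ∫ X, (∑ o, ‖Au a b A o 1 X‖ ^ 2 : ℝ) ∂(nuM a b) = 0 := by
    have h1 : ∫ X, ((∑ o, ‖Au a b A o 1 X‖ ^ 2 : ℝ) : ℂ) ∂(nuM a b) = 0 := by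
      rw [← key]
      exact integral_congr_ae (Filter.Eventually.of_forall fun X => (Vzero_self a b A 1 X).symm)
    rw [integral_complex_ofReal] at h1
    exact_mod_cast h1
  have hri : Integrable (fun X => (∑ o, ‖Au a b A o 1 X‖ ^ 2 : ℝ)) (nuM a b) := by
    have h1 := (hint 1 1).re
    refine h1.congr (Filter.Eventually.of_forall fun X => ?_)
    show RCLike.re (Vzero_ph a b A 1 1 X) = _
    rw [Vzero_self]
    exact Complex.ofReal_re _
  have h0 : ∫⁻ X, ENNReal.ofReal (∑ o, ‖Au a b A o 1 X‖ ^ 2) ∂(nuM a b) = 0 := by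
    rw [← ofReal_integral_eq_lintegral_ofReal hri
      (Filter.Eventually.of_forall fun X => Finset.sum_nonneg fun o _ => by positivity), hre,
      ENNReal.ofReal_zero]
  have h1 := N2 (fun X => ENNReal.ofReal (∑ o, ‖Au a b A o 1 X‖ ^ 2))
    (ENNReal.measurable_ofReal.comp
      (Finset.measurable_sum _ fun o _ => ((hm o 1).norm.pow_const 2))) ?_ h0
  · filter_upwards [h1] with X hX
    rw [ENNReal.ofReal_eq_zero] at hX
    have h2 := (Finset.sum_eq_zero_iff_of_nonneg (fun o _ => by positivity)).1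
      (le_antisymm hX (Finset.sum_nonneg fun o _ => by positivity)) o₀ (Finset.mem_univ _)
    have h3 : ‖Au a b A o₀ 1 X‖ = 0 := by
      exact pow_eq_zero_iff (two_ne_zero) |>.1 h2
    exact norm_eq_zero.1 h3
  · intro g
    filter_upwards [hinv 1 1 g] with X hX
    rw [Vzero_self, Vzero_self] at hX
    have h2 : (∑ o, ‖Au a b A o 1 (ac g X)‖ ^ 2 : ℝ) = ∑ o, ‖Au a b A o 1 X‖ ^ 2 := by
      exact_mod_cast hX
    simp only [h2]

end

end Pool.Agent.F8.CG
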