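import Pool.Agent.Lib.MP_305fdd_al.F8.CG.P_Uext
import Pool.Agent.Lib.MP_305fdd_al.F8.CG.P_Ugr
import Pool.Agent.Lib.MP_305fdd_al.F8.CG.P_Ulb
import Pool.Agent.Lib.MP_305fdd_al.F8.CG.P_Uld
import Pool.Agent.Lib.MP_305fdd_al.F8.CG.P_Uub
import Pool.Agent.Lib.MP_305fdd_al.F8.CG.P_Uw
import Pool.Agent.Lib.MP_305fdd_al.F8.CG.P_Uwg
import Pool.Agent.Lib.MP_305fdd_al.F8.CG.P_Vaff
import Pool.Agent.Lib.MP_305fdd_al.F8.CG.P_Vcov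
import Pool.Agent.Lib.MP_305fdd_al.F8.CG.P_Veqv
import Pool.Agent.Lib.MP_305fdd_al.F8.CG.P_Veu
import Pool.Agent.Lib.MP_305fdd_al.F8.CG.P_Vext
import Pool.Agent.Lib.MP_305fdd_al.F8.CG.P_Vgen
import Pool.Agent.Lib.MP_305fdd_al.F8.CG.P_Vgr
import Pool.Agent.Lib.MP_305fdd_al.F8.CG.P_Vhf
import Pool.Agent.Lib.MP_305fdd_al.F8.CG.P_Vint
import Pool.Agent.Lib.MP_305fdd_al.F8.CG.P_Vker
import Pool.Agent.Lib.MP_305fdd_al.F8.CG.P_Vlim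
import Pool.Agent.Lib.MP_305fdd_al.F8.CG.P_Vmpl
import Pool.Agent.Lib.MP_305fdd_al.F8.CG.P_Vmpr
import Pool.Agent.Lib.MP_305fdd_al.F8.CG.P_Vnul
import Pool.Agent.Lib.MP_305fdd_al.F8.CG.P_Vnum
import Pool.Agent.Lib.MP_305fdd_al.F8.CG.P_Vphi
import Pool.Agent.Lib.MP_305fdd_al.F8.CG.P_Vpt
import Pool.Agent.Lib.MP_305fdd_al.F8.CG.P_Vtv
import Pool.Agent.Lib.MP_305fdd_al.F8.CG.P_Vvt
import Pool.Agent.Lib.MP_305fdd_al.F8.CG.P_Vwt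
import Pool.Agent.Lib.MP_305fdd_al.F8.CG.P_Vwtc
import Pool.Agent.Lib.MP_305fdd_al.F8.CG.P_Vzero
import Pool.Agent.Lib.MP_305fdd_al.F8.CG.P_Lalg
import Pool.Agent.Lib.MP_305fdd_al.F8.CG.P_Lbd
import Pool.Agent.Lib.MP_305fdd_al.F8.CG.P_Lcoc
import Pool.Agent.Lib.MP_305fdd_al.F8.CG.P_Lcu
import Pool.Agent.Lib.MP_305fdd_al.F8.CG.P_Leis
import Pool.Agent.Lib.MP_305fdd_al.F8.CG.P_Lkap
import Pool.Agent.Lib.MP_305fdd_al.F8.CG.P_Llat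
import Pool.Agent.Lib.MP_305fdd_al.F8.CG.MainT

/-!
# MP_305fdd_al, congruence subgroups: assembly of the blocks V, L, U (the dimension formula)
-/

set_option autoImplicit false

namespace Pool.Agent.F8.CG

theorem m_Vext : V_ext := p_Vext p_Vgr (p_Vlim p_Vgr)

theorem m_Vnum : V_num := p_Vnum p_Vwt p_Vwtc p_Vmpl p_Vmpr p_Vcov p_Vint

theorem m_Vnul : V_nul := p_Vnul p_Vmpr

theorem m_Vphi : V_phi := p_Vphi m_Vext (p_Veqv p_Vgen m_Vext) p_Vmpl m_Vnul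

theorem m_Vzero : V_zero := p_Vzero m_Vnum p_Vker m_Vphi

theorem m_Vpt : V_pt := p_Vpt m_Vnul m_Vext m_Vzero p_Vaff

theorem m_Vvt : V_vt := p_Vvt m_Vpt p_Vtv (p_Vhf p_Vtv)

theorem m_Lbd : L_bd := p_Lbd p_Lalg

theorem m_Leis : L_eis :=
  p_Leis (p_Lcoc p_Lalg m_Lbd p_Llat) (p_Lkap p_Lalg m_Lbd p_Llat) p_Lcu

theorem m_Uub : U_ub := p_Uub p_Vtv m_Vvt

theorem m_Ulb : U_lb := p_Ulb (p_Uw p_Ugr) (p_Uwg p_Uext) m_Leis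

/-- The dimension formula. -/
theorem m_Uld : U_ld := p_Uld p_Veu m_Uub m_Ulb m_Ear

end Pool.Agent.F8.CG
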