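import Pool.Agent.Lib.MP_305fdd_al.F8.CG.StmJ

/-!
# MP_305fdd_al, congruence subgroups: [CG J act] existence
-/

set_option autoImplicit false

namespace Pool.Agent.F8.CG

open Pool.Agent.F8.BG Pool.Agent.MP_305fdd_al Pool.Agent.Lib.MP_305fdd_al Pool.Agent.F8
open scoped QuadraticAlgebra

noncomputable section

/-- matrices which are conjugate by a matrix with nonzero determinant have the same trace -/
private theorem Jact_tr {R : Type} [CommRing R] [IsDomain R] (A : Matrix (Fin 2) (Fin 2) R)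
    (hA : A.det ≠ 0) (z z' : SL2 R) (h : z'.val * A = A * z.val) : tr z' = tr z := by
  have h1 : z'.val * (A * A.adjugate) = A * z.val * A.adjugate := by
    rw [← Matrix.mul_assoc, h]
  have h2 := congrArg Matrix.trace h1
  rw [Matrix.mul_adjugate, Matrix.trace_mul_cycle, Matrix.adjugate_mul, Matrix.mul_smul,
    Matrix.smul_mul, Matrix.mul_one, Matrix.one_mul, Matrix.trace_smul, Matrix.trace_smul] at h2
  exact mul_left_cancel₀ hA h2

theorem p_Jact (hcj : J_cj) (hpi : J_pi) : J_act := by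
  intro a b K _ φ Γ m₀ m₁ Λ _ Φ Q _ _ π L ρ H F l
  have hdom : IsDomain (Qf a b ℤ) := Qf_domain H.neg
  have hm1 : (1 : GQ a b) ∈ Gam a b m₀ := Subgroup.one_mem _
  -- the kernel is contained in `L`
  have hL : ∀ x : Λ, Φ.toFun Q π x = 1 → x ∈ L := by
    intro x hx
    rw [H.memL]
    refine ⟨1, hm1, ?_⟩
    have h1 : (⟨pcQ φ 1, H.le 1 hm1⟩ : Γ) = 1 := Subtype.ext (map_one (pcQ φ))
    rw [hx, h1, map_one]
  have hle : (Φ.toFun Q π).ker ≤ L := fun x hx => hL x hx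
  let ρ₁ : (Φ.toFun Q π).ker →* GQ a b := ρ.comp (Subgroup.inclusion hle)
  let ρ₂ : (Φ.toFun Q π).ker →* GQ a b := ρ₁.comp (MulAut.conjNormal l).toMonoidHom
  have hrng : Gam a b m₁ ≤ ρ₁.range := by
    intro y hy
    have hy0 : y ∈ Gam a b m₀ := gam_le H.dvd hy
    have hy1 : y ∈ ρ.range := by rw [H.rng]; exact hy0
    obtain ⟨x, hx⟩ := hy1
    have hx0 : pcQ φ (ρ x) ∈ Γ := H.le _ (by rw [hx]; exact hy0)
    have h1 := hpi a b K φ Γ m₀ m₁ Λ Φ Q π L ρ H x hx0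
    have h2 : π ⟨pcQ φ (ρ x), hx0⟩ = 1 := H.ker' _ ⟨y, hy, (congrArg (pcQ φ) hx).symm⟩
    rw [h2] at h1
    exact ⟨⟨x.val, h1⟩, hx⟩
  have htr : ∀ x : (Φ.toFun Q π).ker, tr (ρ₂ x) = tr (ρ₁ x) := by
    intro x
    have hxL : x.val ∈ L := hle x.2
    have hyk : l * x.val * l⁻¹ ∈ (Φ.toFun Q π).ker :=
      (Φ.toFun Q π).normal_ker.conj_mem _ x.2 l
    have hyL : l * x.val * l⁻¹ ∈ L := hle hyk
    have e1 : ρ₁ x = ρ ⟨x.val, hxL⟩ := rfl
    have e2 : ρ₂ x = ρ ⟨l * x.val * l⁻¹, hyL⟩ := by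
      show ρ (Subgroup.inclusion hle (MulAut.conjNormal l x)) = _
      congr 1
    rw [e1, e2]
    apply eq_of_all
    intro k _
    obtain ⟨R, _, _, θ, h, hh, hap⟩ := H.apx k
    obtain ⟨γ, hγ1, hγ2⟩ := pair_val Φ θ π l
    obtain ⟨ν, hν1, hν2⟩ := pair_val Φ θ π x.val
    have hν2' : π ν = 1 := by rw [hν2]; exact x.2
    obtain ⟨z, hz, hzν⟩ := H.ker ν hν2'
    obtain ⟨z', hz', hzν'⟩ := H.ker (γ * ν * γ⁻¹) (by
      rw [map_mul, map_mul, hν2', mul_one, map_inv, mul_inv_cancel])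
    have a1 : θ ⟨pcQ φ z, H.le z hz⟩ = Φ.toFun R θ x.val := by
      have h1 : (⟨pcQ φ z, H.le z hz⟩ : Γ) = ν := Subtype.ext hzν
      rw [h1, hν1]
    have a2 : θ ⟨pcQ φ z', H.le z' hz'⟩ = Φ.toFun R θ (l * x.val * l⁻¹) := by
      have h1 : (⟨pcQ φ z', H.le z' hz'⟩ : Γ) = γ * ν * γ⁻¹ := Subtype.ext hzν'
      rw [h1, map_mul, map_mul, map_inv, hν1, hγ1, map_mul, map_mul, map_inv]
    have b1 := hap ⟨x.val, hxL⟩ z hz a1
    have b2 := hap ⟨l * x.val * l⁻¹, hyL⟩ z' hz' a2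
    obtain ⟨A, hA⟩ := F.ex γ.val
    have hcz := hcj a b H.neg K φ F m₀ H.h5 A γ.val hA z hz z' hz' (by
      rw [hzν', hzν]
      show γ.val * ν.val * γ.val⁻¹ * γ.val = γ.val * ν.val
      rw [inv_mul_cancel_right])
    have htz : tr z' = tr z := Jact_tr A (F.det A _ hA) z z' hcz
    have c1 : ∀ w : GQ a b, tr (h * w * h⁻¹) = tr w := by
      intro w
      rw [tr_mul_comm', ← mul_assoc, inv_mul_cancel, one_mul]
    have d1 : ∀ w : GQ a b, Qfm a b (Int.castRingHom (ZMod k)) (tr w) = tr (rdq a b k w) :=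
      fun w => (tr_map _ _).symm
    rw [d1, d1, b1, b2, ← d1, ← d1, c1, c1, htz]
  obtain ⟨A, hA0, hA⟩ := p_Wsk a b H.neg _ ρ₁ ρ₂ m₁ H.ne hrng htr
  obtain ⟨τ, hτ⟩ := F.of A hA0
  refine ⟨τ, A, hτ, fun x y hx hy => ?_⟩
  have h1 := hA ⟨x.val, hx⟩
  have e1 : ρ₁ ⟨x.val, hx⟩ = ρ x := rfl
  have e2 : ρ₂ ⟨x.val, hx⟩ = ρ y := by
    show ρ (Subgroup.inclusion hle (MulAut.conjNormal l ⟨x.val, hx⟩)) = _
    congr 1
    exact Subtype.ext hy.symm
  rw [e1, e2] at h1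
  exact h1

end

end Pool.Agent.F8.CG
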