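import Pool.Agent.Lib.MP_305fdd_al.F8.CG.StmJ

/-!
# MP_305fdd_al, congruence subgroups: conjugate elements of `Γ(m₀)` (piece Jcj)
-/

set_option autoImplicit false

namespace Pool.Agent.F8.CG

open Pool.Agent.F8.BG Pool.Agent.MP_305fdd_al Pool.Agent.Lib.MP_305fdd_al Pool.Agent.F8
open scoped QuadraticAlgebra

noncomputable section

private theorem Jcj_diag {a b : ℤ} {m : ℕ} {z : GQ a b} (hz : z ∈ Gam a b m) (i : Fin 2) :
    (m : Qf a b ℤ) ∣ z.val i i - 1 := by
  apply E_ker
  have h1 : rdq a b m z = 1 := hz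
  have h2 : (rdq a b m z).val i i = Qfm a b (Int.castRingHom (ZMod m)) (z.val i i) := rfl
  rw [map_sub, map_one, ← h2, h1, Matrix.SpecialLinearGroup.coe_one, Matrix.one_apply_eq, sub_self]

/-- [CG Jcj] conjugate elements of `Γ(m₀)`. -/
theorem p_Jcj : J_cj := by
  intro a b hab K _ φ hR m₀ hm A γ hA z hz z' hz' hc
  have hdom : IsDomain (Qf a b ℤ) := Qf_domain hab
  have hA0 := hR.det A γ hA
  have h1 := hR.mul _ _ _ _ (hR.pc z') hA
  have h2 := hR.mul _ _ _ _ hA (hR.pc z)
  rw [← hc] at h2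
  obtain ⟨s, t, hs, ht, hst⟩ := hR.eq _ _ _ h1 h2
  have hd := congrArg Matrix.det hst
  rw [Matrix.det_smul, Matrix.det_smul, Matrix.det_mul, Matrix.det_mul, z.2, z'.2, one_mul,
    mul_one, Fintype.card_fin] at hd
  have hst2 : s ^ 2 = t ^ 2 := mul_right_cancel₀ hA0 hd
  rcases sq_eq_sq_iff_eq_or_eq_neg.1 hst2 with h | h
  · rw [h] at hst
    ext1 i j
    have h3 := congrFun (congrFun hst i) j
    rw [Matrix.smul_apply, Matrix.smul_apply, smul_eq_mul, smul_eq_mul] at h3
    exact mul_left_cancel₀ ht h3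
  · exfalso
    have h4 : z'.val * A = -(A * z.val) := by
      apply Matrix.ext
      intro i j
      have h3 := congrFun (congrFun hst i) j
      rw [Matrix.smul_apply, Matrix.smul_apply, smul_eq_mul, smul_eq_mul, h, neg_mul,
        ← mul_neg] at h3
      have h5 := mul_left_cancel₀ ht h3
      rw [Matrix.neg_apply, ← h5, neg_neg]
    have h5 : (z'.val * A * A.adjugate).trace = -(A * z.val * A.adjugate).trace := by
      rw [h4, Matrix.neg_mul, Matrix.trace_neg]
    rw [mul_assoc, Matrix.mul_adjugate, Matrix.trace_mul_comm (A * z.val), ← mul_assoc,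
      Matrix.adjugate_mul, Matrix.mul_smul, Matrix.smul_mul, mul_one, one_mul, Matrix.trace_smul,
      Matrix.trace_smul, smul_eq_mul, smul_eq_mul, ← mul_neg] at h5
    have h6 := mul_left_cancel₀ hA0 h5
    rw [Matrix.trace_fin_two, Matrix.trace_fin_two] at h6
    have h7 : (m₀ : Qf a b ℤ) ∣ 4 := by
      have e : (4 : Qf a b ℤ) = -((z'.val 0 0 - 1) + (z'.val 1 1 - 1) + (z.val 0 0 - 1) +
          (z.val 1 1 - 1)) := by
        linear_combination h6
      rw [e, dvd_neg]
      exact dvd_add (dvd_add (dvd_add (Jcj_diag hz' 0) (Jcj_diag hz' 1)) (Jcj_diag hz 0))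
        (Jcj_diag hz 1)
    obtain ⟨q, hq⟩ := h7
    have h8 := congrArg QuadraticAlgebra.re hq
    have h9 : (4 : ℤ) = (m₀ : ℤ) * q.re := by
      rw [QuadraticAlgebra.re_mul] at h8
      simpa using h8
    have h10 : (m₀ : ℤ) ∣ 4 := ⟨_, h9⟩
    have h11 := Int.le_of_dvd (by norm_num) h10
    omega

end

end Pool.Agent.F8.CG
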