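import Pool.Agent.Lib.MP_305fdd_al.F8.CG.StmJ

/-!
# MP_305fdd_al, congruence subgroups: piece Jcmp, the comparison of `τ` with an element of `Γ` (helper33)
-/

set_option autoImplicit false

namespace Pool.Agent.F8.CG

open Pool.Agent.F8.BG Pool.Agent.MP_305fdd_al Pool.Agent.Lib.MP_305fdd_al Pool.Agent.F8
open scoped QuadraticAlgebra

noncomputable section

/-- `Γ(m)` for a multiple. -/
private theorem Jcmp_le {a b : ℤ} {m k : ℕ} (h : m ∣ k) {x : GQ a b} (hx : x ∈ Gam a b k) :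
    x ∈ Gam a b m := con_red h hx

private theorem Jcmp_U (a b : ℤ) (m : ℕ) : (eU (m : Qf a b ℤ)) ∈ Gam a b m := by
  have hm0 : Qfm a b (Int.castRingHom (ZMod m)) (m : Qf a b ℤ) = 0 := by
    rw [map_natCast]
    apply QuadraticAlgebra.ext
    · simp
    · simp
  show rdq a b m (eU (m : Qf a b ℤ)) = 1
  rw [rdq, eU_map, hm0]
  apply Subtype.ext
  funext i j
  fin_cases i <;> fin_cases j <;> rfl

private theorem Jcmp_V (a b : ℤ) (m : ℕ) : (eV (m : Qf a b ℤ)) ∈ Gam a b m := by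
  have hm0 : Qfm a b (Int.castRingHom (ZMod m)) (m : Qf a b ℤ) = 0 := by
    rw [map_natCast]
    apply QuadraticAlgebra.ext
    · simp
    · simp
  show rdq a b m (eV (m : Qf a b ℤ)) = 1
  rw [rdq, eV_map, hm0]
  apply Subtype.ext
  funext i j
  fin_cases i <;> fin_cases j <;> rfl

/-- a matrix which commutes with `eU m`, `eV m` modulo `m k` is scalar modulo `k` -/
private theorem Jcmp_sc {a b : ℤ} (hn : b ^ 2 + 4 * a < 0) (m k : ℕ) (hm : m ≠ 0) (B : MQ a b)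
    (h : ∀ g ∈ Gam a b m, ∀ i j, ((m * k : ℕ) : Qf a b ℤ) ∣ (B * g.val - g.val * B) i j) :
    ScQ k B := by
  have hdom : IsDomain (Qf a b ℤ) := Qf_domain hn
  have hm' : (m : Qf a b ℤ) ≠ 0 := by
    intro h0
    have h1 := congrArg QuadraticAlgebra.re h0
    simp at h1
    exact hm h1
  have key : ∀ x : Qf a b ℤ, ((m * k : ℕ) : Qf a b ℤ) ∣ (m : Qf a b ℤ) * x →
      (k : Qf a b ℤ) ∣ x := by
    intro x hx
    rw [Nat.cast_mul] at hx
    exact (mul_dvd_mul_iff_left hm').1 hx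
  have u00 : (eU (m : Qf a b ℤ)).val 0 0 = 1 := rfl
  have u01 : (eU (m : Qf a b ℤ)).val 0 1 = m := rfl
  have u10 : (eU (m : Qf a b ℤ)).val 1 0 = 0 := rfl
  have u11 : (eU (m : Qf a b ℤ)).val 1 1 = 1 := rfl
  have v00 : (eV (m : Qf a b ℤ)).val 0 0 = 1 := rfl
  have v01 : (eV (m : Qf a b ℤ)).val 0 1 = 0 := rfl
  have v10 : (eV (m : Qf a b ℤ)).val 1 0 = m := rfl
  have v11 : (eV (m : Qf a b ℤ)).val 1 1 = 1 := rfl
  refine ⟨key _ ?_, key _ ?_, key _ ?_⟩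
  · have h1 := h _ (Jcmp_V a b m) 0 0
    have h2 : (B * (eV (m : Qf a b ℤ)).val - (eV (m : Qf a b ℤ)).val * B) 0 0 = m * B 0 1 := by
      rw [Matrix.sub_apply, Matrix.mul_apply, Matrix.mul_apply, Fin.sum_univ_two,
        Fin.sum_univ_two, v00, v01, v10]
      ring
    rwa [h2] at h1
  · have h1 := h _ (Jcmp_U a b m) 1 1
    have h2 : (B * (eU (m : Qf a b ℤ)).val - (eU (m : Qf a b ℤ)).val * B) 1 1 = m * B 1 0 := by
      rw [Matrix.sub_apply, Matrix.mul_apply, Matrix.mul_apply, Fin.sum_univ_two,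
        Fin.sum_univ_two, u01, u10, u11]
      ring
    rwa [h2] at h1
  · have h1 := h _ (Jcmp_U a b m) 0 1
    have h2 : (B * (eU (m : Qf a b ℤ)).val - (eU (m : Qf a b ℤ)).val * B) 0 1 =
        m * (B 0 0 - B 1 1) := by
      rw [Matrix.sub_apply, Matrix.mul_apply, Matrix.mul_apply, Fin.sum_univ_two,
        Fin.sum_univ_two, u00, u01, u11]
      ring
    rwa [h2] at h1

/-- representatives of the classes of `π` -/
private theorem Jcmp_rep {a b : ℤ} {K : Type} [Field K] {φ : Qf a b ℤ →+* K}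
    {Γ : Subgroup (PGK K)} {m₀ m₁ : ℕ} {Λ : Type} [Group Λ] {Φ : NatBij Γ Λ} {Q : Type} [Group Q]
    [Finite Q] {π : Γ →* Q} {L : Subgroup Λ} {ρ : L →* GQ a b} (H : JD φ Γ m₀ m₁ Φ π L ρ)
    (F : RepF φ) (q : Q) : ∃ A : MQ a b, A.det ≠ 0 ∧ ∀ γ : Γ, π γ = q →
    ∃ n ∈ Gam a b m₀, RepQ φ (A * n.val) γ := by
  by_cases hq : ∃ γ₀ : Γ, π γ₀ = q
  · obtain ⟨γ₀, h0⟩ := hq
    obtain ⟨A, hA⟩ := F.ex (γ₀ : PGK K)
    refine ⟨A, F.det A _ hA, fun γ h1 => ?_⟩
    obtain ⟨n, hn, h2⟩ := H.ker (γ₀⁻¹ * γ) (by rw [map_mul, map_inv, h0, h1, inv_mul_cancel])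
    refine ⟨n, hn, ?_⟩
    have h3 := F.mul A n.val _ _ hA (F.pc n)
    rw [h2] at h3
    have h4 : (γ₀ : PGK K) * (γ₀⁻¹ * γ : Γ).val = γ := by
      rw [Subgroup.coe_mul, Subgroup.coe_inv, mul_inv_cancel_left]
    rwa [h4] at h3
  · refine ⟨1, ?_, fun γ h1 => absurd ⟨γ, h1⟩ hq⟩
    have hdom : IsDomain (Qf a b ℤ) := Qf_domain H.neg
    rw [Matrix.det_one]
    exact one_ne_zero

/-- from `Z' G = G Z` to `adj G Z' = Z adj G` -/
private theorem Jcmp_adj {R : Type} [CommRing R] [IsDomain R] (G Z Z' : Matrix (Fin 2) (Fin 2) R)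
    (hG : G.det ≠ 0) (h : Z' * G = G * Z) : G.adjugate * Z' = Z * G.adjugate := by
  have h1 : G.adjugate * (Z' * G) * G.adjugate = G.adjugate * (G * Z) * G.adjugate := by rw [h]
  have h2 : G.adjugate * (Z' * G) * G.adjugate = G.det • (G.adjugate * Z') := by
    rw [← Matrix.mul_assoc, Matrix.mul_assoc _ G G.adjugate, Matrix.mul_adjugate,
      Matrix.mul_smul, Matrix.mul_one]
  have h3 : G.adjugate * (G * Z) * G.adjugate = G.det • (Z * G.adjugate) := by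
    rw [← Matrix.mul_assoc, Matrix.adjugate_mul, Matrix.smul_mul, Matrix.one_mul,
      Matrix.smul_mul]
  rw [h2, h3] at h1
  refine Matrix.ext fun i j => ?_
  have h4 := congrFun (congrFun h1 i) j
  rw [Matrix.smul_apply, Matrix.smul_apply, smul_eq_mul, smul_eq_mul] at h4
  exact mul_left_cancel₀ hG h4

/-- the matrix `B = adj G * A` commutes with `ρ x` modulo `k` -/
private theorem Jcmp_com {a b : ℤ} (k : ℕ) (hn : b ^ 2 + 4 * a < 0) (M A : MQ a b)
    (hh : GQ a b) (hM : M.det ≠ 0) (x y z z' : GQ a b)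
    (hA : y.val * A = A * x.val) (hz : z'.val * M = M * z.val)
    (hx : rdq a b k x = rdq a b k (hh * z * hh⁻¹))
    (hy : rdq a b k y = rdq a b k (hh * z' * hh⁻¹)) (i j : Fin 2) :
    (k : Qf a b ℤ) ∣
      ((hh.val * M * (hh⁻¹).val).adjugate * A * x.val -
        x.val * ((hh.val * M * (hh⁻¹).val).adjugate * A)) i j := by
  have hdom : IsDomain (Qf a b ℤ) := Qf_domain hn
  set G : MQ a b := hh.val * M * (hh⁻¹).val with hGdef
  set f : Qf a b ℤ →+* Qf a b (ZMod k) := Qfm a b (Int.castRingHom (ZMod k)) with hf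
  have hinv : (hh⁻¹).val * hh.val = 1 := by
    rw [← Matrix.SpecialLinearGroup.coe_mul, inv_mul_cancel, Matrix.SpecialLinearGroup.coe_one]
  have hG : G.det ≠ 0 := by
    rw [hGdef, Matrix.det_mul, Matrix.det_mul, hh.2, (hh⁻¹).2, one_mul, mul_one]
    exact hM
  have hZ : (hh * z' * hh⁻¹).val * G = G * (hh * z * hh⁻¹).val := by
    rw [Matrix.SpecialLinearGroup.coe_mul, Matrix.SpecialLinearGroup.coe_mul,
      Matrix.SpecialLinearGroup.coe_mul, Matrix.SpecialLinearGroup.coe_mul, hGdef]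
    calc hh.val * z'.val * (hh⁻¹).val * (hh.val * M * (hh⁻¹).val)
        = hh.val * z'.val * ((hh⁻¹).val * hh.val) * (M * (hh⁻¹).val) := by
          simp only [Matrix.mul_assoc]
      _ = hh.val * (z'.val * M) * (hh⁻¹).val := by
          rw [hinv, Matrix.mul_one]
          simp only [Matrix.mul_assoc]
      _ = hh.val * (M * z.val) * (hh⁻¹).val := by rw [hz]
      _ = hh.val * M * ((hh⁻¹).val * hh.val) * (z.val * (hh⁻¹).val) := by
          rw [hinv, Matrix.mul_one]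
          simp only [Matrix.mul_assoc]
      _ = hh.val * M * (hh⁻¹).val * (hh.val * z.val * (hh⁻¹).val) := by
          simp only [Matrix.mul_assoc]
  have hadj := Jcmp_adj G _ _ hG hZ
  have hx' : x.val.map f = (hh * z * hh⁻¹).val.map f := congrArg Subtype.val hx
  have hy' : y.val.map f = (hh * z' * hh⁻¹).val.map f := congrArg Subtype.val hy
  have hfin : ((G.adjugate * A * x.val).map f) = ((x.val * (G.adjugate * A)).map f) := by
    have h1 : (G.adjugate * A * x.val).map f =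
        G.adjugate.map f * (y.val.map f) * A.map f := by
      rw [Matrix.mul_assoc, ← hA, ← Matrix.mul_assoc, Matrix.map_mul, Matrix.map_mul]
    rw [h1, hy', ← Matrix.map_mul, hadj, Matrix.map_mul, ← hx', Matrix.map_mul, Matrix.map_mul,
      Matrix.mul_assoc]
  apply E_ker
  have h2 := congrFun (congrFun hfin i) j
  rw [Matrix.map_apply, Matrix.map_apply] at h2
  rw [Matrix.sub_apply, map_sub, sub_eq_zero]
  exact h2

/-- PIECE CG J cmp -/
theorem p_Jcmp (hx0 : J_x0) (hcj : J_cj) (hpi : J_pi) : J_cmp := by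
  intro a b K _ φ Γ m₀ m₁ Λ _ Φ Q _ _ π L ρ H F hpid l τ hτ k hk R _ _ θ
  classical
  have hdom : IsDomain (Qf a b ℤ) := Qf_domain H.neg
  obtain ⟨A, hAτ, hA⟩ := hτ
  have hAdet : A.det ≠ 0 := F.det A τ hAτ
  choose Aq hAq hrep using Jcmp_rep H F
  have hD : ∀ q, (Aq q).det * A.det ≠ 0 := fun q => mul_ne_zero (hAq q) hAdet
  choose kq hkq hkq2 using fun q => hx0 a b H.neg hpid ((Aq q).det * A.det) (hD q) k
    (NeZero.ne k)
  have hfQ : Fintype Q := Fintype.ofFinite Q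
  let k' : ℕ := ∏ q, kq q
  have hk' : k' ≠ 0 := Finset.prod_ne_zero_iff.2 fun q _ => hkq q
  have hk'' : NeZero (m₁ * k') := ⟨Nat.mul_ne_zero H.ne hk'⟩
  obtain ⟨R', _, _, θ', h, hh, happ⟩ := H.apx (m₁ * k')
  obtain ⟨γ, hγ1, hγ2⟩ := pair_val Φ (θ.prod θ') π l
  rw [pair_prod] at hγ1
  have hγθ : θ γ = Φ.toFun R θ l := congrArg Prod.fst hγ1
  have hγθ' : θ' γ = Φ.toFun R' θ' l := congrArg Prod.snd hγ1
  obtain ⟨n, hn, hM⟩ := hrep (π γ) γ rfl
  refine ⟨γ, hγθ, h, hh, (pcQ φ h * γ * (pcQ φ h)⁻¹)⁻¹ * τ, ?_, by rw [mul_inv_cancel_left]⟩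
  set M : MQ a b := Aq (π γ) * n.val with hMdef
  have hMdet : M.det = (Aq (π γ)).det := by rw [hMdef, Matrix.det_mul, n.2, mul_one]
  set G : MQ a b := h.val * M * (h⁻¹).val with hGdef
  have hGdet : G.det = (Aq (π γ)).det := by
    rw [hGdef, Matrix.det_mul, Matrix.det_mul, h.2, (h⁻¹).2, one_mul, mul_one, hMdet]
  have hGrep : RepQ φ G (pcQ φ h * γ * (pcQ φ h)⁻¹) := by
    have h1 := F.mul _ _ _ _ (F.mul _ _ _ _ (F.pc h) hM) (F.pc h⁻¹)
    rw [map_inv] at h1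
    exact h1
  set B : MQ a b := G.adjugate * A with hBdef
  have hBrep : RepQ φ B ((pcQ φ h * γ * (pcQ φ h)⁻¹)⁻¹ * τ) :=
    F.mul _ _ _ _ (F.inv _ _ hGrep) hAτ
  have hBdet : B.det = (Aq (π γ)).det * A.det := by
    rw [hBdef, Matrix.det_mul, Matrix.det_adjugate, hGdet]
    simp
  -- `B` commutes with `Γ(m₁)` modulo `m₁ k'`
  have hcom : ∀ x : L, Φ.toFun Q π x = 1 → ∀ i j,
      ((m₁ * k' : ℕ) : Qf a b ℤ) ∣ (B * (ρ x).val - (ρ x).val * B) i j := by
    intro x hx i j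
    have hyL : l * x * l⁻¹ ∈ L := by
      rw [H.memL]
      refine ⟨1, one_mem _, ?_⟩
      rw [map_mul, map_mul, hx, mul_one, map_inv, mul_inv_cancel]
      have h1 : (⟨pcQ φ 1, H.le 1 (one_mem _)⟩ : Γ) = 1 := Subtype.ext (map_one _)
      rw [h1, map_one]
    let y : L := ⟨l * x * l⁻¹, hyL⟩
    obtain ⟨ν, hν1, hν2⟩ := pair_val Φ θ' π (x : Λ)
    rw [hx] at hν2
    obtain ⟨z, hz, hz2⟩ := H.ker ν hν2
    obtain ⟨z', hz', hz'2⟩ := H.ker (γ * ν * γ⁻¹)
      (by rw [map_mul, map_mul, hν2, mul_one, map_inv, mul_inv_cancel])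
    have e1 : rdq a b (m₁ * k') (ρ x) = rdq a b (m₁ * k') (h * z * h⁻¹) := by
      apply happ x z hz
      rw [← hν1]
      congr 1
      exact Subtype.ext hz2
    have e2 : rdq a b (m₁ * k') (ρ y) = rdq a b (m₁ * k') (h * z' * h⁻¹) := by
      apply happ y z' hz'
      have h1 : (⟨pcQ φ z', H.le z' hz'⟩ : Γ) = γ * ν * γ⁻¹ := Subtype.ext hz'2
      rw [h1, map_mul, map_mul, map_inv, hν1, hγθ']
      show _ = Φ.toFun R' θ' (l * x * l⁻¹)
      rw [map_mul, map_mul, map_inv]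
    have e3 : z'.val * M = M * z.val := by
      refine hcj a b H.neg K φ F m₀ H.h5 M γ hM z hz z' hz' ?_
      rw [hz'2, hz2, Subgroup.coe_mul, Subgroup.coe_mul, Subgroup.coe_inv, inv_mul_cancel_right]
    exact Jcmp_com (m₁ * k') H.neg M A h (by rw [hMdet]; exact hAq _) (ρ x) (ρ y) z z'
      (hA x y hx rfl) e3 e1 e2 i j
  have hsc : ScQ k' B := by
    refine Jcmp_sc H.neg m₁ k' H.ne B fun g hg i j => ?_
    have hg0 : g ∈ Gam a b m₀ := Jcmp_le H.dvd hg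
    have hgr : g ∈ ρ.range := by rw [H.rng]; exact hg0
    obtain ⟨x, hx⟩ := hgr
    have hΓ : pcQ φ (ρ x) ∈ Γ := by rw [hx]; exact H.le g hg0
    have h1 : Φ.toFun Q π x = 1 := by
      rw [hpi a b K φ Γ m₀ m₁ Λ Φ Q π L ρ H x hΓ]
      exact H.ker' _ ⟨g, hg, (congrArg (pcQ φ) hx).symm⟩
    have h2 := hcom x h1 i j
    rwa [hx] at h2
  have hdvd : (kq (π γ) : Qf a b ℤ) ∣ (k' : Qf a b ℤ) :=
    Nat.cast_dvd_cast (Finset.dvd_prod_of_mem kq (Finset.mem_univ (π γ)))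
  have hsq : ScQ (kq (π γ)) B :=
    ⟨hdvd.trans hsc.1, hdvd.trans hsc.2.1, hdvd.trans hsc.2.2⟩
  obtain ⟨c, X₀, hc, hBX, hu, hs⟩ := hkq2 (π γ) B hBdet hsq
  refine ⟨X₀, hu, hs, ?_⟩
  rw [hBX] at hBrep
  exact F.smul' c X₀ _ hc hBrep

end

end Pool.Agent.F8.CG
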