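import Pool.Agent.Lib.MP_305fdd_al.F8.CG.StmJ

/-!
# MP_305fdd_al, congruence subgroups, block J: [CG J core]

A normal subgroup of `Γ` between the images of `Γ(m₁)` and `Γ(m₀)`.
-/

set_option autoImplicit false

namespace Pool.Agent.F8.CG

open Pool.Agent.F8.BG Pool.Agent.MP_305fdd_al Pool.Agent.Lib.MP_305fdd_al Pool.Agent.F8
open scoped QuadraticAlgebra

noncomputable section

variable {a b : ℤ} {K : Type} [Field K]

private theorem Jcore_gamE {m : ℕ} {x : GQ a b} (h : x ∈ Gam a b m) (i j : Fin 2) :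
    (m : Qf a b ℤ) ∣ x.val i j - (1 : MQ a b) i j := by
  apply E_ker
  have h1 : rdq a b m x = rdq a b m 1 := by rw [map_one]; exact h
  have h2 : Qfm a b (Int.castRingHom (ZMod m)) (x.val i j) =
      Qfm a b (Int.castRingHom (ZMod m)) ((1 : GQ a b).val i j) :=
    congrArg (fun y : SL2 (Qf a b (ZMod m)) => y.val i j) h1
  rw [map_sub, sub_eq_zero, h2]
  rfl

private theorem Jcore_mem {m : ℕ} {x : GQ a b}
    (h : ∀ i j : Fin 2, (m : Qf a b ℤ) ∣ x.val i j - (1 : MQ a b) i j) : x ∈ Gam a b m := by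
  show rdq a b m x = 1
  rw [← map_one (rdq a b m)]
  refine Subtype.ext (Matrix.ext fun i j => ?_)
  show Qfm a b (Int.castRingHom (ZMod m)) (x.val i j) =
    Qfm a b (Int.castRingHom (ZMod m)) ((1 : MQ a b) i j)
  rw [← sub_eq_zero, ← map_sub]
  obtain ⟨t, ht⟩ := h i j
  rw [ht, map_mul, map_natCast]
  have h4 : ((m : ℕ) : Qf a b (ZMod m)) = 0 := by
    apply QuadraticAlgebra.ext
    · rw [QuadraticAlgebra.re_natCast]; simp
    · rw [QuadraticAlgebra.im_natCast]; rfl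
  rw [h4, zero_mul]

/-- the matrix identity `A y adj A = δ z` -/
private theorem Jcore_mat {R : Type} [CommRing R] (A Y y : Matrix (Fin 2) (Fin 2) R)
    (m₀ e m₁ : R) (hm : m₁ = m₀ * (A.det * e)) (hy : y = 1 + m₁ • Y) :
    A * y * A.adjugate = A.det • (1 + m₀ • (e • (A * Y * A.adjugate))) := by
  rw [hy, hm, Matrix.mul_add, Matrix.add_mul, Matrix.mul_one, Matrix.mul_adjugate,
    Matrix.mul_smul, Matrix.smul_mul, smul_add]
  congr 1
  rw [smul_smul, smul_smul]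
  congr 1
  ring

private theorem Jcore_conj (hn : b ^ 2 + 4 * a < 0) {φ : Qf a b ℤ →+* K} (F : RepF φ)
    {A : MQ a b} {γ : PGK K} (hA : RepQ φ A γ) (m₀ m₁ : ℕ) (e : Qf a b ℤ)
    (hm : (m₁ : Qf a b ℤ) = m₀ * (A.det * e)) {y : GQ a b} (hy : y ∈ Gam a b m₁) :
    ∃ z ∈ Gam a b m₀, pcQ φ z = γ * pcQ φ y * γ⁻¹ := by
  have hdom : IsDomain (Qf a b ℤ) := Qf_domain hn
  have hδ : A.det ≠ 0 := F.det A γ hA
  choose Y hY using fun i j => Jcore_gamE hy i j
  have hy1 : y.val = 1 + (m₁ : Qf a b ℤ) • (Matrix.of Y : MQ a b) := by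
    ext1 i j
    rw [Matrix.add_apply, Matrix.smul_apply, Matrix.of_apply, smul_eq_mul, ← hY i j]
    ring
  have hM := Jcore_mat A (Matrix.of Y) y.val (m₀ : Qf a b ℤ) e m₁ hm hy1
  set Z : MQ a b := 1 + (m₀ : Qf a b ℤ) • (e • (A * Matrix.of Y * A.adjugate)) with hZ
  have hdet : Z.det = 1 := by
    have h1 := congrArg Matrix.det hM
    rw [Matrix.det_mul, Matrix.det_mul, Matrix.det_adjugate, Matrix.det_smul, y.2] at h1
    simp only [Fintype.card_fin, Nat.add_one_sub_one, pow_one, mul_one] at h1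
    have h2 : A.det ^ 2 * (Z.det - 1) = 0 := by linear_combination -h1
    rcases mul_eq_zero.1 h2 with h3 | h3
    · exact absurd (pow_eq_zero_iff two_ne_zero |>.1 h3) hδ
    · exact sub_eq_zero.1 h3
  refine ⟨⟨Z, hdet⟩, Jcore_mem fun i j => ?_, ?_⟩
  · show (m₀ : Qf a b ℤ) ∣ Z i j - (1 : MQ a b) i j
    rw [hZ, Matrix.add_apply, add_sub_cancel_left, Matrix.smul_apply, smul_eq_mul]
    exact dvd_mul_right _ _
  · have h1 := F.mul _ _ _ _ (F.mul _ _ _ _ hA (F.pc y)) (F.inv _ _ hA)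
    rw [hM] at h1
    have h2 := F.smul' _ _ _ hδ h1
    exact F.uniq _ _ _ (F.pc ⟨Z, hdet⟩) h2

theorem p_Jcore : J_core := by
  classical
  intro a b hn K _ φ hF F Γ m₀ hm₀ hle hfi
  set H : Subgroup Γ := ((Gam a b m₀).map (pcQ φ)).subgroupOf Γ with hH
  have hfi' : H.FiniteIndex := hfi
  have hmem : ∀ x : Γ, x ∈ H ↔ ∃ y ∈ Gam a b m₀, pcQ φ y = x.val := fun x => Iff.rfl
  have hfin : Finite (Γ ⧸ H) := Subgroup.finite_quotient_of_finiteIndex
  let := Fintype.ofFinite (Γ ⧸ H)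
  choose A hA using fun q : Γ ⧸ H => F.ex (((q.out)⁻¹ : Γ) : PGK K)
  choose n hn0 hnd using fun q : Γ ⧸ H => E_dvd hn (A q).det (F.det _ _ (hA q))
  refine ⟨m₀ * ∏ q, n q, ?_, dvd_mul_right _ _, Γ ⧸ H.normalCore, inferInstance, ?_,
    QuotientGroup.mk' H.normalCore, ?_, ?_⟩
  · exact mul_ne_zero hm₀ (Finset.prod_ne_zero_iff.2 fun q _ => (hn0 q).ne')
  · exact Subgroup.finite_quotient_of_finiteIndex
  · intro x hx
    have h1 : x ∈ H.normalCore := by
      rw [← QuotientGroup.ker_mk' H.normalCore]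
      exact hx
    exact (hmem x).1 (H.normalCore_le h1)
  · rintro x ⟨y, hy, hyx⟩
    have h1 : x ∈ H.normalCore := by
      intro g
      obtain ⟨h, hh⟩ := QuotientGroup.mk_out_eq_mul H g⁻¹
      set q : Γ ⧸ H := ((g⁻¹ : Γ) : Γ ⧸ H) with hq
      -- `q.out = g⁻¹ * h`
      obtain ⟨d, hd⟩ := hnd q
      have hm : ((m₀ * ∏ q, n q : ℕ) : Qf a b ℤ) =
          m₀ * ((A q).det * (d * ((∏ q' ∈ Finset.univ.erase q, n q' : ℕ) : Qf a b ℤ))) := by
        rw [← Finset.mul_prod_erase Finset.univ n (Finset.mem_univ q), Nat.cast_mul, Nat.cast_mul,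
          hd]
        ring
      obtain ⟨z, hz, hz'⟩ := Jcore_conj hn F (hA q) m₀ _ _ hm hy
      have hw : (q.out)⁻¹ * x * q.out ∈ H := by
        rw [hmem]
        refine ⟨z, hz, ?_⟩
        rw [hz', hyx]
        simp
      have e1 : g * x * g⁻¹ = h.val * ((q.out)⁻¹ * x * q.out) * (h.val)⁻¹ := by
        rw [hh]
        group
      rw [e1]
      exact H.mul_mem (H.mul_mem h.2 hw) (H.inv_mem h.2)
    rw [← QuotientGroup.ker_mk' H.normalCore] at h1
    exact h1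

end

end Pool.Agent.F8.CG
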