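import Pool.Agent.Lib.MP_305fdd_al.F8.CG.StmJ2

/-!
# MP_305fdd_al, congruence subgroups: piece Jfin, finitely many possibilities for `Γ₁` (helper33)
-/

set_option autoImplicit false

namespace Pool.Agent.F8.CG

open Pool.Agent.F8.BG Pool.Agent.MP_305fdd_al Pool.Agent.Lib.MP_305fdd_al Pool.Agent.F8
open scoped QuadraticAlgebra

noncomputable section

/-- the matrix `diag(u, 1)` -/
private def Jfin_d {a b : ℤ} (u : Qf a b ℤ) : MQ a b := !![u, 0; 0, 1]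

private theorem Jfin_det {a b : ℤ} (u : Qf a b ℤ) : (Jfin_d u).det = u := by
  rw [Jfin_d, Matrix.det_fin_two_of]
  ring

private theorem Jfin_dd {a b : ℤ} (u v : Qf a b ℤ) : Jfin_d u * Jfin_d v = Jfin_d (u * v) := by
  rw [Jfin_d, Jfin_d, Jfin_d, Matrix.mul_fin_two]
  simp

private theorem Jfin_one {a b : ℤ} : Jfin_d (1 : Qf a b ℤ) = 1 := by
  rw [Jfin_d, Matrix.one_fin_two]

/-- conjugation with `diag(u, 1)` -/
private theorem Jfin_z {a b : ℤ} (m : ℕ) (u : (Qf a b ℤ)ˣ) (y : GQ a b) (hy : y ∈ Gam a b m) :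
    ∃ z ∈ Gam a b m, y.val * Jfin_d (u : Qf a b ℤ) = Jfin_d (u : Qf a b ℤ) * z.val := by
  have hu : (u : Qf a b ℤ) * ((u⁻¹ : (Qf a b ℤ)ˣ) : Qf a b ℤ) = 1 := u.mul_inv
  set u' : Qf a b ℤ := ((u⁻¹ : (Qf a b ℤ)ˣ) : Qf a b ℤ)
  have hdet : y.val 0 0 * y.val 1 1 - y.val 0 1 * y.val 1 0 = 1 := by
    have h1 := y.2
    rwa [Matrix.det_fin_two] at h1
  have hz : (!![y.val 0 0, u' * y.val 0 1; (u : Qf a b ℤ) * y.val 1 0, y.val 1 1] :
      MQ a b).det = 1 := by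
    rw [Matrix.det_fin_two_of]
    linear_combination hdet - y.val 0 1 * y.val 1 0 * hu
  refine ⟨⟨!![y.val 0 0, u' * y.val 0 1; (u : Qf a b ℤ) * y.val 1 0, y.val 1 1], hz⟩, ?_, ?_⟩
  · set f : Qf a b ℤ →+* Qf a b (ZMod m) := Qfm a b (Int.castRingHom (ZMod m)) with hf
    have h : ∀ i j, f (y.val i j) = (1 : Matrix (Fin 2) (Fin 2) (Qf a b (ZMod m))) i j :=
      fun i j => congrArg (fun x : SL2 (Qf a b (ZMod m)) => x.val i j) hy
    have h01 : f (y.val 0 1) = 0 := by rw [h, Matrix.one_apply_ne (by decide)]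
    have h10 : f (y.val 1 0) = 0 := by rw [h, Matrix.one_apply_ne (by decide)]
    refine Subtype.ext (Matrix.ext fun i j => ?_)
    fin_cases i <;> fin_cases j
    · exact h 0 0
    · show f (u' * y.val 0 1) = 0
      rw [map_mul, h01, mul_zero]
    · show f ((u : Qf a b ℤ) * y.val 1 0) = 0
      rw [map_mul, h10, mul_zero]
    · exact h 1 1
  · show y.val * Jfin_d (u : Qf a b ℤ) = Jfin_d (u : Qf a b ℤ) *
      !![y.val 0 0, u' * y.val 0 1; (u : Qf a b ℤ) * y.val 1 0, y.val 1 1]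
    rw [Matrix.eta_fin_two y.val, Jfin_d, Matrix.mul_fin_two, Matrix.mul_fin_two]
    refine Matrix.ext fun i j => ?_
    fin_cases i <;> fin_cases j
    · show y.val 0 0 * u + y.val 0 1 * 0 = u * y.val 0 0 + 0 * (u * y.val 1 0)
      ring
    · show y.val 0 0 * 0 + y.val 0 1 * 1 = u * (u' * y.val 0 1) + 0 * y.val 1 1
      linear_combination -y.val 0 1 * hu
    · show y.val 1 0 * u + y.val 1 1 * 0 = 0 * y.val 0 0 + 1 * (u * y.val 1 0)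
      ring
    · show y.val 1 0 * 0 + y.val 1 1 * 1 = 0 * (u' * y.val 0 1) + 1 * y.val 1 1
      ring

/-- the elements represented by matrices with unit determinant are in finitely many cosets -/
private theorem Jfin_del {a b : ℤ} (hn : b ^ 2 + 4 * a < 0) {K : Type}
    [Field K] {φ : Qf a b ℤ →+* K} (F : RepF φ) (m : ℕ) :
    ∃ f : (GQ a b ⧸ Gam a b m) × (Qf a b ℤ)ˣ → PGK K, ∀ δ, DelQ φ 1 δ →
    ∃ t, (f t)⁻¹ * δ ∈ (Gam a b m).map (pcQ φ) := by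
  have hdom : IsDomain (Qf a b ℤ) := Qf_domain hn
  have h1 : ∀ t : (GQ a b ⧸ Gam a b m) × (Qf a b ℤ)ˣ, ∃ γ : PGK K,
      RepQ φ ((Quotient.out t.1).val * Jfin_d (t.2 : Qf a b ℤ)) γ := by
    intro t
    apply F.of
    rw [Matrix.det_mul, (Quotient.out t.1).2, one_mul, Jfin_det]
    exact t.2.ne_zero
  choose f hf using h1
  refine ⟨f, fun δ hδ => ?_⟩
  obtain ⟨X, ⟨u, hu⟩, -, hX⟩ := hδ
  have hx : (X * Jfin_d ((u⁻¹ : (Qf a b ℤ)ˣ) : Qf a b ℤ)).det = 1 := by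
    rw [Matrix.det_mul, Jfin_det, ← hu, u.mul_inv]
  let x : GQ a b := ⟨X * Jfin_d ((u⁻¹ : (Qf a b ℤ)ˣ) : Qf a b ℤ), hx⟩
  let c : GQ a b ⧸ Gam a b m := QuotientGroup.mk x
  have hc : (Quotient.out c)⁻¹ * x ∈ Gam a b m :=
    QuotientGroup.eq.1 (Quotient.out_eq c)
  set y : GQ a b := (Quotient.out c)⁻¹ * x with hy
  have hxy : x = Quotient.out c * y := by rw [hy, mul_inv_cancel_left]
  obtain ⟨z, hz, hz2⟩ := Jfin_z m u y hc
  refine ⟨(c, u), z, hz, ?_⟩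
  have h2 : X = (Quotient.out c).val * Jfin_d (u : Qf a b ℤ) * z.val := by
    rw [Matrix.mul_assoc, ← hz2, ← Matrix.mul_assoc, ← Matrix.SpecialLinearGroup.coe_mul, ← hxy]
    show X = X * Jfin_d ((u⁻¹ : (Qf a b ℤ)ˣ) : Qf a b ℤ) * Jfin_d (u : Qf a b ℤ)
    rw [Matrix.mul_assoc, Jfin_dd, u.inv_mul, Jfin_one, Matrix.mul_one]
  have h3 : RepQ φ X (f (c, u) * pcQ φ z) := by
    rw [h2]
    exact F.mul _ _ _ _ (hf (c, u)) (F.pc z)
  rw [F.uniq X _ _ hX h3, inv_mul_cancel_left]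

/-- PIECE CG J fin -/
theorem p_Jfin : J_fin := by
  intro a b hn hU K _ φ hfr F Γ m₀ hm₀ hΓ hfi
  classical
  have : NeZero m₀ := ⟨hm₀⟩
  set P₀ : Subgroup (PGK K) := (Gam a b m₀).map (pcQ φ) with hP₀
  obtain ⟨f, hf⟩ := Jfin_del hn F m₀
  have hfin0 : Finite (SL2 (Qf a b (ZMod m₀))) := con_finite a b m₀
  have hfin1 : (Gam a b m₀).FiniteIndex := Subgroup.finiteIndex_ker (rdq a b m₀)
  have hfin2 : Finite (GQ a b ⧸ Gam a b m₀) := Subgroup.finite_quotient_of_finiteIndex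
  have hfin3 : Finite (Γ ⧸ P₀.subgroupOf Γ) := Subgroup.finite_quotient_of_finiteIndex
  -- the cosets
  let g : (Γ ⧸ P₀.subgroupOf Γ) × ((GQ a b ⧸ Gam a b m₀) × (Qf a b ℤ)ˣ) → PGK K ⧸ P₀ :=
    fun t => QuotientGroup.mk ((Quotient.out t.1 : Γ).val * f t.2)
  have hg : ∀ τ : PGK K, (∃ γ ∈ Γ, DelQ φ 1 (γ⁻¹ * τ)) →
      (QuotientGroup.mk τ : PGK K ⧸ P₀) ∈ Set.range g := by
    rintro τ ⟨γ, hγ, hδ⟩
    let c : Γ ⧸ P₀.subgroupOf Γ := QuotientGroup.mk ⟨γ, hγ⟩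
    have hc : (Quotient.out c)⁻¹ * ⟨γ, hγ⟩ ∈ P₀.subgroupOf Γ :=
      QuotientGroup.eq.1 (Quotient.out_eq c)
    obtain ⟨x, hx, hx2⟩ := Subgroup.mem_subgroupOf.1 hc
    have h1 : γ = (Quotient.out c : Γ).val * pcQ φ x := by
      rw [hx2, Subgroup.coe_mul, Subgroup.coe_inv, mul_inv_cancel_left]
    obtain ⟨X, hX1, -, hX3⟩ := hδ
    have h2 : DelQ φ 1 (pcQ φ x * (γ⁻¹ * τ)) := by
      refine ⟨x.val * X, ?_, ?_, F.mul _ _ _ _ (F.pc x) hX3⟩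
      · rw [Matrix.det_mul, x.2, one_mul]
        exact hX1
      · refine ⟨?_, ?_, ?_⟩ <;> rw [Nat.cast_one] <;> exact one_dvd _
    obtain ⟨t, ht⟩ := hf _ h2
    refine ⟨(c, t), ?_⟩
    refine QuotientGroup.eq.2 ?_
    have h3 : ((Quotient.out c : Γ).val * f t)⁻¹ * τ = (f t)⁻¹ * (pcQ φ x * (γ⁻¹ * τ)) := by
      rw [h1]
      group
    rw [h3]
    exact ht
  have hS : (Set.range g).Finite := Set.finite_range g
  refine Set.Finite.of_injOn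
    (f := fun Γ₁ : Subgroup (PGK K) => (QuotientGroup.mk '' (Γ₁ : Set (PGK K)) : Set (PGK K ⧸ P₀)))
    (t := {s : Set (PGK K ⧸ P₀) | s ⊆ Set.range g}) ?_ ?_ hS.finite_subsets
  · rintro Γ₁ ⟨-, h2⟩ _ ⟨τ, hτ, rfl⟩
    exact hg τ (h2 τ hτ)
  · intro Γ₁ h1 Γ₂ h2 he
    have key : ∀ A B : Subgroup (PGK K), (∀ x ∈ Gam a b m₀, pcQ φ x ∈ B) →
        (QuotientGroup.mk '' (A : Set (PGK K)) : Set (PGK K ⧸ P₀)) =
          QuotientGroup.mk '' (B : Set (PGK K)) → A ≤ B := by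
      intro A B hB hAB τ hτ
      have h3 : (QuotientGroup.mk τ : PGK K ⧸ P₀) ∈
          (QuotientGroup.mk '' (B : Set (PGK K)) : Set (PGK K ⧸ P₀)) := by
        rw [← hAB]
        exact ⟨τ, hτ, rfl⟩
      obtain ⟨σ, hσ, hσ2⟩ := h3
      obtain ⟨x, hx, hx2⟩ := QuotientGroup.eq.1 hσ2
      have h4 : τ = σ * pcQ φ x := by rw [hx2, mul_inv_cancel_left]
      rw [h4]
      exact B.mul_mem hσ (hB x hx)
    exact le_antisymm (key _ _ h2.1 he) (key _ _ h1.1 he.symm)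

end

end Pool.Agent.F8.CG
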