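import Pool.Agent.Lib.MP_305fdd_al.F8.CG.StmJ
import Pool.Agent.Lib.MP_305fdd_al.F8.BG.P_con
import Pool.Agent.Lib.MP_305fdd_al.F8.BG.P_E

/-!
# MP_305fdd_al, congruence subgroups: piece [CG Jgdt]
-/

set_option autoImplicit false

namespace Pool.Agent.F8.CG

open Pool.Agent.F8.BG Pool.Agent.MP_305fdd_al Pool.Agent.Lib.MP_305fdd_al Pool.Agent.F8
open scoped QuadraticAlgebra

noncomputable section

section

variable {a b : ℤ}

private theorem Jgdt_z (m : ℕ) (z : Qf a b ℤ) :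
    Qfm a b (Int.castRingHom (ZMod m)) ((m : Qf a b ℤ) * z) = 0 := by
  rw [map_mul, map_natCast]
  have h : ((m : ℕ) : Qf a b (ZMod m)) = 0 := by
    apply QuadraticAlgebra.ext
    · simp
    · simp
  rw [h, zero_mul]

private theorem Jgdt_gam {m : ℕ} {g : GQ a b} {Z : MQ a b}
    (h : g.val = 1 + (m : Qf a b ℤ) • Z) : g ∈ Gam a b m := by
  show rdq a b m g = 1
  rw [← map_one (rdq a b m)]
  apply Subtype.ext
  refine Matrix.ext fun i j => ?_
  show Qfm a b (Int.castRingHom (ZMod m)) (g.val i j) =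
    Qfm a b (Int.castRingHom (ZMod m)) ((1 : MQ a b) i j)
  rw [h, Matrix.add_apply, Matrix.smul_apply, smul_eq_mul, map_add, Jgdt_z, add_zero]

private theorem Jgdt_ex {m : ℕ} {g : GQ a b} (h : g ∈ Gam a b m) :
    ∃ Z : MQ a b, g.val = 1 + (m : Qf a b ℤ) • Z := by
  have h1 : ∀ i j, ∃ z : Qf a b ℤ, g.val i j - (1 : MQ a b) i j = (m : Qf a b ℤ) * z := by
    intro i j
    have h2 : rdq a b m g = rdq a b m 1 := by
      rw [map_one]
      exact h
    have h3 : Qfm a b (Int.castRingHom (ZMod m)) (g.val i j) =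
        Qfm a b (Int.castRingHom (ZMod m)) ((1 : MQ a b) i j) :=
      congrArg (fun x : SL2 (Qf a b (ZMod m)) => x.val i j) h2
    exact E_ker a b m _ (by rw [map_sub, h3, sub_self])
  choose Z hZ using h1
  refine ⟨Matrix.of Z, Matrix.ext fun i j => ?_⟩
  rw [Matrix.add_apply, Matrix.smul_apply, smul_eq_mul, Matrix.of_apply, ← hZ]
  ring

private theorem Jgdt_cancel (hn : b ^ 2 + 4 * a < 0) {s : Qf a b ℤ} (hs : s ≠ 0) {A B : MQ a b}
    (h : s • A = s • B) : A = B := by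
  have : IsDomain (Qf a b ℤ) := Qf_domain hn
  refine Matrix.ext fun i j => ?_
  have h1 := congrFun (congrFun h i) j
  rw [Matrix.smul_apply, Matrix.smul_apply, smul_eq_mul, smul_eq_mul] at h1
  exact mul_left_cancel₀ hs h1

private theorem Jgdt_right (hn : b ^ 2 + 4 * a < 0) {y : MQ a b} (hy : y.det ≠ 0) {A B : MQ a b}
    (h : A * y = B * y) : A = B := by
  apply Jgdt_cancel hn hy
  have h1 : A * y * y.adjugate = B * y * y.adjugate := by rw [h]
  rw [Matrix.mul_assoc, Matrix.mul_assoc, Matrix.mul_adjugate, Matrix.mul_smul, Matrix.mul_smul,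
    Matrix.mul_one, Matrix.mul_one] at h1
  exact h1

private theorem Jgdt_left (hn : b ^ 2 + 4 * a < 0) {y : MQ a b} (hy : y.det ≠ 0) {A B : MQ a b}
    (h : y * A = y * B) : A = B := by
  apply Jgdt_cancel hn hy
  have h1 : y.adjugate * (y * A) = y.adjugate * (y * B) := by rw [h]
  rw [← Matrix.mul_assoc, ← Matrix.mul_assoc, Matrix.adjugate_mul, Matrix.smul_mul,
    Matrix.smul_mul, Matrix.one_mul, Matrix.one_mul] at h1
  exact h1

/-- conjugation with an integral matrix -/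
private theorem Jgdt_key (hn : b ^ 2 + 4 * a < 0) (y : MQ a b) (hy : y.det ≠ 0) (n m : ℕ)
    (hd : y.det ∣ (n : Qf a b ℤ)) (x' : GQ a b) (hx' : x' ∈ Gam a b (m * n)) :
    ∃ x ∈ Gam a b m, x.val * y = y * x'.val := by
  have : IsDomain (Qf a b ℤ) := Qf_domain hn
  obtain ⟨Y, hY⟩ := Jgdt_ex hx'
  obtain ⟨c, hc⟩ := hd
  have hX : y.det • (1 + (m : Qf a b ℤ) • (c • (y * Y * y.adjugate))) =
      y * x'.val * y.adjugate := by
    rw [hY, Matrix.mul_add, Matrix.add_mul, Matrix.mul_one, Matrix.mul_adjugate, smul_add,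
      Matrix.mul_smul, Matrix.smul_mul, smul_smul, smul_smul]
    congr 2
    push_cast
    rw [hc]
    ring
  have hdet : (1 + (m : Qf a b ℤ) • (c • (y * Y * y.adjugate))).det = 1 := by
    have h1 := congrArg Matrix.det hX
    rw [Matrix.det_smul, Matrix.det_mul, Matrix.det_mul, Matrix.det_adjugate, Fintype.card_fin,
      show x'.val.det = 1 from x'.property, mul_one, show 2 - 1 = 1 from rfl, pow_one] at h1
    refine mul_left_cancel₀ (pow_ne_zero 2 hy) ?_
    rw [h1]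
    ring
  refine ⟨⟨_, hdet⟩, Jgdt_gam rfl, ?_⟩
  apply Jgdt_cancel hn hy
  show y.det • ((1 + (m : Qf a b ℤ) • (c • (y * Y * y.adjugate))) * y) = _
  rw [← Matrix.smul_mul, hX, Matrix.mul_assoc, Matrix.adjugate_mul, Matrix.mul_smul,
    Matrix.mul_one]

private theorem Jgdt_key' (hn : b ^ 2 + 4 * a < 0) (y : MQ a b) (hy : y.det ≠ 0) (n m : ℕ)
    (hd : y.det ∣ (n : Qf a b ℤ)) (x : GQ a b) (hx : x ∈ Gam a b (m * n)) :
    ∃ x' ∈ Gam a b m, x.val * y = y * x'.val := by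
  have h1 : y.adjugate.det = y.det := by
    rw [Matrix.det_adjugate, Fintype.card_fin]
    exact pow_one _
  obtain ⟨x', hx', h2⟩ := Jgdt_key hn y.adjugate (by rw [h1]; exact hy) n m
    (by rw [h1]; exact hd) x hx
  refine ⟨x', hx', ?_⟩
  apply Jgdt_cancel hn hy
  have h3 : y * (x'.val * y.adjugate) * y = y * (y.adjugate * x.val) * y := by rw [h2]
  rw [← Matrix.mul_assoc y, ← Matrix.mul_assoc y, Matrix.mul_adjugate, Matrix.smul_mul,
    Matrix.one_mul, Matrix.mul_assoc, Matrix.adjugate_mul, Matrix.mul_smul, Matrix.mul_one,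
    Matrix.smul_mul] at h3
  exact h3.symm

private theorem Jgdt_red {m k : ℕ} (h : m ∣ k) : Gam a b k ≤ Gam a b m :=
  fun _ hx => con_red h hx

private theorem Jgdt_fin (m : ℕ) (hm : m ≠ 0) : (Gam a b m).FiniteIndex := by
  have : NeZero m := ⟨hm⟩
  have := con_finite a b m
  exact Subgroup.finiteIndex_ker (rdq a b m)

/-- the elements of `Γ(M')` which are conjugate to elements of `Γ` -/
private def Jgdt_E {K : Type} [Field K] (φ : Qf a b ℤ →+* K) (Γ : Subgroup (PGK K)) (M' : ℕ)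
    (y : MQ a b) : Subgroup (GQ a b) where
  carrier := {x' | x' ∈ Gam a b M' ∧ ∃ x : GQ a b, x.val * y = y * x'.val ∧ pcQ φ x ∈ Γ}
  one_mem' := ⟨one_mem _, 1, by
    show (1 : MQ a b) * y = y * (1 : MQ a b)
    rw [Matrix.one_mul, Matrix.mul_one], by rw [map_one]; exact one_mem _⟩
  mul_mem' := by
    rintro x' z' ⟨hx', x, hx, hxΓ⟩ ⟨hz', z, hz, hzΓ⟩
    refine ⟨mul_mem hx' hz', x * z, ?_, by rw [map_mul]; exact mul_mem hxΓ hzΓ⟩
    show (x.val * z.val) * y = y * (x'.val * z'.val)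
    rw [Matrix.mul_assoc, hz, ← Matrix.mul_assoc, hx, Matrix.mul_assoc]
  inv_mem' := by
    rintro x' ⟨hx', x, hx, hxΓ⟩
    refine ⟨inv_mem hx', x⁻¹, ?_, by rw [map_inv]; exact inv_mem hxΓ⟩
    have h1 : x⁻¹.val * x.val = 1 := congrArg Subtype.val (inv_mul_cancel x)
    have h2 : x'.val * x'⁻¹.val = 1 := congrArg Subtype.val (mul_inv_cancel x')
    calc x⁻¹.val * y = x⁻¹.val * y * (x'.val * x'⁻¹.val) := by rw [h2, Matrix.mul_one]
      _ = x⁻¹.val * (y * x'.val) * x'⁻¹.val := by simp only [Matrix.mul_assoc]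
      _ = x⁻¹.val * (x.val * y) * x'⁻¹.val := by rw [hx]
      _ = (x⁻¹.val * x.val) * y * x'⁻¹.val := by simp only [Matrix.mul_assoc]
      _ = y * x'⁻¹.val := by rw [h1, Matrix.one_mul]

end

theorem p_Jgdt (hcore : J_core) : J_gdt := by
  intro a b hn K _ φ hF hR Γ m₀ hm₀ hΓ hfi M' hM' y hy
  obtain ⟨n, hn0, hd⟩ := E_dvd hn y.det hy
  have hm3 : m₀ * M' * n ≠ 0 := by
    have : M' ≠ 0 := by omega
    exact mul_ne_zero (mul_ne_zero hm₀ this) hn0.ne'
  have hle3 : Gam a b (m₀ * M' * n) ≤ Gam a b m₀ :=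
    Jgdt_red ((Dvd.intro _ rfl : m₀ ∣ m₀ * M').trans (Dvd.intro _ rfl))
  have hle3' : Gam a b (m₀ * M' * n) ≤ Gam a b M' :=
    Jgdt_red ((Dvd.intro_left _ rfl : M' ∣ m₀ * M').trans (Dvd.intro _ rfl))
  -- the subgroup `E`
  have hE3 : Gam a b (m₀ * M' * n) ≤ Jgdt_E φ Γ M' y := by
    intro x' hx'
    obtain ⟨x, hx, hxy⟩ := Jgdt_key hn y hy n (m₀ * M') hd x' hx'
    exact ⟨hle3' hx', x, hxy, hΓ x (Jgdt_red (Dvd.intro _ rfl) hx)⟩
  have hEfi : (Jgdt_E φ Γ M' y).FiniteIndex := by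
    have := Jgdt_fin (a := a) (b := b) (m₀ * M' * n) hm3
    exact Subgroup.finiteIndex_of_le hE3
  have hEM : Jgdt_E φ Γ M' y ≤ Gam a b M' := fun x hx => hx.1
  -- the homomorphism `σ`
  have hσ : ∀ x' : Jgdt_E φ Γ M' y, ∃ x : GQ a b, x.val * y = y * x'.val.val ∧ pcQ φ x ∈ Γ :=
    fun x' => x'.property.2
  choose s hs1 hs2 using hσ
  have huniq : ∀ x z : GQ a b, x.val * y = z.val * y → x = z := fun x z h =>
    Subtype.ext (Jgdt_right hn hy h)
  let σ : Jgdt_E φ Γ M' y →* GQ a b := MonoidHom.mk' s (by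
    intro x' z'
    apply huniq
    rw [hs1]
    show y * (x'.val.val * z'.val.val) = (s x').val * (s z').val * y
    symm
    calc (s x').val * (s z').val * y = (s x').val * ((s z').val * y) := Matrix.mul_assoc _ _ _
      _ = (s x').val * (y * z'.val.val) := by rw [hs1]
      _ = (s x').val * y * z'.val.val := (Matrix.mul_assoc _ _ _).symm
      _ = y * x'.val.val * z'.val.val := by rw [hs1]
      _ = y * (x'.val.val * z'.val.val) := Matrix.mul_assoc _ _ _)
  have hσ1 : ∀ x' : Jgdt_E φ Γ M' y, (σ x').val * y = y * x'.val.val := hs1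
  have hσ2 : ∀ x' : Jgdt_E φ Γ M' y, pcQ φ (σ x') ∈ Γ := hs2
  let ψ : Jgdt_E φ Γ M' y →* Γ := ((pcQ φ).comp σ).codRestrict Γ hσ2
  have hψ : ∀ x', (ψ x').val = pcQ φ (σ x') := fun _ => rfl
  have hψinj : Function.Injective ψ := by
    rw [injective_iff_map_eq_one]
    intro x' h1
    have h2 : pcQ φ (σ x') = pcQ φ 1 := by
      rw [map_one, ← hψ, h1]
      rfl
    rw [hR.pce] at h2
    rcases h2 with h2 | h2
    · have h3 := hσ1 x'
      rw [h2] at h3
      have h4 : y * (1 : MQ a b) = y * x'.val.val := by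
        rw [← h3, Matrix.mul_one]
        exact (Matrix.one_mul y).symm
      exact Subtype.ext (Subtype.ext (Jgdt_left hn hy h4).symm)
    · exfalso
      have h3 := hσ1 x'
      rw [h2] at h3
      have h4 : y * (-1 : MQ a b) = y * x'.val.val := by
        rw [← h3, Matrix.mul_neg, Matrix.mul_one]
        show -y = (-(1 : MQ a b)) * y
        rw [Matrix.neg_mul, Matrix.one_mul]
      have h5 : x'.val = -1 := Subtype.ext (Jgdt_left hn hy h4).symm
      exact con_neg hM' (hEM x'.property) h5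
  -- the core
  have hfi3 : (((Gam a b (m₀ * M' * n)).map (pcQ φ)).subgroupOf Γ).FiniteIndex := by
    let f : Gam a b m₀ →* Γ := ((pcQ φ).comp (Gam a b m₀).subtype).codRestrict Γ
      fun x => hΓ x.val x.property
    have hf1 : f.range = ((Gam a b m₀).map (pcQ φ)).subgroupOf Γ := by
      ext x
      rw [Subgroup.mem_subgroupOf, Subgroup.mem_map, MonoidHom.mem_range]
      constructor
      · rintro ⟨z, rfl⟩
        exact ⟨z.val, z.property, rfl⟩
      · rintro ⟨z, hz, h⟩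
        exact ⟨⟨z, hz⟩, Subtype.ext h⟩
    have hf2 : (((Gam a b (m₀ * M' * n)).subgroupOf (Gam a b m₀)).map f) =
        ((Gam a b (m₀ * M' * n)).map (pcQ φ)).subgroupOf Γ := by
      ext x
      rw [Subgroup.mem_subgroupOf, Subgroup.mem_map, Subgroup.mem_map]
      constructor
      · rintro ⟨z, hz, rfl⟩
        exact ⟨z.val, hz, rfl⟩
      · rintro ⟨z, hz, h⟩
        exact ⟨⟨z, hle3 hz⟩, hz, Subtype.ext h⟩
    rw [← hf2]
    have h3 := Jgdt_fin (a := a) (b := b) (m₀ * M' * n) hm3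
    refine con_map_index f (by rw [hf1]; exact hfi) _ ?_
    infer_instance
  obtain ⟨m₂, hm2, -, Q', _, _, π', hk1, hk2⟩ := hcore a b hn K φ hF hR Γ (m₀ * M' * n) hm3
    (fun x hx => hΓ x (hle3 hx)) hfi3
  have hker : π'.ker ≤ ψ.range := by
    intro x hx
    obtain ⟨z, hz, hzx⟩ := hk1 x hx
    obtain ⟨x', hx', hxy⟩ := Jgdt_key' hn y hy n (m₀ * M') hd z hz
    have hxE : x' ∈ Jgdt_E φ Γ M' y :=
      ⟨Jgdt_red (Dvd.intro_left _ rfl) hx', z, hxy, by rw [hzx]; exact x.property⟩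
    refine ⟨⟨x', hxE⟩, Subtype.ext ?_⟩
    rw [hψ, ← hzx]
    congr 1
    apply huniq
    rw [hσ1, hxy]
  have hcm : (ψ.range.map π').comap π' = ψ.range := Subgroup.comap_map_eq_self hker
  let e : Jgdt_E φ Γ M' y ≃* (ψ.range.map π').comap π' :=
    (MonoidHom.ofInjective hψinj).trans (MulEquiv.subgroupCongr hcm.symm)
  refine ⟨m₂, hm2, Q', inferInstance, inferInstance, π', ψ.range.map π', Jgdt_E φ Γ M' y, σ, e,
    hEfi, hEM, hσ1, fun x => rfl, ?_, ?_⟩
  · intro x hx h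
    exact hk2 ⟨pcQ φ x, h⟩ ⟨x, hx, rfl⟩
  · intro x x' hx' hxy h
    rw [hcm]
    have hxE : x' ∈ Jgdt_E φ Γ M' y := ⟨hx', x, hxy, h⟩
    refine ⟨⟨x', hxE⟩, Subtype.ext ?_⟩
    rw [hψ]
    congr 1
    apply huniq
    rw [hσ1, hxy]

end

end Pool.Agent.F8.CG
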