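import Pool.Agent.Lib.MP_305fdd_al.F8.CG.StmJ

/-!
# MP_305fdd_al, congruence subgroups: piece J gtr (helper43)
-/

set_option autoImplicit false

namespace Pool.Agent.F8.CG

open Pool.Agent.F8.BG Pool.Agent.MP_305fdd_al Pool.Agent.Lib.MP_305fdd_al Pool.Agent.F8
open scoped QuadraticAlgebra

noncomputable section

private theorem Jgtr_dvd {a b : ℤ} (m : ℕ) (z : Qf a b ℤ) :
    (m : Qf a b ℤ) ∣ z ↔ Qfm a b (Int.castRingHom (ZMod m)) z = 0 := by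
  constructor
  · rintro ⟨c, rfl⟩
    have h : ((m : ℕ) : Qf a b (ZMod m)) = 0 := by
      apply QuadraticAlgebra.ext
      · rw [QuadraticAlgebra.re_natCast]
        simp
      · rw [QuadraticAlgebra.im_natCast]
        simp
    rw [map_mul, map_natCast, h, zero_mul]
  · exact E_ker a b m z

private theorem Jgtr_mem {a b : ℤ} {m : ℕ} {x : GQ a b} : x ∈ Gam a b m ↔
    ∀ i j, (m : Qf a b ℤ) ∣ x.val i j - (1 : MQ a b) i j := by
  constructor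
  · intro h i j
    rw [Jgtr_dvd, map_sub, sub_eq_zero]
    have h1 : rdq a b m x = 1 := h
    have h2 : (rdq a b m x).val i j = (1 : Matrix (Fin 2) (Fin 2) (Qf a b (ZMod m))) i j := by
      rw [h1]
      rfl
    refine Eq.trans h2 ?_
    rw [Matrix.one_apply, Matrix.one_apply]
    split_ifs
    · rw [map_one]
    · rw [map_zero]
  · intro h
    show rdq a b m x = 1
    refine Subtype.ext (Matrix.ext fun i j => ?_)
    show Qfm a b (Int.castRingHom (ZMod m)) (x.val i j) =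
      (1 : Matrix (Fin 2) (Fin 2) (Qf a b (ZMod m))) i j
    have h1 := h i j
    rw [Jgtr_dvd, map_sub, sub_eq_zero] at h1
    rw [h1, Matrix.one_apply, Matrix.one_apply]
    split_ifs
    · rw [map_one]
    · rw [map_zero]

private theorem Jgtr_le {a b : ℤ} {m n : ℕ} (h : m ∣ n) : Gam a b n ≤ Gam a b m := gam_le h

private theorem Jgtr_fi {G Q : Type} [Group G] [Group Q] [Finite Q] (f : G →* Q)
    (S : Subgroup Q) : (S.comap f).FiniteIndex := by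
  have h1 : f.ker ≤ S.comap f := fun x hx => by
    show f x ∈ S
    rw [MonoidHom.mem_ker.1 hx]
    exact S.one_mem
  have h2 : f.ker.FiniteIndex := Subgroup.finiteIndex_ker f
  exact Subgroup.finiteIndex_of_le h1

/-- the trace of the product with a matrix which is scalar modulo `k` -/
private theorem Jgtr_trz {a b : ℤ} {k : ℕ} {z : GQ a b} (hz : ScQ k z.val) (y : GQ a b) :
    (k : Qf a b ℤ) ∣ tr (y * z) - z.val 0 0 * tr y := by
  obtain ⟨h1, h2, h3⟩ := hz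
  have e : tr (y * z) - z.val 0 0 * tr y =
      y.val 0 1 * z.val 1 0 + y.val 1 0 * z.val 0 1 - y.val 1 1 * (z.val 0 0 - z.val 1 1) := by
    rw [tr_eq, tr_eq]
    have e1 : (y * z).val 0 0 = y.val 0 0 * z.val 0 0 + y.val 0 1 * z.val 1 0 := by
      show (y.val * z.val) 0 0 = _
      rw [Matrix.mul_apply, Fin.sum_univ_two]
    have e2 : (y * z).val 1 1 = y.val 1 0 * z.val 0 1 + y.val 1 1 * z.val 1 1 := by
      show (y.val * z.val) 1 1 = _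
      rw [Matrix.mul_apply, Fin.sum_univ_two]
    rw [e1, e2]
    ring
  rw [e]
  exact dvd_sub (dvd_add (h2.mul_left _) (h1.mul_left _)) (h3.mul_left _)

private theorem Jgtr_neg {a b : ℤ} (x : GQ a b) : tr (-x) = -tr x := by
  rw [tr_eq, tr_eq]
  show -x.val 0 0 + -x.val 1 1 = _
  ring

/-- (1) the values of `T` modulo `k` -/
private theorem Jgtr_one {a b : ℤ} {G : Type} [Group G] {Λ : Type}
    [Group Λ] (Φ : NatBij G Λ) {Q' : Type} [Group Q'] [Finite Q'] (π' : G →* Q')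
    (S : Subgroup Q') (E : Subgroup (GQ a b)) (σ : E →* GQ a b) (e : E ≃* S.comap π')
    (Ψ₀ : NatBij (S.comap π') (S.comap (Φ.toFun Q' π')))
    (hΨ : ∀ (R : Type) [Group R] [Finite R] (θ : G →* R),
      Ψ₀.toFun R (θ.comp (S.comap π').subtype) =
        (Φ.toFun R θ).comp (S.comap (Φ.toFun Q' π')).subtype)
    (T : S.comap (Φ.toFun Q' π') → Qf a b ℤ) (hT : Red (natBij_equiv e Ψ₀) σ T) (k : ℕ)
    [NeZero k] :
    ∃ (R : Type) (_ : Group R) (_ : Finite R) (θ : G →* R),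
      ∀ (l : S.comap (Φ.toFun Q' π')) (x : E),
      θ (e x).val = Φ.toFun R θ l → (k : Qf a b ℤ) ∣ T l - tr (σ x) := by
  classical
  let ψ : S.comap π' →* SL2 (Qf a b (ZMod k)) := ((rdq a b k).comp σ).comp e.symm.toMonoidHom
  have hSf : (S.comap π').FiniteIndex := Jgtr_fi π' S
  let N : Subgroup G := ψ.ker.map (S.comap π').subtype
  have hNfin : N.FiniteIndex := by
    refine ⟨?_⟩
    have h1 : N.index = ψ.ker.index * (S.comap π').index := Subgroup.index_map_subtype _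
    have h2 : ψ.ker.index ≠ 0 := (Subgroup.finiteIndex_ker ψ).index_ne_zero
    rw [h1]
    exact mul_ne_zero h2 hSf.index_ne_zero
  let N₀ : Subgroup G := N.normalCore
  have hN₀ : N₀ ≤ N := Subgroup.normalCore_le N
  have hN₀fin : N₀.FiniteIndex := Subgroup.finiteIndex_normalCore N
  have hfq : Finite (G ⧸ N₀) := Subgroup.finite_quotient_of_finiteIndex
  let θ : G →* G ⧸ N₀ := QuotientGroup.mk' N₀
  have hwd : ∀ ν ν' : S.comap π', θ ν = θ ν' → ψ ν = ψ ν' := by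
    intro ν ν' h
    have h1 : (ν : G)⁻¹ * ν' ∈ N₀ := QuotientGroup.eq.1 h
    obtain ⟨k, hk, hk2⟩ := hN₀ h1
    have h2 : k = ν⁻¹ * ν' := Subtype.ext hk2
    have h3 : ψ k = 1 := hk
    rw [h2, map_mul, map_inv] at h3
    exact inv_mul_eq_one.1 h3
  refine ⟨G ⧸ N₀, inferInstance, hfq, θ, fun l x h => ?_⟩
  obtain ⟨g, hg1, hg2⟩ := pair_val Ψ₀ ψ (θ.comp (S.comap π').subtype) l
  rw [hΨ] at hg2
  have h4 : θ (g : G) = θ (e x).val := by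
    rw [h]
    exact hg2
  have h5 := hwd g (e x) h4
  have h6 := hT (Qf a b (ZMod k)) (Qfm a b (Int.castRingHom (ZMod k))) l
  have h7 : (natBij_equiv e Ψ₀).toFun _ ((SLm (Qfm a b (Int.castRingHom (ZMod k)))).comp σ) l =
      ψ (e x) := by
    rw [← h5]
    exact hg1.symm
  have h8 : ψ (e x) = rdq a b k (σ x) := by
    show rdq a b k (σ (e.symm (e x))) = _
    rw [e.symm_apply_apply]
  rw [Jgtr_dvd, map_sub, h6, h7, h8, sub_eq_zero]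
  exact tr_map _ _

/-- PIECE CG J gtr -/
theorem p_Jgtr (hgdt : J_gdt) (hcmp : J_cmp) (hact : J_act) (_huq : J_uq) (hmul : J_mul)
    (hsc : J_sc) (hnz : J_nz) (hpi : J_pi) : J_gtr := by
  intro a b K _ φ Γ m₀ m₁ Λ _ _ Φ Q _ _ π L ρ HJ HR hpid hfin k₀ hk₀ hsq M' hM' hUni x y hx hCj
    k₁ hk₁
  classical
  have hdom : IsDomain (Qf a b ℤ) := Qf_domain HJ.neg
  obtain ⟨hy, x₁', hx₁', hxy⟩ := hCj
  have hm₀ : m₀ ≠ 0 := by
    have := HJ.h5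
    omega
  obtain ⟨m₂, hm₂, Q', _, _, π', S, E, σ, e, hEf, hEM, hσ, hσe, hπ2, hS⟩ :=
    hgdt a b HJ.neg K φ HJ.frac HR Γ m₀ hm₀ HJ.le hfin M' hM' y hy
  obtain ⟨Ψ₀, hΨ₀⟩ := natBij_comap Φ (π := π') rfl S
  have hΛf : (S.comap (Φ.toFun Q' π')).FiniteIndex := Jgtr_fi _ _
  have hfg : Group.FG (S.comap (Φ.toFun Q' π')) := inferInstance
  obtain ⟨T, hT⟩ := hUni E hEf hEM σ ⟨y, hy, hσ⟩ (S.comap (Φ.toFun Q' π')) (natBij_equiv e Ψ₀)
  -- (2)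
  have hA : ∀ (l : S.comap (Φ.toFun Q' π')) (τ : PGK K), IsTh φ Φ π ρ (l : Λ) τ →
      ∀ k : ℕ, k ≠ 0 → k₀ ∣ k → ∃ (x : E) (h z : GQ a b), h ∈ Gam a b m₁ ∧ ScQ k z.val ∧
        (k : Qf a b ℤ) ∣ z.val 0 0 ^ 2 - 1 ∧ τ = pcQ φ (h * σ x * h⁻¹ * z) ∧
        (k : Qf a b ℤ) ∣ tr (h * σ x * h⁻¹ * z) - z.val 0 0 * T l ∧
        π (e x).val = Φ.toFun Q π l := by
    intro l τ hτ k hk hkk
    have : NeZero k := ⟨hk⟩
    obtain ⟨R, _, _, θ, hθ⟩ := Jgtr_one Φ π' S E σ e Ψ₀ hΨ₀ T hT k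
    obtain ⟨γ, hγ, h, hh, δ, hδ, hτ'⟩ := hcmp a b K φ Γ m₀ m₁ Λ Φ Q π L ρ HJ HR hpid l τ hτ k
      (Q' × (Q × R)) (π'.prod (π.prod θ))
    rw [pair_prod, pair_prod] at hγ
    have e1 : π' γ = Φ.toFun Q' π' l := congrArg Prod.fst hγ
    have e2 : π γ = Φ.toFun Q π l := congrArg (fun p => p.2.1) hγ
    have e3 : θ γ = Φ.toFun R θ l := congrArg (fun p => p.2.2) hγ
    have hγS : γ ∈ S.comap π' := by
      show π' γ ∈ S
      rw [e1]
      exact l.2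
    obtain ⟨z, hz, hzδ⟩ := (hsc a b HJ.neg K φ HR k₀ hsq k hkk).1 δ hδ
    have hz1 := ((hsc a b HJ.neg K φ HR k₀ hsq k hkk).2 z hz).1
    obtain ⟨x, hex⟩ : ∃ x : E, e x = ⟨γ, hγS⟩ := ⟨e.symm ⟨γ, hγS⟩, e.apply_symm_apply _⟩
    have hσx : pcQ φ (σ x) = γ.val := by
      rw [hσe, hex]
    refine ⟨x, h, z, hh, hz, hz1, ?_, ?_, ?_⟩
    · rw [hτ', ← hzδ, map_mul, map_mul, map_mul, map_inv, hσx]
    · have h2 := hθ l x (by rw [hex]; exact e3)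
      have h3 := Jgtr_trz hz (h * σ x * h⁻¹)
      have h4 : tr (h * σ x * h⁻¹) = tr (σ x) := by
        rw [tr_mul_comm', ← mul_assoc, inv_mul_cancel, one_mul]
      rw [h4] at h3
      have h5 : tr (h * σ x * h⁻¹ * z) - z.val 0 0 * T l =
          (tr (h * σ x * h⁻¹ * z) - z.val 0 0 * tr (σ x)) - z.val 0 0 * (T l - tr (σ x)) := by
        ring
      rw [h5]
      exact dvd_sub h3 (h2.mul_left _)
    · rw [hex]
      exact e2
  have hB : ∀ (l : S.comap (Φ.toFun Q' π')) (W : GQ a b), IsTh φ Φ π ρ (l : Λ) (pcQ φ W) →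
      tr W = T l ∨ tr W = -T l := by
    intro l W hW
    have key : tr W ^ 2 - T l ^ 2 = 0 := by
      apply eq_zero_of_all
      intro m _
      rw [← Jgtr_dvd]
      obtain ⟨x, h, z, -, -, hz, hτ, htr, -⟩ := hA l _ hW (k₀ * m)
        (mul_ne_zero hk₀ (NeZero.ne m)) (Dvd.intro _ rfl)
      have h2 : tr W ^ 2 = tr (h * σ x * h⁻¹ * z) ^ 2 := by
        rcases (HR.pce _ _).1 hτ with h | h
        · rw [h]
        · rw [h, Jgtr_neg, neg_sq]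
      have h3 : ((k₀ * m : ℕ) : Qf a b ℤ) ∣ tr W ^ 2 - T l ^ 2 := by
        rw [h2]
        have h4 : tr (h * σ x * h⁻¹ * z) ^ 2 - T l ^ 2 =
            (tr (h * σ x * h⁻¹ * z) - z.val 0 0 * T l) *
              (tr (h * σ x * h⁻¹ * z) + z.val 0 0 * T l) + (z.val 0 0 ^ 2 - 1) * T l ^ 2 := by
          ring
        rw [h4]
        exact dvd_add (htr.mul_right _) (hz.mul_right _)
      exact dvd_trans ⟨(k₀ : Qf a b ℤ), by push_cast; ring⟩ h3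
    have h4 : (tr W - T l) * (tr W + T l) = 0 := by linear_combination key
    rcases mul_eq_zero.1 h4 with h | h
    · left
      exact sub_eq_zero.1 h
    · right
      exact eq_neg_of_add_eq_zero_left h
  -- (3)
  have hxS : (⟨pcQ φ x, hx⟩ : Γ) ∈ S.comap π' := hS x x₁' hx₁' hxy hx
  obtain ⟨l₀, hl₀⟩ : ∃ l₀, Φ.toFun _ (π'.prod π) l₀ = (π'.prod π) ⟨pcQ φ x, hx⟩ := by
    have h : (π'.prod π) ⟨pcQ φ x, hx⟩ ∈ (Φ.toFun _ (π'.prod π)).range := by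
      rw [Φ.range_eq]
      exact ⟨_, rfl⟩
    exact h
  rw [pair_prod] at hl₀
  have hl₀1 : Φ.toFun Q' π' l₀ = π' ⟨pcQ φ x, hx⟩ := congrArg Prod.fst hl₀
  have hl₀2 : Φ.toFun Q π l₀ = π ⟨pcQ φ x, hx⟩ := congrArg Prod.snd hl₀
  have hl₀S : l₀ ∈ S.comap (Φ.toFun Q' π') := by
    show Φ.toFun Q' π' l₀ ∈ S
    rw [hl₀1]
    exact hxS
  obtain ⟨τ₀, hτ₀⟩ := hact a b K φ Γ m₀ m₁ Λ Φ Q π L ρ HJ HR l₀
  obtain ⟨W₀, hW₀⟩ : ∃ W₀ : GQ a b, τ₀ = pcQ φ W₀ := by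
    obtain ⟨x, h, z, -, -, -, h1, -⟩ := hA ⟨l₀, hl₀S⟩ τ₀ hτ₀ k₀ hk₀ dvd_rfl
    exact ⟨_, h1⟩
  have hne : NeZero (m₁ * m₂) := ⟨mul_ne_zero HJ.ne hm₂⟩
  obtain ⟨g, hg, hgt⟩ := hnz a b HJ.neg (m₁ * m₂) (mul_ne_zero HJ.ne hm₂) W₀.val (by
    intro h0
    have h1 := W₀.2
    rw [h0, Matrix.det_zero] at h1
    exact zero_ne_one h1)
  have hg1 : g ∈ Gam a b m₁ := Jgtr_le (Dvd.intro _ rfl) hg
  have hg0 : g ∈ Gam a b m₀ := Jgtr_le HJ.dvd hg1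
  obtain ⟨y', hy'⟩ : ∃ y' : L, ρ y' = g := by
    have h : g ∈ ρ.range := by
      rw [HJ.rng]
      exact hg0
    exact h
  have hyπ : Φ.toFun Q π y' = 1 := by
    have h1 : pcQ φ (ρ y') ∈ Γ := by
      rw [hy']
      exact HJ.le g hg0
    rw [hpi a b K φ Γ m₀ m₁ Λ Φ Q π L ρ HJ y' h1]
    refine HJ.ker' _ ⟨g, hg1, ?_⟩
    show pcQ φ g = pcQ φ (ρ y')
    rw [hy']
  have hyπ' : Φ.toFun Q' π' y' = 1 := by
    obtain ⟨R, _, _, θ, h, hh, hap⟩ := HJ.apx (m₁ * m₂)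
    obtain ⟨γ, hγ1, hγ2⟩ := pair_val Φ (θ.prod π') π (y' : Λ)
    rw [pair_prod] at hγ1
    have e1 : θ γ = Φ.toFun R θ y' := congrArg Prod.fst hγ1
    have e2 : π' γ = Φ.toFun Q' π' y' := congrArg Prod.snd hγ1
    obtain ⟨x', hx', hxγ⟩ := HJ.ker γ (by rw [hγ2, hyπ])
    have hγe : γ = ⟨pcQ φ x', HJ.le x' hx'⟩ := Subtype.ext hxγ.symm
    have h2 := hap y' x' hx' (by rw [← hγe]; exact e1)
    rw [hy', show rdq a b (m₁ * m₂) g = 1 from hg, map_mul, map_mul, map_inv] at h2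
    have h3 : rdq a b (m₁ * m₂) x' = 1 := by
      have h4 := h2.symm
      rw [mul_inv_eq_one] at h4
      exact mul_left_cancel (h4.trans (mul_one _).symm)
    have h4 : x' ∈ Gam a b m₂ := Jgtr_le (Dvd.intro_left _ rfl) h3
    rw [← e2, hγe]
    exact hπ2 x' h4 _
  have hl₁S : l₀ * y' ∈ S.comap (Φ.toFun Q' π') := by
    show Φ.toFun Q' π' (l₀ * y') ∈ S
    rw [map_mul, hyπ', mul_one]
    exact hl₀S
  have hl₁ : Φ.toFun Q π (l₀ * y') = π ⟨pcQ φ x, hx⟩ := by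
    rw [map_mul, hyπ, mul_one, hl₀2]
  obtain ⟨hmul1, hmul2, -, -⟩ := hmul a b K φ Γ m₀ m₁ Λ Φ Q π L ρ HJ HR
  have hτ₁ : IsTh φ Φ π ρ (l₀ * y') (pcQ φ (W₀ * g)) := by
    have h1 := hmul1 l₀ y' τ₀ (pcQ φ (ρ y')) hτ₀ (hmul2 y')
    rw [hW₀, hy', ← map_mul] at h1
    exact h1
  obtain ⟨t, ht⟩ : ∃ t, T ⟨l₀ * y', hl₁S⟩ = t := ⟨_, rfl⟩
  have hT1 : t ≠ 0 := by
    intro h0
    rcases hB ⟨l₀ * y', hl₁S⟩ (W₀ * g) hτ₁ with h | h
    · exact hgt (h.trans (ht.trans h0))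
    · refine hgt (h.trans ?_)
      rw [ht, h0, neg_zero]
  -- (4)
  obtain ⟨n, hn, c, hc⟩ := E_dvd HJ.neg t hT1
  obtain ⟨x₂, h, z, hh, hz, -, hτ, htr, hπx⟩ := hA ⟨l₀ * y', hl₁S⟩ _ hτ₁ (k₀ * k₁ * n)
    (mul_ne_zero (mul_ne_zero hk₀ hk₁) hn.ne') (Dvd.intro (k₁ * n) (by ring))
  rw [ht] at htr
  have hτ₂ : IsTh φ Φ π ρ (l₀ * y') (pcQ φ (h * σ x₂ * h⁻¹ * z)) := by
    rw [← hτ]
    exact hτ₁
  obtain ⟨ε, hε, hεz⟩ : ∃ ε : Qf a b ℤ, (ε = 1 ∨ ε = -1) ∧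
      (k₁ : Qf a b ℤ) ∣ z.val 0 0 - ε := by
    have key : ∀ ε : Qf a b ℤ, tr (h * σ x₂ * h⁻¹ * z) = ε * t →
        (k₁ : Qf a b ℤ) ∣ z.val 0 0 - ε := by
      intro ε hε
      rw [hε] at htr
      obtain ⟨d, hd⟩ := htr
      push_cast at hd
      have h2 : (n : Qf a b ℤ) * (z.val 0 0 - ε) =
          n * ((k₁ : Qf a b ℤ) * (-(k₀ * d * c))) := by
        have h3 : (z.val 0 0 - ε) * t = -(k₀ * k₁ * n * d) := by linear_combination -hd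
        calc (n : Qf a b ℤ) * (z.val 0 0 - ε) = (z.val 0 0 - ε) * t * c := by
              rw [hc]; ring
          _ = _ := by rw [h3]; ring
      have h4 : (n : Qf a b ℤ) ≠ 0 := by exact_mod_cast hn.ne'
      exact ⟨_, mul_left_cancel₀ h4 h2⟩
    rcases hB ⟨l₀ * y', hl₁S⟩ _ hτ₂ with h | h
    · exact ⟨1, Or.inl rfl, key 1 (by rw [h, ht, one_mul])⟩
    · exact ⟨-1, Or.inr rfl, key (-1) (by rw [h, ht, neg_one_mul])⟩
  obtain ⟨hz1, hz2, hz3⟩ := hz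
  have hkd : (k₁ : Qf a b ℤ) ∣ ((k₀ * k₁ * n : ℕ) : Qf a b ℤ) :=
    ⟨(k₀ : Qf a b ℤ) * n, by push_cast; ring⟩
  obtain ⟨z', hz', hzz⟩ : ∃ z' ∈ Gam a b k₁, pcQ φ z' = pcQ φ z := by
    rcases hε with rfl | rfl
    · refine ⟨z, ?_, rfl⟩
      rw [Jgtr_mem]
      intro i j
      fin_cases i <;> fin_cases j
      · exact hεz
      · show _ ∣ z.val 0 1 - 0
        rw [sub_zero]
        exact hkd.trans hz1
      · show _ ∣ z.val 1 0 - 0
        rw [sub_zero]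
        exact hkd.trans hz2
      · show _ ∣ z.val 1 1 - 1
        have h2 : z.val 1 1 - 1 = (z.val 0 0 - 1) - (z.val 0 0 - z.val 1 1) := by ring
        rw [h2]
        exact dvd_sub hεz (hkd.trans hz3)
    · refine ⟨-z, ?_, (HR.pce _ _).2 (Or.inr rfl)⟩
      rw [Jgtr_mem]
      intro i j
      fin_cases i <;> fin_cases j
      · show _ ∣ -z.val 0 0 - 1
        have h2 : -z.val 0 0 - 1 = -(z.val 0 0 - (-1)) := by ring
        rw [h2, dvd_neg]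
        exact hεz
      · show _ ∣ -z.val 0 1 - 0
        rw [sub_zero, dvd_neg]
        exact hkd.trans hz1
      · show _ ∣ -z.val 1 0 - 0
        rw [sub_zero, dvd_neg]
        exact hkd.trans hz2
      · show _ ∣ -z.val 1 1 - 1
        have h2 : -z.val 1 1 - 1 = -((z.val 0 0 - (-1)) - (z.val 0 0 - z.val 1 1)) := by ring
        rw [h2, dvd_neg]
        exact dvd_sub hεz (hkd.trans hz3)
  have hhΓ : pcQ φ h ∈ Γ := HJ.le h (Jgtr_le HJ.dvd hh)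
  have hσx : pcQ φ (h * σ x₂ * h⁻¹) = pcQ φ h * (e x₂).val.val * (pcQ φ h)⁻¹ := by
    rw [map_mul, map_mul, map_inv, hσe]
  have hgΓ : pcQ φ (h * σ x₂ * h⁻¹) ∈ Γ := by
    rw [hσx]
    exact mul_mem (mul_mem hhΓ (e x₂).val.2) (inv_mem hhΓ)
  refine ⟨l₀ * y', pcQ φ (W₀ * g), hl₁, hτ₁, h * σ x₂ * h⁻¹, hgΓ, ?_, z', hz', ?_⟩
  · have h1 : (⟨pcQ φ (h * σ x₂ * h⁻¹), hgΓ⟩ : Γ) =
        ⟨pcQ φ h, hhΓ⟩ * (e x₂).val * (⟨pcQ φ h, hhΓ⟩ : Γ)⁻¹ := Subtype.ext hσx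
    have h2 : π ⟨pcQ φ h, hhΓ⟩ = 1 := HJ.ker' _ ⟨h, hh, rfl⟩
    rw [h1, map_mul, map_mul, map_inv, h2, one_mul, inv_one, mul_one, hπx]
    exact hl₁
  · rw [hzz, ← map_mul]
    exact hτ

end

end Pool.Agent.F8.CG
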