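import Pool.Agent.Lib.MP_305fdd_al.F8.CG.StmJ

/-!
# [CG J h] the conjugators can be chosen in `Γ(m₁)`

Pigeonhole on the classes modulo `Γ(m₁)` and the units.
-/

set_option autoImplicit false

namespace Pool.Agent.F8.CG

open Pool.Agent.F8.BG Pool.Agent.MP_305fdd_al Pool.Agent.Lib.MP_305fdd_al Pool.Agent.F8
open scoped QuadraticAlgebra

noncomputable section

/-- the matrix `diag(u, 1)` -/
private def Jh_d {R : Type} [CommRing R] (u : Rˣ) : Matrix (Fin 2) (Fin 2) R :=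
  !![(u : R), 0; 0, 1]

private theorem Jh_d1 {R : Type} [CommRing R] (u : Rˣ) : Jh_d u * Jh_d u⁻¹ = 1 := by
  unfold Jh_d
  rw [Matrix.mul_fin_two, Matrix.one_fin_two]
  simp

private theorem Jh_d2 {R : Type} [CommRing R] (u : Rˣ) : Jh_d u⁻¹ * Jh_d u = 1 := by
  unfold Jh_d
  rw [Matrix.mul_fin_two, Matrix.one_fin_two]
  simp

private theorem Jh_dd {R : Type} [CommRing R] (u : Rˣ) : (Jh_d u).det = u := by
  unfold Jh_d
  rw [Matrix.det_fin_two_of]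
  ring

/-- conjugation with `diag(u, 1)` -/
private def Jh_c {R : Type} [CommRing R] (u : Rˣ) : SL2 R →* SL2 R :=
  cjR (Jh_d u) (Jh_d u⁻¹) (Jh_d1 u) (Jh_d2 u)

private theorem Jh_c_val {R : Type} [CommRing R] (u : Rˣ) (x : SL2 R) :
    (Jh_c u x).val = Jh_d u * x.val * Jh_d u⁻¹ := rfl

private theorem Jh_c_inv {R : Type} [CommRing R] (u : Rˣ) (x : SL2 R) :
    Jh_c u⁻¹ (Jh_c u x) = x := by
  apply Subtype.ext
  rw [Jh_c_val, Jh_c_val, inv_inv]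
  exact cjR_cancel (Jh_d u) (Jh_d u⁻¹) (Jh_d1 u) (Jh_d2 u) x.val

private theorem Jh_map_d {R S : Type} [CommRing R] [CommRing S] (f : R →+* S) (u : Rˣ) :
    (Jh_d u).map f = Jh_d (Units.map f.toMonoidHom u) := by
  unfold Jh_d
  ext i j
  fin_cases i <;> fin_cases j <;> simp

private theorem Jh_map {R S : Type} [CommRing R] [CommRing S] (f : R →+* S) (u : Rˣ)
    (x : SL2 R) : SLm f (Jh_c u x) = Jh_c (Units.map f.toMonoidHom u) (SLm f x) := by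
  apply Subtype.ext
  show (Jh_d u * x.val * Jh_d u⁻¹).map f = Jh_d (Units.map f.toMonoidHom u) * x.val.map f *
    Jh_d (Units.map f.toMonoidHom u)⁻¹
  rw [Matrix.map_mul, Matrix.map_mul, Jh_map_d, Jh_map_d, map_inv]

/-- the unit modulo `k` -/
private def Jh_u (a b : ℤ) (k : ℕ) (u : (Qf a b ℤ)ˣ) : (Qf a b (ZMod k))ˣ :=
  Units.map (Qfm a b (Int.castRingHom (ZMod k))).toMonoidHom u

private theorem Jh_rdq {a b : ℤ} (k : ℕ) (u : (Qf a b ℤ)ˣ) (x : GQ a b) :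
    rdq a b k (Jh_c u x) = Jh_c (Jh_u a b k u) (rdq a b k x) :=
  Jh_map _ u x

private theorem Jh_gam {a b : ℤ} (k : ℕ) (u : (Qf a b ℤ)ˣ) {x : GQ a b} (hx : x ∈ Gam a b k) :
    Jh_c u x ∈ Gam a b k := by
  have h1 : rdq a b k x = 1 := hx
  show rdq a b k (Jh_c u x) = 1
  rw [Jh_rdq, h1, map_one]

/-- the conjugator for one modulus -/
private theorem Jh_one {a b : ℤ} {Λ : Type} [Group Λ] {m₀ : ℕ} {Ψ : NatBij (Gam a b m₀) Λ}
    {ρ : Λ →* GQ a b} (hD : DetU (Gam a b m₀).subtype Ψ ρ) (k : ℕ) [NeZero k] :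
    ∃ p : GQ a b × (Qf a b ℤ)ˣ, ∀ l, rdq a b k (ρ l) = rdq a b k p.1 *
      Jh_c (Jh_u a b k p.2) (Ψ.toFun _ ((rdq a b k).comp (Gam a b m₀).subtype) l) *
      (rdq a b k p.1)⁻¹ := by
  obtain ⟨C, E, h1, h2, h3, u, P, ⟨P, rfl⟩, h5⟩ := hD k
  have hdet : ((((P⁻¹ : (Qf a b (ZMod k))ˣ) : Qf a b (ZMod k)) • C) *
      Jh_d (Jh_u a b k u)⁻¹).det = 1 := by
    rw [Matrix.det_mul, Matrix.det_smul, h5, Jh_dd, Fintype.card_fin]
    have h6 : ((P⁻¹ : (Qf a b (ZMod k))ˣ) : Qf a b (ZMod k)) * (P : Qf a b (ZMod k)) = 1 :=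
      Units.inv_mul P
    have h7 : Qfm a b (Int.castRingHom (ZMod k)) (u : Qf a b ℤ) *
        (((Jh_u a b k u)⁻¹ : (Qf a b (ZMod k))ˣ) : Qf a b (ZMod k)) = 1 :=
      Units.mul_inv (Jh_u a b k u)
    calc ((P⁻¹ : (Qf a b (ZMod k))ˣ) : Qf a b (ZMod k)) ^ 2 *
          (Qfm a b (Int.castRingHom (ZMod k)) (u : Qf a b ℤ) * (P : Qf a b (ZMod k)) ^ 2) *
          (((Jh_u a b k u)⁻¹ : (Qf a b (ZMod k))ˣ) : Qf a b (ZMod k))
        = (((P⁻¹ : (Qf a b (ZMod k))ˣ) : Qf a b (ZMod k)) * (P : Qf a b (ZMod k))) ^ 2 *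
          (Qfm a b (Int.castRingHom (ZMod k)) (u : Qf a b ℤ) *
          (((Jh_u a b k u)⁻¹ : (Qf a b (ZMod k))ˣ) : Qf a b (ZMod k))) := by ring
      _ = 1 := by rw [h6, h7]; ring
  obtain ⟨γ, hγ⟩ := p_Csrd a b k ⟨_, hdet⟩
  refine ⟨(γ, u), fun l => ?_⟩
  have h8 : (rdq a b k γ).val = (((P⁻¹ : (Qf a b (ZMod k))ˣ) : Qf a b (ZMod k)) • C) *
      Jh_d (Jh_u a b k u)⁻¹ := by rw [hγ]
  set R := Ψ.toFun _ ((rdq a b k).comp (Gam a b m₀).subtype) l with hR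
  -- `rdq γ * diag * R = rdq (ρ l) * rdq γ * diag` in the form with `C`
  have h9 : rdq a b k (ρ l) * rdq a b k γ =
      rdq a b k γ * Jh_c (Jh_u a b k u) R := by
    apply Subtype.ext
    show (rdq a b k (ρ l)).val * (rdq a b k γ).val =
      (rdq a b k γ).val * (Jh_c (Jh_u a b k u) R).val
    rw [Jh_c_val, h8, h3 l, ← hR]
    simp only [Matrix.smul_mul, Matrix.mul_smul]
    congr 1
    calc C * R.val * E * (C * Jh_d (Jh_u a b k u)⁻¹)
        = C * R.val * (E * C) * Jh_d (Jh_u a b k u)⁻¹ := by simp only [Matrix.mul_assoc]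
      _ = C * R.val * Jh_d (Jh_u a b k u)⁻¹ := by rw [h2, Matrix.mul_one]
      _ = C * (Jh_d (Jh_u a b k u)⁻¹ * Jh_d (Jh_u a b k u)) * R.val *
            Jh_d (Jh_u a b k u)⁻¹ := by rw [Jh_d2, Matrix.mul_one]
      _ = _ := by simp only [Matrix.mul_assoc]
  show rdq a b k (ρ l) = rdq a b k γ * Jh_c (Jh_u a b k u) R * (rdq a b k γ)⁻¹
  rw [← h9, mul_inv_cancel_right]

/-- reduction from `K` to `k` -/
private theorem Jh_red {a b : ℤ} {Λ : Type} [Group Λ] {m₀ : ℕ} (Ψ : NatBij (Gam a b m₀) Λ)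
    {K k : ℕ} [NeZero K] [NeZero k] (hk : k ∣ K) :
    ∃ q : SL2 (Qf a b (ZMod K)) →* SL2 (Qf a b (ZMod k)),
      (∀ x, q (rdq a b K x) = rdq a b k x) ∧
      ∀ l, q (Ψ.toFun _ ((rdq a b K).comp (Gam a b m₀).subtype) l) =
        Ψ.toFun _ ((rdq a b k).comp (Gam a b m₀).subtype) l := by
  let q : Qf a b (ZMod K) →+* Qf a b (ZMod k) := Qfm a b (ZMod.castHom hk (ZMod k))
  have hq : (SLm q).comp (rdq a b K) = rdq a b k := by
    refine MonoidHom.ext fun x => Subtype.ext (Matrix.ext fun i j => ?_)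
    show q (Qfm a b (Int.castRingHom (ZMod K)) (x.val i j)) =
      Qfm a b (Int.castRingHom (ZMod k)) (x.val i j)
    have h4 : (Qfm a b (ZMod.castHom hk (ZMod k)))
        (Qfm a b (Int.castRingHom (ZMod K)) (x.val i j)) =
        Qfm a b (Int.castRingHom (ZMod k)) (x.val i j) := by
      rw [Qfm_apply, Qfm_apply, Qfm_apply]
      apply QuadraticAlgebra.ext
      · show ZMod.castHom _ (ZMod k) (Int.castRingHom (ZMod K) _) = _
        simp
      · show ZMod.castHom _ (ZMod k) (Int.castRingHom (ZMod K) _) = _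
        simp
    exact h4
  refine ⟨SLm q, fun x => DFunLike.congr_fun hq x, fun l => ?_⟩
  have h4 := Ψ.nat (SLm q) ((rdq a b K).comp (Gam a b m₀).subtype)
  rw [← MonoidHom.comp_assoc, hq] at h4
  exact (DFunLike.congr_fun h4 l).symm

/-- PIECE CG J h -/
theorem p_Jh : J_h := by
  intro a b _ hun m₀ m₁ _ _ Λ _ Ψ ρ hD hle hinj
  have hne : ∀ n : ℕ, NeZero (n + 1).factorial := fun n => ⟨Nat.factorial_ne_zero _⟩
  have hex : ∀ n : ℕ, ∃ p : GQ a b × (Qf a b ℤ)ˣ, ∀ l,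
      rdq a b (n + 1).factorial (ρ l) = rdq a b (n + 1).factorial p.1 *
        Jh_c (Jh_u a b (n + 1).factorial p.2)
          (Ψ.toFun _ ((rdq a b (n + 1).factorial).comp (Gam a b m₀).subtype) l) *
        (rdq a b (n + 1).factorial p.1)⁻¹ := fun n => Jh_one hD _
  choose p hp using hex
  obtain ⟨⟨g, u⟩, hinf⟩ := Finite.exists_infinite_fiber
    (fun n : ℕ => ((rdq a b m₁ (p n).1, (p n).2) : SL2 (Qf a b (ZMod m₁)) × (Qf a b ℤ)ˣ))
  rw [Set.infinite_coe_iff] at hinf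
  obtain ⟨n₀, hn₀⟩ := hinf.nonempty
  rw [Set.mem_preimage, Set.mem_singleton_iff, Prod.mk.injEq] at hn₀
  set γ : GQ a b := (p n₀).1 with hγ
  let ρ' : Λ →* GQ a b := (Jh_c u⁻¹).comp ((MulAut.conj γ⁻¹).toMonoidHom.comp ρ)
  have hρ' : ∀ l, ρ' l = Jh_c u⁻¹ (γ⁻¹ * ρ l * γ) := by
    intro l
    show Jh_c u⁻¹ (γ⁻¹ * ρ l * γ⁻¹⁻¹) = _
    rw [inv_inv]
  have hloc : ∀ (k : ℕ) [NeZero k], ∃ h ∈ Gam a b m₁, ∀ l, rdq a b k (ρ' l) = rdq a b k h *
      Ψ.toFun _ ((rdq a b k).comp (Gam a b m₀).subtype) l * (rdq a b k h)⁻¹ := by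
    intro k hk0
    obtain ⟨n, hn, hkn⟩ := hinf.exists_gt k
    rw [Set.mem_preimage, Set.mem_singleton_iff, Prod.mk.injEq] at hn
    have hdvd : k ∣ (n + 1).factorial :=
      Nat.dvd_factorial (Nat.pos_of_ne_zero (NeZero.ne k)) (by omega)
    obtain ⟨q, hq1, hq2⟩ := Jh_red Ψ hdvd
    have hh : γ⁻¹ * (p n).1 ∈ Gam a b m₁ := by
      show rdq a b m₁ (γ⁻¹ * (p n).1) = 1
      rw [map_mul, map_inv, hn.1, hn₀.1, inv_mul_cancel]
    refine ⟨Jh_c u⁻¹ (γ⁻¹ * (p n).1), Jh_gam m₁ _ hh, fun l => ?_⟩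
    have h1 := hp n l
    rw [hn.2] at h1
    have h2 : rdq a b (n + 1).factorial (ρ' l) =
        rdq a b (n + 1).factorial (Jh_c u⁻¹ (γ⁻¹ * (p n).1)) *
          Ψ.toFun _ ((rdq a b (n + 1).factorial).comp (Gam a b m₀).subtype) l *
          (rdq a b (n + 1).factorial (Jh_c u⁻¹ (γ⁻¹ * (p n).1)))⁻¹ := by
      have h3 : Jh_u a b (n + 1).factorial u⁻¹ = (Jh_u a b (n + 1).factorial u)⁻¹ :=
        map_inv _ _
      have e1 : rdq a b (n + 1).factorial (γ⁻¹ * ρ l * γ) =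
          (rdq a b (n + 1).factorial γ)⁻¹ * rdq a b (n + 1).factorial (ρ l) *
            rdq a b (n + 1).factorial γ := by
        rw [map_mul, map_mul, map_inv]
      have e2 : rdq a b (n + 1).factorial (γ⁻¹ * (p n).1) =
          (rdq a b (n + 1).factorial γ)⁻¹ * rdq a b (n + 1).factorial (p n).1 := by
        rw [map_mul, map_inv]
      rw [hρ', Jh_rdq, Jh_rdq, e1, e2, h1, h3]
      generalize Ψ.toFun _ ((rdq a b (n + 1).factorial).comp (Gam a b m₀).subtype) l = R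
      generalize Jh_u a b (n + 1).factorial u = U
      generalize rdq a b (n + 1).factorial (p n).1 = G
      generalize rdq a b (n + 1).factorial γ = H
      have h6 : H⁻¹ * (G * Jh_c U R * G⁻¹) * H = (H⁻¹ * G) * Jh_c U R * (H⁻¹ * G)⁻¹ := by
        group
      rw [h6]
      generalize H⁻¹ * G = D
      rw [map_mul, map_mul, Jh_c_inv, map_inv]
    have h3 := congrArg q h2
    rw [map_mul, map_mul, map_inv, hq1, hq1, hq2] at h3
    exact h3
  refine ⟨ρ', ?_, ?_, hloc⟩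
  · intro x y hxy
    rw [hρ', hρ'] at hxy
    have h1 := congrArg (Jh_c u) hxy
    have h2 : ∀ z : GQ a b, Jh_c u (Jh_c u⁻¹ z) = z := by
      intro z
      have := Jh_c_inv u⁻¹ z
      rwa [inv_inv] at this
    rw [h2, h2] at h1
    exact hinj (mul_left_cancel (mul_right_cancel h1))
  · apply le_antisymm
    · rintro _ ⟨l, rfl⟩
      obtain ⟨h, -, h1⟩ := hloc m₀
      have h2 : (rdq a b m₀).comp (Gam a b m₀).subtype = 1 := by
        ext1 x
        exact x.2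
      show rdq a b m₀ (ρ' l) = 1
      rw [h1 l, h2, Ψ.one, MonoidHom.one_apply, mul_one, mul_inv_cancel]
    · intro x hx
      have h1 : γ * Jh_c u x * γ⁻¹ ∈ Gam a b m₀ :=
        (inferInstance : (Gam a b m₀).Normal).conj_mem _ (Jh_gam m₀ u hx) γ
      obtain ⟨l, hl⟩ := hle h1
      refine ⟨l, ?_⟩
      rw [hρ', hl]
      have h2 : γ⁻¹ * (γ * Jh_c u x * γ⁻¹) * γ = Jh_c u x := by group
      rw [h2, Jh_c_inv]

end

end Pool.Agent.F8.CG
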