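import Pool.Agent.Lib.MP_305fdd_al.F8.CG.StmJ
import Pool.Agent.Lib.MP_305fdd_al.F8.BG.P_con
import Pool.Agent.Lib.MP_305fdd_al.F8.CG.P_Wtor

/-!
# MP_305fdd_al, congruence subgroups: piece Jker, injectivity
-/

set_option autoImplicit false

namespace Pool.Agent.F8.CG

open Pool.Agent.F8.BG Pool.Agent.MP_305fdd_al Pool.Agent.Lib.MP_305fdd_al Pool.Agent.F8
open scoped QuadraticAlgebra

noncomputable section

section Jker

variable {a b : ℤ}

/-- the matrices in `SL₂` which are scalar modulo `k` -/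
private def Jker_D (a b : ℤ) (k : ℕ) : Subgroup (GQ a b) where
  carrier := {z | ScQ k z.val}
  mul_mem' := by
    rintro x y ⟨x1, x2, x3⟩ ⟨y1, y2, y3⟩
    refine ⟨?_, ?_, ?_⟩
    · rw [Matrix.SpecialLinearGroup.coe_mul, Matrix.mul_apply, Fin.sum_univ_two]
      exact dvd_add (y1.mul_left _) (x1.mul_right _)
    · rw [Matrix.SpecialLinearGroup.coe_mul, Matrix.mul_apply, Fin.sum_univ_two]
      exact dvd_add (x2.mul_right _) (y2.mul_left _)
    · rw [Matrix.SpecialLinearGroup.coe_mul, Matrix.mul_apply, Fin.sum_univ_two,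
        Matrix.mul_apply, Fin.sum_univ_two]
      have h : x.val 0 0 * y.val 0 0 + x.val 0 1 * y.val 1 0 -
          (x.val 1 0 * y.val 0 1 + x.val 1 1 * y.val 1 1) =
          x.val 0 0 * (y.val 0 0 - y.val 1 1) + (x.val 0 0 - x.val 1 1) * y.val 1 1 +
            x.val 0 1 * y.val 1 0 - x.val 1 0 * y.val 0 1 := by ring
      rw [h]
      exact dvd_sub (dvd_add (dvd_add (y3.mul_left _) (x3.mul_right _)) (x1.mul_right _))
        (x2.mul_right _)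
  one_mem' := by
    refine ⟨?_, ?_, ?_⟩
    · show _ ∣ (1 : Matrix (Fin 2) (Fin 2) (Qf a b ℤ)) 0 1
      simp
    · show _ ∣ (1 : Matrix (Fin 2) (Fin 2) (Qf a b ℤ)) 1 0
      simp
    · show _ ∣ (1 : Matrix (Fin 2) (Fin 2) (Qf a b ℤ)) 0 0 -
        (1 : Matrix (Fin 2) (Fin 2) (Qf a b ℤ)) 1 1
      simp
  inv_mem' := by
    rintro x ⟨x1, x2, x3⟩
    have h : (x⁻¹).val = !![x.val 1 1, -x.val 0 1; -x.val 1 0, x.val 0 0] := by
      rw [Matrix.SpecialLinearGroup.coe_inv, Matrix.adjugate_fin_two]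
    refine ⟨?_, ?_, ?_⟩
    · rw [h]
      show _ ∣ -x.val 0 1
      exact (dvd_neg).2 x1
    · rw [h]
      show _ ∣ -x.val 1 0
      exact (dvd_neg).2 x2
    · rw [h]
      show _ ∣ x.val 1 1 - x.val 0 0
      rw [← neg_sub]
      exact (dvd_neg).2 x3

private theorem Jker_mem {k : ℕ} {z : GQ a b} : z ∈ Jker_D a b k ↔ ScQ k z.val := Iff.rfl

private theorem Jker_zero {m k : ℕ} (h : m ∣ k) {z : Qf a b ℤ} (hz : (k : Qf a b ℤ) ∣ z) :
    Qfm a b (Int.castRingHom (ZMod m)) z = 0 := by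
  obtain ⟨t, rfl⟩ := hz
  obtain ⟨c, rfl⟩ := h
  rw [Nat.cast_mul, mul_assoc, map_mul, map_natCast]
  have h0 : ((m : ℕ) : Qf a b (ZMod m)) = 0 := by
    apply QuadraticAlgebra.ext
    · rw [QuadraticAlgebra.re_natCast, CharP.cast_eq_zero, QuadraticAlgebra.re_zero]
    · rw [QuadraticAlgebra.im_natCast, QuadraticAlgebra.im_zero]
  rw [h0, zero_mul]

/-- scalar modulo `m` -/
private theorem Jker_sc {m k : ℕ} (h : m ∣ k) {z : GQ a b} (hz : ScQ k z.val)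
    (h1 : (k : Qf a b ℤ) ∣ z.val 0 0 ^ 2 - 1) :
    ∃ ε : Qf a b (ZMod m), ε * ε = 1 ∧ (rdq a b m z).val = ε • 1 := by
  refine ⟨Qfm a b (Int.castRingHom (ZMod m)) (z.val 0 0), ?_, ?_⟩
  · have h2 := Jker_zero h h1
    rw [map_sub, map_pow, map_one, sub_eq_zero] at h2
    rw [← pow_two]
    exact h2
  · obtain ⟨z1, z2, z3⟩ := hz
    have e1 := Jker_zero h z1
    have e2 := Jker_zero h z2
    have e3 := Jker_zero h z3
    rw [map_sub, sub_eq_zero] at e3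
    refine Matrix.ext fun i j => ?_
    show Qfm a b (Int.castRingHom (ZMod m)) (z.val i j) =
      (Qfm a b (Int.castRingHom (ZMod m)) (z.val 0 0) •
        (1 : Matrix (Fin 2) (Fin 2) (Qf a b (ZMod m)))) i j
    rw [Matrix.smul_apply, smul_eq_mul]
    fin_cases i <;> fin_cases j
    · simp
    · simp [e1]
    · simp [e2]
    · simp [e3]

private theorem Jker_gam {k : ℕ} {x : GQ a b} (hx : x ∈ Gam a b k) : ScQ k x.val := by
  have h1 : rdq a b k x = 1 := hx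
  have key : ∀ i j, (k : Qf a b ℤ) ∣ x.val i j - (1 : GQ a b).val i j := by
    intro i j
    have h2 : Qfm a b (Int.castRingHom (ZMod k)) (x.val i j) =
        Qfm a b (Int.castRingHom (ZMod k)) ((1 : GQ a b).val i j) := by
      have h3 : rdq a b k x = rdq a b k 1 := by rw [h1, map_one]
      exact congrArg (fun y : SL2 (Qf a b (ZMod k)) => y.val i j) h3
    rw [← sub_eq_zero, ← map_sub] at h2
    obtain ⟨t, ht⟩ := E_ker a b k _ h2
    exact ⟨t, ht⟩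
  refine ⟨?_, ?_, ?_⟩
  · have := key 0 1
    have e : (1 : GQ a b).val 0 1 = 0 := rfl
    rwa [e, sub_zero] at this
  · have := key 1 0
    have e : (1 : GQ a b).val 1 0 = 0 := rfl
    rwa [e, sub_zero] at this
  · have h0 := key 0 0
    have h1 := key 1 1
    have e0 : (1 : GQ a b).val 0 0 = 1 := rfl
    have e1 : (1 : GQ a b).val 1 1 = 1 := rfl
    rw [e0] at h0
    rw [e1] at h1
    have h2 := dvd_sub h0 h1
    rwa [sub_sub_sub_cancel_right] at h2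

end Jker

theorem p_Jker (hcmp : J_cmp) (huq : J_uq) (hmul : J_mul) (hsc : J_sc) : J_ker := by
  intro a b K _ φ Γ m₀ m₁ Λ _ Φ Q _ _ π L ρ hJ hF hpid hG hrf k₀ hk₀ hsqu l hl
  obtain ⟨ι, _, α, N, w, M, c, g, G₀, η, H, M₁, hM₁, hsG⟩ := hG
  have h5 := hJ.h5
  have hm₀ : m₀ ≠ 0 := by omega
  obtain ⟨k, hk⟩ : ∃ k, k = m₀ * M₁ * k₀ := ⟨_, rfl⟩
  have hk0 : k ≠ 0 := by
    rw [hk]
    exact mul_ne_zero (mul_ne_zero hm₀ hM₁) hk₀
  have hkN : NeZero k := ⟨hk0⟩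
  have dk₀ : k₀ ∣ k := by
    rw [hk]
    exact Dvd.intro_left _ rfl
  have dM₁ : M₁ ∣ k := by
    rw [hk]
    exact (Dvd.intro_left _ rfl).mul_right _
  have dm₀ : m₀ ∣ k := by
    rw [hk]
    exact ((Dvd.intro _ rfl).mul_right _)
  have hmk : NeZero (m₀ * k) := ⟨mul_ne_zero hm₀ hk0⟩
  obtain ⟨hs1, hs2⟩ := hsc a b hJ.neg K φ hF k₀ hsqu k dk₀
  -- the subgroup of the matrices which are scalar modulo `k`, with image in `Γ`
  obtain ⟨D, hD⟩ : ∃ D : Subgroup (GQ a b), D = Jker_D a b k ⊓ Γ.comap (pcQ φ) := ⟨_, rfl⟩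
  have hDm : ∀ z, z ∈ D ↔ ScQ k z.val ∧ pcQ φ z ∈ Γ := by
    intro z
    rw [hD]
    exact Iff.rfl
  have hDG : ∀ z : D, z.val ∈ G₀ := by
    intro z
    have h1 := ((hDm z.val).1 z.2).1
    exact hsG _ (Jker_sc dM₁ h1 (hs2 _ h1).1)
  let P₁ : D →* Γ := ((pcQ φ).comp D.subtype).codRestrict Γ (fun z => ((hDm z.val).1 z.2).2)
  let j : D →* G₀ := D.subtype.codRestrict G₀ hDG
  let f₁ : D →* GR α := η.comp j
  have hker : P₁.ker = f₁.ker := by
    ext z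
    rw [MonoidHom.mem_ker, MonoidHom.mem_ker]
    have h1 : P₁ z = 1 ↔ z.val = 1 ∨ z.val = -1 := by
      rw [← hF.pce z.val 1, map_one]
      constructor
      · intro h
        exact congrArg Subtype.val h
      · intro h
        exact Subtype.ext h
    have h2 : f₁ z = 1 ↔ z.val = 1 ∨ z.val = -1 := H.eta.ker (j z)
    rw [h1, h2]
  let e : P₁.range ≃* f₁.range := (QuotientGroup.quotientKerEquivRange P₁).symm.trans
    ((QuotientGroup.quotientMulEquivOfEq hker).trans (QuotientGroup.quotientKerEquivRange f₁))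
  -- elements of `Γ(m₀ k)`
  have hle : ∀ x ∈ Gam a b (m₀ * k), ∃ y : D, y.val = x := by
    intro x hx
    refine ⟨⟨x, (hDm x).2 ⟨Jker_gam (gam_le (Dvd.intro_left _ rfl) hx),
      hJ.le x (gam_le (Dvd.intro _ rfl) hx)⟩⟩, rfl⟩
  have hGfin : (Gam a b (m₀ * k)).FiniteIndex := Subgroup.finiteIndex_ker _
  have hfin : f₁.range.FiniteIndex := by
    have h1 : ((Gam a b (m₀ * k)).subgroupOf G₀).FiniteIndex := inferInstance
    have h2 := con_map_index η H.eta.fin _ h1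
    refine Subgroup.finiteIndex_of_le (H := ((Gam a b (m₀ * k)).subgroupOf G₀).map η) ?_
    rintro _ ⟨x, hx, rfl⟩
    obtain ⟨y, hy⟩ := hle x.val hx
    refine ⟨y, ?_⟩
    show η (j y) = η x
    congr 1
    exact Subtype.ext hy
  have hPfin : P₁.range.FiniteIndex := by
    let P₀ : Gam a b m₀ →* Γ :=
      ((pcQ φ).comp (Gam a b m₀).subtype).codRestrict Γ (fun z => hJ.le z.val z.2)
    have h0 : P₀.range.FiniteIndex := by
      have h1 : π.ker.FiniteIndex := Subgroup.finiteIndex_ker _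
      refine Subgroup.finiteIndex_of_le (H := π.ker) ?_
      intro x hx
      obtain ⟨y, hy, hyx⟩ := hJ.ker x hx
      exact ⟨⟨y, hy⟩, Subtype.ext hyx⟩
    have h1 : ((Gam a b (m₀ * k)).subgroupOf (Gam a b m₀)).FiniteIndex := inferInstance
    have h2 := con_map_index P₀ h0 _ h1
    refine Subgroup.finiteIndex_of_le
      (H := ((Gam a b (m₀ * k)).subgroupOf (Gam a b m₀)).map P₀) ?_
    rintro _ ⟨x, hx, rfl⟩
    obtain ⟨y, hy⟩ := hle x.val hx
    refine ⟨y, Subtype.ext ?_⟩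
    show pcQ φ y.val = pcQ φ x.val
    rw [hy]
  -- the finite quotient
  obtain ⟨N₂, hN₂⟩ : ∃ N₂, N₂ = P₁.range.normalCore := ⟨_, rfl⟩
  have hN₂n : N₂.Normal := by
    rw [hN₂]
    exact Subgroup.normalCore_normal _
  have hN₂le : N₂ ≤ P₁.range := by
    rw [hN₂]
    exact Subgroup.normalCore_le _
  have hN₂f : N₂.FiniteIndex := by
    rw [hN₂]
    exact Subgroup.finiteIndex_normalCore _
  have hfq : Finite (Γ ⧸ N₂) := Subgroup.finite_quotient_of_finiteIndex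
  let π₂ : Γ →* Γ ⧸ N₂ := QuotientGroup.mk' N₂
  have hA : P₁.range = (P₁.range.map π₂).comap π₂ := by
    rw [Subgroup.comap_map_eq_self]
    rw [QuotientGroup.ker_mk']
    exact hN₂le
  obtain ⟨γ, hγ, h, hh, δ, hδ, hτ⟩ := hcmp a b K φ Γ m₀ m₁ Λ Φ Q π L ρ hJ hF hpid l 1 hl k
    ((Γ ⧸ N₂) × Q) (π₂.prod π)
  rw [pair_prod] at hγ
  have hγ1 : π₂ γ = Φ.toFun _ π₂ l := congrArg Prod.fst hγ
  have hγ2 : π γ = Φ.toFun _ π l := congrArg Prod.snd hγ
  obtain ⟨z, hz, rfl⟩ := hs1 δ hδ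
  have hz' : ScQ k (h⁻¹ * z⁻¹ * h).val := by
    have h1 : ScQ k (z⁻¹).val := (Jker_D a b k).inv_mem hz
    have h2 := ((hs2 _ h1).2 h⁻¹).1
    rwa [inv_inv] at h2
  have hγz : γ.val = pcQ φ (h⁻¹ * z⁻¹ * h) := by
    rw [map_mul, map_mul, map_inv, map_inv]
    have h1 : (γ : PGK K) = (pcQ φ h)⁻¹ * (pcQ φ h * γ * (pcQ φ h)⁻¹ * pcQ φ z) *
        (pcQ φ z)⁻¹ * pcQ φ h := by group
    rw [h1, ← hτ, mul_one]
  obtain ⟨z', hz'def⟩ : ∃ z', z' = h⁻¹ * z⁻¹ * h := ⟨_, rfl⟩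
  rw [← hz'def] at hz' hγz
  have hz'D : z' ∈ D := (hDm z').2 ⟨hz', by rw [← hγz]; exact γ.2⟩
  have hγD : γ ∈ P₁.range := ⟨⟨z', hz'D⟩, Subtype.ext hγz.symm⟩
  have hlm : l ∈ (P₁.range.map π₂).comap (Φ.toFun _ π₂) := by
    show Φ.toFun _ π₂ l ∈ P₁.range.map π₂
    rw [← hγ1]
    exact Subgroup.mem_map_of_mem _ hγD
  obtain ⟨Ψ, -⟩ := natBij_sub Φ (rfl : Φ.toFun _ π₂ = Φ.toFun _ π₂) (P₁.range.map π₂) P₁.range
    ((P₁.range.map π₂).comap (Φ.toFun _ π₂)) hA rfl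
  -- `l * l = 1`
  have hzz : z' * z' ∈ Gam a b k := by
    have h1 := ((hs2 _ hz').2 1).2
    rwa [inv_one, one_mul, mul_one] at h1
  have hzz₀ : z' * z' ∈ Gam a b m₀ := gam_le dm₀ hzz
  have hγγ : γ * γ = ⟨pcQ φ (z' * z'), hJ.le _ hzz₀⟩ := by
    apply Subtype.ext
    show γ.val * γ.val = pcQ φ (z' * z')
    rw [map_mul, hγz]
  have hllL : l * l ∈ L := by
    rw [hJ.memL]
    refine ⟨z' * z', hzz₀, ?_⟩
    rw [map_mul, ← hγ2, ← map_mul, hγγ]
  obtain ⟨hm1, hm2, -, -⟩ := hmul a b K φ Γ m₀ m₁ Λ Φ Q π L ρ hJ hF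
  have hI1 : IsTh φ Φ π ρ (l * l) 1 := by
    have := hm1 l l 1 1 hl hl
    rwa [mul_one] at this
  have hI2 : IsTh φ Φ π ρ (l * l) (pcQ φ (ρ ⟨l * l, hllL⟩)) := hm2 ⟨l * l, hllL⟩
  have hu := huq a b K φ Γ m₀ m₁ Λ Φ Q π L ρ hJ hF (l * l) _ _ hI2 hI1
  have hρ : ρ ⟨l * l, hllL⟩ = 1 := by
    have h1 : pcQ φ (ρ ⟨l * l, hllL⟩) = pcQ φ 1 := by rw [hu, map_one]
    rcases (hF.pce _ _).1 h1 with h2 | h2
    · exact h2
    · exfalso
      have h3 : ρ ⟨l * l, hllL⟩ ∈ Gam a b m₀ := by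
        rw [← hJ.rng]
        exact ⟨_, rfl⟩
      exact con_neg (by omega : 3 ≤ m₀) h3 h2
  have hll : l * l = 1 := by
    have h1 : (⟨l * l, hllL⟩ : L) = 1 := hJ.inj (by rw [hρ, map_one])
    exact congrArg Subtype.val h1
  have hrf' : Group.ResiduallyFinite ((P₁.range.map π₂).comap (Φ.toFun _ π₂)) := inferInstance
  have h1 := p_Wtor ι α f₁.range hfin _ hrf' (natBij_equiv e.symm Ψ) ⟨l, hlm⟩ (Subtype.ext hll)
  exact congrArg Subtype.val h1

end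

end Pool.Agent.F8.CG
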