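import Pool.Agent.Lib.MP_305fdd_al.F8.CG.StmJ

/-!
# MP_305fdd_al, congruence subgroups, piece `J_mul`: multiplicativity
-/

set_option autoImplicit false

namespace Pool.Agent.F8.CG

open Pool.Agent.F8.BG Pool.Agent.MP_305fdd_al Pool.Agent.Lib.MP_305fdd_al Pool.Agent.F8
open scoped QuadraticAlgebra

theorem p_Jmul : J_mul := by
  intro a b K _ φ Γ m₀ m₁ Λ _ Φ Q _ _ π L ρ hJ hR
  refine ⟨?_, ?_, ?_, ?_⟩
  · rintro l l' τ τ' ⟨A, hA, hAx⟩ ⟨A', hA', hAx'⟩
    refine ⟨A * A', hR.mul A A' τ τ' hA hA', fun x y hx hy => ?_⟩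
    have h1 : Φ.toFun Q π (l' * x * l'⁻¹) = 1 := by
      rw [map_mul, map_mul, hx, mul_one, ← map_mul, mul_inv_cancel, map_one]
    have h2 : l' * x * l'⁻¹ ∈ L := by
      rw [hJ.memL]
      refine ⟨1, Subgroup.one_mem _, ?_⟩
      have h3 : (⟨pcQ φ 1, hJ.le 1 (Subgroup.one_mem _)⟩ : Γ) = 1 :=
        Subtype.ext (map_one (pcQ φ))
      rw [h1, h3, map_one]
    have h4 := hAx' x ⟨_, h2⟩ hx rfl
    have h5 := hAx ⟨_, h2⟩ y h1 (by
      rw [hy]
      show l * l' * (x : Λ) * (l * l')⁻¹ = l * (l' * x * l'⁻¹) * l⁻¹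
      group)
    rw [← Matrix.mul_assoc, h5, Matrix.mul_assoc, h4, ← Matrix.mul_assoc]
  · intro l
    refine ⟨(ρ l).val, hR.pc (ρ l), fun x y _ hy => ?_⟩
    have h1 : y * l = l * x := by
      apply Subtype.ext
      rw [Subgroup.coe_mul, hy, Subgroup.coe_mul]
      group
    have h2 := congrArg (fun z => (ρ z).val) h1
    simp only [map_mul, Matrix.SpecialLinearGroup.coe_mul] at h2
    exact h2
  · refine ⟨1, hR.one, fun x y _ hy => ?_⟩
    have h1 : y = x := by
      apply Subtype.ext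
      rw [hy]
      group
    rw [h1, Matrix.mul_one, Matrix.one_mul]
  · rintro l τ ⟨A, hA, hAx⟩
    refine ⟨A.adjugate, hR.inv A τ hA, fun x y hx hy => ?_⟩
    have hdet : A.det ≠ 0 := hR.det A τ hA
    have h1 : Φ.toFun Q π y = 1 := by
      rw [hy, map_mul, map_mul, hx, mul_one, ← map_mul, mul_inv_cancel, map_one]
    have h2 := hAx y x h1 (by rw [hy]; group)
    have h3 : A.det • (A.adjugate * (ρ x).val) = A.det • ((ρ y).val * A.adjugate) := by
      have h4 : A.adjugate * ((ρ x).val * A) * A.adjugate =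
          A.adjugate * (A * (ρ y).val) * A.adjugate := by rw [h2]
      rw [← Matrix.mul_assoc, Matrix.mul_assoc (A.adjugate * (ρ x).val) A A.adjugate,
        Matrix.mul_adjugate, ← Matrix.mul_assoc, Matrix.adjugate_mul, Matrix.mul_smul,
        Matrix.mul_one, Matrix.smul_mul, Matrix.one_mul, Matrix.smul_mul] at h4
      exact h4
    have hdom : IsDomain (Qf a b ℤ) := hJ.frac.inj.isDomain φ
    ext i j : 1
    have h5 := congrFun (congrFun h3 i) j
    rw [Matrix.smul_apply, Matrix.smul_apply, smul_eq_mul, smul_eq_mul] at h5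
    exact (mul_left_cancel₀ hdet h5).symm

end Pool.Agent.F8.CG
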