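import Pool.Agent.Lib.MP_305fdd_al.F8.CG.StmJ

/-!
# MP_305fdd_al, congruence subgroups: units which are squares modulo a suitable number
-/

set_option autoImplicit false

namespace Pool.Agent.F8.CG

open Pool.Agent.F8.BG Pool.Agent.MP_305fdd_al Pool.Agent.Lib.MP_305fdd_al Pool.Agent.F8
open scoped QuadraticAlgebra

noncomputable section

private theorem Jnsq_self {a b : ℤ} (m : ℕ) :
    Qfm a b (Int.castRingHom (ZMod m)) (m : Qf a b ℤ) = 0 := by
  rw [map_natCast]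
  apply QuadraticAlgebra.ext
  · rw [QuadraticAlgebra.re_natCast]; simp
  · rw [QuadraticAlgebra.im_natCast]; rfl

private theorem Jnsq_one {a b : ℤ} (h5 : Five a b) (u : (Qf a b ℤ)ˣ) :
    ∃ k : ℕ, k ≠ 0 ∧ ∀ s : Qf a b ℤ, (k : Qf a b ℤ) ∣ (u : Qf a b ℤ) - s ^ 2 →
      ∃ v, IsUnit v ∧ (u : Qf a b ℤ) = v ^ 2 := by
  by_contra hcon
  push Not at hcon
  have h1 : ∃ v : Qf a b ℤ, IsUnit v ∧ (u : Qf a b ℤ) = v ^ 2 := by
    apply p_Wsq a b h5
    intro k hk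
    obtain ⟨s, hs, -⟩ := hcon k hk.out
    have h2 : Qfm a b (Int.castRingHom (ZMod k)) (u : Qf a b ℤ) =
        (Qfm a b (Int.castRingHom (ZMod k)) s) ^ 2 := by
      obtain ⟨t, ht⟩ := hs
      have h3 := congrArg (Qfm a b (Int.castRingHom (ZMod k))) ht
      rw [map_mul, Jnsq_self, zero_mul, map_sub, map_pow, sub_eq_zero] at h3
      exact h3
    refine ⟨Qfm a b (Int.castRingHom (ZMod k)) s, ?_, h2⟩
    have h4 : IsUnit (Qfm a b (Int.castRingHom (ZMod k)) (u : Qf a b ℤ)) := u.isUnit.map _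
    rw [h2] at h4
    exact (isUnit_pow_iff two_ne_zero).1 h4
  obtain ⟨s, -, hs⟩ := hcon 1 one_ne_zero
  obtain ⟨v, hv, hv2⟩ := h1
  exact hs v hv hv2

theorem p_Jnsq (hun : J_un) : J_nsq := by
  classical
  intro a b hn h5
  have hfin : Finite (Qf a b ℤ)ˣ := hun a b hn
  have : Fintype (Qf a b ℤ)ˣ := Fintype.ofFinite _
  choose k hk0 hk using fun u : (Qf a b ℤ)ˣ => Jnsq_one h5 u
  refine ⟨∏ u, k u, Finset.prod_ne_zero_iff.2 fun u _ => hk0 u, ?_⟩
  intro u s hu hdvd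
  obtain ⟨u, rfl⟩ := hu
  apply hk u s
  refine dvd_trans ?_ hdvd
  have h1 : k u ∣ ∏ u, k u := Finset.dvd_prod_of_mem k (Finset.mem_univ u)
  exact_mod_cast Nat.cast_dvd_cast (α := Qf a b ℤ) h1

end

end Pool.Agent.F8.CG
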