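import Pool.Agent.Lib.MP_305fdd_al.F8.CG.StmJ

/-! Piece `Jnz` of project CG: an element of `Γ(m)` with nonzero trace. -/

set_option autoImplicit false

namespace Pool.Agent.F8.CG

open Pool.Agent.F8.BG Pool.Agent.MP_305fdd_al Pool.Agent.Lib.MP_305fdd_al Pool.Agent.F8
open scoped QuadraticAlgebra

private theorem Jnz_zero (a b : ℤ) (m : ℕ) :
    Qfm a b (Int.castRingHom (ZMod m)) (m : Qf a b ℤ) = 0 := by
  rw [map_natCast]
  apply QuadraticAlgebra.ext
  · rw [QuadraticAlgebra.re_natCast, ZMod.natCast_self]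
    rfl
  · rw [QuadraticAlgebra.im_natCast]
    rfl

private theorem Jnz_U (a b : ℤ) (m : ℕ) : (eU (m : Qf a b ℤ) : GQ a b) ∈ Gam a b m := by
  rw [MonoidHom.mem_ker]
  unfold rdq
  apply Subtype.ext
  refine Matrix.ext fun i j => ?_
  have h : (SLm (Qfm a b (Int.castRingHom (ZMod m))) (eU (m : Qf a b ℤ))).val i j =
    Qfm a b (Int.castRingHom (ZMod m)) ((eU (m : Qf a b ℤ)).val i j) := rfl
  rw [h]
  have hz := Jnz_zero a b m
  have h1 := map_one (Qfm a b (Int.castRingHom (ZMod m)))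
  have h0 := map_zero (Qfm a b (Int.castRingHom (ZMod m)))
  fin_cases i <;> fin_cases j
  · exact h1
  · exact hz
  · exact h0
  · exact h1

private theorem Jnz_V (a b : ℤ) (m : ℕ) : (eV (m : Qf a b ℤ) : GQ a b) ∈ Gam a b m := by
  rw [MonoidHom.mem_ker]
  unfold rdq
  apply Subtype.ext
  refine Matrix.ext fun i j => ?_
  have h : (SLm (Qfm a b (Int.castRingHom (ZMod m))) (eV (m : Qf a b ℤ))).val i j =
    Qfm a b (Int.castRingHom (ZMod m)) ((eV (m : Qf a b ℤ)).val i j) := rfl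
  rw [h]
  have hz := Jnz_zero a b m
  have h1 := map_one (Qfm a b (Int.castRingHom (ZMod m)))
  have h0 := map_zero (Qfm a b (Int.castRingHom (ZMod m)))
  fin_cases i <;> fin_cases j
  · exact h1
  · exact h0
  · exact hz
  · exact h1

theorem p_Jnz : J_nz := by
  intro a b hab m hm W hW
  by_contra hc
  push Not at hc
  apply hW
  haveI : IsDomain (Qf a b ℤ) := Qf_domain hab
  have hm0 : (m : Qf a b ℤ) ≠ 0 := by
    intro h
    have h1 := congrArg QuadraticAlgebra.re h
    rw [QuadraticAlgebra.re_natCast] at h1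
    have h2 : (m : ℤ) = 0 := h1
    omega
  have ht : ∀ g : GQ a b, (W * g.val).trace = W 0 0 * g.val 0 0 + W 0 1 * g.val 1 0 +
      (W 1 0 * g.val 0 1 + W 1 1 * g.val 1 1) := by
    intro g
    rw [Matrix.trace_fin_two, Matrix.mul_apply, Matrix.mul_apply, Fin.sum_univ_two,
      Fin.sum_univ_two]
  have h1 := hc 1 (Gam a b m).one_mem
  have h2 := hc _ (Jnz_U a b m)
  have h3 := hc _ (Jnz_V a b m)
  have h4 := hc _ ((Gam a b m).mul_mem (Jnz_U a b m) (Jnz_V a b m))
  rw [ht] at h1 h2 h3 h4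
  set μ : Qf a b ℤ := (m : Qf a b ℤ) with hμ
  have e1 : ∀ i j, (1 : GQ a b).val i j = (1 : Matrix (Fin 2) (Fin 2) (Qf a b ℤ)) i j :=
    fun _ _ => rfl
  have u00 : (eU μ : GQ a b).val 0 0 = 1 := rfl
  have u01 : (eU μ : GQ a b).val 0 1 = μ := rfl
  have u10 : (eU μ : GQ a b).val 1 0 = 0 := rfl
  have u11 : (eU μ : GQ a b).val 1 1 = 1 := rfl
  have v00 : (eV μ : GQ a b).val 0 0 = 1 := rfl
  have v01 : (eV μ : GQ a b).val 0 1 = 0 := rfl
  have v10 : (eV μ : GQ a b).val 1 0 = μ := rfl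
  have v11 : (eV μ : GQ a b).val 1 1 = 1 := rfl
  have em : ∀ i j, (eU μ * eV μ : GQ a b).val i j =
      (eU μ : GQ a b).val i 0 * (eV μ : GQ a b).val 0 j +
      (eU μ : GQ a b).val i 1 * (eV μ : GQ a b).val 1 j := by
    intro i j
    rw [Matrix.SpecialLinearGroup.coe_mul, Matrix.mul_apply, Fin.sum_univ_two]
  rw [e1, e1, e1, e1, Matrix.one_apply_eq, Matrix.one_apply_eq,
    Matrix.one_apply_ne (by decide), Matrix.one_apply_ne (by decide)] at h1
  rw [u00, u01, u10, u11] at h2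
  rw [v00, v01, v10, v11] at h3
  rw [em, em, em, em, u00, u01, u10, u11, v00, v01, v10, v11] at h4
  have k10 : W 1 0 = 0 := by
    have : W 1 0 * μ = 0 := by linear_combination h2 - h1
    exact (mul_eq_zero.1 this).resolve_right hm0
  have k01 : W 0 1 = 0 := by
    have : W 0 1 * μ = 0 := by linear_combination h3 - h1
    exact (mul_eq_zero.1 this).resolve_right hm0
  have k00 : W 0 0 = 0 := by
    have : W 0 0 * (μ * μ) = 0 := by
      rw [k01, k10] at h4 h1
      linear_combination h4 - h1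
    exact (mul_eq_zero.1 this).resolve_right (mul_ne_zero hm0 hm0)
  have k11 : W 1 1 = 0 := by
    rw [k01, k10, k00] at h1
    linear_combination h1
  refine Matrix.ext fun i j => ?_
  fin_cases i <;> fin_cases j
  · exact k00
  · exact k01
  · exact k10
  · exact k11

end Pool.Agent.F8.CG
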