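import Pool.Agent.Lib.MP_305fdd_al.F8.CG.StmJ

/-!
# MP_305fdd_al, congruence subgroups: `Φ π` on `L` (J pi)
-/

set_option autoImplicit false

namespace Pool.Agent.F8.CG

open Pool.Agent.F8.BG Pool.Agent.MP_305fdd_al Pool.Agent.Lib.MP_305fdd_al Pool.Agent.F8
open scoped QuadraticAlgebra

theorem p_Jpi : J_pi := by
  intro a b K _ φ Γ m₀ m₁ Λ _ Φ Q _ _ π L ρ hJ l h
  have hm₁ : NeZero m₁ := ⟨hJ.ne⟩
  obtain ⟨R, _, _, θ, c, hc, happ⟩ := hJ.apx m₁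
  obtain ⟨g, hg1, hg2⟩ := pair_val Φ θ π (l : Λ)
  obtain ⟨y, hy, hyl⟩ := (hJ.memL l).mp l.2
  have h1 : π (g * (⟨pcQ φ y, hJ.le y hy⟩ : Γ)⁻¹) = 1 := by
    rw [map_mul, map_inv, hg2, hyl, mul_inv_cancel]
  obtain ⟨y', hy', he⟩ := hJ.ker _ h1
  have h2 : pcQ φ (y' * y) = g.val := by
    rw [map_mul, he]
    show g.val * (pcQ φ y)⁻¹ * pcQ φ y = g.val
    rw [inv_mul_cancel_right]
  have hx : y' * y ∈ Gam a b m₀ := mul_mem hy' hy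
  have h3 : (⟨pcQ φ (y' * y), hJ.le _ hx⟩ : Γ) = g := Subtype.ext h2
  have h4 := happ l (y' * y) hx (by rw [h3]; exact hg1)
  have hc1 : rdq a b m₁ c = 1 := hc
  rw [map_mul, map_mul, map_inv, hc1, one_mul, inv_one, mul_one] at h4
  have h5 : ρ l * (y' * y)⁻¹ ∈ Gam a b m₁ := by
    rw [MonoidHom.mem_ker, map_mul, map_inv, h4, mul_inv_cancel]
  have h6 : π (⟨pcQ φ (ρ l), h⟩ * g⁻¹) = 1 := by
    apply hJ.ker'
    refine ⟨_, h5, ?_⟩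
    rw [map_mul, map_inv, h2]
    rfl
  rw [map_mul, map_inv, mul_inv_eq_one] at h6
  rw [h6]
  exact hg2.symm

end Pool.Agent.F8.CG
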