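import Pool.Agent.Lib.MP_305fdd_al.F8.CG.StmJ

/-!
# MP_305fdd_al, congruence subgroups, piece J rep: integral representatives of elements of `PGL₂(K)`
-/

set_option autoImplicit false

namespace Pool.Agent.F8.CG

open Pool.Agent.F8.BG Pool.Agent.MP_305fdd_al Pool.Agent.Lib.MP_305fdd_al Pool.Agent.F8
open scoped QuadraticAlgebra

noncomputable section

variable {a b : ℤ} {K : Type} [Field K]

private theorem Jrep_map_smul (φ : Qf a b ℤ →+* K) (s : Qf a b ℤ) (A : MQ a b) :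
    (s • A).map φ = φ s • A.map φ := by
  ext i j
  rw [Matrix.map_apply, Matrix.smul_apply, Matrix.smul_apply, Matrix.map_apply, smul_eq_mul,
    smul_eq_mul, map_mul]

private theorem Jrep_det_map (φ : Qf a b ℤ →+* K) (A : MQ a b) :
    (A.map φ).det = φ A.det := by
  rw [RingHom.map_det]
  rfl

private theorem Jrep_val_scalar (g : Matrix.GeneralLinearGroup (Fin 2) K) (u : Kˣ) :
    (g * Matrix.GeneralLinearGroup.scalar (Fin 2) u).val = (u : K) • g.val := by
  rw [Units.val_mul, Matrix.GeneralLinearGroup.coe_scalar]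
  ext i j
  simp [Matrix.scalar_apply, Matrix.mul_diagonal, mul_comm]

private theorem Jrep_mk_scalar (g : Matrix.GeneralLinearGroup (Fin 2) K) (u : Kˣ) :
    Matrix.ProjGenLinGroup.mk (g * Matrix.GeneralLinearGroup.scalar (Fin 2) u) =
      Matrix.ProjGenLinGroup.mk g := by
  rw [map_mul, Matrix.ProjGenLinGroup.mk_scalar, mul_one]

private theorem Jrep_det (φ : Qf a b ℤ →+* K) (A : MQ a b) (γ : PGK K) (h : RepQ φ A γ) :
    A.det ≠ 0 := by
  obtain ⟨g, hg, _⟩ := h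
  intro h0
  have h1 : g.val.det = 0 := by
    rw [hg, Jrep_det_map, h0, map_zero]
  have h2 : IsUnit g.val.det := (Matrix.isUnit_iff_isUnit_det g.val).1 g.isUnit
  rw [h1] at h2
  exact not_isUnit_zero h2

private theorem Jrep_smul (φ : Qf a b ℤ →+* K) (hφ : Function.Injective φ) (s : Qf a b ℤ)
    (A : MQ a b) (γ : PGK K) (hs : s ≠ 0) (h : RepQ φ A γ) : RepQ φ (s • A) γ := by
  obtain ⟨g, hg, hγ⟩ := h
  have hs' : φ s ≠ 0 := fun h0 => hs (hφ (by rw [h0, map_zero]))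
  refine ⟨g * Matrix.GeneralLinearGroup.scalar (Fin 2) (Units.mk0 (φ s) hs'), ?_, ?_⟩
  · rw [Jrep_val_scalar, hg, Jrep_map_smul]
    rfl
  · rw [Jrep_mk_scalar, hγ]

private theorem Jrep_smul' (φ : Qf a b ℤ →+* K) (hφ : Function.Injective φ) (s : Qf a b ℤ)
    (A : MQ a b) (γ : PGK K) (hs : s ≠ 0) (h : RepQ φ (s • A) γ) : RepQ φ A γ := by
  obtain ⟨g, hg, hγ⟩ := h
  have hs' : φ s ≠ 0 := fun h0 => hs (hφ (by rw [h0, map_zero]))
  refine ⟨g * Matrix.GeneralLinearGroup.scalar (Fin 2) (Units.mk0 (φ s) hs')⁻¹, ?_, ?_⟩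
  · rw [Jrep_val_scalar, hg, Jrep_map_smul, smul_smul]
    have : ((Units.mk0 (φ s) hs')⁻¹ : Kˣ).val * φ s = 1 := by
      rw [Units.val_inv_eq_inv_val, Units.val_mk0]
      exact inv_mul_cancel₀ hs'
    rw [this, one_smul]
  · rw [Jrep_mk_scalar, hγ]

private theorem Jrep_uniq (φ : Qf a b ℤ →+* K) (A : MQ a b) (γ δ : PGK K) (h : RepQ φ A γ)
    (h' : RepQ φ A δ) : γ = δ := by
  obtain ⟨g, hg, hγ⟩ := h
  obtain ⟨g', hg', hδ⟩ := h'
  have : g = g' := Units.ext (by rw [hg, hg'])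
  rw [← hγ, ← hδ, this]

private theorem Jrep_eq (φ : Qf a b ℤ →+* K) (hF : FracQ φ) (A B : MQ a b) (γ : PGK K)
    (h : RepQ φ A γ) (h' : RepQ φ B γ) :
    ∃ s t : Qf a b ℤ, s ≠ 0 ∧ t ≠ 0 ∧ s • A = t • B := by
  obtain ⟨g, hg, hγ⟩ := h
  obtain ⟨g', hg', hδ⟩ := h'
  obtain ⟨u, hu⟩ := Matrix.ProjGenLinGroup.mk_eq_mk_iff.1 (hγ.trans hδ.symm)
  obtain ⟨x, y, hy, hxy⟩ := hF.ex (u : K)
  have hy' : φ y ≠ 0 := fun h0 => hy (hF.inj (by rw [h0, map_zero]))
  have hx : x ≠ 0 := by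
    rintro rfl
    rw [map_zero] at hxy
    exact mul_ne_zero u.ne_zero hy' hxy
  refine ⟨x, y, hx, hy, ?_⟩
  have h1 : (u : K) • A.map φ = B.map φ := by
    rw [← hg, ← hg', ← Jrep_val_scalar, hu]
  ext1 i j
  apply hF.inj
  have h2 : (u : K) * φ (A i j) = φ (B i j) := by
    have := congrFun (congrFun h1 i) j
    simpa using this
  rw [Matrix.smul_apply, Matrix.smul_apply, smul_eq_mul, smul_eq_mul, map_mul, map_mul, ← h2,
    ← hxy]
  ring

private theorem Jrep_mul (φ : Qf a b ℤ →+* K) (A B : MQ a b) (γ δ : PGK K) (h : RepQ φ A γ)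
    (h' : RepQ φ B δ) : RepQ φ (A * B) (γ * δ) := by
  obtain ⟨g, hg, hγ⟩ := h
  obtain ⟨g', hg', hδ⟩ := h'
  refine ⟨g * g', ?_, ?_⟩
  · rw [Units.val_mul, hg, hg', Matrix.map_mul]
  · rw [map_mul, hγ, hδ]

private theorem Jrep_of (φ : Qf a b ℤ →+* K) (hφ : Function.Injective φ) (A : MQ a b)
    (h : A.det ≠ 0) : ∃ γ, RepQ φ A γ := by
  have h' : (A.map φ).det ≠ 0 := by
    rw [Jrep_det_map]
    intro h0
    exact h (hφ (by rw [h0, map_zero]))
  exact ⟨_, Matrix.GeneralLinearGroup.mkOfDetNeZero (A.map φ) h', rfl, rfl⟩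

private theorem Jrep_one (φ : Qf a b ℤ →+* K) : RepQ φ (1 : MQ a b) 1 := by
  refine ⟨1, ?_, map_one _⟩
  rw [Matrix.map_one φ (map_zero φ) (map_one φ)]
  rfl

private theorem Jrep_cen1 (φ : Qf a b ℤ →+* K) (hφ : Function.Injective φ) (A : MQ a b)
    (γ : PGK K) (h : RepQ φ A γ) (h1 : A 0 1 = 0) (h2 : A 1 0 = 0) (h3 : A 0 0 = A 1 1) :
    γ = 1 := by
  have hd := Jrep_det φ A γ h
  have hA : A = A 0 0 • (1 : MQ a b) := by
    ext1 i j
    fin_cases i <;> fin_cases j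
    · simp
    · simpa using h1
    · simpa using h2
    · simpa using h3.symm
  have h0 : A 0 0 ≠ 0 := by
    intro h0
    apply hd
    rw [Matrix.det_fin_two, h0, h1]
    ring
  rw [hA] at h
  exact Jrep_uniq φ 1 γ 1 (Jrep_smul' φ hφ _ _ _ h0 h) (Jrep_one φ)

private theorem Jrep_inv (φ : Qf a b ℤ →+* K) (hφ : Function.Injective φ)
    (hdom : IsDomain (Qf a b ℤ)) (A : MQ a b) (γ : PGK K)
    (h : RepQ φ A γ) : RepQ φ A.adjugate γ⁻¹ := by
  have hd := Jrep_det φ A γ h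
  have hd' : A.adjugate.det ≠ 0 := by
    rw [Matrix.det_adjugate]
    exact pow_ne_zero _ hd
  obtain ⟨δ, hδ⟩ := Jrep_of φ hφ _ hd'
  have h1 := Jrep_mul φ _ _ _ _ h hδ
  have h2 : γ * δ = 1 := by
    apply Jrep_cen1 φ hφ _ _ h1
    · rw [Matrix.mul_adjugate]
      simp
    · rw [Matrix.mul_adjugate]
      simp
    · rw [Matrix.mul_adjugate]
      simp
  rw [inv_eq_of_mul_eq_one_right h2]
  exact hδ

private theorem Jrep_pc (φ : Qf a b ℤ →+* K) (x : GQ a b) : RepQ φ x.val (pcQ φ x) :=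
  ⟨Matrix.SpecialLinearGroup.toGL (SLm φ x), rfl, rfl⟩

private theorem Jrep_ex (φ : Qf a b ℤ →+* K) (hF : FracQ φ) (hdom : IsDomain (Qf a b ℤ))
    (γ : PGK K) : ∃ A, RepQ φ A γ := by
  obtain ⟨g, rfl⟩ := Matrix.ProjGenLinGroup.mk_surjective γ
  obtain ⟨x₁, y₁, hy₁, h₁⟩ := hF.ex (g.val 0 0)
  obtain ⟨x₂, y₂, hy₂, h₂⟩ := hF.ex (g.val 0 1)
  obtain ⟨x₃, y₃, hy₃, h₃⟩ := hF.ex (g.val 1 0)
  obtain ⟨x₄, y₄, hy₄, h₄⟩ := hF.ex (g.val 1 1)
  have hd : y₁ * y₂ * y₃ * y₄ ≠ 0 :=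
    mul_ne_zero (mul_ne_zero (mul_ne_zero hy₁ hy₂) hy₃) hy₄
  have hd' : φ (y₁ * y₂ * y₃ * y₄) ≠ 0 := fun h0 => hd (hF.inj (by rw [h0, map_zero]))
  refine ⟨!![x₁ * y₂ * y₃ * y₄, x₂ * y₁ * y₃ * y₄; x₃ * y₁ * y₂ * y₄, x₄ * y₁ * y₂ * y₃],
    g * Matrix.GeneralLinearGroup.scalar (Fin 2) (Units.mk0 _ hd'), ?_, Jrep_mk_scalar _ _⟩
  rw [Jrep_val_scalar]
  ext i j
  fin_cases i <;> fin_cases j
  · simp only [Units.val_mk0, Matrix.smul_apply, smul_eq_mul, Matrix.map_apply, map_mul,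
      Fin.zero_eta, Fin.isValue, Matrix.of_apply, Matrix.cons_val', Matrix.cons_val_zero,
      Matrix.cons_val_fin_one]
    rw [← h₁]
    ring
  · simp only [Units.val_mk0, Matrix.smul_apply, smul_eq_mul, Matrix.map_apply, map_mul,
      Fin.zero_eta, Fin.mk_one, Fin.isValue, Matrix.of_apply, Matrix.cons_val', Matrix.cons_val_zero,
      Matrix.cons_val_one, Matrix.cons_val_fin_one]
    rw [← h₂]
    ring
  · simp only [Units.val_mk0, Matrix.smul_apply, smul_eq_mul, Matrix.map_apply, map_mul,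
      Fin.zero_eta, Fin.mk_one, Fin.isValue, Matrix.of_apply, Matrix.cons_val', Matrix.cons_val_zero,
      Matrix.cons_val_one, Matrix.cons_val_fin_one]
    rw [← h₃]
    ring
  · simp only [Units.val_mk0, Matrix.smul_apply, smul_eq_mul, Matrix.map_apply, map_mul,
      Fin.zero_eta, Fin.mk_one, Fin.isValue, Matrix.of_apply, Matrix.cons_val', Matrix.cons_val_zero,
      Matrix.cons_val_one, Matrix.cons_val_fin_one]
    rw [← h₄]
    ring

theorem p_Jrep : J_rep := by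
  intro a b hn K _ φ hF
  have hdom : IsDomain (Qf a b ℤ) := Qf_domain hn
  have hφ := hF.inj
  refine
    { det := Jrep_det φ
      of := Jrep_of φ hφ
      mul := Jrep_mul φ
      inv := Jrep_inv φ hφ hdom
      smul := Jrep_smul φ hφ
      smul' := Jrep_smul' φ hφ
      uniq := Jrep_uniq φ
      eq := Jrep_eq φ hF
      ex := Jrep_ex φ hF hdom
      pc := Jrep_pc φ
      one := Jrep_one φ
      pce := ?_
      cen := ?_ }
  · intro x y
    constructor
    · intro h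
      have h1 := Jrep_pc φ x
      have h2 := Jrep_pc φ y
      rw [h] at h1
      obtain ⟨s, t, hs, ht, hst⟩ := Jrep_eq φ hF _ _ _ h1 h2
      have h3 : s ^ 2 = t ^ 2 := by
        have := congrArg Matrix.det hst
        rw [Matrix.det_smul, Matrix.det_smul, x.2, y.2, mul_one, mul_one, Fintype.card_fin] at this
        exact this
      rcases sq_eq_sq_iff_eq_or_eq_neg.1 h3 with h4 | h4
      · left
        apply Subtype.ext
        ext1 i j
        have h5 := congrFun (congrFun hst i) j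
        rw [Matrix.smul_apply, Matrix.smul_apply, smul_eq_mul, smul_eq_mul, h4] at h5
        exact mul_left_cancel₀ ht h5
      · right
        apply Subtype.ext
        ext1 i j
        have h5 := congrFun (congrFun hst i) j
        rw [Matrix.smul_apply, Matrix.smul_apply, smul_eq_mul, smul_eq_mul, h4] at h5
        rw [Matrix.SpecialLinearGroup.coe_neg, Matrix.neg_apply]
        apply mul_left_cancel₀ ht
        rw [mul_neg, ← h5]
        ring
    · rintro (rfl | rfl)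
      · rfl
      · have h1 := Jrep_smul φ hφ (-1) _ _ (neg_ne_zero.2 one_ne_zero) (Jrep_pc φ y)
        have h2 : (-1 : Qf a b ℤ) • y.val = (-y).val := by
          rw [neg_smul, one_smul, Matrix.SpecialLinearGroup.coe_neg]
        rw [h2] at h1
        exact Jrep_uniq φ _ _ _ (Jrep_pc φ (-y)) h1
  · intro A γ h
    constructor
    · rintro rfl
      obtain ⟨s, t, hs, ht, hst⟩ := Jrep_eq φ hF _ _ _ h (Jrep_one φ)
      have h5 : ∀ i j, s * A i j = t * (1 : MQ a b) i j := by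
        intro i j
        have h5 := congrFun (congrFun hst i) j
        rw [Matrix.smul_apply, Matrix.smul_apply, smul_eq_mul, smul_eq_mul] at h5
        exact h5
      refine ⟨?_, ?_, ?_⟩
      · have := h5 0 1
        rw [Matrix.one_apply_ne (by decide), mul_zero] at this
        exact (mul_eq_zero.1 this).resolve_left hs
      · have := h5 1 0
        rw [Matrix.one_apply_ne (by decide), mul_zero] at this
        exact (mul_eq_zero.1 this).resolve_left hs
      · have h6 := h5 0 0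
        have h7 := h5 1 1
        rw [Matrix.one_apply_eq] at h6 h7
        exact mul_left_cancel₀ hs (h6.trans h7.symm)
    · rintro ⟨h1, h2, h3⟩
      exact Jrep_cen1 φ hφ A γ h h1 h2 h3

end

end Pool.Agent.F8.CG
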