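import Pool.Agent.Lib.MP_305fdd_al.F8.CG.StmJ

/-!
# MP_305fdd_al, congruence subgroups: matrices in `SL₂` which are scalar modulo `k` (`J_sc`)
-/

set_option autoImplicit false

namespace Pool.Agent.F8.CG

open Pool.Agent.F8.BG Pool.Agent.MP_305fdd_al Pool.Agent.Lib.MP_305fdd_al Pool.Agent.F8
open scoped QuadraticAlgebra

noncomputable section

private theorem Jsc_ne {a b : ℤ} : (1 : Qf a b ℤ) ≠ 0 := fun h => by
  have h1 := congrArg QuadraticAlgebra.re h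
  simp at h1

private theorem Jsc_f (a b : ℤ) (k : ℕ) (x : Qf a b ℤ) (h : (k : Qf a b ℤ) ∣ x) :
    Qfm a b (Int.castRingHom (ZMod k)) x = 0 := by
  obtain ⟨t, rfl⟩ := h
  have h1 : Qfm a b (Int.castRingHom (ZMod k)) (k : Qf a b ℤ) = 0 := by
    rw [map_natCast]
    apply QuadraticAlgebra.ext
    · rw [QuadraticAlgebra.re_natCast]
      simp
    · rw [QuadraticAlgebra.im_natCast]
      simp
  rw [map_mul, h1, zero_mul]

private theorem Jsc_det {a b : ℤ} (z : GQ a b) :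
    z.val 0 0 * z.val 1 1 - z.val 0 1 * z.val 1 0 = 1 := by
  rw [← Matrix.det_fin_two]
  exact z.prop

private theorem Jsc_sq {a b : ℤ} (k : ℕ) (z : GQ a b) (h : ScQ k z.val) :
    (k : Qf a b ℤ) ∣ z.val 0 0 ^ 2 - 1 := by
  obtain ⟨⟨p, hp⟩, -, ⟨r, hr⟩⟩ := h
  have h1 := Jsc_det z
  refine ⟨z.val 0 0 * r + p * z.val 1 0, ?_⟩
  linear_combination h1 + z.val 0 0 * hr + z.val 1 0 * hp

private theorem Jsc_mul {a b : ℤ} (x y : GQ a b) (i j : Fin 2) :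
    (x * y).val i j = x.val i 0 * y.val 0 j + x.val i 1 * y.val 1 j := by
  show (x.val * y.val) i j = _
  rw [Matrix.mul_apply, Fin.sum_univ_two]

private theorem Jsc_cj {a b : ℤ} (k : ℕ) (z : GQ a b) (h : ScQ k z.val) (g : GQ a b) :
    ScQ k (g * z * g⁻¹).val := by
  obtain ⟨⟨p, hp⟩, ⟨q, hq⟩, ⟨r, hr⟩⟩ := h
  have i00 : (g⁻¹).val 0 0 = g.val 1 1 := by
    rw [Matrix.SpecialLinearGroup.SL2_inv_expl]; rfl
  have i01 : (g⁻¹).val 0 1 = -g.val 0 1 := by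
    rw [Matrix.SpecialLinearGroup.SL2_inv_expl]; rfl
  have i10 : (g⁻¹).val 1 0 = -g.val 1 0 := by
    rw [Matrix.SpecialLinearGroup.SL2_inv_expl]; rfl
  have i11 : (g⁻¹).val 1 1 = g.val 0 0 := by
    rw [Matrix.SpecialLinearGroup.SL2_inv_expl]; rfl
  refine ⟨⟨-(g.val 0 0 * g.val 0 1 * r) - g.val 0 1 ^ 2 * q + g.val 0 0 ^ 2 * p, ?_⟩,
    ⟨g.val 1 0 * g.val 1 1 * r + g.val 1 1 ^ 2 * q - g.val 1 0 ^ 2 * p, ?_⟩,
    ⟨r * (g.val 0 0 * g.val 1 1 + g.val 0 1 * g.val 1 0) + 2 * g.val 0 1 * g.val 1 1 * q -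
      2 * g.val 0 0 * g.val 1 0 * p, ?_⟩⟩
  · simp only [Jsc_mul, i01, i11]
    linear_combination (-(g.val 0 0 * g.val 0 1)) * hr - g.val 0 1 ^ 2 * hq + g.val 0 0 ^ 2 * hp
  · simp only [Jsc_mul, i00, i10]
    linear_combination (g.val 1 0 * g.val 1 1) * hr + g.val 1 1 ^ 2 * hq - g.val 1 0 ^ 2 * hp
  · simp only [Jsc_mul, i00, i01, i10, i11]
    linear_combination (g.val 0 0 * g.val 1 1 + g.val 0 1 * g.val 1 0) * hr +
      2 * g.val 0 1 * g.val 1 1 * hq - 2 * g.val 0 0 * g.val 1 0 * hp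

private theorem Jsc_scal {R : Type} [CommRing R] (c : R) (Z G : SL2 R)
    (hZ : Z.val = c • (1 : Matrix (Fin 2) (Fin 2) R)) (hc : c ^ 2 = 1) :
    G⁻¹ * Z * G * Z = 1 := by
  have h1 : Z * G = G * Z := by
    apply Subtype.ext
    show Z.val * G.val = G.val * Z.val
    rw [hZ]
    simp
  have h2 : Z * Z = 1 := by
    apply Subtype.ext
    show Z.val * Z.val = 1
    rw [hZ, smul_mul_smul_comm, one_mul, ← pow_two, hc, one_smul]
  rw [mul_assoc G⁻¹ Z G, h1, inv_mul_cancel_left, h2]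

private theorem Jsc_gam {a b : ℤ} (k : ℕ) (z : GQ a b) (h : ScQ k z.val) (g : GQ a b) :
    g⁻¹ * z * g * z ∈ Gam a b k := by
  have h2 := Jsc_sq k z h
  obtain ⟨h01, h10, h00⟩ := h
  show rdq a b k (g⁻¹ * z * g * z) = 1
  rw [map_mul, map_mul, map_mul, map_inv]
  have e01 := Jsc_f a b k _ h01
  have e10 := Jsc_f a b k _ h10
  have e00 := Jsc_f a b k _ h00
  have e2 := Jsc_f a b k _ h2
  rw [map_sub] at e00
  rw [map_sub, map_one, map_pow, sub_eq_zero] at e2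
  refine Jsc_scal (Qfm a b (Int.castRingHom (ZMod k)) (z.val 0 0)) _ _ ?_ e2
  apply Matrix.ext
  intro i j
  fin_cases i <;> fin_cases j
  · show Qfm a b (Int.castRingHom (ZMod k)) (z.val 0 0) = _
    simp
  · show Qfm a b (Int.castRingHom (ZMod k)) (z.val 0 1) = _
    rw [e01]
    simp
  · show Qfm a b (Int.castRingHom (ZMod k)) (z.val 1 0) = _
    rw [e10]
    simp
  · show Qfm a b (Int.castRingHom (ZMod k)) (z.val 1 1) = _
    rw [← sub_eq_zero.1 e00]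
    simp

/-- [CG J sc] -/
theorem p_Jsc : J_sc := by
  intro a b hneg K _ φ hrep k₀ hk₀ k hk
  refine ⟨?_, fun z hz => ⟨Jsc_sq k z hz, fun g => ⟨Jsc_cj k z hz g, Jsc_gam k z hz g⟩⟩⟩
  rintro δ ⟨X, hu, ⟨⟨p, hp⟩, ⟨q, hq⟩, ⟨r, hr⟩⟩, hX⟩
  have h1 : (k₀ : Qf a b ℤ) ∣ X.det - (X 0 0) ^ 2 := by
    have hk' : (k₀ : Qf a b ℤ) ∣ (k : Qf a b ℤ) := by
      obtain ⟨t, rfl⟩ := hk
      exact ⟨(t : Qf a b ℤ), by push_cast; rfl⟩
    refine hk'.trans ⟨-(X 0 0 * r) - p * X 1 0, ?_⟩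
    rw [Matrix.det_fin_two]
    linear_combination -(X 0 0) * hr - X 1 0 * hp
  obtain ⟨v, hv, huv⟩ := hk₀ _ _ hu h1
  obtain ⟨w, hw⟩ := hv.exists_right_inv
  have hdet : (w • X).det = 1 := by
    rw [Matrix.det_smul, huv, Fintype.card_fin]
    have : w ^ 2 * v ^ 2 = (v * w) ^ 2 := by ring
    rw [this, hw, one_pow]
  have hw0 : w ≠ 0 := fun h0 => by
    rw [h0, mul_zero] at hw
    exact Jsc_ne hw.symm
  refine ⟨⟨w • X, hdet⟩, ⟨⟨w * p, ?_⟩, ⟨w * q, ?_⟩, ⟨w * r, ?_⟩⟩, ?_⟩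
  · show w * X 0 1 = _
    rw [hp]; ring
  · show w * X 1 0 = _
    rw [hq]; ring
  · show w * X 0 0 - w * X 1 1 = _
    linear_combination w * hr
  · exact hrep.uniq (w • X) _ _ (hrep.pc ⟨w • X, hdet⟩) (hrep.smul w X δ hw0 hX)

end

end Pool.Agent.F8.CG
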