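import Pool.Agent.Lib.MP_305fdd_al.F8.CG.StmJ

/-!
# MP_305fdd_al, congruence subgroups: piece `J_sqr`
-/

set_option autoImplicit false

namespace Pool.Agent.F8.CG

open Pool.Agent.F8.BG Pool.Agent.MP_305fdd_al Pool.Agent.Lib.MP_305fdd_al Pool.Agent.F8
open scoped QuadraticAlgebra

noncomputable section

private theorem Jsqr_le {a b : ℤ} {m k : ℕ} (h : m ∣ k) : Gam a b k ≤ Gam a b m := by
  intro x hx
  rw [MonoidHom.mem_ker] at hx ⊢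
  apply Subtype.ext
  apply Matrix.ext
  intro i j
  have h1 : Qfm a b (Int.castRingHom (ZMod k)) (x.val i j) =
      (1 : Matrix (Fin 2) (Fin 2) (Qf a b (ZMod k))) i j :=
    congrFun (congrFun (congrArg Subtype.val hx) i) j
  have h2 : Qfm a b (ZMod.castHom h (ZMod m)) (Qfm a b (Int.castRingHom (ZMod k)) (x.val i j)) =
      Qfm a b (Int.castRingHom (ZMod m)) (x.val i j) := by
    rw [Qfm_apply, Qfm_apply, Qfm_apply]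
    simp
  show Qfm a b (Int.castRingHom (ZMod m)) (x.val i j) =
    (1 : Matrix (Fin 2) (Fin 2) (Qf a b (ZMod m))) i j
  rw [← h2, h1, Matrix.one_apply, Matrix.one_apply]
  split_ifs
  · exact map_one _
  · exact map_zero _

theorem p_Jsqr (hcmp : J_cmp) (hact : J_act) (hmul : J_mul) (hsc : J_sc) : J_sqr := by
  intro a b K _ φ Γ m₀ m₁ Λ _ Φ Q _ _ π L ρ hJ hR hP k₀ hk₀ hun hg l k₁ hk₁
  obtain ⟨τ, hτ⟩ := hact a b K φ Γ m₀ m₁ Λ Φ Q π L ρ hJ hR l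
  have hk : k₀ * k₁ ≠ 0 := mul_ne_zero hk₀ hk₁
  have : NeZero (k₀ * k₁) := ⟨hk⟩
  obtain ⟨γ, hγ, h, hh, δ, hδ, hτe⟩ := hcmp a b K φ Γ m₀ m₁ Λ Φ Q π L ρ hJ hR hP l τ hτ
    (k₀ * k₁) Q π
  obtain ⟨g₀, hg₀⟩ := hg γ
  obtain ⟨hsc1, hsc2⟩ := hsc a b hJ.neg K φ hR k₀ hun (k₀ * k₁) (dvd_mul_right _ _)
  obtain ⟨z, hz, hzδ⟩ := hsc1 δ hδ
  have hh0 : h ∈ Gam a b m₀ := Jsqr_le hJ.dvd hh
  have hhΓ : pcQ φ h ∈ Γ := hJ.le h hh0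
  have hπh : π ⟨pcQ φ h, hhΓ⟩ = 1 := hJ.ker' _ ⟨h, hh, rfl⟩
  set g : GQ a b := h * g₀ * h⁻¹ with hgdef
  have hgΓ' : (⟨pcQ φ h, hhΓ⟩ * γ * (⟨pcQ φ h, hhΓ⟩)⁻¹ : Γ).val = pcQ φ g := by
    show pcQ φ h * γ.val * (pcQ φ h)⁻¹ = _
    rw [hgdef, map_mul, map_mul, map_inv, hg₀]
  have hgΓ : pcQ φ g ∈ Γ := by
    rw [← hgΓ']
    exact Subtype.property _
  have hπg : π ⟨pcQ φ g, hgΓ⟩ = Φ.toFun Q π l := by
    have e : (⟨pcQ φ g, hgΓ⟩ : Γ) = ⟨pcQ φ h, hhΓ⟩ * γ * (⟨pcQ φ h, hhΓ⟩)⁻¹ :=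
      Subtype.ext hgΓ'.symm
    rw [e, map_mul, map_mul, map_inv, hπh, one_mul, inv_one, mul_one, hγ]
  have hτg : τ = pcQ φ g * pcQ φ z := by
    rw [hτe, hzδ, ← hg₀, hgdef, map_mul, map_mul, map_inv]
  refine ⟨τ * τ, (hmul a b K φ Γ m₀ m₁ Λ Φ Q π L ρ hJ hR).1 l l τ τ hτ hτ, g * g, ?_, ?_,
    g⁻¹ * z * g * z, Jsqr_le (dvd_mul_left k₁ k₀) ((hsc2 z hz).2 g).2, ?_⟩
  · rw [map_mul]
    exact Γ.mul_mem hgΓ hgΓ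
  · have e : (⟨pcQ φ (g * g), by rw [map_mul]; exact Γ.mul_mem hgΓ hgΓ⟩ : Γ) =
        ⟨pcQ φ g, hgΓ⟩ * ⟨pcQ φ g, hgΓ⟩ := Subtype.ext (map_mul _ _ _)
    rw [e, map_mul, map_mul, hπg]
  · rw [hτg, ← map_mul, ← map_mul, ← map_mul]
    congr 1
    group

end

end Pool.Agent.F8.CG
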