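import Pool.Agent.Lib.MP_305fdd_al.F8.CG.StmJ

/-!
# MP_305fdd_al, congruence subgroups: piece J un (the unit group is finite)
-/

set_option autoImplicit false

namespace Pool.Agent.F8.CG

open Pool.Agent.F8.BG Pool.Agent.MP_305fdd_al Pool.Agent.Lib.MP_305fdd_al Pool.Agent.F8
open scoped QuadraticAlgebra

noncomputable section

private theorem Jun_bound {a b : ℤ} (hn : b ^ 2 + 4 * a < 0) (u : (Qf a b ℤ)ˣ) :
    u.val.im ∈ Set.Icc (-2 : ℤ) 2 ∧ 2 * u.val.re + b * u.val.im ∈ Set.Icc (-2 : ℤ) 2 := by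
  have hnq : nq u.val = 1 := by
    have h1 := congrArg nq u.mul_inv
    rw [nq_mul] at h1
    have h2 : nq (1 : Qf a b ℤ) = 1 := by
      unfold nq
      simp
    rw [h2] at h1
    have h3 := nq_nonneg hn u.val
    rcases Int.eq_one_or_neg_one_of_mul_eq_one h1 with h4 | h4
    · exact h4
    · omega
  have h : 4 * nq u.val = (2 * u.val.re + b * u.val.im) ^ 2 +
      (-(b ^ 2 + 4 * a)) * u.val.im ^ 2 := by
    unfold nq
    simp only [Int.cast_id]
    ring
  rw [hnq] at h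
  generalize hx : 2 * u.val.re + b * u.val.im = x at *
  generalize hy : u.val.im = y at *
  have h1 : 1 ≤ -(b ^ 2 + 4 * a) := by linarith
  have h2 : y ^ 2 ≤ (-(b ^ 2 + 4 * a)) * y ^ 2 := by
    nlinarith [sq_nonneg y]
  have h3 : x ^ 2 ≤ 4 := by nlinarith [sq_nonneg y]
  have h4 : y ^ 2 ≤ 4 := by nlinarith [sq_nonneg x]
  refine ⟨⟨?_, ?_⟩, ⟨?_, ?_⟩⟩ <;> nlinarith

theorem p_Jun : J_un := by
  intro a b hn
  let f : (Qf a b ℤ)ˣ → Set.Icc (-2 : ℤ) 2 × Set.Icc (-2 : ℤ) 2 := fun u =>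
    (⟨u.val.im, (Jun_bound hn u).1⟩, ⟨2 * u.val.re + b * u.val.im, (Jun_bound hn u).2⟩)
  apply Finite.of_injective f
  intro u v huv
  have h1 : u.val.im = v.val.im := congrArg (fun p => (p.1 : ℤ)) huv
  have h2 : 2 * u.val.re + b * u.val.im = 2 * v.val.re + b * v.val.im :=
    congrArg (fun p => (p.2 : ℤ)) huv
  apply Units.ext
  apply QuadraticAlgebra.ext
  · rw [h1] at h2
    omega
  · exact h1

end

end Pool.Agent.F8.CG
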