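import Pool.Agent.Lib.MP_305fdd_al.F8.CG.StmJ

/-!
# MP_305fdd_al, congruence subgroups, piece Juq: uniqueness of `IsTh`
-/

set_option autoImplicit false

namespace Pool.Agent.F8.CG

open Pool.Agent.F8.BG Pool.Agent.MP_305fdd_al Pool.Agent.Lib.MP_305fdd_al Pool.Agent.F8
open scoped QuadraticAlgebra

noncomputable section

private theorem Juq_zero (a b : ℤ) (m : ℕ) :
    Qfm a b (Int.castRingHom (ZMod m)) (m : Qf a b ℤ) = 0 := by
  rw [map_natCast]
  apply QuadraticAlgebra.ext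
  · rw [QuadraticAlgebra.re_natCast, QuadraticAlgebra.re_zero, ZMod.natCast_self]
  · rw [QuadraticAlgebra.im_natCast, QuadraticAlgebra.im_zero]

private theorem Juq_eU (a b : ℤ) (m : ℕ) : (eU (m : Qf a b ℤ) : GQ a b) ∈ Gam a b m := by
  rw [MonoidHom.mem_ker]
  unfold rdq
  rw [eU_map, Juq_zero]
  exact AB.mx_one.symm

private theorem Juq_eV (a b : ℤ) (m : ℕ) : (eV (m : Qf a b ℤ) : GQ a b) ∈ Gam a b m := by
  rw [MonoidHom.mem_ker]
  unfold rdq
  rw [eV_map, Juq_zero]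
  exact AB.mx_one.symm

/-- cancellation of the determinant -/
private theorem Juq_adj {R : Type} [CommRing R] [IsDomain R] (A Y G : Matrix (Fin 2) (Fin 2) R)
    (hd : A.det ≠ 0) (h : Y * A = A * G) : A.adjugate * Y = G * A.adjugate := by
  have h1 : A.adjugate * Y * (A * A.adjugate) = (A.adjugate * A) * (G * A.adjugate) := by
    calc A.adjugate * Y * (A * A.adjugate) = A.adjugate * (Y * A) * A.adjugate := by
          simp only [Matrix.mul_assoc]
      _ = A.adjugate * (A * G) * A.adjugate := by rw [h]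
      _ = (A.adjugate * A) * (G * A.adjugate) := by simp only [Matrix.mul_assoc]
  rw [Matrix.mul_adjugate, Matrix.adjugate_mul, Matrix.mul_smul, Matrix.smul_mul, Matrix.mul_one,
    Matrix.one_mul] at h1
  refine Matrix.ext fun i j => ?_
  have h2 := congrFun (congrFun h1 i) j
  rw [Matrix.smul_apply, Matrix.smul_apply, smul_eq_mul, smul_eq_mul] at h2
  exact mul_left_cancel₀ hd h2

/-- Uniqueness of `IsTh`. -/
theorem p_Juq (hpi : J_pi) : J_uq := by
  intro a b K _ φ Γ m₀ m₁ Λ _ Φ Q _ _ π L ρ H F l τ τ' hτ hτ'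
  have hdom : IsDomain (Qf a b ℤ) := Qf_domain H.neg
  obtain ⟨A, hA, hA2⟩ := hτ
  obtain ⟨A', hA', hA2'⟩ := hτ'
  have hcom : ∀ g ∈ Gam a b m₁, g.val * (A.adjugate * A') = (A.adjugate * A') * g.val := by
    intro g hg
    have hg0 : g ∈ Gam a b m₀ := gam_le H.dvd hg
    have hgr : g ∈ ρ.range := by
      rw [H.rng]
      exact hg0
    obtain ⟨x, hx⟩ := hgr
    have hpx : pcQ φ (ρ x) ∈ Γ := by
      rw [hx]
      exact H.le g hg0
    have h1 : Φ.toFun Q π x = 1 := by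
      rw [hpi a b K φ Γ m₀ m₁ Λ Φ Q π L ρ H x hpx]
      apply H.ker'
      exact ⟨g, hg, by rw [← hx]⟩
    have hone : (⟨pcQ φ 1, H.le 1 (one_mem _)⟩ : Γ) = 1 := Subtype.ext (map_one _)
    have hyL : l * x * l⁻¹ ∈ L := by
      rw [H.memL]
      refine ⟨1, one_mem _, ?_⟩
      rw [map_mul, map_mul, h1, mul_one, ← map_mul, mul_inv_cancel, map_one, hone, map_one]
    have e1 := hA2 x ⟨l * x * l⁻¹, hyL⟩ h1 rfl
    have e2 := hA2' x ⟨l * x * l⁻¹, hyL⟩ h1 rfl
    rw [hx] at e1 e2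
    have e3 := Juq_adj A _ _ (F.det A τ hA) e1
    calc g.val * (A.adjugate * A') = (g.val * A.adjugate) * A' := by rw [Matrix.mul_assoc]
      _ = (A.adjugate * (ρ ⟨l * x * l⁻¹, hyL⟩).val) * A' := by rw [e3]
      _ = A.adjugate * ((ρ ⟨l * x * l⁻¹, hyL⟩).val * A') := by rw [Matrix.mul_assoc]
      _ = A.adjugate * (A' * g.val) := by rw [e2]
      _ = (A.adjugate * A') * g.val := by rw [Matrix.mul_assoc]
  have hrep : RepQ φ (A.adjugate * A') (τ⁻¹ * τ') := F.mul _ _ _ _ (F.inv A τ hA) hA'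
  have hm0 : ((m₁ : ℕ) : Qf a b ℤ) ≠ 0 := by
    intro h
    have h1 := congrArg QuadraticAlgebra.re h
    rw [QuadraticAlgebra.re_natCast, QuadraticAlgebra.re_zero] at h1
    exact H.ne (by exact_mod_cast h1)
  have hU : !![(1 : Qf a b ℤ), m₁; 0, 1] * (A.adjugate * A') =
      (A.adjugate * A') * !![(1 : Qf a b ℤ), m₁; 0, 1] := hcom _ (Juq_eU a b m₁)
  have hV : !![(1 : Qf a b ℤ), 0; m₁, 1] * (A.adjugate * A') =
      (A.adjugate * A') * !![(1 : Qf a b ℤ), 0; m₁, 1] := hcom _ (Juq_eV a b m₁)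
  generalize A.adjugate * A' = M at hU hV hrep
  have u00 := congrFun (congrFun hU 0) 0
  have u01 := congrFun (congrFun hU 0) 1
  have v00 := congrFun (congrFun hV 0) 0
  simp only [Matrix.mul_apply, Fin.sum_univ_two, Matrix.cons_val', Matrix.cons_val_zero,
    Matrix.cons_val_one, Matrix.of_apply, Matrix.cons_val_fin_one, one_mul, mul_one, zero_mul,
    mul_zero, add_zero] at u00 u01 v00
  have r0 : M 1 0 = 0 := by
    have : (m₁ : Qf a b ℤ) * M 1 0 = 0 := by linear_combination u00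
    exact (mul_eq_zero.1 this).resolve_left hm0
  have q0 : M 0 1 = 0 := by
    have : (m₁ : Qf a b ℤ) * M 0 1 = 0 := by linear_combination (-1 : Qf a b ℤ) * v00
    exact (mul_eq_zero.1 this).resolve_left hm0
  have s0 : M 0 0 = M 1 1 := by
    have : (m₁ : Qf a b ℤ) * (M 1 1 - M 0 0) = 0 := by linear_combination u01
    exact (sub_eq_zero.1 ((mul_eq_zero.1 this).resolve_left hm0)).symm
  have h1 : τ⁻¹ * τ' = 1 := (F.cen _ _ hrep).2 ⟨q0, r0, s0⟩
  exact inv_mul_eq_one.1 h1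

end

end Pool.Agent.F8.CG
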