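import Pool.Agent.Lib.MP_305fdd_al.F8.CG.StmJ

/-!
# MP_305fdd_al, congruence subgroups: matrices with a fixed determinant, scalar modulo a large number (`J_x0`)
-/

set_option autoImplicit false

namespace Pool.Agent.F8.CG

open Pool.Agent.F8.BG Pool.Agent.MP_305fdd_al Pool.Agent.Lib.MP_305fdd_al Pool.Agent.F8
open scoped QuadraticAlgebra

/-- PIECE CG Jx0 -/
theorem p_Jx0 : J_x0 := by
  intro a b hneg hP D₀ hD₀ k hk
  have hdom : IsDomain (Qf a b ℤ) := Qf_domain hneg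
  -- the norm
  obtain ⟨n, hn⟩ : ∃ n : ℕ, (n : Qf a b ℤ) = D₀ * cjq a b ℤ D₀ := by
    refine ⟨(nq D₀).toNat, ?_⟩
    rw [mul_cjq]
    have h1 : (((nq D₀).toNat : ℤ)) = nq D₀ := Int.toNat_of_nonneg (nq_nonneg hneg D₀)
    apply QuadraticAlgebra.ext
    · show ((((nq D₀).toNat : ℕ) : Qf a b ℤ)).re = nq D₀
      rw [QuadraticAlgebra.re_natCast]
      exact h1
    · show ((((nq D₀).toNat : ℕ) : Qf a b ℤ)).im = 0
      rw [QuadraticAlgebra.im_natCast]
  have hn0 : n ≠ 0 := by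
    rintro rfl
    have h1 : D₀ * cjq a b ℤ D₀ = 0 := by rw [← hn, Nat.cast_zero]
    rw [mul_cjq] at h1
    have h2 := congrArg QuadraticAlgebra.re h1
    exact hD₀ (nq_eq_zero hneg h2)
  refine ⟨k * n ^ 2, Nat.mul_ne_zero hk (pow_ne_zero _ hn0), ?_⟩
  intro X hX hS
  obtain ⟨g, X₀, hg, rfl, c, hc⟩ := p_Wprim a b hneg hP X (by rw [hX]; exact hD₀)
  refine ⟨g, X₀, hg, rfl, ?_⟩
  have hdet : g ^ 2 * X₀.det = D₀ := by
    rw [← hX, Matrix.det_smul]
    rfl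
  have hdiv : ∀ y : Qf a b ℤ, ((k * n ^ 2 : ℕ) : Qf a b ℤ) ∣ g * y →
      ((k * n : ℕ) : Qf a b ℤ) ∣ y := by
    rintro y ⟨t, ht⟩
    refine ⟨g * X₀.det * cjq a b ℤ D₀ * t, ?_⟩
    apply mul_left_cancel₀ hg
    rw [ht]
    push_cast
    have h1 : (n : Qf a b ℤ) = g * (g * X₀.det * cjq a b ℤ D₀) := by
      rw [hn]
      calc D₀ * cjq a b ℤ D₀ = (g ^ 2 * X₀.det) * cjq a b ℤ D₀ := by rw [hdet]
        _ = _ := by ring
    calc (k : Qf a b ℤ) * (n : Qf a b ℤ) ^ 2 * t = k * n * t * n := by ring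
      _ = k * n * t * (g * (g * X₀.det * cjq a b ℤ D₀)) := by rw [← h1]
      _ = _ := by ring
  have h01 := hdiv (X₀ 0 1) (by simpa [Matrix.smul_apply, smul_eq_mul] using hS.1)
  have h10 := hdiv (X₀ 1 0) (by simpa [Matrix.smul_apply, smul_eq_mul] using hS.2.1)
  have h00 := hdiv (X₀ 0 0 - X₀ 1 1) (by
    have h1 := hS.2.2
    simp only [Matrix.smul_apply, smul_eq_mul] at h1
    rwa [← mul_sub] at h1)
  constructor
  · have hm : X₀.det ∣ ((k * n : ℕ) : Qf a b ℤ) := by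
      refine ⟨k * (g ^ 2 * cjq a b ℤ D₀), ?_⟩
      push_cast
      rw [hn]
      calc (k : Qf a b ℤ) * (D₀ * cjq a b ℤ D₀) = k * ((g ^ 2 * X₀.det) * cjq a b ℤ D₀) := by
            rw [hdet]
        _ = _ := by ring
    obtain ⟨u, hu⟩ := hm
    obtain ⟨p, hp⟩ := h01
    obtain ⟨q, hq⟩ := h10
    obtain ⟨r, hr⟩ := h00
    generalize ((k * n : ℕ) : Qf a b ℤ) = m at *
    rw [Fin.sum_univ_two, Fin.sum_univ_two, Fin.sum_univ_two] at hc
    have h11 : X₀ 1 1 = X₀ 0 0 - m * r := by rw [← hr]; ring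
    have hd : X₀.det = X₀ 0 0 * (X₀ 0 0 - m * r) - m * p * (m * q) := by
      rw [Matrix.det_fin_two, h11, hp, hq]
    generalize hx : X₀ 0 0 = x at *
    rw [h11, hp, hq] at hc
    generalize hdd : X₀.det = d at *
    have h1 : (c 0 0 + c 1 1) * x + m * (c 0 1 * p + c 1 0 * q - c 1 1 * r) = 1 := by
      rw [← hc]
      ring
    generalize c 0 0 + c 1 1 = s at h1
    generalize c 0 1 * p + c 1 0 * q - c 1 1 * r = t at h1
    have h2 : d * (s ^ 2 + u * (s ^ 2 * (x * r + m * (p * q)) + 2 * s * x * t + m * t ^ 2)) = 1 := by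
      have h3 : (s * x + m * t) ^ 2 = 1 := by rw [h1, one_pow]
      calc d * (s ^ 2 + u * (s ^ 2 * (x * r + m * (p * q)) + 2 * s * x * t + m * t ^ 2))
          = s ^ 2 * d + (d * u) * (s ^ 2 * (x * r + m * (p * q)) + 2 * s * x * t + m * t ^ 2) := by
            ring
        _ = s ^ 2 * d + m * (s ^ 2 * (x * r + m * (p * q)) + 2 * s * x * t + m * t ^ 2) := by
            rw [← hu]
        _ = (s * x + m * t) ^ 2 := by rw [hd]; ring
        _ = 1 := h3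
    exact IsUnit.of_mul_eq_one _ h2
  · have hkn : (k : Qf a b ℤ) ∣ ((k * n : ℕ) : Qf a b ℤ) := by
      push_cast
      exact Dvd.intro _ rfl
    exact ⟨hkn.trans h01, hkn.trans h10, hkn.trans h00⟩

end Pool.Agent.F8.CG
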