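import Pool.Agent.Lib.MP_305fdd_al.F8.CG.StmK

/-!
# MP_305fdd_al, congruence subgroups: piece Kalg, conjugate unipotent matrices
-/

set_option autoImplicit false

namespace Pool.Agent.F8.CG

open Pool.Agent.F8.BG Pool.Agent.MP_305fdd_al Pool.Agent.Lib.MP_305fdd_al Pool.Agent.F8
open scoped QuadraticAlgebra

private theorem Kalg_zmod (m₀ k : ℕ) (hm : m₀ ≠ 0) (z : ZMod (m₀ * k))
    (h : (m₀ : ZMod (m₀ * k)) * z = 0) :
    ZMod.castHom (Dvd.intro_left m₀ rfl : k ∣ m₀ * k) (ZMod k) z = 0 := by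
  obtain ⟨n, rfl⟩ := ZMod.intCast_surjective z
  rw [map_intCast, ZMod.intCast_zmod_eq_zero_iff_dvd]
  have h1 : (((m₀ : ℤ) * n : ℤ) : ZMod (m₀ * k)) = 0 := by
    rw [Int.cast_mul, Int.cast_natCast]
    exact h
  rw [ZMod.intCast_zmod_eq_zero_iff_dvd, Nat.cast_mul] at h1
  exact Int.dvd_of_mul_dvd_mul_left (by exact_mod_cast hm) h1

private theorem Kalg_q {a b : ℤ} (m₀ k : ℕ) (hm : m₀ ≠ 0) (z : Qf a b (ZMod (m₀ * k)))
    (h : (m₀ : Qf a b (ZMod (m₀ * k))) * z = 0) :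
    Qfm a b (ZMod.castHom (Dvd.intro_left m₀ rfl : k ∣ m₀ * k) (ZMod k)) z = 0 := by
  rw [Qfm_apply]
  have h1 := congrArg QuadraticAlgebra.re h
  have h2 := congrArg QuadraticAlgebra.im h
  have h1' : (m₀ : ZMod (m₀ * k)) * z.re = 0 := by simpa using h1
  have h2' : (m₀ : ZMod (m₀ * k)) * z.im = 0 := by simpa using h2
  apply QuadraticAlgebra.ext
  · exact Kalg_zmod m₀ k hm _ h1'
  · exact Kalg_zmod m₀ k hm _ h2'

theorem p_Kalg : K_alg := by
  intro a b M₁ K _ _ C E hCE hEC g t hyp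
  set f : Qf a b ℤ →+* Qf a b (ZMod (M₁ * K)) := Qfm a b (Int.castRingHom (ZMod (M₁ * K))) with hf
  set q : Qf a b (ZMod (M₁ * K)) →+* Qf a b (ZMod K) :=
    Qfm a b (ZMod.castHom (Dvd.intro_left M₁ rfl : K ∣ M₁ * K) (ZMod K)) with hq
  have hcomp : Qfm a b (Int.castRingHom (ZMod K)) t = q (f t) := by
    rw [hq, hf, Qfm_apply, Qfm_apply, Qfm_apply]
    apply QuadraticAlgebra.ext
    · simp
    · simp
  set R := rdq a b (M₁ * K) with hR
  set B : Matrix (Fin 2) (Fin 2) (Qf a b (ZMod (M₁ * K))) := C * (R g).val with hB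
  have hg : (R g⁻¹).val * (R g).val = 1 := by
    rw [← Matrix.SpecialLinearGroup.coe_mul, ← map_mul, inv_mul_cancel, map_one,
      Matrix.SpecialLinearGroup.coe_one]
  have h1 : R (eU (M₁ : Qf a b ℤ)) = eU (M₁ : Qf a b (ZMod (M₁ * K))) := by
    rw [hR, rdq, eU_map, map_natCast]
  have h2 : R (eU ((M₁ : Qf a b ℤ) * t)) = eU ((M₁ : Qf a b (ZMod (M₁ * K))) * f t) := by
    rw [hR, rdq, eU_map, map_mul, map_natCast]
  rw [h1, map_mul, map_mul, h2, Matrix.SpecialLinearGroup.coe_mul,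
    Matrix.SpecialLinearGroup.coe_mul] at hyp
  have hU : (eU (M₁ : Qf a b (ZMod (M₁ * K)))).val * B =
      B * (eU ((M₁ : Qf a b (ZMod (M₁ * K))) * f t)).val := by
    rw [hyp, hB]
    calc C * ((R g).val * (eU ((M₁ : Qf a b (ZMod (M₁ * K))) * f t)).val * (R g⁻¹).val) * E *
          (C * (R g).val) =
        C * ((R g).val * (eU ((M₁ : Qf a b (ZMod (M₁ * K))) * f t)).val * (R g⁻¹).val) * (E * C) *
          (R g).val := by simp only [Matrix.mul_assoc]
      _ = C * (R g).val * (eU ((M₁ : Qf a b (ZMod (M₁ * K))) * f t)).val *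
          ((R g⁻¹).val * (R g).val) := by
        rw [hEC, mul_one]
        simp only [Matrix.mul_assoc]
      _ = C * (R g).val * (eU ((M₁ : Qf a b (ZMod (M₁ * K))) * f t)).val := by
        rw [hg, mul_one]
  have e10 : (M₁ : Qf a b (ZMod (M₁ * K))) * B 1 0 = 0 := by
    have := congrFun (congrFun hU 0) 0
    simp only [Matrix.mul_apply, Fin.sum_univ_two] at this
    have h00 : (eU (M₁ : Qf a b (ZMod (M₁ * K)))).val 0 0 = 1 := rfl
    have h01 : (eU (M₁ : Qf a b (ZMod (M₁ * K)))).val 0 1 = M₁ := rfl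
    have k00 : (eU ((M₁ : Qf a b (ZMod (M₁ * K))) * f t)).val 0 0 = 1 := rfl
    have k10 : (eU ((M₁ : Qf a b (ZMod (M₁ * K))) * f t)).val 1 0 = 0 := rfl
    rw [h00, h01, k00, k10] at this
    linear_combination this
  have e01 : (M₁ : Qf a b (ZMod (M₁ * K))) * (B 1 1 - B 0 0 * f t) = 0 := by
    have := congrFun (congrFun hU 0) 1
    simp only [Matrix.mul_apply, Fin.sum_univ_two] at this
    have h00 : (eU (M₁ : Qf a b (ZMod (M₁ * K)))).val 0 0 = 1 := rfl
    have h01 : (eU (M₁ : Qf a b (ZMod (M₁ * K)))).val 0 1 = M₁ := rfl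
    have k01 : (eU ((M₁ : Qf a b (ZMod (M₁ * K))) * f t)).val 0 1 =
      (M₁ : Qf a b (ZMod (M₁ * K))) * f t := rfl
    have k11 : (eU ((M₁ : Qf a b (ZMod (M₁ * K))) * f t)).val 1 1 = 1 := rfl
    rw [h00, h01, k01, k11] at this
    linear_combination this
  have q10 : q (B 1 0) = 0 := Kalg_q M₁ K (NeZero.ne M₁) _ e10
  have q11 : q (B 1 1) = q (B 0 0) * q (f t) := by
    have := Kalg_q M₁ K (NeZero.ne M₁) _ e01
    rw [← hq, map_sub, map_mul] at this
    exact sub_eq_zero.1 this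
  have hdet : q C.det = q (B 0 0) ^ 2 * q (f t) := by
    have h3 : C.det = B.det := by
      rw [hB, Matrix.det_mul, (R g).prop, mul_one]
    rw [h3, Matrix.det_fin_two, map_sub, map_mul, map_mul, q10, q11]
    ring
  have hunit : IsUnit (q C.det) := by
    apply IsUnit.map q
    refine IsUnit.of_mul_eq_one E.det ?_
    rw [← Matrix.det_mul, hCE, Matrix.det_one]
  rw [hdet] at hunit
  have hP : IsUnit (q (B 0 0)) := by
    have := isUnit_of_mul_isUnit_left hunit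
    exact (isUnit_pow_iff two_ne_zero).1 this
  refine ⟨?_, q (B 0 0), hP, ?_⟩
  · rw [hcomp]
    exact isUnit_of_mul_isUnit_right hunit
  · rw [hcomp]
    exact hdet

end Pool.Agent.F8.CG
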