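import Pool.Agent.Lib.MP_305fdd_al.F8.CG.StmK
import Pool.Agent.Lib.MP_305fdd_al.F8.CG.P_Xfg

/-!
# MP_305fdd_al, congruence subgroups: piece Kdet, the determinant of the conjugator (helper70)
-/

set_option autoImplicit false

namespace Pool.Agent.F8.CG

open Pool.Agent.F8.BG Pool.Agent.MP_305fdd_al Pool.Agent.Lib.MP_305fdd_al Pool.Agent.F8
open scoped QuadraticAlgebra

noncomputable section

/-- the reduction of the matrices of `RhoG` -/
private theorem Kdet_red {a b : ℤ} {G Λ : Type} [Group G] [Group Λ] (ρ₀ : G →* GQ a b)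
    (Φ : NatBij G Λ) (ρ : Λ →* GQ a b) (m k : ℕ) [NeZero m] [NeZero k] (hkm : k ∣ m)
    (C E : Matrix (Fin 2) (Fin 2) (Qf a b (ZMod m))) (h1 : C * E = 1) (h2 : E * C = 1)
    (h3 : ∀ l, (rdq a b m (ρ l)).val = C * (Φ.toFun _ ((rdq a b m).comp ρ₀) l).val * E) :
    C.map (Qfm a b (ZMod.castHom hkm (ZMod k))) * E.map (Qfm a b (ZMod.castHom hkm (ZMod k))) = 1 ∧
    E.map (Qfm a b (ZMod.castHom hkm (ZMod k))) * C.map (Qfm a b (ZMod.castHom hkm (ZMod k))) = 1 ∧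
    ∀ l, (rdq a b k (ρ l)).val = C.map (Qfm a b (ZMod.castHom hkm (ZMod k))) *
      (Φ.toFun _ ((rdq a b k).comp ρ₀) l).val * E.map (Qfm a b (ZMod.castHom hkm (ZMod k))) := by
  let q : Qf a b (ZMod m) →+* Qf a b (ZMod k) := Qfm a b (ZMod.castHom hkm (ZMod k))
  have hq : (SLm q).comp (rdq a b m) = rdq a b k := by
    refine MonoidHom.ext fun x => Subtype.ext (Matrix.ext fun i j => ?_)
    show q (Qfm a b (Int.castRingHom (ZMod m)) (x.val i j)) =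
      Qfm a b (Int.castRingHom (ZMod k)) (x.val i j)
    have h4 : (Qfm a b (ZMod.castHom hkm (ZMod k)))
        (Qfm a b (Int.castRingHom (ZMod m)) (x.val i j)) =
        Qfm a b (Int.castRingHom (ZMod k)) (x.val i j) := by
      rw [Qfm_apply, Qfm_apply, Qfm_apply]
      apply QuadraticAlgebra.ext
      · show ZMod.castHom _ (ZMod k) (Int.castRingHom (ZMod m) _) = _
        simp
      · show ZMod.castHom _ (ZMod k) (Int.castRingHom (ZMod m) _) = _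
        simp
    exact h4
  have hΦ : ∀ l, SLm q (Φ.toFun _ ((rdq a b m).comp ρ₀) l) =
      Φ.toFun _ ((rdq a b k).comp ρ₀) l := by
    intro l
    have h4 := Φ.nat (SLm q) ((rdq a b m).comp ρ₀)
    rw [← MonoidHom.comp_assoc, hq] at h4
    exact (DFunLike.congr_fun h4 l).symm
  have hv : ∀ (x : SL2 (Qf a b (ZMod m))), (SLm q x).val = x.val.map q := fun x => rfl
  have hmap : ∀ X Y : Matrix (Fin 2) (Fin 2) (Qf a b (ZMod m)),
      (X * Y).map q = X.map q * Y.map q := fun X Y => Matrix.map_mul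
  have hone : (1 : Matrix (Fin 2) (Fin 2) (Qf a b (ZMod m))).map q = 1 :=
    Matrix.map_one q (map_zero q) (map_one q)
  refine ⟨?_, ?_, ?_⟩
  · show C.map q * E.map q = 1
    rw [← hmap, h1, hone]
  · show E.map q * C.map q = 1
    rw [← hmap, h2, hone]
  · intro l
    have h4 : rdq a b k (ρ l) = SLm q (rdq a b m (ρ l)) :=
      (DFunLike.congr_fun hq (ρ l)).symm
    show (rdq a b k (ρ l)).val = C.map q * (Φ.toFun _ ((rdq a b k).comp ρ₀) l).val * E.map q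
    rw [h4, hv, h3, hmap, hmap, ← hv, hΦ]

private theorem Kdet_zero {a b : ℤ} {K : ℕ} {z : Qf a b ℤ} :
    Qfm a b (Int.castRingHom (ZMod K)) z = 0 ↔ (K : Qf a b ℤ) ∣ z := by
  constructor
  · intro h
    have h1 : ((z.re : ℤ) : ZMod K) = 0 := congrArg QuadraticAlgebra.re h
    have h2 : ((z.im : ℤ) : ZMod K) = 0 := congrArg QuadraticAlgebra.im h
    rw [ZMod.intCast_zmod_eq_zero_iff_dvd] at h1 h2
    obtain ⟨x, hx⟩ := h1
    obtain ⟨y, hy⟩ := h2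
    refine ⟨⟨x, y⟩, ?_⟩
    apply QuadraticAlgebra.ext
    · simp [hx]
    · simp [hy]
  · rintro ⟨y, rfl⟩
    rw [map_mul, map_natCast]
    have : ((K : ℕ) : Qf a b (ZMod K)) = 0 := by
      apply QuadraticAlgebra.ext <;> simp
    rw [this, zero_mul]

private theorem Kdet_eq {a b : ℤ} {K : ℕ} {z z' : Qf a b ℤ} (h : (K : Qf a b ℤ) ∣ z - z') :
    Qfm a b (Int.castRingHom (ZMod K)) z = Qfm a b (Int.castRingHom (ZMod K)) z' := by
  have h1 := Kdet_zero.2 h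
  rwa [map_sub, sub_eq_zero] at h1

private theorem Kdet_surj {a b : ℤ} {K : ℕ} (y : Qf a b (ZMod K)) :
    ∃ z : Qf a b ℤ, Qfm a b (Int.castRingHom (ZMod K)) z = y := by
  obtain ⟨p, hp⟩ := ZMod.intCast_surjective y.re
  obtain ⟨q, hq⟩ := ZMod.intCast_surjective y.im
  refine ⟨⟨p, q⟩, ?_⟩
  apply QuadraticAlgebra.ext
  · exact hp
  · exact hq

private theorem Kdet_cast {a b : ℤ} {m k : ℕ} (h : k ∣ m) (z : Qf a b ℤ) :
    Qfm a b (ZMod.castHom h (ZMod k)) (Qfm a b (Int.castRingHom (ZMod m)) z) =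
      Qfm a b (Int.castRingHom (ZMod k)) z := by
  rw [Qfm_apply, Qfm_apply, Qfm_apply]
  apply QuadraticAlgebra.ext
  · show ZMod.castHom _ (ZMod k) (Int.castRingHom (ZMod m) _) = _
    simp
  · show ZMod.castHom _ (ZMod k) (Int.castRingHom (ZMod m) _) = _
    simp

private theorem Kdet_cast2 {a b : ℤ} {n m k : ℕ} (h : m ∣ n) (h' : k ∣ m) (h'' : k ∣ n)
    (z : Qf a b (ZMod n)) :
    Qfm a b (ZMod.castHom h' (ZMod k)) (Qfm a b (ZMod.castHom h (ZMod m)) z) =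
      Qfm a b (ZMod.castHom h'' (ZMod k)) z := by
  obtain ⟨y, rfl⟩ := Kdet_surj z
  rw [Kdet_cast, Kdet_cast, Kdet_cast]

/-- an element which is a unit modulo a multiple is a unit -/
private theorem Kdet_unit {a b : ℤ} {K : ℕ} {T : Qf a b ℤ} (hT : T ∣ (K : Qf a b ℤ))
    (hu : IsUnit (Qfm a b (Int.castRingHom (ZMod K)) T)) : IsUnit T := by
  obtain ⟨y, hy⟩ := hu.exists_right_inv
  obtain ⟨v, rfl⟩ := Kdet_surj y
  have h1 : (K : Qf a b ℤ) ∣ T * v - 1 := by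
    rw [← Kdet_zero, map_sub, map_mul, hy, map_one, sub_self]
  have h2 : T ∣ T * v - 1 := hT.trans h1
  have h3 : T ∣ 1 := by
    have h4 := dvd_sub (Dvd.intro v rfl : T ∣ T * v) h2
    rwa [sub_sub_cancel] at h4
  exact isUnit_of_dvd_one h3

private theorem Kdet_norm {a b : ℤ} (hn : b ^ 2 + 4 * a < 0) (T : Qf a b ℤ) :
    ∃ n : ℕ, n ≠ 0 ∧ (T ≠ 0 → T ∣ (n : Qf a b ℤ)) := by
  by_cases h : T = 0
  · exact ⟨1, one_ne_zero, fun h1 => absurd h h1⟩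
  · refine ⟨(nq T).natAbs, ?_, fun _ => ?_⟩
    · intro h1
      exact h (nq_eq_zero hn (Int.natAbs_eq_zero.1 h1))
    · refine ⟨cjq a b ℤ T, ?_⟩
      rw [mul_cjq]
      apply QuadraticAlgebra.ext
      · show _ = nq T
        have h1 : (((nq T).natAbs : ℕ) : ℤ) = nq T := Int.natAbs_of_nonneg (nq_nonneg hn T)
        rw [← h1]
        simp
      · show _ = (0 : ℤ)
        simp

private theorem Kdet_eU_add {R : Type} [CommRing R] (x y : R) : eU (x + y) = eU x * eU y := by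
  unfold eU
  rw [AB.mx_mul]
  apply AB.mx_congr <;> ring

private theorem Kdet_eU_zero {R : Type} [CommRing R] : (eU (0 : R)) = 1 := by
  have h := Kdet_eU_add (0 : R) 0
  rw [add_zero] at h
  exact (mul_eq_left.1 h.symm)

private theorem Kdet_mem {a b : ℤ} (M₁ : ℕ) (x : Qf a b ℤ) :
    eU ((M₁ : Qf a b ℤ) * x) ∈ Gam a b M₁ := by
  show rdq a b M₁ _ = 1
  unfold rdq
  rw [eU_map]
  have h : Qfm a b (Int.castRingHom (ZMod M₁)) ((M₁ : Qf a b ℤ) * x) = 0 :=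
    Kdet_zero.2 (Dvd.intro x rfl)
  rw [h, Kdet_eU_zero]

private theorem Kdet_of_mem {a b : ℤ} (M₁ : ℕ) (x : Qf a b ℤ) (h : eU x ∈ Gam a b M₁) :
    ∃ t, x = (M₁ : Qf a b ℤ) * t := by
  have h1 : rdq a b M₁ (eU x) = 1 := h
  unfold rdq at h1
  rw [eU_map] at h1
  have h2 := congrArg (fun y : SL2 (Qf a b (ZMod M₁)) => y.val 0 1) h1
  have h3 : Qfm a b (Int.castRingHom (ZMod M₁)) x = 0 := h2
  exact Kdet_zero.1 h3

private theorem Kdet_redZ {n : ℕ} {x y : Multiplicative ℤ} (h : redZ n x = redZ n y) :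
    (n : ℤ) ∣ x.toAdd - y.toAdd := by
  have h1 : ((x.toAdd : ℤ) : ZMod n) = ((y.toAdd : ℤ) : ZMod n) := h
  rw [← sub_eq_zero, ← Int.cast_sub, ZMod.intCast_zmod_eq_zero_iff_dvd] at h1
  exact h1

theorem p_Kdet (hnu : K_nu) (himg : K_img) (halg : K_alg) : K_det := by
  intro a b ι _ α N w M c g G₀ η hdat hreg M₀ M₁ h3 hM hM₁ hdvd hFP Ψ hρ k _
  have : NeZero M₁ := ⟨hM₁⟩
  have hfinM : Finite (SL2 (Qf a b (ZMod M₁))) := con_finite a b M₁
  have hfi : (Gam a b M₁).FiniteIndex := inferInstance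
  have hfgQ : Group.FG (GQ a b) := p_Xfg a b ι α M c g G₀ η hdat.eta
  have hfg : Group.FG (Gam a b M₁) := inferInstance
  obtain ⟨ν, hν1, hν2⟩ := hnu a b ι α N w M c g G₀ η hdat hreg M₀ M₁ h3 hM hM₁ hdvd
  have hν3 : ∀ (j : Fin 2) (q : GQ a b ⧸ Gam a b M₁), ∃ ν' : Gam a b M₁ →* Multiplicative ℤ,
      ∀ (m : ℕ) [NeZero m], Ψ.toFun _ ((redZ m).comp ((ν j).comp (cjM M₁ q.out))) =
        (redZ m).comp ν' := fun j q => hν2 j q.out _ Ψ
  choose ν' hν' using hν3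
  let u : Gam a b M₁ := ⟨eU ((M₁ : Qf a b ℤ) * 1), Kdet_mem M₁ 1⟩
  let A : (GQ a b ⧸ Gam a b M₁) → Fin 2 → ℤ := fun q j => (ν' j q u).toAdd
  let l : Fin 2 → (Qf a b ℤ →+ ℤ) := fun j =>
    { toFun := fun x => (ν j ⟨eU ((M₁ : Qf a b ℤ) * x), Kdet_mem M₁ x⟩).toAdd
      map_zero' := by
        have h : (⟨eU ((M₁ : Qf a b ℤ) * 0), Kdet_mem M₁ 0⟩ : Gam a b M₁) = 1 := by
          apply Subtype.ext
          show eU ((M₁ : Qf a b ℤ) * 0) = 1
          rw [mul_zero, Kdet_eU_zero]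
        rw [h, map_one, toAdd_one]
      map_add' := fun x y => by
        have h : (⟨eU ((M₁ : Qf a b ℤ) * (x + y)), Kdet_mem M₁ (x + y)⟩ : Gam a b M₁) =
            ⟨eU ((M₁ : Qf a b ℤ) * x), Kdet_mem M₁ x⟩ *
            ⟨eU ((M₁ : Qf a b ℤ) * y), Kdet_mem M₁ y⟩ := by
          apply Subtype.ext
          show eU ((M₁ : Qf a b ℤ) * (x + y)) =
            eU ((M₁ : Qf a b ℤ) * x) * eU ((M₁ : Qf a b ℤ) * y)
          rw [mul_add, Kdet_eU_add]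
        rw [h, map_mul, toAdd_mul] }
  have hl : ∀ j x, l j x = (ν j ⟨eU ((M₁ : Qf a b ℤ) * x), Kdet_mem M₁ x⟩).toAdd :=
    fun j x => rfl
  obtain ⟨I, hI0, hI⟩ := himg a b l (by
    intro x hx
    refine hν1 x (Kdet_mem M₁ x) fun j => ?_
    have h1 := hx j
    rw [hl] at h1
    exact Multiplicative.toAdd.injective h1)
  have hT : ∀ q : GQ a b ⧸ Gam a b M₁, ∃ t₁ : Qf a b ℤ, ∀ (m : ℕ) (t' : Qf a b ℤ),
      (∀ j, ((I * m : ℕ) : ℤ) ∣ l j t' - A q j) → (m : Qf a b ℤ) ∣ t' - t₁ := by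
    intro q
    by_cases h : ∃ t : Qf a b ℤ, ∀ j, (I : ℤ) ∣ l j t - A q j
    · obtain ⟨t, ht⟩ := h
      obtain ⟨t₁, -, h2⟩ := hI (A q) t ht
      exact ⟨t₁, h2⟩
    · refine ⟨0, fun m t' h1 => absurd ⟨t', fun j => ?_⟩ h⟩
      refine dvd_trans ?_ (h1 j)
      rw [Nat.cast_mul]
      exact dvd_mul_right _ _
  choose T hT using hT
  choose n hn0 hn using fun q => Kdet_norm hdat.neg (T q)
  have hfq : Finite (GQ a b ⧸ Gam a b M₁) := inferInstance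
  have hftq : Fintype (GQ a b ⧸ Gam a b M₁) := Fintype.ofFinite _
  set Pn : ℕ := ∏ q, n q with hPn
  have hPn0 : Pn ≠ 0 := Finset.prod_ne_zero_iff.2 fun q _ => hn0 q
  have hnd : ∀ q, n q ∣ Pn := fun q => Finset.dvd_prod_of_mem n (Finset.mem_univ q)
  set K : ℕ := 2 * k * Pn with hK
  have hK0 : K ≠ 0 := Nat.mul_ne_zero (Nat.mul_ne_zero two_ne_zero (NeZero.ne k)) hPn0
  have hkK : k ∣ K := ⟨2 * Pn, by rw [hK]; ring⟩
  have h2K : 2 ∣ K := ⟨k * Pn, by rw [hK]; ring⟩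
  have hPK : Pn ∣ K := ⟨2 * k, by rw [hK]; ring⟩
  have : NeZero K := ⟨hK0⟩
  have : NeZero I := ⟨hI0⟩
  have : NeZero (I * K) := ⟨Nat.mul_ne_zero hI0 hK0⟩
  have : NeZero (M₁ * (I * K)) := ⟨Nat.mul_ne_zero hM₁ (Nat.mul_ne_zero hI0 hK0)⟩
  have hfinm : Finite (SL2 (Qf a b (ZMod (M₁ * (I * K))))) := con_finite a b _
  have hfinz : Finite (Multiplicative (ZMod (I * K))) :=
    Finite.of_equiv (ZMod (I * K)) Multiplicative.ofAdd
  -- the homomorphism to a finite group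
  let θ₂ : Gam a b M₁ →* (Fin 2 × (GQ a b ⧸ Gam a b M₁) → Multiplicative (ZMod (I * K))) :=
    MonoidHom.pi fun jq =>
      (redZ (I * K)).comp ((ν jq.1).comp (cjM M₁ jq.2.out))
  let θ : Gam a b M₁ →* (SL2 (Qf a b (ZMod (M₁ * (I * K)))) ×
      (Fin 2 × (GQ a b ⧸ Gam a b M₁) → Multiplicative (ZMod (I * K)))) :=
    MonoidHom.prod ((rdq a b (M₁ * (I * K))).comp (Gam a b M₁).subtype) θ₂
  obtain ⟨p, ⟨g', x, hpx⟩, hp⟩ := hFP Ψ hρ _ θ u ⟨_, rfl⟩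
  have hfst : rdq a b (M₁ * (I * K)) p.val =
      Ψ.toFun _ ((rdq a b (M₁ * (I * K))).comp (Gam a b M₁).subtype) u := by
    have h4 := Ψ.nat (MonoidHom.fst _ _) θ
    have h5 := DFunLike.congr_fun h4 u
    have h6 : (MonoidHom.fst (SL2 (Qf a b (ZMod (M₁ * (I * K)))))
      (Fin 2 × (GQ a b ⧸ Gam a b M₁) → Multiplicative (ZMod (I * K)))).comp θ =
      (rdq a b (M₁ * (I * K))).comp (Gam a b M₁).subtype := MonoidHom.fst_comp_prod _ _
    rw [h6] at h5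
    rw [h5, MonoidHom.comp_apply, ← hp]
    rfl
  have hsnd : ∀ (j : Fin 2) (q : GQ a b ⧸ Gam a b M₁),
      redZ (I * K) (ν j (cjM M₁ q.out p)) = redZ (I * K) (ν' j q u) := by
    intro j q
    let ev : (SL2 (Qf a b (ZMod (M₁ * (I * K)))) ×
      (Fin 2 × (GQ a b ⧸ Gam a b M₁) → Multiplicative (ZMod (I * K)))) →*
      Multiplicative (ZMod (I * K)) :=
      (Pi.evalMonoidHom (fun _ : Fin 2 × (GQ a b ⧸ Gam a b M₁) =>
        Multiplicative (ZMod (I * K))) (j, q)).comp (MonoidHom.snd _ _)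
    have h4 := Ψ.nat ev θ
    have h5 := DFunLike.congr_fun h4 u
    have h6 : ev.comp θ = (redZ (I * K)).comp ((ν j).comp (cjM M₁ q.out)) := by
      ext1 y
      rfl
    rw [h6, hν' j q (I * K), MonoidHom.comp_apply, MonoidHom.comp_apply, ← hp] at h5
    exact h5.symm
  -- `x = M₁ t`
  have hxΓ : eU x ∈ Gam a b M₁ := by
    have h4 := (MonoidHom.normal_ker (rdq a b M₁)).conj_mem p.val p.2 g'⁻¹
    have h5 : g'⁻¹ * p.val * g'⁻¹⁻¹ = eU x := by rw [hpx]; group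
    rwa [h5] at h4
  obtain ⟨t, rfl⟩ := Kdet_of_mem M₁ x hxΓ
  -- the class of `g'`
  obtain ⟨hh, hhh⟩ := QuotientGroup.mk_out_eq_mul (Gam a b M₁) g'
  set q₀ : GQ a b ⧸ Gam a b M₁ := (g' : GQ a b ⧸ Gam a b M₁) with hq₀
  have hval : ∀ j, ν j (cjM M₁ q₀.out p) = ν j ⟨eU ((M₁ : Qf a b ℤ) * t), Kdet_mem M₁ t⟩ := by
    intro j
    have h4 : cjM M₁ q₀.out p = hh⁻¹ * ⟨eU ((M₁ : Qf a b ℤ) * t), Kdet_mem M₁ t⟩ * hh := by
      apply Subtype.ext
      show q₀.out⁻¹ * p.val * q₀.out = hh.val⁻¹ * eU ((M₁ : Qf a b ℤ) * t) * hh.val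
      rw [hhh, hpx]
      group
    rw [h4, map_mul, map_mul, map_inv, mul_comm, mul_inv_cancel_left]
  have hdv : ∀ j, ((I * K : ℕ) : ℤ) ∣ l j t - A q₀ j := by
    intro j
    have h4 := hsnd j q₀
    rw [hval j] at h4
    exact Kdet_redZ h4
  have hKt : (K : Qf a b ℤ) ∣ t - T q₀ := hT q₀ K t hdv
  -- the conjugator
  obtain ⟨C, E, hCE, hEC, hC⟩ := hρ (M₁ * (I * K))
  have hu := hC u
  rw [← hfst, hpx] at hu
  obtain ⟨ht, P, hP, hdet⟩ := halg a b M₁ (I * K) C E hCE hEC g' t (by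
    have h4 : ((rdq a b (M₁ * (I * K))) ((Gam a b M₁).subtype u)) =
        rdq a b (M₁ * (I * K)) (eU (M₁ : Qf a b ℤ)) := by
      show rdq a b (M₁ * (I * K)) (eU ((M₁ : Qf a b ℤ) * 1)) = _
      rw [mul_one]
    rw [← h4]
    exact hu)
  -- `T q₀` is a unit
  have hKIK : K ∣ I * K := Dvd.intro_left I rfl
  have htK : IsUnit (Qfm a b (Int.castRingHom (ZMod K)) (T q₀)) := by
    rw [← Kdet_eq hKt, ← Kdet_cast hKIK t]
    exact ht.map (Qfm a b (ZMod.castHom hKIK (ZMod K)))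
  have hK1 : 1 < K := lt_of_lt_of_le one_lt_two (Nat.le_of_dvd (Nat.pos_of_ne_zero hK0) h2K)
  have hnt : Nontrivial (Qf a b (ZMod K)) := by
    have : Fact (1 < K) := ⟨hK1⟩
    refine ⟨⟨0, 1, fun h => ?_⟩⟩
    have h4 : (0 : ZMod K) = 1 := congrArg QuadraticAlgebra.re h
    exact zero_ne_one h4
  have hT0 : T q₀ ≠ 0 := by
    intro h
    rw [h, map_zero] at htK
    exact not_isUnit_zero htK
  have hTK : T q₀ ∣ (K : Qf a b ℤ) := by
    refine (hn q₀ hT0).trans ?_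
    exact Nat.cast_dvd_cast ((hnd q₀).trans hPK)
  obtain ⟨v, hv⟩ := Kdet_unit hTK htK
  -- the reduction modulo `k`
  have hkm : k ∣ M₁ * (I * K) := (hkK.trans hKIK).trans (Dvd.intro_left M₁ rfl)
  obtain ⟨r1, r2, r3⟩ := Kdet_red (Gam a b M₁).subtype Ψ (Gam a b M₁).subtype (M₁ * (I * K)) k hkm
    C E hCE hEC hC
  refine ⟨_, _, r1, r2, r3, v, Qfm a b (ZMod.castHom (hkK.trans hKIK) (ZMod k)) P,
    hP.map _, ?_⟩
  rw [← det_map', hv]
  rw [← Kdet_cast2 (Dvd.intro_left M₁ rfl) (hkK.trans hKIK) hkm, hdet, map_mul, map_pow, Kdet_cast]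
  have h4 : (k : Qf a b ℤ) ∣ t - T q₀ := (Nat.cast_dvd_cast hkK).trans hKt
  rw [Kdet_eq h4, mul_comm]

end

end Pool.Agent.F8.CG
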