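import Pool.Agent.Lib.MP_305fdd_al.F8.CG.StmK

set_option autoImplicit false

namespace Pool.Agent.F8.CG

open Pool.Agent.F8.BG Pool.Agent.MP_305fdd_al Pool.Agent.Lib.MP_305fdd_al Pool.Agent.F8
open scoped QuadraticAlgebra

private theorem Kimg_lin (a b : ℤ) (f : Qf a b ℤ →+ ℤ) (x : Qf a b ℤ) :
    f x = f ⟨1, 0⟩ * x.re + f ⟨0, 1⟩ * x.im := by
  have h1 : x = x.re • (⟨1, 0⟩ : Qf a b ℤ) + x.im • (⟨0, 1⟩ : Qf a b ℤ) := by
    ext <;> simp
  conv_lhs => rw [h1]
  rw [map_add, map_zsmul, map_zsmul, smul_eq_mul, smul_eq_mul]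
  ring

theorem p_Kimg : K_img := by
  intro a b l hl
  obtain ⟨p, hp⟩ : ∃ p : Fin 2 → ℤ, ∀ j, p j = l j ⟨1, 0⟩ := ⟨_, fun _ => rfl⟩
  obtain ⟨q, hq⟩ : ∃ q : Fin 2 → ℤ, ∀ j, q j = l j ⟨0, 1⟩ := ⟨_, fun _ => rfl⟩
  have hlin : ∀ j x, l j x = p j * x.re + q j * x.im := by
    intro j x
    rw [hp, hq]
    exact Kimg_lin a b (l j) x
  obtain ⟨D, hD⟩ : ∃ D : ℤ, D = p 0 * q 1 - p 1 * q 0 := ⟨_, rfl⟩
  have hD0 : D ≠ 0 := by
    intro h0
    rw [hD] at h0
    have e1 : (⟨q 0, - p 0⟩ : Qf a b ℤ) = 0 := by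
      apply hl
      intro j
      rw [hlin]
      fin_cases j
      · simp only [Fin.zero_eta, Fin.isValue]
        ring
      · simp only [Fin.mk_one, Fin.isValue]
        linarith
    have e2 : (⟨q 1, - p 1⟩ : Qf a b ℤ) = 0 := by
      apply hl
      intro j
      rw [hlin]
      fin_cases j
      · simp only [Fin.zero_eta, Fin.isValue]
        linarith
      · simp only [Fin.mk_one, Fin.isValue]
        ring
    have a1 := congrArg (fun z : Qf a b ℤ => z.re) e1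
    have a2 := congrArg (fun z : Qf a b ℤ => z.im) e1
    have a3 := congrArg (fun z : Qf a b ℤ => z.re) e2
    have a4 := congrArg (fun z : Qf a b ℤ => z.im) e2
    simp only [QuadraticAlgebra.re_zero, QuadraticAlgebra.im_zero, neg_eq_zero] at a1 a2 a3 a4
    have e3 : (⟨1, 0⟩ : Qf a b ℤ) = 0 := by
      apply hl
      intro j
      rw [hlin]
      fin_cases j
      · simp [a1, a2]
      · simp [a3, a4]
    have a5 := congrArg (fun z : Qf a b ℤ => z.re) e3
    simp at a5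
  have hdv : ∀ z : ℤ, ((D.natAbs : ℕ) : ℤ) ∣ z ↔ D ∣ z := fun z => Int.natAbs_dvd
  -- Cramer
  have hcr : ∀ e : Fin 2 → ℤ, ∃ d : Qf a b ℤ, ∀ j, l j d = D * e j := by
    intro e
    refine ⟨⟨e 0 * q 1 - e 1 * q 0, p 0 * e 1 - p 1 * e 0⟩, fun j => ?_⟩
    rw [hlin, hD]
    fin_cases j
    · simp only [Fin.zero_eta, Fin.isValue]
      ring
    · simp only [Fin.mk_one, Fin.isValue]
      ring
  refine ⟨D.natAbs, Int.natAbs_ne_zero.2 hD0, ?_⟩
  intro A t ht
  have h1 : ∀ j, ∃ e : ℤ, l j t - A j = D * e := fun j => (hdv _).1 (ht j)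
  choose e he using h1
  obtain ⟨d, hd⟩ := hcr e
  refine ⟨t - d, fun j => ?_, ?_⟩
  · rw [map_sub, hd, ← he j]
    ring
  · intro m t' ht'
    have h2 : ∀ j, ∃ e' : ℤ, l j t' - A j = D * (m * e') := by
      intro j
      have h3 := ht' j
      push_cast at h3
      obtain ⟨c, hc⟩ := h3
      have h4 : D ∣ |D| := (dvd_abs D D).2 dvd_rfl
      obtain ⟨s, hs⟩ := h4
      refine ⟨s * c, ?_⟩
      rw [hc, hs]
      ring
    choose e' he' using h2
    obtain ⟨d', hd'⟩ := hcr e'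
    refine ⟨d', ?_⟩
    rw [← sub_eq_zero]
    apply hl
    intro j
    have h5 : (m : Qf a b ℤ) * d' = m • d' := by rw [nsmul_eq_mul]
    rw [h5, map_sub, map_sub, map_sub, map_nsmul, hd', hd]
    have h6 := he' j
    have h7 := he j
    have h8 : l j t' = A j + D * (m * e' j) := by linarith
    have h9 : l j t = A j + D * e j := by linarith
    rw [h8, h9, nsmul_eq_mul]
    ring

end Pool.Agent.F8.CG
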