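import Pool.Agent.Lib.MP_305fdd_al.F8.CG.AllB

/-!
# MP_305fdd_al, congruence subgroups: `Uni` for the five rings
-/

set_option autoImplicit false

namespace Pool.Agent.F8.CG

open Pool.Agent.F8.BG Pool.Agent.MP_305fdd_al Pool.Agent.Lib.MP_305fdd_al Pool.Agent.F8
open scoped QuadraticAlgebra

noncomputable section

/-- irreducibility is transported by isomorphisms -/
theorem irc_equiv {G G' K : Type} [Group G] [Group G'] [CommRing K] (θ : G ≃* G')
    (σ : G' →* SL2 K) (h : ∀ L : Subgroup G', L.FiniteIndex → IrC L σ) :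
    ∀ L : Subgroup G, L.FiniteIndex → IrC L (σ.comp θ.toMonoidHom) := by
  intro L hL
  have hr : θ.toMonoidHom.range = ⊤ := MonoidHom.range_eq_top.2 θ.surjective
  have hfi : θ.toMonoidHom.range.FiniteIndex := by
    rw [hr]
    infer_instance
  obtain ⟨g₁, hg₁, h₁, hh₁, hne⟩ := h (L.map θ.toMonoidHom) (con_map_index _ hfi L hL)
  rw [← Subgroup.map_commutator] at hg₁ hh₁
  obtain ⟨g, hg, rfl⟩ := hg₁
  obtain ⟨h', hh, rfl⟩ := hh₁
  refine ⟨g, hg, h', hh, ?_⟩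
  show tr (σ (θ.toMonoidHom (g * h' * g⁻¹ * h'⁻¹))) ≠ 2
  have h1 : θ.toMonoidHom (g * h' * g⁻¹ * h'⁻¹) = θ.toMonoidHom g * θ.toMonoidHom h' *
      (θ.toMonoidHom g)⁻¹ * (θ.toMonoidHom h')⁻¹ := by
    rw [map_mul, map_mul, map_mul, map_inv, map_inv]
  rw [h1]
  exact hne

/-- transport of `AuC` to the subgroups of finite index of `G₀` without `-1` -/
theorem uni_of {a b : ℤ} {ι : Type} [Finite ι] {α : MulAut (FreeGroup ι)} {N : ℕ}
    {w : ι → List ι} {M : ℕ} {c g : FreeGroup ι} {G₀ : Subgroup (GQ a b)} {η : G₀ →* GR α}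
    (H : BG.Dat α N w M c g G₀ η) (hA : AuC α) {M' : ℕ} (hM3 : 3 ≤ M') (hMM' : M ∣ M') :
    Uni a b M' := by
  intro E hE hEG σ hσ Λ _ _ Ψ
  have hlev : E ≤ G₀ := fun x hx => H.eta.lev x (con_red hMM' (MonoidHom.mem_ker.1 (hEG hx)))
  let f : E →* GR α := η.comp (Subgroup.inclusion hlev)
  have hf : Function.Injective f := by
    rw [injective_iff_map_eq_one]
    intro x hx
    rcases (H.eta.ker _).1 hx with h1 | h1
    · exact Subtype.ext h1
    · exact absurd h1 (con_neg hM3 (MonoidHom.mem_ker.1 (hEG x.2)))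
  have hfi : f.range.FiniteIndex := by
    have h1 : (E.subgroupOf G₀).FiniteIndex := inferInstance
    have h2 := con_map_index η H.eta.fin (E.subgroupOf G₀) h1
    refine Subgroup.finiteIndex_of_le (H := (E.subgroupOf G₀).map η) ?_
    rintro _ ⟨x, hx, rfl⟩
    exact ⟨⟨x.val, hx⟩, rfl⟩
  let θ : f.range ≃* E := (MonoidHom.ofInjective hf).symm
  obtain ⟨T, hT⟩ := hA f.range hfi a b H.neg (σ.comp θ.toMonoidHom)
    (irc_equiv θ σ (p_Yirc a b H.neg E hE σ hσ)) Λ (natBij_equiv θ Ψ)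
  refine ⟨T, fun S _ _ h l => ?_⟩
  rw [hT S h l]
  have e1 : ((SLm h).comp (σ.comp θ.toMonoidHom)).comp θ.symm.toMonoidHom = (SLm h).comp σ := by
    apply MonoidHom.ext
    intro x
    show SLm h (σ (θ (θ.symm x))) = SLm h (σ x)
    rw [θ.apply_symm_apply]
  show tr (Ψ.toFun _ (((SLm h).comp (σ.comp θ.toMonoidHom)).comp θ.symm.toMonoidHom) l) = _
  rw [e1]

/-- all the data of a ring -/
structure DatC (a b : ℤ) : Prop where
  five : Five a b
  hd : HasDat a b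
  hg : HasG a b
  ex : ∃ M : ℕ, M ≠ 0 ∧ ∀ M' : ℕ, 3 ≤ M' → M ∣ M' → Uni a b M'

theorem datC_of (hthFm : A_thFm) {a b : ℤ} (h5 : Five a b) (h : BG.HasDatP a b) : DatC a b := by
  obtain ⟨ι, _, α, N, w, M, c, g, G₀, η, hdat, hpn, M₁, hM₁, hsc⟩ := h
  have hA : AuC α := by
    rcases hpn with ⟨i₀, hp, h0⟩ | ⟨v, i₀, hp⟩
    · exact auC_pos hp h0
    · exact auC_neg hthFm hp
  exact ⟨h5, ⟨ι, inferInstance, α, N, w, M, c, g, G₀, η, hdat⟩,
    ⟨ι, inferInstance, α, N, w, M, c, g, G₀, η, hdat, M₁, hM₁, hsc⟩,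
    ⟨M, hdat.eta.ne, fun M' h1 h2 => uni_of hdat hA h1 h2⟩⟩

/-- the five rings -/
theorem datC (hthFm : A_thFm) : ∀ p ∈ BG.fives, DatC p.1 p.2 := by
  intro p hp
  refine datC_of hthFm ?_ (BG.fiveP p hp)
  simp only [BG.fives, List.mem_cons, List.not_mem_nil, or_false] at hp
  unfold Five
  rcases hp with rfl | rfl | rfl | rfl | rfl <;> simp

end

end Pool.Agent.F8.CG
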