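import Pool.Agent.Lib.MP_305fdd_al.F8.CG.StmK
import Pool.Agent.Lib.MP_305fdd_al.F8.CG.MainY

/-!
# MP_305fdd_al, congruence subgroups: piece K nu, two independent homomorphisms to `ℤ` (helper16)
-/

set_option autoImplicit false

namespace Pool.Agent.F8.CG

open Pool.Agent.F8.BG Pool.Agent.MP_305fdd_al Pool.Agent.Lib.MP_305fdd_al Pool.Agent.F8
open scoped QuadraticAlgebra

noncomputable section

/-! ### Commuting elements of a free group -/

private theorem Knu_gen {X : Type} {p q : X}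
    (h : FreeGroup.of p * FreeGroup.of q = FreeGroup.of q * FreeGroup.of p) : p = q := by
  classical
  by_contra hne
  let f : FreeGroup X →* Equiv.Perm (Fin 3) :=
    FreeGroup.lift fun x => if x = p then Equiv.swap 0 1 else Equiv.swap 1 2
  have hp : f (FreeGroup.of p) = Equiv.swap 0 1 := by
    show FreeGroup.lift _ (FreeGroup.of p) = _
    rw [FreeGroup.lift_apply_of, if_pos rfl]
  have hq : f (FreeGroup.of q) = Equiv.swap 1 2 := by
    show FreeGroup.lift _ (FreeGroup.of q) = _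
    rw [FreeGroup.lift_apply_of, if_neg fun h => hne h.symm]
  have h1 := congrArg f h
  rw [map_mul, map_mul, hp, hq] at h1
  exact absurd h1 (by decide)

/-- two commuting elements of a free group satisfy a relation -/
private theorem Knu_free {ι : Type} (X Y : FreeGroup ι) (h : X * Y = Y * X) :
    ∃ i j : ℤ, (i ≠ 0 ∨ j ≠ 0) ∧ X ^ i * Y ^ j = 1 := by
  by_cases hX1 : X = 1
  · exact ⟨1, 0, Or.inl one_ne_zero, by rw [hX1]; simp⟩
  have hk : ∀ x ∈ ({X, Y} : Set (FreeGroup ι)), ∀ y ∈ ({X, Y} : Set (FreeGroup ι)),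
      x * y = y * x := by
    intro x hx y hy
    rcases hx with rfl | rfl <;> rcases hy with rfl | rfl
    · rfl
    · exact h
    · exact h.symm
    · rfl
  have hcomm : ∀ x y : Subgroup.closure ({X, Y} : Set (FreeGroup ι)), x * y = y * x :=
    fun x y => (Subgroup.closureCommGroupOfComm hk).mul_comm x y
  have hfree : IsFreeGroup (Subgroup.closure ({X, Y} : Set (FreeGroup ι))) :=
    subgroupIsFreeOfIsFree _
  let e := IsFreeGroup.toFreeGroup (Subgroup.closure ({X, Y} : Set (FreeGroup ι)))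
  have hX : X ∈ Subgroup.closure ({X, Y} : Set (FreeGroup ι)) :=
    Subgroup.subset_closure (Or.inl rfl)
  have hY : Y ∈ Subgroup.closure ({X, Y} : Set (FreeGroup ι)) :=
    Subgroup.subset_closure (Or.inr rfl)
  have hsub : Subsingleton (IsFreeGroup.Generators
      (Subgroup.closure ({X, Y} : Set (FreeGroup ι)))) := by
    refine ⟨fun p q => Knu_gen ?_⟩
    have h1 := congrArg e (hcomm (e.symm (FreeGroup.of p)) (e.symm (FreeGroup.of q)))
    rw [map_mul, map_mul, MulEquiv.apply_symm_apply, MulEquiv.apply_symm_apply] at h1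
    exact h1
  rcases isEmpty_or_nonempty (IsFreeGroup.Generators
      (Subgroup.closure ({X, Y} : Set (FreeGroup ι)))) with hem | ⟨⟨p⟩⟩
  · exfalso
    apply hX1
    have h1 : e ⟨X, hX⟩ = 1 := Subsingleton.elim _ _
    have h2 : (⟨X, hX⟩ : Subgroup.closure ({X, Y} : Set (FreeGroup ι))) = 1 :=
      e.injective (by rw [h1, map_one])
    exact congrArg Subtype.val h2
  · have huniq : Unique (IsFreeGroup.Generators
        (Subgroup.closure ({X, Y} : Set (FreeGroup ι)))) := ⟨⟨p⟩, fun q => Subsingleton.elim _ _⟩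
    obtain ⟨z, hz⟩ := IsCyclic.exists_generator (α := FreeGroup (IsFreeGroup.Generators
      (Subgroup.closure ({X, Y} : Set (FreeGroup ι)))))
    obtain ⟨i, hi⟩ := Subgroup.mem_zpowers_iff.1 (hz (e ⟨X, hX⟩))
    obtain ⟨j, hj⟩ := Subgroup.mem_zpowers_iff.1 (hz (e ⟨Y, hY⟩))
    refine ⟨j, -i, ?_, ?_⟩
    · by_contra hc
      push Not at hc
      apply hX1
      have hi0 : i = 0 := by omega
      rw [hi0, zpow_zero] at hi
      have h2 : (⟨X, hX⟩ : Subgroup.closure ({X, Y} : Set (FreeGroup ι))) = 1 :=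
        e.injective (by rw [← hi, map_one])
      exact congrArg Subtype.val h2
    · have h1 : (⟨X, hX⟩ : Subgroup.closure ({X, Y} : Set (FreeGroup ι))) ^ j *
          (⟨Y, hY⟩ : Subgroup.closure ({X, Y} : Set (FreeGroup ι))) ^ (-i) = 1 := by
        apply e.injective
        rw [map_mul, map_zpow, map_zpow, map_one, ← hi, ← hj, ← zpow_mul, ← zpow_mul,
          ← zpow_add]
        have h2 : i * j + j * -i = 0 := by ring
        rw [h2, zpow_zero]
      have h2 := congrArg Subtype.val h1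
      exact h2

/-! ### Matrices -/

private theorem Knu_cr {R : Type} [CommRing R] [IsDomain R] {A B y : Matrix (Fin 2) (Fin 2) R}
    (hy : y.det ≠ 0) (h : A * y = B * y) : A = B := by
  have h1 : A * (y * y.adjugate) = B * (y * y.adjugate) := by
    rw [← Matrix.mul_assoc, ← Matrix.mul_assoc, h]
  rw [Matrix.mul_adjugate, Matrix.mul_smul, Matrix.mul_smul, Matrix.mul_one, Matrix.mul_one] at h1
  ext i j
  have h2 := congrFun (congrFun h1 i) j
  rw [Matrix.smul_apply, Matrix.smul_apply, smul_eq_mul, smul_eq_mul] at h2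
  exact mul_left_cancel₀ hy h2

private theorem Knu_cl {R : Type} [CommRing R] [IsDomain R] {A B y : Matrix (Fin 2) (Fin 2) R}
    (hy : y.det ≠ 0) (h : y * A = y * B) : A = B := by
  have h1 : (y.adjugate * y) * A = (y.adjugate * y) * B := by
    rw [Matrix.mul_assoc, Matrix.mul_assoc, h]
  rw [Matrix.adjugate_mul, Matrix.smul_mul, Matrix.smul_mul, Matrix.one_mul, Matrix.one_mul] at h1
  ext i j
  have h2 := congrFun (congrFun h1 i) j
  rw [Matrix.smul_apply, Matrix.smul_apply, smul_eq_mul, smul_eq_mul] at h2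
  exact mul_left_cancel₀ hy h2

variable {a b : ℤ}

private theorem Knu_gam (m : ℕ) (hm : m ≠ 0) : (Gam a b m).FiniteIndex := by
  have : NeZero m := ⟨hm⟩
  have : Finite (Qf a b (ZMod m)) :=
    Finite.of_equiv (ZMod m × ZMod m) (QuadraticAlgebra.equivProd (a : ZMod m) (b : ZMod m)).symm
  have : Finite (SL2 (Qf a b (ZMod m))) := inferInstance
  exact Subgroup.finiteIndex_ker _

/-- an element of `Γ(m)` is `1 + m Z` -/
private theorem Knu_ent {m : ℕ} {g : GQ a b} (h : rdq a b m g = 1) :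
    ∃ Z : Matrix (Fin 2) (Fin 2) (Qf a b ℤ), g.val = 1 + (m : Qf a b ℤ) • Z := by
  have h3 : ∀ i j, ∃ z : Qf a b ℤ, g.val i j = (1 : Matrix (Fin 2) (Fin 2) (Qf a b ℤ)) i j +
      (m : Qf a b ℤ) * z := by
    intro i j
    have h1 : rdq a b m g = rdq a b m 1 := by rw [h, map_one]
    have h2 : Qfm a b (Int.castRingHom (ZMod m)) (g.val i j) =
        Qfm a b (Int.castRingHom (ZMod m)) ((1 : GQ a b).val i j) :=
      congrArg (fun x : SL2 (Qf a b (ZMod m)) => x.val i j) h1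
    have h4 : Qfm a b (Int.castRingHom (ZMod m)) (g.val i j - (1 : GQ a b).val i j) = 0 := by
      rw [map_sub, h2, sub_self]
    obtain ⟨z, hz⟩ := E_ker a b m _ h4
    refine ⟨z, ?_⟩
    rw [← hz]
    show g.val i j = (1 : GQ a b).val i j + (g.val i j - (1 : GQ a b).val i j)
    ring
  choose Z hZ using h3
  refine ⟨Matrix.of Z, ?_⟩
  ext1 i j
  rw [Matrix.add_apply, Matrix.smul_apply, smul_eq_mul, Matrix.of_apply]
  exact hZ i j

private theorem Knu_tne {m : ℕ} {g : GQ a b} (Z : Matrix (Fin 2) (Fin 2) (Qf a b ℤ))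
    (h : g.val = 1 + (m : Qf a b ℤ) • Z) : rdq a b m g = 1 := by
  have hm : Qfm a b (Int.castRingHom (ZMod m)) (m : Qf a b ℤ) = 0 := by
    rw [map_natCast]
    have h1 : ((m : ℕ) : Qf a b (ZMod m)) = ⟨((m : ℕ) : ZMod m), 0⟩ := by
      apply QuadraticAlgebra.ext
      · rw [QuadraticAlgebra.re_natCast]
      · rw [QuadraticAlgebra.im_natCast]
    rw [h1, ZMod.natCast_self]
    rfl
  have key : ∀ i j, Qfm a b (Int.castRingHom (ZMod m)) (g.val i j) =
      Qfm a b (Int.castRingHom (ZMod m)) ((1 : GQ a b).val i j) := by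
    intro i j
    have h1 : g.val i j = (1 : GQ a b).val i j + (m : Qf a b ℤ) * Z i j := by
      rw [h]
      rfl
    rw [h1, map_add, map_mul, hm, zero_mul, add_zero]
  have h1 : rdq a b m g = rdq a b m 1 := G.SL_ext (key 0 0) (key 0 1) (key 1 0) (key 1 1)
  rw [h1, map_one]

/-- `y x' y⁻¹` for `x' ∈ Γ(m k)` -/
private theorem Knu_up (hn : b ^ 2 + 4 * a < 0) (m k : ℕ)
    (y : Matrix (Fin 2) (Fin 2) (Qf a b ℤ)) (hy : y.det ≠ 0) (w : Qf a b ℤ)
    (hw : (k : Qf a b ℤ) = y.det * w) (x' : GQ a b) (hx' : rdq a b (m * k) x' = 1) :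
    ∃ x : GQ a b, rdq a b m x = 1 ∧ x.val * y = y * x'.val := by
  have hdom : IsDomain (Qf a b ℤ) := Qf_domain hn
  obtain ⟨Z, hZ⟩ := Knu_ent hx'
  set X : Matrix (Fin 2) (Fin 2) (Qf a b ℤ) :=
    1 + (m : Qf a b ℤ) • (w • (y * Z * y.adjugate)) with hX
  have h1 : X * y = y * x'.val := by
    rw [hX, hZ, Matrix.add_mul, Matrix.mul_add, Matrix.one_mul, Matrix.mul_one, Matrix.smul_mul,
      Matrix.smul_mul, Matrix.mul_assoc (y * Z), Matrix.adjugate_mul, Matrix.mul_smul,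
      Matrix.mul_one, Matrix.mul_smul, smul_smul, smul_smul, Nat.cast_mul, hw]
    congr 2
    ring
  have h2 : X.det = 1 := by
    have h3 := congrArg Matrix.det h1
    rw [Matrix.det_mul, Matrix.det_mul, x'.2, mul_one] at h3
    have h4 : X.det * y.det = 1 * y.det := by rw [h3, one_mul]
    exact mul_right_cancel₀ hy h4
  exact ⟨⟨X, h2⟩, Knu_tne _ hX, h1⟩

/-- `y⁻¹ x y` for `x ∈ Γ(m k)` -/
private theorem Knu_dn (hn : b ^ 2 + 4 * a < 0) (m k : ℕ)
    (y : Matrix (Fin 2) (Fin 2) (Qf a b ℤ)) (hy : y.det ≠ 0) (w : Qf a b ℤ)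
    (hw : (k : Qf a b ℤ) = y.det * w) (x : GQ a b) (hx : rdq a b (m * k) x = 1) :
    ∃ x' : GQ a b, rdq a b m x' = 1 ∧ x.val * y = y * x'.val := by
  have hdom : IsDomain (Qf a b ℤ) := Qf_domain hn
  have hadj : y.adjugate.det = y.det := by
    rw [Matrix.det_adjugate]
    simp
  obtain ⟨x', h1, h2⟩ := Knu_up hn m k y.adjugate (by rw [hadj]; exact hy) w
    (by rw [hadj]; exact hw) x hx
  refine ⟨x', h1, ?_⟩
  have h3 : y * (x'.val * y.adjugate) * y = y * (y.adjugate * x.val) * y := by rw [h2]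
  rw [← Matrix.mul_assoc, Matrix.mul_assoc (y * x'.val), Matrix.adjugate_mul, Matrix.mul_smul,
    Matrix.mul_one, ← Matrix.mul_assoc y y.adjugate, Matrix.mul_adjugate, Matrix.smul_mul,
    Matrix.one_mul, Matrix.smul_mul] at h3
  ext1 i j
  have h4 := congrFun (congrFun h3 i) j
  rw [Matrix.smul_apply, Matrix.smul_apply, smul_eq_mul, smul_eq_mul] at h4
  exact (mul_left_cancel₀ hy h4).symm

private theorem Knu_mul {y : Matrix (Fin 2) (Fin 2) (Qf a b ℤ)} {x₁ x₂ x₁' x₂' : GQ a b}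
    (h₁ : x₁.val * y = y * x₁'.val) (h₂ : x₂.val * y = y * x₂'.val) :
    (x₁ * x₂).val * y = y * (x₁' * x₂').val := by
  show x₁.val * x₂.val * y = y * (x₁'.val * x₂'.val)
  rw [Matrix.mul_assoc, h₂, ← Matrix.mul_assoc, h₁, Matrix.mul_assoc]

/-- the matrix `diag(w, 1)` -/
private def Knu_T (a b : ℤ) : Matrix (Fin 2) (Fin 2) (Qf a b ℤ) := !![wq a b ℤ, 0; 0, 1]

private theorem Knu_Tdet : (Knu_T a b).det = wq a b ℤ := by
  unfold Knu_T
  rw [Matrix.det_fin_two_of]
  ring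

private theorem Knu_w0 : wq a b ℤ ≠ 0 := fun h => by
  have h1 := congrArg QuadraticAlgebra.im h
  exact one_ne_zero h1

private theorem Knu_neg (hn : b ^ 2 + 4 * a < 0) : a < 0 := by nlinarith [sq_nonneg b]

private theorem Knu_cj (hn : b ^ 2 + 4 * a < 0) :
    ((a.natAbs : ℕ) : Qf a b ℤ) = wq a b ℤ * cjq a b ℤ (wq a b ℤ) := by
  rw [mul_cjq]
  have h1 : ((a.natAbs : ℕ) : ℤ) = -a := by
    have := Knu_neg hn
    omega
  have h2 : nq (wq a b ℤ) = -a := by
    unfold nq wq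
    simp
  rw [h2, ← h1]
  apply QuadraticAlgebra.ext
  · rw [QuadraticAlgebra.re_natCast]
  · rw [QuadraticAlgebra.im_natCast]

private theorem Knu_eU_mem (m : ℕ) (z : Qf a b ℤ) :
    rdq a b m (eU ((m : Qf a b ℤ) * z)) = 1 := by
  refine Knu_tne !![0, z; 0, 0] ?_
  ext1 i j
  fin_cases i <;> fin_cases j <;> simp [eU, AB.mx]

private theorem Knu_eU_mul (x y : Qf a b ℤ) : (eU (x + y) : GQ a b) = eU x * eU y := by
  unfold eU
  rw [AB.mx_mul]
  apply AB.mx_congr <;> ring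

private theorem Knu_pow {t : Multiplicative ℤ} {k : ℤ} (hk : k ≠ 0) (h : t ^ k = 1) : t = 1 := by
  have h1 : k * Multiplicative.toAdd t = 0 := by
    have h2 := congrArg Multiplicative.toAdd h
    rw [toAdd_zpow, toAdd_one, smul_eq_mul] at h2
    exact h2
  rcases mul_eq_zero.1 h1 with h2 | h2
  · exact absurd h2 hk
  · exact Multiplicative.toAdd.injective h2

/-! ### The second claim -/

private theorem Knu_sec {ι : Type} {α : MulAut (FreeGroup ι)} (hR : RgC α) {m : ℕ}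
    (f : Gam a b m →* GR α) (hf : Function.Injective f) (hfi : f.range.FiniteIndex) (g : GQ a b)
    (G₂ : Type) [Group G₂] [Group.FG G₂] (Ψ : NatBij (Gam a b m) G₂) :
    ∃ ν' : G₂ →* Multiplicative ℤ, ∀ (n : ℕ) [NeZero n],
      Ψ.toFun _ ((redZ n).comp (((nR α).comp f).comp (cjM m g))) = (redZ n).comp ν' := by
  have h1 : ∀ x, cjM m g⁻¹ (cjM m g x) = x := fun x => Subtype.ext (by
    show g⁻¹⁻¹ * (g⁻¹ * x.val * g) * g⁻¹ = x.val
    group)
  have h2 : ∀ x, cjM m g (cjM m g⁻¹ x) = x := fun x => Subtype.ext (by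
    show g⁻¹ * (g⁻¹⁻¹ * x.val * g⁻¹) * g = x.val
    group)
  have hf' : Function.Injective (f.comp (cjM m g)) := hf.comp fun x y h => by
    rw [← h1 x, h, h1]
  have hr : (f.comp (cjM m g)).range.FiniteIndex := by
    refine Subgroup.finiteIndex_of_le (H := f.range) ?_
    rintro _ ⟨x, rfl⟩
    exact ⟨cjM m g⁻¹ x, congrArg f (h2 x)⟩
  let θ : (f.comp (cjM m g)).range ≃* Gam a b m := (MonoidHom.ofInjective hf').symm
  obtain ⟨ν', hν'⟩ := hR (f.comp (cjM m g)).range hr G₂ (natBij_equiv θ Ψ)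
  exact ⟨ν', fun n _ => hν' n⟩

/-- PIECE CG K nu -/
theorem p_Knu : K_nu := by
  intro a b ι _ α N w M c g G₀ η H hR M₀ M₁ hM3 hM hM₁ hdvd
  have hn := H.neg
  have hdom : IsDomain (Qf a b ℤ) := Qf_domain hn
  obtain ⟨c', rfl⟩ := hdvd
  rw [mul_assoc] at hM₁ ⊢
  obtain ⟨k, hk⟩ : ∃ k : ℕ, k = a.natAbs * c' := ⟨_, rfl⟩
  rw [← hk] at hM₁ ⊢
  have hk0 : k ≠ 0 := right_ne_zero_of_mul hM₁
  have hM0 : M₀ ≠ 0 := by omega
  have hM0' : ((M₀ : ℕ) : Qf a b ℤ) ≠ 0 := Nat.cast_ne_zero.2 hM0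
  have hk0' : ((k : ℕ) : Qf a b ℤ) ≠ 0 := Nat.cast_ne_zero.2 hk0
  have hTd : (Knu_T a b).det ≠ 0 := by
    rw [Knu_Tdet]
    exact Knu_w0
  have hkw : ((k : ℕ) : Qf a b ℤ) = (Knu_T a b).det * (cjq a b ℤ (wq a b ℤ) * (c' : Qf a b ℤ)) := by
    rw [Knu_Tdet, hk, Nat.cast_mul, Knu_cj hn, mul_assoc]
  have hrd : ∀ {x : GQ a b}, rdq a b (M₀ * k) x = 1 → rdq a b M₀ x = 1 :=
    fun h => con_red (Dvd.intro _ rfl) h
  have hlev : Gam a b (M₀ * k) ≤ G₀ := fun x hx =>
    H.eta.lev x (con_red hM (hrd (MonoidHom.mem_ker.1 hx)))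
  -- the homomorphism `τ`
  have hex : ∀ x : Gam a b (M₀ * k), ∃ x' : GQ a b, rdq a b M₀ x' = 1 ∧
      x.val.val * Knu_T a b = Knu_T a b * x'.val := fun x =>
    Knu_dn hn M₀ k (Knu_T a b) hTd _ hkw x.val (MonoidHom.mem_ker.1 x.2)
  choose s hs1 hs2 using hex
  have huniq : ∀ (x x₁' x₂' : GQ a b), x.val * Knu_T a b = Knu_T a b * x₁'.val →
      x.val * Knu_T a b = Knu_T a b * x₂'.val → x₁' = x₂' := fun x x₁' x₂' h₁ h₂ =>
    Subtype.ext (Knu_cl hTd (h₁.symm.trans h₂))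
  let τ : Gam a b (M₀ * k) →* GQ a b := MonoidHom.mk' s fun x₁ x₂ =>
    huniq _ _ _ (hs2 (x₁ * x₂)) (Knu_mul (hs2 x₁) (hs2 x₂))
  have hτ1 : ∀ x, rdq a b M₀ (τ x) = 1 := hs1
  have hτ2 : ∀ x : Gam a b (M₀ * k), x.val.val * Knu_T a b = Knu_T a b * (τ x).val := hs2
  let τG : Gam a b (M₀ * k) →* G₀ := τ.codRestrict G₀ fun x =>
    H.eta.lev _ (con_red hM (hτ1 x))
  have hτG : ∀ x, (τG x).val = τ x := fun x => rfl
  -- the two homomorphisms to `GR α`
  let f₁ : Gam a b (M₀ * k) →* GR α := η.comp (Subgroup.inclusion hlev)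
  let f₂ : Gam a b (M₀ * k) →* GR α := η.comp τG
  have hf₁ : Function.Injective f₁ := by
    rw [injective_iff_map_eq_one]
    intro x hx
    rcases (H.eta.ker _).1 hx with h1 | h1
    · exact Subtype.ext h1
    · exact absurd h1 (con_neg hM3 (hrd (MonoidHom.mem_ker.1 x.2)))
  have hf₂ : Function.Injective f₂ := by
    rw [injective_iff_map_eq_one]
    intro x hx
    rcases (H.eta.ker _).1 hx with h1 | h1
    · rw [hτG] at h1
      have h2 := hτ2 x
      rw [h1] at h2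
      apply Subtype.ext
      apply Subtype.ext
      refine Knu_cr hTd ?_
      rw [h2]
      show Knu_T a b * (1 : Matrix (Fin 2) (Fin 2) (Qf a b ℤ)) =
        (1 : Matrix (Fin 2) (Fin 2) (Qf a b ℤ)) * Knu_T a b
      rw [Matrix.mul_one, Matrix.one_mul]
    · rw [hτG] at h1
      exact absurd h1 (con_neg hM3 (hτ1 x))
  have hfi₁ : f₁.range.FiniteIndex := by
    have h0 : (Gam a b (M₀ * k)).FiniteIndex := Knu_gam _ hM₁
    have h1 : ((Gam a b (M₀ * k)).subgroupOf G₀).FiniteIndex := inferInstance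
    have h2 := con_map_index η H.eta.fin ((Gam a b (M₀ * k)).subgroupOf G₀) h1
    refine Subgroup.finiteIndex_of_le (H := ((Gam a b (M₀ * k)).subgroupOf G₀).map η) ?_
    rintro _ ⟨x, hx, rfl⟩
    exact ⟨⟨x.val, hx⟩, rfl⟩
  have hfi₂ : f₂.range.FiniteIndex := by
    have h0 : (Gam a b (M₀ * k * k)).FiniteIndex := Knu_gam _ (Nat.mul_ne_zero hM₁ hk0)
    have h1 : ((Gam a b (M₀ * k * k)).subgroupOf G₀).FiniteIndex := inferInstance
    have h2 := con_map_index η H.eta.fin ((Gam a b (M₀ * k * k)).subgroupOf G₀) h1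
    refine Subgroup.finiteIndex_of_le (H := ((Gam a b (M₀ * k * k)).subgroupOf G₀).map η) ?_
    rintro _ ⟨y, hy, rfl⟩
    obtain ⟨x, hx1, hx2⟩ := Knu_up hn (M₀ * k) k (Knu_T a b) hTd _ hkw y.val
      (MonoidHom.mem_ker.1 hy)
    refine ⟨⟨x, hx1⟩, ?_⟩
    show η (τG ⟨x, hx1⟩) = η y
    congr 1
    apply Subtype.ext
    rw [hτG]
    exact huniq x _ _ (hτ2 ⟨x, hx1⟩) hx2
  -- unipotent elements
  let u : Multiplicative (Qf a b ℤ) →* G₀ := MonoidHom.mk'
    (fun z => ⟨eU ((M₀ : Qf a b ℤ) * Multiplicative.toAdd z),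
      H.eta.lev _ (con_red hM (Knu_eU_mem M₀ _))⟩) (fun x y => Subtype.ext (by
      show (eU ((M₀ : Qf a b ℤ) * Multiplicative.toAdd (x * y)) : GQ a b) =
        eU ((M₀ : Qf a b ℤ) * Multiplicative.toAdd x) *
          eU ((M₀ : Qf a b ℤ) * Multiplicative.toAdd y)
      rw [toAdd_mul, mul_add, Knu_eU_mul]))
  have hu : ∀ z, (u z).val = eU ((M₀ : Qf a b ℤ) * Multiplicative.toAdd z) := fun z => rfl
  let F : Multiplicative (Qf a b ℤ) →* GR α := η.comp u
  have hF : ∀ z, F z = 1 → z = 1 := by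
    intro z hz
    rcases (H.eta.ker _).1 hz with h1 | h1
    · rw [hu] at h1
      have h2 : (M₀ : Qf a b ℤ) * Multiplicative.toAdd z = 0 :=
        congrArg (fun x : GQ a b => x.val 0 1) h1
      rcases mul_eq_zero.1 h2 with h3 | h3
      · exact absurd h3 hM0'
      · exact Multiplicative.toAdd.injective h3
    · rw [hu] at h1
      exact absurd h1 (con_neg hM3 (Knu_eU_mem M₀ _))
  let L : Multiplicative (Qf a b ℤ) →* Multiplicative ℤ := (nR α).comp F
  have hL1 : ¬ ∀ z, L z = 1 := by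
    intro hall
    obtain ⟨X, hX⟩ := GR_ker α (F (Multiplicative.ofAdd 1)) (hall _)
    obtain ⟨Y, hY⟩ := GR_ker α (F (Multiplicative.ofAdd (wq a b ℤ))) (hall _)
    have hXY : X * Y = Y * X := by
      have h0 := congrArg F (mul_comm (Multiplicative.ofAdd (1 : Qf a b ℤ))
        (Multiplicative.ofAdd (wq a b ℤ)))
      rw [map_mul, map_mul, hX, hY] at h0
      apply iR_injective α
      rw [map_mul, map_mul]
      exact h0
    obtain ⟨i, j, hij, h1⟩ := Knu_free X Y hXY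
    have h2 : F (Multiplicative.ofAdd 1 ^ i * Multiplicative.ofAdd (wq a b ℤ) ^ j) = 1 := by
      rw [map_mul, map_zpow, map_zpow, hX, hY, ← map_zpow, ← map_zpow, ← map_mul, h1, map_one]
    have h3 := congrArg Multiplicative.toAdd (hF _ h2)
    rw [toAdd_mul, toAdd_zpow, toAdd_zpow, toAdd_ofAdd, toAdd_ofAdd, toAdd_one] at h3
    have h4 := congrArg QuadraticAlgebra.re h3
    have h5 := congrArg QuadraticAlgebra.im h3
    simp [wq] at h4 h5
    rcases hij with h6 | h6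
    · exact h6 h4
    · exact h6 h5
  have hL2 : ∀ z : Qf a b ℤ, L (Multiplicative.ofAdd z) = 1 →
      L (Multiplicative.ofAdd (wq a b ℤ * z)) = 1 → z = 0 := by
    intro z h1 h2
    by_contra hz
    apply hL1
    intro x
    have hkz : nq z ≠ 0 := fun h => hz (nq_eq_zero hn h)
    refine Knu_pow hkz ?_
    have h3 : nq z • Multiplicative.toAdd x =
        (Multiplicative.toAdd x * cjq a b ℤ z).re • z +
          (Multiplicative.toAdd x * cjq a b ℤ z).im • (wq a b ℤ * z) := by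
      have h4 : (⟨nq z, 0⟩ : Qf a b ℤ) * Multiplicative.toAdd x =
          (Multiplicative.toAdd x * cjq a b ℤ z) * z := by
        rw [← mul_cjq]
        ring
      have h5 : (⟨nq z, 0⟩ : Qf a b ℤ) * Multiplicative.toAdd x =
          nq z • Multiplicative.toAdd x := by
        apply QuadraticAlgebra.ext <;> simp
      have h6 : ∀ v : Qf a b ℤ, v * z = v.re • z + v.im • (wq a b ℤ * z) := by
        intro v
        apply QuadraticAlgebra.ext
        · simp [wq]
          ring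
        · simp [wq]
          ring
      rw [← h5, h4, h6]
    have h7 : L (Multiplicative.ofAdd (nq z • Multiplicative.toAdd x)) = 1 := by
      rw [h3, ofAdd_add, map_mul, ofAdd_zsmul, ofAdd_zsmul, map_zpow, map_zpow, h1, h2, one_zpow,
        one_zpow, mul_one]
    rw [ofAdd_zsmul, ofAdd_toAdd, map_zpow] at h7
    exact h7
  refine ⟨![(nR α).comp f₁, (nR α).comp f₂], ?_, ?_⟩
  · intro x h hν
    have hν1 : L (Multiplicative.ofAdd ((k : Qf a b ℤ) * x)) = 1 := by
      rw [← hν 0]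
      show nR α (η (u _)) = nR α (η (Subgroup.inclusion hlev _))
      congr 2
      apply Subtype.ext
      rw [hu]
      show (eU ((M₀ : Qf a b ℤ) * Multiplicative.toAdd (Multiplicative.ofAdd
        ((k : Qf a b ℤ) * x))) : GQ a b) = eU (((M₀ * k : ℕ) : Qf a b ℤ) * x)
      rw [toAdd_ofAdd, Nat.cast_mul, mul_assoc]
    have hkx : wq a b ℤ * (cjq a b ℤ (wq a b ℤ) * (c' : Qf a b ℤ) * x) = (k : Qf a b ℤ) * x := by
      rw [hkw, Knu_Tdet]
      ring
    have hν2 : L (Multiplicative.ofAdd (cjq a b ℤ (wq a b ℤ) * (c' : Qf a b ℤ) * x)) = 1 := by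
      rw [← hν 1]
      show nR α (η (u _)) = nR α (η (τG _))
      congr 2
      apply Subtype.ext
      rw [hu, hτG, toAdd_ofAdd]
      refine huniq (eU (((M₀ * k : ℕ) : Qf a b ℤ) * x)) _ _ ?_ (hτ2 ⟨_, h⟩)
      have h1 : (((M₀ * k : ℕ) : Qf a b ℤ) * x) = wq a b ℤ *
          ((M₀ : Qf a b ℤ) * (cjq a b ℤ (wq a b ℤ) * (c' : Qf a b ℤ) * x)) := by
        rw [Nat.cast_mul, mul_assoc, ← hkx]
        ring
      rw [h1]
      ext1 i j
      fin_cases i <;> fin_cases j <;>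
        simp [eU, AB.mx, Knu_T, Matrix.mul_apply, Fin.sum_univ_two]
    have h1 := hL2 _ hν2 (by rw [hkx]; exact hν1)
    rw [h1, mul_zero] at hkx
    rcases mul_eq_zero.1 hkx.symm with h2 | h2
    · exact absurd h2 hk0'
    · exact h2
  · intro j g' G₂ _ _ Ψ
    fin_cases j
    · exact Knu_sec hR f₁ hf₁ hfi₁ g' G₂ Ψ
    · exact Knu_sec hR f₂ hf₂ hfi₂ g' G₂ Ψ

end

end Pool.Agent.F8.CG
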