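import Pool.Agent.Lib.MP_305fdd_al.F8.CG.MainJ4
import Pool.Agent.Lib.MP_305fdd_al.F8.CG.MainLD
import Pool.Agent.Lib.MP_305fdd_al.F8.CG.MainCC
import Pool.Agent.Lib.MP_305fdd_al.F8.CG.Five36
import Pool.Agent.Lib.MP_305fdd_al.F8.CG.P_Jact
import Pool.Agent.Lib.MP_305fdd_al.F8.CG.P_Jcj
import Pool.Agent.Lib.MP_305fdd_al.F8.CG.P_Jcmp
import Pool.Agent.Lib.MP_305fdd_al.F8.CG.P_Jcore
import Pool.Agent.Lib.MP_305fdd_al.F8.CG.P_Jdat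
import Pool.Agent.Lib.MP_305fdd_al.F8.CG.P_Jfin
import Pool.Agent.Lib.MP_305fdd_al.F8.CG.P_Jgdt
import Pool.Agent.Lib.MP_305fdd_al.F8.CG.P_Jgtr
import Pool.Agent.Lib.MP_305fdd_al.F8.CG.P_Jh
import Pool.Agent.Lib.MP_305fdd_al.F8.CG.P_Jker
import Pool.Agent.Lib.MP_305fdd_al.F8.CG.P_Jmul
import Pool.Agent.Lib.MP_305fdd_al.F8.CG.P_Jnsq
import Pool.Agent.Lib.MP_305fdd_al.F8.CG.P_Jnz
import Pool.Agent.Lib.MP_305fdd_al.F8.CG.P_Jpar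
import Pool.Agent.Lib.MP_305fdd_al.F8.CG.P_Jpi
import Pool.Agent.Lib.MP_305fdd_al.F8.CG.P_Jrep
import Pool.Agent.Lib.MP_305fdd_al.F8.CG.P_Jsc
import Pool.Agent.Lib.MP_305fdd_al.F8.CG.P_Jsqr
import Pool.Agent.Lib.MP_305fdd_al.F8.CG.P_Jun
import Pool.Agent.Lib.MP_305fdd_al.F8.CG.P_Juq
import Pool.Agent.Lib.MP_305fdd_al.F8.CG.P_Jx0
import Pool.Agent.Lib.MP_305fdd_al.F8.CG.P_Kalg
import Pool.Agent.Lib.MP_305fdd_al.F8.CG.P_Kapp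
import Pool.Agent.Lib.MP_305fdd_al.F8.CG.P_Kdet
import Pool.Agent.Lib.MP_305fdd_al.F8.CG.P_Kimg
import Pool.Agent.Lib.MP_305fdd_al.F8.CG.P_Knu

/-!
# MP_305fdd_al, congruence subgroups: assembly of block J, part 5

All the statements together: the theorems for the five fields.
-/

set_option autoImplicit false

namespace Pool.Agent.F8.CG

open Pool.Agent.F8.BG Pool.Agent.MP_305fdd_al Pool.Agent.Lib.MP_305fdd_al Pool.Agent.F8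
open scoped QuadraticAlgebra

theorem m_Jact : J_act := p_Jact p_Jcj p_Jpi

theorem m_Jcmp : J_cmp := p_Jcmp p_Jx0 p_Jcj p_Jpi

theorem m_Juq : J_uq := p_Juq p_Jpi

theorem m_blkJ : BlkJ where
  rep := p_Jrep
  nsq := p_Jnsq p_Jun
  core := p_Jcore
  dat := p_Jdat
  pi := p_Jpi
  mul := p_Jmul
  uq := m_Juq
  act := m_Jact
  cmp := m_Jcmp
  sc := p_Jsc
  ker := p_Jker m_Jcmp m_Juq p_Jmul p_Jsc
  par := p_Jpar
  gtr := p_Jgtr (p_Jgdt p_Jcore) m_Jcmp m_Jact m_Juq p_Jmul p_Jsc p_Jnz p_Jpi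
  sqr := p_Jsqr m_Jcmp m_Jact p_Jmul p_Jsc

theorem m_blkA (htr2 : J_tr2) : BlkA := ⟨m_blkJ, p_Jun, p_Jfin, htr2⟩

theorem m_blkK : BlkK := ⟨p_Kdet p_Knu p_Kimg p_Kalg, p_Kapp, m_FP⟩

/-- the data of a quadratic field with a square root of `-1`, `-2`, `-3`, `-7` or `-11` -/
theorem ex_allJ (K : Type) [Field K] [NumberField K]
    (hK : Module.finrank ℚ K = 2) (w : K)
    (hw : w ^ 2 = -1 ∨ w ^ 2 = -2 ∨ w ^ 2 = -3 ∨ w ^ 2 = -7 ∨ w ^ 2 = -11) :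
    ∃ (a b : ℤ) (_ : DatJ a b), Nonempty (Qf a b ℤ ≃+* NumberField.RingOfIntegers K) := by
  obtain ⟨p, hp, h⟩ := ex_ring K hK w hw
  have H := datC z_thFm p hp
  exact ⟨p.1, p.2, ⟨H, fun m₀ m₁ h3 h1 => rhoH_of blk m_blkK p_Jh p_Jun H
    (hasR m_Uld p hp) m₀ m₁ h3 h1, uni36 p hp⟩, h⟩

end Pool.Agent.F8.CG
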