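import Pool.Agent.Lib.MP_305fdd_al.F8.CG.StmJ3

set_option autoImplicit false

namespace Pool.Agent.F8.CG

open Pool.Agent.F8.BG Pool.Agent.MP_305fdd_al Pool.Agent.Lib.MP_305fdd_al Pool.Agent.F8
open scoped QuadraticAlgebra

private theorem Jtr2_basis {O : Type} [CommRing O] [IsDomain O] [IsPrincipalIdealRing O]
    (N : Submodule O (Fin 2 → O)) {c : O} (hc : c ≠ 0) (hN : ∀ u : Fin 2 → O, c • u ∈ N) :
    Nonempty (Module.Basis (Fin 2) O N) := by
  have h1 : Module.Finite O N := inferInstance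
  have h2 : Module.Free O N := inferInstance
  have h3 : Module.finrank O N ≤ 2 := by
    have := Submodule.finrank_le N
    simpa using this
  let f : (Fin 2 → O) →ₗ[O] N :=
    { toFun := fun u => ⟨c • u, hN u⟩
      map_add' := fun u v => by
        apply Subtype.ext
        show c • (u + v) = c • u + c • v
        rw [smul_add]
      map_smul' := fun r u => by
        apply Subtype.ext
        show c • (r • u) = r • (c • u)
        rw [smul_comm] }
  have h4 : Function.Injective f := by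
    intro u v h
    have h5 : c • u = c • v := congrArg Subtype.val h
    exact smul_right_injective _ hc h5
  have h6 : 2 ≤ Module.finrank O N := by
    have := LinearMap.finrank_le_finrank_of_injective h4
    simpa using this
  exact ⟨Module.finBasisOfFinrankEq O N (le_antisymm h3 h6)⟩

private theorem Jtr2_main {O : Type} [CommRing O] [IsDomain O] [IsPrincipalIdealRing O]
    (x : Matrix (Fin 2) (Fin 2) O) (hx : x.det = 1) {c : O} (hc : c ≠ 0)
    (h : c ^ 2 ∣ x.trace - 2) :
    ∃ y Z : Matrix (Fin 2) (Fin 2) O, y.det ≠ 0 ∧ x * y = y * (1 + c • Z) := by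
  obtain ⟨s, hs⟩ := h
  have hA : (x - 1) * (x - 1) = (c ^ 2 * s) • x := by
    rw [← hs]
    rw [Matrix.det_fin_two] at hx
    rw [Matrix.trace_fin_two]
    ext i j
    fin_cases i <;> fin_cases j
    · simp [Matrix.mul_apply, Fin.sum_univ_two]
      linear_combination (-hx)
    · simp [Matrix.mul_apply, Fin.sum_univ_two]
      ring
    · simp [Matrix.mul_apply, Fin.sum_univ_two]
      ring
    · simp [Matrix.mul_apply, Fin.sum_univ_two]
      linear_combination (-hx)
  let m : (Fin 2 → O) × (Fin 2 → O) →ₗ[O] (Fin 2 → O) :=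
    LinearMap.coprod (c • LinearMap.id) (Matrix.mulVecLin (x - 1))
  let N : Submodule O (Fin 2 → O) := LinearMap.range m
  have hN : ∀ u : Fin 2 → O, c • u ∈ N := by
    intro u
    refine ⟨(u, 0), ?_⟩
    simp [m]
  have hAN : ∀ v ∈ N, ∃ w ∈ N, (x - 1).mulVec v = c • w := by
    rintro v ⟨⟨p, q⟩, rfl⟩
    refine ⟨(x - 1).mulVec p + c • (s • x.mulVec q), ?_, ?_⟩
    · refine ⟨(s • x.mulVec q, p), ?_⟩
      simp only [m, LinearMap.coprod_apply, LinearMap.smul_apply, LinearMap.id_apply,
        Matrix.mulVecLin_apply]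
      rw [add_comm]
    · simp only [m, LinearMap.coprod_apply, LinearMap.smul_apply, LinearMap.id_apply,
        Matrix.mulVecLin_apply]
      rw [Matrix.mulVec_add, Matrix.mulVec_smul, Matrix.mulVec_mulVec, hA, Matrix.smul_mulVec,
        smul_add, smul_smul, smul_smul]
      congr 2
      ring
  obtain ⟨b⟩ := Jtr2_basis N hc hN
  let y : Matrix (Fin 2) (Fin 2) O := Matrix.of fun i j => (b j : Fin 2 → O) i
  have hy : ∀ v (hv : v ∈ N), y.mulVec (b.repr ⟨v, hv⟩) = v := by
    intro v hv
    have h1 := b.sum_repr ⟨v, hv⟩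
    have h2 := congrArg Subtype.val h1
    rw [Submodule.coe_sum] at h2
    simp only [Fin.sum_univ_two, Submodule.coe_smul] at h2
    funext i
    have h3 := congrFun h2 i
    simp only [Pi.add_apply, Pi.smul_apply, smul_eq_mul] at h3
    rw [Matrix.mulVec, dotProduct, Fin.sum_univ_two]
    simp only [y, Matrix.of_apply]
    rw [← h3]
    ring
  have hmat : ∀ M : Matrix (Fin 2) (Fin 2) O, (∀ j, (fun i => M i j) ∈ N) →
      ∃ Z : Matrix (Fin 2) (Fin 2) O, M = y * Z := by
    intro M hM
    refine ⟨Matrix.of fun i j => b.repr ⟨_, hM j⟩ i, ?_⟩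
    ext i j
    have h1 := congrFun (hy _ (hM j)) i
    rw [Matrix.mul_apply]
    rw [Matrix.mulVec, dotProduct] at h1
    exact h1.symm
  have hydet : y.det ≠ 0 := by
    obtain ⟨Z, hZ⟩ := hmat (c • 1) (by
      intro j
      have h1 := hN (fun i => (1 : Matrix (Fin 2) (Fin 2) O) i j)
      exact h1)
    intro h0
    have h1 := congrArg Matrix.det hZ
    rw [Matrix.det_mul, h0, zero_mul, Matrix.det_smul, Matrix.det_one, mul_one] at h1
    exact hc (pow_eq_zero_iff (by simp) |>.mp h1)
  choose w hwN hw using fun j : Fin 2 => hAN _ (b j).2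
  obtain ⟨Z, hZ⟩ := hmat (Matrix.of fun i j => w j i) (fun j => hwN j)
  refine ⟨y, Z, hydet, ?_⟩
  have h1 : (x - 1) * y = c • (y * Z) := by
    rw [← hZ]
    ext i j
    have h2 := congrFun (hw j) i
    rw [Matrix.mul_apply]
    rw [Matrix.mulVec, dotProduct] at h2
    exact h2
  have h2 : x * y = y + (x - 1) * y := by
    rw [Matrix.sub_mul, Matrix.one_mul]
    abel
  rw [h2, h1, Matrix.mul_add, Matrix.mul_one, Matrix.mul_smul]

theorem p_Jtr2 : J_tr2 := by
  intro a b hn hpid M hM x hx
  have hdom : IsDomain (Qf a b ℤ) := Qf_domain hn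
  have hc : (M : Qf a b ℤ) ≠ 0 := by
    intro h
    have h1 := congrArg QuadraticAlgebra.re h
    rw [QuadraticAlgebra.re_natCast] at h1
    have h2 : (0 : Qf a b ℤ).re = 0 := rfl
    rw [h2] at h1
    exact hM (by exact_mod_cast h1)
  obtain ⟨y, Z, hy, hxy⟩ := Jtr2_main x.val x.2 hc hx
  have h2 : (1 + (M : Qf a b ℤ) • Z).det = 1 := by
    have h3 := congrArg Matrix.det hxy
    rw [Matrix.det_mul, Matrix.det_mul, x.2, one_mul] at h3
    have h4 : y.det * 1 = y.det * (1 + (M : Qf a b ℤ) • Z).det := by rw [mul_one]; exact h3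
    exact (mul_left_cancel₀ hy h4).symm
  refine ⟨y, hy, ⟨_, h2⟩, ?_, hxy⟩
  rw [← map_one (rdq a b M)]
  refine Subtype.ext (Matrix.ext fun i j => ?_)
  show Qfm a b (Int.castRingHom (ZMod M)) ((1 + (M : Qf a b ℤ) • Z) i j) =
    Qfm a b (Int.castRingHom (ZMod M)) ((1 : Matrix (Fin 2) (Fin 2) (Qf a b ℤ)) i j)
  rw [Matrix.add_apply, Matrix.smul_apply, smul_eq_mul, map_add, map_mul, map_natCast]
  have h5 : ((M : ℕ) : Qf a b (ZMod M)) = 0 := by
    apply QuadraticAlgebra.ext
    · rw [QuadraticAlgebra.re_natCast]; simp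
    · rw [QuadraticAlgebra.im_natCast]; rfl
  rw [h5, zero_mul, add_zero]

end Pool.Agent.F8.CG
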