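import Pool.Agent.Lib.MP_305fdd_al.F8.CG.MainJ5
import Pool.Agent.Lib.MP_305fdd_al.F8.CG.P_Jtr2
import Pool.Agent.Lib.MP_305fdd_al.F8.CG.FinRed

/-!
# MP_305fdd_al, congruence subgroups: Theorem D for the five fields
-/

set_option autoImplicit false

namespace Pool.Agent.F8.CG

open Pool.Agent.F8.BG Pool.Agent.MP_305fdd_al Pool.Agent.Lib.MP_305fdd_al Pool.Agent.F8
open scoped QuadraticAlgebra MatrixGroups

theorem m_BA : BlkA := m_blkA p_Jtr2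

/-- THEOREM D for the five fields -/
theorem m_thmD (K : Type) [Field K] [NumberField K] (hK : Module.finrank ℚ K = 2) (w : K)
    (hw : w ^ 2 = -1 ∨ w ^ 2 = -2 ∨ w ^ 2 = -3 ∨ w ^ 2 = -7 ∨ w ^ 2 = -11)
    (J : Ideal (NumberField.RingOfIntegers K)) (hJ : J ≠ ⊥) (Γ : Subgroup (PGL(2, K)))
    (hΓ : Cong.PG K J ≤ Γ) (hi : (Cong.PG K J).relIndex Γ ≠ 0) :
    (∀ (Λ : Type) [Group Λ], InGenus Γ Λ → ∃ Γ₁ : Subgroup (PGL(2, K)), Nonempty (Λ ≃* Γ₁) ∧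
      Cong.PG K J ≤ Γ₁ ∧ (Cong.PG K J).relIndex Γ₁ = (Cong.PG K J).relIndex Γ ∧
      Cong.SameCl (NumberField.RingOfIntegers K) Γ Γ₁) ∧
    (∃ k : ℕ, ¬ GenusAtLeast Γ k) ∧
    ((∃ J' : Ideal (NumberField.RingOfIntegers K), J' ≠ ⊥ ∧ Cong.Del K J' ≤ Γ) →
      ProfinitelyRigid Γ) ∧
    (Cong.GenPar J Γ → ProfinitelyRigid Γ) ∧
    (Γ ≤ (Cong.toK K).range (G := SL2 (NumberField.RingOfIntegers K)) →
      J ⊔ Ideal.span {(6 : NumberField.RingOfIntegers K)} = ⊤ → ProfinitelyRigid Γ) := by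
  obtain ⟨a, b, H, ⟨e⟩⟩ := ex_allJ K hK w hw
  exact PGL_main e m_BA H J hJ Γ hΓ hi

end Pool.Agent.F8.CG
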