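import Pool.Agent.Lib.MP_305fdd_al.F8.CG.StmX

/-!
# MP_305fdd_al, congruence subgroups: piece CG Xgn0

A finite commutative ring has stable rank one (`Xgn0_unit`: if `A D - B C = 1` then `A + t C` is a unit for `t = (1 - A) C ^ (n - 1)`, `C ^ n` idempotent; so `t` is
in every ideal which contains `A - 1`), `SL₂` is generated by the elementary matrices.
-/

set_option autoImplicit false

namespace Pool.Agent.F8.CG

open Pool.Agent.F8.BG Pool.Agent.MP_305fdd_al Pool.Agent.Lib.MP_305fdd_al Pool.Agent.F8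
open scoped QuadraticAlgebra

noncomputable section

/-- a power which is idempotent -/
private theorem Xgn0_pow {S : Type} [CommRing S] [Finite S] (c : S) :
    ∃ n : ℕ, 1 ≤ n ∧ c ^ n * c ^ n = c ^ n := by
  obtain ⟨i, j, hij, he⟩ := Finite.exists_ne_map_eq_of_infinite (fun n : ℕ => c ^ (n + 1))
  wlog hlt : i < j generalizing i j with H
  · exact H j i hij.symm he.symm (by omega)
  obtain ⟨p, rfl⟩ : ∃ p, j = i + p := ⟨j - i, by omega⟩
  have hp : 1 ≤ p := by omega
  have he : c ^ (i + 1) = c ^ (i + p + 1) := he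
  have h1 : ∀ n, i + 1 ≤ n → c ^ (n + p) = c ^ n := by
    intro n hn
    obtain ⟨k, rfl⟩ : ∃ k, n = i + 1 + k := ⟨n - (i + 1), by omega⟩
    have e : i + 1 + k + p = (i + p + 1) + k := by omega
    rw [e, pow_add c (i + p + 1), ← he, ← pow_add]
  have h2 : ∀ r n, i + 1 ≤ n → c ^ (n + r * p) = c ^ n := by
    intro r
    induction r with
    | zero => intro n _; rw [zero_mul, add_zero]
    | succ r ih =>
      intro n hn
      have e : n + (r + 1) * p = (n + r * p) + p := by ring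
      rw [e, h1 _ (by omega), ih n hn]
  have h3 : i + 1 ≤ (i + 1) * p := Nat.le_mul_of_pos_right _ hp
  refine ⟨(i + 1) * p, by omega, ?_⟩
  rw [← pow_add]
  exact h2 _ _ h3

/-- stable rank one -/
theorem Xgn0_unit {S : Type} [CommRing S] [Finite S] (A B C D : S) (h : A * D - B * C = 1) :
    ∃ n : ℕ, IsUnit (A + (1 - A) * C ^ n * C) := by
  obtain ⟨n, hn, he⟩ := Xgn0_pow C
  obtain ⟨k, rfl⟩ : ∃ k, n = k + 1 := ⟨n - 1, by omega⟩
  refine ⟨k, ?_⟩
  obtain ⟨e, hee⟩ : ∃ e, e = C ^ (k + 1) := ⟨_, rfl⟩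
  rw [← hee] at he
  have h1 : (1 - A) * C ^ k * C = (1 - A) * e := by rw [hee, pow_succ]; ring
  rw [h1]
  have h2 : (A + (1 - A) * e) * (D * (1 - e) + e) = 1 + B * (C * (1 - e)) := by
    linear_combination (1 - e) * h + ((1 - A) - (1 - A) * D) * he
  have h3 : IsNilpotent (B * (C * (1 - e))) := by
    refine ⟨k + 1, ?_⟩
    rw [mul_pow, mul_pow, ← hee, pow_succ (1 - e)]
    linear_combination (-B ^ (k + 1) * (1 - e) ^ k) * he
  have h4 : IsUnit ((A + (1 - A) * e) * (D * (1 - e) + e)) := by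
    rw [h2]
    exact h3.isUnit_one_add
  exact isUnit_of_mul_isUnit_left h4

/-- generation by elementary matrices -/
theorem Xgn0_gen {S : Type} [CommRing S] [Finite S] (x : SL2 S) :
    x ∈ Subgroup.closure {u : SL2 S | ∃ s, u = eU s ∨ u = eV s} := by
  obtain ⟨A, B, C, D, h, hx⟩ : ∃ A B C D, ∃ h : A * D - B * C = 1, x = AB.mx A B C D h :=
    ⟨_, _, _, _, _, AB.eq_mx x⟩
  obtain ⟨n, hn⟩ := Xgn0_unit A B C D h
  obtain ⟨t, ht⟩ : ∃ t, t = (1 - A) * C ^ n := ⟨_, rfl⟩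
  rw [← ht] at hn
  obtain ⟨v, hv⟩ := hn.exists_right_inv
  have hU : ∀ s : S, eU s ∈ Subgroup.closure {u : SL2 S | ∃ s, u = eU s ∨ u = eV s} := fun s =>
    Subgroup.subset_closure ⟨s, Or.inl rfl⟩
  have hV : ∀ s : S, eV s ∈ Subgroup.closure {u : SL2 S | ∃ s, u = eU s ∨ u = eV s} := fun s =>
    Subgroup.subset_closure ⟨s, Or.inr rfl⟩
  have hvD : D - C * v * (B + t * D) = v := by
    linear_combination v * h - D * hv
  have h1 : eV (-(C * v)) * (eU t * x) =
      eU (A + t * C) * eV (-v) * eU (A + t * C) * (eU (-1) * eV 1 * eU (-1)) *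
        eU (v * (B + t * D)) := by
    rw [hx]
    unfold eU eV
    simp only [AB.mx_mul]
    apply AB.mx_congr
    · linear_combination (A + t * C) * hv
    · linear_combination ((B + t * D) * ((A + t * C) * v - 1) - 1) * hv
    · linear_combination (1 - C) * hv
    · linear_combination hvD + (v * (B + t * D)) * hv
  have h2 : x = (eU t)⁻¹ * ((eV (-(C * v)))⁻¹ *
      (eU (A + t * C) * eV (-v) * eU (A + t * C) * (eU (-1) * eV 1 * eU (-1)) *
        eU (v * (B + t * D)))) := by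
    rw [← h1]; group
  rw [h2]
  exact mul_mem (inv_mem (hU _)) (mul_mem (inv_mem (hV _)) (mul_mem (mul_mem
    (mul_mem (mul_mem (hU _) (hV _)) (hU _)) (mul_mem (mul_mem (hU _) (hV _)) (hU _))) (hU _)))

/-- **[CG X gn0]** -/
theorem p_Xgn0 : X_gn0 := by
  intro a b m₀ M' hM' hco x
  have : NeZero M' := ⟨hM'⟩
  have hfin : Finite (Qf a b (ZMod M')) :=
    Finite.of_equiv (ZMod M' × ZMod M')
      (QuadraticAlgebra.equivProd (a : ZMod M') (b : ZMod M')).symm
  let q : Qf a b ℤ →+* Qf a b (ZMod M') := Qfm a b (Int.castRingHom (ZMod M'))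
  have hq : Function.Surjective q := by
    rintro ⟨y, z⟩
    obtain ⟨y', rfl⟩ := ZMod.intCast_surjective y
    obtain ⟨z', rfl⟩ := ZMod.intCast_surjective z
    exact ⟨⟨y', z'⟩, rfl⟩
  have hz : ((M' : ℤ) : Qf a b (ZMod M')) = 0 := by
    apply QuadraticAlgebra.ext <;> simp
  obtain ⟨e, f, hef⟩ : IsCoprime (m₀ : ℤ) (M' : ℤ) := Nat.isCoprime_iff_coprime.2 hco
  have hinv : (e : Qf a b (ZMod M')) * ((m₀ : ℤ) : Qf a b (ZMod M')) = 1 := by
    have h1 := congrArg (fun n : ℤ => (n : Qf a b (ZMod M'))) hef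
    simp only [Int.cast_add, Int.cast_mul, Int.cast_one] at h1
    rw [hz, mul_zero, add_zero] at h1
    exact h1
  have hs : ∀ s, ∃ s', q ((m₀ : Qf a b ℤ) * s') = s := by
    intro s
    obtain ⟨s', hs'⟩ := hq ((e : Qf a b (ZMod M')) * s)
    refine ⟨s', ?_⟩
    rw [map_mul, hs', map_natCast]
    have h2 : ((m₀ : ℕ) : Qf a b (ZMod M')) = ((m₀ : ℤ) : Qf a b (ZMod M')) := by
      rw [Int.cast_natCast]
    rw [h2]
    linear_combination s * hinv
  have hle : Subgroup.closure {u : SL2 (Qf a b (ZMod M')) | ∃ s, u = eU s ∨ u = eV s} ≤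
      (Subgroup.closure {u : GQ a b | ∃ s : Qf a b ℤ, u = eU (m₀ * s) ∨ u = eV (m₀ * s)}).map
        (rdq a b M') := by
    rw [Subgroup.closure_le]
    rintro u ⟨s, hu⟩
    obtain ⟨s', hs'⟩ := hs s
    rcases hu with rfl | rfl
    · refine ⟨eU (m₀ * s'), Subgroup.subset_closure ⟨s', Or.inl rfl⟩, ?_⟩
      unfold rdq
      rw [eU_map, ← hs']
    · refine ⟨eV (m₀ * s'), Subgroup.subset_closure ⟨s', Or.inr rfl⟩, ?_⟩
      unfold rdq
      rw [eV_map, ← hs']
  obtain ⟨u, hu, hux⟩ := hle (Xgn0_gen (rdq a b M' x))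
  refine ⟨u, hu, ?_⟩
  rw [MonoidHom.mem_ker, map_mul, map_inv, hux, mul_inv_cancel]

end

end Pool.Agent.F8.CG
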