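import Pool.Agent.Lib.MP_305fdd_al.F8.CG.StmX

/-!
# MP_305fdd_al, congruence subgroups, [CG X gn1]: generation of the groups `Γ₁(I)`
-/

set_option autoImplicit false

namespace Pool.Agent.F8.CG

open Pool.Agent.F8.BG Pool.Agent.MP_305fdd_al Pool.Agent.Lib.MP_305fdd_al Pool.Agent.F8
open scoped QuadraticAlgebra

noncomputable section

/-- in a finite monoid some power is idempotent -/
theorem Xgn1_idem {S : Type} [CommRing S] [Finite S] (A : S) :
    ∃ n : ℕ, n ≠ 0 ∧ A ^ n * A ^ n = A ^ n := by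
  obtain ⟨i, j, hij, h⟩ := Finite.exists_ne_map_eq_of_infinite (fun k : ℕ => A ^ k)
  have key : ∀ i d : ℕ, d ≠ 0 → A ^ i = A ^ (i + d) →
      ∃ n : ℕ, n ≠ 0 ∧ A ^ n * A ^ n = A ^ n := by
    intro i d hd h
    have h1 : ∀ k r : ℕ, A ^ (i + r) = A ^ (i + r + d * k) := by
      intro k
      induction k with
      | zero => intro r; rfl
      | succ k ih =>
        intro r
        have e1 : i + r + d * (k + 1) = i + (r + d) + d * k := by ring
        rw [e1, ← ih (r + d)]
        have e2 : i + (r + d) = i + d + r := by ring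
        rw [e2, pow_add, h, ← pow_add]
    refine ⟨d * (i + 1), by positivity, ?_⟩
    have h3 : i ≤ d * (i + 1) := by nlinarith [Nat.pos_of_ne_zero hd]
    obtain ⟨r, hr⟩ := Nat.exists_eq_add_of_le h3
    rw [← pow_add]
    have h4 := h1 (i + 1) r
    rw [← hr] at h4
    exact h4.symm
  rcases Nat.lt_or_gt_of_ne hij with hlt | hlt
  · obtain ⟨d, rfl⟩ := Nat.exists_eq_add_of_lt hlt
    exact key i (d + 1) (Nat.succ_ne_zero d) h
  · obtain ⟨d, rfl⟩ := Nat.exists_eq_add_of_lt hlt
    exact key j (d + 1) (Nat.succ_ne_zero d) h.symm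

/-- the stable range of finite rings, relative to an ideal -/
theorem Xgn1_sr {S : Type} [CommRing S] [Finite S] (J : Ideal S) (A C p q : S)
    (h : p * A + q * C = 1) (hA : A - 1 ∈ J) : ∃ t ∈ J, IsUnit (A + t * C) := by
  obtain ⟨n, hn, he⟩ := Xgn1_idem A
  refine ⟨1 - A ^ n, ?_, ?_⟩
  · have h1 : A - 1 ∣ A ^ n - 1 := by
      have := sub_dvd_pow_sub_pow A 1 n
      rwa [one_pow] at this
    have h2 : A ^ n - 1 ∈ J := Ideal.mem_of_dvd J h1 hA
    have h3 := J.neg_mem h2
    rwa [neg_sub] at h3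
  · by_contra hu
    obtain ⟨M, hM, hm⟩ := exists_max_ideal_of_mem_nonunits (mem_nonunits_iff.2 hu)
    have hP : M.IsPrime := hM.isPrime
    have h0 : A ^ n * (1 - A ^ n) = 0 := by linear_combination -he
    have h1 : A ^ n * (1 - A ^ n) ∈ M := by rw [h0]; exact M.zero_mem
    rcases hP.mem_or_mem h1 with h2 | h2
    · have h3 : A ∈ M := hP.mem_of_pow_mem _ h2
      have h4 : (1 - A ^ n) * C ∈ M := by
        have := M.sub_mem hm h3
        rwa [add_sub_cancel_left] at this
      have h5 : C ∈ M := by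
        have e : C = (1 - A ^ n) * C + A ^ n * C := by ring
        rw [e]
        exact M.add_mem h4 (M.mul_mem_right _ h2)
      apply hP.ne_top
      rw [Ideal.eq_top_iff_one, ← h]
      exact M.add_mem (M.mul_mem_left _ h3) (M.mul_mem_left _ h5)
    · have h3 : A ∈ M := by
        have := M.sub_mem hm (M.mul_mem_right C h2)
        rwa [add_sub_cancel_right] at this
      apply hP.ne_top
      rw [Ideal.eq_top_iff_one]
      have e : (1 : S) = (1 - A ^ n) + A ^ n := by ring
      rw [e]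
      exact M.add_mem h2 (Ideal.pow_mem_of_mem M h3 n (Nat.pos_of_ne_zero hn))

/-- the matrices over a finite ring -/
theorem Xgn1_fin {S : Type} [CommRing S] [Finite S] (J : Ideal S) (N : Subgroup (SL2 S))
    (hU : ∀ s, eU s ∈ N) (hV : ∀ s ∈ J, eV s ∈ N) (X : SL2 S) (hA : X.val 0 0 - 1 ∈ J)
    (hC : X.val 1 0 ∈ J) : X ∈ N := by
  obtain ⟨A, B, C, D, hd, rfl⟩ : ∃ A B C D : S, ∃ h : A * D - B * C = 1, X = AB.mx A B C D h :=
    ⟨_, _, _, _, _, AB.eq_mx X⟩
  rw [AB.mx_00] at hA
  rw [AB.mx_10] at hC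
  obtain ⟨t, ht, hu⟩ := Xgn1_sr J A C D (-B) (by linear_combination hd) hA
  obtain ⟨v, hv⟩ := hu.exists_right_inv
  have hs : A + t * C - 1 ∈ J := by
    have := J.add_mem hA (J.mul_mem_right C ht)
    have e : A + t * C - 1 = A - 1 + t * C := by ring
    rw [e]
    exact this
  have hdiag : AB.mx (A + t * C) 0 0 v (by linear_combination hv) ∈ N := by
    have e : AB.mx (A + t * C) 0 0 v (by linear_combination hv) =
        eV (-((A + t * C - 1) * v)) * (eU 1 * eV (A + t * C - 1) * eU (-1)) *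
          eU ((A + t * C - 1) * v) := by
      unfold eU eV
      rw [AB.mx_mul, AB.mx_mul, AB.mx_mul, AB.mx_mul]
      apply AB.mx_congr
      · ring
      · linear_combination (-(A + t * C) + 1) * hv
      · linear_combination (A + t * C - 1) * hv
      · linear_combination ((A + t * C - 1) ^ 2 * v + 2 - (A + t * C)) * hv
    rw [e]
    refine N.mul_mem (N.mul_mem (hV _ (J.neg_mem (J.mul_mem_right _ hs))) ?_) (hU _)
    exact N.mul_mem (N.mul_mem (hU _) (hV _ hs)) (hU _)
  have e : AB.mx A B C D hd = eU (-t) * eV (C * v) * AB.mx (A + t * C) 0 0 v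
      (by linear_combination hv) * eU (v * (B + t * D)) := by
    unfold eU eV
    rw [AB.mx_mul, AB.mx_mul, AB.mx_mul]
    apply AB.mx_congr
    · linear_combination t * C * hv
    · linear_combination (t * D - (B + t * D) + t * C * v * (B + t * D)) * hv - t * v * hd
    · linear_combination -C * hv
    · linear_combination (-D - C * v * (B + t * D)) * hv + v * hd
  rw [e]
  exact N.mul_mem (N.mul_mem (N.mul_mem (hU _) (hV _ (J.mul_mem_right _ hC))) hdiag) (hU _)

theorem Xgn1_fin_Qf (a b : ℤ) (m : ℕ) (hm : m ≠ 0) : Finite (Qf a b (ZMod m)) := by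
  have : NeZero m := ⟨hm⟩
  have hf : Function.Injective (fun z : Qf a b (ZMod m) => (z.re, z.im)) := by
    intro z z' h
    simp only [Prod.mk.injEq] at h
    exact QuadraticAlgebra.ext h.1 h.2
  exact Finite.of_injective _ hf

theorem Xgn1_surj (a b : ℤ) (m : ℕ) :
    Function.Surjective (Qfm a b (Int.castRingHom (ZMod m))) := by
  intro z
  obtain ⟨x, hx⟩ := ZMod.intCast_surjective z.re
  obtain ⟨y, hy⟩ := ZMod.intCast_surjective z.im
  refine ⟨⟨x, y⟩, ?_⟩
  rw [Qfm_apply]
  apply QuadraticAlgebra.ext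
  · exact hx
  · exact hy

theorem p_Xgn1 : X_gn1 := by
  intro a b I m hm hmI x h1 h2 h3
  have := Xgn1_fin_Qf a b m hm
  set H := Subgroup.closure ((Gam a b m : Set (GQ a b)) ∪ {x | ∃ s : Qf a b ℤ, x = eU s} ∪
    {x | ∃ s : Qf a b ℤ, s ∈ I ∧ x = eV s}) with hH
  have hN : rdq a b m x ∈ H.map (rdq a b m) := by
    apply Xgn1_fin (I.map (Qfm a b (Int.castRingHom (ZMod m))))
    · intro s
      obtain ⟨y, rfl⟩ := Xgn1_surj a b m s
      refine ⟨eU y, ?_, eU_map _ _⟩
      exact Subgroup.subset_closure (Or.inl (Or.inr ⟨y, rfl⟩))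
    · intro s hs
      rw [Ideal.mem_map_iff_of_surjective _ (Xgn1_surj a b m)] at hs
      obtain ⟨y, hy, rfl⟩ := hs
      refine ⟨eV y, ?_, eV_map _ _⟩
      exact Subgroup.subset_closure (Or.inr ⟨y, hy, rfl⟩)
    · have := Ideal.mem_map_of_mem (Qfm a b (Int.castRingHom (ZMod m))) h1
      rw [map_sub, map_one] at this
      exact this
    · exact Ideal.mem_map_of_mem (Qfm a b (Int.castRingHom (ZMod m))) h2
  obtain ⟨h, hh, he⟩ := hN
  have hk : h⁻¹ * x ∈ H := by
    apply Subgroup.subset_closure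
    refine Or.inl (Or.inl ?_)
    show h⁻¹ * x ∈ (rdq a b m).ker
    rw [MonoidHom.mem_ker, map_mul, map_inv, he, inv_mul_cancel]
  have e : x = h * (h⁻¹ * x) := by group
  rw [e]
  exact H.mul_mem hh hk

end

end Pool.Agent.F8.CG
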