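import Pool.Agent.Lib.MP_305fdd_al.F8.CG.StmX

/-!
# MP_305fdd_al, congruence subgroups: the piece `X_gnI`
-/

set_option autoImplicit false

namespace Pool.Agent.F8.CG

open Pool.Agent.F8.BG Pool.Agent.MP_305fdd_al Pool.Agent.Lib.MP_305fdd_al Pool.Agent.F8
open scoped QuadraticAlgebra

noncomputable section

section gen

variable {S : Type} [CommRing S]

/-- the diagonal matrix -/
private theorem XgnI_dg (u v : S) (h : u * v = 1) :
    eV (-((u - 1) * v)) * (eU 1 * eV (u - 1) * eU (-1)) * eU ((u - 1) * v) =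
      AB.mx u 0 0 v (by linear_combination h) := by
  unfold eU eV
  rw [AB.mx_mul, AB.mx_mul, AB.mx_mul, AB.mx_mul]
  apply AB.mx_congr
  · ring
  · linear_combination (u - 1) * h
  · linear_combination (-(u - 1)) * h
  · linear_combination (-(u - 1) ^ 2 * v + u - 2) * h

/-- the decomposition -/
private theorem XgnI_dec (A B C D t v : S) (hd : A * D - B * C = 1) (h : (A + t * C) * v = 1) :
    AB.mx A B C D hd = eU (-t) * eV (C * v) *
      AB.mx (A + t * C) 0 0 v (by linear_combination h) * eU (v * (B + t * D)) := by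
  unfold eU eV
  rw [AB.mx_mul, AB.mx_mul, AB.mx_mul]
  apply AB.mx_congr
  · linear_combination (t * C) * h
  · linear_combination (t * D - (B + t * D) + t * C * v * (B + t * D)) * h - t * v * hd
  · linear_combination (-C) * h
  · linear_combination (-D - C * v * (B + t * D)) * h + v * hd

/-- idempotent powers -/
private theorem XgnI_idem [Finite S] (x : S) : ∃ n : ℕ, 0 < n ∧ x ^ n * x ^ n = x ^ n := by
  obtain ⟨i, j, hij, he⟩ := Finite.exists_ne_map_eq_of_infinite (fun n : ℕ => x ^ n)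
  have key : ∀ i p : ℕ, 0 < p → x ^ i = x ^ (i + p) → ∃ n : ℕ, 0 < n ∧ x ^ n * x ^ n = x ^ n := by
    intro i p hp h
    have h1 : ∀ k, i ≤ k → x ^ (k + p) = x ^ k := by
      intro k hk
      obtain ⟨l, rfl⟩ := Nat.exists_eq_add_of_le hk
      rw [show i + l + p = (i + p) + l by ring, pow_add, ← h, ← pow_add]
    have h2 : ∀ r k, i ≤ k → x ^ (k + r * p) = x ^ k := by
      intro r
      induction r with
      | zero => intro k _; rw [Nat.zero_mul, Nat.add_zero]
      | succ r ih =>
        intro k hk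
        rw [Nat.succ_mul, ← Nat.add_assoc, h1 _ (by omega), ih k hk]
    refine ⟨(i + 1) * p, Nat.mul_pos (Nat.succ_pos _) hp, ?_⟩
    rw [← pow_add]
    apply h2
    calc i ≤ i + 1 := Nat.le_succ _
      _ ≤ (i + 1) * p := Nat.le_mul_of_pos_right _ hp
  rcases lt_or_gt_of_ne hij with hlt | hlt
  · exact key i (j - i) (by omega) (by rw [show i + (j - i) = j by omega]; exact he)
  · exact key j (i - j) (by omega) (by rw [show j + (i - j) = i by omega]; exact he.symm)

/-- the unit -/
private theorem XgnI_unit (A B C D : S) (hd : A * D - B * C = 1) (n : ℕ) (hn : 0 < n)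
    (he : A ^ n * A ^ n = A ^ n) : IsUnit (A + (1 - A ^ n) * C) := by
  by_contra hnu
  obtain ⟨M, hM, hmem⟩ := exists_max_ideal_of_mem_nonunits hnu
  have hprime := hM.isPrime
  have h1 : A ^ n * (1 - A ^ n) ∈ M := by
    have : A ^ n * (1 - A ^ n) = 0 := by linear_combination -he
    rw [this]
    exact M.zero_mem
  have hone : (1 : S) ∉ M := fun h => hM.ne_top ((Ideal.eq_top_iff_one M).2 h)
  rcases hprime.mem_or_mem h1 with h2 | h2
  · have h3 : A ∈ M := hprime.mem_of_pow_mem n h2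
    have h4 : C ∈ M := by
      have : C = (A + (1 - A ^ n) * C) - A + A ^ n * C := by ring
      rw [this]
      exact M.add_mem (M.sub_mem hmem h3) (M.mul_mem_right _ h2)
    apply hone
    rw [← hd]
    exact M.sub_mem (M.mul_mem_right _ h3) (M.mul_mem_left _ h4)
  · have h3 : A ∈ M := by
      have : A = (A + (1 - A ^ n) * C) - (1 - A ^ n) * C := by ring
      rw [this]
      exact M.sub_mem hmem (M.mul_mem_right _ h2)
    apply hone
    have h4 : A ^ n ∈ M := M.pow_mem_of_mem h3 n hn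
    have : (1 : S) = (1 - A ^ n) + A ^ n := by ring
    rw [this]
    exact M.add_mem h2 h4

private theorem XgnI_eUinv (x : S) : (eU x)⁻¹ = eU (-x) := by
  unfold eU
  rw [AB.mx_inv]
  apply AB.mx_congr
  · rfl
  · rfl
  · exact neg_zero
  · rfl

/-- the lower triangular matrices are conjugate to the upper triangular ones -/
private theorem XgnI_eV (s : S) : eV s = AB.mx 0 (-1) 1 0 (by ring) * eU (-s) *
    (AB.mx 0 (-1) 1 0 (by ring))⁻¹ := by
  unfold eU eV
  rw [AB.mx_inv, AB.mx_mul, AB.mx_mul]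
  apply AB.mx_congr <;> ring

end gen

theorem p_XgnI : X_gnI := by
  intro a b I m hm hmI x hx
  have : NeZero m := ⟨hm⟩
  obtain ⟨hA, hB, hC, hD⟩ := hx
  set N := Subgroup.closure ((Gam a b m : Set (GQ a b)) ∪
    {x | ∃ (g : GQ a b) (s : Qf a b ℤ), s ∈ I ∧ x = g * eU s * g⁻¹}) with hN
  set q := Qfm a b (Int.castRingHom (ZMod m)) with hq
  -- the members of `N`
  have hcj : ∀ (g : GQ a b) (s : Qf a b ℤ), s ∈ I → g * eU s * g⁻¹ ∈ N := fun g s hs =>
    Subgroup.subset_closure (Or.inr ⟨g, s, hs, rfl⟩)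
  have hU : ∀ s : Qf a b ℤ, s ∈ I → (eU s : GQ a b) ∈ N := by
    intro s hs
    have h1 := hcj 1 s hs
    rwa [one_mul, inv_one, mul_one] at h1
  have hV : ∀ s : Qf a b ℤ, s ∈ I → (eV s : GQ a b) ∈ N := by
    intro s hs
    rw [XgnI_eV]
    exact hcj _ _ (I.neg_mem hs)
  have hW : ∀ s : Qf a b ℤ, s ∈ I → (eU 1 * eV s * eU (-1) : GQ a b) ∈ N := by
    intro s hs
    rw [XgnI_eV, ← XgnI_eUinv 1]
    have h1 := hcj (eU 1 * AB.mx 0 (-1) 1 0 (by ring)) (-s) (I.neg_mem hs)
    rw [mul_inv_rev] at h1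
    simpa only [mul_assoc] using h1
  -- the entries
  set A := x.val 0 0 with hA'
  set B := x.val 0 1 with hB'
  set C := x.val 1 0 with hC'
  set D := x.val 1 1 with hD'
  have hxe : x = AB.mx A B C D (G.SL_det x) := AB.eq_mx x
  have hdet : A * D - B * C = 1 := G.SL_det x
  have hqdet : q A * q D - q B * q C = 1 := by
    rw [← map_mul, ← map_mul, ← map_sub, hdet, map_one]
  obtain ⟨n, hn, hidem⟩ := XgnI_idem (q A)
  have hunit := XgnI_unit (q A) (q B) (q C) (q D) hqdet n hn hidem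
  set t : Qf a b ℤ := 1 - A ^ n with ht
  have htI : t ∈ I := by
    have h1 : A - 1 ∣ A ^ n - 1 := by
      have := sub_dvd_pow_sub_pow A 1 n
      rwa [one_pow] at this
    have h2 := I.mem_of_dvd h1 hA
    have h3 := I.neg_mem h2
    rwa [neg_sub] at h3
  have hqt : q t = 1 - q A ^ n := by rw [ht, map_sub, map_one, map_pow]
  rw [← hqt] at hunit
  obtain ⟨v', hv'⟩ := hunit.exists_right_inv
  obtain ⟨v, hv⟩ : ∃ v : Qf a b ℤ, q v = v' := by
    obtain ⟨y, hy⟩ := ZMod.intCast_surjective v'.re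
    obtain ⟨z, hz⟩ := ZMod.intCast_surjective v'.im
    exact ⟨⟨y, z⟩, QuadraticAlgebra.ext hy hz⟩
  rw [← hv] at hv'
  set u : Qf a b ℤ := A + t * C with hu
  have huq : q u = q A + q t * q C := by rw [hu, map_add, map_mul]
  have hsI : u - 1 ∈ I := by
    have h1 := I.add_mem hA (I.mul_mem_left t hC)
    have h2 : u - 1 = A - 1 + t * C := by rw [hu]; ring
    rw [h2]
    exact h1
  have hBD : B + t * D ∈ I := I.add_mem hB (I.mul_mem_right _ htI)
  set z : GQ a b := eU (-t) * eV (C * v) * (eV (-((u - 1) * v)) *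
    (eU 1 * eV (u - 1) * eU (-1)) * eU ((u - 1) * v)) * eU (v * (B + t * D)) with hz
  have hzN : z ∈ N := by
    rw [hz]
    refine N.mul_mem (N.mul_mem (N.mul_mem ?_ ?_) (N.mul_mem (N.mul_mem ?_ ?_) ?_)) ?_
    · exact hU _ (I.neg_mem htI)
    · exact hV _ (I.mul_mem_right _ hC)
    · exact hV _ (I.neg_mem (I.mul_mem_right _ hsI))
    · exact hW _ hsI
    · exact hU _ (I.mul_mem_right _ hsI)
    · exact hU _ (I.mul_mem_left _ hBD)
  have hzx : rdq a b m z = rdq a b m x := by
    show SLm q z = SLm q x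
    have h1 : SLm q x = AB.mx (q A) (q B) (q C) (q D) hqdet := by
      conv_lhs => rw [hxe, AB.mx_map]
    rw [h1, XgnI_dec (q A) (q B) (q C) (q D) (q t) (q v) hqdet hv',
      ← XgnI_dg (q A + q t * q C) (q v) hv', hz]
    simp only [map_mul, eU_map, eV_map, map_neg, map_sub, map_add, map_one, huq]
  have h2 : x * z⁻¹ ∈ N := by
    apply Subgroup.subset_closure
    left
    show rdq a b m (x * z⁻¹) = 1
    rw [map_mul, map_inv, hzx, mul_inv_cancel]
  have h3 := N.mul_mem h2 hzN
  rwa [inv_mul_cancel_right] at h3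

end

end Pool.Agent.F8.CG
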