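import Pool.Agent.Lib.MP_305fdd_al.F8.CG.StmX
import Pool.Agent.Lib.MP_305fdd_al.F8.BG.DefsU

/-!
# MP_305fdd_al, congruence subgroups: unipotent elements (X_uni1)
-/

set_option autoImplicit false

namespace Pool.Agent.F8.CG

open Pool.Agent.F8.BG Pool.Agent.MP_305fdd_al Pool.Agent.Lib.MP_305fdd_al Pool.Agent.F8
open scoped QuadraticAlgebra

private theorem Xuni1_zero (a b : ℤ) (m : ℕ) : ((m : ℕ) : Qf a b (ZMod m)) = 0 := by
  apply QuadraticAlgebra.ext
  · simp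
  · simp

private theorem Xuni1_red (a b : ℤ) (m : ℕ) (s : Qf a b ℤ) :
    rdq a b m (eU ((m : Qf a b ℤ) * s)) = 1 := by
  have h1 : rdq a b m (eU ((m : Qf a b ℤ) * s)) =
      eU (Qfm a b (Int.castRingHom (ZMod m)) ((m : Qf a b ℤ) * s)) := eU_map _ _
  have h2 : Qfm a b (Int.castRingHom (ZMod m)) ((m : Qf a b ℤ) * s) = 0 := by
    rw [map_mul, map_natCast, Xuni1_zero, zero_mul]
  rw [h1, h2]
  apply Subtype.ext
  exact Matrix.one_fin_two.symm

private theorem Xuni1_D {R : Type} [CommRing R] (m s : R) :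
    (eU s).val * !![1, 0; 0, m] = !![1, 0; 0, m] * (eU (m * s)).val := by
  show !![(1 : R), s; 0, 1] * !![1, 0; 0, m] = !![1, 0; 0, m] * !![(1 : R), m * s; 0, 1]
  ext i j
  fin_cases i <;> fin_cases j <;> simp [Matrix.mul_apply, Fin.sum_univ_two, mul_comm]

private theorem Xuni1_key (a b : ℤ) (m : ℕ) (hm : m ≠ 0)
    (g : GQ a b) (s : Qf a b ℤ) :
    ∃ y, CjG m (g * eU s * g⁻¹) y := by
  refine ⟨g.val * !![1, 0; 0, (m : Qf a b ℤ)], ?_, eU ((m : Qf a b ℤ) * s), Xuni1_red a b m s, ?_⟩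
  · rw [Matrix.det_mul, g.2, one_mul, Matrix.det_fin_two_of, one_mul, zero_mul, sub_zero]
    exact Nat.cast_ne_zero.2 hm
  · have h1 : (g * eU s * g⁻¹).val * g.val = g.val * (eU s).val := by
      have h2 : (g * eU s * g⁻¹) * g = g * eU s := by group
      exact congrArg Subtype.val h2
    calc (g * eU s * g⁻¹).val * (g.val * !![1, 0; 0, (m : Qf a b ℤ)])
        = ((g * eU s * g⁻¹).val * g.val) * !![1, 0; 0, (m : Qf a b ℤ)] := by
          rw [Matrix.mul_assoc]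
      _ = g.val * ((eU s).val * !![1, 0; 0, (m : Qf a b ℤ)]) := by
          rw [h1, Matrix.mul_assoc]
      _ = (g.val * !![1, 0; 0, (m : Qf a b ℤ)]) * (eU ((m : Qf a b ℤ) * s)).val := by
          rw [Xuni1_D, Matrix.mul_assoc]

private theorem Xuni1_w {R : Type} [CommRing R] (s : R) :
    eV s * mB R = mB R * eU (-s) := by
  apply Subtype.ext
  show !![(1 : R), 0; s, 1] * !![0, -1; 1, 0] = !![0, -1; 1, 0] * !![(1 : R), -s; 0, 1]
  ext i j
  fin_cases i <;> fin_cases j <;> simp [Matrix.mul_apply, Fin.sum_univ_two]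

theorem p_Xuni1 : X_uni1 := by
  intro a b m hm _ g s
  refine ⟨Xuni1_key a b m hm g s, ?_⟩
  have h1 : g * eV s * g⁻¹ = (g * mB _) * eU (-s) * (g * mB _)⁻¹ := by
    have h2 : eV s = mB _ * eU (-s) * (mB _)⁻¹ := by
      rw [← Xuni1_w]
      group
    rw [h2]
    group
  rw [h1]
  exact Xuni1_key a b m hm _ _

end Pool.Agent.F8.CG
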