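import Pool.Agent.Lib.MP_305fdd_al.F8.CG.MainA
import Pool.Agent.Lib.MP_305fdd_al.F8.CG.GamLe
import Pool.Agent.Lib.MP_305fdd_al.F8.CG.StmY
import Pool.Agent.Lib.MP_305fdd_al.F8.CG.DefsP
import Pool.Agent.Lib.MP_305fdd_al.F8.CG.P_XgnI
import Pool.Agent.Lib.MP_305fdd_al.F8.CG.P_Xgn1
import Pool.Agent.Lib.MP_305fdd_al.F8.CG.P_Xgn0
import Pool.Agent.Lib.MP_305fdd_al.F8.CG.P_Xuni1
import Pool.Agent.Lib.MP_305fdd_al.F8.CG.P_Csrd
import Pool.Agent.Lib.MP_305fdd_al.F8.CG.P_Chz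
import Pool.Agent.Lib.MP_305fdd_al.F8.BG.P_E

/-!
# MP_305fdd_al, congruence subgroups: the conditions `HE` and `HZ` for the classical congruence subgroups
-/

set_option autoImplicit false

namespace Pool.Agent.F8.CG

open Pool.Agent.F8.BG Pool.Agent.MP_305fdd_al Pool.Agent.Lib.MP_305fdd_al Pool.Agent.F8
open scoped QuadraticAlgebra

noncomputable section

variable {a b : ℤ}

/-! ### The group generated by `S` and `-1` -/

/-- the group of the `± x`, `x ∈ S` -/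
def pmS (S : Subgroup (GQ a b)) : Subgroup (GQ a b) where
  carrier := {x | x ∈ S ∨ -x ∈ S}
  mul_mem' := by
    intro x y hx hy
    rcases hx with hx | hx <;> rcases hy with hy | hy
    · exact Or.inl (mul_mem hx hy)
    · exact Or.inr (by rw [← mul_neg]; exact mul_mem hx hy)
    · exact Or.inr (by rw [← neg_mul]; exact mul_mem hx hy)
    · exact Or.inl (by rw [← neg_mul_neg]; exact mul_mem hx hy)
  one_mem' := Or.inl (one_mem _)
  inv_mem' := by
    intro x hx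
    rcases hx with hx | hx
    · exact Or.inl (inv_mem hx)
    · refine Or.inr ?_
      have h : (-x)⁻¹ = -x⁻¹ := by
        rw [inv_eq_iff_mul_eq_one, neg_mul_neg, mul_inv_cancel]
      rw [← h]
      exact inv_mem hx

theorem mem_pmS {S : Subgroup (GQ a b)} {x : GQ a b} : x ∈ pmS S ↔ x ∈ S ∨ -x ∈ S := Iff.rfl

theorem neg_mem_pmS (S : Subgroup (GQ a b)) : -1 ∈ pmS S :=
  Or.inr (by rw [neg_neg]; exact one_mem _)

theorem le_pmS (S : Subgroup (GQ a b)) : S ≤ pmS S := fun _ h => Or.inl h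

/-- `S` is generated by conjugates of elements of `Γ(M')` -/
def GenS (S : Subgroup (GQ a b)) (M' : ℕ) : Prop :=
  ∀ x ∈ S, x ∈ Subgroup.closure {x | x ∈ S ∧ ∃ y, CjG M' x y}

theorem HE_pmS {S : Subgroup (GQ a b)} {M' : ℕ} (h : GenS S M') : HE (pmS S) M' := by
  apply le_antisymm
  · intro x hx
    have key : ∀ y ∈ S, y ∈ Subgroup.closure
        {x | x ∈ pmS S ∧ (x = -1 ∨ ∃ y, CjG M' x y)} := by
      intro y hy
      refine Subgroup.closure_mono ?_ (h y hy)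
      rintro z ⟨h1, h2⟩
      exact ⟨Or.inl h1, Or.inr h2⟩
    rcases hx with hx | hx
    · exact key x hx
    · have h1 : x = -1 * -x := by rw [neg_mul_neg, one_mul]
      rw [h1]
      exact mul_mem (Subgroup.subset_closure ⟨neg_mem_pmS S, Or.inl rfl⟩) (key _ hx)
  · rw [Subgroup.closure_le]
    rintro x ⟨h1, -⟩
    exact h1

theorem rdq_neg (m : ℕ) (x : GQ a b) : rdq a b m (-x) = -rdq a b m x := by
  apply Subtype.ext
  refine Matrix.ext fun i j => ?_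
  show Qfm a b (Int.castRingHom (ZMod m)) (-(x.val i j)) =
    -(Qfm a b (Int.castRingHom (ZMod m)) (x.val i j))
  rw [map_neg]

/-- the diagonal conjugation maps `S` to `S` -/
def DgS (S : Subgroup (GQ a b)) (m : ℕ) : Prop :=
  ∀ (e : (Qf a b (ZMod m))ˣ), ∀ x ∈ S, ∃ y ∈ S, (rdq a b m y).val =
    !![(rdq a b m x).val 0 0, e.val * (rdq a b m x).val 0 1;
      (e⁻¹).val * (rdq a b m x).val 1 0, (rdq a b m x).val 1 1]

theorem HZ_pmS {S : Subgroup (GQ a b)} {m : ℕ} [NeZero m] (h : DgS S m) : HZ (pmS S) m := by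
  apply p_Chz p_Csrd
  intro e x hx
  rcases hx with hx | hx
  · obtain ⟨y, h1, h2⟩ := h e x hx
    exact ⟨y, Or.inl h1, h2⟩
  · obtain ⟨y, h1, h2⟩ := h e (-x) hx
    refine ⟨-y, Or.inr (by rw [neg_neg]; exact h1), ?_⟩
    rw [rdq_neg] at h2 ⊢
    have h3 : (-(rdq a b m y)).val = -(rdq a b m y).val := rfl
    have h4 : (-(rdq a b m x)).val = -(rdq a b m x).val := rfl
    rw [h3, h2, h4]
    refine Matrix.ext fun i j => ?_
    fin_cases i <;> fin_cases j <;> simp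

/-! ### Integers in ideals -/

theorem ex_nat (hn : b ^ 2 + 4 * a < 0) {I : Ideal (Qf a b ℤ)} (hI : I ≠ ⊥) :
    ∃ m : ℕ, m ≠ 0 ∧ (m : Qf a b ℤ) ∈ I := by
  obtain ⟨z, hz, h0⟩ := Submodule.exists_mem_ne_zero_of_ne_bot hI
  obtain ⟨m, hm, hd⟩ := E_dvd hn z h0
  exact ⟨m, hm.ne', I.mem_of_dvd hd hz⟩

/-- an integer in `I` which is prime to `M'` -/
theorem ex_cop (hn : b ^ 2 + 4 * a < 0) {I : Ideal (Qf a b ℤ)} {M' : ℕ} (hM : 2 ≤ M')
    (hI : I ⊔ Ideal.span {(M' : Qf a b ℤ)} = ⊤) :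
    ∃ m : ℕ, m ≠ 0 ∧ (m : Qf a b ℤ) ∈ I ∧ Nat.Coprime m M' := by
  have h1 : (1 : Qf a b ℤ) ∈ I ⊔ Ideal.span {(M' : Qf a b ℤ)} := by rw [hI]; trivial
  obtain ⟨z, hz, y, hy, hzy⟩ := Submodule.mem_sup.1 h1
  obtain ⟨t, rfl⟩ := Ideal.mem_span_singleton'.1 hy
  -- the norm of `z = 1 - M' t`
  have hz1 : z = 1 - t * (M' : Qf a b ℤ) := by rw [← hzy]; ring
  have hre : z.re = 1 - M' * t.re := by
    rw [hz1]
    simp [mul_comm]
  have him : z.im = -(M' * t.im) := by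
    rw [hz1]
    simp [mul_comm]
  have hn1 : ∃ k : ℤ, nq z = 1 + M' * k := by
    refine ⟨-2 * t.re + M' * t.re ^ 2 - b * t.im + b * M' * t.re * t.im - a * M' * t.im ^ 2, ?_⟩
    unfold nq
    rw [hre, him]
    simp only [Int.cast_id]
    ring
  have hz0 : z ≠ 0 := by
    intro h
    have h2 : (0 : ℤ) = 1 - M' * t.re := by
      rw [← hre, h]; rfl
    have h3 : (M' : ℤ) ∣ 1 := ⟨t.re, by linarith⟩
    have h4 := Int.le_of_dvd one_pos h3
    omega
  have h0 : 0 < nq z := lt_of_le_of_ne (nq_nonneg hn z) fun h => hz0 (nq_eq_zero hn h.symm)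
  have h5 : ((nq z).toNat : ℤ) = nq z := Int.toNat_of_nonneg h0.le
  refine ⟨(nq z).toNat, by omega, ?_, ?_⟩
  · refine I.mem_of_dvd ⟨cjq a b ℤ z, ?_⟩ hz
    rw [mul_cjq]
    apply QuadraticAlgebra.ext
    · rw [QuadraticAlgebra.re_natCast]
      exact h5
    · rw [QuadraticAlgebra.im_natCast]
  · obtain ⟨k, hk⟩ := hn1
    rw [← Nat.isCoprime_iff_coprime, h5, hk]
    exact ⟨1, -k, by ring⟩

/-- congruence modulo `m` implies congruence modulo `I` -/
theorem mem_of_rdq {I : Ideal (Qf a b ℤ)} {m : ℕ} (hm : (m : Qf a b ℤ) ∈ I) {x y : Qf a b ℤ}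
    (h : Qfm a b (Int.castRingHom (ZMod m)) x = Qfm a b (Int.castRingHom (ZMod m)) y) :
    x - y ∈ I := by
  rw [← sub_eq_zero, ← map_sub] at h
  exact I.mem_of_dvd (E_ker a b m _ h) hm

theorem cjG_gam {M' : ℕ} {x : GQ a b} (h : x ∈ Gam a b M') : ∃ y, CjG M' x y := by
  refine ⟨1, ?_, x, h, ?_⟩
  · rw [Matrix.det_one]
    intro h1
    have h2 := congrArg QuadraticAlgebra.re h1
    have h3 : (1 : Qf a b ℤ).re = 1 := rfl
    have h4 : (0 : Qf a b ℤ).re = 0 := rfl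
    rw [h3, h4] at h2
    exact one_ne_zero h2
  · rw [Matrix.mul_one, Matrix.one_mul]

end

end Pool.Agent.F8.CG
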