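import Pool.Agent.Lib.MP_305fdd_al.F8.CG.MainP1

/-!
# MP_305fdd_al, congruence subgroups: the groups `Γ(I)`, `Γ₁(I)`, `Γ₀(I)` over `ℤ[w]`
-/

set_option autoImplicit false

namespace Pool.Agent.F8.CG

open Pool.Agent.F8.BG Pool.Agent.MP_305fdd_al Pool.Agent.Lib.MP_305fdd_al Pool.Agent.F8
open scoped QuadraticAlgebra

noncomputable section

variable {a b : ℤ}

theorem mem_G {I : Ideal (Qf a b ℤ)} {x : GQ a b} : x ∈ Cong.G I ↔ InI I x := by
  have key : x ∈ Cong.G I ↔ ∀ i j, x.val i j - (1 : Matrix (Fin 2) (Fin 2) (Qf a b ℤ)) i j ∈ I := by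
    constructor
    · intro h i j
      have h1 : Matrix.SpecialLinearGroup.map (Ideal.Quotient.mk I) x =
          Matrix.SpecialLinearGroup.map (Ideal.Quotient.mk I) 1 := by
        rw [map_one]; exact h
      have h2 : Ideal.Quotient.mk I (x.val i j) = Ideal.Quotient.mk I
          ((1 : Matrix (Fin 2) (Fin 2) (Qf a b ℤ)) i j) :=
        congrArg (fun y : SL2 (Qf a b ℤ ⧸ I) => y.val i j) h1
      exact Ideal.Quotient.eq.1 h2
    · intro h
      show Matrix.SpecialLinearGroup.map (Ideal.Quotient.mk I) x = 1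
      rw [← map_one (Matrix.SpecialLinearGroup.map (Ideal.Quotient.mk I))]
      exact Subtype.ext (Matrix.ext fun i j => Ideal.Quotient.eq.2 (h i j))
  rw [key]
  constructor
  · intro h
    refine ⟨h 0 0, ?_, ?_, h 1 1⟩
    · simpa using h 0 1
    · simpa using h 1 0
  · rintro ⟨h1, h2, h3, h4⟩ i j
    fin_cases i <;> fin_cases j
    · exact h1
    · simpa using h2
    · simpa using h3
    · exact h4

theorem gam_entries {m : ℕ} {x : GQ a b} (h : x ∈ Gam a b m) (i j : Fin 2) :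
    Qfm a b (Int.castRingHom (ZMod m)) (x.val i j) = Qfm a b (Int.castRingHom (ZMod m))
      ((1 : GQ a b).val i j) := by
  have h1 : rdq a b m x = rdq a b m 1 := by rw [map_one]; exact h
  exact congrArg (fun y : SL2 (Qf a b (ZMod m)) => y.val i j) h1

theorem gam_le_G {I : Ideal (Qf a b ℤ)} {m : ℕ} (hm : (m : Qf a b ℤ) ∈ I) :
    Gam a b m ≤ Cong.G I := by
  intro x hx
  rw [mem_G]
  have h := fun i j => mem_of_rdq hm (gam_entries hx i j)
  refine ⟨h 0 0, ?_, ?_, h 1 1⟩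
  · have := h 0 1
    have e : ((1 : GQ a b).val 0 1) = 0 := rfl
    rwa [e, sub_zero] at this
  · have := h 1 0
    have e : ((1 : GQ a b).val 1 0) = 0 := rfl
    rwa [e, sub_zero] at this

theorem G_le_G1 (I : Ideal (Qf a b ℤ)) : Cong.G I ≤ Cong.G1 I := by
  intro x hx
  obtain ⟨h1, -, h3, h4⟩ := mem_G.1 hx
  exact ⟨h1, h3, h4⟩

theorem G1_le_G0 (I : Ideal (Qf a b ℤ)) : Cong.G1 I ≤ Cong.G0 I := by
  intro x hx
  exact hx.2.1

theorem G_normal (I : Ideal (Qf a b ℤ)) (g x : GQ a b) (hx : x ∈ Cong.G I) :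
    g * x * g⁻¹ ∈ Cong.G I :=
  (MonoidHom.normal_ker _).conj_mem x hx g

theorem eU_mem_G {I : Ideal (Qf a b ℤ)} {s : Qf a b ℤ} (hs : s ∈ I) : eU s ∈ Cong.G I := by
  rw [mem_G]
  refine ⟨?_, hs, I.zero_mem, ?_⟩
  · show (1 : Qf a b ℤ) - 1 ∈ I
    rw [sub_self]; exact I.zero_mem
  · show (1 : Qf a b ℤ) - 1 ∈ I
    rw [sub_self]; exact I.zero_mem

theorem eV_mem_G {I : Ideal (Qf a b ℤ)} {s : Qf a b ℤ} (hs : s ∈ I) : eV s ∈ Cong.G I := by
  rw [mem_G]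
  refine ⟨?_, I.zero_mem, hs, ?_⟩
  · show (1 : Qf a b ℤ) - 1 ∈ I
    rw [sub_self]; exact I.zero_mem
  · show (1 : Qf a b ℤ) - 1 ∈ I
    rw [sub_self]; exact I.zero_mem

theorem eU_mem_G1 (I : Ideal (Qf a b ℤ)) (s : Qf a b ℤ) : eU s ∈ Cong.G1 I := by
  refine ⟨?_, I.zero_mem, ?_⟩
  · show (1 : Qf a b ℤ) - 1 ∈ I
    rw [sub_self]; exact I.zero_mem
  · show (1 : Qf a b ℤ) - 1 ∈ I
    rw [sub_self]; exact I.zero_mem

/-! ### Generation -/

theorem gen_G (hn : b ^ 2 + 4 * a < 0) {I : Ideal (Qf a b ℤ)} (hI : I ≠ ⊥) {M' : ℕ}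
    (hM : M' ≠ 0) : GenS (Cong.G I) M' := by
  obtain ⟨m, hm, hmI⟩ := ex_nat hn hI
  intro x hx
  have hmM : (((m * M' : ℕ)) : Qf a b ℤ) ∈ I := by
    rw [Nat.cast_mul]; exact I.mul_mem_right _ hmI
  refine Subgroup.closure_mono ?_ (p_XgnI a b I (m * M') (Nat.mul_ne_zero hm hM) hmM x
    (mem_G.1 hx))
  rintro z (hz | ⟨g, s, hs, rfl⟩)
  · exact ⟨gam_le_G hmM hz, cjG_gam (gam_le (Dvd.intro_left m rfl) hz)⟩
  · exact ⟨G_normal I g _ (eU_mem_G hs), (p_Xuni1 a b M' hM hn g s).1⟩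

theorem gen_G1 (hn : b ^ 2 + 4 * a < 0) {I : Ideal (Qf a b ℤ)} (hI : I ≠ ⊥) {M' : ℕ}
    (hM : M' ≠ 0) : GenS (Cong.G1 I) M' := by
  obtain ⟨m, hm, hmI⟩ := ex_nat hn hI
  intro x hx
  have hmM : (((m * M' : ℕ)) : Qf a b ℤ) ∈ I := by
    rw [Nat.cast_mul]; exact I.mul_mem_right _ hmI
  refine Subgroup.closure_mono ?_ (p_Xgn1 a b I (m * M') (Nat.mul_ne_zero hm hM) hmM x
    hx.1 hx.2.1 hx.2.2)
  rintro z ((hz | ⟨s, rfl⟩) | ⟨s, hs, rfl⟩)
  · exact ⟨G_le_G1 I (gam_le_G hmM hz), cjG_gam (gam_le (Dvd.intro_left m rfl) hz)⟩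
  · have h := (p_Xuni1 a b M' hM hn 1 s).1
    rw [one_mul, inv_one, mul_one] at h
    exact ⟨eU_mem_G1 I s, h⟩
  · have h := (p_Xuni1 a b M' hM hn 1 s).2
    rw [one_mul, inv_one, mul_one] at h
    exact ⟨G_le_G1 I (eV_mem_G hs), h⟩

/-- groups of level prime to `M'` -/
theorem gen_cop (hn : b ^ 2 + 4 * a < 0) {S : Subgroup (GQ a b)} {m M' : ℕ}
    (hM : M' ≠ 0) (hc : Nat.Coprime m M') (hS : Gam a b m ≤ S) : GenS S M' := by
  intro x hx
  obtain ⟨u, hu, hxu⟩ := p_Xgn0 a b m M' hM hc x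
  have hgm : ∀ s : Qf a b ℤ, eU ((m : Qf a b ℤ) * s) ∈ S ∧ eV ((m : Qf a b ℤ) * s) ∈ S := by
    intro s
    have h0 : Qfm a b (Int.castRingHom (ZMod m)) ((m : Qf a b ℤ) * s) = 0 := by
      rw [map_mul, map_natCast]
      have h4 : ((m : ℕ) : Qf a b (ZMod m)) = 0 := by
        apply QuadraticAlgebra.ext
        · rw [QuadraticAlgebra.re_natCast]; simp
        · rw [QuadraticAlgebra.im_natCast]; rfl
      rw [h4, zero_mul]
    constructor
    · apply hS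
      show rdq a b m _ = 1
      unfold rdq
      rw [eU_map, h0]
      exact AB.mx_one.symm
    · apply hS
      show rdq a b m _ = 1
      unfold rdq
      rw [eV_map, h0]
      exact AB.mx_one.symm
  have hu' : u ∈ Subgroup.closure {x | x ∈ S ∧ ∃ y, CjG M' x y} := by
    refine Subgroup.closure_mono ?_ hu
    rintro z ⟨s, rfl | rfl⟩
    · have h := (p_Xuni1 a b M' hM hn 1 ((m : Qf a b ℤ) * s)).1
      rw [one_mul, inv_one, mul_one] at h
      exact ⟨(hgm s).1, h⟩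
    · have h := (p_Xuni1 a b M' hM hn 1 ((m : Qf a b ℤ) * s)).2
      rw [one_mul, inv_one, mul_one] at h
      exact ⟨(hgm s).2, h⟩
  have huS : u ∈ S := by
    have h : Subgroup.closure {x | x ∈ S ∧ ∃ y, CjG M' x y} ≤ S := by
      rw [Subgroup.closure_le]
      exact fun z hz => hz.1
    exact h hu'
  have h1 : x = x * u⁻¹ * u := by rw [inv_mul_cancel_right]
  rw [h1]
  exact mul_mem (Subgroup.subset_closure ⟨mul_mem hx (inv_mem huS), cjG_gam hxu⟩) hu'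

/-! ### Stability under the diagonal matrices -/

/-- the diagonal conjugation -/
theorem ex_diag (m : ℕ) [NeZero m] (e : (Qf a b (ZMod m))ˣ) (x : GQ a b) :
    ∃ y : GQ a b, (rdq a b m y).val =
    !![(rdq a b m x).val 0 0, e.val * (rdq a b m x).val 0 1;
      (e⁻¹).val * (rdq a b m x).val 1 0, (rdq a b m x).val 1 1] := by
  have hd := G.SL_det (rdq a b m x)
  have he : e.val * (e⁻¹).val = 1 := by rw [← Units.val_mul, mul_inv_cancel, Units.val_one]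
  obtain ⟨y, hy⟩ := p_Csrd a b m ⟨!![(rdq a b m x).val 0 0, e.val * (rdq a b m x).val 0 1;
      (e⁻¹).val * (rdq a b m x).val 1 0, (rdq a b m x).val 1 1], by
    rw [Matrix.det_fin_two_of]
    linear_combination hd - (rdq a b m x).val 0 1 * (rdq a b m x).val 1 0 * he⟩
  exact ⟨y, by rw [hy]⟩

theorem dg_gen (S : Subgroup (GQ a b)) (m : ℕ) [NeZero m]
    (h : ∀ x ∈ S, ∀ y : GQ a b, ∀ e : (Qf a b (ZMod m))ˣ, (rdq a b m y).val =
    !![(rdq a b m x).val 0 0, e.val * (rdq a b m x).val 0 1;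
      (e⁻¹).val * (rdq a b m x).val 1 0, (rdq a b m x).val 1 1] → y ∈ S) : DgS S m := by
  intro e x hx
  obtain ⟨y, hy⟩ := ex_diag m e x
  exact ⟨y, h x hx y e hy, hy⟩

/-- lifts of the unit -/
theorem dg_mem {I : Ideal (Qf a b ℤ)} {m : ℕ} (hm : (m : Qf a b ℤ) ∈ I) {x y : Qf a b ℤ}
    (e : Qf a b (ZMod m)) (hx : x ∈ I)
    (h : Qfm a b (Int.castRingHom (ZMod m)) y = e * Qfm a b (Int.castRingHom (ZMod m)) x) :
    y ∈ I := by
  obtain ⟨e', rfl⟩ := E_surj a b m e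
  rw [← map_mul] at h
  have h1 := mem_of_rdq hm h
  have h2 : y = (y - e' * x) + e' * x := by ring
  rw [h2]
  exact I.add_mem h1 (I.mul_mem_left _ hx)

theorem dg_G {I : Ideal (Qf a b ℤ)} {m : ℕ} [NeZero m] (hm : (m : Qf a b ℤ) ∈ I) :
    DgS (Cong.G I) m := by
  apply dg_gen
  intro x hx y e h
  have h' : ∀ i j, (rdq a b m y).val i j = (!![(rdq a b m x).val 0 0, e.val * (rdq a b m x).val 0 1;
      (e⁻¹).val * (rdq a b m x).val 1 0, (rdq a b m x).val 1 1] :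
      Matrix (Fin 2) (Fin 2) (Qf a b (ZMod m))) i j := fun i j => by rw [h]
  obtain ⟨h1, h2, h3, h4⟩ := mem_G.1 hx
  rw [mem_G]
  refine ⟨?_, dg_mem hm e.val h2 (h' 0 1), dg_mem hm (e⁻¹).val h3 (h' 1 0), ?_⟩
  · have h5 := mem_of_rdq hm (h' 0 0)
    have h6 : y.val 0 0 - 1 = (y.val 0 0 - x.val 0 0) + (x.val 0 0 - 1) := by ring
    rw [h6]
    exact I.add_mem h5 h1
  · have h5 := mem_of_rdq hm (h' 1 1)
    have h6 : y.val 1 1 - 1 = (y.val 1 1 - x.val 1 1) + (x.val 1 1 - 1) := by ring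
    rw [h6]
    exact I.add_mem h5 h4

theorem dg_G1 {I : Ideal (Qf a b ℤ)} {m : ℕ} [NeZero m] (hm : (m : Qf a b ℤ) ∈ I) :
    DgS (Cong.G1 I) m := by
  apply dg_gen
  intro x hx y e h
  have h' : ∀ i j, (rdq a b m y).val i j = (!![(rdq a b m x).val 0 0, e.val * (rdq a b m x).val 0 1;
      (e⁻¹).val * (rdq a b m x).val 1 0, (rdq a b m x).val 1 1] :
      Matrix (Fin 2) (Fin 2) (Qf a b (ZMod m))) i j := fun i j => by rw [h]
  obtain ⟨h1, h3, h4⟩ := hx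
  refine ⟨?_, dg_mem hm (e⁻¹).val h3 (h' 1 0), ?_⟩
  · have h5 := mem_of_rdq hm (h' 0 0)
    have h6 : y.val 0 0 - 1 = (y.val 0 0 - x.val 0 0) + (x.val 0 0 - 1) := by ring
    rw [h6]
    exact I.add_mem h5 h1
  · have h5 := mem_of_rdq hm (h' 1 1)
    have h6 : y.val 1 1 - 1 = (y.val 1 1 - x.val 1 1) + (x.val 1 1 - 1) := by ring
    rw [h6]
    exact I.add_mem h5 h4

theorem dg_G0 {I : Ideal (Qf a b ℤ)} {m : ℕ} [NeZero m] (hm : (m : Qf a b ℤ) ∈ I) :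
    DgS (Cong.G0 I) m := by
  apply dg_gen
  intro x hx y e h
  have h' : ∀ i j, (rdq a b m y).val i j = (!![(rdq a b m x).val 0 0, e.val * (rdq a b m x).val 0 1;
      (e⁻¹).val * (rdq a b m x).val 1 0, (rdq a b m x).val 1 1] :
      Matrix (Fin 2) (Fin 2) (Qf a b (ZMod m))) i j := fun i j => by rw [h]
  exact dg_mem hm (e⁻¹).val hx (h' 1 0)

end

end Pool.Agent.F8.CG
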