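import Pool.Agent.Lib.MP_305fdd_al.F8.CG.MainP2
import Pool.Agent.Lib.MP_305fdd_al.F8.CG.DefsBlk

/-!
# MP_305fdd_al, congruence subgroups of `PSL₂(R)` for a ring `R` isomorphic to `ℤ[w]`
-/

set_option autoImplicit false

namespace Pool.Agent.F8.CG

open Pool.Agent.F8.BG Pool.Agent.MP_305fdd_al Pool.Agent.Lib.MP_305fdd_al Pool.Agent.F8
open scoped QuadraticAlgebra

noncomputable section

/-- what is needed for the ring `ℤ[w]` -/
structure DatR (a b : ℤ) (M' : ℕ) : Prop where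
  h5 : Five a b
  hd : HasDat a b
  ne : M' ≠ 0
  uni : Uni a b M'

theorem DatR.neg {a b : ℤ} {M' : ℕ} (H : DatR a b M') : b ^ 2 + 4 * a < 0 := by
  obtain ⟨ι, _, α, N, w, M, c, g, G₀, η, h⟩ := H.hd
  exact h.neg

/-! ### The center of `SL₂` of a domain -/

theorem scal_neg {R : Type} [CommRing R] : Matrix.scalar (Fin 2) (-1 : R) = -1 := by
  rw [map_neg, map_one]

theorem mk_eq_one {R : Type} [CommRing R] [IsDomain R] (x : SL2 R) :
    (QuotientGroup.mk' (Subgroup.center (SL2 R)) x) = 1 ↔ x.val = 1 ∨ x.val = -1 := by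
  rw [QuotientGroup.mk'_apply, QuotientGroup.eq_one_iff, Matrix.SpecialLinearGroup.mem_center_iff]
  constructor
  · rintro ⟨r, hr, hx⟩
    rw [Fintype.card_fin] at hr
    have h : r = 1 ∨ r = -1 := by
      have h1 : (r - 1) * (r + 1) = 0 := by linear_combination hr
      rcases mul_eq_zero.1 h1 with h2 | h2
      · exact Or.inl (sub_eq_zero.1 h2)
      · exact Or.inr (eq_neg_of_add_eq_zero_left h2)
    rw [← hx]
    rcases h with rfl | rfl
    · left; simp
    · right; exact scal_neg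
  · rintro (h | h)
    · exact ⟨1, one_pow _, by rw [h]; simp⟩
    · exact ⟨-1, by simp, by rw [h]; exact scal_neg⟩

variable {a b : ℤ} {M' : ℕ} {R : Type} [CommRing R]

theorem SLm_inj (e : Qf a b ℤ ≃+* R) (x : GQ a b) :
    (SLm (e : Qf a b ℤ →+* R) x).val = 1 ↔ x.val = 1 := by
  constructor
  · intro h
    refine Matrix.ext fun i j => ?_
    have h1 : e (x.val i j) = (1 : Matrix (Fin 2) (Fin 2) R) i j := congrFun (congrFun h i) j
    apply e.injective
    rw [h1]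
    by_cases hij : i = j
    · subst hij; simp
    · simp [hij]
  · intro h
    have h1 : x = 1 := Subtype.ext h
    rw [h1, map_one]
    rfl

theorem SLm_neg (e : Qf a b ℤ →+* R) (x : GQ a b) : SLm e (-x) = -SLm e x := by
  apply Subtype.ext
  refine Matrix.ext fun i j => ?_
  show e (-(x.val i j)) = -(e (x.val i j))
  rw [map_neg]

theorem SLm_inj' (e : Qf a b ℤ ≃+* R) (x : GQ a b) :
    (SLm (e : Qf a b ℤ →+* R) x).val = -1 ↔ x.val = -1 := by
  have h := SLm_inj e (-x)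
  rw [SLm_neg] at h
  have h1 : (-(SLm (e : Qf a b ℤ →+* R) x)).val = -(SLm (e : Qf a b ℤ →+* R) x).val := rfl
  have h2 : (-x).val = -x.val := rfl
  rw [h1, h2, neg_eq_iff_eq_neg, neg_eq_iff_eq_neg] at h
  exact h

theorem mk_neg (x : SL2 R) : (QuotientGroup.mk' (Subgroup.center (SL2 R)) (-x)) =
    QuotientGroup.mk' (Subgroup.center (SL2 R)) x := by
  have h : -x = x * -1 := by rw [mul_neg, mul_one]
  rw [h, map_mul]
  have h1 : (QuotientGroup.mk' (Subgroup.center (SL2 R)) (-1)) = 1 := by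
    rw [QuotientGroup.mk'_apply, QuotientGroup.eq_one_iff,
      Matrix.SpecialLinearGroup.mem_center_iff]
    exact ⟨-1, by simp, by rw [scal_neg]; rfl⟩
  rw [h1, mul_one]

/-- the projection of `± S` to the image in `PSL₂(R)` -/
def prP (e : Qf a b ℤ ≃+* R) (S : Subgroup (GQ a b)) (D : Subgroup (SL2 R))
    (hD : ∀ x : GQ a b, SLm (e : Qf a b ℤ →+* R) x ∈ D ↔ x ∈ S) : pmS S →* Cong.P D :=
  (((QuotientGroup.mk' (Subgroup.center (SL2 R))).comp (SLm (e : Qf a b ℤ →+* R))).comp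
    (pmS S).subtype).codRestrict (Cong.P D) (by
      rintro ⟨x, hx⟩
      show QuotientGroup.mk' (Subgroup.center (SL2 R)) (SLm (e : Qf a b ℤ →+* R) x) ∈ Cong.P D
      rcases hx with hx | hx
      · exact ⟨_, (hD x).2 hx, rfl⟩
      · refine ⟨_, (hD (-x)).2 hx, ?_⟩
        rw [SLm_neg, mk_neg])

theorem SLm_surj (e : Qf a b ℤ ≃+* R) : Function.Surjective (SLm (e : Qf a b ℤ →+* R)) := by
  intro y
  refine ⟨SLm (e.symm : R →+* Qf a b ℤ) y, Subtype.ext (Matrix.ext fun i j => ?_)⟩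
  show e (e.symm (y.val i j)) = y.val i j
  exact e.apply_symm_apply _

theorem prP_surj (e : Qf a b ℤ ≃+* R) (S : Subgroup (GQ a b)) (D : Subgroup (SL2 R))
    (hD : ∀ x : GQ a b, SLm (e : Qf a b ℤ →+* R) x ∈ D ↔ x ∈ S) :
    Function.Surjective (prP e S D hD) := by
  rintro ⟨_, y, hy, rfl⟩
  obtain ⟨x, rfl⟩ := SLm_surj e y
  exact ⟨⟨x, Or.inl ((hD x).1 hy)⟩, Subtype.ext rfl⟩

theorem prP_ker (e : Qf a b ℤ ≃+* R) (hdom : IsDomain R) (S : Subgroup (GQ a b))
    (D : Subgroup (SL2 R)) (hD : ∀ x : GQ a b, SLm (e : Qf a b ℤ →+* R) x ∈ D ↔ x ∈ S)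
    (x : pmS S) : prP e S D hD x = 1 ↔ x.val = 1 ∨ x.val = -1 := by
  have h1 : x.val = 1 ↔ x.val.val = 1 := Subtype.ext_iff
  have h2 : x.val = -1 ↔ x.val.val = -1 := Subtype.ext_iff
  rw [h1, h2, ← SLm_inj e, ← SLm_inj' e, ← mk_eq_one]
  constructor
  · intro h
    exact congrArg Subtype.val h
  · intro h
    exact Subtype.ext h

/-- RIGIDITY of the image in `PSL₂(R)` -/
theorem P_rigid (B : Blk) (H : DatR a b M') (e : Qf a b ℤ ≃+* R) (S : Subgroup (GQ a b))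
    {m₀ : ℕ} [NeZero m₀] (hS : Gam a b m₀ ≤ S) (hgen : GenS S M') (hdg : DgS S m₀)
    (D : Subgroup (SL2 R)) (hD : ∀ x : GQ a b, SLm (e : Qf a b ℤ →+* R) x ∈ D ↔ x ∈ S) :
    ProfinitelyRigid (Cong.P D) := by
  have : IsDomain (Qf a b ℤ) := Qf_domain H.neg
  have hdom : IsDomain R := e.symm.toMulEquiv.isDomain (Qf a b ℤ)
  exact main_psl B.e B.f B.con B.cl B.inj B.img B.psl B.inv B.tr B.fg H.h5 H.hd H.ne H.uni
    (pmS S) m₀ (NeZero.ne m₀) (hS.trans (le_pmS S)) (HE_pmS hgen) (HZ_pmS hdg) (neg_mem_pmS S)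
    (Cong.P D) (prP e S D hD) (prP_surj e S D hD) (prP_ker e hdom S D hD)

end

end Pool.Agent.F8.CG
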