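import Pool.Agent.Lib.MP_305fdd_al.F8.CG.StmR

/-!
# MP_305fdd_al, congruence subgroups: an annihilator (`R_ann`)
-/

set_option autoImplicit false

namespace Pool.Agent.F8.CG

open Pool.Agent.F8.BG Pool.Agent.Lib.MP_305fdd_al Pool.Agent.F8

open scoped commutatorElement

noncomputable section

/-! ### Finite normal generation of the kernel -/

theorem ann_comm {Λ : Type} [Group Λ] (S : Set Λ) (hS : Subgroup.closure S = ⊤) :
    commutator Λ ≤ Subgroup.normalClosure (Set.image2 (fun s s' => ⁅s, s'⁆) S S) := by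
  set N := Subgroup.normalClosure (Set.image2 (fun s s' => ⁅s, s'⁆) S S) with hN
  have hk : Subgroup.closure ((QuotientGroup.mk' N) '' S) = ⊤ := by
    rw [← MonoidHom.map_closure, hS, ← MonoidHom.range_eq_map, MonoidHom.range_eq_top]
    exact QuotientGroup.mk'_surjective N
  have hcomm : ∀ x ∈ (QuotientGroup.mk' N) '' S, ∀ y ∈ (QuotientGroup.mk' N) '' S,
      x * y = y * x := by
    rintro _ ⟨s, hs, rfl⟩ _ ⟨s', hs', rfl⟩
    have h1 : (QuotientGroup.mk' N) ⁅s, s'⁆ = 1 :=
      (QuotientGroup.eq_one_iff _).mpr (Subgroup.subset_normalClosure ⟨s, hs, s', hs', rfl⟩)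
    rw [map_commutatorElement] at h1
    exact commutatorElement_eq_one_iff_mul_comm.mp h1
  have hall : ∀ x y : Λ ⧸ N, x * y = y * x := by
    intro x y
    have hx : x ∈ Subgroup.closure ((QuotientGroup.mk' N) '' S) := by
      rw [hk]
      exact Subgroup.mem_top x
    have hy : y ∈ Subgroup.closure ((QuotientGroup.mk' N) '' S) := by
      rw [hk]
      exact Subgroup.mem_top y
    have h1 := (Subgroup.closureCommGroupOfComm hcomm).mul_comm ⟨x, hx⟩ ⟨y, hy⟩
    exact congrArg Subtype.val h1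
  rw [commutator_def, Subgroup.commutator_le]
  intro g _ h _
  have h1 : (QuotientGroup.mk' N) ⁅g, h⁆ = 1 := by
    rw [map_commutatorElement, commutatorElement_eq_one_iff_mul_comm]
    exact hall _ _
  exact (QuotientGroup.eq_one_iff _).mp h1

theorem ann_fg {Λ : Type} [Group Λ] [Group.FG Λ] {Z : Type} [CommGroup Z] (ν : Λ →* Z) :
    ∃ T : Set Λ, T.Finite ∧ T ⊆ ν.ker ∧ ν.ker ≤ Subgroup.normalClosure T := by
  obtain ⟨S, hS, hfin⟩ := Group.fg_iff.mp (inferInstance : Group.FG Λ)
  have : Finite S := hfin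
  have := Fintype.ofFinite S
  let v : S → Additive (Abelianization Λ) := fun s => Additive.ofMul (Abelianization.of (s : Λ))
  let θ : (S → ℤ) →ₗ[ℤ] Additive (Abelianization Λ) := Fintype.linearCombination ℤ v
  let νb : Additive (Abelianization Λ) →ₗ[ℤ] Additive Z :=
    (MonoidHom.toAdditive (Abelianization.lift ν)).toIntLinearMap
  have hνb : ∀ l : Λ, νb (Additive.ofMul (Abelianization.of l)) = Additive.ofMul (ν l) :=
    fun l => rfl
  obtain ⟨κ, hκ⟩ := IsNoetherian.noetherian (LinearMap.ker (νb ∘ₗ θ))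
  have hof : ∀ m : Additive (Abelianization Λ), ∃ l : Λ,
      Additive.ofMul (Abelianization.of l) = m := by
    intro m
    obtain ⟨l, hl⟩ := QuotientGroup.mk_surjective (Additive.toMul m)
    exact ⟨l, congrArg Additive.ofMul hl⟩
  choose t ht using fun k : S → ℤ => hof (θ k)
  have hθ : ∀ l : Λ, ∃ a, θ a = Additive.ofMul (Abelianization.of l) := by
    intro l
    have h0 : Additive.ofMul (Abelianization.of l) ∈ LinearMap.range θ := by
      rw [Fintype.range_linearCombination]
      have hl : l ∈ Subgroup.closure S := by rw [hS]; exact Subgroup.mem_top l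
      induction hl using Subgroup.closure_induction with
      | mem x hx => exact Submodule.subset_span ⟨⟨x, hx⟩, rfl⟩
      | one => rw [map_one]; exact Submodule.zero_mem _
      | mul x y _ _ hx hy => rw [map_mul]; exact Submodule.add_mem _ hx hy
      | inv x _ hx => rw [map_inv]; exact Submodule.neg_mem _ hx
    exact h0
  refine ⟨Set.image2 (fun s s' => ⁅s, s'⁆) S S ∪ t '' (κ : Set (S → ℤ)), ?_, ?_, ?_⟩
  · exact (hfin.image2 _ hfin).union (κ.finite_toSet.image _)
  · rintro x (⟨s, _, s', _, rfl⟩ | ⟨k, hk, rfl⟩)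
    · change ν ⁅s, s'⁆ = 1
      rw [map_commutatorElement, commutatorElement_eq_one_iff_mul_comm]
      exact mul_comm _ _
    · have h1 : k ∈ LinearMap.ker (νb ∘ₗ θ) := by
        rw [← hκ]
        exact Submodule.subset_span hk
      have h2 : νb (θ k) = 0 := h1
      rw [← ht k, hνb] at h2
      exact h2
  · intro x hx
    obtain ⟨a, ha⟩ := hθ x
    have h1 : a ∈ LinearMap.ker (νb ∘ₗ θ) := by
      change νb (θ a) = 0
      rw [ha, hνb, show ν x = 1 from hx]
      rfl
    rw [← hκ] at h1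
    have h2 : ∀ a ∈ Submodule.span ℤ (κ : Set (S → ℤ)), ∃ c ∈ Subgroup.normalClosure
        (Set.image2 (fun s s' => ⁅s, s'⁆) S S ∪ t '' (κ : Set (S → ℤ))),
        Additive.ofMul (Abelianization.of c) = θ a := by
      intro a ha
      induction ha using Submodule.span_induction with
      | mem k hk =>
        exact ⟨t k, Subgroup.subset_normalClosure (Or.inr ⟨k, hk, rfl⟩), ht k⟩
      | zero => exact ⟨1, Subgroup.one_mem _, by rw [map_one, map_zero]; rfl⟩
      | add a b _ _ hA hB =>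
        obtain ⟨c, hc, hc'⟩ := hA
        obtain ⟨d, hd, hd'⟩ := hB
        exact ⟨c * d, Subgroup.mul_mem _ hc hd, by rw [map_mul, map_add, ← hc', ← hd']; rfl⟩
      | smul n a _ hA =>
        obtain ⟨c, hc, hc'⟩ := hA
        exact ⟨c ^ n, Subgroup.zpow_mem _ hc n, by rw [map_zpow, map_smul, ← hc']; rfl⟩
    obtain ⟨c, hc, hc'⟩ := h2 a h1
    rw [ha] at hc'
    have h3 : Abelianization.of c = Abelianization.of x := Additive.ofMul.injective hc'
    have h4 : x * c⁻¹ ∈ commutator Λ := by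
      rw [← Abelianization.ker_of, MonoidHom.mem_ker, map_mul, map_inv, h3, mul_inv_cancel]
    have h5 : x * c⁻¹ ∈ Subgroup.normalClosure
        (Set.image2 (fun s s' => ⁅s, s'⁆) S S ∪ t '' (κ : Set (S → ℤ))) :=
      Subgroup.normalClosure_mono Set.subset_union_left (ann_comm S hS h4)
    have h6 := Subgroup.mul_mem _ h5 hc
    rwa [inv_mul_cancel_right] at h6

/-! ### The module -/

section module

variable {Λ : Type} [Group Λ] (ν : Λ →* Multiplicative Zh)

/-- conjugation on the kernel -/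
def ann_cK (g : Λ) : ν.ker →* ν.ker where
  toFun x := ⟨g * x * g⁻¹, (MonoidHom.normal_ker ν).conj_mem _ x.2 g⟩
  map_one' := Subtype.ext (by simp)
  map_mul' x y := Subtype.ext (by simp [mul_assoc])

/-- the abelianisation of the kernel -/
abbrev AnnM : Type := Additive (Abelianization ν.ker)

/-- the class of an element of the kernel -/
def ann_cl (x : ν.ker) : AnnM ν := Additive.ofMul (Abelianization.of x)

theorem ann_cl_surj (m : AnnM ν) : ∃ x, ann_cl ν x = m := by
  obtain ⟨l, hl⟩ := QuotientGroup.mk_surjective (Additive.toMul m)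
  exact ⟨l, congrArg Additive.ofMul hl⟩

theorem ann_cl_mul (x y : ν.ker) : ann_cl ν (x * y) = ann_cl ν x + ann_cl ν y := rfl

/-- conjugation on the abelianisation -/
def ann_rho0 (g : Λ) : Module.End ℤ (AnnM ν) :=
  (MonoidHom.toAdditive (Abelianization.map (ann_cK ν g))).toIntLinearMap

theorem ann_rho0_cl (g : Λ) (x : ν.ker) :
    ann_rho0 ν g (ann_cl ν x) = ann_cl ν (ann_cK ν g x) := rfl

theorem ann_rho0_ker (g : Λ) (hg : ν g = 1) : ann_rho0 ν g = 1 := by
  apply LinearMap.ext
  intro m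
  obtain ⟨x, rfl⟩ := ann_cl_surj ν m
  rw [ann_rho0_cl, Module.End.one_apply]
  have h1 : ann_cK ν g x = (⟨g, hg⟩ : ν.ker) * x * (⟨g, hg⟩ : ν.ker)⁻¹ := rfl
  have h2 : Abelianization.of (ann_cK ν g x) = Abelianization.of x := by
    rw [h1]
    generalize (⟨g, hg⟩ : ν.ker) = y
    rw [map_mul, map_mul, map_inv, mul_comm (Abelianization.of y), mul_inv_cancel_right]
  exact congrArg Additive.ofMul h2

theorem ann_rho0_mul (g h : Λ) : ann_rho0 ν (g * h) = ann_rho0 ν g * ann_rho0 ν h := by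
  apply LinearMap.ext
  intro m
  obtain ⟨x, rfl⟩ := ann_cl_surj ν m
  rw [Module.End.mul_apply, ann_rho0_cl, ann_rho0_cl, ann_rho0_cl]
  congr 1
  apply Subtype.ext
  change g * h * x * (g * h)⁻¹ = g * (h * x * h⁻¹) * g⁻¹
  group

theorem ann_rho0_congr {g h : Λ} (e : ν g = ν h) : ann_rho0 ν g = ann_rho0 ν h := by
  have h1 : h = (h * g⁻¹) * g := by group
  rw [h1, ann_rho0_mul, ann_rho0_ker ν (h * g⁻¹) (by rw [map_mul, map_inv, e, mul_inv_cancel]),
    one_mul]

/-- a preimage -/
def ann_s (z : ν.range) : Λ := z.2.choose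

theorem ann_s_spec (z : ν.range) : ν (ann_s ν z) = z := z.2.choose_spec

/-- the action of the image of `ν` -/
def ann_rho : ν.range →* Module.End ℤ (AnnM ν) where
  toFun z := ann_rho0 ν (ann_s ν z)
  map_one' := ann_rho0_ker ν _ (ann_s_spec ν 1)
  map_mul' z z' := by
    rw [← ann_rho0_mul]
    apply ann_rho0_congr
    rw [map_mul, ann_s_spec, ann_s_spec, ann_s_spec]
    rfl

theorem ann_rho_eq (z : ν.range) (g : Λ) (h : ν g = z) : ann_rho ν z = ann_rho0 ν g :=
  ann_rho0_congr ν (by rw [ann_s_spec, h])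

/-- the ring homomorphism to the endomorphisms -/
def ann_Phi : MonoidAlgebra ℤ ν.range →ₐ[ℤ] Module.End ℤ (AnnM ν) :=
  MonoidAlgebra.lift ℤ (Module.End ℤ (AnnM ν)) ν.range (ann_rho ν)

/-- the module over the group ring -/
@[reducible] def ann_mod : Module (MonoidAlgebra ℤ ν.range) (AnnM ν) :=
  Module.compHom (AnnM ν) (ann_Phi ν).toRingHom

theorem ann_single (g : Λ) (x : ν.ker) :
    ann_Phi ν (MonoidAlgebra.single (⟨ν g, g, rfl⟩ : ν.range) 1) (ann_cl ν x) =
      ann_cl ν (ann_cK ν g x) := by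
  unfold ann_Phi
  rw [MonoidAlgebra.lift_single, one_smul, ann_rho_eq ν _ g rfl, ann_rho0_cl]

theorem ann_finite [Group.FG Λ] : letI := ann_mod ν
    (⊤ : Submodule (MonoidAlgebra ℤ ν.range) (AnnM ν)).FG := by
  letI := ann_mod ν
  obtain ⟨T, hT, hTK, hK⟩ := ann_fg ν
  have hfin : (Set.range (fun t : T => ann_cl ν ⟨t, hTK t.2⟩)).Finite := by
    haveI : Finite T := hT
    exact Set.finite_range _
  refine Submodule.fg_def.mpr ⟨_, hfin, ?_⟩
  rw [eq_top_iff]
  intro m _
  obtain ⟨x, rfl⟩ := ann_cl_surj ν m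
  have hle : Subgroup.closure (Group.conjugatesOfSet T) ≤ ν.ker := by
    have h1 : Subgroup.normalClosure T ≤ ν.ker := Subgroup.normalClosure_le_normal hTK
    exact h1
  have key : ∀ l ∈ Subgroup.closure (Group.conjugatesOfSet T), ∀ h : l ∈ ν.ker,
      ann_cl ν ⟨l, h⟩ ∈ Submodule.span (MonoidAlgebra ℤ ν.range)
        (Set.range (fun t : T => ann_cl ν ⟨t, hTK t.2⟩)) := by
    intro l hl
    induction hl using Subgroup.closure_induction with
    | mem l hl =>
      intro h
      rw [Group.mem_conjugatesOfSet_iff] at hl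
      obtain ⟨t, ht, hc⟩ := hl
      rw [isConj_iff] at hc
      obtain ⟨c, rfl⟩ := hc
      have h1 := ann_single ν c ⟨t, hTK ht⟩
      have h2 : ann_cl ν ⟨c * t * c⁻¹, h⟩ = ann_cl ν (ann_cK ν c ⟨t, hTK ht⟩) := rfl
      rw [h2, ← h1]
      exact Submodule.smul_mem _ (MonoidAlgebra.single (⟨ν c, c, rfl⟩ : ν.range) (1 : ℤ))
        (Submodule.subset_span ⟨⟨t, ht⟩, rfl⟩)
    | one =>
      intro h
      exact Submodule.zero_mem _
    | mul x y hx hy hx' hy' =>
      intro h
      exact Submodule.add_mem _ (hx' (hle hx)) (hy' (hle hy))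
    | inv x hx hx' =>
      intro h
      exact Submodule.neg_mem _ (hx' (hle hx))
  exact key x (hK x.2) x.2

end module

theorem ann_dual2 {q : ℕ} [Fact q.Prime] {V : Type} [AddCommGroup V] [Module (ZMod q) V]
    (v : V) (hv : v ≠ 0) : ∃ φ : V →+ ZMod q, φ v ≠ 0 := by
  obtain ⟨φ, hφ⟩ := Module.Projective.exists_dual_ne_zero (ZMod q) hv
  exact ⟨φ.toAddMonoidHom, hφ⟩

theorem ann_dual {q : ℕ} [Fact q.Prime] {V : Type} [AddCommGroup V] (hq : ∀ v : V, q • v = 0)
    (v : V) (hv : v ≠ 0) : ∃ φ : V →+ ZMod q, φ v ≠ 0 :=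
  @ann_dual2 q _ V _ (AddCommGroup.zmodModule hq) v hv

theorem p_ann : R_ann := by
  classical
  intro Λ _ _ ν q _ ψ hψ hψ1 hz
  -- (b) homomorphisms to `ZMod q` are zero
  obtain ⟨z₀, hz₀⟩ : ∃ z₀, ψ z₀ ≠ 1 := by
    by_contra h
    push Not at h
    exact hψ1 (MonoidHom.ext h)
  have hb : ∀ f : ν.ker → ZMod q, (∀ x y, f (x * y) = f x + f y) →
      (∀ g x, f (ann_cK ν g x) = (ψ g : ZMod q) * f x) → ∀ x, f x = 0 := by
    intro f hf hfg x
    have hc : ∀ l : Λ, l * z₀ * l⁻¹ * z₀⁻¹ ∈ ν.ker := by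
      intro l
      rw [MonoidHom.mem_ker]
      simp only [map_mul, map_inv]
      rw [mul_comm (ν l) (ν z₀), mul_inv_cancel_right, mul_inv_cancel]
    have hf1 : f 1 = 0 := by
      have h1 := hf 1 1
      rw [mul_one] at h1
      exact left_eq_add.mp h1
    have hne : (1 : ZMod q) - (ψ z₀ : ZMod q) ≠ 0 := by
      intro h
      apply hz₀
      apply Units.ext
      rw [Units.val_one]
      exact (sub_eq_zero.mp h).symm
    have h1 := hz (fun l => f ⟨_, hc l⟩ / (1 - (ψ z₀ : ZMod q))) (by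
      intro g h
      have h2 : (⟨_, hc (g * h)⟩ : ν.ker) = ann_cK ν g ⟨_, hc h⟩ * ⟨_, hc g⟩ := by
        apply Subtype.ext
        change g * h * z₀ * (g * h)⁻¹ * z₀⁻¹ = g * (h * z₀ * h⁻¹ * z₀⁻¹) * g⁻¹ *
          (g * z₀ * g⁻¹ * z₀⁻¹)
        group
      rw [h2, hf, hfg]
      field_simp
      ring) x x.2
    have h3 : (⟨_, hc x⟩ : ν.ker) = x * ann_cK ν z₀ x⁻¹ := by
      apply Subtype.ext
      change (x : Λ) * z₀ * (x : Λ)⁻¹ * z₀⁻¹ = x * (z₀ * (x : Λ)⁻¹ * z₀⁻¹)
      group
    have h4 : f x⁻¹ = - f x := by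
      have h5 := hf x x⁻¹
      rw [mul_inv_cancel, hf1] at h5
      exact (neg_eq_of_add_eq_zero_right h5.symm).symm
    rw [h3, hf, hfg, h4, div_eq_zero_iff] at h1
    rcases h1 with h1 | h1
    · have h6 : f x * (1 - (ψ z₀ : ZMod q)) = 0 := by
        rw [← h1]
        ring
      exact (mul_eq_zero.mp h6).resolve_right hne
    · exact absurd h1 hne
  -- (c) Nakayama
  letI := ann_mod ν
  have hsmul : ∀ (a : MonoidAlgebra ℤ ν.range) (m : AnnM ν), a • m = ann_Phi ν a m :=
    fun a m => rfl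
  have hψc : ∀ g h : Λ, ν g = ν h → ψ g = ψ h := by
    intro g h e
    have h1 := hψ (g * h⁻¹) (by rw [map_mul, map_inv, e, mul_inv_cancel])
    rw [map_mul, map_inv] at h1
    exact mul_inv_eq_one.mp h1
  let ψ' : ν.range →* ZMod q :=
    { toFun := fun z => ((ψ (ann_s ν z) : (ZMod q)ˣ) : ZMod q)
      map_one' := by
        rw [hψ _ (ann_s_spec ν 1), Units.val_one]
      map_mul' := fun z z' => by
        rw [← Units.val_mul, ← map_mul]
        congr 1
        apply hψc
        rw [map_mul, ann_s_spec, ann_s_spec, ann_s_spec]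
        rfl }
  let χ : MonoidAlgebra ℤ ν.range →ₐ[ℤ] ZMod q := MonoidAlgebra.lift ℤ (ZMod q) ν.range ψ'
  let I : Ideal (MonoidAlgebra ℤ ν.range) := RingHom.ker χ.toRingHom
  have htop : (⊤ : Submodule (MonoidAlgebra ℤ ν.range) (AnnM ν)) ≤ I • ⊤ := by
    set N : Submodule (MonoidAlgebra ℤ ν.range) (AnnM ν) := I • ⊤ with hN
    by_contra hnot
    obtain ⟨m, -, hm⟩ := SetLike.not_le_iff_exists.mp hnot
    have hq : ∀ v : AnnM ν ⧸ N, q • v = 0 := by
      intro v
      obtain ⟨m, rfl⟩ := Submodule.Quotient.mk_surjective N v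
      rw [← Submodule.Quotient.mk_smul, Submodule.Quotient.mk_eq_zero]
      have h1 : ((q : MonoidAlgebra ℤ ν.range)) • m ∈ N := by
        refine Submodule.smul_mem_smul ?_ Submodule.mem_top
        change χ (q : MonoidAlgebra ℤ ν.range) = 0
        rw [map_natCast, ZMod.natCast_self]
      rwa [Nat.cast_smul_eq_nsmul] at h1
    have hv : (Submodule.Quotient.mk m : AnnM ν ⧸ N) ≠ 0 := by
      intro h
      exact hm ((Submodule.Quotient.mk_eq_zero N).mp h)
    obtain ⟨φ, hφ⟩ := ann_dual hq _ hv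
    obtain ⟨x, rfl⟩ := ann_cl_surj ν m
    apply hφ
    refine hb (fun x => φ (Submodule.Quotient.mk (ann_cl ν x))) ?_ ?_ x
    · intro x y
      rw [ann_cl_mul, Submodule.Quotient.mk_add, map_add]
    · intro g x
      obtain ⟨c, hc⟩ := ZMod.intCast_surjective ((ψ g : (ZMod q)ˣ) : ZMod q)
      have h1 : (MonoidAlgebra.single (⟨ν g, g, rfl⟩ : ν.range) (1 : ℤ) -
          (c : MonoidAlgebra ℤ ν.range)) • ann_cl ν x ∈ N := by
        refine Submodule.smul_mem_smul ?_ Submodule.mem_top
        change χ _ = 0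
        rw [map_sub, map_intCast, hc, sub_eq_zero]
        change MonoidAlgebra.lift ℤ (ZMod q) ν.range ψ' _ = _
        rw [MonoidAlgebra.lift_single, one_smul]
        change ((ψ (ann_s ν _) : (ZMod q)ˣ) : ZMod q) = _
        rw [hψc _ g (by rw [ann_s_spec])]
      rw [sub_smul, hsmul, ann_single, Int.cast_smul_eq_zsmul] at h1
      have h2 : (Submodule.Quotient.mk (ann_cl ν (ann_cK ν g x)) : AnnM ν ⧸ N) =
          c • Submodule.Quotient.mk (ann_cl ν x) := by
        rw [← Submodule.Quotient.mk_smul]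
        exact (Submodule.Quotient.eq N).mpr h1
      rw [h2, map_zsmul, ← hc, zsmul_eq_mul]
  obtain ⟨μA, hμ1, hμ0⟩ := Submodule.exists_sub_one_mem_and_smul_eq_zero_of_fg_of_le_smul I ⊤
    (ann_finite ν) htop
  have hμne : μA ≠ 0 := by
    rintro rfl
    have h1 : χ (0 - 1) = 0 := hμ1
    rw [map_sub, map_zero, map_one, zero_sub, neg_eq_zero] at h1
    exact one_ne_zero h1
  let e : ν.range ↪ Zh := ⟨fun z => Multiplicative.toAdd (z : Multiplicative Zh),
    fun z z' h => Subtype.ext (Multiplicative.toAdd.injective h)⟩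
  refine ⟨Finsupp.embDomain e μA.coeff, ?_, ?_, ?_⟩
  · intro h
    apply hμne
    have h1 : μA.coeff = 0 := Finsupp.embDomain_eq_zero.mp h
    exact MonoidAlgebra.ext h1
  · intro b hb'
    rw [Finsupp.support_embDomain, Finset.mem_map] at hb'
    obtain ⟨z, -, rfl⟩ := hb'
    exact ⟨ann_s ν z, ann_s_spec ν z⟩
  · intro A _ f y x
    by_cases hy : ∃ b ∈ (Finsupp.embDomain e μA.coeff).support, ν (y b) ≠ Multiplicative.ofAdd b
    · exact Or.inr hy
    · left
      push Not at hy
      rw [Finsupp.support_embDomain, Finset.prod_map]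
      have h1 : ann_Phi ν μA (ann_cl ν x) = 0 := hμ0 _ Submodule.mem_top
      unfold ann_Phi at h1
      rw [MonoidAlgebra.lift_apply, Finsupp.sum, LinearMap.sum_apply] at h1
      have h2 := congrArg (MonoidHom.toAdditive (Abelianization.lift f)) h1
      rw [map_sum, map_zero] at h2
      have h3 : ∀ z ∈ μA.coeff.support,
          (MonoidHom.toAdditive (Abelianization.lift f))
            ((μA.coeff z • ann_rho ν z) (ann_cl ν x)) =
          Additive.ofMul (f (⟨y (e z) * x * (y (e z))⁻¹,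
            (MonoidHom.normal_ker ν).conj_mem _ x.2 (y (e z))⟩) ^
              (Finsupp.embDomain e μA.coeff (e z))) := by
        intro z hzs
        have h4 : ν (y (e z)) = z := hy (e z) (by
          rw [Finsupp.support_embDomain]
          exact Finset.mem_map_of_mem e hzs)
        rw [Finsupp.embDomain_apply_self, LinearMap.smul_apply, map_zsmul,
          ann_rho_eq ν z (y (e z)) h4, ann_rho0_cl]
        rfl
      rw [Finset.sum_congr rfl h3] at h2
      exact h2

end

end Pool.Agent.F8.CG
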