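import Pool.Agent.Lib.MP_305fdd_al.F8.CG.StmR

/-!
# MP_305fdd_al, congruence subgroups: piece CG chi
-/

set_option autoImplicit false

namespace Pool.Agent.F8.CG

open Pool.Agent.F8.BG Pool.Agent.Lib.MP_305fdd_al Pool.Agent.F8

noncomputable section

/-- reduction of the argument is a power of the value -/
theorem chi_red (p : ℕ) [Fact p.Prime] (k q : ℕ) (x : ZMod (p ^ (k + q))) :
    ZMod.toCircle (ZMod.castHom (pow_dvd_pow p (Nat.le_add_right k q)) (ZMod (p ^ k)) x) =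
      (ZMod.toCircle x) ^ (p ^ q) := by
  obtain ⟨j, rfl⟩ := ZMod.intCast_surjective x
  have hp : (p : ℂ) ≠ 0 := by
    exact_mod_cast (Fact.out : p.Prime).ne_zero
  apply Circle.ext
  rw [map_intCast, Circle.coe_pow, ZMod.toCircle_intCast, ZMod.toCircle_intCast, ← Complex.exp_nat_mul]
  apply congrArg
  push_cast
  rw [pow_add]
  field_simp

theorem p_chi : R_chi := by
  intro G _ p hp X hX S ε hε
  let f : ℕ → (S → Circle) := fun k g => ZMod.toCircle (Multiplicative.toAdd (X (k + 1) (g : G)))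
  obtain ⟨a, φ, hφ, ha⟩ := CompactSpace.tendsto_subseq f
  have hc := ha.cauchySeq
  obtain ⟨N, hN⟩ := (Metric.cauchySeq_iff (α := S → Circle)).1 hc ε hε
  have h1 := hN N le_rfl (N + 1) (Nat.le_succ N)
  have hlt : φ N < φ (N + 1) := hφ (Nat.lt_succ_self N)
  obtain ⟨q, hq⟩ := Nat.exists_eq_add_of_lt hlt
  -- φ (N+1) = φ N + q + 1
  have hk : φ (N + 1) + 1 = (φ N + 1) + (q + 1) := by omega
  have hppos : 0 < p ^ (q + 1) := pow_pos hp.out.pos _
  refine ⟨φ (N + 1) + 1, p ^ (q + 1) - 1, Nat.le_add_left 1 _, ?_, ?_⟩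
  · intro hd
    have h2 : p ∣ p ^ (q + 1) := dvd_pow_self p (Nat.succ_ne_zero q)
    have h3 : p ∣ 1 := by
      have h4 := Nat.dvd_sub h2 hd
      have h5 : p ^ (q + 1) - (p ^ (q + 1) - 1) = 1 := by omega
      rwa [h5] at h4
    exact hp.out.one_lt.ne' (Nat.dvd_one.1 h3)
  · intro g hg
    have h2 : dist (f (φ N) ⟨g, hg⟩) (f (φ (N + 1)) ⟨g, hg⟩) < ε :=
      lt_of_le_of_lt (dist_le_pi_dist _ _ _) h1
    have h3 : f (φ N) ⟨g, hg⟩ = (f (φ (N + 1)) ⟨g, hg⟩) ^ (p ^ (q + 1)) := by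
      show ZMod.toCircle (Multiplicative.toAdd (X (φ N + 1) g)) =
        (ZMod.toCircle (Multiplicative.toAdd (X (φ (N + 1) + 1) g))) ^ (p ^ (q + 1))
      rw [hk, hX (φ N + 1) ((φ N + 1) + (q + 1)) (Nat.le_add_right _ _) g]
      exact chi_red p (φ N + 1) (q + 1) _
    have h4 : ((eX (p ^ (φ (N + 1) + 1)) (X (φ (N + 1) + 1)) g : ℂˣ) : ℂ) =
        ((f (φ (N + 1)) ⟨g, hg⟩ : Circle) : ℂ) := rfl
    rw [h4]
    set z : Circle := f (φ (N + 1)) ⟨g, hg⟩ with hz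
    rw [h3] at h2
    have h5 : dist (z ^ (p ^ (q + 1))) z = ‖((z : ℂ) ^ (p ^ (q + 1))) - (z : ℂ)‖ := by
      have h6 : dist (z ^ (p ^ (q + 1))) z = dist ((z ^ (p ^ (q + 1)) : Circle) : ℂ) (z : ℂ) := rfl
      rw [h6, dist_eq_norm, Circle.coe_pow]
    rw [h5] at h2
    have h7 : (z : ℂ) ^ (p ^ (q + 1)) - (z : ℂ) = (z : ℂ) * ((z : ℂ) ^ (p ^ (q + 1) - 1) - 1) := by
      rw [mul_sub, mul_one, ← pow_succ']
      congr 2
      omega
    rw [h7, norm_mul, Circle.norm_coe, one_mul] at h2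
    exact h2

end

end Pool.Agent.F8.CG
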