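import Pool.Agent.Lib.MP_305fdd_al.F8.CG.StmR

/-!
# CG circ: powers which are far away from `1`
-/

set_option autoImplicit false

namespace Pool.Agent.F8.CG

open Finset

private theorem circ_geom (w : ℂ) (hw : ‖w‖ = 1) (h1 : w ≠ 1) :
    ∃ C : ℝ, 0 ≤ C ∧ ∀ M : ℕ, ‖∑ m ∈ range M, w ^ (m + 1)‖ ≤ C := by
  refine ⟨2 / ‖w - 1‖, by positivity, fun M => ?_⟩
  have h2 : ∑ m ∈ range M, w ^ (m + 1) = w * ((w ^ M - 1) / (w - 1)) := by
    rw [← geom_sum_eq h1 M, mul_sum]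
    exact sum_congr rfl (fun m _ => by rw [pow_succ, mul_comm])
  rw [h2, norm_mul, hw, one_mul, norm_div]
  refine div_le_div_of_nonneg_right ?_ (norm_nonneg _)
  calc ‖w ^ M - 1‖ ≤ ‖w ^ M‖ + ‖(1 : ℂ)‖ := norm_sub_le _ _
    _ = 2 := by rw [norm_pow, hw, one_pow, norm_one]; norm_num

private theorem circ_ne (z : ℂ) (hz : ‖z‖ = 1) (hn : ∀ n : ℕ, 1 ≤ n → z ^ n ≠ 1) (j k : ℕ)
    (hjk : j ≠ k) : z ^ j * (starRingEnd ℂ z) ^ k ≠ 1 := by
  intro h
  have h0 : z ≠ 0 := by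
    intro h0
    rw [h0, norm_zero] at hz
    exact absurd hz (by norm_num)
  have h1 : z * starRingEnd ℂ z = 1 := by
    rw [Complex.mul_conj, Complex.normSq_eq_norm_sq, hz]
    norm_num
  have h2 : z ^ j = z ^ k := by
    have h3 : z ^ j * (z * starRingEnd ℂ z) ^ k = z ^ k := by
      rw [mul_pow, mul_left_comm, h, mul_one]
    rwa [h1, one_pow, mul_one] at h3
  rcases lt_or_gt_of_ne hjk with h4 | h4
  · apply hn (k - j) (by omega)
    have h5 : z ^ j * z ^ (k - j) = z ^ j * 1 := by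
      rw [← pow_add, mul_one, h2]
      congr 1
      omega
    exact mul_left_cancel₀ (pow_ne_zero j h0) h5
  · apply hn (j - k) (by omega)
    have h5 : z ^ k * z ^ (j - k) = z ^ k * 1 := by
      rw [← pow_add, mul_one, ← h2]
      congr 1
      omega
    exact mul_left_cancel₀ (pow_ne_zero k h0) h5

private theorem circ_sq (K : ℕ) (z : ℂ) (hz : ‖z‖ = 1) (hn : ∀ n : ℕ, 1 ≤ n → z ^ n ≠ 1) :
    ∃ C : ℝ, 0 ≤ C ∧ ∀ M : ℕ,
      ∑ m ∈ range M, ‖∑ j ∈ range K, (z ^ (m + 1)) ^ j‖ ^ 2 ≤ K * M + C := by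
  have hw : ∀ j k : ℕ, ‖z ^ j * (starRingEnd ℂ z) ^ k‖ = 1 := by
    intro j k
    rw [norm_mul, norm_pow, norm_pow, RCLike.norm_conj, hz, one_pow, one_pow, one_mul]
  have h1 : ∀ j k : ℕ, ∃ C : ℝ, 0 ≤ C ∧ ∀ M : ℕ,
      ‖∑ m ∈ range M, (z ^ j * (starRingEnd ℂ z) ^ k) ^ (m + 1)‖ ≤
        (if j = k then (M : ℝ) else 0) + C := by
    intro j k
    by_cases hjk : j = k
    · refine ⟨0, le_rfl, fun M => ?_⟩
      rw [if_pos hjk, add_zero]
      refine (norm_sum_le _ _).trans ?_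
      refine (sum_le_sum (g := fun _ => (1 : ℝ)) (fun m _ => ?_)).trans ?_
      · rw [norm_pow, hw, one_pow]
      · rw [sum_const, card_range, nsmul_eq_mul, mul_one]
    · obtain ⟨C, hC, h2⟩ := circ_geom _ (hw j k) (circ_ne z hz hn j k hjk)
      refine ⟨C, hC, fun M => ?_⟩
      rw [if_neg hjk, zero_add]
      exact h2 M
  choose C hC h2 using h1
  refine ⟨∑ j ∈ range K, ∑ k ∈ range K, C j k,
    sum_nonneg (fun j _ => sum_nonneg (fun k _ => hC j k)), fun M => ?_⟩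
  have h3 : ((∑ m ∈ range M, ‖∑ j ∈ range K, (z ^ (m + 1)) ^ j‖ ^ 2 : ℝ) : ℂ) =
      ∑ j ∈ range K, ∑ k ∈ range K,
        ∑ m ∈ range M, (z ^ j * (starRingEnd ℂ z) ^ k) ^ (m + 1) := by
    rw [Complex.ofReal_sum]
    have h4 : ∀ m : ℕ, ((‖∑ j ∈ range K, (z ^ (m + 1)) ^ j‖ ^ 2 : ℝ) : ℂ) =
        ∑ j ∈ range K, ∑ k ∈ range K, (z ^ j * (starRingEnd ℂ z) ^ k) ^ (m + 1) := by
      intro m
      rw [← Complex.normSq_eq_norm_sq, ← Complex.mul_conj, map_sum, sum_mul_sum]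
      refine sum_congr rfl (fun j _ => sum_congr rfl (fun k _ => ?_))
      rw [map_pow, map_pow, mul_pow, ← pow_mul, ← pow_mul, ← pow_mul, ← pow_mul,
        mul_comm j, mul_comm k]
    rw [sum_congr rfl (fun m _ => h4 m), sum_comm]
    refine sum_congr rfl (fun j _ => ?_)
    rw [sum_comm]
  have h5 : ∑ m ∈ range M, ‖∑ j ∈ range K, (z ^ (m + 1)) ^ j‖ ^ 2 =
      ‖((∑ m ∈ range M, ‖∑ j ∈ range K, (z ^ (m + 1)) ^ j‖ ^ 2 : ℝ) : ℂ)‖ := by
    rw [Complex.norm_real, Real.norm_of_nonneg]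
    exact sum_nonneg (fun m _ => by positivity)
  rw [h5, h3]
  calc ‖∑ j ∈ range K, ∑ k ∈ range K,
        ∑ m ∈ range M, (z ^ j * (starRingEnd ℂ z) ^ k) ^ (m + 1)‖
      ≤ ∑ j ∈ range K, ∑ k ∈ range K,
        ‖∑ m ∈ range M, (z ^ j * (starRingEnd ℂ z) ^ k) ^ (m + 1)‖ :=
        (norm_sum_le _ _).trans (sum_le_sum (fun j _ => norm_sum_le _ _))
    _ ≤ ∑ j ∈ range K, ∑ k ∈ range K, ((if j = k then (M : ℝ) else 0) + C j k) :=
        sum_le_sum (fun j _ => sum_le_sum (fun k _ => h2 j k M))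
    _ = K * M + ∑ j ∈ range K, ∑ k ∈ range K, C j k := by
        rw [sum_congr rfl (fun j _ => sum_add_distrib), sum_add_distrib]
        congr 1
        rw [sum_congr rfl (g := fun _ => (M : ℝ)), sum_const, card_range, nsmul_eq_mul]
        intro j hj
        rw [sum_ite_eq, if_pos hj]

private theorem circ_pow (w : ℂ) (hw : ‖w‖ = 1) (j : ℕ) : ‖w ^ j - 1‖ ≤ j * ‖w - 1‖ := by
  induction j with
  | zero => simp
  | succ j ih =>
    have h1 : w ^ (j + 1) - 1 = w ^ j * (w - 1) + (w ^ j - 1) := by ring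
    rw [h1]
    refine (norm_add_le _ _).trans ?_
    rw [norm_mul, norm_pow, hw, one_pow, one_mul]
    push_cast
    linarith

private theorem circ_low (K : ℕ) (c : ℝ) (w : ℂ) (hw : ‖w‖ = 1) (hc : ‖w - 1‖ < c)
    (hK : K * c ≤ 1 / 2) : ((K : ℝ) / 2) ^ 2 ≤ ‖∑ j ∈ range K, w ^ j‖ ^ 2 := by
  refine pow_le_pow_left₀ (by positivity) ?_ 2
  have h1 : ∑ j ∈ range K, w ^ j = (K : ℂ) - ∑ j ∈ range K, (1 - w ^ j) := by
    rw [sum_sub_distrib, sum_const, card_range, nsmul_eq_mul, mul_one]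
    ring
  have h2 : ‖∑ j ∈ range K, (1 - w ^ j)‖ ≤ (K : ℝ) / 2 := by
    refine (norm_sum_le _ _).trans ?_
    refine (sum_le_sum (g := fun _ => (1 / 2 : ℝ)) (fun j hj => ?_)).trans ?_
    · rw [norm_sub_rev]
      refine (circ_pow w hw j).trans ?_
      have h3 : (j : ℝ) ≤ K := by exact_mod_cast (mem_range.1 hj).le
      calc (j : ℝ) * ‖w - 1‖ ≤ K * c :=
            mul_le_mul h3 hc.le (norm_nonneg _) (by positivity)
        _ ≤ 1 / 2 := hK
    · rw [sum_const, card_range, nsmul_eq_mul]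
      linarith
  rw [h1]
  have h3 := norm_sub_norm_le (K : ℂ) (∑ j ∈ range K, (1 - w ^ j))
  have h4 : ‖(K : ℂ)‖ = K := Complex.norm_natCast K
  rw [h4] at h3
  linarith

theorem p_circ : R_circ := by
  intro e
  have hK0 : (0 : ℝ) < ((4 * e + 4 : ℕ) : ℝ) := by positivity
  refine ⟨1 / (2 * ((4 * e + 4 : ℕ) : ℝ)), by positivity, ?_⟩
  intro z hz hn
  by_contra hcon
  push Not at hcon
  have h1 := fun s => circ_sq (4 * e + 4) (z s) (hz s) (hn s)
  choose C hC h2 using h1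
  have h3 : ∀ M : ℕ, ((4 * e + 4 : ℕ) : ℝ) * M ≤ ∑ s, C s := by
    intro M
    have h4 : ∀ m ∈ range M, ((((4 * e + 4 : ℕ) : ℝ)) / 2) ^ 2 ≤
        ∑ s, ‖∑ j ∈ range (4 * e + 4), (z s ^ (m + 1)) ^ j‖ ^ 2 := by
      intro m _
      obtain ⟨s, hs⟩ := hcon (m + 1) (Nat.succ_le_succ (Nat.zero_le m))
      have h5 := circ_low (4 * e + 4) _ (z s ^ (m + 1)) (by rw [norm_pow, hz s, one_pow]) hs
        (by field_simp; norm_num)
      refine h5.trans ?_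
      exact single_le_sum (f := fun s => ‖∑ j ∈ range (4 * e + 4), (z s ^ (m + 1)) ^ j‖ ^ 2)
        (fun s _ => by positivity) (mem_univ s)
    have h6 := sum_le_sum h4
    rw [sum_const, card_range, nsmul_eq_mul, sum_comm] at h6
    have h7 := h6.trans (sum_le_sum (fun s _ => h2 s M))
    rw [sum_add_distrib, sum_const, card_univ, Fintype.card_fin, nsmul_eq_mul] at h7
    push_cast at h7 ⊢
    nlinarith [h7]
  obtain ⟨M, hM⟩ := exists_nat_gt (∑ s, C s)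
  have h4 := h3 M
  have h5 : (1 : ℝ) ≤ ((4 * e + 4 : ℕ) : ℝ) := by
    push_cast
    have : (0 : ℝ) ≤ e := Nat.cast_nonneg e
    linarith
  have h6 : (M : ℝ) ≤ ((4 * e + 4 : ℕ) : ℝ) * M := by
    have : (0 : ℝ) ≤ M := Nat.cast_nonneg M
    nlinarith
  linarith

end Pool.Agent.F8.CG
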