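import Pool.Agent.Lib.MP_305fdd_al.F8.CG.StmR

/-!
# MP_305fdd_al, project CG: piece cnt, counting loops

If the sums of `1 - Re χ` over the loops of level `r l` are bounded then `χ` is trivial on `D ∩ F`.
-/

set_option autoImplicit false

namespace Pool.Agent.F8.CG

open Pool.Agent.F8.BG Pool.Agent.Lib.MP_305fdd_al Pool.Agent.F8

noncomputable section

/-- The real parts of the nontrivial `n`-th roots of unity are bounded away from `1`. -/
theorem cnt_delta (n : ℕ) (hn : 1 ≤ n) :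
    ∃ δ : ℝ, 0 < δ ∧ ∀ ζ : ℂ, ζ ^ n = 1 → ζ ≠ 1 → δ ≤ 1 - ζ.re := by
  classical
  let A : Finset ℂ := (Polynomial.nthRoots n (1 : ℂ)).toFinset.filter (fun ζ => ζ ≠ 1)
  have hA : ∀ ζ : ℂ, ζ ^ n = 1 → ζ ≠ 1 → ζ ∈ A := by
    intro ζ h1 h2
    refine Finset.mem_filter.2 ⟨?_, h2⟩
    rw [Multiset.mem_toFinset, Polynomial.mem_nthRoots (by omega)]
    exact h1
  have hpos : ∀ ζ ∈ A, 0 < 1 - ζ.re := by
    intro ζ hζ
    obtain ⟨h1, h2⟩ := Finset.mem_filter.1 hζ
    rw [Multiset.mem_toFinset, Polynomial.mem_nthRoots (by omega)] at h1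
    have hnorm : ‖ζ‖ = 1 := Complex.norm_eq_one_of_pow_eq_one h1 (by omega)
    have hle : ζ.re ≤ 1 := by
      rw [← hnorm]
      exact Complex.re_le_norm ζ
    rcases hle.lt_or_eq with h | h
    · linarith
    · exfalso
      apply h2
      have h3 : ζ.re * ζ.re + ζ.im * ζ.im = 1 := by
        rw [← Complex.normSq_apply, Complex.normSq_eq_norm_sq, hnorm]
        norm_num
      rw [h] at h3
      have h4 : ζ.im = 0 := by nlinarith
      apply Complex.ext
      · simpa using h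
      · simpa using h4
  by_cases hne : A.Nonempty
  · obtain ⟨ζ₀, h0, hmin⟩ := A.exists_min_image (fun ζ => 1 - ζ.re) hne
    exact ⟨1 - ζ₀.re, hpos ζ₀ h0, fun ζ h1 h2 => hmin ζ (hA ζ h1 h2)⟩
  · refine ⟨1, one_pos, fun ζ h1 h2 => ?_⟩
    exact absurd ⟨ζ, hA ζ h1 h2⟩ hne

/-- Powers of loops are loops. -/
theorem cnt_pow {ι : Type} {α : MulAut (FreeGroup ι)} {w : ι → List ι} {D : Subgroup (GR α)}
    {j : ι} (h : ∀ (l l' : ℕ) (d d' : GR α), d ∈ LpS α w D j l → d' ∈ LpS α w D j l' →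
      d * d' ∈ LpS α w D j (l + l')) {l : ℕ} {d : GR α} (hd : d ∈ LpS α w D j l) (k : ℕ) :
    d ^ (k + 1) ∈ LpS α w D j ((k + 1) * l) := by
  induction k with
  | zero => simpa using hd
  | succ k ih =>
    have h1 := h _ _ _ _ ih hd
    rw [← pow_succ] at h1
    have h2 : (k + 1) * l + l = (k + 1 + 1) * l := by ring
    rwa [h2] at h1

/-- [CG cnt] counting loops -/
theorem p_cnt (hlp : R_lp) (hgen : R_gen) (hgrow : R_grow) : R_cnt := by
  classical
  intro ι _ α w i₀ D hS j χ n r hn hχ hr hco C hC d₁ hd₁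
  obtain ⟨δ, hδ, hδ'⟩ := cnt_delta n hn
  have hmul := fun l l' d d' => (hlp ι α w hS.pos.eq).2 D j l l' d d'
  have hχ' : ∀ d, (χ d : ℂ) ^ n = 1 := by
    intro d
    rw [← Units.val_pow_eq_pow_val, hχ d, Units.val_one]
  -- a finite set of loops with nontrivial values is small
  have hsmall : ∀ (l : ℕ) (S : Finset D), (∀ d ∈ S, (d : GR α) ∈ LpS α w D j (r * l)) →
      (∀ d ∈ S, χ d ≠ 1) → δ * S.card ≤ C := by
    intro l S h1 h2
    refine le_trans ?_ (hC l S h1)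
    calc δ * S.card = ∑ d ∈ S, δ := by rw [Finset.sum_const, nsmul_eq_mul, mul_comm]
      _ ≤ ∑ d ∈ S, (1 - (χ d : ℂ).re) := by
        refine Finset.sum_le_sum fun d hd => hδ' _ (hχ' d) ?_
        intro h3
        exact h2 d hd (Units.ext h3)
  -- suppose that a loop has a nontrivial value
  have key : ∀ (l₀ : ℕ) (d₀ : D), 1 ≤ l₀ → (d₀ : GR α) ∈ LpS α w D j l₀ → χ d₀ = 1 := by
    intro l₀ d₀ _ hd₀
    by_contra hne
    obtain ⟨s, hs⟩ : ∃ s, r = s + 1 := ⟨r - 1, by omega⟩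
    have hdr : ((d₀ ^ r : D) : GR α) ∈ LpS α w D j (r * l₀) := by
      rw [Subgroup.coe_pow, hs]
      exact cnt_pow hmul hd₀ s
    have hχr : χ (d₀ ^ r) ≠ 1 := by
      rw [map_pow]
      intro h3
      apply hne
      have h4 : orderOf (χ d₀) ∣ r := orderOf_dvd_of_pow_eq_one h3
      have h5 : orderOf (χ d₀) ∣ n := orderOf_dvd_of_pow_eq_one (hχ d₀)
      have h6 : orderOf (χ d₀) ∣ 1 := by
        rw [← hco]
        exact Nat.dvd_gcd h4 h5
      exact orderOf_eq_one_iff.1 (Nat.dvd_one.1 h6)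
    obtain ⟨l, _, S, hcard, hSl⟩ := hgrow ι α w i₀ D hS j (⌊2 * C / δ⌋₊ + 1) r hr
    have h7 : δ * (S.filter fun d => ¬ χ d = 1).card ≤ C :=
      hsmall l _ (fun d hd => hSl d (Finset.mem_filter.1 hd).1)
        (fun d hd => (Finset.mem_filter.1 hd).2)
    have h8 : δ * ((S.filter fun d => χ d = 1).image fun d => d * d₀ ^ r).card ≤ C := by
      refine hsmall (l + l₀) _ ?_ ?_
      · intro d hd
        obtain ⟨d', hd', rfl⟩ := Finset.mem_image.1 hd
        have h9 := hmul _ _ _ _ (hSl d' (Finset.mem_filter.1 hd').1) hdr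
        rw [← mul_add] at h9
        exact h9
      · intro d hd
        obtain ⟨d', hd', rfl⟩ := Finset.mem_image.1 hd
        rw [map_mul, (Finset.mem_filter.1 hd').2, one_mul]
        exact hχr
    rw [Finset.card_image_of_injective _ (mul_left_injective (d₀ ^ r))] at h8
    have h10 := Finset.card_filter_add_card_filter_not (s := S) (fun d => χ d = 1)
    have h11 : δ * S.card ≤ 2 * C := by
      rw [← h10]
      push_cast
      linarith
    have h12 : (S.card : ℝ) ≤ 2 * C / δ := by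
      rw [le_div_iff₀ hδ]
      linarith
    have h13 : (⌊2 * C / δ⌋₊ + 1 : ℕ) ≤ S.card := hcard
    have h14 : (2 * C / δ) < (⌊2 * C / δ⌋₊ : ℝ) + 1 := Nat.lt_floor_add_one _
    have h15 : ((⌊2 * C / δ⌋₊ + 1 : ℕ) : ℝ) ≤ S.card := by exact_mod_cast h13
    push_cast at h15
    linarith
  -- the kernel contains the loops
  obtain ⟨f, hf⟩ := GR_ker α (d₁ : GR α) hd₁
  have hmem : iR α f ∈ D := hf ▸ d₁.2
  have h20 := hgen ι α w i₀ D hS j f hmem
  have h21 : Subgroup.closure {d | ∃ l, 1 ≤ l ∧ d ∈ LpS α w D j l} ≤ χ.ker.map D.subtype := by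
    rw [Subgroup.closure_le]
    rintro d ⟨l, hl, hd⟩
    exact ⟨⟨d, hd.1⟩, key l ⟨d, hd.1⟩ hl hd, rfl⟩
  obtain ⟨d₂, h22, h23⟩ := h21 h20
  have h24 : d₂ = d₁ := by
    apply Subtype.ext
    rw [hf]
    exact h23
  rw [← h24]
  exact h22

end

end Pool.Agent.F8.CG
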