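import Pool.Agent.Lib.MP_305fdd_al.F8.CG.StmR

/-!
# MP_305fdd_al, congruence subgroups: eigenvalues in the unit disc
-/

set_option autoImplicit false

namespace Pool.Agent.F8.CG

theorem p_eg1 : R_eg1 := by
  intro V _ _ _ T hT l
  rcases Nat.eq_zero_or_pos l with rfl | hl
  · rw [pow_zero, LinearMap.trace_one]
    simp
  rw [Module.End.trace_eq_sum_roots_charpoly_of_splits (IsAlgClosed.splits _)]
  refine (norm_multiset_sum_le _).trans ?_
  have h1 : ∀ r ∈ (LinearMap.charpoly (T ^ l)).roots.map (fun z => ‖z‖), r ≤ (1 : ℝ) := by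
    intro r hr
    rw [Multiset.mem_map] at hr
    obtain ⟨z, hz, rfl⟩ := hr
    have hz1 : z ∈ spectrum ℂ (T ^ l) := by
      rw [Module.End.mem_spectrum_iff_isRoot_charpoly]
      exact Polynomial.isRoot_of_mem_roots hz
    rw [spectrum.map_pow_of_pos T hl] at hz1
    obtain ⟨τ, hτ, rfl⟩ := hz1
    show ‖τ ^ l‖ ≤ 1
    rw [norm_pow]
    exact pow_le_one₀ (norm_nonneg _) (hT τ (Module.End.hasEigenvalue_iff_mem_spectrum.2 hτ))
  have h2 := Multiset.sum_le_card_nsmul _ _ h1
  refine h2.trans ?_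
  rw [Multiset.card_map, nsmul_eq_mul, mul_one]
  have h3 := Polynomial.card_roots' (LinearMap.charpoly (T ^ l))
  rw [LinearMap.charpoly_natDegree] at h3
  exact_mod_cast h3

end Pool.Agent.F8.CG
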