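import Pool.Agent.Lib.MP_305fdd_al.F8.CG.StmR

/-!
# MP_305fdd_al, congruence subgroups: the crossed homomorphism of an eigenvector
-/

set_option autoImplicit false

namespace Pool.Agent.F8.CG

open Pool.Agent.F8.BG Pool.Agent.Lib.MP_305fdd_al Pool.Agent.F8

noncomputable section

/-- the automorphisms of a representation -/
def eig_aut {G W : Type} [Group G] [AddCommGroup W] [Module ℂ W] (ρ : G →* Module.End ℂ W) :
    G →* MulAut (Multiplicative W) where
  toFun g :=
    { toFun := fun u => Multiplicative.ofAdd (ρ g (Multiplicative.toAdd u))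
      invFun := fun u => Multiplicative.ofAdd (ρ g⁻¹ (Multiplicative.toAdd u))
      left_inv := fun u => by
        show Multiplicative.ofAdd (ρ g⁻¹ (ρ g (Multiplicative.toAdd u))) = u
        rw [← Module.End.mul_apply, ← map_mul, inv_mul_cancel, map_one]; rfl
      right_inv := fun u => by
        show Multiplicative.ofAdd (ρ g (ρ g⁻¹ (Multiplicative.toAdd u))) = u
        rw [← Module.End.mul_apply, ← map_mul, mul_inv_cancel, map_one]; rfl
      map_mul' := fun u u' => by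
        show Multiplicative.ofAdd (ρ g (Multiplicative.toAdd u + Multiplicative.toAdd u')) = _
        rw [map_add]; rfl }
  map_one' := by
    ext u
    show ρ 1 (Multiplicative.toAdd u) = _
    rw [map_one]; rfl
  map_mul' g h := by
    ext u
    show ρ (g * h) (Multiplicative.toAdd u) = ρ g (ρ h (Multiplicative.toAdd u))
    rw [map_mul]; rfl

/-- the crossed homomorphism of the vector `v` -/
theorem eig_cross {ι : Type} {α : MulAut (FreeGroup ι)} (w : ι → List ι)
    (hw : ∀ i, α (FreeGroup.of i) = BG.pw (w i)) {W : Type} [AddCommGroup W] [Module ℂ W]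
    (ρ : GR α →* Module.End ℂ W) (v : ι → W)
    (hv : ∀ i, ρ (tR α) (v i) =
      ∑ p : Fin (w i).length, ρ (iR α (BG.pw ((w i).take p))) (v ((w i).get p))) :
    ∃ Z : GR α → W, (∀ g h, Z (g * h) = Z g + ρ g (Z h)) ∧
      (∀ i, Z (iR α (FreeGroup.of i)) = v i) ∧ Z (tR α) = 0 := by
  let x : ι → Multiplicative W ⋊[eig_aut ρ] GR α :=
    fun i => ⟨Multiplicative.ofAdd (v i), iR α (FreeGroup.of i)⟩
  let s : Multiplicative W ⋊[eig_aut ρ] GR α := ⟨1, tR α⟩
  have hword : ∀ l : List ι, FreeGroup.lift x (BG.pw l) =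
      ⟨Multiplicative.ofAdd
        (∑ p : Fin l.length, ρ (iR α (BG.pw (l.take p))) (v (l.get p))), iR α (BG.pw l)⟩ := by
    intro l
    induction l with
    | nil =>
      apply SemidirectProduct.ext
      · simp
      · simp
    | cons i l ih =>
      rw [pw_cons, map_mul, ih, FreeGroup.lift_apply_of]
      apply SemidirectProduct.ext
      · rw [SemidirectProduct.mul_left]
        show Multiplicative.ofAdd (v i + ρ (iR α (FreeGroup.of i))
          (∑ p : Fin l.length, ρ (iR α (BG.pw (l.take p))) (v (l.get p)))) = _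
        congr 1
        rw [map_sum]
        have h0 : (∑ p : Fin (i :: l).length, ρ (iR α (BG.pw ((i :: l).take p)))
            (v ((i :: l).get p))) = ∑ p : Fin (l.length + 1),
              ρ (iR α (BG.pw ((i :: l).take p))) (v ((i :: l).get p)) := rfl
        rw [h0, Fin.sum_univ_succ]
        congr 1
        · simp
        · apply Finset.sum_congr rfl
          intro p _
          rw [← Module.End.mul_apply, ← map_mul, ← map_mul]
          simp
      · rw [SemidirectProduct.mul_right]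
        show iR α (FreeGroup.of i) * iR α (BG.pw l) = iR α (FreeGroup.of i * BG.pw l)
        rw [map_mul]
  have h : ∀ i, s * x i * s⁻¹ = FreeGroup.lift x (α (FreeGroup.of i)) := by
    intro i
    rw [mul_inv_eq_iff_eq_mul, hw i, hword]
    apply SemidirectProduct.ext
    · rw [SemidirectProduct.mul_left, SemidirectProduct.mul_left]
      show (1 : Multiplicative W) * Multiplicative.ofAdd (ρ (tR α) (v i)) =
        Multiplicative.ofAdd
          (∑ p : Fin (w i).length, ρ (iR α (BG.pw ((w i).take p))) (v ((w i).get p))) *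
          (eig_aut ρ (iR α (BG.pw (w i)))) 1
      rw [map_one, one_mul, mul_one, hv]
    · rw [SemidirectProduct.mul_right, SemidirectProduct.mul_right]
      show tR α * iR α (FreeGroup.of i) = iR α (BG.pw (w i)) * tR α
      rw [tR_mul, hw]
  have hr : (SemidirectProduct.rightHom).comp (liR x s h) = MonoidHom.id (GR α) := by
    apply homR_ext
    · intro i
      show (liR x s h (iR α (FreeGroup.of i))).right = _
      rw [liR_of]
      rfl
    · show (liR x s h (tR α)).right = _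
      rw [liR_tR]
      rfl
  have hr' : ∀ g, (liR x s h g).right = g := fun g => DFunLike.congr_fun hr g
  refine ⟨fun g => Multiplicative.toAdd (liR x s h g).left, ?_, ?_, ?_⟩
  · intro a b
    show Multiplicative.toAdd (liR x s h (a * b)).left = _
    rw [map_mul, SemidirectProduct.mul_left, hr']
    rfl
  · intro i
    show Multiplicative.toAdd (liR x s h (iR α (FreeGroup.of i))).left = _
    rw [liR_of]
    rfl
  · show Multiplicative.toAdd (liR x s h (tR α)).left = _
    rw [liR_tR]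
    rfl

/-- the twisted representation -/
def eig_rho {ι : Type} {α : MulAut (FreeGroup ι)} (D : Subgroup (GR α)) (χ : D →* ℂˣ)
    (τ : ℂˣ) : GR α →* Module.End ℂ ((GR α ⧸ D) → ℂ) where
  toFun g := ((τ ^ (Multiplicative.toAdd (nR α g)) : ℂˣ) : ℂ) • indA D (chE χ) g
  map_one' := by simp
  map_mul' g h := by
    rw [map_mul (nR α), map_mul (indA D (chE χ)), toAdd_mul, zpow_add, Units.val_mul,
      smul_mul_smul_comm]

theorem eig_rho_iR {ι : Type} {α : MulAut (FreeGroup ι)} (D : Subgroup (GR α)) (χ : D →* ℂˣ)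
    (τ : ℂˣ) (f : FreeGroup ι) : eig_rho D χ τ (iR α f) = indA D (chE χ) (iR α f) := by
  show ((τ ^ (Multiplicative.toAdd (nR α (iR α f))) : ℂˣ) : ℂ) • indA D (chE χ) (iR α f) = _
  rw [nR_iR, toAdd_one, zpow_zero, Units.val_one, one_smul]

theorem eig_rho_tR {ι : Type} {α : MulAut (FreeGroup ι)} (D : Subgroup (GR α)) (χ : D →* ℂˣ)
    (τ : ℂˣ) : eig_rho D χ τ (tR α) = (τ : ℂ) • indA D (chE χ) (tR α) := by
  show ((τ ^ (Multiplicative.toAdd (nR α (tR α))) : ℂˣ) : ℂ) • indA D (chE χ) (tR α) = _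
  rw [nR_tR, toAdd_ofAdd, zpow_one]

theorem eig_ind_apply {G : Type} [Group G] (D : Subgroup G) (χ : D →* ℂˣ) (g : G)
    (φ : (G ⧸ D) → ℂ) (x : G ⧸ D) :
    indA D (chE χ) g φ x = (χ ⟨_, sec_mem D g x⟩ : ℂ) * φ (g⁻¹ • x) := rfl

theorem eig_one {G W : Type} [Group G] [AddCommGroup W] [Module ℂ W]
    (ρ : G →* Module.End ℂ W) (Z : G → W) (hZ : ∀ g h, Z (g * h) = Z g + ρ g (Z h)) :
    Z 1 = 0 := by
  have h1 := hZ 1 1
  rw [one_mul, map_one] at h1
  have h2 : Z 1 + Z 1 = Z 1 + 0 := by rw [add_zero]; exact h1.symm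
  exact add_left_cancel h2

theorem eig_inv {G W : Type} [Group G] [AddCommGroup W] [Module ℂ W]
    (ρ : G →* Module.End ℂ W) (Z : G → W) (hZ : ∀ g h, Z (g * h) = Z g + ρ g (Z h)) (g : G) :
    Z g⁻¹ = - ρ g⁻¹ (Z g) := by
  have h := hZ g⁻¹ g
  rw [inv_mul_cancel, eig_one ρ Z hZ] at h
  exact eq_neg_of_add_eq_zero_left h.symm

theorem eig_zpow {G W : Type} [Group G] [AddCommGroup W] [Module ℂ W]
    (ρ : G →* Module.End ℂ W) (Z : G → W) (hZ : ∀ g h, Z (g * h) = Z g + ρ g (Z h)) (g : G)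
    (hg : Z g = 0) (k : ℤ) : Z (g ^ k) = 0 := by
  induction k using Int.induction_on with
  | zero => rw [zpow_zero]; exact eig_one ρ Z hZ
  | succ i ih => rw [zpow_add_one, hZ, ih, hg, map_zero, add_zero]
  | pred i ih =>
    rw [zpow_sub_one, hZ, ih, eig_inv ρ Z hZ, hg, map_zero, neg_zero, map_zero, add_zero]

/-- the values of the crossed homomorphism -/
theorem eig_val {ι : Type} {α : MulAut (FreeGroup ι)} (D : Subgroup (GR α)) (χ : D →* ℂˣ)
    (τ : ℂˣ) (Z : GR α → ((GR α ⧸ D) → ℂ))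
    (hZ : ∀ g h, Z (g * h) = Z g + eig_rho D χ τ g (Z h)) (N : Submodule ℤ ℂ)
    (hN : ∀ d, ∀ c ∈ N, (χ d : ℂ) * c ∈ N)
    (hv : ∀ i x, Z (iR α (FreeGroup.of i)) x ∈ N) (f : FreeGroup ι) (x : GR α ⧸ D) :
    Z (iR α f) x ∈ N := by
  have hI : ∀ (g : GR α) (φ : (GR α ⧸ D) → ℂ), (∀ x, φ x ∈ N) →
      ∀ x, indA D (chE χ) g φ x ∈ N := by
    intro g φ hφ x
    rw [eig_ind_apply]
    exact hN _ _ (hφ _)
  induction f using FreeGroup.induction_on generalizing x with
  | C1 =>
    rw [map_one, eig_one _ Z hZ]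
    exact N.zero_mem
  | of i => exact hv i x
  | inv_of i _ =>
    rw [map_inv, eig_inv _ Z hZ, ← map_inv, eig_rho_iR]
    exact N.neg_mem (hI _ _ (hv i) x)
  | mul f g hf hg =>
    rw [map_mul, hZ, eig_rho_iR]
    exact N.add_mem (hf x) (hI _ _ hg x)

theorem eig_circ (n : ℕ) [NeZero n] (a : ZMod n) : (eY n a) ^ n = 1 := by
  unfold eY
  rw [← Circle.coe_pow, ← AddChar.map_nsmul_eq_pow, nsmul_eq_mul, ZMod.natCast_self, zero_mul,
    AddChar.map_zero_eq_one, Circle.coe_one]

theorem eig_eY_int (n : ℕ) [NeZero n] (a : ZMod n) : IsIntegral ℤ (eY n a) :=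
  IsIntegral.of_pow (Nat.pos_of_ne_zero (NeZero.ne n)) (by rw [eig_circ]; exact isIntegral_one)

theorem eig_eX {G : Type} [Group G] (n : ℕ) [NeZero n] (X : G →* Multiplicative (ZMod n))
    (g : G) : (eX n X g : ℂ) = eY n (Multiplicative.toAdd (X g)) := rfl

theorem eig_eY_add (n : ℕ) [NeZero n] (a b : ZMod n) : eY n (a + b) = eY n a * eY n b := by
  unfold eY
  rw [AddChar.map_add_eq_mul, Circle.coe_mul]

/-- the equation of an eigenvector -/
def eig_E {ι : Type} {α : MulAut (FreeGroup ι)} (w : ι → List ι) (D : Subgroup (GR α))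
    (χ : D →* ℂˣ) (τ : ℂˣ) (v : ι → (GR α ⧸ D) → ℂ) : Prop :=
  ∀ i, ∑ p : Fin (w i).length, indA D (chE χ) ((tR α)⁻¹ * iR α (BG.pw ((w i).take p)))
    (v ((w i).get p)) = (τ : ℂ) • v i

theorem eig_Z {ι : Type} {α : MulAut (FreeGroup ι)} (w : ι → List ι)
    (hw : ∀ i, α (FreeGroup.of i) = BG.pw (w i)) (D : Subgroup (GR α))
    (χ : D →* ℂˣ) (τ : ℂˣ) (v : ι → (GR α ⧸ D) → ℂ) (hv : eig_E w D χ τ v) :
    ∃ Z : GR α → ((GR α ⧸ D) → ℂ), (∀ g h, Z (g * h) = Z g + eig_rho D χ τ g (Z h)) ∧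
      (∀ i, Z (iR α (FreeGroup.of i)) = v i) ∧ Z (tR α) = 0 := by
  apply eig_cross w hw
  intro i
  rw [eig_rho_tR, LinearMap.smul_apply, ← map_smul, ← hv i, map_sum]
  apply Finset.sum_congr rfl
  intro p _
  rw [← Module.End.mul_apply, ← map_mul, eig_rho_iR, mul_inv_cancel_left]

/-- the eigenvalue and its inverse are integral -/
theorem eig_int {ι : Type} [Finite ι] {α : MulAut (FreeGroup ι)} (w : ι → List ι)
    (hw : ∀ i, α (FreeGroup.of i) = BG.pw (w i)) (D : Subgroup (GR α)) [D.FiniteIndex]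
    (n : ℕ) [NeZero n] (X : D →* Multiplicative (ZMod n)) (τ : ℂˣ)
    (v : ι → (GR α ⧸ D) → ℂ) (hv : eig_E w D (eX n X) τ v) (h0 : v ≠ 0) :
    IsIntegral ℤ (τ : ℂ) ∧ IsIntegral ℤ ((τ⁻¹ : ℂˣ) : ℂ) := by
  have : Finite (GR α ⧸ D) := inferInstance
  obtain ⟨Z, hZ, hZi, hZt⟩ := eig_Z w hw D (eX n X) τ v hv
  let N : Submodule ℤ ℂ := Submodule.span ℤ
    (Set.range fun p : ZMod n × ι × (GR α ⧸ D) => eY n p.1 * v p.2.1 p.2.2)
  have : Finite (ZMod n) := Finite.of_fintype _
  have hfg : N.FG := Submodule.fg_span (Set.finite_range _)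
  have hNe : ∀ a, ∀ c ∈ N, eY n a * c ∈ N := by
    intro a c hc
    refine Submodule.span_induction (p := fun c _ => eY n a * c ∈ N) ?_ ?_ ?_ ?_ hc
    · rintro _ ⟨⟨b, i, x⟩, rfl⟩
      refine Submodule.subset_span ⟨⟨a + b, i, x⟩, ?_⟩
      show eY n (a + b) * v i x = eY n a * (eY n b * v i x)
      rw [eig_eY_add, mul_assoc]
    · rw [mul_zero]; exact N.zero_mem
    · intro c d _ _ h1 h2
      rw [mul_add]; exact N.add_mem h1 h2
    · intro m c _ h1
      rw [mul_smul_comm]; exact N.smul_mem _ h1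
  have hNx : ∀ d, ∀ c ∈ N, (eX n X d : ℂ) * c ∈ N := fun d c hc => by
    rw [eig_eX]; exact hNe _ c hc
  have hvN : ∀ i x, v i x ∈ N := by
    intro i x
    refine Submodule.subset_span ⟨⟨0, i, x⟩, ?_⟩
    show eY n 0 * v i x = v i x
    have h1 : eY n 0 = 1 := by
      unfold eY
      rw [AddChar.map_zero_eq_one, Circle.coe_one]
    rw [h1, one_mul]
  have hI : ∀ (g : GR α) (φ : (GR α ⧸ D) → ℂ), (∀ x, φ x ∈ N) →
      ∀ x, indA D (chE (eX n X)) g φ x ∈ N := by
    intro g φ hφ x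
    rw [eig_ind_apply]
    exact hNx _ _ (hφ _)
  have hZN : ∀ f x, Z (iR α f) x ∈ N :=
    eig_val D (eX n X) τ Z hZ N hNx (fun i x => by rw [hZi]; exact hvN i x)
  -- conjugation by a power of `t`
  have hc : ∀ (k : ℤ) i, eig_rho D (eX n X) τ (tR α ^ k) (v i) =
      Z (iR α ((α ^ k) (FreeGroup.of i))) := by
    intro k i
    have h1 := hZ (tR α ^ k) (iR α (FreeGroup.of i))
    rw [eig_zpow _ Z hZ _ hZt, zero_add, hZi] at h1
    have h2 : tR α ^ k * iR α (FreeGroup.of i) =
        iR α ((α ^ k) (FreeGroup.of i)) * tR α ^ k := by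
      rw [← tR_zpow_conj]; group
    rw [h2, hZ, eig_zpow _ Z hZ _ hZt, map_zero, add_zero] at h1
    exact h1.symm
  have hτ : ∀ (k : ℤ) i x, ((τ ^ k : ℂˣ) : ℂ) * v i x ∈ N := by
    intro k i x
    have h1 : indA D (chE (eX n X)) (tR α ^ k)⁻¹ (eig_rho D (eX n X) τ (tR α ^ k) (v i)) x =
        ((τ ^ k : ℂˣ) : ℂ) * v i x := by
      have h2 : eig_rho D (eX n X) τ (tR α ^ k) =
          ((τ ^ k : ℂˣ) : ℂ) • indA D (chE (eX n X)) (tR α ^ k) := by
        show ((τ ^ (Multiplicative.toAdd (nR α (tR α ^ k))) : ℂˣ) : ℂ) •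
          indA D (chE (eX n X)) (tR α ^ k) = _
        rw [map_zpow, nR_tR, toAdd_zpow, toAdd_ofAdd, smul_eq_mul, mul_one]
      rw [h2, LinearMap.smul_apply, map_smul, ← Module.End.mul_apply, ← map_mul,
        inv_mul_cancel, map_one]
      rfl
    rw [← h1]
    apply hI
    intro y
    rw [hc]
    exact hZN _ y
  have hne : N ≠ ⊥ := by
    intro h
    apply h0
    funext i x
    have := hvN i x
    rw [h] at this
    exact (Submodule.mem_bot ℤ).1 this
  have hall : ∀ k : ℤ, IsIntegral ℤ ((τ ^ k : ℂˣ) : ℂ) := by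
    intro k
    apply isIntegral_of_smul_mem_submodule N hne hfg
    intro c hc
    refine Submodule.span_induction (p := fun c _ => ((τ ^ k : ℂˣ) : ℂ) • c ∈ N) ?_ ?_ ?_ ?_ hc
    · rintro _ ⟨⟨b, i, x⟩, rfl⟩
      show ((τ ^ k : ℂˣ) : ℂ) * (eY n b * v i x) ∈ N
      rw [mul_left_comm]
      exact hNe _ _ (hτ k i x)
    · rw [smul_zero]; exact N.zero_mem
    · intro c d _ _ h1 h2
      rw [smul_add]; exact N.add_mem h1 h2
    · intro m c _ h1
      rw [smul_comm]; exact N.smul_mem _ h1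
  constructor
  · have := hall 1
    rwa [zpow_one] at this
  · have := hall (-1)
    rwa [zpow_neg_one] at this

/-- an eigenvector with integral coordinates -/
theorem eig_vec {ι : Type} [Finite ι] {α : MulAut (FreeGroup ι)} (w : ι → List ι)
    (D : Subgroup (GR α)) [D.FiniteIndex]
    (n : ℕ) [NeZero n] (X : D →* Multiplicative (ZMod n)) (τ : ℂˣ) (hτ : IsIntegral ℤ (τ : ℂ))
    (v : ι → (GR α ⧸ D) → ℂ) (hv : eig_E w D (eX n X) τ v) (h0 : v ≠ 0) :
    ∃ v' : ι → (GR α ⧸ D) → ℂ, eig_E w D (eX n X) τ v' ∧ v' ≠ 0 ∧ ∀ i x, IsIntegral ℤ (v' i x) := by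
  classical
  have : Finite (GR α ⧸ D) := inferInstance
  have := Fintype.ofFinite ι
  have := Fintype.ofFinite (GR α ⧸ D)
  have h0' : ∃ i x, v i x ≠ 0 := by
    by_contra hcon
    push Not at hcon
    exact h0 (funext fun i => funext fun x => hcon i x)
  obtain ⟨i₁, x₁, h1⟩ := h0'
  let K := algebraicClosure ℚ ℂ
  have hf : ∃ f : Module.Dual K ℂ, f (v i₁ x₁) ≠ 0 := by
    by_contra hcon
    push Not at hcon
    exact h1 ((Module.forall_dual_apply_eq_zero_iff K (v i₁ x₁)).1 hcon)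
  obtain ⟨f, hf⟩ := hf
  have hfm : ∀ c : ℂ, IsIntegral ℤ c → ∀ u : ℂ, ((f (c * u) : K) : ℂ) = c * (f u : ℂ) := by
    intro c hc u
    have hcK : c ∈ K := mem_algebraicClosure_iff.2 (hc.tower_top (A := ℚ)).isAlgebraic
    have h2 : c * u = (⟨c, hcK⟩ : K) • u := rfl
    rw [h2, map_smul]
    rfl
  have hex : ∀ q : ι × (GR α ⧸ D), ∃ y : ℤ, y ≠ 0 ∧ IsIntegral ℤ (y • ((f (v q.1 q.2) : K) : ℂ)) := by
    intro q
    apply IsAlgebraic.exists_integral_multiple
    rw [IsFractionRing.isAlgebraic_iff ℤ ℚ ℂ]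
    exact mem_algebraicClosure_iff.1 (f (v q.1 q.2)).2
  choose y hy0 hyi using hex
  let m : ℤ := ∏ q, y q
  have hm : m ≠ 0 := Finset.prod_ne_zero_iff.2 fun q _ => hy0 q
  let T : ((GR α ⧸ D) → ℂ) →+ ((GR α ⧸ D) → ℂ) :=
    { toFun := fun φ x => (m : ℂ) * ((f (φ x) : K) : ℂ)
      map_zero' := by
        funext x
        simp
      map_add' := fun φ ψ => by
        funext x
        show (m : ℂ) * ((f (φ x + ψ x) : K) : ℂ) =
          (m : ℂ) * ((f (φ x) : K) : ℂ) + (m : ℂ) * ((f (ψ x) : K) : ℂ)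
        rw [map_add]
        push_cast
        ring }
  have hTa : ∀ φ x, T φ x = (m : ℂ) * ((f (φ x) : K) : ℂ) := fun _ _ => rfl
  refine ⟨fun i => T (v i), ?_, ?_, ?_⟩
  · intro i
    have h2 := congrArg T (hv i)
    rw [map_sum] at h2
    have h3 : T ((τ : ℂ) • v i) = (τ : ℂ) • T (v i) := by
      funext x
      show T ((τ : ℂ) • v i) x = (τ : ℂ) * T (v i) x
      rw [hTa, hTa, Pi.smul_apply, smul_eq_mul, hfm _ hτ]
      ring
    rw [h3] at h2
    rw [← h2]
    apply Finset.sum_congr rfl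
    intro p _
    funext x
    rw [hTa, eig_ind_apply, eig_ind_apply, eig_eX, hfm _ (eig_eY_int n _)]
    beta_reduce
    rw [hTa]
    ring
  · intro h
    have h2 : T (v i₁) x₁ = 0 := by
      have := congrFun (congrFun h i₁) x₁
      exact this
    rw [hTa] at h2
    rcases mul_eq_zero.1 h2 with h3 | h3
    · exact hm (by exact_mod_cast h3)
    · exact hf (by exact_mod_cast h3)
  · intro i x
    show IsIntegral ℤ (T (v i) x)
    rw [hTa]
    have h2 : (m : ℂ) = ((∏ q ∈ Finset.univ.erase (i, x), y q : ℤ) : ℂ) * (y (i, x) : ℂ) := by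
      rw [← Int.cast_mul, Finset.prod_erase_mul _ _ (Finset.mem_univ _)]
    rw [h2, mul_assoc]
    apply IsIntegral.mul
    · exact isIntegral_algebraMap (R := ℤ) (A := ℂ)
    · have := hyi (i, x)
      rwa [zsmul_eq_mul] at this

/-- [CG eig] -/
theorem p_eig : R_eig := by
  intro ι _ α w i₀ D hS n _ X τ hτ1 hev
  have := hS.fin
  have : Finite (GR α ⧸ D) := inferInstance
  obtain ⟨v, hv1, hv0⟩ := hev.exists_hasEigenvector
  have hE : eig_E w D (eX n X) τ v := by
    intro i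
    have h1 := Module.End.mem_eigenspace_iff.1 hv1
    have h2 := congrFun h1 i
    rw [Pi.smul_apply] at h2
    rw [← h2]
    unfold Uop
    rw [LinearMap.pi_apply, LinearMap.sum_apply]
    rfl
  have hw := hS.pos.eq
  obtain ⟨hi, hi'⟩ := eig_int w hw D n X τ v hE hv0
  refine ⟨hi, hi', ?_⟩
  obtain ⟨v', hE', hv0', hvi⟩ := eig_vec w D n X τ hi v hE hv0
  obtain ⟨Z, hZ, hZi, hZt⟩ := eig_Z w hw D (eX n X) τ v' hE'
  have hr : ∀ g, eig_rho D (eX n X) τ g =
      ((τ ^ (Multiplicative.toAdd (nR α g)) : ℂˣ) : ℂ) • indA D (chE (eX n X)) g := fun _ => rfl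
  set o : GR α ⧸ D := ((1 : GR α) : GR α ⧸ D) with ho
  have hoD : ∀ d : D, (d : GR α)⁻¹ • o = o := by
    intro d
    rw [ho]
    show (((d : GR α)⁻¹ * 1 : GR α) : GR α ⧸ D) = _
    rw [QuotientGroup.eq]
    simp
  -- at the base point
  have hbase : ∀ (d : D) (φ : (GR α ⧸ D) → ℂ),
      indA D (chE (eX n X)) (d : GR α) φ o = (eX n X d : ℂ) * φ o := by
    intro d φ
    rw [eig_ind_apply]
    have h1 : (⟨_, sec_mem D (d : GR α) o⟩ : D) = d := by
      apply Subtype.ext
      show (sec D o)⁻¹ * (d : GR α) * sec D ((d : GR α)⁻¹ • o) = d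
      rw [hoD, ho, sec_one, inv_one, one_mul, mul_one]
    rw [h1, hoD]
  have hmul : ∀ g h : D, Z ((g * h : D) : GR α) o = Z g o +
      (eX n X g : ℂ) * (τ ^ (Multiplicative.toAdd (nD D g)) : ℂˣ) * Z h o := by
    intro g h
    rw [Subgroup.coe_mul, hZ, Pi.add_apply, hr, LinearMap.smul_apply, Pi.smul_apply, hbase,
      smul_eq_mul]
    show _ + ((τ ^ (Multiplicative.toAdd (nR α g)) : ℂˣ) : ℂ) * _ =
      _ + _ * ((τ ^ (Multiplicative.toAdd (nR α g)) : ℂˣ) : ℂ) * _
    ring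
  have hint : ∀ g x, IsIntegral ℤ (Z g x) := by
    intro g x
    obtain ⟨f, k, rfl⟩ := GR_cases α g
    rw [hZ, eig_zpow _ Z hZ _ hZt, map_zero, add_zero]
    let N : Submodule ℤ ℂ :=
      { carrier := {c | IsIntegral ℤ c}
        add_mem' := fun h1 h2 => IsIntegral.add h1 h2
        zero_mem' := isIntegral_zero
        smul_mem' := fun m c h1 => by
          show IsIntegral ℤ (m • c)
          exact h1.smul m }
    have h1 := eig_val D (eX n X) τ Z hZ N (fun d c hc => by
      show IsIntegral ℤ _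
      rw [eig_eX]
      exact (eig_eY_int n _).mul hc) (fun i x => by
      show IsIntegral ℤ _
      rw [hZi]
      exact hvi i x) f x
    exact h1
  refine ⟨fun d => Z d o, hmul, ?_, fun g => hint _ _, ?_⟩
  · intro h
    show Z (tR α) o = 0
    rw [hZt]; rfl
  · by_contra hcon
    push Not at hcon
    have ht := hS.t
    -- `z = 0` on `D`
    have hz : ∀ d : D, Z d o = 0 := by
      intro d
      set k : ℤ := Multiplicative.toAdd (nD D d) with hk
      have h1 : d = (d * (⟨tR α, ht⟩ : D) ^ (-k)) * (⟨tR α, ht⟩ : D) ^ k := by group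
      have h2 : nD D (d * (⟨tR α, ht⟩ : D) ^ (-k)) = 1 := by
        rw [map_mul, map_zpow]
        have h3 : nD D (⟨tR α, ht⟩ : D) = Multiplicative.ofAdd 1 := rfl
        rw [h3]
        apply Multiplicative.toAdd.injective
        rw [toAdd_mul, toAdd_zpow, toAdd_ofAdd, ← hk, smul_eq_mul, mul_one, toAdd_one]
        ring
      have h3 := hcon _ h2
      rw [h1, hmul, h3, zero_add]
      have h4 : (((⟨tR α, ht⟩ : D) ^ k : D) : GR α) = tR α ^ k := rfl
      rw [h4, eig_zpow _ Z hZ _ hZt]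
      simp
    -- the function `φ`
    let φ : (GR α ⧸ D) → ℂ := fun x => Z (sec D x) x
    have hφ : ∀ (g : GR α) (x : GR α ⧸ D), Z g x =
        φ x - (eig_rho D (eX n X) τ g φ) x := by
      intro g x
      set d : D := ⟨_, sec_mem D g x⟩ with hd
      have h1 : g * sec D (g⁻¹ • x) = sec D x * d := by
        show g * sec D (g⁻¹ • x) = sec D x * ((sec D x)⁻¹ * g * sec D (g⁻¹ • x))
        group
      have h2 : Z (g * sec D (g⁻¹ • x)) x = Z g x + (eig_rho D (eX n X) τ g φ) x := by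
        rw [hZ, Pi.add_apply, hr, LinearMap.smul_apply, LinearMap.smul_apply, Pi.smul_apply,
          Pi.smul_apply, eig_ind_apply, eig_ind_apply]
      have h3 : Z (sec D x * d) x = φ x := by
        rw [hZ, Pi.add_apply, hr, LinearMap.smul_apply, Pi.smul_apply, eig_ind_apply]
        have h4 : (sec D x)⁻¹ • x = o := by
          have h5 : (sec D x)⁻¹ • ((sec D x : GR α) : GR α ⧸ D) = o := by
            show (((sec D x)⁻¹ * sec D x : GR α) : GR α ⧸ D) = o
            rw [inv_mul_cancel]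
          rwa [sec_mk] at h5
        have h6 : Z d ((sec D x)⁻¹ • x) = 0 := by rw [h4]; exact hz d
        rw [h6, mul_zero, smul_zero, add_zero]
      rw [h1, h3] at h2
      rw [h2]
      ring
    have hφt : ∀ x, φ (tR α • x) = (eX n X ⟨_, sec_mem D (tR α) (tR α • x)⟩ : ℂ) * τ * φ x := by
      intro x
      have h1 := hφ (tR α) (tR α • x)
      have h6 : φ ((tR α)⁻¹ • tR α • x) = φ x := by rw [inv_smul_smul]
      rw [hZt, eig_rho_tR, LinearMap.smul_apply, Pi.smul_apply, eig_ind_apply,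
        h6, smul_eq_mul] at h1
      have h2 : (0 : (GR α ⧸ D) → ℂ) (tR α • x) = 0 := rfl
      rw [h2] at h1
      have h3 := sub_eq_zero.1 h1.symm
      rw [h3]
      ring
    have hnorm : ∀ d, ‖(eX n X d : ℂ)‖ = 1 := by
      intro d
      rw [eig_eX]
      unfold eY
      exact Circle.norm_coe _
    have hφ0 : φ = 0 := by
      have : Nonempty (GR α ⧸ D) := ⟨o⟩
      obtain ⟨x, hx⟩ := Finite.exists_max fun x => ‖φ x‖
      have h1 := hx (tR α • x)
      rw [hφt, norm_mul, norm_mul, hnorm, one_mul] at h1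
      have h2 : ‖φ x‖ = 0 := by
        by_contra h3
        have h4 : 0 < ‖φ x‖ := lt_of_le_of_ne (norm_nonneg _) (Ne.symm h3)
        nlinarith
      funext y
      have h3 := hx y
      rw [h2] at h3
      exact norm_le_zero_iff.1 h3
    apply hv0'
    funext i x
    rw [← hZi, hφ, hφ0, map_zero]
    simp

end

end Pool.Agent.F8.CG
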