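import Pool.Agent.Lib.MP_305fdd_al.F8.CG.StmR

/-! # MP_305fdd_al, congruence subgroups, piece gen: the loops generate -/

set_option autoImplicit false

namespace Pool.Agent.F8.CG

open Pool.Agent.F8.BG

section gen

variable {ι : Type}

private theorem gen_itw (w : ι → List ι) (l : ℕ) : ∀ (l' : ℕ) (i : ι),
    itw w (l + l') i = (itw w l i).flatMap (itw w l')
  | 0, i => by
    have h : itw w 0 = fun k => [k] := rfl
    rw [h, List.flatMap_singleton', Nat.add_zero]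
  | l' + 1, i => by
    have h : itw w (l' + 1) = fun k => (itw w l' k).flatMap w := rfl
    have h1 : itw w (l + (l' + 1)) i = (itw w (l + l') i).flatMap w := rfl
    rw [h1, gen_itw w l l' i, h, List.flatMap_assoc]

private theorem gen_itw1 (w : ι → List ι) (i : ι) : itw w 1 i = w i := by
  show [i].flatMap w = w i
  simp

private theorem gen_pw (α : MulAut (FreeGroup ι)) (w : ι → List ι)
    (hw : ∀ i, α (FreeGroup.of i) = BG.pw (w i)) (L : List ι) :
    BG.pw (L.flatMap w) = α (BG.pw L) := by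
  induction L with
  | nil => simp
  | cons i L ih => rw [List.flatMap_cons, pw_append, ih, pw_cons, map_mul, hw]

private theorem gen_pwl (α : MulAut (FreeGroup ι)) (w : ι → List ι)
    (hw : ∀ i, α (FreeGroup.of i) = BG.pw (w i)) (l : ℕ) (L : List ι) :
    BG.pw (L.flatMap (itw w l)) = (α ^ l) (BG.pw L) := by
  induction l with
  | zero =>
    have h : itw w 0 = fun k => [k] := rfl
    rw [h, List.flatMap_singleton', pow_zero, MulAut.one_apply]
  | succ l ih =>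
    have h : itw w (l + 1) = fun k => (itw w l k).flatMap w := rfl
    rw [h, ← List.flatMap_assoc, gen_pw α w hw, ih, pow_succ', MulAut.mul_apply]

private theorem gen_pe {V : Type} [MulAction (FreeGroup ι) V] (l : List ι) :
    ∀ (v : V) (e : V × ι), e ∈ pe v l → ∃ l₁ l₂, l = l₁ ++ e.2 :: l₂ ∧
      e.1 = (BG.pw l₁)⁻¹ • v := by
  induction l with
  | nil =>
    intro v e he
    simp at he
  | cons i l ih =>
    intro v e he
    rw [pe_cons, List.mem_cons] at he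
    rcases he with rfl | he
    · exact ⟨[], l, rfl, by simp⟩
    · obtain ⟨l₁, l₂, h1, h2⟩ := ih _ e he
      refine ⟨i :: l₁, l₂, by rw [h1]; rfl, ?_⟩
      rw [h2, pw_cons, mul_inv_rev, mul_smul]

/-- reached from the edge `e` after `l` steps -/
private def gen_RS (w : ι → List ι) {V : Type} [MulAction (FreeGroup ι) V] (ψ : Equiv.Perm V)
    (e : V × ι) (l : ℕ) (e' : V × ι) : Prop :=
  ∃ u u' : List ι, itw w l e.2 = u ++ e'.2 :: u' ∧ e'.1 = (BG.pw u)⁻¹ • (ψ ^ l) e.1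

private theorem gen_psi {α : MulAut (FreeGroup ι)} {V : Type} [MulAction (FreeGroup ι) V]
    {ψ : Equiv.Perm V} (hψ : ∀ (g : FreeGroup ι) (v : V), ψ (g • v) = α g • ψ v) (l : ℕ)
    (g : FreeGroup ι) (v : V) : (ψ ^ l) (g • v) = (α ^ l) g • (ψ ^ l) v := by
  induction l with
  | zero => simp
  | succ l ih =>
    rw [pow_succ', Equiv.Perm.mul_apply, ih, hψ, pow_succ', MulAut.mul_apply,
      Equiv.Perm.mul_apply]

private theorem gen_comp {α : MulAut (FreeGroup ι)} {w : ι → List ι}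
    (hw : ∀ i, α (FreeGroup.of i) = BG.pw (w i)) {V : Type} [MulAction (FreeGroup ι) V]
    {ψ : Equiv.Perm V} (hψ : ∀ (g : FreeGroup ι) (v : V), ψ (g • v) = α g • ψ v)
    {e e' e'' : V × ι} {l l' : ℕ} (h : gen_RS w ψ e l e') (h' : gen_RS w ψ e' l' e'') :
    gen_RS w ψ e (l + l') e'' := by
  obtain ⟨u, u', h1, h2⟩ := h
  obtain ⟨y, y', h3, h4⟩ := h'
  refine ⟨u.flatMap (itw w l') ++ y, y' ++ u'.flatMap (itw w l'), ?_, ?_⟩
  · rw [gen_itw, h1, List.flatMap_append, List.flatMap_cons, h3]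
    simp [List.append_assoc]
  · rw [h4, h2, gen_psi hψ, pw_append, gen_pwl α w hw, mul_inv_rev, mul_smul, map_inv]
    congr 2
    rw [add_comm, pow_add, Equiv.Perm.mul_apply]

private theorem gen_step {w : ι → List ι} {V : Type} [MulAction (FreeGroup ι) V]
    {ψ : Equiv.Perm V} {e e' : V × ι} (h : e' ∈ pe (ψ e.1) (w e.2)) : gen_RS w ψ e 1 e' := by
  obtain ⟨l₁, l₂, h1, h2⟩ := gen_pe _ _ _ h
  exact ⟨l₁, l₂, by rw [gen_itw1, h1], by rw [h2, pow_one]⟩

private theorem gen_ne {α : MulAut (FreeGroup ι)} {w : ι → List ι}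
    (hw : ∀ i, α (FreeGroup.of i) = BG.pw (w i)) (i : ι) : w i ≠ [] := by
  classical
  intro h
  have h1 := hw i
  rw [h, pw_nil, ← map_one α] at h1
  exact FreeGroup.of_ne_one i (α.injective h1)

/-- all edges of a finite transitive set can be reached -/
private theorem gen_conn (hi1 : BG.S_i1) (hi2 : BG.S_i2) [Finite ι] {α : MulAut (FreeGroup ι)}
    {w : ι → List ι} (hP : Pos α w) {V : Type} [Finite V] [MulAction (FreeGroup ι) V]
    {ψ : Equiv.Perm V} (hψ : ∀ (g : FreeGroup ι) (v : V), ψ (g • v) = α g • ψ v)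
    (htr : ∀ v v' : V, ∃ g : FreeGroup ι, g • v = v') (e e' : V × ι) :
    ∃ l, 1 ≤ l ∧ gen_RS w ψ e l e' := by
  have hSf : ({e' | ∃ l, 1 ≤ l ∧ gen_RS w ψ e l e'} : Set (V × ι)).Finite := Set.toFinite _
  have hS : ∀ e₁ ∈ ({e' | ∃ l, 1 ≤ l ∧ gen_RS w ψ e l e'} : Set (V × ι)),
      ∀ e₂ ∈ pe (ψ e₁.1) (w e₁.2), e₂ ∈ ({e' | ∃ l, 1 ≤ l ∧ gen_RS w ψ e l e'} : Set (V × ι)) := by
    rintro e₁ ⟨l, hl, h⟩ e₂ h2
    exact ⟨l + 1, by omega, gen_comp hP.eq hψ h (gen_step h2)⟩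
  have hS2 : ∀ (v : V) (i : ι), ∀ e₂ ∈ pe (ψ v) (w i),
      e₂ ∈ ({e' | ∃ l, 1 ≤ l ∧ gen_RS w ψ e l e'} : Set (V × ι)) ↔
      (v, i) ∈ ({e' | ∃ l, 1 ≤ l ∧ gen_RS w ψ e l e'} : Set (V × ι)) :=
    fun v i e₂ h2 => ⟨hi1 ι w hP.irr V ψ _ hSf hS v i e₂ h2, fun h => hS (v, i) h e₂ h2⟩
  obtain ⟨k, L, hk⟩ := List.exists_cons_of_ne_nil (gen_ne hP.eq e.2)
  have h0 : (ψ e.1, k) ∈ ({e' | ∃ l, 1 ≤ l ∧ gen_RS w ψ e l e'} : Set (V × ι)) :=
    ⟨1, le_refl 1, gen_step (by rw [hk, pe_cons]; exact List.mem_cons_self)⟩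
  obtain ⟨g, hg⟩ := htr (ψ e.1) e'.1
  have h1 := hi2 ι α w hP V ψ hψ _ hS2 (ψ e.1) k h0 g e'.2
  rw [hg] at h1
  exact h1

/-- the action of the free group -/
private abbrev gen_act (α : MulAut (FreeGroup ι)) (L : Subgroup (GR α)) :
    MulAction (FreeGroup ι) (GR α ⧸ L) := MulAction.compHom _ (iR α)

attribute [local instance] gen_act

private theorem gen_smul {α : MulAut (FreeGroup ι)} {L : Subgroup (GR α)} (g : FreeGroup ι)
    (v : GR α ⧸ L) : g • v = iR α g • v := rfl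

private theorem gen_hpsi {α : MulAut (FreeGroup ι)} {L : Subgroup (GR α)} (g : FreeGroup ι)
    (v : GR α ⧸ L) : (MulAction.toPerm (tR α) : Equiv.Perm (GR α ⧸ L)) (g • v) =
      α g • (MulAction.toPerm (tR α) : Equiv.Perm (GR α ⧸ L)) v := by
  show tR α • (iR α g • v) = iR α (α g) • (tR α • v)
  rw [smul_smul, smul_smul, tR_mul]

private theorem gen_ppow {α : MulAut (FreeGroup ι)} {L : Subgroup (GR α)} (l : ℕ)
    (v : GR α ⧸ L) : ((MulAction.toPerm (tR α) : Equiv.Perm (GR α ⧸ L)) ^ l) v =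
      tR α ^ l • v := by
  induction l with
  | zero => simp
  | succ l ih =>
    rw [pow_succ', Equiv.Perm.mul_apply, ih, MulAction.toPerm_apply, smul_smul, pow_succ']

private theorem gen_pi {α : MulAut (FreeGroup ι)} {H D : Subgroup (GR α)} (hHD : H ≤ D)
    (g : GR α) (v : GR α ⧸ H) :
    Subgroup.quotientMapOfLE hHD (g • v) = g • Subgroup.quotientMapOfLE hHD v := by
  obtain ⟨x, rfl⟩ := QuotientGroup.mk_surjective v
  rfl

end gen

theorem p_gen (hi1 : BG.S_i1) (hi2 : BG.S_i2) : R_gen := by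
  intro ι _ α w i₀ D hSt j f hf
  haveI := hSt.fin
  letI hact : ∀ L : Subgroup (GR α), MulAction (FreeGroup ι) (GR α ⧸ L) := gen_act α
  have hw := hSt.pos.eq
  set H : Subgroup (GR α) := Subgroup.closure {d | ∃ l, 1 ≤ l ∧ d ∈ LpS α w D j l} with hH
  have hHD : H ≤ D := by
    rw [hH, Subgroup.closure_le]
    rintro d ⟨l, _, hd⟩
    exact hd.1
  -- notation
  let ψD : Equiv.Perm (GR α ⧸ D) := MulAction.toPerm (tR α)
  let ψH : Equiv.Perm (GR α ⧸ H) := MulAction.toPerm (tR α)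
  have hψD : ∀ (g : FreeGroup ι) (v : GR α ⧸ D), ψD (g • v) = α g • ψD v := gen_hpsi
  have hψH : ∀ (g : FreeGroup ι) (v : GR α ⧸ H), ψH (g • v) = α g • ψH v := gen_hpsi
  let π : GR α ⧸ H → GR α ⧸ D := Subgroup.quotientMapOfLE hHD
  have hπ : ∀ (g : GR α) (v : GR α ⧸ H), π (g • v) = g • π v := gen_pi hHD
  let o : GR α ⧸ H := ((1 : GR α) : GR α ⧸ H)
  let b : GR α ⧸ D := ((1 : GR α) : GR α ⧸ D)
  have hπo : π o = b := rfl
  -- transitivity
  have htr1 : ∀ v : GR α ⧸ D, ∃ g : FreeGroup ι, g • b = v := by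
    intro v
    obtain ⟨y, rfl⟩ := QuotientGroup.mk_surjective v
    obtain ⟨u, n, rfl⟩ := GR_cases α y
    refine ⟨u, ?_⟩
    show iR α u • ((1 : GR α) : GR α ⧸ D) = _
    rw [MulAction.Quotient.smul_coe, smul_eq_mul, mul_one, QuotientGroup.eq]
    have : (iR α u)⁻¹ * (iR α u * tR α ^ n) = tR α ^ n := by group
    rw [this]
    exact D.zpow_mem hSt.t n
  have htr : ∀ v v' : GR α ⧸ D, ∃ g : FreeGroup ι, g • v = v' := by
    intro v v'
    obtain ⟨g, hg⟩ := htr1 v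
    obtain ⟨g', hg'⟩ := htr1 v'
    refine ⟨g' * g⁻¹, ?_⟩
    rw [← hg, ← hg', mul_smul, inv_smul_smul]
  have hconn := gen_conn hi1 hi2 hSt.pos hψD htr
  -- claim (2)
  have h2 : ∀ (v : GR α ⧸ H) (l : ℕ), gen_RS w ψH (o, j) l (v, j) → π v = b → v = o := by
    rintro v l ⟨u, u', hu, hv⟩ hb
    have hv' : v = (((iR α (BG.pw u))⁻¹ * tR α ^ l : GR α) : GR α ⧸ H) := by
      have e1 : v = (BG.pw u)⁻¹ • (ψH ^ l) o := hv
      rw [gen_ppow] at e1
      rw [e1]
      show iR α ((BG.pw u)⁻¹) • tR α ^ l • ((1 : GR α) : GR α ⧸ H) = _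
      rw [smul_smul, MulAction.Quotient.smul_coe, smul_eq_mul, mul_one, map_inv]
    have hD1 : (iR α (BG.pw u))⁻¹ * tR α ^ l ∈ D := by
      rw [hv'] at hb
      have h3 : (((iR α (BG.pw u))⁻¹ * tR α ^ l : GR α) : GR α ⧸ D) = ((1 : GR α) : GR α ⧸ D) := hb
      rw [eq_comm, QuotientGroup.eq] at h3
      simpa using h3
    rcases Nat.eq_zero_or_pos l with rfl | hl
    · have h4 : [j] = u ++ j :: u' := hu
      have h5 : u = [] := by
        have := congrArg List.length h4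
        simp only [List.length_cons, List.length_nil, List.length_append] at this
        exact List.length_eq_zero_iff.1 (by omega)
      rw [hv', h5]
      simp
      rfl
    · have hd : ((iR α (BG.pw u))⁻¹ * tR α ^ l)⁻¹ ∈ H := by
        apply Subgroup.subset_closure
        refine ⟨l, hl, D.inv_mem hD1, u, u', hu, ?_⟩
        rw [mul_inv_rev, inv_inv]
      rw [hv']
      show (((iR α (BG.pw u))⁻¹ * tR α ^ l : GR α) : GR α ⧸ H) = ((1 : GR α) : GR α ⧸ H)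
      rw [QuotientGroup.eq]
      simpa using hd
  -- the set `S`
  set S : Set ((GR α ⧸ H) × ι) := {e | ∃ l, gen_RS w ψH (o, j) l e} with hSdef
  have hSo : (o, j) ∈ S := ⟨0, [], [], rfl, by simp⟩
  have hSfw : ∀ e ∈ S, ∀ e' ∈ pe (ψH e.1) (w e.2), e' ∈ S := by
    rintro e ⟨l, h⟩ e' h'
    exact ⟨l + 1, gen_comp hw hψH h (gen_step h')⟩
  have hSf : S.Finite := by
    have hmap : Set.InjOn (fun e : (GR α ⧸ H) × ι => (π e.1, e.2)) S := by
      rintro ⟨v₁, i₁⟩ hv₁ ⟨v₂, i₂⟩ hv₂ h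
      have h3 : π v₁ = π v₂ := congrArg Prod.fst h
      have h4 : i₁ = i₂ := congrArg Prod.snd h
      subst h4
      obtain ⟨l, _, u, u', h5, h6⟩ := hconn (π v₁, i₁) (b, j)
      have h7 : ∀ v : GR α ⧸ H, (v, i₁) ∈ S → π v = π v₁ → (BG.pw u)⁻¹ • (ψH ^ l) v = o := by
        rintro v ⟨l₀, h8⟩ h9
        refine h2 _ (l₀ + l) (gen_comp hw hψH h8 ⟨u, u', h5, rfl⟩) ?_
        have h10 : b = (BG.pw u)⁻¹ • (ψD ^ l) (π v₁) := h6
        rw [h10]
        show π (iR α ((BG.pw u)⁻¹) • (ψH ^ l) v) = iR α ((BG.pw u)⁻¹) • (ψD ^ l) (π v₁)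
        rw [hπ, ← h9, gen_ppow, gen_ppow, hπ]
      have h11 := (h7 v₁ hv₁ rfl).trans (h7 v₂ hv₂ h3.symm).symm
      have h12 := (ψH ^ l).injective (smul_left_cancel _ h11)
      rw [h12]
    exact Set.Finite.of_finite_image (Set.toFinite _) hmap
  have hS2 : ∀ (v : GR α ⧸ H) (i : ι), ∀ e' ∈ pe (ψH v) (w i), e' ∈ S ↔ (v, i) ∈ S :=
    fun v i e' he' => ⟨hi1 ι w hSt.pos.irr (GR α ⧸ H) ψH S hSf hSfw v i e' he',
      fun h => hSfw (v, i) h e' he'⟩
  have hfin := hi2 ι α w hSt.pos (GR α ⧸ H) ψH hψH S hS2 o j hSo f j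
  obtain ⟨l, hl⟩ := hfin
  have h13 : π (f • o) = b := by
    show π (iR α f • o) = b
    rw [hπ, hπo]
    show iR α f • ((1 : GR α) : GR α ⧸ D) = ((1 : GR α) : GR α ⧸ D)
    rw [MulAction.Quotient.smul_coe, smul_eq_mul, mul_one, QuotientGroup.eq]
    simpa using D.inv_mem hf
  have h14 := h2 _ l hl h13
  have h15 : ((iR α f * 1 : GR α) : GR α ⧸ H) = ((1 : GR α) : GR α ⧸ H) := h14
  rw [eq_comm, QuotientGroup.eq] at h15
  simpa using h15

end Pool.Agent.F8.CG
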