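import Pool.Agent.Lib.MP_305fdd_al.F8.CG.StmR

/-!
# MP_305fdd_al, congruence subgroups: the number of the loops is not bounded (CG grow)
-/

set_option autoImplicit false

namespace Pool.Agent.F8.CG

open Pool.Agent.F8.BG Pool.Agent.Lib.MP_305fdd_al Pool.Agent.F8

section Grow

variable {ι : Type}

/-- the length of a positive word, as a homomorphism -/
private def growLen : FreeGroup ι →* Multiplicative ℤ :=
  FreeGroup.lift (fun _ => Multiplicative.ofAdd (1 : ℤ))

private theorem grow_len (L : List ι) :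
    growLen (BG.pw L) = Multiplicative.ofAdd (L.length : ℤ) := by
  induction L with
  | nil => simp
  | cons i L ih =>
    rw [BG.pw_cons, map_mul, ih]
    unfold growLen
    rw [FreeGroup.lift_apply_of, ← ofAdd_add]
    congr 1
    rw [List.length_cons]
    push_cast
    ring

private theorem grow_flat {α : MulAut (FreeGroup ι)} {w : ι → List ι} {l : ℕ}
    (h : ∀ i, (α ^ l) (FreeGroup.of i) = BG.pw (itw w l i)) (L : List ι) :
    (α ^ l) (BG.pw L) = BG.pw (L.flatMap (itw w l)) := by
  induction L with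
  | nil => simp
  | cons i L ih => rw [BG.pw_cons, map_mul, h, ih, List.flatMap_cons, BG.pw_append]

/-- the words of the powers of a loop -/
private def growU (w : ι → List ι) (l : ℕ) (u : List ι) : ℕ → List ι
  | 0 => []
  | m + 1 => (growU w l u m).flatMap (itw w l) ++ u

private theorem grow_pow {α : MulAut (FreeGroup ι)} {w : ι → List ι} {l : ℕ}
    (h : ∀ i, (α ^ l) (FreeGroup.of i) = BG.pw (itw w l i)) (u : List ι) (m : ℕ) :
    ((tR α ^ l)⁻¹ * iR α (BG.pw u)) ^ m =
      (tR α ^ (l * m))⁻¹ * iR α (BG.pw (growU w l u m)) := by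
  induction m with
  | zero => simp [growU]
  | succ m ih =>
    have h1 : iR α (BG.pw (growU w l u m)) * (tR α ^ l)⁻¹ =
        (tR α ^ l)⁻¹ * iR α (BG.pw ((growU w l u m).flatMap (itw w l))) := by
      rw [← grow_flat h, ← tR_pow_conj]
      group
    have h2 : (tR α ^ (l * (m + 1)))⁻¹ = (tR α ^ (l * m))⁻¹ * (tR α ^ l)⁻¹ := by
      rw [← mul_inv_rev, ← pow_add]
      congr 2
      ring
    rw [pow_succ, ih, h2]
    show _ = _ * iR α (BG.pw ((growU w l u m).flatMap (itw w l) ++ u))
    rw [BG.pw_append, map_mul]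
    calc (tR α ^ (l * m))⁻¹ * iR α (BG.pw (growU w l u m)) * ((tR α ^ l)⁻¹ * iR α (BG.pw u))
        = (tR α ^ (l * m))⁻¹ * (iR α (BG.pw (growU w l u m)) * (tR α ^ l)⁻¹) *
          iR α (BG.pw u) := by group
      _ = _ := by rw [h1]; group

private theorem grow_sub {w : ι → List ι} {l : ℕ} {u v : List ι} (h : u.Sublist v) (m : ℕ) :
    (growU w l u m).Sublist (growU w l v m) := by
  induction m with
  | zero => exact List.Sublist.refl _
  | succ m ih => exact (ih.flatMap _).append h

private theorem grow_lt {w : ι → List ι} {l : ℕ} {u v : List ι} (h : u.Sublist v)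
    (hl : u.length < v.length) (m : ℕ) (hm : 1 ≤ m) :
    (growU w l u m).length < (growU w l v m).length := by
  obtain ⟨m, rfl⟩ : ∃ k, m = k + 1 := ⟨m - 1, by omega⟩
  show ((growU w l u m).flatMap (itw w l) ++ u).length <
    ((growU w l v m).flatMap (itw w l) ++ v).length
  rw [List.length_append, List.length_append]
  have h1 : ((growU w l u m).flatMap (itw w l)).Sublist ((growU w l v m).flatMap (itw w l)) :=
    (grow_sub h m).flatMap _
  have h2 := h1.length_le
  omega

/-- different loops of the same level have different powers -/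
private theorem grow_ne_lt {α : MulAut (FreeGroup ι)} {w : ι → List ι} {l : ℕ}
    (h : ∀ i, (α ^ l) (FreeGroup.of i) = BG.pw (itw w l i)) {u v : List ι}
    (hs : u.Sublist v) (hl : u.length < v.length) (m : ℕ) (hm : 1 ≤ m) :
    ((tR α ^ l)⁻¹ * iR α (BG.pw u)) ^ m ≠ ((tR α ^ l)⁻¹ * iR α (BG.pw v)) ^ m := by
  intro he
  rw [grow_pow h, grow_pow h] at he
  have h1 := iR_injective α (mul_left_cancel he)
  have h2 := congrArg growLen h1
  rw [grow_len, grow_len] at h2
  have h3 : ((growU w l u m).length : ℤ) = (growU w l v m).length :=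
    Multiplicative.ofAdd.injective h2
  have h4 := grow_lt (w := w) (l := l) hs hl m hm
  omega

private theorem grow_ne {α : MulAut (FreeGroup ι)} {w : ι → List ι} {l : ℕ}
    (h : ∀ i, (α ^ l) (FreeGroup.of i) = BG.pw (itw w l i)) {D : Subgroup (GR α)} {j : ι}
    {a b : GR α} (ha : a ∈ LpS α w D j l) (hb : b ∈ LpS α w D j l) (hab : a ≠ b)
    (m : ℕ) (hm : 1 ≤ m) : a ^ m ≠ b ^ m := by
  obtain ⟨_, u, u', hu, rfl⟩ := ha
  obtain ⟨_, v, v', hv, rfl⟩ := hb
  have hpu : u <+: itw w l j := by rw [hu]; exact List.prefix_append _ _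
  have hpv : v <+: itw w l j := by rw [hv]; exact List.prefix_append _ _
  have hne : u ≠ v := by
    intro he
    exact hab (by rw [he])
  rcases lt_trichotomy u.length v.length with hlt | heq | hgt
  · exact grow_ne_lt h (List.prefix_of_prefix_length_le hpu hpv hlt.le).sublist hlt m hm
  · exact absurd ((List.prefix_of_prefix_length_le hpu hpv heq.le).eq_of_length heq) hne
  · exact (grow_ne_lt h (List.prefix_of_prefix_length_le hpv hpu hgt.le).sublist hgt m hm).symm

/-- powers of different generators do not commute -/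
private theorem grow_comm {i j : ι} (hij : i ≠ j) (m n : ℕ) (hm : 1 ≤ m) (hn : 1 ≤ n) :
    FreeGroup.of i ^ m * FreeGroup.of j ^ n ≠ FreeGroup.of j ^ n * FreeGroup.of i ^ m := by
  classical
  intro he
  let A : Equiv.Perm ℚ := Equiv.addRight (1 : ℚ)
  let C : Equiv.Perm ℚ := Equiv.mulLeft₀ (2 : ℚ) two_ne_zero
  let f : FreeGroup ι →* Equiv.Perm ℚ :=
    FreeGroup.lift (fun k => if k = i then A else if k = j then C else 1)
  have h1 := congrArg f he
  have hfi : f (FreeGroup.of i) = A := by
    show FreeGroup.lift _ _ = _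
    rw [FreeGroup.lift_apply_of, if_pos rfl]
  have hfj : f (FreeGroup.of j) = C := by
    show FreeGroup.lift _ _ = _
    rw [FreeGroup.lift_apply_of, if_neg hij.symm, if_pos rfl]
  rw [map_mul, map_mul, map_pow, map_pow, hfi, hfj] at h1
  have hA : ∀ (k : ℕ) (x : ℚ), (A ^ k) x = x + k := by
    intro k
    induction k with
    | zero => intro x; simp
    | succ k ih =>
      intro x
      rw [pow_succ, Equiv.Perm.mul_apply, ih]
      show (x + 1) + (k : ℚ) = _
      push_cast
      ring
  have hC : ∀ (k : ℕ) (x : ℚ), (C ^ k) x = 2 ^ k * x := by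
    intro k
    induction k with
    | zero => intro x; simp
    | succ k ih =>
      intro x
      rw [pow_succ, Equiv.Perm.mul_apply, ih]
      show 2 ^ k * (2 * x) = _
      ring
  have h2 := congrArg (fun e : Equiv.Perm ℚ => e 0) h1
  simp only [Equiv.Perm.mul_apply, hA, hC] at h2
  have h3 : (m : ℚ) * (2 ^ n - 1) = 0 := by linarith
  have h4 : (1 : ℚ) ≤ m := by exact_mod_cast hm
  have h5 : (2 : ℚ) ≤ 2 ^ n := by
    calc (2 : ℚ) = 2 ^ 1 := by norm_num
      _ ≤ 2 ^ n := pow_le_pow_right₀ (by norm_num) hn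
  have h6 : 0 < (m : ℚ) * (2 ^ n - 1) := mul_pos (by linarith) (by linarith)
  linarith

/-- there are at least two letters -/
private theorem grow_two {α : MulAut (FreeGroup ι)} {w : ι → List ι} (hP : Pos α w) (i₀ : ι) :
    ∃ i, i ≠ i₀ := by
  by_contra hno
  push Not at hno
  have hlen : (w i₀).length = 1 := by
    have h1 : growLen.comp α.toMonoidHom =
        (zpowGroupHom ((w i₀).length : ℤ)).comp (growLen (ι := ι)) := by
      apply FreeGroup.ext_hom
      intro i
      rw [hno i]
      show growLen (α (FreeGroup.of i₀)) = (growLen (FreeGroup.of i₀)) ^ ((w i₀).length : ℤ)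
      rw [hP.eq, grow_len]
      unfold growLen
      rw [FreeGroup.lift_apply_of, ← ofAdd_zsmul]
      simp
    obtain ⟨y, hy⟩ := α.surjective (FreeGroup.of i₀)
    have h2 := DFunLike.congr_fun h1 y
    have h3 : growLen (α y) = (growLen y) ^ ((w i₀).length : ℤ) := h2
    rw [hy] at h3
    have h4 : (growLen (FreeGroup.of i₀)) = Multiplicative.ofAdd (1 : ℤ) := by
      unfold growLen
      rw [FreeGroup.lift_apply_of]
    rw [h4] at h3
    have h5 : (1 : ℤ) = ((w i₀).length : ℤ) * Multiplicative.toAdd (growLen y) := by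
      have := congrArg Multiplicative.toAdd h3
      rw [toAdd_zpow] at this
      simpa using this
    have h6 : ((w i₀).length : ℤ) ∣ 1 := ⟨_, h5⟩
    have h7 := Int.natAbs_dvd_natAbs.2 h6
    simpa using h7
  have hturn : ∀ b a, ¬ Turn w b a := by
    intro b a h
    induction h with
    | base i b a h =>
      have h1 := h.length_le
      rw [hno i, hlen] at h1
      simp at h1
    | step b a b' a' h hb ha ih => exact ih
  have hcon := hP.con (Sum.inl i₀) (Sum.inr i₀)
  have hall : ∀ x y : ι ⊕ ι, Relation.EqvGen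
      (fun x y => ∃ b a, x = Sum.inl b ∧ y = Sum.inr a ∧ Turn w b a) x y → x = y := by
    intro x y h
    induction h with
    | rel x y h =>
      obtain ⟨b, a, _, _, h⟩ := h
      exact absurd h (hturn b a)
    | refl x => rfl
    | symm x y _ ih => exact ih.symm
    | trans x y z _ _ ih1 ih2 => exact ih1.trans ih2
  exact absurd (hall _ _ hcon) (by simp)

end Grow

theorem p_grow (hlp : R_lp) (hgen : R_gen) : R_grow := by
  intro ι _ α w i₀ D hS j B r hr
  classical
  obtain ⟨hpw, hmul⟩ := hlp ι α w hS.pos.eq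
  have hfin := hS.fin
  -- two loops which do not commute
  obtain ⟨l₁, d₁, l₂, d₂, hl₁, hd₁, hl₂, hd₂, hne⟩ : ∃ (l₁ : ℕ) (d₁ : GR α) (l₂ : ℕ) (d₂ : GR α),
      1 ≤ l₁ ∧ d₁ ∈ LpS α w D j l₁ ∧ 1 ≤ l₂ ∧ d₂ ∈ LpS α w D j l₂ ∧ d₁ * d₂ ≠ d₂ * d₁ := by
    by_contra hno
    push Not at hno
    set S : Set (GR α) := {d | ∃ l, 1 ≤ l ∧ d ∈ LpS α w D j l} with hSdef
    have hcl : Subgroup.closure S ≤ Subgroup.centralizer S := by
      rw [Subgroup.closure_le]
      rintro x ⟨l, hl, hx⟩
      rw [SetLike.mem_coe, Subgroup.mem_centralizer_iff]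
      rintro y ⟨l', hl', hy⟩
      exact hno l' y l x hl' hy hl hx
    obtain ⟨i, hi⟩ := grow_two hS.pos i₀
    obtain ⟨m, hm, _, hmD⟩ := Subgroup.exists_pow_mem_of_index_ne_zero hfin.index_ne_zero
      (iR α (FreeGroup.of i))
    obtain ⟨n, hn, _, hnD⟩ := Subgroup.exists_pow_mem_of_index_ne_zero hfin.index_ne_zero
      (iR α (FreeGroup.of i₀))
    rw [← map_pow] at hmD hnD
    have h1 := hgen ι α w i₀ D hS j _ hmD
    have h2 := hgen ι α w i₀ D hS j _ hnD
    have h3 := Subgroup.closure_le_centralizer_centralizer S h1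
    rw [Subgroup.mem_centralizer_iff] at h3
    have h4 := h3 _ (hcl h2)
    rw [← map_mul, ← map_mul] at h4
    exact grow_comm hi m n hm hn (iR_injective α h4).symm
  set a : GR α := d₁ * d₂ with ha
  set b : GR α := d₂ * d₁ with hb
  set l : ℕ := l₁ + l₂ with hl
  have hal : a ∈ LpS α w D j l := hmul D j l₁ l₂ d₁ d₂ hd₁ hd₂
  have hbl : b ∈ LpS α w D j l := by
    rw [hl, add_comm]
    exact hmul D j l₂ l₁ d₂ d₁ hd₂ hd₁
  have hone : (1 : GR α) ∈ LpS α w D j 0 := ⟨D.one_mem, [], [], rfl, by simp⟩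
  have hpow : ∀ {c : GR α}, c ∈ LpS α w D j l → ∀ p : ℕ, c ^ p ∈ LpS α w D j (l * p) := by
    intro c hc p
    induction p with
    | zero => simpa using hone
    | succ p ih =>
      rw [pow_succ, Nat.mul_succ]
      exact hmul D j _ _ _ _ ih hc
  have hpq : ∀ k p : ℕ, p ≤ k → a ^ p * b ^ (k - p) ∈ LpS α w D j (l * k) := by
    intro k p hp
    have h1 := hmul D j _ _ _ _ (hpow hal p) (hpow hbl (k - p))
    rw [← Nat.mul_add] at h1
    rwa [Nat.add_sub_cancel' hp] at h1
  have hinj : ∀ k p q : ℕ, p < q → q ≤ k → a ^ p * b ^ (k - p) ≠ a ^ q * b ^ (k - q) := by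
    intro k p q hpq hq he
    have h1 : a ^ q = a ^ p * a ^ (q - p) := by rw [← pow_add]; congr 1; omega
    have h2 : b ^ (k - p) = b ^ (q - p) * b ^ (k - q) := by rw [← pow_add]; congr 1; omega
    rw [h1, h2, mul_assoc] at he
    have h3 := mul_right_cancel (mul_left_cancel he)
    exact grow_ne (hpw l) hal hbl hne (q - p) (by omega) h3.symm
  set k : ℕ := r * (B + 1) with hk
  have hkB : B ≤ k + 1 := by
    have h1 : 1 * (B + 1) ≤ r * (B + 1) := Nat.mul_le_mul_right _ hr
    omega
  refine ⟨l * (B + 1), Nat.mul_pos (by omega) (by omega), ?_⟩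
  let F : Fin (k + 1) → D := fun p => ⟨a ^ (p : ℕ) * b ^ (k - p),
    (hpq k p (by omega)).1⟩
  have hF : Function.Injective F := by
    intro p q he
    have h1 : a ^ (p : ℕ) * b ^ (k - (p : ℕ)) = a ^ (q : ℕ) * b ^ (k - (q : ℕ)) :=
      congrArg Subtype.val he
    rcases lt_trichotomy (p : ℕ) q with hlt | heq | hgt
    · exact absurd h1 (hinj k p q hlt (by omega))
    · exact Fin.ext heq
    · exact absurd h1.symm (hinj k q p hgt (by omega))
  refine ⟨Finset.univ.map ⟨F, hF⟩, ?_, ?_⟩
  · rw [Finset.card_map, Finset.card_univ, Fintype.card_fin]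
    exact hkB
  · intro d hd
    rw [Finset.mem_map] at hd
    obtain ⟨p, _, rfl⟩ := hd
    have h1 := hpq k p (by omega)
    have h2 : l * k = r * (l * (B + 1)) := by rw [hk]; ring
    rw [h2] at h1
    exact h1

end Pool.Agent.F8.CG
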