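import Pool.Agent.Lib.MP_305fdd_al.F8.CG.StmR

/-!
# MP_305fdd_al, congruence subgroups: the elementary lemma on integrality
-/

set_option autoImplicit false

namespace Pool.Agent.F8.CG

open Pool.Agent.F8.BG Pool.Agent.Lib.MP_305fdd_al Pool.Agent.F8

noncomputable section

/-- remainders of successors -/
theorem int_succ_mod (n N : ℕ) (hN : 0 < N) :
    (n % N + 1 = N ∧ (n + 1) % N = 0) ∨ (n % N + 1 ≠ N ∧ (n + 1) % N = n % N + 1) := by
  have h1 : n % N < N := Nat.mod_lt n hN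
  have h2 : N * (n / N) + n % N = n := Nat.div_add_mod n N
  by_cases h : n % N + 1 = N
  · left
    refine ⟨h, ?_⟩
    have h3 : n + 1 = N * (n / N + 1) := by
      rw [mul_add, mul_one]
      omega
    rw [h3]
    exact Nat.mul_mod_right _ _
  · right
    refine ⟨h, ?_⟩
    have h3 : n + 1 = N * (n / N) + (n % N + 1) := by omega
    rw [h3, Nat.mul_add_mod, Nat.mod_eq_of_lt (by omega)]

/-- passages -/
theorem int_pass (n N : ℕ) (hN : 0 < N) : n % N + 1 = N ↔ (N : ℤ) ∣ (n : ℤ) + 1 := by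
  have h0 := int_succ_mod n N hN
  have h1 : (N : ℤ) ∣ (n : ℤ) + 1 ↔ N ∣ n + 1 := by
    rw [← Int.natCast_dvd_natCast]
    push_cast
    rfl
  rw [h1, Nat.dvd_iff_mod_eq_zero]
  rcases h0 with ⟨h2, h3⟩ | ⟨h2, h3⟩
  · exact ⟨fun _ => h3, fun _ => h2⟩
  · constructor
    · intro h; exact absurd h h2
    · intro h; rw [h3] at h; exact absurd h (Nat.succ_ne_zero _)

/-- the bound for one term -/
def int_kap (c : ℝ) (x : ℂ) : ℝ :=
  if 1 < ‖x‖ then (‖x‖ - 1)⁻¹ else if ‖x‖ < 1 then (1 - ‖x‖)⁻¹ else c⁻¹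

theorem int_kap_nonneg (c : ℝ) (hc : 0 < c) (x : ℂ) : 0 ≤ int_kap c x := by
  unfold int_kap
  split_ifs with h1 h2
  · exact inv_nonneg.2 (by linarith)
  · exact inv_nonneg.2 (by linarith)
  · exact inv_nonneg.2 hc.le

theorem int_bound (c : ℝ) (hc : 0 < c) (x : ℂ) (N e : ℕ) (he : e < N)
    (h : ‖x‖ = 1 → c ≤ ‖x ^ N - 1‖) : ‖x‖ ^ e ≤ int_kap c x * ‖x ^ N - 1‖ := by
  unfold int_kap
  obtain ⟨n, rfl⟩ : ∃ n, N = n + 1 := ⟨N - 1, by omega⟩
  split_ifs with h1 h2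
  · have h3 : ‖x‖ ^ e ≤ ‖x‖ ^ n := pow_le_pow_right₀ h1.le (by omega)
    have h4 : ‖x‖ ^ (n + 1) - 1 ≤ ‖x ^ (n + 1) - 1‖ := by
      have := norm_sub_norm_le (x ^ (n + 1)) 1
      rwa [norm_pow, norm_one] at this
    have h5 : ‖x‖ ^ n * (‖x‖ - 1) ≤ ‖x ^ (n + 1) - 1‖ := by
      have h6 : 1 ≤ ‖x‖ ^ n := one_le_pow₀ h1.le
      refine le_trans ?_ h4
      rw [pow_succ]
      linarith
    rw [inv_mul_eq_div, le_div_iff₀ (by linarith)]
    refine le_trans ?_ h5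
    exact mul_le_mul_of_nonneg_right h3 (by linarith)
  · have h3 : ‖x‖ ^ e ≤ 1 := pow_le_one₀ (norm_nonneg _) h2.le
    have h4 : 1 - ‖x‖ ^ (n + 1) ≤ ‖x ^ (n + 1) - 1‖ := by
      have := norm_sub_norm_le 1 (x ^ (n + 1))
      rw [norm_pow, norm_one, norm_sub_rev] at this
      exact this
    have h5 : 1 - ‖x‖ ≤ ‖x ^ (n + 1) - 1‖ := by
      refine le_trans ?_ h4
      have h6 : ‖x‖ ^ (n + 1) ≤ ‖x‖ := by
        rw [pow_succ]
        have : ‖x‖ ^ n ≤ 1 := pow_le_one₀ (norm_nonneg _) h2.le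
        nlinarith [norm_nonneg x]
      linarith
    rw [inv_mul_eq_div, le_div_iff₀ (by linarith)]
    nlinarith
  · have h3 : ‖x‖ = 1 := le_antisymm (not_lt.1 h1) (not_lt.1 h2)
    rw [h3, one_pow, inv_mul_eq_div, le_div_iff₀ hc, one_mul]
    exact h h3

/-- pigeonhole principle -/
theorem int_pig {L : Type} [Field L] (τ : L) (hτ : τ ≠ 0)
    (hroot : ∀ n : ℕ, 1 ≤ n → τ ^ n ≠ 1) (S : Finset L) (U : ℕ → L) (hU : ∀ j, U j ∈ S) (j : ℕ)
    (hrun : ∀ t, t < S.card → U (j + t + 1) = τ * U (j + t)) :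
    U j = 0 ∧ U (j + S.card) = 0 := by
  have h1 : ∀ t, t ≤ S.card → U (j + t) = τ ^ t * U j := by
    intro t
    induction t with
    | zero => intro _; simp
    | succ t ih =>
      intro ht
      have h2 := hrun t (by omega)
      rw [ih (by omega)] at h2
      rw [← add_assoc, h2, pow_succ]
      ring
  have h2 : U j = 0 := by
    obtain ⟨t₁, ht₁, t₂, ht₂, hne, heq⟩ := Finset.exists_ne_map_eq_of_card_lt_of_maps_to
      (s := Finset.range (S.card + 1)) (t := S) (f := fun t => U (j + t))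
      (by rw [Finset.card_range]; omega) (fun t _ => hU _)
    rw [Finset.mem_range] at ht₁ ht₂
    rw [h1 t₁ (by omega), h1 t₂ (by omega)] at heq
    by_contra h0
    have h3 : τ ^ t₁ = τ ^ t₂ := mul_right_cancel₀ h0 heq
    have key : ∀ a b : ℕ, a < b → τ ^ a = τ ^ b → False := by
      intro a b hab h
      obtain ⟨d, rfl⟩ := Nat.exists_eq_add_of_lt hab
      have h4 : τ ^ a * τ ^ (d + 1) = τ ^ a * 1 := by
        rw [mul_one, ← pow_add, ← add_assoc]
        exact h.symm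
      have h5 := mul_left_cancel₀ (pow_ne_zero a hτ) h4
      exact hroot (d + 1) (by omega) h5
    rcases lt_or_gt_of_ne hne with h | h
    · exact key _ _ h h3
    · exact key _ _ h h3.symm
  exact ⟨h2, by rw [h1 _ le_rfl, h2, mul_zero]⟩

/-- the quotients -/
theorem int_quot {L : Type} [Field L] (τ : L) (hτi : IsIntegral ℤ τ) {k : ℕ} (v : Fin k → ℕ)
    (a : Fin k → L) (ha : ∀ i, IsIntegral ℤ (a i)) (N : ℕ)
    (h : ∃ u : L, IsIntegral ℤ u ∧ ∑ i, a i * τ ^ (v i) = (τ ^ N - 1) * u) (j : ℕ) :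
    ∃ u : L, IsIntegral ℤ u ∧ ∑ i, a i * τ ^ ((v i + j) % N) = (τ ^ N - 1) * u := by
  obtain ⟨u, hu, he⟩ := h
  have h1 : ∀ q : ℕ, ∃ g : L, IsIntegral ℤ g ∧ τ ^ (N * q) - 1 = (τ ^ N - 1) * g := by
    intro q
    refine ⟨∑ s ∈ Finset.range q, (τ ^ N) ^ s, ?_, ?_⟩
    · exact IsIntegral.sum _ fun s _ => (hτi.pow N).pow s
    · rw [pow_mul, mul_geom_sum]
  choose g hg hge using h1
  refine ⟨τ ^ j * u - ∑ i, a i * (τ ^ ((v i + j) % N) * g ((v i + j) / N)), ?_, ?_⟩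
  · refine ((hτi.pow j).mul hu).sub (IsIntegral.sum _ fun i _ => ?_)
    exact (ha i).mul ((hτi.pow _).mul (hg _))
  · rw [mul_sub, Finset.mul_sum]
    have h2 : (τ ^ N - 1) * (τ ^ j * u) = ∑ i, a i * τ ^ (v i + j) := by
      calc (τ ^ N - 1) * (τ ^ j * u) = τ ^ j * ((τ ^ N - 1) * u) := by ring
        _ = τ ^ j * ∑ i, a i * τ ^ (v i) := by rw [he]
        _ = ∑ i, a i * τ ^ (v i + j) := by
          rw [Finset.mul_sum]
          apply Finset.sum_congr rfl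
          intro i _
          rw [pow_add]; ring
    rw [h2, ← Finset.sum_sub_distrib]
    apply Finset.sum_congr rfl
    intro i _
    have h3 : τ ^ (v i + j) = τ ^ ((v i + j) % N) * τ ^ (N * ((v i + j) / N)) := by
      rw [← pow_add]
      congr 1
      exact (Nat.mod_add_div _ _).symm
    have h4 := hge ((v i + j) / N)
    rw [h3]
    have h5 : τ ^ (N * ((v i + j) / N)) = 1 + (τ ^ N - 1) * g ((v i + j) / N) := by
      rw [← h4]; ring
    rw [h5]
    ring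

/-- the recursion -/
theorem int_rec {L : Type} [Field L] (τ : L) {k : ℕ} (v : Fin k → ℕ)
    (a : Fin k → L) (N : ℕ) (hN : 0 < N) (hne : τ ^ N ≠ 1) (U : ℕ → L)
    (hU : ∀ j, ∑ i, a i * τ ^ ((v i + j) % N) = (τ ^ N - 1) * U j) (j : ℕ) :
    U (j + 1) = τ * U j - ∑ i, if (v i + j) % N + 1 = N then a i else 0 := by
  have h0 : τ ^ N - 1 ≠ 0 := sub_ne_zero.2 hne
  apply mul_left_cancel₀ h0
  rw [← hU, mul_sub, Finset.mul_sum]
  have h1 : (τ ^ N - 1) * (τ * U j) = ∑ i, τ * (a i * τ ^ ((v i + j) % N)) := by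
    rw [← Finset.mul_sum, hU]; ring
  rw [h1, ← Finset.sum_sub_distrib]
  apply Finset.sum_congr rfl
  intro i _
  rw [← add_assoc]
  rcases int_succ_mod (v i + j) N hN with ⟨h2, h3⟩ | ⟨h2, h3⟩
  · rw [h3, if_pos h2, pow_zero, mul_one]
    have h4 : τ ^ N = τ ^ ((v i + j) % N) * τ := by
      rw [← pow_succ, h2]
    rw [h4]
    ring
  · rw [h3, if_neg h2, mul_zero, sub_zero, pow_succ]
    ring

/-- [CG int] the elementary lemma. -/
theorem p_int (hcirc : R_circ) : R_int := by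
  classical
  intro L _ _ τ hτ hτi _ hroot k x a hcmp hsep ha hdiv i₀
  -- the embeddings with absolute value one
  let E : Type := {σ : L →+* ℂ // ‖σ τ‖ = 1}
  obtain ⟨c, hc, hcz⟩ := hcirc (Fintype.card E)
  let B : ℝ := ∑ σ : L →+* ℂ, (∑ i, ‖σ (a i)‖) * int_kap c (σ τ)
  have hfin := NumberField.Embeddings.finite_of_norm_le L ℂ B
  set S : Finset L := hfin.toFinset with hS
  set s : ℕ := S.card with hs
  -- separation
  have hM : ∀ (i i' : Fin k) (q : ℤ), ∃ m : ℕ, i ≠ i' →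
      ¬ (((m + 1 : ℕ) : ℤ) ∣ ((x i m).val : ℤ) - ((x i' m).val : ℤ) - q) := by
    intro i i' q
    by_cases hii : i = i'
    · exact ⟨0, fun h => absurd hii h⟩
    · obtain ⟨m, hm⟩ := Function.ne_iff.1 (hsep i i' hii q)
      refine ⟨m, fun _ hd => hm ?_⟩
      have h1 := (ZMod.intCast_zmod_eq_zero_iff_dvd _ (m + 1)).2 hd
      push_cast at h1
      rw [ZMod.natCast_zmod_val, ZMod.natCast_zmod_val] at h1
      show x i m - x i' m = ((q : ℤ) : ZMod (m + 1))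
      exact sub_eq_zero.1 h1
  choose M hM using hM
  let N₁ : ℕ := (s + 1) * ∏ i : Fin k, ∏ i' : Fin k, ∏ q ∈ Finset.Icc (-(s : ℤ)) s, (M i i' q + 1)
  have hN₁ : 0 < N₁ := by
    apply Nat.mul_pos (Nat.succ_pos _)
    refine Finset.prod_pos fun i _ => Finset.prod_pos fun i' _ => Finset.prod_pos fun q _ => ?_
    exact Nat.succ_pos _
  -- a good multiple
  let f : Fin (Fintype.card E) ≃ E := (Fintype.equivFin E).symm
  obtain ⟨m₁, hm₁, hgood⟩ := hcz (fun t => (f t).1 τ ^ N₁)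
    (fun t => by rw [norm_pow, (f t).2, one_pow])
    (fun t n hn h => by
      rw [← pow_mul, ← map_pow] at h
      have h1 : τ ^ (N₁ * n) = 1 := (f t).1.injective (by rw [h, map_one])
      exact hroot _ (Nat.mul_pos hN₁ hn) h1)
  set N : ℕ := N₁ * m₁ with hN
  have hNpos : 0 < N := Nat.mul_pos hN₁ hm₁
  have hNs : s < N := by
    have h1 : s + 1 ≤ N₁ := Nat.le_of_dvd hN₁ (Dvd.intro _ rfl)
    have h2 : N₁ ≤ N := Nat.le_mul_of_pos_right _ hm₁
    omega
  have hgood' : ∀ σ : L →+* ℂ, ‖σ τ‖ = 1 → c ≤ ‖σ τ ^ N - 1‖ := by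
    intro σ hσ
    have h1 := hgood (f.symm ⟨σ, hσ⟩)
    rw [Equiv.apply_symm_apply] at h1
    rwa [hN, pow_mul]
  obtain ⟨m, hm⟩ : ∃ m, N = m + 1 := ⟨N - 1, by omega⟩
  let v : Fin k → ℕ := fun i => (x i m).val
  have hv : ∀ i, v i < N := fun i => by
    rw [hm]; exact ZMod.val_lt _
  have hsep' : ∀ i i' : Fin k, i ≠ i' → ∀ q : ℤ, -(s : ℤ) ≤ q → q ≤ s →
      ¬ ((N : ℤ) ∣ (v i : ℤ) - (v i' : ℤ) - q) := by
    intro i i' hii q hq1 hq2 hd
    have h1 : (M i i' q + 1) ∣ N := by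
      refine Dvd.dvd.mul_right ?_ _
      refine Dvd.dvd.mul_left ?_ _
      refine dvd_trans ?_ (Finset.dvd_prod_of_mem _ (Finset.mem_univ i))
      refine dvd_trans ?_ (Finset.dvd_prod_of_mem _ (Finset.mem_univ i'))
      exact Finset.dvd_prod_of_mem (fun q => M i i' q + 1) (Finset.mem_Icc.2 ⟨hq1, hq2⟩)
    have h2 : ∀ i'' : Fin k, ((M i i' q + 1 : ℕ) : ℤ) ∣
        (v i'' : ℤ) - ((x i'' (M i i' q)).val : ℤ) := by
      intro i''
      have h3 := hcmp i'' (M i i' q) m (by rw [← hm]; exact h1)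
      have h4 : v i'' = (M i i' q + 1) * (v i'' / (M i i' q + 1)) + v i'' % (M i i' q + 1) :=
        (Nat.div_add_mod _ _).symm
      refine ⟨((v i'' / (M i i' q + 1) : ℕ) : ℤ), ?_⟩
      have h5 : (v i'' : ℤ) = ((M i i' q + 1 : ℕ) : ℤ) * ((v i'' / (M i i' q + 1) : ℕ) : ℤ) +
          ((v i'' % (M i i' q + 1) : ℕ) : ℤ) := by
        rw [← Nat.cast_mul, ← Nat.cast_add, ← h4]
      have h6 : ((v i'' % (M i i' q + 1) : ℕ) : ℤ) = ((x i'' (M i i' q)).val : ℤ) := by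
        rw [← h3]
      rw [← h6]
      linarith
    apply hM i i' q hii
    have h3 : ((M i i' q + 1 : ℕ) : ℤ) ∣ (v i : ℤ) - (v i' : ℤ) - q :=
      dvd_trans (Int.natCast_dvd_natCast.2 h1) hd
    have h4 := dvd_sub h3 (dvd_sub (h2 i) (h2 i'))
    have h5 : (v i : ℤ) - (v i' : ℤ) - q - ((v i : ℤ) - ((x i (M i i' q)).val : ℤ) -
        ((v i' : ℤ) - ((x i' (M i i' q)).val : ℤ))) =
        ((x i (M i i' q)).val : ℤ) - ((x i' (M i i' q)).val : ℤ) - q := by ring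
    rwa [h5] at h4
  -- the quotients
  have hq := int_quot τ hτi v a ha N (by
    obtain ⟨u, hu, he⟩ := hdiv m
    exact ⟨u, hu, by rw [hm]; exact he⟩)
  choose U hUi hUe using hq
  have hτN : τ ^ N ≠ 1 := hroot N hNpos
  have hrec := int_rec τ v a N hNpos hτN U hUe
  have hUS : ∀ j, U j ∈ S := by
    intro j
    rw [hS, Set.Finite.mem_toFinset]
    refine ⟨hUi j, fun σ => ?_⟩
    have h0 : 0 < ‖σ τ ^ N - 1‖ := by
      rw [norm_pos_iff, sub_ne_zero, ← map_pow]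
      intro h
      exact hτN (σ.injective (by rw [h, map_one]))
    have h1 : ‖σ τ ^ N - 1‖ * ‖σ (U j)‖ ≤
        ‖σ τ ^ N - 1‖ * ((∑ i, ‖σ (a i)‖) * int_kap c (σ τ)) := by
      have h2 : (σ τ ^ N - 1) * σ (U j) = ∑ i, σ (a i) * σ τ ^ ((v i + j) % N) := by
        have h3 := congrArg σ (hUe j)
        rw [map_sum, map_mul, map_sub, map_pow, map_one] at h3
        rw [← h3]
        apply Finset.sum_congr rfl
        intro i _
        rw [map_mul, map_pow]
      rw [← norm_mul, h2]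
      refine le_trans (norm_sum_le _ _) ?_
      rw [Finset.sum_mul, Finset.mul_sum]
      apply Finset.sum_le_sum
      intro i _
      rw [norm_mul, norm_pow]
      have h4 := int_bound c hc (σ τ) N ((v i + j) % N) (Nat.mod_lt _ hNpos) (hgood' σ)
      calc ‖σ (a i)‖ * ‖σ τ‖ ^ ((v i + j) % N)
          ≤ ‖σ (a i)‖ * (int_kap c (σ τ) * ‖σ τ ^ N - 1‖) :=
            mul_le_mul_of_nonneg_left h4 (norm_nonneg _)
        _ = ‖σ τ ^ N - 1‖ * (‖σ (a i)‖ * int_kap c (σ τ)) := by ring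
    refine le_trans (le_of_mul_le_mul_left h1 h0) ?_
    exact Finset.single_le_sum (f := fun σ : L →+* ℂ => (∑ i, ‖σ (a i)‖) * int_kap c (σ τ))
      (fun σ _ => mul_nonneg (Finset.sum_nonneg fun i _ => norm_nonneg _)
        (int_kap_nonneg c hc _)) (Finset.mem_univ σ)
  -- the passage of i₀
  let j₀ : ℕ := N * (s + 1) + (N - 1 - v i₀)
  have hj₀ : (v i₀ + j₀) % N + 1 = N := by
    have h1 := hv i₀
    have h2 : v i₀ + j₀ = N * (s + 1) + (N - 1) := by
      show v i₀ + (N * (s + 1) + (N - 1 - v i₀)) = _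
      omega
    rw [h2, Nat.mul_add_mod, Nat.mod_eq_of_lt (by omega)]
    omega
  have hj₀s : s ≤ j₀ := by
    have h1 : s + 1 ≤ N * (s + 1) := Nat.le_mul_of_pos_left _ hNpos
    show s ≤ N * (s + 1) + (N - 1 - v i₀)
    omega
  have hP₀ := (int_pass (v i₀ + j₀) N hNpos).1 hj₀
  have hno : ∀ (i : Fin k) (j : ℕ), (j : ℤ) - j₀ ≤ s → -(s : ℤ) ≤ (j : ℤ) - j₀ →
      (v i + j) % N + 1 = N → i = i₀ ∧ j = j₀ := by
    intro i j h1 h2 h3
    have h4 := (int_pass (v i + j) N hNpos).1 h3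
    have h5 := dvd_sub h4 hP₀
    have h6 : ((v i + j : ℕ) : ℤ) + 1 - (((v i₀ + j₀ : ℕ) : ℤ) + 1) =
        (v i : ℤ) - (v i₀ : ℤ) - ((j₀ : ℤ) - j) := by
      push_cast; ring
    rw [h6] at h5
    by_cases hi : i = i₀
    · refine ⟨hi, ?_⟩
      rw [hi, sub_self, zero_sub, neg_sub] at h5
      by_contra hj
      have h7 : (j : ℤ) - j₀ ≠ 0 := by
        intro h; apply hj; omega
      have h8 := Int.le_of_dvd (abs_pos.2 h7) ((dvd_abs _ _).2 h5)
      have h9 : |(j : ℤ) - j₀| ≤ s := abs_le.2 ⟨h2, h1⟩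
      have h10 : (s : ℤ) < N := by exact_mod_cast hNs
      omega
    · exact absurd h5 (hsep' i i₀ hi _ (by omega) (by omega))
  have hrun : ∀ j : ℕ, (j : ℤ) - j₀ ≤ s → -(s : ℤ) ≤ (j : ℤ) - j₀ → j ≠ j₀ →
      U (j + 1) = τ * U j := by
    intro j h1 h2 h3
    rw [hrec j]
    have h4 : ∑ i, (if (v i + j) % N + 1 = N then a i else 0) = 0 := by
      apply Finset.sum_eq_zero
      intro i _
      rw [if_neg]
      intro h5
      exact h3 (hno i j h1 h2 h5).2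
    rw [h4, sub_zero]
  have hA := (int_pig τ hτ hroot S U hUS (j₀ - s) (by
    intro t ht
    apply hrun
    · omega
    · omega
    · omega)).2
  have hA' : U j₀ = 0 := by
    have h1 : j₀ - s + S.card = j₀ := by omega
    rwa [h1] at hA
  have hB := (int_pig τ hτ hroot S U hUS (j₀ + 1) (by
    intro t ht
    apply hrun
    · push_cast; omega
    · push_cast; omega
    · omega)).1
  have hC := hrec j₀
  rw [hB, hA', mul_zero, zero_sub] at hC
  have h1 : ∑ i, (if (v i + j₀) % N + 1 = N then a i else 0) = a i₀ := by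
    rw [Finset.sum_eq_single i₀]
    · rw [if_pos hj₀]
    · intro i _ hi
      rw [if_neg]
      intro h5
      exact hi (hno i j₀ (by omega) (by omega) h5).1
    · intro h; exact absurd (Finset.mem_univ _) h
  rw [h1] at hC
  exact neg_eq_zero.1 hC.symm

end

end Pool.Agent.F8.CG
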