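import Pool.Agent.Lib.MP_305fdd_al.F8.CG.StmR

/-!
# MP_305fdd_al, congruence subgroups: the elementary lemma on integrality for group rings
-/

set_option autoImplicit false

namespace Pool.Agent.F8.CG

open Pool.Agent.F8.BG Pool.Agent.Lib.MP_305fdd_al Pool.Agent.F8

noncomputable section

private theorem intZ_geo (x : ℂ) (hx0 : x ≠ 0) (hx : IsIntegral ℤ x) (hx' : IsIntegral ℤ x⁻¹)
    (t : ℤ) : ∃ v : ℂ, IsIntegral ℤ v ∧ x ^ t - 1 = (x - 1) * v := by
  induction t using Int.induction_on with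
  | zero => exact ⟨0, isIntegral_zero, by simp⟩
  | succ n ih =>
    obtain ⟨v, hv, e⟩ := ih
    refine ⟨x * v + 1, (hx.mul hv).add isIntegral_one, ?_⟩
    rw [zpow_add_one₀ hx0]
    linear_combination x * e
  | pred n ih =>
    obtain ⟨v, hv, e⟩ := ih
    refine ⟨x⁻¹ * v - x⁻¹, (hx'.mul hv).sub hx', ?_⟩
    rw [zpow_sub_one₀ hx0]
    have h : x * x⁻¹ = 1 := mul_inv_cancel₀ hx0
    linear_combination x⁻¹ * e + h

private theorem intZ_zpow (x : ℂ) (hx : IsIntegral ℤ x) (hx' : IsIntegral ℤ x⁻¹) (t : ℤ) :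
    IsIntegral ℤ (x ^ t) := by
  cases t with
  | ofNat n =>
    rw [Int.ofNat_eq_natCast, zpow_natCast]
    exact hx.pow n
  | negSucc n =>
    rw [zpow_negSucc, ← inv_pow]
    exact hx'.pow (n + 1)

private theorem intZ_shift (τ : ℂ) (h0 : τ ≠ 0) (h1 : IsIntegral ℤ τ) (h2 : IsIntegral ℤ τ⁻¹)
    (b r : Zh) (k : ℤ) (hb : b = r + cst k) (m : ℕ) : ∃ v : ℂ, IsIntegral ℤ v ∧
    τ ^ (b m).val = τ ^ k * τ ^ (r m).val + (τ ^ (m + 1) - 1) * v := by
  have e1 : b m = r m + (k : ZMod (m + 1)) := by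
    rw [hb]
    rfl
  have e2 : (((b m).val : ℤ) : ZMod (m + 1)) = (((r m).val + k : ℤ) : ZMod (m + 1)) := by
    push_cast
    rw [ZMod.natCast_zmod_val, ZMod.natCast_zmod_val, e1]
  have e3 := (ZMod.intCast_eq_intCast_iff _ _ _).1 e2
  obtain ⟨c, hc⟩ := e3.dvd
  have e4 : ((b m).val : ℤ) = ((r m).val + k) + ((m + 1 : ℕ) : ℤ) * (-c) := by
    linarith
  have hx0 : τ ^ (m + 1) ≠ 0 := pow_ne_zero _ h0
  obtain ⟨v, hv, hve⟩ := intZ_geo (τ ^ (m + 1)) hx0 (h1.pow _)
    (by rw [← inv_pow]; exact h2.pow _) (-c)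
  refine ⟨τ ^ k * τ ^ (r m).val * v, ((intZ_zpow τ h1 h2 k).mul (h1.pow _)).mul hv, ?_⟩
  have e5 : τ ^ (b m).val = τ ^ k * τ ^ (r m).val * (τ ^ (m + 1)) ^ (-c) := by
    rw [← zpow_natCast τ (b m).val, e4, zpow_add₀ h0, zpow_add₀ h0, zpow_natCast, zpow_mul,
      zpow_natCast]
    ring
  rw [e5]
  linear_combination τ ^ k * τ ^ (r m).val * hve

theorem p_intZ (hint : R_int) : R_intZ := by
  classical
  intro τ hi hi' hroot a hcmp hia hsum b₀ κ hκ
  have h0 : (τ : ℂ) ≠ 0 := τ.ne_zero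
  have hinv : ((τ⁻¹ : ℂˣ) : ℂ) = (τ : ℂ)⁻¹ := Units.val_inv_eq_inv_val τ
  rw [hinv] at hi'
  have hroot' : ∀ n : ℕ, 1 ≤ n → (τ : ℂ) ^ n ≠ 1 := by
    intro n hn h
    apply hroot n hn
    apply Units.ext
    rw [Units.val_pow_eq_pow_val, h, Units.val_one]
  let mk : Zh → Zh ⧸ cst.range := fun b => (QuotientAddGroup.mk b)
  have hmk : ∀ b b' : Zh, mk b = mk b' ↔ ∃ k : ℤ, b = b' + cst k := by
    intro b b'
    show (QuotientAddGroup.mk b : Zh ⧸ cst.range) = QuotientAddGroup.mk b' ↔ _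
    rw [eq_comm, QuotientAddGroup.eq]
    constructor
    · rintro ⟨k, hk⟩
      exact ⟨k, by rw [hk]; abel⟩
    · rintro ⟨k, hk⟩
      exact ⟨k, by rw [hk]; abel⟩
  let C := a.support.image mk
  have hr : ∀ c : Zh ⧸ cst.range, ∃ r : Zh, mk r = c ∧ (c ∈ C → r ∈ a.support) := by
    intro c
    by_cases hc : c ∈ C
    · obtain ⟨r, hr1, hr2⟩ := Finset.mem_image.1 hc
      exact ⟨r, hr2, fun _ => hr1⟩
    · obtain ⟨r, hr1⟩ := QuotientAddGroup.mk_surjective c
      exact ⟨r, hr1, fun h => absurd h hc⟩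
  choose r hr1 hr2 using hr
  have hk : ∀ b : Zh, ∃ k : ℤ, b = r (mk b) + cst k := by
    intro b
    exact (hmk b (r (mk b))).1 (hr1 (mk b)).symm
  choose k hk using hk
  let A : Zh ⧸ cst.range → ℂ := fun c => ∑ b ∈ a.support.filter (fun b => mk b = c),
    a b * (τ : ℂ) ^ k b
  have hA : ∀ c, IsIntegral ℤ (A c) := by
    intro c
    exact IsIntegral.sum _ fun b _ => (hia b).mul (intZ_zpow _ hi hi' _)
  have hstep : ∀ m : ℕ, ∃ u : ℂ, IsIntegral ℤ u ∧
      ∑ c ∈ C, A c * (τ : ℂ) ^ (r c m).val = ((τ : ℂ) ^ (m + 1) - 1) * u := by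
    intro m
    obtain ⟨u, hu, hue⟩ := hsum m
    have hv : ∀ b : Zh, ∃ v : ℂ, IsIntegral ℤ v ∧
        (τ : ℂ) ^ (b m).val = (τ : ℂ) ^ k b * (τ : ℂ) ^ (r (mk b) m).val +
          ((τ : ℂ) ^ (m + 1) - 1) * v :=
      fun b => intZ_shift τ h0 hi hi' b (r (mk b)) (k b) (hk b) m
    choose v hv1 hv2 using hv
    refine ⟨u - ∑ b ∈ a.support, a b * v b,
      hu.sub (IsIntegral.sum _ fun b _ => (hia b).mul (hv1 b)), ?_⟩
    have e1 : ∑ c ∈ C, A c * (τ : ℂ) ^ (r c m).val =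
        ∑ b ∈ a.support, a b * (τ : ℂ) ^ k b * (τ : ℂ) ^ (r (mk b) m).val := by
      rw [← Finset.sum_fiberwise_of_maps_to (s := a.support) (t := C) (g := mk)
        (fun b hb => Finset.mem_image_of_mem mk hb)]
      refine Finset.sum_congr rfl fun c _ => ?_
      show (∑ b ∈ a.support.filter (fun b => mk b = c), a b * (τ : ℂ) ^ k b) *
        (τ : ℂ) ^ (r c m).val = _
      rw [Finset.sum_mul]
      refine Finset.sum_congr rfl fun b hb => ?_
      rw [(Finset.mem_filter.1 hb).2]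
    have e2 : ∑ b ∈ a.support, a b * (τ : ℂ) ^ (b m).val =
        ∑ b ∈ a.support, a b * (τ : ℂ) ^ k b * (τ : ℂ) ^ (r (mk b) m).val +
          ((τ : ℂ) ^ (m + 1) - 1) * ∑ b ∈ a.support, a b * v b := by
      rw [Finset.mul_sum, ← Finset.sum_add_distrib]
      refine Finset.sum_congr rfl fun b _ => ?_
      rw [hv2 b]
      ring
    rw [e1, mul_sub, ← hue, e2]
    ring
  -- the number field
  let T : Set ℂ := insert (τ : ℂ) (A '' (C : Set (Zh ⧸ cst.range)))
  have hT : T.Finite := (C.finite_toSet.image A).insert _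
  haveI : Finite T := hT
  have hTi : ∀ x ∈ T, IsIntegral ℚ x := by
    intro x hx
    rcases hx with hx | ⟨c, _, hx⟩
    · rw [hx]
      exact hi.tower_top
    · rw [← hx]
      exact (hA c).tower_top
  let L := IntermediateField.adjoin ℚ T
  haveI : FiniteDimensional ℚ L := IntermediateField.finiteDimensional_adjoin hTi
  haveI : NumberField L := { to_charZero := inferInstance, to_finiteDimensional := inferInstance }
  have hinj : Function.Injective (algebraMap L ℂ) := (algebraMap L ℂ).injective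
  have hint' : ∀ y : L, IsIntegral ℤ (algebraMap L ℂ y) → IsIntegral ℤ y := fun y hy =>
    (isIntegral_algebraMap_iff hinj).1 hy
  let τL : L := ⟨τ, IntermediateField.subset_adjoin ℚ T (Set.mem_insert _ _)⟩
  have hτL : algebraMap L ℂ τL = τ := rfl
  let e := C.equivFin
  have hmem : ∀ i : Fin C.card, A (e.symm i : Zh ⧸ cst.range) ∈ L := fun i =>
    IntermediateField.subset_adjoin ℚ T (Set.mem_insert_of_mem _ ⟨_, (e.symm i).2, rfl⟩)
  let aL : Fin C.card → L := fun i => ⟨A (e.symm i), hmem i⟩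
  have haL : ∀ i, algebraMap L ℂ (aL i) = A (e.symm i) := fun i => rfl
  have hmain := hint L τL
    (by
      intro h
      apply h0
      rw [← hτL, h, map_zero])
    (hint' _ (by rw [hτL]; exact hi))
    (hint' _ (by rw [map_inv₀, hτL]; exact hi'))
    (by
      intro n hn h
      apply hroot' n hn
      rw [← hτL, ← map_pow, h, map_one])
    C.card (fun i => r (e.symm i)) aL
    (fun i => hcmp _ (hr2 _ (e.symm i).2))
    (by
      intro i j hij c hc
      apply hij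
      apply e.symm.injective
      apply Subtype.ext
      rw [← hr1 (e.symm i), ← hr1 (e.symm j)]
      exact (hmk _ _).2 ⟨c, by rw [← hc]; abel⟩)
    (fun i => hint' _ (by rw [haL]; exact hA _))
    (by
      intro m
      obtain ⟨u, hu, hue⟩ := hstep m
      have hne : (τ : ℂ) ^ (m + 1) - 1 ≠ 0 := sub_ne_zero.2 (hroot' (m + 1) (by omega))
      have hneL : τL ^ (m + 1) - 1 ≠ 0 := by
        intro h
        apply hne
        rw [← hτL, ← map_pow, ← map_one (algebraMap L ℂ), ← map_sub, h, map_zero]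
      have hS : algebraMap L ℂ (∑ i, aL i * τL ^ (r (e.symm i) m).val) =
          ∑ c ∈ C, A c * (τ : ℂ) ^ (r c m).val := by
        rw [map_sum, ← Finset.sum_coe_sort C (fun c => A c * (τ : ℂ) ^ (r c m).val),
          ← Equiv.sum_comp e.symm (fun c : C => A c * (τ : ℂ) ^ (r c m).val)]
        refine Finset.sum_congr rfl fun i _ => ?_
        rw [map_mul, map_pow, haL, hτL]
      refine ⟨(∑ i, aL i * τL ^ (r (e.symm i) m).val) / (τL ^ (m + 1) - 1), ?_, ?_⟩
      · apply hint'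
        rw [map_div₀, hS, hue, map_sub, map_pow, hτL, map_one, mul_div_cancel_left₀ _ hne]
        exact hu
      · rw [mul_div_cancel₀ _ hneL])
  have hA0 : ∀ c ∈ C, A c = 0 := by
    intro c hc
    have h1 := hmain (e ⟨c, hc⟩)
    have h2 := haL (e ⟨c, hc⟩)
    rw [h1, map_zero, Equiv.symm_apply_apply] at h2
    exact h2.symm
  by_cases hb : mk b₀ ∈ C
  · obtain ⟨s, hs⟩ := (hmk (r (mk b₀)) b₀).1 (hr1 (mk b₀))
    have h1 : ∑ b ∈ a.support.filter (fun b => ∃ k : ℤ, b = b₀ + cst k),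
        a b * ((τ ^ κ b : ℂˣ) : ℂ) = (τ : ℂ) ^ s * A (mk b₀) := by
      show _ = (τ : ℂ) ^ s * ∑ b ∈ a.support.filter (fun b => mk b = mk b₀),
        a b * (τ : ℂ) ^ k b
      rw [Finset.mul_sum]
      refine Finset.sum_congr ?_ fun b hb => ?_
      · ext b
        rw [Finset.mem_filter, Finset.mem_filter, hmk b b₀]
      · obtain ⟨hb1, hb2⟩ := Finset.mem_filter.1 hb
        have h3 : b = b₀ + cst (s + k b) := by
          have h4 := hk b
          rw [hb2, hs] at h4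
          rw [map_add, ← add_assoc]
          exact h4
        rw [hκ b hb1 _ h3, Units.val_zpow_eq_zpow_val, zpow_add₀ h0]
        ring
    rw [h1, hA0 _ hb, mul_zero]
  · apply Finset.sum_eq_zero
    intro b hb'
    obtain ⟨hb1, hb2⟩ := Finset.mem_filter.1 hb'
    exfalso
    apply hb
    rw [← (hmk b b₀).2 hb2]
    exact Finset.mem_image_of_mem mk hb1

end

end Pool.Agent.F8.CG
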