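import Pool.Agent.Lib.MP_305fdd_al.F8.CG.StmR

/-!
# MP_305fdd_al, congruence subgroups, block R: piece `key`, the main equation
-/

set_option autoImplicit false

namespace Pool.Agent.F8.CG

open Pool.Agent.F8.BG Pool.Agent.Lib.MP_305fdd_al Pool.Agent.F8

theorem key_eY_ne (n : ℕ) [NeZero n] (x : ZMod n) : eY n x ≠ 0 := Circle.coe_ne_zero _

theorem key_eY_int (n : ℕ) [NeZero n] (x : ZMod n) : IsIntegral ℤ (eY n x) := by
  apply IsIntegral.of_pow (Nat.pos_of_ne_zero (NeZero.ne n))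
  have h : (ZMod.toCircle x : Circle) ^ n = 1 := by
    rw [← AddChar.map_nsmul_eq_pow, nsmul_eq_mul, ZMod.natCast_self, zero_mul,
      AddChar.map_zero_eq_one]
  have h1 : eY n x ^ n = 1 := by
    unfold eY
    rw [← Circle.coe_pow, h, Circle.coe_one]
  rw [h1]
  exact isIntegral_one

theorem key_eX {G : Type} [Group G] (n : ℕ) [NeZero n] (X : G →* Multiplicative (ZMod n))
    (g : G) : ((eX n X g : ℂˣ) : ℂ) = eY n (Multiplicative.toAdd (X g)) := rfl

theorem key_norm_eX {G : Type} [Group G] (n : ℕ) [NeZero n] (X : G →* Multiplicative (ZMod n))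
    (g : G) : ‖((eX n X g : ℂˣ) : ℂ)‖ = 1 := by
  rw [key_eX]
  exact Circle.norm_coe _

theorem key_cmp {ι : Type} {α : MulAut (FreeGroup ι)} {D : Subgroup (GR α)} {Λ : Type} [Group Λ]
    (Φ : NatBij D Λ) (l : Λ) : Cmp (Multiplicative.toAdd (nu Φ l)) := by
  intro m m' h
  obtain ⟨π, hπ⟩ : ∃ π : Multiplicative (ZMod (m' + 1)) →* Multiplicative (ZMod (m + 1)),
      π = AddMonoidHom.toMultiplicative (ZMod.castHom h (ZMod (m + 1))).toAddMonoidHom :=
    ⟨_, rfl⟩
  have h1 : (redZ (m + 1)).comp (nD D) = π.comp ((redZ (m' + 1)).comp (nD D)) := by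
    ext g
    rw [hπ]
    show Multiplicative.ofAdd ((Multiplicative.toAdd (nD D g) : ℤ) : ZMod (m + 1)) =
      Multiplicative.ofAdd (ZMod.castHom h (ZMod (m + 1))
        ((Multiplicative.toAdd (nD D g) : ℤ) : ZMod (m' + 1)))
    exact congrArg Multiplicative.ofAdd
      (map_intCast (ZMod.castHom h (ZMod (m + 1))) (Multiplicative.toAdd (nD D g))).symm
  have h2 := Φ.nat π ((redZ (m' + 1)).comp (nD D))
  have h3 : Multiplicative.toAdd (nu Φ l) m =
      ZMod.castHom h (ZMod (m + 1)) (Multiplicative.toAdd (nu Φ l) m') := by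
    show Multiplicative.toAdd (Φ.toFun _ ((redZ (m + 1)).comp (nD D)) l) =
      ZMod.castHom h (ZMod (m + 1))
        (Multiplicative.toAdd (Φ.toFun _ ((redZ (m' + 1)).comp (nD D)) l))
    rw [h1, h2, hπ]
    rfl
  rw [h3, ZMod.castHom_apply, ZMod.cast_eq_val, ZMod.val_natCast]

theorem p_key (hstar : R_star) (hintZ : R_intZ) (heig : R_eig) : R_key := by
  intro ι _ α w i₀ D hS Λ _ _ Φ μ hμ n _ X Y hM τ hτ hev b₀ κ hκ
  obtain ⟨hi1, hi2, z, hz⟩ := heig ι α w i₀ D hS n X τ hτ hev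
  obtain ⟨h, hh, hzh⟩ := hz.ne
  have hτp : ∀ k : ℕ, 1 ≤ k → τ ^ k ≠ 1 := by
    intro k hk he
    have h1 : ‖(τ : ℂ)‖ ^ k = 1 := by
      rw [← norm_pow, ← Units.val_pow_eq_pow_val, he, Units.val_one, norm_one]
    have h2 : 1 < ‖(τ : ℂ)‖ ^ k := one_lt_pow₀ hτ (by omega)
    linarith
  obtain ⟨c, hc⟩ : ∃ c : ℂ, c = (1 - (eX n X ⟨tR α, hS.t⟩ : ℂ) * τ) * z h := ⟨_, rfl⟩
  have hc0 : c ≠ 0 := by
    rw [hc]
    refine mul_ne_zero ?_ hzh
    intro he
    have h1 : (eX n X ⟨tR α, hS.t⟩ : ℂ) * τ = 1 := (sub_eq_zero.mp he).symm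
    have h2 : ‖(eX n X ⟨tR α, hS.t⟩ : ℂ) * τ‖ = 1 := by rw [h1, norm_one]
    rw [norm_mul, key_norm_eX, one_mul] at h2
    linarith
  have hci : IsIntegral ℤ c := by
    rw [hc]
    refine IsIntegral.mul (IsIntegral.sub isIntegral_one (IsIntegral.mul ?_ hi1)) (hz.int h)
    rw [key_eX]
    exact key_eY_int n _
  obtain ⟨a, ha⟩ : ∃ a : Zh →₀ ℂ, ∀ b, a b = (μ b : ℂ) * eY n (Y b) * c :=
    ⟨Finsupp.onFinset μ.support (fun b => (μ b : ℂ) * eY n (Y b) * c) (by
      intro b hb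
      rw [Finsupp.mem_support_iff]
      intro h0
      apply hb
      rw [h0]
      simp), fun b => rfl⟩
  have hsup : a.support = μ.support := by
    ext b
    rw [Finsupp.mem_support_iff, Finsupp.mem_support_iff, ha]
    constructor
    · intro h1 h2
      apply h1
      rw [h2]
      simp
    · intro h1
      exact mul_ne_zero (mul_ne_zero (by exact_mod_cast h1) (key_eY_ne n _)) hc0
  have hmain := hintZ τ hi1 hi2 hτp a (by
      intro b hb
      rw [hsup] at hb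
      obtain ⟨l, hl⟩ := hμ.sup b hb
      have h1 := key_cmp Φ l
      rw [hl] at h1
      exact h1) (by
      intro b
      rw [ha]
      refine IsIntegral.mul (IsIntegral.mul ?_ (key_eY_int n _)) hci
      have h1 : ((μ b : ℤ) : ℂ) = algebraMap ℤ ℂ (μ b) := rfl
      rw [h1]
      exact isIntegral_algebraMap) (by
      intro m
      obtain ⟨u, hu, he⟩ := hstar ι α D hS.fin hS.t Λ Φ μ hμ n X Y hM τ hi1 hi2 hτp z hz h hh m
      refine ⟨u, hu, ?_⟩
      rw [← he, hsup]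
      refine Finset.sum_congr rfl fun b _ => ?_
      rw [ha, hc]) b₀ κ (by
      intro b hb k hk
      rw [hsup] at hb
      exact hκ b hb k hk)
  rw [hsup] at hmain
  apply mul_left_cancel₀ hc0
  rw [mul_zero, ← hmain, Finset.mul_sum]
  refine Finset.sum_congr rfl fun b _ => ?_
  rw [ha]
  ring

end Pool.Agent.F8.CG
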