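import Pool.Agent.Lib.MP_305fdd_al.F8.CG.StmR

/-!
# MP_305fdd_al, congruence subgroups: piece `mu`
-/

set_option autoImplicit false

namespace Pool.Agent.F8.CG

open Pool.Agent.F8.BG Pool.Agent.Lib.MP_305fdd_al Pool.Agent.F8

noncomputable section

/-- the homomorphism `x ↦ ζ ^ x` -/
def mu_E {A : Type} [Group A] (m : ℕ) (ζ : A) (h : ζ ^ (m + 1) = 1) :
    Multiplicative (ZMod (m + 1)) →* A where
  toFun x := ζ ^ (Multiplicative.toAdd x).val
  map_one' := by
    change ζ ^ (0 : ZMod (m + 1)).val = 1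
    rw [ZMod.val_zero, pow_zero]
  map_mul' x y := by
    change ζ ^ (Multiplicative.toAdd x + Multiplicative.toAdd y).val = _
    rw [ZMod.val_add, ← pow_add]
    exact (pow_eq_pow_mod _ h).symm

theorem mu_E_int {A : Type} [Group A] (m : ℕ) (ζ : A) (h : ζ ^ (m + 1) = 1) (k : ℤ) :
    mu_E m ζ h (Multiplicative.ofAdd (k : ZMod (m + 1))) = ζ ^ k := by
  change ζ ^ (k : ZMod (m + 1)).val = ζ ^ k
  have h1 : (((k : ZMod (m + 1)).val : ℕ) : ℤ) = k % ((m + 1 : ℕ) : ℤ) := ZMod.val_intCast k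
  rw [← zpow_natCast, h1]
  have h2 : k = k % ((m + 1 : ℕ) : ℤ) + ((m + 1 : ℕ) : ℤ) * (k / ((m + 1 : ℕ) : ℤ)) :=
    (Int.emod_add_mul_ediv k _).symm
  conv_rhs => rw [h2, zpow_add, zpow_mul, zpow_natCast, h, one_zpow, mul_one]

/-- the homomorphism to the affine group -/
def mu_Θ {Λ R : Type} [Group Λ] [CommRing R] (ψ : Λ →* Rˣ) (z : Λ → R)
    (hz : ∀ g h, z (g * h) = z g + (ψ g : R) * z h) : Λ →* Q2 R where
  toFun l := ⟨ψ l, 1, ![z l, 0]⟩
  map_one' := by
    have h1 : z 1 = 0 := by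
      have := hz 1 1
      rw [mul_one, map_one, Units.val_one, one_mul] at this
      exact left_eq_add.1 this
    apply Q2.ext
    · simp
    · rfl
    · ext i
      fin_cases i
      · simp [h1]
      · simp
  map_mul' g h := by
    apply Q2.ext
    · simp
    · simp
    · ext i
      fin_cases i
      · simp [hz]
      · simp

theorem p_mu (hann : R_ann) (hzet : R_zet) : R_mu := by
  intro ι _ α D hfin ht Λ _ _ Φ
  obtain ⟨q, hq, ζ, hζ1, hcr⟩ := hzet ι α D hfin ht
  have hq2 : 2 ≤ q := hq.out.two_le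
  obtain ⟨m, rfl⟩ : ∃ m, q = m + 2 := ⟨q - 2, by omega⟩
  have hζ : ζ ^ (m + 1) = 1 := by
    have h := ZMod.units_pow_card_sub_one_eq_one (m + 2) ζ
    simpa using h
  set E := mu_E m ζ hζ with hE
  set rD : D →* Multiplicative (ZMod (m + 1)) := (redZ (m + 1)).comp (nD D) with hrD
  set χ : D →* (ZMod (m + 2))ˣ := E.comp rD with hχ
  have hχv : ∀ g : D, χ g = ζ ^ (Multiplicative.toAdd (nD D g)) := fun g =>
    mu_E_int m ζ hζ (Multiplicative.toAdd (nD D g))
  set t : D := ⟨tR α, ht⟩ with htdef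
  have hnt : nD D t = Multiplicative.ofAdd 1 := rfl
  have hχt : χ t = ζ := by
    rw [hχv, hnt, toAdd_ofAdd, zpow_one]
  set ψ : Λ →* (ZMod (m + 2))ˣ := Φ.toFun _ χ with hψ
  have hψE : ψ = E.comp (Φ.toFun _ rD) := Φ.nat E rD
  have hν : ∀ l, nu Φ l = 1 → Φ.toFun _ rD l = 1 := by
    intro l hl
    have h1 : Multiplicative.toAdd (nu Φ l) m = 0 := by
      rw [hl]
      rfl
    exact h1
  refine hann Λ (nu Φ) (m + 2) ψ ?_ ?_ ?_
  · intro l hl
    rw [hψE, MonoidHom.comp_apply, hν l hl, map_one]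
  · intro h1
    have h2 : χ = 1 := by
      apply Φ.injective
      rw [Φ.one]
      exact h1
    apply hζ1
    rw [← hχt, h2]
    rfl
  · intro z hz x hx
    set Θ := mu_Θ ψ z hz with hΘ
    set Θ' : D →* Q2 (ZMod (m + 2)) := Φ.invFun _ Θ with hΘ'
    have hΘΘ : Φ.toFun _ Θ' = Θ := Φ.right_inv _ Θ
    have ht' : Q2.tH.comp Θ' = χ := by
      apply Φ.injective
      rw [Φ.nat, hΘΘ]
      ext l
      rfl
    have hm' : Q2.mH.comp Θ' = 1 := by
      apply Φ.injective
      rw [Φ.nat, hΘΘ, Φ.one]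
      ext l
      rfl
    have ht'' : ∀ g, (Θ' g).t = χ g := fun g => DFunLike.congr_fun ht' g
    have hm'' : ∀ g, (Θ' g).m = 1 := fun g => DFunLike.congr_fun hm' g
    set z' : D → ZMod (m + 2) := fun g => (Θ' g).v 0 with hz'
    have hz'm : ∀ g h : D, z' (g * h) = z' g + (χ g : ZMod (m + 2)) * z' h := by
      intro g h
      simp only [hz', map_mul, Q2.mul_v, ht'', hm'']
      simp
    have hz'0 : ∀ y : D, nD D y = 1 → z' y = 0 := by
      refine hcr z' ?_
      intro g h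
      rw [hz'm, hχv]
    obtain ⟨g, hg1, hg2⟩ := pair_val Φ Θ' rD x
    rw [hΘΘ] at hg1
    rw [hν x hx] at hg2
    set k : ℤ := Multiplicative.toAdd (nD D g) with hk
    have hχg : χ g = 1 := by
      rw [hχ, MonoidHom.comp_apply, hg2, map_one]
    have hζk : ζ ^ k = 1 := by
      rw [← hχv, hχg]
    have hntk : nD D (t ^ k) = nD D g := by
      rw [map_zpow, hnt, ← ofAdd_zsmul, smul_eq_mul, mul_one]
      rfl
    have hχtk : χ (t ^ k) = 1 := by
      rw [map_zpow, hχt, hζk]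
    have h0 : z' (g * (t ^ k)⁻¹) = 0 := by
      apply hz'0
      rw [map_mul, map_inv, hntk, mul_inv_cancel]
    have h1 : z' (t ^ k) = 0 := by
      have e1 := hz'm (t ^ k) t
      have e2 := hz'm t (t ^ k)
      rw [hχtk, Units.val_one, one_mul] at e1
      rw [hχt] at e2
      have e3 : t ^ k * t = t * t ^ k := (Commute.refl t).zpow_left k
      rw [e3, e2] at e1
      have e4 : ((ζ : ZMod (m + 2)) - 1) * z' (t ^ k) = 0 := by
        linear_combination e1
      rcases mul_eq_zero.1 e4 with h | h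
      · exfalso
        apply hζ1
        apply Units.ext
        rw [Units.val_one]
        exact sub_eq_zero.1 h
      · exact h
    have h2 : z' g = 0 := by
      have e := hz'm (g * (t ^ k)⁻¹) (t ^ k)
      rw [inv_mul_cancel_right, h0, h1, mul_zero, add_zero] at e
      exact e
    have h3 : (Θ x).v 0 = z x := rfl
    rw [← h3, ← hg1]
    exact h2

end

end Pool.Agent.F8.CG
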