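import Pool.Agent.Lib.MP_305fdd_al.F8.CG.StmR

/-!
# MP_305fdd_al, [CG pU]: the powers of the operator `Uop`
-/

set_option autoImplicit false

namespace Pool.Agent.F8.CG

open Pool.Agent.F8.BG Pool.Agent.Lib.MP_305fdd_al Pool.Agent.F8

noncomputable section

variable {ι : Type}

/-- the sum over the positions of a word, of a function of the prefix and the letter -/
private def pU_gs {W : Type} [AddCommMonoid W] (f : List ι → ι → W) (L : List ι) : W :=
  ∑ p : Fin L.length, f (L.take p) (L.get p)

private theorem pU_gs_nil {W : Type} [AddCommMonoid W] (f : List ι → ι → W) :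
    pU_gs f [] = 0 := by
  unfold pU_gs
  simp

private theorem pU_gs_cons {W : Type} [AddCommMonoid W] (f : List ι → ι → W) (i : ι)
    (L : List ι) : pU_gs f (i :: L) = f [] i + pU_gs (fun u j => f (i :: u) j) L := by
  unfold pU_gs
  have h : ∑ p : Fin (L.length + 1), f ((i :: L).take p) ((i :: L).get p) =
      f [] i + ∑ p : Fin L.length, f (i :: L.take p) (L.get p) := by
    rw [Fin.sum_univ_succ]
    rfl
  exact h

private theorem pU_gs_append {W : Type} [AddCommMonoid W] (L L' : List ι) :
    ∀ f : List ι → ι → W, pU_gs f (L ++ L') = pU_gs f L + pU_gs (fun u j => f (L ++ u) j) L' := by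
  induction L with
  | nil => intro f; rw [pU_gs_nil, zero_add]; rfl
  | cons i L ih =>
    intro f
    rw [List.cons_append, pU_gs_cons, pU_gs_cons, ih, add_assoc]
    rfl

private theorem pU_gs_flatMap {W : Type} [AddCommMonoid W] (w : ι → List ι) (L : List ι) :
    ∀ f : List ι → ι → W, pU_gs f (L.flatMap w) =
      pU_gs (fun u j => pU_gs (fun u' k => f (u.flatMap w ++ u') k) (w j)) L := by
  induction L with
  | nil => intro f; rw [List.flatMap_nil, pU_gs_nil, pU_gs_nil]
  | cons i L ih =>
    intro f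
    rw [List.flatMap_cons, pU_gs_append, pU_gs_cons, ih]
    simp only [List.flatMap_nil, List.nil_append, List.flatMap_cons, List.append_assoc]

private theorem pU_gs_map {W W' : Type} [AddCommMonoid W] [AddCommMonoid W'] (g : W →+ W')
    (f : List ι → ι → W) (L : List ι) : g (pU_gs f L) = pU_gs (fun u j => g (f u j)) L := by
  unfold pU_gs
  rw [map_sum]

private theorem pU_pw (α : MulAut (FreeGroup ι)) (w : ι → List ι)
    (hw : ∀ i, α (FreeGroup.of i) = BG.pw (w i)) (u : List ι) :
    α (BG.pw u) = BG.pw (u.flatMap w) := by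
  induction u with
  | nil => simp
  | cons i u ih => rw [pw_cons, map_mul, hw, ih, List.flatMap_cons, pw_append]

theorem p_pU (hlp : R_lp) : R_pU := by
  clear hlp
  intro ι α w hw L K V _ _ _ σ
  have hU : ∀ (v : ι → (GR α ⧸ L) → V) (i : ι), Uop α w L σ v i =
      pU_gs (fun u j => indA L σ ((tR α)⁻¹ * iR α (BG.pw u)) (v j)) (w i) := by
    intro v i
    unfold Uop pU_gs
    rw [LinearMap.pi_apply, LinearMap.sum_apply]
    rfl
  have key : ∀ (l : ℕ) (v : ι → (GR α ⧸ L) → V) (i : ι), (Uop α w L σ ^ l) v i =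
      pU_gs (fun u j => indA L σ ((tR α ^ l)⁻¹ * iR α (BG.pw u)) (v j)) (itw w l i) := by
    intro l
    induction l with
    | zero =>
      intro v i
      rw [itw, pU_gs_cons, pU_gs_nil, add_zero, pow_zero, pow_zero, pw_nil, map_one, inv_one,
        mul_one, map_one]
      rfl
    | succ l ih =>
      intro v i
      rw [pow_succ, Module.End.mul_apply, ih, itw, pU_gs_flatMap]
      congr 1
      funext u j
      rw [hU]
      have h1 := pU_gs_map (indA L σ ((tR α ^ l)⁻¹ * iR α (BG.pw u))).toAddMonoidHom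
        (fun u j => indA L σ ((tR α)⁻¹ * iR α (BG.pw u)) (v j)) (w j)
      refine Eq.trans h1 ?_
      congr 1
      funext u' k
      have h2 : (tR α ^ l)⁻¹ * iR α (BG.pw u) * ((tR α)⁻¹ * iR α (BG.pw u')) =
          (tR α ^ (l + 1))⁻¹ * iR α (BG.pw (u.flatMap w ++ u')) := by
        rw [pw_append, ← pU_pw α w hw, map_mul, ← tR_conj, pow_succ']
        group
      have h3 : indA L σ ((tR α ^ l)⁻¹ * iR α (BG.pw u) * ((tR α)⁻¹ * iR α (BG.pw u'))) (v k) =
          indA L σ ((tR α ^ l)⁻¹ * iR α (BG.pw u))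
            (indA L σ ((tR α)⁻¹ * iR α (BG.pw u')) (v k)) := by
        rw [map_mul (indA L σ) ((tR α ^ l)⁻¹ * iR α (BG.pw u)), Module.End.mul_apply]
      rw [← h2, h3]
      rfl
  exact key

end

end Pool.Agent.F8.CG
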