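import Pool.Agent.Lib.MP_305fdd_al.F8.CG.StmA

/-!
# MP_305fdd_al, congruence subgroups: [CG ppow] powers of positive automorphisms
-/

set_option autoImplicit false

namespace Pool.Agent.F8.CG

open Pool.Agent.F8.BG Pool.Agent.Lib.MP_305fdd_al Pool.Agent.F8

theorem ppow_add {ι : Type} (w : ι → List ι) (l l' : ℕ) (i : ι) :
    itw w (l + l') i = (itw w l i).flatMap (itw w l') := by
  induction l' with
  | zero =>
    show itw w l i = (itw w l i).flatMap (fun i => [i])
    rw [List.flatMap_singleton']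
  | succ l' ih =>
    show (itw w (l + l') i).flatMap w = (itw w l i).flatMap (fun j => (itw w l' j).flatMap w)
    rw [ih, List.flatMap_assoc]

theorem ppow_mul {ι : Type} (w : ι → List ι) (k m : ℕ) (i : ι) :
    itw (itw w k) m i = itw w (k * m) i := by
  induction m with
  | zero => rfl
  | succ m ih =>
    have h1 : itw (itw w k) (m + 1) i = (itw (itw w k) m i).flatMap (itw w k) := rfl
    rw [h1, ih, Nat.mul_succ, ppow_add]

theorem ppow_head {ι : Type} (w : ι → List ι) (i₀ : ι) (h : (w i₀).head? = some i₀) (k : ℕ) :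
    (itw w k i₀).head? = some i₀ := by
  induction k with
  | zero => rfl
  | succ k ih =>
    show ((itw w k i₀).flatMap w).head? = some i₀
    cases hL : itw w k i₀ with
    | nil => rw [hL] at ih; simp at ih
    | cons a L =>
      rw [hL] at ih
      have ha : a = i₀ := by simpa using ih
      subst ha
      rw [List.flatMap_cons, List.head?_append, h]
      rfl

theorem ppow_mem_of_head {ι : Type} {L : List ι} {i : ι} (h : L.head? = some i) : i ∈ L :=
  List.mem_of_mem_head? h

theorem ppow_reach {ι : Type} (w : ι → List ι) {i j : ι}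
    (h : Relation.ReflTransGen (fun i j => j ∈ w i) i j) : ∃ m, j ∈ itw w m i := by
  induction h with
  | refl => exact ⟨0, List.mem_singleton.2 rfl⟩
  | tail _ h ih =>
    obtain ⟨m, hm⟩ := ih
    exact ⟨m + 1, List.mem_flatMap.2 ⟨_, hm, h⟩⟩

theorem ppow_reach' {ι : Type} (w : ι → List ι) {i j : ι} (m : ℕ) (h : j ∈ itw w m i) :
    Relation.ReflTransGen (fun i j => j ∈ w i) i j := by
  induction m generalizing j with
  | zero =>
    have : j = i := List.mem_singleton.1 h
    subst this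
    exact Relation.ReflTransGen.refl
  | succ m ih =>
    obtain ⟨a, ha, hj⟩ := List.mem_flatMap.1 h
    exact (ih ha).tail hj

theorem ppow_large {ι : Type} (w : ι → List ι) (i₀ : ι) (h : (w i₀).head? = some i₀)
    (hirr : ∀ i j, Relation.ReflTransGen (fun i j => j ∈ w i) i j) (i j : ι) :
    ∃ M, ∀ m, M ≤ m → j ∈ itw w m i := by
  obtain ⟨m₁, h₁⟩ := ppow_reach w (hirr i i₀)
  obtain ⟨m₂, h₂⟩ := ppow_reach w (hirr i₀ j)
  refine ⟨m₁ + m₂, fun m hm => ?_⟩
  obtain ⟨n, rfl⟩ := Nat.exists_eq_add_of_le hm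
  have e : m₁ + m₂ + n = m₁ + (n + m₂) := by omega
  rw [e, ppow_add]
  refine List.mem_flatMap.2 ⟨i₀, h₁, ?_⟩
  rw [ppow_add]
  exact List.mem_flatMap.2 ⟨i₀, ppow_mem_of_head (ppow_head w i₀ h n), h₂⟩

theorem ppow_infix_flatMap {ι : Type} (w : ι → List ι) {L L' : List ι} (h : L <:+: L') :
    L.flatMap w <:+: L'.flatMap w := by
  obtain ⟨s, t, rfl⟩ := h
  exact ⟨s.flatMap w, t.flatMap w, by rw [List.flatMap_append, List.flatMap_append]⟩

theorem ppow_infix_mem {ι : Type} (w : ι → List ι) {i : ι} {L : List ι} (h : i ∈ L) :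
    w i <:+: L.flatMap w := by
  have h1 : [i] <:+: L := by
    obtain ⟨s, t, rfl⟩ := List.append_of_mem h
    exact ⟨s, t, by simp⟩
  have h2 := ppow_infix_flatMap w h1
  simpa using h2

theorem ppow_turn {ι : Type} (w : ι → List ι) (i₀ : ι) (h : (w i₀).head? = some i₀)
    (hirr : ∀ i j, Relation.ReflTransGen (fun i j => j ∈ w i) i j) {b a : ι} (ht : Turn w b a) :
    ∃ M, ∀ m, M ≤ m → [b, a] <:+: itw w m i₀ := by
  induction ht with
  | base i b a hb =>
    obtain ⟨M, hM⟩ := ppow_large w i₀ h hirr i₀ i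
    refine ⟨M + 1, fun m hm => ?_⟩
    obtain ⟨n, rfl⟩ := Nat.exists_eq_add_of_le hm
    have e : M + 1 + n = (M + n) + 1 := by omega
    rw [e]
    exact hb.trans (ppow_infix_mem w (hM (M + n) (Nat.le_add_right _ _)))
  | step b a b' a' _ hb ha ih =>
    obtain ⟨M, hM⟩ := ih
    refine ⟨M + 1, fun m hm => ?_⟩
    obtain ⟨n, rfl⟩ := Nat.exists_eq_add_of_le hm
    have e : M + 1 + n = (M + n) + 1 := by omega
    rw [e]
    have h1 : [b, a].flatMap w <:+: itw w (M + n + 1) i₀ :=
      ppow_infix_flatMap w (hM (M + n) (Nat.le_add_right _ _))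
    refine List.IsInfix.trans ?_ h1
    have h2 : [b, a].flatMap w = w b ++ w a := by simp
    rw [h2]
    obtain ⟨s, hs⟩ : ∃ s, w b = s ++ [b'] := by
      have hb' : (w b).getLast? = some b' := hb
      rw [List.getLast?_eq_some_iff] at hb'
      exact hb'
    obtain ⟨t, ht⟩ : ∃ t, w a = a' :: t := by
      have ha' : (w a).head? = some a' := ha
      rw [List.head?_eq_some_iff] at ha'
      exact ha'
    exact ⟨s, t, by rw [hs, ht]; simp⟩

theorem ppow_append {ι : Type} {b a : ι} {l₁ l₂ : List ι} (h : [b, a] <:+: l₁ ++ l₂) :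
    [b, a] <:+: l₁ ∨ [b, a] <:+: l₂ ∨ (b ∈ l₁.getLast? ∧ a ∈ l₂.head?) := by
  obtain ⟨s, t, hst⟩ := h
  rw [List.append_assoc, List.append_eq_append_iff] at hst
  rcases hst with ⟨a', h1, h2⟩ | ⟨c', h1, h2⟩
  · -- `l₁ = s ++ a'`
    match a', h1, h2 with
    | [], h1, h2 =>
      right; left
      exact ⟨[], t, by simpa using h2⟩
    | [x], h1, h2 =>
      right; right
      have h3 : b = x ∧ [a] ++ t = l₂ := by simpa using h2
      obtain ⟨h3, h4⟩ := h3
      subst h3
      constructor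
      · rw [h1]; simp
      · rw [← h4]; simp
    | x :: y :: a'', h1, h2 =>
      left
      have h3 : b = x ∧ a = y ∧ t = a'' ++ l₂ := by simpa using h2
      obtain ⟨h3, h4, _⟩ := h3
      subst h3; subst h4
      exact ⟨s, a'', by rw [h1]; simp⟩
  · right; left
    exact ⟨c', t, by rw [h2]; simp⟩

theorem ppow_infix2 {ι : Type} (v : ι → List ι) (hv : ∀ x, v x ≠ []) {b a : ι} (L : List ι)
    (h : [b, a] <:+: L.flatMap v) : (∃ x ∈ L, [b, a] <:+: v x) ∨
      ∃ x y, [x, y] <:+: L ∧ b ∈ (v x).getLast? ∧ a ∈ (v y).head? := by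
  induction L with
  | nil =>
    simp at h
  | cons x L ih =>
    rw [List.flatMap_cons] at h
    rcases ppow_append h with h | h | ⟨h1, h2⟩
    · exact Or.inl ⟨x, List.mem_cons_self, h⟩
    · rcases ih h with ⟨y, hy, h⟩ | ⟨y, z, hyz, h⟩
      · exact Or.inl ⟨y, List.mem_cons_of_mem _ hy, h⟩
      · exact Or.inr ⟨y, z, hyz.trans (List.suffix_cons x L).isInfix, h⟩
    · cases L with
      | nil => simp at h2
      | cons y L =>
        refine Or.inr ⟨x, y, ⟨[], L, by simp⟩, h1, ?_⟩
        rw [List.flatMap_cons] at h2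
        cases hy : v y with
        | nil => exact absurd hy (hv y)
        | cons z l =>
          rw [hy] at h2
          simpa using h2

theorem ppow_turn' {ι : Type} (v : ι → List ι) (hv : ∀ x, v x ≠ []) {b a : ι} (m : ℕ) (i : ι)
    (h : [b, a] <:+: itw v (m + 1) i) : Turn v b a := by
  induction m generalizing b a with
  | zero =>
    have h1 : itw v (0 + 1) i = v i := by
      show [i].flatMap v = v i
      simp
    rw [h1] at h
    exact Turn.base i b a h
  | succ m ih =>
    have h1 : [b, a] <:+: (itw v (m + 1) i).flatMap v := h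
    rcases ppow_infix2 v hv _ h1 with ⟨x, _, h2⟩ | ⟨x, y, h2, h3, h4⟩
    · exact Turn.base x b a h2
    · exact Turn.step x y b a (ih h2) h3 h4

/-- [CG ppow] -/
theorem p_ppow (hlp : R_lp) : A_ppow := by
  intro ι _ α w i₀ hP h₀ k hk
  have heq := (hlp ι α w hP.eq).1
  have hv : ∀ x, itw w k x ≠ [] := by
    intro x hx
    have h1 := heq k x
    rw [hx, pw_nil] at h1
    have h2 : FreeGroup.of x = 1 := (map_eq_one_iff _ (α ^ k).injective).1 h1
    exact FreeGroup.of_ne_one x h2
  refine ⟨⟨heq k, ?_, ?_⟩, ppow_head w i₀ h₀ k⟩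
  · intro i j
    obtain ⟨M, hM⟩ := ppow_large w i₀ h₀ hP.irr i j
    apply ppow_reach' (itw w k) M
    rw [ppow_mul]
    exact hM _ (Nat.le_mul_of_pos_left M hk)
  · intro x y
    refine Relation.EqvGen.mono ?_ _ _ (hP.con x y)
    rintro x y ⟨b, a, hx, hy, ht⟩
    refine ⟨b, a, hx, hy, ?_⟩
    obtain ⟨M, hM⟩ := ppow_turn w i₀ h₀ hP.irr ht
    apply ppow_turn' (itw w k) hv M i₀
    rw [ppow_mul]
    apply hM
    calc M ≤ M + 1 := Nat.le_succ M
      _ ≤ k * (M + 1) := Nat.le_mul_of_pos_left _ hk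

end Pool.Agent.F8.CG
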