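import Pool.Agent.Lib.MP_305fdd_al.F8.CG.StmR

/-!
# MP_305fdd_al, congruence subgroups: the image of `ν` contains a positive integer (piece r4)
-/

set_option autoImplicit false

namespace Pool.Agent.F8.CG

open Pool.Agent.F8.BG Pool.Agent.Lib.MP_305fdd_al Pool.Agent.F8

noncomputable section

private theorem r4_eX {G : Type} [Group G] (X : G →* Multiplicative (ZMod 1)) : eX 1 X = 1 := by
  ext g
  have h : X g = 1 := Subsingleton.elim _ _
  unfold eX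
  rw [MonoidHom.comp_apply, MonoidHom.comp_apply, h, map_one, map_one, MonoidHom.one_apply]

private theorem r4_eY (x : ZMod 1) : eY 1 x ≠ 0 := by
  unfold eY
  exact Circle.coe_ne_zero _

private theorem r4_eig (hgrow : R_grow) (htr : R_tr) (heg1 : R_eg1) (ι : Type) [Finite ι]
    (α : MulAut (FreeGroup ι)) (w : ι → List ι) (i₀ : ι) (D : Subgroup (GR α))
    (hs : Stg α w i₀ D) :
    ∃ τ : ℂ, 1 < ‖τ‖ ∧
      Module.End.HasEigenvalue (Uop α w D (chE (1 : D →* ℂˣ))) τ := by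
  by_contra hc
  have hc' : ∀ τ : ℂ, Module.End.HasEigenvalue (Uop α w D (chE (1 : D →* ℂˣ))) τ → ‖τ‖ ≤ 1 := by
    intro τ hτ
    by_contra h
    exact hc ⟨τ, not_le.1 h, hτ⟩
  have hfin : Finite (GR α ⧸ D) := by
    have := hs.fin
    infer_instance
  have h1 := heg1 (ι → (GR α ⧸ D) → ℂ) (Uop α w D (chE (1 : D →* ℂˣ))) hc'
  obtain ⟨l, _, S, hS, hS'⟩ := hgrow ι α w i₀ D hs i₀
    (Module.finrank ℂ (ι → (GR α ⧸ D) → ℂ) + 1) 1 le_rfl
  have h2 := (htr ι α w i₀ D hs i₀ 1 (fun d => by simp) (1 * l) S hS').1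
  have h3 := h1 (1 * l)
  have h4 := Complex.re_le_norm (LinearMap.trace ℂ _ (Uop α w D (chE (1 : D →* ℂˣ)) ^ (1 * l)))
  have h5 : ((Module.finrank ℂ (ι → (GR α ⧸ D) → ℂ) + 1 : ℕ) : ℝ) ≤ (S.card : ℝ) := by
    exact_mod_cast hS
  push_cast at h5
  linarith

theorem p_r4 (hmu : R_mu) (hkey : R_key) (hgrow : R_grow) (htr : R_tr) (heg1 : R_eg1) : R_r4 := by
  classical
  intro ι _ α w i₀ D hs Λ _ _ Φ
  obtain ⟨μ, hμ⟩ := hmu ι α D hs.fin hs.t Λ Φ
  obtain ⟨τ, hτ, hτ'⟩ := r4_eig hgrow htr heg1 ι α w i₀ D hs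
  have hτ0 : τ ≠ 0 := by
    intro h
    rw [h, norm_zero] at hτ
    linarith
  -- a nonzero constant in the image
  have hex : ∃ (l : Λ) (k : ℤ), nu Φ l = Multiplicative.ofAdd (cst k) ∧ k ≠ 0 := by
    by_contra hno
    have hno' : ∀ (l : Λ) (k : ℤ), nu Φ l = Multiplicative.ofAdd (cst k) → k = 0 := by
      intro l k hl
      by_contra hk
      exact hno ⟨l, k, hl, hk⟩
    obtain ⟨b₀, hb₀⟩ := Finsupp.support_nonempty_iff.2 hμ.ne
    have hκ : ∀ b ∈ μ.support, ∀ k : ℤ, b = b₀ + cst k → k = 0 := by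
      intro b hb k hk
      obtain ⟨l, hl⟩ := hμ.sup b hb
      obtain ⟨l₀, hl₀⟩ := hμ.sup b₀ hb₀
      apply hno' (l₀⁻¹ * l) k
      rw [map_mul, map_inv, hl, hl₀, hk, ofAdd_add, inv_mul_cancel_left]
    have h1 := hkey ι α w i₀ D hs Λ Φ μ hμ 1 1 (fun _ => 0)
      (fun l => Subsingleton.elim _ _) (Units.mk0 τ hτ0) hτ
      (by rw [r4_eX]; exact hτ') b₀ (fun _ => 0) (fun b hb k hk => (hκ b hb k hk).symm)
    have h2 : μ.support.filter (fun b => ∃ k : ℤ, b = b₀ + cst k) = {b₀} := by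
      ext b
      rw [Finset.mem_filter, Finset.mem_singleton]
      constructor
      · rintro ⟨hb, k, hk⟩
        have := hκ b hb k hk
        rw [hk, this, map_zero, add_zero]
      · rintro rfl
        exact ⟨hb₀, 0, by rw [map_zero, add_zero]⟩
    rw [h2, Finset.sum_singleton, zpow_zero, Units.val_one, mul_one] at h1
    rcases mul_eq_zero.1 h1 with h | h
    · exact (Finsupp.mem_support_iff.1 hb₀) (by exact_mod_cast h)
    · exact r4_eY _ h
  -- the subgroup of the constants in the image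
  let H : AddSubgroup ℤ :=
    { carrier := {k | ∃ l : Λ, nu Φ l = Multiplicative.ofAdd (cst k)}
      add_mem' := by
        rintro a b ⟨l, hl⟩ ⟨l', hl'⟩
        exact ⟨l * l', by rw [map_mul, hl, hl', map_add, ofAdd_add]⟩
      zero_mem' := ⟨1, by rw [map_one, map_zero, ofAdd_zero]⟩
      neg_mem' := by
        rintro a ⟨l, hl⟩
        exact ⟨l⁻¹, by rw [map_inv, hl, map_neg, ofAdd_neg]⟩ }
  have hH : ∀ k : ℤ, k ∈ H ↔ ∃ l : Λ, nu Φ l = Multiplicative.ofAdd (cst k) := fun k => Iff.rfl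
  obtain ⟨a, ha⟩ := Int.subgroup_cyclic H
  have ha' : ∀ k : ℤ, k ∈ H ↔ ∃ n : ℤ, n • a = k := by
    intro k
    rw [ha, AddSubgroup.mem_closure_singleton]
  obtain ⟨l₁, k₁, hl₁, hk₁⟩ := hex
  obtain ⟨n₁, hn₁⟩ := (ha' k₁).1 ((hH k₁).2 ⟨l₁, hl₁⟩)
  have ha0 : a ≠ 0 := by
    intro h
    apply hk₁
    rw [← hn₁, h, smul_zero]
  have hr : (a.natAbs : ℤ) ∈ H := by
    rcases Int.natAbs_eq a with h | h
    · exact (ha' _).2 ⟨1, by rw [one_smul]; exact h⟩
    · exact (ha' _).2 ⟨-1, by rw [neg_smul, one_smul]; omega⟩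
  refine ⟨a.natAbs, Int.natAbs_pos.2 ha0, (hH _).1 hr, fun l k hl => ?_⟩
  obtain ⟨n, hn⟩ := (ha' k).1 ((hH k).2 ⟨l, hl⟩)
  rw [← hn, Int.natAbs_dvd, smul_eq_mul]
  exact dvd_mul_left a n

end

end Pool.Agent.F8.CG
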