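import Pool.Agent.Lib.MP_305fdd_al.F8.CG.StmR

/-!
# MP_305fdd_al, congruence subgroups: piece CG r5

The quotient of the image of `ν` by the constants is a torsion group.
-/

set_option autoImplicit false

namespace Pool.Agent.F8.CG

open Pool.Agent.F8.BG Pool.Agent.Lib.MP_305fdd_al Pool.Agent.F8

noncomputable section

/-- `GR α` is finitely generated -/
theorem r5_fg {ι : Type} [Finite ι] (α : MulAut (FreeGroup ι)) : Group.FG (GR α) := by
  rw [Group.fg_iff]
  refine ⟨insert (tR α) (Set.range fun i => iR α (FreeGroup.of i)), ?_,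
    (Set.finite_range _).insert _⟩
  rw [eq_top_iff]
  rintro x -
  obtain ⟨w, n, rfl⟩ := GR_cases α x
  have hw : iR α w ∈ Subgroup.closure (insert (tR α) (Set.range fun i => iR α (FreeGroup.of i))) := by
    have hle : (⊤ : Subgroup (FreeGroup ι)) ≤ (Subgroup.closure
        (insert (tR α) (Set.range fun i => iR α (FreeGroup.of i)))).comap (iR α) := by
      rw [← FreeGroup.closure_range_of, Subgroup.closure_le]
      rintro _ ⟨i, rfl⟩
      exact Subgroup.subset_closure (Set.mem_insert_of_mem _ ⟨i, rfl⟩)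
    exact hle (Subgroup.mem_top w)
  exact mul_mem hw (zpow_mem (Subgroup.subset_closure (Set.mem_insert _ _)) _)

/-! ### A homomorphism to the integers -/

theorem r5_theta {Λ : Type} [Group Λ] [Group.FG Λ] (N : Subgroup Λ) [N.Normal]
    (hc : ∀ a b : Λ, a⁻¹ * b⁻¹ * a * b ∈ N) (hm : ∀ m : ℕ, 1 ≤ m → ∃ l : Λ, l ^ m ∉ N) :
    ∃ θ : Λ →* Multiplicative ℤ, Function.Surjective θ ∧ ∀ l ∈ N, θ l = 1 := by
  let inst : CommGroup (Λ ⧸ N) :=
    { (inferInstance : Group (Λ ⧸ N)) with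
      mul_comm := by
        intro a b
        induction a using QuotientGroup.induction_on with
        | H a =>
          induction b using QuotientGroup.induction_on with
          | H b =>
            show ((a * b : Λ) : Λ ⧸ N) = ((b * a : Λ) : Λ ⧸ N)
            rw [QuotientGroup.eq, mul_inv_rev]
            have h := hc b a
            have e : b⁻¹ * a⁻¹ * (b * a) = b⁻¹ * a⁻¹ * b * a := by group
            rw [e]
            exact h }
  have hfg : Group.FG (Λ ⧸ N) :=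
    Group.fg_of_surjective (f := QuotientGroup.mk' N) (QuotientGroup.mk'_surjective N)
  obtain ⟨ι, j, _, _, p, hp, e, ⟨f⟩⟩ :=
    CommGroup.equiv_free_prod_prod_multiplicative_zmod (Λ ⧸ N)
  by_cases hj : Nonempty j
  · obtain ⟨j₀⟩ := hj
    refine ⟨(Pi.evalMonoidHom _ j₀).comp ((MonoidHom.fst _ _).comp
      (f.toMonoidHom.comp (QuotientGroup.mk' N))), ?_, ?_⟩
    · intro y
      obtain ⟨q, hq⟩ := f.surjective (fun _ => y, 1)
      obtain ⟨l, rfl⟩ := QuotientGroup.mk_surjective q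
      refine ⟨l, ?_⟩
      show (f (l : Λ ⧸ N)).1 j₀ = y
      rw [hq]
    · intro l hl
      show (f (l : Λ ⧸ N)).1 j₀ = 1
      rw [(QuotientGroup.eq_one_iff l).2 hl, map_one]
      rfl
  · exfalso
    have : IsEmpty j := not_nonempty_iff.1 hj
    have : ∀ i, NeZero (p i ^ e i) := fun i => ⟨(pow_pos (hp i).pos _).ne'⟩
    have : Finite (Λ ⧸ N) := Finite.of_equiv _ f.symm.toEquiv
    obtain ⟨l, hl⟩ := hm (Nat.card (Λ ⧸ N)) Nat.card_pos
    apply hl
    rw [← QuotientGroup.eq_one_iff, QuotientGroup.mk_pow]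
    exact pow_card_eq_one'

theorem r5_cst_inj : Function.Injective cst := by
  rw [injective_iff_map_eq_zero]
  intro k hk
  have h := congrFun hk k.natAbs
  have h1 : ((k : ℤ) : ZMod (k.natAbs + 1)) = 0 := h
  rw [ZMod.intCast_zmod_eq_zero_iff_dvd] at h1
  apply Int.eq_zero_of_abs_lt_dvd h1
  rw [Int.abs_eq_natAbs]
  push_cast
  omega

/-! ### The end of the proof -/

section

variable {ι : Type} {α : MulAut (FreeGroup ι)} {D : Subgroup (GR α)} {Λ : Type} [Group Λ]
  (Φ : NatBij D Λ)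

theorem r5_end (ht : tR α ∈ D) (m : ℕ) (X : D →* Multiplicative (ZMod (m + 1)))
    (hX : ∀ d, nD D d = 1 → X d = 1) (l : Λ) :
    Multiplicative.toAdd (Φ.toFun _ X l) =
      Multiplicative.toAdd (X ⟨tR α, ht⟩) * (Multiplicative.toAdd (nu Φ l)) m := by
  let ψ : Multiplicative (ZMod (m + 1)) →* Multiplicative (ZMod (m + 1)) :=
    AddMonoidHom.toMultiplicative (AddMonoidHom.mulLeft (Multiplicative.toAdd (X ⟨tR α, ht⟩)))
  have h1 : X = ψ.comp ((redZ (m + 1)).comp (nD D)) := by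
    ext g
    have h2 : X (g * (⟨tR α, ht⟩ ^ (Multiplicative.toAdd (nD D g)))⁻¹) = 1 := by
      apply hX
      rw [map_mul, map_inv, map_zpow]
      have h3 : nD D ⟨tR α, ht⟩ = Multiplicative.ofAdd 1 := rfl
      rw [h3, ← ofAdd_zsmul, smul_eq_mul, mul_one, ofAdd_toAdd, mul_inv_cancel]
    rw [map_mul, map_inv, mul_inv_eq_one, map_zpow] at h2
    rw [h2]
    apply Multiplicative.toAdd.injective
    show (Multiplicative.toAdd (nD D g)) • Multiplicative.toAdd (X ⟨tR α, ht⟩) =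
      Multiplicative.toAdd (X ⟨tR α, ht⟩) * ((Multiplicative.toAdd (nD D g) : ℤ) : ZMod (m + 1))
    rw [zsmul_eq_mul, mul_comm]
  have h4 : Φ.toFun _ X = ψ.comp (Φ.toFun _ ((redZ (m + 1)).comp (nD D))) := by
    rw [← Φ.nat, ← h1]
  rw [h4]
  rfl

theorem r5_fin (ht : tR α ∈ D) (n : ℕ) [NeZero n] (X : D →* Multiplicative (ZMod n))
    (hX : ∀ d, nD D d = 1 → X d = 1) (r : ℕ) (hr : Nat.Coprime r n) (l₁ : Λ)
    (hl₁ : nu Φ l₁ = Multiplicative.ofAdd (cst r)) (hX1 : Φ.toFun _ X l₁ = 1) (l : Λ) :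
    Φ.toFun _ X l = 1 := by
  obtain ⟨m, rfl⟩ : ∃ m, n = m + 1 := ⟨n - 1, by have := NeZero.pos n; omega⟩
  have h1 := r5_end Φ ht m X hX l₁
  rw [hl₁, hX1] at h1
  have h2 : (0 : ZMod (m + 1)) = Multiplicative.toAdd (X ⟨tR α, ht⟩) * (((r : ℕ) : ℤ) : ZMod (m + 1)) :=
    h1
  rw [Int.cast_natCast] at h2
  have h3 : Multiplicative.toAdd (X ⟨tR α, ht⟩) = 0 := by
    have hu : IsUnit ((r : ℕ) : ZMod (m + 1)) := (ZMod.isUnit_iff_coprime r (m + 1)).2 hr
    exact (hu.mul_left_eq_zero).1 h2.symm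
  have h4 := r5_end Φ ht m X hX l
  rw [h3, zero_mul] at h4
  exact Multiplicative.toAdd.injective h4

end

/-! ### Characters -/

theorem r5_eX_pow {G : Type} [Group G] (n : ℕ) [NeZero n] (X : G →* Multiplicative (ZMod n))
    (u : ℕ) (g : G) : ((eX n ((powMonoidHom u).comp X) g : ℂˣ) : ℂ) =
      ((eX n X g : ℂˣ) : ℂ) ^ u := by
  rw [← Units.val_pow_eq_pow_val]
  congr 1
  unfold eX
  simp only [MonoidHom.comp_apply, powMonoidHom_apply, map_pow]

theorem r5_eX_eq_one {G : Type} [Group G] (n : ℕ) [NeZero n] (X : G →* Multiplicative (ZMod n))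
    (g : G) (h : eX n X g = 1) : X g = 1 := by
  have h1 : ((eX n X g : ℂˣ) : ℂ) = 1 := by rw [h]; rfl
  have h2 : ((ZMod.toCircle (Multiplicative.toAdd (X g)) : Circle) : ℂ) = 1 := h1
  have h3 : ZMod.toCircle (Multiplicative.toAdd (X g)) = 1 := Circle.ext h2
  have h4 : ZMod.toCircle (Multiplicative.toAdd (X g)) = ZMod.toCircle (0 : ZMod n) := by
    rw [h3, AddChar.map_zero_eq_one]
  exact Multiplicative.toAdd.injective (ZMod.injective_toCircle h4)

theorem r5_eX_norm {G : Type} [Group G] (n : ℕ) [NeZero n] (X : G →* Multiplicative (ZMod n))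
    (g : G) : ‖((eX n X g : ℂˣ) : ℂ)‖ = 1 := by
  show ‖((ZMod.toCircle (Multiplicative.toAdd (X g)) : Circle) : ℂ)‖ = 1
  exact Circle.norm_coe _

theorem r5_eX_order {G : Type} [Group G] (n : ℕ) [NeZero n] (X : G →* Multiplicative (ZMod n))
    (g : G) : eX n X g ^ n = 1 := by
  rw [← map_pow]
  have h : X (g ^ n) = 1 := by
    rw [map_pow]
    apply Multiplicative.toAdd.injective
    rw [toAdd_pow, nsmul_eq_mul, CharP.cast_eq_zero, zero_mul]
    rfl
  unfold eX
  rw [MonoidHom.comp_apply, MonoidHom.comp_apply, h, map_one, map_one]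

/-- convergence on the generators implies convergence -/
theorem r5_conv {G : Type} [Group G] (χ : ℕ → G →* ℂˣ) (S : Set G)
    (hS : Subgroup.closure S = ⊤)
    (h : ∀ g ∈ S, Filter.Tendsto (fun j => ((χ j g : ℂˣ) : ℂ)) Filter.atTop (nhds 1)) (g : G) :
    Filter.Tendsto (fun j => ((χ j g : ℂˣ) : ℂ)) Filter.atTop (nhds 1) := by
  have hg : g ∈ Subgroup.closure S := by rw [hS]; exact Subgroup.mem_top g
  induction hg using Subgroup.closure_induction with
  | mem x hx => exact h x hx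
  | one =>
    simp only [map_one, Units.val_one]
    exact tendsto_const_nhds
  | mul x y _ _ hx hy =>
    have := hx.mul hy
    simp only [mul_one] at this
    simpa only [map_mul, Units.val_mul] using this
  | inv x _ hx =>
    have := hx.inv₀ one_ne_zero
    simp only [inv_one] at this
    simpa only [map_inv, Units.val_inv_eq_inv_val] using this

/-! ### The operator -/

theorem r5_Uop {ι : Type} (α : MulAut (FreeGroup ι)) (w : ι → List ι) (L : Subgroup (GR α))
    (χ : L →* ℂˣ) (v : ι → (GR α ⧸ L) → ℂ) (i : ι) (x : GR α ⧸ L) :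
    Uop α w L (chE χ) v i x = ∑ p : Fin (w i).length,
      ((χ ⟨_, sec_mem L ((tR α)⁻¹ * iR α (BG.pw ((w i).take p))) x⟩ : ℂˣ) : ℂ) *
        v ((w i).get p) (((tR α)⁻¹ * iR α (BG.pw ((w i).take p)))⁻¹ • x) := by
  unfold Uop
  rw [LinearMap.pi_apply, LinearMap.sum_apply, Finset.sum_apply]
  rfl

theorem r5_op {ι : Type} (α : MulAut (FreeGroup ι)) (w : ι → List ι)
    (L : Subgroup (GR α)) (χ : ℕ → L →* ℂˣ)
    (h : ∀ g, Filter.Tendsto (fun j => ((χ j g : ℂˣ) : ℂ)) Filter.atTop (nhds 1))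
    (v : ι → (GR α ⧸ L) → ℂ) :
    Filter.Tendsto (fun j => Uop α w L (chE (χ j)) v) Filter.atTop
      (nhds (Uop α w L (chE 1) v)) := by
  rw [tendsto_pi_nhds]
  intro i
  rw [tendsto_pi_nhds]
  intro x
  simp only [r5_Uop]
  refine tendsto_finsetSum _ fun p _ => ?_
  refine Filter.Tendsto.mul ?_ tendsto_const_nhds
  exact h _

/-! ### The polynomial -/

open Classical in
theorem r5_poly (μ : Zh →₀ ℤ) (b₀ : Zh) (hb₀ : b₀ ∈ μ.support) (κ : Zh → ℤ)
    (hκ : ∀ b ∈ μ.support, ∀ k : ℤ, b = b₀ + cst k → κ b = k) (r : ℕ)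
    (hd : ∀ b ∈ μ.support, (∃ k : ℤ, b = b₀ + cst k) → (r : ℤ) ∣ κ b) :
    {x : ℂ | ∃ τ : ℂˣ, x = (τ : ℂ) ^ r ∧
      ∑ b ∈ μ.support.filter (fun b => ∃ k : ℤ, b = b₀ + cst k),
        (μ b : ℂ) * ((τ ^ κ b : ℂˣ) : ℂ) = 0}.Finite := by
  set F := μ.support.filter (fun b => ∃ k : ℤ, b = b₀ + cst k) with hF
  set M : ℕ := ∑ b ∈ μ.support, (κ b / r).natAbs with hM
  set e : Zh → ℕ := fun b => (κ b / r + M).toNat with he
  have hle : ∀ b ∈ F, (e b : ℤ) = κ b / r + M := by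
    intro b hb
    have hb' := (Finset.mem_filter.1 hb).1
    have h1 : (κ b / r).natAbs ≤ M :=
      Finset.single_le_sum (f := fun b => (κ b / r).natAbs) (fun _ _ => Nat.zero_le _) hb'
    have h2 : (0 : ℤ) ≤ κ b / r + M := by omega
    exact Int.toNat_of_nonneg h2
  have hre : ∀ b ∈ F, (r : ℤ) * e b = κ b + r * M := by
    intro b hb
    have hb' := Finset.mem_filter.1 hb
    rw [hle b hb, mul_add, Int.mul_ediv_cancel' (hd b hb'.1 hb'.2)]
  set P : Polynomial ℂ := ∑ b ∈ F, Polynomial.C ((μ b : ℤ) : ℂ) * Polynomial.X ^ (e b) with hP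
  have hb₀F : b₀ ∈ F := by
    rw [hF, Finset.mem_filter]
    exact ⟨hb₀, 0, by rw [map_zero, add_zero]⟩
  have hκ0 : κ b₀ = 0 := hκ b₀ hb₀ 0 (by rw [map_zero, add_zero])
  have hP0 : P ≠ 0 := by
    intro h0
    have h1 : P.coeff M = ((μ b₀ : ℤ) : ℂ) := by
      rw [hP, Polynomial.finsetSum_coeff]
      rw [Finset.sum_eq_single b₀]
      · rw [Polynomial.coeff_C_mul, Polynomial.coeff_X_pow]
        have : M = e b₀ := by
          have := hle b₀ hb₀F
          rw [hκ0] at this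
          simp only [Int.zero_ediv, zero_add] at this
          exact_mod_cast this.symm
        rw [if_pos this, mul_one]
      · intro b hb hne
        rw [Polynomial.coeff_C_mul, Polynomial.coeff_X_pow]
        rw [if_neg, mul_zero]
        intro hMe
        apply hne
        obtain ⟨hb', k, hk⟩ := Finset.mem_filter.1 hb
        have h2 := hre b hb
        rw [← hMe] at h2
        have h3 : κ b = 0 := by linarith
        have h4 := hκ b hb' k hk
        rw [h3] at h4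
        rw [hk, ← h4, map_zero, add_zero]
      · intro h2
        exact absurd hb₀F h2
    rw [h0, Polynomial.coeff_zero] at h1
    have h2 : μ b₀ = 0 := by exact_mod_cast h1.symm
    exact (Finsupp.mem_support_iff.1 hb₀) h2
  refine (P.roots.toFinset.finite_toSet).subset ?_
  rintro x ⟨τ, rfl, hτ⟩
  rw [Finset.mem_coe, Multiset.mem_toFinset, Polynomial.mem_roots hP0, Polynomial.IsRoot.def]
  rw [hP, Polynomial.eval_finsetSum]
  have h1 : ∀ b ∈ F, Polynomial.eval ((τ : ℂ) ^ r)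
      (Polynomial.C ((μ b : ℤ) : ℂ) * Polynomial.X ^ (e b)) =
      ((μ b : ℂ) * ((τ ^ κ b : ℂˣ) : ℂ)) * (τ : ℂ) ^ (r * M) := by
    intro b hb
    rw [Polynomial.eval_mul, Polynomial.eval_C, Polynomial.eval_pow, Polynomial.eval_X, mul_assoc]
    congr 1
    have h2 : (τ ^ (r * e b) : ℂˣ) = τ ^ κ b * τ ^ (r * M) := by
      rw [← zpow_natCast, ← zpow_natCast, ← zpow_add]
      congr 1
      push_cast
      exact hre b hb
    have h3 := congrArg (fun u : ℂˣ => (u : ℂ)) h2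
    simp only [Units.val_mul, Units.val_pow_eq_pow_val] at h3
    rw [← pow_mul, h3]
  rw [Finset.sum_congr rfl h1, ← Finset.sum_mul, hτ, zero_mul]

/-! ### The main proof -/

/-- **[CG r5]** -/
theorem p_r5 (hmu : R_mu) (hkey : R_key) (hchi : R_chi) (hlim : R_lim) (htr : R_tr)
    (hcnt : R_cnt) : R_r5 := by
  classical
  intro ι _ α w i₀ D hS Λ _ _ Φ r hr
  obtain ⟨hr1, ⟨l₁, hl₁⟩, hrd⟩ := hr
  have hDfin : D.FiniteIndex := hS.fin
  have hGfg : Group.FG (GR α) := r5_fg α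
  have hDfg : Group.FG D := Subgroup.fg_of_index_ne_zero _
  by_contra hno
  -- the homomorphism `θ`
  let N : Subgroup Λ := (AddMonoidHom.toMultiplicative cst).range.comap (nu Φ)
  have hN : ∀ l, l ∈ N ↔ ∃ k : ℤ, Multiplicative.toAdd (nu Φ l) = cst k := by
    intro l
    constructor
    · rintro ⟨k, hk⟩
      exact ⟨Multiplicative.toAdd k, (congrArg Multiplicative.toAdd hk).symm⟩
    · rintro ⟨k, hk⟩
      exact ⟨Multiplicative.ofAdd k, by
        apply Multiplicative.toAdd.injective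
        exact hk.symm⟩
  have hNn : N.Normal := inferInstance
  obtain ⟨θ, hθs, hθN⟩ := r5_theta N (by
      intro a b
      have : nu Φ (a⁻¹ * b⁻¹ * a * b) = 1 := by
        rw [map_mul, map_mul, map_mul, map_inv, map_inv]
        rw [mul_comm (nu Φ a)⁻¹ (nu Φ b)⁻¹, inv_mul_cancel_right, inv_mul_cancel]
      rw [hN, this]
      exact ⟨0, by rw [map_zero]; rfl⟩) (by
      intro m hm
      by_contra h
      apply hno
      refine ⟨m, hm, fun l => ?_⟩
      have h1 : l ^ m ∈ N := by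
        by_contra h2
        exact h ⟨l, h2⟩
      obtain ⟨k, hk⟩ := (hN _).1 h1
      refine ⟨k, ?_⟩
      rw [← hk, map_pow, toAdd_pow, natCast_zsmul])
  have hθν : ∀ l l', nu Φ l = nu Φ l' → θ l = θ l' := by
    intro l l' h
    rw [← mul_inv_eq_one, ← map_inv, ← map_mul]
    apply hθN
    rw [hN]
    refine ⟨0, ?_⟩
    rw [map_mul, map_inv, h, mul_inv_cancel, map_zero]
    rfl
  -- the prime
  obtain ⟨p, hp1, hp2⟩ := Nat.exists_infinite_primes (r + 1)
  have hpf : Fact p.Prime := ⟨hp2⟩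
  have hpr : Nat.Coprime r p := by
    rw [Nat.coprime_comm, Nat.Prime.coprime_iff_not_dvd hp2]
    intro h
    have := Nat.le_of_dvd hr1 h
    omega
  let X : ∀ k : ℕ, D →* Multiplicative (ZMod (p ^ k)) := fun k =>
    Φ.invFun _ ((redZ (p ^ k)).comp θ)
  have hΦX : ∀ k, Φ.toFun _ (X k) = (redZ (p ^ k)).comp θ := fun k => Φ.right_inv _ _
  have hcompat : ∀ k k' (h : k ≤ k') (g : D), Multiplicative.toAdd (X k g) =
      ZMod.castHom (pow_dvd_pow p h) (ZMod (p ^ k)) (Multiplicative.toAdd (X k' g)) := by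
    intro k k' h g
    let f : Multiplicative (ZMod (p ^ k')) →* Multiplicative (ZMod (p ^ k)) :=
      AddMonoidHom.toMultiplicative
        (ZMod.castHom (pow_dvd_pow p h) (ZMod (p ^ k))).toAddMonoidHom
    have h1 : f.comp (redZ (p ^ k')) = redZ (p ^ k) := by
      ext
      show ZMod.castHom (pow_dvd_pow p h) (ZMod (p ^ k)) (((1 : ℤ)) : ZMod (p ^ k')) =
        ((1 : ℤ) : ZMod (p ^ k))
      rw [map_intCast]
    have h2 : X k = f.comp (X k') := by
      apply Φ.injective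
      rw [hΦX, Φ.nat, hΦX, ← MonoidHom.comp_assoc, h1]
    rw [h2]
    rfl
  -- generators
  obtain ⟨S, hSg⟩ := hDfg.out
  choose kk uu hkk huu hε using fun j : ℕ => hchi D p X hcompat S (1 / ((j : ℝ) + 1))
    (by positivity)
  let XX : ∀ j : ℕ, D →* Multiplicative (ZMod (p ^ kk j)) := fun j =>
    (powMonoidHom (uu j)).comp (X (kk j))
  let χ : ℕ → D →* ℂˣ := fun j => eX (p ^ kk j) (XX j)
  have hconv : ∀ g, Filter.Tendsto (fun j => ((χ j g : ℂˣ) : ℂ)) Filter.atTop (nhds 1) := by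
    apply r5_conv χ S hSg
    intro g hg
    rw [tendsto_iff_norm_sub_tendsto_zero]
    refine squeeze_zero (fun _ => norm_nonneg _) (fun j => ?_)
      tendsto_one_div_add_atTop_nhds_zero_nat
    have h := hε j g hg
    rw [← r5_eX_pow] at h
    exact h.le
  -- matching
  have hYex : ∀ j : ℕ, ∃ Y : Zh → ZMod (p ^ kk j), ∀ l,
      Y (Multiplicative.toAdd (nu Φ l)) = Multiplicative.toAdd (Φ.toFun _ (XX j) l) := by
    intro j
    refine ⟨fun b => if h : ∃ l, Multiplicative.toAdd (nu Φ l) = b then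
      Multiplicative.toAdd (Φ.toFun _ (XX j) h.choose) else 0, fun l => ?_⟩
    have h : ∃ l', Multiplicative.toAdd (nu Φ l') = Multiplicative.toAdd (nu Φ l) := ⟨l, rfl⟩
    show (if h : ∃ l', Multiplicative.toAdd (nu Φ l') = Multiplicative.toAdd (nu Φ l) then
      Multiplicative.toAdd (Φ.toFun _ (XX j) h.choose) else 0) = _
    rw [dif_pos h]
    have h2 : θ h.choose = θ l := hθν _ _ (Multiplicative.toAdd.injective h.choose_spec)
    have h3 : ∀ l, Φ.toFun _ (XX j) l = (redZ (p ^ kk j) (θ l)) ^ (uu j) := by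
      intro l
      show Φ.toFun _ ((powMonoidHom (uu j)).comp (X (kk j))) l = _
      rw [Φ.nat, hΦX]
      rfl
    rw [h3, h3, h2]
  choose Y hY using hYex
  have hmt : ∀ j, Mtc Φ (p ^ kk j) (XX j) (Y j) := by
    intro j l
    rw [hY]
    rfl
  have hΦXX : ∀ j l, Φ.toFun _ (XX j) l = (redZ (p ^ kk j) (θ l)) ^ (uu j) := by
    intro j l
    show Φ.toFun _ ((powMonoidHom (uu j)).comp (X (kk j))) l = _
    rw [Φ.nat, hΦX]
    rfl
  -- the annihilator
  obtain ⟨μ, hμ⟩ := hmu ι α D hS.fin hS.t Λ Φ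
  obtain ⟨b₀, hb₀⟩ : μ.support.Nonempty := Finsupp.support_nonempty_iff.2 hμ.ne
  let κ : Zh → ℤ := fun b => if h : ∃ k : ℤ, b = b₀ + cst k then h.choose else 0
  have hκ : ∀ b ∈ μ.support, ∀ k : ℤ, b = b₀ + cst k → κ b = k := by
    intro b _ k hk
    have h : ∃ k : ℤ, b = b₀ + cst k := ⟨k, hk⟩
    show (if h : ∃ k : ℤ, b = b₀ + cst k then h.choose else 0) = k
    rw [dif_pos h]
    apply r5_cst_inj
    have h2 := h.choose_spec
    have h3 : b₀ + cst h.choose = b₀ + cst k := by rw [← h2, ← hk]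
    exact add_left_cancel h3
  obtain ⟨l₀, hl₀⟩ := hμ.sup b₀ hb₀
  have hcl : ∀ b ∈ μ.support, ∀ k : ℤ, b = b₀ + cst k → ∃ l, nu Φ l = Multiplicative.ofAdd b ∧
      nu Φ (l * l₀⁻¹) = Multiplicative.ofAdd (cst k) := by
    intro b hb k hk
    obtain ⟨l, hl⟩ := hμ.sup b hb
    refine ⟨l, hl, ?_⟩
    rw [map_mul, map_inv, hl, hl₀, hk, ← ofAdd_neg, ← ofAdd_add]
    congr 1
    abel
  have hdv : ∀ b ∈ μ.support, (∃ k : ℤ, b = b₀ + cst k) → (r : ℤ) ∣ κ b := by
    rintro b hb ⟨k, hk⟩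
    rw [hκ b hb k hk]
    obtain ⟨l, -, hl⟩ := hcl b hb k hk
    exact hrd _ k hl
  have hYb : ∀ j, ∀ b ∈ μ.support, (∃ k : ℤ, b = b₀ + cst k) → Y j b = Y j b₀ := by
    rintro j b hb ⟨k, hk⟩
    obtain ⟨l, hl, hl2⟩ := hcl b hb k hk
    have h1 : θ (l * l₀⁻¹) = 1 := hθN _ ((hN _).2 ⟨k, by rw [hl2]; rfl⟩)
    have h2 : θ l = θ l₀ := by
      rw [map_mul, map_inv, mul_inv_eq_one] at h1
      exact h1
    have e1 := hY j l
    have e2 := hY j l₀
    rw [hl] at e1
    rw [hl₀] at e2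
    rw [toAdd_ofAdd] at e1 e2
    rw [e1, e2, hΦXX, hΦXX, h2]
  -- the finite set
  have hE := r5_poly μ b₀ hb₀ κ hκ r hdv
  have hfι : Fintype ι := Fintype.ofFinite ι
  have hfX : Finite (GR α ⧸ D) := Subgroup.finite_quotient_of_finiteIndex
  have hfX' : Fintype (GR α ⧸ D) := Fintype.ofFinite _
  obtain ⟨j, hj⟩ := hlim (ι → (GR α ⧸ D) → ℂ) (fun j => Uop α w D (chE (χ j)))
    (Uop α w D (chE 1)) (r5_op α w D χ hconv) _ hE r hr1 (by
      intro j τ hτ h1
      have hτ0 : τ ≠ 0 := by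
        rintro rfl
        rw [norm_zero] at h1
        linarith
      refine ⟨Units.mk0 τ hτ0, rfl, ?_⟩
      have h2 := hkey ι α w i₀ D hS Λ Φ μ hμ (p ^ kk j) (XX j) (Y j) (hmt j) (Units.mk0 τ hτ0)
        h1 hτ b₀ κ hκ
      have h3 : ∀ b ∈ μ.support.filter (fun b => ∃ k : ℤ, b = b₀ + cst k),
          (μ b : ℂ) * eY (p ^ kk j) (Y j b) * ((Units.mk0 τ hτ0 ^ κ b : ℂˣ) : ℂ) =
          eY (p ^ kk j) (Y j b₀) * ((μ b : ℂ) * ((Units.mk0 τ hτ0 ^ κ b : ℂˣ) : ℂ)) := by
        intro b hb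
        obtain ⟨hb1, hb2⟩ := Finset.mem_filter.1 hb
        rw [hYb j b hb1 hb2]
        ring
      rw [Finset.sum_congr rfl h3, ← Finset.mul_sum] at h2
      rcases mul_eq_zero.1 h2 with h4 | h4
      · exfalso
        exact Circle.coe_ne_zero _ h4
      · exact h4)
  -- the characters are trivial on the kernel
  have hn : 1 ≤ p ^ kk j := Nat.one_le_pow _ _ hp2.pos
  have hfin := hcnt ι α w i₀ D hS i₀ (χ j) (p ^ kk j) r hn
    (fun d => r5_eX_order _ _ d) hr1 (Nat.Coprime.pow_right _ hpr)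
    (2 * Module.finrank ℂ (ι → (GR α ⧸ D) → ℂ)) (by
      intro l S hSl
      have h1 := (htr ι α w i₀ D hS i₀ (χ j) (fun d => r5_eX_norm _ _ d) (r * l) S hSl).2
      refine h1.trans ?_
      have h2 := hj l
      rw [← Complex.sub_re]
      exact (Complex.re_le_norm _).trans h2)
  have hXX : ∀ d, nD D d = 1 → XX j d = 1 := fun d hd => r5_eX_eq_one _ _ d (hfin d hd)
  have hlast := r5_fin Φ hS.t (p ^ kk j) (XX j) hXX r (Nat.Coprime.pow_right _ hpr) l₁ hl₁ (by
    rw [hΦXX, hθN l₁ ((hN _).2 ⟨r, by rw [hl₁]; rfl⟩), map_one, one_pow])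
  obtain ⟨l, hl⟩ := hθs (Multiplicative.ofAdd 1)
  have h1 := hlast l
  rw [hΦXX, hl] at h1
  have h2 : (uu j) • (((1 : ℤ)) : ZMod (p ^ kk j)) = 0 := congrArg Multiplicative.toAdd h1
  rw [Int.cast_one, nsmul_eq_mul, mul_one, ZMod.natCast_eq_zero_iff] at h2
  apply huu j
  exact (dvd_pow_self p (by have := hkk j; omega)).trans h2

end

end Pool.Agent.F8.CG
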