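import Pool.Agent.Lib.MP_305fdd_al.F8.CG.StmR

/-!
# MP_305fdd_al, congruence subgroups: block R, the main result from `R_r4` and `R_r5`

`p_regm`: the image of `ν` consists of constants, so `ν` comes from a homomorphism to the integers.
-/

set_option autoImplicit false

namespace Pool.Agent.F8.CG

open Pool.Agent.F8.BG Pool.Agent.Lib.MP_305fdd_al Pool.Agent.F8

noncomputable section

theorem regm_val_castHom {m m' : ℕ} (h : (m + 1) ∣ (m' + 1)) (x : ZMod (m' + 1)) :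
    (ZMod.castHom h (ZMod (m + 1)) x).val = x.val % (m + 1) := by
  rw [ZMod.castHom_apply, ZMod.cast_eq_val, ZMod.val_natCast]

/-- the values of `nu` are profinite integers -/
theorem regm_cmp {ι : Type} {α : MulAut (FreeGroup ι)} {D : Subgroup (GR α)} {Λ : Type} [Group Λ]
    (Φ : NatBij D Λ) (l : Λ) : Cmp (Multiplicative.toAdd (nu Φ l)) := by
  intro m m' h
  let f : Multiplicative (ZMod (m' + 1)) →* Multiplicative (ZMod (m + 1)) :=
    AddMonoidHom.toMultiplicative (ZMod.castHom h (ZMod (m + 1))).toAddMonoidHom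
  have h1 : f.comp ((redZ (m' + 1)).comp (nD D)) = (redZ (m + 1)).comp (nD D) := by
    ext x
    show (ZMod.castHom h (ZMod (m + 1))) ((Multiplicative.toAdd (nD D x) : ℤ) : ZMod (m' + 1)) =
      ((Multiplicative.toAdd (nD D x) : ℤ) : ZMod (m + 1))
    rw [map_intCast]
  have h2 := Φ.nat f ((redZ (m' + 1)).comp (nD D))
  rw [h1] at h2
  have h3 : Multiplicative.toAdd (nu Φ l) m =
      ZMod.castHom h (ZMod (m + 1)) (Multiplicative.toAdd (nu Φ l) m') :=
    congrArg Multiplicative.toAdd (DFunLike.congr_fun h2 l)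
  rw [h3, regm_val_castHom]

theorem regm_cst_inj {k k' : ℤ} (h : cst k = cst k') : k = k' := by
  have h1 : ((k : ℤ) : ZMod ((k' - k).natAbs + 1)) = ((k' : ℤ) : ZMod ((k' - k).natAbs + 1)) :=
    congrFun h (k' - k).natAbs
  rw [ZMod.intCast_eq_intCast_iff_dvd_sub] at h1
  have h2 : k' - k = 0 := by
    apply Int.eq_zero_of_abs_lt_dvd h1
    rw [Int.abs_eq_natAbs]
    push_cast
    omega
  omega

/-- division by `m` -/
theorem regm_div {m : ℕ} (hm : 1 ≤ m) {b : Zh} (hb : Cmp b) {k : ℤ}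
    (h : (m : ℤ) • b = cst k) : ∃ k' : ℤ, b = cst k' := by
  have key : ∀ i : ℕ, (((m : ℤ) * ((b i).val : ℤ) : ℤ) : ZMod (i + 1)) = (k : ZMod (i + 1)) := by
    intro i
    have h1 : (m : ℤ) • b i = (k : ZMod (i + 1)) := congrFun h i
    rw [zsmul_eq_mul] at h1
    rw [← h1]
    push_cast
    rw [ZMod.natCast_zmod_val]
  obtain ⟨m', rfl⟩ : ∃ m', m = m' + 1 := ⟨m - 1, by omega⟩
  have h1 : ((m' + 1 : ℕ) : ℤ) ∣ k := by
    have h2 := key m'
    rw [ZMod.intCast_eq_intCast_iff_dvd_sub] at h2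
    have h3 : ((m' + 1 : ℕ) : ℤ) ∣ ((m' + 1 : ℕ) : ℤ) * ((b m').val : ℤ) := dvd_mul_right _ _
    have h4 := dvd_add h2 h3
    rwa [sub_add_cancel] at h4
  obtain ⟨k', hk'⟩ := h1
  refine ⟨k', ?_⟩
  funext n
  show b n = (k' : ZMod (n + 1))
  obtain ⟨i, hi⟩ : ∃ i, i + 1 = (m' + 1) * (n + 1) :=
    ⟨(m' + 1) * (n + 1) - 1, Nat.sub_add_cancel (Nat.mul_pos (Nat.succ_pos _) (Nat.succ_pos _))⟩
  have h2 := key i
  rw [ZMod.intCast_eq_intCast_iff_dvd_sub, hk', ← mul_sub] at h2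
  have h3 : ((n + 1 : ℕ) : ℤ) ∣ k' - ((b i).val : ℤ) := by
    have h5 : ((i + 1 : ℕ) : ℤ) = ((m' + 1 : ℕ) : ℤ) * ((n + 1 : ℕ) : ℤ) := by
      rw [hi]; push_cast; ring
    rw [h5] at h2
    exact Int.dvd_of_mul_dvd_mul_left (by positivity) h2
  have h4 : (b i).val % (n + 1) = (b n).val := hb n i (hi ▸ Dvd.intro_left _ rfl)
  have h5 : b n = (((b i).val : ℤ) : ZMod (n + 1)) := by
    rw [← ZMod.natCast_zmod_val (b n), ← h4]
    push_cast
    rw [ZMod.natCast_mod]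
  rw [h5, ZMod.intCast_eq_intCast_iff_dvd_sub]
  exact h3

/-- a homomorphism to the integers which is onto modulo all `m` is onto -/
theorem regm_surj {Λ : Type} [Group Λ] (n' : Λ →* Multiplicative ℤ)
    (h : ∀ (m : ℕ) [NeZero m], ∃ l, (m : ℤ) ∣ Multiplicative.toAdd (n' l) - 1) :
    Function.Surjective n' := by
  let A : AddSubgroup ℤ :=
    { carrier := {k | ∃ l, n' l = Multiplicative.ofAdd k}
      zero_mem' := ⟨1, map_one n'⟩
      add_mem' := by
        rintro a b ⟨x, hx⟩ ⟨y, hy⟩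
        exact ⟨x * y, by rw [map_mul, hx, hy]; rfl⟩
      neg_mem' := by
        rintro a ⟨x, hx⟩
        exact ⟨x⁻¹, by rw [map_inv, hx]; rfl⟩ }
  have hA : ∀ l, Multiplicative.toAdd (n' l) ∈ A := fun l => ⟨l, rfl⟩
  obtain ⟨s, hs⟩ := Int.subgroup_cyclic A
  rw [← AddSubgroup.zmultiples_eq_closure] at hs
  have hs1 : s ∣ 1 := by
    by_cases h0 : s = 0
    · obtain ⟨l, hl⟩ := h 2
      have h1 := hA l
      rw [hs, h0, Int.mem_zmultiples_iff, zero_dvd_iff] at h1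
      rw [h1] at hl
      norm_num at hl
    · have : NeZero s.natAbs := ⟨by omega⟩
      obtain ⟨l, hl⟩ := h s.natAbs
      have h1 := hA l
      rw [hs, Int.mem_zmultiples_iff] at h1
      have h2 : s ∣ Multiplicative.toAdd (n' l) - 1 := Int.natAbs_dvd.1 hl
      have h3 := dvd_sub h1 h2
      rwa [sub_sub_cancel] at h3
  intro y
  have h1 : Multiplicative.toAdd y ∈ A := by
    rw [hs, Int.mem_zmultiples_iff]
    exact hs1.trans (one_dvd _)
  obtain ⟨l, hl⟩ := h1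
  exact ⟨l, hl⟩

theorem p_regm (hr4 : R_r4) (hr5 : R_r5) : R_main := by
  intro ι _ α w i₀ D hD Λ _ _ Φ
  obtain ⟨r, hr⟩ := hr4 ι α w i₀ D hD Λ Φ
  obtain ⟨m, hm, hm2⟩ := hr5 ι α w i₀ D hD Λ Φ r hr
  have h1 : ∀ l : Λ, ∃ k : ℤ, Multiplicative.toAdd (nu Φ l) = cst k := by
    intro l
    obtain ⟨k, hk⟩ := hm2 l
    exact regm_div hm (regm_cmp Φ l) hk
  choose n hn using h1
  let n' : Λ →* Multiplicative ℤ := MonoidHom.mk' (fun l => Multiplicative.ofAdd (n l)) (by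
    intro x y
    show Multiplicative.ofAdd (n (x * y)) = Multiplicative.ofAdd (n x + n y)
    congr 1
    apply regm_cst_inj
    rw [map_add, ← hn, ← hn, ← hn, map_mul]
    rfl)
  have h2 : ∀ (m : ℕ) [NeZero m],
      Φ.toFun _ ((redZ m).comp (nD D)) = (redZ m).comp n' := by
    intro m hm0
    obtain ⟨m', rfl⟩ : ∃ m', m = m' + 1 := ⟨m - 1, by have := hm0.out; omega⟩
    ext l
    exact congrFun (hn l) m'
  refine ⟨n', ?_, h2⟩
  apply regm_surj
  intro m _
  have h3 : (redZ m).comp (nD D) ⟨tR α, hD.t⟩ ∈ ((redZ m).comp n').range := by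
    rw [← h2 m, NatBij.range_eq]
    exact ⟨_, rfl⟩
  obtain ⟨l, hl⟩ := h3
  refine ⟨l, ?_⟩
  have h4 : ((Multiplicative.toAdd (n' l) : ℤ) : ZMod m) = ((1 : ℤ) : ZMod m) := hl
  rw [eq_comm, ZMod.intCast_eq_intCast_iff_dvd_sub] at h4
  exact h4

end

end Pool.Agent.F8.CG
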