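import Pool.Agent.Lib.MP_305fdd_al.F8.CG.StmA

/-!
# CG rm2: regularity, general version
-/

set_option autoImplicit false

namespace Pool.Agent.F8.CG

open Pool.Agent.F8.BG Pool.Agent.Lib.MP_305fdd_al Pool.Agent.F8

private theorem rm2_emb {ι : Type} (α : MulAut (FreeGroup ι)) (k : ℕ) (f : FreeGroup ι) (j : ℤ) :
    emb α k (iR (α ^ k) f * tR (α ^ k) ^ j) = iR α f * tR α ^ ((k : ℤ) * j) := by
  rw [map_mul, map_zpow, emb_iR, emb_tR, ← zpow_natCast, ← zpow_mul]

private theorem rm2_nR {ι : Type} (α : MulAut (FreeGroup ι)) (k : ℕ) (g : GR (α ^ k)) :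
    nR α (emb α k g) = nR (α ^ k) g ^ k := by
  obtain ⟨f, j, rfl⟩ := GR_cases (α ^ k) g
  rw [rm2_emb, nR_eq, nR_eq, ← ofAdd_nsmul, nsmul_eq_mul]

private theorem rm2_inj {ι : Type} (α : MulAut (FreeGroup ι)) (k : ℕ) (hk : 1 ≤ k) :
    Function.Injective (emb α k) := by
  rw [injective_iff_map_eq_one]
  intro g hg
  obtain ⟨f, j, rfl⟩ := GR_cases (α ^ k) g
  rw [rm2_emb] at hg
  have h1 : nR α (iR α f * tR α ^ ((k : ℤ) * j)) = 1 := by rw [hg, map_one]
  rw [nR_eq] at h1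
  have h2 : (k : ℤ) * j = 0 := Multiplicative.ofAdd.injective h1
  have h3 : j = 0 := by
    rcases mul_eq_zero.1 h2 with h | h
    · exfalso
      have : (k : ℤ) ≠ 0 := by
        have : (1 : ℤ) ≤ k := by exact_mod_cast hk
        omega
      exact this h
    · exact h
  subst h3
  rw [mul_zero, zpow_zero, mul_one] at hg
  have h4 : f = 1 := iR_injective α (by rw [hg, map_one])
  rw [h4, map_one, zpow_zero, mul_one]

private theorem rm2_surj {ι : Type} (α : MulAut (FreeGroup ι)) (k : ℕ) (g : GR α)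
    (hg : redZ k (nR α g) = 1) : ∃ g' : GR (α ^ k), emb α k g' = g := by
  obtain ⟨f, n, rfl⟩ := GR_cases α g
  rw [nR_eq, redZ_ofAdd] at hg
  have h1 : ((n : ℤ) : ZMod k) = 0 := Multiplicative.ofAdd.injective hg
  obtain ⟨j, hj⟩ := (ZMod.intCast_zmod_eq_zero_iff_dvd n k).1 h1
  exact ⟨iR (α ^ k) f * tR (α ^ k) ^ j, by rw [rm2_emb, hj]⟩

private theorem rm2_int (a b : Multiplicative ℤ) (h : ∀ (m : ℕ) [NeZero m], redZ m a = redZ m b) :
    a = b := by
  obtain ⟨x, rfl⟩ := Multiplicative.ofAdd.surjective a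
  obtain ⟨y, rfl⟩ := Multiplicative.ofAdd.surjective b
  have h1 := h ((x - y).natAbs + 1)
  rw [redZ_ofAdd, redZ_ofAdd] at h1
  have h2 : ((x : ℤ) : ZMod ((x - y).natAbs + 1)) = ((y : ℤ) : ZMod ((x - y).natAbs + 1)) :=
    Multiplicative.ofAdd.injective h1
  have h3 : ((x - y : ℤ) : ZMod ((x - y).natAbs + 1)) = 0 := by
    rw [Int.cast_sub, h2, sub_self]
  have h4 := (ZMod.intCast_zmod_eq_zero_iff_dvd _ _).1 h3
  have h5 : x - y = 0 := Int.eq_zero_of_abs_lt_dvd h4 (by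
    rw [Int.abs_eq_natAbs]
    push_cast
    omega)
  rw [sub_eq_zero.1 h5]

/-- reduction from `ℤ / (m k)` to `ℤ / m` -/
private def rm2_red (m k : ℕ) : Multiplicative (ZMod (m * k)) →* Multiplicative (ZMod m) :=
  AddMonoidHom.toMultiplicative (ZMod.castHom (Dvd.intro k rfl) (ZMod m)).toAddMonoidHom

private theorem rm2_red_redZ (m k : ℕ) (z : Multiplicative ℤ) :
    rm2_red m k (redZ (m * k) z) = redZ m z := by
  obtain ⟨x, rfl⟩ := Multiplicative.ofAdd.surjective z
  rw [redZ_ofAdd, redZ_ofAdd]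
  change Multiplicative.ofAdd (ZMod.castHom (Dvd.intro k rfl) (ZMod m) ((x : ℤ) : ZMod (m * k))) = _
  rw [map_intCast]

private theorem rm2_div (m k : ℕ) (hk : 1 ≤ k) [NeZero m] (x : Multiplicative (ZMod (m * k)))
    (a : Multiplicative ℤ) (h : x ^ k = redZ (m * k) (a ^ k)) : rm2_red m k x = redZ m a := by
  haveI : NeZero k := ⟨by omega⟩
  haveI : NeZero (m * k) := ⟨mul_ne_zero (NeZero.ne m) (NeZero.ne k)⟩
  obtain ⟨y, rfl⟩ := Multiplicative.ofAdd.surjective x
  obtain ⟨b, rfl⟩ := Multiplicative.ofAdd.surjective a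
  obtain ⟨z, rfl⟩ := ZMod.intCast_surjective y
  have h0 : Multiplicative.ofAdd ((z : ℤ) : ZMod (m * k)) =
      redZ (m * k) (Multiplicative.ofAdd z) := rfl
  rw [h0, rm2_red_redZ]
  rw [h0, ← map_pow, ← ofAdd_nsmul, ← ofAdd_nsmul, redZ_ofAdd, redZ_ofAdd] at h
  have h1 := Multiplicative.ofAdd.injective h
  rw [nsmul_eq_mul, nsmul_eq_mul] at h1
  have h2 : (((k : ℤ) * z - (k : ℤ) * b : ℤ) : ZMod (m * k)) = 0 := by
    rw [Int.cast_sub, h1, sub_self]
  have h3 := (ZMod.intCast_zmod_eq_zero_iff_dvd _ _).1 h2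
  have h4 : (m : ℤ) ∣ z - b := by
    obtain ⟨c, hc⟩ := h3
    refine ⟨c, ?_⟩
    have hk0 : (k : ℤ) ≠ 0 := by
      have : (1 : ℤ) ≤ k := by exact_mod_cast hk
      omega
    apply mul_left_cancel₀ hk0
    rw [mul_sub, hc]
    push_cast
    ring
  rw [redZ_ofAdd, redZ_ofAdd]
  congr 1
  rw [← sub_eq_zero, ← Int.cast_sub]
  exact (ZMod.intCast_zmod_eq_zero_iff_dvd _ _).2 h4

theorem p_rm2 (hmain : R_main) (hppow : A_ppow) : A_rm2 := by
  intro ι _ α w i₀ hpos hhd D hD Λ _ _ Φ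
  obtain ⟨k, hk1, -, hk2⟩ := Subgroup.exists_pow_mem_of_index_ne_zero hD.index_ne_zero (tR α)
  have hk : 1 ≤ k := hk1
  have hk0 : NeZero k := ⟨by omega⟩
  have hfin : ∀ (m : ℕ) [NeZero m], Finite (Multiplicative (ZMod m)) :=
    fun m _ => inferInstanceAs (Finite (ZMod m))
  obtain ⟨hpos', hhd'⟩ := hppow ι α w i₀ hpos hhd k hk
  -- the subgroup of the smaller group
  let D' : Subgroup (GR (α ^ k)) := D.comap (emb α k)
  have hD' : D'.FiniteIndex := by
    refine ⟨?_⟩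
    rw [show D'.index = D.relIndex (emb α k).range from Subgroup.index_comap D (emb α k)]
    exact (Subgroup.isFiniteRelIndex_of_finiteIndex (h := hD)).relIndex_ne_zero
  have ht' : tR (α ^ k) ∈ D' := by
    show emb α k (tR (α ^ k)) ∈ D
    rw [emb_tR]
    exact hk2
  have hstg : Stg (α ^ k) (itw w k) i₀ D' := ⟨hpos', hhd', hD', ht'⟩
  -- the kernel of `n` modulo `k`
  have hfk := hfin k
  let π : D →* Multiplicative (ZMod k) := (redZ k).comp (nD D)
  let π' : Λ →* Multiplicative (ZMod k) := Φ.toFun _ π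
  obtain ⟨Ψ, hΨ⟩ := natBij_ker Φ (π := π) (π' := π') rfl
  have hE1 : ∀ x : D', (⟨emb α k (x : GR (α ^ k)), x.2⟩ : D) ∈ π.ker := by
    intro x
    show redZ k (nR α (emb α k x)) = 1
    rw [rm2_nR]
    exact redZ_pow_self k _
  let E0 : D' →* D := ((emb α k).comp D'.subtype).codRestrict D (fun x => x.2)
  let E1 : D' →* π.ker := E0.codRestrict π.ker (fun x => hE1 x)
  have hE : Function.Bijective E1 := by
    constructor
    · intro x y hxy
      have h1 : emb α k (x : GR (α ^ k)) = emb α k y :=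
        congrArg Subtype.val (congrArg Subtype.val hxy)
      exact Subtype.ext (rm2_inj α k hk h1)
    · intro y
      obtain ⟨g, hg⟩ := rm2_surj α k ((y : D) : GR α) y.2
      refine ⟨⟨g, ?_⟩, ?_⟩
      · show emb α k g ∈ D
        rw [hg]
        exact (y : D).2
      · exact Subtype.ext (Subtype.ext hg)
  let e : D' ≃* π.ker := MulEquiv.ofBijective E1 hE
  have hfi : π'.ker.FiniteIndex := Subgroup.finiteIndex_ker π'
  have hfg : Group.FG π'.ker := Subgroup.fg_of_index_ne_zero π'.ker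
  obtain ⟨n₀, -, hn₀⟩ := hmain ι (α ^ k) (itw w k) i₀ D' hstg π'.ker (natBij_equiv e Ψ)
  -- the values on the kernel
  have hker : ∀ (m : ℕ) [NeZero m] (l : π'.ker),
      Φ.toFun _ ((redZ m).comp (nD D)) (l : Λ) = redZ m (n₀ l ^ k) := by
    intro m _ l
    have hfm := hfin m
    have h1 := hΨ (Multiplicative (ZMod m)) ((redZ m).comp (nD D))
    have h2 := (natBij_equiv e Ψ).nat (powMonoidHom k : Multiplicative (ZMod m) →* _)
      ((redZ m).comp (nD D'))
    rw [hn₀ m] at h2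
    have h3 : (natBij_equiv e Ψ).toFun (Multiplicative (ZMod m))
        ((powMonoidHom k : Multiplicative (ZMod m) →* _).comp ((redZ m).comp (nD D'))) =
        Ψ.toFun _ (((redZ m).comp (nD D)).comp π.ker.subtype) := by
      show Ψ.toFun _ (((powMonoidHom k : Multiplicative (ZMod m) →* _).comp
        ((redZ m).comp (nD D'))).comp e.symm.toMonoidHom) = _
      congr 1
      ext y
      obtain ⟨x, rfl⟩ := e.surjective y
      have h4 : e.symm (e x) = x := e.symm_apply_apply x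
      show (redZ m (nR (α ^ k) ((e.symm (e x) : D') : GR (α ^ k)))) ^ k =
        redZ m (nR α (emb α k (x : GR (α ^ k))))
      rw [h4, rm2_nR]
      exact (map_pow (redZ m) _ k).symm
    rw [h3, h1] at h2
    have h5 := DFunLike.congr_fun h2 l
    rw [map_pow]
    exact h5
  -- the values in general
  have hpk : ∀ l : Λ, l ^ k ∈ π'.ker := by
    intro l
    rw [MonoidHom.mem_ker, map_pow]
    obtain ⟨y, hy⟩ := Multiplicative.ofAdd.surjective (π' l)
    rw [← hy, ← ofAdd_nsmul, nsmul_eq_mul, CharP.cast_eq_zero, zero_mul]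
    rfl
  have hval : ∀ (m : ℕ) [NeZero m] (l : Λ),
      Φ.toFun _ ((redZ m).comp (nD D)) l = redZ m (n₀ ⟨l ^ k, hpk l⟩) := by
    intro m _ l
    have hmk : NeZero (m * k) := ⟨mul_ne_zero (NeZero.ne m) (NeZero.ne k)⟩
    have hfm := hfin m
    have hfmk := hfin (m * k)
    have h1 := hker (m * k) ⟨l ^ k, hpk l⟩
    have h2 : (Φ.toFun _ ((redZ (m * k)).comp (nD D)) l) ^ k =
        redZ (m * k) (n₀ ⟨l ^ k, hpk l⟩ ^ k) := by
      rw [← map_pow]
      exact h1
    have h3 := rm2_div m k hk _ _ h2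
    rw [← h3]
    have h4 := Φ.nat (rm2_red m k) ((redZ (m * k)).comp (nD D))
    have h5 : (rm2_red m k).comp ((redZ (m * k)).comp (nD D)) = (redZ m).comp (nD D) := by
      ext x
      exact rm2_red_redZ m k _
    rw [h5] at h4
    rw [h4]
    rfl
  refine ⟨MonoidHom.mk' (fun l => n₀ ⟨l ^ k, hpk l⟩) ?_, ?_⟩
  · intro l l'
    refine rm2_int _ _ ?_
    intro m _
    have hfm := hfin m
    rw [map_mul, ← hval m, ← hval m, ← hval m, map_mul]
  · intro m _
    have hfm := hfin m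
    ext l
    exact hval m l

end Pool.Agent.F8.CG
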