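import Pool.Agent.Lib.MP_305fdd_al.F8.CG.StmR

/-!
# MP_305fdd_al, congruence subgroups: comparison of the crossed homomorphisms modulo `τ ^ N - 1`
-/

set_option autoImplicit false

namespace Pool.Agent.F8.CG

open Pool.Agent.F8.BG Pool.Agent.Lib.MP_305fdd_al Pool.Agent.F8

noncomputable section

/-! ### The finite ring -/

section Core

variable {G Λ : Type} [Group G] [Group Λ] {R : Type} [CommRing R]

/-- the homomorphism to the affine group -/
def star_th (κ : G →* Rˣ) (zR : G → R) (hz : ∀ g h, zR (g * h) = zR g + (κ g : R) * zR h) :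
    G →* Q2 R where
  toFun g := ⟨κ g, 1, ![zR g, 0]⟩
  map_one' := by
    have h1 := hz 1 1
    rw [mul_one, map_one, Units.val_one, one_mul] at h1
    have h2 : zR 1 = 0 := by
      have h3 : zR 1 + 0 = zR 1 + zR 1 := by rw [add_zero]; exact h1
      exact (add_left_cancel h3).symm
    apply Q2.ext
    · exact map_one κ
    · rfl
    · ext i
      fin_cases i
      · exact h2
      · rfl
  map_mul' g h := by
    apply Q2.ext
    · exact map_mul κ g h
    · show (1 : SL2 R) = 1 * 1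
      rw [mul_one]
    · show ![zR (g * h), 0] = ![zR g, 0] + (κ g : R) • (1 : SL2 R).val.mulVec ![zR h, 0]
      have h1 : (1 : SL2 R).val = 1 := rfl
      rw [h1, Matrix.one_mulVec]
      ext i
      fin_cases i
      · simpa using hz g h
      · simp

theorem star_core (Φ : NatBij G Λ) (ν : Λ →* Multiplicative Zh) (μ : Zh →₀ ℤ) (hμ : Ann ν μ)
    [Finite R] (κ : G →* Rˣ) (zR : G → R) (hz : ∀ g h, zR (g * h) = zR g + (κ g : R) * zR h)
    (ψ : Zh → Rˣ) (hψ : ∀ l, Φ.toFun _ κ l = ψ (Multiplicative.toAdd (ν l))) (g h : G) :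
    ∑ b ∈ μ.support, (μ b : R) * (ψ b : R) * zR (g * h * g⁻¹ * h⁻¹) = 0 := by
  classical
  set Θ : G →* Q2 R := star_th κ zR hz with hΘ
  set Θ' : Λ →* Q2 R := Φ.toFun _ Θ with hΘ'
  have hex : ∀ l, ∃ g, Θ g = Θ' l := by
    intro l
    have h1 : Θ' l ∈ Θ.range := by
      rw [← Φ.range_eq]
      exact ⟨l, rfl⟩
    exact h1
  have hex' : ∀ g, ∃ l, Θ' l = Θ g := by
    intro g
    have h1 : Θ g ∈ (Φ.toFun _ Θ).range := by
      rw [Φ.range_eq]
      exact ⟨g, rfl⟩
    exact h1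
  have ht : ∀ l, (Θ' l).t = ψ (Multiplicative.toAdd (ν l)) := by
    intro l
    rw [← hψ]
    have h1 : κ = Q2.tH.comp Θ := by
      ext g
      rfl
    rw [h1, Φ.nat]
    rfl
  have hm : ∀ l, (Θ' l).m = 1 := by
    intro l
    obtain ⟨g, hg⟩ := hex l
    rw [← hg]
    rfl
  have ht1 : ∀ l, ν l = 1 → (Θ' l).t = 1 := by
    intro l hl
    have h1 := ht 1
    rw [map_one, map_one] at h1
    rw [ht, hl, ← h1]
    rfl
  have hmul : ∀ l l', (Θ' (l * l')).v 0 = (Θ' l).v 0 + ((Θ' l).t : R) * (Θ' l').v 0 := by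
    intro l l'
    rw [map_mul, Q2.mul_v, hm]
    have h1 : (1 : SL2 R).val = 1 := rfl
    rw [h1, Matrix.one_mulVec]
    rfl
  let f : ν.ker →* Multiplicative R :=
    { toFun := fun x => Multiplicative.ofAdd ((Θ' x).v 0)
      map_one' := by
        show Multiplicative.ofAdd ((Θ' ((1 : ν.ker) : Λ)).v 0) = 1
        rw [OneMemClass.coe_one, map_one]
        rfl
      map_mul' := by
        intro x y
        show Multiplicative.ofAdd ((Θ' ((x * y : ν.ker) : Λ)).v 0) = _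
        rw [Subgroup.coe_mul, hmul, ht1 _ x.2, Units.val_one, one_mul]
        rfl }
  have hf : ∀ x : ν.ker, f x = Multiplicative.ofAdd ((Θ' x).v 0) := fun _ => rfl
  have hconj : ∀ (y : Λ) (x : Λ), ν x = 1 → (Θ' (y * x * y⁻¹)).v 0 =
      ((Θ' y).t : R) * (Θ' x).v 0 := by
    intro y x hx
    have h1 := hmul (y * x * y⁻¹) y
    rw [inv_mul_cancel_right, hmul y x] at h1
    have h2 : (Θ' (y * x * y⁻¹)).t = 1 := by
      apply ht1
      rw [map_mul, map_mul, hx, map_inv, mul_one, mul_inv_cancel]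
    rw [h2, Units.val_one, one_mul, add_comm] at h1
    exact (add_right_cancel h1).symm
  obtain ⟨l₁, hl₁⟩ := hex' g
  obtain ⟨l₂, hl₂⟩ := hex' h
  have hx : l₁ * l₂ * l₁⁻¹ * l₂⁻¹ ∈ ν.ker := by
    rw [MonoidHom.mem_ker, map_mul, map_mul, map_mul, map_inv, map_inv]
    rw [mul_comm (ν l₁) (ν l₂), mul_inv_cancel_right, mul_inv_cancel]
  have hxv : (Θ' (l₁ * l₂ * l₁⁻¹ * l₂⁻¹)).v 0 = zR (g * h * g⁻¹ * h⁻¹) := by
    have h1 : Θ' (l₁ * l₂ * l₁⁻¹ * l₂⁻¹) = Θ (g * h * g⁻¹ * h⁻¹) := by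
      rw [map_mul, map_mul, map_mul, map_inv, map_inv, hl₁, hl₂, map_mul, map_mul, map_mul,
        map_inv, map_inv]
    rw [h1]
    rfl
  choose y hy using hμ.sup
  rcases hμ.ann (Multiplicative R) f (fun b => if hb : b ∈ μ.support then y b hb else 1)
    ⟨_, hx⟩ with h1 | ⟨b, hb, h1⟩
  · have h2 := congrArg Multiplicative.toAdd h1
    rw [toAdd_prod, toAdd_one] at h2
    rw [← h2]
    refine Finset.sum_congr rfl fun b hb => ?_
    rw [toAdd_zpow, hf, toAdd_ofAdd]
    simp only [dif_pos hb]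
    rw [hconj _ _ hx, hxv, ht, hy b hb, toAdd_ofAdd, zsmul_eq_mul, mul_assoc]
  · exfalso
    apply h1
    simp only [dif_pos hb]
    exact hy b hb

end Core

/-! ### Finite generation -/

theorem star_fg {ι : Type} [Finite ι] (α : MulAut (FreeGroup ι)) : Group.FG (GR α) := by
  rw [Group.fg_iff]
  refine ⟨insert (tR α) (Set.range fun i => iR α (FreeGroup.of i)), ?_,
    (Set.finite_range _).insert _⟩
  rw [eq_top_iff]
  rintro x -
  obtain ⟨w, n, rfl⟩ := GR_cases α x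
  have hw : iR α w ∈ Subgroup.closure (insert (tR α) (Set.range fun i => iR α (FreeGroup.of i))) := by
    have hle : (⊤ : Subgroup (FreeGroup ι)) ≤ (Subgroup.closure
        (insert (tR α) (Set.range fun i => iR α (FreeGroup.of i)))).comap (iR α) := by
      rw [← FreeGroup.closure_range_of, Subgroup.closure_le]
      rintro _ ⟨i, rfl⟩
      exact Subgroup.subset_closure (Set.mem_insert_of_mem _ ⟨i, rfl⟩)
    exact hle (Subgroup.mem_top w)
  exact mul_mem hw (zpow_mem (Subgroup.subset_closure (Set.mem_insert _ _)) _)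

/-! ### Roots of unity -/

theorem star_eY_zero (n : ℕ) [NeZero n] : eY n 0 = 1 := by
  unfold eY
  rw [AddChar.map_zero_eq_one, Circle.coe_one]

theorem star_eY_add (n : ℕ) [NeZero n] (x y : ZMod n) : eY n (x + y) = eY n x * eY n y := by
  unfold eY
  rw [AddChar.map_add_eq_mul, Circle.coe_mul]

theorem star_eY_pow (n : ℕ) [NeZero n] (x : ZMod n) : eY n x ^ n = 1 := by
  unfold eY
  rw [← Circle.coe_pow, ← AddChar.map_nsmul_eq_pow, nsmul_eq_mul, ZMod.natCast_self, zero_mul,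
    AddChar.map_zero_eq_one, Circle.coe_one]

theorem star_eY_int (n : ℕ) [NeZero n] (x : ZMod n) : IsIntegral ℤ (eY n x) := by
  apply IsIntegral.of_pow (Nat.pos_of_ne_zero (NeZero.ne n))
  rw [star_eY_pow]
  exact isIntegral_one

theorem star_eX {G : Type} [Group G] (n : ℕ) [NeZero n] (X : G →* Multiplicative (ZMod n)) (g : G) :
    ((eX n X g : ℂˣ) : ℂ) = eY n (Multiplicative.toAdd (X g)) := rfl

theorem star_zpow_mod {M : Type} [Group M] (x : M) (N : ℕ) [NeZero N] (h : x ^ N = 1) (k : ℤ) :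
    x ^ ((k : ZMod N).val) = x ^ k := by
  have h1 : (((k : ZMod N).val : ℕ) : ℤ) = k % N := ZMod.val_intCast k
  rw [← zpow_natCast, h1]
  have h2 : x ^ k = x ^ (k % N + N * (k / N)) := by rw [Int.emod_add_mul_ediv]
  rw [h2, zpow_add, zpow_mul, zpow_natCast, h, one_zpow, mul_one]

/-! ### The theorem -/

theorem p_star : R_star := by
  intro ι _ α D hD ht Λ _ _ Φ μ hμ n _ X Y hM τ hτ hτ' hne z hz h hh m
  classical
  have hfg1 : Group.FG (GR α) := star_fg α
  have hfg : Group.FG D := Subgroup.fg_of_index_ne_zero _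
  obtain ⟨S₀, hS₀, hS₀f⟩ := Group.fg_iff.1 hfg
  set S : Set ℂ := {(τ : ℂ), ((τ⁻¹ : ℂˣ) : ℂ)} ∪ (Set.range (eY n) ∪ z '' S₀) with hS
  have hSf : S.Finite := by
    have h1 : (Set.range (eY n)).Finite := Set.finite_range _
    exact ((Set.finite_singleton _).insert _).union (h1.union (hS₀f.image _))
  have hSi : ∀ x ∈ S, IsIntegral ℤ x := by
    rintro x ((rfl | hx) | (⟨y, rfl⟩ | ⟨g, -, rfl⟩))
    · exact hτ
    · rw [Set.mem_singleton_iff.1 hx]
      exact hτ'
    · exact star_eY_int n y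
    · exact hz.int g
  set O : Subalgebra ℤ ℂ := Algebra.adjoin ℤ S with hO
  have hfin : Module.Finite ℤ O := Algebra.finite_adjoin_of_finite_of_isIntegral hSf hSi
  have hSO : S ⊆ O := Algebra.subset_adjoin
  have hτO : (τ : ℂ) ∈ O := hSO (Or.inl (Or.inl rfl))
  have hτO' : ((τ⁻¹ : ℂˣ) : ℂ) ∈ O := hSO (Or.inl (Or.inr rfl))
  have heO : ∀ x, eY n x ∈ O := fun x => hSO (Or.inr (Or.inl ⟨x, rfl⟩))
  have hτz : ∀ k : ℤ, ((τ ^ k : ℂˣ) : ℂ) ∈ O := by
    intro k
    obtain ⟨j, rfl | rfl⟩ := k.eq_nat_or_neg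
    · rw [zpow_natCast, Units.val_pow_eq_pow_val]
      exact pow_mem hτO j
    · rw [zpow_neg, zpow_natCast, ← inv_pow, Units.val_pow_eq_pow_val]
      exact pow_mem hτO' j
  have hκO : ∀ g : D, (eX n X g : ℂ) *
      (τ ^ (Multiplicative.toAdd (nD D g)) : ℂˣ) ∈ O := by
    intro g
    rw [star_eX]
    exact mul_mem (heO _) (hτz _)
  have hz1 : z 1 = 0 := by
    have h1 := hz.mul 1 1
    rw [mul_one, map_one, map_one, toAdd_one, zpow_zero, Units.val_one, one_mul, one_mul] at h1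
    have h3 : z 1 + 0 = z 1 + z 1 := by rw [add_zero]; exact h1
    exact (add_left_cancel h3).symm
  have hzO : ∀ g : D, z g ∈ O := by
    intro g
    have hg : g ∈ Subgroup.closure S₀ := by
      rw [hS₀]
      exact Subgroup.mem_top g
    induction hg using Subgroup.closure_induction with
    | mem x hx => exact hSO (Or.inr (Or.inr ⟨x, hx, rfl⟩))
    | one =>
      rw [hz1]
      exact zero_mem _
    | mul x y _ _ hx hy =>
      rw [hz.mul]
      exact add_mem hx (mul_mem (hκO x) hy)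
    | inv x _ hx =>
      have h1 := hz.mul x⁻¹ x
      rw [inv_mul_cancel, hz1] at h1
      have h2 : z x⁻¹ = -((eX n X x⁻¹ : ℂ) *
          (τ ^ (Multiplicative.toAdd (nD D x⁻¹)) : ℂˣ) * z x) :=
        eq_neg_of_add_eq_zero_left h1.symm
      rw [h2]
      exact neg_mem (mul_mem (hκO _) hx)
  -- the finite ring
  let tO : O := ⟨τ, hτO⟩
  let I : Ideal O := Ideal.span {tO ^ (m + 1) - 1}
  have hI : I ≠ ⊥ := by
    intro h1
    rw [Ideal.span_singleton_eq_bot] at h1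
    have h2 := congrArg (Subtype.val : O → ℂ) h1
    apply hne (m + 1) (Nat.succ_le_succ (Nat.zero_le m))
    apply Units.ext
    rw [Units.val_pow_eq_pow_val, Units.val_one]
    exact sub_eq_zero.1 h2
  have hfree : Module.Free ℤ O := inferInstance
  have hRf : Finite (O ⧸ I) := Ideal.finiteQuotientOfFreeOfNeBot I hI
  let q : O →+* O ⧸ I := Ideal.Quotient.mk I
  -- the homomorphisms
  let κO : D →* O :=
    { toFun := fun g => ⟨(eX n X g : ℂ) * (τ ^ (Multiplicative.toAdd (nD D g)) : ℂˣ), hκO g⟩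
      map_one' := by
        apply Subtype.ext
        show (eX n X 1 : ℂ) * (τ ^ (Multiplicative.toAdd (nD D 1)) : ℂˣ) = 1
        rw [map_one, map_one, toAdd_one, zpow_zero, Units.val_one, one_mul]
      map_mul' := by
        intro g g'
        apply Subtype.ext
        show (eX n X (g * g') : ℂ) * (τ ^ (Multiplicative.toAdd (nD D (g * g'))) : ℂˣ) =
          ((eX n X g : ℂ) * (τ ^ (Multiplicative.toAdd (nD D g)) : ℂˣ)) *
          ((eX n X g' : ℂ) * (τ ^ (Multiplicative.toAdd (nD D g')) : ℂˣ))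
        rw [map_mul, map_mul, toAdd_mul, zpow_add, Units.val_mul, Units.val_mul]
        ring }
  let κ : D →* (O ⧸ I)ˣ := MonoidHom.toHomUnits ((q : O →* O ⧸ I).comp κO)
  have hκ : ∀ g, (κ g : O ⧸ I) = q (κO g) := fun _ => rfl
  let ρ₁ : Multiplicative (ZMod n) →* (O ⧸ I)ˣ := MonoidHom.toHomUnits
    ((q : O →* O ⧸ I).comp
      { toFun := fun x => ⟨eY n (Multiplicative.toAdd x), heO _⟩
        map_one' := Subtype.ext (star_eY_zero n)
        map_mul' := fun x y => Subtype.ext (star_eY_add n _ _) })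
  have hρ₁ : ∀ x : Multiplicative (ZMod n), (ρ₁ x : O ⧸ I) =
      q ⟨eY n (Multiplicative.toAdd x), heO _⟩ := fun _ => rfl
  let tO' : O := ⟨((τ⁻¹ : ℂˣ) : ℂ), hτO'⟩
  have htt : tO * tO' = 1 := Subtype.ext (Units.mul_inv τ)
  let tR' : (O ⧸ I)ˣ := ⟨q tO, q tO', by rw [← map_mul, htt, map_one],
    by rw [← map_mul, mul_comm, htt, map_one]⟩
  have htN : tR' ^ (m + 1) = 1 := by
    apply Units.ext
    rw [Units.val_pow_eq_pow_val, Units.val_one]
    show q tO ^ (m + 1) = 1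
    have h1 : q (tO ^ (m + 1) - 1) = 0 :=
      Ideal.Quotient.eq_zero_iff_mem.2 (Ideal.mem_span_singleton_self _)
    rw [map_sub, map_pow, map_one] at h1
    exact sub_eq_zero.1 h1
  let ρ₂ : Multiplicative (ZMod (m + 1)) →* (O ⧸ I)ˣ :=
    { toFun := fun x => tR' ^ (Multiplicative.toAdd x).val
      map_one' := by
        show tR' ^ (0 : ZMod (m + 1)).val = 1
        rw [ZMod.val_zero, pow_zero]
      map_mul' := by
        intro x y
        show tR' ^ (Multiplicative.toAdd x + Multiplicative.toAdd y : ZMod (m + 1)).val = _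
        rw [ZMod.val_add, ← pow_eq_pow_mod _ htN, pow_add] }
  have hρ₂ : ∀ x, ρ₂ x = tR' ^ (Multiplicative.toAdd x).val := fun _ => rfl
  have htz : ∀ k : ℤ, ((tR' ^ k : (O ⧸ I)ˣ) : O ⧸ I) = q ⟨((τ ^ k : ℂˣ) : ℂ), hτz k⟩ := by
    intro k
    have h1 : ∀ j : ℕ, ((tR' ^ j : (O ⧸ I)ˣ) : O ⧸ I) = q (tO ^ j) := by
      intro j
      rw [Units.val_pow_eq_pow_val, map_pow]
    have h1' : ∀ j : ℕ, ((tR'⁻¹ ^ j : (O ⧸ I)ˣ) : O ⧸ I) = q (tO' ^ j) := by
      intro j
      rw [Units.val_pow_eq_pow_val, map_pow]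
      rfl
    obtain ⟨j, rfl | rfl⟩ := k.eq_nat_or_neg
    · rw [zpow_natCast, h1]
      congr 1
    · rw [zpow_neg, zpow_natCast, ← inv_pow, h1']
      congr 1
      apply Subtype.ext
      show ((τ⁻¹ : ℂˣ) : ℂ) ^ j = ((τ ^ (-(j : ℤ)) : ℂˣ) : ℂ)
      rw [← Units.val_pow_eq_pow_val, inv_pow, zpow_neg, zpow_natCast]
  let ρ : Multiplicative (ZMod n) × Multiplicative (ZMod (m + 1)) →* (O ⧸ I)ˣ :=
    { toFun := fun p => ρ₁ p.1 * ρ₂ p.2
      map_one' := by
        show ρ₁ 1 * ρ₂ 1 = 1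
        rw [map_one, map_one, mul_one]
      map_mul' := fun p p' => by
        show ρ₁ (p.1 * p'.1) * ρ₂ (p.2 * p'.2) = _
        rw [map_mul, map_mul]
        apply Units.ext
        simp only [Units.val_mul]
        ring }
  have hκρ : κ = ρ.comp (X.prod ((redZ (m + 1)).comp (nD D))) := by
    ext g
    rw [hκ]
    show q (κO g) = ((ρ₁ (X g) * ρ₂ (redZ (m + 1) (nD D g)) : (O ⧸ I)ˣ) : O ⧸ I)
    rw [Units.val_mul, hρ₁, hρ₂]
    have h1 : Multiplicative.toAdd (redZ (m + 1) (nD D g)) =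
        ((Multiplicative.toAdd (nD D g) : ℤ) : ZMod (m + 1)) := rfl
    rw [h1, star_zpow_mod tR' (m + 1) htN, htz, ← map_mul]
    rfl
  let zO : D → O := fun g => ⟨z g, hzO g⟩
  have key := star_core Φ (nu Φ) μ hμ κ (fun g => q (zO g))
    (by
      intro g g'
      show q (zO (g * g')) = q (zO g) + (κ g : O ⧸ I) * q (zO g')
      rw [hκ, ← map_mul, ← map_add]
      congr 1
      exact Subtype.ext (hz.mul g g'))
    (fun b => ρ₁ (Multiplicative.ofAdd (Y b)) * ρ₂ (Multiplicative.ofAdd (b m)))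
    (by
      intro l
      rw [hκρ, Φ.nat, pair_prod]
      show ρ₁ (Φ.toFun _ X l) * ρ₂ (Φ.toFun _ ((redZ (m + 1)).comp (nD D)) l) = _
      rw [hM l]
      rfl)
    h ⟨tR α, ht⟩
  have hc : z (h * ⟨tR α, ht⟩ * h⁻¹ * (⟨tR α, ht⟩ : D)⁻¹) =
      (1 - (eX n X ⟨tR α, ht⟩ : ℂ) * τ) * z h := by
    set t : D := ⟨tR α, ht⟩ with htt'
    set c : D := h * t * h⁻¹ * t⁻¹ with hc
    have h1 : c * (t * h) = h * t := by
      rw [hc]; group
    have hnt : Multiplicative.toAdd (nD D t) = 1 := rfl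
    have hzt : z t = 0 := hz.t ht
    have h2 := hz.mul c (t * h)
    have h3 := hz.mul t h
    have h4 := hz.mul h t
    rw [hzt, zero_add, hnt, zpow_one] at h3
    rw [hzt, mul_zero, add_zero] at h4
    have h5 : nD D c = 1 := by
      rw [hc, map_mul, map_mul, map_mul, map_inv, map_inv, hh, one_mul, inv_one, mul_one,
        mul_inv_cancel]
    have h6 : eX n X c = 1 := by
      rw [hc, map_mul, map_mul, map_mul, map_inv, map_inv, mul_comm (eX n X h) (eX n X t),
        mul_inv_cancel_right, mul_inv_cancel]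
    rw [h1, h4, h5, h6, toAdd_one, zpow_zero, Units.val_one, one_mul, one_mul, h3] at h2
    rw [sub_mul, one_mul]
    exact (sub_eq_of_eq_add h2).symm
  let w : O := ∑ b ∈ μ.support, (μ b : O) * ⟨eY n (Y b), heO _⟩ *
    zO (h * ⟨tR α, ht⟩ * h⁻¹ * (⟨tR α, ht⟩ : D)⁻¹) * tO ^ (b m).val
  have hw : q w = 0 := by
    rw [← key]
    show q (∑ b ∈ μ.support, _) = _
    rw [map_sum]
    refine Finset.sum_congr rfl fun b _ => ?_
    rw [map_mul, map_mul, map_mul, map_intCast, map_pow, Units.val_mul, hρ₁, hρ₂,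
      Units.val_pow_eq_pow_val]
    show _ * q ⟨eY n (Y b), heO _⟩ * _ * q tO ^ (b m).val = _ * (q ⟨eY n (Y b), heO _⟩ *
      q tO ^ (b m).val) * _
    ring
  obtain ⟨u, hu⟩ := Ideal.mem_span_singleton.1 (Ideal.Quotient.eq_zero_iff_mem.1 hw)
  have hOi : IsIntegral ℤ (u : ℂ) := by
    have h1 : IsIntegral ℤ u := IsIntegral.of_finite ℤ u
    exact h1.map O.val
  refine ⟨u, hOi, ?_⟩
  have h1 := congrArg (O.val : O → ℂ) hu
  have h2 : O.val w = ∑ b ∈ μ.support, (μ b : ℂ) * eY n (Y b) *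
      ((1 - (eX n X ⟨tR α, ht⟩ : ℂ) * τ) * z h) * (τ : ℂ) ^ (b m).val := by
    show O.val (∑ b ∈ μ.support, _) = _
    rw [map_sum]
    refine Finset.sum_congr rfl fun b _ => ?_
    rw [map_mul, map_mul, map_mul, map_intCast, map_pow]
    show _ * eY n (Y b) * z (h * ⟨tR α, ht⟩ * h⁻¹ * (⟨tR α, ht⟩ : D)⁻¹) * (τ : ℂ) ^ (b m).val = _
    rw [hc]
  rw [← h2, h1, map_mul, map_sub, map_pow, map_one]
  rfl

end

end Pool.Agent.F8.CG
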