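import Pool.Agent.Lib.MP_305fdd_al.F8.CG.StmR

/-!
# MP_305fdd_al, congruence subgroups, block R: the traces of the powers of `Uop`
-/

set_option autoImplicit false

namespace Pool.Agent.F8.CG

open Pool.Agent.F8.BG Pool.Agent.Lib.MP_305fdd_al Pool.Agent.F8

noncomputable section

section

variable {ι : Type} (α : MulAut (FreeGroup ι)) (w : ι → List ι) (D : Subgroup (GR α))

/-- the element of a position -/
def tr_g (l : ℕ) (i : ι) (p : ℕ) : GR α :=
  (tR α ^ l)⁻¹ * iR α (BG.pw ((itw w l i).take p))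

/-- the element of `D` of a triple -/
def tr_d (l : ℕ) (i : ι) (x : GR α ⧸ D) (p : ℕ) : D := ⟨_, sec_mem D (tr_g α w l i p) x⟩

/-- the condition on a triple -/
def tr_P (l : ℕ) (i : ι) (x : GR α ⧸ D) (p : Fin (itw w l i).length) : Prop :=
  (itw w l i).get p = i ∧ (tr_g α w l i p)⁻¹ • x = x

open Classical in
theorem tr_trace [Fintype ι] [Fintype (GR α ⧸ D)] (hpU : R_pU)
    (hw : ∀ i, α (FreeGroup.of i) = BG.pw (w i)) (χ : D →* ℂˣ) (l : ℕ) :
    LinearMap.trace ℂ _ (Uop α w D (chE χ) ^ l) =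
      ∑ i, ∑ x : GR α ⧸ D, ∑ p : Fin (itw w l i).length,
        if tr_P α w D l i x p then (χ (tr_d α w D l i x p) : ℂ) else 0 := by
  rw [LinearMap.trace_eq_matrix_trace ℂ (Pi.basis (fun _ : ι => Pi.basisFun ℂ (GR α ⧸ D)))]
  rw [Matrix.trace, Fintype.sum_sigma]
  refine Finset.sum_congr rfl fun i _ => Finset.sum_congr rfl fun x _ => ?_
  rw [Matrix.diag_apply, LinearMap.toMatrix_apply, Pi.basis_repr, Pi.basis_apply,
    Pi.basisFun_repr, hpU ι α w hw D ℂ ℂ (chE χ) l _ i, Finset.sum_apply]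
  refine Finset.sum_congr rfl fun p _ => ?_
  rw [indA_apply, Pi.basisFun_apply]
  by_cases h1 : (itw w l i).get p = i
  · rw [h1, Pi.single_eq_same]
    by_cases h2 : (tr_g α w l i p)⁻¹ • x = x
    · rw [if_pos (show tr_P α w D l i x p from ⟨h1, h2⟩)]
      have h3 : (Pi.single x (1 : ℂ) : (GR α ⧸ D) → ℂ)
          (((tR α ^ l)⁻¹ * iR α (BG.pw ((itw w l i).take p)))⁻¹ • x) = 1 := by
        rw [show ((tR α ^ l)⁻¹ * iR α (BG.pw ((itw w l i).take p)))⁻¹ • x = x from h2,
          Pi.single_eq_same]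
      rw [h3]
      show (χ _ : ℂ) • (1 : ℂ) = _
      rw [smul_eq_mul, mul_one]
      rfl
    · rw [if_neg (fun h : tr_P α w D l i x p => h2 h.2)]
      have h3 : (Pi.single x (1 : ℂ) : (GR α ⧸ D) → ℂ)
          (((tR α ^ l)⁻¹ * iR α (BG.pw ((itw w l i).take p)))⁻¹ • x) = 0 :=
        Pi.single_eq_of_ne h2 _
      rw [h3, map_zero]
  · rw [if_neg (fun h : tr_P α w D l i x p => h1 h.1), Pi.single_eq_of_ne h1, Pi.zero_apply,
      map_zero]

open Classical in
theorem tr_inj [Fintype ι] [Fintype (GR α ⧸ D)] (j : ι) (l : ℕ) (S : Finset D)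
    (hS : ∀ d ∈ S, (d : GR α) ∈ LpS α w D j l) (f : D → ℝ) (hf : ∀ d, 0 ≤ f d) :
    ∑ d ∈ S, f d ≤ ∑ i, ∑ x : GR α ⧸ D, ∑ p : Fin (itw w l i).length,
        if tr_P α w D l i x p then f (tr_d α w D l i x p) else 0 := by
  have h0 : ∀ (i : ι) (x : GR α ⧸ D) (p : Fin (itw w l i).length),
      0 ≤ (if tr_P α w D l i x p then f (tr_d α w D l i x p) else 0) := by
    intro i x p
    split_ifs
    · exact hf _
    · exact le_refl _
  have h1 : ∀ d ∈ S, ∃ p : Fin (itw w l j).length, tr_P α w D l j ((1 : GR α) : GR α ⧸ D) p ∧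
      tr_d α w D l j ((1 : GR α) : GR α ⧸ D) p = d := by
    intro d hd
    obtain ⟨hdD, u, v, huv, hdu⟩ := hS d hd
    have hlt : u.length < (itw w l j).length := by
      rw [huv]; simp
    have hg : tr_g α w l j u.length = d := by
      unfold tr_g
      rw [huv, List.take_left, hdu]
    refine ⟨⟨u.length, hlt⟩, ⟨?_, ?_⟩, ?_⟩
    · simp [huv]
    · show (tr_g α w l j u.length)⁻¹ • ((1 : GR α) : GR α ⧸ D) = ((1 : GR α) : GR α ⧸ D)
      rw [hg]
      show (((d : GR α)⁻¹ * 1 : GR α) : GR α ⧸ D) = ((1 : GR α) : GR α ⧸ D)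
      rw [mul_one]
      apply QuotientGroup.eq.2
      rw [inv_inv, mul_one]
      exact d.2
    · apply Subtype.ext
      show (sec D ((1 : GR α) : GR α ⧸ D))⁻¹ * (tr_g α w l j u.length) *
        sec D ((tr_g α w l j u.length)⁻¹ • ((1 : GR α) : GR α ⧸ D)) = d
      have h2 : (tr_g α w l j u.length)⁻¹ • ((1 : GR α) : GR α ⧸ D) =
          ((1 : GR α) : GR α ⧸ D) := by
        rw [hg]
        show (((d : GR α)⁻¹ * 1 : GR α) : GR α ⧸ D) = ((1 : GR α) : GR α ⧸ D)
        rw [mul_one]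
        apply QuotientGroup.eq.2
        rw [inv_inv, mul_one]
        exact d.2
      rw [h2, sec_one, hg, inv_one, one_mul, mul_one]
  rcases S.eq_empty_or_nonempty with he | ⟨d₀, hd₀⟩
  · rw [he, Finset.sum_empty]
    exact Finset.sum_nonneg fun i _ => Finset.sum_nonneg fun x _ => Finset.sum_nonneg fun p _ =>
      h0 i x p
  have hne : Nonempty (Fin (itw w l j).length) := ⟨(h1 d₀ hd₀).choose⟩
  choose! pf hP hd using h1
  have hinj : Set.InjOn pf (S : Set D) := by
    intro a ha b hb hab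
    rw [← hd a ha, ← hd b hb, hab]
  calc ∑ d ∈ S, f d = ∑ d ∈ S, (if tr_P α w D l j ((1 : GR α) : GR α ⧸ D) (pf d) then
        f (tr_d α w D l j ((1 : GR α) : GR α ⧸ D) (pf d)) else 0) := by
        refine Finset.sum_congr rfl fun d hdS => ?_
        rw [if_pos (hP d hdS), hd d hdS]
    _ = ∑ p ∈ S.image pf, (if tr_P α w D l j ((1 : GR α) : GR α ⧸ D) p then
        f (tr_d α w D l j ((1 : GR α) : GR α ⧸ D) p) else 0) := by
        rw [Finset.sum_image hinj]
    _ ≤ ∑ p, (if tr_P α w D l j ((1 : GR α) : GR α ⧸ D) p then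
        f (tr_d α w D l j ((1 : GR α) : GR α ⧸ D) p) else 0) :=
        Finset.sum_le_sum_of_subset_of_nonneg (Finset.subset_univ _) fun p _ _ => h0 _ _ p
    _ ≤ ∑ x : GR α ⧸ D, ∑ p : Fin (itw w l j).length,
        (if tr_P α w D l j x p then f (tr_d α w D l j x p) else 0) :=
        Finset.single_le_sum (f := fun x : GR α ⧸ D => ∑ p : Fin (itw w l j).length,
          (if tr_P α w D l j x p then f (tr_d α w D l j x p) else 0))
          (fun x _ => Finset.sum_nonneg fun p _ => h0 _ _ p) (Finset.mem_univ _)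
    _ ≤ _ := Finset.single_le_sum (f := fun i : ι => ∑ x : GR α ⧸ D,
          ∑ p : Fin (itw w l i).length,
          (if tr_P α w D l i x p then f (tr_d α w D l i x p) else 0))
          (fun i _ => Finset.sum_nonneg fun x _ => Finset.sum_nonneg fun p _ => h0 _ _ p)
          (Finset.mem_univ j)

end

/-- [CG tr] the traces. -/
theorem p_tr (hpU : R_pU) : R_tr := by
  classical
  intro ι _ α w i₀ D hD j χ hχ l S hS
  cases nonempty_fintype ι
  have hfin : D.FiniteIndex := hD.fin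
  have hfq : Finite (GR α ⧸ D) := inferInstance
  cases nonempty_fintype (GR α ⧸ D)
  have hw : ∀ i, α (FreeGroup.of i) = BG.pw (w i) := hD.pos.eq
  have hre : ∀ ψ : D →* ℂˣ, (LinearMap.trace ℂ _ (Uop α w D (chE ψ) ^ l)).re =
      ∑ i, ∑ x : GR α ⧸ D, ∑ p : Fin (itw w l i).length,
        if tr_P α w D l i x p then (ψ (tr_d α w D l i x p) : ℂ).re else 0 := by
    intro ψ
    rw [tr_trace α w D hpU hw ψ l, Complex.re_sum]
    refine Finset.sum_congr rfl fun i _ => ?_
    rw [Complex.re_sum]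
    refine Finset.sum_congr rfl fun x _ => ?_
    rw [Complex.re_sum]
    refine Finset.sum_congr rfl fun p _ => ?_
    split_ifs
    · rfl
    · rfl
  have h1 := hre 1
  have h2 := hre χ
  constructor
  · rw [h1]
    have h := tr_inj α w D j l S hS (fun _ => 1) (fun _ => zero_le_one)
    simpa using h
  · rw [h1, h2]
    have h := tr_inj α w D j l S hS (fun d => 1 - (χ d : ℂ).re) (fun d => by
      have h3 := Complex.re_le_norm (χ d : ℂ)
      rw [hχ d] at h3
      linarith)
    refine h.trans (le_of_eq ?_)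
    rw [← Finset.sum_sub_distrib]
    refine Finset.sum_congr rfl fun i _ => ?_
    rw [← Finset.sum_sub_distrib]
    refine Finset.sum_congr rfl fun x _ => ?_
    rw [← Finset.sum_sub_distrib]
    refine Finset.sum_congr rfl fun p _ => ?_
    split_ifs
    · simp
    · simp

end

end Pool.Agent.F8.CG
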