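import Pool.Agent.Lib.MP_305fdd_al.F8.CG.StmR

/-!
# MP_305fdd_al, congruence subgroups, [CG zet]: a character without crossed homomorphisms
-/

set_option autoImplicit false

namespace Pool.Agent.F8.CG

open Pool.Agent.F8.BG Pool.Agent.Lib.MP_305fdd_al Pool.Agent.F8 Polynomial

noncomputable section

/-- the kernel of the projection is finitely generated -/
theorem zet_fg {ι : Type} [Finite ι] (α : MulAut (FreeGroup ι)) (D : Subgroup (GR α))
    (hD : D.FiniteIndex) : Group.FG (nD D).ker := by
  have := hD
  have h1 : (D.comap (iR α)).FiniteIndex := ⟨by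
    rw [Subgroup.index_comap]
    exact (inferInstance : (D.subgroupOf (iR α).range).FiniteIndex).index_ne_zero⟩
  have h2 : Group.FG (D.comap (iR α)) := Subgroup.fg_of_index_ne_zero _
  let φ : D.comap (iR α) →* (nD D).ker :=
    { toFun := fun w => ⟨⟨iR α w.1, w.2⟩, nR_iR α w.1⟩
      map_one' := by
        apply Subtype.ext
        apply Subtype.ext
        exact map_one (iR α)
      map_mul' := fun a b => by
        apply Subtype.ext
        apply Subtype.ext
        exact map_mul (iR α) a.1 b.1 }
  refine Group.fg_of_surjective (f := φ) ?_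
  rintro ⟨⟨x, hx⟩, hxν⟩
  obtain ⟨w, rfl⟩ := GR_ker α x hxν
  exact ⟨⟨w, hx⟩, rfl⟩

/-- a unit modulo a large prime which is not a root -/
theorem zet_unit (P : ℤ[X]) (hP : P.Monic) : ∃ (q : ℕ) (_ : Fact q.Prime) (ζ : (ZMod q)ˣ),
    ζ ≠ 1 ∧ (P.map (Int.castRingHom (ZMod q))).eval (ζ : ZMod q) ≠ 0 := by
  obtain ⟨q, hq, hqp⟩ := Nat.exists_infinite_primes (P.natDegree + 4)
  have : Fact q.Prime := ⟨hqp⟩
  have : NeZero q := ⟨hqp.ne_zero⟩
  have hmon : (P.map (Int.castRingHom (ZMod q))).Monic := hP.map _
  by_contra hno
  have hall : ∀ x : ZMod q, x ≠ 0 → x ≠ 1 →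
      x ∈ (P.map (Int.castRingHom (ZMod q))).roots.toFinset := by
    intro x h0 h1
    rw [Multiset.mem_toFinset, Polynomial.mem_roots hmon.ne_zero]
    by_contra h2
    refine hno ⟨q, inferInstance, Units.mk0 x h0, ?_, ?_⟩
    · intro h3
      exact h1 (congrArg Units.val h3)
    · exact h2
  have hsub : (Finset.univ : Finset (ZMod q)) ⊆
      insert 0 (insert 1 (P.map (Int.castRingHom (ZMod q))).roots.toFinset) := by
    intro x _
    rw [Finset.mem_insert, Finset.mem_insert]
    by_cases h0 : x = 0
    · exact Or.inl h0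
    by_cases h1 : x = 1
    · exact Or.inr (Or.inl h1)
    exact Or.inr (Or.inr (hall x h0 h1))
  have hc := Finset.card_le_card hsub
  rw [Finset.card_univ, ZMod.card] at hc
  have h3 := Finset.card_insert_le (0 : ZMod q)
    (insert 1 (P.map (Int.castRingHom (ZMod q))).roots.toFinset)
  have h4 := Finset.card_insert_le (1 : ZMod q)
    (P.map (Int.castRingHom (ZMod q))).roots.toFinset
  have h5 := Multiset.toFinset_card_le (P.map (Int.castRingHom (ZMod q))).roots
  have h6 := Polynomial.card_roots' (P.map (Int.castRingHom (ZMod q)))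
  have h7 := Polynomial.natDegree_map_le (f := Int.castRingHom (ZMod q)) (p := P)
  omega

/-- a polynomial in an endomorphism with an eigenfunctional -/
theorem zet_aeval {A : Type} [AddCommGroup A] {q : ℕ} (T : Module.End ℤ A) (f : A →+ ZMod q)
    (c : ZMod q) (hf : ∀ a, f (T a) = c * f a) (P : ℤ[X]) (a : A) :
    f (aeval T P a) = (P.map (Int.castRingHom (ZMod q))).eval c * f a := by
  induction P using Polynomial.induction_on' with
  | add p r hp hr =>
    rw [map_add, LinearMap.add_apply, map_add, hp, hr, Polynomial.map_add, eval_add, add_mul]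
  | monomial n z =>
    have hn : ∀ (n : ℕ) (a : A), f ((T ^ n) a) = c ^ n * f a := by
      intro n
      induction n with
      | zero => intro a; simp
      | succ n ih =>
        intro a
        rw [pow_succ', Module.End.mul_apply, hf, ih, pow_succ']
        ring
    rw [aeval_monomial, Polynomial.map_monomial, eval_monomial]
    have h1 : ((algebraMap ℤ (Module.End ℤ A)) z * T ^ n) a = z • ((T ^ n) a) := by
      rw [Module.End.mul_apply]
      rfl
    rw [h1, map_zsmul, hn, zsmul_eq_mul]
    simp only [eq_intCast]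
    ring

/-- **[CG zet]** -/
theorem p_zet : R_zet := by
  intro ι _ α D hD ht
  have hfg : Group.FG (nD D).ker := zet_fg α D hD
  -- the abelianisation and the action of `t`
  have : Group.FG (Abelianization (nD D).ker) :=
    Group.fg_of_surjective (f := Abelianization.of) (QuotientGroup.mk'_surjective _)
  have : AddGroup.FG (Additive (Abelianization (nD D).ker)) := GroupFG.iff_add_fg.1 inferInstance
  have : Module.Finite ℤ (Additive (Abelianization (nD D).ker)) :=
    Module.Finite.iff_addGroup_fg.2 inferInstance
  let t : D := ⟨tR α, ht⟩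
  let T : Module.End ℤ (Additive (Abelianization (nD D).ker)) :=
    (MonoidHom.toAdditive (Abelianization.map
      ((MulAut.conjNormal t).toMonoidHom : (nD D).ker →* (nD D).ker))).toIntLinearMap
  obtain ⟨P, hP, hPT⟩ := LinearMap.exists_monic_and_aeval_eq_zero ℤ T
  obtain ⟨q, hq, ζ, hζ, hζP⟩ := zet_unit P hP
  refine ⟨q, hq, ζ, hζ, ?_⟩
  intro z hz x hx
  have hn1 : ∀ g : D, nD D g = 1 → ∀ h, z (g * h) = z g + z h := by
    intro g hg h
    rw [hz, hg]
    simp
  have hz1 : z 1 = 0 := by
    have h := hn1 1 (map_one _) 1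
    rw [mul_one] at h
    exact left_eq_add.mp h
  have hnt : nD D t = Multiplicative.ofAdd 1 := rfl
  have hzt : ∀ h, z (t * h) = z t + (ζ : ZMod q) * z h := by
    intro h
    rw [hz, hnt]
    simp
  have hconj : ∀ g : D, nD D g = 1 → z (t * g * t⁻¹) = ζ * z g := by
    intro g hg
    rw [mul_assoc, hzt, hn1 g hg]
    have h0 := hzt t⁻¹
    rw [mul_inv_cancel, hz1] at h0
    linear_combination -h0
  -- the homomorphism on the kernel
  let f₀ : (nD D).ker →* Multiplicative (ZMod q) :=
    { toFun := fun g => Multiplicative.ofAdd (z g)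
      map_one' := by
        rw [OneMemClass.coe_one, hz1]
        rfl
      map_mul' := fun g h => by
        rw [Subgroup.coe_mul, hn1 g.1 g.2, ofAdd_add] }
  let f : Additive (Abelianization (nD D).ker) →+ ZMod q :=
    MonoidHom.toAdditiveLeft (Abelianization.lift f₀)
  have hff : ∀ g : (nD D).ker, f (Additive.ofMul (Abelianization.of g)) = z g := by
    intro g
    change Multiplicative.toAdd (Abelianization.lift f₀ (Abelianization.of g)) = z g
    rw [Abelianization.lift_apply_of]
    rfl
  have hfT : ∀ a, f (T a) = ζ * f a := by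
    intro a
    obtain ⟨g, hg⟩ := QuotientGroup.mk'_surjective _ (Additive.toMul a)
    have ha : a = Additive.ofMul (Abelianization.of g) := by
      apply Additive.toMul.injective
      exact hg.symm
    rw [ha, hff]
    have h1 : T (Additive.ofMul (Abelianization.of g)) =
        Additive.ofMul (Abelianization.of (MulAut.conjNormal t g)) := rfl
    rw [h1, hff, MulAut.conjNormal_apply]
    exact hconj g.1 g.2
  have key := zet_aeval T f (ζ : ZMod q) hfT P (Additive.ofMul (Abelianization.of ⟨x, hx⟩))
  rw [hPT, LinearMap.zero_apply, map_zero, hff] at key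
  exact (mul_eq_zero.1 key.symm).resolve_left hζP

end

end Pool.Agent.F8.CG
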