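import Pool.Agent.Lib.MP_305fdd_al.F8.BG.P_i1
import Pool.Agent.Lib.MP_305fdd_al.F8.BG.P_i2
import Pool.Agent.Lib.MP_305fdd_al.F8.CG.P_circ
import Pool.Agent.Lib.MP_305fdd_al.F8.CG.P_int
import Pool.Agent.Lib.MP_305fdd_al.F8.CG.P_intZ
import Pool.Agent.Lib.MP_305fdd_al.F8.CG.P_ann
import Pool.Agent.Lib.MP_305fdd_al.F8.CG.P_zet
import Pool.Agent.Lib.MP_305fdd_al.F8.CG.P_mu
import Pool.Agent.Lib.MP_305fdd_al.F8.CG.P_star
import Pool.Agent.Lib.MP_305fdd_al.F8.CG.P_lp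
import Pool.Agent.Lib.MP_305fdd_al.F8.CG.P_gen
import Pool.Agent.Lib.MP_305fdd_al.F8.CG.P_grow
import Pool.Agent.Lib.MP_305fdd_al.F8.CG.P_pU
import Pool.Agent.Lib.MP_305fdd_al.F8.CG.P_tr
import Pool.Agent.Lib.MP_305fdd_al.F8.CG.P_eig
import Pool.Agent.Lib.MP_305fdd_al.F8.CG.P_key
import Pool.Agent.Lib.MP_305fdd_al.F8.CG.P_eg1
import Pool.Agent.Lib.MP_305fdd_al.F8.CG.P_r4
import Pool.Agent.Lib.MP_305fdd_al.F8.CG.P_chi
import Pool.Agent.Lib.MP_305fdd_al.F8.CG.P_lim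
import Pool.Agent.Lib.MP_305fdd_al.F8.CG.P_cnt
import Pool.Agent.Lib.MP_305fdd_al.F8.CG.P_r5
import Pool.Agent.Lib.MP_305fdd_al.F8.CG.P_regm
import Pool.Agent.Lib.MP_305fdd_al.F8.CG.P_ppow
import Pool.Agent.Lib.MP_305fdd_al.F8.CG.P_rm2
import Pool.Agent.Lib.MP_305fdd_al.F8.CG.P_rm3

/-!
# MP_305fdd_al, congruence subgroups: assembly of the block R (regularity)
-/

set_option autoImplicit false

namespace Pool.Agent.F8.CG

theorem m_lp : R_lp := p_lp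

theorem m_gen : R_gen := p_gen BG.p_i1 BG.p_i2

theorem m_grow : R_grow := p_grow m_lp m_gen

theorem m_tr : R_tr := p_tr (p_pU m_lp)

theorem m_mu : R_mu := p_mu p_ann p_zet

theorem m_key : R_key := p_key p_star (p_intZ (p_int p_circ)) p_eig

theorem m_r4 : R_r4 := p_r4 m_mu m_key m_grow m_tr p_eg1

theorem m_r5 : R_r5 := p_r5 m_mu m_key p_chi p_lim m_tr (p_cnt m_lp m_gen m_grow)

theorem m_regm : R_main := p_regm m_r4 m_r5

theorem m_rm2 : A_rm2 := p_rm2 m_regm (p_ppow m_lp)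

theorem m_rm3 : A_rm3 := p_rm3 m_rm2

end Pool.Agent.F8.CG
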