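import Pool.Agent.Lib.MP_305fdd_al.F8.CG.StmS2
import Pool.Agent.Lib.MP_305fdd_al.F8.CG.MainJ1
import Pool.Agent.Lib.MP_305fdd_al.F8.CG.MainLD
import Pool.Agent.Lib.MP_305fdd_al.F8.CG.MainCC
import Pool.Agent.Lib.MP_305fdd_al.F8.CG.P_Knu

/-!
# MP_305fdd_al, congruence subgroups: assembly of block S (the sign), part 1
-/

set_option autoImplicit false

namespace Pool.Agent.F8.CG

open Pool.Agent.F8.BG Pool.Agent.MP_305fdd_al Pool.Agent.Lib.MP_305fdd_al Pool.Agent.F8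
open scoped QuadraticAlgebra ComplexConjugate

noncomputable section

/-- the statements of block S, parts 1 and 2 -/
structure BlkS : Prop where
  cg : S_cg
  bv : S_bv
  sfl : S_sfl
  sfe : S_sfe
  sfg : S_sfg
  sd1 : S_sd1
  sd2 : S_sd2
  pr : S_pr
  cls : S_cls
  edge : S_edge
  cert : S_cert
  cz : S_cz
  pair : S_pair

variable {a b : ℤ}

/-- the conclusions of block S, parts 1 and 2 -/
structure DatS (a b : ℤ) : Prop where
  cg : CgF a b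
  bv : BvF a b
  cert : ∀ N : ℕ, N ≠ 0 → Cert a b N
  ed : ∃ M₀ : ℕ, 3 ≤ M₀ ∧ Cls a b M₀ ∧ ∀ N₀ : ℕ, N₀ ≠ 0 → ∃ (N : ℕ) (e' : Fin 2 → Qf a b ℤ),
    N ≠ 0 ∧ N₀ ∣ N ∧ M₀ ∣ N ∧ Edge a b N₀ N e'
  pr : ∃ M' : ℕ, M' ≠ 0 ∧ ∀ m : ℕ, m ≠ 0 → M' ∣ m → ∃ N₁ : ℕ, Pair a b m N₁

/-- the function for all `A` -/
theorem pa_all (S : BlkS) (hn : b ^ 2 + 4 * a < 0) (hp : IsPrincipalIdealRing (Qf a b ℤ))
    (hc : CgF a b) (hs : SFF a b) (h1 : PA a b 1) (A : Qf a b ℤ) (hA : A ≠ 0) : PA a b A := by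
  have hdom : IsDomain (Qf a b ℤ) := Qf_domain hn
  have key : ∀ A : Qf a b ℤ, A ≠ 0 → PA a b A := by
    intro A
    refine UniqueFactorizationMonoid.induction_on_prime (P := fun A => A ≠ 0 → PA a b A) A ?_ ?_ ?_
    · intro h
      exact absurd rfl h
    · intro x hx _
      obtain ⟨N, F, r, hN, hF, h2, h3, h4⟩ := h1
      exact ⟨N, F, r, hN, hF, fun e _ _ => isCoprime_of_isUnit hx (e 1), h3, h4⟩
    · intro x p hx hpr ih _
      exact S.pr a b hn hp hc hs x p hx hpr (ih hx)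
  exact key A hA
where
  isCoprime_of_isUnit {x : Qf a b ℤ} (hx : IsUnit x) (y : Qf a b ℤ) : IsCoprime y x := by
    obtain ⟨u, rfl⟩ := hx
    exact ⟨0, ((u⁻¹ : (Qf a b ℤ)ˣ) : Qf a b ℤ), by simp⟩

/-- the unipotent elements correspond to each other -/
theorem fpu_of (hn : b ^ 2 + 4 * a < 0) (hfg : Group.FG (GQ a b)) {M₀ : ℕ}
    (h3 : 3 ≤ M₀) (hL : LD a b M₀) {m : ℕ} (hM : M₀ ∣ m) (h1 : m ≠ 0) : FPU a b m := by
  have : NeZero m := ⟨h1⟩
  have hf : Finite (SL2 (Qf a b (ZMod m))) := inferInstance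
  have hi : (Gam a b m).FiniteIndex := Subgroup.finiteIndex_ker _
  intro Ψ hΨ Q _ _ θ u hu
  exact m_FP a b hn hfg M₀ h3 hL (Gam a b m) (Gam a b m) (gam_le hM) (gam_le hM) hi hi Ψ hΨ
    Q θ u hu

/-- the data for the five rings -/
theorem datS (S : BlkS) (h5 : Five a b) (hp : IsPrincipalIdealRing (Qf a b ℤ))
    (hfg : Group.FG (GQ a b)) (h : HasR a b) : DatS a b := by
  obtain ⟨ι, _, α, N, w, M, c, g, G₀, η, hdat, hR, h3, hL⟩ := h
  have hn := hdat.neg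
  have hE : Eu a b := p_Veu a b h5
  have hc := S.cg a b hn hp
  have hM : 3 * M ≠ 0 := by omega
  have hsl := S.sfl a b hn hE hp
  have hs : SFF a b :=
    { lin := hsl.1
      uq := hsl.2
      ex := S.sfe a b hn hE hp hc (3 * M) hM hL
      mu0 := fun F r μ hμ hF => (S.sfg a b hn hp hc F r μ hμ hF).1
      mu1 := fun F r μ hμ hF => (S.sfg a b hn hp hc F r μ hμ hF).2 }
  have h1 : PA a b 1 := by
    rcases h5 with h | h | h | h | h
    · exact S.sd1 a b (Or.inl h) hE hp hc (3 * M) hM hL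
    · exact S.sd1 a b (Or.inr (Or.inl h)) hE hp hc (3 * M) hM hL
    · exact S.sd1 a b (Or.inr (Or.inr h)) hE hp hc (3 * M) hM hL
    · exact S.sd2 a b (Or.inl h) hE hp hc (3 * M) hM hL
    · exact S.sd2 a b (Or.inr h) hE hp hc (3 * M) hM hL
  have hA := fun A hA => pa_all S hn hp hc hs h1 A hA
  have hb := S.bv a b hn hc
  refine ⟨hc, hb, fun N hN => S.cert a b hn hE hp hfg hc hb N hN, ⟨3 * M, h3,
    S.cls a b hn hE hp hfg hc (3 * M) h3 hL, S.edge a b hn hE hp hfg hc hs hA (3 * M) hM hL⟩, ?_⟩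
  obtain ⟨M', hM', hcz⟩ := S.cz a b ι α N w M c g G₀ η hdat
  have ha : a.natAbs ≠ 0 := by
    intro h0
    have h4 : a = 0 := Int.natAbs_eq_zero.1 h0
    rw [h4] at hn
    nlinarith [sq_nonneg b]
  refine ⟨M' * (3 * M * a.natAbs), Nat.mul_ne_zero hM' (Nat.mul_ne_zero hM ha), ?_⟩
  intro m hm hdvd
  obtain ⟨k₀, hk₀, hz⟩ := hcz m hm (dvd_trans (Dvd.intro _ rfl) hdvd)
  have hMm : 3 * M ∣ m := dvd_trans (Dvd.intro _ rfl) (dvd_trans (Dvd.intro_left _ rfl) hdvd)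
  have hm3 : 3 ≤ m := h3.trans (Nat.le_of_dvd (Nat.pos_of_ne_zero hm) hMm)
  have hnu : NuH a b m := p_Knu a b ι α N w M c g G₀ η hdat hR (3 * M) m h3 (Dvd.intro_left 3 rfl)
    hm (dvd_trans (Dvd.intro_left _ rfl) hdvd)
  exact ⟨m * k₀, S.pair a b hn hp h5 hfg hc m hm3 hnu (fpu_of hn hfg h3 hL hMm hm) k₀ hk₀ hz⟩

end

end Pool.Agent.F8.CG
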