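import Pool.Agent.Lib.MP_305fdd_al.F8.CG.StmS3
import Pool.Agent.Lib.MP_305fdd_al.F8.CG.MainS1
import Pool.Agent.Lib.MP_305fdd_al.F8.CG.MainJ6

/-!
# MP_305fdd_al, congruence subgroups: assembly of block S (the sign), part 2

All lattices in `PGL₂(K)` which contain the image of some `Γ(m₀)` are profinitely rigid.
-/

set_option autoImplicit false

namespace Pool.Agent.F8.CG

open Pool.Agent.F8.BG Pool.Agent.MP_305fdd_al Pool.Agent.Lib.MP_305fdd_al Pool.Agent.F8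
open scoped QuadraticAlgebra MatrixGroups

noncomputable section

/-- the statements of block S, part 3 -/
structure BlkS3 : Prop where
  vd : S_vd
  uq : S_uq
  sm : S_sm
  psi : S_psi
  cm1 : S_cm1

variable {a b : ℤ} {K : Type} [Field K] {φ : Qf a b ℤ →+* K}

/-- no sign -/
theorem range_le {Γ : Subgroup (PGK K)} {m₀ m₁ : ℕ}
    {Λ : Type} [Group Λ] {Φ : NatBij Γ Λ} {Q : Type} [Group Q] [Finite Q] {π : Γ →* Q}
    {L : Subgroup Λ} {ρ : L →* GQ a b} (BJ : BlkJ) (S3 : BlkS3) (h5 : Five a b)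
    (hp : IsPrincipalIdealRing (Qf a b ℤ)) (D : DatS a b) (H : JD φ Γ m₀ m₁ Φ π L ρ) (R : RepF φ)
    {N₁ : ℕ} (hN : Pair a b m₀ N₁) : (thJ BJ H R).range ≤ Γ := by
  have hn := H.neg
  have hm : m₀ ≠ 0 := by
    have := H.h5
    omega
  have hvd := S3.vd a b m₀ hn D.cg
  obtain ⟨Ψ, hΨ⟩ := S3.psi a b K φ Γ m₀ m₁ Λ Φ Q π L ρ H R
  have hps : Ps Ψ := by
    intro k _
    obtain ⟨h, -, hh⟩ := hΨ.gd k
    exact ⟨h, hh⟩
  obtain ⟨M₀, h3, hcls, hed⟩ := D.ed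
  have hsm : SM Ψ := S3.sm a b hn (p_Veu a b h5) hp (p_Jun a b hn) D.cg D.bv m₀ hm hvd N₁ hN Ψ
    hps D.cert (fun k T hk hT => S3.uq a b hn hp D.cg D.bv M₀ h3 hcls m₀ hm Ψ k T hk hT)
    (fun N₀ hN₀ => by
      obtain ⟨N, ε, h1, h2, -, h4⟩ := hed N₀ hN₀
      exact ⟨N, ε, h1, h2, h4⟩)
  rintro _ ⟨l, rfl⟩
  exact S3.cm1 a b K φ Γ m₀ m₁ Λ Φ Q π L ρ H R hp h5 D.cg hvd N₁ hN Ψ hΨ hsm l _
    (thJ_spec BJ H R l)

/-- THE MAIN THEOREM over `ℤ[w]` -/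
theorem PGK_rigid (BJ : BlkJ) (W : BlkW) (B : Blk) (S3 : BlkS3) (H : DatJ a b) (D : DatS a b)
    (hF : FracQ φ) (Γ : Subgroup (PGK K)) (m₀ : ℕ) (h5 : 5 ≤ m₀) {N₁ : ℕ} (hN : Pair a b m₀ N₁)
    (hle : ∀ x ∈ Gam a b m₀, pcQ φ x ∈ Γ)
    (hfi : (((Gam a b m₀).map (pcQ φ)).subgroupOf Γ).FiniteIndex) : ProfinitelyRigid Γ := by
  intro Λ _ hΛ
  have hneg := H.dat.neg
  have R : RepF φ := BJ.rep a b hneg K φ hF
  have hp := H.pir W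
  obtain ⟨k₀, hk₀, hsq⟩ := BJ.nsq a b hneg H.dat.five
  have hm₀ : m₀ ≠ 0 := by omega
  have : NeZero m₀ := ⟨hm₀⟩
  obtain ⟨m₁, hm₁, hdvd, Q, _, _, π, h1, h2⟩ := BJ.core a b hneg K φ hF R Γ m₀ hm₀ hle hfi
  obtain ⟨hfg, hrf, hsame⟩ := hΛ
  have hfgD : Group.FG (Gam a b m₀) := fg_D B H.dat (Gam a b m₀) m₀ le_rfl
  have hfgΓ : Group.FG Γ := fg_Gam hfgD Γ hle hfi
  obtain ⟨Φ⟩ := exists_natBij hsame.symm
  obtain ⟨L, ρ, hJ⟩ := BJ.dat a b hneg K φ hF R Γ m₀ m₁ h5 hdvd hm₁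
    (H.rho m₀ m₁ (by omega) hm₁) hle Q π h1 h2 Λ hrf Φ
  have hi : Function.Injective (thJ BJ hJ R) := by
    rw [injective_iff_map_eq_one]
    intro l hl
    have h3 := thJ_spec BJ hJ R l
    rw [hl] at h3
    exact BJ.ker a b K φ Γ m₀ m₁ Λ Φ Q π L ρ hJ R hp H.dat.hg hrf k₀ hk₀ hsq l h3
  have hO := th_out BJ hJ R hp hi
  have heq := hO.eq_of_le (range_le BJ S3 H.dat.five hp D hJ R hN)
  exact ⟨(MonoidHom.ofInjective hi).trans (MulEquiv.subgroupCongr heq)⟩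

variable {R : Type} [CommRing R] [Algebra R K] (e : Qf a b ℤ ≃+* R)

include e in
/-- all lattices of `PGL(2, K)` which contain a principal congruence subgroup -/
theorem PGL_rigid [IsFractionRing R K] (BJ : BlkJ) (W : BlkW) (B : Blk) (S3 : BlkS3)
    (H : DatJ a b) (D : DatS a b) (J : Ideal R)
    (hJ : J ≠ ⊥) (Γ : Subgroup (PGL(2, K))) (hΓ : Cong.PG K J ≤ Γ)
    (hi : (Cong.PG K J).relIndex Γ ≠ 0) : ProfinitelyRigid Γ := by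
  have hn := H.dat.neg
  obtain ⟨m, hm5, hmJ⟩ := ex_m₀ e hn J hJ
  obtain ⟨M', hM', hpr⟩ := D.pr
  have hm0 : m * M' ≠ 0 := Nat.mul_ne_zero (by omega) hM'
  have hmJ' : ((m * M' : ℕ) : Qf a b ℤ) ∈ J.comap (e : Qf a b ℤ →+* R) := by
    rw [Nat.cast_mul]
    exact Ideal.mul_mem_right _ _ hmJ
  have h5 : 5 ≤ m * M' := hm5.trans (Nat.le_mul_of_pos_right m (Nat.pos_of_ne_zero hM'))
  obtain ⟨N₁, hN⟩ := hpr (m * M') hm0 (Dvd.intro_left m rfl)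
  exact PGK_rigid BJ W B S3 H D (fracQ_emb e) Γ (m * M') h5 hN
    (fun x hx => hΓ (mem_PG e J x (gam_le_G hmJ' hx))) (fi_map e Γ J hΓ hi hm0 hmJ')

end

end Pool.Agent.F8.CG
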