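import Pool.Agent.Lib.MP_305fdd_al.F8.CG.StmS3

/-!
# MP_305fdd_al, congruence subgroups: piece S ar (arithmetic)
-/

set_option autoImplicit false

namespace Pool.Agent.F8.CG

open Pool.Agent.F8.BG Pool.Agent.MP_305fdd_al Pool.Agent.Lib.MP_305fdd_al Pool.Agent.F8
open scoped QuadraticAlgebra

private theorem Sar_nat {a b : ℤ} (n : ℤ) : (⟨n, 0⟩ : Qf a b ℤ) = (n : Qf a b ℤ) := by
  apply QuadraticAlgebra.ext <;> simp

private theorem Sar_nq_cast {a b : ℤ} (n : ℤ) : nq (n : Qf a b ℤ) = n ^ 2 := by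
  unfold nq
  simp

private theorem Sar_pos {a b : ℤ} (hn : b ^ 2 + 4 * a < 0) {z : Qf a b ℤ} (hz : z ≠ 0) :
    0 < nq z :=
  lt_of_le_of_ne (nq_nonneg hn z) fun h => hz (nq_eq_zero hn h.symm)

private theorem Sar_canc {a b : ℤ} (hn : b ^ 2 + 4 * a < 0) {ρ ν : Qf a b ℤ} (hρ : ρ ≠ 0)
    {k k₁ c : ℕ} (hk : k₁ = k * (nq ρ).toNat * c) (h : (k₁ : Qf a b ℤ) ∣ ρ * ν) :
    (k : Qf a b ℤ) ∣ ν := by
  have hdom : IsDomain (Qf a b ℤ) := Qf_domain hn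
  have hpos := Sar_pos hn hρ
  obtain ⟨t, ht⟩ := h
  have h1 : ((nq ρ : ℤ) : Qf a b ℤ) = (((nq ρ).toNat : ℕ) : Qf a b ℤ) := by
    have h0 : ((nq ρ).toNat : ℤ) = nq ρ := Int.toNat_of_nonneg hpos.le
    calc ((nq ρ : ℤ) : Qf a b ℤ) = (((nq ρ).toNat : ℤ) : Qf a b ℤ) := by rw [h0]
      _ = (((nq ρ).toNat : ℕ) : Qf a b ℤ) := Int.cast_natCast _
  have h2 : (((nq ρ).toNat : ℕ) : Qf a b ℤ) ≠ 0 := by
    rw [Nat.cast_ne_zero]
    omega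
  have h3 : ρ * cjq a b ℤ ρ = (((nq ρ).toNat : ℕ) : Qf a b ℤ) := by
    rw [mul_cjq, Sar_nat, h1]
  refine ⟨c * cjq a b ℤ ρ * t, ?_⟩
  apply mul_left_cancel₀ h2
  rw [hk] at ht
  push_cast at ht
  calc (((nq ρ).toNat : ℕ) : Qf a b ℤ) * ν = cjq a b ℤ ρ * (ρ * ν) := by rw [← h3]; ring
    _ = (((nq ρ).toNat : ℕ) : Qf a b ℤ) * (k * (c * cjq a b ℤ ρ * t)) := by rw [ht]; ring

theorem p_Sar : S_ar := by
  classical
  intro a b hn S ρ k hρ hk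
  have hdom : IsDomain (Qf a b ℤ) := Qf_domain hn
  obtain ⟨B, hB⟩ : ∃ B : ℕ, B = ∏ X ∈ S.filter (fun X => X ^ 2 - ρ ^ 2 ≠ 0),
    (nq (X ^ 2 - ρ ^ 2)).toNat := ⟨_, rfl⟩
  have hB0 : B ≠ 0 := by
    rw [hB, Finset.prod_ne_zero_iff]
    intro X hX
    have := Sar_pos hn (Finset.mem_filter.1 hX).2
    omega
  have hpos := Sar_pos hn hρ
  refine ⟨k * (nq ρ).toNat * (2 * B), ?_, ⟨(nq ρ).toNat * (2 * B), by ring⟩, ?_⟩
  · have h1 : (nq ρ).toNat ≠ 0 := by omega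
    exact mul_ne_zero (mul_ne_zero hk h1) (mul_ne_zero two_ne_zero hB0)
  intro X hX μ μ' h1 h2 h3
  -- the squares agree
  have h4 : ((k * (nq ρ).toNat * (2 * B) : ℕ) : Qf a b ℤ) ∣ X ^ 2 - ρ ^ 2 := by
    have h5 : X ^ 2 - ρ ^ 2 = -((ρ * μ - X * μ') * (ρ * μ + X * μ')) + ρ ^ 2 * (μ ^ 2 - 1)
        - X ^ 2 * (μ' ^ 2 - 1) := by ring
    rw [h5]
    refine dvd_sub (dvd_add ?_ (Dvd.dvd.mul_left h1 _)) (Dvd.dvd.mul_left h2 _)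
    rw [dvd_neg]
    exact Dvd.dvd.mul_right h3 _
  have h5 : X ^ 2 - ρ ^ 2 = 0 := by
    by_contra h6
    have hD := Sar_pos hn h6
    have h7 : (nq (X ^ 2 - ρ ^ 2)).toNat ∣ B := by
      have hm : X ∈ S.filter (fun X => X ^ 2 - ρ ^ 2 ≠ 0) := Finset.mem_filter.2 ⟨hX, h6⟩
      rw [hB]
      exact Finset.dvd_prod_of_mem (fun X => (nq (X ^ 2 - ρ ^ 2)).toNat) hm
    obtain ⟨c, hc⟩ := h7
    obtain ⟨t, ht⟩ := h4
    obtain ⟨N, hN⟩ : ∃ N : ℤ, N = nq (X ^ 2 - ρ ^ 2) := ⟨_, rfl⟩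
    have hN1 : ((nq (X ^ 2 - ρ ^ 2)).toNat : ℤ) = N := by
      rw [hN]
      exact Int.toNat_of_nonneg hD.le
    have h8 : X ^ 2 - ρ ^ 2 = ((2 * N : ℤ) : Qf a b ℤ) * (k * ((nq ρ).toNat : ℕ) * c * t) := by
      rw [ht, hc, ← hN1]
      push_cast
      ring
    have h9 : N = (2 * N) ^ 2 * nq ((k * ((nq ρ).toNat : ℕ) * c * t : Qf a b ℤ)) := by
      have h10 := congrArg nq h8
      rw [nq_mul, Sar_nq_cast, ← hN] at h10
      exact h10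
    have h11 : (k * ((nq ρ).toNat : ℕ) * c * t : Qf a b ℤ) ≠ 0 := by
      intro h0
      rw [h8, h0, mul_zero] at h6
      exact h6 rfl
    have h12 := Sar_pos hn h11
    rw [← hN] at hD
    nlinarith [mul_pos hD hD, mul_pos (mul_pos hD hD) h12]
  have h6 : (X - ρ) * (X + ρ) = 0 := by rw [← h5]; ring
  rcases mul_eq_zero.1 h6 with h7 | h7
  · left
    refine Sar_canc hn hρ (k₁ := k * (nq ρ).toNat * (2 * B)) (c := 2 * B) rfl ?_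
    have h8 : X = ρ := sub_eq_zero.1 h7
    rw [h8] at h3
    rw [mul_sub]
    exact h3
  · right
    refine Sar_canc hn hρ (k₁ := k * (nq ρ).toNat * (2 * B)) (c := 2 * B) rfl ?_
    have h8 : X = -ρ := eq_neg_of_add_eq_zero_left h7
    rw [h8] at h3
    have h9 : ρ * (μ + μ') = ρ * μ - -ρ * μ' := by ring
    rw [h9]
    exact h3

end Pool.Agent.F8.CG
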