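import Pool.Agent.Lib.MP_305fdd_al.F8.CG.StmS
import Pool.Agent.Lib.MP_305fdd_al.F8.CG.P_Vtv

/-! Piece `Sbv` of project CG: the functionals `BV` and `RV`. -/

set_option autoImplicit false

namespace Pool.Agent.F8.CG

open Pool.Agent.F8.BG Pool.Agent.MP_305fdd_al Pool.Agent.Lib.MP_305fdd_al Pool.Agent.F8

section

variable {a b : ℤ}

private theorem Sbv_mv {R : Type} [CommRing R] (M : Matrix (Fin 2) (Fin 2) R) (v : Fin 2 → R)
    (i : Fin 2) : M.mulVec v i = M i 0 * v 0 + M i 1 * v 1 := by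
  rw [Matrix.mulVec_eq_sum]
  simp [Fin.sum_univ_two, mul_comm]

/-- the image of a vector -/
private theorem Sbv_map {K : Type} [CommRing K] (f : Qf a b ℤ →+* K) (g : GQ a b)
    (e : Fin 2 → Qf a b ℤ) :
    (fun i => f (g.val.mulVec e i)) = (SLm f g).val.mulVec (fun i => f (e i)) := by
  funext i
  rw [Sbv_mv, Sbv_mv, map_add, map_mul, map_mul]
  rfl

private theorem Sbv_tv {K : Type} [CommRing K] (f : Qf a b ℤ →+* K) (e : Fin 2 → Qf a b ℤ)
    (s : Qf a b ℤ) (v : Fin 2 → K) :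
    (SLm f (tv e s)).val.mulVec v
      = v + (f s * om (fun i => f (e i)) v) • (fun i => f (e i)) := by
  rw [SLm_tv]
  exact (p_Vtv K (fun i => f (e i)) (f s) (f s)).1 v

private theorem Sbv_om_add {R : Type} [CommRing R] (e v w : Fin 2 → R) :
    om e (v + w) = om e v + om e w := by
  unfold om
  simp only [Pi.add_apply]
  ring

private theorem Sbv_om_sub {R : Type} [CommRing R] (e v w : Fin 2 → R) :
    om e (v - w) = om e v - om e w := by
  unfold om
  simp only [Pi.sub_apply]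
  ring

private theorem Sbv_om_smul {R : Type} [CommRing R] (e : Fin 2 → R) (c : R) (v : Fin 2 → R) :
    om e (c • v) = c * om e v := by
  unfold om
  simp only [Pi.smul_apply, smul_eq_mul]
  ring

private theorem Sbv_om_self {R : Type} [CommRing R] (e : Fin 2 → R) : om e e = 0 := by
  unfold om
  ring

private theorem Sbv_om_map {K : Type} [CommRing K] (g : SL2 K) (e v : Fin 2 → K) :
    om (g.val.mulVec e) (g.val.mulVec v) = om e v :=
  (p_Vtv K e 0 0).2.2.2.2.2 g v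

/-- conjugation by an element of the group -/
private theorem Sbv_conj {N : ℕ} {K : Type} [CommRing K] (f : Qf a b ℤ →+* K)
    {z : Gam a b N → Fin 2 → K} (hz : z ∈ Z1S N f) (w : Gam a b N) (e : Fin 2 → Qf a b ℤ)
    (s : Qf a b ℤ) :
    z (uD N (dvd_refl N) (w.val.val.mulVec e) s)
      = (SLm f w.val).val.mulVec (z (uD N (dvd_refl N) e s))
        - (f ((N : Qf a b ℤ) * s) * om ((SLm f w.val).val.mulVec (fun i => f (e i))) (z w)) •
          (SLm f w.val).val.mulVec (fun i => f (e i)) := by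
  have hz' : ∀ x y : Gam a b N, z (x * y) = z x + (SLm f x.val).val.mulVec (z y) := hz
  have h1 : uD N (dvd_refl N) (w.val.val.mulVec e) s * w = w * uD N (dvd_refl N) e s := by
    apply Subtype.ext
    show tv (w.val.val.mulVec e) ((N : Qf a b ℤ) * s) * w.val = w.val * tv e ((N : Qf a b ℤ) * s)
    rw [← (p_Vtv (Qf a b ℤ) e 0 ((N : Qf a b ℤ) * s)).2.2.1 w.val, inv_mul_cancel_right]
  have h2 := congrArg z h1
  rw [hz', hz'] at h2
  have h3 : (SLm f (uD N (dvd_refl N) (w.val.val.mulVec e) s).val).val.mulVec (z w)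
      = z w + (f ((N : Qf a b ℤ) * s) * om (fun i => f (w.val.val.mulVec e i)) (z w)) •
        (fun i => f (w.val.val.mulVec e i)) :=
    Sbv_tv f (w.val.val.mulVec e) ((N : Qf a b ℤ) * s) (z w)
  rw [h3, Sbv_map] at h2
  have h4 : z (uD N (dvd_refl N) (w.val.val.mulVec e) s)
      = z w + (SLm f w.val).val.mulVec (z (uD N (dvd_refl N) e s)) -
        (z w + (f ((N : Qf a b ℤ) * s) *
          om ((SLm f w.val).val.mulVec (fun i => f (e i))) (z w)) •
          (SLm f w.val).val.mulVec (fun i => f (e i))) := by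
    rw [← h2]
    abel
  rw [h4]
  abel

private theorem Sbv_inv {N : ℕ} {K : Type} [CommRing K] (f : Qf a b ℤ →+* K)
    {z : Gam a b N → Fin 2 → K} (hz : z ∈ Z1S N f) (w : GQ a b) (hw : w ∈ Gam a b N)
    (e : Fin 2 → Qf a b ℤ) :
    BV N f (w.val.mulVec e) z = BV N f e z ∧
      RV N f (w.val.mulVec e) z = (SLm f w).val.mulVec (RV N f e z) := by
  have hc := fun s => Sbv_conj f hz ⟨w, hw⟩ e s
  simp only at hc
  constructor
  · unfold BV
    rw [hc 1, Sbv_map, Sbv_om_sub, Sbv_om_map, Sbv_om_smul, Sbv_om_self, mul_zero, sub_zero]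
  · unfold RV
    rw [hc 1, hc (wq a b ℤ), Matrix.mulVec_sub, Matrix.mulVec_smul, mul_one, map_mul, smul_sub,
      smul_smul]
    have h1 : f (wq a b ℤ) * (f (N : Qf a b ℤ) *
        om ((SLm f w).val.mulVec (fun i => f (e i))) (z ⟨w, hw⟩))
      = f (N : Qf a b ℤ) * f (wq a b ℤ) *
        om ((SLm f w).val.mulVec (fun i => f (e i))) (z ⟨w, hw⟩) := by ring
    rw [h1]
    abel

private theorem Sbv_nrm {N : ℕ} (g : GQ a b) (x : Gam a b N) : g⁻¹ * x.val * g ∈ Gam a b N := by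
  have h := (inferInstance : (Gam a b N).Normal).conj_mem x.val x.2 g⁻¹
  rwa [inv_inv] at h

private theorem Sbv_tra {N : ℕ} {K : Type} [CommRing K] (f : Qf a b ℤ →+* K)
    {z : Gam a b N → Fin 2 → K} (hz : z ∈ Z1S N f) (g : GQ a b) :
    ∃ z' ∈ Z1S N f, ∀ e : Fin 2 → Qf a b ℤ,
      BV N f (g.val.mulVec e) z' = BV N f e z ∧
      RV N f (g.val.mulVec e) z' = (SLm f g).val.mulVec (RV N f e z) := by
  have hz' : ∀ x y : Gam a b N, z (x * y) = z x + (SLm f x.val).val.mulVec (z y) := hz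
  refine ⟨fun x => (SLm f g).val.mulVec (z ⟨g⁻¹ * x.val * g, Sbv_nrm g x⟩), ?_, ?_⟩
  · intro x y
    have h1 : (⟨g⁻¹ * (x * y).val * g, Sbv_nrm g (x * y)⟩ : Gam a b N)
        = ⟨g⁻¹ * x.val * g, Sbv_nrm g x⟩ * ⟨g⁻¹ * y.val * g, Sbv_nrm g y⟩ := by
      apply Subtype.ext
      show g⁻¹ * (x.val * y.val) * g = g⁻¹ * x.val * g * (g⁻¹ * y.val * g)
      group
    have h2 : SLm f g * SLm f (g⁻¹ * x.val * g) = SLm f x.val * SLm f g := by
      rw [← map_mul, ← map_mul]
      congr 1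
      group
    show (SLm f g).val.mulVec (z ⟨g⁻¹ * (x * y).val * g, Sbv_nrm g (x * y)⟩)
      = (SLm f g).val.mulVec (z ⟨g⁻¹ * x.val * g, Sbv_nrm g x⟩) +
        (SLm f x.val).val.mulVec ((SLm f g).val.mulVec (z ⟨g⁻¹ * y.val * g, Sbv_nrm g y⟩))
    rw [h1, hz', Matrix.mulVec_add, Matrix.mulVec_mulVec, Matrix.mulVec_mulVec]
    have h3 : (SLm f g).val * (SLm f (g⁻¹ * x.val * g)).val = (SLm f x.val).val * (SLm f g).val :=
      congrArg Subtype.val h2
    show (SLm f g).val.mulVec (z ⟨g⁻¹ * x.val * g, Sbv_nrm g x⟩) +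
      ((SLm f g).val * (SLm f (g⁻¹ * x.val * g)).val).mulVec (z ⟨g⁻¹ * y.val * g, Sbv_nrm g y⟩)
      = _
    rw [h3]
  · intro e
    have hu : ∀ s, (⟨g⁻¹ * (uD N (dvd_refl N) (g.val.mulVec e) s).val * g,
        Sbv_nrm g (uD N (dvd_refl N) (g.val.mulVec e) s)⟩ : Gam a b N)
        = uD N (dvd_refl N) e s := by
      intro s
      apply Subtype.ext
      show g⁻¹ * tv (g.val.mulVec e) ((N : Qf a b ℤ) * s) * g = tv e ((N : Qf a b ℤ) * s)
      rw [← (p_Vtv (Qf a b ℤ) e 0 ((N : Qf a b ℤ) * s)).2.2.1 g]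
      group
    constructor
    · unfold BV
      simp only []
      rw [hu 1, Sbv_map, Sbv_om_map]
    · unfold RV
      simp only []
      rw [hu 1, hu (wq a b ℤ), Matrix.mulVec_sub, Matrix.mulVec_smul]

private theorem Sbv_mul1 {N : ℕ} (hN : N ≠ 0) {K : Type} [CommRing K] [IsDomain K]
    (f : Qf a b ℤ →+* K) (hf : Function.Injective f) {z : Gam a b N → Fin 2 → K}
    (hz : z ∈ Z1S N f) (e : Fin 2 → Qf a b ℤ) (t : Qf a b ℤ) :
    om (fun i => f (e i)) (z (uD N (dvd_refl N) e t)) = f t * BV N f e z := by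
  have hz' : ∀ x y : Gam a b N, z (x * y) = z x + (SLm f x.val).val.mulVec (z y) := hz
  have h1 : uD N (dvd_refl N) e 1 * uD N (dvd_refl N) e t
      = uD N (dvd_refl N) e t * uD N (dvd_refl N) e 1 := by
    apply Subtype.ext
    show tv e ((N : Qf a b ℤ) * 1) * tv e ((N : Qf a b ℤ) * t)
      = tv e ((N : Qf a b ℤ) * t) * tv e ((N : Qf a b ℤ) * 1)
    rw [← (p_Vtv (Qf a b ℤ) e _ _).2.1, ← (p_Vtv (Qf a b ℤ) e _ _).2.1, add_comm]
  have h2 := congrArg z h1
  rw [hz', hz'] at h2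
  have h3 : ∀ s v, (SLm f (uD N (dvd_refl N) e s).val).val.mulVec v
      = v + (f ((N : Qf a b ℤ) * s) * om (fun i => f (e i)) v) • (fun i => f (e i)) :=
    fun s v => Sbv_tv f e ((N : Qf a b ℤ) * s) v
  rw [h3, h3] at h2
  have hN' : f (N : Qf a b ℤ) ≠ 0 := by
    rw [Ne, map_eq_zero_iff f hf]
    exact_mod_cast hN
  have h4 : ∀ i, f (N : Qf a b ℤ) * (om (fun i => f (e i)) (z (uD N (dvd_refl N) e t))
      - f t * BV N f e z) * f (e i) = 0 := by
    intro i
    have h5 := congrFun h2 i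
    simp only [Pi.add_apply, Pi.smul_apply, smul_eq_mul, mul_one, map_mul] at h5
    unfold BV
    linear_combination h5
  by_cases he : ∀ i, f (e i) = 0
  · have h6 : (fun i => f (e i)) = (0 : Fin 2 → K) := funext he
    unfold BV
    rw [h6]
    unfold om
    simp
  · push Not at he
    obtain ⟨i, hi⟩ := he
    have h7 := h4 i
    rcases mul_eq_zero.1 h7 with h8 | h8
    · rcases mul_eq_zero.1 h8 with h9 | h9
      · exact absurd h9 hN'
      · exact sub_eq_zero.1 h9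
    · exact absurd h8 hi

private theorem Sbv_mul2 {N : ℕ} (hN : N ≠ 0) {K : Type} [CommRing K] [IsDomain K]
    (f : Qf a b ℤ →+* K) (hf : Function.Injective f) {z : Gam a b N → Fin 2 → K}
    (hz : z ∈ Z1S N f) (e : Fin 2 → Qf a b ℤ) (t : Qf a b ℤ) :
    BV N f (t • e) z = f t ^ 3 * BV N f e z := by
  have h1 : uD N (dvd_refl N) (t • e) 1 = uD N (dvd_refl N) e (t ^ 2) := by
    apply Subtype.ext
    show tv (t • e) ((N : Qf a b ℤ) * 1) = tv e ((N : Qf a b ℤ) * t ^ 2)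
    rw [(p_Vtv (Qf a b ℤ) e 0 ((N : Qf a b ℤ) * 1)).2.2.2.1 t]
    congr 1
    ring
  have h2 : BV N f (t • e) z = om (fun i => f ((t • e) i)) (z (uD N (dvd_refl N) (t • e) 1)) := rfl
  have h3 : (fun i => f ((t • e) i)) = f t • (fun i => f (e i)) := by
    funext i
    simp only [Pi.smul_apply, smul_eq_mul, map_mul]
  have h4 : ∀ v : Fin 2 → K, om (f t • (fun i => f (e i))) v = f t * om (fun i => f (e i)) v := by
    intro v
    unfold om
    simp only [Pi.smul_apply, smul_eq_mul]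
    ring
  rw [h2, h1, h3, h4, Sbv_mul1 hN f hf hz e (t ^ 2), map_pow]
  ring

private theorem Sbv_cop {R : Type} [CommRing R] (e v : Fin 2 → R) (h : IsCoprime (e 0) (e 1))
    (h0 : om e v = 0) : ∃ r : R, v = r • e := by
  obtain ⟨x, y, hxy⟩ := h
  unfold om at h0
  refine ⟨x * v 0 + y * v 1, ?_⟩
  funext i
  fin_cases i
  · show v 0 = (x * v 0 + y * v 1) * e 0
    linear_combination (-v 0) * hxy - y * h0
  · show v 1 = (x * v 0 + y * v 1) * e 1
    linear_combination (-v 1) * hxy + x * h0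

theorem p_Sbv : S_bv := by
  intro a b hab hC
  have hdom : IsDomain (Qf a b ℤ) := Qf_domain hab
  refine ⟨?_, ?_, ?_, ?_⟩
  · intro N K _ f z hz w hw e
    exact Sbv_inv f hz w hw e
  · intro N K _ f z hz g
    exact Sbv_tra f hz g
  · intro N hN K _ _ f hf z hz e t
    exact ⟨Sbv_mul1 hN f hf hz e t, Sbv_mul2 hN f hf hz e t⟩
  · intro N hN z hz e he h0
    apply Sbv_cop e _ ((hC.cop e).1 he)
    have h1 := Sbv_mul1 hN (RingHom.id (Qf a b ℤ)) Function.injective_id hz e (wq a b ℤ)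
    have h2 : om e (z (uD N (dvd_refl N) e (wq a b ℤ))) = 0 := by
      rw [h0, mul_zero] at h1
      exact h1
    have h3 : om e (z (uD N (dvd_refl N) e 1)) = 0 := h0
    unfold RV
    rw [Sbv_om_sub, Sbv_om_smul, h2, h3]
    ring

end

end Pool.Agent.F8.CG
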