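import Pool.Agent.Lib.MP_305fdd_al.F8.CG.StmS
import Pool.Agent.Lib.MP_305fdd_al.F8.CG.P_Vtv
import Pool.Agent.Lib.MP_305fdd_al.F8.BG.P_con
import Pool.Agent.Lib.MP_305fdd_al.F8.BG.P_E

/-!
# MP_305fdd_al, congruence subgroups: the certificate (piece Scert)
-/

set_option autoImplicit false

namespace Pool.Agent.F8.CG

open Pool.Agent.F8.BG Pool.Agent.MP_305fdd_al Pool.Agent.Lib.MP_305fdd_al Pool.Agent.F8
open scoped QuadraticAlgebra ComplexConjugate

noncomputable section

private theorem Scert_iC_inj {a b : ℤ} (h : b ^ 2 + 4 * a < 0) (x : Qf a b ℤ)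
    (hx : iC a b x = 0) : x = 0 := by
  have him := wC_im h
  rw [iC_apply] at hx
  have h1 := congrArg Complex.im hx
  have h2 := congrArg Complex.re hx
  simp only [Complex.add_im, Complex.intCast_im, Complex.mul_im, Complex.intCast_re, zero_mul,
    add_zero, zero_add, Complex.zero_im] at h1
  simp only [Complex.add_re, Complex.intCast_re, Complex.mul_re, Complex.intCast_im, zero_mul,
    sub_zero, Complex.zero_re] at h2
  have h3 : (x.im : ℝ) = 0 := by
    rcases mul_eq_zero.1 h1 with h | h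
    · exact h
    · exact absurd h him.ne'
  rw [h3, zero_mul, add_zero] at h2
  have h4 : x.im = 0 := by exact_mod_cast h3
  have h5 : x.re = 0 := by exact_mod_cast h2
  ext
  · exact h5
  · exact h4

private theorem Scert_tvC {a b : ℤ} (e : Fin 2 → Qf a b ℤ) (t : Qf a b ℤ) :
    iG a b (tv e t) = tv (vC a b e) (iC a b t) := by
  apply Subtype.ext
  ext i k
  have hg : (iG a b (tv e t)).val i k = iC a b ((tv e t).val i k) := rfl
  rw [hg]
  fin_cases i <;> fin_cases k <;>
    simp [tv, AB.mx, vC]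

private theorem Scert_map {R S : Type} [CommRing R] [CommRing S] (f : R →+* S) (g : SL2 R)
    (v : Fin 2 → R) (k : Fin 2) :
    f (g.val.mulVec v k) = (SLm f g).val.mulVec (fun i => f (v i)) k := by
  have hg : ∀ i k, (SLm f g).val i k = f (g.val i k) := fun i k => rfl
  simp only [Matrix.mulVec, dotProduct, Fin.sum_univ_two, map_add, map_mul, hg]

private theorem Scert_dvd {a b : ℤ} {N : ℕ} (f : Fin 2 → Qf a b ℤ) (s : Qf a b ℤ)
    (hf : IsCoprime (f 0) (f 1)) (h : tv f s ∈ Gam a b N) : (N : Qf a b ℤ) ∣ s := by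
  obtain ⟨x, y, hxy⟩ := hf
  have h0 : rdq a b N (tv f s) = 1 := h
  have h1 : ∀ i j, Qfm a b (Int.castRingHom (ZMod N)) ((tv f s).val i j)
      = (1 : Matrix (Fin 2) (Fin 2) (Qf a b (ZMod N))) i j := by
    intro i j
    exact congrArg (fun g : SL2 (Qf a b (ZMod N)) => g.val i j) h0
  have e00 : (N : Qf a b ℤ) ∣ s * f 0 * f 1 := by
    apply E_ker
    have h2 : Qfm a b (Int.castRingHom (ZMod N)) (1 - s * f 0 * f 1) = 1 := by
      have h3 := h1 0 0
      rw [Matrix.one_apply_eq] at h3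
      exact h3
    rw [map_sub, map_one] at h2
    have h4 := sub_eq_self.1 h2
    exact h4
  have e01 : (N : Qf a b ℤ) ∣ s * f 0 ^ 2 := by
    apply E_ker
    have h3 := h1 0 1
    rw [Matrix.one_apply_ne (by decide)] at h3
    exact h3
  have e10 : (N : Qf a b ℤ) ∣ s * f 1 ^ 2 := by
    apply E_ker
    have h3 := h1 1 0
    rw [Matrix.one_apply_ne (by decide)] at h3
    have h4 : Qfm a b (Int.castRingHom (ZMod N)) (-(s * f 1 ^ 2)) = 0 := h3
    rw [map_neg, neg_eq_zero] at h4
    exact h4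
  have h5 : s = x ^ 2 * (s * f 0 ^ 2) + 2 * x * y * (s * f 0 * f 1) + y ^ 2 * (s * f 1 ^ 2) := by
    have h6 : s = s * (x * f 0 + y * f 1) ^ 2 := by rw [hxy]; ring
    calc s = s * (x * f 0 + y * f 1) ^ 2 := h6
      _ = _ := by ring
  rw [h5]
  exact dvd_add (dvd_add (Dvd.dvd.mul_left e01 _) (Dvd.dvd.mul_left e00 _))
    (Dvd.dvd.mul_left e10 _)

private theorem Scert_fin {a b : ℤ} (m : ℕ) (hm : m ≠ 0) : (Gam a b m).FiniteIndex := by
  have : NeZero m := ⟨hm⟩
  have := con_finite a b m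
  exact Subgroup.finiteIndex_ker (rdq a b m)

private theorem Scert_rv (hvt : V_vt) {a b : ℤ} (hD : b ^ 2 + 4 * a < 0) (hEu : Eu a b)
    (hPID : IsPrincipalIdealRing (Qf a b ℤ)) (hC : CgF a b) (hB : BvF a b) {N : ℕ} (hN : N ≠ 0)
    (J : Finset (Fin 2 → Qf a b ℤ)) (hJ : ∀ e, Prm e → ∃ f ∈ J, Cgr N e f)
    (hJP : ∀ e ∈ J, Prm e)
    (z : Gam a b N → Fin 2 → Qf a b ℤ) (hz : z ∈ Z1S N (RingHom.id (Qf a b ℤ)))
    (hBV : ∀ j ∈ J, BV N (RingHom.id _) j z = 0) (e : Fin 2 → Qf a b ℤ) (k : Fin 2) :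
    RV N (RingHom.id _) e z k = 0 := by
  have hdom : IsDomain (Qf a b ℤ) := Qf_domain hD
  have hfin : (Gam a b N).FiniteIndex := Scert_fin N hN
  have hBf : ∀ f, Prm f → BV N (RingHom.id _) f z = 0 := by
    intro f hf
    obtain ⟨j, hj, hc⟩ := hJ f hf
    obtain ⟨w, hw, hwf⟩ := hC.cgr N f j hf (hJP j hj) hc
    have h1 := (hB.inv N _ (RingHom.id _) z hz w hw f).1
    rw [hwf, hBV j hj] at h1
    exact h1.symm
  set zC : Gam a b N → Fin 2 → ℂ := fun x k => iC a b (z x k) with hzCdef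
  have hzC : zC ∈ Z1C (Gam a b N).subtype := by
    intro x y
    funext k
    have h1 := hz x y
    show iC a b (z (x * y) k) = iC a b (z x k) + (iG a b x.val).val.mulVec (zC y) k
    rw [h1, Pi.add_apply, map_add, Scert_map (iC a b)]
    rfl
  have key : ∀ (e : Fin 2 → Qf a b ℤ) (t : Qf a b ℤ) (h : tv e t ∈ Gam a b N),
      om (vC a b e) (zC ⟨_, h⟩) = 0 := by
    intro e t h
    by_cases he : e = 0
    · have h1 : ∀ i, vC a b e i = 0 := by
        intro i
        show iC a b (e i) = 0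
        rw [he, Pi.zero_apply, map_zero]
      show vC a b e 0 * _ - vC a b e 1 * _ = 0
      rw [h1, h1, zero_mul, zero_mul, sub_zero]
    · obtain ⟨l, f, hl, hf, hef⟩ := hC.dec e he
      have htv : tv e t = tv f (l ^ 2 * t) := by
        rw [hef]
        exact (p_Vtv (Qf a b ℤ) f 0 t).2.2.2.1 l
      have hmem : tv f (l ^ 2 * t) ∈ Gam a b N := by rw [← htv]; exact h
      obtain ⟨t', ht'⟩ := Scert_dvd f (l ^ 2 * t) ((hC.cop f).1 hf) hmem
      have hu : (⟨tv e t, h⟩ : Gam a b N) = uD N (dvd_refl N) f t' := by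
        apply Subtype.ext
        show tv e t = tv f ((N : Qf a b ℤ) * t')
        rw [htv, ht']
      have h2 := (hB.mul N hN _ (RingHom.id _) Function.injective_id z hz f t').1
      rw [hBf f hf, mul_zero] at h2
      rw [hu]
      have h3 : om (vC a b e) (zC (uD N (dvd_refl N) f t'))
          = iC a b l * iC a b (om f (z (uD N (dvd_refl N) f t'))) := by
        rw [hef]
        simp only [om, vC, hzCdef, Pi.smul_apply, smul_eq_mul, map_mul, map_sub]
        ring
      have h4 : om f (z (uD N (dvd_refl N) f t')) = 0 := h2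
      rw [h3, h4, map_zero, mul_zero]
  obtain ⟨v, hv⟩ := hvt a b hD hEu hPID (Gam a b N) hfin zC hzC key
  have h4 : ∀ t : Qf a b ℤ, iC a b (z (uD N (dvd_refl N) e t) k)
      = iC a b (N : Qf a b ℤ) * iC a b t * om (vC a b e) v * vC a b e k := by
    intro t
    have h5 := congrFun (hv (uD N (dvd_refl N) e t)) k
    have h6 : (iG a b (uD N (dvd_refl N) e t).val)
        = tv (vC a b e) (iC a b ((N : Qf a b ℤ) * t)) := Scert_tvC e _
    rw [h6, (p_Vtv ℂ (vC a b e) 0 _).1 v, add_sub_cancel_left] at h5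
    have h7 : iC a b (z (uD N (dvd_refl N) e t) k)
        = iC a b ((N : Qf a b ℤ) * t) * om (vC a b e) v * vC a b e k := h5
    rw [h7, map_mul]
  apply Scert_iC_inj hD
  have h8 : RV N (RingHom.id _) e z k = wq a b ℤ * z (uD N (dvd_refl N) e 1) k
      - z (uD N (dvd_refl N) e (wq a b ℤ)) k := rfl
  rw [h8, map_sub, map_mul, h4, h4, map_one]
  ring

theorem p_Scert (hvt : V_vt) (hlin : S_lin) (hfx : S_fx) : S_cert := by
  intro a b hD hEu hPID hFG hC hB N hN
  classical
  have hdom : IsDomain (Qf a b ℤ) := Qf_domain hD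
  have hfin : (Gam a b N).FiniteIndex := Scert_fin N hN
  have hFG' : Group.FG (Gam a b N) := inferInstance
  obtain ⟨J, hJP, hJ⟩ := hC.fin N hN
  obtain ⟨J₀, n, A, E, hE⟩ := hfx (Qf a b ℤ) (Gam a b N) (Gam a b N).subtype hFG'
  set bf : (Fin 2 → Qf a b ℤ) → Fin n → Qf a b ℤ := fun e i =>
    e 0 * E (uD N (dvd_refl N) e 1) 1 i - e 1 * E (uD N (dvd_refl N) e 1) 0 i with hbf
  set φ : (Fin 2 → Qf a b ℤ) → Fin 2 → Fin n → Qf a b ℤ := fun e k i =>
    wq a b ℤ * E (uD N (dvd_refl N) e 1) k i - E (uD N (dvd_refl N) e (wq a b ℤ)) k i with hφ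
  set A' : J₀ ⊕ {x // x ∈ J} → Fin n → Qf a b ℤ := Sum.elim A (fun j => bf j.1) with hA'
  have hBV : ∀ (K : Type) [CommRing K] (f : Qf a b ℤ →+* K) (v : Fin n → K)
      (e : Fin 2 → Qf a b ℤ), BV N f e (fun x k => ∑ i, f (E x k i) * v i)
        = ∑ i, f (bf e i) * v i := by
    intro K _ f v e
    show f (e 0) * ∑ i, f (E (uD N (dvd_refl N) e 1) 1 i) * v i
      - f (e 1) * ∑ i, f (E (uD N (dvd_refl N) e 1) 0 i) * v i = _
    rw [Finset.mul_sum, Finset.mul_sum, ← Finset.sum_sub_distrib]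
    refine Finset.sum_congr rfl fun i _ => ?_
    rw [hbf]
    simp only [map_sub, map_mul]
    ring
  have hRV : ∀ (K : Type) [CommRing K] (f : Qf a b ℤ →+* K) (v : Fin n → K)
      (e : Fin 2 → Qf a b ℤ) (k : Fin 2), RV N f e (fun x k => ∑ i, f (E x k i) * v i) k
        = ∑ i, f (φ e k i) * v i := by
    intro K _ f v e k
    show f (wq a b ℤ) * ∑ i, f (E (uD N (dvd_refl N) e 1) k i) * v i
      - ∑ i, f (E (uD N (dvd_refl N) e (wq a b ℤ)) k i) * v i = _
    rw [Finset.mul_sum, ← Finset.sum_sub_distrib]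
    refine Finset.sum_congr rfl fun i _ => ?_
    rw [hφ]
    simp only [map_sub, map_mul]
    ring
  have hcl : ∀ (e : Fin 2 → Qf a b ℤ) (k : Fin 2), ∃ (c : Qf a b ℤ)
      (l : (J₀ ⊕ {x // x ∈ J}) →₀ Qf a b ℤ), c ≠ 0 ∧
      ∀ i, c * φ e k i = l.sum fun j x => x * A' j i := by
    intro e k
    apply hlin (Qf a b ℤ) (J₀ ⊕ {x // x ∈ J}) n A' (φ e k)
    intro v hv
    have h1 := (hE (Qf a b ℤ) (RingHom.id _)).2 v (fun j => hv (Sum.inl j))
    have h2 := Scert_rv hvt hD hEu hPID hC hB hN J hJ hJP _ h1 (fun j hj => by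
      rw [hBV]
      exact hv (Sum.inr ⟨j, hj⟩)) e k
    rw [hRV] at h2
    exact h2
  choose c l hc hl using hcl
  refine ⟨J, ∏ e ∈ J, ∏ k, c e k, fun e j k => if hj : j ∈ J then
    ((∏ e' ∈ J.erase e, ∏ k', c e' k') * (∏ k' ∈ Finset.univ.erase k, c e k'))
      * l e k (Sum.inr ⟨j, hj⟩) else 0, ?_, hJP, hJ, ?_⟩
  · exact Finset.prod_ne_zero_iff.2 fun e _ => Finset.prod_ne_zero_iff.2 fun k _ => hc e k
  · intro K _ f z hz e he k
    obtain ⟨v, hv, hzv⟩ := (hE K f).1 z hz
    have hz' : z = fun x k => ∑ i, f (E x k i) * v i := by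
      funext x k
      exact hzv x k
    have hBz : ∀ j, BV N f j z = ∑ i, f (bf j i) * v i := by
      intro j
      rw [hz']
      exact hBV K f v j
    have hRz : RV N f e z k = ∑ i, f (φ e k i) * v i := by
      rw [hz']
      exact hRV K f v e k
    set g : J₀ ⊕ {x // x ∈ J} → K := fun s => f (l e k s) * ∑ i, f (A' s i) * v i with hg
    have h1 : f (c e k) * RV N f e z k = ∑ s ∈ (l e k).support, g s := by
      rw [hRz, Finset.mul_sum, hg]
      have h2 : ∀ i, f (c e k) * (f (φ e k i) * v i)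
          = ∑ s ∈ (l e k).support, f (l e k s) * (f (A' s i) * v i) := by
        intro i
        rw [← mul_assoc, ← map_mul, hl e k i, Finsupp.sum, map_sum, Finset.sum_mul]
        refine Finset.sum_congr rfl fun s _ => ?_
        rw [map_mul, mul_assoc]
      rw [Finset.sum_congr rfl fun i _ => h2 i, Finset.sum_comm]
      refine Finset.sum_congr rfl fun s _ => ?_
      exact (Finset.mul_sum _ _ _).symm
    have hginl : ∀ j, g (Sum.inl j) = 0 := by
      intro j
      show f (l e k (Sum.inl j)) * ∑ i, f (A j i) * v i = 0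
      rw [hv j, mul_zero]
    have hginr : ∀ j : {x // x ∈ J}, g (Sum.inr j) = f (l e k (Sum.inr j)) * BV N f j.1 z := by
      intro j
      rw [hBz]
      rfl
    have h3 : ∑ s ∈ (l e k).support, g s = ∑ j ∈ J.attach, g (Sum.inr j) := by
      have h4 : ∑ j ∈ J.attach, g (Sum.inr j)
          = ∑ s ∈ J.attach.map Function.Embedding.inr, g s := by
        rw [Finset.sum_map]
        rfl
      rw [h4]
      have h5 : ∑ s ∈ (l e k).support, g s
          = ∑ s ∈ (l e k).support ∪ J.attach.map Function.Embedding.inr, g s := by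
        refine Finset.sum_subset Finset.subset_union_left fun s _ hs => ?_
        rw [Finsupp.notMem_support_iff] at hs
        rw [hg]
        show f (l e k s) * _ = 0
        rw [hs, map_zero, zero_mul]
      rw [h5]
      symm
      refine Finset.sum_subset Finset.subset_union_right fun s _ hs => ?_
      rcases s with j | j
      · exact hginl j
      · exfalso
        apply hs
        rw [Finset.mem_map]
        exact ⟨j, Finset.mem_attach _ _, rfl⟩
    have hprod : ∏ e ∈ J, ∏ k, c e k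
        = ((∏ e' ∈ J.erase e, ∏ k', c e' k') * (∏ k' ∈ Finset.univ.erase k, c e k')) * c e k := by
      rw [← Finset.prod_erase_mul J (fun e => ∏ k, c e k) he,
        ← Finset.prod_erase_mul Finset.univ (fun k => c e k) (Finset.mem_univ k)]
      ring
    rw [hprod, map_mul, mul_assoc, h1, h3, Finset.mul_sum,
      ← Finset.sum_attach J (fun j => BV N f j z * f (if hj : j ∈ J then
    ((∏ e' ∈ J.erase e, ∏ k', c e' k') * (∏ k' ∈ Finset.univ.erase k, c e k'))
      * l e k (Sum.inr ⟨j, hj⟩) else 0))]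
    refine Finset.sum_congr rfl fun j _ => ?_
    rw [hginr, dif_pos j.2, map_mul f _ (l e k (Sum.inr ⟨j.1, j.2⟩)), map_mul f _ (∏ k' ∈ _, _)]
    ring

end

end Pool.Agent.F8.CG
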