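import Pool.Agent.Lib.MP_305fdd_al.F8.CG.DefsS

/-!
# MP_305fdd_al, congruence subgroups: block S, the sign, part 1 (crossed homomorphisms)

We show: there are integral crossed homomorphisms of principal congruence subgroups `Γ(N)` for which the number `BV` is zero outside of one cusp `e'` and the number `RV` at the cusp infinity is not zero (`S_edge`). The function `F` of a crossed homomorphism determines it up to coboundaries (`V_vt`), and every function is possible (`S_h1`, from the formula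
for the dimension). The number `r` at infinity is not zero for one function (`S_seed`), and then for a function with support in one cusp (`S_pr`, `S_um`).
-/

set_option autoImplicit false

namespace Pool.Agent.F8.CG

open Pool.Agent.F8.BG Pool.Agent.MP_305fdd_al Pool.Agent.Lib.MP_305fdd_al Pool.Agent.F8
open scoped QuadraticAlgebra ComplexConjugate

noncomputable section

/-! ### Primitive vectors -/

/-- the basic facts about primitive vectors -/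
structure CgF (a b : ℤ) : Prop where
  cop : ∀ e : Fin 2 → Qf a b ℤ, Prm e ↔ IsCoprime (e 0) (e 1)
  act : ∀ (g : GQ a b) (e : Fin 2 → Qf a b ℤ), Prm e → Prm (g.val.mulVec e)
  unit : ∀ (u : Qf a b ℤ) (e : Fin 2 → Qf a b ℤ), IsUnit u → Prm e → Prm (u • e)
  cgr : ∀ (N : ℕ) (e f : Fin 2 → Qf a b ℤ), Prm e → Prm f → Cgr N e f →
    ∃ w ∈ Gam a b N, w.val.mulVec e = f
  gam : ∀ (N : ℕ), ∀ w ∈ Gam a b N, ∀ e : Fin 2 → Qf a b ℤ, Cgr N (w.val.mulVec e) e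
  mul : ∀ (N : ℕ) (g : GQ a b) (e f : Fin 2 → Qf a b ℤ), Cgr N e f →
    Cgr N (g.val.mulVec e) (g.val.mulVec f)
  fin : ∀ N : ℕ, N ≠ 0 → ∃ J : Finset (Fin 2 → Qf a b ℤ), (∀ e ∈ J, Prm e) ∧
    ∀ e, Prm e → ∃ f ∈ J, Cgr N e f
  dec : ∀ e : Fin 2 → Qf a b ℤ, e ≠ 0 → ∃ (l : Qf a b ℤ) (f : Fin 2 → Qf a b ℤ), l ≠ 0 ∧
    Prm f ∧ e = l • f
  uni : ∀ (l l' : Qf a b ℤ) (f f' : Fin 2 → Qf a b ℤ), l ≠ 0 → Prm f → Prm f' → l • f = l' • f' →
    ∃ u, IsUnit u ∧ f' = u • f ∧ l = u * l'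
  un : ∀ (N : ℕ) (u : Qf a b ℤ), 3 ≤ N → IsUnit u → (N : Qf a b ℤ) ∣ u - 1 → u = 1
  sq : ∀ (N : ℕ) (u : Qf a b ℤ), 3 ≤ N → IsUnit u → (N : Qf a b ℤ) ∣ u ^ 2 - 1 → u = 1 ∨ u = -1

/-- [CG S cg] primitive vectors.

Proof. cop: from `x e₀ + y e₁ = 1` take the matrix `[[e₀, -y], [e₁, x]]`; conversely the determinant. act: `g * g'`. unit: `g' * diag(u, u⁻¹)`. cgr: `g e₁ = e`, `g' e₁ = f` (`e₁ = (1, 0)`, first columns), `k = g⁻¹ g'` has the first column congruent to `(1, 0)`, so `k = [[1, x], [0, 1]]` modulo `N` for some `x` (determinant one) and `w = g (k * eU (-x)) g⁻¹ ∈ Gam a b N` (normal), `w e = g k e₁ = f`.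
gam, mul: entries of `w` modulo `N` (`BG.E_ker`: `w = 1 + N Y`). fin: the residue classes modulo `N` are finite in number (`Qf a b (ZMod N)` is finite); choose a primitive vector in every residue class of vectors modulo `N` which contains one. dec: a principal ideal domain (`BG.Qf_domain`): `l` is a generator of the ideal `(e₀, e₁)`. uni: `l` divides `l' f'_i`, `i = 0, 1`, so `l ∣ l'` (`f'` primitive) and vice versa. un: `C_un` (`p_Cun`).
sq: `u ^ 2` is a unit, so `u ^ 2 = 1` by un, a domain. -/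
def S_cg : Prop := ∀ a b : ℤ, b ^ 2 + 4 * a < 0 → IsPrincipalIdealRing (Qf a b ℤ) → CgF a b

/-- the basic facts about the functionals `BV` and `RV` -/
structure BvF (a b : ℤ) : Prop where
  /-- invariance -/
  inv : ∀ (N : ℕ) (K : Type) [CommRing K] (f : Qf a b ℤ →+* K), ∀ z ∈ Z1S N f,
    ∀ w ∈ Gam a b N, ∀ e : Fin 2 → Qf a b ℤ, BV N f (w.val.mulVec e) z = BV N f e z ∧
    RV N f (w.val.mulVec e) z = (SLm f w).val.mulVec (RV N f e z)
  /-- translations -/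
  tra : ∀ (N : ℕ) (K : Type) [CommRing K] (f : Qf a b ℤ →+* K), ∀ z ∈ Z1S N f,
    ∀ g : GQ a b, ∃ z' ∈ Z1S N f, ∀ e : Fin 2 → Qf a b ℤ,
    BV N f (g.val.mulVec e) z' = BV N f e z ∧
    RV N f (g.val.mulVec e) z' = (SLm f g).val.mulVec (RV N f e z)
  /-- all multiples -/
  mul : ∀ (N : ℕ), N ≠ 0 → ∀ (K : Type) [CommRing K] [IsDomain K] (f : Qf a b ℤ →+* K),
    Function.Injective f → ∀ z ∈ Z1S N f, ∀ (e : Fin 2 → Qf a b ℤ) (t : Qf a b ℤ),
    om (fun i => f (e i)) (z (uD N (dvd_refl N) e t)) = f t * BV N f e z ∧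
    BV N f (t • e) z = f t ^ 3 * BV N f e z
  /-- the vector `RV` is a multiple of `e` -/
  rv : ∀ (N : ℕ), N ≠ 0 → ∀ z ∈ Z1S N (RingHom.id (Qf a b ℤ)), ∀ e : Fin 2 → Qf a b ℤ, Prm e →
    BV N (RingHom.id _) e z = 0 → ∃ r : Qf a b ℤ, RV N (RingHom.id _) e z = r • e

/-- [CG S bv] the functionals. (Cite `p_Vtv`.)

Proof. Write `p_t = uD N e t = tv e (N t)`, `ω = om`. Rules: `z 1 = 0`; `z (x p x⁻¹) = z x + x z p - x p x⁻¹ z x = x z p - (x p x⁻¹ - 1) z x`; `(tv e s - 1) v = s ω(e, v) e`. inv: `x = w`, `w tv e s w⁻¹ = tv (w e) s`: `z (tv (w e) s) = w z (tv e s) - s ω(w e, z w) (w e)` (over `K`), apply `ω(w e, ·)`; for `RV`: `w_q · N - N w_q = 0` (`w_q = wq a b ℤ`). tra: `z' x = g z (g⁻¹ x g)`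
(`Gam a b N` is normal), `z' (tv (g e) s) = g z (tv e s)`. mul: `p_1`, `p_t` commute: `z p_1 + p_1 z p_t = z p_t + p_t z p_1`, so `N ω(e, z p_t) e = N f(t) ω(e, z p_1) e`; if `e ≠ 0` cancel `f N ≠ 0` and a nonzero coordinate (if `e = 0` both sides are zero). Second claim: `tv (t e) N = tv e (N t²)`, `ω(t e, ·) = f(t) ω(e, ·)`. rv: `ω(e, z p_1) = 0`, so `ω(e, z p_t) = 0` by mul and `ω(e, RV) = 0`; a vector `v` over the ring with
`ω(e, v) = 0`, `e` primitive (`x e₀ + y e₁ = 1`), is `v = (x v₀ + y v₁) e`. -/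
def S_bv : Prop := ∀ a b : ℤ, b ^ 2 + 4 * a < 0 → CgF a b → BvF a b

/-! ### Existence of crossed homomorphisms -/

/-- [CG S h1] crossed homomorphisms with a given function, for principal congruence subgroups. (Uses `V_vt`; cite `p_Vtv`.)

Proof. `W = Gam a b N ≤ Gam a b M₀` has finite index, `LD` gives `dim Z1C = 2 + #Cusp W`. As in `P_Uub.lean`: for `i : Cusp W` let `g_i` be a representative, `d_i = colG g_i 0`, `p_i = tv d_i N ∈ W`, and `B : Z1C W.subtype → (Cusp W → ℂ)`, `(B z) i = ω(vC d_i, z p_i) / N`. The kernel of `B` is contained in the space of coboundaries (see the proof of `U_ub` in `P_Uub.lean`; it uses `V_vt`), of dimension at most two, so the rank of `B` is at least `#Cusp W`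
and `B` is surjective. Choose `z` with `(B z) i = F d_i` for all `i`. Let `e`, `t` be given with `tv e t ∈ W`; if `e = 0` both sides are zero (`F 0 = F (0 • 0) = 0`). Otherwise `e = l • d`, `d = colG g 0` (a principal ideal domain), and there are `i`, `x ∈ W`, `k ∈ Bor` with `g = x g_i k`, so `d = u • x d_i` with a unit `u`, `e = l' • x d_i`, `l' = l u`. `tv e t = x tv d_i (l'² t) x⁻¹`, `q = tv d_i (l'² t) ∈ W` (normal).
`ω(e, z (x q x⁻¹)) = l' ω(x d_i, x z q - (x q x⁻¹ - 1) z x) = l' ω(d_i, z q)`, and `q`, `p_i` commute, so `N ω(d_i, z q) = l'² t ω(d_i, z p_i) = l'² t N F d_i`. So the value is `l'³ t F d_i = t F (l' • d_i) = t F (l' • x d_i) = t F e`. -/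
def S_h1 : Prop := ∀ a b : ℤ, b ^ 2 + 4 * a < 0 → Eu a b → IsPrincipalIdealRing (Qf a b ℤ) →
  ∀ M₀ : ℕ, LD a b M₀ → ∀ N : ℕ, N ≠ 0 → M₀ ∣ N → ∀ F : (Fin 2 → Qf a b ℤ) → ℂ, Hom3 F →
  (∀ w ∈ Gam a b N, ∀ e, F (w.val.mulVec e) = F e) → ∃ z ∈ Z1C (Gam a b N).subtype,
  ∀ (e : Fin 2 → Qf a b ℤ) (t : Qf a b ℤ) (h : tv e t ∈ Gam a b N),
    om (vC a b e) (z ⟨_, h⟩) = iC a b t * F e

/-- [CG S ext] crossed homomorphisms with a given function, for all subgroups of finite index. (Uses `V_vt`, `S_h1`; cite `p_Vtv`.)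

Proof. Let `z` be from `S_h1` for `N`, `W = Gam a b N`. For `g ∈ W₀` let `z_g w = g z (g⁻¹ w g)`, a crossed homomorphism of `W` (normal) with the function `F (g⁻¹ e)`: `ω(e, g z (tv (g⁻¹ e) t)) = ω(g⁻¹ e, z (tv (g⁻¹ e) t)) = t F (g⁻¹ e) = t F e`. So `z_g - z` is a crossed homomorphism with `ω(e, (z_g - z)(tv e t)) = 0`, and by `V_vt` there is `v` with `z_g w - z w = w v - v`; `v` is unique (if `w v = v` for all `w ∈ W` then `v = 0`,
take `w = eU N`, `eV N`); let `Z g = v`. Then `Z (g g') = Z g + g Z g'`: `z_(g g') w = g z_(g') (g⁻¹ w g) = g (z (g⁻¹ w g) + (g⁻¹ w g - 1) Z g') = z_g w + (w - 1) g Z g' = z w + (w - 1) (Z g + g Z g')`, uniqueness. `Z g = z g` for `g ∈ W`: `g z (g⁻¹ w g) = g (- g⁻¹ z g + g⁻¹ z w + g⁻¹ w z g) = z w + (w - 1) z g`. If `tv e t ∈ W₀`: for `p = tv e t`, `p ^ N = tv e (N t) ∈ W`,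
`ω(e, Z (p ^ N)) = N ω(e, Z p)` (`ω(e, p v) = ω(e, v)`), and it is `N t F e`. -/
def S_ext : Prop := ∀ a b : ℤ, b ^ 2 + 4 * a < 0 → Eu a b → IsPrincipalIdealRing (Qf a b ℤ) →
  ∀ M₀ : ℕ, LD a b M₀ → ∀ N : ℕ, N ≠ 0 → M₀ ∣ N → ∀ W₀ : Subgroup (GQ a b),
  Gam a b N ≤ W₀ → ∀ F : (Fin 2 → Qf a b ℤ) → ℂ, Hom3 F →
  (∀ w ∈ W₀, ∀ e, F (w.val.mulVec e) = F e) → ∃ z ∈ Z1C W₀.subtype,
  ∀ (e : Fin 2 → Qf a b ℤ) (t : Qf a b ℤ) (h : tv e t ∈ W₀),
    om (vC a b e) (z ⟨_, h⟩) = iC a b t * F e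

/-- the facts about `SF` -/
structure SFF (a b : ℤ) : Prop where
  /-- linearity -/
  lin : ∀ (F F' : (Fin 2 → Qf a b ℤ) → ℂ) (r r' c : ℂ), SF F r → SF F' r' →
    SF (fun e => F e + c * F' e) (r + c * r')
  /-- uniqueness -/
  uq : ∀ (F : (Fin 2 → Qf a b ℤ) → ℂ) (r r' : ℂ), SF F r → SF F r' → r = r'
  /-- existence -/
  ex : ∀ (N : ℕ) (F : (Fin 2 → Qf a b ℤ) → ℂ), N ≠ 0 → FN N F → ∃ r, SF F r
  /-- the action of `diag(μ, 1)` -/
  mu0 : ∀ (F : (Fin 2 → Qf a b ℤ) → ℂ) (r : ℂ) (μ : Qf a b ℤ), μ ≠ 0 → SF F r →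
    SF (fun e => (iC a b μ)⁻¹ * F ![μ * e 0, e 1]) (conj (iC a b μ) * r)
  /-- the action of `diag(1, μ)` -/
  mu1 : ∀ (F : (Fin 2 → Qf a b ℤ) → ℂ) (r : ℂ) (μ : Qf a b ℤ), μ ≠ 0 → SF F r →
    SF (fun e => ((iC a b μ)⁻¹) ^ 2 * F ![e 0, μ * e 1]) ((conj (iC a b μ))⁻¹ * r)

/-- [CG S sfl] linearity and uniqueness. (Uses `V_vt`.)

Proof. lin: restrict both crossed homomorphisms to `Gam a b (N * N')` (`⊆` both) and add. uq: let `z`, `z'` on `Gam a b (N * N')` be the two crossed homomorphisms; the difference has the function zero, so by `V_vt` it is `w ↦ w v - v`; at `eU t`: `(t v₁, 0)`. So `(r₀ - r₀') t + (r - r') conj t = v₁ t` for all `t` divisible by `N N'`; for `t = N N'` and `t = N N' w` this gives `(r - r') (conj wC - wC) = 0`, and `wC ≠ conj wC` (`wC_im`). -/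
def S_sfl : Prop := ∀ a b : ℤ, b ^ 2 + 4 * a < 0 → Eu a b → IsPrincipalIdealRing (Qf a b ℤ) →
  (∀ (F F' : (Fin 2 → Qf a b ℤ) → ℂ) (r r' c : ℂ), SF F r → SF F' r' →
    SF (fun e => F e + c * F' e) (r + c * r')) ∧
  ∀ (F : (Fin 2 → Qf a b ℤ) → ℂ) (r r' : ℂ), SF F r → SF F r' → r = r'

/-- [CG S sfe] existence. (Uses `S_h1`.)

Proof. `N' = N * M₀` (`≠ 0`). `F` is invariant under `Gam a b N'`: for `e = 0` clear; `e = l • f` with `f` primitive (`CgF.dec`): `w f` is primitive and congruent to `f` modulo `N` (`CgF.act`, `CgF.gam`), so `F (w f) = F f` by `FN.lev`, `F (w e) = l³ F (w f) = l³ F f = F e`. `S_h1` gives `z` on `Gam a b N'`. For `eU t ∈ Gam a b N'`, `eU t = tv (1, 0) t` (`eU_eq_tv`): `ω((1, 0), z) = z₁ = t F (1, 0) = 0`, so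
`z (eU t) = (c t, 0)`, and `c (s + t) = c s + c t` (`eU s (c t, 0) = (c t, 0)`). `eU t ∈ Gam a b N'` iff `t = N' t'`; so `c (N' (i + j w)) = i c(N') + j c(N' w)`, and this is `r₀ N' (i + j wC) + r N' conj (i + j wC)` for the solution `r₀`, `r` of the two linear equations for `t' = 1`, `t' = w` (the determinant is `N'² (conj wC - wC) ≠ 0`, `wC_im`). -/
def S_sfe : Prop := ∀ a b : ℤ, b ^ 2 + 4 * a < 0 → Eu a b → IsPrincipalIdealRing (Qf a b ℤ) →
  CgF a b → ∀ M₀ : ℕ, M₀ ≠ 0 → LD a b M₀ →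
  ∀ (N : ℕ) (F : (Fin 2 → Qf a b ℤ) → ℂ), N ≠ 0 → FN N F → ∃ r, SF F r

/-- [CG S sfg] the action of diagonal matrices.

Proof. Let `g = diag(g₀, g₁)` with `(g₀, g₁) = (μ, 1)` or `(1, μ)`, `D = det g = μ`, `n = nq μ > 0` (`BG.mul_cjq`). Let `z` be the crossed homomorphism for `F`, of `Gam a b N`. For `x = [[p, q], [r, s]] ∈ Gam a b (N * n)` let `c x = g x g⁻¹ = [[p, g₀ q / g₁], [g₁ r / g₀, s]]`, defined because `q`, `r` are divisible by `N n` and `μ ∣ n`; it is in `Gam a b N`, and `c` is a homomorphism (`c x * g = g * x`, cancel). `z' x = g⁻¹ z (c x)` (over `ℂ`),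
a crossed homomorphism for `x`. `c (tv e t) = tv (g e) (t / D)` (if `tv e t ∈ Gam a b (N n)` and `e` is primitive then `N n ∣ t`; in general let `s ∈ SL₂` be the matrix `c (tv e t)`, and compute over `ℂ`: for `e = l • f`, `f` primitive, `tv e t = tv f (l² t)`, `N n ∣ l² t`; this case reduces to the primitive case, both sides of the claim are multiplied by `l³`, as `F` restricted to the multiples of `f` satisfies `t F (l • f) = ω(l f, z (tv f (l² t))) = l³ t F f`; use `t = N`).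
`ω(e, g⁻¹ v) = D⁻¹ ω(g e, v)`. So `ω(e, z' (tv e t)) = D⁻¹ ω(g e, z (tv (g e) (t / D))) = D⁻² t F (g e)`. At `eU t`: `c (eU t) = eU (g₀ t / g₁)`, `z' (eU t) = (g₀⁻¹ (r₀ g₀ t / g₁ + r conj (g₀ t / g₁)), 0)`: the coefficient of `conj t` is `r conj g₀ / (g₀ conj g₁)`. For `g = diag(1, μ)` this is the second claim. For `g = diag(μ, 1)` the function is `μ⁻² F (μ e₀, e₁)` and the number `r conj μ / μ`; multiply with `μ`. -/
def S_sfg : Prop := ∀ a b : ℤ, b ^ 2 + 4 * a < 0 → IsPrincipalIdealRing (Qf a b ℤ) → CgF a b →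
  ∀ (F : (Fin 2 → Qf a b ℤ) → ℂ) (r : ℂ) (μ : Qf a b ℤ), μ ≠ 0 → SF F r →
    SF (fun e => (iC a b μ)⁻¹ * F ![μ * e 0, e 1]) (conj (iC a b μ) * r) ∧
    SF (fun e => ((iC a b μ)⁻¹) ^ 2 * F ![e 0, μ * e 1]) ((conj (iC a b μ))⁻¹ * r)

/-! ### The seeds -/

/-- the group of the matrices which are congruent to upper unitriangular matrices modulo `ν` -/
def W1 {a b : ℤ} (ν : Qf a b ℤ) : Subgroup (GQ a b) where
  carrier := {g | ν ∣ g.val 1 0 ∧ ν ∣ g.val 0 0 - 1 ∧ ν ∣ g.val 1 1 - 1}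
  mul_mem' := by
    rintro g h ⟨⟨x1, h1⟩, ⟨x2, h2⟩, ⟨x3, h3⟩⟩ ⟨⟨y1, k1⟩, ⟨y2, k2⟩, ⟨y3, k3⟩⟩
    have hm : ∀ i k, (g * h).val i k = g.val i 0 * h.val 0 k + g.val i 1 * h.val 1 k := fun i k => by
      show (g.val * h.val) i k = _
      rw [Matrix.mul_apply, Fin.sum_univ_two]
    refine ⟨?_, ?_, ?_⟩
    · rw [hm]
      exact ⟨x1 * h.val 0 0 + g.val 1 1 * y1, by rw [h1, k1]; ring⟩
    · rw [hm]
      exact ⟨x2 * h.val 0 0 + y2 + g.val 0 1 * y1, by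
        rw [k1]
        linear_combination h.val 0 0 * h2 + k2⟩
    · rw [hm]
      exact ⟨x1 * h.val 0 1 + x3 * h.val 1 1 + y3, by
        rw [h1]
        linear_combination h.val 1 1 * h3 + k3⟩
  one_mem' := by
    refine ⟨?_, ?_, ?_⟩
    · show ν ∣ (1 : Matrix (Fin 2) (Fin 2) (Qf a b ℤ)) 1 0
      simp
    · show ν ∣ (1 : Matrix (Fin 2) (Fin 2) (Qf a b ℤ)) 0 0 - 1
      simp
    · show ν ∣ (1 : Matrix (Fin 2) (Fin 2) (Qf a b ℤ)) 1 1 - 1
      simp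
  inv_mem' := by
    rintro g ⟨h1, h2, h3⟩
    have hi : (g⁻¹).val = !![g.val 1 1, -g.val 0 1; -g.val 1 0, g.val 0 0] := by
      rw [Matrix.SpecialLinearGroup.SL2_inv_expl]
      rfl
    refine ⟨?_, ?_, ?_⟩
    · rw [hi]
      show ν ∣ -g.val 1 0
      exact (dvd_neg).2 h1
    · rw [hi]
      exact h3
    · rw [hi]
      exact h2

/-- [CG S sd0] the crossed homomorphism for the seeds. (Uses `S_ext`.)

Proof. Let `F e = l³ u³` if `e = l • f`, `f` primitive, `u` a unit with `ν ∣ f₁ - u`, and `F e = 0` if there is no such `l, f, u`. Well defined: if `e = l • f = l' • f'` then `f' = v f`, `l = v l'` with a unit `v` (`CgF.uni`), `ν ∣ v f₁ - u'` so `ν ∣ v u - u'`, `u' = v u` by the hypothesis, `l³ u³ = l'³ u'³`. (`F 0 = 0`.) `Hom3 F` is clear. `F (g e) = F e` for `g ∈ W1 ν`: `g f` is primitive and its second coordinate is congruent to `f₁` modulo `ν`.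
`F (1, 0) = 0` as `ν` is not a unit, `F (0, 1) = 1`. `Gam a b N ≤ W1 ν` for `N = nq ν * M₀` (`ν ∣ nq ν`, `BG.mul_cjq`), `FN N F`. `S_ext` gives `Z`. `eU t = tv (1, 0) t`: `ω((1, 0), Z) = Z₁ = 0`, so `Z (eU t) = (c t, 0)`, `c` additive, `c t = r₀ t + r₁ conj t` as in `S_sfe`. `eV c = tv (0, 1) (-c)`: `ω((0, 1), v) = - v₀`, so `Z (eV c)₀ = c`. `κ c = Z (eV c)₁` satisfies `κ (c + c') = κ c + c c' + κ c'`
(`eV c (c', κ c') = (c', c c' + κ c')`), so `κ c - c² / 2` is additive on `ν ℤ[w]`, so it is `s₀ c + s₁ conj c` (divide by `ν`). `SF F r₁`: restrict `Z` to `Gam a b N`. -/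
def S_sd0 : Prop := ∀ a b : ℤ, b ^ 2 + 4 * a < 0 → Eu a b → IsPrincipalIdealRing (Qf a b ℤ) →
  CgF a b → ∀ M₀ : ℕ, M₀ ≠ 0 → LD a b M₀ → ∀ ν : Qf a b ℤ, ν ≠ 0 → ¬ IsUnit ν →
  (∀ u u' : Qf a b ℤ, IsUnit u → IsUnit u' → ν ∣ u - u' → u = u') →
  ∃ (N : ℕ) (F : (Fin 2 → Qf a b ℤ) → ℂ) (r₀ r₁ s₀ s₁ : ℂ), N ≠ 0 ∧ FN N F ∧ SF F r₁ ∧
  ∃ Z ∈ Z1C (W1 ν).subtype,
    (∀ (t : Qf a b ℤ) (h : eU t ∈ W1 ν), Z ⟨_, h⟩ =
      ![r₀ * iC a b t + r₁ * conj (iC a b t), 0]) ∧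
    ∀ (c : Qf a b ℤ) (h : eV c ∈ W1 ν), Z ⟨_, h⟩ =
      ![iC a b c, iC a b c ^ 2 / 2 + s₀ * iC a b c + s₁ * conj (iC a b c)]

/-- [CG S sd1] the seeds for `d = 1, 2, 3`. (Uses `S_sd0`.)

Proof. In each case `ν` is given, and a relation between elements `eU t` and `eV c`, `ν ∣ c` (all of them are in `W1 ν`); the first component of `Z` of the relation (expand with `Z (x y) = Z x + x Z y`, `Z 1 = 0`) is a linear equation for `r₁`, with `r₁ ≠ 0`. `W = wC a b`, `conj W = b - W` (`wC_eq`), `W² = a + b W`; `w = wq a b ℤ`. (1) `a = -1, b = 0`: `ν = 2 - w`, `eU(-1) eV(1+2w) eU(w) eV(1+2w) eU(-1) eV(2-w) = 1`, equation `-4 r₁ + 7 - W = 0`.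
(2) `a = -2, b = 0`: `ν = 1 - w`, `eU(-1) eV(1-w) eU(-w) eV(1-w) eU(-1) eV(2+w) = 1`, `-4 r₁ + 5 + W = 0`. (3) `a = -1, b = -1`: `ν = 2 - w`, `eU(-1) eV(3+2w) eU(w) eV(3+2w) eU(-1) eV(2-w) = 1`, `(-2 + 2 W) r₁ + 3 - 5 W = 0`. (`Im W ≠ 0`, `wC_im`, so the numbers `7 - W`, `5 + W`, `3 - 5 W` are not zero.) The units: their norm `nq u = re² + b re im - a im²` is `1`; so they are `±1, ±w`; `±1`; `±1, ±w, ±(1 + w)`; `ν` has the norm `5`, `3`, `7`.
If `ν ∣ u - u'` then `nq ν ∣ nq (u - u')`, check all pairs (`nq (u - u') ≤ 4`). `PA a b 1` with `F`, `N`, `r₁` from `S_sd0`. -/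
def S_sd1 : Prop := ∀ a b : ℤ, (a = -1 ∧ b = 0) ∨ (a = -2 ∧ b = 0) ∨ (a = -1 ∧ b = -1) →
  Eu a b → IsPrincipalIdealRing (Qf a b ℤ) → CgF a b → ∀ M₀ : ℕ, M₀ ≠ 0 →
  LD a b M₀ → PA a b 1

/-- [CG S sd2] the seeds for `d = 7, 11`. (Uses `S_sd0`.)

Proof. As `S_sd1`. `W = wC a b`, `conj W = b - W`. (1) `a = -2, b = -1`: `ν = 1 - w` (of norm `4`), `eU(-1) eV(1-w) eU(-1-w) eV(1-w) eU(-1) eV(3+w) = 1` (`3 + w = (1 + w)(1 - w)`), equation `(-4 - W) r₁ + 6 + 2 W = 0`. (2) `a = -3, b = 1`: `ν = w` (of norm `3`), `eU(-1) eV(w) eU(1) eV(-w) eU(-w) eV(-w) eU(1) eV(w) eU(-1) eV(3-w) = 1` (`3 - w = - w²`), `(2 - 4 W) r₁ + 3 + 2 W = 0`.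
The units are `±1`; `nq 2 = 4`; in the first case `2` is not divisible by `1 - w` (`2 = (1 - w) x` has no solution), in the second case `3` does not divide `4`. -/
def S_sd2 : Prop := ∀ a b : ℤ, (a = -2 ∧ b = -1) ∨ (a = -3 ∧ b = 1) →
  Eu a b → IsPrincipalIdealRing (Qf a b ℤ) → CgF a b → ∀ M₀ : ℕ, M₀ ≠ 0 →
  LD a b M₀ → PA a b 1

/-! ### One cusp -/

/-- [CG S pr] one prime.

Proof. Notation: `ρ`-value of `F` = the unique `r` with `SF F r` (`SFF.ex`, `SFF.uq`; linear by `SFF.lin`). For a property `P` of primitive vectors which depends only on the class modulo `N'` and is invariant under units let `F_P e = F e` if `e = l • f`, `l ≠ 0`, `f` primitive with `P f`, and `0` otherwise; if `FN N F` then `FN (N * N') F_P` (`CgF.uni`). If `π ∣ A` then `IsCoprime x A` implies `IsCoprime x (π A)` and there is nothing to show; let `¬ π ∣ A`.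
Suppose the claim is false: (†) `FN N G`, `G e ≠ 0 → IsCoprime (e 1) (π A)` for primitive `e`, `SF G r'` imply `r' = 0`.
(1) If `FN N F'`, `SF F' r'`, and for primitive `e` with `F' e ≠ 0` `e₁` is prime to `A`, `π ^ j ∣ e₁`, `¬ π ^ (j+1) ∣ e₁` then `r' = 0`. Proof: `μ = π ^ j`, `G e = μ⁻² F' (e₀, μ e₁)`; `SF G (μ̄⁻¹ r')` (`SFF.mu1`). For `e` primitive `(e₀, μ e₁) = c • p`, `p` primitive, and `c ∣ μ` (from `x e₀ + y e₁ = 1`: `μ = μ x e₀ + y (μ e₁)`). Level: let `e`, `f` be primitive and congruent modulo `N nq μ`, `(f₀, μ f₁) = d • q`. `c ∣ μ ∣ nq μ`, so `c` divides the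
coordinates of `d • q`, `c ∣ d`; in the same way `d ∣ c`, so we may take `d = c` (replace `q` by a unit multiple), and `N nq μ ∣ c (p_i - q_i)`, `c ∣ nq μ` gives `N ∣ p_i - q_i`; `F' (c • p) = c³ F' p = c³ F' q`. So `FN (N nq μ) G`. Support: `e` primitive, `G e ≠ 0`, so `F' p ≠ 0`, `p₁` has the valuation `j` at `π`, `π ^ j e₁ = c p₁`, `c` is associated to `π ^ i`, so `v(e₁) = i`; `c ∣ e₀`, so `i = 0` (otherwise `π` divides `e₀`, `e₁`).
So `c` is a unit, `π` does not divide `e₁`, and `e₁ ∣ p₁` is prime to `A`. By (†) `μ̄⁻¹ r' = 0`.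
(2) If `FN N F'`, `SF F' r'` and for primitive `e` with `F' e ≠ 0` `e₁` is prime to `A` and `¬ π ^ K ∣ e₁` then `r' = 0`. Induction on `K`: `K = 0`: `F' = 0`, `SF 0 0`. `K + 1`: `F' = F'_P + F'_(not P)`, `P f = (π ^ K ∣ f₁)` (it depends on the class modulo `nq (π ^ K)`); the values are zero by (1) and by induction.
(3) Let `F`, `N`, `r ≠ 0` be from `PA a b A`. `N = π ^ n N'` with `¬ π ∣ N'`; `π` is a unit modulo `N'` (`π` is prime, a principal ideal domain), the ring modulo `N'` is finite, so there is `s ≥ 1` with `N' ∣ π ^ s - 1`. `μ = π ^ s`, `D e = μ⁻¹ F (μ e₀, e₁) - μ² F e`: `SF D (μ̄ r - μ² r)` (`SFF.mu0`, `SFF.lin`), `FN (N nq μ) D` (as in (1)), and for `e` primitive with `D e ≠ 0`: `e₁` is prime to `A` (if `F (μ e₀, e₁) ≠ 0`, `(μ e₀, e₁) = c • p`, `c ∣ μ` then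
`e₁ = c p₁`, and `c ∣ π ^ s` is prime to `A`), and `¬ π ^ (n + s) ∣ e₁`: otherwise `e₁ = μ q`, `π ^ n ∣ q`, `(μ e₀, e₁) = μ • (e₀, q)`, `(e₀, q)` is primitive and congruent to `e` modulo `N` (`q - μ q` is divisible by `π ^ n` and by `N'`), so `D e = μ⁻¹ μ³ F (e₀, q) - μ² F e = 0`. By (2): `μ̄ r = μ² r`, so `|μ| = |μ|²`, `|μ| = 1`; but `|iC μ|² = nq μ = (nq π) ^ s > 1`. -/
def S_pr : Prop := ∀ a b : ℤ, b ^ 2 + 4 * a < 0 → IsPrincipalIdealRing (Qf a b ℤ) → CgF a b →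
  SFF a b → ∀ A π : Qf a b ℤ, A ≠ 0 → Prime π → PA a b A → PA a b (π * A)

/-- [CG S um] one cusp.

Proof. `PA` gives `N'`, `F`, `r`; `N = N' * N₁ * N₀`. `FN N F`. `J = {j_1, ..., j_n}` from `CgF.fin` for `N`. For `f` primitive write `f ~ j` if `Cgr N f (u • j)` for a unit `u`; this depends only on the class of `f` modulo `N` and is invariant under units. `P_k f`: `f ~ j_i` for some `i ≤ k`; `F_k = F_(P_k)` (notation of the proof of `S_pr`), `FN N F_k`, `F_n = F` and `F_0 = 0` (both functions are homogeneous, compare them on primitive vectors). So there is `k` such that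
the value of `F_k - F_(k-1)` is not zero (`SFF.ex`, `SFF.lin`, `SFF.uq`). This function is `F_P` with `P f = (f ~ j_k and not P_(k-1) f)`. Let `e' = j_k`. There is a primitive `f` with `F f ≠ 0`, `f ~ j_k`, so `f₁` is prime to `N₀`, and `f₁` is congruent to `u (j_k)₁` modulo `N₀`. -/
def S_um : Prop := ∀ a b : ℤ, b ^ 2 + 4 * a < 0 → IsPrincipalIdealRing (Qf a b ℤ) → CgF a b →
  SFF a b → ∀ N₀ N₁ : ℕ, N₀ ≠ 0 → N₁ ≠ 0 → PA a b (N₀ : Qf a b ℤ) →
  ∃ (N : ℕ) (F : (Fin 2 → Qf a b ℤ) → ℂ) (r : ℂ) (e' : Fin 2 → Qf a b ℤ), N ≠ 0 ∧ N₀ ∣ N ∧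
    N₁ ∣ N ∧ FN N F ∧ SF F r ∧ r ≠ 0 ∧ Prm e' ∧ IsCoprime (e' 1) (N₀ : Qf a b ℤ) ∧
    ∀ f, Prm f → F f ≠ 0 → ∃ u : Qf a b ℤ, IsUnit u ∧ Cgr N f (u • e')

/-! ### Integral crossed homomorphisms -/

/-- [CG S lin] linear algebra over a domain.

Proof. Let `K` be the field of fractions of `R`, `V` the span of the vectors `A j` in `K^n` (finite dimensional). If `φ ∉ V` (over `K`) there is a linear form on `K^n` which vanishes on `V` and not at `φ` (`Submodule.exists_dual_forall_apply_eq_zero_iff` or similar), given by a vector `v : Fin n → K`; multiply it with a common denominator: `v' : Fin n → R`, a contradiction. So `φ ∈ V`, `φ = ∑ λ_j A_j`, a finite sum, and multiply with a common denominator `c`. -/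
def S_lin : Prop := ∀ (R J : Type) [CommRing R] [IsDomain R] (n : ℕ) (A : J → Fin n → R)
  (φ : Fin n → R), (∀ v : Fin n → R, (∀ j, ∑ i, A j i * v i = 0) → ∑ i, φ i * v i = 0) →
  ∃ (c : R) (l : J →₀ R), c ≠ 0 ∧ ∀ i, c * φ i = l.sum fun j x => x * A j i

/-- [CG S fx] the crossed homomorphisms as solutions of linear equations. (Compare `CC_fx`, `P_CCfx.lean`.)

Proof. As `CC_fx`, for commutative rings `K`: let `s : Fin m → G` be generators, `π : FreeGroup (Fin m) →* G`, `D w i` the matrices (Fox derivatives) with `z w = ∑ i, (f (D w i)) (z (of i))` for every crossed homomorphism `z` of the free group for `(SLm f).comp (ρ.comp π)`; for all `v` the right hand side is a crossed homomorphism. `n = 2 m`, `A (w, k)`, `w ∈ π.ker`, are the equations `z w = 0`, and `E x k` is the row for `z w`, `π w = x` (choose `w` for every `x : G`). If `v` is a solution then `z w` depends only on `π w`. -/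
def S_fx : Prop := ∀ (R G : Type) [CommRing R] [Group G] (ρ : G →* SL2 R), Group.FG G →
  ∃ (J : Type) (n : ℕ) (A : J → Fin n → R) (E : G → Fin 2 → Fin n → R), ∀ (K : Type) [CommRing K]
    (f : R →+* K), (∀ z ∈ Z1K ((SLm f).comp ρ), ∃ v : Fin n → K, (∀ j, ∑ i, f (A j i) * v i = 0) ∧
      ∀ x k, z x k = ∑ i, f (E x k i) * v i) ∧
    ∀ v : Fin n → K, (∀ j, ∑ i, f (A j i) * v i = 0) →
      (fun x k => ∑ i, f (E x k i) * v i) ∈ Z1K ((SLm f).comp ρ)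

/-- [CG S int] integral crossed homomorphisms. (Uses `S_lin`, `S_fx`.)

Proof. `G = Gam a b N` is finitely generated (finite index in `GQ a b`). `n`, `A`, `E` from `S_fx` for `ρ = (Gam a b N).subtype`, `R = Qf a b ℤ`. `BV N f e z` and `RV N f e z k` are linear forms in `v` with coefficients in `R` (`f` of them): `BV`: `b_e i = e 0 * E (uD e 1) 1 i - e 1 * E (uD e 1) 0 i`; `RV`: `w * E (uD e 1) k i - E (uD e w) k i`. Suppose that every integral `z` with `BV e z = 0` for `e ∈ S` satisfies `ψ z = 0` (`ψ = BV e₀` or the component `k` of `RV e₀`).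
By `S_lin` for the system `A ∪ {b_e, e ∈ S}` there is `c ≠ 0` with `c ψ = ` a combination of the equations, so `ψ z = 0` for all complex `z` with `BV e z = 0` for `e ∈ S` (`iC` is injective, `iC_inj` in the library or `wC_im`), which is a contradiction. -/
def S_int : Prop := ∀ a b : ℤ, b ^ 2 + 4 * a < 0 → Group.FG (GQ a b) → ∀ N : ℕ, N ≠ 0 → ∀ (S : Set (Fin 2 → Qf a b ℤ)) (e₀ : Fin 2 → Qf a b ℤ),
  ∀ z ∈ Z1C (Gam a b N).subtype, (∀ e ∈ S, BV N (iC a b) e z = 0) →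
  (BV N (iC a b) e₀ z ≠ 0 → ∃ z' ∈ Z1S N (RingHom.id (Qf a b ℤ)),
    (∀ e ∈ S, BV N (RingHom.id _) e z' = 0) ∧ BV N (RingHom.id _) e₀ z' ≠ 0) ∧
  (RV N (iC a b) e₀ z ≠ 0 → ∃ z' ∈ Z1S N (RingHom.id (Qf a b ℤ)),
    (∀ e ∈ S, BV N (RingHom.id _) e z' = 0) ∧ RV N (RingHom.id _) e₀ z' ≠ 0)

/-- integral crossed homomorphisms with support in one cusp -/
def Cls (a b : ℤ) (M₀ : ℕ) : Prop := ∀ N : ℕ, N ≠ 0 → M₀ ∣ N → ∀ e : Fin 2 → Qf a b ℤ, Prm e →
  ∃ z ∈ Z1S N (RingHom.id (Qf a b ℤ)), BV N (RingHom.id _) e z ≠ 0 ∧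
    ∀ f, Prm f → (∀ u : Qf a b ℤ, IsUnit u → ¬ Cgr N f (u • e)) → BV N (RingHom.id _) f z = 0

/-- [CG S cls] (Uses `S_h1`, `S_int`.)

Proof. `F f = l³ u³` if `f = l • f'`, `f'` primitive and `Cgr N f' (u • e)` with a unit `u`, and `F f = 0` if there is no such `l`, `f'`, `u`; well defined: if `Cgr N f' (u • e)` and `Cgr N f' (u' • e)` then `N ∣ u - u'` (`e` primitive), so `u' u⁻¹ = 1` (`CgF.un`; `3 ≤ M₀ ≤ N`), and `CgF.uni`. `Hom3 F`, `F` is invariant under `Gam a b N` (`CgF.gam`, `CgF.act`). `S_h1` gives `z` with `BV N iC f z = N F f` (`uD N f 1 = tv f (N * 1)`). `S_int` with `S` the set of the primitive `f` which are not of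
the form in the claim. -/
def S_cls : Prop := ∀ a b : ℤ, b ^ 2 + 4 * a < 0 → Eu a b → IsPrincipalIdealRing (Qf a b ℤ) →
  Group.FG (GQ a b) → CgF a b → ∀ M₀ : ℕ, 3 ≤ M₀ → LD a b M₀ → Cls a b M₀

/-- an integral crossed homomorphism which connects two cusps -/
def Edge (a b : ℤ) (N₀ N : ℕ) (e' : Fin 2 → Qf a b ℤ) : Prop :=
  Prm e' ∧ IsCoprime (e' 1) (N₀ : Qf a b ℤ) ∧ ∃ z ∈ Z1S N (RingHom.id (Qf a b ℤ)),
    (∀ f, Prm f → (∀ u : Qf a b ℤ, IsUnit u → ¬ Cgr N f (u • e')) → BV N (RingHom.id _) f z = 0) ∧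
    RV N (RingHom.id _) ![1, 0] z ≠ 0

/-- [CG S edge] (Uses `S_h1`, `S_um`, `S_int`.)

Proof. `S_um` for `N₀` and `N₁ = M₀`: `N`, `F`, `r`, `e'`. As in `S_sfe` `F` is invariant under `Gam a b N`; `S_h1` gives `z ∈ Z1C (Gam a b N).subtype` with the function `F`, and as in `S_sfe` `z (eU t) = (r₀ t + r' conj t, 0)`, so `SF F r'` and `r' = r` (`SFF.uq`). `BV N iC f z = N F f`, which is zero for the primitive `f` not congruent to `u • e'`. `RV N iC (1, 0) z = (W (r₀ N + r N) - (r₀ N W + r N conj W), 0) = (r N (W - conj W), 0) ≠ 0`, `W = wC a b` (`uD N (1, 0) t = eU (N t)`, `eU_eq_tv`).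
`S_int`. -/
def S_edge : Prop := ∀ a b : ℤ, b ^ 2 + 4 * a < 0 → Eu a b → IsPrincipalIdealRing (Qf a b ℤ) →
  Group.FG (GQ a b) → CgF a b → SFF a b →
  (∀ A : Qf a b ℤ, A ≠ 0 → PA a b A) → ∀ M₀ : ℕ, M₀ ≠ 0 → LD a b M₀ → ∀ N₀ : ℕ, N₀ ≠ 0 →
  ∃ (N : ℕ) (e' : Fin 2 → Qf a b ℤ), N ≠ 0 ∧ N₀ ∣ N ∧ M₀ ∣ N ∧ Edge a b N₀ N e'

/-- the vectors `RV` are linear combinations of the numbers `BV`, over all rings -/
def Cert (a b : ℤ) (N : ℕ) : Prop := ∃ (J : Finset (Fin 2 → Qf a b ℤ)) (c : Qf a b ℤ)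
  (α : (Fin 2 → Qf a b ℤ) → (Fin 2 → Qf a b ℤ) → Fin 2 → Qf a b ℤ), c ≠ 0 ∧ (∀ e ∈ J, Prm e) ∧
  (∀ e, Prm e → ∃ f ∈ J, Cgr N e f) ∧ ∀ (K : Type) [CommRing K] (f : Qf a b ℤ →+* K),
  ∀ z ∈ Z1S N f, ∀ e ∈ J, ∀ k, f c * RV N f e z k = ∑ j ∈ J, BV N f j z * f (α e j k)

/-- [CG S cert] (Uses `V_vt`, `S_lin`, `S_fx`.)

Proof. `J` from `CgF.fin`. `n`, `A`, `E`, and the linear forms `b_j` (`BV`, `j ∈ J`), `φ` (a component of `RV`, `e ∈ J`) as in the proof of `S_int`. Claim: if `v : Fin n → R` is a solution of `A` and `b_j v = 0` for `j ∈ J` then `φ v = 0`. Let `z` be the integral crossed homomorphism, `z_C = iC ∘ z ∈ Z1C (Gam a b N).subtype`. `ω(e, z_C (tv e t)) = 0` for all `e`, `t` with `tv e t ∈ Gam a b N`: for `e ≠ 0` `e = l • f`, `f` primitive (`CgF.dec`), `tv e t = tv f (l² t)`, and the entries `l² t f_i f_j` are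
divisible by `N`, so `l² t = N t'` (`f` primitive); `f = w j`, `w ∈ Gam a b N`, `j ∈ J` (`CgF.cgr`), so `BV f z_C = BV j z_C = 0` (`BvF.inv`) and `ω(f, z_C (tv f (N t'))) = 0` (`BvF.mul`). By `V_vt` `z_C w = w v - v`, so `z_C (tv e (N t)) = N t ω(e, v) e` and `RV = 0`. As `iC` is injective `φ v = 0`. `S_lin` for the system `A ∪ {b_j}` gives `c_(e,k) ≠ 0` and coefficients; the equations `A` vanish on the vector `v` of a crossed homomorphism over `K` (`S_fx`).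
Take `c` the product of the `c_(e,k)`. -/
def S_cert : Prop := ∀ a b : ℤ, b ^ 2 + 4 * a < 0 → Eu a b → IsPrincipalIdealRing (Qf a b ℤ) →
  Group.FG (GQ a b) → CgF a b → BvF a b → ∀ N : ℕ, N ≠ 0 → Cert a b N

end

end Pool.Agent.F8.CG
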