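import Pool.Agent.Lib.MP_305fdd_al.F8.BG.P_E
import Pool.Agent.Lib.MP_305fdd_al.F8.CG.StmS
import Pool.Agent.Lib.MP_305fdd_al.F8.CG.P_Cun

/-!
# MP_305fdd_al, congruence subgroups, piece Scg: basic facts about primitive vectors
-/

set_option autoImplicit false

namespace Pool.Agent.F8.CG

open Pool.Agent.F8.BG Pool.Agent.MP_305fdd_al Pool.Agent.Lib.MP_305fdd_al Pool.Agent.F8
open scoped QuadraticAlgebra

noncomputable section

private theorem Scg_mv {R : Type} [CommRing R] (g : Matrix (Fin 2) (Fin 2) R) (e : Fin 2 → R)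
    (i : Fin 2) : g.mulVec e i = g i 0 * e 0 + g i 1 * e 1 := by
  rw [Matrix.mulVec, dotProduct, Fin.sum_univ_two]

private theorem Scg_mem (a b : ℤ) (N : ℕ) (w : GQ a b) : w ∈ Gam a b N ↔
    (N : Qf a b ℤ) ∣ w.val 0 0 - 1 ∧ (N : Qf a b ℤ) ∣ w.val 0 1 ∧ (N : Qf a b ℤ) ∣ w.val 1 0 ∧
      (N : Qf a b ℤ) ∣ w.val 1 1 - 1 := by
  have key : ∀ x y : Qf a b ℤ, (N : Qf a b ℤ) ∣ x - y →
      Qfm a b (Int.castRingHom (ZMod N)) x = Qfm a b (Int.castRingHom (ZMod N)) y := by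
    rintro x y ⟨c, hc⟩
    have h := Qfm_natCast N c
    rw [← hc, map_sub] at h
    exact sub_eq_zero.1 h
  have key2 : ∀ x y : Qf a b ℤ, Qfm a b (Int.castRingHom (ZMod N)) x =
      Qfm a b (Int.castRingHom (ZMod N)) y → (N : Qf a b ℤ) ∣ x - y := by
    intro x y h
    apply BG.E_ker a b N
    rw [map_sub, h, sub_self]
  constructor
  · intro h
    have h1 : ∀ i j, Qfm a b (Int.castRingHom (ZMod N)) (w.val i j) =
        (1 : Matrix (Fin 2) (Fin 2) (Qf a b (ZMod N))) i j := by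
      intro i j
      have h2 : rdq a b N w = 1 := h
      exact congrArg (fun g : SL2 (Qf a b (ZMod N)) => g.val i j) h2
    refine ⟨key2 _ _ ?_, ?_, ?_, key2 _ _ ?_⟩
    · rw [h1, map_one]
      rfl
    · have h2 := key2 (w.val 0 1) 0 (by rw [h1, map_zero]; rfl)
      rwa [sub_zero] at h2
    · have h2 := key2 (w.val 1 0) 0 (by rw [h1, map_zero]; rfl)
      rwa [sub_zero] at h2
    · rw [h1, map_one]
      rfl
  · rintro ⟨h1, h2, h3, h4⟩
    show rdq a b N w = 1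
    apply G.SL_ext
    · exact (key _ _ h1).trans (map_one _)
    · exact (key _ 0 (by rwa [sub_zero])).trans (map_zero _)
    · exact (key _ 0 (by rwa [sub_zero])).trans (map_zero _)
    · exact (key _ _ h4).trans (map_one _)

private theorem Scg_cop (a b : ℤ) (e : Fin 2 → Qf a b ℤ) : Prm e ↔ IsCoprime (e 0) (e 1) := by
  constructor
  · rintro ⟨g, rfl⟩
    have hd := G.SL_det g
    exact ⟨g.val 1 1, -g.val 0 1, by
      show g.val 1 1 * g.val 0 0 + -g.val 0 1 * g.val 1 0 = 1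
      linear_combination hd⟩
  · rintro ⟨x, y, h⟩
    refine ⟨AB.mx (e 0) (-y) (e 1) x (by linear_combination h), ?_⟩
    funext i
    fin_cases i <;> rfl

private theorem Scg_cgr (a b : ℤ) (N : ℕ) (e f : Fin 2 → Qf a b ℤ) (he : Prm e) (hf : Prm f)
    (h : Cgr N e f) : ∃ w ∈ Gam a b N, w.val.mulVec e = f := by
  obtain ⟨q, y, hq⟩ := (Scg_cop a b e).1 he
  obtain ⟨q', y', hq'⟩ := (Scg_cop a b f).1 hf
  obtain ⟨p, rfl⟩ : ∃ p, y = -p := ⟨-y, by ring⟩
  obtain ⟨p', rfl⟩ : ∃ p', y' = -p' := ⟨-y', by ring⟩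
  obtain ⟨c, hc⟩ := h 0
  obtain ⟨d, hd⟩ := h 1
  obtain ⟨t, ht⟩ : ∃ t, t = p * q' - p' * q := ⟨_, rfl⟩
  obtain ⟨P, hP⟩ : ∃ P, P = p' + t * f 0 := ⟨_, rfl⟩
  obtain ⟨Q, hQ⟩ : ∃ Q, Q = q' + t * f 1 := ⟨_, rfl⟩
  obtain ⟨α, hα⟩ : ∃ α, P - p = (N : Qf a b ℤ) * α := ⟨p * (c * q' - p' * d) - t * c, by
    rw [hP, ht]
    linear_combination (p * q' - (p * q' - p' * q)) * hc - p * p' * hd + p * hq' - p' * hq⟩
  obtain ⟨β, hβ⟩ : ∃ β, Q - q = (N : Qf a b ℤ) * β := ⟨q * (c * q' - p' * d) - t * d, by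
    rw [hQ, ht]
    linear_combination q * q' * hc - (q * p' + (p * q' - p' * q)) * hd + q * hq' - q' * hq⟩
  have hfd : f 0 * Q - P * f 1 = 1 := by
    rw [hP, hQ]
    linear_combination hq'
  have hdet : (f 0 * q - P * e 1) * (Q * e 0 - f 1 * p) - (P * e 0 - f 0 * p) *
      (f 1 * q - Q * e 1) = 1 := by
    linear_combination (f 0 * Q - P * f 1) * hq + hfd
  refine ⟨AB.mx (f 0 * q - P * e 1) (P * e 0 - f 0 * p) (f 1 * q - Q * e 1)
    (Q * e 0 - f 1 * p) hdet, ?_, ?_⟩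
  · rw [Scg_mem]
    refine ⟨⟨-(c * q) - α * e 1, ?_⟩, ⟨α * e 0 + c * p, ?_⟩, ⟨-(d * q) - β * e 1, ?_⟩,
      ⟨β * e 0 + d * p, ?_⟩⟩
    · show f 0 * q - P * e 1 - 1 = _
      linear_combination (-q) * hc - e 1 * hα + hq
    · show P * e 0 - f 0 * p = _
      linear_combination e 0 * hα + p * hc
    · show f 1 * q - Q * e 1 = _
      linear_combination (-q) * hd - e 1 * hβ
    · show Q * e 0 - f 1 * p - 1 = _
      linear_combination e 0 * hβ + p * hd + hq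
  · funext i
    rw [Scg_mv]
    fin_cases i
    · show (f 0 * q - P * e 1) * e 0 + (P * e 0 - f 0 * p) * e 1 = f 0
      linear_combination f 0 * hq
    · show (f 1 * q - Q * e 1) * e 0 + (Q * e 0 - f 1 * p) * e 1 = f 1
      linear_combination f 1 * hq

private theorem Scg_fin (a b : ℤ) (N : ℕ) (hN : N ≠ 0) : ∃ J : Finset (Fin 2 → Qf a b ℤ),
    (∀ e ∈ J, Prm e) ∧ ∀ e, Prm e → ∃ f ∈ J, Cgr N e f := by
  classical
  have : NeZero N := ⟨hN⟩
  have hfin : Finite (Qf a b (ZMod N)) := Finite.of_equiv _ (QuadraticAlgebra.equivProd _ _).symm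
  let φ : {e : Fin 2 → Qf a b ℤ // Prm e} → (Fin 2 → Qf a b (ZMod N)) :=
    fun e i => Qfm a b (Int.castRingHom (ZMod N)) (e.1 i)
  have hr : (Set.range φ).Finite := Set.toFinite _
  have : Fintype (Set.range φ) := hr.fintype
  refine ⟨Finset.univ.image fun y : Set.range φ => (y.2.choose).1, ?_, ?_⟩
  · intro e he
    rw [Finset.mem_image] at he
    obtain ⟨y, _, rfl⟩ := he
    exact (y.2.choose).2
  · intro e he
    let y : Set.range φ := ⟨φ ⟨e, he⟩, ⟨_, rfl⟩⟩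
    refine ⟨(y.2.choose).1, Finset.mem_image.2 ⟨y, Finset.mem_univ _, rfl⟩, fun i => ?_⟩
    have h1 : φ y.2.choose = φ ⟨e, he⟩ := y.2.choose_spec
    have h2 := congrFun h1 i
    apply BG.E_ker a b N
    rw [map_sub, sub_eq_zero]
    exact h2.symm

private theorem Scg_dec (a b : ℤ) (hn : b ^ 2 + 4 * a < 0)
    (hp : IsPrincipalIdealRing (Qf a b ℤ)) (e : Fin 2 → Qf a b ℤ) (he : e ≠ 0) :
    ∃ (l : Qf a b ℤ) (f : Fin 2 → Qf a b ℤ), l ≠ 0 ∧ Prm f ∧ e = l • f := by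
  have hdom : IsDomain (Qf a b ℤ) := Qf_domain hn
  obtain ⟨l, hl⟩ := (hp.principal (Ideal.span {e 0, e 1})).principal
  have h0 : e 0 ∈ Ideal.span {l} := by
    show e 0 ∈ Submodule.span _ {l}
    rw [← hl]
    exact Ideal.subset_span (Set.mem_insert _ _)
  have h1 : e 1 ∈ Ideal.span {l} := by
    show e 1 ∈ Submodule.span _ {l}
    rw [← hl]
    exact Ideal.subset_span (Set.mem_insert_of_mem _ (Set.mem_singleton _))
  have h2 : l ∈ Ideal.span {e 0, e 1} := by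
    rw [hl]
    exact Submodule.mem_span_singleton_self l
  rw [Ideal.mem_span_singleton] at h0 h1
  rw [Ideal.mem_span_pair] at h2
  obtain ⟨u, hu⟩ := h0
  obtain ⟨v, hv⟩ := h1
  obtain ⟨x, y, hxy⟩ := h2
  have hl0 : l ≠ 0 := by
    rintro rfl
    apply he
    funext i
    fin_cases i
    · show e 0 = 0
      rw [hu, zero_mul]
    · show e 1 = 0
      rw [hv, zero_mul]
  refine ⟨l, ![u, v], hl0, (Scg_cop a b _).2 ⟨x, y, ?_⟩, ?_⟩
  · show x * u + y * v = 1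
    apply mul_left_cancel₀ hl0
    linear_combination hxy - x * hu - y * hv
  · funext i
    fin_cases i
    · exact hu
    · exact hv

private theorem Scg_uni (a b : ℤ) (hn : b ^ 2 + 4 * a < 0) (l l' : Qf a b ℤ)
    (f f' : Fin 2 → Qf a b ℤ) (hl : l ≠ 0) (hf : Prm f) (hf' : Prm f') (h : l • f = l' • f') :
    ∃ u, IsUnit u ∧ f' = u • f ∧ l = u * l' := by
  have hdom : IsDomain (Qf a b ℤ) := Qf_domain hn
  obtain ⟨x, y, hx⟩ := (Scg_cop a b f).1 hf
  obtain ⟨x', y', hx'⟩ := (Scg_cop a b f').1 hf'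
  have h0 : l * f 0 = l' * f' 0 := congrFun h 0
  have h1 : l * f 1 = l' * f' 1 := congrFun h 1
  have e1 : l' = l * (x' * f 0 + y' * f 1) := by
    linear_combination (-l') * hx' - x' * h0 - y' * h1
  have e2 : l = l' * (x * f' 0 + y * f' 1) := by
    linear_combination (-l) * hx + x * h0 + y * h1
  obtain ⟨v, hv⟩ : ∃ v, v = x' * f 0 + y' * f 1 := ⟨_, rfl⟩
  obtain ⟨u, hu⟩ : ∃ u, u = x * f' 0 + y * f' 1 := ⟨_, rfl⟩
  rw [← hv] at e1
  rw [← hu] at e2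
  have huv : u * v = 1 := by
    apply mul_left_cancel₀ hl
    linear_combination (-1) * e2 - u * e1
  have hfi : ∀ i, l * f i = l' * f' i → f' i = u * f i := by
    intro i hi
    have h3 : f i = v * f' i := by
      apply mul_left_cancel₀ hl
      rw [hi, e1]
      ring
    rw [h3]
    linear_combination (-f' i) * huv
  refine ⟨u, IsUnit.of_mul_eq_one v huv, ?_, ?_⟩
  · funext i
    fin_cases i
    · exact hfi 0 h0
    · exact hfi 1 h1
  · rw [mul_comm]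
    exact e2

private theorem Scg_un (a b : ℤ) (hn : b ^ 2 + 4 * a < 0) (N : ℕ) (u : Qf a b ℤ) (hN : 3 ≤ N)
    (hu : IsUnit u) (h : (N : Qf a b ℤ) ∣ u - 1) : u = 1 := by
  obtain ⟨v, hv⟩ := hu.exists_right_inv
  obtain ⟨c, hc⟩ := h
  refine p_Cun a b hn N hN u v hv ⟨c.re, ?_⟩ ⟨c.im, ?_⟩
  · have h1 := congrArg QuadraticAlgebra.re hc
    simpa using h1
  · have h1 := congrArg QuadraticAlgebra.im hc
    simpa using h1

theorem p_Scg : S_cg := by
  intro a b hn hp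
  have hdom : IsDomain (Qf a b ℤ) := Qf_domain hn
  refine ⟨Scg_cop a b, ?_, ?_, Scg_cgr a b, ?_, ?_, Scg_fin a b, Scg_dec a b hn hp,
    Scg_uni a b hn, Scg_un a b hn, ?_⟩
  · rintro g _ ⟨g', rfl⟩
    refine ⟨g * g', ?_⟩
    funext i
    rw [Scg_mv]
    exact G.SL_mul g g' i 0
  · intro u e hu he
    rw [Scg_cop] at he ⊢
    show IsCoprime (u * e 0) (u * e 1)
    exact (isCoprime_mul_unit_left hu _ _).2 he
  · intro N w hw e i
    obtain ⟨⟨c1, h1⟩, ⟨c2, h2⟩, ⟨c3, h3⟩, ⟨c4, h4⟩⟩ := (Scg_mem a b N w).1 hw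
    rw [Scg_mv]
    fin_cases i
    · show (N : Qf a b ℤ) ∣ w.val 0 0 * e 0 + w.val 0 1 * e 1 - e 0
      exact ⟨c1 * e 0 + c2 * e 1, by linear_combination e 0 * h1 + e 1 * h2⟩
    · show (N : Qf a b ℤ) ∣ w.val 1 0 * e 0 + w.val 1 1 * e 1 - e 1
      exact ⟨c3 * e 0 + c4 * e 1, by linear_combination e 0 * h3 + e 1 * h4⟩
  · intro N g e f h i
    obtain ⟨c, hc⟩ := h 0
    obtain ⟨d, hd⟩ := h 1
    rw [Scg_mv, Scg_mv]
    exact ⟨g.val i 0 * c + g.val i 1 * d, by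
      linear_combination g.val i 0 * hc + g.val i 1 * hd⟩
  · intro N u hN hu h
    have h1 := Scg_un a b hn N (u ^ 2) hN (hu.pow 2) h
    exact mul_self_eq_one_iff.1 (by rw [← pow_two]; exact h1)

end

end Pool.Agent.F8.CG
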