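import Pool.Agent.Lib.MP_305fdd_al.F8.CG.StmS2

/-!
# MP_305fdd_al, congruence subgroups, piece Scl: centralisers in free groups
-/

set_option autoImplicit false

namespace Pool.Agent.F8.CG

open Pool.Agent.F8.BG Pool.Agent.MP_305fdd_al Pool.Agent.Lib.MP_305fdd_al Pool.Agent.F8
open scoped QuadraticAlgebra

noncomputable section

private theorem Scl_ltr {ι : Type} (y : ι × Bool) : ltr y = FreeGroup.mk [y] := by
  obtain ⟨s, t⟩ := y
  cases t
  · unfold ltr
    rw [if_neg (by simp)]
    rfl
  · rfl

/-- the periodic continuation -/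
private def Scl_x {ι : Type} (W : List (ι × Bool)) (h : 0 < W.length) (i : ℕ) : ι × Bool :=
  W[i % W.length]'(Nat.mod_lt _ h)

private theorem Scl_pre {ι : Type} (W : List (ι × Bool)) (h : 0 < W.length) :
    ∀ n, n ≤ W.length → pre (Scl_x W h) n = FreeGroup.mk (W.take n) := by
  intro n
  induction n with
  | zero =>
    intro _
    rfl
  | succ n ih =>
    intro hn
    have hn' : n < W.length := hn
    show pre (Scl_x W h) n * ltr (Scl_x W h n) = _
    rw [ih hn'.le, Scl_ltr, FreeGroup.mul_mk, List.take_succ_eq_append_getElem hn']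
    have h1 : Scl_x W h n = W[n] := by
      unfold Scl_x
      congr 1
      exact Nat.mod_eq_of_lt hn'
    rw [h1]

private theorem Scl_PW {ι : Type} (W : List (ι × Bool)) (h : 0 < W.length)
    (hW : FreeGroup.IsCyclicallyReduced W) : PW (Scl_x W h) W.length := by
  refine ⟨h, fun i => ?_, fun i => ?_⟩
  · unfold Scl_x
    congr 1
    exact Nat.add_mod_right i W.length
  · have hi : i % W.length < W.length := Nat.mod_lt _ h
    by_cases h1 : i % W.length + 1 < W.length
    · have h2 : (i + 1) % W.length = i % W.length + 1 := by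
        rw [Nat.add_mod, Nat.mod_eq_of_lt (lt_of_le_of_lt (Nat.le_add_left 1 _) h1),
          Nat.mod_eq_of_lt h1]
      have h3 : Scl_x W h (i + 1) = W[i % W.length + 1] := by
        unfold Scl_x
        congr 1
      have h4 := List.isChain_iff_getElem.1 hW.1 (i % W.length) h1
      rw [h3]
      exact h4
    · have h2 : i % W.length + 1 = W.length := by omega
      have h5 : (i + 1) % W.length = 0 := by
        rw [← Nat.mod_add_mod, h2, Nat.mod_self]
      have h3 : Scl_x W h (i + 1) = W[0] := by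
        unfold Scl_x
        congr 1
      have h4 : Scl_x W h i = W[W.length - 1] := by
        unfold Scl_x
        congr 1
        omega
      have h6 := hW.2 (W[W.length - 1]) (by
        rw [List.getLast?_eq_getElem?]
        simp [h]) (W[0]) (by
        rw [List.head?_eq_getElem?]
        simp [h])
      rw [h3, h4]
      exact h6

theorem p_Scl (h1 : S_cl1) : S_cl := by
  classical
  intro ι _ p Q _ _ θ
  obtain ⟨W, hW⟩ : ∃ W, W = FreeGroup.reduceCyclically p.toWord := ⟨_, rfl⟩
  obtain ⟨C, hC⟩ : ∃ C, C = FreeGroup.reduceCyclically.conjugator p.toWord := ⟨_, rfl⟩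
  have hcr : FreeGroup.IsCyclicallyReduced W := by
    rw [hW]
    exact FreeGroup.reduceCyclically.isCyclicallyReduced FreeGroup.isReduced_toWord
  have hp : p = FreeGroup.mk C * FreeGroup.mk W * (FreeGroup.mk C)⁻¹ := by
    rw [FreeGroup.inv_mk, FreeGroup.mul_mk, FreeGroup.mul_mk, hC, hW,
      FreeGroup.reduceCyclically.conj_conjugator_reduceCyclically, FreeGroup.mk_toWord]
  obtain ⟨g, hg⟩ : ∃ g, g = FreeGroup.mk C := ⟨_, rfl⟩
  rw [← hg] at hp
  by_cases h0 : W = []
  · have hp1 : p = 1 := by
      rw [hp, h0, ← FreeGroup.one_eq_mk, mul_one, mul_inv_cancel]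
    exact ⟨Q, inferInstance, inferInstance, θ, fun q _ => ⟨q, by rw [hp1, mul_one, one_mul], rfl⟩⟩
  · have hl : 0 < W.length := List.length_pos_iff.2 h0
    have hpre : pre (Scl_x W hl) W.length = FreeGroup.mk W := by
      rw [Scl_pre W hl _ le_rfl, List.take_length]
    obtain ⟨Q₂, i1, i2, θ₂, h2⟩ := h1 ι (Scl_x W hl) W.length (Scl_PW W hl hcr) Q θ
    refine ⟨Q₂, i1, i2, θ₂, fun q hq => ?_⟩
    rw [hpre] at h2
    obtain ⟨c, hc, hθ⟩ := h2 (g⁻¹ * q * g) (by
      rw [hp] at hq
      rw [← map_mul, ← map_mul] at hq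
      rw [← map_mul, ← map_mul]
      have h3 : g⁻¹ * q * g * FreeGroup.mk W =
          g⁻¹ * (q * (g * FreeGroup.mk W * g⁻¹)) * g := by group
      have h4 : FreeGroup.mk W * (g⁻¹ * q * g) =
          g⁻¹ * ((g * FreeGroup.mk W * g⁻¹) * q) * g := by group
      rw [h3, h4, map_mul, map_mul, hq, ← map_mul, ← map_mul])
    refine ⟨g * c * g⁻¹, ?_, ?_⟩
    · rw [hp]
      calc g * c * g⁻¹ * (g * FreeGroup.mk W * g⁻¹) = g * (c * FreeGroup.mk W) * g⁻¹ := by group
        _ = g * (FreeGroup.mk W * c) * g⁻¹ := by rw [hc]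
        _ = _ := by group
    · rw [map_mul, map_mul, hθ, ← map_mul, ← map_mul]
      congr 1
      group

end

end Pool.Agent.F8.CG
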