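import Pool.Agent.Lib.MP_305fdd_al.F8.CG.StmS2

/-!
# MP_305fdd_al, congruence subgroups: proof of `S_cl0`

A periodic reduced infinite word of period `L` gives a permutation representation of the free
group on `ℤ/L` (the circle) in which the point `0` is moved to `n` by the product of the first `n`
letters.
-/

set_option autoImplicit false

namespace Pool.Agent.F8.CG

/-- an injective partial map of a finite set extends to a permutation -/
private theorem Scl0_ext {α : Type} [Finite α] (p : α → Prop) (g : α → α)
    (h : ∀ a b, p a → p b → g a = g b → a = b) :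
    ∃ f : Equiv.Perm α, ∀ a, p a → f a = g a := by
  classical
  have hg : Function.Injective (fun a : {a // p a} => g a.1) := by
    rintro ⟨a, ha⟩ ⟨b, hb⟩ hab
    exact Subtype.ext (h a b ha hb hab)
  let e := Equiv.ofInjective (fun a : {a // p a} => g a.1) hg
  refine ⟨Equiv.extendSubtype (p := p) (q := fun x => x ∈ Set.range
    (fun a : {a // p a} => g a.1)) e, fun a ha => ?_⟩
  rw [Equiv.extendSubtype_apply_of_mem (p := p) (q := fun x => x ∈ Set.range
    (fun a : {a // p a} => g a.1)) e a ha]
  rfl

private theorem Scl0_per {ι : Type} {x : ℕ → ι × Bool} {L : ℕ} (h : PW x L) (i k : ℕ) :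
    x (i + L * k) = x i := by
  induction k with
  | zero => simp
  | succ k ih =>
    rw [Nat.mul_succ, ← add_assoc, h.per, ih]

private theorem Scl0_mod {ι : Type} {x : ℕ → ι × Bool} {L : ℕ} (h : PW x L) (i : ℕ) :
    x (i % L) = x i := by
  conv_rhs => rw [← Nat.mod_add_div i L]
  rw [Scl0_per h]

private theorem Scl0_val {ι : Type} {x : ℕ → ι × Bool} {L : ℕ} [NeZero L] (h : PW x L) (i : ℕ) :
    x ((i : ZMod L)).val = x i := by
  rw [ZMod.val_natCast, Scl0_mod h]

/-- the words on the circle are reduced -/
private theorem Scl0_red {ι : Type} {x : ℕ → ι × Bool} {L : ℕ} [NeZero L] (h : PW x L)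
    (k : ZMod L) (s : ι) : ¬ (x k.val = (s, true) ∧ x (k + 1).val = (s, false)) := by
  rintro ⟨h1, h2⟩
  have hk : k = ((k.val : ℕ) : ZMod L) := by simp
  have h3 : x (k + 1).val = x (k.val + 1) := by
    have : (k + 1 : ZMod L) = ((k.val + 1 : ℕ) : ZMod L) := by simp
    rw [this, Scl0_val h]
  rw [h3] at h2
  have := h.red k.val (by rw [h1, h2])
  rw [h1, h2] at this
  simp at this

private theorem Scl0_red' {ι : Type} {x : ℕ → ι × Bool} {L : ℕ} [NeZero L] (h : PW x L)
    (k : ZMod L) (s : ι) : ¬ (x k.val = (s, false) ∧ x (k + 1).val = (s, true)) := by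
  rintro ⟨h1, h2⟩
  have h3 : x (k + 1).val = x (k.val + 1) := by
    have : (k + 1 : ZMod L) = ((k.val + 1 : ℕ) : ZMod L) := by simp
    rw [this, Scl0_val h]
  rw [h3] at h2
  have := h.red k.val (by rw [h1, h2])
  rw [h1, h2] at this
  simp at this

private theorem Scl0_perm {ι : Type} {x : ℕ → ι × Bool} {L : ℕ} [NeZero L] (h : PW x L) (s : ι) :
    ∃ f : Equiv.Perm (ZMod L), (∀ k, x k.val = (s, true) → f k = k + 1) ∧
      ∀ k, x k.val = (s, false) → f (k + 1) = k := by
  classical
  obtain ⟨f, hf⟩ := Scl0_ext (α := ZMod L)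
    (fun k => x k.val = (s, true) ∨ x (k - 1).val = (s, false))
    (fun k => if x k.val = (s, true) then k + 1 else k - 1) (by
      intro a b ha hb hab
      by_cases h1 : x a.val = (s, true)
      · by_cases h2 : x b.val = (s, true)
        · simp only [h1, h2, if_true] at hab
          exact add_right_cancel hab
        · have h3 := hb.resolve_left h2
          simp only [h1, h2, if_true, if_false] at hab
          exfalso
          rw [← hab] at h3
          exact Scl0_red h a s ⟨h1, h3⟩
      · have h3 := ha.resolve_left h1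
        by_cases h2 : x b.val = (s, true)
        · simp only [h1, h2, if_true, if_false] at hab
          exfalso
          rw [hab] at h3
          exact Scl0_red h b s ⟨h2, h3⟩
        · simp only [h1, h2, if_false] at hab
          exact sub_left_injective hab)
  refine ⟨f, fun k hk => ?_, fun k hk => ?_⟩
  · have := hf k (Or.inl hk)
    simp only [hk, if_true] at this
    exact this
  · have h2 : x (k + 1).val ≠ (s, true) := fun h2 => Scl0_red' h k s ⟨hk, h2⟩
    have := hf (k + 1) (Or.inr (by rw [add_sub_cancel_right]; exact hk))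
    simp only [h2, if_false, add_sub_cancel_right] at this
    exact this

theorem p_Scl0 : S_cl0 := by
  classical
  intro ι x L h
  have : NeZero L := ⟨h.pos.ne'⟩
  choose f hf1 hf2 using fun s : ι => Scl0_perm h s
  let σ : FreeGroup ι →* (Equiv.Perm (ZMod L))ᵐᵒᵖ :=
    FreeGroup.lift (fun s => MulOpposite.op (f s))
  have hσ : ∀ s, σ (FreeGroup.of s) = MulOpposite.op (f s) := fun s => by
    simp [σ]
  have key : ∀ n : ℕ, (MulOpposite.unop (σ (pre x n))) (0 : ZMod L) = (n : ZMod L) := by
    intro n
    induction n with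
    | zero =>
      show (MulOpposite.unop (σ 1)) (0 : ZMod L) = ((0 : ℕ) : ZMod L)
      simp
    | succ n ih =>
      show (MulOpposite.unop (σ (pre x n * ltr (x n)))) (0 : ZMod L) = ((n + 1 : ℕ) : ZMod L)
      rw [map_mul, MulOpposite.unop_mul, Equiv.Perm.mul_apply, ih]
      have hx : x ((n : ZMod L)).val = x n := Scl0_val h n
      rcases hxn : x n with ⟨s, b⟩
      cases b with
      | true =>
        have : ltr ((s, true) : ι × Bool) = FreeGroup.of s := by simp [ltr]
        rw [this, hσ]
        have h1 := hf1 s (n : ZMod L) (by rw [hx, hxn])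
        rw [MulOpposite.unop_op, h1]
        push_cast
        rfl
      | false =>
        have : ltr ((s, false) : ι × Bool) = (FreeGroup.of s)⁻¹ := by simp [ltr]
        rw [this, map_inv, hσ, MulOpposite.unop_inv, MulOpposite.unop_op,
          Equiv.Perm.inv_eq_iff_eq]
        have h1 := hf2 s (n : ZMod L) (by rw [hx, hxn])
        push_cast
        exact h1.symm
  refine ⟨(Equiv.Perm (ZMod L))ᵐᵒᵖ, inferInstance,
    Finite.of_equiv (Equiv.Perm (ZMod L)) MulOpposite.opEquiv, σ, fun i j hij => ?_⟩
  have h1 := key i
  rw [hij, key j] at h1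
  exact ((ZMod.natCast_eq_natCast_iff _ _ _).1 h1).symm

end Pool.Agent.F8.CG
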