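import Pool.Agent.Lib.MP_305fdd_al.F8.CG.StmS2

/-!
# MP_305fdd_al, congruence subgroups, [CG S cl1]: centralisers of cyclically reduced words
-/

set_option autoImplicit false

namespace Pool.Agent.F8.CG

open Pool.Agent.F8.BG Pool.Agent.MP_305fdd_al Pool.Agent.Lib.MP_305fdd_al Pool.Agent.F8

noncomputable section

/-! ### The finite group `A ⋊ X` -/

/-- the action on functions -/
private def Scl1_act {X ι : Type} [Group X] (g : X) (φ : X × ι → ZMod 3) : X × ι → ZMod 3 :=
  fun z => φ (g⁻¹ * z.1, z.2)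

private theorem Scl1_act_one {X ι : Type} [Group X] (φ : X × ι → ZMod 3) :
    Scl1_act 1 φ = φ := by
  funext z
  unfold Scl1_act
  rw [inv_one, one_mul]

private theorem Scl1_act_mul {X ι : Type} [Group X] (g h : X) (φ : X × ι → ZMod 3) :
    Scl1_act (g * h) φ = Scl1_act g (Scl1_act h φ) := by
  funext z
  unfold Scl1_act
  rw [mul_inv_rev, mul_assoc]

private theorem Scl1_act_add {X ι : Type} [Group X] (g : X) (φ ψ : X × ι → ZMod 3) :
    Scl1_act g (φ + ψ) = Scl1_act g φ + Scl1_act g ψ := rfl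

/-- pairs (function, group element) -/
private structure Scl1E (X ι : Type) where
  /-- the function -/
  v : X × ι → ZMod 3
  /-- the group element -/
  g : X

private theorem Scl1E.ext' {X ι : Type} {x y : Scl1E X ι} (h1 : x.v = y.v) (h2 : x.g = y.g) :
    x = y := by
  cases x
  cases y
  simp only at h1 h2
  rw [h1, h2]

private instance Scl1_inst (X ι : Type) [Group X] : Group (Scl1E X ι) :=
  letI : Mul (Scl1E X ι) := ⟨fun x y => ⟨x.v + Scl1_act x.g y.v, x.g * y.g⟩⟩
  letI : One (Scl1E X ι) := ⟨⟨0, 1⟩⟩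
  letI : Inv (Scl1E X ι) := ⟨fun x => ⟨-(Scl1_act x.g⁻¹ x.v), x.g⁻¹⟩⟩
  Group.ofLeftAxioms
    (fun x y z => Scl1E.ext'
      (by
        show x.v + Scl1_act x.g y.v + Scl1_act (x.g * y.g) z.v =
          x.v + Scl1_act x.g (y.v + Scl1_act y.g z.v)
        rw [Scl1_act_add, Scl1_act_mul, add_assoc])
      (mul_assoc _ _ _))
    (fun x => Scl1E.ext'
      (by
        show (0 : X × ι → ZMod 3) + Scl1_act 1 x.v = x.v
        rw [Scl1_act_one, zero_add])
      (one_mul _))
    (fun x => Scl1E.ext'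
      (by
        show -(Scl1_act x.g⁻¹ x.v) + Scl1_act x.g⁻¹ x.v = 0
        exact neg_add_cancel _)
      (inv_mul_cancel _))

private theorem Scl1_mul_v {X ι : Type} [Group X] (x y : Scl1E X ι) :
    (x * y).v = x.v + Scl1_act x.g y.v := rfl

private theorem Scl1_inv_v {X ι : Type} [Group X] (x : Scl1E X ι) :
    (x⁻¹).v = -(Scl1_act x.g⁻¹ x.v) := rfl

private def Scl1_pr (X ι : Type) [Group X] : Scl1E X ι →* X where
  toFun x := x.g
  map_one' := rfl
  map_mul' _ _ := rfl

private theorem Scl1_fin (X ι : Type) [Finite X] [Finite ι] : Finite (Scl1E X ι) := by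
  have h : Function.Injective (fun x : Scl1E X ι => (x.v, x.g)) := by
    intro x y hxy
    exact Scl1E.ext' (congrArg Prod.fst hxy) (congrArg Prod.snd hxy)
  exact Finite.of_injective _ h

open Classical in
/-- the homomorphism -/
private def Scl1_hom {X ι : Type} [Group X] (θ : FreeGroup ι →* X) : FreeGroup ι →* Scl1E X ι :=
  FreeGroup.lift fun s => ⟨fun z => if z = (1, s) then 1 else 0, θ (FreeGroup.of s)⟩

private theorem Scl1_hom_g {X ι : Type} [Group X] (θ : FreeGroup ι →* X) (w : FreeGroup ι) :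
    (Scl1_hom θ w).g = θ w := by
  have h1 : (Scl1_pr X ι).comp (Scl1_hom θ) = θ := by
    apply FreeGroup.ext_hom
    intro i
    show (Scl1_pr X ι) (Scl1_hom θ (FreeGroup.of i)) = _
    unfold Scl1_hom
    rw [FreeGroup.lift_apply_of]
    rfl
  exact DFunLike.congr_fun h1 w

open Classical in
private theorem Scl1_hom_of {X ι : Type} [Group X] (θ : FreeGroup ι →* X) (s : ι) :
    (Scl1_hom θ (FreeGroup.of s)).v = fun z => if z = (1, s) then 1 else 0 := by
  unfold Scl1_hom
  rw [FreeGroup.lift_apply_of]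

open Classical in
private theorem Scl1_act_ind {X ι : Type} [Group X] (g u : X) (s : ι) (c : ZMod 3) :
    Scl1_act g (fun z : X × ι => if z = (u, s) then c else 0)
      = fun z => if z = (g * u, s) then c else 0 := by
  funext z
  unfold Scl1_act
  have h : ((g⁻¹ * z.1, z.2) = (u, s)) ↔ (z = (g * u, s)) := by
    constructor
    · intro h
      have h1 := congrArg Prod.fst h
      have h2 := congrArg Prod.snd h
      simp only at h1 h2
      apply Prod.ext
      · show z.1 = g * u
        rw [← h1, mul_inv_cancel_left]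
      · exact h2
    · rintro rfl
      simp
  show (if (g⁻¹ * z.1, z.2) = (u, s) then c else 0) = if z = (g * u, s) then c else 0
  by_cases hz : z = (g * u, s)
  · rw [if_pos hz, if_pos (h.2 hz)]
  · rw [if_neg hz, if_neg (fun h' => hz (h.1 h'))]

/-! ### Periodic words -/

private theorem Scl1_per {ι : Type} {x : ℕ → ι × Bool} {L : ℕ} (hx : PW x L) {i j : ℕ}
    (h : i ≡ j [MOD L]) : x i = x j := by
  have hp : Function.Periodic x L := hx.per
  rw [← hp.map_mod_nat i, ← hp.map_mod_nat j]
  exact congrArg x h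

private theorem Scl1_pre {ι : Type} {x : ℕ → ι × Bool} {j : ℕ} (hj : ∀ i, x (j + i) = x i)
    (i : ℕ) : pre x (j + i) = pre x j * pre x i := by
  induction i with
  | zero => simp [pre]
  | succ i ih =>
    show pre x (j + i) * ltr (x (j + i)) = pre x j * (pre x i * ltr (x i))
    rw [ih, hj, mul_assoc]

private theorem Scl1_pow {ι : Type} {x : ℕ → ι × Bool} {L : ℕ} (hx : PW x L) (m i : ℕ) :
    pre x (L * m + i) = pre x L ^ m * pre x i := by
  have hL : ∀ i, x (L + i) = x i := fun i => by rw [add_comm, hx.per]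
  induction m with
  | zero => simp
  | succ m ih =>
    have h1 : L * (m + 1) + i = L + (L * m + i) := by ring
    rw [h1, Scl1_pre hL, ih, pow_succ', mul_assoc]

/-! ### The main argument -/

section

variable {ι X : Type} [Group X] (θ : FreeGroup ι →* X) (x : ℕ → ι × Bool)

/-- the vertices -/
private def Scl1_w (i : ℕ) : X := if (x i).2 = true then θ (pre x i) else θ (pre x (i + 1))

/-- the signs -/
private def Scl1_eps (i : ℕ) : ZMod 3 := if (x i).2 = true then 1 else -1

private theorem Scl1_succ (i : ℕ) : θ (pre x (i + 1)) = θ (pre x i) * θ (ltr (x i)) := by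
  show θ (pre x i * ltr (x i)) = _
  rw [map_mul]

open Classical in
private theorem Scl1_delta (k : ℕ) (z : X × ι) :
    (Scl1_hom θ (pre x k)).v z
      = ∑ i ∈ Finset.range k, if z = (Scl1_w θ x i, (x i).1) then Scl1_eps x i else 0 := by
  induction k with
  | zero =>
    rw [Finset.range_zero, Finset.sum_empty]
    show (Scl1_hom θ 1).v z = 0
    rw [map_one]
    rfl
  | succ k ih =>
    rw [Finset.sum_range_succ, ← ih]
    show (Scl1_hom θ (pre x k * ltr (x k))).v z = _
    rw [map_mul, Scl1_mul_v, Scl1_hom_g, Pi.add_apply]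
    congr 1
    unfold Scl1_w Scl1_eps
    rw [Scl1_succ]
    rcases hxk : x k with ⟨s, b⟩
    cases b with
    | true =>
      have h1 : ltr (s, true) = FreeGroup.of s := rfl
      rw [h1, Scl1_hom_of, Scl1_act_ind, mul_one]
      simp only [if_true]
    | false =>
      have h1 : ltr (s, false) = (FreeGroup.of s)⁻¹ := rfl
      have h2 : (Scl1_hom θ (FreeGroup.of s)⁻¹).v
          = fun z => if z = ((θ (FreeGroup.of s))⁻¹, s) then -1 else 0 := by
        rw [map_inv, Scl1_inv_v, Scl1_hom_g, Scl1_hom_of, Scl1_act_ind, mul_one]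
        funext z
        rw [Pi.neg_apply]
        by_cases hz : z = ((θ (FreeGroup.of s))⁻¹, s)
        · rw [if_pos hz, if_pos hz]
        · rw [if_neg hz, if_neg hz, neg_zero]
      rw [h1, h2, Scl1_act_ind, map_inv]
      simp only [Bool.false_eq_true, if_false]

end

private theorem Scl1_core {ι X : Type} [Group X] [Finite X] (θ : FreeGroup ι →* X)
    (x : ℕ → ι × Bool) (L : ℕ) (hx : PW x L)
    (hσ : ∀ i j, θ (pre x i) = θ (pre x j) → i ≡ j [MOD L]) (q : FreeGroup ι)
    (hq : Scl1_hom θ q * Scl1_hom θ (pre x L) = Scl1_hom θ (pre x L) * Scl1_hom θ q) :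
    ∃ c, c * pre x L = pre x L * c ∧ θ c = θ q := by
  classical
  set a := orderOf (θ (pre x L)) with ha
  have ha0 : 0 < a := orderOf_pos _
  set n := L * a with hn
  have hn0 : 0 < n := Nat.mul_pos hx.pos ha0
  have hLn : L ∣ n := Dvd.intro _ rfl
  have hv : ∀ m i, θ (pre x (L * m + i)) = θ (pre x L) ^ m * θ (pre x i) := by
    intro m i
    rw [Scl1_pow hx, map_mul, map_pow]
  -- (1)
  have h1' : ∀ i m, θ (pre x i) = θ (pre x (L * m + i)) → a ∣ m := by
    intro i m h
    rw [hv] at h
    have h2 : θ (pre x L) ^ m = 1 := by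
      have h3 : θ (pre x L) ^ m * θ (pre x i) = 1 * θ (pre x i) := by rw [one_mul]; exact h.symm
      exact mul_right_cancel h3
    exact orderOf_dvd_of_pow_eq_one h2
  have h1a : ∀ i j, i ≤ j → θ (pre x i) = θ (pre x j) → i ≡ j [MOD n] := by
    intro i j hij h
    have h2 := hσ i j h
    obtain ⟨m, hm⟩ := (Nat.modEq_iff_dvd' hij).1 h2
    have h3 : j = L * m + i := by omega
    rw [h3] at h
    obtain ⟨k, hk⟩ := h1' i m h
    apply (Nat.modEq_iff_dvd' hij).2
    rw [hm, hk, hn]
    exact ⟨k, by ring⟩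
  have h1 : ∀ i j, θ (pre x i) = θ (pre x j) → i ≡ j [MOD n] := by
    intro i j h
    rcases le_total i j with hij | hij
    · exact h1a i j hij h
    · exact (h1a j i hij h.symm).symm
  have hvn : ∀ i k, θ (pre x (n * k + i)) = θ (pre x i) := by
    intro i k
    have h2 : n * k + i = L * (a * k) + i := by rw [hn]; ring
    rw [h2, hv, pow_mul, ha, pow_orderOf_eq_one, one_pow, one_mul]
  have hvmod : ∀ i, θ (pre x (i % n)) = θ (pre x i) := by
    intro i
    have h2 := hvn (i % n) (i / n)
    rw [Nat.div_add_mod] at h2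
    exact h2.symm
  have hxmod : ∀ i, x (i % n) = x i := by
    intro i
    apply Scl1_per hx
    exact (Nat.mod_modEq i n).of_dvd hLn
  have hvmod1 : ∀ i, θ (pre x (i % n + 1)) = θ (pre x (i + 1)) := by
    intro i
    rw [Scl1_succ, Scl1_succ, hvmod, hxmod]
  have hwmod : ∀ i, Scl1_w θ x (i % n) = Scl1_w θ x i := by
    intro i
    unfold Scl1_w
    rw [hvmod, hvmod1, hxmod]
  have hemod : ∀ i, Scl1_eps x (i % n) = Scl1_eps x i := by
    intro i
    unfold Scl1_eps
    rw [hxmod]
  -- letters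
  have hlt : ∀ i s, x i = (s, true) → θ (pre x (i + 1)) = θ (pre x i) * θ (FreeGroup.of s) := by
    intro i s h
    rw [Scl1_succ, h]
    rfl
  have hlf : ∀ i s, x i = (s, false) →
      θ (pre x (i + 1)) * θ (FreeGroup.of s) = θ (pre x i) := by
    intro i s h
    rw [Scl1_succ, h]
    show θ (pre x i) * θ (FreeGroup.of s)⁻¹ * θ (FreeGroup.of s) = _
    rw [map_inv, inv_mul_cancel_right]
  -- (3)
  have h3a : ∀ i j, (x i).2 = true → (x j).2 = false → (x i).1 = (x j).1 →
      Scl1_w θ x i = Scl1_w θ x j → False := by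
    intro i j hi hj hs hw
    have ei : x i = ((x i).1, true) := Prod.ext rfl hi
    have ej : x j = ((x i).1, false) := Prod.ext hs.symm hj
    unfold Scl1_w at hw
    rw [if_pos hi, if_neg (by rw [hj]; exact Bool.false_ne_true)] at hw
    have h4 := hlt i _ ei
    have h5 := hlf j _ ej
    rw [← hw] at h5
    have h6 : θ (pre x (i + 1)) = θ (pre x j) := by rw [h4, h5]
    have h7 : x (i + 1) = x j := Scl1_per hx (hσ _ _ h6)
    have h8 := hx.red i (by rw [h7]; exact hs)
    rw [h7, hi, hj] at h8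
    exact Bool.noConfusion h8
  have h3 : ∀ i j, (x i).1 = (x j).1 → Scl1_w θ x i = Scl1_w θ x j → i ≡ j [MOD n] := by
    intro i j hs hw
    rcases hi : (x i).2 with _ | _
    · rcases hj : (x j).2 with _ | _
      · unfold Scl1_w at hw
        rw [if_neg (by rw [hi]; exact Bool.false_ne_true),
          if_neg (by rw [hj]; exact Bool.false_ne_true)] at hw
        exact Nat.ModEq.add_right_cancel' 1 (h1 _ _ hw)
      · exact (h3a j i hj hi hs.symm hw.symm).elim
    · rcases hj : (x j).2 with _ | _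
      · exact (h3a i j hi hj hs hw).elim
      · unfold Scl1_w at hw
        rw [if_pos hi, if_pos hj] at hw
        exact h1 _ _ hw
  -- (4)
  have hpn : pre x L ^ a = pre x n := by
    have h4 := Scl1_pow hx a 0
    rw [add_zero] at h4
    rw [hn, h4]
    simp [pre]
  have hD1 : ∀ i, (Scl1_hom θ (pre x n)).v (Scl1_w θ x i, (x i).1) = Scl1_eps x i := by
    intro i
    rw [Scl1_delta, Finset.sum_eq_single (i % n)]
    · rw [hwmod, hxmod, hemod, if_pos rfl]
    · intro j hj hji
      rw [if_neg]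
      intro h4
      apply hji
      have h5 := h3 i j (congrArg Prod.snd h4) (congrArg Prod.fst h4)
      have h6 : j % n = i % n := h5.symm
      rw [Nat.mod_eq_of_lt (Finset.mem_range.1 hj)] at h6
      exact h6
    · intro h4
      exact absurd (Finset.mem_range.2 (Nat.mod_lt _ hn0)) h4
  have hD2 : ∀ z, (Scl1_hom θ (pre x n)).v z ≠ 0 → ∃ j, z = (Scl1_w θ x j, (x j).1) := by
    intro z hz
    by_contra hne
    push Not at hne
    apply hz
    rw [Scl1_delta]
    apply Finset.sum_eq_zero
    intro i _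
    rw [if_neg (hne i)]
  have hcomm : Scl1_hom θ q * Scl1_hom θ (pre x n) = Scl1_hom θ (pre x n) * Scl1_hom θ q := by
    rw [← hpn, map_pow]
    exact (show Commute (Scl1_hom θ q) (Scl1_hom θ (pre x L)) from hq).pow_right a
  have hD3 : Scl1_act (θ q) (Scl1_hom θ (pre x n)).v = (Scl1_hom θ (pre x n)).v := by
    have h4 := congrArg Scl1E.v hcomm
    rw [Scl1_mul_v, Scl1_mul_v, Scl1_hom_g, Scl1_hom_g] at h4
    have h5 : θ (pre x n) = 1 := by
      have h6 := hvn 0 1
      rw [mul_one, add_zero] at h6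
      rw [h6]
      show θ 1 = 1
      exact map_one θ
    rw [h5, Scl1_act_one, add_comm (Scl1_hom θ q).v] at h4
    exact add_right_cancel h4
  have heps : ∀ i, Scl1_eps x i ≠ 0 := by
    intro i
    unfold Scl1_eps
    split_ifs
    · decide
    · decide
  have h4 : ∀ i, ∃ j, x j = x i ∧ θ q * θ (pre x i) = θ (pre x j) := by
    intro i
    have h5 : (Scl1_hom θ (pre x n)).v (θ q * Scl1_w θ x i, (x i).1) = Scl1_eps x i := by
      rw [← hD3]
      show (Scl1_hom θ (pre x n)).v ((θ q)⁻¹ * (θ q * Scl1_w θ x i), (x i).1) = _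
      rw [inv_mul_cancel_left, hD1]
    obtain ⟨j, hj⟩ := hD2 _ (by rw [h5]; exact heps i)
    have hj1 : θ q * Scl1_w θ x i = Scl1_w θ x j := congrArg Prod.fst hj
    have hj2 : (x i).1 = (x j).1 := congrArg Prod.snd hj
    rw [hj, hD1] at h5
    have hb : (x j).2 = (x i).2 := by
      unfold Scl1_eps at h5
      rcases hi : (x i).2 with _ | _ <;> rcases hj' : (x j).2 with _ | _
      · rfl
      · rw [hi, hj'] at h5
        exact absurd h5 (by decide)
      · rw [hi, hj'] at h5
        exact absurd h5 (by decide)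
      · rfl
    have hxx : x j = x i := Prod.ext hj2.symm hb
    refine ⟨j, hxx, ?_⟩
    unfold Scl1_w at hj1
    rw [hxx] at hj1
    rcases hi : (x i).2 with _ | _
    · rw [if_neg (by rw [hi]; exact Bool.false_ne_true),
        if_neg (by rw [hi]; exact Bool.false_ne_true)] at hj1
      have e1 := hlf i (x i).1 (Prod.ext rfl hi)
      have e2 := hlf j (x i).1 (by rw [hxx]; exact Prod.ext rfl hi)
      rw [← e1, ← e2, ← hj1, mul_assoc]
    · rw [if_pos hi, if_pos hi] at hj1
      exact hj1
  -- (5)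
  obtain ⟨j₀, hj₀, hj₀'⟩ := h4 0
  have hv0 : θ (pre x 0) = 1 := map_one θ
  have h5 : ∀ i, θ q * θ (pre x i) = θ (pre x (j₀ + i)) ∧ x (j₀ + i) = x i := by
    intro i
    induction i with
    | zero => exact ⟨hj₀', hj₀⟩
    | succ i ih =>
      obtain ⟨ih1, ih2⟩ := ih
      have h6 : θ q * θ (pre x (i + 1)) = θ (pre x (j₀ + (i + 1))) := by
        have h7 : θ (pre x (j₀ + (i + 1))) = θ (pre x (j₀ + i)) * θ (ltr (x (j₀ + i))) :=
          Scl1_succ θ x (j₀ + i)
        rw [h7, ih2, ← ih1, Scl1_succ, mul_assoc]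
      refine ⟨h6, ?_⟩
      obtain ⟨j, hj, hj'⟩ := h4 (i + 1)
      rw [h6] at hj'
      rw [← hj]
      exact Scl1_per hx (hσ _ _ hj')
  -- (6)
  refine ⟨pre x j₀, ?_, ?_⟩
  · have hL : ∀ i, x (L + i) = x i := fun i => by rw [add_comm, hx.per]
    rw [← Scl1_pre (fun i => (h5 i).2) L, ← Scl1_pre hL j₀, add_comm]
  · rw [← hj₀', hv0, mul_one]

theorem p_Scl1 (h0 : S_cl0) : S_cl1 := by
  intro ι _ x L hx Q _ _ θ
  obtain ⟨P, _, _, σ, hσ⟩ := h0 ι x L hx
  refine ⟨Scl1E (Q × P) ι, inferInstance, Scl1_fin (Q × P) ι, Scl1_hom (θ.prod σ), ?_⟩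
  intro q hq
  obtain ⟨c, hc, hc'⟩ := Scl1_core (θ.prod σ) x L hx
    (fun i j h => hσ i j (congrArg Prod.snd h)) q hq
  exact ⟨c, hc, congrArg Prod.fst hc'⟩

end

end Pool.Agent.F8.CG
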