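import Pool.Agent.Lib.MP_305fdd_al.F8.CG.StmS3
import Pool.Agent.Lib.MP_305fdd_al.F8.CG.P_Jnsq
import Pool.Agent.Lib.MP_305fdd_al.F8.CG.P_Jun
import Pool.Agent.Lib.MP_305fdd_al.F8.CG.P_Jpi
import Pool.Agent.Lib.MP_305fdd_al.F8.CG.P_Vtv

/-!
# MP_305fdd_al: [CG S cm1] the main result of block S
-/

set_option autoImplicit false

namespace Pool.Agent.F8.CG

open Pool.Agent.F8.BG Pool.Agent.MP_305fdd_al Pool.Agent.Lib.MP_305fdd_al Pool.Agent.F8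
open scoped QuadraticAlgebra ComplexConjugate

noncomputable section

/-- `G tv(e, s) = tv(e₁, x) G` if `G e = c e₁` and `x det G = c² s` -/
private theorem Scm1_tv {R : Type} [CommRing R] [IsDomain R] (G : Matrix (Fin 2) (Fin 2) R)
    (e e₁ : Fin 2 → R) (c s x : R) (hc : c ≠ 0) (he : G.mulVec e = c • e₁)
    (hx : x * G.det = c ^ 2 * s) : G * (tv e s).val = (tv e₁ x).val * G := by
  have h0 : G 0 0 * e 0 + G 0 1 * e 1 = c * e₁ 0 := by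
    have h := congrFun he 0
    simpa [Matrix.mulVec, dotProduct, Fin.sum_univ_two] using h
  have h1 : G 1 0 * e 0 + G 1 1 * e 1 = c * e₁ 1 := by
    have h := congrFun he 1
    simpa [Matrix.mulVec, dotProduct, Fin.sum_univ_two] using h
  rw [Matrix.det_fin_two] at hx
  have r0 : x * (e₁ 0 * G 1 0 - e₁ 1 * G 0 0) = -(c * s * e 1) := by
    apply mul_left_cancel₀ hc
    linear_combination (-(x * G 1 0)) * h0 + (x * G 0 0) * h1 - (e 1) * hx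
  have r1 : x * (e₁ 0 * G 1 1 - e₁ 1 * G 0 1) = c * s * e 0 := by
    apply mul_left_cancel₀ hc
    linear_combination (-(x * G 1 1)) * h0 + (x * G 0 1) * h1 + (e 0) * hx
  have t00 : (tv e s).val 0 0 = 1 - s * e 0 * e 1 := rfl
  have t01 : (tv e s).val 0 1 = s * e 0 ^ 2 := rfl
  have t10 : (tv e s).val 1 0 = -(s * e 1 ^ 2) := rfl
  have t11 : (tv e s).val 1 1 = 1 + s * e 0 * e 1 := rfl
  have u00 : (tv e₁ x).val 0 0 = 1 - x * e₁ 0 * e₁ 1 := rfl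
  have u01 : (tv e₁ x).val 0 1 = x * e₁ 0 ^ 2 := rfl
  have u10 : (tv e₁ x).val 1 0 = -(x * e₁ 1 ^ 2) := rfl
  have u11 : (tv e₁ x).val 1 1 = 1 + x * e₁ 0 * e₁ 1 := rfl
  have k00 : (G * (tv e s).val) 0 0 = ((tv e₁ x).val * G) 0 0 := by
    rw [Matrix.mul_apply, Matrix.mul_apply, Fin.sum_univ_two, Fin.sum_univ_two, t00, t10, u00,
      u01]
    linear_combination (-(s * e 1)) * h0 - (e₁ 0) * r0
  have k01 : (G * (tv e s).val) 0 1 = ((tv e₁ x).val * G) 0 1 := by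
    rw [Matrix.mul_apply, Matrix.mul_apply, Fin.sum_univ_two, Fin.sum_univ_two, t01, t11, u00,
      u01]
    linear_combination (s * e 0) * h0 - (e₁ 0) * r1
  have k10 : (G * (tv e s).val) 1 0 = ((tv e₁ x).val * G) 1 0 := by
    rw [Matrix.mul_apply, Matrix.mul_apply, Fin.sum_univ_two, Fin.sum_univ_two, t00, t10, u10,
      u11]
    linear_combination (-(s * e 1)) * h1 - (e₁ 1) * r0
  have k11 : (G * (tv e s).val) 1 1 = ((tv e₁ x).val * G) 1 1 := by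
    rw [Matrix.mul_apply, Matrix.mul_apply, Fin.sum_univ_two, Fin.sum_univ_two, t01, t11, u10,
      u11]
    linear_combination (s * e 0) * h1 - (e₁ 1) * r1
  refine Matrix.ext fun i j => ?_
  fin_cases i <;> fin_cases j
  · exact k00
  · exact k01
  · exact k10
  · exact k11

/-- the content of `G e` divides the determinant -/
private theorem Scm1_det {R : Type} [CommRing R] (G : Matrix (Fin 2) (Fin 2) R)
    (e e₁ : Fin 2 → R) (c : R) (hp : IsCoprime (e 0) (e 1)) (he : G.mulVec e = c • e₁) :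
    c ∣ G.det := by
  have h0 : G 0 0 * e 0 + G 0 1 * e 1 = c * e₁ 0 := by
    have h := congrFun he 0
    simpa [Matrix.mulVec, dotProduct, Fin.sum_univ_two] using h
  have h1 : G 1 0 * e 0 + G 1 1 * e 1 = c * e₁ 1 := by
    have h := congrFun he 1
    simpa [Matrix.mulVec, dotProduct, Fin.sum_univ_two] using h
  obtain ⟨α, β, hα⟩ := hp
  refine ⟨α * (G 1 1 * e₁ 0 - G 0 1 * e₁ 1) + β * (G 0 0 * e₁ 1 - G 1 0 * e₁ 0), ?_⟩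
  rw [Matrix.det_fin_two]
  linear_combination (-(G 0 0 * G 1 1 - G 0 1 * G 1 0)) * hα +
    (α * G 1 1 - β * G 1 0) * h0 + (β * G 0 0 - α * G 0 1) * h1

private theorem Scm1_rdq {a b : ℤ} (n : ℕ) (x y : GQ a b) (h : rdq a b n x = rdq a b n y)
    (i j : Fin 2) : (n : Qf a b ℤ) ∣ x.val i j - y.val i j := by
  apply E_ker
  rw [map_sub, sub_eq_zero]
  exact congrFun (congrFun (congrArg Subtype.val h) i) j

private theorem Scm1_mem {a b : ℤ} (m : ℕ) (x : GQ a b)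
    (h : ∀ i j, (m : Qf a b ℤ) ∣ x.val i j - (1 : GQ a b).val i j) : x ∈ Gam a b m := by
  show rdq a b m x = 1
  rw [← map_one (rdq a b m)]
  apply Subtype.ext
  refine Matrix.ext fun i j => ?_
  obtain ⟨y, hy⟩ := h i j
  have h1 : Qfm a b (Int.castRingHom (ZMod m)) (x.val i j) =
      Qfm a b (Int.castRingHom (ZMod m)) ((1 : GQ a b).val i j) := by
    rw [← sub_eq_zero, ← map_sub, hy, Qfm_natCast]
  exact h1

private theorem Scm1_tvmem {a b : ℤ} {m : ℕ} (e : Fin 2 → Qf a b ℤ) (s : Qf a b ℤ)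
    (h : (m : Qf a b ℤ) ∣ s) : tv e s ∈ Gam a b m := by
  obtain ⟨c, rfl⟩ := h
  exact tv_mem (dvd_refl m) e c

/-- the comparison of two transvections modulo `n` -/
private theorem Scm1_sq {a b : ℤ} (n : ℕ) (f g : Fin 2 → Qf a b ℤ) (X Y : Qf a b ℤ)
    (hp : IsCoprime (f 0) (f 1)) (h : rdq a b n (tv f X) = rdq a b n (tv g Y)) :
    ∃ P : Qf a b ℤ, (n : Qf a b ℤ) ∣ X - Y * P ^ 2 := by
  have h01 : (n : Qf a b ℤ) ∣ X * f 0 ^ 2 - Y * g 0 ^ 2 := Scm1_rdq n _ _ h 0 1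
  have h10 : (n : Qf a b ℤ) ∣ -(X * f 1 ^ 2) - -(Y * g 1 ^ 2) := Scm1_rdq n _ _ h 1 0
  have h11 : (n : Qf a b ℤ) ∣ (1 + X * f 0 * f 1) - (1 + Y * g 0 * g 1) := Scm1_rdq n _ _ h 1 1
  obtain ⟨x, hx⟩ := h01
  obtain ⟨y, hy⟩ := h10
  obtain ⟨z, hz⟩ := h11
  obtain ⟨α, β, hα⟩ := hp
  refine ⟨α * g 0 + β * g 1, α ^ 2 * x + 2 * α * β * z - β ^ 2 * y, ?_⟩
  linear_combination α ^ 2 * hx + 2 * α * β * hz - β ^ 2 * hy -
    X * (α * f 0 + β * f 1 + 1) * hα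

private theorem Scm1_sc {a b : ℤ} (k : ℕ) (X : MQ a b) (h : ScQ k X) (v : Fin 2 → Qf a b ℤ)
    (i : Fin 2) : (k : Qf a b ℤ) ∣ X.mulVec v i - X 0 0 * v i := by
  obtain ⟨⟨x, hx⟩, ⟨y, hy⟩, ⟨z, hz⟩⟩ := h
  fin_cases i
  · have h1 : X.mulVec v 0 = X 0 0 * v 0 + X 0 1 * v 1 := by
      simp [Matrix.mulVec, dotProduct, Fin.sum_univ_two]
    refine ⟨x * v 1, ?_⟩
    show X.mulVec v 0 - X 0 0 * v 0 = _
    rw [h1]
    linear_combination v 1 * hx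
  · have h1 : X.mulVec v 1 = X 1 0 * v 0 + X 1 1 * v 1 := by
      simp [Matrix.mulVec, dotProduct, Fin.sum_univ_two]
    refine ⟨y * v 0 - z * v 1, ?_⟩
    show X.mulVec v 1 - X 0 0 * v 1 = _
    rw [h1]
    linear_combination v 0 * hy - v 1 * hz

/-- congruences are preserved by matrices -/
private theorem Scm1_cgr {a b : ℤ} (k : ℕ) (X : MQ a b) (v w : Fin 2 → Qf a b ℤ)
    (h : ∀ i, (k : Qf a b ℤ) ∣ v i - w i) (i : Fin 2) :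
    (k : Qf a b ℤ) ∣ X.mulVec v i - X.mulVec w i := by
  have h1 : ∀ v : Fin 2 → Qf a b ℤ, X.mulVec v i = X i 0 * v 0 + X i 1 * v 1 := by
    intro v
    simp [Matrix.mulVec, dotProduct, Fin.sum_univ_two]
  obtain ⟨x, hx⟩ := h 0
  obtain ⟨y, hy⟩ := h 1
  refine ⟨X i 0 * x + X i 1 * y, ?_⟩
  rw [h1, h1]
  linear_combination X i 0 * hx + X i 1 * hy

private theorem Scm1_sgn {a b : ℤ} (k : ℕ) (μ μ₁ μ₂ x y : Qf a b ℤ)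
    (h1 : μ₁ = μ ∨ μ₁ = -μ) (h2 : μ₂ = μ ∨ μ₂ = -μ) (hμ : (k : Qf a b ℤ) ∣ μ ^ 2 - 1)
    (h : (k : Qf a b ℤ) ∣ μ₁ * x - μ₂ * y) :
    (k : Qf a b ℤ) ∣ x - y ∨ (k : Qf a b ℤ) ∣ x + y := by
  obtain ⟨z, hz⟩ := hμ
  obtain ⟨t, ht⟩ := h
  rcases h1 with rfl | rfl <;> rcases h2 with rfl | rfl
  · left
    exact ⟨μ₂ * t - z * (x - y), by linear_combination μ₂ * ht - (x - y) * hz⟩
  · right
    exact ⟨μ₁ * t - z * (x + y), by linear_combination μ₁ * ht - (x + y) * hz⟩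
  · right
    exact ⟨-(μ₂ * t) - z * (x + y), by linear_combination (-μ₂) * ht - (x + y) * hz⟩
  · left
    exact ⟨-(μ * t) - z * (x - y), by linear_combination (-μ) * ht - (x - y) * hz⟩

/-- the integer `nq D` as a natural number -/
private theorem Scm1_nq {a b : ℤ} (hn : b ^ 2 + 4 * a < 0) (D : Qf a b ℤ) (hD : D ≠ 0) :
    ∃ d : ℕ, d ≠ 0 ∧ (d : Qf a b ℤ) = D * cjq a b ℤ D := by
  have h1 := nq_nonneg hn D
  have h2 : nq D ≠ 0 := fun h => hD (nq_eq_zero hn h)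
  refine ⟨(nq D).toNat, by omega, ?_⟩
  rw [mul_cjq]
  apply QuadraticAlgebra.ext
  · simp [h1]
  · simp

private theorem Scm1_cast {a b : ℤ} {n : ℕ} (h : n ≠ 0) : (n : Qf a b ℤ) ≠ 0 := by
  intro h0
  have h1 := congrArg QuadraticAlgebra.re h0
  simp at h1
  exact h h1

private theorem Scm1_cancel {R : Type} [CommRing R] [IsDomain R]
    (A X Y : Matrix (Fin 2) (Fin 2) R) (hA : A.det ≠ 0) (h : X * A = Y * A) : X = Y := by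
  have h1 : X * A * A.adjugate = Y * A * A.adjugate := by rw [h]
  rw [Matrix.mul_assoc, Matrix.mul_assoc, Matrix.mul_adjugate, Matrix.mul_smul, Matrix.mul_smul,
    Matrix.mul_one, Matrix.mul_one] at h1
  refine Matrix.ext fun i j => ?_
  have h4 := congrFun (congrFun h1 i) j
  rw [Matrix.smul_apply, Matrix.smul_apply, smul_eq_mul, smul_eq_mul] at h4
  exact mul_left_cancel₀ hA h4

/-- the arithmetic of step (2) -/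
private theorem Scm1_ar {R : Type} [CommRing R] [IsDomain R] [IsPrincipalIdealRing R]
    (n T ks r x₁ x' P P' : R) (hx₁ : x₁ ≠ 0) (hn : n = T * (r * ks)) (h1 : x₁ ∣ T) (h2 : x' ∣ T)
    (hP : n ∣ x' - x₁ * P ^ 2) (hP' : n ∣ x₁ - x' * P' ^ 2) :
    ∃ t', IsUnit t' ∧ x' = x₁ * t' ∧ ks ∣ t' - P ^ 2 := by
  obtain ⟨T', hT'⟩ := h1
  obtain ⟨T'', hT''⟩ := h2
  obtain ⟨y, hy⟩ := hP
  obtain ⟨y', hy'⟩ := hP'
  have e1 : x' = x₁ * (T' * (r * ks) * y + P ^ 2) := by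
    linear_combination hy + y * hn + r * ks * y * hT'
  have e2 : x₁ = x' * (T'' * (r * ks) * y' + P' ^ 2) := by
    linear_combination hy' + y' * hn + r * ks * y' * hT''
  refine ⟨T' * (r * ks) * y + P ^ 2, ?_, e1, ⟨T' * r * y, by ring⟩⟩
  have e3 : (T' * (r * ks) * y + P ^ 2) * (T'' * (r * ks) * y' + P' ^ 2) = 1 := by
    apply mul_left_cancel₀ hx₁
    rw [← mul_assoc, ← e1, ← e2, mul_one]
  exact IsUnit.of_mul_eq_one _ e3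

theorem p_Scm1 (h0 : S_cm0) : S_cm1 := by
  intro a b K _ φ Γ m₀ m₁ Λ _ Φ Q _ _ π L ρ H F hpid h5 C V N₁ hP Ψ D hSM l τ hτ
  classical
  have hn := H.neg
  have hdom : IsDomain (Qf a b ℤ) := Qf_domain hn
  obtain ⟨hmN, hN₁, hPair⟩ := hP
  obtain ⟨A, hAτ, hA, hcmp⟩ := h0 a b K φ Γ m₀ m₁ Λ Φ Q π L ρ H F hpid l τ hτ
  have hAdet : A.det ≠ 0 := F.det A τ hAτ
  -- the contents
  have hcont : ∀ (G : MQ a b) (e : Fin 2 → Qf a b ℤ), G.det ≠ 0 → Prm e →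
      ∃ (c : Qf a b ℤ) (e₁ : Fin 2 → Qf a b ℤ), c ≠ 0 ∧ Prm e₁ ∧ G.mulVec e = c • e₁ ∧
        c ∣ G.det := by
    intro G e hG he
    have h1 : G.mulVec e ≠ 0 := by
      intro h2
      have h3 := Scm1_det G e 0 0 ((C.cop e).1 he) (by rw [h2, smul_zero])
      exact hG (zero_dvd_iff.1 h3)
    obtain ⟨c, e₁, hc, he₁, h4⟩ := C.dec _ h1
    exact ⟨c, e₁, hc, he₁, h4, Scm1_det G e e₁ c ((C.cop e).1 he) h4⟩
  obtain ⟨f, hf⟩ : ∃ f : Fin 2 → Qf a b ℤ, f = ![1, 0] := ⟨_, rfl⟩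
  have hfP : Prm f := by
    rw [C.cop, hf]
    exact isCoprime_one_left
  obtain ⟨c, f₁, hc, hf₁, hAf, hcD⟩ := hcont A f hAdet hfP
  obtain ⟨dN, hdN0, hdN⟩ := Scm1_nq hn A.det hAdet
  obtain ⟨D₁, hD₁⟩ : ∃ D₁ : Qf a b ℤ, D₁ = cjq a b ℤ A.det := ⟨_, rfl⟩
  rw [← hD₁] at hdN
  have hm₀ : m₀ ≠ 0 := by
    have := H.h5
    omega
  have hm₁ : m₁ ≠ 0 := H.ne
  obtain ⟨T₁, hT₁⟩ : ∃ T₁ : ℕ, T₁ = N₁ * m₁ * dN := ⟨_, rfl⟩
  obtain ⟨T, hT⟩ : ∃ T : ℕ, T = N₁ ^ 2 * m₁ ^ 2 * dN ^ 3 := ⟨_, rfl⟩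
  obtain ⟨k, hk⟩ : ∃ k : ℕ, k = m₀ * dN := ⟨_, rfl⟩
  obtain ⟨D', hD'⟩ : ∃ D' : Qf a b ℤ, D' = (N₁ : Qf a b ℤ) * m₁ * D₁ := ⟨_, rfl⟩
  have hT0 : T ≠ 0 := by
    rw [hT]
    exact Nat.mul_ne_zero (Nat.mul_ne_zero (pow_ne_zero _ hN₁) (pow_ne_zero _ hm₁))
      (pow_ne_zero _ hdN0)
  have hT₁0 : T₁ ≠ 0 := by
    rw [hT₁]
    exact Nat.mul_ne_zero (Nat.mul_ne_zero hN₁ hm₁) hdN0
  have hk0 : k ≠ 0 := by
    rw [hk]
    exact Nat.mul_ne_zero hm₀ hdN0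
  have hT₁D : (T₁ : Qf a b ℤ) = A.det * D' := by
    rw [hT₁, hD', Nat.cast_mul, Nat.cast_mul, hdN]
    ring
  have hTD : (T : Qf a b ℤ) = A.det ^ 2 * D' * ((N₁ : Qf a b ℤ) * m₁ * A.det * D₁ ^ 2) := by
    rw [hT, hD', Nat.cast_mul, Nat.cast_mul, Nat.cast_pow, Nat.cast_pow, Nat.cast_pow, hdN]
    ring
  have hD'0 : D' ≠ 0 := by
    intro h
    rw [h, mul_zero] at hT₁D
    exact Scm1_cast hT₁0 hT₁D
  have hmNO : (m₀ : Qf a b ℤ) ∣ (N₁ : Qf a b ℤ) := Nat.cast_dvd_cast hmN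
  have hmD' : (m₀ : Qf a b ℤ) ∣ D' := by
    rw [hD', mul_assoc]
    exact hmNO.mul_right _
  have hNT₁ : (N₁ : Qf a b ℤ) ∣ T₁ := by
    rw [hT₁]
    exact Nat.cast_dvd_cast ⟨m₁ * dN, by ring⟩
  have hm₁T₁ : (m₁ : Qf a b ℤ) ∣ T₁ := by
    rw [hT₁]
    exact Nat.cast_dvd_cast ⟨N₁ * dN, by ring⟩
  have hNT : (N₁ : Qf a b ℤ) ∣ T := by
    rw [hT]
    exact Nat.cast_dvd_cast ⟨N₁ * m₁ ^ 2 * dN ^ 3, by ring⟩
  have hmT : m₀ ∣ T := by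
    rw [hT]
    exact hmN.trans ⟨N₁ * m₁ ^ 2 * dN ^ 3, by ring⟩
  -- the moduli
  obtain ⟨n₀, hn₀, hcmp'⟩ := hcmp k hk0
  obtain ⟨n₁, hn₁z, Q₁, _, _, θ₁, hSM'⟩ := hSM k T hk0 hT0
  obtain ⟨ks, hks, hsq⟩ := p_Jnsq p_Jun a b hn h5
  obtain ⟨n, hnn⟩ : ∃ n : ℕ, n = n₀ * (n₁ * (T * ks)) := ⟨_, rfl⟩
  have hn0 : n ≠ 0 := by
    rw [hnn]
    exact Nat.mul_ne_zero hn₀ (Nat.mul_ne_zero (NeZero.ne n₁) (Nat.mul_ne_zero hT0 hks))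
  have hnz : NeZero n := ⟨hn0⟩
  obtain ⟨h, hh, hGd⟩ := D.gd n
  have hGd₁ : Gd Ψ n₁ h := V.gdm Ψ n n₁ h (by
    rw [hnn]
    exact ⟨n₀ * (T * ks), by ring⟩) hGd
  obtain ⟨μ, hμ, hμ'⟩ := hSM' h hGd₁
  obtain ⟨R', _, _, θ, href⟩ :=
    D.ref _ (θ₁.prod ((rdq a b n).comp (Gam a b m₀).subtype))
  have star : ∀ (x : GQ a b) (hx : x ∈ Gam a b m₀) (hx' : pcQ φ x ∈ Γ) (y : L)
      (hy : ρ y ∈ Gam a b m₀), θ ⟨pcQ φ x, hx'⟩ = Φ.toFun R' θ y →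
      θ₁ ⟨x, hx⟩ = Ψ.toFun Q₁ θ₁ ⟨ρ y, hy⟩ ∧
        rdq a b n (ρ y) = rdq a b n (h * x * h⁻¹) := by
    intro x hx hx' y hy he
    have h1 := href ⟨x, hx⟩ hx' y hy he
    rw [pair_prod] at h1
    refine ⟨congrArg Prod.fst h1, ?_⟩
    have h2 : rdq a b n x =
        Ψ.toFun _ ((rdq a b n).comp (Gam a b m₀).subtype) ⟨ρ y, hy⟩ := congrArg Prod.snd h1
    have h3 := hGd ⟨ρ y, hy⟩
    rw [← h2] at h3
    rw [map_mul, map_mul, map_inv]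
    exact h3
  have hrng : ∀ y : L, ρ y ∈ Gam a b m₀ := fun y => by
    rw [← H.rng]
    exact ⟨y, rfl⟩
  have hlift : ∀ g ∈ Gam a b m₀, ∃ y : L, ρ y = g := fun g hg => by
    rw [← H.rng] at hg
    exact hg
  let θ₀ : Gam a b m₀ →* R' :=
    θ.comp (((pcQ φ).comp (Gam a b m₀).subtype).codRestrict Γ fun x => H.le x x.2)
  have hcmp0 : ∀ y : L, Φ.toFun R' θ y = Ψ.toFun R' θ₀ ⟨ρ y, hrng y⟩ := fun y =>
    D.cmp R' θ θ₀ (fun x h => rfl) y (hrng y)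
  obtain ⟨e, heP, -, hmN', hVD⟩ := (hPair Ψ (fun k _ => by
    obtain ⟨h, -, hh⟩ := D.gd k
    exact ⟨h, hh⟩) R' θ₀).1 f hfP
  have hVD' : ∀ (s : Qf a b ℤ), (N₁ : Qf a b ℤ) ∣ s → ∀ (h1 : tv e s ∈ Gam a b m₀) (y : L),
      ρ y = tv f s → θ ⟨pcQ φ (tv e s), H.le _ h1⟩ = Φ.toFun R' θ y := by
    rintro _ ⟨t, rfl⟩ h1 y hy
    rw [hcmp0 y]
    have h2 := hVD t
    have h3 : (uD m₀ hmN' f t : Gam a b m₀) = ⟨ρ y, hrng y⟩ := Subtype.ext hy.symm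
    rw [h3] at h2
    exact h2
  obtain ⟨γ, hγθ, hγπ⟩ := pair_val Φ θ π l
  obtain ⟨G, X₀, hG, hX₀u, hX₀s, hGX⟩ := hcmp' n hn0 (by
    rw [hnn]
    exact ⟨_, rfl⟩) R' θ h (fun y x hx hx' he => (star x hx hx' y (hrng y) he).2) γ hγθ hγπ
  have hGdet : G.det ≠ 0 := F.det G _ hG
  have hdet : G.det * X₀.det = A.det := by
    have h1 := congrArg Matrix.det hGX
    rw [Matrix.det_mul, Matrix.det_mul, Matrix.det_mul, h.2, one_mul, mul_one] at h1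
    exact h1
  obtain ⟨c₁, e₁, hc₁, he₁, hGe, hc₁G⟩ := hcont G e hGdet heP
  obtain ⟨u₀, hu₀⟩ : ∃ u₀, u₀ = X₀.det := ⟨_, rfl⟩
  rw [← hu₀] at hdet hX₀u
  obtain ⟨x₁, hx₁⟩ : ∃ x₁, x₁ = c₁ ^ 2 * u₀ * D' := ⟨_, rfl⟩
  obtain ⟨x', hx'⟩ : ∃ x', x' = c ^ 2 * D' := ⟨_, rfl⟩
  have hx₁m : (m₀ : Qf a b ℤ) ∣ x₁ := by
    rw [hx₁]
    exact hmD'.mul_left _
  have hx'm : (m₀ : Qf a b ℤ) ∣ x' := by
    rw [hx']
    exact hmD'.mul_left _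
  have M1 : ∀ t, tv e₁ (x₁ * t) ∈ Gam a b m₀ := fun t => Scm1_tvmem _ _ (hx₁m.mul_right _)
  have M2 : ∀ t, tv f₁ (x' * t) ∈ Gam a b m₀ := fun t => Scm1_tvmem _ _ (hx'm.mul_right _)
  have hL1 : ∀ y : L, Φ.toFun Q π y = 1 → l * y * l⁻¹ ∈ L := by
    intro y hy
    rw [H.memL]
    refine ⟨1, one_mem _, ?_⟩
    rw [map_mul, map_mul, hy, mul_one, map_inv, mul_inv_cancel]
    have h1 : (⟨pcQ φ 1, H.le 1 (one_mem _)⟩ : Γ) = 1 := Subtype.ext (map_one _)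
    rw [h1, map_one]
  have step1 : ∀ t, θ₁ ⟨tv e₁ (x₁ * t), M1 t⟩ = Ψ.toFun Q₁ θ₁ ⟨tv f₁ (x' * t), M2 t⟩ ∧
      rdq a b n (tv f₁ (x' * t)) = rdq a b n (h * tv e₁ (x₁ * t) * h⁻¹) := by
    intro t
    have hm1 : (m₀ : Qf a b ℤ) ∣ T₁ * t := (hmNO.trans hNT₁).mul_right _
    obtain ⟨y, hy⟩ := hlift (tv f ((T₁ : Qf a b ℤ) * t)) (Scm1_tvmem _ _ hm1)
    have hyπ : Φ.toFun Q π y = 1 := by
      have hΓ : pcQ φ (ρ y) ∈ Γ := H.le _ (hrng y)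
      rw [p_Jpi a b K φ Γ m₀ m₁ Λ Φ Q π L ρ H y hΓ]
      refine H.ker' _ ⟨ρ y, ?_, rfl⟩
      rw [hy]
      exact Scm1_tvmem _ _ (hm₁T₁.mul_right _)
    have e1 := hA y ⟨l * y * l⁻¹, hL1 y hyπ⟩ hyπ rfl
    have e2 : A * (tv f ((T₁ : Qf a b ℤ) * t)).val = (tv f₁ (x' * t)).val * A :=
      Scm1_tv A f f₁ c _ _ hc hAf (by
        rw [hx', hT₁D]
        ring)
    rw [hy, e2] at e1
    have e3 : ρ ⟨l * y * l⁻¹, hL1 y hyπ⟩ = tv f₁ (x' * t) :=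
      Subtype.ext (Scm1_cancel A _ _ hAdet e1)
    have e4 : G * (tv e ((T₁ : Qf a b ℤ) * t)).val = (tv e₁ (x₁ * t)).val * G :=
      Scm1_tv G e e₁ c₁ _ _ hc₁ hGe (by
        rw [hx₁, hT₁D, ← hdet]
        ring)
    have e5 : (γ : PGK K) * pcQ φ (tv e ((T₁ : Qf a b ℤ) * t)) =
        pcQ φ (tv e₁ (x₁ * t)) * γ := by
      have h1 := F.mul _ _ _ _ hG (F.pc (tv e ((T₁ : Qf a b ℤ) * t)))
      have h2 := F.mul _ _ _ _ (F.pc (tv e₁ (x₁ * t))) hG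
      rw [e4] at h1
      exact F.uniq _ _ _ h1 h2
    have e6 := hVD' ((T₁ : Qf a b ℤ) * t) (hNT₁.mul_right _) (Scm1_tvmem _ _ hm1) y hy
    have e7 : θ ⟨pcQ φ (tv e₁ (x₁ * t)), H.le _ (M1 t)⟩ =
        Φ.toFun R' θ ((⟨l * y * l⁻¹, hL1 y hyπ⟩ : L) : Λ) := by
      have h1 : (⟨pcQ φ (tv e₁ (x₁ * t)), H.le _ (M1 t)⟩ : Γ) =
          γ * ⟨pcQ φ (tv e ((T₁ : Qf a b ℤ) * t)), H.le _ (Scm1_tvmem _ _ hm1)⟩ * γ⁻¹ := by
        apply Subtype.ext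
        show pcQ φ (tv e₁ (x₁ * t)) =
          (γ : PGK K) * pcQ φ (tv e ((T₁ : Qf a b ℤ) * t)) * (γ : PGK K)⁻¹
        rw [e5, mul_inv_cancel_right]
      rw [h1, map_mul, map_mul, map_inv, e6, hγθ]
      show _ = Φ.toFun R' θ (l * y * l⁻¹)
      rw [map_mul, map_mul, map_inv]
    obtain ⟨e9, e10⟩ := star _ (M1 t) (H.le _ (M1 t)) ⟨l * y * l⁻¹, hL1 y hyπ⟩ (hrng _) e7
    rw [e3] at e10
    refine ⟨?_, e10⟩
    rw [e9]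
    exact congrArg _ (Subtype.ext e3)
  -- step (2)
  have hcj : ∀ t, h * tv e₁ t * h⁻¹ = tv (h.val.mulVec e₁) t := fun t =>
    (p_Vtv (Qf a b ℤ) e₁ 0 t).2.2.1 h
  have hmod := (step1 1).2
  rw [hcj, mul_one, mul_one] at hmod
  have hhe₁ : Prm (h.val.mulVec e₁) := C.act h e₁ he₁
  obtain ⟨P, hP⟩ := Scm1_sq n f₁ (h.val.mulVec e₁) x' x₁ ((C.cop _).1 hf₁) hmod
  obtain ⟨P', hP'⟩ := Scm1_sq n (h.val.mulVec e₁) f₁ x₁ x' ((C.cop _).1 hhe₁) hmod.symm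
  have hx₁0 : x₁ ≠ 0 := by
    rw [hx₁]
    exact mul_ne_zero (mul_ne_zero (pow_ne_zero _ hc₁) hX₀u.ne_zero) hD'0
  obtain ⟨g₁, hg₁⟩ := hc₁G
  obtain ⟨g, hg⟩ := hcD
  have hx₁T : x₁ ∣ T := by
    refine ⟨g₁ ^ 2 * u₀ * ((N₁ : Qf a b ℤ) * m₁ * A.det * D₁ ^ 2), ?_⟩
    rw [hTD, hx₁]
    have h1 : A.det ^ 2 = (c₁ * g₁ * u₀) ^ 2 := by rw [← hdet, hg₁]
    rw [h1]
    ring
  have hx'T : x' ∣ T := by
    refine ⟨g ^ 2 * ((N₁ : Qf a b ℤ) * m₁ * A.det * D₁ ^ 2), ?_⟩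
    rw [hTD, hx']
    have h1 : A.det ^ 2 = (c * g) ^ 2 := by rw [hg]
    rw [h1]
    ring
  obtain ⟨t', ht'u, ht', ht's⟩ := Scm1_ar (n : Qf a b ℤ) T ks (n₀ * n₁) x₁ x' P P' hx₁0 (by
    rw [hnn]
    push_cast
    ring) hx₁T hx'T hP hP'
  obtain ⟨v, hv, hv2⟩ := hsq t' P ht'u ht's
  have hc2 : c ^ 2 = u₀ * (v * c₁) ^ 2 := by
    apply mul_right_cancel₀ hD'0
    rw [← hx', ht', hx₁, hv2]
    ring
  have hint : IsIntegrallyClosed (Qf a b ℤ) := inferInstance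
  have hvc : v * c₁ ∣ c := by
    rw [← IsIntegrallyClosed.pow_dvd_pow_iff (two_ne_zero)]
    exact ⟨u₀, by rw [hc2]; ring⟩
  obtain ⟨s', hs'⟩ := hvc
  have hs'2 : s' ^ 2 = u₀ := by
    have h1 : (v * c₁) ^ 2 ≠ 0 := pow_ne_zero _ (mul_ne_zero hv.ne_zero hc₁)
    apply mul_left_cancel₀ h1
    rw [← mul_pow, ← hs', hc2]
    ring
  -- step (3)
  obtain ⟨T', hT'⟩ := hx₁T
  have VD1 : VD Ψ θ₁ T e₁ (v • f₁) := by
    refine ⟨he₁, C.unit v f₁ hv hf₁, hmT, fun t => ?_⟩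
    have h1 := (step1 (T' * t)).1
    have h2 : (uD m₀ hmT e₁ t : Gam a b m₀) = ⟨tv e₁ (x₁ * (T' * t)), M1 _⟩ := by
      apply Subtype.ext
      show tv e₁ ((T : Qf a b ℤ) * t) = tv e₁ (x₁ * (T' * t))
      rw [hT', mul_assoc]
    have h3 : (uD m₀ hmT (v • f₁) t : Gam a b m₀) = ⟨tv f₁ (x' * (T' * t)), M2 _⟩ := by
      apply Subtype.ext
      show tv (v • f₁) ((T : Qf a b ℤ) * t) = tv f₁ (x' * (T' * t))
      rw [(p_Vtv (Qf a b ℤ) f₁ 0 _).2.2.2.1 v, hT', ht', hv2]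
      congr 1
      ring
    rw [h2, h3]
    exact h1
  have VD2 : VD Ψ θ₁ T e f := by
    refine ⟨heP, hfP, hmT, fun t => ?_⟩
    have hm1 : (m₀ : Qf a b ℤ) ∣ (T : Qf a b ℤ) * t := (hmNO.trans hNT).mul_right _
    obtain ⟨y, hy⟩ := hlift (tv f ((T : Qf a b ℤ) * t)) (Scm1_tvmem _ _ hm1)
    have e6 := hVD' ((T : Qf a b ℤ) * t) (hNT.mul_right _) (Scm1_tvmem _ _ hm1) y hy
    have e7 := (star _ (Scm1_tvmem _ _ hm1) _ y (hrng y) e6).1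
    have h3 : (uD m₀ hmT f t : Gam a b m₀) = ⟨ρ y, hrng y⟩ := Subtype.ext hy.symm
    rw [h3]
    exact e7
  -- step (4)
  obtain ⟨μ₁, hμ₁, hC1⟩ : ∃ μ₁ : Qf a b ℤ, (μ₁ = μ ∨ μ₁ = -μ) ∧
      Cgr k (h.val.mulVec e) (μ₁ • f) := by
    rcases hμ' e f VD2 with h1 | h1
    · exact ⟨μ, Or.inl rfl, h1⟩
    · exact ⟨-μ, Or.inr rfl, h1⟩
  obtain ⟨μ₂, hμ₂, hC2⟩ : ∃ μ₂ : Qf a b ℤ, (μ₂ = μ ∨ μ₂ = -μ) ∧
      Cgr k (h.val.mulVec e₁) (μ₂ • (v • f₁)) := by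
    rcases hμ' e₁ (v • f₁) VD1 with h1 | h1
    · exact ⟨μ, Or.inl rfl, h1⟩
    · exact ⟨-μ, Or.inr rfl, h1⟩
  have hvec : A.mulVec (h.val.mulVec e) = (h.val * G).mulVec (X₀.mulVec e) := by
    rw [Matrix.mulVec_mulVec, Matrix.mulVec_mulVec, hGX]
  have hi : ∀ i, (k : Qf a b ℤ) ∣ (μ₁ * c - μ₂ * (X₀ 0 0 * c₁ * v)) * f₁ i := by
    intro i
    obtain ⟨z1, hz1⟩ := Scm1_cgr k A _ _ hC1 i
    obtain ⟨z2, hz2⟩ := Scm1_cgr k (h.val * G) (X₀.mulVec e) (X₀ 0 0 • e)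
      (fun j => Scm1_sc k X₀ hX₀s e j) i
    obtain ⟨z3, hz3⟩ := hC2 i
    have k1 : A.mulVec (μ₁ • f) i = μ₁ * (c * f₁ i) := by
      rw [Matrix.mulVec_smul, hAf]
      rfl
    have k2 : (h.val * G).mulVec (X₀ 0 0 • e) i = X₀ 0 0 * (c₁ * h.val.mulVec e₁ i) := by
      rw [Matrix.mulVec_smul, ← Matrix.mulVec_mulVec, hGe, Matrix.mulVec_smul]
      rfl
    have k3 : (μ₂ • (v • f₁)) i = μ₂ * (v * f₁ i) := rfl
    rw [k1] at hz1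
    rw [k2, ← hvec] at hz2
    rw [k3] at hz3
    refine ⟨-z1 + z2 + X₀ 0 0 * c₁ * z3, ?_⟩
    linear_combination (-1) * hz1 + hz2 + X₀ 0 0 * c₁ * hz3
  have hkk : (k : Qf a b ℤ) ∣ μ₁ * c - μ₂ * (X₀ 0 0 * c₁ * v) := by
    obtain ⟨α, β, hαβ⟩ := (C.cop f₁).1 hf₁
    obtain ⟨z1, hz1⟩ := hi 0
    obtain ⟨z2, hz2⟩ := hi 1
    refine ⟨α * z1 + β * z2, ?_⟩
    linear_combination α * hz1 + β * hz2 - (μ₁ * c - μ₂ * (X₀ 0 0 * c₁ * v)) * hαβ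
  obtain ⟨vi, hvi⟩ := hv.exists_right_inv
  have hkw : (k : Qf a b ℤ) = c₁ * (m₀ * (g₁ * u₀ * D₁)) := by
    rw [hk, Nat.cast_mul, hdN, ← hdet, hg₁]
    ring
  have hσ : ∃ σ : Qf a b ℤ, σ ^ 2 = u₀ ∧ (m₀ : Qf a b ℤ) ∣ X₀ 0 0 - σ := by
    rcases Scm1_sgn k μ μ₁ μ₂ c (X₀ 0 0 * c₁ * v) hμ₁ hμ₂ hμ hkk with ⟨z, hz⟩ | ⟨z, hz⟩
    · refine ⟨s', hs'2, ⟨-(g₁ * u₀ * D₁ * z * vi), ?_⟩⟩
      have h1 : v * (s' - X₀ 0 0) = m₀ * (g₁ * u₀ * D₁) * z := by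
        apply mul_left_cancel₀ hc₁
        rw [hkw, hs'] at hz
        linear_combination hz
      linear_combination (-vi) * h1 + (s' - X₀ 0 0) * hvi
    · refine ⟨-s', by rw [neg_sq, hs'2], ⟨g₁ * u₀ * D₁ * z * vi, ?_⟩⟩
      have h1 : v * (s' + X₀ 0 0) = m₀ * (g₁ * u₀ * D₁) * z := by
        apply mul_left_cancel₀ hc₁
        rw [hkw, hs'] at hz
        linear_combination hz
      linear_combination vi * h1 - (s' + X₀ 0 0) * hvi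
  obtain ⟨σ, hσ2, hσm⟩ := hσ
  -- step (5)
  have hσu : IsUnit σ := by
    rw [← hσ2] at hX₀u
    exact (isUnit_pow_iff two_ne_zero).1 hX₀u
  obtain ⟨σi, hσi⟩ := hσu.exists_right_inv
  have hzdet : (σi • X₀).det = 1 := by
    rw [Matrix.det_smul, Fintype.card_fin, ← hu₀, ← hσ2, ← mul_pow, mul_comm, hσi, one_pow]
  obtain ⟨z, hz⟩ : ∃ z : GQ a b, z.val = σi • X₀ := ⟨⟨σi • X₀, hzdet⟩, rfl⟩
  have hmk : (m₀ : Qf a b ℤ) ∣ (k : Qf a b ℤ) := by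
    rw [hk]
    exact Nat.cast_dvd_cast ⟨dN, rfl⟩
  have hzm : z ∈ Gam a b m₀ := by
    obtain ⟨y1, hy1⟩ := hmk.trans hX₀s.1
    obtain ⟨y2, hy2⟩ := hmk.trans hX₀s.2.1
    obtain ⟨y3, hy3⟩ := hmk.trans hX₀s.2.2
    obtain ⟨y4, hy4⟩ := hσm
    apply Scm1_mem
    have z00 : z.val 0 0 = σi * X₀ 0 0 := by rw [hz]; rfl
    have z01 : z.val 0 1 = σi * X₀ 0 1 := by rw [hz]; rfl
    have z10 : z.val 1 0 = σi * X₀ 1 0 := by rw [hz]; rfl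
    have z11 : z.val 1 1 = σi * X₀ 1 1 := by rw [hz]; rfl
    intro i j
    fin_cases i <;> fin_cases j
    · show (m₀ : Qf a b ℤ) ∣ z.val 0 0 - 1
      rw [z00]
      exact ⟨σi * y4, by linear_combination σi * hy4 + hσi⟩
    · show (m₀ : Qf a b ℤ) ∣ z.val 0 1 - 0
      rw [z01]
      exact ⟨σi * y1, by linear_combination σi * hy1⟩
    · show (m₀ : Qf a b ℤ) ∣ z.val 1 0 - 0
      rw [z10]
      exact ⟨σi * y2, by linear_combination σi * hy2⟩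
    · show (m₀ : Qf a b ℤ) ∣ z.val 1 1 - 1
      rw [z11]
      exact ⟨σi * y4 - σi * y3, by linear_combination σi * hy4 - σi * hy3 + hσi⟩
  have hX₀z : X₀ = σ • z.val := by
    rw [hz, smul_smul, hσi, one_smul]
  have r1 : RepQ φ (A * h.val) (τ * pcQ φ h) := F.mul _ _ _ _ hAτ (F.pc h)
  have r2 : RepQ φ (σ • (h.val * G * z.val)) (pcQ φ h * γ * pcQ φ z) :=
    F.smul σ _ _ hσu.ne_zero (F.mul _ _ _ _ (F.mul _ _ _ _ (F.pc h) hG) (F.pc z))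
  have r3 : A * h.val = σ • (h.val * G * z.val) := by
    rw [← hGX, hX₀z, Matrix.mul_smul]
  rw [r3] at r1
  have r4 := F.uniq _ _ _ r1 r2
  have r5 : τ = pcQ φ h * γ * pcQ φ z * (pcQ φ h)⁻¹ := by
    rw [← r4, mul_inv_cancel_right]
  have hh₀ : h ∈ Gam a b m₀ := con_red H.dvd hh
  rw [r5]
  exact Γ.mul_mem (Γ.mul_mem (Γ.mul_mem (H.le h hh₀) γ.2) (H.le z hzm))
    (Γ.inv_mem (H.le h hh₀))

end

end Pool.Agent.F8.CG
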