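import Pool.Agent.Lib.MP_305fdd_al.F8.CG.StmS3
import Pool.Agent.Lib.MP_305fdd_al.F8.CG.P_Vgen
import Pool.Agent.Lib.MP_305fdd_al.F8.CG.P_Vtv

/-!
# MP_305fdd_al, congruence subgroups: connectivity (piece Scon)
-/

set_option autoImplicit false

namespace Pool.Agent.F8.CG

open Pool.Agent.F8.BG Pool.Agent.MP_305fdd_al Pool.Agent.Lib.MP_305fdd_al Pool.Agent.F8
open scoped QuadraticAlgebra ComplexConjugate

noncomputable section

private theorem Scon_col {a b : ℤ} (g : GQ a b) : g.val.mulVec ![1, 0] = colG g 0 := by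
  funext i
  show _ = g.val i 0
  simp only [Matrix.mulVec, dotProduct, Fin.sum_univ_two, Matrix.cons_val_zero,
    Matrix.cons_val_one]
  ring

private theorem Scon_mul {a b : ℤ} (g h : GQ a b) (e : Fin 2 → Qf a b ℤ) :
    (g * h).val.mulVec e = g.val.mulVec (h.val.mulVec e) := by
  rw [Matrix.mulVec_mulVec]
  rfl

private theorem Scon_cong {a b : ℤ} {m : ℕ} (g g' : GQ a b)
    (h : ∀ i j, (m : Qf a b ℤ) ∣ g.val i j - g'.val i j) : rdq a b m g = rdq a b m g' := by
  apply Subtype.ext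
  apply Matrix.ext
  intro i j
  show Qfm a b (Int.castRingHom (ZMod m)) (g.val i j) =
    Qfm a b (Int.castRingHom (ZMod m)) (g'.val i j)
  obtain ⟨c, hc⟩ := h i j
  have h1 := Qfm_natCast (a := a) (b := b) m c
  rw [← hc, map_sub, sub_eq_zero] at h1
  exact h1

/-- [CG S con] connectivity. -/
theorem p_Scon : S_con := by
  intro a b hab hEu hC m ε hm hε hcop r hsymm htrans hgam hedge
  have hP : ∀ g : GQ a b, Prm (g.val.mulVec ![1, 0]) := fun g => ⟨g, (Scon_col g).symm⟩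
  have hrefl : ∀ e, Prm e → r e e := by
    intro e he
    have h := hgam 1 (Subgroup.one_mem _) e he
    have h1 : (1 : GQ a b).val.mulVec e = e := Matrix.one_mulVec e
    rw [h1] at h
    exact h
  let S : Subgroup (GQ a b) :=
    { carrier := {γ | ∀ δ : GQ a b, r (δ.val.mulVec ![1, 0]) ((δ * γ).val.mulVec ![1, 0])}
      mul_mem' := by
        intro γ γ' h h' δ
        have h1 := h δ
        have h2 := h' (δ * γ)
        rw [mul_assoc] at h2
        exact htrans _ _ _ (hP _) (hP _) (hP _) h1 h2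
      one_mem' := by
        intro δ
        rw [mul_one]
        exact hrefl _ (hP _)
      inv_mem' := by
        intro γ h δ
        have h1 := h (δ * γ⁻¹)
        rw [inv_mul_cancel_right] at h1
        exact hsymm _ _ (hP _) (hP _) h1 }
  have hS1 : ∀ γ : GQ a b, γ.val.mulVec ![1, 0] = ![1, 0] → γ ∈ S := by
    intro γ h δ
    rw [Scon_mul, h]
    exact hrefl _ (hP _)
  have hS2 : ∀ γ : GQ a b, γ.val.mulVec ε = ε → γ ∈ S := by
    intro γ h δ
    have h1 := hedge δ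
    have h2 := hedge (δ * γ)
    rw [Scon_mul δ γ ε, h] at h2
    exact htrans _ _ _ (hP _) (hC.act _ _ hε) (hP _) h1 (hsymm _ _ (hP _) (hC.act _ _ hε) h2)
  have hS3 : ∀ w ∈ Gam a b m, w ∈ S := by
    intro w hw δ
    have h1 := hgam (δ * w * δ⁻¹) ((inferInstance : (Gam a b m).Normal).conj_mem w hw δ)
      (δ.val.mulVec ![1, 0]) (hP δ)
    rw [← Scon_mul, inv_mul_cancel_right] at h1
    exact h1
  have hU : ∀ x : Qf a b ℤ, (eU x : GQ a b) ∈ S := by
    intro x
    apply hS1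
    funext i
    fin_cases i
    · show (!![1, x; 0, 1] : Matrix (Fin 2) (Fin 2) (Qf a b ℤ)).mulVec ![1, 0] 0 = 1
      simp [Matrix.mulVec, dotProduct]
    · show (!![1, x; 0, 1] : Matrix (Fin 2) (Fin 2) (Qf a b ℤ)).mulVec ![1, 0] 1 = 0
      simp [Matrix.mulVec, dotProduct]
  have hV : ∀ x : Qf a b ℤ, (eV x : GQ a b) ∈ S := by
    intro x
    obtain ⟨u, v, huv⟩ := hcop
    have h1 : tv ε (-(u ^ 2 * x)) ∈ S := by
      apply hS2
      rw [(p_Vtv _ ε 0 _).1]
      have h2 : om ε ε = 0 := by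
        show ε 0 * ε 1 - ε 1 * ε 0 = 0
        ring
      rw [h2, mul_zero, zero_smul, add_zero]
    have h2 := S.mul_mem (S.mul_mem (hU (-(u * ε 0))) h1) (S.inv_mem (hU (-(u * ε 0))))
    rw [(p_Vtv _ _ 0 _).2.2.1] at h2
    have h3 : (eU (-(u * ε 0)) : GQ a b).val.mulVec ε = ![(m : Qf a b ℤ) * (v * ε 0), ε 1] := by
      funext i
      fin_cases i
      · show (!![1, -(u * ε 0); 0, 1] : Matrix (Fin 2) (Fin 2) (Qf a b ℤ)).mulVec ε 0 =
          (m : Qf a b ℤ) * (v * ε 0)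
        simp only [Matrix.mulVec, dotProduct, Fin.sum_univ_two, Matrix.of_apply,
          Matrix.cons_val', Matrix.cons_val_zero, Matrix.cons_val_one, Matrix.cons_val_fin_one]
        linear_combination (-(ε 0)) * huv
      · show (!![1, -(u * ε 0); 0, 1] : Matrix (Fin 2) (Fin 2) (Qf a b ℤ)).mulVec ε 1 = ε 1
        simp only [Matrix.mulVec, dotProduct, Fin.sum_univ_two, Matrix.of_apply,
          Matrix.cons_val', Matrix.cons_val_zero, Matrix.cons_val_one, Matrix.cons_val_fin_one]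
        ring
    rw [h3] at h2
    set g : GQ a b := tv ![(m : Qf a b ℤ) * (v * ε 0), ε 1] (-(u ^ 2 * x)) with hg
    have h4 : rdq a b m g = rdq a b m (eV x) := by
      apply Scon_cong
      intro i j
      fin_cases i <;> fin_cases j
      · show (m : Qf a b ℤ) ∣ (1 - -(u ^ 2 * x) * ((m : Qf a b ℤ) * (v * ε 0)) * ε 1) - 1
        exact ⟨u ^ 2 * x * (v * ε 0) * ε 1, by ring⟩
      · show (m : Qf a b ℤ) ∣ -(u ^ 2 * x) * ((m : Qf a b ℤ) * (v * ε 0)) ^ 2 - 0
        exact ⟨-(u ^ 2 * x) * (v * ε 0) * ((m : Qf a b ℤ) * (v * ε 0)), by ring⟩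
      · show (m : Qf a b ℤ) ∣ -(-(u ^ 2 * x) * (ε 1) ^ 2) - x
        refine ⟨-(x * v * (1 + u * ε 1)), ?_⟩
        linear_combination (x * (1 + u * ε 1)) * huv
      · show (m : Qf a b ℤ) ∣ (1 + -(u ^ 2 * x) * ((m : Qf a b ℤ) * (v * ε 0)) * ε 1) - 1
        exact ⟨-(u ^ 2 * x) * (v * ε 0) * ε 1, by ring⟩
    have h5 : g * (eV x)⁻¹ ∈ Gam a b m := by
      show rdq a b m (g * (eV x)⁻¹) = 1
      rw [map_mul, map_inv, h4, mul_inv_cancel]
    have h6 := S.mul_mem (S.inv_mem (hS3 _ h5)) h2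
    have h7 : (g * (eV x)⁻¹)⁻¹ * g = eV x := by group
    rw [h7] at h6
    exact h6
  have hmS : (mS : GQ a b) ∈ S := by
    have h1 := S.mul_mem (S.mul_mem (hU (-1)) (hV 1)) (hU (-1))
    have h2 : (eU (-1) * eV 1 * eU (-1) : GQ a b) = mS := by
      apply Subtype.ext
      show (!![1, -1; 0, 1] * !![1, 0; 1, 1] * !![1, -1; 0, 1] :
        Matrix (Fin 2) (Fin 2) (Qf a b ℤ)) = !![0, -1; 1, 0]
      rw [Matrix.mul_fin_two, Matrix.mul_fin_two]
      congr 1
      simp
    rw [h2] at h1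
    exact h1
  have htop : ∀ g : GQ a b, g ∈ S := by
    intro g
    have h1 : g ∈ Subgroup.closure (Set.range (fun β : Qf a b ℤ => (eU β : GQ a b)) ∪ {mS}) := by
      rw [p_Vgen a b hab hEu]
      exact Subgroup.mem_top g
    have h2 : Subgroup.closure (Set.range (fun β : Qf a b ℤ => (eU β : GQ a b)) ∪ {mS}) ≤ S := by
      rw [Subgroup.closure_le]
      rintro y (⟨β, rfl⟩ | hy)
      · exact hU β
      · rw [Set.mem_singleton_iff.1 hy]
        exact hmS
    exact h2 h1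
  have hfin : ∀ e, Prm e → r ![1, 0] e := by
    rintro e ⟨g, rfl⟩
    have h1 := htop g 1
    rw [one_mul, Scon_col g] at h1
    have h2 : (1 : GQ a b).val.mulVec ![1, 0] = ![1, 0] := Matrix.one_mulVec _
    rw [h2] at h1
    exact h1
  intro e f he hf
  have h0 : Prm (![1, 0] : Fin 2 → Qf a b ℤ) := by
    have h1 := hP 1
    have h2 : (1 : GQ a b).val.mulVec ![1, 0] = ![1, 0] := Matrix.one_mulVec _
    rw [h2] at h1
    exact h1
  exact htrans _ _ _ he h0 hf (hsymm _ _ h0 he (hfin e he)) (hfin f hf)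

end

end Pool.Agent.F8.CG
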