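import Pool.Agent.Lib.MP_305fdd_al.F8.CG.StmS2
import Pool.Agent.Lib.MP_305fdd_al.F8.CG.MainY
import Pool.Agent.Lib.MP_305fdd_al.F8.CG.P_Vtv

/-!
# CG S cz: centralisers of unipotent elements in finite quotients of principal congruence subgroups
-/

set_option autoImplicit false

namespace Pool.Agent.F8.CG

open Pool.Agent.F8.BG Pool.Agent.MP_305fdd_al Pool.Agent.Lib.MP_305fdd_al Pool.Agent.F8
open scoped QuadraticAlgebra ComplexConjugate

noncomputable section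

/-! ### Commuting elements of a free group -/

private theorem Scz_gen {X : Type} {p q : X}
    (h : FreeGroup.of p * FreeGroup.of q = FreeGroup.of q * FreeGroup.of p) : p = q := by
  classical
  by_contra hne
  let f : FreeGroup X →* Equiv.Perm (Fin 3) :=
    FreeGroup.lift fun x => if x = p then Equiv.swap 0 1 else Equiv.swap 1 2
  have hp : f (FreeGroup.of p) = Equiv.swap 0 1 := by
    show FreeGroup.lift _ (FreeGroup.of p) = _
    rw [FreeGroup.lift_apply_of, if_pos rfl]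
  have hq : f (FreeGroup.of q) = Equiv.swap 1 2 := by
    show FreeGroup.lift _ (FreeGroup.of q) = _
    rw [FreeGroup.lift_apply_of, if_neg fun h => hne h.symm]
  have h1 := congrArg f h
  rw [map_mul, map_mul, hp, hq] at h1
  exact absurd h1 (by decide)

/-- two commuting elements of a free group satisfy a relation -/
private theorem Scz_free {ι : Type} (X Y : FreeGroup ι) (h : X * Y = Y * X) :
    ∃ i j : ℤ, (i ≠ 0 ∨ j ≠ 0) ∧ X ^ i * Y ^ j = 1 := by
  by_cases hX1 : X = 1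
  · exact ⟨1, 0, Or.inl one_ne_zero, by rw [hX1]; simp⟩
  have hk : ∀ x ∈ ({X, Y} : Set (FreeGroup ι)), ∀ y ∈ ({X, Y} : Set (FreeGroup ι)),
      x * y = y * x := by
    intro x hx y hy
    rcases hx with rfl | rfl <;> rcases hy with rfl | rfl
    · rfl
    · exact h
    · exact h.symm
    · rfl
  have hcomm : ∀ x y : Subgroup.closure ({X, Y} : Set (FreeGroup ι)), x * y = y * x :=
    fun x y => (Subgroup.closureCommGroupOfComm hk).mul_comm x y
  have hfree : IsFreeGroup (Subgroup.closure ({X, Y} : Set (FreeGroup ι))) :=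
    subgroupIsFreeOfIsFree _
  let e := IsFreeGroup.toFreeGroup (Subgroup.closure ({X, Y} : Set (FreeGroup ι)))
  have hX : X ∈ Subgroup.closure ({X, Y} : Set (FreeGroup ι)) :=
    Subgroup.subset_closure (Or.inl rfl)
  have hY : Y ∈ Subgroup.closure ({X, Y} : Set (FreeGroup ι)) :=
    Subgroup.subset_closure (Or.inr rfl)
  have hsub : Subsingleton (IsFreeGroup.Generators
      (Subgroup.closure ({X, Y} : Set (FreeGroup ι)))) := by
    refine ⟨fun p q => Scz_gen ?_⟩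
    have h1 := congrArg e (hcomm (e.symm (FreeGroup.of p)) (e.symm (FreeGroup.of q)))
    rw [map_mul, map_mul, MulEquiv.apply_symm_apply, MulEquiv.apply_symm_apply] at h1
    exact h1
  rcases isEmpty_or_nonempty (IsFreeGroup.Generators
      (Subgroup.closure ({X, Y} : Set (FreeGroup ι)))) with hem | ⟨⟨p⟩⟩
  · exfalso
    apply hX1
    have h1 : e ⟨X, hX⟩ = 1 := Subsingleton.elim _ _
    have h2 : (⟨X, hX⟩ : Subgroup.closure ({X, Y} : Set (FreeGroup ι))) = 1 :=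
      e.injective (by rw [h1, map_one])
    exact congrArg Subtype.val h2
  · have huniq : Unique (IsFreeGroup.Generators
        (Subgroup.closure ({X, Y} : Set (FreeGroup ι)))) := ⟨⟨p⟩, fun q => Subsingleton.elim _ _⟩
    obtain ⟨z, hz⟩ := IsCyclic.exists_generator (α := FreeGroup (IsFreeGroup.Generators
      (Subgroup.closure ({X, Y} : Set (FreeGroup ι)))))
    obtain ⟨i, hi⟩ := Subgroup.mem_zpowers_iff.1 (hz (e ⟨X, hX⟩))
    obtain ⟨j, hj⟩ := Subgroup.mem_zpowers_iff.1 (hz (e ⟨Y, hY⟩))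
    refine ⟨j, -i, ?_, ?_⟩
    · by_contra hc
      push Not at hc
      apply hX1
      have hi0 : i = 0 := by omega
      rw [hi0, zpow_zero] at hi
      have h2 : (⟨X, hX⟩ : Subgroup.closure ({X, Y} : Set (FreeGroup ι))) = 1 :=
        e.injective (by rw [← hi, map_one])
      exact congrArg Subtype.val h2
    · have h1 : (⟨X, hX⟩ : Subgroup.closure ({X, Y} : Set (FreeGroup ι))) ^ j *
          (⟨Y, hY⟩ : Subgroup.closure ({X, Y} : Set (FreeGroup ι))) ^ (-i) = 1 := by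
        apply e.injective
        rw [map_mul, map_zpow, map_zpow, map_one, ← hi, ← hj, ← zpow_mul, ← zpow_mul,
          ← zpow_add]
        have h2 : i * j + j * -i = 0 := by ring
        rw [h2, zpow_zero]
      have h2 := congrArg Subtype.val h1
      exact h2

/-! ### Matrices -/

private theorem Scz_cr {R : Type} [CommRing R] [IsDomain R] {A B y : Matrix (Fin 2) (Fin 2) R}
    (hy : y.det ≠ 0) (h : A * y = B * y) : A = B := by
  have h1 : A * (y * y.adjugate) = B * (y * y.adjugate) := by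
    rw [← Matrix.mul_assoc, ← Matrix.mul_assoc, h]
  rw [Matrix.mul_adjugate, Matrix.mul_smul, Matrix.mul_smul, Matrix.mul_one, Matrix.mul_one] at h1
  ext i j
  have h2 := congrFun (congrFun h1 i) j
  rw [Matrix.smul_apply, Matrix.smul_apply, smul_eq_mul, smul_eq_mul] at h2
  exact mul_left_cancel₀ hy h2

private theorem Scz_cl {R : Type} [CommRing R] [IsDomain R] {A B y : Matrix (Fin 2) (Fin 2) R}
    (hy : y.det ≠ 0) (h : y * A = y * B) : A = B := by
  have h1 : (y.adjugate * y) * A = (y.adjugate * y) * B := by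
    rw [Matrix.mul_assoc, Matrix.mul_assoc, h]
  rw [Matrix.adjugate_mul, Matrix.smul_mul, Matrix.smul_mul, Matrix.one_mul, Matrix.one_mul] at h1
  ext i j
  have h2 := congrFun (congrFun h1 i) j
  rw [Matrix.smul_apply, Matrix.smul_apply, smul_eq_mul, smul_eq_mul] at h2
  exact mul_left_cancel₀ hy h2

variable {a b : ℤ}

private theorem Scz_gam (m : ℕ) (hm : m ≠ 0) : (Gam a b m).FiniteIndex := by
  have : NeZero m := ⟨hm⟩
  have : Finite (Qf a b (ZMod m)) :=
    Finite.of_equiv (ZMod m × ZMod m) (QuadraticAlgebra.equivProd (a : ZMod m) (b : ZMod m)).symm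
  have : Finite (SL2 (Qf a b (ZMod m))) := inferInstance
  exact Subgroup.finiteIndex_ker _

/-- an element of `Γ(m)` is `1 + m Z` -/
private theorem Scz_ent {m : ℕ} {g : GQ a b} (h : rdq a b m g = 1) :
    ∃ Z : Matrix (Fin 2) (Fin 2) (Qf a b ℤ), g.val = 1 + (m : Qf a b ℤ) • Z := by
  have h3 : ∀ i j, ∃ z : Qf a b ℤ, g.val i j = (1 : Matrix (Fin 2) (Fin 2) (Qf a b ℤ)) i j +
      (m : Qf a b ℤ) * z := by
    intro i j
    have h1 : rdq a b m g = rdq a b m 1 := by rw [h, map_one]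
    have h2 : Qfm a b (Int.castRingHom (ZMod m)) (g.val i j) =
        Qfm a b (Int.castRingHom (ZMod m)) ((1 : GQ a b).val i j) :=
      congrArg (fun x : SL2 (Qf a b (ZMod m)) => x.val i j) h1
    have h4 : Qfm a b (Int.castRingHom (ZMod m)) (g.val i j - (1 : GQ a b).val i j) = 0 := by
      rw [map_sub, h2, sub_self]
    obtain ⟨z, hz⟩ := E_ker a b m _ h4
    refine ⟨z, ?_⟩
    rw [← hz]
    show g.val i j = (1 : GQ a b).val i j + (g.val i j - (1 : GQ a b).val i j)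
    ring
  choose Z hZ using h3
  refine ⟨Matrix.of Z, ?_⟩
  ext1 i j
  rw [Matrix.add_apply, Matrix.smul_apply, smul_eq_mul, Matrix.of_apply]
  exact hZ i j

private theorem Scz_tne {m : ℕ} {g : GQ a b} (Z : Matrix (Fin 2) (Fin 2) (Qf a b ℤ))
    (h : g.val = 1 + (m : Qf a b ℤ) • Z) : rdq a b m g = 1 := by
  have hm : Qfm a b (Int.castRingHom (ZMod m)) (m : Qf a b ℤ) = 0 := by
    rw [map_natCast]
    have h1 : ((m : ℕ) : Qf a b (ZMod m)) = ⟨((m : ℕ) : ZMod m), 0⟩ := by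
      apply QuadraticAlgebra.ext
      · rw [QuadraticAlgebra.re_natCast]
      · rw [QuadraticAlgebra.im_natCast]
    rw [h1, ZMod.natCast_self]
    rfl
  have key : ∀ i j, Qfm a b (Int.castRingHom (ZMod m)) (g.val i j) =
      Qfm a b (Int.castRingHom (ZMod m)) ((1 : GQ a b).val i j) := by
    intro i j
    have h1 : g.val i j = (1 : GQ a b).val i j + (m : Qf a b ℤ) * Z i j := by
      rw [h]
      rfl
    rw [h1, map_add, map_mul, hm, zero_mul, add_zero]
  have h1 : rdq a b m g = rdq a b m 1 := G.SL_ext (key 0 0) (key 0 1) (key 1 0) (key 1 1)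
  rw [h1, map_one]

/-- `y x' y⁻¹` for `x' ∈ Γ(m k)` -/
private theorem Scz_up (hn : b ^ 2 + 4 * a < 0) (m k : ℕ)
    (y : Matrix (Fin 2) (Fin 2) (Qf a b ℤ)) (hy : y.det ≠ 0) (w : Qf a b ℤ)
    (hw : (k : Qf a b ℤ) = y.det * w) (x' : GQ a b) (hx' : rdq a b (m * k) x' = 1) :
    ∃ x : GQ a b, rdq a b m x = 1 ∧ x.val * y = y * x'.val := by
  have hdom : IsDomain (Qf a b ℤ) := Qf_domain hn
  obtain ⟨Z, hZ⟩ := Scz_ent hx'
  set X : Matrix (Fin 2) (Fin 2) (Qf a b ℤ) :=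
    1 + (m : Qf a b ℤ) • (w • (y * Z * y.adjugate)) with hX
  have h1 : X * y = y * x'.val := by
    rw [hX, hZ, Matrix.add_mul, Matrix.mul_add, Matrix.one_mul, Matrix.mul_one, Matrix.smul_mul,
      Matrix.smul_mul, Matrix.mul_assoc (y * Z), Matrix.adjugate_mul, Matrix.mul_smul,
      Matrix.mul_one, Matrix.mul_smul, smul_smul, smul_smul, Nat.cast_mul, hw]
    congr 2
    ring
  have h2 : X.det = 1 := by
    have h3 := congrArg Matrix.det h1
    rw [Matrix.det_mul, Matrix.det_mul, x'.2, mul_one] at h3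
    have h4 : X.det * y.det = 1 * y.det := by rw [h3, one_mul]
    exact mul_right_cancel₀ hy h4
  exact ⟨⟨X, h2⟩, Scz_tne _ hX, h1⟩

/-- `y⁻¹ x y` for `x ∈ Γ(m k)` -/
private theorem Scz_dn (hn : b ^ 2 + 4 * a < 0) (m k : ℕ)
    (y : Matrix (Fin 2) (Fin 2) (Qf a b ℤ)) (hy : y.det ≠ 0) (w : Qf a b ℤ)
    (hw : (k : Qf a b ℤ) = y.det * w) (x : GQ a b) (hx : rdq a b (m * k) x = 1) :
    ∃ x' : GQ a b, rdq a b m x' = 1 ∧ x.val * y = y * x'.val := by
  have hdom : IsDomain (Qf a b ℤ) := Qf_domain hn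
  have hadj : y.adjugate.det = y.det := by
    rw [Matrix.det_adjugate]
    simp
  obtain ⟨x', h1, h2⟩ := Scz_up hn m k y.adjugate (by rw [hadj]; exact hy) w
    (by rw [hadj]; exact hw) x hx
  refine ⟨x', h1, ?_⟩
  have h3 : y * (x'.val * y.adjugate) * y = y * (y.adjugate * x.val) * y := by rw [h2]
  rw [← Matrix.mul_assoc, Matrix.mul_assoc (y * x'.val), Matrix.adjugate_mul, Matrix.mul_smul,
    Matrix.mul_one, ← Matrix.mul_assoc y y.adjugate, Matrix.mul_adjugate, Matrix.smul_mul,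
    Matrix.one_mul, Matrix.smul_mul] at h3
  ext1 i j
  have h4 := congrFun (congrFun h3 i) j
  rw [Matrix.smul_apply, Matrix.smul_apply, smul_eq_mul, smul_eq_mul] at h4
  exact (mul_left_cancel₀ hy h4).symm

private theorem Scz_mul {y : Matrix (Fin 2) (Fin 2) (Qf a b ℤ)} {x₁ x₂ x₁' x₂' : GQ a b}
    (h₁ : x₁.val * y = y * x₁'.val) (h₂ : x₂.val * y = y * x₂'.val) :
    (x₁ * x₂).val * y = y * (x₁' * x₂').val := by
  show x₁.val * x₂.val * y = y * (x₁'.val * x₂'.val)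
  rw [Matrix.mul_assoc, h₂, ← Matrix.mul_assoc, h₁, Matrix.mul_assoc]

private theorem Scz_eU_mem (m : ℕ) (z : Qf a b ℤ) :
    rdq a b m (eU ((m : Qf a b ℤ) * z)) = 1 := by
  refine Scz_tne !![0, z; 0, 0] ?_
  ext1 i j
  fin_cases i <;> fin_cases j <;> simp [eU, AB.mx]

private theorem Scz_eU_mul (x y : Qf a b ℤ) : (eU (x + y) : GQ a b) = eU x * eU y := by
  unfold eU
  rw [AB.mx_mul]
  apply AB.mx_congr <;> ring

private theorem Scz_pow {t : Multiplicative ℤ} {k : ℤ} (hk : k ≠ 0) (h : t ^ k = 1) : t = 1 := by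
  have h1 : k * Multiplicative.toAdd t = 0 := by
    have h2 := congrArg Multiplicative.toAdd h
    rw [toAdd_zpow, toAdd_one, smul_eq_mul] at h2
    exact h2
  rcases mul_eq_zero.1 h1 with h2 | h2
  · exact absurd h2 hk
  · exact Multiplicative.toAdd.injective h2

/-! ### The kernel of a homomorphism to the integers -/

private theorem Scz_comap {G H : Type} [Group G] [Group H] (f : G →* H) (L : Subgroup H)
    (hL : L.FiniteIndex) : (L.comap f).FiniteIndex := by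
  refine ⟨?_⟩
  rw [Subgroup.index_comap]
  exact (inferInstance : (L.subgroupOf f.range).FiniteIndex).index_ne_zero

private theorem Scz_fin {ι : Type} (h : Group.FG (FreeGroup ι)) : Finite ι := by
  classical
  have h1 : Finite (FreeGroup ι →* Multiplicative (ZMod 2)) := finite_hom _ _
  have h2 : Finite (ι → Multiplicative (ZMod 2)) := Finite.of_equiv _ FreeGroup.lift.symm
  refine Finite.of_injective
    (fun i : ι => (Pi.mulSingle i (Multiplicative.ofAdd 1) : ι → Multiplicative (ZMod 2)))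
    fun i j hij => ?_
  by_contra hne
  have h3 := congrFun hij i
  simp only [Pi.mulSingle_eq_same] at h3
  rw [Pi.mulSingle_eq_of_ne hne] at h3
  revert h3
  decide

private theorem Scz_ker {ι : Type} [Finite ι] {α : MulAut (FreeGroup ι)} {G : Type} [Group G]
    (f : G →* GR α) (hf : Function.Injective f) (hr : f.range.FiniteIndex) :
    ∃ n : ℕ, Nonempty (((nR α).comp f).ker ≃* FreeGroup (Fin n)) := by
  let H : Subgroup (FreeGroup ι) := f.range.comap (iR α)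
  have hH : H.FiniteIndex := Scz_comap _ _ hr
  have hFG : Group.FG H := Subgroup.fg_of_index_ne_zero H
  have hF : IsFreeGroup H := inferInstance
  let e0 : H ≃* FreeGroup (IsFreeGroup.Generators H) := IsFreeGroup.toFreeGroup H
  have hX : Finite (IsFreeGroup.Generators H) :=
    Scz_fin (Group.fg_of_surjective (f := e0.toMonoidHom) e0.surjective)
  have h1 : ∀ x : ((nR α).comp f).ker, ∃ y : FreeGroup ι, f x.1 = iR α y :=
    fun x => GR_ker α (f x.1) x.2
  choose ψ hψ using h1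
  let g : ((nR α).comp f).ker →* H := MonoidHom.mk' (fun x => ⟨ψ x, x.1, hψ x⟩) (fun x y => by
    apply Subtype.ext
    apply iR_injective α
    show iR α (ψ (x * y)) = iR α (ψ x * ψ y)
    rw [map_mul, ← hψ, ← hψ, ← hψ, ← map_mul]
    rfl)
  have hg : Function.Bijective g := by
    constructor
    · intro x y h
      have h1 : ψ x = ψ y := congrArg Subtype.val h
      apply Subtype.ext
      apply hf
      rw [hψ x, hψ y, h1]
    · rintro ⟨y, x, hx⟩
      have hx' : x ∈ ((nR α).comp f).ker := by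
        show nR α (f x) = 1
        rw [hx]
        exact nR_iR α y
      refine ⟨⟨x, hx'⟩, ?_⟩
      apply Subtype.ext
      apply iR_injective α
      rw [← hx]
      exact (hψ ⟨x, hx'⟩).symm
  exact ⟨_, ⟨((MulEquiv.ofBijective g hg).trans e0).trans
    (FreeGroup.freeGroupCongr (Finite.equivFin _))⟩⟩

/-! ### Unipotent elements -/

private theorem Scz_col (γ : GQ a b) : colG γ 0 = γ.val.mulVec ![1, 0] := by
  ext i : 1
  simp [colG, Matrix.mulVec, dotProduct, Fin.sum_univ_two]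

private theorem Scz_add {R : Type} [CommRing R] (e : Fin 2 → R) (s t : R) :
    tv e (s + t) = tv e s * tv e t := (p_Vtv R e s t).2.1

private theorem Scz_conj {R : Type} [CommRing R] (e : Fin 2 → R) (t : R) (g : SL2 R) :
    g * tv e t * g⁻¹ = tv (g.val.mulVec e) t := (p_Vtv R e t t).2.2.1 g

/-- the centraliser of `eU m` -/
private theorem Scz_cent (hn : b ^ 2 + 4 * a < 0) {m : ℕ} (hm : 3 ≤ m) (c : Gam a b m)
    (h : c * uD m (dvd_refl m) ![1, 0] 1 = uD m (dvd_refl m) ![1, 0] 1 * c) :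
    ∃ x, c = uD m (dvd_refl m) ![1, 0] x := by
  have hdom : IsDomain (Qf a b ℤ) := Qf_domain hn
  have hm0 : (m : Qf a b ℤ) ≠ 0 := Nat.cast_ne_zero.2 (by omega)
  obtain ⟨Z, hZ⟩ := Scz_ent (MonoidHom.mem_ker.1 c.2)
  have h1 : c.val.val * (eU ((m : Qf a b ℤ) * 1) : GQ a b).val =
      (eU ((m : Qf a b ℤ) * 1) : GQ a b).val * c.val.val := by
    have h2 := congrArg (fun y : Gam a b m => y.val.val) h
    have h3 : (uD m (dvd_refl m) ![1, 0] 1 : Gam a b m).val = eU ((m : Qf a b ℤ) * 1) :=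
      (eU_eq_tv _).symm
    rw [← h3]
    exact h2
  rw [mul_one] at h1
  have e00 := congrFun (congrFun h1 0) 0
  have e01 := congrFun (congrFun h1 0) 1
  rw [Matrix.mul_apply, Matrix.mul_apply, Fin.sum_univ_two, Fin.sum_univ_two] at e00 e01
  simp only [eU, AB.mx, Matrix.of_apply, Matrix.cons_val', Matrix.cons_val_zero,
    Matrix.cons_val_one, Matrix.cons_val_fin_one, mul_one, one_mul, mul_zero,
    add_zero] at e00 e01
  have hc10 : c.val.val 1 0 = 0 := by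
    have h2 : (m : Qf a b ℤ) * c.val.val 1 0 = 0 := by linear_combination -e00
    exact (mul_eq_zero.1 h2).resolve_left hm0
  have hc11 : c.val.val 1 1 = c.val.val 0 0 := by
    have h2 : (m : Qf a b ℤ) * (c.val.val 1 1 - c.val.val 0 0) = 0 := by
      linear_combination -e01
    exact sub_eq_zero.1 ((mul_eq_zero.1 h2).resolve_left hm0)
  have hdet : c.val.val 0 0 * c.val.val 1 1 - c.val.val 0 1 * c.val.val 1 0 = 1 := by
    rw [← Matrix.det_fin_two]
    exact c.val.2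
  rw [hc10, hc11, mul_zero, sub_zero] at hdet
  have z00 : c.val.val 0 0 = 1 + (m : Qf a b ℤ) * Z 0 0 := by
    rw [hZ]
    simp
  have z01 : c.val.val 0 1 = (m : Qf a b ℤ) * Z 0 1 := by
    rw [hZ]
    simp
  have hc00 : c.val.val 0 0 = 1 := by
    have h2 : (c.val.val 0 0 - 1) * (c.val.val 0 0 + 1) = 0 := by linear_combination hdet
    rcases mul_eq_zero.1 h2 with h3 | h3
    · exact sub_eq_zero.1 h3
    · exfalso
      have h4 : (m : Qf a b ℤ) * Z 0 0 = -2 := by linear_combination h3 - z00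
      have h5 := congrArg QuadraticAlgebra.re h4
      have h6 : (m : ℤ) * (Z 0 0).re = -2 := by
        have e1 : ((m : Qf a b ℤ) * Z 0 0).re = (m : ℤ) * (Z 0 0).re := by
          simp
        rw [← e1, h5]
        rfl
      have h7 : (m : ℤ) ∣ 2 := ⟨-(Z 0 0).re, by linear_combination h6⟩
      have h8 := Int.le_of_dvd (by norm_num) h7
      omega
  refine ⟨Z 0 1, ?_⟩
  apply Subtype.ext
  show c.val = tv ![1, 0] ((m : Qf a b ℤ) * Z 0 1)
  rw [← eU_eq_tv]
  refine G.SL_ext ?_ ?_ ?_ ?_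
  · rw [hc00]; rfl
  · rw [z01]; rfl
  · rw [hc10]; rfl
  · rw [hc11, hc00]; rfl

/-! ### The data -/

/-- what we need for `S_cz0` -/
private theorem Scz_data {ι : Type} [Finite ι] {α : MulAut (FreeGroup ι)} {N : ℕ}
    {w : ι → List ι} {M : ℕ} {c g : FreeGroup ι} {G₀ : Subgroup (GQ a b)} {η : G₀ →* GR α}
    (H : BG.Dat α N w M c g G₀ η) : ∃ M' : ℕ, M' ≠ 0 ∧ 3 ∣ M' ∧ ∀ m : ℕ, m ≠ 0 → M' ∣ m →
    ∃ (ν : Gam a b m →* Multiplicative ℤ) (n : ℕ), Nonempty (ν.ker ≃* FreeGroup (Fin n)) ∧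
      ν (uD m (dvd_refl m) ![1, 0] 1) = 1 ∧ ν (uD m (dvd_refl m) ![1, 0] (wq a b ℤ)) ≠ 1 := by
  have hn := H.neg
  have hdom : IsDomain (Qf a b ℤ) := Qf_domain hn
  obtain ⟨M₀, hM₀⟩ : ∃ M₀ : ℕ, M₀ = 3 * M := ⟨_, rfl⟩
  have hMne := H.eta.ne
  have hM3 : 3 ≤ M₀ := by omega
  have hM : M ∣ M₀ := ⟨3, by rw [hM₀, mul_comm]⟩
  have hM0 : M₀ ≠ 0 := by omega
  have hM0' : ((M₀ : ℕ) : Qf a b ℤ) ≠ 0 := Nat.cast_ne_zero.2 hM0
  -- unipotent elements
  let u : Multiplicative (Qf a b ℤ) →* G₀ := MonoidHom.mk'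
    (fun z => ⟨eU ((M₀ : Qf a b ℤ) * Multiplicative.toAdd z),
      H.eta.lev _ (con_red hM (Scz_eU_mem M₀ _))⟩) (fun x y => Subtype.ext (by
      show (eU ((M₀ : Qf a b ℤ) * Multiplicative.toAdd (x * y)) : GQ a b) =
        eU ((M₀ : Qf a b ℤ) * Multiplicative.toAdd x) *
          eU ((M₀ : Qf a b ℤ) * Multiplicative.toAdd y)
      rw [toAdd_mul, mul_add, Scz_eU_mul]))
  have hu : ∀ z, (u z).val = eU ((M₀ : Qf a b ℤ) * Multiplicative.toAdd z) := fun z => rfl
  let F : Multiplicative (Qf a b ℤ) →* GR α := η.comp u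
  have hF : ∀ z, F z = 1 → z = 1 := by
    intro z hz
    rcases (H.eta.ker _).1 hz with h1 | h1
    · rw [hu] at h1
      have h2 : (M₀ : Qf a b ℤ) * Multiplicative.toAdd z = 0 :=
        congrArg (fun x : GQ a b => x.val 0 1) h1
      rcases mul_eq_zero.1 h2 with h3 | h3
      · exact absurd h3 hM0'
      · exact Multiplicative.toAdd.injective h3
    · rw [hu] at h1
      exact absurd h1 (con_neg hM3 (Scz_eU_mem M₀ _))
  let L : Multiplicative (Qf a b ℤ) →* Multiplicative ℤ := (nR α).comp F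
  have hL1 : ¬ ∀ z, L z = 1 := by
    intro hall
    obtain ⟨X, hX⟩ := GR_ker α (F (Multiplicative.ofAdd 1)) (hall _)
    obtain ⟨Y, hY⟩ := GR_ker α (F (Multiplicative.ofAdd (wq a b ℤ))) (hall _)
    have hXY : X * Y = Y * X := by
      have h0 := congrArg F (mul_comm (Multiplicative.ofAdd (1 : Qf a b ℤ))
        (Multiplicative.ofAdd (wq a b ℤ)))
      rw [map_mul, map_mul, hX, hY] at h0
      apply iR_injective α
      rw [map_mul, map_mul]
      exact h0
    obtain ⟨i, j, hij, h1⟩ := Scz_free X Y hXY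
    have h2 : F (Multiplicative.ofAdd 1 ^ i * Multiplicative.ofAdd (wq a b ℤ) ^ j) = 1 := by
      rw [map_mul, map_zpow, map_zpow, hX, hY, ← map_zpow, ← map_zpow, ← map_mul, h1, map_one]
    have h3 := congrArg Multiplicative.toAdd (hF _ h2)
    rw [toAdd_mul, toAdd_zpow, toAdd_zpow, toAdd_ofAdd, toAdd_ofAdd, toAdd_one] at h3
    have h4 := congrArg QuadraticAlgebra.re h3
    have h5 := congrArg QuadraticAlgebra.im h3
    simp [wq] at h4 h5
    rcases hij with h6 | h6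
    · exact h6 h4
    · exact h6 h5
  have hL2 : ∀ z : Qf a b ℤ, L (Multiplicative.ofAdd z) = 1 →
      L (Multiplicative.ofAdd (wq a b ℤ * z)) = 1 → z = 0 := by
    intro z h1 h2
    by_contra hz
    apply hL1
    intro x
    have hkz : nq z ≠ 0 := fun h => hz (nq_eq_zero hn h)
    refine Scz_pow hkz ?_
    have h3 : nq z • Multiplicative.toAdd x =
        (Multiplicative.toAdd x * cjq a b ℤ z).re • z +
          (Multiplicative.toAdd x * cjq a b ℤ z).im • (wq a b ℤ * z) := by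
      have h4 : (⟨nq z, 0⟩ : Qf a b ℤ) * Multiplicative.toAdd x =
          (Multiplicative.toAdd x * cjq a b ℤ z) * z := by
        rw [← mul_cjq]
        ring
      have h5 : (⟨nq z, 0⟩ : Qf a b ℤ) * Multiplicative.toAdd x =
          nq z • Multiplicative.toAdd x := by
        apply QuadraticAlgebra.ext <;> simp
      have h6 : ∀ v : Qf a b ℤ, v * z = v.re • z + v.im • (wq a b ℤ * z) := by
        intro v
        apply QuadraticAlgebra.ext
        · simp [wq]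
          ring
        · simp [wq]
          ring
      rw [← h5, h4, h6]
    have h7 : L (Multiplicative.ofAdd (nq z • Multiplicative.toAdd x)) = 1 := by
      rw [h3, ofAdd_add, map_mul, ofAdd_zsmul, ofAdd_zsmul, map_zpow, map_zpow, h1, h2, one_zpow,
        one_zpow, mul_one]
    rw [ofAdd_zsmul, ofAdd_toAdd, map_zpow] at h7
    exact h7
  -- the number `κ`
  obtain ⟨κ, hκ0, hκ1, hκ2⟩ : ∃ κ : Qf a b ℤ, κ ≠ 0 ∧ L (Multiplicative.ofAdd κ) = 1 ∧
      L (Multiplicative.ofAdd (wq a b ℤ * κ)) ≠ 1 := by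
    obtain ⟨A, hA⟩ : ∃ A : ℤ, L (Multiplicative.ofAdd (1 : Qf a b ℤ)) = Multiplicative.ofAdd A :=
      ⟨_, rfl⟩
    obtain ⟨B, hB⟩ : ∃ B : ℤ, L (Multiplicative.ofAdd (wq a b ℤ)) = Multiplicative.ofAdd B :=
      ⟨_, rfl⟩
    have h1 : L (Multiplicative.ofAdd (B • (1 : Qf a b ℤ) + (-A) • wq a b ℤ)) = 1 := by
      rw [ofAdd_add, map_mul, ofAdd_zsmul, ofAdd_zsmul, map_zpow, map_zpow, hA, hB,
        ← ofAdd_zsmul, ← ofAdd_zsmul, ← ofAdd_add]
      have h2 : B • A + (-A) • B = 0 := by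
        rw [smul_eq_mul, smul_eq_mul]
        ring
      rw [h2, ofAdd_zero]
    have h2 : B • (1 : Qf a b ℤ) + (-A) • wq a b ℤ ≠ 0 := by
      intro h3
      have h4 := congrArg QuadraticAlgebra.re h3
      have h5 := congrArg QuadraticAlgebra.im h3
      simp [wq] at h4 h5
      refine one_ne_zero (hL2 1 ?_ ?_)
      · rw [hA, h5, ofAdd_zero]
      · rw [mul_one, hB, h4, ofAdd_zero]
    exact ⟨_, h2, h1, fun h3 => h2 (hL2 _ h1 h3)⟩
  have hnq : 0 < nq κ := lt_of_le_of_ne (nq_nonneg hn κ) fun h0 => hκ0 (nq_eq_zero hn h0.symm)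
  refine ⟨M₀ * (nq κ).toNat, Nat.mul_ne_zero hM0 (by omega), ?_, ?_⟩
  · rw [hM₀, mul_assoc]
    exact Dvd.intro _ rfl
  rintro m hm ⟨c', rfl⟩
  rw [mul_assoc] at hm ⊢
  obtain ⟨k, hk⟩ : ∃ k : ℕ, k = (nq κ).toNat * c' := ⟨_, rfl⟩
  rw [← hk] at hm ⊢
  have hk0 : k ≠ 0 := right_ne_zero_of_mul hm
  have hk0' : ((k : ℕ) : Qf a b ℤ) ≠ 0 := Nat.cast_ne_zero.2 hk0
  obtain ⟨T, hT⟩ : ∃ T : Matrix (Fin 2) (Fin 2) (Qf a b ℤ), T = !![κ, 0; 0, 1] := ⟨_, rfl⟩
  have hTdet : T.det = κ := by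
    rw [hT, Matrix.det_fin_two_of]
    ring
  have hTd : T.det ≠ 0 := by rwa [hTdet]
  have hcj : (((nq κ).toNat : ℕ) : Qf a b ℤ) = κ * cjq a b ℤ κ := by
    rw [mul_cjq]
    have h1 : ((nq κ).toNat : ℤ) = nq κ := Int.toNat_of_nonneg hnq.le
    have h2 : (((nq κ).toNat : ℕ) : Qf a b ℤ) = (((nq κ).toNat : ℤ) : Qf a b ℤ) := by
      rw [Int.cast_natCast]
    rw [h2, h1]
    ext
    · simp
    · simp
  have hkw : ((k : ℕ) : Qf a b ℤ) = T.det * (cjq a b ℤ κ * (c' : Qf a b ℤ)) := by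
    rw [hTdet, hk, Nat.cast_mul, hcj, mul_assoc]
  -- the homomorphism `τ`
  have hex : ∀ x : Gam a b (M₀ * k), ∃ y : GQ a b, rdq a b M₀ y = 1 ∧
      y.val * T = T * x.val.val := fun x =>
    Scz_up hn M₀ k T hTd _ hkw x.val (MonoidHom.mem_ker.1 x.2)
  choose s hs1 hs2 using hex
  have huniq : ∀ (x y₁ y₂ : GQ a b), y₁.val * T = T * x.val → y₂.val * T = T * x.val →
      y₁ = y₂ := fun x y₁ y₂ h₁ h₂ => Subtype.ext (Scz_cr hTd (h₁.trans h₂.symm))
  let τ : Gam a b (M₀ * k) →* GQ a b := MonoidHom.mk' s fun x₁ x₂ =>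
    huniq _ _ _ (hs2 (x₁ * x₂)) (Scz_mul (hs2 x₁) (hs2 x₂))
  have hτ1 : ∀ x, rdq a b M₀ (τ x) = 1 := hs1
  have hτ2 : ∀ x : Gam a b (M₀ * k), (τ x).val * T = T * x.val.val := hs2
  let τG : Gam a b (M₀ * k) →* G₀ := τ.codRestrict G₀ fun x =>
    H.eta.lev _ (con_red hM (hτ1 x))
  have hτG : ∀ x, (τG x).val = τ x := fun x => rfl
  let f : Gam a b (M₀ * k) →* GR α := η.comp τG
  have hf : Function.Injective f := by
    rw [injective_iff_map_eq_one]
    intro x hx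
    rcases (H.eta.ker _).1 hx with h1 | h1
    · rw [hτG] at h1
      have h2 := hτ2 x
      rw [h1] at h2
      apply Subtype.ext
      apply Subtype.ext
      refine Scz_cl hTd ?_
      rw [← h2]
      show (1 : Matrix (Fin 2) (Fin 2) (Qf a b ℤ)) * T =
        T * (1 : Matrix (Fin 2) (Fin 2) (Qf a b ℤ))
      rw [Matrix.mul_one, Matrix.one_mul]
    · rw [hτG] at h1
      exact absurd h1 (con_neg hM3 (hτ1 x))
  have hfi : f.range.FiniteIndex := by
    have h0 : (Gam a b (M₀ * k * k)).FiniteIndex := Scz_gam _ (Nat.mul_ne_zero hm hk0)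
    have h1 : ((Gam a b (M₀ * k * k)).subgroupOf G₀).FiniteIndex := inferInstance
    have h2 := con_map_index η H.eta.fin ((Gam a b (M₀ * k * k)).subgroupOf G₀) h1
    refine Subgroup.finiteIndex_of_le (H := ((Gam a b (M₀ * k * k)).subgroupOf G₀).map η) ?_
    rintro _ ⟨y, hy, rfl⟩
    obtain ⟨x, hx1, hx2⟩ := Scz_dn hn (M₀ * k) k T hTd _ hkw y.val
      (MonoidHom.mem_ker.1 hy)
    refine ⟨⟨x, hx1⟩, ?_⟩
    show η (τG ⟨x, hx1⟩) = η y
    congr 1
    apply Subtype.ext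
    rw [hτG]
    exact huniq x _ _ (hτ2 ⟨x, hx1⟩) hx2
  obtain ⟨n, ⟨e⟩⟩ := Scz_ker f hf hfi
  have hν : ∀ x : Qf a b ℤ, ((nR α).comp f) (uD (M₀ * k) (dvd_refl _) ![1, 0] x) =
      L (Multiplicative.ofAdd ((k : Qf a b ℤ) * (κ * x))) := by
    intro x
    show nR α (η (τG _)) = nR α (η (u _))
    congr 2
    apply Subtype.ext
    rw [hu, hτG, toAdd_ofAdd]
    refine huniq (eU (((M₀ * k : ℕ) : Qf a b ℤ) * x)) _ _ ?_ ?_
    · rw [hτ2]
      show T * (tv ![1, 0] (((M₀ * k : ℕ) : Qf a b ℤ) * x) : GQ a b).val = _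
      rw [← eU_eq_tv]
    · rw [hT, Nat.cast_mul]
      ext1 i j
      fin_cases i <;> fin_cases j <;>
        simp [eU, AB.mx, Matrix.mul_apply, Fin.sum_univ_two]
      ring
  have hLk : ∀ z : Qf a b ℤ, L (Multiplicative.ofAdd ((k : Qf a b ℤ) * z)) =
      L (Multiplicative.ofAdd z) ^ (k : ℤ) := by
    intro z
    rw [← map_zpow, ← ofAdd_zsmul]
    congr 2
    simp
  refine ⟨(nR α).comp f, n, ⟨e⟩, ?_, ?_⟩
  · rw [hν, mul_one, hLk, hκ1, one_zpow]
  · rw [hν, hLk]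
    intro h
    apply hκ2
    rw [mul_comm]
    exact Scz_pow (by exact_mod_cast hk0) h

/-- PIECE CG S cz -/
theorem p_Scz (h0 : S_cz0) : S_cz := by
  intro a b ι _ α N w M c g G₀ η H
  have hn := H.neg
  obtain ⟨M', hM', h3, hdat⟩ := Scz_data H
  refine ⟨M', hM', fun m hm hdvd => ?_⟩
  obtain ⟨ν, n, ⟨e⟩, hν1, hν2⟩ := hdat m hm hdvd
  have hm3 : 3 ≤ m := Nat.le_of_dvd (Nat.pos_of_ne_zero hm) (h3.trans hdvd)
  obtain ⟨p₀, hp₀⟩ : ∃ p₀ : Gam a b m, p₀ = uD m (dvd_refl m) ![1, 0] 1 := ⟨_, rfl⟩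
  obtain ⟨d, hd⟩ : ∃ d : Gam a b m, d = uD m (dvd_refl m) ![1, 0] (wq a b ℤ) := ⟨_, rfl⟩
  rw [← hp₀] at hν1
  rw [← hd] at hν2
  have hdp : d * p₀ = p₀ * d := by
    rw [hd, hp₀]
    apply Subtype.ext
    show tv ![1, 0] ((m : Qf a b ℤ) * wq a b ℤ) * tv ![1, 0] ((m : Qf a b ℤ) * 1) =
      tv ![1, 0] ((m : Qf a b ℤ) * 1) * tv ![1, 0] ((m : Qf a b ℤ) * wq a b ℤ)
    rw [← Scz_add, ← Scz_add, add_comm]
  obtain ⟨D, hD⟩ : ∃ D : ℤ, ν d = Multiplicative.ofAdd D := ⟨_, rfl⟩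
  have hD0 : D ≠ 0 := by
    rintro rfl
    exact hν2 hD
  refine ⟨D.natAbs, Int.natAbs_ne_zero.2 hD0, ?_⟩
  have hpow : ∀ q : Gam a b m, ∃ j : ℤ, ν (q ^ D.natAbs) = ν d ^ j := by
    intro q
    obtain ⟨n, hn⟩ : ∃ n : ℤ, ν q = Multiplicative.ofAdd n := ⟨_, rfl⟩
    rcases Int.natAbs_eq D with h | h
    · refine ⟨n, ?_⟩
      rw [map_pow, hn, hD, ← ofAdd_nsmul, ← ofAdd_zsmul]
      congr 1
      rw [nsmul_eq_mul, smul_eq_mul, ← h, mul_comm]
    · refine ⟨-n, ?_⟩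
      rw [map_pow, hn, hD, ← ofAdd_nsmul, ← ofAdd_zsmul]
      congr 1
      rw [nsmul_eq_mul, smul_eq_mul]
      have h' : ((D.natAbs : ℕ) : ℤ) = -D := by omega
      rw [h']
      ring
  intro Q _ _ θ
  have key := fun g : GQ a b => h0 (Gam a b m) ν n e p₀ d hν1 hdp hν2 Q (θ.comp (cjM m g⁻¹))
  choose Q₂ i₁ i₂ θ₂ hθ₂ using key
  have hfin : (Gam a b m).FiniteIndex := Scz_gam m hm
  have hnorm : (Gam a b m).Normal := MonoidHom.normal_ker _
  refine ⟨∀ s : GQ a b ⧸ Gam a b m, Q₂ s.out, inferInstance, inferInstance,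
    MonoidHom.pi fun s => (θ₂ s.out).comp (cjM m s.out), ?_⟩
  rintro _ ⟨γ, rfl⟩ q hq
  obtain ⟨k, hk⟩ := QuotientGroup.mk_out_eq_mul (Gam a b m) γ
  have hq1 := congrFun hq (QuotientGroup.mk γ)
  obtain ⟨s, hs⟩ : ∃ s : GQ a b, s = (QuotientGroup.mk γ : GQ a b ⧸ Gam a b m).out := ⟨_, rfl⟩
  have hq2 : θ₂ s (cjM m s q) * θ₂ s (cjM m s (uD m (dvd_refl m) (colG γ 0) 1)) =
      θ₂ s (cjM m s (uD m (dvd_refl m) (colG γ 0) 1)) * θ₂ s (cjM m s q) := by
    subst hs
    exact hq1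
  rw [← hs] at hk
  have huD : ∀ x, (uD m (dvd_refl m) (colG γ 0) x).val =
      γ * (uD m (dvd_refl m) ![1, 0] x).val * γ⁻¹ := by
    intro x
    show tv (colG γ 0) _ = γ * tv ![1, 0] _ * γ⁻¹
    rw [Scz_conj, Scz_col]
  -- the element `γ⁻¹ q γ`
  have h1 : cjM m γ q = k * cjM m s q * k⁻¹ := by
    apply Subtype.ext
    show γ⁻¹ * q.val * γ = k.val * (s⁻¹ * q.val * s) * k.val⁻¹
    rw [hk]
    group
  have h2 : p₀ = k * cjM m s (uD m (dvd_refl m) (colG γ 0) 1) * k⁻¹ := by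
    apply Subtype.ext
    show p₀.val = k.val * (s⁻¹ * (uD m (dvd_refl m) (colG γ 0) 1).val * s) * k.val⁻¹
    rw [huD, ← hp₀, hk]
    group
  have h3 : θ₂ s (cjM m γ q) * θ₂ s p₀ = θ₂ s p₀ * θ₂ s (cjM m γ q) := by
    rw [h1, h2]
    simp only [map_mul, map_inv]
    have e1 : ∀ A B K : Q₂ s, A * B = B * A →
        K * A * K⁻¹ * (K * B * K⁻¹) = K * B * K⁻¹ * (K * A * K⁻¹) := by
      intro A B K hAB
      calc K * A * K⁻¹ * (K * B * K⁻¹) = K * (A * B) * K⁻¹ := by group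
        _ = K * (B * A) * K⁻¹ := by rw [hAB]
        _ = K * B * K⁻¹ * (K * A * K⁻¹) := by group
    exact e1 _ _ _ hq2
  have h4 : θ₂ s (cjM m γ q ^ D.natAbs) * θ₂ s p₀ = θ₂ s p₀ * θ₂ s (cjM m γ q ^ D.natAbs) := by
    rw [map_pow]
    exact (Commute.pow_left h3 _)
  obtain ⟨c₁, hc1, hc2⟩ := hθ₂ s (cjM m γ q ^ D.natAbs) (hpow _) h4
  rw [hp₀] at hc1
  obtain ⟨x, hx⟩ := Scz_cent hn hm3 c₁ hc1
  refine ⟨x, ?_⟩
  -- the conjugation
  have hK : γ * k.val * γ⁻¹ ∈ Gam a b m := hnorm.conj_mem _ k.2 γ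
  obtain ⟨K, hKv⟩ : ∃ K : Gam a b m, K.val = γ * k.val * γ⁻¹ := ⟨⟨_, hK⟩, rfl⟩
  have h5 : cjM m s⁻¹ c₁ = K * uD m (dvd_refl m) (colG γ 0) x * K⁻¹ := by
    apply Subtype.ext
    show s⁻¹⁻¹ * c₁.val * s⁻¹ = K.val * (uD m (dvd_refl m) (colG γ 0) x).val * K.val⁻¹
    rw [huD, hKv, hx, hk]
    group
  have h6 : cjM m s⁻¹ (cjM m γ q) = K * q * K⁻¹ := by
    apply Subtype.ext
    show s⁻¹⁻¹ * (γ⁻¹ * q.val * γ) * s⁻¹ = K.val * q.val * K.val⁻¹
    rw [hKv, hk]
    group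
  have h7 : θ (K * uD m (dvd_refl m) (colG γ 0) x * K⁻¹) = θ (K * q * K⁻¹) ^ D.natAbs := by
    rw [← h5, ← h6, ← map_pow, ← map_pow]
    exact hc2
  have h8 : (K * q * K⁻¹) ^ D.natAbs = K * q ^ D.natAbs * K⁻¹ := conj_pow
  rw [← map_pow, h8] at h7
  simp only [map_mul, map_inv, map_pow] at h7
  exact mul_left_cancel (mul_right_cancel h7)

end

end Pool.Agent.F8.CG
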