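import Pool.Agent.Lib.MP_305fdd_al.F8.CG.StmS2

set_option autoImplicit false

namespace Pool.Agent.F8.CG

open Pointwise in
private theorem Scz0_sup {G : Type} [Group G] (A B : Subgroup G) [A.Normal] {x : G}
    (h : x ∈ A ⊔ B) : ∃ a ∈ A, ∃ b ∈ B, a * b = x := by
  have h2 : x ∈ ((A : Set G) * (B : Set G)) := by
    rw [← Subgroup.normal_mul]
    exact h
  obtain ⟨a, ha, b, hb, rfl⟩ := h2
  exact ⟨a, ha, b, hb, rfl⟩


/-- the common kernel of all homomorphisms of the kernel of `ν` to `Q` -/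
private def Scz0_K {G : Type} [Group G] (ν : G →* Multiplicative ℤ) (Q : Type) [Group Q] :
    Subgroup ν.ker := ⨅ φ : ν.ker →* Q, φ.ker

private theorem Scz0_mem {G : Type} [Group G] {ν : G →* Multiplicative ℤ} {Q : Type} [Group Q]
    {x : ν.ker} : x ∈ Scz0_K ν Q ↔ ∀ φ : ν.ker →* Q, φ x = 1 := by
  unfold Scz0_K
  rw [Subgroup.mem_iInf]
  rfl

private theorem Scz0_fin {G : Type} [Group G] (ν : G →* Multiplicative ℤ) (n : ℕ)
    (e : ν.ker ≃* FreeGroup (Fin n)) (Q : Type) [Group Q] [Finite Q] :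
    (Scz0_K ν Q).FiniteIndex := by
  have h1 : Finite (FreeGroup (Fin n) →* Q) := Finite.of_equiv _ (FreeGroup.lift (β := Q))
  have h2 : Finite (ν.ker →* Q) := by
    refine Finite.of_injective (fun φ : ν.ker →* Q => φ.comp e.symm.toMonoidHom) ?_
    intro φ ψ h
    ext x
    have h3 := DFunLike.congr_fun h (e x)
    simpa using h3
  exact Subgroup.finiteIndex_iInf fun φ => Subgroup.finiteIndex_ker φ

/-- its image is normal -/
private theorem Scz0_norm {G : Type} [Group G] (ν : G →* Multiplicative ℤ) (Q : Type) [Group Q] :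
    ((Scz0_K ν Q).map ν.ker.subtype).Normal := by
  refine ⟨?_⟩
  rintro _ ⟨x, hx, rfl⟩ g
  refine ⟨MulAut.conjNormal g x, ?_, ?_⟩
  · show _ ∈ Scz0_K ν Q
    rw [Scz0_mem]
    intro φ
    exact Scz0_mem.1 hx (φ.comp (MulAut.conjNormal g).toMonoidHom)
  · rfl

private theorem Scz0_pow {G : Type} [Group G] (ν : G →* Multiplicative ℤ) (d : G) {j : ℤ}
    (hd : ν d ≠ 1) (h : ν (d ^ j) = 1) : j = 0 := by
  rw [map_zpow] at h
  by_contra hj
  have h1 : Multiplicative.toAdd (ν d ^ j) = 0 := by rw [h]; rfl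
  rw [toAdd_zpow, smul_eq_mul, mul_eq_zero] at h1
  rcases h1 with h1 | h1
  · exact hj h1
  · exact hd (Multiplicative.toAdd.injective h1)

theorem p_Scz0 (hcl : S_cl) : S_cz0 := by
  intro G _ ν n e p d hp hdp hd Q _ _ θ
  let p' : ν.ker := ⟨p, hp⟩
  obtain ⟨Q₁, _, _, θ₁, h₁⟩ := hcl (Fin n) (e p') Q ((θ.comp ν.ker.subtype).comp e.symm.toMonoidHom)
  have h₁' : ∀ f : ν.ker, θ₁ (e f) * θ₁ (e p') = θ₁ (e p') * θ₁ (e f) →
      ∃ c : ν.ker, c * p' = p' * c ∧ θ c.1 = θ f.1 := by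
    intro f hf
    obtain ⟨c, hc, hc'⟩ := h₁ (e f) hf
    refine ⟨e.symm c, ?_, ?_⟩
    · apply e.injective
      rw [map_mul, map_mul, MulEquiv.apply_symm_apply]
      exact hc
    · simpa using hc'
  let K : Subgroup ν.ker := Scz0_K ν Q₁
  have hK : K.FiniteIndex := Scz0_fin ν n e Q₁
  let K₂ : Subgroup G := K.map ν.ker.subtype
  have hK₂ : K₂.Normal := Scz0_norm ν Q₁
  let H : Subgroup G := K₂ ⊔ Subgroup.zpowers d
  have hH : ∀ x ∈ H, ∃ k ∈ K₂, ∃ j : ℤ, x = k * d ^ j := by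
    intro x hx
    obtain ⟨k, hk, z, hz, rfl⟩ := Scz0_sup K₂ (Subgroup.zpowers d) hx
    obtain ⟨j, rfl⟩ := Subgroup.mem_zpowers_iff.1 hz
    exact ⟨k, hk, j, rfl⟩
  -- the finite index
  let m : ℕ := (Multiplicative.toAdd (ν d)).natAbs
  have hm : m ≠ 0 := by
    intro h
    exact hd (Multiplicative.toAdd.injective (Int.natAbs_eq_zero.1 h))
  have : NeZero m := ⟨hm⟩
  let ψ : G →* Multiplicative (ZMod m) :=
    (AddMonoidHom.toMultiplicative (Int.castAddHom (ZMod m))).comp ν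
  have hψ : ∀ x, ψ x = 1 → ∃ j : ℤ, ν x = ν d ^ j := by
    intro x hx
    have h2 : ((Multiplicative.toAdd (ν x) : ℤ) : ZMod m) = 0 := hx
    rw [ZMod.intCast_zmod_eq_zero_iff_dvd] at h2
    have h3 : Multiplicative.toAdd (ν d) ∣ Multiplicative.toAdd (ν x) := Int.natAbs_dvd.1 h2
    obtain ⟨j, hj⟩ := h3
    refine ⟨j, Multiplicative.toAdd.injective ?_⟩
    rw [toAdd_zpow, smul_eq_mul, hj, mul_comm]
  have hfin : H.FiniteIndex := by
    have hL : ψ.ker.FiniteIndex := Subgroup.finiteIndex_ker ψ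
    have hf1 : Finite (G ⧸ ψ.ker) := Subgroup.finite_quotient_of_finiteIndex
    have hf2 : Finite (ν.ker ⧸ K) := Subgroup.finite_quotient_of_finiteIndex
    let F : (G ⧸ ψ.ker) × (ν.ker ⧸ K) → G ⧸ H := fun z => ((z.1.out * (z.2.out : ν.ker).1 : G) : G ⧸ H)
    have hF : Function.Surjective F := by
      intro y
      obtain ⟨x, rfl⟩ := QuotientGroup.mk_surjective y
      obtain ⟨l, hl1, hl2⟩ : ∃ l, l ∈ ψ.ker ∧ (x : G ⧸ ψ.ker).out⁻¹ * x = l := by
        refine ⟨(x : G ⧸ ψ.ker).out⁻¹ * x, ?_, rfl⟩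
        rw [← QuotientGroup.eq]
        exact Quotient.out_eq' _
      obtain ⟨j, hj⟩ := hψ l hl1
      let a : ν.ker := ⟨l * d ^ (-j), by
        rw [MonoidHom.mem_ker, map_mul, map_zpow, hj, ← zpow_add, add_neg_cancel, zpow_zero]⟩
      refine ⟨((x : G ⧸ ψ.ker), (a : ν.ker ⧸ K)), ?_⟩
      show (((x : G ⧸ ψ.ker).out * ((a : ν.ker ⧸ K).out : ν.ker).1 : G) : G ⧸ H) = (x : G ⧸ H)
      rw [QuotientGroup.eq]
      have h5 : ((a : ν.ker ⧸ K).out : ν.ker)⁻¹ * a ∈ K := by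
        rw [← QuotientGroup.eq]
        exact Quotient.out_eq' _
      have h6 : ((((a : ν.ker ⧸ K).out : ν.ker)⁻¹ * a : ν.ker) : G) ∈ K₂ := ⟨_, h5, rfl⟩
      have h7 : ((x : G ⧸ ψ.ker).out * ((a : ν.ker ⧸ K).out : ν.ker).1)⁻¹ * x =
          ((((a : ν.ker ⧸ K).out : ν.ker)⁻¹ * a : ν.ker) : G) * d ^ j := by
        have h8 : (a : G) = l * d ^ (-j) := rfl
        rw [Subgroup.coe_mul, Subgroup.coe_inv, h8, mul_inv_rev, mul_assoc, hl2]
        simp only [mul_assoc, zpow_neg, inv_mul_cancel, mul_one]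
      rw [h7]
      exact H.mul_mem (Subgroup.mem_sup_left h6)
        (Subgroup.mem_sup_right (Subgroup.zpow_mem_zpowers d j))
    have : Finite (G ⧸ H) := Finite.of_surjective F hF
    exact Subgroup.finiteIndex_of_finite_quotient
  have hnc : H.normalCore.FiniteIndex := inferInstance
  have hfq : Finite (G ⧸ H.normalCore) := Subgroup.finite_quotient_of_finiteIndex
  refine ⟨G ⧸ H.normalCore, inferInstance, hfq, QuotientGroup.mk' _, ?_⟩
  rintro q ⟨j, hj⟩ hq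
  set π : G →* G ⧸ H.normalCore := QuotientGroup.mk' _ with hπ
  have hf : q * d ^ (-j) ∈ ν.ker := by
    rw [MonoidHom.mem_ker, map_mul, map_zpow, hj, ← zpow_add, add_neg_cancel, zpow_zero]
  have hc1 : Commute (π q) (π p) := hq
  have hc2 : Commute (π d) (π p) := by
    show π d * π p = π p * π d
    rw [← map_mul, hdp, map_mul]
  have hc3 : Commute (π (q * d ^ (-j))) (π p) := by
    rw [map_mul, map_zpow]
    exact hc1.mul_left (hc2.zpow_left _)
  set f : ν.ker := ⟨q * d ^ (-j), hf⟩ with hfd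
  have hx1 : ((f * p' * f⁻¹ * p'⁻¹ : ν.ker) : G) ∈ H := by
    apply Subgroup.normalCore_le H
    rw [← QuotientGroup.ker_mk' H.normalCore, MonoidHom.mem_ker]
    show π ((f : G) * p * (f : G)⁻¹ * p⁻¹) = 1
    rw [map_mul, map_mul, map_mul, map_inv, map_inv]
    have h9 : π (f : G) * π p = π p * π (f : G) := hc3
    rw [h9]
    group
  obtain ⟨k, hk, i, hki⟩ := hH _ hx1
  obtain ⟨κ, hκ, rfl⟩ := hk
  have hi : i = 0 := by
    apply Scz0_pow ν d hd
    have h10 : ν ((f * p' * f⁻¹ * p'⁻¹ : ν.ker) : G) = 1 := (f * p' * f⁻¹ * p'⁻¹).2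
    rw [hki, map_mul] at h10
    have h11 : ν (ν.ker.subtype κ) = 1 := κ.2
    rwa [h11, one_mul] at h10
  rw [hi, zpow_zero, mul_one] at hki
  have hx2 : f * p' * f⁻¹ * p'⁻¹ ∈ K := by
    have h12 : f * p' * f⁻¹ * p'⁻¹ = κ := Subtype.ext hki
    rw [h12]
    exact hκ
  have hx3 := Scz0_mem.1 hx2 (θ₁.comp e.toMonoidHom)
  obtain ⟨c, hc, hc'⟩ := h₁' f (by
    have h13 : θ₁ (e (f * p' * f⁻¹ * p'⁻¹)) = 1 := hx3
    rw [map_mul, map_mul, map_mul, map_mul, map_mul, map_mul, map_inv, map_inv, map_inv, map_inv]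
      at h13
    rw [mul_inv_eq_one, mul_inv_eq_iff_eq_mul] at h13
    exact h13)
  refine ⟨c.1 * d ^ j, ?_, ?_⟩
  · have h14 : c.1 * p = p * c.1 := congrArg Subtype.val hc
    have h15 : Commute (d ^ j) p := Commute.zpow_left hdp j
    have h16 : Commute c.1 p := h14
    exact h16.mul_left h15
  · rw [map_mul, hc']
    show θ (q * d ^ (-j)) * θ (d ^ j) = θ q
    rw [← map_mul, mul_assoc, ← zpow_add, neg_add_cancel, zpow_zero, mul_one]

end Pool.Agent.F8.CG
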