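import Pool.Agent.Lib.MP_305fdd_al.F8.CG.StmS

/-!
# MP_305fdd_al, congruence subgroups: piece S edge (helper27), two cusps connected by an integral
crossed homomorphism
-/

set_option autoImplicit false

namespace Pool.Agent.F8.CG

open Pool.Agent.F8.BG Pool.Agent.MP_305fdd_al Pool.Agent.Lib.MP_305fdd_al Pool.Agent.F8
open scoped QuadraticAlgebra ComplexConjugate

noncomputable section

private theorem Sedge_ne {a b : ℤ} (h : b ^ 2 + 4 * a < 0) : wC a b - conj (wC a b) ≠ 0 := by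
  intro h0
  have him := wC_im h
  have h1 := congrArg Complex.im h0
  simp only [Complex.sub_im, Complex.conj_im, Complex.zero_im] at h1
  linarith

private theorem Sedge_add {a b : ℤ} (h : b ^ 2 + 4 * a < 0) (c : Qf a b ℤ → ℂ)
    (hc : ∀ x y, c (x + y) = c x + c y) :
    ∃ r0 r1 : ℂ, ∀ β, c β = r0 * iC a b β + r1 * conj (iC a b β) := by
  have hne := Sedge_ne h
  let C : Qf a b ℤ →+ ℂ := AddMonoidHom.mk' c hc
  have hC : ∀ β : Qf a b ℤ, c β = (β.re : ℂ) * c 1 + (β.im : ℂ) * c ⟨0, 1⟩ := by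
    intro β
    have h1 : β = β.re • (1 : Qf a b ℤ) + β.im • (⟨0, 1⟩ : Qf a b ℤ) := by
      ext <;> simp
    have h2 : C β = β.re • C 1 + β.im • C ⟨0, 1⟩ := by
      conv_lhs => rw [h1]
      rw [map_add, map_zsmul, map_zsmul]
    have h3 : c β = β.re • c 1 + β.im • c ⟨0, 1⟩ := h2
    rw [h3, zsmul_eq_mul, zsmul_eq_mul]
  refine ⟨(c ⟨0, 1⟩ - c 1 * conj (wC a b)) / (wC a b - conj (wC a b)),
    (c 1 * wC a b - c ⟨0, 1⟩) / (wC a b - conj (wC a b)), fun β => ?_⟩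
  rw [hC β, iC_apply, map_add, map_mul]
  have e1 : conj ((β.re : ℂ)) = (β.re : ℂ) := map_intCast _ _
  have e2 : conj ((β.im : ℂ)) = (β.im : ℂ) := map_intCast _ _
  rw [e1, e2]
  field_simp
  ring

private theorem Sedge_eU_add {R : Type} [CommRing R] (s t : R) :
    (eU (s + t) : SL2 R) = eU s * eU t := by
  apply Subtype.ext
  show (!![1, s + t; 0, 1] : Matrix (Fin 2) (Fin 2) R) = !![1, s; 0, 1] * !![1, t; 0, 1]
  ext i j
  fin_cases i <;> fin_cases j <;> simp [Matrix.mul_apply, Fin.sum_univ_two, add_comm]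

private theorem Sedge_mvU {a b : ℤ} (s : Qf a b ℤ) (v : Fin 2 → ℂ) :
    (iG a b (eU s)).val.mulVec v = ![v 0 + iC a b s * v 1, v 1] := by
  have h : (iG a b (eU s)) = eU (iC a b s) := eU_map _ _
  rw [h]
  show (!![1, iC a b s; 0, 1] : Matrix (Fin 2) (Fin 2) ℂ).mulVec v = _
  ext i
  fin_cases i <;> simp [Matrix.mulVec, dotProduct, Fin.sum_univ_two]

private theorem Sedge_eU {a b : ℤ} {N : ℕ} {t : Qf a b ℤ} (h : eU t ∈ Gam a b N) :
    (N : Qf a b ℤ) ∣ t := by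
  apply E_ker a b N t
  have h1 : rdq a b N (eU t) = 1 := h
  have h2 : (rdq a b N (eU t)).val 0 1 = (1 : Matrix (Fin 2) (Fin 2) (Qf a b (ZMod N))) 0 1 := by
    rw [h1]
    rfl
  rw [Matrix.one_apply_ne (by decide)] at h2
  exact h2

theorem p_Sedge (h1 : S_h1) (hum : S_um) (hint : S_int) : S_edge := by
  intro a b hn hE hp hfg hc hs hPA M₀ hM₀ hLD N₀ hN₀
  have hdom : IsDomain (Qf a b ℤ) := Qf_domain hn
  have hN₀' : (N₀ : Qf a b ℤ) ≠ 0 := by exact_mod_cast hN₀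
  obtain ⟨N, F, r, e', hN, hN₀N, hM₀N, hFN, hSF, hr, he', hco, hsup⟩ :=
    hum a b hn hp hc hs N₀ M₀ hN₀ hM₀ (hPA _ hN₀')
  have hNC : (N : ℂ) ≠ 0 := by exact_mod_cast hN
  have hF0 : F 0 = 0 := by
    have h := hFN.hom 0 0
    rw [smul_zero, map_zero] at h
    simpa using h
  have hinv : ∀ w ∈ Gam a b N, ∀ e, F (w.val.mulVec e) = F e := by
    intro w hw e
    by_cases he : e = 0
    · rw [he, Matrix.mulVec_zero]
    · obtain ⟨l, f, hl, hf, rfl⟩ := hc.dec e he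
      rw [Matrix.mulVec_smul, hFN.hom, hFN.hom,
        hFN.lev _ _ (hc.act w f hf) hf (hc.gam N w hw f)]
  obtain ⟨z, hz, hzF⟩ := h1 a b hn hE hp M₀ hLD N hN hM₀N F hFN.hom hinv
  have hzm : ∀ x y : Gam a b N, z (x * y) = z x + (iG a b x.val).val.mulVec (z y) := hz
  -- the elements of the cusp infinity
  have hU1 : ∀ (t : Qf a b ℤ) (h : tv ![1, 0] t ∈ Gam a b N), z ⟨_, h⟩ 1 = 0 := by
    intro t h
    have h2 := hzF ![1, 0] t h
    rw [hFN.inf, mul_zero] at h2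
    simpa [om, vC] using h2
  obtain ⟨r0, r1, hr1⟩ := Sedge_add hn (fun t => z (uD N (dvd_refl N) ![1, 0] t) 0) (by
    intro s t
    have h2 : uD N (dvd_refl N) (![1, 0] : Fin 2 → Qf a b ℤ) (s + t) =
        uD N (dvd_refl N) ![1, 0] s * uD N (dvd_refl N) ![1, 0] t := Subtype.ext (by
      show tv ![1, 0] ((N : Qf a b ℤ) * (s + t)) =
        tv ![1, 0] ((N : Qf a b ℤ) * s) * tv ![1, 0] ((N : Qf a b ℤ) * t)
      rw [← eU_eq_tv, ← eU_eq_tv, ← eU_eq_tv, mul_add, Sedge_eU_add])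
    have h3 : (uD N (dvd_refl N) (![1, 0] : Fin 2 → Qf a b ℤ) s).val =
        eU ((N : Qf a b ℤ) * s) := (eU_eq_tv _).symm
    rw [h2, hzm, h3, Sedge_mvU]
    simp only [Pi.add_apply, Matrix.cons_val_zero]
    have h4 : z (uD N (dvd_refl N) ![1, 0] t) 1 = 0 := hU1 _ (tv_mem (dvd_refl N) ![1, 0] t)
    rw [h4, mul_zero, add_zero])
  have hcN : conj ((N : ℂ)) = (N : ℂ) := Complex.conj_natCast N
  have hSF' : SF F (r1 / N) := by
    refine ⟨N, hN, z, hz, hzF, r0 / N, fun t h => ?_⟩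
    obtain ⟨s, rfl⟩ := Sedge_eU h
    have h2 : (⟨eU ((N : Qf a b ℤ) * s), h⟩ : Gam a b N) = uD N (dvd_refl N) ![1, 0] s :=
      Subtype.ext (eU_eq_tv _)
    rw [h2, map_mul, map_natCast, map_mul, hcN]
    ext i
    fin_cases i
    · show z (uD N (dvd_refl N) ![1, 0] s) 0 = _
      refine (hr1 s).trans ?_
      show _ = r0 / (N : ℂ) * ((N : ℂ) * iC a b s) + r1 / (N : ℂ) * ((N : ℂ) * conj (iC a b s))
      field_simp
    · exact hU1 _ (tv_mem (dvd_refl N) ![1, 0] s)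
  have hrr : r = r1 / N := hs.uq F r (r1 / N) hSF hSF'
  have hr10 : r1 ≠ 0 := by
    rintro rfl
    rw [zero_div] at hrr
    exact hr hrr
  have hwC : iC a b (wq a b ℤ) = wC a b := by
    rw [iC_apply]
    show ((0 : ℤ) : ℂ) + ((1 : ℤ) : ℂ) * wC a b = wC a b
    push_cast
    ring
  have hRV : RV N (iC a b) ![1, 0] z ≠ 0 := by
    intro h0
    have h2 : iC a b (wq a b ℤ) * z (uD N (dvd_refl N) ![1, 0] 1) 0 -
        z (uD N (dvd_refl N) ![1, 0] (wq a b ℤ)) 0 = 0 := congrFun h0 0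
    have h3 : z (uD N (dvd_refl N) ![1, 0] 1) 0 = _ := hr1 1
    have h4 : z (uD N (dvd_refl N) ![1, 0] (wq a b ℤ)) 0 = _ := hr1 (wq a b ℤ)
    rw [h3, h4, hwC, map_one, map_one] at h2
    have h5 : r1 * (wC a b - conj (wC a b)) = 0 := by linear_combination h2
    exact (mul_ne_zero hr10 (Sedge_ne hn)) h5
  have hBV : ∀ f, BV N (iC a b) f z = iC a b ((N : Qf a b ℤ) * 1) * F f :=
    fun f => hzF f _ (tv_mem (dvd_refl N) f 1)
  have hS : ∀ f ∈ {f : Fin 2 → Qf a b ℤ | Prm f ∧ ∀ u : Qf a b ℤ, IsUnit u →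
      ¬ Cgr N f (u • e')}, BV N (iC a b) f z = 0 := by
    rintro f ⟨hf, hfu⟩
    have hFf : F f = 0 := by
      by_contra h0
      obtain ⟨u, hu, hcu⟩ := hsup f hf h0
      exact hfu u hu hcu
    rw [hBV, hFf, mul_zero]
  obtain ⟨z', hz', h2, h3⟩ := (hint a b hn hfg N hN _ ![1, 0] z hz hS).2 hRV
  exact ⟨N, e', hN, hN₀N, hM₀N, he', hco, z', hz', fun f hf hfu => h2 f ⟨hf, hfu⟩, h3⟩

end

end Pool.Agent.F8.CG
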