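import Pool.Agent.Lib.MP_305fdd_al.F8.CG.StmS2
import Pool.Agent.Lib.MP_305fdd_al.F8.CG.P_Kimg
import Pool.Agent.Lib.MP_305fdd_al.F8.CG.P_Jnsq
import Pool.Agent.Lib.MP_305fdd_al.F8.CG.P_Jun
import Pool.Agent.Lib.MP_305fdd_al.F8.CG.P_Vtv
import Pool.Agent.Lib.MP_305fdd_al.F8.BG.P_con
import Pool.Agent.Lib.MP_305fdd_al.F8.Tower

/-!
# MP_305fdd_al, congruence subgroups: piece Sex, the exact correspondence of unipotent elements
-/

set_option autoImplicit false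

namespace Pool.Agent.F8.CG

open Pool.Agent.F8.BG Pool.Agent.MP_305fdd_al Pool.Agent.Lib.MP_305fdd_al Pool.Agent.F8
open scoped QuadraticAlgebra

noncomputable section

private theorem Sex_zero {a b : ℤ} {K : ℕ} {z : Qf a b ℤ} :
    Qfm a b (Int.castRingHom (ZMod K)) z = 0 ↔ (K : Qf a b ℤ) ∣ z := by
  constructor
  · intro h
    have h1 : ((z.re : ℤ) : ZMod K) = 0 := congrArg QuadraticAlgebra.re h
    have h2 : ((z.im : ℤ) : ZMod K) = 0 := congrArg QuadraticAlgebra.im h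
    rw [ZMod.intCast_zmod_eq_zero_iff_dvd] at h1 h2
    obtain ⟨x, hx⟩ := h1
    obtain ⟨y, hy⟩ := h2
    refine ⟨⟨x, y⟩, ?_⟩
    apply QuadraticAlgebra.ext
    · simp [hx]
    · simp [hy]
  · rintro ⟨y, rfl⟩
    exact Qfm_natCast K y

private theorem Sex_norm {a b : ℤ} (hn : b ^ 2 + 4 * a < 0) (T : Qf a b ℤ) :
    ∃ n : ℕ, n ≠ 0 ∧ (T ≠ 0 → T ∣ (n : Qf a b ℤ)) := by
  by_cases h : T = 0
  · exact ⟨1, one_ne_zero, fun h1 => absurd h h1⟩
  · refine ⟨(nq T).natAbs, ?_, fun _ => ?_⟩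
    · intro h1
      exact h (nq_eq_zero hn (Int.natAbs_eq_zero.1 h1))
    · refine ⟨cjq a b ℤ T, ?_⟩
      rw [mul_cjq]
      apply QuadraticAlgebra.ext
      · show _ = nq T
        have h1 : (((nq T).natAbs : ℕ) : ℤ) = nq T := Int.natAbs_of_nonneg (nq_nonneg hn T)
        rw [← h1]
        simp
      · show _ = (0 : ℤ)
        simp

private theorem Sex_eU_add {R : Type} [CommRing R] (x y : R) : eU (x + y) = eU x * eU y := by
  unfold eU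
  rw [AB.mx_mul]
  apply AB.mx_congr <;> ring

private theorem Sex_eU_zero {R : Type} [CommRing R] : (eU (0 : R)) = 1 := by
  have h := Sex_eU_add (0 : R) 0
  rw [add_zero] at h
  exact (mul_eq_left.1 h.symm)

private theorem Sex_mem {a b : ℤ} (M₁ : ℕ) (x : Qf a b ℤ) :
    eU ((M₁ : Qf a b ℤ) * x) ∈ Gam a b M₁ := by
  show rdq a b M₁ _ = 1
  unfold rdq
  rw [eU_map]
  have h : Qfm a b (Int.castRingHom (ZMod M₁)) ((M₁ : Qf a b ℤ) * x) = 0 :=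
    Sex_zero.2 (Dvd.intro x rfl)
  rw [h, Sex_eU_zero]

private theorem Sex_redZ {n : ℕ} {x y : Multiplicative ℤ} (h : redZ n x = redZ n y) :
    (n : ℤ) ∣ x.toAdd - y.toAdd := by
  have h1 : ((x.toAdd : ℤ) : ZMod n) = ((y.toAdd : ℤ) : ZMod n) := h
  rw [← sub_eq_zero, ← Int.cast_sub, ZMod.intCast_zmod_eq_zero_iff_dvd] at h1
  exact h1

private theorem Sex_col {a b : ℤ} (g : GQ a b) (t : Qf a b ℤ) :
    tv (colG g 0) t = g * eU t * g⁻¹ := by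
  have h1 := (p_Vtv (Qf a b ℤ) ![1, 0] 0 t).2.2.1 g
  rw [← eU_eq_tv] at h1
  rw [h1]
  congr 1
  funext i
  rw [Matrix.mulVec_eq_sum]
  simp [Fin.sum_univ_two, colG]

private theorem Sex_uD_add {a b : ℤ} (m : ℕ) (e : Fin 2 → Qf a b ℤ) (s t : Qf a b ℤ) :
    uD m (dvd_refl m) e (s + t) = uD m (dvd_refl m) e s * uD m (dvd_refl m) e t := by
  apply Subtype.ext
  show tv e ((m : Qf a b ℤ) * (s + t)) = tv e ((m : Qf a b ℤ) * s) * tv e ((m : Qf a b ℤ) * t)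
  rw [mul_add]
  exact (p_Vtv (Qf a b ℤ) e _ _).2.1

private theorem Sex_uD_zero {a b : ℤ} (m : ℕ) (e : Fin 2 → Qf a b ℤ) :
    uD m (dvd_refl m) e 0 = 1 := by
  have h := Sex_uD_add m e (0 : Qf a b ℤ) 0
  rw [add_zero] at h
  exact (mul_eq_left.1 h.symm)

private theorem Sex_uD_pow {a b : ℤ} (m : ℕ) (e : Fin 2 → Qf a b ℤ) (y : Qf a b ℤ) (n : ℕ) :
    uD m (dvd_refl m) e ((n : Qf a b ℤ) * y) = uD m (dvd_refl m) e y ^ n := by
  induction n with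
  | zero => rw [Nat.cast_zero, zero_mul, Sex_uD_zero, pow_zero]
  | succ n ih => rw [Nat.cast_succ, add_mul, one_mul, Sex_uD_add, ih, pow_succ]

/-- congruent transvections -/
private theorem Sex_ent {a b : ℤ} (m K : ℕ) (hm : m ≠ 0) (hn : b ^ 2 + 4 * a < 0)
    (e f : Fin 2 → Qf a b ℤ) (s x : Qf a b ℤ)
    (h : rdq a b (m * K) (tv e ((m : Qf a b ℤ) * s)) = rdq a b (m * K) (tv f ((m : Qf a b ℤ) * x))) :
    (K : Qf a b ℤ) ∣ s * e 0 ^ 2 - x * f 0 ^ 2 ∧ (K : Qf a b ℤ) ∣ s * e 1 ^ 2 - x * f 1 ^ 2 ∧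
    (K : Qf a b ℤ) ∣ s * e 0 * e 1 - x * f 0 * f 1 := by
  have hD : IsDomain (Qf a b ℤ) := Qf_domain hn
  have hm0 : (m : Qf a b ℤ) ≠ 0 := by exact_mod_cast hm
  have key : ∀ i j, ((m * K : ℕ) : Qf a b ℤ) ∣
      (tv e ((m : Qf a b ℤ) * s)).val i j - (tv f ((m : Qf a b ℤ) * x)).val i j := by
    intro i j
    rw [← Sex_zero, map_sub, sub_eq_zero]
    exact congrArg (fun y : SL2 (Qf a b (ZMod (m * K))) => y.val i j) h
  have can : ∀ z, ((m * K : ℕ) : Qf a b ℤ) ∣ (m : Qf a b ℤ) * z → (K : Qf a b ℤ) ∣ z := by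
    intro z hz
    rw [Nat.cast_mul] at hz
    exact (mul_dvd_mul_iff_left hm0).1 hz
  refine ⟨can _ ?_, can _ ?_, can _ ?_⟩
  · have h1 := key 0 1
    have h2 : (tv e ((m : Qf a b ℤ) * s)).val 0 1 - (tv f ((m : Qf a b ℤ) * x)).val 0 1 =
        (m : Qf a b ℤ) * (s * e 0 ^ 2 - x * f 0 ^ 2) := by
      show (m : Qf a b ℤ) * s * e 0 ^ 2 - (m : Qf a b ℤ) * x * f 0 ^ 2 = _
      ring
    rwa [h2] at h1
  · have h1 := key 1 0
    have h2 : (tv e ((m : Qf a b ℤ) * s)).val 1 0 - (tv f ((m : Qf a b ℤ) * x)).val 1 0 =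
        -((m : Qf a b ℤ) * (s * e 1 ^ 2 - x * f 1 ^ 2)) := by
      show -((m : Qf a b ℤ) * s * e 1 ^ 2) - -((m : Qf a b ℤ) * x * f 1 ^ 2) = _
      ring
    rw [h2] at h1
    exact (dvd_neg).1 h1
  · have h1 := key 0 0
    have h2 : (tv e ((m : Qf a b ℤ) * s)).val 0 0 - (tv f ((m : Qf a b ℤ) * x)).val 0 0 =
        -((m : Qf a b ℤ) * (s * e 0 * e 1 - x * f 0 * f 1)) := by
      show (1 - (m : Qf a b ℤ) * s * e 0 * e 1) - (1 - (m : Qf a b ℤ) * x * f 0 * f 1) = _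
      ring
    rw [h2] at h1
    exact (dvd_neg).1 h1

/-- a primitive vector: the square of a linear form -/
private theorem Sex_sq {a b : ℤ} (K : Qf a b ℤ) (e f : Fin 2 → Qf a b ℤ) (s x : Qf a b ℤ)
    (h0 : K ∣ s * e 0 ^ 2 - x * f 0 ^ 2) (h1 : K ∣ s * e 1 ^ 2 - x * f 1 ^ 2)
    (h2 : K ∣ s * e 0 * e 1 - x * f 0 * f 1) (he : IsCoprime (e 0) (e 1)) :
    ∃ P, K ∣ s - x * P ^ 2 := by
  obtain ⟨α, β, hab⟩ := he
  refine ⟨α * f 0 + β * f 1, ?_⟩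
  have h3 : s - x * (α * f 0 + β * f 1) ^ 2 =
      α ^ 2 * (s * e 0 ^ 2 - x * f 0 ^ 2) + β ^ 2 * (s * e 1 ^ 2 - x * f 1 ^ 2) +
      2 * α * β * (s * e 0 * e 1 - x * f 0 * f 1) := by
    linear_combination (-s * (α * e 0 + β * e 1) - s) * hab
  rw [h3]
  exact dvd_add (dvd_add (h0.mul_left _) (h1.mul_left _)) (h2.mul_left _)

/-- the arithmetic -/
private theorem Sex_ar {a b : ℤ} (hn : b ^ 2 + 4 * a < 0) (K ns ks : ℕ)
    (s x T P P' : Qf a b ℤ) (hs : s ≠ 0) (hns : s ∣ (ns : Qf a b ℤ)) (hns0 : ns ≠ 0)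
    (hK : 2 * ns ∣ K) (hK' : ns * ks ∣ K) (hT : T ≠ 0 → T ∣ (K : Qf a b ℤ))
    (hks : ∀ u s : Qf a b ℤ, IsUnit u → (ks : Qf a b ℤ) ∣ u - s ^ 2 → ∃ v, IsUnit v ∧ u = v ^ 2)
    (h1 : (K : Qf a b ℤ) ∣ x - T) (h2 : (K : Qf a b ℤ) ∣ s - x * P ^ 2)
    (h3 : (K : Qf a b ℤ) ∣ x - s * P' ^ 2) : ∃ v, IsUnit v ∧ T = s * v ^ 2 := by
  have hD : IsDomain (Qf a b ℤ) := Qf_domain hn
  have h4 : (K : Qf a b ℤ) ∣ s - T * P ^ 2 := by
    have h5 : s - T * P ^ 2 = (s - x * P ^ 2) + (x - T) * P ^ 2 := by ring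
    rw [h5]
    exact dvd_add h2 (h1.mul_right _)
  have h5 : (K : Qf a b ℤ) ∣ T - s * P' ^ 2 := by
    have h6 : T - s * P' ^ 2 = (x - s * P' ^ 2) - (x - T) := by ring
    rw [h6]
    exact dvd_sub h3 h1
  have hnsK : (ns : Qf a b ℤ) ∣ (K : Qf a b ℤ) :=
    Nat.cast_dvd_cast ((Dvd.intro_left 2 rfl : ns ∣ 2 * ns).trans hK)
  have hT0 : T ≠ 0 := by
    intro h0
    rw [h0, zero_mul, sub_zero] at h4
    have h6 : ((2 * ns : ℕ) : Qf a b ℤ) ∣ (ns : Qf a b ℤ) :=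
      ((Nat.cast_dvd_cast hK).trans h4).trans hns
    obtain ⟨c, hc⟩ := h6
    have hns' : (ns : Qf a b ℤ) ≠ 0 := by exact_mod_cast hns0
    have h7 : (2 : Qf a b ℤ) * c = 1 := by
      apply mul_left_cancel₀ hns'
      rw [mul_one]
      rw [Nat.cast_mul, Nat.cast_ofNat] at hc
      linear_combination -hc
    have h8 := congrArg QuadraticAlgebra.re h7
    have h9 : 2 * c.re = 1 := by simpa using h8
    omega
  have hsT : s ∣ T := by
    have h6 : s ∣ T - s * P' ^ 2 := (hns.trans hnsK).trans h5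
    have h7 := dvd_add h6 (Dvd.intro (P' ^ 2) rfl : s ∣ s * P' ^ 2)
    rwa [sub_add_cancel] at h7
  have hTs : T ∣ s := by
    have h6 : T ∣ s - T * P ^ 2 := (hT hT0).trans h4
    have h7 := dvd_add h6 (Dvd.intro (P ^ 2) rfl : T ∣ T * P ^ 2)
    rwa [sub_add_cancel] at h7
  obtain ⟨t', ht'⟩ := hsT
  obtain ⟨t'', ht''⟩ := hTs
  have hu : t' * t'' = 1 := by
    apply mul_left_cancel₀ hs
    rw [mul_one, ← mul_assoc, ← ht', ← ht'']
  have hun : IsUnit t' := IsUnit.of_mul_eq_one t'' hu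
  have h6 : (ks : Qf a b ℤ) ∣ t' - P' ^ 2 := by
    obtain ⟨c, hc⟩ := hns
    have h7 : ((ns * ks : ℕ) : Qf a b ℤ) ∣ s * (t' - P' ^ 2) := by
      have h8 : s * (t' - P' ^ 2) = T - s * P' ^ 2 := by rw [ht']; ring
      rw [h8]
      exact (Nat.cast_dvd_cast hK').trans h5
    rw [Nat.cast_mul, hc, mul_assoc] at h7
    have h8 := (mul_dvd_mul_iff_left hs).1 h7
    exact (Dvd.intro_left c rfl : (ks : Qf a b ℤ) ∣ c * ks).trans h8
  obtain ⟨v, hv, hv2⟩ := hks t' P' hun h6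
  exact ⟨v, hv, by rw [ht', hv2]⟩

theorem p_Sex : S_ex := by
  intro a b hn hpid h5 hfgQ hcg m hm3 hν Ψ hPs e' he' s hs Q _ _ θ
  have hm0 : m ≠ 0 := by omega
  have : NeZero m := ⟨hm0⟩
  have hfinM : Finite (SL2 (Qf a b (ZMod m))) := con_finite a b m
  have hfi : (Gam a b m).FiniteIndex := inferInstance
  have hfg : Group.FG (Gam a b m) := inferInstance
  obtain ⟨ν, hν1, hν2⟩ := hν
  have hν3 : ∀ (j : Fin 2) (q : GQ a b ⧸ Gam a b m), ∃ ν' : Gam a b m →* Multiplicative ℤ,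
      ∀ (k : ℕ) [NeZero k], Ψ.toFun _ ((redZ k).comp ((ν j).comp (cjM m q.out))) =
        (redZ k).comp ν' := fun j q => hν2 j q.out _ Ψ
  choose ν' hν' using hν3
  let u : Gam a b m := uD m (dvd_refl m) e' s
  let A : (GQ a b ⧸ Gam a b m) → Fin 2 → ℤ := fun q j => (ν' j q u).toAdd
  let l : Fin 2 → (Qf a b ℤ →+ ℤ) := fun j =>
    { toFun := fun x => (ν j ⟨eU ((m : Qf a b ℤ) * x), Sex_mem m x⟩).toAdd
      map_zero' := by
        have h : (⟨eU ((m : Qf a b ℤ) * 0), Sex_mem m 0⟩ : Gam a b m) = 1 := by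
          apply Subtype.ext
          show eU ((m : Qf a b ℤ) * 0) = 1
          rw [mul_zero, Sex_eU_zero]
        rw [h, map_one, toAdd_one]
      map_add' := fun x y => by
        have h : (⟨eU ((m : Qf a b ℤ) * (x + y)), Sex_mem m (x + y)⟩ : Gam a b m) =
            ⟨eU ((m : Qf a b ℤ) * x), Sex_mem m x⟩ *
            ⟨eU ((m : Qf a b ℤ) * y), Sex_mem m y⟩ := by
          apply Subtype.ext
          show eU ((m : Qf a b ℤ) * (x + y)) =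
            eU ((m : Qf a b ℤ) * x) * eU ((m : Qf a b ℤ) * y)
          rw [mul_add, Sex_eU_add]
        rw [h, map_mul, toAdd_mul] }
  have hl : ∀ j x, l j x = (ν j ⟨eU ((m : Qf a b ℤ) * x), Sex_mem m x⟩).toAdd :=
    fun j x => rfl
  obtain ⟨I, hI0, hI⟩ := p_Kimg a b l (by
    intro x hx
    refine hν1 x (Sex_mem m x) fun j => ?_
    have h1 := hx j
    rw [hl] at h1
    exact Multiplicative.toAdd.injective h1)
  have hT : ∀ q : GQ a b ⧸ Gam a b m, ∃ t₁ : Qf a b ℤ, ∀ (k : ℕ) (t' : Qf a b ℤ),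
      (∀ j, ((I * k : ℕ) : ℤ) ∣ l j t' - A q j) → (k : Qf a b ℤ) ∣ t' - t₁ := by
    intro q
    by_cases h : ∃ t : Qf a b ℤ, ∀ j, (I : ℤ) ∣ l j t - A q j
    · obtain ⟨t, ht⟩ := h
      obtain ⟨t₁, -, h2⟩ := hI (A q) t ht
      exact ⟨t₁, h2⟩
    · refine ⟨0, fun m t' h1 => absurd ⟨t', fun j => ?_⟩ h⟩
      refine dvd_trans ?_ (h1 j)
      rw [Nat.cast_mul]
      exact dvd_mul_right _ _
  choose T hT using hT
  choose n hn0 hnT using fun q => Sex_norm hn (T q)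
  have hfq : Finite (GQ a b ⧸ Gam a b m) := inferInstance
  have hftq : Fintype (GQ a b ⧸ Gam a b m) := Fintype.ofFinite _
  obtain ⟨ns, hns0, hns⟩ := Sex_norm hn s
  obtain ⟨ks, hks0, hks⟩ := p_Jnsq p_Jun a b hn h5
  have hQ0 : Nat.card Q ≠ 0 := Nat.card_pos.ne'
  set Pn : ℕ := ∏ q, n q with hPn
  have hPn0 : Pn ≠ 0 := Finset.prod_ne_zero_iff.2 fun q _ => hn0 q
  have hnd : ∀ q, n q ∣ Pn := fun q => Finset.dvd_prod_of_mem n (Finset.mem_univ q)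
  set K : ℕ := 2 * Nat.card Q * ns * ks * Pn with hK
  have hK0 : K ≠ 0 := Nat.mul_ne_zero (Nat.mul_ne_zero (Nat.mul_ne_zero
    (Nat.mul_ne_zero two_ne_zero hQ0) hns0) hks0) hPn0
  have hQK : Nat.card Q ∣ K := ⟨2 * ns * ks * Pn, by rw [hK]; ring⟩
  have h2K : 2 * ns ∣ K := ⟨Nat.card Q * ks * Pn, by rw [hK]; ring⟩
  have hskK : ns * ks ∣ K := ⟨2 * Nat.card Q * Pn, by rw [hK]; ring⟩
  have hPK : Pn ∣ K := ⟨2 * Nat.card Q * ns * ks, by rw [hK]; ring⟩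
  have : NeZero K := ⟨hK0⟩
  have : NeZero I := ⟨hI0⟩
  have : NeZero (I * K) := ⟨Nat.mul_ne_zero hI0 hK0⟩
  have : NeZero (m * K) := ⟨Nat.mul_ne_zero hm0 hK0⟩
  have hfinm : Finite (SL2 (Qf a b (ZMod (m * K)))) := con_finite a b _
  have hfinz : Finite (Multiplicative (ZMod (I * K))) :=
    Finite.of_equiv (ZMod (I * K)) Multiplicative.ofAdd
  -- the homomorphism to a finite group
  let θ₂ : Gam a b m →* (Fin 2 × (GQ a b ⧸ Gam a b m) → Multiplicative (ZMod (I * K))) :=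
    MonoidHom.pi fun jq =>
      (redZ (I * K)).comp ((ν jq.1).comp (cjM m jq.2.out))
  let θ₁ : Gam a b m →* SL2 (Qf a b (ZMod (m * K))) :=
    (rdq a b (m * K)).comp (Gam a b m).subtype
  refine ⟨Q × (SL2 (Qf a b (ZMod (m * K))) ×
      (Fin 2 × (GQ a b ⧸ Gam a b m) → Multiplicative (ZMod (I * K)))), inferInstance,
      inferInstance, θ.prod (θ₁.prod θ₂), ?_⟩
  rintro e ⟨g', hg'⟩ x hp
  rw [pair_prod, pair_prod] at hp
  have hp0 : θ (uD m (dvd_refl m) e x) = Ψ.toFun Q θ u := congrArg Prod.fst hp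
  have hp12 := congrArg Prod.snd hp
  have hp1 : θ₁ (uD m (dvd_refl m) e x) = Ψ.toFun _ θ₁ u := congrArg Prod.fst hp12
  have hp2 : θ₂ (uD m (dvd_refl m) e x) = Ψ.toFun _ θ₂ u := congrArg Prod.snd hp12
  have hsnd : ∀ (j : Fin 2) (q : GQ a b ⧸ Gam a b m),
      redZ (I * K) (ν j (cjM m q.out (uD m (dvd_refl m) e x))) = redZ (I * K) (ν' j q u) := by
    intro j q
    let ev : (Fin 2 × (GQ a b ⧸ Gam a b m) → Multiplicative (ZMod (I * K))) →*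
      Multiplicative (ZMod (I * K)) :=
      Pi.evalMonoidHom (fun _ : Fin 2 × (GQ a b ⧸ Gam a b m) =>
        Multiplicative (ZMod (I * K))) (j, q)
    have h4 := Ψ.nat ev θ₂
    have h5 := DFunLike.congr_fun h4 u
    have h6 : ev.comp θ₂ = (redZ (I * K)).comp ((ν j).comp (cjM m q.out)) := by
      ext1 y
      rfl
    rw [h6, hν' j q (I * K), MonoidHom.comp_apply, MonoidHom.comp_apply, ← hp2] at h5
    exact h5.symm
  have hpx : (uD m (dvd_refl m) e x).val = g' * eU ((m : Qf a b ℤ) * x) * g'⁻¹ := by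
    show tv e ((m : Qf a b ℤ) * x) = _
    rw [← hg', Sex_col]
  -- the class of `g'`
  obtain ⟨hh, hhh⟩ := QuotientGroup.mk_out_eq_mul (Gam a b m) g'
  set q₀ : GQ a b ⧸ Gam a b m := (g' : GQ a b ⧸ Gam a b m) with hq₀
  have hval : ∀ j, ν j (cjM m q₀.out (uD m (dvd_refl m) e x)) =
      ν j ⟨eU ((m : Qf a b ℤ) * x), Sex_mem m x⟩ := by
    intro j
    have h4 : cjM m q₀.out (uD m (dvd_refl m) e x) =
        hh⁻¹ * ⟨eU ((m : Qf a b ℤ) * x), Sex_mem m x⟩ * hh := by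
      apply Subtype.ext
      show q₀.out⁻¹ * (uD m (dvd_refl m) e x).val * q₀.out =
        hh.val⁻¹ * eU ((m : Qf a b ℤ) * x) * hh.val
      rw [hhh, hpx]
      group
    rw [h4, map_mul, map_mul, map_inv, mul_comm, mul_inv_cancel_left]
  have hdv : ∀ j, ((I * K : ℕ) : ℤ) ∣ l j x - A q₀ j := by
    intro j
    have h4 := hsnd j q₀
    rw [hval j] at h4
    exact Sex_redZ h4
  have hKt : (K : Qf a b ℤ) ∣ x - T q₀ := hT q₀ K x hdv
  -- the conjugator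
  obtain ⟨h, hh2⟩ := hPs (m * K)
  have hu := hh2 u
  have hu2 : rdq a b (m * K) (tv e' ((m : Qf a b ℤ) * s)) =
      rdq a b (m * K) (tv (h.val.mulVec e) ((m : Qf a b ℤ) * x)) := by
    have h6 : Ψ.toFun _ ((rdq a b (m * K)).comp (Gam a b m).subtype) u =
        rdq a b (m * K) (tv e ((m : Qf a b ℤ) * x)) := hp1.symm
    rw [h6] at hu
    have h7 := (p_Vtv (Qf a b ℤ) e 0 ((m : Qf a b ℤ) * x)).2.2.1 h
    rw [← h7, map_mul, map_mul, map_inv]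
    exact hu
  have hf : Prm (h.val.mulVec e) := hcg.act h e ⟨g', hg'⟩
  obtain ⟨k0, k1, k2⟩ := Sex_ent m K hm0 hn _ _ _ _ hu2
  obtain ⟨P, hP⟩ := Sex_sq _ _ _ _ _ k0 k1 k2 ((hcg.cop _).1 he')
  obtain ⟨P', hP'⟩ := Sex_sq (K : Qf a b ℤ) (h.val.mulVec e) e' x s
    (by rw [← neg_sub]; exact (dvd_neg).2 k0) (by rw [← neg_sub]; exact (dvd_neg).2 k1)
    (by rw [← neg_sub]; exact (dvd_neg).2 k2) ((hcg.cop _).1 hf)
  obtain ⟨v, hv, hTv⟩ := Sex_ar hn K ns ks s x (T q₀) P P' hs (hns hs) hns0 h2K hskK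
    (fun h0 => (hnT q₀ h0).trans (Nat.cast_dvd_cast ((hnd q₀).trans hPK))) hks hKt hP hP'
  refine ⟨v, hv, ?_⟩
  obtain ⟨y, hy⟩ := hKt
  have hx : x = s * v ^ 2 + (K : Qf a b ℤ) * y := by rw [← hTv, ← hy]; ring
  have h6 : θ (uD m (dvd_refl m) e y) ^ K = 1 := by
    obtain ⟨c, hc⟩ := hQK
    rw [hc, pow_mul, pow_card_eq_one', one_pow]
  rw [← hp0, hx, Sex_uD_add, Sex_uD_pow, map_mul, map_pow, h6, mul_one]

end

end Pool.Agent.F8.CG
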