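import Pool.Agent.Lib.MP_305fdd_al.F8.CG.StmS
import Pool.Agent.Lib.MP_305fdd_al.F8.CG.P_Vtv
import Pool.Agent.Lib.MP_305fdd_al.F8.BG.P_con

/-!
# MP_305fdd_al, congruence subgroups: piece [CG Sext], extension of crossed homomorphisms
-/

set_option autoImplicit false

namespace Pool.Agent.F8.CG

open Pool.Agent.F8.BG Pool.Agent.MP_305fdd_al Pool.Agent.Lib.MP_305fdd_al Pool.Agent.F8
open scoped QuadraticAlgebra ComplexConjugate

noncomputable section

variable {a b : ℤ}

private theorem Sext_fin (m : ℕ) (hm : m ≠ 0) : (Gam a b m).FiniteIndex := by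
  have : NeZero m := ⟨hm⟩
  have := con_finite a b m
  exact Subgroup.finiteIndex_ker (rdq a b m)

/-- the action on the complex vectors -/
private def Sext_A (g : GQ a b) (v : Fin 2 → ℂ) : Fin 2 → ℂ := (iG a b g).val.mulVec v

private theorem Sext_A_mul (g h : GQ a b) (v : Fin 2 → ℂ) :
    Sext_A (g * h) v = Sext_A g (Sext_A h v) := by
  unfold Sext_A
  rw [Matrix.mulVec_mulVec, map_mul]
  rfl

private theorem Sext_A_one (v : Fin 2 → ℂ) : Sext_A (1 : GQ a b) v = v := by
  unfold Sext_A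
  rw [map_one]
  show (1 : Matrix (Fin 2) (Fin 2) ℂ).mulVec v = v
  exact Matrix.one_mulVec v

private theorem Sext_A_add (g : GQ a b) (v w : Fin 2 → ℂ) :
    Sext_A g (v + w) = Sext_A g v + Sext_A g w := Matrix.mulVec_add _ _ _

private theorem Sext_A_sub (g : GQ a b) (v w : Fin 2 → ℂ) :
    Sext_A g (v - w) = Sext_A g v - Sext_A g w := Matrix.mulVec_sub _ _ _

private theorem Sext_mv {R : Type} [CommRing R] (M : Matrix (Fin 2) (Fin 2) R) (v : Fin 2 → R)
    (i : Fin 2) : M.mulVec v i = M i 0 * v 0 + M i 1 * v 1 := by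
  rw [Matrix.mulVec_eq_sum]
  simp [Fin.sum_univ_two, mul_comm]

private theorem Sext_vmv (g : GQ a b) (e : Fin 2 → Qf a b ℤ) :
    vC a b (g.val.mulVec e) = Sext_A g (vC a b e) := by
  ext i
  unfold Sext_A
  rw [Sext_mv]
  unfold vC
  rw [Sext_mv, map_add, map_mul, map_mul]
  rfl

private theorem Sext_itv (e : Fin 2 → Qf a b ℤ) (t : Qf a b ℤ) :
    iG a b (tv e t) = tv (vC a b e) (iC a b t) := by
  apply Subtype.ext
  ext i j
  show iC a b ((tv e t).val i j) = (tv (vC a b e) (iC a b t)).val i j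
  fin_cases i <;> fin_cases j
  · show iC a b (1 - t * e 0 * e 1) = 1 - iC a b t * iC a b (e 0) * iC a b (e 1)
    simp only [map_sub, map_mul, map_one]
  · show iC a b (t * e 0 ^ 2) = iC a b t * iC a b (e 0) ^ 2
    simp only [map_mul, map_pow]
  · show iC a b (-(t * e 1 ^ 2)) = -(iC a b t * iC a b (e 1) ^ 2)
    simp only [map_neg, map_mul, map_pow]
  · show iC a b (1 + t * e 0 * e 1) = 1 + iC a b t * iC a b (e 0) * iC a b (e 1)
    simp only [map_add, map_mul, map_one]

private theorem Sext_A_tv (e : Fin 2 → Qf a b ℤ) (t : Qf a b ℤ) (v : Fin 2 → ℂ) :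
    Sext_A (tv e t) v = v + (iC a b t * om (vC a b e) v) • vC a b e := by
  unfold Sext_A
  rw [Sext_itv]
  exact (p_Vtv ℂ (vC a b e) 0 (iC a b t)).1 v

private theorem Sext_om_A (g : GQ a b) (e v : Fin 2 → ℂ) :
    om (Sext_A g e) (Sext_A g v) = om e v := (p_Vtv ℂ e 0 0).2.2.2.2.2 (iG a b g) v

private theorem Sext_om_add (e v w : Fin 2 → ℂ) : om e (v + w) = om e v + om e w := by
  unfold om
  simp only [Pi.add_apply]
  ring

private theorem Sext_om_sub (e v w : Fin 2 → ℂ) : om e (v - w) = om e v - om e w := by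
  unfold om
  simp only [Pi.sub_apply]
  ring

private theorem Sext_om_tv (e : Fin 2 → Qf a b ℤ) (t : Qf a b ℤ) (v : Fin 2 → ℂ) :
    om (vC a b e) (Sext_A (tv e t) v) = om (vC a b e) v := by
  rw [Sext_A_tv, Sext_om_add]
  unfold om
  simp only [Pi.smul_apply, smul_eq_mul]
  ring

/-- conjugation -/
private def Sext_c {N : ℕ} (g : GQ a b) (w : Gam a b N) : Gam a b N :=
  ⟨g⁻¹ * w.val * g, by
    have h := (inferInstance : (Gam a b N).Normal).conj_mem w.val w.2 g⁻¹
    rwa [inv_inv] at h⟩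

private theorem Sext_c_val {N : ℕ} (g : GQ a b) (w : Gam a b N) :
    (Sext_c g w).val = g⁻¹ * w.val * g := rfl

private theorem Sext_c_mul {N : ℕ} (g : GQ a b) (x y : Gam a b N) :
    Sext_c g (x * y) = Sext_c g x * Sext_c g y := by
  apply Subtype.ext
  show g⁻¹ * (x.val * y.val) * g = (g⁻¹ * x.val * g) * (g⁻¹ * y.val * g)
  group

private theorem Sext_c_comp {N : ℕ} (g h : GQ a b) (x : Gam a b N) :
    Sext_c (g * h) x = Sext_c h (Sext_c g x) := by
  apply Subtype.ext
  show (g * h)⁻¹ * x.val * (g * h) = h⁻¹ * (g⁻¹ * x.val * g) * h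
  group

private theorem Sext_uniq {N : ℕ} (hN : N ≠ 0) (v : Fin 2 → ℂ)
    (h : ∀ w : Gam a b N, Sext_A w.val v = v) : v = 0 := by
  have hNc : (N : ℂ) ≠ 0 := Nat.cast_ne_zero.2 hN
  have key : ∀ e : Fin 2 → Qf a b ℤ, ∀ i, om (vC a b e) v * vC a b e i = 0 := by
    intro e i
    have h1 := h ⟨_, tv_mem (dvd_refl N) e 1⟩
    change Sext_A (tv e ((N : Qf a b ℤ) * 1)) v = v at h1
    rw [Sext_A_tv] at h1
    have h2 := congrFun h1 i
    rw [Pi.add_apply, Pi.smul_apply, smul_eq_mul, mul_one, map_natCast] at h2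
    have h3 : (N : ℂ) * (om (vC a b e) v * vC a b e i) = 0 := by linear_combination h2
    exact (mul_eq_zero.1 h3).resolve_left hNc
  have k1 := key ![1, 0] 0
  have k2 := key ![0, 1] 1
  have e1 : om (vC a b ![1, 0]) v * vC a b ![1, 0] 0 = v 1 := by
    show (iC a b 1 * v 1 - iC a b 0 * v 0) * iC a b 1 = v 1
    rw [map_one, map_zero]
    ring
  have e2 : om (vC a b ![0, 1]) v * vC a b ![0, 1] 1 = -v 0 := by
    show (iC a b 0 * v 1 - iC a b 1 * v 0) * iC a b 1 = -v 0
    rw [map_one, map_zero]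
    ring
  rw [e1] at k1
  rw [e2, neg_eq_zero] at k2
  ext i
  fin_cases i
  · exact k2
  · exact k1

theorem p_Sext (hvt : V_vt) (h1 : S_h1) : S_ext := by
  intro a b hn hE hP M₀ hLD N hN hMN W₀ hW F hF3 hinv
  obtain ⟨z, hz, hzF⟩ := h1 a b hn hE hP M₀ hLD N hN hMN F hF3 fun w hw e => hinv w (hW hw) e
  have hz' : ∀ x y : Gam a b N, z (x * y) = z x + Sext_A x.val (z y) := hz
  have hex : ∀ g : W₀, ∃ v : Fin 2 → ℂ, ∀ w : Gam a b N,
      Sext_A g.val (z (Sext_c g.val w)) = z w + (Sext_A w.val v - v) := by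
    intro g
    have hmem : (fun w : Gam a b N => Sext_A g.val (z (Sext_c g.val w)) - z w) ∈
        Z1C (Gam a b N).subtype := by
      intro x y
      show Sext_A g.val (z (Sext_c g.val (x * y))) - z (x * y) =
        (Sext_A g.val (z (Sext_c g.val x)) - z x) +
          Sext_A x.val (Sext_A g.val (z (Sext_c g.val y)) - z y)
      have h2 : Sext_A g.val (Sext_A (Sext_c g.val x).val (z (Sext_c g.val y))) =
          Sext_A x.val (Sext_A g.val (z (Sext_c g.val y))) := by
        rw [← Sext_A_mul, ← Sext_A_mul, Sext_c_val]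
        congr 1
        group
      rw [Sext_c_mul, hz', hz', Sext_A_add, h2, Sext_A_sub]
      abel
    obtain ⟨v, hv⟩ := hvt a b hn hE hP (Gam a b N) (Sext_fin N hN) _ hmem (by
      intro e t h
      show om (vC a b e) (Sext_A g.val (z (Sext_c g.val ⟨tv e t, h⟩)) - z ⟨tv e t, h⟩) = 0
      have h3 : g.val⁻¹ * tv e t * (g.val⁻¹)⁻¹ = tv ((g.val⁻¹ : GQ a b).val.mulVec e) t :=
        (p_Vtv (Qf a b ℤ) e 0 t).2.2.1 _
      rw [inv_inv] at h3
      have h4 : tv ((g.val⁻¹ : GQ a b).val.mulVec e) t ∈ Gam a b N := by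
        rw [← h3]
        exact (Sext_c g.val ⟨tv e t, h⟩).2
      have h5 : Sext_c g.val ⟨tv e t, h⟩ = ⟨_, h4⟩ := Subtype.ext h3
      have h6 : vC a b e = Sext_A g.val (vC a b ((g.val⁻¹ : GQ a b).val.mulVec e)) := by
        rw [Sext_vmv, ← Sext_A_mul, mul_inv_cancel, Sext_A_one]
      have h7 : om (vC a b e) (Sext_A g.val (z (Sext_c g.val ⟨tv e t, h⟩))) =
          iC a b t * F e := by
        rw [h5, h6, Sext_om_A, hzF _ _ h4, hinv _ (inv_mem g.2)]
      rw [Sext_om_sub, h7, hzF, sub_self])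
    refine ⟨v, fun w => ?_⟩
    have h8 := hv w
    change Sext_A g.val (z (Sext_c g.val w)) - z w = Sext_A w.val v - v at h8
    rw [← h8]
    abel
  choose Z hZ using hex
  -- uniqueness
  have huq : ∀ v v' : Fin 2 → ℂ, (∀ w : Gam a b N, Sext_A w.val v - v = Sext_A w.val v' - v') →
      v = v' := by
    intro v v' h
    apply sub_eq_zero.1
    apply Sext_uniq hN
    intro w
    rw [Sext_A_sub]
    have := h w
    rw [sub_eq_sub_iff_add_eq_add] at this
    rw [sub_eq_sub_iff_add_eq_add]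
    rw [this]
    exact add_comm _ _
  have hcoc : ∀ x y : W₀, Z (x * y) = Z x + Sext_A x.val (Z y) := by
    intro x y
    apply huq
    intro w
    have e1 := hZ (x * y) w
    have e2 : Sext_A (x * y).val (z (Sext_c (x * y).val w)) =
        Sext_A x.val (Sext_A y.val (z (Sext_c y.val (Sext_c x.val w)))) := by
      rw [← Sext_A_mul, ← Sext_c_comp]
      rfl
    have e3 : Sext_A x.val (Sext_A (Sext_c x.val w).val (Z y)) =
        Sext_A w.val (Sext_A x.val (Z y)) := by
      rw [← Sext_A_mul, ← Sext_A_mul, Sext_c_val]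
      congr 1
      group
    rw [e2, hZ y, Sext_A_add, hZ x, Sext_A_sub, e3] at e1
    have e4 : z w + (Sext_A w.val (Z x) - Z x) + (Sext_A w.val (Sext_A x.val (Z y)) -
        Sext_A x.val (Z y)) = z w + (Sext_A w.val (Z x + Sext_A x.val (Z y)) -
          (Z x + Sext_A x.val (Z y))) := by
      rw [Sext_A_add]
      abel
    rw [e4] at e1
    exact (add_left_cancel e1).symm
  have hres : ∀ (x : W₀) (h : x.val ∈ Gam a b N), Z x = z ⟨x.val, h⟩ := by
    intro x h
    apply huq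
    intro w
    have e1 := hZ x w
    have e2 : (⟨x.val, h⟩ : Gam a b N) * Sext_c x.val w = w * ⟨x.val, h⟩ := by
      apply Subtype.ext
      show x.val * (x.val⁻¹ * w.val * x.val) = w.val * x.val
      group
    have e3 := hz' ⟨x.val, h⟩ (Sext_c x.val w)
    rw [e2, hz'] at e3
    have e4 : z w + Sext_A w.val (z ⟨x.val, h⟩) =
        z ⟨x.val, h⟩ + Sext_A x.val (z (Sext_c x.val w)) := e3
    rw [e1] at e4
    have e5 : z w + (Sext_A w.val (Z x) - Z x) =
        z w + (Sext_A w.val (z ⟨x.val, h⟩) - z ⟨x.val, h⟩) := by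
      rw [← add_sub_assoc, ← add_sub_assoc, e4]
      abel
    exact add_left_cancel e5
  refine ⟨Z, hcoc, ?_⟩
  intro e t h
  have hpow : ∀ k : ℕ, (tv e t : GQ a b) ^ k = tv e ((k : Qf a b ℤ) * t) := by
    intro k
    induction k with
    | zero => rw [pow_zero, Nat.cast_zero, zero_mul, tv_zero_aux]
    | succ k ih =>
      rw [pow_succ, ih, Nat.cast_succ, add_mul, one_mul]
      exact ((p_Vtv (Qf a b ℤ) e _ t).2.1).symm
  have hone : Z 1 = 0 := by
    have := hcoc 1 1
    rw [mul_one] at this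
    have h2 : Sext_A (1 : W₀).val (Z 1) = Z 1 := Sext_A_one _
    rw [h2] at this
    have h3 : Z 1 + 0 = Z 1 + Z 1 := by rw [add_zero]; exact this
    exact (add_left_cancel h3).symm
  have hind : ∀ k : ℕ, om (vC a b e) (Z ((⟨tv e t, h⟩ : W₀) ^ k)) =
      k * om (vC a b e) (Z ⟨tv e t, h⟩) := by
    intro k
    induction k with
    | zero =>
      rw [pow_zero, hone, Nat.cast_zero, zero_mul]
      unfold om
      simp
    | succ k ih =>
      rw [pow_succ', hcoc, Sext_om_add, Nat.cast_succ]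
      have h2 : om (vC a b e) (Sext_A (⟨tv e t, h⟩ : W₀).val (Z ((⟨tv e t, h⟩ : W₀) ^ k))) =
          om (vC a b e) (Z ((⟨tv e t, h⟩ : W₀) ^ k)) := Sext_om_tv e t _
      rw [h2, ih]
      ring
  have hm : tv e ((N : Qf a b ℤ) * t) ∈ Gam a b N := tv_mem (dvd_refl N) e t
  have hv : ((⟨tv e t, h⟩ : W₀) ^ N).val = tv e ((N : Qf a b ℤ) * t) := by
    rw [← hpow]
    rfl
  have hm' : ((⟨tv e t, h⟩ : W₀) ^ N).val ∈ Gam a b N := by
    rw [hv]
    exact hm
  have h2 := hind N
  rw [hres _ hm'] at h2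
  have h3 : (⟨((⟨tv e t, h⟩ : W₀) ^ N).val, hm'⟩ : Gam a b N) = ⟨_, hm⟩ := Subtype.ext hv
  rw [h3, hzF, map_mul, map_natCast] at h2
  have hNc : (N : ℂ) ≠ 0 := Nat.cast_ne_zero.2 hN
  apply mul_left_cancel₀ hNc
  rw [← h2]
  ring

end

end Pool.Agent.F8.CG
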