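import Pool.Agent.Lib.MP_305fdd_al.F8.CG.StmS
import Pool.Agent.Lib.MP_305fdd_al.F8.CG.P_Vtv

/-! Piece `Sh1` of project CG: crossed homomorphisms of `Γ(N)` with a given function. -/

set_option autoImplicit false

namespace Pool.Agent.F8.CG

open Pool.Agent.F8.BG Pool.Agent.MP_305fdd_al Pool.Agent.Lib.MP_305fdd_al Pool.Agent.F8
open scoped QuadraticAlgebra ComplexConjugate

private theorem Sh1_mv {R : Type} [CommRing R] (M : Matrix (Fin 2) (Fin 2) R) (v : Fin 2 → R)
    (i : Fin 2) : M.mulVec v i = M i 0 * v 0 + M i 1 * v 1 := by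
  rw [Matrix.mulVec_eq_sum]
  simp [Fin.sum_univ_two, mul_comm]

private theorem Sh1_inj {a b : ℤ} (h : b ^ 2 + 4 * a < 0) {x : Qf a b ℤ} (hx : iC a b x = 0) :
    x = 0 := by
  rw [iC_apply] at hx
  have h1 := congrArg Complex.im hx
  simp only [Complex.add_im, Complex.intCast_im, Complex.mul_im, Complex.intCast_re,
    Complex.zero_im, zero_mul, add_zero, zero_add] at h1
  have h2 := wC_im h
  have h3 : ((x.im : ℤ) : ℝ) = 0 := by
    rcases mul_eq_zero.1 h1 with h3 | h3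
    · exact h3
    · exact absurd h3 h2.ne'
  have h4 : x.im = 0 := by exact_mod_cast h3
  have h5 : x.re = 0 := by
    rw [h4] at hx
    have : ((x.re : ℤ) : ℂ) = 0 := by
      rw [← hx]
      push_cast
      ring
    exact_mod_cast this
  exact QuadraticAlgebra.ext h5 h4

private theorem Sh1_vmv {a b : ℤ} (g : GQ a b) (e : Fin 2 → Qf a b ℤ) :
    vC a b (g.val.mulVec e) = (iG a b g).val.mulVec (vC a b e) := by
  ext i
  rw [Sh1_mv]
  unfold vC
  rw [Sh1_mv, map_add, map_mul, map_mul]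
  rfl

private theorem Sh1_vsm {a b : ℤ} (l : Qf a b ℤ) (e : Fin 2 → Qf a b ℤ) :
    vC a b (l • e) = iC a b l • vC a b e := by
  ext i
  show iC a b (l * e i) = iC a b l * iC a b (e i)
  rw [map_mul]

private theorem Sh1_itv {a b : ℤ} (e : Fin 2 → Qf a b ℤ) (t : Qf a b ℤ) :
    iG a b (tv e t) = tv (vC a b e) (iC a b t) := by
  apply Subtype.ext
  ext i j
  show iC a b ((tv e t).val i j) = (tv (vC a b e) (iC a b t)).val i j
  fin_cases i <;> fin_cases j
  · show iC a b (1 - t * e 0 * e 1) = 1 - iC a b t * iC a b (e 0) * iC a b (e 1)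
    simp only [map_sub, map_mul, map_one]
  · show iC a b (t * e 0 ^ 2) = iC a b t * iC a b (e 0) ^ 2
    simp only [map_mul, map_pow]
  · show iC a b (-(t * e 1 ^ 2)) = -(iC a b t * iC a b (e 1) ^ 2)
    simp only [map_neg, map_mul, map_pow]
  · show iC a b (1 + t * e 0 * e 1) = 1 + iC a b t * iC a b (e 0) * iC a b (e 1)
    simp only [map_add, map_mul, map_one]

private theorem Sh1_om_add (e v w : Fin 2 → ℂ) : om e (v + w) = om e v + om e w := by
  unfold om
  simp only [Pi.add_apply]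
  ring

private theorem Sh1_om_smul (e v : Fin 2 → ℂ) (c : ℂ) : om e (c • v) = c * om e v := by
  unfold om
  simp only [Pi.smul_apply, smul_eq_mul]
  ring

private theorem Sh1_om_smul' (e v : Fin 2 → ℂ) (c : ℂ) : om (c • e) v = c * om e v := by
  unfold om
  simp only [Pi.smul_apply, smul_eq_mul]
  ring

private theorem Sh1_om_self (e : Fin 2 → ℂ) : om e e = 0 := by
  unfold om
  ring

private theorem Sh1_prim {R : Type} [CommRing R] [IsDomain R] [IsPrincipalIdealRing R]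
    (e : Fin 2 → R) (he : e ≠ 0) : ∃ (l : R) (g : SL2 R), e = l • colG g 0 := by
  set l := IsBezout.gcd (e 0) (e 1) with hl
  obtain ⟨d0, h0⟩ := IsBezout.gcd_dvd_left (e 0) (e 1)
  obtain ⟨d1, h1⟩ := IsBezout.gcd_dvd_right (e 0) (e 1)
  obtain ⟨x, y, hxy⟩ := IsBezout.gcd_eq_sum (e 0) (e 1)
  rw [← hl] at h0 h1 hxy
  have hl0 : l ≠ 0 := by
    intro h
    apply he
    rw [h, zero_mul] at h0 h1
    ext i
    fin_cases i
    · exact h0
    · exact h1
  have hd : x * d0 + y * d1 = 1 := by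
    apply mul_left_cancel₀ hl0
    linear_combination hxy - x * h0 - y * h1
  refine ⟨l, AB.mx d0 (-y) d1 x (by linear_combination hd), ?_⟩
  ext i
  fin_cases i
  · exact h0
  · exact h1

private noncomputable def Sh1_g {a b : ℤ} (W : Subgroup (GQ a b)) (i : Cusp W) : GQ a b :=
  Quotient.out (Quotient.out i : Pr a b)

private theorem Sh1_rep {a b : ℤ} (W : Subgroup (GQ a b)) (g : GQ a b) :
    ∃ (i : Cusp W) (x : GQ a b), x ∈ W ∧ ∃ k ∈ Bor a b, g = x * Sh1_g W i * k := by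
  let i : Cusp W := Quotient.mk'' ((g : GQ a b) : Pr a b)
  have h1 : (Quotient.mk'' (Quotient.out i) : Cusp W) = Quotient.mk'' ((g : GQ a b) : Pr a b) :=
    Quotient.out_eq' i
  obtain ⟨w, hw⟩ := Quotient.exact' h1
  have h2 : ((Sh1_g W i : GQ a b) : Pr a b) = Quotient.out i := Quotient.out_eq' (Quotient.out i)
  have h3 : (((w : GQ a b) * g : GQ a b) : Pr a b) = ((Sh1_g W i : GQ a b) : Pr a b) := by
    rw [h2, ← hw]
    rfl
  have h4 := QuotientGroup.eq.1 h3
  refine ⟨i, (w : GQ a b)⁻¹, W.inv_mem w.2, _, (Bor a b).inv_mem h4, ?_⟩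
  group

/-- the coboundaries -/
private noncomputable def Sh1_K {a b : ℤ} (W : Subgroup (GQ a b)) :
    (Fin 2 → ℂ) →ₗ[ℂ] (W → Fin 2 → ℂ) where
  toFun v x := (iG a b x.val).val.mulVec v - v
  map_add' v w := by
    ext x i
    simp only [Matrix.mulVec_add, Pi.add_apply, Pi.sub_apply]
    ring
  map_smul' c v := by
    ext x i
    simp only [Matrix.mulVec_smul, Pi.smul_apply, Pi.sub_apply, RingHom.id_apply, smul_eq_mul]
    ring


/-- the values at conjugates -/
private theorem Sh1_conj {a b : ℤ} {W : Subgroup (GQ a b)} {z : W → Fin 2 → ℂ}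
    (hz : z ∈ Z1C W.subtype) (d : Fin 2 → Qf a b ℤ) (t : Qf a b ℤ) (x : W) (hp : tv d t ∈ W)
    (hP : tv (x.val.val.mulVec d) t ∈ W) :
    om (vC a b (x.val.val.mulVec d)) (z ⟨_, hP⟩) = om (vC a b d) (z ⟨_, hp⟩) := by
  have hz' : ∀ x y : W, z (x * y) = z x + (iG a b x.val).val.mulVec (z y) := hz
  have h1 : (⟨_, hP⟩ : W) = x * ⟨_, hp⟩ * x⁻¹ := by
    apply Subtype.ext
    exact ((p_Vtv _ d t t).2.2.1 x.val).symm
  have h2 : (⟨_, hP⟩ : W) * x = x * ⟨_, hp⟩ := by
    rw [h1, inv_mul_cancel_right]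
  have h3 := congrArg z h2
  rw [hz', hz'] at h3
  have h4 : (iG a b (tv (x.val.val.mulVec d) t)).val.mulVec (z x) =
      z x + (iC a b t * om (vC a b (x.val.val.mulVec d)) (z x)) • vC a b (x.val.val.mulVec d) := by
    rw [Sh1_itv]
    exact (p_Vtv ℂ _ (iC a b t) (iC a b t)).1 (z x)
  have h5 := congrArg (om (vC a b (x.val.val.mulVec d))) h3
  rw [h4, Sh1_om_add, Sh1_om_add, Sh1_om_add, Sh1_om_smul, Sh1_om_self, mul_zero, add_zero] at h5
  have h6 : om (vC a b (x.val.val.mulVec d)) ((iG a b x.val).val.mulVec (z ⟨_, hp⟩)) =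
      om (vC a b d) (z ⟨_, hp⟩) := by
    rw [Sh1_vmv]
    exact (p_Vtv ℂ (vC a b d) 0 0).2.2.2.2.2 (iG a b x.val) (z ⟨_, hp⟩)
  rw [h6, add_comm] at h5
  exact add_left_cancel h5

/-- commuting transvections -/
private theorem Sh1_comm {a b : ℤ} (hn : b ^ 2 + 4 * a < 0) {W : Subgroup (GQ a b)}
    {z : W → Fin 2 → ℂ} (hz : z ∈ Z1C W.subtype) (d : Fin 2 → Qf a b ℤ) (hd : d ≠ 0)
    (t s : Qf a b ℤ) (hp : tv d t ∈ W) (hN : tv d s ∈ W) :
    iC a b s * om (vC a b d) (z ⟨_, hp⟩) = iC a b t * om (vC a b d) (z ⟨_, hN⟩) := by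
  have hz' : ∀ x y : W, z (x * y) = z x + (iG a b x.val).val.mulVec (z y) := hz
  have h1 : (⟨_, hp⟩ : W) * ⟨_, hN⟩ = ⟨_, hN⟩ * ⟨_, hp⟩ := by
    apply Subtype.ext
    show tv d t * tv d s = tv d s * tv d t
    rw [← (p_Vtv _ d t s).2.1, ← (p_Vtv _ d s t).2.1, add_comm]
  have h2 := congrArg z h1
  rw [hz', hz'] at h2
  have h4 : ∀ (s : Qf a b ℤ) (v : Fin 2 → ℂ), (iG a b (tv d s)).val.mulVec v =
      v + (iC a b s * om (vC a b d) v) • vC a b d := by
    intro s v
    rw [Sh1_itv]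
    exact (p_Vtv ℂ _ (iC a b s) (iC a b s)).1 v
  rw [h4, h4] at h2
  have h5 : (iC a b s * om (vC a b d) (z ⟨_, hp⟩) - iC a b t * om (vC a b d) (z ⟨_, hN⟩)) •
      vC a b d = 0 := by
    rw [sub_smul]
    have h6 : z ⟨_, hp⟩ + z ⟨_, hN⟩ + (iC a b t * om (vC a b d) (z ⟨_, hN⟩)) • vC a b d =
        z ⟨_, hp⟩ + z ⟨_, hN⟩ + (iC a b s * om (vC a b d) (z ⟨_, hp⟩)) • vC a b d := by
      rw [add_assoc, h2]
      abel
    rw [add_left_cancel h6, sub_self]
  rcases smul_eq_zero.1 h5 with h6 | h6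
  · exact sub_eq_zero.1 h6
  · exfalso
    apply hd
    ext i : 1
    exact Sh1_inj hn (congrFun h6 i)

private theorem Sh1_main {a b : ℤ} (hn : b ^ 2 + 4 * a < 0)
    (hP : IsPrincipalIdealRing (Qf a b ℤ)) (N : ℕ) (hN0 : N ≠ 0)
    {z : Gam a b N → Fin 2 → ℂ} (hz : z ∈ Z1C (Gam a b N).subtype)
    (F : (Fin 2 → Qf a b ℤ) → ℂ) (hF : Hom3 F)
    (hinv : ∀ w ∈ Gam a b N, ∀ e, F (w.val.mulVec e) = F e)
    (h0 : ∀ i : Cusp (Gam a b N), om (vC a b (colG (Sh1_g (Gam a b N) i) 0))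
      (z (uD N (dvd_refl N) (colG (Sh1_g (Gam a b N) i) 0) 1)) =
        (N : ℂ) * F (colG (Sh1_g (Gam a b N) i) 0))
    (e : Fin 2 → Qf a b ℤ) (t : Qf a b ℤ) (h : tv e t ∈ Gam a b N) :
    om (vC a b e) (z ⟨_, h⟩) = iC a b t * F e := by
  have hdom : IsDomain (Qf a b ℤ) := Qf_domain hn
  by_cases he : e = 0
  · subst he
    have h1 : vC a b (0 : Fin 2 → Qf a b ℤ) = 0 := by
      ext i
      show iC a b 0 = 0
      exact map_zero _
    have h2 : F (0 : Fin 2 → Qf a b ℤ) = 0 := by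
      have := hF 0 0
      rw [zero_smul, map_zero] at this
      simpa using this
    rw [h1, h2]
    unfold om
    simp
  · obtain ⟨l, g, hg⟩ := Sh1_prim e he
    obtain ⟨i, x, hx, k, hk, hgx⟩ := Sh1_rep (Gam a b N) g
    set d := colG (Sh1_g (Gam a b N) i) 0 with hd
    have hd0 : d ≠ 0 := by
      intro h2
      have h3 : (Sh1_g (Gam a b N) i).val 0 0 = 0 := congrFun h2 0
      have h4 : (Sh1_g (Gam a b N) i).val 1 0 = 0 := congrFun h2 1
      have h5 := (Sh1_g (Gam a b N) i).2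
      rw [Matrix.det_fin_two, h3, h4] at h5
      simp at h5
    have hcol : colG g 0 = k.val 0 0 • x.val.mulVec d := by
      have hm : ∀ (g h : GQ a b) (i k : Fin 2),
          (g * h).val i k = g.val i 0 * h.val 0 k + g.val i 1 * h.val 1 k := fun g h i k => by
        show (g.val * h.val) i k = _
        rw [Matrix.mul_apply, Fin.sum_univ_two]
      have hk' : k.val 1 0 = 0 := hk
      ext j : 1
      show g.val j 0 = k.val 0 0 * x.val.mulVec d j
      rw [Sh1_mv]
      show _ = k.val 0 0 * (x.val j 0 * (Sh1_g (Gam a b N) i).val 0 0 +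
        x.val j 1 * (Sh1_g (Gam a b N) i).val 1 0)
      rw [hgx, hm, hm, hm, hk']
      ring
    set u := l * k.val 0 0 with hu
    have he' : e = u • x.val.mulVec d := by
      rw [hg, hcol, smul_smul]
    have htve : tv e t = tv (x.val.mulVec d) (u ^ 2 * t) := by
      rw [he']
      exact (p_Vtv _ (x.val.mulVec d) t t).2.2.2.1 u
    have hmem : tv (x.val.mulVec d) (u ^ 2 * t) ∈ Gam a b N := htve ▸ h
    have hp : tv d (u ^ 2 * t) ∈ Gam a b N := by
      have h2 := (p_Vtv _ d 0 (u ^ 2 * t)).2.2.1 x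
      have h3 : tv d (u ^ 2 * t) = x⁻¹ * tv (x.val.mulVec d) (u ^ 2 * t) * x := by
        rw [← h2]
        group
      rw [h3]
      exact (Gam a b N).mul_mem ((Gam a b N).mul_mem ((Gam a b N).inv_mem hx) hmem) hx
    have h2 := Sh1_comm hn hz d hd0 (u ^ 2 * t) ((N : Qf a b ℤ) * 1) hp
      (tv_mem (dvd_refl N) d 1)
    have h3 := Sh1_conj hz d (u ^ 2 * t) ⟨x, hx⟩ hp hmem
    have h3' : om (vC a b (x.val.mulVec d)) (z ⟨_, hmem⟩) = om (vC a b d) (z ⟨_, hp⟩) := h3
    have h0' : om (vC a b d) (z ⟨_, tv_mem (dvd_refl N) d 1⟩) = (N : ℂ) * F d := h0 i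
    rw [h0', mul_one, map_natCast, map_mul, map_pow] at h2
    have h4 : (⟨_, h⟩ : Gam a b N) = ⟨_, hmem⟩ := Subtype.ext htve
    have h5 : vC a b e = iC a b u • vC a b (x.val.mulVec d) := by
      rw [← Sh1_vsm, ← he']
    have hN' : (N : ℂ) ≠ 0 := Nat.cast_ne_zero.2 hN0
    have h6 : om (vC a b d) (z ⟨_, hp⟩) = iC a b u ^ 2 * iC a b t * F d := by
      apply mul_left_cancel₀ hN'
      rw [h2]
      ring
    rw [h4, h5, Sh1_om_smul', h3', h6, he', hF, hinv x hx]
    ring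

/-- the boundary values -/
private noncomputable def Sh1_B {a b : ℤ} (N : ℕ) :
    Z1C (Gam a b N).subtype →ₗ[ℂ] (Cusp (Gam a b N) → ℂ) where
  toFun z i := om (vC a b (colG (Sh1_g (Gam a b N) i) 0))
    (z.val (uD N (dvd_refl N) (colG (Sh1_g (Gam a b N) i) 0) 1))
  map_add' z w := by
    ext i
    exact Sh1_om_add _ _ _
  map_smul' c z := by
    ext i
    exact Sh1_om_smul _ _ _

private theorem Sh1_red (a b : ℤ) {m n : ℕ} (h : m ∣ n) (x : GQ a b) :
    ((rdq a b n x).val).map (Qfm a b (ZMod.castHom h (ZMod m))) = (rdq a b m x).val := by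
  ext i j
  · change ZMod.castHom h (ZMod m) (((x.val i j).re : ℤ) : ZMod n) =
      (((x.val i j).re : ℤ) : ZMod m)
    exact map_intCast _ _
  · change ZMod.castHom h (ZMod m) (((x.val i j).im : ℤ) : ZMod n) =
      (((x.val i j).im : ℤ) : ZMod m)
    exact map_intCast _ _

private theorem Sh1_le (a b : ℤ) {m n : ℕ} (h : m ∣ n) : Gam a b n ≤ Gam a b m := by
  intro x hx
  rw [MonoidHom.mem_ker] at hx ⊢
  apply Subtype.ext
  have h1 := Sh1_red a b h x
  rw [hx] at h1
  rw [← h1]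
  exact map_one (Qfm a b (ZMod.castHom h (ZMod m))).mapMatrix

theorem p_Sh1 (hvt : V_vt) : S_h1 := by
  intro a b hn hEu hP M₀ hLD N hN0 hMN F hF hinv
  have : NeZero N := ⟨hN0⟩
  have hfi : (Gam a b N).FiniteIndex := Subgroup.finiteIndex_ker _
  obtain ⟨hfin, hrk⟩ := hLD (Gam a b N) (Sh1_le a b hMN) hfi
  let _ : Fintype (Cusp (Gam a b N)) := Fintype.ofFinite _
  have hZfin : Module.Finite ℂ (Z1C (Gam a b N).subtype) :=
    Module.finite_of_finrank_pos (by omega)
  have h0 : ∀ z : LinearMap.ker (Sh1_B (a := a) (b := b) N),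
      z.val.val ∈ LinearMap.range (Sh1_K (Gam a b N)) := by
    intro z
    have h4 := z.2
    rw [LinearMap.mem_ker] at h4
    have h5 : ∀ i : Cusp (Gam a b N), om (vC a b (colG (Sh1_g (Gam a b N) i) 0))
        (z.val.val (uD N (dvd_refl N) (colG (Sh1_g (Gam a b N) i) 0) 1)) =
          (N : ℂ) * (fun _ : Fin 2 → Qf a b ℤ => (0 : ℂ)) (colG (Sh1_g (Gam a b N) i) 0) :=
      fun i => by
        rw [mul_zero]
        exact congrFun h4 i
    obtain ⟨v, hv⟩ := hvt a b hn hEu hP (Gam a b N) hfi z.val.val z.val.2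
      fun e t h => by
        have h6 := Sh1_main hn hP N hN0 z.val.2 (fun _ => 0) (fun l e => by simp)
          (fun w _ e => rfl) h5 e t h
        rw [h6, mul_zero]
    refine ⟨v, ?_⟩
    ext x : 1
    exact (hv x).symm
  have h2 : Module.finrank ℂ (LinearMap.ker (Sh1_B (a := a) (b := b) N)) ≤ 2 := by
    let f : LinearMap.ker (Sh1_B (a := a) (b := b) N) →ₗ[ℂ]
        LinearMap.range (Sh1_K (Gam a b N)) :=
      LinearMap.codRestrict (LinearMap.range (Sh1_K (Gam a b N)))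
        ((Z1C (Gam a b N).subtype).subtype ∘ₗ
          (LinearMap.ker (Sh1_B (a := a) (b := b) N)).subtype) h0
    have hf : Function.Injective f := by
      intro y z hyz
      have h6 : (f y).val = (f z).val := congrArg Subtype.val hyz
      apply Subtype.ext
      apply Subtype.ext
      exact h6
    refine (LinearMap.finrank_le_finrank_of_injective hf).trans ?_
    refine (LinearMap.finrank_range_le _).trans ?_
    rw [Module.finrank_fin_fun]
  have h3 := LinearMap.finrank_range_add_finrank_ker (Sh1_B (a := a) (b := b) N)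
  have h4 : Module.finrank ℂ (Cusp (Gam a b N) → ℂ) = Nat.card (Cusp (Gam a b N)) := by
    rw [Module.finrank_fintype_fun_eq_card, Nat.card_eq_fintype_card]
  have h5 : LinearMap.range (Sh1_B (a := a) (b := b) N) = ⊤ := by
    apply Submodule.eq_top_of_finrank_eq
    apply le_antisymm (Submodule.finrank_le _)
    omega
  obtain ⟨z, hz⟩ := LinearMap.range_eq_top.1 h5
    (fun i => (N : ℂ) * F (colG (Sh1_g (Gam a b N) i) 0))
  exact ⟨z.val, z.2, fun e t h =>
    Sh1_main hn hP N hN0 z.2 F hF hinv (fun i => congrFun hz i) e t h⟩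

end Pool.Agent.F8.CG
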