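import Pool.Agent.Lib.MP_305fdd_al.F8.CG.StmS3
import Pool.Agent.Lib.MP_305fdd_al.F8.CG.P_Vtv
import Pool.Agent.Lib.MP_305fdd_al.F8.BG.P_E

/-!
# MP_305fdd_al, congruence subgroups: the edges (S inn)
-/

set_option autoImplicit false

namespace Pool.Agent.F8.CG

open Pool.Agent.F8.BG Pool.Agent.MP_305fdd_al Pool.Agent.Lib.MP_305fdd_al Pool.Agent.F8
open scoped QuadraticAlgebra

noncomputable section

section

variable {a b : ℤ}

private theorem Sinn_mv {R : Type} [CommRing R] (M : Matrix (Fin 2) (Fin 2) R) (v : Fin 2 → R)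
    (i : Fin 2) : M.mulVec v i = M i 0 * v 0 + M i 1 * v 1 := by
  rw [Matrix.mulVec_eq_sum]
  simp [Fin.sum_univ_two, mul_comm]

/-- the image of a vector -/
private theorem Sinn_map {K : Type} [CommRing K] (f : Qf a b ℤ →+* K) (g : GQ a b)
    (e : Fin 2 → Qf a b ℤ) :
    (fun i => f (g.val.mulVec e i)) = (SLm f g).val.mulVec (fun i => f (e i)) := by
  funext i
  rw [Sinn_mv, Sinn_mv, map_add, map_mul, map_mul]
  rfl

private theorem Sinn_id (g : GQ a b) : SLm (RingHom.id (Qf a b ℤ)) g = g := by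
  apply Subtype.ext
  exact Matrix.ext fun i j => rfl

/-- the reduction modulo `k` -/
private abbrev SinnF (a b : ℤ) (k : ℕ) : Qf a b ℤ →+* Qf a b (ZMod k) :=
  Qfm a b (Int.castRingHom (ZMod k))

/-- the reduction of a vector -/
private abbrev SinnV (k : ℕ) (e : Fin 2 → Qf a b ℤ) : Fin 2 → Qf a b (ZMod k) :=
  fun i => SinnF a b k (e i)

private theorem Sinn_F0 (k : ℕ) (x : Qf a b ℤ) : SinnF a b k x = 0 ↔ (k : Qf a b ℤ) ∣ x :=
  ⟨E_ker a b k x, by rintro ⟨c, rfl⟩; exact Qfm_natCast k c⟩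

private theorem Sinn_FE (k : ℕ) (x y : Qf a b ℤ) :
    SinnF a b k x = SinnF a b k y ↔ (k : Qf a b ℤ) ∣ x - y := by
  rw [← Sinn_F0, map_sub, sub_eq_zero]

private theorem Sinn_VE (k : ℕ) (e f : Fin 2 → Qf a b ℤ) :
    Cgr k e f ↔ SinnV k e = SinnV k f := by
  constructor
  · intro h
    funext i
    exact (Sinn_FE k _ _).2 (h i)
  · intro h i
    exact (Sinn_FE k _ _).1 (congrFun h i)

private theorem Sinn_Vmv (k : ℕ) (g : GQ a b) (e : Fin 2 → Qf a b ℤ) :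
    SinnV k (g.val.mulVec e) = (rdq a b k g).val.mulVec (SinnV k e) := Sinn_map _ g e

private theorem Sinn_Vs (k : ℕ) (x : Qf a b ℤ) (e : Fin 2 → Qf a b ℤ) :
    SinnV k (x • e) = SinnF a b k x • SinnV k e := by
  funext i
  show SinnF a b k (x * e i) = SinnF a b k x * SinnF a b k (e i)
  rw [map_mul]

private theorem Sinn_sym {k : ℕ} {e f : Fin 2 → Qf a b ℤ} (h : Cgr k e f) : Cgr k f e :=
  (Sinn_VE k _ _).2 ((Sinn_VE k _ _).1 h).symm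

private theorem Sinn_tr {k : ℕ} {e f g : Fin 2 → Qf a b ℤ} (h : Cgr k e f) (h' : Cgr k f g) :
    Cgr k e g :=
  (Sinn_VE k _ _).2 (((Sinn_VE k _ _).1 h).trans ((Sinn_VE k _ _).1 h'))

private theorem Sinn_dv {k k' : ℕ} (h : k ∣ k') {e f : Fin 2 → Qf a b ℤ} (h' : Cgr k' e f) :
    Cgr k e f := fun i => (Nat.cast_dvd_cast h).trans (h' i)

/-- cancel a primitive vector -/
private theorem Sinn_pr (cg : CgF a b) (k : ℕ) {e : Fin 2 → Qf a b ℤ} (he : Prm e)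
    {x y : Qf a b (ZMod k)} (h : x • SinnV k e = y • SinnV k e) : x = y := by
  obtain ⟨u, v, huv⟩ := (cg.cop e).1 he
  have h0 : x * SinnF a b k (e 0) = y * SinnF a b k (e 0) := congrFun h 0
  have h1 : x * SinnF a b k (e 1) = y * SinnF a b k (e 1) := congrFun h 1
  have h2 : SinnF a b k u * SinnF a b k (e 0) + SinnF a b k v * SinnF a b k (e 1) = 1 := by
    rw [← map_mul, ← map_mul, ← map_add, huv, map_one]
  linear_combination SinnF a b k u * h0 + SinnF a b k v * h1 - (x - y) * h2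

/-- two numbers of a primitive vector -/
private theorem Sinn_mu (cg : CgF a b) {k : ℕ} {v e : Fin 2 → Qf a b ℤ} (he : Prm e)
    {x y : Qf a b ℤ} (h : Cgr k v (x • e)) (h' : Cgr k v (y • e)) : (k : Qf a b ℤ) ∣ x - y := by
  rw [← Sinn_FE]
  refine Sinn_pr cg k he ?_
  rw [← Sinn_Vs, ← Sinn_Vs]
  exact (Sinn_VE k _ _).1 (Sinn_tr (Sinn_sym h) h')

/-- naturality -/
private theorem Sinn_nat {G H : Type} [Group G] [Group H] (Ψ : NatBij G H) {Q R : Type} [Group Q]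
    [Finite Q] [Group R] [Finite R] (f : Q →* R) (θ : G →* Q) (θ' : G →* R)
    (hf : f.comp θ = θ') {x : G} {y : H} (h : θ x = Ψ.toFun Q θ y) : θ' x = Ψ.toFun R θ' y := by
  subst hf
  rw [Ψ.nat]
  exact congrArg f h

/-! ### Reduction of crossed homomorphisms -/

private theorem Sinn_red {N : ℕ} (k : ℕ) {z : Gam a b N → Fin 2 → Qf a b ℤ}
    (hz : z ∈ Z1S N (RingHom.id (Qf a b ℤ))) : (fun x => SinnV k (z x)) ∈ Z1S N (SinnF a b k) := by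
  intro x y
  have h := hz x y
  show SinnV k (z (x * y)) = SinnV k (z x) + (SLm (SinnF a b k) x.val).val.mulVec (SinnV k (z y))
  rw [h]
  have h1 := Sinn_Vmv k x.val (z y)
  show SinnV k (z x + (SLm (RingHom.id (Qf a b ℤ)) x.val).val.mulVec (z y)) = _
  rw [Sinn_id]
  have h2 : SinnV k (z x + x.val.val.mulVec (z y)) = SinnV k (z x) +
      SinnV k (x.val.val.mulVec (z y)) := by
    funext i
    exact map_add (SinnF a b k) _ _
  rw [h2, h1]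
  rfl

private theorem Sinn_BV {N : ℕ} (k : ℕ) (z : Gam a b N → Fin 2 → Qf a b ℤ)
    (e : Fin 2 → Qf a b ℤ) : BV N (SinnF a b k) e (fun x => SinnV k (z x)) =
    SinnF a b k (BV N (RingHom.id _) e z) := by
  unfold BV om
  rw [map_sub, map_mul, map_mul]
  rfl

private theorem Sinn_RV {N : ℕ} (k : ℕ) (z : Gam a b N → Fin 2 → Qf a b ℤ)
    (e : Fin 2 → Qf a b ℤ) : RV N (SinnF a b k) e (fun x => SinnV k (z x)) =
    SinnV k (RV N (RingHom.id _) e z) := by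
  funext i
  unfold RV
  show SinnF a b k (wq a b ℤ) * SinnF a b k _ - SinnF a b k _ = SinnF a b k (_ * _ - _)
  rw [map_sub, map_mul]
  rfl

/-! ### The elements of one cusp -/

private theorem Sinn_muj (cg : CgF a b) {m : ℕ} (vd : VdF a b m)
    (Ψ : NatBij (Gam a b m) (Gam a b m)) {Q : Type} [Group Q] [Finite Q] (θ : Gam a b m →* Q)
    {N n k : ℕ} [NeZero n] (hkn : k ∣ n) (hle : Gam a b N ≤ Gam a b m) {h : GQ a b}
    (hR : RfN Ψ θ n) (hG : Gd Ψ n h)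
    (hU : ∀ e e' e'', VD Ψ θ N e e' → VD Ψ θ N e e'' →
      Cgr k e' e'' ∨ Cgr k e' ((-1 : Qf a b ℤ) • e''))
    {e₁ f₁ g j : Fin 2 → Qf a b ℤ} (h1 : VD Ψ θ N e₁ f₁) {μ₁ μj : Qf a b ℤ}
    (hμ₁ : Cgr k (h.val.mulVec e₁) (μ₁ • f₁)) (h2 : VD Ψ θ N g j)
    (hμj : Cgr k (h.val.mulVec g) (μj • j)) {u : Qf a b ℤ} (hu : IsUnit u)
    (hgu : Cgr N g (u • e₁)) :
    SinnF a b k μj = SinnF a b k μ₁ ∨ SinnF a b k μj = - SinnF a b k μ₁ := by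
  obtain ⟨w, hw, hwe⟩ := cg.cgr N (u • e₁) g (cg.unit u e₁ hu h1.1) h2.1 (Sinn_sym hgu)
  have hwm : w ∈ Gam a b m := hle hw
  obtain ⟨w', hw'⟩ : ∃ w' : Gam a b m, θ ⟨w, hwm⟩ = Ψ.toFun Q θ w' := by
    have h1 : θ ⟨w, hwm⟩ ∈ (Ψ.toFun Q θ).range := by
      rw [Ψ.range_eq]
      exact ⟨_, rfl⟩
    obtain ⟨w', h⟩ := h1
    exact ⟨w', h.symm⟩
  have h3 : VD Ψ θ N (w.val.mulVec (u • e₁)) (w'.val.val.mulVec (u • f₁)) :=
    vd.vdc Ψ Q θ N _ _ ⟨w, hwm⟩ w' hw' (vd.vdu Ψ Q θ N e₁ f₁ u hu h1)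
  rw [hwe] at h3
  have h4 : Cgr n (h.val.mulVec (w.val.mulVec (u • e₁)))
      (w'.val.val.mulVec (h.val.mulVec (u • e₁))) :=
    vd.cj Ψ Q θ n h ⟨w, hwm⟩ w' (u • e₁) hR hG hw'
  rw [hwe] at h4
  have h5 := (Sinn_VE k _ _).1 (Sinn_dv hkn h4)
  have h8 : SinnV k (h.val.mulVec (u • e₁)) =
      SinnF a b k μ₁ • (SinnF a b k u • SinnV k f₁) := by
    rw [Matrix.mulVec_smul, Sinn_Vs, (Sinn_VE k _ _).1 hμ₁, Sinn_Vs, smul_comm]
  have h9 : SinnV k (w'.val.val.mulVec (u • f₁)) =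
      (rdq a b k w').val.mulVec (SinnF a b k u • SinnV k f₁) := by
    rw [Sinn_Vmv, Sinn_Vs]
  have h6 : SinnF a b k μj • SinnV k j =
      SinnF a b k μ₁ • SinnV k (w'.val.val.mulVec (u • f₁)) := by
    rw [← Sinn_Vs, ← (Sinn_VE k _ _).1 hμj, h5, Sinn_Vmv, h8, h9, Matrix.mulVec_smul]
  rcases hU g j (w'.val.val.mulVec (u • f₁)) h2 h3 with h7 | h7
  · left
    refine Sinn_pr cg k h2.2.1 ?_
    rw [h6, (Sinn_VE k _ _).1 h7]
  · right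
    refine Sinn_pr cg k h2.2.1 ?_
    rw [h6, (Sinn_VE k _ _).1 h7, Sinn_Vs, map_neg, map_one, neg_smul, neg_smul, smul_neg,
      one_smul, neg_neg]

private theorem Sinn_b3 (hdom : IsDomain (Qf a b ℤ)) (cg : CgF a b) (bv : BvF a b) {N : ℕ}
    (hN : N ≠ 0) {z₀ zq : Gam a b N → Fin 2 → Qf a b ℤ}
    (hzq : zq ∈ Z1S N (RingHom.id (Qf a b ℤ))) {γ w : GQ a b}
    (htr : ∀ e, BV N (RingHom.id _) (γ.val.mulVec e) zq = BV N (RingHom.id _) e z₀)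
    (hw : w ∈ Gam a b N) {ε : Fin 2 → Qf a b ℤ}
    (hsup : ∀ f, Prm f → (∀ u : Qf a b ℤ, IsUnit u → ¬ Cgr N f (u • ε)) →
      BV N (RingHom.id _) f z₀ = 0) (hε : Prm ε) {g : Fin 2 → Qf a b ℤ} (hg : Prm g) :
    BV N (RingHom.id _) g zq = 0 ∨ ∃ u : Qf a b ℤ, IsUnit u ∧
      Cgr N g (u • (w * γ).val.mulVec ε) ∧
      BV N (RingHom.id _) g zq = u ^ 3 * BV N (RingHom.id _) ε z₀ := by
  have hgg : γ.val.mulVec (γ⁻¹.val.mulVec g) = g := by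
    rw [Matrix.mulVec_mulVec]
    show (γ * γ⁻¹).val.mulVec g = g
    rw [mul_inv_cancel]
    exact Matrix.one_mulVec g
  have hgp : Prm (γ⁻¹.val.mulVec g) := cg.act γ⁻¹ g hg
  by_cases hx : ∀ u : Qf a b ℤ, IsUnit u → ¬ Cgr N (γ⁻¹.val.mulVec g) (u • ε)
  · left
    rw [← hgg, htr]
    exact hsup _ hgp hx
  · right
    obtain ⟨u, hu, h1⟩ : ∃ u : Qf a b ℤ, IsUnit u ∧ Cgr N (γ⁻¹.val.mulVec g) (u • ε) := by
      by_contra h0
      exact hx fun u hu h1 => h0 ⟨u, hu, h1⟩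
    have h2 := cg.mul N γ _ _ h1
    rw [hgg] at h2
    have h3 : w.val.mulVec (γ.val.mulVec (u • ε)) = u • (w * γ).val.mulVec ε := by
      rw [Matrix.mulVec_mulVec, Matrix.mulVec_smul]
      rfl
    have h4 : Cgr N g (u • (w * γ).val.mulVec ε) := by
      rw [← h3]
      exact Sinn_tr h2 (Sinn_sym (cg.gam N w hw _))
    refine ⟨u, hu, h4, ?_⟩
    have h5 : Prm ((w * γ).val.mulVec ε) := cg.act _ _ hε
    obtain ⟨w₁, hw₁, h6⟩ := cg.cgr N _ g (cg.unit u _ hu h5) hg (Sinn_sym h4)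
    have h7 := (bv.inv N _ (RingHom.id _) zq hzq w₁ hw₁ (u • (w * γ).val.mulVec ε)).1
    have h8 := (bv.mul N hN _ (RingHom.id _) (fun _ _ h => h) zq hzq
      ((w * γ).val.mulVec ε) u).2
    have h9 : (w * γ).val.mulVec ε = w.val.mulVec (γ.val.mulVec ε) := by
      rw [Matrix.mulVec_mulVec]
      rfl
    have h10 := (bv.inv N _ (RingHom.id _) zq hzq w hw (γ.val.mulVec ε)).1
    rw [← h6, h7, h8, h9, h10, htr]
    rfl

private theorem Sinn_om_smul {R : Type} [CommRing R] (x : R) (e v : Fin 2 → R) :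
    om (x • e) v = x * om e v := by
  unfold om
  simp only [Pi.smul_apply, smul_eq_mul]
  ring

private theorem Sinn_cj (hdom : IsDomain (Qf a b ℤ)) (cg : CgF a b) (bv : BvF a b) {m : ℕ}
    (vd : VdF a b m) (Ψ : NatBij (Gam a b m) (Gam a b m)) {Q : Type} [Group Q] [Finite Q]
    (θ : Gam a b m →* Q) {N n k : ℕ} [NeZero n] (hN : N ≠ 0) (hkn : k ∣ n)
    (hle : Gam a b N ≤ Gam a b m) {h : GQ a b} (hR : RfN Ψ θ n) (hG : Gd Ψ n h)
    (hU : ∀ e e' e'', VD Ψ θ N e e' → VD Ψ θ N e e'' →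
      Cgr k e' e'' ∨ Cgr k e' ((-1 : Qf a b ℤ) • e''))
    {z₀ zq : Gam a b N → Fin 2 → Qf a b ℤ}
    (hzq : zq ∈ Z1S N (RingHom.id (Qf a b ℤ))) {γ w : GQ a b}
    (htr : ∀ e, BV N (RingHom.id _) (γ.val.mulVec e) zq = BV N (RingHom.id _) e z₀)
    (hw : w ∈ Gam a b N) {ε : Fin 2 → Qf a b ℤ}
    (hsup : ∀ f, Prm f → (∀ u : Qf a b ℤ, IsUnit u → ¬ Cgr N f (u • ε)) →
      BV N (RingHom.id _) f z₀ = 0) (hε : Prm ε)
    {z' : Gam a b N → Fin 2 → Qf a b (ZMod k)}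
    (hz' : ∀ e f, VD Ψ θ N e f → ∀ t, z' (uD N (dvd_refl N) f t) =
      (rdq a b k h).val.mulVec (SinnV k (zq (uD N (dvd_refl N) e t))))
    {f₁ : Fin 2 → Qf a b ℤ} (h1 : VD Ψ θ N ((w * γ).val.mulVec ε) f₁) {μ₁ : Qf a b ℤ}
    (hμ₁ : Cgr k (h.val.mulVec ((w * γ).val.mulVec ε)) (μ₁ • f₁))
    {g j : Fin 2 → Qf a b ℤ} (h2 : VD Ψ θ N g j) {μj : Qf a b ℤ}
    (hμj : Cgr k (h.val.mulVec g) (μj • j)) (hμj2 : (k : Qf a b ℤ) ∣ μj ^ 2 - 1) :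
    ∃ cj : Qf a b ℤ, (cj = 0 ∨ ∃ u : (Qf a b ℤ)ˣ, cj = u.val ^ 3 ∨ cj = - u.val ^ 3) ∧
      BV N (SinnF a b k) j z' =
        SinnF a b k (BV N (RingHom.id _) ε z₀) * SinnF a b k μ₁ * SinnF a b k cj := by
  have hμμ : SinnF a b k μj * SinnF a b k μj = 1 := by
    have h3 := (Sinn_FE k (μj ^ 2) 1).2 hμj2
    rw [map_pow, map_one] at h3
    rw [← h3, sq]
  have hVj : SinnV k j = SinnF a b k μj • (rdq a b k h).val.mulVec (SinnV k g) := by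
    rw [← Sinn_Vmv, (Sinn_VE k _ _).1 hμj, Sinn_Vs, smul_smul, hμμ, one_smul]
  have e1 : BV N (SinnF a b k) j z' = SinnF a b k μj * SinnF a b k (BV N (RingHom.id _) g zq) := by
    rw [← Sinn_BV]
    show om (SinnV k j) (z' (uD N (dvd_refl N) j 1)) = SinnF a b k μj *
      om (SinnV k g) (SinnV k (zq (uD N (dvd_refl N) g 1)))
    rw [hz' g j h2 1, hVj, Sinn_om_smul, (p_Vtv _ (SinnV k g) 0 0).2.2.2.2.2]
  rcases Sinn_b3 hdom cg bv hN hzq htr hw hsup hε h2.1 with h0 | ⟨u, hu, h4, h5⟩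
  · refine ⟨0, Or.inl rfl, ?_⟩
    rw [e1, h0, map_zero, mul_zero, mul_zero]
  · obtain ⟨u, rfl⟩ := hu
    rcases Sinn_muj cg vd Ψ θ hkn hle hR hG hU h1 hμ₁ h2 hμj u.isUnit h4 with h6 | h6
    · refine ⟨u.val ^ 3, Or.inr ⟨u, Or.inl rfl⟩, ?_⟩
      rw [e1, h5, h6, map_mul]
      ring
    · refine ⟨- u.val ^ 3, Or.inr ⟨u, Or.inr rfl⟩, ?_⟩
      rw [e1, h5, h6, map_mul, map_neg]
      ring

/-- the cusp of `f` -/
private theorem Sinn_fin (cg : CgF a b) (bv : BvF a b) {N k : ℕ}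
    {z' : Gam a b N → Fin 2 → Qf a b (ZMod k)} (hz' : z' ∈ Z1S N (SinnF a b k))
    {f : Fin 2 → Qf a b ℤ} (hf : Prm f) {x : Qf a b (ZMod k)}
    (hRV : RV N (SinnF a b k) f z' = x • SinnV k f) {i : Fin 2 → Qf a b ℤ} (hi : Prm i)
    (hfi : Cgr N f i) : RV N (SinnF a b k) i z' = x • SinnV k i := by
  obtain ⟨w, hw, hwi⟩ := cg.cgr N i f hi hf (Sinn_sym hfi)
  have h1 := (bv.inv N _ (SinnF a b k) z' hz' w hw i).2
  rw [hwi, hRV, ← hwi, Sinn_Vmv, ← Matrix.mulVec_smul] at h1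
  have h2 := congrArg (fun v => (rdq a b k w)⁻¹.val.mulVec v) h1
  have h3 : ∀ v : Fin 2 → Qf a b (ZMod k),
      (rdq a b k w)⁻¹.val.mulVec ((rdq a b k w).val.mulVec v) = v := by
    intro v
    rw [Matrix.mulVec_mulVec]
    show ((rdq a b k w)⁻¹ * rdq a b k w).val.mulVec v = v
    rw [inv_mul_cancel]
    exact Matrix.one_mulVec v
  have h4 : (rdq a b k w)⁻¹.val.mulVec ((rdq a b k w).val.mulVec (x • SinnV k i)) =
      (rdq a b k w)⁻¹.val.mulVec ((rdq a b k w).val.mulVec (RV N (SinnF a b k) i z')) := h2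
  rw [h3, h3] at h4
  exact h4.symm

private theorem Sinn_le {m N : ℕ} (h : m ∣ N) : Gam a b N ≤ Gam a b m := by
  intro x hx
  have h1 : rdq a b N x = 1 := hx
  show rdq a b m x = 1
  apply Subtype.ext
  ext1 i j
  have h2 : (rdq a b N x).val i j = (1 : SL2 (Qf a b (ZMod N))).val i j := by rw [h1]
  have h3 : SinnF a b N (x.val i j) = SinnF a b N ((1 : Matrix (Fin 2) (Fin 2) (Qf a b ℤ)) i j) := by
    have h4 : SinnF a b N ((1 : Matrix (Fin 2) (Fin 2) (Qf a b ℤ)) i j) =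
        (1 : SL2 (Qf a b (ZMod N))).val i j := by
      fin_cases i <;> fin_cases j <;> simp
    rw [h4]
    exact h2
  rw [Sinn_FE] at h3
  have h5 := (Sinn_FE m _ _).2 ((Nat.cast_dvd_cast (α := Qf a b ℤ) h).trans h3)
  show SinnF a b m (x.val i j) = (1 : SL2 (Qf a b (ZMod m))).val i j
  rw [h5]
  fin_cases i <;> fin_cases j <;> simp

private theorem Sinn_ne {N₀ : ℕ} (h2 : 2 ≤ N₀) {x u : Qf a b ℤ}
    (hx : IsCoprime x (N₀ : Qf a b ℤ)) (hu : IsUnit u) : ¬ (N₀ : Qf a b ℤ) ∣ 0 - u * x := by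
  intro h
  rw [zero_sub, dvd_neg, hu.dvd_mul_left] at h
  have h3 : IsUnit (N₀ : Qf a b ℤ) := hx.isUnit_of_dvd' h (dvd_refl _)
  obtain ⟨y, hy⟩ := h3.dvd (a := 1)
  have h4 : (1 : Qf a b ℤ).re = ((N₀ : Qf a b ℤ) * y).re := by rw [← hy]
  rw [QuadraticAlgebra.re_mul] at h4
  have h5 : (1 : ℤ) = N₀ * y.re := by simpa using h4
  have h6 : (N₀ : ℤ) ∣ 1 := ⟨_, h5⟩
  have h7 := Int.le_of_dvd one_pos h6
  omega

/-- the finite set of the numbers `X` -/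
private theorem Sinn_fC (hun : Finite (Qf a b ℤ)ˣ) : {x : Qf a b ℤ | x = 0 ∨
    ∃ u : (Qf a b ℤ)ˣ, x = u.val ^ 3 ∨ x = - u.val ^ 3}.Finite := by
  refine Set.Finite.subset ((Set.finite_singleton 0).union
    ((Set.finite_range fun u : (Qf a b ℤ)ˣ => u.val ^ 3).union
      (Set.finite_range fun u : (Qf a b ℤ)ˣ => - u.val ^ 3))) ?_
  rintro x (h | ⟨u, h | h⟩)
  · exact Or.inl h
  · exact Or.inr (Or.inl ⟨u, h.symm⟩)
  · exact Or.inr (Or.inr ⟨u, h.symm⟩)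

/-- the linear relation -/
private theorem Sinn_lin {k : ℕ} (J : Finset (Fin 2 → Qf a b ℤ)) (c r β μ μ₁ : Qf a b ℤ)
    (i g : Fin 2 → Qf a b ℤ) (hg : g 0 * i 0 + g 1 * i 1 = 1) (cj : J → Qf a b ℤ)
    (α : (Fin 2 → Qf a b ℤ) → Fin 2 → Qf a b ℤ)
    (h : ∀ l, SinnF a b k c * ((SinnF a b k r * SinnF a b k μ) * SinnF a b k (i l)) =
      ∑ j : J, (SinnF a b k β * SinnF a b k μ₁ * SinnF a b k (cj j)) * SinnF a b k (α j l)) :
    (k : Qf a b ℤ) ∣ c * r * μ - (β * ∑ j : J, cj j * (g 0 * α j 0 + g 1 * α j 1)) * μ₁ := by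
  rw [← Sinn_FE]
  have h0 := h 0
  have h1 := h 1
  have h2 : SinnF a b k (g 0) * SinnF a b k (i 0) + SinnF a b k (g 1) * SinnF a b k (i 1) = 1 := by
    rw [← map_mul, ← map_mul, ← map_add, hg, map_one]
  have h3 : SinnF a b k (c * r * μ) = SinnF a b k (g 0) * (SinnF a b k c *
      ((SinnF a b k r * SinnF a b k μ) * SinnF a b k (i 0))) + SinnF a b k (g 1) *
      (SinnF a b k c * ((SinnF a b k r * SinnF a b k μ) * SinnF a b k (i 1))) := by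
    rw [map_mul, map_mul]
    linear_combination (-(SinnF a b k c * SinnF a b k r * SinnF a b k μ)) * h2
  rw [h3, h0, h1, map_mul, map_mul, map_sum, Finset.mul_sum, Finset.mul_sum,
    ← Finset.sum_add_distrib, Finset.mul_sum, Finset.sum_mul]
  refine Finset.sum_congr rfl fun j _ => ?_
  rw [map_mul, map_add, map_mul, map_mul]
  ring

end

theorem p_Sinn (htr : S_tr) (har : S_ar) : S_inn := by
  intro a b hn hpid hun cg bv m hm vd N₁ hP Ψ hPs N N₀ hN hN1 hN0 h2 hC hUq ε hE k hk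
  obtain ⟨hε, hcop, z₀, hz₀, hsup, hRV⟩ := hE
  obtain ⟨J, c, α, hc, hJ, hJc, hα⟩ := hC
  have hdom : IsDomain (Qf a b ℤ) := Qf_domain hn
  have iN : NeZero N := ⟨hN⟩
  obtain ⟨hmN₁, hN₁, hPair⟩ := hP
  have hmN : m ∣ N := hmN₁.trans hN1
  have hle : Gam a b N ≤ Gam a b m := Sinn_le hmN
  have he₀ : Prm (![1, 0] : Fin 2 → Qf a b ℤ) := by
    refine ⟨1, ?_⟩
    ext1 i
    fin_cases i <;> rfl
  have hB0 : BV N (RingHom.id _) ![1, 0] z₀ = 0 := by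
    refine hsup _ he₀ fun u hu hx => ?_
    exact Sinn_ne h2 hcop hu (Sinn_dv hN0 hx 1)
  obtain ⟨r, hr⟩ := bv.rv N hN z₀ hz₀ _ he₀ hB0
  have hr0 : r ≠ 0 := by
    rintro rfl
    exact hRV (by rw [hr, zero_smul])
  have hrow : ∀ i : J, ∃ g : Fin 2 → Qf a b ℤ, g 0 * i.val 0 + g 1 * i.val 1 = 1 := by
    intro i
    obtain ⟨x, y, h⟩ := (cg.cop _).1 (hJ i.val i.property)
    exact ⟨![x, y], h⟩
  choose g hg using hrow
  have hCf : Finite {x : Qf a b ℤ | x = 0 ∨ ∃ u : (Qf a b ℤ)ˣ, x = u.val ^ 3 ∨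
    x = - u.val ^ 3} := Sinn_fC hun
  let Sf : J × (J → {x : Qf a b ℤ | x = 0 ∨ ∃ u : (Qf a b ℤ)ˣ, x = u.val ^ 3 ∨
      x = - u.val ^ 3}) → Qf a b ℤ := fun p => BV N (RingHom.id _) ε z₀ *
    ∑ j : J, (p.2 j).val * (g p.1 0 * α p.1 j 0 + g p.1 1 * α p.1 j 1)
  obtain ⟨k₁, hk₁, hkk, hS⟩ := har a b hn (Set.finite_range Sf).toFinset (c * r) k
    (mul_ne_zero hc hr0) hk
  have ik : NeZero k₁ := ⟨hk₁⟩
  have ikN : NeZero (k₁ * N) := ⟨mul_ne_zero hk₁ hN⟩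
  -- representatives
  have hrep : ∀ q : SL2 (Qf a b (ZMod N)), ∃ γ : GQ a b,
      (∃ γ', rdq a b N γ' = q) → rdq a b N γ = q := by
    intro q
    by_cases h : ∃ γ', rdq a b N γ' = q
    · obtain ⟨γ', h'⟩ := h
      exact ⟨γ', fun _ => h'⟩
    · exact ⟨1, fun h' => (h h').elim⟩
  choose rep hrep using hrep
  have htra := fun q => bv.tra N (Qf a b ℤ) (RingHom.id _) z₀ hz₀ (rep q)
  choose zq hzq htra using htra
  have hfam := fun q => htr a b m N k₁ hmN Ψ hPs _ (Sinn_red k₁ (hzq q))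
  choose Qf1 iG iF θq hq using hfam
  obtain ⟨Qu, iGu, iFu, θu, hu⟩ := hUq k₁ hk₁
  let θp : Gam a b m →* (∀ q, Qf1 q) := MonoidHom.pi θq
  refine ⟨k₁ * N, ikN, SL2 (Qf a b (ZMod (k₁ * N))) × Qu × (∀ q, Qf1 q), inferInstance,
    inferInstance, ((rdq a b (k₁ * N)).comp (Gam a b m).subtype).prod (θu.prod θp), ?_⟩
  intro h hG γ f f₁ hf hf₁ μ μ₁ hμ hμ₁
  set θ := ((rdq a b (k₁ * N)).comp (Gam a b m).subtype).prod (θu.prod θp) with hθ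
  have hR : RfN Ψ θ (k₁ * N) := vd.rfp Ψ _ _ _ _ _ (Or.inl (vd.rfr Ψ _))
  have hG₁ : Gd Ψ k₁ h := vd.gdm Ψ (k₁ * N) k₁ h (dvd_mul_right _ _) hG
  have hU : ∀ e e' e'', VD Ψ θ N e e' → VD Ψ θ N e e'' →
      Cgr k₁ e' e'' ∨ Cgr k₁ e' ((-1 : Qf a b ℤ) • e'') := by
    intro e e' e'' h1 h2
    have h3 := (vd.vdp Ψ _ _ _ _ N e e' h1).2
    have h4 := (vd.vdp Ψ _ _ _ _ N e e'' h2).2
    exact hu e e' e'' (vd.vdp Ψ _ _ _ _ N e e' h3).1 (vd.vdp Ψ _ _ _ _ N e e'' h4).1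
  obtain ⟨μ', hμ', hμ'2⟩ := vd.mu Ψ _ θ N k₁ (k₁ * N) h _ _ (dvd_refl _) hR hG hf
  obtain ⟨μ₁', hμ₁', hμ₁'2⟩ := vd.mu Ψ _ θ N k₁ (k₁ * N) h _ _ (dvd_refl _) hR hG hf₁
  have hk1 : (k : Qf a b ℤ) ∣ μ - μ' := Sinn_mu cg hf.2.1 hμ (Sinn_dv hkk hμ')
  have hk2 : (k : Qf a b ℤ) ∣ μ₁ - μ₁' := Sinn_mu cg hf₁.2.1 hμ₁ (Sinn_dv hkk hμ₁')
  suffices hmain : (k : Qf a b ℤ) ∣ μ' - μ₁' ∨ (k : Qf a b ℤ) ∣ μ' + μ₁' by
    rcases hmain with h3 | h3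
    · left
      have h4 : μ - μ₁ = (μ - μ') + (μ' - μ₁') - (μ₁ - μ₁') := by ring
      rw [h4]
      exact dvd_sub (dvd_add hk1 h3) hk2
    · right
      have h4 : μ + μ₁ = (μ - μ') + (μ' + μ₁') + (μ₁ - μ₁') := by ring
      rw [h4]
      exact dvd_add (dvd_add hk1 h3) hk2
  obtain ⟨q, w, hw, rfl⟩ : ∃ q, ∃ w ∈ Gam a b N, w * rep q = γ := by
    refine ⟨rdq a b N γ, γ * (rep (rdq a b N γ))⁻¹, ?_, inv_mul_cancel_right _ _⟩
    show rdq a b N (γ * (rep (rdq a b N γ))⁻¹) = 1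
    rw [map_mul, map_inv, hrep _ ⟨γ, rfl⟩, mul_inv_cancel]
  obtain ⟨z', hz'Z, hz'⟩ := hq q h hG₁
  have hz'' : ∀ e f, VD Ψ θ N e f → ∀ t, z' (uD N (dvd_refl N) f t) =
      (rdq a b k₁ h).val.mulVec (SinnV k₁ (zq q (uD N (dvd_refl N) e t))) := by
    intro e f hef t
    obtain ⟨_, _, hd, ht⟩ := hef
    exact hz' (uD N (dvd_refl N) e t) (uD N (dvd_refl N) f t) (uD m hd e t).property
      (uD m hd f t).property (Sinn_nat Ψ ((Pi.evalMonoidHom Qf1 q).comp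
        ((MonoidHom.snd Qu _).comp (MonoidHom.snd _ _))) θ (θq q) rfl (ht t))
  -- the number `RV`
  have hRe : RV N (RingHom.id _) ((w * rep q).val.mulVec ![1, 0]) (zq q) =
      r • (w * rep q).val.mulVec ![1, 0] := by
    have h1 := (bv.inv N _ (RingHom.id _) (zq q) (hzq q) w hw
      ((rep q).val.mulVec ![1, 0])).2
    rw [(htra q ![1, 0]).2, hr, Sinn_id, Sinn_id, Matrix.mulVec_smul, Matrix.mulVec_smul,
      Matrix.mulVec_mulVec] at h1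
    exact h1
  have hRf : RV N (SinnF a b k₁) f z' = (SinnF a b k₁ r * SinnF a b k₁ μ') • SinnV k₁ f := by
    have h1 : RV N (SinnF a b k₁) f z' = (rdq a b k₁ h).val.mulVec
        (RV N (SinnF a b k₁) ((w * rep q).val.mulVec ![1, 0]) (fun x => SinnV k₁ (zq q x))) := by
      unfold RV
      rw [hz'' _ _ hf, hz'' _ _ hf, Matrix.mulVec_sub, Matrix.mulVec_smul]
    rw [h1, Sinn_RV, hRe, Sinn_Vs, Matrix.mulVec_smul, ← Sinn_Vmv, (Sinn_VE _ _ _).1 hμ',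
      Sinn_Vs, smul_smul]
  obtain ⟨i, hi, hfi⟩ := hJc f hf.2.1
  have hRi := Sinn_fin cg bv hz'Z hf.2.1 hRf (hJ i hi) hfi
  -- the numbers `BV`
  have hcj : ∀ j : J, ∃ cj : Qf a b ℤ,
      (cj = 0 ∨ ∃ u : (Qf a b ℤ)ˣ, cj = u.val ^ 3 ∨ cj = - u.val ^ 3) ∧
      BV N (SinnF a b k₁) j z' = SinnF a b k₁ (BV N (RingHom.id _) ε z₀) *
        SinnF a b k₁ μ₁' * SinnF a b k₁ cj := by
    intro j
    obtain ⟨e, he⟩ := (hPair Ψ hPs _ θ).1 j.val (hJ j.val j.property)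
    have he' := vd.vdm Ψ _ θ N₁ N e j.val hN1 he
    obtain ⟨μj, hμj, hμj2⟩ := vd.mu Ψ _ θ N k₁ (k₁ * N) h _ _ (dvd_refl _) hR hG he'
    exact Sinn_cj hdom cg bv vd Ψ θ hN (dvd_mul_right _ _) hle hR hG hU (hzq q)
      (fun e => (htra q e).1) hw hsup hε hz'' hf₁ hμ₁' he' hμj hμj2
  choose cj hcC hcj using hcj
  have hmem : Sf (⟨i, hi⟩, fun j => ⟨cj j, hcC j⟩) ∈ (Set.finite_range Sf).toFinset := by
    rw [Set.Finite.mem_toFinset]
    exact ⟨_, rfl⟩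
  refine hS _ hmem μ' μ₁' hμ'2 hμ₁'2 ?_
  refine Sinn_lin J c r _ μ' μ₁' i (g ⟨i, hi⟩) (hg ⟨i, hi⟩) cj (α i) fun l => ?_
  have h1 := hα _ (SinnF a b k₁) z' hz'Z i hi l
  rw [hRi, ← Finset.sum_coe_sort] at h1
  rw [show SinnF a b k₁ c * ((SinnF a b k₁ r * SinnF a b k₁ μ') * SinnF a b k₁ (i l)) =
    SinnF a b k₁ c * ((SinnF a b k₁ r * SinnF a b k₁ μ') • SinnV k₁ i) l from rfl, h1]
  exact Finset.sum_congr rfl fun j _ => by rw [hcj j]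

end

end Pool.Agent.F8.CG
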