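import Pool.Agent.Lib.MP_305fdd_al.F8.CG.StmS

/-!
# MP_305fdd_al, congruence subgroups, block S: integral crossed homomorphisms (`S_int`)

The functionals `BV` and `RV` are linear forms on the space of the solutions of a system of linear
equations with coefficients in `ℤ[w]`.
-/

set_option autoImplicit false

namespace Pool.Agent.F8.CG

open Pool.Agent.F8.BG Pool.Agent.MP_305fdd_al Pool.Agent.Lib.MP_305fdd_al Pool.Agent.F8
open scoped QuadraticAlgebra ComplexConjugate

noncomputable section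

private theorem Sint_iC_inj {a b : ℤ} (h : b ^ 2 + 4 * a < 0) (x : Qf a b ℤ)
    (hx : iC a b x = 0) : x = 0 := by
  have him := wC_im h
  rw [iC_apply] at hx
  have h1 := congrArg Complex.im hx
  have h2 := congrArg Complex.re hx
  simp only [Complex.add_im, Complex.intCast_im, Complex.mul_im, Complex.intCast_re, zero_mul,
    add_zero, zero_add, Complex.zero_im] at h1
  simp only [Complex.add_re, Complex.intCast_re, Complex.mul_re, Complex.intCast_im, zero_mul,
    sub_zero, Complex.zero_re] at h2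
  have h3 : (x.im : ℝ) = 0 := by
    rcases mul_eq_zero.1 h1 with h | h
    · exact h
    · exact absurd h him.ne'
  rw [h3, zero_mul, add_zero] at h2
  have h4 : x.im = 0 := by exact_mod_cast h3
  have h5 : x.re = 0 := by exact_mod_cast h2
  ext
  · exact h5
  · exact h4

/-- the descent of a solution from `K` to `R` -/
private theorem Sint_core (hlin : S_lin) {R K J ι : Type} [CommRing R] [IsDomain R] [CommRing K]
    [IsDomain K] (f : R →+* K) (hf : ∀ x, f x = 0 → x = 0) {n : ℕ} (A : J → Fin n → R)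
    (B : ι → Fin n → R) (φ : Fin n → R) (v : Fin n → K) (hA : ∀ j, ∑ i, f (A j i) * v i = 0)
    (hB : ∀ j, ∑ i, f (B j i) * v i = 0) (hφ : ∑ i, f (φ i) * v i ≠ 0) :
    ∃ v' : Fin n → R, (∀ j, ∑ i, A j i * v' i = 0) ∧ (∀ j, ∑ i, B j i * v' i = 0) ∧
      ∑ i, φ i * v' i ≠ 0 := by
  by_contra hc
  have hall : ∀ v' : Fin n → R, (∀ j : J ⊕ ι, ∑ i, (Sum.elim A B j) i * v' i = 0) →
      ∑ i, φ i * v' i = 0 := by
    intro v' h
    by_contra h0
    exact hc ⟨v', fun j => h (Sum.inl j), fun j => h (Sum.inr j), h0⟩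
  obtain ⟨c, l, hc0, hl⟩ := hlin R (J ⊕ ι) n (Sum.elim A B) φ hall
  have hAB : ∀ j : J ⊕ ι, ∑ i, f ((Sum.elim A B j) i) * v i = 0 := by
    rintro (j | j)
    · exact hA j
    · exact hB j
  have h1 : f c * ∑ i, f (φ i) * v i = 0 := by
    have h2 : f c * ∑ i, f (φ i) * v i = ∑ i, f (c * φ i) * v i := by
      rw [Finset.mul_sum]
      exact Finset.sum_congr rfl fun i _ => by rw [map_mul, mul_assoc]
    have h3 : ∀ i, f (c * φ i) * v i =
        ∑ j ∈ l.support, f (l j) * (f ((Sum.elim A B j) i) * v i) := by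
      intro i
      rw [hl i, Finsupp.sum, map_sum, Finset.sum_mul]
      exact Finset.sum_congr rfl fun j _ => by rw [map_mul, mul_assoc]
    rw [h2, Finset.sum_congr rfl fun i _ => h3 i, Finset.sum_comm]
    refine Finset.sum_eq_zero fun j _ => ?_
    rw [← Finset.mul_sum, hAB j, mul_zero]
  rcases mul_eq_zero.1 h1 with h | h
  · exact hc0 (hf c h)
  · exact hφ h

section forms

variable {a b : ℤ} {N n : ℕ}

/-- the linear form of `BV` -/
private def Sint_b (E : Gam a b N → Fin 2 → Fin n → Qf a b ℤ) (e : Fin 2 → Qf a b ℤ) (i : Fin n) :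
    Qf a b ℤ :=
  e 0 * E (uD N (dvd_refl N) e 1) 1 i - e 1 * E (uD N (dvd_refl N) e 1) 0 i

/-- the linear form of the component `k` of `RV` -/
private def Sint_r (E : Gam a b N → Fin 2 → Fin n → Qf a b ℤ) (e : Fin 2 → Qf a b ℤ) (k : Fin 2)
    (i : Fin n) : Qf a b ℤ :=
  wq a b ℤ * E (uD N (dvd_refl N) e 1) k i - E (uD N (dvd_refl N) e (wq a b ℤ)) k i

private theorem Sint_bv (E : Gam a b N → Fin 2 → Fin n → Qf a b ℤ) {K : Type} [CommRing K]
    (f : Qf a b ℤ →+* K) (v : Fin n → K) (z : Gam a b N → Fin 2 → K)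
    (hz : ∀ x k, z x k = ∑ i, f (E x k i) * v i) (e : Fin 2 → Qf a b ℤ) :
    BV N f e z = ∑ i, f (Sint_b E e i) * v i := by
  unfold BV om
  beta_reduce
  rw [hz, hz, Finset.mul_sum, Finset.mul_sum, ← Finset.sum_sub_distrib]
  refine Finset.sum_congr rfl fun i _ => ?_
  unfold Sint_b
  rw [map_sub, map_mul, map_mul]
  ring

private theorem Sint_rv (E : Gam a b N → Fin 2 → Fin n → Qf a b ℤ) {K : Type} [CommRing K]
    (f : Qf a b ℤ →+* K) (v : Fin n → K) (z : Gam a b N → Fin 2 → K)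
    (hz : ∀ x k, z x k = ∑ i, f (E x k i) * v i) (e : Fin 2 → Qf a b ℤ) (k : Fin 2) :
    RV N f e z k = ∑ i, f (Sint_r E e k i) * v i := by
  have h1 : RV N f e z k = f (wq a b ℤ) * z (uD N (dvd_refl N) e 1) k
      - z (uD N (dvd_refl N) e (wq a b ℤ)) k := rfl
  rw [h1, hz, hz, Finset.mul_sum, ← Finset.sum_sub_distrib]
  refine Finset.sum_congr rfl fun i _ => ?_
  unfold Sint_r
  rw [map_sub, map_mul]
  ring

end forms

theorem p_Sint (hlin : S_lin) (hfx : S_fx) : S_int := by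
  intro a b hn hfg N hN S e₀ z hz hS
  haveI : IsDomain (Qf a b ℤ) := Qf_domain hn
  have hFG : Group.FG (Gam a b N) := by
    haveI : NeZero N := ⟨hN⟩
    haveI : Finite (SL2 (Qf a b (ZMod N))) := inferInstance
    have h2 : (Gam a b N).FiniteIndex := Subgroup.finiteIndex_ker _
    exact Subgroup.fg_of_index_ne_zero _
  obtain ⟨J, n, A, E, h⟩ := hfx (Qf a b ℤ) (Gam a b N) (Gam a b N).subtype hFG
  obtain ⟨v, hvA, hvz⟩ := (h ℂ (iC a b)).1 z hz
  have hB : ∀ j : S, ∑ i, iC a b (Sint_b E j.1 i) * v i = 0 := by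
    intro j
    rw [← Sint_bv E (iC a b) v z hvz j.1]
    exact hS j.1 j.2
  have back : ∀ v' : Fin n → Qf a b ℤ, (∀ j, ∑ i, A j i * v' i = 0) →
      (∀ j : S, ∑ i, Sint_b E j.1 i * v' i = 0) →
      ∃ z' ∈ Z1S N (RingHom.id (Qf a b ℤ)), (∀ e ∈ S, BV N (RingHom.id _) e z' = 0) ∧
        (∀ e, BV N (RingHom.id _) e z' = ∑ i, Sint_b E e i * v' i) ∧
        ∀ e k, RV N (RingHom.id _) e z' k = ∑ i, Sint_r E e k i * v' i := by
    intro v' h1 h2
    refine ⟨_, (h (Qf a b ℤ) (RingHom.id _)).2 v' h1, ?_, ?_, ?_⟩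
    · intro e he
      exact (Sint_bv E (RingHom.id _) v' _ (fun _ _ => rfl) e).trans (h2 ⟨e, he⟩)
    · intro e
      exact Sint_bv E (RingHom.id _) v' _ (fun _ _ => rfl) e
    · intro e k
      exact Sint_rv E (RingHom.id _) v' _ (fun _ _ => rfl) e k
  constructor
  · intro h0
    rw [Sint_bv E (iC a b) v z hvz e₀] at h0
    obtain ⟨v', h1, h2, h3⟩ := Sint_core hlin (iC a b) (Sint_iC_inj hn) A
      (fun j : S => Sint_b E j.1) (Sint_b E e₀) v hvA hB h0
    obtain ⟨z', hz', h4, h5, -⟩ := back v' h1 h2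
    refine ⟨z', hz', h4, ?_⟩
    rw [h5 e₀]
    exact h3
  · intro h0
    obtain ⟨k, hk⟩ : ∃ k, RV N (iC a b) e₀ z k ≠ 0 := by
      by_contra hc
      push Not at hc
      exact h0 (funext hc)
    rw [Sint_rv E (iC a b) v z hvz e₀ k] at hk
    obtain ⟨v', h1, h2, h3⟩ := Sint_core hlin (iC a b) (Sint_iC_inj hn) A
      (fun j : S => Sint_b E j.1) (Sint_r E e₀ k) v hvA hB hk
    obtain ⟨z', hz', h4, -, h6⟩ := back v' h1 h2
    refine ⟨z', hz', h4, fun h7 => h3 ?_⟩
    rw [← h6 e₀ k, h7]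
    rfl

end

end Pool.Agent.F8.CG
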