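import Pool.Agent.Lib.MP_305fdd_al.F8.CG.StmS

/-!
# [CG S lin] linear algebra over a domain
-/

set_option autoImplicit false

namespace Pool.Agent.F8.CG

private theorem Slin_dual {R J : Type} [CommRing R] [IsDomain R] (n : ℕ) (A : J → Fin n → R)
    (φ : Fin n → R)
    (h : ∀ v : Fin n → R, (∀ j, ∑ i, A j i * v i = 0) → ∑ i, φ i * v i = 0) :
    (fun i => algebraMap R (FractionRing R) (φ i)) ∈
      Submodule.span (FractionRing R)
        (Set.range fun j : J => fun i => algebraMap R (FractionRing R) (A j i)) := by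
  by_contra hn
  obtain ⟨f, hf, hle⟩ := Submodule.exists_le_ker_of_notMem hn
  have hinj : Function.Injective (algebraMap R (FractionRing R)) :=
    IsFractionRing.injective R (FractionRing R)
  obtain ⟨w, hw⟩ : ∃ w : Fin n → FractionRing R, ∀ x, f x = ∑ i, x i * w i :=
    ⟨fun i => f fun j => if i = j then 1 else 0, fun x => by
      rw [LinearMap.pi_apply_eq_sum_univ f x]
      rfl⟩
  obtain ⟨b, hb⟩ := IsLocalization.exist_integer_multiples_of_finite (nonZeroDivisors R) w
  choose v hv using hb
  have hv' : ∀ i, algebraMap R (FractionRing R) (v i) =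
      algebraMap R (FractionRing R) b * w i := by
    intro i
    rw [hv i, Algebra.smul_def]
  have hb0 : algebraMap R (FractionRing R) b ≠ 0 := by
    rw [Ne, map_eq_zero_iff _ hinj]
    exact nonZeroDivisors.ne_zero b.2
  have key : ∀ x : Fin n → R, algebraMap R (FractionRing R) (∑ i, x i * v i) =
      algebraMap R (FractionRing R) b * f (fun i => algebraMap R (FractionRing R) (x i)) := by
    intro x
    rw [hw, map_sum, Finset.mul_sum]
    refine Finset.sum_congr rfl fun i _ => ?_
    rw [map_mul, hv']
    ring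
  have h1 := h v fun j => by
    apply hinj
    rw [key, map_zero]
    have h2 : f (fun i => algebraMap R (FractionRing R) (A j i)) = 0 :=
      hle (Submodule.subset_span ⟨j, rfl⟩)
    rw [h2, mul_zero]
  have h3 := key φ
  rw [h1, map_zero] at h3
  rcases mul_eq_zero.1 h3.symm with h4 | h4
  · exact hb0 h4
  · exact hf h4

theorem p_Slin : S_lin := by
  intro R J _ _ n A φ h
  obtain ⟨c, hc⟩ := Finsupp.mem_span_range_iff_exists_finsupp.1 (Slin_dual n A φ h)
  have hinj : Function.Injective (algebraMap R (FractionRing R)) :=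
    IsFractionRing.injective R (FractionRing R)
  obtain ⟨b, hb⟩ := IsLocalization.exist_integer_multiples (nonZeroDivisors R) c.support c
  have hg : ∀ j, ∃ x : R, algebraMap R (FractionRing R) x =
      algebraMap R (FractionRing R) b * c j ∧ (x ≠ 0 → j ∈ c.support) := by
    intro j
    by_cases hj : j ∈ c.support
    · obtain ⟨x, hx⟩ := hb j hj
      exact ⟨x, by rw [hx, Algebra.smul_def], fun _ => hj⟩
    · refine ⟨0, ?_, fun h0 => absurd rfl h0⟩
      rw [Finsupp.notMem_support_iff.1 hj, mul_zero, map_zero]
  choose g hg1 hg2 using hg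
  refine ⟨b, Finsupp.onFinset c.support g hg2, nonZeroDivisors.ne_zero b.2, fun i => ?_⟩
  rw [Finsupp.onFinset_sum _ (fun j => zero_mul _)]
  apply hinj
  have h1 := congrFun hc i
  rw [map_mul, ← h1, map_sum, Finsupp.sum, Finset.sum_apply, Finset.mul_sum]
  refine Finset.sum_congr rfl fun j _ => ?_
  rw [map_mul, hg1, Pi.smul_apply, smul_eq_mul, mul_assoc]

end Pool.Agent.F8.CG
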