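import Pool.Agent.Lib.MP_305fdd_al.F8.CG.StmS2
import Pool.Agent.Lib.MP_305fdd_al.F8.CG.P_Vtv

/-!
# MP_305fdd_al, congruence subgroups: the correspondence of the peripheral subgroups (piece Spair)
-/

set_option autoImplicit false

namespace Pool.Agent.F8.CG

open Pool.Agent.F8.BG Pool.Agent.MP_305fdd_al Pool.Agent.Lib.MP_305fdd_al Pool.Agent.F8
open scoped QuadraticAlgebra ComplexConjugate

noncomputable section

/-- the transvection `tv e (m x)` in `Γ(m)` -/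
private abbrev Spair_u {a b : ℤ} (m : ℕ) (e : Fin 2 → Qf a b ℤ) (x : Qf a b ℤ) : Gam a b m :=
  uD m (dvd_refl m) e x

private theorem Spair_add {a b : ℤ} (m : ℕ) (e : Fin 2 → Qf a b ℤ) (x y : Qf a b ℤ) :
    Spair_u m e (x + y) = Spair_u m e x * Spair_u m e y := by
  apply Subtype.ext
  show tv e ((m : Qf a b ℤ) * (x + y)) = tv e ((m : Qf a b ℤ) * x) * tv e ((m : Qf a b ℤ) * y)
  rw [mul_add]
  exact (p_Vtv _ e _ _).2.1

private theorem Spair_zero {a b : ℤ} (m : ℕ) (e : Fin 2 → Qf a b ℤ) :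
    Spair_u m e 0 = 1 := by
  have h := Spair_add m e 0 0
  rw [add_zero] at h
  exact left_eq_mul.1 h

private theorem Spair_pow {a b : ℤ} (m : ℕ) (e : Fin 2 → Qf a b ℤ) (x : Qf a b ℤ) (j : ℕ) :
    Spair_u m e ((j : Qf a b ℤ) * x) = Spair_u m e x ^ j := by
  induction j with
  | zero => rw [Nat.cast_zero, zero_mul, pow_zero, Spair_zero]
  | succ j ih => rw [Nat.cast_succ, add_mul, one_mul, Spair_add, ih, pow_succ]

private theorem Spair_zpow {a b : ℤ} (m : ℕ) (e : Fin 2 → Qf a b ℤ) (x : Qf a b ℤ) (j : ℤ) :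
    Spair_u m e ((j : Qf a b ℤ) * x) = Spair_u m e x ^ j := by
  obtain ⟨k, rfl | rfl⟩ := j.eq_nat_or_neg
  · rw [Int.cast_natCast, zpow_natCast, Spair_pow]
  · rw [Int.cast_neg, Int.cast_natCast, zpow_neg, zpow_natCast, ← Spair_pow]
    apply eq_inv_of_mul_eq_one_left
    rw [← Spair_add, neg_mul, neg_add_cancel, Spair_zero]

private theorem Spair_smul {a b : ℤ} (m : ℕ) (v : Qf a b ℤ) (e : Fin 2 → Qf a b ℤ)
    (x : Qf a b ℤ) : Spair_u m (v • e) x = Spair_u m e (v ^ 2 * x) := by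
  apply Subtype.ext
  show tv (v • e) ((m : Qf a b ℤ) * x) = tv e ((m : Qf a b ℤ) * (v ^ 2 * x))
  rw [(p_Vtv _ e 0 _).2.2.2.1]
  congr 1
  ring

private theorem Spair_cong {a b : ℤ} {k : ℕ} {x y : GQ a b} (h : rdq a b k x = rdq a b k y)
    (i j : Fin 2) : (k : Qf a b ℤ) ∣ x.val i j - y.val i j := by
  apply E_ker
  have h1 : (rdq a b k x).val i j = (rdq a b k y).val i j := by rw [h]
  have h2 : Qfm a b (Int.castRingHom (ZMod k)) (x.val i j) =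
    Qfm a b (Int.castRingHom (ZMod k)) (y.val i j) := h1
  rw [map_sub, h2, sub_self]

private theorem Spair_prim {a b : ℤ} (hC : CgF a b) {e : Fin 2 → Qf a b ℤ} (he : Prm e)
    (k τ : Qf a b ℤ) (h0 : k ∣ τ * e 0 ^ 2) (h1 : k ∣ τ * e 0 * e 1) (h2 : k ∣ τ * e 1 ^ 2) :
    k ∣ τ := by
  obtain ⟨x, y, hxy⟩ := (hC.cop e).1 he
  have h5 : τ = x ^ 2 * (τ * e 0 ^ 2) + (2 * x * y) * (τ * e 0 * e 1) +
      y ^ 2 * (τ * e 1 ^ 2) := by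
    linear_combination (-τ * (x * e 0 + y * e 1 + 1)) * hxy
  rw [h5]
  exact dvd_add (dvd_add (Dvd.dvd.mul_left h0 _) (Dvd.dvd.mul_left h1 _))
    (Dvd.dvd.mul_left h2 _)

private theorem Spair_symm {a b : ℤ} {m : ℕ} (Ψ : NatBij (Gam a b m) (Gam a b m)) (h : Ps Ψ) :
    Ps Ψ.symm := by
  intro k _
  obtain ⟨g, hg⟩ := h k
  refine ⟨g⁻¹, fun x => ?_⟩
  have h1 : ((MulAut.conj (rdq a b k g)).toMonoidHom).comp
      (Ψ.toFun _ ((rdq a b k).comp (Gam a b m).subtype)) =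
      (rdq a b k).comp (Gam a b m).subtype := by
    ext1 y
    exact (hg y).symm
  rw [← Ψ.nat] at h1
  have h2 : Ψ.invFun _ ((rdq a b k).comp (Gam a b m).subtype) =
      ((MulAut.conj (rdq a b k g)).toMonoidHom).comp ((rdq a b k).comp (Gam a b m).subtype) := by
    rw [← h1, Ψ.left_inv, h1]
  have h3 : Ψ.symm.toFun _ ((rdq a b k).comp (Gam a b m).subtype) x =
      rdq a b k g * rdq a b k x * (rdq a b k g)⁻¹ := by
    show Ψ.invFun _ ((rdq a b k).comp (Gam a b m).subtype) x = _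
    rw [h2]
    rfl
  rw [h3, map_inv]
  group

private theorem Spair_rho {a b : ℤ} {m : ℕ} (Ψ : NatBij (Gam a b m) (Gam a b m)) (h : Ps Ψ) :
    RhoG (Gam a b m).subtype Ψ (Gam a b m).subtype := by
  intro k _
  obtain ⟨g, hg⟩ := h k
  refine ⟨(rdq a b k g).val, ((rdq a b k g)⁻¹).val, ?_, ?_, fun l => ?_⟩
  · have h1 := mul_inv_cancel (rdq a b k g)
    exact congrArg Subtype.val h1
  · have h1 := inv_mul_cancel (rdq a b k g)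
    exact congrArg Subtype.val h1
  · have h1 := congrArg Subtype.val (hg l)
    exact h1

private theorem Spair_main {a b : ℤ} (hex : S_ex) (hab : b ^ 2 + 4 * a < 0)
    (hpid : IsPrincipalIdealRing (Qf a b ℤ)) (hfive : Five a b) (hfg : Group.FG (GQ a b))
    (hC : CgF a b) (m : ℕ) (hm : 3 ≤ m) (hnu : NuH a b m) (hfpu : FPU a b m) (k₀ : ℕ)
    (hk₀ : k₀ ≠ 0) (hcz : CZ a b m k₀) (Ψ : NatBij (Gam a b m) (Gam a b m)) (hΨ : Ps Ψ)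
    (Q : Type) [Group Q] [Finite Q] (θ : Gam a b m →* Q) (e' : Fin 2 → Qf a b ℤ)
    (he' : Prm e') : ∃ e, VD Ψ θ (m * k₀) e e' := by
  have hdom : IsDomain (Qf a b ℤ) := Qf_domain hab
  obtain ⟨A, hA0, hA⟩ : ∃ A : ℕ, A ≠ 0 ∧ (A : ℤ) = -a := by
    refine ⟨(-a).toNat, ?_, ?_⟩
    · rcases hfive with h | h | h | h | h <;> omega
    · rcases hfive with h | h | h | h | h <;> omega
  have hw : wq a b ℤ * cjq a b ℤ (wq a b ℤ) = (A : Qf a b ℤ) := by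
    have h1 : ((A : ℤ) : Qf a b ℤ) = ((-a : ℤ) : Qf a b ℤ) := by rw [hA]
    rw [Int.cast_natCast] at h1
    rw [h1, mul_cjq]
    ext
    · simp [nq, wq]
    · simp
  have hm0 : m ≠ 0 := by omega
  set n : ℕ := m * k₀ * A * 3 with hn
  have hn0 : n ≠ 0 := mul_ne_zero (mul_ne_zero (mul_ne_zero hm0 hk₀) hA0) three_ne_zero
  have hnz : NeZero n := ⟨hn0⟩
  have hcm : (m : Qf a b ℤ) ≠ 0 := by
    intro h
    have h2 := congrArg QuadraticAlgebra.re h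
    have h3 : (m : ℤ) = 0 := by simpa using h2
    omega
  have hck : (k₀ : Qf a b ℤ) ≠ 0 := by
    intro h
    have h2 := congrArg QuadraticAlgebra.re h
    have h3 : (k₀ : ℤ) = 0 := by simpa using h2
    omega
  have hcA : (A : Qf a b ℤ) ≠ 0 := by
    intro h
    have h2 := congrArg QuadraticAlgebra.re h
    have h3 : (A : ℤ) = 0 := by simpa using h2
    omega
  have hw0 : wq a b ℤ ≠ 0 := by
    intro h
    rw [h, zero_mul] at hw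
    exact hcA hw.symm
  set R : Gam a b m →* SL2 (Qf a b (ZMod n)) := (rdq a b n).comp (Gam a b m).subtype with hR
  set θ' : Gam a b m →* Q × SL2 (Qf a b (ZMod n)) := θ.prod R with hθ'
  obtain ⟨Q₃, _, _, θ₃, h3⟩ := hex a b hab hpid hfive hfg hC m hm hnu Ψ hΨ e' he'
    ((k₀ : Qf a b ℤ) * wq a b ℤ) (mul_ne_zero hck hw0) _ θ'
  obtain ⟨Q₂, _, _, θ₂, h2⟩ := hcz Q₃ θ₃
  obtain ⟨Q₅, _, _, θ₅, h5⟩ := hex a b hab hpid hfive hfg hC m hm hnu Ψ hΨ e' he'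
    1 one_ne_zero _ (θ'.prod (θ₃.prod θ₂))
  -- (1)
  have hU : Unip (Spair_u m e' 1).val := by
    obtain ⟨g, hg⟩ := he'
    refine ⟨g, (m : Qf a b ℤ) * 1, ?_⟩
    rw [eU_eq_tv, (p_Vtv _ _ 0 _).2.2.1]
    show tv e' ((m : Qf a b ℤ) * 1) = _
    congr 1
    rw [← hg]
    funext i
    show g.val i 0 = _
    simp only [Matrix.mulVec, dotProduct, Fin.sum_univ_two, Matrix.cons_val_zero,
      Matrix.cons_val_one]
    ring
  obtain ⟨p, ⟨g, t, hp⟩, hp5⟩ := hfpu Ψ (Spair_rho Ψ hΨ) Q₅ θ₅ (Spair_u m e' 1) hU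
  have hge : g.val.mulVec ![1, 0] = colG g 0 := by
    funext i
    show _ = g.val i 0
    simp only [Matrix.mulVec, dotProduct, Fin.sum_univ_two, Matrix.cons_val_zero,
      Matrix.cons_val_one]
    ring
  rw [eU_eq_tv, (p_Vtv _ _ 0 _).2.2.1, hge] at hp
  have he0 : Prm (colG g 0) := ⟨g, rfl⟩
  have ht : (m : Qf a b ℤ) ∣ t := by
    have hmem : rdq a b m p.val = rdq a b m 1 := by
      rw [map_one]
      exact p.2
    have k0 := Spair_cong hmem 0 1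
    have k1 := Spair_cong hmem 0 0
    have k2 := Spair_cong hmem 1 0
    rw [hp] at k0 k1 k2
    have k0' : (m : Qf a b ℤ) ∣ t * colG g 0 0 ^ 2 - 0 := k0
    have k1' : (m : Qf a b ℤ) ∣ (1 - t * colG g 0 0 * colG g 0 1) - 1 := k1
    have k2' : (m : Qf a b ℤ) ∣ -(t * colG g 0 1 ^ 2) - 0 := k2
    rw [sub_zero] at k0' k2'
    rw [sub_sub_cancel_left] at k1'
    exact Spair_prim hC he0 _ _ k0' ((dvd_neg).1 k1') ((dvd_neg).1 k2')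
  obtain ⟨x', rfl⟩ := ht
  have hpu : p = Spair_u m (colG g 0) x' := Subtype.ext hp
  rw [hpu] at hp5
  obtain ⟨v, hv, hv4⟩ := h5 _ he0 x' hp5
  rw [one_mul] at hv4
  set e : Fin 2 → Qf a b ℤ := v • colG g 0 with hedef
  have he : Prm e := hC.unit v _ hv he0
  have hue : Spair_u m e 1 = Spair_u m (colG g 0) (v ^ 2) := by
    rw [hedef, Spair_smul, mul_one]
  have h4 : (θ'.prod (θ₃.prod θ₂)) (Spair_u m e 1) =
      Ψ.toFun _ (θ'.prod (θ₃.prod θ₂)) (Spair_u m e' 1) := by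
    rw [hue]
    exact hv4
  -- (2)
  have hrange : Ψ.toFun _ (θ'.prod (θ₃.prod θ₂)) (Spair_u m e' (wq a b ℤ)) ∈
      (θ'.prod (θ₃.prod θ₂)).range := by
    rw [← Ψ.range_eq]
    exact ⟨_, rfl⟩
  obtain ⟨q, hq⟩ := hrange
  have hcom : (θ'.prod (θ₃.prod θ₂)) q * (θ'.prod (θ₃.prod θ₂)) (Spair_u m e 1) =
      (θ'.prod (θ₃.prod θ₂)) (Spair_u m e 1) * (θ'.prod (θ₃.prod θ₂)) q := by
    rw [hq, h4, ← map_mul, ← map_mul, ← Spair_add, ← Spair_add, add_comm]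
  have hcom2 : θ₂ q * θ₂ (Spair_u m e 1) = θ₂ (Spair_u m e 1) * θ₂ q :=
    congrArg (fun y : (Q × SL2 (Qf a b (ZMod n))) × (Q₃ × Q₂) => y.2.2) hcom
  obtain ⟨x, hx⟩ := h2 e he q hcom2
  rw [pair_prod Ψ θ' (θ₃.prod θ₂), pair_prod Ψ θ₃ θ₂] at hq h4
  have hq3 : θ₃ q = Ψ.toFun _ θ₃ (Spair_u m e' (wq a b ℤ)) :=
    congrArg (fun y : (Q × SL2 (Qf a b (ZMod n))) × (Q₃ × Q₂) => y.2.1) hq
  have h4' : θ' (Spair_u m e 1) = Ψ.toFun _ θ' (Spair_u m e' 1) :=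
    congrArg (fun y : (Q × SL2 (Qf a b (ZMod n))) × (Q₃ × Q₂) => y.1) h4
  rw [hq3, ← map_pow, ← Spair_pow] at hx
  obtain ⟨y, hy, hy4⟩ := h3 e he x hx
  rw [hθ', pair_prod Ψ θ R] at hy4 h4'
  have a1 : θ (Spair_u m e 1) = Ψ.toFun _ θ (Spair_u m e' 1) :=
    congrArg (fun y : Q × SL2 (Qf a b (ZMod n)) => y.1) h4'
  have a2 : R (Spair_u m e 1) = Ψ.toFun _ R (Spair_u m e' 1) :=
    congrArg (fun y : Q × SL2 (Qf a b (ZMod n)) => y.2) h4'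
  have b1 : θ (Spair_u m e ((k₀ : Qf a b ℤ) * wq a b ℤ * y ^ 2)) =
      Ψ.toFun _ θ (Spair_u m e' ((k₀ : Qf a b ℤ) * wq a b ℤ)) :=
    congrArg (fun y : Q × SL2 (Qf a b (ZMod n)) => y.1) hy4
  have b2 : R (Spair_u m e ((k₀ : Qf a b ℤ) * wq a b ℤ * y ^ 2)) =
      Ψ.toFun _ R (Spair_u m e' ((k₀ : Qf a b ℤ) * wq a b ℤ)) :=
    congrArg (fun y : Q × SL2 (Qf a b (ZMod n)) => y.2) hy4
  -- (3)
  obtain ⟨γ, hγ⟩ := hΨ n
  have hkey : ∀ s s' : Qf a b ℤ, R (Spair_u m e s) = Ψ.toFun _ R (Spair_u m e' s') →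
      rdq a b n (tv (γ.val.mulVec e) ((m : Qf a b ℤ) * s)) =
      rdq a b n (tv e' ((m : Qf a b ℤ) * s')) := by
    intro s s' hs
    have e1 := hγ (Spair_u m e' s')
    rw [← hs] at e1
    have e2 : rdq a b n (tv e' ((m : Qf a b ℤ) * s')) = rdq a b n γ *
        rdq a b n (tv e ((m : Qf a b ℤ) * s)) * (rdq a b n γ)⁻¹ := e1
    rw [e2, ← map_inv, ← map_mul, ← map_mul, (p_Vtv _ _ 0 _).2.2.1]
  have r1 := hkey _ _ a2
  have r2 := hkey _ _ b2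
  set f := γ.val.mulVec e with hf
  have hfin : ∀ i j : Fin 2, (n : Qf a b ℤ) ∣ (m : Qf a b ℤ) * 1 * f i * f j -
      (m : Qf a b ℤ) * 1 * e' i * e' j → (n : Qf a b ℤ) ∣
      (m : Qf a b ℤ) * ((k₀ : Qf a b ℤ) * wq a b ℤ * y ^ 2) * f i * f j -
      (m : Qf a b ℤ) * ((k₀ : Qf a b ℤ) * wq a b ℤ) * e' i * e' j →
      (n : Qf a b ℤ) ∣ ((m : Qf a b ℤ) * k₀ * wq a b ℤ * (y ^ 2 - 1)) * e' i * e' j := by
    intro i j h1 h2
    have h3 := dvd_sub h2 (Dvd.dvd.mul_left h1 ((k₀ : Qf a b ℤ) * wq a b ℤ * y ^ 2))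
    have e3 : ((m : Qf a b ℤ) * k₀ * wq a b ℤ * (y ^ 2 - 1)) * e' i * e' j =
      (m : Qf a b ℤ) * ((k₀ : Qf a b ℤ) * wq a b ℤ * y ^ 2) * f i * f j -
      (m : Qf a b ℤ) * ((k₀ : Qf a b ℤ) * wq a b ℤ) * e' i * e' j -
      ((k₀ : Qf a b ℤ) * wq a b ℤ * y ^ 2) * ((m : Qf a b ℤ) * 1 * f i * f j -
      (m : Qf a b ℤ) * 1 * e' i * e' j) := by ring
    rw [e3]
    exact h3
  have c01 := Spair_cong r1 0 1
  have c00 := Spair_cong r1 0 0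
  have c10 := Spair_cong r1 1 0
  have d01 := Spair_cong r2 0 1
  have d00 := Spair_cong r2 0 0
  have d10 := Spair_cong r2 1 0
  have c01' : (n : Qf a b ℤ) ∣ (m : Qf a b ℤ) * 1 * f 0 ^ 2 -
      (m : Qf a b ℤ) * 1 * e' 0 ^ 2 := c01
  have c00' : (n : Qf a b ℤ) ∣ (1 - (m : Qf a b ℤ) * 1 * f 0 * f 1) -
      (1 - (m : Qf a b ℤ) * 1 * e' 0 * e' 1) := c00
  have c10' : (n : Qf a b ℤ) ∣ -((m : Qf a b ℤ) * 1 * f 1 ^ 2) -
      -((m : Qf a b ℤ) * 1 * e' 1 ^ 2) := c10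
  have d01' : (n : Qf a b ℤ) ∣ (m : Qf a b ℤ) * ((k₀ : Qf a b ℤ) * wq a b ℤ * y ^ 2) *
      f 0 ^ 2 - (m : Qf a b ℤ) * ((k₀ : Qf a b ℤ) * wq a b ℤ) * e' 0 ^ 2 := d01
  have d00' : (n : Qf a b ℤ) ∣ (1 - (m : Qf a b ℤ) * ((k₀ : Qf a b ℤ) * wq a b ℤ * y ^ 2) *
      f 0 * f 1) - (1 - (m : Qf a b ℤ) * ((k₀ : Qf a b ℤ) * wq a b ℤ) * e' 0 * e' 1) := d00
  have d10' : (n : Qf a b ℤ) ∣ -((m : Qf a b ℤ) * ((k₀ : Qf a b ℤ) * wq a b ℤ * y ^ 2) *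
      f 1 ^ 2) - -((m : Qf a b ℤ) * ((k₀ : Qf a b ℤ) * wq a b ℤ) * e' 1 ^ 2) := d10
  have g00 := hfin 0 0 (by
    have e3 : (m : Qf a b ℤ) * 1 * f 0 * f 0 - (m : Qf a b ℤ) * 1 * e' 0 * e' 0 =
      (m : Qf a b ℤ) * 1 * f 0 ^ 2 - (m : Qf a b ℤ) * 1 * e' 0 ^ 2 := by ring
    rw [e3]
    exact c01') (by
    have e3 : (m : Qf a b ℤ) * ((k₀ : Qf a b ℤ) * wq a b ℤ * y ^ 2) * f 0 * f 0 -
      (m : Qf a b ℤ) * ((k₀ : Qf a b ℤ) * wq a b ℤ) * e' 0 * e' 0 =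
      (m : Qf a b ℤ) * ((k₀ : Qf a b ℤ) * wq a b ℤ * y ^ 2) *
      f 0 ^ 2 - (m : Qf a b ℤ) * ((k₀ : Qf a b ℤ) * wq a b ℤ) * e' 0 ^ 2 := by ring
    rw [e3]
    exact d01')
  have g01 := hfin 0 1 (by
    rw [← dvd_neg]
    have e3 : -((m : Qf a b ℤ) * 1 * f 0 * f 1 - (m : Qf a b ℤ) * 1 * e' 0 * e' 1) =
      (1 - (m : Qf a b ℤ) * 1 * f 0 * f 1) - (1 - (m : Qf a b ℤ) * 1 * e' 0 * e' 1) := by ring
    rw [e3]
    exact c00') (by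
    rw [← dvd_neg]
    have e3 : -((m : Qf a b ℤ) * ((k₀ : Qf a b ℤ) * wq a b ℤ * y ^ 2) * f 0 * f 1 -
      (m : Qf a b ℤ) * ((k₀ : Qf a b ℤ) * wq a b ℤ) * e' 0 * e' 1) =
      (1 - (m : Qf a b ℤ) * ((k₀ : Qf a b ℤ) * wq a b ℤ * y ^ 2) *
      f 0 * f 1) - (1 - (m : Qf a b ℤ) * ((k₀ : Qf a b ℤ) * wq a b ℤ) * e' 0 * e' 1) := by ring
    rw [e3]
    exact d00')
  have g11 := hfin 1 1 (by
    rw [← dvd_neg]
    have e3 : -((m : Qf a b ℤ) * 1 * f 1 * f 1 - (m : Qf a b ℤ) * 1 * e' 1 * e' 1) =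
      -((m : Qf a b ℤ) * 1 * f 1 ^ 2) - -((m : Qf a b ℤ) * 1 * e' 1 ^ 2) := by ring
    rw [e3]
    exact c10') (by
    rw [← dvd_neg]
    have e3 : -((m : Qf a b ℤ) * ((k₀ : Qf a b ℤ) * wq a b ℤ * y ^ 2) * f 1 * f 1 -
      (m : Qf a b ℤ) * ((k₀ : Qf a b ℤ) * wq a b ℤ) * e' 1 * e' 1) =
      -((m : Qf a b ℤ) * ((k₀ : Qf a b ℤ) * wq a b ℤ * y ^ 2) *
      f 1 ^ 2) - -((m : Qf a b ℤ) * ((k₀ : Qf a b ℤ) * wq a b ℤ) * e' 1 ^ 2) := by ring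
    rw [e3]
    exact d10')
  rw [mul_assoc _ (e' 0) (e' 0), ← pow_two] at g00
  rw [mul_assoc _ (e' 1) (e' 1), ← pow_two] at g11
  obtain ⟨c, hc⟩ := Spair_prim hC he' _ _ g00 g01 g11
  have hy1 : y ^ 2 = 1 := by
    apply hC.un 3 (y ^ 2) le_rfl (hy.pow 2)
    have hnc : (n : Qf a b ℤ) = (m : Qf a b ℤ) * k₀ * A * 3 := by
      rw [hn]
      push_cast
      ring
    refine ⟨cjq a b ℤ (wq a b ℤ) * c, ?_⟩
    apply mul_left_cancel₀ hcA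
    apply mul_left_cancel₀ hck
    apply mul_left_cancel₀ hcm
    rw [hnc] at hc
    push_cast
    linear_combination cjq a b ℤ (wq a b ℤ) * hc -
      ((m : Qf a b ℤ) * k₀ * (y ^ 2 - 1)) * hw
  rw [hy1, mul_one] at b1
  -- (4)
  refine ⟨e, he, he', dvd_mul_right m k₀, fun t => ?_⟩
  have hT : ∀ e₁ : Fin 2 → Qf a b ℤ, uD m (dvd_mul_right m k₀) e₁ t =
      Spair_u m e₁ 1 ^ ((k₀ : ℤ) * t.re) *
        Spair_u m e₁ ((k₀ : Qf a b ℤ) * wq a b ℤ) ^ t.im := by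
    intro e₁
    rw [← Spair_zpow, ← Spair_zpow, ← Spair_add]
    apply Subtype.ext
    show tv e₁ (((m * k₀ : ℕ) : Qf a b ℤ) * t) = tv e₁ ((m : Qf a b ℤ) * _)
    congr 1
    have ht : t = (t.re : Qf a b ℤ) + (t.im : Qf a b ℤ) * wq a b ℤ := by
      ext <;> simp [wq]
    rw [Nat.cast_mul, Int.cast_mul, Int.cast_natCast]
    linear_combination ((m : Qf a b ℤ) * k₀) * ht
  rw [hT, hT, map_mul, map_mul, map_zpow, map_zpow, map_zpow, map_zpow, a1, b1]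

/-- [CG S pair] PAIR. -/
theorem p_Spair (hex : S_ex) : S_pair := by
  intro a b hab hpid hfive hfg hC m hm hnu hfpu k₀ hk₀ hcz
  have hm0 : m ≠ 0 := by omega
  refine ⟨dvd_mul_right m k₀, mul_ne_zero hm0 hk₀, fun Ψ hΨ Q _ _ θ => ⟨fun e' he' => ?_,
    fun e he => ?_⟩⟩
  · exact Spair_main hex hab hpid hfive hfg hC m hm hnu hfpu k₀ hk₀ hcz Ψ hΨ Q θ e' he'
  · obtain ⟨e₁, h1, h2, h3, h4⟩ := Spair_main hex hab hpid hfive hfg hC m hm hnu hfpu k₀ hk₀ hcz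
      Ψ.symm (Spair_symm Ψ hΨ) Q (Ψ.toFun Q θ) e he
    refine ⟨e₁, h2, h1, h3, fun t => ?_⟩
    have h5 := h4 t
    have h6 : Ψ.symm.toFun Q (Ψ.toFun Q θ) = θ := Ψ.left_inv Q θ
    rw [h6] at h5
    exact h5.symm

end

end Pool.Agent.F8.CG
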