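import Pool.Agent.Lib.MP_305fdd_al.F8.CG.StmS

/-!
# MP_305fdd_al, congruence subgroups: piece S pr (helper27), the prime step
-/

set_option autoImplicit false

namespace Pool.Agent.F8.CG

open Pool.Agent.F8.BG Pool.Agent.MP_305fdd_al Pool.Agent.Lib.MP_305fdd_al Pool.Agent.F8
open scoped QuadraticAlgebra ComplexConjugate

noncomputable section

variable {a b : ℤ}

private theorem Spr_conj (h : b ^ 2 + 4 * a < 0) : conj (wC a b) = (b : ℂ) - wC a b := by
  rw [wC_eq h]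
  simp only [map_add, map_mul, Complex.conj_ofReal, Complex.conj_I]
  push_cast
  ring

private theorem Spr_norm (h : b ^ 2 + 4 * a < 0) (z : Qf a b ℤ) :
    iC a b z * conj (iC a b z) = ((nq z : ℤ) : ℂ) := by
  have h1 : conj (iC a b z) = (z.re : ℂ) + (z.im : ℂ) * ((b : ℂ) - wC a b) := by
    rw [iC_apply, map_add, map_mul, Spr_conj h, map_intCast, map_intCast]
  rw [h1, iC_apply]
  unfold nq
  push_cast
  linear_combination (-(z.im : ℂ) ^ 2) * wC_mul a b

private theorem Spr_inj (h : b ^ 2 + 4 * a < 0) {z : Qf a b ℤ} (hz : z ≠ 0) : iC a b z ≠ 0 := by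
  intro h0
  have h1 := Spr_norm h z
  rw [h0, zero_mul] at h1
  have h2 : nq z = 0 := by exact_mod_cast h1.symm
  exact hz (nq_eq_zero h h2)

private theorem Spr_n (h : b ^ 2 + 4 * a < 0) {μ : Qf a b ℤ} (hμ : μ ≠ 0) :
    ∃ n : ℕ, n ≠ 0 ∧ μ ∣ (n : Qf a b ℤ) := by
  refine ⟨(nq μ).toNat, ?_, cjq a b ℤ μ, ?_⟩
  · intro h0
    have h1 := nq_nonneg h μ
    have h2 : nq μ = 0 := by omega
    exact hμ (nq_eq_zero h h2)
  · rw [mul_cjq]
    have h1 := nq_nonneg h μ
    apply QuadraticAlgebra.ext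
    · rw [QuadraticAlgebra.re_natCast]
      exact Int.toNat_of_nonneg h1
    · rw [QuadraticAlgebra.im_natCast]

private theorem Spr_zero {F : (Fin 2 → Qf a b ℤ) → ℂ} (hF : Hom3 F) : F 0 = 0 := by
  have h := hF 0 0
  rw [smul_zero, map_zero] at h
  simpa using h

private theorem Spr_symm {N : ℕ} {e f : Fin 2 → Qf a b ℤ} (h : Cgr N e f) : Cgr N f e := by
  intro i
  rw [← neg_sub]
  exact (dvd_neg).2 (h i)

/-- the restriction of `F` to the vectors with the property `P` -/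
private def Spr_FP (F : (Fin 2 → Qf a b ℤ) → ℂ) (P : (Fin 2 → Qf a b ℤ) → Prop)
    (e : Fin 2 → Qf a b ℤ) : ℂ :=
  open Classical in
  if ∃ (l : Qf a b ℤ) (f : Fin 2 → Qf a b ℤ), l ≠ 0 ∧ Prm f ∧ P f ∧ e = l • f then F e else 0

open Classical in
private theorem Spr_FP_smul (hc : CgF a b) (F : (Fin 2 → Qf a b ℤ) → ℂ)
    {P : (Fin 2 → Qf a b ℤ) → Prop} (hP : ∀ (u : Qf a b ℤ) (f), IsUnit u → P f → P (u • f))
    {l : Qf a b ℤ} {f : Fin 2 → Qf a b ℤ} (hl : l ≠ 0) (hf : Prm f) :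
    Spr_FP F P (l • f) = if P f then F (l • f) else 0 := by
  unfold Spr_FP
  by_cases h : P f
  · rw [if_pos h, if_pos ⟨l, f, hl, hf, h, rfl⟩]
  · rw [if_neg h, if_neg]
    rintro ⟨l', f', hl', hf', h', he⟩
    obtain ⟨u, hu, h1, -⟩ := hc.uni l' l f' f hl' hf' hf he.symm
    rw [h1] at h
    exact h (hP u f' hu h')

private theorem Spr_FP_zero {F : (Fin 2 → Qf a b ℤ) → ℂ} (hF : Hom3 F)
    (P : (Fin 2 → Qf a b ℤ) → Prop) : Spr_FP F P 0 = 0 := by
  unfold Spr_FP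
  rw [Spr_zero hF]
  exact ite_self _

open Classical in
private theorem Spr_FP_prm (hc : CgF a b) (F : (Fin 2 → Qf a b ℤ) → ℂ)
    {P : (Fin 2 → Qf a b ℤ) → Prop} (hP : ∀ (u : Qf a b ℤ) (f), IsUnit u → P f → P (u • f))
    (h1 : (1 : Qf a b ℤ) ≠ 0) {f : Fin 2 → Qf a b ℤ} (hf : Prm f) :
    Spr_FP F P f = if P f then F f else 0 := by
  have h := Spr_FP_smul hc F hP h1 hf
  rwa [one_smul] at h

private theorem Spr_FN_up {N : ℕ} {F : (Fin 2 → Qf a b ℤ) → ℂ} (h : FN N F) (m : ℕ) :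
    FN (N * m) F where
  hom := h.hom
  inf := h.inf
  lev e f he hf hef := h.lev e f he hf fun i => by
    have h1 := hef i
    rw [Nat.cast_mul] at h1
    exact (dvd_mul_right _ _).trans h1

private theorem Spr_FN_add {N : ℕ} {F F' : (Fin 2 → Qf a b ℤ) → ℂ} (h : FN N F) (h' : FN N F')
    (c : ℂ) : FN N (fun e => F e + c * F' e) where
  hom l e := by
    show F (l • e) + c * F' (l • e) = _
    rw [h.hom, h'.hom]
    ring
  inf := by
    show F ![1, 0] + c * F' ![1, 0] = 0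
    rw [h.inf, h'.inf]
    ring
  lev e f he hf hef := by
    show F e + c * F' e = F f + c * F' f
    rw [h.lev e f he hf hef, h'.lev e f he hf hef]

private theorem Spr_FN_FP (hn : b ^ 2 + 4 * a < 0) (hc : CgF a b) {N N' : ℕ}
    {F : (Fin 2 → Qf a b ℤ) → ℂ} (h : FN N F)
    {P : (Fin 2 → Qf a b ℤ) → Prop} (hP : ∀ (u : Qf a b ℤ) (f), IsUnit u → P f → P (u • f))
    (hP' : ∀ e f, Cgr N' e f → P e → P f) : FN (N * N') (Spr_FP F P) := by
  classical
  have := Qf_domain hn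
  refine ⟨?_, ?_, ?_⟩
  · intro l e
    by_cases hl : l = 0
    · rw [hl, zero_smul, Spr_FP_zero h.hom, map_zero]
      ring
    · by_cases he : e = 0
      · rw [he, smul_zero, Spr_FP_zero h.hom, mul_zero]
      · obtain ⟨m, f, hm, hf, rfl⟩ := hc.dec e he
        rw [Spr_FP_smul hc F hP hm hf, smul_smul, Spr_FP_smul hc F hP (mul_ne_zero hl hm) hf]
        split_ifs
        · rw [mul_smul, h.hom]
        · rw [mul_zero]
  · unfold Spr_FP
    rw [h.inf]
    exact ite_self _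
  · intro e f he hf hef
    have h1 : Cgr N e f := fun i => by
      have h1 := hef i
      rw [Nat.cast_mul] at h1
      exact (dvd_mul_right _ _).trans h1
    have h2 : Cgr N' e f := fun i => by
      have h1 := hef i
      rw [Nat.cast_mul] at h1
      exact (dvd_mul_left _ _).trans h1
    have h3 : P e ↔ P f := ⟨hP' e f h2, hP' f e (Spr_symm h2)⟩
    rw [Spr_FP_prm hc F hP one_ne_zero he, Spr_FP_prm hc F hP one_ne_zero hf, h.lev e f he hf h1]
    simp only [h3]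

private theorem Spr_dec (hn : b ^ 2 + 4 * a < 0) (hc : CgF a b) {α β μ : Qf a b ℤ}
    (hα : α ∣ μ) (hβ : β ∣ μ) (hμ : μ ≠ 0) {e : Fin 2 → Qf a b ℤ} (he : Prm e) :
    ∃ (c : Qf a b ℤ) (p : Fin 2 → Qf a b ℤ), c ≠ 0 ∧ Prm p ∧ α * e 0 = c * p 0 ∧
      β * e 1 = c * p 1 ∧ ![α * e 0, β * e 1] = c • p ∧ c ∣ μ := by
  have := Qf_domain hn
  obtain ⟨x, y, hxy⟩ := (hc.cop e).1 he
  obtain ⟨α', hα'⟩ := hα
  obtain ⟨β', hβ'⟩ := hβ
  have h1 : μ = α' * x * (α * e 0) + β' * y * (β * e 1) := by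
    have h2 : μ = μ * (x * e 0 + y * e 1) := by rw [hxy, mul_one]
    calc μ = μ * (x * e 0) + μ * (y * e 1) := by rw [← mul_add]; exact h2
      _ = (α * α') * (x * e 0) + (β * β') * (y * e 1) := by rw [← hα', ← hβ']
      _ = _ := by ring
  have h0 : (![α * e 0, β * e 1] : Fin 2 → Qf a b ℤ) ≠ 0 := by
    intro h0
    have h2 : α * e 0 = 0 := congrFun h0 0
    have h3 : β * e 1 = 0 := congrFun h0 1
    rw [h2, h3] at h1
    apply hμ
    rw [h1]
    ring
  obtain ⟨c, p, hc0, hp, hcp⟩ := hc.dec _ h0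
  have h2 : α * e 0 = c * p 0 := congrFun hcp 0
  have h3 : β * e 1 = c * p 1 := congrFun hcp 1
  refine ⟨c, p, hc0, hp, h2, h3, hcp, ?_⟩
  rw [h1, h2, h3]
  exact ⟨α' * x * p 0 + β' * y * p 1, by ring⟩

private theorem Spr_level (hn : b ^ 2 + 4 * a < 0) (hc : CgF a b) {N n : ℕ}
    {F : (Fin 2 → Qf a b ℤ) → ℂ} (h : FN N F) {α β μ : Qf a b ℤ}
    (hα : α ∣ μ) (hβ : β ∣ μ) (hμ : μ ≠ 0) (hμn : μ ∣ (n : Qf a b ℤ))
    {e f : Fin 2 → Qf a b ℤ} (he : Prm e) (hf : Prm f) (hef : Cgr (N * n) e f) :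
    F ![α * e 0, β * e 1] = F ![α * f 0, β * f 1] := by
  have := Qf_domain hn
  obtain ⟨c, p, hc0, hp, he0, he1, hep, hcμ⟩ := Spr_dec hn hc hα hβ hμ he
  obtain ⟨d, q, hd0, hq, hf0, hf1, hfq, hdμ⟩ := Spr_dec hn hc hα hβ hμ hf
  have k0 : ((N : Qf a b ℤ) * n) ∣ c * p 0 - d * q 0 := by
    rw [← he0, ← hf0, ← mul_sub, ← Nat.cast_mul]
    exact (hef 0).mul_left _
  have k1 : ((N : Qf a b ℤ) * n) ∣ c * p 1 - d * q 1 := by
    rw [← he1, ← hf1, ← mul_sub, ← Nat.cast_mul]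
    exact (hef 1).mul_left _
  have hcn : c ∣ (n : Qf a b ℤ) := hcμ.trans hμn
  have hdn : d ∣ (n : Qf a b ℤ) := hdμ.trans hμn
  have hcN : c ∣ (N : Qf a b ℤ) * n := hcn.mul_left _
  have hdN : d ∣ (N : Qf a b ℤ) * n := hdn.mul_left _
  have hcd : c ∣ d := by
    obtain ⟨x, y, hxy⟩ := (hc.cop q).1 hq
    have m0 : c ∣ d * q 0 := (dvd_sub_right (dvd_mul_right c (p 0))).1 (hcN.trans k0)
    have m1 : c ∣ d * q 1 := (dvd_sub_right (dvd_mul_right c (p 1))).1 (hcN.trans k1)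
    have : d = x * (d * q 0) + y * (d * q 1) := by
      calc d = d * (x * q 0 + y * q 1) := by rw [hxy, mul_one]
        _ = _ := by ring
    rw [this]
    exact dvd_add (m0.mul_left _) (m1.mul_left _)
  have hdc : d ∣ c := by
    obtain ⟨x, y, hxy⟩ := (hc.cop p).1 hp
    have m0 : d ∣ c * p 0 := (dvd_sub_left (dvd_mul_right d (q 0))).1 (hdN.trans k0)
    have m1 : d ∣ c * p 1 := (dvd_sub_left (dvd_mul_right d (q 1))).1 (hdN.trans k1)
    have : c = x * (c * p 0) + y * (c * p 1) := by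
      calc c = c * (x * p 0 + y * p 1) := by rw [hxy, mul_one]
        _ = _ := by ring
    rw [this]
    exact dvd_add (m0.mul_left _) (m1.mul_left _)
  obtain ⟨u, hu⟩ := associated_of_dvd_dvd hcd hdc
  -- `d = c * u`
  obtain ⟨n', hn'⟩ := hcn
  have hq' : Prm ((u : Qf a b ℤ) • q) := hc.unit _ _ u.isUnit hq
  have hcgr : Cgr N p ((u : Qf a b ℤ) • q) := by
    have key : ∀ i : Fin 2, (N : Qf a b ℤ) * n ∣ c * p i - d * q i →
        (N : Qf a b ℤ) ∣ p i - (u : Qf a b ℤ) * q i := by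
      intro i hi
      have h1 : c * ((N : Qf a b ℤ) * n') ∣ c * (p i - (u : Qf a b ℤ) * q i) := by
        have h2 : c * ((N : Qf a b ℤ) * n') = (N : Qf a b ℤ) * n := by
          rw [hn']
          ring
        have h3 : c * (p i - (u : Qf a b ℤ) * q i) = c * p i - d * q i := by
          rw [← hu]
          ring
        rw [h2, h3]
        exact hi
      exact (dvd_mul_right _ _).trans ((mul_dvd_mul_iff_left hc0).1 h1)
    intro i
    show (N : Qf a b ℤ) ∣ p i - (u : Qf a b ℤ) * q i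
    fin_cases i
    · exact key 0 k0
    · exact key 1 k1
  rw [hep, hfq, h.hom, h.lev p _ hp hq' hcgr, ← h.hom, smul_smul, hu]

private theorem Spr_FN_D (hn : b ^ 2 + 4 * a < 0) (hc : CgF a b) {N n : ℕ}
    {F : (Fin 2 → Qf a b ℤ) → ℂ} (h : FN N F) {α β μ : Qf a b ℤ}
    (hα : α ∣ μ) (hβ : β ∣ μ) (hμ : μ ≠ 0) (hμn : μ ∣ (n : Qf a b ℤ)) (κ : ℂ) :
    FN (N * n) (fun e => κ * F ![α * e 0, β * e 1]) where
  hom l e := by
    show κ * F ![α * (l * e 0), β * (l * e 1)] = _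
    have h1 : (![α * (l * e 0), β * (l * e 1)] : Fin 2 → Qf a b ℤ) = l • ![α * e 0, β * e 1] := by
      funext i
      fin_cases i
      · show α * (l * e 0) = l * (α * e 0)
        ring
      · show β * (l * e 1) = l * (β * e 1)
        ring
    rw [h1, h.hom]
    ring
  inf := by
    show κ * F ![α * 1, β * 0] = 0
    have h1 : (![α * 1, β * 0] : Fin 2 → Qf a b ℤ) = α • ![1, 0] := by
      funext i
      fin_cases i
      · rfl
      · show β * 0 = α * 0
        ring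
    rw [h1, h.hom, h.inf]
    ring
  lev e f he hf hef := by
    show κ * F ![α * e 0, β * e 1] = κ * F ![α * f 0, β * f 1]
    rw [Spr_level hn hc h hα hβ hμ hμn he hf hef]

/-- the assumption for the proof by contradiction -/
private def Spr_dag (a b : ℤ) (A π : Qf a b ℤ) : Prop :=
  ∀ (N : ℕ) (G : (Fin 2 → Qf a b ℤ) → ℂ) (r : ℂ), N ≠ 0 → FN N G →
    (∀ e, Prm e → G e ≠ 0 → IsCoprime (e 1) (π * A)) → SF G r → r = 0

private theorem Spr_one (hn : b ^ 2 + 4 * a < 0) (hpid : IsPrincipalIdealRing (Qf a b ℤ))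
    (hc : CgF a b) (hs : SFF a b) {A π : Qf a b ℤ} (hπ : Prime π)
    (hdag : Spr_dag a b A π) (j N : ℕ) (F : (Fin 2 → Qf a b ℤ) → ℂ) (r : ℂ) (hN : N ≠ 0)
    (hF : FN N F) (hr : SF F r)
    (hsup : ∀ e, Prm e → F e ≠ 0 → IsCoprime (e 1) A ∧ π ^ j ∣ e 1 ∧ ¬ π ^ (j + 1) ∣ e 1) :
    r = 0 := by
  have := Qf_domain hn
  have hμ : π ^ j ≠ 0 := pow_ne_zero _ hπ.ne_zero
  obtain ⟨n, hn0, hμn⟩ := Spr_n hn hμ
  have hG := Spr_FN_D hn hc hF (one_dvd (π ^ j)) (dvd_refl (π ^ j)) hμ hμn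
    (((iC a b (π ^ j))⁻¹) ^ 2)
  have hSF := hs.mu1 F r (π ^ j) hμ hr
  have hG' : FN (N * n) (fun e => ((iC a b (π ^ j))⁻¹) ^ 2 * F ![e 0, π ^ j * e 1]) := by
    have h1 : (fun e : Fin 2 → Qf a b ℤ => ((iC a b (π ^ j))⁻¹) ^ 2 * F ![e 0, π ^ j * e 1]) =
        fun e => ((iC a b (π ^ j))⁻¹) ^ 2 * F ![1 * e 0, π ^ j * e 1] := by
      funext e
      rw [one_mul]
    rw [h1]
    exact hG
  have h0 := hdag (N * n) _ _ (Nat.mul_ne_zero hN hn0) hG' (by
    intro e he hne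
    obtain ⟨c, p, hc0, hp, he0, he1, hep, hcμ⟩ :=
      Spr_dec hn hc (one_dvd (π ^ j)) (dvd_refl (π ^ j)) hμ he
    rw [one_mul] at he0 hep
    have h1 : F p ≠ 0 := by
      intro h2
      apply hne
      show ((iC a b (π ^ j))⁻¹) ^ 2 * F ![e 0, π ^ j * e 1] = 0
      rw [hep, hF.hom, h2]
      ring
    obtain ⟨hA, hd, hnd⟩ := hsup p hp h1
    obtain ⟨t, ht⟩ := hd
    have h2 : e 1 = c * t := by
      rw [ht] at he1
      have h3 : π ^ j * e 1 = π ^ j * (c * t) := by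
        rw [he1]
        ring
      exact mul_left_cancel₀ hμ h3
    have hcop := (hc.cop e).1 he
    have hπc : ¬ π ∣ c := by
      intro h3
      have h4 : π ∣ e 0 := by
        rw [he0]
        exact h3.mul_right _
      have h5 : π ∣ e 1 := by
        rw [h2]
        exact h3.mul_right _
      exact hπ.not_isUnit (hcop.isUnit_of_dvd' h4 h5)
    have hcu : IsUnit c := by
      have h3 : IsCoprime c (π ^ j) := ((hπ.coprime_iff_not_dvd.2 hπc).symm).pow_right
      exact h3.isUnit_of_dvd' (dvd_refl c) hcμ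
    have hπt : ¬ π ∣ t := by
      rintro ⟨s, hs'⟩
      apply hnd
      rw [ht, hs']
      exact ⟨s, by ring⟩
    have hπe : ¬ π ∣ e 1 := by
      rw [h2]
      intro h3
      rcases hπ.dvd_or_dvd h3 with h4 | h4
      · exact hπc h4
      · exact hπt h4
    have h3 : IsCoprime (e 1) π := (hπ.coprime_iff_not_dvd.2 hπe).symm
    have h4 : IsCoprime t A := IsCoprime.of_mul_left_right (ht ▸ hA)
    have h5 : IsCoprime (e 1) A := by
      rw [h2]
      obtain ⟨v, hv⟩ := hcu.exists_left_inv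
      exact IsCoprime.mul_left ⟨v, 0, by rw [hv, zero_mul, add_zero]⟩ h4
    exact h3.mul_right h5) hSF
  rcases mul_eq_zero.1 h0 with h1 | h1
  · exfalso
    have h2 : iC a b (π ^ j) ≠ 0 := Spr_inj hn hμ
    rw [inv_eq_zero] at h1
    exact h2 ((map_eq_zero (starRingEnd ℂ)).1 h1)
  · exact h1

private theorem Spr_two (hn : b ^ 2 + 4 * a < 0) (hpid : IsPrincipalIdealRing (Qf a b ℤ))
    (hc : CgF a b) (hs : SFF a b) {A π : Qf a b ℤ} (hπ : Prime π)
    (hdag : Spr_dag a b A π) (K : ℕ) : ∀ (N : ℕ) (F : (Fin 2 → Qf a b ℤ) → ℂ) (r : ℂ), N ≠ 0 →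
    FN N F → SF F r →
    (∀ e, Prm e → F e ≠ 0 → IsCoprime (e 1) A ∧ ¬ π ^ K ∣ e 1) → r = 0 := by
  classical
  have := Qf_domain hn
  induction K with
  | zero =>
    intro N F r hN hF hr hsup
    have hz : ∀ e, F e = 0 := by
      intro e
      by_cases he : e = 0
      · rw [he]
        exact Spr_zero hF.hom
      · obtain ⟨m, f, hm, hf, rfl⟩ := hc.dec e he
        rw [hF.hom]
        by_cases h0 : F f = 0
        · rw [h0, mul_zero]
        · exact absurd (by rw [pow_zero]; exact one_dvd _) (hsup f hf h0).2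
    have h1 := hs.lin F F r r (-1) hr hr
    have h2 : (fun e => F e + -1 * F e) = F := by
      funext e
      rw [hz e]
      ring
    rw [h2] at h1
    have h3 := hs.uq F _ _ hr h1
    rw [h3]
    ring
  | succ K ih =>
    intro N F r hN hF hr hsup
    have hμ : π ^ K ≠ 0 := pow_ne_zero _ hπ.ne_zero
    obtain ⟨n, hn0, hμn⟩ := Spr_n hn hμ
    have hP : ∀ (u : Qf a b ℤ) (f : Fin 2 → Qf a b ℤ), IsUnit u → π ^ K ∣ f 1 →
        π ^ K ∣ (u • f) 1 := fun u f _ h => Dvd.dvd.mul_left h _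
    have hQ : ∀ (u : Qf a b ℤ) (f : Fin 2 → Qf a b ℤ), IsUnit u → ¬ π ^ K ∣ f 1 →
        ¬ π ^ K ∣ (u • f) 1 := fun u f hu h h' => h ((hu.dvd_mul_left).1 h')
    have hP' : ∀ e f : Fin 2 → Qf a b ℤ, Cgr n e f → π ^ K ∣ e 1 → π ^ K ∣ f 1 :=
      fun e f hef h => (dvd_sub_right h).1 (hμn.trans (hef 1))
    have hQ' : ∀ e f : Fin 2 → Qf a b ℤ, Cgr n e f → ¬ π ^ K ∣ e 1 → ¬ π ^ K ∣ f 1 :=
      fun e f hef h h' => h (hP' f e (Spr_symm hef) h')
    have hF1 : FN (N * n) (Spr_FP F fun f => π ^ K ∣ f 1) := Spr_FN_FP hn hc hF hP hP'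
    have hF2 : FN (N * n) (Spr_FP F fun f => ¬ π ^ K ∣ f 1) := Spr_FN_FP hn hc hF hQ hQ'
    obtain ⟨r1, hr1⟩ := hs.ex _ _ (Nat.mul_ne_zero hN hn0) hF1
    obtain ⟨r2, hr2⟩ := hs.ex _ _ (Nat.mul_ne_zero hN hn0) hF2
    have h1 := hs.lin _ _ r1 r2 1 hr1 hr2
    have h2 : (fun e => Spr_FP F (fun f => π ^ K ∣ f 1) e +
        1 * Spr_FP F (fun f => ¬ π ^ K ∣ f 1) e) = F := by
      funext e
      by_cases he : e = 0
      · rw [he, Spr_FP_zero hF.hom, Spr_FP_zero hF.hom, Spr_zero hF.hom]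
        ring
      · obtain ⟨m, f, hm, hf, rfl⟩ := hc.dec e he
        rw [Spr_FP_smul hc F hP hm hf, Spr_FP_smul hc F hQ hm hf]
        by_cases h3 : π ^ K ∣ f 1
        · rw [if_pos h3, if_neg (not_not.2 h3)]
          ring
        · rw [if_neg h3, if_pos h3]
          ring
    rw [h2] at h1
    have h3 := hs.uq F _ _ hr h1
    have h4 : r1 = 0 := Spr_one hn hpid hc hs hπ hdag K (N * n) _ r1
      (Nat.mul_ne_zero hN hn0) hF1 hr1 (by
        intro e he hne
        rw [Spr_FP_prm hc F hP one_ne_zero he] at hne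
        by_cases h5 : π ^ K ∣ e 1
        · rw [if_pos h5] at hne
          exact ⟨(hsup e he hne).1, h5, (hsup e he hne).2⟩
        · rw [if_neg h5] at hne
          exact absurd rfl hne)
    have h5 : r2 = 0 := ih (N * n) _ r2 (Nat.mul_ne_zero hN hn0) hF2 hr2 (by
        intro e he hne
        rw [Spr_FP_prm hc F hQ one_ne_zero he] at hne
        by_cases h5 : ¬ π ^ K ∣ e 1
        · rw [if_pos h5] at hne
          exact ⟨(hsup e he hne).1, h5⟩
        · rw [if_neg h5] at hne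
          exact absurd rfl hne)
    rw [h3, h4, h5]
    ring

/-- two powers of `π` are congruent modulo `N` -/
private theorem Spr_pig (π : Qf a b ℤ) {N : ℕ} (hN : N ≠ 0) :
    ∃ k s : ℕ, s ≠ 0 ∧ (N : Qf a b ℤ) ∣ π ^ k * (π ^ s - 1) := by
  have : NeZero N := ⟨hN⟩
  obtain ⟨k, l, hkl, h⟩ := Finite.exists_ne_map_eq_of_infinite
    (fun k : ℕ => ((((π ^ k).re : ℤ) : ZMod N), (((π ^ k).im : ℤ) : ZMod N)))
  have key : ∀ k l : ℕ, k < l →
      ((((π ^ k).re : ℤ) : ZMod N), (((π ^ k).im : ℤ) : ZMod N)) =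
      ((((π ^ l).re : ℤ) : ZMod N), (((π ^ l).im : ℤ) : ZMod N)) →
      ∃ k s : ℕ, s ≠ 0 ∧ (N : Qf a b ℤ) ∣ π ^ k * (π ^ s - 1) := by
    intro k l hkl h
    refine ⟨k, l - k, by omega, ?_⟩
    have h1 : π ^ k * (π ^ (l - k) - 1) = π ^ l - π ^ k := by
      rw [mul_sub, ← pow_add, mul_one]
      congr 2
      omega
    rw [h1]
    have h2 : (((π ^ k).re : ℤ) : ZMod N) = (((π ^ l).re : ℤ) : ZMod N) := congrArg Prod.fst h
    have h3 : (((π ^ k).im : ℤ) : ZMod N) = (((π ^ l).im : ℤ) : ZMod N) := congrArg Prod.snd h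
    rw [ZMod.intCast_eq_intCast_iff_dvd_sub] at h2 h3
    obtain ⟨x, hx⟩ := h2
    obtain ⟨y, hy⟩ := h3
    refine ⟨⟨x, y⟩, ?_⟩
    apply QuadraticAlgebra.ext
    · simp [hx]
    · simp [hy]
  rcases lt_or_gt_of_ne hkl with h1 | h1
  · exact key k l h1 h
  · exact key l k h1 h.symm

theorem p_Spr : S_pr := by
  classical
  intro a b hn hpid hc hs A π hA hπ hPA
  have := Qf_domain hn
  by_contra hcon
  have hdag : Spr_dag a b A π := by
    intro N G r hN hG hsup hr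
    by_contra hr0
    exact hcon ⟨N, G, r, hN, hG, hsup, hr, hr0⟩
  obtain ⟨N, F, r, hN, hF, hsup, hr, hr0⟩ := hPA
  by_cases hπA : π ∣ A
  · -- nothing to show
    apply hcon
    refine ⟨N, F, r, hN, hF, fun e he hne => ?_, hr, hr0⟩
    have h1 := hsup e he hne
    exact (h1.of_isCoprime_of_dvd_right hπA).mul_right h1
  have hN' : (N : Qf a b ℤ) ≠ 0 := Nat.cast_ne_zero.2 hN
  obtain ⟨N', hNN, hπN⟩ :=
    (FiniteMultiplicity.of_not_isUnit hπ.not_isUnit hN').exists_eq_pow_mul_and_not_dvd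
  set n := multiplicity π (N : Qf a b ℤ) with hndef
  obtain ⟨k, s, hs0, hdiv⟩ := Spr_pig π hN
  have hN's : N' ∣ π ^ s - 1 := by
    have h1 : N' ∣ π ^ k * (π ^ s - 1) := (Dvd.intro_left _ hNN.symm).trans hdiv
    have h2 : IsCoprime N' (π ^ k) := ((hπ.coprime_iff_not_dvd.2 hπN).symm).pow_right
    exact h2.dvd_of_dvd_mul_left h1
  have hμ : π ^ s ≠ 0 := pow_ne_zero _ hπ.ne_zero
  obtain ⟨m, hm0, hμm⟩ := Spr_n hn hμ
  have hSF1 := hs.mu0 F r (π ^ s) hμ hr
  have hFN1 : FN (N * m) (fun e => (iC a b (π ^ s))⁻¹ * F ![π ^ s * e 0, e 1]) := by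
    have h1 : (fun e : Fin 2 → Qf a b ℤ => (iC a b (π ^ s))⁻¹ * F ![π ^ s * e 0, e 1]) =
        fun e => (iC a b (π ^ s))⁻¹ * F ![π ^ s * e 0, 1 * e 1] := by
      funext e
      rw [one_mul]
    rw [h1]
    exact Spr_FN_D hn hc hF (dvd_refl (π ^ s)) (one_dvd (π ^ s)) hμ hμm _
  have hSF2 := hs.lin _ F _ r (-(iC a b (π ^ s)) ^ 2) hSF1 hr
  have hFN2 := Spr_FN_add hFN1 (Spr_FN_up hF m) (-(iC a b (π ^ s)) ^ 2)
  have hiC : iC a b (π ^ s) ≠ 0 := Spr_inj hn hμ
  have h0 := Spr_two hn hpid hc hs hπ hdag (n + s) (N * m) _ _ (Nat.mul_ne_zero hN hm0) hFN2 hSF2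
    (by
      intro e he hne
      have hcop := (hc.cop e).1 he
      constructor
      · by_cases h1 : F e = 0
        · have h2 : F ![π ^ s * e 0, e 1] ≠ 0 := by
            intro h3
            apply hne
            show (iC a b (π ^ s))⁻¹ * F ![π ^ s * e 0, e 1] + -(iC a b (π ^ s)) ^ 2 * F e = 0
            rw [h3, h1]
            ring
          obtain ⟨c, p, hc0, hp, he0, he1, hep, hcμ⟩ :=
            Spr_dec hn hc (dvd_refl (π ^ s)) (one_dvd (π ^ s)) hμ he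
          rw [one_mul] at he1 hep
          have h3 : F p ≠ 0 := by
            intro h4
            apply h2
            rw [hep, hF.hom, h4, mul_zero]
          have h4 := hsup p hp h3
          have h5 : IsCoprime (π ^ s) A := (hπ.coprime_iff_not_dvd.2 hπA).pow_left
          rw [he1]
          exact IsCoprime.mul_left (h5.of_isCoprime_of_dvd_left hcμ) h4
        · exact hsup e he h1
      · rintro ⟨t, ht⟩
        apply hne
        show (iC a b (π ^ s))⁻¹ * F ![π ^ s * e 0, e 1] + -(iC a b (π ^ s)) ^ 2 * F e = 0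
        have h1 : e 1 = π ^ s * (π ^ n * t) := by
          rw [ht, pow_add]
          ring
        have h2 : (![π ^ s * e 0, e 1] : Fin 2 → Qf a b ℤ) = π ^ s • ![e 0, π ^ n * t] := by
          funext i
          fin_cases i
          · rfl
          · exact h1
        have h3 : Prm ![e 0, π ^ n * t] := by
          rw [hc.cop]
          show IsCoprime (e 0) (π ^ n * t)
          rw [h1] at hcop
          exact hcop.of_mul_right_right
        have h4 : Cgr N ![e 0, π ^ n * t] e := by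
          intro i
          fin_cases i
          · show (N : Qf a b ℤ) ∣ e 0 - e 0
            rw [sub_self]
            exact dvd_zero _
          · show (N : Qf a b ℤ) ∣ π ^ n * t - e 1
            obtain ⟨w, hw⟩ := hN's
            refine ⟨-(w * t), ?_⟩
            rw [h1, hNN]
            linear_combination (-(π ^ n * t)) * hw
        have h5 := hF.lev _ e h3 he h4
        rw [h2, hF.hom, h5]
        field_simp
        ring)
  have h1 : conj (iC a b (π ^ s)) = iC a b (π ^ s) ^ 2 := by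
    have h2 : (conj (iC a b (π ^ s)) - iC a b (π ^ s) ^ 2) * r = 0 := by
      linear_combination h0
    rcases mul_eq_zero.1 h2 with h3 | h3
    · linear_combination h3
    · exact absurd h3 hr0
  have h2 : ‖iC a b (π ^ s)‖ = 1 := by
    have h3 := congrArg norm h1
    rw [RCLike.norm_conj, norm_pow] at h3
    have h4 : ‖iC a b (π ^ s)‖ ≠ 0 := norm_ne_zero_iff.2 hiC
    have h5 : ‖iC a b (π ^ s)‖ * (‖iC a b (π ^ s)‖ - 1) = 0 := by linear_combination -h3
    rcases mul_eq_zero.1 h5 with h6 | h6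
    · exact absurd h6 h4
    · linarith
  have h3 := congrArg norm (Spr_norm hn (π ^ s))
  rw [norm_mul, RCLike.norm_conj, h2] at h3
  have h4 : nq (π ^ s) = 1 := by
    have h5 : ‖((nq (π ^ s) : ℤ) : ℂ)‖ = ((nq (π ^ s) : ℤ) : ℝ) := by
      rw [Complex.norm_intCast, abs_of_nonneg]
      exact_mod_cast nq_nonneg hn _
    rw [h5] at h3
    have h6 : ((nq (π ^ s) : ℤ) : ℝ) = 1 := by linarith
    exact_mod_cast h6
  have h5 : IsUnit (π ^ s) := by
    refine IsUnit.of_mul_eq_one (cjq a b ℤ (π ^ s)) ?_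
    rw [mul_cjq, h4]
    rfl
  exact hπ.not_isUnit ((isUnit_pow_iff hs0).1 h5)

end

end Pool.Agent.F8.CG
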