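import Pool.Agent.Lib.MP_305fdd_al.F8.CG.StmS3

/-! Piece `Spsi` of project CG: the bijection of the congruence subgroup. -/

set_option autoImplicit false

namespace Pool.Agent.F8.CG

open Pool.Agent.F8.BG Pool.Agent.MP_305fdd_al Pool.Agent.Lib.MP_305fdd_al Pool.Agent.F8
open scoped QuadraticAlgebra

private theorem Spsi_fi {G Q : Type} [Group G] [Group Q] [Finite Q] (f : G →* Q)
    (S : Subgroup Q) : (S.comap f).FiniteIndex := by
  have h1 : f.ker ≤ S.comap f := fun x hx => by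
    show f x ∈ S
    rw [MonoidHom.mem_ker.1 hx]
    exact S.one_mem
  have h2 : f.ker.FiniteIndex := Subgroup.finiteIndex_ker f
  exact Subgroup.finiteIndex_of_le h1

/-- a finite quotient of `G` which controls `ψ` -/
private theorem Spsi_apx {G H : Type} [Group G] [Group H] (Φ : NatBij G H) (A : Subgroup G)
    (B : Subgroup H) (hA : A.FiniteIndex) (Ψ : NatBij A B)
    (hΨ : ∀ (R : Type) [Group R] [Finite R] (θ : G →* R),
      Ψ.toFun R (θ.comp A.subtype) = (Φ.toFun R θ).comp B.subtype)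
    (P : Type) [Group P] [Finite P] (ψ : A →* P) :
    ∃ (R : Type) (_ : Group R) (_ : Finite R) (θ : G →* R),
      ∀ (x : A) (l : B), θ (x : G) = Φ.toFun R θ (l : H) →
        Ψ.toFun P ψ l = ψ x := by
  classical
  let K : Subgroup G := ψ.ker.map A.subtype
  have hKfin : K.FiniteIndex := by
    refine ⟨?_⟩
    have h1 : K.index = ψ.ker.index * A.index := Subgroup.index_map_subtype _
    have h2 : ψ.ker.index ≠ 0 := (Subgroup.finiteIndex_ker ψ).index_ne_zero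
    rw [h1]
    exact mul_ne_zero h2 hA.index_ne_zero
  let K₀ : Subgroup G := K.normalCore
  have hK₀ : K₀ ≤ K := Subgroup.normalCore_le K
  have hK₀fin : K₀.FiniteIndex := Subgroup.finiteIndex_normalCore K
  have hfq : Finite (G ⧸ K₀) := Subgroup.finite_quotient_of_finiteIndex
  let θ : G →* G ⧸ K₀ := QuotientGroup.mk' K₀
  have hwd : ∀ ν ν' : A, θ ν = θ ν' → ψ ν = ψ ν' := by
    intro ν ν' h
    have h1 : (ν : G)⁻¹ * ν' ∈ K₀ := QuotientGroup.eq.1 h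
    obtain ⟨k, hk, hk2⟩ := hK₀ h1
    have h2 : k = ν⁻¹ * ν' := Subtype.ext hk2
    have h3 : ψ k = 1 := hk
    rw [h2, map_mul, map_inv] at h3
    exact inv_mul_eq_one.1 h3
  refine ⟨G ⧸ K₀, inferInstance, hfq, θ, fun x l hx => ?_⟩
  obtain ⟨g, hg1, hg2⟩ := pair_val Ψ ψ (θ.comp A.subtype) l
  rw [hΨ] at hg2
  have h4 : θ (g : G) = θ (x : G) := by
    rw [hx]
    exact hg2
  rw [← hg1]
  exact hwd g x h4

theorem p_Spsi : S_psi := by
  intro a b K _ φ Γ m₀ m₁ Λ _ Φ Q _ _ π L ρ J hrep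
  classical
  let H : Subgroup Γ := ((Gam a b m₀).map (pcQ φ)).subgroupOf Γ
  have hkH : π.ker ≤ H := by
    intro x hx
    obtain ⟨y, hy, hyx⟩ := J.ker x (MonoidHom.mem_ker.1 hx)
    exact ⟨y, hy, hyx⟩
  let S : Subgroup Q := H.map π
  have hSH : S.comap π = H := Subgroup.comap_map_eq_self hkH
  let π' : Λ →* Q := Φ.toFun Q π
  have hmem : ∀ x (hx : x ∈ Gam a b m₀), (⟨pcQ φ x, J.le x hx⟩ : Γ) ∈ S.comap π := by
    intro x hx
    rw [hSH]
    exact ⟨x, hx, rfl⟩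
  have hL : L = S.comap π' := by
    ext l
    rw [J.memL]
    constructor
    · rintro ⟨y, hy, h⟩
      show π' l ∈ S
      have h1 : π' l = π ⟨pcQ φ y, J.le y hy⟩ := h
      rw [h1]
      exact hmem y hy
    · intro hl
      obtain ⟨x, hx, hxl⟩ := (hl : π' l ∈ S)
      obtain ⟨y, hy, hyx⟩ := hx
      refine ⟨y, hy, ?_⟩
      have h1 : (⟨pcQ φ y, J.le y hy⟩ : Γ) = x := Subtype.ext hyx
      rw [h1]
      exact hxl.symm
  obtain ⟨Ψ₀, hΨ₀⟩ : ∃ Ψ : NatBij (S.comap π) L,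
      ∀ (R : Type) [Group R] [Finite R] (θ : Γ →* R),
      Ψ.toFun R (θ.comp (S.comap π).subtype) = (Φ.toFun R θ).comp L.subtype :=
    natBij_sub Φ (π := π) (π' := π') rfl S (S.comap π) L rfl hL
  let e₀ : Gam a b m₀ →* S.comap π :=
    { toFun := fun x => ⟨⟨pcQ φ x.val, J.le x.val x.2⟩, hmem x.val x.2⟩
      map_one' := Subtype.ext (Subtype.ext (map_one (pcQ φ)))
      map_mul' := fun x y => Subtype.ext (Subtype.ext (map_mul (pcQ φ) x.val y.val)) }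
  have he₀ : Function.Bijective e₀ := by
    constructor
    · intro x y hxy
      have h1 : pcQ φ x.val = pcQ φ y.val := congrArg (fun z => z.val.val) hxy
      rcases (hrep.pce _ _).1 h1 with h2 | h2
      · exact Subtype.ext h2
      · exfalso
        have h3 : x.val * y.val⁻¹ = -1 := by
          rw [h2, neg_mul, mul_inv_cancel]
        have h4 : rdq a b m₀ (x.val * y.val⁻¹) = 1 :=
          MonoidHom.mem_ker.1 ((Gam a b m₀).mul_mem x.2 ((Gam a b m₀).inv_mem y.2))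
        have h5 := J.h5
        exact con_neg (by omega) h4 h3
    · rintro ⟨⟨z, hz⟩, hz'⟩
      have h1 := hz'
      rw [hSH] at h1
      obtain ⟨y, hy, hyz⟩ := h1
      exact ⟨⟨y, hy⟩, Subtype.ext (Subtype.ext hyz)⟩
  let e : Gam a b m₀ ≃* S.comap π := MulEquiv.ofBijective e₀ he₀
  have he : ∀ x (hx : x ∈ Gam a b m₀), e.symm ⟨⟨pcQ φ x, J.le x hx⟩, hmem x hx⟩ = ⟨x, hx⟩ := by
    intro x hx
    rw [MulEquiv.symm_apply_eq]
    rfl
  have hρm : ∀ l : L, ρ l ∈ Gam a b m₀ := fun l => by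
    rw [← J.rng]
    exact ⟨l, rfl⟩
  let r₀ : L →* Gam a b m₀ := ρ.codRestrict _ hρm
  have hr₀ : Function.Bijective r₀ := by
    constructor
    · intro x y hxy
      exact J.inj (congrArg Subtype.val hxy)
    · rintro ⟨x, hx⟩
      have h1 := hx
      rw [← J.rng] at h1
      obtain ⟨l, hl⟩ := h1
      exact ⟨l, Subtype.ext hl⟩
  let e₂ : L ≃* Gam a b m₀ := MulEquiv.ofBijective r₀ hr₀
  have he₂ : ∀ (l : L) (h : ρ l ∈ Gam a b m₀), e₂.symm ⟨ρ l, h⟩ = l := by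
    intro l h
    rw [MulEquiv.symm_apply_eq]
    rfl
  let Ψ₁ : NatBij (Gam a b m₀) L := natBij_equiv e Ψ₀
  let Ψ : NatBij (Gam a b m₀) (Gam a b m₀) := (natBij_equiv e₂.symm Ψ₁.symm).symm
  have hΨ : ∀ (R : Type) [Group R] [Finite R] (θ₀ : Gam a b m₀ →* R) (l : L)
      (h : ρ l ∈ Gam a b m₀), Ψ.toFun R θ₀ ⟨ρ l, h⟩ =
        Ψ₀.toFun R (θ₀.comp e.symm.toMonoidHom) l := by
    intro R _ _ θ₀ l h
    have h1 : Ψ.toFun R θ₀ ⟨ρ l, h⟩ =
        Ψ₀.toFun R (θ₀.comp e.symm.toMonoidHom) (e₂.symm ⟨ρ l, h⟩) := rfl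
    rw [h1, he₂]
  have hcmp : ∀ (R : Type) [Group R] [Finite R] (θ : Γ →* R) (θ₀ : Gam a b m₀ →* R),
      (∀ (x : Gam a b m₀) (h : pcQ φ x ∈ Γ), θ₀ x = θ ⟨pcQ φ x, h⟩) →
      ∀ (l : L) (h : ρ l ∈ Gam a b m₀), Φ.toFun R θ l = Ψ.toFun R θ₀ ⟨ρ l, h⟩ := by
    intro R _ _ θ θ₀ hθ l h
    have h1 : θ₀.comp e.symm.toMonoidHom = θ.comp (S.comap π).subtype := by
      ext z
      obtain ⟨x, rfl⟩ := e.surjective z
      show θ₀ (e.symm (e x)) = θ (e x).val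
      rw [MulEquiv.symm_apply_apply]
      exact hθ x _
    rw [hΨ R θ₀ l h, h1, hΨ₀]
    rfl
  refine ⟨Ψ, ?_, hcmp, ?_⟩
  · intro k _
    obtain ⟨R, _, _, θ, h, hh, hap⟩ := J.apx k
    refine ⟨h, hh, fun x => ?_⟩
    let θ₀ : Gam a b m₀ →* R :=
      { toFun := fun x => θ ⟨pcQ φ x.val, J.le x.val x.2⟩
        map_one' := by
          rw [← map_one θ]
          exact congrArg θ (Subtype.ext (map_one (pcQ φ)))
        map_mul' := fun x y => by
          rw [← map_mul θ]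
          exact congrArg θ (Subtype.ext (map_mul (pcQ φ) x.val y.val)) }
    obtain ⟨y, hy1, hy2⟩ := pair_val Ψ ((rdq a b k).comp (Gam a b m₀).subtype) θ₀ x
    obtain ⟨l, hl⟩ := e₂.surjective x
    have hlx : ρ l = x.val := congrArg Subtype.val hl
    have h1 := hcmp R θ θ₀ (fun x h => rfl) l (hρm l)
    have h2 : (⟨ρ l, hρm l⟩ : Gam a b m₀) = x := Subtype.ext hlx
    rw [h2, ← hy2] at h1
    have h3 := hap l y.val y.2 h1.symm
    rw [hlx] at h3
    rw [h3, ← hy1, map_mul, map_mul, map_inv]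
    rfl
  · intro R _ _ θ₀
    obtain ⟨R', hR1, hR2, θ, hθ⟩ := Spsi_apx Φ (S.comap π) L (Spsi_fi π S) Ψ₀ hΨ₀ R
      (θ₀.comp e.symm.toMonoidHom)
    refine ⟨R', hR1, hR2, θ, fun x h l h' hx => ?_⟩
    have h1 := hθ ⟨⟨pcQ φ x.val, J.le x.val x.2⟩, hmem x.val x.2⟩ l hx
    rw [hΨ R θ₀ l h', h1]
    show θ₀ x = θ₀ (e.symm ⟨⟨pcQ φ x.val, J.le x.val x.2⟩, hmem x.val x.2⟩)
    rw [he]

end Pool.Agent.F8.CG
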