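import Pool.Agent.Lib.MP_305fdd_al.F8.CG.StmS

/-! # [CG S sd0] of MP_305fdd_al: the crossed homomorphism for the seeds -/

set_option autoImplicit false

namespace Pool.Agent.F8.CG

open Pool.Agent.F8.BG Pool.Agent.MP_305fdd_al Pool.Agent.Lib.MP_305fdd_al Pool.Agent.F8
open scoped QuadraticAlgebra ComplexConjugate

noncomputable section

private theorem Ssd0_iC_inj {a b : ℤ} (h : b ^ 2 + 4 * a < 0) (x : Qf a b ℤ)
    (hx : iC a b x = 0) : x = 0 := by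
  have him := wC_im h
  rw [iC_apply] at hx
  have h1 := congrArg Complex.im hx
  have h2 := congrArg Complex.re hx
  simp only [Complex.add_im, Complex.intCast_im, Complex.mul_im, Complex.intCast_re, zero_mul,
    add_zero, zero_add, Complex.zero_im] at h1
  simp only [Complex.add_re, Complex.intCast_re, Complex.mul_re, Complex.intCast_im, zero_mul,
    sub_zero, Complex.zero_re] at h2
  have h3 : (x.im : ℝ) = 0 := by
    rcases mul_eq_zero.1 h1 with h | h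
    · exact h
    · exact absurd h him.ne'
  rw [h3, zero_mul, add_zero] at h2
  have h4 : x.im = 0 := by exact_mod_cast h3
  have h5 : x.re = 0 := by exact_mod_cast h2
  ext
  · exact h5
  · exact h4

/-- an additive function on the ring -/
private theorem Ssd0_lin {a b : ℤ} (h : b ^ 2 + 4 * a < 0) (c : Qf a b ℤ → ℂ)
    (hc : ∀ s t, c (s + t) = c s + c t) :
    ∃ r₀ r₁ : ℂ, ∀ t, c t = r₀ * iC a b t + r₁ * conj (iC a b t) := by
  have hW : wC a b - conj (wC a b) ≠ 0 := by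
    intro h0
    have h1 := congrArg Complex.im h0
    rw [Complex.sub_im, Complex.conj_im, Complex.zero_im] at h1
    have := wC_im h
    linarith
  set C : Qf a b ℤ →+ ℂ := AddMonoidHom.mk' c hc with hC
  have hCt : ∀ t : Qf a b ℤ, c t = (t.re : ℂ) * c 1 + (t.im : ℂ) * c (wq a b ℤ) := by
    intro t
    have h1 : t = t.re • (1 : Qf a b ℤ) + t.im • wq a b ℤ := by
      ext <;> simp [wq]
    have h2 : C t = t.re • C 1 + t.im • C (wq a b ℤ) := by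
      conv_lhs => rw [h1]
      rw [map_add, map_zsmul, map_zsmul]
    rw [zsmul_eq_mul, zsmul_eq_mul] at h2
    exact h2
  refine ⟨c 1 - (wC a b * c 1 - c (wq a b ℤ)) / (wC a b - conj (wC a b)),
    (wC a b * c 1 - c (wq a b ℤ)) / (wC a b - conj (wC a b)), fun t => ?_⟩
  rw [hCt t, iC_apply, map_add, map_mul, map_intCast, map_intCast]
  field_simp
  ring

/-- `e = l • f`, `f` primitive, the second coordinate of `f` is congruent to the unit `u` -/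
private def Ssd0_P {a b : ℤ} (ν : Qf a b ℤ) (e : Fin 2 → Qf a b ℤ) (l : Qf a b ℤ)
    (f : Fin 2 → Qf a b ℤ) (u : Qf a b ℤ) : Prop :=
  e = l • f ∧ Prm f ∧ IsUnit u ∧ ν ∣ f 1 - u

private theorem Ssd0_ne {a b : ℤ} (h : b ^ 2 + 4 * a < 0) (hcg : CgF a b)
    {f : Fin 2 → Qf a b ℤ} (hf : Prm f) {l : Qf a b ℤ} (h0 : l • f = 0) : l = 0 := by
  have : IsDomain (Qf a b ℤ) := Qf_domain h
  obtain ⟨x, y, hxy⟩ := (hcg.cop f).1 hf
  have h1 : l * f 0 = 0 := congrFun h0 0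
  have h2 : l * f 1 = 0 := congrFun h0 1
  calc l = l * (x * f 0 + y * f 1) := by rw [hxy, mul_one]
    _ = x * (l * f 0) + y * (l * f 1) := by ring
    _ = 0 := by rw [h1, h2]; ring

private theorem Ssd0_uq {a b : ℤ} (h : b ^ 2 + 4 * a < 0) (hcg : CgF a b) (ν : Qf a b ℤ)
    (hu : ∀ u u' : Qf a b ℤ, IsUnit u → IsUnit u' → ν ∣ u - u' → u = u')
    {e : Fin 2 → Qf a b ℤ} {l l' : Qf a b ℤ} {f f' : Fin 2 → Qf a b ℤ} {u u' : Qf a b ℤ}
    (hP : Ssd0_P ν e l f u) (hP' : Ssd0_P ν e l' f' u') : l * u = l' * u' := by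
  obtain ⟨h1, h2, h3, h4⟩ := hP
  obtain ⟨h1', h2', h3', h4'⟩ := hP'
  by_cases hl : l = 0
  · have : l' = 0 := Ssd0_ne h hcg h2' (by rw [← h1', h1, hl, zero_smul])
    rw [hl, this, zero_mul, zero_mul]
  · obtain ⟨v, hv, hf', hl'⟩ := hcg.uni l l' f f' hl h2 h2' (by rw [← h1, ← h1'])
    have h5 : ν ∣ u' - v * u := by
      have e1 : f' 1 = v * f 1 := by rw [hf']; rfl
      have e2 : u' - v * u = v * (f 1 - u) - (f' 1 - u') := by rw [e1]; ring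
      rw [e2]
      exact dvd_sub (Dvd.dvd.mul_left h4 v) h4'
    have h6 := hu u' (v * u) h3' (hv.mul h3) h5
    rw [h6, hl']
    ring

private theorem Ssd0_fun {a b : ℤ} (h : b ^ 2 + 4 * a < 0) (hcg : CgF a b) (ν : Qf a b ℤ)
    (hu : ∀ u u' : Qf a b ℤ, IsUnit u → IsUnit u' → ν ∣ u - u' → u = u') :
    ∃ F : (Fin 2 → Qf a b ℤ) → ℂ, (∀ e l f u, Ssd0_P ν e l f u → F e = iC a b (l * u) ^ 3) ∧
      ∀ e, (¬ ∃ l f u, Ssd0_P ν e l f u) → F e = 0 := by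
  have key : ∀ e : Fin 2 → Qf a b ℤ, ∃ y : ℂ,
      (∀ l f u, Ssd0_P ν e l f u → y = iC a b (l * u) ^ 3) ∧
      ((¬ ∃ l f u, Ssd0_P ν e l f u) → y = 0) := by
    intro e
    by_cases he : ∃ l f u, Ssd0_P ν e l f u
    · obtain ⟨l, f, u, hP⟩ := he
      refine ⟨iC a b (l * u) ^ 3, fun l' f' u' hP' => ?_, fun hn => absurd ⟨l, f, u, hP⟩ hn⟩
      rw [Ssd0_uq h hcg ν hu hP hP']
    · exact ⟨0, fun l f u hP => absurd ⟨l, f, u, hP⟩ he, fun _ => rfl⟩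
  choose F hF using key
  exact ⟨F, fun e => (hF e).1, fun e => (hF e).2⟩

private theorem Ssd0_P01 {a b : ℤ} (hcg : CgF a b) (ν : Qf a b ℤ) :
    Ssd0_P ν ![0, 1] 1 ![0, 1] 1 := by
  refine ⟨(one_smul _ _).symm, (hcg.cop _).2 ?_, isUnit_one, ?_⟩
  · exact isCoprime_one_right
  · show ν ∣ 1 - 1
    rw [sub_self]
    exact dvd_zero _

private theorem Ssd0_P0 {a b : ℤ} (hcg : CgF a b) (ν : Qf a b ℤ) :
    Ssd0_P ν 0 0 ![0, 1] 1 := by
  obtain ⟨-, h2, h3, h4⟩ := Ssd0_P01 hcg ν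
  exact ⟨(zero_smul _ _).symm, h2, h3, h4⟩

private theorem Ssd0_Pact {a b : ℤ} (hcg : CgF a b) {ν : Qf a b ℤ} {g : GQ a b}
    (hg : g ∈ W1 ν) {e : Fin 2 → Qf a b ℤ} {l : Qf a b ℤ} {f : Fin 2 → Qf a b ℤ}
    {u : Qf a b ℤ} (hP : Ssd0_P ν e l f u) :
    Ssd0_P ν (g.val.mulVec e) l (g.val.mulVec f) u := by
  obtain ⟨h1, h2, h3, h4⟩ := hP
  obtain ⟨g1, g2, g3⟩ := hg
  refine ⟨by rw [h1, Matrix.mulVec_smul], hcg.act g f h2, h3, ?_⟩
  have e1 : g.val.mulVec f 1 = g.val 1 0 * f 0 + g.val 1 1 * f 1 := by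
    simp [Matrix.mulVec, dotProduct, Fin.sum_univ_two]
  have e2 : g.val.mulVec f 1 - u = g.val 1 0 * f 0 + (g.val 1 1 - 1) * f 1 + (f 1 - u) := by
    rw [e1]; ring
  rw [e2]
  exact dvd_add (dvd_add (Dvd.dvd.mul_right g1 _) (Dvd.dvd.mul_right g3 _)) h4

private theorem Ssd0_inv {a b : ℤ} (hcg : CgF a b) {ν : Qf a b ℤ}
    {F : (Fin 2 → Qf a b ℤ) → ℂ} (hF1 : ∀ e l f u, Ssd0_P ν e l f u → F e = iC a b (l * u) ^ 3)
    (hF2 : ∀ e, (¬ ∃ l f u, Ssd0_P ν e l f u) → F e = 0) :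
    ∀ w ∈ W1 ν, ∀ e, F (w.val.mulVec e) = F e := by
  intro w hw e
  by_cases he : ∃ l f u, Ssd0_P ν e l f u
  · obtain ⟨l, f, u, hP⟩ := he
    rw [hF1 _ _ _ _ hP, hF1 _ _ _ _ (Ssd0_Pact hcg hw hP)]
  · rw [hF2 e he, hF2]
    rintro ⟨l, f, u, hP⟩
    apply he
    have h1 := Ssd0_Pact hcg ((W1 ν).inv_mem hw) hP
    have h2 : (w⁻¹).val.mulVec (w.val.mulVec e) = e := by
      rw [Matrix.mulVec_mulVec, ← Matrix.SpecialLinearGroup.coe_mul, inv_mul_cancel,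
        Matrix.SpecialLinearGroup.coe_one, Matrix.one_mulVec]
    rw [h2] at h1
    exact ⟨_, _, _, h1⟩

private theorem Ssd0_hom {a b : ℤ} (h : b ^ 2 + 4 * a < 0) (hcg : CgF a b) {ν : Qf a b ℤ}
    {F : (Fin 2 → Qf a b ℤ) → ℂ} (hF1 : ∀ e l f u, Ssd0_P ν e l f u → F e = iC a b (l * u) ^ 3)
    (hF2 : ∀ e, (¬ ∃ l f u, Ssd0_P ν e l f u) → F e = 0) : Hom3 F := by
  intro l e
  by_cases he : ∃ l' f u, Ssd0_P ν e l' f u
  · obtain ⟨l', f, u, hP⟩ := he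
    have hP' : Ssd0_P ν (l • e) (l * l') f u := ⟨by rw [hP.1, smul_smul], hP.2⟩
    rw [hF1 _ _ _ _ hP, hF1 _ _ _ _ hP', ← mul_pow, ← map_mul]
    ring_nf
  · rw [hF2 e he, mul_zero]
    by_cases hl : l = 0
    · rw [hl, zero_smul, hF1 _ _ _ _ (Ssd0_P0 hcg ν)]
      simp
    · apply hF2
      rintro ⟨l', f, u, h1, h2, h3, h4⟩
      apply he
      have he0 : e ≠ 0 := by
        rintro rfl
        exact he ⟨_, _, _, Ssd0_P0 hcg ν⟩
      obtain ⟨l₁, f₁, hl₁, hf₁, hd⟩ := hcg.dec e he0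
      have : IsDomain (Qf a b ℤ) := Qf_domain h
      obtain ⟨v, hv, hf, -⟩ := hcg.uni (l * l₁) l' f₁ f (mul_ne_zero hl hl₁) hf₁ h2
        (by rw [← h1, hd, smul_smul])
      obtain ⟨v', hv'⟩ := hv.exists_left_inv
      have hv'u : IsUnit v' := IsUnit.of_mul_eq_one _ hv'
      refine ⟨l₁, f₁, v' * u, hd, hf₁, hv'u.mul h3, ?_⟩
      have e1 : f 1 = v * f₁ 1 := by rw [hf]; rfl
      have e2 : f₁ 1 - v' * u = v' * (f 1 - u) := by
        rw [e1]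
        linear_combination (-f₁ 1) * hv'
      rw [e2]
      exact Dvd.dvd.mul_left h4 v'

private theorem Ssd0_le {a b : ℤ} (hcg : CgF a b) {ν : Qf a b ℤ} {N : ℕ}
    (hN : ν ∣ (N : Qf a b ℤ)) : Gam a b N ≤ W1 ν := by
  intro w hw
  have h0 := hcg.gam N w hw ![1, 0]
  have h1 := hcg.gam N w hw ![0, 1]
  have e00 : w.val.mulVec ![1, 0] 0 - (![1, 0] : Fin 2 → Qf a b ℤ) 0 = w.val 0 0 - 1 := by
    simp [Matrix.mulVec, dotProduct, Fin.sum_univ_two]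
  have e10 : w.val.mulVec ![1, 0] 1 - (![1, 0] : Fin 2 → Qf a b ℤ) 1 = w.val 1 0 := by
    simp [Matrix.mulVec, dotProduct, Fin.sum_univ_two]
  have e11 : w.val.mulVec ![0, 1] 1 - (![0, 1] : Fin 2 → Qf a b ℤ) 1 = w.val 1 1 - 1 := by
    simp [Matrix.mulVec, dotProduct, Fin.sum_univ_two]
  refine ⟨?_, ?_, ?_⟩
  · rw [← e10]; exact hN.trans (h0 1)
  · rw [← e00]; exact hN.trans (h0 0)
  · rw [← e11]; exact hN.trans (h1 1)

private theorem Ssd0_eU {a b : ℤ} (ν t : Qf a b ℤ) : (eU t : GQ a b) ∈ W1 ν := by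
  refine ⟨?_, ?_, ?_⟩
  · show ν ∣ 0
    exact dvd_zero _
  · show ν ∣ 1 - 1
    rw [sub_self]
    exact dvd_zero _
  · show ν ∣ 1 - 1
    rw [sub_self]
    exact dvd_zero _

private theorem Ssd0_eV {a b : ℤ} (ν c : Qf a b ℤ) : (eV c : GQ a b) ∈ W1 ν ↔ ν ∣ c := by
  constructor
  · rintro ⟨h, -, -⟩
    exact h
  · intro h
    refine ⟨h, ?_, ?_⟩
    · show ν ∣ 1 - 1
      rw [sub_self]
      exact dvd_zero _
    · show ν ∣ 1 - 1
      rw [sub_self]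
      exact dvd_zero _

private theorem Ssd0_eV_tv {R : Type} [CommRing R] (c : R) :
    (eV c : SL2 R) = tv ![0, 1] (-c) := by
  apply Subtype.ext
  show (!![1, 0; c, 1] : Matrix (Fin 2) (Fin 2) R) = !![1 - (-c) * (![0, 1] : Fin 2 → R) 0 *
    (![0, 1] : Fin 2 → R) 1, (-c) * (![0, 1] : Fin 2 → R) 0 ^ 2;
      -((-c) * (![0, 1] : Fin 2 → R) 1 ^ 2), 1 + (-c) * (![0, 1] : Fin 2 → R) 0 *
        (![0, 1] : Fin 2 → R) 1]
  ext i j
  fin_cases i <;> fin_cases j <;> simp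

private theorem Ssd0_eU_add {R : Type} [CommRing R] (s t : R) :
    (eU (s + t) : SL2 R) = eU s * eU t := by
  apply Subtype.ext
  show (!![1, s + t; 0, 1] : Matrix (Fin 2) (Fin 2) R) = !![1, s; 0, 1] * !![1, t; 0, 1]
  ext i j
  fin_cases i <;> fin_cases j <;> simp [Matrix.mul_apply, Fin.sum_univ_two, add_comm]

private theorem Ssd0_eV_add {R : Type} [CommRing R] (s t : R) :
    (eV (s + t) : SL2 R) = eV s * eV t := by
  apply Subtype.ext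
  show (!![1, 0; s + t, 1] : Matrix (Fin 2) (Fin 2) R) = !![1, 0; s, 1] * !![1, 0; t, 1]
  ext i j
  fin_cases i <;> fin_cases j <;> simp [Matrix.mul_apply, Fin.sum_univ_two]

private theorem Ssd0_mvU {a b : ℤ} (s : Qf a b ℤ) (v : Fin 2 → ℂ) :
    (iG a b (eU s)).val.mulVec v = ![v 0 + iC a b s * v 1, v 1] := by
  have h : (iG a b (eU s)) = eU (iC a b s) := eU_map _ _
  rw [h]
  show (!![1, iC a b s; 0, 1] : Matrix (Fin 2) (Fin 2) ℂ).mulVec v = _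
  ext i
  fin_cases i <;> simp [Matrix.mulVec, dotProduct, Fin.sum_univ_two]

private theorem Ssd0_mvV {a b : ℤ} (s : Qf a b ℤ) (v : Fin 2 → ℂ) :
    (iG a b (eV s)).val.mulVec v = ![v 0, iC a b s * v 0 + v 1] := by
  have h : (iG a b (eV s)) = eV (iC a b s) := eV_map _ _
  rw [h]
  show (!![1, 0; iC a b s, 1] : Matrix (Fin 2) (Fin 2) ℂ).mulVec v = _
  ext i
  fin_cases i <;> simp [Matrix.mulVec, dotProduct, Fin.sum_univ_two]

theorem p_Ssd0 (hext : S_ext) : S_sd0 := by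
  intro a b hn hE hPID hcg M₀ hM₀ hLD ν hν hνu hu
  have hdom : IsDomain (Qf a b ℤ) := Qf_domain hn
  obtain ⟨F, hF1, hF2⟩ := Ssd0_fun hn hcg ν hu
  have hhom := Ssd0_hom hn hcg hF1 hF2
  have hinv := Ssd0_inv hcg hF1 hF2
  have hF10 : F ![1, 0] = 0 := by
    apply hF2
    rintro ⟨l, f, u, h1, -, h3, h4⟩
    have e0 : (1 : Qf a b ℤ) = l * f 0 := congrFun h1 0
    have e1 : (0 : Qf a b ℤ) = l * f 1 := congrFun h1 1
    have hl : l ≠ 0 := by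
      rintro rfl
      rw [zero_mul] at e0
      exact one_ne_zero e0
    have hf1 : f 1 = 0 := (mul_eq_zero.1 e1.symm).resolve_left hl
    rw [hf1, zero_sub] at h4
    exact hνu (isUnit_of_dvd_unit h4 h3.neg)
  have hF01 : F ![0, 1] = 1 := by
    rw [hF1 _ _ _ _ (Ssd0_P01 hcg ν)]
    simp
  -- the level
  have hnq : 0 < nq ν := lt_of_le_of_ne (nq_nonneg hn ν) fun h0 => hν (nq_eq_zero hn h0.symm)
  have hνN : ν ∣ (((nq ν).toNat * M₀ : ℕ) : Qf a b ℤ) := by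
    rw [Nat.cast_mul]
    refine Dvd.dvd.mul_right ?_ _
    refine ⟨cjq a b ℤ ν, ?_⟩
    rw [mul_cjq]
    have h1 : ((nq ν).toNat : ℤ) = nq ν := Int.toNat_of_nonneg hnq.le
    have h2 : (((nq ν).toNat : ℕ) : Qf a b ℤ) = (((nq ν).toNat : ℤ) : Qf a b ℤ) := by
      rw [Int.cast_natCast]
    rw [h2, h1]
    ext
    · simp
    · simp
  have hN0 : (nq ν).toNat * M₀ ≠ 0 := Nat.mul_ne_zero (by omega) hM₀
  set N : ℕ := (nq ν).toNat * M₀ with hN
  have hle : Gam a b N ≤ W1 ν := Ssd0_le hcg hνN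
  obtain ⟨Z, hZ, hZF⟩ := hext a b hn hE hPID M₀ hLD N hN0 ⟨_, mul_comm _ _⟩ (W1 ν) hle F hhom hinv
  have hZm : ∀ x y : W1 ν, Z (x * y) = Z x + (iG a b x.val).val.mulVec (Z y) := hZ
  -- the upper triangular elements
  have hU1 : ∀ t : Qf a b ℤ, Z ⟨eU t, Ssd0_eU ν t⟩ 1 = 0 := by
    intro t
    have h1 : tv ![1, 0] t ∈ W1 ν := by
      rw [← eU_eq_tv]
      exact Ssd0_eU ν t
    have h2 := hZF ![1, 0] t h1
    have h3 : (⟨tv ![1, 0] t, h1⟩ : W1 ν) = ⟨eU t, Ssd0_eU ν t⟩ :=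
      Subtype.ext (eU_eq_tv t).symm
    rw [h3, hF10, mul_zero] at h2
    simpa [om, vC] using h2
  obtain ⟨r₀, r₁, hr⟩ := Ssd0_lin hn (fun t => Z ⟨eU t, Ssd0_eU ν t⟩ 0) (by
    intro s t
    have h1 : (⟨eU (s + t), Ssd0_eU ν (s + t)⟩ : W1 ν)
        = ⟨eU s, Ssd0_eU ν s⟩ * ⟨eU t, Ssd0_eU ν t⟩ := Subtype.ext (Ssd0_eU_add s t)
    rw [h1, hZm, Ssd0_mvU]
    simp only [Pi.add_apply, Matrix.cons_val_zero]
    rw [hU1 t, mul_zero, add_zero])
  -- the lower triangular elements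
  have hV0 : ∀ (c : Qf a b ℤ) (h : eV c ∈ W1 ν), Z ⟨_, h⟩ 0 = iC a b c := by
    intro c h
    have h1 : tv ![0, 1] (-c) ∈ W1 ν := by
      rw [← Ssd0_eV_tv]
      exact h
    have h2 := hZF ![0, 1] (-c) h1
    have h3 : (⟨tv ![0, 1] (-c), h1⟩ : W1 ν) = ⟨eV c, h⟩ :=
      Subtype.ext (Ssd0_eV_tv c).symm
    rw [h3, hF01, mul_one] at h2
    simp only [om, vC, Matrix.cons_val_zero, Matrix.cons_val_one, map_zero, map_one, zero_mul,
      one_mul, zero_sub, map_neg, neg_inj] at h2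
    exact h2
  have hmem : ∀ t : Qf a b ℤ, (eV (ν * t) : GQ a b) ∈ W1 ν := fun t =>
    (Ssd0_eV ν _).2 (dvd_mul_right ν t)
  obtain ⟨s₀, s₁, hs⟩ := Ssd0_lin hn
    (fun t => Z ⟨eV (ν * t), hmem t⟩ 1 - iC a b (ν * t) ^ 2 / 2) (by
    intro s t
    have h1 : (⟨eV (ν * (s + t)), hmem (s + t)⟩ : W1 ν)
        = ⟨eV (ν * s), hmem s⟩ * ⟨eV (ν * t), hmem t⟩ := Subtype.ext (by
          show (eV (ν * (s + t)) : GQ a b) = eV (ν * s) * eV (ν * t)
          rw [mul_add, Ssd0_eV_add])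
    rw [h1, hZm, Ssd0_mvV]
    simp only [Pi.add_apply, Matrix.cons_val_one, Matrix.cons_val_fin_one]
    rw [hV0 _ (hmem t), mul_add, map_add]
    ring)
  have hνC : iC a b ν ≠ 0 := fun h0 => hν (Ssd0_iC_inj hn ν h0)
  have hνC' : conj (iC a b ν) ≠ 0 := (map_ne_zero _).2 hνC
  refine ⟨N, F, r₀, r₁, s₀ / iC a b ν, s₁ / conj (iC a b ν), hN0, ⟨hhom, hF10, ?_⟩, ?_, Z, hZ,
    ?_, ?_⟩
  · intro e f he hf hef
    obtain ⟨w, hw, hwe⟩ := hcg.cgr N e f he hf hef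
    rw [← hwe, hinv w (hle hw) e]
  · refine ⟨N, hN0, fun w => Z ⟨w.val, hle w.2⟩, ?_, ?_, r₀, ?_⟩
    · intro x y
      exact hZm ⟨x.val, hle x.2⟩ ⟨y.val, hle y.2⟩
    · intro e t h
      exact hZF e t (hle h)
    · intro t h
      show Z ⟨eU t, hle h⟩ = _
      ext i
      fin_cases i
      · exact hr t
      · exact hU1 t
  · intro t h
    ext i
    fin_cases i
    · exact hr t
    · exact hU1 t
  · intro c h
    obtain ⟨t, rfl⟩ := (Ssd0_eV ν c).1 h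
    ext i
    fin_cases i
    · exact hV0 _ h
    · have h1 := hs t
      show Z ⟨eV (ν * t), h⟩ 1 = iC a b (ν * t) ^ 2 / 2 + s₀ / iC a b ν * iC a b (ν * t) +
        s₁ / conj (iC a b ν) * conj (iC a b (ν * t))
      have h2 : Z ⟨eV (ν * t), h⟩ 1 = iC a b (ν * t) ^ 2 / 2 +
          (s₀ * iC a b t + s₁ * conj (iC a b t)) := by
        rw [← h1]
        ring
      rw [h2, map_mul (iC a b), map_mul (starRingEnd ℂ)]
      field_simp
      ring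

end

end Pool.Agent.F8.CG
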