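import Pool.Agent.Lib.MP_305fdd_al.F8.CG.StmS

/-!
# MP_305fdd_al: [CG S sd2] the seeds for `d = 7, 11`
-/

set_option autoImplicit false

namespace Pool.Agent.F8.CG

open Pool.Agent.F8.BG Pool.Agent.MP_305fdd_al Pool.Agent.Lib.MP_305fdd_al Pool.Agent.F8
open scoped QuadraticAlgebra ComplexConjugate

noncomputable section

private theorem Ssd2_conj {a b : ℤ} (hn : b ^ 2 + 4 * a < 0) :
    conj (wC a b) = (b : ℂ) - wC a b := by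
  rw [wC_eq hn, map_add, map_mul, Complex.conj_ofReal, Complex.conj_ofReal, Complex.conj_I]
  push_cast
  ring

private theorem Ssd2_iCc {a b : ℤ} (hn : b ^ 2 + 4 * a < 0) (x y : ℤ) :
    conj (iC a b ⟨x, y⟩) = (x : ℂ) + (y : ℂ) * ((b : ℂ) - wC a b) := by
  have h : iC a b ⟨x, y⟩ = (x : ℂ) + (y : ℂ) * wC a b := rfl
  rw [h, map_add, map_mul, Ssd2_conj hn, map_intCast, map_intCast]

private theorem Ssd2_memU {a b : ℤ} (ν t : Qf a b ℤ) : eU t ∈ W1 ν := by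
  refine ⟨?_, ?_, ?_⟩
  · show ν ∣ 0
    exact dvd_zero _
  · show ν ∣ 1 - 1
    rw [sub_self]
    exact dvd_zero _
  · show ν ∣ 1 - 1
    rw [sub_self]
    exact dvd_zero _

private theorem Ssd2_memV {a b : ℤ} (ν c : Qf a b ℤ) (h : ν ∣ c) : eV c ∈ W1 ν := by
  refine ⟨?_, ?_, ?_⟩
  · show ν ∣ c
    exact h
  · show ν ∣ 1 - 1
    rw [sub_self]
    exact dvd_zero _
  · show ν ∣ 1 - 1
    rw [sub_self]
    exact dvd_zero _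

private theorem Ssd2_U {a b : ℤ} (hn : b ^ 2 + 4 * a < 0) {ν : Qf a b ℤ}
    {Z : W1 ν → Fin 2 → ℂ} (hZ : Z ∈ Z1C (W1 ν).subtype) {r₀ r₁ : ℂ}
    (hU : ∀ (t : Qf a b ℤ) (h : eU t ∈ W1 ν), Z ⟨_, h⟩ =
      ![r₀ * iC a b t + r₁ * conj (iC a b t), 0]) (x y : ℤ) (g : W1 ν) (p q : ℂ)
    (hg : Z g = ![p, q]) :
    Z (⟨eU ⟨x, y⟩, Ssd2_memU ν _⟩ * g) = ![r₀ * ((x : ℂ) + (y : ℂ) * wC a b) +
      r₁ * ((x : ℂ) + (y : ℂ) * ((b : ℂ) - wC a b)) + p +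
      ((x : ℂ) + (y : ℂ) * wC a b) * q, q] := by
  have h1 : Z (⟨eU ⟨x, y⟩, Ssd2_memU ν _⟩ * g) = Z ⟨eU ⟨x, y⟩, Ssd2_memU ν _⟩ +
      (iG a b ((W1 ν).subtype ⟨eU ⟨x, y⟩, Ssd2_memU ν _⟩)).val.mulVec (Z g) := hZ _ _
  have h2 : iG a b ((W1 ν).subtype ⟨eU ⟨x, y⟩, Ssd2_memU ν _⟩) =
      eU ((x : ℂ) + (y : ℂ) * wC a b) := eU_map _ _
  have h3 : (eU ((x : ℂ) + (y : ℂ) * wC a b)).val =
      !![1, (x : ℂ) + (y : ℂ) * wC a b; 0, 1] := rfl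
  have h4 : iC a b ⟨x, y⟩ = (x : ℂ) + (y : ℂ) * wC a b := rfl
  rw [h1, hU, hg, h2, h3, Ssd2_iCc hn, h4]
  ext i
  fin_cases i
  · simp
    ring
  · simp

private theorem Ssd2_V {a b : ℤ} (hn : b ^ 2 + 4 * a < 0) {ν : Qf a b ℤ}
    {Z : W1 ν → Fin 2 → ℂ} (hZ : Z ∈ Z1C (W1 ν).subtype) {s₀ s₁ : ℂ}
    (hV : ∀ (c : Qf a b ℤ) (h : eV c ∈ W1 ν), Z ⟨_, h⟩ =
      ![iC a b c, iC a b c ^ 2 / 2 + s₀ * iC a b c + s₁ * conj (iC a b c)]) (x y : ℤ)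
    (hd : ν ∣ (⟨x, y⟩ : Qf a b ℤ)) (g : W1 ν) (p q : ℂ) (hg : Z g = ![p, q]) :
    Z (⟨eV ⟨x, y⟩, Ssd2_memV ν _ hd⟩ * g) = ![((x : ℂ) + (y : ℂ) * wC a b) + p,
      ((x : ℂ) + (y : ℂ) * wC a b) ^ 2 / 2 + s₀ * ((x : ℂ) + (y : ℂ) * wC a b) +
      s₁ * ((x : ℂ) + (y : ℂ) * ((b : ℂ) - wC a b)) + ((x : ℂ) + (y : ℂ) * wC a b) * p + q] := by
  have h1 : Z (⟨eV ⟨x, y⟩, Ssd2_memV ν _ hd⟩ * g) = Z ⟨eV ⟨x, y⟩, Ssd2_memV ν _ hd⟩ +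
      (iG a b ((W1 ν).subtype ⟨eV ⟨x, y⟩, Ssd2_memV ν _ hd⟩)).val.mulVec (Z g) := hZ _ _
  have h2 : iG a b ((W1 ν).subtype ⟨eV ⟨x, y⟩, Ssd2_memV ν _ hd⟩) =
      eV ((x : ℂ) + (y : ℂ) * wC a b) := eV_map _ _
  have h3 : (eV ((x : ℂ) + (y : ℂ) * wC a b)).val =
      !![1, 0; (x : ℂ) + (y : ℂ) * wC a b, 1] := rfl
  have h4 : iC a b ⟨x, y⟩ = (x : ℂ) + (y : ℂ) * wC a b := rfl
  rw [h1, hV, hg, h2, h3, Ssd2_iCc hn, h4]
  ext i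
  fin_cases i
  · simp
  · simp
    ring

private theorem Ssd2_one {a b : ℤ} {ν : Qf a b ℤ}
    {Z : W1 ν → Fin 2 → ℂ} (hZ : Z ∈ Z1C (W1 ν).subtype) : Z 1 = ![0, 0] := by
  have h1 : Z (1 * 1) = Z 1 + (iG a b ((W1 ν).subtype 1)).val.mulVec (Z 1) := hZ _ _
  rw [mul_one, map_one, map_one] at h1
  have h2 : ((1 : SL2 ℂ).val : Matrix (Fin 2) (Fin 2) ℂ) = 1 := rfl
  rw [h2, Matrix.one_mulVec] at h1
  have h3 : Z 1 = 0 := by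
    exact left_eq_add.1 h1
  rw [h3]
  ext i
  fin_cases i <;> rfl

private theorem Ssd2_w {a b : ℤ} (ha : (a = -2 ∧ b = -1) ∨ (a = -3 ∧ b = 1)) (u : Qf a b ℤ)
    (hu : IsUnit u) : u.im = 0 ∧ (u.re = 1 ∨ u.re = -1) := by
  have hn : b ^ 2 + 4 * a < 0 := by
    rcases ha with ⟨rfl, rfl⟩ | ⟨rfl, rfl⟩ <;> norm_num
  obtain ⟨v, hv⟩ := hu.exists_right_inv
  have h1 : nq u * nq v = 1 := by
    rw [← nq_mul, hv]
    simp [nq]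
  have h2 : nq u = 1 := by
    have h3 := nq_nonneg hn u
    rcases Int.eq_one_or_neg_one_of_mul_eq_one h1 with h | h
    · exact h
    · omega
  rw [nq] at h2
  have h4 : u.im = 0 := by
    rcases ha with ⟨rfl, rfl⟩ | ⟨rfl, rfl⟩
    · push_cast at h2
      by_contra h
      have h5 : 1 ≤ u.im ^ 2 := by
        have := sq_pos_of_ne_zero h
        omega
      nlinarith [sq_nonneg (2 * u.re - u.im)]
    · push_cast at h2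
      by_contra h
      have h5 : 1 ≤ u.im ^ 2 := by
        have := sq_pos_of_ne_zero h
        omega
      nlinarith [sq_nonneg (2 * u.re + u.im)]
  refine ⟨h4, ?_⟩
  rw [h4] at h2
  have h5 : (u.re - 1) * (u.re + 1) = 0 := by
    linear_combination h2
  rcases mul_eq_zero.1 h5 with h | h
  · left
    omega
  · right
    omega

private theorem Ssd2_dist {a b : ℤ} (ha : (a = -2 ∧ b = -1) ∨ (a = -3 ∧ b = 1)) (ν : Qf a b ℤ)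
    (h2 : ¬ ν ∣ (⟨2, 0⟩ : Qf a b ℤ)) (u u' : Qf a b ℤ) (hu : IsUnit u) (hu' : IsUnit u')
    (hd : ν ∣ u - u') : u = u' := by
  obtain ⟨h3, h4⟩ := Ssd2_w ha u hu
  obtain ⟨h5, h6⟩ := Ssd2_w ha u' hu'
  rcases h4 with h4 | h4 <;> rcases h6 with h6 | h6
  · exact QuadraticAlgebra.ext (h4.trans h6.symm) (h3.trans h5.symm)
  · exfalso
    apply h2
    have h7 : u - u' = ⟨2, 0⟩ := by
      apply QuadraticAlgebra.ext
      · rw [QuadraticAlgebra.re_sub, h4, h6]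
        rfl
      · rw [QuadraticAlgebra.im_sub, h3, h5]
        rfl
    rw [← h7]
    exact hd
  · exfalso
    apply h2
    have h7 : -(u - u') = ⟨2, 0⟩ := by
      apply QuadraticAlgebra.ext
      · rw [QuadraticAlgebra.re_neg, QuadraticAlgebra.re_sub, h4, h6]
        rfl
      · rw [QuadraticAlgebra.im_neg, QuadraticAlgebra.im_sub, h3, h5]
        rfl
    rw [← h7]
    exact (dvd_neg).2 hd
  · exact QuadraticAlgebra.ext (h4.trans h6.symm) (h3.trans h5.symm)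

theorem p_Ssd2 (h0 : S_sd0) : S_sd2 := by
  intro a b hab hE hP hC M₀ hM hL
  have hn : b ^ 2 + 4 * a < 0 := by
    rcases hab with ⟨rfl, rfl⟩ | ⟨rfl, rfl⟩ <;> norm_num
  have hW := wC_mul a b
  have hIm := wC_im hn
  have hab' := hab
  rcases hab with ⟨rfl, rfl⟩ | ⟨rfl, rfl⟩
  · obtain ⟨N, F, r₀, r₁, s₀, s₁, hN, hFN, hSF, Z, hZ, hU, hV⟩ := h0 (-2) (-1) hn hE hP hC M₀ hM
      hL ⟨1, -1⟩ (by
        intro h
        have := congrArg QuadraticAlgebra.re h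
        simp at this) (by
        intro h
        have := (Ssd2_w hab' _ h).1
        simp at this) (Ssd2_dist hab' _ (by
        rintro ⟨x, hx⟩
        have h1 := congrArg QuadraticAlgebra.re hx
        have h2 := congrArg QuadraticAlgebra.im hx
        rw [QuadraticAlgebra.re_mul] at h1
        rw [QuadraticAlgebra.im_mul] at h2
        simp at h1 h2
        omega))
    have hd1 : (⟨1, -1⟩ : Qf (-2) (-1) ℤ) ∣ ⟨1, -1⟩ := dvd_refl _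
    have hd2 : (⟨1, -1⟩ : Qf (-2) (-1) ℤ) ∣ ⟨3, 1⟩ := ⟨⟨1, 1⟩, by
      apply QuadraticAlgebra.ext <;> rfl⟩
    have c0 := Ssd2_one hZ
    have c1 := Ssd2_V hn hZ hV 3 1 hd2 _ _ _ c0
    have c2 := Ssd2_U hn hZ hU (-1) 0 _ _ _ c1
    have c3 := Ssd2_V hn hZ hV 1 (-1) hd1 _ _ _ c2
    have c4 := Ssd2_U hn hZ hU (-1) (-1) _ _ _ c3
    have c5 := Ssd2_V hn hZ hV 1 (-1) hd1 _ _ _ c4
    have c6 := Ssd2_U hn hZ hU (-1) 0 _ _ _ c5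
    have hrel : (eU ⟨-1, 0⟩ * (eV ⟨1, -1⟩ * (eU ⟨-1, -1⟩ * (eV ⟨1, -1⟩ * (eU ⟨-1, 0⟩ *
        (eV ⟨3, 1⟩ * 1))))) : GQ (-2) (-1)) = 1 := by
      apply Subtype.ext
      ext i j
      · fin_cases i <;> fin_cases j <;> rfl
      · fin_cases i <;> fin_cases j <;> rfl
    have e : ∀ g : W1 (⟨1, -1⟩ : Qf (-2) (-1) ℤ), (g : GQ (-2) (-1)) = 1 → Z g = ![0, 0] :=
      fun g hg => by
        rw [← c0]
        exact congrArg Z (Subtype.ext hg)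
    have e1 := congrFun (c6.symm.trans (e _ hrel)) 0
    simp only [Matrix.cons_val_zero] at e1
    push_cast at e1 hW
    have e2 : -1 * wC (-2) (-1) * r₁ + 2 * wC (-2) (-1) - 4 * r₁ + 6 = 0 := by
      linear_combination e1 - ((-1/2) * wC (-2) (-1) ^ 3 - 1 * wC (-2) (-1) ^ 2 * s₀ +
        1 * wC (-2) (-1) ^ 2 * s₁ + (-5/2) * wC (-2) (-1) ^ 2 - 1 * wC (-2) (-1) * r₀ -
        1 * wC (-2) (-1) * r₁ - 2 * wC (-2) (-1) * s₀ - 3 * wC (-2) (-1) * s₁ +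
        (-3/2) * wC (-2) (-1) + 2 * r₁ - 1 * s₀ - 2 * s₁ + (-9/2)) * hW
    refine ⟨N, F, r₁, hN, hFN, fun e _ _ => isCoprime_one_right, hSF, ?_⟩
    intro h
    rw [h] at e2
    have e3 := congrArg Complex.im e2
    simp at e3
    linarith
  · obtain ⟨N, F, r₀, r₁, s₀, s₁, hN, hFN, hSF, Z, hZ, hU, hV⟩ := h0 (-3) 1 hn hE hP hC M₀ hM
      hL ⟨0, 1⟩ (by
        intro h
        have := congrArg QuadraticAlgebra.im h
        simp at this) (by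
        intro h
        have := (Ssd2_w hab' _ h).1
        simp at this) (Ssd2_dist hab' _ (by
        rintro ⟨x, hx⟩
        have h1 := congrArg QuadraticAlgebra.re hx
        have h2 := congrArg QuadraticAlgebra.im hx
        rw [QuadraticAlgebra.re_mul] at h1
        rw [QuadraticAlgebra.im_mul] at h2
        simp at h1 h2
        omega))
    have hd1 : (⟨0, 1⟩ : Qf (-3) 1 ℤ) ∣ ⟨0, 1⟩ := dvd_refl _
    have hd2 : (⟨0, 1⟩ : Qf (-3) 1 ℤ) ∣ ⟨0, -1⟩ := ⟨⟨-1, 0⟩, by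
      apply QuadraticAlgebra.ext <;> rfl⟩
    have hd3 : (⟨0, 1⟩ : Qf (-3) 1 ℤ) ∣ ⟨3, -1⟩ := ⟨⟨0, -1⟩, by
      apply QuadraticAlgebra.ext <;> rfl⟩
    have c0 := Ssd2_one hZ
    have c1 := Ssd2_V hn hZ hV 3 (-1) hd3 _ _ _ c0
    have c2 := Ssd2_U hn hZ hU (-1) 0 _ _ _ c1
    have c3 := Ssd2_V hn hZ hV 0 1 hd1 _ _ _ c2
    have c4 := Ssd2_U hn hZ hU 1 0 _ _ _ c3
    have c5 := Ssd2_V hn hZ hV 0 (-1) hd2 _ _ _ c4
    have c6 := Ssd2_U hn hZ hU 0 (-1) _ _ _ c5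
    have c7 := Ssd2_V hn hZ hV 0 (-1) hd2 _ _ _ c6
    have c8 := Ssd2_U hn hZ hU 1 0 _ _ _ c7
    have c9 := Ssd2_V hn hZ hV 0 1 hd1 _ _ _ c8
    have c10 := Ssd2_U hn hZ hU (-1) 0 _ _ _ c9
    have hrel : (eU ⟨-1, 0⟩ * (eV ⟨0, 1⟩ * (eU ⟨1, 0⟩ * (eV ⟨0, -1⟩ * (eU ⟨0, -1⟩ *
        (eV ⟨0, -1⟩ * (eU ⟨1, 0⟩ * (eV ⟨0, 1⟩ * (eU ⟨-1, 0⟩ * (eV ⟨3, -1⟩ * 1))))))))) :
        GQ (-3) 1) = 1 := by
      apply Subtype.ext
      ext i j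
      · fin_cases i <;> fin_cases j <;> rfl
      · fin_cases i <;> fin_cases j <;> rfl
    have e : ∀ g : W1 (⟨0, 1⟩ : Qf (-3) 1 ℤ), (g : GQ (-3) 1) = 1 → Z g = ![0, 0] :=
      fun g hg => by
        rw [← c0]
        exact congrArg Z (Subtype.ext hg)
    have e1 := congrFun (c10.symm.trans (e _ hrel)) 0
    simp only [Matrix.cons_val_zero] at e1
    push_cast at e1 hW
    have e2 : -4 * wC (-3) 1 * r₁ + 2 * wC (-3) 1 + 2 * r₁ + 3 = 0 := by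
      linear_combination e1 - ((-1/2) * wC (-3) 1 ^ 5 + 1 * wC (-3) 1 ^ 4 * s₀ -
        1 * wC (-3) 1 ^ 4 * s₁ + 3 * wC (-3) 1 ^ 4 - 1 * wC (-3) 1 ^ 3 * r₀ -
        1 * wC (-3) 1 ^ 3 * r₁ - 3 * wC (-3) 1 ^ 3 * s₀ - 2 * wC (-3) 1 ^ 3 * s₁ -
        5 * wC (-3) 1 ^ 3 + 1 * wC (-3) 1 ^ 2 * r₀ + 1 * wC (-3) 1 ^ 2 * r₁ +
        4 * wC (-3) 1 ^ 2 * s₀ + 2 * wC (-3) 1 ^ 2 * s₁ + (15/2) * wC (-3) 1 ^ 2 -
        1 * wC (-3) 1 * r₀ + 1 * wC (-3) 1 * r₁ - 3 * wC (-3) 1 * s₀ - 2 * wC (-3) 1 * s₁ +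
        (-11/2) * wC (-3) 1 - 1 * r₁) * hW
    refine ⟨N, F, r₁, hN, hFN, fun e _ _ => isCoprime_one_right, hSF, ?_⟩
    intro h
    rw [h] at e2
    have e3 := congrArg Complex.im e2
    simp at e3
    linarith

end

end Pool.Agent.F8.CG
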