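import Pool.Agent.Lib.MP_305fdd_al.F8.CG.StmS
import Pool.Agent.Lib.MP_305fdd_al.F8.CG.P_Vtv
import Pool.Agent.Lib.MP_305fdd_al.F8.BG.P_con
import Pool.Agent.Lib.MP_305fdd_al.F8.BG.P_E

/-!
# MP_305fdd_al, congruence subgroups: piece [CG Ssfe], existence for `SF`
-/

set_option autoImplicit false

namespace Pool.Agent.F8.CG

open Pool.Agent.F8.BG Pool.Agent.MP_305fdd_al Pool.Agent.Lib.MP_305fdd_al Pool.Agent.F8
open scoped QuadraticAlgebra ComplexConjugate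

noncomputable section

private theorem Ssfe_dvd {a b : ℤ} {M : ℕ} {t : Qf a b ℤ} (h : eU t ∈ Gam a b M) :
    (M : Qf a b ℤ) ∣ t := by
  have h1 : rdq a b M (eU t) = 1 := h
  have h2 : Qfm a b (Int.castRingHom (ZMod M)) ((eU t : GQ a b).val 0 1) =
      (1 : Matrix (Fin 2) (Fin 2) (Qf a b (ZMod M))) 0 1 :=
    congrArg (fun y : SL2 (Qf a b (ZMod M)) => y.val 0 1) h1
  apply E_ker a b M
  have h3 : (eU t : GQ a b).val 0 1 = t := rfl
  rw [h3] at h2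
  rw [h2]
  exact Matrix.one_apply_ne (by decide)

private theorem Ssfe_iG {a b : ℤ} (x : Qf a b ℤ) :
    (iG a b (eU x)).val = !![1, iC a b x; 0, 1] := by
  show (!![1, x; 0, 1] : Matrix (Fin 2) (Fin 2) (Qf a b ℤ)).map (iC a b) = _
  ext i j
  fin_cases i <;> fin_cases j <;> simp

theorem p_Ssfe (h1 : S_h1) : S_sfe := by
  intro a b hn hE hP H M₀ hM₀ hLD N F hN hF
  have hN' : N * M₀ ≠ 0 := mul_ne_zero hN hM₀
  obtain ⟨z, hz, hzF⟩ := h1 a b hn hE hP M₀ hLD (N * M₀) hN' (dvd_mul_left M₀ N) F hF.hom (by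
    intro w hw e
    have hwN : w ∈ Gam a b N := con_red (dvd_mul_right N M₀) hw
    by_cases he : e = 0
    · rw [he, Matrix.mulVec_zero]
    · obtain ⟨l, f, hl, hf, rfl⟩ := H.dec e he
      rw [Matrix.mulVec_smul, hF.hom, hF.hom, hF.lev _ _ (H.act w f hf) hf (H.gam N w hwN f)])
  obtain ⟨M, hM⟩ : ∃ M : ℕ, M = N * M₀ := ⟨_, rfl⟩
  rw [← hM] at hN'
  subst hM
  generalize hMM : N * M₀ = M at z hz hzF hN'
  have hz' : ∀ x y : Gam a b M, z (x * y) = z x + (iG a b x.val).val.mulVec (z y) := hz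
  have hp1 : ∀ s : Qf a b ℤ, z (uD M (dvd_refl M) ![1, 0] s) 1 = 0 := by
    intro s
    have h2 := hzF ![1, 0] _ (tv_mem (dvd_refl M) ![1, 0] s)
    rw [hF.inf, mul_zero] at h2
    have h3 : om (vC a b ![1, 0]) (z (uD M (dvd_refl M) ![1, 0] s)) =
        z (uD M (dvd_refl M) ![1, 0] s) 1 := by
      show iC a b 1 * _ - iC a b 0 * _ = _
      rw [map_one, map_zero, one_mul, zero_mul, sub_zero]
    rw [← h3]
    exact h2
  have hadd : ∀ s t : Qf a b ℤ, z (uD M (dvd_refl M) ![1, 0] (s + t)) 0 =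
      z (uD M (dvd_refl M) ![1, 0] s) 0 + z (uD M (dvd_refl M) ![1, 0] t) 0 := by
    intro s t
    have h2 : uD M (dvd_refl M) ![1, 0] (s + t) =
        uD M (dvd_refl M) ![1, 0] s * uD M (dvd_refl M) ![1, 0] t := by
      apply Subtype.ext
      show tv ![1, 0] ((M : Qf a b ℤ) * (s + t)) = tv ![1, 0] _ * tv ![1, 0] _
      rw [mul_add]
      exact (p_Vtv (Qf a b ℤ) ![1, 0] _ _).2.1
    rw [h2, hz']
    have h3 : (uD M (dvd_refl M) ![1, 0] s : Gam a b M).val = eU ((M : Qf a b ℤ) * s) :=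
      (eU_eq_tv _).symm
    rw [h3, Ssfe_iG]
    simp only [Pi.add_apply, Matrix.mulVec, dotProduct, Fin.sum_univ_two, Matrix.of_apply,
      Matrix.cons_val_zero, Matrix.cons_val_one, one_mul]
    rw [hp1 t, mul_zero, add_zero]
  obtain ⟨c, hc⟩ : ∃ c : Qf a b ℤ →+ ℂ, ∀ s, c s = z (uD M (dvd_refl M) ![1, 0] s) 0 :=
    ⟨AddMonoidHom.mk' (fun s => z (uD M (dvd_refl M) ![1, 0] s) 0) hadd, fun s => rfl⟩
  have hc2 : ∀ s : Qf a b ℤ, c s = (s.re : ℂ) * c 1 + (s.im : ℂ) * c (wq a b ℤ) := by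
    intro s
    have hs : s = s.re • (1 : Qf a b ℤ) + s.im • wq a b ℤ := by
      ext
      · simp [wq]
      · simp [wq]
    conv_lhs => rw [hs]
    rw [map_add, map_zsmul, map_zsmul, zsmul_eq_mul, zsmul_eq_mul]
  have hMc : (M : ℂ) ≠ 0 := Nat.cast_ne_zero.2 hN'
  have k4 : conj (wC a b) - wC a b ≠ 0 := by
    intro h0
    have h6 := congrArg Complex.im h0
    simp only [Complex.sub_im, Complex.conj_im, Complex.zero_im] at h6
    have := wC_im hn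
    linarith
  obtain ⟨r, hr⟩ : ∃ r : ℂ, r * (M * (conj (wC a b) - wC a b)) = c (wq a b ℤ) - wC a b * c 1 :=
    ⟨(c (wq a b ℤ) - wC a b * c 1) / (M * (conj (wC a b) - wC a b)),
      div_mul_cancel₀ _ (mul_ne_zero hMc k4)⟩
  obtain ⟨r₀, hr₀⟩ : ∃ r₀ : ℂ, r₀ * M = c 1 - r * M :=
    ⟨(c 1 - r * M) / M, div_mul_cancel₀ _ hMc⟩
  refine ⟨r, M, hN', z, hz, hzF, r₀, ?_⟩
  intro t h
  obtain ⟨s, rfl⟩ := Ssfe_dvd h
  have h2 : (⟨eU ((M : Qf a b ℤ) * s), h⟩ : Gam a b M) = uD M (dvd_refl M) ![1, 0] s :=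
    Subtype.ext (eU_eq_tv _)
  rw [h2]
  ext i
  fin_cases i
  · show z (uD M (dvd_refl M) ![1, 0] s) 0 =
      r₀ * iC a b ((M : Qf a b ℤ) * s) + r * conj (iC a b ((M : Qf a b ℤ) * s))
    rw [← hc, hc2, map_mul, map_natCast, iC_apply]
    simp only [map_mul, map_add, map_natCast, map_intCast]
    linear_combination (-((s.re : ℂ) + (s.im : ℂ) * wC a b)) * hr₀ - (s.im : ℂ) * hr
  · exact hp1 s

end

end Pool.Agent.F8.CG
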