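import Pool.Agent.Lib.MP_305fdd_al.F8.CG.StmS

/-!
# MP_305fdd_al, congruence subgroups: the action of diagonal matrices on `SF` (piece Ssfg)
-/

set_option autoImplicit false

namespace Pool.Agent.F8.CG

open Pool.Agent.F8.BG Pool.Agent.MP_305fdd_al Pool.Agent.Lib.MP_305fdd_al Pool.Agent.F8
open scoped QuadraticAlgebra ComplexConjugate

noncomputable section

private theorem Ssfg_inj {a b : ℤ} (h : b ^ 2 + 4 * a < 0) (x : Qf a b ℤ)
    (hx : iC a b x = 0) : x = 0 := by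
  have him := wC_im h
  rw [iC_apply] at hx
  have h1 := congrArg Complex.im hx
  have h2 := congrArg Complex.re hx
  simp only [Complex.add_im, Complex.intCast_im, Complex.mul_im, Complex.intCast_re, zero_mul,
    add_zero, zero_add, Complex.zero_im] at h1
  simp only [Complex.add_re, Complex.intCast_re, Complex.mul_re, Complex.intCast_im, zero_mul,
    sub_zero, Complex.zero_re] at h2
  have h3 : (x.im : ℝ) = 0 := by
    rcases mul_eq_zero.1 h1 with h | h
    · exact h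
    · exact absurd h him.ne'
  rw [h3, zero_mul, add_zero] at h2
  have h4 : x.im = 0 := by exact_mod_cast h3
  have h5 : x.re = 0 := by exact_mod_cast h2
  ext
  · exact h5
  · exact h4

private theorem Ssfg_mem {a b : ℤ} {N : ℕ} (x : GQ a b) (h00 : (N : Qf a b ℤ) ∣ x.val 0 0 - 1)
    (h01 : (N : Qf a b ℤ) ∣ x.val 0 1) (h10 : (N : Qf a b ℤ) ∣ x.val 1 0)
    (h11 : (N : Qf a b ℤ) ∣ x.val 1 1 - 1) : x ∈ Gam a b N := by
  have h0 : ∀ y : Qf a b ℤ, (N : Qf a b ℤ) ∣ y →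
      Qfm a b (Int.castRingHom (ZMod N)) y = 0 := by
    rintro y ⟨c, rfl⟩
    exact Qfm_natCast N c
  have h1 : ∀ y : Qf a b ℤ, (N : Qf a b ℤ) ∣ y - 1 →
      Qfm a b (Int.castRingHom (ZMod N)) y = 1 := by
    intro y hy
    have := h0 _ hy
    rw [map_sub, map_one, sub_eq_zero] at this
    exact this
  show SLm (Qfm a b (Int.castRingHom (ZMod N))) x = 1
  apply Subtype.ext
  apply Matrix.ext
  intro i k
  show Qfm a b (Int.castRingHom (ZMod N)) (x.val i k) =
    (1 : Matrix (Fin 2) (Fin 2) (Qf a b (ZMod N))) i k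
  fin_cases i <;> fin_cases k
  · exact h1 _ h00
  · exact h0 _ h01
  · exact h0 _ h10
  · exact h1 _ h11

private theorem Ssfg_of_mem {a b : ℤ} {N : ℕ} {x : GQ a b} (hx : x ∈ Gam a b N) :
    (N : Qf a b ℤ) ∣ x.val 0 0 - 1 ∧ (N : Qf a b ℤ) ∣ x.val 0 1 ∧ (N : Qf a b ℤ) ∣ x.val 1 0 ∧
    (N : Qf a b ℤ) ∣ x.val 1 1 - 1 := by
  have h1 : rdq a b N x = 1 := hx
  have h2 : ∀ i k, Qfm a b (Int.castRingHom (ZMod N)) (x.val i k) =
      (1 : Matrix (Fin 2) (Fin 2) (Qf a b (ZMod N))) i k := fun i k => by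
    have h3 := congrArg (fun y : SL2 (Qf a b (ZMod N)) => y.val i k) h1
    exact h3
  refine ⟨E_ker a b N _ ?_, E_ker a b N _ ?_, E_ker a b N _ ?_, E_ker a b N _ ?_⟩
  · rw [map_sub, h2, map_one, Matrix.one_apply_eq, sub_self]
  · rw [h2, Matrix.one_apply_ne (by decide)]
  · rw [h2, Matrix.one_apply_ne (by decide)]
  · rw [map_sub, h2, map_one, Matrix.one_apply_eq, sub_self]

private theorem Ssfg_om {a b : ℤ} (l : Qf a b ℤ) (e : Fin 2 → Qf a b ℤ) (v : Fin 2 → ℂ) :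
    om (vC a b (l • e)) v = iC a b l * om (vC a b e) v := by
  show iC a b ((l • e) 0) * v 1 - iC a b ((l • e) 1) * v 0 =
    iC a b l * (iC a b (e 0) * v 1 - iC a b (e 1) * v 0)
  rw [Pi.smul_apply, Pi.smul_apply, smul_eq_mul, smul_eq_mul, map_mul, map_mul]
  ring

private theorem Ssfg_tv {a b : ℤ} (l : Qf a b ℤ) (e : Fin 2 → Qf a b ℤ) (t : Qf a b ℤ) :
    tv (l • e) t = tv e (l ^ 2 * t) := by
  apply Subtype.ext
  show (!![1 - t * (l * e 0) * (l * e 1), t * (l * e 0) ^ 2; -(t * (l * e 1) ^ 2),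
      1 + t * (l * e 0) * (l * e 1)] : Matrix (Fin 2) (Fin 2) (Qf a b ℤ)) =
    !![1 - l ^ 2 * t * e 0 * e 1, l ^ 2 * t * e 0 ^ 2; -(l ^ 2 * t * e 1 ^ 2),
      1 + l ^ 2 * t * e 0 * e 1]
  apply Matrix.ext
  intro i k
  fin_cases i <;> fin_cases k
  · show 1 - t * (l * e 0) * (l * e 1) = 1 - l ^ 2 * t * e 0 * e 1
    ring
  · show t * (l * e 0) ^ 2 = l ^ 2 * t * e 0 ^ 2
    ring
  · show -(t * (l * e 1) ^ 2) = -(l ^ 2 * t * e 1 ^ 2)
    ring
  · show 1 + t * (l * e 0) * (l * e 1) = 1 + l ^ 2 * t * e 0 * e 1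
    ring

/-- functions of crossed homomorphisms are homogeneous -/
private theorem Ssfg_hom {a b : ℤ} {N : ℕ} (hN : N ≠ 0)
    {F : (Fin 2 → Qf a b ℤ) → ℂ} {z : Gam a b N → Fin 2 → ℂ}
    (hzf : ∀ (e : Fin 2 → Qf a b ℤ) (t : Qf a b ℤ) (h : tv e t ∈ Gam a b N),
      om (vC a b e) (z ⟨_, h⟩) = iC a b t * F e) : Hom3 F := by
  intro l e
  have hm := tv_mem (dvd_refl N) (l • e) 1
  have h1 := hzf (l • e) _ hm
  have hm2 : tv e (l ^ 2 * ((N : Qf a b ℤ) * 1)) ∈ Gam a b N := by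
    rw [← Ssfg_tv]
    exact hm
  have h2 := hzf e _ hm2
  have h3 : (⟨_, hm⟩ : Gam a b N) = ⟨_, hm2⟩ := Subtype.ext (Ssfg_tv l e _)
  rw [h3, Ssfg_om, h2] at h1
  have h4 : iC a b (N : Qf a b ℤ) ≠ 0 := by
    rw [map_natCast]
    exact_mod_cast hN
  rw [map_mul, map_mul, map_one, mul_one, map_pow] at h1
  have h5 : iC a b (N : Qf a b ℤ) * F (l • e) =
      iC a b (N : Qf a b ℤ) * (iC a b l ^ 3 * F e) := by
    rw [← h1]
    ring
  exact mul_left_cancel₀ h4 h5

private theorem Ssfg_main {a b : ℤ} (hab : b ^ 2 + 4 * a < 0) (hC : CgF a b)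
    (F : (Fin 2 → Qf a b ℤ) → ℂ) (r : ℂ) (g0 g1 D : Qf a b ℤ) (n : ℕ) (hn : n ≠ 0)
    (h0 : g0 ≠ 0) (h1 : g1 ≠ 0) (hD : g0 * g1 * D = (n : Qf a b ℤ)) (hS : SF F r) :
    SF (fun e => ((iC a b (g0 * g1))⁻¹) ^ 2 * F ![g0 * e 0, g1 * e 1])
      ((iC a b g0)⁻¹ * (conj (iC a b g0) / conj (iC a b g1)) * r) := by
  have hdom : IsDomain (Qf a b ℤ) := Qf_domain hab
  obtain ⟨N, hN, z, hz, hzf, r0, hr0⟩ := hS
  have hz' : ∀ x y : Gam a b N, z (x * y) = z x + (iG a b x.val).val.mulVec (z y) := hz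
  have hF3 : Hom3 F := Ssfg_hom hN hzf
  have c0 : iC a b g0 ≠ 0 := fun h => h0 (Ssfg_inj hab _ h)
  have c1 : iC a b g1 ≠ 0 := fun h => h1 (Ssfg_inj hab _ h)
  have d0 : conj (iC a b g0) ≠ 0 := fun h => c0 ((map_eq_zero _).1 h)
  have d1 : conj (iC a b g1) ≠ 0 := fun h => c1 ((map_eq_zero _).1 h)
  -- the conjugation
  have hex : ∀ x : Gam a b (N * n), ∃ y : Gam a b N, y.val.val 0 0 = x.val.val 0 0 ∧
      y.val.val 1 1 = x.val.val 1 1 ∧ g1 * y.val.val 0 1 = g0 * x.val.val 0 1 ∧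
      g0 * y.val.val 1 0 = g1 * x.val.val 1 0 := by
    intro x
    obtain ⟨⟨p, hp⟩, ⟨q, hq⟩, ⟨s, hs⟩, ⟨u, hu⟩⟩ := Ssfg_of_mem x.2
    rw [Nat.cast_mul] at hp hq hs hu
    have hdet := G.SL_det x.val
    have hd : x.val.val 0 0 * x.val.val 1 1 -
        ((N : Qf a b ℤ) * (g0 ^ 2 * D * q)) * ((N : Qf a b ℤ) * (g1 ^ 2 * D * s)) = 1 := by
      have e := hdet
      rw [hq, hs, ← hD] at e
      linear_combination e
    refine ⟨⟨AB.mx (x.val.val 0 0) ((N : Qf a b ℤ) * (g0 ^ 2 * D * q))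
      ((N : Qf a b ℤ) * (g1 ^ 2 * D * s)) (x.val.val 1 1) hd, ?_⟩, rfl, rfl, ?_, ?_⟩
    · apply Ssfg_mem
      · exact ⟨(n : Qf a b ℤ) * p, by
          show x.val.val 0 0 - 1 = _
          rw [hp]; ring⟩
      · exact ⟨_, rfl⟩
      · exact ⟨_, rfl⟩
      · exact ⟨(n : Qf a b ℤ) * u, by
          show x.val.val 1 1 - 1 = _
          rw [hu]; ring⟩
    · show g1 * ((N : Qf a b ℤ) * (g0 ^ 2 * D * q)) = g0 * x.val.val 0 1
      rw [hq, ← hD]
      ring
    · show g0 * ((N : Qf a b ℤ) * (g1 ^ 2 * D * s)) = g1 * x.val.val 1 0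
      rw [hs, ← hD]
      ring
  choose c hc00 hc11 hc01 hc10 using hex
  have huniq : ∀ (x : Gam a b (N * n)) (y : Gam a b N), y.val.val 0 0 = x.val.val 0 0 →
      y.val.val 1 1 = x.val.val 1 1 → g1 * y.val.val 0 1 = g0 * x.val.val 0 1 →
      g0 * y.val.val 1 0 = g1 * x.val.val 1 0 → c x = y := by
    intro x y e00 e11 e01 e10
    apply Subtype.ext
    apply Subtype.ext
    apply Matrix.ext
    intro i k
    fin_cases i <;> fin_cases k
    · exact (hc00 x).trans e00.symm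
    · exact mul_left_cancel₀ h1 ((hc01 x).trans e01.symm)
    · exact mul_left_cancel₀ h0 ((hc10 x).trans e10.symm)
    · exact (hc11 x).trans e11.symm
  have hmm : ∀ {R : Type} [CommRing R] (g h : SL2 R) (i k : Fin 2), (g * h).val i k =
      g.val i 0 * h.val 0 k + g.val i 1 * h.val 1 k := by
    intro R _ g h i k
    show (g.val * h.val) i k = _
    rw [Matrix.mul_apply, Fin.sum_univ_two]
  have h01 : g0 * g1 ≠ 0 := mul_ne_zero h0 h1
  have hcm : ∀ x x' : Gam a b (N * n), c (x * x') = c x * c x' := by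
    intro x x'
    apply huniq
    · show (c x * c x').val.val 0 0 = (x * x').val.val 0 0
      rw [Subgroup.coe_mul, Subgroup.coe_mul, hmm, hmm, hc00, hc00]
      have h2 : (c x).val.val 0 1 * (c x').val.val 1 0 = x.val.val 0 1 * x'.val.val 1 0 := by
        apply mul_left_cancel₀ h01
        linear_combination (g0 * (c x').val.val 1 0) * hc01 x +
          (g0 * x.val.val 0 1) * hc10 x'
      rw [h2]
    · show (c x * c x').val.val 1 1 = (x * x').val.val 1 1
      rw [Subgroup.coe_mul, Subgroup.coe_mul, hmm, hmm, hc11, hc11]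
      have h2 : (c x).val.val 1 0 * (c x').val.val 0 1 = x.val.val 1 0 * x'.val.val 0 1 := by
        apply mul_left_cancel₀ h01
        linear_combination (g1 * (c x').val.val 0 1) * hc10 x +
          (g1 * x.val.val 1 0) * hc01 x'
      rw [h2]
    · show g1 * (c x * c x').val.val 0 1 = g0 * (x * x').val.val 0 1
      rw [Subgroup.coe_mul, Subgroup.coe_mul, hmm, hmm, hc00, hc11]
      linear_combination x.val.val 0 0 * hc01 x' + x'.val.val 1 1 * hc01 x
    · show g0 * (c x * c x').val.val 1 0 = g1 * (x * x').val.val 1 0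
      rw [Subgroup.coe_mul, Subgroup.coe_mul, hmm, hmm, hc00, hc11]
      linear_combination x.val.val 1 1 * hc10 x' + x'.val.val 0 0 * hc10 x
  refine ⟨N * n, mul_ne_zero hN hn,
    fun x => ![(iC a b g0)⁻¹ * z (c x) 0, (iC a b g1)⁻¹ * z (c x) 1], ?_, ?_,
    r0 * (iC a b g1)⁻¹, ?_⟩
  · intro x x'
    show ![(iC a b g0)⁻¹ * z (c (x * x')) 0, (iC a b g1)⁻¹ * z (c (x * x')) 1] =
      ![(iC a b g0)⁻¹ * z (c x) 0, (iC a b g1)⁻¹ * z (c x) 1] +
      (iG a b x.val).val.mulVec ![(iC a b g0)⁻¹ * z (c x') 0, (iC a b g1)⁻¹ * z (c x') 1]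
    rw [hcm, hz']
    have e01 : iC a b g1 * iC a b ((c x).val.val 0 1) = iC a b g0 * iC a b (x.val.val 0 1) := by
      rw [← map_mul, ← map_mul, hc01]
    have e10 : iC a b g0 * iC a b ((c x).val.val 1 0) = iC a b g1 * iC a b (x.val.val 1 0) := by
      rw [← map_mul, ← map_mul, hc10]
    have he : ∀ (g : GQ a b) (i k : Fin 2), (iG a b g).val i k = iC a b (g.val i k) :=
      fun g i k => rfl
    funext i
    fin_cases i
    · show (iC a b g0)⁻¹ * (z (c x) 0 + (iG a b (c x).val).val.mulVec (z (c x')) 0) =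
        (iC a b g0)⁻¹ * z (c x) 0 + (iG a b x.val).val.mulVec
          ![(iC a b g0)⁻¹ * z (c x') 0, (iC a b g1)⁻¹ * z (c x') 1] 0
      simp only [Matrix.mulVec, dotProduct, Fin.sum_univ_two, he, Matrix.cons_val_zero,
        Matrix.cons_val_one, hc00]
      field_simp
      linear_combination z (c x') 1 * e01
    · show (iC a b g1)⁻¹ * (z (c x) 1 + (iG a b (c x).val).val.mulVec (z (c x')) 1) =
        (iC a b g1)⁻¹ * z (c x) 1 + (iG a b x.val).val.mulVec
          ![(iC a b g0)⁻¹ * z (c x') 0, (iC a b g1)⁻¹ * z (c x') 1] 1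
      simp only [Matrix.mulVec, dotProduct, Fin.sum_univ_two, he, Matrix.cons_val_zero,
        Matrix.cons_val_one, hc11]
      field_simp
      linear_combination z (c x') 0 * e10
  · intro e t h
    show iC a b (e 0) * ((iC a b g1)⁻¹ * z (c ⟨_, h⟩) 1) -
      iC a b (e 1) * ((iC a b g0)⁻¹ * z (c ⟨_, h⟩) 0) =
      iC a b t * (((iC a b (g0 * g1))⁻¹) ^ 2 * F ![g0 * e 0, g1 * e 1])
    by_cases he : e = 0
    · subst he
      have h3 : F ![g0 * (0 : Fin 2 → Qf a b ℤ) 0, g1 * (0 : Fin 2 → Qf a b ℤ) 1] = 0 := by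
        have h4 : ![g0 * (0 : Fin 2 → Qf a b ℤ) 0, g1 * (0 : Fin 2 → Qf a b ℤ) 1] =
            (0 : Qf a b ℤ) • (0 : Fin 2 → Qf a b ℤ) := by
          funext i
          fin_cases i
          · show g0 * 0 = 0 * 0
            rw [mul_zero, mul_zero]
          · show g1 * 0 = 0 * 0
            rw [mul_zero, mul_zero]
        rw [h4, hF3, map_zero]
        ring
      rw [h3, Pi.zero_apply, Pi.zero_apply, map_zero]
      ring
    · obtain ⟨l, f, hl, hf, rfl⟩ := hC.dec e he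
      -- `N n` divides `l² t`
      obtain ⟨x, y, hxy⟩ := (hC.cop f).1 hf
      have hm : tv f (l ^ 2 * t) ∈ Gam a b (N * n) := by
        rw [← Ssfg_tv]
        exact h
      obtain ⟨k1, k2, k3, -⟩ := Ssfg_of_mem hm
      have k1' : ((N * n : ℕ) : Qf a b ℤ) ∣ (1 - l ^ 2 * t * f 0 * f 1) - 1 := k1
      have k2' : ((N * n : ℕ) : Qf a b ℤ) ∣ l ^ 2 * t * f 0 ^ 2 := k2
      have k3' : ((N * n : ℕ) : Qf a b ℤ) ∣ -(l ^ 2 * t * f 1 ^ 2) := k3
      have hdv : ((N * n : ℕ) : Qf a b ℤ) ∣ l ^ 2 * t := by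
        have h5 : l ^ 2 * t = x ^ 2 * (l ^ 2 * t * f 0 ^ 2) +
            (-(2 * x * y)) * ((1 - l ^ 2 * t * f 0 * f 1) - 1) +
            (-(y ^ 2)) * (-(l ^ 2 * t * f 1 ^ 2)) := by
          linear_combination (-(l ^ 2 * t) * (x * f 0 + y * f 1 + 1)) * hxy
        rw [h5]
        exact dvd_add (dvd_add (Dvd.dvd.mul_left k2' _) (Dvd.dvd.mul_left k1' _))
          (Dvd.dvd.mul_left k3' _)
      obtain ⟨s, hs⟩ := hdv
      rw [Nat.cast_mul, ← hD] at hs
      have hy := tv_mem (dvd_refl N) ![g0 * f 0, g1 * f 1] (D * s)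
      have hcx : c ⟨tv (l • f) t, h⟩ = ⟨_, hy⟩ := by
        apply huniq
        · show 1 - (N : Qf a b ℤ) * (D * s) * (g0 * f 0) * (g1 * f 1) =
            1 - t * (l * f 0) * (l * f 1)
          linear_combination (f 0 * f 1) * hs
        · show 1 + (N : Qf a b ℤ) * (D * s) * (g0 * f 0) * (g1 * f 1) =
            1 + t * (l * f 0) * (l * f 1)
          linear_combination (-(f 0 * f 1)) * hs
        · show g1 * ((N : Qf a b ℤ) * (D * s) * (g0 * f 0) ^ 2) =
            g0 * (t * (l * f 0) ^ 2)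
          linear_combination (-(g0 * f 0 ^ 2)) * hs
        · show g0 * (-((N : Qf a b ℤ) * (D * s) * (g1 * f 1) ^ 2)) =
            g1 * (-(t * (l * f 1) ^ 2))
          linear_combination (g1 * f 1 ^ 2) * hs
      have h6 := hzf _ _ hy
      have h6' : iC a b (g0 * f 0) * z ⟨_, hy⟩ 1 - iC a b (g1 * f 1) * z ⟨_, hy⟩ 0 =
          iC a b ((N : Qf a b ℤ) * (D * s)) * F ![g0 * f 0, g1 * f 1] := h6
      have h7 : ![g0 * (l • f) 0, g1 * (l • f) 1] = l • ![g0 * f 0, g1 * f 1] := by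
        funext i
        fin_cases i
        · show g0 * (l * f 0) = l * (g0 * f 0)
          ring
        · show g1 * (l * f 1) = l * (g1 * f 1)
          ring
      have h8 : iC a b ((l • f) 0) = iC a b l * iC a b (f 0) := map_mul _ _ _
      have h9 : iC a b ((l • f) 1) = iC a b l * iC a b (f 1) := map_mul _ _ _
      have h10 : iC a b l ^ 2 * iC a b t = iC a b (N : Qf a b ℤ) *
          (iC a b g0 * iC a b g1 * iC a b D) * iC a b s := by
        rw [← map_pow, ← map_mul, hs]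
        simp only [map_mul]
      rw [hcx, h7, hF3, h8, h9]
      rw [map_mul, map_mul, map_mul, map_mul] at h6'
      rw [map_mul]
      field_simp
      linear_combination (iC a b l * iC a b g0 * iC a b g1) * h6' -
        (iC a b l * F ![g0 * f 0, g1 * f 1]) * h10
  · intro t h
    obtain ⟨-, k2, -, -⟩ := Ssfg_of_mem h
    have k2' : ((N * n : ℕ) : Qf a b ℤ) ∣ t := k2
    obtain ⟨s, hs⟩ := k2'
    rw [Nat.cast_mul, ← hD] at hs
    have hy : eU ((N : Qf a b ℤ) * (g0 ^ 2 * D * s)) ∈ Gam a b N := by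
      rw [eU_eq_tv]
      exact tv_mem (dvd_refl N) _ _
    have hcx : c ⟨eU t, h⟩ = ⟨_, hy⟩ := by
      apply huniq
      · rfl
      · rfl
      · show g1 * ((N : Qf a b ℤ) * (g0 ^ 2 * D * s)) = g0 * t
        rw [hs]
        ring
      · show g0 * (0 : Qf a b ℤ) = g1 * 0
        rw [mul_zero, mul_zero]
    have h6 := hr0 _ hy
    show ![(iC a b g0)⁻¹ * z (c ⟨eU t, h⟩) 0, (iC a b g1)⁻¹ * z (c ⟨eU t, h⟩) 1] =
      ![r0 * (iC a b g1)⁻¹ * iC a b t + (iC a b g0)⁻¹ *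
        (conj (iC a b g0) / conj (iC a b g1)) * r * conj (iC a b t), 0]
    rw [hcx, h6]
    have h7 : iC a b g1 * iC a b ((N : Qf a b ℤ) * (g0 ^ 2 * D * s)) =
        iC a b g0 * iC a b t := by
      rw [← map_mul, ← map_mul, hs]
      congr 1
      ring
    have h8 : conj (iC a b g1) * conj (iC a b ((N : Qf a b ℤ) * (g0 ^ 2 * D * s))) =
        conj (iC a b g0) * conj (iC a b t) := by
      rw [← map_mul, h7, map_mul]
    funext i
    fin_cases i
    · show (iC a b g0)⁻¹ * (r0 * iC a b ((N : Qf a b ℤ) * (g0 ^ 2 * D * s)) +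
          r * conj (iC a b ((N : Qf a b ℤ) * (g0 ^ 2 * D * s)))) =
        r0 * (iC a b g1)⁻¹ * iC a b t + (iC a b g0)⁻¹ *
          (conj (iC a b g0) / conj (iC a b g1)) * r * conj (iC a b t)
      have h9 : iC a b ((N : Qf a b ℤ) * (g0 ^ 2 * D * s)) =
          iC a b g0 * iC a b t / iC a b g1 := by
        rw [eq_div_iff c1, ← h7]
        ring
      have h10 : conj (iC a b ((N : Qf a b ℤ) * (g0 ^ 2 * D * s))) =
          conj (iC a b g0) * conj (iC a b t) / conj (iC a b g1) := by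
        rw [eq_div_iff d1, ← h8]
        ring
      rw [h10, h9]
      field_simp
    · show (iC a b g1)⁻¹ * (0 : ℂ) = 0
      rw [mul_zero]

private theorem Ssfg_smul {a b : ℤ} (F : (Fin 2 → Qf a b ℤ) → ℂ) (r c : ℂ) (hS : SF F r) :
    SF (fun e => c * F e) (c * r) := by
  obtain ⟨N, hN, z, hz, hzf, r0, hr0⟩ := hS
  refine ⟨N, hN, c • z, Submodule.smul_mem _ _ hz, ?_, c * r0, ?_⟩
  · intro e t h
    show vC a b e 0 * (c * z ⟨_, h⟩ 1) - vC a b e 1 * (c * z ⟨_, h⟩ 0) =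
      iC a b t * (c * F e)
    have h1 : vC a b e 0 * z ⟨_, h⟩ 1 - vC a b e 1 * z ⟨_, h⟩ 0 = iC a b t * F e := hzf e t h
    linear_combination c * h1
  · intro t h
    show c • z ⟨_, h⟩ = _
    rw [hr0 t h]
    funext i
    fin_cases i
    · show c * (r0 * iC a b t + r * conj (iC a b t)) =
        c * r0 * iC a b t + c * r * conj (iC a b t)
      ring
    · show c * (0 : ℂ) = 0
      rw [mul_zero]

/-- [CG S sfg] the action of diagonal matrices. -/
theorem p_Ssfg : S_sfg := by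
  intro a b hab _ hC F r μ hμ hS
  have hdom : IsDomain (Qf a b ℤ) := Qf_domain hab
  have hnn := nq_nonneg hab μ
  have hn0 : (nq μ).toNat ≠ 0 := by
    intro h
    have h1 : nq μ = 0 := by omega
    exact hμ (nq_eq_zero hab h1)
  have hcast : μ * cjq a b ℤ μ = (((nq μ).toNat : ℕ) : Qf a b ℤ) := by
    rw [mul_cjq]
    have h1 : ((((nq μ).toNat : ℕ) : ℤ) : Qf a b ℤ) = ((nq μ : ℤ) : Qf a b ℤ) := by
      rw [Int.toNat_of_nonneg hnn]
    rw [Int.cast_natCast] at h1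
    rw [h1]
    ext <;> simp
  have c0 : iC a b μ ≠ 0 := fun h => hμ (Ssfg_inj hab _ h)
  have d0 : conj (iC a b μ) ≠ 0 := fun h => c0 ((map_eq_zero _).1 h)
  constructor
  · have h1 := Ssfg_main hab hC F r μ 1 (cjq a b ℤ μ) _ hn0 hμ one_ne_zero
      (by rw [mul_one]; exact hcast) hS
    have h2 := Ssfg_smul _ _ (iC a b μ) h1
    have e1 : (fun e : Fin 2 → Qf a b ℤ => iC a b μ * (((iC a b (μ * 1))⁻¹) ^ 2 *
        F ![μ * e 0, 1 * e 1])) = fun e => (iC a b μ)⁻¹ * F ![μ * e 0, e 1] := by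
      funext e
      rw [mul_one, one_mul]
      field_simp
    have e2 : iC a b μ * ((iC a b μ)⁻¹ * (conj (iC a b μ) / conj (iC a b (1 : Qf a b ℤ))) * r) =
        conj (iC a b μ) * r := by
      rw [map_one, map_one, div_one]
      field_simp
    rw [e1, e2] at h2
    exact h2
  · have h1 := Ssfg_main hab hC F r 1 μ (cjq a b ℤ μ) _ hn0 one_ne_zero hμ
      (by rw [one_mul]; exact hcast) hS
    have e1 : (fun e : Fin 2 → Qf a b ℤ => ((iC a b (1 * μ))⁻¹) ^ 2 *
        F ![1 * e 0, μ * e 1]) = fun e => ((iC a b μ)⁻¹) ^ 2 * F ![e 0, μ * e 1] := by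
      funext e
      rw [one_mul, one_mul]
    have e2 : (iC a b (1 : Qf a b ℤ))⁻¹ * (conj (iC a b (1 : Qf a b ℤ)) / conj (iC a b μ)) * r =
        (conj (iC a b μ))⁻¹ * r := by
      rw [map_one, map_one, inv_one, one_mul, one_div]
    rw [e1, e2] at h1
    exact h1

end

end Pool.Agent.F8.CG
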