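import Pool.Agent.Lib.MP_305fdd_al.F8.CG.StmS
import Pool.Agent.Lib.MP_305fdd_al.F8.BG.P_con

/-!
# MP_305fdd_al, congruence subgroups: piece [CG Ssfl]
-/

set_option autoImplicit false

namespace Pool.Agent.F8.CG

open Pool.Agent.F8.BG Pool.Agent.MP_305fdd_al Pool.Agent.Lib.MP_305fdd_al Pool.Agent.F8
open scoped QuadraticAlgebra ComplexConjugate

noncomputable section

private theorem Ssfl_red {a b : ℤ} {m k : ℕ} (h : m ∣ k) : Gam a b k ≤ Gam a b m :=
  fun _ hx => con_red h hx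

private theorem Ssfl_fin {a b : ℤ} (m : ℕ) (hm : m ≠ 0) : (Gam a b m).FiniteIndex := by
  have : NeZero m := ⟨hm⟩
  have := con_finite a b m
  exact Subgroup.finiteIndex_ker (rdq a b m)

/-- the combination of two crossed homomorphisms -/
private theorem Ssfl_comb {a b : ℤ} {N N' M : ℕ} (h : Gam a b M ≤ Gam a b N)
    (h' : Gam a b M ≤ Gam a b N') (c : ℂ) {z : Gam a b N → Fin 2 → ℂ}
    (hz : z ∈ Z1C (Gam a b N).subtype) {z' : Gam a b N' → Fin 2 → ℂ}
    (hz' : z' ∈ Z1C (Gam a b N').subtype) :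
    (fun w : Gam a b M => z ⟨w.1, h w.2⟩ + c • z' ⟨w.1, h' w.2⟩) ∈ Z1C (Gam a b M).subtype := by
  intro x y
  have h1 := hz ⟨x.1, h x.2⟩ ⟨y.1, h y.2⟩
  have h2 := hz' ⟨x.1, h' x.2⟩ ⟨y.1, h' y.2⟩
  have e1 : (⟨(x * y).1, h (x * y).2⟩ : Gam a b N) = ⟨x.1, h x.2⟩ * ⟨y.1, h y.2⟩ := rfl
  have e2 : (⟨(x * y).1, h' (x * y).2⟩ : Gam a b N') = ⟨x.1, h' x.2⟩ * ⟨y.1, h' y.2⟩ := rfl
  show z ⟨(x * y).1, h (x * y).2⟩ + c • z' ⟨(x * y).1, h' (x * y).2⟩ = _
  rw [e1, e2, h1, h2, Matrix.mulVec_add, Matrix.mulVec_smul, smul_add]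
  show _ + _ + (_ + _) = _ + _ + (_ + _)
  exact add_add_add_comm _ _ _ _

private theorem Ssfl_om (e v w : Fin 2 → ℂ) (c : ℂ) : om e (v + c • w) = om e v + c * om e w := by
  unfold om
  simp only [Pi.add_apply, Pi.smul_apply, smul_eq_mul]
  ring

theorem p_Ssfl (hvt : V_vt) : S_sfl := by
  intro a b hn hE hP
  constructor
  · rintro F F' r r' c ⟨N, hN, z, hz, h1, r₀, h2⟩ ⟨N', hN', z', hz', h1', r₀', h2'⟩
    have hl : Gam a b (N * N') ≤ Gam a b N := Ssfl_red (dvd_mul_right N N')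
    have hl' : Gam a b (N * N') ≤ Gam a b N' := Ssfl_red (dvd_mul_left N' N)
    refine ⟨N * N', mul_ne_zero hN hN', _, Ssfl_comb hl hl' c hz hz', ?_, r₀ + c * r₀', ?_⟩
    · intro e t h
      show om (vC a b e) (z ⟨tv e t, hl h⟩ + c • z' ⟨tv e t, hl' h⟩) = _
      rw [Ssfl_om, h1 e t (hl h), h1' e t (hl' h)]
      ring
    · intro t h
      show z ⟨eU t, hl h⟩ + c • z' ⟨eU t, hl' h⟩ = _
      rw [h2 t (hl h), h2' t (hl' h)]
      ext i
      fin_cases i
      · simp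
        ring
      · simp
  · rintro F r r' ⟨N, hN, z, hz, h1, r₀, h2⟩ ⟨N', hN', z', hz', h1', r₀', h2'⟩
    have hl : Gam a b (N * N') ≤ Gam a b N := Ssfl_red (dvd_mul_right N N')
    have hl' : Gam a b (N * N') ≤ Gam a b N' := Ssfl_red (dvd_mul_left N' N)
    have hM : N * N' ≠ 0 := mul_ne_zero hN hN'
    obtain ⟨v, hv⟩ := hvt a b hn hE hP (Gam a b (N * N')) (Ssfl_fin _ hM) _
      (Ssfl_comb hl hl' (-1) hz hz') (by
        intro e t h
        show om (vC a b e) (z ⟨tv e t, hl h⟩ + (-1 : ℂ) • z' ⟨tv e t, hl' h⟩) = _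
        rw [Ssfl_om, h1 e t (hl h), h1' e t (hl' h)]
        ring)
    have key : ∀ s : Qf a b ℤ, (r₀ - r₀') * iC a b (((N * N' : ℕ) : Qf a b ℤ) * s) +
        (r - r') * conj (iC a b (((N * N' : ℕ) : Qf a b ℤ) * s)) =
          iC a b (((N * N' : ℕ) : Qf a b ℤ) * s) * v 1 := by
      intro s
      have hm : eU (((N * N' : ℕ) : Qf a b ℤ) * s) ∈ Gam a b (N * N') := by
        rw [eU_eq_tv]
        exact tv_mem (dvd_refl _) _ s
      have h3 := hv ⟨_, hm⟩
      change z ⟨eU _, hl hm⟩ + (-1 : ℂ) • z' ⟨eU _, hl' hm⟩ = _ at h3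
      rw [h2 _ (hl hm), h2' _ (hl' hm)] at h3
      have h4 := congrFun h3 0
      have h5 : (iG a b (eU (((N * N' : ℕ) : Qf a b ℤ) * s))).val =
          !![1, iC a b (((N * N' : ℕ) : Qf a b ℤ) * s); 0, 1] := by
        show (!![1, ((N * N' : ℕ) : Qf a b ℤ) * s; 0, 1] :
          Matrix (Fin 2) (Fin 2) (Qf a b ℤ)).map (iC a b) = _
        ext i j
        fin_cases i <;> fin_cases j <;> simp
      change _ = ((iG a b (eU (((N * N' : ℕ) : Qf a b ℤ) * s))).val.mulVec v - v) 0 at h4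
      rw [h5] at h4
      simp only [Pi.add_apply, Pi.smul_apply, Matrix.cons_val_zero, smul_eq_mul, Pi.sub_apply,
        Matrix.mulVec, dotProduct, Fin.sum_univ_two, Matrix.of_apply, Matrix.cons_val_one] at h4
      linear_combination h4
    have hMc : ((N * N' : ℕ) : ℂ) ≠ 0 := Nat.cast_ne_zero.2 hM
    have k1 := key 1
    have k2 := key (wq a b ℤ)
    have hw : iC a b (wq a b ℤ) = wC a b := by
      rw [iC_apply]
      simp [wq]
    rw [map_mul, map_natCast, map_one, mul_one, map_natCast] at k1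
    rw [map_mul, map_natCast, hw, map_mul, map_natCast] at k2
    have k3 : (r - r') * (conj (wC a b) - wC a b) = 0 := by
      apply mul_left_cancel₀ hMc
      linear_combination k2 - wC a b * k1
    have k4 : conj (wC a b) - wC a b ≠ 0 := by
      intro h0
      have h6 := congrArg Complex.im h0
      simp only [Complex.sub_im, Complex.conj_im, Complex.zero_im] at h6
      have := wC_im hn
      linarith
    exact sub_eq_zero.1 ((mul_eq_zero.1 k3).resolve_right k4)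

end

end Pool.Agent.F8.CG
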