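import Pool.Agent.Lib.MP_305fdd_al.F8.CG.StmS3

/-!
# MP_305fdd_al, congruence subgroups, block S: the sign does not depend on the unipotent elements
(`S_sm`)
-/

set_option autoImplicit false

namespace Pool.Agent.F8.CG

open Pool.Agent.F8.BG Pool.Agent.MP_305fdd_al Pool.Agent.Lib.MP_305fdd_al Pool.Agent.F8
open scoped QuadraticAlgebra ComplexConjugate

noncomputable section

private theorem Ssm_prim {a b : ℤ} (hC : CgF a b) {f : Fin 2 → Qf a b ℤ} (hf : Prm f) {k : ℕ}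
    {v : Fin 2 → Qf a b ℤ} {μ μ' : Qf a b ℤ} (h : Cgr k v (μ • f)) (h' : Cgr k v (μ' • f)) :
    (k : Qf a b ℤ) ∣ μ - μ' := by
  obtain ⟨x, y, hxy⟩ := (hC.cop f).1 hf
  obtain ⟨c0, h0⟩ := h 0
  obtain ⟨c1, h1⟩ := h 1
  obtain ⟨d0, k0⟩ := h' 0
  obtain ⟨d1, k1⟩ := h' 1
  have e0 : v 0 - μ * f 0 = k * c0 := h0
  have e1 : v 1 - μ * f 1 = k * c1 := h1
  have g0 : v 0 - μ' * f 0 = k * d0 := k0
  have g1 : v 1 - μ' * f 1 = k * d1 := k1
  refine ⟨x * (d0 - c0) + y * (d1 - c1), ?_⟩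
  linear_combination (-(μ - μ')) * hxy + x * g0 - x * e0 + y * g1 - y * e1

private theorem Ssm_trans {a b : ℤ} {k : ℕ} {u v w : Fin 2 → Qf a b ℤ} (h : Cgr k u v)
    (h' : Cgr k v w) : Cgr k u w := by
  intro i
  have h1 := dvd_add (h i) (h' i)
  have e : u i - v i + (v i - w i) = u i - w i := by ring
  rwa [e] at h1

private theorem Ssm_symm {a b : ℤ} {k : ℕ} {u v : Fin 2 → Qf a b ℤ} (h : Cgr k u v) :
    Cgr k v u := by
  intro i
  have h1 := (dvd_neg).2 (h i)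
  have e : -(u i - v i) = v i - u i := by ring
  rwa [e] at h1

private theorem Ssm_smul {a b : ℤ} {k : ℕ} {u v : Fin 2 → Qf a b ℤ} (c : Qf a b ℤ)
    (h : Cgr k u v) : Cgr k (c • u) (c • v) := by
  intro i
  have h1 := Dvd.dvd.mul_left (h i) c
  have e : c * (u i - v i) = (c • u) i - (c • v) i := by
    rw [Pi.smul_apply, Pi.smul_apply, smul_eq_mul, smul_eq_mul]
    ring
  rwa [e] at h1

private theorem Ssm_of {a b : ℤ} {k n : ℕ} (hkn : k ∣ n) {u v : Fin 2 → Qf a b ℤ}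
    (h : Cgr n u v) : Cgr k u v := by
  intro i
  obtain ⟨c, rfl⟩ := hkn
  refine dvd_trans ?_ (h i)
  rw [Nat.cast_mul]
  exact dvd_mul_right _ _

theorem p_Ssm (hinn : S_inn) (hcon : S_con) : S_sm := by
  intro a b hab hEu hpid hfin hC hB m hm hV N₁ hP Ψ hΨ hcert huq hed k T hk hT
  obtain ⟨hmN₁, hN₁0, hpair⟩ := id hP
  have hN₀ : 3 * m * N₁ * T ≠ 0 := by
    refine mul_ne_zero (mul_ne_zero (mul_ne_zero (by norm_num) hm) hN₁0) hT
  have hN₀2 : 2 ≤ 3 * m * N₁ * T := by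
    have h1 : 0 < m * N₁ * T :=
      Nat.pos_of_ne_zero (mul_ne_zero (mul_ne_zero hm hN₁0) hT)
    have h2 : 3 * m * N₁ * T = 3 * (m * N₁ * T) := by ring
    omega
  obtain ⟨N, ε, hN, hN₀N, hedge⟩ := hed (3 * m * N₁ * T) hN₀
  have hN₁N : N₁ ∣ N := by
    refine dvd_trans ⟨3 * m * T, ?_⟩ hN₀N
    ring
  have hTN : T ∣ N := dvd_trans (dvd_mul_left T _) hN₀N
  obtain ⟨n₁, hn₁, Q₁, _, _, θ₁, h₁⟩ := hinn a b hab hpid hfin hC hB m hm hV N₁ hP Ψ hΨ N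
    (3 * m * N₁ * T) hN hN₁N hN₀N hN₀2 (hcert N hN) (fun k hk => huq k N hk hN) ε hedge k hk
  obtain ⟨Q₂, _, _, θ₂, h₂⟩ := huq k N hk hN
  have hn : n₁ * k * N ≠ 0 := mul_ne_zero (mul_ne_zero hn₁.out hk) hN
  have hnz : NeZero (n₁ * k * N) := ⟨hn⟩
  have hfinSL : Finite (SL2 (Qf a b (ZMod (n₁ * k * N)))) := inferInstance
  refine ⟨n₁ * k * N, hnz, Q₁ × (Q₂ × SL2 (Qf a b (ZMod (n₁ * k * N)))), inferInstance,
    inferInstance, θ₁.prod (θ₂.prod ((rdq a b (n₁ * k * N)).comp (Gam a b m).subtype)), ?_⟩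
  intro h hh
  obtain ⟨θ, hθ⟩ : ∃ θ, θ = θ₁.prod (θ₂.prod ((rdq a b (n₁ * k * N)).comp
    (Gam a b m).subtype)) := ⟨_, rfl⟩
  rw [← hθ]
  have hh₁ : Gd Ψ n₁ h := hV.gdm Ψ (n₁ * k * N) n₁ h ⟨k * N, by ring⟩ hh
  have hRf : RfN Ψ θ (n₁ * k * N) := by
    rw [hθ]
    exact hV.rfp Ψ Q₁ _ θ₁ _ _ (Or.inr (hV.rfp Ψ Q₂ _ θ₂ _ _ (Or.inr (hV.rfr Ψ _))))
  have hmu : ∀ e e', VD Ψ θ N e e' → ∃ μ : Qf a b ℤ, Cgr k (h.val.mulVec e) (μ • e') ∧
      (k : Qf a b ℤ) ∣ μ ^ 2 - 1 := fun e e' hv =>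
    hV.mu Ψ _ θ N k (n₁ * k * N) h e e' ⟨n₁, by ring⟩ hRf hh hv
  have hex : ∀ e, Prm e → ∃ e', VD Ψ θ N e e' := by
    intro e he
    obtain ⟨e', he'⟩ := (hpair Ψ hΨ _ θ).2 e he
    exact ⟨e', hV.vdm Ψ _ θ N₁ N e e' hN₁N he'⟩
  have hv1 : ∀ e e', VD Ψ θ N e e' → VD Ψ θ₁ N e e' := by
    intro e e' hv
    rw [hθ] at hv
    exact (hV.vdp Ψ _ _ θ₁ _ N e e' hv).1
  have hv2 : ∀ e e', VD Ψ θ N e e' → VD Ψ θ₂ N e e' := by
    intro e e' hv
    rw [hθ] at hv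
    exact (hV.vdp Ψ _ _ θ₂ _ N e e' (hV.vdp Ψ _ _ θ₁ _ N e e' hv).2).1
  have hkn : k ∣ n₁ * k * N := ⟨n₁ * N, by ring⟩
  have hall : ∀ e f, Prm e → Prm f → Rel Ψ θ N k h e f := by
    refine hcon a b hab hEu hC m ε hm hedge.1 ?_ (Rel Ψ θ N k h) ?_ ?_ ?_ ?_
    · refine IsCoprime.of_isCoprime_of_dvd_right hedge.2.1 ?_
      refine ⟨((3 * N₁ * T : ℕ) : Qf a b ℤ), ?_⟩
      rw [← Nat.cast_mul]
      congr 1
      ring
    · -- symmetry
      intro e f _ _ hr f₁ e₁ hvf hve μ μ₁ hμ hμ₁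
      rcases hr e₁ f₁ hve hvf μ₁ μ hμ₁ hμ with h3 | h3
      · left
        rw [← dvd_neg]
        have e3 : -(μ - μ₁) = μ₁ - μ := by ring
        rw [e3]
        exact h3
      · right
        rw [add_comm]
        exact h3
    · -- transitivity
      intro e f g _ hf _ hef hfg e' g' hve hvg μ μ' hμ hμ'
      obtain ⟨f', hvf⟩ := hex f hf
      obtain ⟨μf, hμf, -⟩ := hmu f f' hvf
      rcases hef e' f' hve hvf μ μf hμ hμf with h3 | h3
      · rcases hfg f' g' hvf hvg μf μ' hμf hμ' with h4 | h4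
        · left
          have e3 : μ - μ' = (μ - μf) + (μf - μ') := by ring
          rw [e3]
          exact dvd_add h3 h4
        · right
          have e3 : μ + μ' = (μ - μf) + (μf + μ') := by ring
          rw [e3]
          exact dvd_add h3 h4
      · rcases hfg f' g' hvf hvg μf μ' hμf hμ' with h4 | h4
        · right
          have e3 : μ + μ' = (μ + μf) - (μf - μ') := by ring
          rw [e3]
          exact dvd_sub h3 h4
        · left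
          have e3 : μ - μ' = (μ + μf) - (μf + μ') := by ring
          rw [e3]
          exact dvd_sub h3 h4
    · -- the elements of the group
      intro w hw e _ f f₁ hv hv₁ μ μ₁ hμ hμ₁
      obtain ⟨w', hw'⟩ : ∃ w' : Gam a b m, Ψ.toFun _ θ w' = θ ⟨w, hw⟩ := by
        have h3 : θ ⟨w, hw⟩ ∈ (Ψ.toFun _ θ).range := by
          rw [Ψ.range_eq]
          exact ⟨_, rfl⟩
        exact h3
      have h3 : VD Ψ θ N (w.val.mulVec e) (w'.val.val.mulVec f) :=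
        hV.vdc Ψ _ θ N e f ⟨w, hw⟩ w' hw'.symm hv
      have h4 := h₂ _ _ _ (hv2 _ _ h3) (hv2 _ _ hv₁)
      have h5 : Cgr k (h.val.mulVec (w.val.mulVec e)) (w'.val.val.mulVec (h.val.mulVec e)) :=
        Ssm_of hkn (hV.cj Ψ _ θ _ h ⟨w, hw⟩ w' e hRf hh hw'.symm)
      have h6 : Cgr k (w'.val.val.mulVec (h.val.mulVec e)) (μ • w'.val.val.mulVec f) := by
        have h7 := hC.mul k w'.val _ _ hμ
        rw [Matrix.mulVec_smul] at h7
        exact h7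
      have h7 := Ssm_trans h5 h6
      rcases h4 with h4 | h4
      · left
        have h8 := Ssm_trans h7 (Ssm_smul μ h4)
        exact Ssm_prim hC hv₁.2.1 h8 hμ₁
      · right
        have h8 := Ssm_trans h7 (Ssm_smul μ h4)
        rw [smul_smul, mul_neg_one] at h8
        have h9 := Ssm_prim hC hv₁.2.1 hμ₁ h8
        have e3 : μ + μ₁ = μ₁ - -μ := by ring
        rw [e3]
        exact h9
    · intro γ f f₁ hv hv₁ μ μ₁ hμ hμ₁
      exact h₁ h hh₁ γ f f₁ (hv1 _ _ hv) (hv1 _ _ hv₁) μ μ₁ hμ hμ₁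
  obtain ⟨f₀, hf₀⟩ := hex ε hedge.1
  obtain ⟨μ, hμ, hμ2⟩ := hmu ε f₀ hf₀
  refine ⟨μ, hμ2, ?_⟩
  intro e e' hv
  have hvN : VD Ψ θ N e e' := hV.vdm Ψ _ θ T N e e' hTN hv
  obtain ⟨μ', hμ', -⟩ := hmu e e' hvN
  rcases hall ε e hedge.1 hv.1 f₀ e' hf₀ hvN μ μ' hμ hμ' with h3 | h3
  · left
    refine Ssm_trans hμ' ?_
    intro i
    have e3 : (μ' • e') i - (μ • e') i = -((μ - μ') * e' i) := by
      rw [Pi.smul_apply, Pi.smul_apply, smul_eq_mul, smul_eq_mul]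
      ring
    rw [e3, dvd_neg]
    exact Dvd.dvd.mul_right h3 _
  · right
    refine Ssm_trans hμ' ?_
    intro i
    have e3 : (μ' • e') i - ((-μ) • e') i = (μ + μ') * e' i := by
      rw [Pi.smul_apply, Pi.smul_apply, smul_eq_mul, smul_eq_mul]
      ring
    rw [e3]
    exact Dvd.dvd.mul_right h3 _

end

end Pool.Agent.F8.CG
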