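import Pool.Agent.Lib.MP_305fdd_al.F8.CG.StmS3
import Pool.Agent.Lib.MP_305fdd_al.F8.CG.P_CCcd

/-!
# MP_305fdd_al, congruence subgroups: transport of crossed homomorphisms (S tr)
-/

set_option autoImplicit false

namespace Pool.Agent.F8.CG

open Pool.Agent.F8.BG Pool.Agent.MP_305fdd_al Pool.Agent.Lib.MP_305fdd_al Pool.Agent.F8
open scoped QuadraticAlgebra

noncomputable section

/-- The general form: a crossed homomorphism of the kernel of `π` corresponds to one of the kernel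
of `π'`. -/
private theorem Str_gen {G H Q₀ K : Type} [Group G] [Group H] [Group Q₀] [Finite Q₀] [CommRing K]
    [Finite K] (Ψ : NatBij G H) (π : G →* Q₀) (σ : G →* SL2 K)
    (z : ((⊥ : Subgroup Q₀).comap π) → Fin 2 → K)
    (hz : ∀ x y, z (x * y) = z x + (σ x).val.mulVec (z y)) :
    ∃ (E : Type) (_ : Group E) (_ : Finite E) (θ : G →* E)
      (w : ((⊥ : Subgroup Q₀).comap (Ψ.toFun Q₀ π)) → Fin 2 → K),
      (∀ x y, w (x * y) = w x + (Ψ.toFun _ σ x).val.mulVec (w y)) ∧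
      ∀ (p : (⊥ : Subgroup Q₀).comap π) (x : (⊥ : Subgroup Q₀).comap (Ψ.toFun Q₀ π)),
        θ p = Ψ.toFun E θ x → z p = w x := by
  let ψ : ((⊥ : Subgroup Q₀).comap π) →* CCcdE K :=
    MonoidHom.mk' (fun x => ⟨z x, σ x⟩) fun x y => by
      rw [CCcd_mul]
      apply CCcdE.ext
      · exact hz x y
      · exact map_mul σ (x : G) (y : G)
  obtain ⟨ψ', E, iE, fE, θ, hθ⟩ := Cor.exists Ψ rfl (⊥ : Subgroup Q₀) ψ
  have hg : ∀ x : (⊥ : Subgroup Q₀).comap (Ψ.toFun Q₀ π), (ψ' x).g = Ψ.toFun _ σ x := by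
    intro x
    obtain ⟨p, hp1, hp2⟩ := pair_val Ψ (θ.prod σ) π (x : H)
    rw [pair_prod] at hp1
    have h1 : θ p = Ψ.toFun E θ x := congrArg Prod.fst hp1
    have h2 : σ p = Ψ.toFun _ σ x := congrArg Prod.snd hp1
    have h3 : p ∈ (⊥ : Subgroup Q₀).comap π := by
      show π p ∈ (⊥ : Subgroup Q₀)
      rw [hp2]
      exact x.2
    rw [← hθ ⟨p, h3⟩ x h1, ← h2]
    rfl
  refine ⟨E, iE, fE, θ, fun x => (ψ' x).v, ?_, ?_⟩
  · intro x y
    show (ψ' (x * y)).v = (ψ' x).v + (Ψ.toFun _ σ x).val.mulVec (ψ' y).v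
    rw [map_mul, CCcd_mul, ← hg]
  · intro p x e
    have h := hθ p x e
    show (ψ p).v = (ψ' x).v
    rw [h]

theorem p_Str : S_tr := by
  intro a b m N n _ _ hmN Ψ hPs z hz
  obtain ⟨h₀, hh₀⟩ := hPs N
  let π : Gam a b m →* SL2 (Qf a b (ZMod N)) := (rdq a b N).comp (Gam a b m).subtype
  let σ : Gam a b m →* SL2 (Qf a b (ZMod n)) := (rdq a b n).comp (Gam a b m).subtype
  have hπ' : ∀ x : Gam a b m, Ψ.toFun _ π x = 1 ↔ rdq a b N x = 1 := by
    intro x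
    have h1 : rdq a b N x = rdq a b N h₀ * Ψ.toFun _ π x * (rdq a b N h₀)⁻¹ := hh₀ x
    constructor
    · intro h2
      rw [h1, h2, mul_one, mul_inv_cancel]
    · intro h2
      rw [h2] at h1
      have h3 : Ψ.toFun _ π x = (rdq a b N h₀)⁻¹ * 1 * rdq a b N h₀ := by
        rw [h1]; group
      rw [h3]; group
  let zz : ((⊥ : Subgroup (SL2 (Qf a b (ZMod N)))).comap π) → Fin 2 → Qf a b (ZMod n) :=
    fun x => z ⟨x.val.val, x.property⟩
  have hzz : ∀ x y, zz (x * y) = zz x + (σ x).val.mulVec (zz y) := fun x y =>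
    hz ⟨x.val.val, x.property⟩ ⟨y.val.val, y.property⟩
  obtain ⟨E, iE, fE, θ, w, hw, hθ⟩ := Str_gen Ψ π σ zz hzz
  have hle : ∀ x : Gam a b N, x.val ∈ Gam a b m := fun x => gam_le hmN x.property
  have hmem : ∀ x : Gam a b N,
      (⟨x.val, hle x⟩ : Gam a b m) ∈ (⊥ : Subgroup (SL2 (Qf a b (ZMod N)))).comap (Ψ.toFun _ π) :=
    fun x => (hπ' ⟨x.val, hle x⟩).2 x.property
  refine ⟨E, iE, fE, θ, ?_⟩
  intro h hGd
  refine ⟨fun x => (rdq a b n h).val.mulVec (w ⟨⟨x.val, hle x⟩, hmem x⟩), ?_, ?_⟩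
  · intro x y
    have h1 := hw ⟨⟨x.val, hle x⟩, hmem x⟩ ⟨⟨y.val, hle y⟩, hmem y⟩
    have h2 : rdq a b n h * Ψ.toFun _ σ ⟨x.val, hle x⟩ = rdq a b n x.val * rdq a b n h := by
      have h3 : rdq a b n x.val = rdq a b n h * Ψ.toFun _ σ ⟨x.val, hle x⟩ *
        (rdq a b n h)⁻¹ := hGd ⟨x.val, hle x⟩
      rw [h3]; group
    have h4 : (rdq a b n h).val * (Ψ.toFun _ σ ⟨x.val, hle x⟩).val
        = (rdq a b n x.val).val * (rdq a b n h).val := congrArg Subtype.val h2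
    show (rdq a b n h).val.mulVec (w (⟨⟨x.val, hle x⟩, hmem x⟩ * ⟨⟨y.val, hle y⟩, hmem y⟩))
      = (rdq a b n h).val.mulVec (w ⟨⟨x.val, hle x⟩, hmem x⟩)
        + (rdq a b n x.val).val.mulVec
          ((rdq a b n h).val.mulVec (w ⟨⟨y.val, hle y⟩, hmem y⟩))
    rw [h1, Matrix.mulVec_add, Matrix.mulVec_mulVec, Matrix.mulVec_mulVec, h4]
  · intro p x hp hx e
    have h1 : (⟨p.val, hp⟩ : Gam a b m) ∈ (⊥ : Subgroup (SL2 (Qf a b (ZMod N)))).comap π :=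
      p.property
    have h2 := hθ ⟨⟨p.val, hp⟩, h1⟩ ⟨⟨x.val, hle x⟩, hmem x⟩ e
    show (rdq a b n h).val.mulVec (w ⟨⟨x.val, hle x⟩, hmem x⟩)
      = (rdq a b n h).val.mulVec (z p)
    rw [← h2]

end

end Pool.Agent.F8.CG
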