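import Pool.Agent.Lib.MP_305fdd_al.F8.CG.StmS

/-!
# MP_305fdd_al, congruence subgroups: block S, one cusp (`S_um`)

The primitive vectors modulo `N` and units are finite in number. We add up the parts of the function which are supported in one class; the value `r` of one of them is not zero.
-/

set_option autoImplicit false

namespace Pool.Agent.F8.CG

open Pool.Agent.F8.BG Pool.Agent.MP_305fdd_al Pool.Agent.Lib.MP_305fdd_al Pool.Agent.F8
open scoped QuadraticAlgebra ComplexConjugate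

noncomputable section

variable {a b : ℤ}

/-- the condition: `e` is a multiple of a primitive vector with the property `P` -/
private def Sum_C (P : (Fin 2 → Qf a b ℤ) → Prop) (e : Fin 2 → Qf a b ℤ) : Prop :=
  ∃ (l : Qf a b ℤ) (f : Fin 2 → Qf a b ℤ), l ≠ 0 ∧ Prm f ∧ e = l • f ∧ P f

open Classical in
/-- the part of the function `F` -/
private def Sum_F (P : (Fin 2 → Qf a b ℤ) → Prop) (F : (Fin 2 → Qf a b ℤ) → ℂ)
    (e : Fin 2 → Qf a b ℤ) : ℂ := if Sum_C P e then F e else 0

private theorem Sum_prim (hcg : CgF a b) {P : (Fin 2 → Qf a b ℤ) → Prop}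
    (hu : ∀ (u : Qf a b ℤ) (f : Fin 2 → Qf a b ℤ), IsUnit u → P f → P (u • f)) [Nontrivial (Qf a b ℤ)]
    {e : Fin 2 → Qf a b ℤ} (he : Prm e) : Sum_C P e ↔ P e := by
  constructor
  · rintro ⟨l, f, hl, hf, hef, hP⟩
    obtain ⟨u, hu1, hu2, -⟩ := hcg.uni 1 l e f one_ne_zero he hf (by rw [one_smul]; exact hef)
    obtain ⟨v, rfl⟩ := hu1
    have : e = (↑v⁻¹ : Qf a b ℤ) • f := by
      rw [hu2, smul_smul, Units.inv_mul, one_smul]
    rw [this]
    exact hu _ _ (Units.isUnit _) hP
  · intro h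
    exact ⟨1, e, one_ne_zero, he, (one_smul _ _).symm, h⟩

private theorem Sum_smul (hcg : CgF a b) {P : (Fin 2 → Qf a b ℤ) → Prop}
    (hu : ∀ (u : Qf a b ℤ) (f : Fin 2 → Qf a b ℤ), IsUnit u → P f → P (u • f)) [IsDomain (Qf a b ℤ)]
    {l : Qf a b ℤ} (hl : l ≠ 0) (e : Fin 2 → Qf a b ℤ) : Sum_C P (l • e) ↔ Sum_C P e := by
  constructor
  · rintro ⟨m, f, hm, hf, hef, hP⟩
    by_cases he : e = 0
    · exfalso
      have h1 := hcg.dec f (by
        rintro rfl
        obtain ⟨x, y, hxy⟩ := (hcg.cop 0).1 hf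
        simp at hxy)
      rw [he, smul_zero] at hef
      have h2 : f = 0 := by
        rcases smul_eq_zero.1 hef.symm with h | h
        · exact absurd h hm
        · exact h
      obtain ⟨x, y, hxy⟩ := (hcg.cop f).1 hf
      rw [h2] at hxy
      simp at hxy
    · obtain ⟨l', f', hl', hf', he'⟩ := hcg.dec e he
      obtain ⟨u, hu1, hu2, -⟩ := hcg.uni (l * l') m f' f (mul_ne_zero hl hl') hf' hf (by
        rw [mul_smul, ← he']; exact hef)
      refine ⟨l', f', hl', hf', he', ?_⟩
      obtain ⟨v, rfl⟩ := hu1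
      have : f' = (↑v⁻¹ : Qf a b ℤ) • f := by
        rw [hu2, smul_smul, Units.inv_mul, one_smul]
      rw [this]
      exact hu _ _ (Units.isUnit _) hP
  · rintro ⟨m, f, hm, hf, hef, hP⟩
    exact ⟨l * m, f, mul_ne_zero hl hm, hf, by rw [hef, smul_smul], hP⟩

private theorem Sum_FN (hn : b ^ 2 + 4 * a < 0) (hcg : CgF a b) {P : (Fin 2 → Qf a b ℤ) → Prop}
    (hu : ∀ (u : Qf a b ℤ) (f : Fin 2 → Qf a b ℤ), IsUnit u → P f → P (u • f)) {N N' : ℕ} (hN : N' ∣ N)
    (hc : ∀ f g, Prm f → Prm g → Cgr N f g → P f → P g)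
    {F : (Fin 2 → Qf a b ℤ) → ℂ} (hF : FN N' F) : FN N (Sum_F P F) := by
  have hdom : IsDomain (Qf a b ℤ) := Qf_domain hn
  refine ⟨?_, ?_, ?_⟩
  · intro l e
    by_cases hl : l = 0
    · subst hl
      have h0 : F 0 = 0 := by
        have := hF.hom 0 0
        rw [zero_smul, map_zero] at this
        rw [this]
        ring
      rw [zero_smul, map_zero]
      unfold Sum_F
      split_ifs <;> simp [h0]
    · unfold Sum_F
      by_cases h : Sum_C P e
      · rw [if_pos ((Sum_smul hcg hu hl e).2 h), if_pos h]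
        exact hF.hom l e
      · rw [if_neg (fun h' => h ((Sum_smul hcg hu hl e).1 h')), if_neg h, mul_zero]
  · unfold Sum_F
    split_ifs
    · exact hF.inf
    · rfl
  · intro e f he hf hef
    have hF' : F e = F f := hF.lev e f he hf fun i =>
      (Nat.cast_dvd_cast hN).trans (hef i)
    have hfe : Cgr N f e := fun i => by
      have := hef i
      rw [← dvd_neg, neg_sub] at this
      exact this
    unfold Sum_F
    by_cases h : P e
    · rw [if_pos ((Sum_prim hcg hu he).2 h),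
        if_pos ((Sum_prim hcg hu hf).2 (hc e f he hf hef h)), hF']
    · rw [if_neg (fun h' => h ((Sum_prim hcg hu he).1 h')),
        if_neg (fun h' => h (hc f e hf he hfe ((Sum_prim hcg hu hf).1 h')))]

/-- the relation of congruence up to units -/
private def Sum_R (N : ℕ) (f j : Fin 2 → Qf a b ℤ) : Prop :=
  ∃ u : Qf a b ℤ, IsUnit u ∧ Cgr N f (u • j)

private theorem Sum_Ru {N : ℕ} {f j : Fin 2 → Qf a b ℤ} {u : Qf a b ℤ} (hu : IsUnit u)
    (h : Sum_R N f j) : Sum_R N (u • f) j := by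
  obtain ⟨v, hv, h⟩ := h
  refine ⟨u * v, hu.mul hv, fun i => ?_⟩
  have h1 : (u • f) i - ((u * v) • j) i = u * (f i - (v • j) i) := by
    simp only [Pi.smul_apply, smul_eq_mul]
    ring
  rw [h1]
  exact Dvd.dvd.mul_left (h i) u

private theorem Sum_Rui {N : ℕ} {f j : Fin 2 → Qf a b ℤ} {u : Qf a b ℤ} (hu : IsUnit u)
    (h : Sum_R N (u • f) j) : Sum_R N f j := by
  obtain ⟨v, rfl⟩ := hu
  have := Sum_Ru (Units.isUnit v⁻¹) h
  rwa [smul_smul, Units.inv_mul, one_smul] at this

private theorem Sum_Rc {N : ℕ} {f g j : Fin 2 → Qf a b ℤ} (hfg : Cgr N f g)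
    (h : Sum_R N f j) : Sum_R N g j := by
  obtain ⟨v, hv, h⟩ := h
  refine ⟨v, hv, fun i => ?_⟩
  have h1 : g i - (v • j) i = (f i - (v • j) i) - (f i - g i) := by ring
  rw [h1]
  exact dvd_sub (h i) (hfg i)

private theorem Sum_sym {N : ℕ} {f g : Fin 2 → Qf a b ℤ} (hfg : Cgr N f g) : Cgr N g f :=
  fun i => by
    have := hfg i
    rw [← dvd_neg, neg_sub] at this
    exact this

/-- [CG S um] one cusp. -/
theorem p_Sum : S_um := by
  intro a b hn _ hcg hsf N₀ N₁ hN₀ hN₁ hPA
  have hdom : IsDomain (Qf a b ℤ) := Qf_domain hn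
  obtain ⟨N', F, r, hN', hF, hsup, hr, hr0⟩ := hPA
  obtain ⟨N, hNdef⟩ : ∃ N : ℕ, N = N' * N₁ * N₀ := ⟨_, rfl⟩
  have hN : N ≠ 0 := by rw [hNdef]; exact mul_ne_zero (mul_ne_zero hN' hN₁) hN₀
  have hN'N : N' ∣ N := ⟨N₁ * N₀, by rw [hNdef]; ring⟩
  have hN₀N : N₀ ∣ N := ⟨N' * N₁, by rw [hNdef]; ring⟩
  have hN₁N : N₁ ∣ N := ⟨N' * N₀, by rw [hNdef]; ring⟩
  obtain ⟨J, hJ1, hJ2⟩ := hcg.fin N hN
  have hS0 : SF (fun _ : Fin 2 → Qf a b ℤ => (0 : ℂ)) 0 := by
    have := hsf.lin F F r r (-1) hr hr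
    have e1 : (fun e => F e + -1 * F e) = fun _ : Fin 2 → Qf a b ℤ => (0 : ℂ) := by
      funext e; ring
    have e2 : r + -1 * r = 0 := by ring
    rwa [e1, e2] at this
  -- the parts
  have hPu : ∀ S : Finset (Fin 2 → Qf a b ℤ), ∀ (u : Qf a b ℤ) (f : Fin 2 → Qf a b ℤ), IsUnit u →
      (∃ j ∈ S, Sum_R N f j) → (∃ j ∈ S, Sum_R N (u • f) j) :=
    fun S u f hu ⟨j, hj, h⟩ => ⟨j, hj, Sum_Ru hu h⟩
  have hPc : ∀ S : Finset (Fin 2 → Qf a b ℤ), ∀ f g : Fin 2 → Qf a b ℤ, Prm f → Prm g →
      Cgr N f g → (∃ j ∈ S, Sum_R N f j) → (∃ j ∈ S, Sum_R N g j) :=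
    fun S f g _ _ hfg ⟨j, hj, h⟩ => ⟨j, hj, Sum_Rc hfg h⟩
  have key : ∀ S : Finset (Fin 2 → Qf a b ℤ), S ⊆ J → ∀ r' : ℂ, r' ≠ 0 →
      SF (Sum_F (fun f => ∃ j ∈ S, Sum_R N f j) F) r' →
      ∃ (F' : (Fin 2 → Qf a b ℤ) → ℂ) (r : ℂ) (e' : Fin 2 → Qf a b ℤ), FN N F' ∧ SF F' r ∧
        r ≠ 0 ∧ Prm e' ∧ IsCoprime (e' 1) (N₀ : Qf a b ℤ) ∧
        ∀ f, Prm f → F' f ≠ 0 → ∃ u : Qf a b ℤ, IsUnit u ∧ Cgr N f (u • e') := by
    classical
    intro S
    induction S using Finset.induction_on with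
    | empty =>
      intro _ r' hr' h
      exfalso
      have e1 : Sum_F (fun f => ∃ j ∈ (∅ : Finset (Fin 2 → Qf a b ℤ)), Sum_R N f j) F =
          fun _ => (0 : ℂ) := by
        funext e
        unfold Sum_F
        rw [if_neg]
        rintro ⟨l, f, -, -, -, j, hj, -⟩
        simp at hj
      rw [e1] at h
      exact hr' (hsf.uq _ _ _ h hS0)
    | insert j S hj ih =>
      intro hS r' hr' h
      have hjJ : j ∈ J := hS (Finset.mem_insert_self _ _)
      have hSJ : S ⊆ J := fun x hx => hS (Finset.mem_insert_of_mem hx)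
      -- the property `Q`
      have hQu : ∀ (u : Qf a b ℤ) (f : Fin 2 → Qf a b ℤ), IsUnit u →
          (Sum_R N f j ∧ ¬ ∃ j ∈ S, Sum_R N f j) →
          (Sum_R N (u • f) j ∧ ¬ ∃ j ∈ S, Sum_R N (u • f) j) :=
        fun u f hu ⟨h1, h2⟩ => ⟨Sum_Ru hu h1, fun ⟨k, hk, h3⟩ => h2 ⟨k, hk, Sum_Rui hu h3⟩⟩
      have hQc : ∀ f g : Fin 2 → Qf a b ℤ, Prm f → Prm g → Cgr N f g →
          (Sum_R N f j ∧ ¬ ∃ j ∈ S, Sum_R N f j) →
          (Sum_R N g j ∧ ¬ ∃ j ∈ S, Sum_R N g j) :=
        fun f g _ _ hfg ⟨h1, h2⟩ => ⟨Sum_Rc hfg h1,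
          fun ⟨k, hk, h3⟩ => h2 ⟨k, hk, Sum_Rc (Sum_sym hfg) h3⟩⟩
      have hFQ := Sum_FN hn hcg hQu hN'N hQc hF
      have hFS := Sum_FN hn hcg (hPu S) hN'N (hPc S) hF
      obtain ⟨rQ, hrQ⟩ := hsf.ex N _ hN hFQ
      obtain ⟨rS, hrS⟩ := hsf.ex N _ hN hFS
      by_cases hQ0 : rQ = 0
      · -- use the induction hypothesis
        refine ih hSJ rS ?_ hrS
        rintro rfl
        have hadd := hsf.lin _ _ _ _ 1 hrS hrQ
        have e1 : (fun e => Sum_F (fun f => ∃ j ∈ S, Sum_R N f j) F e + 1 *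
            Sum_F (fun f => Sum_R N f j ∧ ¬ ∃ j ∈ S, Sum_R N f j) F e) =
            Sum_F (fun f => ∃ k ∈ insert j S, Sum_R N f k) F := by
          funext e
          by_cases he : e = 0
          · have h0 : F 0 = 0 := by
              have := hF.hom 0 0
              rw [zero_smul, map_zero] at this
              rw [this]
              ring
            subst he
            unfold Sum_F
            simp [h0]
          · obtain ⟨l, f, hl, hf, rfl⟩ := hcg.dec e he
            unfold Sum_F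
            simp only [Sum_smul hcg (hPu S) hl f, Sum_smul hcg hQu hl f,
              Sum_smul hcg (hPu (insert j S)) hl f, Sum_prim hcg (hPu S) hf,
              Sum_prim hcg hQu hf, Sum_prim hcg (hPu (insert j S)) hf]
            by_cases h1 : ∃ j ∈ S, Sum_R N f j
            · have h2 : ∃ k ∈ insert j S, Sum_R N f k := by
                obtain ⟨k, hk, h⟩ := h1
                exact ⟨k, Finset.mem_insert_of_mem hk, h⟩
              rw [if_pos h1, if_neg (fun h' => h'.2 h1), if_pos h2]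
              ring
            · by_cases h3 : Sum_R N f j
              · have h2 : ∃ k ∈ insert j S, Sum_R N f k :=
                  ⟨j, Finset.mem_insert_self _ _, h3⟩
                rw [if_neg h1, if_pos ⟨h3, h1⟩, if_pos h2]
                ring
              · have h2 : ¬ ∃ k ∈ insert j S, Sum_R N f k := by
                  rintro ⟨k, hk, hkf⟩
                  rcases Finset.mem_insert.1 hk with hk | hk
                  · rw [hk] at hkf
                    exact h3 hkf
                  · exact h1 ⟨k, hk, hkf⟩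
                rw [if_neg h1, if_neg (fun h' => h3 h'.1), if_neg h2]
                ring
        rw [e1, hQ0] at hadd
        refine hr' (hsf.uq _ _ _ h ?_)
        simpa using hadd
      · refine ⟨_, rQ, j, hFQ, hrQ, hQ0, hJ1 j hjJ, ?_, ?_⟩
        · -- there is a vector in the support
          by_contra hco
          apply hQ0
          have e1 : Sum_F (fun f => Sum_R N f j ∧ ¬ ∃ j ∈ S, Sum_R N f j) F = fun _ => 0 := by
            funext e
            unfold Sum_F
            split_ifs with hC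
            · obtain ⟨l, f, hl, hf, rfl, ⟨u, hu, hfu⟩, -⟩ := hC
              by_contra hne
              apply hco
              have hFf : F f ≠ 0 := by
                intro h0
                apply hne
                rw [hF.hom, h0, mul_zero]
              have h1 := hsup f hf hFf
              obtain ⟨x, hx⟩ := (Nat.cast_dvd_cast (α := Qf a b ℤ) hN₀N).trans (hfu 1)
              have h2 : f 1 = u * j 1 + (N₀ : Qf a b ℤ) * x := by
                have : (u • j) 1 = u * j 1 := rfl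
                rw [this] at hx
                linear_combination hx
              rw [h2] at h1
              have h3 : IsCoprime (u * j 1) (N₀ : Qf a b ℤ) :=
                IsCoprime.of_add_mul_left_left h1
              exact h3.of_mul_left_right
            · rfl
          rw [e1] at hrQ
          exact hsf.uq _ _ _ hrQ hS0
        · intro f hf hne
          have hC : Sum_C (fun f => Sum_R N f j ∧ ¬ ∃ j ∈ S, Sum_R N f j) f := by
            by_contra hC
            apply hne
            unfold Sum_F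
            rw [if_neg hC]
          exact ((Sum_prim hcg hQu hf).1 hC).1
  -- the end
  have hFJ : Sum_F (fun f => ∃ j ∈ J, Sum_R N f j) F = F := by
    funext e
    by_cases he : e = 0
    · have h0 : F 0 = 0 := by
        have := hF.hom 0 0
        rw [zero_smul, map_zero] at this
        rw [this]
        ring
      subst he
      unfold Sum_F
      simp [h0]
    · obtain ⟨l, f, hl, hf, rfl⟩ := hcg.dec e he
      unfold Sum_F
      rw [if_pos]
      obtain ⟨j, hj, hjf⟩ := hJ2 f hf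
      exact ⟨l, f, hl, hf, rfl, j, hj, 1, isUnit_one, by rw [one_smul]; exact hjf⟩
  obtain ⟨F', r', e', h1, h2, h3, h4, h5, h6⟩ := key J (Finset.Subset.refl _) r hr0
    (by rw [hFJ]; exact hr)
  exact ⟨N, F', r', e', hN, hN₀N, hN₁N, h1, h2, h3, h4, h5, h6⟩

end

end Pool.Agent.F8.CG
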