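import Pool.Agent.Lib.MP_305fdd_al.F8.CG.StmS3
import Pool.Agent.Lib.MP_305fdd_al.F8.CG.P_CCcd
import Pool.Agent.Lib.MP_305fdd_al.F8.BG.P_E

/-!
# MP_305fdd_al, congruence subgroups, [CG S uq]: uniqueness of the corresponding vector
-/

set_option autoImplicit false

namespace Pool.Agent.F8.CG

open Pool.Agent.F8.BG Pool.Agent.MP_305fdd_al Pool.Agent.Lib.MP_305fdd_al Pool.Agent.F8
open scoped QuadraticAlgebra

noncomputable section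

/-- a homomorphism on a subgroup of finite index is seen in a finite quotient of the group -/
private theorem Suq_ext {G E : Type} [Group G] [Group E] [Finite E] (A : Subgroup G)
    (hA : A.index ≠ 0) (ψ : A →* E) : ∃ (Q : Type) (_ : Group Q) (_ : Finite Q) (θ : G →* Q),
    ∀ x y : A, θ x = θ y → ψ x = ψ y := by
  let K : Subgroup G := ψ.ker.map A.subtype
  have hKfin : K.FiniteIndex := by
    refine ⟨?_⟩
    have h1 : K.index = ψ.ker.index * A.index := Subgroup.index_map_subtype _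
    have h2 : ψ.ker.index ≠ 0 := (Subgroup.finiteIndex_ker ψ).index_ne_zero
    rw [h1]
    exact mul_ne_zero h2 hA
  have hK₀ : K.normalCore ≤ K := Subgroup.normalCore_le K
  have hK₀fin : K.normalCore.FiniteIndex := Subgroup.finiteIndex_normalCore K
  have hfq : Finite (G ⧸ K.normalCore) := Subgroup.finite_quotient_of_finiteIndex
  refine ⟨G ⧸ K.normalCore, inferInstance, hfq, QuotientGroup.mk' K.normalCore, ?_⟩
  intro x y h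
  have h1 : (x : G)⁻¹ * y ∈ K.normalCore := QuotientGroup.eq.1 h
  obtain ⟨k, hk, hk2⟩ := hK₀ h1
  have h2 : k = x⁻¹ * y := Subtype.ext hk2
  have h3 : ψ k = 1 := hk
  rw [h2, map_mul, map_inv] at h3
  exact inv_mul_eq_one.1 h3

section

variable {a b : ℤ}

private theorem Suq_val (N : ℕ) (g : GQ a b) (i j : Fin 2) :
    (rdq a b N g).val i j = Qfm a b (Int.castRingHom (ZMod N)) (g.val i j) := rfl

/-- congruent matrices -/
private theorem Suq_ent (n : ℕ) (g h : GQ a b) (hgh : rdq a b n g = rdq a b n h) (i j : Fin 2) :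
    (n : Qf a b ℤ) ∣ g.val i j - h.val i j := by
  apply E_ker
  rw [map_sub, ← Suq_val, ← Suq_val, hgh, sub_self]

private theorem Suq_tv {R : Type} [CommRing R] (e : Fin 2 → R) (t : R) :
    (tv e t).val = !![1 - t * e 0 * e 1, t * e 0 ^ 2; -(t * e 1 ^ 2), 1 + t * e 0 * e 1] := rfl

private theorem Suq_mv {R : Type} [CommRing R] (M : Matrix (Fin 2) (Fin 2) R) (v : Fin 2 → R)
    (i : Fin 2) : M.mulVec v i = M i 0 * v 0 + M i 1 * v 1 := by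
  rw [Matrix.mulVec_eq_sum]
  simp [Fin.sum_univ_two, mul_comm]

/-- the reduction of a crossed homomorphism -/
private theorem Suq_red {N n : ℕ} {z : Gam a b N → Fin 2 → Qf a b ℤ}
    (hz : z ∈ Z1S N (RingHom.id (Qf a b ℤ))) :
    (fun x i => Qfm a b (Int.castRingHom (ZMod n)) (z x i))
      ∈ Z1S N (Qfm a b (Int.castRingHom (ZMod n))) := by
  intro x y
  have h1 : z (x * y) = z x + (SLm (RingHom.id (Qf a b ℤ)) x.val).val.mulVec (z y) := hz x y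
  have h2 : (SLm (RingHom.id (Qf a b ℤ)) x.val).val = x.val.val := Matrix.ext fun _ _ => rfl
  rw [h2] at h1
  funext i
  show Qfm a b (Int.castRingHom (ZMod n)) (z (x * y) i) = Qfm a b (Int.castRingHom (ZMod n)) (z x i)
    + ((rdq a b n x.val).val.mulVec fun i => Qfm a b (Int.castRingHom (ZMod n)) (z y i)) i
  rw [h1, Pi.add_apply, map_add, Suq_mv, Suq_mv, map_add, map_mul, map_mul]
  rfl

/-- the norm of a natural number -/
private theorem Suq_nq (k : ℕ) : nq ((k : ℕ) : Qf a b ℤ) = (k : ℤ) ^ 2 := by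
  unfold nq
  simp

/-- a nonzero element is not divisible by twice its norm -/
private theorem Suq_nrm (hab : b ^ 2 + 4 * a < 0) (x : Qf a b ℤ) (hx : x ≠ 0) (n : ℕ)
    (hn : 2 * (nq x).natAbs ∣ n) : ¬ (n : Qf a b ℤ) ∣ x := by
  intro h
  obtain ⟨c, hc⟩ := hn
  obtain ⟨y, hy⟩ := h
  have h0 : nq x ≠ 0 := fun h => hx (nq_eq_zero hab h)
  have h1 : 0 ≤ nq x := nq_nonneg hab x
  have h2 : ((nq x).natAbs : ℤ) = nq x := Int.natAbs_of_nonneg h1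
  have h3 := congrArg nq hy
  rw [nq_mul, Suq_nq, hc] at h3
  push_cast at h3
  rw [abs_of_nonneg h1] at h3
  have h4 : nq x * (1 - 4 * nq x * (c : ℤ) ^ 2 * nq y) = 0 := by
    linear_combination h3
  rcases mul_eq_zero.1 h4 with h5 | h5
  · exact h0 h5
  · have h6 : (4 : ℤ) ∣ 1 := ⟨nq x * (c : ℤ) ^ 2 * nq y, by linear_combination h5⟩
    norm_num at h6

end

theorem p_Suq : S_uq := by
  intro a b hab _ hC hB M₀ hM₀ hCls m hm Ψ k T hk hT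
  classical
  have hdom : IsDomain (Qf a b ℤ) := Qf_domain hab
  obtain ⟨N, hNdef⟩ : ∃ N, N = 3 * m * M₀ * k * T := ⟨_, rfl⟩
  have hM0 : M₀ ≠ 0 := by omega
  have hN0 : N ≠ 0 := by
    rw [hNdef]
    exact mul_ne_zero (mul_ne_zero (mul_ne_zero (mul_ne_zero (by norm_num) hm) hM0) hk) hT
  have hmN : m ∣ N := ⟨3 * M₀ * k * T, by rw [hNdef]; ring⟩
  have hMN : M₀ ∣ N := ⟨3 * m * k * T, by rw [hNdef]; ring⟩
  have hkN : k ∣ N := ⟨3 * m * M₀ * T, by rw [hNdef]; ring⟩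
  have h3N : 3 ≤ N := Nat.le_of_dvd (Nat.pos_of_ne_zero hN0)
    ⟨m * M₀ * k * T, by rw [hNdef]; ring⟩
  have hTN : ∃ c' : ℕ, N = T * c' := ⟨3 * m * M₀ * k, by rw [hNdef]; ring⟩
  obtain ⟨c', hc'⟩ := hTN
  obtain ⟨J, hJ1, hJ2⟩ := hC.fin N hN0
  choose z hz1 hz2 hz3 using fun j : {e // e ∈ J} => hCls N hN0 hMN j.1 (hJ1 j.1 j.2)
  obtain ⟨n₁, hn₁⟩ : ∃ n₁, n₁ = 2 * N * ∏ j : {e // e ∈ J},
    (nq (BV N (RingHom.id (Qf a b ℤ)) j.1 (z j))).natAbs := ⟨_, rfl⟩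
  have hn₁0 : n₁ ≠ 0 := by
    rw [hn₁]
    refine mul_ne_zero (mul_ne_zero (by norm_num) hN0) (Finset.prod_ne_zero_iff.2 ?_)
    intro j _ h
    exact hz2 j (nq_eq_zero hab (Int.natAbs_eq_zero.1 h))
  have hNn₁ : N ∣ n₁ := ⟨2 * ∏ j : {e // e ∈ J},
    (nq (BV N (RingHom.id (Qf a b ℤ)) j.1 (z j))).natAbs, by rw [hn₁]; ring⟩
  have hbn₁ : ∀ j : {e // e ∈ J},
      2 * (nq (BV N (RingHom.id (Qf a b ℤ)) j.1 (z j))).natAbs ∣ n₁ := by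
    intro j
    rw [hn₁, mul_assoc]
    apply mul_dvd_mul_left
    exact Dvd.dvd.mul_left (Finset.dvd_prod_of_mem
      (fun j : {e // e ∈ J} => (nq (BV N (RingHom.id (Qf a b ℤ)) j.1 (z j))).natAbs)
      (Finset.mem_univ j)) N
  obtain ⟨n, hn⟩ : ∃ n, n = N * n₁ := ⟨_, rfl⟩
  have hn0 : n ≠ 0 := by rw [hn]; exact mul_ne_zero hN0 hn₁0
  have hn₁n : n₁ ∣ n := ⟨N, by rw [hn]; ring⟩
  have instn : NeZero n := ⟨hn0⟩
  have instN : NeZero N := ⟨hN0⟩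
  -- the homomorphism on Gam N
  let ψj : {e // e ∈ J} → (Gam a b N →* CCcdE (Qf a b (ZMod n))) := fun j =>
    (CCcd_eq ((SLm (Qfm a b (Int.castRingHom (ZMod n)))).comp (Gam a b N).subtype)
      ⟨fun x i => Qfm a b (Int.castRingHom (ZMod n)) (z j x i), Suq_red (hz1 j)⟩).1
  have hψj : ∀ j x i, (ψj j x).v i = Qfm a b (Int.castRingHom (ZMod n)) (z j x i) :=
    fun _ _ _ => rfl
  let ψ : Gam a b N →* ({e // e ∈ J} → CCcdE (Qf a b (ZMod n))) := MonoidHom.pi ψj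
  let A : Subgroup (Gam a b m) := ((rdq a b N).comp (Gam a b m).subtype).ker
  have hA : A.index ≠ 0 :=
    (Subgroup.finiteIndex_ker ((rdq a b N).comp (Gam a b m).subtype)).index_ne_zero
  let ι : A →* Gam a b N :=
    { toFun := fun x => ⟨x.1.1, x.2⟩
      map_one' := rfl
      map_mul' := fun _ _ => rfl }
  obtain ⟨Q', _, _, θ', hθ'⟩ := Suq_ext A hA (ψ.comp ι)
  let θ₀ : Gam a b m →* SL2 (Qf a b (ZMod n)) × Q' :=
    ((rdq a b n).comp (Gam a b m).subtype).prod θ'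
  refine ⟨SL2 (Qf a b (ZMod n)) × Q', inferInstance, inferInstance, Ψ.invFun _ θ₀, ?_⟩
  rintro e e' e'' ⟨_, he', hmT, h1⟩ ⟨_, he'', _, h2⟩
  rw [Ψ.right_inv] at h1 h2
  have h3 : θ₀ (uD m hmT e' (c' : Qf a b ℤ)) = θ₀ (uD m hmT e'' (c' : Qf a b ℤ)) := by
    rw [← h1, ← h2]
  have h4 : rdq a b n (uD m hmT e' (c' : Qf a b ℤ)).val
      = rdq a b n (uD m hmT e'' (c' : Qf a b ℤ)).val := congrArg Prod.fst h3
  have h5 : θ' (uD m hmT e' (c' : Qf a b ℤ)) = θ' (uD m hmT e'' (c' : Qf a b ℤ)) :=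
    congrArg Prod.snd h3
  have hcast : (T : Qf a b ℤ) * (c' : Qf a b ℤ) = (N : Qf a b ℤ) * 1 := by
    rw [hc', mul_one]
    push_cast
    rfl
  have hu : ∀ f : Fin 2 → Qf a b ℤ, (uD m hmT f (c' : Qf a b ℤ)).val
      = (uD N (dvd_refl N) f 1).val := by
    intro f
    show tv f ((T : Qf a b ℤ) * (c' : Qf a b ℤ)) = tv f ((N : Qf a b ℤ) * 1)
    rw [hcast]
  have hmem : ∀ f : Fin 2 → Qf a b ℤ, uD m hmT f (c' : Qf a b ℤ) ∈ A := by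
    intro f
    show rdq a b N (uD m hmT f (c' : Qf a b ℤ)).val = 1
    rw [hu]
    exact (uD N (dvd_refl N) f 1).2
  have h6 : ∀ j i, (n : Qf a b ℤ) ∣ z j (uD N (dvd_refl N) e' 1) i
      - z j (uD N (dvd_refl N) e'' 1) i := by
    intro j i
    have h7 := hθ' ⟨_, hmem e'⟩ ⟨_, hmem e''⟩ h5
    have h8 : ∀ f, ι ⟨_, hmem f⟩ = uD N (dvd_refl N) f 1 := fun f => Subtype.ext (hu f)
    have h9 : ψ (uD N (dvd_refl N) e' 1) = ψ (uD N (dvd_refl N) e'' 1) := by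
      rw [← h8 e', ← h8 e'']
      exact h7
    have h10 : (ψj j (uD N (dvd_refl N) e' 1)).v i = (ψj j (uD N (dvd_refl N) e'' 1)).v i :=
      congrArg (fun t => (t j).v i) h9
    rw [hψj, hψj] at h10
    apply E_ker
    rw [map_sub, h10, sub_self]
  -- (1)
  have hN' : (N : Qf a b ℤ) ≠ 0 := by exact_mod_cast hN0
  have h7 : ∀ i j, (n : Qf a b ℤ) ∣ (tv e' ((N : Qf a b ℤ) * 1)).val i j
      - (tv e'' ((N : Qf a b ℤ) * 1)).val i j := by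
    intro i j
    apply Suq_ent
    have h8 := h4
    rw [hu, hu] at h8
    exact h8
  have hcan : ∀ X : Qf a b ℤ, (n : Qf a b ℤ) ∣ (N : Qf a b ℤ) * X → (n₁ : Qf a b ℤ) ∣ X := by
    intro X hX
    rw [hn, Nat.cast_mul] at hX
    exact (mul_dvd_mul_iff_left hN').1 hX
  have h00 : (n₁ : Qf a b ℤ) ∣ e' 0 ^ 2 - e'' 0 ^ 2 := by
    apply hcan
    have h8 := h7 0 1
    rw [Suq_tv, Suq_tv] at h8
    have h9 : (N : Qf a b ℤ) * 1 * e' 0 ^ 2 - (N : Qf a b ℤ) * 1 * e'' 0 ^ 2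
        = (N : Qf a b ℤ) * (e' 0 ^ 2 - e'' 0 ^ 2) := by ring
    rw [← h9]
    exact h8
  have h11 : (n₁ : Qf a b ℤ) ∣ e'' 1 ^ 2 - e' 1 ^ 2 := by
    apply hcan
    have h8 := h7 1 0
    rw [Suq_tv, Suq_tv] at h8
    have h9 : -((N : Qf a b ℤ) * 1 * e' 1 ^ 2) - -((N : Qf a b ℤ) * 1 * e'' 1 ^ 2)
        = (N : Qf a b ℤ) * (e'' 1 ^ 2 - e' 1 ^ 2) := by ring
    rw [← h9]
    exact h8
  have h01 : (n₁ : Qf a b ℤ) ∣ e' 0 * e' 1 - e'' 0 * e'' 1 := by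
    apply hcan
    have h8 := h7 1 1
    rw [Suq_tv, Suq_tv] at h8
    have h9 : (1 + (N : Qf a b ℤ) * 1 * e' 0 * e' 1) - (1 + (N : Qf a b ℤ) * 1 * e'' 0 * e'' 1)
        = (N : Qf a b ℤ) * (e' 0 * e' 1 - e'' 0 * e'' 1) := by ring
    rw [← h9]
    exact h8
  obtain ⟨γ, δ, hγδ⟩ := (hC.cop e').1 he'
  obtain ⟨A0, hA0⟩ := h00
  obtain ⟨A1, hA1⟩ := h11
  obtain ⟨A2, hA2⟩ := h01
  obtain ⟨v, hv⟩ : ∃ v, v = γ * e'' 0 + δ * e'' 1 := ⟨_, rfl⟩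
  have hv0 : (n₁ : Qf a b ℤ) ∣ e' 0 - v * e'' 0 :=
    ⟨γ * A0 + δ * A2, by rw [hv]; linear_combination γ * hA0 + δ * hA2 - e' 0 * hγδ⟩
  have hv1 : (n₁ : Qf a b ℤ) ∣ e' 1 - v * e'' 1 :=
    ⟨γ * A2 - δ * A1, by rw [hv]; linear_combination γ * hA2 - δ * hA1 - e' 1 * hγδ⟩
  have hvv : (n₁ : Qf a b ℤ) ∣ v ^ 2 - 1 :=
    ⟨-γ ^ 2 * A0 - 2 * γ * δ * A2 + δ ^ 2 * A1, by
      rw [hv]
      linear_combination (-γ ^ 2) * hA0 - 2 * γ * δ * hA2 + δ ^ 2 * hA1 +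
        (γ * e' 0 + δ * e' 1 + 1) * hγδ⟩
  -- (2)
  obtain ⟨f, hfJ, hf⟩ := hJ2 e' he'
  have hfP : Prm f := hJ1 f hfJ
  have hbf : BV N (RingHom.id (Qf a b ℤ)) f (z ⟨f, hfJ⟩)
      = BV N (RingHom.id (Qf a b ℤ)) e' (z ⟨f, hfJ⟩) := by
    obtain ⟨w, hw, hwe⟩ := hC.cgr N e' f he' hfP hf
    have h8 := (hB.inv N (Qf a b ℤ) (RingHom.id _) (z ⟨f, hfJ⟩) (hz1 ⟨f, hfJ⟩) w hw e').1
    rw [hwe] at h8
    exact h8
  obtain ⟨u, hu1, hu2⟩ : ∃ u : Qf a b ℤ, IsUnit u ∧ Cgr N e'' (u • f) := by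
    by_contra hne
    push Not at hne
    have h8 : BV N (RingHom.id (Qf a b ℤ)) e'' (z ⟨f, hfJ⟩) = 0 :=
      hz3 ⟨f, hfJ⟩ e'' he'' hne
    have h9 : e'' 0 * z ⟨f, hfJ⟩ (uD N (dvd_refl N) e'' 1) 1
        - e'' 1 * z ⟨f, hfJ⟩ (uD N (dvd_refl N) e'' 1) 0 = 0 := h8
    have h10 : BV N (RingHom.id (Qf a b ℤ)) f (z ⟨f, hfJ⟩)
        = e' 0 * z ⟨f, hfJ⟩ (uD N (dvd_refl N) e' 1) 1
        - e' 1 * z ⟨f, hfJ⟩ (uD N (dvd_refl N) e' 1) 0 := hbf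
    have hd : ∀ i, (n₁ : Qf a b ℤ) ∣ z ⟨f, hfJ⟩ (uD N (dvd_refl N) e' 1) i
        - z ⟨f, hfJ⟩ (uD N (dvd_refl N) e'' 1) i :=
      fun i => (Nat.cast_dvd_cast hn₁n).trans (h6 ⟨f, hfJ⟩ i)
    apply Suq_nrm hab _ (hz2 ⟨f, hfJ⟩) n₁ (hbn₁ ⟨f, hfJ⟩)
    rw [h10]
    obtain ⟨B0, hB0⟩ := hd 0
    obtain ⟨B1, hB1⟩ := hd 1
    obtain ⟨C0, hC0⟩ := hv0
    obtain ⟨C1, hC1⟩ := hv1
    exact ⟨C0 * z ⟨f, hfJ⟩ (uD N (dvd_refl N) e' 1) 1 + v * e'' 0 * B1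
      - C1 * z ⟨f, hfJ⟩ (uD N (dvd_refl N) e' 1) 0 - v * e'' 1 * B0, by
      linear_combination z ⟨f, hfJ⟩ (uD N (dvd_refl N) e' 1) 1 * hC0 + v * e'' 0 * hB1
        - z ⟨f, hfJ⟩ (uD N (dvd_refl N) e' 1) 0 * hC1 - v * e'' 1 * hB0 + v * h9⟩
  -- (3)
  have hNd : ∀ X : Qf a b ℤ, (n₁ : Qf a b ℤ) ∣ X → (N : Qf a b ℤ) ∣ X :=
    fun X hX => (Nat.cast_dvd_cast hNn₁).trans hX
  have hue : ∀ i, (N : Qf a b ℤ) ∣ e'' i - u * e' i := by
    intro i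
    obtain ⟨x, hx⟩ := hu2 i
    obtain ⟨y, hy⟩ := hf i
    rw [Pi.smul_apply, smul_eq_mul] at hx
    exact ⟨x - u * y, by linear_combination hx - u * hy⟩
  have huv : (N : Qf a b ℤ) ∣ 1 - v * u := by
    obtain ⟨x0, hx0⟩ := hNd _ hv0
    obtain ⟨x1, hx1⟩ := hNd _ hv1
    obtain ⟨y0, hy0⟩ := hue 0
    obtain ⟨y1, hy1⟩ := hue 1
    exact ⟨γ * (x0 + v * y0) + δ * (x1 + v * y1), by
      linear_combination γ * hx0 + γ * v * hy0 + δ * hx1 + δ * v * hy1 - (1 - v * u) * hγδ⟩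
  have hu3 : (N : Qf a b ℤ) ∣ u ^ 2 - 1 := by
    obtain ⟨x, hx⟩ := huv
    obtain ⟨y, hy⟩ := hNd _ hvv
    exact ⟨-(u ^ 2) * y - (1 + v * u) * x, by
      linear_combination (-(u ^ 2)) * hy - (1 + v * u) * hx⟩
  have hkd : ∀ X : Qf a b ℤ, (N : Qf a b ℤ) ∣ X → (k : Qf a b ℤ) ∣ X :=
    fun X hX => (Nat.cast_dvd_cast hkN).trans hX
  rcases hC.sq N u h3N hu1 hu3 with h8 | h8
  · left
    intro i
    apply hkd
    have h9 := hue i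
    rw [h8, one_mul] at h9
    exact (dvd_sub_comm).1 h9
  · right
    intro i
    apply hkd
    have h9 := hue i
    rw [h8] at h9
    rw [Pi.smul_apply, smul_eq_mul]
    have h10 : e' i - -1 * e'' i = e'' i - -1 * e' i := by ring
    rw [h10]
    exact h9

end

end Pool.Agent.F8.CG
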