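import Pool.Agent.Lib.MP_305fdd_al.F8.CG.MainS2
import Pool.Agent.Lib.MP_305fdd_al.F8.CG.P_Sar
import Pool.Agent.Lib.MP_305fdd_al.F8.CG.P_Sbv
import Pool.Agent.Lib.MP_305fdd_al.F8.CG.P_Scert
import Pool.Agent.Lib.MP_305fdd_al.F8.CG.P_Scg
import Pool.Agent.Lib.MP_305fdd_al.F8.CG.P_Scl
import Pool.Agent.Lib.MP_305fdd_al.F8.CG.P_Scl0
import Pool.Agent.Lib.MP_305fdd_al.F8.CG.P_Scl1
import Pool.Agent.Lib.MP_305fdd_al.F8.CG.P_Scls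
import Pool.Agent.Lib.MP_305fdd_al.F8.CG.P_Scm0
import Pool.Agent.Lib.MP_305fdd_al.F8.CG.P_Scm1
import Pool.Agent.Lib.MP_305fdd_al.F8.CG.P_Scon
import Pool.Agent.Lib.MP_305fdd_al.F8.CG.P_Scz
import Pool.Agent.Lib.MP_305fdd_al.F8.CG.P_Scz0
import Pool.Agent.Lib.MP_305fdd_al.F8.CG.P_Sedge
import Pool.Agent.Lib.MP_305fdd_al.F8.CG.P_Sex
import Pool.Agent.Lib.MP_305fdd_al.F8.CG.P_Sext
import Pool.Agent.Lib.MP_305fdd_al.F8.CG.P_Sfx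
import Pool.Agent.Lib.MP_305fdd_al.F8.CG.P_Sh1
import Pool.Agent.Lib.MP_305fdd_al.F8.CG.P_Sinn
import Pool.Agent.Lib.MP_305fdd_al.F8.CG.P_Sint
import Pool.Agent.Lib.MP_305fdd_al.F8.CG.P_Slin
import Pool.Agent.Lib.MP_305fdd_al.F8.CG.P_Spair
import Pool.Agent.Lib.MP_305fdd_al.F8.CG.P_Spr
import Pool.Agent.Lib.MP_305fdd_al.F8.CG.P_Spsi
import Pool.Agent.Lib.MP_305fdd_al.F8.CG.P_Ssd0
import Pool.Agent.Lib.MP_305fdd_al.F8.CG.P_Ssd1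
import Pool.Agent.Lib.MP_305fdd_al.F8.CG.P_Ssd2
import Pool.Agent.Lib.MP_305fdd_al.F8.CG.P_Ssfe
import Pool.Agent.Lib.MP_305fdd_al.F8.CG.P_Ssfg
import Pool.Agent.Lib.MP_305fdd_al.F8.CG.P_Ssfl
import Pool.Agent.Lib.MP_305fdd_al.F8.CG.P_Ssm
import Pool.Agent.Lib.MP_305fdd_al.F8.CG.P_Str
import Pool.Agent.Lib.MP_305fdd_al.F8.CG.P_Sum
import Pool.Agent.Lib.MP_305fdd_al.F8.CG.P_Suq
import Pool.Agent.Lib.MP_305fdd_al.F8.CG.P_Svd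

/-!
# MP_305fdd_al, congruence subgroups: assembly of block S (the sign), part 3

All the statements together: every congruence lattice of `PSL(2, ℂ)` which is defined over one of the
five Euclidean imaginary quadratic fields is profinitely rigid.
-/

set_option autoImplicit false

namespace Pool.Agent.F8.CG

open Pool.Agent.F8.BG Pool.Agent.MP_305fdd_al Pool.Agent.Lib.MP_305fdd_al Pool.Agent.F8 NumberField
open scoped QuadraticAlgebra MatrixGroups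

theorem m_Sh1 : S_h1 := p_Sh1 m_Vvt

theorem m_Ssd0 : S_sd0 := p_Ssd0 (p_Sext m_Vvt m_Sh1)

theorem m_Sint : S_int := p_Sint p_Slin p_Sfx

theorem m_blkS : BlkS where
  cg := p_Scg
  bv := p_Sbv
  sfl := p_Ssfl m_Vvt
  sfe := p_Ssfe m_Sh1
  sfg := p_Ssfg
  sd1 := p_Ssd1 m_Ssd0
  sd2 := p_Ssd2 m_Ssd0
  pr := p_Spr
  cls := p_Scls m_Sh1 m_Sint
  edge := p_Sedge m_Sh1 p_Sum m_Sint
  cert := p_Scert m_Vvt p_Slin p_Sfx
  cz := p_Scz (p_Scz0 (p_Scl (p_Scl1 p_Scl0)))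
  pair := p_Spair p_Sex

theorem m_blkS3 : BlkS3 where
  vd := p_Svd
  uq := p_Suq
  sm := p_Ssm (p_Sinn p_Str p_Sar) p_Scon
  psi := p_Spsi
  cm1 := p_Scm1 p_Scm0

/-- the data of a quadratic field with a square root of `-1`, `-2`, `-3`, `-7` or `-11` -/
theorem ex_allS (K : Type) [Field K] [NumberField K]
    (hK : Module.finrank ℚ K = 2) (w : K)
    (hw : w ^ 2 = -1 ∨ w ^ 2 = -2 ∨ w ^ 2 = -3 ∨ w ^ 2 = -7 ∨ w ^ 2 = -11) :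
    ∃ (a b : ℤ) (_ : DatJ a b) (_ : DatS a b), Nonempty (Qf a b ℤ ≃+* 𝓞 K) := by
  obtain ⟨p, hp, h⟩ := ex_ring K hK w hw
  have H := datC z_thFm p hp
  have HR := hasR m_Uld p hp
  have HJ : DatJ p.1 p.2 := ⟨H, fun m₀ m₁ h3 h1 => rhoH_of blk m_blkK p_Jh p_Jun H
    HR m₀ m₁ h3 h1, uni36 p hp⟩
  have hfg : Group.FG (GQ p.1 p.2) := by
    obtain ⟨ι, _, α, N, w', M, c, g, G₀, η, hdat, -, -, -⟩ := HR
    exact blk.fg p.1 p.2 ι α M c g G₀ η hdat.eta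
  exact ⟨p.1, p.2, HJ, datS m_blkS H.five (HJ.pir blkW) hfg HR, h⟩

/-- all lattices of `PGL(2, K)` which contain a principal congruence subgroup of `SL(2, O_K)` -/
theorem rigid_PGL (K : Type) [Field K] [NumberField K] (hK : Module.finrank ℚ K = 2) (w : K)
    (hw : w ^ 2 = -1 ∨ w ^ 2 = -2 ∨ w ^ 2 = -3 ∨ w ^ 2 = -7 ∨ w ^ 2 = -11)
    (J : Ideal (𝓞 K)) (hJ : J ≠ ⊥) (Γ : Subgroup (PGL(2, K)))
    (hΓ : Cong.PG K J ≤ Γ) (hi : (Cong.PG K J).relIndex Γ ≠ 0) : ProfinitelyRigid Γ := by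
  obtain ⟨a, b, H, D, ⟨e⟩⟩ := ex_allS K hK w hw
  exact PGL_rigid e m_blkJ blkW blk m_blkS3 H D J hJ Γ hΓ hi

/-- all lattices of `PSL(2, ℂ)` which contain a principal congruence subgroup of `SL(2, O_K)` -/
theorem rigid_PSLC (K : Type) [Field K] [NumberField K] (hK : Module.finrank ℚ K = 2) (w : K)
    (hw : w ^ 2 = -1 ∨ w ^ 2 = -2 ∨ w ^ 2 = -3 ∨ w ^ 2 = -7 ∨ w ^ 2 = -11)
    (i : 𝓞 K →+* ℂ) (J : Ideal (𝓞 K)) (hJ : J ≠ ⊥) (Γ : Subgroup (PSL(2, ℂ)))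
    (hΓ : (Cong.G J).map (Cong.toPSL i) ≤ Γ)
    (hi : ((Cong.G J).map (Cong.toPSL i)).relIndex Γ ≠ 0) : ProfinitelyRigid Γ :=
  final_red K (fun J hJ Γ hΓ hi => rigid_PGL K hK w hw J hJ Γ hΓ hi) i J hJ Γ hΓ hi

end Pool.Agent.F8.CG
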