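import Pool.Agent.Lib.MP_305fdd_al.F8.CG.StmA3

/-!
# MP_305fdd_al, congruence subgroups: piece [CG TH], the hypotheses of the transfer
-/

set_option autoImplicit false

namespace Pool.Agent.F8.CG

open Pool.Agent.F8.BG Pool.Agent.Lib.MP_305fdd_al Pool.Agent.F8

noncomputable section

/-- Jordan blocks and base change -/
theorem TH_jor {B K : Type} [CommRing B] [CommRing K] (e : B →+* K) (m : ℕ) (τ : Bˣ) :
    jorG m (Units.map e.toMonoidHom τ) = GLm e (jorG m τ) := by
  apply Units.ext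
  ext i j
  show jorM m (e τ) i j = e (jorM m (τ : B) i j)
  unfold jorM
  split_ifs
  · rfl
  · rw [map_one]
  · rw [map_zero]

/-- the homomorphism to `Q3` which belongs to a crossed homomorphism -/
def TH_th {L R : Type} [Group L] [CommRing R] (n : L →* Multiplicative ℤ) (m : ℕ)
    (ρ : L →* SL2 R) (u : GL (Fin m) R) (z : L → Matrix (Fin 2) (Fin m) R)
    (hz : z ∈ Zc n m ρ u) : L →* Q3 m R :=
  MonoidHom.mk' (fun x => ⟨zpowersHom (GL (Fin m) R) u⁻¹ (n x), ρ x, z x⟩) (by
    intro x y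
    apply Q3.ext
    · show zpowersHom (GL (Fin m) R) u⁻¹ (n (x * y)) = _
      rw [map_mul, map_mul]
      rfl
    · exact map_mul ρ x y
    · show z (x * y) = z x + (ρ x).val * z y * ((zpowersHom (GL (Fin m) R) u⁻¹ (n x))⁻¹).val
      rw [hz x y, zpowersHom_apply, inv_zpow, inv_inv])

/-- the crossed homomorphism which belongs to a homomorphism to `Q3` -/
theorem TH_back {L B k : Type} [Group L] [CommRing B] [CommRing k] (j : B →+* k)
    (n : L →* Multiplicative ℤ) (m : ℕ) (ρ : L →* SL2 k) (τ : Bˣ) (Θ : L →* Q3 m k)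
    (hp : Q3.pH.comp Θ = ρ)
    (hq : Q3.qH.comp Θ = (GLm j).comp ((zpowersHom (GL (Fin m) B) (jorG m τ)⁻¹).comp n)) :
    (fun x => (Θ x).v) ∈ Zc n m ρ (jorG m (Units.map j.toMonoidHom τ)) := by
  intro x y
  have h1 : (Θ x).p = ρ x := DFunLike.congr_fun hp x
  have h2 : (Θ x).q = GLm j (zpowersHom (GL (Fin m) B) (jorG m τ)⁻¹ (n x)) :=
    DFunLike.congr_fun hq x
  have h3 : ((Θ x).q)⁻¹ = jorG m (Units.map j.toMonoidHom τ) ^ Multiplicative.toAdd (n x) := by
    rw [h2, zpowersHom_apply, inv_zpow, ← map_inv, inv_inv, map_zpow, TH_jor]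
  show (Θ (x * y)).v = (Θ x).v + _
  rw [map_mul, Q3.mul_v, h1, h3]

/-- the space of the crossed homomorphisms has finite dimension -/
theorem TH_fd {L k : Type} [Group L] [Group.FG L] [Field k] (n : L →* Multiplicative ℤ) (m : ℕ)
    (ρ : L →* SL2 k) (u : GL (Fin m) k) : Module.Finite k (Zc n m ρ u) := by
  obtain ⟨S, hS⟩ := Group.fg_def.mp ‹Group.FG L›
  let f : Zc n m ρ u →ₗ[k] (S → Matrix (Fin 2) (Fin m) k) :=
    { toFun := fun z s => (z : L → Matrix (Fin 2) (Fin m) k) s
      map_add' := fun _ _ => rfl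
      map_smul' := fun _ _ => rfl }
  apply Module.Finite.of_injective f
  rw [← LinearMap.ker_eq_bot, LinearMap.ker_eq_bot']
  rintro ⟨z, hz⟩ h0
  apply Subtype.ext
  show z = 0
  have hz' : ∀ x y, z (x * y) = z x + (ρ x).val * z y *
      ((u ^ Multiplicative.toAdd (n x) : GL (Fin m) k) : Matrix (Fin m) (Fin m) k) := hz
  have h1 : z 1 = 0 := by
    have h2 := hz' 1 1
    rw [mul_one, map_one, map_one] at h2
    simp only [toAdd_one, zpow_zero, Units.val_one, Matrix.mul_one,
      Matrix.SpecialLinearGroup.coe_one, Matrix.one_mul] at h2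
    have h3 : z 1 + 0 = z 1 + z 1 := by rw [add_zero]; exact h2
    exact (add_left_cancel h3).symm
  funext x
  show z x = 0
  have hx : x ∈ Subgroup.closure (S : Set L) := by rw [hS]; trivial
  induction hx using Subgroup.closure_induction with
  | mem x hx => exact congrFun h0 ⟨x, hx⟩
  | one => exact h1
  | mul x y _ _ hx hy =>
    rw [hz', hx, hy]
    simp
  | inv x _ hx =>
    have h2 := hz' x⁻¹ x
    rw [inv_mul_cancel, h1, hx] at h2
    simp only [Matrix.mul_zero, Matrix.zero_mul, add_zero] at h2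
    exact h2.symm

/-- linear independence over a domain and determinants -/
theorem TH_ind (hT : T_ind) {X B : Type} [CommRing B] [IsDomain B] {m d : ℕ}
    (z : Fin d → X → Matrix (Fin 2) (Fin m) B) (hz : LinearIndependent B z) :
    ∃ y : Fin d → X × Fin 2 × Fin m, dt z y ≠ 0 := by
  let g : B →+* FractionRing B := algebraMap B (FractionRing B)
  have hg : Function.Injective g := IsFractionRing.injective B (FractionRing B)
  let f : (X → Matrix (Fin 2) (Fin m) B) →ₗ[B] (X → Matrix (Fin 2) (Fin m) (FractionRing B)) :=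
    { toFun := fun z x => (z x).map g
      map_add' := fun z z' => by
        funext x
        ext i j
        exact map_add g _ _
      map_smul' := fun c z => by
        funext x
        ext i j
        show g (c * z x i j) = c • g (z x i j)
        rw [map_mul, Algebra.smul_def] }
  have hf : LinearMap.ker f = ⊥ := by
    rw [LinearMap.ker_eq_bot']
    intro z h0
    funext x
    ext i j
    have h1 : g (z x i j) = 0 := congrFun (congrFun (congrFun h0 x) i) j
    have h2 : z x i j = 0 := hg (by rw [h1, map_zero])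
    exact h2
  have h1 : LinearIndependent B (fun i => f (z i)) := hz.map' f hf
  have h2 : LinearIndependent (FractionRing B) (fun i => f (z i)) :=
    (LinearIndependent.iff_fractionRing B (FractionRing B)).1 h1
  obtain ⟨y, hy⟩ := (hT X m d (FractionRing B) (fun i => f (z i))).1 h2
  refine ⟨y, fun h0 => hy ?_⟩
  have h3 : dt (fun i => f (z i)) y = g (dt z y) := dt_map g z y
  rw [h3, h0, map_zero]

/-- the commutator subgroup -/
theorem TH_irc {G R : Type} [Group G] [CommRing R] (L : Subgroup G) (ρ : G →* SL2 R) :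
    IrC L ρ ↔ ∃ g ∈ commutator L, ∃ h ∈ commutator L,
      tr (ρ ((g * h * g⁻¹ * h⁻¹ : L) : G)) ≠ 2 := by
  unfold IrC
  rw [← Subgroup.map_subtype_commutator]
  constructor
  · rintro ⟨_, ⟨g, hg, rfl⟩, _, ⟨h, hh, rfl⟩, hne⟩
    exact ⟨g, hg, h, hh, hne⟩
  · rintro ⟨g, hg, h, hh, hne⟩
    exact ⟨_, ⟨g, hg, rfl⟩, _, ⟨h, hh, rfl⟩, hne⟩

/-- **[CG TH]** -/
theorem p_TH (hfam : A_fam) (hT : T_ind) : A_TH := by
  intro G _ _ nG a b hn ρ₀ hirr hF
  obtain ⟨n, c, L, hc, nL, N, M, hn0, hL, hM, hPol, hk, -, M₁, hM₁, hM₁'⟩ := hF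
  obtain ⟨B, iB1, iB2, iB3, e, n', t, he, ht, htL, htz, M₀, hM₀, hM₀'⟩ :=
    hfam G a b hn ρ₀ hirr n c L hc nL N M hL hM hPol
  choose jj mm ττ htt using ht
  obtain rfl : t = fun i => ⟨L (jj i), nL (jj i), mm i, ττ i⟩ := funext htt
  have hdom : IsDomain (Qf a b ℤ) := Qf_domain hn
  have hcz : CharZero B := charZero_of_injective_ringHom he
  have hfree : Module.Free ℤ B := inferInstance
  refine ⟨B, iB1, iB2, hfree, iB3, e, n', fun i => ⟨L (jj i), hL (jj i), mm i,
    (zpowersHom (GL (Fin (mm i)) B) (jorG (mm i) (ττ i))⁻¹).comp (nL (jj i)), 3 * mm i⟩,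
    ⟨?_, ?_, ?_⟩, ?_⟩
  · obtain ⟨i, -⟩ := htL ⟨0, hn0⟩
    exact lt_of_le_of_lt (Nat.zero_le _) i.2
  · intro i
    constructor
    · obtain ⟨g, hg, h, hh, hne⟩ := (TH_irc (L (jj i)) ρ₀).1 (hirr _ (hL (jj i)))
      refine ⟨g, hg, h, hh, ?_⟩
      show tr (SLm e (ρ₀ _)) ≠ 2
      rw [tr_map]
      intro h2
      exact hne (he (by rw [h2, map_ofNat]))
    · obtain ⟨z, hz, hli⟩ := htz i
      refine ⟨fun b => TH_th _ _ _ _ (z b) (hz b), fun b => ⟨?_, ?_⟩, TH_ind hT z hli⟩
      · rfl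
      · apply MonoidHom.ext
        intro x
        apply Units.ext
        ext r s
        rfl
  · refine ⟨(M₀ * M₁).natAbs, by
      rw [Int.natAbs_ne_zero]
      exact mul_ne_zero hM₀ hM₁, ?_⟩
    intro k _ _ hMk j ρ hHT
    have hMk' : ((M₀ * M₁ : ℤ) : k) ≠ 0 := by
      intro h0
      apply hMk
      rcases Int.natAbs_eq (M₀ * M₁) with h | h
      · rw [h, Int.cast_natCast] at h0
        exact h0
      · rw [h, Int.cast_neg, Int.cast_natCast, neg_eq_zero] at h0
        exact h0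
    rw [Int.cast_mul] at hMk'
    have hk0 := left_ne_zero_of_mul hMk'
    have hk1 := right_ne_zero_of_mul hMk'
    have htr := hM₀' k hk0 j ρ (fun i => (TH_irc _ ρ).2 (hHT i).irr) (fun i => by
      obtain ⟨Θ, hΘ, y, hy⟩ := (hHT i).coc
      have hfi : (L (jj i)).FiniteIndex := hL (jj i)
      have hfg : Group.FG (L (jj i)) := inferInstance
      have hfd := TH_fd (nL (jj i)) (mm i) (ρ.comp (L (jj i)).subtype)
        (jorG (mm i) (Units.map j.toMonoidHom (ττ i)))
      have hmem : ∀ s, (fun x => (Θ s x).v) ∈ Zc (nL (jj i)) (mm i)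
          (ρ.comp (L (jj i)).subtype) (jorG (mm i) (Units.map j.toMonoidHom (ττ i))) :=
        fun s => TH_back j _ _ _ _ (Θ s) (hΘ s).1 (hΘ s).2
      have hli : LinearIndependent k (fun s (x : L (jj i)) => (Θ s x).v) :=
        (hT (L (jj i)) (mm i) (3 * mm i) k _).2 ⟨y, hy⟩
      let z : Fin (3 * mm i) → Zc (nL (jj i)) (mm i)
          (ρ.comp (L (jj i)).subtype) (jorG (mm i) (Units.map j.toMonoidHom (ττ i))) :=
        fun s => ⟨_, hmem s⟩
      have hli' : LinearIndependent k z := LinearIndependent.of_comp (Submodule.subtype _) hli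
      have h1 := hli'.fintype_card_le_finrank
      rw [Fintype.card_fin] at h1
      exact h1)
    intro g
    exact hM₁' k hk1 (j.comp e) ρ htr g
  · intro i
    obtain ⟨k, hk1, hk2⟩ := hk (jj i)
    exact ⟨L (jj i), hL (jj i), k, nL (jj i), mm i, (jorG (mm i) (ττ i))⁻¹, 3 * mm i, hk1, hk2,
      rfl⟩

end

end Pool.Agent.F8.CG
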