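import Pool.Agent.Lib.MP_305fdd_al.F8.CG.StmA2
import Pool.Agent.Lib.MP_305fdd_al.F8.CG.P_Tind

/-!
# MP_305fdd_al, congruence subgroups: piece [CG bc], crossed homomorphisms over a subring
-/

set_option autoImplicit false

namespace Pool.Agent.F8.CG

open Pool.Agent.F8.BG Pool.Agent.Lib.MP_305fdd_al Pool.Agent.F8

/-- a functional over the field of fractions -/
private theorem bc_phi {B K : Type} [CommRing B] [IsDomain B] [Field K] (e : B →+* K)
    (he : Function.Injective e) :
    ∃ φ : K →+ FractionRing B,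
      (∀ b k, φ (e b * k) = algebraMap B (FractionRing B) b * φ k) ∧ φ 1 = 1 := by
  let f : FractionRing B →+* K := IsFractionRing.lift he
  have hf : ∀ b, f (algebraMap B (FractionRing B) b) = e b :=
    fun b => IsFractionRing.lift_algebraMap he b
  let _inst : Algebra (FractionRing B) K := f.toAlgebra
  obtain ⟨g, hg⟩ := LinearMap.exists_leftInverse_of_injective
    (Algebra.linearMap (FractionRing B) K) (by
      rw [LinearMap.ker_eq_bot]
      exact f.injective)
  refine ⟨g.toAddMonoidHom, ?_, ?_⟩
  · intro b k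
    show g (e b * k) = algebraMap B (FractionRing B) b * g k
    rw [← hf b]
    have h1 : f (algebraMap B (FractionRing B) b) * k = (algebraMap B (FractionRing B) b) • k := rfl
    rw [h1, map_smul, smul_eq_mul]
  · show g 1 = 1
    have h1 := LinearMap.congr_fun hg 1
    have h2 : Algebra.linearMap (FractionRing B) K 1 = 1 := by
      rw [Algebra.linearMap_apply, map_one]
    rw [LinearMap.comp_apply, h2] at h1
    exact h1

private theorem bc_jor {B K : Type} [CommRing B] [CommRing K] (e : B →+* K) (m : ℕ) (τ : Bˣ) :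
    jorG m (Units.map e.toMonoidHom τ) = Matrix.GeneralLinearGroup.map e (jorG m τ) := by
  apply Units.ext
  ext i j
  show jorM m (e τ) i j = e (jorM m (τ : B) i j)
  unfold jorM
  split_ifs
  · rfl
  · rw [map_one]
  · rw [map_zero]

private theorem bc_mem {L B K : Type} [Group L] [CommRing B] [CommRing K]
    (n : L →* Multiplicative ℤ) (m : ℕ) (e : B →+* K) (ρ : L →* SL2 B) (τ : Bˣ)
    (z : L → Matrix (Fin 2) (Fin m) K) :
    z ∈ Zc n m ((SLm e).comp ρ) (jorG m (Units.map e.toMonoidHom τ)) ↔
      ∀ x y, z (x * y) = z x + (ρ x).val.map e * z y *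
        ((jorG m τ ^ Multiplicative.toAdd (n x) : Matrix.GeneralLinearGroup (Fin m) B) :
          Matrix (Fin m) (Fin m) B).map e := by
  have h : ∀ k : ℤ, ((jorG m (Units.map e.toMonoidHom τ) ^ k :
      Matrix.GeneralLinearGroup (Fin m) K) : Matrix (Fin m) (Fin m) K) =
      ((jorG m τ ^ k : Matrix.GeneralLinearGroup (Fin m) B) : Matrix (Fin m) (Fin m) B).map e := by
    intro k
    rw [bc_jor, ← map_zpow]
    rfl
  constructor
  · intro hz x y
    rw [← h]
    exact hz x y
  · intro hz x y
    have h1 := hz x y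
    rw [← h] at h1
    exact h1

private theorem bc_map {B K F : Type} [CommRing B] [CommRing K] [CommRing F] (e : B →+* K)
    (i₁ : B →+* F) (φ : K →+ F) (h : ∀ b k, φ (e b * k) = i₁ b * φ k) {m : ℕ}
    (P : Matrix (Fin 2) (Fin 2) B) (Z : Matrix (Fin 2) (Fin m) K)
    (U : Matrix (Fin m) (Fin m) B) :
    (P.map e * Z * U.map e).map φ = P.map i₁ * Z.map φ * U.map i₁ := by
  ext i a
  rw [Matrix.map_apply, Matrix.mul_apply, map_sum, Matrix.mul_apply]
  refine Finset.sum_congr rfl fun a' _ => ?_
  rw [Matrix.map_apply, Matrix.map_apply, mul_comm, h, mul_comm, Matrix.mul_apply, map_sum,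
    Matrix.mul_apply]
  refine congrArg (fun x => x * i₁ (U a' a)) ?_
  refine Finset.sum_congr rfl fun j _ => ?_
  rw [Matrix.map_apply, h]
  rfl

/-- a common denominator -/
private theorem bc_den {L B : Type} [Group L] [Group.FG L] [CommRing B] [IsDomain B]
    (n : L →* Multiplicative ℤ) (m : ℕ) (ρ : L →* SL2 B) (τ : Bˣ) (d : ℕ)
    (w : Fin d → L → Matrix (Fin 2) (Fin m) (FractionRing B))
    (hw : ∀ b x y, w b (x * y) = w b x + (ρ x).val.map (algebraMap B (FractionRing B)) * w b y *
        ((jorG m τ ^ Multiplicative.toAdd (n x) : Matrix.GeneralLinearGroup (Fin m) B) :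
          Matrix (Fin m) (Fin m) B).map (algebraMap B (FractionRing B))) :
    ∃ c : B, c ≠ 0 ∧ ∀ b x, ∃ v : Matrix (Fin 2) (Fin m) B,
      v.map (algebraMap B (FractionRing B)) = (algebraMap B (FractionRing B) c) • w b x := by
  obtain ⟨S, hS⟩ := (Group.FG.out : (⊤ : Subgroup L).FG)
  obtain ⟨⟨c, hc⟩, h⟩ := IsLocalization.exist_integer_multiples_of_finite (nonZeroDivisors B)
    (fun p : S × Fin d × Fin 2 × Fin m => w p.2.1 p.1 p.2.2.1 p.2.2.2)
  refine ⟨c, nonZeroDivisors.ne_zero hc, ?_⟩
  have h1 : ∀ b, w b 1 = 0 := by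
    intro b
    have h2 := hw b 1 1
    rw [mul_one, map_one, map_one, toAdd_one, zpow_zero] at h2
    have h3 : ((1 : SL2 B).val.map (algebraMap B (FractionRing B))) = 1 := by
      show (1 : Matrix (Fin 2) (Fin 2) B).map _ = 1
      exact Matrix.map_one _ (map_zero _) (map_one _)
    have h4 : (((1 : Matrix.GeneralLinearGroup (Fin m) B) : Matrix (Fin m) (Fin m) B).map
        (algebraMap B (FractionRing B))) = 1 := by
      show (1 : Matrix (Fin m) (Fin m) B).map _ = 1
      exact Matrix.map_one _ (map_zero _) (map_one _)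
    rw [h3, h4, Matrix.one_mul, Matrix.mul_one] at h2
    exact left_eq_add.1 h2
  have key : ∀ x ∈ Subgroup.closure (S : Set L), ∀ b, ∃ v : Matrix (Fin 2) (Fin m) B,
      v.map (algebraMap B (FractionRing B)) = (algebraMap B (FractionRing B) c) • w b x := by
    intro x hx
    induction hx using Subgroup.closure_induction with
    | mem x hx =>
      intro b
      have h2 : ∀ i a, ∃ v : B, algebraMap B (FractionRing B) v =
          algebraMap B (FractionRing B) c * w b x i a := by
        intro i a
        obtain ⟨v, hv⟩ := h (⟨x, hx⟩, b, i, a)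
        refine ⟨v, ?_⟩
        rw [hv, Algebra.smul_def]
      choose v hv using h2
      refine ⟨Matrix.of v, ?_⟩
      ext i a
      exact hv i a
    | one =>
      intro b
      refine ⟨0, ?_⟩
      rw [h1 b, smul_zero]
      exact Matrix.map_zero _ (map_zero _)
    | mul x y _ _ hx hy =>
      intro b
      obtain ⟨v, hv⟩ := hx b
      obtain ⟨v', hv'⟩ := hy b
      refine ⟨v + (ρ x).val * v' *
        ((jorG m τ ^ Multiplicative.toAdd (n x) : Matrix.GeneralLinearGroup (Fin m) B) :
          Matrix (Fin m) (Fin m) B), ?_⟩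
      rw [Matrix.map_add _ (map_add _), Matrix.map_mul, Matrix.map_mul, hv, hv', hw b x y,
        smul_add, Matrix.mul_smul, Matrix.smul_mul]
    | inv x _ hx =>
      intro b
      obtain ⟨v, hv⟩ := hx b
      refine ⟨-((ρ x⁻¹).val * v *
        ((jorG m τ ^ Multiplicative.toAdd (n x⁻¹) : Matrix.GeneralLinearGroup (Fin m) B) :
          Matrix (Fin m) (Fin m) B)), ?_⟩
      have h2 := hw b x⁻¹ x
      rw [inv_mul_cancel, h1 b] at h2
      have h3 := eq_neg_of_add_eq_zero_left h2.symm
      rw [h3, smul_neg, ← Matrix.smul_mul, ← Matrix.mul_smul, ← hv, ← Matrix.map_mul,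
        ← Matrix.map_mul]
      ext i a
      rw [Matrix.map_apply, Matrix.neg_apply, Matrix.neg_apply, map_neg, Matrix.map_apply]
  intro b x
  exact key x (by rw [hS]; exact Subgroup.mem_top x) b

theorem p_bc : A_bc := by
  intro L _ _ n m K B _ _ e he ρ τ d hd
  have hdom : IsDomain B := he.isDomain e
  obtain ⟨f, hf⟩ := exists_linearIndependent_of_le_finrank hd
  have hf' : LinearIndependent K (fun i => (f i : L → Matrix (Fin 2) (Fin m) K)) :=
    hf.map' (Submodule.subtype _) (Submodule.ker_subtype _)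
  obtain ⟨y, hy⟩ := (p_Tind L m d K _).1 hf'
  obtain ⟨φ, hφ, hφ1⟩ := bc_phi e he
  -- the dual family
  set A : Matrix (Fin d) (Fin d) K :=
    Matrix.of fun i l => (f i : L → Matrix (Fin 2) (Fin m) K) (y l).1 (y l).2.1 (y l).2.2 with hA
  have hAd : IsUnit A.det := isUnit_iff_ne_zero.2 hy
  have hCA : A⁻¹ * A = 1 := Matrix.nonsing_inv_mul A hAd
  let g : Fin d → L → Matrix (Fin 2) (Fin m) K := fun b => ∑ i, A⁻¹ b i •
    (f i : L → Matrix (Fin 2) (Fin m) K)
  have hgZ : ∀ b, g b ∈ Zc n m ((SLm e).comp ρ) (jorG m (Units.map e.toMonoidHom τ)) := by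
    intro b
    exact Submodule.sum_mem _ fun i _ => Submodule.smul_mem _ _ (f i).2
  have hgy : ∀ b l, g b (y l).1 (y l).2.1 (y l).2.2 = if b = l then 1 else 0 := by
    intro b l
    have h1 : (A⁻¹ * A) b l = (1 : Matrix (Fin d) (Fin d) K) b l := by rw [hCA]
    rw [Matrix.mul_apply, Matrix.one_apply] at h1
    rw [← h1]
    show (∑ i, A⁻¹ b i • (f i : L → Matrix (Fin 2) (Fin m) K)) (y l).1 (y l).2.1 (y l).2.2 = _
    rw [Finset.sum_apply, Matrix.sum_apply]
    rfl
  -- over the field of fractions
  let w : Fin d → L → Matrix (Fin 2) (Fin m) (FractionRing B) := fun b x => (g b x).map φ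
  have hw : ∀ b x y, w b (x * y) = w b x + (ρ x).val.map (algebraMap B (FractionRing B)) *
      w b y * ((jorG m τ ^ Multiplicative.toAdd (n x) : Matrix.GeneralLinearGroup (Fin m) B) :
          Matrix (Fin m) (Fin m) B).map (algebraMap B (FractionRing B)) := by
    intro b x y
    have h1 := (bc_mem n m e ρ τ (g b)).1 (hgZ b) x y
    show (g b (x * y)).map φ = _
    rw [h1, Matrix.map_add φ (map_add φ), bc_map e (algebraMap B (FractionRing B)) φ hφ]
  have hwy : ∀ b l, w b (y l).1 (y l).2.1 (y l).2.2 = if b = l then 1 else 0 := by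
    intro b l
    show φ (g b (y l).1 (y l).2.1 (y l).2.2) = _
    rw [hgy]
    split_ifs
    · exact hφ1
    · exact map_zero φ
  obtain ⟨c, hc, hv⟩ := bc_den n m ρ τ d w hw
  choose z hz using hv
  have hinj : Function.Injective (algebraMap B (FractionRing B)) :=
    IsFractionRing.injective B (FractionRing B)
  refine ⟨z, ?_, ?_⟩
  · intro b x y
    apply Matrix.map_injective hinj
    beta_reduce
    rw [hz, Matrix.map_add _ (map_add _), Matrix.map_mul, Matrix.map_mul, hz, hz, hw b x y,
      smul_add, Matrix.mul_smul, Matrix.smul_mul]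
  · rw [Fintype.linearIndependent_iff]
    intro a ha l
    have h1 := congrFun (congrFun (congrFun ha (y l).1) (y l).2.1) (y l).2.2
    rw [Finset.sum_apply, Matrix.sum_apply] at h1
    have h2 := congrArg (algebraMap B (FractionRing B)) h1
    rw [map_sum] at h2
    have h3 : ∀ b ∈ Finset.univ, algebraMap B (FractionRing B)
        ((a b • z b) (y l).1 (y l).2.1 (y l).2.2) =
        if b = l then algebraMap B (FractionRing B) (a b * c) else 0 := by
      intro b _
      have h4 : algebraMap B (FractionRing B) (z b (y l).1 (y l).2.1 (y l).2.2) =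
          algebraMap B (FractionRing B) c * w b (y l).1 (y l).2.1 (y l).2.2 :=
        congrFun (congrFun (hz b (y l).1) (y l).2.1) (y l).2.2
      show algebraMap B (FractionRing B) (a b * z b (y l).1 (y l).2.1 (y l).2.2) = _
      rw [map_mul, h4, hwy]
      split_ifs
      · rw [mul_one, map_mul]
      · rw [mul_zero, mul_zero]
    rw [Finset.sum_congr rfl h3, Finset.sum_ite_eq' Finset.univ l, if_pos (Finset.mem_univ l)] at h2
    have h5 : a l * c = 0 := by
      apply hinj
      rw [h2]
      rfl
    exact (mul_eq_zero.1 h5).resolve_right hc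

end Pool.Agent.F8.CG
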