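import Pool.Agent.Lib.MP_305fdd_al.F8.CG.StmA3

/-!
# MP_305fdd_al, congruence subgroups: piece fam (after `P_th.lean` of helper53)
-/

set_option autoImplicit false

namespace Pool.Agent.F8.CG

open Pool.Agent.F8.BG Pool.Agent.MP_305fdd_al Pool.Agent.Lib.MP_305fdd_al Pool.Agent.F8
open scoped QuadraticAlgebra

/-- evaluation at a root of `w² = a + b w` is injective -/
private theorem fam_inj {a b : ℤ} (hn : b ^ 2 + 4 * a < 0) {K : Type} [Field K] [CharZero K] (w : K)
    (hw : w * w = (a : K) + (b : K) * w) :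
    Function.Injective (evq a b (Int.castRingHom K) w hw) := by
  rw [injective_iff_map_eq_zero]
  intro z hz
  rw [evq_apply, eq_intCast, eq_intCast] at hz
  apply nq_eq_zero hn
  have h1 : ((nq z : ℤ) : K) = 0 := by
    unfold nq
    simp only [Int.cast_id]
    push_cast
    linear_combination ((z.re : K) + b * z.im - z.im * w) * hz + (z.im : K) * z.im * hw
  exact_mod_cast h1

/-- an injective homomorphism to an algebraically closed field -/
private theorem fam_emb {a b : ℤ} (hn : b ^ 2 + 4 * a < 0) (K : Type) [Field K] [CharZero K]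
    [IsAlgClosed K] : ∃ e : Qf a b ℤ →+* K, Function.Injective e := by
  obtain ⟨w, hw⟩ : ∃ w : K, w * w = (a : K) + (b : K) * w := by
    obtain ⟨s, hs⟩ := IsAlgClosed.exists_pow_nat_eq ((b : K) ^ 2 + 4 * a) (n := 2) (by norm_num)
    refine ⟨((b : K) + s) / 2, ?_⟩
    field_simp
    linear_combination hs
  exact ⟨_, fam_inj hn w hw⟩

private theorem fam_conj {R : Type} [CommRing R] {g h : SL2 R} (hc : IsConj g h) :
    tr g = tr h := by
  obtain ⟨c, hc⟩ := isConj_iff.1 hc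
  rw [← hc]
  show g.val.trace = (c * g * c⁻¹).val.trace
  have h1 : (c * g * c⁻¹).val = c.val * g.val * c⁻¹.val := rfl
  have h2 : c⁻¹.val * c.val = 1 := by
    have h3 : (c⁻¹ * c).val = (1 : SL2 R).val := by rw [inv_mul_cancel]
    exact h3
  rw [h1, Matrix.trace_mul_comm, ← Matrix.mul_assoc, h2, Matrix.one_mul]

private theorem fam_fin (a b : ℤ) (m : ℕ) [NeZero m] : Finite (SL2 (Qf a b (ZMod m))) := by
  have : Finite (Qf a b (ZMod m)) :=
    Finite.of_equiv (ZMod m × ZMod m) (QuadraticAlgebra.equivProd (a : ZMod m) (b : ZMod m)).symm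
  infer_instance

private theorem fam_int (x y : ℤ) (h : ∀ m : ℕ, m ≠ 0 → (x : ZMod m) = (y : ZMod m)) : x = y := by
  by_contra hne
  have h0 : x - y ≠ 0 := sub_ne_zero.2 hne
  have h1 := h ((x - y).natAbs + 1) (Nat.succ_ne_zero _)
  have h2 : (((x - y : ℤ)) : ZMod ((x - y).natAbs + 1)) = 0 := by
    rw [Int.cast_sub, h1, sub_self]
  have h3 := (ZMod.intCast_zmod_eq_zero_iff_dvd _ _).1 h2
  have h4 := Int.natAbs_dvd_natAbs.2 h3
  rw [Int.natAbs_natCast] at h4
  have h5 := Nat.le_of_dvd (Int.natAbs_pos.2 h0) h4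
  omega

/-- profinitely conjugate elements have the same traces -/
private theorem fam_pc {G : Type} [Group G] {a b : ℤ} (ρ : G →* GQ a b) {c' c : G}
    (h : PConj c' c) : tr (ρ c') = tr (ρ c) := by
  have key : ∀ m : ℕ, m ≠ 0 → Qfm a b (Int.castRingHom (ZMod m)) (tr (ρ c')) =
      Qfm a b (Int.castRingHom (ZMod m)) (tr (ρ c)) := by
    intro m hm
    have : NeZero m := ⟨hm⟩
    have := fam_fin a b m
    have h1 := fam_conj (h _ ((rdq a b m).comp ρ))
    rw [MonoidHom.comp_apply, MonoidHom.comp_apply] at h1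
    unfold rdq at h1
    rwa [tr_map, tr_map] at h1
  apply QuadraticAlgebra.ext
  · exact fam_int _ _ fun m hm => congrArg QuadraticAlgebra.re (key m hm)
  · exact fam_int _ _ fun m hm => congrArg QuadraticAlgebra.im (key m hm)

/-- the finite extension -/
private theorem fam_ring {a b : ℤ} (K : Type) [Field K] (e₀ : Qf a b ℤ →+* K) (R₀ : Finset K)
    (hR : ∀ τ ∈ R₀, τ ≠ 0 ∧ IsIntegral ℤ τ ∧ IsIntegral ℤ τ⁻¹) :
    ∃ (B : Type) (_ : CommRing B) (_ : IsDomain B) (_ : Module.Finite ℤ B)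
      (e : Qf a b ℤ →+* B) (v : B →+* K) (R : Finset Bˣ), Function.Injective v ∧
      v.comp e = e₀ ∧ R.Nonempty ∧ ∀ τ ∈ R₀, ∃ u ∈ R, v (u : B) = τ := by
  classical
  have hint : ∀ z : Qf a b ℤ, IsIntegral ℤ (e₀ z) := by
    intro z
    have h1 : IsIntegral ℤ z := Algebra.IsIntegral.isIntegral z
    exact h1.map e₀.toIntAlgHom
  let S : Set K := {e₀ ⟨0, 1⟩} ∪ ((R₀ : Set K) ∪ (fun x : K => x⁻¹) '' (R₀ : Set K))
  have hSf : S.Finite := (Set.finite_singleton _).union
    ((Finset.finite_toSet _).union ((Finset.finite_toSet _).image _))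
  have hSi : ∀ x ∈ S, IsIntegral ℤ x := by
    rintro x (hx | hx | ⟨y, hy, rfl⟩)
    · rw [Set.mem_singleton_iff] at hx
      rw [hx]
      exact hint _
    · exact (hR x hx).2.1
    · exact (hR y hy).2.2
  let B : Subalgebra ℤ K := Algebra.adjoin ℤ S
  have hBf : Module.Finite ℤ B := Algebra.finite_adjoin_of_finite_of_isIntegral hSf hSi
  have hSB : ∀ x ∈ S, x ∈ B := fun x hx => Algebra.subset_adjoin hx
  have heB : ∀ z : Qf a b ℤ, e₀ z ∈ B := by
    intro z
    have h1 : z = (z.re : Qf a b ℤ) + (z.im : Qf a b ℤ) * ⟨0, 1⟩ := by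
      ext <;> simp
    rw [h1, map_add, map_mul, map_intCast, map_intCast]
    exact add_mem (intCast_mem B _) (mul_mem (intCast_mem B _) (hSB _ (Or.inl rfl)))
  have hu : ∀ τ : R₀, ∃ u : Bˣ, ((u : B) : K) = τ := by
    rintro ⟨τ, hτ⟩
    have h1 : τ ∈ B := hSB _ (Or.inr (Or.inl hτ))
    have h2 : τ⁻¹ ∈ B := hSB _ (Or.inr (Or.inr ⟨τ, hτ, rfl⟩))
    have h3 := (hR τ hτ).1
    exact ⟨⟨⟨τ, h1⟩, ⟨τ⁻¹, h2⟩, Subtype.ext (mul_inv_cancel₀ h3),
      Subtype.ext (inv_mul_cancel₀ h3)⟩, rfl⟩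
  choose u hu using hu
  refine ⟨B, inferInstance, inferInstance, hBf, e₀.codRestrict B heB, B.val.toRingHom,
    insert 1 (Finset.univ.image u), Subtype.val_injective, ?_, Finset.insert_nonempty _ _, ?_⟩
  · ext z; rfl
  · intro τ hτ
    exact ⟨u ⟨τ, hτ⟩, Finset.mem_insert_of_mem (Finset.mem_image_of_mem _ (Finset.mem_univ _)),
      hu ⟨τ, hτ⟩⟩

private theorem fam_map {G R S : Type} [Group G] [CommRing R] [CommRing S] (f : R →+* S)
    (ρ : G →* SL2 R) (g : G) : tr (((SLm f).comp ρ) g) = f (tr (ρ g)) := by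
  rw [MonoidHom.comp_apply]
  exact tr_map f _

/-- PIECE CG fam -/
theorem p_fam (hpol : A_pol) (hnrm : A_nrm) (hbc : A_bc) : A_fam := by
  intro G _ _ a b hn ρ₀ hirr n c L hc nL N M hL hM hP
  classical
  -- the field
  obtain ⟨K, iK, iK0, iKc⟩ : ∃ (K : Type) (_ : Field K) (_ : CharZero K), IsAlgClosed K :=
    ⟨AlgebraicClosure ℚ, inferInstance, inferInstance, inferInstance⟩
  obtain ⟨e₀, he₀⟩ := fam_emb hn K
  let ρK : G →* SL2 K := (SLm e₀).comp ρ₀
  have hρK : ∀ g, tr (ρK g) = e₀ (tr (ρ₀ g)) := fam_map e₀ ρ₀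
  have hirK : ∀ L : Subgroup G, L.FiniteIndex → IrC L ρK := by
    intro L hL
    obtain ⟨g, hg, h, hh, hgh⟩ := hirr L hL
    refine ⟨g, hg, h, hh, fun h2 => hgh ?_⟩
    rw [hρK] at h2
    apply he₀
    rw [h2, map_ofNat]
  have hpcK : ∀ c c' : G, PConj c' c → tr (ρK c') = tr (ρK c) := by
    intro c c' h
    rw [hρK, hρK, fam_pc ρ₀ h]
  choose P hPP using fun i => hP i K ρK (hirK _ (hL i)) (hpcK _)
  -- the ring
  have hintK : ∀ (x : G) (i j : Fin 2), IsIntegral ℤ ((ρK x).val i j) := by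
    intro x i j
    have h1 : IsIntegral ℤ ((ρ₀ x).val i j) := Algebra.IsIntegral.isIntegral _
    exact h1.map e₀.toIntAlgHom
  obtain ⟨B, iB, iBd, iBf, e, v, R, hv, hve, ⟨r₀, hr₀⟩, hR⟩ := fam_ring K e₀
    (Finset.univ.biUnion fun i => (P i).roots.toFinset) (by
      intro τ hτ
      obtain ⟨c, -, hc⟩ := Finset.mem_biUnion.1 hτ
      have h2 : (P c).IsRoot τ := Polynomial.isRoot_of_mem_roots (Multiset.mem_toFinset.1 hc)
      refine ⟨?_, (hPP c).int (fun x i j => hintK _ i j) τ h2⟩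
      rintro rfl
      exact (hPP c).ne h2)
  have hve' : ∀ z, v (e z) = e₀ z := fun z => by rw [← hve]; rfl
  have he : Function.Injective e := by
    intro z z' h
    apply he₀
    rw [← hve', ← hve', h]
  have hroot : ∀ i, ∀ τ, (P i).IsRoot τ → ∃ u ∈ R, v (u : B) = τ := by
    intro i τ hτ
    apply hR
    exact Finset.mem_biUnion.2 ⟨i, Finset.mem_univ _, Multiset.mem_toFinset.2
      ((Polynomial.mem_roots (hPP i).mon.ne_zero).2 hτ)⟩
  -- the integer
  have hq : ∀ τ τ' : Bˣ, ∃ q : ℤ, q ≠ 0 ∧ (τ ≠ τ' → ((τ : B) - τ') ∣ (q : B)) := by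
    intro τ τ'
    by_cases h : τ = τ'
    · exact ⟨1, one_ne_zero, fun h' => absurd h h'⟩
    · obtain ⟨q, hq, hq'⟩ := hnrm B ((τ : B) - τ') (sub_ne_zero.2 fun h' => h (Units.ext h'))
      exact ⟨q, hq, fun _ => hq'⟩
  choose q hq0 hq using hq
  -- the tests
  let T : Type := Fin n × {τ // τ ∈ R}
  let tt : T → TT G B := fun s => ⟨L s.1, nL s.1, (P s.1).rootMultiplicity (v (s.2.1 : B)),
    s.2.1⟩
  let eT : T ≃ Fin (Fintype.card T) := Fintype.equivFin T
  refine ⟨B, iB, iBd, iBf, e, Fintype.card T, fun i => tt (eT.symm i), he, ?_, ?_, ?_,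
    (∏ i, M i) * (∏ p ∈ R ×ˢ R, q p.1 p.2), ?_, ?_⟩
  · intro i
    exact ⟨_, _, _, rfl⟩
  · intro j
    refine ⟨eT (j, ⟨r₀, hr₀⟩), ?_⟩
    simp only [Equiv.symm_apply_apply]
    rfl
  · intro i
    beta_reduce
    generalize eT.symm i = s
    obtain ⟨c, τ⟩ := s
    have iL := hL c
    have iLf : Group.FG (L c) := inferInstance
    have h2 := (hPP c).eq (Units.map v.toMonoidHom τ.1)
    exact hbc (L c) (nL c) _ K B v hv ((SLm e).comp (ρ₀.comp (L c).subtype)) τ.1 _ (by
      have h3 : (SLm v).comp ((SLm e).comp (ρ₀.comp (L c).subtype)) =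
          ρK.comp (L c).subtype := by
        apply MonoidHom.ext
        intro g
        apply Subtype.ext
        ext i j
        exact hve' _
      rw [h3]
      exact h2.ge)
  · refine mul_ne_zero ?_ ?_
    · rw [Finset.prod_ne_zero_iff]
      intro c _
      exact hM c
    · rw [Finset.prod_ne_zero_iff]
      intro p _
      exact hq0 _ _
  · intro k _ _ hM₀ j ρ hir hpass
    rw [Int.cast_mul, Int.cast_prod, Int.cast_prod] at hM₀
    have hMk : ∀ i, (M i : k) ≠ 0 := by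
      intro i
      exact Finset.prod_ne_zero_iff.1 (left_ne_zero_of_mul hM₀) i (Finset.mem_univ _)
    have hqk : ∀ τ ∈ R, ∀ τ' ∈ R, (q τ τ' : k) ≠ 0 := by
      intro τ hτ τ' hτ'
      exact Finset.prod_ne_zero_iff.1 (right_ne_zero_of_mul hM₀) (τ, τ')
        (Finset.mk_mem_product hτ hτ')
    have hdv : ∀ (z : B) (m : ℤ), z ∣ (m : B) → (m : k) ≠ 0 → j z ≠ 0 := by
      rintro z m ⟨z', hz⟩ hm h
      apply hm
      have h2 := congrArg j hz
      rwa [map_intCast, map_mul, h, zero_mul] at h2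
    have hjR : Set.InjOn j ((R.image fun u : Bˣ => (u : B) : Finset B) : Set B) := by
      intro t ht t' ht' h
      obtain ⟨τ, hτ, rfl⟩ := Finset.mem_image.1 (Finset.mem_coe.1 ht)
      obtain ⟨τ', hτ', rfl⟩ := Finset.mem_image.1 (Finset.mem_coe.1 ht')
      by_contra hne
      refine hdv _ _ (hq τ τ' fun h' => hne (by rw [h'])) (hqk τ hτ τ' hτ') ?_
      rw [map_sub, h, sub_self]
    intro i
    have hirc : IrC (L i) ρ := by
      have h2 := hir (eT (i, ⟨r₀, hr₀⟩))
      simp only [Equiv.symm_apply_apply] at h2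
      exact h2
    have hpcc : ∀ c' : G, PConj c' (c i) → tr (ρ c') = tr (ρ (c i)) := by
      intro c' h
      exact fam_conj (h _ ρ)
    obtain ⟨P', hP'⟩ := hP i k ρ hirc hpcc
    obtain ⟨s, hs, hs'⟩ := hpol K k B v j hv (P i) P' (hPP i).mon hP'.mon
      ((hPP i).deg.trans hP'.deg.symm) (IsAlgClosed.splits _)
      (R.image fun u : Bˣ => (u : B)) (by
        intro t ht
        obtain ⟨u, hu, hut⟩ := hroot i t ht
        exact ⟨u, Finset.mem_image_of_mem _ hu, hut⟩) hjR (by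
        intro t ht
        obtain ⟨τ, hτ, rfl⟩ := Finset.mem_image.1 ht
        have h2 := hpass (eT (i, ⟨τ, hτ⟩))
        simp only [Equiv.symm_apply_apply] at h2
        have h3 := hP'.le (Units.map j.toMonoidHom τ) ((P i).rootMultiplicity (v (τ : B)))
        have h4 : 3 * (P i).rootMultiplicity (v (τ : B)) ≤ _ := h2
        have h5 := h4.trans h3
        have h6 : ((Units.map j.toMonoidHom τ : kˣ) : k) = j (τ : B) := rfl
        rw [h6] at h5
        omega)
    rw [(hPP i).tra] at hs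
    rw [hP'.tra] at hs'
    have h2 : s = -((M i : B) * e (tr (ρ₀ (c i)))) := by
      apply hv
      rw [← hs, map_neg, map_mul, map_intCast, hve', ← hρK]
      rfl
    rw [h2, map_neg, map_mul, map_intCast, neg_inj] at hs'
    exact mul_left_cancel₀ (hMk i) hs'

end Pool.Agent.F8.CG
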