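import Pool.Agent.Lib.MP_305fdd_al.F8.CG.StmA

set_option autoImplicit false

namespace Pool.Agent.F8.CG

open Pool.Agent.Lib.MP_305fdd_al Pool.Agent.F8

private abbrev fri_M (K : Type) : Type := Matrix (Fin 2) (Fin 2) K

private lemma fri_det {K : Type} [Field K] (X Y : fri_M K) (hX : X.det = 1) (hY : Y.det = 1) :
    (X * Y - Y * X).det = 4 + X.trace * Y.trace * (X * Y).trace - X.trace ^ 2 - Y.trace ^ 2
      - (X * Y).trace ^ 2 := by
  have h : (X * Y - Y * X).det = 4 * X.det * Y.det + X.trace * Y.trace * (X * Y).trace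
      - X.trace ^ 2 * Y.det - Y.trace ^ 2 * X.det - (X * Y).trace ^ 2 := by
    simp only [Matrix.det_fin_two, Matrix.trace_fin_two, Matrix.sub_apply, Matrix.mul_apply,
      Fin.sum_univ_two]
    ring
  rw [h, hX, hY]
  ring

private lemma fri_com {K : Type} [Field K] (g h : SL2 K) :
    (g.val * h.val - h.val * g.val).det = 2 - tr (g * h * g⁻¹ * h⁻¹) := by
  have hg : g.val.det = 1 := g.2
  have hh : h.val.det = 1 := h.2
  have h1 : (g.val * h.val - h.val * g.val).det = 2 * g.val.det * h.val.det -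
      (g.val * h.val * g.val.adjugate * h.val.adjugate).trace := by
    rw [Matrix.adjugate_fin_two, Matrix.adjugate_fin_two]
    simp only [Matrix.det_fin_two, Matrix.trace_fin_two, Matrix.sub_apply, Matrix.mul_apply,
      Fin.sum_univ_two, Matrix.of_apply, Matrix.cons_val', Matrix.cons_val_zero,
      Matrix.cons_val_one, Matrix.cons_val_fin_one]
    ring
  rw [h1, hg, hh, mul_one, mul_one]
  rfl

private def fri_dt {K : Type} [Field K] (a b c d e f g h i : K) : K :=
  a * (e * i - f * h) - b * (d * i - f * g) + c * (d * h - e * g)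

private lemma fri_D {K : Type} [Field K] (X Y : fri_M K) :
    fri_dt (X 0 1) (X 1 0) (X 1 1 - X 0 0) (Y 0 1) (Y 1 0) (Y 1 1 - Y 0 0)
      ((X * Y) 0 1) ((X * Y) 1 0) ((X * Y) 1 1 - (X * Y) 0 0) = (X * Y - Y * X).det ∨
    fri_dt (X 0 1) (X 1 0) (X 1 1 - X 0 0) (Y 0 1) (Y 1 0) (Y 1 1 - Y 0 0)
      ((X * Y) 0 1) ((X * Y) 1 0) ((X * Y) 1 1 - (X * Y) 0 0) = - (X * Y - Y * X).det := by
  simp only [fri_dt, Matrix.det_fin_two, Matrix.sub_apply, Matrix.mul_apply, Fin.sum_univ_two]
  left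
  ring1

private lemma fri_cram {K : Type} [Field K] (x2 x3 x4 y2 y3 y4 z2 z3 z4 n2 n3 n4 : K)
    (hD : fri_dt x2 x3 x4 y2 y3 y4 z2 z3 z4 ≠ 0) : ∃ q r s : K,
    n2 = q * x2 + r * y2 + s * z2 ∧ n3 = q * x3 + r * y3 + s * z3 ∧
    n4 = q * x4 + r * y4 + s * z4 := by
  refine ⟨fri_dt n2 n3 n4 y2 y3 y4 z2 z3 z4 / fri_dt x2 x3 x4 y2 y3 y4 z2 z3 z4,
    fri_dt x2 x3 x4 n2 n3 n4 z2 z3 z4 / fri_dt x2 x3 x4 y2 y3 y4 z2 z3 z4,
    fri_dt x2 x3 x4 y2 y3 y4 n2 n3 n4 / fri_dt x2 x3 x4 y2 y3 y4 z2 z3 z4, ?_, ?_, ?_⟩ <;>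
  · rw [div_mul_eq_mul_div, div_mul_eq_mul_div, div_mul_eq_mul_div, ← add_div, ← add_div,
      eq_div_iff hD]
    simp only [fri_dt]
    ring

private lemma fri_span {K : Type} [Field K] (X Y : fri_M K) (h : (X * Y - Y * X).det ≠ 0)
    (N : fri_M K) : ∃ p q r s : K, N = p • (1 : fri_M K) + q • X + r • Y + s • (X * Y) := by
  have hD0 : fri_dt (X 0 1) (X 1 0) (X 1 1 - X 0 0) (Y 0 1) (Y 1 0) (Y 1 1 - Y 0 0)
      ((X * Y) 0 1) ((X * Y) 1 0) ((X * Y) 1 1 - (X * Y) 0 0) ≠ 0 := by
    rcases fri_D X Y with h' | h' <;> rw [h']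
    · exact h
    · exact neg_ne_zero.2 h
  obtain ⟨q, r, s, e2, e3, e4⟩ := fri_cram _ _ _ _ _ _ _ _ _ (N 0 1) (N 1 0) (N 1 1 - N 0 0) hD0
  refine ⟨N 0 0 - q * X 0 0 - r * Y 0 0 - s * (X * Y) 0 0, q, r, s, ?_⟩
  ext i j
  fin_cases i <;> fin_cases j
  · simp only [Fin.zero_eta, Matrix.add_apply, Matrix.smul_apply, Matrix.one_apply_eq, smul_eq_mul]
    ring
  · simp only [Fin.zero_eta, Fin.mk_one, Matrix.add_apply, Matrix.smul_apply, smul_eq_mul]
    rw [Matrix.one_apply_ne (by decide)]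
    linear_combination e2
  · simp only [Fin.zero_eta, Fin.mk_one, Matrix.add_apply, Matrix.smul_apply, smul_eq_mul]
    rw [Matrix.one_apply_ne (by decide)]
    linear_combination e3
  · simp only [Fin.mk_one, Matrix.add_apply, Matrix.smul_apply, Matrix.one_apply_eq, smul_eq_mul]
    linear_combination e4

/-- the relations -/
private lemma fri_rel {K : Type} [Field K] (X Y : fri_M K) (hX : X.det = 1) (hY : Y.det = 1) :
    X * X = X.trace • X - 1 ∧ Y * Y = Y.trace • Y - 1 ∧
    Y * X = - (X * Y) + X.trace • Y + Y.trace • X +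
      ((X * Y).trace - X.trace * Y.trace) • (1 : fri_M K) := by
  rw [Matrix.det_fin_two] at hX hY
  refine ⟨?_, ?_, ?_⟩
  · ext i j
    fin_cases i <;> fin_cases j <;>
      simp [Matrix.mul_apply, Fin.sum_univ_two, Matrix.trace_fin_two] <;>
      first
      | ring1
      | linear_combination (-1 : K) * hX
  · ext i j
    fin_cases i <;> fin_cases j <;>
      simp [Matrix.mul_apply, Fin.sum_univ_two, Matrix.trace_fin_two] <;>
      first
      | ring1
      | linear_combination (-1 : K) * hY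
  · ext i j
    fin_cases i <;> fin_cases j <;>
      simp [Matrix.mul_apply, Fin.sum_univ_two, Matrix.trace_fin_two] <;>
      ring

/-- the linear combination -/
private def fri_c {K : Type} [Field K] (X Y : fri_M K) (p q r s : K) : fri_M K :=
  p • (1 : fri_M K) + q • X + r • Y + s • (X * Y)

private lemma fri_mul {K : Type} [Field K] (X Y : fri_M K) (hX : X.det = 1) (hY : Y.det = 1)
    (a b c : K) (ha : X.trace = a) (hb : Y.trace = b) (hc : (X * Y).trace = c)
    (p q r s p' q' r' s' : K) :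
    fri_c X Y p q r s * fri_c X Y p' q' r' s' = fri_c X Y
      (p * p' - q * q' + r * q' * (c - a * b) - r * r' - r * s' * a - s * q' * b - s * s')
      (p * q' + q * p' + q * q' * a + r * q' * b + r * s' + s * q' * c - s * r')
      (p * r' - q * s' + r * p' + r * q' * a + r * r' * b + r * s' * c + s * q')
      (p * s' + q * r' + q * s' * a - r * q' + s * p' + s * r' * b + s * s' * c) := by
  obtain ⟨hXX, hYY, hYX⟩ := fri_rel X Y hX hY
  rw [ha] at hXX hYX
  rw [hb] at hYY hYX
  rw [hc] at hYX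
  have h1 : X * (X * Y) = a • (X * Y) - Y := by
    rw [← mul_assoc, hXX, sub_mul, smul_mul_assoc, one_mul]
  have h2 : X * Y * Y = b • (X * Y) - X := by
    rw [mul_assoc, hYY, mul_sub, mul_smul_comm, mul_one]
  have h3 : Y * (X * Y) = X + c • Y - a • (1 : fri_M K) := by
    rw [← mul_assoc, hYX]
    simp only [add_mul, neg_mul, smul_mul_assoc, one_mul]
    rw [h2, hYY]
    module
  have h4 : X * Y * X = Y - b • (1 : fri_M K) + c • X := by
    rw [mul_assoc, hYX]
    simp only [mul_add, mul_neg, mul_smul_comm, mul_one]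
    rw [h1, hXX]
    module
  have h5 : X * Y * (X * Y) = c • (X * Y) - (1 : fri_M K) := by
    rw [mul_assoc, h3]
    simp only [mul_add, mul_sub, mul_smul_comm, mul_one]
    rw [hXX]
    module
  simp only [fri_c, mul_add, add_mul, smul_mul_assoc, mul_smul_comm, one_mul, mul_one]
  rw [h1, h2, h3, h4, h5, hXX, hYY, hYX]
  module

private lemma fri_tr {K : Type} [Field K] (X Y : fri_M K) (a b c : K) (ha : X.trace = a)
    (hb : Y.trace = b) (hc : (X * Y).trace = c) (p q r s : K) :
    (fri_c X Y p q r s).trace = 2 * p + q * a + r * b + s * c := by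
  simp only [fri_c, Matrix.trace_add, Matrix.trace_smul, Matrix.trace_one, ha, hb, hc,
    Fintype.card_fin, smul_eq_mul]
  push_cast
  ring

private lemma fri_trm {K : Type} [Field K] (X Y : fri_M K) (hX : X.det = 1) (hY : Y.det = 1)
    (a b c : K) (ha : X.trace = a) (hb : Y.trace = b) (hc : (X * Y).trace = c)
    (p q r s p' q' r' s' : K) (M : fri_M K) (hM : M = fri_c X Y p' q' r' s') :
    (fri_c X Y p q r s * M).trace =
      2 * (p * p' - q * q' + r * q' * (c - a * b) - r * r' - r * s' * a - s * q' * b - s * s') +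
      (p * q' + q * p' + q * q' * a + r * q' * b + r * s' + s * q' * c - s * r') * a +
      (p * r' - q * s' + r * p' + r * q' * a + r * r' * b + r * s' * c + s * q') * b +
      (p * s' + q * r' + q * s' * a - r * q' + s * p' + s * r' * b + s * s' * c) * c := by
  rw [hM, fri_mul X Y hX hY a b c ha hb hc, fri_tr X Y a b c ha hb hc]

/-- nondegeneracy -/
private lemma fri_nd {K : Type} [Field K] (X Y : fri_M K) (h : (X * Y - Y * X).det ≠ 0)
    (N : fri_M K) (h0 : N.trace = 0) (h1 : (N * X).trace = 0) (h2 : (N * Y).trace = 0)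
    (h3 : (N * X * Y).trace = 0) : N = 0 := by
  have key : ∀ M : fri_M K, (N * M).trace = 0 := by
    intro M
    obtain ⟨p, q, r, s, rfl⟩ := fri_span X Y h M
    simp only [mul_add, mul_smul_comm, mul_one, Matrix.trace_add, Matrix.trace_smul, h0, h1, h2,
      ← mul_assoc, h3, smul_zero, add_zero]
  exact Matrix.ext_iff_trace_mul_right.2 (fun M => by rw [key, zero_mul, Matrix.trace_zero])

/-- equality of the coefficients for a generator -/
private lemma fri_gen {K : Type} [Field K] (X Y X' Y' N N' : fri_M K) (hX : X.det = 1)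
    (hY : Y.det = 1) (hX' : X'.det = 1) (hY' : Y'.det = 1)
    (h : (X * Y - Y * X).det ≠ 0) (h' : (X' * Y' - Y' * X').det ≠ 0) (ha : X.trace = X'.trace)
    (hb : Y.trace = Y'.trace) (hc : (X * Y).trace = (X' * Y').trace) (h0 : N.trace = N'.trace)
    (h1 : (N * X).trace = (N' * X').trace) (h2 : (N * Y).trace = (N' * Y').trace)
    (h3 : (N * X * Y).trace = (N' * X' * Y').trace) :
    ∃ p q r s : K, N = fri_c X Y p q r s ∧ N' = fri_c X' Y' p q r s := by
  obtain ⟨p, q, r, s, hN⟩ := fri_span X Y h N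
  refine ⟨p, q, r, s, hN, ?_⟩
  have hN1 : N = fri_c X Y p q r s := hN
  have hd : N' - fri_c X' Y' p q r s = 0 := by
    apply fri_nd X' Y' h'
    · rw [Matrix.trace_sub, ← h0, hN1, fri_tr X Y _ _ _ rfl rfl rfl,
        fri_tr X' Y' _ _ _ ha.symm hb.symm hc.symm, sub_self]
    · rw [sub_mul, Matrix.trace_sub, ← h1, hN1,
        fri_trm X Y hX hY _ _ _ rfl rfl rfl p q r s 0 1 0 0 X (by simp [fri_c]),
        fri_trm X' Y' hX' hY' _ _ _ ha.symm hb.symm hc.symm p q r s 0 1 0 0 X' (by simp [fri_c]),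
        sub_self]
    · rw [sub_mul, Matrix.trace_sub, ← h2, hN1,
        fri_trm X Y hX hY _ _ _ rfl rfl rfl p q r s 0 0 1 0 Y (by simp [fri_c]),
        fri_trm X' Y' hX' hY' _ _ _ ha.symm hb.symm hc.symm p q r s 0 0 1 0 Y' (by simp [fri_c]),
        sub_self]
    · rw [sub_mul, sub_mul, Matrix.trace_sub, ← h3, hN1, mul_assoc _ X Y, mul_assoc _ X' Y',
        fri_trm X Y hX hY _ _ _ rfl rfl rfl p q r s 0 0 0 1 (X * Y) (by simp [fri_c]),
        fri_trm X' Y' hX' hY' _ _ _ ha.symm hb.symm hc.symm p q r s 0 0 0 1 (X' * Y')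
          (by simp [fri_c]), sub_self]
  exact sub_eq_zero.1 hd

theorem p_fri : A_fri := by
  intro G K _ _ ρ ρ' S hS x y hne h1 h2 h3 hs g
  have hdet : ∀ g : SL2 K, (g.val : fri_M K).det = 1 := fun g => g.2
  have hh : ((ρ x).val * (ρ y).val - (ρ y).val * (ρ x).val).det ≠ 0 := by
    rw [fri_com]
    intro h
    apply hne
    rw [map_mul, map_mul, map_mul, map_inv, map_inv]
    linear_combination -h
  have h3' : ((ρ x).val * (ρ y).val).trace = ((ρ' x).val * (ρ' y).val).trace := by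
    have := h3
    rw [map_mul, map_mul] at this
    exact this
  have hh' : ((ρ' x).val * (ρ' y).val - (ρ' y).val * (ρ' x).val).det ≠ 0 := by
    rw [fri_det _ _ (hdet _) (hdet _)] at hh ⊢
    have h1' : (ρ x).val.trace = (ρ' x).val.trace := h1
    have h2' : (ρ y).val.trace = (ρ' y).val.trace := h2
    rwa [← h1', ← h2', ← h3']
  have key : ∀ g : G, ∃ p q r s : K, (ρ g).val = fri_c (ρ x).val (ρ y).val p q r s ∧
      (ρ' g).val = fri_c (ρ' x).val (ρ' y).val p q r s := by
    intro g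
    have hg : g ∈ Subgroup.closure S := by
      rw [hS]
      trivial
    induction hg using Subgroup.closure_induction with
    | mem s hsS =>
      obtain ⟨a1, a2, a3, a4⟩ := hs s hsS
      simp only [map_mul] at a2 a3 a4
      exact fri_gen _ _ _ _ _ _ (hdet _) (hdet _) (hdet _) (hdet _) hh hh' h1 h2 h3' a1 a2 a3 a4
    | one =>
      refine ⟨1, 0, 0, 0, ?_, ?_⟩ <;> simp [fri_c]
    | mul a b _ _ ha hb =>
      obtain ⟨p, q, r, s, e1, e2⟩ := ha
      obtain ⟨p', q', r', s', e3, e4⟩ := hb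
      have m1 := fri_mul (ρ x).val (ρ y).val (hdet _) (hdet _) _ _ _ rfl rfl rfl
        p q r s p' q' r' s'
      have m2 := fri_mul (ρ' x).val (ρ' y).val (hdet _) (hdet _) _ _ _ h1.symm h2.symm h3'.symm
        p q r s p' q' r' s'
      rw [← e1, ← e3] at m1
      rw [← e2, ← e4] at m2
      have n1 : (ρ (a * b)).val = (ρ a).val * (ρ b).val := by
        rw [map_mul]
        rfl
      have n2 : (ρ' (a * b)).val = (ρ' a).val * (ρ' b).val := by
        rw [map_mul]
        rfl
      exact ⟨_, _, _, _, n1.trans m1, n2.trans m2⟩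
    | inv a _ ha =>
      obtain ⟨p, q, r, s, e1, e2⟩ := ha
      have hinv : ∀ g : SL2 K, (g⁻¹).val = (g.val.trace) • (1 : fri_M K) - g.val := by
        intro g
        rw [Matrix.SpecialLinearGroup.coe_inv]
        change g.val.adjugate = _
        ext i j
        fin_cases i <;> fin_cases j <;>
          simp [Matrix.adjugate_fin_two, Matrix.trace_fin_two]
      have t1 := fri_tr (ρ x).val (ρ y).val _ _ _ rfl rfl rfl p q r s
      have t2 := fri_tr (ρ' x).val (ρ' y).val _ _ _ h1.symm h2.symm h3'.symm p q r s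
      refine ⟨(fri_c (ρ x).val (ρ y).val p q r s).trace - p, -q, -r, -s, ?_, ?_⟩
      · rw [map_inv, hinv, e1]
        simp only [fri_c]
        module
      · have t3 : (fri_c (ρ' x).val (ρ' y).val p q r s).trace =
            (fri_c (ρ x).val (ρ y).val p q r s).trace := t2.trans t1.symm
        rw [map_inv, hinv, e2, t3]
        simp only [fri_c]
        module
  obtain ⟨p, q, r, s, e1, e2⟩ := key g
  change (ρ g).val.trace = (ρ' g).val.trace
  rw [e1, e2, fri_tr (ρ x).val (ρ y).val _ _ _ rfl rfl rfl,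
    fri_tr (ρ' x).val (ρ' y).val _ _ _ h1.symm h2.symm h3'.symm]
  rfl

end Pool.Agent.F8.CG
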