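import Pool.Agent.Lib.MP_305fdd_al.F8.CG.P_smg
import Pool.Agent.Lib.MP_305fdd_al.F8.CG.P_r5

/-!
# MP_305fdd_al, congruence subgroups: generators which are loops with a prefix (CG gns)
-/

set_option autoImplicit false

namespace Pool.Agent.F8.CG

open Pool.Agent.F8.BG Pool.Agent.Lib.MP_305fdd_al Pool.Agent.F8

noncomputable section

/-- the length of a positive word, as a homomorphism -/
def gns_Len (ι : Type) : FreeGroup ι →* Multiplicative ℤ :=
  FreeGroup.lift (fun _ => Multiplicative.ofAdd (1 : ℤ))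

theorem gns_len {ι : Type} (L : List ι) :
    gns_Len ι (BG.pw L) = Multiplicative.ofAdd (L.length : ℤ) := by
  induction L with
  | nil => simp
  | cons i L ih =>
    rw [BG.pw_cons, map_mul, ih]
    unfold gns_Len
    rw [FreeGroup.lift_apply_of, ← ofAdd_add]
    congr 1
    rw [List.length_cons]
    push_cast
    ring

/-- powers of different generators do not commute -/
theorem gns_comm {ι : Type} {i j : ι} (hij : i ≠ j) (m n : ℕ) (hm : 1 ≤ m) (hn : 1 ≤ n) :
    FreeGroup.of i ^ m * FreeGroup.of j ^ n ≠ FreeGroup.of j ^ n * FreeGroup.of i ^ m := by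
  classical
  intro he
  let A : Equiv.Perm ℚ := Equiv.addRight (1 : ℚ)
  let C : Equiv.Perm ℚ := Equiv.mulLeft₀ (2 : ℚ) two_ne_zero
  let f : FreeGroup ι →* Equiv.Perm ℚ :=
    FreeGroup.lift (fun k => if k = i then A else if k = j then C else 1)
  have h1 := congrArg f he
  have hfi : f (FreeGroup.of i) = A := by
    show FreeGroup.lift _ _ = _
    rw [FreeGroup.lift_apply_of, if_pos rfl]
  have hfj : f (FreeGroup.of j) = C := by
    show FreeGroup.lift _ _ = _
    rw [FreeGroup.lift_apply_of, if_neg hij.symm, if_pos rfl]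
  rw [map_mul, map_mul, map_pow, map_pow, hfi, hfj] at h1
  have hA : ∀ (k : ℕ) (x : ℚ), (A ^ k) x = x + k := by
    intro k
    induction k with
    | zero => intro x; simp
    | succ k ih =>
      intro x
      rw [pow_succ, Equiv.Perm.mul_apply, ih]
      show (x + 1) + (k : ℚ) = _
      push_cast
      ring
  have hC : ∀ (k : ℕ) (x : ℚ), (C ^ k) x = 2 ^ k * x := by
    intro k
    induction k with
    | zero => intro x; simp
    | succ k ih =>
      intro x
      rw [pow_succ, Equiv.Perm.mul_apply, ih]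
      show 2 ^ k * (2 * x) = _
      ring
  have h2 := congrArg (fun e : Equiv.Perm ℚ => e 0) h1
  simp only [Equiv.Perm.mul_apply, hA, hC] at h2
  have h3 : (m : ℚ) * (2 ^ n - 1) = 0 := by linarith
  have h4 : (1 : ℚ) ≤ m := by exact_mod_cast hm
  have h5 : (2 : ℚ) ≤ 2 ^ n := by
    calc (2 : ℚ) = 2 ^ 1 := by norm_num
      _ ≤ 2 ^ n := pow_le_pow_right₀ (by norm_num) hn
  have h6 : 0 < (m : ℚ) * (2 ^ n - 1) := mul_pos (by linarith) (by linarith)
  linarith

/-- there are at least two letters -/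
theorem gns_two {ι : Type} {α : MulAut (FreeGroup ι)} {w : ι → List ι} (hP : Pos α w) (i₀ : ι) :
    ∃ i, i ≠ i₀ := by
  by_contra hno
  push Not at hno
  have hlen : (w i₀).length = 1 := by
    have h1 : (gns_Len ι).comp α.toMonoidHom =
        (zpowGroupHom ((w i₀).length : ℤ)).comp (gns_Len ι) := by
      apply FreeGroup.ext_hom
      intro i
      rw [hno i]
      show gns_Len ι (α (FreeGroup.of i₀)) =
        (gns_Len ι (FreeGroup.of i₀)) ^ ((w i₀).length : ℤ)
      rw [hP.eq, gns_len]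
      unfold gns_Len
      rw [FreeGroup.lift_apply_of, ← ofAdd_zsmul]
      simp
    obtain ⟨y, hy⟩ := α.surjective (FreeGroup.of i₀)
    have h2 := DFunLike.congr_fun h1 y
    have h3 : gns_Len ι (α y) = (gns_Len ι y) ^ ((w i₀).length : ℤ) := h2
    rw [hy] at h3
    have h4 : (gns_Len ι (FreeGroup.of i₀)) = Multiplicative.ofAdd (1 : ℤ) := by
      unfold gns_Len
      rw [FreeGroup.lift_apply_of]
    rw [h4] at h3
    have h5 : (1 : ℤ) = ((w i₀).length : ℤ) * Multiplicative.toAdd (gns_Len ι y) := by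
      have := congrArg Multiplicative.toAdd h3
      rw [toAdd_zpow] at this
      simpa using this
    have h6 : ((w i₀).length : ℤ) ∣ 1 := ⟨_, h5⟩
    have h7 := Int.natAbs_dvd_natAbs.2 h6
    simpa using h7
  have hturn : ∀ b a, ¬ Turn w b a := by
    intro b a h
    induction h with
    | base i b a h =>
      have h1 := h.length_le
      rw [hno i, hlen] at h1
      simp at h1
    | step b a b' a' h hb ha ih => exact ih
  have hcon := hP.con (Sum.inl i₀) (Sum.inr i₀)
  have hall : ∀ x y : ι ⊕ ι, Relation.EqvGen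
      (fun x y => ∃ b a, x = Sum.inl b ∧ y = Sum.inr a ∧ Turn w b a) x y → x = y := by
    intro x y h
    induction h with
    | rel x y h =>
      obtain ⟨b, a, _, _, h⟩ := h
      exact absurd h (hturn b a)
    | refl x => rfl
    | symm x y _ ih => exact ih.symm
    | trans x y z _ _ ih1 ih2 => exact ih1.trans ih2
  exact absurd (hall _ _ hcon) (by simp)

/-- an element of a closure is in the closure of a finite part -/
theorem gns_fin {G : Type} [Group G] (N : Set G) (g : G) (hg : g ∈ Subgroup.closure N) :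
    ∃ S : Finset G, (S : Set G) ⊆ N ∧ g ∈ Subgroup.closure (S : Set G) := by
  classical
  induction hg using Subgroup.closure_induction with
  | mem x hx => exact ⟨{x}, by simpa using hx, Subgroup.subset_closure (by simp)⟩
  | one => exact ⟨∅, by simp, one_mem _⟩
  | mul x y _ _ hx hy =>
    obtain ⟨S, hS, hx⟩ := hx
    obtain ⟨T, hT, hy⟩ := hy
    refine ⟨S ∪ T, ?_, ?_⟩
    · rw [Finset.coe_union]
      exact Set.union_subset hS hT
    · rw [Finset.coe_union]
      exact mul_mem (Subgroup.closure_mono Set.subset_union_left hx)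
        (Subgroup.closure_mono Set.subset_union_right hy)
  | inv x _ hx =>
    obtain ⟨S, hS, hx⟩ := hx
    exact ⟨S, hS, inv_mem hx⟩

/-- finitely many generators suffice -/
theorem gns_fg {G : Type} [Group G] [Group.FG G] (N : Set G) (hN : Subgroup.closure N = ⊤) :
    ∃ S : Finset G, (S : Set G) ⊆ N ∧ Subgroup.closure (S : Set G) = ⊤ := by
  classical
  obtain ⟨T, hT⟩ := Group.fg_def.mp ‹Group.FG G›
  have h1 : ∀ g : G, ∃ S : Finset G, (S : Set G) ⊆ N ∧ g ∈ Subgroup.closure (S : Set G) :=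
    fun g => gns_fin N g (by rw [hN]; trivial)
  choose F hF1 hF2 using h1
  refine ⟨T.biUnion F, ?_, ?_⟩
  · intro x hx
    rw [Finset.mem_coe, Finset.mem_biUnion] at hx
    obtain ⟨t, _, hx⟩ := hx
    exact hF1 t hx
  · rw [eq_top_iff, ← hT, Subgroup.closure_le]
    intro t ht
    refine Subgroup.closure_mono ?_ (hF2 t)
    intro x hx
    rw [Finset.mem_coe, Finset.mem_biUnion]
    exact ⟨t, ht, hx⟩

/-- the product of a loop and a loop with nonempty prefix -/
theorem gns_mul (hlp : R_lp) {ι : Type} {α : MulAut (FreeGroup ι)} {w : ι → List ι} {i₀ : ι}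
    (hw : ∀ i, α (FreeGroup.of i) = BG.pw (w i)) {c c' : GR α} {l l' : ℕ} {u v u' v' : List ι}
    (h1 : itw w l i₀ = u ++ i₀ :: v) (h2 : c = (tR α ^ l)⁻¹ * iR α (BG.pw u))
    (hu' : u' ≠ []) (h1' : itw w l' i₀ = u' ++ i₀ :: v')
    (h2' : c' = (tR α ^ l')⁻¹ * iR α (BG.pw u')) :
    ∃ u'' v'' : List ι, u'' ≠ [] ∧ itw w (l + l') i₀ = u'' ++ i₀ :: v'' ∧
      c * c' = (tR α ^ (l + l'))⁻¹ * iR α (BG.pw u'') := by
  obtain ⟨hA, hB⟩ := hlp ι α w hw
  obtain ⟨-, u'', v'', h3, h4⟩ := hB ⊤ i₀ l l' c c' ⟨Subgroup.mem_top _, u, v, h1, h2⟩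
    ⟨Subgroup.mem_top _, u', v', h1', h2'⟩
  refine ⟨u'', v'', ?_, h3, h4⟩
  rintro rfl
  rw [h2, h2', pw_nil, map_one, mul_one, pow_add, mul_inv_rev] at h4
  have h5 : tR α ^ l' * iR α (BG.pw u) * (tR α ^ l')⁻¹ * iR α (BG.pw u') = 1 := by
    have h6 : iR α (BG.pw u) * (tR α ^ l')⁻¹ * iR α (BG.pw u') =
        tR α ^ l * ((tR α ^ l')⁻¹ * (tR α ^ l)⁻¹) := by
      rw [← h4]; group
    have h7 : tR α ^ l * ((tR α ^ l')⁻¹ * (tR α ^ l)⁻¹) = (tR α ^ l')⁻¹ := by
      have h8 : Commute (tR α ^ l) (tR α ^ l')⁻¹ :=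
        ((Commute.refl (tR α)).pow_pow l l').inv_right
      rw [← mul_assoc, h8.eq, mul_assoc, mul_inv_cancel, mul_one]
    rw [h7] at h6
    rw [mul_assoc, mul_assoc, ← mul_assoc (iR α (BG.pw u)), h6, mul_inv_cancel]
  rw [tR_pow_conj, ← map_mul] at h5
  have h6 : (α ^ l') (BG.pw u) = BG.pw (u.flatMap (itw w l')) := by
    clear h1 h2 h4 h5
    induction u with
    | nil => simp
    | cons i u ih =>
      rw [pw_cons, map_mul, ih, hA, List.flatMap_cons, pw_append]
  rw [h6, ← pw_append] at h5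
  have h7 : BG.pw (u.flatMap (itw w l') ++ u') = 1 := iR_injective α (by rw [h5, map_one])
  have h8 := smg_nil _ h7
  exact hu' (List.append_eq_nil_iff.1 h8).2

/-- [CG gns] -/
theorem p_gns (hlp : R_lp) (hgn2 : A_gn2) : A_gns := by
  intro ι _ α w i₀ hP D hD
  have hcl := hgn2 ι α w hP D hD i₀
  have hfg : Group.FG (GR α) := r5_fg α
  have hDfg : Group.FG D := inferInstance
  -- the loops with nonempty prefixes
  let N : Set D := {c | ∃ k, 1 ≤ k ∧ ∃ u v : List ι, u ≠ [] ∧ itw w k i₀ = u ++ i₀ :: v ∧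
    (c : GR α) = (tR α ^ k)⁻¹ * iR α (BG.pw u)}
  -- one of them
  obtain ⟨c₁, l₁, hl₁, u₁, v₁, hu₁, h₁, hc₁⟩ : ∃ c : D, c ∈ N := by
    by_contra hno
    push Not at hno
    set S : Set (GR α) := {d | ∃ l, 1 ≤ l ∧ d ∈ LpS α w D i₀ l} with hSdef
    have hS : S ⊆ Subgroup.zpowers (tR α) := by
      rintro d ⟨l, hl, hd, u, v, hu, he⟩
      have hu0 : u = [] := by
        by_contra hne
        exact hno ⟨d, hd⟩ ⟨l, hl, u, v, hne, hu, he⟩
      rw [he, hu0, BG.pw_nil, map_one, mul_one]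
      exact inv_mem (pow_mem (Subgroup.mem_zpowers _) _)
    have hDz : D ≤ Subgroup.zpowers (tR α) := by
      rw [← hcl, Subgroup.closure_le]
      exact hS
    obtain ⟨i, hi⟩ := gns_two hP i₀
    obtain ⟨m, hm, _, hmD⟩ := Subgroup.exists_pow_mem_of_index_ne_zero hD.index_ne_zero
      (iR α (FreeGroup.of i))
    obtain ⟨n, hn, _, hnD⟩ := Subgroup.exists_pow_mem_of_index_ne_zero hD.index_ne_zero
      (iR α (FreeGroup.of i₀))
    obtain ⟨p, hp⟩ := hDz hmD
    obtain ⟨q, hq⟩ := hDz hnD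
    have h4 : iR α (FreeGroup.of i) ^ m * iR α (FreeGroup.of i₀) ^ n =
        iR α (FreeGroup.of i₀) ^ n * iR α (FreeGroup.of i) ^ m := by
      rw [← hp, ← hq]
      exact ((Commute.refl (tR α)).zpow_zpow p q).eq
    rw [← map_pow, ← map_pow, ← map_mul, ← map_mul] at h4
    exact gns_comm hi m n hm hn (iR_injective α h4)
  -- they generate
  have hN : Subgroup.closure N = ⊤ := by
    have hle : D ≤ (Subgroup.closure N).map D.subtype := by
      conv_lhs => rw [← hcl]
      rw [Subgroup.closure_le]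
      rintro d ⟨l, hl, hd, u, v, hu, he⟩
      obtain ⟨u₂, v₂, hu₂, h₂, hc₂⟩ := gns_mul hlp hP.eq hu he hu₁ h₁ hc₁
      have hm : (⟨d, hd⟩ : D) * c₁ ∈ N := ⟨l + l₁, by omega, u₂, v₂, hu₂, h₂, hc₂⟩
      have hm₁ : c₁ ∈ N := ⟨l₁, hl₁, u₁, v₁, hu₁, h₁, hc₁⟩
      refine ⟨⟨d, hd⟩, ?_, rfl⟩
      have h3 := mul_mem (Subgroup.subset_closure hm) (inv_mem (Subgroup.subset_closure hm₁))
      rwa [mul_inv_cancel_right] at h3
    rw [eq_top_iff]
    rintro ⟨d, hd⟩ -
    obtain ⟨x, hx, hxe⟩ := hle hd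
    have : x = ⟨d, hd⟩ := Subtype.ext hxe
    rwa [← this]
  obtain ⟨S, hSN, hS⟩ := gns_fg N hN
  exact ⟨S, hS, fun c hc => hSN hc⟩

end

end Pool.Agent.F8.CG
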