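import Pool.Agent.Lib.MP_305fdd_al.F8.CG.P_z1

/-!
# MP_305fdd_al, congruence subgroups, block A: the coboundary is injective

The proof is in the file for `A_z1` (`z1_inj`).
-/

set_option autoImplicit false

namespace Pool.Agent.F8.CG

open Pool.Agent.F8.BG Pool.Agent.Lib.MP_305fdd_al Pool.Agent.F8

/-- [CG inj] the coboundary is injective. -/
theorem p_inj : A_inj := by
  intro ι α L hL K V _ _ _ σ hV
  exact z1_inj _ _ _ hL hV

end Pool.Agent.F8.CG
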