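import Pool.Agent.Lib.MP_305fdd_al.F8.CG.StmA

/-!
# MP_305fdd_al, congruence subgroups: Jordan blocks (`A_jor`)

The solutions of `T ξ = ξ u` for a Jordan block `u` of size `m` with the eigenvalue `τ` correspond to the kernel of `(T - τ) ^ m`.
-/

set_option autoImplicit false

namespace Pool.Agent.F8.CG

noncomputable section

section J

variable {K X : Type} [Field K] [AddCommGroup X] [Module K X]

/-- the sum over the rows of a column of a Jordan block -/
theorem jor_sum (m : ℕ) (τ : K) (ξ : Fin m → X) (a : Fin m) :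
    ∑ b, jorM m τ b a • ξ b =
      τ • ξ a + (if h : (a : ℕ) = 0 then 0 else ξ ⟨(a : ℕ) - 1, by omega⟩) := by
  have h1 : ∀ b : Fin m, jorM m τ b a • ξ b =
      (if b = a then τ • ξ b else 0) + (if (b : ℕ) + 1 = a then ξ b else 0) := by
    intro b
    unfold jorM
    by_cases h : b = a
    · subst h
      simp
    · simp only [if_neg h, zero_add]
      split_ifs
      · exact one_smul _ _
      · exact zero_smul _ _
  rw [Finset.sum_congr rfl (fun b _ => h1 b), Finset.sum_add_distrib, Finset.sum_ite_eq']
  simp only [Finset.mem_univ, if_true]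
  congr 1
  split_ifs with h
  · apply Finset.sum_eq_zero
    intro b _
    rw [if_neg (by omega)]
  · rw [Finset.sum_eq_single (⟨(a : ℕ) - 1, by omega⟩ : Fin m)]
    · rw [if_pos]
      show (a : ℕ) - 1 + 1 = a
      omega
    · intro b _ hb
      rw [if_neg]
      intro e
      apply hb
      apply Fin.ext
      show (b : ℕ) = (a : ℕ) - 1
      omega
    · intro h'
      exact absurd (Finset.mem_univ _) h'

/-- the equations of `Sol` for a Jordan block -/
theorem jor_mem (T : Module.End K X) (m : ℕ) (τ : K) (ξ : Fin m → X) :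
    ξ ∈ Sol m T (jorM m τ) ↔ ∀ a : Fin m, (T - algebraMap K (Module.End K X) τ) (ξ a) =
      (if h : (a : ℕ) = 0 then 0 else ξ ⟨(a : ℕ) - 1, by omega⟩) := by
  constructor
  · intro h a
    have h1 : T (ξ a) = ∑ b, jorM m τ b a • ξ b := h a
    rw [jor_sum] at h1
    rw [LinearMap.sub_apply, h1, Module.algebraMap_end_apply]
    abel
  · intro h a
    rw [jor_sum, ← h a, LinearMap.sub_apply, Module.algebraMap_end_apply]
    abel

/-- going down from the last component -/
theorem jor_down (T : Module.End K X) (m : ℕ) (τ : K) (ξ : Fin m → X)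
    (h : ξ ∈ Sol m T (jorM m τ)) (j : ℕ) (hm : 0 < m) (hj : j ≤ m - 1) :
    ((T - algebraMap K (Module.End K X) τ) ^ j) (ξ ⟨m - 1, by omega⟩) =
      ξ ⟨m - 1 - j, by omega⟩ := by
  induction j with
  | zero => rfl
  | succ j ih =>
    rw [pow_succ', Module.End.mul_apply, ih (by omega), (jor_mem T m τ ξ).1 h]
    rw [dif_neg (show ¬ (((⟨m - 1 - j, by omega⟩ : Fin m) : ℕ) = 0) by
      show ¬ (m - 1 - j = 0)
      omega)]
    rfl

/-- the linear map `x ↦ (a ↦ (T - τ) ^ (m - 1 - a) x)` -/
def jor_map (T : Module.End K X) (m : ℕ) (τ : K) :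
    LinearMap.ker ((T - algebraMap K (Module.End K X) τ) ^ m) →ₗ[K] Sol m T (jorM m τ) where
  toFun x := ⟨fun a => ((T - algebraMap K (Module.End K X) τ) ^ (m - 1 - (a : ℕ))) x.1, by
    rw [jor_mem]
    intro a
    rw [← Module.End.mul_apply, ← pow_succ']
    have ha : (a : ℕ) < m := a.2
    split_ifs with h
    · have h1 : m - 1 - (a : ℕ) + 1 = m := by omega
      rw [h1]
      exact x.2
    · have h1 : m - 1 - (a : ℕ) + 1 = m - 1 - ((a : ℕ) - 1) := by omega
      rw [h1]⟩
  map_add' x y := by
    apply Subtype.ext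
    funext a
    exact map_add _ _ _
  map_smul' c x := by
    apply Subtype.ext
    funext a
    exact map_smul _ _ _

theorem jor_bij (T : Module.End K X) (m : ℕ) (τ : K) : Function.Bijective (jor_map T m τ) := by
  rcases Nat.eq_zero_or_pos m with h0 | hm
  · subst h0
    constructor
    · intro x y _
      apply Subtype.ext
      have hx : ((T - algebraMap K (Module.End K X) τ) ^ 0) x.1 = 0 := x.2
      have hy : ((T - algebraMap K (Module.End K X) τ) ^ 0) y.1 = 0 := y.2
      have hx' : x.1 = 0 := hx
      have hy' : y.1 = 0 := hy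
      rw [hx', hy']
    · intro ξ
      refine ⟨0, ?_⟩
      apply Subtype.ext
      funext a
      exact a.elim0
  · constructor
    · intro x y h
      have h1 := congrFun (congrArg Subtype.val h) ⟨m - 1, by omega⟩
      have h2 : ((T - algebraMap K (Module.End K X) τ) ^ (m - 1 - (m - 1))) x.1 =
          ((T - algebraMap K (Module.End K X) τ) ^ (m - 1 - (m - 1))) y.1 := h1
      rw [Nat.sub_self, pow_zero] at h2
      exact Subtype.ext h2
    · intro ξ
      refine ⟨⟨ξ.1 ⟨m - 1, by omega⟩, ?_⟩, ?_⟩
      · show ((T - algebraMap K (Module.End K X) τ) ^ m) (ξ.1 ⟨m - 1, by omega⟩) = 0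
        have h1 : (T - algebraMap K (Module.End K X) τ) ^ m =
            (T - algebraMap K (Module.End K X) τ) *
              (T - algebraMap K (Module.End K X) τ) ^ (m - 1) := by
          rw [← pow_succ']
          congr 1
          omega
        rw [h1, Module.End.mul_apply, jor_down T m τ ξ.1 ξ.2 (m - 1) hm le_rfl,
          (jor_mem T m τ ξ.1).1 ξ.2]
        rw [dif_pos (show ((⟨m - 1 - (m - 1), by omega⟩ : Fin m) : ℕ) = 0 by
          show m - 1 - (m - 1) = 0
          omega)]
      · apply Subtype.ext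
        funext a
        show ((T - algebraMap K (Module.End K X) τ) ^ (m - 1 - (a : ℕ)))
          (ξ.1 ⟨m - 1, by omega⟩) = ξ.1 a
        have ha : (a : ℕ) < m := a.2
        rw [jor_down T m τ ξ.1 ξ.2 (m - 1 - (a : ℕ)) hm (by omega)]
        refine congrArg ξ.1 (Fin.ext ?_)
        show m - 1 - (m - 1 - (a : ℕ)) = a
        omega

end J

/-- [CG jor] Jordan blocks -/
theorem p_jor : A_jor := by
  intro K X _ _ _ _ T m τ
  exact ((LinearEquiv.ofBijective (jor_map T m τ) (jor_bij T m τ)).finrank_eq).symm

end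

end Pool.Agent.F8.CG
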