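import Pool.Agent.Lib.MP_305fdd_al.F8.CG.StmA2

/-!
# [CG nrm] elements of finite extensions of `ℤ` divide integers
-/

set_option autoImplicit false

namespace Pool.Agent.F8.CG

open Polynomial

private theorem nrm_aux {B : Type} [CommRing B] [IsDomain B] (b : B) (hb : b ≠ 0) :
    ∀ (n : ℕ) (p : ℤ[X]), p.Monic → p.natDegree = n → aeval b p = 0 →
      ∃ c : ℤ, c ≠ 0 ∧ b ∣ (c : B) := by
  intro n
  induction n with
  | zero =>
    intro p hp hn h0
    rw [(hp.natDegree_eq_zero).1 hn, map_one] at h0
    exact absurd h0 one_ne_zero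
  | succ n ih =>
    intro p hp hn h0
    have hX : X * p.divX + C (p.coeff 0) = p := X_mul_divX_add p
    by_cases hc : p.coeff 0 = 0
    · rw [hc, C_0, add_zero] at hX
      have hq : p.divX.Monic := by
        have h1 : (X * p.divX).Monic := by rw [hX]; exact hp
        exact monic_X.of_mul_monic_left h1
      have hdeg : p.divX.natDegree = n := by
        have h1 : (X * p.divX).natDegree = p.divX.natDegree + 1 := natDegree_X_mul hq.ne_zero
        rw [hX, hn] at h1
        omega
      have h2 : b * aeval b p.divX = 0 := by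
        have h3 : aeval b (X * p.divX) = 0 := by rw [hX]; exact h0
        rw [map_mul, aeval_X] at h3
        exact h3
      rcases mul_eq_zero.1 h2 with h3 | h3
      · exact absurd h3 hb
      · exact ih _ hq hdeg h3
    · refine ⟨p.coeff 0, hc, -(aeval b p.divX), ?_⟩
      have h1 : aeval b (X * p.divX + C (p.coeff 0)) = 0 := by rw [hX]; exact h0
      rw [map_add, map_mul, aeval_X, aeval_C] at h1
      have h2 : algebraMap ℤ B (p.coeff 0) = ((p.coeff 0 : ℤ) : B) := rfl
      rw [h2] at h1
      linear_combination h1

/-- [CG nrm] elements of finite extensions of `ℤ` divide integers. -/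
theorem p_nrm : A_nrm := by
  intro B _ _ _ b hb
  obtain ⟨p, hp, h0⟩ := Algebra.IsIntegral.isIntegral (R := ℤ) b
  exact nrm_aux b hb _ p hp rfl h0

end Pool.Agent.F8.CG
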