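import Pool.Agent.Lib.MP_305fdd_al.F8.CG.StmA

/-!
# MP_305fdd_al, congruence subgroups: the polynomial `P`, level one (piece op)
-/

set_option autoImplicit false

namespace Pool.Agent.F8.CG

open Pool.Agent.F8.BG Pool.Agent.Lib.MP_305fdd_al Pool.Agent.F8

noncomputable section

section LA

variable {K X : Type} [Field K] [AddCommGroup X] [Module K X] [FiniteDimensional K X]

omit [FiniteDimensional K X] in
private theorem op_sub (T : Module.End K X) (τ : K) :
    T - algebraMap K (Module.End K X) τ = T - τ • (1 : Module.End K X) := by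
  rw [Algebra.algebraMap_eq_smul_one]

omit [FiniteDimensional K X] in
private theorem op_ker (T : Module.End K X) (τ : K) (m : ℕ) :
    LinearMap.ker ((T - algebraMap K (Module.End K X) τ) ^ m) = T.genEigenspace τ m := by
  rw [op_sub, Module.End.genEigenspace_nat]

private theorem op_ker_le (T : Module.End K X) (τ : K) (m : ℕ) :
    Module.finrank K (LinearMap.ker ((T - algebraMap K (Module.End K X) τ) ^ m)) ≤
      T.charpoly.rootMultiplicity τ := by
  rw [op_ker]
  exact LinearMap.finrank_genEigenspace_le T τ m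

private theorem op_ker_eq (T : Module.End K X) (τ : K) :
    Module.finrank K (LinearMap.ker ((T - algebraMap K (Module.End K X) τ) ^
      (T.charpoly.rootMultiplicity τ))) = T.charpoly.rootMultiplicity τ := by
  apply le_antisymm (op_ker_le T τ _)
  have h1 : T.maxGenEigenspace τ ≤ LinearMap.ker ((T - algebraMap K (Module.End K X) τ) ^
      (T.charpoly.rootMultiplicity τ)) := by
    have hm : Set.MapsTo (T - algebraMap K (Module.End K X) τ)
        (T.maxGenEigenspace τ) (T.maxGenEigenspace τ) :=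
      Module.End.mapsTo_maxGenEigenspace_of_comm
        (Algebra.mul_sub_algebraMap_commutes T τ) τ
    have hn := Module.End.isNilpotent_restrict_maxGenEigenspace_sub_algebraMap T τ hm
    have h2 : ((T - algebraMap K (Module.End K X) τ).restrict hm) ^
        (Module.finrank K (T.maxGenEigenspace τ)) = 0 := by
      have h3 := LinearMap.aeval_self_charpoly ((T - algebraMap K (Module.End K X) τ).restrict hm)
      rw [IsNilpotent.charpoly_eq_X_pow_finrank hn, Polynomial.aeval_X_pow] at h3
      exact h3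
    intro x hx
    rw [LinearMap.mem_ker, ← LinearMap.finrank_maxGenEigenspace_eq]
    have h5 := Module.End.pow_restrict (f' := T - algebraMap K (Module.End K X) τ)
      (p := T.maxGenEigenspace τ) (Module.finrank K (T.maxGenEigenspace τ)) (fun y hy => hm hy)
    have h6 := h5.symm.trans h2
    have h7 := DFunLike.congr_fun h6 (⟨x, hx⟩ : T.maxGenEigenspace τ)
    exact congrArg Subtype.val h7
  calc T.charpoly.rootMultiplicity τ = Module.finrank K (T.maxGenEigenspace τ) :=
        (LinearMap.finrank_maxGenEigenspace_eq T τ).symm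
    _ ≤ _ := Submodule.finrank_mono h1

private theorem op_trace (T : Module.End K X) :
    T.charpoly.nextCoeff = -LinearMap.trace K X T := by
  have b := Module.Free.chooseBasis K X
  rw [LinearMap.trace_eq_matrix_trace K b, Matrix.trace_eq_neg_charpoly_nextCoeff, neg_neg,
    LinearMap.charpoly_toMatrix]

end LA

private theorem op_tr {L K : Type} [Group L] [Field K] (ρ : L →* SL2 K) (x : L) :
    LinearMap.trace K (Fin 2 → K) (s2E ρ x) = tr (ρ x) := by
  show LinearMap.trace K (Fin 2 → K) (Matrix.toLin' (ρ x).val) = (ρ x).val.trace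
  exact Matrix.trace_toLin'_eq _

theorem p_op (hub : A_ub) (hinj : A_inj) (htrq : A_trq) (htf : A_tf) (hz1 : A_z1) (hjor : A_jor)
    (hitg : A_itg) : A_op := by
  intro ι _ α w i₀ hw hhd L hL i₁ u₁ v₁ hu₁ hwi hc
  have := Fintype.ofFinite ι
  obtain ⟨M, hM, hM'⟩ := htf ι α w i₀ hhd L hL i₁ u₁ v₁ hu₁ hwi hc
  refine ⟨Fintype.card ι * (L.index * 2) - L.index * 2, M, hM, ?_⟩
  intro K _ ρ hinv htr
  have hg : ∃ g ∈ L, nR α g = Multiplicative.ofAdd 1 := by
    refine ⟨((tR α)⁻¹ * iR α (BG.pw u₁))⁻¹, L.inv_mem hc, ?_⟩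
    rw [map_inv, map_mul, map_inv, nR_tR, nR_iR, mul_one, inv_inv]
  obtain ⟨hU, Ub, hUb⟩ := hub ι α w hw L K (Fin 2 → K) (s2E ρ)
  have hi := hinj ι α L hg K (Fin 2 → K) (s2E ρ) hinv
  obtain ⟨hdim, htr'⟩ := htrq ι α w L hL K (Fin 2 → K) (s2E ρ) hi hU
  have hfin : Finite (GR α ⧸ L) := by
    have := hL
    infer_instance
  have hfd : FiniteDimensional K (Xq α L (s2E ρ)) := by
    infer_instance
  have hz := hz1 ι α w hw L hL hg K ρ hinv Ub hUb
  have hT := htr' Ub hUb
  have hT' := hM' K (Fin 2 → K) (s2E ρ) (tr (ρ ⟨_, hc⟩)) (fun y i u v hi h => by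
    rw [op_tr]
    exact htr y i u v hi h)
  obtain ⟨hne, hint⟩ := hitg ι α w hw L hL K ρ Ub hUb
  refine ⟨Ub.charpoly, ?_⟩
  constructor
  · exact LinearMap.charpoly_monic Ub
  · rw [LinearMap.charpoly_natDegree]
    rw [Module.finrank_fin_fun] at hdim
    omega
  · rw [op_trace]
    have h : LinearMap.trace K (Xq α L (s2E ρ)) Ub = (M : K) * tr (ρ ⟨_, hc⟩) := by
      rw [hT'] at hT
      exact add_right_cancel hT
    rw [h]
  · intro τ m
    rw [(hz m (jorG m τ)).2, jorG_val, hjor]
    exact Nat.add_le_add_left (op_ker_le Ub (τ : K) m) _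
  · intro τ
    rw [(hz _ (jorG _ τ)).2, jorG_val, hjor, op_ker_eq]
    omega
  · intro τ m
    exact (hz m (jorG m τ)).1
  · intro h
    exact hne ((Module.End.hasEigenvalue_iff_isRoot_charpoly Ub 0).2 h)
  · intro hρ τ hτ
    exact hint hρ τ ((Module.End.hasEigenvalue_iff_isRoot_charpoly Ub τ).2 hτ)

end

end Pool.Agent.F8.CG
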