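import Pool.Agent.Lib.MP_305fdd_al.F8.CG.StmA2

/-!
# MP_305fdd_al, congruence subgroups: comparison of two polynomials
-/

set_option autoImplicit false

namespace Pool.Agent.F8.CG

open Polynomial

private theorem pol_next {K : Type} [Field K] (P : K[X]) (hP : P.Monic)
    (hc : Multiset.card P.roots = P.natDegree) : P.nextCoeff = -P.roots.sum := by
  have h := prod_multiset_X_sub_C_of_monic_of_roots_card_eq hP hc
  conv_lhs => rw [← h]
  exact multiset_prod_X_sub_C_nextCoeff P.roots

private theorem pol_count {B : Type} [DecidableEq B] (R : Finset B) (m : B → ℕ) (τ : B) :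
    (∑ σ ∈ R, Multiset.replicate (m σ) σ).count τ = if τ ∈ R then m τ else 0 := by
  rw [Multiset.count_sum']
  simp only [Multiset.count_replicate]
  rw [Finset.sum_ite_eq' R τ m]

private theorem pol_mem {B : Type} [DecidableEq B] (R : Finset B) (m : B → ℕ) (τ : B)
    (h : τ ∈ ∑ σ ∈ R, Multiset.replicate (m σ) σ) : τ ∈ R := by
  rw [Multiset.mem_sum] at h
  obtain ⟨σ, hσ, h⟩ := h
  rw [Multiset.eq_of_mem_replicate h]
  exact hσ

theorem p_pol : A_pol := by
  classical
  intro K k B _ _ _ e j he P P' hP hP' hdeg hsp R hroot hj hmul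
  -- the multiset of the roots in `B`
  have hPe : (∑ σ ∈ R, Multiset.replicate (P.rootMultiplicity (e σ)) σ).map e = P.roots := by
    ext x
    rw [count_roots]
    by_cases hx : ∃ τ ∈ R, e τ = x
    · obtain ⟨τ, hτ, rfl⟩ := hx
      rw [Multiset.count_map_eq_count' e _ he, pol_count, if_pos hτ]
    · have h1 : x ∉ (∑ σ ∈ R, Multiset.replicate (P.rootMultiplicity (e σ)) σ).map e := by
        intro h
        obtain ⟨τ, hτ, hx'⟩ := Multiset.mem_map.mp h
        exact hx ⟨τ, pol_mem R _ τ hτ, hx'⟩
      rw [Multiset.count_eq_zero_of_notMem h1]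
      symm
      apply rootMultiplicity_eq_zero
      intro h
      exact hx (hroot x h)
  have hle : (∑ σ ∈ R, Multiset.replicate (P.rootMultiplicity (e σ)) σ).map j ≤ P'.roots := by
    rw [Multiset.le_iff_count]
    intro y
    rw [count_roots]
    by_cases hy : y ∈ (∑ σ ∈ R, Multiset.replicate (P.rootMultiplicity (e σ)) σ).map j
    · obtain ⟨τ, hτ, rfl⟩ := Multiset.mem_map.mp hy
      have hτR := pol_mem R _ τ hτ
      rw [Multiset.count_map_eq_count j _ (fun a ha b hb hab =>
        hj (pol_mem R _ a ha) (pol_mem R _ b hb) hab) τ hτ, pol_count, if_pos hτR]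
      exact hmul τ hτR
    · rw [Multiset.count_eq_zero_of_notMem hy]
      exact Nat.zero_le _
  have hcard : Multiset.card P'.roots ≤
      Multiset.card ((∑ σ ∈ R, Multiset.replicate (P.rootMultiplicity (e σ)) σ).map j) := by
    have h1 := congrArg Multiset.card hPe
    rw [Multiset.card_map] at h1
    rw [Multiset.card_map, h1, ← hsp.natDegree_eq_card_roots, hdeg]
    exact card_roots' P'
  have hPj := Multiset.eq_of_le_of_card_le hle hcard
  have hcard' : Multiset.card P'.roots = P'.natDegree := by
    have h1 := congrArg Multiset.card hPe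
    have h2 := congrArg Multiset.card hPj
    rw [Multiset.card_map] at h1 h2
    rw [← h2, h1, ← hsp.natDegree_eq_card_roots, hdeg]
  refine ⟨-(∑ σ ∈ R, Multiset.replicate (P.rootMultiplicity (e σ)) σ).sum, ?_, ?_⟩
  · rw [pol_next P hP hsp.natDegree_eq_card_roots.symm, ← hPe, map_neg, map_multiset_sum]
  · rw [pol_next P' hP' hcard', ← hPj, map_neg, map_multiset_sum]

end Pool.Agent.F8.CG
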