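import Pool.Agent.Lib.MP_305fdd_al.F8.CG.StmA

/-!
# MP_305fdd_al, congruence subgroups: the loops with nonempty prefixes are a semigroup
-/

set_option autoImplicit false

namespace Pool.Agent.F8.CG

open Pool.Agent.F8.BG Pool.Agent.Lib.MP_305fdd_al Pool.Agent.F8

noncomputable section

/-- a positive word which is trivial is empty -/
theorem smg_nil {ι : Type} (L : List ι) (h : BG.pw L = 1) : L = [] := by
  let e : FreeGroup ι →* Multiplicative ℤ := FreeGroup.lift fun _ => Multiplicative.ofAdd 1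
  have h1 : ∀ L : List ι, e (BG.pw L) = Multiplicative.ofAdd (L.length : ℤ) := by
    intro L
    induction L with
    | nil => simp
    | cons i L ih =>
      rw [pw_cons, map_mul, ih]
      have h2 : e (FreeGroup.of i) = Multiplicative.ofAdd 1 := FreeGroup.lift_apply_of
      rw [h2, ← ofAdd_add, List.length_cons]
      congr 1
      push_cast
      ring
  have h2 := h1 L
  rw [h, map_one] at h2
  have h3 : (0 : ℤ) = (L.length : ℤ) := h2
  exact List.length_eq_zero_iff.1 (by exact_mod_cast h3.symm)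

/-- [CG smg] -/
theorem p_smg (hlp : R_lp) : A_smg := by
  intro ι α w i₀ hw c c' hc hc'
  obtain ⟨l, hl, u, v, hu, h1, h2⟩ := hc
  obtain ⟨l', hl', u', v', hu', h1', h2'⟩ := hc'
  obtain ⟨hA, hB⟩ := hlp ι α w hw
  obtain ⟨-, u'', v'', h3, h4⟩ := hB ⊤ i₀ l l' c c' ⟨Subgroup.mem_top _, u, v, h1, h2⟩
    ⟨Subgroup.mem_top _, u', v', h1', h2'⟩
  refine ⟨l + l', by omega, u'', v'', ?_, h3, h4⟩
  rintro rfl
  rw [h2, h2', pw_nil, map_one, mul_one, pow_add, mul_inv_rev] at h4
  have h5 : tR α ^ l' * iR α (BG.pw u) * (tR α ^ l')⁻¹ * iR α (BG.pw u') = 1 := by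
    have h6 : iR α (BG.pw u) * (tR α ^ l')⁻¹ * iR α (BG.pw u') =
        tR α ^ l * ((tR α ^ l')⁻¹ * (tR α ^ l)⁻¹) := by
      rw [← h4]; group
    have h7 : tR α ^ l * ((tR α ^ l')⁻¹ * (tR α ^ l)⁻¹) = (tR α ^ l')⁻¹ := by
      have h8 : Commute (tR α ^ l) (tR α ^ l')⁻¹ :=
        ((Commute.refl (tR α)).pow_pow l l').inv_right
      rw [← mul_assoc, h8.eq, mul_assoc, mul_inv_cancel, mul_one]
    rw [h7] at h6
    rw [mul_assoc, mul_assoc, ← mul_assoc (iR α (BG.pw u)), h6, mul_inv_cancel]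
  rw [tR_pow_conj, ← map_mul] at h5
  have h6 : (α ^ l') (BG.pw u) = BG.pw (u.flatMap (itw w l')) := by
    clear h1 h2 hu h4 h5
    induction u with
    | nil => simp
    | cons i u ih =>
      rw [pw_cons, map_mul, ih, hA, List.flatMap_cons, pw_append]
  rw [h6, ← pw_append] at h5
  have h7 : BG.pw (u.flatMap (itw w l') ++ u') = 1 := iR_injective α (by rw [h5, map_one])
  have h8 := smg_nil _ h7
  exact hu' (List.append_eq_nil_iff.1 h8).2

end

end Pool.Agent.F8.CG
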