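import Pool.Agent.Lib.MP_305fdd_al.F8.CG.StmA

/-!
# MP_305fdd_al, congruence subgroups: the trace formula (CG tf)
-/

set_option autoImplicit false

namespace Pool.Agent.F8.CG

open Pool.Agent.F8.BG Pool.Agent.Lib.MP_305fdd_al Pool.Agent.F8

noncomputable section

section

variable {ι : Type} (α : MulAut (FreeGroup ι)) (w : ι → List ι) (L : Subgroup (GR α))

/-- the element of a position -/
private def tf_g (i : ι) (p : ℕ) : GR α := (tR α)⁻¹ * iR α (BG.pw ((w i).take p))

/-- the condition on a triple -/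
private def tf_P (i : ι) (x : GR α ⧸ L) (p : Fin (w i).length) : Prop :=
  (w i).get p = i ∧ (tf_g α w i p)⁻¹ • x = x

open Classical in
/-- the trace of an induced operator -/
private theorem tf_ind [Fintype (GR α ⧸ L)] {K V : Type} [Field K] [AddCommGroup V] [Module K V]
    [FiniteDimensional K V] (σ : L →* Module.End K V) (g : GR α) :
    LinearMap.trace K _ (indA L σ g) = ∑ x : GR α ⧸ L,
      if g⁻¹ • x = x then LinearMap.trace K V (σ ⟨_, sec_mem L g x⟩) else 0 := by
  let b := Module.Free.chooseBasis K V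
  rw [LinearMap.trace_eq_matrix_trace K (Pi.basis (fun _ : GR α ⧸ L => b))]
  rw [Matrix.trace, Fintype.sum_sigma]
  refine Finset.sum_congr rfl fun x _ => ?_
  by_cases h2 : g⁻¹ • x = x
  · rw [if_pos h2, LinearMap.trace_eq_matrix_trace K b, Matrix.trace]
    refine Finset.sum_congr rfl fun a _ => ?_
    rw [Matrix.diag_apply, Matrix.diag_apply, LinearMap.toMatrix_apply, LinearMap.toMatrix_apply,
      Pi.basis_repr, Pi.basis_apply, indA_apply]
    have h3 : (Pi.single x (b a) : (GR α ⧸ L) → V) (g⁻¹ • x) = b a := by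
      rw [h2, Pi.single_eq_same]
    rw [h3]
  · rw [if_neg h2]
    refine Finset.sum_eq_zero fun a _ => ?_
    rw [Matrix.diag_apply, LinearMap.toMatrix_apply, Pi.basis_repr, Pi.basis_apply, indA_apply]
    have h3 : (Pi.single x (b a) : (GR α ⧸ L) → V) (g⁻¹ • x) = 0 := Pi.single_eq_of_ne h2 _
    rw [h3, map_zero, map_zero]
    rfl

open Classical in
/-- the trace of `Uop` -/
private theorem tf_U [Fintype ι] [Fintype (GR α ⧸ L)] {K V : Type} [Field K] [AddCommGroup V]
    [Module K V] [FiniteDimensional K V] (σ : L →* Module.End K V) :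
    LinearMap.trace K _ (Uop α w L σ) = ∑ i, ∑ x : GR α ⧸ L, ∑ p : Fin (w i).length,
      if tf_P α w L i x p then
        LinearMap.trace K V (σ ⟨_, sec_mem L (tf_g α w i p) x⟩) else 0 := by
  let b := Module.Free.chooseBasis K V
  rw [LinearMap.trace_eq_matrix_trace K
    (Pi.basis (fun _ : ι => Pi.basis (fun _ : GR α ⧸ L => b)))]
  rw [Matrix.trace, Fintype.sum_sigma]
  refine Finset.sum_congr rfl fun i _ => ?_
  rw [Fintype.sum_sigma]
  refine Finset.sum_congr rfl fun x _ => ?_
  have h0 : ∀ p : Fin (w i).length, (if tf_P α w L i x p then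
        LinearMap.trace K V (σ ⟨_, sec_mem L (tf_g α w i p) x⟩) else 0) =
      ∑ a, if tf_P α w L i x p then
        b.repr (σ ⟨_, sec_mem L (tf_g α w i p) x⟩ (b a)) a else 0 := by
    intro p
    by_cases h : tf_P α w L i x p
    · simp only [if_pos h]
      rw [LinearMap.trace_eq_matrix_trace K b, Matrix.trace]
      refine Finset.sum_congr rfl fun a _ => ?_
      rw [Matrix.diag_apply, LinearMap.toMatrix_apply]
    · simp only [if_neg h, Finset.sum_const_zero]
  rw [Finset.sum_congr rfl fun p _ => h0 p, Finset.sum_comm]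
  refine Finset.sum_congr rfl fun a _ => ?_
  rw [Matrix.diag_apply, LinearMap.toMatrix_apply, Pi.basis_repr, Pi.basis_apply,
    Pi.basis_repr, Pi.basis_apply]
  have h1 : (Uop α w L σ (Pi.single i (Pi.single x (b a)))) i x =
      ∑ p : Fin (w i).length, if tf_P α w L i x p then
        σ ⟨_, sec_mem L (tf_g α w i p) x⟩ (b a) else 0 := by
    unfold Uop
    rw [LinearMap.pi_apply, LinearMap.sum_apply, Finset.sum_apply]
    refine Finset.sum_congr rfl fun p _ => ?_
    rw [LinearMap.comp_apply, LinearMap.proj_apply, indA_apply]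
    by_cases h1 : (w i).get p = i
    · have h4 : (Pi.single i (Pi.single x (b a)) : ι → (GR α ⧸ L) → V) ((w i).get p) =
          Pi.single x (b a) := by
        rw [h1, Pi.single_eq_same]
      rw [h4]
      by_cases h2 : (tf_g α w i p)⁻¹ • x = x
      · rw [if_pos (show tf_P α w L i x p from ⟨h1, h2⟩)]
        have h3 : (Pi.single x (b a) : (GR α ⧸ L) → V)
            (((tR α)⁻¹ * iR α (BG.pw ((w i).take p)))⁻¹ • x) = b a := by
          rw [show ((tR α)⁻¹ * iR α (BG.pw ((w i).take p)))⁻¹ • x = x from h2,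
            Pi.single_eq_same]
        rw [h3]
        rfl
      · rw [if_neg (fun h : tf_P α w L i x p => h2 h.2)]
        have h3 : (Pi.single x (b a) : (GR α ⧸ L) → V)
            (((tR α)⁻¹ * iR α (BG.pw ((w i).take p)))⁻¹ • x) = 0 := Pi.single_eq_of_ne h2 _
        rw [h3, map_zero]
    · rw [if_neg (fun h : tf_P α w L i x p => h1 h.1), Pi.single_eq_of_ne h1, Pi.zero_apply,
        map_zero]
  rw [h1, map_sum, Finsupp.finsetSum_apply]
  refine Finset.sum_congr rfl fun p _ => ?_
  split_ifs
  · rfl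
  · rw [map_zero]
    rfl

end

theorem p_tf : A_tf := by
  classical
  intro ι _ α w i₀ hhd L hL i₁ u₁ v₁ hu₁ hw₁ hc
  have : Finite (GR α ⧸ L) := Subgroup.finite_quotient_of_finiteIndex
  let _ : Fintype (GR α ⧸ L) := Fintype.ofFinite _
  let _ : Fintype ι := Fintype.ofFinite _
  let A : Finset (Σ i : ι, Σ _ : GR α ⧸ L, Fin (w i).length) :=
    Finset.univ.filter fun z => tf_P α w L z.1 z.2.1 z.2.2
  let B : Finset (GR α ⧸ L) := Finset.univ.filter fun x => (tR α) • x = x
  have hlen : 0 < (w i₀).length := by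
    rcases h : w i₀ with _ | ⟨a, l⟩
    · rw [h] at hhd
      simp at hhd
    · simp
  have hget : (w i₀).get ⟨0, hlen⟩ = i₀ := by
    rw [List.head?_eq_getElem?, List.getElem?_eq_getElem hlen] at hhd
    exact Option.some.inj hhd
  have hlen₁ : u₁.length < (w i₁).length := by
    rw [hw₁]
    simp
  let z₁ : Σ i : ι, Σ _ : GR α ⧸ L, Fin (w i).length :=
    ⟨i₁, ((1 : GR α) : GR α ⧸ L), ⟨u₁.length, hlen₁⟩⟩
  let φ : (GR α ⧸ L) → Σ i : ι, Σ _ : GR α ⧸ L, Fin (w i).length :=
    fun x => ⟨i₀, x, ⟨0, hlen⟩⟩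
  have hφ : Function.Injective φ := by
    intro x y h
    simpa [φ] using h
  have hg0 : ∀ i, tf_g α w i 0 = (tR α)⁻¹ := by
    intro i
    unfold tf_g
    simp
  have hz₁ : z₁ ∈ A := by
    refine Finset.mem_filter.2 ⟨Finset.mem_univ _, ?_, ?_⟩
    · show (w i₁).get ⟨u₁.length, hlen₁⟩ = i₁
      simp [hw₁]
    · show (tf_g α w i₁ u₁.length)⁻¹ • ((1 : GR α) : GR α ⧸ L) = ((1 : GR α) : GR α ⧸ L)
      have h1 : tf_g α w i₁ u₁.length = (tR α)⁻¹ * iR α (BG.pw u₁) := by
        unfold tf_g
        rw [hw₁, List.take_left']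
        rfl
      rw [h1]
      have h2 : (((tR α)⁻¹ * iR α (BG.pw u₁))⁻¹ • ((1 : GR α) : GR α ⧸ L)) =
        ((((tR α)⁻¹ * iR α (BG.pw u₁))⁻¹ * 1 : GR α) : GR α ⧸ L) := rfl
      rw [h2]
      apply QuotientGroup.eq.2
      simpa using hc
  have hsub : insert z₁ (B.image φ) ⊆ A := by
    intro z hz
    rcases Finset.mem_insert.1 hz with rfl | hz
    · exact hz₁
    · obtain ⟨x, hx, rfl⟩ := Finset.mem_image.1 hz
      refine Finset.mem_filter.2 ⟨Finset.mem_univ _, hget, ?_⟩
      show (tf_g α w i₀ 0)⁻¹ • x = x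
      rw [hg0, inv_inv]
      exact (Finset.mem_filter.1 hx).2
  have hnot : z₁ ∉ B.image φ := by
    intro h
    obtain ⟨x, _, hx⟩ := Finset.mem_image.1 h
    have h3 : (φ x).2.2.val = z₁.2.2.val := by rw [hx]
    have h4 : (0 : ℕ) = u₁.length := h3
    exact hu₁ (List.length_eq_zero_iff.1 h4.symm)
  have hcard : B.card + 1 ≤ A.card := by
    have h5 := Finset.card_le_card hsub
    rwa [Finset.card_insert_of_notMem hnot, Finset.card_image_of_injective _ hφ] at h5
  refine ⟨A.card - B.card, by omega, ?_⟩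
  intro K V _ _ _ _ σ T₀ hT
  have hsec : ∀ (g : GR α) (x : GR α ⧸ L), g⁻¹ • x = x →
      (sec L x)⁻¹ * g * sec L (g⁻¹ • x) = (sec L x)⁻¹ * g * sec L x := by
    intro g x h
    rw [h]
  have hU : LinearMap.trace K _ (Uop α w L σ) = A.card * T₀ := by
    rw [tf_U]
    have h6 : ∀ (i : ι) (x : GR α ⧸ L) (p : Fin (w i).length), (if tf_P α w L i x p then
        LinearMap.trace K V (σ ⟨_, sec_mem L (tf_g α w i p) x⟩) else 0) =
        if tf_P α w L i x p then T₀ else 0 := by
      intro i x p
      by_cases h : tf_P α w L i x p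
      · rw [if_pos h, if_pos h]
        have h7 := hsec (tf_g α w i p) x h.2
        have h8 : (sec L x)⁻¹ * ((tR α)⁻¹ * iR α (BG.pw ((w i).take p))) * sec L x ∈ L := by
          have h9 := sec_mem L (tf_g α w i p) x
          rw [h7] at h9
          exact h9
        have h10 := hT (sec L x) i ((w i).take p) ((w i).drop (p + 1)) (by
          conv_lhs => rw [← List.take_append_drop p (w i)]
          congr 1
          rw [List.drop_eq_getElem_cons p.2]
          congr 1
          exact h.1) h8
        rw [← h10]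
        congr 2
        exact Subtype.ext h7
      · rw [if_neg h, if_neg h]
    rw [Finset.sum_congr rfl fun i _ => Finset.sum_congr rfl fun x _ =>
      Finset.sum_congr rfl fun p _ => h6 i x p]
    have h11 : (∑ i : ι, ∑ x : GR α ⧸ L, ∑ p : Fin (w i).length,
        if tf_P α w L i x p then T₀ else 0) =
        ∑ z : (Σ i : ι, Σ _ : GR α ⧸ L, Fin (w i).length),
          if tf_P α w L z.1 z.2.1 z.2.2 then T₀ else 0 := by
      rw [Fintype.sum_sigma]
      refine Finset.sum_congr rfl fun i _ => ?_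
      rw [Fintype.sum_sigma]
    rw [h11, ← Finset.sum_filter, Finset.sum_const, nsmul_eq_mul]
  have hI : LinearMap.trace K _ (indA L σ (tR α)⁻¹) = B.card * T₀ := by
    rw [tf_ind]
    have h6 : ∀ x : GR α ⧸ L, (if ((tR α)⁻¹)⁻¹ • x = x then
        LinearMap.trace K V (σ ⟨_, sec_mem L (tR α)⁻¹ x⟩) else 0) =
        if (tR α) • x = x then T₀ else 0 := by
      intro x
      by_cases h : ((tR α)⁻¹)⁻¹ • x = x
      · have h' : (tR α) • x = x := by
          rwa [inv_inv] at h
        rw [if_pos h, if_pos h']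
        have h7 := hsec (tR α)⁻¹ x h
        have h7' : (sec L x)⁻¹ * (tR α)⁻¹ * sec L x =
            (sec L x)⁻¹ * ((tR α)⁻¹ * iR α (BG.pw [])) * sec L x := by
          simp
        have h8 : (sec L x)⁻¹ * ((tR α)⁻¹ * iR α (BG.pw [])) * sec L x ∈ L := by
          have h9 := sec_mem L (tR α)⁻¹ x
          rw [h7, h7'] at h9
          exact h9
        have h10 := hT (sec L x) i₀ [] ((w i₀).drop 1) (by
          rcases h : w i₀ with _ | ⟨a, l⟩
          · rw [h] at hhd
            simp at hhd
          · rw [h] at hhd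
            simp at hhd
            simp [hhd]) h8
        rw [← h10]
        congr 2
        exact Subtype.ext (h7.trans h7')
      · have h' : ¬ (tR α) • x = x := by
          rwa [inv_inv] at h
        rw [if_neg h, if_neg h']
    rw [Finset.sum_congr rfl fun x _ => h6 x, ← Finset.sum_filter, Finset.sum_const,
      nsmul_eq_mul]
  rw [hU, hI, ← add_mul]
  congr 1
  rw [← Nat.cast_add, Nat.sub_add_cancel (by omega)]

end

end Pool.Agent.F8.CG
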