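import Pool.Agent.Lib.MP_305fdd_al.F8.CG.StmA3

/-!
# MP_305fdd_al, congruence subgroups: piece thF, a family with a trace formula (helper11)

The first part of `P_th.lean` (helper53).
-/

set_option autoImplicit false

namespace Pool.Agent.F8.CG

open Pool.Agent.F8.BG Pool.Agent.MP_305fdd_al Pool.Agent.Lib.MP_305fdd_al Pool.Agent.F8
open scoped QuadraticAlgebra

/-- loops with nonempty prefix -/
private def thF_lp {ι : Type} (α : MulAut (FreeGroup ι)) (w : ι → List ι) (i₀ : ι) (c : GR α) :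
    Prop :=
  ∃ k, 1 ≤ k ∧ ∃ u v : List ι, u ≠ [] ∧ itw w k i₀ = u ++ i₀ :: v ∧
    c = (tR α ^ k)⁻¹ * iR α (BG.pw u)

private theorem thF_map {G R S : Type} [Group G] [CommRing R] [CommRing S] (f : R →+* S)
    (ρ : G →* SL2 R) (g : G) : tr (((SLm f).comp ρ) g) = f (tr (ρ g)) := by
  rw [MonoidHom.comp_apply]
  exact tr_map f _

/-- PIECE CG thF -/
theorem p_thF (hone : A_one) (hgns : A_gns) (hsmg : A_smg) (hfri : A_fri) (half : A_alf) :
    A_thF := by
  intro ι _ α w i₀ hpos hhd D hD a b hn ρ₀ hirr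
  classical
  -- the field
  have hdom : IsDomain (Qf a b ℤ) := Qf_domain hn
  let e₀ : Qf a b ℤ →+* FractionRing (Qf a b ℤ) := algebraMap _ _
  have he₀ : Function.Injective e₀ := IsFractionRing.injective _ _
  let ρK : D →* SL2 (FractionRing (Qf a b ℤ)) := (SLm e₀).comp ρ₀
  have hρK : ∀ g, tr (ρK g) = e₀ (tr (ρ₀ g)) := thF_map e₀ ρ₀
  -- the data of `A_one`
  have h1 : ∀ c : {c : D // thF_lp α w i₀ c}, ∃ (L : Subgroup D) (hc : (c : D) ∈ L)
      (nL : L →* Multiplicative ℤ) (N : ℕ) (M : ℤ), L.FiniteIndex ∧ M ≠ 0 ∧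
      PolD (c : D) L hc nL N M ∧
      (∃ k : ℕ, 1 ≤ k ∧ ∀ x : L, nD D x = nL x ^ k) := by
    rintro ⟨c, k, hk, u, v, hu, huv, hc⟩
    obtain ⟨L, nL, N, M, hcL, hL, -, hkL, hM, hP⟩ :=
      hone ι α w i₀ hpos hhd D hD k hk u v hu huv c hc
    refine ⟨L, hcL, nL, N, (M : ℤ), hL, ?_, ?_, k, hk, ?_⟩
    · have : M ≠ 0 := by omega
      exact_mod_cast this
    · intro K _ ρ hρ hc'
      obtain ⟨P, hP'⟩ := hP K ρ hρ hc'
      exact ⟨P, hP'.isPz⟩
    · intro x
      apply Multiplicative.toAdd.injective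
      rw [hkL x, toAdd_pow, nsmul_eq_mul]
  choose L hcL nL N M hL hM hP hk using h1
  -- the elements
  obtain ⟨S, hS, hSl⟩ := hgns ι α w i₀ hpos D hD
  have hmul : ∀ x y : D, thF_lp α w i₀ x → thF_lp α w i₀ y →
      thF_lp α w i₀ ((x * y : D) : GR α) := by
    intro x y hx hy
    rw [Subgroup.coe_mul]
    exact hsmg ι α w i₀ hpos.eq _ _ hx hy
  obtain ⟨x, hx, y, hy, hxy⟩ := half D _ ρK {c : D | thF_lp α w i₀ c}
    (by
      rw [eq_top_iff, ← hS]
      exact Subgroup.closure_mono fun c hc => hSl c hc)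
    (fun x hx y hy => hmul x y hx hy)
    (by
      obtain ⟨g, -, h, -, hgh⟩ := hirr ⊤ inferInstance
      refine ⟨g, h, fun h2 => hgh ?_⟩
      rw [hρK] at h2
      apply he₀
      rw [h2, map_ofNat])
  have hxy0 : tr (ρ₀ (x * y * x⁻¹ * y⁻¹)) ≠ 2 := by
    intro h
    apply hxy
    rw [hρK, h, map_ofNat]
  let C₀ : Finset D := {x, y, x * y} ∪ (S ∪ (S.image (fun s => s * x) ∪
    (S.image (fun s => s * y) ∪ S.image (fun s => s * x * y))))
  have hC₀ : ∀ c ∈ C₀, thF_lp α w i₀ c := by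
    intro c hc
    simp only [C₀, Finset.mem_union, Finset.mem_insert, Finset.mem_singleton,
      Finset.mem_image] at hc
    rcases hc with (rfl | rfl | rfl) | hc | ⟨s, hs, rfl⟩ | ⟨s, hs, rfl⟩ | ⟨s, hs, rfl⟩
    · exact hx
    · exact hy
    · exact hmul _ _ hx hy
    · exact hSl c hc
    · exact hmul _ _ (hSl s hs) hx
    · exact hmul _ _ (hSl s hs) hy
    · exact hmul _ _ (hmul _ _ (hSl s hs) hx) hy
  let T : Type := {c // c ∈ C₀}
  let eT : T ≃ Fin (Fintype.card T) := Fintype.equivFin T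
  let ll : Fin (Fintype.card T) → {c : D // thF_lp α w i₀ c} := fun i =>
    ⟨(eT.symm i).1, hC₀ _ (eT.symm i).2⟩
  refine ⟨Fintype.card T, fun i => (ll i).1, fun i => L (ll i), fun i => hcL (ll i),
    fun i => nL (ll i), fun i => N (ll i), fun i => M (ll i), ?_, fun i => hL (ll i),
    fun i => hM (ll i), fun i => hP (ll i), fun i => hk (ll i), ⟨x, y, hxy0⟩,
    nq (tr (ρ₀ (x * y * x⁻¹ * y⁻¹)) - 2), ?_, ?_⟩
  · exact Fintype.card_pos_iff.2 ⟨⟨x, by simp [C₀]⟩⟩
  · intro h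
    exact sub_ne_zero.2 hxy0 (nq_eq_zero hn h)
  · intro k _ hM₁ j ρ htr
    have key : ∀ c ∈ C₀, tr (((SLm j).comp ρ₀) c) = tr (ρ c) := by
      intro c hc
      have h2 := htr (eT ⟨c, hc⟩)
      simp only [ll, Equiv.symm_apply_apply] at h2
      rw [thF_map, h2]
    intro g
    have h3 := hfri D k ((SLm j).comp ρ₀) ρ (S : Set D) hS x y (by
        intro h
        rw [thF_map] at h
        apply hM₁
        have h4 := congrArg j (mul_cjq (tr (ρ₀ (x * y * x⁻¹ * y⁻¹)) - 2))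
        rw [map_mul, map_sub, map_ofNat, h, sub_self, zero_mul] at h4
        have h5 : (⟨nq (tr (ρ₀ (x * y * x⁻¹ * y⁻¹)) - 2), 0⟩ : Qf a b ℤ) =
            ((nq (tr (ρ₀ (x * y * x⁻¹ * y⁻¹)) - 2) : ℤ) : Qf a b ℤ) := by
          ext <;> simp
        rw [h5, map_intCast] at h4
        exact h4.symm)
      (key x (by simp [C₀])) (key y (by simp [C₀])) (key (x * y) (by simp [C₀]))
      (fun s hs => ⟨key s (by simp [C₀, Finset.mem_coe.1 hs]),
        key (s * x) (by
          simp only [C₀, Finset.mem_union, Finset.mem_image]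
          exact Or.inr (Or.inr (Or.inl ⟨s, hs, rfl⟩))),
        key (s * y) (by
          simp only [C₀, Finset.mem_union, Finset.mem_image]
          exact Or.inr (Or.inr (Or.inr (Or.inl ⟨s, hs, rfl⟩)))),
        key (s * x * y) (by
          simp only [C₀, Finset.mem_union, Finset.mem_image]
          exact Or.inr (Or.inr (Or.inr (Or.inr ⟨s, hs, rfl⟩))))⟩) g
    rw [thF_map] at h3
    exact h3.symm

end Pool.Agent.F8.CG
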