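import Pool.Agent.Lib.MP_305fdd_al.F8.CG.StmA

/-!
# MP_305fdd_al, congruence subgroups: dimension and trace (CG trq)
-/

set_option autoImplicit false

namespace Pool.Agent.F8.CG

open Pool.Agent.F8.BG Pool.Agent.Lib.MP_305fdd_al Pool.Agent.F8

open Module.Basis in
/-- the trace and invariant subspaces -/
private theorem trq_add (K V : Type) [Field K] [AddCommGroup V] [Module K V]
    [FiniteDimensional K V] (W : Submodule K V) (e : V →ₗ[K] V) (he : W ≤ W.comap e) :
    LinearMap.trace K V e = LinearMap.trace K W (e.restrict he) +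
      LinearMap.trace K (V ⧸ W) (W.mapQ W e he) := by
  classical
  let m := Module.Free.ChooseBasisIndex K W
  let bW : Module.Basis m K W := Module.Free.chooseBasis K W
  let n := Module.Free.ChooseBasisIndex K (V ⧸ W)
  let bQ : Module.Basis n K (V ⧸ W) := Module.Free.chooseBasis K (V ⧸ W)
  rw [LinearMap.trace_eq_matrix_trace K (sumQuot bW bQ), LinearMap.trace_eq_matrix_trace K bW,
    LinearMap.trace_eq_matrix_trace K bQ]
  simp only [Matrix.trace, Matrix.diag_apply, Fintype.sum_sum_type]
  congr 1
  · apply Finset.sum_congr rfl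
    intro i _
    rw [LinearMap.toMatrix_apply, LinearMap.toMatrix_apply, sumQuot_inl]
    exact sumQuot_repr_inl_of_mem bW bQ _ (he (bW i).2) i
  · apply Finset.sum_congr rfl
    intro j _
    rw [LinearMap.toMatrix_apply, LinearMap.toMatrix_apply, sumQuot_repr_inr,
      ← sumQuot_inr bW bQ j, W.mapQ_apply]
    rfl

theorem p_trq : A_trq := by
  intro ι _ α w L hL K V _ _ _ _ σ hinj hcomm
  classical
  have : Finite (GR α ⧸ L) := Subgroup.finite_quotient_of_finiteIndex
  let _ : Fintype (GR α ⧸ L) := Fintype.ofFinite _
  have hW : Module.finrank K ((GR α ⧸ L) → V) = L.index * Module.finrank K V := by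
    rw [Module.finrank_pi_fintype, Finset.sum_const, Finset.card_univ, smul_eq_mul,
      ← Nat.card_eq_fintype_card]
    rfl
  have hM : Module.finrank K (ι → (GR α ⧸ L) → V) =
      Fintype.card ι * (L.index * Module.finrank K V) := by
    rw [Module.finrank_pi_fintype, Finset.sum_const, Finset.card_univ, smul_eq_mul, hW]
  have hR : Module.finrank K (LinearMap.range (dlt α L σ)) =
      L.index * Module.finrank K V := by
    rw [LinearMap.finrank_range_of_inj hinj, hW]
  refine ⟨?_, ?_⟩
  · rw [← hM, ← hR]
    exact Submodule.finrank_quotient_add_finrank _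
  · intro Ub hUb
    have he : LinearMap.range (dlt α L σ) ≤
        (LinearMap.range (dlt α L σ)).comap (Uop α w L σ) := by
      rintro _ ⟨φ, rfl⟩
      rw [Submodule.mem_comap, hcomm]
      exact LinearMap.mem_range_self _ _
    have hQ : (LinearMap.range (dlt α L σ)).mapQ (LinearMap.range (dlt α L σ))
        (Uop α w L σ) he = Ub := by
      apply Submodule.linearMap_qext
      apply LinearMap.ext
      intro v
      rw [LinearMap.comp_apply, LinearMap.comp_apply, Submodule.mkQ_apply, Submodule.mapQ_apply]
      exact (hUb v).symm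
    have hT := trq_add K _ (LinearMap.range (dlt α L σ)) (Uop α w L σ) he
    rw [hQ] at hT
    rw [hT, add_comm]
    congr 1
    let E : ((GR α ⧸ L) → V) ≃ₗ[K] LinearMap.range (dlt α L σ) :=
      LinearEquiv.ofInjective (dlt α L σ) hinj
    have hc : (Uop α w L σ).restrict he = E.conj (indA L σ (tR α)⁻¹) := by
      apply LinearMap.ext
      intro x
      obtain ⟨φ, rfl⟩ := E.surjective x
      rw [LinearEquiv.conj_apply_apply, LinearEquiv.symm_apply_apply]
      apply Subtype.ext
      rw [LinearMap.coe_restrict_apply]
      exact hcomm φ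
    rw [hc, LinearMap.trace_conj']

end Pool.Agent.F8.CG
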