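import Pool.Agent.Lib.MP_305fdd_al.F8.CG.StmA

/-!
# MP_305fdd_al, congruence subgroups: the operator on the first cohomology
-/

set_option autoImplicit false

namespace Pool.Agent.F8.CG

open Pool.Agent.F8.BG Pool.Agent.Lib.MP_305fdd_al Pool.Agent.F8

noncomputable section

theorem ub_take {ι : Type} (l : List ι) (p : Fin l.length) :
    BG.pw (l.take (p + 1)) = BG.pw (l.take p) * FreeGroup.of (l.get p) := by
  have h : l.take (p + 1) = l.take p ++ [l.get p] := by
    rw [List.get_eq_getElem]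
    exact (List.take_append_getElem p.2).symm
  rw [h, BG.pw_append, BG.pw_cons, BG.pw_nil, mul_one]

theorem ub_dlt {ι : Type} (α : MulAut (FreeGroup ι)) (w : ι → List ι)
    (hw : ∀ i, α (FreeGroup.of i) = BG.pw (w i)) (L : Subgroup (GR α)) {K V : Type} [CommRing K]
    [AddCommGroup V] [Module K V] (σ : L →* Module.End K V) (φ : (GR α ⧸ L) → V) :
    Uop α w L σ (dlt α L σ φ) = dlt α L σ (indA L σ (tR α)⁻¹ φ) := by
  have hmul : ∀ (g h : GR α) (ψ : (GR α ⧸ L) → V),
      indA L σ (g * h) ψ = indA L σ g (indA L σ h ψ) := by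
    intro g h ψ
    rw [map_mul]; rfl
  funext i
  have h1 : Uop α w L σ (dlt α L σ φ) i = ∑ p : Fin (w i).length,
      indA L σ ((tR α)⁻¹ * iR α (BG.pw ((w i).take p)))
        (φ - indA L σ (iR α (FreeGroup.of ((w i).get p))) φ) := by
    unfold Uop
    rw [LinearMap.pi_apply, LinearMap.sum_apply]
    rfl
  let g : ℕ → ((GR α ⧸ L) → V) := fun p =>
    indA L σ ((tR α)⁻¹ * iR α (BG.pw ((w i).take p))) φ
  have h2 : ∀ p : Fin (w i).length,
      indA L σ ((tR α)⁻¹ * iR α (BG.pw ((w i).take p)))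
        (φ - indA L σ (iR α (FreeGroup.of ((w i).get p))) φ) = g p - g (p + 1) := by
    intro p
    show _ = indA L σ ((tR α)⁻¹ * iR α (BG.pw ((w i).take p))) φ -
      indA L σ ((tR α)⁻¹ * iR α (BG.pw ((w i).take (p + 1)))) φ
    rw [map_sub, ← hmul, ub_take, map_mul (iR α), mul_assoc]
  have h3 : ∑ p : Fin (w i).length, (g p - g (p + 1)) = g 0 - g (w i).length := by
    rw [Fin.sum_univ_eq_sum_range (fun p => g p - g (p + 1)) (w i).length,
      Finset.sum_range_sub']
  rw [h1, Finset.sum_congr rfl fun p _ => h2 p, h3]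
  show indA L σ ((tR α)⁻¹ * iR α (BG.pw ((w i).take 0))) φ -
    indA L σ ((tR α)⁻¹ * iR α (BG.pw ((w i).take (w i).length))) φ =
    indA L σ (tR α)⁻¹ φ - indA L σ (iR α (FreeGroup.of i)) (indA L σ (tR α)⁻¹ φ)
  rw [List.take_zero, List.take_length, BG.pw_nil, map_one, mul_one, ← hmul, ← hw,
    ← tR_conj]
  congr 3
  group

theorem p_ub : A_ub := by
  intro ι α w hw L K V _ _ _ σ
  refine ⟨ub_dlt α w hw L σ, ?_⟩
  refine ⟨(LinearMap.range (dlt α L σ)).mapQ (LinearMap.range (dlt α L σ)) (Uop α w L σ) ?_, ?_⟩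
  · rintro x ⟨φ, rfl⟩
    rw [Submodule.mem_comap, ub_dlt α w hw L σ φ]
    exact LinearMap.mem_range_self _ _
  · intro v
    rfl

end

end Pool.Agent.F8.CG
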