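import Pool.Agent.Lib.MP_305fdd_al.F8.CG.MainR
import Pool.Agent.Lib.MP_305fdd_al.F8.CG.P_ub
import Pool.Agent.Lib.MP_305fdd_al.F8.CG.P_inj
import Pool.Agent.Lib.MP_305fdd_al.F8.CG.P_trq
import Pool.Agent.Lib.MP_305fdd_al.F8.CG.P_tf
import Pool.Agent.Lib.MP_305fdd_al.F8.CG.P_z1
import Pool.Agent.Lib.MP_305fdd_al.F8.CG.P_jor
import Pool.Agent.Lib.MP_305fdd_al.F8.CG.P_itg
import Pool.Agent.Lib.MP_305fdd_al.F8.CG.P_op
import Pool.Agent.Lib.MP_305fdd_al.F8.CG.P_sep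
import Pool.Agent.Lib.MP_305fdd_al.F8.CG.P_one
import Pool.Agent.Lib.MP_305fdd_al.F8.CG.P_gn2
import Pool.Agent.Lib.MP_305fdd_al.F8.CG.P_gns
import Pool.Agent.Lib.MP_305fdd_al.F8.CG.P_smg
import Pool.Agent.Lib.MP_305fdd_al.F8.CG.P_fri
import Pool.Agent.Lib.MP_305fdd_al.F8.CG.P_alf
import Pool.Agent.Lib.MP_305fdd_al.F8.CG.P_pol
import Pool.Agent.Lib.MP_305fdd_al.F8.CG.P_nrm
import Pool.Agent.Lib.MP_305fdd_al.F8.CG.P_bc
import Pool.Agent.Lib.MP_305fdd_al.F8.CG.P_irr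
import Pool.Agent.Lib.MP_305fdd_al.F8.CG.P_fam
import Pool.Agent.Lib.MP_305fdd_al.F8.CG.P_thF
import Pool.Agent.Lib.MP_305fdd_al.F8.CG.P_TH
import Pool.Agent.Lib.MP_305fdd_al.F8.CG.P_Tind

/-!
# MP_305fdd_al, congruence subgroups: assembly of the block A (positive automorphisms)
-/

set_option autoImplicit false

namespace Pool.Agent.F8.CG

theorem m_op : A_op := p_op p_ub p_inj p_trq p_tf p_z1 p_jor p_itg

theorem m_one : A_one := p_one m_lp m_op p_sep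

theorem m_gns : A_gns := p_gns m_lp (p_gn2 BG.p_i1 BG.p_i2)

theorem m_smg : A_smg := p_smg m_lp

theorem m_fam : A_fam := p_fam p_pol p_nrm p_bc

theorem m_thF : A_thF := p_thF m_one m_gns m_smg p_fri p_alf

theorem m_TH : A_TH := p_TH m_fam p_Tind

end Pool.Agent.F8.CG
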