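import Pool.Agent.Lib.MP_305fdd_al.F8.CG.StmA2

/-!
# MP_305fdd_al, congruence subgroups: piece th, the main result of block A (helper53)
-/

set_option autoImplicit false

namespace Pool.Agent.F8.CG

open Pool.Agent.F8.BG Pool.Agent.MP_305fdd_al Pool.Agent.Lib.MP_305fdd_al Pool.Agent.F8
open scoped QuadraticAlgebra

/-- evaluation at a root of `w² = a + b w` is injective -/
private theorem th_inj {a b : ℤ} (hn : b ^ 2 + 4 * a < 0) {K : Type} [Field K] [CharZero K] (w : K)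
    (hw : w * w = (a : K) + (b : K) * w) :
    Function.Injective (evq a b (Int.castRingHom K) w hw) := by
  rw [injective_iff_map_eq_zero]
  intro z hz
  rw [evq_apply, eq_intCast, eq_intCast] at hz
  apply nq_eq_zero hn
  have h1 : ((nq z : ℤ) : K) = 0 := by
    unfold nq
    simp only [Int.cast_id]
    push_cast
    linear_combination ((z.re : K) + b * z.im - z.im * w) * hz + (z.im : K) * z.im * hw
  exact_mod_cast h1

/-- an injective homomorphism to an algebraically closed field -/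
private theorem th_emb {a b : ℤ} (hn : b ^ 2 + 4 * a < 0) (K : Type) [Field K] [CharZero K]
    [IsAlgClosed K] : ∃ e : Qf a b ℤ →+* K, Function.Injective e := by
  obtain ⟨w, hw⟩ : ∃ w : K, w * w = (a : K) + (b : K) * w := by
    obtain ⟨s, hs⟩ := IsAlgClosed.exists_pow_nat_eq ((b : K) ^ 2 + 4 * a) (n := 2) (by norm_num)
    refine ⟨((b : K) + s) / 2, ?_⟩
    field_simp
    linear_combination hs
  exact ⟨_, th_inj hn w hw⟩

/-- `GR α` is finitely generated -/
private theorem th_fg {ι : Type} [Finite ι] (α : MulAut (FreeGroup ι)) : Group.FG (GR α) := by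
  rw [Group.fg_iff]
  refine ⟨insert (tR α) (Set.range fun i => iR α (FreeGroup.of i)), ?_,
    (Set.finite_range _).insert _⟩
  rw [eq_top_iff]
  rintro x -
  obtain ⟨w, n, rfl⟩ := GR_cases α x
  have hw : iR α w ∈ Subgroup.closure (insert (tR α) (Set.range fun i => iR α (FreeGroup.of i))) := by
    have hle : (⊤ : Subgroup (FreeGroup ι)) ≤ (Subgroup.closure
        (insert (tR α) (Set.range fun i => iR α (FreeGroup.of i)))).comap (iR α) := by
      rw [← FreeGroup.closure_range_of, Subgroup.closure_le]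
      rintro _ ⟨i, rfl⟩
      exact Subgroup.subset_closure (Set.mem_insert_of_mem _ ⟨i, rfl⟩)
    exact hle (Subgroup.mem_top w)
  exact mul_mem hw (zpow_mem (Subgroup.subset_closure (Set.mem_insert _ _)) _)

private theorem th_conj {R : Type} [CommRing R] {g h : SL2 R} (hc : IsConj g h) :
    tr g = tr h := by
  obtain ⟨c, hc⟩ := isConj_iff.1 hc
  rw [← hc]
  show g.val.trace = (c * g * c⁻¹).val.trace
  have h1 : (c * g * c⁻¹).val = c.val * g.val * c⁻¹.val := rfl
  have h2 : c⁻¹.val * c.val = 1 := by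
    have h3 : (c⁻¹ * c).val = (1 : SL2 R).val := by rw [inv_mul_cancel]
    exact h3
  rw [h1, Matrix.trace_mul_comm, ← Matrix.mul_assoc, h2, Matrix.one_mul]

private theorem th_fin (a b : ℤ) (m : ℕ) [NeZero m] : Finite (SL2 (Qf a b (ZMod m))) := by
  have : Finite (Qf a b (ZMod m)) :=
    Finite.of_equiv (ZMod m × ZMod m) (QuadraticAlgebra.equivProd (a : ZMod m) (b : ZMod m)).symm
  infer_instance

private theorem th_int (x y : ℤ) (h : ∀ m : ℕ, m ≠ 0 → (x : ZMod m) = (y : ZMod m)) : x = y := by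
  by_contra hne
  have h0 : x - y ≠ 0 := sub_ne_zero.2 hne
  have h1 := h ((x - y).natAbs + 1) (Nat.succ_ne_zero _)
  have h2 : (((x - y : ℤ)) : ZMod ((x - y).natAbs + 1)) = 0 := by
    rw [Int.cast_sub, h1, sub_self]
  have h3 := (ZMod.intCast_zmod_eq_zero_iff_dvd _ _).1 h2
  have h4 := Int.natAbs_dvd_natAbs.2 h3
  rw [Int.natAbs_natCast] at h4
  have h5 := Nat.le_of_dvd (Int.natAbs_pos.2 h0) h4
  omega

/-- profinitely conjugate elements have the same traces -/
private theorem th_pc {G : Type} [Group G] {a b : ℤ} (ρ : G →* GQ a b) {c' c : G}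
    (h : PConj c' c) : tr (ρ c') = tr (ρ c) := by
  have key : ∀ m : ℕ, m ≠ 0 → Qfm a b (Int.castRingHom (ZMod m)) (tr (ρ c')) =
      Qfm a b (Int.castRingHom (ZMod m)) (tr (ρ c)) := by
    intro m hm
    have : NeZero m := ⟨hm⟩
    have := th_fin a b m
    have h1 := th_conj (h _ ((rdq a b m).comp ρ))
    rw [MonoidHom.comp_apply, MonoidHom.comp_apply] at h1
    unfold rdq at h1
    rwa [tr_map, tr_map] at h1
  apply QuadraticAlgebra.ext
  · exact th_int _ _ fun m hm => congrArg QuadraticAlgebra.re (key m hm)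
  · exact th_int _ _ fun m hm => congrArg QuadraticAlgebra.im (key m hm)

/-- the finite extension -/
private theorem th_ring {a b : ℤ} (K : Type) [Field K] (e₀ : Qf a b ℤ →+* K) (R₀ : Finset K)
    (hR : ∀ τ ∈ R₀, τ ≠ 0 ∧ IsIntegral ℤ τ ∧ IsIntegral ℤ τ⁻¹) :
    ∃ (B : Type) (_ : CommRing B) (_ : IsDomain B) (_ : Module.Finite ℤ B)
      (e : Qf a b ℤ →+* B) (v : B →+* K) (R : Finset Bˣ), Function.Injective v ∧
      v.comp e = e₀ ∧ R.Nonempty ∧ ∀ τ ∈ R₀, ∃ u ∈ R, v (u : B) = τ := by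
  classical
  have hint : ∀ z : Qf a b ℤ, IsIntegral ℤ (e₀ z) := by
    intro z
    have h1 : IsIntegral ℤ z := Algebra.IsIntegral.isIntegral z
    exact h1.map e₀.toIntAlgHom
  let S : Set K := {e₀ ⟨0, 1⟩} ∪ ((R₀ : Set K) ∪ (fun x : K => x⁻¹) '' (R₀ : Set K))
  have hSf : S.Finite := (Set.finite_singleton _).union
    ((Finset.finite_toSet _).union ((Finset.finite_toSet _).image _))
  have hSi : ∀ x ∈ S, IsIntegral ℤ x := by
    rintro x (hx | hx | ⟨y, hy, rfl⟩)
    · rw [Set.mem_singleton_iff] at hx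
      rw [hx]
      exact hint _
    · exact (hR x hx).2.1
    · exact (hR y hy).2.2
  let B : Subalgebra ℤ K := Algebra.adjoin ℤ S
  have hBf : Module.Finite ℤ B := Algebra.finite_adjoin_of_finite_of_isIntegral hSf hSi
  have hSB : ∀ x ∈ S, x ∈ B := fun x hx => Algebra.subset_adjoin hx
  have heB : ∀ z : Qf a b ℤ, e₀ z ∈ B := by
    intro z
    have h1 : z = (z.re : Qf a b ℤ) + (z.im : Qf a b ℤ) * ⟨0, 1⟩ := by
      ext <;> simp
    rw [h1, map_add, map_mul, map_intCast, map_intCast]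
    exact add_mem (intCast_mem B _) (mul_mem (intCast_mem B _) (hSB _ (Or.inl rfl)))
  have hu : ∀ τ : R₀, ∃ u : Bˣ, ((u : B) : K) = τ := by
    rintro ⟨τ, hτ⟩
    have h1 : τ ∈ B := hSB _ (Or.inr (Or.inl hτ))
    have h2 : τ⁻¹ ∈ B := hSB _ (Or.inr (Or.inr ⟨τ, hτ, rfl⟩))
    have h3 := (hR τ hτ).1
    exact ⟨⟨⟨τ, h1⟩, ⟨τ⁻¹, h2⟩, Subtype.ext (mul_inv_cancel₀ h3),
      Subtype.ext (inv_mul_cancel₀ h3)⟩, rfl⟩
  choose u hu using hu
  refine ⟨B, inferInstance, inferInstance, hBf, e₀.codRestrict B heB, B.val.toRingHom,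
    insert 1 (Finset.univ.image u), Subtype.val_injective, ?_, Finset.insert_nonempty _ _, ?_⟩
  · ext z; rfl
  · intro τ hτ
    exact ⟨u ⟨τ, hτ⟩, Finset.mem_insert_of_mem (Finset.mem_image_of_mem _ (Finset.mem_univ _)),
      hu ⟨τ, hτ⟩⟩

/-- loops with nonempty prefix -/
private def th_lp {ι : Type} (α : MulAut (FreeGroup ι)) (w : ι → List ι) (i₀ : ι) (c : GR α) :
    Prop :=
  ∃ k, 1 ≤ k ∧ ∃ u v : List ι, u ≠ [] ∧ itw w k i₀ = u ++ i₀ :: v ∧
    c = (tR α ^ k)⁻¹ * iR α (BG.pw u)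

private theorem th_map {G R S : Type} [Group G] [CommRing R] [CommRing S] (f : R →+* S)
    (ρ : G →* SL2 R) (g : G) : tr (((SLm f).comp ρ) g) = f (tr (ρ g)) := by
  rw [MonoidHom.comp_apply]
  exact tr_map f _

/-- PIECE CG th -/
theorem p_th (hone : A_one) (hgns : A_gns) (hsmg : A_smg) (hfri : A_fri) (half : A_alf)
    (hpol : A_pol) (hnrm : A_nrm) (hbc : A_bc) : A_th := by
  intro ι _ α w i₀ hpos hhd D hD a b hn ρ₀ hirr
  classical
  -- the field
  obtain ⟨K, iK, iK0, iKc⟩ : ∃ (K : Type) (_ : Field K) (_ : CharZero K), IsAlgClosed K :=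
    ⟨AlgebraicClosure ℚ, inferInstance, inferInstance, inferInstance⟩
  obtain ⟨e₀, he₀⟩ := th_emb hn K
  let ρK : D →* SL2 K := (SLm e₀).comp ρ₀
  have hρK : ∀ g, tr (ρK g) = e₀ (tr (ρ₀ g)) := th_map e₀ ρ₀
  have hirK : ∀ L : Subgroup D, L.FiniteIndex → IrC L ρK := by
    intro L hL
    obtain ⟨g, hg, h, hh, hgh⟩ := hirr L hL
    refine ⟨g, hg, h, hh, fun h2 => hgh ?_⟩
    rw [hρK] at h2
    apply he₀
    rw [h2, map_ofNat]
  have hpcK : ∀ c c' : D, PConj c' c → tr (ρK c') = tr (ρK c) := by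
    intro c c' h
    rw [hρK, hρK, th_pc ρ₀ h]
  -- the data of `A_one`
  have h1 : ∀ c : {c : D // th_lp α w i₀ c}, ∃ (L : Subgroup D) (nL : L →* Multiplicative ℤ)
      (N M : ℕ) (hc : (c : D) ∈ L), L.FiniteIndex ∧
      (∃ k : ℕ, 1 ≤ k ∧ ∀ x : L, Multiplicative.toAdd (nD D x) = k * Multiplicative.toAdd (nL x)) ∧
      1 ≤ M ∧ ∀ (K : Type) [Field K] (ρ : D →* SL2 K), IrC L ρ →
      (∀ c' : D, PConj c' (c : D) → tr (ρ c') = tr (ρ c)) →
      ∃ P : Polynomial K, IsP nL N M (ρ.comp L.subtype) ⟨c, hc⟩ P := by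
    rintro ⟨c, k, hk, u, v, hu, huv, hc⟩
    obtain ⟨L, nL, N, M, hcL, hL, -, hkL, hM, hP⟩ :=
      hone ι α w i₀ hpos hhd D hD k hk u v hu huv c hc
    exact ⟨L, nL, N, M, hcL, hL, ⟨k, hk, hkL⟩, hM, hP⟩
  choose L nL N M hcL hL hk hM hP using h1
  choose P hPP using fun c => hP c K ρK (hirK _ (hL c)) (hpcK _)
  -- the elements
  obtain ⟨S, hS, hSl⟩ := hgns ι α w i₀ hpos D hD
  have hmul : ∀ x y : D, th_lp α w i₀ x → th_lp α w i₀ y → th_lp α w i₀ ((x * y : D) : GR α) := by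
    intro x y hx hy
    rw [Subgroup.coe_mul]
    exact hsmg ι α w i₀ hpos.eq _ _ hx hy
  obtain ⟨x, hx, y, hy, hxy⟩ := half D K ρK {c : D | th_lp α w i₀ c}
    (by
      rw [eq_top_iff, ← hS]
      exact Subgroup.closure_mono fun c hc => hSl c hc)
    (fun x hx y hy => hmul x y hx hy)
    (by
      obtain ⟨g, -, h, -, hgh⟩ := hirK ⊤ inferInstance
      exact ⟨g, h, hgh⟩)
  let C₀ : Finset D := {x, y, x * y} ∪ (S ∪ (S.image (fun s => s * x) ∪
    (S.image (fun s => s * y) ∪ S.image (fun s => s * x * y))))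
  have hC₀ : ∀ c ∈ C₀, th_lp α w i₀ c := by
    intro c hc
    simp only [C₀, Finset.mem_union, Finset.mem_insert, Finset.mem_singleton,
      Finset.mem_image] at hc
    rcases hc with (rfl | rfl | rfl) | hc | ⟨s, hs, rfl⟩ | ⟨s, hs, rfl⟩ | ⟨s, hs, rfl⟩
    · exact hx
    · exact hy
    · exact hmul _ _ hx hy
    · exact hSl c hc
    · exact hmul _ _ (hSl s hs) hx
    · exact hmul _ _ (hSl s hs) hy
    · exact hmul _ _ (hmul _ _ (hSl s hs) hx) hy
  let C : Finset {c : D // th_lp α w i₀ c} := C₀.attach.image fun c => ⟨c.1, hC₀ c.1 c.2⟩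
  have hC : ∀ c (h : c ∈ C₀), (⟨c, hC₀ c h⟩ : {c : D // th_lp α w i₀ c}) ∈ C := by
    intro c h
    exact Finset.mem_image.2 ⟨⟨c, h⟩, Finset.mem_attach _ _, rfl⟩
  -- the ring
  have hintK : ∀ (x : D) (i j : Fin 2), IsIntegral ℤ ((ρK x).val i j) := by
    intro x i j
    have h1 : IsIntegral ℤ ((ρ₀ x).val i j) := Algebra.IsIntegral.isIntegral _
    exact h1.map e₀.toIntAlgHom
  obtain ⟨B, iB, iBd, iBf, e, v, R, hv, hve, ⟨r₀, hr₀⟩, hR⟩ := th_ring K e₀
    (C.biUnion fun c => (P c).roots.toFinset) (by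
      intro τ hτ
      obtain ⟨c, -, hc⟩ := Finset.mem_biUnion.1 hτ
      have h2 : (P c).IsRoot τ := Polynomial.isRoot_of_mem_roots (Multiset.mem_toFinset.1 hc)
      refine ⟨?_, (hPP c).int (fun x i j => hintK _ i j) τ h2⟩
      rintro rfl
      exact (hPP c).ne h2)
  have hve' : ∀ z, v (e z) = e₀ z := fun z => by rw [← hve]; rfl
  have he : Function.Injective e := by
    intro z z' h
    apply he₀
    rw [← hve', ← hve', h]
  have hroot : ∀ c ∈ C, ∀ τ, (P c).IsRoot τ → ∃ u ∈ R, v (u : B) = τ := by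
    intro c hc τ hτ
    apply hR
    exact Finset.mem_biUnion.2 ⟨c, hc, Multiset.mem_toFinset.2
      ((Polynomial.mem_roots (hPP c).mon.ne_zero).2 hτ)⟩
  -- the integer
  have hq : ∀ τ τ' : Bˣ, ∃ q : ℤ, q ≠ 0 ∧ (τ ≠ τ' → ((τ : B) - τ') ∣ (q : B)) := by
    intro τ τ'
    by_cases h : τ = τ'
    · exact ⟨1, one_ne_zero, fun h' => absurd h h'⟩
    · obtain ⟨q, hq, hq'⟩ := hnrm B ((τ : B) - τ') (sub_ne_zero.2 fun h' => h (Units.ext h'))
      exact ⟨q, hq, fun _ => hq'⟩
  choose q hq0 hq using hq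
  obtain ⟨q₁, hq₁, hq₁'⟩ := hnrm B (e (tr (ρ₀ (x * y * x⁻¹ * y⁻¹))) - 2) (by
    intro h
    apply hxy
    rw [hρK, ← hve', sub_eq_zero.1 h, map_ofNat])
  -- the tests
  let T : Type := {c // c ∈ C} × {τ // τ ∈ R}
  let tt : T → TT D B := fun s => ⟨L s.1.1, nL s.1.1, (P s.1.1).rootMultiplicity (v (s.2.1 : B)),
    s.2.1⟩
  let eT : T ≃ Fin (Fintype.card T) := Fintype.equivFin T
  refine ⟨B, iB, iBd, iBf, e, Fintype.card T, fun i => tt (eT.symm i), he, ?_, ?_,
    (∏ c ∈ C, (M c : ℤ)) * (∏ p ∈ R ×ˢ R, q p.1 p.2) * q₁, ?_, ?_⟩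
  · intro i
    exact ⟨hL _, hk _⟩
  · intro i
    beta_reduce
    generalize eT.symm i = s
    obtain ⟨c, τ⟩ := s
    have iG : Group.FG (GR α) := th_fg α
    have iD : Group.FG D := inferInstance
    have iL := hL c.1
    have iLf : Group.FG (L c.1) := inferInstance
    have h2 := (hPP c.1).eq (Units.map v.toMonoidHom τ.1)
    exact hbc (L c.1) (nL c.1) _ K B v hv ((SLm e).comp (ρ₀.comp (L c.1).subtype)) τ.1 _ (by
      have h3 : (SLm v).comp ((SLm e).comp (ρ₀.comp (L c.1).subtype)) =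
          ρK.comp (L c.1).subtype := by
        apply MonoidHom.ext
        intro g
        apply Subtype.ext
        ext i j
        exact hve' _
      rw [h3]
      exact h2.ge)
  · refine mul_ne_zero (mul_ne_zero ?_ ?_) hq₁
    · rw [Finset.prod_ne_zero_iff]
      intro c _
      have := hM c
      exact_mod_cast (by omega : M c ≠ 0)
    · rw [Finset.prod_ne_zero_iff]
      intro p _
      exact hq0 _ _
  · intro k _ _ hM₀ j ρ hir hpass
    rw [Int.cast_mul, Int.cast_mul, Int.cast_prod, Int.cast_prod] at hM₀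
    have hq₁k : (q₁ : k) ≠ 0 := right_ne_zero_of_mul hM₀
    have hMk : ∀ c ∈ C, ((M c : ℕ) : k) ≠ 0 := by
      intro c hc
      have h2 := Finset.prod_ne_zero_iff.1 (left_ne_zero_of_mul (left_ne_zero_of_mul hM₀)) c hc
      rwa [Int.cast_natCast] at h2
    have hqk : ∀ τ ∈ R, ∀ τ' ∈ R, (q τ τ' : k) ≠ 0 := by
      intro τ hτ τ' hτ'
      exact Finset.prod_ne_zero_iff.1 (right_ne_zero_of_mul (left_ne_zero_of_mul hM₀)) (τ, τ')
        (Finset.mk_mem_product hτ hτ')
    have hdv : ∀ (z : B) (m : ℤ), z ∣ (m : B) → (m : k) ≠ 0 → j z ≠ 0 := by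
      rintro z m ⟨z', hz⟩ hm h
      apply hm
      have h2 := congrArg j hz
      rwa [map_intCast, map_mul, h, zero_mul] at h2
    have hjR : Set.InjOn j ((R.image fun u : Bˣ => (u : B) : Finset B) : Set B) := by
      intro t ht t' ht' h
      obtain ⟨τ, hτ, rfl⟩ := Finset.mem_image.1 (Finset.mem_coe.1 ht)
      obtain ⟨τ', hτ', rfl⟩ := Finset.mem_image.1 (Finset.mem_coe.1 ht')
      by_contra hne
      refine hdv _ _ (hq τ τ' fun h' => hne (by rw [h'])) (hqk τ hτ τ' hτ') ?_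
      rw [map_sub, h, sub_self]
    -- the traces of the loops
    have key : ∀ c (h : c ∈ C₀), tr (((SLm (j.comp e)).comp ρ₀) c) = tr (ρ c) := by
      intro c₁ hc₁
      obtain ⟨c, hcc⟩ : ∃ c : {c : D // th_lp α w i₀ c}, c = ⟨c₁, hC₀ c₁ hc₁⟩ := ⟨_, rfl⟩
      have hc : c ∈ C := by rw [hcc]; exact hC c₁ hc₁
      have hc1 : (c : D) = c₁ := by rw [hcc]
      rw [← hc1]
      have hirc : IrC (L c) ρ := by
        have h2 := hir (eT (⟨c, hc⟩, ⟨r₀, hr₀⟩))
        simp only [Equiv.symm_apply_apply] at h2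
        exact h2
      have hpcc : ∀ c' : D, PConj c' (c : D) → tr (ρ c') = tr (ρ c) := by
        intro c' h
        exact th_conj (h _ ρ)
      obtain ⟨P', hP'⟩ := hP c k ρ hirc hpcc
      obtain ⟨s, hs, hs'⟩ := hpol K k B v j hv (P c) P' (hPP c).mon hP'.mon
        ((hPP c).deg.trans hP'.deg.symm) (IsAlgClosed.splits _)
        (R.image fun u : Bˣ => (u : B)) (by
          intro t ht
          obtain ⟨u, hu, hut⟩ := hroot c hc t ht
          exact ⟨u, Finset.mem_image_of_mem _ hu, hut⟩) hjR (by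
          intro t ht
          obtain ⟨τ, hτ, rfl⟩ := Finset.mem_image.1 ht
          have h2 := hpass (eT (⟨c, hc⟩, ⟨τ, hτ⟩))
          simp only [Equiv.symm_apply_apply] at h2
          have h3 := hP'.le (Units.map j.toMonoidHom τ) ((P c).rootMultiplicity (v (τ : B)))
          have h4 : 3 * (P c).rootMultiplicity (v (τ : B)) ≤ _ := h2
          have h5 := h4.trans h3
          have h6 : ((Units.map j.toMonoidHom τ : kˣ) : k) = j (τ : B) := rfl
          rw [h6] at h5
          omega)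
      rw [(hPP c).tra] at hs
      rw [hP'.tra] at hs'
      have h2 : s = -((M c : B) * e (tr (ρ₀ (c : D)))) := by
        apply hv
        rw [← hs, map_neg, map_mul, map_natCast, hve', ← hρK]
        rfl
      rw [h2, map_neg, map_mul, map_natCast, neg_inj] at hs'
      have h3 := mul_left_cancel₀ (hMk c hc) hs'
      rw [th_map]
      exact h3.symm
    intro g
    have h3 := hfri D k ((SLm (j.comp e)).comp ρ₀) ρ (S : Set D) hS x y (by
        intro h
        rw [th_map] at h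
        apply hdv _ _ hq₁' hq₁k
        rw [map_sub, map_ofNat, sub_eq_zero]
        exact h)
      (key x (by simp [C₀])) (key y (by simp [C₀])) (key (x * y) (by simp [C₀]))
      (fun s hs => ⟨key s (by simp [C₀, Finset.mem_coe.1 hs]),
        key (s * x) (by
          simp only [C₀, Finset.mem_union, Finset.mem_image]
          exact Or.inr (Or.inr (Or.inl ⟨s, hs, rfl⟩))),
        key (s * y) (by
          simp only [C₀, Finset.mem_union, Finset.mem_image]
          exact Or.inr (Or.inr (Or.inr (Or.inl ⟨s, hs, rfl⟩)))),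
        key (s * x * y) (by
          simp only [C₀, Finset.mem_union, Finset.mem_image]
          exact Or.inr (Or.inr (Or.inr (Or.inr ⟨s, hs, rfl⟩))))⟩) g
    rw [th_map] at h3
    exact h3.symm

end Pool.Agent.F8.CG
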