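import Pool.Agent.Lib.MP_305fdd_al.F8.CG.MainTH
import Pool.Agent.Lib.MP_305fdd_al.F8.CG.P_th

/-!
# MP_305fdd_al, congruence subgroups: the statement `A_th`
-/

set_option autoImplicit false

namespace Pool.Agent.F8.CG

theorem m_th : A_th := p_th m_one m_gns m_smg p_fri p_alf p_pol p_nrm p_bc

end Pool.Agent.F8.CG
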