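import Pool.Agent.Lib.MP_305fdd_al.F8.CG.MainTH
import Pool.Agent.Lib.MP_305fdd_al.F8.CG.P_odd
import Pool.Agent.Lib.MP_305fdd_al.F8.CG.P_opm
import Pool.Agent.Lib.MP_305fdd_al.F8.CG.P_sepE
import Pool.Agent.Lib.MP_305fdd_al.F8.CG.P_onem
import Pool.Agent.Lib.MP_305fdd_al.F8.CG.P_sgn
import Pool.Agent.Lib.MP_305fdd_al.F8.CG.P_thFm

/-!
# MP_305fdd_al, congruence subgroups: assembly of the block A (negative automorphisms)
-/

set_option autoImplicit false

namespace Pool.Agent.F8.CG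

theorem m_odd : A_odd := p_odd BG.p_i1 BG.p_i2 m_gns m_smg

theorem m_opm : A_opm := p_opm p_inj p_trq p_z1 p_jor

theorem m_onem : A_onem := p_onem m_opm p_sepE

theorem m_thFm : A_thFm := p_thFm m_thF m_odd m_onem p_sgn

end Pool.Agent.F8.CG
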