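import Pool.Agent.Lib.MP_305fdd_al.F8.CG.StmW
import Pool.Agent.Lib.MP_305fdd_al.F8.CG.MainP3

/-!
# MP_305fdd_al, congruence subgroups: assembly of block W, part 1

The action of `Λ` on `L` is given by matrices in `SL₂(ℤ[w])`.
-/

set_option autoImplicit false

namespace Pool.Agent.F8.CG

open Pool.Agent.F8.BG Pool.Agent.MP_305fdd_al Pool.Agent.Lib.MP_305fdd_al Pool.Agent.F8
open scoped QuadraticAlgebra

noncomputable section

/-- the statements of block W -/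
structure BlkW : Prop where
  ar : E_ar
  sk : W_sk
  prim : W_prim
  loc : W_loc
  sq : W_sq
  cen : W_cen
  ker : W_ker
  sub : W_sub

/-- an element which is zero modulo all `m` is zero -/
theorem eq_zero_of_all {a b : ℤ} (z : Qf a b ℤ)
    (h : ∀ (m : ℕ) [NeZero m], Qfm a b (Int.castRingHom (ZMod m)) z = 0) : z = 0 := by
  have key : ∀ n : ℤ, (∀ m : ℕ, m ≠ 0 → (n : ZMod m) = 0) → n = 0 := by
    intro n hn
    have h1 := hn (n.natAbs + 1) (by omega)
    rw [ZMod.intCast_zmod_eq_zero_iff_dvd] at h1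
    by_contra h0
    have h2 := Int.natAbs_dvd_natAbs.2 h1
    have h3 := Nat.le_of_dvd (Int.natAbs_pos.2 h0) h2
    rw [Int.natAbs_natCast] at h3
    omega
  apply QuadraticAlgebra.ext
  · apply key
    intro m hm
    have : NeZero m := ⟨hm⟩
    have h1 := congrArg QuadraticAlgebra.re (h m)
    rw [Qfm_apply] at h1
    exact h1
  · apply key
    intro m hm
    have : NeZero m := ⟨hm⟩
    have h1 := congrArg QuadraticAlgebra.im (h m)
    rw [Qfm_apply] at h1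
    exact h1

theorem eq_of_all {a b : ℤ} (z z' : Qf a b ℤ)
    (h : ∀ (m : ℕ) [NeZero m], Qfm a b (Int.castRingHom (ZMod m)) z =
      Qfm a b (Int.castRingHom (ZMod m)) z') : z = z' := by
  rw [← sub_eq_zero]
  apply eq_zero_of_all
  intro m _
  rw [map_sub, h m, sub_self]

theorem SL_eq_of_all {a b : ℤ} (x y : GQ a b)
    (h : ∀ (m : ℕ) [NeZero m], rdq a b m x = rdq a b m y) : x = y := by
  refine Subtype.ext (Matrix.ext fun i j => eq_of_all _ _ fun m _ => ?_)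
  exact congrArg (fun y : SL2 (Qf a b (ZMod m)) => y.val i j) (h m)

/-- conjugation with an invertible matrix -/
def cjR {R : Type} [CommRing R] (C E : Matrix (Fin 2) (Fin 2) R) (h : C * E = 1)
    (h' : E * C = 1) : SL2 R →* SL2 R where
  toFun x := ⟨C * x.val * E, by
    have h1 := congrArg Matrix.det h
    rw [Matrix.det_mul, Matrix.det_one] at h1
    rw [Matrix.det_mul, Matrix.det_mul, x.2, mul_one, h1]⟩
  map_one' := by
    apply Subtype.ext
    show C * 1 * E = 1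
    rw [Matrix.mul_one, h]
  map_mul' x y := by
    apply Subtype.ext
    show C * (x.val * y.val) * E = (C * x.val * E) * (C * y.val * E)
    have h1 : (C * x.val * E) * (C * y.val * E) = C * x.val * (E * C) * (y.val * E) := by
      simp only [Matrix.mul_assoc]
    rw [h1, h', Matrix.mul_one]
    simp only [Matrix.mul_assoc]

theorem cjR_val {R : Type} [CommRing R] (C E : Matrix (Fin 2) (Fin 2) R) (h : C * E = 1)
    (h' : E * C = 1) (x : SL2 R) : (cjR C E h h' x).val = C * x.val * E := rfl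

theorem cjR_cancel {R : Type} [CommRing R] (C E : Matrix (Fin 2) (Fin 2) R) (h : C * E = 1)
    (h' : E * C = 1) (x : Matrix (Fin 2) (Fin 2) R) : E * (C * x * E) * C = x := by
  have h1 : E * (C * x * E) * C = (E * C) * x * (E * C) := by simp only [Matrix.mul_assoc]
  rw [h1, h', Matrix.one_mul, Matrix.mul_one]

section

variable {a b : ℤ} {D : Subgroup (GQ a b)} {Λ : Type} [Group Λ] {Φ : NatBij D Λ} {m₀ : ℕ}
  [NeZero m₀]

theorem mem_LL (l : Λ) : l ∈ LL Φ m₀ ↔ Φ.toFun _ ((rdq a b m₀).comp D.subtype) l = 1 ∨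
    Φ.toFun _ ((rdq a b m₀).comp D.subtype) l = -1 := Iff.rfl

theorem LL_cj (l : Λ) (x : Λ) (hx : x ∈ LL Φ m₀) : l * x * l⁻¹ ∈ LL Φ m₀ := by
  rw [mem_LL] at hx ⊢
  rcases hx with h | h
  · left
    rw [map_mul, map_mul, h, mul_one, map_inv, mul_inv_cancel]
  · right
    rw [map_mul, map_mul, h, map_inv, mul_neg, mul_one, neg_mul, mul_inv_cancel]

instance LL_normal : (LL Φ m₀).Normal := ⟨fun x hx l => LL_cj l x hx⟩

/-- the properties of `ρ : L → SL₂(ℤ[w])` -/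
structure SW (Φ : NatBij D Λ) (m₀ : ℕ) [NeZero m₀] (ρ : LL Φ m₀ →* GQ a b) : Prop where
  neg : b ^ 2 + 4 * a < 0
  five : Five a b
  cj : ∀ (m : ℕ) [NeZero m], ∃ C E : Matrix (Fin 2) (Fin 2) (Qf a b (ZMod m)),
    C * E = 1 ∧ E * C = 1 ∧ ∀ l : LL Φ m₀, (rdq a b m (ρ l)).val =
      C * (Φ.toFun _ ((rdq a b m).comp D.subtype) l).val * E
  rng : Gam a b m₀ ≤ ρ.range
  inj : Function.Injective ρ

variable {ρ : LL Φ m₀ →* GQ a b}

/-! ### Intertwiners -/

theorem tr_mul_comm' {R : Type} [CommRing R] (x y : SL2 R) : tr (x * y) = tr (y * x) :=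
  Matrix.trace_mul_comm _ _

theorem SW.tr_cj (H : SW Φ m₀ ρ) (m : ℕ) [NeZero m] (x : LL Φ m₀) :
    Qfm a b (Int.castRingHom (ZMod m)) (tr (ρ x)) =
      tr (Φ.toFun _ ((rdq a b m).comp D.subtype) x) := by
  obtain ⟨C, E, h1, h2, h3⟩ := H.cj m
  have h4 : Qfm a b (Int.castRingHom (ZMod m)) (tr (ρ x)) = tr (rdq a b m (ρ x)) :=
    (tr_map _ _).symm
  rw [h4]
  show (rdq a b m (ρ x)).val.trace = (Φ.toFun _ ((rdq a b m).comp D.subtype) x).val.trace
  rw [h3, Matrix.trace_mul_cycle, h2, Matrix.one_mul]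

theorem SW.tr_eq (H : SW Φ m₀ ρ) (l : Λ) (x y : LL Φ m₀) (h : (y : Λ) = l * x * l⁻¹) :
    tr (ρ y) = tr (ρ x) := by
  apply eq_of_all
  intro m _
  rw [H.tr_cj, H.tr_cj, h, map_mul, tr_mul_comm', ← map_mul, ← mul_assoc, inv_mul_cancel, one_mul]

/-- the conjugation -/
def cjL (l : Λ) : LL Φ m₀ →* LL Φ m₀ where
  toFun x := ⟨l * x * l⁻¹, LL_cj l x x.2⟩
  map_one' := Subtype.ext (by
    show l * ((1 : LL Φ m₀) : Λ) * l⁻¹ = 1
    rw [Subgroup.coe_one, mul_one, mul_inv_cancel])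
  map_mul' x y := Subtype.ext (by
    show l * (x * y : LL Φ m₀) * l⁻¹ = (l * x * l⁻¹) * (l * y * l⁻¹)
    rw [Subgroup.coe_mul]
    group)

theorem SW.ex_det (B : BlkW) (H : SW Φ m₀ ρ) (l : Λ) :
    ∃ A : Matrix (Fin 2) (Fin 2) (Qf a b ℤ), A.det ≠ 0 ∧ Itw ρ l A := by
  obtain ⟨A, h1, h2⟩ := B.sk a b H.neg _ ρ (ρ.comp (cjL l)) m₀ (NeZero.ne m₀) H.rng
    (fun x => H.tr_eq l x _ rfl)
  refine ⟨A, h1, fun x y h => ?_⟩
  have h3 : y = cjL l x := Subtype.ext h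
  rw [h3]
  exact h2 x

theorem SW.ex_prim (B : BlkW) (H : SW Φ m₀ ρ) (l : Λ) :
    ∃ A : Matrix (Fin 2) (Fin 2) (Qf a b ℤ), Itw ρ l A ∧
      ∃ c : Fin 2 → Fin 2 → Qf a b ℤ, ∑ i, ∑ j, c i j * A i j = 1 := by
  obtain ⟨A, h1, h2⟩ := H.ex_det B l
  obtain ⟨g, A', hg, rfl, hc⟩ := B.prim a b H.neg (B.ar a b H.five).1 A h1
  refine ⟨A', fun x y h => ?_, hc⟩
  have h3 := h2 x y h
  rw [Matrix.mul_smul, Matrix.smul_mul] at h3
  have hdom : IsDomain (Qf a b ℤ) := Qf_domain H.neg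
  refine Matrix.ext fun i j => ?_
  have h4 := congrFun (congrFun h3 i) j
  rw [Matrix.smul_apply, Matrix.smul_apply, smul_eq_mul, smul_eq_mul] at h4
  exact mul_left_cancel₀ hg h4

/-- the matrices modulo `k` -/
theorem SW.ex_loc (B : BlkW) (H : SW Φ m₀ ρ) (k : ℕ) [NeZero k] :
    ∃ C E : Matrix (Fin 2) (Fin 2) (Qf a b (ZMod k)), C * E = 1 ∧ E * C = 1 ∧
      (∀ x : LL Φ m₀, (rdq a b k (ρ x)).val =
        C * (Φ.toFun _ ((rdq a b k).comp D.subtype) x).val * E) ∧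
      ∀ (l : Λ) (A : Matrix (Fin 2) (Fin 2) (Qf a b ℤ)), Itw ρ l A → ∃ p : Qf a b (ZMod k),
        A.map (Qfm a b (Int.castRingHom (ZMod k))) =
          p • (C * (Φ.toFun _ ((rdq a b k).comp D.subtype) l).val * E) := by
  have : NeZero (m₀ * k) := ⟨Nat.mul_ne_zero (NeZero.ne m₀) (NeZero.ne k)⟩
  obtain ⟨C, E, h1, h2, h3⟩ := H.cj (m₀ * k)
  let q : Qf a b (ZMod (m₀ * k)) →+* Qf a b (ZMod k) :=
    Qfm a b (ZMod.castHom (Dvd.intro_left m₀ rfl : k ∣ m₀ * k) (ZMod k))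
  have hq : (SLm q).comp (rdq a b (m₀ * k)) = rdq a b k := by
    refine MonoidHom.ext fun x => Subtype.ext (Matrix.ext fun i j => ?_)
    show q (Qfm a b (Int.castRingHom (ZMod (m₀ * k))) (x.val i j)) =
      Qfm a b (Int.castRingHom (ZMod k)) (x.val i j)
    have h4 : (Qfm a b (ZMod.castHom (Dvd.intro_left m₀ rfl : k ∣ m₀ * k) (ZMod k)))
        (Qfm a b (Int.castRingHom (ZMod (m₀ * k))) (x.val i j)) =
        Qfm a b (Int.castRingHom (ZMod k)) (x.val i j) := by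
      rw [Qfm_apply, Qfm_apply, Qfm_apply]
      apply QuadraticAlgebra.ext
      · show ZMod.castHom _ (ZMod k) (Int.castRingHom (ZMod (m₀ * k)) _) = _
        simp
      · show ZMod.castHom _ (ZMod k) (Int.castRingHom (ZMod (m₀ * k)) _) = _
        simp
    exact h4
  have hΦ : ∀ l, SLm q (Φ.toFun _ ((rdq a b (m₀ * k)).comp D.subtype) l) =
      Φ.toFun _ ((rdq a b k).comp D.subtype) l := by
    intro l
    have h4 := Φ.nat (SLm q) ((rdq a b (m₀ * k)).comp D.subtype)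
    rw [← MonoidHom.comp_assoc, hq] at h4
    exact (DFunLike.congr_fun h4 l).symm
  have hv : ∀ (x : SL2 (Qf a b (ZMod (m₀ * k)))), (SLm q x).val = x.val.map q := fun x => rfl
  have hmap : ∀ X Y : Matrix (Fin 2) (Fin 2) (Qf a b (ZMod (m₀ * k))),
      (X * Y).map q = X.map q * Y.map q := fun X Y => Matrix.map_mul
  have hone : (1 : Matrix (Fin 2) (Fin 2) (Qf a b (ZMod (m₀ * k)))).map q = 1 :=
    Matrix.map_one q (map_zero q) (map_one q)
  refine ⟨C.map q, E.map q, ?_, ?_, ?_, ?_⟩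
  · rw [← hmap, h1, hone]
  · rw [← hmap, h2, hone]
  · intro x
    have h4 : rdq a b k (ρ x) = SLm q (rdq a b (m₀ * k) (ρ x)) :=
      (DFunLike.congr_fun hq (ρ x)).symm
    rw [h4, hv, h3, hmap, hmap, ← hv, hΦ]
  · intro l A hA
    obtain ⟨p, hp⟩ := B.loc a b Λ (LL Φ m₀) ρ m₀ (NeZero.ne m₀) H.rng k
      ((cjR C E h1 h2).comp (Φ.toFun _ ((rdq a b (m₀ * k)).comp D.subtype)))
      (fun x => Subtype.ext (h3 x)) l (fun x hx => LL_cj l x hx) A hA
    refine ⟨p, ?_⟩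
    rw [hp]
    congr 1
    show ((cjR C E h1 h2 _).val.map q) = _
    rw [cjR_val, hmap, hmap, ← hv, hΦ]

theorem det_map' {R S : Type} [CommRing R] [CommRing S] (f : R →+* S)
    (A : Matrix (Fin 2) (Fin 2) R) : f A.det = (A.map f).det := by
  rw [RingHom.map_det]
  rfl

theorem det_smul' {R : Type} [CommRing R] (p : R) (x : SL2 R) :
    (p • x.val).det = p ^ 2 := by
  rw [Matrix.det_smul, x.2, mul_one, Fintype.card_fin]

/-- the intertwiners in `SL₂(ℤ[w])` -/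
theorem SW.ex_one (B : BlkW) (H : SW Φ m₀ ρ) (l : Λ) : ∃ A : GQ a b, Itw ρ l A.val := by
  obtain ⟨A, hA, c, hc⟩ := H.ex_prim B l
  have key : ∀ (k : ℕ) [NeZero k], ∃ p : Qf a b (ZMod k), IsUnit p ∧
      Qfm a b (Int.castRingHom (ZMod k)) A.det = p ^ 2 := by
    intro k _
    obtain ⟨C, E, h1, h2, -, h3⟩ := H.ex_loc B k
    obtain ⟨p, hp⟩ := h3 l A hA
    refine ⟨p, ?_, ?_⟩
    · have h4 := congrArg (Qfm a b (Int.castRingHom (ZMod k))) hc
      rw [map_one, map_sum] at h4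
      have h5 : ∀ i j, Qfm a b (Int.castRingHom (ZMod k)) (A i j) =
          p * (C * (Φ.toFun _ ((rdq a b k).comp D.subtype) l).val * E) i j := by
        intro i j
        exact congrFun (congrFun hp i) j
      refine IsUnit.of_mul_eq_one (∑ i, ∑ j, Qfm a b (Int.castRingHom (ZMod k)) (c i j) *
        (C * (Φ.toFun _ ((rdq a b k).comp D.subtype) l).val * E) i j) ?_
      refine Eq.trans ?_ h4
      rw [Finset.mul_sum]
      refine Finset.sum_congr rfl fun i _ => ?_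
      rw [map_sum, Finset.mul_sum]
      refine Finset.sum_congr rfl fun j _ => ?_
      rw [map_mul, h5]
      ring
    · rw [det_map', hp]
      exact det_smul' p (cjR C E h1 h2 (Φ.toFun _ ((rdq a b k).comp D.subtype) l))
  obtain ⟨v, ⟨v', rfl⟩, hv⟩ := B.sq a b H.five A.det key
  refine ⟨⟨((v'⁻¹ : (Qf a b ℤ)ˣ) : Qf a b ℤ) • A, ?_⟩, ?_⟩
  · rw [Matrix.det_smul, hv, Fintype.card_fin, ← mul_pow, ← Units.val_mul, inv_mul_cancel,
      Units.val_one, one_pow]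
  · intro x y h
    show (ρ y).val * (((v'⁻¹ : (Qf a b ℤ)ˣ) : Qf a b ℤ) • A) =
      (((v'⁻¹ : (Qf a b ℤ)ˣ) : Qf a b ℤ) • A) * (ρ x).val
    rw [Matrix.mul_smul, Matrix.smul_mul, hA x y h]

/-- the intertwiners modulo `k` -/
theorem SW.ex_k (B : BlkW) (H : SW Φ m₀ ρ) (k : ℕ) [NeZero k] :
    ∃ C E : Matrix (Fin 2) (Fin 2) (Qf a b (ZMod k)), C * E = 1 ∧ E * C = 1 ∧
      ∀ (l : Λ) (A : GQ a b), Itw ρ l A.val → ∃ ε : Qf a b (ZMod k), ε * ε = 1 ∧
        (rdq a b k A).val = ε • (C * (Φ.toFun _ ((rdq a b k).comp D.subtype) l).val * E) := by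
  obtain ⟨C, E, h1, h2, -, h3⟩ := H.ex_loc B k
  refine ⟨C, E, h1, h2, fun l A hA => ?_⟩
  obtain ⟨p, hp⟩ := h3 l A.val hA
  refine ⟨p, ?_, hp⟩
  have h4 := congrArg Matrix.det hp
  have h5 : (A.val.map (Qfm a b (Int.castRingHom (ZMod k)))).det = 1 := (rdq a b k A).2
  rw [h5] at h4
  have h6 := det_smul' p (cjR C E h1 h2 (Φ.toFun _ ((rdq a b k).comp D.subtype) l))
  rw [cjR_val] at h6
  rw [h6] at h4
  rw [← pow_two, ← h4]

end

end

end Pool.Agent.F8.CG
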