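import Pool.Agent.Lib.MP_305fdd_al.F8.CG.MainY

/-!
# MP_305fdd_al, congruence subgroups: THEOREM B

Every group in the genus of a congruence subgroup `D / ± 1` of `SL₂(ℤ[w]) / ± 1` is isomorphic to a congruence subgroup `D₁ / ± 1` of the same level and index, which is
locally conjugate to `D`, up to scalar matrices.
-/

set_option autoImplicit false

namespace Pool.Agent.F8.CG

open Pool.Agent.F8.BG Pool.Agent.MP_305fdd_al Pool.Agent.Lib.MP_305fdd_al Pool.Agent.F8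
open scoped QuadraticAlgebra

noncomputable section

variable {a b : ℤ}

theorem Qfm_self (m : ℕ) : Qfm a b (Int.castRingHom (ZMod m)) (m : Qf a b ℤ) = 0 := by
  rw [map_natCast]
  apply QuadraticAlgebra.ext
  · rw [QuadraticAlgebra.re_natCast]; simp
  · rw [QuadraticAlgebra.im_natCast]; rfl

theorem G_span (m : ℕ) : Cong.G (Ideal.span {(m : Qf a b ℤ)}) = Gam a b m := by
  apply le_antisymm
  · intro x hx
    obtain ⟨h1, h2, h3, h4⟩ := mem_G.1 hx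
    have key : ∀ z z' : Qf a b ℤ, z - z' ∈ Ideal.span {(m : Qf a b ℤ)} →
        Qfm a b (Int.castRingHom (ZMod m)) z = Qfm a b (Int.castRingHom (ZMod m)) z' := by
      intro z z' h
      obtain ⟨t, ht⟩ := Ideal.mem_span_singleton'.1 h
      rw [← sub_eq_zero, ← map_sub, ← ht, map_mul, Qfm_self, mul_zero]
    show rdq a b m x = 1
    rw [← map_one (rdq a b m)]
    apply Subtype.ext
    refine Matrix.ext fun i j => ?_
    show Qfm a b (Int.castRingHom (ZMod m)) (x.val i j) =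
      Qfm a b (Int.castRingHom (ZMod m)) ((1 : GQ a b).val i j)
    apply key
    fin_cases i <;> fin_cases j
    · exact h1
    · show x.val 0 1 - 0 ∈ _
      rw [sub_zero]; exact h2
    · show x.val 1 0 - 0 ∈ _
      rw [sub_zero]; exact h3
    · exact h4
  · exact gam_le_G (Ideal.mem_span_singleton_self _)

theorem gen_Gam (hn : b ^ 2 + 4 * a < 0) {m : ℕ} (hm : m ≠ 0) {M' : ℕ} (hM : M' ≠ 0) :
    GenS (Gam a b m) M' := by
  rw [← G_span]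
  refine gen_G hn ?_ hM
  intro h
  have h1 : (m : Qf a b ℤ) ∈ Ideal.span {(m : Qf a b ℤ)} := Ideal.mem_span_singleton_self _
  rw [h, Ideal.mem_bot] at h1
  have h2 := congrArg QuadraticAlgebra.re h1
  rw [QuadraticAlgebra.re_natCast] at h2
  have h3 : (0 : Qf a b ℤ).re = 0 := rfl
  rw [h3] at h2
  exact hm (by exact_mod_cast h2)

theorem rhoX (B : Blk) {M' : ℕ} (H : DatR a b M') (m₀ : ℕ) (hm : m₀ ≠ 0) : RhoX a b m₀ := by
  intro Λ _ _ hR Φ hz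
  obtain ⟨ρ, h1, h2, h3⟩ := rho_ex B.e B.f B.con B.cl B.inj B.tr B.fg H.h5 H.hd H.ne H.uni
    (pmS (Gam a b m₀)) m₀ hm (le_pmS _) (HE_pmS (gen_Gam H.neg hm H.ne)) Λ hR Φ hz
  exact ⟨ρ, h1, h2, h3⟩

theorem DatC.datR (H : DatC a b) : ∃ M' : ℕ, 3 ≤ M' ∧ DatR a b M' := by
  obtain ⟨M, hM, h⟩ := H.ex
  have h3 : 3 ≤ M * 3 := by
    have := Nat.pos_of_ne_zero hM
    omega
  exact ⟨M * 3, h3, H.five, H.hd, by omega, h (M * 3) h3 (Dvd.intro _ rfl)⟩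

theorem DatC.neg (H : DatC a b) : b ^ 2 + 4 * a < 0 := by
  obtain ⟨M', -, h⟩ := H.datR
  exact h.neg

/-- `D` is finitely generated -/
theorem fg_D (B : Blk) (H : DatC a b) (D : Subgroup (GQ a b)) (m₀ : ℕ) [NeZero m₀]
    (hD : Gam a b m₀ ≤ D) : Group.FG D := by
  obtain ⟨ι, _, α, N, w, M, c, g, G₀, η, h⟩ := H.hd
  have h1 : Group.FG (GQ a b) := B.fg a b ι α M c g G₀ η h.eta
  have : Finite (SL2 (Qf a b (ZMod m₀))) := inferInstance
  have h2 : (Gam a b m₀).FiniteIndex := Subgroup.finiteIndex_ker _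
  have h3 : D.FiniteIndex := Subgroup.finiteIndex_of_le hD
  exact Subgroup.fg_of_index_ne_zero D

/-- `D₁` and `D` are conjugate modulo `k`, up to scalar matrices -/
def RelM (k : ℕ) (D D₁ : Subgroup (GQ a b)) : Prop :=
  ∃ C E : Matrix (Fin 2) (Fin 2) (Qf a b (ZMod k)), C * E = 1 ∧ E * C = 1 ∧
    (∀ A ∈ D₁, ∃ x ∈ D, ∃ ε : Qf a b (ZMod k), ε * ε = 1 ∧
      (rdq a b k A).val = ε • (C * (rdq a b k x).val * E)) ∧
    ∀ x ∈ D, ∃ A ∈ D₁, ∃ ε : Qf a b (ZMod k), ε * ε = 1 ∧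
      (rdq a b k A).val = ε • (C * (rdq a b k x).val * E)

/-- THEOREM B -/
theorem thmB (B : Blk) (W : BlkW) (H : DatC a b) (D : Subgroup (GQ a b)) (hn : -1 ∈ D) (m₀ : ℕ)
    [NeZero m₀] (hD : Gam a b m₀ ≤ D) (P : Type) [Group P] (pr : D →* P)
    (hs : Function.Surjective pr) (hk : ∀ x, pr x = 1 ↔ x.val = 1 ∨ x.val = -1)
    (Λp : Type) [Group Λp] (hΛ : InGenus P Λp) :
    ∃ D₁ : Subgroup (GQ a b), -1 ∈ D₁ ∧ Gam a b m₀ ≤ D₁ ∧ D₁.index = D.index ∧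
      (∀ (k : ℕ) [NeZero k], RelM k D D₁) ∧
      ∀ (P₁ : Type) [Group P₁] (pr₁ : D₁ →* P₁), Function.Surjective pr₁ →
        (∀ x, pr₁ x = 1 ↔ x.val = 1 ∨ x.val = -1) → Nonempty (Λp ≃* P₁) := by
  obtain ⟨M', -, HR⟩ := H.datR
  obtain ⟨Λ, _, Φ, pr', z, h1, h2, h3, h4, h5⟩ :=
    B.psl a b D (fg_D B H D m₀ hD) hn P pr hs hk Λp hΛ
  have hz : NegZ Φ := fun h => ⟨z, fun Q _ _ f => h5 Q f⟩
  obtain ⟨ρ, r1, r2, r3⟩ := W.sub a b H.neg m₀ (rhoX B HR m₀ (NeZero.ne m₀)) D hD hn Λ h2 Φ hz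
  have S : SW Φ m₀ ρ := ⟨H.neg, H.five, r1, r2, r3⟩
  refine ⟨Dn ρ, neg_mem_Dn, S.le_Dn, S.index W H.hg hD h2 hn z h5, fun k _ => S.rel W k, ?_⟩
  intro P₁ _ pr₁ hs₁ hk₁
  exact S.iso W H.hg hD h2 hn z h5 pr' h3 h4 pr₁ hk₁ hs₁

/-- If `D` contains the scalar matrices modulo `m₀` and is stable under the diagonal conjugations, then `D₁` is conjugate to `D`. -/
theorem thmB_iso (D D₁ : Subgroup (GQ a b)) (m₀ : ℕ) [NeZero m₀] (hD : Gam a b m₀ ≤ D)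
    (hD₁ : Gam a b m₀ ≤ D₁) (hi : D₁.index = D.index) (hr : RelM m₀ D D₁) (hHZ : HZ D m₀)
    (hsc : ∀ ε : Qf a b (ZMod m₀), ε * ε = 1 → ∃ y ∈ D, (rdq a b m₀ y).val = ε • 1) :
    ∃ γ : GQ a b, ∀ A, A ∈ D₁ ↔ γ⁻¹ * A * γ ∈ D := by
  obtain ⟨C, E, h1, h2, h3, -⟩ := hr
  obtain ⟨γ, g1, -⟩ := hHZ C E h1 h2
  refine ⟨γ, ?_⟩
  let D' : Subgroup (GQ a b) := D.comap (MulAut.conj γ⁻¹).toMonoidHom
  have hD' : ∀ A, A ∈ D' ↔ γ⁻¹ * A * γ ∈ D := by
    intro A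
    show γ⁻¹ * A * γ⁻¹⁻¹ ∈ D ↔ _
    rw [inv_inv]
  have hle : D₁ ≤ D' := by
    intro A hA
    rw [hD']
    obtain ⟨x, hx, ε, hε, e1⟩ := h3 A hA
    obtain ⟨y, hy, e2⟩ := hsc ε hε
    obtain ⟨u, hu, e3⟩ := g1 (y * x) (mul_mem hy hx)
    have e4 : rdq a b m₀ A = rdq a b m₀ (γ * u * γ⁻¹) := by
      apply Subtype.ext
      rw [e1, e3, map_mul]
      show _ = C * ((rdq a b m₀ y).val * (rdq a b m₀ x).val) * E
      rw [e2, Matrix.smul_mul, Matrix.one_mul, Matrix.mul_smul, Matrix.smul_mul]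
    have e5 : A * (γ * u * γ⁻¹)⁻¹ ∈ Gam a b m₀ := by
      show rdq a b m₀ _ = 1
      rw [map_mul, e4, ← map_mul, mul_inv_cancel, map_one]
    have e6 : γ⁻¹ * A * γ = γ⁻¹ * (A * (γ * u * γ⁻¹)⁻¹) * γ⁻¹⁻¹ * u := by group
    rw [e6]
    exact mul_mem (hD ((MonoidHom.normal_ker (rdq a b m₀)).conj_mem _ e5 γ⁻¹)) hu
  have hi' : D'.index = D.index :=
    Subgroup.index_comap_of_surjective D (MulAut.conj γ⁻¹).surjective
  have hfi : D'.FiniteIndex := by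
    have : Finite (SL2 (Qf a b (ZMod m₀))) := inferInstance
    have h2 : (Gam a b m₀).FiniteIndex := Subgroup.finiteIndex_ker _
    have h3 : D.FiniteIndex := Subgroup.finiteIndex_of_le hD
    constructor
    rw [hi']
    exact h3.index_ne_zero
  have hrel := Subgroup.relIndex_mul_index hle
  rw [hi', hi] at hrel
  have hne : D.index ≠ 0 := by
    rw [← hi']
    exact hfi.index_ne_zero
  have h1' : D₁.relIndex D' = 1 := by
    have h2 : D₁.relIndex D' * D.index = 1 * D.index := by rw [hrel, one_mul]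
    exact Nat.eq_of_mul_eq_mul_right (Nat.pos_of_ne_zero hne) h2
  have hge : D' ≤ D₁ := Subgroup.relIndex_eq_one.1 h1'
  intro A
  rw [← hD']
  exact ⟨fun h => hle h, fun h => hge h⟩

end

end Pool.Agent.F8.CG
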