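import Pool.Agent.Lib.MP_305fdd_al.F8.CG.StmCC

/-!
# MP_305fdd_al, project CG, block Z: the dimensions agree
-/

set_option autoImplicit false

namespace Pool.Agent.F8.CG

open Pool.Agent.F8.BG Pool.Agent.MP_305fdd_al Pool.Agent.Lib.MP_305fdd_al Pool.Agent.F8
open scoped QuadraticAlgebra

noncomputable section

theorem CCone_fin {G K J : Type} [Group G] [Field K] {R : Type} [CommRing R] {n : ℕ}
    {A : J → Fin n → R} (f : R →+* K) (σ : G →* SL2 K) (e : Z1K σ ≃ₗ[K] SolR f A) :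
    Module.Finite K (Z1K σ) :=
  Module.Finite.equiv e.symm

theorem p_CCone (hsp : CC_sp) (hra : CC_ra) (hfx : CC_fx) (hcd : CC_cd) (hcj : CC_cj) :
    CC_one := by
  intro a b hn G H _ _ hG hH ρG ρH Ψ hρ K _ f hf
  have hdom : IsDomain (Qf a b ℤ) := Qf_domain hn
  obtain ⟨J, n, A, hA⟩ := hfx (Qf a b ℤ) G ρG hG
  obtain ⟨N, r, hN, hr⟩ := hra (Qf a b ℤ) J n A
  obtain ⟨J', n', A', hA'⟩ := hfx (Qf a b ℤ) H ρH hH
  obtain ⟨N', r', hN', hr'⟩ := hra (Qf a b ℤ) J' n' A'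
  have dimG : ∀ (K : Type) [Field K] (f : Qf a b ℤ →+* K), f N ≠ 0 →
      Module.finrank K (Z1K ((SLm f).comp ρG)) = r := by
    intro K _ f h
    rw [← hr K f h]
    exact LinearEquiv.finrank_eq (hA K f).some
  have dimH : ∀ (K : Type) [Field K] (f : Qf a b ℤ →+* K), f N' ≠ 0 →
      Module.finrank K (Z1K ((SLm f).comp ρH)) = r' := by
    intro K _ f h
    rw [← hr' K f h]
    exact LinearEquiv.finrank_eq (hA' K f).some
  rw [dimG K f ((map_ne_zero_iff f hf).2 hN), dimH K f ((map_ne_zero_iff f hf).2 hN')]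
  have ha : a ≠ 0 := by
    rintro rfl
    nlinarith [sq_nonneg b]
  have hNN : N * N' ≠ 0 := mul_ne_zero hN hN'
  have hnq : nq (N * N') ≠ 0 := fun h => hNN (nq_eq_zero hn h)
  obtain ⟨q, hq, t, hqn, ht⟩ := hsp a b ha (nq (N * N')).natAbs (Int.natAbs_ne_zero.2 hnq)
  let fq : Qf a b ℤ →+* ZMod q := evq a b (Int.castRingHom (ZMod q)) t ht
  have hfq : fq (N * N') ≠ 0 := by
    intro h
    apply hqn
    have h1 : fq (N * N' * cjq a b ℤ (N * N')) = 0 := by rw [map_mul, h, zero_mul]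
    rw [mul_cjq] at h1
    have h2 : fq ⟨nq (N * N'), 0⟩ = ((nq (N * N') : ℤ) : ZMod q) := by
      show (Int.castRingHom (ZMod q)) (nq (N * N')) + (Int.castRingHom (ZMod q)) 0 * t = _
      rw [map_zero, zero_mul, add_zero]
      rfl
    rw [h2, ZMod.intCast_zmod_eq_zero_iff_dvd] at h1
    exact Int.natCast_dvd.1 h1
  have hq1 : fq N ≠ 0 := fun h => hfq (by rw [map_mul, h, zero_mul])
  have hq2 : fq N' ≠ 0 := fun h => hfq (by rw [map_mul, h, mul_zero])
  have e1 := dimG (ZMod q) fq hq1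
  have e2 := dimH (ZMod q) fq hq2
  have f1 : Module.Finite (ZMod q) (Z1K ((SLm fq).comp ρG)) := CCone_fin fq _ (hA _ fq).some
  have f2 : Module.Finite (ZMod q) (Z1K ((SLm fq).comp ρH)) := CCone_fin fq _ (hA' _ fq).some
  have c1 := Module.natCard_eq_pow_finrank (K := ZMod q) (V := Z1K ((SLm fq).comp ρG))
  have c2 := Module.natCard_eq_pow_finrank (K := ZMod q) (V := Z1K ((SLm fq).comp ρH))
  rw [e1, Nat.card_zmod] at c1
  rw [e2, Nat.card_zmod] at c2
  have : NeZero q := ⟨hq.out.ne_zero⟩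
  let ev : Qf a b (ZMod q) →+* ZMod q := evq a b (RingHom.id (ZMod q)) t ht
  have hev : ∀ x : Qf a b ℤ, ev (Qfm a b (Int.castRingHom (ZMod q)) x) = fq x := fun x => rfl
  have hcomp : ∀ (G : Type) [Group G] (ρ : G →* GQ a b),
      (SLm fq).comp ρ = (SLm ev).comp ((rdq a b q).comp ρ) := by
    intro G _ ρ
    apply MonoidHom.ext
    intro x
    apply Subtype.ext
    ext i j
    rfl
  obtain ⟨C, E, hCE, hEC, hC⟩ := hρ q
  have hΨ : Ψ.toFun _ ((SLm fq).comp ρG) =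
      (SLm ev).comp (Ψ.toFun _ ((rdq a b q).comp ρG)) := by
    rw [hcomp G ρG]
    exact Ψ.nat _ _
  have hiso := hcj H (ZMod q) (Ψ.toFun _ ((SLm fq).comp ρG)) ((SLm fq).comp ρH)
    (C.map ev) (E.map ev) (by rw [← Matrix.map_mul, hCE]; exact Matrix.map_one _ (map_zero _) (map_one _))
    (by rw [← Matrix.map_mul, hEC]; exact Matrix.map_one _ (map_zero _) (map_one _)) (by
      intro l
      rw [hΨ, hcomp H ρH]
      show ((rdq a b q (ρH l)).val).map ev = C.map ev *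
        ((Ψ.toFun _ ((rdq a b q).comp ρG) l).val).map ev * E.map ev
      rw [← Matrix.map_mul, ← Matrix.map_mul, hC])
  have c3 : Nat.card (Z1K ((SLm fq).comp ρG)) = Nat.card (Z1K ((SLm fq).comp ρH)) := by
    rw [hcd G H Ψ (ZMod q) ((SLm fq).comp ρG)]
    exact Nat.card_congr hiso.some.toEquiv
  rw [c1, c2] at c3
  exact Nat.pow_right_injective hq.out.two_le c3

end

end Pool.Agent.F8.CG
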