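import Pool.Agent.Lib.MP_305fdd_al.F8.CG.StmC

/-!
# MP_305fdd_al, congruence subgroups: a criterion for `HZ`
-/

set_option autoImplicit false

namespace Pool.Agent.F8.CG

open Pool.Agent.F8.BG Pool.Agent.MP_305fdd_al Pool.Agent.Lib.MP_305fdd_al Pool.Agent.F8
open scoped QuadraticAlgebra

private theorem Chz_T {S : Type} [CommRing S] (e : Sˣ) :
    (!![e.val, 0; 0, 1] : Matrix (Fin 2) (Fin 2) S) * !![(e⁻¹).val, 0; 0, 1] = 1 := by
  ext i j
  fin_cases i <;> fin_cases j <;> simp [Matrix.mul_apply, Fin.sum_univ_two]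

private theorem Chz_Ti {S : Type} [CommRing S] (e : Sˣ) :
    (!![(e⁻¹).val, 0; 0, 1] : Matrix (Fin 2) (Fin 2) S) * !![e.val, 0; 0, 1] = 1 := by
  ext i j
  fin_cases i <;> fin_cases j <;> simp [Matrix.mul_apply, Fin.sum_univ_two]

private theorem Chz_conj {S : Type} [CommRing S] (e : Sˣ) (X : Matrix (Fin 2) (Fin 2) S) :
    (!![e.val, 0; 0, 1] : Matrix (Fin 2) (Fin 2) S) * X * !![(e⁻¹).val, 0; 0, 1] =
      !![X 0 0, e.val * X 0 1; (e⁻¹).val * X 1 0, X 1 1] := by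
  have h : e.val * (e⁻¹).val = 1 := e.mul_inv
  conv_lhs => rw [Matrix.eta_fin_two X]
  rw [Matrix.mul_fin_two, Matrix.mul_fin_two]
  have h1 : (e.val * X 0 0 + 0 * X 1 0) * (e⁻¹).val + (e.val * X 0 1 + 0 * X 1 1) * 0 = X 0 0 := by
    linear_combination (X 0 0) * h
  have h2 : (e.val * X 0 0 + 0 * X 1 0) * 0 + (e.val * X 0 1 + 0 * X 1 1) * 1 =
      e.val * X 0 1 := by ring
  have h3 : (0 * X 0 0 + 1 * X 1 0) * (e⁻¹).val + (0 * X 0 1 + 1 * X 1 1) * 0 =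
      (e⁻¹).val * X 1 0 := by ring
  have h4 : (0 * X 0 0 + 1 * X 1 0) * 0 + (0 * X 0 1 + 1 * X 1 1) * 1 = X 1 1 := by ring
  rw [h1, h2, h3, h4]

private theorem Chz_val {a b : ℤ} {m : ℕ} [NeZero m] (γ y : GQ a b)
    (Si : Matrix (Fin 2) (Fin 2) (Qf a b (ZMod m))) (h : (rdq a b m γ).val * Si = 1) :
    (rdq a b m (γ * y * γ⁻¹)).val = (rdq a b m γ).val * (rdq a b m y).val * Si := by
  have h1 : ((rdq a b m γ)⁻¹).val = Si := by
    have h2 : ((rdq a b m γ)⁻¹).val * (rdq a b m γ).val = 1 := by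
      rw [← Matrix.SpecialLinearGroup.coe_mul, inv_mul_cancel, Matrix.SpecialLinearGroup.coe_one]
    calc ((rdq a b m γ)⁻¹).val = ((rdq a b m γ)⁻¹).val * ((rdq a b m γ).val * Si) := by
          rw [h, mul_one]
      _ = Si := by rw [← mul_assoc, h2, one_mul]
  rw [map_mul, map_mul, map_inv, Matrix.SpecialLinearGroup.coe_mul,
    Matrix.SpecialLinearGroup.coe_mul, h1]

theorem p_Chz (hsrd : C_srd) : C_hz := by
  intro a b D m _ hD C E hCE hEC
  have hdet : C.det * E.det = 1 := by rw [← Matrix.det_mul, hCE, Matrix.det_one]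
  have hdet' : E.det * C.det = 1 := by rw [mul_comm]; exact hdet
  let e : (Qf a b (ZMod m))ˣ := ⟨C.det, E.det, hdet, hdet'⟩
  have he : e.val = C.det := rfl
  have hei : (e⁻¹).val = E.det := rfl
  have hS : (C * !![(e⁻¹).val, 0; 0, 1]).det = 1 := by
    rw [Matrix.det_mul, Matrix.det_fin_two_of, hei]
    rw [mul_one, mul_zero, sub_zero]
    exact hdet
  obtain ⟨γ, hγ⟩ := hsrd a b m ⟨C * !![(e⁻¹).val, 0; 0, 1], hS⟩
  have hγv : (rdq a b m γ).val = C * !![(e⁻¹).val, 0; 0, 1] := by rw [hγ]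
  have hSi : (rdq a b m γ).val * (!![e.val, 0; 0, 1] * E) = 1 := by
    rw [hγv]
    calc C * !![(e⁻¹).val, 0; 0, 1] * (!![e.val, 0; 0, 1] * E)
        = C * (!![(e⁻¹).val, 0; 0, 1] * !![e.val, 0; 0, 1]) * E := by
          simp only [mul_assoc]
      _ = 1 := by rw [Chz_Ti, mul_one, hCE]
  -- the main identity
  have main : ∀ X Y : Matrix (Fin 2) (Fin 2) (Qf a b (ZMod m)),
      Y = !![e.val, 0; 0, 1] * X * !![(e⁻¹).val, 0; 0, 1] →
      (rdq a b m γ).val * Y * (!![e.val, 0; 0, 1] * E) = C * X * E := by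
    intro X Y hY
    rw [hγv, hY]
    calc C * !![(e⁻¹).val, 0; 0, 1] * (!![e.val, 0; 0, 1] * X * !![(e⁻¹).val, 0; 0, 1]) *
          (!![e.val, 0; 0, 1] * E)
        = C * (!![(e⁻¹).val, 0; 0, 1] * !![e.val, 0; 0, 1]) * X *
          (!![(e⁻¹).val, 0; 0, 1] * !![e.val, 0; 0, 1]) * E := by
          simp only [mul_assoc]
      _ = C * X * E := by rw [Chz_Ti, mul_one, mul_one]
  refine ⟨γ, ?_, ?_⟩
  · intro x hx
    obtain ⟨y, hy, hyx⟩ := hD e x hx
    refine ⟨y, hy, ?_⟩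
    rw [Chz_val γ y _ hSi]
    apply main
    rw [hyx, Chz_conj]
  · intro y hy
    obtain ⟨x, hx, hxy⟩ := hD e⁻¹ y hy
    refine ⟨x, hx, ?_⟩
    rw [Chz_val γ y _ hSi]
    apply main
    have h1 := Chz_conj e⁻¹ (rdq a b m y).val
    rw [inv_inv] at h1 hxy
    rw [hxy, ← h1]
    calc (rdq a b m y).val
        = (!![e.val, 0; 0, 1] * !![(e⁻¹).val, 0; 0, 1]) * (rdq a b m y).val *
          (!![e.val, 0; 0, 1] * !![(e⁻¹).val, 0; 0, 1]) := by
          rw [Chz_T, one_mul, mul_one]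
      _ = !![e.val, 0; 0, 1] * (!![(e⁻¹).val, 0; 0, 1] * (rdq a b m y).val *
          !![e.val, 0; 0, 1]) * !![(e⁻¹).val, 0; 0, 1] := by
          simp only [mul_assoc]

end Pool.Agent.F8.CG
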