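import Pool.Agent.Lib.MP_305fdd_al.F8.CG.StmC
import Pool.Agent.Lib.MP_305fdd_al.F8.BG.P_con

/-!
# MP_305fdd_al, congruence subgroups: piece [CG Cinj], `ρ` is injective
-/

set_option autoImplicit false

namespace Pool.Agent.F8.CG

open Pool.Agent.F8.BG Pool.Agent.MP_305fdd_al Pool.Agent.Lib.MP_305fdd_al Pool.Agent.F8
open scoped QuadraticAlgebra

/-- the kernel of the reduction of `ρ` is the kernel of the corresponding homomorphism -/
private theorem Cinj_ker {a b : ℤ} {G Λ : Type} [Group G] [Group Λ] {ρ₀ : G →* GQ a b}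
    {Φ : NatBij G Λ} {ρ : Λ →* GQ a b} (hρ : RhoG ρ₀ Φ ρ) (m : ℕ) [NeZero m] (l : Λ) :
    rdq a b m (ρ l) = 1 ↔ l ∈ (Φ.toFun _ ((rdq a b m).comp ρ₀)).ker := by
  obtain ⟨C, E, h1, h2, h3⟩ := hρ m
  rw [MonoidHom.mem_ker]
  constructor
  · intro h
    have h4 := h3 l
    rw [h] at h4
    have h5 : (Φ.toFun _ ((rdq a b m).comp ρ₀) l).val = 1 := by
      have h6 : (Φ.toFun _ ((rdq a b m).comp ρ₀) l).val =
          E * (C * (Φ.toFun _ ((rdq a b m).comp ρ₀) l).val * E) * C := by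
        have h7 : E * (C * (Φ.toFun _ ((rdq a b m).comp ρ₀) l).val * E) * C =
            (E * C) * (Φ.toFun _ ((rdq a b m).comp ρ₀) l).val * (E * C) := by
          simp only [Matrix.mul_assoc]
        rw [h7, h2, Matrix.one_mul, Matrix.mul_one]
      rw [h6, ← h4]
      show E * 1 * C = 1
      rw [Matrix.mul_one, h2]
    exact Subtype.ext h5
  · intro h
    have h4 := h3 l
    rw [h] at h4
    apply Subtype.ext
    rw [h4]
    show C * 1 * E = 1
    rw [Matrix.mul_one, h1]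

/-- a surjection with as many homomorphisms to finite groups on both sides -/
private theorem Cinj_aux {L N : Type} [Group L] [Group N] [Group.FG L]
    (hRF : Group.ResiduallyFinite L) (f : L →* N) (hf : Function.Surjective f)
    (hc : ∀ (Q : Type) [Group Q] [Finite Q], Nat.card (N →* Q) = Nat.card (L →* Q)) (k : L)
    (hk : f k = 1) : k = 1 := by
  by_contra hne
  obtain ⟨H, hH⟩ := Group.exists_finiteIndexNormalSubgroup_notMem k hne
  have hfin : Finite (L ⧸ H.toSubgroup) := Subgroup.finite_quotient_of_finiteIndex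
  have h1 : Finite (L →* L ⧸ H.toSubgroup) := finite_hom L _
  have h2 : Function.Injective (fun χ : N →* L ⧸ H.toSubgroup => χ.comp f) := by
    intro χ χ' h
    exact (MonoidHom.cancel_right hf).1 h
  have h3 := (h2.bijective_of_nat_card_le (hc (L ⧸ H.toSubgroup)).ge).2
    (QuotientGroup.mk' H.toSubgroup)
  obtain ⟨χ, hχ⟩ := h3
  have h4 : QuotientGroup.mk' H.toSubgroup k = 1 := by
    rw [← hχ]
    show χ (f k) = 1
    rw [hk, map_one]
  exact hH ((QuotientGroup.eq_one_iff k).1 h4)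

theorem p_Cinj : C_inj := by
  intro a b D m₀ hm₀ hD Λ _ _ hRF Φ ρ hρ hle
  have hz : NeZero m₀ := ⟨hm₀⟩
  have hFin := con_finite a b m₀
  obtain ⟨r, hr⟩ : ∃ r : D →* SL2 (Qf a b (ZMod m₀)), r = (rdq a b m₀).comp D.subtype := ⟨_, rfl⟩
  obtain ⟨Ψ, -⟩ := natBij_ker (π := r) Φ rfl
  have hLf : (Φ.toFun _ r).ker.FiniteIndex := Subgroup.finiteIndex_ker _
  have hLfg : Group.FG (Φ.toFun _ r).ker := Subgroup.fg_of_index_ne_zero _
  have hker : ∀ l, rdq a b m₀ (ρ l) = 1 ↔ l ∈ (Φ.toFun _ r).ker := by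
    intro l
    rw [hr]
    exact Cinj_ker hρ m₀ l
  have hRF' : Group.ResiduallyFinite (Φ.toFun _ r).ker := inferInstance
  let f : (Φ.toFun _ r).ker →* Gam a b m₀ :=
    (ρ.comp (Φ.toFun _ r).ker.subtype).codRestrict (Gam a b m₀)
      (fun x => MonoidHom.mem_ker.2 ((hker x.1).2 x.2))
  have hf : Function.Surjective f := by
    rintro ⟨x, hx⟩
    obtain ⟨l, hl⟩ := hle hx
    refine ⟨⟨l, (hker l).1 ?_⟩, Subtype.ext hl⟩
    rw [hl]
    exact MonoidHom.mem_ker.1 hx
  have hc : ∀ (Q : Type) [Group Q] [Finite Q],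
      Nat.card (Gam a b m₀ →* Q) = Nat.card ((Φ.toFun _ r).ker →* Q) := by
    intro Q _ _
    have c1 : Nat.card (r.ker →* Q) = Nat.card ((Φ.toFun _ r).ker →* Q) :=
      Nat.card_congr (Ψ.equiv _)
    rw [← c1]
    have hm : ∀ x : Gam a b m₀, (Subgroup.inclusion hD x) ∈ r.ker := by
      intro x
      rw [MonoidHom.mem_ker, hr]
      exact MonoidHom.mem_ker.1 x.2
    let fN : Gam a b m₀ →* r.ker := (Subgroup.inclusion hD).codRestrict r.ker hm
    refine con_bij fN ⟨?_, ?_⟩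
    · intro x y h
      have h1 : Subgroup.inclusion hD x = Subgroup.inclusion hD y := congrArg Subtype.val h
      exact Subgroup.inclusion_injective hD h1
    · rintro ⟨x, hx⟩
      have hx' : rdq a b m₀ x.val = 1 := by
        rw [MonoidHom.mem_ker, hr] at hx
        exact hx
      exact ⟨⟨x.val, MonoidHom.mem_ker.2 hx'⟩, Subtype.ext (Subtype.ext rfl)⟩
  rw [injective_iff_map_eq_one]
  intro l hl
  have hlL : l ∈ (Φ.toFun _ r).ker := (hker l).1 (by rw [hl, map_one])
  have h1 := Cinj_aux hRF' f hf hc ⟨l, hlL⟩ (Subtype.ext hl)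
  exact congrArg Subtype.val h1

end Pool.Agent.F8.CG
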