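import Pool.Agent.Lib.MP_305fdd_al.F8.CG.StmE
import Pool.Agent.Lib.MP_305fdd_al.F8.BG.P_E

/-!
# MP_305fdd_al, project CG, piece Erho: the representation over `A`
-/

set_option autoImplicit false

namespace Pool.Agent.F8.CG

open Pool.Agent.MP_305fdd_al Pool.Agent.Lib.MP_305fdd_al Pool.Agent.F2X Pool.Agent.F8
  Pool.Agent.F8.BG Pool.Agent.F8.NG.T
open scoped QuadraticAlgebra

noncomputable section

theorem Erho_free (a b : ℤ) : Module.Free ℤ (Qf a b ℤ) := by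
  infer_instance

theorem Erho_fin (a b : ℤ) : Module.Finite ℤ (Qf a b ℤ) := by
  infer_instance

theorem p_Erho (hirr : E_irr) (hrL : NG.T.S_rL) (hlim : NG.T.S_lim) (hexj : NG.T.S_exj)
    (hji : NG.T.S_ji) : E_rho := by
  intro a b hn hpid hleg G Λ _ _ Φ ρ₀ T hRed hI
  have hdom : IsDomain (Qf a b ℤ) := Qf_domain hn
  have hfree : Module.Free ℤ (Qf a b ℤ) := Erho_free a b
  have hfin : Module.Finite ℤ (Qf a b ℤ) := Erho_fin a b
  obtain ⟨r, hr⟩ := hrL G Λ Φ (Qf a b ℤ) ρ₀ 2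
  obtain ⟨j, -⟩ := hexj (Qf a b ℤ) 2
  have hj := (hji (Qf a b ℤ)).1 (Fl 2) j
  have htr : ∀ l, tr (r l) = ia ℤ_[2] (Qf a b ℤ) (T l) := by
    intro l
    obtain ⟨hc, hu⟩ := hlim (Qf a b ℤ) 2
    obtain ⟨y, -, hy⟩ := hu (fun k => TM (Qf a b ℤ) (PadicInt.toZModPow k) (tr (r l)))
      (fun k => by
        have h := congrArg (fun f => f (tr (r l))) (hc k)
        exact h)
    rw [hy (tr (r l)) (fun k => rfl)]
    symm
    apply hy
    intro k
    have h := hRed (AT (ZMod (2 ^ k)) (Qf a b ℤ)) (ia (ZMod (2 ^ k)) (Qf a b ℤ)) l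
    have h2 := congrArg (fun f => tr (f l)) (hr k)
    simp only [MonoidHom.comp_apply, tr_map] at h2
    rw [TM_ia_apply, h, h2]
  have htr2 : ∀ l, tr (((SLm (jj (iz 2) j)).comp r) l) = j (T l) := by
    intro l
    rw [MonoidHom.comp_apply, tr_map, htr, jj_ia_apply]
  obtain ⟨l, l', hl⟩ := hirr a b G Λ Φ ρ₀ T hRed hI
  refine EG.E_gen hleg (E_dvd hn) j hj ((SLm (jj (iz 2) j)).comp r) T htr2 ⟨l, l', ?_⟩ ?_
  · intro h
    apply hl
    apply hj
    rw [← htr2, map_ofNat]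
    exact h
  · intro m hm
    have : NeZero m := ⟨hm.ne'⟩
    have : Finite (Qf a b (ZMod m)) := by
      refine Finite.of_surjective (fun z : ZMod m × ZMod m => (⟨z.1, z.2⟩ : Qf a b (ZMod m))) ?_
      intro z
      exact ⟨(z.re, z.im), rfl⟩
    refine ⟨Qf a b (ZMod m), inferInstance, Qfm a b (Int.castRingHom (ZMod m)), E_surj a b m,
      E_ker a b m, Φ.toFun _ ((SLm (Qfm a b (Int.castRingHom (ZMod m)))).comp ρ₀), fun l => ?_⟩
    exact (hRed _ _ l).symm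

end

end Pool.Agent.F8.CG
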