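import Pool.Agent.Lib.MP_305fdd_al.F8.CG.StmCC

/-!
# MP_305fdd_al, congruence subgroups: [CG FP bur], Burnside
-/

set_option autoImplicit false

namespace Pool.Agent.F8.CG

noncomputable section

private theorem FPbur_sum (Q X : Type) [Group Q] [MulAction Q X] [Finite X]
    (S : Subgroup Q) [Fintype S] :
    ∑ s : S, Nat.card (MulAction.fixedBy X (s : Q)) =
      Nat.card (MulAction.orbitRel.Quotient S X) * Nat.card S := by
  classical
  have : Fintype X := Fintype.ofFinite X
  have h1 : ∀ s : S, Fintype (MulAction.fixedBy X s) := fun s => Fintype.ofFinite _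
  have h2 : Fintype (Quotient (MulAction.orbitRel S X)) := Fintype.ofFinite _
  have h := MulAction.sum_card_fixedBy_eq_card_orbits_mul_card_group S X
  have h3 : Nat.card (MulAction.orbitRel.Quotient S X) =
      Fintype.card (Quotient (MulAction.orbitRel S X)) := Nat.card_eq_fintype_card
  rw [h3, Nat.card_eq_fintype_card (α := S), ← h]
  apply Finset.sum_congr rfl
  intro s _
  exact Nat.card_eq_fintype_card (α := MulAction.fixedBy X s)

private theorem FPbur_sub {Q X : Type} [Group Q] [MulAction Q X] {s h : Q}
    (hs : s ∈ Subgroup.zpowers h) : MulAction.fixedBy X h ⊆ MulAction.fixedBy X s := by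
  intro x hx
  have h1 : Subgroup.zpowers h ≤ MulAction.stabilizer Q x := by
    rw [Subgroup.zpowers_le]
    exact hx
  exact h1 hs

theorem p_FPbur : FP_bur := by
  intro Q X Y _ _ _ _ _ _ hS
  have key : ∀ (n : ℕ) (h : Q), Nat.card (Subgroup.zpowers h) = n →
      Nat.card (MulAction.fixedBy X h) = Nat.card (MulAction.fixedBy Y h) := by
    intro n
    induction n using Nat.strong_induction_on with
    | _ n ih =>
      intro h hn
      have hft : Fintype (Subgroup.zpowers h) := Fintype.ofFinite _
      have h1 := FPbur_sum Q X (Subgroup.zpowers h)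
      rw [hS (Subgroup.zpowers h), ← FPbur_sum Q Y (Subgroup.zpowers h)] at h1
      -- the two kinds of elements
      have hgen : ∀ s : Subgroup.zpowers h, h ∈ Subgroup.zpowers (s : Q) →
          Nat.card (MulAction.fixedBy X (s : Q)) = Nat.card (MulAction.fixedBy X h) ∧
          Nat.card (MulAction.fixedBy Y (s : Q)) = Nat.card (MulAction.fixedBy Y h) := by
        intro s hs
        have e1 : MulAction.fixedBy X (s : Q) = MulAction.fixedBy X h :=
          Set.Subset.antisymm (FPbur_sub hs) (FPbur_sub s.2)
        have e2 : MulAction.fixedBy Y (s : Q) = MulAction.fixedBy Y h :=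
          Set.Subset.antisymm (FPbur_sub hs) (FPbur_sub s.2)
        rw [e1, e2]
        exact ⟨rfl, rfl⟩
      have hnon : ∀ s : Subgroup.zpowers h, h ∉ Subgroup.zpowers (s : Q) →
          Nat.card (MulAction.fixedBy X (s : Q)) = Nat.card (MulAction.fixedBy Y (s : Q)) := by
        intro s hs
        refine ih _ ?_ (s : Q) rfl
        have hle : Subgroup.zpowers (s : Q) ≤ Subgroup.zpowers h := by
          rw [Subgroup.zpowers_le]
          exact s.2
        rw [← hn]
        by_contra hlt
        rw [not_lt] at hlt
        have heq := Subgroup.eq_of_le_of_card_ge hle hlt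
        apply hs
        rw [heq]
        exact Subgroup.mem_zpowers h
      classical
      have h2 : ∑ s : Subgroup.zpowers h, ((Nat.card (MulAction.fixedBy X (s : Q)) : ℤ) -
          Nat.card (MulAction.fixedBy Y (s : Q))) = 0 := by
        rw [Finset.sum_sub_distrib, sub_eq_zero]
        exact_mod_cast h1
      have h3 : ∑ s : Subgroup.zpowers h, ((Nat.card (MulAction.fixedBy X (s : Q)) : ℤ) -
          Nat.card (MulAction.fixedBy Y (s : Q))) =
          ∑ s : Subgroup.zpowers h, if h ∈ Subgroup.zpowers (s : Q) then
            ((Nat.card (MulAction.fixedBy X h) : ℤ) - Nat.card (MulAction.fixedBy Y h)) else 0 := by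
        apply Finset.sum_congr rfl
        intro s _
        split_ifs with hs
        · rw [(hgen s hs).1, (hgen s hs).2]
        · rw [hnon s hs, sub_self]
      rw [h3, ← Finset.sum_filter, Finset.sum_const, nsmul_eq_mul] at h2
      have h4 : (((Finset.univ.filter fun s : Subgroup.zpowers h =>
          h ∈ Subgroup.zpowers (s : Q)).card : ℕ) : ℤ) ≠ 0 := by
        have h5 : 0 < (Finset.univ.filter fun s : Subgroup.zpowers h =>
            h ∈ Subgroup.zpowers (s : Q)).card := by
          rw [Finset.card_pos]
          exact ⟨⟨h, Subgroup.mem_zpowers h⟩, by simp⟩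
        exact_mod_cast h5.ne'
      have h6 := (mul_eq_zero.1 h2).resolve_left h4
      rw [sub_eq_zero] at h6
      exact_mod_cast h6
  intro h
  exact key _ h rfl

end

end Pool.Agent.F8.CG
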