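import Pool.Agent.Lib.MP_305fdd_al.F8.CG.StmF
import Pool.Agent.Lib.MP_305fdd_al.F8.BG.P_con

/-!
# MP_305fdd_al, congruence subgroups: `η` is injective on `Γ(L)`
-/

set_option autoImplicit false

namespace Pool.Agent.F8.CG

open Pool.Agent.F8.BG Pool.Agent.MP_305fdd_al Pool.Agent.Lib.MP_305fdd_al Pool.Agent.F8
open scoped QuadraticAlgebra

noncomputable section

/-- [CG emb] -/
theorem p_Femb : F_emb := by
  intro a b ι α M c g G₀ η hη L hL hM
  have hneg : (-1 : GQ a b) ∉ Gam a b L := by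
    intro h
    exact con_neg hL (MonoidHom.mem_ker.1 h) rfl
  refine ⟨?_, hneg, ?_⟩
  · intro x hx
    exact hη.lev x (con_red hM (MonoidHom.mem_ker.1 hx))
  · intro x y hx hy hxy
    have h1 : η (x * y⁻¹) = 1 := by rw [map_mul, map_inv, hxy, mul_inv_cancel]
    rcases (hη.ker _).1 h1 with h2 | h2
    · apply Subtype.ext
      have h3 : x.val * y.val⁻¹ = 1 := h2
      exact mul_inv_eq_one.1 h3
    · exfalso
      apply hneg
      rw [← h2]
      exact (Gam a b L).mul_mem hx ((Gam a b L).inv_mem hy)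

end

end Pool.Agent.F8.CG
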