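import Pool.Agent.Lib.MP_305fdd_al.F8.CG.StmJ

/-! Piece `Jdat` of project CG: the data `JD`. -/

set_option autoImplicit false

namespace Pool.Agent.F8.CG

open Pool.Agent.F8.BG Pool.Agent.MP_305fdd_al Pool.Agent.Lib.MP_305fdd_al Pool.Agent.F8
open scoped QuadraticAlgebra

private theorem Jdat_fi {G Q : Type} [Group G] [Group Q] [Finite Q] (f : G →* Q)
    (S : Subgroup Q) : (S.comap f).FiniteIndex := by
  have h1 : f.ker ≤ S.comap f := fun x hx => by
    show f x ∈ S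
    rw [MonoidHom.mem_ker.1 hx]
    exact S.one_mem
  have h2 : f.ker.FiniteIndex := Subgroup.finiteIndex_ker f
  exact Subgroup.finiteIndex_of_le h1

/-- a finite quotient of `G` which controls `ψ` -/
private theorem Jdat_apx {G H Q : Type} [Group G] [Group H] [Group Q] [Finite Q]
    (Φ : NatBij G H) {π : G →* Q} {π' : H →* Q} (S : Subgroup Q)
    (Ψ : NatBij (S.comap π) (S.comap π'))
    (hΨ : ∀ (R : Type) [Group R] [Finite R] (θ : G →* R),
      Ψ.toFun R (θ.comp (S.comap π).subtype) = (Φ.toFun R θ).comp (S.comap π').subtype)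
    (P : Type) [Group P] [Finite P] (ψ : S.comap π →* P) :
    ∃ (R : Type) (_ : Group R) (_ : Finite R) (θ : G →* R),
      ∀ (x : S.comap π) (l : S.comap π'), θ (x : G) = Φ.toFun R θ (l : H) →
        Ψ.toFun P ψ l = ψ x := by
  classical
  have hSf : (S.comap π).FiniteIndex := Jdat_fi π S
  let K : Subgroup G := ψ.ker.map (S.comap π).subtype
  have hKfin : K.FiniteIndex := by
    refine ⟨?_⟩
    have h1 : K.index = ψ.ker.index * (S.comap π).index := Subgroup.index_map_subtype _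
    have h2 : ψ.ker.index ≠ 0 := (Subgroup.finiteIndex_ker ψ).index_ne_zero
    rw [h1]
    exact mul_ne_zero h2 hSf.index_ne_zero
  let K₀ : Subgroup G := K.normalCore
  have hK₀ : K₀ ≤ K := Subgroup.normalCore_le K
  have hK₀fin : K₀.FiniteIndex := Subgroup.finiteIndex_normalCore K
  have hfq : Finite (G ⧸ K₀) := Subgroup.finite_quotient_of_finiteIndex
  let θ : G →* G ⧸ K₀ := QuotientGroup.mk' K₀
  have hwd : ∀ ν ν' : S.comap π, θ ν = θ ν' → ψ ν = ψ ν' := by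
    intro ν ν' h
    have h1 : (ν : G)⁻¹ * ν' ∈ K₀ := QuotientGroup.eq.1 h
    obtain ⟨k, hk, hk2⟩ := hK₀ h1
    have h2 : k = ν⁻¹ * ν' := Subtype.ext hk2
    have h3 : ψ k = 1 := hk
    rw [h2, map_mul, map_inv] at h3
    exact inv_mul_eq_one.1 h3
  refine ⟨G ⧸ K₀, inferInstance, hfq, θ, fun x l hx => ?_⟩
  obtain ⟨g, hg1, hg2⟩ := pair_val Ψ ψ (θ.comp (S.comap π).subtype) l
  rw [hΨ] at hg2
  have h4 : θ (g : G) = θ (x : G) := by
    rw [hx]
    exact hg2
  rw [← hg1]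
  exact hwd g x h4

theorem p_Jdat : J_dat := by
  intro a b hn K _ φ hfrac hrep Γ m₀ m₁ h5 hdvd hm₁ hRho hle Q _ _ π hker hker' Λ _ _ hRF Φ
  classical
  let H : Subgroup Γ := ((Gam a b m₀).map (pcQ φ)).subgroupOf Γ
  have hkH : π.ker ≤ H := by
    intro x hx
    obtain ⟨y, hy, hyx⟩ := hker x (MonoidHom.mem_ker.1 hx)
    exact ⟨y, hy, hyx⟩
  let S : Subgroup Q := H.map π
  have hSH : S.comap π = H := Subgroup.comap_map_eq_self hkH
  let π' : Λ →* Q := Φ.toFun Q π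
  obtain ⟨Ψ₀, hΨ₀⟩ : ∃ Ψ : NatBij (S.comap π) (S.comap π'),
      ∀ (R : Type) [Group R] [Finite R] (θ : Γ →* R),
      Ψ.toFun R (θ.comp (S.comap π).subtype) = (Φ.toFun R θ).comp (S.comap π').subtype :=
    natBij_comap Φ (π := π) rfl S
  have hmem : ∀ x (hx : x ∈ Gam a b m₀), (⟨pcQ φ x, hle x hx⟩ : Γ) ∈ S.comap π := by
    intro x hx
    rw [hSH]
    exact ⟨x, hx, rfl⟩
  let e₀ : Gam a b m₀ →* S.comap π :=
    { toFun := fun x => ⟨⟨pcQ φ x.val, hle x.val x.2⟩, hmem x.val x.2⟩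
      map_one' := Subtype.ext (Subtype.ext (map_one (pcQ φ)))
      map_mul' := fun x y => Subtype.ext (Subtype.ext (map_mul (pcQ φ) x.val y.val)) }
  have he₀ : Function.Bijective e₀ := by
    constructor
    · intro x y hxy
      have h1 : pcQ φ x.val = pcQ φ y.val := congrArg (fun z => z.val.val) hxy
      rcases (hrep.pce _ _).1 h1 with h2 | h2
      · exact Subtype.ext h2
      · exfalso
        have h3 : x.val * y.val⁻¹ = -1 := by
          rw [h2, neg_mul, mul_inv_cancel]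
        have h4 : rdq a b m₀ (x.val * y.val⁻¹) = 1 :=
          MonoidHom.mem_ker.1 ((Gam a b m₀).mul_mem x.2 ((Gam a b m₀).inv_mem y.2))
        exact con_neg (by omega) h4 h3
    · rintro ⟨⟨z, hz⟩, hz'⟩
      have h1 := hz'
      rw [hSH] at h1
      obtain ⟨y, hy, hyz⟩ := h1
      exact ⟨⟨y, hy⟩, Subtype.ext (Subtype.ext hyz)⟩
  let e : Gam a b m₀ ≃* S.comap π := MulEquiv.ofBijective e₀ he₀
  let Ψ : NatBij (Gam a b m₀) (S.comap π') := natBij_equiv e Ψ₀
  have hfin : (S.comap π').FiniteIndex := Jdat_fi _ _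
  have hfg : Group.FG (S.comap π') := inferInstance
  have hRF' : Group.ResiduallyFinite (S.comap π') := inferInstance
  obtain ⟨ρ, hinj, hrng, hρ⟩ := hRho (S.comap π') hRF' Ψ
  refine ⟨S.comap π', ρ, ⟨hn, hfrac, h5, hdvd, hm₁, hle, hker, hker', ?_, hinj, hrng, ?_⟩⟩
  · intro l
    constructor
    · intro hl
      obtain ⟨x, hx, hxl⟩ := (hl : π' l ∈ S)
      obtain ⟨y, hy, hyx⟩ := hx
      refine ⟨y, hy, ?_⟩
      have h1 : (⟨pcQ φ y, hle y hy⟩ : Γ) = x := Subtype.ext hyx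
      rw [h1]
      exact hxl.symm
    · rintro ⟨y, hy, h⟩
      show π' l ∈ S
      have h1 : π' l = π ⟨pcQ φ y, hle y hy⟩ := h
      rw [h1]
      exact hmem y hy
  · intro k _
    obtain ⟨h, hh, hk⟩ := hρ k
    let f : Gam a b m₀ →* SL2 (Qf a b (ZMod k)) := (rdq a b k).comp (Gam a b m₀).subtype
    obtain ⟨R, hR1, hR2, θ, hθ⟩ := Jdat_apx Φ S Ψ₀ hΨ₀ (SL2 (Qf a b (ZMod k)))
      (f.comp e.symm.toMonoidHom)
    refine ⟨R, hR1, hR2, θ, h, hh, fun y x hx hxy => ?_⟩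
    have h1 := hθ ⟨⟨pcQ φ x, hle x hx⟩, hmem x hx⟩ y hxy
    have h2 : e.symm ⟨⟨pcQ φ x, hle x hx⟩, hmem x hx⟩ = ⟨x, hx⟩ := by
      rw [MulEquiv.symm_apply_eq]
      rfl
    have h3 : (f.comp e.symm.toMonoidHom) ⟨⟨pcQ φ x, hle x hx⟩, hmem x hx⟩ = rdq a b k x := by
      show f (e.symm ⟨⟨pcQ φ x, hle x hx⟩, hmem x hx⟩) = _
      rw [h2]
      rfl
    rw [h3] at h1
    rw [hk y, map_mul, map_mul, map_inv]
    have h4 : Ψ.toFun _ ((rdq a b k).comp (Gam a b m₀).subtype) y = rdq a b k x := h1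
    rw [h4]

end Pool.Agent.F8.CG
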