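import Pool.Agent.Lib.MP_305fdd_al.F8.CG.StmJ

/-!
# MP_305fdd_al, [CG J par]: matrices with trace two are conjugate to unipotent triangular matrices
-/

set_option autoImplicit false

namespace Pool.Agent.F8.CG

open Pool.Agent.F8.BG Pool.Agent.MP_305fdd_al Pool.Agent.Lib.MP_305fdd_al Pool.Agent.F8
open scoped QuadraticAlgebra

private theorem Jpar_gcd {R : Type} [CommRing R] [IsDomain R] [IsPrincipalIdealRing R] (x y : R)
    (h : x ≠ 0 ∨ y ≠ 0) : ∃ d a b u w : R, d ≠ 0 ∧ x = d * a ∧ y = d * b ∧ u * a + w * b = 1 := by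
  obtain ⟨u, w, he⟩ := IsBezout.gcd_eq_sum x y
  obtain ⟨a, ha⟩ := IsBezout.gcd_dvd_left x y
  obtain ⟨b, hb⟩ := IsBezout.gcd_dvd_right x y
  generalize IsBezout.gcd x y = d at he ha hb
  have hd : d ≠ 0 := by
    rintro rfl
    rw [zero_mul] at ha hb
    rcases h with h | h
    · exact h ha
    · exact h hb
  refine ⟨d, a, b, u, w, hd, ha, hb, ?_⟩
  have h1 : d * (u * a + w * b - 1) = 0 := by
    rw [ha, hb] at he
    linear_combination he
  rcases mul_eq_zero.1 h1 with h2 | h2
  · exact absurd h2 hd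
  · exact sub_eq_zero.1 h2

private theorem Jpar_gen {R : Type} [CommRing R] [IsDomain R] [IsPrincipalIdealRing R]
    (p q r t : R) (hdet : p * t - q * r = 1) (hx : p + t = 2) :
    ∃ (g : SL2 R) (s : R), AB.mx p q r t hdet = g * eU s * g⁻¹ := by
  have ht : t = 2 - p := by linear_combination hx
  subst ht
  have hN : (p - 1) * (p - 1) + q * r = 0 := by linear_combination -hdet
  by_cases h0 : p - 1 ≠ 0 ∨ r ≠ 0
  · obtain ⟨d, a, b, u, w, hd, ha, hb, hab⟩ := Jpar_gcd (p - 1) r h0
    have h1 : (p - 1) * a + q * b = 0 := by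
      have h3 : d * ((p - 1) * a + q * b) = 0 := by
        linear_combination hN - (p - 1) * ha - q * hb
      exact (mul_eq_zero.1 h3).resolve_left hd
    have h2 : r * a - (p - 1) * b = 0 := by
      have h3 : d * (r * a - (p - 1) * b) = 0 := by
        linear_combination - r * ha + (p - 1) * hb
      exact (mul_eq_zero.1 h3).resolve_left hd
    refine ⟨AB.mx a (-w) b u (by linear_combination hab),
      q * u ^ 2 - 2 * (p - 1) * u * w - r * w ^ 2, ?_⟩
    rw [eq_mul_inv_iff_mul_eq]
    unfold eU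
    rw [AB.mx_mul, AB.mx_mul]
    apply AB.mx_congr
    · linear_combination h1
    · linear_combination u * w * h1 + w ^ 2 * h2 - (q * u - (p - 1) * w) * hab
    · linear_combination h2
    · linear_combination -u ^ 2 * h1 - u * w * h2 + (r * w + (p - 1) * u) * hab
  · have h1 : p - 1 = 0 ∧ r = 0 := by
      constructor
      · by_contra h
        exact h0 (Or.inl h)
      · by_contra h
        exact h0 (Or.inr h)
    refine ⟨1, q, ?_⟩
    rw [one_mul, inv_one, mul_one]
    unfold eU
    apply AB.mx_congr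
    · linear_combination h1.1
    · rfl
    · exact h1.2
    · linear_combination -h1.1

theorem p_Jpar : J_par := by
  intro a b hn hp x hx
  have := Qf_domain hn
  rw [AB.eq_mx x] at hx ⊢
  rw [AB.mx_tr] at hx
  exact Jpar_gen _ _ _ _ _ hx

end Pool.Agent.F8.CG
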