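import Pool.Agent.Lib.MP_305fdd_al.F8.CG.StmK
import Pool.Agent.Lib.MP_305fdd_al.F8.CG.P_Wloc

/-!
# MP_305fdd_al, congruence subgroups: piece K app, from `Γ(M₁)` to `D` (helper35)
-/

set_option autoImplicit false

namespace Pool.Agent.F8.CG

open Pool.Agent.F8.BG Pool.Agent.MP_305fdd_al Pool.Agent.Lib.MP_305fdd_al Pool.Agent.F8
open scoped QuadraticAlgebra

private theorem Kapp_zmod (m k : ℕ) (hm : m ≠ 0) (z : ZMod (m * k))
    (h : (m : ZMod (m * k)) * z = 0) :
    ZMod.castHom (Dvd.intro_left m rfl : k ∣ m * k) (ZMod k) z = 0 := by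
  obtain ⟨n, rfl⟩ := ZMod.intCast_surjective z
  rw [map_intCast, ZMod.intCast_zmod_eq_zero_iff_dvd]
  have h1 : (((m : ℤ) * n : ℤ) : ZMod (m * k)) = 0 := by
    rw [Int.cast_mul, Int.cast_natCast]
    exact h
  rw [ZMod.intCast_zmod_eq_zero_iff_dvd, Nat.cast_mul] at h1
  exact Int.dvd_of_mul_dvd_mul_left (by exact_mod_cast hm) h1

private theorem Kapp_q {a b : ℤ} (m k : ℕ) (hm : m ≠ 0) (z : Qf a b (ZMod (m * k)))
    (h : (m : Qf a b (ZMod (m * k))) * z = 0) :
    Qfm a b (ZMod.castHom (Dvd.intro_left m rfl : k ∣ m * k) (ZMod k)) z = 0 := by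
  rw [Qfm_apply]
  have h1 := congrArg QuadraticAlgebra.re h
  have h2 := congrArg QuadraticAlgebra.im h
  have h1' : (m : ZMod (m * k)) * z.re = 0 := by simpa using h1
  have h2' : (m : ZMod (m * k)) * z.im = 0 := by simpa using h2
  apply QuadraticAlgebra.ext
  · exact Kapp_zmod m k hm _ h1'
  · exact Kapp_zmod m k hm _ h2'

/-- a matrix which commutes with the images of `eU m`, `eV m` is scalar modulo `k` -/
private theorem Kapp_scal {a b : ℤ} (m k : ℕ) (hm : m ≠ 0)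
    (B : Matrix (Fin 2) (Fin 2) (Qf a b (ZMod (m * k))))
    (hU : (eU (m : Qf a b (ZMod (m * k)))).val * B = B * (eU (m : Qf a b (ZMod (m * k)))).val)
    (hV : (eV (m : Qf a b (ZMod (m * k)))).val * B = B * (eV (m : Qf a b (ZMod (m * k)))).val) :
    ∃ p : Qf a b (ZMod k),
      B.map (Qfm a b (ZMod.castHom (Dvd.intro_left m rfl : k ∣ m * k) (ZMod k))) =
        p • (1 : Matrix (Fin 2) (Fin 2) (Qf a b (ZMod k))) := by
  set g : Qf a b (ZMod (m * k)) →+* Qf a b (ZMod k) :=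
    Qfm a b (ZMod.castHom (Dvd.intro_left m rfl : k ∣ m * k) (ZMod k)) with hg
  have e10 : (m : Qf a b (ZMod (m * k))) * B 1 0 = 0 := by
    have := congrFun (congrFun hU 0) 0
    simp only [Matrix.mul_apply, Fin.sum_univ_two] at this
    have h00 : (eU (m : Qf a b (ZMod (m * k)))).val 0 0 = 1 := rfl
    have h01 : (eU (m : Qf a b (ZMod (m * k)))).val 0 1 = m := rfl
    have h10 : (eU (m : Qf a b (ZMod (m * k)))).val 1 0 = 0 := rfl
    rw [h00, h01, h10] at this
    linear_combination this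
  have e01 : (m : Qf a b (ZMod (m * k))) * B 0 1 = 0 := by
    have := congrFun (congrFun hV 0) 0
    simp only [Matrix.mul_apply, Fin.sum_univ_two] at this
    have h00 : (eV (m : Qf a b (ZMod (m * k)))).val 0 0 = 1 := rfl
    have h01 : (eV (m : Qf a b (ZMod (m * k)))).val 0 1 = 0 := rfl
    have h10 : (eV (m : Qf a b (ZMod (m * k)))).val 1 0 = m := rfl
    rw [h00, h01, h10] at this
    linear_combination -this
  have ed : (m : Qf a b (ZMod (m * k))) * (B 1 1 - B 0 0) = 0 := by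
    have := congrFun (congrFun hU 0) 1
    simp only [Matrix.mul_apply, Fin.sum_univ_two] at this
    have h00 : (eU (m : Qf a b (ZMod (m * k)))).val 0 0 = 1 := rfl
    have h01 : (eU (m : Qf a b (ZMod (m * k)))).val 0 1 = m := rfl
    have h11 : (eU (m : Qf a b (ZMod (m * k)))).val 1 1 = 1 := rfl
    rw [h00, h01, h11] at this
    linear_combination this
  have q10 : g (B 1 0) = 0 := Kapp_q m k hm _ e10
  have q01 : g (B 0 1) = 0 := Kapp_q m k hm _ e01
  have qd : g (B 1 1) = g (B 0 0) := by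
    have := Kapp_q m k hm _ ed
    rw [← hg, map_sub] at this
    exact sub_eq_zero.1 this
  refine ⟨g (B 0 0), ?_⟩
  ext1 i j
  fin_cases i <;> fin_cases j
  · simp
  · simp [q01]
  · simp [q10]
  · simp [qd]

/-- the bijection for `Γ(M₁)` -/
private theorem Kapp_bij {a b : ℤ} (M₁ : ℕ) [NeZero M₁] (D : Subgroup (GQ a b))
    (hD : Gam a b M₁ ≤ D) (Λ : Type) [Group Λ] (Φ : NatBij D Λ) (ρ : Λ →* GQ a b)
    (hρ : RhoG D.subtype Φ ρ) (hr : Gam a b M₁ ≤ ρ.range) (hi : Function.Injective ρ) :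
    ∃ Ψ : NatBij (Gam a b M₁) (Gam a b M₁), ∀ (Q : Type) [Group Q] [Finite Q] (f : GQ a b →* Q)
      (x : Gam a b M₁) (l : Λ), ρ l = x.val →
      Ψ.toFun Q (f.comp (Gam a b M₁).subtype) x = Φ.toFun Q (f.comp D.subtype) l := by
  classical
  let π : D →* SL2 (Qf a b (ZMod M₁)) := (rdq a b M₁).comp D.subtype
  obtain ⟨Ψ₀, hΨ₀⟩ := natBij_ker Φ (π := π) (π' := Φ.toFun _ π) rfl
  obtain ⟨C, E, h1, h2, h3⟩ := hρ M₁
  have hmem : ∀ l : Λ, l ∈ (Φ.toFun _ π).ker ↔ ρ l ∈ Gam a b M₁ := by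
    intro l
    constructor
    · intro h
      have h4 : Φ.toFun _ π l = 1 := h
      apply Subtype.ext
      show (rdq a b M₁ (ρ l)).val = 1
      rw [h3 l]
      show C * (Φ.toFun _ π l).val * E = 1
      rw [h4]
      show C * 1 * E = 1
      rw [Matrix.mul_one, h1]
    · intro h
      have h4 : rdq a b M₁ (ρ l) = 1 := h
      have h5 : C * (Φ.toFun _ π l).val * E = 1 := by
        rw [← h3 l, h4]
        rfl
      have h7 := cjR_cancel C E h1 h2 (Φ.toFun _ π l).val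
      rw [h5, Matrix.mul_one, h2] at h7
      exact Subtype.ext h7.symm
  let e₁ : Gam a b M₁ ≃* π.ker :=
    { toFun := fun x => ⟨⟨x.val, hD x.2⟩, x.2⟩
      invFun := fun y => ⟨y.val.val, y.2⟩
      left_inv := fun x => rfl
      right_inv := fun y => rfl
      map_mul' := fun x y => rfl }
  let f₂ : (Φ.toFun _ π).ker →* Gam a b M₁ :=
    { toFun := fun l => ⟨ρ l.val, (hmem l.val).1 l.2⟩
      map_one' := Subtype.ext (map_one ρ)
      map_mul' := fun x y => Subtype.ext (map_mul ρ x.val y.val) }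
  have hf₂ : Function.Bijective f₂ := by
    constructor
    · intro x y h
      exact Subtype.ext (hi (congrArg Subtype.val h))
    · intro y
      obtain ⟨l, hl⟩ := hr y.2
      exact ⟨⟨l, (hmem l).2 (by rw [hl]; exact y.2)⟩, Subtype.ext hl⟩
  let e₂ : (Φ.toFun _ π).ker ≃* Gam a b M₁ := MulEquiv.ofBijective f₂ hf₂
  let A : NatBij (Gam a b M₁) (Φ.toFun _ π).ker := natBij_equiv e₁ Ψ₀
  refine ⟨(natBij_equiv e₂.symm A.symm).symm, ?_⟩
  intro Q _ _ f x l hl
  have hl' : l ∈ (Φ.toFun _ π).ker := (hmem l).2 (by rw [hl]; exact x.2)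
  have hx : e₂.symm x = ⟨l, hl'⟩ := by
    rw [MulEquiv.symm_apply_eq]
    exact Subtype.ext hl.symm
  show Ψ₀.toFun Q ((f.comp (Gam a b M₁).subtype).comp e₁.symm.toMonoidHom) (e₂.symm x) = _
  rw [hx]
  exact DFunLike.congr_fun (hΨ₀ Q (f.comp D.subtype)) ⟨l, hl'⟩

/-- PIECE CG K app -/
theorem p_Kapp : K_app := by
  intro a b m₀ M₁ _ _ hdvd hU D hD Λ _ Φ ρ hρ hr hi
  have hle : Gam a b M₁ ≤ Gam a b m₀ := gam_le hdvd
  obtain ⟨Ψ, hΨ⟩ := Kapp_bij M₁ D (hle.trans hD) Λ Φ ρ hρ (hle.trans hr) hi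
  have hΨρ : RhoG (Gam a b M₁).subtype Ψ (Gam a b M₁).subtype := by
    intro m _
    obtain ⟨C, E, h1, h2, h3⟩ := hρ m
    refine ⟨C, E, h1, h2, fun x => ?_⟩
    obtain ⟨l, hl⟩ := hr (hle x.2)
    rw [hΨ _ _ x l hl, ← h3 l, hl]
    rfl
  have hdet := hU Ψ hΨρ
  intro k _
  have hM : M₁ ≠ 0 := NeZero.ne M₁
  have : NeZero (M₁ * k) := ⟨Nat.mul_ne_zero hM (NeZero.ne k)⟩
  obtain ⟨C, E, h1, h2, h3⟩ := hρ (M₁ * k)
  obtain ⟨C', E', h1', h2', h3', u, P, hP, hCP⟩ := hdet (M₁ * k)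
  let q : Qf a b (ZMod (M₁ * k)) →+* Qf a b (ZMod k) :=
    Qfm a b (ZMod.castHom (Dvd.intro_left M₁ rfl : k ∣ M₁ * k) (ZMod k))
  have hqc : ∀ z : Qf a b ℤ, q (Qfm a b (Int.castRingHom (ZMod (M₁ * k))) z) =
      Qfm a b (Int.castRingHom (ZMod k)) z := by
    intro z
    have h4 : (Qfm a b (ZMod.castHom (Dvd.intro_left M₁ rfl : k ∣ M₁ * k) (ZMod k)))
        (Qfm a b (Int.castRingHom (ZMod (M₁ * k))) z) =
        Qfm a b (Int.castRingHom (ZMod k)) z := by
      rw [Qfm_apply, Qfm_apply, Qfm_apply]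
      apply QuadraticAlgebra.ext
      · show ZMod.castHom _ (ZMod k) (Int.castRingHom (ZMod (M₁ * k)) _) = _
        simp
      · show ZMod.castHom _ (ZMod k) (Int.castRingHom (ZMod (M₁ * k)) _) = _
        simp
    exact h4
  have hq : (SLm q).comp (rdq a b (M₁ * k)) = rdq a b k := by
    refine MonoidHom.ext fun x => Subtype.ext (Matrix.ext fun i j => ?_)
    exact hqc (x.val i j)
  have hΦ : ∀ l, SLm q (Φ.toFun _ ((rdq a b (M₁ * k)).comp D.subtype) l) =
      Φ.toFun _ ((rdq a b k).comp D.subtype) l := by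
    intro l
    have h4 := Φ.nat (SLm q) ((rdq a b (M₁ * k)).comp D.subtype)
    rw [← MonoidHom.comp_assoc, hq] at h4
    exact (DFunLike.congr_fun h4 l).symm
  have hv : ∀ (x : SL2 (Qf a b (ZMod (M₁ * k)))), (SLm q x).val = x.val.map q := fun x => rfl
  have hmap : ∀ X Y : Matrix (Fin 2) (Fin 2) (Qf a b (ZMod (M₁ * k))),
      (X * Y).map q = X.map q * Y.map q := fun X Y => Matrix.map_mul
  have hone : (1 : Matrix (Fin 2) (Fin 2) (Qf a b (ZMod (M₁ * k)))).map q = 1 :=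
    Matrix.map_one q (map_zero q) (map_one q)
  -- the intertwining matrix
  have hcom : ∀ z ∈ Gam a b M₁, (rdq a b (M₁ * k) z).val * (E * C') =
      (E * C') * (rdq a b (M₁ * k) z).val := by
    intro z hz
    have hz' : rdq a b (M₁ * k) z ∈
        (Ψ.toFun _ ((rdq a b (M₁ * k)).comp (Gam a b M₁).subtype)).range := by
      rw [Ψ.range_eq]
      exact ⟨⟨z, hz⟩, rfl⟩
    obtain ⟨x, hx⟩ := hz'
    obtain ⟨l, hl⟩ := hr (hle x.2)
    have h4 := h3 l
    rw [← hΨ _ _ x l hl, hx, hl] at h4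
    have h5 := h3' x
    rw [hx] at h5
    have h6 : (rdq a b (M₁ * k) ((Gam a b M₁).subtype x)).val =
        (rdq a b (M₁ * k) (x : GQ a b)).val := rfl
    rw [h6, h4] at h5
    -- h5 : C * y * E = C' * y * E'
    calc (rdq a b (M₁ * k) z).val * (E * C')
        = (E * C) * (rdq a b (M₁ * k) z).val * (E * C') := by rw [h2, Matrix.one_mul]
      _ = E * (C * (rdq a b (M₁ * k) z).val * E) * C' := by simp only [Matrix.mul_assoc]
      _ = E * (C' * (rdq a b (M₁ * k) z).val * E') * C' := by rw [h5]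
      _ = (E * C') * (rdq a b (M₁ * k) z).val * (E' * C') := by simp only [Matrix.mul_assoc]
      _ = (E * C') * (rdq a b (M₁ * k) z).val := by rw [h2', Matrix.mul_one]
  have hUm : (eU (M₁ : Qf a b ℤ) : GQ a b) ∈ Gam a b M₁ := by
    show rdq a b M₁ (eU (M₁ : Qf a b ℤ)) = 1
    rw [rdq, eU_map, Qfm_self]
    apply Subtype.ext
    funext i j
    fin_cases i <;> fin_cases j <;> rfl
  have hVm : (eV (M₁ : Qf a b ℤ) : GQ a b) ∈ Gam a b M₁ := by
    show rdq a b M₁ (eV (M₁ : Qf a b ℤ)) = 1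
    rw [rdq, eV_map, Qfm_self]
    apply Subtype.ext
    funext i j
    fin_cases i <;> fin_cases j <;> rfl
  have hU' := hcom _ hUm
  have hV' := hcom _ hVm
  rw [rdq, eU_map, map_natCast] at hU'
  rw [rdq, eV_map, map_natCast] at hV'
  obtain ⟨p, hp⟩ := Kapp_scal M₁ k hM (E * C') hU' hV'
  have hC' : C'.map q = p • C.map q := by
    have h4 : C' = C * (E * C') := by rw [← Matrix.mul_assoc, h1, Matrix.one_mul]
    have h5 : (E * C').map q = p • (1 : Matrix (Fin 2) (Fin 2) (Qf a b (ZMod k))) := hp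
    calc C'.map q = (C * (E * C')).map q := by rw [← h4]
      _ = C.map q * (E * C').map q := hmap _ _
      _ = p • C.map q := by rw [h5, Matrix.mul_smul, Matrix.mul_one]
  have hd : q C'.det = p ^ 2 * q C.det := by
    rw [det_map', det_map', hC', Matrix.det_smul, Fintype.card_fin]
  have hu : IsUnit (q C'.det) := by
    have h4 := congrArg Matrix.det h1'
    rw [Matrix.det_mul, Matrix.det_one] at h4
    exact (IsUnit.of_mul_eq_one _ h4).map q
  have hpu : IsUnit p := by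
    rw [hd] at hu
    exact (isUnit_pow_iff two_ne_zero).1 (isUnit_of_mul_isUnit_left hu)
  obtain ⟨s, hs⟩ := hpu.exists_right_inv
  refine ⟨C.map q, E.map q, ?_, ?_, ?_, u, s * q P, ?_, ?_⟩
  · rw [← hmap, h1, hone]
  · rw [← hmap, h2, hone]
  · intro x
    have h4 : rdq a b k (ρ x) = SLm q (rdq a b (M₁ * k) (ρ x)) :=
      (DFunLike.congr_fun hq (ρ x)).symm
    rw [h4, hv, h3, hmap, hmap, ← hv, hΦ]
  · exact (IsUnit.of_mul_eq_one p (by rw [mul_comm]; exact hs)).mul (hP.map q)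
  · have h4 : q C'.det = Qfm a b (Int.castRingHom (ZMod k)) u * q P ^ 2 := by
      rw [hCP, map_mul, map_pow, hqc]
    rw [← det_map']
    calc q C.det = (p * s) ^ 2 * q C.det := by rw [hs, one_pow, one_mul]
      _ = s ^ 2 * (p ^ 2 * q C.det) := by ring
      _ = s ^ 2 * (Qfm a b (Int.castRingHom (ZMod k)) u * q P ^ 2) := by rw [← hd, h4]
      _ = Qfm a b (Int.castRingHom (ZMod k)) u * (s * q P) ^ 2 := by ring

end Pool.Agent.F8.CG
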