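import Pool.Agent.Lib.MP_305fdd_al.F8.CG.StmL

/-!
# MP_305fdd_al, congruence subgroups, block L: piece Llat (sums over lattices)
-/

set_option autoImplicit false

namespace Pool.Agent.F8.CG

open Pool.Agent.F8.BG Pool.Agent.MP_305fdd_al Pool.Agent.Lib.MP_305fdd_al Pool.Agent.F8
open scoped QuadraticAlgebra ComplexConjugate

noncomputable section

/-- the coordinates -/
private def Llat_x {a b : ℤ} (z : Qf a b ℤ) : Fin 2 → ℤ := ![z.re, z.im]

private theorem Llat_x_inj {a b : ℤ} : Function.Injective (Llat_x : Qf a b ℤ → Fin 2 → ℤ) := by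
  intro z z' h
  have h0 := congrFun h 0
  have h1 := congrFun h 1
  exact QuadraticAlgebra.ext h0 h1

private theorem Llat_one {x : Fin 2 → ℤ} (hx : x ≠ 0) : 1 ≤ ‖x‖ := by
  obtain ⟨i, hi⟩ : ∃ i, x i ≠ 0 := by
    by_contra hc
    push Not at hc
    exact hx (funext hc)
  refine le_trans ?_ (norm_le_pi_norm x i)
  rw [Int.norm_eq_abs]
  exact_mod_cast Int.one_le_abs hi

/-- the height -/
private def Llat_H {a b : ℤ} (z : Qf a b ℤ) : ℝ := max 1 ‖Llat_x z‖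

private theorem Llat_H1 {a b : ℤ} (z : Qf a b ℤ) : 1 ≤ Llat_H z := le_max_left _ _

private def Llat_G {a b : ℤ} (z : Qf a b ℤ) : ℝ := Llat_H z ^ (-(5 / 2 : ℝ))

private theorem Llat_G0 {a b : ℤ} (z : Qf a b ℤ) : 0 ≤ Llat_G z :=
  Real.rpow_nonneg (le_trans zero_le_one (Llat_H1 z)) _

private theorem Llat_sum {a b : ℤ} : Summable (Llat_G : Qf a b ℤ → ℝ) := by
  have h1 : Summable fun x : Fin 2 → ℤ => ‖x‖ ^ (-(5 / 2 : ℝ)) :=
    EisensteinSeries.summable_one_div_norm_rpow (by norm_num)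
  have h2 : Summable fun x : Fin 2 → ℤ => (max 1 ‖x‖) ^ (-(5 / 2 : ℝ)) := by
    refine h1.congr_cofinite ?_
    have h3 : ({0} : Set (Fin 2 → ℤ))ᶜ ∈ Filter.cofinite := (Set.finite_singleton _).compl_mem_cofinite
    filter_upwards [h3] with x hx
    rw [max_eq_right (Llat_one hx)]
  exact h2.comp_injective Llat_x_inj

private theorem Llat_sum2 {a b : ℤ} :
    Summable fun e : Fin 2 → Qf a b ℤ => Llat_G (e 0) * Llat_G (e 1) := by
  have h1 : Summable fun p : Qf a b ℤ × Qf a b ℤ => Llat_G p.1 * Llat_G p.2 :=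
    Llat_sum.mul_of_nonneg Llat_sum Llat_G0 Llat_G0
  exact (finTwoArrowEquiv (Qf a b ℤ)).summable_iff.2 h1

/-- the coordinates are bounded by the absolute value -/
private theorem Llat_norm {a b : ℤ} (h : b ^ 2 + 4 * a < 0) :
    ∃ C : ℝ, 0 < C ∧ ∀ z : Qf a b ℤ, ‖Llat_x z‖ ≤ C * ‖iC a b z‖ := by
  have hs := wC_im h
  set s : ℝ := (wC a b).im with hsdef
  set t : ℝ := (wC a b).re with htdef
  refine ⟨1 + (1 + |t|) / s, by positivity, fun z => ?_⟩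
  have him : |(z.im : ℝ)| * s ≤ ‖iC a b z‖ := by
    have h1 := Complex.abs_im_le_norm (iC a b z)
    rw [iC_apply] at h1 ⊢
    have h2 : ((z.re : ℂ) + (z.im : ℂ) * wC a b).im = (z.im : ℝ) * s := by
      simp [hsdef]
    rw [h2, abs_mul, abs_of_pos hs] at h1
    exact h1
  have hre : |(z.re : ℝ)| ≤ ‖iC a b z‖ + |(z.im : ℝ)| * |t| := by
    have h1 := Complex.abs_re_le_norm (iC a b z)
    have h2 : (iC a b z).re = (z.re : ℝ) + (z.im : ℝ) * t := by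
      rw [iC_apply]
      simp [htdef]
    rw [h2] at h1
    have h3 : (z.re : ℝ) = ((z.re : ℝ) + (z.im : ℝ) * t) - (z.im : ℝ) * t := by ring
    calc |(z.re : ℝ)| = |((z.re : ℝ) + (z.im : ℝ) * t) - (z.im : ℝ) * t| := by rw [← h3]
      _ ≤ |(z.re : ℝ) + (z.im : ℝ) * t| + |(z.im : ℝ) * t| := abs_sub _ _
      _ ≤ ‖iC a b z‖ + |(z.im : ℝ)| * |t| := by
        rw [abs_mul (z.im : ℝ) t]
        exact add_le_add_left h1 _
  have hN : 0 ≤ ‖iC a b z‖ := norm_nonneg _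
  have him' : |(z.im : ℝ)| ≤ ‖iC a b z‖ / s := by
    rw [le_div_iff₀ hs]
    exact him
  have ht0 : 0 ≤ |t| := abs_nonneg t
  have h5 : |(z.im : ℝ)| * |t| ≤ ‖iC a b z‖ / s * |t| := mul_le_mul_of_nonneg_right him' ht0
  have h6 : (1 + (1 + |t|) / s) * ‖iC a b z‖ =
      ‖iC a b z‖ + ‖iC a b z‖ / s + ‖iC a b z‖ / s * |t| := by
    field_simp
    ring
  have h7 : 0 ≤ ‖iC a b z‖ / s := by positivity
  have h8 : 0 ≤ ‖iC a b z‖ / s * |t| := by positivity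
  rw [h6]
  refine (pi_norm_le_iff_of_nonneg (by positivity)).2 fun i => ?_
  fin_cases i
  · show ‖z.re‖ ≤ _
    rw [Int.norm_eq_abs]
    push_cast
    linarith
  · show ‖z.im‖ ≤ _
    rw [Int.norm_eq_abs]
    push_cast
    linarith

private theorem Llat_x0 {a b : ℤ} {z : Qf a b ℤ} (hz : z ≠ 0) : 1 ≤ ‖Llat_x z‖ := by
  refine Llat_one fun h => hz ?_
  have h0 : Llat_x (0 : Qf a b ℤ) = 0 := by
    ext i
    fin_cases i <;> rfl
  exact Llat_x_inj (h.trans h0.symm)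

private theorem Llat_H_iC {a b : ℤ} {C : ℝ}
    (hC : ∀ z : Qf a b ℤ, ‖Llat_x z‖ ≤ C * ‖iC a b z‖) {z : Qf a b ℤ} (hz : z ≠ 0) :
    Llat_H z ≤ C * ‖iC a b z‖ :=
  max_le ((Llat_x0 hz).trans (hC z)) (hC z)

private theorem Llat_H_vC {a b : ℤ} {C : ℝ} (hC0 : 0 < C)
    (hC : ∀ z : Qf a b ℤ, ‖Llat_x z‖ ≤ C * ‖iC a b z‖) {e : Fin 2 → Qf a b ℤ} (he : e ≠ 0)
    (i : Fin 2) : Llat_H (e i) ≤ C * ‖vC a b e‖ := by
  have h1 : ∀ j, ‖iC a b (e j)‖ ≤ ‖vC a b e‖ := fun j => norm_le_pi_norm (vC a b e) j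
  obtain ⟨j, hj⟩ : ∃ j, e j ≠ 0 := by
    by_contra hc
    push Not at hc
    exact he (funext hc)
  refine max_le ?_ ((hC (e i)).trans (mul_le_mul_of_nonneg_left (h1 i) hC0.le))
  exact (Llat_x0 hj).trans ((hC (e j)).trans (mul_le_mul_of_nonneg_left (h1 j) hC0.le))

/-- the first sum -/
private theorem Llat_first {a b : ℤ} {C : ℝ} (hC0 : 0 < C)
    (hC : ∀ z : Qf a b ℤ, ‖Llat_x z‖ ≤ C * ‖iC a b z‖) (e : Fin 2 → Qf a b ℤ) :
    (‖vC a b e‖ ^ 5)⁻¹ ≤ C ^ 5 * (Llat_G (e 0) * Llat_G (e 1)) := by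
  by_cases he : e = 0
  · have h0 : vC a b e = 0 := by
      rw [he]
      ext i
      simp [vC]
    rw [h0, norm_zero]
    have h1 := Llat_G0 (e 0)
    have h2 := Llat_G0 (e 1)
    norm_num
    positivity
  · have h0 := Llat_H_vC hC0 hC he 0
    have h1 := Llat_H_vC hC0 hC he 1
    have g0 := Llat_H1 (e 0)
    have g1 := Llat_H1 (e 1)
    set y : ℝ := C * ‖vC a b e‖ with hy
    have hy1 : 1 ≤ y := g0.trans h0
    have hv : 0 < ‖vC a b e‖ := by
      by_contra hc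
      have : ‖vC a b e‖ = 0 := le_antisymm (not_lt.1 hc) (norm_nonneg _)
      rw [this, mul_zero] at hy
      linarith
    have k0 : y ^ (-(5 / 2 : ℝ)) ≤ Llat_G (e 0) :=
      Real.rpow_le_rpow_of_nonpos (by linarith) h0 (by norm_num)
    have k1 : y ^ (-(5 / 2 : ℝ)) ≤ Llat_G (e 1) :=
      Real.rpow_le_rpow_of_nonpos (by linarith) h1 (by norm_num)
    have k2 : y ^ (-(5 / 2 : ℝ)) * y ^ (-(5 / 2 : ℝ)) = (y ^ 5)⁻¹ := by
      rw [← Real.rpow_add (by linarith), ← Real.rpow_natCast, ← Real.rpow_neg (by linarith)]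
      norm_num
    have k3 : (y ^ 5)⁻¹ ≤ Llat_G (e 0) * Llat_G (e 1) := by
      rw [← k2]
      exact mul_le_mul k0 k1 (Real.rpow_nonneg (by linarith) _) (Llat_G0 _)
    have k4 : (‖vC a b e‖ ^ 5)⁻¹ = C ^ 5 * (y ^ 5)⁻¹ := by
      rw [hy, mul_pow, mul_inv]
      field_simp
    rw [k4]
    exact mul_le_mul_of_nonneg_left k3 (by positivity)

/-- the vector `g⁻¹ e` -/
private def Llat_E {a b : ℤ} (g : GQ a b) (e : Fin 2 → Qf a b ℤ) : Fin 2 → Qf a b ℤ :=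
  ![g.val 1 1 * e 0 - g.val 0 1 * e 1, g.val 0 0 * e 1 - g.val 1 0 * e 0]

private theorem Llat_E_inj {a b : ℤ} (g : GQ a b) : Function.Injective (Llat_E g) := by
  intro e e' h
  have hd : g.val 0 0 * g.val 1 1 - g.val 0 1 * g.val 1 0 = 1 := by
    have := g.prop
    rwa [Matrix.det_fin_two] at this
  have h0 : g.val 1 1 * e 0 - g.val 0 1 * e 1 = g.val 1 1 * e' 0 - g.val 0 1 * e' 1 :=
    congrFun h 0
  have h1 : g.val 0 0 * e 1 - g.val 1 0 * e 0 = g.val 0 0 * e' 1 - g.val 1 0 * e' 0 :=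
    congrFun h 1
  ext1 i
  fin_cases i
  · show e 0 = e' 0
    linear_combination g.val 0 0 * h0 + g.val 0 1 * h1 - (e 0 - e' 0) * hd
  · show e 1 = e' 1
    linear_combination g.val 1 0 * h0 + g.val 1 1 * h1 - (e 1 - e' 1) * hd

private theorem Llat_E_om {a b : ℤ} (g : GQ a b) (e : Fin 2 → Qf a b ℤ) :
    ‖om (vC a b e) (vC a b (colG g 0))‖ = ‖iC a b (Llat_E g e 1)‖ := by
  have h1 : om (vC a b e) (vC a b (colG g 0)) = -iC a b (Llat_E g e 1) := by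
    show iC a b (e 0) * iC a b (g.val 1 0) - iC a b (e 1) * iC a b (g.val 0 0) =
      -iC a b (g.val 0 0 * e 1 - g.val 1 0 * e 0)
    rw [map_sub, map_mul, map_mul]
    ring
  rw [h1, norm_neg]

private theorem Llat_E_norm {a b : ℤ} (g : GQ a b) :
    ∃ K : ℝ, 0 < K ∧ ∀ e : Fin 2 → Qf a b ℤ, ‖vC a b (Llat_E g e)‖ ≤ K * ‖vC a b e‖ := by
  refine ⟨1 + (‖iC a b (g.val 0 0)‖ + ‖iC a b (g.val 0 1)‖ + ‖iC a b (g.val 1 0)‖ +
    ‖iC a b (g.val 1 1)‖), by positivity, fun e => ?_⟩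
  have h0 : ‖iC a b (e 0)‖ ≤ ‖vC a b e‖ := norm_le_pi_norm (vC a b e) 0
  have h1 : ‖iC a b (e 1)‖ ≤ ‖vC a b e‖ := norm_le_pi_norm (vC a b e) 1
  have key : ∀ p q : Qf a b ℤ, ‖iC a b (p * e 0 - q * e 1)‖ ≤
      (‖iC a b p‖ + ‖iC a b q‖) * ‖vC a b e‖ := by
    intro p q
    rw [map_sub, map_mul, map_mul, add_mul]
    refine (norm_sub_le _ _).trans ?_
    rw [norm_mul, norm_mul]
    exact add_le_add (mul_le_mul_of_nonneg_left h0 (norm_nonneg _))
      (mul_le_mul_of_nonneg_left h1 (norm_nonneg _))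
  have hv : 0 ≤ ‖vC a b e‖ := norm_nonneg _
  have n00 := norm_nonneg (iC a b (g.val 0 0))
  have n01 := norm_nonneg (iC a b (g.val 0 1))
  have n10 := norm_nonneg (iC a b (g.val 1 0))
  have n11 := norm_nonneg (iC a b (g.val 1 1))
  refine (pi_norm_le_iff_of_nonneg (by positivity)).2 fun i => ?_
  fin_cases i
  · show ‖iC a b (g.val 1 1 * e 0 - g.val 0 1 * e 1)‖ ≤ _
    refine (key _ _).trans (mul_le_mul_of_nonneg_right ?_ hv)
    linarith
  · show ‖iC a b (g.val 0 0 * e 1 - g.val 1 0 * e 0)‖ ≤ _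
    have h2 : g.val 0 0 * e 1 - g.val 1 0 * e 0 = -(g.val 1 0 * e 0 - g.val 0 0 * e 1) := by ring
    rw [h2, map_neg, norm_neg]
    refine (key _ _).trans (mul_le_mul_of_nonneg_right ?_ hv)
    linarith

/-- the second sum -/
private theorem Llat_second {a b : ℤ} {C K : ℝ} (hC0 : 0 < C) (hK0 : 0 < K)
    (hC : ∀ z : Qf a b ℤ, ‖Llat_x z‖ ≤ C * ‖iC a b z‖) (g : GQ a b)
    (hK : ∀ e : Fin 2 → Qf a b ℤ, ‖vC a b (Llat_E g e)‖ ≤ K * ‖vC a b e‖)
    (e : Fin 2 → Qf a b ℤ) :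
    (‖vC a b e‖ ^ 3 * ‖om (vC a b e) (vC a b (colG g 0))‖ ^ 2)⁻¹ ≤
      (C * K) ^ 3 * C ^ 2 * (Llat_G (Llat_E g e 0) * Llat_G (Llat_E g e 1)) := by
  rw [Llat_E_om]
  have G0 := Llat_G0 (Llat_E g e 0)
  have G1 := Llat_G0 (Llat_E g e 1)
  by_cases he : Llat_E g e 1 = 0
  · rw [he, map_zero, norm_zero]
    rw [he] at G1
    norm_num
    positivity
  · have he' : Llat_E g e ≠ 0 := fun h => he (by rw [h]; rfl)
    have h0 := Llat_H_vC hC0 hC he' 0
    have h1 := Llat_H_vC hC0 hC he' 1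
    have h2 := Llat_H_iC hC he
    have hKe := hK e
    have g0 := Llat_H1 (Llat_E g e 0)
    have g1 := Llat_H1 (Llat_E g e 1)
    set H0 : ℝ := Llat_H (Llat_E g e 0) with hH0
    set H1 : ℝ := Llat_H (Llat_E g e 1) with hH1
    set n : ℝ := ‖vC a b e‖ with hn
    set m : ℝ := ‖iC a b (Llat_E g e 1)‖ with hm
    have hn0 : 0 ≤ n := norm_nonneg _
    have hm0 : 0 ≤ m := norm_nonneg _
    have h0' : H0 ≤ C * K * n := by
      refine h0.trans ?_
      rw [mul_assoc]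
      exact mul_le_mul_of_nonneg_left hKe hC0.le
    have h1' : H1 ≤ C * K * n := by
      refine h1.trans ?_
      rw [mul_assoc]
      exact mul_le_mul_of_nonneg_left hKe hC0.le
    have hnpos : 0 < n := by
      rcases hn0.lt_or_eq with h | h
      · exact h
      · rw [← h, mul_zero] at h0'
        linarith
    have hmpos : 0 < m := by
      rcases hm0.lt_or_eq with h | h
      · exact h
      · rw [← h, mul_zero] at h2
        linarith
    have hH0pos : 0 < H0 := by linarith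
    have hH1pos : 0 < H1 := by linarith
    have hy : 0 ≤ C * K * n := by positivity
    -- the product
    have k1 : H0 ^ (5 / 2 : ℝ) * H1 ^ (5 / 2 : ℝ) ≤ (C * K * n) ^ 3 * (C * m) ^ 2 := by
      have e1 : H1 ^ (5 / 2 : ℝ) = H1 ^ (1 / 2 : ℝ) * H1 ^ 2 := by
        rw [← Real.rpow_natCast, ← Real.rpow_add hH1pos]
        norm_num
      have e2 : H0 ^ (5 / 2 : ℝ) ≤ (C * K * n) ^ (5 / 2 : ℝ) :=
        Real.rpow_le_rpow hH0pos.le h0' (by norm_num)
      have e3 : H1 ^ (1 / 2 : ℝ) ≤ (C * K * n) ^ (1 / 2 : ℝ) :=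
        Real.rpow_le_rpow hH1pos.le h1' (by norm_num)
      have e4 : H1 ^ 2 ≤ (C * m) ^ 2 := pow_le_pow_left₀ hH1pos.le h2 2
      have e5 : (C * K * n) ^ (5 / 2 : ℝ) * (C * K * n) ^ (1 / 2 : ℝ) = (C * K * n) ^ 3 := by
        rw [← Real.rpow_add (by positivity), ← Real.rpow_natCast]
        norm_num
      rw [e1, ← e5, ← mul_assoc]
      refine mul_le_mul (mul_le_mul e2 e3 (by positivity) (by positivity)) e4 (by positivity)
        (by positivity)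
    have k2 : Llat_G (Llat_E g e 0) * Llat_G (Llat_E g e 1) =
        (H0 ^ (5 / 2 : ℝ) * H1 ^ (5 / 2 : ℝ))⁻¹ := by
      rw [mul_inv]
      show H0 ^ (-(5 / 2 : ℝ)) * H1 ^ (-(5 / 2 : ℝ)) = _
      rw [Real.rpow_neg hH0pos.le, Real.rpow_neg hH1pos.le]
    have k3 : ((C * K * n) ^ 3 * (C * m) ^ 2)⁻¹ ≤ (H0 ^ (5 / 2 : ℝ) * H1 ^ (5 / 2 : ℝ))⁻¹ :=
      inv_anti₀ (by positivity) k1
    have k4 : (n ^ 3 * m ^ 2)⁻¹ = (C * K) ^ 3 * C ^ 2 * ((C * K * n) ^ 3 * (C * m) ^ 2)⁻¹ := by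
      field_simp
    rw [k4, k2]
    exact mul_le_mul_of_nonneg_left k3 (by positivity)

theorem p_Llat : L_lat := by
  intro a b h
  obtain ⟨C, hC0, hC⟩ := Llat_norm h
  constructor
  · refine Summable.of_nonneg_of_le (fun e => by positivity) (Llat_first hC0 hC)
      (Llat_sum2.mul_left _)
  · intro g
    obtain ⟨K, hK0, hK⟩ := Llat_E_norm g
    refine Summable.of_nonneg_of_le (fun e => by positivity) (Llat_second hC0 hK0 hC g hK) ?_
    exact (Llat_sum2.comp_injective (Llat_E_inj g)).mul_left _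

end

end Pool.Agent.F8.CG
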