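import Pool.Agent.Lib.MP_305fdd_al.F8.CG.StmS

/-!
# MP_305fdd_al, congruence subgroups, piece Scls: integral crossed homomorphisms with support in one cusp
-/

set_option autoImplicit false

namespace Pool.Agent.F8.CG

open Pool.Agent.F8.BG Pool.Agent.MP_305fdd_al Pool.Agent.Lib.MP_305fdd_al Pool.Agent.F8
open scoped QuadraticAlgebra

noncomputable section

variable {a b : ℤ}

/-- `f = l • f'`, `f'` primitive and congruent to `u • e`, `s = l u` -/
private def Scls_R (N : ℕ) (e f : Fin 2 → Qf a b ℤ) (s : Qf a b ℤ) : Prop :=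
  ∃ (l u : Qf a b ℤ) (f' : Fin 2 → Qf a b ℤ), Prm f' ∧ IsUnit u ∧ Cgr N f' (u • e) ∧
    f = l • f' ∧ s = l * u

open Classical in
/-- the value -/
private def Scls_G (P : Qf a b ℤ → Prop) : ℂ := if h : ∃ s, P s then iC a b h.choose ^ 3 else 0

private theorem Scls_G_pos (P : Qf a b ℤ → Prop) (h : ∀ s s', P s → P s' → s = s')
    (s : Qf a b ℤ) (hs : P s) : Scls_G P = iC a b s ^ 3 := by
  have h1 : ∃ s, P s := ⟨s, hs⟩
  unfold Scls_G
  rw [dif_pos h1, h _ _ h1.choose_spec hs]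

private theorem Scls_G_neg (P : Qf a b ℤ → Prop) (h : ¬ ∃ s, P s) : Scls_G P = 0 := by
  unfold Scls_G
  rw [dif_neg h]

private theorem Scls_cgr (H : CgF a b) (N : ℕ) (e : Fin 2 → Qf a b ℤ) (he : Prm e)
    (u u' : Qf a b ℤ) (h : Cgr N (u • e) (u' • e)) : (N : Qf a b ℤ) ∣ u - u' := by
  obtain ⟨x, y, hxy⟩ := (H.cop e).1 he
  obtain ⟨c, hc⟩ := h 0
  obtain ⟨d, hd⟩ := h 1
  have hc' : u * e 0 - u' * e 0 = N * c := hc
  have hd' : u * e 1 - u' * e 1 = N * d := hd
  exact ⟨x * c + y * d, by linear_combination (-(u - u')) * hxy + x * hc' + y * hd'⟩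

private theorem Scls_uniq (H : CgF a b) (N : ℕ) (hN : 3 ≤ N) (e : Fin 2 → Qf a b ℤ) (he : Prm e)
    (f : Fin 2 → Qf a b ℤ) (s s' : Qf a b ℤ) (h : Scls_R N e f s) (h' : Scls_R N e f s') :
    s = s' := by
  obtain ⟨l, u, g, hg, hu, hc, hf, rfl⟩ := h
  obtain ⟨l', u', g', hg', hu', hc', hf', rfl⟩ := h'
  by_cases hl : l = 0
  · subst hl
    obtain ⟨x, y, hxy⟩ := (H.cop g').1 hg'
    have h0 : (0 : Fin 2 → Qf a b ℤ) = l' • g' := by
      rw [← hf', hf, zero_smul]
    have h1 : (0 : Qf a b ℤ) = l' * g' 0 := congrFun h0 0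
    have h2 : (0 : Qf a b ℤ) = l' * g' 1 := congrFun h0 1
    have h3 : l' = 0 := by
      linear_combination (-l') * hxy - x * h1 - y * h2
    rw [h3, zero_mul, zero_mul]
  · obtain ⟨v, hv, hgv, hlv⟩ := H.uni l l' g g' hl hg hg' (by rw [← hf, ← hf'])
    have h1 : Cgr N ((v * u) • e) (u' • e) := by
      intro i
      have h2 := hc i
      have h3 := hc' i
      obtain ⟨c, hc⟩ := h2
      obtain ⟨d, hd⟩ := h3
      have h4 : g' i = v * g i := congrFun hgv i
      have hc1 : g i - u * e i = N * c := hc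
      have hd1 : g' i - u' * e i = N * d := hd
      refine ⟨d - v * c, ?_⟩
      show v * u * e i - u' * e i = _
      linear_combination hd1 - v * hc1 - h4
    have h2 := Scls_cgr H N e he _ _ h1
    obtain ⟨r, hr⟩ := hu'.exists_right_inv
    have hru : IsUnit r := IsUnit.of_mul_eq_one u' (by rw [mul_comm]; exact hr)
    have h3 : v * u * r = 1 := by
      apply H.un N _ hN ((hv.mul hu).mul hru)
      have h4 : v * u * r - 1 = (v * u - u') * r := by linear_combination hr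
      rw [h4]
      exact Dvd.dvd.mul_right h2 r
    rw [hlv]
    linear_combination (l' * u') * h3 - (l' * v * u) * hr

private theorem Scls_hom (H : CgF a b) (hdom : IsDomain (Qf a b ℤ)) (N : ℕ) (hN : 3 ≤ N)
    (e : Fin 2 → Qf a b ℤ) (he : Prm e) : Hom3 fun f => Scls_G (Scls_R N e f) := by
  intro m f
  show Scls_G (Scls_R N e (m • f)) = iC a b m ^ 3 * Scls_G (Scls_R N e f)
  have hu := Scls_uniq H N hN e he
  by_cases hf : ∃ s, Scls_R N e f s
  · obtain ⟨s, hs⟩ := hf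
    have hms : Scls_R N e (m • f) (m * s) := by
      obtain ⟨l, u, g, hg, hu, hc, hf, rfl⟩ := hs
      exact ⟨m * l, u, g, hg, hu, hc, by rw [hf, smul_smul], by ring⟩
    rw [Scls_G_pos _ (hu f) s hs, Scls_G_pos _ (hu (m • f)) _ hms, map_mul, mul_pow]
  · rw [Scls_G_neg _ hf, mul_zero]
    have hzero : Scls_R N e (0 : Fin 2 → Qf a b ℤ) 0 := by
      refine ⟨0, 1, e, he, isUnit_one, ?_, by rw [zero_smul], by rw [zero_mul]⟩
      intro i
      rw [one_smul, sub_self]
      exact dvd_zero _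
    by_cases hm : m = 0
    · subst hm
      rw [zero_smul, Scls_G_pos _ (hu _) 0 hzero, map_zero]
      norm_num
    · apply Scls_G_neg
      rintro ⟨s, l, u, g, hg, huu, hc, hfe, rfl⟩
      apply hf
      have hf0 : f ≠ 0 := by
        rintro rfl
        exact hf ⟨0, hzero⟩
      obtain ⟨l₁, f₁, hl₁, hf₁, rfl⟩ := H.dec f hf0
      obtain ⟨v, hv, hgv, hlv⟩ := H.uni (m * l₁) l f₁ g (mul_ne_zero hm hl₁) hf₁ hg (by
        rw [← smul_smul]
        exact hfe)
      obtain ⟨r, hr⟩ := hv.exists_right_inv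
      have hru : IsUnit r := IsUnit.of_mul_eq_one v (by rw [mul_comm]; exact hr)
      refine ⟨l₁ * (r * u), l₁, r * u, f₁, hf₁, hru.mul huu, fun i => ?_, rfl, rfl⟩
      obtain ⟨c, hc⟩ := hc i
      have h4 : g i = v * f₁ i := congrFun hgv i
      have hc1 : g i - u * e i = N * c := hc
      refine ⟨r * c, ?_⟩
      show f₁ i - r * u * e i = _
      linear_combination r * hc1 - r * h4 - (f₁ i) * hr

private theorem Scls_inv (H : CgF a b) (N : ℕ) (e : Fin 2 → Qf a b ℤ) (w : GQ a b)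
    (hw : w ∈ Gam a b N) (f : Fin 2 → Qf a b ℤ) (s : Qf a b ℤ) (h : Scls_R N e f s) :
    Scls_R N e (w.val.mulVec f) s := by
  obtain ⟨l, u, g, hg, hu, hc, rfl, rfl⟩ := h
  refine ⟨l, u, w.val.mulVec g, H.act w g hg, hu, fun i => ?_, ?_, rfl⟩
  · have h1 := H.gam N w hw g i
    have h2 := hc i
    have h3 := dvd_add h1 h2
    rwa [sub_add_sub_cancel] at h3
  · rw [Matrix.mulVec_smul]

private theorem Scls_inv2 (H : CgF a b) (N : ℕ) (e : Fin 2 → Qf a b ℤ) (w : GQ a b)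
    (hw : w ∈ Gam a b N) (f : Fin 2 → Qf a b ℤ) :
    Scls_R N e (w.val.mulVec f) = Scls_R N e f := by
  funext s
  apply propext
  constructor
  · intro h
    have h1 := Scls_inv H N e w⁻¹ (inv_mem hw) _ s h
    rw [Matrix.mulVec_mulVec] at h1
    have h2 : (w⁻¹).val * w.val = 1 := by
      have h3 : w⁻¹ * w = 1 := inv_mul_cancel w
      exact congrArg Subtype.val h3
    rwa [h2, Matrix.one_mulVec] at h1
  · exact Scls_inv H N e w hw f s

theorem p_Scls (h1 : S_h1) (hint : S_int) : S_cls := by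
  intro a b hn hE hp hfg H M₀ hM hLD N hN hMN e he
  have hdom : IsDomain (Qf a b ℤ) := Qf_domain hn
  have hN3 : 3 ≤ N := hM.trans (Nat.le_of_dvd (Nat.pos_of_ne_zero hN) hMN)
  have hu := Scls_uniq H N hN3 e he
  obtain ⟨z, hz, hzF⟩ := h1 a b hn hE hp M₀ hLD N hN hMN (fun f => Scls_G (Scls_R N e f))
    (Scls_hom H hdom N hN3 e he) (fun w hw f => by
      show Scls_G (Scls_R N e (w.val.mulVec f)) = Scls_G (Scls_R N e f)
      rw [Scls_inv2 H N e w hw f])
  have hBV : ∀ f, BV N (iC a b) f z = iC a b ((N : Qf a b ℤ) * 1) * Scls_G (Scls_R N e f) :=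
    fun f => hzF f _ (tv_mem (dvd_refl N) f 1)
  have hS : ∀ f ∈ {f : Fin 2 → Qf a b ℤ | Prm f ∧ ∀ u : Qf a b ℤ, IsUnit u →
      ¬ Cgr N f (u • e)}, BV N (iC a b) f z = 0 := by
    rintro f ⟨hf, hfu⟩
    rw [hBV, Scls_G_neg, mul_zero]
    rintro ⟨s, l, u, g, hg, huu, hc, hfe, rfl⟩
    obtain ⟨v, hv, hgv, hlv⟩ := H.uni 1 l f g one_ne_zero hf hg (by rw [one_smul]; exact hfe)
    have hl : IsUnit l := IsUnit.of_mul_eq_one v (by rw [mul_comm]; exact hlv.symm)
    apply hfu (l * u) (hl.mul huu)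
    intro i
    obtain ⟨c, hc⟩ := hc i
    have h4 : f i = l * g i := congrFun hfe i
    have hc1 : g i - u * e i = N * c := hc
    refine ⟨l * c, ?_⟩
    show f i - l * u * e i = _
    linear_combination h4 + l * hc1
  have hne : BV N (iC a b) e z ≠ 0 := by
    have hR : Scls_R N e e 1 := by
      refine ⟨1, 1, e, he, isUnit_one, ?_, by rw [one_smul], by rw [one_mul]⟩
      intro i
      rw [one_smul, sub_self]
      exact dvd_zero _
    rw [hBV, Scls_G_pos _ (hu e) 1 hR, map_one, one_pow, mul_one, mul_one, map_natCast]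
    exact_mod_cast hN
  obtain ⟨z', hz', h2, h3⟩ := (hint a b hn hfg N hN _ e z hz hS).1 hne
  exact ⟨z', hz', h3, fun f hf hfu => h2 f ⟨hf, hfu⟩⟩

end

end Pool.Agent.F8.CG
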