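import Pool.Agent.Lib.MP_305fdd_al.F8.CG.StmS

/-!
# MP_305fdd_al, congruence subgroups, [CG S fx]: crossed homomorphisms as solutions of linear
equations, over commutative rings
-/

set_option autoImplicit false

namespace Pool.Agent.F8.CG

open Pool.Agent.F8.BG Pool.Agent.MP_305fdd_al Pool.Agent.Lib.MP_305fdd_al Pool.Agent.F8
open scoped QuadraticAlgebra

noncomputable section

private theorem Sfx_val {R K : Type} [CommRing R] [CommRing K] (f : R →+* K) (g : SL2 R) :
    (SLm f g).val = g.val.map f := rfl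

private theorem Sfx_word {R ι : Type} [CommRing R] [Fintype ι] (ρ : FreeGroup ι →* SL2 R)
    (w : FreeGroup ι) :
    ∃ D : ι → Matrix (Fin 2) (Fin 2) R, ∀ (K : Type) [CommRing K] (f : R →+* K)
      (z : FreeGroup ι → Fin 2 → K),
      (∀ x y, z (x * y) = z x + (SLm f (ρ x)).val.mulVec (z y)) →
        z w = ∑ i, ((D i).map f).mulVec (z (FreeGroup.of i)) := by
  classical
  have hone : ∀ (K : Type) [CommRing K] (f : R →+* K) (z : FreeGroup ι → Fin 2 → K),
      (∀ x y, z (x * y) = z x + (SLm f (ρ x)).val.mulVec (z y)) → z 1 = 0 := by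
    intro K _ f z hz
    have h1 := hz 1 1
    rw [one_mul, map_one, map_one] at h1
    have h2 : (1 : SL2 K).val.mulVec (z 1) = z 1 := by
      show (1 : Matrix (Fin 2) (Fin 2) K).mulVec (z 1) = z 1
      rw [Matrix.one_mulVec]
    rw [h2] at h1
    have h3 : z 1 + z 1 = z 1 + 0 := by rw [add_zero]; exact h1.symm
    exact add_left_cancel h3
  induction w using FreeGroup.induction_on with
  | C1 =>
    refine ⟨fun _ => 0, ?_⟩
    intro K _ f z hz
    rw [hone K f z hz]
    symm
    apply Finset.sum_eq_zero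
    intro i _
    have h0 : (0 : Matrix (Fin 2) (Fin 2) R).map f = 0 := by
      ext a b
      simp
    rw [h0, Matrix.zero_mulVec]
  | of i =>
    refine ⟨fun j => if j = i then 1 else 0, ?_⟩
    intro K _ f z hz
    rw [Finset.sum_eq_single i]
    · beta_reduce
      rw [if_pos rfl, Matrix.map_one f (map_zero f) (map_one f), Matrix.one_mulVec]
    · intro b _ hb
      beta_reduce
      rw [if_neg hb]
      have h0 : (0 : Matrix (Fin 2) (Fin 2) R).map f = 0 := by
        ext a b
        simp
      rw [h0, Matrix.zero_mulVec]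
    · intro h
      exact absurd (Finset.mem_univ _) h
  | inv_of i ih =>
    refine ⟨fun j => if j = i then -(ρ (FreeGroup.of i)⁻¹).val else 0, ?_⟩
    intro K _ f z hz
    rw [Finset.sum_eq_single i]
    · beta_reduce
      rw [if_pos rfl]
      have h3 := hz (FreeGroup.of i)⁻¹ (FreeGroup.of i)
      rw [inv_mul_cancel, hone K f z hz, Sfx_val] at h3
      have h4 : (-(ρ (FreeGroup.of i)⁻¹).val).map f = -((ρ (FreeGroup.of i)⁻¹).val.map f) := by
        ext a b
        simp
      rw [h4, Matrix.neg_mulVec]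
      exact eq_neg_of_add_eq_zero_left h3.symm
    · intro b _ hb
      beta_reduce
      rw [if_neg hb]
      have h0 : (0 : Matrix (Fin 2) (Fin 2) R).map f = 0 := by
        ext a b
        simp
      rw [h0, Matrix.zero_mulVec]
    · intro h
      exact absurd (Finset.mem_univ _) h
  | mul v w hv hw =>
    obtain ⟨c, hc⟩ := hv
    obtain ⟨d, hd⟩ := hw
    refine ⟨fun j => c j + (ρ v).val * d j, ?_⟩
    intro K _ f z hz
    rw [hz, hc K f z hz, hd K f z hz, Matrix.mulVec_sum, ← Finset.sum_add_distrib]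
    apply Finset.sum_congr rfl
    intro j _
    have h4 : (c j + (ρ v).val * d j).map f = (c j).map f + ((ρ v).val.map f) * ((d j).map f) := by
      rw [Matrix.map_add f (map_add f), Matrix.map_mul]
    rw [h4, Matrix.add_mulVec, Sfx_val, Matrix.mulVec_mulVec]

/-- pairs (vector, matrix) -/
private structure SfxE (K : Type) [CommRing K] where
  /-- the vector -/
  v : Fin 2 → K
  /-- the matrix -/
  g : SL2 K

private theorem SfxE.ext' {K : Type} [CommRing K] {x y : SfxE K} (h1 : x.v = y.v)
    (h2 : x.g = y.g) : x = y := by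
  cases x
  cases y
  simp only at h1 h2
  rw [h1, h2]

private instance Sfx_inst (K : Type) [CommRing K] : Group (SfxE K) :=
  letI : Mul (SfxE K) := ⟨fun x y => ⟨x.v + x.g.val.mulVec y.v, x.g * y.g⟩⟩
  letI : One (SfxE K) := ⟨⟨0, 1⟩⟩
  letI : Inv (SfxE K) := ⟨fun x => ⟨-((x.g⁻¹).val.mulVec x.v), x.g⁻¹⟩⟩
  Group.ofLeftAxioms
    (fun x y z => SfxE.ext'
      (by
        show x.v + x.g.val.mulVec y.v + (x.g * y.g).val.mulVec z.v =
          x.v + x.g.val.mulVec (y.v + y.g.val.mulVec z.v)
        rw [Matrix.mulVec_add, Matrix.mulVec_mulVec, add_assoc]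
        rfl)
      (mul_assoc _ _ _))
    (fun x => SfxE.ext'
      (by
        show (0 : Fin 2 → K) + (1 : Matrix (Fin 2) (Fin 2) K).mulVec x.v = x.v
        rw [Matrix.one_mulVec, zero_add])
      (one_mul _))
    (fun x => SfxE.ext'
      (by
        show -((x.g⁻¹).val.mulVec x.v) + (x.g⁻¹).val.mulVec x.v = 0
        exact neg_add_cancel _)
      (inv_mul_cancel _))

private def Sfx_pr (K : Type) [CommRing K] : SfxE K →* SL2 K where
  toFun x := x.g
  map_one' := rfl
  map_mul' _ _ := rfl

private theorem Sfx_mul_v {K : Type} [CommRing K] (x y : SfxE K) :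
    (x * y).v = x.v + x.g.val.mulVec y.v := rfl

private theorem Sfx_ex {ι K : Type} [CommRing K] (σ : FreeGroup ι →* SL2 K) (v : ι → Fin 2 → K) :
    ∃ z : FreeGroup ι → Fin 2 → K, (∀ x y, z (x * y) = z x + (σ x).val.mulVec (z y)) ∧
      ∀ i, z (FreeGroup.of i) = v i := by
  let Φ : FreeGroup ι →* SfxE K := FreeGroup.lift fun i => ⟨v i, σ (FreeGroup.of i)⟩
  have h1 : (Sfx_pr K).comp Φ = σ := by
    apply FreeGroup.ext_hom
    intro i
    show (Sfx_pr K) (Φ (FreeGroup.of i)) = _
    rw [FreeGroup.lift_apply_of]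
    rfl
  have h2 : ∀ x, (Φ x).g = σ x := fun x => DFunLike.congr_fun h1 x
  refine ⟨fun x => (Φ x).v, ?_, ?_⟩
  · intro x y
    show (Φ (x * y)).v = _
    rw [map_mul, Sfx_mul_v, h2]
  · intro i
    show (Φ (FreeGroup.of i)).v = _
    rw [FreeGroup.lift_apply_of]

theorem p_Sfx : S_fx := by
  intro R G _ _ ρ hG
  classical
  obtain ⟨S, hS, π, hπ⟩ := Group.fg_iff_exists_freeGroup_hom_surjective_finite.1 hG
  let _ : Fintype S := Fintype.ofFinite S
  choose D hD using fun w : FreeGroup S => Sfx_word (ρ.comp π) w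
  choose τ hτ using hπ
  let e : (S × Fin 2) ≃ Fin (Fintype.card (S × Fin 2)) := Fintype.equivFin _
  refine ⟨{w : FreeGroup S // π w = 1} × Fin 2, Fintype.card (S × Fin 2),
    fun j x => D j.1.1 (e.symm x).1 j.2 (e.symm x).2,
    fun g k x => D (τ g) (e.symm x).1 k (e.symm x).2, ?_⟩
  intro K _ f
  -- the equations
  have heq : ∀ (u : Fin (Fintype.card (S × Fin 2)) → K) (w : FreeGroup S) (k : Fin 2),
      ∑ x, f (D w (e.symm x).1 k (e.symm x).2) * u x =
        (∑ i, ((D w i).map f).mulVec (fun l => u (e (i, l)))) k := by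
    intro u w k
    rw [← Equiv.sum_comp e, Fintype.sum_prod_type, Finset.sum_apply]
    apply Finset.sum_congr rfl
    intro i _
    simp only [Equiv.symm_apply_apply]
    rfl
  constructor
  · intro z hz
    have hzz : ∀ w : FreeGroup S, z (π w) =
        ∑ i, ((D w i).map f).mulVec (z (π (FreeGroup.of i))) := by
      intro w
      exact hD w K f (fun x => z (π x)) (fun x x' => by
        show z (π (x * x')) = _
        rw [map_mul]
        exact hz (π x) (π x'))
    have hev : ∀ (w : FreeGroup S) (k : Fin 2),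
        ∑ x, f (D w (e.symm x).1 k (e.symm x).2) *
          (z (π (FreeGroup.of (e.symm x).1)) (e.symm x).2) = z (π w) k := by
      intro w k
      rw [heq (fun x => z (π (FreeGroup.of (e.symm x).1)) (e.symm x).2) w k, hzz w]
      simp only [Equiv.symm_apply_apply]
    refine ⟨fun x => z (π (FreeGroup.of (e.symm x).1)) (e.symm x).2, ?_, ?_⟩
    · rintro ⟨⟨w, hw⟩, k⟩
      show ∑ x, f (D w (e.symm x).1 k (e.symm x).2) * _ = 0
      rw [hev w k, hw]
      have h3 := hz 1 1
      rw [one_mul, map_one] at h3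
      have h4 : (1 : SL2 K).val.mulVec (z 1) = z 1 := by
        show (1 : Matrix (Fin 2) (Fin 2) K).mulVec (z 1) = z 1
        rw [Matrix.one_mulVec]
      rw [h4] at h3
      have h5 : z 1 + z 1 = z 1 + 0 := by rw [add_zero]; exact h3.symm
      exact congrFun (add_left_cancel h5) k
    · intro g k
      rw [hev (τ g) k, hτ]
  · intro u hu
    obtain ⟨z, hz, hzi⟩ := Sfx_ex ((SLm f).comp (ρ.comp π)) (fun (i : S) (l : Fin 2) => u (e (i, l)))
    have hz' : ∀ x y, z (x * y) = z x + (SLm f ((ρ.comp π) x)).val.mulVec (z y) := hz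
    have hzw : ∀ (w : FreeGroup S) (k : Fin 2),
        ∑ x, f (D w (e.symm x).1 k (e.symm x).2) * u x = z w k := by
      intro w k
      rw [heq u w k, hD w K f z hz']
      simp only [hzi]
    have hker : ∀ w, π w = 1 → z w = 0 := by
      intro w hw
      funext k
      rw [← hzw w k]
      exact hu (⟨w, hw⟩, k)
    have hfac : ∀ w w', π w = π w' → z w = z w' := by
      intro w w' hww
      have h1 := hz' w (w⁻¹ * w')
      rw [mul_inv_cancel_left, hker (w⁻¹ * w') (by rw [map_mul, map_inv, hww, inv_mul_cancel]),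
        Matrix.mulVec_zero, add_zero] at h1
      exact h1.symm
    have hfun : (fun x k => ∑ i, f (D (τ x) (e.symm i).1 k (e.symm i).2) * u i)
        = fun x => z (τ x) := by
      funext x k
      exact hzw (τ x) k
    have hgoal : (fun x => z (τ x)) ∈ Z1K ((SLm f).comp ρ) := by
      intro x y
      show z (τ (x * y)) = z (τ x) + (SLm f (ρ x)).val.mulVec (z (τ y))
      rw [hfac (τ (x * y)) (τ x * τ y) (by rw [map_mul, hτ, hτ, hτ]), hz']
      show z (τ x) + (SLm f (ρ (π (τ x)))).val.mulVec (z (τ y)) = _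
      rw [hτ]
    show (fun x k => ∑ i, f (D (τ x) (e.symm i).1 k (e.symm i).2) * u i) ∈ _
    rw [hfun]
    exact hgoal

end

end Pool.Agent.F8.CG
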