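import Pool.Agent.Lib.MP_305fdd_al.F8.CG.StmS

/-!
# MP_305fdd_al, congruence subgroups: block S, the seeds for `d = 1, 2, 3`
-/

set_option autoImplicit false

namespace Pool.Agent.F8.CG

open Pool.Agent.F8.BG Pool.Agent.MP_305fdd_al Pool.Agent.Lib.MP_305fdd_al Pool.Agent.F8
open scoped QuadraticAlgebra ComplexConjugate

noncomputable section

/-! ### The value at a product -/

private def Ssd1_U (r₀ r₁ T T' : ℂ) (v : Fin 2 → ℂ) : Fin 2 → ℂ :=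
  ![r₀ * T + r₁ * T' + (v 0 + T * v 1), v 1]

private def Ssd1_V (s₀ s₁ C C' : ℂ) (v : Fin 2 → ℂ) : Fin 2 → ℂ :=
  ![C + v 0, C ^ 2 / 2 + s₀ * C + s₁ * C' + (C * v 0 + v 1)]

private theorem Ssd1_memU {a b : ℤ} (ν t : Qf a b ℤ) : (eU t : GQ a b) ∈ W1 ν := by
  refine ⟨?_, ?_, ?_⟩
  · show ν ∣ 0
    exact dvd_zero _
  · show ν ∣ 1 - 1
    simp
  · show ν ∣ 1 - 1
    simp

private theorem Ssd1_memV {a b : ℤ} {ν c : Qf a b ℤ} (h : ν ∣ c) : (eV c : GQ a b) ∈ W1 ν := by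
  refine ⟨h, ?_, ?_⟩
  · show ν ∣ 1 - 1
    simp
  · show ν ∣ 1 - 1
    simp

private theorem Ssd1_one {a b : ℤ} {ν : Qf a b ℤ} {Z : W1 ν → Fin 2 → ℂ}
    (hZ : Z ∈ Z1C (W1 ν).subtype) : Z 1 = 0 := by
  have h := hZ 1 1
  rw [mul_one, map_one, map_one, Matrix.SpecialLinearGroup.coe_one, Matrix.one_mulVec] at h
  exact (left_eq_add.1 h)

private theorem Ssd1_mulU {a b : ℤ} {ν : Qf a b ℤ} {Z : W1 ν → Fin 2 → ℂ}
    (hZ : Z ∈ Z1C (W1 ν).subtype) {r₀ r₁ : ℂ}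
    (hU : ∀ (t : Qf a b ℤ) (h : eU t ∈ W1 ν), Z ⟨_, h⟩ =
      ![r₀ * iC a b t + r₁ * conj (iC a b t), 0]) (t : Qf a b ℤ) (x : W1 ν) :
    Z (⟨_, Ssd1_memU ν t⟩ * x) = Ssd1_U r₀ r₁ (iC a b t) (conj (iC a b t)) (Z x) := by
  rw [hZ, hU]
  have h : iG a b ((W1 ν).subtype ⟨_, Ssd1_memU ν t⟩) = eU (iC a b t) := by
    show SLm (iC a b) (eU t) = _
    rw [eU_map]
  rw [h]
  have h2 : (eU (iC a b t) : SL2 ℂ).val.mulVec (Z x) = ![Z x 0 + iC a b t * Z x 1, Z x 1] := by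
    show (!![1, iC a b t; 0, 1] : Matrix (Fin 2) (Fin 2) ℂ).mulVec (Z x) = _
    ext i
    fin_cases i <;> simp [Matrix.mulVec, dotProduct, Fin.sum_univ_two]
  rw [h2]
  unfold Ssd1_U
  ext i
  fin_cases i <;> simp

private theorem Ssd1_mulV {a b : ℤ} {ν : Qf a b ℤ} {Z : W1 ν → Fin 2 → ℂ}
    (hZ : Z ∈ Z1C (W1 ν).subtype) {s₀ s₁ : ℂ}
    (hV : ∀ (c : Qf a b ℤ) (h : eV c ∈ W1 ν), Z ⟨_, h⟩ =
      ![iC a b c, iC a b c ^ 2 / 2 + s₀ * iC a b c + s₁ * conj (iC a b c)])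
    (c : Qf a b ℤ) (hc : ν ∣ c) (x : W1 ν) :
    Z (⟨_, Ssd1_memV hc⟩ * x) = Ssd1_V s₀ s₁ (iC a b c) (conj (iC a b c)) (Z x) := by
  rw [hZ, hV]
  have h : iG a b ((W1 ν).subtype ⟨_, Ssd1_memV hc⟩) = eV (iC a b c) := by
    show SLm (iC a b) (eV c) = _
    rw [eV_map]
  rw [h]
  have h2 : (eV (iC a b c) : SL2 ℂ).val.mulVec (Z x) = ![Z x 0, iC a b c * Z x 0 + Z x 1] := by
    show (!![1, 0; iC a b c, 1] : Matrix (Fin 2) (Fin 2) ℂ).mulVec (Z x) = _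
    ext i
    fin_cases i <;> simp [Matrix.mulVec, dotProduct, Fin.sum_univ_two]
  rw [h2]
  unfold Ssd1_V
  ext i
  fin_cases i <;> simp

private theorem Ssd1_six {a b : ℤ} {ν : Qf a b ℤ} {Z : W1 ν → Fin 2 → ℂ}
    (hZ : Z ∈ Z1C (W1 ν).subtype) {r₀ r₁ s₀ s₁ : ℂ}
    (hU : ∀ (t : Qf a b ℤ) (h : eU t ∈ W1 ν), Z ⟨_, h⟩ =
      ![r₀ * iC a b t + r₁ * conj (iC a b t), 0])
    (hV : ∀ (c : Qf a b ℤ) (h : eV c ∈ W1 ν), Z ⟨_, h⟩ =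
      ![iC a b c, iC a b c ^ 2 / 2 + s₀ * iC a b c + s₁ * conj (iC a b c)])
    (t₁ c₁ t₂ c₂ t₃ c₃ : Qf a b ℤ) (h₁ : ν ∣ c₁) (h₂ : ν ∣ c₂) (h₃ : ν ∣ c₃)
    (h : (eU t₁ * (eV c₁ * (eU t₂ * (eV c₂ * (eU t₃ * (eV c₃ * 1))))) : GQ a b) = 1) :
    Ssd1_U r₀ r₁ (iC a b t₁) (conj (iC a b t₁)) (Ssd1_V s₀ s₁ (iC a b c₁) (conj (iC a b c₁))
      (Ssd1_U r₀ r₁ (iC a b t₂) (conj (iC a b t₂)) (Ssd1_V s₀ s₁ (iC a b c₂) (conj (iC a b c₂))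
      (Ssd1_U r₀ r₁ (iC a b t₃) (conj (iC a b t₃)) (Ssd1_V s₀ s₁ (iC a b c₃) (conj (iC a b c₃))
        0))))) = 0 := by
  have h4 : (⟨_, Ssd1_memU ν t₁⟩ * (⟨_, Ssd1_memV h₁⟩ * (⟨_, Ssd1_memU ν t₂⟩ *
      (⟨_, Ssd1_memV h₂⟩ * (⟨_, Ssd1_memU ν t₃⟩ * (⟨_, Ssd1_memV h₃⟩ * 1))))) : W1 ν) = 1 :=
    Subtype.ext h
  rw [← Ssd1_one hZ, ← Ssd1_mulV hZ hV c₃ h₃, ← Ssd1_mulU hZ hU, ← Ssd1_mulV hZ hV c₂ h₂,
    ← Ssd1_mulU hZ hU, ← Ssd1_mulV hZ hV c₁ h₁, ← Ssd1_mulU hZ hU, h4]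

/-! ### Units -/

private theorem Ssd1_unit {a b : ℤ} (hn : b ^ 2 + 4 * a < 0) {u : Qf a b ℤ} (hu : IsUnit u) :
    nq u = 1 := by
  obtain ⟨v, hv⟩ := hu.exists_right_inv
  have h1 : nq u * nq v = 1 := by
    rw [← nq_mul, hv]
    unfold nq
    simp
  have h2 := nq_nonneg hn u
  have h3 := nq_nonneg hn v
  exact Int.eq_one_or_neg_one_of_mul_eq_one h1 |>.resolve_right (by omega)

private theorem Ssd1_sub {a b : ℤ} (hn : b ^ 2 + 4 * a < 0) {u u' : Qf a b ℤ} (hu : IsUnit u)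
    (hu' : IsUnit u') : nq (u - u') ≤ 4 := by
  have h1 := Ssd1_unit hn hu
  have h2 := Ssd1_unit hn hu'
  have h3 := nq_nonneg hn (u + u')
  have h4 : nq (u - u') + nq (u + u') = 2 * nq u + 2 * nq u' := by
    unfold nq
    simp only [QuadraticAlgebra.re_sub, QuadraticAlgebra.im_sub, QuadraticAlgebra.re_add,
      QuadraticAlgebra.im_add]
    ring
  omega

/-- the case of a norm greater than four -/
private theorem Ssd1_big {a b : ℤ} (hn : b ^ 2 + 4 * a < 0) {ν : Qf a b ℤ} (hν : 4 < nq ν)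
    (u u' : Qf a b ℤ) (hu : IsUnit u) (hu' : IsUnit u') (h : ν ∣ u - u') : u = u' := by
  obtain ⟨x, hx⟩ := h
  have h1 := Ssd1_sub hn hu hu'
  rw [hx, nq_mul] at h1
  have h2 := nq_nonneg hn x
  have h3 : nq x = 0 := by nlinarith
  rw [nq_eq_zero hn h3, mul_zero] at hx
  exact sub_eq_zero.1 hx

/-! ### The conclusion -/

private theorem Ssd1_fin {a b : ℤ} (hn : b ^ 2 + 4 * a < 0) (h0 : S_sd0) (hE : Eu a b)
    (hP : IsPrincipalIdealRing (Qf a b ℤ)) (hC : CgF a b) (M₀ : ℕ) (hM : M₀ ≠ 0)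
    (hL : LD a b M₀) (ν : Qf a b ℤ) (hν : 1 < nq ν)
    (hu : ∀ u u' : Qf a b ℤ, IsUnit u → IsUnit u' → ν ∣ u - u' → u = u')
    (t₁ c₁ t₂ c₂ t₃ c₃ : Qf a b ℤ) (h₁ : ν ∣ c₁) (h₂ : ν ∣ c₂) (h₃ : ν ∣ c₃)
    (h : (eU t₁ * (eV c₁ * (eU t₂ * (eV c₂ * (eU t₃ * (eV c₃ * 1))))) : GQ a b) = 1)
    (hr : ∀ r₀ s₀ s₁ : ℂ, Ssd1_U r₀ 0 (iC a b t₁) (conj (iC a b t₁))
      (Ssd1_V s₀ s₁ (iC a b c₁) (conj (iC a b c₁))
      (Ssd1_U r₀ 0 (iC a b t₂) (conj (iC a b t₂)) (Ssd1_V s₀ s₁ (iC a b c₂) (conj (iC a b c₂))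
      (Ssd1_U r₀ 0 (iC a b t₃) (conj (iC a b t₃)) (Ssd1_V s₀ s₁ (iC a b c₃) (conj (iC a b c₃))
        0))))) ≠ 0) : PA a b 1 := by
  have hν0 : ν ≠ 0 := by
    rintro rfl
    unfold nq at hν
    simp at hν
  have hν1 : ¬ IsUnit ν := fun h => by
    have := Ssd1_unit hn h
    omega
  obtain ⟨N, F, r₀, r₁, s₀, s₁, hN, hF, hS, Z, hZ, hU, hV⟩ := h0 a b hn hE hP hC M₀ hM hL ν hν0 hν1 hu
  refine ⟨N, F, r₁, hN, hF, fun e _ _ => isCoprime_one_right, hS, ?_⟩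
  rintro rfl
  exact hr r₀ s₀ s₁ (Ssd1_six hZ hU hV t₁ c₁ t₂ c₂ t₃ c₃ h₁ h₂ h₃ h)

private theorem Ssd1_conj {a b : ℤ} (hn : b ^ 2 + 4 * a < 0) :
    conj (wC a b) = (b : ℂ) - wC a b := by
  rw [wC_eq hn]
  simp only [map_add, map_mul, Complex.conj_ofReal, Complex.conj_I]
  push_cast
  ring

private theorem Ssd1_conj2 {a b : ℤ} (hn : b ^ 2 + 4 * a < 0) (z : Qf a b ℤ) :
    conj (iC a b z) = (z.re : ℂ) + (z.im : ℂ) * ((b : ℂ) - wC a b) := by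
  rw [iC_apply, map_add, map_mul, map_intCast, map_intCast, Ssd1_conj hn]

/-- the first case -/
private theorem Ssd1_one_case (h0 : S_sd0) (hE : Eu (-1) 0)
    (hP : IsPrincipalIdealRing (Qf (-1) 0 ℤ)) (hC : CgF (-1) 0) (M₀ : ℕ) (hM : M₀ ≠ 0)
    (hL : LD (-1) 0 M₀) : PA (-1) 0 1 := by
  have hn : (0 : ℤ) ^ 2 + 4 * (-1) < 0 := by norm_num
  have hν : nq (⟨2, -1⟩ : Qf (-1) 0 ℤ) = 5 := by rfl
  refine Ssd1_fin hn h0 hE hP hC M₀ hM hL ⟨2, -1⟩ (by rw [hν]; norm_num)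
    (Ssd1_big hn (by rw [hν]; norm_num)) ⟨-1, 0⟩ ⟨1, 2⟩ ⟨0, 1⟩ ⟨1, 2⟩ ⟨-1, 0⟩ ⟨2, -1⟩
    ⟨⟨0, 1⟩, by rfl⟩ ⟨⟨0, 1⟩, by rfl⟩ ⟨1, by rfl⟩ ?_ ?_
  · apply Subtype.ext
    ext i j <;> fin_cases i <;> fin_cases j <;> rfl
  · intro r₀ s₀ s₁ h
    have h1 := congrFun h 0
    have hW := wC_mul (-1) 0
    have hi := wC_im hn
    simp only [Ssd1_U, Ssd1_V, Matrix.cons_val_zero, Matrix.cons_val_one, Pi.zero_apply,
      Ssd1_conj2 hn] at h1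
    simp only [iC_apply] at h1
    set W := wC (-1) 0
    push_cast at h1 hW
    have h2 : W = 7 := by
      linear_combination (-1) * h1 + ((-9 - 2 * s₀ - 2 * s₁)
        + (-2 + 4 * s₀ + 12 * s₁ + 4 * r₀) * W + (-8 - 4 * s₀ + 4 * s₁) * W ^ 2
        + 2 * W ^ 3) * hW
    rw [h2] at hi
    simp at hi

/-- the second case -/
private theorem Ssd1_two_case (h0 : S_sd0) (hE : Eu (-2) 0)
    (hP : IsPrincipalIdealRing (Qf (-2) 0 ℤ)) (hC : CgF (-2) 0) (M₀ : ℕ) (hM : M₀ ≠ 0)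
    (hL : LD (-2) 0 M₀) : PA (-2) 0 1 := by
  have hn : (0 : ℤ) ^ 2 + 4 * (-2) < 0 := by norm_num
  have hν : nq (⟨1, -1⟩ : Qf (-2) 0 ℤ) = 3 := by rfl
  refine Ssd1_fin hn h0 hE hP hC M₀ hM hL ⟨1, -1⟩ (by rw [hν]; norm_num)
    ?_ ⟨-1, 0⟩ ⟨1, -1⟩ ⟨0, -1⟩ ⟨1, -1⟩ ⟨-1, 0⟩ ⟨2, 1⟩
    ⟨1, by rfl⟩ ⟨1, by rfl⟩ ⟨⟨0, 1⟩, by rfl⟩ ?_ ?_
  · intro u u' hu hu' h
    have key : ∀ v : Qf (-2) 0 ℤ, IsUnit v → v.im = 0 ∧ (v.re = 1 ∨ v.re = -1) := by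
      intro v hv
      have h1 := Ssd1_unit hn hv
      unfold nq at h1
      simp only [Int.cast_id] at h1
      have h2 : v.im = 0 := by
        have h3 : v.im ^ 2 < 1 := by nlinarith [sq_nonneg v.re]
        have h4 : v.im ^ 2 = 0 := le_antisymm (by omega) (sq_nonneg _)
        exact pow_eq_zero_iff two_ne_zero |>.1 h4
      refine ⟨h2, ?_⟩
      rw [h2] at h1
      have h3 : (v.re - 1) * (v.re + 1) = 0 := by linear_combination h1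
      rcases mul_eq_zero.1 h3 with h4 | h4
      · left; omega
      · right; omega
    obtain ⟨x, hx⟩ := h
    have h1 := congrArg nq hx
    rw [nq_mul, hν] at h1
    obtain ⟨h2, h3⟩ := key u hu
    obtain ⟨h4, h5⟩ := key u' hu'
    have h6 : nq (u - u') = (u.re - u'.re) ^ 2 := by
      unfold nq
      rw [QuadraticAlgebra.re_sub, QuadraticAlgebra.im_sub, h2, h4]
      simp
    rw [h6] at h1
    rcases h3 with h3 | h3 <;> rcases h5 with h5 | h5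
    · exact QuadraticAlgebra.ext (by rw [h3, h5]) (by rw [h2, h4])
    · rw [h3, h5] at h1
      omega
    · rw [h3, h5] at h1
      omega
    · exact QuadraticAlgebra.ext (by rw [h3, h5]) (by rw [h2, h4])
  · apply Subtype.ext
    ext i j <;> fin_cases i <;> fin_cases j <;> rfl
  · intro r₀ s₀ s₁ h
    have h1 := congrFun h 0
    have hW := wC_mul (-2) 0
    have hi := wC_im hn
    simp only [Ssd1_U, Ssd1_V, Matrix.cons_val_zero, Matrix.cons_val_one, Pi.zero_apply,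
      Ssd1_conj2 hn] at h1
    simp only [iC_apply] at h1
    set W := wC (-2) 0
    push_cast at h1 hW
    have h2 : W = -5 := by
      linear_combination h1 - ((-7 / 2 - s₀ - s₁)
        + (- s₀ - 3 * s₁ - r₀) * W + (-3 / 2 - s₀ + s₁) * W ^ 2
        - 1 / 2 * W ^ 3) * hW
    rw [h2] at hi
    simp at hi

/-- the third case -/
private theorem Ssd1_three_case (h0 : S_sd0) (hE : Eu (-1) (-1))
    (hP : IsPrincipalIdealRing (Qf (-1) (-1) ℤ)) (hC : CgF (-1) (-1)) (M₀ : ℕ) (hM : M₀ ≠ 0)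
    (hL : LD (-1) (-1) M₀) : PA (-1) (-1) 1 := by
  have hn : (-1 : ℤ) ^ 2 + 4 * (-1) < 0 := by norm_num
  have hν : nq (⟨2, -1⟩ : Qf (-1) (-1) ℤ) = 7 := by rfl
  refine Ssd1_fin hn h0 hE hP hC M₀ hM hL ⟨2, -1⟩ (by rw [hν]; norm_num)
    (Ssd1_big hn (by rw [hν]; norm_num)) ⟨-1, 0⟩ ⟨3, 2⟩ ⟨0, 1⟩ ⟨3, 2⟩ ⟨-1, 0⟩ ⟨2, -1⟩
    ⟨⟨1, 1⟩, by rfl⟩ ⟨⟨1, 1⟩, by rfl⟩ ⟨1, by rfl⟩ ?_ ?_
  · apply Subtype.ext
    ext i j <;> fin_cases i <;> fin_cases j <;> rfl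
  · intro r₀ s₀ s₁ h
    have h1 := congrFun h 0
    have hW := wC_mul (-1) (-1)
    have hi := wC_im hn
    simp only [Ssd1_U, Ssd1_V, Matrix.cons_val_zero, Matrix.cons_val_one, Pi.zero_apply,
      Ssd1_conj2 hn] at h1
    simp only [iC_apply] at h1
    set W := wC (-1) (-1)
    push_cast at h1 hW
    have h2 : W = ((3 / 5 : ℝ) : ℂ) := by
      push_cast
      linear_combination (-1 / 5) * h1 + 1 / 5 * ((-17 + 2 * s₀ + 10 * s₁ + 4 * r₀)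
        + (-14 + 20 * s₁ + 4 * r₀) * W + (-6 - 4 * s₀ + 4 * s₁) * W ^ 2
        + 2 * W ^ 3) * hW
    rw [h2, Complex.ofReal_im] at hi
    exact lt_irrefl _ hi

/-- [CG S sd1] the seeds for `d = 1, 2, 3` -/
theorem p_Ssd1 (h0 : S_sd0) : S_sd1 := by
  rintro a b (⟨rfl, rfl⟩ | ⟨rfl, rfl⟩ | ⟨rfl, rfl⟩) hE hP hC M₀ hM hL
  · exact Ssd1_one_case h0 hE hP hC M₀ hM hL
  · exact Ssd1_two_case h0 hE hP hC M₀ hM hL
  · exact Ssd1_three_case h0 hE hP hC M₀ hM hL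

end

end Pool.Agent.F8.CG
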