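import Pool.Agent.Lib.MP_305fdd_al.F8.CG.StmS3
import Pool.Agent.Lib.MP_305fdd_al.F8.CG.P_Vtv

/-!
# MP_305fdd_al, congruence subgroups, piece Svd: basic facts about corresponding elements
-/

set_option autoImplicit false

namespace Pool.Agent.F8.CG

open Pool.Agent.F8.BG Pool.Agent.MP_305fdd_al Pool.Agent.Lib.MP_305fdd_al Pool.Agent.F8
open scoped QuadraticAlgebra

noncomputable section

variable {a b : ℤ} {m : ℕ}

private theorem Svd_mv {R : Type} [CommRing R] (g : Matrix (Fin 2) (Fin 2) R) (e : Fin 2 → R)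
    (i : Fin 2) : g.mulVec e i = g i 0 * e 0 + g i 1 * e 1 := by
  rw [Matrix.mulVec, dotProduct, Fin.sum_univ_two]

/-- the reduction from `n` to `n'` -/
private theorem Svd_q (a b : ℤ) (n n' : ℕ) (h : n' ∣ n) :
    ∃ q : Qf a b (ZMod n) →+* Qf a b (ZMod n'), (SLm q).comp (rdq a b n) = rdq a b n' := by
  refine ⟨Qfm a b (ZMod.castHom h (ZMod n')), ?_⟩
  refine MonoidHom.ext fun x => Subtype.ext (Matrix.ext fun i j => ?_)
  show Qfm a b (ZMod.castHom h (ZMod n')) (Qfm a b (Int.castRingHom (ZMod n)) (x.val i j)) =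
    Qfm a b (Int.castRingHom (ZMod n')) (x.val i j)
  rw [Qfm_apply, Qfm_apply, Qfm_apply]
  apply QuadraticAlgebra.ext
  · show ZMod.castHom _ (ZMod n') (Int.castRingHom (ZMod n) _) = _
    simp
  · show ZMod.castHom _ (ZMod n') (Int.castRingHom (ZMod n) _) = _
    simp

/-- naturality for the reduction from `n` to `n'` -/
private theorem Svd_nat (Ψ : NatBij (Gam a b m) (Gam a b m)) (n n' : ℕ) [NeZero n] [NeZero n']
    (h : n' ∣ n) : ∃ q : Qf a b (ZMod n) →+* Qf a b (ZMod n'),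
    (∀ x, SLm q (rdq a b n x) = rdq a b n' x) ∧
    ∀ x, SLm q (Ψ.toFun _ ((rdq a b n).comp (Gam a b m).subtype) x) =
      Ψ.toFun _ ((rdq a b n').comp (Gam a b m).subtype) x := by
  obtain ⟨q, hq⟩ := Svd_q a b n n' h
  refine ⟨q, fun x => DFunLike.congr_fun hq x, fun x => ?_⟩
  have h4 := Ψ.nat (SLm q) ((rdq a b n).comp (Gam a b m).subtype)
  rw [← MonoidHom.comp_assoc, hq] at h4
  exact (DFunLike.congr_fun h4 x).symm

/-- equal reductions -/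
private theorem Svd_dvd (a b : ℤ) (n : ℕ) (x y : GQ a b) (h : rdq a b n x = rdq a b n y)
    (i j : Fin 2) : (n : Qf a b ℤ) ∣ x.val i j - y.val i j := by
  apply BG.E_ker a b n
  rw [map_sub, sub_eq_zero]
  exact congrArg (fun g : SL2 (Qf a b (ZMod n)) => g.val i j) h

private theorem Svd_gdm (Ψ : NatBij (Gam a b m) (Gam a b m)) (n n' : ℕ) [NeZero n] [NeZero n']
    (h : GQ a b) (hd : n' ∣ n) (hg : Gd Ψ n h) : Gd Ψ n' h := by
  obtain ⟨q, hq, hq'⟩ := Svd_nat Ψ n n' hd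
  intro x
  rw [← hq, ← hq', ← hq, ← map_inv, ← map_mul, ← map_mul]
  exact congrArg _ (hg x)

private theorem Svd_rfd (Ψ : NatBij (Gam a b m) (Gam a b m)) (Q : Type) [Group Q] [Finite Q]
    (θ : Gam a b m →* Q) (n n' : ℕ) [NeZero n] [NeZero n'] (hd : n' ∣ n) (hr : RfN Ψ θ n) :
    RfN Ψ θ n' := by
  obtain ⟨q, hq, hq'⟩ := Svd_nat Ψ n n' hd
  intro x y hxy
  rw [← hq, ← hq']
  exact congrArg _ (hr x y hxy)

private theorem Svd_vdm (Ψ : NatBij (Gam a b m) (Gam a b m)) (Q : Type) [Group Q] [Finite Q]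
    (θ : Gam a b m →* Q) (T T' : ℕ) (e e' : Fin 2 → Qf a b ℤ) (hT : T ∣ T')
    (h : VD Ψ θ T e e') : VD Ψ θ T' e e' := by
  obtain ⟨c, rfl⟩ := hT
  obtain ⟨h1, h2, h3, h4⟩ := h
  refine ⟨h1, h2, h3.trans (Dvd.intro c rfl), fun t => ?_⟩
  have h5 : ∀ f : Fin 2 → Qf a b ℤ, uD m (h3.trans (Dvd.intro c rfl) : m ∣ T * c) f t =
      uD m h3 f ((c : Qf a b ℤ) * t) := by
    intro f
    apply Subtype.ext
    show tv f (((T * c : ℕ) : Qf a b ℤ) * t) = tv f ((T : Qf a b ℤ) * ((c : Qf a b ℤ) * t))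
    rw [Nat.cast_mul, mul_assoc]
  rw [h5, h5]
  exact h4 _

private theorem Svd_vdu (H : CgF a b) (Ψ : NatBij (Gam a b m) (Gam a b m)) (Q : Type) [Group Q]
    [Finite Q] (θ : Gam a b m →* Q) (T : ℕ) (e e' : Fin 2 → Qf a b ℤ) (u : Qf a b ℤ)
    (hu : IsUnit u) (h : VD Ψ θ T e e') : VD Ψ θ T (u • e) (u • e') := by
  obtain ⟨h1, h2, h3, h4⟩ := h
  refine ⟨H.unit u e hu h1, H.unit u e' hu h2, h3, fun t => ?_⟩
  have h5 : ∀ f : Fin 2 → Qf a b ℤ, uD m h3 (u • f) t = uD m h3 f (u ^ 2 * t) := by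
    intro f
    apply Subtype.ext
    show tv (u • f) ((T : Qf a b ℤ) * t) = tv f ((T : Qf a b ℤ) * (u ^ 2 * t))
    rw [(p_Vtv _ f 0 ((T : Qf a b ℤ) * t)).2.2.2.1 u]
    congr 1
    ring
  rw [h5, h5]
  exact h4 _

private theorem Svd_vdc (H : CgF a b) (Ψ : NatBij (Gam a b m) (Gam a b m)) (Q : Type) [Group Q]
    [Finite Q] (θ : Gam a b m →* Q) (T : ℕ) (e e' : Fin 2 → Qf a b ℤ) (w w' : Gam a b m)
    (hw : θ w = Ψ.toFun Q θ w') (h : VD Ψ θ T e e') :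
    VD Ψ θ T (w.val.val.mulVec e) (w'.val.val.mulVec e') := by
  obtain ⟨h1, h2, h3, h4⟩ := h
  refine ⟨H.act w.val e h1, H.act w'.val e' h2, h3, fun t => ?_⟩
  have h5 : ∀ (x : Gam a b m) (f : Fin 2 → Qf a b ℤ), uD m h3 (x.val.val.mulVec f) t =
      x * uD m h3 f t * x⁻¹ := by
    intro x f
    apply Subtype.ext
    show tv (x.val.val.mulVec f) ((T : Qf a b ℤ) * t) =
      x.val * tv f ((T : Qf a b ℤ) * t) * (x.val)⁻¹
    exact ((p_Vtv _ f 0 ((T : Qf a b ℤ) * t)).2.2.1 x.val).symm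
  rw [h5, h5, map_mul, map_mul, map_inv, map_mul, map_mul, map_inv, h4, hw]

private theorem Svd_gd (Ψ : NatBij (Gam a b m) (Gam a b m)) (Q : Type) [Group Q] [Finite Q]
    (θ : Gam a b m →* Q) (n : ℕ) [NeZero n] (h : GQ a b) (w w' : Gam a b m)
    (hr : RfN Ψ θ n) (hg : Gd Ψ n h) (hw : θ w = Ψ.toFun Q θ w') :
    rdq a b n w' = rdq a b n (h * w * h⁻¹) := by
  rw [hg w', ← hr w w' hw, map_mul, map_mul, map_inv]

private theorem Svd_mu (hn : b ^ 2 + 4 * a < 0) (H : CgF a b)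
    (Ψ : NatBij (Gam a b m) (Gam a b m)) (Q : Type) [Group Q] [Finite Q]
    (θ : Gam a b m →* Q) (T k n : ℕ) [NeZero n] (h : GQ a b) (e e' : Fin 2 → Qf a b ℤ)
    (hd : k * T ∣ n) (hr : RfN Ψ θ n) (hg : Gd Ψ n h) (hv : VD Ψ θ T e e') :
    ∃ μ : Qf a b ℤ, Cgr k (h.val.mulVec e) (μ • e') ∧ (k : Qf a b ℤ) ∣ μ ^ 2 - 1 := by
  have hdom : IsDomain (Qf a b ℤ) := Qf_domain hn
  obtain ⟨h1, h2, h3, h4⟩ := hv
  have h5 := Svd_gd Ψ Q θ n h _ _ hr hg (h4 1)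
  obtain ⟨f, hf⟩ : ∃ f, f = h.val.mulVec e := ⟨_, rfl⟩
  have h6 : h * (uD m h3 e 1).val * h⁻¹ = tv f ((T : Qf a b ℤ) * 1) := by
    rw [hf]
    exact (p_Vtv _ e 0 ((T : Qf a b ℤ) * 1)).2.2.1 h
  rw [h6] at h5
  have hT : T ≠ 0 := by
    rintro rfl
    rw [mul_zero] at hd
    exact NeZero.ne n (Nat.eq_zero_of_zero_dvd hd)
  have hTR : (T : Qf a b ℤ) ≠ 0 := by exact_mod_cast hT
  have hcan : ∀ x : Qf a b ℤ, (n : Qf a b ℤ) ∣ (T : Qf a b ℤ) * x → (k : Qf a b ℤ) ∣ x := by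
    intro x hx
    have h7 : ((k * T : ℕ) : Qf a b ℤ) ∣ (T : Qf a b ℤ) * x := (Nat.cast_dvd_cast hd).trans hx
    obtain ⟨c, hc⟩ := h7
    refine ⟨c, mul_left_cancel₀ hTR ?_⟩
    rw [hc]
    push_cast
    ring
  have e01 : (k : Qf a b ℤ) ∣ f 0 * f 1 - e' 0 * e' 1 := by
    apply hcan
    have h7 := Svd_dvd a b n _ _ h5 0 0
    have h8 : (uD m h3 e' 1).val.val 0 0 - (tv f ((T : Qf a b ℤ) * 1)).val 0 0 =
      (T : Qf a b ℤ) * (f 0 * f 1 - e' 0 * e' 1) := by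
      show (1 - (T : Qf a b ℤ) * 1 * e' 0 * e' 1) - (1 - (T : Qf a b ℤ) * 1 * f 0 * f 1) = _
      ring
    rwa [h8] at h7
  have e00 : (k : Qf a b ℤ) ∣ f 0 ^ 2 - e' 0 ^ 2 := by
    apply hcan
    have h7 := Svd_dvd a b n _ _ h5 0 1
    have h8 : (uD m h3 e' 1).val.val 0 1 - (tv f ((T : Qf a b ℤ) * 1)).val 0 1 =
      -((T : Qf a b ℤ) * (f 0 ^ 2 - e' 0 ^ 2)) := by
      show (T : Qf a b ℤ) * 1 * e' 0 ^ 2 - (T : Qf a b ℤ) * 1 * f 0 ^ 2 = _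
      ring
    rw [h8] at h7
    exact (dvd_neg).1 h7
  have e11 : (k : Qf a b ℤ) ∣ f 1 ^ 2 - e' 1 ^ 2 := by
    apply hcan
    have h7 := Svd_dvd a b n _ _ h5 1 0
    have h8 : (uD m h3 e' 1).val.val 1 0 - (tv f ((T : Qf a b ℤ) * 1)).val 1 0 =
      (T : Qf a b ℤ) * (f 1 ^ 2 - e' 1 ^ 2) := by
      show -((T : Qf a b ℤ) * 1 * e' 1 ^ 2) - -((T : Qf a b ℤ) * 1 * f 1 ^ 2) = _
      ring
    rwa [h8] at h7
  obtain ⟨A, hA⟩ := e01
  obtain ⟨B, hB⟩ := e00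
  obtain ⟨C, hC⟩ := e11
  have hfp : Prm f := by
    rw [hf]
    exact H.act h e h1
  obtain ⟨γ, δ, hγ⟩ := (H.cop f).1 hfp
  refine ⟨γ * e' 0 + δ * e' 1, ?_, ?_⟩
  · rw [← hf]
    intro i
    fin_cases i
    · refine ⟨γ * B + δ * A, ?_⟩
      show f 0 - (γ * e' 0 + δ * e' 1) * e' 0 = _
      linear_combination (-f 0) * hγ + γ * hB + δ * hA
    · refine ⟨γ * A + δ * C, ?_⟩
      show f 1 - (γ * e' 0 + δ * e' 1) * e' 1 = _
      linear_combination (-f 1) * hγ + γ * hA + δ * hC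
  · refine ⟨-(γ ^ 2 * B + 2 * γ * δ * A + δ ^ 2 * C), ?_⟩
    linear_combination (γ * f 0 + δ * f 1 + 1) * hγ - γ ^ 2 * hB - 2 * γ * δ * hA - δ ^ 2 * hC

private theorem Svd_cj (Ψ : NatBij (Gam a b m) (Gam a b m)) (Q : Type) [Group Q] [Finite Q]
    (θ : Gam a b m →* Q) (n : ℕ) [NeZero n] (h : GQ a b) (w w' : Gam a b m)
    (v : Fin 2 → Qf a b ℤ) (hr : RfN Ψ θ n) (hg : Gd Ψ n h) (hw : θ w = Ψ.toFun Q θ w') :
    Cgr n (h.val.mulVec (w.val.val.mulVec v)) (w'.val.val.mulVec (h.val.mulVec v)) := by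
  have h1 := Svd_gd Ψ Q θ n h w w' hr hg hw
  have h2 : rdq a b n (h * w) = rdq a b n (w' * h) := by
    rw [map_mul (rdq a b n) (w' : GQ a b) h, h1, ← map_mul, inv_mul_cancel_right]
  intro i
  obtain ⟨c, hc⟩ := Svd_dvd a b n _ _ h2 i 0
  obtain ⟨d, hd⟩ := Svd_dvd a b n _ _ h2 i 1
  rw [Matrix.mulVec_mulVec, Matrix.mulVec_mulVec, Svd_mv, Svd_mv]
  refine ⟨c * v 0 + d * v 1, ?_⟩
  have hc' : (h.val * w.val.val) i 0 - (w'.val.val * h.val) i 0 = (n : Qf a b ℤ) * c := hc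
  have hd' : (h.val * w.val.val) i 1 - (w'.val.val * h.val) i 1 = (n : Qf a b ℤ) * d := hd
  linear_combination v 0 * hc' + v 1 * hd'

theorem p_Svd : S_vd := by
  intro a b m hn H
  refine ⟨?_, ?_, ?_, ?_, ?_, ?_, ?_, ?_, ?_, ?_⟩
  · intro Ψ n n' _ _ h hd hg
    exact Svd_gdm Ψ n n' h hd hg
  · intro Ψ n _ x y h
    exact h
  · intro Ψ Q _ _ θ n n' _ _ hd hr
    exact Svd_rfd Ψ Q θ n n' hd hr
  · intro Ψ Q Q' _ _ _ _ θ θ' n _ hr x y hxy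
    rw [pair_prod] at hxy
    rcases hr with hr | hr
    · exact hr x y (congrArg Prod.fst hxy)
    · exact hr x y (congrArg Prod.snd hxy)
  · intro Ψ Q Q' _ _ _ _ θ θ' T e e' h
    obtain ⟨h1, h2, h3, h4⟩ := h
    refine ⟨⟨h1, h2, h3, fun t => ?_⟩, ⟨h1, h2, h3, fun t => ?_⟩⟩
    · have h5 := h4 t
      rw [pair_prod] at h5
      exact congrArg Prod.fst h5
    · have h5 := h4 t
      rw [pair_prod] at h5
      exact congrArg Prod.snd h5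
  · intro Ψ Q _ _ θ T T' e e' hT h
    exact Svd_vdm Ψ Q θ T T' e e' hT h
  · intro Ψ Q _ _ θ T e e' u hu h
    exact Svd_vdu H Ψ Q θ T e e' u hu h
  · intro Ψ Q _ _ θ T e e' w w' hw h
    exact Svd_vdc H Ψ Q θ T e e' w w' hw h
  · intro Ψ Q _ _ θ T k n _ h e e' hd hr hg hv
    exact Svd_mu hn H Ψ Q θ T k n h e e' hd hr hg hv
  · intro Ψ Q _ _ θ n _ h w w' v hr hg hw
    exact Svd_cj Ψ Q θ n h w w' v hr hg hw

end

end Pool.Agent.F8.CG
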