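import Pool.Agent.Lib.MP_305fdd_al.F8.CG.StmTr

/-!
# MP_305fdd_al, congruence subgroups: piece [CG T_lh], limits of homomorphisms to `Q3`
-/

set_option autoImplicit false

namespace Pool.Agent.F8.CG

open Pool.Agent.MP_305fdd_al Pool.Agent.Lib.MP_305fdd_al Pool.Agent.F2X Pool.Agent.F8
  Pool.Agent.F8.NG.T

section

variable {m : ℕ} {R : Type} [CommRing R] {Rk : ℕ → Type} [∀ k, CommRing (Rk k)]
  {π : ∀ k, R →+* Rk k} {p : ∀ k, Rk (k + 1) →+* Rk k}

private theorem Tlh_inj (h : IsLim R Rk π p) {y z : R}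
    (hyz : ∀ k, π k y = π k z) : y = z := by
  obtain ⟨w, -, hw⟩ := h.2 (fun k => π k z) (fun k => by
    have := congrArg (fun f : R →+* Rk k => f z) (h.1 k)
    simpa using this)
  rw [hw y hyz, hw z (fun k => rfl)]

private theorem Tlh_GLinj (h : IsLim R Rk π p) {y z : GL (Fin m) R}
    (hyz : ∀ k, GLm (π k) y = GLm (π k) z) : y = z := by
  apply Units.ext
  ext i j
  apply Tlh_inj h
  intro k
  exact congrArg (fun q : GL (Fin m) (Rk k) => q.val i j) (hyz k)

private theorem Tlh_SLinj (h : IsLim R Rk π p) {y z : SL2 R}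
    (hyz : ∀ k, SLm (π k) y = SLm (π k) z) : y = z := by
  apply Subtype.ext
  ext i j
  apply Tlh_inj h
  intro k
  exact congrArg (fun q : SL2 (Rk k) => q.val i j) (hyz k)

private theorem Tlh_Qinj (h : IsLim R Rk π p) {y z : Q3 m R}
    (hyz : ∀ k, Q3.map (π k) y = Q3.map (π k) z) : y = z := by
  apply Q3.ext
  · exact Tlh_GLinj h fun k => congrArg (fun q : Q3 m (Rk k) => q.q) (hyz k)
  · exact Tlh_SLinj h fun k => congrArg (fun q : Q3 m (Rk k) => q.p) (hyz k)
  · ext i j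
    apply Tlh_inj h
    intro k
    exact congrArg (fun q : Q3 m (Rk k) => q.v i j) (hyz k)

private theorem Tlh_mat (h : IsLim R Rk π p) {a b : ℕ}
    (x : ∀ k, Matrix (Fin a) (Fin b) (Rk k)) (hx : ∀ k, (x (k + 1)).map (p k) = x k) :
    ∃ y : Matrix (Fin a) (Fin b) R, ∀ k, y.map (π k) = x k := by
  have hM : ∀ i j, ∃ m : R, ∀ k, π k m = x k i j := fun i j => by
    obtain ⟨m, hm, -⟩ := h.2 (fun k => x k i j)
      (fun k => congrArg (fun q : Matrix (Fin a) (Fin b) (Rk k) => q i j) (hx k))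
    exact ⟨m, hm⟩
  choose M hM using hM
  refine ⟨Matrix.of M, fun k => ?_⟩
  ext i j
  exact hM i j k

private theorem Tlh_matinj (h : IsLim R Rk π p) {a b : ℕ} {y z : Matrix (Fin a) (Fin b) R}
    (hyz : ∀ k, y.map (π k) = z.map (π k)) : y = z := by
  ext i j
  apply Tlh_inj h
  intro k
  exact congrArg (fun q : Matrix (Fin a) (Fin b) (Rk k) => q i j) (hyz k)

private theorem Tlh_Qex (h : IsLim R Rk π p)
    (x : ∀ k, Q3 m (Rk k)) (hx : ∀ k, Q3.map (p k) (x (k + 1)) = x k) :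
    ∃ y : Q3 m R, ∀ k, Q3.map (π k) y = x k := by
  obtain ⟨T, hT⟩ := Tlh_mat h (fun k => ((x k).q : Matrix (Fin m) (Fin m) (Rk k)))
    (fun k => congrArg (fun q : Q3 m (Rk k) => (q.q : Matrix (Fin m) (Fin m) (Rk k))) (hx k))
  obtain ⟨Ti, hTi⟩ := Tlh_mat h
    (fun k => (((x k).q⁻¹ : GL (Fin m) (Rk k)) : Matrix (Fin m) (Fin m) (Rk k)))
    (fun k => by
      have h1 := congrArg (fun q : Q3 m (Rk k) =>
        ((q.q⁻¹ : GL (Fin m) (Rk k)) : Matrix (Fin m) (Fin m) (Rk k))) (hx k)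
      have h2 : (GLm (p k) (x (k + 1)).q)⁻¹ = GLm (p k) ((x (k + 1)).q⁻¹) := (map_inv _ _).symm
      simp only [Q3.map_q] at h1
      rw [h2] at h1
      exact h1)
  obtain ⟨M, hM⟩ := Tlh_mat h (fun k => (x k).p.val)
    (fun k => congrArg (fun q : Q3 m (Rk k) => q.p.val) (hx k))
  obtain ⟨V, hV⟩ := Tlh_mat h (fun k => (x k).v)
    (fun k => congrArg (fun q : Q3 m (Rk k) => q.v) (hx k))
  have h1 : T * Ti = 1 := Tlh_matinj h fun k => by
    rw [Matrix.map_mul, hT, hTi, Matrix.map_one _ (map_zero _) (map_one _)]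
    exact Units.mul_inv _
  have h2 : Ti * T = 1 := Tlh_matinj h fun k => by
    rw [Matrix.map_mul, hT, hTi, Matrix.map_one _ (map_zero _) (map_one _)]
    exact Units.inv_mul _
  have hd : M.det = 1 := Tlh_inj h fun k => by
    have h3 : π k M.det = (M.map (π k)).det := RingHom.map_det (π k) M
    rw [h3, hM, map_one]
    exact (x k).p.property
  refine ⟨⟨⟨T, Ti, h1, h2⟩, ⟨M, hd⟩, V⟩, fun k => ?_⟩
  apply Q3.ext
  · apply Units.ext
    exact hT k
  · apply Subtype.ext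
    exact hM k
  · exact hV k

end

/-- [CG T_lh] limits of homomorphisms to `Q3` -/
theorem p_Tlh : T_lh := by
  intro m R _ Rk _ π p h
  refine ⟨?_, ?_, ?_⟩
  · intro G _ Θ hΘ
    have hex : ∀ g : G, ∃ y : Q3 m R, ∀ k, Q3.map (π k) y = Θ k g := fun g =>
      Tlh_Qex h (fun k => Θ k g) (fun k => by
        have := congrArg (fun f : G →* Q3 m (Rk k) => f g) (hΘ k)
        exact this)
    choose F hF using hex
    refine ⟨⟨⟨F, ?_⟩, ?_⟩, ?_⟩
    · apply Tlh_Qinj h
      intro k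
      rw [hF, map_one, map_one]
    · intro g g'
      apply Tlh_Qinj h
      intro k
      show Q3.map (π k) (F (g * g')) = Q3.map (π k) (F g * F g')
      rw [hF, map_mul, map_mul, hF, hF]
    · intro k
      ext1 g
      exact hF g k
  · intro G _ σ σ' hσ
    refine MonoidHom.ext fun g => Tlh_SLinj h fun k => ?_
    exact congrArg (fun f : G →* SL2 (Rk k) => f g) (hσ k)
  · intro G _ σ σ' hσ
    refine MonoidHom.ext fun g => Tlh_GLinj h fun k => ?_
    exact congrArg (fun f : G →* GL (Fin m) (Rk k) => f g) (hσ k)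

end Pool.Agent.F8.CG
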