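import Pool.Agent.Lib.MP_305fdd_al.F8.CG.StmU

/-!
# MP_305fdd_al, congruence subgroups, block U: piece Uext (the extension of a 2-cocycle)
-/

set_option autoImplicit false

namespace Pool.Agent.F8.CG

open Pool.Agent.F8.BG Pool.Agent.MP_305fdd_al Pool.Agent.Lib.MP_305fdd_al Pool.Agent.F8
open scoped QuadraticAlgebra ComplexConjugate

noncomputable section

/-- the elements of the extension -/
@[ext] structure Uext_E (V G : Type) where
  v : V
  g : G

theorem p_Uext : U_ext := by
  intro G K V _ _ _ _ σ c hc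
  have c1 : ∀ y, c 1 y = c 1 1 := by
    intro y
    have h := hc 1 1 y
    rw [map_one, one_mul, one_mul] at h
    have h1 : (1 : Module.End K V) (c 1 y) = c 1 y := rfl
    rw [h1, sub_self, zero_add] at h
    exact sub_eq_zero.1 h
  have c2 : ∀ x, σ x (c 1 1) = c x 1 := by
    intro x
    have h := hc x 1 1
    rw [mul_one, mul_one, sub_add_cancel] at h
    exact sub_eq_zero.1 h
  have s1 : ∀ w : V, σ 1 w = w := by
    intro w
    rw [map_one]
    rfl
  have sm : ∀ (x y : G) (w : V), σ (x * y) w = σ x (σ y w) := by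
    intro x y w
    rw [map_mul]
    rfl
  have hc' : ∀ x y z, c x y + c (x * y) z = σ x (c y z) + c x (y * z) := by
    intro x y z
    have h := hc x y z
    have h2 : σ x (c y z) + c x (y * z) - (c x y + c (x * y) z) = 0 := by
      rw [← h]; abel
    exact (sub_eq_zero.1 h2).symm
  letI iM : Mul (Uext_E V G) := ⟨fun u w => ⟨u.v + σ u.g w.v + c u.g w.g, u.g * w.g⟩⟩
  letI iO : One (Uext_E V G) := ⟨⟨-c 1 1, 1⟩⟩
  letI iI : Inv (Uext_E V G) := ⟨fun u => ⟨-c 1 1 - σ u.g⁻¹ u.v - c u.g⁻¹ u.g, u.g⁻¹⟩⟩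
  have mul_def : ∀ u w : Uext_E V G, u * w = ⟨u.v + σ u.g w.v + c u.g w.g, u.g * w.g⟩ :=
    fun _ _ => rfl
  have one_def : (1 : Uext_E V G) = ⟨-c 1 1, 1⟩ := rfl
  have inv_def : ∀ u : Uext_E V G, u⁻¹ = ⟨-c 1 1 - σ u.g⁻¹ u.v - c u.g⁻¹ u.g, u.g⁻¹⟩ :=
    fun _ => rfl
  letI iG' : Group (Uext_E V G) := Group.ofLeftAxioms
    (by
      intro u w z
      rw [mul_def, mul_def, mul_def, mul_def]
      ext
      · simp only [map_add]
        rw [sm]
        have h := hc' u.g w.g z.g
        calc u.v + σ u.g w.v + c u.g w.g + σ u.g (σ w.g z.v) + c (u.g * w.g) z.g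
            = u.v + σ u.g w.v + σ u.g (σ w.g z.v) + (c u.g w.g + c (u.g * w.g) z.g) := by abel
          _ = _ := by rw [h]; abel
      · exact mul_assoc _ _ _)
    (by
      intro u
      rw [mul_def, one_def]
      ext
      · show -c 1 1 + σ 1 u.v + c 1 u.g = u.v
        rw [s1, c1 u.g]
        abel
      · exact one_mul _)
    (by
      intro u
      rw [mul_def, inv_def, one_def]
      ext
      · show -c 1 1 - σ u.g⁻¹ u.v - c u.g⁻¹ u.g + σ u.g⁻¹ u.v + c u.g⁻¹ u.g = -c 1 1
        abel
      · exact inv_mul_cancel _)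
  have mul_def' : ∀ u w : Uext_E V G, u * w = ⟨u.v + σ u.g w.v + c u.g w.g, u.g * w.g⟩ :=
    fun _ _ => rfl
  have one_def' : (1 : Uext_E V G) = ⟨-c 1 1, 1⟩ := rfl
  let pr : Uext_E V G →* G :=
    { toFun := fun u => u.g
      map_one' := rfl
      map_mul' := fun _ _ => rfl }
  let j : Multiplicative V →* Uext_E V G :=
    { toFun := fun v => ⟨Multiplicative.toAdd v - c 1 1, 1⟩
      map_one' := by
        rw [one_def']
        ext
        · show (0 : V) - c 1 1 = -c 1 1
          rw [zero_sub]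
        · rfl
      map_mul' := by
        intro v w
        rw [mul_def']
        ext
        · show (Multiplicative.toAdd v + Multiplicative.toAdd w) - c 1 1 =
            Multiplicative.toAdd v - c 1 1 + σ 1 (Multiplicative.toAdd w - c 1 1) + c 1 1
          rw [s1]
          abel
        · exact (one_mul (1 : G)).symm }
  have j_def : ∀ v : V, j (Multiplicative.ofAdd v) = ⟨v - c 1 1, 1⟩ := fun _ => rfl
  have pr_def : ∀ u, pr u = u.g := fun _ => rfl
  refine ⟨Uext_E V G, iG', pr, j, fun x => ⟨0, x⟩, ?_, ?_, ?_, ?_, ?_, ?_⟩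
  · intro v w h
    have h1 : Multiplicative.toAdd v - c 1 1 = Multiplicative.toAdd w - c 1 1 :=
      congrArg Uext_E.v h
    exact Multiplicative.toAdd.injective (sub_left_injective h1)
  · intro u
    constructor
    · intro h
      refine ⟨Multiplicative.ofAdd (u.v + c 1 1), ?_⟩
      rw [j_def]
      ext
      · show u.v + c 1 1 - c 1 1 = u.v
        rw [add_sub_cancel_right]
      · exact h.symm
    · rintro ⟨v, rfl⟩
      rfl
  · intro x
    rfl
  · intro x y
    rw [mul_def', mul_def', j_def]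
    ext
    · show (0 : V) + σ x 0 + c x y = c x y - c 1 1 + σ 1 0 + c 1 (x * y)
      rw [map_zero, map_zero, c1 (x * y)]
      abel
    · show x * y = 1 * (x * y)
      rw [one_mul]
  · intro u v
    rw [mul_inv_eq_iff_eq_mul, mul_def', mul_def', j_def, j_def, pr_def]
    ext
    · show u.v + σ u.g (v - c 1 1) + c u.g 1 = σ u.g v - c 1 1 + σ 1 u.v + c 1 u.g
      rw [map_sub, c2, s1, c1 u.g]
      abel
    · show u.g * 1 = 1 * u.g
      rw [one_mul, mul_one]
  · intro φ hφ
    refine ⟨fun x => (φ x).v, fun x => ?_⟩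
    rw [mul_def', j_def]
    ext
    · show (φ x).v = (φ x).v - c 1 1 + σ 1 0 + c 1 x
      rw [map_zero, c1 x]
      abel
    · show (φ x).g = 1 * x
      rw [one_mul]
      exact hφ x

end

end Pool.Agent.F8.CG
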