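import Pool.Agent.Lib.MP_305fdd_al.F8.CG.StmV

/-!
# MP_305fdd_al, congruence subgroups: the Siegel set, covering and finiteness (piece Vcov)
-/

set_option autoImplicit false

namespace Pool.Agent.F8.CG

open Pool.Agent.F8.BG Pool.Agent.MP_305fdd_al Pool.Agent.Lib.MP_305fdd_al Pool.Agent.F8
open MeasureTheory
open scoped QuadraticAlgebra ENNReal ComplexConjugate

noncomputable section

private theorem Vcov_re_im {a b : ℤ} (h : b ^ 2 + 4 * a < 0) (z : Qf a b ℤ) :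
    |(z.im : ℝ)| * (wC a b).im ≤ ‖iC a b z‖ ∧
      |(z.re : ℝ)| ≤ ‖iC a b z‖ + |(z.im : ℝ)| * ‖wC a b‖ := by
  have h0 := wC_im h
  constructor
  · have h1 := Complex.abs_im_le_norm (iC a b z)
    rw [iC_apply] at h1 ⊢
    have h2 : ((z.re : ℂ) + (z.im : ℂ) * wC a b).im = (z.im : ℝ) * (wC a b).im := by
      simp [Complex.mul_im]
    rw [h2, abs_mul, abs_of_pos h0] at h1
    exact h1
  · have h1 : ((z.re : ℝ) : ℂ) = iC a b z - (z.im : ℂ) * wC a b := by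
      rw [iC_apply]
      push_cast
      ring
    have h2 : |(z.re : ℝ)| = ‖((z.re : ℝ) : ℂ)‖ := by
      rw [Complex.norm_real, Real.norm_eq_abs]
    rw [h2, h1]
    refine (norm_sub_le _ _).trans ?_
    rw [norm_mul]
    have h3 : ‖(z.im : ℂ)‖ = |(z.im : ℝ)| := by
      rw [Complex.norm_intCast]
    rw [h3]

/-- finitely many elements of the ring in a ball -/
private theorem Vcov_fin1 {a b : ℤ} (h : b ^ 2 + 4 * a < 0) (B : ℝ) :
    {z : Qf a b ℤ | ‖iC a b z‖ ≤ B}.Finite := by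
  have h0 := wC_im h
  obtain ⟨M, hM⟩ := exists_nat_ge (B / (wC a b).im)
  obtain ⟨K, hK⟩ := exists_nat_ge (B + M * ‖wC a b‖)
  have hfin : (Set.Icc (-(K : ℤ)) K ×ˢ Set.Icc (-(M : ℤ)) M : Set (ℤ × ℤ)).Finite :=
    (Set.finite_Icc _ _).prod (Set.finite_Icc _ _)
  refine Set.Finite.of_finite_image (f := fun z : Qf a b ℤ => (z.re, z.im)) (hfin.subset ?_) ?_
  · rintro _ ⟨z, hz, rfl⟩
    have hz' : ‖iC a b z‖ ≤ B := hz
    obtain ⟨h1, h2⟩ := Vcov_re_im h z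
    have h3 : |(z.im : ℝ)| ≤ M := by
      refine le_trans ?_ hM
      rw [le_div_iff₀ h0]
      linarith
    have h4 : |(z.re : ℝ)| ≤ K := by
      refine le_trans ?_ hK
      have := mul_le_mul_of_nonneg_right h3 (norm_nonneg (wC a b))
      linarith
    have h5 := abs_le.1 h3
    have h6 := abs_le.1 h4
    refine ⟨⟨?_, ?_⟩, ⟨?_, ?_⟩⟩
    · exact_mod_cast h6.1
    · exact_mod_cast h6.2
    · exact_mod_cast h5.1
    · exact_mod_cast h5.2
  · intro z _ w _ hzw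
    have h1 : z.re = w.re := congrArg Prod.fst hzw
    have h2 : z.im = w.im := congrArg Prod.snd hzw
    exact QuadraticAlgebra.ext h1 h2

/-- the square of the norm of `c • X.1 + d • X.2` -/
private def VcovN (X : MM) (c d : ℂ) : ℝ :=
  ‖c * X.1.1 + d * X.2.1‖ ^ 2 + ‖c * X.1.2 + d * X.2.2‖ ^ 2

private theorem Vcov_bd (X : MM) (c d : ℂ) (B : ℝ) (hB : VcovN X c d ≤ B ^ 2) (hB0 : 0 ≤ B) :
    ‖c‖ * ‖dX X‖ ≤ B * (‖X.2.1‖ + ‖X.2.2‖) ∧ ‖d‖ * ‖dX X‖ ≤ B * (‖X.1.1‖ + ‖X.1.2‖) := by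
  set u := c * X.1.1 + d * X.2.1 with hu
  set v := c * X.1.2 + d * X.2.2 with hv
  have hN : ‖u‖ ^ 2 + ‖v‖ ^ 2 ≤ B ^ 2 := hB
  have h1 : ‖u‖ ≤ B := abs_le_of_sq_le_sq' (by nlinarith [sq_nonneg ‖v‖]) hB0 |>.2
  have h2 : ‖v‖ ≤ B := abs_le_of_sq_le_sq' (by nlinarith [sq_nonneg ‖u‖]) hB0 |>.2
  constructor
  · have h3 : c * dX X = u * X.2.2 - v * X.2.1 := by
      rw [hu, hv, dX]; ring
    rw [← norm_mul, h3]
    refine (norm_sub_le _ _).trans ?_
    rw [norm_mul, norm_mul]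
    have := mul_le_mul_of_nonneg_right h1 (norm_nonneg X.2.2)
    have := mul_le_mul_of_nonneg_right h2 (norm_nonneg X.2.1)
    linarith
  · have h3 : d * dX X = v * X.1.1 - u * X.1.2 := by
      rw [hu, hv, dX]; ring
    rw [← norm_mul, h3]
    refine (norm_sub_le _ _).trans ?_
    rw [norm_mul, norm_mul]
    have := mul_le_mul_of_nonneg_right h2 (norm_nonneg X.1.1)
    have := mul_le_mul_of_nonneg_right h1 (norm_nonneg X.1.2)
    linarith

/-- finitely many rows in a ball -/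
private theorem Vcov_fin2 {a b : ℤ} (h : b ^ 2 + 4 * a < 0) (X : MM) (hX : dX X ≠ 0) (B : ℝ) :
    {t : Qf a b ℤ × Qf a b ℤ | VcovN X (iC a b t.1) (iC a b t.2) ≤ B}.Finite := by
  have hD : 0 < ‖dX X‖ := norm_pos_iff.2 hX
  set C : ℝ := |B| + 1 with hC
  have hC0 : 0 ≤ C := by positivity
  have hBC : B ≤ C ^ 2 := by
    have h1 : B ≤ |B| := le_abs_self B
    have h2 : 0 ≤ |B| := abs_nonneg B
    nlinarith
  have hfin := (Vcov_fin1 h (C * (‖X.2.1‖ + ‖X.2.2‖) / ‖dX X‖)).prod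
    (Vcov_fin1 h (C * (‖X.1.1‖ + ‖X.1.2‖) / ‖dX X‖))
  refine hfin.subset ?_
  rintro ⟨c, d⟩ hcd
  have h1 : VcovN X (iC a b c) (iC a b d) ≤ C ^ 2 := le_trans hcd hBC
  obtain ⟨h2, h3⟩ := Vcov_bd X _ _ C h1 hC0
  refine ⟨?_, ?_⟩
  · show ‖iC a b c‖ ≤ _
    rw [le_div_iff₀ hD]
    exact h2
  · show ‖iC a b d‖ ≤ _
    rw [le_div_iff₀ hD]
    exact h3

private theorem Vcov_nr {a b : ℤ} (g : GQ a b) (X : MM) :
    nr (ac g X) = VcovN X (iC a b (g.val 1 0)) (iC a b (g.val 1 1)) := by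
  simp [nr, ac, VcovN]

private theorem Vcov_dX {a b : ℤ} (g : GQ a b) (X : MM) : dX (ac g X) = dX X := by
  have h : iC a b (g.val 0 0) * iC a b (g.val 1 1) - iC a b (g.val 0 1) * iC a b (g.val 1 0) = 1 := by
    rw [← map_mul, ← map_mul, ← map_sub, ← Matrix.det_fin_two, g.2, map_one]
  simp only [dX, ac, Prod.fst_add, Prod.snd_add, Prod.smul_fst, Prod.smul_snd, smul_eq_mul]
  linear_combination (X.1.1 * X.2.2 - X.1.2 * X.2.1) * h

/-- the identity of Lagrange -/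
private theorem Vcov_lag (Y : MM) :
    (‖Y.1.1‖ ^ 2 + ‖Y.1.2‖ ^ 2) * nr Y =
      ‖Y.1.1 * conj Y.2.1 + Y.1.2 * conj Y.2.2‖ ^ 2 + ‖dX Y‖ ^ 2 := by
  unfold nr dX
  simp only [← Complex.normSq_eq_norm_sq]
  obtain ⟨⟨⟨p1, p2⟩, ⟨q1, q2⟩⟩, ⟨⟨r1, r2⟩, ⟨s1, s2⟩⟩⟩ := Y
  simp only [Complex.normSq_apply, Complex.add_re, Complex.add_im, Complex.mul_re, Complex.mul_im,
    Complex.conj_re, Complex.conj_im, Complex.sub_re, Complex.sub_im]
  ring

private theorem Vcov_nr_pos (Y : MM) (h : dX Y ≠ 0) : 0 < nr Y := by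
  by_contra h1
  have h2 : 0 ≤ ‖Y.2.1‖ ^ 2 := sq_nonneg _
  have h3 : 0 ≤ ‖Y.2.2‖ ^ 2 := sq_nonneg _
  unfold nr at h1
  have h4 : ‖Y.2.1‖ ^ 2 = 0 := by linarith
  have h5 : ‖Y.2.2‖ ^ 2 = 0 := by linarith
  have h6 : Y.2.1 = 0 := by simpa using h4
  have h7 : Y.2.2 = 0 := by simpa using h5
  apply h
  unfold dX
  rw [h6, h7]
  ring

private theorem Vcov_eU {a b : ℤ} (β : Qf a b ℤ) (Y : MM) :
    ac (eU β : GQ a b) Y = (Y.1 + iC a b β • Y.2, Y.2) := by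
  have h00 : (eU β : GQ a b).val 0 0 = 1 := rfl
  have h01 : (eU β : GQ a b).val 0 1 = β := rfl
  have h10 : (eU β : GQ a b).val 1 0 = 0 := rfl
  have h11 : (eU β : GQ a b).val 1 1 = 1 := rfl
  unfold ac
  rw [h00, h01, h10, h11, map_one, map_zero, one_smul, one_smul, zero_smul, zero_add]

private theorem Vcov_mS {a b : ℤ} (Y : MM) :
    nr (ac (mS : GQ a b) Y) = ‖Y.1.1‖ ^ 2 + ‖Y.1.2‖ ^ 2 := by
  have h10 : (mS : GQ a b).val 1 0 = 1 := rfl
  have h11 : (mS : GQ a b).val 1 1 = 0 := rfl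
  unfold ac nr
  rw [h10, h11, map_one, map_zero, one_smul, zero_smul, add_zero]

private theorem Vcov_meas : MeasurableSet Sg := by
  unfold Sg
  have h1 : MeasurableSet {X : MM | 0 < ‖dX X‖} := by
    apply IsOpen.measurableSet
    apply isOpen_lt continuous_const
    unfold dX
    fun_prop
  have h2 : MeasurableSet {X : MM | nr X ≤ 5 * ‖dX X‖} := by
    apply IsClosed.measurableSet
    apply isClosed_le
    · unfold nr
      fun_prop
    · unfold dX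
      fun_prop
  have h3 : MeasurableSet {X : MM | ‖X.1.1 * conj X.2.1 + X.1.2 * conj X.2.2‖ ≤ 31 / 32 * nr X} := by
    apply IsClosed.measurableSet
    apply isClosed_le
    · have hc : Continuous (fun z : ℂ => conj z) := Complex.continuous_conj
      apply Continuous.norm
      apply Continuous.add
      · exact (continuous_fst.comp continuous_fst).mul (hc.comp (continuous_fst.comp continuous_snd))
      · exact (continuous_snd.comp continuous_fst).mul (hc.comp (continuous_snd.comp continuous_snd))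
    · unfold nr
      fun_prop
  exact h1.inter (h2.inter h3)

/-- [CG Vcov] the Siegel set: covering and finiteness. -/
theorem p_Vcov : V_cov := by
  intro a b hab hE _
  refine ⟨Vcov_meas, ?_⟩
  intro X hX
  constructor
  · -- the minimum
    let T : Set (Qf a b ℤ × Qf a b ℤ) := {t | (∃ g : GQ a b, g.val 1 0 = t.1 ∧ g.val 1 1 = t.2) ∧
      VcovN X (iC a b t.1) (iC a b t.2) ≤ nr (ac (1 : GQ a b) X)}
    have hTf : T.Finite := (Vcov_fin2 hab X hX (nr (ac (1 : GQ a b) X))).subset (fun t ht => ht.2)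
    have hTn : T.Nonempty := ⟨((1 : GQ a b).val 1 0, (1 : GQ a b).val 1 1),
      ⟨1, rfl, rfl⟩, le_of_eq (Vcov_nr 1 X).symm⟩
    obtain ⟨t, ht, hmin⟩ := Set.exists_min_image T
      (fun t => VcovN X (iC a b t.1) (iC a b t.2)) hTf hTn
    obtain ⟨⟨g₀, hg1, hg2⟩, ht2⟩ := ht
    have hg0 : nr (ac g₀ X) = VcovN X (iC a b t.1) (iC a b t.2) := by
      rw [Vcov_nr, hg1, hg2]
    have hmin' : ∀ g : GQ a b, nr (ac g₀ X) ≤ nr (ac g X) := by
      intro g
      rw [hg0]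
      by_cases hg : nr (ac g X) ≤ nr (ac (1 : GQ a b) X)
      · have h1 := hmin (g.val 1 0, g.val 1 1) ⟨⟨g, rfl, rfl⟩, by rw [← Vcov_nr]; exact hg⟩
        rw [Vcov_nr g X]
        exact h1
      · exact le_trans ht2 (le_of_lt (not_le.1 hg))
    set Y := ac g₀ X with hY
    have hdY : dX Y = dX X := Vcov_dX g₀ X
    have hnY : 0 < nr Y := Vcov_nr_pos Y (by rw [hdY]; exact hX)
    obtain ⟨β, hβ⟩ := hE ((Y.1.1 * conj Y.2.1 + Y.1.2 * conj Y.2.2) / (nr Y : ℂ))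
    refine ⟨eU (-β) * g₀, ?_⟩
    rw [ac_mul, ← hY]
    set Z := ac (eU (-β) : GQ a b) Y with hZ
    have hZe : Z = (Y.1 + iC a b (-β) • Y.2, Y.2) := Vcov_eU (-β) Y
    have hdZ : dX Z = dX X := by rw [hZ, Vcov_dX, hdY]
    have hnZ : nr Z = nr Y := by rw [hZe]; rfl
    have hnrC : (nr Y : ℂ) = Y.2.1 * conj Y.2.1 + Y.2.2 * conj Y.2.2 := by
      unfold nr
      push_cast
      rw [Complex.mul_conj', Complex.mul_conj']
    have hip : Z.1.1 * conj Z.2.1 + Z.1.2 * conj Z.2.2 =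
        (Y.1.1 * conj Y.2.1 + Y.1.2 * conj Y.2.2) - iC a b β * (nr Y : ℂ) := by
      rw [hZe, hnrC]
      simp only [Prod.fst_add, Prod.snd_add, Prod.smul_fst, Prod.smul_snd, smul_eq_mul, map_neg]
      ring
    have hip2 : ‖Z.1.1 * conj Z.2.1 + Z.1.2 * conj Z.2.2‖ ≤ 31 / 32 * nr Z := by
      rw [hip, hnZ]
      have hne : (nr Y : ℂ) ≠ 0 := by exact_mod_cast hnY.ne'
      have h1 : (Y.1.1 * conj Y.2.1 + Y.1.2 * conj Y.2.2) - iC a b β * (nr Y : ℂ) =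
          ((Y.1.1 * conj Y.2.1 + Y.1.2 * conj Y.2.2) / (nr Y : ℂ) - iC a b β) * (nr Y : ℂ) := by
        field_simp
      rw [h1, norm_mul, Complex.norm_real, Real.norm_eq_abs, abs_of_pos hnY]
      exact mul_le_mul_of_nonneg_right hβ hnY.le
    have hmZ : nr Z ≤ ‖Z.1.1‖ ^ 2 + ‖Z.1.2‖ ^ 2 := by
      rw [← Vcov_mS (a := a) (b := b) Z, hnZ]
      have h1 := hmin' (mS * (eU (-β) * g₀))
      rw [ac_mul, ac_mul, ← hY, ← hZ] at h1
      exact h1
    have hlag := Vcov_lag Z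
    have hnZ0 : 0 < nr Z := by rw [hnZ]; exact hnY
    have hdZ0 : 0 < ‖dX Z‖ := by rw [hdZ]; exact norm_pos_iff.2 hX
    refine ⟨hdZ0, ?_, hip2⟩
    have h1 : nr Z * nr Z ≤ (31 / 32 * nr Z) ^ 2 + ‖dX Z‖ ^ 2 := by
      have h2 : nr Z * nr Z ≤ (‖Z.1.1‖ ^ 2 + ‖Z.1.2‖ ^ 2) * nr Z :=
        mul_le_mul_of_nonneg_right hmZ hnZ0.le
      have h3 : ‖Z.1.1 * conj Z.2.1 + Z.1.2 * conj Z.2.2‖ ^ 2 ≤ (31 / 32 * nr Z) ^ 2 :=
        pow_le_pow_left₀ (norm_nonneg _) hip2 2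
      linarith
    have h2 : (nr Z) ^ 2 ≤ (5 * ‖dX Z‖) ^ 2 := by nlinarith
    exact abs_le_of_sq_le_sq' h2 (by positivity) |>.2
  · -- finiteness
    have hD : 0 < ‖dX X‖ := norm_pos_iff.2 hX
    let bnd : Qf a b ℤ × Qf a b ℤ → ℝ := fun t =>
      ((31 / 32 * VcovN X (iC a b t.1) (iC a b t.2)) ^ 2 + ‖dX X‖ ^ 2) /
        VcovN X (iC a b t.1) (iC a b t.2)
    have hF := Vcov_fin2 hab X hX (5 * ‖dX X‖)
    have hU : (⋃ t ∈ {t : Qf a b ℤ × Qf a b ℤ | VcovN X (iC a b t.1) (iC a b t.2) ≤ 5 * ‖dX X‖},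
        (fun s : Qf a b ℤ × Qf a b ℤ => (s, t)) ''
          {s : Qf a b ℤ × Qf a b ℤ | VcovN X (iC a b s.1) (iC a b s.2) ≤ bnd t}).Finite :=
      hF.biUnion fun t _ => (Vcov_fin2 hab X hX (bnd t)).image _
    refine Set.Finite.of_finite_image (f := fun g : GQ a b =>
      ((g.val 0 0, g.val 0 1), (g.val 1 0, g.val 1 1))) (hU.subset ?_) ?_
    · rintro _ ⟨g, hg, rfl⟩
      obtain ⟨h1, h2, h3⟩ := hg
      rw [Vcov_dX] at h2
      have hn0 : 0 < nr (ac g X) := Vcov_nr_pos _ (by rw [Vcov_dX]; exact hX)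
      rw [Set.mem_iUnion₂]
      refine ⟨(g.val 1 0, g.val 1 1), ?_, (g.val 0 0, g.val 0 1), ?_, rfl⟩
      · show VcovN X (iC a b (g.val 1 0)) (iC a b (g.val 1 1)) ≤ 5 * ‖dX X‖
        rw [← Vcov_nr]
        exact h2
      · show VcovN X (iC a b (g.val 0 0)) (iC a b (g.val 0 1)) ≤
          ((31 / 32 * VcovN X (iC a b (g.val 1 0)) (iC a b (g.val 1 1))) ^ 2 + ‖dX X‖ ^ 2) /
            VcovN X (iC a b (g.val 1 0)) (iC a b (g.val 1 1))
        rw [← Vcov_nr, le_div_iff₀ hn0]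
        have hlag := Vcov_lag (ac g X)
        rw [Vcov_dX] at hlag
        have h4 : VcovN X (iC a b (g.val 0 0)) (iC a b (g.val 0 1)) =
            ‖(ac g X).1.1‖ ^ 2 + ‖(ac g X).1.2‖ ^ 2 := by
          simp [ac, VcovN]
        rw [h4, hlag]
        have h5 := pow_le_pow_left₀ (norm_nonneg _) h3 2
        linarith
    · intro g _ g' _ hgg
      have h00 : g.val 0 0 = g'.val 0 0 := congrArg (fun t => t.1.1) hgg
      have h01 : g.val 0 1 = g'.val 0 1 := congrArg (fun t => t.1.2) hgg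
      have h10 : g.val 1 0 = g'.val 1 0 := congrArg (fun t => t.2.1) hgg
      have h11 : g.val 1 1 = g'.val 1 1 := congrArg (fun t => t.2.2) hgg
      apply Subtype.ext
      apply Matrix.ext
      intro i j
      fin_cases i <;> fin_cases j
      · exact h00
      · exact h01
      · exact h10
      · exact h11

end

end Pool.Agent.F8.CG
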