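import Pool.Agent.Lib.MP_305fdd_al.F8.CG.StmV

/-!
# MP_305fdd_al, congruence subgroups: piece Vlim
-/

set_option autoImplicit false

namespace Pool.Agent.F8.CG

open Pool.Agent.F8.BG Pool.Agent.MP_305fdd_al Pool.Agent.Lib.MP_305fdd_al Pool.Agent.F8
open MeasureTheory Filter
open scoped QuadraticAlgebra ENNReal ComplexConjugate Topology

noncomputable section

private theorem Vlim_inj {a b : ℤ} (h : b ^ 2 + 4 * a < 0) {z : Qf a b ℤ} (hz : iC a b z = 0) :
    z = 0 := by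
  rw [iC_apply] at hz
  have him := congrArg Complex.im hz
  have hre := congrArg Complex.re hz
  have hw := wC_im h
  simp only [Complex.add_im, Complex.intCast_im, Complex.mul_im, Complex.intCast_re, zero_mul,
    Complex.zero_im, zero_add, add_zero] at him
  have h1 : z.im = 0 := by
    rcases mul_eq_zero.mp him with h2 | h2
    · exact_mod_cast h2
    · exact absurd h2 hw.ne'
  simp only [Complex.add_re, Complex.intCast_re, Complex.mul_re, Complex.intCast_im, zero_mul,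
    Complex.zero_re, sub_zero, h1, Int.cast_zero, add_zero] at hre
  have h2 : z.re = 0 := by exact_mod_cast hre
  ext
  · rw [h2]; rfl
  · rw [h1]; rfl

private theorem Vlim_mem {a b : ℤ} (β : Qf a b ℤ) : iC a b β ∈ kC a b :=
  ⟨β, 1, one_ne_zero, by rw [map_one, mul_one]⟩

private theorem Vlim_add {a b : ℤ} {x : ℂ} (β : Qf a b ℤ) (hx : x ∈ kC a b) :
    x + iC a b β ∈ kC a b := by
  obtain ⟨p, q, hq, h⟩ := hx
  exact ⟨p + β * q, q, hq, by rw [add_mul, h, map_add, map_mul]⟩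

private theorem Vlim_sub {a b : ℤ} {x : ℂ} (β : Qf a b ℤ) (hx : x ∈ kC a b) :
    x - iC a b β ∈ kC a b := by
  have h := Vlim_add (-β) hx
  rwa [map_neg, ← sub_eq_add_neg] at h

private theorem Vlim_sub' {a b : ℤ} {x : ℂ} (β : Qf a b ℤ) (hx : x ∉ kC a b) :
    x - iC a b β ∉ kC a b := fun h => hx (by
  have h' := Vlim_add β h
  rwa [sub_add_cancel] at h')

private theorem Vlim_inv {a b : ℤ} (h : b ^ 2 + 4 * a < 0) {x : ℂ} (hx : x ∈ kC a b) :
    -1 / x ∈ kC a b := by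
  by_cases hx0 : x = 0
  · rw [hx0, div_zero]
    have h1 := Vlim_mem (a := a) (b := b) 0
    rwa [map_zero] at h1
  · obtain ⟨p, q, hq, hpq⟩ := hx
    have hq' : iC a b q ≠ 0 := fun hc => hq (Vlim_inj h hc)
    have hp : p ≠ 0 := by
      intro hc
      rw [hc, map_zero] at hpq
      exact (mul_ne_zero hx0 hq') hpq
    refine ⟨-q, p, hp, ?_⟩
    rw [map_neg, ← hpq]
    field_simp

private theorem Vlim_inv' {a b : ℤ} (h : b ^ 2 + 4 * a < 0) {x : ℂ} (hx : x ∉ kC a b) :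
    -1 / x ∉ kC a b := fun hc => hx (by
  have h' := Vlim_inv h hc
  have hx0 : x ≠ 0 := by
    rintro rfl
    apply hx
    have h1 := Vlim_mem (a := a) (b := b) 0
    rwa [map_zero] at h1
  have e : -1 / (-1 / x) = x := by field_simp
  rwa [e] at h')

private theorem Vlim_dense {a b : ℤ} (hE : Eu a b) (x : ℂ) : x ∈ closure (kC a b) := by
  rw [Metric.mem_closure_iff]
  intro ε hε
  obtain ⟨n, hn⟩ := exists_nat_gt (1 / ε)
  have hn0 : (0 : ℝ) < n := lt_trans (by positivity) hn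
  have hnC : (n : ℂ) ≠ 0 := by
    have : (n : ℝ) ≠ 0 := hn0.ne'
    exact_mod_cast this
  obtain ⟨β, hβ⟩ := hE ((n : ℂ) * x)
  have hnQ : ((n : ℕ) : Qf a b ℤ) ≠ 0 := by
    intro hc
    have h1 := congrArg (iC a b) hc
    rw [map_natCast, map_zero] at h1
    exact hnC h1
  refine ⟨iC a b β / n, ⟨β, n, hnQ, ?_⟩, ?_⟩
  · rw [map_natCast]
    field_simp
  · rw [dist_eq_norm]
    have e : x - iC a b β / n = ((n : ℂ) * x - iC a b β) / n := by field_simp
    rw [e, norm_div, Complex.norm_natCast, div_lt_iff₀ hn0]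
    have h1 : 1 < ε * n := by
      rw [div_lt_iff₀ hε] at hn
      linarith
    linarith

private theorem Vlim_nb {a b : ℤ} (hE : Eu a b) (x : ℂ) : (𝓝[kC a b] x).NeBot :=
  mem_closure_iff_nhdsWithin_neBot.mp (Vlim_dense hE x)

/-- the statement of the contraction argument -/
private def Vlim_P (a b : ℤ) {Ω : Type} (A : Ω → ℂ → ℂ) (η : ℝ) : Prop :=
  ∀ (o : Ω) (y : ℂ), y ∉ kC a b → ‖y‖ ≤ 31 / 32 → ∀ ε : ℝ, 0 < ε →
    ∀ᶠ p in 𝓝[kC a b] y ×ˢ 𝓝[kC a b] y, ‖A o p.1 - A o p.2‖ ≤ η + ε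

private theorem Vlim_step {a b : ℤ} (hD : b ^ 2 + 4 * a < 0) (hE : Eu a b) {Ω : Type}
    [MulAction (GQ a b) Ω] {A : Ω → ℂ → ℂ} (hP : PS a b A) {C : ℝ} (hC : 0 ≤ C)
    (hgr : ∀ o, ∀ x ∈ kC a b, ‖A o x‖ ≤ C * (1 + ‖x‖)) {η : ℝ} (hη : 0 ≤ η)
    (h : Vlim_P a b A η) : Vlim_P a b A (31 / 32 * η) := by
  intro o y hy hy1 ε hε
  have hy0 : y ≠ 0 := by
    rintro rfl
    apply hy
    have h1 := Vlim_mem (a := a) (b := b) 0
    rwa [map_zero] at h1
  obtain ⟨β, hβ⟩ := hE (-1 / y)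
  set y₁ : ℂ := -1 / y - iC a b β with hy₁
  have hy₁k : y₁ ∉ kC a b := Vlim_sub' β (Vlim_inv' hD hy)
  set o' : Ω := (mS : GQ a b) • o with ho'
  set o'' : Ω := (eU β : GQ a b)⁻¹ • o' with ho''
  have hf : ∀ r ∈ kC a b, r ≠ 0 →
      A o r = r * (A o' (iC a b β) + A o'' (-1 / r - iC a b β)) := by
    intro r hr hr0
    have h1 := hP.inv o' r hr hr0
    rw [ho', inv_smul_smul] at h1
    rw [h1, ← ho']
    have h2 := hP.add o' β (-1 / r - iC a b β) (Vlim_sub β (Vlim_inv hD hr))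
    rw [sub_add_cancel] at h2
    rw [h2]
  have hne : ∀ᶠ r in 𝓝[kC a b] y, r ≠ 0 :=
    (eventually_ne_nhds hy0).filter_mono nhdsWithin_le_nhds
  have hk : ∀ᶠ r in 𝓝[kC a b] y, r ∈ kC a b := eventually_mem_nhdsWithin
  have hcts : ContinuousAt (fun r : ℂ => -1 / r - iC a b β) y :=
    (continuousAt_const.div continuousAt_id hy0).sub continuousAt_const
  have ht : Tendsto (fun r : ℂ => -1 / r - iC a b β) (𝓝[kC a b] y) (𝓝[kC a b] y₁) := by
    rw [tendsto_nhdsWithin_iff]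
    refine ⟨hcts.tendsto.mono_left nhdsWithin_le_nhds, ?_⟩
    filter_upwards [hk] with r hr
    exact Vlim_sub β (Vlim_inv hD hr)
  have h1 : ∀ᶠ p in 𝓝[kC a b] y ×ˢ 𝓝[kC a b] y,
      ‖A o'' (-1 / p.1 - iC a b β) - A o'' (-1 / p.2 - iC a b β)‖ ≤ η + ε :=
    (ht.prodMap ht).eventually (h o'' y₁ hy₁k hβ ε hε)
  -- the bound as a continuous function
  have hF : ContinuousAt (fun p : ℂ × ℂ => ‖p.1‖ * (η + ε) +
      ‖p.1 - p.2‖ * (C * (1 + ‖-1 / p.2‖))) (y, y) := by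
    have c1 : ContinuousAt (fun p : ℂ × ℂ => -1 / p.2) (y, y) :=
      continuousAt_const.div continuousAt_snd hy0
    exact (continuousAt_fst.norm.mul continuousAt_const).add
      ((continuousAt_fst.sub continuousAt_snd).norm.mul
        (continuousAt_const.mul (continuousAt_const.add c1.norm)))
  have h2 : ∀ᶠ p in 𝓝[kC a b] y ×ˢ 𝓝[kC a b] y, ‖p.1‖ * (η + ε) +
      ‖p.1 - p.2‖ * (C * (1 + ‖-1 / p.2‖)) < 31 / 32 * η + ε := by
    have h3 : ‖y‖ * (η + ε) + ‖y - y‖ * (C * (1 + ‖-1 / y‖)) < 31 / 32 * η + ε := by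
      rw [sub_self, norm_zero, zero_mul, add_zero]
      have h4 : ‖y‖ * (η + ε) ≤ 31 / 32 * (η + ε) :=
        mul_le_mul_of_nonneg_right hy1 (by linarith)
      linarith
    have h4 := hF.tendsto.eventually (Iio_mem_nhds h3)
    rw [nhds_prod_eq] at h4
    exact h4.filter_mono (Filter.prod_mono nhdsWithin_le_nhds nhdsWithin_le_nhds)
  have h5 : ∀ᶠ p in 𝓝[kC a b] y ×ˢ 𝓝[kC a b] y,
      (p.1 ∈ kC a b ∧ p.1 ≠ 0) ∧ p.2 ∈ kC a b ∧ p.2 ≠ 0 :=
    (hk.and hne).prod_mk (hk.and hne)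
  filter_upwards [h1, h2, h5] with p hp1 hp2 hp3
  obtain ⟨⟨k1, n1⟩, k2, n2⟩ := hp3
  have e2 : A o' (-1 / p.2) = A o' (iC a b β) + A o'' (-1 / p.2 - iC a b β) := by
    have h2 := hP.add o' β (-1 / p.2 - iC a b β) (Vlim_sub β (Vlim_inv hD k2))
    rw [sub_add_cancel] at h2
    exact h2
  have e : A o p.1 - A o p.2 =
      p.1 * (A o'' (-1 / p.1 - iC a b β) - A o'' (-1 / p.2 - iC a b β)) +
        (p.1 - p.2) * A o' (-1 / p.2) := by
    rw [hf p.1 k1 n1, hf p.2 k2 n2, e2]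
    ring
  rw [e]
  refine le_trans (norm_add_le _ _) (le_trans ?_ hp2.le)
  rw [norm_mul, norm_mul]
  exact add_le_add (mul_le_mul_of_nonneg_left hp1 (norm_nonneg _))
    (mul_le_mul_of_nonneg_left (hgr o' _ (Vlim_inv hD k2)) (norm_nonneg _))

theorem p_Vlim (hgr : V_gr) : V_lim := by
  intro a b hD hE Ω _ _ A hP o x hx
  obtain ⟨C, hC, hC1⟩ := hgr a b hD hE Ω A hP
  -- (a)
  have hP0 : Vlim_P a b A (6 * C) := by
    intro o y hy hy1 ε hε
    have h1 : ∀ᶠ r in 𝓝[kC a b] y, ‖A o r‖ ≤ 3 * C := by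
      have h2 : ∀ᶠ r in 𝓝[kC a b] y, ‖r‖ < 2 := by
        have h3 : ∀ᶠ r in 𝓝 y, ‖r‖ < 2 :=
          continuousAt_id.norm.tendsto.eventually (Iio_mem_nhds (by
            show ‖y‖ < 2
            linarith))
        exact h3.filter_mono nhdsWithin_le_nhds
      filter_upwards [h2, eventually_mem_nhdsWithin] with r hr hk
      refine le_trans (hC1 o r hk) ?_
      nlinarith
    filter_upwards [h1.prod_mk h1] with p hp
    refine le_trans (norm_sub_le _ _) ?_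
    linarith [hp.1, hp.2]
  -- (b), (c)
  have hPn : ∀ n : ℕ, Vlim_P a b A ((31 / 32) ^ n * (6 * C)) := by
    intro n
    induction n with
    | zero => rw [pow_zero, one_mul]; exact hP0
    | succ n ih =>
      have h1 := Vlim_step hD hE hP hC hC1 (by positivity) ih
      rw [← mul_assoc, ← pow_succ'] at h1
      exact h1
  have hPz : ∀ (o : Ω) (y : ℂ), y ∉ kC a b → ‖y‖ ≤ 31 / 32 → ∀ ε : ℝ, 0 < ε →
      ∀ᶠ p in 𝓝[kC a b] y ×ˢ 𝓝[kC a b] y, ‖A o p.1 - A o p.2‖ ≤ ε := by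
    intro o y hy hy1 ε hε
    have h1 : Tendsto (fun n : ℕ => (31 / 32 : ℝ) ^ n * (6 * C)) atTop (𝓝 0) := by
      have h2 := (tendsto_pow_atTop_nhds_zero_of_lt_one (r := (31 / 32 : ℝ)) (by norm_num)
        (by norm_num)).mul_const (6 * C)
      rwa [zero_mul] at h2
    obtain ⟨n, hn⟩ := (h1.eventually (Iio_mem_nhds (half_pos hε))).exists
    filter_upwards [hPn n o y hy hy1 (ε / 2) (half_pos hε)] with p hp
    have hn' : (31 / 32 : ℝ) ^ n * (6 * C) < ε / 2 := hn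
    linarith
  -- (d)
  haveI := Vlim_nb hE x
  have hcau : Cauchy (map (A o) (𝓝[kC a b] x)) := by
    rw [cauchy_map_iff]
    refine ⟨inferInstance, ?_⟩
    rw [Metric.uniformity_basis_dist_le.tendsto_right_iff]
    intro ε hε
    obtain ⟨β, hβ⟩ := hE x
    have ht : Tendsto (fun r : ℂ => r - iC a b β) (𝓝[kC a b] x) (𝓝[kC a b] (x - iC a b β)) := by
      rw [tendsto_nhdsWithin_iff]
      refine ⟨((continuous_id.sub continuous_const).continuousAt.tendsto).mono_left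
        nhdsWithin_le_nhds, ?_⟩
      filter_upwards [eventually_mem_nhdsWithin] with r hr
      exact Vlim_sub β hr
    have h1 := (ht.prodMap ht).eventually
      (hPz ((eU β : GQ a b)⁻¹ • o) (x - iC a b β) (Vlim_sub' β hx) hβ ε hε)
    have hk : ∀ᶠ r in 𝓝[kC a b] x, r ∈ kC a b := eventually_mem_nhdsWithin
    filter_upwards [h1, hk.prod_mk hk] with p hp hkp
    have e : ∀ r ∈ kC a b, A o r = A o (iC a b β) +
        A ((eU β : GQ a b)⁻¹ • o) (r - iC a b β) := by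
      intro r hr
      have h2 := hP.add o β (r - iC a b β) (Vlim_sub β hr)
      rwa [sub_add_cancel] at h2
    show dist (A o p.1) (A o p.2) ≤ ε
    rw [dist_eq_norm, e p.1 hkp.1, e p.2 hkp.2, add_sub_add_left_eq_sub]
    exact hp
  have hlim : ∃ z, Tendsto (A o) (𝓝[kC a b] x) (𝓝 z) := by
    obtain ⟨z, hz⟩ := CompleteSpace.complete hcau
    exact ⟨z, hz⟩
  have h9 : tA a b A o x = Filter.limUnder (nhdsWithin x (kC a b)) (A o) := if_neg hx
  rw [h9]
  exact tendsto_nhds_limUnder hlim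

end

end Pool.Agent.F8.CG
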