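import Pool.Agent.Lib.MP_305fdd_al.F8.CG.StmV

/-!
# MP_305fdd_al, congruence subgroups: invariant measures on quotients (`V_wt`)

The measure `μ` with the density `S.indicator 1 x * (m x)⁻¹`, `m x` the number of the points of the orbit of `x` in `S`, represents the invariant measure on the quotient; the proof is the unfolding argument.
-/

set_option autoImplicit false

namespace Pool.Agent.F8.CG

open MeasureTheory
open scoped ENNReal

noncomputable section

/-- the density -/
private def Vwt_w {M Γ : Type} (act : Γ → M → M) (S : Set M) (x : M) : ℝ≥0∞ :=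
  S.indicator 1 x * (∑' g : Γ, S.indicator 1 (act g x))⁻¹

private theorem Vwt_meas {M Γ : Type} [MeasurableSpace M] [Countable Γ] (act : Γ → M → M)
    (S : Set M) (hact : ∀ g, Measurable (act g)) (hS : MeasurableSet S) :
    Measurable (Vwt_w act S) := by
  have h1 : Measurable (S.indicator (1 : M → ℝ≥0∞)) := measurable_one.indicator hS
  have h2 : Measurable fun x => (∑' g : Γ, S.indicator (1 : M → ℝ≥0∞) (act g x)) :=
    Measurable.tsum fun g => h1.comp (hact g)
  exact h1.mul h2.inv

private theorem Vwt_inv {M Γ : Type} [Group Γ] (act : Γ → M → M) (S : Set M)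
    (hmul : ∀ g h x, act (g * h) x = act g (act h x)) (h : Γ) (x : M) :
    (∑' g : Γ, S.indicator (1 : M → ℝ≥0∞) (act g (act h x))) =
      ∑' g : Γ, S.indicator (1 : M → ℝ≥0∞) (act g x) := by
  rw [← (Equiv.mulRight h).tsum_eq (fun g => S.indicator (1 : M → ℝ≥0∞) (act g x))]
  congr 1
  funext g
  rw [← hmul]
  rfl

private theorem Vwt_sum {M Γ : Type} [Group Γ] (act : Γ → M → M) (S : Set M)
    (hmul : ∀ g h x, act (g * h) x = act g (act h x)) (x : M)
    (h0 : (∑' g : Γ, S.indicator 1 (act g x) : ℝ≥0∞) ≠ 0)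
    (h1 : (∑' g : Γ, S.indicator 1 (act g x) : ℝ≥0∞) ≠ ⊤) :
    ∑' g : Γ, Vwt_w act S (act g x) = 1 := by
  have h2 : ∀ g : Γ, Vwt_w act S (act g x) = S.indicator (1 : M → ℝ≥0∞) (act g x) *
      (∑' g : Γ, S.indicator (1 : M → ℝ≥0∞) (act g x))⁻¹ := fun g => by
    unfold Vwt_w
    rw [Vwt_inv act S hmul g x]
  simp_rw [h2]
  rw [ENNReal.tsum_mul_right]
  exact ENNReal.mul_inv_cancel h0 h1

/-- [CG V wt] -/
theorem p_Vwt : V_wt := by
  intro M Γ _ _ _ act μ _ S hone hmul hmp hS hm
  have hact : ∀ g, Measurable (act g) := fun g => (hmp g).measurable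
  have hw : Measurable (Vwt_w act S) := Vwt_meas act S hact hS
  have hw' : Measurable fun x => S.indicator (1 : M → ℝ≥0∞) x *
    (∑' g : Γ, S.indicator (1 : M → ℝ≥0∞) (act g x))⁻¹ := hw
  have hsum : ∀ᵐ x ∂μ, ∑' g : Γ, Vwt_w act S (act g x) = 1 := by
    filter_upwards [hm] with x hx
    exact Vwt_sum act S hmul x hx.1 hx.2
  have hinv : ∀ (g : Γ) (x : M), act g (act g⁻¹ x) = x := fun g x => by
    rw [← hmul, mul_inv_cancel, hone]
  refine ⟨?_, ?_⟩
  · intro R R' hR hR' hRR' hR'R hcomm f hf hinvf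
    have hcomm' : ∀ g x, R' (act g x) = act g (R' x) := fun g x => by
      have h1 : R (R' (act g x)) = R (act g (R' x)) := by
        rw [hRR', hcomm, hRR']
      have h2 := congrArg R' h1
      rwa [hR'R, hR'R] at h2
    have hfR : Measurable fun x => f (R x) := hf.comp hR.measurable
    rw [lintegral_withDensity_eq_lintegral_mul μ hw' hfR,
      lintegral_withDensity_eq_lintegral_mul μ hw' hf]
    have hsumR : ∀ᵐ x ∂μ, ∑' g : Γ, Vwt_w act S (act g (R x)) = 1 :=
      hR.quasiMeasurePreserving.ae hsum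
    have hsumR' : ∀ᵐ x ∂μ, ∑' g : Γ, Vwt_w act S (act g (R' x)) = 1 :=
      hR'.quasiMeasurePreserving.ae hsum
    calc ∫⁻ x, ((fun x => S.indicator (1 : M → ℝ≥0∞) x *
          (∑' g : Γ, S.indicator (1 : M → ℝ≥0∞) (act g x))⁻¹) * fun x => f (R x)) x ∂μ
        = ∫⁻ x, ∑' g : Γ, Vwt_w act S x * f (R x) * Vwt_w act S (act g (R x)) ∂μ := by
          apply lintegral_congr_ae
          filter_upwards [hsumR] with x hx
          rw [ENNReal.tsum_mul_left, hx, mul_one]
          rfl
      _ = ∑' g : Γ, ∫⁻ x, Vwt_w act S x * f (R x) * Vwt_w act S (act g (R x)) ∂μ := by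
          apply lintegral_tsum
          intro g
          exact ((hw.mul (hf.comp hR.measurable)).mul
            (hw.comp ((hact g).comp hR.measurable))).aemeasurable
      _ = ∑' g : Γ, ∫⁻ y, Vwt_w act S (act g⁻¹ (R' y)) * (f y * Vwt_w act S y) ∂μ := by
          congr 1
          funext g
          have hT : MeasurePreserving (fun y => R' (act g⁻¹ y)) μ μ := hR'.comp (hmp g⁻¹)
          have hF : Measurable fun x => Vwt_w act S x * f (R x) * Vwt_w act S (act g (R x)) :=
            (hw.mul (hf.comp hR.measurable)).mul (hw.comp ((hact g).comp hR.measurable))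
          rw [← hT.lintegral_comp hF]
          apply lintegral_congr_ae
          filter_upwards [hinvf g⁻¹] with y hy
          rw [hRR', hinv, hcomm', hy, mul_assoc]
      _ = ∫⁻ y, ∑' g : Γ, Vwt_w act S (act g⁻¹ (R' y)) * (f y * Vwt_w act S y) ∂μ := by
          rw [lintegral_tsum]
          intro g
          exact ((hw.comp ((hact g⁻¹).comp hR'.measurable)).mul (hf.mul hw)).aemeasurable
      _ = ∫⁻ x, ((fun x => S.indicator (1 : M → ℝ≥0∞) x *
          (∑' g : Γ, S.indicator (1 : M → ℝ≥0∞) (act g x))⁻¹) * f) x ∂μ := by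
          apply lintegral_congr_ae
          filter_upwards [hsumR'] with y hy
          have hy' : ∑' g : Γ, Vwt_w act S (act g⁻¹ (R' y)) = 1 := by
            rw [← hy]
            exact (Equiv.inv Γ).tsum_eq (fun g => Vwt_w act S (act g (R' y)))
          rw [ENNReal.tsum_mul_right, hy', one_mul, mul_comm]
          rfl
  · intro f hf hinvf h0
    rw [lintegral_withDensity_eq_lintegral_mul μ hw' hf] at h0
    rw [lintegral_eq_zero_iff (hw'.mul hf)] at h0
    have h1 : ∀ᵐ x ∂μ, Vwt_w act S x * f x = 0 := h0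
    have h2 : ∀ᵐ x ∂μ, ∀ g, Vwt_w act S (act g x) * f x = 0 := by
      rw [ae_all_iff]
      intro g
      filter_upwards [(hmp g).quasiMeasurePreserving.ae h1, hinvf g] with x hx hx'
      rwa [hx'] at hx
    filter_upwards [h2, hsum] with x hx hx'
    have h3 : (∑' g : Γ, Vwt_w act S (act g x)) * f x = 0 := by
      rw [← ENNReal.tsum_mul_right]
      simp [hx]
    rwa [hx', one_mul] at h3

end

end Pool.Agent.F8.CG
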