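import Pool.Agent.Lib.MP_305fdd_al.F8.CG.StmW

/-!
# MP_305fdd_al, congruence subgroups: piece W sub, the representation of `L ≤ Λ` (helper11)
-/

set_option autoImplicit false

namespace Pool.Agent.F8.CG

open Pool.Agent.F8.BG Pool.Agent.MP_305fdd_al Pool.Agent.Lib.MP_305fdd_al Pool.Agent.F8
open scoped QuadraticAlgebra

private theorem Wsub_fi {G Q : Type} [Group G] [Group Q] [Finite Q] (f : G →* Q)
    (S : Subgroup Q) : (S.comap f).FiniteIndex := by
  have h1 : f.ker ≤ S.comap f := fun x hx => by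
    show f x ∈ S
    rw [MonoidHom.mem_ker.1 hx]
    exact S.one_mem
  have h2 : f.ker.FiniteIndex := Subgroup.finiteIndex_ker f
  exact Subgroup.finiteIndex_of_le h1

/-- If `l` corresponds to `x` for all finite quotients of `G` then also for the corresponding subgroups. -/
private theorem Wsub_ext {G H Q : Type} [Group G] [Group H] [Group Q] [Finite Q] (Φ : NatBij G H)
    {π : G →* Q} {π' : H →* Q} (S : Subgroup Q) (Ψ : NatBij (S.comap π) (S.comap π'))
    (hΨ : ∀ (R : Type) [Group R] [Finite R] (θ : G →* R),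
      Ψ.toFun R (θ.comp (S.comap π).subtype) = (Φ.toFun R θ).comp (S.comap π').subtype)
    (x : S.comap π) (l : S.comap π')
    (hx : ∀ (E : Type) [Group E] [Finite E] (θ : G →* E), Φ.toFun E θ (l : H) = θ (x : G))
    (P : Type) [Group P] [Finite P] (ψ : S.comap π →* P) : Ψ.toFun P ψ l = ψ x := by
  classical
  have hSf : (S.comap π).FiniteIndex := Wsub_fi π S
  let K : Subgroup G := ψ.ker.map (S.comap π).subtype
  have hKfin : K.FiniteIndex := by
    refine ⟨?_⟩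
    have h1 : K.index = ψ.ker.index * (S.comap π).index := Subgroup.index_map_subtype _
    have h2 : ψ.ker.index ≠ 0 := (Subgroup.finiteIndex_ker ψ).index_ne_zero
    rw [h1]
    exact mul_ne_zero h2 hSf.index_ne_zero
  let K₀ : Subgroup G := K.normalCore
  have hK₀ : K₀ ≤ K := Subgroup.normalCore_le K
  have hK₀fin : K₀.FiniteIndex := Subgroup.finiteIndex_normalCore K
  have hfq : Finite (G ⧸ K₀) := Subgroup.finite_quotient_of_finiteIndex
  let θ : G →* G ⧸ K₀ := QuotientGroup.mk' K₀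
  have hwd : ∀ ν ν' : S.comap π, θ ν = θ ν' → ψ ν = ψ ν' := by
    intro ν ν' h
    have h1 : (ν : G)⁻¹ * ν' ∈ K₀ := QuotientGroup.eq.1 h
    obtain ⟨k, hk, hk2⟩ := hK₀ h1
    have h2 : k = ν⁻¹ * ν' := Subtype.ext hk2
    have h3 : ψ k = 1 := hk
    rw [h2, map_mul, map_inv] at h3
    exact inv_mul_eq_one.1 h3
  obtain ⟨g, hg1, hg2⟩ := pair_val Ψ ψ (θ.comp (S.comap π).subtype) l
  rw [hΨ] at hg2
  have h4 : θ (g : G) = θ (x : G) := by
    rw [← hx]
    exact hg2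
  rw [← hg1]
  exact hwd g x h4

/-- PIECE CG W sub -/
theorem p_Wsub : W_sub := by
  intro a b hn m₀ hm₀ hX D hGD hneg Λ _ _ hRF Φ hNZ
  classical
  have hQf : Finite (SL2 (Qf a b (ZMod m₀))) := inferInstance
  let π : D →* SL2 (Qf a b (ZMod m₀)) := (rdq a b m₀).comp D.subtype
  let S : Subgroup (SL2 (Qf a b (ZMod m₀))) := pmo (Qf a b (ZMod m₀))
  obtain ⟨Ψ, hΨ⟩ : ∃ Ψ : NatBij (S.comap π) (LL Φ m₀),
      ∀ (R : Type) [Group R] [Finite R] (θ : D →* R),
      Ψ.toFun R (θ.comp (S.comap π).subtype) = (Φ.toFun R θ).comp (LL Φ m₀).subtype :=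
    natBij_comap Φ (π := π) rfl S
  -- `± Γ(m₀)`
  have hD : ∀ x ∈ pmS (Gam a b m₀), x ∈ D := by
    intro x hx
    rcases hx with h | h
    · exact hGD h
    · have h1 : x = -1 * -x := by rw [neg_mul_neg, one_mul]
      rw [h1]
      exact mul_mem hneg (hGD h)
  have hS : ∀ x (hx : x ∈ pmS (Gam a b m₀)), (⟨x, hD x hx⟩ : D) ∈ S.comap π := by
    intro x hx
    show rdq a b m₀ x ∈ pmo _
    rcases hx with h | h
    · exact Or.inl h
    · right
      have h1 : rdq a b m₀ (-x) = 1 := h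
      rw [rdq_neg] at h1
      rw [← neg_neg (rdq a b m₀ x), h1]
  have hS' : ∀ y : S.comap π, y.val.val ∈ pmS (Gam a b m₀) := by
    rintro ⟨⟨x, hxD⟩, hx⟩
    have hx' : rdq a b m₀ x = 1 ∨ rdq a b m₀ x = -1 := hx
    rcases hx' with h | h
    · exact Or.inl h
    · right
      show rdq a b m₀ (-x) = 1
      rw [rdq_neg, h, neg_neg]
  let e : pmS (Gam a b m₀) ≃* S.comap π :=
    { toFun := fun x => ⟨⟨x.val, hD x.val x.2⟩, hS x.val x.2⟩
      invFun := fun y => ⟨y.val.val, hS' y⟩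
      left_inv := fun x => rfl
      right_inv := fun y => rfl
      map_mul' := fun x y => rfl }
  let Φ' : NatBij (pmS (Gam a b m₀)) (LL Φ m₀) := natBij_equiv e Ψ
  have hfin : (LL Φ m₀).FiniteIndex := by
    unfold LL
    exact Wsub_fi _ _
  have hfg : Group.FG (LL Φ m₀) := inferInstance
  have hRF' : Group.ResiduallyFinite (LL Φ m₀) := inferInstance
  have hNZ' : NegZ Φ' := by
    intro h
    obtain ⟨z, hz⟩ := hNZ hneg
    have hzL : z ∈ LL Φ m₀ := by
      show Φ.toFun _ ((rdq a b m₀).comp D.subtype) z ∈ pmo _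
      rw [hz]
      right
      show rdq a b m₀ (-1) = -1
      rw [rdq_neg, map_one]
    refine ⟨⟨z, hzL⟩, fun P _ _ f => ?_⟩
    show Ψ.toFun P (f.comp e.symm.toMonoidHom) ⟨z, hzL⟩ = f ⟨-1, h⟩
    exact Wsub_ext Φ S Ψ hΨ ⟨⟨-1, hneg⟩, hS _ h⟩ ⟨z, hzL⟩ (fun E _ _ θ => hz E θ) P
      (f.comp e.symm.toMonoidHom)
  obtain ⟨ρ, hρ, hρ1, hρ2⟩ := hX (LL Φ m₀) hRF' Φ' hNZ'
  refine ⟨ρ, ?_, hρ1, hρ2⟩
  intro m hm
  obtain ⟨C, E, hCE, hEC, h⟩ := hρ m
  refine ⟨C, E, hCE, hEC, fun l => ?_⟩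
  rw [h l]
  have h1 : Φ'.toFun _ ((rdq a b m).comp (pmS (Gam a b m₀)).subtype) l =
      Φ.toFun _ ((rdq a b m).comp D.subtype) l :=
    DFunLike.congr_fun (hΨ _ ((rdq a b m).comp D.subtype)) l
  rw [h1]

end Pool.Agent.F8.CG
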