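import Pool.Agent.Lib.MP_305fdd_al.F8.CG.StmX
import Pool.Agent.Lib.MP_305fdd_al.F8.Tower
import Pool.Agent.Lib.MP_305fdd_al.F8.BG.P_E

/-!
# MP_305fdd_al, congruence subgroups, block X: groups generated by good subgroups
-/

set_option autoImplicit false

namespace Pool.Agent.F8.CG

open Pool.Agent.F8.BG Pool.Agent.MP_305fdd_al Pool.Agent.Lib.MP_305fdd_al Pool.Agent.F8
  Pool.Agent.F8.HN
open scoped QuadraticAlgebra

noncomputable section

/-- the quotients of `ℤ[w]` -/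
private theorem Xgen_fin {a b : ℤ} (hn : b ^ 2 + 4 * a < 0) (x : Qf a b ℤ) (hx : x ≠ 0) :
    Finite (Qf a b ℤ ⧸ Ideal.span {x}) := by
  obtain ⟨n, hn0, c, hc⟩ := E_dvd hn x hx
  have hnI : (n : Qf a b ℤ) ∈ Ideal.span {x} := by
    rw [hc]
    exact Ideal.mul_mem_right _ _ (Ideal.subset_span rfl)
  have hz : (n : ℤ) ≠ 0 := by exact_mod_cast hn0.ne'
  refine Finite.of_surjective (fun p : Fin n × Fin n =>
    Ideal.Quotient.mk (Ideal.span {x}) (⟨((p.1 : ℕ) : ℤ), ((p.2 : ℕ) : ℤ)⟩ : Qf a b ℤ)) ?_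
  intro y
  obtain ⟨z, rfl⟩ := Ideal.Quotient.mk_surjective y
  have h1 : 0 ≤ z.re % n := Int.emod_nonneg _ hz
  have h2 : z.re % n < n := Int.emod_lt_of_pos _ (by exact_mod_cast hn0)
  have h3 : 0 ≤ z.im % n := Int.emod_nonneg _ hz
  have h4 : z.im % n < n := Int.emod_lt_of_pos _ (by exact_mod_cast hn0)
  refine ⟨(⟨(z.re % n).toNat, by omega⟩, ⟨(z.im % n).toNat, by omega⟩), ?_⟩
  show Ideal.Quotient.mk (Ideal.span {x}) (⟨(((z.re % n).toNat : ℕ) : ℤ),
    (((z.im % n).toNat : ℕ) : ℤ)⟩ : Qf a b ℤ) = Ideal.Quotient.mk (Ideal.span {x}) z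
  rw [Int.toNat_of_nonneg h1, Int.toNat_of_nonneg h3, Ideal.Quotient.eq]
  have h5 : (⟨z.re % n, z.im % n⟩ : Qf a b ℤ) - z =
      (n : Qf a b ℤ) * ⟨-(z.re / n), -(z.im / n)⟩ := by
    have e1 := Int.emod_add_mul_ediv z.re n
    have e2 := Int.emod_add_mul_ediv z.im n
    apply QuadraticAlgebra.ext
    · rw [QuadraticAlgebra.re_sub, QuadraticAlgebra.re_mul]
      simp only [QuadraticAlgebra.re_natCast, QuadraticAlgebra.im_natCast]
      linear_combination e1
    · rw [QuadraticAlgebra.im_sub, QuadraticAlgebra.im_mul]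
      simp only [QuadraticAlgebra.re_natCast, QuadraticAlgebra.im_natCast]
      linear_combination e2
  rw [h5]
  exact Ideal.mul_mem_right _ _ hnI

/-- the finite quotients of `ℤ[w]` separate the points -/
private theorem Xgen_sep {a b : ℤ} (x : Qf a b ℤ) (hx : x ≠ 0) :
    ∃ m : ℕ, NeZero m ∧ Qfm a b (Int.castRingHom (ZMod m)) x ≠ 0 := by
  refine ⟨x.re.natAbs + x.im.natAbs + 1, ⟨by omega⟩, fun h => hx ?_⟩
  obtain ⟨c, hc⟩ := E_ker a b _ x h
  have h1 : x.re = ((x.re.natAbs + x.im.natAbs + 1 : ℕ) : ℤ) * c.re := by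
    conv_lhs => rw [hc]
    rw [QuadraticAlgebra.re_mul, QuadraticAlgebra.re_natCast, QuadraticAlgebra.im_natCast]
    ring
  have h2 : x.im = ((x.re.natAbs + x.im.natAbs + 1 : ℕ) : ℤ) * c.im := by
    conv_lhs => rw [hc]
    rw [QuadraticAlgebra.im_mul, QuadraticAlgebra.re_natCast, QuadraticAlgebra.im_natCast]
    ring
  have h3 : x.re = 0 := by
    by_contra h0
    have h4 : (x.re.natAbs + x.im.natAbs + 1) ∣ x.re.natAbs :=
      Int.natCast_dvd_natCast.1 (by rw [Int.dvd_natAbs]; exact ⟨_, h1⟩)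
    have h5 := Nat.le_of_dvd (Int.natAbs_pos.2 h0) h4
    omega
  have h4 : x.im = 0 := by
    by_contra h0
    have h4 : (x.re.natAbs + x.im.natAbs + 1) ∣ x.im.natAbs :=
      Int.natCast_dvd_natCast.1 (by rw [Int.dvd_natAbs]; exact ⟨_, h2⟩)
    have h5 := Nat.le_of_dvd (Int.natAbs_pos.2 h0) h4
    omega
  exact QuadraticAlgebra.ext h3 h4

/-- elements of the group which correspond to a given element for two homomorphisms -/
private theorem Xgen_val {G Λ : Type} [Group G] [Group Λ] (Φ : NatBij G Λ) {E E' : Type} [Group E]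
    [Finite E] [Group E'] [Finite E'] (θ : G →* E) (θ' : G →* E') (g : G) :
    ∃ l, Φ.toFun _ θ l = θ g ∧ Φ.toFun _ θ' l = θ' g := by
  obtain ⟨l, h1, h2⟩ := pair_val Φ.symm (Φ.toFun _ θ) (Φ.toFun _ θ') g
  refine ⟨l, ?_, ?_⟩
  · rw [h1]
    exact DFunLike.congr_fun (Φ.left_inv E θ) g
  · rw [h2]
    exact DFunLike.congr_fun (Φ.left_inv E' θ') g

theorem p_Xgen (hext : X_ext) : X_gen := by
  intro a b hn G _ ρ₀ J _ _ E hfi hE hirr Z hZ hcl Λ _ _ Φ hz
  have hdom : IsDomain (Qf a b ℤ) := Qf_domain hn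
  -- the finite quotient
  have hN1 : (⨅ j, E j).FiniteIndex := by
    have := hfi
    exact Subgroup.finiteIndex_iInf hfi
  let N : Subgroup G := (⨅ j, E j).normalCore
  have hN : N.FiniteIndex := Subgroup.finiteIndex_normalCore _
  have hNE : ∀ j, N ≤ E j := fun j => (Subgroup.normalCore_le _).trans (iInf_le _ j)
  have hQ : Finite (G ⧸ N) := Subgroup.finite_quotient_of_finiteIndex
  let π : G →* G ⧸ N := QuotientGroup.mk' N
  have hπk : π.ker = N := QuotientGroup.ker_mk' N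
  let π' : Λ →* G ⧸ N := Φ.toFun _ π
  let B : J → Subgroup (G ⧸ N) := fun j => (E j).map π
  have hEB : ∀ j, E j = (B j).comap π := fun j =>
    (Subgroup.comap_map_eq_self (by rw [hπk]; exact hNE j)).symm
  let L : J → Subgroup Λ := fun j => (B j).comap π'
  have hL0 : ∀ j, π'.ker ≤ L j := fun j x hx => by
    show π' x ∈ B j
    rw [MonoidHom.mem_ker.1 hx]
    exact (B j).one_mem
  have hLT : ∀ j, ∀ l ∈ L j, ∃ t, IsT ρ₀ Φ l t := by
    intro j l hl
    obtain ⟨Ψ, hΨ⟩ := natBij_sub Φ (π := π) rfl (B j) (E j) (L j) (hEB j) rfl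
    have hfiL : (L j).FiniteIndex := by
      have h2 : π'.ker.FiniteIndex := Subgroup.finiteIndex_ker _
      exact Subgroup.finiteIndex_of_le (hL0 j)
    have hfg : Group.FG (L j) := Subgroup.fg_of_index_ne_zero (L j)
    obtain ⟨t, ht⟩ := hE j (L j) Ψ ⟨l, hl⟩
    refine ⟨t, ?_⟩
    intro S _ _ h
    rw [ht S h]
    have e1 : (SLm h).comp (ρ₀.comp (E j).subtype) = ((SLm h).comp ρ₀).comp (E j).subtype := rfl
    rw [e1, hΨ]
    rfl
  -- the set corresponding to `Z`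
  let Z' : Set Λ := {z | ∃ c ∈ Z, ∀ (Q : Type) [Group Q] [Finite Q] (f : G →* Q),
    Φ.toFun Q f z = f c}
  have hZ' : ∀ z ∈ Z', ∀ (S : Type) [CommRing S] [Finite S] (h : Qf a b ℤ →+* S),
      Φ.toFun _ ((SLm h).comp ρ₀) z = -1 := by
    intro z ⟨c, hc, hzc⟩ S _ _ h
    rw [hzc]
    show SLm h (ρ₀ c) = -1
    rw [hZ c hc]
    apply Subtype.ext
    ext i j
    show h ((-1 : GQ a b).val i j) = (-1 : SL2 S).val i j
    rw [Matrix.SpecialLinearGroup.coe_neg, Matrix.SpecialLinearGroup.coe_neg,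
      Matrix.SpecialLinearGroup.coe_one, Matrix.SpecialLinearGroup.coe_one, Matrix.neg_apply,
      Matrix.neg_apply, map_neg, Matrix.one_apply, Matrix.one_apply]
    split_ifs <;> simp
  -- irreducibility
  have hI : ∃ x ∈ π'.ker, ∃ y ∈ π'.ker, ∃ t, IsT ρ₀ Φ (x * y * x⁻¹ * y⁻¹) t ∧ t ≠ 2 := by
    obtain ⟨g, hg, g', hg', hne⟩ := hirr N hN
    obtain ⟨m, hm, hδ⟩ := Xgen_sep (tr (ρ₀ (g * g' * g⁻¹ * g'⁻¹)) - 2) (sub_ne_zero.2 hne)
    let h : Qf a b ℤ →+* Qf a b (ZMod m) := Qfm a b (Int.castRingHom (ZMod m))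
    have hfin : Finite (Qf a b (ZMod m)) := inferInstance
    obtain ⟨l, hl1, hl2⟩ := Xgen_val Φ π ((SLm h).comp ρ₀) g
    obtain ⟨l', hl1', hl2'⟩ := Xgen_val Φ π ((SLm h).comp ρ₀) g'
    have hlk : l ∈ π'.ker := by
      rw [MonoidHom.mem_ker]
      show Φ.toFun _ π l = 1
      rw [hl1]
      exact (QuotientGroup.eq_one_iff g).2 hg
    have hlk' : l' ∈ π'.ker := by
      rw [MonoidHom.mem_ker]
      show Φ.toFun _ π l' = 1
      rw [hl1']
      exact (QuotientGroup.eq_one_iff g').2 hg'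
    have hc : l * l' * l⁻¹ * l'⁻¹ ∈ π'.ker :=
      mul_mem (mul_mem (mul_mem hlk hlk') (inv_mem hlk)) (inv_mem hlk')
    obtain ⟨t, ht⟩ := hLT (Classical.arbitrary J) _ (hL0 _ hc)
    refine ⟨l, hlk, l', hlk', t, ht, ?_⟩
    rintro rfl
    apply hδ
    have h1 := ht _ h
    rw [map_mul, map_mul, map_mul, map_inv, map_inv, hl2, hl2', ← map_inv, ← map_inv, ← map_mul,
      ← map_mul, ← map_mul] at h1
    have h2 : tr (((SLm h).comp ρ₀) (g * g' * g⁻¹ * g'⁻¹)) =
        h (tr (ρ₀ (g * g' * g⁻¹ * g'⁻¹))) := by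
      show (((SLm h) (ρ₀ (g * g' * g⁻¹ * g'⁻¹))).val).trace =
        h ((ρ₀ (g * g' * g⁻¹ * g'⁻¹)).val.trace)
      rw [Matrix.trace_fin_two, Matrix.trace_fin_two, map_add]
      rfl
    rw [h2] at h1
    show h _ = 0
    rw [map_sub, ← h1, sub_self]
  -- generation
  have hgen : Subgroup.closure (Z' ∪ ⋃ j, (L j : Set Λ)) = ⊤ := by
    set K := Subgroup.closure (Z' ∪ ⋃ j, (L j : Set Λ)) with hK
    have hLK : ∀ j, L j ≤ K := fun j x hx =>
      Subgroup.subset_closure (Or.inr (Set.mem_iUnion.2 ⟨j, hx⟩))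
    have h1 : ∀ g : G, π g ∈ K.map π' := by
      intro g
      have hg : g ∈ Subgroup.closure (Z ∪ ⋃ j, (E j : Set G)) := by
        rw [hcl]; exact Subgroup.mem_top _
      induction hg using Subgroup.closure_induction with
      | mem x hx =>
        rcases hx with hx | hx
        · obtain ⟨z, hz1⟩ := hz x hx
          exact ⟨z, Subgroup.subset_closure (Or.inl ⟨x, hx, hz1⟩), hz1 _ π⟩
        · obtain ⟨j, hj⟩ := Set.mem_iUnion.1 hx
          obtain ⟨l, hl, -⟩ := Xgen_val Φ π π x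
          refine ⟨l, hLK j ?_, hl⟩
          show Φ.toFun _ π l ∈ B j
          rw [hl]
          exact ⟨x, hj, rfl⟩
      | one => rw [map_one]; exact one_mem _
      | mul x y _ _ hx hy => rw [map_mul]; exact mul_mem hx hy
      | inv x _ hx => rw [map_inv]; exact inv_mem hx
    rw [eq_top_iff]
    intro l _
    obtain ⟨g, hg⟩ := QuotientGroup.mk'_surjective N (π' l)
    obtain ⟨k, hk, hkl⟩ := h1 g
    have h2 : π' k = π' l := hkl.trans hg
    have h3 : k⁻¹ * l ∈ π'.ker := by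
      rw [MonoidHom.mem_ker, map_mul, map_inv, h2, inv_mul_cancel]
    have h4 : k * (k⁻¹ * l) ∈ K :=
      mul_mem hk (hLK (Classical.arbitrary J) (hL0 _ h3))
    rwa [mul_inv_cancel_left] at h4
  have hall := hext (Qf a b ℤ) G Λ (fun x hx => Xgen_fin hn x hx)
    (by
      intro x hx
      by_contra h0
      obtain ⟨m, hm, hne⟩ := Xgen_sep x h0
      have hfin : Finite (Qf a b (ZMod m)) := inferInstance
      exact hne (hx _ (Qfm a b (Int.castRingHom (ZMod m)))))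
    ρ₀ Φ π'.ker J L hL0 hLT hI Z' hZ' hgen
  choose T hT using hall
  exact ⟨T, fun S _ _ h l => hT l S h⟩

end

end Pool.Agent.F8.CG
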