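import Pool.Agent.Lib.MP_305fdd_al.F8.CG.StmZ

/-!
# MP_305fdd_al, congruence subgroups: the group is a twisted form of `D` (piece Zgen)
-/

set_option autoImplicit false

namespace Pool.Agent.F8.CG

open Pool.Agent.F8.BG Pool.Agent.MP_305fdd_al Pool.Agent.Lib.MP_305fdd_al Pool.Agent.F8
open scoped QuadraticAlgebra

noncomputable section

private theorem Zgen_T {S : Type} [CommRing S] (e : Sˣ) :
    (!![e.val, 0; 0, 1] : Matrix (Fin 2) (Fin 2) S) * !![(e⁻¹).val, 0; 0, 1] = 1 := by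
  ext i j
  fin_cases i <;> fin_cases j <;> simp [Matrix.mul_apply, Fin.sum_univ_two]

private theorem Zgen_Ti {S : Type} [CommRing S] (e : Sˣ) :
    (!![(e⁻¹).val, 0; 0, 1] : Matrix (Fin 2) (Fin 2) S) * !![e.val, 0; 0, 1] = 1 := by
  ext i j
  fin_cases i <;> fin_cases j <;> simp [Matrix.mul_apply, Fin.sum_univ_two]

private theorem Zgen_val {a b : ℤ} {m : ℕ} [NeZero m] (γ y : GQ a b)
    (Si : Matrix (Fin 2) (Fin 2) (Qf a b (ZMod m))) (h : (rdq a b m γ).val * Si = 1) :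
    (rdq a b m (γ * y * γ⁻¹)).val = (rdq a b m γ).val * (rdq a b m y).val * Si := by
  have h1 : ((rdq a b m γ)⁻¹).val = Si := by
    have h2 : ((rdq a b m γ)⁻¹).val * (rdq a b m γ).val = 1 := by
      rw [← Matrix.SpecialLinearGroup.coe_mul, inv_mul_cancel, Matrix.SpecialLinearGroup.coe_one]
    calc ((rdq a b m γ)⁻¹).val = ((rdq a b m γ)⁻¹).val * ((rdq a b m γ).val * Si) := by
          rw [h, mul_one]
      _ = Si := by rw [← mul_assoc, h2, one_mul]
  rw [map_mul, map_mul, map_inv, Matrix.SpecialLinearGroup.coe_mul,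
    Matrix.SpecialLinearGroup.coe_mul, h1]

/-- [CG Zgen] `Λ` is isomorphic to a twisted form of `D`. -/
theorem p_Zgen (hsrd : C_srd) : Z_gen := by
  intro a b D m₀ _ _ Λ _ Φ ρ hρ hG hinj
  obtain ⟨C, E, hCE, hEC, hl⟩ := hρ m₀
  have hdet : C.det * E.det = 1 := by rw [← Matrix.det_mul, hCE, Matrix.det_one]
  have hdet' : E.det * C.det = 1 := by rw [mul_comm]; exact hdet
  let e : (Qf a b (ZMod m₀))ˣ := ⟨C.det, E.det, hdet, hdet'⟩
  have hei : (e⁻¹).val = E.det := rfl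
  have hS : (C * !![(e⁻¹).val, 0; 0, 1]).det = 1 := by
    rw [Matrix.det_mul, Matrix.det_fin_two_of, hei]
    rw [mul_one, mul_zero, sub_zero]
    exact hdet
  obtain ⟨γ, hγ⟩ := hsrd a b m₀ ⟨C * !![(e⁻¹).val, 0; 0, 1], hS⟩
  have hγv : (rdq a b m₀ γ).val = C * !![(e⁻¹).val, 0; 0, 1] := by rw [hγ]
  have hSi : (rdq a b m₀ γ).val * (!![e.val, 0; 0, 1] * E) = 1 := by
    rw [hγv]
    calc C * !![(e⁻¹).val, 0; 0, 1] * (!![e.val, 0; 0, 1] * E)
        = C * (!![(e⁻¹).val, 0; 0, 1] * !![e.val, 0; 0, 1]) * E := by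
          simp only [mul_assoc]
      _ = 1 := by rw [Zgen_Ti, mul_one, hCE]
  -- the two forms of the relation
  have fwd : ∀ y x : GQ a b,
      (rdq a b m₀ y).val * !![e.val, 0; 0, 1] = !![e.val, 0; 0, 1] * (rdq a b m₀ x).val →
      (rdq a b m₀ (γ * y * γ⁻¹)).val = C * (rdq a b m₀ x).val * E := by
    intro y x h
    rw [Zgen_val γ y _ hSi, hγv]
    calc C * !![(e⁻¹).val, 0; 0, 1] * (rdq a b m₀ y).val * (!![e.val, 0; 0, 1] * E)
        = C * !![(e⁻¹).val, 0; 0, 1] * ((rdq a b m₀ y).val * !![e.val, 0; 0, 1]) * E := by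
          simp only [mul_assoc]
      _ = C * (!![(e⁻¹).val, 0; 0, 1] * !![e.val, 0; 0, 1]) * (rdq a b m₀ x).val * E := by
          rw [h]
          simp only [mul_assoc]
      _ = C * (rdq a b m₀ x).val * E := by rw [Zgen_Ti, mul_one]
  have bwd : ∀ y x : GQ a b,
      (rdq a b m₀ (γ * y * γ⁻¹)).val = C * (rdq a b m₀ x).val * E →
      (rdq a b m₀ y).val * !![e.val, 0; 0, 1] = !![e.val, 0; 0, 1] * (rdq a b m₀ x).val := by
    intro y x h
    rw [Zgen_val γ y _ hSi, hγv] at h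
    have h2 : !![(e⁻¹).val, 0; 0, 1] * ((rdq a b m₀ y).val * !![e.val, 0; 0, 1]) =
        (rdq a b m₀ x).val := by
      calc !![(e⁻¹).val, 0; 0, 1] * ((rdq a b m₀ y).val * !![e.val, 0; 0, 1])
          = (E * C) * (!![(e⁻¹).val, 0; 0, 1] * ((rdq a b m₀ y).val * !![e.val, 0; 0, 1])) *
            (E * C) := by rw [hEC, one_mul, mul_one]
        _ = E * (C * !![(e⁻¹).val, 0; 0, 1] * (rdq a b m₀ y).val * (!![e.val, 0; 0, 1] * E)) *
            C := by simp only [mul_assoc]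
        _ = E * (C * (rdq a b m₀ x).val * E) * C := by rw [h]
        _ = (E * C) * (rdq a b m₀ x).val * (E * C) := by simp only [mul_assoc]
        _ = (rdq a b m₀ x).val := by rw [hEC, one_mul, mul_one]
    rw [← h2, ← mul_assoc, Zgen_T, one_mul]
  have hrange := Φ.range_eq ((rdq a b m₀).comp D.subtype)
  have hr : ρ.range = (twD D m₀ e).map (MulAut.conj γ).toMonoidHom := by
    ext z
    constructor
    · rintro ⟨l, rfl⟩
      have h3 : Φ.toFun _ ((rdq a b m₀).comp D.subtype) l ∈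
          ((rdq a b m₀).comp D.subtype).range := by
        rw [← hrange]
        exact ⟨l, rfl⟩
      obtain ⟨x, hx⟩ := h3
      have h4 : γ * (γ⁻¹ * ρ l * γ) * γ⁻¹ = ρ l := by group
      refine ⟨γ⁻¹ * ρ l * γ, ⟨x.1, x.2, ?_⟩, ?_⟩
      · apply bwd
        rw [h4, hl l, ← hx]
        rfl
      · exact h4
    · rintro ⟨y, hyD, rfl⟩
      show γ * y * γ⁻¹ ∈ ρ.range
      obtain ⟨x, hxD, hx⟩ := hyD
      have h3 : ((rdq a b m₀).comp D.subtype) ⟨x, hxD⟩ ∈
          (Φ.toFun _ ((rdq a b m₀).comp D.subtype)).range := by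
        rw [hrange]
        exact ⟨_, rfl⟩
      obtain ⟨l, hl'⟩ := h3
      have h4 : rdq a b m₀ (γ * y * γ⁻¹) = rdq a b m₀ (ρ l) := by
        apply Subtype.ext
        rw [fwd y x hx, hl l, hl']
        rfl
      have h5 : (ρ l)⁻¹ * (γ * y * γ⁻¹) ∈ Gam a b m₀ := by
        rw [MonoidHom.mem_ker, map_mul, map_inv, h4, inv_mul_cancel]
      have h6 := ρ.range.mul_mem (⟨l, rfl⟩ : ρ l ∈ ρ.range) (hG h5)
      rwa [mul_inv_cancel_left] at h6
  have e1 : Λ ≃* ρ.range := MonoidHom.ofInjective hinj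
  have e2 : twD D m₀ e ≃* (twD D m₀ e).map (MulAut.conj γ).toMonoidHom :=
    (twD D m₀ e).equivMapOfInjective _ (MulAut.conj γ).injective
  exact ⟨e, ⟨e1.trans ((MulEquiv.subgroupCongr hr).trans e2.symm)⟩, C, E, hCE, hEC, hl, rfl⟩

end

end Pool.Agent.F8.CG
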