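import Pool.Agent.Lib.MP_305fdd_al.F8.CG.StmZ

/-!
# MP_305fdd_al, congruence subgroups: isomorphic twisted forms (piece Znrm)
-/

set_option autoImplicit false

namespace Pool.Agent.F8.CG

open Pool.Agent.F8.BG Pool.Agent.MP_305fdd_al Pool.Agent.Lib.MP_305fdd_al Pool.Agent.F8
open scoped QuadraticAlgebra

noncomputable section

private theorem Znrm_dd {S : Type} [CommRing S] (x y x' y' : S) :
    (!![x, 0; 0, y] : Matrix (Fin 2) (Fin 2) S) * !![x', 0; 0, y'] = !![x * x', 0; 0, y * y'] := by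
  rw [Matrix.mul_fin_two]
  simp

private theorem Znrm_one {S : Type} [CommRing S] :
    (!![1, 0; 0, 1] : Matrix (Fin 2) (Fin 2) S) = 1 := Matrix.one_fin_two.symm

private theorem Znrm_det {S : Type} [CommRing S] (u u' : S) (h : u * u' = 1)
    (X : Matrix (Fin 2) (Fin 2) S) (hX : X.det = 1) :
    ((!![u, 0; 0, 1] : Matrix (Fin 2) (Fin 2) S) * X * !![u', 0; 0, 1]).det = 1 := by
  rw [Matrix.det_mul, Matrix.det_mul, hX, Matrix.det_fin_two_of, Matrix.det_fin_two_of]
  linear_combination h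

/-- the conjugation with `diag(u, 1)` -/
private def Znrm_dl {S : Type} [CommRing S] (u u' : S) (h : u * u' = 1) : SL2 S ≃* SL2 S where
  toFun x := ⟨!![u, 0; 0, 1] * x.val * !![u', 0; 0, 1], Znrm_det u u' h x.val x.2⟩
  invFun x := ⟨!![u', 0; 0, 1] * x.val * !![u, 0; 0, 1],
    Znrm_det u' u (by rw [mul_comm]; exact h) x.val x.2⟩
  left_inv x := by
    apply Subtype.ext
    have h' : u' * u = 1 := by rw [mul_comm]; exact h
    show !![u', 0; 0, 1] * (!![u, 0; 0, 1] * x.val * !![u', 0; 0, 1]) * !![u, 0; 0, 1] = x.val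
    calc !![u', 0; 0, 1] * (!![u, 0; 0, 1] * x.val * !![u', 0; 0, 1]) * !![u, 0; 0, 1]
        = (!![u', 0; 0, 1] * !![u, 0; 0, 1]) * x.val * (!![u', 0; 0, 1] * !![u, 0; 0, 1]) := by
          simp only [mul_assoc]
      _ = x.val := by rw [Znrm_dd, h', mul_one, Znrm_one, one_mul, mul_one]
  right_inv x := by
    apply Subtype.ext
    show !![u, 0; 0, 1] * (!![u', 0; 0, 1] * x.val * !![u, 0; 0, 1]) * !![u', 0; 0, 1] = x.val
    calc !![u, 0; 0, 1] * (!![u', 0; 0, 1] * x.val * !![u, 0; 0, 1]) * !![u', 0; 0, 1]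
        = (!![u, 0; 0, 1] * !![u', 0; 0, 1]) * x.val * (!![u, 0; 0, 1] * !![u', 0; 0, 1]) := by
          simp only [mul_assoc]
      _ = x.val := by rw [Znrm_dd, h, mul_one, Znrm_one, one_mul, mul_one]
  map_mul' x y := by
    apply Subtype.ext
    have h' : u' * u = 1 := by rw [mul_comm]; exact h
    show !![u, 0; 0, 1] * (x.val * y.val) * !![u', 0; 0, 1] =
      (!![u, 0; 0, 1] * x.val * !![u', 0; 0, 1]) * (!![u, 0; 0, 1] * y.val * !![u', 0; 0, 1])
    calc !![u, 0; 0, 1] * (x.val * y.val) * !![u', 0; 0, 1]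
        = !![u, 0; 0, 1] * x.val * (!![u', 0; 0, 1] * !![u, 0; 0, 1]) * y.val *
            !![u', 0; 0, 1] := by
          rw [Znrm_dd, h', mul_one, Znrm_one, mul_one]
          simp only [mul_assoc]
      _ = _ := by simp only [mul_assoc]

private theorem Znrm_dl_val {S : Type} [CommRing S] (u u' : S) (h : u * u' = 1) (x : SL2 S) :
    (Znrm_dl u u' h x).val * !![u, 0; 0, 1] = !![u, 0; 0, 1] * x.val := by
  have h' : u' * u = 1 := by rw [mul_comm]; exact h
  show !![u, 0; 0, 1] * x.val * !![u', 0; 0, 1] * !![u, 0; 0, 1] = _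
  rw [mul_assoc _ !![u', 0; 0, 1], Znrm_dd, h', mul_one, Znrm_one, mul_one]

/-- reduction of an identity of matrices -/
private theorem Znrm_map {a b : ℤ} {m : ℕ} (x y : GQ a b) (u : Qf a b ℤ)
    (h : x.val * !![u, 0; 0, 1] = !![u, 0; 0, 1] * y.val) :
    (rdq a b m x).val * !![Qfm a b (Int.castRingHom (ZMod m)) u, 0; 0, 1] =
      !![Qfm a b (Int.castRingHom (ZMod m)) u, 0; 0, 1] * (rdq a b m y).val := by
  have h1 := congrArg (fun M => (Qfm a b (Int.castRingHom (ZMod m))).mapMatrix M) h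
  simp only [map_mul] at h1
  have h2 : (Qfm a b (Int.castRingHom (ZMod m))).mapMatrix (!![u, 0; 0, 1]) =
      !![Qfm a b (Int.castRingHom (ZMod m)) u, 0; 0, 1] := by
    ext i j : 1
    fin_cases i <;> fin_cases j <;> simp
  rw [h2] at h1
  exact h1

/-- [CG Znrm] isomorphic twisted forms. -/
theorem p_Znrm (hsrd : C_srd) : Z_nrm := by
  intro a b D m _ hG e v u u' Y Y' huu hYY hYY' hY hY' he
  have hdet : Y.det * Y'.det = 1 := by rw [← Matrix.det_mul, hYY, Matrix.det_one]
  have hvv : v.val * (v⁻¹).val = 1 := v.mul_inv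
  have hvv' : (v⁻¹).val * v.val = 1 := v.inv_mul
  -- the element `γ`
  have hS : (!![v.val ^ 2 * Y.det, 0; 0, 1] * ((v⁻¹).val • Y')).det = 1 := by
    rw [Matrix.det_mul, Matrix.det_smul, Matrix.det_fin_two_of, Fintype.card_fin]
    have h1 : v.val ^ 2 * (v⁻¹).val ^ 2 = 1 := by rw [← mul_pow, hvv, one_pow]
    linear_combination (Y.det * Y'.det) * h1 + hdet
  obtain ⟨γ, hγ⟩ := hsrd a b m ⟨_, hS⟩
  have hγv : (rdq a b m γ).val = !![v.val ^ 2 * Y.det, 0; 0, 1] * ((v⁻¹).val • Y') := by rw [hγ]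
  set w := Qfm a b (Int.castRingHom (ZMod m)) u with hw
  set w' := Qfm a b (Int.castRingHom (ZMod m)) u' with hw'
  have hww : w * w' = 1 := by rw [hw, hw', ← map_mul, huu, map_one]
  -- `T = v • (U * S * Y)`
  have hT : (!![e.val, 0; 0, 1] : Matrix (Fin 2) (Fin 2) (Qf a b (ZMod m))) =
      v.val • (!![w, 0; 0, 1] * (rdq a b m γ).val * Y) := by
    rw [hγv]
    calc (!![e.val, 0; 0, 1] : Matrix (Fin 2) (Fin 2) (Qf a b (ZMod m)))
        = !![w, 0; 0, 1] * !![v.val ^ 2 * Y.det, 0; 0, 1] := by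
          rw [Znrm_dd, mul_one, he, mul_assoc]
      _ = (v.val * (v⁻¹).val) • (!![w, 0; 0, 1] * !![v.val ^ 2 * Y.det, 0; 0, 1]) := by
          rw [hvv, one_smul]
      _ = (v.val * (v⁻¹).val) • (!![w, 0; 0, 1] * !![v.val ^ 2 * Y.det, 0; 0, 1] * (Y' * Y)) := by
          rw [hYY', mul_one]
      _ = _ := by
          simp only [Matrix.mul_smul, Matrix.smul_mul, smul_smul, mul_assoc]
  -- the matrix `P = U * S` is invertible
  have hP : ∀ X : Matrix (Fin 2) (Fin 2) (Qf a b (ZMod m)),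
      ((rdq a b m γ)⁻¹).val * !![w', 0; 0, 1] * (!![w, 0; 0, 1] * (rdq a b m γ).val * X) = X := by
    intro X
    have h1 : ((rdq a b m γ)⁻¹).val * (rdq a b m γ).val = 1 := by
      rw [← Matrix.SpecialLinearGroup.coe_mul, inv_mul_cancel, Matrix.SpecialLinearGroup.coe_one]
    calc ((rdq a b m γ)⁻¹).val * !![w', 0; 0, 1] * (!![w, 0; 0, 1] * (rdq a b m γ).val * X)
        = ((rdq a b m γ)⁻¹).val * (!![w', 0; 0, 1] * !![w, 0; 0, 1]) * (rdq a b m γ).val * X := by
          simp only [mul_assoc]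
      _ = X := by
          rw [Znrm_dd, mul_comm w' w, hww, mul_one, Znrm_one, mul_one, h1, one_mul]
  -- the automorphism
  let f : GQ a b ≃* GQ a b := (MulAut.conj γ).trans (Znrm_dl u u' huu)
  have hf : ∀ z : GQ a b, (rdq a b m (f z)).val * (!![w, 0; 0, 1] * (rdq a b m γ).val) =
      !![w, 0; 0, 1] * (rdq a b m γ).val * (rdq a b m z).val := by
    intro z
    have h1 := Znrm_map (m := m) _ _ u (Znrm_dl_val u u' huu (MulAut.conj γ z))
    rw [← mul_assoc]
    rw [show (rdq a b m (f z)).val * !![w, 0; 0, 1] =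
      !![w, 0; 0, 1] * (rdq a b m (MulAut.conj γ z)).val from h1]
    have h2 : MulAut.conj γ z * γ = γ * z := by
      show γ * z * γ⁻¹ * γ = γ * z
      group
    rw [mul_assoc, mul_assoc, ← Matrix.SpecialLinearGroup.coe_mul,
      ← Matrix.SpecialLinearGroup.coe_mul, ← map_mul, ← map_mul, h2]
  have hr : twD D m e = D.map f.toMonoidHom := by
    ext y
    constructor
    · rintro ⟨x, hx, hxy⟩
      obtain ⟨x', hx', hxY⟩ := hY x hx
      obtain ⟨z, hz⟩ := f.surjective y
      have h1 : (rdq a b m y).val * (!![w, 0; 0, 1] * (rdq a b m γ).val) =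
          !![w, 0; 0, 1] * (rdq a b m γ).val * (rdq a b m x').val := by
        rw [hT, Matrix.mul_smul, Matrix.smul_mul] at hxy
        have h2 := congrArg (fun M => (v⁻¹).val • M) hxy
        simp only [smul_smul, hvv', one_smul] at h2
        calc (rdq a b m y).val * (!![w, 0; 0, 1] * (rdq a b m γ).val)
            = (rdq a b m y).val * (!![w, 0; 0, 1] * (rdq a b m γ).val * Y) * Y' := by
              rw [mul_assoc, mul_assoc (!![w, 0; 0, 1] * (rdq a b m γ).val), hYY, mul_one]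
          _ = !![w, 0; 0, 1] * (rdq a b m γ).val * Y * (rdq a b m x).val * Y' := by rw [h2]
          _ = _ := by rw [hxY]; simp only [mul_assoc]
      have h2 : (rdq a b m z).val = (rdq a b m x').val := by
        rw [← hP (rdq a b m z).val, ← hP (rdq a b m x').val, ← h1, ← hf z, hz]
      have h3 : rdq a b m z = rdq a b m x' := Subtype.ext h2
      have h4 : x'⁻¹ * z ∈ Gam a b m := by
        rw [MonoidHom.mem_ker, map_mul, map_inv, h3, inv_mul_cancel]
      have h5 : z ∈ D := by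
        have h6 := D.mul_mem hx' (hG h4)
        rwa [mul_inv_cancel_left] at h6
      exact ⟨z, h5, hz⟩
    · rintro ⟨z, hz, rfl⟩
      obtain ⟨x, hx, hxz⟩ := hY' z hz
      refine ⟨x, hx, ?_⟩
      show (rdq a b m (f z)).val * _ = _
      rw [hT, Matrix.mul_smul, Matrix.smul_mul]
      congr 1
      calc (rdq a b m (f z)).val * (!![w, 0; 0, 1] * (rdq a b m γ).val * Y)
          = ((rdq a b m (f z)).val * (!![w, 0; 0, 1] * (rdq a b m γ).val)) * Y := by
            simp only [mul_assoc]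
        _ = !![w, 0; 0, 1] * (rdq a b m γ).val * (Y * Y') * (rdq a b m z).val * Y := by
            rw [hf z, hYY, mul_one]
        _ = _ := by rw [hxz]; simp only [mul_assoc]
  have e2 : D ≃* D.map f.toMonoidHom := D.equivMapOfInjective _ f.injective
  exact ⟨(MulEquiv.subgroupCongr hr).trans e2.symm⟩

end

end Pool.Agent.F8.CG
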