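import Pool.Agent.Lib.MP_305fdd_al.F8.CG.StmB2

/-!
# MP_305fdd_al, congruence subgroups: the piece `B_e1`
-/

set_option autoImplicit false

namespace Pool.Agent.F8.CG

open Pool.Agent.F8.BG

noncomputable section

section e1_gen

variable (F : Type) [Field F] {P : Type} [Group P]

/-- the span of the evaluations -/
def e1_V (F : Type) [Field F] (P : Type) [Group P] : Submodule F ((Additive P →+ F) →ₗ[F] F) :=
  Submodule.span F (Set.range (evh F : P → ((Additive P →+ F) →ₗ[F] F)))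

/-- the class of an element -/
def e1_cl (F : Type) [Field F] (y : P) : e1_V F P := ⟨evh F y, Submodule.subset_span ⟨y, rfl⟩⟩

theorem e1_cl_mul (x y : P) : e1_cl F (x * y) = e1_cl F x + e1_cl F y := by
  apply Subtype.ext
  apply LinearMap.ext
  intro f
  exact f.map_add (Additive.ofMul x) (Additive.ofMul y)

theorem e1_cl_one : e1_cl F (1 : P) = 0 := by
  have h := e1_cl_mul F (1 : P) 1
  rw [mul_one] at h
  exact left_eq_add.mp h

theorem e1_cl_inv (x : P) : e1_cl F x⁻¹ = (-1 : F) • e1_cl F x := by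
  apply Subtype.ext
  apply LinearMap.ext
  intro f
  change f (Additive.ofMul x⁻¹) = (-1 : F) * f (Additive.ofMul x)
  rw [ofMul_inv, f.map_neg, neg_one_mul]

/-- a submodule which contains all classes -/
theorem e1_top (W : Submodule F (e1_V F P)) (h : ∀ y : P, e1_cl F y ∈ W) : W = ⊤ := by
  rw [Submodule.eq_top_iff']
  rintro ⟨x, hx⟩
  have h1 : ∀ x (hx : x ∈ e1_V F P), (⟨x, hx⟩ : e1_V F P) ∈ W := by
    intro x hx
    refine Submodule.span_induction (p := fun x hx => (⟨x, hx⟩ : e1_V F P) ∈ W) ?_ ?_ ?_ ?_ hx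
    · rintro _ ⟨y, rfl⟩
      exact h y
    · exact W.zero_mem
    · intro a b ha hb h2 h3
      exact W.add_mem h2 h3
    · intro r a ha h2
      exact W.smul_mem r h2
  exact h1 x hx

/-- composition with an automorphism -/
def e1_pre (F : Type) [Field F] (c : P ≃* P) : (Additive P →+ F) →ₗ[F] (Additive P →+ F) where
  toFun f := f.comp (MonoidHom.toAdditive c.toMonoidHom)
  map_add' _ _ := rfl
  map_smul' _ _ := rfl

/-- the dual map -/
def e1_T (F : Type) [Field F] (c : P ≃* P) : ((Additive P →+ F) →ₗ[F] F) →ₗ[F] ((Additive P →+ F) →ₗ[F] F) where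
  toFun φ := φ.comp (e1_pre F c)
  map_add' _ _ := rfl
  map_smul' _ _ := rfl

theorem e1_T_evh (c : P ≃* P) (y : P) : e1_T F c (evh F y) = evh F (c y) := rfl

theorem e1_T_mem (c : P ≃* P) : ∀ φ ∈ e1_V F P, e1_T F c φ ∈ e1_V F P := by
  intro φ hφ
  have h1 : e1_V F P ≤ (e1_V F P).comap (e1_T F c) := by
    apply Submodule.span_le.mpr
    rintro _ ⟨y, rfl⟩
    change e1_T F c (evh F y) ∈ e1_V F P
    rw [e1_T_evh]
    exact Submodule.subset_span ⟨c y, rfl⟩
  exact h1 hφ

theorem e1_T_symm (c : P ≃* P) (φ : (Additive P →+ F) →ₗ[F] F) :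
    e1_T F c (e1_T F c.symm φ) = φ := by
  apply LinearMap.ext
  intro f
  change φ (e1_pre F c.symm (e1_pre F c f)) = φ f
  congr 1
  apply AddMonoidHom.ext
  intro x
  change f (Additive.ofMul (c (c.symm (Additive.toMul x)))) = f x
  rw [MulEquiv.apply_symm_apply]
  rfl

theorem e1_T_symm' (c : P ≃* P) (φ : (Additive P →+ F) →ₗ[F] F) :
    e1_T F c.symm (e1_T F c φ) = φ := by
  apply LinearMap.ext
  intro f
  change φ (e1_pre F c (e1_pre F c.symm f)) = φ f
  congr 1
  apply AddMonoidHom.ext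
  intro x
  change f (Additive.ofMul (c.symm (c (Additive.toMul x)))) = f x
  rw [MulEquiv.symm_apply_apply]
  rfl

/-- the automorphism of the module of the classes -/
def e1_tau (F : Type) [Field F] (c : P ≃* P) : e1_V F P ≃ₗ[F] e1_V F P where
  toFun x := ⟨e1_T F c x.1, e1_T_mem F c _ x.2⟩
  invFun x := ⟨e1_T F c.symm x.1, e1_T_mem F c.symm _ x.2⟩
  map_add' x y := Subtype.ext ((e1_T F c).map_add x.1 y.1)
  map_smul' r x := Subtype.ext ((e1_T F c).map_smul r x.1)
  left_inv x := Subtype.ext (e1_T_symm' F c x.1)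
  right_inv x := Subtype.ext (e1_T_symm F c x.1)

theorem e1_tau_cl (c : P ≃* P) (y : P) : e1_tau F c (e1_cl F y) = e1_cl F (c y) := rfl

theorem e1_tau_symm_cl (c : P ≃* P) (y : P) : (e1_tau F c).symm (e1_cl F y) = e1_cl F (c.symm y) := rfl

end e1_gen


section e1_conj

variable (F : Type) [Field F] {H : Type} [Group H] (ν : H →* Multiplicative ℤ) (K : Subgroup H)

theorem e1_mem {k y : H} (hk : k ∈ K) (hy : y ∈ K ⊓ ν.ker) : k * y * k⁻¹ ∈ K ⊓ ν.ker := by
  refine Subgroup.mem_inf.mpr ⟨K.mul_mem (K.mul_mem hk hy.1) (K.inv_mem hk), ?_⟩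
  rw [MonoidHom.mem_ker, map_mul, map_mul, map_inv, MonoidHom.mem_ker.mp hy.2]
  simp

theorem e1_mem' {k y : H} (hk : k ∈ K) (hy : y ∈ K ⊓ ν.ker) : k⁻¹ * y * k ∈ K ⊓ ν.ker := by
  have h := e1_mem ν K (K.inv_mem hk) hy
  rwa [inv_inv] at h

/-- the conjugation with an element of `K` -/
def e1_con (k : H) (hk : k ∈ K) : (K ⊓ ν.ker : Subgroup H) ≃* (K ⊓ ν.ker : Subgroup H) where
  toFun y := ⟨k * y * k⁻¹, e1_mem ν K hk y.2⟩
  invFun y := ⟨k⁻¹ * y * k, e1_mem' ν K hk y.2⟩
  left_inv y := Subtype.ext (by simp only; group)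
  right_inv y := Subtype.ext (by simp only; group)
  map_mul' x y := Subtype.ext (by simp only [Subgroup.coe_mul]; group)

variable {ν K}

theorem e1_zpow {h : H} (hh : h ∈ K) (n : ℤ) : ∀ y (hy : y ∈ K ⊓ ν.ker),
    ((e1_tau F (e1_con ν K h hh)) ^ n) (e1_cl F ⟨y, hy⟩) =
      e1_cl F ⟨h ^ n * y * (h ^ n)⁻¹, e1_mem ν K (K.zpow_mem hh n) hy⟩ := by
  induction n using Int.induction_on with
  | zero =>
    intro y hy
    rw [zpow_zero]
    change e1_cl F _ = _
    congr 1
    apply Subtype.ext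
    simp
  | succ i ih =>
    intro y hy
    rw [zpow_add_one]
    change ((e1_tau F (e1_con ν K h hh)) ^ (i : ℤ)) (e1_tau F (e1_con ν K h hh) (e1_cl F ⟨y, hy⟩)) = _
    rw [e1_tau_cl]
    change ((e1_tau F (e1_con ν K h hh)) ^ (i : ℤ)) (e1_cl F ⟨h * y * h⁻¹, e1_mem ν K hh hy⟩) = _
    rw [ih]
    congr 1
    apply Subtype.ext
    simp only
    rw [zpow_add_one]
    group
  | pred i ih =>
    intro y hy
    rw [zpow_sub_one]
    change ((e1_tau F (e1_con ν K h hh)) ^ (-(i : ℤ)))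
      ((e1_tau F (e1_con ν K h hh)).symm (e1_cl F ⟨y, hy⟩)) = _
    rw [e1_tau_symm_cl]
    change ((e1_tau F (e1_con ν K h hh)) ^ (-(i : ℤ)))
      (e1_cl F ⟨h⁻¹ * y * h, e1_mem' ν K hh hy⟩) = _
    rw [ih]
    congr 1
    apply Subtype.ext
    simp only
    rw [zpow_sub_one]
    group

theorem e1_inj {h : H} (hh : ν h ≠ 1) {a b : ℤ} (hab : ν h ^ a = ν h ^ b) : a = b := by
  have h1 : a * Multiplicative.toAdd (ν h) = b * Multiplicative.toAdd (ν h) := by
    have h2 := congrArg Multiplicative.toAdd hab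
    rw [toAdd_zpow, toAdd_zpow] at h2
    simpa using h2
  have h3 : Multiplicative.toAdd (ν h) ≠ 0 := fun e => hh (Multiplicative.toAdd.injective e)
  exact mul_right_cancel₀ h3 h1


/-- the classes of the generators give everything -/
theorem e1_gens {h : H} (hh : h ∈ K) (hν : ν h ≠ 1) (n : H → ℤ) (S : Set H) (hS : Subgroup.closure S = K)
    (hP : ∀ x ∈ K, x * (h ^ n x)⁻¹ ∈ K ⊓ ν.ker)
    (W : Submodule F (e1_V F (K ⊓ ν.ker : Subgroup H)))
    (hW : ∀ x (_ : x ∈ S) (hx : x ∈ K), e1_cl F ⟨x * (h ^ n x)⁻¹, hP x hx⟩ ∈ W)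
    (hτ : ∀ x ∈ W, e1_tau F (e1_con ν K h hh) x ∈ W ∧ (e1_tau F (e1_con ν K h hh)).symm x ∈ W) :
    W = ⊤ := by
  apply e1_top
  rintro ⟨y, hyP⟩
  -- the subgroup of the elements with class in `W`
  have hconj : ∀ (k : ℤ) (y : H) (hy : y ∈ K ⊓ ν.ker), e1_cl F ⟨y, hy⟩ ∈ W →
      e1_cl F ⟨h ^ k * y * (h ^ k)⁻¹, e1_mem ν K (K.zpow_mem hh k) hy⟩ ∈ W := by
    intro k y hy hyW
    rw [← e1_zpow F hh k y hy]
    have h1 : ∀ (k : ℤ) (x : e1_V F (K ⊓ ν.ker : Subgroup H)), x ∈ W →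
        ((e1_tau F (e1_con ν K h hh)) ^ k) x ∈ W := by
      intro k
      induction k using Int.induction_on with
      | zero => intro x hx; rw [zpow_zero]; exact hx
      | succ i ih =>
        intro x hx
        rw [zpow_add_one]
        exact ih _ (hτ x hx).1
      | pred i ih =>
        intro x hx
        rw [zpow_sub_one]
        exact ih _ (hτ x hx).2
    exact h1 k _ hyW
  have hmain : ∀ x ∈ Subgroup.closure S, ∃ (k : ℤ) (y : H) (hy : y ∈ K ⊓ ν.ker),
      e1_cl F ⟨y, hy⟩ ∈ W ∧ x = y * h ^ k := by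
    intro x hx
    refine Subgroup.closure_induction (p := fun x _ => ∃ (k : ℤ) (y : H)
      (hy : y ∈ K ⊓ ν.ker), e1_cl F ⟨y, hy⟩ ∈ W ∧ x = y * h ^ k) ?_ ?_ ?_ ?_ hx
    · intro x hx
      have hxK : x ∈ K := by rw [← hS]; exact Subgroup.subset_closure hx
      exact ⟨n x, x * (h ^ n x)⁻¹, hP x hxK, hW x hx hxK, by group⟩
    · refine ⟨0, 1, Subgroup.one_mem _, ?_, by simp⟩
      have h1 : e1_cl F (⟨1, Subgroup.one_mem _⟩ : (K ⊓ ν.ker : Subgroup H)) = 0 :=
        e1_cl_one F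
      rw [h1]
      exact W.zero_mem
    · rintro x x' _ _ ⟨k, y, hy, hyW, rfl⟩ ⟨k', y', hy', hyW', rfl⟩
      refine ⟨k + k', y * (h ^ k * y' * (h ^ k)⁻¹), Subgroup.mul_mem _ hy
        (e1_mem ν K (K.zpow_mem hh k) hy'), ?_, by rw [zpow_add]; group⟩
      have h1 := e1_cl_mul F (⟨y, hy⟩ : (K ⊓ ν.ker : Subgroup H))
        ⟨h ^ k * y' * (h ^ k)⁻¹, e1_mem ν K (K.zpow_mem hh k) hy'⟩
      have h2 := W.add_mem hyW (hconj k y' hy' hyW')
      rw [← h1] at h2
      exact h2
    · rintro x _ ⟨k, y, hy, hyW, rfl⟩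
      have hyi : y⁻¹ ∈ K ⊓ ν.ker := Subgroup.inv_mem _ hy
      have h1 := e1_cl_inv F (⟨y, hy⟩ : (K ⊓ ν.ker : Subgroup H))
      have h2 := W.smul_mem (-1 : F) hyW
      rw [← h1] at h2
      refine ⟨-k, h ^ (-k) * y⁻¹ * (h ^ (-k))⁻¹, e1_mem ν K (K.zpow_mem hh (-k)) hyi,
        hconj (-k) y⁻¹ hyi h2, by group⟩
  obtain ⟨k, y', hy', hyW', he⟩ := hmain y (by rw [hS]; exact hyP.1)
  have hk : k = 0 := by
    apply e1_inj hν
    rw [zpow_zero]
    have h1 : ν y = ν y' * ν h ^ k := by rw [he, map_mul, map_zpow]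
    rw [MonoidHom.mem_ker.mp hyP.2, MonoidHom.mem_ker.mp hy'.2, one_mul] at h1
    exact h1.symm
  rw [hk, zpow_zero, mul_one] at he
  subst he
  exact hyW'

end e1_conj

section e1_lin

variable {F : Type} [Field F] {V : Type} [AddCommGroup V] [Module F V]

/-- a dependent orbit spans a space of finite dimension -/
theorem e1_orb (τ : V ≃ₗ[F] V) (v : V)
    (hv : ¬ LinearIndependent F (fun n : ℤ => (τ ^ n) v)) :
    ∃ W : Submodule F V, Module.Finite F W ∧ v ∈ W ∧ ∀ x ∈ W, τ x ∈ W ∧ τ.symm x ∈ W := by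
  classical
  rw [linearIndependent_iff] at hv
  push Not at hv
  obtain ⟨c, hc, hc0⟩ := hv
  have hne : c.support.Nonempty := Finsupp.support_nonempty_iff.mpr hc0
  set a := c.support.min' hne with ha
  set b := c.support.max' hne with hb
  have hbm : b ∈ c.support := Finset.max'_mem _ _
  have hcb : c b ≠ 0 := Finsupp.mem_support_iff.mp hbm
  set W : Submodule F V := Submodule.span F ((fun n : ℤ => (τ ^ n) v) '' Set.Ico a b) with hW
  have hWf : Module.Finite F W := by
    rw [hW]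
    exact FiniteDimensional.span_of_finite F ((Set.finite_Ico a b).image _)
  have hin : ∀ n, a ≤ n → n < b → (τ ^ n) v ∈ W := fun n h1 h2 =>
    Submodule.subset_span ⟨n, ⟨h1, h2⟩, rfl⟩
  have hbW : (τ ^ b) v ∈ W := by
    rw [Finsupp.linearCombination_apply, Finsupp.sum,
      ← Finset.add_sum_erase _ _ hbm] at hc
    have h1 : ∑ n ∈ c.support.erase b, c n • (τ ^ n) v ∈ W := by
      apply Submodule.sum_mem
      intro n hn
      rw [Finset.mem_erase] at hn
      apply Submodule.smul_mem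
      apply hin
      · exact Finset.min'_le _ _ hn.2
      · exact lt_of_le_of_ne (Finset.le_max' _ _ hn.2) hn.1
    have h2 : c b • (τ ^ b) v ∈ W := by
      have h3 := eq_neg_of_add_eq_zero_left hc
      rw [h3]
      exact W.neg_mem h1
    have h4 := W.smul_mem (c b)⁻¹ h2
    rwa [smul_smul, inv_mul_cancel₀ hcb, one_smul] at h4
  have hstep : ∀ x ∈ W, τ x ∈ W := by
    have h1 : W ≤ W.comap (τ : V →ₗ[F] V) := by
      rw [hW, Submodule.span_le]
      rintro _ ⟨n, ⟨h1, h2⟩, rfl⟩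
      change τ ((τ ^ n) v) ∈ W
      have h3 : τ ((τ ^ n) v) = (τ ^ (n + 1)) v := by
        rw [add_comm, zpow_one_add]
        rfl
      rw [h3]
      rcases eq_or_lt_of_le (Int.add_one_le_of_lt h2) with h4 | h4
      · rw [h4]; exact hbW
      · exact hin _ (by omega) h4
    exact fun x hx => h1 hx
  have hmap : W.map (τ : V →ₗ[F] V) = W := by
    apply Submodule.eq_of_le_of_finrank_eq
    · rintro _ ⟨x, hx, rfl⟩
      exact hstep x hx
    · exact LinearEquiv.finrank_map_eq τ W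
  have hstep' : ∀ x ∈ W, τ.symm x ∈ W := by
    intro x hx
    rw [← hmap] at hx
    obtain ⟨y, hy, rfl⟩ := hx
    change τ.symm (τ y) ∈ W
    rw [LinearEquiv.symm_apply_apply]
    exact hy
  have hall : ∀ (k : ℤ) (x : V), x ∈ W → (τ ^ k) x ∈ W := by
    intro k
    induction k using Int.induction_on with
    | zero => intro x hx; rw [zpow_zero]; exact hx
    | succ i ih =>
      intro x hx
      rw [zpow_add_one]
      exact ih _ (hstep x hx)
    | pred i ih =>
      intro x hx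
      rw [zpow_sub_one]
      exact ih _ (hstep' x hx)
  refine ⟨W, hWf, ?_, fun x hx => ⟨hstep x hx, hstep' x hx⟩⟩
  have h5 := hall (-b) _ hbW
  have h6 : (τ ^ (-b)) ((τ ^ b) v) = v := by
    change ((τ ^ (-b)) * (τ ^ b)) v = v
    rw [← zpow_add, neg_add_cancel, zpow_zero]
    rfl
  rwa [h6] at h5

end e1_lin

/-- dual families -/
theorem e1_dual {F : Type} [Field F] {V : Type} [AddCommGroup V] [Module F V] {B : Type}
    [DecidableEq B] (v : B → V) (l : B → V →ₗ[F] F)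
    (h : ∀ b b', l b (v b') = if b' = b then 1 else 0) : LinearIndependent F v := by
  rw [linearIndependent_iff]
  intro c hc
  ext b
  have h1 := congrArg (l b) hc
  rw [Finsupp.linearCombination_apply, Finsupp.sum, map_sum, map_zero] at h1
  simp only [map_smul, h, smul_eq_mul, mul_ite, mul_one, mul_zero] at h1
  rw [Finset.sum_ite_eq'] at h1
  by_contra hb
  apply hb
  rw [if_pos (Finsupp.mem_support_iff.mpr hb)] at h1
  exact h1

/-- finite dimension of the space of the classes gives a finitely generated free group -/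
theorem e1_fg (F : Type) [Field F] (P : Type) [Group P] (hP : IsFreeGroup P)
    (hfin : Module.Finite F (e1_V F P)) : Group.FG P := by
  classical
  let B := IsFreeGroup.Generators P
  let φ : FreeGroup B ≃* P := (IsFreeGroup.toFreeGroup P).symm
  let g : B → (Additive P →+ F) := fun b => MonoidHom.toAdditiveLeft
      ((FreeGroup.lift (fun b' => Multiplicative.ofAdd (if b' = b then (1 : F) else 0))).comp
        φ.symm.toMonoidHom)
  have hg : ∀ b b', g b (Additive.ofMul (φ (FreeGroup.of b'))) = if b' = b then 1 else 0 := by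
    intro b b'
    change Multiplicative.toAdd (FreeGroup.lift (fun b' => Multiplicative.ofAdd
      (if b' = b then (1 : F) else 0)) (φ.symm (φ (FreeGroup.of b')))) = _
    rw [MulEquiv.symm_apply_apply, FreeGroup.lift_apply_of]
    rfl
  let l : B → (e1_V F P →ₗ[F] F) := fun b =>
    { toFun := fun x => x.1 (g b)
      map_add' := fun _ _ => rfl
      map_smul' := fun _ _ => rfl }
  have hl : ∀ b b', l b (e1_cl F (φ (FreeGroup.of b'))) = if b' = b then 1 else 0 := by
    intro b b'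
    rw [← hg b b']
    rfl
  have hli : LinearIndependent F (fun b : B => e1_cl F (φ (FreeGroup.of b))) :=
    e1_dual (fun b : B => e1_cl F (φ (FreeGroup.of b))) l hl
  have hB : Finite B := hli.finite
  have h1 : Group.FG (FreeGroup B) := Group.fg_iff.mpr
    ⟨Set.range FreeGroup.of, FreeGroup.closure_range_of B, Set.finite_range _⟩
  exact Group.fg_of_surjective (f := φ.toMonoidHom) φ.surjective

theorem p_e1 : B_e1 := by
  intro H _ _ ν hsurj hfree hnfg q _
  classical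
  have hK : (⊤ ⊓ ν.ker : Subgroup H) = ν.ker := top_inf_eq _
  obtain ⟨h, hh⟩ := hsurj (Multiplicative.ofAdd 1)
  have hhK : h ∈ (⊤ : Subgroup H) := Subgroup.mem_top _
  have hν : ν h ≠ 1 := by
    rw [hh]
    intro e
    have := congrArg Multiplicative.toAdd e
    simp at this
  have hn : ∀ x : H, ν x = ν h ^ (Multiplicative.toAdd (ν x)) := by
    intro x
    apply Multiplicative.toAdd.injective
    rw [hh, toAdd_zpow]
    simp
  have hP : ∀ x ∈ (⊤ : Subgroup H), x * (h ^ (Multiplicative.toAdd (ν x)))⁻¹ ∈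
      (⊤ ⊓ ν.ker : Subgroup H) := by
    intro x _
    refine Subgroup.mem_inf.mpr ⟨Subgroup.mem_top _, ?_⟩
    rw [MonoidHom.mem_ker, map_mul, map_inv, map_zpow, ← hn x, mul_inv_cancel]
  obtain ⟨S, hS⟩ := Group.fg_def.mp ‹Group.FG H›
  have key : ∃ (y : H) (hy : y ∈ (⊤ ⊓ ν.ker : Subgroup H)), LinearIndependent (ZMod q)
      (fun k : ℤ => ((e1_tau (ZMod q) (e1_con ν ⊤ h hhK)) ^ k) (e1_cl (ZMod q) ⟨y, hy⟩)) := by
    by_contra hcon
    push Not at hcon
    have h1 : ∀ x : H, ∃ W : Submodule (ZMod q) (e1_V (ZMod q) (⊤ ⊓ ν.ker : Subgroup H)),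
        Module.Finite (ZMod q) W ∧ e1_cl (ZMod q) ⟨x * (h ^ (Multiplicative.toAdd (ν x)))⁻¹,
          hP x (Subgroup.mem_top _)⟩ ∈ W ∧ ∀ y ∈ W,
          e1_tau (ZMod q) (e1_con ν ⊤ h hhK) y ∈ W ∧
            (e1_tau (ZMod q) (e1_con ν ⊤ h hhK)).symm y ∈ W := fun x =>
      e1_orb _ _ (hcon _ (hP x (Subgroup.mem_top _)))
    choose W hW1 hW2 hW3 using h1
    have htop : (⨆ x ∈ S, W x) = ⊤ := by
      apply e1_gens (F := ZMod q) hhK hν _ (S : Set H) hS hP
      · intro x hx hx'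
        have h2 : W x ≤ ⨆ x ∈ S, W x := le_iSup₂_of_le x hx le_rfl
        exact h2 (hW2 x)
      · intro y hy
        constructor
        · have h2 : (⨆ x ∈ S, W x) ≤ (⨆ x ∈ S, W x).comap
              (e1_tau (ZMod q) (e1_con ν ⊤ h hhK)).toLinearMap := by
            refine iSup₂_le fun x hx => ?_
            intro z hz
            have h3 : W x ≤ ⨆ x ∈ S, W x := le_iSup₂_of_le x hx le_rfl
            exact h3 (hW3 x z hz).1
          exact h2 hy
        · have h2 : (⨆ x ∈ S, W x) ≤ (⨆ x ∈ S, W x).comap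
              (e1_tau (ZMod q) (e1_con ν ⊤ h hhK)).symm.toLinearMap := by
            refine iSup₂_le fun x hx => ?_
            intro z hz
            have h3 : W x ≤ ⨆ x ∈ S, W x := le_iSup₂_of_le x hx le_rfl
            exact h3 (hW3 x z hz).2
          exact h2 hy
    rw [← Finset.sup_eq_iSup] at htop
    have hfin := Submodule.finiteDimensional_finset_sup S W
    rw [htop] at hfin
    have hfin' : Module.Finite (ZMod q) (e1_V (ZMod q) (⊤ ⊓ ν.ker : Subgroup H)) :=
      Module.Finite.equiv Submodule.topEquiv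
    have h4 := e1_fg (ZMod q) (⊤ ⊓ ν.ker : Subgroup H) (by rw [hK]; exact hfree) hfin'
    rw [hK] at h4
    exact hnfg h4
  obtain ⟨y, hy, hli⟩ := key
  refine ⟨h, hhK, hν, fun x _ => ⟨_, hn x⟩, fun _ => y, ?_⟩
  refine ⟨fun s => e1_mem ν ⊤ (Subgroup.mem_top _) hy, ?_⟩
  have h1 := hli.map' (e1_V (ZMod q) (⊤ ⊓ ν.ker : Subgroup H)).subtype (Submodule.ker_subtype _)
  have h2 := h1.comp (fun s : ℤ × Fin 1 => s.1) (by
    rintro ⟨a, i⟩ ⟨b, j⟩ e
    exact Prod.ext e (Subsingleton.elim _ _))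
  have h3 : (fun s : ℤ × Fin 1 => evh (ZMod q) (⟨h ^ s.1 * y * (h ^ s.1)⁻¹,
      e1_mem ν ⊤ (Subgroup.mem_top _) hy⟩ : (⊤ ⊓ ν.ker : Subgroup H))) =
      ((⇑(e1_V (ZMod q) (⊤ ⊓ ν.ker : Subgroup H)).subtype ∘ fun k : ℤ =>
        ((e1_tau (ZMod q) (e1_con ν ⊤ h hhK)) ^ k) (e1_cl (ZMod q) ⟨y, hy⟩)) ∘
        fun s : ℤ × Fin 1 => s.1) := by
    funext s
    rw [Function.comp_apply, Function.comp_apply, e1_zpow (ZMod q) hhK s.1 y hy]
    rfl
  rw [h3]
  exact h2

end

end Pool.Agent.F8.CG
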