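import Pool.Agent.Lib.MP_305fdd_al.F8.CG.StmB2

/-!
# MP_305fdd_al, congruence subgroups: piece CG fg
-/

set_option autoImplicit false

namespace Pool.Agent.F8.CG

open Pool.Agent.F8.BG

noncomputable section

/-- `b1` is invariant under isomorphisms -/
theorem fg_b1 {G G' : Type} [Group G] [Group G'] (e : G ≃* G') : b1 G = b1 G' := by
  unfold b1
  exact LinearEquiv.finrank_eq
    { toFun := fun f => f.comp (MonoidHom.toAdditive e.symm.toMonoidHom)
      invFun := fun f => f.comp (MonoidHom.toAdditive e.toMonoidHom)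
      map_add' := fun f g => by
        ext x
        rfl
      map_smul' := fun c f => by
        ext x
        rfl
      left_inv := fun f => by
        ext x
        show f (Additive.ofMul (e.symm (e (Additive.toMul x)))) = f x
        rw [MulEquiv.symm_apply_apply]
        rfl
      right_inv := fun f => by
        ext x
        show f (Additive.ofMul (e (e.symm (Additive.toMul x)))) = f x
        rw [MulEquiv.apply_symm_apply]
        rfl }

/-- a surjective homomorphism to `ℤ` with the same kernel -/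
theorem fg_sur {G : Type} [Group G] (f : G →* Multiplicative ℤ) (x₀ : G) (h₀ : f x₀ ≠ 1) :
    ∃ ν : G →* Multiplicative ℤ, Function.Surjective ν ∧ ∀ x, ν x = 1 ↔ f x = 1 := by
  obtain ⟨⟨g, hg⟩, hgen⟩ := (inferInstance : IsCyclic f.range).exists_generator
  have hg1 : g ≠ 1 := by
    intro h
    obtain ⟨n, hn⟩ := Subgroup.mem_zpowers_iff.1 (hgen ⟨f x₀, ⟨x₀, rfl⟩⟩)
    have h1 := congrArg Subtype.val hn
    simp only [SubgroupClass.coe_zpow, h, one_zpow] at h1
    exact h₀ h1.symm
  have hinj : Function.Injective (zpowersHom (Multiplicative ℤ) g) := by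
    rw [injective_iff_map_eq_one]
    intro a ha
    rw [zpowersHom_apply] at ha
    have h1 : Multiplicative.toAdd (g ^ Multiplicative.toAdd a) = 0 := by
      rw [ha]
      rfl
    rw [toAdd_zpow, smul_eq_mul, mul_eq_zero] at h1
    rcases h1 with h1 | h1
    · exact h1
    · exact absurd h1 hg1
  have hr : ∀ x, f x ∈ (zpowersHom (Multiplicative ℤ) g).range := by
    intro x
    obtain ⟨n, hn⟩ := Subgroup.mem_zpowers_iff.1 (hgen ⟨f x, ⟨x, rfl⟩⟩)
    refine ⟨Multiplicative.ofAdd n, ?_⟩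
    rw [zpowersHom_apply]
    exact congrArg Subtype.val hn
  refine ⟨(MonoidHom.ofInjective hinj).symm.toMonoidHom.comp (f.codRestrict _ hr), ?_, ?_⟩
  · intro y
    obtain ⟨x, hx⟩ : zpowersHom (Multiplicative ℤ) g y ∈ f.range := by
      rw [zpowersHom_apply]
      exact Subgroup.zpow_mem _ hg _
    refine ⟨x, ?_⟩
    show (MonoidHom.ofInjective hinj).symm (f.codRestrict _ hr x) = y
    rw [MulEquiv.symm_apply_eq]
    apply Subtype.ext
    exact hx
  · intro x
    show (MonoidHom.ofInjective hinj).symm (f.codRestrict _ hr x) = 1 ↔ f x = 1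
    rw [MulEquiv.symm_apply_eq, map_one]
    constructor
    · intro h
      exact congrArg Subtype.val h
    · intro h
      exact Subtype.ext h

/-- no homomorphism to `ℤ` has a free kernel which is not finitely generated -/
theorem fg_key (hb1 : B_b1) (hlin : B_lin) {ι : Type} [Finite ι] (α : MulAut (FreeGroup ι))
    (Γ₁ : Subgroup (GR α)) (D : ℕ → Subgroup (GR α)) (hT : Tow Γ₁ D) (H : Subgroup (GR α))
    (hH : H ≤ Γ₁) (hfg : H.FG) (q : ℕ) [Fact q.Prime] (C : ℕ)
    (hpow : ∀ j, ∃ n : ℕ, (D j).relIndex H = q ^ n)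
    (hC : ∀ j, (D j).index ≤ C * (D j).relIndex H)
    (hb : ∀ j, b1 (H ⊓ D j : Subgroup (GR α)) ≤ b1 (D j))
    (ν : H →* Multiplicative ℤ) (hν : Function.Surjective ν) (hfree : IsFreeGroup ν.ker) :
    Group.FG ν.ker := by
  by_contra hnf
  have : Group.FG H := (Group.fg_iff_subgroup_fg H).2 hfg
  obtain ⟨j, hj⟩ := hb1 ι α Γ₁ D hT (C + 1)
  have hj := hj j le_rfl
  obtain ⟨n, hn⟩ := hpow j
  have hnorm : ((D j).subgroupOf H).Normal := by
    constructor
    intro x hx g
    rw [Subgroup.mem_subgroupOf] at hx ⊢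
    exact hT.nor j g (hH g.2) x hx
  have h1 : q ^ n ≤ b1 ((D j).subgroupOf H) :=
    hlin H ν hν hfree hnf q ((D j).subgroupOf H) n hn
  have h2 : b1 ((D j).subgroupOf H) = b1 (H ⊓ D j : Subgroup (GR α)) := by
    have e : (D j).subgroupOf H = (H ⊓ D j).subgroupOf H := (Subgroup.inf_subgroupOf_left (D j) H).symm
    rw [e]
    exact fg_b1 (Subgroup.subgroupOfEquivOfLe inf_le_left)
  have h3 := hC j
  rw [hn] at h3
  have h4 := hb j
  have h5 : (D j).index ≤ C * b1 (D j) :=
    h3.trans (Nat.mul_le_mul_left _ (h1.trans (h2.le.trans h4)))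
  have h6 : (D j).index ≠ 0 := (hT.fin j).index_ne_zero
  have h7 : (C + 1) * b1 (D j) = C * b1 (D j) + b1 (D j) := by ring
  have h8 : b1 (D j) = 0 := by omega
  rw [h8, mul_zero] at h5
  omega

/-- **[CG fg]** -/
theorem p_fg (hb1 : B_b1) (hlin : B_lin) (hfre : B_fre) : B_fg := by
  intro ι _ α Γ₁ D hT H hH hfg hna q _ C hpow hC hb
  have hkey := fg_key hb1 hlin α Γ₁ D hT H hH hfg q C hpow hC hb
  have hcf : IsFreeGroup (H.comap (iR α)) := inferInstance
  -- the kernel of a homomorphism with the kernel of `nR`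
  have hequiv : ∀ ν : H →* Multiplicative ℤ, (∀ x : H, ν x = 1 ↔ nR α x = 1) →
      Nonempty (H.comap (iR α) ≃* ν.ker) := by
    intro ν hν
    let φ : H.comap (iR α) →* ν.ker :=
      { toFun := fun w => ⟨⟨iR α w.1, w.2⟩, (hν _).2 (nR_iR α w.1)⟩
        map_one' := by
          apply Subtype.ext
          apply Subtype.ext
          exact map_one (iR α)
        map_mul' := fun a b => by
          apply Subtype.ext
          apply Subtype.ext
          exact map_mul (iR α) a.1 b.1 }
    refine ⟨MulEquiv.ofBijective φ ⟨?_, ?_⟩⟩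
    · intro a b hab
      apply Subtype.ext
      apply iR_injective α
      exact congrArg (fun z : ν.ker => (z.1.1 : GR α)) hab
    · rintro ⟨⟨x, hx⟩, hxν⟩
      obtain ⟨w, rfl⟩ := GR_ker α x ((hν ⟨x, hx⟩).1 hxν)
      exact ⟨⟨w, hx⟩, rfl⟩
  have h2 : ∃ x ∈ H, nR α x ≠ 1 := by
    by_contra hno
    have hno : ∀ x ∈ H, nR α x = 1 := by
      intro x hx
      by_contra h
      exact hno ⟨x, hx, h⟩
    obtain ⟨e⟩ := hequiv (1 : H →* Multiplicative ℤ)
      (fun x => ⟨fun _ => hno x.1 x.2, fun _ => rfl⟩)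
    have htop : (1 : H →* Multiplicative ℤ).ker = ⊤ := by
      ext x
      simp
    have e2 : H.comap (iR α) ≃* H :=
      e.trans ((MulEquiv.subgroupCongr htop).trans Subgroup.topEquiv)
    have hHf : IsFreeGroup H := IsFreeGroup.ofMulEquiv e2
    have : Group.FG H := (Group.fg_iff_subgroup_fg H).2 hfg
    obtain ⟨x, hx, y, hy, hxy⟩ := hna
    obtain ⟨ν, hν, hnf⟩ := hfre H hHf ⟨⟨x, hx⟩, ⟨y, hy⟩, fun h => hxy (congrArg Subtype.val h)⟩
    exact hnf (hkey ν hν inferInstance)
  refine ⟨?_, h2⟩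
  obtain ⟨x, hx, hx1⟩ := h2
  obtain ⟨ν, hν, hker⟩ := fg_sur ((nR α).comp H.subtype) ⟨x, hx⟩ hx1
  obtain ⟨e⟩ := hequiv ν hker
  have : IsFreeGroup ν.ker := IsFreeGroup.ofMulEquiv e
  have : Group.FG ν.ker := hkey ν hν inferInstance
  rw [← Group.fg_iff_subgroup_fg]
  exact Group.fg_of_surjective (f := e.symm.toMonoidHom) e.symm.surjective

end

end Pool.Agent.F8.CG
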