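import Pool.Agent.Lib.MP_305fdd_al.F8.CG.StmR

/-!
# MP_305fdd_al, congruence subgroups: limits of operators
-/

set_option autoImplicit false

namespace Pool.Agent.F8.CG

open Polynomial

private theorem lim_det {n : ℕ} (M : Matrix (Fin n) (Fin n) ℂ) (ρ : Fin n → ℂ)
    (h : M.charpoly = ∏ i, (X - C (ρ i))) (p : ℂ[X]) :
    (aeval M p).det = ∏ i, p.eval (ρ i) := by
  let φ : ℂ[X] →* ℂ := Matrix.detMonoidHom.comp (aeval M : ℂ[X] →ₐ[ℂ] _).toMonoidHom
  let ψ : ℂ[X] →* ℂ :=
    { toFun := fun p => ∏ i, p.eval (ρ i)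
      map_one' := by simp
      map_mul' := fun p q => by simp [Finset.prod_mul_distrib] }
  show φ p = ψ p
  have hC : ∀ c : ℂ, φ (C c) = ψ (C c) := by
    intro c
    show (aeval M (C c)).det = ∏ i, (C c : ℂ[X]).eval (ρ i)
    rw [aeval_C, Matrix.algebraMap_eq_diagonal, Matrix.det_diagonal]
    simp
  have hX : ∀ a : ℂ, φ (X - C a) = ψ (X - C a) := by
    intro a
    show (aeval M (X - C a)).det = ∏ i, (X - C a : ℂ[X]).eval (ρ i)
    have h1 : (aeval M (X - C a) : Matrix (Fin n) (Fin n) ℂ) = -(Matrix.scalar (Fin n) a - M) := by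
      rw [map_sub, aeval_X, aeval_C, neg_sub]
      rfl
    rw [h1, Matrix.det_neg, ← Matrix.eval_charpoly, h, eval_prod]
    simp only [eval_sub, eval_X, eval_C, Fintype.card_fin]
    have h2 : (∏ x, (ρ x - a)) = ∏ x, ((-1) * (a - ρ x)) :=
      Finset.prod_congr rfl fun x _ => by ring
    rw [h2, Finset.prod_mul_distrib, Finset.prod_const, Finset.card_univ, Fintype.card_fin]
  have hs := (IsAlgClosed.splits p).eq_prod_roots
  rw [hs, map_mul, map_mul, hC, map_multiset_prod, map_multiset_prod, Multiset.map_map,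
    Multiset.map_map]
  congr 2
  apply Multiset.map_congr rfl
  intro a _
  exact hX a

private theorem lim_tr {n : ℕ} (M : Matrix (Fin n) (Fin n) ℂ) (ρ : Fin n → ℂ)
    (h : M.charpoly = ∏ i, (X - C (ρ i))) (l : ℕ) : (M ^ l).trace = ∑ i, ρ i ^ l := by
  have h1 : (M ^ l).charpoly = ∏ i, (X - C (ρ i ^ l)) := by
    apply Polynomial.funext
    intro x
    rw [Matrix.eval_charpoly, eval_prod]
    have h2 := lim_det M ρ h (C x - X ^ l)
    have h3 : (aeval M (C x - X ^ l) : Matrix (Fin n) (Fin n) ℂ) = Matrix.scalar (Fin n) x - M ^ l := by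
      rw [map_sub, map_pow, aeval_X, aeval_C]
      rfl
    rw [h3] at h2
    rw [h2]
    simp
  rw [Matrix.trace_eq_sum_roots_charpoly, h1]
  have h4 : (∏ i, (X - C (ρ i ^ l)) : ℂ[X]) =
      ((Finset.univ.val.map fun i => ρ i ^ l).map fun a => (X - C a : ℂ[X])).prod := by
    rw [Multiset.map_map]
    rfl
  rw [h4, Polynomial.roots_multiset_prod_X_sub_C]
  rfl

private theorem lim_ex {n : ℕ} (M : Matrix (Fin n) (Fin n) ℂ) :
    ∃ ρ : Fin n → ℂ, M.charpoly = ∏ i, (X - C (ρ i)) := by
  have hs := (IsAlgClosed.splits M.charpoly)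
  have h1 := hs.eq_prod_roots_of_monic (Matrix.charpoly_monic M)
  have h2 : M.charpoly.roots.card = n := by
    rw [← hs.natDegree_eq_card_roots, Matrix.charpoly_natDegree_eq_dim, Fintype.card_fin]
  have h3 : M.charpoly.roots.toList.length = n := by rw [Multiset.length_toList, h2]
  refine ⟨fun i => M.charpoly.roots.toList.get (i.cast h3.symm), ?_⟩
  have h4 : M.charpoly = (M.charpoly.roots.toList.map fun a => (X - C a : ℂ[X])).prod := by
    conv_lhs => rw [h1]
    rw [← Multiset.prod_coe, ← Multiset.map_coe, Multiset.coe_toList]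
  rw [← Fin.prod_univ_getElem] at h4
  conv_lhs => rw [h4]
  have h5 : (M.charpoly.roots.toList.map fun a => (X - C a : ℂ[X])).length = n := by
    rw [List.length_map, h3]
  symm
  apply Fintype.prod_equiv (finCongr h5.symm)
  intro i
  simp

theorem p_lim : R_lim := by
  intro V _ _ _ T T' hT E hE r hr hev
  set n := Module.finrank ℂ V with hn
  let b := Module.finBasis ℂ V
  let A : ℕ → Matrix (Fin n) (Fin n) ℂ := fun k => (LinearMap.toMatrix b b (T k)) ^ r
  let A' : Matrix (Fin n) (Fin n) ℂ := (LinearMap.toMatrix b b T') ^ r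
  have hA : Filter.Tendsto A Filter.atTop (nhds A') := by
    apply Filter.Tendsto.pow
    refine tendsto_pi_nhds.2 fun i => tendsto_pi_nhds.2 fun j => ?_
    have h1 : Continuous (b.coord i) := LinearMap.continuous_of_finiteDimensional _
    have h2 := (h1.tendsto (T' (b j))).comp (hT (b j))
    simpa [LinearMap.toMatrix_apply, Function.comp_def] using h2
  have hpow : ∀ (S : Module.End ℂ V) (l : ℕ), LinearMap.trace ℂ V (S ^ (r * l)) =
      (((LinearMap.toMatrix b b S) ^ r) ^ l).trace := by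
    intro S l
    rw [LinearMap.trace_eq_matrix_trace ℂ b, pow_mul, ← LinearMap.toMatrix_pow,
      ← LinearMap.toMatrix_pow]
  choose ρ hρ using fun k => lim_ex (A k)
  have hmem : ∀ k i, 1 < ‖ρ k i‖ → ρ k i ∈ E := by
    intro k i h1
    have h2 : (A k).charpoly.IsRoot (ρ k i) := by
      rw [hρ k, IsRoot.def, eval_prod]
      apply Finset.prod_eq_zero (Finset.mem_univ i)
      simp
    have h3 : (A k).charpoly = (T k ^ r).charpoly := by
      show ((LinearMap.toMatrix b b (T k)) ^ r).charpoly = _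
      rw [LinearMap.toMatrix_pow, LinearMap.charpoly_toMatrix]
    rw [h3] at h2
    have h4 : ρ k i ∈ spectrum ℂ (T k ^ r) := by
      rw [Module.End.mem_spectrum_iff_isRoot_charpoly]
      exact h2
    rw [spectrum.map_pow_of_pos (T k) hr] at h4
    obtain ⟨τ, hτ, h5⟩ := h4
    have h5' : τ ^ r = ρ k i := h5
    have h6 : 1 < ‖τ‖ := by
      by_contra hcon
      push Not at hcon
      rw [← h5', norm_pow] at h1
      exact absurd (pow_le_one₀ (norm_nonneg _) hcon) (not_le.2 h1)
    rw [← h5']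
    exact hev k τ (Module.End.hasEigenvalue_iff_mem_spectrum.2 hτ) h6
  have hK : IsCompact (Metric.closedBall (0 : ℂ) 1 ∪ E) :=
    (isCompact_closedBall _ _).union hE.isCompact
  have hρK : ∀ k, ρ k ∈ Set.pi Set.univ (fun _ : Fin n => Metric.closedBall (0 : ℂ) 1 ∪ E) := by
    intro k i _
    by_cases h : 1 < ‖ρ k i‖
    · exact Or.inr (hmem k i h)
    · left
      rw [mem_closedBall_zero_iff]
      exact not_lt.1 h
  obtain ⟨a, -, φ, hφ, hlim⟩ := (isCompact_univ_pi fun _ : Fin n => hK).tendsto_subseq hρK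
  have ha : A'.charpoly = ∏ i, (X - C (a i)) := by
    apply Polynomial.funext
    intro x
    rw [Matrix.eval_charpoly, eval_prod]
    have h1 : Filter.Tendsto (fun k => (Matrix.scalar (Fin n) x - A (φ k)).det) Filter.atTop
        (nhds (Matrix.scalar (Fin n) x - A').det) := by
      have h2 : Continuous fun B : Matrix (Fin n) (Fin n) ℂ => (Matrix.scalar (Fin n) x - B).det :=
        Continuous.matrix_det (continuous_const.sub continuous_id)
      exact (h2.tendsto A').comp (hA.comp hφ.tendsto_atTop)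
    have h3 : Filter.Tendsto (fun k => (Matrix.scalar (Fin n) x - A (φ k)).det) Filter.atTop
        (nhds (∏ i, (x - a i))) := by
      have h4 : (fun k => (Matrix.scalar (Fin n) x - A (φ k)).det) =
          fun k => ∏ i, (x - ρ (φ k) i) := by
        funext k
        rw [← Matrix.eval_charpoly, hρ (φ k), eval_prod]
        simp
      rw [h4]
      apply tendsto_finsetProd
      intro i _
      exact tendsto_const_nhds.sub ((tendsto_pi_nhds.1 hlim) i)
    rw [tendsto_nhds_unique h1 h3]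
    simp
  have hi : ∀ i, ∀ᶠ m in Filter.atTop, (‖ρ (φ m) i‖ ≤ 1 ∧ ‖a i‖ ≤ 1) ∨ ρ (φ m) i = a i := by
    intro i
    have h1 : Filter.Tendsto (fun m => ρ (φ m) i) Filter.atTop (nhds (a i)) :=
      (tendsto_pi_nhds.1 hlim) i
    have h2 : ∀ᶠ m in Filter.atTop, ρ (φ m) i ∉ E \ {a i} := by
      have h3 : IsOpen (E \ {a i})ᶜ := (hE.subset Set.sdiff_subset).isClosed.isOpen_compl
      exact h1 (h3.mem_nhds (by simp))
    by_cases h : ‖a i‖ ≤ 1
    · filter_upwards [h2] with m hm
      by_cases h4 : ‖ρ (φ m) i‖ ≤ 1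
      · exact Or.inl ⟨h4, h⟩
      · right
        by_contra hcon
        exact hm ⟨hmem _ _ (not_le.1 h4), hcon⟩
    · have h5 : ∀ᶠ m in Filter.atTop, 1 < ‖ρ (φ m) i‖ :=
        (h1.norm).eventually (lt_mem_nhds (not_le.1 h))
      filter_upwards [h2, h5] with m hm h6
      right
      by_contra hcon
      exact hm ⟨hmem _ _ h6, hcon⟩
  obtain ⟨m, hm⟩ := (Filter.eventually_all.2 hi).exists
  refine ⟨φ m, fun l => ?_⟩
  rw [hpow, hpow]
  have e1 := lim_tr A' a ha l
  have e2 := lim_tr (A (φ m)) (ρ (φ m)) (hρ (φ m)) l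
  show ‖(A' ^ l).trace - (A (φ m) ^ l).trace‖ ≤ _
  rw [e1, e2, ← Finset.sum_sub_distrib]
  refine (norm_sum_le _ _).trans ?_
  have h7 : ∀ i ∈ (Finset.univ : Finset (Fin n)), ‖a i ^ l - ρ (φ m) i ^ l‖ ≤ (2 : ℝ) := by
    intro i _
    rcases hm i with h | h
    · refine (norm_sub_le _ _).trans ?_
      rw [norm_pow, norm_pow]
      have := pow_le_one₀ (n := l) (norm_nonneg _) h.1
      have := pow_le_one₀ (n := l) (norm_nonneg _) h.2
      linarith
    · rw [h]
      simp
  refine (Finset.sum_le_card_nsmul _ _ _ h7).trans ?_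
  rw [Finset.card_univ, Fintype.card_fin, nsmul_eq_mul, mul_comm]

end Pool.Agent.F8.CG
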