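import Pool.Agent.Lib.MP_305fdd_al.F8.CG.StmR

/-!
# MP_305fdd_al, congruence subgroups: piece [CG lp]

The words of the powers, and the semigroup of the loops.
-/

set_option autoImplicit false

namespace Pool.Agent.F8.CG

open Pool.Agent.F8.BG Pool.Agent.Lib.MP_305fdd_al Pool.Agent.F8

private theorem lp_append {ι : Type} (l m : List ι) :
    BG.pw (l ++ m) = BG.pw l * BG.pw m := by
  unfold BG.pw
  rw [List.map_append, List.prod_append]

private theorem lp_flatMap {ι : Type} (α : MulAut (FreeGroup ι)) (w : ι → List ι)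
    (h : ∀ i, α (FreeGroup.of i) = BG.pw (w i)) (L : List ι) :
    α (BG.pw L) = BG.pw (L.flatMap w) := by
  induction L with
  | nil =>
    show α 1 = 1
    exact map_one α
  | cons i L ih =>
    rw [BG.pw_cons, map_mul, h, ih, List.flatMap_cons, lp_append]

private theorem lp_itw {ι : Type} (w : ι → List ι) (l l' : ℕ) (j : ι) :
    itw w (l + l') j = (itw w l j).flatMap (itw w l') := by
  induction l' with
  | zero =>
    have h : (itw w 0 : ι → List ι) = fun i => [i] := by
      funext i
      rfl
    rw [h, List.flatMap_singleton']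
    rfl
  | succ l' ih =>
    have h1 : itw w (l + (l' + 1)) j = (itw w (l + l') j).flatMap w := rfl
    have h2 : (itw w (l' + 1) : ι → List ι) = fun i => (itw w l' i).flatMap w := by
      funext i
      rfl
    rw [h1, ih, h2, List.flatMap_assoc]

theorem p_lp : R_lp := by
  intro ι α w h
  have h1 : ∀ (l : ℕ) (i : ι), (α ^ l) (FreeGroup.of i) = BG.pw (itw w l i) := by
    intro l
    induction l with
    | zero =>
      intro i
      rw [pow_zero, MulAut.one_apply]
      show FreeGroup.of i = BG.pw [i]
      rw [BG.pw_cons, BG.pw_nil, mul_one]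
    | succ l ih =>
      intro i
      rw [pow_succ', MulAut.mul_apply, ih, lp_flatMap α w h]
      rfl
  refine ⟨h1, ?_⟩
  rintro D j l l' d d' ⟨hd, u, v, hu, rfl⟩ ⟨hd', u', v', hu', rfl⟩
  refine ⟨D.mul_mem hd hd', u.flatMap (itw w l') ++ u', v' ++ v.flatMap (itw w l'), ?_, ?_⟩
  · rw [lp_itw, hu, List.flatMap_append, List.flatMap_cons, hu']
    simp only [List.append_assoc, List.cons_append]
  · have h2 := tR_pow_conj α l' (BG.pw u)
    rw [lp_flatMap (α ^ l') (itw w l') (h1 l')] at h2
    rw [lp_append, map_mul, ← h2, add_comm l l', pow_add]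
    group

end Pool.Agent.F8.CG
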