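import Pool.Agent.Lib.MP_305fdd_al.F8.CG.StmA

/-!
# MP_305fdd_al, [CG sep]: the choice of the subgroup
-/

set_option autoImplicit false

namespace Pool.Agent.F8.CG

open Pool.Agent.F8.BG Pool.Agent.Lib.MP_305fdd_al Pool.Agent.F8

noncomputable section

/-- one element -/
private theorem sep_one {G : Type} [Group G] (D : Subgroup G) (c : D) (g : G) :
    ∃ N : Subgroup D, N.Normal ∧ N.FiniteIndex ∧ ∀ (h : g ∈ D) (c' : D),
      IsConj (⟨g, h⟩ : D) c' → c' * c⁻¹ ∈ N → PConj (⟨g, h⟩ : D) c := by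
  by_cases h : g ∈ D
  · by_cases hp : PConj (⟨g, h⟩ : D) c
    · exact ⟨⊤, inferInstance, inferInstance, fun _ _ _ _ => hp⟩
    · unfold PConj at hp
      push Not at hp
      obtain ⟨Q, _, _, θ, hθ⟩ := hp
      refine ⟨θ.ker, inferInstance, inferInstance, fun h' c' hc hN => ?_⟩
      exfalso
      apply hθ
      rw [MonoidHom.mem_ker, map_mul, map_inv, mul_inv_eq_one] at hN
      rw [← hN]
      exact MonoidHom.map_isConj θ hc
  · exact ⟨⊤, inferInstance, inferInstance, fun h' => absurd h' h⟩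

theorem p_sep : A_sep := by
  intro ι _ α w D hD k c
  have : Finite (GR α ⧸ D) := Subgroup.finite_quotient_of_finiteIndex
  choose N hNn hNf hN using fun g : GR α => sep_one D c g
  let I : Type := (Σ i : ι, Fin (itw w k i).length) × (GR α ⧸ D)
  let e : I → GR α := fun t =>
    (Quotient.out t.2)⁻¹ * ((tR α ^ k)⁻¹ * iR α (BG.pw ((itw w k t.1.1).take t.1.2))) *
      Quotient.out t.2
  let M : Subgroup D := ⨅ t : I, N (e t)
  have hMn : M.Normal := Subgroup.normal_iInf_normal fun t => hNn (e t)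
  have hMf : M.FiniteIndex := Subgroup.finiteIndex_iInf fun t => hNf (e t)
  have hmem : ∀ g : GR α, g ∈ (M ⊓ (nD D).ker).map D.subtype ↔
      ∃ h : g ∈ D, (⟨g, h⟩ : D) ∈ M ∧ nR α g = 1 := by
    intro g
    rw [Subgroup.mem_map]
    constructor
    · rintro ⟨⟨x, hx⟩, hx1, rfl⟩
      rw [Subgroup.mem_inf, MonoidHom.mem_ker] at hx1
      exact ⟨hx, hx1⟩
    · rintro ⟨h, h1, h2⟩
      exact ⟨⟨g, h⟩, Subgroup.mem_inf.2 ⟨h1, h2⟩, rfl⟩
  refine ⟨(M ⊓ (nD D).ker).map D.subtype, ?_, ?_, ?_, ?_, ?_⟩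
  · intro g hg
    exact ((hmem g).1 hg).1
  · intro g hg
    exact ((hmem g).1 hg).2.2
  · intro d hd g hg
    obtain ⟨h, h1, h2⟩ := (hmem g).1 hg
    refine (hmem _).2 ⟨D.mul_mem (D.mul_mem hd h) (D.inv_mem hd), ?_, ?_⟩
    · exact hMn.conj_mem _ h1 ⟨d, hd⟩
    · rw [map_mul, map_mul, h2, mul_one, map_inv, mul_inv_cancel]
  · have h1 : (M.map D.subtype).FiniteIndex := by
      constructor
      rw [Subgroup.index_map_subtype]
      exact mul_ne_zero hMf.index_ne_zero hD.index_ne_zero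
    have h2 : ((M ⊓ (nD D).ker).map D.subtype).comap (iR α) =
        (M.map D.subtype).comap (iR α) := by
      ext f
      rw [Subgroup.mem_comap, Subgroup.mem_comap, hmem, Subgroup.mem_map]
      constructor
      · rintro ⟨h, h3, _⟩
        exact ⟨⟨_, h⟩, h3, rfl⟩
      · rintro ⟨⟨x, hx⟩, h3, h4⟩
        have h5 : x = iR α f := h4
        subst h5
        exact ⟨hx, h3, nR_iR α f⟩
    rw [h2]
    constructor
    rw [Subgroup.index_comap]
    exact (Subgroup.isFiniteRelIndex_of_finiteIndex).relIndex_ne_zero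
  · intro y i u v hw h hF
    obtain ⟨hF1, hF2, _⟩ := (hmem _).1 hF
    obtain ⟨⟨s, hs⟩, hs'⟩ := QuotientGroup.mk_out_eq_mul D y
    have hlen : u.length < (itw w k i).length := by
      rw [hw, List.length_append, List.length_cons]
      omega
    let t : I := (⟨i, ⟨u.length, hlen⟩⟩, (y : GR α ⧸ D))
    have het : e t = s⁻¹ * (y⁻¹ * ((tR α ^ k)⁻¹ * iR α (BG.pw u)) * y) * s := by
      have h1 : (itw w k i).take u.length = u := by
        rw [hw]
        exact List.take_left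
      show (Quotient.out (y : GR α ⧸ D))⁻¹ *
        ((tR α ^ k)⁻¹ * iR α (BG.pw ((itw w k i).take u.length))) *
          Quotient.out (y : GR α ⧸ D) = _
      rw [h1, hs']
      show (y * s)⁻¹ * _ * (y * s) = _
      group
    have h1 : e t ∈ D := by
      rw [het]
      exact D.mul_mem (D.mul_mem (D.inv_mem hs) h) hs
    have hconj : IsConj (⟨e t, h1⟩ : D)
        (⟨y⁻¹ * ((tR α ^ k)⁻¹ * iR α (BG.pw u)) * y, h⟩ : D) := by
      rw [isConj_iff]
      refine ⟨⟨s, hs⟩, ?_⟩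
      apply Subtype.ext
      show s * e t * s⁻¹ = y⁻¹ * ((tR α ^ k)⁻¹ * iR α (BG.pw u)) * y
      rw [het]
      group
    have h2 : (⟨y⁻¹ * ((tR α ^ k)⁻¹ * iR α (BG.pw u)) * y, h⟩ : D) * c⁻¹ ∈ N (e t) :=
      (Subgroup.mem_iInf.1 hF2) t
    have h3 := hN (e t) h1 _ hconj h2
    intro Q _ _ θ
    exact (MonoidHom.map_isConj θ hconj).symm.trans (h3 Q θ)

end

end Pool.Agent.F8.CG
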