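import Pool.Agent.Lib.MP_305fdd_al.F8.CG.DefsR
import Pool.Agent.Lib.MP_305fdd_al.F8.BG.StmI

/-!
# MP_305fdd_al, congruence subgroups: block R, regularity

THEOREM (`R_main`). Let `D = F' ⋊ ⟨t⟩` be as in `Stg`, `Λ` a finitely generated group, `Φ : NatBij D Λ` (the finite quotients are the same). Then there is a homomorphism `n' : Λ → ℤ` such that for all `m` the
homomorphism `n` modulo `m` corresponds to `n'` modulo `m`. (The first Betti number of `D` is arbitrary.)

The proof. `ν = nu Φ : Λ → Zh` is the homomorphism with values in the profinite integers which corresponds to `n`; `Z₀` is its image. (1) There is an element `μ ≠ 0` of the group ring of `Z₀` which annihilates the abelianisation of the kernel of `ν` (`R_ann`, `R_zet`, `R_mu`). (2) Let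
`χ`, `χ''` be corresponding characters of finite order of `D` and `Z₀`, `τ` an eigenvalue of absolute value greater than one of the operator `U_χ` (`Uop`). It gives a crossed homomorphism `z` of `D` for `χ τ^n` (`R_eig`), and comparing the crossed homomorphisms modulo `τ^N - 1` we
get that `∑ μ_b χ''(b) c τ^(b mod N)` is divisible by `τ^N - 1` for all `N ≥ 1`, `c ≠ 0` (`R_star`). By an elementary lemma (`R_int`, `R_intZ`) it follows that `∑_k μ_(b₀ + k) χ''(b₀ + k) τ^k = 0` for all `b₀` (`R_key`). (3) With `χ = 1` we see that `Z₀` contains a positive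
integer `r` (`R_r4`). (4) If `Z₀ / rℤ` is infinite, there are corresponding `χ`, `χ''` with `χ''(r) = 1`, `χ` of order prime to `r`, `χ ≠ 1` on `F'`, and arbitrarily close to one (`R_chi`), and `τ^r` is in a finite set, for all eigenvalues `τ` with `|τ| > 1` of `U_χ`. So the traces of `U_1^(r l)` and `U_χ^(r l)`
differ by at most `2 dim` for all `l` (`R_lim`), for one such `χ`. These traces are sums over loops (`R_tr`), and the loops generate `F'` (`R_gen`), and we get a contradiction (`R_cnt`, `R_r5`). (5) So `Z₀ / rℤ` is finite, and `Z₀ = ℤ`.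
-/

set_option autoImplicit false

namespace Pool.Agent.F8.CG

open Pool.Agent.F8.BG Pool.Agent.Lib.MP_305fdd_al Pool.Agent.F8

noncomputable section

/-! ## An elementary lemma on integrality -/

/-- [CG circ] powers which are far away from `1`.

Proof. Choose `c > 0` such that the `2 e + 1` points `exp (2 π i j / (2 e + 1))` have pairwise distances at least `4 c`. Let `s` be given. The powers of `z s` are dense in the circle (`z s` is not a root of unity; Dirichlet / `AddCircle`), so there are `q_0, .., q_(2e) : ℕ` with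
`z_s ^ q_j` at distance at most `c` from the `j`-th point, so the `z_s ^ q_j` have pairwise distances at least `2 c`. Let `A_s = {m : ℕ | ‖z_s ^ m - 1‖ < c}`. The sets `A_s + q_j` are disjoint: if `m + q_i = m' + q_j`, `m, m' ∈ A_s`, then `z_s ^ m z_s ^ q_i = z_s ^ m' z_s ^ q_j`, so
`‖z_s ^ q_i - z_s ^ q_j‖ = ‖z_s ^ m' - z_s ^ m‖ < 2 c`. So for all `M` (`Q` the maximum of the `q_j` over all `s`) `(2 e + 1) |A_s ∩ [1, M]| ≤ M + Q`, and the `e` sets `A_s` do not cover `[1, M]` if `M` is large. -/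
def R_circ : Prop := ∀ e : ℕ, ∃ c : ℝ, 0 < c ∧ ∀ z : Fin e → ℂ, (∀ s, ‖z s‖ = 1) →
  (∀ s, ∀ n : ℕ, 1 ≤ n → z s ^ n ≠ 1) → ∃ m : ℕ, 1 ≤ m ∧ ∀ s, c ≤ ‖z s ^ m - 1‖

/-- [CG int] the elementary lemma. (Uses `R_circ`.)

Proof. Write `x mod N` for `(x m).val`, `N = m + 1`. Let `σ_1, .., σ_e` be the embeddings `L → ℂ` with `|σ τ| = 1`, `c` from `R_circ` for this `e`. For `N ≥ 1` and `j : ℤ` put `u_(N,j) = (∑ i, a_i τ ^ ((x_i + j) mod N)) / (τ ^ N - 1)`. It is an algebraic integer: `τ ^ ((x_i + j) mod N)` is congruent to `τ ^ j τ ^ (x_i mod N)`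
modulo `τ ^ N - 1` (in the ring of algebraic integers, `τ` is a unit). Call `N` good if `|σ_s τ ^ N - 1| ≥ c` for `s = 1, .., e`. For good `N` all `|σ u_(N,j)|` are at most a constant `K` which does not depend on `N` and `j` (for `0 ≤ a < N`, `x = σ τ`: `|x ^ a / (x ^ N - 1)|` is at most `1 / (|x| - 1)`, `1 / (1 - |x|)`, `1 / c` for
`|x| > 1`, `< 1`, `= 1`), so `u_(N,j)` is in a finite set `U` (`NumberField.Embeddings.finite_of_norm_le`). We have `u_(N,j+1) = τ u_(N,j) - ∑ a_i`, the sum over the `i` with `(x_i + j) mod N = N - 1`. Let `C = |U| + 2`. There is `N₁` such that for `i ≠ i'` and all integers `k` with `|k| ≤ C` the difference `x_i - x_i'` is not congruent to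
`k` modulo `N₁` (for each `i, i', k` there is a modulus, by the hypothesis `x i - x i' ≠ cst k`; take the product; `Cmp`), and the same is true for all multiples of `N₁`. By `R_circ` for `z_s = σ_s τ ^ N₁` there is `m ≥ 1` such that `N = N₁ m` is good. Now consider the passage of `i`: `j` with `(x_i + j) mod N = N - 1`. In the `|U| + 1` steps before and
after `j` there is no other passage, so there `u_(N,j')` is multiplied with `τ` in every step; by the pigeonhole principle `τ ^ a u = u` for some `a ≥ 1`, so `u = 0` before and after the passage: `u_(N,j) = 0`, `u_(N,j+1) = 0` and `a_i = 0`. -/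
def R_int : Prop := ∀ (L : Type) [Field L] [NumberField L] (τ : L), τ ≠ 0 → IsIntegral ℤ τ →
  IsIntegral ℤ τ⁻¹ → (∀ n : ℕ, 1 ≤ n → τ ^ n ≠ 1) → ∀ (k : ℕ) (x : Fin k → Zh) (a : Fin k → L),
  (∀ i, Cmp (x i)) → (∀ i j, i ≠ j → ∀ c : ℤ, x i - x j ≠ cst c) → (∀ i, IsIntegral ℤ (a i)) →
  (∀ m : ℕ, ∃ u : L, IsIntegral ℤ u ∧ ∑ i, a i * τ ^ (x i m).val = (τ ^ (m + 1) - 1) * u) →
  ∀ i, a i = 0

open Classical in
/-- [CG intZ] the lemma for group rings. (Uses `R_int`.)

Proof. Let `b_1, .., b_k` be representatives of the classes modulo `ℤ` (the range of `cst`) of the elements of the support of `a`, with `b₀ = b_1` if the class of `b₀` occurs (otherwise the sum is empty). For `b = b_i + k` the difference `τ ^ (b mod N) - τ ^ k τ ^ (b_i mod N)` is `τ ^ N - 1` times an algebraic integer, so the hypothesis of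
`R_int` is true for `a_i = ∑_k a (b_i + k) τ ^ k` (`L = ℚ(τ, a_i)`, an intermediate field, of finite degree because these are algebraic; `u ∈ L` automatically if `τ ^ N ≠ 1`). `R_int` gives `a_i = 0`. -/
def R_intZ : Prop := ∀ τ : ℂˣ, IsIntegral ℤ (τ : ℂ) → IsIntegral ℤ ((τ⁻¹ : ℂˣ) : ℂ) →
  (∀ n : ℕ, 1 ≤ n → τ ^ n ≠ 1) → ∀ a : Zh →₀ ℂ, (∀ b ∈ a.support, Cmp b) →
  (∀ b, IsIntegral ℤ (a b)) →
  (∀ m : ℕ, ∃ u : ℂ, IsIntegral ℤ u ∧
    ∑ b ∈ a.support, a b * (τ : ℂ) ^ (b m).val = ((τ : ℂ) ^ (m + 1) - 1) * u) →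
  ∀ (b₀ : Zh) (κ : Zh → ℤ), (∀ b ∈ a.support, ∀ k : ℤ, b = b₀ + cst k → κ b = k) →
  ∑ b ∈ a.support.filter (fun b => ∃ k : ℤ, b = b₀ + cst k), a b * ((τ ^ κ b : ℂˣ) : ℂ) = 0

/-! ## The annihilator -/

/-- [CG ann] an annihilator.

Proof. `Z₀` = the image of `ν`, a finitely generated abelian group, `K₀ = ker ν`, `A = MonoidAlgebra ℤ Z₀` (commutative), `M` = the abelianisation of `K₀`, an `A`-module by conjugation (`K₀` acts trivially). (a) `M` is finitely generated over `A`: let `Λ` be generated by `g_1, .., g_n`; `Z₀` is finitely presented, so `K₀` is the normal closure of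
finitely many elements (a finitely generated group whose quotient is finitely presented; or directly: `ℤ^n → Z₀` has a finitely generated kernel, with generators `k_1, .., k_m`; `K₀` is the normal closure of the commutators `[g_i, g_j]` and the `∏ g_i ^ (k_j)_i`); their classes generate `M`. (b) Every `A`-linear `f : M → 𝔽_q(ψ)` (that is, a homomorphism `f : K₀ → ZMod q`
with `f (l x l⁻¹) = ψ l f x`) is zero: let `ψ z₀ ≠ 1` and `z l = f ([l, z₀]) / (1 - ψ z₀)`, `[l, z₀] = l z₀ l⁻¹ z₀⁻¹ ∈ K₀`. It satisfies `z (l l') = z l + ψ l z l'` because `[l l', z₀] = l [l', z₀] l⁻¹ [l, z₀]`, and `z x = f x` for `x ∈ K₀` (`[x, z₀] = x (z₀ x z₀⁻¹)⁻¹`). By hypothesis `z = 0` on `K₀`. (c) Let `I` be the kernel of the ring homomorphism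
`A → ZMod q` given by `ψ` (a maximal ideal). By (b) `M = I M` (a nonzero vector space over `ZMod q` has a nonzero linear functional), and by Nakayama (`Submodule.exists_sub_one_mem_and_smul_eq_zero_of_fg_of_le_smul`) there is `μ ∈ A` with `μ - 1 ∈ I` (so `μ ≠ 0`) and `μ M = 0`. For `f : K₀ → A'` (abelian) and `x ∈ K₀`:
`∏ f (y_b x y_b⁻¹) ^ μ_b` is the image of `μ` times the class of `x`. Use the coefficients of `μ` to define the element of `Zh →₀ ℤ` (`Finsupp.mapDomain` for the inclusion of `Z₀`). -/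
def R_ann : Prop := ∀ (Λ : Type) [Group Λ] [Group.FG Λ] (ν : Λ →* Multiplicative Zh) (q : ℕ)
  [Fact q.Prime] (ψ : Λ →* (ZMod q)ˣ), (∀ l, ν l = 1 → ψ l = 1) → ψ ≠ 1 →
  (∀ z : Λ → ZMod q, (∀ g h, z (g * h) = z g + (ψ g : ZMod q) * z h) → ∀ x, ν x = 1 → z x = 0) →
  ∃ μ : Zh →₀ ℤ, Ann ν μ

/-- [CG zet] a character of `D` over a finite field without crossed homomorphisms.

Proof. `F' = D ∩ F` is finitely generated (finite index in a finitely generated free group), by `x_1, .., x_n`; modulo commutators `t x_i t⁻¹ = ∏ x_j ^ (a_ij)`, `a` an integer matrix, `P` its characteristic polynomial, monic of degree `n`. Choose a prime `q > n + 3` and `ζ ∈ ZMod q`, different from `0`, `1` and not a root of `P` modulo `q`. Let `z` be given; on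
`F'` it is a homomorphism `f` with `f (t x t⁻¹) = ζ f x` (`z (t x t⁻¹) = z t + ζ z x + ζ z (t⁻¹)`, `z (t⁻¹) = - ζ⁻¹ z t`). So the vector `(f x_i)` satisfies `a f = ζ f`, and `P(ζ) f = P(a) f = 0` (Cayley-Hamilton), `f = 0`. -/
def R_zet : Prop := ∀ (ι : Type) [Finite ι] (α : MulAut (FreeGroup ι)) (D : Subgroup (GR α)),
  D.FiniteIndex → tR α ∈ D → ∃ (q : ℕ) (_ : Fact q.Prime) (ζ : (ZMod q)ˣ), ζ ≠ 1 ∧
  ∀ z : D → ZMod q, (∀ g h : D, z (g * h) = z g +
    ((ζ ^ (Multiplicative.toAdd (nD D g)) : (ZMod q)ˣ) : ZMod q) * z h) →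
  ∀ x : D, nD D x = 1 → z x = 0

/-- [CG mu] the annihilator for `Λ`. (Uses `R_ann`, `R_zet`.)

Proof. `q`, `ζ` from `R_zet`, `χ : D → (ZMod q)ˣ`, `χ g = ζ ^ n(g)`, `ψ = Φ χ`. `χ` is the composition of `n` modulo `q - 1` and `ZMod (q - 1) → (ZMod q)ˣ`, so by naturality `ψ l = ζ ^ (ν l)_(q - 2)`; so `ψ = 1` on `ker ν`. `ψ ≠ 1` because `χ t = ζ ≠ 1`. Let `z` be as in `R_ann`, `Θ : Λ →* Q2 (ZMod q)`, `Θ l = (ψ l, 1, (z l, 0))`. Let
`ν l = 1`. Consider `(Θ, ν mod (q - 1)) : Λ → Q2 (ZMod q) × ZMod (q - 1)`, it corresponds to `(Θ', n mod (q - 1))` on `D` (naturality for the two projections), with `Θ'` of the form `(χ, 1, (z', z''))`. By `NatBij.range_eq` there is `g ∈ D` with `Θ' g = Θ l`, `q - 1` divides `n(g)`. `z'` is a crossed homomorphism for `χ`, so it is zero on `F'`; `g = h t ^ k`, `h ∈ F'`,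
`(q - 1) | k`: `z' g = z' (t ^ k) = z' (t) (ζ ^ k - 1) / (ζ - 1) = 0`. So `z l = z' g = 0`. -/
def R_mu : Prop := ∀ (ι : Type) [Finite ι] (α : MulAut (FreeGroup ι)) (D : Subgroup (GR α)),
  D.FiniteIndex → tR α ∈ D → ∀ (Λ : Type) [Group Λ] [Group.FG Λ] (Φ : NatBij D Λ),
  ∃ μ : Zh →₀ ℤ, Ann (nu Φ) μ

/-- [CG star] comparison of the crossed homomorphisms modulo `τ ^ N - 1`.

Proof. `N = m + 1`, `χ = eX n X`. Let `O` be the subring of `ℂ` generated by `e(1 / n)`, `τ`, `τ⁻¹` and the values of `z` at a finite set of generators of `D`; it contains all values of `z` and `χ`, and it is a finitely generated `ℤ`-module (all generators are integral). `R = O / (τ ^ N - 1)` is a finite ring (`τ ^ N ≠ 1`; `O` is torsion free of finite rank, and the norm of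
`τ ^ N - 1`, or the multiplication by it has finite cokernel because it is injective). `Θ : D →* Q2 R`, `Θ g = (χ g τ ^ n(g), 1, (z g, 0))` modulo `τ ^ N - 1`, `Θ' = Φ Θ`. The scalar part of `Θ` is the composition of `(X, n mod N)` and a homomorphism `ZMod n × ZMod N → Rˣ`, `(x, y) ↦ e(x / n) τ ^ y`; so the scalar part of `Θ' l` is
`ψ''(ν l)` with `ψ''(b) = eY n (Y b) * τ ^ (b mod N)` (`Mtc`), and the matrix part of `Θ'` is `1`. On `ker ν` the scalar part is `1` and the first component `v` of the translation part is a homomorphism to the additive group of `R`, with `v (y x y⁻¹) = ψ''(ν y) v x`. So `Ann` gives `(∑ μ_b ψ''(b)) v x = 0` for `x ∈ ker ν` (choose `y b` with `ν (y b) = b` for `b` in the support). Let `l₁`, `l₂ ∈ Λ` with `Θ' l₁ = Θ h`,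
`Θ' l₂ = Θ t` (`NatBij.range_eq`), `x = l₁ l₂ l₁⁻¹ l₂⁻¹ ∈ ker ν`. `v x = (1 - χ(t) τ) z(h) - (1 - χ(h)) z(t) = (1 - χ(t) τ) z(h)`. So `(∑ μ_b ψ''(b)) (1 - χ(t) τ) z(h) = 0` in `R`. -/
def R_star : Prop := ∀ (ι : Type) [Finite ι] (α : MulAut (FreeGroup ι)) (D : Subgroup (GR α)),
  D.FiniteIndex → ∀ ht : tR α ∈ D, ∀ (Λ : Type) [Group Λ] [Group.FG Λ] (Φ : NatBij D Λ)
  (μ : Zh →₀ ℤ), Ann (nu Φ) μ → ∀ (n : ℕ) [NeZero n] (X : D →* Multiplicative (ZMod n))
  (Y : Zh → ZMod n), Mtc Φ n X Y → ∀ τ : ℂˣ, IsIntegral ℤ (τ : ℂ) →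
  IsIntegral ℤ ((τ⁻¹ : ℂˣ) : ℂ) → (∀ n : ℕ, 1 ≤ n → τ ^ n ≠ 1) → ∀ z : D → ℂ,
  CrC D (eX n X) τ z → ∀ h : D, nD D h = 1 → ∀ m : ℕ, ∃ u : ℂ, IsIntegral ℤ u ∧
  ∑ b ∈ μ.support, (μ b : ℂ) * eY n (Y b) * ((1 - (eX n X ⟨tR α, ht⟩ : ℂ) * τ) * z h) *
    (τ : ℂ) ^ (b m).val = ((τ : ℂ) ^ (m + 1) - 1) * u

/-! ## Loops and the operator `Uop` -/

/-- [CG lp] the words of the powers, and the semigroup of the loops.

Proof. First: induction on `l` (`α ^ (l + 1) = α * α ^ l`, `α (pw L) = pw (L.flatMap w)`). `itw w (l + l') j = (itw w l j).flatMap (itw w l')` (induction on `l'`). Second: `d = t^-l u`, `d' = t^-l' u'`: `d d' = t^-(l+l') α^l'(u) u'`, and `itw w (l + l') j = (u ++ j :: v).flatMap (itw w l') = u.flatMap (itw w l') ++ (u' ++ j :: v') ++ ..`. -/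
def R_lp : Prop := ∀ (ι : Type) (α : MulAut (FreeGroup ι)) (w : ι → List ι),
  (∀ i, α (FreeGroup.of i) = BG.pw (w i)) →
  (∀ (l : ℕ) (i : ι), (α ^ l) (FreeGroup.of i) = BG.pw (itw w l i)) ∧
  ∀ (D : Subgroup (GR α)) (j : ι) (l l' : ℕ) (d d' : GR α), d ∈ LpS α w D j l →
    d' ∈ LpS α w D j l' → d * d' ∈ LpS α w D j (l + l')

/-- [CG gen] the loops generate. (Uses `BG.S_i1`, `BG.S_i2`.)

Proof. `t` acts on `V` by `ψ`. Facts: the edges of `pe (ψ^l v) (itw w l i)` are the edges which are reached from the edge `(v, i)` after `l` steps of the relation `e → e'` iff `e' ∈ pe (ψ e.1) (w e.2)`, and they are the `((pw u)⁻¹ • ψ^l v, k)` with `itw w l i = u ++ k :: ..`. (1) `X = GR α ⧸ D` is finite, and `F` acts transitively on it (`t ∈ D`). The set of the edges which can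
be reached from an edge `(x, i)` (in at least one step) of `X` is finite, not empty and forward closed; by `S_i1` and `S_i2` it is everything. So every edge of `X` can be reached from every edge. (2) Let `H` be the closure of the loops, `H ≤ D`, `V = GR α ⧸ H`, `o = H`, and `S` the set of the edges which can be reached from `(o, j)` in `l ≥ 0` steps. Claim: if
`(v, j) ∈ S` and `v` lies over the base point of `X` then `v = o`: `v = (pw u)⁻¹ t^l o` with `itw w l j = u ++ j :: ..` and `d = t^-l u ∈ D`, a loop if `l ≥ 1`, so `d⁻¹ ∈ H` and `v = o`. (3) `S` is finite: for every edge `(x, i)` of `X` choose by (1) a path from it to (base point, `j`). For an edge `(v, i) ∈ S` over `(x, i)` the lift of this path ends in an element of `S` over (base point, `j`), so in `(o, j)`,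
and `v` is determined by the path (`(pw u)⁻¹ ψ^l v = o`). So `S` injects into the edges of `X`. (4) `S` is forward closed, by `S_i1` backward closed, by `S_i2` `(f • o, j) ∈ S` for all `f ∈ F`. If `f ∈ D` then `f • o` lies over the base point, so `f • o = o` by (2), `f ∈ H`. -/
def R_gen : Prop := ∀ (ι : Type) [Finite ι] (α : MulAut (FreeGroup ι)) (w : ι → List ι) (i₀ : ι)
  (D : Subgroup (GR α)), Stg α w i₀ D → ∀ (j : ι) (f : FreeGroup ι), iR α f ∈ D →
  iR α f ∈ Subgroup.closure {d | ∃ l, 1 ≤ l ∧ d ∈ LpS α w D j l}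

/-- [CG grow] the number of the loops is not bounded. (Uses `R_lp`, `R_gen`.)

Proof. `ι` has at least two elements (otherwise `w i = [i]` for the only `i`, and there are no turns, contradiction to `Pos.con`), so `F ∩ D` (finite index in `F`) is not abelian (`x_i ^ k`, `x_j ^ k` do not commute). By `R_gen` there are loops `d₁`, `d₂` of levels `l₁, l₂ ≥ 1` which do not commute (otherwise their closure would be abelian), so `a = d₁ d₂ ≠ b = d₂ d₁` are loops of the same level
`l = l₁ + l₂` (`R_lp`). `a = t^-l u`, `b = t^-l v`, and we may assume that the word `u` is a proper prefix of the word `v` (both are prefixes of `itw w l j`, and they are different). For `k ≥ 1` the `k + 1` loops `a^i b^(k-i)` of level `k l` are different: otherwise `a^m = b^m` for some `m ≥ 1`, but `a^m = t^-(lm) ∏ α^(l s)(u)` (`s = m-1, .., 0`) and the positive word of `b^m`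
is longer (`α^(ls)` of the proper prefix `u` of `v` is shorter than `α^(ls) v`; `w i ≠ []`; compare the lengths of positive words, the sum of all exponents). Take `k = r k'` large. -/
def R_grow : Prop := ∀ (ι : Type) [Finite ι] (α : MulAut (FreeGroup ι)) (w : ι → List ι) (i₀ : ι)
  (D : Subgroup (GR α)), Stg α w i₀ D → ∀ (j : ι) (B r : ℕ), 1 ≤ r → ∃ l, 1 ≤ l ∧
  ∃ S : Finset D, B ≤ S.card ∧ ∀ d ∈ S, (d : GR α) ∈ LpS α w D j (r * l)

/-- [CG pU] the powers of `Uop`. (Uses `R_lp`.)

Proof. Induction on `l`, `U ^ (l + 1) = U ^ l * U`: `(U^l (U v))_i = ∑_p ind (t^-l pre_p) (U v)_(k_p) = ∑_p ∑_q ind (t^-l pre_p t⁻¹ pre'_q) v_(..)`, `t^-l pre_p t⁻¹ pre'_q = t^-(l+1) α(pre_p) pre'_q`, and `itw w (l + 1) i = (itw w l i).flatMap w`: a position in the `flatMap` is a pair of a position `p` in `itw w l i` and a position `q` in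
`w (k_p)`, with the prefix `α(pre_p) pre'_q`. (It may be easier to prove first a general formula for sums over the positions of `L.flatMap w`, by induction on the list `L`, for functions of the prefix and the letter.) -/
def R_pU : Prop := ∀ (ι : Type) (α : MulAut (FreeGroup ι)) (w : ι → List ι),
  (∀ i, α (FreeGroup.of i) = BG.pw (w i)) → ∀ (L : Subgroup (GR α)) (K V : Type) [CommRing K]
  [AddCommGroup V] [Module K V] (σ : L →* Module.End K V) (l : ℕ) (v : ι → (GR α ⧸ L) → V) (i : ι),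
  (Uop α w L σ ^ l) v i = ∑ p : Fin (itw w l i).length,
    indA L σ ((tR α ^ l)⁻¹ * iR α (BG.pw ((itw w l i).take p))) (v ((itw w l i).get p))

/-- [CG tr] the traces. (Uses `R_pU`.)

Proof. By `R_pU` the trace of `Uop ^ l` is the sum over `i`, over the positions `p` of the letter `i` in `itw w l i` and over the `x ∈ X = GR α ⧸ D` with `g⁻¹ x = x`, `g = t^-l pre_p`, of `χ (s(x)⁻¹ g s(x))` (`s = sec D`; the trace of `indA D (chE χ) g` is the sum over the `x` with `g⁻¹ • x = x` of `χ (s(x)⁻¹ g s(g⁻¹ x))`). For `χ = 1` all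
terms are `1`, so both inequalities follow if we find among the triples `(i, p, x)` for every loop `d` of level `l` at `j` a triple with `s(x)⁻¹ g s(x) = d`, different for different `d`: `i = j`, `x = D` (`s(x) = 1`), `p` the length of `u` (`d = t^-l u`, the word `u` is determined by `d`; so we can choose the triple as a function of `d`, and it is injective because `d = g`). The real parts of the `χ`-values are at most `1`. -/
def R_tr : Prop := ∀ (ι : Type) [Finite ι] (α : MulAut (FreeGroup ι)) (w : ι → List ι) (i₀ : ι)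
  (D : Subgroup (GR α)), Stg α w i₀ D → ∀ (j : ι) (χ : D →* ℂˣ), (∀ d, ‖(χ d : ℂ)‖ = 1) →
  ∀ (l : ℕ) (S : Finset D), (∀ d ∈ S, (d : GR α) ∈ LpS α w D j l) →
  (S.card : ℝ) ≤ (LinearMap.trace ℂ _ (Uop α w D (chE 1) ^ l)).re ∧
  ∑ d ∈ S, (1 - (χ d : ℂ).re) ≤ (LinearMap.trace ℂ _ (Uop α w D (chE 1) ^ l)).re -
    (LinearMap.trace ℂ _ (Uop α w D (chE χ) ^ l)).re

/-- [CG eig] the crossed homomorphism of an eigenvector.

Proof. `W = (GR α ⧸ D) → ℂ` with the action `indA` of `GR α`. For `v ∈ ι → W` let `z_v : F → W` be the crossed homomorphism with `z_v (x_i) = v_i` (`z_v (x y) = z_v x + x z_v y`). Then `(U v)_i = t⁻¹ z_v (α x_i)` (`α x_i = pw (w i)`, and `z_v (pw l) = ∑ (prefix) v_(letter)`), so `z_(U v) = t⁻¹ z_v ∘ α` (both sides are crossed homomorphisms). The operator `U'`,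
`(U' v)_i = t z_v (α⁻¹ x_i)`, is the inverse of `U`. The matrices of `U` and `U'` have entries which are sums of roots of unity and their negatives, so algebraic integers; so `τ` and `τ⁻¹` are integral. The kernel of `U - τ` has a nonzero vector `v` with algebraic coordinates (a singular matrix over the field generated by its entries), and by multiplication with an integer we may assume that they are
integral. `z_v (α x) = τ t z_v x`. Let `Z (x t^k) = z_v x` (`x ∈ F`); then `Z (g h) = Z g + τ^n(g) g Z h` on `GR α`. `z d = (Z d)(base point)` for `d ∈ D` is a crossed homomorphism for `χ τ^n` (`(d φ)(base point) = χ(d) φ(base point)`, `sec_one`), zero at `t`, with integral values. Suppose `z = 0` on `D ∩ F`. Then `z = 0` on `D`. Let `φ x = (Z (s x)) x`, `s = sec D`. For `g ∈ GR α`,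
`g s(g⁻¹ x) = s(x) d`, `d ∈ D`: `Z (g s(g⁻¹x)) x = Z g x + τ^n(g) (g φ) x` and `Z (s(x) d) x = φ x + τ^.. z(d) = φ x`, so `Z g = φ - τ^n(g) g φ`. For `g = t`: `φ = τ t φ`, and the sup norm of `t φ` is the sup norm of `φ`, so `φ = 0` (`|τ| > 1`), `Z = 0`, `v = 0`, contradiction. -/
def R_eig : Prop := ∀ (ι : Type) [Finite ι] (α : MulAut (FreeGroup ι)) (w : ι → List ι) (i₀ : ι)
  (D : Subgroup (GR α)), Stg α w i₀ D → ∀ (n : ℕ) [NeZero n] (X : D →* Multiplicative (ZMod n))
  (τ : ℂˣ), 1 < ‖(τ : ℂ)‖ → Module.End.HasEigenvalue (Uop α w D (chE (eX n X))) (τ : ℂ) →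
  IsIntegral ℤ (τ : ℂ) ∧ IsIntegral ℤ ((τ⁻¹ : ℂˣ) : ℂ) ∧ ∃ z : D → ℂ, CrC D (eX n X) τ z

open Classical in
/-- [CG key] the main equation. (Uses `R_star`, `R_intZ`, `R_eig`.)

Proof. `z` from `R_eig`, `h ∈ D ∩ F` with `z h ≠ 0`; `c = (1 - χ(t) τ) z h ≠ 0` because `|τ| > 1`. By `R_star` the hypothesis of `R_intZ` is true for `a b = μ_b eY (Y b) c`. The elements of the support of `μ` satisfy `Cmp` (they are values of `nu Φ`: naturality for `ZMod N' → ZMod N`, `N | N'`). Divide by `c`. -/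
def R_key : Prop := ∀ (ι : Type) [Finite ι] (α : MulAut (FreeGroup ι)) (w : ι → List ι) (i₀ : ι)
  (D : Subgroup (GR α)), Stg α w i₀ D → ∀ (Λ : Type) [Group Λ] [Group.FG Λ] (Φ : NatBij D Λ)
  (μ : Zh →₀ ℤ), Ann (nu Φ) μ → ∀ (n : ℕ) [NeZero n] (X : D →* Multiplicative (ZMod n))
  (Y : Zh → ZMod n), Mtc Φ n X Y → ∀ τ : ℂˣ, 1 < ‖(τ : ℂ)‖ →
  Module.End.HasEigenvalue (Uop α w D (chE (eX n X))) (τ : ℂ) →
  ∀ (b₀ : Zh) (κ : Zh → ℤ), (∀ b ∈ μ.support, ∀ k : ℤ, b = b₀ + cst k → κ b = k) →
  ∑ b ∈ μ.support.filter (fun b => ∃ k : ℤ, b = b₀ + cst k),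
    (μ b : ℂ) * eY n (Y b) * ((τ ^ κ b : ℂˣ) : ℂ) = 0

/-! ## The image of `ν` -/

/-- [CG eg1] eigenvalues in the unit disc.

Proof. The trace of `T ^ l` is the sum of the `l`-th powers of the eigenvalues (with multiplicities): the roots of the characteristic polynomial of a matrix of `T` (`Matrix.trace_pow_eq..` or upper triangular form, or `Matrix.charpoly` and `Polynomial.aeval`: the roots of the characteristic polynomial of `T ^ l`). -/
def R_eg1 : Prop := ∀ (V : Type) [AddCommGroup V] [Module ℂ V] [FiniteDimensional ℂ V]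
  (T : Module.End ℂ V), (∀ τ : ℂ, T.HasEigenvalue τ → ‖τ‖ ≤ 1) → ∀ l : ℕ,
  ‖LinearMap.trace ℂ V (T ^ l)‖ ≤ Module.finrank ℂ V

/-- [CG r4] the image of `ν` contains a positive integer. (Uses `R_mu`, `R_key`, `R_grow`, `R_tr`, `R_eg1`.)

Proof. `μ` from `R_mu`. By `R_grow`, `R_tr` (with `χ = 1`) the traces of the powers of `U₁ = Uop (chE 1)` are not bounded; by `R_eg1` there is an eigenvalue `τ` with `|τ| > 1`. `R_key` for `n = 1`, `X = 1`, `Y = 0` (`chE (eX 1 X) = chE 1`). Suppose the image of `ν` contains no constant `cst k`, `k ≠ 0`. Let `b₀` be in the support of `μ`. If `b = b₀ + cst k` is in the support then `cst k` is in the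
image of `ν`, so `k = 0` and `b = b₀`: the sum has only one term, `μ_(b₀) ≠ 0`, contradiction. So it contains some `cst k`, `k ≠ 0`; the set of these `k` and `0` is a subgroup of `ℤ`, generated by some `r ≥ 1`. -/
def R_r4 : Prop := ∀ (ι : Type) [Finite ι] (α : MulAut (FreeGroup ι)) (w : ι → List ι) (i₀ : ι)
  (D : Subgroup (GR α)), Stg α w i₀ D → ∀ (Λ : Type) [Group Λ] [Group.FG Λ] (Φ : NatBij D Λ),
  ∃ r : ℕ, Rmin (nu Φ) r

/-- [CG chi] characters close to `1`.

Proof. Write `χ_k = eX (p ^ k) (X k)`. By the pigeonhole principle (the circle to the power `S` is compact, or cover it by finitely many small sets) there are `1 ≤ k < k'` with `‖χ_k g - χ_k' g‖ < ε` for all `g ∈ S`. `X k` is the reduction of `X k'`, so `χ_k = χ_k' ^ (p ^ (k' - k))`, and `χ_k χ_k'⁻¹ = χ_k' ^ u` with `u = p ^ (k' - k) - 1`, and `‖χ_k g χ_k' g ⁻¹ - 1‖ < ε`. -/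
def R_chi : Prop := ∀ (G : Type) [Group G] (p : ℕ) [Fact p.Prime]
  (X : ∀ k : ℕ, G →* Multiplicative (ZMod (p ^ k))),
  (∀ k k' (h : k ≤ k') (g : G), Multiplicative.toAdd (X k g) =
    ZMod.castHom (pow_dvd_pow p h) (ZMod (p ^ k)) (Multiplicative.toAdd (X k' g))) →
  ∀ (S : Finset G) (ε : ℝ), 0 < ε → ∃ k u : ℕ, 1 ≤ k ∧ ¬ p ∣ u ∧
  ∀ g ∈ S, ‖((eX (p ^ k) (X k) g : ℂˣ) : ℂ) ^ u - 1‖ < ε

/-- [CG lim] limits of operators.

Proof. `n = dim V`, `P_k` = the characteristic polynomial of `T_k ^ r`, `P` that of `T' ^ r`; the coefficients converge (continuity of the characteristic polynomial in the entries of a matrix). The roots of `P_k` are the `τ ^ r`, `τ` an eigenvalue of `T_k` (with multiplicities); those with `|τ| > 1` are in `E`. So the multiset of the roots of `P_k` is `A_k + B_k`, `A_k` a multiset of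
elements of `E`, `B_k` a multiset of elements of the closed unit disc. There are finitely many possibilities for `A_k`, and the closed unit disc is compact, so for a subsequence `A_k = A` is constant and `B_k` converges to `B` (as vectors in `ℂ ^ m`). `∏ (x - a) ∏ (x - b) = P` in the limit. So for the `k` of the subsequence the difference of the traces of the `l`-th powers is
`∑_(b ∈ B) b^l - ∑_(b ∈ B_k) b^l`, of absolute value at most `2 n`. -/
def R_lim : Prop := ∀ (V : Type) [NormedAddCommGroup V] [NormedSpace ℂ V] [FiniteDimensional ℂ V]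
  (T : ℕ → Module.End ℂ V) (T' : Module.End ℂ V),
  (∀ v, Filter.Tendsto (fun k => T k v) Filter.atTop (nhds (T' v))) → ∀ E : Set ℂ, E.Finite →
  ∀ r : ℕ, 1 ≤ r → (∀ (k : ℕ) (τ : ℂ), (T k).HasEigenvalue τ → 1 < ‖τ‖ → τ ^ r ∈ E) →
  ∃ k, ∀ l : ℕ, ‖LinearMap.trace ℂ V (T' ^ (r * l)) - LinearMap.trace ℂ V (T k ^ (r * l))‖ ≤
    2 * Module.finrank ℂ V

/-- [CG cnt] counting loops. (Uses `R_lp`, `R_gen`, `R_grow`.)

Proof. Suppose `χ (iR f) ≠ 1` for some `f ∈ F ∩ D`. By `R_gen` there is a loop `d₀` of a level `l₀ ≥ 1` with `χ d₀ ≠ 1` (otherwise `χ = 1` on the closure of the loops). `χ ^ n = 1`, `r` is prime to `n`, so `χ (d₀ ^ r) ≠ 1`; `d₀ ^ r` is a loop of level `r l₀` (`R_lp`, induction; `r ≥ 1`). Let `δ > 0` be the minimum of `1 - Re ζ` over the `n`-th roots of unity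
`ζ ≠ 1`. By hypothesis the number of the `d` in a finite set of loops of level `r l` with `χ d ≠ 1` is at most `C / δ`. Let `S` be a finite set of loops of level `r l`. The `d ∈ S` with `χ d = 1` are mapped by `d ↦ d d₀ ^ r` injectively to loops of level `r (l + l₀)` with `χ ≠ 1`, so their number is at most `C / δ`. So `|S| ≤ 2 C / δ` for all `l` and all `S`, contradiction to `R_grow`. -/
def R_cnt : Prop := ∀ (ι : Type) [Finite ι] (α : MulAut (FreeGroup ι)) (w : ι → List ι) (i₀ : ι)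
  (D : Subgroup (GR α)), Stg α w i₀ D → ∀ (j : ι) (χ : D →* ℂˣ) (n r : ℕ), 1 ≤ n →
  (∀ d, χ d ^ n = 1) → 1 ≤ r → Nat.Coprime r n → ∀ C : ℝ,
  (∀ (l : ℕ) (S : Finset D), (∀ d ∈ S, (d : GR α) ∈ LpS α w D j (r * l)) →
    ∑ d ∈ S, (1 - (χ d : ℂ).re) ≤ C) →
  ∀ d : D, nD D d = 1 → χ d = 1

/-- [CG r5] the quotient of the image of `ν` by the constants is a torsion group. (Uses `R_mu`, `R_key`, `R_chi`, `R_lim`, `R_tr`, `R_cnt`.)

Proof. Let `Z₀` be the image of `ν`, a finitely generated abelian group. Suppose the claim is false; then `Z₀ / ⟨cst r⟩` is infinite (if it were finite, of order `m`, then `m b ∈ ⟨cst r⟩` for all `b`), and there is a surjective homomorphism `θ : Z₀ → ℤ` with `θ (cst r) = 0`. Let `p` be a prime which does not divide `r`. For `k ≥ 0` let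
`X_k : D → ZMod (p^k)` be `Φ.invFun` of `l ↦ θ (ν l)` modulo `p^k`; they are compatible (naturality). Let `g_1, ..` be generators of `D` (finitely generated). By `R_chi` there are for every `j : ℕ` numbers `k_j ≥ 1`, `u_j` prime to `p` such that `χ_j = (eX (p ^ k_j) (X_(k_j))) ^ (u_j) = eX (p ^ k_j) (X_(k_j) ^ u_j)` satisfies `‖χ_j g - 1‖ < 1 / (j + 1)` for the generators `g`; so
`χ_j g → 1` for all `g ∈ D`, and `T_j v → T' v` for `T_j = Uop α w D (chE χ_j)`, `T' = Uop α w D (chE 1)`. `Mtc` holds for `X = X_k ^ u`, `Y b = u θ b` for `b ∈ Z₀`, `Y b = 0` for the others. Let `μ` be from `R_mu`, `b₀` in the support of `μ`; `Q(x) = ∑_k μ_(b₀ + r k) x^k` (a Laurent polynomial, not zero), `E = {x ≠ 0 | Q(x) = 0}`, a finite set. If `τ` is an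
eigenvalue of `T_j` with `|τ| > 1` then by `R_key` `∑ μ_b e(Y b) τ^k = 0`, the sum over the `b = b₀ + cst k` in the support; `cst k ∈ Z₀`, so `r | k` (`Rmin`), and `θ (cst k) = 0`, so `Y b = Y b₀`. So `Q(τ^r) = 0`, `τ^r ∈ E`. By `R_lim` there is `j` such that the traces of `T'^(r l)` and `T_j^(r l)` differ by at most `C = 2 dim` for all `l`. By `R_tr` the hypothesis of
`R_cnt` is true for `χ = χ_j`, `n = p ^ k_j`, for any letter. So `χ_j = 1` on `D ∩ F`: so `X_k ^ u` is zero on `D ∩ F`, and `u X_k g = c n(g)` for all `g ∈ D`, with `c = u X_k t`. By naturality `u θ(ν l) = c (ν l mod p^k)` for all `l`. For `ν l = cst r` we get `0 = c r`, so `c = 0` in `ZMod (p^k)`, and `u θ (ν l) = 0` modulo `p^k` for all `l`, contradiction to the surjectivity of `θ` (`k ≥ 1`, `p` does not divide `u`). -/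
def R_r5 : Prop := ∀ (ι : Type) [Finite ι] (α : MulAut (FreeGroup ι)) (w : ι → List ι) (i₀ : ι)
  (D : Subgroup (GR α)), Stg α w i₀ D → ∀ (Λ : Type) [Group Λ] [Group.FG Λ] (Φ : NatBij D Λ)
  (r : ℕ), Rmin (nu Φ) r → ∃ m : ℕ, 1 ≤ m ∧ ∀ l : Λ, ∃ k : ℤ,
  (m : ℤ) • Multiplicative.toAdd (nu Φ l) = cst k

/-- [CG regm] MAIN RESULT of block R. (Uses `R_r4`, `R_r5`.)

Proof. `r` from `R_r4`, `m` from `R_r5`. Let `b = ν l`, `m b = cst k`. At the modulus `m`: `k` is divisible by `m`, `k = m k'`. Let `N ≥ 1`; at the modulus `m N`: `m (b - k') = 0` modulo `m N`, so `b` modulo `m N` is congruent to `k'` modulo `N`, and by compatibility (values of `nu Φ` satisfy `Cmp`) `b = k'` modulo `N`. So `b = cst k'`, and `r | k'`. So there is `n'' : Λ → ℤ` with `ν l = cst (n'' l)`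
(a homomorphism, as `cst` is injective), with values in `r ℤ`. For `m ≥ 1`: the homomorphism `Λ → ZMod m` which corresponds to `n` modulo `m` is `n''` modulo `m` (for `m = m' + 1` this is the definition of `nu`). It is onto (`NatBij.range_eq`, `n(t) = 1`) for every `m`, so `n''` is onto (its image is `s ℤ`; take `m = s`, or `m = 2` if `s = 0`). `n' = n''`. -/
def R_main : Prop := ∀ (ι : Type) [Finite ι] (α : MulAut (FreeGroup ι)) (w : ι → List ι) (i₀ : ι)
  (D : Subgroup (GR α)), Stg α w i₀ D → ∀ (Λ : Type) [Group Λ] [Group.FG Λ] (Φ : NatBij D Λ),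
  ∃ n' : Λ →* Multiplicative ℤ, Function.Surjective n' ∧ ∀ (m : ℕ) [NeZero m],
    Φ.toFun _ ((redZ m).comp (nD D)) = (redZ m).comp n'

end

end Pool.Agent.F8.CG
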