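import Pool.Agent.Lib.MP_305fdd_al.F8.CG.DefsA
import Pool.Agent.Lib.MP_305fdd_al.F8.CG.StmR

/-!
# MP_305fdd_al, congruence subgroups: block A, the trace formula

THEOREM (`A_one`). Let `α` be positive with a letter `i₀` such that the word `w i₀` begins with `i₀`, `D` a subgroup of finite index of `GR α`, `c = t ^ -k u ∈ D` a loop at the edge `i₀` with `u ≠ 1`. There are a subgroup `L = F₂ ⟨c⟩` of finite index in `D` and numbers `N`, `M ≥ 1` such that for every field `K` and every `ρ : D → SL₂(K)` which is irreducible on the commutator subgroup of `L` and whose character takes the same value at `c` and at all elements which are profinitely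
conjugate to `c`, there is a monic polynomial `P` of degree `N`, whose roots sum up to `M tr ρ(c)`, such that the multiplicities of the roots of `P` are determined by the dimensions of the spaces of the crossed homomorphisms of `L` with values in `K² ⊗ J`, `J` a Jordan block (`IsP`).

`P` is the characteristic polynomial of the operator `Ub` induced by `Uop` on `H¹(F; W)`, `W` the induced representation. The trace is a sum over the closed orbits of level one of `α ^ k`; these are conjugate to `c` modulo `F₂`, and by the choice of `F₂` (`A_sep`) profinitely conjugate to `c`.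
-/

set_option autoImplicit false

namespace Pool.Agent.F8.CG

open Pool.Agent.F8.BG Pool.Agent.Lib.MP_305fdd_al Pool.Agent.F8

noncomputable section

/-- [CG ub] the operator on `H¹`.

Proof. `Uop (dlt φ) = dlt (indA t⁻¹ φ)`: for a function `z_v : F → W` with `z_v (x y) = z_v x + x z_v y`, `z_v (x_i) = v_i` we have `∑_p pre_p v_(letter) = z_v (pw (w i)) = z_v (α x_i)` (induction on the word), and for `v = dlt φ`, `z_v x = φ - x φ`. So `(Uop (dlt φ))_i = t⁻¹ (φ - α(x_i) φ) = t⁻¹ φ - x_i t⁻¹ φ`.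
So `Uop` maps the range of `dlt` to itself: `Submodule.mapQ`. -/
def A_ub : Prop := ∀ (ι : Type) (α : MulAut (FreeGroup ι)) (w : ι → List ι),
  (∀ i, α (FreeGroup.of i) = BG.pw (w i)) → ∀ (L : Subgroup (GR α)) (K V : Type) [CommRing K]
  [AddCommGroup V] [Module K V] (σ : L →* Module.End K V),
  (∀ φ, Uop α w L σ (dlt α L σ φ) = dlt α L σ (indA L σ (tR α)⁻¹ φ)) ∧
  ∃ Ub : Module.End K (Xq α L σ), IsUb α L σ w Ub

/-- [CG inj] the coboundary is injective.

Proof. Let `dlt φ = 0`: `x_i φ = φ` for all `i`, so `f φ = φ` for all `f ∈ F`. `F` acts transitively on `GR α ⧸ L` (`L` contains an element `g₁` with `n = 1`: for `y ∈ GR α` there is `f ∈ F` with `y = f g₁ ^ n(y)`), so it is enough to show that `φ` is zero at the base point `o = L`. For `f ∈ L ∩ F`: `(f φ) o = σ f (φ o)` (`sec_one`), so `φ o` is invariant under `L ∩ F`. -/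
def A_inj : Prop := ∀ (ι : Type) (α : MulAut (FreeGroup ι)) (L : Subgroup (GR α)),
  (∃ g ∈ L, nR α g = Multiplicative.ofAdd 1) → ∀ (K V : Type) [CommRing K] [AddCommGroup V]
  [Module K V] (σ : L →* Module.End K V),
  (∀ v : V, (∀ x : L, nR α x = 1 → σ x v = v) → v = 0) → Function.Injective (dlt α L σ)

/-- [CG trq] dimension and trace.

Proof. `0 → W → (ι → W) → Xq → 0` is exact, `W = (GR α ⧸ L) → V` of dimension `[GR α : L] dim V`, and compatible with `indA t⁻¹`, `Uop`, `Ub`; the trace is additive (`LinearMap.trace_eq_sum_trace_restrict` or a lemma on `Submodule.mapQ`/`restrict`; for the isomorphism of `W` with the range of `dlt` use `LinearMap.trace_conj'`). -/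
def A_trq : Prop := ∀ (ι : Type) [Fintype ι] (α : MulAut (FreeGroup ι)) (w : ι → List ι)
  (L : Subgroup (GR α)), L.FiniteIndex → ∀ (K V : Type) [Field K]
  [AddCommGroup V] [Module K V] [FiniteDimensional K V] (σ : L →* Module.End K V),
  Function.Injective (dlt α L σ) →
  (∀ φ, Uop α w L σ (dlt α L σ φ) = dlt α L σ (indA L σ (tR α)⁻¹ φ)) →
  Module.finrank K (Xq α L σ) + L.index * Module.finrank K V =
    Fintype.card ι * (L.index * Module.finrank K V) ∧
  ∀ Ub : Module.End K (Xq α L σ), IsUb α L σ w Ub →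
  LinearMap.trace K _ Ub + LinearMap.trace K _ (indA L σ (tR α)⁻¹) =
    LinearMap.trace K _ (Uop α w L σ)

/-- [CG tf] the trace formula.

Proof. The trace of `indA L σ g` is the sum over the `x ∈ X = GR α ⧸ L` with `g⁻¹ x = x` of the trace of `σ (s(x)⁻¹ g s(x))`, `s = sec L`. So the trace of `Uop` is the sum over the triples `(i, p, x)`, `p` a position of the letter `i` in the word `w i`, `x` fixed by `t⁻¹ pre_p`, of the traces of `σ (s(x)⁻¹ t⁻¹ pre_p s(x))`; by hypothesis they are all equal to `T₀`.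
The trace of `indA L σ t⁻¹` is the sum over the fixed points `x` of `t`, and the terms are also equal to `T₀` (`i = i₀`, `u = []`). `M` is the number of the triples with `(i, p) ≠ (i₀, 0)`; it is at least one: `i = i₁`, `p` the length of `u`, `x` the base point (`c ∈ L`). -/
def A_tf : Prop := ∀ (ι : Type) [Finite ι] (α : MulAut (FreeGroup ι)) (w : ι → List ι) (i₀ : ι),
  (w i₀).head? = some i₀ → ∀ L : Subgroup (GR α), L.FiniteIndex → ∀ (i₁ : ι) (u₁ v₁ : List ι),
  u₁ ≠ [] → w i₁ = u₁ ++ i₁ :: v₁ → (tR α)⁻¹ * iR α (BG.pw u₁) ∈ L → ∃ M : ℕ, 1 ≤ M ∧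
  ∀ (K V : Type) [Field K] [AddCommGroup V] [Module K V] [FiniteDimensional K V]
  (σ : L →* Module.End K V) (T₀ : K),
  (∀ (y : GR α) (i : ι) (u v : List ι), w i = u ++ i :: v →
    ∀ h : y⁻¹ * ((tR α)⁻¹ * iR α (BG.pw u)) * y ∈ L, LinearMap.trace K V (σ ⟨_, h⟩) = T₀) →
  LinearMap.trace K _ (Uop α w L σ) = M * T₀ + LinearMap.trace K _ (indA L σ (tR α)⁻¹)

/-- [CG z1] the crossed homomorphisms of `L` and `H¹(F; W)`.

Proof. `V = K²`, `σ = s2E ρ`, `W = (GR α ⧸ L) → V`, `n = nR`, `V_m` = the `2 × m` matrices = `V ^ m` (columns), `W_m = (GR α ⧸ L) → V_m = W ^ m`, `s = sec L`. (1) The crossed homomorphisms `Z : GR α → W_m` with `Z (g h) = Z g + (g Z h) u^n(g)`: for `ζ ∈ Zc` put `(Z g) x = ζ (s(x)⁻¹ g s(g⁻¹ x)) u^n(s(x))`; this is such a crossed homomorphism, and `(Z g) o = ζ g` for `g ∈ L`, `o` the base point.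
(2) The linear map `R : Zc → Sol m Ub u`, `ζ ↦` the classes of the columns of `v_i = Z (x_i)`. It is in `Sol`: with `z = Z` on `F`, `Z (t x_i) = Z (α(x_i) t)` gives `Z t + t v_i u = Z (α x_i) + α(x_i) Z t`, so `t⁻¹ Z (α x_i) - v_i u = φ - x_i φ` with `φ = t⁻¹ Z t`, and `t⁻¹ Z (α x_i) = (Uop v)_i` (see `A_ub`). (3) `R` is onto: let `v` represent a solution, `Uop v - v u = dlt φ`
(columnwise). There is a crossed homomorphism `Z` on `GR α` with `Z x_i = v_i`, `Z t = t φ` (the relation `t x_i t⁻¹ = α x_i` holds; use `liR` for the group of the affine transformations of `W_m`), `ζ g = (Z g) o` on `L`; the classes of the `v_i'` constructed from `ζ` by (1) and of the `v_i` are the same: let `Z'` be constructed from `ζ`, then `Z - Z' = Y` satisfies `(Y g) o = 0` for `g ∈ L`, and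
`Y g = φ' - (g φ') u^n(g)` with `φ' x = (Y (s x)) x`. (4) The kernel of `R`: let `Z = dlt φ` on `F`; `ζ x = φ o - ρ x φ o` for `x ∈ L ∩ F`. Subtract the crossed homomorphism `x ↦ A - ρ x A u^n(x)`, `A = φ o`: `ζ = 0` on `L ∩ F`. For `g ∈ L`, `x ∈ L ∩ F`, `g x = x' g`: `ζ g = ζ x' + ρ x' ζ g = ρ x' ζ g`, so the columns of `ζ g` are invariant under `L ∩ F`, `ζ g = 0`.
So the kernel consists of the `x ↦ A - ρ x A u^n(x)`, of dimension `2 m` (if `A` gives zero then the columns of `A` are invariant under `L ∩ F`, `A = 0`). -/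
def A_z1 : Prop := ∀ (ι : Type) [Finite ι] (α : MulAut (FreeGroup ι)) (w : ι → List ι),
  (∀ i, α (FreeGroup.of i) = BG.pw (w i)) → ∀ L : Subgroup (GR α), L.FiniteIndex →
  (∃ g ∈ L, nR α g = Multiplicative.ofAdd 1) → ∀ (K : Type) [Field K] (ρ : L →* SL2 K),
  (∀ v : Fin 2 → K, (∀ x : L, nR α x = 1 → s2E ρ x v = v) → v = 0) →
  ∀ Ub : Module.End K (Xq α L (s2E ρ)), IsUb α L (s2E ρ) w Ub →
  ∀ (m : ℕ) (u : Matrix.GeneralLinearGroup (Fin m) K),
  Module.Finite K (Zc ((nR α).comp L.subtype) m ρ u) ∧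
  Module.finrank K (Zc ((nR α).comp L.subtype) m ρ u) =
    2 * m + Module.finrank K (Sol m Ub (u : Matrix (Fin m) (Fin m) K))

/-- [CG jor] Jordan blocks.

Proof. `(T - τ) ξ_a = ξ_(a-1)`, `(T - τ) ξ_0 = 0`: `ξ ↦ ξ_(m-1)` is a bijection onto the kernel of `(T - τ)^m` (for `m = 0` both are zero), with the inverse `x ↦ (a ↦ (T - τ)^(m-1-a) x)`. -/
def A_jor : Prop := ∀ (K X : Type) [Field K] [AddCommGroup X] [Module K X] [FiniteDimensional K X]
  (T : Module.End K X) (m : ℕ) (τ : K), Module.finrank K (Sol m T (jorM m τ)) =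
  Module.finrank K (LinearMap.ker ((T - algebraMap K (Module.End K X) τ) ^ m))

/-- [CG itg] `Ub` is invertible, integrality.

Proof. As in `R_eig`: the inverse of `Uop` is `v ↦ (t z_v (α⁻¹ x_i))_i`, where `z_v : F → W` is the crossed homomorphism with `z_v x_i = v_i`. So `Uop` and its inverse `U'` have, in the standard basis of `ι → (GR α ⧸ L) → K²`, matrices whose entries are sums of products of entries of the `ρ x`, so integral over `ℤ`. An eigenvalue `τ` of `Ub` is an
eigenvalue of `Uop` (`Ub - τ` is not onto, so `Uop - τ` is not onto, so it is not injective; finite dimension), so it is a root of a monic polynomial with integral coefficients; the same for `U'` and `τ⁻¹`. `Ub` is onto (because `Uop` is), so `0` is not an eigenvalue. -/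
def A_itg : Prop := ∀ (ι : Type) [Finite ι] (α : MulAut (FreeGroup ι)) (w : ι → List ι),
  (∀ i, α (FreeGroup.of i) = BG.pw (w i)) → ∀ L : Subgroup (GR α), L.FiniteIndex →
  ∀ (K : Type) [Field K] (ρ : L →* SL2 K) (Ub : Module.End K (Xq α L (s2E ρ))),
  IsUb α L (s2E ρ) w Ub → ¬ Ub.HasEigenvalue 0 ∧
  ((∀ x i j, IsIntegral ℤ ((ρ x).val i j)) → ∀ τ, Ub.HasEigenvalue τ →
    IsIntegral ℤ τ ∧ IsIntegral ℤ τ⁻¹)

/-- [CG op] the polynomial `P`, level one. (Uses `A_ub`, `A_inj`, `A_trq`, `A_tf`, `A_z1`, `A_jor`, `A_itg`.)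

Proof. `Ub` from `A_ub`, `P` its characteristic polynomial, `N = 2 (|ι| - 1) [GR α : L]`, `M` from `A_tf`. `mon`, `deg`: `A_trq` (`dlt` is injective by `A_inj` for `σ = s2E ρ`; `L` contains `c⁻¹` with `n = 1`). `tra`: the trace of `Ub` is `M tr (ρ c)` (`A_trq`, `A_tf`; the trace of `s2E ρ x` is `tr (ρ x)`), and `P.nextCoeff` is minus the trace. `le`, `eq`: `A_z1`, `A_jor`; the
dimension of the kernel of `(Ub - τ)^m` is at most the dimension of the maximal generalized eigenspace, which is the multiplicity of the root `τ` of `P` (`LinearMap.finrank_maxGenEigenspace_eq` or similar), with equality if `m` is this multiplicity (the kernels of the powers are strictly increasing until they are constant). `ne`, `int`: `A_itg`. -/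
def A_op : Prop := ∀ (ι : Type) [Finite ι] (α : MulAut (FreeGroup ι)) (w : ι → List ι) (i₀ : ι),
  (∀ i, α (FreeGroup.of i) = BG.pw (w i)) → (w i₀).head? = some i₀ → ∀ L : Subgroup (GR α),
  L.FiniteIndex → ∀ (i₁ : ι) (u₁ v₁ : List ι), u₁ ≠ [] → w i₁ = u₁ ++ i₁ :: v₁ →
  ∀ hc : (tR α)⁻¹ * iR α (BG.pw u₁) ∈ L, ∃ N M : ℕ, 1 ≤ M ∧ ∀ (K : Type) [Field K]
  (ρ : L →* SL2 K), (∀ v : Fin 2 → K, (∀ x : L, nR α x = 1 → s2E ρ x v = v) → v = 0) →
  (∀ (y : GR α) (i : ι) (u v : List ι), w i = u ++ i :: v →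
    ∀ h : y⁻¹ * ((tR α)⁻¹ * iR α (BG.pw u)) * y ∈ L, tr (ρ ⟨_, h⟩) = tr (ρ ⟨_, hc⟩)) →
  ∃ P : Polynomial K, IsP ((nR α).comp L.subtype) N M ρ ⟨_, hc⟩ P

/-- [CG sep] the choice of the subgroup.

Proof. Let `R` be a finite set of representatives of the left cosets `s D` in `GR α`. Consider the finitely many triples `(i, u, s)`, `itw w k i = u ++ i :: ..`, `s ∈ R`, with `c'' = s⁻¹ t^-k u s ∈ D`. For those for which `c''` and `c` are not conjugate in all finite quotients of `D` choose a homomorphism `θ` of `D` to a finite group with `θ c''`, `θ c` not conjugate. `F₂` is the intersection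
of `F ∩ D` and the kernels of these `θ`. It is normalised by `D`, of finite index in `F`. Let `y`, `i`, `u` be given, `c' = y⁻¹ t^-k u y ∈ D`, `c' c⁻¹ ∈ F₂`. `y = s d`, `s ∈ R`, `d ∈ D`, `c'' = s⁻¹ t^-k u s = d c' d⁻¹ ∈ D`. If `c'`, `c` are not conjugate in some finite quotient then `c''`, `c` are not, so `θ` was chosen for `(i, u, s)`, and `θ c' = θ c`, and `θ c''` is conjugate to `θ c'`, contradiction. -/
def A_sep : Prop := ∀ (ι : Type) [Finite ι] (α : MulAut (FreeGroup ι)) (w : ι → List ι)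
  (D : Subgroup (GR α)), D.FiniteIndex → ∀ (k : ℕ) (c : D), ∃ F₂ : Subgroup (GR α), F₂ ≤ D ∧
  (∀ g ∈ F₂, nR α g = 1) ∧ (∀ d ∈ D, ∀ g ∈ F₂, d * g * d⁻¹ ∈ F₂) ∧
  (F₂.comap (iR α)).FiniteIndex ∧
  ∀ (y : GR α) (i : ι) (u v : List ι), itw w k i = u ++ i :: v →
    ∀ h : y⁻¹ * ((tR α ^ k)⁻¹ * iR α (BG.pw u)) * y ∈ D,
    y⁻¹ * ((tR α ^ k)⁻¹ * iR α (BG.pw u)) * y * (c : GR α)⁻¹ ∈ F₂ → PConj (⟨_, h⟩ : D) c

/-- [CG one] MAIN RESULT of the first part of block A. (Uses `R_lp`, `A_op`, `A_sep`.)

Proof. `F₂` from `A_sep` for `c = t^-k u`; `L = {f c^j | f ∈ F₂, j ∈ ℤ}` (as a subgroup of `D`), of finite index; `nL (f c^j) = -j`, so `k nL = n` on `L`. `L' = (L as a subgroup of GR α).comap (emb α k)`: `emb α k` is injective, its range is `{g | k ∣ n(g)}`, and `L` is contained in it; so `L ≅ L'`, `n(x) = nL` on `L'`, and `L'` has finite index in `GR (α ^ k)`. Apply `A_op` to `α ^ k`, `itw w k` (`R_lp`; the word `itw w k i₀`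
begins with `i₀`), `L'`, `i₁ = i₀`, `u₁ = u`. For `ρ : D → SL2 K` let `ρ' : L' → SL2 K` be the composition. (1) `IrC L ρ` implies that there are no invariants of `F₂`: the commutator subgroup of `L` is contained in `F₂` (`L / F₂` is cyclic), and if `v ≠ 0` is invariant under `ρ g`, `ρ h` then these matrices are triangular in a suitable basis and the trace of the
commutator is `2`. (2) The hypothesis on the traces: let `y ∈ GR (α ^ k)` with `c' = y⁻¹ t⁻¹ u y ∈ L'`, `itw w k i = u ++ i :: v`. Its image in `GR α` is in `L`, with `nL = -1`, so in `F₂ c`; by `A_sep` it is profinitely conjugate to `c`. Transport the result (`Zc` for `L'` and `L` are isomorphic). -/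
def A_one : Prop := ∀ (ι : Type) [Finite ι] (α : MulAut (FreeGroup ι)) (w : ι → List ι) (i₀ : ι),
  Pos α w → (w i₀).head? = some i₀ → ∀ D : Subgroup (GR α), D.FiniteIndex → ∀ k : ℕ, 1 ≤ k → ∀ (u v : List ι), u ≠ [] →
  itw w k i₀ = u ++ i₀ :: v → ∀ c : D, (c : GR α) = (tR α ^ k)⁻¹ * iR α (BG.pw u) →
  ∃ (L : Subgroup D) (nL : L →* Multiplicative ℤ) (N M : ℕ) (hc : c ∈ L), L.FiniteIndex ∧
  nL ⟨c, hc⟩ = Multiplicative.ofAdd (-1) ∧
  (∀ x : L, Multiplicative.toAdd (nD D x) = k * Multiplicative.toAdd (nL x)) ∧ 1 ≤ M ∧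
  ∀ (K : Type) [Field K] (ρ : D →* SL2 K), IrC L ρ →
  (∀ c' : D, PConj c' c → tr (ρ c') = tr (ρ c)) →
  ∃ P : Polynomial K, IsP nL N M (ρ.comp L.subtype) ⟨c, hc⟩ P

/-- [CG gn2] the loops generate `D`, general version. (Uses `BG.S_i1`, `BG.S_i2`.)

Proof. A generalisation of `R_gen` (proof in `CG/P_gen.lean`) without the hypothesis `t ∈ D`. (1) Let `L` be any subgroup of finite index of `GR α`. In `X = GR α ⧸ L` every edge can be reached from every edge in at least one step: the set of the edges which can be reached from a given edge is finite, forward closed and not empty; by `S_i1`, `S_i2` it contains with an edge `(v, i)` all edges `(g v, j)`, `g ∈ F`, and it is forward closed,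
so it contains edges over the `F`-orbits of all `t^n v`, and these are all orbits. (2) Let `H` be the closure of the loops, `H ≤ D`, `o = H`: if `(v, j)` can be reached from `(o, j)` in `V = GR α ⧸ H`, and `v` lies over the base point of `GR α ⧸ D`, then `v = o` (see `P_gen`). (3), (4) as in `P_gen`: the set `S` of the edges which can be reached from `(o, j)` is finite, so `H` contains `D ∩ F` (`f • o = o` for `f ∈ D ∩ F`). (5) `H` contains a loop
(of level at least one, by (1) for `D` and the edge (base point, `j`)), so `H` is not contained in `F`, and it has finite index in `GR α`. By (1) for `L = H`: for `g ∈ D` the edge `(g o, j)` can be reached from `(o, j)`, and `g o` lies over the base point, so `g o = o` by (2), `g ∈ H`. -/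
def A_gn2 : Prop := ∀ (ι : Type) [Finite ι] (α : MulAut (FreeGroup ι)) (w : ι → List ι),
  Pos α w → ∀ D : Subgroup (GR α), D.FiniteIndex → ∀ j : ι,
  Subgroup.closure {d | ∃ l, 1 ≤ l ∧ d ∈ LpS α w D j l} = D

/-- [CG gns] generators which are loops with a prefix. (Uses `R_lp`, `A_gn2`.)

Proof. By `A_gn2` the loops at `i₀` generate `D`. There is a loop `c₁ = t^-l₁ u₁` with `u₁ ≠ []`: otherwise all loops are powers of `t` and `D` would be abelian, but `D ∩ F` has finite index in `F` and `ι` has at least two elements (see `P_grow.lean`). For every loop `c` of level `l ≥ 1` the product `c c₁` is a loop with a nonempty prefix: `c = t^-l u`, `c c₁ = t^-(l+l₁) α^l₁(u) u₁`,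
prefix the word `u.flatMap (itw w l₁) ++ u₁`. So the closure of the loops with nonempty prefixes contains all loops. `D` is finitely generated (finite index in a finitely generated group), so finitely many of them generate `D` (`D` is the union of the directed family of the subgroups generated by finite sets of such loops). -/
def A_gns : Prop := ∀ (ι : Type) [Finite ι] (α : MulAut (FreeGroup ι)) (w : ι → List ι) (i₀ : ι),
  Pos α w → ∀ D : Subgroup (GR α), D.FiniteIndex → ∃ S : Finset D,
  Subgroup.closure (S : Set D) = ⊤ ∧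
  ∀ c ∈ S, ∃ k, 1 ≤ k ∧ ∃ u v : List ι, u ≠ [] ∧ itw w k i₀ = u ++ i₀ :: v ∧
    (c : GR α) = (tR α ^ k)⁻¹ * iR α (BG.pw u)

/-- [CG ppow] powers of positive automorphisms. (Uses `R_lp`.)

Proof. `eq`: `R_lp`. Every letter `i` occurs in some `w j` (irreducibility, or `w` would not be onto modulo commutators: `α` is an automorphism). By irreducibility and because `i₀` occurs in `w i₀` the letter `i₀` occurs in `itw w m j` for all large `m` and all `j`, and every letter `i` occurs in `itw w m i₀` for all large `m` (`itw w m i₀` begins with `i₀`, so the set of the letters of `itw w m i₀` increases with `m`), so `i` occurs in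
`itw w m j` for all `i, j` and all large `m`: `irr` for `itw w k` (`itw (itw w k) m = itw w (k m)`). `con`: `Turn w b a` iff `[b, a]` is an infix of some `itw w m i`, `m ≥ 1` (⇐: induction on `m`, an infix of length two of `L.flatMap w` is an infix of a `w i` or consists of the last letter of `w b` and the first letter of `w a`, `[b, a]` an infix of `L`; ⇒: clear, by the step: `w b ++ w a`), and then for all large `m`, `i = i₀` (if
`[b, a]` is an infix of `itw w m i` and `i` occurs in `itw w m' i₀` then it is an infix of `itw w (m + m') i₀`). So `Turn w b a` implies `Turn (itw w k) b a` (take `m` a multiple of `k`; and ⇐ of the claim for `itw w k`). -/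
def A_ppow : Prop := ∀ (ι : Type) [Finite ι] (α : MulAut (FreeGroup ι)) (w : ι → List ι) (i₀ : ι),
  Pos α w → (w i₀).head? = some i₀ → ∀ k : ℕ, 1 ≤ k →
  Pos (α ^ k) (itw w k) ∧ (itw w k i₀).head? = some i₀

/-- [CG rm2] regularity, general version. (Uses `R_main`, `A_ppow`.)

Proof. Let `t^K ∈ D`, `K ≥ 1`, `D₀ = {f t^(K j) | f ∈ D ∩ F}`, a subgroup of finite index of `D` (`t^K` normalises `D ∩ F`). `D₀' = D₀.comap (emb α K)` is isomorphic to `D₀` (`emb α K` is injective, its range is `{g | K ∣ n(g)}`), it has finite index in `GR (α ^ K)` and contains `tR (α ^ K)`; so `Stg (α ^ K) (itw w K) i₀ D₀'` by `A_ppow`. Let `π : D → Perm (D ⧸ D₀)`, `π' = Φ π`, `S` the stabiliser of the base point, `D₀ = S.comap π`,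
`Λ₀ = S.comap π'`, of finite index in `Λ`, so finitely generated; `natBij_comap` and `natBij_equiv` give `Φ₀ : NatBij D₀' Λ₀`, compatible with `Φ`. By `R_main` there is `n₀ : Λ₀ → ℤ` with `Φ₀ (n / K mod m) = n₀ mod m`, so for `l ∈ Λ₀` the image of `l` under `Φ (n mod m)` is `K n₀(l) mod m`. Let `l ∈ Λ`, `l^s ∈ Λ₀` with `s ≥ 1` (the same `s` for all `l`: the factorial of the index). Let `x_m ∈ ZMod m` be the image of `l` under `Φ (n mod m)`; the `x_m` are
compatible (naturality), and `s x_m = k mod m` with `k = K n₀(l^s)`, for all `m`. For `m = s`: `s ∣ k`, `k = s k'`; for `m s`: `s (x_(ms) - k') = 0` modulo `m s`, so `x_m = k' mod m`. `n'(l) = k'`; it is a homomorphism because it is so modulo all `m`. -/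
def A_rm2 : Prop := ∀ (ι : Type) [Finite ι] (α : MulAut (FreeGroup ι)) (w : ι → List ι) (i₀ : ι),
  Pos α w → (w i₀).head? = some i₀ → ∀ D : Subgroup (GR α), D.FiniteIndex →
  ∀ (Λ : Type) [Group Λ] [Group.FG Λ] (Φ : NatBij D Λ),
  ∃ n' : Λ →* Multiplicative ℤ, ∀ (m : ℕ) [NeZero m],
    Φ.toFun _ ((redZ m).comp (nD D)) = (redZ m).comp n'

/-- [CG smg] the loops with nonempty prefixes are a semigroup. (Uses `R_lp`.)

Proof. `c = t^-l u`, `c' = t^-l' u'`, `c c' = t^-(l+l') α^l'(u) u'`, the word is `u.flatMap (itw w l') ++ u'`, not empty (see `R_lp`). -/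
def A_smg : Prop := ∀ (ι : Type) (α : MulAut (FreeGroup ι)) (w : ι → List ι) (i₀ : ι),
  (∀ i, α (FreeGroup.of i) = BG.pw (w i)) → ∀ c c' : GR α,
  (∃ k, 1 ≤ k ∧ ∃ u v : List ι, u ≠ [] ∧ itw w k i₀ = u ++ i₀ :: v ∧
    c = (tR α ^ k)⁻¹ * iR α (BG.pw u)) →
  (∃ k, 1 ≤ k ∧ ∃ u v : List ι, u ≠ [] ∧ itw w k i₀ = u ++ i₀ :: v ∧
    c' = (tR α ^ k)⁻¹ * iR α (BG.pw u)) →
  ∃ k, 1 ≤ k ∧ ∃ u v : List ι, u ≠ [] ∧ itw w k i₀ = u ++ i₀ :: v ∧
    c * c' = (tR α ^ k)⁻¹ * iR α (BG.pw u)

/-- [CG fri] finitely many traces determine the character.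

Proof. Let `X, Y`, `X', Y'` be the images of `x, y` under `ρ`, `ρ'`. `tr [X, Y] ≠ 2` and the traces of `X, Y, X Y` are the same, so `tr [X', Y'] ≠ 2`. `1, X, Y, X Y` is a basis of the space of the `2 × 2` matrices and the trace form is nondegenerate; its Gram matrix on `1, X, Y, X Y` depends only on the traces of `X, Y, X Y`. The linear map `φ` with `1, X, Y, X Y ↦ 1, X', Y', X' Y'` is multiplicative (the multiplication table depends only
on these traces: `X² = tr(X) X - 1`, `Y X = - X Y + ..`) and preserves the trace. For `s ∈ S`: `tr (ρ s B) = tr (ρ' s φ B)` for `B ∈ {1, X, Y, X Y}`, so `φ (ρ s) = ρ' s` (nondegenerate). So `φ (ρ g) = ρ' g` for all `g`, and the traces agree. -/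
def A_fri : Prop := ∀ (G K : Type) [Group G] [Field K] (ρ ρ' : G →* SL2 K) (S : Set G),
  Subgroup.closure S = ⊤ → ∀ x y : G, tr (ρ (x * y * x⁻¹ * y⁻¹)) ≠ 2 →
  tr (ρ x) = tr (ρ' x) → tr (ρ y) = tr (ρ' y) → tr (ρ (x * y)) = tr (ρ' (x * y)) →
  (∀ s ∈ S, tr (ρ s) = tr (ρ' s) ∧ tr (ρ (s * x)) = tr (ρ' (s * x)) ∧
    tr (ρ (s * y)) = tr (ρ' (s * y)) ∧ tr (ρ (s * x * y)) = tr (ρ' (s * x * y))) →
  ∀ g, tr (ρ g) = tr (ρ' g)

/-- [CG alf] two elements with an irreducible pair.

Proof. `ρ x ρ y` do not have a common eigenvector for suitable words: `g`, `h ∈ D` with `tr ρ[g, h] ≠ 2`. If for all pairs of generators `s, s' ∈ S` and all products .. the trace of the commutator were `2`: claim: a semigroup `S'` of matrices in `SL₂(K)`, such that `tr [x, y] = 2` for all `x, y ∈ S'`, generates a group with a common eigenvector over the algebraic closure. Suppose some `x ∈ S'` is not `± 1` and not parabolic; it has two eigenlines `l₁`, `l₂`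
(over the algebraic closure); every `y ∈ S'` fixes `l₁` or `l₂` (`tr [x, y] = 2` means a common eigenvector). If `y` fixes only `l₁` and `y'` fixes only `l₂` then `y y'` fixes neither, contradiction. If all `x ∈ S'` are `±` unipotent: if `x ≠ ± 1` then its only eigenline is fixed by all `y ∈ S'`. So there is a common eigenvector, and `tr ρ[g, h] = 2` for all `g, h` in the generated group. -/
def A_alf : Prop := ∀ (G K : Type) [Group G] [Field K] (ρ : G →* SL2 K) (S : Set G),
  Subgroup.closure S = ⊤ → (∀ x ∈ S, ∀ y ∈ S, x * y ∈ S) →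
  (∃ g h : G, tr (ρ (g * h * g⁻¹ * h⁻¹)) ≠ 2) →
  ∃ x ∈ S, ∃ y ∈ S, tr (ρ (x * y * x⁻¹ * y⁻¹)) ≠ 2

end

end Pool.Agent.F8.CG
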