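import Pool.Agent.Lib.MP_305fdd_al.F8.CG.DefsB

/-!
# MP_305fdd_al, congruence subgroups: block B1, the first Betti number grows sublinearly

THEOREM (`B_b1`). Let `α` be an automorphism of the free group `F` of finite rank, `D_j` a decreasing sequence of subgroups of finite index of
`Γ = GR α = F ⋊ ℤ`, normal in a fixed subgroup `Γ₁` of finite index, with trivial intersection (`Tow Γ₁ D`). Then `b1 (D_j) / [Γ : D_j]` tends to zero.

The proof is an elementary finitary version of a theorem of Lueck. The cocycles of `Γ` with values in the functions on `X = Γ ⧸ D_j` are described by an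
integer matrix `A_X = big (t - J) X` (`B_fox`, `B_shap`). The traces of the powers of `A_Xᵀ A_X`, divided by `|X|`, do not depend on `X` if `X` is deep enough (`B_mom`, `B_fixp`). So the dimension of the
kernel, divided by `|X|`, can be estimated (`B_spec`; the product of the eigenvalues which are not zero is at least one, because it is an integer) by the corresponding number for another deep quotient `X'`, for which we choose one on which
the class of `n` modulo a large `m` is well defined; for `X'` the kernel is small (`B_grad`).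
-/

set_option autoImplicit false

namespace Pool.Agent.F8.CG

open Pool.Agent.F8.BG

noncomputable section

/-- [CG fox] the Fox derivatives.

Proof. It is enough to prove: for every `w : FreeGroup ι` there is `c : ι → MonoidAlgebra ℤ (FreeGroup ι)` such that `z w = ∑ j, (c j).coeff.sum fun g n => n • (g • z (of j))` for all `M`, `z`. Write `c • m` for
`c.coeff.sum fun g n => n • (g • m)`; it is additive in `c` and `(single g n * c) • m = n • g • (c • m)`. Induction on `w`: `z 1 = 0` (`z 1 = z 1 + 1 • z 1`), `z (of i) = single 1 1 • z (of i)`,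
`z (w⁻¹) = - w⁻¹ • z w` (from `z (w⁻¹ w) = 0`), `z (w w') = z w + w • z w'`. -/
def B_fox : Prop := ∀ (ι : Type) [Fintype ι] (α : MulAut (FreeGroup ι)),
  ∃ J : Matrix ι ι (MonoidAlgebra ℤ (FreeGroup ι)), IsFox α J

/-- [CG shap] the first Betti number and the matrix `A`.

Proof. `X = GR α ⧸ D`, `Γ = GR α`, `V = X → ℚ` with the action `(g φ) x = φ (g⁻¹ • x)`. Choose representatives `s : X → Γ` of the cosets (`s x` in the class `x`), `s D = 1`. For `f : Additive D →+ ℚ` put `z_f g x = f ((s x)⁻¹ * g * s (g⁻¹ • x))`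
(this element is in `D`). It is a cocycle: `z_f (g h) = z_f g + g z_f h`; linear in `f`; `z_f (s x) x = 0`, `z_f g D = f g` for `g ∈ D`. For `φ ∈ V` let `d_φ g = φ - g φ`. If `z_f = d_φ` then
`0 = z_f (s x) x = φ x - φ D`, so `φ` is constant, `z_f = 0` and `f = 0`. So the map `(f, φ) ↦ z_f + d_φ` from `(Additive D →+ ℚ) × {φ | φ D = 0}` to the cocycles is injective, and the dimension of the left side is
`b1 D + |X| - 1` (`Additive D →+ ℚ` is finite dimensional, because `D` is finitely generated; if one wants to avoid this: if it were not finite dimensional then `b1 D = 0`). A cocycle `z` is determined by `v i = z (iR (of i))` and `u = z (tR)` (homomorphisms and cocycles on `GR α` are determined by their values on the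
generators), and `z (tR * iR (of i)) = z (iR (α (of i)) * tR)` gives `u + t v_i = z (iR (α (of i))) + α(x_i) u`; by `IsFox` (for `M = V`, `z ∘ iR`) `z (iR (α (of i))) = ∑ j, J i j v_j`. So
`A v = (α(x_i) u - u)_i` for `A = t - J`, the operator with the matrix `big (foxA α J) X` (over `ℚ`). The space of the pairs `(v, u)` with this property has dimension at most `nul (big (foxA α J) X) + |X|` (the kernel of `(v, u) ↦ u` is the kernel of `A`). So
`b1 D + |X| - 1 ≤ nul + |X|`. -/
def B_shap : Prop := ∀ (ι : Type) [Fintype ι] [DecidableEq ι] (α : MulAut (FreeGroup ι))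
  (J : Matrix ι ι (MonoidAlgebra ℤ (FreeGroup ι))), IsFox α J → ∀ (D : Subgroup (GR α))
  [Fintype (GR α ⧸ D)] [DecidableEq (GR α ⧸ D)],
  b1 D ≤ nul (big (foxA α J) (GR α ⧸ D)) + 1

/-- [CG grad] the kernel is small if the class of `n` modulo `m` is defined on `X`.

Proof. Let `v` be in the kernel of `big (foxA α J) X` (over `ℚ`): `v (i, t⁻¹ x) = ∑ j, ∑ g, (J i j) g * v (j, g⁻¹ x)` for all `i`, `x` (`g ∈ F`; so `c (g⁻¹ x) = c x` and `c (t⁻¹ x) = c x - 1`). If `v (j, y) = 0` for all `j` and all `y` with `c y = a` then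
`v (i, y) = 0` for all `i` and all `y` with `c y = a - 1`. So a vector of the kernel which is zero on `c⁻¹ {0}` is zero, and the dimension of the kernel is at most `|ι| * |c⁻¹ {0}|`. The sets `c⁻¹ {a}`, `a : ZMod m`, have the same number
of elements (`x ↦ t x`), so `|c⁻¹ {0}| * m = |X|`. -/
def B_grad : Prop := ∀ (ι : Type) [Fintype ι] [DecidableEq ι] (α : MulAut (FreeGroup ι))
  (J : Matrix ι ι (MonoidAlgebra ℤ (FreeGroup ι))) (X : Type) [Fintype X] [DecidableEq X]
  [MulAction (GR α) X] (m : ℕ) [NeZero m] (c : X → ZMod m),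
  (∀ (g : GR α) (x : X), c (g • x) = c x + ((Multiplicative.toAdd (nR α g) : ℤ) : ZMod m)) →
  m * nul (big (foxA α J) X) ≤ Fintype.card ι * Fintype.card X

/-- [CG mom] the traces of the powers.

Proof. For `a : MonoidAlgebra ℤ Γ` let `a'` be the image under `g ↦ g⁻¹` (`MonoidAlgebra.mapDomain`); `rmat X a' = (rmat X a)ᵀ` (on `single g n`: `pmat (g⁻¹) = (pmat g)ᵀ`). `B ↦ big B X` is multiplicative (block matrices: `Matrix.mul_apply`,
`Fintype.sum_prod_type`), and `big (fun i j => (A j i)') X = (big A X)ᵀ`. So `(big A X)ᵀ * big A X = big C X` with `C i j = ∑ k, (A k i)' * A k j`, and its `k`-th power is `big (C ^ k) X`. The trace of `big B X` is `∑ i, ∑ g, (B i i) g * |{x | g x = x}|`. So for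
`c k = ∑ i, (C ^ k) i i 1` and `E` = the union of the supports of the `(C ^ k) i i`, `k ≤ N`, without `1`, the claim is true. -/
def B_mom : Prop := ∀ (ι : Type) [Fintype ι] [DecidableEq ι] (Γ : Type) [Group Γ]
  (A : Matrix ι ι (MonoidAlgebra ℤ Γ)), ∃ c : ℕ → ℤ, ∀ N : ℕ, ∃ E : Finset Γ, 1 ∉ E ∧
  ∀ (X : Type) [Fintype X] [DecidableEq X] [MulAction Γ X], (∀ g ∈ E, ∀ x : X, g • x ≠ x) →
  ∀ k ≤ N, (((big A X).transpose * big A X) ^ k).trace = c k * Fintype.card X

/-- [CG bdd] a bound for the norm which does not depend on `X`.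

Proof. Let `a = ∑ i j, ∑ g, |(A i j) g|` and `K = a² + 1` (or any bound). For `φ : X → ℝ` let `‖φ‖² = ∑ φ(x)²`; `pmat g` preserves the norm, so `‖rmat (A i j) φ‖ ≤ (∑ g, |(A i j) g|) ‖φ‖` and
`‖∑ j, rmat (A i j) v_j‖ ≤ a_i ‖v‖` with `a_i = ∑ j, ∑ g, |(A i j) g|`, where `‖v_j‖ ≤ ‖v‖`; sum the squares over `i`. (It may be easier to use `EuclideanSpace`, or the Schur test: for an integer matrix `B` whose rows and columns have `ℓ¹`-norm at most `a`
`∑ (B v)_x² ≤ ∑_x (∑_y |B x y|) (∑_y |B x y| v_y²) ≤ a² ∑ v_y²` by Cauchy-Schwarz; the rows and the columns of `big A X` have `ℓ¹`-norm at most `a`.) -/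
def B_bdd : Prop := ∀ (ι : Type) [Fintype ι] [DecidableEq ι] (Γ : Type) [Group Γ]
  (A : Matrix ι ι (MonoidAlgebra ℤ Γ)), ∃ K : ℝ, 1 ≤ K ∧
  ∀ (X : Type) [Fintype X] [DecidableEq X] [MulAction Γ X] (v : ι × X → ℝ),
  ∑ a, (∑ b, (big A X a b : ℝ) * v b) ^ 2 ≤ K * ∑ a, v a ^ 2

/-- [CG spec] linear algebra: integer matrices.

Proof. `D = Bᵀ B` (over `ℝ`) is symmetric and positive semidefinite, with the eigenvalues `λ_i ∈ [0, K]` (`Matrix.IsHermitian.eigenvalues`; the upper bound from `hK` for the eigenvectors). The number `z` of the `i` with `λ_i = 0` is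
`|n| - rank D = |n| - rank B = nul B` (the rank over `ℚ` and over `ℝ` is the same). The sum `T` is the trace of `(1 - D / K) ^ N`, `T = ∑ i, (1 - λ_i / K) ^ N` (`trace (D ^ k) = ∑ i, λ_i ^ k`), all terms are in `[0, 1]`. First claim: the terms with `λ_i = 0` are `1`. Second claim: let `s` be the number of the `i` with
`0 < λ_i < ε`. The characteristic polynomial of the integer matrix `Bᵀ B` is `∏ (X - λ_i)`, its coefficient at `X ^ z` is `±` the product of the `λ_i ≠ 0`, an integer different from zero. So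
`1 ≤ ∏_(λ_i ≠ 0) λ_i ≤ ε ^ s * K ^ |n|`, `s * log (1 / ε) ≤ |n| log K`. The terms with `λ_i ≥ ε` are at most `(1 - ε / K) ^ N`. So `T ≤ z + s + |n| (1 - ε / K) ^ N`. -/
def B_spec : Prop := ∀ (n : Type) [Fintype n] [DecidableEq n] (B : Matrix n n ℤ) (K : ℝ), 1 ≤ K →
  (∀ v : n → ℝ, ∑ a, (∑ b, (B a b : ℝ) * v b) ^ 2 ≤ K * ∑ a, v a ^ 2) → ∀ N : ℕ,
  (nul B : ℝ) ≤ ∑ k ∈ Finset.range (N + 1),
    (N.choose k : ℝ) * (-1 / K) ^ k * (((B.transpose * B) ^ k).trace : ℝ) ∧
  ∀ ε : ℝ, 0 < ε → ε < 1 →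
  (∑ k ∈ Finset.range (N + 1),
    (N.choose k : ℝ) * (-1 / K) ^ k * (((B.transpose * B) ^ k).trace : ℝ)) ≤
    nul B + Fintype.card n * (Real.log K / Real.log (1 / ε)) +
      Fintype.card n * (1 - ε / K) ^ N

/-- [CG fixp] no fixed points on deep quotients.

Proof. Let `R` be a finite set of representatives of the left cosets of `Γ₁`. For `g ∈ E`, `s ∈ R` the element `s⁻¹ g s ≠ 1` is not in some `D j`, so there is `j₀` such that none of these finitely many elements is in `D j₀` (`Antitone`). Let `D' ≤ D j₀` and let `g ∈ E` fix the coset of `x` in `Γ ⧸ D'`: `x⁻¹ g x ∈ D'`, so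
`x⁻¹ g x ∈ D j₀`. `x = s γ`, `s ∈ R`, `γ ∈ Γ₁`: `s⁻¹ g s ∈ γ (D j₀) γ⁻¹ ⊆ D j₀`, contradiction. -/
def B_fixp : Prop := ∀ (Γ : Type) [Group Γ] (Γ₁ : Subgroup Γ) (D : ℕ → Subgroup Γ), Tow Γ₁ D →
  ∀ E : Finset Γ, 1 ∉ E → ∃ j₀ : ℕ, ∀ D' : Subgroup Γ, D' ≤ D j₀ →
  ∀ g ∈ E, ∀ x : Γ ⧸ D', g • x ≠ x

/-- [CG b1] MAIN RESULT of block B1. (Uses `B_fox`, `B_shap`, `B_grad`, `B_mom`, `B_bdd`, `B_spec`, `B_fixp`.)

Proof. `Γ = GR α`, `r = |ι|`, `J` from `B_fox`, `A = foxA α J`, `K` from `B_bdd`, `c` from `B_mom`. Choose `m' ≥ 1` with `r / m' ≤ 1 / (8 m)`, then `0 < ε < 1` with `r log K / log (1 / ε) ≤ 1 / (8 m)`, then `N` with `r (1 - ε / K) ^ N ≤ 1 / (8 m)` (`0 ≤ 1 - ε / K < 1`), then `E` from `B_mom` for this `N`,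
then `j₀` from `B_fixp`. Put `T₀ = ∑_(k ≤ N) (N choose k) (-1 / K)^k (c k)`. For all `D' ≤ D j₀` of finite index and `X = Γ ⧸ D'` the sum in `B_spec` for `B = big A X` is `|X| T₀`. For `D' = D j₀ ⊓ {g | m' divides nR g}` and `X' = Γ ⧸ D'` (of finite index; the class of `nR g` modulo `m'` is well defined on `X'`: `D' ≤` the kernel of this homomorphism)
we get by `B_spec` and `B_grad`: `|X'| T₀ ≤ nul + r |X'| (..) + r |X'| (..) ≤ |X'| (1 / (8 m)) * 3`. So `T₀ ≤ 3 / (8 m)`, and for `j ≥ j₀`, `X = Γ ⧸ D j`: `nul (big A X) ≤ |X| T₀ ≤ 3 |X| / (8 m)`, `b1 (D j) ≤ 3 |X| / (8 m) + 1` (`B_shap`). And `|X| = (D j).index ≥ 2 m` for large `j`: `Γ` is infinite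
(if the index were bounded, `D j` would be constant from some point on, so trivial and of finite index, and `Γ` would be finite). -/
def B_b1 : Prop := ∀ (ι : Type) [Finite ι] (α : MulAut (FreeGroup ι)) (Γ₁ : Subgroup (GR α))
  (D : ℕ → Subgroup (GR α)), Tow Γ₁ D → ∀ m : ℕ, ∃ j₀ : ℕ, ∀ j, j₀ ≤ j →
  m * b1 (D j) ≤ (D j).index

end

end Pool.Agent.F8.CG
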