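import Pool.Agent.Lib.MP_305fdd_al.F8.CG.DefsJ

/-!
# MP_305fdd_al, congruence subgroups: block J, lattices in `PGL₂(K)`

Let `Γ ≤ PGL₂(K)` contain the image of `Γ(m₀)` as a subgroup of finite index and let `Λ` be in the genus of `Γ`. The subgroup `L ≤ Λ` which corresponds to the image of `Γ(m₀)` is isomorphic to `Γ(m₀)` (`ρ`), and the isomorphism is locally the
conjugation with elements of `SL₂(ℤ[w])` which are in `Γ(m₁)` (`JD`; this uses the determinant of the conjugator, block K). `l ∈ Λ` acts on (a subgroup of) `L` by an element `τ ∈ PGL₂(K)` (`IsTh`, `J_act`), and `τ = γ δ` with `γ ∈ Γ` and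
`δ` in the kernel of the reduction modulo `k`, for every `k` (`J_cmp`). `l ↦ τ` is injective (`J_ker`).
-/

set_option autoImplicit false

namespace Pool.Agent.F8.CG

open Pool.Agent.F8.BG Pool.Agent.MP_305fdd_al Pool.Agent.Lib.MP_305fdd_al Pool.Agent.F8
open scoped QuadraticAlgebra

noncomputable section

/-- [CG J rep] the basic facts about the integral representatives.

Proof. `RepQ φ A γ`: `g.val = A.map φ`, `mk g = γ`. `Matrix.ProjGenLinGroup.mk_eq_mk_iff`: `mk g = mk g'` iff `g * scalar u = g'` for a unit `u` of `K`. det: `φ (det A) = det g ≠ 0`. of: `Matrix.GeneralLinearGroup.mkOfDetNeZero`, `φ` injective. mul: `g * g'`. inv: `A.adjugate.map φ = det g • g⁻¹`, the product of `g⁻¹` and a scalar matrix.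
smul, smul': multiply with a scalar matrix. uniq: `g` is determined by `A`. eq: `φ (A i j) * u = φ (B i j)`, `u * φ y = φ x`, `y ≠ 0`, `x ≠ 0`; so `x • A = y • B`. ex: a common denominator of the four entries. pc: by definition. pce: `x.val * u = y.val` over `K`, so `u ^ 2 = 1`, `u = ± 1`; conversely `-1` is in the center. cen: `γ = 1` iff `g` is in the center iff `g` is a scalar matrix. -/
def J_rep : Prop := ∀ (a b : ℤ), b ^ 2 + 4 * a < 0 → ∀ (K : Type) [Field K]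
  (φ : Qf a b ℤ →+* K), FracQ φ → RepF φ

/-- [CG J un] the units of `ℤ[w]`.

Proof. `nq` is multiplicative, `0 ≤ nq` (`nq_nonneg`), so `nq u = 1` for a unit `u`. `4 nq u = (2 re + b im) ^ 2 - (b ^ 2 + 4 a) im ^ 2`, so `im ^ 2 ≤ 4`, `(2 re + b im) ^ 2 ≤ 4`: `re`, `im` are bounded. -/
def J_un : Prop := ∀ (a b : ℤ), b ^ 2 + 4 * a < 0 → Finite (Qf a b ℤ)ˣ

/-- [CG J nsq] units which are squares modulo a suitable `k` are squares. (Uses `J_un`; cite `p_Wsq`.)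

Proof. By `W_sq` (contraposition) for every unit `u` which is not the square of a unit there is `k_u ≥ 1` such that the image of `u` in `Qf a b (ZMod k_u)` is not the square of a unit. `k = ∏ k_u` over these (finitely many) units. If `k` divides `u - s ^ 2` and `u` is not a square then modulo `k_u` `u = s ^ 2`, and `s` is a unit modulo `k_u`: a contradiction. -/
def J_nsq : Prop := ∀ (a b : ℤ), b ^ 2 + 4 * a < 0 → Five a b → ∃ k : ℕ, k ≠ 0 ∧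
  ∀ u s : Qf a b ℤ, IsUnit u → (k : Qf a b ℤ) ∣ u - s ^ 2 → ∃ v, IsUnit v ∧ u = v ^ 2

/-- [CG J x0] matrices with a fixed determinant which are scalar modulo a large number. (Cite `p_Wprim`.)

Proof. `n = nq D₀ > 0`, `D₀ * cjq D₀ = n` (`BG.mul_cjq`); `k' = k * n ^ 2`. `X = c • X₀` with `X₀` primitive, `∑ c i j * X₀ i j = 1` (`W_prim`). `c ^ 2 * det X₀ = D₀`, so `c ∣ n`, `n = c * e`, and `det X₀ ∣ n`. `c * X₀ 0 1 = k n ^ 2 t` gives `X₀ 0 1 = k n e t`; in this way `ScQ (k * n) X₀`. Let `x = X₀ 0 0`: modulo `k n`: `det X₀ = x ^ 2` and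
`1 = (c 0 0 + c 1 1) * x`, so `det X₀ * (c 0 0 + c 1 1) ^ 2 = 1` modulo `k n`, and `det X₀ ∣ n ∣ k n`: `det X₀ ∣ 1`. -/
def J_x0 : Prop := ∀ (a b : ℤ), b ^ 2 + 4 * a < 0 → IsPrincipalIdealRing (Qf a b ℤ) →
  ∀ D₀ : Qf a b ℤ, D₀ ≠ 0 → ∀ k : ℕ, k ≠ 0 → ∃ k' : ℕ, k' ≠ 0 ∧ ∀ X : MQ a b, X.det = D₀ →
  ScQ k' X → ∃ (c : Qf a b ℤ) (X₀ : MQ a b), c ≠ 0 ∧ X = c • X₀ ∧ IsUnit X₀.det ∧ ScQ k X₀

/-- [CG J core] a normal subgroup of `Γ` between the images of `Γ(m₁)` and `Γ(m₀)`.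

Proof. `H = ((Gam a b m₀).map (pcQ φ)).subgroupOf Γ`, `N = H.normalCore`, `Q = Γ ⧸ N`, `π` the projection. `x ∈ N ≤ H` gives the first claim. Let `γ_i` be finitely many elements with `Γ = ∪ H γ_i` (`H` has finite index), `RepQ φ A_i γ_i`, `δ_i = det A_i ≠ 0`, `n_i = nq δ_i` (a positive integer divisible by `δ_i`, `BG.mul_cjq`), `m₁ = m₀ * ∏ n_i`. Let `y ∈ Gam a b m₁`, `y.val = 1 + m₁ • Y`
(`BG.E_ker`). `A_i * y * adj A_i = δ_i • (1 + m₀ • Z)`, `δ_i • Z = (m₁ / m₀) • (A_i * Y * adj A_i)` (`Z` exists because `δ_i` divides `m₁ / m₀`). `z = 1 + m₀ • Z` has determinant one (`δ_i ^ 2 * det z = δ_i ^ 2`, a domain by `BG.Qf_domain`), `z ∈ Gam a b m₀`; `RepQ φ (δ_i • z) (γ_i * pcQ y * γ_i⁻¹)`, so by smul' and uniq `γ_i * pcQ y * γ_i⁻¹ = pcQ z ∈ H`. So all conjugates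
of `pcQ y` by elements `h γ_i`, `h ∈ H`, are in `H`, that is `pcQ y ∈ N`. -/
def J_core : Prop := ∀ (a b : ℤ), b ^ 2 + 4 * a < 0 → ∀ (K : Type) [Field K]
  (φ : Qf a b ℤ →+* K), FracQ φ → RepF φ → ∀ (Γ : Subgroup (PGK K)) (m₀ : ℕ), m₀ ≠ 0 →
  (∀ x ∈ Gam a b m₀, pcQ φ x ∈ Γ) →
  (((Gam a b m₀).map (pcQ φ)).subgroupOf Γ).FiniteIndex →
  ∃ m₁ : ℕ, m₁ ≠ 0 ∧ m₀ ∣ m₁ ∧ ∃ (Q : Type) (_ : Group Q) (_ : Finite Q) (π : Γ →* Q),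
  (∀ x : Γ, π x = 1 → ∃ y ∈ Gam a b m₀, pcQ φ y = x.val) ∧
  ∀ x : Γ, (∃ y ∈ Gam a b m₁, pcQ φ y = x.val) → π x = 1

/-- [CG J h] if the determinants of the conjugators are units times squares then they can be chosen in `Γ(m₁)`.

Proof. Let `k ≥ 1`, `C`, `E`, `u`, `P` from `DetU`. Replace `C`, `E` by `P⁻¹ • C`, `P • E`: `det C = u`. `C * diag(u, 1)⁻¹` has determinant one, so it is `rdq k γ`, `γ ∈ GQ a b` (`p_Csrd`). So for every `k` there are `γ_k ∈ GQ a b`, `u_k ∈ (Qf a b ℤ)ˣ` such that `C = reduction of γ_k * diag(u_k, 1)` works. There are finitely many pairs (class of `γ_k` modulo `Gam a b m₁`, `u_k`), so there are `γ`, `u` such that for infinitely many `n` (pigeonhole)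
`u_(n!) = u`, `γ_(n!) = γ * h'`, `h' ∈ Gam a b m₁`. `T = γ * diag(u, 1)` (a matrix over `ℤ[w]` with the inverse `T' = diag(u⁻¹, 1) * γ⁻¹`), `ρ' l = T' * ρ l * T` (determinant one; a homomorphism to `GQ a b`, injective). For these `n`: `ρ l = γ h' diag(u,1) R l (..)⁻¹` modulo `n!`, `R l = (Ψ ..) l`, so `ρ' l = h * R l * h⁻¹` modulo `n!`, `h = diag(u,1)⁻¹ * h' * diag(u,1) ∈ Gam a b m₁`. For general `k` take such an
`n ≥ k` and reduce from `n!` to `k` (naturality of `Ψ`, compare `SW.ex_loc` in `MainW1.lean`). `ρ'.range`: for `k = m₀` `R l = 1` (`Ψ` of the trivial homomorphism is trivial, `range_eq`), so `ρ' l ∈ Gam a b m₀`; if `x ∈ Gam a b m₀` then `T * x * T' ∈ Gam a b m₀ ≤ ρ.range`. -/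
def J_h : Prop := ∀ (a b : ℤ), b ^ 2 + 4 * a < 0 → Finite (Qf a b ℤ)ˣ → ∀ (m₀ m₁ : ℕ) [NeZero m₀]
  [NeZero m₁] (Λ : Type) [Group Λ] (Ψ : NatBij (Gam a b m₀) Λ) (ρ : Λ →* GQ a b),
  DetU (Gam a b m₀).subtype Ψ ρ → Gam a b m₀ ≤ ρ.range → Function.Injective ρ →
  ∃ ρ' : Λ →* GQ a b, Function.Injective ρ' ∧ ρ'.range = Gam a b m₀ ∧
  ∀ (k : ℕ) [NeZero k], ∃ h ∈ Gam a b m₁, ∀ l, rdq a b k (ρ' l) = rdq a b k h *
    Ψ.toFun _ ((rdq a b k).comp (Gam a b m₀).subtype) l * (rdq a b k h)⁻¹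

/-- [CG J dat] the data `JD`. (Compare `P_Wsub.lean`.)

Proof. `H` the image of `Gam a b m₀` in `Γ`, `S = H.map π`, `L = S.comap (Φ.toFun Q π)`; `S.comap π = H` by (ker). `e : Gam a b m₀ ≃* S.comap π`, `x ↦ pcQ x` (injective by pce: `x = -y` with `x, y ∈ Gam a b m₀` is impossible because `2 ≠ 0` modulo `m₀`). `natBij_comap` gives `Ψ₀ : NatBij (S.comap π) L`, compatible with `Φ`; `Ψ = natBij_equiv e Ψ₀`. `L` has finite index in `Λ`, so it is finitely generated, and residually finite. `RhoH` gives `ρ`. memL: definition of `S`.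
apx: let `k` be given, `h` from `RhoH`, `ψ = ((rdq k).comp subtype).comp e.symm : S.comap π →* _`. As in `P_Wsub.lean` there are a finite group `R` and `θ : Γ →* R` such that `θ ν = θ ν'` implies `ψ ν = ψ ν'` (`R` is the quotient by the normal core of the image of `ψ.ker`). If `θ (pcQ x) = (Φ θ) y` then (`pair_val Ψ₀ ψ (θ.comp subtype) y`) there is `g` with `ψ g = (Ψ₀ ψ) y`, `θ g = (Φ θ) y = θ (pcQ x)`; so
`rdq k x = ψ (pcQ x) = (Ψ₀ ψ) y = (Ψ ..) y`, and `rdq k (ρ y) = rdq k h * rdq k x * (rdq k h)⁻¹`. -/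
def J_dat : Prop := ∀ (a b : ℤ), b ^ 2 + 4 * a < 0 → ∀ (K : Type) [Field K]
  (φ : Qf a b ℤ →+* K), FracQ φ → RepF φ → ∀ (Γ : Subgroup (PGK K)) (m₀ m₁ : ℕ), 5 ≤ m₀ →
  m₀ ∣ m₁ → m₁ ≠ 0 → RhoH a b m₀ m₁ → (∀ x ∈ Gam a b m₀, pcQ φ x ∈ Γ) →
  ∀ (Q : Type) [Group Q] [Finite Q] (π : Γ →* Q),
  (∀ x : Γ, π x = 1 → ∃ y ∈ Gam a b m₀, pcQ φ y = x.val) →
  (∀ x : Γ, (∃ y ∈ Gam a b m₁, pcQ φ y = x.val) → π x = 1) →
  ∀ (Λ : Type) [Group Λ] [Group.FG Λ], Group.ResiduallyFinite Λ → ∀ Φ : NatBij Γ Λ,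
  ∃ (L : Subgroup Λ) (ρ : L →* GQ a b), JD φ Γ m₀ m₁ Φ π L ρ

/-- [CG J cj] conjugate elements of `Γ(m₀)`.

Proof. `RepQ φ (z' * A) (pcQ z' * γ)`, `RepQ φ (A * z) (γ * pcQ z)`; by eq `s • (z' * A) = t • (A * z)`, `s, t ≠ 0`. Determinants: `s ^ 2 = t ^ 2`, `s = t` or `s = -t`. If `s = t` we are done. Otherwise `z' * A = -(A * z)`, multiply with `adj A` on the right and take the trace: `tr z' = - tr z`. But `tr z' = 2 = tr z` modulo `m₀`, so `m₀` divides `4`, a contradiction. -/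
def J_cj : Prop := ∀ (a b : ℤ), b ^ 2 + 4 * a < 0 → ∀ (K : Type) [Field K]
  (φ : Qf a b ℤ →+* K), RepF φ → ∀ m₀ : ℕ, 5 ≤ m₀ → ∀ (A : MQ a b) (γ : PGK K), RepQ φ A γ →
  ∀ z ∈ Gam a b m₀, ∀ z' ∈ Gam a b m₀, pcQ φ z' * γ = γ * pcQ φ z →
  z'.val * A = A * z.val

/-- [CG J pi] `Φ π` on `L`.

Proof. Let `k = m₁` in apx, `R`, `θ`, `h`. `pair_val Φ θ π l`: `γ : Γ` with `θ γ = (Φ θ) l`, `π γ = (Φ π) l`; by memL `(Φ π) l = π (pcQ y)`, so `π (γ * (pcQ y)⁻¹) = 1` and (ker) `γ = pcQ x`, `x ∈ Gam a b m₀`. So `rdq m₁ (ρ l) = rdq m₁ (h * x * h⁻¹) = rdq m₁ x` (`h ∈ Gam a b m₁`), `ρ l * x⁻¹ ∈ Gam a b m₁` and `π (pcQ (ρ l)) = π (pcQ x)` by ker'. -/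
def J_pi : Prop := ∀ (a b : ℤ) (K : Type) [Field K] (φ : Qf a b ℤ →+* K)
  (Γ : Subgroup (PGK K)) (m₀ m₁ : ℕ) (Λ : Type) [Group Λ] (Φ : NatBij Γ Λ) (Q : Type) [Group Q]
  [Finite Q] (π : Γ →* Q) (L : Subgroup Λ) (ρ : L →* GQ a b), JD φ Γ m₀ m₁ Φ π L ρ →
  ∀ (l : L) (h : pcQ φ (ρ l) ∈ Γ), Φ.toFun Q π l = π ⟨pcQ φ (ρ l), h⟩

/-- [CG J mul] multiplicativity.

Proof. Product: `A`, `A'` for `l`, `l'`; for `x, y` with `y = (l l') x (l l')⁻¹`, let `x' = l' x l'⁻¹`; `(Φ π) x' = 1`, so `x' ∈ L` (memL with `y = 1`), `ρ x' * A' = A' * ρ x`, `ρ y * A = A * ρ x'`; `A * A'` works. `l ∈ L`: `A = ρ l`. Inverse: `A.adjugate` (`RepF.inv`): from `ρ y * A = A * ρ x` multiply with `adj A` from both sides and cancel `det A ≠ 0`. -/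
def J_mul : Prop := ∀ (a b : ℤ) (K : Type) [Field K] (φ : Qf a b ℤ →+* K)
  (Γ : Subgroup (PGK K)) (m₀ m₁ : ℕ) (Λ : Type) [Group Λ] (Φ : NatBij Γ Λ) (Q : Type) [Group Q]
  [Finite Q] (π : Γ →* Q) (L : Subgroup Λ) (ρ : L →* GQ a b), JD φ Γ m₀ m₁ Φ π L ρ → RepF φ →
  (∀ l l' τ τ', IsTh φ Φ π ρ l τ → IsTh φ Φ π ρ l' τ' → IsTh φ Φ π ρ (l * l') (τ * τ')) ∧
  (∀ l : L, IsTh φ Φ π ρ l (pcQ φ (ρ l))) ∧ IsTh φ Φ π ρ 1 1 ∧
  ∀ l τ, IsTh φ Φ π ρ l τ → IsTh φ Φ π ρ l⁻¹ τ⁻¹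

/-- [CG J uq] uniqueness. (Uses `J_pi`.)

Proof. `A`, `A'` for `τ`, `τ'`; `B = adj A * A'`. Let `g ∈ Gam a b m₁`; `g = ρ x` (rng), `(Φ π) x = π (pcQ g) = 1` (`J_pi`, ker'); `y = l x l⁻¹ ∈ L` (memL). `ρ y * A = A * g`, so `adj A * ρ y = g * adj A` (multiply with `adj A` from both sides, cancel `det A`), and `B * g = adj A * ρ y * A' = g * B`. For `g = eU m₁`, `eV m₁` this gives `B 1 0 = 0`, `B 0 1 = 0`, `B 0 0 = B 1 1` (a domain, `m₁ ≠ 0`).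
`RepQ φ B (τ⁻¹ * τ')`, so `τ⁻¹ * τ' = 1` by cen. -/
def J_uq : Prop := ∀ (a b : ℤ) (K : Type) [Field K] (φ : Qf a b ℤ →+* K)
  (Γ : Subgroup (PGK K)) (m₀ m₁ : ℕ) (Λ : Type) [Group Λ] (Φ : NatBij Γ Λ) (Q : Type) [Group Q]
  [Finite Q] (π : Γ →* Q) (L : Subgroup Λ) (ρ : L →* GQ a b), JD φ Γ m₀ m₁ Φ π L ρ → RepF φ →
  ∀ l τ τ', IsTh φ Φ π ρ l τ → IsTh φ Φ π ρ l τ' → τ = τ'

/-- [CG J act] existence. (Uses `J_cj`, `J_pi`; cite `p_Wsk`.)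

Proof. `L₁ = (Φ.toFun Q π).ker`, a normal subgroup of `Λ`, contained in `L` (memL with `y = 1`). `ρ₁ x = ρ x`, `ρ₂ x = ρ (l x l⁻¹)`: homomorphisms `L₁ →* GQ a b`. `ρ₁.range` contains `Gam a b m₁` (rng, `J_pi`, ker'). Equality of the traces: let `k ≥ 1`, `R`, `θ`, `h` from apx; `γ` with `θ γ = (Φ θ) l`, `π γ = (Φ π) l` (`pair_val`), `ν` with `θ ν = (Φ θ) x`, `π ν = (Φ π) x = 1`. By (ker) `ν = pcQ z`, `γ ν γ⁻¹ = pcQ z'`, `z, z' ∈ Gam a b m₀`.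
apx for `x` and for `y = l x l⁻¹` (`θ (pcQ z') = (Φ θ) (l x l⁻¹)`): `rdq k (ρ x) = rdq k (h z h⁻¹)`, `rdq k (ρ y) = rdq k (h z' h⁻¹)`. `RepQ φ A γ` for some `A`, `J_cj` gives `z' A = A z`, so `tr z' = tr z` (cancel `det A`). So `tr (ρ x)` and `tr (ρ y)` are equal modulo all `k`, so they are equal (`eq_of_all` in `MainW1.lean`). `W_sk` gives `A` with `det A ≠ 0`, `ρ₂ x * A = A * ρ₁ x`, and `RepF.of` gives `τ`. -/
def J_act : Prop := ∀ (a b : ℤ) (K : Type) [Field K] (φ : Qf a b ℤ →+* K)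
  (Γ : Subgroup (PGK K)) (m₀ m₁ : ℕ) (Λ : Type) [Group Λ] (Φ : NatBij Γ Λ) (Q : Type) [Group Q]
  [Finite Q] (π : Γ →* Q) (L : Subgroup Λ) (ρ : L →* GQ a b), JD φ Γ m₀ m₁ Φ π L ρ → RepF φ →
  ∀ l, ∃ τ, IsTh φ Φ π ρ l τ

/-- [CG J cmp] COMPARISON. (Uses `J_x0`, `J_cj`, `J_pi`.)

Proof. For `q ∈ Q` in the range of `π` let `γ_q ∈ Γ` with `π γ_q = q` and `RepQ φ A_q γ_q`; let `A` be the matrix for `l`, `τ`; `D_q = det A_q * det A ≠ 0`, `k_q` from `J_x0` for `D_q` and `k`, `k' = ∏ k_q`, `k'' = m₁ * k'`. Let `R''`, `θ''`, `h` be from apx for `k''`. Let `γ ∈ Γ` with `θ γ = (Φ θ) l`, `θ'' γ = (Φ θ'') l`, `π γ = (Φ π) l` (`pair_val` for `(θ, θ'')` and `π`). `q = π γ`, `γ = γ_q * pcQ n`, `n ∈ Gam a b m₀` (ker), so `A_q * n` represents `γ`,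
and `G = h * A_q * n * h⁻¹` represents `γ' = pcQ h * γ * (pcQ h)⁻¹`, `det G = det A_q`. Let `x : L` with `(Φ π) x = 1`, `y = l x l⁻¹ : L`; `ν ∈ Γ` with `θ'' ν = (Φ θ'') x`, `π ν = 1`, `ν = pcQ z`, `γ ν γ⁻¹ = pcQ z'`; as in `J_act`: `rdq k'' (ρ x) = rdq k'' (h z h⁻¹)`, `rdq k'' (ρ y) = rdq k'' (h z' h⁻¹)`, and `z' (A_q n) = (A_q n) z` (`J_cj`), so `Z' G = G Z` for `Z = h z h⁻¹`, `Z' = h z' h⁻¹`, and
`adj G * Z' = Z * adj G`. Let `B = adj G * A`. From `ρ y * A = A * ρ x`: modulo `k''` `B Z = adj G A ρ x = adj G ρ y A = adj G Z' A = Z B`, so `B * ρ x = ρ x * B` modulo `k''`. Every `g ∈ Gam a b m₁` is `ρ x` with `(Φ π) x = 1` (rng, `J_pi`, ker'). For `g = eU m₁`, `eV m₁`: `m₁ k'` divides `m₁ * B 1 0`, `m₁ * B 0 1`, `m₁ * (B 0 0 - B 1 1)`, so `ScQ k' B`, so `ScQ k_q B`. `det B = D_q`. `J_x0`: `B = c • X₀`.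
`RepQ φ B (γ'⁻¹ * τ)`, so `RepQ φ X₀ (γ'⁻¹ * τ)` (smul'): `δ = γ'⁻¹ * τ`. -/
def J_cmp : Prop := ∀ (a b : ℤ) (K : Type) [Field K] (φ : Qf a b ℤ →+* K)
  (Γ : Subgroup (PGK K)) (m₀ m₁ : ℕ) (Λ : Type) [Group Λ] (Φ : NatBij Γ Λ) (Q : Type) [Group Q]
  [Finite Q] (π : Γ →* Q) (L : Subgroup Λ) (ρ : L →* GQ a b), JD φ Γ m₀ m₁ Φ π L ρ → RepF φ →
  IsPrincipalIdealRing (Qf a b ℤ) → ∀ l τ, IsTh φ Φ π ρ l τ →
  ∀ (k : ℕ) [NeZero k] (R : Type) [Group R] [Finite R] (θ : Γ →* R), ∃ γ : Γ,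
  θ γ = Φ.toFun R θ l ∧ ∃ h ∈ Gam a b m₁, ∃ δ, DelQ φ k δ ∧
  τ = pcQ φ h * γ * (pcQ φ h)⁻¹ * δ

/-- [CG J sc] matrices in `SL₂` which are scalar modulo `k`.

Proof. (1) `det X = u`, `k ∣ u - (X 0 0) ^ 2` (`ScQ`), so `u = v ^ 2` by the hypothesis, `z = v⁻¹ • X` has determinant one; smul'. (2) `(z * z).val = 1` modulo `k`: off the diagonal clear, `(z 0 0) ^ 2 = det z = 1` modulo `k`, and `z 1 1 = z 0 0`. More generally for `g⁻¹ * z * g * z`. -/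
def J_sc : Prop := ∀ (a b : ℤ), b ^ 2 + 4 * a < 0 → ∀ (K : Type) [Field K]
  (φ : Qf a b ℤ →+* K), RepF φ → ∀ k₀ : ℕ,
  (∀ u s : Qf a b ℤ, IsUnit u → (k₀ : Qf a b ℤ) ∣ u - s ^ 2 → ∃ v, IsUnit v ∧ u = v ^ 2) →
  ∀ k : ℕ, k₀ ∣ k → (∀ δ, DelQ φ k δ → ∃ z : GQ a b, ScQ k z.val ∧ pcQ φ z = δ) ∧
  ∀ z : GQ a b, ScQ k z.val → (k : Qf a b ℤ) ∣ z.val 0 0 ^ 2 - 1 ∧
  ∀ g : GQ a b, ScQ k (g * z * g⁻¹).val ∧ g⁻¹ * z * g * z ∈ Gam a b k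

/-- [CG J ker] injectivity. (Uses `J_cmp`, `J_uq`, `J_mul`, `J_sc`; cite `p_Wtor`.)

Proof. Let `HasG` be given by `α`, `G₀`, `η`, `M₁'`, `k₀` from the hypothesis, `k = m₀ * M₁' * k₀`. `𝒟 = {x : Γ | ∃ z : GQ a b, ScQ k z.val ∧ pcQ z = x}`, a subgroup of `Γ` (products and inverses of matrices which are scalar modulo `k`). It contains the image of `Gam a b (m₀ * k)`, so it has finite index in `Γ` (the image of `Gam a b m₀` has finite index because it contains `π.ker`). (1) If `ScQ k z.val` then `rdq M₁' z = ε • 1`, `ε * ε = 1`, so `z ∈ G₀`. `f : 𝒟 →* GR α`, `pcQ z ↦ η z`: well defined because `pcQ z = pcQ z'` iff `z' = ± z`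
and `η (-1) = 1` (`EtaQ.ker`), injective by `EtaQ.ker`, and the range has finite index (`EtaQ.fin`, `con_map_index`; compare `P_Wker.lean`). (2) `N₂ = 𝒟.normalCore`, `π₂` the projection to `Γ ⧸ N₂`. `J_cmp` for `l`, `τ = 1`, `k` and `θ = (π₂, π)`: `γ = (pcQ h)⁻¹ * δ⁻¹ * pcQ h`, which is in `𝒟` (`J_sc`: `δ = pcQ z`, and `h⁻¹ * z⁻¹ * h` is scalar modulo `k`), `π₂ γ = (Φ π₂) l`, `π γ = (Φ π) l`. So `l ∈ Λ₂ = (𝒟.map π₂).comap (Φ π₂)`, `natBij_sub` gives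
`NatBij 𝒟 Λ₂`, and `natBij_equiv` `NatBij f.range Λ₂`. (3) `γ = pcQ z'`, `ScQ k z'`, `z' * z' ∈ Gam a b k ≤ Gam a b m₀` (`J_sc` for `g = 1`), so `(Φ π) (l * l) = π (pcQ (z' * z'))` and `l * l ∈ L` (memL). `IsTh (l * l) 1` (`J_mul`) and `IsTh (l * l) (pcQ (ρ (l * l)))`, so `pcQ (ρ (l * l)) = 1` (`J_uq`), `ρ (l * l) = ± 1`, it is in `Gam a b m₀`, so it is `1` (`5 ≤ m₀`) and `l * l = 1` (inj). (4) `W_tor`: `l = 1`. -/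
def J_ker : Prop := ∀ (a b : ℤ) (K : Type) [Field K] (φ : Qf a b ℤ →+* K)
  (Γ : Subgroup (PGK K)) (m₀ m₁ : ℕ) (Λ : Type) [Group Λ] (Φ : NatBij Γ Λ) (Q : Type) [Group Q]
  [Finite Q] (π : Γ →* Q) (L : Subgroup Λ) (ρ : L →* GQ a b), JD φ Γ m₀ m₁ Φ π L ρ → RepF φ →
  IsPrincipalIdealRing (Qf a b ℤ) → HasG a b → Group.ResiduallyFinite Λ → ∀ k₀ : ℕ, k₀ ≠ 0 →
  (∀ u s : Qf a b ℤ, IsUnit u → (k₀ : Qf a b ℤ) ∣ u - s ^ 2 → ∃ v, IsUnit v ∧ u = v ^ 2) →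
  ∀ l, IsTh φ Φ π ρ l 1 → l = 1

/-- [CG J nz] an element with nonzero trace.

Proof. Suppose `tr (W * g) = 0` for all `g ∈ Gam a b m`: `g = 1`: `W 0 0 + W 1 1 = 0`; `g = eU m`: `m * W 1 0 = 0`; `g = eV m`: `m * W 0 1 = 0`; `g = eU m * eV m` (`= [[1 + m ^ 2, m], [m, 1]]`): `m ^ 2 * W 0 0 = 0`. So `W = 0`. -/
def J_nz : Prop := ∀ (a b : ℤ), b ^ 2 + 4 * a < 0 → ∀ m : ℕ, m ≠ 0 → ∀ W : MQ a b, W ≠ 0 →
  ∃ g ∈ Gam a b m, (W * g.val).trace ≠ 0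

/-- [CG J par] matrices with trace two are conjugate to unipotent triangular matrices.

Proof. `(x - 1) ^ 2 = 0` (Cayley-Hamilton). If `x = 1` take `s = 0`. Otherwise a column `v ≠ 0` of `x - 1` satisfies `x v = v`; `v = c • v₀`, `v₀ = (p, r)` with `p, r` coprime (a principal ideal domain), `x v₀ = v₀`; `g ∈ SL₂` with the first column `v₀`; `g⁻¹ * x * g` has the first column `(1, 0)` and determinant one, so it is `eU s`. -/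
def J_par : Prop := ∀ (a b : ℤ), b ^ 2 + 4 * a < 0 → IsPrincipalIdealRing (Qf a b ℤ) →
  ∀ x : GQ a b, tr x = 2 → ∃ (g : GQ a b) (s : Qf a b ℤ), x = g * eU s * g⁻¹

/-- [CG J gdt] the subgroup of the elements of `Γ` which are conjugate by `y` to elements of `Γ(M')`. (Uses `J_core`.)

Proof. `δ = det y`, `n = nq δ` (`BG.mul_cjq`), `m₃ = m₀ * M' * n`. If `x' = 1 + m₃ Y ∈ Gam a b m₃` then `y * x' * adj y = δ • (1 + m₀ M' • Z)`, so there is `x ∈ Gam a b (m₀ M')` with `x * y = y * x'`; in the same way for `x ∈ Gam a b m₃` there is `x' ∈ Gam a b (m₀ M')` with `x * y = y * x'`. `E = {x' ∈ Gam a b M' | ∃ x : GQ a b, x * y = y * x' ∧ pcQ x ∈ Γ}`, a subgroup, which contains `Gam a b m₃`, so it has finite index; `σ x' = x` (unique, cancel `y`). `x' ↦ pcQ (σ x')` is injective: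
`pcQ (σ x') = 1` gives `σ x' = ± 1`, `x' = ± 1`, and `-1 ∉ Gam a b M'` (`con_neg`). Let `E₁ ≤ Γ` be its range; it contains the image of `Gam a b m₃`. `J_core` for `m₃` (the image of `Gam a b m₃` has finite index in `Γ`): `m₂`, `Q'`, `π'`, and `π'.ker` is contained in the image of `Gam a b m₃`, so in `E₁`; `S = E₁.map π'`, `S.comap π' = E₁`. -/
def J_gdt : Prop := ∀ (a b : ℤ), b ^ 2 + 4 * a < 0 → ∀ (K : Type) [Field K]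
  (φ : Qf a b ℤ →+* K), FracQ φ → RepF φ → ∀ (Γ : Subgroup (PGK K)) (m₀ : ℕ), m₀ ≠ 0 →
  (∀ x ∈ Gam a b m₀, pcQ φ x ∈ Γ) →
  (((Gam a b m₀).map (pcQ φ)).subgroupOf Γ).FiniteIndex → ∀ M' : ℕ, 3 ≤ M' →
  ∀ y : MQ a b, y.det ≠ 0 → ∃ m₂ : ℕ, m₂ ≠ 0 ∧ ∃ (Q' : Type) (_ : Group Q') (_ : Finite Q')
  (π' : Γ →* Q') (S : Subgroup Q') (E : Subgroup (GQ a b)) (σ : E →* GQ a b)
  (e : E ≃* S.comap π'), E.FiniteIndex ∧ E ≤ Gam a b M' ∧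
  (∀ x : E, (σ x).val * y = y * x.val.val) ∧ (∀ x : E, pcQ φ (σ x) = (e x).val.val) ∧
  (∀ x ∈ Gam a b m₂, ∀ h, π' ⟨pcQ φ x, h⟩ = 1) ∧
  ∀ x x' : GQ a b, x' ∈ Gam a b M' → x.val * y = y * x'.val → ∀ h : pcQ φ x ∈ Γ,
  (⟨pcQ φ x, h⟩ : Γ) ∈ S.comap π'

/-- [CG J gtr] no sign for the elements which are conjugate to elements of `Γ(M')`. (Uses `J_gdt`, `J_cmp`, `J_act`, `J_uq`, `J_mul`, `J_sc`, `J_nz`, `J_pi`.)

Proof. Let `m₂, Q', π', S, E, σ, e` be from `J_gdt` (`y` from `CjG`). `Λ' = S.comap (Φ π')`, `Ψ₀ : NatBij (S.comap π') Λ'` (`natBij_comap`), `Ψ = natBij_equiv e Ψ₀ : NatBij E Λ'`; `Λ'` is finitely generated. `Uni` gives `T : Λ' → ℤ[w]`, the reductions of `T` are the traces of `Ψ` of the reductions of `σ`. (1) For every `k` there are a finite group `R` and `θ : Γ →* R` such that for `l' : Λ'`, `x : E`, `θ (e x) = (Φ θ) l'`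 implies that `T l'` is `tr (σ x)` modulo `k` (as in `J_dat`, `P_Wsub.lean`). (2) Let `l' : Λ'`, `IsTh l' τ'`, `k` a multiple of `k₀`,
`θ` as in (1). `J_cmp` for `(θ, π', π)`: `γ ∈ Γ`, `h`, `δ`; `π' γ = (Φ π') l' ∈ S`, so `γ = e x = pcQ (σ x)`; `δ = pcQ z` (`J_sc`); `τ' = pcQ W`, `W = h * σ x * h⁻¹ * z`, `tr W = z₀₀ * tr (σ x) = z₀₀ * T l'` modulo `k`, `z₀₀ ^ 2 = 1` modulo `k`. So there is `W' ∈ GQ a b` with `τ' = pcQ W'` (fixed, `W = ± W'`) and `(tr W') ^ 2 = (T l') ^ 2` modulo all multiples `k` of `k₀`, so `tr W' = ± T l'`. (3) There is `l' : Λ'` with `(Φ π') l' = π' (pcQ x)`, `(Φ π) l' = π (pcQ x)`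
(`pair_val` for `Φ.symm`, or surjectivity of `Φ (π', π)` on its range, `range_eq`). Multiply it by an element of `Λ'` to obtain `T l' ≠ 0`: let `W'` be as in (2) for `l'`, `m₂' = m₁ * m₂`, `g ∈ Gam a b m₂'` with `tr (W' * g) ≠ 0` (`J_nz`), `g = ρ y'`; `(Φ π) y' = 1` (`J_pi`, ker') and `(Φ π') y' = 1` (apx for `k = m₂'`, as in the proof of `J_pi`); `IsTh (l' * y') (pcQ (W' * g))`, and the matrix of (2) for `l' * y'` is `± W' * g`, so `T (l' * y') ≠ 0`.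
(4) Let `T l' ≠ 0`, `n = nq (T l')`, `k = k₀ * k₁ * n` in (2): `tr W = ε * T l'`, `ε = ± 1` and `k ∣ (z₀₀ - ε) * T l'`, so `k₁ ∣ z₀₀ - ε` (multiply with `cjq (T l')`), so `ε • z ∈ Gam a b k₁` (`ScQ k z`), `pcQ z = pcQ (ε • z)`; `τ' = pcQ (h * σ x * h⁻¹) * pcQ (ε • z)`, and `π (pcQ (h * σ x * h⁻¹)) = π γ = (Φ π) l' = π (pcQ x)` because `π (pcQ h) = 1` (ker'). -/
def J_gtr : Prop := ∀ (a b : ℤ) (K : Type) [Field K] (φ : Qf a b ℤ →+* K)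
  (Γ : Subgroup (PGK K)) (m₀ m₁ : ℕ) (Λ : Type) [Group Λ] [Group.FG Λ] (Φ : NatBij Γ Λ)
  (Q : Type) [Group Q] [Finite Q] (π : Γ →* Q) (L : Subgroup Λ) (ρ : L →* GQ a b),
  JD φ Γ m₀ m₁ Φ π L ρ → RepF φ → IsPrincipalIdealRing (Qf a b ℤ) →
  (((Gam a b m₀).map (pcQ φ)).subgroupOf Γ).FiniteIndex → ∀ k₀ : ℕ, k₀ ≠ 0 →
  (∀ u s : Qf a b ℤ, IsUnit u → (k₀ : Qf a b ℤ) ∣ u - s ^ 2 → ∃ v, IsUnit v ∧ u = v ^ 2) →
  ∀ M' : ℕ, 3 ≤ M' → Uni a b M' → ∀ (x : GQ a b) (y : MQ a b) (hx : pcQ φ x ∈ Γ),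
  CjG M' x y → ∀ k₁ : ℕ, k₁ ≠ 0 → ∃ l τ, Φ.toFun Q π l = π ⟨pcQ φ x, hx⟩ ∧
  IsTh φ Φ π ρ l τ ∧ ∃ g : GQ a b, ∃ hg : pcQ φ g ∈ Γ,
  π ⟨pcQ φ g, hg⟩ = π ⟨pcQ φ x, hx⟩ ∧ ∃ z ∈ Gam a b k₁, τ = pcQ φ g * pcQ φ z

/-- [CG J sqr] no sign for the squares. (Uses `J_cmp`, `J_act`, `J_mul`, `J_sc`.)

Proof. `IsTh l τ` (`J_act`), `k = k₀ * k₁`, `J_cmp` for `θ = π`: `γ`, `h`, `δ`; `γ = pcQ g₀` (hypothesis), `δ = pcQ z` (`J_sc`), `g = h * g₀ * h⁻¹`, `pcQ g = pcQ h * γ * (pcQ h)⁻¹ ∈ Γ`, `π (pcQ g) = π γ = (Φ π) l` (`π (pcQ h) = 1` by ker'). `τ * τ = pcQ (g * z * g * z) = pcQ (g * g) * pcQ (g⁻¹ * z * g * z)`, and `g⁻¹ * z * g * z ∈ Gam a b k` (`J_sc`). `IsTh (l * l) (τ * τ)` (`J_mul`). -/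
def J_sqr : Prop := ∀ (a b : ℤ) (K : Type) [Field K] (φ : Qf a b ℤ →+* K)
  (Γ : Subgroup (PGK K)) (m₀ m₁ : ℕ) (Λ : Type) [Group Λ] (Φ : NatBij Γ Λ) (Q : Type) [Group Q]
  [Finite Q] (π : Γ →* Q) (L : Subgroup Λ) (ρ : L →* GQ a b), JD φ Γ m₀ m₁ Φ π L ρ → RepF φ →
  IsPrincipalIdealRing (Qf a b ℤ) → ∀ k₀ : ℕ, k₀ ≠ 0 →
  (∀ u s : Qf a b ℤ, IsUnit u → (k₀ : Qf a b ℤ) ∣ u - s ^ 2 → ∃ v, IsUnit v ∧ u = v ^ 2) →
  (∀ x : Γ, ∃ g : GQ a b, pcQ φ g = x.val) → ∀ (l : Λ) (k₁ : ℕ), k₁ ≠ 0 →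
  ∃ τ, IsTh φ Φ π ρ (l * l) τ ∧ ∃ g : GQ a b, ∃ hg : pcQ φ g ∈ Γ,
  Φ.toFun Q π (l * l) = π ⟨pcQ φ g, hg⟩ ∧ ∃ z ∈ Gam a b k₁, τ = pcQ φ g * pcQ φ z

end

end Pool.Agent.F8.CG
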