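import Pool.Agent.Lib.MP_305fdd_al.F8.CG.MainW3

/-!
# MP_305fdd_al, congruence subgroups: block K, the determinant of the conjugator

Last step of the Z-step (helper62, `MP_305fdd_Z_h62.md`, step (Z)): if `Ψ : NatBij (Γ(M₁)) (Γ(M₁))` is locally a conjugation (`RhoG`), then the determinant of the conjugating matrix modulo `k` is a unit of `ℤ[w]` times a square, for every `k`
(`K_det`). The input is `FPh`: unipotent elements correspond to unipotent elements in all finite quotients, and `RgC`: the homomorphisms to `ℤ` correspond to homomorphisms to `ℤ`.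
-/

set_option autoImplicit false

namespace Pool.Agent.F8.CG

open Pool.Agent.F8.BG Pool.Agent.MP_305fdd_al Pool.Agent.Lib.MP_305fdd_al Pool.Agent.F8
open scoped QuadraticAlgebra

noncomputable section

/-- Regularity of `α`: the degree corresponds to a homomorphism to `ℤ` (`A_rm2`, `A_rm3`). -/
def RgC {ι : Type} (α : MulAut (FreeGroup ι)) : Prop :=
  ∀ D : Subgroup (GR α), D.FiniteIndex → ∀ (Λ : Type) [Group Λ] [Group.FG Λ] (Φ : NatBij D Λ),
  ∃ n' : Λ →* Multiplicative ℤ, ∀ (m : ℕ) [NeZero m],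
    Φ.toFun _ ((redZ m).comp (nD D)) = (redZ m).comp n'

/-- the conjugation `x ↦ g⁻¹ x g` of `Γ(m)` -/
def cjM {a b : ℤ} (m : ℕ) (g : GQ a b) : Gam a b m →* Gam a b m where
  toFun x := ⟨g⁻¹ * x.val * g, by
    have h := (MonoidHom.normal_ker (rdq a b m)).conj_mem x.val x.2 g⁻¹
    rw [inv_inv] at h
    exact h⟩
  map_one' := Subtype.ext (by
    show g⁻¹ * 1 * g = 1
    group)
  map_mul' x y := Subtype.ext (by
    show g⁻¹ * (x.val * y.val) * g = (g⁻¹ * x.val * g) * (g⁻¹ * y.val * g)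
    group)

/-- The unipotent elements correspond (result of the blocks VT, UB, LB, CC, FP). -/
def FPh (a b : ℤ) (M₁ : ℕ) : Prop :=
  ∀ Ψ : NatBij (Gam a b M₁) (Gam a b M₁), RhoG (Gam a b M₁).subtype Ψ (Gam a b M₁).subtype →
  ∀ (Q : Type) [Group Q] [Finite Q] (θ : Gam a b M₁ →* Q) (u : Gam a b M₁),
  (∃ x, u.val = eU x) → ∃ p : Gam a b M₁, (∃ g x, p.val = g * eU x * g⁻¹) ∧
    θ p = Ψ.toFun Q θ u

/-- [CG K nu] two homomorphisms to `ℤ` which are independent on the unipotent elements.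

Proof. `η` is injective on `Gam a b M₀` (`EtaQ.ker`; `-1` is not in it, `con_neg`; `Gam a b M₀ ≤ G₀` by `EtaQ.lev`, `con_red`). `T = diag(w, 1)`, `w = wq a b ℤ`, `w * cjq w = -a`. For `x = [[p, q], [r, s]] ∈ Gam a b M₁` let `τ x = [[p, q'], [r * w, s]]`, `q = w * q'` (`q ∈ M₁ ℤ[w]`, and `M₁` is divisible by `M₀ * (-a)`, so
`q'` exists, is unique (a domain, `w ≠ 0`) and is divisible by `M₀`): `τ : Gam a b M₁ →* Gam a b M₀`, injective, `x * T = T * τ x`. `ν₁ x = nR α (η x)`, `ν₂ x = nR α (η (τ x))`.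
First claim: let `λ z = nR α (η (eU (M₀ z)))`, additive in `z`. (1) `λ ≠ 0`: otherwise `η (eU M₀)`, `η (eU (M₀ w))` are two commuting elements of the free group `ker (nR α)` = range of `iR α`; two commuting elements `X, Y` of a free group satisfy `X ^ i * Y ^ j = 1` for some `(i, j) ≠ (0, 0)` (they are powers of a common element; the subgroup generated by them is free (`subgroupIsFreeOfIsFree`) and commutative, so it is cyclic or trivial; there may be a lemma in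
`Lib/MP_305fdd_al`), and then `eU (M₀ i + M₀ w j) = 1`, a contradiction. (2) If `λ z = 0`, `λ (w z) = 0` then `z = 0`: otherwise every element `x` satisfies `k x = i z + j w z` with integers, `k ≠ 0` (`k = nq z`, `x * cjq z * z = k x`, and `x * cjq z = i + j w`), so `λ x = 0` for all `x`. (3) `ν₁ (eU (M₁ x)) = λ (c x)` with `M₁ = M₀ c`, `ν₂ (eU (M₁ x)) = λ z`, `w z = c x`; if both are zero then `z = 0`, so `x = 0`.
Second claim, for `g = 1`: `f = η ∘ inclusion` (for `ν₁`), `f = η ∘ τ` (for `ν₂`) is an injective homomorphism `Gam a b M₁ →* GR α`, whose range has finite index (`EtaQ.fin`; the range of `τ` contains `Gam a b (M₁ * ..)`: `y = [[p, q], [r, s]]` with `r` divisible by `w`, `M₁` is in the range if `[[p, w q], [r / w, s]] ∈ Gam a b M₁`; compare `uni_of` in `MainY.lean`, `P_Xdy.lean`); `RgC α` for `f.range`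
and `natBij_equiv (MonoidHom.ofInjective hf).symm Ψ` (as in `uni_of`), and `nD f.range (f x) = ν x`. For general `g` use `natBij_equiv` for the automorphism `cjM M₁ g` of `Gam a b M₁` (with the inverse `cjM M₁ g⁻¹`). -/
def K_nu : Prop := ∀ (a b : ℤ) (ι : Type) [Finite ι] (α : MulAut (FreeGroup ι)) (N : ℕ)
  (w : ι → List ι) (M : ℕ) (c g : FreeGroup ι) (G₀ : Subgroup (GQ a b)) (η : G₀ →* GR α),
  BG.Dat α N w M c g G₀ η → RgC α → ∀ M₀ M₁ : ℕ, 3 ≤ M₀ → M ∣ M₀ → M₁ ≠ 0 →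
  M₀ * a.natAbs ∣ M₁ → ∃ ν : Fin 2 → (Gam a b M₁ →* Multiplicative ℤ),
  (∀ (x : Qf a b ℤ) (h : eU ((M₁ : Qf a b ℤ) * x) ∈ Gam a b M₁),
    (∀ j, ν j ⟨eU ((M₁ : Qf a b ℤ) * x), h⟩ = 1) → x = 0) ∧
  ∀ (j : Fin 2) (g : GQ a b) (G₂ : Type) [Group G₂] [Group.FG G₂] (Ψ : NatBij (Gam a b M₁) G₂),
  ∃ ν' : G₂ →* Multiplicative ℤ, ∀ (m : ℕ) [NeZero m],
    Ψ.toFun _ ((redZ m).comp ((ν j).comp (cjM M₁ g))) = (redZ m).comp ν'

/-- [CG K img] two independent linear forms.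

Proof. `l j x = p_j x.re + q_j x.im` (`x = x.re • 1 + x.im • w`), `Δ = p_0 q_1 - p_1 q_0 ≠ 0` (otherwise some `x ≠ 0` is in both kernels: `x = (q_0, -p_0)` or `(q_1, -p_1)`, or any `x`), `I = |Δ|`. If `l j t - A j = I e_j` for both `j`, then `t∞ = t - δ`, `δ` the solution of `l j δ = I e_j`, which is integral by Cramer's rule (`Δ = ± I`). If `l j t' - A j = I m e'_j` then `l j (t' - t∞) = I m e'_j` and `t' - t∞ = m δ'`. -/
def K_img : Prop := ∀ (a b : ℤ) (l : Fin 2 → (Qf a b ℤ →+ ℤ)), (∀ x, (∀ j, l j x = 0) → x = 0) →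
  ∃ I : ℕ, I ≠ 0 ∧ ∀ (A : Fin 2 → ℤ) (t : Qf a b ℤ), (∀ j, (I : ℤ) ∣ l j t - A j) →
  ∃ t₁ : Qf a b ℤ, (∀ j, l j t₁ = A j) ∧ ∀ (m : ℕ) (t' : Qf a b ℤ),
    (∀ j, ((I * m : ℕ) : ℤ) ∣ l j t' - A j) → (m : Qf a b ℤ) ∣ t' - t₁

/-- [CG K alg] conjugate unipotent matrices.

Proof. `m = M₁ * K`, `B = C * (rdq m g).val`, `B' = (rdq m g⁻¹).val * E` its inverse. From the hypothesis `eU M₁ * B = B * eU (M₁ t)` modulo `m` (the reductions; `C * (g u g⁻¹) * E * C * g = C * g * u`). `B = [[P, Q], [R, S]]`: the entries give `M₁ R = 0` and `M₁ (S - P t) = 0` modulo `M₁ K`, so `R = 0`, `S = P t` modulo `K` (compare `P_Wloc.lean`: an element `z` of `Qf a b (ZMod (M₁ * K))` with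
`M₁ z = 0` is zero in `Qf a b (ZMod K)`). `det B = det C * 1`, so modulo `K` `det C = P S = P ^ 2 t`; `det C` is a unit (`C * E = 1`), so `P` and `t` are units modulo `K`. -/
def K_alg : Prop := ∀ (a b : ℤ) (M₁ K : ℕ) [NeZero M₁] [NeZero K]
  (C E : Matrix (Fin 2) (Fin 2) (Qf a b (ZMod (M₁ * K)))), C * E = 1 → E * C = 1 →
  ∀ (g : GQ a b) (t : Qf a b ℤ), (rdq a b (M₁ * K) (eU (M₁ : Qf a b ℤ))).val =
    C * (rdq a b (M₁ * K) (g * eU ((M₁ : Qf a b ℤ) * t) * g⁻¹)).val * E →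
  IsUnit (Qfm a b (Int.castRingHom (ZMod K)) t) ∧ ∃ P : Qf a b (ZMod K), IsUnit P ∧
    Qfm a b (ZMod.castHom (Dvd.intro_left M₁ rfl : K ∣ M₁ * K) (ZMod K)) C.det =
      P ^ 2 * Qfm a b (Int.castRingHom (ZMod K)) t

/-- The determinant of the conjugator is a unit times a square, modulo `k`. -/
def DetU {a b : ℤ} {G Λ : Type} [Group G] [Group Λ] (ρ₀ : G →* GQ a b) (Φ : NatBij G Λ)
    (ρ : Λ →* GQ a b) : Prop :=
  ∀ (k : ℕ) [NeZero k], ∃ C E : Matrix (Fin 2) (Fin 2) (Qf a b (ZMod k)), C * E = 1 ∧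
    E * C = 1 ∧ (∀ l, (rdq a b k (ρ l)).val =
      C * (Φ.toFun _ ((rdq a b k).comp ρ₀) l).val * E) ∧
    ∃ (u : (Qf a b ℤ)ˣ) (P : Qf a b (ZMod k)), IsUnit P ∧
      C.det = Qfm a b (Int.castRingHom (ZMod k)) u * P ^ 2

/-- [CG K det] MAIN RESULT of block K. (Uses `K_nu`, `K_img`, `K_alg`.)

Proof. Let `S` be a finite set of representatives of the classes `g (Gam a b M₁)` in `GQ a b` (`Gam a b M₁` has finite index). `ν` from `K_nu`, `ν' j g` for `j`, `g ∈ S`, `Ψ` (`Gam a b M₁` is finitely generated: finite index in `GQ a b`, which is finitely generated by `X_fg`, `p_Xfg`). `u = ⟨eU M₁, _⟩ ∈ Gam a b M₁`, `A g j = ν' j g u` (as integers). `l j x = ν j (eU (M₁ x))`, additive, `K_img` gives `I`. For `g ∈ S` such that there is `t` with `I ∣ l j t - A g j` let `t_g` be the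
element `t₁` from `K_img` for `A g`. `n_g = nq t_g` if `t_g ≠ 0` (a positive integer divisible by `t_g`), `n_g = 1` otherwise. Let `k` be given, `K = 2 * k * ∏ n_g` (over `g ∈ S`), `m = M₁ * (I * K)`. Apply `FPh` to `θ = (rdq m, (redZ (I * K) ∘ ν j ∘ cjM M₁ g)_(j, g ∈ S))` (a finite product) and `u`: there is `p = g' eU(x) g'⁻¹ ∈ Gam a b M₁` with
`rdq m p = Ψ ((rdq m).comp subtype) u` and `redZ (I * K) (ν j (g⁻¹ p g)) = redZ (I * K) (ν' j g u)` for all `g ∈ S`, `j` (naturality for the projections, `Pi.evalMonoidHom`). `Gam a b M₁` is normal, so `eU x ∈ Gam a b M₁`, `x = M₁ t`. Let `g ∈ S`, `g' = g h`, `h ∈ Gam a b M₁`: `ν j (g⁻¹ p g) = ν j (h eU(x) h⁻¹) = l j t`. So `I * K ∣ l j t - A g j`, and by `K_img` `K ∣ t - t_g`.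
`C`, `E` from `RhoG` for `m`: `(rdq m u).val = C * (rdq m p).val * E`. By `K_alg` for `M₁`, `I * K`: `t` is a unit modulo `I * K`, and `det C = P ^ 2 * t` modulo `I * K`. So modulo `K`: `t_g` is a unit modulo `K`. As `2 ∣ K` (`Qf a b (ZMod K)` is not trivial; `K ≥ 2`) `t_g ≠ 0`; `t_g` divides `n_g`, which divides `K`; so `t_g` is a unit: `t_g * v = 1 + K * s`. Reduce `C`, `E`, `P` modulo `k`: `det C = P ^ 2 * t_g`
modulo `k`. The reductions of `C`, `E` modulo `k` satisfy the conditions (naturality of `Ψ`, as in `SW.ex_loc` in `MainW1.lean`). -/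
def K_det : Prop := ∀ (a b : ℤ) (ι : Type) [Finite ι] (α : MulAut (FreeGroup ι)) (N : ℕ)
  (w : ι → List ι) (M : ℕ) (c g : FreeGroup ι) (G₀ : Subgroup (GQ a b)) (η : G₀ →* GR α),
  BG.Dat α N w M c g G₀ η → RgC α → ∀ M₀ M₁ : ℕ, 3 ≤ M₀ → M ∣ M₀ → M₁ ≠ 0 →
  M₀ * a.natAbs ∣ M₁ → FPh a b M₁ →
  ∀ Ψ : NatBij (Gam a b M₁) (Gam a b M₁), RhoG (Gam a b M₁).subtype Ψ (Gam a b M₁).subtype →
  DetU (Gam a b M₁).subtype Ψ (Gam a b M₁).subtype

/-- [CG K app] from `Γ(M₁)` to `D`.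

Proof. Let `M₁ ≠ 0` be a multiple of `m₀` with the property in the hypothesis. (1) Let `π = (rdq a b M₁).comp D.subtype`, `G₁ = π.ker`, `G₂ = (Φ.toFun _ π).ker`. `natBij_ker` gives `Ψ₀ : NatBij G₁ G₂`, compatible with `Φ`. `Gam a b M₁ ≃* G₁` because `Gam a b M₁ ≤ Gam a b m₀ ≤ D`. For `l : Λ`: `l ∈ G₂` iff `rdq M₁ (ρ l) = 1` (`RhoG` for `M₁`), so `ρ` restricts to an isomorphism of `G₂` onto `Gam a b M₁ ∩ ρ.range = Gam a b M₁`.
So we get `Ψ : NatBij (Gam a b M₁) (Gam a b M₁)` (`natBij_equiv`, `NatBij.symm`), and `RhoG` for `Ψ` (with the same `C`, `E`). (2) Let `k` be given, `C`, `E` from `RhoG` for `D` and the modulus `M₁ * k`, and `C'`, `E'` from `DetU` for `Ψ` and the modulus `M₁ * k`: for all `x = rdq (M₁ * k) (ρ l)`, `l ∈ G₂`, i.e. for all `x` in the image of `Gam a b M₁`: `C (E x C) E = x = C' (E x C) E'`, so `B = E * C'` commutes with `y = E x C` and with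
all `y` of the form `Φ(..) l`, `l ∈ G₂`, that is with all `rdq (M₁ * k) z`, `z ∈ Gam a b M₁` (`NatBij.range_eq`). So `B = p • 1` modulo `k` (as in `W_loc`: commute with `eU M₁`, `eV M₁`), `C' = p • C`, `det C' = p ^ 2 * det C` modulo `k`, `p` a unit. The reductions of `C`, `E` modulo `k` are the required matrices. -/
def K_app : Prop := ∀ (a b : ℤ) (m₀ M₁ : ℕ) [NeZero m₀] [NeZero M₁], m₀ ∣ M₁ →
  (∀ Ψ : NatBij (Gam a b M₁) (Gam a b M₁), RhoG (Gam a b M₁).subtype Ψ (Gam a b M₁).subtype →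
    DetU (Gam a b M₁).subtype Ψ (Gam a b M₁).subtype) →
  ∀ D : Subgroup (GQ a b), Gam a b m₀ ≤ D → ∀ (Λ : Type) [Group Λ] (Φ : NatBij D Λ)
  (ρ : Λ →* GQ a b), RhoG D.subtype Φ ρ → Gam a b m₀ ≤ ρ.range → Function.Injective ρ →
  DetU D.subtype Φ ρ

end

end Pool.Agent.F8.CG
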