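import Pool.Agent.Lib.MP_305fdd_al.F8.CG.StmV

/-!
# MP_305fdd_al, congruence subgroups: block L, Eisenstein cocycles

THEOREM (`L_eis`). Let `W` be a subgroup of finite index of `SL₂(ℤ[w])` contained in `Γ(M)`, `M ≥ 3`. For every cusp `i` of `W` there is a 2-cocycle `c i` of `W` with values in `ℂ²`, and no nontrivial linear combination of them is a coboundary.

The proof. For a vector `e ≠ 0` and `g ∈ SL₂(ℂ)` let `sE e g` be the vector `s` with `ω(e, s) = 1` on the geodesic from `e` through the point `g o` of the hyperbolic space. The 2-cocycle is the sum over the vectors `e` of the orbit of the cusp of the integrals over the (projected) triangles, `ph s₀ s₁ s₂`;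
it is an Eisenstein series, and it is absolutely convergent (`L_sum`). The restriction to the stabiliser of a cusp `d` is detected by the functional `c ↦ ω(d, c(x, y) - c(y, x))` (`L_kap`): the terms of the `e` which are not proportional to `d` contribute a coboundary (`L_psi`).
-/

set_option autoImplicit false

namespace Pool.Agent.F8.CG

open Pool.Agent.F8.BG Pool.Agent.MP_305fdd_al Pool.Agent.Lib.MP_305fdd_al Pool.Agent.F8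
open scoped QuadraticAlgebra ComplexConjugate

noncomputable section

/-- the columns of a matrix -/
def colG {R : Type} [CommRing R] (g : SL2 R) (j : Fin 2) : Fin 2 → R := fun i => g.val i j

/-- the number `|ω(e, g₀)|² + |ω(e, g₁)|²` -/
def nE (e : Fin 2 → ℂ) (g : SL2 ℂ) : ℝ := ‖om e (colG g 0)‖ ^ 2 + ‖om e (colG g 1)‖ ^ 2

/-- the vector `(conj ω(e, g₀) g₀ + conj ω(e, g₁) g₁) / nE e g` -/
def sE (e : Fin 2 → ℂ) (g : SL2 ℂ) : Fin 2 → ℂ :=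
  ((nE e g : ℝ) : ℂ)⁻¹ • (conj (om e (colG g 0)) • colG g 0 + conj (om e (colG g 1)) • colG g 1)

/-- six times the integral over a triangle -/
def ph (s₀ s₁ s₂ : Fin 2 → ℂ) : Fin 2 → ℂ :=
  (((conj (om s₁ s₀) * om s₂ s₀).im : ℝ) : ℂ) • (s₀ + s₁ + s₂)

/-- the term of `e` -/
def phE (e : Fin 2 → ℂ) (g₀ g₁ g₂ : SL2 ℂ) : Fin 2 → ℂ := ph (sE e g₀) (sE e g₁) (sE e g₂)

/-- the primitive with the vertex `d` at infinity -/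
def psE (d e : Fin 2 → ℂ) (g₁ g₂ : SL2 ℂ) : Fin 2 → ℂ :=
  ph ((om e d)⁻¹ • d) (sE e g₁) (sE e g₂)

/-- the Eisenstein series -/
def Eis (a b : ℤ) (S : Set (Fin 2 → Qf a b ℤ)) (g₀ g₁ g₂ : SL2 ℂ) : Fin 2 → ℂ :=
  ∑' e : S, phE (vC a b e) g₀ g₁ g₂

/-- the corresponding function on `W × W` -/
def EisC {a b : ℤ} (W : Subgroup (GQ a b)) (S : Set (Fin 2 → Qf a b ℤ)) (x y : W) : Fin 2 → ℂ :=
  Eis a b S 1 (iG a b x.val) (iG a b (x * y).val)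

/-- a 2-cocycle -/
def Coc2 {a b : ℤ} (W : Subgroup (GQ a b)) (c : W → W → Fin 2 → ℂ) : Prop :=
  ∀ x y z, (iG a b x.val).val.mulVec (c y z) - c (x * y) z + c x (y * z) - c x y = 0

/-- a 2-coboundary -/
def Cob2 {a b : ℤ} (W : Subgroup (GQ a b)) (c : W → W → Fin 2 → ℂ) : Prop :=
  ∃ f : W → Fin 2 → ℂ, ∀ x y, c x y = (iG a b x.val).val.mulVec (f y) - f (x * y) + f x

/-- [CG L alg] algebraic identities.

Proof. (1) `ω(e, g₀)`, `ω(e, g₁)` are not both zero (the columns `g₀`, `g₁` are a basis). (2) `ω(e, sE e g) = (nE)⁻¹ (|ω(e, g₀)|² + |ω(e, g₁)|²) = 1`. (3) `ω(h e, h v) = ω(e, v)`, and the columns of `h g` are `h g_j`. (4) `ph` commutes with `h`. (5) Let `e' = s₀`, then `s_i = s₀ + z_i e` with `z_i = ω(s_i, s₀)` and `z₀ = 0`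
(`ω(e, s_i - s₀) = 0`, so `s_i - s₀` is a multiple `z_i e` of `e ≠ 0`, and `ω(s_i, s₀) = z_i ω(e, s₀) = z_i`), `ω(s_i, s_j) = z_i - z_j`. So with `A i j k = Im (conj (z_j - z_i) (z_k - z_i))` the claim is `A 1 2 3 (s₁+s₂+s₃) - A 0 2 3 (s₀+s₂+s₃) + A 0 1 3 (s₀+s₁+s₃) - A 0 1 2 (s₀+s₁+s₂) = 0`; it is a polynomial identity in the real and imaginary parts of
`z₁, z₂, z₃` (coefficients of `s₀` and of `e`; write `z_i = x_i + i y_i`). (6) `om` is bilinear and alternating. -/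
def L_alg : Prop := (∀ (e : Fin 2 → ℂ) (g : SL2 ℂ), e ≠ 0 → 0 < nE e g ∧ om e (sE e g) = 1) ∧
  (∀ (e : Fin 2 → ℂ) (g h : SL2 ℂ), sE (h.val.mulVec e) (h * g) = h.val.mulVec (sE e g)) ∧
  (∀ (h : SL2 ℂ) (s₀ s₁ s₂ : Fin 2 → ℂ), ph (h.val.mulVec s₀) (h.val.mulVec s₁) (h.val.mulVec s₂) =
    h.val.mulVec (ph s₀ s₁ s₂)) ∧
  (∀ e s₀ s₁ s₂ s₃ : Fin 2 → ℂ, om e s₀ = 1 → om e s₁ = 1 → om e s₂ = 1 → om e s₃ = 1 →
    ph s₁ s₂ s₃ - ph s₀ s₂ s₃ + ph s₀ s₁ s₃ - ph s₀ s₁ s₂ = 0)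

/-- [CG L bd] estimates. (`‖·‖` is the maximum norm on `Fin 2 → ℂ`.) (Uses `L_alg`.)

Proof. Fix `g`. `|ω(e, v)| ≤ 2 ‖e‖ ‖v‖`. `e` is a linear combination of the columns with coefficients `± ω(e, g_j)`: `e = ω(e, g₁) g₀ - ω(e, g₀) g₁` up to sign (`det g = 1`), so `‖e‖ ≤ ‖g₀‖ |ω(e, g₁)| + ‖g₁‖ |ω(e, g₀)|` and `nE e g ≥ κ ‖e‖²` with `κ = κ(g) > 0`. So `‖sE e g‖ ≤ C / ‖e‖`, `C = C(g)`. (1) `|ω(s₁, s₀)|, |ω(s₂, s₀)| ≤ C' / ‖e‖²`, so `‖ph s₀ s₁ s₂‖ ≤ C'' ‖e‖^-5`.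
(2) `s₀ = ω(e, d)⁻¹ d`. `ω(s₁, s₂) = ω(s₁, s₀) - ω(s₂, s₀)` (all `ω(e, s_i) = 1`, see `L_alg`; `e ≠ 0` because `ω(e, d) ≠ 0`), so `Im (conj ω(s₁, s₀) ω(s₂, s₀)) = - Im (conj ω(s₁, s₀) ω(s₁, s₂))`, and `|ω(s₁, s₀)| ≤ C / (‖e‖ |ω(e, d)|)`, `|ω(s₁, s₂)| ≤ C / ‖e‖²`; `‖s₀ + s₁ + s₂‖ ≤ C (1 / |ω(e, d)| + 1 / ‖e‖) ≤ C' / |ω(e, d)|` as `|ω(e, d)| ≤ 2 ‖e‖ ‖d‖`.
So `‖psE d e g₁ g₂‖ ≤ C ‖e‖^-3 |ω(e, d)|^-2`. -/
def L_bd : Prop := (∀ g₀ g₁ g₂ : SL2 ℂ, ∃ C : ℝ, ∀ e : Fin 2 → ℂ, e ≠ 0 →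
    ‖phE e g₀ g₁ g₂‖ ≤ C / ‖e‖ ^ 5) ∧
  ∀ (d : Fin 2 → ℂ) (g₁ g₂ : SL2 ℂ), ∃ C : ℝ, ∀ e : Fin 2 → ℂ, om e d ≠ 0 →
    ‖psE d e g₁ g₂‖ ≤ C / (‖e‖ ^ 3 * ‖om e d‖ ^ 2)

/-- [CG L lat] sums over lattices.

Proof. Write `|x| = ‖iC x‖`; `|x| ≥ 1` for `x ≠ 0` (`|x|² = nq x` is a positive integer), and `F x = (max 1 |x|)^(-5/2)` is summable over the ring (a lattice in `ℂ`, of rank two: `ZLattice.summable_norm_rpow` or compare with `ℤ²`: `|m + n w| ≥ κ (|m| + |n|)` and `∑ (1 + |m| + |n|)^(-5/2) < ∞`). (1) For `e ≠ 0`: `‖vC e‖ ≥ max 1 |e₀|` and `≥ max 1 |e₁|`, so `‖vC e‖^-5 ≤ F e₀ F e₁`, which is summable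
(product). (2) Let `g` be a matrix in `SL₂` of the ring with the first column `d`, `e = g e'`, so `ω(e, d) = ω(e', (1, 0)) = - e'₁`, `‖vC e'‖ ≤ C ‖vC e‖`. For `e'₁ ≠ 0`: `‖vC e'‖ ≥ |e'₁|`, `‖vC e'‖ ≥ max 1 |e'₀|`, so `‖vC e'‖^-3 |e'₁|^-2 ≤ F e'₀ F e'₁`. Reindex the sum with the bijection `e' ↦ g e'`. -/
def L_lat : Prop := ∀ a b : ℤ, b ^ 2 + 4 * a < 0 →
  (Summable fun e : Fin 2 → Qf a b ℤ => (‖vC a b e‖ ^ 5)⁻¹) ∧
  ∀ g : GQ a b, Summable fun e : Fin 2 → Qf a b ℤ =>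
    (‖vC a b e‖ ^ 3 * ‖om (vC a b e) (vC a b (colG g 0))‖ ^ 2)⁻¹

/-- [CG L coc] the Eisenstein series is a 2-cocycle. (Uses `L_alg`, `L_bd`, `L_lat`.)

Proof. (1) Summability: `L_bd`, `L_lat` (`0⁻¹ = 0`; `0 ∉ S`). (2) `Eis (h g₀) (h g₁) (h g₂) = h Eis g₀ g₁ g₂` for `h = iG x`, `x ∈ W`: `e ↦ x e` is a bijection of `S` (`hS` for `x` and `x⁻¹`), and `vC (x e) = h (vC e)`, `L_alg`. (3) The sum over `e ∈ S` of the identity of `L_alg` for `s_i = sE e g_i`. Apply it to `1, x, x y, x y z`; `Eis x (x y) (x y z) = x Eis 1 y (y z)` by (2). -/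
def L_coc : Prop := ∀ a b : ℤ, b ^ 2 + 4 * a < 0 → ∀ (W : Subgroup (GQ a b))
  (S : Set (Fin 2 → Qf a b ℤ)), 0 ∉ S → (∀ x ∈ W, ∀ e ∈ S, x.val.mulVec e ∈ S) →
  Coc2 W (EisC W S)

/-- [CG L kap] the functional of a cusp. (Uses `L_alg`, `L_bd`, `L_lat`.)

Proof. Write `d` also for `vC d`, `x` for `iG x`. Let `S' = {e ∈ S | ω(e, d) ≠ 0}`, `Ψ g₁ g₂ = ∑' e : S', psE d (vC e) g₁ g₂` (absolutely convergent by `L_bd`, `L_lat`; `ω(vC e, vC d) = iC (ω(e, d))` is zero iff `ω(e, d) = 0`). (1) `phE e g₀ g₁ g₂ = psE d e g₁ g₂ - psE d e g₀ g₂ + psE d e g₀ g₁` for `e ∈ S'`: the identity of `L_alg` for `s_* = ω(e, d)⁻¹ d`, `sE e g₀`, `sE e g₁`, `sE e g₂`.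
(2) If `x ∈ W`, `x d = d` then `Ψ (x g₁) (x g₂) = x Ψ g₁ g₂`: reindex with `e ↦ x e`; `ω(x e, d) = ω(x e, x d) = ω(e, d)`. (3) So `∑' e : S', (phE e 1 x (x y) - phE e 1 y (y x)) = x Ψ 1 y - Ψ 1 (x y) + Ψ 1 x - y Ψ 1 x + Ψ 1 (y x) - Ψ 1 y = (x - 1) Ψ 1 y - (y - 1) Ψ 1 x` (`x y = y x`), and `ω(d, (x - 1) v) = ω(x d, x v) - ω(d, v) = 0`.
(4) So only the `e ∈ S` with `ω(e, d) = 0` contribute to `ω(d, EisC x y - EisC y x)`; by hypothesis this is only `e = d`, or none. (5) The term `e = d`: `x = tv d s`, `y = tv d t`, `s₀ = sE d 1`, `ω(d, s₀) = 1`; `sE d x = x s₀ = s₀ + s d` (`L_alg` with `x d = d`, `V_tv` or directly), `sE d (x y) = s₀ + (s + t) d`, so `phE d 1 x (x y) = Im (conj s (s + t)) (3 s₀ + (2 s + t) d)`, and `ω(d, ·)` of it is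
`3 Im (conj s t)`; with `x`, `y` exchanged `3 Im (conj t s) = - 3 Im (conj s t)`. (`s`, `t` stand for `iC s`, `iC t`.) -/
def L_kap : Prop := ∀ a b : ℤ, b ^ 2 + 4 * a < 0 → ∀ (W : Subgroup (GQ a b))
  (S : Set (Fin 2 → Qf a b ℤ)), 0 ∉ S → (∀ x ∈ W, ∀ e ∈ S, x.val.mulVec e ∈ S) →
  ∀ (g : GQ a b) (s t : Qf a b ℤ) (hs : tv (colG g 0) s ∈ W) (ht : tv (colG g 0) t ∈ W),
  ((∀ e ∈ S, om e (colG g 0) ≠ 0) →
    om (vC a b (colG g 0)) (EisC W S ⟨_, hs⟩ ⟨_, ht⟩ - EisC W S ⟨_, ht⟩ ⟨_, hs⟩) = 0) ∧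
  (colG g 0 ∈ S → (∀ e ∈ S, om e (colG g 0) = 0 → e = colG g 0) →
    om (vC a b (colG g 0)) (EisC W S ⟨_, hs⟩ ⟨_, ht⟩ - EisC W S ⟨_, ht⟩ ⟨_, hs⟩) =
      ((6 * (conj (iC a b s) * iC a b t).im : ℝ) : ℂ))

/-- [CG L cu] cusps.

Proof. The set of the cosets `W g` is finite, and `Cusp W` is a quotient of it. (2) Let `d = colG g 0`, `d' = colG g' 0`, `x ∈ W`, `ω(x d, d') = 0`. `k = g'⁻¹ x g`: the first column of `k` is `g'⁻¹ x d`, and its second entry is `± ω(d', x d) = 0` (`ω(g' e₁, g' v) = ω(e₁, v) = v₁`). So `k ∈ Bor`, and `x g`, `g'` define the same cusp: the classes of `g` and `g'` in `Cusp W` are equal. (3) If `g = g'`: `k = g⁻¹ x g ∈ Bor` and `k ∈ Gam a b M` (normal), the upper left entry `u` of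
`k` is a unit (`u v = 1`, `v` the lower right entry) which is `1` modulo `M`, so `u = 1` (`C_un`, proved in `P_Cun.lean` as `p_Cun`), and `x d = g k e₁ = u d = d`. (4) `tv e t ^ N = tv e (N t)`, `N = (index of W)!` (`Subgroup.pow_mem_of_index_ne_zero_of_dvd`). -/
def L_cu : Prop := ∀ a b : ℤ, b ^ 2 + 4 * a < 0 → ∀ M : ℕ, 3 ≤ M → ∀ W : Subgroup (GQ a b),
  W.FiniteIndex → W ≤ Gam a b M → Finite (Cusp W) ∧
  (∀ g g' : GQ a b, ∀ x ∈ W, om (x.val.mulVec (colG g 0)) (colG g' 0) = 0 →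
    (Quotient.mk'' (g : Pr a b) : Cusp W) = Quotient.mk'' (g' : Pr a b)) ∧
  (∀ g : GQ a b, ∀ x ∈ W, om (x.val.mulVec (colG g 0)) (colG g 0) = 0 →
    x.val.mulVec (colG g 0) = colG g 0) ∧
  ∃ N : ℕ, N ≠ 0 ∧ ∀ (e : Fin 2 → Qf a b ℤ) (t : Qf a b ℤ), tv e (N * t) ∈ W

open Classical in
/-- [CG L eis] MAIN RESULT of block L. (Uses `L_coc`, `L_kap`, `L_cu`.)

Proof. For a cusp `i` choose `g_i` whose class is `i`, `d_i = colG g_i 0`, `S_i = {x d_i | x ∈ W}` (`0 ∉ S_i`), `c i = EisC W S_i` (`L_coc`). Let `N` be from `L_cu`, `x_j = tv d_j N`, `y_j = tv d_j (N w)`, `w = wq a b ℤ`, elements of `W` which commute (`tv d (s + t) = tv d s * tv d t`, `V_tv`), and `κ_j c = ω(d_j, c x_j y_j - c y_j x_j)`. (1) `κ_j` of a coboundary is zero: `c x y - c y x = (x - 1) f y - (y - 1) f x`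
and `ω(d_j, (x - 1) v) = 0` for `x d_j = d_j`. (2) `κ_j (c i) = 0` for `i ≠ j` (`L_kap`, first part; `L_cu` (2)). (3) `κ_i (c i) = 6 N² Im wC ≠ 0` (`L_kap`, second part, `L_cu` (3); `wC_im`). `κ_j` is linear, so a combination `∑ λ_i c_i` which is a coboundary has `λ_j κ_j (c j) = 0` for all `j`. -/
def L_eis : Prop := ∀ a b : ℤ, b ^ 2 + 4 * a < 0 → ∀ M : ℕ, 3 ≤ M → ∀ W : Subgroup (GQ a b),
  W.FiniteIndex → W ≤ Gam a b M → ∀ [Fintype (Cusp W)], ∃ c : Cusp W → W → W → Fin 2 → ℂ,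
  (∀ i, Coc2 W (c i)) ∧ ∀ l : Cusp W → ℂ, Cob2 W (fun x y => ∑ i, l i • c i x y) → l = 0

end

end Pool.Agent.F8.CG
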