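import Pool.Agent.Lib.MP_305fdd_al.F8.CG.StmS

/-!
# MP_305fdd_al, congruence subgroups: block S, the sign, part 2 (centralisers, correspondence of the peripheral subgroups)

(CL) Let `F` be a free group of finite rank, `p ∈ F`, `θ` a homomorphism to a finite group. There is a finite quotient `θ₂` of `F` such that for every `q` whose image under `θ₂` commutes with the image of `p` there is an element `c` of the centraliser of `p` with `θ c = θ q` (`S_cl`). From this we get such a statement for `Γ(m)` and the unipotent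
elements `p = tv e m` (`S_cz`, `CZ`). (PAIR) So the peripheral subgroups correspond to each other: for every finite quotient `θ` and every primitive `e'` there is `e` such that `tv e (N₁ t)` corresponds to `tv e' (N₁ t)` for all `t` (`S_pair`, `Pair`).
-/

set_option autoImplicit false

namespace Pool.Agent.F8.CG

open Pool.Agent.F8.BG Pool.Agent.MP_305fdd_al Pool.Agent.Lib.MP_305fdd_al Pool.Agent.F8
open scoped QuadraticAlgebra ComplexConjugate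

noncomputable section

/-! ### Centralisers in free groups -/

/-- a letter as an element of the free group -/
def ltr {ι : Type} (y : ι × Bool) : FreeGroup ι :=
  if y.2 = true then FreeGroup.of y.1 else (FreeGroup.of y.1)⁻¹

/-- the products of the first letters -/
def pre {ι : Type} (x : ℕ → ι × Bool) : ℕ → FreeGroup ι
  | 0 => 1
  | n + 1 => pre x n * ltr (x n)

/-- a periodic reduced infinite word -/
structure PW {ι : Type} (x : ℕ → ι × Bool) (L : ℕ) : Prop where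
  pos : 0 < L
  per : ∀ i, x (i + L) = x i
  red : ∀ i, (x i).1 = (x (i + 1)).1 → (x i).2 = (x (i + 1)).2

/-- [CG S cl0] a permutation representation on the circle.

Proof. On the finite set `ZMod L` (write `x k` for `k : ZMod L`, `x` is periodic) and for a generator `s` let `f_s` be the partial map with `f_s k = k + 1` if `x k = (s, true)` and `f_s (k + 1) = k` if `x k = (s, false)`. It is well defined (if `x k = (s, true)` and `x (k - 1) = (s, false)` then `x` is not reduced) and injective (if `k + 1 = k'`, `x k = (s, true)`, `x k' = (s, false)`: the same). So it extends to a permutation `f_s` of `ZMod L`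
(`Equiv.extendSubtype`). Let `σ : FreeGroup ι →* (Equiv.Perm (ZMod L))ᵐᵒᵖ`, `σ (of s) = op f_s`, so that `k · g = (unop (σ g)) k` is a right action. Then `0 · pre x n = n` (induction: `n · ltr (x n) = n + 1` in both cases). So `σ (pre x i) = σ (pre x j)` implies `i = j` in `ZMod L`. -/
def S_cl0 : Prop := ∀ (ι : Type) (x : ℕ → ι × Bool) (L : ℕ), PW x L →
  ∃ (P : Type) (_ : Group P) (_ : Finite P) (σ : FreeGroup ι →* P),
  ∀ i j, σ (pre x i) = σ (pre x j) → i ≡ j [MOD L]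

/-- [CG S cl1] centralisers of cyclically reduced words. (Uses `S_cl0`.)

Proof. `p = pre x L`, `pre x (L + i) = p * pre x i` (periodicity). Let `θ' = θ.prod σ` (`S_cl0`), `Q'` its target, `a` the order of `θ' p`, `n = a L`, `v_i = θ' (pre x i)`. (1) `v_i = v_j` iff `i = j` modulo `n`: if `v_i = v_j`, `i ≤ j`, then `j = i + L m` by `S_cl0`, `v_j = θ' (p ^ m) v_i`, so `a ∣ m`. (2) Let `A` be the group of the functions `Q' × ι → ZMod 3`, with the action `(g φ)(v, s) = φ (g⁻¹ v, s)` of `Q'`, `E = A ⋊ Q'` (finite; a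
`SemidirectProduct` with `Multiplicative A`, or a structure), and `θ₂ : FreeGroup ι →* E`, `of s ↦ (1_(1, s), θ' (of s))` (`1_y` the indicator function of the point `y`); `θ₂ g = (δ g, θ' g)`, `δ (g h) = δ g + θ' g (δ h)`, `δ ((of s)⁻¹) = - 1_(θ'(s)⁻¹, s)`. Write `x i = (s_i, b_i)`, `ε_i = 1`, `w_i = v_i` if `b_i = true` and `ε_i = -1`, `w_i = v_(i+1)` if `b_i = false`. Then `δ (pre x k) = ∑ i < k, ε_i 1_(w_i, s_i)`.
(3) If `(w_i, s_i) = (w_j, s_j)` then `i = j` modulo `n`: if `b_i = b_j` by (1). If `b_i = true`, `b_j = false`: `v_i = v_(j+1)`, and `v_(i+1) = v_i θ'(s) = v_(j+1) θ'(s) = v_j`; so `i = j + 1`, `j = i + 1` modulo `n`, `n ∣ 2`; then `j = i + 1` modulo `n` (and modulo `L`) contradicts that `x` is reduced (`x j = x (i+1)` by periodicity, the same generator, different signs). (4) Let `θ₂ q` commute with `θ₂ p`, so it commutes with `θ₂ (p ^ a)`,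
`p ^ a = pre x n`, `θ' (p ^ a) = 1`: `δ q + θ' q (δ (p ^ a)) = δ (p ^ a) + δ q`. So `D = δ (p ^ a) = ∑ i < n, ε_i 1_(w_i, s_i)` is invariant under `θ' q`, `D (w_i, s_i) = ε_i` (3), so `D (θ' q w_i, s_i) = ε_i ≠ 0` and for every `i` there is `j` with `(θ' q w_i, s_i) = (w_j, s_j)`, `ε_i = ε_j` (`1 ≠ -1` in `ZMod 3`), so `x i = x j` and `θ' q v_i = v_j` (if `b_i = false`: `θ' q v_(i+1) = v_(j+1)`, `v_i = v_(i+1) θ'(s)`).
(5) Let `j₀` be the `j` for `i = 0`. By induction `θ' q v_i = v_(i + j₀)` and `x i = x (i + j₀)`: `θ' q v_(i+1) = θ' q v_i θ' (ltr (x i)) = v_(i + j₀ + 1)`, and by (4) it is `v_j` with `x j = x (i+1)`, `j = i + j₀ + 1` modulo `n` by (1), `x j = x (i + 1 + j₀)`. (6) `c = pre x j₀`: `θ' c = v_(j₀) = θ' q`, so `θ c = θ q`. `c p = pre x (j₀ + L)` because `x (j₀ + i) = x i`, and `pre x (L + j₀) = p c`. -/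
def S_cl1 : Prop := ∀ (ι : Type) [Finite ι] (x : ℕ → ι × Bool) (L : ℕ), PW x L →
  ∀ (Q : Type) [Group Q] [Finite Q] (θ : FreeGroup ι →* Q),
  ∃ (Q₂ : Type) (_ : Group Q₂) (_ : Finite Q₂) (θ₂ : FreeGroup ι →* Q₂), ∀ q : FreeGroup ι,
  θ₂ q * θ₂ (pre x L) = θ₂ (pre x L) * θ₂ q → ∃ c, c * pre x L = pre x L * c ∧ θ c = θ q

/-- [CG S cl] centralisers in free groups. (Uses `S_cl1`.)

Proof. If `p = 1` take `θ₂ = θ`, `c = q`. Otherwise `p = g p' g⁻¹` with `p'` given by a cyclically reduced nonempty word (Mathlib: `FreeGroup.reduceCyclically`, `FreeGroup.reduceCyclically.conj_conjugator_reduceCyclically`, `FreeGroup.reduceCyclically.isCyclicallyReduced`), of length `L`; let `x` be its periodic continuation (`x i` the letter at `i % L`), `PW x L`, `pre x L = p'`. Let `θ₂` be from `S_cl1`. If `θ₂ q` commutes with `θ₂ p` then `θ₂ (g⁻¹ q g)` commutes with `θ₂ p'`; `c'` for it, `c = g c'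 g⁻¹`. -/
def S_cl : Prop := ∀ (ι : Type) [Finite ι] (p : FreeGroup ι) (Q : Type) [Group Q] [Finite Q]
  (θ : FreeGroup ι →* Q), ∃ (Q₂ : Type) (_ : Group Q₂) (_ : Finite Q₂) (θ₂ : FreeGroup ι →* Q₂),
  ∀ q : FreeGroup ι, θ₂ q * θ₂ p = θ₂ p * θ₂ q → ∃ c, c * p = p * c ∧ θ c = θ q

/-- [CG S cz0] centralisers in free-by-cyclic groups. (Uses `S_cl`.)

Proof. `N = ν.ker`, free of finite rank. `S_cl` (transported with `e`) for `p` and the restriction of `θ` to `N`: `θ₁ : N →* Q₁`. Let `K' ≤ N` be the intersection of the kernels of all homomorphisms `N →* Q₁`: they are finite in number (`N` is finitely generated), so `K'` has finite index in `N`, and it is invariant under all automorphisms of `N` (compare `KQ` in `NatBij.lean`), so its image in `G` is normal in `G`. `H = K' ⟨d⟩` (a subgroup as `K'` is normal) has finite index in `G`: `ν d ≠ 1`, so `N ⟨d⟩` has finite index,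
and `N = ∪ K' n_i` gives `N ⟨d⟩ = ∪ n_i H` (finite unions, `K'` normal). `H ∩ N = K'` (`ν (k d^j) = ν(d)^j ≠ 1` for `j ≠ 0`). `θ'` the projection to `G ⧸ H.normalCore`, so that `x ∈ N`, `θ' x = 1` imply `x ∈ K'`, `θ₁ x = 1`. `θ₂ = θ.prod θ'`. Let `ν q = ν d ^ j` and `θ₂ q`, `θ₂ p` commute: `f = q * d^(-j) ∈ N`, and `θ₂ f` commutes with `θ₂ p` (`d p = p d`). So `θ' (f p f⁻¹ p⁻¹) = 1`, `θ₁ f` and `θ₁ p` commute, and
there is `c ∈ N`, `c p = p c`, `θ c = θ f`. Take `c * d^j`. -/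
def S_cz0 : Prop := ∀ (G : Type) [Group G] (ν : G →* Multiplicative ℤ) (n : ℕ)
  (_ : ν.ker ≃* FreeGroup (Fin n)) (p d : G), ν p = 1 → d * p = p * d → ν d ≠ 1 →
  ∀ (Q : Type) [Group Q] [Finite Q] (θ : G →* Q),
  ∃ (Q₂ : Type) (_ : Group Q₂) (_ : Finite Q₂) (θ₂ : G →* Q₂), ∀ q : G, (∃ j : ℤ, ν q = ν d ^ j) →
  θ₂ q * θ₂ p = θ₂ p * θ₂ q → ∃ c, c * p = p * c ∧ θ c = θ q

/-- centralisers of unipotent elements in finite quotients of `Γ(m)` -/
def CZ (a b : ℤ) (m k₀ : ℕ) : Prop := ∀ (Q : Type) [Group Q] [Finite Q] (θ : Gam a b m →* Q),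
  ∃ (Q₂ : Type) (_ : Group Q₂) (_ : Finite Q₂) (θ₂ : Gam a b m →* Q₂),
  ∀ e, Prm e → ∀ q : Gam a b m,
  θ₂ q * θ₂ (uD m (dvd_refl m) e 1) = θ₂ (uD m (dvd_refl m) e 1) * θ₂ q →
  ∃ x, θ (uD m (dvd_refl m) e x) = θ q ^ k₀

/-- [CG S cz] (Uses `S_cz0`.)

Proof. `M₀ = 3 M`; as in `K_nu` (`P_Knu.lean`) let `λ z = nR α (η (eU (M₀ z)))`, additive in `z`, with values in `ℤ`; `λ ≠ 0`, and `λ z = 0`, `λ (w z) = 0` imply `z = 0` (`w = wq a b ℤ`; see the proof of `K_nu`, (1), (2)). `κ = λ(w) - λ(1) w ≠ 0`, `λ κ = 0`, so `λ (κ w) = λ (w κ) ≠ 0`. `M_* = M₀ nq κ`. Let `M_* ∣ m`, `m = M₀ c`. For `x = [[p, q], [r, s]] ∈ Gam a b m` let `τ x = [[p, κ q], [r / κ, s]]` (`r` is divisible by `M₀ nq κ`, `κ ∣ nq κ`), in `Gam a b M₀`,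
an injective homomorphism, `f x = η (τ x)`, an injective homomorphism `Gam a b m →* GR α` whose range has finite index (as in `K_nu`). `ν x = nR α (f x)`. `ν (eU (m x)) = λ (κ c x) = c λ (κ x)`: `p₀ = eU m ∈ ker ν`, `d = eU (m w)`, `ν d = c λ(κ w) =: ± k₀`, `k₀ ≥ 1`. `ker ν ≅ {y : FreeGroup ι | iR α y ∈ f.range}`, which has finite index in the free group, so it is free of finite rank (as in `P_Ugr.lean`).
`S` a finite set of representatives of the classes `(Gam a b m) g` in `GQ a b`. For `g ∈ S` let `c_g` be the automorphism `x ↦ g x g⁻¹` of `Gam a b m`, and `θ₂^g` the quotient from `S_cz0` for `p₀`, `d`, `θ ∘ c_g`; `θ₂ x = (θ₂^g (g⁻¹ x g))_(g ∈ S)` (a finite product). Let `e = γ (1, 0)`, `γ = h g`, `h ∈ Gam a b m`, `g ∈ S`, `p = tv e m = h g p₀ g⁻¹ h⁻¹`, and let `θ₂ q`, `θ₂ p` commute; `q₁ = h⁻¹ q h`: `θ₂ q₁`, `θ₂ (g p₀ g⁻¹)` commute, so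
`θ₂^g (q')`, `θ₂^g (p₀)` commute, `q' = g⁻¹ q₁ g`. `ν (q' ^ k₀) = ν d ^ (± ν q')`. `S_cz0`: `c` commutes with `p₀` and `θ (g c g⁻¹) = θ (g q'^(k₀) g⁻¹) = θ (q₁ ^ k₀)`. `c = [[α, x'], [0, α]]`, `α² = 1`, `α = 1` modulo `m ≥ 3`, so `α = 1`, `c = eU x'`, `x' = m x`. `θ (q ^ k₀) = θ (h g c g⁻¹ h⁻¹) = θ (tv e (m x))`. -/
def S_cz : Prop := ∀ (a b : ℤ) (ι : Type) [Finite ι] (α : MulAut (FreeGroup ι)) (N : ℕ)
  (w : ι → List ι) (M : ℕ) (c g : FreeGroup ι) (G₀ : Subgroup (GQ a b)) (η : G₀ →* GR α),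
  BG.Dat α N w M c g G₀ η → ∃ M' : ℕ, M' ≠ 0 ∧ ∀ m : ℕ, m ≠ 0 → M' ∣ m →
  ∃ k₀ : ℕ, k₀ ≠ 0 ∧ CZ a b m k₀

/-! ### The correspondence of the peripheral subgroups -/

/-- the conclusion of `K_nu` -/
def NuH (a b : ℤ) (M₁ : ℕ) : Prop := ∃ ν : Fin 2 → (Gam a b M₁ →* Multiplicative ℤ),
  (∀ (x : Qf a b ℤ) (h : eU ((M₁ : Qf a b ℤ) * x) ∈ Gam a b M₁),
    (∀ j, ν j ⟨eU ((M₁ : Qf a b ℤ) * x), h⟩ = 1) → x = 0) ∧
  ∀ (j : Fin 2) (g : GQ a b) (G₂ : Type) [Group G₂] [Group.FG G₂] (Ψ : NatBij (Gam a b M₁) G₂),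
  ∃ ν' : G₂ →* Multiplicative ℤ, ∀ (m : ℕ) [NeZero m],
    Ψ.toFun _ ((redZ m).comp ((ν j).comp (cjM M₁ g))) = (redZ m).comp ν'

/-- The unipotent elements correspond to each other. -/
def FPU (a b : ℤ) (m : ℕ) : Prop :=
  ∀ Ψ : NatBij (Gam a b m) (Gam a b m), RhoG (Gam a b m).subtype Ψ (Gam a b m).subtype →
  ∀ (Q : Type) [Group Q] [Finite Q] (θ : Gam a b m →* Q) (u : Gam a b m), Unip u.val →
  ∃ p : Gam a b m, Unip p.val ∧ θ p = Ψ.toFun Q θ u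

/-- [CG S ex] EXACT. (Cite `p_Kimg`, `p_Jnsq`, `p_Jun`.)

Proof. Write `u(e, x) = uD m _ e x = tv e (m x)`, `u(e, x) u(e, y) = u(e, x + y)`. `S` a finite set of representatives of the classes `(Gam a b m) g` in `GQ a b`; `ν` from `NuH`; `ν'_(g, j)` for `g ∈ S`, `j`, `Ψ` (`Gam a b m` is finitely generated), `A g j = ν'_(g, j) (u(e', s))` as integers. `l j x = ν j (eU (m x))`, additive; `K_img` gives `I`. For `g ∈ S` such that there is `t` with `I ∣ l j t - A g j` for both `j` let `t_g` be the element `t₁` of `K_img`, `n_g = nq t_g` if `t_g ≠ 0`, and `n_g = 1`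
otherwise. `k_s` from `J_nsq` (`p_Jnsq`): units which are squares modulo `k_s` are squares of units. `K = 2 |Q| nq(s) k_s ∏ n_g`. `θ₃ = (θ, rdq (m K), (redZ (I K) ∘ ν j ∘ cjM m g)_(g ∈ S, j))`, a finite product; `θ₃ x = (Ψ θ₃) y` implies the same for the components (`pair_prod`, naturality for the projections). Let `θ₃ u(e, x) = (Ψ θ₃) u(e', s)`, `e = h g (1, 0)`, `h ∈ Gam a b m`, `g ∈ S`.
(1) `g⁻¹ u(e, x) g = h' eU (m x) h'⁻¹` with `h' = g⁻¹ h g ∈ Gam a b m`, so `ν j (cjM m g u(e, x)) = l j x`, and `I K ∣ l j x - A g j`, so `K ∣ x - t_g`. (2) `h_m` from `Ps Ψ` for the modulus `m K`: `rdq (m K) (tv e' (m s)) = rdq (m K) (tv f (m x))`, `f = h_m e` (primitive). The entries: `x f_i f_j = s e'_i e'_j` modulo `K`. From `α e'_0 + β e'_1 = 1`, `P = α f_0 + β f_1`: `x P² = s`; similarly `x = s P'²` modulo `K`. So `t_g P² = s`, `t_g = s P'²` modulo `K`.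
(3) `t_g ≠ 0` (otherwise `2 nq s ∣ K ∣ s`, impossible by the norm). `s ∣ nq s ∣ K`, so `s ∣ t_g`; `t_g ∣ n_g ∣ K`, so `t_g ∣ s`; `t_g = s t'`, `t'` a unit. `K ∣ s (t' - P'²)`, multiply with `cjq s`: `k_s ∣ t' - P'²`, so `t' = v²`, `v` a unit. (4) `x = s v² + K y`, `u(e, x) = u(e, s v²) u(e, y) ^ K`, and `θ (..) ^ K = 1` as `|Q| ∣ K`. So `θ u(e, s v²) = θ u(e, x) = (Ψ θ) u(e', s)`. -/
def S_ex : Prop := ∀ (a b : ℤ), b ^ 2 + 4 * a < 0 → IsPrincipalIdealRing (Qf a b ℤ) →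
  Five a b → Group.FG (GQ a b) → CgF a b → ∀ m : ℕ, 3 ≤ m → NuH a b m →
  ∀ Ψ : NatBij (Gam a b m) (Gam a b m), Ps Ψ → ∀ e', Prm e' → ∀ s : Qf a b ℤ, s ≠ 0 →
  ∀ (Q : Type) [Group Q] [Finite Q] (θ : Gam a b m →* Q),
  ∃ (Q₃ : Type) (_ : Group Q₃) (_ : Finite Q₃) (θ₃ : Gam a b m →* Q₃), ∀ e, Prm e → ∀ x,
  θ₃ (uD m (dvd_refl m) e x) = Ψ.toFun Q₃ θ₃ (uD m (dvd_refl m) e' s) → ∃ v, IsUnit v ∧
  θ (uD m (dvd_refl m) e (s * v ^ 2)) = Ψ.toFun Q θ (uD m (dvd_refl m) e' s)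

/-- the peripheral subgroups correspond to each other -/
def Pair (a b : ℤ) (m N₁ : ℕ) : Prop := m ∣ N₁ ∧ N₁ ≠ 0 ∧
  ∀ Ψ : NatBij (Gam a b m) (Gam a b m), Ps Ψ → ∀ (Q : Type) [Group Q] [Finite Q]
  (θ : Gam a b m →* Q), (∀ e', Prm e' → ∃ e, VD Ψ θ N₁ e e') ∧ ∀ e, Prm e → ∃ e', VD Ψ θ N₁ e e'

/-- [CG S pair] PAIR. (Uses `S_ex`.)

Proof. `Ps Ψ` implies `RhoG` (`C = rdq h`, `E = rdq h⁻¹`), and `Ps Ψ.symm` (if `rdq k x = h (Ψ (rdq k)) x h⁻¹` for all `x`, i.e. `Ψ (rdq k) = h⁻¹ (rdq k) h`, then `Ψ (h (rdq k) h⁻¹) = rdq k` by naturality, `Ψ.symm (rdq k) = h (rdq k) h⁻¹`; take `h⁻¹`). The second claim is the first claim for `Ψ.symm` and `Ψ.toFun Q θ`. First claim: write `u(e, x)` as in `S_ex`, `w = wq a b ℤ`, `n = 3 m k₀ (-a)` (`nq w = -a`), `θ' = θ.prod (rdq n)`; `θ₃` from `S_ex` for `s = k₀ w`, `θ'`; `θ₂` from `CZ` for `θ₃`;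
`θ₄ = (θ', θ₃, θ₂)`; `θ₅` from `S_ex` for `s = 1`, `θ₄`. (1) `FPU` for `θ₅`, `u(e', 1)` (`Unip`: `tv (colG g 0) t = g * eU t * g⁻¹`, `p_Vtv`, `eU_eq_tv`): `p = g eU(x) g⁻¹ ∈ Gam a b m`, so `x = m x'`, `p = u(e, x')` with `e = colG g 0`. `S_ex`: `θ₄ u(e, v²) = (Ψ θ₄) u(e', 1)`, and `u(e, v²) = u(v • e, 1)`; replace `e` by `v • e`: `θ₄ u(e, 1) = (Ψ θ₄) u(e', 1)`. (2) Let `q ∈ Gam a b m` with `θ₄ q = (Ψ θ₄) u(e', w)`
(`NatBij.range_eq`). `u(e', w)`, `u(e', 1)` commute, so `θ₄ q`, `θ₄ u(e, 1)` commute, so `θ₂ q`, `θ₂ u(e, 1)`; `CZ`: there is `x` with `θ₃ u(e, x) = θ₃ q ^ k₀ = (Ψ θ₃) (u(e', w) ^ k₀) = (Ψ θ₃) u(e', k₀ w)`. `S_ex`: `θ' u(e, k₀ w v²) = (Ψ θ') u(e', k₀ w)`. (3) `h` from `Ps Ψ` for `n`, `f = h e`: modulo `n` `tv f m = tv e' m` and `tv f (m k₀ w v²) = tv e' (m k₀ w)`; the entries: `m f_i f_j = m e'_i e'_j`, `m k₀ w v² f_i f_j = m k₀ w e'_i e'_j`,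
so `n ∣ m k₀ w (v² - 1) e'_i e'_j`, `e'` is primitive, `n ∣ m k₀ w (v² - 1)`, and `3 ∣ v² - 1` (`- a = w * cjq w`), `v² = 1` (`CgF.un`). (4) So `θ u(e, k₀ w) = (Ψ θ) u(e', k₀ w)`, `θ u(e, 1) = (Ψ θ) u(e', 1)`. For `t = i + j w`: `tv e (m k₀ t) = u(e, 1) ^ (k₀ i) * u(e, k₀ w) ^ j`. -/
def S_pair : Prop := ∀ (a b : ℤ), b ^ 2 + 4 * a < 0 → IsPrincipalIdealRing (Qf a b ℤ) →
  Five a b → Group.FG (GQ a b) → CgF a b → ∀ m : ℕ, 3 ≤ m → NuH a b m → FPU a b m →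
  ∀ k₀ : ℕ, k₀ ≠ 0 → CZ a b m k₀ → Pair a b m (m * k₀)

end

end Pool.Agent.F8.CG
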