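import Pool.Agent.Lib.MP_305fdd_al.F8.CG.StmS2

/-!
# MP_305fdd_al, congruence subgroups: block S, the sign, part 3 (comparison)

Let `Ψ : NatBij Γ(m) Γ(m)` be locally the conjugation with elements of `SL₂(ℤ[w])`, `Gd Ψ n h`: `h` is such an element for the modulus `n`. If `tv e (T t)` (first group) corresponds to `tv e' (T t)` (second group) in a fine quotient then `h e = μ e'` modulo `k` with `μ² = 1`. THEOREM (`S_sm`, `SM`): up to the sign `μ` does not depend on `e`, `e'`.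
The proof: transport of crossed homomorphisms (`S_tr`), the certificate (`Cert`) and the crossed homomorphism of `Edge` give the claim for the pairs `γ (1, 0)`, `γ e'` (`S_inn`), and these pairs connect all primitive vectors (`S_con`).
CONSEQUENCE (`S_cm1`): the elements `τ` of `PGL₂(K)` which describe the action of `Λ` are in `Γ`.
-/

set_option autoImplicit false

namespace Pool.Agent.F8.CG

open Pool.Agent.F8.BG Pool.Agent.MP_305fdd_al Pool.Agent.Lib.MP_305fdd_al Pool.Agent.F8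
open scoped QuadraticAlgebra ComplexConjugate

noncomputable section

/-- `Ψ` is the conjugation with `h` modulo `n`. -/
def Gd {a b : ℤ} {m : ℕ} (Ψ : NatBij (Gam a b m) (Gam a b m)) (n : ℕ) [NeZero n]
    (h : GQ a b) : Prop :=
  ∀ x : Gam a b m, rdq a b n x = rdq a b n h *
    Ψ.toFun _ ((rdq a b n).comp (Gam a b m).subtype) x * (rdq a b n h)⁻¹

/-- `θ` is finer than the reduction modulo `n`. -/
def RfN {a b : ℤ} {m : ℕ} (Ψ : NatBij (Gam a b m) (Gam a b m)) {Q : Type} [Group Q] [Finite Q]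
    (θ : Gam a b m →* Q) (n : ℕ) [NeZero n] : Prop :=
  ∀ x y : Gam a b m, θ x = Ψ.toFun Q θ y →
    rdq a b n x = Ψ.toFun _ ((rdq a b n).comp (Gam a b m).subtype) y

/-- basic facts about corresponding elements -/
structure VdF (a b : ℤ) (m : ℕ) : Prop where
  gdm : ∀ (Ψ : NatBij (Gam a b m) (Gam a b m)) (n n' : ℕ) [NeZero n] [NeZero n'] (h : GQ a b),
    n' ∣ n → Gd Ψ n h → Gd Ψ n' h
  rfr : ∀ (Ψ : NatBij (Gam a b m) (Gam a b m)) (n : ℕ) [NeZero n],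
    RfN Ψ ((rdq a b n).comp (Gam a b m).subtype) n
  rfd : ∀ (Ψ : NatBij (Gam a b m) (Gam a b m)) (Q : Type) [Group Q] [Finite Q]
    (θ : Gam a b m →* Q) (n n' : ℕ) [NeZero n] [NeZero n'], n' ∣ n → RfN Ψ θ n → RfN Ψ θ n'
  rfp : ∀ (Ψ : NatBij (Gam a b m) (Gam a b m)) (Q Q' : Type) [Group Q] [Finite Q] [Group Q']
    [Finite Q'] (θ : Gam a b m →* Q) (θ' : Gam a b m →* Q') (n : ℕ) [NeZero n],
    RfN Ψ θ n ∨ RfN Ψ θ' n → RfN Ψ (θ.prod θ') n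
  vdp : ∀ (Ψ : NatBij (Gam a b m) (Gam a b m)) (Q Q' : Type) [Group Q] [Finite Q] [Group Q']
    [Finite Q'] (θ : Gam a b m →* Q) (θ' : Gam a b m →* Q') (T : ℕ) (e e' : Fin 2 → Qf a b ℤ),
    VD Ψ (θ.prod θ') T e e' → VD Ψ θ T e e' ∧ VD Ψ θ' T e e'
  vdm : ∀ (Ψ : NatBij (Gam a b m) (Gam a b m)) (Q : Type) [Group Q] [Finite Q]
    (θ : Gam a b m →* Q) (T T' : ℕ) (e e' : Fin 2 → Qf a b ℤ), T ∣ T' → VD Ψ θ T e e' →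
    VD Ψ θ T' e e'
  vdu : ∀ (Ψ : NatBij (Gam a b m) (Gam a b m)) (Q : Type) [Group Q] [Finite Q]
    (θ : Gam a b m →* Q) (T : ℕ) (e e' : Fin 2 → Qf a b ℤ) (u : Qf a b ℤ), IsUnit u →
    VD Ψ θ T e e' → VD Ψ θ T (u • e) (u • e')
  vdc : ∀ (Ψ : NatBij (Gam a b m) (Gam a b m)) (Q : Type) [Group Q] [Finite Q]
    (θ : Gam a b m →* Q) (T : ℕ) (e e' : Fin 2 → Qf a b ℤ) (w w' : Gam a b m),
    θ w = Ψ.toFun Q θ w' → VD Ψ θ T e e' →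
    VD Ψ θ T (w.val.val.mulVec e) (w'.val.val.mulVec e')
  mu : ∀ (Ψ : NatBij (Gam a b m) (Gam a b m)) (Q : Type) [Group Q] [Finite Q]
    (θ : Gam a b m →* Q) (T k n : ℕ) [NeZero n] (h : GQ a b) (e e' : Fin 2 → Qf a b ℤ),
    k * T ∣ n → RfN Ψ θ n → Gd Ψ n h → VD Ψ θ T e e' →
    ∃ μ : Qf a b ℤ, Cgr k (h.val.mulVec e) (μ • e') ∧ (k : Qf a b ℤ) ∣ μ ^ 2 - 1
  cj : ∀ (Ψ : NatBij (Gam a b m) (Gam a b m)) (Q : Type) [Group Q] [Finite Q]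
    (θ : Gam a b m →* Q) (n : ℕ) [NeZero n] (h : GQ a b) (w w' : Gam a b m) (v : Fin 2 → Qf a b ℤ),
    RfN Ψ θ n → Gd Ψ n h → θ w = Ψ.toFun Q θ w' →
    Cgr n (h.val.mulVec (w.val.val.mulVec v)) (w'.val.val.mulVec (h.val.mulVec v))

/-- [CG S vd] corresponding elements. (Cite `p_Vtv`.)

Proof. gdm: naturality of `Ψ` for the reduction from `n` to `n'` (as in `SW.ex_loc` in `MainW1.lean`). rfr: by definition. rfd: naturality. rfp, vdp: `pair_prod`. vdm: `tv e (T' t) = tv e (T (c t))`, `T' = T c`. vdu: `tv (u • e) x = tv e (u² x)`. vdc: `w (tv e x) w⁻¹ = tv (w e) x`, apply `θ` and `Ψ θ`. mu: `T ≠ 0` because `T ∣ n ≠ 0`; `f = h e` is primitive. For `t = 1`: `rdq n (tv e' T) = rdq n (h * tv e T * h⁻¹) = rdq n (tv f T)`, so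
`n ∣ T (f_i f_j - e'_i e'_j)` (the entries of `tv e' T` are `T e'_i e'_j` up to sign and the summand `1`), `k ∣ f_i f_j - e'_i e'_j` (`BG.E_ker`). Let `γ f_0 + δ f_1 = 1`, `μ = γ e'_0 + δ e'_1`: `μ e'_i = γ f_0 f_i + δ f_1 f_i = f_i` and `μ² = γ² f_0² + 2 γ δ f_0 f_1 + δ² f_1² = 1` modulo `k`. cj: `rdq n (h w h⁻¹) = rdq n h * rdq n w * (rdq n h)⁻¹ = rdq n w'` (`RfN`, `Gd`). -/
def S_vd : Prop := ∀ (a b : ℤ) (m : ℕ), b ^ 2 + 4 * a < 0 → CgF a b → VdF a b m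

/-- [CG S tr] transport of crossed homomorphisms.

Proof. `π = (rdq N).comp (Gam a b m).subtype`, `π' = Ψ.toFun _ π`; by `Ps Ψ` at `N`: `π' x = 1` iff `rdq N x = 1`. So `π.ker` and `π'.ker` are the subgroups of `Gam a b m` of the elements of `Gam a b N`. Let `K = Qf a b (ZMod n)`, `E` the finite group of the pairs `(v, g)`, `v : Fin 2 → K`, `g : SL2 K` (see `P_CCcd.lean`), `ψ : π.ker →* E`, `ψ x = (z x, rdq n x)`. `Cor.exists Ψ` (for `S = ⊥`, `F8/Tower.lean`; `MonoidHom.comap_bot`) gives `ψ' : π'.ker →* E` and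
`θ₁ : Gam a b m →* E₁` with `θ₁ p = (Ψ θ₁) x → ψ p = ψ' x`. `θ = θ₁`. Write `ψ' x = (z'' x, σ x)`. `σ x = (Ψ (rdq n)) x`: by `pair_val` there is `p` with `θ₁ p = (Ψ θ₁) x`, `rdq n p = (Ψ (rdq n)) x`, and `π p = (Ψ π) x = 1` (use the product of `θ₁`, `rdq n` and `π`). Let `Gd Ψ n h`: `σ x = h⁻¹ (rdq n x) h`; `z' x = h z'' x`: `z' (x y) = h z'' x + h σ x z'' y = z' x + (rdq n x) z' y`. -/
def S_tr : Prop := ∀ (a b : ℤ) (m N n : ℕ) [NeZero N] [NeZero n], m ∣ N →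
  ∀ Ψ : NatBij (Gam a b m) (Gam a b m), Ps Ψ →
  ∀ z ∈ Z1S N (Qfm a b (Int.castRingHom (ZMod n))),
  ∃ (Q : Type) (_ : Group Q) (_ : Finite Q) (θ : Gam a b m →* Q), ∀ h : GQ a b, Gd Ψ n h →
  ∃ z' ∈ Z1S N (Qfm a b (Int.castRingHom (ZMod n))), ∀ (p x : Gam a b N)
  (hp : p.val ∈ Gam a b m) (hx : x.val ∈ Gam a b m),
  θ ⟨p.val, hp⟩ = Ψ.toFun Q θ ⟨x.val, hx⟩ → z' x = (rdq a b n h).val.mulVec (z p)

/-- uniqueness of the corresponding vector -/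
def Uq {a b : ℤ} {m : ℕ} (Ψ : NatBij (Gam a b m) (Gam a b m)) (k T : ℕ) : Prop :=
  ∃ (Q : Type) (_ : Group Q) (_ : Finite Q) (θ : Gam a b m →* Q),
  ∀ e e' e'', VD Ψ θ T e e' → VD Ψ θ T e e'' → Cgr k e' e'' ∨ Cgr k e' ((-1 : Qf a b ℤ) • e'')

/-- [CG S uq] uniqueness.

Proof. `N = 3 m M₀ k T`, `J` from `CgF.fin` for `N`. For `j ∈ J` let `z_j` be from `Cls` (`e = j`), `b_j = BV j z_j ≠ 0`; `n₁ = 2 N ∏ nq(b_j)`, `n = N n₁`. For `j ∈ J` the pairs `(z_j, rdq n)` modulo `n` are a homomorphism from `Gam a b N` to a finite group `E` (see `P_CCcd.lean`); `Gam a b N` has finite index in `Gam a b m`, so there is a homomorphism `θ_j` from `Gam a b m` to a finite group such that `θ_j x = θ_j y`, `x, y ∈ Gam a b N` imply `z_j x = z_j y` modulo `n` (the quotient by the normal core of the kernel, see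
the proof of `Cor.exists` in `F8/Tower.lean`). `θ₀ = (rdq n, θ_j (j ∈ J))`, `θ = Ψ.symm.toFun _ θ₀`, so `Ψ θ = θ₀`. Let `VD Ψ θ T e e'`, `VD Ψ θ T e e''`, `p' = tv e' N`, `p'' = tv e'' N`; `N` is a multiple of `T`, so `θ₀ p' = θ (tv e N) = θ₀ p''`. (1) From `rdq n`: `n ∣ N (e'_i e'_j - e''_i e''_j)`, `n₁ ∣ e'_i e'_j - e''_i e''_j`, so there is `v` with `e' = v e''`, `v² = 1` modulo `n₁` (as in `S_vd`, mu: `v = γ e''_0 + δ e''_1` with `γ e'_0 + δ e'_1 = 1`).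
(2) Let `j ∈ J`, `Cgr N e' j`: `e' = w j`, `w ∈ Gam a b N` (`CgF.cgr`), so `ω(e', z_j p') = BV e' z_j = BV j z_j = b_j` (`BvF.inv`, `uD N e' 1 = tv e' N`). `z_j p' = z_j p''` modulo `n`, so `b_j = ω(v e'', z_j p'') = v BV e'' z_j` modulo `n₁`. If `e''` is not congruent to a unit multiple of `j` modulo `N` then `BV e'' z_j = 0` and `2 nq(b_j) ∣ n₁ ∣ b_j`, impossible (norms). So `Cgr N e'' (u • j)`, `u` a unit, and `e'' = u e'` modulo `N` (`j = e'`).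
(3) `e' = v e'' = v u e'` modulo `N` (`N ∣ n₁`), `e'` is primitive, so `N ∣ v u - 1`, `N ∣ u² - 1` (`v² = 1`), `u = ± 1` (`CgF.sq`), so `e'' = ± e'` modulo `N`, and `k ∣ N`. -/
def S_uq : Prop := ∀ (a b : ℤ), b ^ 2 + 4 * a < 0 → IsPrincipalIdealRing (Qf a b ℤ) →
  CgF a b → BvF a b → ∀ M₀ : ℕ, 3 ≤ M₀ → Cls a b M₀ → ∀ m : ℕ, m ≠ 0 →
  ∀ Ψ : NatBij (Gam a b m) (Gam a b m), ∀ k T : ℕ, k ≠ 0 → T ≠ 0 → Uq Ψ k T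

/-- [CG S ar] arithmetic.

Proof. Let `B = ∏ nq (X² - ρ²)` over the `X ∈ S` with `X² ≠ ρ²`, `k₁ = 2 k nq(ρ) B`. Let `X`, `μ`, `μ'` be given. Modulo `k₁`: `ρ² = ρ² μ² = X² μ'² = X²`. If `D = X² - ρ² ≠ 0` then `2 nq D ∣ k₁ ∣ D`, so `4 (nq D)² ≤ nq D`, a contradiction. So `X = ρ` or `X = -ρ` (a domain, `BG.Qf_domain`), and `k₁ ∣ ρ (μ ∓ μ')`; multiply with `cjq ρ` (`BG.mul_cjq`): `k nq(ρ) ∣ nq(ρ) (μ ∓ μ')`. -/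
def S_ar : Prop := ∀ (a b : ℤ), b ^ 2 + 4 * a < 0 → ∀ (S : Finset (Qf a b ℤ)) (ρ : Qf a b ℤ)
  (k : ℕ), ρ ≠ 0 → k ≠ 0 → ∃ k₁ : ℕ, k₁ ≠ 0 ∧ k ∣ k₁ ∧ ∀ X ∈ S, ∀ μ μ' : Qf a b ℤ,
  (k₁ : Qf a b ℤ) ∣ μ ^ 2 - 1 → (k₁ : Qf a b ℤ) ∣ μ' ^ 2 - 1 →
  (k₁ : Qf a b ℤ) ∣ ρ * μ - X * μ' → (k : Qf a b ℤ) ∣ μ - μ' ∨ (k : Qf a b ℤ) ∣ μ + μ'

/-- The numbers `μ` of `e` and `e₁` agree up to the sign. -/
def Rel {a b : ℤ} {m : ℕ} (Ψ : NatBij (Gam a b m) (Gam a b m)) {Q : Type} [Group Q] [Finite Q]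
    (θ : Gam a b m →* Q) (T k : ℕ) (h : GQ a b) (e e₁ : Fin 2 → Qf a b ℤ) : Prop :=
  ∀ f f₁, VD Ψ θ T e f → VD Ψ θ T e₁ f₁ → ∀ μ μ₁ : Qf a b ℤ, Cgr k (h.val.mulVec e) (μ • f) →
  Cgr k (h.val.mulVec e₁) (μ₁ • f₁) → (k : Qf a b ℤ) ∣ μ - μ₁ ∨ (k : Qf a b ℤ) ∣ μ + μ₁

/-- [CG S inn] the edges. (Uses `S_tr`, `S_ar`; cite `p_Vtv`.)

Notation: `R = ℤ[w]`, `e₀ = (1, 0)`, `z₀` the crossed homomorphism of `Edge`, `J`, `c`, `α` from `Cert`; `u(e, x) = uD N _ e x = tv e (N x)`. `e₀` is not congruent to `u • ε` modulo `N` (otherwise `N₀ ∣ u ε₁`, but `ε₁` is prime to `N₀ ≥ 2`), so `BV e₀ z₀ = 0` and `RV e₀ z₀ = r • e₀`, `r ≠ 0` (`BvF.rv`). `β = BV ε z₀`. For `i ∈ J` let `g_i` be a row vector with `g_i · i = 1` (`i` primitive). Let `C = {0} ∪ {± u³ | u a unit} ⊆ R` (finite: the units are finite in number, `p_Jun`),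
`S = {β ∑_(j ∈ J) c_j (g_i · α i j) | i ∈ J, c_j ∈ C}` (finite), `ρ = c r`, `k₁` from `S_ar`; `n = k₁ N`. Let `γ_1, ..., γ_s` be representatives of the classes `(Gam a b N) γ` in `GQ a b`, `z_i` the translate of `z₀` by `γ_i` (`BvF.tra`): `BV (γ_i e) z_i = BV e z₀`, `RV (γ_i e) z_i = γ_i RV e z₀`. `θ` is the product of `rdq n`, of the quotient of `Uq Ψ k₁ N`, and of the quotients of `S_tr` for `z_i` modulo `k₁` (`i = 1, ..., s`; `z_i` composed with the reduction is in `Z1S N (Qfm ..)`).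
Let `h` satisfy `Gd Ψ n h`, so `Gd Ψ k₁ h`. Let `γ = w γ_i`, `w ∈ Gam a b N`, `e = γ e₀`, `e₁ = γ ε`, `VD Ψ θ N e f`, `VD Ψ θ N e₁ f₁`. It is enough to prove the claim for numbers `μ`, `μ₁` with `h e = μ f`, `h e₁ = μ₁ f₁`, `μ² = μ₁² = 1` modulo `k₁` (they exist by `VdF.mu`, and two numbers `μ` for `k`, `k₁` agree modulo `k` because `f` is primitive). Let `K = Qf a b (ZMod k₁)`; equations are in `K`. `z'` from `S_tr` for `z_i`.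
(1) `RV e z_i = w RV (γ_i e₀) z_i = w γ_i (r • e₀) = r • e`. `u(f, 1)`, `u(f, w_q)` correspond to `u(e, 1)`, `u(e, w_q)` (`w_q = wq a b ℤ`), so `RV f z' = h RV e z_i = r • h e = r μ f`. (2) Let `j ∈ J`. By `Pair` (and `VdF.vdm`, `N₁ ∣ N`) there is `g` with `VD Ψ θ N g j`; `μ_j` with `h g = μ_j j`, `μ_j² = 1` (`VdF.mu`). `BV j z' = ω(j, h (z_i u(g, 1))) = μ_j ω(h g, h (z_i u(g, 1))) = μ_j BV g z_i`. (3) `BV g z_i = BV (γ_i⁻¹ g) z₀`. If `γ_i⁻¹ g` is not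
congruent to any `u • ε` modulo `N` it is zero. Otherwise `Cgr N g (u • γ_i ε)`, so `Cgr N g (u • e₁)` (`e₁ = w γ_i ε`), `g = w₁ (u • e₁)` with `w₁ ∈ Gam a b N` (`CgF.cgr`), and `BV g z_i = BV (u • e₁) z_i = u³ BV e₁ z_i = u³ BV (γ_i ε) z_i = u³ β` (`BvF.inv`, `BvF.mul` over `R`). Let `w₁'` with `θ w₁ = (Ψ θ) w₁'` (`NatBij.range_eq`, for `Ψ.symm`): `VD Ψ θ N g (w₁' (u • f₁))` (`VdF.vdc`, `VdF.vdu`), and `Uq`: `j = ± w₁' (u • f₁)` modulo `k₁`.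
`μ_j j = h g = h w₁ (u • e₁) = w₁' (u • h e₁) = w₁' (u • μ₁ f₁) = ± μ₁ j` (`VdF.cj`; `k₁ ∣ n`), so `μ_j = ± μ₁` (`j` primitive). So in all cases `BV j z' = c_j β μ₁` with `c_j ∈ C`. (4) Let `i' ∈ J` with `Cgr N f i'`, `f = w₂ i'`, `w₂ ∈ Gam a b N`. `w₂ RV i' z' = RV f z' = r μ f = r μ w₂ i'`, so `RV i' z' = r μ i'`. `Cert`: `c r μ i' = ∑_j BV j z' α i' j = β μ₁ ∑_j c_j α i' j`. Multiply with `g_(i')`: `ρ μ = X μ₁` in `K` with `X ∈ S`. `S_ar`. -/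
def S_inn : Prop := ∀ (a b : ℤ), b ^ 2 + 4 * a < 0 → IsPrincipalIdealRing (Qf a b ℤ) →
  Finite (Qf a b ℤ)ˣ → CgF a b → BvF a b → ∀ m : ℕ, m ≠ 0 → VdF a b m → ∀ N₁ : ℕ,
  Pair a b m N₁ → ∀ Ψ : NatBij (Gam a b m) (Gam a b m), Ps Ψ → ∀ N N₀ : ℕ, N ≠ 0 → N₁ ∣ N →
  N₀ ∣ N → 2 ≤ N₀ → Cert a b N → (∀ k : ℕ, k ≠ 0 → Uq Ψ k N) → ∀ ε, Edge a b N₀ N ε →
  ∀ k : ℕ, k ≠ 0 → ∃ (n : ℕ) (_ : NeZero n) (Q : Type) (_ : Group Q) (_ : Finite Q)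
  (θ : Gam a b m →* Q), ∀ h : GQ a b, Gd Ψ n h → ∀ γ : GQ a b,
  Rel Ψ θ N k h (γ.val.mulVec ![1, 0]) (γ.val.mulVec ε)

/-- [CG S con] connectivity. (Cite `p_Vgen`, `p_Vtv`.)

Proof. `e₀ = (1, 0)`. `S = {γ | ∀ δ, r (δ e₀) (δ γ e₀)}` is a subgroup of `GQ a b`: products by `trans` (apply the property of `γ'` to `δ γ`), inverses by `symm` (apply it to `δ γ⁻¹`), `1` by `gam` for `w = 1`. `S` contains: (1) the `γ` with `γ e₀ = e₀`, in particular `eU x`; (2) the `γ` with `γ ε = ε`: `r (δ e₀) (δ ε)`, and `δ ε = δ γ ε`, `r (δ γ e₀) (δ γ ε)`; (3) `w ∈ Gam a b m`: `δ w e₀ = (δ w δ⁻¹) δ e₀`. Claim: `S = ⊤`. `eV x ∈ S` for all `x`: `ε₁` is a unit modulo `m`, so there is `t` with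
`ε_0 + t ε_1` divisible by `m`, `eU t ε = (m y, ε_1)`. `eU t * tv ε s * (eU t)⁻¹ = tv (m y, ε_1) s ∈ S` (`eU t ∈ S`, `tv ε s` fixes `ε`), and it is congruent to `eV (- s ε_1²)` modulo `m`, so it is `eV (- s ε_1²)` times an element of `Gam a b m`; and `- s ε_1² = x` modulo `m` is solvable, `eV x = eV (- s ε_1²) eV (m y')`. `GQ a b` is generated by the `eU x` and `mS` (`V_gen`), and `mS = eU (-1) * eV 1 * eU (-1)` or a similar formula. Finally every primitive vector is `γ e₀`, so `r e₀ e` for all primitive `e`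
(`δ = 1`), and `symm`, `trans`. -/
def S_con : Prop := ∀ (a b : ℤ), b ^ 2 + 4 * a < 0 → Eu a b → CgF a b → ∀ (m : ℕ)
  (ε : Fin 2 → Qf a b ℤ), m ≠ 0 → Prm ε → IsCoprime (ε 1) (m : Qf a b ℤ) →
  ∀ r : (Fin 2 → Qf a b ℤ) → (Fin 2 → Qf a b ℤ) → Prop,
  (∀ e f, Prm e → Prm f → r e f → r f e) →
  (∀ e f g, Prm e → Prm f → Prm g → r e f → r f g → r e g) →
  (∀ w ∈ Gam a b m, ∀ e, Prm e → r e (w.val.mulVec e)) →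
  (∀ γ : GQ a b, r (γ.val.mulVec ![1, 0]) (γ.val.mulVec ε)) →
  ∀ e f, Prm e → Prm f → r e f

/-- The number `μ` does not depend on the unipotent elements, up to the sign. -/
def SM {a b : ℤ} {m : ℕ} (Ψ : NatBij (Gam a b m) (Gam a b m)) : Prop :=
  ∀ k T : ℕ, k ≠ 0 → T ≠ 0 → ∃ (n : ℕ) (_ : NeZero n) (Q : Type) (_ : Group Q) (_ : Finite Q)
  (θ : Gam a b m →* Q), ∀ h : GQ a b, Gd Ψ n h → ∃ μ : Qf a b ℤ, (k : Qf a b ℤ) ∣ μ ^ 2 - 1 ∧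
  ∀ e e', VD Ψ θ T e e' → Cgr k (h.val.mulVec e) (μ • e') ∨ Cgr k (h.val.mulVec e) ((-μ) • e')

/-- [CG S sm] MAIN RESULT of part 3. (Uses `S_inn`, `S_con`.)

Proof. Let `k`, `T` be given. `N₀ = 3 m N₁ T` (`≥ 2`), `N`, `ε` from the hypothesis (`hed`). `θ` is the product of the quotient of `S_inn` for `N`, `N₀`, `k` (with the modulus `n₁`), of the quotient of `Uq Ψ k N`, and of `rdq n`, `n = n₁ k N`. Let `Gd Ψ n h`, so `Gd Ψ n₁ h`. Let `r e f = Rel Ψ θ N k h e f`. (1) symmetric: clear. (2) transitive: let `r e f`, `r f g`, `VD e e'`, `VD g g'`, `μ`, `μ'` be given; by `Pair` and `VdF.vdm` there is `f'` with `VD Ψ θ N f f'`, and `μ_f` with `Cgr k (h f) (μ_f • f')` (`VdF.mu`).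
`μ = ± μ_f = ± μ'` modulo `k`. (3) `r e (w e)` for `w ∈ Gam a b m`: let `VD e f`, `VD (w e) f₁`, `h e = μ f`, `h w e = μ₁ f₁` modulo `k`. Let `w'` with `θ w = (Ψ θ) w'`; `VD (w e) (w' f)` (`VdF.vdc`), `Uq`: `f₁ = ± w' f` modulo `k`; `h w e = w' h e = μ w' f` (`VdF.cj`), so `μ₁ f₁ = ± μ f₁` and `μ₁ = ± μ` (`f₁` primitive). (4) `r (γ e₀) (γ ε)`: `S_inn` (`VD` for `θ` implies `VD` for the factor, `VdF.vdp`). `S_con` (`ε_1` is prime to `N₀`, so to `m`): `r e f` for all primitive `e`, `f`.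
Let `VD Ψ θ N e₀ f₀` (`Pair`), `μ` with `Cgr k (h e₀) (μ • f₀)`, `k ∣ μ² - 1` (`VdF.mu`). If `VD Ψ θ T e e'` then `VD Ψ θ N e e'` (`T ∣ N`), `h e = μ' e'` modulo `k` (`VdF.mu`), `μ' = ± μ` modulo `k`. -/
def S_sm : Prop := ∀ (a b : ℤ), b ^ 2 + 4 * a < 0 → Eu a b → IsPrincipalIdealRing (Qf a b ℤ) →
  Finite (Qf a b ℤ)ˣ → CgF a b → BvF a b → ∀ m : ℕ, m ≠ 0 → VdF a b m → ∀ N₁ : ℕ,
  Pair a b m N₁ → ∀ Ψ : NatBij (Gam a b m) (Gam a b m), Ps Ψ → (∀ N : ℕ, N ≠ 0 → Cert a b N) →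
  (∀ k T : ℕ, k ≠ 0 → T ≠ 0 → Uq Ψ k T) → (∀ N₀ : ℕ, N₀ ≠ 0 → ∃ (N : ℕ) (ε : Fin 2 → Qf a b ℤ),
    N ≠ 0 ∧ N₀ ∣ N ∧ Edge a b N₀ N ε) → SM Ψ

/-! ### The action of `Λ` -/

/-- `Ψ` is the bijection of `Γ(m₀)` which is induced by `Φ` and `ρ`. -/
structure PsD {a b : ℤ} {K : Type} [Field K] (φ : Qf a b ℤ →+* K) (Γ : Subgroup (PGK K))
    (m₀ m₁ : ℕ) {Λ : Type} [Group Λ] (Φ : NatBij Γ Λ) (L : Subgroup Λ) (ρ : L →* GQ a b)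
    (Ψ : NatBij (Gam a b m₀) (Gam a b m₀)) : Prop where
  gd : ∀ (k : ℕ) [NeZero k], ∃ h ∈ Gam a b m₁, Gd Ψ k h
  cmp : ∀ (R : Type) [Group R] [Finite R] (θ : Γ →* R) (θ₀ : Gam a b m₀ →* R),
    (∀ (x : Gam a b m₀) (h : pcQ φ x ∈ Γ), θ₀ x = θ ⟨pcQ φ x, h⟩) →
    ∀ (l : L) (h : ρ l ∈ Gam a b m₀), Φ.toFun R θ l = Ψ.toFun R θ₀ ⟨ρ l, h⟩
  ref : ∀ (R : Type) [Group R] [Finite R] (θ₀ : Gam a b m₀ →* R),
    ∃ (R' : Type) (_ : Group R') (_ : Finite R') (θ : Γ →* R'),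
    ∀ (x : Gam a b m₀) (h : pcQ φ x ∈ Γ) (l : L) (h' : ρ l ∈ Gam a b m₀),
    θ ⟨pcQ φ x, h⟩ = Φ.toFun R' θ l → θ₀ x = Ψ.toFun R θ₀ ⟨ρ l, h'⟩

/-- [CG S psi] the bijection of `Γ(m₀)`. (Compare `P_Jdat.lean`.)

Proof. `H` the image of `Gam a b m₀` in `Γ` (`JD.le`), `S = H.map π`; `S.comap π = H` by `JD.ker` (`π x = π (pcQ y)` gives `x (pcQ y)⁻¹ = pcQ y'`), and `S.comap (Φ.toFun Q π) = L` by `JD.memL`. `natBij_sub` gives `Ψ₀ : NatBij H L` with `Ψ₀ (θ.comp H.subtype) = (Φ θ).comp L.subtype`. `e₁ : Gam a b m₀ ≃* H`, `x ↦ pcQ x` (injective by `RepF.pce`: `x = - y` with `x, y ∈ Gam a b m₀` is impossible, `con_neg`), `e₂ : L ≃* Gam a b m₀`, `l ↦ ρ l` (`JD.inj`, `JD.rng`). `Ψ` is `Ψ₀` transported with `e₁`, `e₂` (`natBij_equiv`, `NatBij.symm`):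
`(Ψ θ₀) (ρ l) = (Ψ₀ (θ₀.comp e₁.symm)) l`. cmp: `θ₀.comp e₁.symm = θ.comp H.subtype`. ref: `ψ = θ₀.comp e₁.symm : H →* R`; as in `P_Jdat.lean` (or the proof of `Cor.exists` in `F8/Tower.lean`) there are a finite group `R'` and `θ : Γ →* R'` such that `θ ν = θ ν'` implies `ψ ν = ψ ν'` for `ν, ν' ∈ H`. Let `θ (pcQ x) = (Φ θ) l`: by `pair_val Ψ₀ ψ (θ.comp H.subtype) l` there is `ν ∈ H` with `ψ ν = (Ψ₀ ψ) l`, `θ ν = (Ψ₀ (θ.comp H.subtype)) l = (Φ θ) l = θ (pcQ x)`; so `θ₀ x = ψ (pcQ x) = ψ ν = (Ψ θ₀) (ρ l)`.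
gd: let `k` be given, `R`, `θ`, `h` from `JD.apx`; `x ∈ Gam a b m₀`, `x = ρ l`. By `pair_val Ψ` for `rdq k` and `θ₀ = θ ∘ pcQ` there is `y ∈ Gam a b m₀` with `rdq k y = (Ψ (rdq k)) x` and `θ (pcQ y) = (Ψ θ₀) x = (Φ θ) l` (cmp); so `rdq k x = rdq k (h y h⁻¹)`, which is `rdq k h * (Ψ (rdq k)) x * (rdq k h)⁻¹`. -/
def S_psi : Prop := ∀ (a b : ℤ) (K : Type) [Field K] (φ : Qf a b ℤ →+* K)
  (Γ : Subgroup (PGK K)) (m₀ m₁ : ℕ) (Λ : Type) [Group Λ] (Φ : NatBij Γ Λ) (Q : Type) [Group Q]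
  [Finite Q] (π : Γ →* Q) (L : Subgroup Λ) (ρ : L →* GQ a b), JD φ Γ m₀ m₁ Φ π L ρ → RepF φ →
  ∃ Ψ : NatBij (Gam a b m₀) (Gam a b m₀), PsD φ Γ m₀ m₁ Φ L ρ Ψ

/-- [CG S cm0] comparison, a more precise form of `J_cmp`. (Uses `J_x0`, `J_cj`, `J_pi`: cite `p_Jx0`, `p_Jcj`, `p_Jpi`; adapt `P_Jcmp.lean`.)

Proof. Let `A₁` be the matrix of `IsTh` for `l`, `τ`, `A₁ = g • A`, `A` primitive (`p_Wprim`); `RepQ φ A τ` (smul'), and `(ρ y) A = A (ρ x)` (cancel `g`). For `q ∈ Q` in the range of `π` let `γ_q ∈ Γ` with `π γ_q = q`, `RepQ φ A_q γ_q` with `A_q` primitive (RepF.ex, `W_prim`, smul'); `D_q = det A_q * det A`, `k_q` from `J_x0` for `D_q` and `k`, `k' = ∏ k_q`, `n₀ = m₁ k'`. Let `n`, `θ`, `h`, `γ` be given, `q = π γ`, `γ = γ_q * pcQ n'`, `n' ∈ Gam a b m₀` (ker), so `G = A_q * n'` represents `γ`; it is primitive,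
`det G = det A_q`. `G' = h G h⁻¹` (matrices). As in `P_Jcmp.lean`: let `x : L` with `(Φ π) x = 1`, `y = l x l⁻¹ : L`; `ν ∈ Γ` with `θ ν = (Φ θ) x`, `π ν = 1`, `ν = pcQ z`, `γ ν γ⁻¹ = pcQ z'`, `z, z' ∈ Gam a b m₀`, `θ (pcQ z') = (Φ θ) y`; so `rdq n (ρ x) = rdq n (h z h⁻¹)`, `rdq n (ρ y) = rdq n (h z' h⁻¹)`, `z' G = G z` (`J_cj`). `B = adj G' * A` commutes with `ρ x` modulo `n`. Every `g ∈ Gam a b m₁` is `ρ x` with `(Φ π) x = 1` (rng, `J_pi`, ker').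
For `g = eU m₁`, `eV m₁`: `ScQ k' B`, so `ScQ k_q B`, `det B = D_q`, and `J_x0` gives `B = c • X₁`, `c ≠ 0`, `IsUnit (det X₁)`, `ScQ k X₁`. `det G • A = G' * adj G' * A = c • (G' * X₁)`. `A` and `G' * X₁` are primitive (`∑ c_ij A_ij = 1`; `h`, `h⁻¹`, `X₁`, `n'` are invertible over the ring), so `c ∣ det G` and `det G ∣ c`, `det G = u c`, `u • A = G' * X₁`, `u` a unit. So `A * h = u⁻¹ • (h G h⁻¹ X₁ h) = h * G * X₀`, `X₀ = u⁻¹ • (h⁻¹ X₁ h)`; `ScQ k X₀` (`ScQ.conj` in `MainJ2.lean`). -/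
def S_cm0 : Prop := ∀ (a b : ℤ) (K : Type) [Field K] (φ : Qf a b ℤ →+* K)
  (Γ : Subgroup (PGK K)) (m₀ m₁ : ℕ) (Λ : Type) [Group Λ] (Φ : NatBij Γ Λ) (Q : Type) [Group Q]
  [Finite Q] (π : Γ →* Q) (L : Subgroup Λ) (ρ : L →* GQ a b), JD φ Γ m₀ m₁ Φ π L ρ → RepF φ →
  IsPrincipalIdealRing (Qf a b ℤ) → ∀ l τ, IsTh φ Φ π ρ l τ → ∃ A : MQ a b, RepQ φ A τ ∧
  (∀ x y : L, Φ.toFun Q π x = 1 → (y : Λ) = l * x * l⁻¹ → (ρ y).val * A = A * (ρ x).val) ∧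
  ∀ k : ℕ, k ≠ 0 → ∃ n₀ : ℕ, n₀ ≠ 0 ∧ ∀ n : ℕ, n ≠ 0 → n₀ ∣ n →
  ∀ (R : Type) [Group R] [Finite R] (θ : Γ →* R) (h : GQ a b),
  (∀ (y : L) (x : GQ a b), x ∈ Gam a b m₀ → ∀ hx : pcQ φ x ∈ Γ,
    θ ⟨pcQ φ x, hx⟩ = Φ.toFun R θ y → rdq a b n (ρ y) = rdq a b n (h * x * h⁻¹)) →
  ∀ γ : Γ, θ γ = Φ.toFun R θ l → π γ = Φ.toFun Q π l →
  ∃ G X₀ : MQ a b, RepQ φ G γ.val ∧ IsUnit X₀.det ∧ ScQ k X₀ ∧ h.val * G * X₀ = A * h.val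

/-- [CG S cm1] MAIN RESULT of block S. (Uses `S_cm0`; cite `p_Jnsq`, `p_Jun`, `p_Jpi`, `p_Vtv`.)

Proof. `A` from `S_cm0`, `D = det A ≠ 0`, `f = (1, 0)`, `A f = c • f₁`, `c ≠ 0`, `f₁` primitive (`CgF.dec`; `A f ≠ 0` as `D ≠ 0`); `c ∣ D` (`adj A A f = D f`). `T₁ = N₁ m₁ nq(D)`, `T₁ = D D'` (`D' = N₁ m₁ cjq D`), `T = nq(D² D')` (a positive multiple of `D² D'`; `m₀ ∣ N₁`, so `m₀ ∣ T`). `k = m₀ nq(D)`, `n₀` from `S_cm0` for `k`; `n₁`, `θ₁` from `SM Ψ` for `k`, `T`; `k_s` from `p_Jnsq`; `n = n₀ n₁ 2 T² k_s`. `h ∈ Gam a b m₁` with `Gd Ψ n h` (`PsD.gd`), so `Gd Ψ n₁ h`. `θ₂ = θ₁.prod (rdq n)`, `θ : Γ →* R'` from `PsD.ref` for `θ₂`.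
So (*) `θ (pcQ x) = (Φ θ) y`, `x ∈ Gam a b m₀`, `y ∈ L` implies `θ₁ x = (Ψ θ₁) (ρ y)`, `rdq n x = (Ψ (rdq n)) (ρ y)` and `rdq n (ρ y) = rdq n (h x h⁻¹)`. Let `θ₀ = θ ∘ pcQ : Gam a b m₀ →* R'`; `Pair` for `θ₀`: `e` with `VD Ψ θ₀ N₁ e f`. `γ ∈ Γ` with `θ γ = (Φ θ) l`, `π γ = (Φ π) l` (`pair_val`). `S_cm0`: `G`, `X₀`, `h G X₀ = A h`. `u₀ = det X₀`, `det G = D / u₀`. `G e = c₁ • e₁`, `e₁` primitive, `c₁ ∣ det G ∣ D`. `s = X₀ 0 0`, `X₀ v = s v` modulo `k`.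
(1) Let `t` be in the ring. `x_t = tv e (T₁ t) ∈ Gam a b m₀`, `y_t ∈ L` with `ρ y_t = tv f (T₁ t) ∈ Gam a b m₁` (`JD.rng`), so `(Φ π) y_t = 1` (`p_Jpi`, ker'). `θ (pcQ x_t) = θ₀ x_t = (Ψ θ₀) (ρ y_t) = (Φ θ) y_t` (`VD`, `PsD.cmp`; `T₁` is a multiple of `N₁`). `G (tv e (T₁ t)) = (tv e₁ (x₁ t)) G` with `x₁ = c₁² T₁ / det G = c₁² u₀ D'` (`ω(e, v) det G = ω(G e, G v)`; multiply with `det G` and cancel), so `γ (pcQ x_t) γ⁻¹ = pcQ (tv e₁ (x₁ t))`. In the same way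
`A (tv f (T₁ t)) = (tv f₁ (x' t)) A`, `x' = c² D'`, and `ρ (l y_t l⁻¹) = tv f₁ (x' t)` (`l y_t l⁻¹ ∈ L` as `(Φ π) (l y_t l⁻¹) = 1` (`JD.memL` with `y = 1`); cancel `A`). `θ (pcQ (tv e₁ (x₁ t))) = θ γ (θ (pcQ x_t)) (θ γ)⁻¹ = (Φ θ) (l y_t l⁻¹)`. `tv e₁ (x₁ t) ∈ Gam a b m₀` (`m₀ ∣ D'`). By (*): `θ₁ (tv e₁ (x₁ t)) = (Ψ θ₁) (tv f₁ (x' t))`, `rdq n (tv f₁ (x' t)) = rdq n (tv (h e₁) (x₁ t))`.
(2) As in `S_ex`: `x' = x₁ P²`, `x₁ = x' P'²` modulo `n`. `x₁`, `x'` divide `T` (`c₁² D' ∣ D² D'`) and `T ∣ n`, so `x₁ ∣ x'`, `x' ∣ x₁`, `x' = x₁ t'`, `t'` a unit, and `k_s ∣ t' - P²` (cancel `x₁`: `n / T` is a multiple of `k_s`), so `t' = v²`, `v` a unit: `c² D' = v² c₁² u₀ D'`, `c² = u₀ (v c₁)²`. So `v c₁ ∣ c` (a unique factorization domain: `(v c₁)² ∣ c²`), `c = v c₁ s'`, `s'² = u₀`, `s'` a unit. (3) `T = x₁ T'`: `θ₁ (tv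 e₁ (T t)) = (Ψ θ₁) (tv f₁ (x' T' t)) = (Ψ θ₁) (tv f₁ (v² T t)) = (Ψ θ₁) (tv (v • f₁) (T t))`,
so `VD Ψ θ₁ T e₁ (v • f₁)`, and `VD Ψ θ₁ T e f` by (*) for `tv e (T t)`, `ρ⁻¹ (tv f (T t))` (`N₁ ∣ T`). (4) `SM`: `h e = ± μ f`, `h e₁ = ± μ v f₁` modulo `k`. `A h e = ± μ A f = ± μ c f₁`, and `A h e = h G X₀ e = s h G e = s c₁ h e₁ = ± s c₁ μ v f₁` modulo `k`. `f₁` is primitive, `μ² = 1`: `c = ± s c₁ v` modulo `k`, so `k ∣ v c₁ (s' ∓ s)`, and `m₀ ∣ s' ∓ s` (`c₁ ∣ D ∣ nq D`, `k = m₀ nq(D)`). (5) Let `s = ± s'` modulo `m₀`, `z = (± s')⁻¹ • X₀`: determinant one, and congruent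
to `1` modulo `m₀` (`ScQ k X₀`), so `z ∈ Gam a b m₀`. `A h` represents `τ * pcQ h` and `h G X₀` represents `pcQ h * γ * pcQ z`. So `τ = pcQ h * γ * pcQ z * (pcQ h)⁻¹ ∈ Γ` (`h ∈ Gam a b m₁ ≤ Gam a b m₀`, `JD.le`). -/
def S_cm1 : Prop := ∀ (a b : ℤ) (K : Type) [Field K] (φ : Qf a b ℤ →+* K)
  (Γ : Subgroup (PGK K)) (m₀ m₁ : ℕ) (Λ : Type) [Group Λ] (Φ : NatBij Γ Λ) (Q : Type) [Group Q]
  [Finite Q] (π : Γ →* Q) (L : Subgroup Λ) (ρ : L →* GQ a b), JD φ Γ m₀ m₁ Φ π L ρ → RepF φ →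
  IsPrincipalIdealRing (Qf a b ℤ) → Five a b → CgF a b → VdF a b m₀ →
  ∀ N₁ : ℕ, Pair a b m₀ N₁ → ∀ Ψ : NatBij (Gam a b m₀) (Gam a b m₀),
  PsD φ Γ m₀ m₁ Φ L ρ Ψ → SM Ψ → ∀ l τ, IsTh φ Φ π ρ l τ → τ ∈ Γ

end

end Pool.Agent.F8.CG
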