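import Pool.Agent.Lib.MP_305fdd_al.F8.CG.MainP1

/-!
# MP_305fdd_al, congruence subgroups: block W, from `± Γ(m₀)` to all congruence subgroups

Let `D ≤ SL₂(ℤ[w])` be a congruence subgroup with `-1 ∈ D`, `Γ(m₀) ≤ D`, and let `Λ` correspond to `D` (`Φ : NatBij D Λ`). `L ≤ Λ` is the subgroup which corresponds to
`D ∩ ± Γ(m₀) = ± Γ(m₀)`; the theorem for `± Γ(m₀)` gives `ρ : L → SL₂(ℤ[w])`, injective, with the image `± Γ(m₀)`. An element `l ∈ Λ` acts on `L` by conjugation; this preserves the traces, so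
(`W_sk`) it is the conjugation with a matrix `A`, which can be chosen primitive (`W_prim`), and is a multiple of the local representation of `l` modulo every `k` (`W_loc`), so `det A` is a unit which is a square
modulo every `k`, so it is a square (`W_sq`). This gives `Λ → SL₂(ℤ[w]) / ± 1`. The kernel consists of the `l` which correspond to scalar matrices modulo all `k` (`W_ker`).
-/

set_option autoImplicit false

namespace Pool.Agent.F8.CG

open Pool.Agent.F8.BG Pool.Agent.MP_305fdd_al Pool.Agent.Lib.MP_305fdd_al Pool.Agent.F8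
open scoped QuadraticAlgebra

noncomputable section

/-- [CG W sk] two representations with the same traces are conjugate by a matrix with nonzero determinant (Skolem-Noether).

Proof. Let `x 0 = 1`, `ρ (x 1) = eU m`, `ρ (x 2) = eV m`, `x 3 = x 1 * x 2`; `X i = (ρ (x i)).val`, `Y i = (ρ' (x i)).val`; `G i j = tr (X i * X j) = tr (Y i * Y j)` (symmetric), `δ = det G = - (tr [eU m, eV m] - 2) ^ 2 = - m ^ 8 ≠ 0` (`X_grm`, proved in `P_Xgrm.lean` as `p_Xgrm`; `BG.eUV_tr`; the traces of `ρ'` are those of `ρ`),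
`H = adjugate G`, `X* i = ∑ j, H i j • X j`; then `trace (X* i * X k) = δ` if `i = k` and `0` otherwise. For a matrix `Z` let `A = ∑ i, Y i * Z * X* i`. (1) Let `g : L`. By `X_id4` (`p_Xid4` in `P_Xid4.lean`) for `X` and for `Y`: `δ • (ρ g * X i) = ∑ k, c i k • X k`, `δ • (ρ' g * Y i) = ∑ k, c i k • Y k` with the same coefficients
`c i k = (H *ᵥ (fun j => tr (ρ (g * x i * x j)))) k`. (2) `∑ i, c i k • X* i = δ • X* k * ρ g`: both sides have the same `trace (_ * X l)` for all `l` (namely `δ * c l k`), and a matrix `W` with `trace (W * X l) = 0` for all `l` is zero by `X_id4` (`δ • W = 0`). (3) So `δ • (ρ' g * A) = ∑ i k, c i k • Y k * Z * X* i = δ • (A * ρ g)`, and `δ ≠ 0`.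
(4) For some `Z = Matrix.single k l 1` we have `A ≠ 0`: otherwise, for all `p, k`, `∑ i, (Y i) p k • X* i = 0`, and `trace (_ * X 0)` gives `(Y 0) p k * δ = 0`, but `Y 0 = 1`. (5) `det A ≠ 0`: otherwise let `v ≠ 0` be a column of `adjugate A` (`A ≠ 0`), `A v = 0`; then `A (ρ g v) = ρ' g (A v) = 0` for all `g`; with `ρ g = eU m`, `eV m`: `m v₂ • A e₁ = 0`, `m v₁ • A e₂ = 0`; if `v₂ ≠ 0`
then `A e₁ = 0`, and the same for `v = e₁` gives `A e₂ = 0`, so `A = 0`; similarly if `v₁ ≠ 0`. -/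
def W_sk : Prop := ∀ (a b : ℤ), b ^ 2 + 4 * a < 0 → ∀ (L : Type) [Group L]
  (ρ ρ' : L →* GQ a b) (m : ℕ), m ≠ 0 → Gam a b m ≤ ρ.range → (∀ x, tr (ρ' x) = tr (ρ x)) →
  ∃ A : Matrix (Fin 2) (Fin 2) (Qf a b ℤ), A.det ≠ 0 ∧
    ∀ x, (ρ' x).val * A = A * (ρ x).val

/-- [CG W prim] a matrix over a principal ideal domain is a multiple of a primitive matrix.

Proof. Let `g` be a generator of the ideal of the entries of `A`; `A = g • A'`, `g = ∑ c i j * A i j = g * ∑ c i j * A' i j`, `g ≠ 0`. (`BG.Qf_domain`.) -/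
def W_prim : Prop := ∀ (a b : ℤ), b ^ 2 + 4 * a < 0 → IsPrincipalIdealRing (Qf a b ℤ) →
  ∀ A : Matrix (Fin 2) (Fin 2) (Qf a b ℤ), A.det ≠ 0 →
  ∃ (g : Qf a b ℤ) (A' : Matrix (Fin 2) (Fin 2) (Qf a b ℤ)), g ≠ 0 ∧ A = g • A' ∧
    ∃ c : Fin 2 → Fin 2 → Qf a b ℤ, ∑ i, ∑ j, c i j * A' i j = 1

/-- The matrix `A` intertwines `ρ` and its conjugate by `l`. -/
def Itw {a b : ℤ} {Λ : Type} [Group Λ] {L : Subgroup Λ} (ρ : L →* GQ a b) (l : Λ)
    (A : Matrix (Fin 2) (Fin 2) (Qf a b ℤ)) : Prop :=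
  ∀ x y : L, (y : Λ) = l * x * l⁻¹ → (ρ y).val * A = A * (ρ x).val

/-- [CG W loc] an intertwiner is a multiple of the local representation.

Proof. Let `m = m₀ * k`, `r = rdq a b m`, `Ā` the reduction of `A` modulo `m`. For `x : L` let `y = l * x * l⁻¹ : L`. Modulo `m`: `r (ρ y) = R y = R l * R x * (R l)⁻¹`, `r (ρ x) = R x`, so `B = (R l)⁻¹ * Ā` commutes with all `R x = r (ρ x)`, `x : L`, so with the reductions of `eU m₀`, `eV m₀` (they are in `Gam a b m₀ ≤ ρ.range`). So `m₀ * B 0 1 = 0`, `m₀ * B 1 0 = 0`,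
`m₀ * (B 0 0 - B 1 1) = 0` in `Qf a b (ZMod m)`. An element `z` of `Qf a b (ZMod (m₀ * k))` with `m₀ * z = 0` is zero in `Qf a b (ZMod k)` (coordinates; `ZMod.castHom`). So `B = p • 1` modulo `k` and `A = p • R l` modulo `k`. -/
def W_loc : Prop := ∀ (a b : ℤ) (Λ : Type) [Group Λ] (L : Subgroup Λ) (ρ : L →* GQ a b) (m₀ : ℕ),
  m₀ ≠ 0 → Gam a b m₀ ≤ ρ.range → ∀ (k : ℕ) [NeZero k] (R : Λ →* SL2 (Qf a b (ZMod (m₀ * k)))),
  (∀ x : L, rdq a b (m₀ * k) (ρ x) = R x) → ∀ l : Λ, (∀ x ∈ L, l * x * l⁻¹ ∈ L) →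
  ∀ A : Matrix (Fin 2) (Fin 2) (Qf a b ℤ), Itw ρ l A → ∃ p : Qf a b (ZMod k),
    A.map (Qfm a b (Int.castRingHom (ZMod k))) =
      p • (SLm (Qfm a b (ZMod.castHom (Dvd.intro_left m₀ rfl : k ∣ m₀ * k) (ZMod k))) (R l)).val

/-- [CG W sq] units which are squares modulo all `k` are squares of units.

Proof. `u ≠ 0` (`k = 2`: `p ^ 2` is a unit). (1) `u` is a unit: otherwise take for `k` the norm `nq u` (`u * cjq u = nq u`, `BG.mul_cjq`, `nq_nonneg`, `nq_eq_zero`): `u` is a unit modulo `k`, so `u * v = 1 + k * t = 1 + u * cjq u * t` for some `v`, `t`, so `u` is a unit. (2) The units (norm one): `± 1`, and for `(a, b) = (-1, 0)` also `± w`, for `(a, b) = (-1, -1)` also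
`± w`, `± (1 + w)` (`w ^ 2 = -1 - w`). (Compare `BG/P_aut2.lean`, `BG/P_aut11.lean`, and the files of `D1`, `D7` and `F8` for the units.) `(-1, 0)`: `1 = 1 ^ 2`, `-1 = w ^ 2`, and `w`, `-w` are not squares modulo `5` (`decide`, or: `evq` to `ZMod 5` with `w ↦ 2`). `(-2, 0)`: `-1` is not a square modulo `3` (`w ↦ 1` in `ZMod 3`). `(-1, -1)`: `1 = 1 ^ 2`, `w = (w ^ 2) ^ 2`, `w ^ 2`; `-1`, `-w`,
`- w ^ 2` are not squares modulo `7` (`w ↦ 2` in `ZMod 7`). `(-2, -1)`: `-1` is not a square modulo `4` (`w ↦ 1` in `ZMod 4`: `1 = -2 - 1` modulo `4`). `(-3, 1)`: `-1` is not a square modulo `3` (`w ↦ 1`). -/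
def W_sq : Prop := ∀ (a b : ℤ), Five a b → ∀ u : Qf a b ℤ,
  (∀ (k : ℕ) [NeZero k], ∃ p : Qf a b (ZMod k), IsUnit p ∧
    Qfm a b (Int.castRingHom (ZMod k)) u = p ^ 2) → ∃ v : Qf a b ℤ, IsUnit v ∧ u = v ^ 2

/-- [CG W cen] the centralizer of `Γ(m)`.

Proof. `B` commutes with `eU m` and `eV m`, so `m * B 0 1 = 0`, `m * B 1 0 = 0`, `m * (B 0 0 - B 1 1) = 0`; the ring is a domain (`BG.Qf_domain`) in which `m ≠ 0`; `B = s • 1`, `s ^ 2 = det B = 1`, `s = 1` or `s = -1`. -/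
def W_cen : Prop := ∀ (a b : ℤ), b ^ 2 + 4 * a < 0 → ∀ m : ℕ, m ≠ 0 → ∀ B : GQ a b,
  (∀ x ∈ Gam a b m, x * B = B * x) → B = 1 ∨ B = -1

/-- [CG W tor] groups in the genus of a subgroup of finite index of `F ⋊ ℤ` have no involutions.

Proof. Suppose `l * l = 1`, `l ≠ 1`. There are a finite group `Q` and `f : Δ →* Q` with `q = (Φ f) l ≠ 1` (`Λ` is residually finite: `ResiduallyFinite` gives a homomorphism of `Λ` to a finite group, which is `Φ f` for `f = Φ.invFun ..`); `q * q = 1`. Let `n : Δ → ℤ` be the degree (`nR α`), `n_k` its reduction modulo `k` (`redZ`). (1) `(Φ n_k) l = 0` for all `k ≥ 1`: `y = (Φ n_(2k)) l` satisfies `2 y = 0`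
in `ℤ/2k`, so its image in `ℤ/k`, which is `(Φ n_k) l` by naturality, is zero. (2) `n (Δ) = d ℤ`, `d ≥ 1` (`Δ` has finite index), `n s = d`, `s ∈ Δ`. (3) There is `v ∈ Δ` with `n v = 0` and `f v = q`: let `e ≥ 1` be with `f s ^ e = 1`; for `θ = (f, n_(d e))` to the product there is `x ∈ Δ` with `θ x = (Φ θ) l = (q, 0)` (`NatBij.range_eq`), `n x = d e j`, `v = x * s ^ (- e j)`.
(4) `V = f⁻¹ {1, q}`, of finite index in `Δ`, `F_V = {x ∈ V | n x = 0}`, a subgroup of finite index of the free group `F` (the range of `iR α`; it is isomorphic to its preimage in `F`, free by `subgroupIsFreeOfIsFree`, finitely generated). `f : F_V → {1, q} ≅ ℤ/2` lifts to a homomorphism `κ : F_V → ℤ/4` because `F_V` is free. `V` acts on the finite set of the homomorphisms `F_V → ℤ/4` by conjugation, so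
for `s' ∈ V` with `n s' = d' ≥ 1`, `n (V) = d' ℤ`, there is `j ≥ 1`, even, with `κ (s' ^ j * x * s' ^ (- j)) = κ x` for `x ∈ F_V`. Let `V' = {x ∈ V | j d' ∣ n x}`, `κ' (x * s' ^ (j i)) = κ x` for `x ∈ F_V`: a homomorphism `V' → ℤ/4` (`κ (x y x⁻¹) = κ y` for `x, y ∈ F_V`) whose reduction modulo two is `f` (`j` is even, so `f (s' ^ j) = 1`). (5) `V'` is the preimage of `{1, q} × 0` under
`(f, n_(j d'))`, so with the preimage `Λ'` under `Φ (f, n_(j d'))` there is `Ψ : NatBij V' Λ'`, compatible (`natBij_comap`), and `l ∈ Λ'` by (1). `y = (Ψ κ') l ∈ ℤ/4` satisfies `2 y = 0`, and `y` modulo two is the image of `q` in `ℤ/2`, which is one. Contradiction. -/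
def W_tor : Prop := ∀ (ι : Type) [Finite ι] (α : MulAut (FreeGroup ι)) (Δ : Subgroup (GR α)),
  Δ.FiniteIndex → ∀ (Λ : Type) [Group Λ], Group.ResiduallyFinite Λ →
  ∀ (_ : NatBij Δ Λ) (l : Λ), l * l = 1 → l = 1

/-- [CG W ker] elements of order two which correspond to scalar matrices modulo all `m`. (Uses `W_tor`.)

Proof. Write `r_m = (rdq m).comp D.subtype`. Suppose not. Then there are `m', m''` with `(Φ r_m') l ≠ 1`, `(Φ r_m'') l ≠ -1`, and for `m₃ = m' * m''` we have `(Φ r_m₃) l ≠ ± 1`. Let `m = m₃ * M₁ * 3`. By the hypothesis `(Φ r_m) l = X₁`, `X₁.val = ε • 1`, `ε * ε = 1` (`l * l = 1`, or `det = 1`); `X₁ ≠ ± 1` (its reduction modulo `m₃` is not `± 1`). Let `C = {1, X₁}`, a subgroup of `SL2 (Qf a b (ZMod m))` (`X₁ * X₁ = 1`), `D₂ ≤ D` its preimage under `r_m`, `Λ₂ ≤ Λ` its preimage under `Φ r_m`; `l ∈ Λ₂`;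
`Ψ : NatBij D₂ Λ₂` (`natBij_comap`). `-1 ∉ D₂` (`-1 ≠ 1` because `3 ∣ m`, `-1 ≠ X₁`). If `x ∈ D₂` then `rdq M₁ x` is the reduction of `1` or `X₁`, a scalar matrix `ε' • 1` with `ε' * ε' = 1`, so `x ∈ G₀`. So `η` is injective on `D₂` (`EtaQ.ker`), and its image `Δ` has finite index in `GR α` (`EtaQ.fin`; `D₂` contains `Gam a b (m * m₀)`, so it has finite index in `GQ a b` and in `G₀`; compare `P_Yuni.lean`).
`natBij_equiv` gives `NatBij Δ Λ₂`, and `W_tor` says `l = 1`, so `(Φ r_m₃) l = 1`. -/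
def W_ker : Prop := ∀ (a b : ℤ) (ι : Type) [Finite ι] (α : MulAut (FreeGroup ι)) (N : ℕ)
  (w : ι → List ι) (M : ℕ) (c g : FreeGroup ι) (G₀ : Subgroup (GQ a b)) (η : G₀ →* GR α),
  BG.Dat α N w M c g G₀ η → ∀ M₁ : ℕ, M₁ ≠ 0 →
  (∀ x : GQ a b, (∃ ε : Qf a b (ZMod M₁), ε * ε = 1 ∧ (rdq a b M₁ x).val = ε • 1) → x ∈ G₀) →
  ∀ (D : Subgroup (GQ a b)) (m₀ : ℕ), m₀ ≠ 0 → Gam a b m₀ ≤ D →
  ∀ (Λ : Type) [Group Λ], Group.ResiduallyFinite Λ → ∀ (Φ : NatBij D Λ) (l : Λ), l * l = 1 →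
  (∀ (m : ℕ) [NeZero m], ∃ ε : Qf a b (ZMod m),
    (Φ.toFun _ ((rdq a b m).comp D.subtype) l).val = ε • 1) →
  ∃ s : ℤˣ, ∀ (m : ℕ) [NeZero m],
    (Φ.toFun _ ((rdq a b m).comp D.subtype) l).val = ((s : ℤ) : Qf a b (ZMod m)) • 1

/-- the subgroup `{1, -1}` -/
def pmo (R : Type) [CommRing R] : Subgroup (SL2 R) where
  carrier := {x | x = 1 ∨ x = -1}
  mul_mem' := by
    rintro x y (rfl | rfl) (rfl | rfl)
    · exact Or.inl (one_mul _)
    · exact Or.inr (one_mul _)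
    · exact Or.inr (mul_one _)
    · exact Or.inl (by rw [neg_mul_neg, one_mul])
  one_mem' := Or.inl rfl
  inv_mem' := by
    rintro x (rfl | rfl)
    · exact Or.inl inv_one
    · exact Or.inr (by rw [inv_eq_iff_mul_eq_one, neg_mul_neg, one_mul])

/-- the subgroup of `Λ` which corresponds to `± Γ(m)` -/
def LL {a b : ℤ} {D : Subgroup (GQ a b)} {Λ : Type} [Group Λ] (Φ : NatBij D Λ) (m : ℕ)
    [NeZero m] : Subgroup Λ :=
  (pmo (Qf a b (ZMod m))).comap (Φ.toFun _ ((rdq a b m).comp D.subtype))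

/-- The theorem for `± Γ(m₀)` (conclusion of `rho_ex`). -/
def RhoX (a b : ℤ) (m₀ : ℕ) : Prop := ∀ (Λ : Type) [Group Λ] [Group.FG Λ],
  Group.ResiduallyFinite Λ → ∀ Φ : NatBij (pmS (Gam a b m₀)) Λ, NegZ Φ →
  ∃ ρ : Λ →* GQ a b, RhoG (pmS (Gam a b m₀)).subtype Φ ρ ∧ Gam a b m₀ ≤ ρ.range ∧
    Function.Injective ρ

/-- [CG W sub] the representation of `L ≤ Λ`.

Proof. `π = (rdq a b m₀).comp D.subtype`, `S = pmo _`. `S.comap π` is the set of the `x ∈ D` with `x ∈ pmS (Gam a b m₀)` (`rdq_neg` in `MainP1.lean`), and `pmS (Gam a b m₀) ≤ D`, so there is `e : pmS (Gam a b m₀) ≃* S.comap π`, `(e x).val.val = x.val`. `natBij_comap` gives `Ψ : NatBij (S.comap π) (LL Φ m₀)`, compatible with `Φ`; `Φ' = natBij_equiv e Ψ`. `LL Φ m₀` has finite index in `Λ` (it contains the kernel of a homomorphism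
to a finite group), so it is finitely generated; it is residually finite (a subgroup of `Λ`). `NegZ Φ'`: the element `z` of `NegZ Φ` is in `LL Φ m₀`, because `(Φ π) z = π (-1) = -1`; a homomorphism `f` of `S.comap π` to a finite group extends up to a finite group: see `Cor.exists` in `Tower.lean` (there are a finite group `R`, `θ : D →* R` such that `θ x = θ x'` implies `f x = f x'` for `x, x'` in `S.comap π`, and `θ x = (Φ θ) l`
implies `f x = (Ψ f) l`); with `x = -1`, `l = z`. `RhoG` for `Φ'` is the claim for `C`, `E`: `Φ' ((rdq m).comp subtype) = Ψ (((rdq m).comp D.subtype) restricted) = (Φ ((rdq m).comp D.subtype))` restricted to `LL Φ m₀`. -/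
def W_sub : Prop := ∀ (a b : ℤ), b ^ 2 + 4 * a < 0 → ∀ (m₀ : ℕ) [NeZero m₀], RhoX a b m₀ →
  ∀ D : Subgroup (GQ a b), Gam a b m₀ ≤ D → -1 ∈ D → ∀ (Λ : Type) [Group Λ] [Group.FG Λ],
  Group.ResiduallyFinite Λ → ∀ Φ : NatBij D Λ, NegZ Φ →
  ∃ ρ : LL Φ m₀ →* GQ a b, (∀ (m : ℕ) [NeZero m], ∃ C E : Matrix (Fin 2) (Fin 2) (Qf a b (ZMod m)),
    C * E = 1 ∧ E * C = 1 ∧ ∀ l : LL Φ m₀, (rdq a b m (ρ l)).val =
      C * (Φ.toFun _ ((rdq a b m).comp D.subtype) l).val * E) ∧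
    Gam a b m₀ ≤ ρ.range ∧ Function.Injective ρ

end

end Pool.Agent.F8.CG
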