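import Pool.Agent.Lib.MP_305fdd_al.F8.CG.StmC

/-!
# MP_305fdd_al, congruence subgroups: block Z, the twisted forms of `D`

Without the hypothesis `HZ` the group `Λ` is isomorphic to a twisted form `D^e` of `D`, `e` a unit modulo `m₀` (`Z_gen`); `D^e ≅ D` if `e = u v² det Y`, `u` a unit of `ℤ[w]`, `v` a unit modulo `m₀`, `Y` an invertible matrix modulo `m₀` which normalises `D` modulo `m₀` (`Z_nrm`).
-/

set_option autoImplicit false

namespace Pool.Agent.F8.CG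

open Pool.Agent.F8.BG Pool.Agent.MP_305fdd_al Pool.Agent.Lib.MP_305fdd_al Pool.Agent.F8
open scoped QuadraticAlgebra

noncomputable section

theorem tw_inv {S : Type} [CommRing S] (A B : SL2 S) (T : Matrix (Fin 2) (Fin 2) S)
    (h : A.val * T = T * B.val) : (A⁻¹).val * T = T * (B⁻¹).val := by
  have h1 : (A⁻¹).val * A.val = 1 := by
    rw [← Matrix.SpecialLinearGroup.coe_mul, inv_mul_cancel, Matrix.SpecialLinearGroup.coe_one]
  have h2 : B.val * (B⁻¹).val = 1 := by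
    rw [← Matrix.SpecialLinearGroup.coe_mul, mul_inv_cancel, Matrix.SpecialLinearGroup.coe_one]
  calc (A⁻¹).val * T = (A⁻¹).val * (T * B.val) * (B⁻¹).val := by
        rw [mul_assoc, mul_assoc, h2, mul_one]
    _ = ((A⁻¹).val * A.val) * T * (B⁻¹).val := by
        rw [← h]
        simp only [mul_assoc]
    _ = T * (B⁻¹).val := by
        rw [h1, one_mul]

/-- The group `D^e` of the elements of `SL₂(ℤ[w])` which modulo `m` are the conjugates of elements of `D` by the matrix `diag(e, 1)`. -/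
def twD {a b : ℤ} (D : Subgroup (GQ a b)) (m : ℕ) (e : (Qf a b (ZMod m))ˣ) :
    Subgroup (GQ a b) where
  carrier := {y | ∃ x ∈ D, (rdq a b m y).val * !![e.val, 0; 0, 1] =
    !![e.val, 0; 0, 1] * (rdq a b m x).val}
  mul_mem' := by
    rintro y y' ⟨x, hx, h⟩ ⟨x', hx', h'⟩
    refine ⟨x * x', D.mul_mem hx hx', ?_⟩
    rw [map_mul, map_mul, Matrix.SpecialLinearGroup.coe_mul, Matrix.SpecialLinearGroup.coe_mul,
      mul_assoc, h', ← mul_assoc, h, mul_assoc]
  one_mem' := ⟨1, D.one_mem, by simp⟩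
  inv_mem' := by
    rintro y ⟨x, hx, h⟩
    refine ⟨x⁻¹, D.inv_mem hx, ?_⟩
    rw [map_inv, map_inv]
    exact tw_inv _ _ _ h

/-- [CG Z gen] `Λ` is isomorphic to a twisted form of `D`. (Uses `C_srd`, proved in `P_Csrd.lean`.)

Proof. Adapt `P_Chz.lean` and `P_Cimg.lean`. Let `C`, `E` be from `RhoG` at the modulus `m₀`, `e = det C` (a unit with the inverse `det E`), `T = diag(e, 1)`. The matrix `C * diag(e⁻¹, 1)` has determinant one, so it is `(rdq m₀ γ).val` (`C_srd`); `C = (rdq m₀ γ).val * T`.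
Claim: `ρ.range = γ (twD D m₀ e) γ⁻¹` (`twD D m₀ e` mapped by `MulAut.conj γ`). Both groups contain `Gam a b m₀` (`γ (Gam a b m₀) γ⁻¹ = Gam a b m₀`, the kernel of `rdq m₀`; `Gam a b m₀ ≤ twD D m₀ e` with `x = 1`), so it is enough to compare their images under `rdq m₀`. For `l : Λ` there is `x ∈ D` with `Φ(..) l = rdq m₀ x`
(`NatBij.range_eq` for `(rdq a b m₀).comp D.subtype`), and conversely for every `x ∈ D` there is such `l`; `(rdq m₀ (ρ l)).val = C * (rdq m₀ x).val * E`. For `y : GQ a b` the relation `(rdq m₀ y).val * T = T * (rdq m₀ x).val` is equivalent to `rdq m₀ (γ * y * γ⁻¹) = rdq m₀ (ρ l)`: multiply with `C`, `E`.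
For `y ∈ twD D m₀ e` with `x ∈ D` choose `l`; for `l` choose `x` and then `y = γ⁻¹ * ρ l * γ`. `Λ ≅ ρ.range` (`ρ` is injective), and `ρ.range ≅ twD D m₀ e` (`Subgroup.equivMapOfInjective`). -/
def Z_gen : Prop := ∀ (a b : ℤ) (D : Subgroup (GQ a b)) (m₀ : ℕ) [NeZero m₀], Gam a b m₀ ≤ D →
  ∀ (Λ : Type) [Group Λ] (Φ : NatBij D Λ) (ρ : Λ →* GQ a b), RhoG D.subtype Φ ρ →
  Gam a b m₀ ≤ ρ.range → Function.Injective ρ →
  ∃ e : (Qf a b (ZMod m₀))ˣ, Nonempty (Λ ≃* twD D m₀ e) ∧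
    ∃ C E : Matrix (Fin 2) (Fin 2) (Qf a b (ZMod m₀)), C * E = 1 ∧ E * C = 1 ∧
    (∀ l, (rdq a b m₀ (ρ l)).val =
      C * (Φ.toFun _ ((rdq a b m₀).comp D.subtype) l).val * E) ∧ C.det = e.val

/-- [CG Z nrm] isomorphic twisted forms. (Uses `C_srd`, proved in `P_Csrd.lean`.)

Proof. `det Y` is a unit modulo `m` (`Y * Y' = 1`). The matrix `S = diag(v² det Y, 1) * (v⁻¹ • Y')` has determinant one (`det Y * det Y' = 1`), so it is `(rdq m γ).val` (`C_srd`), and `diag(v² det Y, 1) = v • (S * Y)`, `T = diag(e, 1) = diag(u, 1) * diag(v² det Y, 1) = v • (U * S * Y)` modulo `m`, `U = diag(u, 1)`. Let `δ` be the automorphism of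
`GQ a b` which maps `[[x, y], [z, t]]` to `[[x, u y], [u' z, t]]`, the conjugation with `diag(u, 1)`, `u * u' = 1`. Then `y ∈ twD D m e` iff `(rdq m y).val = T X T⁻¹ = U S (Y X Y') S⁻¹ U⁻¹` for some `X = (rdq m x).val`, `x ∈ D`, and by the hypotheses `hY`, `hY'` this holds iff
`rdq m y = rdq m (δ (γ * x' * γ⁻¹))` for some `x' ∈ D`. So `twD D m e` is the image of `D` under the automorphism `x ↦ δ (γ * x * γ⁻¹)` of `GQ a b` (as `Gam a b m ≤ D`; `Gam a b m` is stable under this automorphism). So `twD D m e ≅ D`. -/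
def Z_nrm : Prop := ∀ (a b : ℤ) (D : Subgroup (GQ a b)) (m : ℕ) [NeZero m], Gam a b m ≤ D →
  ∀ (e v : (Qf a b (ZMod m))ˣ) (u u' : Qf a b ℤ) (Y Y' : Matrix (Fin 2) (Fin 2) (Qf a b (ZMod m))),
  u * u' = 1 → Y * Y' = 1 → Y' * Y = 1 →
  (∀ x ∈ D, ∃ y ∈ D, (rdq a b m y).val = Y * (rdq a b m x).val * Y') →
  (∀ x ∈ D, ∃ y ∈ D, (rdq a b m y).val = Y' * (rdq a b m x).val * Y) →
  e.val = Qfm a b (Int.castRingHom (ZMod m)) u * v.val ^ 2 * Y.det →
  Nonempty (twD D m e ≃* D)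

end

end Pool.Agent.F8.CG
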